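import Pool.Agent.Helper20.TY.EngF
import Pool.Agent.Helper20.TY.TabG
import Pool.Agent.Gen.TY.FS.SufA
import Pool.Agent.Gen.TY.FS.SufB
import Pool.Agent.Gen.TY.FR.Dat

/-!
MP_8ee768_co, project TH-Y', stage F: frames.
-/

set_option autoImplicit false

namespace Pool.Agent.Gen.TY.F

open Pool.Agent.Helper79.CV
open Pool.Agent.Helper20.TY
open Pool.Agent.Helper20.TY.EngF
open Pool.Agent.Gen.TY.FS
open Pool.Agent.Gen.TY.FR

def F_320 : FrX :=
  ⟨0x80080a000804040e000021010020010000020408822000040420300000140080100260014000080208008008802102010001010840a0824000882220000,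
    0xa6, 1, 0x728793a4, 4,
    [(0xa6, 1), (0x205396a8, 4), (0x10548796, 4), (0x214396a7, 4), (0x205396a8, 4), (0x10548796, 4)],
    [(0x728793a4, 4), (0x43627095, 4), (0x104382a5, 4), (0x437186a9, 4), (0x43627095, 4), (0x104382a5, 4)]⟩

def c_320 : frmChk tA tA F_320 = true := by decide +kernel

def r_320_0 : chkL rootF engF2 tA tA sA_212 sA_212 4 F_320 [(255, 0, 0), (256, 0, 18)]
    0x10b42d318c60741d = true := by
  decide +kernel

def r_320_1 : chkL rootF engF2 tA tA sA_212 sA_212 4 F_320 [(256, 18, 14)]
    0x42b3144711d0b = true := by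
  decide +kernel

def r_320_2 : chkL rootF engF2 tA tA sA_212 sA_212 4 F_320 [(256, 32, 0)]
    0x122c17 = true := by
  decide +kernel

theorem f_320 (h : TabsF) : FrameF repsF 212 F_320.f :=
  frame_of rfl c_320 ((runs_of engOK r_320_0).append ((runs_of engOK r_320_1).append (runs_of engOK r_320_2))) (by decide +kernel) h.1 h.1

def F_321 : FrX :=
  ⟨0x482000044040440000c20400200090001820400200040c2000200084014040030400000101010180082400002202408020090040090000101122000082,
    0xa0, 1, 0x21324050608596a6, 8,
    [(0xa0, 1), (0x538690a2, 4), (0x548790a1, 4), (0x21437690, 4), (0x538690a2, 4), (0x548790a1, 4)],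
    [(0x21324050608596a6, 8), (0x638195a4, 4), (0x62748095, 4), (0x103295a7, 4), (0x638195a4, 4), (0x62748095, 4)]⟩

def c_321 : frmChk tA tA F_321 = true := by decide +kernel

def r_321_0 : chkL rootF engF2 tA tA sA_212 sA_212 4 F_321 [(255, 0, 0), (256, 0, 16)]
    0x11586607a2606c1d = true := by
  decide +kernel

def r_321_1 : chkL rootF engF2 tA tA sA_212 sA_212 4 F_321 [(256, 16, 16)]
    0x41b0742b0782e = true := by
  decide +kernel

def r_321_2 : chkL rootF engF2 tA tA sA_212 sA_212 4 F_321 [(256, 32, 0)]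
    0x149466590333489611cc530c1b = true := by
  decide +kernel

theorem f_321 (h : TabsF) : FrameF repsF 212 F_321.f :=
  frame_of rfl c_321 ((runs_of engOK r_321_0).append ((runs_of engOK r_321_1).append (runs_of engOK r_321_2))) (by decide +kernel) h.1 h.1

def F_322 : FrX :=
  ⟨0x2002000900044004000e02041000141000800040810000018110000209002a02020200000808010880083400020402040021810000880000202120009010,
    0xa3, 1, 0x204354618497a3, 7,
    [(0xa3, 1), (0x208693a5, 4), (0x10548793, 4), (0x217693a4, 4), (0x208693a5, 4), (0x10548793, 4)],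
    [(0x204354618497a3, 7), (0x205174a3, 4), (0x62748395, 4), (0x607491a8, 4), (0x205174a3, 4), (0x62748395, 4)]⟩

def c_322 : frmChk tA tA F_322 = true := by decide +kernel

def r_322_0 : chkL rootF engF2 tA tA sA_212 sA_212 4 F_322 [(255, 0, 0), (256, 0, 19)]
    0x112c4b18c6318ea11347105ca5a1427 = true := by
  decide +kernel

def r_322_1 : chkL rootF engF2 tA tA sA_212 sA_212 4 F_322 [(256, 19, 15)]
    0x689a0f6005c4e12c3318c2b = true := by
  decide +kernel

def r_322_2 : chkL rootF engF2 tA tA sA_212 sA_212 4 F_322 [(256, 34, 0)]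
    0x10e8338c82d0744d81e2303c170742b0b40f = true := by
  decide +kernel

theorem f_322 (h : TabsF) : FrameF repsF 212 F_322.f :=
  frame_of rfl c_322 ((runs_of engOK r_322_0).append ((runs_of engOK r_322_1).append (runs_of engOK r_322_2))) (by decide +kernel) h.1 h.1

def F_323 : FrX :=
  ⟨0x482000044040440000c2040020009000182040002020842000a00010014008004400110020600200800800880204022080010188200404000824200004,
    0xa0, 1, 0x203141506271a5, 7,
    [(0xa0, 1), (0x538690a2, 4), (0x548790a1, 4), (0x21437690, 4), (0x538690a2, 4), (0x548790a1, 4)],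
    [(0x203141506271a5, 7), (0x658092a1, 4), (0x758492a3, 4), (0x31407692, 4), (0x658092a1, 4), (0x758492a3, 4)]⟩

def c_323 : frmChk tA tA F_323 = true := by decide +kernel

def r_323_0 : chkL rootF engF2 tA tA sA_212 sA_212 4 F_323 [(255, 0, 0), (256, 0, 22)]
    0x41e0f0176a02d = true := by
  decide +kernel

def r_323_1 : chkL rootF engF2 tA tA sA_212 sA_212 4 F_323 [(256, 22, 0)]
    0x10e83c05c369141b07455 = true := by
  decide +kernel

theorem f_323 (h : TabsF) : FrameF repsF 212 F_323.f :=
  frame_of rfl c_323 ((runs_of engOK r_323_0).append (runs_of engOK r_323_1)) (by decide +kernel) h.1 h.1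

def F_324 : FrX :=
  ⟨0x1c21020000040440000020410001010000820408882000080080800040002420206010009000100800834000a0602400021010041090000340120008000,
    0x0, 0, 0x107583, 3,
    [(0x0, 0), (0x205386a9, 4), (0x105487a9, 4), (0x214376a9, 4), (0x205386a9, 4), (0x105487a9, 4)],
    [(0x107583, 3), (0x216387a9, 4), (0x105374a9, 4), (0x206584a9, 4), (0x216387a9, 4), (0x105374a9, 4)]⟩

def c_324 : frmChk tA tA F_324 = true := by decide +kernel

def r_324_0 : chkL rootF engF2 tA tA sA_212 sA_212 4 F_324 [(255, 0, 0), (256, 0, 11)]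
    0x1 = true := by
  decide +kernel

def r_324_1 : chkL rootF engF2 tA tA sA_212 sA_212 4 F_324 [(256, 11, 6)]
    0x1454668e219c500f14c1706cb2 = true := by
  decide +kernel

def r_324_2 : chkL rootF engF2 tA tA sA_212 sA_212 4 F_324 [(256, 17, 3)]
    0x41714c1705c1705c1705c17 = true := by
  decide +kernel

def r_324_3 : chkL rootF engF2 tA tA sA_212 sA_212 4 F_324 [(256, 20, 4)]
    0x44b = true := by
  decide +kernel

def r_324_4 : chkL rootF engF2 tA tA sA_212 sA_212 4 F_324 [(256, 24, 4)]
    0x1 = true := by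
  decide +kernel

def r_324_5 : chkL rootF engF2 tA tA sA_212 sA_212 4 F_324 [(256, 28, 5)]
    0x10740f = true := by
  decide +kernel

def r_324_6 : chkL rootF engF2 tA tA sA_212 sA_212 4 F_324 [(256, 33, 4)]
    0x43315853 = true := by
  decide +kernel

def r_324_7 : chkL rootF engF2 tA tA sA_212 sA_212 4 F_324 [(256, 37, 0)]
    0x4a5 = true := by
  decide +kernel

theorem f_324 (h : TabsF) : FrameF repsF 212 F_324.f :=
  frame_of rfl c_324 ((runs_of engOK r_324_0).append ((runs_of engOK r_324_1).append ((runs_of engOK r_324_2).append ((runs_of engOK r_324_3).append ((runs_of engOK r_324_4).append ((runs_of engOK r_324_5).append ((runs_of engOK r_324_6).append (runs_of engOK r_324_7)))))))) (by decide +kernel) h.1 h.1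

def F_325 : FrX :=
  ⟨0x2002000900044004000e02041000141000800040810000018100802401020208300000101008008820800404800004240100200006040025000804041050,
    0xa3, 1, 0x1043728596a3, 6,
    [(0xa3, 1), (0x208693a5, 4), (0x10548793, 4), (0x217693a4, 4), (0x208693a5, 4), (0x10548793, 4)],
    [(0x1043728596a3, 6), (0x647195a8, 4), (0x10526483, 4), (0x647092a3, 4), (0x647195a8, 4), (0x10526483, 4)]⟩

def c_325 : frmChk tA tA F_325 = true := by decide +kernel

def r_325_0 : chkL rootF engF2 tA tA sA_212 sA_212 4 F_325 [(255, 0, 0), (256, 0, 16)]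
    0x40f = true := by
  decide +kernel

def r_325_1 : chkL rootF engF2 tA tA sA_212 sA_212 4 F_325 [(256, 16, 15)]
    0x42d11c17 = true := by
  decide +kernel

def r_325_2 : chkL rootF engF2 tA tA sA_212 sA_212 4 F_325 [(256, 31, 16)]
    0x50b = true := by
  decide +kernel

def r_325_3 : chkL rootF engF2 tA tA sA_212 sA_212 4 F_325 [(256, 47, 0)]
    0x1 = true := by
  decide +kernel

theorem f_325 (h : TabsF) : FrameF repsF 212 F_325.f :=
  frame_of rfl c_325 ((runs_of engOK r_325_0).append ((runs_of engOK r_325_1).append ((runs_of engOK r_325_2).append (runs_of engOK r_325_3)))) (by decide +kernel) h.1 h.1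

def F_326 : FrX :=
  ⟨0x80080a000804040e00002101002001000002040881081000040c00800220100008501020008004010510000028600802001118001008401040842800000,
    0xa6, 1, 0x314352728098a2, 7,
    [(0xa6, 1), (0x205396a8, 4), (0x10548796, 4), (0x214396a7, 4), (0x205396a8, 4), (0x10548796, 4)],
    [(0x314352728098a2, 7), (0x427096a8, 4), (0x21708395, 4), (0x416570a3, 4), (0x427096a8, 4), (0x21708395, 4)]⟩

def c_326 : frmChk tA tA F_326 = true := by decide +kernel

def r_326_0 : chkL rootF engF2 tA tA sA_212 sA_212 4 F_326 [(255, 0, 0), (256, 0, 16)]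
    0x1134532c50e4684e05d1a22c8b0741d = true := by
  decide +kernel

def r_326_1 : chkL rootF engF2 tA tA sA_212 sA_212 4 F_326 [(256, 16, 19)]
    0x42b60d83e084b12c2b = true := by
  decide +kernel

def r_326_2 : chkL rootF engF2 tA tA sA_212 sA_212 4 F_326 [(256, 35, 0)]
    0x44b138cc05c8d4584e170175509306c0f = true := by
  decide +kernel

theorem f_326 (h : TabsF) : FrameF repsF 212 F_326.f :=
  frame_of rfl c_326 ((runs_of engOK r_326_0).append ((runs_of engOK r_326_1).append (runs_of engOK r_326_2))) (by decide +kernel) h.1 h.1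

def F_327 : FrX :=
  ⟨0x482000044040440000c2040020009000182040002100802000a0001003400800440010202200020080080108020414002040a108200402100804200004,
    0xa0, 1, 0x30435064768590a6, 8,
    [(0xa0, 1), (0x538690a2, 4), (0x548790a1, 4), (0x21437690, 4), (0x538690a2, 4), (0x548790a1, 4)],
    [(0x30435064768590a6, 8), (0x758492a3, 4), (0x30758691, 4), (0x216475a0, 4), (0x758492a3, 4), (0x30758691, 4)]⟩

def c_327 : frmChk tA tA F_327 = true := by decide +kernel

def r_327_0 : chkL rootF engF2 tA tA sA_212 sA_212 4 F_327 [(255, 0, 0), (256, 0, 23)]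
    0x5252383a0d42e1541d = true := by
  decide +kernel

def r_327_1 : chkL rootF engF2 tA tA sA_212 sA_212 4 F_327 [(256, 23, 0)]
    0x4170d42d = true := by
  decide +kernel

theorem f_327 (h : TabsF) : FrameF repsF 212 F_327.f :=
  frame_of rfl c_327 ((runs_of engOK r_327_0).append (runs_of engOK r_327_1)) (by decide +kernel) h.1 h.1

def F_328 : FrX :=
  ⟨0x1c21020000040440000020410001010000820408a000110000004410040402100010110002404101004001008840222104800a000500008004206c00000,
    0x0, 0, 0x21546474, 4,
    [(0x0, 0), (0x205386a9, 4), (0x105487a9, 4), (0x214376a9, 4), (0x205386a9, 4), (0x105487a9, 4)],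
    [(0x21546474, 4), (0x104385a9, 4), (0x207486a9, 4), (0x216573a9, 4), (0x104385a9, 4), (0x207486a9, 4)]⟩

def c_328 : frmChk tA tA F_328 = true := by decide +kernel

def r_328_0 : chkL rootF engF2 tA tA sA_212 sA_212 4 F_328 [(255, 0, 0), (256, 0, 2)]
    0x4331e0e114c333503c = true := by
  decide +kernel

def r_328_1 : chkL rootF engF2 tA tA sA_212 sA_212 4 F_328 [(256, 2, 2)]
    0x11704b = true := by
  decide +kernel

def r_328_2 : chkL rootF engF2 tA tA sA_212 sA_212 4 F_328 [(256, 4, 2)]
    0x111c47 = true := by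
  decide +kernel

def r_328_3 : chkL rootF engF2 tA tA sA_212 sA_212 4 F_328 [(256, 6, 1)]
    0x1 = true := by
  decide +kernel

def r_328_4 : chkL rootF engF2 tA tA sA_212 sA_212 4 F_328 [(256, 7, 1)]
    0x48705c8717047 = true := by
  decide +kernel

def r_328_5 : chkL rootF engF2 tA tA sA_212 sA_212 4 F_328 [(256, 8, 15)]
    0x11705c = true := by
  decide +kernel

def r_328_6 : chkL rootF engF2 tA tA sA_212 sA_212 4 F_328 [(256, 23, 5)]
    0x1 = true := by
  decide +kernel

def r_328_7 : chkL rootF engF2 tA tA sA_212 sA_212 4 F_328 [(256, 28, 5)]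
    0x103c6c = true := by
  decide +kernel

def r_328_8 : chkL rootF engF2 tA tA sA_212 sA_212 4 F_328 [(256, 33, 1)]
    0x19909c = true := by
  decide +kernel

def r_328_9 : chkL rootF engF2 tA tA sA_212 sA_212 4 F_328 [(256, 34, 1)]
    0x417 = true := by
  decide +kernel

def r_328_10 : chkL rootF engF2 tA tA sA_212 sA_212 4 F_328 [(256, 35, 2)]
    0x42b = true := by
  decide +kernel

def r_328_11 : chkL rootF engF2 tA tA sA_212 sA_212 4 F_328 [(256, 37, 2)]
    0x1 = true := by
  decide +kernel

def r_328_12 : chkL rootF engF2 tA tA sA_212 sA_212 4 F_328 [(256, 39, 3)]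
    0x4270741d = true := by
  decide +kernel

def r_328_13 : chkL rootF engF2 tA tA sA_212 sA_212 4 F_328 [(256, 42, 2)]
    0x1 = true := by
  decide +kernel

def r_328_14 : chkL rootF engF2 tA tA sA_212 sA_212 4 F_328 [(256, 44, 2)]
    0x4d8 = true := by
  decide +kernel

def r_328_15 : chkL rootF engF2 tA tA sA_212 sA_212 4 F_328 [(256, 46, 0)]
    0x705 = true := by
  decide +kernel

theorem f_328 (h : TabsF) : FrameF repsF 212 F_328.f :=
  frame_of rfl c_328 ((runs_of engOK r_328_0).append ((runs_of engOK r_328_1).append ((runs_of engOK r_328_2).append ((runs_of engOK r_328_3).append ((runs_of engOK r_328_4).append ((runs_of engOK r_328_5).append ((runs_of engOK r_328_6).append ((runs_of engOK r_328_7).append ((runs_of engOK r_328_8).append ((runs_of engOK r_328_9).append ((runs_of engOK r_328_10).append ((runs_of engOK r_328_11).append ((runs_of engOK r_328_12).append ((runs_of engOK r_328_13).append ((runs_of engOK r_328_14).append (runs_of engOK r_328_15)))))))))))))))) (by decide +kernel) h.1 h.1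

def F_329 : FrX :=
  ⟨0x482000044040440000c2040020009000182040000a00048020000180080188208010000888000012000220400200222018008000508080110220200084,
    0xa0, 1, 0x304161708290a1, 7,
    [(0xa0, 1), (0x538690a2, 4), (0x548790a1, 4), (0x21437690, 4), (0x538690a2, 4), (0x548790a1, 4)],
    [(0x304161708290a1, 7), (0x42507698, 4), (0x325176a9, 4), (0x104376a8, 4), (0x42507698, 4), (0x325176a9, 4)]⟩

def c_329 : frmChk tA tA F_329 = true := by decide +kernel

def r_329_0 : chkL rootF engF2 tA tA sA_212 sA_212 4 F_329 [(255, 0, 0), (256, 0, 16)]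
    0x41d0f05c = true := by
  decide +kernel

def r_329_1 : chkL rootF engF2 tA tA sA_212 sA_212 4 F_329 [(256, 16, 17)]
    0x1 = true := by
  decide +kernel

def r_329_2 : chkL rootF engF2 tA tA sA_212 sA_212 4 F_329 [(256, 33, 14)]
    0x1 = true := by
  decide +kernel

def r_329_3 : chkL rootF engF2 tA tA sA_212 sA_212 4 F_329 [(256, 47, 0)]
    0x1 = true := by
  decide +kernel

theorem f_329 (h : TabsF) : FrameF repsF 212 F_329.f :=
  frame_of rfl c_329 ((runs_of engOK r_329_0).append ((runs_of engOK r_329_1).append ((runs_of engOK r_329_2).append (runs_of engOK r_329_3)))) (by decide +kernel) h.1 h.1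

def F_330 : FrX :=
  ⟨0x2002000900044004000e02041000141000800040800801014000a0400200408030010010402400101004001200040222004040a020401008001216000010,
    0xa3, 1, 0x1063758294a3, 6,
    [(0xa3, 1), (0x208693a5, 4), (0x10548793, 4), (0x217693a4, 4), (0x208693a5, 4), (0x10548793, 4)],
    [(0x1063758294a3, 6), (0x326481a7, 4), (0x10526497, 4), (0x536480a9, 4), (0x326481a7, 4), (0x10526497, 4)]⟩

def c_330 : frmChk tA tA F_330 = true := by decide +kernel

def r_330_0 : chkL rootF engF2 tA tA sA_212 sA_212 4 F_330 [(255, 0, 0), (256, 0, 25)]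
    0x1 = true := by
  decide +kernel

def r_330_1 : chkL rootF engF2 tA tA sA_212 sA_212 4 F_330 [(256, 25, 0)]
    0x10cd31 = true := by
  decide +kernel

theorem f_330 (h : TabsF) : FrameF repsF 212 F_330.f :=
  frame_of rfl c_330 ((runs_of engOK r_330_0).append (runs_of engOK r_330_1)) (by decide +kernel) h.1 h.1

def F_331 : FrX :=
  ⟨0x1c210200000404400000204100010100008204089008008000080240080008400440410200202020800080900060414002140a000600002740010200000,
    0x0, 0, 0x216475, 3,
    [(0x0, 0), (0x205386a9, 4), (0x105487a9, 4), (0x214376a9, 4), (0x205386a9, 4), (0x105487a9, 4)],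
    [(0x216475, 3), (0x107384a9, 4), (0x207685a9, 4), (0x215463a9, 4), (0x107384a9, 4), (0x207685a9, 4)]⟩

def c_331 : frmChk tA tA F_331 = true := by decide +kernel

def r_331_0 : chkL rootF engF2 tA tA sA_212 sA_212 4 F_331 [(255, 0, 0), (256, 0, 3)]
    0x1 = true := by
  decide +kernel

def r_331_1 : chkL rootF engF2 tA tA sA_212 sA_212 4 F_331 [(256, 3, 4)]
    0x1 = true := by
  decide +kernel

def r_331_2 : chkL rootF engF2 tA tA sA_212 sA_212 4 F_331 [(256, 7, 4)]
    0x1 = true := by
  decide +kernel

def r_331_3 : chkL rootF engF2 tA tA sA_212 sA_212 4 F_331 [(256, 11, 5)]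
    0x1 = true := by
  decide +kernel

def r_331_4 : chkL rootF engF2 tA tA sA_212 sA_212 4 F_331 [(256, 16, 4)]
    0x1 = true := by
  decide +kernel

def r_331_5 : chkL rootF engF2 tA tA sA_212 sA_212 4 F_331 [(256, 20, 7)]
    0x455 = true := by
  decide +kernel

def r_331_6 : chkL rootF engF2 tA tA sA_212 sA_212 4 F_331 [(256, 27, 15)]
    0x107896 = true := by
  decide +kernel

def r_331_7 : chkL rootF engF2 tA tA sA_212 sA_212 4 F_331 [(256, 42, 5)]
    0x1 = true := by
  decide +kernel

def r_331_8 : chkL rootF engF2 tA tA sA_212 sA_212 4 F_331 [(256, 47, 0)]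
    0x52a = true := by
  decide +kernel

theorem f_331 (h : TabsF) : FrameF repsF 212 F_331.f :=
  frame_of rfl c_331 ((runs_of engOK r_331_0).append ((runs_of engOK r_331_1).append ((runs_of engOK r_331_2).append ((runs_of engOK r_331_3).append ((runs_of engOK r_331_4).append ((runs_of engOK r_331_5).append ((runs_of engOK r_331_6).append ((runs_of engOK r_331_7).append (runs_of engOK r_331_8))))))))) (by decide +kernel) h.1 h.1

def F_332 : FrX :=
  ⟨0x80080a000804040e0000210100200100000204089001000808200214088000400408100200202100800800100060114002400a000400202740080820000,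
    0xa6, 1, 0x304251768295a2, 7,
    [(0xa6, 1), (0x205396a8, 4), (0x10548796, 4), (0x214396a7, 4), (0x205396a8, 4), (0x10548796, 4)],
    [(0x304251768295a2, 7), (0x748190a3, 4), (0x53648192, 4), (0x207681a5, 4), (0x748190a3, 4), (0x53648192, 4)]⟩

def c_332 : frmChk tA tA F_332 = true := by decide +kernel

def r_332_0 : chkL rootF engF2 tA tA sA_212 sA_212 4 F_332 [(255, 0, 0), (256, 0, 15)]
    0x4532709a48d264390d4358a21e83439260741e29859 = true := by
  decide +kernel

def r_332_1 : chkL rootF engF2 tA tA sA_212 sA_212 4 F_332 [(256, 15, 18)]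
    0x14381e = true := by
  decide +kernel

def r_332_2 : chkL rootF engF2 tA tA sA_212 sA_212 4 F_332 [(256, 33, 0)]
    0x40f03c5306c1b = true := by
  decide +kernel

theorem f_332 (h : TabsF) : FrameF repsF 212 F_332.f :=
  frame_of rfl c_332 ((runs_of engOK r_332_0).append ((runs_of engOK r_332_1).append (runs_of engOK r_332_2))) (by decide +kernel) h.1 h.1

def F_333 : FrX :=
  ⟨0x482000044040440000c204002000900018204002000202080002081068010800002040010400411200001091202000a004008801010004000904010410,
    0xa0, 1, 0x60768596a0, 5,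
    [(0xa0, 1), (0x538690a2, 4), (0x548790a1, 4), (0x21437690, 4), (0x538690a2, 4), (0x548790a1, 4)],
    [(0x60768596a0, 5), (0x768395a2, 4), (0x507684a1, 4), (0x21437690, 4), (0x768395a2, 4), (0x507684a1, 4)]⟩

def c_333 : frmChk tA tA F_333 = true := by decide +kernel

def r_333_0 : chkL rootF engF2 tA tA sA_212 sA_212 4 F_333 [(255, 0, 0), (256, 0, 24)]
    0x41d075131d1310e81d09c2e = true := by
  decide +kernel

def r_333_1 : chkL rootF engF2 tA tA sA_212 sA_212 4 F_333 [(256, 24, 0)]
    0x10e83a03c2e344d1 = true := by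
  decide +kernel

theorem f_333 (h : TabsF) : FrameF repsF 212 F_333.f :=
  frame_of rfl c_333 ((runs_of engOK r_333_0).append (runs_of engOK r_333_1)) (by decide +kernel) h.1 h.1

def F_334 : FrX :=
  ⟨0x482000044040440000c204002000900018204000108102000404010000809000820241002004020004040108981000028010828008040a100002800001,
    0xa0, 1, 0x304265748298a3, 7,
    [(0xa0, 1), (0x538690a2, 4), (0x548790a1, 4), (0x21437690, 4), (0x538690a2, 4), (0x548790a1, 4)],
    [(0x304265748298a3, 7), (0x408395a6, 4), (0x31407692, 4), (0x405281a7, 4), (0x408395a6, 4), (0x31407692, 4)]⟩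

def c_334 : frmChk tA tA F_334 = true := by decide +kernel

def r_334_0 : chkL rootF engF2 tA tA sA_212 sA_212 4 F_334 [(255, 0, 0), (256, 0, 16)]
    0x4552341b = true := by
  decide +kernel

def r_334_1 : chkL rootF engF2 tA tA sA_212 sA_212 4 F_334 [(256, 16, 15)]
    0x105c470acca22c471582b = true := by
  decide +kernel

def r_334_2 : chkL rootF engF2 tA tA sA_212 sA_212 4 F_334 [(256, 31, 16)]
    0x1196439142e0e82e = true := by
  decide +kernel

def r_334_3 : chkL rootF engF2 tA tA sA_212 sA_212 4 F_334 [(256, 47, 0)]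
    0x4b4 = true := by
  decide +kernel

theorem f_334 (h : TabsF) : FrameF repsF 212 F_334.f :=
  frame_of rfl c_334 ((runs_of engOK r_334_0).append ((runs_of engOK r_334_1).append ((runs_of engOK r_334_2).append (runs_of engOK r_334_3)))) (by decide +kernel) h.1 h.1

def F_335 : FrX :=
  ⟨0x2002000900044004000e02041000141000800040810000028081008181020101040001000804040812000110910020040004208000400188004140004084,
    0xa3, 1, 0x10304351647598a0, 8,
    [(0xa3, 1), (0x208693a5, 4), (0x10548793, 4), (0x217693a4, 4), (0x208693a5, 4), (0x10548793, 4)],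
    [(0x10304351647598a0, 8), (0x748391a2, 4), (0x768390a5, 4), (0x10526483, 4), (0x748391a2, 4), (0x768390a5, 4)]⟩

def c_335 : frmChk tA tA F_335 = true := by decide +kernel

def r_335_0 : chkL rootF engF2 tA tA sA_212 sA_212 4 F_335 [(255, 0, 0), (256, 0, 16)]
    0x4550cc3319433 = true := by
  decide +kernel

def r_335_1 : chkL rootF engF2 tA tA sA_212 sA_212 4 F_335 [(256, 16, 16)]
    0x112c1b = true := by
  decide +kernel

def r_335_2 : chkL rootF engF2 tA tA sA_212 sA_212 4 F_335 [(256, 32, 0)]
    0x1589236856205c4d0ac3a09c2b0ac8d = true := by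
  decide +kernel

theorem f_335 (h : TabsF) : FrameF repsF 212 F_335.f :=
  frame_of rfl c_335 ((runs_of engOK r_335_0).append ((runs_of engOK r_335_1).append (runs_of engOK r_335_2))) (by decide +kernel) h.1 h.1

def F_336 : FrX :=
  ⟨0x80080a000804040e0000210100200100000204088220000111002040000406404088000089020001200480011011000202000202040060c000244080010,
    0xa6, 1, 0x2154758495a0, 6,
    [(0xa6, 1), (0x205396a8, 4), (0x10548796, 4), (0x214396a7, 4), (0x205396a8, 4), (0x10548796, 4)],
    [(0x2154758495a0, 6), (0x657093a1, 4), (0x547098a2, 4), (0x21647083, 4), (0x657093a1, 4), (0x547098a2, 4)]⟩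

def c_336 : frmChk tA tA F_336 = true := by decide +kernel

def r_336_0 : chkL rootF engF2 tA tA sA_212 sA_212 4 F_336 [(255, 0, 0), (256, 0, 25)]
    0x42b43916 = true := by
  decide +kernel

def r_336_1 : chkL rootF engF2 tA tA sA_212 sA_212 4 F_336 [(256, 25, 0)]
    0x106c66258d4 = true := by
  decide +kernel

theorem f_336 (h : TabsF) : FrameF repsF 212 F_336.f :=
  frame_of rfl c_336 ((runs_of engOK r_336_0).append (runs_of engOK r_336_1)) (by decide +kernel) h.1 h.1

def F_337 : FrX :=
  ⟨0x2002000900044004000e02041000141000800040810000028081004101020101040201000810280812000110210020040004201000400188004140004084,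
    0xa3, 1, 0x213240708198a5, 7,
    [(0xa3, 1), (0x208693a5, 4), (0x10548793, 4), (0x217693a4, 4), (0x208693a5, 4), (0x10548793, 4)],
    [(0x213240708198a5, 7), (0x527396a1, 4), (0x528794a0, 4), (0x10526483, 4), (0x527396a1, 4), (0x528794a0, 4)]⟩

def c_337 : frmChk tA tA F_337 = true := by decide +kernel

def r_337_0 : chkL rootF engF2 tA tA sA_212 sA_212 4 F_337 [(255, 0, 0), (256, 0, 26)]
    0x40f12c4b0b82e0e80f1342ec60391702e0b83916558 = true := by
  decide +kernel

def r_337_1 : chkL rootF engF2 tA tA sA_212 sA_212 4 F_337 [(256, 26, 0)]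
    0x45a1682e0ac3350d23459a15890bca0e2386e00ac742942b692e005c1e0ac9a6282e0b847b05190750d47027 = true := by
  decide +kernel

theorem f_337 (h : TabsF) : FrameF repsF 212 F_337.f :=
  frame_of rfl c_337 ((runs_of engOK r_337_0).append (runs_of engOK r_337_1)) (by decide +kernel) h.1 h.1

def F_338 : FrX :=
  ⟨0x482000044040440000c2040020009000182040002100802008040008900090000212002022000200800801080204204284104040200002102104010002,
    0xa0, 1, 0x10304352657295a2, 8,
    [(0xa0, 1), (0x538690a2, 4), (0x548790a1, 4), (0x21437690, 4), (0x538690a2, 4), (0x548790a1, 4)],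
    [(0x10304352657295a2, 8), (0x768294a3, 4), (0x30768591, 4), (0x415276a0, 4), (0x768294a3, 4), (0x30768591, 4)]⟩

def c_338 : frmChk tA tA F_338 = true := by decide +kernel

def r_338_0 : chkL rootF engF2 tA tA sA_212 sA_212 4 F_338 [(255, 0, 0), (256, 0, 15)]
    0x10b4330b866171431380f59123a288d22e8922e8a06c551585651986268c903c0f = true := by
  decide +kernel

def r_338_1 : chkL rootF engF2 tA tA sA_212 sA_212 4 F_338 [(256, 15, 16)]
    0x11385a9160781c4d915980ad1391471138560ace16a324385e01381e1a847 = true := by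
  decide +kernel

def r_338_2 : chkL rootF engF2 tA tA sA_212 sA_212 4 F_338 [(256, 31, 0)]
    0x1074713447106c0f0d836 = true := by
  decide +kernel

theorem f_338 (h : TabsF) : FrameF repsF 212 F_338.f :=
  frame_of rfl c_338 ((runs_of engOK r_338_0).append ((runs_of engOK r_338_1).append (runs_of engOK r_338_2))) (by decide +kernel) h.1 h.1

def F_339 : FrX :=
  ⟨0x2002000900044004000e02041000141000800040801000228010040101028208000001100848000880080400020402024042208040440180040080044040,
    0xa3, 1, 0x43618195a7, 5,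
    [(0xa3, 1), (0x208693a5, 4), (0x10548793, 4), (0x217693a4, 4), (0x208693a5, 4), (0x10548793, 4)],
    [(0x43618195a7, 5), (0x20617594, 4), (0x758093a6, 4), (0x437582a1, 4), (0x20617594, 4), (0x758093a6, 4)]⟩

def c_339 : frmChk tA tA F_339 = true := by decide +kernel

def r_339_0 : chkL rootF engF2 tA tA sA_212 sA_212 4 F_339 [(255, 0, 0), (256, 0, 16)]
    0x10e82703c8b06c66 = true := by
  decide +kernel

def r_339_1 : chkL rootF engF2 tA tA sA_212 sA_212 4 F_339 [(256, 16, 14)]
    0x43912ec40d40f = true := by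
  decide +kernel

def r_339_2 : chkL rootF engF2 tA tA sA_212 sA_212 4 F_339 [(256, 30, 17)]
    0x5524583a0cc2e = true := by
  decide +kernel

def r_339_3 : chkL rootF engF2 tA tA sA_212 sA_212 4 F_339 [(256, 47, 0)]
    0x1 = true := by
  decide +kernel

theorem f_339 (h : TabsF) : FrameF repsF 212 F_339.f :=
  frame_of rfl c_339 ((runs_of engOK r_339_0).append ((runs_of engOK r_339_1).append ((runs_of engOK r_339_2).append (runs_of engOK r_339_3)))) (by decide +kernel) h.1 h.1

def F_340 : FrX :=
  ⟨0x1c2102000004044000002041000101000082040888200008002020200000a08011010100840080080080420120404124100402020490181000180000010,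
    0x0, 0, 0x21546576, 4,
    [(0x0, 0), (0x205386a9, 4), (0x105487a9, 4), (0x214376a9, 4), (0x205386a9, 4), (0x105487a9, 4)],
    [(0x21546576, 4), (0x106387a9, 4), (0x206584a9, 4), (0x215374a9, 4), (0x106387a9, 4), (0x206584a9, 4)]⟩

def c_340 : frmChk tA tA F_340 = true := by decide +kernel

def r_340_0 : chkL rootF engF2 tA tA sA_212 sA_212 4 F_340 [(255, 0, 0), (256, 0, 11)]
    0x12b053 = true := by
  decide +kernel

def r_340_1 : chkL rootF engF2 tA tA sA_212 sA_212 4 F_340 [(256, 11, 3)]
    0x4ac = true := by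
  decide +kernel

def r_340_2 : chkL rootF engF2 tA tA sA_212 sA_212 4 F_340 [(256, 14, 4)]
    0x1 = true := by
  decide +kernel

def r_340_3 : chkL rootF engF2 tA tA sA_212 sA_212 4 F_340 [(256, 18, 1)]
    0x1 = true := by
  decide +kernel

def r_340_4 : chkL rootF engF2 tA tA sA_212 sA_212 4 F_340 [(256, 19, 2)]
    0x4c6 = true := by
  decide +kernel

def r_340_5 : chkL rootF engF2 tA tA sA_212 sA_212 4 F_340 [(256, 21, 2)]
    0x1 = true := by
  decide +kernel

def r_340_6 : chkL rootF engF2 tA tA sA_212 sA_212 4 F_340 [(256, 23, 3)]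
    0x4272c41d14f0314e0bc0f0314f03 = true := by
  decide +kernel

def r_340_7 : chkL rootF engF2 tA tA sA_212 sA_212 4 F_340 [(256, 26, 2)]
    0x1134361541d = true := by
  decide +kernel

def r_340_8 : chkL rootF engF2 tA tA sA_212 sA_212 4 F_340 [(256, 28, 2)]
    0x41d21c2e = true := by
  decide +kernel

def r_340_9 : chkL rootF engF2 tA tA sA_212 sA_212 4 F_340 [(256, 30, 3)]
    0x10752ac0d545485914c5314c5316853 = true := by
  decide +kernel

def r_340_10 : chkL rootF engF2 tA tA sA_212 sA_212 4 F_340 [(256, 33, 2)]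
    0x48714c530e88d0e88b = true := by
  decide +kernel

def r_340_11 : chkL rootF engF2 tA tA sA_212 sA_212 4 F_340 [(256, 35, 2)]
    0x1 = true := by
  decide +kernel

def r_340_12 : chkL rootF engF2 tA tA sA_212 sA_212 4 F_340 [(256, 37, 2)]
    0x1 = true := by
  decide +kernel

def r_340_13 : chkL rootF engF2 tA tA sA_212 sA_212 4 F_340 [(256, 39, 1)]
    0x106c1b07453 = true := by
  decide +kernel

def r_340_14 : chkL rootF engF2 tA tA sA_212 sA_212 4 F_340 [(256, 40, 0)]
    0x113436 = true := by
  decide +kernel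

theorem f_340 (h : TabsF) : FrameF repsF 212 F_340.f :=
  frame_of rfl c_340 ((runs_of engOK r_340_0).append ((runs_of engOK r_340_1).append ((runs_of engOK r_340_2).append ((runs_of engOK r_340_3).append ((runs_of engOK r_340_4).append ((runs_of engOK r_340_5).append ((runs_of engOK r_340_6).append ((runs_of engOK r_340_7).append ((runs_of engOK r_340_8).append ((runs_of engOK r_340_9).append ((runs_of engOK r_340_10).append ((runs_of engOK r_340_11).append ((runs_of engOK r_340_12).append ((runs_of engOK r_340_13).append (runs_of engOK r_340_14))))))))))))))) (by decide +kernel) h.1 h.1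

def F_341 : FrX :=
  ⟨0x2002000900044004000e02041000141000800040801000228002044101008208000001100848000880080400020404124100200040480180040180044040,
    0xa3, 1, 0x21405260708391a3, 8,
    [(0xa3, 1), (0x208693a5, 4), (0x10548793, 4), (0x217693a4, 4), (0x208693a5, 4), (0x10548793, 4)],
    [(0x21405260708391a3, 8), (0x437582a1, 4), (0x10638297, 4), (0x648295a0, 4), (0x437582a1, 4), (0x10638297, 4)]⟩

def c_341 : frmChk tA tA F_341 = true := by decide +kernel

def r_341_0 : chkL rootF engF2 tA tA sA_212 sA_212 4 F_341 [(255, 0, 0), (256, 0, 17)]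
    0x10e8270e94a11d430cc631683907417 = true := by
  decide +kernel

def r_341_1 : chkL rootF engF2 tA tA sA_212 sA_212 4 F_341 [(256, 17, 15)]
    0x181c53a48470e43914c1b = true := by
  decide +kernel

def r_341_2 : chkL rootF engF2 tA tA sA_212 sA_212 4 F_341 [(256, 32, 0)]
    0x42703c1b = true := by
  decide +kernel

theorem f_341 (h : TabsF) : FrameF repsF 212 F_341.f :=
  frame_of rfl c_341 ((runs_of engOK r_341_0).append ((runs_of engOK r_341_1).append (runs_of engOK r_341_2))) (by decide +kernel) h.1 h.1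

def F_342 : FrX :=
  ⟨0x80080a000804040e0000210100200100000204088101408102001002002400004801103400000400210080082021300002010204800100a000a10080008,
    0xa6, 1, 0x31526086a2, 5,
    [(0xa6, 1), (0x205396a8, 4), (0x10548796, 4), (0x214396a7, 4), (0x205396a8, 4), (0x10548796, 4)],
    [(0x31526086a2, 5), (0x218095a6, 4), (0x42637095, 4), (0x418795a3, 4), (0x218095a6, 4), (0x42637095, 4)]⟩

def c_342 : frmChk tA tA F_342 = true := by decide +kernel

def r_342_0 : chkL rootF engF2 tA tA sA_212 sA_212 4 F_342 [(255, 0, 0), (256, 0, 15)]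
    0x44b324c932447360471342d = true := by
  decide +kernel

def r_342_1 : chkL rootF engF2 tA tA sA_212 sA_212 4 F_342 [(256, 15, 18)]
    0x103c1705c17 = true := by
  decide +kernel

def r_342_2 : chkL rootF engF2 tA tA sA_212 sA_212 4 F_342 [(256, 33, 0)]
    0x45503d83 = true := by
  decide +kernel

theorem f_342 (h : TabsF) : FrameF repsF 212 F_342.f :=
  frame_of rfl c_342 ((runs_of engOK r_342_0).append ((runs_of engOK r_342_1).append (runs_of engOK r_342_2))) (by decide +kernel) h.1 h.1

def F_343 : FrX :=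
  ⟨0x2002000900044004000e0204100014100080004080080028400840000882002020001220089080380008200002040810000100201080180810221000a000,
    0xa3, 1, 0x203041517094a2, 7,
    [(0xa3, 1), (0x208693a5, 4), (0x10548793, 4), (0x217693a4, 4), (0x208693a5, 4), (0x10548793, 4)],
    [(0x203041517094a2, 7), (0x104286a7, 4), (0x10758394, 4), (0x106392a5, 4), (0x104286a7, 4), (0x10758394, 4)]⟩

def c_343 : frmChk tA tA F_343 = true := by decide +kernel

def r_343_0 : chkL rootF engF2 tA tA sA_212 sA_212 4 F_343 [(255, 0, 0), (256, 0, 16)]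
    0x1587c0 = true := by
  decide +kernel

def r_343_1 : chkL rootF engF2 tA tA sA_212 sA_212 4 F_343 [(256, 16, 17)]
    0x4a30e6642a4170d9861b04d = true := by
  decide +kernel

def r_343_2 : chkL rootF engF2 tA tA sA_212 sA_212 4 F_343 [(256, 33, 14)]
    0x44b194350e42d = true := by
  decide +kernel

def r_343_3 : chkL rootF engF2 tA tA sA_212 sA_212 4 F_343 [(256, 47, 0)]
    0x1 = true := by
  decide +kernel

theorem f_343 (h : TabsF) : FrameF repsF 212 F_343.f :=
  frame_of rfl c_343 ((runs_of engOK r_343_0).append ((runs_of engOK r_343_1).append ((runs_of engOK r_343_2).append (runs_of engOK r_343_3)))) (by decide +kernel) h.1 h.1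

def F_344 : FrX :=
  ⟨0x482000044040440000c2040020009000182040020000882000020810010c10024020000322400224100000400201802010082004108000000808800848,
    0xa0, 1, 0x3250768097a5, 6,
    [(0xa0, 1), (0x538690a2, 4), (0x548790a1, 4), (0x21437690, 4), (0x538690a2, 4), (0x548790a1, 4)],
    [(0x3250768097a5, 6), (0x607583a2, 4), (0x608195a4, 4), (0x31426097, 4), (0x607583a2, 4), (0x608195a4, 4)]⟩

def c_344 : frmChk tA tA F_344 = true := by decide +kernel

def r_344_0 : chkL rootF engF2 tA tA sA_212 sA_212 4 F_344 [(255, 0, 0), (256, 0, 15)]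
    0x10b85314c950f00f11c3a = true := by
  decide +kernel

def r_344_1 : chkL rootF engF2 tA tA sA_212 sA_212 4 F_344 [(256, 15, 16)]
    0x11581b0781e0781d09c1e = true := by
  decide +kernel

def r_344_2 : chkL rootF engF2 tA tA sA_212 sA_212 4 F_344 [(256, 31, 0)]
    0x19280f03c3503c0f = true := by
  decide +kernel

theorem f_344 (h : TabsF) : FrameF repsF 212 F_344.f :=
  frame_of rfl c_344 ((runs_of engOK r_344_0).append ((runs_of engOK r_344_1).append (runs_of engOK r_344_2))) (by decide +kernel) h.1 h.1

def F_345 : FrX :=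
  ⟨0x2002000900044004000e02041000141000800040810000018110006100102208200000101008008820800404800001040100800010843408000804044044,
    0xa3, 1, 0x607095a8, 4,
    [(0xa3, 1), (0x208693a5, 4), (0x10548793, 4), (0x217693a4, 4), (0x208693a5, 4), (0x10548793, 4)],
    [(0x607095a8, 4), (0x728593a0, 4), (0x718594a6, 4), (0x21436085, 4), (0x728593a0, 4), (0x718594a6, 4)]⟩

def c_345 : frmChk tA tA F_345 = true := by decide +kernel

def r_345_0 : chkL rootF engF2 tA tA sA_212 sA_212 4 F_345 [(255, 0, 0), (256, 0, 18)]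
    0x4b409e23 = true := by
  decide +kernel

def r_345_1 : chkL rootF engF2 tA tA sA_212 sA_212 4 F_345 [(256, 18, 16)]
    0x14b00f11c4b05c47 = true := by
  decide +kernel

def r_345_2 : chkL rootF engF2 tA tA sA_212 sA_212 4 F_345 [(256, 34, 0)]
    0x49531585238a3298330d833 = true := by
  decide +kernel

theorem f_345 (h : TabsF) : FrameF repsF 212 F_345.f :=
  frame_of rfl c_345 ((runs_of engOK r_345_0).append ((runs_of engOK r_345_1).append (runs_of engOK r_345_2))) (by decide +kernel) h.1 h.1

def F_346 : FrX :=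
  ⟨0x2002000900044004000e02041000141000800040800400484008044000810041200002210100010404020100820002001024620005200028004040008050,
    0xa3, 1, 0x304260758190a8, 7,
    [(0xa3, 1), (0x208693a5, 4), (0x10548793, 4), (0x217693a4, 4), (0x208693a5, 4), (0x10548793, 4)],
    [(0x304260758190a8, 7), (0x617094a3, 4), (0x617298a5, 4), (0x20536184, 4), (0x617094a3, 4), (0x617298a5, 4)]⟩

def c_346 : frmChk tA tA F_346 = true := by decide +kernel

def r_346_0 : chkL rootF engF2 tA tA sA_212 sA_212 4 F_346 [(255, 0, 0), (256, 0, 15)]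
    0x103c71074330ccc6 = true := by
  decide +kernel

def r_346_1 : chkL rootF engF2 tA tA sA_212 sA_212 4 F_346 [(256, 15, 18)]
    0x4171c4630b427 = true := by
  decide +kernel

def r_346_2 : chkL rootF engF2 tA tA sA_212 sA_212 4 F_346 [(256, 33, 0)]
    0x40f03c0f03c0f03c3309c0f = true := by
  decide +kernel

theorem f_346 (h : TabsF) : FrameF repsF 212 F_346.f :=
  frame_of rfl c_346 ((runs_of engOK r_346_0).append ((runs_of engOK r_346_1).append (runs_of engOK r_346_2))) (by decide +kernel) h.1 h.1

def F_347 : FrX :=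
  ⟨0x2002000900044004000e02041000141000800040800801014000844202004080100100104024001010040012000402800024402020401028001116000010,
    0xa3, 1, 0x204250607691a8, 7,
    [(0xa3, 1), (0x208693a5, 4), (0x10548793, 4), (0x217693a4, 4), (0x208693a5, 4), (0x10548793, 4)],
    [(0x204250607691a8, 7), (0x326481a7, 4), (0x208196a5, 4), (0x30758194, 4), (0x326481a7, 4), (0x208196a5, 4)]⟩

def c_347 : frmChk tA tA F_347 = true := by decide +kernel

def r_347_0 : chkL rootF engF2 tA tA sA_212 sA_212 4 F_347 [(255, 0, 0), (256, 0, 17)]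
    0x10d8331d2709900f = true := by
  decide +kernel

def r_347_1 : chkL rootF engF2 tA tA sA_212 sA_212 4 F_347 [(256, 17, 17)]
    0x142d460b9430cc1b15887 = true := by
  decide +kernel

def r_347_2 : chkL rootF engF2 tA tA sA_212 sA_212 4 F_347 [(256, 34, 0)]
    0x43611c66198b103c740f2c203c0f1c47412c4ba0ec244d3212e8315817 = true := by
  decide +kernel

theorem f_347 (h : TabsF) : FrameF repsF 212 F_347.f :=
  frame_of rfl c_347 ((runs_of engOK r_347_0).append ((runs_of engOK r_347_1).append (runs_of engOK r_347_2))) (by decide +kernel) h.1 h.1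

theorem cl_212 (h : TabsF) : ∀ f ∈ fr_212, FrameF repsF 212 f :=
  List.forall_mem_cons.2 ⟨f_320 h, List.forall_mem_cons.2 ⟨f_321 h, List.forall_mem_cons.2 ⟨f_322 h, List.forall_mem_cons.2 ⟨f_323 h, List.forall_mem_cons.2 ⟨f_324 h, List.forall_mem_cons.2 ⟨f_325 h, List.forall_mem_cons.2 ⟨f_326 h, List.forall_mem_cons.2 ⟨f_327 h, List.forall_mem_cons.2 ⟨f_328 h, List.forall_mem_cons.2 ⟨f_329 h, List.forall_mem_cons.2 ⟨f_330 h, List.forall_mem_cons.2 ⟨f_331 h, List.forall_mem_cons.2 ⟨f_332 h, List.forall_mem_cons.2 ⟨f_333 h, List.forall_mem_cons.2 ⟨f_334 h, List.forall_mem_cons.2 ⟨f_335 h, List.forall_mem_cons.2 ⟨f_336 h, List.forall_mem_cons.2 ⟨f_337 h, List.forall_mem_cons.2 ⟨f_338 h, List.forall_mem_cons.2 ⟨f_339 h, List.forall_mem_cons.2 ⟨f_340 h, List.forall_mem_cons.2 ⟨f_341 h, List.forall_mem_cons.2 ⟨f_342 h, List.forall_mem_cons.2 ⟨f_343 h, List.forall_mem_cons.2 ⟨f_344 h, List.forall_mem_cons.2 ⟨f_345 h, List.forall_mem_cons.2 ⟨f_346 h, List.forall_mem_cons.2 ⟨f_347 h,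
    fun _ h0 => absurd h0 List.not_mem_nil⟩⟩⟩⟩⟩⟩⟩⟩⟩⟩⟩⟩⟩⟩⟩⟩⟩⟩⟩⟩⟩⟩⟩⟩⟩⟩⟩⟩

def F_348 : FrX :=
  ⟨0x2002000900044004000e02041000141000800040800801018808400008220100100101020008014010c0020900000008214020c080108040000802040084,
    0xa3, 1, 0x1020425161a3, 6,
    [(0xa3, 1), (0x208693a5, 4), (0x10548793, 4), (0x217693a4, 4), (0x208693a5, 4), (0x10548793, 4)],
    [(0x1020425161a3, 6), (0x428593a0, 4), (0x10628793, 4), (0x647593a1, 4), (0x428593a0, 4), (0x10628793, 4)]⟩

def c_348 : frmChk tA tA F_348 = true := by decide +kernel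

def r_348_0 : chkL rootF engF2 tA tA sA_213 sA_213 4 F_348 [(255, 0, 0), (256, 0, 15)]
    0x6a18c7a04a56819a94e40f088eb06c384e4168e80695a00f236b00780f03c2b26a981a4785a2a1838561a6b014c56720cc435611a5686618c0ce13624711c4f003c3a0ac6c = true := by
  decide +kernel

def r_348_1 : chkL rootF engF2 tA tA sA_213 sA_213 4 F_348 [(256, 15, 16)]
    0x105c0f09d254b22307439c440f8370ac241d4a9a8075a469321393a06a00f03c0f22c690ac1d03c1712c4d05da86a1a84940f = true := by
  decide +kernel

def r_348_2 : chkL rootF engF2 tA tA sA_213 sA_213 4 F_348 [(256, 31, 0)]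
    0x1589294a53805cc54380f0cc3509c0f03ca309c2709c3c = true := by
  decide +kernel

theorem f_348 (h : TabsF) : FrameF repsF 213 F_348.f :=
  frame_of rfl c_348 ((runs_of engOK r_348_0).append ((runs_of engOK r_348_1).append (runs_of engOK r_348_2))) (by decide +kernel) h.1 h.1

def F_349 : FrX :=
  ⟨0x80080a000804040e00002101002001000002040881100481020001800002204020800040c00041000080a01010100d000041828040010804400a0000010,
    0xa6, 1, 0x314052607086a2, 7,
    [(0xa6, 1), (0x205396a8, 4), (0x10548796, 4), (0x214396a7, 4), (0x205396a8, 4), (0x10548796, 4)],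
    [(0x314052607086a2, 7), (0x218495a7, 4), (0x20647395, 4), (0x108695a3, 4), (0x218495a7, 4), (0x20647395, 4)]⟩

def c_349 : frmChk tA tA F_349 = true := by decide +kernel

def r_349_0 : chkL rootF engF2 tA tA sA_213 sA_213 4 F_349 [(255, 0, 0), (256, 0, 16)]
    0x105c4d1348b0764c1384d = true := by
  decide +kernel

def r_349_1 : chkL rootF engF2 tA tA sA_213 sA_213 4 F_349 [(256, 16, 17)]
    0x114c650ac5c0744d05c690b82e = true := by
  decide +kernel

def r_349_2 : chkL rootF engF2 tA tA sA_213 sA_213 4 F_349 [(256, 33, 0)]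
    0x42d0b80f614c541da1 = true := by
  decide +kernel

theorem f_349 (h : TabsF) : FrameF repsF 213 F_349.f :=
  frame_of rfl c_349 ((runs_of engOK r_349_0).append ((runs_of engOK r_349_1).append (runs_of engOK r_349_2))) (by decide +kernel) h.1 h.1

def F_350 : FrX :=
  ⟨0x80080a000804040e000021010020010000020408a000100208003c0020022000100120004000544108008810800020c000400c001200404000824080010,
    0xa6, 1, 0x10213042758397a3, 8,
    [(0xa6, 1), (0x205396a8, 4), (0x10548796, 4), (0x214396a7, 4), (0x205396a8, 4), (0x10548796, 4)],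
    [(0x10213042758397a3, 8), (0x436185a7, 4), (0x32708591, 4), (0x428596a0, 4), (0x436185a7, 4), (0x32708591, 4)]⟩

def c_350 : frmChk tA tA F_350 = true := by decide +kernel

def r_350_0 : chkL rootF engF2 tA tA sA_213 sA_213 4 F_350 [(255, 0, 0), (256, 0, 17)]
    0x10740f06e45924e1b804e03c4d514474e232cc039d09529a14ca26c82348d3308d0e646170361381b1641b3141d1540f1683c0b874544470b82e03c2e3304e = true := by
  decide +kernel

def r_350_1 : chkL rootF engF2 tA tA sA_213 sA_213 4 F_350 [(256, 17, 16)]
    0x4350d4351c4711c4559c0e81344d3302d11c7418d61649861a4170cc0f03d0b0e439199d00d84718c95 = true := by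
  decide +kernel

def r_350_2 : chkL rootF engF2 tA tA sA_213 sA_213 4 F_350 [(256, 33, 0)]
    0x11c471cc15188e325c02b2e08e628331d01d1c40f1341d = true := by
  decide +kernel

theorem f_350 (h : TabsF) : FrameF repsF 213 F_350.f :=
  frame_of rfl c_350 ((runs_of engOK r_350_0).append ((runs_of engOK r_350_1).append (runs_of engOK r_350_2))) (by decide +kernel) h.1 h.1

def F_351 : FrX :=
  ⟨0x2002000900044004000e02041000141000800040800804008090205000200c00020101000888002004080141014008900010000087008000401140009000,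
    0xa3, 1, 0x10217095a8, 5,
    [(0xa3, 1), (0x208693a5, 4), (0x10548793, 4), (0x217693a4, 4), (0x208693a5, 4), (0x10548793, 4)],
    [(0x10217095a8, 5), (0x708593a6, 4), (0x728594a1, 4), (0x20436185, 4), (0x708593a6, 4), (0x728594a1, 4)]⟩

def c_351 : frmChk tA tA F_351 = true := by decide +kernel

def r_351_0 : chkL rootF engF2 tA tA sA_213 sA_213 4 F_351 [(255, 0, 0), (256, 0, 16)]
    0x10b84ea45150b53109e38154e142c6ac2a0bc3348c251a34478 = true := by
  decide +kernel

def r_351_1 : chkL rootF engF2 tA tA sA_213 sA_213 4 F_351 [(256, 16, 16)]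
    0x10d53809c1703c2e1e04d2a82b12c710b51628d15 = true := by
  decide +kernel

def r_351_2 : chkL rootF engF2 tA tA sA_213 sA_213 4 F_351 [(256, 32, 0)]
    0x118c7105f8245784079152383a6283c09f0a138e409c35 = true := by
  decide +kernel

theorem f_351 (h : TabsF) : FrameF repsF 213 F_351.f :=
  frame_of rfl c_351 ((runs_of engOK r_351_0).append ((runs_of engOK r_351_1).append (runs_of engOK r_351_2))) (by decide +kernel) h.1 h.1

def F_352 : FrX :=
  ⟨0x482000044040440000c20400200090001820400008808800100300800001828000204200010500100402210021000403c000800802880c000000008050,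
    0xa0, 1, 0x4263718095a0, 6,
    [(0xa0, 1), (0x538690a2, 4), (0x548790a1, 4), (0x21437690, 4), (0x538690a2, 4), (0x548790a1, 4)],
    [(0x4263718095a0, 6), (0x308596a4, 4), (0x108592a7, 4), (0x31627485, 4), (0x308596a4, 4), (0x108592a7, 4)]⟩

def c_352 : frmChk tA tA F_352 = true := by decide +kernel

def r_352_0 : chkL rootF engF2 tA tA sA_213 sA_213 4 F_352 [(255, 0, 0), (256, 0, 17)]
    0x10b82d0e8690d4a92a42e03c1d28c3912c7222cb4 = true := by
  decide +kernel

def r_352_1 : chkL rootF engF2 tA tA sA_213 sA_213 4 F_352 [(256, 17, 16)]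
    0x7090d41b1643a0e88709f422d0350e83ac15460d615 = true := by
  decide +kernel

def r_352_2 : chkL rootF engF2 tA tA sA_213 sA_213 4 F_352 [(256, 33, 0)]
    0x42709c354c40f1a4991a80f06ca9 = true := by
  decide +kernel

theorem f_352 (h : TabsF) : FrameF repsF 213 F_352.f :=
  frame_of rfl c_352 ((runs_of engOK r_352_0).append ((runs_of engOK r_352_1).append (runs_of engOK r_352_2))) (by decide +kernel) h.1 h.1

def F_353 : FrX :=
  ⟨0x482000044040440000c2040020009000182040020000828000100110080161200200000210048220800020081101410040000180218010004020008404,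
    0xa0, 1, 0x305465738597a3, 7,
    [(0xa0, 1), (0x538690a2, 4), (0x548790a1, 4), (0x21437690, 4), (0x538690a2, 4), (0x548790a1, 4)],
    [(0x305465738597a3, 7), (0x326470a8, 4), (0x31708596, 4), (0x217094a5, 4), (0x326470a8, 4), (0x31708596, 4)]⟩

def c_353 : frmChk tA tA F_353 = true := by decide +kernel

def r_353_0 : chkL rootF engF2 tA tA sA_213 sA_213 4 F_353 [(255, 0, 0), (256, 0, 15)]
    0x105c2b0cc3a = true := by
  decide +kernel

def r_353_1 : chkL rootF engF2 tA tA sA_213 sA_213 4 F_353 [(256, 15, 16)]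
    0x103c0f8360b074170743303c0f0cc0f = true := by
  decide +kernel

def r_353_2 : chkL rootF engF2 tA tA sA_213 sA_213 4 F_353 [(256, 31, 16)]
    0x12e10b = true := by
  decide +kernel

def r_353_3 : chkL rootF engF2 tA tA sA_213 sA_213 4 F_353 [(256, 47, 0)]
    0x11580f = true := by
  decide +kernel

theorem f_353 (h : TabsF) : FrameF repsF 213 F_353.f :=
  frame_of rfl c_353 ((runs_of engOK r_353_0).append ((runs_of engOK r_353_1).append ((runs_of engOK r_353_2).append (runs_of engOK r_353_3)))) (by decide +kernel) h.1 h.1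

def F_354 : FrX :=
  ⟨0x482000044040440000c2040020009000182040000820218008100008010110010200420001080020880440880000840241001010104100180002400401,
    0xa0, 1, 0x324151627483a0, 7,
    [(0xa0, 1), (0x538690a2, 4), (0x548790a1, 4), (0x21437690, 4), (0x538690a2, 4), (0x548790a1, 4)],
    [(0x324151627483a0, 7), (0x328490a6, 4), (0x217490a5, 4), (0x31658790, 4), (0x328490a6, 4), (0x217490a5, 4)]⟩

def c_354 : frmChk tA tA F_354 = true := by decide +kernel

def r_354_0 : chkL rootF engF2 tA tA sA_213 sA_213 4 F_354 [(255, 0, 0), (256, 0, 14)]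
    0x41b0d82d0d81705c72 = true := by
  decide +kernel

def r_354_1 : chkL rootF engF2 tA tA sA_213 sA_213 4 F_354 [(256, 14, 16)]
    0x4715844745b0609c1b61b82e101b85a0e1e11a560d11e07809c1712cac = true := by
  decide +kernel

def r_354_2 : chkL rootF engF2 tA tA sA_213 sA_213 4 F_354 [(256, 30, 17)]
    0x4657045605c539441705c3a0782e07a0e13487b04d4 = true := by
  decide +kernel

def r_354_3 : chkL rootF engF2 tA tA sA_213 sA_213 4 F_354 [(256, 47, 0)]
    0x11941b = true := by
  decide +kernel

theorem f_354 (h : TabsF) : FrameF repsF 213 F_354.f :=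
  frame_of rfl c_354 ((runs_of engOK r_354_0).append ((runs_of engOK r_354_1).append ((runs_of engOK r_354_2).append (runs_of engOK r_354_3)))) (by decide +kernel) h.1 h.1

def F_355 : FrX :=
  ⟨0x80080a000804040e000021010020010000020408820204010084a000081000000108406000400400c21a000001100809c02001080008084000004440200,
    0xa6, 1, 0x10508797a6, 5,
    [(0xa6, 1), (0x205396a8, 4), (0x10548796, 4), (0x214396a7, 4), (0x205396a8, 4), (0x10548796, 4)],
    [(0x10508797a6, 5), (0x315286a7, 4), (0x41508697, 4), (0x204386a9, 4), (0x315286a7, 4), (0x41508697, 4)]⟩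

def c_355 : frmChk tA tA F_355 = true := by decide +kernel

def r_355_0 : chkL rootF engF2 tA tA sA_213 sA_213 4 F_355 [(255, 0, 0), (256, 0, 17)]
    0x19154c1684711c5c = true := by
  decide +kernel

def r_355_1 : chkL rootF engF2 tA tA sA_213 sA_213 4 F_355 [(256, 17, 14)]
    0x41b1c427 = true := by
  decide +kernel

def r_355_2 : chkL rootF engF2 tA tA sA_213 sA_213 4 F_355 [(256, 31, 16)]
    0x115855234470785c4591a1703caa0c511c1731ac118c4705c5c = true := by
  decide +kernel

def r_355_3 : chkL rootF engF2 tA tA sA_213 sA_213 4 F_355 [(256, 47, 0)]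
    0x471 = true := by
  decide +kernel

theorem f_355 (h : TabsF) : FrameF repsF 213 F_355.f :=
  frame_of rfl c_355 ((runs_of engOK r_355_0).append ((runs_of engOK r_355_1).append ((runs_of engOK r_355_2).append (runs_of engOK r_355_3)))) (by decide +kernel) h.1 h.1

def F_356 : FrX :=
  ⟨0x482000044040440000c204002000900018204001008002080080081064001002002041000004810008c20040280800821400a000050820002000008050,
    0xa0, 1, 0x708596a0, 4,
    [(0xa0, 1), (0x538690a2, 4), (0x548790a1, 4), (0x21437690, 4), (0x538690a2, 4), (0x548790a1, 4)],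
    [(0x708596a0, 4), (0x768395a2, 4), (0x507684a1, 4), (0x21437690, 4), (0x768395a2, 4), (0x507684a1, 4)]⟩

def c_356 : frmChk tA tA F_356 = true := by decide +kernel

def r_356_0 : chkL rootF engF2 tA tA sA_213 sA_213 4 F_356 [(255, 0, 0), (256, 0, 17)]
    0x118c1d = true := by
  decide +kernel

def r_356_1 : chkL rootF engF2 tA tA sA_213 sA_213 4 F_356 [(256, 17, 15)]
    0x41d0ccc9 = true := by
  decide +kernel

def r_356_2 : chkL rootF engF2 tA tA sA_213 sA_213 4 F_356 [(256, 32, 0)]
    0x45603c8b = true := by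
  decide +kernel

theorem f_356 (h : TabsF) : FrameF repsF 213 F_356.f :=
  frame_of rfl c_356 ((runs_of engOK r_356_0).append ((runs_of engOK r_356_1).append (runs_of engOK r_356_2))) (by decide +kernel) h.1 h.1

def F_357 : FrX :=
  ⟨0x482000044040440000c20400200090001820400200008280003400080801810002004110200810000400404a1008008080110140080082100100500001,
    0xa0, 1, 0x213140658393a5, 7,
    [(0xa0, 1), (0x538690a2, 4), (0x548790a1, 4), (0x21437690, 4), (0x538690a2, 4), (0x548790a1, 4)],
    [(0x213140658393a5, 7), (0x415286a9, 4), (0x437286a0, 4), (0x31758690, 4), (0x415286a9, 4), (0x437286a0, 4)]⟩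

def c_357 : frmChk tA tA F_357 = true := by decide +kernel

def r_357_0 : chkL rootF engF2 tA tA sA_213 sA_213 4 F_357 [(255, 0, 0), (256, 0, 15)]
    0x10f01b0781e1584d1681709c3914cca14cd2 = true := by
  decide +kernel

def r_357_1 : chkL rootF engF2 tA tA sA_213 sA_213 4 F_357 [(256, 15, 18)]
    0x13492648da205c6a350d83151c22c535441d0cc2b = true := by
  decide +kernel

def r_357_2 : chkL rootF engF2 tA tA sA_213 sA_213 4 F_357 [(256, 33, 0)]
    0x10ae0b06d2a09c2b1583c = true := by
  decide +kernel

theorem f_357 (h : TabsF) : FrameF repsF 213 F_357.f :=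
  frame_of rfl c_357 ((runs_of engOK r_357_0).append ((runs_of engOK r_357_1).append (runs_of engOK r_357_2))) (by decide +kernel) h.1 h.1

def F_358 : FrX :=
  ⟨0x2002000900044004000e02041000141000800040810090080080802400820001200002204004004408000142101010808c80a00040040000101200008280,
    0xa3, 1, 0x324054637287a2, 7,
    [(0xa3, 1), (0x208693a5, 4), (0x10548793, 4), (0x217693a4, 4), (0x208693a5, 4), (0x10548793, 4)],
    [(0x324054637287a2, 7), (0x326097a4, 4), (0x41508397, 4), (0x658297a1, 4), (0x326097a4, 4), (0x41508397, 4)]⟩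

def c_358 : frmChk tA tA F_358 = true := by decide +kernel

def r_358_0 : chkL rootF engF2 tA tA sA_213 sA_213 4 F_358 [(255, 0, 0), (256, 0, 24)]
    0x42e078a61c80f2b05c = true := by
  decide +kernel

def r_358_1 : chkL rootF engF2 tA tA sA_213 sA_213 4 F_358 [(256, 24, 0)]
    0x59809c71314cc314cc24c7118c2742c2e05d0b03c53 = true := by
  decide +kernel

theorem f_358 (h : TabsF) : FrameF repsF 213 F_358.f :=
  frame_of rfl c_358 ((runs_of engOK r_358_0).append (runs_of engOK r_358_1)) (by decide +kernel) h.1 h.1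

def F_359 : FrX :=
  ⟨0x482000044040440000c20400200090001820400040088202040400080800818002004010300810200000400830200080c4100140000582100100000401,
    0xa0, 1, 0x314264728590a0, 7,
    [(0xa0, 1), (0x538690a2, 4), (0x548790a1, 4), (0x21437690, 4), (0x538690a2, 4), (0x548790a1, 4)],
    [(0x314264728590a0, 7), (0x528190a7, 4), (0x548690a3, 4), (0x42617390, 4), (0x528190a7, 4), (0x548690a3, 4)]⟩

def c_359 : frmChk tA tA F_359 = true := by decide +kernel

def r_359_0 : chkL rootF engF2 tA tA sA_213 sA_213 4 F_359 [(255, 0, 0), (256, 0, 15)]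
    0x54515474 = true := by
  decide +kernel

def r_359_1 : chkL rootF engF2 tA tA sA_213 sA_213 4 F_359 [(256, 15, 18)]
    0x44d2b0d4074c570417e07a0 = true := by
  decide +kernel

def r_359_2 : chkL rootF engF2 tA tA sA_213 sA_213 4 F_359 [(256, 33, 0)]
    0x109c4e074cc06c2b0782b = true := by
  decide +kernel

theorem f_359 (h : TabsF) : FrameF repsF 213 F_359.f :=
  frame_of rfl c_359 ((runs_of engOK r_359_0).append ((runs_of engOK r_359_1).append (runs_of engOK r_359_2))) (by decide +kernel) h.1 h.1

def F_360 : FrX :=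
  ⟨0x482000044040440000c2040020009000182040010080080101000180008144804800000a82240220000020408008440010010000600100214020200084,
    0xa0, 1, 0x3051658493a7, 6,
    [(0xa0, 1), (0x538690a2, 4), (0x548790a1, 4), (0x21437690, 4), (0x538690a2, 4), (0x548790a1, 4)],
    [(0x3051658493a7, 6), (0x32417096, 4), (0x537086a4, 4), (0x527098a1, 4), (0x32417096, 4), (0x537086a4, 4)]⟩

def c_360 : frmChk tA tA F_360 = true := by decide +kernel

def r_360_0 : chkL rootF engF2 tA tA sA_213 sA_213 4 F_360 [(255, 0, 0), (256, 0, 15)]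
    0x41d0cc2b12c172a84b24c3c0ac1d0cc8762986 = true := by
  decide +kernel

def r_360_1 : chkL rootF engF2 tA tA sA_213 sA_213 4 F_360 [(256, 15, 18)]
    0x45a1701e0788722c9a0781d03c0f03c0f12c0f = true := by
  decide +kernel

def r_360_2 : chkL rootF engF2 tA tA sA_213 sA_213 4 F_360 [(256, 33, 0)]
    0x105c3321c1705c350d40f90c1d0740f = true := by
  decide +kernel

theorem f_360 (h : TabsF) : FrameF repsF 213 F_360.f :=
  frame_of rfl c_360 ((runs_of engOK r_360_0).append ((runs_of engOK r_360_1).append (runs_of engOK r_360_2))) (by decide +kernel) h.1 h.1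

def F_361 : FrX :=
  ⟨0x2002000900044004000e02041000141000800040800801014038000008000182100204004084311010040006000000000300201080101821040004200201,
    0xa3, 1, 0x4150627398a3, 6,
    [(0xa3, 1), (0x208693a5, 4), (0x10548793, 4), (0x217693a4, 4), (0x208693a5, 4), (0x10548793, 4)],
    [(0x4150627398a3, 6), (0x658792a0, 4), (0x10548793, 4), (0x326487a1, 4), (0x658792a0, 4), (0x10548793, 4)]⟩

def c_361 : frmChk tA tA F_361 = true := by decide +kernel

def r_361_0 : chkL rootF engF2 tA tA sA_213 sA_213 4 F_361 [(255, 0, 0), (256, 0, 26)]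
    0x43c22c1d = true := by
  decide +kernel

def r_361_1 : chkL rootF engF2 tA tA sA_213 sA_213 4 F_361 [(256, 26, 0)]
    0x48d0d84705c1b = true := by
  decide +kernel

theorem f_361 (h : TabsF) : FrameF repsF 213 F_361.f :=
  frame_of rfl c_361 ((runs_of engOK r_361_0).append (runs_of engOK r_361_1)) (by decide +kernel) h.1 h.1

def F_362 : FrX :=
  ⟨0x2002000900044004000e02041000141000800040800400484004202082000880020024010100010204045104800010003100082084001020200020201001,
    0xa3, 1, 0x5164718093a0, 6,
    [(0xa3, 1), (0x208693a5, 4), (0x10548793, 4), (0x217693a4, 4), (0x208693a5, 4), (0x10548793, 4)],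
    [(0x5164718093a0, 6), (0x408391a2, 4), (0x506183a7, 4), (0x54728396, 4), (0x408391a2, 4), (0x506183a7, 4)]⟩

def c_362 : frmChk tA tA F_362 = true := by decide +kernel

def r_362_0 : chkL rootF engF2 tA tA sA_213 sA_213 4 F_362 [(255, 0, 0), (256, 0, 24)]
    0x1137034e02d319947109c6198a63017518332c6439141b465580d42711c2d = true := by
  decide +kernel

def r_362_1 : chkL rootF engF2 tA tA sA_213 sA_213 4 F_362 [(256, 24, 0)]
    0x113946528720cd1a165381a5491652a0b9581d02e52a4ad090e0781b3c2a1 = true := by
  decide +kernel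

theorem f_362 (h : TabsF) : FrameF repsF 213 F_362.f :=
  frame_of rfl c_362 ((runs_of engOK r_362_0).append (runs_of engOK r_362_1)) (by decide +kernel) h.1 h.1

def F_363 : FrX :=
  ⟨0x80080a000804040e000021010020010000020408a0000204400090020880082002020400048008220810020019020040201018002028002002040809000,
    0xa6, 1, 0x3064728195a6, 6,
    [(0xa6, 1), (0x205396a8, 4), (0x10548796, 4), (0x214396a7, 4), (0x205396a8, 4), (0x10548796, 4)],
    [(0x3064728195a6, 6), (0x547390a1, 4), (0x21548396, 4), (0x546087a2, 4), (0x547390a1, 4), (0x21548396, 4)]⟩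

def c_363 : frmChk tA tA F_363 = true := by decide +kernel

def r_363_0 : chkL rootF engF2 tA tA sA_213 sA_213 4 F_363 [(255, 0, 0), (256, 0, 16)]
    0x1164274a5891541d550c90e82e0ac3c = true := by
  decide +kernel

def r_363_1 : chkL rootF engF2 tA tA sA_213 sA_213 4 F_363 [(256, 16, 15)]
    0x41d1c41db404b = true := by
  decide +kernel

def r_363_2 : chkL rootF engF2 tA tA sA_213 sA_213 4 F_363 [(256, 31, 0)]
    0x42e0741b8362c1d0d82c8d20e81b = true := by
  decide +kernel

theorem f_363 (h : TabsF) : FrameF repsF 213 F_363.f :=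
  frame_of rfl c_363 ((runs_of engOK r_363_0).append ((runs_of engOK r_363_1).append (runs_of engOK r_363_2))) (by decide +kernel) h.1 h.1

theorem cl_213 (h : TabsF) : ∀ f ∈ fr_213, FrameF repsF 213 f :=
  List.forall_mem_cons.2 ⟨f_348 h, List.forall_mem_cons.2 ⟨f_349 h, List.forall_mem_cons.2 ⟨f_350 h, List.forall_mem_cons.2 ⟨f_351 h, List.forall_mem_cons.2 ⟨f_352 h, List.forall_mem_cons.2 ⟨f_353 h, List.forall_mem_cons.2 ⟨f_354 h, List.forall_mem_cons.2 ⟨f_355 h, List.forall_mem_cons.2 ⟨f_356 h, List.forall_mem_cons.2 ⟨f_357 h, List.forall_mem_cons.2 ⟨f_358 h, List.forall_mem_cons.2 ⟨f_359 h, List.forall_mem_cons.2 ⟨f_360 h, List.forall_mem_cons.2 ⟨f_361 h, List.forall_mem_cons.2 ⟨f_362 h, List.forall_mem_cons.2 ⟨f_363 h,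
    fun _ h0 => absurd h0 List.not_mem_nil⟩⟩⟩⟩⟩⟩⟩⟩⟩⟩⟩⟩⟩⟩⟩⟩

def F_364 : FrX :=
  ⟨0x2002000900044004000e0204100014100080004080040104201004040100018100010212000801001404040440000000a048048001041020200400098090,
    0xa3, 1, 0x304163708597a6, 7,
    [(0xa3, 1), (0x208693a5, 4), (0x10548793, 4), (0x217693a4, 4), (0x208693a5, 4), (0x10548793, 4)],
    [(0x304163708597a6, 7), (0x307286a5, 4), (0x30748195, 4), (0x304261a9, 4), (0x307286a5, 4), (0x30748195, 4)]⟩

def c_364 : frmChk tA tA F_364 = true := by decide +kernel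

def r_364_0 : chkL rootF engF2 tA tA sA_214 sA_214 4 F_364 [(255, 0, 0), (256, 0, 18)]
    0x44e5180f = true := by
  decide +kernel

def r_364_1 : chkL rootF engF2 tA tA sA_214 sA_214 4 F_364 [(256, 18, 18)]
    0x42b06c5c0ac1b0e43c = true := by
  decide +kernel

def r_364_2 : chkL rootF engF2 tA tA sA_214 sA_214 4 F_364 [(256, 36, 0)]
    0x44b3284e1540f4c40f03d4c = true := by
  decide +kernel

theorem f_364 (h : TabsF) : FrameF repsF 214 F_364.f :=
  frame_of rfl c_364 ((runs_of engOK r_364_0).append ((runs_of engOK r_364_1).append (runs_of engOK r_364_2))) (by decide +kernel) h.1 h.1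

def F_365 : FrX :=
  ⟨0x2002000900044004000e02041000141000800040800401042000a02008242001000002220008010014040404400000802040200084102100402900044050,
    0xa3, 1, 0x10708391a3, 5,
    [(0xa3, 1), (0x208693a5, 4), (0x10548793, 4), (0x217693a4, 4), (0x208693a5, 4), (0x10548793, 4)],
    [(0x10708391a3, 5), (0x637280a5, 4), (0x31548097, 4), (0x618092a4, 4), (0x637280a5, 4), (0x31548097, 4)]⟩

def c_365 : frmChk tA tA F_365 = true := by decide +kernel

def r_365_0 : chkL rootF engF2 tA tA sA_214 sA_214 4 F_365 [(255, 0, 0), (256, 0, 24)]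
    0x103c2e03c1b = true := by
  decide +kernel

def r_365_1 : chkL rootF engF2 tA tA sA_214 sA_214 4 F_365 [(256, 24, 0)]
    0x40fa0c0f = true := by
  decide +kernel

theorem f_365 (h : TabsF) : FrameF repsF 214 F_365.f :=
  frame_of rfl c_365 ((runs_of engOK r_365_0).append (runs_of engOK r_365_1)) (by decide +kernel) h.1 h.1

def F_366 : FrX :=
  ⟨0x1c2102000004044000002041000101000082040888081000020000110000244004888004080004240040101012600120500202040090008002824200000,
    0x0, 0, 0x4353637485, 5,
    [(0x0, 0), (0x205386a9, 4), (0x105487a9, 4), (0x214376a9, 4), (0x205386a9, 4), (0x105487a9, 4)],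
    [(0x4353637485, 5), (0x205486a9, 4), (0x104387a9, 4), (0x215376a9, 4), (0x205486a9, 4), (0x104387a9, 4)]⟩

def c_366 : frmChk tA tA F_366 = true := by decide +kernel

def r_366_0 : chkL rootF engF2 tA tA sA_214 sA_214 4 F_366 [(255, 0, 0), (256, 0, 11)]
    0x1 = true := by
  decide +kernel

def r_366_1 : chkL rootF engF2 tA tA sA_214 sA_214 4 F_366 [(256, 11, 10)]
    0x105c8e = true := by
  decide +kernel

def r_366_2 : chkL rootF engF2 tA tA sA_214 sA_214 4 F_366 [(256, 21, 10)]
    0x1134a509ca50b41d2a4a3 = true := by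
  decide +kernel

def r_366_3 : chkL rootF engF2 tA tA sA_214 sA_214 4 F_366 [(256, 31, 10)]
    0x11344d25691 = true := by
  decide +kernel

def r_366_4 : chkL rootF engF2 tA tA sA_214 sA_214 4 F_366 [(256, 41, 0)]
    0x4a5 = true := by
  decide +kernel

theorem f_366 (h : TabsF) : FrameF repsF 214 F_366.f :=
  frame_of rfl c_366 ((runs_of engOK r_366_0).append ((runs_of engOK r_366_1).append ((runs_of engOK r_366_2).append ((runs_of engOK r_366_3).append (runs_of engOK r_366_4))))) (by decide +kernel) h.1 h.1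

def F_367 : FrX :=
  ⟨0x80080a000804040e00002101002001000002040881011001020010020024004004121004400005040040001012600120401102040000908002911000000,
    0xa6, 1, 0x2131425162718597a3, 9,
    [(0xa6, 1), (0x205396a8, 4), (0x10548796, 4), (0x214396a7, 4), (0x205396a8, 4), (0x10548796, 4)],
    [(0x2131425162718597a3, 9), (0x435260a8, 4), (0x52708193, 4), (0x527694a1, 4), (0x435260a8, 4), (0x52708193, 4)]⟩

def c_367 : frmChk tA tA F_367 = true := by decide +kernel

def r_367_0 : chkL rootF engF2 tA tA sA_214 sA_214 4 F_367 [(255, 0, 0), (256, 0, 23)]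
    0x11645a1382b2701d = true := by
  decide +kernel

def r_367_1 : chkL rootF engF2 tA tA sA_214 sA_214 4 F_367 [(256, 23, 0)]
    0x11645613853 = true := by
  decide +kernel

theorem f_367 (h : TabsF) : FrameF repsF 214 F_367.f :=
  frame_of rfl c_367 ((runs_of engOK r_367_0).append (runs_of engOK r_367_1)) (by decide +kernel) h.1 h.1

def F_368 : FrX :=
  ⟨0x2002000900044004000e02041000141000800040820101001100024201000242000088000088004204040101010408120500000022080008002844212000,
    0xa3, 1, 0x214351627082a0, 7,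
    [(0xa3, 1), (0x208693a5, 4), (0x10548793, 4), (0x217693a4, 4), (0x208693a5, 4), (0x10548793, 4)],
    [(0x214351627082a0, 7), (0x426197a8, 4), (0x326097a5, 4), (0x10438597, 4), (0x426197a8, 4), (0x326097a5, 4)]⟩

def c_368 : frmChk tA tA F_368 = true := by decide +kernel

def r_368_0 : chkL rootF engF2 tA tA sA_214 sA_214 4 F_368 [(255, 0, 0), (256, 0, 17)]
    0x105c8e06c1b13827 = true := by
  decide +kernel

def r_368_1 : chkL rootF engF2 tA tA sA_214 sA_214 4 F_368 [(256, 17, 15)]
    0x105c278569407817 = true := by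
  decide +kernel

def r_368_2 : chkL rootF engF2 tA tA sA_214 sA_214 4 F_368 [(256, 32, 15)]
    0x105c17 = true := by
  decide +kernel

def r_368_3 : chkL rootF engF2 tA tA sA_214 sA_214 4 F_368 [(256, 47, 0)]
    0x1 = true := by
  decide +kernel

theorem f_368 (h : TabsF) : FrameF repsF 214 F_368.f :=
  frame_of rfl c_368 ((runs_of engOK r_368_0).append ((runs_of engOK r_368_1).append ((runs_of engOK r_368_2).append (runs_of engOK r_368_3)))) (by decide +kernel) h.1 h.1

def F_369 : FrX :=
  ⟨0x482000044040440000c2040020009000182040002020500008020010040024800010520001010010800420204000201884008022600900100002200440,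
    0xa0, 1, 0x4251708495a7, 6,
    [(0xa0, 1), (0x538690a2, 4), (0x548790a1, 4), (0x21437690, 4), (0x538690a2, 4), (0x548790a1, 4)],
    [(0x4251708495a7, 6), (0x10627493, 4), (0x107598a2, 4), (0x105483a6, 4), (0x10627493, 4), (0x107598a2, 4)]⟩

def c_369 : frmChk tA tA F_369 = true := by decide +kernel

def r_369_0 : chkL rootF engF2 tA tA sA_214 sA_214 4 F_369 [(255, 0, 0), (256, 0, 17)]
    0x40f4340f03c0f22c8b = true := by
  decide +kernel

def r_369_1 : chkL rootF engF2 tA tA sA_214 sA_214 4 F_369 [(256, 17, 17)]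
    0x106c1b0e81e06c0f05e0d09c7281d5807516 = true := by
  decide +kernel

def r_369_2 : chkL rootF engF2 tA tA sA_214 sA_214 4 F_369 [(256, 34, 0)]
    0x105e07a140f03c0f0d80f2e00f03d1603c0f22c0f09c1703c0f = true := by
  decide +kernel

theorem f_369 (h : TabsF) : FrameF repsF 214 F_369.f :=
  frame_of rfl c_369 ((runs_of engOK r_369_0).append ((runs_of engOK r_369_1).append (runs_of engOK r_369_2))) (by decide +kernel) h.1 h.1

def F_370 : FrX :=
  ⟨0x80080a000804040e000021010020010000020408a0001004040024802000a40010880000400031010040000604002801004001005100100500a02640000,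
    0xa6, 1, 0x21425464758695a0, 8,
    [(0xa6, 1), (0x205396a8, 4), (0x10548796, 4), (0x214396a7, 4), (0x205396a8, 4), (0x10548796, 4)],
    [(0x21425464758695a0, 8), (0x708593a4, 4), (0x517096a2, 4), (0x42637081, 4), (0x708593a4, 4), (0x517096a2, 4)]⟩

def c_370 : frmChk tA tA F_370 = true := by decide +kernel

def r_370_0 : chkL rootF engF2 tA tA sA_214 sA_214 4 F_370 [(255, 0, 0), (256, 0, 19)]
    0x45c4704711c5314c0f05c1b = true := by
  decide +kernel

def r_370_1 : chkL rootF engF2 tA tA sA_214 sA_214 4 F_370 [(256, 19, 15)]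
    0x42741c5c = true := by
  decide +kernel

def r_370_2 : chkL rootF engF2 tA tA sA_214 sA_214 4 F_370 [(256, 34, 0)]
    0x45c06c17 = true := by
  decide +kernel

theorem f_370 (h : TabsF) : FrameF repsF 214 F_370.f :=
  frame_of rfl c_370 ((runs_of engOK r_370_0).append ((runs_of engOK r_370_1).append (runs_of engOK r_370_2))) (by decide +kernel) h.1 h.1

def F_371 : FrX :=
  ⟨0x80080a000804040e00002101002001000002040882010204010080100802002001084060004004080050022c00211002020020011000204240025080000,
    0xa6, 1, 0x30415160708392a5, 8,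
    [(0xa6, 1), (0x205396a8, 4), (0x10548796, 4), (0x214396a7, 4), (0x205396a8, 4), (0x10548796, 4)],
    [(0x30415160708392a5, 8), (0x304297a8, 4), (0x426075a1, 4), (0x42638195, 4), (0x304297a8, 4), (0x426075a1, 4)]⟩

def c_371 : frmChk tA tA F_371 = true := by decide +kernel

def r_371_0 : chkL rootF engF2 tA tA sA_214 sA_214 4 F_371 [(255, 0, 0), (256, 0, 18)]
    0x112c36 = true := by
  decide +kernel

def r_371_1 : chkL rootF engF2 tA tA sA_214 sA_214 4 F_371 [(256, 18, 14)]
    0x11593205c475245905c3905ca92985a = true := by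
  decide +kernel

def r_371_2 : chkL rootF engF2 tA tA sA_214 sA_214 4 F_371 [(256, 32, 0)]
    0x4711380f11e3425878cc04b = true := by
  decide +kernel

theorem f_371 (h : TabsF) : FrameF repsF 214 F_371.f :=
  frame_of rfl c_371 ((runs_of engOK r_371_0).append ((runs_of engOK r_371_1).append (runs_of engOK r_371_2))) (by decide +kernel) h.1 h.1

def F_372 : FrX :=
  ⟨0x80080a000804040e00002101002001000002040881200008048400020a2000000850101004002000088280202c00100200400a0204080402022100c0000,
    0xa6, 1, 0x30537292a6, 5,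
    [(0xa6, 1), (0x205396a8, 4), (0x10548796, 4), (0x214396a7, 4), (0x205396a8, 4), (0x10548796, 4)],
    [(0x30537292a6, 5), (0x507693a8, 4), (0x31407682, 4), (0x547691a2, 4), (0x507693a8, 4), (0x31407682, 4)]⟩

def c_372 : frmChk tA tA F_372 = true := by decide +kernel

def r_372_0 : chkL rootF engF2 tA tA sA_214 sA_214 4 F_372 [(255, 0, 0), (256, 0, 19)]
    0x459154591e1511645a164630745c18d61154551e01d1946315471 = true := by
  decide +kernel

def r_372_1 : chkL rootF engF2 tA tA sA_214 sA_214 4 F_372 [(256, 19, 13)]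
    0x43903c2b0ac2b03c551542742e268b22c1343a0d631076340d8cc3603cc3145c18c542d0d85705 = true := by
  decide +kernel

def r_372_2 : chkL rootF engF2 tA tA sA_214 sA_214 4 F_372 [(256, 32, 0)]
    0x103c471585c948559501e0cc661b0660b40f = true := by
  decide +kernel

theorem f_372 (h : TabsF) : FrameF repsF 214 F_372.f :=
  frame_of rfl c_372 ((runs_of engOK r_372_0).append ((runs_of engOK r_372_1).append (runs_of engOK r_372_2))) (by decide +kernel) h.1 h.1

def F_373 : FrX :=
  ⟨0x482000044040440000c204002000900018204000208044000090081001041000808041008000410008080201e01000201000a0080804c0010020200401,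
    0xa0, 1, 0x20324162738090a6, 8,
    [(0xa0, 1), (0x538690a2, 4), (0x548790a1, 4), (0x21437690, 4), (0x538690a2, 4), (0x548790a1, 4)],
    [(0x20324162738090a6, 8), (0x758396a2, 4), (0x20518394, 4), (0x647183a0, 4), (0x758396a2, 4), (0x20518394, 4)]⟩

def c_373 : frmChk tA tA F_373 = true := by decide +kernel

def r_373_0 : chkL rootF engF2 tA tA sA_214 sA_214 4 F_373 [(255, 0, 0), (256, 0, 15)]
    0x10741d = true := by
  decide +kernel

def r_373_1 : chkL rootF engF2 tA tA sA_214 sA_214 4 F_373 [(256, 15, 15)]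
    0x41d05c550ccb10748706c170785505c17 = true := by
  decide +kernel

def r_373_2 : chkL rootF engF2 tA tA sA_214 sA_214 4 F_373 [(256, 30, 0)]
    0x10ba453485c = true := by
  decide +kernel

theorem f_373 (h : TabsF) : FrameF repsF 214 F_373.f :=
  frame_of rfl c_373 ((runs_of engOK r_373_0).append ((runs_of engOK r_373_1).append (runs_of engOK r_373_2))) (by decide +kernel) h.1 h.1

def F_374 : FrX :=
  ⟨0x482000044040440000c2040020009000182040020000882000200084080182020022000028011010040042280808108010090040080082100400200201,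
    0xa0, 1, 0x10204260718497a3, 8,
    [(0xa0, 1), (0x538690a2, 4), (0x548790a1, 4), (0x21437690, 4), (0x538690a2, 4), (0x548790a1, 4)],
    [(0x10204260718497a3, 8), (0x213064a5, 4), (0x30768591, 4), (0x307492a8, 4), (0x213064a5, 4), (0x30768591, 4)]⟩

def c_374 : frmChk tA tA F_374 = true := by decide +kernel

def r_374_0 : chkL rootF engF2 tA tA sA_214 sA_214 4 F_374 [(255, 0, 0), (256, 0, 22)]
    0x41e0783c1d0a62982e88e2a05c1722e682b2892a6a8c2aa805c871683a = true := by
  decide +kernel

def r_374_1 : chkL rootF engF2 tA tA sA_214 sA_214 4 F_374 [(256, 22, 0)]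
    0x10d41b0e86a0741e05e0706c1b = true := by
  decide +kernel

theorem f_374 (h : TabsF) : FrameF repsF 214 F_374.f :=
  frame_of rfl c_374 ((runs_of engOK r_374_0).append (runs_of engOK r_374_1)) (by decide +kernel) h.1 h.1

def F_375 : FrX :=
  ⟨0x482000044040440000c2040020009000182040010008021804000208080084804080001124001020000011084020008004020102000902101110001082,
    0xa0, 1, 0x42637190a0, 5,
    [(0xa0, 1), (0x538690a2, 4), (0x548790a1, 4), (0x21437690, 4), (0x538690a2, 4), (0x548790a1, 4)],
    [(0x42637190a0, 5), (0x658390a4, 4), (0x528190a7, 4), (0x31627490, 4), (0x658390a4, 4), (0x528190a7, 4)]⟩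

def c_375 : frmChk tA tA F_375 = true := by decide +kernel

def r_375_0 : chkL rootF engF2 tA tA sA_214 sA_214 4 F_375 [(255, 0, 0), (256, 0, 25)]
    0x41d0741d0ac2b4a5294942e0e80f1698312c3a82e2a078633882e = true := by
  decide +kernel

def r_375_1 : chkL rootF engF2 tA tA sA_214 sA_214 4 F_375 [(256, 25, 0)]
    0x43c0ad0b0b81e03c1d = true := by
  decide +kernel

theorem f_375 (h : TabsF) : FrameF repsF 214 F_375.f :=
  frame_of rfl c_375 ((runs_of engOK r_375_0).append (runs_of engOK r_375_1)) (by decide +kernel) h.1 h.1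

def F_376 : FrX :=
  ⟨0x2002000900044004000e02041000141000800040810000100301010008820801200108004004004280040422c00020041001801010008000204220008084,
    0xa3, 1, 0x1031415065738291a0, 9,
    [(0xa3, 1), (0x208693a5, 4), (0x10548793, 4), (0x217693a4, 4), (0x208693a5, 4), (0x10548793, 4)],
    [(0x1031415065738291a0, 9), (0x215476a8, 4), (0x205463a9, 4), (0x10547398, 4), (0x215476a8, 4), (0x205463a9, 4)]⟩

def c_376 : frmChk tA tA F_376 = true := by decide +kernel

def r_376_0 : chkL rootF engF2 tA tA sA_214 sA_214 4 F_376 [(255, 0, 0), (256, 0, 26)]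
    0x427198270b83305c360745507455 = true := by
  decide +kernel

def r_376_1 : chkL rootF engF2 tA tA sA_214 sA_214 4 F_376 [(256, 26, 0)]
    0x103c330785c13a4c0b81705cac0ac2b0d4174385342c3a05c17 = true := by
  decide +kernel

theorem f_376 (h : TabsF) : FrameF repsF 214 F_376.f :=
  frame_of rfl c_376 ((runs_of engOK r_376_0).append (runs_of engOK r_376_1)) (by decide +kernel) h.1 h.1

def F_377 : FrX :=
  ⟨0x482000044040440000c2040020009000182040020002080100200084014044220400000101010122080010802202408020090040201000001023000082,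
    0xa0, 1, 0x304254748092a6, 7,
    [(0xa0, 1), (0x538690a2, 4), (0x548790a1, 4), (0x21437690, 4), (0x538690a2, 4), (0x548790a1, 4)],
    [(0x304254748092a6, 7), (0x206498a3, 4), (0x53647281, 4), (0x647091a5, 4), (0x206498a3, 4), (0x53647281, 4)]⟩

def c_377 : frmChk tA tA F_377 = true := by decide +kernel

def r_377_0 : chkL rootF engF2 tA tA sA_214 sA_214 4 F_377 [(255, 0, 0), (256, 0, 24)]
    0x41b = true := by
  decide +kernel

def r_377_1 : chkL rootF engF2 tA tA sA_214 sA_214 4 F_377 [(256, 24, 0)]
    0x45503c0f = true := by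
  decide +kernel

theorem f_377 (h : TabsF) : FrameF repsF 214 F_377.f :=
  frame_of rfl c_377 ((runs_of engOK r_377_0).append (runs_of engOK r_377_1)) (by decide +kernel) h.1 h.1

def F_378 : FrX :=
  ⟨0x1c21020000040440000020410001010000820408a00011000004001102021000082140000820450200200040884414100080100010804104440a0200000,
    0x0, 0, 0x206483, 3,
    [(0x0, 0), (0x205386a9, 4), (0x105487a9, 4), (0x214376a9, 4), (0x205386a9, 4), (0x105487a9, 4)],
    [(0x206483, 3), (0x204385a9, 4), (0x216573a9, 4), (0x107486a9, 4), (0x204385a9, 4), (0x216573a9, 4)]⟩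

def c_378 : frmChk tA tA F_378 = true := by decide +kernel

def r_378_0 : chkL rootF engF2 tA tA sA_214 sA_214 4 F_378 [(255, 0, 0), (256, 0, 4)]
    0x1 = true := by
  decide +kernel

def r_378_1 : chkL rootF engF2 tA tA sA_214 sA_214 4 F_378 [(256, 4, 7)]
    0x1169192d138 = true := by
  decide +kernel

def r_378_2 : chkL rootF engF2 tA tA sA_214 sA_214 4 F_378 [(256, 11, 16)]
    0x54350f41 = true := by
  decide +kernel

def r_378_3 : chkL rootF engF2 tA tA sA_214 sA_214 4 F_378 [(256, 27, 6)]
    0x4c330ec2 = true := by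
  decide +kernel

def r_378_4 : chkL rootF engF2 tA tA sA_214 sA_214 4 F_378 [(256, 33, 3)]
    0x42b = true := by
  decide +kernel

def r_378_5 : chkL rootF engF2 tA tA sA_214 sA_214 4 F_378 [(256, 36, 4)]
    0x1258a321c4b = true := by
  decide +kernel

def r_378_6 : chkL rootF engF2 tA tA sA_214 sA_214 4 F_378 [(256, 40, 4)]
    0x1 = true := by
  decide +kernel

def r_378_7 : chkL rootF engF2 tA tA sA_214 sA_214 4 F_378 [(256, 44, 0)]
    0x17208b62495 = true := by
  decide +kernel

theorem f_378 (h : TabsF) : FrameF repsF 214 F_378.f :=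
  frame_of rfl c_378 ((runs_of engOK r_378_0).append ((runs_of engOK r_378_1).append ((runs_of engOK r_378_2).append ((runs_of engOK r_378_3).append ((runs_of engOK r_378_4).append ((runs_of engOK r_378_5).append ((runs_of engOK r_378_6).append (runs_of engOK r_378_7)))))))) (by decide +kernel) h.1 h.1

def F_379 : FrX :=
  ⟨0x2002000900044004000e02041000141000800040800400484008082000808084100004110100010404020100820001002100002085042020002022221001,
    0xa3, 1, 0x1020528196a0, 6,
    [(0xa3, 1), (0x208693a5, 4), (0x10548793, 4), (0x217693a4, 4), (0x208693a5, 4), (0x10548793, 4)],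
    [(0x1020528196a0, 6), (0x316290a5, 4), (0x416270a8, 4), (0x43628597, 4), (0x316290a5, 4), (0x416270a8, 4)]⟩

def c_379 : frmChk tA tA F_379 = true := by decide +kernel

def r_379_0 : chkL rootF engF2 tA tA sA_214 sA_214 4 F_379 [(255, 0, 0), (256, 0, 24)]
    0x42709c2709c1b074710741d0741d = true := by
  decide +kernel

def r_379_1 : chkL rootF engF2 tA tA sA_214 sA_214 4 F_379 [(256, 24, 0)]
    0x181e0d074b8 = true := by
  decide +kernel

theorem f_379 (h : TabsF) : FrameF repsF 214 F_379.f :=
  frame_of rfl c_379 ((runs_of engOK r_379_0).append (runs_of engOK r_379_1)) (by decide +kernel) h.1 h.1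

def F_380 : FrX :=
  ⟨0x80080a000804040e00002101002001000002040881081000040c00800220100008501020002044020030000088440410001110001008410444042800000,
    0xa6, 1, 0x314352728098a2, 7,
    [(0xa6, 1), (0x205396a8, 4), (0x10548796, 4), (0x214396a7, 4), (0x205396a8, 4), (0x10548796, 4)],
    [(0x314352728098a2, 7), (0x427096a8, 4), (0x21708395, 4), (0x416570a3, 4), (0x427096a8, 4), (0x21708395, 4)]⟩

def c_380 : frmChk tA tA F_380 = true := by decide +kernel

def r_380_0 : chkL rootF engF2 tA tA sA_214 sA_214 4 F_380 [(255, 0, 0), (256, 0, 16)]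
    0x4a36188b = true := by
  decide +kernel

def r_380_1 : chkL rootF engF2 tA tA sA_214 sA_214 4 F_380 [(256, 16, 19)]
    0x116447158d206e26 = true := by
  decide +kernel

def r_380_2 : chkL rootF engF2 tA tA sA_214 sA_214 4 F_380 [(256, 35, 0)]
    0x13840f = true := by
  decide +kernel

theorem f_380 (h : TabsF) : FrameF repsF 214 F_380.f :=
  frame_of rfl c_380 ((runs_of engOK r_380_0).append ((runs_of engOK r_380_1).append (runs_of engOK r_380_2))) (by decide +kernel) h.1 h.1

def F_381 : FrX :=
  ⟨0x80080a000804040e000021010020010000020408822000040420300000410020500220014000080208008008802102010001010840006202820c0208000,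
    0xa6, 1, 0x203142527596a3, 7,
    [(0xa6, 1), (0x205396a8, 4), (0x10548796, 4), (0x214396a7, 4), (0x205396a8, 4), (0x10548796, 4)],
    [(0x203142527596a3, 7), (0x526198a7, 4), (0x32617084, 4), (0x536194a0, 4), (0x526198a7, 4), (0x32617084, 4)]⟩

def c_381 : frmChk tA tA F_381 = true := by decide +kernel

def r_381_0 : chkL rootF engF2 tA tA sA_214 sA_214 4 F_381 [(255, 0, 0), (256, 0, 26)]
    0x41d03c1706c27 = true := by
  decide +kernel

def r_381_1 : chkL rootF engF2 tA tA sA_214 sA_214 4 F_381 [(256, 26, 0)]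
    0x1154551d00f = true := by
  decide +kernel

theorem f_381 (h : TabsF) : FrameF repsF 214 F_381.f :=
  frame_of rfl c_381 ((runs_of engOK r_381_0).append (runs_of engOK r_381_1)) (by decide +kernel) h.1 h.1

def F_382 : FrX :=
  ⟨0x2002000900044004000e02041000141000800040800401042008400010208400408102000888005084080004010808100001010041080000011110044402,
    0xa3, 1, 0x41768697a2, 5,
    [(0xa3, 1), (0x208693a5, 4), (0x10548793, 4), (0x217693a4, 4), (0x208693a5, 4), (0x10548793, 4)],
    [(0x41768697a2, 5), (0x536287a0, 4), (0x40516297, 4), (0x316298a4, 4), (0x536287a0, 4), (0x40516297, 4)]⟩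

def c_382 : frmChk tA tA F_382 = true := by decide +kernel

def r_382_0 : chkL rootF engF2 tA tA sA_214 sA_214 4 F_382 [(255, 0, 0), (256, 0, 17)]
    0x10781e0790e4701d = true := by
  decide +kernel

def r_382_1 : chkL rootF engF2 tA tA sA_214 sA_214 4 F_382 [(256, 17, 17)]
    0x10d90e4702b5182b = true := by
  decide +kernel

def r_382_2 : chkL rootF engF2 tA tA sA_214 sA_214 4 F_382 [(256, 34, 13)]
    0x41d = true := by
  decide +kernel

def r_382_3 : chkL rootF engF2 tA tA sA_214 sA_214 4 F_382 [(256, 47, 0)]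
    0x1 = true := by
  decide +kernel

theorem f_382 (h : TabsF) : FrameF repsF 214 F_382.f :=
  frame_of rfl c_382 ((runs_of engOK r_382_0).append ((runs_of engOK r_382_1).append ((runs_of engOK r_382_2).append (runs_of engOK r_382_3)))) (by decide +kernel) h.1 h.1

def F_383 : FrX :=
  ⟨0x80080a000804040e000021010020010000020408a0001002080024800812008010400080400085008080001102002801001081010000104088105010041,
    0xa6, 1, 0x305163728490a3, 7,
    [(0xa6, 1), (0x205396a8, 4), (0x10548796, 4), (0x214396a7, 4), (0x205396a8, 4), (0x10548796, 4)],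
    [(0x305163728490a3, 7), (0x406397a1, 4), (0x42638195, 4), (0x206375a8, 4), (0x406397a1, 4), (0x42638195, 4)]⟩

def c_383 : frmChk tA tA F_383 = true := by decide +kernel

def r_383_0 : chkL rootF engF2 tA tA sA_214 sA_214 4 F_383 [(255, 0, 0), (256, 0, 25)]
    0x41b05c2e530a642c5a = true := by
  decide +kernel

def r_383_1 : chkL rootF engF2 tA tA sA_214 sA_214 4 F_383 [(256, 25, 0)]
    0x1164d80b82e8388d0b49c21c4d11d4c1394606cc322c1b0781b1d047 = true := by
  decide +kernel

theorem f_383 (h : TabsF) : FrameF repsF 214 F_383.f :=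
  frame_of rfl c_383 ((runs_of engOK r_383_0).append (runs_of engOK r_383_1)) (by decide +kernel) h.1 h.1

def F_384 : FrX :=
  ⟨0x482000044040440000c20400200090001820400009008080081000080004300040c0420001080000880221100000400214004440050120001040040828,
    0xa0, 1, 0x21304261708498a3, 8,
    [(0xa0, 1), (0x538690a2, 4), (0x548790a1, 4), (0x21437690, 4), (0x538690a2, 4), (0x548790a1, 4)],
    [(0x21304261708498a3, 8), (0x107492a5, 4), (0x10768593, 4), (0x103264a8, 4), (0x107492a5, 4), (0x10768593, 4)]⟩

def c_384 : frmChk tA tA F_384 = true := by decide +kernel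

def r_384_0 : chkL rootF engF2 tA tA sA_214 sA_214 4 F_384 [(255, 0, 0), (256, 0, 16)]
    0x4a6 = true := by
  decide +kernel

def r_384_1 : chkL rootF engF2 tA tA sA_214 sA_214 4 F_384 [(256, 16, 17)]
    0x105c2d0780f0781b0782e0e82b = true := by
  decide +kernel

def r_384_2 : chkL rootF engF2 tA tA sA_214 sA_214 4 F_384 [(256, 33, 14)]
    0x1549231a4c3315c1 = true := by
  decide +kernel

def r_384_3 : chkL rootF engF2 tA tA sA_214 sA_214 4 F_384 [(256, 47, 0)]
    0x1 = true := by
  decide +kernel

theorem f_384 (h : TabsF) : FrameF repsF 214 F_384.f :=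
  frame_of rfl c_384 ((runs_of engOK r_384_0).append ((runs_of engOK r_384_1).append ((runs_of engOK r_384_2).append (runs_of engOK r_384_3)))) (by decide +kernel) h.1 h.1

def F_385 : FrX :=
  ⟨0x2002000900044004000e02041000141000800040801001021000c00200224000100080a2000800400c08020900000014000420420220100001104204200a,
    0xa3, 1, 0x5461748490a5, 6,
    [(0xa3, 1), (0x208693a5, 4), (0x10548793, 4), (0x217693a4, 4), (0x208693a5, 4), (0x10548793, 4)],
    [(0x5461748490a5, 6), (0x407192a3, 4), (0x407596a8, 4), (0x40516283, 4), (0x407192a3, 4), (0x407596a8, 4)]⟩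

def c_385 : frmChk tA tA F_385 = true := by decide +kernel

def r_385_0 : chkL rootF engF2 tA tA sA_214 sA_214 4 F_385 [(255, 0, 0), (256, 0, 17)]
    0x41b134330cc2d = true := by
  decide +kernel

def r_385_1 : chkL rootF engF2 tA tA sA_214 sA_214 4 F_385 [(256, 17, 17)]
    0x41b2c8a3 = true := by
  decide +kernel

def r_385_2 : chkL rootF engF2 tA tA sA_214 sA_214 4 F_385 [(256, 34, 0)]
    0x49c = true := by
  decide +kernel

theorem f_385 (h : TabsF) : FrameF repsF 214 F_385.f :=
  frame_of rfl c_385 ((runs_of engOK r_385_0).append ((runs_of engOK r_385_1).append (runs_of engOK r_385_2))) (by decide +kernel) h.1 h.1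

def F_386 : FrX :=
  ⟨0x80080a000804040e0000210100200100000204088048100010240012024000000901402000404001005000008840024020208a010008408004024428000,
    0xa6, 1, 0x20314054657492a8, 8,
    [(0xa6, 1), (0x205396a8, 4), (0x10548796, 4), (0x214396a7, 4), (0x205396a8, 4), (0x10548796, 4)],
    [(0x20314054657492a8, 8), (0x618094a2, 4), (0x437680a5, 4), (0x52718093, 4), (0x618094a2, 4), (0x437680a5, 4)]⟩

def c_386 : frmChk tA tA F_386 = true := by decide +kernel

def r_386_0 : chkL rootF engF2 tA tA sA_214 sA_214 4 F_386 [(255, 0, 0), (256, 0, 26)]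
    0x10b46903c8b294e11688d2a41d0d85c = true := by
  decide +kernel

def r_386_1 : chkL rootF engF2 tA tA sA_214 sA_214 4 F_386 [(256, 26, 0)]
    0x114c2d06c1b12ca5 = true := by
  decide +kernel

theorem f_386 (h : TabsF) : FrameF repsF 214 F_386.f :=
  frame_of rfl c_386 ((runs_of engOK r_386_0).append (runs_of engOK r_386_1)) (by decide +kernel) h.1 h.1

def F_387 : FrX :=
  ⟨0x2002000900044004000e02041000141000800040810000028090000110102201220200001008008820800209020041040044808000a00200202020081010,
    0xa3, 1, 0x315260708496a7, 7,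
    [(0xa3, 1), (0x208693a5, 4), (0x10548793, 4), (0x217693a4, 4), (0x208693a5, 4), (0x10548793, 4)],
    [(0x315260708496a7, 7), (0x21607594, 4), (0x607382a4, 4), (0x536081a9, 4), (0x21607594, 4), (0x607382a4, 4)]⟩

def c_387 : frmChk tA tA F_387 = true := by decide +kernel

def r_387_0 : chkL rootF engF2 tA tA sA_214 sA_214 4 F_387 [(255, 0, 0), (256, 0, 18)]
    0x103c0f05c1b5884d0d80f05c33 = true := by
  decide +kernel

def r_387_1 : chkL rootF engF2 tA tA sA_214 sA_214 4 F_387 [(256, 18, 16)]
    0x105c3305c171540f = true := by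
  decide +kernel

def r_387_2 : chkL rootF engF2 tA tA sA_214 sA_214 4 F_387 [(256, 34, 0)]
    0x189b24 = true := by
  decide +kernel

theorem f_387 (h : TabsF) : FrameF repsF 214 F_387.f :=
  frame_of rfl c_387 ((runs_of engOK r_387_0).append ((runs_of engOK r_387_1).append (runs_of engOK r_387_2))) (by decide +kernel) h.1 h.1

def F_388 : FrX :=
  ⟨0x2002000900044004000e02041000141000800040800801014008024002000180200102104024001010040012000404200281008051000808100202020081,
    0xa3, 1, 0x204162728593a6, 7,
    [(0xa3, 1), (0x208693a5, 4), (0x10548793, 4), (0x217693a4, 4), (0x208693a5, 4), (0x10548793, 4)],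
    [(0x204162728593a6, 7), (0x307298a5, 4), (0x30426581, 4), (0x307491a6, 4), (0x307298a5, 4), (0x30426581, 4)]⟩

def c_388 : frmChk tA tA F_388 = true := by decide +kernel

def r_388_0 : chkL rootF engF2 tA tA sA_214 sA_214 4 F_388 [(255, 0, 0), (256, 0, 19)]
    0x106c1750c8d = true := by
  decide +kernel

def r_388_1 : chkL rootF engF2 tA tA sA_214 sA_214 4 F_388 [(256, 19, 13)]
    0x40f21d262c8b20f01e0b8390742b = true := by
  decide +kernel

def r_388_2 : chkL rootF engF2 tA tA sA_214 sA_214 4 F_388 [(256, 32, 0)]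
    0x42b234170d41e0cc1e05c331702b = true := by
  decide +kernel

theorem f_388 (h : TabsF) : FrameF repsF 214 F_388.f :=
  frame_of rfl c_388 ((runs_of engOK r_388_0).append ((runs_of engOK r_388_1).append (runs_of engOK r_388_2))) (by decide +kernel) h.1 h.1

def F_389 : FrX :=
  ⟨0x80080a000804040e0000210100200100000204089007000100800800a000000031014004004006000800800501101100024008022280801100844080000,
    0xa6, 1, 0x213053657386a3, 7,
    [(0xa6, 1), (0x205396a8, 4), (0x10548796, 4), (0x214396a7, 4), (0x205396a8, 4), (0x10548796, 4)],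
    [(0x213053657386a3, 7), (0x318097a6, 4), (0x32506497, 4), (0x218597a4, 4), (0x318097a6, 4), (0x32506497, 4)]⟩

def c_389 : frmChk tA tA F_389 = true := by decide +kernel

def r_389_0 : chkL rootF engF2 tA tA sA_214 sA_214 4 F_389 [(255, 0, 0), (256, 0, 13)]
    0x4e10d8e2349a8e8095a50350d859154cc630a5 = true := by
  decide +kernel

def r_389_1 : chkL rootF engF2 tA tA sA_214 sA_214 4 F_389 [(256, 13, 16)]
    0x4350b84e15466 = true := by
  decide +kernel

def r_389_2 : chkL rootF engF2 tA tA sA_214 sA_214 4 F_389 [(256, 29, 18)]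
    0x113855134ac03c8d = true := by
  decide +kernel

def r_389_3 : chkL rootF engF2 tA tA sA_214 sA_214 4 F_389 [(256, 47, 0)]
    0x105c1d = true := by
  decide +kernel

theorem f_389 (h : TabsF) : FrameF repsF 214 F_389.f :=
  frame_of rfl c_389 ((runs_of engOK r_389_0).append ((runs_of engOK r_389_1).append ((runs_of engOK r_389_2).append (runs_of engOK r_389_3)))) (by decide +kernel) h.1 h.1

def F_390 : FrX :=
  ⟨0x482000044040440000c2040020009000182040010080020801000808020108110400400c80042000080141084008800001002110008082110104400001,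
    0xa0, 1, 0x102040516095a6, 7,
    [(0xa0, 1), (0x538690a2, 4), (0x548790a1, 4), (0x21437690, 4), (0x538690a2, 4), (0x548790a1, 4)],
    [(0x102040516095a6, 7), (0x406193a8, 4), (0x40658792, 4), (0x324051a7, 4), (0x406193a8, 4), (0x40658792, 4)]⟩

def c_390 : frmChk tA tA F_390 = true := by decide +kernel

def r_390_0 : chkL rootF engF2 tA tA sA_214 sA_214 4 F_390 [(255, 0, 0), (256, 0, 15)]
    0x44b0b85314c63 = true := by
  decide +kernel

def r_390_1 : chkL rootF engF2 tA tA sA_214 sA_214 4 F_390 [(256, 15, 17)]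
    0x41e05c27360d8 = true := by
  decide +kernel

def r_390_2 : chkL rootF engF2 tA tA sA_214 sA_214 4 F_390 [(256, 32, 0)]
    0x41d09c2b0ac2b0741706c1e18d610b8330781e0ac2b8b1c18941705c17 = true := by
  decide +kernel

theorem f_390 (h : TabsF) : FrameF repsF 214 F_390.f :=
  frame_of rfl c_390 ((runs_of engOK r_390_0).append ((runs_of engOK r_390_1).append (runs_of engOK r_390_2))) (by decide +kernel) h.1 h.1

def F_391 : FrX :=
  ⟨0x482000044040440000c2040020009000182040004021020008020280040030010022001090901008000004201088080044001000440120044010800208,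
    0xa0, 1, 0x20324060708292a6, 8,
    [(0xa0, 1), (0x538690a2, 4), (0x548790a1, 4), (0x21437690, 4), (0x538690a2, 4), (0x548790a1, 4)],
    [(0x20324060708292a6, 8), (0x508497a3, 4), (0x52637184, 4), (0x208491a6, 4), (0x508497a3, 4), (0x52637184, 4)]⟩

def c_391 : frmChk tA tA F_391 = true := by decide +kernel

def r_391_0 : chkL rootF engF2 tA tA sA_214 sA_214 4 F_391 [(255, 0, 0), (256, 0, 16)]
    0x103ce103c2d1c82b03d1630c661d11360c1b03c3c = true := by
  decide +kernel

def r_391_1 : chkL rootF engF2 tA tA sA_214 sA_214 4 F_391 [(256, 16, 16)]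
    0x56184e13a44711c4172949c83615 = true := by
  decide +kernel

def r_391_2 : chkL rootF engF2 tA tA sA_214 sA_214 4 F_391 [(256, 32, 0)]
    0x106c2b30c3c14cd14a4c30ad1360c2b515c10d4350f12505c3512c1703c0f4b328 = true := by
  decide +kernel

theorem f_391 (h : TabsF) : FrameF repsF 214 F_391.f :=
  frame_of rfl c_391 ((runs_of engOK r_391_0).append ((runs_of engOK r_391_1).append (runs_of engOK r_391_2))) (by decide +kernel) h.1 h.1

theorem cl_214 (h : TabsF) : ∀ f ∈ fr_214, FrameF repsF 214 f :=
  List.forall_mem_cons.2 ⟨f_364 h, List.forall_mem_cons.2 ⟨f_365 h, List.forall_mem_cons.2 ⟨f_366 h, List.forall_mem_cons.2 ⟨f_367 h, List.forall_mem_cons.2 ⟨f_368 h, List.forall_mem_cons.2 ⟨f_369 h, List.forall_mem_cons.2 ⟨f_370 h, List.forall_mem_cons.2 ⟨f_371 h, List.forall_mem_cons.2 ⟨f_372 h, List.forall_mem_cons.2 ⟨f_373 h, List.forall_mem_cons.2 ⟨f_374 h, List.forall_mem_cons.2 ⟨f_375 h, List.forall_mem_cons.2 ⟨f_376 h, List.forall_mem_cons.2 ⟨f_377 h, List.forall_mem_cons.2 ⟨f_378 h, List.forall_mem_cons.2 ⟨f_379 h,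 List.forall_mem_cons.2 ⟨f_380 h, List.forall_mem_cons.2 ⟨f_381 h, List.forall_mem_cons.2 ⟨f_382 h, List.forall_mem_cons.2 ⟨f_383 h, List.forall_mem_cons.2 ⟨f_384 h, List.forall_mem_cons.2 ⟨f_385 h, List.forall_mem_cons.2 ⟨f_386 h, List.forall_mem_cons.2 ⟨f_387 h, List.forall_mem_cons.2 ⟨f_388 h, List.forall_mem_cons.2 ⟨f_389 h, List.forall_mem_cons.2 ⟨f_390 h, List.forall_mem_cons.2 ⟨f_391 h,
    fun _ h0 => absurd h0 List.not_mem_nil⟩⟩⟩⟩⟩⟩⟩⟩⟩⟩⟩⟩⟩⟩⟩⟩⟩⟩⟩⟩⟩⟩⟩⟩⟩⟩⟩⟩

def F_392 : FrX :=
  ⟨0x80080a000804040e00002101002001000002040880480800404400108220000022011001102010408008801000508801004042040002002100904041000,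
    0xa6, 1, 0x104065738191a8, 7,
    [(0xa6, 1), (0x205396a8, 4), (0x10548796, 4), (0x214396a7, 4), (0x205396a8, 4), (0x10548796, 4)],
    [(0x104065738191a8, 7), (0x427680a5, 4), (0x618094a3, 4), (0x53718092, 4), (0x427680a5, 4), (0x618094a3, 4)]⟩

def c_392 : frmChk tA tA F_392 = true := by decide +kernel

def r_392_0 : chkL rootF engF2 tA tA sA_215 sA_215 4 F_392 [(255, 0, 0), (256, 0, 15)]
    0x1234ac0741d = true := by
  decide +kernel

def r_392_1 : chkL rootF engF2 tA tA sA_215 sA_215 4 F_392 [(256, 15, 17)]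
    0x41b1344d134711541d = true := by
  decide +kernel

def r_392_2 : chkL rootF engF2 tA tA sA_215 sA_215 4 F_392 [(256, 32, 0)]
    0x1264780782b = true := by
  decide +kernel

theorem f_392 (h : TabsF) : FrameF repsF 215 F_392.f :=
  frame_of rfl c_392 ((runs_of engOK r_392_0).append ((runs_of engOK r_392_1).append (runs_of engOK r_392_2))) (by decide +kernel) h.1 h.1

def F_393 : FrX :=
  ⟨0x80080a000804040e000021010020010000020408840204002080881008100010010040502000482008108002110010012401080800080404040200a1000,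
    0xa6, 1, 0x52728191a4, 5,
    [(0xa6, 1), (0x205396a8, 4), (0x10548796, 4), (0x214396a7, 4), (0x205396a8, 4), (0x10548796, 4)],
    [(0x52728191a4, 5), (0x32617084, 4), (0x518490a2, 4), (0x658497a3, 4), (0x32617084, 4), (0x518490a2, 4)]⟩

def c_393 : frmChk tA tA F_393 = true := by decide +kernel

def r_393_0 : chkL rootF engF2 tA tA sA_215 sA_215 4 F_393 [(255, 0, 0), (256, 0, 16)]
    0x10743a170a912d4c = true := by
  decide +kernel

def r_393_1 : chkL rootF engF2 tA tA sA_215 sA_215 4 F_393 [(256, 16, 16)]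
    0x42b = true := by
  decide +kernel

def r_393_2 : chkL rootF engF2 tA tA sA_215 sA_215 4 F_393 [(256, 32, 0)]
    0x44e90e52 = true := by
  decide +kernel

theorem f_393 (h : TabsF) : FrameF repsF 215 F_393.f :=
  frame_of rfl c_393 ((runs_of engOK r_393_0).append ((runs_of engOK r_393_1).append (runs_of engOK r_393_2))) (by decide +kernel) h.1 h.1

def F_394 : FrX :=
  ⟨0x2002000900044004000e02041000141000800040801000228001400100880040201080210020040400a0080602101000100c00a0004802003000a0020004,
    0xa3, 1, 0x31435064718693a0, 8,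
    [(0xa3, 1), (0x208693a5, 4), (0x10548793, 4), (0x217693a4, 4), (0x208693a5, 4), (0x10548793, 4)],
    [(0x31435064718693a0, 8), (0x548190a2, 4), (0x315460a7, 4), (0x54728396, 4), (0x548190a2, 4), (0x315460a7, 4)]⟩

def c_394 : frmChk tA tA F_394 = true := by decide +kernel

def r_394_0 : chkL rootF engF2 tA tA sA_215 sA_215 4 F_394 [(255, 0, 0), (256, 0, 17)]
    0x105c2714c332364a = true := by
  decide +kernel

def r_394_1 : chkL rootF engF2 tA tA sA_215 sA_215 4 F_394 [(256, 17, 15)]
    0x103c5522d831701705c2712c0f9500f = true := by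
  decide +kernel

def r_394_2 : chkL rootF engF2 tA tA sA_215 sA_215 4 F_394 [(256, 32, 0)]
    0x11a45a05c170d42b09c35 = true := by
  decide +kernel

theorem f_394 (h : TabsF) : FrameF repsF 215 F_394.f :=
  frame_of rfl c_394 ((runs_of engOK r_394_0).append ((runs_of engOK r_394_1).append (runs_of engOK r_394_2))) (by decide +kernel) h.1 h.1

def F_395 : FrX :=
  ⟨0x2002000900044004000e02041000141000800040800800248000c00400880080200500110200808400a0004201101000120180a002040000500210008004,
    0xa3, 1, 0x10305062728594a0, 8,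
    [(0xa3, 1), (0x208693a5, 4), (0x10548793, 4), (0x217693a4, 4), (0x208693a5, 4), (0x10548793, 4)],
    [(0x10305062728594a0, 8), (0x325481a7, 4), (0x546398a0, 4), (0x54627091, 4), (0x325481a7, 4), (0x546398a0, 4)]⟩

def c_395 : frmChk tA tA F_395 = true := by decide +kernel

def r_395_0 : chkL rootF engF2 tA tA sA_215 sA_215 4 F_395 [(255, 0, 0), (256, 0, 24)]
    0x10786a22c350ac0f68513c844b = true := by
  decide +kernel

def r_395_1 : chkL rootF engF2 tA tA sA_215 sA_215 4 F_395 [(256, 24, 0)]
    0x105c2705c0f12c1d0d4270b40f1a839 = true := by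
  decide +kernel

theorem f_395 (h : TabsF) : FrameF repsF 215 F_395.f :=
  frame_of rfl c_395 ((runs_of engOK r_395_0).append (runs_of engOK r_395_1)) (by decide +kernel) h.1 h.1

def F_396 : FrX :=
  ⟨0x482000044040440000c2040020009000182040010100002804280004000882022020001002031000040049082008801010002048080082100400200201,
    0xa0, 1, 0x2142658090a5, 6,
    [(0xa0, 1), (0x538690a2, 4), (0x548790a1, 4), (0x21437690, 4), (0x538690a2, 4), (0x548790a1, 4)],
    [(0x2142658090a5, 6), (0x508694a3, 4), (0x708692a1, 4), (0x31427586, 4), (0x508694a3, 4), (0x708692a1, 4)]⟩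

def c_396 : frmChk tA tA F_396 = true := by decide +kernel

def r_396_0 : chkL rootF engF2 tA tA sA_215 sA_215 4 F_396 [(255, 0, 0), (256, 0, 14)]
    0x1c84c50741b = true := by
  decide +kernel

def r_396_1 : chkL rootF engF2 tA tA sA_215 sA_215 4 F_396 [(256, 14, 15)]
    0x41b0785a8344e22dc248e0bc860e16835 = true := by
  decide +kernel

def r_396_2 : chkL rootF engF2 tA tA sA_215 sA_215 4 F_396 [(256, 29, 0)]
    0x1d801e8c42b05c17 = true := by
  decide +kernel

theorem f_396 (h : TabsF) : FrameF repsF 215 F_396.f :=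
  frame_of rfl c_396 ((runs_of engOK r_396_0).append ((runs_of engOK r_396_1).append (runs_of engOK r_396_2))) (by decide +kernel) h.1 h.1

def F_397 : FrX :=
  ⟨0x482000044040440000c2040020009000182040010010100800800810040844220010004002009020100048083008802014002004040280100400002401,
    0xa0, 1, 0x415065758096a5, 7,
    [(0xa0, 1), (0x538690a2, 4), (0x548790a1, 4), (0x21437690, 4), (0x538690a2, 4), (0x548790a1, 4)],
    [(0x415065758096a5, 7), (0x708295a3, 4), (0x657084a1, 4), (0x31427096, 4), (0x708295a3, 4), (0x657084a1, 4)]⟩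

def c_397 : frmChk tA tA F_397 = true := by decide +kernel

def r_397_0 : chkL rootF engF2 tA tA sA_215 sA_215 4 F_397 [(255, 0, 0), (256, 0, 26)]
    0x1074560aec8 = true := by
  decide +kernel

def r_397_1 : chkL rootF engF2 tA tA sA_215 sA_215 4 F_397 [(256, 26, 21)]
    0x10741b5281e = true := by
  decide +kernel

def r_397_2 : chkL rootF engF2 tA tA sA_215 sA_215 4 F_397 [(256, 47, 0)]
    0x1 = true := by
  decide +kernel

theorem f_397 (h : TabsF) : FrameF repsF 215 F_397.f :=
  frame_of rfl c_397 ((runs_of engOK r_397_0).append ((runs_of engOK r_397_1).append (runs_of engOK r_397_2))) (by decide +kernel) h.1 h.1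

def F_398 : FrX :=
  ⟨0x482000044040440000c204002000900018204000042022800120008008010801002040110400040a00020048022000a0000a0110070004000a00012008,
    0xa0, 1, 0x1032607382a1, 6,
    [(0xa0, 1), (0x538690a2, 4), (0x548790a1, 4), (0x21437690, 4), (0x538690a2, 4), (0x548790a1, 4)],
    [(0x1032607382a1, 6), (0x31758690, 4), (0x325490a6, 4), (0x217490a8, 4), (0x31758690, 4), (0x325490a6, 4)]⟩

def c_398 : frmChk tA tA F_398 = true := by decide +kernel

def r_398_0 : chkL rootF engF2 tA tA sA_215 sA_215 4 F_398 [(255, 0, 0), (256, 0, 17)]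
    0x109c2b06c4d1340f14c1b03c2b = true := by
  decide +kernel

def r_398_1 : chkL rootF engF2 tA tA sA_215 sA_215 4 F_398 [(256, 17, 17)]
    0x142f0a3a05509c0f0d4e403c1b2549505cb405c0f03d3103d313a00f = true := by
  decide +kernel

def r_398_2 : chkL rootF engF2 tA tA sA_215 sA_215 4 F_398 [(256, 34, 0)]
    0x41705c360ac2782f0a0f00f = true := by
  decide +kernel

theorem f_398 (h : TabsF) : FrameF repsF 215 F_398.f :=
  frame_of rfl c_398 ((runs_of engOK r_398_0).append ((runs_of engOK r_398_1).append (runs_of engOK r_398_2))) (by decide +kernel) h.1 h.1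

def F_399 : FrX :=
  ⟨0x2002000900044004000e020410001410008000408011402020014001010000400400c80101000044108002020210010400040094010404202040c0008004,
    0xa3, 1, 0x2031527083a0, 6,
    [(0xa3, 1), (0x208693a5, 4), (0x10548793, 4), (0x217693a4, 4), (0x208693a5, 4), (0x10548793, 4)],
    [(0x2031527083a0, 6), (0x618097a5, 4), (0x214097a3, 4), (0x53628497, 4), (0x618097a5, 4), (0x214097a3, 4)]⟩

def c_399 : frmChk tA tA F_399 = true := by decide +kernel

def r_399_0 : chkL rootF engF2 tA tA sA_215 sA_215 4 F_399 [(255, 0, 0), (256, 0, 16)]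
    0x433544a6164330cc272c48d = true := by
  decide +kernel

def r_399_1 : chkL rootF engF2 tA tA sA_215 sA_215 4 F_399 [(256, 16, 16)]
    0x42d0742b = true := by
  decide +kernel

def r_399_2 : chkL rootF engF2 tA tA sA_215 sA_215 4 F_399 [(256, 32, 0)]
    0x1198531980f = true := by
  decide +kernel

theorem f_399 (h : TabsF) : FrameF repsF 215 F_399.f :=
  frame_of rfl c_399 ((runs_of engOK r_399_0).append ((runs_of engOK r_399_1).append (runs_of engOK r_399_2))) (by decide +kernel) h.1 h.1

def F_400 : FrX :=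
  ⟨0x80080a000804040e00002101002001000002040890020002200808400114004040400050000084850810000025010002020088420000220202011080100,
    0xa6, 1, 0x1020325162708195a0, 9,
    [(0xa6, 1), (0x205396a8, 4), (0x10548796, 4), (0x214396a7, 4), (0x205396a8, 4), (0x10548796, 4)],
    [(0x1020325162708195a0, 9), (0x537091a6, 4), (0x527094a8, 4), (0x32417086, 4), (0x537091a6, 4), (0x527094a8, 4)]⟩

def c_400 : frmChk tA tA F_400 = true := by decide +kernel

def r_400_0 : chkL rootF engF2 tA tA sA_215 sA_215 4 F_400 [(255, 0, 0), (256, 0, 14)]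
    0x118c1b0ac3509d4609c170cd85 = true := by
  decide +kernel

def r_400_1 : chkL rootF engF2 tA tA sA_215 sA_215 4 F_400 [(256, 14, 17)]
    0x47206e0b8a855 = true := by
  decide +kernel

def r_400_2 : chkL rootF engF2 tA tA sA_215 sA_215 4 F_400 [(256, 31, 0)]
    0x44dac154518170cc1e05e2a0e5a40ac2d = true := by
  decide +kernel

theorem f_400 (h : TabsF) : FrameF repsF 215 F_400.f :=
  frame_of rfl c_400 ((runs_of engOK r_400_0).append ((runs_of engOK r_400_1).append (runs_of engOK r_400_2))) (by decide +kernel) h.1 h.1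

def F_401 : FrX :=
  ⟨0x482000044040440000c204002000900018204000088104002000080811041001008041002008045010020040500000a084008500050020000804010108,
    0xa0, 1, 0x213164728194a2, 7,
    [(0xa0, 1), (0x538690a2, 4), (0x548790a1, 4), (0x21437690, 4), (0x538690a2, 4), (0x548790a1, 4)],
    [(0x213164728194a2, 7), (0x435276a0, 4), (0x31768095, 4), (0x417692a8, 4), (0x435276a0, 4), (0x31768095, 4)]⟩

def c_401 : frmChk tA tA F_401 = true := by decide +kernel

def r_401_0 : chkL rootF engF2 tA tA sA_215 sA_215 4 F_401 [(255, 0, 0), (256, 0, 18)]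
    0x417 = true := by
  decide +kernel

def r_401_1 : chkL rootF engF2 tA tA sA_215 sA_215 4 F_401 [(256, 18, 15)]
    0x1 = true := by
  decide +kernel

def r_401_2 : chkL rootF engF2 tA tA sA_215 sA_215 4 F_401 [(256, 33, 0)]
    0x1 = true := by
  decide +kernel

theorem f_401 (h : TabsF) : FrameF repsF 215 F_401.f :=
  frame_of rfl c_401 ((runs_of engOK r_401_0).append ((runs_of engOK r_401_1).append (runs_of engOK r_401_2))) (by decide +kernel) h.1 h.1

def F_402 : FrX :=
  ⟨0x1c2102000004044000002041000101000082040890040100008002008100084040088410000084450800220025001002084008420050020202080008100,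
    0x0, 0, 0x43647584, 4,
    [(0x0, 0), (0x205386a9, 4), (0x105487a9, 4), (0x214376a9, 4), (0x205386a9, 4), (0x105487a9, 4)],
    [(0x43647584, 4), (0x206374a9, 4), (0x106587a9, 4), (0x215384a9, 4), (0x206374a9, 4), (0x106587a9, 4)]⟩

def c_402 : frmChk tA tA F_402 = true := by decide +kernel

def r_402_0 : chkL rootF engF2 tA tA sA_215 sA_215 4 F_402 [(255, 0, 0), (256, 0, 2)]
    0x44e03c0f = true := by
  decide +kernel

def r_402_1 : chkL rootF engF2 tA tA sA_215 sA_215 4 F_402 [(256, 2, 1)]
    0x10781b0784e = true := by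
  decide +kernel

def r_402_2 : chkL rootF engF2 tA tA sA_215 sA_215 4 F_402 [(256, 3, 1)]
    0x433 = true := by
  decide +kernel

def r_402_3 : chkL rootF engF2 tA tA sA_215 sA_215 4 F_402 [(256, 4, 1)]
    0x1 = true := by
  decide +kernel

def r_402_4 : chkL rootF engF2 tA tA sA_215 sA_215 4 F_402 [(256, 5, 1)]
    0x474 = true := by
  decide +kernel

def r_402_5 : chkL rootF engF2 tA tA sA_215 sA_215 4 F_402 [(256, 6, 1)]
    0x103c2b03c63 = true := by
  decide +kernel

def r_402_6 : chkL rootF engF2 tA tA sA_215 sA_215 4 F_402 [(256, 7, 2)]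
    0x1 = true := by
  decide +kernel

def r_402_7 : chkL rootF engF2 tA tA sA_215 sA_215 4 F_402 [(256, 9, 1)]
    0x1 = true := by
  decide +kernel

def r_402_8 : chkL rootF engF2 tA tA sA_215 sA_215 4 F_402 [(256, 10, 1)]
    0x1 = true := by
  decide +kernel

def r_402_9 : chkL rootF engF2 tA tA sA_215 sA_215 4 F_402 [(256, 11, 2)]
    0x1 = true := by
  decide +kernel

def r_402_10 : chkL rootF engF2 tA tA sA_215 sA_215 4 F_402 [(256, 13, 4)]
    0x436 = true := by
  decide +kernel

def r_402_11 : chkL rootF engF2 tA tA sA_215 sA_215 4 F_402 [(256, 17, 3)]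
    0x12a827 = true := by
  decide +kernel

def r_402_12 : chkL rootF engF2 tA tA sA_215 sA_215 4 F_402 [(256, 20, 3)]
    0x46521c66 = true := by
  decide +kernel

def r_402_13 : chkL rootF engF2 tA tA sA_215 sA_215 4 F_402 [(256, 23, 11)]
    0x1 = true := by
  decide +kernel

def r_402_14 : chkL rootF engF2 tA tA sA_215 sA_215 4 F_402 [(256, 34, 3)]
    0x44b = true := by
  decide +kernel

def r_402_15 : chkL rootF engF2 tA tA sA_215 sA_215 4 F_402 [(256, 37, 4)]
    0x11644b12c55 = true := by
  decide +kernel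

def r_402_16 : chkL rootF engF2 tA tA sA_215 sA_215 4 F_402 [(256, 41, 2)]
    0x1 = true := by
  decide +kernel

def r_402_17 : chkL rootF engF2 tA tA sA_215 sA_215 4 F_402 [(256, 43, 3)]
    0x1 = true := by
  decide +kernel

def r_402_18 : chkL rootF engF2 tA tA sA_215 sA_215 4 F_402 [(256, 46, 0)]
    0x1 = true := by
  decide +kernel

theorem f_402 (h : TabsF) : FrameF repsF 215 F_402.f :=
  frame_of rfl c_402 ((runs_of engOK r_402_0).append ((runs_of engOK r_402_1).append ((runs_of engOK r_402_2).append ((runs_of engOK r_402_3).append ((runs_of engOK r_402_4).append ((runs_of engOK r_402_5).append ((runs_of engOK r_402_6).append ((runs_of engOK r_402_7).append ((runs_of engOK r_402_8).append ((runs_of engOK r_402_9).append ((runs_of engOK r_402_10).append ((runs_of engOK r_402_11).append ((runs_of engOK r_402_12).append ((runs_of engOK r_402_13).append ((runs_of engOK r_402_14).append ((runs_of engOK r_402_15).append ((runs_of engOK r_402_16).append ((runs_of engOK r_402_17).append (runs_of engOK r_402_18)))))))))))))))))))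 (by decide +kernel) h.1 h.1

def F_403 : FrX :=
  ⟨0x2002000900044004000e02041000141000800040810000082081004101008402020008204004004112000810400001800084000441080800040c44080840,
    0xa3, 1, 0x20405264728593a6, 8,
    [(0xa3, 1), (0x208693a5, 4), (0x10548793, 4), (0x217693a4, 4), (0x208693a5, 4), (0x10548793, 4)],
    [(0x20405264728593a6, 8), (0x327498a0, 4), (0x32415086, 4), (0x327196a5, 4), (0x327498a0, 4), (0x32415086, 4)]⟩

def c_403 : frmChk tA tA F_403 = true := by decide +kernel

def r_403_0 : chkL rootF engF2 tA tA sA_215 sA_215 4 F_403 [(255, 0, 0), (256, 0, 26)]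
    0x40f12c1e = true := by
  decide +kernel

def r_403_1 : chkL rootF engF2 tA tA sA_215 sA_215 4 F_403 [(256, 26, 0)]
    0x4479140f836450cc17 = true := by
  decide +kernel

theorem f_403 (h : TabsF) : FrameF repsF 215 F_403.f :=
  frame_of rfl c_403 ((runs_of engOK r_403_0).append (runs_of engOK r_403_1)) (by decide +kernel) h.1 h.1

def F_404 : FrX :=
  ⟨0x482000044040440000c2040020009000182040010100002804000110002022809080000802081000091440202002800084040240080402110000200201,
    0xa0, 1, 0x2031425263718495a0, 9,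
    [(0xa0, 1), (0x538690a2, 4), (0x548790a1, 4), (0x21437690, 4), (0x538690a2, 4), (0x548790a1, 4)],
    [(0x2031425263718495a0, 9), (0x104296a5, 4), (0x304298a7, 4), (0x31427586, 4), (0x104296a5, 4), (0x304298a7, 4)]⟩

def c_404 : frmChk tA tA F_404 = true := by decide +kernel

def r_404_0 : chkL rootF engF2 tA tA sA_215 sA_215 4 F_404 [(255, 0, 0), (256, 0, 18)]
    0x41e = true := by
  decide +kernel

def r_404_1 : chkL rootF engF2 tA tA sA_215 sA_215 4 F_404 [(256, 18, 16)]
    0x107855 = true := by
  decide +kernel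

def r_404_2 : chkL rootF engF2 tA tA sA_215 sA_215 4 F_404 [(256, 34, 0)]
    0x1078b4e402e05c17 = true := by
  decide +kernel

theorem f_404 (h : TabsF) : FrameF repsF 215 F_404.f :=
  frame_of rfl c_404 ((runs_of engOK r_404_0).append ((runs_of engOK r_404_1).append (runs_of engOK r_404_2))) (by decide +kernel) h.1 h.1

def F_405 : FrX :=
  ⟨0x80080a000804040e0000210100200100000204088420000049008002000408b00100040808800402003008001300200444100808200840a000000808080,
    0xa6, 1, 0x21318395a6, 5,
    [(0xa6, 1), (0x205396a8, 4), (0x10548796, 4), (0x214396a7, 4), (0x205396a8, 4), (0x10548796, 4)],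
    [(0x21318395a6, 5), (0x106598a2, 4), (0x30657294, 4), (0x316584a7, 4), (0x106598a2, 4), (0x30657294, 4)]⟩

def c_405 : frmChk tA tA F_405 = true := by decide +kernel

def r_405_0 : chkL rootF engF2 tA tA sA_215 sA_215 4 F_405 [(255, 0, 0), (256, 0, 17)]
    0x10741d = true := by
  decide +kernel

def r_405_1 : chkL rootF engF2 tA tA sA_215 sA_215 4 F_405 [(256, 17, 14)]
    0x41b06c2e = true := by
  decide +kernel

def r_405_2 : chkL rootF engF2 tA tA sA_215 sA_215 4 F_405 [(256, 31, 0)]
    0x11344e = true := by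
  decide +kernel

theorem f_405 (h : TabsF) : FrameF repsF 215 F_405.f :=
  frame_of rfl c_405 ((runs_of engOK r_405_0).append ((runs_of engOK r_405_1).append (runs_of engOK r_405_2))) (by decide +kernel) h.1 h.1

def F_406 : FrX :=
  ⟨0x2002000900044004000e02041000141000800040809800208020000100012108200020204020000220800420880040800248001011030100004082044004,
    0xa3, 1, 0x10215274a8, 5,
    [(0xa3, 1), (0x208693a5, 4), (0x10548793, 4), (0x217693a4, 4), (0x208693a5, 4), (0x10548793, 4)],
    [(0x10215274a8, 5), (0x305198a6, 4), (0x217098a4, 4), (0x52647398, 4), (0x305198a6, 4), (0x217098a4, 4)]⟩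

def c_406 : frmChk tA tA F_406 = true := by decide +kernel

def r_406_0 : chkL rootF engF2 tA tA sA_215 sA_215 4 F_406 [(255, 0, 0), (256, 0, 23)]
    0x41707a8a = true := by
  decide +kernel

def r_406_1 : chkL rootF engF2 tA tA sA_215 sA_215 4 F_406 [(256, 23, 24)]
    0x4390e80f164e40b83309e250cec1 = true := by
  decide +kernel

def r_406_2 : chkL rootF engF2 tA tA sA_215 sA_215 4 F_406 [(256, 47, 0)]
    0x1 = true := by
  decide +kernel

theorem f_406 (h : TabsF) : FrameF repsF 215 F_406.f :=
  frame_of rfl c_406 ((runs_of engOK r_406_0).append ((runs_of engOK r_406_1).append (runs_of engOK r_406_2))) (by decide +kernel) h.1 h.1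

def F_407 : FrX :=
  ⟨0x482000044040440000c2040020009000182040020002080100080804080422020020400024040412040a00400110084880008008020804040200008050,
    0xa0, 1, 0x213242718093a8, 7,
    [(0xa0, 1), (0x538690a2, 4), (0x548790a1, 4), (0x21437690, 4), (0x538690a2, 4), (0x548790a1, 4)],
    [(0x213242718093a8, 7), (0x108495a6, 4), (0x105387a2, 4), (0x10627493, 4), (0x108495a6, 4), (0x105387a2, 4)]⟩

def c_407 : frmChk tA tA F_407 = true := by decide +kernel

def r_407_0 : chkL rootF engF2 tA tA sA_215 sA_215 4 F_407 [(255, 0, 0), (256, 0, 23)]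
    0x43514c394a53114ca51c49c0d61518c35134f0 = true := by
  decide +kernel

def r_407_1 : chkL rootF engF2 tA tA sA_215 sA_215 4 F_407 [(256, 23, 0)]
    0x1a3286d12a40d8360d83622c3a = true := by
  decide +kernel

theorem f_407 (h : TabsF) : FrameF repsF 215 F_407.f :=
  frame_of rfl c_407 ((runs_of engOK r_407_0).append (runs_of engOK r_407_1)) (by decide +kernel) h.1 h.1

def F_408 : FrX :=
  ⟨0x2002000900044004000e020410001410008000408004004840041042010100410000022010820408a8000100004060008002060011000200101220020280,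
    0xa3, 1, 0x10205062708193a1, 8,
    [(0xa3, 1), (0x208693a5, 4), (0x10548793, 4), (0x217693a4, 4), (0x208693a5, 4), (0x10548793, 4)],
    [(0x10205062708193a1, 8), (0x10768392, 4), (0x425083a7, 4), (0x518394a6, 4), (0x10768392, 4), (0x425083a7, 4)]⟩

def c_408 : frmChk tA tA F_408 = true := by decide +kernel

def r_408_0 : chkL rootF engF2 tA tA sA_215 sA_215 4 F_408 [(255, 0, 0), (256, 0, 24)]
    0x40f03c1b157281583a = true := by
  decide +kernel

def r_408_1 : chkL rootF engF2 tA tA sA_215 sA_215 4 F_408 [(256, 24, 0)]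
    0x40f1946c0ac1e03ca50e4270ac2b = true := by
  decide +kernel

theorem f_408 (h : TabsF) : FrameF repsF 215 F_408.f :=
  frame_of rfl c_408 ((runs_of engOK r_408_0).append (runs_of engOK r_408_1)) (by decide +kernel) h.1 h.1

def F_409 : FrX :=
  ⟨0x80080a000804040e000021010020010000020408812000014101002040040820090800010420200a8008200008048008100082050008082002004440200,
    0xa6, 1, 0x314165748293a2, 7,
    [(0xa6, 1), (0x205396a8, 4), (0x10548796, 4), (0x214396a7, 4), (0x205396a8, 4), (0x10548796, 4)],
    [(0x314165748293a2, 7), (0x528196a0, 4), (0x32407681, 4), (0x538197a4, 4), (0x528196a0, 4), (0x32407681, 4)]⟩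

def c_409 : frmChk tA tA F_409 = true := by decide +kernel

def r_409_0 : chkL rootF engF2 tA tA sA_215 sA_215 4 F_409 [(255, 0, 0), (256, 0, 21)]
    0x10785a = true := by
  decide +kernel

def r_409_1 : chkL rootF engF2 tA tA sA_215 sA_215 4 F_409 [(256, 21, 13)]
    0x40f0741d = true := by
  decide +kernel

def r_409_2 : chkL rootF engF2 tA tA sA_215 sA_215 4 F_409 [(256, 34, 0)]
    0x4741d00f03c0f06c6332583705540d84751b28199465180f = true := by
  decide +kernel

theorem f_409 (h : TabsF) : FrameF repsF 215 F_409.f :=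
  frame_of rfl c_409 ((runs_of engOK r_409_0).append ((runs_of engOK r_409_1).append (runs_of engOK r_409_2))) (by decide +kernel) h.1 h.1

def F_410 : FrX :=
  ⟨0x1c2102000004044000002041000101000082040890040100008002008400021040203010000085004880620120008003041020010040021002400008210,
    0x0, 0, 0x107385, 3,
    [(0x0, 0), (0x205386a9, 4), (0x105487a9, 4), (0x214376a9, 4), (0x205386a9, 4), (0x105487a9, 4)],
    [(0x107385, 3), (0x216587a9, 4), (0x105384a9, 4), (0x206374a9, 4), (0x216587a9, 4), (0x105384a9, 4)]⟩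

def c_410 : frmChk tA tA F_410 = true := by decide +kernel

def r_410_0 : chkL rootF engF2 tA tA sA_215 sA_215 4 F_410 [(255, 0, 0), (256, 0, 4)]
    0x1 = true := by
  decide +kernel

def r_410_1 : chkL rootF engF2 tA tA sA_215 sA_215 4 F_410 [(256, 4, 3)]
    0x1 = true := by
  decide +kernel

def r_410_2 : chkL rootF engF2 tA tA sA_215 sA_215 4 F_410 [(256, 7, 5)]
    0x1 = true := by
  decide +kernel

def r_410_3 : chkL rootF engF2 tA tA sA_215 sA_215 4 F_410 [(256, 12, 7)]
    0x4966c1b03c1136480f0e82b03c3a = true := by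
  decide +kernel

def r_410_4 : chkL rootF engF2 tA tA sA_215 sA_215 4 F_410 [(256, 19, 9)]
    0x417 = true := by
  decide +kernel

def r_410_5 : chkL rootF engF2 tA tA sA_215 sA_215 4 F_410 [(256, 28, 9)]
    0x43a = true := by
  decide +kernel

def r_410_6 : chkL rootF engF2 tA tA sA_215 sA_215 4 F_410 [(256, 37, 7)]
    0x41705c87 = true := by
  decide +kernel

def r_410_7 : chkL rootF engF2 tA tA sA_215 sA_215 4 F_410 [(256, 44, 3)]
    0x11583a0e82d0e80f = true := by
  decide +kernel

def r_410_8 : chkL rootF engF2 tA tA sA_215 sA_215 4 F_410 [(256, 47, 0)]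
    0x1 = true := by
  decide +kernel

theorem f_410 (h : TabsF) : FrameF repsF 215 F_410.f :=
  frame_of rfl c_410 ((runs_of engOK r_410_0).append ((runs_of engOK r_410_1).append ((runs_of engOK r_410_2).append ((runs_of engOK r_410_3).append ((runs_of engOK r_410_4).append ((runs_of engOK r_410_5).append ((runs_of engOK r_410_6).append ((runs_of engOK r_410_7).append (runs_of engOK r_410_8))))))))) (by decide +kernel) h.1 h.1

def F_411 : FrX :=
  ⟨0x482000044040440000c20400200090001820400021008020080200100004228006001009020810000890410020200020040202040c0440010100008050,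
    0xa0, 1, 0x3152718795a8, 6,
    [(0xa0, 1), (0x538690a2, 4), (0x548790a1, 4), (0x21437690, 4), (0x538690a2, 4), (0x548790a1, 4)],
    [(0x3152718795a8, 6), (0x325091a6, 4), (0x327094a8, 4), (0x32417586, 4), (0x325091a6, 4), (0x327094a8, 4)]⟩

def c_411 : frmChk tA tA F_411 = true := by decide +kernel

def r_411_0 : chkL rootF engF2 tA tA sA_215 sA_215 4 F_411 [(255, 0, 0), (256, 0, 16)]
    0x42ed08270d56448d261580f0eb183840f = true := by
  decide +kernel

def r_411_1 : chkL rootF engF2 tA tA sA_215 sA_215 4 F_411 [(256, 16, 19)]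
    0x40f09c53 = true := by
  decide +kernel

def r_411_2 : chkL rootF engF2 tA tA sA_215 sA_215 4 F_411 [(256, 35, 0)]
    0x5070cc3342e1a8e03a05c0f = true := by
  decide +kernel

theorem f_411 (h : TabsF) : FrameF repsF 215 F_411.f :=
  frame_of rfl c_411 ((runs_of engOK r_411_0).append ((runs_of engOK r_411_1).append (runs_of engOK r_411_2))) (by decide +kernel) h.1 h.1

def F_412 : FrX :=
  ⟨0x2002000900044004000e0204100014100080004081000008110080240028041002002401001480481a000208000010002085000011080000040802044240,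
    0xa3, 1, 0x314252607195a2, 7,
    [(0xa3, 1), (0x208693a5, 4), (0x10548793, 4), (0x217693a4, 4), (0x208693a5, 4), (0x10548793, 4)],
    [(0x314252607195a2, 7), (0x548091a6, 4), (0x54768392, 4), (0x213054a7, 4), (0x548091a6, 4), (0x54768392, 4)]⟩

def c_412 : frmChk tA tA F_412 = true := by decide +kernel

def r_412_0 : chkL rootF engF2 tA tA sA_215 sA_215 4 F_412 [(255, 0, 0), (256, 0, 17)]
    0x115417 = true := by
  decide +kernel

def r_412_1 : chkL rootF engF2 tA tA sA_215 sA_215 4 F_412 [(256, 17, 17)]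
    0x1 = true := by
  decide +kernel

def r_412_2 : chkL rootF engF2 tA tA sA_215 sA_215 4 F_412 [(256, 34, 0)]
    0x105c1d = true := by
  decide +kernel

theorem f_412 (h : TabsF) : FrameF repsF 215 F_412.f :=
  frame_of rfl c_412 ((runs_of engOK r_412_0).append ((runs_of engOK r_412_1).append (runs_of engOK r_412_2))) (by decide +kernel) h.1 h.1

def F_413 : FrX :=
  ⟨0x80080a000804040e0000210100200100000204088220000208840050002020003201001021400401a008000002202001000081090003040000a02800280,
    0xa6, 1, 0x3161718394a3, 6,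
    [(0xa6, 1), (0x205396a8, 4), (0x10548796, 4), (0x214396a7, 4), (0x205396a8, 4), (0x10548796, 4)],
    [(0x3161718394a3, 6), (0x203184a5, 4), (0x61708495, 4), (0x637284a9, 4), (0x203184a5, 4), (0x61708495, 4)]⟩

def c_413 : frmChk tA tA F_413 = true := by decide +kernel

def r_413_0 : chkL rootF engF2 tA tA sA_215 sA_215 4 F_413 [(255, 0, 0), (256, 0, 18)]
    0x109c1d05e3213a298e232 = true := by
  decide +kernel

def r_413_1 : chkL rootF engF2 tA tA sA_215 sA_215 4 F_413 [(256, 18, 13)]
    0x105c9505c952a515455154c932 = true := by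
  decide +kernel

def r_413_2 : chkL rootF engF2 tA tA sA_215 sA_215 4 F_413 [(256, 31, 0)]
    0x626 = true := by
  decide +kernel

theorem f_413 (h : TabsF) : FrameF repsF 215 F_413.f :=
  frame_of rfl c_413 ((runs_of engOK r_413_0).append ((runs_of engOK r_413_1).append (runs_of engOK r_413_2))) (by decide +kernel) h.1 h.1

def F_414 : FrX :=
  ⟨0x482000044040440000c204002000900018204002000088200010011001211000402800002208100808004100201040024000404805010e000010200201,
    0xa0, 1, 0x31405464728798a0, 8,
    [(0xa0, 1), (0x538690a2, 4), (0x548790a1, 4), (0x21437690, 4), (0x538690a2, 4), (0x548790a1, 4)],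
    [(0x31405464728798a0, 8), (0x104295a7, 4), (0x426098a3, 4), (0x42617385, 4), (0x104295a7, 4), (0x426098a3, 4)]⟩

def c_414 : frmChk tA tA F_414 = true := by decide +kernel

def r_414_0 : chkL rootF engF2 tA tA sA_215 sA_215 4 F_414 [(255, 0, 0), (256, 0, 25)]
    0x41d078592c82e = true := by
  decide +kernel

def r_414_1 : chkL rootF engF2 tA tA sA_215 sA_215 4 F_414 [(256, 25, 0)]
    0x44b = true := by
  decide +kernel

theorem f_414 (h : TabsF) : FrameF repsF 215 F_414.f :=
  frame_of rfl c_414 ((runs_of engOK r_414_0).append (runs_of engOK r_414_1)) (by decide +kernel) h.1 h.1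

def F_415 : FrX :=
  ⟨0x80080a000804040e00002101002001000002040881200008050408100002200030820000a100400b00080004011020400000804a4003001000a02800100,
    0xa6, 1, 0x304161728695a6, 7,
    [(0xa6, 1), (0x205396a8, 4), (0x10548796, 4), (0x214396a7, 4), (0x205396a8, 4), (0x10548796, 4)],
    [(0x304161728695a6, 7), (0x738590a4, 4), (0x42638591, 4), (0x107685a2, 4), (0x738590a4, 4), (0x42638591, 4)]⟩

def c_415 : frmChk tA tA F_415 = true := by decide +kernel

def r_415_0 : chkL rootF engF2 tA tA sA_215 sA_215 4 F_415 [(255, 0, 0), (256, 0, 16)]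
    0x103cac0ac1ec60711c4c519670 = true := by
  decide +kernel

def r_415_1 : chkL rootF engF2 tA tA sA_215 sA_215 4 F_415 [(256, 16, 17)]
    0x10ac1b = true := by
  decide +kernel

def r_415_2 : chkL rootF engF2 tA tA sA_215 sA_215 4 F_415 [(256, 33, 0)]
    0x10b40f07ae049ba00782d = true := by
  decide +kernel

theorem f_415 (h : TabsF) : FrameF repsF 215 F_415.f :=
  frame_of rfl c_415 ((runs_of engOK r_415_0).append ((runs_of engOK r_415_1).append (runs_of engOK r_415_2))) (by decide +kernel) h.1 h.1

def F_416 : FrX :=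
  ⟨0x2002000900044004000e020410001410008000408008020800884005002084000200440008908008b0000004401020002081000405008000040904044040,
    0xa3, 1, 0x1021547095a8, 6,
    [(0xa3, 1), (0x208693a5, 4), (0x10548793, 4), (0x217693a4, 4), (0x208693a5, 4), (0x10548793, 4)],
    [(0x1021547095a8, 6), (0x708493a6, 4), (0x728495a1, 4), (0x20536184, 4), (0x708493a6, 4), (0x728495a1, 4)]⟩

def c_416 : frmChk tA tA F_416 = true := by decide +kernel

def r_416_0 : chkL rootF engF2 tA tA sA_215 sA_215 4 F_416 [(255, 0, 0), (256, 0, 23)]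
    0x10cc4707aa805cb40cd701581705c66 = true := by
  decide +kernel

def r_416_1 : chkL rootF engF2 tA tA sA_215 sA_215 4 F_416 [(256, 23, 0)]
    0x5a20cfa0 = true := by
  decide +kernel

theorem f_416 (h : TabsF) : FrameF repsF 215 F_416.f :=
  frame_of rfl c_416 ((runs_of engOK r_416_0).append (runs_of engOK r_416_1)) (by decide +kernel) h.1 h.1

def F_417 : FrX :=
  ⟨0x2002000900044004000e02041000141000800040800800418100c00400821000100100104024002090048400000410100000804840400200264104014000,
    0xa3, 1, 0x102130546082a3, 7,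
    [(0xa3, 1), (0x208693a5, 4), (0x10548793, 4), (0x217693a4, 4), (0x208693a5, 4), (0x10548793, 4)],
    [(0x102130546082a3, 7), (0x308691a4, 4), (0x54627091, 4), (0x738291a5, 4), (0x308691a4, 4), (0x54627091, 4)]⟩

def c_417 : frmChk tA tA F_417 = true := by decide +kernel

def r_417_0 : chkL rootF engF2 tA tA sA_215 sA_215 4 F_417 [(255, 0, 0), (256, 0, 15)]
    0x417 = true := by
  decide +kernel

def r_417_1 : chkL rootF engF2 tA tA sA_215 sA_215 4 F_417 [(256, 15, 17)]
    0x10d8870e466 = true := by
  decide +kernel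

def r_417_2 : chkL rootF engF2 tA tA sA_215 sA_215 4 F_417 [(256, 32, 0)]
    0x4872985a05c8d11c2709c1e09c17 = true := by
  decide +kernel

theorem f_417 (h : TabsF) : FrameF repsF 215 F_417.f :=
  frame_of rfl c_417 ((runs_of engOK r_417_0).append ((runs_of engOK r_417_1).append (runs_of engOK r_417_2))) (by decide +kernel) h.1 h.1

def F_418 : FrX :=
  ⟨0x482000044040440000c2040020009000182040002080440000880200040090088012001204100120000c0088020880001000108044800008a040210400,
    0xa0, 1, 0x20305163758193a6, 8,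
    [(0xa0, 1), (0x538690a2, 4), (0x548790a1, 4), (0x21437690, 4), (0x538690a2, 4), (0x548790a1, 4)],
    [(0x20305163758193a6, 8), (0x306297a5, 4), (0x51627483, 4), (0x628094a1, 4), (0x306297a5, 4), (0x51627483, 4)]⟩

def c_418 : frmChk tA tA F_418 = true := by decide +kernel

def r_418_0 : chkL rootF engF2 tA tA sA_215 sA_215 4 F_418 [(255, 0, 0), (256, 0, 24)]
    0x417 = true := by
  decide +kernel

def r_418_1 : chkL rootF engF2 tA tA sA_215 sA_215 4 F_418 [(256, 24, 0)]
    0x40f = true := by
  decide +kernel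

theorem f_418 (h : TabsF) : FrameF repsF 215 F_418.f :=
  frame_of rfl c_418 ((runs_of engOK r_418_0).append (runs_of engOK r_418_1)) (by decide +kernel) h.1 h.1

def F_419 : FrX :=
  ⟨0x482000044040440000c2040020009000182040014820080000800080014010030020410005800200800420800210002080084110080424000802800048,
    0xa0, 1, 0x203042546086a6, 7,
    [(0xa0, 1), (0x538690a2, 4), (0x548790a1, 4), (0x21437690, 4), (0x538690a2, 4), (0x548790a1, 4)],
    [(0x203042546086a6, 7), (0x206498a3, 4), (0x50617398, 4), (0x415298a7, 4), (0x206498a3, 4), (0x50617398, 4)]⟩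

def c_419 : frmChk tA tA F_419 = true := by decide +kernel

def r_419_0 : chkL rootF engF2 tA tA sA_215 sA_215 4 F_419 [(255, 0, 0), (256, 0, 24)]
    0x1917443441e05c3c = true := by
  decide +kernel

def r_419_1 : chkL rootF engF2 tA tA sA_215 sA_215 4 F_419 [(256, 24, 0)]
    0x40f0781e = true := by
  decide +kernel

theorem f_419 (h : TabsF) : FrameF repsF 215 F_419.f :=
  frame_of rfl c_419 ((runs_of engOK r_419_0).append (runs_of engOK r_419_1)) (by decide +kernel) h.1 h.1

theorem cl_215 (h : TabsF) : ∀ f ∈ fr_215, FrameF repsF 215 f :=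
  List.forall_mem_cons.2 ⟨f_392 h, List.forall_mem_cons.2 ⟨f_393 h, List.forall_mem_cons.2 ⟨f_394 h, List.forall_mem_cons.2 ⟨f_395 h, List.forall_mem_cons.2 ⟨f_396 h, List.forall_mem_cons.2 ⟨f_397 h, List.forall_mem_cons.2 ⟨f_398 h, List.forall_mem_cons.2 ⟨f_399 h, List.forall_mem_cons.2 ⟨f_400 h, List.forall_mem_cons.2 ⟨f_401 h, List.forall_mem_cons.2 ⟨f_402 h, List.forall_mem_cons.2 ⟨f_403 h, List.forall_mem_cons.2 ⟨f_404 h, List.forall_mem_cons.2 ⟨f_405 h, List.forall_mem_cons.2 ⟨f_406 h, List.forall_mem_cons.2 ⟨f_407 h, List.forall_mem_cons.2 ⟨f_408 h, List.forall_mem_cons.2 ⟨f_409 h, List.forall_mem_cons.2 ⟨f_410 h, List.forall_mem_cons.2 ⟨f_411 h, List.forall_mem_cons.2 ⟨f_412 h, List.forall_mem_cons.2 ⟨f_413 h, List.forall_mem_cons.2 ⟨f_414 h, List.forall_mem_cons.2 ⟨f_415 h, List.forall_mem_cons.2 ⟨f_416 h, List.forall_mem_cons.2 ⟨f_417 h, List.forall_mem_cons.2 ⟨f_418 h, List.forall_mem_cons.2 ⟨f_419 h,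
    fun _ h0 => absurd h0 List.not_mem_nil⟩⟩⟩⟩⟩⟩⟩⟩⟩⟩⟩⟩⟩⟩⟩⟩⟩⟩⟩⟩⟩⟩⟩⟩⟩⟩⟩⟩

/-- the classes finished in this module -/
theorem all_L06 (h : TabsF) : ∀ p ∈ ([(212, fr_212), (213, fr_213), (214, fr_214), (215, fr_215)] : List (ℕ × List ℕ)),
    ∀ f ∈ p.2, FrameF repsF p.1 f :=
  List.forall_mem_cons.2 ⟨cl_212 h, List.forall_mem_cons.2 ⟨cl_213 h, List.forall_mem_cons.2 ⟨cl_214 h, List.forall_mem_cons.2 ⟨cl_215 h, fun _ h0 => absurd h0 List.not_mem_nil⟩⟩⟩⟩

end Pool.Agent.Gen.TY.F
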