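import Pool.Agent.Helper20.TY.EngF
import Pool.Agent.Helper20.TY.TabG
import Pool.Agent.Gen.TY.FS.SufA
import Pool.Agent.Gen.TY.FS.SufB
import Pool.Agent.Gen.TY.FR.Dat

/-!
MP_8ee768_co, project TH-Y', stage F: frames.
-/

set_option autoImplicit false

namespace Pool.Agent.Gen.TY.F

open Pool.Agent.Helper79.CV
open Pool.Agent.Helper20.TY
open Pool.Agent.Helper20.TY.EngF
open Pool.Agent.Gen.TY.FS
open Pool.Agent.Gen.TY.FR

def F_420 : FrX :=
  ⟨0x80080a000804040e0000210100200100000204088101020802001002280200001012041002004100004800101b000058024002000480091004080820000,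
    0xa6, 1, 0x31508297a6, 5,
    [(0xa6, 1), (0x205396a8, 4), (0x10548796, 4), (0x214396a7, 4), (0x205396a8, 4), (0x10548796, 4)],
    [(0x31508297a6, 5), (0x107685a2, 4), (0x40537692, 4), (0x417683a9, 4), (0x107685a2, 4), (0x40537692, 4)]⟩

def c_420 : frmChk tA tA F_420 = true := by decide +kernel

def r_420_0 : chkL rootF engF2 tA tA sA_216 sA_216 4 F_420 [(255, 0, 0), (256, 0, 17)]
    0x45c1701d1381e = true := by
  decide +kernel

def r_420_1 : chkL rootF engF2 tA tA sA_216 sA_216 4 F_420 [(256, 17, 16)]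
    0x46c344562340f = true := by
  decide +kernel

def r_420_2 : chkL rootF engF2 tA tA sA_216 sA_216 4 F_420 [(256, 33, 14)]
    0x4740b827 = true := by
  decide +kernel

def r_420_3 : chkL rootF engF2 tA tA sA_216 sA_216 4 F_420 [(256, 47, 0)]
    0x1 = true := by
  decide +kernel

theorem f_420 (h : TabsF) : FrameF repsF 216 F_420.f :=
  frame_of rfl c_420 ((runs_of engOK r_420_0).append ((runs_of engOK r_420_1).append ((runs_of engOK r_420_2).append (runs_of engOK r_420_3)))) (by decide +kernel) h.1 h.1

def F_421 : FrX :=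
  ⟨0x80080a000804040e000021010020010000020408a00008014000248008830020000800540800050001880008280020081000010110001042802804c0000,
    0xa6, 1, 0x2150648397a6, 6,
    [(0xa6, 1), (0x205396a8, 4), (0x10548796, 4), (0x214396a7, 4), (0x205396a8, 4), (0x10548796, 4)],
    [(0x2150648397a6, 6), (0x517480a3, 4), (0x52607493, 4), (0x217486a9, 4), (0x517480a3, 4), (0x52607493, 4)]⟩

def c_421 : frmChk tA tA F_421 = true := by decide +kernel

def r_421_0 : chkL rootF engF2 tA tA sA_216 sA_216 4 F_421 [(255, 0, 0), (256, 0, 16)]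
    0x10f03c1a6a80ba319c2511c6310e44d06c3a350d1e043c = true := by
  decide +kernel

def r_421_1 : chkL rootF engF2 tA tA sA_216 sA_216 4 F_421 [(256, 16, 17)]
    0x10d83a384c91c4a93846a06c2d = true := by
  decide +kernel

def r_421_2 : chkL rootF engF2 tA tA sA_216 sA_216 4 F_421 [(256, 33, 0)]
    0x1154390ac3a = true := by
  decide +kernel

theorem f_421 (h : TabsF) : FrameF repsF 216 F_421.f :=
  frame_of rfl c_421 ((runs_of engOK r_421_0).append ((runs_of engOK r_421_1).append (runs_of engOK r_421_2))) (by decide +kernel) h.1 h.1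

def F_422 : FrX :=
  ⟨0x2002000900044004000e0204100014100080004082000848400020200882100100000223000008400408018082000000a04022001020c00020202000d004,
    0xa3, 1, 0x103242507280a2, 7,
    [(0xa3, 1), (0x208693a5, 4), (0x10548793, 4), (0x217693a4, 4), (0x208693a5, 4), (0x10548793, 4)],
    [(0x103242507280a2, 7), (0x216597a8, 4), (0x31548097, 4), (0x326497a0, 4), (0x216597a8, 4), (0x31548097, 4)]⟩

def c_422 : frmChk tA tA F_422 = true := by decide +kernel

def r_422_0 : chkL rootF engF2 tA tA sA_216 sA_216 4 F_422 [(255, 0, 0), (256, 0, 16)]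
    0x11e00f1343a170361949531499c151a661c11c8b1157824c5b050dc1648330ea831c8e29184e = true := by
  decide +kernel

def r_422_1 : chkL rootF engF2 tA tA sA_216 sA_216 4 F_422 [(256, 16, 16)]
    0x144c179182b0744e = true := by
  decide +kernel

def r_422_2 : chkL rootF engF2 tA tA sA_216 sA_216 4 F_422 [(256, 32, 0)]
    0x1264d80742d0cc3303c4b07aa4a888b467182942e0ccc5b100f03c660ce46 = true := by
  decide +kernel

theorem f_422 (h : TabsF) : FrameF repsF 216 F_422.f :=
  frame_of rfl c_422 ((runs_of engOK r_422_0).append ((runs_of engOK r_422_1).append (runs_of engOK r_422_2))) (by decide +kernel) h.1 h.1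

def F_423 : FrX :=
  ⟨0x2002000900044004000e020410001410008000408008020850080240008080820000041100800202040400210110080181000010805080140010040c1000,
    0xa3, 1, 0x20436185a3, 5,
    [(0xa3, 1), (0x208693a5, 4), (0x10548793, 4), (0x217693a4, 4), (0x208693a5, 4), (0x10548793, 4)],
    [(0x20436185a3, 5), (0x205194a8, 4), (0x62758394, 4), (0x607194a3, 4), (0x205194a8, 4), (0x62758394, 4)]⟩

def c_423 : frmChk tA tA F_423 = true := by decide +kernel

def r_423_0 : chkL rootF engF2 tA tA sA_216 sA_216 4 F_423 [(255, 0, 0), (256, 0, 25)]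
    0x106c2b0ac2b0cc473187424c1e2a4ca03c0f = true := by
  decide +kernel

def r_423_1 : chkL rootF engF2 tA tA sA_216 sA_216 4 F_423 [(256, 25, 0)]
    0x41b0ac2b078b40cc1711c2711c0f0ac27 = true := by
  decide +kernel

theorem f_423 (h : TabsF) : FrameF repsF 216 F_423.f :=
  frame_of rfl c_423 ((runs_of engOK r_423_0).append (runs_of engOK r_423_1)) (by decide +kernel) h.1 h.1

def F_424 : FrX :=
  ⟨0x482000044040440000c2040020009000182040020002020800408208024020030400000101010280040009902001109140000080908000004002800082,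
    0xa0, 1, 0x3150627498a0, 6,
    [(0xa0, 1), (0x538690a2, 4), (0x548790a1, 4), (0x21437690, 4), (0x538690a2, 4), (0x548790a1, 4)],
    [(0x3150627498a0, 6), (0x108592a6, 4), (0x708594a3, 4), (0x42637185, 4), (0x108592a6, 4), (0x708594a3, 4)]⟩

def c_424 : frmChk tA tA F_424 = true := by decide +kernel

def r_424_0 : chkL rootF engF2 tA tA sA_216 sA_216 4 F_424 [(255, 0, 0), (256, 0, 23)]
    0x40f42d2a1b0691a49c1941d0741d1c88b1c88d09e312d2b0 = true := by
  decide +kernel

def r_424_1 : chkL rootF engF2 tA tA sA_216 sA_216 4 F_424 [(256, 23, 0)]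
    0x40f234558c4b4ac04725433074e2b0ae01341e388e2b0ae01946581e0b0d82709cd2 = true := by
  decide +kernel

theorem f_424 (h : TabsF) : FrameF repsF 216 F_424.f :=
  frame_of rfl c_424 ((runs_of engOK r_424_0).append (runs_of engOK r_424_1)) (by decide +kernel) h.1 h.1

def F_425 : FrX :=
  ⟨0x482000044040440000c2040020009000182040000408882008100010010410004022020004043000082020408000400218808008000920040040200045,
    0xa0, 1, 0x5463718290a0, 6,
    [(0xa0, 1), (0x538690a2, 4), (0x548790a1, 4), (0x21437690, 4), (0x538690a2, 4), (0x548790a1, 4)],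
    [(0x5463718290a0, 6), (0x326490a8, 4), (0x215490a7, 4), (0x31658790, 4), (0x326490a8, 4), (0x215490a7, 4)]⟩

def c_425 : frmChk tA tA F_425 = true := by decide +kernel

def r_425_0 : chkL rootF engF2 tA tA sA_216 sA_216 4 F_425 [(255, 0, 0), (256, 0, 17)]
    0x45582e0bb06c10745a710c6 = true := by
  decide +kernel

def r_425_1 : chkL rootF engF2 tA tA sA_216 sA_216 4 F_425 [(256, 17, 17)]
    0x10b859076851346a82c1d1341d41c6a = true := by
  decide +kernel

def r_425_2 : chkL rootF engF2 tA tA sA_216 sA_216 4 F_425 [(256, 34, 0)]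
    0x49a22c1d13ac20790e629528556221c871382e = true := by
  decide +kernel

theorem f_425 (h : TabsF) : FrameF repsF 216 F_425.f :=
  frame_of rfl c_425 ((runs_of engOK r_425_0).append ((runs_of engOK r_425_1).append (runs_of engOK r_425_2))) (by decide +kernel) h.1 h.1

theorem cl_216 (h : TabsF) : ∀ f ∈ fr_216, FrameF repsF 216 f :=
  List.forall_mem_cons.2 ⟨f_420 h, List.forall_mem_cons.2 ⟨f_421 h, List.forall_mem_cons.2 ⟨f_422 h, List.forall_mem_cons.2 ⟨f_423 h, List.forall_mem_cons.2 ⟨f_424 h, List.forall_mem_cons.2 ⟨f_425 h,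
    fun _ h0 => absurd h0 List.not_mem_nil⟩⟩⟩⟩⟩⟩

def F_426 : FrX :=
  ⟨0x80080a000804040e00002101002001000002040882080800060010008a20001000103000c00010440200801010500109004042040002008100914040000,
    0xa6, 1, 0x324063748094a3, 7,
    [(0xa6, 1), (0x205396a8, 4), (0x10548796, 4), (0x214396a7, 4), (0x205396a8, 4), (0x10548796, 4)],
    [(0x324063748094a3, 7), (0x427683a5, 4), (0x40768195, 4), (0x203176a9, 4), (0x427683a5, 4), (0x40768195, 4)]⟩

def c_426 : frmChk tA tA F_426 = true := by decide +kernel

def r_426_0 : chkL rootF engF2 tA tA sA_217 sA_217 4 F_426 [(255, 0, 0), (256, 0, 25)]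
    0x44d11e0705d831b027 = true := by
  decide +kernel

def r_426_1 : chkL rootF engF2 tA tA sA_217 sA_217 4 F_426 [(256, 25, 0)]
    0x46a2342711c4d2721c = true := by
  decide +kernel

theorem f_426 (h : TabsF) : FrameF repsF 217 F_426.f :=
  frame_of rfl c_426 ((runs_of engOK r_426_0).append (runs_of engOK r_426_1)) (by decide +kernel) h.1 h.1

def F_427 : FrX :=
  ⟨0x2002000900044004000e02041000141000800040810110008080804200802002100080200808011000400085010408108100080080880808040810202080,
    0xa3, 1, 0x3250637287a2, 6,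
    [(0xa3, 1), (0x208693a5, 4), (0x10548793, 4), (0x217693a4, 4), (0x208693a5, 4), (0x10548793, 4)],
    [(0x3250637287a2, 6), (0x326097a5, 4), (0x40518397, 4), (0x648297a1, 4), (0x326097a5, 4), (0x40518397, 4)]⟩

def c_427 : frmChk tA tA F_427 = true := by decide +kernel

def r_427_0 : chkL rootF engF2 tA tA sA_217 sA_217 4 F_427 [(255, 0, 0), (256, 0, 16)]
    0x46c2398a2a5a81c41e = true := by
  decide +kernel

def r_427_1 : chkL rootF engF2 tA tA sA_217 sA_217 4 F_427 [(256, 16, 17)]
    0x13158388c0f24e0730cc51e0c303c0f30c353188d18c0f30c636242b = true := by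
  decide +kernel

def r_427_2 : chkL rootF engF2 tA tA sA_217 sA_217 4 F_427 [(256, 33, 0)]
    0x42b38a431a9138a7035270348f210d58cc0c8db20938948d234c503cd2 = true := by
  decide +kernel

theorem f_427 (h : TabsF) : FrameF repsF 217 F_427.f :=
  frame_of rfl c_427 ((runs_of engOK r_427_0).append ((runs_of engOK r_427_1).append (runs_of engOK r_427_2))) (by decide +kernel) h.1 h.1

def F_428 : FrX :=
  ⟨0x80080a000804040e0000210100200100000204088108100006000442004008200840401004090020005000012111100204000a0004010202400110c0000,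
    0xa6, 1, 0x1021314250758191a3, 9,
    [(0xa6, 1), (0x205396a8, 4), (0x10548796, 4), (0x214396a7, 4), (0x205396a8, 4), (0x10548796, 4)],
    [(0x1021314250758191a3, 9), (0x546382a7, 4), (0x31708295, 4), (0x618294a0, 4), (0x546382a7, 4), (0x31708295, 4)]⟩

def c_428 : frmChk tA tA F_428 = true := by decide +kernel

def r_428_0 : chkL rootF engF2 tA tA sA_217 sA_217 4 F_428 [(255, 0, 0), (256, 0, 17)]
    0x46a1a85912c592358c = true := by
  decide +kernel

def r_428_1 : chkL rootF engF2 tA tA sA_217 sA_217 4 F_428 [(256, 17, 14)]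
    0x111c0f11c471546a1a85912c59 = true := by
  decide +kernel

def r_428_2 : chkL rootF engF2 tA tA sA_217 sA_217 4 F_428 [(256, 31, 0)]
    0x40f03c0f = true := by
  decide +kernel

theorem f_428 (h : TabsF) : FrameF repsF 217 F_428.f :=
  frame_of rfl c_428 ((runs_of engOK r_428_0).append ((runs_of engOK r_428_1).append (runs_of engOK r_428_2))) (by decide +kernel) h.1 h.1

def F_429 : FrX :=
  ⟨0x2002000900044004000e02041000141000800040804001020081024002000c0020008821008014100024000602100804104400a0004002202000a0020004,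
    0xa3, 1, 0x10425164718396a8, 8,
    [(0xa3, 1), (0x208693a5, 4), (0x10548793, 4), (0x217693a4, 4), (0x208693a5, 4), (0x10548793, 4)],
    [(0x10425164718396a8, 8), (0x324180a9, 4), (0x326071a5, 4), (0x32748695, 4), (0x324180a9, 4), (0x326071a5, 4)]⟩

def c_429 : frmChk tA tA F_429 = true := by decide +kernel

def r_429_0 : chkL rootF engF2 tA tA sA_217 sA_217 4 F_429 [(255, 0, 0), (256, 0, 25)]
    0x105e946318c2388d6298c11c9c6508e6308b = true := by
  decide +kernel

def r_429_1 : chkL rootF engF2 tA tA sA_217 sA_217 4 F_429 [(256, 25, 0)]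
    0x103c8b1642d05c0f11d83e404e2388e6198ab4095a16946198a6451c0d69421d85 = true := by
  decide +kernel

theorem f_429 (h : TabsF) : FrameF repsF 217 F_429.f :=
  frame_of rfl c_429 ((runs_of engOK r_429_0).append (runs_of engOK r_429_1)) (by decide +kernel) h.1 h.1

def F_430 : FrX :=
  ⟨0x482000044040440000c204002000900018204001001010080800003004004480401042010200802080020808500010221400a020200600100020000401,
    0xa0, 1, 0x103242516095a6, 7,
    [(0xa0, 1), (0x538690a2, 4), (0x548790a1, 4), (0x21437690, 4), (0x538690a2, 4), (0x548790a1, 4)],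
    [(0x103242516095a6, 7), (0x106492a8, 4), (0x10658793, 4), (0x103254a7, 4), (0x106492a8, 4), (0x10658793, 4)]⟩

def c_430 : frmChk tA tA F_430 = true := by decide +kernel

def r_430_0 : chkL rootF engF2 tA tA sA_217 sA_217 4 F_430 [(255, 0, 0), (256, 0, 19)]
    0x44b12c1b = true := by
  decide +kernel

def r_430_1 : chkL rootF engF2 tA tA sA_217 sA_217 4 F_430 [(256, 19, 17)]
    0x10741d12c4b = true := by
  decide +kernel

def r_430_2 : chkL rootF engF2 tA tA sA_217 sA_217 4 F_430 [(256, 36, 0)]
    0x10b4170ac2d4342e0b87105ce1 = true := by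
  decide +kernel

theorem f_430 (h : TabsF) : FrameF repsF 217 F_430.f :=
  frame_of rfl c_430 ((runs_of engOK r_430_0).append ((runs_of engOK r_430_1).append (runs_of engOK r_430_2))) (by decide +kernel) h.1 h.1

def F_431 : FrX :=
  ⟨0x482000044040440000c2040020009000182040000420228001200080080108010020410100010200814000081201040010091004048804000800810208,
    0xa0, 1, 0x1032607382a1, 6,
    [(0xa0, 1), (0x538690a2, 4), (0x548790a1, 4), (0x21437690, 4), (0x538690a2, 4), (0x548790a1, 4)],
    [(0x1032607382a1, 6), (0x31758690, 4), (0x325490a6, 4), (0x217490a8, 4), (0x31758690, 4), (0x325490a6, 4)]⟩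

def c_431 : frmChk tA tA F_431 = true := by decide +kernel

def r_431_0 : chkL rootF engF2 tA tA sA_217 sA_217 4 F_431 [(255, 0, 0), (256, 0, 17)]
    0x41e1596206c171a962 = true := by
  decide +kernel

def r_431_1 : chkL rootF engF2 tA tA sA_217 sA_217 4 F_431 [(256, 17, 17)]
    0x417 = true := by
  decide +kernel

def r_431_2 : chkL rootF engF2 tA tA sA_217 sA_217 4 F_431 [(256, 34, 13)]
    0x10780f0d43503c5907869 = true := by
  decide +kernel

def r_431_3 : chkL rootF engF2 tA tA sA_217 sA_217 4 F_431 [(256, 47, 0)]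
    0x1 = true := by
  decide +kernel

theorem f_431 (h : TabsF) : FrameF repsF 217 F_431.f :=
  frame_of rfl c_431 ((runs_of engOK r_431_0).append ((runs_of engOK r_431_1).append ((runs_of engOK r_431_2).append (runs_of engOK r_431_3)))) (by decide +kernel) h.1 h.1

def F_432 : FrX :=
  ⟨0x482000044040440000c2040020009000182040020000488800100208080184100010000082021320000040401020040201010802001002010111008084,
    0xa0, 1, 0x204152647586a3, 7,
    [(0xa0, 1), (0x538690a2, 4), (0x548790a1, 4), (0x21437690, 4), (0x538690a2, 4), (0x548790a1, 4)],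
    [(0x204152647586a3, 7), (0x528193a7, 4), (0x10427693, 4), (0x548093a6, 4), (0x528193a7, 4), (0x10427693, 4)]⟩

def c_432 : frmChk tA tA F_432 = true := by decide +kernel

def r_432_0 : chkL rootF engF2 tA tA sA_217 sA_217 4 F_432 [(255, 0, 0), (256, 0, 16)]
    0x114c530e84b05c2b14c1b41d07 = true := by
  decide +kernel

def r_432_1 : chkL rootF engF2 tA tA sA_217 sA_217 4 F_432 [(256, 16, 16)]
    0x103c0f38523584170ac53 = true := by
  decide +kernel

def r_432_2 : chkL rootF engF2 tA tA sA_217 sA_217 4 F_432 [(256, 32, 0)]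
    0x10742b = true := by
  decide +kernel

theorem f_432 (h : TabsF) : FrameF repsF 217 F_432.f :=
  frame_of rfl c_432 ((runs_of engOK r_432_0).append ((runs_of engOK r_432_1).append (runs_of engOK r_432_2))) (by decide +kernel) h.1 h.1

def F_433 : FrX :=
  ⟨0x482000044040440000c20400200090001820400200020208004082080240200304000001a401020a000000902010101000004080900108004202800082,
    0xa0, 1, 0x3150627498a0, 6,
    [(0xa0, 1), (0x538690a2, 4), (0x548790a1, 4), (0x21437690, 4), (0x538690a2, 4), (0x548790a1, 4)],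
    [(0x3150627498a0, 6), (0x108592a6, 4), (0x708594a3, 4), (0x42637185, 4), (0x108592a6, 4), (0x708594a3, 4)]⟩

def c_433 : frmChk tA tA F_433 = true := by decide +kernel

def r_433_0 : chkL rootF engF2 tA tA sA_217 sA_217 4 F_433 [(255, 0, 0), (256, 0, 23)]
    0x41e074e40d433154a32a42e0cc1b1541d = true := by
  decide +kernel

def r_433_1 : chkL rootF engF2 tA tA sA_217 sA_217 4 F_433 [(256, 23, 0)]
    0x4350741e078c3194470cc330cc1d19427 = true := by
  decide +kernel

theorem f_433 (h : TabsF) : FrameF repsF 217 F_433.f :=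
  frame_of rfl c_433 ((runs_of engOK r_433_0).append (runs_of engOK r_433_1)) (by decide +kernel) h.1 h.1

theorem cl_217 (h : TabsF) : ∀ f ∈ fr_217, FrameF repsF 217 f :=
  List.forall_mem_cons.2 ⟨f_426 h, List.forall_mem_cons.2 ⟨f_427 h, List.forall_mem_cons.2 ⟨f_428 h, List.forall_mem_cons.2 ⟨f_429 h, List.forall_mem_cons.2 ⟨f_430 h, List.forall_mem_cons.2 ⟨f_431 h, List.forall_mem_cons.2 ⟨f_432 h, List.forall_mem_cons.2 ⟨f_433 h,
    fun _ h0 => absurd h0 List.not_mem_nil⟩⟩⟩⟩⟩⟩⟩⟩

def F_434 : FrX :=
  ⟨0x482000044040440000c2040020009000182040020000422800200030024028008400000021030410800801100002408040408080600400014002200084,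
    0xa0, 1, 0x32405261738396a6, 8,
    [(0xa0, 1), (0x538690a2, 4), (0x548790a1, 4), (0x21437690, 4), (0x538690a2, 4), (0x548790a1, 4)],
    [(0x32405261738396a6, 8), (0x548391a7, 4), (0x30647291, 4), (0x658091a2, 4), (0x548391a7, 4), (0x30647291, 4)]⟩

def c_434 : frmChk tA tA F_434 = true := by decide +kernel

def r_434_0 : chkL rootF engF2 tA tA sA_218 sA_218 4 F_434 [(255, 0, 0), (256, 0, 21)]
    0x41e07a23168351685a2d0960b81e078c60f0960d85a0d45a1681d074653842b = true := by
  decide +kernel

def r_434_1 : chkL rootF engF2 tA tA sA_218 sA_218 4 F_434 [(256, 21, 0)]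
    0x41e4e23149b300d82b05c3c03c1712c5a09c5a1683a = true := by
  decide +kernel

theorem f_434 (h : TabsF) : FrameF repsF 218 F_434.f :=
  frame_of rfl c_434 ((runs_of engOK r_434_0).append (runs_of engOK r_434_1)) (by decide +kernel) h.1 h.1

def F_435 : FrX :=
  ⟨0x80080a000804040e000021010020010000020408820810004820300002400040000130206001100200200008880001210001020404101080042240a0000,
    0xa6, 1, 0x2042627580a3, 6,
    [(0xa6, 1), (0x205396a8, 4), (0x10548796, 4), (0x214396a7, 4), (0x205396a8, 4), (0x10548796, 4)],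
    [(0x2042627580a3, 6), (0x428693a7, 4), (0x52708193, 4), (0x546193a0, 4), (0x428693a7, 4), (0x52708193, 4)]⟩

def c_435 : frmChk tA tA F_435 = true := by decide +kernel

def r_435_0 : chkL rootF engF2 tA tA sA_218 sA_218 4 F_435 [(255, 0, 0), (256, 0, 24)]
    0x10f10d434564704e0ac3a1542e1b0470b893 = true := by
  decide +kernel

def r_435_1 : chkL rootF engF2 tA tA sA_218 sA_218 4 F_435 [(256, 24, 0)]
    0x41e11d8a1543c1e0470f036 = true := by
  decide +kernel

theorem f_435 (h : TabsF) : FrameF repsF 218 F_435.f :=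
  frame_of rfl c_435 ((runs_of engOK r_435_0).append (runs_of engOK r_435_1)) (by decide +kernel) h.1 h.1

def F_436 : FrX :=
  ⟨0x482000044040440000c20400200090001820400100200280080000840400c4220400000808010208800421001204202018008008200400300020008084,
    0xa0, 1, 0x43748392a4, 5,
    [(0xa0, 1), (0x538690a2, 4), (0x548790a1, 4), (0x21437690, 4), (0x538690a2, 4), (0x548790a1, 4)],
    [(0x43748392a4, 5), (0x64728590, 4), (0x104372a5, 4), (0x637291a8, 4), (0x64728590, 4), (0x104372a5, 4)]⟩

def c_436 : frmChk tA tA F_436 = true := by decide +kernel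

def r_436_0 : chkL rootF engF2 tA tA sA_218 sA_218 4 F_436 [(255, 0, 0), (256, 0, 23)]
    0x103c170783542d2a30c330d417854cae2183e0893 = true := by
  decide +kernel

def r_436_1 : chkL rootF engF2 tA tA sA_218 sA_218 4 F_436 [(256, 23, 0)]
    0x41705c35 = true := by
  decide +kernel

theorem f_436 (h : TabsF) : FrameF repsF 218 F_436.f :=
  frame_of rfl c_436 ((runs_of engOK r_436_0).append (runs_of engOK r_436_1)) (by decide +kernel) h.1 h.1

def F_437 : FrX :=
  ⟨0x2002000900044004000e02041000141000800040810001414000804202004080100100104008911020020008800004120100200002400808002042204084,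
    0xa3, 1, 0x1020316380a3, 6,
    [(0xa3, 1), (0x208693a5, 4), (0x10548793, 4), (0x217693a4, 4), (0x208693a5, 4), (0x10548793, 4)],
    [(0x1020316380a3, 6), (0x208196a5, 4), (0x54728396, 4), (0x317096a4, 4), (0x208196a5, 4), (0x54728396, 4)]⟩

def c_437 : frmChk tA tA F_437 = true := by decide +kernel

def r_437_0 : chkL rootF engF2 tA tA sA_218 sA_218 4 F_437 [(255, 0, 0), (256, 0, 24)]
    0x53403c0f42c47 = true := by
  decide +kernel

def r_437_1 : chkL rootF engF2 tA tA sA_218 sA_218 4 F_437 [(256, 24, 0)]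
    0x103c1d469134704709c2e11d0b03c53 = true := by
  decide +kernel

theorem f_437 (h : TabsF) : FrameF repsF 218 F_437.f :=
  frame_of rfl c_437 ((runs_of engOK r_437_0).append (runs_of engOK r_437_1)) (by decide +kernel) h.1 h.1

def F_438 : FrX :=
  ⟨0x80080a000804040e00002101002001000002040890020008041004140880002008081000d000110100000011105104000003080804080804440c0800000,
    0xa6, 1, 0x20324065718097a0, 8,
    [(0xa6, 1), (0x205396a8, 4), (0x10548796, 4), (0x214396a7, 4), (0x205396a8, 4), (0x10548796, 4)],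
    [(0x20324065718097a0, 8), (0x546081a3, 4), (0x628194a7, 4), (0x20738195, 4), (0x546081a3, 4), (0x628194a7, 4)]⟩

def c_438 : frmChk tA tA F_438 = true := by decide +kernel

def r_438_0 : chkL rootF engF2 tA tA sA_218 sA_218 4 F_438 [(255, 0, 0), (256, 0, 19)]
    0x10781e0782b14c8b11c2b14c8b06c1b = true := by
  decide +kernel

def r_438_1 : chkL rootF engF2 tA tA sA_218 sA_218 4 F_438 [(256, 19, 0)]
    0x10ac1b170170783a = true := by
  decide +kernel

theorem f_438 (h : TabsF) : FrameF repsF 218 F_438.f :=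
  frame_of rfl c_438 ((runs_of engOK r_438_0).append (runs_of engOK r_438_1)) (by decide +kernel) h.1 h.1

def F_439 : FrX :=
  ⟨0x2002000900044004000e02041000141000800040800401021090200010202101000204001088000880040804021001040080011005082000204101019000,
    0xa3, 1, 0x304150637580a6, 7,
    [(0xa3, 1), (0x208693a5, 4), (0x10548793, 4), (0x217693a4, 4), (0x208693a5, 4), (0x10548793, 4)],
    [(0x304150637580a6, 7), (0x768290a5, 4), (0x53718490, 4), (0x426190a3, 4), (0x768290a5, 4), (0x53718490, 4)]⟩

def c_439 : frmChk tA tA F_439 = true := by decide +kernel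

def r_439_0 : chkL rootF engF2 tA tA sA_218 sA_218 4 F_439 [(255, 0, 0), (256, 0, 12)]
    0x6c40cc0f1e017 = true := by
  decide +kernel

def r_439_1 : chkL rootF engF2 tA tA sA_218 sA_218 4 F_439 [(256, 12, 18)]
    0x10d41e0780f18c0f19436 = true := by
  decide +kernel

def r_439_2 : chkL rootF engF2 tA tA sA_218 sA_218 4 F_439 [(256, 30, 0)]
    0x42d05e070781e06c5507833 = true := by
  decide +kernel

theorem f_439 (h : TabsF) : FrameF repsF 218 F_439.f :=
  frame_of rfl c_439 ((runs_of engOK r_439_0).append ((runs_of engOK r_439_1).append (runs_of engOK r_439_2))) (by decide +kernel) h.1 h.1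

def F_440 : FrX :=
  ⟨0x2002000900044004000e02041000141000800040802002020090040420800881000204000908010414000005010402040041008002600000501020221000,
    0xa3, 1, 0x213142758291a2, 7,
    [(0xa3, 1), (0x208693a5, 4), (0x10548793, 4), (0x217693a4, 4), (0x208693a5, 4), (0x10548793, 4)],
    [(0x213142758291a2, 7), (0x647283a0, 4), (0x54718390, 4), (0x216583a9, 4), (0x647283a0, 4), (0x54718390, 4)]⟩

def c_440 : frmChk tA tA F_440 = true := by decide +kernel

def r_440_0 : chkL rootF engF2 tA tA sA_218 sA_218 4 F_440 [(255, 0, 0), (256, 0, 22)]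
    0x41b06c1b2640f12c3312c1e05c170b68c06c1b = true := by
  decide +kernel

def r_440_1 : chkL rootF engF2 tA tA sA_218 sA_218 4 F_440 [(256, 22, 22)]
    0x15484e23a8c07919464270cc3607711 = true := by
  decide +kernel

def r_440_2 : chkL rootF engF2 tA tA sA_218 sA_218 4 F_440 [(256, 44, 0)]
    0x1 = true := by
  decide +kernel

theorem f_440 (h : TabsF) : FrameF repsF 218 F_440.f :=
  frame_of rfl c_440 ((runs_of engOK r_440_0).append ((runs_of engOK r_440_1).append (runs_of engOK r_440_2))) (by decide +kernel) h.1 h.1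

def F_441 : FrX :=
  ⟨0x80080a000804040e00002101002001000002040882010204010080100802002001084048204006000040022c00201002020020011200204240025080000,
    0xa6, 1, 0x30415160708392a5, 8,
    [(0xa6, 1), (0x205396a8, 4), (0x10548796, 4), (0x214396a7, 4), (0x205396a8, 4), (0x10548796, 4)],
    [(0x30415160708392a5, 8), (0x304297a8, 4), (0x426075a1, 4), (0x42638195, 4), (0x304297a8, 4), (0x426075a1, 4)]⟩

def c_441 : frmChk tA tA F_441 = true := by decide +kernel

def r_441_0 : chkL rootF engF2 tA tA sA_218 sA_218 4 F_441 [(255, 0, 0), (256, 0, 23)]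
    0x44e1c9524681706c171a4e116839390b22a44b1344d12c591643606c720d9325c0661981e12c47 = true := by
  decide +kernel

def r_441_1 : chkL rootF engF2 tA tA sA_218 sA_218 4 F_441 [(256, 23, 0)]
    0x11b0563148e9c063648563504711f1154a31cc12a = true := by
  decide +kernel

theorem f_441 (h : TabsF) : FrameF repsF 218 F_441.f :=
  frame_of rfl c_441 ((runs_of engOK r_441_0).append (runs_of engOK r_441_1)) (by decide +kernel) h.1 h.1

def F_442 : FrX :=
  ⟨0x80080a000804040e0000210100200100000204088104200004840002022000080850101004002080088200202c00100200400a0204080402022100c0000,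
    0xa6, 1, 0x324053617490a1, 7,
    [(0xa6, 1), (0x205396a8, 4), (0x10548796, 4), (0x214396a7, 4), (0x205396a8, 4), (0x10548796, 4)],
    [(0x324053617490a1, 7), (0x52648193, 4), (0x647280a9, 4), (0x106475a3, 4), (0x52648193, 4), (0x647280a9, 4)]⟩

def c_442 : frmChk tA tA F_442 = true := by decide +kernel

def r_442_0 : chkL rootF engF2 tA tA sA_218 sA_218 4 F_442 [(255, 0, 0), (256, 0, 23)]
    0x4470b4651e0a91542d = true := by
  decide +kernel

def r_442_1 : chkL rootF engF2 tA tA sA_218 sA_218 4 F_442 [(256, 23, 21)]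
    0x50d47065 = true := by
  decide +kernel

def r_442_2 : chkL rootF engF2 tA tA sA_218 sA_218 4 F_442 [(256, 44, 0)]
    0x40f = true := by
  decide +kernel

theorem f_442 (h : TabsF) : FrameF repsF 218 F_442.f :=
  frame_of rfl c_442 ((runs_of engOK r_442_0).append ((runs_of engOK r_442_1).append (runs_of engOK r_442_2))) (by decide +kernel) h.1 h.1

def F_443 : FrX :=
  ⟨0x482000044040440000c204002000900018204000208044000090081001041000808041008000480018010201c01000201000a0080800c0010020600401,
    0xa0, 1, 0x20324162738090a6, 8,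
    [(0xa0, 1), (0x538690a2, 4), (0x548790a1, 4), (0x21437690, 4), (0x538690a2, 4), (0x548790a1, 4)],
    [(0x20324162738090a6, 8), (0x758396a2, 4), (0x20518394, 4), (0x647183a0, 4), (0x758396a2, 4), (0x20518394, 4)]⟩

def c_443 : frmChk tA tA F_443 = true := by decide +kernel

def r_443_0 : chkL rootF engF2 tA tA sA_218 sA_218 4 F_443 [(255, 0, 0), (256, 0, 20)]
    0x62a09c1705c2b11c1e0781e0784b = true := by
  decide +kernel

def r_443_1 : chkL rootF engF2 tA tA sA_218 sA_218 4 F_443 [(256, 20, 0)]
    0x10e85a074ca06ec206d0b05c17 = true := by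
  decide +kernel

theorem f_443 (h : TabsF) : FrameF repsF 218 F_443.f :=
  frame_of rfl c_443 ((runs_of engOK r_443_0).append (runs_of engOK r_443_1)) (by decide +kernel) h.1 h.1

def F_444 : FrX :=
  ⟨0x482000044040440000c2040020009000182040020000882000200084080182020022000400031010041042200808108000090840080082100400200201,
    0xa0, 1, 0x10204260718497a3, 8,
    [(0xa0, 1), (0x538690a2, 4), (0x548790a1, 4), (0x21437690, 4), (0x538690a2, 4), (0x548790a1, 4)],
    [(0x10204260718497a3, 8), (0x213064a5, 4), (0x30768591, 4), (0x307492a8, 4), (0x213064a5, 4), (0x30768591, 4)]⟩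

def c_444 : frmChk tA tA F_444 = true := by decide +kernel

def r_444_0 : chkL rootF engF2 tA tA sA_218 sA_218 4 F_444 [(255, 0, 0), (256, 0, 21)]
    0x10d42729ba007a162981b05c1706d8905c1788c2706c1d0ac1d = true := by
  decide +kernel

def r_444_1 : chkL rootF engF2 tA tA sA_218 sA_218 4 F_444 [(256, 21, 0)]
    0x1a28350794341f03d08a30b417074170b82709c1705c1d12c1e3281b83827 = true := by
  decide +kernel

theorem f_444 (h : TabsF) : FrameF repsF 218 F_444.f :=
  frame_of rfl c_444 ((runs_of engOK r_444_0).append (runs_of engOK r_444_1)) (by decide +kernel) h.1 h.1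

def F_445 : FrX :=
  ⟨0x482000044040440000c2040020009000182040010008021804000208080084804080001004021020009011004020008004220102000902101100001082,
    0xa0, 1, 0x42637190a0, 5,
    [(0xa0, 1), (0x538690a2, 4), (0x548790a1, 4), (0x21437690, 4), (0x538690a2, 4), (0x548790a1, 4)],
    [(0x42637190a0, 5), (0x658390a4, 4), (0x528190a7, 4), (0x31627490, 4), (0x658390a4, 4), (0x528190a7, 4)]⟩

def c_445 : frmChk tA tA F_445 = true := by decide +kernel

def r_445_0 : chkL rootF engF2 tA tA sA_218 sA_218 4 F_445 [(255, 0, 0), (256, 0, 24)]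
    0x52a0d41e075d0078e299027 = true := by
  decide +kernel

def r_445_1 : chkL rootF engF2 tA tA sA_218 sA_218 4 F_445 [(256, 24, 0)]
    0x43c06c1b06c2706c0f03e2541c0f8c6a18640f = true := by
  decide +kernel

theorem f_445 (h : TabsF) : FrameF repsF 218 F_445.f :=
  frame_of rfl c_445 ((runs_of engOK r_445_0).append (runs_of engOK r_445_1)) (by decide +kernel) h.1 h.1

def F_446 : FrX :=
  ⟨0x2002000900044004000e02041000141000800040810000100301010008820801200108008004804240040420c00020001001801010008040204220008084,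
    0xa3, 1, 0x1031415065738291a0, 9,
    [(0xa3, 1), (0x208693a5, 4), (0x10548793, 4), (0x217693a4, 4), (0x208693a5, 4), (0x10548793, 4)],
    [(0x1031415065738291a0, 9), (0x215476a8, 4), (0x205463a9, 4), (0x10547398, 4), (0x215476a8, 4), (0x205463a9, 4)]⟩

def c_446 : frmChk tA tA F_446 = true := by decide +kernel

def r_446_0 : chkL rootF engF2 tA tA sA_218 sA_218 4 F_446 [(255, 0, 0), (256, 0, 24)]
    0x4332a86629466390330cc170cc3905c2b0cc39 = true := by
  decide +kernel

def r_446_1 : chkL rootF engF2 tA tA sA_218 sA_218 4 F_446 [(256, 24, 0)]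
    0x40f0cd320ac2b15455074992a417 = true := by
  decide +kernel

theorem f_446 (h : TabsF) : FrameF repsF 218 F_446.f :=
  frame_of rfl c_446 ((runs_of engOK r_446_0).append (runs_of engOK r_446_1)) (by decide +kernel) h.1 h.1

def F_447 : FrX :=
  ⟨0x482000044040440000c2040020009000182040020000882000200084014044030400000101010122080200802202408020090040201000001023000082,
    0xa0, 1, 0x102051607590a6, 7,
    [(0xa0, 1), (0x538690a2, 4), (0x548790a1, 4), (0x21437690, 4), (0x538690a2, 4), (0x548790a1, 4)],
    [(0x102051607590a6, 7), (0x627391a8, 4), (0x62748095, 4), (0x435162a0, 4), (0x627391a8, 4), (0x62748095, 4)]⟩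

def c_447 : frmChk tA tA F_447 = true := by decide +kernel

def r_447_0 : chkL rootF engF2 tA tA sA_218 sA_218 4 F_447 [(255, 0, 0), (256, 0, 21)]
    0x12a62384cc50783c12d52 = true := by
  decide +kernel

def r_447_1 : chkL rootF engF2 tA tA sA_218 sA_218 4 F_447 [(256, 21, 0)]
    0x42e2381d0743a0741e03c2b0cc1b7802b03cd83280f0d495 = true := by
  decide +kernel

theorem f_447 (h : TabsF) : FrameF repsF 218 F_447.f :=
  frame_of rfl c_447 ((runs_of engOK r_447_0).append (runs_of engOK r_447_1)) (by decide +kernel) h.1 h.1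

def F_448 : FrX :=
  ⟨0x1c21020000040440000020410001010000820408a00011000004001102021000082140000820450080800040a84014100080100010804100448a0200000,
    0x0, 0, 0x206483, 3,
    [(0x0, 0), (0x205386a9, 4), (0x105487a9, 4), (0x214376a9, 4), (0x205386a9, 4), (0x105487a9, 4)],
    [(0x206483, 3), (0x204385a9, 4), (0x216573a9, 4), (0x107486a9, 4), (0x204385a9, 4), (0x216573a9, 4)]⟩

def c_448 : frmChk tA tA F_448 = true := by decide +kernel

def r_448_0 : chkL rootF engF2 tA tA sA_218 sA_218 4 F_448 [(255, 0, 0), (256, 0, 4)]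
    0x1138361a472 = true := by
  decide +kernel

def r_448_1 : chkL rootF engF2 tA tA sA_218 sA_218 4 F_448 [(256, 4, 16)]
    0x54a91b42299a425863 = true := by
  decide +kernel

def r_448_2 : chkL rootF engF2 tA tA sA_218 sA_218 4 F_448 [(256, 20, 7)]
    0x1 = true := by
  decide +kernel

def r_448_3 : chkL rootF engF2 tA tA sA_218 sA_218 4 F_448 [(256, 27, 5)]
    0x18e234 = true := by
  decide +kernel

def r_448_4 : chkL rootF engF2 tA tA sA_218 sA_218 4 F_448 [(256, 32, 4)]
    0x105c2709c27 = true := by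
  decide +kernel

def r_448_5 : chkL rootF engF2 tA tA sA_218 sA_218 4 F_448 [(256, 36, 5)]
    0x447 = true := by
  decide +kernel

def r_448_6 : chkL rootF engF2 tA tA sA_218 sA_218 4 F_448 [(256, 41, 0)]
    0x41d1701b = true := by
  decide +kernel

theorem f_448 (h : TabsF) : FrameF repsF 218 F_448.f :=
  frame_of rfl c_448 ((runs_of engOK r_448_0).append ((runs_of engOK r_448_1).append ((runs_of engOK r_448_2).append ((runs_of engOK r_448_3).append ((runs_of engOK r_448_4).append ((runs_of engOK r_448_5).append (runs_of engOK r_448_6))))))) (by decide +kernel) h.1 h.1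

def F_449 : FrX :=
  ⟨0x2002000900044004000e02041000141000800040800400484008082000808084100004110100010404020100820001002100002085042020002010249040,
    0xa3, 1, 0x1020528196a0, 6,
    [(0xa3, 1), (0x208693a5, 4), (0x10548793, 4), (0x217693a4, 4), (0x208693a5, 4), (0x10548793, 4)],
    [(0x1020528196a0, 6), (0x316290a5, 4), (0x416270a8, 4), (0x43628597, 4), (0x316290a5, 4), (0x416270a8, 4)]⟩

def c_449 : frmChk tA tA F_449 = true := by decide +kernel

def r_449_0 : chkL rootF engF2 tA tA sA_218 sA_218 4 F_449 [(255, 0, 0), (256, 0, 23)]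
    0x42d18d8c0781e09c271981e = true := by
  decide +kernel

def r_449_1 : chkL rootF engF2 tA tA sA_218 sA_218 4 F_449 [(256, 23, 0)]
    0x40f2e02d0b42d0b42d = true := by
  decide +kernel

theorem f_449 (h : TabsF) : FrameF repsF 218 F_449.f :=
  frame_of rfl c_449 ((runs_of engOK r_449_0).append (runs_of engOK r_449_1)) (by decide +kernel) h.1 h.1

def F_450 : FrX :=
  ⟨0x80080a000804040e00002101002001000002040881081000040c008002201000085010200020440080900000a8400410001110001008410044842800000,
    0xa6, 1, 0x314352728098a2, 7,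
    [(0xa6, 1), (0x205396a8, 4), (0x10548796, 4), (0x214396a7, 4), (0x205396a8, 4), (0x10548796, 4)],
    [(0x314352728098a2, 7), (0x427096a8, 4), (0x21708395, 4), (0x416570a3, 4), (0x427096a8, 4), (0x21708395, 4)]⟩

def c_450 : frmChk tA tA F_450 = true := by decide +kernel

def r_450_0 : chkL rootF engF2 tA tA sA_218 sA_218 4 F_450 [(255, 0, 0), (256, 0, 25)]
    0x112c17134171704d12e239882d0b4b411c8d = true := by
  decide +kernel

def r_450_1 : chkL rootF engF2 tA tA sA_218 sA_218 4 F_450 [(256, 25, 0)]
    0x44d0789324c952388b = true := by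
  decide +kernel

theorem f_450 (h : TabsF) : FrameF repsF 218 F_450.f :=
  frame_of rfl c_450 ((runs_of engOK r_450_0).append (runs_of engOK r_450_1)) (by decide +kernel) h.1 h.1

def F_451 : FrX :=
  ⟨0x80080a000804040e000021010020010000020408822000040420300000410020500220014000080208008008802102010001010840010a02808c0220000,
    0xa6, 1, 0x203142527596a3, 7,
    [(0xa6, 1), (0x205396a8, 4), (0x10548796, 4), (0x214396a7, 4), (0x205396a8, 4), (0x10548796, 4)],
    [(0x203142527596a3, 7), (0x526198a7, 4), (0x32617084, 4), (0x536194a0, 4), (0x526198a7, 4), (0x32617084, 4)]⟩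

def c_451 : frmChk tA tA F_451 = true := by decide +kernel

def r_451_0 : chkL rootF engF2 tA tA sA_218 sA_218 4 F_451 [(255, 0, 0), (256, 0, 24)]
    0x10e8551c47403c5c = true := by
  decide +kernel

def r_451_1 : chkL rootF engF2 tA tA sA_218 sA_218 4 F_451 [(256, 24, 0)]
    0x12388e3180f0745a = true := by
  decide +kernel

theorem f_451 (h : TabsF) : FrameF repsF 218 F_451.f :=
  frame_of rfl c_451 ((runs_of engOK r_451_0).append (runs_of engOK r_451_1)) (by decide +kernel) h.1 h.1

def F_452 : FrX :=
  ⟨0x80080a000804040e00002101002001000002040882200002090040404004084020500000c0001001085800002809000200008a0200010a1000002a80001,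
    0xa6, 1, 0x105362738696a0, 7,
    [(0xa6, 1), (0x205396a8, 4), (0x10548796, 4), (0x214396a7, 4), (0x205396a8, 4), (0x10548796, 4)],
    [(0x105362738696a0, 7), (0x738192a6, 4), (0x435281a0, 4), (0x60748195, 4), (0x738192a6, 4), (0x435281a0, 4)]⟩

def c_452 : frmChk tA tA F_452 = true := by decide +kernel

def r_452_0 : chkL rootF engF2 tA tA sA_218 sA_218 4 F_452 [(255, 0, 0), (256, 0, 16)]
    0x1 = true := by
  decide +kernel

def r_452_1 : chkL rootF engF2 tA tA sA_218 sA_218 4 F_452 [(256, 16, 14)]
    0x10b48b = true := by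
  decide +kernel

def r_452_2 : chkL rootF engF2 tA tA sA_218 sA_218 4 F_452 [(256, 30, 0)]
    0x124c1d = true := by
  decide +kernel

theorem f_452 (h : TabsF) : FrameF repsF 218 F_452.f :=
  frame_of rfl c_452 ((runs_of engOK r_452_0).append ((runs_of engOK r_452_1).append (runs_of engOK r_452_2))) (by decide +kernel) h.1 h.1

def F_453 : FrX :=
  ⟨0x2002000900044004000e02041000141000800040800401088120002400020a012000001040840110080800048008008002810000410405001002000410c2,
    0xa3, 1, 0x10415062a3, 5,
    [(0xa3, 1), (0x208693a5, 4), (0x10548793, 4), (0x217693a4, 4), (0x208693a5, 4), (0x10548793, 4)],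
    [(0x10415062a3, 5), (0x658293a1, 4), (0x10548793, 4), (0x647293a0, 4), (0x658293a1, 4), (0x10548793, 4)]⟩

def c_453 : frmChk tA tA F_453 = true := by decide +kernel

def r_453_0 : chkL rootF engF2 tA tA sA_218 sA_218 4 F_453 [(255, 0, 0), (256, 0, 22)]
    0x10764609c36 = true := by
  decide +kernel

def r_453_1 : chkL rootF engF2 tA tA sA_218 sA_218 4 F_453 [(256, 22, 0)]
    0x103c1d0741d0740f0f00f = true := by
  decide +kernel

theorem f_453 (h : TabsF) : FrameF repsF 218 F_453.f :=
  frame_of rfl c_453 ((runs_of engOK r_453_0).append (runs_of engOK r_453_1)) (by decide +kernel) h.1 h.1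

def F_454 : FrX :=
  ⟨0x80080a000804040e0000210100200100000204088220000209002040000408402450000240000401081800002831000240010a0200010a1000002900002,
    0xa6, 1, 0x10324154638195a3, 8,
    [(0xa6, 1), (0x205396a8, 4), (0x10548796, 4), (0x214396a7, 4), (0x205396a8, 4), (0x10548796, 4)],
    [(0x10324154638195a3, 8), (0x314260a9, 4), (0x60748195, 4), (0x607283a5, 4), (0x314260a9, 4), (0x60748195, 4)]⟩

def c_454 : frmChk tA tA F_454 = true := by decide +kernel

def r_454_0 : chkL rootF engF2 tA tA sA_218 sA_218 4 F_454 [(255, 0, 0), (256, 0, 16)]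
    0x43603c56 = true := by
  decide +kernel

def r_454_1 : chkL rootF engF2 tA tA sA_218 sA_218 4 F_454 [(256, 16, 14)]
    0x103c4703e9403c0f0741b = true := by
  decide +kernel

def r_454_2 : chkL rootF engF2 tA tA sA_218 sA_218 4 F_454 [(256, 30, 0)]
    0x11642d0ac170740f12c33 = true := by
  decide +kernel

theorem f_454 (h : TabsF) : FrameF repsF 218 F_454.f :=
  frame_of rfl c_454 ((runs_of engOK r_454_0).append ((runs_of engOK r_454_1).append (runs_of engOK r_454_2))) (by decide +kernel) h.1 h.1

def F_455 : FrX :=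
  ⟨0x2002000900044004000e0204100014100080004081000008418100410100840202000400200800481080020a0200200404042080020002200010c001004a,
    0xa3, 1, 0x3242546484a3, 6,
    [(0xa3, 1), (0x208693a5, 4), (0x10548793, 4), (0x217693a4, 4), (0x208693a5, 4), (0x10548793, 4)],
    [(0x3242546484a3, 6), (0x406592a3, 4), (0x10768392, 4), (0x417592a8, 4), (0x406592a3, 4), (0x10768392, 4)]⟩

def c_455 : frmChk tA tA F_455 = true := by decide +kernel

def r_455_0 : chkL rootF engF2 tA tA sA_218 sA_218 4 F_455 [(255, 0, 0), (256, 0, 22)]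
    0x10cc5306c1b06c4e06c1b06c1b06c1b14c3c14c1b = true := by
  decide +kernel

def r_455_1 : chkL rootF engF2 tA tA sA_218 sA_218 4 F_455 [(256, 22, 0)]
    0x41b18e611342d560360d45a = true := by
  decide +kernel

theorem f_455 (h : TabsF) : FrameF repsF 218 F_455.f :=
  frame_of rfl c_455 ((runs_of engOK r_455_0).append (runs_of engOK r_455_1)) (by decide +kernel) h.1 h.1

def F_456 : FrX :=
  ⟨0x80080a000804040e0000210100200100000204088048100010240012024000000901402000404001005000008840024020404a000408408004024620000,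
    0xa6, 1, 0x20314054657492a8, 8,
    [(0xa6, 1), (0x205396a8, 4), (0x10548796, 4), (0x214396a7, 4), (0x205396a8, 4), (0x10548796, 4)],
    [(0x20314054657492a8, 8), (0x618094a2, 4), (0x437680a5, 4), (0x52718093, 4), (0x618094a2, 4), (0x437680a5, 4)]⟩

def c_456 : frmChk tA tA F_456 = true := by decide +kernel

def r_456_0 : chkL rootF engF2 tA tA sA_218 sA_218 4 F_456 [(255, 0, 0), (256, 0, 24)]
    0x43612c0f11c36 = true := by
  decide +kernel

def r_456_1 : chkL rootF engF2 tA tA sA_218 sA_218 4 F_456 [(256, 24, 0)]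
    0x10b47106c4b1c836 = true := by
  decide +kernel

theorem f_456 (h : TabsF) : FrameF repsF 218 F_456.f :=
  frame_of rfl c_456 ((runs_of engOK r_456_0).append (runs_of engOK r_456_1)) (by decide +kernel) h.1 h.1

def F_457 : FrX :=
  ⟨0x2002000900044004000e02041000141000800040810000028090000110102201220200001008008820800111020401040044808000a00200202020009010,
    0xa3, 1, 0x315260708496a7, 7,
    [(0xa3, 1), (0x208693a5, 4), (0x10548793, 4), (0x217693a4, 4), (0x208693a5, 4), (0x10548793, 4)],
    [(0x315260708496a7, 7), (0x21607594, 4), (0x607382a4, 4), (0x536081a9, 4), (0x21607594, 4), (0x607382a4, 4)]⟩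

def c_457 : frmChk tA tA F_457 = true := by decide +kernel

def r_457_0 : chkL rootF engF2 tA tA sA_218 sA_218 4 F_457 [(255, 0, 0), (256, 0, 17)]
    0x41b1d26409cb80cc0f0cc0f = true := by
  decide +kernel

def r_457_1 : chkL rootF engF2 tA tA sA_218 sA_218 4 F_457 [(256, 17, 15)]
    0x103c2719433 = true := by
  decide +kernel

def r_457_2 : chkL rootF engF2 tA tA sA_218 sA_218 4 F_457 [(256, 32, 0)]
    0x436 = true := by
  decide +kernel

theorem f_457 (h : TabsF) : FrameF repsF 218 F_457.f :=
  frame_of rfl c_457 ((runs_of engOK r_457_0).append ((runs_of engOK r_457_1).append (runs_of engOK r_457_2))) (by decide +kernel) h.1 h.1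

def F_458 : FrX :=
  ⟨0x2002000900044004000e02041000141000800040800801014008024002000180200102104024001010040012000404200281008080c00808100202020090,
    0xa3, 1, 0x204162728593a6, 7,
    [(0xa3, 1), (0x208693a5, 4), (0x10548793, 4), (0x217693a4, 4), (0x208693a5, 4), (0x10548793, 4)],
    [(0x204162728593a6, 7), (0x307298a5, 4), (0x30426581, 4), (0x307491a6, 4), (0x307298a5, 4), (0x30426581, 4)]⟩

def c_458 : frmChk tA tA F_458 = true := by decide +kernel

def r_458_0 : chkL rootF engF2 tA tA sA_218 sA_218 4 F_458 [(255, 0, 0), (256, 0, 24)]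
    0x103c530d4330cc33 = true := by
  decide +kernel

def r_458_1 : chkL rootF engF2 tA tA sA_218 sA_218 4 F_458 [(256, 24, 0)]
    0x46c11c0f03c3c03c0f05c171968303c3303c0f = true := by
  decide +kernel

theorem f_458 (h : TabsF) : FrameF repsF 218 F_458.f :=
  frame_of rfl c_458 ((runs_of engOK r_458_0).append (runs_of engOK r_458_1)) (by decide +kernel) h.1 h.1

def F_459 : FrX :=
  ⟨0x80080a000804040e0000210100200100000204089007000100800800a000000031014004004005008010800101101100024008022080809100844080000,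
    0xa6, 1, 0x213053657386a3, 7,
    [(0xa6, 1), (0x205396a8, 4), (0x10548796, 4), (0x214396a7, 4), (0x205396a8, 4), (0x10548796, 4)],
    [(0x213053657386a3, 7), (0x318097a6, 4), (0x32506497, 4), (0x218597a4, 4), (0x318097a6, 4), (0x32506497, 4)]⟩

def c_459 : frmChk tA tA F_459 = true := by decide +kernel

def r_459_0 : chkL rootF engF2 tA tA sA_218 sA_218 4 F_459 [(255, 0, 0), (256, 0, 19)]
    0x130c6aa268caa08e87294a303663055 = true := by
  decide +kernel

def r_459_1 : chkL rootF engF2 tA tA sA_218 sA_218 4 F_459 [(256, 19, 0)]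
    0x41728c47 = true := by
  decide +kernel

theorem f_459 (h : TabsF) : FrameF repsF 218 F_459.f :=
  frame_of rfl c_459 ((runs_of engOK r_459_0).append (runs_of engOK r_459_1)) (by decide +kernel) h.1 h.1

def F_460 : FrX :=
  ⟨0x482000044040440000c2040020009000182040010080020801000808020108110400400c80042000080221082008800001002110008082110104800001,
    0xa0, 1, 0x102040516095a6, 7,
    [(0xa0, 1), (0x538690a2, 4), (0x548790a1, 4), (0x21437690, 4), (0x538690a2, 4), (0x548790a1, 4)],
    [(0x102040516095a6, 7), (0x406193a8, 4), (0x40658792, 4), (0x324051a7, 4), (0x406193a8, 4), (0x40658792, 4)]⟩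

def c_460 : frmChk tA tA F_460 = true := by decide +kernel

def r_460_0 : chkL rootF engF2 tA tA sA_218 sA_218 4 F_460 [(255, 0, 0), (256, 0, 23)]
    0x10ac362943917152d201e12cd1 = true := by
  decide +kernel

def r_460_1 : chkL rootF engF2 tA tA sA_218 sA_218 4 F_460 [(256, 23, 0)]
    0x42d0e8360e42b05c1e584330ad0712c2b0783605c1705c1705c1d = true := by
  decide +kernel

theorem f_460 (h : TabsF) : FrameF repsF 218 F_460.f :=
  frame_of rfl c_460 ((runs_of engOK r_460_0).append (runs_of engOK r_460_1)) (by decide +kernel) h.1 h.1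

def F_461 : FrX :=
  ⟨0x482000044040440000c2040020009000182040004021020008020280040030010022011880801000000004601088000044005000440120044010800208,
    0xa0, 1, 0x20324060708292a6, 8,
    [(0xa0, 1), (0x538690a2, 4), (0x548790a1, 4), (0x21437690, 4), (0x538690a2, 4), (0x548790a1, 4)],
    [(0x20324060708292a6, 8), (0x508497a3, 4), (0x52637184, 4), (0x208491a6, 4), (0x508497a3, 4), (0x52637184, 4)]⟩

def c_461 : frmChk tA tA F_461 = true := by decide +kernel

def r_461_0 : chkL rootF engF2 tA tA sA_218 sA_218 4 F_461 [(255, 0, 0), (256, 0, 24)]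
    0x12a41b03c2d03c0f0d41b0781b = true := by
  decide +kernel

def r_461_1 : chkL rootF engF2 tA tA sA_218 sA_218 4 F_461 [(256, 24, 0)]
    0x4870d4872542b06c1e06c3c0d54548d23255610e43522c1b0d40f4b0d42354985a860d836 = true := by
  decide +kernel

theorem f_461 (h : TabsF) : FrameF repsF 218 F_461.f :=
  frame_of rfl c_461 ((runs_of engOK r_461_0).append (runs_of engOK r_461_1)) (by decide +kernel) h.1 h.1

theorem cl_218 (h : TabsF) : ∀ f ∈ fr_218, FrameF repsF 218 f :=
  List.forall_mem_cons.2 ⟨f_434 h, List.forall_mem_cons.2 ⟨f_435 h, List.forall_mem_cons.2 ⟨f_436 h, List.forall_mem_cons.2 ⟨f_437 h, List.forall_mem_cons.2 ⟨f_438 h, List.forall_mem_cons.2 ⟨f_439 h, List.forall_mem_cons.2 ⟨f_440 h, List.forall_mem_cons.2 ⟨f_441 h, List.forall_mem_cons.2 ⟨f_442 h, List.forall_mem_cons.2 ⟨f_443 h, List.forall_mem_cons.2 ⟨f_444 h, List.forall_mem_cons.2 ⟨f_445 h, List.forall_mem_cons.2 ⟨f_446 h, List.forall_mem_cons.2 ⟨f_447 h, List.forall_mem_cons.2 ⟨f_448 h, List.forall_mem_cons.2 ⟨f_449 h, List.forall_mem_cons.2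 ⟨f_450 h, List.forall_mem_cons.2 ⟨f_451 h, List.forall_mem_cons.2 ⟨f_452 h, List.forall_mem_cons.2 ⟨f_453 h, List.forall_mem_cons.2 ⟨f_454 h, List.forall_mem_cons.2 ⟨f_455 h, List.forall_mem_cons.2 ⟨f_456 h, List.forall_mem_cons.2 ⟨f_457 h, List.forall_mem_cons.2 ⟨f_458 h, List.forall_mem_cons.2 ⟨f_459 h, List.forall_mem_cons.2 ⟨f_460 h, List.forall_mem_cons.2 ⟨f_461 h,
    fun _ h0 => absurd h0 List.not_mem_nil⟩⟩⟩⟩⟩⟩⟩⟩⟩⟩⟩⟩⟩⟩⟩⟩⟩⟩⟩⟩⟩⟩⟩⟩⟩⟩⟩⟩

def F_462 : FrX :=
  ⟨0x80080a000804040e00002101002001000002040882020401020010008080204022011008400110208000801100500101004042040182000100904041000,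
    0xa6, 1, 0x3164708295a6, 6,
    [(0xa6, 1), (0x205396a8, 4), (0x10548796, 4), (0x214396a7, 4), (0x205396a8, 4), (0x10548796, 4)],
    [(0x3164708295a6, 6), (0x548791a2, 4), (0x20547396, 4), (0x546183a0, 4), (0x548791a2, 4), (0x20547396, 4)]⟩

def c_462 : frmChk tA tA F_462 = true := by decide +kernel

def r_462_0 : chkL rootF engF2 tA tA sA_219 sA_219 4 F_462 [(255, 0, 0), (256, 0, 20)]
    0x493075078540f0ac5615456 = true := by
  decide +kernel

def r_462_1 : chkL rootF engF2 tA tA sA_219 sA_219 4 F_462 [(256, 20, 0)]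
    0x417074960783c0b45c03c2b1a86a = true := by
  decide +kernel

theorem f_462 (h : TabsF) : FrameF repsF 219 F_462.f :=
  frame_of rfl c_462 ((runs_of engOK r_462_0).append (runs_of engOK r_462_1)) (by decide +kernel) h.1 h.1

def F_463 : FrX :=
  ⟨0x80080a000804040e0000210100200100000204088044080202000480001201014008005008004100024800101220004022102001100060c000005082000,
    0xa6, 1, 0x214251657495a2, 7,
    [(0xa6, 1), (0x205396a8, 4), (0x10548796, 4), (0x214396a7, 4), (0x205396a8, 4), (0x10548796, 4)],
    [(0x214251657495a2, 7), (0x648293a0, 4), (0x50648197, 4), (0x216473a5, 4), (0x648293a0, 4), (0x50648197, 4)]⟩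

def c_463 : frmChk tA tA F_463 = true := by decide +kernel

def r_463_0 : chkL rootF engF2 tA tA sA_219 sA_219 4 F_463 [(255, 0, 0), (256, 0, 16)]
    0x439134471643c = true := by
  decide +kernel

def r_463_1 : chkL rootF engF2 tA tA sA_219 sA_219 4 F_463 [(256, 16, 14)]
    0x19876011c1d23a9806c17 = true := by
  decide +kernel

def r_463_2 : chkL rootF engF2 tA tA sA_219 sA_219 4 F_463 [(256, 30, 0)]
    0x4331b17006c59 = true := by
  decide +kernel

theorem f_463 (h : TabsF) : FrameF repsF 219 F_463.f :=
  frame_of rfl c_463 ((runs_of engOK r_463_0).append ((runs_of engOK r_463_1).append (runs_of engOK r_463_2))) (by decide +kernel) h.1 h.1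

def F_464 : FrX :=
  ⟨0x80080a000804040e000021010020010000020408a0001001100400809020200404880000044020242110000014101140004020006001008000824604000,
    0xa6, 1, 0x3040718698a0, 6,
    [(0xa6, 1), (0x205396a8, 4), (0x10548796, 4), (0x214396a7, 4), (0x205396a8, 4), (0x10548796, 4)],
    [(0x3040718698a0, 6), (0x506498a2, 4), (0x536491a7, 4), (0x30647281, 4), (0x506498a2, 4), (0x536491a7, 4)]⟩

def c_464 : frmChk tA tA F_464 = true := by decide +kernel

def r_464_0 : chkL rootF engF2 tA tA sA_219 sA_219 4 F_464 [(255, 0, 0), (256, 0, 23)]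
    0x41e078170788b0741e28cc3384178c82d03c5a0d80f0e41d078d41d01e03c3917017 = true := by
  decide +kernel

def r_464_1 : chkL rootF engF2 tA tA sA_219 sA_219 4 F_464 [(256, 23, 0)]
    0x45511c5c03ce1c1916c487214c1d06c0f03cd1 = true := by
  decide +kernel

theorem f_464 (h : TabsF) : FrameF repsF 219 F_464.f :=
  frame_of rfl c_464 ((runs_of engOK r_464_0).append (runs_of engOK r_464_1)) (by decide +kernel) h.1 h.1

def F_465 : FrX :=
  ⟨0x2002000900044004000e02041000141000800040810000028080804200242010020400208008110408200141000408100100080080a00004040842202080,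
    0xa3, 1, 0x203041506196a0, 7,
    [(0xa3, 1), (0x208693a5, 4), (0x10548793, 4), (0x217693a4, 4), (0x208693a5, 4), (0x10548793, 4)],
    [(0x203041506196a0, 7), (0x325498a0, 4), (0x315487a6, 4), (0x21546097, 4), (0x325498a0, 4), (0x315487a6, 4)]⟩

def c_465 : frmChk tA tA F_465 = true := by decide +kernel

def r_465_0 : chkL rootF engF2 tA tA sA_219 sA_219 4 F_465 [(255, 0, 0), (256, 0, 16)]
    0x48b05c0f03c1748c17 = true := by
  decide +kernel

def r_465_1 : chkL rootF engF2 tA tA sA_219 sA_219 4 F_465 [(256, 16, 14)]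
    0x109c1b1941706c2b05c1706c171943922c3c03c0f = true := by
  decide +kernel

def r_465_2 : chkL rootF engF2 tA tA sA_219 sA_219 4 F_465 [(256, 30, 14)]
    0x106c170b8170ac1b4a4470d42e11c1b03f21464391392911d293141b05c350d427ac01b06c1b2a929316c10d62615625c85314a9294d01b06c350d47105c35 = true := by
  decide +kernel

def r_465_3 : chkL rootF engF2 tA tA sA_219 sA_219 4 F_465 [(256, 44, 0)]
    0x10cc65 = true := by
  decide +kernel

theorem f_465 (h : TabsF) : FrameF repsF 219 F_465.f :=
  frame_of rfl c_465 ((runs_of engOK r_465_0).append ((runs_of engOK r_465_1).append ((runs_of engOK r_465_2).append (runs_of engOK r_465_3)))) (by decide +kernel) h.1 h.1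

def F_466 : FrX :=
  ⟨0x482000044040440000c2040020009000182040010020028001000180080108110020410000048800a00209080201040048020110048004000880012008,
    0xa0, 1, 0x20305362738094a6, 8,
    [(0xa0, 1), (0x538690a2, 4), (0x548790a1, 4), (0x21437690, 4), (0x538690a2, 4), (0x548790a1, 4)],
    [(0x20305362738094a6, 8), (0x407286a3, 4), (0x40538192, 4), (0x406197a5, 4), (0x407286a3, 4), (0x40538192, 4)]⟩

def c_466 : frmChk tA tA F_466 = true := by decide +kernel

def r_466_0 : chkL rootF engF2 tA tA sA_219 sA_219 4 F_466 [(255, 0, 0), (256, 0, 17)]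
    0x43c06caa0f02b05c2b2a82b = true := by
  decide +kernel

def r_466_1 : chkL rootF engF2 tA tA sA_219 sA_219 4 F_466 [(256, 17, 15)]
    0x105c0f13847c601703c33 = true := by
  decide +kernel

def r_466_2 : chkL rootF engF2 tA tA sA_219 sA_219 4 F_466 [(256, 32, 12)]
    0x42b2360d4952589631c901b09c0f519c4 = true := by
  decide +kernel

def r_466_3 : chkL rootF engF2 tA tA sA_219 sA_219 4 F_466 [(256, 44, 0)]
    0x41b = true := by
  decide +kernel

theorem f_466 (h : TabsF) : FrameF repsF 219 F_466.f :=
  frame_of rfl c_466 ((runs_of engOK r_466_0).append ((runs_of engOK r_466_1).append ((runs_of engOK r_466_2).append (runs_of engOK r_466_3)))) (by decide +kernel) h.1 h.1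

def F_467 : FrX :=
  ⟨0x482000044040440000c2040020009000182040000408448008100010010410008080401400081020004020501001400004008220900240011002804001,
    0xa0, 1, 0x54637182a0, 5,
    [(0xa0, 1), (0x538690a2, 4), (0x548790a1, 4), (0x21437690, 4), (0x538690a2, 4), (0x548790a1, 4)],
    [(0x54637182a0, 5), (0x326490a8, 4), (0x215490a7, 4), (0x31658790, 4), (0x326490a8, 4), (0x215490a7, 4)]⟩

def c_467 : frmChk tA tA F_467 = true := by decide +kernel

def r_467_0 : chkL rootF engF2 tA tA sA_219 sA_219 4 F_467 [(255, 0, 0), (256, 0, 22)]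
    0x10786688f2281c2e0782e68ba083b0a = true := by
  decide +kernel

def r_467_1 : chkL rootF engF2 tA tA sA_219 sA_219 4 F_467 [(256, 22, 0)]
    0x112c273601705c170ae2906db00d41703c2b06c4b = true := by
  decide +kernel

theorem f_467 (h : TabsF) : FrameF repsF 219 F_467.f :=
  frame_of rfl c_467 ((runs_of engOK r_467_0).append (runs_of engOK r_467_1)) (by decide +kernel) h.1 h.1

def F_468 : FrX :=
  ⟨0x2002000900044004000e020410001410008000408040010250010240020040402000802100802210001800060200080081000010804018202001c0220004,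
    0xa3, 1, 0x104354637580a6, 7,
    [(0xa3, 1), (0x208693a5, 4), (0x10548793, 4), (0x217693a4, 4), (0x208693a5, 4), (0x10548793, 4)],
    [(0x104354637580a6, 7), (0x768294a1, 4), (0x31758094, 4), (0x206594a3, 4), (0x768294a1, 4), (0x31758094, 4)]⟩

def c_468 : frmChk tA tA F_468 = true := by decide +kernel

def r_468_0 : chkL rootF engF2 tA tA sA_219 sA_219 4 F_468 [(255, 0, 0), (256, 0, 24)]
    0x43303c3c1d01e44c7403c534b047 = true := by
  decide +kernel

def r_468_1 : chkL rootF engF2 tA tA sA_219 sA_219 4 F_468 [(256, 24, 0)]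
    0x4330cc1714c4b0b4a56906305c360ce46 = true := by
  decide +kernel

theorem f_468 (h : TabsF) : FrameF repsF 219 F_468.f :=
  frame_of rfl c_468 ((runs_of engOK r_468_0).append (runs_of engOK r_468_1)) (by decide +kernel) h.1 h.1

def F_469 : FrX :=
  ⟨0x2002000900044004000e0204100014100080004080040044801020060080088100010012180800808040018001100004004020800604800040140080d000,
    0xa3, 1, 0x2160758394a3, 6,
    [(0xa3, 1), (0x208693a5, 4), (0x10548793, 4), (0x217693a4, 4), (0x208693a5, 4), (0x10548793, 4)],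
    [(0x2160758394a3, 6), (0x306184a7, 4), (0x53628497, 4), (0x215084a9, 4), (0x306184a7, 4), (0x53628497, 4)]⟩

def c_469 : frmChk tA tA F_469 = true := by decide +kernel

def r_469_0 : chkL rootF engF2 tA tA sA_219 sA_219 4 F_469 [(255, 0, 0), (256, 0, 15)]
    0x10780f0781e271c21582d09d071361a06e380d41b06c2713989e20a9aa02e1385c = true := by
  decide +kernel

def r_469_1 : chkL rootF engF2 tA tA sA_219 sA_219 4 F_469 [(256, 15, 16)]
    0x10d417078170781705d26e078412c0f0aec2238780e80f1e13809c1e1384e5282d81cb8 = true := by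
  decide +kernel

def r_469_2 : chkL rootF engF2 tA tA sA_219 sA_219 4 F_469 [(256, 31, 0)]
    0x10cc1e0b41e4591a159b006e150b45303c27 = true := by
  decide +kernel

theorem f_469 (h : TabsF) : FrameF repsF 219 F_469.f :=
  frame_of rfl c_469 ((runs_of engOK r_469_0).append ((runs_of engOK r_469_1).append (runs_of engOK r_469_2))) (by decide +kernel) h.1 h.1

theorem cl_219 (h : TabsF) : ∀ f ∈ fr_219, FrameF repsF 219 f :=
  List.forall_mem_cons.2 ⟨f_462 h, List.forall_mem_cons.2 ⟨f_463 h, List.forall_mem_cons.2 ⟨f_464 h, List.forall_mem_cons.2 ⟨f_465 h, List.forall_mem_cons.2 ⟨f_466 h, List.forall_mem_cons.2 ⟨f_467 h, List.forall_mem_cons.2 ⟨f_468 h, List.forall_mem_cons.2 ⟨f_469 h,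
    fun _ h0 => absurd h0 List.not_mem_nil⟩⟩⟩⟩⟩⟩⟩⟩

def F_470 : FrX :=
  ⟨0x80080a000804040e00002101002001000002040882010801008400008820000004503000a1001048000800101410210200c202004002001100904040000,
    0xa6, 1, 0x203041528391a5, 7,
    [(0xa6, 1), (0x205396a8, 4), (0x10548796, 4), (0x214396a7, 4), (0x205396a8, 4), (0x10548796, 4)],
    [(0x203041528391a5, 7), (0x405362a8, 4), (0x407293a1, 4), (0x40768195, 4), (0x405362a8, 4), (0x407293a1, 4)]⟩

def c_470 : frmChk tA tA F_470 = true := by decide +kernel

def r_470_0 : chkL rootF engF2 tA tA sA_220 sA_220 4 F_470 [(255, 0, 0), (256, 0, 17)]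
    0x4550d46c5484b5443560cd4 = true := by
  decide +kernel

def r_470_1 : chkL rootF engF2 tA tA sA_220 sA_220 4 F_470 [(256, 17, 16)]
    0x49a0744b12c2d12ca5 = true := by
  decide +kernel

def r_470_2 : chkL rootF engF2 tA tA sA_220 sA_220 4 F_470 [(256, 33, 0)]
    0x42e234781349311d0714c4da841d = true := by
  decide +kernel

theorem f_470 (h : TabsF) : FrameF repsF 220 F_470.f :=
  frame_of rfl c_470 ((runs_of engOK r_470_0).append ((runs_of engOK r_470_1).append (runs_of engOK r_470_2))) (by decide +kernel) h.1 h.1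

def F_471 : FrX :=
  ⟨0x80080a000804040e00002101002001000002040881080400204024400410008000404050100940200050000211010000280108001000421044025080000,
    0xa6, 1, 0x405261738191a5, 7,
    [(0xa6, 1), (0x205396a8, 4), (0x10548796, 4), (0x214396a7, 4), (0x205396a8, 4), (0x10548796, 4)],
    [(0x405261738191a5, 7), (0x546182a7, 4), (0x638294a0, 4), (0x31708295, 4), (0x546182a7, 4), (0x638294a0, 4)]⟩

def c_471 : frmChk tA tA F_471 = true := by decide +kernel

def r_471_0 : chkL rootF engF2 tA tA sA_220 sA_220 4 F_471 [(255, 0, 0), (256, 0, 16)]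
    0x11d04e1682d = true := by
  decide +kernel

def r_471_1 : chkL rootF engF2 tA tA sA_220 sA_220 4 F_471 [(256, 16, 13)]
    0x44705d850784705c1b = true := by
  decide +kernel

def r_471_2 : chkL rootF engF2 tA tA sA_220 sA_220 4 F_471 [(256, 29, 0)]
    0x14a709ca02b17069 = true := by
  decide +kernel

theorem f_471 (h : TabsF) : FrameF repsF 220 F_471.f :=
  frame_of rfl c_471 ((runs_of engOK r_471_0).append ((runs_of engOK r_471_1).append (runs_of engOK r_471_2))) (by decide +kernel) h.1 h.1

def F_472 : FrX :=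
  ⟨0x2002000900044004000e0204100014100080004081000008208100482080a002100000200810810280400181010010102080080084080000040880212080,
    0xa3, 1, 0x3241638797a2, 6,
    [(0xa3, 1), (0x208693a5, 4), (0x10548793, 4), (0x217693a4, 4), (0x208693a5, 4), (0x10548793, 4)],
    [(0x3241638797a2, 6), (0x657283a0, 4), (0x40518397, 4), (0x618392a4, 4), (0x657283a0, 4), (0x40518397, 4)]⟩

def c_472 : frmChk tA tA F_472 = true := by decide +kernel

def r_472_0 : chkL rootF engF2 tA tA sA_220 sA_220 4 F_472 [(255, 0, 0), (256, 0, 25)]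
    0x53106c1b06c1b06c8b0744e1b0360d44711c55 = true := by
  decide +kernel

def r_472_1 : chkL rootF engF2 tA tA sA_220 sA_220 4 F_472 [(256, 25, 0)]
    0x103c0f11c9306c330cc1d06e3803c2b09c0f1380f = true := by
  decide +kernel

theorem f_472 (h : TabsF) : FrameF repsF 220 F_472.f :=
  frame_of rfl c_472 ((runs_of engOK r_472_0).append (runs_of engOK r_472_1)) (by decide +kernel) h.1 h.1

def F_473 : FrX :=
  ⟨0x2002000900044004000e0204100014100080004080800402808102040082080020008020088004102020800440102004000120a000400220202425000004,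
    0xa3, 1, 0x10214352617482a8, 8,
    [(0xa3, 1), (0x208693a5, 4), (0x10548793, 4), (0x217693a4, 4), (0x208693a5, 4), (0x10548793, 4)],
    [(0x10214352617482a8, 8), (0x408195a2, 4), (0x617095a3, 4), (0x32748695, 4), (0x408195a2, 4), (0x617095a3, 4)]⟩

def c_473 : frmChk tA tA F_473 = true := by decide +kernel

def r_473_0 : chkL rootF engF2 tA tA sA_220 sA_220 4 F_473 [(255, 0, 0), (256, 0, 15)]
    0x103c8e198ac0ae4a0b8390785a0e44d93036 = true := by
  decide +kernel

def r_473_1 : chkL rootF engF2 tA tA sA_220 sA_220 4 F_473 [(256, 15, 17)]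
    0x111c3a2b03a = true := by
  decide +kernel

def r_473_2 : chkL rootF engF2 tA tA sA_220 sA_220 4 F_473 [(256, 32, 0)]
    0x43c138330781e0741e0b42d0f04e43447 = true := by
  decide +kernel

theorem f_473 (h : TabsF) : FrameF repsF 220 F_473.f :=
  frame_of rfl c_473 ((runs_of engOK r_473_0).append ((runs_of engOK r_473_1).append (runs_of engOK r_473_2))) (by decide +kernel) h.1 h.1

def F_474 : FrX :=
  ⟨0x482000044040440000c2040020009000182040020002020800080220040890804020000110110280040009084010102210002028080400100020200201,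
    0xa0, 1, 0x304251738692a8, 7,
    [(0xa0, 1), (0x538690a2, 4), (0x548790a1, 4), (0x21437690, 4), (0x538690a2, 4), (0x548790a1, 4)],
    [(0x304251738692a8, 7), (0x647193a8, 4), (0x215364a0, 4), (0x64728095, 4), (0x647193a8, 4), (0x215364a0, 4)]⟩

def c_474 : frmChk tA tA F_474 = true := by decide +kernel

def r_474_0 : chkL rootF engF2 tA tA sA_220 sA_220 4 F_474 [(255, 0, 0), (256, 0, 23)]
    0x11642b82c4705c1705c170744e23887 = true := by
  decide +kernel

def r_474_1 : chkL rootF engF2 tA tA sA_220 sA_220 4 F_474 [(256, 23, 0)]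
    0x10ac2b8581b06c2e06c1d06c3a2d01d0748b0741d06c3a438d2438aa2c81b45a1585b28c501b074d4 = true := by
  decide +kernel

theorem f_474 (h : TabsF) : FrameF repsF 220 F_474.f :=
  frame_of rfl c_474 ((runs_of engOK r_474_0).append (runs_of engOK r_474_1)) (by decide +kernel) h.1 h.1

def F_475 : FrX :=
  ⟨0x482000044040440000c204002000900018204002000050080c020010010044800080400102009068200008003020000204006040000608100122000401,
    0xa0, 1, 0x324053647191a8, 7,
    [(0xa0, 1), (0x538690a2, 4), (0x548790a1, 4), (0x21437690, 4), (0x538690a2, 4), (0x548790a1, 4)],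
    [(0x324053647191a8, 7), (0x435287a0, 4), (0x628794a1, 4), (0x10658793, 4), (0x435287a0, 4), (0x628794a1, 4)]⟩

def c_475 : frmChk tA tA F_475 = true := by decide +kernel

def r_475_0 : chkL rootF engF2 tA tA sA_220 sA_220 4 F_475 [(255, 0, 0), (256, 0, 23)]
    0x10b82e168390e469 = true := by
  decide +kernel

def r_475_1 : chkL rootF engF2 tA tA sA_220 sA_220 4 F_475 [(256, 23, 21)]
    0x109c1b06c1e0b82e09c1b1a41d = true := by
  decide +kernel

def r_475_2 : chkL rootF engF2 tA tA sA_220 sA_220 4 F_475 [(256, 44, 0)]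
    0x1 = true := by
  decide +kernel

theorem f_475 (h : TabsF) : FrameF repsF 220 F_475.f :=
  frame_of rfl c_475 ((runs_of engOK r_475_0).append ((runs_of engOK r_475_1).append (runs_of engOK r_475_2))) (by decide +kernel) h.1 h.1

def F_476 : FrX :=
  ⟨0x482000044040440000c2040020009000182040000420228001200080080108010020410080040204100800601008008010011040488101204100010008,
    0xa0, 1, 0x1032607382a1, 6,
    [(0xa0, 1), (0x538690a2, 4), (0x548790a1, 4), (0x21437690, 4), (0x538690a2, 4), (0x548790a1, 4)],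
    [(0x1032607382a1, 6), (0x31758690, 4), (0x325490a6, 4), (0x217490a8, 4), (0x31758690, 4), (0x325490a6, 4)]⟩

def c_476 : frmChk tA tA F_476 = true := by decide +kernel

def r_476_0 : chkL rootF engF2 tA tA sA_220 sA_220 4 F_476 [(255, 0, 0), (256, 0, 24)]
    0x40f05c2705c8b1541b2342d16839 = true := by
  decide +kernel

def r_476_1 : chkL rootF engF2 tA tA sA_220 sA_220 4 F_476 [(256, 24, 0)]
    0x40f03c0f09c0f0cc1b454952640f2c81e = true := by
  decide +kernel

theorem f_476 (h : TabsF) : FrameF repsF 220 F_476.f :=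
  frame_of rfl c_476 ((runs_of engOK r_476_0).append (runs_of engOK r_476_1)) (by decide +kernel) h.1 h.1

def F_477 : FrX :=
  ⟨0x80080a000804040e0000210100200100000204088220000404203000001400801002600140000802080080088021020100010108400a80c000a02220000,
    0xa6, 1, 0x728793a4, 4,
    [(0xa6, 1), (0x205396a8, 4), (0x10548796, 4), (0x214396a7, 4), (0x205396a8, 4), (0x10548796, 4)],
    [(0x728793a4, 4), (0x43627095, 4), (0x104382a5, 4), (0x437186a9, 4), (0x43627095, 4), (0x104382a5, 4)]⟩

def c_477 : frmChk tA tA F_477 = true := by decide +kernel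

def r_477_0 : chkL rootF engF2 tA tA sA_220 sA_220 4 F_477 [(255, 0, 0), (256, 0, 24)]
    0x141c4711c4711c4e1384e = true := by
  decide +kernel

def r_477_1 : chkL rootF engF2 tA tA sA_220 sA_220 4 F_477 [(256, 24, 0)]
    0x11542b = true := by
  decide +kernel

theorem f_477 (h : TabsF) : FrameF repsF 220 F_477.f :=
  frame_of rfl c_477 ((runs_of engOK r_477_0).append (runs_of engOK r_477_1)) (by decide +kernel) h.1 h.1

def F_478 : FrX :=
  ⟨0x482000044040440000c2040020009000182040020001042000200084014048030400000101010180080440102202408020090040090000101102000082,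
    0xa0, 1, 0x315263768691a3, 7,
    [(0xa0, 1), (0x538690a2, 4), (0x548790a1, 4), (0x21437690, 4), (0x538690a2, 4), (0x548790a1, 4)],
    [(0x315263768691a3, 7), (0x506387a2, 4), (0x42637190, 4), (0x638195a4, 4), (0x506387a2, 4), (0x42637190, 4)]⟩

def c_478 : frmChk tA tA F_478 = true := by decide +kernel

def r_478_0 : chkL rootF engF2 tA tA sA_220 sA_220 4 F_478 [(255, 0, 0), (256, 0, 14)]
    0x10ac5a12c1b5258a7201b = true := by
  decide +kernel

def r_478_1 : chkL rootF engF2 tA tA sA_220 sA_220 4 F_478 [(256, 14, 13)]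
    0x11941e06c2e03c3c0760d1583c = true := by
  decide +kernel

def r_478_2 : chkL rootF engF2 tA tA sA_220 sA_220 4 F_478 [(256, 27, 0)]
    0x4c90786a3441b0b81d = true := by
  decide +kernel

theorem f_478 (h : TabsF) : FrameF repsF 220 F_478.f :=
  frame_of rfl c_478 ((runs_of engOK r_478_0).append ((runs_of engOK r_478_1).append (runs_of engOK r_478_2))) (by decide +kernel) h.1 h.1

def F_479 : FrX :=
  ⟨0x482000044040440000c2040020009000182040002020842000a00010014008004400110026000200800801080204022080008188200404000824200004,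
    0xa0, 1, 0x203141506271a5, 7,
    [(0xa0, 1), (0x538690a2, 4), (0x548790a1, 4), (0x21437690, 4), (0x538690a2, 4), (0x548790a1, 4)],
    [(0x203141506271a5, 7), (0x658092a1, 4), (0x758492a3, 4), (0x31407692, 4), (0x658092a1, 4), (0x758492a3, 4)]⟩

def c_479 : frmChk tA tA F_479 = true := by decide +kernel

def r_479_0 : chkL rootF engF2 tA tA sA_220 sA_220 4 F_479 [(255, 0, 0), (256, 0, 21)]
    0x10742d = true := by
  decide +kernel

def r_479_1 : chkL rootF engF2 tA tA sA_220 sA_220 4 F_479 [(256, 21, 0)]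
    0x105c170f03a03c2709c2b = true := by
  decide +kernel

theorem f_479 (h : TabsF) : FrameF repsF 220 F_479.f :=
  frame_of rfl c_479 ((runs_of engOK r_479_0).append (runs_of engOK r_479_1)) (by decide +kernel) h.1 h.1

def F_480 : FrX :=
  ⟨0x1c2102000004044000002041000101000082040888200008008080004000242020601000900010080080460120602400021010041090000340110008000,
    0x0, 0, 0x107583, 3,
    [(0x0, 0), (0x205386a9, 4), (0x105487a9, 4), (0x214376a9, 4), (0x205386a9, 4), (0x105487a9, 4)],
    [(0x107583, 3), (0x216387a9, 4), (0x105374a9, 4), (0x206584a9, 4), (0x216387a9, 4), (0x105374a9, 4)]⟩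

def c_480 : frmChk tA tA F_480 = true := by decide +kernel

def r_480_0 : chkL rootF engF2 tA tA sA_220 sA_220 4 F_480 [(255, 0, 0), (256, 0, 11)]
    0x1 = true := by
  decide +kernel

def r_480_1 : chkL rootF engF2 tA tA sA_220 sA_220 4 F_480 [(256, 11, 5)]
    0x40f86453 = true := by
  decide +kernel

def r_480_2 : chkL rootF engF2 tA tA sA_220 sA_220 4 F_480 [(256, 16, 3)]
    0x41714c17 = true := by
  decide +kernel

def r_480_3 : chkL rootF engF2 tA tA sA_220 sA_220 4 F_480 [(256, 19, 5)]
    0x114c35 = true := by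
  decide +kernel

def r_480_4 : chkL rootF engF2 tA tA sA_220 sA_220 4 F_480 [(256, 24, 4)]
    0x1 = true := by
  decide +kernel

def r_480_5 : chkL rootF engF2 tA tA sA_220 sA_220 4 F_480 [(256, 28, 5)]
    0x42b = true := by
  decide +kernel

def r_480_6 : chkL rootF engF2 tA tA sA_220 sA_220 4 F_480 [(256, 33, 5)]
    0x41b = true := by
  decide +kernel

def r_480_7 : chkL rootF engF2 tA tA sA_220 sA_220 4 F_480 [(256, 38, 0)]
    0x435 = true := by
  decide +kernel

theorem f_480 (h : TabsF) : FrameF repsF 220 F_480.f :=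
  frame_of rfl c_480 ((runs_of engOK r_480_0).append ((runs_of engOK r_480_1).append ((runs_of engOK r_480_2).append ((runs_of engOK r_480_3).append ((runs_of engOK r_480_4).append ((runs_of engOK r_480_5).append ((runs_of engOK r_480_6).append (runs_of engOK r_480_7)))))))) (by decide +kernel) h.1 h.1

def F_481 : FrX :=
  ⟨0x2002000900044004000e02041000141000800040810000018100802401020208300000101008008820800404800004240100200006040008140804044050,
    0xa3, 1, 0x1043728596a3, 6,
    [(0xa3, 1), (0x208693a5, 4), (0x10548793, 4), (0x217693a4, 4), (0x208693a5, 4), (0x10548793, 4)],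
    [(0x1043728596a3, 6), (0x647195a8, 4), (0x10526483, 4), (0x647092a3, 4), (0x647195a8, 4), (0x10526483, 4)]⟩

def c_481 : frmChk tA tA F_481 = true := by decide +kernel

def r_481_0 : chkL rootF engF2 tA tA sA_220 sA_220 4 F_481 [(255, 0, 0), (256, 0, 15)]
    0x40f03c0f03c0f0740f = true := by
  decide +kernel

def r_481_1 : chkL rootF engF2 tA tA sA_220 sA_220 4 F_481 [(256, 15, 14)]
    0x4331c4711a41d06c9318c2d0d48d = true := by
  decide +kernel

def r_481_2 : chkL rootF engF2 tA tA sA_220 sA_220 4 F_481 [(256, 29, 0)]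
    0x111f0a32712 = true := by
  decide +kernel

theorem f_481 (h : TabsF) : FrameF repsF 220 F_481.f :=
  frame_of rfl c_481 ((runs_of engOK r_481_0).append ((runs_of engOK r_481_1).append (runs_of engOK r_481_2))) (by decide +kernel) h.1 h.1

def F_482 : FrX :=
  ⟨0x482000044040440000c2040020009000182040002010822000a0001002400800440011302000020080080108020404002040a108200402100804200004,
    0xa0, 1, 0x40527187a8, 5,
    [(0xa0, 1), (0x538690a2, 4), (0x548790a1, 4), (0x21437690, 4), (0x538690a2, 4), (0x548790a1, 4)],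
    [(0x40527187a8, 5), (0x325491a6, 4), (0x207491a8, 4), (0x30758691, 4), (0x325491a6, 4), (0x207491a8, 4)]⟩

def c_482 : frmChk tA tA F_482 = true := by decide +kernel

def r_482_0 : chkL rootF engF2 tA tA sA_220 sA_220 4 F_482 [(255, 0, 0), (256, 0, 15)]
    0x4a631836c14170790d170d8 = true := by
  decide +kernel

def r_482_1 : chkL rootF engF2 tA tA sA_220 sA_220 4 F_482 [(256, 15, 14)]
    0x40f07817 = true := by
  decide +kernel

def r_482_2 : chkL rootF engF2 tA tA sA_220 sA_220 4 F_482 [(256, 29, 0)]
    0x10781e0ad1cc4b142c872 = true := by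
  decide +kernel

theorem f_482 (h : TabsF) : FrameF repsF 220 F_482.f :=
  frame_of rfl c_482 ((runs_of engOK r_482_0).append ((runs_of engOK r_482_1).append (runs_of engOK r_482_2))) (by decide +kernel) h.1 h.1

def F_483 : FrX :=
  ⟨0x482000044040440000c2040020009000182040000a00048020000180080188208010000888001410000030401200222018008000500080110220000084,
    0xa0, 1, 0x304161708290a1, 7,
    [(0xa0, 1), (0x538690a2, 4), (0x548790a1, 4), (0x21437690, 4), (0x538690a2, 4), (0x548790a1, 4)],
    [(0x304161708290a1, 7), (0x42507698, 4), (0x325176a9, 4), (0x104376a8, 4), (0x42507698, 4), (0x325176a9, 4)]⟩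

def c_483 : frmChk tA tA F_483 = true := by decide +kernel

def r_483_0 : chkL rootF engF2 tA tA sA_220 sA_220 4 F_483 [(255, 0, 0), (256, 0, 15)]
    0x41da518c254b45314c51899195985246c721c45141d518c9705497214c614c57102e23a8c = true := by
  decide +kernel

def r_483_1 : chkL rootF engF2 tA tA sA_220 sA_220 4 F_483 [(256, 15, 17)]
    0x634b125111e4505cc91948d2b26403c33 = true := by
  decide +kernel

def r_483_2 : chkL rootF engF2 tA tA sA_220 sA_220 4 F_483 [(256, 32, 0)]
    0x10ac470d49603c2b = true := by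
  decide +kernel

theorem f_483 (h : TabsF) : FrameF repsF 220 F_483.f :=
  frame_of rfl c_483 ((runs_of engOK r_483_0).append ((runs_of engOK r_483_1).append (runs_of engOK r_483_2))) (by decide +kernel) h.1 h.1

def F_484 : FrX :=
  ⟨0x2002000900044004000e02041000141000800040800801014000a04002004080300100104024001010040012000402220080c08020401008001202020090,
    0xa3, 1, 0x1063758294a3, 6,
    [(0xa3, 1), (0x208693a5, 4), (0x10548793, 4), (0x217693a4, 4), (0x208693a5, 4), (0x10548793, 4)],
    [(0x1063758294a3, 6), (0x326481a7, 4), (0x10526497, 4), (0x536480a9, 4), (0x326481a7, 4), (0x10526497, 4)]⟩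

def c_484 : frmChk tA tA F_484 = true := by decide +kernel

def r_484_0 : chkL rootF engF2 tA tA sA_220 sA_220 4 F_484 [(255, 0, 0), (256, 0, 23)]
    0x12348d13961 = true := by
  decide +kernel

def r_484_1 : chkL rootF engF2 tA tA sA_220 sA_220 4 F_484 [(256, 23, 0)]
    0x106c5c9316153158 = true := by
  decide +kernel

theorem f_484 (h : TabsF) : FrameF repsF 220 F_484.f :=
  frame_of rfl c_484 ((runs_of engOK r_484_0).append (runs_of engOK r_484_1)) (by decide +kernel) h.1 h.1

def F_485 : FrX :=
  ⟨0x2002000900044004000e0204100014100080004080100028200140010020a200800040130800040000a4081101000004000420a000601000801024081010,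
    0xa3, 1, 0x3062738198a3, 6,
    [(0xa3, 1), (0x208693a5, 4), (0x10548793, 4), (0x217693a4, 4), (0x208693a5, 4), (0x10548793, 4)],
    [(0x3062738198a3, 6), (0x637192a5, 4), (0x54718390, 4), (0x207186a4, 4), (0x637192a5, 4), (0x54718390, 4)]⟩

def c_485 : frmChk tA tA F_485 = true := by decide +kernel

def r_485_0 : chkL rootF engF2 tA tA sA_220 sA_220 4 F_485 [(255, 0, 0), (256, 0, 12)]
    0x106c0f06c2b = true := by
  decide +kernel

def r_485_1 : chkL rootF engF2 tA tA sA_220 sA_220 4 F_485 [(256, 12, 15)]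
    0x42d075c806c2b81c0f = true := by
  decide +kernel

def r_485_2 : chkL rootF engF2 tA tA sA_220 sA_220 4 F_485 [(256, 27, 17)]
    0x42703c5509c270e81b = true := by
  decide +kernel

def r_485_3 : chkL rootF engF2 tA tA sA_220 sA_220 4 F_485 [(256, 44, 0)]
    0x10d81b = true := by
  decide +kernel

theorem f_485 (h : TabsF) : FrameF repsF 220 F_485.f :=
  frame_of rfl c_485 ((runs_of engOK r_485_0).append ((runs_of engOK r_485_1).append ((runs_of engOK r_485_2).append (runs_of engOK r_485_3)))) (by decide +kernel) h.1 h.1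

theorem cl_220 (h : TabsF) : ∀ f ∈ fr_220, FrameF repsF 220 f :=
  List.forall_mem_cons.2 ⟨f_470 h, List.forall_mem_cons.2 ⟨f_471 h, List.forall_mem_cons.2 ⟨f_472 h, List.forall_mem_cons.2 ⟨f_473 h, List.forall_mem_cons.2 ⟨f_474 h, List.forall_mem_cons.2 ⟨f_475 h, List.forall_mem_cons.2 ⟨f_476 h, List.forall_mem_cons.2 ⟨f_477 h, List.forall_mem_cons.2 ⟨f_478 h, List.forall_mem_cons.2 ⟨f_479 h, List.forall_mem_cons.2 ⟨f_480 h, List.forall_mem_cons.2 ⟨f_481 h, List.forall_mem_cons.2 ⟨f_482 h, List.forall_mem_cons.2 ⟨f_483 h, List.forall_mem_cons.2 ⟨f_484 h, List.forall_mem_cons.2 ⟨f_485 h,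
    fun _ h0 => absurd h0 List.not_mem_nil⟩⟩⟩⟩⟩⟩⟩⟩⟩⟩⟩⟩⟩⟩⟩⟩

def F_486 : FrX :=
  ⟨0x80080a000804040e00002101002001000002040881081600004400100410000001084050020040200050000213010000200138001000468004025080000,
    0xa6, 1, 0x325496a6, 4,
    [(0xa6, 1), (0x205396a8, 4), (0x10548796, 4), (0x214396a7, 4), (0x205396a8, 4), (0x10548796, 4)],
    [(0x325496a6, 4), (0x304296a8, 4), (0x10548796, 4), (0x315296a7, 4), (0x304296a8, 4), (0x10548796, 4)]⟩

def c_486 : frmChk tA tA F_486 = true := by decide +kernel

def r_486_0 : chkL rootF engF2 tA tA sA_221 sA_221 4 F_486 [(255, 0, 0), (256, 0, 25)]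
    0x44d0e83916859 = true := by
  decide +kernel

def r_486_1 : chkL rootF engF2 tA tA sA_221 sA_221 4 F_486 [(256, 25, 0)]
    0x61a948360d45a13839856510d436154560e855 = true := by
  decide +kernel

theorem f_486 (h : TabsF) : FrameF repsF 221 F_486.f :=
  frame_of rfl c_486 ((runs_of engOK r_486_0).append (runs_of engOK r_486_1)) (by decide +kernel) h.1 h.1

def F_487 : FrX :=
  ⟨0x80080a000804040e0000210100200100000204088201080100840000882000000618101002001150000800101410200100402300400000a100904440000,
    0xa6, 1, 0x3242536394a6, 6,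
    [(0xa6, 1), (0x205396a8, 4), (0x10548796, 4), (0x214396a7, 4), (0x205396a8, 4), (0x10548796, 4)],
    [(0x3242536394a6, 6), (0x405362a8, 4), (0x10538792, 4), (0x415396a7, 4), (0x405362a8, 4), (0x10538792, 4)]⟩

def c_487 : frmChk tA tA F_487 = true := by decide +kernel

def r_487_0 : chkL rootF engF2 tA tA sA_221 sA_221 4 F_487 [(255, 0, 0), (256, 0, 14)]
    0x4a92388baa0533240f = true := by
  decide +kernel

def r_487_1 : chkL rootF engF2 tA tA sA_221 sA_221 4 F_487 [(256, 14, 19)]
    0x15474250f6003d4a = true := by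
  decide +kernel

def r_487_2 : chkL rootF engF2 tA tA sA_221 sA_221 4 F_487 [(256, 33, 0)]
    0x44d = true := by
  decide +kernel

theorem f_487 (h : TabsF) : FrameF repsF 221 F_487.f :=
  frame_of rfl c_487 ((runs_of engOK r_487_0).append ((runs_of engOK r_487_1).append (runs_of engOK r_487_2))) (by decide +kernel) h.1 h.1

def F_488 : FrX :=
  ⟨0x482000044040440000c2040020009000182040000420228001200080080108010020410080041000020024601008008010038000440160004200800048,
    0xa0, 1, 0x1032607382a1, 6,
    [(0xa0, 1), (0x538690a2, 4), (0x548790a1, 4), (0x21437690, 4), (0x538690a2, 4), (0x548790a1, 4)],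
    [(0x1032607382a1, 6), (0x31758690, 4), (0x325490a6, 4), (0x217490a8, 4), (0x31758690, 4), (0x325490a6, 4)]⟩

def c_488 : frmChk tA tA F_488 = true := by decide +kernel

def r_488_0 : chkL rootF engF2 tA tA sA_221 sA_221 4 F_488 [(255, 0, 0), (256, 0, 24)]
    0x41705c360780f0e439 = true := by
  decide +kernel

def r_488_1 : chkL rootF engF2 tA tA sA_221 sA_221 4 F_488 [(256, 24, 0)]
    0x40f0d80f03c0f0d41b03c17 = true := by
  decide +kernel

theorem f_488 (h : TabsF) : FrameF repsF 221 F_488.f :=
  frame_of rfl c_488 ((runs_of engOK r_488_0).append (runs_of engOK r_488_1)) (by decide +kernel) h.1 h.1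

def F_489 : FrX :=
  ⟨0x2002000900044004000e02041000141000800040800801041020010008080181200108010080021000240062011000040281018002041028000200008084,
    0xa3, 1, 0x10435065718293a0, 8,
    [(0xa3, 1), (0x208693a5, 4), (0x10548793, 4), (0x217693a4, 4), (0x208693a5, 4), (0x10548793, 4)],
    [(0x10435065718293a0, 8), (0x215496a8, 4), (0x205463a7, 4), (0x10548793, 4), (0x215496a8, 4), (0x205463a7, 4)]⟩

def c_489 : frmChk tA tA F_489 = true := by decide +kernel

def r_489_0 : chkL rootF engF2 tA tA sA_221 sA_221 4 F_489 [(255, 0, 0), (256, 0, 26)]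
    0x10d835 = true := by
  decide +kernel

def r_489_1 : chkL rootF engF2 tA tA sA_221 sA_221 4 F_489 [(256, 26, 0)]
    0x103c3642c3303c0fa0c0f = true := by
  decide +kernel

theorem f_489 (h : TabsF) : FrameF repsF 221 F_489.f :=
  frame_of rfl c_489 ((runs_of engOK r_489_0).append (runs_of engOK r_489_1)) (by decide +kernel) h.1 h.1

theorem cl_221 (h : TabsF) : ∀ f ∈ fr_221, FrameF repsF 221 f :=
  List.forall_mem_cons.2 ⟨f_486 h, List.forall_mem_cons.2 ⟨f_487 h, List.forall_mem_cons.2 ⟨f_488 h, List.forall_mem_cons.2 ⟨f_489 h,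
    fun _ h0 => absurd h0 List.not_mem_nil⟩⟩⟩⟩

def F_490 : FrX :=
  ⟨0x482000044040440000c2040020009000182040020002020800080220024028004400040400032000880031084001802008002108008802002104000014,
    0xa0, 1, 0x30415461708598a3, 8,
    [(0xa0, 1), (0x538690a2, 4), (0x548790a1, 4), (0x21437690, 4), (0x538690a2, 4), (0x548790a1, 4)],
    [(0x30415461708598a3, 8), (0x107294a8, 4), (0x10768593, 4), (0x104362a5, 4), (0x107294a8, 4), (0x10768593, 4)]⟩

def c_490 : frmChk tA tA F_490 = true := by decide +kernel

def r_490_0 : chkL rootF engF2 tA tA sA_222 sA_222 4 F_490 [(255, 0, 0), (256, 0, 20)]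
    0x109c273441b05c74 = true := by
  decide +kernel

def r_490_1 : chkL rootF engF2 tA tA sA_222 sA_222 4 F_490 [(256, 20, 0)]
    0x41e854390cc352383c07433 = true := by
  decide +kernel

theorem f_490 (h : TabsF) : FrameF repsF 222 F_490.f :=
  frame_of rfl c_490 ((runs_of engOK r_490_0).append (runs_of engOK r_490_1)) (by decide +kernel) h.1 h.1

def F_491 : FrX :=
  ⟨0x2002000900044004000e0204100014100080004080080101400840000822010010010902000490001404020a000040400204208002108008004202040084,
    0xa3, 1, 0x304353648592a8, 7,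
    [(0xa3, 1), (0x208693a5, 4), (0x10548793, 4), (0x217693a4, 4), (0x208693a5, 4), (0x10548793, 4)],
    [(0x304353648592a8, 7), (0x428593a0, 4), (0x314286a7, 4), (0x42657091, 4), (0x428593a0, 4), (0x314286a7, 4)]⟩

def c_491 : frmChk tA tA F_491 = true := by decide +kernel

def r_491_0 : chkL rootF engF2 tA tA sA_222 sA_222 4 F_491 [(255, 0, 0), (256, 0, 21)]
    0x103c0f06d0b03c0f0780f = true := by
  decide +kernel

def r_491_1 : chkL rootF engF2 tA tA sA_222 sA_222 4 F_491 [(256, 21, 0)]
    0x42b4351c = true := by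
  decide +kernel

theorem f_491 (h : TabsF) : FrameF repsF 222 F_491.f :=
  frame_of rfl c_491 ((runs_of engOK r_491_0).append (runs_of engOK r_491_1)) (by decide +kernel) h.1 h.1

def F_492 : FrX :=
  ⟨0x80080a000804040e000021010020010000020408a000100208002840200220001101200020414101005000008806004020010800100060c000025080010,
    0xa6, 1, 0x325264708193a6, 7,
    [(0xa6, 1), (0x205396a8, 4), (0x10548796, 4), (0x214396a7, 4), (0x205396a8, 4), (0x10548796, 4)],
    [(0x325264708193a6, 7), (0x427593a1, 4), (0x10426387, 4), (0x428596a0, 4), (0x427593a1, 4), (0x10426387, 4)]⟩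

def c_492 : frmChk tA tA F_492 = true := by decide +kernel

def r_492_0 : chkL rootF engF2 tA tA sA_222 sA_222 4 F_492 [(255, 0, 0), (256, 0, 26)]
    0x44d3144e0b42e = true := by
  decide +kernel

def r_492_1 : chkL rootF engF2 tA tA sA_222 sA_222 4 F_492 [(256, 26, 0)]
    0x1388e22c8b2270aa4695209c4703c4d1e0aa = true := by
  decide +kernel

theorem f_492 (h : TabsF) : FrameF repsF 222 F_492.f :=
  frame_of rfl c_492 ((runs_of engOK r_492_0).append (runs_of engOK r_492_1)) (by decide +kernel) h.1 h.1

def F_493 : FrX :=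
  ⟨0x2002000900044004000e0204100014100080004082020002808040011000a200220200000088004024020804401008108001010041200200002025001201,
    0xa3, 1, 0x3242617082a0, 6,
    [(0xa3, 1), (0x208693a5, 4), (0x10548793, 4), (0x217693a4, 4), (0x208693a5, 4), (0x10548793, 4)],
    [(0x3242617082a0, 6), (0x415297a8, 4), (0x405397a6, 4), (0x10328697, 4), (0x415297a8, 4), (0x405397a6, 4)]⟩

def c_493 : frmChk tA tA F_493 = true := by decide +kernel

def r_493_0 : chkL rootF engF2 tA tA sA_222 sA_222 4 F_493 [(255, 0, 0), (256, 0, 23)]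
    0x18962511c3528c170cc4d07835 = true := by
  decide +kernel

def r_493_1 : chkL rootF engF2 tA tA sA_222 sA_222 4 F_493 [(256, 23, 0)]
    0x109c5905c4d0b42d0ac2d0ac1d = true := by
  decide +kernel

theorem f_493 (h : TabsF) : FrameF repsF 222 F_493.f :=
  frame_of rfl c_493 ((runs_of engOK r_493_0).append (runs_of engOK r_493_1)) (by decide +kernel) h.1 h.1

def F_494 : FrX :=
  ⟨0x482000044040440000c2040020009000182040001020828001100100080101200200048201040208000020601001400040008080490000214220008084,
    0xa0, 1, 0x10324250607182a3, 8,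
    [(0xa0, 1), (0x538690a2, 4), (0x548790a1, 4), (0x21437690, 4), (0x538690a2, 4), (0x548790a1, 4)],
    [(0x10324250607182a3, 8), (0x548692a1, 4), (0x31407692, 4), (0x508792a3, 4), (0x548692a1, 4), (0x31407692, 4)]⟩

def c_494 : frmChk tA tA F_494 = true := by decide +kernel

def r_494_0 : chkL rootF engF2 tA tA sA_222 sA_222 4 F_494 [(255, 0, 0), (256, 0, 24)]
    0x103c1d30c8b03c63 = true := by
  decide +kernel

def r_494_1 : chkL rootF engF2 tA tA sA_222 sA_222 4 F_494 [(256, 24, 0)]
    0x103c93c480f03c0f1e2640740f03c170744d0d417 = true := by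
  decide +kernel

theorem f_494 (h : TabsF) : FrameF repsF 222 F_494.f :=
  frame_of rfl c_494 ((runs_of engOK r_494_0).append (runs_of engOK r_494_1)) (by decide +kernel) h.1 h.1

def F_495 : FrX :=
  ⟨0x80080a000804040e00002101002001000002040888101001120000808002204004880000900011000088001014100802024202004001082440080808010,
    0xa6, 1, 0x10304150657281a0, 8,
    [(0xa6, 1), (0x205396a8, 4), (0x10548796, 4), (0x214396a7, 4), (0x205396a8, 4), (0x10548796, 4)],
    [(0x10304150657281a0, 8), (0x436195a7, 4), (0x426095a8, 4), (0x10328795, 4), (0x436195a7, 4), (0x426095a8, 4)]⟩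

def c_495 : frmChk tA tA F_495 = true := by decide +kernel

def r_495_0 : chkL rootF engF2 tA tA sA_222 sA_222 4 F_495 [(255, 0, 0), (256, 0, 21)]
    0x456170362383948c1b09c27 = true := by
  decide +kernel

def r_495_1 : chkL rootF engF2 tA tA sA_222 sA_222 4 F_495 [(256, 21, 0)]
    0x1c841d06c530d42e03d520ea29 = true := by
  decide +kernel

theorem f_495 (h : TabsF) : FrameF repsF 222 F_495.f :=
  frame_of rfl c_495 ((runs_of engOK r_495_0).append (runs_of engOK r_495_1)) (by decide +kernel) h.1 h.1

def F_496 : FrX :=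
  ⟨0x80080a000804040e000021010020010000020408810420000600081000800824200240044000050200208005011001080020900220009011000c0008200,
    0xa6, 1, 0x314153608591a0, 7,
    [(0xa6, 1), (0x205396a8, 4), (0x10548796, 4), (0x214396a7, 4), (0x205396a8, 4), (0x10548796, 4)],
    [(0x314153608591a0, 7), (0x106485a2, 4), (0x647183a9, 4), (0x53647092, 4), (0x106485a2, 4), (0x647183a9, 4)]⟩

def c_496 : frmChk tA tA F_496 = true := by decide +kernel

def r_496_0 : chkL rootF engF2 tA tA sA_222 sA_222 4 F_496 [(255, 0, 0), (256, 0, 24)]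
    0x103c1e06c4b0740f194653444b0d417 = true := by
  decide +kernel

def r_496_1 : chkL rootF engF2 tA tA sA_222 sA_222 4 F_496 [(256, 24, 0)]
    0x41709cd21340f03c1d = true := by
  decide +kernel

theorem f_496 (h : TabsF) : FrameF repsF 222 F_496.f :=
  frame_of rfl c_496 ((runs_of engOK r_496_0).append (runs_of engOK r_496_1)) (by decide +kernel) h.1 h.1

def F_497 : FrX :=
  ⟨0x80080a000804040e000021010020010000020408a0220002200028400014004040400040104018008830000108032001000808044100120004002600080,
    0xa6, 1, 0x30618097a7, 5,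
    [(0xa6, 1), (0x205396a8, 4), (0x10548796, 4), (0x214396a7, 4), (0x205396a8, 4), (0x10548796, 4)],
    [(0x30618097a7, 5), (0x31508297, 4), (0x548697a3, 4), (0x406297a1, 4), (0x31508297, 4), (0x548697a3, 4)]⟩

def c_497 : frmChk tA tA F_497 = true := by decide +kernel

def r_497_0 : chkL rootF engF2 tA tA sA_222 sA_222 4 F_497 [(255, 0, 0), (256, 0, 23)]
    0x103c0f03c0f03c1e = true := by
  decide +kernel

def r_497_1 : chkL rootF engF2 tA tA sA_222 sA_222 4 F_497 [(256, 23, 0)]
    0x12c4a3384f0154933488760e511701e = true := by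
  decide +kernel

theorem f_497 (h : TabsF) : FrameF repsF 222 F_497.f :=
  frame_of rfl c_497 ((runs_of engOK r_497_0).append (runs_of engOK r_497_1)) (by decide +kernel) h.1 h.1

def F_498 : FrX :=
  ⟨0x482000044040440000c2040020009000182040001191000004020200000050010212020004030500000200508000088284008041050021004004010002,
    0xa0, 1, 0x204052647683a6, 7,
    [(0xa0, 1), (0x538690a2, 4), (0x548790a1, 4), (0x21437690, 4), (0x538690a2, 4), (0x548790a1, 4)],
    [(0x204052647683a6, 7), (0x548097a3, 4), (0x32416097, 4), (0x518697a2, 4), (0x548097a3, 4), (0x32416097, 4)]⟩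

def c_498 : frmChk tA tA F_498 = true := by decide +kernel

def r_498_0 : chkL rootF engF2 tA tA sA_222 sA_222 4 F_498 [(255, 0, 0), (256, 0, 22)]
    0x41e134953c01d4a52342d290781e = true := by
  decide +kernel

def r_498_1 : chkL rootF engF2 tA tA sA_222 sA_222 4 F_498 [(256, 22, 0)]
    0x122c1e0ccf00cc4db408b = true := by
  decide +kernel

theorem f_498 (h : TabsF) : FrameF repsF 222 F_498.f :=
  frame_of rfl c_498 ((runs_of engOK r_498_0).append (runs_of engOK r_498_1)) (by decide +kernel) h.1 h.1

def F_499 : FrX :=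
  ⟨0x2002000900044004000e02041000141000800040810000081101004409008402020004000c80a00812010004020008800001001002880800040810224200,
    0xa3, 1, 0x4251738594a5, 6,
    [(0xa3, 1), (0x208693a5, 4), (0x10548793, 4), (0x217693a4, 4), (0x208693a5, 4), (0x10548793, 4)],
    [(0x4251738594a5, 6), (0x406182a7, 4), (0x315082a9, 4), (0x54638297, 4), (0x406182a7, 4), (0x315082a9, 4)]⟩

def c_499 : frmChk tA tA F_499 = true := by decide +kernel

def r_499_0 : chkL rootF engF2 tA tA sA_222 sA_222 4 F_499 [(255, 0, 0), (256, 0, 16)]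
    0x14c48ea168607417 = true := by
  decide +kernel

def r_499_1 : chkL rootF engF2 tA tA sA_222 sA_222 4 F_499 [(256, 16, 17)]
    0x43a12c4b12e8683a86a281d0d4171380fa1634 = true := by
  decide +kernel

def r_499_2 : chkL rootF engF2 tA tA sA_222 sA_222 4 F_499 [(256, 33, 0)]
    0x40f0ad681647209c71a18360d474 = true := by
  decide +kernel

theorem f_499 (h : TabsF) : FrameF repsF 222 F_499.f :=
  frame_of rfl c_499 ((runs_of engOK r_499_0).append ((runs_of engOK r_499_1).append (runs_of engOK r_499_2))) (by decide +kernel) h.1 h.1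

def F_500 : FrX :=
  ⟨0x482000044040440000c20400200090001820400100b0080004000110008004804800120022080008000251002000800284000240042504104080000042,
    0xa0, 1, 0x3040537485a4, 6,
    [(0xa0, 1), (0x538690a2, 4), (0x548790a1, 4), (0x21437690, 4), (0x538690a2, 4), (0x548790a1, 4)],
    [(0x3040537485a4, 6), (0x42608597, 4), (0x304197a8, 4), (0x216397a5, 4), (0x42608597, 4), (0x304197a8, 4)]⟩

def c_500 : frmChk tA tA F_500 = true := by decide +kernel

def r_500_0 : chkL rootF engF2 tA tA sA_222 sA_222 4 F_500 [(255, 0, 0), (256, 0, 17)]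
    0x49a2681e0e41b = true := by
  decide +kernel

def r_500_1 : chkL rootF engF2 tA tA sA_222 sA_222 4 F_500 [(256, 17, 15)]
    0x1 = true := by
  decide +kernel

def r_500_2 : chkL rootF engF2 tA tA sA_222 sA_222 4 F_500 [(256, 32, 0)]
    0x10b88709c0f09ca52d02ee1183e042e50c4b0784b = true := by
  decide +kernel

theorem f_500 (h : TabsF) : FrameF repsF 222 F_500.f :=
  frame_of rfl c_500 ((runs_of engOK r_500_0).append ((runs_of engOK r_500_1).append (runs_of engOK r_500_2))) (by decide +kernel) h.1 h.1

def F_501 : FrX :=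
  ⟨0x482000044040440000c20400200090001820400200010420002000840d0041010002018020810200500400500001002080090104090000010900010090,
    0xa0, 1, 0x3240738793a5, 6,
    [(0xa0, 1), (0x538690a2, 4), (0x548790a1, 4), (0x21437690, 4), (0x538690a2, 4), (0x548790a1, 4)],
    [(0x3240738793a5, 6), (0x436275a9, 4), (0x417582a0, 4), (0x31758690, 4), (0x436275a9, 4), (0x417582a0, 4)]⟩

def c_501 : frmChk tA tA F_501 = true := by decide +kernel

def r_501_0 : chkL rootF engF2 tA tA sA_222 sA_222 4 F_501 [(255, 0, 0), (256, 0, 23)]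
    0x42e03c17134171344d41d64 = true := by
  decide +kernel

def r_501_1 : chkL rootF engF2 tA tA sA_222 sA_222 4 F_501 [(256, 23, 0)]
    0x13184e325430762c258930b81d0e85903c47318c51d00f3148d0f02714c17 = true := by
  decide +kernel

theorem f_501 (h : TabsF) : FrameF repsF 222 F_501.f :=
  frame_of rfl c_501 ((runs_of engOK r_501_0).append (runs_of engOK r_501_1)) (by decide +kernel) h.1 h.1

def F_502 : FrX :=
  ⟨0x2002000900044004000e0204100014100080004080100048100090280102020100000112500400800a000814800000800084200006041000040884804040,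
    0xa3, 1, 0x2030425461758098a0, 9,
    [(0xa3, 1), (0x208693a5, 4), (0x10548793, 4), (0x217693a4, 4), (0x208693a5, 4), (0x10548793, 4)],
    [(0x2030425461758098a0, 9), (0x728391a4, 4), (0x758390a6, 4), (0x10526483, 4), (0x728391a4, 4), (0x758390a6, 4)]⟩

def c_502 : frmChk tA tA F_502 = true := by decide +kernel

def r_502_0 : chkL rootF engF2 tA tA sA_222 sA_222 4 F_502 [(255, 0, 0), (256, 0, 22)]
    0x1464530d42e361a1e80594c50b465294e01e272549482d = true := by
  decide +kernel

def r_502_1 : chkL rootF engF2 tA tA sA_222 sA_222 4 F_502 [(256, 22, 0)]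
    0x40f11d1a0d83538651c194c15a52d100f41c2d6240fe04339490e5254c3489cc302d06c4b = true := by
  decide +kernel

theorem f_502 (h : TabsF) : FrameF repsF 222 F_502.f :=
  frame_of rfl c_502 ((runs_of engOK r_502_0).append (runs_of engOK r_502_1)) (by decide +kernel) h.1 h.1

def F_503 : FrX :=
  ⟨0x2002000900044004000e0204100014100080004080040108812000420000a202100000104082001010040005010400800281000080c80800044080222080,
    0xa3, 1, 0x405162a3, 4,
    [(0xa3, 1), (0x208693a5, 4), (0x10548793, 4), (0x217693a4, 4), (0x208693a5, 4), (0x10548793, 4)],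
    [(0x405162a3, 4), (0x648293a1, 4), (0x10548793, 4), (0x657293a0, 4), (0x648293a1, 4), (0x10548793, 4)]⟩

def c_503 : frmChk tA tA F_503 = true := by decide +kernel

def r_503_0 : chkL rootF engF2 tA tA sA_222 sA_222 4 F_503 [(255, 0, 0), (256, 0, 22)]
    0x40fa283c03c8d12c0f83a238aa0e88e2a = true := by
  decide +kernel

def r_503_1 : chkL rootF engF2 tA tA sA_222 sA_222 4 F_503 [(256, 22, 0)]
    0x10e4b11388b0cc1705c2b14c531a45512c8b12c3303cb1 = true := by
  decide +kernel

theorem f_503 (h : TabsF) : FrameF repsF 222 F_503.f :=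
  frame_of rfl c_503 ((runs_of engOK r_503_0).append (runs_of engOK r_503_1)) (by decide +kernel) h.1 h.1

def F_504 : FrX :=
  ⟨0x2002000900044004000e02041000141000800040800800248000c0040080888020010011010000840402041201041000200008a0204400200020c0010090,
    0xa3, 1, 0x2031415064738298a3, 9,
    [(0xa3, 1), (0x208693a5, 4), (0x10548793, 4), (0x217693a4, 4), (0x208693a5, 4), (0x10548793, 4)],
    [(0x2031415064738298a3, 9), (0x708593a2, 4), (0x54627091, 4), (0x317084a6, 4), (0x708593a2, 4), (0x54627091, 4)]⟩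

def c_504 : frmChk tA tA F_504 = true := by decide +kernel

def r_504_0 : chkL rootF engF2 tA tA sA_222 sA_222 4 F_504 [(255, 0, 0), (256, 0, 22)]
    0x1 = true := by
  decide +kernel

def r_504_1 : chkL rootF engF2 tA tA sA_222 sA_222 4 F_504 [(256, 22, 0)]
    0x43618c0f = true := by
  decide +kernel

theorem f_504 (h : TabsF) : FrameF repsF 222 F_504.f :=
  frame_of rfl c_504 ((runs_of engOK r_504_0).append (runs_of engOK r_504_1)) (by decide +kernel) h.1 h.1

def F_505 : FrX :=
  ⟨0x482000044040440000c204002000900018204002000044800020008408018800801040010101011200040048122000a000091040010204000904010008,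
    0xa0, 1, 0x405164738296a5, 7,
    [(0xa0, 1), (0x538690a2, 4), (0x548790a1, 4), (0x21437690, 4), (0x538690a2, 4), (0x548790a1, 4)],
    [(0x405164738296a5, 7), (0x108492a7, 4), (0x103254a6, 4), (0x10768593, 4), (0x108492a7, 4), (0x103254a6, 4)]⟩

def c_505 : frmChk tA tA F_505 = true := by decide +kernel

def r_505_0 : chkL rootF engF2 tA tA sA_222 sA_222 4 F_505 [(255, 0, 0), (256, 0, 20)]
    0x14c41b0ac0f = true := by
  decide +kernel

def r_505_1 : chkL rootF engF2 tA tA sA_222 sA_222 4 F_505 [(256, 20, 0)]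
    0x43c05c27 = true := by
  decide +kernel

theorem f_505 (h : TabsF) : FrameF repsF 222 F_505.f :=
  frame_of rfl c_505 ((runs_of engOK r_505_0).append (runs_of engOK r_505_1)) (by decide +kernel) h.1 h.1

def F_506 : FrX :=
  ⟨0x80080a000804040e00002101002001000002040881081000044400100220000008503020002020010048801010600800204042040402a01100104020000,
    0xa6, 1, 0x315064758297a6, 7,
    [(0xa6, 1), (0x205396a8, 4), (0x10548796, 4), (0x214396a7, 4), (0x205396a8, 4), (0x10548796, 4)],
    [(0x315064758297a6, 7), (0x407185a2, 4), (0x40537692, 4), (0x406183a9, 4), (0x407185a2, 4), (0x40537692, 4)]⟩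

def c_506 : frmChk tA tA F_506 = true := by decide +kernel

def r_506_0 : chkL rootF engF2 tA tA sA_222 sA_222 4 F_506 [(255, 0, 0), (256, 0, 23)]
    0x67021c1b = true := by
  decide +kernel

def r_506_1 : chkL rootF engF2 tA tA sA_222 sA_222 4 F_506 [(256, 23, 0)]
    0x114c471545383683 = true := by
  decide +kernel

theorem f_506 (h : TabsF) : FrameF repsF 222 F_506.f :=
  frame_of rfl c_506 ((runs_of engOK r_506_0).append (runs_of engOK r_506_1)) (by decide +kernel) h.1 h.1

def F_507 : FrX :=
  ⟨0x2002000900044004000e02041000141000800040810000082080802401020201040002201008008812020112020020040004210006000208002140008050,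
    0xa3, 1, 0x2054617296a3, 6,
    [(0xa3, 1), (0x208693a5, 4), (0x10548793, 4), (0x217693a4, 4), (0x208693a5, 4), (0x10548793, 4)],
    [(0x2054617296a3, 6), (0x317298a4, 4), (0x31546280, 4), (0x317690a5, 4), (0x317298a4, 4), (0x31546280, 4)]⟩

def c_507 : frmChk tA tA F_507 = true := by decide +kernel

def r_507_0 : chkL rootF engF2 tA tA sA_222 sA_222 4 F_507 [(255, 0, 0), (256, 0, 23)]
    0x433434352389c0d42d = true := by
  decide +kernel

def r_507_1 : chkL rootF engF2 tA tA sA_222 sA_222 4 F_507 [(256, 23, 0)]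
    0x42d0cc4b0d87403c2703c2709c8b = true := by
  decide +kernel

theorem f_507 (h : TabsF) : FrameF repsF 222 F_507.f :=
  frame_of rfl c_507 ((runs_of engOK r_507_0).append (runs_of engOK r_507_1)) (by decide +kernel) h.1 h.1

def F_508 : FrX :=
  ⟨0x482000044040440000c2040020009000182040020001042000080140014050004080200028012000e024004020104002800082800006200000048000c2,
    0xa0, 1, 0x105365718196a0, 7,
    [(0xa0, 1), (0x538690a2, 4), (0x548790a1, 4), (0x21437690, 4), (0x538690a2, 4), (0x548790a1, 4)],
    [(0x105365718196a0, 7), (0x316597a2, 4), (0x316470a8, 4), (0x31548290, 4), (0x316597a2, 4), (0x316470a8, 4)]⟩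

def c_508 : frmChk tA tA F_508 = true := by decide +kernel

def r_508_0 : chkL rootF engF2 tA tA sA_222 sA_222 4 F_508 [(255, 0, 0), (256, 0, 20)]
    0x106c59 = true := by
  decide +kernel

def r_508_1 : chkL rootF engF2 tA tA sA_222 sA_222 4 F_508 [(256, 20, 0)]
    0x1 = true := by
  decide +kernel

theorem f_508 (h : TabsF) : FrameF repsF 222 F_508.f :=
  frame_of rfl c_508 ((runs_of engOK r_508_0).append (runs_of engOK r_508_1)) (by decide +kernel) h.1 h.1

def F_509 : FrX :=
  ⟨0x80080a000804040e00002101002001000002040881081000044030002000080600122020002020010048801c00200800300102048082801100002020002,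
    0xa6, 1, 0x304060758396a0, 7,
    [(0xa6, 1), (0x205396a8, 4), (0x10548796, 4), (0x214396a7, 4), (0x205396a8, 4), (0x10548796, 4)],
    [(0x304060758396a0, 7), (0x648790a2, 4), (0x506473a1, 4), (0x21648395, 4), (0x648790a2, 4), (0x506473a1, 4)]⟩

def c_509 : frmChk tA tA F_509 = true := by decide +kernel

def r_509_0 : chkL rootF engF2 tA tA sA_222 sA_222 4 F_509 [(255, 0, 0), (256, 0, 23)]
    0x45c11c870da4682e4a170471393811c5a09cc509c8703c0f = true := by
  decide +kernel

def r_509_1 : chkL rootF engF2 tA tA sA_222 sA_222 4 F_509 [(256, 23, 0)]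
    0x44e03c8e5274842e0bc2865238cc7804e = true := by
  decide +kernel

theorem f_509 (h : TabsF) : FrameF repsF 222 F_509.f :=
  frame_of rfl c_509 ((runs_of engOK r_509_0).append (runs_of engOK r_509_1)) (by decide +kernel) h.1 h.1

def F_510 : FrX :=
  ⟨0x482000044040440000c204002000900018204002000044800008022008024810001020010101011200040048c020040201011001010204040104010002,
    0xa0, 1, 0x105163718698a0, 7,
    [(0xa0, 1), (0x538690a2, 4), (0x548790a1, 4), (0x21437690, 4), (0x538690a2, 4), (0x548790a1, 4)],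
    [(0x105163718698a0, 7), (0x316098a2, 4), (0x314095a7, 4), (0x31647285, 4), (0x316098a2, 4), (0x314095a7, 4)]⟩

def c_510 : frmChk tA tA F_510 = true := by decide +kernel

def r_510_0 : chkL rootF engF2 tA tA sA_222 sA_222 4 F_510 [(255, 0, 0), (256, 0, 14)]
    0x10741e07b1406c4e = true := by
  decide +kernel

def r_510_1 : chkL rootF engF2 tA tA sA_222 sA_222 4 F_510 [(256, 14, 15)]
    0x43a03c4742d8a23591e40350d435 = true := by
  decide +kernel

def r_510_2 : chkL rootF engF2 tA tA sA_222 sA_222 4 F_510 [(256, 29, 0)]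
    0x40f81c2b4582b81c3c85b140751c21e8309d26 = true := by
  decide +kernel

theorem f_510 (h : TabsF) : FrameF repsF 222 F_510.f :=
  frame_of rfl c_510 ((runs_of engOK r_510_0).append ((runs_of engOK r_510_1).append (runs_of engOK r_510_2))) (by decide +kernel) h.1 h.1

def F_511 : FrX :=
  ⟨0x482000044040440000c2040020009000182040002024002001080100040800804440100a02400280004020082208800010002040600100901020200600,
    0xa0, 1, 0x10214350728197a3, 8,
    [(0xa0, 1), (0x538690a2, 4), (0x548790a1, 4), (0x21437690, 4), (0x538690a2, 4), (0x548790a1, 4)],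
    [(0x10214350728197a3, 8), (0x406275a1, 4), (0x31408592, 4), (0x408796a3, 4), (0x406275a1, 4), (0x31408592, 4)]⟩

def c_511 : frmChk tA tA F_511 = true := by decide +kernel

def r_511_0 : chkL rootF engF2 tA tA sA_222 sA_222 4 F_511 [(255, 0, 0), (256, 0, 24)]
    0x106c1705c2e0782703ce23902e074b409c1e = true := by
  decide +kernel

def r_511_1 : chkL rootF engF2 tA tA sA_222 sA_222 4 F_511 [(256, 24, 0)]
    0x11685a05c1b0b58a4a9c12398a05c2b1685a1545a078360781e03c6605c17 = true := by
  decide +kernel

theorem f_511 (h : TabsF) : FrameF repsF 222 F_511.f :=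
  frame_of rfl c_511 ((runs_of engOK r_511_0).append (runs_of engOK r_511_1)) (by decide +kernel) h.1 h.1

def F_512 : FrX :=
  ⟨0x80080a000804040e00002101002001000002040882230001010020400004004040880050200208000808001012204801820002044010082500080220000,
    0xa6, 1, 0x1041617687a6, 6,
    [(0xa6, 1), (0x205396a8, 4), (0x10548796, 4), (0x214396a7, 4), (0x205396a8, 4), (0x10548796, 4)],
    [(0x1041617687a6, 6), (0x215397a4, 4), (0x50618497, 4), (0x306297a8, 4), (0x215397a4, 4), (0x50618497, 4)]⟩

def c_512 : frmChk tA tA F_512 = true := by decide +kernel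

def r_512_0 : chkL rootF engF2 tA tA sA_222 sA_222 4 F_512 [(255, 0, 0), (256, 0, 23)]
    0x122d8560c2e388592e033 = true := by
  decide +kernel

def r_512_1 : chkL rootF engF2 tA tA sA_222 sA_222 4 F_512 [(256, 23, 0)]
    0x55403c5c = true := by
  decide +kernel

theorem f_512 (h : TabsF) : FrameF repsF 222 F_512.f :=
  frame_of rfl c_512 ((runs_of engOK r_512_0).append (runs_of engOK r_512_1)) (by decide +kernel) h.1 h.1

def F_513 : FrX :=
  ⟨0x1c2102000004044000002041000101000082040884200080002022000004024040401110100208600800101012220801804002044010002500110008000,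
    0x0, 0, 0x102075, 3,
    [(0x0, 0), (0x205386a9, 4), (0x105487a9, 4), (0x214376a9, 4), (0x205386a9, 4), (0x105487a9, 4)],
    [(0x102075, 3), (0x217386a9, 4), (0x207485a9, 4), (0x104365a9, 4), (0x217386a9, 4), (0x207485a9, 4)]⟩

def c_513 : frmChk tA tA F_513 = true := by decide +kernel

def r_513_0 : chkL rootF engF2 tA tA sA_222 sA_222 4 F_513 [(255, 0, 0), (256, 0, 8)]
    0x58c22c4d = true := by
  decide +kernel

def r_513_1 : chkL rootF engF2 tA tA sA_222 sA_222 4 F_513 [(256, 8, 3)]
    0x5856901d = true := by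
  decide +kernel

def r_513_2 : chkL rootF engF2 tA tA sA_222 sA_222 4 F_513 [(256, 11, 6)]
    0x116592 = true := by
  decide +kernel

def r_513_3 : chkL rootF engF2 tA tA sA_222 sA_222 4 F_513 [(256, 17, 7)]
    0x427 = true := by
  decide +kernel

def r_513_4 : chkL rootF engF2 tA tA sA_222 sA_222 4 F_513 [(256, 24, 5)]
    0x43a = true := by
  decide +kernel

def r_513_5 : chkL rootF engF2 tA tA sA_222 sA_222 4 F_513 [(256, 29, 6)]
    0x1 = true := by
  decide +kernel

def r_513_6 : chkL rootF engF2 tA tA sA_222 sA_222 4 F_513 [(256, 35, 0)]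
    0x1 = true := by
  decide +kernel

theorem f_513 (h : TabsF) : FrameF repsF 222 F_513.f :=
  frame_of rfl c_513 ((runs_of engOK r_513_0).append ((runs_of engOK r_513_1).append ((runs_of engOK r_513_2).append ((runs_of engOK r_513_3).append ((runs_of engOK r_513_4).append ((runs_of engOK r_513_5).append (runs_of engOK r_513_6))))))) (by decide +kernel) h.1 h.1

def F_514 : FrX :=
  ⟨0x482000044040440000c204002000900018204000088104000202080005801001000050202800020800040080221080a080082110080400100802800440,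
    0xa0, 1, 0x21318798a5, 5,
    [(0xa0, 1), (0x538690a2, 4), (0x548790a1, 4), (0x21437690, 4), (0x538690a2, 4), (0x548790a1, 4)],
    [(0x21318798a5, 5), (0x107596a2, 4), (0x307598a4, 4), (0x31427586, 4), (0x107596a2, 4), (0x307598a4, 4)]⟩

def c_514 : frmChk tA tA F_514 = true := by decide +kernel

def r_514_0 : chkL rootF engF2 tA tA sA_222 sA_222 4 F_514 [(255, 0, 0), (256, 0, 24)]
    0x41e05c2d = true := by
  decide +kernel

def r_514_1 : chkL rootF engF2 tA tA sA_222 sA_222 4 F_514 [(256, 24, 0)]
    0x41d09c0f = true := by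
  decide +kernel

theorem f_514 (h : TabsF) : FrameF repsF 222 F_514.f :=
  frame_of rfl c_514 ((runs_of engOK r_514_0).append (runs_of engOK r_514_1)) (by decide +kernel) h.1 h.1

def F_515 : FrX :=
  ⟨0x482000044040440000c2040020009000182040010130008008000084000108110820020082020000811040201000400244204040450120004000080048,
    0xa0, 1, 0x2042526387a8, 6,
    [(0xa0, 1), (0x538690a2, 4), (0x548790a1, 4), (0x21437690, 4), (0x538690a2, 4), (0x548790a1, 4)],
    [(0x2042526387a8, 6), (0x526497a3, 4), (0x214097a8, 4), (0x51608397, 4), (0x526497a3, 4), (0x214097a8, 4)]⟩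

def c_515 : frmChk tA tA F_515 = true := by decide +kernel

def r_515_0 : chkL rootF engF2 tA tA sA_222 sA_222 4 F_515 [(255, 0, 0), (256, 0, 11)]
    0x40f05cca06c0f0e80f = true := by
  decide +kernel

def r_515_1 : chkL rootF engF2 tA tA sA_222 sA_222 4 F_515 [(256, 11, 19)]
    0x1328d8b406a06c2709c1715495 = true := by
  decide +kernel

def r_515_2 : chkL rootF engF2 tA tA sA_222 sA_222 4 F_515 [(256, 30, 0)]
    0x40f03c0f12c178560d83a1c03c958d06a4d11c4d12549724 = true := by
  decide +kernel

theorem f_515 (h : TabsF) : FrameF repsF 222 F_515.f :=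
  frame_of rfl c_515 ((runs_of engOK r_515_0).append ((runs_of engOK r_515_1).append (runs_of engOK r_515_2))) (by decide +kernel) h.1 h.1

def F_516 : FrX :=
  ⟨0x482000044040440000c2040020009000182040020000500800320010014044000080400400620220801810100001802000082120108000002900010410,
    0xa0, 1, 0x103042537496a8, 7,
    [(0xa0, 1), (0x538690a2, 4), (0x548790a1, 4), (0x21437690, 4), (0x538690a2, 4), (0x548790a1, 4)],
    [(0x103042537496a8, 7), (0x435186a9, 4), (0x307186a2, 4), (0x40758692, 4), (0x435186a9, 4), (0x307186a2, 4)]⟩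

def c_516 : frmChk tA tA F_516 = true := by decide +kernel

def r_516_0 : chkL rootF engF2 tA tA sA_222 sA_222 4 F_516 [(255, 0, 0), (256, 0, 22)]
    0x11645303c8e0745c0f05503c5909c270b866 = true := by
  decide +kernel

def r_516_1 : chkL rootF engF2 tA tA sA_222 sA_222 4 F_516 [(256, 22, 0)]
    0x5c40742d05e3118e4aa1a23a886618e8590ec188ea2 = true := by
  decide +kernel

theorem f_516 (h : TabsF) : FrameF repsF 222 F_516.f :=
  frame_of rfl c_516 ((runs_of engOK r_516_0).append (runs_of engOK r_516_1)) (by decide +kernel) h.1 h.1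

def F_517 : FrX :=
  ⟨0x482000044040440000c204002000900018204001002002800800003004003038002000080404028000018008100810001402000509040001402000c204,
    0xa0, 1, 0x102143517493a6, 7,
    [(0xa0, 1), (0x538690a2, 4), (0x548790a1, 4), (0x21437690, 4), (0x538690a2, 4), (0x548790a1, 4)],
    [(0x102143517493a6, 7), (0x106492a8, 4), (0x51647283, 4), (0x506497a3, 4), (0x106492a8, 4), (0x51647283, 4)]⟩

def c_517 : frmChk tA tA F_517 = true := by decide +kernel

def r_517_0 : chkL rootF engF2 tA tA sA_222 sA_222 4 F_517 [(255, 0, 0), (256, 0, 17)]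
    0x41705c170781d0781e0781e22ec492649926c8 = true := by
  decide +kernel

def r_517_1 : chkL rootF engF2 tA tA sA_222 sA_222 4 F_517 [(256, 17, 14)]
    0x105c3605c27 = true := by
  decide +kernel

def r_517_2 : chkL rootF engF2 tA tA sA_222 sA_222 4 F_517 [(256, 31, 0)]
    0x10782b30c2eb041d074c30bac10741d07519c25512d01b84c5507519c25512d01b84c55 = true := by
  decide +kernel

theorem f_517 (h : TabsF) : FrameF repsF 222 F_517.f :=
  frame_of rfl c_517 ((runs_of engOK r_517_0).append ((runs_of engOK r_517_1).append (runs_of engOK r_517_2))) (by decide +kernel) h.1 h.1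

theorem cl_222 (h : TabsF) : ∀ f ∈ fr_222, FrameF repsF 222 f :=
  List.forall_mem_cons.2 ⟨f_490 h, List.forall_mem_cons.2 ⟨f_491 h, List.forall_mem_cons.2 ⟨f_492 h, List.forall_mem_cons.2 ⟨f_493 h, List.forall_mem_cons.2 ⟨f_494 h, List.forall_mem_cons.2 ⟨f_495 h, List.forall_mem_cons.2 ⟨f_496 h, List.forall_mem_cons.2 ⟨f_497 h, List.forall_mem_cons.2 ⟨f_498 h, List.forall_mem_cons.2 ⟨f_499 h, List.forall_mem_cons.2 ⟨f_500 h, List.forall_mem_cons.2 ⟨f_501 h, List.forall_mem_cons.2 ⟨f_502 h, List.forall_mem_cons.2 ⟨f_503 h, List.forall_mem_cons.2 ⟨f_504 h, List.forall_mem_cons.2 ⟨f_505 h, List.forall_mem_cons.2 ⟨f_506 h, List.forall_mem_cons.2 ⟨f_507 h, List.forall_mem_cons.2 ⟨f_508 h, List.forall_mem_cons.2 ⟨f_509 h, List.forall_mem_cons.2 ⟨f_510 h, List.forall_mem_cons.2 ⟨f_511 h, List.forall_mem_cons.2 ⟨f_512 h, List.forall_mem_cons.2 ⟨f_513 h, List.forall_mem_cons.2 ⟨f_514 h, List.forall_mem_cons.2 ⟨f_515 h, List.forall_mem_cons.2 ⟨f_516 h, List.forall_mem_cons.2 ⟨f_517 h,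
    fun _ h0 => absurd h0 List.not_mem_nil⟩⟩⟩⟩⟩⟩⟩⟩⟩⟩⟩⟩⟩⟩⟩⟩⟩⟩⟩⟩⟩⟩⟩⟩⟩⟩⟩⟩

def F_518 : FrX :=
  ⟨0x2002000900044004000e02041000141000800040800802080a200041000140410400010100200808020200108220120011a40000404800080040000a4040,
    0xa3, 1, 0x104050637584a6, 7,
    [(0xa3, 1), (0x208693a5, 4), (0x10548793, 4), (0x217693a4, 4), (0x208693a5, 4), (0x10548793, 4)],
    [(0x104050637584a6, 7), (0x527693a1, 4), (0x41508793, 4), (0x208693a4, 4), (0x527693a1, 4), (0x41508793, 4)]⟩

def c_518 : frmChk tA tA F_518 = true := by decide +kernel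

def r_518_0 : chkL rootF engF2 tA tA sA_223 sA_223 4 F_518 [(255, 0, 0), (256, 0, 19)]
    0x43303c1b06c1b331510d827138390741d03c0f0741d = true := by
  decide +kernel

def r_518_1 : chkL rootF engF2 tA tA sA_223 sA_223 4 F_518 [(256, 19, 0)]
    0x4470d4a6a178412d0b11e8903c4e0cc17 = true := by
  decide +kernel

theorem f_518 (h : TabsF) : FrameF repsF 223 F_518.f :=
  frame_of rfl c_518 ((runs_of engOK r_518_0).append (runs_of engOK r_518_1)) (by decide +kernel) h.1 h.1

def F_519 : FrX :=
  ⟨0x80080a000804040e0000210100200100000204088060000810e400000010000049080410040080002030320120001602004008020410208002042000010,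
    0xa6, 1, 0x10213042738494a3, 8,
    [(0xa6, 1), (0x205396a8, 4), (0x10548796, 4), (0x214396a7, 4), (0x205396a8, 4), (0x10548796, 4)],
    [(0x10213042738494a3, 8), (0x436087a5, 4), (0x10328795, 4), (0x426187a9, 4), (0x436087a5, 4), (0x10328795, 4)]⟩

def c_519 : frmChk tA tA F_519 = true := by decide +kernel

def r_519_0 : chkL rootF engF2 tA tA sA_223 sA_223 4 F_519 [(255, 0, 0), (256, 0, 24)]
    0x106c0fa44568350b235892981d1a8e21d146780391340f2381d0744d330d40b42762472 = true := by
  decide +kernel

def r_519_1 : chkL rootF engF2 tA tA sA_223 sA_223 4 F_519 [(256, 24, 0)]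
    0x44b03c0f06c5606e54d401b03c6a1350e2541b09c4b1381d074c312c1b2705c = true := by
  decide +kernel

theorem f_519 (h : TabsF) : FrameF repsF 223 F_519.f :=
  frame_of rfl c_519 ((runs_of engOK r_519_0).append (runs_of engOK r_519_1)) (by decide +kernel) h.1 h.1

def F_520 : FrX :=
  ⟨0x2002000900044004000e0204100014100080004081000001810100410290200020010010400200848002014020c031000000820010840000444210008200,
    0xa3, 1, 0x203150647694a6, 7,
    [(0xa3, 1), (0x208693a5, 4), (0x10548793, 4), (0x217693a4, 4), (0x208693a5, 4), (0x10548793, 4)],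
    [(0x203150647694a6, 7), (0x215076a8, 4), (0x53768492, 4), (0x307691a4, 4), (0x215076a8, 4), (0x53768492, 4)]⟩

def c_520 : frmChk tA tA F_520 = true := by decide +kernel

def r_520_0 : chkL rootF engF2 tA tA sA_223 sA_223 4 F_520 [(255, 0, 0), (256, 0, 22)]
    0x10e88706c8793017 = true := by
  decide +kernel

def r_520_1 : chkL rootF engF2 tA tA sA_223 sA_223 4 F_520 [(256, 22, 0)]
    0x42d1941705c1b0e4170f01d60e2a = true := by
  decide +kernel

theorem f_520 (h : TabsF) : FrameF repsF 223 F_520.f :=
  frame_of rfl c_520 ((runs_of engOK r_520_0).append (runs_of engOK r_520_1)) (by decide +kernel) h.1 h.1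

def F_521 : FrX :=
  ⟨0x482000044040440000c204002000900018204001001004120080081008040820801001000004810200081088011a000134002004080002040800010410,
    0xa0, 1, 0x314285a0, 4,
    [(0xa0, 1), (0x538690a2, 4), (0x548790a1, 4), (0x21437690, 4), (0x538690a2, 4), (0x548790a1, 4)],
    [(0x314285a0, 4), (0x658190a4, 4), (0x758290a3, 4), (0x21437690, 4), (0x658190a4, 4), (0x758290a3, 4)]⟩

def c_521 : frmChk tA tA F_521 = true := by decide +kernel

def r_521_0 : chkL rootF engF2 tA tA sA_223 sA_223 4 F_521 [(255, 0, 0), (256, 0, 22)]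
    0x103c1d2d146d081b = true := by
  decide +kernel

def r_521_1 : chkL rootF engF2 tA tA sA_223 sA_223 4 F_521 [(256, 22, 22)]
    0x118c1d06c1b = true := by
  decide +kernel

def r_521_2 : chkL rootF engF2 tA tA sA_223 sA_223 4 F_521 [(256, 44, 0)]
    0x1 = true := by
  decide +kernel

theorem f_521 (h : TabsF) : FrameF repsF 223 F_521.f :=
  frame_of rfl c_521 ((runs_of engOK r_521_0).append ((runs_of engOK r_521_1).append (runs_of engOK r_521_2))) (by decide +kernel) h.1 h.1

def F_522 : FrX :=
  ⟨0x2002000900044004000e020410001410008000408010020202310001000040410402010100200408020200120260142010800080804400080042000a0040,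
    0xa3, 1, 0x102152617494a8, 7,
    [(0xa3, 1), (0x208693a5, 4), (0x10548793, 4), (0x217693a4, 4), (0x208693a5, 4), (0x10548793, 4)],
    [(0x102152617494a8, 7), (0x305187a2, 4), (0x618790a4, 4), (0x42658793, 4), (0x305187a2, 4), (0x618790a4, 4)]⟩

def c_522 : frmChk tA tA F_522 = true := by decide +kernel

def r_522_0 : chkL rootF engF2 tA tA sA_223 sA_223 4 F_522 [(255, 0, 0), (256, 0, 15)]
    0x109c1d0d40f0750e = true := by
  decide +kernel

def r_522_1 : chkL rootF engF2 tA tA sA_223 sA_223 4 F_522 [(256, 15, 14)]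
    0x11b00f0f0952a8271ca32155160b43ab06c40741b06c336c072 = true := by
  decide +kernel

def r_522_2 : chkL rootF engF2 tA tA sA_223 sA_223 4 F_522 [(256, 29, 15)]
    0x103cc30b42711f03e084b = true := by
  decide +kernel

def r_522_3 : chkL rootF engF2 tA tA sA_223 sA_223 4 F_522 [(256, 44, 0)]
    0x1 = true := by
  decide +kernel

theorem f_522 (h : TabsF) : FrameF repsF 223 F_522.f :=
  frame_of rfl c_522 ((runs_of engOK r_522_0).append ((runs_of engOK r_522_1).append ((runs_of engOK r_522_2).append (runs_of engOK r_522_3)))) (by decide +kernel) h.1 h.1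

def F_523 : FrX :=
  ⟨0x482000044040440000c20400200090001820400011010020200008050001820086000010280010000400110121a8008004008202280082100010800002,
    0xa0, 1, 0x4253608197a0, 6,
    [(0xa0, 1), (0x538690a2, 4), (0x548790a1, 4), (0x21437690, 4), (0x538690a2, 4), (0x548790a1, 4)],
    [(0x4253608197a0, 6), (0x105376a4, 4), (0x327691a8, 4), (0x52768490, 4), (0x105376a4, 4), (0x327691a8, 4)]⟩

def c_523 : frmChk tA tA F_523 = true := by decide +kernel

def r_523_0 : chkL rootF engF2 tA tA sA_223 sA_223 4 F_523 [(255, 0, 0), (256, 0, 22)]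
    0x10f08e11c2b0e83a61bc0619c41590744d16 = true := by
  decide +kernel

def r_523_1 : chkL rootF engF2 tA tA sA_223 sA_223 4 F_523 [(256, 22, 0)]
    0x13264a316c109c27916c10781e0b9a103c3c22e8309e134691511d16 = true := by
  decide +kernel

theorem f_523 (h : TabsF) : FrameF repsF 223 F_523.f :=
  frame_of rfl c_523 ((runs_of engOK r_523_0).append (runs_of engOK r_523_1)) (by decide +kernel) h.1 h.1

def F_524 : FrX :=
  ⟨0x482000044040440000c20400200090001820400010090120042000040800820082020010280010200000104180ac068000008202000082002210800002,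
    0xa0, 1, 0x314252637184a0, 7,
    [(0xa0, 1), (0x538690a2, 4), (0x548790a1, 4), (0x21437690, 4), (0x538690a2, 4), (0x548790a1, 4)],
    [(0x314252637184a0, 7), (0x216490a5, 4), (0x328490a7, 4), (0x31758690, 4), (0x216490a5, 4), (0x328490a7, 4)]⟩

def c_524 : frmChk tA tA F_524 = true := by decide +kernel

def r_524_0 : chkL rootF engF2 tA tA sA_223 sA_223 4 F_524 [(255, 0, 0), (256, 0, 21)]
    0x50d4370903dc1b05c1f00350b4c903d2c6a01d = true := by
  decide +kernel

def r_524_1 : chkL rootF engF2 tA tA sA_223 sA_223 4 F_524 [(256, 21, 0)]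
    0x41b03c4b81c2709c331c40f4651a = true := by
  decide +kernel

theorem f_524 (h : TabsF) : FrameF repsF 223 F_524.f :=
  frame_of rfl c_524 ((runs_of engOK r_524_0).append (runs_of engOK r_524_1)) (by decide +kernel) h.1 h.1

def F_525 : FrX :=
  ⟨0x2002000900044004000e02041000141000800040800800248020010008010c10040081010080020802300200500040040281018002200200400202024004,
    0xa3, 1, 0x215162748097a1, 7,
    [(0xa3, 1), (0x208693a5, 4), (0x10548793, 4), (0x217693a4, 4), (0x208693a5, 4), (0x10548793, 4)],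
    [(0x215162748097a1, 7), (0x10325486, 4), (0x547290a8, 4), (0x547391a6, 4), (0x10325486, 4), (0x547290a8, 4)]⟩

def c_525 : frmChk tA tA F_525 = true := by decide +kernel

def r_525_0 : chkL rootF engF2 tA tA sA_223 sA_223 4 F_525 [(255, 0, 0), (256, 0, 22)]
    0x11386c1641d2342e05c710b8338348da14350ac170cc2b = true := by
  decide +kernel

def r_525_1 : chkL rootF engF2 tA tA sA_223 sA_223 4 F_525 [(256, 22, 0)]
    0x10e41e078170d9922c50d6c0749c00f0f0170b83609c271c42b03c0f3882b03c1e = true := by
  decide +kernel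

theorem f_525 (h : TabsF) : FrameF repsF 223 F_525.f :=
  frame_of rfl c_525 ((runs_of engOK r_525_0).append (runs_of engOK r_525_1)) (by decide +kernel) h.1 h.1

def F_526 : FrX :=
  ⟨0x482000044040440000c204002000900018204002000110010008080401404120020200002208102002000c08482000a008020210000640100220000201,
    0xa0, 1, 0x20405160708193a6, 8,
    [(0xa0, 1), (0x538690a2, 4), (0x548790a1, 4), (0x21437690, 4), (0x538690a2, 4), (0x548790a1, 4)],
    [(0x20405160708193a6, 8), (0x437091a5, 4), (0x21436587, 4), (0x438092a6, 4), (0x437091a5, 4), (0x21436587, 4)]⟩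

def c_526 : frmChk tA tA F_526 = true := by decide +kernel

def r_526_0 : chkL rootF engF2 tA tA sA_223 sA_223 4 F_526 [(255, 0, 0), (256, 0, 20)]
    0x11641b0ad0b2983906d3482d1a06c1b234171721c8e0f0154390b42d = true := by
  decide +kernel

def r_526_1 : chkL rootF engF2 tA tA sA_223 sA_223 4 F_526 [(256, 20, 0)]
    0x106d680ac93296318946318c1d05c1b074360e439 = true := by
  decide +kernel

theorem f_526 (h : TabsF) : FrameF repsF 223 F_526.f :=
  frame_of rfl c_526 ((runs_of engOK r_526_0).append (runs_of engOK r_526_1)) (by decide +kernel) h.1 h.1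

def F_527 : FrX :=
  ⟨0x482000044040440000c2040020009000182040000410300804080200020802800080050100010102000208122010000210023008100242002200010210,
    0xa0, 1, 0x314254617382a0, 7,
    [(0xa0, 1), (0x538690a2, 4), (0x548790a1, 4), (0x21437690, 4), (0x538690a2, 4), (0x548790a1, 4)],
    [(0x314254617382a0, 7), (0x437290a8, 4), (0x415290a6, 4), (0x31758690, 4), (0x437290a8, 4), (0x415290a6, 4)]⟩

def c_527 : frmChk tA tA F_527 = true := by decide +kernel

def r_527_0 : chkL rootF engF2 tA tA sA_223 sA_223 4 F_527 [(255, 0, 0), (256, 0, 23)]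
    0x42b0d81d434361a40f0ac2b05c2b168361640f1380f0d48e = true := by
  decide +kernel

def r_527_1 : chkL rootF engF2 tA tA sA_223 sA_223 4 F_527 [(256, 23, 0)]
    0x106c2748cac = true := by
  decide +kernel

theorem f_527 (h : TabsF) : FrameF repsF 223 F_527.f :=
  frame_of rfl c_527 ((runs_of engOK r_527_0).append (runs_of engOK r_527_1)) (by decide +kernel) h.1 h.1

def F_528 : FrX :=
  ⟨0x80080a000804040e00002101002001000002040882080800050020400800082002026020002008608010040203000040242020022002022002011008200,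
    0xa6, 1, 0x1052648793a6, 6,
    [(0xa6, 1), (0x205396a8, 4), (0x10548796, 4), (0x214396a7, 4), (0x205396a8, 4), (0x10548796, 4)],
    [(0x1052648793a6, 6), (0x435192a7, 4), (0x10436287, 4), (0x435096a8, 4), (0x435192a7, 4), (0x10436287, 4)]⟩

def c_528 : frmChk tA tA F_528 = true := by decide +kernel

def r_528_0 : chkL rootF engF2 tA tA sA_223 sA_223 4 F_528 [(255, 0, 0), (256, 0, 20)]
    0x14b02b1381705c2d = true := by
  decide +kernel

def r_528_1 : chkL rootF engF2 tA tA sA_223 sA_223 4 F_528 [(256, 20, 13)]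
    0x43a0da548544d8d01d1b017 = true := by
  decide +kernel

def r_528_2 : chkL rootF engF2 tA tA sA_223 sA_223 4 F_528 [(256, 33, 0)]
    0x4561580f3506614c1b1a8781686c2c52909c170ac0f8a82b8343c = true := by
  decide +kernel

theorem f_528 (h : TabsF) : FrameF repsF 223 F_528.f :=
  frame_of rfl c_528 ((runs_of engOK r_528_0).append ((runs_of engOK r_528_1).append (runs_of engOK r_528_2))) (by decide +kernel) h.1 h.1

def F_529 : FrX :=
  ⟨0x482000044040440000c2040020009000182040000502000301080800000c08004820000902008202000008604010400010010006080442000c20200048,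
    0xa0, 1, 0x2132435381a0, 6,
    [(0xa0, 1), (0x538690a2, 4), (0x548790a1, 4), (0x21437690, 4), (0x538690a2, 4), (0x548790a1, 4)],
    [(0x2132435381a0, 6), (0x546290a3, 4), (0x417290a8, 4), (0x51768390, 4), (0x546290a3, 4), (0x417290a8, 4)]⟩

def c_529 : frmChk tA tA F_529 = true := by decide +kernel

def r_529_0 : chkL rootF engF2 tA tA sA_223 sA_223 4 F_529 [(255, 0, 0), (256, 0, 23)]
    0x1350590b41e0782e0f02e0f02e434ca41c2e4540f0e81e23915 = true := by
  decide +kernel

def r_529_1 : chkL rootF engF2 tA tA sA_223 sA_223 4 F_529 [(256, 23, 0)]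
    0x103c0f03c0f0783518c175502e9841e0e4393443a2d0590b44b50c6c3141e0781e5a02e = true := by
  decide +kernel

theorem f_529 (h : TabsF) : FrameF repsF 223 F_529.f :=
  frame_of rfl c_529 ((runs_of engOK r_529_0).append (runs_of engOK r_529_1)) (by decide +kernel) h.1 h.1

def F_530 : FrX :=
  ⟨0x2002000900044004000e02041000141000800040808000208c2000011001210820002000110000900840001110040084810500a000880800000802021010,
    0xa3, 1, 0x405463748596a6, 7,
    [(0xa3, 1), (0x208693a5, 4), (0x10548793, 4), (0x217693a4, 4), (0x208693a5, 4), (0x10548793, 4)],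
    [(0x405463748596a6, 7), (0x428693a0, 4), (0x41508793, 4), (0x217693a5, 4), (0x428693a0, 4), (0x41508793, 4)]⟩

def c_530 : frmChk tA tA F_530 = true := by decide +kernel

def r_530_0 : chkL rootF engF2 tA tA sA_223 sA_223 4 F_530 [(255, 0, 0), (256, 0, 21)]
    0x4172350d06c1d05c170ac990ba8924e91 = true := by
  decide +kernel

def r_530_1 : chkL rootF engF2 tA tA sA_223 sA_223 4 F_530 [(256, 21, 0)]
    0x11661a1b06a0d8171381b = true := by
  decide +kernel

theorem f_530 (h : TabsF) : FrameF repsF 223 F_530.f :=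
  frame_of rfl c_530 ((runs_of engOK r_530_0).append (runs_of engOK r_530_1)) (by decide +kernel) h.1 h.1

def F_531 : FrX :=
  ⟨0x80080a000804040e000021010020010000020408900800003040105002200080080140010080084080028c1000410808040048022000402100880200080,
    0xa6, 1, 0x3151647596a8, 6,
    [(0xa6, 1), (0x205396a8, 4), (0x10548796, 4), (0x214396a7, 4), (0x205396a8, 4), (0x10548796, 4)],
    [(0x3151647596a8, 6), (0x207184a9, 4), (0x507684a3, 4), (0x52618493, 4), (0x207184a9, 4), (0x507684a3, 4)]⟩

def c_531 : frmChk tA tA F_531 = true := by decide +kernel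

def r_531_0 : chkL rootF engF2 tA tA sA_223 sA_223 4 F_531 [(255, 0, 0), (256, 0, 20)]
    0x105c1711c65 = true := by
  decide +kernel

def r_531_1 : chkL rootF engF2 tA tA sA_223 sA_223 4 F_531 [(256, 20, 0)]
    0x116853 = true := by
  decide +kernel

theorem f_531 (h : TabsF) : FrameF repsF 223 F_531.f :=
  frame_of rfl c_531 ((runs_of engOK r_531_0).append (runs_of engOK r_531_1)) (by decide +kernel) h.1 h.1

def F_532 : FrX :=
  ⟨0x80080a000804040e00002101002001000002040882020401008088020810001001004060002008080024e00080200403100042030002200500020020200,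
    0xa6, 1, 0x315163728292a5, 7,
    [(0xa6, 1), (0x205396a8, 4), (0x10548796, 4), (0x214396a7, 4), (0x205396a8, 4), (0x10548796, 4)],
    [(0x315163728292a5, 7), (0x718390a6, 4), (0x507283a4, 4), (0x21648395, 4), (0x718390a6, 4), (0x507283a4, 4)]⟩

def c_532 : frmChk tA tA F_532 = true := by decide +kernel

def r_532_0 : chkL rootF engF2 tA tA sA_223 sA_223 4 F_532 [(255, 0, 0), (256, 0, 14)]
    0x42b5885a0ac4b236c1 = true := by
  decide +kernel

def r_532_1 : chkL rootF engF2 tA tA sA_223 sA_223 4 F_532 [(256, 14, 14)]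
    0x1154470b8b11362381c741705a = true := by
  decide +kernel

def r_532_2 : chkL rootF engF2 tA tA sA_223 sA_223 4 F_532 [(256, 28, 0)]
    0x41b03e3206c592384e3282e14da11655203c4e = true := by
  decide +kernel

theorem f_532 (h : TabsF) : FrameF repsF 223 F_532.f :=
  frame_of rfl c_532 ((runs_of engOK r_532_0).append ((runs_of engOK r_532_1).append (runs_of engOK r_532_2))) (by decide +kernel) h.1 h.1

def F_533 : FrX :=
  ⟨0x2002000900044004000e020410001410008000408100000422100001108010412001080040020a020a000182000050000280090040080010044100210280,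
    0xa3, 1, 0x4362708591a3, 6,
    [(0xa3, 1), (0x208693a5, 4), (0x10548793, 4), (0x217693a4, 4), (0x208693a5, 4), (0x10548793, 4)],
    [(0x4362708591a3, 6), (0x415276a8, 4), (0x41508397, 4), (0x204196a3, 4), (0x415276a8, 4), (0x41508397, 4)]⟩

def c_533 : frmChk tA tA F_533 = true := by decide +kernel

def r_533_0 : chkL rootF engF2 tA tA sA_223 sA_223 4 F_533 [(255, 0, 0), (256, 0, 23)]
    0x4170ac3c11c3915435 = true := by
  decide +kernel

def r_533_1 : chkL rootF engF2 tA tA sA_223 sA_223 4 F_533 [(256, 23, 0)]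
    0x46c0aec415436074364641e079162d00f42c1b30e492e2682688d = true := by
  decide +kernel

theorem f_533 (h : TabsF) : FrameF repsF 223 F_533.f :=
  frame_of rfl c_533 ((runs_of engOK r_533_0).append (runs_of engOK r_533_1)) (by decide +kernel) h.1 h.1

theorem cl_223 (h : TabsF) : ∀ f ∈ fr_223, FrameF repsF 223 f :=
  List.forall_mem_cons.2 ⟨f_518 h, List.forall_mem_cons.2 ⟨f_519 h, List.forall_mem_cons.2 ⟨f_520 h, List.forall_mem_cons.2 ⟨f_521 h, List.forall_mem_cons.2 ⟨f_522 h, List.forall_mem_cons.2 ⟨f_523 h, List.forall_mem_cons.2 ⟨f_524 h, List.forall_mem_cons.2 ⟨f_525 h, List.forall_mem_cons.2 ⟨f_526 h, List.forall_mem_cons.2 ⟨f_527 h, List.forall_mem_cons.2 ⟨f_528 h, List.forall_mem_cons.2 ⟨f_529 h, List.forall_mem_cons.2 ⟨f_530 h, List.forall_mem_cons.2 ⟨f_531 h, List.forall_mem_cons.2 ⟨f_532 h, List.forall_mem_cons.2 ⟨f_533 h,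
    fun _ h0 => absurd h0 List.not_mem_nil⟩⟩⟩⟩⟩⟩⟩⟩⟩⟩⟩⟩⟩⟩⟩⟩

def F_534 : FrX :=
  ⟨0x80080a000804040e00002101002001000002040882020401008081000810001001084060002008080024e00080200082100042030002201500020020200,
    0xa6, 1, 0x3260748195a6, 6,
    [(0xa6, 1), (0x205396a8, 4), (0x10548796, 4), (0x214396a7, 4), (0x205396a8, 4), (0x10548796, 4)],
    [(0x3260748195a6, 6), (0x506392a1, 4), (0x41508697, 4), (0x507283a4, 4), (0x506392a1, 4), (0x41508697, 4)]⟩

def c_534 : frmChk tA tA F_534 = true := by decide +kernel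

def r_534_0 : chkL rootF engF2 tA tA sA_224 sA_224 4 F_534 [(255, 0, 0), (256, 0, 22)]
    0x11a4391b00f = true := by
  decide +kernel

def r_534_1 : chkL rootF engF2 tA tA sA_224 sA_224 4 F_534 [(256, 22, 0)]
    0x1194590b82b0b4271712603c17 = true := by
  decide +kernel

theorem f_534 (h : TabsF) : FrameF repsF 224 F_534.f :=
  frame_of rfl c_534 ((runs_of engOK r_534_0).append (runs_of engOK r_534_1)) (by decide +kernel) h.1 h.1

def F_535 : FrX :=
  ⟨0x2002000900044004000e02041000141000800040800802080a200041000140410400010100200808020200108220000110840080404840080041000a4040,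
    0xa3, 1, 0x104050637584a6, 7,
    [(0xa3, 1), (0x208693a5, 4), (0x10548793, 4), (0x217693a4, 4), (0x208693a5, 4), (0x10548793, 4)],
    [(0x104050637584a6, 7), (0x527693a1, 4), (0x41508793, 4), (0x208693a4, 4), (0x527693a1, 4), (0x41508793, 4)]⟩

def c_535 : frmChk tA tA F_535 = true := by decide +kernel

def r_535_0 : chkL rootF engF2 tA tA sA_224 sA_224 4 F_535 [(255, 0, 0), (256, 0, 19)]
    0x44e03c0f06c2d0e6860d833 = true := by
  decide +kernel

def r_535_1 : chkL rootF engF2 tA tA sA_224 sA_224 4 F_535 [(256, 19, 0)]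
    0x4470cc17a244e = true := by
  decide +kernel

theorem f_535 (h : TabsF) : FrameF repsF 224 F_535.f :=
  frame_of rfl c_535 ((runs_of engOK r_535_0).append (runs_of engOK r_535_1)) (by decide +kernel) h.1 h.1

def F_536 : FrX :=
  ⟨0x80080a000804040e0000210100200100000204088060000810840008001040004908041004008000203032012000100200400a02041020c002042000010,
    0xa6, 1, 0x304351708197a2, 7,
    [(0xa6, 1), (0x205396a8, 4), (0x10548796, 4), (0x214396a7, 4), (0x205396a8, 4), (0x10548796, 4)],
    [(0x304351708197a2, 7), (0x324165a7, 4), (0x10328795, 4), (0x324096a8, 4), (0x324165a7, 4), (0x10328795, 4)]⟩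

def c_536 : frmChk tA tA F_536 = true := by decide +kernel

def r_536_0 : chkL rootF engF2 tA tA sA_224 sA_224 4 F_536 [(255, 0, 0), (256, 0, 18)]
    0x42b3302b22c660b41d30c6a12c5c0744e46916549164350e1705c198350d42d = true := by
  decide +kernel

def r_536_1 : chkL rootF engF2 tA tA sA_224 sA_224 4 F_536 [(256, 18, 12)]
    0x455170550ac270b493198691340f21d0b074530b82e48d2a14c2e = true := by
  decide +kernel

def r_536_2 : chkL rootF engF2 tA tA sA_224 sA_224 4 F_536 [(256, 30, 14)]
    0x10b8e281ca6a1847c282d = true := by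
  decide +kernel

def r_536_3 : chkL rootF engF2 tA tA sA_224 sA_224 4 F_536 [(256, 44, 0)]
    0x4cc35059330d4 = true := by
  decide +kernel

theorem f_536 (h : TabsF) : FrameF repsF 224 F_536.f :=
  frame_of rfl c_536 ((runs_of engOK r_536_0).append ((runs_of engOK r_536_1).append ((runs_of engOK r_536_2).append (runs_of engOK r_536_3)))) (by decide +kernel) h.1 h.1

def F_537 : FrX :=
  ⟨0x80080a000804040e000021010020010000020408806000081044004000210000488804100800400020281a082000101000200a02041020a002202000010,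
    0xa6, 1, 0x435261718796a3, 7,
    [(0xa6, 1), (0x205396a8, 4), (0x10548796, 4), (0x214396a7, 4), (0x205396a8, 4), (0x10548796, 4)],
    [(0x435261718796a3, 7), (0x415096a2, 4), (0x32417086, 4), (0x417598a3, 4), (0x415096a2, 4), (0x32417086, 4)]⟩

def c_537 : frmChk tA tA F_537 = true := by decide +kernel

def r_537_0 : chkL rootF engF2 tA tA sA_224 sA_224 4 F_537 [(255, 0, 0), (256, 0, 23)]
    0x41d94654074479145a9185cc442ec4a16c48781e05a1e2168aa1a85a0d83847c1a5409c2b11c2b1a85a = true := by
  decide +kernel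

def r_537_1 : chkL rootF engF2 tA tA sA_224 sA_224 4 F_537 [(256, 23, 0)]
    0x19284ed204d8d02e3305c09c171700f = true := by
  decide +kernel

theorem f_537 (h : TabsF) : FrameF repsF 224 F_537.f :=
  frame_of rfl c_537 ((runs_of engOK r_537_0).append (runs_of engOK r_537_1)) (by decide +kernel) h.1 h.1

def F_538 : FrX :=
  ⟨0x2002000900044004000e0204100014100080004081000001810100410080a00120010010400200848002014020c010080010820010840000444210008200,
    0xa3, 1, 0x5362718490a3, 6,
    [(0xa3, 1), (0x208693a5, 4), (0x10548793, 4), (0x217693a4, 4), (0x208693a5, 4), (0x10548793, 4)],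
    [(0x5362718490a3, 6), (0x425096a3, 4), (0x41508397, 4), (0x215076a8, 4), (0x425096a3, 4), (0x41508397, 4)]⟩

def c_538 : frmChk tA tA F_538 = true := by decide +kernel

def r_538_0 : chkL rootF engF2 tA tA sA_224 sA_224 4 F_538 [(255, 0, 0), (256, 0, 23)]
    0x49c0aea2525299a11c435296301d05c1d2688b4a42e06e3806c33 = true := by
  decide +kernel

def r_538_1 : chkL rootF engF2 tA tA sA_224 sA_224 4 F_538 [(256, 23, 0)]
    0x4360ac630ac4b0f0361c8c58a44d8c6380ac1b1381b = true := by
  decide +kernel

theorem f_538 (h : TabsF) : FrameF repsF 224 F_538.f :=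
  frame_of rfl c_538 ((runs_of engOK r_538_0).append (runs_of engOK r_538_1)) (by decide +kernel) h.1 h.1

def F_539 : FrX :=
  ⟨0x482000044040440000c204002000900018204001001004120080081008040820801001000004810200081088010801001400a004084002040900010410,
    0xa0, 1, 0x314285a0, 4,
    [(0xa0, 1), (0x538690a2, 4), (0x548790a1, 4), (0x21437690, 4), (0x538690a2, 4), (0x548790a1, 4)],
    [(0x314285a0, 4), (0x658190a4, 4), (0x758290a3, 4), (0x21437690, 4), (0x658190a4, 4), (0x758290a3, 4)]⟩

def c_539 : frmChk tA tA F_539 = true := by decide +kernel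

def r_539_0 : chkL rootF engF2 tA tA sA_224 sA_224 4 F_539 [(255, 0, 0), (256, 0, 22)]
    0x11683a0ac5a138ca06c1b06c2d = true := by
  decide +kernel

def r_539_1 : chkL rootF engF2 tA tA sA_224 sA_224 4 F_539 [(256, 22, 0)]
    0x1258363501714c1d = true := by
  decide +kernel

theorem f_539 (h : TabsF) : FrameF repsF 224 F_539.f :=
  frame_of rfl c_539 ((runs_of engOK r_539_0).append (runs_of engOK r_539_1)) (by decide +kernel) h.1 h.1

def F_540 : FrX :=
  ⟨0x482000044040440000c20400200090001820400010090120042000040800820082020010280010200000104180a0008000808282001082102210800002,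
    0xa0, 1, 0x314252637184a0, 7,
    [(0xa0, 1), (0x538690a2, 4), (0x548790a1, 4), (0x21437690, 4), (0x538690a2, 4), (0x548790a1, 4)],
    [(0x314252637184a0, 7), (0x216490a5, 4), (0x328490a7, 4), (0x31758690, 4), (0x216490a5, 4), (0x328490a7, 4)]⟩

def c_540 : frmChk tA tA F_540 = true := by decide +kernel

def r_540_0 : chkL rootF engF2 tA tA sA_224 sA_224 4 F_540 [(255, 0, 0), (256, 0, 22)]
    0x44b06c0f0780f1383509c95a501b = true := by
  decide +kernel

def r_540_1 : chkL rootF engF2 tA tA sA_224 sA_224 4 F_540 [(256, 22, 0)]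
    0x103c6c155a112c1e0783512e1a07827 = true := by
  decide +kernel

theorem f_540 (h : TabsF) : FrameF repsF 224 F_540.f :=
  frame_of rfl c_540 ((runs_of engOK r_540_0).append (runs_of engOK r_540_1)) (by decide +kernel) h.1 h.1

def F_541 : FrX :=
  ⟨0x2002000900044004000e02041000141000800040800800248020600008010c000400810100800208023002005000400402c5008002200200400002024004,
    0xa3, 1, 0x4150728396a3, 6,
    [(0xa3, 1), (0x208693a5, 4), (0x10548793, 4), (0x217693a4, 4), (0x208693a5, 4), (0x10548793, 4)],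
    [(0x4150728396a3, 6), (0x758693a0, 4), (0x10325486, 4), (0x748692a1, 4), (0x758693a0, 4), (0x10325486, 4)]⟩

def c_541 : frmChk tA tA F_541 = true := by decide +kernel

def r_541_0 : chkL rootF engF2 tA tA sA_224 sA_224 4 F_541 [(255, 0, 0), (256, 0, 21)]
    0x4d103e0b0e907c0e324720da148da14d11691a = true := by
  decide +kernel

def r_541_1 : chkL rootF engF2 tA tA sA_224 sA_224 4 F_541 [(256, 21, 0)]
    0x54903c2b168530741711e264a85c0e87803c47 = true := by
  decide +kernel

theorem f_541 (h : TabsF) : FrameF repsF 224 F_541.f :=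
  frame_of rfl c_541 ((runs_of engOK r_541_0).append (runs_of engOK r_541_1)) (by decide +kernel) h.1 h.1

def F_542 : FrX :=
  ⟨0x2002000900044004000e02041000141000800040801000282011a000008020020000222009020010202000c0408060848000082010800200202210082000,
    0xa3, 1, 0x1052648397a3, 6,
    [(0xa3, 1), (0x208693a5, 4), (0x10548793, 4), (0x217693a4, 4), (0x208693a5, 4), (0x10548793, 4)],
    [(0x1052648397a3, 6), (0x435187a2, 4), (0x10628793, 4), (0x508794a6, 4), (0x435187a2, 4), (0x10628793, 4)]⟩

def c_542 : frmChk tA tA F_542 = true := by decide +kernel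

def r_542_0 : chkL rootF engF2 tA tA sA_224 sA_224 4 F_542 [(255, 0, 0), (256, 0, 14)]
    0x109c1ec30660b82e03c5c03c871c88703c270f039ac02d4381b05dc8 = true := by
  decide +kernel

def r_542_1 : chkL rootF engF2 tA tA sA_224 sA_224 4 F_542 [(256, 14, 16)]
    0x4c39264307b180ac7111c171381d074551e04dc0d460741e06c8b06d461698aa32c44e02707471 = true := by
  decide +kernel

def r_542_2 : chkL rootF engF2 tA tA sA_224 sA_224 4 F_542 [(256, 30, 14)]
    0x4470cc6a0748b0e4395470909c1e6a03506c1b1541b55146b101e2989c53027648ca24c8b1c40f03c3c0f02d0741d = true := by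
  decide +kernel

def r_542_3 : chkL rootF engF2 tA tA sA_224 sA_224 4 F_542 [(256, 44, 0)]
    0x1 = true := by
  decide +kernel

theorem f_542 (h : TabsF) : FrameF repsF 224 F_542.f :=
  frame_of rfl c_542 ((runs_of engOK r_542_0).append ((runs_of engOK r_542_1).append ((runs_of engOK r_542_2).append (runs_of engOK r_542_3)))) (by decide +kernel) h.1 h.1

def F_543 : FrX :=
  ⟨0x482000044040440000c2040020009000182040000502000301080800000c080048200009020082020000086040104000100100062d0c00000800200048,
    0xa0, 1, 0x2132435381a0, 6,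
    [(0xa0, 1), (0x538690a2, 4), (0x548790a1, 4), (0x21437690, 4), (0x538690a2, 4), (0x548790a1, 4)],
    [(0x2132435381a0, 6), (0x546290a3, 4), (0x417290a8, 4), (0x51768390, 4), (0x546290a3, 4), (0x417290a8, 4)]⟩

def c_543 : frmChk tA tA F_543 = true := by decide +kernel

def r_543_0 : chkL rootF engF2 tA tA sA_224 sA_224 4 F_543 [(255, 0, 0), (256, 0, 23)]
    0x114cac6c10d2390d3c1a82c5b00ccaa238cc = true := by
  decide +kernel

def r_543_1 : chkL rootF engF2 tA tA sA_224 sA_224 4 F_543 [(256, 23, 0)]
    0x103c0f03f065285591646951541682e0b44d05c4d69047314ac = true := by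
  decide +kernel

theorem f_543 (h : TabsF) : FrameF repsF 224 F_543.f :=
  frame_of rfl c_543 ((runs_of engOK r_543_0).append (runs_of engOK r_543_1)) (by decide +kernel) h.1 h.1

theorem cl_224 (h : TabsF) : ∀ f ∈ fr_224, FrameF repsF 224 f :=
  List.forall_mem_cons.2 ⟨f_534 h, List.forall_mem_cons.2 ⟨f_535 h, List.forall_mem_cons.2 ⟨f_536 h, List.forall_mem_cons.2 ⟨f_537 h, List.forall_mem_cons.2 ⟨f_538 h, List.forall_mem_cons.2 ⟨f_539 h, List.forall_mem_cons.2 ⟨f_540 h, List.forall_mem_cons.2 ⟨f_541 h, List.forall_mem_cons.2 ⟨f_542 h, List.forall_mem_cons.2 ⟨f_543 h,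
    fun _ h0 => absurd h0 List.not_mem_nil⟩⟩⟩⟩⟩⟩⟩⟩⟩⟩

/-- the classes finished in this module -/
theorem all_L07 (h : TabsF) : ∀ p ∈ ([(216, fr_216), (217, fr_217), (218, fr_218), (219, fr_219), (220, fr_220), (221, fr_221), (222, fr_222), (223, fr_223), (224, fr_224)] : List (ℕ × List ℕ)),
    ∀ f ∈ p.2, FrameF repsF p.1 f :=
  List.forall_mem_cons.2 ⟨cl_216 h, List.forall_mem_cons.2 ⟨cl_217 h, List.forall_mem_cons.2 ⟨cl_218 h, List.forall_mem_cons.2 ⟨cl_219 h, List.forall_mem_cons.2 ⟨cl_220 h, List.forall_mem_cons.2 ⟨cl_221 h, List.forall_mem_cons.2 ⟨cl_222 h, List.forall_mem_cons.2 ⟨cl_223 h, List.forall_mem_cons.2 ⟨cl_224 h, fun _ h0 => absurd h0 List.not_mem_nil⟩⟩⟩⟩⟩⟩⟩⟩⟩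

end Pool.Agent.Gen.TY.F
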