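import Pool.Agent.Helper20.TY.EngF
import Pool.Agent.Helper20.TY.TabG
import Pool.Agent.Gen.TY.FS.SufA
import Pool.Agent.Gen.TY.FS.SufB
import Pool.Agent.Gen.TY.FR.Dat

/-!
MP_8ee768_co, project TH-Y', stage F: frames.
-/

set_option autoImplicit false

namespace Pool.Agent.Gen.TY.F

open Pool.Agent.Helper79.CV
open Pool.Agent.Helper20.TY
open Pool.Agent.Helper20.TY.EngF
open Pool.Agent.Gen.TY.FS
open Pool.Agent.Gen.TY.FR

def F_544 : FrX :=
  ⟨0x482000044040440000c2040020009000182040001081020004040100008090008202410020040204c0040108101000028010828008040a010002800001,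
    0xa0, 1, 0x304265748298a3, 7,
    [(0xa0, 1), (0x538690a2, 4), (0x548790a1, 4), (0x21437690, 4), (0x538690a2, 4), (0x548790a1, 4)],
    [(0x304265748298a3, 7), (0x408395a6, 4), (0x31407692, 4), (0x405281a7, 4), (0x408395a6, 4), (0x31407692, 4)]⟩

def c_544 : frmChk tA tA F_544 = true := by decide +kernel

def r_544_0 : chkL rootF engF2 tA tA sA_225 sA_225 4 F_544 [(255, 0, 0), (256, 0, 15)]
    0x142ccc1382b2381724c2b30c4e = true := by
  decide +kernel

def r_544_1 : chkL rootF engF2 tA tA sA_225 sA_225 4 F_544 [(256, 15, 15)]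
    0x4c50cc17626b0a86c18c833c8a310ac3628da2707c03189a0782b238c594433 = true := by
  decide +kernel

def r_544_2 : chkL rootF engF2 tA tA sA_225 sA_225 4 F_544 [(256, 30, 0)]
    0x4c5268d138ab0b80562389c5312c434cc3442b = true := by
  decide +kernel

theorem f_544 (h : TabsF) : FrameF repsF 225 F_544.f :=
  frame_of rfl c_544 ((runs_of engOK r_544_0).append ((runs_of engOK r_544_1).append (runs_of engOK r_544_2))) (by decide +kernel) h.1 h.1

def F_545 : FrX :=
  ⟨0x2002000900044004000e020410001410008000408008a0280000c0040081000020002221010000820480040101101000200014a0200800411008a0020004,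
    0xa3, 1, 0x21324254637085a0, 8,
    [(0xa3, 1), (0x208693a5, 4), (0x10548793, 4), (0x217693a4, 4), (0x208693a5, 4), (0x10548793, 4)],
    [(0x21324254637085a0, 8), (0x318697a4, 4), (0x308597a2, 4), (0x10426597, 4), (0x318697a4, 4), (0x308597a2, 4)]⟩

def c_545 : frmChk tA tA F_545 = true := by decide +kernel

def r_545_0 : chkL rootF engF2 tA tA sA_225 sA_225 4 F_545 [(255, 0, 0), (256, 0, 15)]
    0x112cb10e40f03c0f138472342d = true := by
  decide +kernel

def r_545_1 : chkL rootF engF2 tA tA sA_225 sA_225 4 F_545 [(256, 15, 15)]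
    0x41712c1703c0f = true := by
  decide +kernel

def r_545_2 : chkL rootF engF2 tA tA sA_225 sA_225 4 F_545 [(256, 30, 0)]
    0x10baa264aa4346d005d384e19203d9884e8303d942e1980744e = true := by
  decide +kernel

theorem f_545 (h : TabsF) : FrameF repsF 225 F_545.f :=
  frame_of rfl c_545 ((runs_of engOK r_545_0).append ((runs_of engOK r_545_1).append (runs_of engOK r_545_2))) (by decide +kernel) h.1 h.1

def F_546 : FrX :=
  ⟨0x80080a000804040e00002101002001000002040882200001110020400004064040880000c142000120008001101100020a080002040060c000204080010,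
    0xa6, 1, 0x2154758495a0, 6,
    [(0xa6, 1), (0x205396a8, 4), (0x10548796, 4), (0x214396a7, 4), (0x205396a8, 4), (0x10548796, 4)],
    [(0x2154758495a0, 6), (0x657093a1, 4), (0x547098a2, 4), (0x21647083, 4), (0x657093a1, 4), (0x547098a2, 4)]⟩

def c_546 : frmChk tA tA F_546 = true := by decide +kernel

def r_546_0 : chkL rootF engF2 tA tA sA_225 sA_225 4 F_546 [(255, 0, 0), (256, 0, 23)]
    0x42b0741b0b58903c47 = true := by
  decide +kernel

def r_546_1 : chkL rootF engF2 tA tA sA_225 sA_225 4 F_546 [(256, 23, 0)]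
    0x10740f = true := by
  decide +kernel

theorem f_546 (h : TabsF) : FrameF repsF 225 F_546.f :=
  frame_of rfl c_546 ((runs_of engOK r_546_0).append (runs_of engOK r_546_1)) (by decide +kernel) h.1 h.1

def F_547 : FrX :=
  ⟨0x482000044040440000c204002000900018204002000202080002081068010800002040011520011200001010202000a004000901010004000904010410,
    0xa0, 1, 0x60768596a0, 5,
    [(0xa0, 1), (0x538690a2, 4), (0x548790a1, 4), (0x21437690, 4), (0x538690a2, 4), (0x548790a1, 4)],
    [(0x60768596a0, 5), (0x768395a2, 4), (0x507684a1, 4), (0x21437690, 4), (0x768395a2, 4), (0x507684a1, 4)]⟩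

def c_547 : frmChk tA tA F_547 = true := by decide +kernel

def r_547_0 : chkL rootF engF2 tA tA sA_225 sA_225 4 F_547 [(255, 0, 0), (256, 0, 22)]
    0x4479241db2161 = true := by
  decide +kernel

def r_547_1 : chkL rootF engF2 tA tA sA_225 sA_225 4 F_547 [(256, 22, 22)]
    0x515a1893134d1 = true := by
  decide +kernel

def r_547_2 : chkL rootF engF2 tA tA sA_225 sA_225 4 F_547 [(256, 44, 0)]
    0x1 = true := by
  decide +kernel

theorem f_547 (h : TabsF) : FrameF repsF 225 F_547.f :=
  frame_of rfl c_547 ((runs_of engOK r_547_0).append ((runs_of engOK r_547_1).append (runs_of engOK r_547_2))) (by decide +kernel) h.1 h.1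

def F_548 : FrX :=
  ⟨0x482000044040440000c2040020009000182040004021020008020810040024200400131000180000800111084000001084008200a00900900002400102,
    0xa0, 1, 0x314253657092a8, 7,
    [(0xa0, 1), (0x538690a2, 4), (0x548790a1, 4), (0x21437690, 4), (0x538690a2, 4), (0x548790a1, 4)],
    [(0x314253657092a8, 7), (0x658497a1, 4), (0x627384a0, 4), (0x10528493, 4), (0x658497a1, 4), (0x627384a0, 4)]⟩

def c_548 : frmChk tA tA F_548 = true := by decide +kernel

def r_548_0 : chkL rootF engF2 tA tA sA_225 sA_225 4 F_548 [(255, 0, 0), (256, 0, 22)]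
    0x6230cc0f13453b043506cd203c1e1c9620d8361541e1c9620d81e3501d = true := by
  decide +kernel

def r_548_1 : chkL rootF engF2 tA tA sA_225 sA_225 4 F_548 [(256, 22, 0)]
    0x11c46a0f03684ec190c350ac66 = true := by
  decide +kernel

theorem f_548 (h : TabsF) : FrameF repsF 225 F_548.f :=
  frame_of rfl c_548 ((runs_of engOK r_548_0).append (runs_of engOK r_548_1)) (by decide +kernel) h.1 h.1

def F_549 : FrX :=
  ⟨0x482000044040440000c204002000900018204000110040800402020000088840101012000202140030002060100080024800080a020802500100008004,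
    0xa0, 1, 0x105160748597a2, 7,
    [(0xa0, 1), (0x538690a2, 4), (0x548790a1, 4), (0x21437690, 4), (0x538690a2, 4), (0x548790a1, 4)],
    [(0x105160748597a2, 7), (0x104283a6, 4), (0x42658790, 4), (0x427391a5, 4), (0x104283a6, 4), (0x42658790, 4)]⟩

def c_549 : frmChk tA tA F_549 = true := by decide +kernel

def r_549_0 : chkL rootF engF2 tA tA sA_225 sA_225 4 F_549 [(255, 0, 0), (256, 0, 23)]
    0x4330781e = true := by
  decide +kernel

def r_549_1 : chkL rootF engF2 tA tA sA_225 sA_225 4 F_549 [(256, 23, 0)]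
    0x10781e03c3a0785c = true := by
  decide +kernel

theorem f_549 (h : TabsF) : FrameF repsF 225 F_549.f :=
  frame_of rfl c_549 ((runs_of engOK r_549_0).append (runs_of engOK r_549_1)) (by decide +kernel) h.1 h.1

def F_550 : FrX :=
  ⟨0x2002000900044004000e0204100014100080004081000002809000040500018104020042002801004202c20040000000a048008001041040400200408050,
    0xa3, 1, 0x213141708097a2, 7,
    [(0xa3, 1), (0x208693a5, 4), (0x10548793, 4), (0x217693a4, 4), (0x208693a5, 4), (0x10548793, 4)],
    [(0x213141708097a2, 7), (0x105276a8, 4), (0x10538497, 4), (0x103296a4, 4), (0x105276a8, 4), (0x10538497, 4)]⟩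

def c_550 : frmChk tA tA F_550 = true := by decide +kernel

def r_550_0 : chkL rootF engF2 tA tA sA_225 sA_225 4 F_550 [(255, 0, 0), (256, 0, 24)]
    0x4aa09c3941c2dc292c2346c0e81b = true := by
  decide +kernel

def r_550_1 : chkL rootF engF2 tA tA sA_225 sA_225 4 F_550 [(256, 24, 0)]
    0x42d0b42d09c2709e320d4351c91a3481b4681b3c04b06c1d = true := by
  decide +kernel

theorem f_550 (h : TabsF) : FrameF repsF 225 F_550.f :=
  frame_of rfl c_550 ((runs_of engOK r_550_0).append (runs_of engOK r_550_1)) (by decide +kernel) h.1 h.1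

def F_551 : FrX :=
  ⟨0x80080a000804040e000021010020010000020408840110000a0480020042000004444000902400824010000080600802002202020402200202025000800,
    0xa6, 1, 0x517098a6, 4,
    [(0xa6, 1), (0x205396a8, 4), (0x10548796, 4), (0x214396a7, 4), (0x205396a8, 4), (0x10548796, 4)],
    [(0x517098a6, 4), (0x317286a9, 4), (0x41758690, 4), (0x435286a0, 4), (0x317286a9, 4), (0x41758690, 4)]⟩

def c_551 : frmChk tA tA F_551 = true := by decide +kernel

def r_551_0 : chkL rootF engF2 tA tA sA_225 sA_225 4 F_551 [(255, 0, 0), (256, 0, 16)]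
    0x11383c13856074350741d05c17 = true := by
  decide +kernel

def r_551_1 : chkL rootF engF2 tA tA sA_225 sA_225 4 F_551 [(256, 16, 16)]
    0x4562a45511c2b11c470f1344d02709c554391311e165301e1550bc250d05cd2b421605c692386c = true := by
  decide +kernel

def r_551_2 : chkL rootF engF2 tA tA sA_225 sA_225 4 F_551 [(256, 32, 0)]
    0x40f03d4c07a4c0b86611d34ac0274d06618c3a11c330787414c635a28aa24274d28c158391982e18c660cc27 = true := by
  decide +kernel

theorem f_551 (h : TabsF) : FrameF repsF 225 F_551.f :=
  frame_of rfl c_551 ((runs_of engOK r_551_0).append ((runs_of engOK r_551_1).append (runs_of engOK r_551_2))) (by decide +kernel) h.1 h.1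

def F_552 : FrX :=
  ⟨0x482000044040440000c204002000900018204000084204000090040008008200808840408100020a009000802201108100002040490002202000210400,
    0xa0, 1, 0x20315465728296a0, 8,
    [(0xa0, 1), (0x538690a2, 4), (0x548790a1, 4), (0x21437690, 4), (0x538690a2, 4), (0x548790a1, 4)],
    [(0x20315465728296a0, 8), (0x426197a8, 4), (0x426570a3, 4), (0x42518390, 4), (0x426197a8, 4), (0x426570a3, 4)]⟩

def c_552 : frmChk tA tA F_552 = true := by decide +kernel

def r_552_0 : chkL rootF engF2 tA tA sA_225 sA_225 4 F_552 [(255, 0, 0), (256, 0, 15)]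
    0x130c1b0ac1b06c270b8a509cc90aca605c171384e03c3c = true := by
  decide +kernel

def r_552_1 : chkL rootF engF2 tA tA sA_225 sA_225 4 F_552 [(256, 15, 17)]
    0x11c81703c0f2b0992b314c90a982c1e = true := by
  decide +kernel

def r_552_2 : chkL rootF engF2 tA tA sA_225 sA_225 4 F_552 [(256, 32, 0)]
    0x70cc185311c2705c270782b2381d0b80f03c2b154a6 = true := by
  decide +kernel

theorem f_552 (h : TabsF) : FrameF repsF 225 F_552.f :=
  frame_of rfl c_552 ((runs_of engOK r_552_0).append ((runs_of engOK r_552_1).append (runs_of engOK r_552_2))) (by decide +kernel) h.1 h.1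

def F_553 : FrX :=
  ⟨0x80080a000804040e000021010020010000020408a0002000300028400480202800020411200181000048001014008008040408020400081900080220100,
    0xa6, 1, 0x324053618690a1, 7,
    [(0xa6, 1), (0x205396a8, 4), (0x10548796, 4), (0x214396a7, 4), (0x205396a8, 4), (0x10548796, 4)],
    [(0x324053618690a1, 7), (0x52648193, 4), (0x206471a9, 4), (0x506487a3, 4), (0x52648193, 4), (0x206471a9, 4)]⟩

def c_553 : frmChk tA tA F_553 = true := by decide +kernel

def r_553_0 : chkL rootF engF2 tA tA sA_225 sA_225 4 F_553 [(255, 0, 0), (256, 0, 16)]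
    0x42709d7009c8712c0f = true := by
  decide +kernel

def r_553_1 : chkL rootF engF2 tA tA sA_225 sA_225 4 F_553 [(256, 16, 14)]
    0x121c1d0d9893242de0487a0e91a6303c291c = true := by
  decide +kernel

def r_553_2 : chkL rootF engF2 tA tA sA_225 sA_225 4 F_553 [(256, 30, 0)]
    0x10740f1d00f = true := by
  decide +kernel

theorem f_553 (h : TabsF) : FrameF repsF 225 F_553.f :=
  frame_of rfl c_553 ((runs_of engOK r_553_0).append ((runs_of engOK r_553_1).append (runs_of engOK r_553_2))) (by decide +kernel) h.1 h.1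

def F_554 : FrX :=
  ⟨0x2002000900044004000e02041000141000800040800402080108044000812801000004110080040404020049010402001081008080600000404060211000,
    0xa3, 1, 0x2162768294a6, 6,
    [(0xa3, 1), (0x208693a5, 4), (0x10548793, 4), (0x217693a4, 4), (0x208693a5, 4), (0x10548793, 4)],
    [(0x2162768294a6, 6), (0x537480a6, 4), (0x20617495, 4), (0x748293a1, 4), (0x537480a6, 4), (0x20617495, 4)]⟩

def c_554 : frmChk tA tA F_554 = true := by decide +kernel

def r_554_0 : chkL rootF engF2 tA tA sA_225 sA_225 4 F_554 [(255, 0, 0), (256, 0, 22)]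
    0x48711c2711c2d05c1b0cc47 = true := by
  decide +kernel

def r_554_1 : chkL rootF engF2 tA tA sA_225 sA_225 4 F_554 [(256, 22, 0)]
    0x11344e0d88b = true := by
  decide +kernel

theorem f_554 (h : TabsF) : FrameF repsF 225 F_554.f :=
  frame_of rfl c_554 ((runs_of engOK r_554_0).append (runs_of engOK r_554_1)) (by decide +kernel) h.1 h.1

def F_555 : FrX :=
  ⟨0x2002000900044004000e0204100014100080004080800100110120000a0021030002040008200850104000120210042400800080a2000808000a000a0040,
    0xa3, 1, 0x1053728496a3, 6,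
    [(0xa3, 1), (0x208693a5, 4), (0x10548793, 4), (0x217693a4, 4), (0x208693a5, 4), (0x10548793, 4)],
    [(0x1053728496a3, 6), (0x657194a3, 4), (0x10426583, 4), (0x657092a8, 4), (0x657194a3, 4), (0x10426583, 4)]⟩

def c_555 : frmChk tA tA F_555 = true := by decide +kernel

def r_555_0 : chkL rootF engF2 tA tA sA_225 sA_225 4 F_555 [(255, 0, 0), (256, 0, 22)]
    0x41706c1b = true := by
  decide +kernel

def r_555_1 : chkL rootF engF2 tA tA sA_225 sA_225 4 F_555 [(256, 22, 0)]
    0x112c171c44e330cc = true := by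
  decide +kernel

theorem f_555 (h : TabsF) : FrameF repsF 225 F_555.f :=
  frame_of rfl c_555 ((runs_of engOK r_555_0).append (runs_of engOK r_555_1)) (by decide +kernel) h.1 h.1

def F_556 : FrX :=
  ⟨0x80080a000804040e00002101002001000002040880481000102400800240000009180400888004410010000023210202005108001000408100842800000,
    0xa6, 1, 0x215165718697a3, 7,
    [(0xa6, 1), (0x205396a8, 4), (0x10548796, 4), (0x214396a7, 4), (0x205396a8, 4), (0x10548796, 4)],
    [(0x215165718697a3, 7), (0x105382a6, 4), (0x53647092, 4), (0x537198a4, 4), (0x105382a6, 4), (0x53647092, 4)]⟩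

def c_556 : frmChk tA tA F_556 = true := by decide +kernel

def r_556_0 : chkL rootF engF2 tA tA sA_225 sA_225 4 F_556 [(255, 0, 0), (256, 0, 22)]
    0x10f027 = true := by
  decide +kernel

def r_556_1 : chkL rootF engF2 tA tA sA_225 sA_225 4 F_556 [(256, 22, 22)]
    0x4a503cc33183917059 = true := by
  decide +kernel

def r_556_2 : chkL rootF engF2 tA tA sA_225 sA_225 4 F_556 [(256, 44, 0)]
    0x1 = true := by
  decide +kernel

theorem f_556 (h : TabsF) : FrameF repsF 225 F_556.f :=
  frame_of rfl c_556 ((runs_of engOK r_556_0).append ((runs_of engOK r_556_1).append (runs_of engOK r_556_2))) (by decide +kernel) h.1 h.1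

def F_557 : FrX :=
  ⟨0x2002000900044004000e02041000141000800040810c00084008004000810041200002210000050404020140820002001024220005200028004040008050,
    0xa3, 1, 0x546283a3, 4,
    [(0xa3, 1), (0x208693a5, 4), (0x10548793, 4), (0x217693a4, 4), (0x208693a5, 4), (0x10548793, 4)],
    [(0x546283a3, 4), (0x326098a4, 4), (0x10547398, 4), (0x617298a5, 4), (0x326098a4, 4), (0x10547398, 4)]⟩

def c_557 : frmChk tA tA F_557 = true := by decide +kernel

def r_557_0 : chkL rootF engF2 tA tA sA_225 sA_225 4 F_557 [(255, 0, 0), (256, 0, 22)]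
    0x40f4a8d20741b05c2742d2a = true := by
  decide +kernel

def r_557_1 : chkL rootF engF2 tA tA sA_225 sA_225 4 F_557 [(256, 22, 0)]
    0x50e0b41705d0e2b0330e91a05cac = true := by
  decide +kernel

theorem f_557 (h : TabsF) : FrameF repsF 225 F_557.f :=
  frame_of rfl c_557 ((runs_of engOK r_557_0).append (runs_of engOK r_557_1)) (by decide +kernel) h.1 h.1

def F_558 : FrX :=
  ⟨0x1c210200000404400000204100010100008204089008008000080240080008400440410200202020800080900060444208100a000600000740030200000,
    0x0, 0, 0x216475, 3,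
    [(0x0, 0), (0x205386a9, 4), (0x105487a9, 4), (0x214376a9, 4), (0x205386a9, 4), (0x105487a9, 4)],
    [(0x216475, 3), (0x107384a9, 4), (0x207685a9, 4), (0x215463a9, 4), (0x107384a9, 4), (0x207685a9, 4)]⟩

def c_558 : frmChk tA tA F_558 = true := by decide +kernel

def r_558_0 : chkL rootF engF2 tA tA sA_225 sA_225 4 F_558 [(255, 0, 0), (256, 0, 3)]
    0x40f4380f1c4711c70c = true := by
  decide +kernel

def r_558_1 : chkL rootF engF2 tA tA sA_225 sA_225 4 F_558 [(256, 3, 4)]
    0x471 = true := by
  decide +kernel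

def r_558_2 : chkL rootF engF2 tA tA sA_225 sA_225 4 F_558 [(256, 7, 4)]
    0x42703d0e = true := by
  decide +kernel

def r_558_3 : chkL rootF engF2 tA tA sA_225 sA_225 4 F_558 [(256, 11, 5)]
    0x45318cd1344d1c280f = true := by
  decide +kernel

def r_558_4 : chkL rootF engF2 tA tA sA_225 sA_225 4 F_558 [(256, 16, 4)]
    0x1 = true := by
  decide +kernel

def r_558_5 : chkL rootF engF2 tA tA sA_225 sA_225 4 F_558 [(256, 20, 18)]
    0x12382e = true := by
  decide +kernel

def r_558_6 : chkL rootF engF2 tA tA sA_225 sA_225 4 F_558 [(256, 38, 4)]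
    0x44e07871 = true := by
  decide +kernel

def r_558_7 : chkL rootF engF2 tA tA sA_225 sA_225 4 F_558 [(256, 42, 0)]
    0x1 = true := by
  decide +kernel

theorem f_558 (h : TabsF) : FrameF repsF 225 F_558.f :=
  frame_of rfl c_558 ((runs_of engOK r_558_0).append ((runs_of engOK r_558_1).append ((runs_of engOK r_558_2).append ((runs_of engOK r_558_3).append ((runs_of engOK r_558_4).append ((runs_of engOK r_558_5).append ((runs_of engOK r_558_6).append (runs_of engOK r_558_7)))))))) (by decide +kernel) h.1 h.1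

def F_559 : FrX :=
  ⟨0x1c21020000040440000020410001010000820408a000110000004410040402100010110002404101004001008840280110c00a000500028004006c00000,
    0x0, 0, 0x21546474, 4,
    [(0x0, 0), (0x205386a9, 4), (0x105487a9, 4), (0x214376a9, 4), (0x205386a9, 4), (0x105487a9, 4)],
    [(0x21546474, 4), (0x104385a9, 4), (0x207486a9, 4), (0x216573a9, 4), (0x104385a9, 4), (0x207486a9, 4)]⟩

def c_559 : frmChk tA tA F_559 = true := by decide +kernel

def r_559_0 : chkL rootF engF2 tA tA sA_225 sA_225 4 F_559 [(255, 0, 0), (256, 0, 2)]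
    0x1234a3 = true := by
  decide +kernel

def r_559_1 : chkL rootF engF2 tA tA sA_225 sA_225 4 F_559 [(256, 2, 2)]
    0x456 = true := by
  decide +kernel

def r_559_2 : chkL rootF engF2 tA tA sA_225 sA_225 4 F_559 [(256, 4, 2)]
    0x44d0751c = true := by
  decide +kernel

def r_559_3 : chkL rootF engF2 tA tA sA_225 sA_225 4 F_559 [(256, 6, 1)]
    0x41e0d81b = true := by
  decide +kernel

def r_559_4 : chkL rootF engF2 tA tA sA_225 sA_225 4 F_559 [(256, 7, 4)]
    0x1 = true := by
  decide +kernel

def r_559_5 : chkL rootF engF2 tA tA sA_225 sA_225 4 F_559 [(256, 11, 14)]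
    0x1 = true := by
  decide +kernel

def r_559_6 : chkL rootF engF2 tA tA sA_225 sA_225 4 F_559 [(256, 25, 4)]
    0x1 = true := by
  decide +kernel

def r_559_7 : chkL rootF engF2 tA tA sA_225 sA_225 4 F_559 [(256, 29, 3)]
    0x1 = true := by
  decide +kernel

def r_559_8 : chkL rootF engF2 tA tA sA_225 sA_225 4 F_559 [(256, 32, 1)]
    0x42e = true := by
  decide +kernel

def r_559_9 : chkL rootF engF2 tA tA sA_225 sA_225 4 F_559 [(256, 33, 1)]
    0x1 = true := by
  decide +kernel

def r_559_10 : chkL rootF engF2 tA tA sA_225 sA_225 4 F_559 [(256, 34, 2)]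
    0x1 = true := by
  decide +kernel

def r_559_11 : chkL rootF engF2 tA tA sA_225 sA_225 4 F_559 [(256, 36, 1)]
    0x1 = true := by
  decide +kernel

def r_559_12 : chkL rootF engF2 tA tA sA_225 sA_225 4 F_559 [(256, 37, 2)]
    0x1074a507433 = true := by
  decide +kernel

def r_559_13 : chkL rootF engF2 tA tA sA_225 sA_225 4 F_559 [(256, 39, 2)]
    0x4a5 = true := by
  decide +kernel

def r_559_14 : chkL rootF engF2 tA tA sA_225 sA_225 4 F_559 [(256, 41, 2)]
    0x46a = true := by
  decide +kernel

def r_559_15 : chkL rootF engF2 tA tA sA_225 sA_225 4 F_559 [(256, 43, 0)]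
    0x705 = true := by
  decide +kernel

theorem f_559 (h : TabsF) : FrameF repsF 225 F_559.f :=
  frame_of rfl c_559 ((runs_of engOK r_559_0).append ((runs_of engOK r_559_1).append ((runs_of engOK r_559_2).append ((runs_of engOK r_559_3).append ((runs_of engOK r_559_4).append ((runs_of engOK r_559_5).append ((runs_of engOK r_559_6).append ((runs_of engOK r_559_7).append ((runs_of engOK r_559_8).append ((runs_of engOK r_559_9).append ((runs_of engOK r_559_10).append ((runs_of engOK r_559_11).append ((runs_of engOK r_559_12).append ((runs_of engOK r_559_13).append ((runs_of engOK r_559_14).append (runs_of engOK r_559_15)))))))))))))))) (by decide +kernel) h.1 h.1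

theorem cl_225 (h : TabsF) : ∀ f ∈ fr_225, FrameF repsF 225 f :=
  List.forall_mem_cons.2 ⟨f_544 h, List.forall_mem_cons.2 ⟨f_545 h, List.forall_mem_cons.2 ⟨f_546 h, List.forall_mem_cons.2 ⟨f_547 h, List.forall_mem_cons.2 ⟨f_548 h, List.forall_mem_cons.2 ⟨f_549 h, List.forall_mem_cons.2 ⟨f_550 h, List.forall_mem_cons.2 ⟨f_551 h, List.forall_mem_cons.2 ⟨f_552 h, List.forall_mem_cons.2 ⟨f_553 h, List.forall_mem_cons.2 ⟨f_554 h, List.forall_mem_cons.2 ⟨f_555 h, List.forall_mem_cons.2 ⟨f_556 h, List.forall_mem_cons.2 ⟨f_557 h, List.forall_mem_cons.2 ⟨f_558 h, List.forall_mem_cons.2 ⟨f_559 h,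
    fun _ h0 => absurd h0 List.not_mem_nil⟩⟩⟩⟩⟩⟩⟩⟩⟩⟩⟩⟩⟩⟩⟩⟩

def F_560 : FrX :=
  ⟨0x2002000900044004000e02041000141000800040810108004408002008800081200202000808010404020140820020002008a100040c8008002400008050,
    0xa3, 1, 0x324151637287a2, 7,
    [(0xa3, 1), (0x208693a5, 4), (0x10548793, 4), (0x217693a4, 4), (0x208693a5, 4), (0x10548793, 4)],
    [(0x324151637287a2, 7), (0x326497a0, 4), (0x41508397, 4), (0x618297a5, 4), (0x326497a0, 4), (0x41508397, 4)]⟩

def c_560 : frmChk tA tA F_560 = true := by decide +kernel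

def r_560_0 : chkL rootF engF2 tA tA sA_226 sA_226 4 F_560 [(255, 0, 0), (256, 0, 22)]
    0x112c55 = true := by
  decide +kernel

def r_560_1 : chkL rootF engF2 tA tA sA_226 sA_226 4 F_560 [(256, 22, 0)]
    0x4330b42703c0f03c330cc1b = true := by
  decide +kernel

theorem f_560 (h : TabsF) : FrameF repsF 226 F_560.f :=
  frame_of rfl c_560 ((runs_of engOK r_560_0).append (runs_of engOK r_560_1)) (by decide +kernel) h.1 h.1

def F_561 : FrX :=
  ⟨0x80080a000804040e0000210100200100000204088541100000440000048000000412301004080100004200108060100b00400a000580200300080820000,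
    0xa6, 1, 0x10407686a6, 5,
    [(0xa6, 1), (0x205396a8, 4), (0x10548796, 4), (0x214396a7, 4), (0x205396a8, 4), (0x10548796, 4)],
    [(0x10407686a6, 5), (0x425398a7, 4), (0x40517698, 4), (0x203198a6, 4), (0x425398a7, 4), (0x40517698, 4)]⟩

def c_561 : frmChk tA tA F_561 = true := by decide +kernel

def r_561_0 : chkL rootF engF2 tA tA sA_226 sA_226 4 F_561 [(255, 0, 0), (256, 0, 21)]
    0x1171a114cc525495075195451c46958 = true := by
  decide +kernel

def r_561_1 : chkL rootF engF2 tA tA sA_226 sA_226 4 F_561 [(256, 21, 23)]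
    0x4935145c138a91648714c5616436 = true := by
  decide +kernel

def r_561_2 : chkL rootF engF2 tA tA sA_226 sA_226 4 F_561 [(256, 44, 0)]
    0x1 = true := by
  decide +kernel

theorem f_561 (h : TabsF) : FrameF repsF 226 F_561.f :=
  frame_of rfl c_561 ((runs_of engOK r_561_0).append ((runs_of engOK r_561_1).append (runs_of engOK r_561_2))) (by decide +kernel) h.1 h.1

def F_562 : FrX :=
  ⟨0x2002000900044004000e020410001410008000408201010011002020082021010002040018880010004000048280200400002100060c0808000c00620040,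
    0xa3, 1, 0x204351708290a0, 7,
    [(0xa3, 1), (0x208693a5, 4), (0x10548793, 4), (0x217693a4, 4), (0x208693a5, 4), (0x10548793, 4)],
    [(0x204351708290a0, 7), (0x416097a8, 4), (0x203197a5, 4), (0x43628597, 4), (0x416097a8, 4), (0x203197a5, 4)]⟩

def c_562 : frmChk tA tA F_562 = true := by decide +kernel

def r_562_0 : chkL rootF engF2 tA tA sA_226 sA_226 4 F_562 [(255, 0, 0), (256, 0, 22)]
    0x4470cc0f03c3a30c1e0788b = true := by
  decide +kernel

def r_562_1 : chkL rootF engF2 tA tA sA_226 sA_226 4 F_562 [(256, 22, 0)]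
    0x10e41e14c170cc4d28e23 = true := by
  decide +kernel

theorem f_562 (h : TabsF) : FrameF repsF 226 F_562.f :=
  frame_of rfl c_562 ((runs_of engOK r_562_0).append (runs_of engOK r_562_1)) (by decide +kernel) h.1 h.1

def F_563 : FrX :=
  ⟨0x482000044040440000c2040020009000182040020000448000020280080188108010005081001040040020800a200080080110004c0880100080200084,
    0xa0, 1, 0x214250658096a5, 7,
    [(0xa0, 1), (0x538690a2, 4), (0x548790a1, 4), (0x21437690, 4), (0x538690a2, 4), (0x548790a1, 4)],
    [(0x214250658096a5, 7), (0x608495a3, 4), (0x607582a1, 4), (0x31426097, 4), (0x608495a3, 4), (0x607582a1, 4)]⟩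

def c_563 : frmChk tA tA F_563 = true := by decide +kernel

def r_563_0 : chkL rootF engF2 tA tA sA_226 sA_226 4 F_563 [(255, 0, 0), (256, 0, 21)]
    0x1154958968c0e40f = true := by
  decide +kernel

def r_563_1 : chkL rootF engF2 tA tA sA_226 sA_226 4 F_563 [(256, 21, 23)]
    0x43303c59166a1 = true := by
  decide +kernel

def r_563_2 : chkL rootF engF2 tA tA sA_226 sA_226 4 F_563 [(256, 44, 0)]
    0x1 = true := by
  decide +kernel

theorem f_563 (h : TabsF) : FrameF repsF 226 F_563.f :=
  frame_of rfl c_563 ((runs_of engOK r_563_0).append ((runs_of engOK r_563_1).append (runs_of engOK r_563_2))) (by decide +kernel) h.1 h.1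

def F_564 : FrX :=
  ⟨0x2002000900044004000e020410001410008000408040010101218040000420021000041102a0040204040001100400009080008080601004204004211000,
    0xa3, 1, 0x627398a3, 4,
    [(0xa3, 1), (0x208693a5, 4), (0x10548793, 4), (0x217693a4, 4), (0x208693a5, 4), (0x10548793, 4)],
    [(0x627398a3, 4), (0x608792a5, 4), (0x10548793, 4), (0x326187a4, 4), (0x608792a5, 4), (0x10548793, 4)]⟩

def c_564 : frmChk tA tA F_564 = true := by decide +kernel

def r_564_0 : chkL rootF engF2 tA tA sA_226 sA_226 4 F_564 [(255, 0, 0), (256, 0, 23)]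
    0x41b2a48b05cc92688b22c1709c2e3882b0b80f06c2b2702e48d836892906c1e0741b = true := by
  decide +kernel

def r_564_1 : chkL rootF engF2 tA tA sA_226 sA_226 4 F_564 [(256, 23, 0)]
    0x44706c330f02ec1b09c0c3c06d130743c = true := by
  decide +kernel

theorem f_564 (h : TabsF) : FrameF repsF 226 F_564.f :=
  frame_of rfl c_564 ((runs_of engOK r_564_0).append (runs_of engOK r_564_1)) (by decide +kernel) h.1 h.1

def F_565 : FrX :=
  ⟨0x482000044040440000c2040020009000182040010020082000b0001001400400440011000004820081203002801000121400a020100120004000800042,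
    0xa0, 1, 0x10203240748191a6, 8,
    [(0xa0, 1), (0x538690a2, 4), (0x548790a1, 4), (0x21437690, 4), (0x538690a2, 4), (0x548790a1, 4)],
    [(0x10203240748191a6, 8), (0x435186a0, 4), (0x20758694, 4), (0x718693a2, 4), (0x435186a0, 4), (0x20758694, 4)]⟩

def c_565 : frmChk tA tA F_565 = true := by decide +kernel

def r_565_0 : chkL rootF engF2 tA tA sA_226 sA_226 4 F_565 [(255, 0, 0), (256, 0, 21)]
    0x591a0c2e0782e0e40f0d42e0b89328c9603c0f = true := by
  decide +kernel

def r_565_1 : chkL rootF engF2 tA tA sA_226 sA_226 4 F_565 [(256, 21, 0)]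
    0x40f16487264b10f027 = true := by
  decide +kernel

theorem f_565 (h : TabsF) : FrameF repsF 226 F_565.f :=
  frame_of rfl c_565 ((runs_of engOK r_565_0).append (runs_of engOK r_565_1)) (by decide +kernel) h.1 h.1

def F_566 : FrX :=
  ⟨0x482000044040440000c2040020009000182040020000242200200084014048010400000101012600810000108010400244088020800420004002800082,
    0xa0, 1, 0x316274a0, 4,
    [(0xa0, 1), (0x538690a2, 4), (0x548790a1, 4), (0x21437690, 4), (0x538690a2, 4), (0x548790a1, 4)],
    [(0x316274a0, 4), (0x518290a6, 4), (0x758490a3, 4), (0x42637190, 4), (0x518290a6, 4), (0x758490a3, 4)]⟩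

def c_566 : frmChk tA tA F_566 = true := by decide +kernel

def r_566_0 : chkL rootF engF2 tA tA sA_226 sA_226 4 F_566 [(255, 0, 0), (256, 0, 20)]
    0x41d0781e0780f2b01d2b03a30d0706c0fc500f06c1b = true := by
  decide +kernel

def r_566_1 : chkL rootF engF2 tA tA sA_226 sA_226 4 F_566 [(256, 20, 0)]
    0x14571106ccc326c8b201e0744d0742b06c1d06c530740f0741b0741d07929c1709 = true := by
  decide +kernel

theorem f_566 (h : TabsF) : FrameF repsF 226 F_566.f :=
  frame_of rfl c_566 ((runs_of engOK r_566_0).append (runs_of engOK r_566_1)) (by decide +kernel) h.1 h.1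

def F_567 : FrX :=
  ⟨0x80080a000804040e00002101002001000002040882020401010020400890004000084040c00011040120040828002040140001005000128004042600000,
    0xa6, 1, 0x4253708098a3, 6,
    [(0xa6, 1), (0x205396a8, 4), (0x10548796, 4), (0x214396a7, 4), (0x205396a8, 4), (0x10548796, 4)],
    [(0x4253708098a3, 6), (0x758496a3, 4), (0x32758190, 4), (0x416075a2, 4), (0x758496a3, 4), (0x32758190, 4)]⟩

def c_567 : frmChk tA tA F_567 = true := by decide +kernel

def r_567_0 : chkL rootF engF2 tA tA sA_226 sA_226 4 F_567 [(255, 0, 0), (256, 0, 24)]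
    0x10f05c = true := by
  decide +kernel

def r_567_1 : chkL rootF engF2 tA tA sA_226 sA_226 4 F_567 [(256, 24, 0)]
    0x15881e078b203d0e30c1b = true := by
  decide +kernel

theorem f_567 (h : TabsF) : FrameF repsF 226 F_567.f :=
  frame_of rfl c_567 ((runs_of engOK r_567_0).append (runs_of engOK r_567_1)) (by decide +kernel) h.1 h.1

def F_568 : FrX :=
  ⟨0x2002000900044004000e0204100014100080004080800100110120000a00210300020400088a001010400004828020040000210006080808000c00620040,
    0xa3, 1, 0x1053728496a3, 6,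
    [(0xa3, 1), (0x208693a5, 4), (0x10548793, 4), (0x217693a4, 4), (0x208693a5, 4), (0x10548793, 4)],
    [(0x1053728496a3, 6), (0x657194a3, 4), (0x10426583, 4), (0x657092a8, 4), (0x657194a3, 4), (0x10426583, 4)]⟩

def c_568 : frmChk tA tA F_568 = true := by decide +kernel

def r_568_0 : chkL rootF engF2 tA tA sA_226 sA_226 4 F_568 [(255, 0, 0), (256, 0, 22)]
    0x41b = true := by
  decide +kernel

def r_568_1 : chkL rootF engF2 tA tA sA_226 sA_226 4 F_568 [(256, 22, 0)]
    0x4390d427 = true := by
  decide +kernel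

theorem f_568 (h : TabsF) : FrameF repsF 226 F_568.f :=
  frame_of rfl c_568 ((runs_of engOK r_568_0).append (runs_of engOK r_568_1)) (by decide +kernel) h.1 h.1

def F_569 : FrX :=
  ⟨0x482000044040440000c2040020009000182040020000242200200084014048010400000101010282800400108010400300098020880400004002800082,
    0xa0, 1, 0x316274a0, 4,
    [(0xa0, 1), (0x538690a2, 4), (0x548790a1, 4), (0x21437690, 4), (0x538690a2, 4), (0x548790a1, 4)],
    [(0x316274a0, 4), (0x518290a6, 4), (0x758490a3, 4), (0x42637190, 4), (0x518290a6, 4), (0x758490a3, 4)]⟩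

def c_569 : frmChk tA tA F_569 = true := by decide +kernel

def r_569_0 : chkL rootF engF2 tA tA sA_226 sA_226 4 F_569 [(255, 0, 0), (256, 0, 20)]
    0x10741b03c2e = true := by
  decide +kernel

def r_569_1 : chkL rootF engF2 tA tA sA_226 sA_226 4 F_569 [(256, 20, 0)]
    0x106c1d8641d0741b0744d0ac9c = true := by
  decide +kernel

theorem f_569 (h : TabsF) : FrameF repsF 226 F_569.f :=
  frame_of rfl c_569 ((runs_of engOK r_569_0).append (runs_of engOK r_569_1)) (by decide +kernel) h.1 h.1

def F_570 : FrX :=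
  ⟨0x80080a000804040e0000210100200100000204088101100820440010048000000412101004002100004200108060104200400a000580200340080820000,
    0xa6, 1, 0x204051617684a3, 7,
    [(0xa6, 1), (0x205396a8, 4), (0x10548796, 4), (0x214396a7, 4), (0x205396a8, 4), (0x10548796, 4)],
    [(0x204051617684a3, 7), (0x407293a1, 4), (0x52648193, 4), (0x607593a8, 4), (0x407293a1, 4), (0x52648193, 4)]⟩

def c_570 : frmChk tA tA F_570 = true := by decide +kernel

def r_570_0 : chkL rootF engF2 tA tA sA_226 sA_226 4 F_570 [(255, 0, 0), (256, 0, 23)]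
    0x11e05c06c2d12c4b = true := by
  decide +kernel

def r_570_1 : chkL rootF engF2 tA tA sA_226 sA_226 4 F_570 [(256, 23, 0)]
    0x10741b0746518c8e = true := by
  decide +kernel

theorem f_570 (h : TabsF) : FrameF repsF 226 F_570.f :=
  frame_of rfl c_570 ((runs_of engOK r_570_0).append (runs_of engOK r_570_1)) (by decide +kernel) h.1 h.1

def F_571 : FrX :=
  ⟨0x2002000900044004000e02041000141000800040810108004408002008800081200202000808010404020140820020002004222004240028002040008050,
    0xa3, 1, 0x324151637287a2, 7,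
    [(0xa3, 1), (0x208693a5, 4), (0x10548793, 4), (0x217693a4, 4), (0x208693a5, 4), (0x10548793, 4)],
    [(0x324151637287a2, 7), (0x326497a0, 4), (0x41508397, 4), (0x618297a5, 4), (0x326497a0, 4), (0x41508397, 4)]⟩

def c_571 : frmChk tA tA F_571 = true := by decide +kernel

def r_571_0 : chkL rootF engF2 tA tA sA_226 sA_226 4 F_571 [(255, 0, 0), (256, 0, 22)]
    0x106c1703c3503d2360da2 = true := by
  decide +kernel

def r_571_1 : chkL rootF engF2 tA tA sA_226 sA_226 4 F_571 [(256, 22, 0)]
    0x109c17 = true := by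
  decide +kernel

theorem f_571 (h : TabsF) : FrameF repsF 226 F_571.f :=
  frame_of rfl c_571 ((runs_of engOK r_571_0).append (runs_of engOK r_571_1)) (by decide +kernel) h.1 h.1

def F_572 : FrX :=
  ⟨0x482000044040440000c204002000900018204001002008200080081181000400440011018000420080082101021000201000a008200101500820200004,
    0xa0, 1, 0x3241608597a0, 6,
    [(0xa0, 1), (0x538690a2, 4), (0x548790a1, 4), (0x21437690, 4), (0x538690a2, 4), (0x548790a1, 4)],
    [(0x3241608597a0, 6), (0x507682a3, 4), (0x768195a4, 4), (0x21437690, 4), (0x507682a3, 4), (0x768195a4, 4)]⟩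

def c_572 : frmChk tA tA F_572 = true := by decide +kernel

def r_572_0 : chkL rootF engF2 tA tA sA_226 sA_226 4 F_572 [(511, 0, 0)]
    0x10b8398582e3509a09d1c11c2e = true := by
  decide +kernel

theorem f_572 (h : TabsF) : FrameF repsF 226 F_572.f :=
  frame_of rfl c_572 (runs_of engOK r_572_0) (by decide +kernel) h.1 h.1

def F_573 : FrX :=
  ⟨0x482000044040440000c2040020009000182040020052040000020280080048010012000101010440800004808090260210085000040400004200800082,
    0xa0, 1, 0x103152627382a3, 7,
    [(0xa0, 1), (0x538690a2, 4), (0x548790a1, 4), (0x21437690, 4), (0x538690a2, 4), (0x548790a1, 4)],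
    [(0x103152627382a3, 7), (0x658197a2, 4), (0x31426097, 4), (0x508397a4, 4), (0x658197a2, 4), (0x31426097, 4)]⟩

def c_573 : frmChk tA tA F_573 = true := by decide +kernel

def r_573_0 : chkL rootF engF2 tA tA sA_226 sA_226 4 F_573 [(255, 0, 0), (256, 0, 24)]
    0x43603c1e0d41b = true := by
  decide +kernel

def r_573_1 : chkL rootF engF2 tA tA sA_226 sA_226 4 F_573 [(256, 24, 0)]
    0x116469495a103c1d = true := by
  decide +kernel

theorem f_573 (h : TabsF) : FrameF repsF 226 F_573.f :=
  frame_of rfl c_573 ((runs_of engOK r_573_0).append (runs_of engOK r_573_1)) (by decide +kernel) h.1 h.1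

def F_574 : FrX :=
  ⟨0x2002000900044004000e02041000141000800040804001010100844000812008100004101088409020100004802020040120200006001808000804204040,
    0xa3, 1, 0x204152617091a3, 7,
    [(0xa3, 1), (0x208693a5, 4), (0x10548793, 4), (0x217693a4, 4), (0x208693a5, 4), (0x10548793, 4)],
    [(0x204152617091a3, 7), (0x637584a0, 4), (0x10638297, 4), (0x426395a1, 4), (0x637584a0, 4), (0x10638297, 4)]⟩

def c_574 : frmChk tA tA F_574 = true := by decide +kernel

def r_574_0 : chkL rootF engF2 tA tA sA_226 sA_226 4 F_574 [(255, 0, 0), (256, 0, 23)]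
    0x41718c63989c206d384a839 = true := by
  decide +kernel

def r_574_1 : chkL rootF engF2 tA tA sA_226 sA_226 4 F_574 [(256, 23, 0)]
    0x4740e83524c4b5198c = true := by
  decide +kernel

theorem f_574 (h : TabsF) : FrameF repsF 226 F_574.f :=
  frame_of rfl c_574 ((runs_of engOK r_574_0).append (runs_of engOK r_574_1)) (by decide +kernel) h.1 h.1

def F_575 : FrX :=
  ⟨0x80080a000804040e00002101002001000002040882020401002030000812004000084040c00011040120040828002240004001005000108004242600000,
    0xa6, 1, 0x4053768192a6, 6,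
    [(0xa6, 1), (0x205396a8, 4), (0x10548796, 4), (0x214396a7, 4), (0x205396a8, 4), (0x10548796, 4)],
    [(0x4053768192a6, 6), (0x537294a1, 4), (0x30617284, 4), (0x507298a6, 4), (0x537294a1, 4), (0x30617284, 4)]⟩

def c_575 : frmChk tA tA F_575 = true := by decide +kernel

def r_575_0 : chkL rootF engF2 tA tA sA_226 sA_226 4 F_575 [(255, 0, 0), (256, 0, 24)]
    0x12546a2645312cc31685a5600f1980f = true := by
  decide +kernel

def r_575_1 : chkL rootF engF2 tA tA sA_226 sA_226 4 F_575 [(256, 24, 0)]
    0x11685a5603307853 = true := by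
  decide +kernel

theorem f_575 (h : TabsF) : FrameF repsF 226 F_575.f :=
  frame_of rfl c_575 ((runs_of engOK r_575_0).append (runs_of engOK r_575_1)) (by decide +kernel) h.1 h.1

theorem cl_226 (h : TabsF) : ∀ f ∈ fr_226, FrameF repsF 226 f :=
  List.forall_mem_cons.2 ⟨f_560 h, List.forall_mem_cons.2 ⟨f_561 h, List.forall_mem_cons.2 ⟨f_562 h, List.forall_mem_cons.2 ⟨f_563 h, List.forall_mem_cons.2 ⟨f_564 h, List.forall_mem_cons.2 ⟨f_565 h, List.forall_mem_cons.2 ⟨f_566 h, List.forall_mem_cons.2 ⟨f_567 h, List.forall_mem_cons.2 ⟨f_568 h, List.forall_mem_cons.2 ⟨f_569 h, List.forall_mem_cons.2 ⟨f_570 h, List.forall_mem_cons.2 ⟨f_571 h, List.forall_mem_cons.2 ⟨f_572 h, List.forall_mem_cons.2 ⟨f_573 h, List.forall_mem_cons.2 ⟨f_574 h, List.forall_mem_cons.2 ⟨f_575 h,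
    fun _ h0 => absurd h0 List.not_mem_nil⟩⟩⟩⟩⟩⟩⟩⟩⟩⟩⟩⟩⟩⟩⟩⟩

def F_576 : FrX :=
  ⟨0x482000044040440000c204002000900018204001002008200800003001010480440011000004820081203002800800021400a020110120004000800042,
    0xa0, 1, 0x435160708194a6, 7,
    [(0xa0, 1), (0x538690a2, 4), (0x548790a1, 4), (0x21437690, 4), (0x538690a2, 4), (0x548790a1, 4)],
    [(0x435160708194a6, 7), (0x304172a5, 4), (0x30658791, 4), (0x308294a6, 4), (0x304172a5, 4), (0x30658791, 4)]⟩

def c_576 : frmChk tA tA F_576 = true := by decide +kernel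

def r_576_0 : chkL rootF engF2 tA tA sA_227 sA_227 4 F_576 [(255, 0, 0), (256, 0, 25)]
    0x41b11c1b = true := by
  decide +kernel

def r_576_1 : chkL rootF engF2 tA tA sA_227 sA_227 4 F_576 [(256, 25, 0)]
    0x11d0270742d2a5584a42e1645903c0f06c0f = true := by
  decide +kernel

theorem f_576 (h : TabsF) : FrameF repsF 227 F_576.f :=
  frame_of rfl c_576 ((runs_of engOK r_576_0).append (runs_of engOK r_576_1)) (by decide +kernel) h.1 h.1

def F_577 : FrX :=
  ⟨0x2002000900044004000e02041000141000800040804001010101024001042802000004110080140204040101100410001080008080601004204004211000,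
    0xa3, 1, 0x2043618597a3, 6,
    [(0xa3, 1), (0x208693a5, 4), (0x10548793, 4), (0x217693a4, 4), (0x208693a5, 4), (0x10548793, 4)],
    [(0x2043618597a3, 6), (0x205174a8, 4), (0x62748395, 4), (0x607491a3, 4), (0x205174a8, 4), (0x62748395, 4)]⟩

def c_577 : frmChk tA tA F_577 = true := by decide +kernel

def r_577_0 : chkL rootF engF2 tA tA sA_227 sA_227 4 F_577 [(255, 0, 0), (256, 0, 25)]
    0x106c5305c1b05c1d06c1b = true := by
  decide +kernel

def r_577_1 : chkL rootF engF2 tA tA sA_227 sA_227 4 F_577 [(256, 25, 0)]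
    0x105c1b07435 = true := by
  decide +kernel

theorem f_577 (h : TabsF) : FrameF repsF 227 F_577.f :=
  frame_of rfl c_577 ((runs_of engOK r_577_0).append (runs_of engOK r_577_1)) (by decide +kernel) h.1 h.1

def F_578 : FrX :=
  ⟨0x2002000900044004000e02041000141000800040810108004408002008800081200202000808010404020140820010802040200084040028002401008050,
    0xa3, 1, 0x103052657086a0, 7,
    [(0xa3, 1), (0x208693a5, 4), (0x10548793, 4), (0x217693a4, 4), (0x208693a5, 4), (0x10548793, 4)],
    [(0x103052657086a0, 7), (0x618297a5, 4), (0x326497a0, 4), (0x41508397, 4), (0x618297a5, 4), (0x326497a0, 4)]⟩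

def c_578 : frmChk tA tA F_578 = true := by decide +kernel

def r_578_0 : chkL rootF engF2 tA tA sA_227 sA_227 4 F_578 [(255, 0, 0), (256, 0, 22)]
    0x44d15833 = true := by
  decide +kernel

def r_578_1 : chkL rootF engF2 tA tA sA_227 sA_227 4 F_578 [(256, 22, 0)]
    0x10cc36a281b = true := by
  decide +kernel

theorem f_578 (h : TabsF) : FrameF repsF 227 F_578.f :=
  frame_of rfl c_578 ((runs_of engOK r_578_0).append (runs_of engOK r_578_1)) (by decide +kernel) h.1 h.1

def F_579 : FrX :=
  ⟨0x80080a000804040e0000210100200100000204088101100100840002048400000412101004090100004200108060100200400a000580200340080820000,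
    0xa6, 1, 0x3150648297a6, 6,
    [(0xa6, 1), (0x205396a8, 4), (0x10548796, 4), (0x214396a7, 4), (0x205396a8, 4), (0x10548796, 4)],
    [(0x3150648297a6, 6), (0x107485a2, 4), (0x53607492, 4), (0x617483a9, 4), (0x107485a2, 4), (0x53607492, 4)]⟩

def c_579 : frmChk tA tA F_579 = true := by decide +kernel

def r_579_0 : chkL rootF engF2 tA tA sA_227 sA_227 4 F_579 [(255, 0, 0), (256, 0, 22)]
    0x12b0c505c17 = true := by
  decide +kernel

def r_579_1 : chkL rootF engF2 tA tA sA_227 sA_227 4 F_579 [(256, 22, 0)]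
    0x11386c49847154551b0a9 = true := by
  decide +kernel

theorem f_579 (h : TabsF) : FrameF repsF 227 F_579.f :=
  frame_of rfl c_579 ((runs_of engOK r_579_0).append (runs_of engOK r_579_1)) (by decide +kernel) h.1 h.1

def F_580 : FrX :=
  ⟨0x482000044040440000c2040020009000182040001008481004020200080084800010101081c01020000020800220008180003000400901300002200404,
    0xa0, 1, 0x426371a0, 4,
    [(0xa0, 1), (0x538690a2, 4), (0x548790a1, 4), (0x21437690, 4), (0x538690a2, 4), (0x548790a1, 4)],
    [(0x426371a0, 4), (0x658390a4, 4), (0x528190a7, 4), (0x31627490, 4), (0x658390a4, 4), (0x528190a7, 4)]⟩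

def c_580 : frmChk tA tA F_580 = true := by decide +kernel

def r_580_0 : chkL rootF engF2 tA tA sA_227 sA_227 4 F_580 [(255, 0, 0), (256, 0, 24)]
    0x417986e01c83c1c81705c4d05ccc0788b05ca52660784c2b = true := by
  decide +kernel

def r_580_1 : chkL rootF engF2 tA tA sA_227 sA_227 4 F_580 [(256, 24, 0)]
    0x4271641e0745a09c0f = true := by
  decide +kernel

theorem f_580 (h : TabsF) : FrameF repsF 227 F_580.f :=
  frame_of rfl c_580 ((runs_of engOK r_580_0).append (runs_of engOK r_580_1)) (by decide +kernel) h.1 h.1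

theorem cl_227 (h : TabsF) : ∀ f ∈ fr_227, FrameF repsF 227 f :=
  List.forall_mem_cons.2 ⟨f_576 h, List.forall_mem_cons.2 ⟨f_577 h, List.forall_mem_cons.2 ⟨f_578 h, List.forall_mem_cons.2 ⟨f_579 h, List.forall_mem_cons.2 ⟨f_580 h,
    fun _ h0 => absurd h0 List.not_mem_nil⟩⟩⟩⟩⟩

def F_581 : FrX :=
  ⟨0x2002000900044004000e02041000141000800040808000204420000830010c0820002000110000a02c01001010040080104101a000808800000802021010,
    0xa3, 1, 0x103042547598a0, 7,
    [(0xa3, 1), (0x208693a5, 4), (0x10548793, 4), (0x217693a4, 4), (0x208693a5, 4), (0x10548793, 4)],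
    [(0x103042547598a0, 7), (0x718396a4, 4), (0x758392a0, 4), (0x40516283, 4), (0x718396a4, 4), (0x758392a0, 4)]⟩

def c_581 : frmChk tA tA F_581 = true := by decide +kernel

def r_581_0 : chkL rootF engF2 tA tA sA_228 sA_228 4 F_581 [(255, 0, 0), (256, 0, 22)]
    0x40f0e82e22c1b17223 = true := by
  decide +kernel

def r_581_1 : chkL rootF engF2 tA tA sA_228 sA_228 4 F_581 [(256, 22, 0)]
    0x40f03c330b9194c44e = true := by
  decide +kernel

theorem f_581 (h : TabsF) : FrameF repsF 228 F_581.f :=
  frame_of rfl c_581 ((runs_of engOK r_581_0).append (runs_of engOK r_581_1)) (by decide +kernel) h.1 h.1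

def F_582 : FrX :=
  ⟨0x482000044040440000c2040020009000182040015010080004000004020801810800100802800480000220020a10100080087010020801100a02000004,
    0xa0, 1, 0x41607585a5, 5,
    [(0xa0, 1), (0x538690a2, 4), (0x548790a1, 4), (0x21437690, 4), (0x538690a2, 4), (0x548790a1, 4)],
    [(0x41607585a5, 5), (0x627098a3, 4), (0x647598a1, 4), (0x31425098, 4), (0x627098a3, 4), (0x647598a1, 4)]⟩

def c_582 : frmChk tA tA F_582 = true := by decide +kernel

def r_582_0 : chkL rootF engF2 tA tA sA_228 sA_228 4 F_582 [(255, 0, 0), (256, 0, 25)]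
    0x44714d545481e05d619141e9444703c2e03c9905c0f = true := by
  decide +kernel

def r_582_1 : chkL rootF engF2 tA tA sA_228 sA_228 4 F_582 [(256, 25, 0)]
    0x4d209c2d0743c11c560f03314c17 = true := by
  decide +kernel

theorem f_582 (h : TabsF) : FrameF repsF 228 F_582.f :=
  frame_of rfl c_582 ((runs_of engOK r_582_0).append (runs_of engOK r_582_1)) (by decide +kernel) h.1 h.1

def F_583 : FrX :=
  ⟨0x482000044040440000c2040020009000182040001012080008100004024801010800100a02800480000220020a20002000086010010081300a20000004,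
    0xa0, 1, 0x21324151658197a6, 8,
    [(0xa0, 1), (0x538690a2, 4), (0x548790a1, 4), (0x21437690, 4), (0x538690a2, 4), (0x548790a1, 4)],
    [(0x21324151658197a6, 8), (0x306174a5, 4), (0x62748095, 4), (0x217483a9, 4), (0x306174a5, 4), (0x62748095, 4)]⟩

def c_583 : frmChk tA tA F_583 = true := by decide +kernel

def r_583_0 : chkL rootF engF2 tA tA sA_228 sA_228 4 F_583 [(255, 0, 0), (256, 0, 23)]
    0x10d8530741705c2d03c2703c17 = true := by
  decide +kernel

def r_583_1 : chkL rootF engF2 tA tA sA_228 sA_228 4 F_583 [(256, 23, 0)]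
    0x43605c0f94651b402e2642e = true := by
  decide +kernel

theorem f_583 (h : TabsF) : FrameF repsF 228 F_583.f :=
  frame_of rfl c_583 ((runs_of engOK r_583_0).append (runs_of engOK r_583_1)) (by decide +kernel) h.1 h.1

def F_584 : FrX :=
  ⟨0x80080a000804040e00002101002001000002040880421002008088002000203001002060002908080024400080200101100043010102200500000820200,
    0xa6, 1, 0x102141617197a5, 7,
    [(0xa6, 1), (0x205396a8, 4), (0x10548796, 4), (0x214396a7, 4), (0x205396a8, 4), (0x10548796, 4)],
    [(0x102141617197a5, 7), (0x106584a3, 4), (0x657198a2, 4), (0x32657094, 4), (0x106584a3, 4), (0x657198a2, 4)]⟩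

def c_584 : frmChk tA tA F_584 = true := by decide +kernel

def r_584_0 : chkL rootF engF2 tA tA sA_228 sA_228 4 F_584 [(255, 0, 0), (256, 0, 23)]
    0x10e49522c47 = true := by
  decide +kernel

def r_584_1 : chkL rootF engF2 tA tA sA_228 sA_228 4 F_584 [(256, 23, 0)]
    0x111c2b09c6c9141b = true := by
  decide +kernel

theorem f_584 (h : TabsF) : FrameF repsF 228 F_584.f :=
  frame_of rfl c_584 ((runs_of engOK r_584_0).append (runs_of engOK r_584_1)) (by decide +kernel) h.1 h.1

def F_585 : FrX :=
  ⟨0x80080a000804040e00002101002001000002040890100100304004100202008008014001008009028002040008401800048258002001002040880200080,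
    0xa6, 1, 0x203040526471a2, 7,
    [(0xa6, 1), (0x205396a8, 4), (0x10548796, 4), (0x214396a7, 4), (0x205396a8, 4), (0x10548796, 4)],
    [(0x203040526471a2, 7), (0x208395a4, 4), (0x60748195, 4), (0x316295a7, 4), (0x208395a4, 4), (0x60748195, 4)]⟩

def c_585 : frmChk tA tA F_585 = true := by decide +kernel

def r_585_0 : chkL rootF engF2 tA tA sA_228 sA_228 4 F_585 [(255, 0, 0), (256, 0, 22)]
    0x4590b86c0f08b03c5a0b84d = true := by
  decide +kernel

def r_585_1 : chkL rootF engF2 tA tA sA_228 sA_228 4 F_585 [(256, 22, 0)]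
    0x10742e = true := by
  decide +kernel

theorem f_585 (h : TabsF) : FrameF repsF 228 F_585.f :=
  frame_of rfl c_585 ((runs_of engOK r_585_0).append (runs_of engOK r_585_1)) (by decide +kernel) h.1 h.1

def F_586 : FrX :=
  ⟨0x2002000900044004000e02041000141000800040804001010100c06000242000100004104022108480020200208010100000820010900000444230008200,
    0xa3, 1, 0x2160748395a3, 6,
    [(0xa3, 1), (0x208693a5, 4), (0x10548793, 4), (0x217693a4, 4), (0x208693a5, 4), (0x10548793, 4)],
    [(0x2160748395a3, 6), (0x306185a9, 4), (0x43628597, 4), (0x214085a7, 4), (0x306185a9, 4), (0x43628597, 4)]⟩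

def c_586 : frmChk tA tA F_586 = true := by decide +kernel

def r_586_0 : chkL rootF engF2 tA tA sA_228 sA_228 4 F_586 [(255, 0, 0), (256, 0, 26)]
    0x1 = true := by
  decide +kernel

def r_586_1 : chkL rootF engF2 tA tA sA_228 sA_228 4 F_586 [(256, 26, 0)]
    0x1 = true := by
  decide +kernel

theorem f_586 (h : TabsF) : FrameF repsF 228 F_586.f :=
  frame_of rfl c_586 ((runs_of engOK r_586_0).append (runs_of engOK r_586_1)) (by decide +kernel) h.1 h.1

def F_587 : FrX :=
  ⟨0x482000044040440000c204002000900018204001001004120080081008040820801000100108014220081080000880004100100c048020040880010090,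
    0xa0, 1, 0x314285a0, 4,
    [(0xa0, 1), (0x538690a2, 4), (0x548790a1, 4), (0x21437690, 4), (0x538690a2, 4), (0x548790a1, 4)],
    [(0x314285a0, 4), (0x658190a4, 4), (0x758290a3, 4), (0x21437690, 4), (0x658190a4, 4), (0x758290a3, 4)]⟩

def c_587 : frmChk tA tA F_587 = true := by decide +kernel

def r_587_0 : chkL rootF engF2 tA tA sA_228 sA_228 4 F_587 [(255, 0, 0), (256, 0, 22)]
    0x40f8681b29a1a03e8903d314a48d3182e = true := by
  decide +kernel

def r_587_1 : chkL rootF engF2 tA tA sA_228 sA_228 4 F_587 [(256, 22, 0)]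
    0x105e13 = true := by
  decide +kernel

theorem f_587 (h : TabsF) : FrameF repsF 228 F_587.f :=
  frame_of rfl c_587 ((runs_of engOK r_587_0).append (runs_of engOK r_587_1)) (by decide +kernel) h.1 h.1

def F_588 : FrX :=
  ⟨0x482000044040440000c20400200090001820400100100412008008100804082080100010010801422008108000088000140012042c0000040800010490,
    0xa0, 1, 0x314285a0, 4,
    [(0xa0, 1), (0x538690a2, 4), (0x548790a1, 4), (0x21437690, 4), (0x538690a2, 4), (0x548790a1, 4)],
    [(0x314285a0, 4), (0x658190a4, 4), (0x758290a3, 4), (0x21437690, 4), (0x658190a4, 4), (0x758290a3, 4)]⟩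

def c_588 : frmChk tA tA F_588 = true := by decide +kernel

def r_588_0 : chkL rootF engF2 tA tA sA_228 sA_228 4 F_588 [(255, 0, 0), (256, 0, 23)]
    0x42e8341b = true := by
  decide +kernel

def r_588_1 : chkL rootF engF2 tA tA sA_228 sA_228 4 F_588 [(256, 23, 0)]
    0x105c3c2d20b03c0f = true := by
  decide +kernel

theorem f_588 (h : TabsF) : FrameF repsF 228 F_588.f :=
  frame_of rfl c_588 ((runs_of engOK r_588_0).append (runs_of engOK r_588_1)) (by decide +kernel) h.1 h.1

def F_589 : FrX :=
  ⟨0x80080a000804040e00002101002001000002040880421002008088000810001041002060002908080024400080200403100042010002200500020820200,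
    0xa6, 1, 0x324353627092a6, 7,
    [(0xa6, 1), (0x205396a8, 4), (0x10548796, 4), (0x214396a7, 4), (0x205396a8, 4), (0x10548796, 4)],
    [(0x324353627092a6, 7), (0x546397a8, 4), (0x42637180, 4), (0x526391a0, 4), (0x546397a8, 4), (0x42637180, 4)]⟩

def c_589 : frmChk tA tA F_589 = true := by decide +kernel

def r_589_0 : chkL rootF engF2 tA tA sA_228 sA_228 4 F_589 [(255, 0, 0), (256, 0, 26)]
    0x112c5c1985615691 = true := by
  decide +kernel

def r_589_1 : chkL rootF engF2 tA tA sA_228 sA_228 4 F_589 [(256, 26, 0)]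
    0x15505c470273501d0d86c2544711c721388e0e41b03c8e = true := by
  decide +kernel

theorem f_589 (h : TabsF) : FrameF repsF 228 F_589.f :=
  frame_of rfl c_589 ((runs_of engOK r_589_0).append (runs_of engOK r_589_1)) (by decide +kernel) h.1 h.1

def F_590 : FrX :=
  ⟨0x2002000900044004000e0204100014100080004080100202020140010200404104020101002a0008020200108220100010008100404c00080044010a0040,
    0xa3, 1, 0x20314050708197a6, 8,
    [(0xa3, 1), (0x208693a5, 4), (0x10548793, 4), (0x217693a4, 4), (0x208693a5, 4), (0x10548793, 4)],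
    [(0x20314050708197a6, 8), (0x416570a3, 4), (0x42658793, 4), (0x216580a9, 4), (0x416570a3, 4), (0x42658793, 4)]⟩

def c_590 : frmChk tA tA F_590 = true := by decide +kernel

def r_590_0 : chkL rootF engF2 tA tA sA_228 sA_228 4 F_590 [(255, 0, 0), (256, 0, 22)]
    0x43c09c4e6c02703c39 = true := by
  decide +kernel

def r_590_1 : chkL rootF engF2 tA tA sA_228 sA_228 4 F_590 [(256, 22, 0)]
    0x11943c0781b3c02e1b03903c470b82e1c4740b474 = true := by
  decide +kernel

theorem f_590 (h : TabsF) : FrameF repsF 228 F_590.f :=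
  frame_of rfl c_590 ((runs_of engOK r_590_0).append (runs_of engOK r_590_1)) (by decide +kernel) h.1 h.1

def F_591 : FrX :=
  ⟨0x80080a000804040e0000210100200100000204089008000030401050022000800801400100800900a002041008401800048248002001002040880200080,
    0xa6, 1, 0x3151647596a8, 6,
    [(0xa6, 1), (0x205396a8, 4), (0x10548796, 4), (0x214396a7, 4), (0x205396a8, 4), (0x10548796, 4)],
    [(0x3151647596a8, 6), (0x207184a9, 4), (0x507684a3, 4), (0x52618493, 4), (0x207184a9, 4), (0x507684a3, 4)]⟩

def c_591 : frmChk tA tA F_591 = true := by decide +kernel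

def r_591_0 : chkL rootF engF2 tA tA sA_228 sA_228 4 F_591 [(255, 0, 0), (256, 0, 21)]
    0x11b03c0d4b40f039 = true := by
  decide +kernel

def r_591_1 : chkL rootF engF2 tA tA sA_228 sA_228 4 F_591 [(256, 21, 0)]
    0x14b11c03e49b040f1384e12c4e0d847 = true := by
  decide +kernel

theorem f_591 (h : TabsF) : FrameF repsF 228 F_591.f :=
  frame_of rfl c_591 ((runs_of engOK r_591_0).append (runs_of engOK r_591_1)) (by decide +kernel) h.1 h.1

def F_592 : FrX :=
  ⟨0x2002000900044004000e02041000141000800040808000204420000830010c0820002000110000900e00001110040080110500a000880800000802021010,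
    0xa3, 1, 0x103042547598a0, 7,
    [(0xa3, 1), (0x208693a5, 4), (0x10548793, 4), (0x217693a4, 4), (0x208693a5, 4), (0x10548793, 4)],
    [(0x103042547598a0, 7), (0x718396a4, 4), (0x758392a0, 4), (0x40516283, 4), (0x718396a4, 4), (0x758392a0, 4)]⟩

def c_592 : frmChk tA tA F_592 = true := by decide +kernel

def r_592_0 : chkL rootF engF2 tA tA sA_228 sA_228 4 F_592 [(255, 0, 0), (256, 0, 21)]
    0x43a0d8360d81b1561503c0f34607 = true := by
  decide +kernel

def r_592_1 : chkL rootF engF2 tA tA sA_228 sA_228 4 F_592 [(256, 21, 23)]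
    0x105c1d5902b = true := by
  decide +kernel

def r_592_2 : chkL rootF engF2 tA tA sA_228 sA_228 4 F_592 [(256, 44, 0)]
    0x1 = true := by
  decide +kernel

theorem f_592 (h : TabsF) : FrameF repsF 228 F_592.f :=
  frame_of rfl c_592 ((runs_of engOK r_592_0).append ((runs_of engOK r_592_1).append (runs_of engOK r_592_2))) (by decide +kernel) h.1 h.1

def F_593 : FrX :=
  ⟨0x2002000900044004000e02041000141000800040810003010101004100142002000004104002008480020300208031000000820010800802444210008200,
    0xa3, 1, 0x314052657682a5, 7,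
    [(0xa3, 1), (0x208693a5, 4), (0x10548793, 4), (0x217693a4, 4), (0x208693a5, 4), (0x10548793, 4)],
    [(0x314052657682a5, 7), (0x758496a1, 4), (0x435296a0, 4), (0x10728396, 4), (0x758496a1, 4), (0x435296a0, 4)]⟩

def c_593 : frmChk tA tA F_593 = true := by decide +kernel

def r_593_0 : chkL rootF engF2 tA tA sA_228 sA_228 4 F_593 [(255, 0, 0), (256, 0, 24)]
    0x10e42b = true := by
  decide +kernel

def r_593_1 : chkL rootF engF2 tA tA sA_228 sA_228 4 F_593 [(256, 24, 0)]
    0x1930a3c312312c278542e = true := by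
  decide +kernel

theorem f_593 (h : TabsF) : FrameF repsF 228 F_593.f :=
  frame_of rfl c_593 ((runs_of engOK r_593_0).append (runs_of engOK r_593_1)) (by decide +kernel) h.1 h.1

def F_594 : FrX :=
  ⟨0x482000044040440000c20400200090001820400011010020200008050001820086000010280004008140100180a80080040082020000a2042010800002,
    0xa0, 1, 0x4253608197a0, 6,
    [(0xa0, 1), (0x538690a2, 4), (0x548790a1, 4), (0x21437690, 4), (0x538690a2, 4), (0x548790a1, 4)],
    [(0x4253608197a0, 6), (0x105376a4, 4), (0x327691a8, 4), (0x52768490, 4), (0x105376a4, 4), (0x327691a8, 4)]⟩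

def c_594 : frmChk tA tA F_594 = true := by decide +kernel

def r_594_0 : chkL rootF engF2 tA tA sA_228 sA_228 4 F_594 [(255, 0, 0), (256, 0, 22)]
    0x10ac2b0b41e50cca = true := by
  decide +kernel

def r_594_1 : chkL rootF engF2 tA tA sA_228 sA_228 4 F_594 [(256, 22, 0)]
    0x11e2613266131760330952941e24c9311c3c22c9386a5850c8b = true := by
  decide +kernel

theorem f_594 (h : TabsF) : FrameF repsF 228 F_594.f :=
  frame_of rfl c_594 ((runs_of engOK r_594_0).append (runs_of engOK r_594_1)) (by decide +kernel) h.1 h.1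

def F_595 : FrX :=
  ⟨0x482000044040440000c2040020009000182040001101002000a000240040820086000010280010a08000100180ac020000008222000082002210800002,
    0xa0, 1, 0x203053728397a3, 7,
    [(0xa0, 1), (0x538690a2, 4), (0x548790a1, 4), (0x21437690, 4), (0x538690a2, 4), (0x548790a1, 4)],
    [(0x203053728397a3, 7), (0x657380a2, 4), (0x31428095, 4), (0x718096a4, 4), (0x657380a2, 4), (0x31428095, 4)]⟩

def c_595 : frmChk tA tA F_595 = true := by decide +kernel

def r_595_0 : chkL rootF engF2 tA tA sA_228 sA_228 4 F_595 [(255, 0, 0), (256, 0, 20)]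
    0x10ac2b2700f = true := by
  decide +kernel

def r_595_1 : chkL rootF engF2 tA tA sA_228 sA_228 4 F_595 [(256, 20, 0)]
    0x41ba183912c4b09cc909c1b = true := by
  decide +kernel

theorem f_595 (h : TabsF) : FrameF repsF 228 F_595.f :=
  frame_of rfl c_595 ((runs_of engOK r_595_0).append (runs_of engOK r_595_1)) (by decide +kernel) h.1 h.1

def F_596 : FrX :=
  ⟨0x2002000900044004000e0204100014100080004080800020440802001011040820002200110000840c01401010042000100400a020802820000802021010,
    0xa3, 1, 0x5463718290a3, 6,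
    [(0xa3, 1), (0x208693a5, 4), (0x10548793, 4), (0x217693a4, 4), (0x208693a5, 4), (0x10548793, 4)],
    [(0x5463718290a3, 6), (0x326098a4, 4), (0x21546097, 4), (0x316087a5, 4), (0x326098a4, 4), (0x21546097, 4)]⟩

def c_596 : frmChk tA tA F_596 = true := by decide +kernel

def r_596_0 : chkL rootF engF2 tA tA sA_228 sA_228 4 F_596 [(255, 0, 0), (256, 0, 14)]
    0x40f0ac3605c0f = true := by
  decide +kernel

def r_596_1 : chkL rootF engF2 tA tA sA_228 sA_228 4 F_596 [(256, 14, 16)]
    0x433 = true := by
  decide +kernel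

def r_596_2 : chkL rootF engF2 tA tA sA_228 sA_228 4 F_596 [(256, 30, 0)]
    0x103c0f1382b = true := by
  decide +kernel

theorem f_596 (h : TabsF) : FrameF repsF 228 F_596.f :=
  frame_of rfl c_596 ((runs_of engOK r_596_0).append ((runs_of engOK r_596_1).append (runs_of engOK r_596_2))) (by decide +kernel) h.1 h.1

theorem cl_228 (h : TabsF) : ∀ f ∈ fr_228, FrameF repsF 228 f :=
  List.forall_mem_cons.2 ⟨f_581 h, List.forall_mem_cons.2 ⟨f_582 h, List.forall_mem_cons.2 ⟨f_583 h, List.forall_mem_cons.2 ⟨f_584 h, List.forall_mem_cons.2 ⟨f_585 h, List.forall_mem_cons.2 ⟨f_586 h, List.forall_mem_cons.2 ⟨f_587 h, List.forall_mem_cons.2 ⟨f_588 h, List.forall_mem_cons.2 ⟨f_589 h, List.forall_mem_cons.2 ⟨f_590 h, List.forall_mem_cons.2 ⟨f_591 h, List.forall_mem_cons.2 ⟨f_592 h, List.forall_mem_cons.2 ⟨f_593 h, List.forall_mem_cons.2 ⟨f_594 h, List.forall_mem_cons.2 ⟨f_595 h, List.forall_mem_cons.2 ⟨f_596 h,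
    fun _ h0 => absurd h0 List.not_mem_nil⟩⟩⟩⟩⟩⟩⟩⟩⟩⟩⟩⟩⟩⟩⟩⟩

def F_597 : FrX :=
  ⟨0x2002000900044004000e02041000141000800040808000204420000830010c0820002000110000840c01401010043000100500a000800820000802021010,
    0xa3, 1, 0x103042547598a0, 7,
    [(0xa3, 1), (0x208693a5, 4), (0x10548793, 4), (0x217693a4, 4), (0x208693a5, 4), (0x10548793, 4)],
    [(0x103042547598a0, 7), (0x718396a4, 4), (0x758392a0, 4), (0x40516283, 4), (0x718396a4, 4), (0x758392a0, 4)]⟩

def c_597 : frmChk tA tA F_597 = true := by decide +kernel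

def r_597_0 : chkL rootF engF2 tA tA sA_229 sA_229 4 F_597 [(255, 0, 0), (256, 0, 22)]
    0x51906c9a = true := by
  decide +kernel

def r_597_1 : chkL rootF engF2 tA tA sA_229 sA_229 4 F_597 [(256, 22, 0)]
    0x106c0f0b82b41d83 = true := by
  decide +kernel

theorem f_597 (h : TabsF) : FrameF repsF 229 F_597.f :=
  frame_of rfl c_597 ((runs_of engOK r_597_0).append (runs_of engOK r_597_1)) (by decide +kernel) h.1 h.1

def F_598 : FrX :=
  ⟨0x80080a000804040e0000210100200100000204088042100201c080000200001001102060002908080024400080200003100042010142200500000820200,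
    0xa6, 1, 0x3240517698a6, 6,
    [(0xa6, 1), (0x205396a8, 4), (0x10548796, 4), (0x214396a7, 4), (0x205396a8, 4), (0x10548796, 4)],
    [(0x3240517698a6, 6), (0x214387a9, 4), (0x10548796, 4), (0x205387a6, 4), (0x214387a9, 4), (0x10548796, 4)]⟩

def c_598 : frmChk tA tA F_598 = true := by decide +kernel

def r_598_0 : chkL rootF engF2 tA tA sA_229 sA_229 4 F_598 [(511, 0, 0)]
    0x1 = true := by
  decide +kernel

theorem f_598 (h : TabsF) : FrameF repsF 229 F_598.f :=
  frame_of rfl c_598 (runs_of engOK r_598_0) (by decide +kernel) h.1 h.1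

def F_599 : FrX :=
  ⟨0x2002000900044004000e02041000141000800040804001010121804000042002100004104022108480020200208030000000820010800802444210008200,
    0xa3, 1, 0x627398a3, 4,
    [(0xa3, 1), (0x208693a5, 4), (0x10548793, 4), (0x217693a4, 4), (0x208693a5, 4), (0x10548793, 4)],
    [(0x627398a3, 4), (0x608792a5, 4), (0x10548793, 4), (0x326187a4, 4), (0x608792a5, 4), (0x10548793, 4)]⟩

def c_599 : frmChk tA tA F_599 = true := by decide +kernel

def r_599_0 : chkL rootF engF2 tA tA sA_229 sA_229 4 F_599 [(255, 0, 0), (256, 0, 23)]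
    0x128d13 = true := by
  decide +kernel

def r_599_1 : chkL rootF engF2 tA tA sA_229 sA_229 4 F_599 [(256, 23, 0)]
    0x14342b = true := by
  decide +kernel

theorem f_599 (h : TabsF) : FrameF repsF 229 F_599.f :=
  frame_of rfl c_599 ((runs_of engOK r_599_0).append (runs_of engOK r_599_1)) (by decide +kernel) h.1 h.1

def F_600 : FrX :=
  ⟨0x482000044040440000c20400200090001820400100100412008008100804082080100010010801422008108000380000000910040c0000040880110090,
    0xa0, 1, 0x314285a0, 4,
    [(0xa0, 1), (0x538690a2, 4), (0x548790a1, 4), (0x21437690, 4), (0x538690a2, 4), (0x548790a1, 4)],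
    [(0x314285a0, 4), (0x658190a4, 4), (0x758290a3, 4), (0x21437690, 4), (0x658190a4, 4), (0x758290a3, 4)]⟩

def c_600 : frmChk tA tA F_600 = true := by decide +kernel

def r_600_0 : chkL rootF engF2 tA tA sA_229 sA_229 4 F_600 [(255, 0, 0), (256, 0, 23)]
    0x18342b22c1d134590ac8b07427 = true := by
  decide +kernel

def r_600_1 : chkL rootF engF2 tA tA sA_229 sA_229 4 F_600 [(256, 23, 0)]
    0x13c07405c170ae13711540cc27 = true := by
  decide +kernel

theorem f_600 (h : TabsF) : FrameF repsF 229 F_600.f :=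
  frame_of rfl c_600 ((runs_of engOK r_600_0).append (runs_of engOK r_600_1)) (by decide +kernel) h.1 h.1

theorem cl_229 (h : TabsF) : ∀ f ∈ fr_229, FrameF repsF 229 f :=
  List.forall_mem_cons.2 ⟨f_597 h, List.forall_mem_cons.2 ⟨f_598 h, List.forall_mem_cons.2 ⟨f_599 h, List.forall_mem_cons.2 ⟨f_600 h,
    fun _ h0 => absurd h0 List.not_mem_nil⟩⟩⟩⟩

def F_601 : FrX :=
  ⟨0x2002000900044004000e02041000141000800040801002010420002100324008000001101520002004040011100400801004002040403000304104011000,
    0xa3, 1, 0x3262738298a3, 6,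
    [(0xa3, 1), (0x208693a5, 4), (0x10548793, 4), (0x217693a4, 4), (0x208693a5, 4), (0x10548793, 4)],
    [(0x3262738298a3, 6), (0x768093a5, 4), (0x10547692, 4), (0x327681a4, 4), (0x768093a5, 4), (0x10547692, 4)]⟩

def c_601 : frmChk tA tA F_601 = true := by decide +kernel

def r_601_0 : chkL rootF engF2 tA tA sA_230 sA_230 4 F_601 [(255, 0, 0), (256, 0, 17)]
    0x13485305c990af420b4b1 = true := by
  decide +kernel

def r_601_1 : chkL rootF engF2 tA tA sA_230 sA_230 4 F_601 [(256, 17, 14)]
    0x7423242703d8c0e82b = true := by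
  decide +kernel

def r_601_2 : chkL rootF engF2 tA tA sA_230 sA_230 4 F_601 [(256, 31, 0)]
    0x4479301711c272348d = true := by
  decide +kernel

theorem f_601 (h : TabsF) : FrameF repsF 230 F_601.f :=
  frame_of rfl c_601 ((runs_of engOK r_601_0).append ((runs_of engOK r_601_1).append (runs_of engOK r_601_2))) (by decide +kernel) h.1 h.1

def F_602 : FrX :=
  ⟨0x2002000900044004000e0204100014100080004082020002420040020800c080140200000028010c8002020002201022a000821000840000002210008210,
    0xa3, 1, 0x2141627081a0, 6,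
    [(0xa3, 1), (0x208693a5, 4), (0x10548793, 4), (0x217693a4, 4), (0x208693a5, 4), (0x10548793, 4)],
    [(0x2141627081a0, 6), (0x415397a6, 4), (0x405297a8, 4), (0x10328697, 4), (0x415397a6, 4), (0x405297a8, 4)]⟩

def c_602 : frmChk tA tA F_602 = true := by decide +kernel

def r_602_0 : chkL rootF engF2 tA tA sA_230 sA_230 4 F_602 [(255, 0, 0), (256, 0, 24)]
    0x730134270ac2e0e8992e036 = true := by
  decide +kernel

def r_602_1 : chkL rootF engF2 tA tA sA_230 sA_230 4 F_602 [(256, 24, 0)]
    0x10d82b09c1d0741b2581b3c02b0e46306e4618e6212c4d0e42b0744e09ca3 = true := by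
  decide +kernel

theorem f_602 (h : TabsF) : FrameF repsF 230 F_602.f :=
  frame_of rfl c_602 ((runs_of engOK r_602_0).append (runs_of engOK r_602_1)) (by decide +kernel) h.1 h.1

def F_603 : FrX :=
  ⟨0x482000044040440000c2040020009000182040010020082000800811810004004400101420082000800811010088800004001204000904050910000010,
    0xa0, 1, 0x3241608597a0, 6,
    [(0xa0, 1), (0x538690a2, 4), (0x548790a1, 4), (0x21437690, 4), (0x538690a2, 4), (0x548790a1, 4)],
    [(0x3241608597a0, 6), (0x507682a3, 4), (0x768195a4, 4), (0x21437690, 4), (0x507682a3, 4), (0x768195a4, 4)]⟩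

def c_603 : frmChk tA tA F_603 = true := by decide +kernel

def r_603_0 : chkL rootF engF2 tA tA sA_230 sA_230 4 F_603 [(255, 0, 0), (256, 0, 22)]
    0x10f02da1a0e0ac5503c0f18cb42383631471b0433164710d8531641d0741d0b81782c8b12c1b = true := by
  decide +kernel

def r_603_1 : chkL rootF engF2 tA tA sA_230 sA_230 4 F_603 [(256, 22, 0)]
    0x11681b0ae4312c1b0e42d0ac0f0ccca22c3906c1b705a80b6a2a16a163286e1055 = true := by
  decide +kernel

theorem f_603 (h : TabsF) : FrameF repsF 230 F_603.f :=
  frame_of rfl c_603 ((runs_of engOK r_603_0).append (runs_of engOK r_603_1)) (by decide +kernel) h.1 h.1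

def F_604 : FrX :=
  ⟨0x482000044040440000c2040020009000182040001100408004020200000890028210009a08000400000020820a200000604040804100a2002010200004,
    0xa0, 1, 0x21304253748295a6, 8,
    [(0xa0, 1), (0x538690a2, 4), (0x548790a1, 4), (0x21437690, 4), (0x538690a2, 4), (0x548790a1, 4)],
    [(0x21304253748295a6, 8), (0x608395a4, 4), (0x32416097, 4), (0x607582a1, 4), (0x608395a4, 4), (0x32416097, 4)]⟩

def c_604 : frmChk tA tA F_604 = true := by decide +kernel

def r_604_0 : chkL rootF engF2 tA tA sA_230 sA_230 4 F_604 [(255, 0, 0), (256, 0, 20)]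
    0x11c417294c60accc05c1e = true := by
  decide +kernel

def r_604_1 : chkL rootF engF2 tA tA sA_230 sA_230 4 F_604 [(256, 20, 0)]
    0x109c4b0b41e07915c500fc2b0903c1d = true := by
  decide +kernel

theorem f_604 (h : TabsF) : FrameF repsF 230 F_604.f :=
  frame_of rfl c_604 ((runs_of engOK r_604_0).append (runs_of engOK r_604_1)) (by decide +kernel) h.1 h.1

def F_605 : FrX :=
  ⟨0x80080a000804040e00002101002001000002040880660002008088000010001041002044400010080020120128002228120040041010101004040200200,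
    0xa6, 1, 0x3160758495a5, 6,
    [(0xa6, 1), (0x205396a8, 4), (0x10548796, 4), (0x214396a7, 4), (0x205396a8, 4), (0x10548796, 4)],
    [(0x3160758495a5, 6), (0x406297a1, 4), (0x546397a8, 4), (0x32508197, 4), (0x406297a1, 4), (0x546397a8, 4)]⟩

def c_605 : frmChk tA tA F_605 = true := by decide +kernel

def r_605_0 : chkL rootF engF2 tA tA sA_230 sA_230 4 F_605 [(255, 0, 0), (256, 0, 18)]
    0x42d06c7206c2d0b50b6242b85913c0e4a11e4314c99 = true := by
  decide +kernel

def r_605_1 : chkL rootF engF2 tA tA sA_230 sA_230 4 F_605 [(256, 18, 14)]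
    0x41b495a109c2e12cd1 = true := by
  decide +kernel

def r_605_2 : chkL rootF engF2 tA tA sA_230 sA_230 4 F_605 [(256, 32, 0)]
    0x43612c4730c931542714d155483a = true := by
  decide +kernel

theorem f_605 (h : TabsF) : FrameF repsF 230 F_605.f :=
  frame_of rfl c_605 ((runs_of engOK r_605_0).append ((runs_of engOK r_605_1).append (runs_of engOK r_605_2))) (by decide +kernel) h.1 h.1

def F_606 : FrX :=
  ⟨0x2002000900044004000e0204100014100080004080100341000140010012400000010110402200028004001020841040100081004050a000204104011000,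
    0xa3, 1, 0x3240647487a8, 6,
    [(0xa3, 1), (0x208693a5, 4), (0x10548793, 4), (0x217693a4, 4), (0x208693a5, 4), (0x10548793, 4)],
    [(0x3240647487a8, 6), (0x435296a0, 4), (0x417596a8, 4), (0x31728096, 4), (0x435296a0, 4), (0x417596a8, 4)]⟩

def c_606 : frmChk tA tA F_606 = true := by decide +kernel

def r_606_0 : chkL rootF engF2 tA tA sA_230 sA_230 4 F_606 [(255, 0, 0), (256, 0, 23)]
    0x4743184d0ce1a = true := by
  decide +kernel

def r_606_1 : chkL rootF engF2 tA tA sA_230 sA_230 4 F_606 [(256, 23, 0)]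
    0x11341d3302b03c6306c4d5288b = true := by
  decide +kernel

theorem f_606 (h : TabsF) : FrameF repsF 230 F_606.f :=
  frame_of rfl c_606 ((runs_of engOK r_606_0).append (runs_of engOK r_606_1)) (by decide +kernel) h.1 h.1

def F_607 : FrX :=
  ⟨0x482000044040440000c204002000900018204000110040120090020000409000821000108d000102000800800208800021400080482082002010200404,
    0xa0, 1, 0x3142758690a0, 6,
    [(0xa0, 1), (0x538690a2, 4), (0x548790a1, 4), (0x21437690, 4), (0x538690a2, 4), (0x548790a1, 4)],
    [(0x3142758690a0, 6), (0x718690a4, 4), (0x657290a3, 4), (0x21438590, 4), (0x718690a4, 4), (0x657290a3, 4)]⟩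

def c_607 : frmChk tA tA F_607 = true := by decide +kernel

def r_607_0 : chkL rootF engF2 tA tA sA_230 sA_230 4 F_607 [(255, 0, 0), (256, 0, 22)]
    0x109c1d14cb86194ce110e1382712c2d9301d14c2d930365503c1541703c2b0cd521c41e = true := by
  decide +kernel

def r_607_1 : chkL rootF engF2 tA tA sA_230 sA_230 4 F_607 [(256, 22, 0)]
    0x112e4a0d8590e4170ac1e078170750e42c9324c5a468781683c1545a = true := by
  decide +kernel

theorem f_607 (h : TabsF) : FrameF repsF 230 F_607.f :=
  frame_of rfl c_607 ((runs_of engOK r_607_0).append (runs_of engOK r_607_1)) (by decide +kernel) h.1 h.1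

def F_608 : FrX :=
  ⟨0x80080a000804040e00002101002001000002040881200002210020800002204040500044400004080180480122002008002111001010104200110080010,
    0xa6, 1, 0x5261708493a6, 6,
    [(0xa6, 1), (0x205396a8, 4), (0x10548796, 4), (0x214396a7, 4), (0x205396a8, 4), (0x10548796, 4)],
    [(0x5261708493a6, 6), (0x317592a4, 4), (0x31407682, 4), (0x316598a0, 4), (0x317592a4, 4), (0x31407682, 4)]⟩

def c_608 : frmChk tA tA F_608 = true := by decide +kernel

def r_608_0 : chkL rootF engF2 tA tA sA_230 sA_230 4 F_608 [(255, 0, 0), (256, 0, 23)]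
    0x41d1682b524a90744703e2c0f2628d2328a6a150c1d9c03c0d42b0f03c = true := by
  decide +kernel

def r_608_1 : chkL rootF engF2 tA tA sA_230 sA_230 4 F_608 [(256, 23, 0)]
    0x44b11c5a0d41d0b81d0742e2590e1708d2341b0b82d = true := by
  decide +kernel

theorem f_608 (h : TabsF) : FrameF repsF 230 F_608.f :=
  frame_of rfl c_608 ((runs_of engOK r_608_0).append (runs_of engOK r_608_1)) (by decide +kernel) h.1 h.1

def F_609 : FrX :=
  ⟨0x482000044040440000c2040020009000182040020000812200100110014050004200000022082000882801100010400240010240000920002010200209,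
    0xa0, 1, 0x3152768490a0, 6,
    [(0xa0, 1), (0x538690a2, 4), (0x548790a1, 4), (0x21437690, 4), (0x538690a2, 4), (0x548790a1, 4)],
    [(0x3152768490a0, 6), (0x217490a5, 4), (0x648290a3, 4), (0x53768190, 4), (0x217490a5, 4), (0x648290a3, 4)]⟩

def c_609 : frmChk tA tA F_609 = true := by decide +kernel

def r_609_0 : chkL rootF engF2 tA tA sA_230 sA_230 4 F_609 [(255, 0, 0), (256, 0, 14)]
    0x144c4705c2b06c27078170ac170b82b = true := by
  decide +kernel

def r_609_1 : chkL rootF engF2 tA tA sA_230 sA_230 4 F_609 [(256, 14, 13)]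
    0x12a6a80ac2d06d685a02b13847 = true := by
  decide +kernel

def r_609_2 : chkL rootF engF2 tA tA sA_230 sA_230 4 F_609 [(256, 27, 0)]
    0x105c1705c1b11c1b07817 = true := by
  decide +kernel

theorem f_609 (h : TabsF) : FrameF repsF 230 F_609.f :=
  frame_of rfl c_609 ((runs_of engOK r_609_0).append ((runs_of engOK r_609_1).append (runs_of engOK r_609_2))) (by decide +kernel) h.1 h.1

def F_610 : FrX :=
  ⟨0x2002000900044004000e0204100014100080004080040104202000240000c082100100104082000280040204083000108100202040508004001004044200,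
    0xa3, 1, 0x3160748293a5, 6,
    [(0xa3, 1), (0x208693a5, 4), (0x10548793, 4), (0x217693a4, 4), (0x208693a5, 4), (0x10548793, 4)],
    [(0x3160748293a5, 6), (0x205186a9, 4), (0x425163a7, 4), (0x40518397, 4), (0x205186a9, 4), (0x425163a7, 4)]⟩

def c_610 : frmChk tA tA F_610 = true := by decide +kernel

def r_610_0 : chkL rootF engF2 tA tA sA_230 sA_230 4 F_610 [(511, 0, 0)]
    0x103c2e03c351340f05c5305c0f0784d03c0f0ac3511c550ac3903c2d0b515 = true := by
  decide +kernel

theorem f_610 (h : TabsF) : FrameF repsF 230 F_610.f :=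
  frame_of rfl c_610 (runs_of engOK r_610_0) (by decide +kernel) h.1 h.1

theorem cl_230 (h : TabsF) : ∀ f ∈ fr_230, FrameF repsF 230 f :=
  List.forall_mem_cons.2 ⟨f_601 h, List.forall_mem_cons.2 ⟨f_602 h, List.forall_mem_cons.2 ⟨f_603 h, List.forall_mem_cons.2 ⟨f_604 h, List.forall_mem_cons.2 ⟨f_605 h, List.forall_mem_cons.2 ⟨f_606 h, List.forall_mem_cons.2 ⟨f_607 h, List.forall_mem_cons.2 ⟨f_608 h, List.forall_mem_cons.2 ⟨f_609 h, List.forall_mem_cons.2 ⟨f_610 h,
    fun _ h0 => absurd h0 List.not_mem_nil⟩⟩⟩⟩⟩⟩⟩⟩⟩⟩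

def F_611 : FrX :=
  ⟨0x80080a000804040e000021010020010000020408900100080820081008800010118000808020810200080004010824201c0200040400100244021080080,
    0xa6, 1, 0x2165708394a6, 6,
    [(0xa6, 1), (0x205396a8, 4), (0x10548796, 4), (0x214396a7, 4), (0x205396a8, 4), (0x10548796, 4)],
    [(0x2165708394a6, 6), (0x547186a3, 4), (0x30547296, 4), (0x215498a0, 4), (0x547186a3, 4), (0x30547296, 4)]⟩

def c_611 : frmChk tA tA F_611 = true := by decide +kernel

def r_611_0 : chkL rootF engF2 tA tA sA_231 sA_231 4 F_611 [(255, 0, 0), (256, 0, 15)]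
    0x435 = true := by
  decide +kernel

def r_611_1 : chkL rootF engF2 tA tA sA_231 sA_231 4 F_611 [(256, 15, 14)]
    0x1159620b817 = true := by
  decide +kernel

def r_611_2 : chkL rootF engF2 tA tA sA_231 sA_231 4 F_611 [(256, 29, 0)]
    0x46c = true := by
  decide +kernel

theorem f_611 (h : TabsF) : FrameF repsF 231 F_611.f :=
  frame_of rfl c_611 ((runs_of engOK r_611_0).append ((runs_of engOK r_611_1).append (runs_of engOK r_611_2))) (by decide +kernel) h.1 h.1

def F_612 : FrX :=
  ⟨0x2002000900044004000e02041000141000800040808001002080840402034000100080204092101008080007000002800100202040401000011024200208,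
    0xa3, 1, 0x10204353618597a3, 8,
    [(0xa3, 1), (0x208693a5, 4), (0x10548793, 4), (0x217693a4, 4), (0x208693a5, 4), (0x10548793, 4)],
    [(0x10204353618597a3, 8), (0x214075a8, 4), (0x62758394, 4), (0x617590a3, 4), (0x214075a8, 4), (0x62758394, 4)]⟩

def c_612 : frmChk tA tA F_612 = true := by decide +kernel

def r_612_0 : chkL rootF engF2 tA tA sA_231 sA_231 4 F_612 [(255, 0, 0), (256, 0, 23)]
    0x4398c44e318c651545135157104d50f410d54c = true := by
  decide +kernel

def r_612_1 : chkL rootF engF2 tA tA sA_231 sA_231 4 F_612 [(256, 23, 0)]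
    0x103c3c06c470b81e05c0f05c0f = true := by
  decide +kernel

theorem f_612 (h : TabsF) : FrameF repsF 231 F_612.f :=
  frame_of rfl c_612 ((runs_of engOK r_612_0).append (runs_of engOK r_612_1)) (by decide +kernel) h.1 h.1

def F_613 : FrX :=
  ⟨0x482000044040440000c2040020009000182040020000900400200030014041040200400022080220800800081004420280004a40200400004300008048,
    0xa0, 1, 0x10203041617590a2, 8,
    [(0xa0, 1), (0x538690a2, 4), (0x548790a1, 4), (0x21437690, 4), (0x538690a2, 4), (0x548790a1, 4)],
    [(0x10203041617590a2, 8), (0x317284a9, 4), (0x31708596, 4), (0x203154a6, 4), (0x317284a9, 4), (0x31708596, 4)]⟩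

def c_613 : frmChk tA tA F_613 = true := by decide +kernel

def r_613_0 : chkL rootF engF2 tA tA sA_231 sA_231 4 F_613 [(255, 0, 0), (256, 0, 20)]
    0x10b50b0785c = true := by
  decide +kernel

def r_613_1 : chkL rootF engF2 tA tA sA_231 sA_231 4 F_613 [(256, 20, 0)]
    0x105c17 = true := by
  decide +kernel

theorem f_613 (h : TabsF) : FrameF repsF 231 F_613.f :=
  frame_of rfl c_613 ((runs_of engOK r_613_0).append (runs_of engOK r_613_1)) (by decide +kernel) h.1 h.1

def F_614 : FrX :=
  ⟨0x482000044040440000c2040020009000182040020000828000020280040890040020080101010186200200202004240300001008050000002210008210,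
    0xa0, 1, 0x3162758493a1, 6,
    [(0xa0, 1), (0x538690a2, 4), (0x548790a1, 4), (0x21437690, 4), (0x538690a2, 4), (0x548790a1, 4)],
    [(0x3162758493a1, 6), (0x31426097, 4), (0x315487a0, 4), (0x315298a6, 4), (0x31426097, 4), (0x315487a0, 4)]⟩

def c_614 : frmChk tA tA F_614 = true := by decide +kernel

def r_614_0 : chkL rootF engF2 tA tA sA_231 sA_231 4 F_614 [(255, 0, 0), (256, 0, 22)]
    0x144c2b = true := by
  decide +kernel

def r_614_1 : chkL rootF engF2 tA tA sA_231 sA_231 4 F_614 [(256, 22, 0)]
    0x10f02d = true := by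
  decide +kernel

theorem f_614 (h : TabsF) : FrameF repsF 231 F_614.f :=
  frame_of rfl c_614 ((runs_of engOK r_614_0).append (runs_of engOK r_614_1)) (by decide +kernel) h.1 h.1

def F_615 : FrX :=
  ⟨0x1c21020000040440000020410001010000820408a0001100000024200404022000080a0009a101008080005004102801100400080500006010004600200,
    0x0, 0, 0x537387, 3,
    [(0x0, 0), (0x205386a9, 4), (0x105487a9, 4), (0x214376a9, 4), (0x205386a9, 4), (0x105487a9, 4)],
    [(0x537387, 3), (0x206573a9, 4), (0x104385a9, 4), (0x217486a9, 4), (0x206573a9, 4), (0x104385a9, 4)]⟩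

def c_615 : frmChk tA tA F_615 = true := by decide +kernel

def r_615_0 : chkL rootF engF2 tA tA sA_231 sA_231 4 F_615 [(255, 0, 0), (256, 0, 5)]
    0x10d43a05cd285417138a6 = true := by
  decide +kernel

def r_615_1 : chkL rootF engF2 tA tA sA_231 sA_231 4 F_615 [(256, 5, 15)]
    0x52c = true := by
  decide +kernel

def r_615_2 : chkL rootF engF2 tA tA sA_231 sA_231 4 F_615 [(256, 20, 6)]
    0x111c2d = true := by
  decide +kernel

def r_615_3 : chkL rootF engF2 tA tA sA_231 sA_231 4 F_615 [(256, 26, 3)]
    0x616 = true := by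
  decide +kernel

def r_615_4 : chkL rootF engF2 tA tA sA_231 sA_231 4 F_615 [(256, 29, 3)]
    0x1 = true := by
  decide +kernel

def r_615_5 : chkL rootF engF2 tA tA sA_231 sA_231 4 F_615 [(256, 32, 3)]
    0x128ca6 = true := by
  decide +kernel

def r_615_6 : chkL rootF engF2 tA tA sA_231 sA_231 4 F_615 [(256, 35, 3)]
    0x14390e52625 = true := by
  decide +kernel

def r_615_7 : chkL rootF engF2 tA tA sA_231 sA_231 4 F_615 [(256, 38, 2)]
    0x41712c5a21c172941721c4e05c66 = true := by
  decide +kernel

def r_615_8 : chkL rootF engF2 tA tA sA_231 sA_231 4 F_615 [(256, 40, 3)]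
    0x114c3618c170d81705c17 = true := by
  decide +kernel

def r_615_9 : chkL rootF engF2 tA tA sA_231 sA_231 4 F_615 [(256, 43, 0)]
    0x112cd40ac1718c170d817 = true := by
  decide +kernel

theorem f_615 (h : TabsF) : FrameF repsF 231 F_615.f :=
  frame_of rfl c_615 ((runs_of engOK r_615_0).append ((runs_of engOK r_615_1).append ((runs_of engOK r_615_2).append ((runs_of engOK r_615_3).append ((runs_of engOK r_615_4).append ((runs_of engOK r_615_5).append ((runs_of engOK r_615_6).append ((runs_of engOK r_615_7).append ((runs_of engOK r_615_8).append (runs_of engOK r_615_9)))))))))) (by decide +kernel) h.1 h.1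

def F_616 : FrX :=
  ⟨0x482000044040440000c204002000900018204000090200082000080880088400488000088800020200002044400080201800048420010c240020200401,
    0xa0, 1, 0x3154708296a0, 6,
    [(0xa0, 1), (0x538690a2, 4), (0x548790a1, 4), (0x21437690, 4), (0x538690a2, 4), (0x548790a1, 4)],
    [(0x3154708296a0, 6), (0x417692a8, 4), (0x205476a3, 4), (0x51768390, 4), (0x417692a8, 4), (0x205476a3, 4)]⟩

def c_616 : frmChk tA tA F_616 = true := by decide +kernel

def r_616_0 : chkL rootF engF2 tA tA sA_231 sA_231 4 F_616 [(255, 0, 0), (256, 0, 22)]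
    0x14691a = true := by
  decide +kernel

def r_616_1 : chkL rootF engF2 tA tA sA_231 sA_231 4 F_616 [(256, 22, 0)]
    0x10b82e = true := by
  decide +kernel

theorem f_616 (h : TabsF) : FrameF repsF 231 F_616.f :=
  frame_of rfl c_616 ((runs_of engOK r_616_0).append (runs_of engOK r_616_1)) (by decide +kernel) h.1 h.1

def F_617 : FrX :=
  ⟨0x80080a000804040e0000210100200100000204088108100004103004044000200002302001a100008090001004100801042000080410086010010140200,
    0xa6, 1, 0x10213241617198a0, 8,
    [(0xa6, 1), (0x205396a8, 4), (0x10548796, 4), (0x214396a7, 4), (0x205396a8, 4), (0x10548796, 4)],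
    [(0x10213241617198a0, 8), (0x508194a3, 4), (0x528196a7, 4), (0x20647381, 4), (0x508194a3, 4), (0x528196a7, 4)]⟩

def c_617 : frmChk tA tA F_617 = true := by decide +kernel

def r_617_0 : chkL rootF engF2 tA tA sA_231 sA_231 4 F_617 [(255, 0, 0), (256, 0, 24)]
    0x1079455140f8361c = true := by
  decide +kernel

def r_617_1 : chkL rootF engF2 tA tA sA_231 sA_231 4 F_617 [(256, 24, 0)]
    0x12341706c1b = true := by
  decide +kernel

theorem f_617 (h : TabsF) : FrameF repsF 231 F_617.f :=
  frame_of rfl c_617 ((runs_of engOK r_617_0).append (runs_of engOK r_617_1)) (by decide +kernel) h.1 h.1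

def F_618 : FrX :=
  ⟨0x80080a000804040e000021010020010000020408806000044100801200040880048200014000800800408000c0431400020010040480800340080220100,
    0xa6, 1, 0x3241758690a6, 6,
    [(0xa6, 1), (0x205396a8, 4), (0x10548796, 4), (0x214396a7, 4), (0x205396a8, 4), (0x10548796, 4)],
    [(0x3241758690a6, 6), (0x728093a6, 4), (0x65718094, 4), (0x214380a5, 4), (0x728093a6, 4), (0x65718094, 4)]⟩

def c_618 : frmChk tA tA F_618 = true := by decide +kernel

def r_618_0 : chkL rootF engF2 tA tA sA_231 sA_231 4 F_618 [(255, 0, 0), (256, 0, 23)]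
    0x41e07453 = true := by
  decide +kernel

def r_618_1 : chkL rootF engF2 tA tA sA_231 sA_231 4 F_618 [(256, 23, 0)]
    0x41e0781b = true := by
  decide +kernel

theorem f_618 (h : TabsF) : FrameF repsF 231 F_618.f :=
  frame_of rfl c_618 ((runs_of engOK r_618_0).append (runs_of engOK r_618_1)) (by decide +kernel) h.1 h.1

def F_619 : FrX :=
  ⟨0x2002000900044004000e0204100014100080004081000001810080240102020830000010142c000880042400000420009100800040400200300004011900,
    0xa3, 1, 0x1043728596a3, 6,
    [(0xa3, 1), (0x208693a5, 4), (0x10548793, 4), (0x217693a4, 4), (0x208693a5, 4), (0x10548793, 4)],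
    [(0x1043728596a3, 6), (0x647195a8, 4), (0x10526483, 4), (0x647092a3, 4), (0x647195a8, 4), (0x10526483, 4)]⟩

def c_619 : frmChk tA tA F_619 = true := by decide +kernel

def r_619_0 : chkL rootF engF2 tA tA sA_231 sA_231 4 F_619 [(255, 0, 0), (256, 0, 23)]
    0x148d0e1c85c1e03a = true := by
  decide +kernel

def r_619_1 : chkL rootF engF2 tA tA sA_231 sA_231 4 F_619 [(256, 23, 0)]
    0x103c74134270d52309e8a8368c = true := by
  decide +kernel

theorem f_619 (h : TabsF) : FrameF repsF 231 F_619.f :=
  frame_of rfl c_619 ((runs_of engOK r_619_0).append (runs_of engOK r_619_1)) (by decide +kernel) h.1 h.1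

def F_620 : FrX :=
  ⟨0x482000044040440000c20400200090001820400020804400008802000400900200188190204004008008008802100400800070004408a0002004200004,
    0xa0, 1, 0x2031658794a0, 6,
    [(0xa0, 1), (0x538690a2, 4), (0x548790a1, 4), (0x21437690, 4), (0x538690a2, 4), (0x548790a1, 4)],
    [(0x2031658794a0, 6), (0x426175a0, 4), (0x428796a3, 4), (0x30428591, 4), (0x426175a0, 4), (0x428796a3, 4)]⟩

def c_620 : frmChk tA tA F_620 = true := by decide +kernel

def r_620_0 : chkL rootF engF2 tA tA sA_231 sA_231 4 F_620 [(255, 0, 0), (256, 0, 22)]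
    0x4992384b05ca61d01e = true := by
  decide +kernel

def r_620_1 : chkL rootF engF2 tA tA sA_231 sA_231 4 F_620 [(256, 22, 0)]
    0x44707872 = true := by
  decide +kernel

theorem f_620 (h : TabsF) : FrameF repsF 231 F_620.f :=
  frame_of rfl c_620 ((runs_of engOK r_620_0).append (runs_of engOK r_620_1)) (by decide +kernel) h.1 h.1

theorem cl_231 (h : TabsF) : ∀ f ∈ fr_231, FrameF repsF 231 f :=
  List.forall_mem_cons.2 ⟨f_611 h, List.forall_mem_cons.2 ⟨f_612 h, List.forall_mem_cons.2 ⟨f_613 h, List.forall_mem_cons.2 ⟨f_614 h, List.forall_mem_cons.2 ⟨f_615 h, List.forall_mem_cons.2 ⟨f_616 h, List.forall_mem_cons.2 ⟨f_617 h, List.forall_mem_cons.2 ⟨f_618 h, List.forall_mem_cons.2 ⟨f_619 h, List.forall_mem_cons.2 ⟨f_620 h,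
    fun _ h0 => absurd h0 List.not_mem_nil⟩⟩⟩⟩⟩⟩⟩⟩⟩⟩

def F_621 : FrX :=
  ⟨0x2002000900044004000e0204100014100080004080040208011004040083080100000410110400040c0000048008100010200a0006210800100840600440,
    0xa3, 1, 0x5363758095a6, 6,
    [(0xa3, 1), (0x208693a5, 4), (0x10548793, 4), (0x217693a4, 4), (0x208693a5, 4), (0x10548793, 4)],
    [(0x5363758095a6, 6), (0x758296a0, 4), (0x30758194, 4), (0x216475a3, 4), (0x758296a0, 4), (0x30758194, 4)]⟩

def c_621 : frmChk tA tA F_621 = true := by decide +kernel

def r_621_0 : chkL rootF engF2 tA tA sA_232 sA_232 4 F_621 [(255, 0, 0), (256, 0, 14)]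
    0x1 = true := by
  decide +kernel

def r_621_1 : chkL rootF engF2 tA tA sA_232 sA_232 4 F_621 [(256, 14, 18)]
    0x41e05c55 = true := by
  decide +kernel

def r_621_2 : chkL rootF engF2 tA tA sA_232 sA_232 4 F_621 [(256, 32, 0)]
    0x40f = true := by
  decide +kernel

theorem f_621 (h : TabsF) : FrameF repsF 232 F_621.f :=
  frame_of rfl c_621 ((runs_of engOK r_621_0).append ((runs_of engOK r_621_1).append (runs_of engOK r_621_2))) (by decide +kernel) h.1 h.1

def F_622 : FrX :=
  ⟨0x2002000900044004000e020410001410008000408004020801080440020184000200048191004004048000048200100010200a00060008200008c0200048,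
    0xa3, 1, 0x4362738598a3, 6,
    [(0xa3, 1), (0x208693a5, 4), (0x10548793, 4), (0x217693a4, 4), (0x208693a5, 4), (0x10548793, 4)],
    [(0x4362738598a3, 6), (0x607592a8, 4), (0x10758394, 4), (0x426175a3, 4), (0x607592a8, 4), (0x10758394, 4)]⟩

def c_622 : frmChk tA tA F_622 = true := by decide +kernel

def r_622_0 : chkL rootF engF2 tA tA sA_232 sA_232 4 F_622 [(255, 0, 0), (256, 0, 22)]
    0x40f03c0f0d81b03c63 = true := by
  decide +kernel

def r_622_1 : chkL rootF engF2 tA tA sA_232 sA_232 4 F_622 [(256, 22, 0)]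
    0x5702942709c0f03c0f = true := by
  decide +kernel

theorem f_622 (h : TabsF) : FrameF repsF 232 F_622.f :=
  frame_of rfl c_622 ((runs_of engOK r_622_0).append (runs_of engOK r_622_1)) (by decide +kernel) h.1 h.1

def F_623 : FrX :=
  ⟨0x482000044040440000c2040020009000182040010040042001000180080041810100080808011c10000060408008220100080140100080044300000082,
    0xa0, 1, 0x4252648593a1, 6,
    [(0xa0, 1), (0x538690a2, 4), (0x548790a1, 4), (0x21437690, 4), (0x538690a2, 4), (0x548790a1, 4)],
    [(0x4252648593a1, 6), (0x31425098, 4), (0x317486a0, 4), (0x317296a5, 4), (0x31425098, 4), (0x317486a0, 4)]⟩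

def c_623 : frmChk tA tA F_623 = true := by decide +kernel

def r_623_0 : chkL rootF engF2 tA tA sA_232 sA_232 4 F_623 [(255, 0, 0), (256, 0, 25)]
    0x109c1e06c1b = true := by
  decide +kernel

def r_623_1 : chkL rootF engF2 tA tA sA_232 sA_232 4 F_623 [(256, 25, 0)]
    0x1270d2454ca0ac3307463 = true := by
  decide +kernel

theorem f_623 (h : TabsF) : FrameF repsF 232 F_623.f :=
  frame_of rfl c_623 ((runs_of engOK r_623_0).append (runs_of engOK r_623_1)) (by decide +kernel) h.1 h.1

def F_624 : FrX :=
  ⟨0x482000044040440000c2040020009000182040010080040401000180040050030014000808010410000220408008220018288000a00080044220000082,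
    0xa0, 1, 0x3042758691a0, 6,
    [(0xa0, 1), (0x538690a2, 4), (0x548790a1, 4), (0x21437690, 4), (0x538690a2, 4), (0x548790a1, 4)],
    [(0x3042758691a0, 6), (0x317086a4, 4), (0x316572a9, 4), (0x20318594, 4), (0x317086a4, 4), (0x316572a9, 4)]⟩

def c_624 : frmChk tA tA F_624 = true := by decide +kernel

def r_624_0 : chkL rootF engF2 tA tA sA_232 sA_232 4 F_624 [(255, 0, 0), (256, 0, 23)]
    0x12941e03c4d = true := by
  decide +kernel

def r_624_1 : chkL rootF engF2 tA tA sA_232 sA_232 4 F_624 [(256, 23, 0)]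
    0x106d070781b = true := by
  decide +kernel

theorem f_624 (h : TabsF) : FrameF repsF 232 F_624.f :=
  frame_of rfl c_624 ((runs_of engOK r_624_0).append (runs_of engOK r_624_1)) (by decide +kernel) h.1 h.1

def F_625 : FrX :=
  ⟨0x1c21020000040440000020410001010000820408a0001100000082100204041000201080028011c10100040028408220300000041100008004300408040,
    0x0, 0, 0x546474, 3,
    [(0x0, 0), (0x205386a9, 4), (0x105487a9, 4), (0x214376a9, 4), (0x205386a9, 4), (0x105487a9, 4)],
    [(0x546474, 3), (0x204385a9, 4), (0x107486a9, 4), (0x216573a9, 4), (0x204385a9, 4), (0x107486a9, 4)]⟩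

def c_625 : frmChk tA tA F_625 = true := by decide +kernel

def r_625_0 : chkL rootF engF2 tA tA sA_232 sA_232 4 F_625 [(255, 0, 0), (256, 0, 4)]
    0x12640f = true := by
  decide +kernel

def r_625_1 : chkL rootF engF2 tA tA sA_232 sA_232 4 F_625 [(256, 4, 3)]
    0x103c559324c82e0b82f44 = true := by
  decide +kernel

def r_625_2 : chkL rootF engF2 tA tA sA_232 sA_232 4 F_625 [(256, 7, 17)]
    0x42d09c0f1a85c0e83a = true := by
  decide +kernel

def r_625_3 : chkL rootF engF2 tA tA sA_232 sA_232 4 F_625 [(256, 24, 3)]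
    0x42709c33 = true := by
  decide +kernel

def r_625_4 : chkL rootF engF2 tA tA sA_232 sA_232 4 F_625 [(256, 27, 4)]
    0x1 = true := by
  decide +kernel

def r_625_5 : chkL rootF engF2 tA tA sA_232 sA_232 4 F_625 [(256, 31, 3)]
    0x1 = true := by
  decide +kernel

def r_625_6 : chkL rootF engF2 tA tA sA_232 sA_232 4 F_625 [(256, 34, 2)]
    0x439 = true := by
  decide +kernel

def r_625_7 : chkL rootF engF2 tA tA sA_232 sA_232 4 F_625 [(256, 36, 6)]
    0x683 = true := by
  decide +kernel

def r_625_8 : chkL rootF engF2 tA tA sA_232 sA_232 4 F_625 [(256, 42, 0)]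
    0x41d = true := by
  decide +kernel

theorem f_625 (h : TabsF) : FrameF repsF 232 F_625.f :=
  frame_of rfl c_625 ((runs_of engOK r_625_0).append ((runs_of engOK r_625_1).append ((runs_of engOK r_625_2).append ((runs_of engOK r_625_3).append ((runs_of engOK r_625_4).append ((runs_of engOK r_625_5).append ((runs_of engOK r_625_6).append ((runs_of engOK r_625_7).append (runs_of engOK r_625_8))))))))) (by decide +kernel) h.1 h.1

def F_626 : FrX :=
  ⟨0x80080a000804040e00002101002001000002040890020008048002048240004020401019000421000808000820201040100102004001023000802900008,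
    0xa6, 1, 0x30425163738295a2, 8,
    [(0xa6, 1), (0x205396a8, 4), (0x10548796, 4), (0x214396a7, 4), (0x205396a8, 4), (0x10548796, 4)],
    [(0x30425163738295a2, 8), (0x408197a3, 4), (0x53648192, 4), (0x607281a5, 4), (0x408197a3, 4), (0x53648192, 4)]⟩

def c_626 : frmChk tA tA F_626 = true := by decide +kernel

def r_626_0 : chkL rootF engF2 tA tA sA_232 sA_232 4 F_626 [(255, 0, 0), (256, 0, 20)]
    0x11a82d1640f0b42b = true := by
  decide +kernel

def r_626_1 : chkL rootF engF2 tA tA sA_232 sA_232 4 F_626 [(256, 20, 0)]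
    0x41e14f120b42b = true := by
  decide +kernel

theorem f_626 (h : TabsF) : FrameF repsF 232 F_626.f :=
  frame_of rfl c_626 ((runs_of engOK r_626_0).append (runs_of engOK r_626_1)) (by decide +kernel) h.1 h.1

def F_627 : FrX :=
  ⟨0x482000044040440000c2040020009000182040010020082000800811810004004400101505000180002400002220040100081084000204011010800820,
    0xa0, 1, 0x3142708596a0, 6,
    [(0xa0, 1), (0x538690a2, 4), (0x548790a1, 4), (0x21437690, 4), (0x538690a2, 4), (0x548790a1, 4)],
    [(0x3142708596a0, 6), (0x768195a4, 4), (0x507682a3, 4), (0x21437690, 4), (0x768195a4, 4), (0x507682a3, 4)]⟩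

def c_627 : frmChk tA tA F_627 = true := by decide +kernel

def r_627_0 : chkL rootF engF2 tA tA sA_232 sA_232 4 F_627 [(511, 0, 0)]
    0x105c0f0ac0f = true := by
  decide +kernel

theorem f_627 (h : TabsF) : FrameF repsF 232 F_627.f :=
  frame_of rfl c_627 (runs_of engOK r_627_0) (by decide +kernel) h.1 h.1

def F_628 : FrX :=
  ⟨0x80080a000804040e0000210100200100000204088101100100440010048000000412302000800400a010000044100803002080480252004000a10040200,
    0xa6, 1, 0x3264758190a6, 6,
    [(0xa6, 1), (0x205396a8, 4), (0x10548796, 4), (0x214396a7, 4), (0x205396a8, 4), (0x10548796, 4)],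
    [(0x3264758190a6, 6), (0x407293a1, 4), (0x40517698, 4), (0x406283a5, 4), (0x407293a1, 4), (0x40517698, 4)]⟩

def c_628 : frmChk tA tA F_628 = true := by decide +kernel

def r_628_0 : chkL rootF engF2 tA tA sA_232 sA_232 4 F_628 [(255, 0, 0), (256, 0, 22)]
    0x10e43509c4d15456350741c44706c4b = true := by
  decide +kernel

def r_628_1 : chkL rootF engF2 tA tA sA_232 sA_232 4 F_628 [(256, 22, 0)]
    0x118c4d11c536619125992 = true := by
  decide +kernel

theorem f_628 (h : TabsF) : FrameF repsF 232 F_628.f :=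
  frame_of rfl c_628 ((runs_of engOK r_628_0).append (runs_of engOK r_628_1)) (by decide +kernel) h.1 h.1

def F_629 : FrX :=
  ⟨0x2002000900044004000e020410001410008000408080010020a180040002400210008020408000420a000102040000800081000441201042040804214200,
    0xa3, 1, 0x628397a3, 4,
    [(0xa3, 1), (0x208693a5, 4), (0x10548793, 4), (0x217693a4, 4), (0x208693a5, 4), (0x10548793, 4)],
    [(0x628397a3, 4), (0x326087a5, 4), (0x10548793, 4), (0x618792a4, 4), (0x326087a5, 4), (0x10548793, 4)]⟩

def c_629 : frmChk tA tA F_629 = true := by decide +kernel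

def r_629_0 : chkL rootF engF2 tA tA sA_232 sA_232 4 F_629 [(255, 0, 0), (256, 0, 8)]
    0x455314a628c71154ca06c1b24c2b = true := by
  decide +kernel

def r_629_1 : chkL rootF engF2 tA tA sA_232 sA_232 4 F_629 [(256, 8, 14)]
    0x41d = true := by
  decide +kernel

def r_629_2 : chkL rootF engF2 tA tA sA_232 sA_232 4 F_629 [(256, 22, 8)]
    0x48d0ac1b0d81b = true := by
  decide +kernel

def r_629_3 : chkL rootF engF2 tA tA sA_232 sA_232 4 F_629 [(256, 30, 14)]
    0x4350ad231641b09c35 = true := by
  decide +kernel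

def r_629_4 : chkL rootF engF2 tA tA sA_232 sA_232 4 F_629 [(256, 44, 0)]
    0x1 = true := by
  decide +kernel

theorem f_629 (h : TabsF) : FrameF repsF 232 F_629.f :=
  frame_of rfl c_629 ((runs_of engOK r_629_0).append ((runs_of engOK r_629_1).append ((runs_of engOK r_629_2).append ((runs_of engOK r_629_3).append (runs_of engOK r_629_4))))) (by decide +kernel) h.1 h.1

def F_630 : FrX :=
  ⟨0x482000044040440000c204002000900018204002000102400002028004203001002200008104018008020020202000a0080110004d0000002010510210,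
    0xa0, 1, 0x4063718592a0, 6,
    [(0xa0, 1), (0x538690a2, 4), (0x548790a1, 4), (0x21437690, 4), (0x538690a2, 4), (0x548790a1, 4)],
    [(0x4063718592a0, 6), (0x425386a9, 4), (0x425180a7, 4), (0x31426097, 4), (0x425386a9, 4), (0x425180a7, 4)]⟩

def c_630 : frmChk tA tA F_630 = true := by decide +kernel

def r_630_0 : chkL rootF engF2 tA tA sA_232 sA_232 4 F_630 [(255, 0, 0), (256, 0, 23)]
    0x12700f = true := by
  decide +kernel

def r_630_1 : chkL rootF engF2 tA tA sA_232 sA_232 4 F_630 [(256, 23, 0)]
    0x111c5686871 = true := by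
  decide +kernel

theorem f_630 (h : TabsF) : FrameF repsF 232 F_630.f :=
  frame_of rfl c_630 ((runs_of engOK r_630_0).append (runs_of engOK r_630_1)) (by decide +kernel) h.1 h.1

theorem cl_232 (h : TabsF) : ∀ f ∈ fr_232, FrameF repsF 232 f :=
  List.forall_mem_cons.2 ⟨f_621 h, List.forall_mem_cons.2 ⟨f_622 h, List.forall_mem_cons.2 ⟨f_623 h, List.forall_mem_cons.2 ⟨f_624 h, List.forall_mem_cons.2 ⟨f_625 h, List.forall_mem_cons.2 ⟨f_626 h, List.forall_mem_cons.2 ⟨f_627 h, List.forall_mem_cons.2 ⟨f_628 h, List.forall_mem_cons.2 ⟨f_629 h, List.forall_mem_cons.2 ⟨f_630 h,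
    fun _ h0 => absurd h0 List.not_mem_nil⟩⟩⟩⟩⟩⟩⟩⟩⟩⟩

def F_631 : FrX :=
  ⟨0x482000044040440000c2040020009000182040002012040008020010040041084802000888042004402020401008100100000284002220001040900041,
    0xa0, 1, 0x10203150618198a3, 8,
    [(0xa0, 1), (0x538690a2, 4), (0x548790a1, 4), (0x21437690, 4), (0x538690a2, 4), (0x548790a1, 4)],
    [(0x10203150618198a3, 8), (0x516093a2, 4), (0x42608597, 4), (0x607381a4, 4), (0x516093a2, 4), (0x42608597, 4)]⟩

def c_631 : frmChk tA tA F_631 = true := by decide +kernel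

def r_631_0 : chkL rootF engF2 tA tA sA_233 sA_233 4 F_631 [(255, 0, 0), (256, 0, 15)]
    0x105c1706c1d05c1b = true := by
  decide +kernel

def r_631_1 : chkL rootF engF2 tA tA sA_233 sA_233 4 F_631 [(256, 15, 18)]
    0x4ca164170f0350e817 = true := by
  decide +kernel

def r_631_2 : chkL rootF engF2 tA tA sA_233 sA_233 4 F_631 [(256, 33, 0)]
    0x106c1b16496 = true := by
  decide +kernel

theorem f_631 (h : TabsF) : FrameF repsF 233 F_631.f :=
  frame_of rfl c_631 ((runs_of engOK r_631_0).append ((runs_of engOK r_631_1).append (runs_of engOK r_631_2))) (by decide +kernel) h.1 h.1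

def F_632 : FrX :=
  ⟨0x2002000900044004000e0204100014100080004082000a08010002240200140004002200011020822400050001001040024000002200100a02211000c004,
    0xa3, 1, 0x10214050657081a0, 8,
    [(0xa3, 1), (0x208693a5, 4), (0x10548793, 4), (0x217693a4, 4), (0x208693a5, 4), (0x10548793, 4)],
    [(0x10214050657081a0, 8), (0x426397a0, 4), (0x526197a8, 4), (0x31548097, 4), (0x426397a0, 4), (0x526197a8, 4)]⟩

def c_632 : frmChk tA tA F_632 = true := by decide +kernel

def r_632_0 : chkL rootF engF2 tA tA sA_233 sA_233 4 F_632 [(255, 0, 0), (256, 0, 15)]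
    0x453 = true := by
  decide +kernel

def r_632_1 : chkL rootF engF2 tA tA sA_233 sA_233 4 F_632 [(256, 15, 14)]
    0x42b05c2b2d01724c87 = true := by
  decide +kernel

def r_632_2 : chkL rootF engF2 tA tA sA_233 sA_233 4 F_632 [(256, 29, 0)]
    0x105c394e03909c27 = true := by
  decide +kernel

theorem f_632 (h : TabsF) : FrameF repsF 233 F_632.f :=
  frame_of rfl c_632 ((runs_of engOK r_632_0).append ((runs_of engOK r_632_1).append (runs_of engOK r_632_2))) (by decide +kernel) h.1 h.1

def F_633 : FrX :=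
  ⟨0x2002000900044004000e0204100014100080004080121008101002020000210280002020090200000c0404050010100020400200a0500214008080820040,
    0xa3, 1, 0x213140617087a0, 7,
    [(0xa3, 1), (0x208693a5, 4), (0x10548793, 4), (0x217693a4, 4), (0x208693a5, 4), (0x10548793, 4)],
    [(0x213140617087a0, 7), (0x435297a1, 4), (0x508497a6, 4), (0x20618397, 4), (0x435297a1, 4), (0x508497a6, 4)]⟩

def c_633 : frmChk tA tA F_633 = true := by decide +kernel

def r_633_0 : chkL rootF engF2 tA tA sA_233 sA_233 4 F_633 [(255, 0, 0), (256, 0, 23)]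
    0x1871c1870ca05c531641705c47 = true := by
  decide +kernel

def r_633_1 : chkL rootF engF2 tA tA sA_233 sA_233 4 F_633 [(256, 23, 0)]
    0x4550d417 = true := by
  decide +kernel

theorem f_633 (h : TabsF) : FrameF repsF 233 F_633.f :=
  frame_of rfl c_633 ((runs_of engOK r_633_0).append (runs_of engOK r_633_1)) (by decide +kernel) h.1 h.1

def F_634 : FrX :=
  ⟨0x80080a000804040e00002101002001000002040890040004048004022000080a08500000802081008248001003002400105000040480410108002040080,
    0xa6, 1, 0x3042538596a2, 6,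
    [(0xa6, 1), (0x205396a8, 4), (0x10548796, 4), (0x214396a7, 4), (0x205396a8, 4), (0x10548796, 4)],
    [(0x3042538596a2, 6), (0x648590a3, 4), (0x31647082, 4), (0x526497a1, 4), (0x648590a3, 4), (0x31647082, 4)]⟩

def c_634 : frmChk tA tA F_634 = true := by decide +kernel

def r_634_0 : chkL rootF engF2 tA tA sA_233 sA_233 4 F_634 [(255, 0, 0), (256, 0, 21)]
    0x16902e6881d0f05c = true := by
  decide +kernel

def r_634_1 : chkL rootF engF2 tA tA sA_233 sA_233 4 F_634 [(256, 21, 0)]
    0x12642e05c5a3840fa241e06c2715855 = true := by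
  decide +kernel

theorem f_634 (h : TabsF) : FrameF repsF 233 F_634.f :=
  frame_of rfl c_634 ((runs_of engOK r_634_0).append (runs_of engOK r_634_1)) (by decide +kernel) h.1 h.1

def F_635 : FrX :=
  ⟨0x80080a000804040e0000210100200100000204089001000d0080040204400010408000440102090201080000102200002011010800411080a0200480080,
    0xa6, 1, 0x10203285a4, 5,
    [(0xa6, 1), (0x205396a8, 4), (0x10548796, 4), (0x214396a7, 4), (0x205396a8, 4), (0x10548796, 4)],
    [(0x10203285a4, 5), (0x32658194, 4), (0x207594a8, 4), (0x307694a1, 4), (0x32658194, 4), (0x207594a8, 4)]⟩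

def c_635 : frmChk tA tA F_635 = true := by decide +kernel

def r_635_0 : chkL rootF engF2 tA tA sA_233 sA_233 4 F_635 [(255, 0, 0), (256, 0, 20)]
    0x10781b0b82e2b02e2641b = true := by
  decide +kernel

def r_635_1 : chkL rootF engF2 tA tA sA_233 sA_233 4 F_635 [(256, 20, 0)]
    0x10ad45154ca0e4a3 = true := by
  decide +kernel

theorem f_635 (h : TabsF) : FrameF repsF 233 F_635.f :=
  frame_of rfl c_635 ((runs_of engOK r_635_0).append (runs_of engOK r_635_1)) (by decide +kernel) h.1 h.1

def F_636 : FrX :=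
  ⟨0x482000044040440000c20400200090001820400200040028000920200408808040200002014401b0008010002020040200202004408800002104000450,
    0xa0, 1, 0x428095a0, 4,
    [(0xa0, 1), (0x538690a2, 4), (0x548790a1, 4), (0x21437690, 4), (0x538690a2, 4), (0x548790a1, 4)],
    [(0x428095a0, 4), (0x608593a4, 4), (0x708592a1, 4), (0x32417685, 4), (0x608593a4, 4), (0x708592a1, 4)]⟩

def c_636 : frmChk tA tA F_636 = true := by decide +kernel

def r_636_0 : chkL rootF engF2 tA tA sA_233 sA_233 4 F_636 [(255, 0, 0), (256, 0, 23)]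
    0x14582e22c2d0b4330b46303c17 = true := by
  decide +kernel

def r_636_1 : chkL rootF engF2 tA tA sA_233 sA_233 4 F_636 [(256, 23, 0)]
    0x105c1b03c17 = true := by
  decide +kernel

theorem f_636 (h : TabsF) : FrameF repsF 233 F_636.f :=
  frame_of rfl c_636 ((runs_of engOK r_636_0).append (runs_of engOK r_636_1)) (by decide +kernel) h.1 h.1

def F_637 : FrX :=
  ⟨0x2002000900044004000e02041000141000800040800401088120002400020a01200000104090200212020100020030000c00202020801041000220008210,
    0xa3, 1, 0x10415062a3, 5,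
    [(0xa3, 1), (0x208693a5, 4), (0x10548793, 4), (0x217693a4, 4), (0x208693a5, 4), (0x10548793, 4)],
    [(0x10415062a3, 5), (0x658293a1, 4), (0x10548793, 4), (0x647293a0, 4), (0x658293a1, 4), (0x10548793, 4)]⟩

def c_637 : frmChk tA tA F_637 = true := by decide +kernel

def r_637_0 : chkL rootF engF2 tA tA sA_233 sA_233 4 F_637 [(511, 0, 0)]
    0x105c5a1726199027 = true := by
  decide +kernel

theorem f_637 (h : TabsF) : FrameF repsF 233 F_637.f :=
  frame_of rfl c_637 (runs_of engOK r_637_0) (by decide +kernel) h.1 h.1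

def F_638 : FrX :=
  ⟨0x80080a000804040e0000210100200100000204088101100101c020000400002001084060010220012028800020200000c41041080220804040000220200,
    0xa6, 1, 0x1030415297a8, 6,
    [(0xa6, 1), (0x205396a8, 4), (0x10548796, 4), (0x214396a7, 4), (0x205396a8, 4), (0x10548796, 4)],
    [(0x1030415297a8, 6), (0x215387a6, 4), (0x204387a9, 4), (0x10548796, 4), (0x215387a6, 4), (0x204387a9, 4)]⟩

def c_638 : frmChk tA tA F_638 = true := by decide +kernel

def r_638_0 : chkL rootF engF2 tA tA sA_233 sA_233 4 F_638 [(255, 0, 0), (256, 0, 24)]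
    0x4350d4b10d8362386c = true := by
  decide +kernel

def r_638_1 : chkL rootF engF2 tA tA sA_233 sA_233 4 F_638 [(256, 24, 0)]
    0x40f03c0f03c53 = true := by
  decide +kernel

theorem f_638 (h : TabsF) : FrameF repsF 233 F_638.f :=
  frame_of rfl c_638 ((runs_of engOK r_638_0).append (runs_of engOK r_638_1)) (by decide +kernel) h.1 h.1

def F_639 : FrX :=
  ⟨0x482000044040440000c204002000900018204002000104200002081064081000001010008104011440041048003800020000a008000020001824480010,
    0xa0, 1, 0x60708597a0, 5,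
    [(0xa0, 1), (0x538690a2, 4), (0x548790a1, 4), (0x21437690, 4), (0x538690a2, 4), (0x548790a1, 4)],
    [(0x60708597a0, 5), (0x507683a2, 4), (0x768495a1, 4), (0x21437690, 4), (0x507683a2, 4), (0x768495a1, 4)]⟩

def c_639 : frmChk tA tA F_639 = true := by decide +kernel

def r_639_0 : chkL rootF engF2 tA tA sA_233 sA_233 4 F_639 [(255, 0, 0), (256, 0, 23)]
    0x1 = true := by
  decide +kernel

def r_639_1 : chkL rootF engF2 tA tA sA_233 sA_233 4 F_639 [(256, 23, 0)]
    0x1 = true := by
  decide +kernel

theorem f_639 (h : TabsF) : FrameF repsF 233 F_639.f :=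
  frame_of rfl c_639 ((runs_of engOK r_639_0).append (runs_of engOK r_639_1)) (by decide +kernel) h.1 h.1

def F_640 : FrX :=
  ⟨0x80080a000804040e0000210100200100000204088101100101c0200004000020010840600020440a8008800001100000d06002020002482100004040200,
    0xa6, 1, 0x1030415297a8, 6,
    [(0xa6, 1), (0x205396a8, 4), (0x10548796, 4), (0x214396a7, 4), (0x205396a8, 4), (0x10548796, 4)],
    [(0x1030415297a8, 6), (0x215387a6, 4), (0x204387a9, 4), (0x10548796, 4), (0x215387a6, 4), (0x204387a9, 4)]⟩

def c_640 : frmChk tA tA F_640 = true := by decide +kernel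

def r_640_0 : chkL rootF engF2 tA tA sA_233 sA_233 4 F_640 [(255, 0, 0), (256, 0, 23)]
    0x10d87221c7221c351c8871c8871546911c36 = true := by
  decide +kernel

def r_640_1 : chkL rootF engF2 tA tA sA_233 sA_233 4 F_640 [(256, 23, 0)]
    0x1234270ac1b14c1711ca617035 = true := by
  decide +kernel

theorem f_640 (h : TabsF) : FrameF repsF 233 F_640.f :=
  frame_of rfl c_640 ((runs_of engOK r_640_0).append (runs_of engOK r_640_1)) (by decide +kernel) h.1 h.1

theorem cl_233 (h : TabsF) : ∀ f ∈ fr_233, FrameF repsF 233 f :=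
  List.forall_mem_cons.2 ⟨f_631 h, List.forall_mem_cons.2 ⟨f_632 h, List.forall_mem_cons.2 ⟨f_633 h, List.forall_mem_cons.2 ⟨f_634 h, List.forall_mem_cons.2 ⟨f_635 h, List.forall_mem_cons.2 ⟨f_636 h, List.forall_mem_cons.2 ⟨f_637 h, List.forall_mem_cons.2 ⟨f_638 h, List.forall_mem_cons.2 ⟨f_639 h, List.forall_mem_cons.2 ⟨f_640 h,
    fun _ h0 => absurd h0 List.not_mem_nil⟩⟩⟩⟩⟩⟩⟩⟩⟩⟩

def F_641 : FrX :=
  ⟨0x2002000900044004000e02041000141000800040808002000320060400010c0800002400110000840c000004a0a030001060020006000820000880220040,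
    0xa3, 1, 0x3263728696a3, 6,
    [(0xa3, 1), (0x208693a5, 4), (0x10548793, 4), (0x217693a4, 4), (0x208693a5, 4), (0x10548793, 4)],
    [(0x3263728696a3, 6), (0x708692a5, 4), (0x10325486, 4), (0x718693a4, 4), (0x708692a5, 4), (0x10325486, 4)]⟩

def c_641 : frmChk tA tA F_641 = true := by decide +kernel

def r_641_0 : chkL rootF engF2 tA tA sA_234 sA_234 4 F_641 [(255, 0, 0), (256, 0, 14)]
    0x45c07a160745c1541d17055550330cc390761a11c0f = true := by
  decide +kernel

def r_641_1 : chkL rootF engF2 tA tA sA_234 sA_234 4 F_641 [(256, 14, 15)]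
    0x1384170741d0741e06c47 = true := by
  decide +kernel

def r_641_2 : chkL rootF engF2 tA tA sA_234 sA_234 4 F_641 [(256, 29, 15)]
    0x6491aa680ccb205e491aa680ccb2 = true := by
  decide +kernel

def r_641_3 : chkL rootF engF2 tA tA sA_234 sA_234 4 F_641 [(256, 44, 0)]
    0x1 = true := by
  decide +kernel

theorem f_641 (h : TabsF) : FrameF repsF 234 F_641.f :=
  frame_of rfl c_641 ((runs_of engOK r_641_0).append ((runs_of engOK r_641_1).append ((runs_of engOK r_641_2).append (runs_of engOK r_641_3)))) (by decide +kernel) h.1 h.1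

def F_642 : FrX :=
  ⟨0x482000044040440000c20400200090001820400100100412080000840400418108000008080104800002200180b8320000084040000080044220000082,
    0xa0, 1, 0x3241657686a0, 6,
    [(0xa0, 1), (0x538690a2, 4), (0x548790a1, 4), (0x21437690, 4), (0x538690a2, 4), (0x548790a1, 4)],
    [(0x3241657686a0, 6), (0x628790a3, 4), (0x617590a4, 4), (0x21438590, 4), (0x628790a3, 4), (0x617590a4, 4)]⟩

def c_642 : frmChk tA tA F_642 = true := by decide +kernel

def r_642_0 : chkL rootF engF2 tA tA sA_234 sA_234 4 F_642 [(255, 0, 0), (256, 0, 23)]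
    0x103c3a1a42b14c1d = true := by
  decide +kernel

def r_642_1 : chkL rootF engF2 tA tA sA_234 sA_234 4 F_642 [(256, 23, 21)]
    0x44706d1911c3a134b20ac2e15435 = true := by
  decide +kernel

def r_642_2 : chkL rootF engF2 tA tA sA_234 sA_234 4 F_642 [(256, 44, 0)]
    0x40f = true := by
  decide +kernel

theorem f_642 (h : TabsF) : FrameF repsF 234 F_642.f :=
  frame_of rfl c_642 ((runs_of engOK r_642_0).append ((runs_of engOK r_642_1).append (runs_of engOK r_642_2))) (by decide +kernel) h.1 h.1

def F_643 : FrX :=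
  ⟨0x80080a000804040e0000210100200100000204088042100201c080000200001001102060008010080022160028000328100040041010101004040200200,
    0xa6, 1, 0x3240517698a6, 6,
    [(0xa6, 1), (0x205396a8, 4), (0x10548796, 4), (0x214396a7, 4), (0x205396a8, 4), (0x10548796, 4)],
    [(0x3240517698a6, 6), (0x214387a9, 4), (0x10548796, 4), (0x205387a6, 4), (0x214387a9, 4), (0x10548796, 4)]⟩

def c_643 : frmChk tA tA F_643 = true := by decide +kernel

def r_643_0 : chkL rootF engF2 tA tA sA_234 sA_234 4 F_643 [(511, 0, 0)]
    0x10f252952702d0ac1383c986649c1344704703d8360d8912c4e1d09903d8360d8a82e0d = true := by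
  decide +kernel

theorem f_643 (h : TabsF) : FrameF repsF 234 F_643.f :=
  frame_of rfl c_643 (runs_of engOK r_643_0) (by decide +kernel) h.1 h.1

def F_644 : FrX :=
  ⟨0x2002000900044004000e0204100014100080004080800100462000020800c082100200004020010480020200122030328000820000800800002210008210,
    0xa3, 1, 0x628793a3, 4,
    [(0xa3, 1), (0x208693a5, 4), (0x10548793, 4), (0x217693a4, 4), (0x208693a5, 4), (0x10548793, 4)],
    [(0x628793a3, 4), (0x607293a5, 4), (0x10548793, 4), (0x618293a4, 4), (0x607293a5, 4), (0x10548793, 4)]⟩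

def c_644 : frmChk tA tA F_644 = true := by decide +kernel

def r_644_0 : chkL rootF engF2 tA tA sA_234 sA_234 4 F_644 [(255, 0, 0), (256, 0, 17)]
    0x41b06c1741d1c4383a8728906e9809c3683a49 = true := by
  decide +kernel

def r_644_1 : chkL rootF engF2 tA tA sA_234 sA_234 4 F_644 [(256, 17, 16)]
    0x106c1788c35545310b5494381b074278caa4a884d = true := by
  decide +kernel

def r_644_2 : chkL rootF engF2 tA tA sA_234 sA_234 4 F_644 [(256, 33, 0)]
    0x4270d4c3b080faa291b4035074c391ac21c68509c0f43a85a92e0e0466f002d05c63525295a03612d4950c4d5242b0d8174390e4707221e850d42b254b1 = true := by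
  decide +kernel

theorem f_644 (h : TabsF) : FrameF repsF 234 F_644.f :=
  frame_of rfl c_644 ((runs_of engOK r_644_0).append ((runs_of engOK r_644_1).append (runs_of engOK r_644_2))) (by decide +kernel) h.1 h.1

def F_645 : FrX :=
  ⟨0x482000044040440000c20400200090001820400100200820008008118100040044001010010801800008100308b8000000091004008804040910000010,
    0xa0, 1, 0x3142708596a0, 6,
    [(0xa0, 1), (0x538690a2, 4), (0x548790a1, 4), (0x21437690, 4), (0x538690a2, 4), (0x548790a1, 4)],
    [(0x3142708596a0, 6), (0x768195a4, 4), (0x507682a3, 4), (0x21437690, 4), (0x768195a4, 4), (0x507682a3, 4)]⟩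

def c_645 : frmChk tA tA F_645 = true := by decide +kernel

def r_645_0 : chkL rootF engF2 tA tA sA_234 sA_234 4 F_645 [(255, 0, 0), (256, 0, 23)]
    0x103e0d25691136c203c2b331c20d465134cc0b827 = true := by
  decide +kernel

def r_645_1 : chkL rootF engF2 tA tA sA_234 sA_234 4 F_645 [(256, 23, 0)]
    0x151964074391343c0ac0f2540f9241784cf005cc5 = true := by
  decide +kernel

theorem f_645 (h : TabsF) : FrameF repsF 234 F_645.f :=
  frame_of rfl c_645 ((runs_of engOK r_645_0).append (runs_of engOK r_645_1)) (by decide +kernel) h.1 h.1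

theorem cl_234 (h : TabsF) : ∀ f ∈ fr_234, FrameF repsF 234 f :=
  List.forall_mem_cons.2 ⟨f_641 h, List.forall_mem_cons.2 ⟨f_642 h, List.forall_mem_cons.2 ⟨f_643 h, List.forall_mem_cons.2 ⟨f_644 h, List.forall_mem_cons.2 ⟨f_645 h,
    fun _ h0 => absurd h0 List.not_mem_nil⟩⟩⟩⟩⟩

def F_646 : FrX :=
  ⟨0x482000044040440000c204002000900018204000210080200084010800409002021000102400040080a4004022380000001088808000a2002004800002,
    0xa0, 1, 0x204153728397a3, 7,
    [(0xa0, 1), (0x538690a2, 4), (0x548790a1, 4), (0x21437690, 4), (0x538690a2, 4), (0x548790a1, 4)],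
    [(0x204153728397a3, 7), (0x657280a3, 4), (0x31428095, 4), (0x748096a1, 4), (0x657280a3, 4), (0x31428095, 4)]⟩

def c_646 : frmChk tA tA F_646 = true := by decide +kernel

def r_646_0 : chkL rootF engF2 tA tA sA_235 sA_235 4 F_646 [(255, 0, 0), (256, 0, 22)]
    0x50e03c2e06c2d = true := by
  decide +kernel

def r_646_1 : chkL rootF engF2 tA tA sA_235 sA_235 4 F_646 [(256, 22, 0)]
    0x19901d074740740f = true := by
  decide +kernel

theorem f_646 (h : TabsF) : FrameF repsF 235 F_646.f :=
  frame_of rfl c_646 ((runs_of engOK r_646_0).append (runs_of engOK r_646_1)) (by decide +kernel) h.1 h.1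

def F_647 : FrX :=
  ⟨0x80080a000804040e0000210100200100000204088042100201c080000200001001102060010424010808800020200000c21002040280881100000220200,
    0xa6, 1, 0x3240517698a6, 6,
    [(0xa6, 1), (0x205396a8, 4), (0x10548796, 4), (0x214396a7, 4), (0x205396a8, 4), (0x10548796, 4)],
    [(0x3240517698a6, 6), (0x214387a9, 4), (0x10548796, 4), (0x205387a6, 4), (0x214387a9, 4), (0x10548796, 4)]⟩

def c_647 : frmChk tA tA F_647 = true := by decide +kernel

def r_647_0 : chkL rootF engF2 tA tA sA_235 sA_235 4 F_647 [(511, 0, 0)]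
    0x1 = true := by
  decide +kernel

theorem f_647 (h : TabsF) : FrameF repsF 235 F_647.f :=
  frame_of rfl c_647 (runs_of engOK r_647_0) (by decide +kernel) h.1 h.1

def F_648 : FrX :=
  ⟨0x2002000900044004000e0204100014100080004080040108812000420000a202100000104030404410800200020030000c00801020000844001210008210,
    0xa3, 1, 0x405162a3, 4,
    [(0xa3, 1), (0x208693a5, 4), (0x10548793, 4), (0x217693a4, 4), (0x208693a5, 4), (0x10548793, 4)],
    [(0x405162a3, 4), (0x648293a1, 4), (0x10548793, 4), (0x657293a0, 4), (0x648293a1, 4), (0x10548793, 4)]⟩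

def c_648 : frmChk tA tA F_648 = true := by decide +kernel

def r_648_0 : chkL rootF engF2 tA tA sA_235 sA_235 4 F_648 [(511, 0, 0)]
    0x105c2b0d83a03c2b03c2b0d43a03c172642709ca90e8a30aca90e8a30ac711c4aa05c178c61a24e138c61a24e1306c1b = true := by
  decide +kernel

theorem f_648 (h : TabsF) : FrameF repsF 235 F_648.f :=
  frame_of rfl c_648 (runs_of engOK r_648_0) (by decide +kernel) h.1 h.1

def F_649 : FrX :=
  ⟨0x482000044040440000c2040020009000182040010040042000800810680008100010101001080114080440480038000000091004000004011104408010,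
    0xa0, 1, 0x608597a0, 4,
    [(0xa0, 1), (0x538690a2, 4), (0x548790a1, 4), (0x21437690, 4), (0x538690a2, 4), (0x548790a1, 4)],
    [(0x608597a0, 4), (0x507683a2, 4), (0x768495a1, 4), (0x21437690, 4), (0x507683a2, 4), (0x768495a1, 4)]⟩

def c_649 : frmChk tA tA F_649 = true := by decide +kernel

def r_649_0 : chkL rootF engF2 tA tA sA_235 sA_235 4 F_649 [(255, 0, 0), (256, 0, 23)]
    0x1 = true := by
  decide +kernel

def r_649_1 : chkL rootF engF2 tA tA sA_235 sA_235 4 F_649 [(256, 23, 0)]
    0x1 = true := by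
  decide +kernel

theorem f_649 (h : TabsF) : FrameF repsF 235 F_649.f :=
  frame_of rfl c_649 ((runs_of engOK r_649_0).append (runs_of engOK r_649_1)) (by decide +kernel) h.1 h.1

theorem cl_235 (h : TabsF) : ∀ f ∈ fr_235, FrameF repsF 235 f :=
  List.forall_mem_cons.2 ⟨f_646 h, List.forall_mem_cons.2 ⟨f_647 h, List.forall_mem_cons.2 ⟨f_648 h, List.forall_mem_cons.2 ⟨f_649 h,
    fun _ h0 => absurd h0 List.not_mem_nil⟩⟩⟩⟩

def F_650 : FrX :=
  ⟨0x482000044040440000c2040020009000182040002081020801200008020101012000400821010440200201002008800040001084042000100c00110290,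
    0xa0, 1, 0x103043516081a6, 7,
    [(0xa0, 1), (0x538690a2, 4), (0x548790a1, 4), (0x21437690, 4), (0x538690a2, 4), (0x548790a1, 4)],
    [(0x103043516081a6, 7), (0x406293a5, 4), (0x10758693, 4), (0x418293a7, 4), (0x406293a5, 4), (0x10758693, 4)]⟩

def c_650 : frmChk tA tA F_650 = true := by decide +kernel

def r_650_0 : chkL rootF engF2 tA tA sA_236 sA_236 4 F_650 [(255, 0, 0), (256, 0, 16)]
    0x103d2548cca = true := by
  decide +kernel

def r_650_1 : chkL rootF engF2 tA tA sA_236 sA_236 4 F_650 [(256, 16, 16)]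
    0x10741703c1d = true := by
  decide +kernel

def r_650_2 : chkL rootF engF2 tA tA sA_236 sA_236 4 F_650 [(256, 32, 0)]
    0x10750741f0305c1703c5a06c1b05c2e = true := by
  decide +kernel

theorem f_650 (h : TabsF) : FrameF repsF 236 F_650.f :=
  frame_of rfl c_650 ((runs_of engOK r_650_0).append ((runs_of engOK r_650_1).append (runs_of engOK r_650_2))) (by decide +kernel) h.1 h.1

def F_651 : FrX :=
  ⟨0x80080a000804040e00002101002001000002040890020002204004101010001442000060400030040a00801010100800202081080000600500140081010,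
    0xa6, 1, 0x214065728695a0, 7,
    [(0xa6, 1), (0x205396a8, 4), (0x10548796, 4), (0x214396a7, 4), (0x205396a8, 4), (0x10548796, 4)],
    [(0x214065728695a0, 7), (0x648593a7, 4), (0x516490a2, 4), (0x30647281, 4), (0x648593a7, 4), (0x516490a2, 4)]⟩

def c_651 : frmChk tA tA F_651 = true := by decide +kernel

def r_651_0 : chkL rootF engF2 tA tA sA_236 sA_236 4 F_651 [(255, 0, 0), (256, 0, 15)]
    0x10b42d0f0d80f05c0f05a0f21a16817 = true := by
  decide +kernel

def r_651_1 : chkL rootF engF2 tA tA sA_236 sA_236 4 F_651 [(256, 15, 15)]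
    0x44d0cc71159700b607896c2b04962b1942343c0b4780b41b = true := by
  decide +kernel

def r_651_2 : chkL rootF engF2 tA tA sA_236 sA_236 4 F_651 [(256, 30, 0)]
    0x1158693480f = true := by
  decide +kernel

theorem f_651 (h : TabsF) : FrameF repsF 236 F_651.f :=
  frame_of rfl c_651 ((runs_of engOK r_651_0).append ((runs_of engOK r_651_1).append (runs_of engOK r_651_2))) (by decide +kernel) h.1 h.1

def F_652 : FrX :=
  ⟨0x80080a000804040e0000210100200100000204089020100404800800802020101080200100490000a010000101120001004048002043040000814804200,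
    0xa6, 1, 0x317082a6, 4,
    [(0xa6, 1), (0x205396a8, 4), (0x10548796, 4), (0x214396a7, 4), (0x205396a8, 4), (0x10548796, 4)],
    [(0x317082a6, 4), (0x518796a2, 4), (0x20547396, 4), (0x418396a0, 4), (0x518796a2, 4), (0x20547396, 4)]⟩

def c_652 : frmChk tA tA F_652 = true := by decide +kernel

def r_652_0 : chkL rootF engF2 tA tA sA_236 sA_236 4 F_652 [(255, 0, 0), (256, 0, 20)]
    0x42b0d82e = true := by
  decide +kernel

def r_652_1 : chkL rootF engF2 tA tA sA_236 sA_236 4 F_652 [(256, 20, 24)]
    0x46a22c4d2a4394e01d2346a09cc628c5306c3917116471c80744741d1345817 = true := by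
  decide +kernel

def r_652_2 : chkL rootF engF2 tA tA sA_236 sA_236 4 F_652 [(256, 44, 0)]
    0x1 = true := by
  decide +kernel

theorem f_652 (h : TabsF) : FrameF repsF 236 F_652.f :=
  frame_of rfl c_652 ((runs_of engOK r_652_0).append ((runs_of engOK r_652_1).append (runs_of engOK r_652_2))) (by decide +kernel) h.1 h.1

def F_653 : FrX :=
  ⟨0x482000044040440000c2040020009000182040010020028008000030040028208600000802080110814040081020002004220204010220002002002009,
    0xa0, 1, 0x4053607195a3, 6,
    [(0xa0, 1), (0x538690a2, 4), (0x548790a1, 4), (0x21437690, 4), (0x538690a2, 4), (0x548790a1, 4)],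
    [(0x4053607195a3, 6), (0x536284a9, 4), (0x53768190, 4), (0x415372a0, 4), (0x536284a9, 4), (0x53768190, 4)]⟩

def c_653 : frmChk tA tA F_653 = true := by decide +kernel

def r_653_0 : chkL rootF engF2 tA tA sA_236 sA_236 4 F_653 [(255, 0, 0), (256, 0, 14)]
    0x112c5a8b01b = true := by
  decide +kernel

def r_653_1 : chkL rootF engF2 tA tA sA_236 sA_236 4 F_653 [(256, 14, 14)]
    0x42d0ac170784b0b41e = true := by
  decide +kernel

def r_653_2 : chkL rootF engF2 tA tA sA_236 sA_236 4 F_653 [(256, 28, 0)]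
    0x181c2b46417 = true := by
  decide +kernel

theorem f_653 (h : TabsF) : FrameF repsF 236 F_653.f :=
  frame_of rfl c_653 ((runs_of engOK r_653_0).append ((runs_of engOK r_653_1).append (runs_of engOK r_653_2))) (by decide +kernel) h.1 h.1

theorem cl_236 (h : TabsF) : ∀ f ∈ fr_236, FrameF repsF 236 f :=
  List.forall_mem_cons.2 ⟨f_650 h, List.forall_mem_cons.2 ⟨f_651 h, List.forall_mem_cons.2 ⟨f_652 h, List.forall_mem_cons.2 ⟨f_653 h,
    fun _ h0 => absurd h0 List.not_mem_nil⟩⟩⟩⟩

def F_654 : FrX :=
  ⟨0x1001040012008080000e0084080041000810100006000002808020800418008404000a000100208240050008020860022000a04400010005008002202001,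
    0xa3, 1, 0x1040546590a3, 6,
    [(0xa3, 1), (0x207584a6, 4), (0x10547693, 4), (0x647593a8, 4), (0x10547693, 4), (0x216485a7, 4), (0x208693a4, 4), (0x647593a8, 4), (0x208693a4, 4), (0x106574a8, 4), (0x647593a8, 4), (0x216485a7, 4)],
    [(0x1040546590a3, 6), (0x768592a1, 4), (0x43657190, 4), (0x435176a8, 4), (0x43657190, 4), (0x205186a7, 4), (0x438192a5, 4), (0x435176a8, 4), (0x438192a5, 4), (0x617590a8, 4), (0x435176a8, 4), (0x205186a7, 4)]⟩

def c_654 : frmChk tB tB F_654 = true := by decide +kernel

def r_654_0 : chkL rootF engF2 tB tB sB_237 sB_237 4 F_654 [(255, 0, 0), (256, 0, 21)]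
    0x495 = true := by
  decide +kernel

def r_654_1 : chkL rootF engF2 tB tB sB_237 sB_237 4 F_654 [(256, 21, 17)]
    0x1949074710e8ca2909e158a631592328a427856298c5648ca2909e158a6315918c6318c1a417 = true := by
  decide +kernel

def r_654_2 : chkL rootF engF2 tB tB sB_237 sB_237 4 F_654 [(256, 38, 15)]
    0x10b42d0d82d494270b42d0d82d494270b42d0d82d49427 = true := by
  decide +kernel

def r_654_3 : chkL rootF engF2 tB tB sB_237 sB_237 4 F_654 [(256, 53, 0)]
    0x42e = true := by
  decide +kernel

theorem f_654 (h : TabsF) : FrameF repsF 237 F_654.f :=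
  frame_of rfl c_654 ((runs_of engOK r_654_0).append ((runs_of engOK r_654_1).append ((runs_of engOK r_654_2).append (runs_of engOK r_654_3)))) (by decide +kernel) h.2 h.2

def F_655 : FrX :=
  ⟨0x1001040012008080000e0084080041000810100006000002d0002080041800840400001001a020026801000000006002200000440101000000a002222089,
    0xa3, 1, 0x1021307683a4, 6,
    [(0xa3, 1), (0x207584a6, 4), (0x10547693, 4), (0x647593a8, 4), (0x10547693, 4), (0x216485a7, 4), (0x208693a4, 4), (0x647593a8, 4), (0x208693a4, 4), (0x106574a8, 4), (0x647593a8, 4), (0x216485a7, 4)],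
    [(0x1021307683a4, 6), (0x306587a1, 4), (0x327694a5, 4), (0x658194a7, 4), (0x327694a5, 4), (0x205186a7, 4), (0x307194a8, 4), (0x658194a7, 4), (0x307194a8, 4), (0x327581a6, 4), (0x658194a7, 4), (0x205186a7, 4)]⟩

def c_655 : frmChk tB tB F_655 = true := by decide +kernel

def r_655_0 : chkL rootF engF2 tB tB sB_237 sB_237 4 F_655 [(255, 0, 0), (256, 0, 18)]
    0x106c35 = true := by
  decide +kernel

def r_655_1 : chkL rootF engF2 tB tB sB_237 sB_237 4 F_655 [(256, 18, 19)]
    0x1495134381d22d15495134381d22d15495134381d22d158b01748d154382d0e52505d234550e0b4394941748d154382d0e52505cca328ca = true := by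
  decide +kernel

def r_655_2 : chkL rootF engF2 tB tB sB_237 sB_237 4 F_655 [(256, 37, 0)]
    0x48b = true := by
  decide +kernel

theorem f_655 (h : TabsF) : FrameF repsF 237 F_655.f :=
  frame_of rfl c_655 ((runs_of engOK r_655_0).append ((runs_of engOK r_655_1).append (runs_of engOK r_655_2))) (by decide +kernel) h.2 h.2

def F_656 : FrX :=
  ⟨0x1001040012008080000e00840800410008101000042d00004020010000000882808200082200000b00004002c00040410010800408a00000501000210045,
    0xa3, 1, 0x2030537583a3, 6,
    [(0xa3, 1), (0x207584a6, 4), (0x10547693, 4), (0x647593a8, 4), (0x10547693, 4), (0x216485a7, 4), (0x208693a4, 4), (0x647593a8, 4), (0x208693a4, 4), (0x106574a8, 4), (0x647593a8, 4), (0x216485a7, 4)],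
    [(0x2030537583a3, 6), (0x305472a6, 4), (0x31627498, 4), (0x647298a5, 4), (0x31627498, 4), (0x106475a2, 4), (0x306598a4, 4), (0x647298a5, 4), (0x306598a4, 4), (0x314276a5, 4), (0x647298a5, 4), (0x106475a2, 4)]⟩

def c_656 : frmChk tB tB F_656 = true := by decide +kernel

def r_656_0 : chkL rootF engF2 tB tB sB_237 sB_237 4 F_656 [(255, 0, 0), (256, 0, 17)]
    0x41705c4707923628332a40f09d23628332a40f09d23628332a40f09c36 = true := by
  decide +kernel

def r_656_1 : chkL rootF engF2 tB tB sB_237 sB_237 4 F_656 [(256, 17, 18)]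
    0x4171681705c17234332681b44c17234332681b44c17234332681b44c27 = true := by
  decide +kernel

def r_656_2 : chkL rootF engF2 tB tB sB_237 sB_237 4 F_656 [(256, 35, 0)]
    0x41709c27 = true := by
  decide +kernel

theorem f_656 (h : TabsF) : FrameF repsF 237 F_656.f :=
  frame_of rfl c_656 ((runs_of engOK r_656_0).append ((runs_of engOK r_656_1).append (runs_of engOK r_656_2))) (by decide +kernel) h.2 h.2

def F_657 : FrX :=
  ⟨0x600020801080810000c00401804101010010040100401001000014401210020800020408008120000801100c12104006402080000008081004001800c0,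
    0xa0, 1, 0x108792a0, 4,
    [(0xa0, 1), (0x637584a2, 4), (0x547690a1, 4), (0x64758390, 4), (0x547690a1, 4), (0x21647385, 4), (0x438690a2, 4), (0x64758390, 4), (0x438690a2, 4), (0x657483a1, 4), (0x64758390, 4), (0x21647385, 4)],
    [(0x108792a0, 4), (0x637485a9, 4), (0x215486a0, 4), (0x21647385, 4), (0x215486a0, 4), (0x64758390, 4), (0x214376a9, 4), (0x21647385, 4), (0x214376a9, 4), (0x657384a0, 4), (0x21647385, 4), (0x64758390, 4)]⟩

def c_657 : frmChk tB tB F_657 = true := by decide +kernel

def r_657_0 : chkL rootF engF2 tB tB sB_237 sB_237 4 F_657 [(511, 0, 0)]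
    0x1 = true := by
  decide +kernel

theorem f_657 (h : TabsF) : FrameF repsF 237 F_657.f :=
  frame_of rfl c_657 (runs_of engOK r_657_0) (by decide +kernel) h.2 h.2

def F_658 : FrX :=
  ⟨0x1c4044000008081000000840080410000101084042102000001081000102000040a0206000010c000707002001000240100201010104008000801008023,
    0x0, 0, 0x657384, 3,
    [(0x0, 0), (0x20637584, 4), (0x105476a9, 4), (0x647583a9, 4), (0x105476a9, 4), (0x21647385, 4), (0x204386a9, 4), (0x647583a9, 4), (0x204386a9, 4), (0x10657483, 4), (0x647583a9, 4), (0x21647385, 4)],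
    [(0x657384, 3), (0x20637584, 4), (0x105386a9, 4), (0x637485a9, 4), (0x105386a9, 4), (0x21647385, 4), (0x205487a9, 4), (0x637485a9, 4), (0x205487a9, 4), (0x10657483, 4), (0x637485a9, 4), (0x21647385, 4)]⟩

def c_658 : frmChk tB tB F_658 = true := by decide +kernel

def r_658_0 : chkL rootF engF2 tB tB sB_237 sB_237 4 F_658 [(255, 0, 0), (256, 0, 9)]
    0x119694a52941948d2a45581e4535065a14a3c0da222e072c8b2a0c65c528c531c8a1b84a508e318952549322cd418ca924c8b81e89a0e1681f1424e8922e8518e8322e46c0ea1a0e2519631a8aa28c6b01944ed0b88d82a8a8a23c47111971288f21a0e2688c6589a25e068619694a52941948d2a45581e4535065a14a3c0da222e072c8b2a0c65c528c531c8a1b84a508e318952549322cd418ca924c8b81e89a0e1681f1424e8922e8518e8322e46c0ea1a0e2519631a8aa28c6b01944ed0b88d82a8a8a23c47111971288f21a0e2688c6589a25e068619694a52941948d2a45581e4535065a14a3c0da222e072c8b2a0c65c528c531c8a1b84a508e318952549322cd418ca924c8b81e89a0e1681f1424e8922e8518e8322e46c0ea1a0e2519631a8aa28c6b01944ed0b88d82a8a8a23c47111971288f21a0e2688c6589a25e0686e1234c8a074c932cc10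741d071589305d1341c8d41f11c488d515c85288d53207931074394c2350781d322348dc0f11c48b418d5281cb481e0781e1c82c660d48d858661984d5320793348d114c895258360dc260b83a0b8360bc246644c2b83a0d8992989629c1706e1234c8a074c932cc10741d071589305d1341c8d41f11c488d515c85288d53207931074394c2350781d322348dc0f11c48b418d5281cb481e0781e1c82c660d48d858661984d5320793348d114c895258360dc260b83a0b8360bc246644c2b83a0d8992989629c1706455131381713907e1234c8a074c932cc10741d071589305d1341c8d41f11c488d515c85288d53207931074394c2350781d322348dc0f11c48b418d5281cb481e0781e1c82c660d48d858661984d5320793348d114c895258360dc260b83a0b8360bc246644c2b83a0d8992989629c170644d1305d07 = true := by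
  decide +kernel

def r_658_1 : chkL rootF engF2 tB tB sB_237 sB_237 4 F_658 [(256, 9, 22)]
    0x144c8d22c6305d0718f848d32281d324cb3041d0741c5624c1744d0723507c4712235457214a2354c81e4c41d0e5308d41e074c88d23703c47122d06354a072d20781e078720b1983523616198661354c81e4cd2344532254960d8370982e0e82e0d82f09199130ae0e836264a6258a705c1b848d32281d324cb3041d0741c5624c1744d0723507c4712235457214a2354c81e4c41d0e5308d41e074c88d23703c47122d06354a072d20781e078720b1983523616198661354c81e4cd2344532254960d8370982e0e82e0d82f09199130ae0e836264a6258a705c1b848d32281d324cb3041d0741c5624c1744d0723507c4712235457214a2354c81e4c41d0e5308d41e074c88d23703c47122d06354a072d20781e078720b1983523616198661354c81e4cd2344532254960d8370982e0e82e0d82f09199130ae0e836264a6258a705c191548d1505d07 = true := by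
  decide +kernel

def r_658_2 : chkL rootF engF2 tB tB sB_237 sB_237 4 F_658 [(256, 31, 10)]
    0x51305d07e1234c8a074c932cc10741d071589305d1341c8d41f11c488d515c85288d53207931074394c2350781d322348dc0f11c48b418d5281cb481e0781e1c82c660d48d858661984d5320793348d114c895258360dc260b83a0b8360bc246644c2b83a0d8992989629c1706e1234c8a074c932cc10741d071589305d1341c8d41f11c488d515c85288d53207931074394c2350781d322348dc0f11c48b418d5281cb481e0781e1c82c660d48d858661984d5320793348d114c895258360dc260b83a0b8360bc246644c2b83a0d8992989629c1706e1234c8a074c932cc10741d071589305d1341c8d41f11c488d515c85288d53207931074394c2350781d322348dc0f11c48b418d5281cb481e0781e1c82c660d48d858661984d5320793348d114c895258360dc260b83a0b8360bc246644c2b83a0d8992989629c170644c6618c1718d0719694a52941948d2a45581e4535065a14a3c0da222e072c8b2a0c65c528c531c8a1b84a508e318952549322cd418ca924c8b81e89a0e1681f1424e8922e8518e8322e46c0ea1a0e2519631a8aa28c6b01944ed0b88d82a8a8a23c47111971288f21a0e2688c6589a25e068619694a52941948d2a45581e4535065a14a3c0da222e072c8b2a0c65c528c531c8a1b84a508e318952549322cd418ca924c8b81e89a0e1681f1424e8922e8518e8322e46c0ea1a0e2519631a8aa28c6b01944ed0b88d82a8a8a23c47111971288f21a0e2688c6589a25e068619694a52941948d2a45581e4535065a14a3c0da222e072c8b2a0c65c528c531c8a1b84a508e318952549322cd418ca924c8b81e89a0e1681f1424e8922e8518e8322e46c0ea1a0e2519631a8aa28c6b01944ed0b88d82a8a8a23c47111971288f21a0e2688c6589a25e0686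 = true := by
  decide +kernel

def r_658_3 : chkL rootF engF2 tB tB sB_237 sB_237 4 F_658 [(256, 41, 0)]
    0x46319694a52941948d2a45581e4535065a14a3c0da222e072c8b2a0c65c528c531c8a1b84a508e318952549322cd418ca924c8b81e89a0e1681f1424e8922e8518e8322e46c0ea1a0e2519631a8aa28c6b01944ed0b88d82a8a8a23c47111971288f21a0e2688c6589a25e068619694a52941948d2a45581e4535065a14a3c0da222e072c8b2a0c65c528c531c8a1b84a508e318952549322cd418ca924c8b81e89a0e1681f1424e8922e8518e8322e46c0ea1a0e2519631a8aa28c6b01944ed0b88d82a8a8a23c47111971288f21a0e2688c6589a25e068619694a52941948d2a45581e4535065a14a3c0da222e072c8b2a0c65c528c531c8a1b84a508e318952549322cd418ca924c8b81e89a0e1681f1424e8922e8518e8322e46c0ea1a0e2519631a8aa28c6b01944ed0b88d82a8a8a23c47111971288f21a0e2688c6589a25e0686 = true := by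
  decide +kernel

theorem f_658 (h : TabsF) : FrameF repsF 237 F_658.f :=
  frame_of rfl c_658 ((runs_of engOK r_658_0).append ((runs_of engOK r_658_1).append ((runs_of engOK r_658_2).append (runs_of engOK r_658_3)))) (by decide +kernel) h.2 h.2

def F_659 : FrX :=
  ⟨0x1001040012008080000e008408004100081010000420080240014001010200000e2000042020200240004800400048800004002100c200001c0900008182,
    0xa3, 1, 0x208596a3, 4,
    [(0xa3, 1), (0x207584a6, 4), (0x10547693, 4), (0x647593a8, 4), (0x10547693, 4), (0x216485a7, 4), (0x208693a4, 4), (0x647593a8, 4), (0x208693a4, 4), (0x106574a8, 4), (0x647593a8, 4), (0x216485a7, 4)],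
    [(0x208596a3, 4), (0x205487a9, 4), (0x21638497, 4), (0x638794a5, 4), (0x21638497, 4), (0x108594a7, 4), (0x206395a4, 4), (0x638794a5, 4), (0x206395a4, 4), (0x217498a5, 4), (0x638794a5, 4), (0x108594a7, 4)]⟩

def c_659 : frmChk tB tB F_659 = true := by decide +kernel

def r_659_0 : chkL rootF engF2 tB tB sB_237 sB_237 4 F_659 [(255, 0, 0), (256, 0, 19)]
    0x10781e0780f1581e0781e03c560781e0780f1580f03c0f03c0f03c0f03c0f = true := by
  decide +kernel

def r_659_1 : chkL rootF engF2 tB tB sB_237 sB_237 4 F_659 [(256, 19, 16)]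
    0x12981e0781e03c560781e0780f1581e0781e03c561c41b06c1b03e1306c1b06c0f84c1b06c1b03e13 = true := by
  decide +kernel

def r_659_2 : chkL rootF engF2 tB tB sB_237 sB_237 4 F_659 [(256, 35, 0)]
    0x10781e0780f1581e0781e03c560781e0780f158950f00f03c1b06c1b03e1306c1b06c0f84c1b06c1b03e132540f0cc1b06c1b03e1306c1b06c0f84c1b06c1b03e13 = true := by
  decide +kernel

theorem f_659 (h : TabsF) : FrameF repsF 237 F_659.f :=
  frame_of rfl c_659 ((runs_of engOK r_659_0).append ((runs_of engOK r_659_1).append (runs_of engOK r_659_2))) (by decide +kernel) h.2 h.2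

def F_660 : FrX :=
  ⟨0x1001040012008080000e0084080041000810100004203810000802200200000044020206000010c04000780000100020210080081000440810080000a023,
    0xa3, 1, 0x217384a3, 4,
    [(0xa3, 1), (0x207584a6, 4), (0x10547693, 4), (0x647593a8, 4), (0x10547693, 4), (0x216485a7, 4), (0x208693a4, 4), (0x647593a8, 4), (0x208693a4, 4), (0x106574a8, 4), (0x647593a8, 4), (0x216485a7, 4)],
    [(0x217384a3, 4), (0x105384a6, 4), (0x20638597, 4), (0x538697a4, 4), (0x20638597, 4), (0x215486a3, 4), (0x106497a8, 4), (0x538697a4, 4), (0x106497a8, 4), (0x206583a4, 4), (0x538697a4, 4), (0x215486a3, 4)]⟩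

def c_660 : frmChk tB tB F_660 = true := by decide +kernel

def r_660_0 : chkL rootF engF2 tB tB sB_237 sB_237 4 F_660 [(255, 0, 0), (256, 0, 17)]
    0x1914362581e0d896078362581e06c6641c960798641c960798641c9607986 = true := by
  decide +kernel

def r_660_1 : chkL rootF engF2 tB tB sB_237 sB_237 4 F_660 [(256, 17, 16)]
    0x10ac362581e0d896078362581e41c960798641c960798641c9607986 = true := by
  decide +kernel

def r_660_2 : chkL rootF engF2 tB tB sB_237 sB_237 4 F_660 [(256, 33, 19)]
    0x41b0d896078362581e0d8960781e41c960798641c960798641c9607986 = true := by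
  decide +kernel

def r_660_3 : chkL rootF engF2 tB tB sB_237 sB_237 4 F_660 [(256, 52, 0)]
    0x1 = true := by
  decide +kernel

theorem f_660 (h : TabsF) : FrameF repsF 237 F_660.f :=
  frame_of rfl c_660 ((runs_of engOK r_660_0).append ((runs_of engOK r_660_1).append ((runs_of engOK r_660_2).append (runs_of engOK r_660_3)))) (by decide +kernel) h.2 h.2

def F_661 : FrX :=
  ⟨0x1001040012008080000e008408004100081010000420080240014001010200000e2000042020200240004800400048800004003800420000063100008032,
    0xa3, 1, 0x208596a3, 4,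
    [(0xa3, 1), (0x207584a6, 4), (0x10547693, 4), (0x647593a8, 4), (0x10547693, 4), (0x216485a7, 4), (0x208693a4, 4), (0x647593a8, 4), (0x208693a4, 4), (0x106574a8, 4), (0x647593a8, 4), (0x216485a7, 4)],
    [(0x208596a3, 4), (0x205487a9, 4), (0x21638497, 4), (0x638794a5, 4), (0x21638497, 4), (0x108594a7, 4), (0x206395a4, 4), (0x638794a5, 4), (0x206395a4, 4), (0x217498a5, 4), (0x638794a5, 4), (0x108594a7, 4)]⟩

def c_661 : frmChk tB tB F_661 = true := by decide +kernel

def r_661_0 : chkL rootF engF2 tB tB sB_237 sB_237 4 F_661 [(255, 0, 0), (256, 0, 19)]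
    0x436268560d89a1580f0d89a1580f03c0f = true := by
  decide +kernel

def r_661_1 : chkL rootF engF2 tB tB sB_237 sB_237 4 F_661 [(256, 19, 16)]
    0x436268560d89a15836268560e80f18c2b03e130cc5684c3315a130cc56 = true := by
  decide +kernel

def r_661_2 : chkL rootF engF2 tB tB sB_237 sB_237 4 F_661 [(256, 35, 0)]
    0x436268560d89a158362685684c3315a130cc5684c331580f3240f03e130cc5684c3315a130cc56 = true := by
  decide +kernel

theorem f_661 (h : TabsF) : FrameF repsF 237 F_661.f :=
  frame_of rfl c_661 ((runs_of engOK r_661_0).append ((runs_of engOK r_661_1).append (runs_of engOK r_661_2))) (by decide +kernel) h.2 h.2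

def F_662 : FrX :=
  ⟨0x1001040012008080000e0084080041000810100004203810000802200200000044020206000070004000181003000020210080080040440810080800a003,
    0xa3, 1, 0x217384a3, 4,
    [(0xa3, 1), (0x207584a6, 4), (0x10547693, 4), (0x647593a8, 4), (0x10547693, 4), (0x216485a7, 4), (0x208693a4, 4), (0x647593a8, 4), (0x208693a4, 4), (0x106574a8, 4), (0x647593a8, 4), (0x216485a7, 4)],
    [(0x217384a3, 4), (0x105384a6, 4), (0x20638597, 4), (0x538697a4, 4), (0x20638597, 4), (0x215486a3, 4), (0x106497a8, 4), (0x538697a4, 4), (0x106497a8, 4), (0x206583a4, 4), (0x538697a4, 4), (0x215486a3, 4)]⟩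

def c_662 : frmChk tB tB F_662 = true := by decide +kernel

def r_662_0 : chkL rootF engF2 tB tB sB_237 sB_237 4 F_662 [(255, 0, 0), (256, 0, 17)]
    0x41d09ca509c1e2982729427078a609ca509c1e2989a09c27078270cc2e09c1e09c330b827078270cc2e = true := by
  decide +kernel

def r_662_1 : chkL rootF engF2 tB tB sB_237 sB_237 4 F_662 [(256, 17, 16)]
    0x42709ca509c1e2982729427078a609ca509c1e29827078270cc2e09c1e09c330b827078270cc2e = true := by
  decide +kernel

def r_662_2 : chkL rootF engF2 tB tB sB_237 sB_237 4 F_662 [(256, 33, 19)]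
    0x109c2729427078a609ca509c1e2982729427078a624c2709c1e09c330b827078270cc2e09c1e09c330b827 = true := by
  decide +kernel

def r_662_3 : chkL rootF engF2 tB tB sB_237 sB_237 4 F_662 [(256, 52, 0)]
    0x1 = true := by
  decide +kernel

theorem f_662 (h : TabsF) : FrameF repsF 237 F_662.f :=
  frame_of rfl c_662 ((runs_of engOK r_662_0).append ((runs_of engOK r_662_1).append ((runs_of engOK r_662_2).append (runs_of engOK r_662_3)))) (by decide +kernel) h.2 h.2

def F_663 : FrX :=
  ⟨0x1001040012008080000e008408004100081010000420201000480220020000204402020600007000400c780000000020210080080040440810000000a023,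
    0xa3, 1, 0x1041718590a4, 6,
    [(0xa3, 1), (0x207584a6, 4), (0x10547693, 4), (0x647593a8, 4), (0x10547693, 4), (0x216485a7, 4), (0x208693a4, 4), (0x647593a8, 4), (0x208693a4, 4), (0x106574a8, 4), (0x647593a8, 4), (0x216485a7, 4)],
    [(0x1041718590a4, 6), (0x638492a5, 4), (0x106497a8, 4), (0x105384a6, 4), (0x106497a8, 4), (0x437285a6, 4), (0x106592a3, 4), (0x105384a6, 4), (0x106592a3, 4), (0x538697a4, 4), (0x105384a6, 4), (0x437285a6, 4)]⟩

def c_663 : frmChk tB tB F_663 = true := by decide +kernel

def r_663_0 : chkL rootF engF2 tB tB sB_237 sB_237 4 F_663 [(255, 0, 0), (256, 0, 18)]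
    0x14982b0ac3388c3329aa44942b2b225295260ac2b0ce23 = true := by
  decide +kernel

def r_663_1 : chkL rootF engF2 tB tB sB_237 sB_237 4 F_663 [(256, 18, 17)]
    0x1079250acac894a50d41e0781e0781e0d81e0781e = true := by
  decide +kernel

def r_663_2 : chkL rootF engF2 tB tB sB_237 sB_237 4 F_663 [(256, 35, 0)]
    0x11986614d250acac894a50aca33c01721c93269260ac2b0ce23 = true := by
  decide +kernel

theorem f_663 (h : TabsF) : FrameF repsF 237 F_663.f :=
  frame_of rfl c_663 ((runs_of engOK r_663_0).append ((runs_of engOK r_663_1).append (runs_of engOK r_663_2))) (by decide +kernel) h.2 h.2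

def F_664 : FrX :=
  ⟨0x1001040012008080000e008408004100081010000420080240014001010200000e200004202020024000480040004880000400380042000006490000802c,
    0xa3, 1, 0x208596a3, 4,
    [(0xa3, 1), (0x207584a6, 4), (0x10547693, 4), (0x647593a8, 4), (0x10547693, 4), (0x216485a7, 4), (0x208693a4, 4), (0x647593a8, 4), (0x208693a4, 4), (0x106574a8, 4), (0x647593a8, 4), (0x216485a7, 4)],
    [(0x208596a3, 4), (0x205487a9, 4), (0x21638497, 4), (0x638794a5, 4), (0x21638497, 4), (0x108594a7, 4), (0x206395a4, 4), (0x638794a5, 4), (0x206395a4, 4), (0x217498a5, 4), (0x638794a5, 4), (0x108594a7, 4)]⟩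

def c_664 : frmChk tB tB F_664 = true := by decide +kernel

def r_664_0 : chkL rootF engF2 tB tB sB_237 sB_237 4 F_664 [(255, 0, 0), (256, 0, 19)]
    0x105c1e158170785603c170785603c1703c0f = true := by
  decide +kernel

def r_664_1 : chkL rootF engF2 tB tB sB_237 sB_237 4 F_664 [(256, 19, 16)]
    0x103c170785605c1e15817078561541705c331581705c331581705c331583a = true := by
  decide +kernel

def r_664_2 : chkL rootF engF2 tB tB sB_237 sB_237 4 F_664 [(256, 35, 0)]
    0x105c1e158170785605c1e1581705c331581705c331581705c331580f0ac0f05c170cc5605c170cc5605c170cc56 = true := by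
  decide +kernel

theorem f_664 (h : TabsF) : FrameF repsF 237 F_664.f :=
  frame_of rfl c_664 ((runs_of engOK r_664_0).append ((runs_of engOK r_664_1).append (runs_of engOK r_664_2))) (by decide +kernel) h.2 h.2

def F_665 : FrX :=
  ⟨0x1001040012008080000e0084080041000810100004203810000802200200000044020206000070004000180c040000202100800800404408100808002023,
    0xa3, 1, 0x217384a3, 4,
    [(0xa3, 1), (0x207584a6, 4), (0x10547693, 4), (0x647593a8, 4), (0x10547693, 4), (0x216485a7, 4), (0x208693a4, 4), (0x647593a8, 4), (0x208693a4, 4), (0x106574a8, 4), (0x647593a8, 4), (0x216485a7, 4)],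
    [(0x217384a3, 4), (0x105384a6, 4), (0x20638597, 4), (0x538697a4, 4), (0x20638597, 4), (0x215486a3, 4), (0x106497a8, 4), (0x538697a4, 4), (0x106497a8, 4), (0x206583a4, 4), (0x538697a4, 4), (0x215486a3, 4)]⟩

def c_665 : frmChk tB tB F_665 = true := by decide +kernel

def r_665_0 : chkL rootF engF2 tB tB sB_237 sB_237 4 F_665 [(255, 0, 0), (256, 0, 17)]
    0x41b81c2e2942e294a60b8a50b8a52982e2942e294a60b8a5660a50b82e294a62942e0b8a5298a50b82e294a6 = true := by
  decide +kernel

def r_665_1 : chkL rootF engF2 tB tB sB_237 sB_237 4 F_665 [(256, 17, 16)]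
    0x10b8a50b8a52982e2942e294a60b8a50b8a52982b0d8a50b82e294a62942e0b8a5298a50b82e294a6 = true := by
  decide +kernel

def r_665_2 : chkL rootF engF2 tB tB sB_237 sB_237 4 F_665 [(256, 33, 19)]
    0x41e0b8a50b8a52982e2942e294a60b8a50b8a5298960ad982942e0b8a5298a50b82e294a62942e0b8a529847 = true := by
  decide +kernel

def r_665_3 : chkL rootF engF2 tB tB sB_237 sB_237 4 F_665 [(256, 52, 0)]
    0x10da07 = true := by
  decide +kernel

theorem f_665 (h : TabsF) : FrameF repsF 237 F_665.f :=
  frame_of rfl c_665 ((runs_of engOK r_665_0).append ((runs_of engOK r_665_1).append ((runs_of engOK r_665_2).append (runs_of engOK r_665_3)))) (by decide +kernel) h.2 h.2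

def F_666 : FrX :=
  ⟨0x1001040012008080000e008408004100081010000420080240014001010200000e20000420202002400048004000488000040021030200001c0900008062,
    0xa3, 1, 0x208596a3, 4,
    [(0xa3, 1), (0x207584a6, 4), (0x10547693, 4), (0x647593a8, 4), (0x10547693, 4), (0x216485a7, 4), (0x208693a4, 4), (0x647593a8, 4), (0x208693a4, 4), (0x106574a8, 4), (0x647593a8, 4), (0x216485a7, 4)],
    [(0x208596a3, 4), (0x205487a9, 4), (0x21638497, 4), (0x638794a5, 4), (0x21638497, 4), (0x108594a7, 4), (0x206395a4, 4), (0x638794a5, 4), (0x206395a4, 4), (0x217498a5, 4), (0x638794a5, 4), (0x108594a7, 4)]⟩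

def c_666 : frmChk tB tB F_666 = true := by decide +kernel

def r_666_0 : chkL rootF engF2 tB tB sB_237 sB_237 4 F_666 [(255, 0, 0), (256, 0, 19)]
    0x50741c1e5150741c1e5150741c1e5140f03c0f = true := by
  decide +kernel

def r_666_1 : chkL rootF engF2 tB tB sB_237 sB_237 4 F_666 [(256, 19, 16)]
    0x103d0741c1e5150741c1e5150741c1e5141e0cc33194630cc33194630cc3319463 = true := by
  decide +kernel

def r_666_2 : chkL rootF engF2 tB tB sB_237 sB_237 4 F_666 [(256, 35, 0)]
    0x141d070794541d070794541d07079450cc33194630cc33194630cc33194630cc33194630cc33194630cc3319463 = true := by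
  decide +kernel

theorem f_666 (h : TabsF) : FrameF repsF 237 F_666.f :=
  frame_of rfl c_666 ((runs_of engOK r_666_0).append ((runs_of engOK r_666_1).append (runs_of engOK r_666_2))) (by decide +kernel) h.2 h.2

def F_667 : FrX :=
  ⟨0x1001040012008080000e008408004100081010000420080240014001010200000320002420202002400048004000488000040038004200001c0900030022,
    0xa3, 1, 0x3254618398a6, 6,
    [(0xa3, 1), (0x207584a6, 4), (0x10547693, 4), (0x647593a8, 4), (0x10547693, 4), (0x216485a7, 4), (0x208693a4, 4), (0x647593a8, 4), (0x208693a4, 4), (0x106574a8, 4), (0x647593a8, 4), (0x216485a7, 4)],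
    [(0x3254618398a6, 6), (0x307495a8, 4), (0x215460a7, 4), (0x217498a5, 4), (0x215460a7, 4), (0x638794a5, 4), (0x213085a9, 4), (0x217498a5, 4), (0x213085a9, 4), (0x607598a4, 4), (0x217498a5, 4), (0x638794a5, 4)]⟩

def c_667 : frmChk tB tB F_667 = true := by decide +kernel

def r_667_0 : chkL rootF engF2 tB tB sB_237 sB_237 4 F_667 [(255, 0, 0), (256, 0, 20)]
    0x1158560cc350784703c33 = true := by
  decide +kernel

def r_667_1 : chkL rootF engF2 tB tB sB_237 sB_237 4 F_667 [(256, 20, 12)]
    0x40f158560cc3507a5106c1b0ce13 = true := by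
  decide +kernel

def r_667_2 : chkL rootF engF2 tB tB sB_237 sB_237 4 F_667 [(256, 32, 21)]
    0x103c0f9441b06c3384c0f0b65106c1b0ce13 = true := by
  decide +kernel

def r_667_3 : chkL rootF engF2 tB tB sB_237 sB_237 4 F_667 [(256, 53, 0)]
    0x456158330d41e = true := by
  decide +kernel

theorem f_667 (h : TabsF) : FrameF repsF 237 F_667.f :=
  frame_of rfl c_667 ((runs_of engOK r_667_0).append ((runs_of engOK r_667_1).append ((runs_of engOK r_667_2).append (runs_of engOK r_667_3)))) (by decide +kernel) h.2 h.2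

def F_668 : FrX :=
  ⟨0x1c4044000008081000000840080410000101084042102000001081000102000040a02060000700000167002000200240100201000504008004001008023,
    0x0, 0, 0x657384, 3,
    [(0x0, 0), (0x20637584, 4), (0x105476a9, 4), (0x647583a9, 4), (0x105476a9, 4), (0x21647385, 4), (0x204386a9, 4), (0x647583a9, 4), (0x204386a9, 4), (0x10657483, 4), (0x647583a9, 4), (0x21647385, 4)],
    [(0x657384, 3), (0x20637584, 4), (0x105386a9, 4), (0x637485a9, 4), (0x105386a9, 4), (0x21647385, 4), (0x205487a9, 4), (0x637485a9, 4), (0x205487a9, 4), (0x10657483, 4), (0x637485a9, 4), (0x21647385, 4)]⟩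

def c_668 : frmChk tB tB F_668 = true := by decide +kernel

def r_668_0 : chkL rootF engF2 tB tB sB_237 sB_237 4 F_668 [(255, 0, 0), (256, 0, 9)]
    0x10d4656863188e2c495154d12c894b2458742ca2325a072ca322a50d195a18c8332d2462c8658aa2388c878a89a21d1a0ac6921ca542c8746a2322c1e4589a44e8364a1582c598661591a158c62ca241d1641d81e0d1354554570b82a19c23284e260d4656863188e2c495154d12c894b2458742ca2325a072ca322a50d195a18c8332d2462c8658aa2388c878a89a21d1a0ac6921ca542c8746a2322c1e4589a44e8364a1582c598661591a158c62ca241d1641d81e0d1354554570b82a19c23284e260d4656863188e2c495154d12c894b2458742ca2325a072ca322a50d195a18c8332d2462c8658aa2388c878a89a21d1a0ac6921ca542c8746a2322c1e4589a44e8364a1582c598661591a158c62ca241d1641d81e0d1354554570b82a19c23284e261984b44e702d0662d21529a072d23486a91944d10cc4b14c631c85a84d138d0352ca452d0d18721521e158701d4646521c6c134871b08724e152360b88d298a4ac196453902e19a15857068c42b4a68986a1981e0b18d431c570384e8b8390a46708d2258586612d139c0b4198b4854a681cb48d21aa46513443312c5318c7216a1344e340d4b2914b43461c854878561c07519194871b04d21c6c21c938548d82e234a6292b065914e40b86685615c1a310ad29a261a8660782c6350c715c0e13a2e0e42919c23489616234360d80f21c6612d139c0b4198b4854a681cb48d21aa46513443312c5318c7216a1344e340d4b2914b43461c854878561c07519194871b04d21c6c21c938548d82e234a6292b065914e40b86685615c1a310ad29a261a8660782c6350c715c0e13a2e0e42919c2348961622c8b03c87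 = true := by
  decide +kernel

def r_668_1 : chkL rootF engF2 tB tB sB_237 sB_237 4 F_668 [(256, 9, 22)]
    0x48b22d132340f21c6612d139c0b4198b4854a681cb48d21aa46513443312c5318c7216a1344e340d4b2914b43461c854878561c07519194871b04d21c6c21c938548d82e234a6292b065914e40b86685615c1a310ad29a261a8660782c6350c715c0e13a2e0e42919c234896161984b44e702d0662d21529a072d23486a91944d10cc4b14c631c85a84d138d0352ca452d0d18721521e158701d4646521c6c134871b08724e152360b88d298a4ac196453902e19a15857068c42b4a68986a1981e0b18d431c570384e8b8390a46708d2258586612d139c0b4198b4854a681cb48d21aa46513443312c5318c7216a1344e340d4b2914b43461c854878561c07519194871b04d21c6c21c938548d82e234a6292b065914e40b86685615c1a310ad29a261a8660782c6350c715c0e13a2e0e42919c234896162348b1986503c87 = true := by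
  decide +kernel

def r_668_2 : chkL rootF engF2 tB tB sB_237 sB_237 4 F_668 [(256, 31, 10)]
    0x122c8b03c871984b44e702d0662d21529a072d23486a91944d10cc4b14c631c85a84d138d0352ca452d0d18721521e158701d4646521c6c134871b08724e152360b88d298a4ac196453902e19a15857068c42b4a68986a1981e0b18d431c570384e8b8390a46708d2258586612d139c0b4198b4854a681cb48d21aa46513443312c5318c7216a1344e340d4b2914b43461c854878561c07519194871b04d21c6c21c938548d82e234a6292b065914e40b86685615c1a310ad29a261a8660782c6350c715c0e13a2e0e42919c234896161984b44e702d0662d21529a072d23486a91944d10cc4b14c631c85a84d138d0352ca452d0d18721521e158701d4646521c6c134871b08724e152360b88d298a4ac196453902e19a15857068c42b4a68986a1981e0b18d431c570384e8b8390a46708d2258588b2583603c870d4656863188e2c495154d12c894b2458742ca2325a072ca322a50d195a18c8332d2462c8658aa2388c878a89a21d1a0ac6921ca542c8746a2322c1e4589a44e8364a1582c598661591a158c62ca241d1641d81e0d1354554570b82a19c23284e260d4656863188e2c495154d12c894b2458742ca2325a072ca322a50d195a18c8332d2462c8658aa2388c878a89a21d1a0ac6921ca542c8746a2322c1e4589a44e8364a1582c598661591a158c62ca241d1641d81e0d1354554570b82a19c23284e260d4656863188e2c495154d12c894b2458742ca2325a072ca322a50d195a18c8332d2462c8658aa2388c878a89a21d1a0ac6921ca542c8746a2322c1e4589a44e8364a1582c598661591a158c62ca241d1641d81e0d1354554570b82a19c23284e26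 = true := by
  decide +kernel

def r_668_3 : chkL rootF engF2 tB tB sB_237 sB_237 4 F_668 [(256, 41, 0)]
    0x10d4656863188e2c495154d12c894b2458742ca2325a072ca322a50d195a18c8332d2462c8658aa2388c878a89a21d1a0ac6921ca542c8746a2322c1e4589a44e8364a1582c598661591a158c62ca241d1641d81e0d1354554570b82a19c23284e260d4656863188e2c495154d12c894b2458742ca2325a072ca322a50d195a18c8332d2462c8658aa2388c878a89a21d1a0ac6921ca542c8746a2322c1e4589a44e8364a1582c598661591a158c62ca241d1641d81e0d1354554570b82a19c23284e260d4656863188e2c495154d12c894b2458742ca2325a072ca322a50d195a18c8332d2462c8658aa2388c878a89a21d1a0ac6921ca542c8746a2322c1e4589a44e8364a1582c598661591a158c62ca241d1641d81e0d1354554570b82a19c23284e26 = true := by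
  decide +kernel

theorem f_668 (h : TabsF) : FrameF repsF 237 F_668.f :=
  frame_of rfl c_668 ((runs_of engOK r_668_0).append ((runs_of engOK r_668_1).append ((runs_of engOK r_668_2).append (runs_of engOK r_668_3)))) (by decide +kernel) h.2 h.2

def F_669 : FrX :=
  ⟨0x1001040012008080000e0084080041000810100004200810010802200200008044020206000070004006780000000020210080080040440810000000a023,
    0xa3, 1, 0x2040637091a4, 6,
    [(0xa3, 1), (0x207584a6, 4), (0x10547693, 4), (0x647593a8, 4), (0x10547693, 4), (0x216485a7, 4), (0x208693a4, 4), (0x647593a8, 4), (0x208693a4, 4), (0x106574a8, 4), (0x647593a8, 4), (0x216485a7, 4)],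
    [(0x2040637091a4, 6), (0x546370a8, 4), (0x214397a5, 4), (0x215486a3, 4), (0x214397a5, 4), (0x648590a3, 4), (0x217083a6, 4), (0x215486a3, 4), (0x217083a6, 4), (0x538697a4, 4), (0x215486a3, 4), (0x648590a3, 4)]⟩

def c_669 : frmChk tB tB F_669 = true := by decide +kernel

def r_669_0 : chkL rootF engF2 tB tB sB_237 sB_237 4 F_669 [(255, 0, 0), (256, 0, 18)]
    0x14982b0ac3388c1b074d1075250acac894a53448721c1b139260ac2b0ce23 = true := by
  decide +kernel

def r_669_1 : chkL rootF engF2 tB tB sB_237 sB_237 4 F_669 [(256, 18, 23)]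
    0x5260ac2b0ce230b5250acac894a506c2d = true := by
  decide +kernel

def r_669_2 : chkL rootF engF2 tB tB sB_237 sB_237 4 F_669 [(256, 41, 0)]
    0x42b0ac2b6241b21c8706d250acac894a52589a0ac1e = true := by
  decide +kernel

theorem f_669 (h : TabsF) : FrameF repsF 237 F_669.f :=
  frame_of rfl c_669 ((runs_of engOK r_669_0).append ((runs_of engOK r_669_1).append (runs_of engOK r_669_2))) (by decide +kernel) h.2 h.2

theorem cl_237 (h : TabsF) : ∀ f ∈ fr_237, FrameF repsF 237 f :=
  List.forall_mem_cons.2 ⟨f_654 h, List.forall_mem_cons.2 ⟨f_655 h, List.forall_mem_cons.2 ⟨f_656 h, List.forall_mem_cons.2 ⟨f_657 h, List.forall_mem_cons.2 ⟨f_658 h, List.forall_mem_cons.2 ⟨f_659 h, List.forall_mem_cons.2 ⟨f_660 h, List.forall_mem_cons.2 ⟨f_661 h, List.forall_mem_cons.2 ⟨f_662 h, List.forall_mem_cons.2 ⟨f_663 h, List.forall_mem_cons.2 ⟨f_664 h, List.forall_mem_cons.2 ⟨f_665 h, List.forall_mem_cons.2 ⟨f_666 h, List.forall_mem_cons.2 ⟨f_667 h, List.forall_mem_cons.2 ⟨f_668 h, List.forall_mem_cons.2 ⟨f_669 h,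
    fun _ h0 => absurd h0 List.not_mem_nil⟩⟩⟩⟩⟩⟩⟩⟩⟩⟩⟩⟩⟩⟩⟩⟩

/-- the classes finished in this module -/
theorem all_L08 (h : TabsF) : ∀ p ∈ ([(225, fr_225), (226, fr_226), (227, fr_227), (228, fr_228), (229, fr_229), (230, fr_230), (231, fr_231), (232, fr_232), (233, fr_233), (234, fr_234), (235, fr_235), (236, fr_236), (237, fr_237)] : List (ℕ × List ℕ)),
    ∀ f ∈ p.2, FrameF repsF p.1 f :=
  List.forall_mem_cons.2 ⟨cl_225 h, List.forall_mem_cons.2 ⟨cl_226 h, List.forall_mem_cons.2 ⟨cl_227 h, List.forall_mem_cons.2 ⟨cl_228 h, List.forall_mem_cons.2 ⟨cl_229 h, List.forall_mem_cons.2 ⟨cl_230 h, List.forall_mem_cons.2 ⟨cl_231 h, List.forall_mem_cons.2 ⟨cl_232 h, List.forall_mem_cons.2 ⟨cl_233 h, List.forall_mem_cons.2 ⟨cl_234 h, List.forall_mem_cons.2 ⟨cl_235 h, List.forall_mem_cons.2 ⟨cl_236 h, List.forall_mem_cons.2 ⟨cl_237 h, fun _ h0 => absurd h0 List.not_mem_nil⟩⟩⟩⟩⟩⟩⟩⟩⟩⟩⟩⟩⟩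

end Pool.Agent.Gen.TY.F
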