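import Pool.Agent.Helper20.TY.EngF
import Pool.Agent.Helper20.TY.TabG
import Pool.Agent.Gen.TY.FS.SufA
import Pool.Agent.Gen.TY.FS.SufB
import Pool.Agent.Gen.TY.FR.Dat

/-!
MP_8ee768_co, project TH-Y', stage F: frames.
-/

set_option autoImplicit false

namespace Pool.Agent.Gen.TY.F

open Pool.Agent.Helper79.CV
open Pool.Agent.Helper20.TY
open Pool.Agent.Helper20.TY.EngF
open Pool.Agent.Gen.TY.FS
open Pool.Agent.Gen.TY.FR

def F_782 : FrX :=
  ⟨0x1c404400000808100000084008041000010108405008008001000008410008044082200128002200404000501060802001001109800400c001408020000,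
    0x0, 0, 0x2153647584, 5,
    [(0x0, 0), (0x20637584, 4), (0x105476a9, 4), (0x647583a9, 4), (0x105476a9, 4), (0x21647385, 4), (0x204386a9, 4), (0x647583a9, 4), (0x204386a9, 4), (0x10657483, 4), (0x647583a9, 4), (0x21647385, 4)],
    [(0x2153647584, 5), (0x106475a9, 4), (0x206387a9, 4), (0x214385a9, 4), (0x106475a9, 4), (0x206387a9, 4)]⟩

def c_782 : frmChk tB tA F_782 = true := by decide +kernel

def r_782_0 : chkL rootF engF2 tB tA sB_242 sA_242 4 F_782 [(255, 0, 0), (256, 0, 9)]
    0x1 = true := by
  decide +kernel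

def r_782_1 : chkL rootF engF2 tB tA sB_242 sA_242 4 F_782 [(256, 9, 14)]
    0x40f1644b = true := by
  decide +kernel

def r_782_2 : chkL rootF engF2 tB tA sB_242 sA_242 4 F_782 [(256, 23, 16)]
    0x60716631 = true := by
  decide +kernel

def r_782_3 : chkL rootF engF2 tB tA sB_242 sA_242 4 F_782 [(256, 39, 0)]
    0x1 = true := by
  decide +kernel

theorem f_782 (h : TabsF) : FrameF repsF 242 F_782.f :=
  frame_of rfl c_782 ((runs_of engOK r_782_0).append ((runs_of engOK r_782_1).append ((runs_of engOK r_782_2).append (runs_of engOK r_782_3)))) (by decide +kernel) h.2 h.1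

def F_783 : FrX :=
  ⟨0x1001040012008080000e00840800410008101000040808084020008100080084804100102020800810010010020400140024408501024004011000021010,
    0xa3, 1, 0x52608092a3, 5,
    [(0xa3, 1), (0x207584a6, 4), (0x10547693, 4), (0x647593a8, 4), (0x10547693, 4), (0x216485a7, 4), (0x208693a4, 4), (0x647593a8, 4), (0x208693a4, 4), (0x106574a8, 4), (0x647593a8, 4), (0x216485a7, 4)],
    [(0x52608092a3, 5), (0x647298a0, 4), (0x42537081, 4), (0x405372a6, 4), (0x42537081, 4), (0x406291a7, 4), (0x536098a4, 4), (0x405372a6, 4), (0x536098a4, 4), (0x207481a6, 4), (0x405372a6, 4), (0x406291a7, 4)]⟩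

def c_783 : frmChk tB tB F_783 = true := by decide +kernel

def r_783_0 : chkL rootF engF2 tB tB sB_242 sB_242 4 F_783 [(255, 0, 0), (256, 0, 24)]
    0x4270b42d4d12c0e817 = true := by
  decide +kernel

def r_783_1 : chkL rootF engF2 tB tB sB_242 sB_242 4 F_783 [(256, 24, 0)]
    0x10ac2b = true := by
  decide +kernel

theorem f_783 (h : TabsF) : FrameF repsF 242 F_783.f :=
  frame_of rfl c_783 ((runs_of engOK r_783_0).append (runs_of engOK r_783_1)) (by decide +kernel) h.2 h.2

def F_784 : FrX :=
  ⟨0x1001040012008080000e0084080041000810100004420104004102800008004240000220404000800809000a80081020002080401084040210800a800080,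
    0xa3, 1, 0x1031607287a0, 6,
    [(0xa3, 1), (0x207584a6, 4), (0x10547693, 4), (0x647593a8, 4), (0x10547693, 4), (0x216485a7, 4), (0x208693a4, 4), (0x647593a8, 4), (0x208693a4, 4), (0x106574a8, 4), (0x647593a8, 4), (0x216485a7, 4)],
    [(0x1031607287a0, 6), (0x104285a7, 4), (0x548196a3, 4), (0x20418596, 4), (0x548196a3, 4), (0x41527380, 4), (0x214096a7, 4), (0x20418596, 4), (0x214096a7, 4), (0x205184a3, 4), (0x20418596, 4), (0x41527380, 4)]⟩

def c_784 : frmChk tB tB F_784 = true := by decide +kernel

def r_784_0 : chkL rootF engF2 tB tB sB_242 sB_242 4 F_784 [(255, 0, 0), (256, 0, 24)]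
    0x42e09c65138561946a09c274946a09c27299a2 = true := by
  decide +kernel

def r_784_1 : chkL rootF engF2 tB tB sB_242 sB_242 4 F_784 [(256, 24, 0)]
    0x10ac710ac4b = true := by
  decide +kernel

theorem f_784 (h : TabsF) : FrameF repsF 242 F_784.f :=
  frame_of rfl c_784 ((runs_of engOK r_784_0).append (runs_of engOK r_784_1)) (by decide +kernel) h.2 h.2

def F_785 : FrX :=
  ⟨0x600020801080810000c00401804101010010040020204220004004041802000800220012a00020048000010802080a0000011091004004000c08110200,
    0xa0, 1, 0x314052617485a3, 7,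
    [(0xa0, 1), (0x637584a2, 4), (0x547690a1, 4), (0x64758390, 4), (0x547690a1, 4), (0x21647385, 4), (0x438690a2, 4), (0x64758390, 4), (0x438690a2, 4), (0x657483a1, 4), (0x64758390, 4), (0x21647385, 4)],
    [(0x314052617485a3, 7), (0x325491a8, 4), (0x20648791, 4), (0x306591a7, 4), (0x325491a8, 4), (0x20648791, 4)]⟩

def c_785 : frmChk tB tA F_785 = true := by decide +kernel

def r_785_0 : chkL rootF engF2 tB tA sB_242 sA_242 4 F_785 [(255, 0, 0), (256, 0, 23)]
    0x10ac1d4540f1701b = true := by
  decide +kernel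

def r_785_1 : chkL rootF engF2 tB tA sB_242 sA_242 4 F_785 [(256, 23, 0)]
    0x42d1a474 = true := by
  decide +kernel

theorem f_785 (h : TabsF) : FrameF repsF 242 F_785.f :=
  frame_of rfl c_785 ((runs_of engOK r_785_0).append (runs_of engOK r_785_1)) (by decide +kernel) h.2 h.1

def F_786 : FrX :=
  ⟨0x600020801080810000c0040180410101001004000840900000024802002020040010500a00080220001000103008090440012400802040004111008400,
    0xa0, 1, 0x1030425163708795a6, 9,
    [(0xa0, 1), (0x637584a2, 4), (0x547690a1, 4), (0x64758390, 4), (0x547690a1, 4), (0x21647385, 4), (0x438690a2, 4), (0x64758390, 4), (0x438690a2, 4), (0x657483a1, 4), (0x64758390, 4), (0x21647385, 4)],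
    [(0x1030425163708795a6, 9), (0x107496a3, 4), (0x10758392, 4), (0x105462a8, 4), (0x107496a3, 4), (0x10758392, 4)]⟩

def c_786 : frmChk tB tA F_786 = true := by decide +kernel

def r_786_0 : chkL rootF engF2 tB tA sB_242 sA_242 4 F_786 [(255, 0, 0), (256, 0, 23)]
    0x40f03c2b1e03a078721a863 = true := by
  decide +kernel

def r_786_1 : chkL rootF engF2 tB tA sB_242 sA_242 4 F_786 [(256, 23, 0)]
    0x4651e10d09d0d = true := by
  decide +kernel

theorem f_786 (h : TabsF) : FrameF repsF 242 F_786.f :=
  frame_of rfl c_786 ((runs_of engOK r_786_0).append (runs_of engOK r_786_1)) (by decide +kernel) h.2 h.1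

def F_787 : FrX :=
  ⟨0x1001040012008080000e00840800410008101000040480080120002480020030048002001380002004040005010400420010010018804408004009002080,
    0xa3, 1, 0x2132407598a1, 6,
    [(0xa3, 1), (0x207584a6, 4), (0x10547693, 4), (0x647593a8, 4), (0x10547693, 4), (0x216485a7, 4), (0x208693a4, 4), (0x647593a8, 4), (0x208693a4, 4), (0x106574a8, 4), (0x647593a8, 4), (0x216485a7, 4)],
    [(0x2132407598a1, 6), (0x43718296, 4), (0x708295a4, 4), (0x106582a3, 4), (0x43718296, 4), (0x708295a4, 4)]⟩

def c_787 : frmChk tB tA F_787 = true := by decide +kernel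

def r_787_0 : chkL rootF engF2 tB tA sB_242 sA_242 4 F_787 [(255, 0, 0), (256, 0, 24)]
    0x15502755036 = true := by
  decide +kernel

def r_787_1 : chkL rootF engF2 tB tA sB_242 sA_242 4 F_787 [(256, 24, 0)]
    0x10ac0f9c05a0f2520f03c94954 = true := by
  decide +kernel

theorem f_787 (h : TabsF) : FrameF repsF 242 F_787.f :=
  frame_of rfl c_787 ((runs_of engOK r_787_0).append (runs_of engOK r_787_1)) (by decide +kernel) h.2 h.1

def F_788 : FrX :=
  ⟨0x1001040012008080000e00840800410008101000060000084040102100121010010004100020810810044200400020014004020200810811028002020108,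
    0xa3, 1, 0x305363728594a1, 7,
    [(0xa3, 1), (0x207584a6, 4), (0x10547693, 4), (0x647593a8, 4), (0x10547693, 4), (0x216485a7, 4), (0x208693a4, 4), (0x647593a8, 4), (0x208693a4, 4), (0x106574a8, 4), (0x647593a8, 4), (0x216485a7, 4)],
    [(0x305363728594a1, 7), (0x65738290, 4), (0x415298a3, 4), (0x41608295, 4), (0x415298a3, 4), (0x628095a7, 4), (0x41507396, 4), (0x41608295, 4), (0x41507396, 4), (0x608592a3, 4), (0x41608295, 4), (0x628095a7, 4)]⟩

def c_788 : frmChk tB tB F_788 = true := by decide +kernel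

def r_788_0 : chkL rootF engF2 tB tB sB_242 sB_242 4 F_788 [(255, 0, 0), (256, 0, 25)]
    0x103d0d03c0f0e4172649c1701e0781b = true := by
  decide +kernel

def r_788_1 : chkL rootF engF2 tB tB sB_242 sB_242 4 F_788 [(256, 25, 0)]
    0x4170781b0ac350ac6a06f501642705c39 = true := by
  decide +kernel

theorem f_788 (h : TabsF) : FrameF repsF 242 F_788.f :=
  frame_of rfl c_788 ((runs_of engOK r_788_0).append (runs_of engOK r_788_1)) (by decide +kernel) h.2 h.2

def F_789 : FrX :=
  ⟨0x80080a000804040e0000210100200100000204088120000141020002000408820901000090200002101000008804801002008a05400808a002004440000,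
    0xa6, 1, 0x204350628093a2, 7,
    [(0xa6, 1), (0x205396a8, 4), (0x10548796, 4), (0x214396a7, 4), (0x205396a8, 4), (0x10548796, 4)],
    [(0x204350628093a2, 7), (0x537290a8, 4), (0x32647081, 4), (0x30647295, 4), (0x32647081, 4), (0x305297a1, 4), (0x506493a8, 4), (0x30647295, 4), (0x506493a8, 4), (0x20738195, 4), (0x30647295, 4), (0x305297a1, 4)]⟩

def c_789 : frmChk tA tB F_789 = true := by decide +kernel

def r_789_0 : chkL rootF engF2 tA tB sA_242 sB_242 4 F_789 [(255, 0, 0), (256, 0, 23)]
    0x106c4d = true := by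
  decide +kernel

def r_789_1 : chkL rootF engF2 tA tB sA_242 sB_242 4 F_789 [(256, 23, 0)]
    0x4ac07899 = true := by
  decide +kernel

theorem f_789 (h : TabsF) : FrameF repsF 242 F_789.f :=
  frame_of rfl c_789 ((runs_of engOK r_789_0).append (runs_of engOK r_789_1)) (by decide +kernel) h.1 h.2

def F_790 : FrX :=
  ⟨0x2002000900044004000e02041000141000800040802000414004024201010048000002200882000821000102000060010008009015000208101202820080,
    0xa3, 1, 0x10203065728191a0, 8,
    [(0xa3, 1), (0x208693a5, 4), (0x10548793, 4), (0x217693a4, 4), (0x208693a5, 4), (0x10548793, 4)],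
    [(0x10203065728191a0, 8), (0x405261a7, 4), (0x516483a9, 4), (0x20546183, 4), (0x516483a9, 4), (0x21546097, 4), (0x425083a7, 4), (0x20546183, 4), (0x425083a7, 4), (0x204165a9, 4), (0x20546183, 4), (0x21546097, 4)]⟩

def c_790 : frmChk tA tB F_790 = true := by decide +kernel

def r_790_0 : chkL rootF engF2 tA tB sA_242 sB_242 4 F_790 [(255, 0, 0), (256, 0, 24)]
    0x41d06c1b0741b06c1b06c0f = true := by
  decide +kernel

def r_790_1 : chkL rootF engF2 tA tB sA_242 sB_242 4 F_790 [(256, 24, 0)]
    0x4594655103c270ceb0 = true := by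
  decide +kernel

theorem f_790 (h : TabsF) : FrameF repsF 242 F_790.f :=
  frame_of rfl c_790 ((runs_of engOK r_790_0).append (runs_of engOK r_790_1)) (by decide +kernel) h.1 h.2

def F_791 : FrX :=
  ⟨0x482000044040440000c204002000900018204002000208010008080408042202002040002404020a000080802010101080004011021004114200808040,
    0xa0, 1, 0x213242718093a8, 7,
    [(0xa0, 1), (0x538690a2, 4), (0x548790a1, 4), (0x21437690, 4), (0x538690a2, 4), (0x548790a1, 4)],
    [(0x213242718093a8, 7), (0x108495a6, 4), (0x105387a2, 4), (0x10627493, 4), (0x108495a6, 4), (0x105387a2, 4)]⟩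

def c_791 : frmChk tA tA F_791 = true := by decide +kernel

def r_791_0 : chkL rootF engF2 tA tA sA_242 sA_242 4 F_791 [(255, 0, 0), (256, 0, 22)]
    0x14a81b0b41b = true := by
  decide +kernel

def r_791_1 : chkL rootF engF2 tA tA sA_242 sA_242 4 F_791 [(256, 22, 0)]
    0x106c0f = true := by
  decide +kernel

theorem f_791 (h : TabsF) : FrameF repsF 242 F_791.f :=
  frame_of rfl c_791 ((runs_of engOK r_791_0).append (runs_of engOK r_791_1)) (by decide +kernel) h.1 h.1

def F_792 : FrX :=
  ⟨0x482000044040440000c204002000900018204000081082800802008002010820040004420410018040004008102000020080a282010202010202020004,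
    0xa0, 1, 0x102130517280a3, 7,
    [(0xa0, 1), (0x538690a2, 4), (0x548790a1, 4), (0x21437690, 4), (0x538690a2, 4), (0x548790a1, 4)],
    [(0x102130517280a3, 7), (0x638791a2, 4), (0x30428591, 4), (0x607591a4, 4), (0x638791a2, 4), (0x30428591, 4)]⟩

def c_792 : frmChk tA tA F_792 = true := by decide +kernel

def r_792_0 : chkL rootF engF2 tA tA sA_242 sA_242 4 F_792 [(255, 0, 0), (256, 0, 24)]
    0x44711c0f0ac0f = true := by
  decide +kernel

def r_792_1 : chkL rootF engF2 tA tA sA_242 sA_242 4 F_792 [(256, 24, 0)]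
    0x44e35056 = true := by
  decide +kernel

theorem f_792 (h : TabsF) : FrameF repsF 242 F_792.f :=
  frame_of rfl c_792 ((runs_of engOK r_792_0).append (runs_of engOK r_792_1)) (by decide +kernel) h.1 h.1

def F_793 : FrX :=
  ⟨0x80080a000804040e0000210100200100000204089001000180800800a00040003101400080404200200080088004810010084003000808c106024080000,
    0xa6, 1, 0x3140708691a2, 6,
    [(0xa6, 1), (0x205396a8, 4), (0x10548796, 4), (0x214396a7, 4), (0x205396a8, 4), (0x10548796, 4)],
    [(0x3140708691a2, 6), (0x325186a7, 4), (0x32506497, 4), (0x103284a9, 4), (0x325186a7, 4), (0x32506497, 4)]⟩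

def c_793 : frmChk tA tA F_793 = true := by decide +kernel

def r_793_0 : chkL rootF engF2 tA tA sA_242 sA_242 4 F_793 [(255, 0, 0), (256, 0, 20)]
    0x4711541d = true := by
  decide +kernel

def r_793_1 : chkL rootF engF2 tA tA sA_242 sA_242 4 F_793 [(256, 20, 0)]
    0x125817 = true := by
  decide +kernel

theorem f_793 (h : TabsF) : FrameF repsF 242 F_793.f :=
  frame_of rfl c_793 ((runs_of engOK r_793_0).append (runs_of engOK r_793_1)) (by decide +kernel) h.1 h.1

def F_794 : FrX :=
  ⟨0x2002000900044004000e020410001410008000408080004080a000011001210124020000420020a000888009010000800240201080005000480100281001,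
    0xa3, 1, 0x103142547490a6, 7,
    [(0xa3, 1), (0x208693a5, 4), (0x10548793, 4), (0x217693a4, 4), (0x208693a5, 4), (0x10548793, 4)],
    [(0x103142547490a6, 7), (0x528794a0, 4), (0x617293a5, 4), (0x526180a7, 4), (0x617293a5, 4), (0x435082a7, 4), (0x617094a8, 4), (0x526180a7, 4), (0x617094a8, 4), (0x758093a2, 4), (0x526180a7, 4), (0x435082a7, 4)]⟩

def c_794 : frmChk tA tB F_794 = true := by decide +kernel

def r_794_0 : chkL rootF engF2 tA tB sA_242 sB_242 4 F_794 [(255, 0, 0), (256, 0, 25)]
    0x43a589c205c87 = true := by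
  decide +kernel

def r_794_1 : chkL rootF engF2 tA tB sA_242 sB_242 4 F_794 [(256, 25, 0)]
    0x1159521685911c74074170e81b = true := by
  decide +kernel

theorem f_794 (h : TabsF) : FrameF repsF 242 F_794.f :=
  frame_of rfl c_794 ((runs_of engOK r_794_0).append (runs_of engOK r_794_1)) (by decide +kernel) h.1 h.2

def F_795 : FrX :=
  ⟨0x1001040012008080000e00840800410008101000042020024090200004200804022000201404100140000810400408020000088802200000485002240108,
    0xa3, 1, 0x32427187a3, 5,
    [(0xa3, 1), (0x207584a6, 4), (0x10547693, 4), (0x647593a8, 4), (0x10547693, 4), (0x216485a7, 4), (0x208693a4, 4), (0x647593a8, 4), (0x208693a4, 4), (0x106574a8, 4), (0x647593a8, 4), (0x216485a7, 4)],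
    [(0x32427187a3, 5), (0x314085a6, 4), (0x53708692, 4), (0x638592a1, 4), (0x53708692, 4), (0x516374a8, 4), (0x406192a3, 4), (0x638592a1, 4), (0x406192a3, 4), (0x657083a1, 4), (0x638592a1, 4), (0x516374a8, 4)]⟩

def c_795 : frmChk tB tB F_795 = true := by decide +kernel

def r_795_0 : chkL rootF engF2 tB tB sB_242 sB_242 4 F_795 [(255, 0, 0), (256, 0, 26)]
    0x10784e = true := by
  decide +kernel

def r_795_1 : chkL rootF engF2 tB tB sB_242 sB_242 4 F_795 [(256, 26, 0)]
    0x15184d03c27 = true := by
  decide +kernel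

theorem f_795 (h : TabsF) : FrameF repsF 242 F_795.f :=
  frame_of rfl c_795 ((runs_of engOK r_795_0).append (runs_of engOK r_795_1)) (by decide +kernel) h.2 h.2

def F_796 : FrX :=
  ⟨0x1001040012008080000e00840800410008101000042008100110200004802202008202020000418040081810040400014040205000200080440000242048,
    0xa3, 1, 0x2161708793a0, 6,
    [(0xa3, 1), (0x207584a6, 4), (0x10547693, 4), (0x647593a8, 4), (0x10547693, 4), (0x216485a7, 4), (0x208693a4, 4), (0x647593a8, 4), (0x208693a4, 4), (0x106574a8, 4), (0x647593a8, 4), (0x216485a7, 4)],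
    [(0x2161708793a0, 6), (0x207395a1, 4), (0x547380a6, 4), (0x61738294, 4), (0x207395a1, 4), (0x547380a6, 4)]⟩

def c_796 : frmChk tB tA F_796 = true := by decide +kernel

def r_796_0 : chkL rootF engF2 tB tA sB_242 sA_242 4 F_796 [(255, 0, 0), (256, 0, 23)]
    0x46a06c9a = true := by
  decide +kernel

def r_796_1 : chkL rootF engF2 tB tA sB_242 sA_242 4 F_796 [(256, 23, 0)]
    0x12a8271a81e12c2d = true := by
  decide +kernel

theorem f_796 (h : TabsF) : FrameF repsF 242 F_796.f :=
  frame_of rfl c_796 ((runs_of engOK r_796_0).append (runs_of engOK r_796_1)) (by decide +kernel) h.2 h.1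

def F_797 : FrX :=
  ⟨0x1001040012008080000e0084080041000810100004200810011020000420440402010082000011004008280805100002201080a001200400408000211010,
    0xa3, 1, 0x21304253708397a0, 8,
    [(0xa3, 1), (0x207584a6, 4), (0x10547693, 4), (0x647593a8, 4), (0x10547693, 4), (0x216485a7, 4), (0x208693a4, 4), (0x647593a8, 4), (0x208693a4, 4), (0x106574a8, 4), (0x647593a8, 4), (0x216485a7, 4)],
    [(0x21304253708397a0, 8), (0x657380a4, 4), (0x107395a2, 4), (0x42738196, 4), (0x657380a4, 4), (0x107395a2, 4)]⟩

def c_797 : frmChk tB tA F_797 = true := by decide +kernel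

def r_797_0 : chkL rootF engF2 tB tA sB_242 sA_242 4 F_797 [(255, 0, 0), (256, 0, 24)]
    0x103c530ac2d05c2b03c17 = true := by
  decide +kernel

def r_797_1 : chkL rootF engF2 tB tA sB_242 sA_242 4 F_797 [(256, 24, 0)]
    0x41b0cc2b05c2e03c2b0f036 = true := by
  decide +kernel

theorem f_797 (h : TabsF) : FrameF repsF 242 F_797.f :=
  frame_of rfl c_797 ((runs_of engOK r_797_0).append (runs_of engOK r_797_1)) (by decide +kernel) h.2 h.1

def F_798 : FrX :=
  ⟨0x1001040012008080000e0084080041000810100004201004101020000410200208200030203200024002180800100801004000080a200000444000210310,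
    0xa3, 1, 0x324262748397a8, 7,
    [(0xa3, 1), (0x207584a6, 4), (0x10547693, 4), (0x647593a8, 4), (0x10547693, 4), (0x216485a7, 4), (0x208693a4, 4), (0x647593a8, 4), (0x208693a4, 4), (0x106574a8, 4), (0x647593a8, 4), (0x216485a7, 4)],
    [(0x324262748397a8, 7), (0x326085a4, 4), (0x103275a9, 4), (0x32618794, 4), (0x326085a4, 4), (0x103275a9, 4)]⟩

def c_798 : frmChk tB tA F_798 = true := by decide +kernel

def r_798_0 : chkL rootF engF2 tB tA sB_242 sA_242 4 F_798 [(255, 0, 0), (256, 0, 25)]
    0x105c96 = true := by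
  decide +kernel

def r_798_1 : chkL rootF engF2 tB tA sB_242 sA_242 4 F_798 [(256, 25, 0)]
    0x10ac3505c2b314663904e03c170e41749721c91321685a0f03a = true := by
  decide +kernel

theorem f_798 (h : TabsF) : FrameF repsF 242 F_798.f :=
  frame_of rfl c_798 ((runs_of engOK r_798_0).append (runs_of engOK r_798_1)) (by decide +kernel) h.2 h.1

def F_799 : FrX :=
  ⟨0x1001040012008080000e008408004100081010000420201000502000042008080080480a0000110040024804010c0002201080a001200400484020201000,
    0xa3, 1, 0x3241758190a4, 6,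
    [(0xa3, 1), (0x207584a6, 4), (0x10547693, 4), (0x647593a8, 4), (0x10547693, 4), (0x216485a7, 4), (0x208693a4, 4), (0x647593a8, 4), (0x208693a4, 4), (0x106574a8, 4), (0x647593a8, 4), (0x216485a7, 4)],
    [(0x3241758190a4, 6), (0x627593a4, 4), (0x106598a7, 4), (0x104275a6, 4), (0x106598a7, 4), (0x527483a6, 4), (0x106493a2, 4), (0x104275a6, 4), (0x106493a2, 4), (0x427698a5, 4), (0x104275a6, 4), (0x527483a6, 4)]⟩

def c_799 : frmChk tB tB F_799 = true := by decide +kernel

def r_799_0 : chkL rootF engF2 tB tB sB_242 sB_242 4 F_799 [(255, 0, 0), (256, 0, 16)]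
    0x629 = true := by
  decide +kernel

def r_799_1 : chkL rootF engF2 tB tB sB_242 sB_242 4 F_799 [(256, 16, 13)]
    0x103c0f1385a1341d06c1b1a5c803c5a = true := by
  decide +kernel

def r_799_2 : chkL rootF engF2 tB tB sB_242 sB_242 4 F_799 [(256, 29, 18)]
    0x40f90e4a0e827 = true := by
  decide +kernel

def r_799_3 : chkL rootF engF2 tB tB sB_242 sB_242 4 F_799 [(256, 47, 0)]
    0x40f = true := by
  decide +kernel

theorem f_799 (h : TabsF) : FrameF repsF 242 F_799.f :=
  frame_of rfl c_799 ((runs_of engOK r_799_0).append ((runs_of engOK r_799_1).append ((runs_of engOK r_799_2).append (runs_of engOK r_799_3)))) (by decide +kernel) h.2 h.2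

def F_800 : FrX :=
  ⟨0x1001040012008080000e0084080041000810100006600004004002200028004840000220008000480809000680081020208000401110040010804c800040,
    0xa3, 1, 0x213240537185a5, 7,
    [(0xa3, 1), (0x207584a6, 4), (0x10547693, 4), (0x647593a8, 4), (0x10547693, 4), (0x216485a7, 4), (0x208693a4, 4), (0x647593a8, 4), (0x208693a4, 4), (0x106574a8, 4), (0x647593a8, 4), (0x216485a7, 4)],
    [(0x213240537185a5, 7), (0x436198a5, 4), (0x217498a0, 4), (0x50627398, 4), (0x436198a5, 4), (0x217498a0, 4)]⟩

def c_800 : frmChk tB tA F_800 = true := by decide +kernel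

def r_800_0 : chkL rootF engF2 tB tA sB_242 sA_242 4 F_800 [(255, 0, 0), (256, 0, 25)]
    0x10d43512c2d1a4a522c1b12c4b3844d07835 = true := by
  decide +kernel

def r_800_1 : chkL rootF engF2 tB tA sB_242 sA_242 4 F_800 [(256, 25, 22)]
    0x4330785c0b81b0b47812d9412c270d41d0b83309c33 = true := by
  decide +kernel

def r_800_2 : chkL rootF engF2 tB tA sB_242 sA_242 4 F_800 [(256, 47, 0)]
    0x1 = true := by
  decide +kernel

theorem f_800 (h : TabsF) : FrameF repsF 242 F_800.f :=
  frame_of rfl c_800 ((runs_of engOK r_800_0).append ((runs_of engOK r_800_1).append (runs_of engOK r_800_2))) (by decide +kernel) h.2 h.1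

def F_801 : FrX :=
  ⟨0x1001040012008080000e00840800410008101000042080020081108100120010010008088020010882024202400020004004008200810801030002020104,
    0xa3, 1, 0x213152608391a3, 7,
    [(0xa3, 1), (0x207584a6, 4), (0x10547693, 4), (0x647593a8, 4), (0x10547693, 4), (0x216485a7, 4), (0x208693a4, 4), (0x647593a8, 4), (0x208693a4, 4), (0x106574a8, 4), (0x647593a8, 4), (0x216485a7, 4)],
    [(0x213152608391a3, 7), (0x206583a1, 4), (0x41728396, 4), (0x708395a4, 4), (0x206583a1, 4), (0x41728396, 4)]⟩

def c_801 : frmChk tB tA F_801 = true := by decide +kernel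

def r_801_0 : chkL rootF engF2 tB tA sB_242 sA_242 4 F_801 [(255, 0, 0), (256, 0, 25)]
    0x42b09c350d62ac28533188db09a103fa0686a1e809c = true := by
  decide +kernel

def r_801_1 : chkL rootF engF2 tB tA sB_242 sA_242 4 F_801 [(256, 25, 0)]
    0x43a03c0f47071 = true := by
  decide +kernel

theorem f_801 (h : TabsF) : FrameF repsF 242 F_801.f :=
  frame_of rfl c_801 ((runs_of engOK r_801_0).append (runs_of engOK r_801_1)) (by decide +kernel) h.2 h.1

def F_802 : FrX :=
  ⟨0x600020801080810000c0040180410101001004001200028000101200080704004000800a000400400901102810200212000a0400004400440021000201,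
    0xa0, 1, 0x5363758798a5, 6,
    [(0xa0, 1), (0x637584a2, 4), (0x547690a1, 4), (0x64758390, 4), (0x547690a1, 4), (0x21647385, 4), (0x438690a2, 4), (0x64758390, 4), (0x438690a2, 4), (0x657483a1, 4), (0x64758390, 4), (0x21647385, 4)],
    [(0x5363758798a5, 6), (0x207395a6, 4), (0x107398a4, 4), (0x21647385, 4), (0x207395a6, 4), (0x107398a4, 4)]⟩

def c_802 : frmChk tB tA F_802 = true := by decide +kernel

def r_802_0 : chkL rootF engF2 tB tA sB_242 sA_242 4 F_802 [(255, 0, 0), (256, 0, 22)]
    0x4b128c273841d = true := by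
  decide +kernel

def r_802_1 : chkL rootF engF2 tB tA sB_242 sA_242 4 F_802 [(256, 22, 25)]
    0x10e42d = true := by
  decide +kernel

def r_802_2 : chkL rootF engF2 tB tA sB_242 sA_242 4 F_802 [(256, 47, 0)]
    0x1 = true := by
  decide +kernel

theorem f_802 (h : TabsF) : FrameF repsF 242 F_802.f :=
  frame_of rfl c_802 ((runs_of engOK r_802_0).append ((runs_of engOK r_802_1).append (runs_of engOK r_802_2))) (by decide +kernel) h.2 h.1

def F_803 : FrX :=
  ⟨0x1001040012008080000e00840800410008101000040500008120002800002030048202001380002040040004820800240010020055004408004009000040,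
    0xa3, 1, 0x32658192a4, 5,
    [(0xa3, 1), (0x207584a6, 4), (0x10547693, 4), (0x647593a8, 4), (0x10547693, 4), (0x216485a7, 4), (0x208693a4, 4), (0x647593a8, 4), (0x208693a4, 4), (0x106574a8, 4), (0x647593a8, 4), (0x216485a7, 4)],
    [(0x32658192a4, 5), (0x527690a1, 4), (0x437580a6, 4), (0x214376a5, 4), (0x437580a6, 4), (0x617298a5, 4), (0x435190a2, 4), (0x214376a5, 4), (0x435190a2, 4), (0x216580a7, 4), (0x214376a5, 4), (0x617298a5, 4)]⟩

def c_803 : frmChk tB tB F_803 = true := by decide +kernel

def r_803_0 : chkL rootF engF2 tB tB sB_242 sB_242 4 F_803 [(255, 0, 0), (256, 0, 25)]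
    0x10d41d0745314c552340f0741e0781d = true := by
  decide +kernel

def r_803_1 : chkL rootF engF2 tB tB sB_242 sB_242 4 F_803 [(256, 25, 0)]
    0x4330e83a22c0f14c5306c3a06c1b0cc5314c53 = true := by
  decide +kernel

theorem f_803 (h : TabsF) : FrameF repsF 242 F_803.f :=
  frame_of rfl c_803 ((runs_of engOK r_803_0).append (runs_of engOK r_803_1)) (by decide +kernel) h.2 h.2

def F_804 : FrX :=
  ⟨0x1c2102000004044000002041000101000082040884200080000c000100022000848220012040200208000310141088000000810840510010008c0240000,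
    0x0, 0, 0x106384, 3,
    [(0x0, 0), (0x205386a9, 4), (0x105487a9, 4), (0x214376a9, 4), (0x205386a9, 4), (0x105487a9, 4)],
    [(0x106384, 3), (0x214365a9, 4), (0x107485a9, 4), (0x207386a9, 4), (0x214365a9, 4), (0x107485a9, 4)]⟩

def c_804 : frmChk tA tA F_804 = true := by decide +kernel

def r_804_0 : chkL rootF engF2 tA tA sA_242 sA_242 4 F_804 [(255, 0, 0), (256, 0, 11)]
    0x45503c4d = true := by
  decide +kernel

def r_804_1 : chkL rootF engF2 tA tA sA_242 sA_242 4 F_804 [(256, 11, 6)]
    0x41d0743a = true := by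
  decide +kernel

def r_804_2 : chkL rootF engF2 tA tA sA_242 sA_242 4 F_804 [(256, 17, 3)]
    0x44d = true := by
  decide +kernel

def r_804_3 : chkL rootF engF2 tA tA sA_242 sA_242 4 F_804 [(256, 20, 4)]
    0x42b0782d = true := by
  decide +kernel

def r_804_4 : chkL rootF engF2 tA tA sA_242 sA_242 4 F_804 [(256, 24, 5)]
    0x1 = true := by
  decide +kernel

def r_804_5 : chkL rootF engF2 tA tA sA_242 sA_242 4 F_804 [(256, 29, 11)]
    0x48d = true := by
  decide +kernel

def r_804_6 : chkL rootF engF2 tA tA sA_242 sA_242 4 F_804 [(256, 40, 0)]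
    0x103c1705c0f = true := by
  decide +kernel

theorem f_804 (h : TabsF) : FrameF repsF 242 F_804.f :=
  frame_of rfl c_804 ((runs_of engOK r_804_0).append ((runs_of engOK r_804_1).append ((runs_of engOK r_804_2).append ((runs_of engOK r_804_3).append ((runs_of engOK r_804_4).append ((runs_of engOK r_804_5).append (runs_of engOK r_804_6))))))) (by decide +kernel) h.1 h.1

def F_805 : FrX :=
  ⟨0x80080a000804040e00002101002001000002040880600004408088000025002020400050100010001050000212008000221010041002211024025080000,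
    0xa6, 1, 0x325463738095a3, 7,
    [(0xa6, 1), (0x205396a8, 4), (0x10548796, 4), (0x214396a7, 4), (0x205396a8, 4), (0x10548796, 4)],
    [(0x325463738095a3, 7), (0x207483a9, 4), (0x60748195, 4), (0x316274a5, 4), (0x207483a9, 4), (0x60748195, 4)]⟩

def c_805 : frmChk tA tA F_805 = true := by decide +kernel

def r_805_0 : chkL rootF engF2 tA tA sA_242 sA_242 4 F_805 [(255, 0, 0), (256, 0, 22)]
    0x103c7118c471b033 = true := by
  decide +kernel

def r_805_1 : chkL rootF engF2 tA tA sA_242 sA_242 4 F_805 [(256, 22, 0)]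
    0x41d1b0c5314953488d350720b4560cc0f5184e0b54c03c93 = true := by
  decide +kernel

theorem f_805 (h : TabsF) : FrameF repsF 242 F_805.f :=
  frame_of rfl c_805 ((runs_of engOK r_805_0).append (runs_of engOK r_805_1)) (by decide +kernel) h.1 h.1

def F_806 : FrX :=
  ⟨0x482000044040440000c2040020009000182040002020500000a00010014004088080401024001008000080103008800080800148020204011101010401,
    0xa0, 1, 0x10324350638594a3, 8,
    [(0xa0, 1), (0x538690a2, 4), (0x548790a1, 4), (0x21437690, 4), (0x538690a2, 4), (0x548790a1, 4)],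
    [(0x10324350638594a3, 8), (0x538791a4, 4), (0x50627498, 4), (0x628794a1, 4), (0x50627498, 4), (0x308194a7, 4), (0x415362a9, 4), (0x628794a1, 4), (0x415362a9, 4), (0x508497a1, 4), (0x628794a1, 4), (0x308194a7, 4)]⟩

def c_806 : frmChk tA tB F_806 = true := by decide +kernel

def r_806_0 : chkL rootF engF2 tA tB sA_242 sB_242 4 F_806 [(255, 0, 0), (256, 0, 18)]
    0x54a1b0cc0783c3502709c3a1341d06c1b0781b1a85a = true := by
  decide +kernel

def r_806_1 : chkL rootF engF2 tA tB sA_242 sB_242 4 F_806 [(256, 18, 0)]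
    0x10f02b9601d70bc0 = true := by
  decide +kernel

theorem f_806 (h : TabsF) : FrameF repsF 242 F_806.f :=
  frame_of rfl c_806 ((runs_of engOK r_806_0).append (runs_of engOK r_806_1)) (by decide +kernel) h.1 h.2

def F_807 : FrX :=
  ⟨0x80080a000804040e00002101002001000002040890020001410009400204004020800041004088840810000013010001010104140000120204021080080,
    0xa6, 1, 0x103063728797a5, 7,
    [(0xa6, 1), (0x205396a8, 4), (0x10548796, 4), (0x214396a7, 4), (0x205396a8, 4), (0x10548796, 4)],
    [(0x103063728797a5, 7), (0x217385a6, 4), (0x308592a4, 4), (0x64708591, 4), (0x217385a6, 4), (0x308592a4, 4)]⟩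

def c_807 : frmChk tA tA F_807 = true := by decide +kernel

def r_807_0 : chkL rootF engF2 tA tA sA_242 sA_242 4 F_807 [(255, 0, 0), (256, 0, 21)]
    0x109c1e07a2a09c66a14592a4b11d18a1d01b = true := by
  decide +kernel

def r_807_1 : chkL rootF engF2 tA tA sA_242 sA_242 4 F_807 [(256, 21, 0)]
    0x12a5621657015472194a61e06c3301b03dc23a00f0cc1b0cc330cc1b1d125c85324c87806c1d = true := by
  decide +kernel

theorem f_807 (h : TabsF) : FrameF repsF 242 F_807.f :=
  frame_of rfl c_807 ((runs_of engOK r_807_0).append (runs_of engOK r_807_1)) (by decide +kernel) h.1 h.1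

def F_808 : FrX :=
  ⟨0x482000044040440000c2040020009000182040010080020800800280040090084022001004900120000251080008800014001000451000011040020210,
    0xa0, 1, 0x3154628091a6, 6,
    [(0xa0, 1), (0x538690a2, 4), (0x548790a1, 4), (0x21437690, 4), (0x538690a2, 4), (0x548790a1, 4)],
    [(0x3154628091a6, 6), (0x507486a1, 4), (0x325498a7, 4), (0x103274a5, 4), (0x325498a7, 4), (0x407196a5, 4), (0x325186a0, 4), (0x103274a5, 4), (0x325186a0, 4), (0x107598a4, 4), (0x103274a5, 4), (0x407196a5, 4)]⟩

def c_808 : frmChk tA tB F_808 = true := by decide +kernel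

def r_808_0 : chkL rootF engF2 tA tB sA_242 sB_242 4 F_808 [(255, 0, 0), (256, 0, 23)]
    0x1986c81382b0ad4c074cc0d45cd203a9911a0b42e = true := by
  decide +kernel

def r_808_1 : chkL rootF engF2 tA tB sA_242 sB_242 4 F_808 [(256, 23, 0)]
    0x111c87a185311e0706c1d = true := by
  decide +kernel

theorem f_808 (h : TabsF) : FrameF repsF 242 F_808.f :=
  frame_of rfl c_808 ((runs_of engOK r_808_0).append (runs_of engOK r_808_1)) (by decide +kernel) h.1 h.2

def F_809 : FrX :=
  ⟨0x80080a000804040e0000210100200100000204088202040100840000824000003101402180400008000224008804040000404802201010242a0c0000000,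
    0xa6, 1, 0x214050708392a6, 7,
    [(0xa6, 1), (0x205396a8, 4), (0x10548796, 4), (0x214396a7, 4), (0x205396a8, 4), (0x10548796, 4)],
    [(0x214050708392a6, 7), (0x305497a8, 4), (0x406172a5, 4), (0x546183a0, 4), (0x406172a5, 4), (0x438592a0, 4), (0x618097a3, 4), (0x546183a0, 4), (0x618097a3, 4), (0x507283a4, 4), (0x546183a0, 4), (0x438592a0, 4)]⟩

def c_809 : frmChk tA tB F_809 = true := by decide +kernel

def r_809_0 : chkL rootF engF2 tA tB sA_242 sB_242 4 F_809 [(255, 0, 0), (256, 0, 21)]
    0x40f = true := by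
  decide +kernel

def r_809_1 : chkL rootF engF2 tA tB sA_242 sB_242 4 F_809 [(256, 21, 0)]
    0x10e81e8966412c27 = true := by
  decide +kernel

theorem f_809 (h : TabsF) : FrameF repsF 242 F_809.f :=
  frame_of rfl c_809 ((runs_of engOK r_809_0).append (runs_of engOK r_809_1)) (by decide +kernel) h.1 h.2

theorem cl_242 (h : TabsF) : ∀ f ∈ fr_242, FrameF repsF 242 f :=
  List.forall_mem_cons.2 ⟨f_782 h, List.forall_mem_cons.2 ⟨f_783 h, List.forall_mem_cons.2 ⟨f_784 h, List.forall_mem_cons.2 ⟨f_785 h, List.forall_mem_cons.2 ⟨f_786 h, List.forall_mem_cons.2 ⟨f_787 h, List.forall_mem_cons.2 ⟨f_788 h, List.forall_mem_cons.2 ⟨f_789 h, List.forall_mem_cons.2 ⟨f_790 h, List.forall_mem_cons.2 ⟨f_791 h, List.forall_mem_cons.2 ⟨f_792 h, List.forall_mem_cons.2 ⟨f_793 h, List.forall_mem_cons.2 ⟨f_794 h, List.forall_mem_cons.2 ⟨f_795 h, List.forall_mem_cons.2 ⟨f_796 h, List.forall_mem_cons.2 ⟨f_797 h, List.forall_mem_cons.2 ⟨f_798 h, List.forall_mem_cons.2 ⟨f_799 h, List.forall_mem_cons.2 ⟨f_800 h, List.forall_mem_cons.2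 ⟨f_801 h, List.forall_mem_cons.2 ⟨f_802 h, List.forall_mem_cons.2 ⟨f_803 h, List.forall_mem_cons.2 ⟨f_804 h, List.forall_mem_cons.2 ⟨f_805 h, List.forall_mem_cons.2 ⟨f_806 h, List.forall_mem_cons.2 ⟨f_807 h, List.forall_mem_cons.2 ⟨f_808 h, List.forall_mem_cons.2 ⟨f_809 h,
    fun _ h0 => absurd h0 List.not_mem_nil⟩⟩⟩⟩⟩⟩⟩⟩⟩⟩⟩⟩⟩⟩⟩⟩⟩⟩⟩⟩⟩⟩⟩⟩⟩⟩⟩⟩

def F_810 : FrX :=
  ⟨0x80080a000804040e00002101002001000002040881081000044030000410008040023031000020000050000d480000080240020404100a100400a0a0000,
    0xa6, 1, 0x103152657491a5, 7,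
    [(0xa6, 1), (0x205396a8, 4), (0x10548796, 4), (0x214396a7, 4), (0x205396a8, 4), (0x10548796, 4)],
    [(0x103152657491a5, 7), (0x516382a0, 4), (0x638491a7, 4), (0x42637095, 4), (0x516382a0, 4), (0x638491a7, 4)]⟩

def c_810 : frmChk tA tA F_810 = true := by decide +kernel

def r_810_0 : chkL rootF engF2 tA tA sA_243 sA_243 4 F_810 [(255, 0, 0), (256, 0, 22)]
    0x42b1a4590b82e = true := by
  decide +kernel

def r_810_1 : chkL rootF engF2 tA tA sA_243 sA_243 4 F_810 [(256, 22, 0)]
    0x10784b = true := by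
  decide +kernel

theorem f_810 (h : TabsF) : FrameF repsF 243 F_810.f :=
  frame_of rfl c_810 ((runs_of engOK r_810_0).append (runs_of engOK r_810_1)) (by decide +kernel) h.1 h.1

def F_811 : FrX :=
  ⟨0x80080a000804040e00002101002001000002040890010008088480020820000004501000804041082008000060502400001008080400100244258800000,
    0xa6, 1, 0x415063748191a3, 7,
    [(0xa6, 1), (0x205396a8, 4), (0x10548796, 4), (0x214396a7, 4), (0x205396a8, 4), (0x10548796, 4)],
    [(0x415063748191a3, 7), (0x435286a0, 4), (0x41708695, 4), (0x318692a7, 4), (0x435286a0, 4), (0x41708695, 4)]⟩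

def c_811 : frmChk tA tA F_811 = true := by decide +kernel

def r_811_0 : chkL rootF engF2 tA tA sA_243 sA_243 4 F_811 [(255, 0, 0), (256, 0, 20)]
    0x11e04b0741d09c55 = true := by
  decide +kernel

def r_811_1 : chkL rootF engF2 tA tA sA_243 sA_243 4 F_811 [(256, 20, 0)]
    0x4711c41b4688d294781a8ca2947816436 = true := by
  decide +kernel

theorem f_811 (h : TabsF) : FrameF repsF 243 F_811.f :=
  frame_of rfl c_811 ((runs_of engOK r_811_0).append (runs_of engOK r_811_1)) (by decide +kernel) h.1 h.1

def F_812 : FrX :=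
  ⟨0x80080a000804040e00002101002001000002040892410004008004000440002020404050000011000048000a82082001100081084012020204004230000,
    0xa6, 1, 0x314362a8, 4,
    [(0xa6, 1), (0x205396a8, 4), (0x10548796, 4), (0x214396a7, 4), (0x205396a8, 4), (0x10548796, 4)],
    [(0x314362a8, 4), (0x426075a1, 4), (0x30517298, 4), (0x217598a4, 4), (0x30517298, 4), (0x216374a5, 4), (0x416098a2, 4), (0x217598a4, 4), (0x416098a2, 4), (0x305271a4, 4), (0x217598a4, 4), (0x216374a5, 4)]⟩

def c_812 : frmChk tA tB F_812 = true := by decide +kernel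

def r_812_0 : chkL rootF engF2 tA tB sA_243 sB_243 4 F_812 [(255, 0, 0), (256, 0, 22)]
    0x417 = true := by
  decide +kernel

def r_812_1 : chkL rootF engF2 tA tB sA_243 sB_243 4 F_812 [(256, 22, 0)]
    0x41d09c171c4a903c0f03c0f2940f2350703d0b03c3c42ca9a840f0d459164273248d03e4394a4906c1d = true := by
  decide +kernel

theorem f_812 (h : TabsF) : FrameF repsF 243 F_812.f :=
  frame_of rfl c_812 ((runs_of engOK r_812_0).append (runs_of engOK r_812_1)) (by decide +kernel) h.1 h.2

def F_813 : FrX :=
  ⟨0x482000044040440000c2040020009000182040002020500008020010040024800010511880001000000020d48008000100002148040120044010210020,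
    0xa0, 1, 0x4251708495a7, 6,
    [(0xa0, 1), (0x538690a2, 4), (0x548790a1, 4), (0x21437690, 4), (0x538690a2, 4), (0x548790a1, 4)],
    [(0x4251708495a7, 6), (0x10627493, 4), (0x107598a2, 4), (0x105483a6, 4), (0x10627493, 4), (0x107598a2, 4)]⟩

def c_813 : frmChk tA tA F_813 = true := by decide +kernel

def r_813_0 : chkL rootF engF2 tA tA sA_243 sA_243 4 F_813 [(255, 0, 0), (256, 0, 21)]
    0x1 = true := by
  decide +kernel

def r_813_1 : chkL rootF engF2 tA tA sA_243 sA_243 4 F_813 [(256, 21, 0)]
    0x105cc905c2d = true := by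
  decide +kernel

theorem f_813 (h : TabsF) : FrameF repsF 243 F_813.f :=
  frame_of rfl c_813 ((runs_of engOK r_813_0).append (runs_of engOK r_813_1)) (by decide +kernel) h.1 h.1

def F_814 : FrX :=
  ⟨0x2002000900044004000e02041000141000800040800802080090020400800882000284000904000286000008060410002080808020480000202080214100,
    0xa3, 1, 0x3163768591a8, 6,
    [(0xa3, 1), (0x208693a5, 4), (0x10548793, 4), (0x217693a4, 4), (0x208693a5, 4), (0x10548793, 4)],
    [(0x3163768591a8, 6), (0x207681a4, 4), (0x53718490, 4), (0x537481a6, 4), (0x53718490, 4), (0x617492a8, 4), (0x205364a7, 4), (0x537481a6, 4), (0x205364a7, 4), (0x418790a6, 4), (0x537481a6, 4), (0x617492a8, 4)]⟩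

def c_814 : frmChk tA tB F_814 = true := by decide +kernel

def r_814_0 : chkL rootF engF2 tA tB sA_243 sB_243 4 F_814 [(255, 0, 0), (256, 0, 24)]
    0x51c389684e01b0e938 = true := by
  decide +kernel

def r_814_1 : chkL rootF engF2 tA tB sA_243 sB_243 4 F_814 [(256, 24, 0)]
    0x41d09c1e05c2b = true := by
  decide +kernel

theorem f_814 (h : TabsF) : FrameF repsF 243 F_814.f :=
  frame_of rfl c_814 ((runs_of engOK r_814_0).append (runs_of engOK r_814_1)) (by decide +kernel) h.1 h.2

def F_815 : FrX :=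
  ⟨0x2002000900044004000e0204100014100080004080040102402000420000c088140000115080001000040006c40000008100201080441020001004200144,
    0xa3, 1, 0x2032508392a6, 6,
    [(0xa3, 1), (0x208693a5, 4), (0x10548793, 4), (0x217693a4, 4), (0x208693a5, 4), (0x10548793, 4)],
    [(0x2032508392a6, 6), (0x407295a8, 4), (0x425163a7, 4), (0x637280a4, 4), (0x425163a7, 4), (0x208791a4, 4), (0x638495a0, 4), (0x637280a4, 4), (0x638495a0, 4), (0x517480a2, 4), (0x637280a4, 4), (0x208791a4, 4)]⟩

def c_815 : frmChk tA tB F_815 = true := by decide +kernel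

def r_815_0 : chkL rootF engF2 tA tB sA_243 sB_243 4 F_815 [(255, 0, 0), (256, 0, 22)]
    0x44709c3a = true := by
  decide +kernel

def r_815_1 : chkL rootF engF2 tA tB sA_243 sB_243 4 F_815 [(256, 22, 0)]
    0x10d8271c8360d80f09c0f03c63 = true := by
  decide +kernel

theorem f_815 (h : TabsF) : FrameF repsF 243 F_815.f :=
  frame_of rfl c_815 ((runs_of engOK r_815_0).append (runs_of engOK r_815_1)) (by decide +kernel) h.1 h.2

def F_816 : FrX :=
  ⟨0x482000044040440000c204002000900018204002000048400002028008018480001080010101151000000100e020040204005200000804010110008003,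
    0xa0, 1, 0x3141537691a2, 6,
    [(0xa0, 1), (0x538690a2, 4), (0x548790a1, 4), (0x21437690, 4), (0x538690a2, 4), (0x548790a1, 4)],
    [(0x3141537691a2, 6), (0x617583a0, 4), (0x31427690, 4), (0x42617385, 4), (0x31427690, 4), (0x657381a9, 4), (0x425387a0, 4), (0x42617385, 4), (0x425387a0, 4), (0x63718590, 4), (0x42617385, 4), (0x657381a9, 4)]⟩

def c_816 : frmChk tA tB F_816 = true := by decide +kernel

def r_816_0 : chkL rootF engF2 tA tB sA_243 sB_243 4 F_816 [(511, 0, 0)]
    0x13141e0781d07471078d12d0f0 = true := by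
  decide +kernel

theorem f_816 (h : TabsF) : FrameF repsF 243 F_816.f :=
  frame_of rfl c_816 (runs_of engOK r_816_0) (by decide +kernel) h.1 h.2

def F_817 : FrX :=
  ⟨0x2002000900044004000e0204100014100080004080100102101020001820210100020402000800402402011102040000a040208080201000200820209001,
    0xa3, 1, 0x1054768392a3, 6,
    [(0xa3, 1), (0x208693a5, 4), (0x10548793, 4), (0x217693a4, 4), (0x208693a5, 4), (0x10548793, 4)],
    [(0x1054768392a3, 6), (0x738291a4, 4), (0x10546382, 4), (0x768290a5, 4), (0x738291a4, 4), (0x10546382, 4)]⟩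

def c_817 : frmChk tA tA F_817 = true := by decide +kernel

def r_817_0 : chkL rootF engF2 tA tA sA_243 sA_243 4 F_817 [(255, 0, 0), (256, 0, 18)]
    0x4660781e09e91ac027 = true := by
  decide +kernel

def r_817_1 : chkL rootF engF2 tA tA sA_243 sA_243 4 F_817 [(256, 18, 0)]
    0x142c33 = true := by
  decide +kernel

theorem f_817 (h : TabsF) : FrameF repsF 243 F_817.f :=
  frame_of rfl c_817 ((runs_of engOK r_817_0).append (runs_of engOK r_817_1)) (by decide +kernel) h.1 h.1

def F_818 : FrX :=
  ⟨0x80080a000804040e00002101002001000002040881011001020010020042001010034000c00041020000000888040140004042004400608004a20620000,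
    0xa6, 1, 0x43608796a5, 5,
    [(0xa6, 1), (0x205396a8, 4), (0x10548796, 4), (0x214396a7, 4), (0x205396a8, 4), (0x10548796, 4)],
    [(0x43608796a5, 5), (0x627394a8, 4), (0x506198a3, 4), (0x507493a8, 4), (0x506198a3, 4), (0x218493a7, 4), (0x43506297, 4), (0x507493a8, 4), (0x43506297, 4), (0x617483a9, 4), (0x507493a8, 4), (0x218493a7, 4)]⟩

def c_818 : frmChk tA tB F_818 = true := by decide +kernel

def r_818_0 : chkL rootF engF2 tA tB sA_243 sB_243 4 F_818 [(255, 0, 0), (256, 0, 22)]
    0x1 = true := by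
  decide +kernel

def r_818_1 : chkL rootF engF2 tA tB sA_243 sB_243 4 F_818 [(256, 22, 0)]
    0x10d453 = true := by
  decide +kernel

theorem f_818 (h : TabsF) : FrameF repsF 243 F_818.f :=
  frame_of rfl c_818 ((runs_of engOK r_818_0).append (runs_of engOK r_818_1)) (by decide +kernel) h.1 h.2

def F_819 : FrX :=
  ⟨0x2002000900044004000e0204100014100080004080080102111020000820210100020402000800800c08011100040000a040208080601000600020209001,
    0xa3, 1, 0x215062748296a6, 7,
    [(0xa3, 1), (0x208693a5, 4), (0x10548793, 4), (0x217693a4, 4), (0x208693a5, 4), (0x10548793, 4)],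
    [(0x215062748296a6, 7), (0x308591a6, 4), (0x52647091, 4), (0x738291a4, 4), (0x308591a6, 4), (0x52647091, 4)]⟩

def c_819 : frmChk tA tA F_819 = true := by decide +kernel

def r_819_0 : chkL rootF engF2 tA tA sA_243 sA_243 4 F_819 [(255, 0, 0), (256, 0, 20)]
    0x10e84e = true := by
  decide +kernel

def r_819_1 : chkL rootF engF2 tA tA sA_243 sA_243 4 F_819 [(256, 20, 0)]
    0x417 = true := by
  decide +kernel

theorem f_819 (h : TabsF) : FrameF repsF 243 F_819.f :=
  frame_of rfl c_819 ((runs_of engOK r_819_0).append (runs_of engOK r_819_1)) (by decide +kernel) h.1 h.1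

def F_820 : FrX :=
  ⟨0x80080a000804040e000021010020010000020408a00010011000248004802020000810404000850200200011224024080040080030004003008c0808000,
    0xa6, 1, 0x10407392a4, 5,
    [(0xa6, 1), (0x205396a8, 4), (0x10548796, 4), (0x214396a7, 4), (0x205396a8, 4), (0x10548796, 4)],
    [(0x10407392a4, 5), (0x537694a8, 4), (0x214063a5, 4), (0x215387a6, 4), (0x214063a5, 4), (0x738590a6, 4), (0x218694a7, 4), (0x215387a6, 4), (0x218694a7, 4), (0x406587a3, 4), (0x215387a6, 4), (0x738590a6, 4)]⟩

def c_820 : frmChk tA tB F_820 = true := by decide +kernel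

def r_820_0 : chkL rootF engF2 tA tB sA_243 sB_243 4 F_820 [(255, 0, 0), (256, 0, 25)]
    0x455170e8314d4 = true := by
  decide +kernel

def r_820_1 : chkL rootF engF2 tA tB sA_243 sB_243 4 F_820 [(256, 25, 0)]
    0x6071545c3a0c53505322c27 = true := by
  decide +kernel

theorem f_820 (h : TabsF) : FrameF repsF 243 F_820.f :=
  frame_of rfl c_820 ((runs_of engOK r_820_0).append (runs_of engOK r_820_1)) (by decide +kernel) h.1 h.2

def F_821 : FrX :=
  ⟨0x1c2102000004044000002041000101000082040888081000001020400400102000604060000048008080111102600408048008001600800700010208000,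
    0x0, 0, 0x4376, 2,
    [(0x0, 0), (0x205386a9, 4), (0x105487a9, 4), (0x214376a9, 4), (0x205386a9, 4), (0x105487a9, 4)],
    [(0x4376, 2), (0x20657483, 4), (0x105376a9, 4), (0x657384a9, 4), (0x105376a9, 4), (0x21647385, 4), (0x204387a9, 4), (0x657384a9, 4), (0x204387a9, 4), (0x10637584, 4), (0x657384a9, 4), (0x21647385, 4)]⟩

def c_821 : frmChk tA tB F_821 = true := by decide +kernel

def r_821_0 : chkL rootF engF2 tA tB sA_243 sB_243 4 F_821 [(255, 0, 0), (256, 0, 14)]
    0x1 = true := by
  decide +kernel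

def r_821_1 : chkL rootF engF2 tA tB sA_243 sB_243 4 F_821 [(256, 14, 14)]
    0x44d = true := by
  decide +kernel

def r_821_2 : chkL rootF engF2 tA tB sA_243 sB_243 4 F_821 [(256, 28, 0)]
    0x44e = true := by
  decide +kernel

theorem f_821 (h : TabsF) : FrameF repsF 243 F_821.f :=
  frame_of rfl c_821 ((runs_of engOK r_821_0).append ((runs_of engOK r_821_1).append (runs_of engOK r_821_2))) (by decide +kernel) h.1 h.2

def F_822 : FrX :=
  ⟨0x80080a000804040e000021010020010000020408a00010011000248004802020000810404000490080800011026024080040080014004007000c0808000,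
    0xa6, 1, 0x10407392a4, 5,
    [(0xa6, 1), (0x205396a8, 4), (0x10548796, 4), (0x214396a7, 4), (0x205396a8, 4), (0x10548796, 4)],
    [(0x10407392a4, 5), (0x537694a8, 4), (0x214063a5, 4), (0x215387a6, 4), (0x214063a5, 4), (0x738590a6, 4), (0x218694a7, 4), (0x215387a6, 4), (0x218694a7, 4), (0x406587a3, 4), (0x215387a6, 4), (0x738590a6, 4)]⟩

def c_822 : frmChk tA tB F_822 = true := by decide +kernel

def r_822_0 : chkL rootF engF2 tA tB sA_243 sB_243 4 F_822 [(255, 0, 0), (256, 0, 25)]
    0x103c1715455 = true := by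
  decide +kernel

def r_822_1 : chkL rootF engF2 tA tB sA_243 sB_243 4 F_822 [(256, 25, 0)]
    0x4550b4534982d0b41714d2a05c17 = true := by
  decide +kernel

theorem f_822 (h : TabsF) : FrameF repsF 243 F_822.f :=
  frame_of rfl c_822 ((runs_of engOK r_822_0).append (runs_of engOK r_822_1)) (by decide +kernel) h.1 h.2

def F_823 : FrX :=
  ⟨0x1c2102000004044000002041000101000082040888081000001020400400102000604060000030008080215102100408048008002600800700010100002,
    0x0, 0, 0x4376, 2,
    [(0x0, 0), (0x205386a9, 4), (0x105487a9, 4), (0x214376a9, 4), (0x205386a9, 4), (0x105487a9, 4)],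
    [(0x4376, 2), (0x20657483, 4), (0x105376a9, 4), (0x657384a9, 4), (0x105376a9, 4), (0x21647385, 4), (0x204387a9, 4), (0x657384a9, 4), (0x204387a9, 4), (0x10637584, 4), (0x657384a9, 4), (0x21647385, 4)]⟩

def c_823 : frmChk tA tB F_823 = true := by decide +kernel

def r_823_0 : chkL rootF engF2 tA tB sA_243 sB_243 4 F_823 [(255, 0, 0), (256, 0, 14)]
    0x456 = true := by
  decide +kernel

def r_823_1 : chkL rootF engF2 tA tB sA_243 sB_243 4 F_823 [(256, 14, 14)]
    0x103c1e = true := by
  decide +kernel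

def r_823_2 : chkL rootF engF2 tA tB sA_243 sB_243 4 F_823 [(256, 28, 0)]
    0x1 = true := by
  decide +kernel

theorem f_823 (h : TabsF) : FrameF repsF 243 F_823.f :=
  frame_of rfl c_823 ((runs_of engOK r_823_0).append ((runs_of engOK r_823_1).append (runs_of engOK r_823_2))) (by decide +kernel) h.1 h.2

def F_824 : FrX :=
  ⟨0x2002000900044004000e02041000141000800040800801014008024002000420200102040888000224000100800048100100000032408008006016044004,
    0xa3, 1, 0x103151647193a0, 7,
    [(0xa3, 1), (0x208693a5, 4), (0x10548793, 4), (0x217693a4, 4), (0x208693a5, 4), (0x10548793, 4)],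
    [(0x103151647193a0, 7), (0x108493a2, 4), (0x106385a7, 4), (0x10547296, 4), (0x108493a2, 4), (0x106385a7, 4)]⟩

def c_824 : frmChk tA tA F_824 = true := by decide +kernel

def r_824_0 : chkL rootF engF2 tA tA sA_243 sA_243 4 F_824 [(255, 0, 0), (256, 0, 22)]
    0x40f0743316833 = true := by
  decide +kernel

def r_824_1 : chkL rootF engF2 tA tA sA_243 sA_243 4 F_824 [(256, 22, 0)]
    0x43903c4e05c330741e = true := by
  decide +kernel

theorem f_824 (h : TabsF) : FrameF repsF 243 F_824.f :=
  frame_of rfl c_824 ((runs_of engOK r_824_0).append (runs_of engOK r_824_1)) (by decide +kernel) h.1 h.1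

def F_825 : FrX :=
  ⟨0x80080a000804040e000021010020010000020408a00010021400248004802020000808004000310080800011021024080040080024004007000c0808002,
    0xa6, 1, 0x4184a8, 3,
    [(0xa6, 1), (0x205396a8, 4), (0x10548796, 4), (0x214396a7, 4), (0x205396a8, 4), (0x10548796, 4)],
    [(0x4184a8, 3), (0x206375a8, 4), (0x40768591, 4), (0x758691a3, 4), (0x40768591, 4), (0x427386a5, 4), (0x208391a6, 4), (0x758691a3, 4), (0x208391a6, 4), (0x406587a3, 4), (0x758691a3, 4), (0x427386a5, 4)]⟩

def c_825 : frmChk tA tB F_825 = true := by decide +kernel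

def r_825_0 : chkL rootF engF2 tA tB sA_243 sB_243 4 F_825 [(255, 0, 0), (256, 0, 23)]
    0x58303c1dc9324 = true := by
  decide +kernel

def r_825_1 : chkL rootF engF2 tA tB sA_243 sB_243 4 F_825 [(256, 23, 0)]
    0x48b42d8306c1b60d83 = true := by
  decide +kernel

theorem f_825 (h : TabsF) : FrameF repsF 243 F_825.f :=
  frame_of rfl c_825 ((runs_of engOK r_825_0).append (runs_of engOK r_825_1)) (by decide +kernel) h.1 h.2

def F_826 : FrX :=
  ⟨0x80080a000804040e00002101002001000002040881011001020010020042001010034000c00041020000000888040140001102010401308001220480001,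
    0xa6, 1, 0x43608796a5, 5,
    [(0xa6, 1), (0x205396a8, 4), (0x10548796, 4), (0x214396a7, 4), (0x205396a8, 4), (0x10548796, 4)],
    [(0x43608796a5, 5), (0x627394a8, 4), (0x506198a3, 4), (0x507493a8, 4), (0x506198a3, 4), (0x218493a7, 4), (0x43506297, 4), (0x507493a8, 4), (0x43506297, 4), (0x617483a9, 4), (0x507493a8, 4), (0x218493a7, 4)]⟩

def c_826 : frmChk tA tB F_826 = true := by decide +kernel

def r_826_0 : chkL rootF engF2 tA tB sA_243 sB_243 4 F_826 [(255, 0, 0), (256, 0, 21)]
    0x4361b10d4701b12c1b = true := by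
  decide +kernel

def r_826_1 : chkL rootF engF2 tA tB sA_243 sB_243 4 F_826 [(256, 21, 0)]
    0x10781e = true := by
  decide +kernel

theorem f_826 (h : TabsF) : FrameF repsF 243 F_826.f :=
  frame_of rfl c_826 ((runs_of engOK r_826_0).append (runs_of engOK r_826_1)) (by decide +kernel) h.1 h.2

def F_827 : FrX :=
  ⟨0x80080a000804040e000021010020010000020408a00010040400248004802020000804404000850080600011030024080040080030004009000c0808020,
    0xa6, 1, 0x21426590a4, 5,
    [(0xa6, 1), (0x205396a8, 4), (0x10548796, 4), (0x214396a7, 4), (0x205396a8, 4), (0x10548796, 4)],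
    [(0x21426590a4, 5), (0x537694a8, 4), (0x107592a6, 4), (0x107683a5, 4), (0x107592a6, 4), (0x427386a5, 4), (0x108594a3, 4), (0x107683a5, 4), (0x108594a3, 4), (0x658392a7, 4), (0x107683a5, 4), (0x427386a5, 4)]⟩

def c_827 : frmChk tA tB F_827 = true := by decide +kernel

def r_827_0 : chkL rootF engF2 tA tB sA_243 sB_243 4 F_827 [(255, 0, 0), (256, 0, 26)]
    0x40fa280f = true := by
  decide +kernel

def r_827_1 : chkL rootF engF2 tA tB sA_243 sB_243 4 F_827 [(256, 26, 0)]
    0x40f81c1705c170b80f03c360d83c0f0530da0789625 = true := by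
  decide +kernel

theorem f_827 (h : TabsF) : FrameF repsF 243 F_827.f :=
  frame_of rfl c_827 ((runs_of engOK r_827_0).append (runs_of engOK r_827_1)) (by decide +kernel) h.1 h.2

def F_828 : FrX :=
  ⟨0x1001040012008080000e008408004100081010000420100410080220020000404420001600001100400a1810800800202100800810404408100006000104,
    0xa3, 1, 0x10203051647195a3, 8,
    [(0xa3, 1), (0x207584a6, 4), (0x10547693, 4), (0x647593a8, 4), (0x10547693, 4), (0x216485a7, 4), (0x208693a4, 4), (0x647593a8, 4), (0x208693a4, 4), (0x106574a8, 4), (0x647593a8, 4), (0x216485a7, 4)],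
    [(0x10203051647195a3, 8), (0x203184a9, 4), (0x20738596, 4), (0x205471a6, 4), (0x203184a9, 4), (0x20738596, 4)]⟩

def c_828 : frmChk tB tA F_828 = true := by decide +kernel

def r_828_0 : chkL rootF engF2 tB tA sB_243 sA_243 4 F_828 [(255, 0, 0), (256, 0, 25)]
    0x40f0cc5a078270e41e91417946450781d = true := by
  decide +kernel

def r_828_1 : chkL rootF engF2 tB tA sB_243 sA_243 4 F_828 [(256, 25, 0)]
    0x12b01e05c6611c5a0cc350786532869 = true := by
  decide +kernel

theorem f_828 (h : TabsF) : FrameF repsF 243 F_828.f :=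
  frame_of rfl c_828 ((runs_of engOK r_828_0).append (runs_of engOK r_828_1)) (by decide +kernel) h.2 h.1

def F_829 : FrX :=
  ⟨0x1001040012008080000e0084080041000810100004202010018802200200002044020200108010014000180404100820010000080e004008101808022020,
    0xa3, 1, 0x3243526272a4, 6,
    [(0xa3, 1), (0x207584a6, 4), (0x10547693, 4), (0x647593a8, 4), (0x10547693, 4), (0x216485a7, 4), (0x208693a4, 4), (0x647593a8, 4), (0x208693a4, 4), (0x106574a8, 4), (0x647593a8, 4), (0x216485a7, 4)],
    [(0x3243526272a4, 6), (0x546370a8, 4), (0x106592a3, 4), (0x638492a5, 4), (0x106592a3, 4), (0x647183a5, 4), (0x708592a4, 4), (0x638492a5, 4), (0x708592a4, 4), (0x105384a6, 4), (0x638492a5, 4), (0x647183a5, 4)]⟩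

def c_829 : frmChk tB tB F_829 = true := by decide +kernel

def r_829_0 : chkL rootF engF2 tB tB sB_243 sB_243 4 F_829 [(255, 0, 0), (256, 0, 16)]
    0x10b40f0e4390ac2b = true := by
  decide +kernel

def r_829_1 : chkL rootF engF2 tB tB sB_243 sB_243 4 F_829 [(256, 16, 15)]
    0x10ae0ba0e072381781c330ce0ba0e0705e0703c0f = true := by
  decide +kernel

def r_829_2 : chkL rootF engF2 tB tB sB_243 sB_243 4 F_829 [(256, 31, 0)]
    0x10b89a03c2b03c531c80f0ac0f = true := by
  decide +kernel

theorem f_829 (h : TabsF) : FrameF repsF 243 F_829.f :=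
  frame_of rfl c_829 ((runs_of engOK r_829_0).append ((runs_of engOK r_829_1).append (runs_of engOK r_829_2))) (by decide +kernel) h.2 h.2

def F_830 : FrX :=
  ⟨0x1001040012008080000e0084080041000810100004200802400140010102000009a0000a000020804008480440000080400420210202080006090000006c,
    0xa3, 1, 0x3263768697a3, 6,
    [(0xa3, 1), (0x207584a6, 4), (0x10547693, 4), (0x647593a8, 4), (0x10547693, 4), (0x216485a7, 4), (0x208693a4, 4), (0x647593a8, 4), (0x208693a4, 4), (0x106574a8, 4), (0x647593a8, 4), (0x216485a7, 4)],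
    [(0x3263768697a3, 6), (0x307495a8, 4), (0x10546298, 4), (0x628495a7, 4), (0x10546298, 4), (0x317584a9, 4), (0x306287a4, 4), (0x628495a7, 4), (0x306287a4, 4), (0x108594a7, 4), (0x628495a7, 4), (0x317584a9, 4)]⟩

def c_830 : frmChk tB tB F_830 = true := by decide +kernel

def r_830_0 : chkL rootF engF2 tB tB sB_243 sB_243 4 F_830 [(255, 0, 0), (256, 0, 16)]
    0x105c1e = true := by
  decide +kernel

def r_830_1 : chkL rootF engF2 tB tB sB_243 sB_243 4 F_830 [(256, 16, 11)]
    0x14d00f = true := by
  decide +kernel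

def r_830_2 : chkL rootF engF2 tB tB sB_243 sB_243 4 F_830 [(256, 27, 20)]
    0x112c1e = true := by
  decide +kernel

def r_830_3 : chkL rootF engF2 tB tB sB_243 sB_243 4 F_830 [(256, 47, 0)]
    0x417 = true := by
  decide +kernel

theorem f_830 (h : TabsF) : FrameF repsF 243 F_830.f :=
  frame_of rfl c_830 ((runs_of engOK r_830_0).append ((runs_of engOK r_830_1).append ((runs_of engOK r_830_2).append (runs_of engOK r_830_3)))) (by decide +kernel) h.2 h.2

def F_831 : FrX :=
  ⟨0x1001040012008080000e00840800410008101000042008024001400101020000032000260000208040084804400000804004201200420800058100020150,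
    0xa3, 1, 0x3254618398a6, 6,
    [(0xa3, 1), (0x207584a6, 4), (0x10547693, 4), (0x647593a8, 4), (0x10547693, 4), (0x216485a7, 4), (0x208693a4, 4), (0x647593a8, 4), (0x208693a4, 4), (0x106574a8, 4), (0x647593a8, 4), (0x216485a7, 4)],
    [(0x3254618398a6, 6), (0x307495a8, 4), (0x215460a7, 4), (0x217498a5, 4), (0x215460a7, 4), (0x638794a5, 4), (0x213085a9, 4), (0x217498a5, 4), (0x213085a9, 4), (0x607598a4, 4), (0x217498a5, 4), (0x638794a5, 4)]⟩

def c_831 : frmChk tB tB F_831 = true := by decide +kernel

def r_831_0 : chkL rootF engF2 tB tB sB_243 sB_243 4 F_831 [(255, 0, 0), (256, 0, 17)]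
    0x4b80ccb12e0332c43588c2d2b01d2340f = true := by
  decide +kernel

def r_831_1 : chkL rootF engF2 tB tB sB_243 sB_243 4 F_831 [(256, 17, 11)]
    0x105c2d14c2d2709609c1b06c1b = true := by
  decide +kernel

def r_831_2 : chkL rootF engF2 tB tB sB_243 sB_243 4 F_831 [(256, 28, 19)]
    0x40f170530b453 = true := by
  decide +kernel

def r_831_3 : chkL rootF engF2 tB tB sB_243 sB_243 4 F_831 [(256, 47, 0)]
    0x1 = true := by
  decide +kernel

theorem f_831 (h : TabsF) : FrameF repsF 243 F_831.f :=
  frame_of rfl c_831 ((runs_of engOK r_831_0).append ((runs_of engOK r_831_1).append ((runs_of engOK r_831_2).append (runs_of engOK r_831_3)))) (by decide +kernel) h.2 h.2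

def F_832 : FrX :=
  ⟨0x482000044040440000c2040020009000182040020000484000020280080184800010800101010412040101004120040204005200002804000110008014,
    0xa0, 1, 0x1020425390a2, 6,
    [(0xa0, 1), (0x538690a2, 4), (0x548790a1, 4), (0x21437690, 4), (0x538690a2, 4), (0x548790a1, 4)],
    [(0x1020425390a2, 6), (0x657381a9, 4), (0x31427690, 4), (0x42617385, 4), (0x31427690, 4), (0x617583a0, 4), (0x425186a9, 4), (0x42617385, 4), (0x425186a9, 4), (0x63718590, 4), (0x42617385, 4), (0x617583a0, 4)]⟩

def c_832 : frmChk tA tB F_832 = true := by decide +kernel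

def r_832_0 : chkL rootF engF2 tA tB sA_243 sB_243 4 F_832 [(511, 0, 0)]
    0x42b82c0f03da46840f1343503f0903c0f1545503c2703e0e = true := by
  decide +kernel

theorem f_832 (h : TabsF) : FrameF repsF 243 F_832.f :=
  frame_of rfl c_832 (runs_of engOK r_832_0) (by decide +kernel) h.1 h.2

def F_833 : FrX :=
  ⟨0x2002000900044004000e0204100014100080004080040102402000420000c088140000101082041040040004444000408100200080441020001004201300,
    0xa3, 1, 0x2032508392a6, 6,
    [(0xa3, 1), (0x208693a5, 4), (0x10548793, 4), (0x217693a4, 4), (0x208693a5, 4), (0x10548793, 4)],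
    [(0x2032508392a6, 6), (0x407295a8, 4), (0x425163a7, 4), (0x637280a4, 4), (0x425163a7, 4), (0x208791a4, 4), (0x638495a0, 4), (0x637280a4, 4), (0x638495a0, 4), (0x517480a2, 4), (0x637280a4, 4), (0x208791a4, 4)]⟩

def c_833 : frmChk tA tB F_833 = true := by decide +kernel

def r_833_0 : chkL rootF engF2 tA tB sA_243 sB_243 4 F_833 [(255, 0, 0), (256, 0, 23)]
    0x106c1e = true := by
  decide +kernel

def r_833_1 : chkL rootF engF2 tA tB sA_243 sB_243 4 F_833 [(256, 23, 0)]
    0x109c27078871589318c471c4b11c4b11d02709c632c4472c44703c0f = true := by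
  decide +kernel

theorem f_833 (h : TabsF) : FrameF repsF 243 F_833.f :=
  frame_of rfl c_833 ((runs_of engOK r_833_0).append (runs_of engOK r_833_1)) (by decide +kernel) h.1 h.2

def F_834 : FrX :=
  ⟨0x80080a000804040e00002101002001000002040881040401010020800202004040880040c0a0008800802000280900020001100050001042400a1010010,
    0xa6, 1, 0x21324060718790a3, 8,
    [(0xa6, 1), (0x205396a8, 4), (0x10548796, 4), (0x214396a7, 4), (0x205396a8, 4), (0x10548796, 4)],
    [(0x21324060718790a3, 8), (0x208593a4, 4), (0x50618497, 4), (0x406185a2, 4), (0x50618497, 4), (0x405273a8, 4), (0x426193a0, 4), (0x406185a2, 4), (0x426193a0, 4), (0x548097a2, 4), (0x406185a2, 4), (0x405273a8, 4)]⟩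

def c_834 : frmChk tA tB F_834 = true := by decide +kernel

def r_834_0 : chkL rootF engF2 tA tB sA_243 sB_243 4 F_834 [(255, 0, 0), (256, 0, 23)]
    0x11695214d2c03c59 = true := by
  decide +kernel

def r_834_1 : chkL rootF engF2 tA tB sA_243 sB_243 4 F_834 [(256, 23, 0)]
    0x118c270d48e22c17834b1c9246e20650e80f14c5611c2b0ac17 = true := by
  decide +kernel

theorem f_834 (h : TabsF) : FrameF repsF 243 F_834.f :=
  frame_of rfl c_834 ((runs_of engOK r_834_0).append (runs_of engOK r_834_1)) (by decide +kernel) h.1 h.2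

def F_835 : FrX :=
  ⟨0x1001040012008080000e00840800410008101000040500004420010024000882808200004200010100064042c00000210010801008200801100000210025,
    0xa3, 1, 0x2131638590a5, 6,
    [(0xa3, 1), (0x207584a6, 4), (0x10547693, 4), (0x647593a8, 4), (0x10547693, 4), (0x216485a7, 4), (0x208693a4, 4), (0x647593a8, 4), (0x208693a4, 4), (0x106574a8, 4), (0x647593a8, 4), (0x216485a7, 4)],
    [(0x2131638590a5, 6), (0x546291a7, 4), (0x728093a4, 4), (0x426580a7, 4), (0x728093a4, 4), (0x314276a5, 4), (0x52648091, 4), (0x426580a7, 4), (0x52648091, 4), (0x657493a2, 4), (0x426580a7, 4), (0x314276a5, 4)]⟩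

def c_835 : frmChk tB tB F_835 = true := by decide +kernel

def r_835_0 : chkL rootF engF2 tB tB sB_243 sB_243 4 F_835 [(255, 0, 0), (256, 0, 14)]
    0x1 = true := by
  decide +kernel

def r_835_1 : chkL rootF engF2 tB tB sB_243 sB_243 4 F_835 [(256, 14, 18)]
    0x1 = true := by
  decide +kernel

def r_835_2 : chkL rootF engF2 tB tB sB_243 sB_243 4 F_835 [(256, 32, 15)]
    0x42b = true := by
  decide +kernel

def r_835_3 : chkL rootF engF2 tB tB sB_243 sB_243 4 F_835 [(256, 47, 0)]
    0x1 = true := by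
  decide +kernel

theorem f_835 (h : TabsF) : FrameF repsF 243 F_835.f :=
  frame_of rfl c_835 ((runs_of engOK r_835_0).append ((runs_of engOK r_835_1).append ((runs_of engOK r_835_2).append (runs_of engOK r_835_3)))) (by decide +kernel) h.2 h.2

def F_836 : FrX :=
  ⟨0x1001040012008080000e0084080041000810100004400804041010000420201000810220702000200000044206041000004000880a00040c080803200001,
    0xa3, 1, 0x506491a3, 4,
    [(0xa3, 1), (0x207584a6, 4), (0x10547693, 4), (0x647593a8, 4), (0x10547693, 4), (0x216485a7, 4), (0x208693a4, 4), (0x647593a8, 4), (0x208693a4, 4), (0x106574a8, 4), (0x647593a8, 4), (0x216485a7, 4)],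
    [(0x506491a3, 4), (0x527086a4, 4), (0x31607495, 4), (0x316470a8, 4), (0x31607495, 4), (0x648092a7, 4), (0x315284a6, 4), (0x316470a8, 4), (0x315284a6, 4), (0x407695a8, 4), (0x316470a8, 4), (0x648092a7, 4)]⟩

def c_836 : frmChk tB tB F_836 = true := by decide +kernel

def r_836_0 : chkL rootF engF2 tB tB sB_243 sB_243 4 F_836 [(255, 0, 0), (256, 0, 16)]
    0x105c170b41705c170781705c1705c1e05c2709c2705c17 = true := by
  decide +kernel

def r_836_1 : chkL rootF engF2 tB tB sB_243 sB_243 4 F_836 [(256, 16, 17)]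
    0x109c1705c27 = true := by
  decide +kernel

def r_836_2 : chkL rootF engF2 tB tB sB_243 sB_243 4 F_836 [(256, 33, 0)]
    0x10b82709c330b817 = true := by
  decide +kernel

theorem f_836 (h : TabsF) : FrameF repsF 243 F_836.f :=
  frame_of rfl c_836 ((runs_of engOK r_836_0).append ((runs_of engOK r_836_1).append (runs_of engOK r_836_2))) (by decide +kernel) h.2 h.2

def F_837 : FrX :=
  ⟨0x1001040012008080000e0084080041000810100004200810010802200200008044020204108010014004481001100820010000080e004008101002022020,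
    0xa3, 1, 0x2040637091a4, 6,
    [(0xa3, 1), (0x207584a6, 4), (0x10547693, 4), (0x647593a8, 4), (0x10547693, 4), (0x216485a7, 4), (0x208693a4, 4), (0x647593a8, 4), (0x208693a4, 4), (0x106574a8, 4), (0x647593a8, 4), (0x216485a7, 4)],
    [(0x2040637091a4, 6), (0x546370a8, 4), (0x214397a5, 4), (0x215486a3, 4), (0x214397a5, 4), (0x648590a3, 4), (0x217083a6, 4), (0x215486a3, 4), (0x217083a6, 4), (0x538697a4, 4), (0x215486a3, 4), (0x648590a3, 4)]⟩

def c_837 : frmChk tB tB F_837 = true := by decide +kernel

def r_837_0 : chkL rootF engF2 tB tB sB_243 sB_243 4 F_837 [(255, 0, 0), (256, 0, 16)]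
    0x1a84c63189a = true := by
  decide +kernel

def r_837_1 : chkL rootF engF2 tB tB sB_243 sB_243 4 F_837 [(256, 16, 20)]
    0x1 = true := by
  decide +kernel

def r_837_2 : chkL rootF engF2 tB tB sB_243 sB_243 4 F_837 [(256, 36, 0)]
    0x58c0742b0b41e = true := by
  decide +kernel

theorem f_837 (h : TabsF) : FrameF repsF 243 F_837.f :=
  frame_of rfl c_837 ((runs_of engOK r_837_0).append ((runs_of engOK r_837_1).append (runs_of engOK r_837_2))) (by decide +kernel) h.2 h.2

theorem cl_243 (h : TabsF) : ∀ f ∈ fr_243, FrameF repsF 243 f :=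
  List.forall_mem_cons.2 ⟨f_810 h, List.forall_mem_cons.2 ⟨f_811 h, List.forall_mem_cons.2 ⟨f_812 h, List.forall_mem_cons.2 ⟨f_813 h, List.forall_mem_cons.2 ⟨f_814 h, List.forall_mem_cons.2 ⟨f_815 h, List.forall_mem_cons.2 ⟨f_816 h, List.forall_mem_cons.2 ⟨f_817 h, List.forall_mem_cons.2 ⟨f_818 h, List.forall_mem_cons.2 ⟨f_819 h, List.forall_mem_cons.2 ⟨f_820 h, List.forall_mem_cons.2 ⟨f_821 h, List.forall_mem_cons.2 ⟨f_822 h, List.forall_mem_cons.2 ⟨f_823 h, List.forall_mem_cons.2 ⟨f_824 h, List.forall_mem_cons.2 ⟨f_825 h, List.forall_mem_cons.2 ⟨f_826 h, List.forall_mem_cons.2 ⟨f_827 h, List.forall_mem_cons.2 ⟨f_828 h, List.forall_mem_cons.2 ⟨f_829 h, List.forall_mem_cons.2 ⟨f_830 h, List.forall_mem_cons.2 ⟨f_831 h, List.forall_mem_cons.2 ⟨f_832 h, List.forall_mem_cons.2 ⟨f_833 h, List.forall_mem_cons.2 ⟨f_834 h, List.forall_mem_cons.2 ⟨f_835 h, List.forall_mem_cons.2 ⟨f_836 h, List.forall_mem_cons.2 ⟨f_837 h,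
    fun _ h0 => absurd h0 List.not_mem_nil⟩⟩⟩⟩⟩⟩⟩⟩⟩⟩⟩⟩⟩⟩⟩⟩⟩⟩⟩⟩⟩⟩⟩⟩⟩⟩⟩⟩

def F_838 : FrX :=
  ⟨0x1001040012008080000e0084080041000810100004050000440120800100005008404200408010410008280202402002000020820200080c048004200048,
    0xa3, 1, 0x102150728194a6, 7,
    [(0xa3, 1), (0x207584a6, 4), (0x10547693, 4), (0x647593a8, 4), (0x10547693, 4), (0x216485a7, 4), (0x208693a4, 4), (0x647593a8, 4), (0x208693a4, 4), (0x106574a8, 4), (0x647593a8, 4), (0x216485a7, 4)],
    [(0x102150728194a6, 7), (0x316475a2, 4), (0x20648591, 4), (0x648793a0, 4), (0x316475a2, 4), (0x20648591, 4)]⟩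

def c_838 : frmChk tB tA F_838 = true := by decide +kernel

def r_838_0 : chkL rootF engF2 tB tA sB_244 sA_244 4 F_838 [(255, 0, 0), (256, 0, 20)]
    0x4590e51a6441705c1705c2e22c8e22c0f2388b05c2e = true := by
  decide +kernel

def r_838_1 : chkL rootF engF2 tB tA sB_244 sA_244 4 F_838 [(256, 20, 0)]
    0x105c17 = true := by
  decide +kernel

theorem f_838 (h : TabsF) : FrameF repsF 244 F_838.f :=
  frame_of rfl c_838 ((runs_of engOK r_838_0).append (runs_of engOK r_838_1)) (by decide +kernel) h.2 h.1

def F_839 : FrX :=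
  ⟨0x1001040012008080000e008408004100081010000409000080a000810000203008404008408010010008280060840021010020010a200801042004202000,
    0xa3, 1, 0x20315062708496a3, 8,
    [(0xa3, 1), (0x207584a6, 4), (0x10547693, 4), (0x647593a8, 4), (0x10547693, 4), (0x216485a7, 4), (0x208693a4, 4), (0x647593a8, 4), (0x208693a4, 4), (0x106574a8, 4), (0x647593a8, 4), (0x216485a7, 4)],
    [(0x20315062708496a3, 8), (0x107694a2, 4), (0x10547382, 4), (0x106395a8, 4), (0x107694a2, 4), (0x10547382, 4)]⟩

def c_839 : frmChk tB tA F_839 = true := by decide +kernel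

def r_839_0 : chkL rootF engF2 tB tA sB_244 sA_244 4 F_839 [(255, 0, 0), (256, 0, 25)]
    0x44d = true := by
  decide +kernel

def r_839_1 : chkL rootF engF2 tB tA sB_244 sA_244 4 F_839 [(256, 25, 0)]
    0x10cc27 = true := by
  decide +kernel

theorem f_839 (h : TabsF) : FrameF repsF 244 F_839.f :=
  frame_of rfl c_839 ((runs_of engOK r_839_0).append (runs_of engOK r_839_1)) (by decide +kernel) h.2 h.1

def F_840 : FrX :=
  ⟨0x1001040012008080000e00840800410008101000060000081100202020280044020008080020440820021848800010400900800204020000092002201100,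
    0xa3, 1, 0x5362758098a7, 6,
    [(0xa3, 1), (0x207584a6, 4), (0x10547693, 4), (0x647593a8, 4), (0x10547693, 4), (0x216485a7, 4), (0x208693a4, 4), (0x647593a8, 4), (0x208693a4, 4), (0x106574a8, 4), (0x647593a8, 4), (0x216485a7, 4)],
    [(0x5362758098a7, 6), (0x30758692, 4), (0x307481a9, 4), (0x305461a2, 4), (0x30758692, 4), (0x307481a9, 4)]⟩

def c_840 : frmChk tB tA F_840 = true := by decide +kernel

def r_840_0 : chkL rootF engF2 tB tA sB_244 sA_244 4 F_840 [(255, 0, 0), (256, 0, 17)]
    0x4871341b03c1b2588e0cc1b06c72 = true := by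
  decide +kernel

def r_840_1 : chkL rootF engF2 tB tA sB_244 sA_244 4 F_840 [(256, 17, 16)]
    0x4711c81e0cc4d1344d03c0f = true := by
  decide +kernel

def r_840_2 : chkL rootF engF2 tB tA sB_244 sA_244 4 F_840 [(256, 33, 0)]
    0x46911c7203c1e2a833 = true := by
  decide +kernel

theorem f_840 (h : TabsF) : FrameF repsF 244 F_840.f :=
  frame_of rfl c_840 ((runs_of engOK r_840_0).append ((runs_of engOK r_840_1).append (runs_of engOK r_840_2))) (by decide +kernel) h.2 h.1

def F_841 : FrX :=
  ⟨0x1001040012008080000e00840800410008101000060000081100030041020022028008000100404208401880820010400840000105200400090000211100,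
    0xa3, 1, 0x103051718196a5, 7,
    [(0xa3, 1), (0x207584a6, 4), (0x10547693, 4), (0x647593a8, 4), (0x10547693, 4), (0x216485a7, 4), (0x208693a4, 4), (0x647593a8, 4), (0x208693a4, 4), (0x106574a8, 4), (0x647593a8, 4), (0x216485a7, 4)],
    [(0x103051718196a5, 7), (0x326097a1, 4), (0x607583a4, 4), (0x41608295, 4), (0x326097a1, 4), (0x607583a4, 4)]⟩

def c_841 : frmChk tB tA F_841 = true := by decide +kernel

def r_841_0 : chkL rootF engF2 tB tA sB_244 sA_244 4 F_841 [(255, 0, 0), (256, 0, 25)]
    0x106c2b06c33 = true := by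
  decide +kernel

def r_841_1 : chkL rootF engF2 tB tA sB_244 sA_244 4 F_841 [(256, 25, 0)]
    0x10d8531c81b = true := by
  decide +kernel

theorem f_841 (h : TabsF) : FrameF repsF 244 F_841.f :=
  frame_of rfl c_841 ((runs_of engOK r_841_0).append (runs_of engOK r_841_1)) (by decide +kernel) h.2 h.1

def F_842 : FrX :=
  ⟨0x1001040012008080000e00840800410008101000042010041020600004080040030108004020442000040442011000210000806401010081014104000004,
    0xa3, 1, 0x20324152708396a3, 8,
    [(0xa3, 1), (0x207584a6, 4), (0x10547693, 4), (0x647593a8, 4), (0x10547693, 4), (0x216485a7, 4), (0x208693a4, 4), (0x647593a8, 4), (0x208693a4, 4), (0x106574a8, 4), (0x647593a8, 4), (0x216485a7, 4)],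
    [(0x20324152708396a3, 8), (0x103275a9, 4), (0x31748692, 4), (0x328691a0, 4), (0x31748692, 4), (0x305491a2, 4), (0x758690a1, 4), (0x328691a0, 4), (0x758690a1, 4), (0x217493a0, 4), (0x328691a0, 4), (0x305491a2, 4)]⟩

def c_842 : frmChk tB tB F_842 = true := by decide +kernel

def r_842_0 : chkL rootF engF2 tB tB sB_244 sB_244 4 F_842 [(255, 0, 0), (256, 0, 25)]
    0x12698a2698a234530781e = true := by
  decide +kernel

def r_842_1 : chkL rootF engF2 tB tB sB_244 sB_244 4 F_842 [(256, 25, 22)]
    0x49909c33 = true := by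
  decide +kernel

def r_842_2 : chkL rootF engF2 tB tB sB_244 sB_244 4 F_842 [(256, 47, 0)]
    0x1 = true := by
  decide +kernel

theorem f_842 (h : TabsF) : FrameF repsF 244 F_842.f :=
  frame_of rfl c_842 ((runs_of engOK r_842_0).append ((runs_of engOK r_842_1).append (runs_of engOK r_842_2))) (by decide +kernel) h.2 h.2

def F_843 : FrX :=
  ⟨0x600020801080810000c0040180410101001004002014004000082204124000040400100a00010208240008a0202002200022020030000000c009080042,
    0xa0, 1, 0x41527497a8, 5,
    [(0xa0, 1), (0x637584a2, 4), (0x547690a1, 4), (0x64758390, 4), (0x547690a1, 4), (0x21647385, 4), (0x438690a2, 4), (0x64758390, 4), (0x438690a2, 4), (0x657483a1, 4), (0x64758390, 4), (0x21647385, 4)],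
    [(0x41527497a8, 5), (0x506392a7, 4), (0x40728196, 4), (0x768192a3, 4), (0x40728196, 4), (0x547693a2, 4), (0x507381a6, 4), (0x768192a3, 4), (0x507381a6, 4), (0x406297a3, 4), (0x768192a3, 4), (0x547693a2, 4)]⟩

def c_843 : frmChk tB tB F_843 = true := by decide +kernel

def r_843_0 : chkL rootF engF2 tB tB sB_244 sB_244 4 F_843 [(255, 0, 0), (256, 0, 23)]
    0x10b82d09c0f4641d06c1b = true := by
  decide +kernel

def r_843_1 : chkL rootF engF2 tB tB sB_244 sB_244 4 F_843 [(256, 23, 0)]
    0x18a90b = true := by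
  decide +kernel

theorem f_843 (h : TabsF) : FrameF repsF 244 F_843.f :=
  frame_of rfl c_843 ((runs_of engOK r_843_0).append (runs_of engOK r_843_1)) (by decide +kernel) h.2 h.2

def F_844 : FrX :=
  ⟨0x600020801080810000c004018041010100100400040c004400082800821000004400102200040108200010a02020c00200200210004000108c08140040,
    0xa0, 1, 0x4353637182a0, 6,
    [(0xa0, 1), (0x637584a2, 4), (0x547690a1, 4), (0x64758390, 4), (0x547690a1, 4), (0x21647385, 4), (0x438690a2, 4), (0x64758390, 4), (0x438690a2, 4), (0x657483a1, 4), (0x64758390, 4), (0x21647385, 4)],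
    [(0x4353637182a0, 6), (0x324165a8, 4), (0x435190a7, 4), (0x41536290, 4), (0x435190a7, 4), (0x42536187, 4), (0x526390a8, 4), (0x41536290, 4), (0x526390a8, 4), (0x315462a7, 4), (0x41536290, 4), (0x42536187, 4)]⟩

def c_844 : frmChk tB tB F_844 = true := by decide +kernel

def r_844_0 : chkL rootF engF2 tB tB sB_244 sB_244 4 F_844 [(255, 0, 0), (256, 0, 25)]
    0x41b0b82709c1707427 = true := by
  decide +kernel

def r_844_1 : chkL rootF engF2 tB tB sB_244 sB_244 4 F_844 [(256, 25, 0)]
    0x4170f0271343a05c5a09c4d = true := by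
  decide +kernel

theorem f_844 (h : TabsF) : FrameF repsF 244 F_844.f :=
  frame_of rfl c_844 ((runs_of engOK r_844_0).append (runs_of engOK r_844_1)) (by decide +kernel) h.2 h.2

def F_845 : FrX :=
  ⟨0x482000044040440000c2040020009000182040010020028009800080040004220400044001010121400442002020000008091004010210011402000090,
    0xa0, 1, 0x103242647698a6, 7,
    [(0xa0, 1), (0x538690a2, 4), (0x548790a1, 4), (0x21437690, 4), (0x538690a2, 4), (0x548790a1, 4)],
    [(0x103242647698a6, 7), (0x415287a9, 4), (0x10658793, 4), (0x406287a3, 4), (0x415287a9, 4), (0x10658793, 4)]⟩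

def c_845 : frmChk tA tA F_845 = true := by decide +kernel

def r_845_0 : chkL rootF engF2 tA tA sA_244 sA_244 4 F_845 [(255, 0, 0), (256, 0, 22)]
    0x106c2e6243a074560760b03c55 = true := by
  decide +kernel

def r_845_1 : chkL rootF engF2 tA tA sA_244 sA_244 4 F_845 [(256, 22, 0)]
    0x1294550cc331348e = true := by
  decide +kernel

theorem f_845 (h : TabsF) : FrameF repsF 244 F_845.f :=
  frame_of rfl c_845 ((runs_of engOK r_845_0).append (runs_of engOK r_845_1)) (by decide +kernel) h.1 h.1

def F_846 : FrX :=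
  ⟨0x482000044040440000c20400200090001820400021020001010910000040420202004010240004008000408880101010800000495000a0004404201040,
    0xa0, 1, 0x103042538093a0, 7,
    [(0xa0, 1), (0x538690a2, 4), (0x548790a1, 4), (0x21437690, 4), (0x538690a2, 4), (0x548790a1, 4)],
    [(0x103042538093a0, 7), (0x638591a4, 4), (0x217385a0, 4), (0x40768592, 4), (0x638591a4, 4), (0x217385a0, 4)]⟩

def c_846 : frmChk tA tA F_846 = true := by decide +kernel

def r_846_0 : chkL rootF engF2 tA tA sA_244 sA_244 4 F_846 [(255, 0, 0), (256, 0, 19)]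
    0x40f0741d0b4176158c = true := by
  decide +kernel

def r_846_1 : chkL rootF engF2 tA tA sA_244 sA_244 4 F_846 [(256, 19, 0)]
    0x11541b0d4c9 = true := by
  decide +kernel

theorem f_846 (h : TabsF) : FrameF repsF 244 F_846.f :=
  frame_of rfl c_846 ((runs_of engOK r_846_0).append (runs_of engOK r_846_1)) (by decide +kernel) h.1 h.1

def F_847 : FrX :=
  ⟨0x482000044040440000c204002000900018204000202640000088020001400002060004102400200080008218101040008002010a000aa0002105000004,
    0xa0, 1, 0x4052758396a6, 6,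
    [(0xa0, 1), (0x538690a2, 4), (0x548790a1, 4), (0x21437690, 4), (0x538690a2, 4), (0x548790a1, 4)],
    [(0x4052758396a6, 6), (0x548796a3, 4), (0x32417096, 4), (0x518096a2, 4), (0x548796a3, 4), (0x32417096, 4)]⟩

def c_847 : frmChk tA tA F_847 = true := by decide +kernel

def r_847_0 : chkL rootF engF2 tA tA sA_244 sA_244 4 F_847 [(255, 0, 0), (256, 0, 20)]
    0x4590ae29ca0531548e84c0f = true := by
  decide +kernel

def r_847_1 : chkL rootF engF2 tA tA sA_244 sA_244 4 F_847 [(256, 20, 0)]
    0x41d0ac4d12c171b04b0d459 = true := by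
  decide +kernel

theorem f_847 (h : TabsF) : FrameF repsF 244 F_847.f :=
  frame_of rfl c_847 ((runs_of engOK r_847_0).append (runs_of engOK r_847_1)) (by decide +kernel) h.1 h.1

def F_848 : FrX :=
  ⟨0x1c2102000004044000002041000101000082040888200008000880200002202020600044020010021440442012020008208011001010211000404080010,
    0x0, 0, 0x53637583, 4,
    [(0x0, 0), (0x205386a9, 4), (0x105487a9, 4), (0x214376a9, 4), (0x205386a9, 4), (0x105487a9, 4)],
    [(0x53637583, 4), (0x20647385, 4), (0x105374a9, 4), (0x547386a9, 4), (0x105374a9, 4), (0x21547683, 4), (0x206584a9, 4), (0x547386a9, 4), (0x206584a9, 4), (0x10437586, 4), (0x547386a9, 4), (0x21547683, 4)]⟩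

def c_848 : frmChk tA tB F_848 = true := by decide +kernel

def r_848_0 : chkL rootF engF2 tA tB sA_244 sB_244 4 F_848 [(255, 0, 0), (256, 0, 13)]
    0x41d12cb412cb412cb4 = true := by
  decide +kernel

def r_848_1 : chkL rootF engF2 tA tB sA_244 sB_244 4 F_848 [(256, 13, 4)]
    0x1 = true := by
  decide +kernel

def r_848_2 : chkL rootF engF2 tA tB sA_244 sB_244 4 F_848 [(256, 17, 3)]
    0x10e83a0e84e = true := by
  decide +kernel

def r_848_3 : chkL rootF engF2 tA tB sA_244 sB_244 4 F_848 [(256, 20, 4)]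
    0x103c0f03c9a06e1a06c0f0ac0f06e1a03c0f0e817 = true := by
  decide +kernel

def r_848_4 : chkL rootF engF2 tA tB sA_244 sB_244 4 F_848 [(256, 24, 5)]
    0x41d34817 = true := by
  decide +kernel

def r_848_5 : chkL rootF engF2 tA tB sA_244 sB_244 4 F_848 [(256, 29, 3)]
    0x10e41b16447 = true := by
  decide +kernel

def r_848_6 : chkL rootF engF2 tA tB sA_244 sB_244 4 F_848 [(256, 32, 0)]
    0x42b11c9a06c7185447514c39441b166491545903e0b0e689629896254582e4912e16856199448b22cc5 = true := by
  decide +kernel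

theorem f_848 (h : TabsF) : FrameF repsF 244 F_848.f :=
  frame_of rfl c_848 ((runs_of engOK r_848_0).append ((runs_of engOK r_848_1).append ((runs_of engOK r_848_2).append ((runs_of engOK r_848_3).append ((runs_of engOK r_848_4).append ((runs_of engOK r_848_5).append (runs_of engOK r_848_6))))))) (by decide +kernel) h.1 h.2

def F_849 : FrX :=
  ⟨0x80080a000804040e00002101002001000002040884021000044084008280001000103020001250010810003000100800221000880008440404040808200,
    0xa6, 1, 0x21315261758398a3, 8,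
    [(0xa6, 1), (0x205396a8, 4), (0x10548796, 4), (0x214396a7, 4), (0x205396a8, 4), (0x10548796, 4)],
    [(0x21315261758398a3, 8), (0x507194a3, 4), (0x31607482, 4), (0x437182a9, 4), (0x31607482, 4), (0x436597a1, 4), (0x508293a4, 4), (0x437182a9, 4), (0x508293a4, 4), (0x416073a9, 4), (0x437182a9, 4), (0x436597a1, 4)]⟩

def c_849 : frmChk tA tB F_849 = true := by decide +kernel

def r_849_0 : chkL rootF engF2 tA tB sA_244 sB_244 4 F_849 [(255, 0, 0), (256, 0, 23)]
    0x43932863 = true := by
  decide +kernel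

def r_849_1 : chkL rootF engF2 tA tB sA_244 sB_244 4 F_849 [(256, 23, 0)]
    0x4780d417 = true := by
  decide +kernel

theorem f_849 (h : TabsF) : FrameF repsF 244 F_849.f :=
  frame_of rfl c_849 ((runs_of engOK r_849_0).append (runs_of engOK r_849_1)) (by decide +kernel) h.1 h.2

def F_850 : FrX :=
  ⟨0x2002000900044004000e020410001410008000408008011000a0001400080182100204004201210410800007000000800240881020200800500010200201,
    0xa3, 1, 0x203140527192a0, 7,
    [(0xa3, 1), (0x208693a5, 4), (0x10548793, 4), (0x217693a4, 4), (0x208693a5, 4), (0x10548793, 4)],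
    [(0x203140527192a0, 7), (0x306182a9, 4), (0x205463a7, 4), (0x30546281, 4), (0x205463a7, 4), (0x31628097, 4), (0x215486a9, 4), (0x30546281, 4), (0x215486a9, 4), (0x326081a7, 4), (0x30546281, 4), (0x31628097, 4)]⟩

def c_850 : frmChk tA tB F_850 = true := by decide +kernel

def r_850_0 : chkL rootF engF2 tA tB sA_244 sB_244 4 F_850 [(255, 0, 0), (256, 0, 21)]
    0x41b05c3c0742b = true := by
  decide +kernel

def r_850_1 : chkL rootF engF2 tA tB sA_244 sB_244 4 F_850 [(256, 21, 0)]
    0x42714c740ac1e0781b0f0470d44e = true := by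
  decide +kernel

theorem f_850 (h : TabsF) : FrameF repsF 244 F_850.f :=
  frame_of rfl c_850 ((runs_of engOK r_850_0).append (runs_of engOK r_850_1)) (by decide +kernel) h.1 h.2

def F_851 : FrX :=
  ⟨0x482000044040440000c2040020009000182040000810828002100100080101200200060230080020800040081000420220100240050100004220010208,
    0xa0, 1, 0x2031507281a3, 6,
    [(0xa0, 1), (0x538690a2, 4), (0x548790a1, 4), (0x21437690, 4), (0x538690a2, 4), (0x548790a1, 4)],
    [(0x2031507281a3, 6), (0x637591a2, 4), (0x30428591, 4), (0x608791a4, 4), (0x637591a2, 4), (0x30428591, 4)]⟩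

def c_851 : frmChk tA tA F_851 = true := by decide +kernel

def r_851_0 : chkL rootF engF2 tA tA sA_244 sA_244 4 F_851 [(255, 0, 0), (256, 0, 14)]
    0x12705a03c630d42b06c1b5281b = true := by
  decide +kernel

def r_851_1 : chkL rootF engF2 tA tA sA_244 sA_244 4 F_851 [(256, 14, 15)]
    0x10d41b = true := by
  decide +kernel

def r_851_2 : chkL rootF engF2 tA tA sA_244 sA_244 4 F_851 [(256, 29, 12)]
    0x40f06c1706c1b = true := by
  decide +kernel

def r_851_3 : chkL rootF engF2 tA tA sA_244 sA_244 4 F_851 [(256, 41, 0)]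
    0x1 = true := by
  decide +kernel

theorem f_851 (h : TabsF) : FrameF repsF 244 F_851.f :=
  frame_of rfl c_851 ((runs_of engOK r_851_0).append ((runs_of engOK r_851_1).append ((runs_of engOK r_851_2).append (runs_of engOK r_851_3)))) (by decide +kernel) h.1 h.1

def F_852 : FrX :=
  ⟨0x2002000900044004000e0204100014100080004080040104200404840101004100000220408200020a000102000048208900040041080020101020220280,
    0xa3, 1, 0x304351728494a0, 7,
    [(0xa3, 1), (0x208693a5, 4), (0x10548793, 4), (0x217693a4, 4), (0x208693a5, 4), (0x10548793, 4)],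
    [(0x304351728494a0, 7), (0x416083a7, 4), (0x208391a5, 4), (0x62758394, 4), (0x416083a7, 4), (0x208391a5, 4)]⟩

def c_852 : frmChk tA tA F_852 = true := by decide +kernel

def r_852_0 : chkL rootF engF2 tA tA sA_244 sA_244 4 F_852 [(255, 0, 0), (256, 0, 19)]
    0x40f2940f = true := by
  decide +kernel

def r_852_1 : chkL rootF engF2 tA tA sA_244 sA_244 4 F_852 [(256, 19, 22)]
    0x109c2703cc306c0f42d0b60c3505c17 = true := by
  decide +kernel

def r_852_2 : chkL rootF engF2 tA tA sA_244 sA_244 4 F_852 [(256, 41, 0)]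
    0x1 = true := by
  decide +kernel

theorem f_852 (h : TabsF) : FrameF repsF 244 F_852.f :=
  frame_of rfl c_852 ((runs_of engOK r_852_0).append ((runs_of engOK r_852_1).append (runs_of engOK r_852_2))) (by decide +kernel) h.1 h.1

def F_853 : FrX :=
  ⟨0x482000044040440000c2040020009000182040000902000802020800a00804000880064804000004080030501000120084010206200104001002800008,
    0xa0, 1, 0x20324060758795a0, 8,
    [(0xa0, 1), (0x538690a2, 4), (0x548790a1, 4), (0x21437690, 4), (0x538690a2, 4), (0x548790a1, 4)],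
    [(0x20324060758795a0, 8), (0x405298a3, 4), (0x768492a1, 4), (0x42507698, 4), (0x768492a1, 4), (0x31428095, 4), (0x205476a3, 4), (0x42507698, 4), (0x205476a3, 4), (0x508294a1, 4), (0x42507698, 4), (0x31428095, 4)]⟩

def c_853 : frmChk tA tB F_853 = true := by decide +kernel

def r_853_0 : chkL rootF engF2 tA tB sA_244 sB_244 4 F_853 [(255, 0, 0), (256, 0, 22)]
    0x105c2e = true := by
  decide +kernel

def r_853_1 : chkL rootF engF2 tA tB sA_244 sB_244 4 F_853 [(256, 22, 0)]
    0x106c9c0d447 = true := by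
  decide +kernel

theorem f_853 (h : TabsF) : FrameF repsF 244 F_853.f :=
  frame_of rfl c_853 ((runs_of engOK r_853_0).append (runs_of engOK r_853_1)) (by decide +kernel) h.1 h.2

def F_854 : FrX :=
  ⟨0x1c2102000004044000002041000101000082040890080080001004100400101040808060210084020020048013000420420300040050008004220080080,
    0x0, 0, 0x21547383, 4,
    [(0x0, 0), (0x205386a9, 4), (0x105487a9, 4), (0x214376a9, 4), (0x205386a9, 4), (0x105487a9, 4)],
    [(0x21547383, 4), (0x10437586, 4), (0x205463a9, 4), (0x436587a9, 4), (0x205463a9, 4), (0x21657483, 4), (0x107685a9, 4), (0x436587a9, 4), (0x107685a9, 4), (0x20536487, 4), (0x436587a9, 4), (0x21657483, 4)]⟩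

def c_854 : frmChk tA tB F_854 = true := by decide +kernel

def r_854_0 : chkL rootF engF2 tA tB sA_244 sB_244 4 F_854 [(255, 0, 0), (256, 0, 4)]
    0x646074710e856 = true := by
  decide +kernel

def r_854_1 : chkL rootF engF2 tA tB sA_244 sB_244 4 F_854 [(256, 4, 5)]
    0x45a = true := by
  decide +kernel

def r_854_2 : chkL rootF engF2 tA tB sA_244 sB_244 4 F_854 [(256, 9, 6)]
    0x11700f = true := by
  decide +kernel

def r_854_3 : chkL rootF engF2 tA tB sA_244 sB_244 4 F_854 [(256, 15, 12)]
    0x45503c0f = true := by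
  decide +kernel

def r_854_4 : chkL rootF engF2 tA tB sA_244 sB_244 4 F_854 [(256, 27, 10)]
    0x45684e0b25583624d11584e50c56158d18c54342c4e5285619456194561941e0781e = true := by
  decide +kernel

def r_854_5 : chkL rootF engF2 tA tB sA_244 sB_244 4 F_854 [(256, 37, 0)]
    0x493 = true := by
  decide +kernel

theorem f_854 (h : TabsF) : FrameF repsF 244 F_854.f :=
  frame_of rfl c_854 ((runs_of engOK r_854_0).append ((runs_of engOK r_854_1).append ((runs_of engOK r_854_2).append ((runs_of engOK r_854_3).append ((runs_of engOK r_854_4).append (runs_of engOK r_854_5)))))) (by decide +kernel) h.1 h.2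

def F_855 : FrX :=
  ⟨0x2002000900044004000e02041000141000800040800804008080a04000110c0004008102000800a8008802090100008020203000840080804400c0002001,
    0xa3, 1, 0x20324061738297a3, 8,
    [(0xa3, 1), (0x208693a5, 4), (0x10548793, 4), (0x217693a4, 4), (0x208693a5, 4), (0x10548793, 4)],
    [(0x20324061738297a3, 8), (0x328495a1, 4), (0x52647091, 4), (0x217095a3, 4), (0x52647091, 4), (0x215386a9, 4), (0x317084a2, 4), (0x217095a3, 4), (0x317084a2, 4), (0x516492a3, 4), (0x217095a3, 4), (0x215386a9, 4)]⟩

def c_855 : frmChk tA tB F_855 = true := by decide +kernel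

def r_855_0 : chkL rootF engF2 tA tB sA_244 sB_244 4 F_855 [(255, 0, 0), (256, 0, 19)]
    0x42b7044b0e4390e4390e4390e43909c4b0e4390e4390e4390e4390e68581e856182b = true := by
  decide +kernel

def r_855_1 : chkL rootF engF2 tA tB sA_244 sB_244 4 F_855 [(256, 19, 0)]
    0x42d11c17 = true := by
  decide +kernel

theorem f_855 (h : TabsF) : FrameF repsF 244 F_855.f :=
  frame_of rfl c_855 ((runs_of engOK r_855_0).append (runs_of engOK r_855_1)) (by decide +kernel) h.1 h.2

def F_856 : FrX :=
  ⟨0x2002000900044004000e02041000141000800040801000248100c0020101040004008080408200820a018000000408802001002082880000040802222400,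
    0xa3, 1, 0x214050637481a8, 7,
    [(0xa3, 1), (0x208693a5, 4), (0x10548793, 4), (0x217693a4, 4), (0x208693a5, 4), (0x10548793, 4)],
    [(0x214050637481a8, 7), (0x516492a3, 4), (0x748592a0, 4), (0x30768192, 4), (0x516492a3, 4), (0x748592a0, 4)]⟩

def c_856 : frmChk tA tA F_856 = true := by decide +kernel

def r_856_0 : chkL rootF engF2 tA tA sA_244 sA_244 4 F_856 [(255, 0, 0), (256, 0, 19)]
    0x10d83c330339306a03c2703c17 = true := by
  decide +kernel

def r_856_1 : chkL rootF engF2 tA tA sA_244 sA_244 4 F_856 [(256, 19, 0)]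
    0x42dc2a0d467090d81d5300f05c36 = true := by
  decide +kernel

theorem f_856 (h : TabsF) : FrameF repsF 244 F_856.f :=
  frame_of rfl c_856 ((runs_of engOK r_856_0).append (runs_of engOK r_856_1)) (by decide +kernel) h.1 h.1

def F_857 : FrX :=
  ⟨0x2002000900044004000e0204100014100080004080400028010140000902010004001840088280080a02020042000880000100201084100004621000a000,
    0xa3, 1, 0x1042508495a1, 6,
    [(0xa3, 1), (0x208693a5, 4), (0x10548793, 4), (0x217693a4, 4), (0x208693a5, 4), (0x10548793, 4)],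
    [(0x1042508495a1, 6), (0x54638297, 4), (0x107698a5, 4), (0x10328697, 4), (0x107698a5, 4), (0x738692a4, 4), (0x10546283, 4), (0x10328697, 4), (0x10546283, 4), (0x328796a5, 4), (0x10328697, 4), (0x738692a4, 4)]⟩

def c_857 : frmChk tA tB F_857 = true := by decide +kernel

def r_857_0 : chkL rootF engF2 tA tB sA_244 sB_244 4 F_857 [(255, 0, 0), (256, 0, 21)]
    0x10b49c = true := by
  decide +kernel

def r_857_1 : chkL rootF engF2 tA tB sA_244 sB_244 4 F_857 [(256, 21, 0)]
    0x42daa0a603c0f03c0f = true := by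
  decide +kernel

theorem f_857 (h : TabsF) : FrameF repsF 244 F_857.f :=
  frame_of rfl c_857 ((runs_of engOK r_857_0).append (runs_of engOK r_857_1)) (by decide +kernel) h.1 h.2

def F_858 : FrX :=
  ⟨0x80080a000804040e0000210100200100000204088101410022000810002400004801102000208800a000800200602801044140040003002000910000408,
    0xa6, 1, 0x42516087a1, 5,
    [(0xa6, 1), (0x205396a8, 4), (0x10548796, 4), (0x214396a7, 4), (0x205396a8, 4), (0x10548796, 4)],
    [(0x42516087a1, 5), (0x30647281, 4), (0x218095a6, 4), (0x20738195, 4), (0x218095a6, 4), (0x207183a4, 4), (0x32647095, 4), (0x20738195, 4), (0x32647095, 4), (0x107382a6, 4), (0x20738195, 4), (0x207183a4, 4)]⟩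

def c_858 : frmChk tA tB F_858 = true := by decide +kernel

def r_858_0 : chkL rootF engF2 tA tB sA_244 sB_244 4 F_858 [(255, 0, 0), (256, 0, 20)]
    0x42b = true := by
  decide +kernel

def r_858_1 : chkL rootF engF2 tA tB sA_244 sB_244 4 F_858 [(256, 20, 0)]
    0x105cc6 = true := by
  decide +kernel

theorem f_858 (h : TabsF) : FrameF repsF 244 F_858.f :=
  frame_of rfl c_858 ((runs_of engOK r_858_0).append (runs_of engOK r_858_1)) (by decide +kernel) h.1 h.2

def F_859 : FrX :=
  ⟨0x482000044040440000c2040020009000182040020001042000020810010c1000c080000022080242100210404001802084000204090000000802010908,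
    0xa0, 1, 0x5464708097a4, 6,
    [(0xa0, 1), (0x538690a2, 4), (0x548790a1, 4), (0x21437690, 4), (0x538690a2, 4), (0x548790a1, 4)],
    [(0x5464708097a4, 6), (0x538294a7, 4), (0x608195a4, 4), (0x607394a5, 4), (0x608195a4, 4), (0x217493a5, 4), (0x607582a3, 4), (0x607394a5, 4), (0x607582a3, 4), (0x547381a9, 4), (0x607394a5, 4), (0x217493a5, 4)]⟩

def c_859 : frmChk tA tB F_859 = true := by decide +kernel

def r_859_0 : chkL rootF engF2 tA tB sA_244 sB_244 4 F_859 [(255, 0, 0), (256, 0, 19)]
    0x12a84e2d01e09c550780f11c565442b = true := by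
  decide +kernel

def r_859_1 : chkL rootF engF2 tA tB sA_244 sB_244 4 F_859 [(256, 19, 21)]
    0x4535154314d4550d1514d4550c5c05c5311d4a2d01e = true := by
  decide +kernel

def r_859_2 : chkL rootF engF2 tA tB sA_244 sB_244 4 F_859 [(256, 40, 0)]
    0x1 = true := by
  decide +kernel

theorem f_859 (h : TabsF) : FrameF repsF 244 F_859.f :=
  frame_of rfl c_859 ((runs_of engOK r_859_0).append ((runs_of engOK r_859_1).append (runs_of engOK r_859_2))) (by decide +kernel) h.1 h.2

def F_860 : FrX :=
  ⟨0x2002000900044004000e02041000141000800040800a20018008400008010100140201010100014000a0020910000800020420a044200200500042001001,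
    0xa3, 1, 0x30516170a0, 5,
    [(0xa3, 1), (0x208693a5, 4), (0x10548793, 4), (0x217693a4, 4), (0x208693a5, 4), (0x10548793, 4)],
    [(0x30516170a0, 5), (0x315084a2, 4), (0x415397a6, 4), (0x31548097, 4), (0x415397a6, 4), (0x30546281, 4), (0x408597a2, 4), (0x31548097, 4), (0x408597a2, 4), (0x435180a6, 4), (0x31548097, 4), (0x30546281, 4)]⟩

def c_860 : frmChk tA tB F_860 = true := by decide +kernel

def r_860_0 : chkL rootF engF2 tA tB sA_244 sB_244 4 F_860 [(511, 0, 0)]
    0x114c27 = true := by
  decide +kernel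

theorem f_860 (h : TabsF) : FrameF repsF 244 F_860.f :=
  frame_of rfl c_860 (runs_of engOK r_860_0) (by decide +kernel) h.1 h.2

def F_861 : FrX :=
  ⟨0x2002000900044004000e02041000141000800040800400214408400010810040200202020182000020a00202000040400201010041200201100024250200,
    0xa3, 1, 0x20324052618093a3, 8,
    [(0xa3, 1), (0x208693a5, 4), (0x10548793, 4), (0x217693a4, 4), (0x208693a5, 4), (0x10548793, 4)],
    [(0x20324052618093a3, 8), (0x427385a1, 4), (0x32718690, 4), (0x217390a4, 4), (0x32718690, 4), (0x214365a7, 4), (0x418590a2, 4), (0x217390a4, 4), (0x418590a2, 4), (0x317286a4, 4), (0x217390a4, 4), (0x214365a7, 4)]⟩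

def c_861 : frmChk tA tB F_861 = true := by decide +kernel

def r_861_0 : chkL rootF engF2 tA tB sA_244 sB_244 4 F_861 [(255, 0, 0), (256, 0, 20)]
    0x118c721e07218c7218c72 = true := by
  decide +kernel

def r_861_1 : chkL rootF engF2 tA tB sA_244 sB_244 4 F_861 [(256, 20, 0)]
    0x1198661982d0b40f13466294661982e = true := by
  decide +kernel

theorem f_861 (h : TabsF) : FrameF repsF 244 F_861.f :=
  frame_of rfl c_861 ((runs_of engOK r_861_0).append (runs_of engOK r_861_1)) (by decide +kernel) h.1 h.2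

def F_862 : FrX :=
  ⟨0x482000044040440000c2040020009000182040020002080100080288024022020400020802080012000048822000802018002008502200002200080050,
    0xa0, 1, 0x324361768694a6, 7,
    [(0xa0, 1), (0x538690a2, 4), (0x548790a1, 4), (0x21437690, 4), (0x538690a2, 4), (0x548790a1, 4)],
    [(0x324361768694a6, 7), (0x305197a4, 4), (0x608295a1, 4), (0x517482a9, 4), (0x608295a1, 4), (0x416375a9, 4), (0x308294a7, 4), (0x517482a9, 4), (0x308294a7, 4), (0x607491a5, 4), (0x517482a9, 4), (0x416375a9, 4)]⟩

def c_862 : frmChk tA tB F_862 = true := by decide +kernel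

def r_862_0 : chkL rootF engF2 tA tB sA_244 sB_244 4 F_862 [(255, 0, 0), (256, 0, 20)]
    0x4170b40f0742d25495 = true := by
  decide +kernel

def r_862_1 : chkL rootF engF2 tA tB sA_244 sB_244 4 F_862 [(256, 20, 21)]
    0x42d42c2d0cc4b0741b11c71 = true := by
  decide +kernel

def r_862_2 : chkL rootF engF2 tA tB sA_244 sB_244 4 F_862 [(256, 41, 0)]
    0x459 = true := by
  decide +kernel

theorem f_862 (h : TabsF) : FrameF repsF 244 F_862.f :=
  frame_of rfl c_862 ((runs_of engOK r_862_0).append ((runs_of engOK r_862_1).append (runs_of engOK r_862_2))) (by decide +kernel) h.1 h.2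

def F_863 : FrX :=
  ⟨0x1001040012008080000e00840800410008101000040500008108400040200040420610001100401060804004820010804000080c04030000021100042008,
    0xa3, 1, 0x425465758498a0, 7,
    [(0xa3, 1), (0x207584a6, 4), (0x10547693, 4), (0x647593a8, 4), (0x10547693, 4), (0x216485a7, 4), (0x208693a4, 4), (0x647593a8, 4), (0x208693a4, 4), (0x106574a8, 4), (0x647593a8, 4), (0x216485a7, 4)],
    [(0x425465758498a0, 7), (0x327698a4, 4), (0x506287a1, 4), (0x50768293, 4), (0x506287a1, 4), (0x41638297, 4), (0x508392a4, 4), (0x50768293, 4), (0x508392a4, 4), (0x728693a1, 4), (0x50768293, 4), (0x41638297, 4)]⟩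

def c_863 : frmChk tB tB F_863 = true := by decide +kernel

def r_863_0 : chkL rootF engF2 tB tB sB_244 sB_244 4 F_863 [(255, 0, 0), (256, 0, 23)]
    0x105d4a = true := by
  decide +kernel

def r_863_1 : chkL rootF engF2 tB tB sB_244 sB_244 4 F_863 [(256, 23, 0)]
    0x10b44d = true := by
  decide +kernel

theorem f_863 (h : TabsF) : FrameF repsF 244 F_863.f :=
  frame_of rfl c_863 ((runs_of engOK r_863_0).append (runs_of engOK r_863_1)) (by decide +kernel) h.2 h.2

def F_864 : FrX :=
  ⟨0x1001040012008080000e00840800410008101000044020080041030802000800440040104020010208004800800804800100201284010104021002841000,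
    0xa3, 1, 0x3041528191a8, 6,
    [(0xa3, 1), (0x207584a6, 4), (0x10547693, 4), (0x647593a8, 4), (0x10547693, 4), (0x216485a7, 4), (0x208693a4, 4), (0x647593a8, 4), (0x208693a4, 4), (0x106574a8, 4), (0x647593a8, 4), (0x216485a7, 4)],
    [(0x3041528191a8, 6), (0x536072a1, 4), (0x21768493, 4), (0x617284a0, 4), (0x21768493, 4), (0x617095a2, 4), (0x105384a6, 4), (0x617284a0, 4), (0x105384a6, 4), (0x627193a0, 4), (0x617284a0, 4), (0x617095a2, 4)]⟩

def c_864 : frmChk tB tB F_864 = true := by decide +kernel

def r_864_0 : chkL rootF engF2 tB tB sB_244 sB_244 4 F_864 [(255, 0, 0), (256, 0, 24)]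
    0x40f05c1d0741d = true := by
  decide +kernel

def r_864_1 : chkL rootF engF2 tB tB sB_244 sB_244 4 F_864 [(256, 24, 0)]
    0x11340f = true := by
  decide +kernel

theorem f_864 (h : TabsF) : FrameF repsF 244 F_864.f :=
  frame_of rfl c_864 ((runs_of engOK r_864_0).append (runs_of engOK r_864_1)) (by decide +kernel) h.2 h.2

def F_865 : FrX :=
  ⟨0x1001040012008080000e00840800410008101000042008100101042102002000808200090050008800081402040410004040201110000089480100040008,
    0xa3, 1, 0x435261708698a6, 7,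
    [(0xa3, 1), (0x207584a6, 4), (0x10547693, 4), (0x647593a8, 4), (0x10547693, 4), (0x216485a7, 4), (0x208693a4, 4), (0x647593a8, 4), (0x208693a4, 4), (0x106574a8, 4), (0x647593a8, 4), (0x216485a7, 4)],
    [(0x435261708698a6, 7), (0x207593a4, 4), (0x327681a0, 4), (0x208194a3, 4), (0x327681a0, 4), (0x406592a3, 4), (0x437581a9, 4), (0x208194a3, 4), (0x437581a9, 4), (0x307694a2, 4), (0x208194a3, 4), (0x406592a3, 4)]⟩

def c_865 : frmChk tB tB F_865 = true := by decide +kernel

def r_865_0 : chkL rootF engF2 tB tB sB_244 sB_244 4 F_865 [(255, 0, 0), (256, 0, 13)]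
    0x10781705c5694ac2 = true := by
  decide +kernel

def r_865_1 : chkL rootF engF2 tB tB sB_244 sB_244 4 F_865 [(256, 13, 17)]
    0x52903c3c = true := by
  decide +kernel

def r_865_2 : chkL rootF engF2 tB tB sB_244 sB_244 4 F_865 [(256, 30, 0)]
    0x107817 = true := by
  decide +kernel

theorem f_865 (h : TabsF) : FrameF repsF 244 F_865.f :=
  frame_of rfl c_865 ((runs_of engOK r_865_0).append ((runs_of engOK r_865_1).append (runs_of engOK r_865_2))) (by decide +kernel) h.2 h.2

theorem cl_244 (h : TabsF) : ∀ f ∈ fr_244, FrameF repsF 244 f :=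
  List.forall_mem_cons.2 ⟨f_838 h, List.forall_mem_cons.2 ⟨f_839 h, List.forall_mem_cons.2 ⟨f_840 h, List.forall_mem_cons.2 ⟨f_841 h, List.forall_mem_cons.2 ⟨f_842 h, List.forall_mem_cons.2 ⟨f_843 h, List.forall_mem_cons.2 ⟨f_844 h, List.forall_mem_cons.2 ⟨f_845 h, List.forall_mem_cons.2 ⟨f_846 h, List.forall_mem_cons.2 ⟨f_847 h, List.forall_mem_cons.2 ⟨f_848 h, List.forall_mem_cons.2 ⟨f_849 h, List.forall_mem_cons.2 ⟨f_850 h, List.forall_mem_cons.2 ⟨f_851 h, List.forall_mem_cons.2 ⟨f_852 h, List.forall_mem_cons.2 ⟨f_853 h, List.forall_mem_cons.2 ⟨f_854 h, List.forall_mem_cons.2 ⟨f_855 h, List.forall_mem_cons.2 ⟨f_856 h, List.forall_mem_cons.2 ⟨f_857 h, List.forall_mem_cons.2 ⟨f_858 h, List.forall_mem_cons.2 ⟨f_859 h, List.forall_mem_cons.2 ⟨f_860 h, List.forall_mem_cons.2 ⟨f_861 h, List.forall_mem_cons.2 ⟨f_862 h, List.forall_mem_cons.2 ⟨f_863 h, List.forall_mem_cons.2 ⟨f_864 h, List.forall_mem_cons.2 ⟨f_865 h,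
    fun _ h0 => absurd h0 List.not_mem_nil⟩⟩⟩⟩⟩⟩⟩⟩⟩⟩⟩⟩⟩⟩⟩⟩⟩⟩⟩⟩⟩⟩⟩⟩⟩⟩⟩⟩

def F_866 : FrX :=
  ⟨0x1001040012008080000e00840800410008101000044010080090100004102016000002201080022000180805c00010004010020448000840408000224040,
    0xa3, 1, 0x102031417396a5, 7,
    [(0xa3, 1), (0x207584a6, 4), (0x10547693, 4), (0x647593a8, 4), (0x10547693, 4), (0x216485a7, 4), (0x208693a4, 4), (0x647593a8, 4), (0x208693a4, 4), (0x106574a8, 4), (0x647593a8, 4), (0x216485a7, 4)],
    [(0x102031417396a5, 7), (0x216598a7, 4), (0x426580a3, 4), (0x41657390, 4), (0x216598a7, 4), (0x426580a3, 4)]⟩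

def c_866 : frmChk tB tA F_866 = true := by decide +kernel

def r_866_0 : chkL rootF engF2 tB tA sB_245 sA_245 4 F_866 [(255, 0, 0), (256, 0, 19)]
    0x10b41b495a849534238aa05c17 = true := by
  decide +kernel

def r_866_1 : chkL rootF engF2 tB tA sB_245 sA_245 4 F_866 [(256, 19, 14)]
    0x106c8e03c8e88e8398683b20350b48e = true := by
  decide +kernel

def r_866_2 : chkL rootF engF2 tB tA sB_245 sA_245 4 F_866 [(256, 33, 0)]
    0x4272388e0e8170e84e05c5c0cc1e = true := by
  decide +kernel

theorem f_866 (h : TabsF) : FrameF repsF 245 F_866.f :=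
  frame_of rfl c_866 ((runs_of engOK r_866_0).append ((runs_of engOK r_866_1).append (runs_of engOK r_866_2))) (by decide +kernel) h.2 h.1

def F_867 : FrX :=
  ⟨0x600020801080810000c0040180410101001004010010014200010048124002080000400800812c00000140a00010430040200100000188004400200068,
    0xa0, 1, 0x2132517583a0, 6,
    [(0xa0, 1), (0x637584a2, 4), (0x547690a1, 4), (0x64758390, 4), (0x547690a1, 4), (0x21647385, 4), (0x438690a2, 4), (0x64758390, 4), (0x438690a2, 4), (0x657483a1, 4), (0x64758390, 4), (0x21647385, 4)],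
    [(0x2132517583a0, 6), (0x417286a3, 4), (0x627490a5, 4), (0x64728190, 4), (0x627490a5, 4), (0x53647182, 4), (0x618490a3, 4), (0x64728190, 4), (0x618490a3, 4), (0x427681a5, 4), (0x64728190, 4), (0x53647182, 4)]⟩

def c_867 : frmChk tB tB F_867 = true := by decide +kernel

def r_867_0 : chkL rootF engF2 tB tB sB_245 sB_245 4 F_867 [(255, 0, 0), (256, 0, 23)]
    0x6920b6469486503c2b4a435 = true := by
  decide +kernel

def r_867_1 : chkL rootF engF2 tB tB sB_245 sB_245 4 F_867 [(256, 23, 0)]
    0x40f03c3a05ce10e8170b42ec844b0e417 = true := by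
  decide +kernel

theorem f_867 (h : TabsF) : FrameF repsF 245 F_867.f :=
  frame_of rfl c_867 ((runs_of engOK r_867_0).append (runs_of engOK r_867_1)) (by decide +kernel) h.2 h.2

def F_868 : FrX :=
  ⟨0x600020801080810000c004018041010100100400420002c0004000480211000844000040200106080100002004a0020248008800002540004020200028,
    0xa0, 1, 0x314050658096a6, 7,
    [(0xa0, 1), (0x637584a2, 4), (0x547690a1, 4), (0x64758390, 4), (0x547690a1, 4), (0x21647385, 4), (0x438690a2, 4), (0x64758390, 4), (0x438690a2, 4), (0x657483a1, 4), (0x64758390, 4), (0x21647385, 4)],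
    [(0x314050658096a6, 7), (0x618294a5, 4), (0x60758394, 4), (0x103294a7, 4), (0x618294a5, 4), (0x60758394, 4)]⟩

def c_868 : frmChk tB tA F_868 = true := by decide +kernel

def r_868_0 : chkL rootF engF2 tB tA sB_245 sA_245 4 F_868 [(255, 0, 0), (256, 0, 22)]
    0x105c17a0c2d0aee0 = true := by
  decide +kernel

def r_868_1 : chkL rootF engF2 tB tA sB_245 sA_245 4 F_868 [(256, 22, 0)]
    0x6230b80f03e1c0b439 = true := by
  decide +kernel

theorem f_868 (h : TabsF) : FrameF repsF 245 F_868.f :=
  frame_of rfl c_868 ((runs_of engOK r_868_0).append (runs_of engOK r_868_1)) (by decide +kernel) h.2 h.1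

def F_869 : FrX :=
  ⟨0x1001040012008080000e00840800410008101000042100001120010004302004800100102641000800020008a08000410000e00408200000444002201004,
    0xa3, 1, 0x738296a3, 4,
    [(0xa3, 1), (0x207584a6, 4), (0x10547693, 4), (0x647593a8, 4), (0x10547693, 4), (0x216485a7, 4), (0x208693a4, 4), (0x647593a8, 4), (0x208693a4, 4), (0x106574a8, 4), (0x647593a8, 4), (0x216485a7, 4)],
    [(0x738296a3, 4), (0x425380a9, 4), (0x10547693, 4), (0x537694a2, 4), (0x10547693, 4), (0x528194a3, 4), (0x768092a4, 4), (0x537694a2, 4), (0x768092a4, 4), (0x104395a2, 4), (0x537694a2, 4), (0x528194a3, 4)]⟩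

def c_869 : frmChk tB tB F_869 = true := by decide +kernel

def r_869_0 : chkL rootF engF2 tB tB sB_245 sB_245 4 F_869 [(255, 0, 0), (256, 0, 13)]
    0x41e0d81d12c4e0781e05c2d03c1d = true := by
  decide +kernel

def r_869_1 : chkL rootF engF2 tB tB sB_245 sB_245 4 F_869 [(256, 13, 6)]
    0x417 = true := by
  decide +kernel

def r_869_2 : chkL rootF engF2 tB tB sB_245 sB_245 4 F_869 [(256, 19, 10)]
    0x1 = true := by
  decide +kernel

def r_869_3 : chkL rootF engF2 tB tB sB_245 sB_245 4 F_869 [(256, 29, 17)]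
    0x1 = true := by
  decide +kernel

def r_869_4 : chkL rootF engF2 tB tB sB_245 sB_245 4 F_869 [(256, 46, 0)]
    0x42d = true := by
  decide +kernel

theorem f_869 (h : TabsF) : FrameF repsF 245 F_869.f :=
  frame_of rfl c_869 ((runs_of engOK r_869_0).append ((runs_of engOK r_869_1).append ((runs_of engOK r_869_2).append ((runs_of engOK r_869_3).append (runs_of engOK r_869_4))))) (by decide +kernel) h.2 h.2

def F_870 : FrX :=
  ⟨0x1001040012008080000e008408004100081010000440200403101000042008100081080040e0002000020800880810030080404401000440404042200004,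
    0xa3, 1, 0x2050657284a6, 6,
    [(0xa3, 1), (0x207584a6, 4), (0x10547693, 4), (0x647593a8, 4), (0x10547693, 4), (0x216485a7, 4), (0x208693a4, 4), (0x647593a8, 4), (0x208693a4, 4), (0x106574a8, 4), (0x647593a8, 4), (0x216485a7, 4)],
    [(0x2050657284a6, 6), (0x637592a4, 4), (0x40518692, 4), (0x718392a0, 4), (0x637592a4, 4), (0x40518692, 4)]⟩

def c_870 : frmChk tB tA F_870 = true := by decide +kernel

def r_870_0 : chkL rootF engF2 tB tA sB_245 sA_245 4 F_870 [(255, 0, 0), (256, 0, 15)]
    0x46a138270744b03c170cc0f438ac05c3612c36 = true := by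
  decide +kernel

def r_870_1 : chkL rootF engF2 tB tA sB_245 sA_245 4 F_870 [(256, 15, 16)]
    0x10ac1712c6a03c170cc1d1941d6303a0758c = true := by
  decide +kernel

def r_870_2 : chkL rootF engF2 tB tA sB_245 sA_245 4 F_870 [(256, 31, 16)]
    0x40f0742b05c1705c4e05cd107836 = true := by
  decide +kernel

def r_870_3 : chkL rootF engF2 tB tA sB_245 sA_245 4 F_870 [(256, 47, 0)]
    0x1 = true := by
  decide +kernel

theorem f_870 (h : TabsF) : FrameF repsF 245 F_870.f :=
  frame_of rfl c_870 ((runs_of engOK r_870_0).append ((runs_of engOK r_870_1).append ((runs_of engOK r_870_2).append (runs_of engOK r_870_3)))) (by decide +kernel) h.2 h.1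

def F_871 : FrX :=
  ⟨0x1001040012008080000e00840800410008101000044200440210100004000890008108004020012400020800880810030040005001001c40400002200104,
    0xa3, 1, 0x1020506071a0, 6,
    [(0xa3, 1), (0x207584a6, 4), (0x10547693, 4), (0x647593a8, 4), (0x10547693, 4), (0x216485a7, 4), (0x208693a4, 4), (0x647593a8, 4), (0x208693a4, 4), (0x106574a8, 4), (0x647593a8, 4), (0x216485a7, 4)],
    [(0x1020506071a0, 6), (0x328596a1, 4), (0x428096a7, 4), (0x43507196, 4), (0x328596a1, 4), (0x428096a7, 4)]⟩

def c_871 : frmChk tB tA F_871 = true := by decide +kernel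

def r_871_0 : chkL rootF engF2 tB tA sB_245 sA_245 4 F_871 [(255, 0, 0), (256, 0, 15)]
    0x1078530ac1e0ac2b26a920781d2b00f0781e24c9a0781724c9a259980781e0782b0ac0f0ac1e078332b01e0789326817259982681e2382b = true := by
  decide +kernel

def r_871_1 : chkL rootF engF2 tB tA sB_245 sA_245 4 F_871 [(256, 15, 18)]
    0x41e0ac9a0ae138364607893268966602b03c1e0e4390781e0ac8b05c1e0782b0ac0f2683503c0f09e4607893268966602b03c1e = true := by
  decide +kernel

def r_871_2 : chkL rootF engF2 tB tA sB_245 sA_245 4 F_871 [(256, 33, 0)]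
    0x10741d0ac270781e24c9a0782707893268961399809c270789a238170782b07827078271a8aa2a8ca3a01e05c1e2682b0781e24c9a09c960b59809c1e0798c0782b0b41e = true := by
  decide +kernel

theorem f_871 (h : TabsF) : FrameF repsF 245 F_871.f :=
  frame_of rfl c_871 ((runs_of engOK r_871_0).append ((runs_of engOK r_871_1).append (runs_of engOK r_871_2))) (by decide +kernel) h.2 h.1

def F_872 : FrX :=
  ⟨0x600020801080810000c0040180410101001004020000828000c0044082100000440010c02001020a0100002004a0000648008800002040004020220028,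
    0xa0, 1, 0x20718091a0, 5,
    [(0xa0, 1), (0x637584a2, 4), (0x547690a1, 4), (0x64758390, 4), (0x547690a1, 4), (0x21647385, 4), (0x438690a2, 4), (0x64758390, 4), (0x438690a2, 4), (0x657483a1, 4), (0x64758390, 4), (0x21647385, 4)],
    [(0x20718091a0, 5), (0x425163a0, 4), (0x546187a9, 4), (0x32516487, 4), (0x546187a9, 4), (0x31526490, 4), (0x436287a0, 4), (0x32516487, 4), (0x436287a0, 4), (0x324165a9, 4), (0x32516487, 4), (0x31526490, 4)]⟩

def c_872 : frmChk tB tB F_872 = true := by decide +kernel

def r_872_0 : chkL rootF engF2 tB tB sB_245 sB_245 4 F_872 [(255, 0, 0), (256, 0, 18)]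
    0x1079d018c1b = true := by
  decide +kernel

def r_872_1 : chkL rootF engF2 tB tB sB_245 sB_245 4 F_872 [(256, 18, 16)]
    0x40f03c0f0e86503c0f06c0f = true := by
  decide +kernel

def r_872_2 : chkL rootF engF2 tB tB sB_245 sB_245 4 F_872 [(256, 34, 0)]
    0x40f = true := by
  decide +kernel

theorem f_872 (h : TabsF) : FrameF repsF 245 F_872.f :=
  frame_of rfl c_872 ((runs_of engOK r_872_0).append ((runs_of engOK r_872_1).append (runs_of engOK r_872_2))) (by decide +kernel) h.2 h.2

def F_873 : FrX :=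
  ⟨0x80080a000804040e000021010020010000020408806000044040888000800820200204014000800208008008800500800001901600010821020c0240000,
    0xa6, 1, 0x213142507198a7, 7,
    [(0xa6, 1), (0x205396a8, 4), (0x10548796, 4), (0x214396a7, 4), (0x205396a8, 4), (0x10548796, 4)],
    [(0x213142507198a7, 7), (0x546291a0, 4), (0x107583a6, 4), (0x618392a0, 4), (0x107583a6, 4), (0x617490a2, 4), (0x21548396, 4), (0x618392a0, 4), (0x21548396, 4), (0x607592a1, 4), (0x618392a0, 4), (0x617490a2, 4)]⟩

def c_873 : frmChk tA tB F_873 = true := by decide +kernel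

def r_873_0 : chkL rootF engF2 tA tB sA_245 sB_245 4 F_873 [(255, 0, 0), (256, 0, 23)]
    0x118e230786a = true := by
  decide +kernel

def r_873_1 : chkL rootF engF2 tA tB sA_245 sB_245 4 F_873 [(256, 23, 18)]
    0x10b43c = true := by
  decide +kernel

def r_873_2 : chkL rootF engF2 tA tB sA_245 sB_245 4 F_873 [(256, 41, 0)]
    0x1 = true := by
  decide +kernel

theorem f_873 (h : TabsF) : FrameF repsF 245 F_873.f :=
  frame_of rfl c_873 ((runs_of engOK r_873_0).append ((runs_of engOK r_873_1).append (runs_of engOK r_873_2))) (by decide +kernel) h.1 h.2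

def F_874 : FrX :=
  ⟨0x482000044040440000c2040020009000182040010080080110002808000424220400001001080120000440802008008088090040600202102002000083,
    0xa0, 1, 0x4250647298a0, 6,
    [(0xa0, 1), (0x538690a2, 4), (0x548790a1, 4), (0x21437690, 4), (0x538690a2, 4), (0x548790a1, 4)],
    [(0x4250647298a0, 6), (0x308592a7, 4), (0x608594a1, 4), (0x42637185, 4), (0x308592a7, 4), (0x608594a1, 4)]⟩

def c_874 : frmChk tA tA F_874 = true := by decide +kernel

def r_874_0 : chkL rootF engF2 tA tA sA_245 sA_245 4 F_874 [(255, 0, 0), (256, 0, 24)]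
    0x1 = true := by
  decide +kernel

def r_874_1 : chkL rootF engF2 tA tA sA_245 sA_245 4 F_874 [(256, 24, 0)]
    0x115515 = true := by
  decide +kernel

theorem f_874 (h : TabsF) : FrameF repsF 245 F_874.f :=
  frame_of rfl c_874 ((runs_of engOK r_874_0).append (runs_of engOK r_874_1)) (by decide +kernel) h.1 h.1

def F_875 : FrX :=
  ⟨0x1c21020000040440000020410001010000820408882000080008802000022020206000411000140208002088812108400100012a0100200202200880000,
    0x0, 0, 0x53637583, 4,
    [(0x0, 0), (0x205386a9, 4), (0x105487a9, 4), (0x214376a9, 4), (0x205386a9, 4), (0x105487a9, 4)],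
    [(0x53637583, 4), (0x20647385, 4), (0x105374a9, 4), (0x547386a9, 4), (0x105374a9, 4), (0x21547683, 4), (0x206584a9, 4), (0x547386a9, 4), (0x206584a9, 4), (0x10437586, 4), (0x547386a9, 4), (0x21547683, 4)]⟩

def c_875 : frmChk tA tB F_875 = true := by decide +kernel

def r_875_0 : chkL rootF engF2 tA tB sA_245 sB_245 4 F_875 [(255, 0, 0), (256, 0, 13)]
    0x1 = true := by
  decide +kernel

def r_875_1 : chkL rootF engF2 tA tB sA_245 sB_245 4 F_875 [(256, 13, 3)]
    0x1 = true := by
  decide +kernel

def r_875_2 : chkL rootF engF2 tA tB sA_245 sB_245 4 F_875 [(256, 16, 3)]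
    0x1 = true := by
  decide +kernel

def r_875_3 : chkL rootF engF2 tA tB sA_245 sB_245 4 F_875 [(256, 19, 4)]
    0x1 = true := by
  decide +kernel

def r_875_4 : chkL rootF engF2 tA tB sA_245 sB_245 4 F_875 [(256, 23, 5)]
    0x5a4 = true := by
  decide +kernel

def r_875_5 : chkL rootF engF2 tA tB sA_245 sB_245 4 F_875 [(256, 28, 4)]
    0x4e2 = true := by
  decide +kernel

def r_875_6 : chkL rootF engF2 tA tB sA_245 sB_245 4 F_875 [(256, 32, 0)]
    0x1 = true := by
  decide +kernel

theorem f_875 (h : TabsF) : FrameF repsF 245 F_875.f :=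
  frame_of rfl c_875 ((runs_of engOK r_875_0).append ((runs_of engOK r_875_1).append ((runs_of engOK r_875_2).append ((runs_of engOK r_875_3).append ((runs_of engOK r_875_4).append ((runs_of engOK r_875_5).append (runs_of engOK r_875_6))))))) (by decide +kernel) h.1 h.2

def F_876 : FrX :=
  ⟨0x2002000900044004000e02041000141000800040800801014010080101000182008204004024000410800202000050000280008051200800500280050044,
    0xa3, 1, 0x204151768197a0, 7,
    [(0xa3, 1), (0x208693a5, 4), (0x10548793, 4), (0x217693a4, 4), (0x208693a5, 4), (0x10548793, 4)],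
    [(0x204151768197a0, 7), (0x436275a0, 4), (0x416295a8, 4), (0x31628097, 4), (0x436275a0, 4), (0x416295a8, 4)]⟩

def c_876 : frmChk tA tA F_876 = true := by decide +kernel

def r_876_0 : chkL rootF engF2 tA tA sA_245 sA_245 4 F_876 [(511, 0, 0)]
    0x10781d079c1f000fc6055 = true := by
  decide +kernel

theorem f_876 (h : TabsF) : FrameF repsF 245 F_876.f :=
  frame_of rfl c_876 (runs_of engOK r_876_0) (by decide +kernel) h.1 h.1

def F_877 : FrX :=
  ⟨0x80080a000804040e000021010020010000020408822000020880810000400820210044014000140208008008812018400020012a00088002020c0008000,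
    0xa6, 1, 0x32648591a6, 5,
    [(0xa6, 1), (0x205396a8, 4), (0x10548796, 4), (0x214396a7, 4), (0x205396a8, 4), (0x10548796, 4)],
    [(0x32648591a6, 5), (0x304182a5, 4), (0x41758690, 4), (0x416293a7, 4), (0x304182a5, 4), (0x41758690, 4)]⟩

def c_877 : frmChk tA tA F_877 = true := by decide +kernel

def r_877_0 : chkL rootF engF2 tA tA sA_245 sA_245 4 F_877 [(255, 0, 0), (256, 0, 23)]
    0x4560ac170ad230b6268b131 = true := by
  decide +kernel

def r_877_1 : chkL rootF engF2 tA tA sA_245 sA_245 4 F_877 [(256, 23, 0)]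
    0x142f06c884b05d0b44c0f171384c58a0748e = true := by
  decide +kernel

theorem f_877 (h : TabsF) : FrameF repsF 245 F_877.f :=
  frame_of rfl c_877 ((runs_of engOK r_877_0).append (runs_of engOK r_877_1)) (by decide +kernel) h.1 h.1

def F_878 : FrX :=
  ⟨0x482000044040440000c204002000900018204000082204080088080004100202040005002008040088004088800801010000210a1100a2002004200004,
    0xa0, 1, 0x3043517285a7, 6,
    [(0xa0, 1), (0x538690a2, 4), (0x548790a1, 4), (0x21437690, 4), (0x538690a2, 4), (0x548790a1, 4)],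
    [(0x3043517285a7, 6), (0x106473a8, 4), (0x538092a6, 4), (0x416092a8, 4), (0x538092a6, 4), (0x607581a4, 4), (0x40617392, 4), (0x416092a8, 4), (0x40617392, 4), (0x415386a0, 4), (0x416092a8, 4), (0x607581a4, 4)]⟩

def c_878 : frmChk tA tB F_878 = true := by decide +kernel

def r_878_0 : chkL rootF engF2 tA tB sA_245 sB_245 4 F_878 [(255, 0, 0), (256, 0, 20)]
    0x41d0781705d25 = true := by
  decide +kernel

def r_878_1 : chkL rootF engF2 tA tB sA_245 sB_245 4 F_878 [(256, 20, 0)]
    0x45a0af11c47904c5310d81e0d435 = true := by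
  decide +kernel

theorem f_878 (h : TabsF) : FrameF repsF 245 F_878.f :=
  frame_of rfl c_878 ((runs_of engOK r_878_0).append (runs_of engOK r_878_1)) (by decide +kernel) h.1 h.2

def F_879 : FrX :=
  ⟨0x1001040012008080000e00840800410008101000040880020320008100020030048008004020400280044800080430000800808200800448180002200108,
    0xa3, 1, 0x102143507382a5, 7,
    [(0xa3, 1), (0x207584a6, 4), (0x10547693, 4), (0x647593a8, 4), (0x10547693, 4), (0x216485a7, 4), (0x208693a4, 4), (0x647593a8, 4), (0x208693a4, 4), (0x106574a8, 4), (0x647593a8, 4), (0x216485a7, 4)],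
    [(0x102143507382a5, 7), (0x608591a7, 4), (0x405291a3, 4), (0x64738291, 4), (0x608591a7, 4), (0x405291a3, 4)]⟩

def c_879 : frmChk tB tA F_879 = true := by decide +kernel

def r_879_0 : chkL rootF engF2 tB tA sB_245 sA_245 4 F_879 [(511, 0, 0)]
    0x10e4ac = true := by
  decide +kernel

theorem f_879 (h : TabsF) : FrameF repsF 245 F_879.f :=
  frame_of rfl c_879 (runs_of engOK r_879_0) (by decide +kernel) h.2 h.1

def F_880 : FrX :=
  ⟨0x1001040012008080000e0084080041000810100004200802402001000408009004820200120031200040008602000024001c001001004401011008000210,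
    0xa3, 1, 0x1062718095a4, 6,
    [(0xa3, 1), (0x207584a6, 4), (0x10547693, 4), (0x647593a8, 4), (0x10547693, 4), (0x216485a7, 4), (0x208693a4, 4), (0x647593a8, 4), (0x208693a4, 4), (0x106574a8, 4), (0x647593a8, 4), (0x216485a7, 4)],
    [(0x1062718095a4, 6), (0x328690a1, 4), (0x205487a9, 4), (0x315490a2, 4), (0x205487a9, 4), (0x307691a2, 4), (0x215486a3, 4), (0x315490a2, 4), (0x215486a3, 4), (0x318792a0, 4), (0x315490a2, 4), (0x307691a2, 4)]⟩

def c_880 : frmChk tB tB F_880 = true := by decide +kernel

def r_880_0 : chkL rootF engF2 tB tB sB_245 sB_245 4 F_880 [(511, 0, 0)]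
    0x40f18ce28c94309c47 = true := by
  decide +kernel

theorem f_880 (h : TabsF) : FrameF repsF 245 F_880.f :=
  frame_of rfl c_880 (runs_of engOK r_880_0) (by decide +kernel) h.2 h.2

def F_881 : FrX :=
  ⟨0x600020801080810000c0040180410101001004013010100000001200820802008008088000005008404004103020002404220400006040010c00040280,
    0xa0, 1, 0x3140506073a8, 6,
    [(0xa0, 1), (0x637584a2, 4), (0x547690a1, 4), (0x64758390, 4), (0x547690a1, 4), (0x21647385, 4), (0x438690a2, 4), (0x64758390, 4), (0x438690a2, 4), (0x657483a1, 4), (0x64758390, 4), (0x21647385, 4)],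
    [(0x3140506073a8, 6), (0x627498a5, 4), (0x406398a1, 4), (0x32517098, 4), (0x627498a5, 4), (0x406398a1, 4)]⟩

def c_881 : frmChk tB tA F_881 = true := by decide +kernel

def r_881_0 : chkL rootF engF2 tB tA sB_245 sA_245 4 F_881 [(255, 0, 0), (256, 0, 26)]
    0x4b12c417ac0170d839 = true := by
  decide +kernel

def r_881_1 : chkL rootF engF2 tB tA sB_245 sA_245 4 F_881 [(256, 26, 0)]
    0x10f0b12c417ac0cc2c4b105eb00d43a06c3a05e1a = true := by
  decide +kernel

theorem f_881 (h : TabsF) : FrameF repsF 245 F_881.f :=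
  frame_of rfl c_881 ((runs_of engOK r_881_0).append (runs_of engOK r_881_1)) (by decide +kernel) h.2 h.1

def F_882 : FrX :=
  ⟨0x600020801080810000c00401804101010010040012501000001012000208020080080842000040084040041030200230000a0400004440000c00140280,
    0xa0, 1, 0x3062748498a8, 6,
    [(0xa0, 1), (0x637584a2, 4), (0x547690a1, 4), (0x64758390, 4), (0x547690a1, 4), (0x21647385, 4), (0x438690a2, 4), (0x64758390, 4), (0x438690a2, 4), (0x657483a1, 4), (0x64758390, 4), (0x21647385, 4)],
    [(0x3062748498a8, 6), (0x506397a2, 4), (0x318597a4, 4), (0x42618097, 4), (0x506397a2, 4), (0x318597a4, 4)]⟩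

def c_882 : frmChk tB tA F_882 = true := by decide +kernel

def r_882_0 : chkL rootF engF2 tB tA sB_245 sA_245 4 F_882 [(511, 0, 0)]
    0x1630174348e6300f8721c05e1a05c1705e1c870178681b7098c11e461721c87017868476301b = true := by
  decide +kernel

theorem f_882 (h : TabsF) : FrameF repsF 245 F_882.f :=
  frame_of rfl c_882 (runs_of engOK r_882_0) (by decide +kernel) h.2 h.1

def F_883 : FrX :=
  ⟨0x1001040012008080000e0084080041000810100004410000032000290000203004820000402060020004480088043000080082020080040c080002200108,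
    0xa3, 1, 0x103250648090a6, 7,
    [(0xa3, 1), (0x207584a6, 4), (0x10547693, 4), (0x647593a8, 4), (0x10547693, 4), (0x216485a7, 4), (0x208693a4, 4), (0x647593a8, 4), (0x208693a4, 4), (0x106574a8, 4), (0x647593a8, 4), (0x216485a7, 4)],
    [(0x103250648090a6, 7), (0x657193a2, 4), (0x618490a7, 4), (0x527184a6, 4), (0x618490a7, 4), (0x305172a6, 4), (0x628493a5, 4), (0x527184a6, 4), (0x628493a5, 4), (0x527690a1, 4), (0x527184a6, 4), (0x305172a6, 4)]⟩

def c_883 : frmChk tB tB F_883 = true := by decide +kernel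

def r_883_0 : chkL rootF engF2 tB tB sB_245 sB_245 4 F_883 [(255, 0, 0), (256, 0, 22)]
    0x41b06c330cc330cd13 = true := by
  decide +kernel

def r_883_1 : chkL rootF engF2 tB tB sB_245 sB_245 4 F_883 [(256, 22, 0)]
    0x103c0f21cb40d81b0781e = true := by
  decide +kernel

theorem f_883 (h : TabsF) : FrameF repsF 245 F_883.f :=
  frame_of rfl c_883 ((runs_of engOK r_883_0).append (runs_of engOK r_883_1)) (by decide +kernel) h.2 h.2

def F_884 : FrX :=
  ⟨0x80080a000804040e000021010020010000020408810810000500208002004040005011200101400401900008280000110240020004101202c00100c0000,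
    0xa6, 1, 0x20718793a0, 5,
    [(0xa6, 1), (0x205396a8, 4), (0x10548796, 4), (0x214396a7, 4), (0x205396a8, 4), (0x10548796, 4)],
    [(0x20718793a0, 5), (0x418596a0, 4), (0x325486a7, 4), (0x32648591, 4), (0x325486a7, 4), (0x51647098, 4), (0x326194a0, 4), (0x32648591, 4), (0x326194a0, 4), (0x658491a7, 4), (0x32648591, 4), (0x51647098, 4)]⟩

def c_884 : frmChk tA tB F_884 = true := by decide +kernel

def r_884_0 : chkL rootF engF2 tA tB sA_245 sB_245 4 F_884 [(511, 0, 0)]
    0x40f1a80f03c1d = true := by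
  decide +kernel

theorem f_884 (h : TabsF) : FrameF repsF 245 F_884.f :=
  frame_of rfl c_884 (runs_of engOK r_884_0) (by decide +kernel) h.1 h.2

def F_885 : FrX :=
  ⟨0x1c2102000004044000002041000101000082040888200008001080100002108004820200900010024212008088410400010010141041008000860600000,
    0x0, 0, 0x21536487, 4,
    [(0x0, 0), (0x205386a9, 4), (0x105487a9, 4), (0x214376a9, 4), (0x205386a9, 4), (0x105487a9, 4)],
    [(0x21536487, 4), (0x105374a9, 4), (0x206387a9, 4), (0x216584a9, 4), (0x105374a9, 4), (0x206387a9, 4)]⟩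

def c_885 : frmChk tA tA F_885 = true := by decide +kernel

def r_885_0 : chkL rootF engF2 tA tA sA_245 sA_245 4 F_885 [(255, 0, 0), (256, 0, 14)]
    0x1 = true := by
  decide +kernel

def r_885_1 : chkL rootF engF2 tA tA sA_245 sA_245 4 F_885 [(256, 14, 6)]
    0x44d18c635930ae0b88 = true := by
  decide +kernel

def r_885_2 : chkL rootF engF2 tA tA sA_245 sA_245 4 F_885 [(256, 20, 2)]
    0x11384e1e05c18cac19866390a69285c5a2588e168 = true := by
  decide +kernel

def r_885_3 : chkL rootF engF2 tA tA sA_245 sA_245 4 F_885 [(256, 22, 2)]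
    0x49329866 = true := by
  decide +kernel

def r_885_4 : chkL rootF engF2 tA tA sA_245 sA_245 4 F_885 [(256, 24, 4)]
    0x465896150cc3589631 = true := by
  decide +kernel

def r_885_5 : chkL rootF engF2 tA tA sA_245 sA_245 4 F_885 [(256, 28, 1)]
    0x1 = true := by
  decide +kernel

def r_885_6 : chkL rootF engF2 tA tA sA_245 sA_245 4 F_885 [(256, 29, 1)]
    0x1 = true := by
  decide +kernel

def r_885_7 : chkL rootF engF2 tA tA sA_245 sA_245 4 F_885 [(256, 30, 2)]
    0x42d03c93 = true := by
  decide +kernel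

def r_885_8 : chkL rootF engF2 tA tA sA_245 sA_245 4 F_885 [(256, 32, 2)]
    0x1 = true := by
  decide +kernel

def r_885_9 : chkL rootF engF2 tA tA sA_245 sA_245 4 F_885 [(256, 34, 0)]
    0x12a4e82a50b4a80f98668 = true := by
  decide +kernel

theorem f_885 (h : TabsF) : FrameF repsF 245 F_885.f :=
  frame_of rfl c_885 ((runs_of engOK r_885_0).append ((runs_of engOK r_885_1).append ((runs_of engOK r_885_2).append ((runs_of engOK r_885_3).append ((runs_of engOK r_885_4).append ((runs_of engOK r_885_5).append ((runs_of engOK r_885_6).append ((runs_of engOK r_885_7).append ((runs_of engOK r_885_8).append (runs_of engOK r_885_9)))))))))) (by decide +kernel) h.1 h.1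

def F_886 : FrX :=
  ⟨0x482000044040440000c2040020009000182040000822080000c10080014000030020410020c0020080c000880208010004015000600104021002800008,
    0xa0, 1, 0x314261738095a0, 7,
    [(0xa0, 1), (0x538690a2, 4), (0x548790a1, 4), (0x21437690, 4), (0x538690a2, 4), (0x548790a1, 4)],
    [(0x314261738095a0, 7), (0x308597a4, 4), (0x108592a6, 4), (0x31647285, 4), (0x308597a4, 4), (0x108592a6, 4)]⟩

def c_886 : frmChk tA tA F_886 = true := by decide +kernel

def r_886_0 : chkL rootF engF2 tA tA sA_245 sA_245 4 F_886 [(255, 0, 0), (256, 0, 21)]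
    0x11381b0e8c9b20394e10b03c660ac6a386e0 = true := by
  decide +kernel

def r_886_1 : chkL rootF engF2 tA tA sA_245 sA_245 4 F_886 [(256, 21, 0)]
    0x417 = true := by
  decide +kernel

theorem f_886 (h : TabsF) : FrameF repsF 245 F_886.f :=
  frame_of rfl c_886 ((runs_of engOK r_886_0).append (runs_of engOK r_886_1)) (by decide +kernel) h.1 h.1

def F_887 : FrX :=
  ⟨0x482000044040440000c20400200090001820400200005008002000300410449000100000240404108008000810200402008088080044200040a1008084,
    0xa0, 1, 0x318296a4, 4,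
    [(0xa0, 1), (0x538690a2, 4), (0x548790a1, 4), (0x21437690, 4), (0x538690a2, 4), (0x548790a1, 4)],
    [(0x318296a4, 4), (0x758091a2, 4), (0x306497a5, 4), (0x216475a9, 4), (0x306497a5, 4), (0x527183a9, 4), (0x648092a1, 4), (0x216475a9, 4), (0x648092a1, 4), (0x213095a7, 4), (0x216475a9, 4), (0x527183a9, 4)]⟩

def c_887 : frmChk tA tB F_887 = true := by decide +kernel

def r_887_0 : chkL rootF engF2 tA tB sA_245 sB_245 4 F_887 [(255, 0, 0), (256, 0, 23)]
    0x112c0f = true := by
  decide +kernel

def r_887_1 : chkL rootF engF2 tA tB sA_245 sB_245 4 F_887 [(256, 23, 0)]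
    0x4350b82b = true := by
  decide +kernel

theorem f_887 (h : TabsF) : FrameF repsF 245 F_887.f :=
  frame_of rfl c_887 ((runs_of engOK r_887_0).append (runs_of engOK r_887_1)) (by decide +kernel) h.1 h.2

def F_888 : FrX :=
  ⟨0x1001040012008080000e00840800410008101000044020080060002020020890048008004020010208004800800830030000804a00800440003002200104,
    0xa3, 1, 0x2150748491a8, 6,
    [(0xa3, 1), (0x207584a6, 4), (0x10547693, 4), (0x647593a8, 4), (0x10547693, 4), (0x216485a7, 4), (0x208693a4, 4), (0x647593a8, 4), (0x208693a4, 4), (0x106574a8, 4), (0x647593a8, 4), (0x216485a7, 4)],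
    [(0x2150748491a8, 6), (0x305172a6, 4), (0x728095a4, 4), (0x64728391, 4), (0x305172a6, 4), (0x728095a4, 4)]⟩

def c_888 : frmChk tB tA F_888 = true := by decide +kernel

def r_888_0 : chkL rootF engF2 tB tA sB_245 sA_245 4 F_888 [(255, 0, 0), (256, 0, 25)]
    0x43a = true := by
  decide +kernel

def r_888_1 : chkL rootF engF2 tB tA sB_245 sA_245 4 F_888 [(256, 25, 0)]
    0x1 = true := by
  decide +kernel

theorem f_888 (h : TabsF) : FrameF repsF 245 F_888.f :=
  frame_of rfl c_888 ((runs_of engOK r_888_0).append (runs_of engOK r_888_1)) (by decide +kernel) h.2 h.1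

def F_889 : FrX :=
  ⟨0x1001040012008080000e0084080041000810100004080804802000810008008244400010210010024001000801103000205000800a800400508000841100,
    0xa3, 1, 0x10203052748496a5, 8,
    [(0xa3, 1), (0x207584a6, 4), (0x10547693, 4), (0x647593a8, 4), (0x10547693, 4), (0x216485a7, 4), (0x208693a4, 4), (0x647593a8, 4), (0x208693a4, 4), (0x106574a8, 4), (0x647593a8, 4), (0x216485a7, 4)],
    [(0x10203052748496a5, 8), (0x536197a2, 4), (0x306174a8, 4), (0x50618294, 4), (0x536197a2, 4), (0x306174a8, 4)]⟩

def c_889 : frmChk tB tA F_889 = true := by decide +kernel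

def r_889_0 : chkL rootF engF2 tB tA sB_245 sA_245 4 F_889 [(255, 0, 0), (256, 0, 23)]
    0x10d41e = true := by
  decide +kernel

def r_889_1 : chkL rootF engF2 tB tA sB_245 sA_245 4 F_889 [(256, 23, 0)]
    0x5a16843303c6606c2b = true := by
  decide +kernel

theorem f_889 (h : TabsF) : FrameF repsF 245 F_889.f :=
  frame_of rfl c_889 ((runs_of engOK r_889_0).append (runs_of engOK r_889_1)) (by decide +kernel) h.2 h.1

def F_890 : FrX :=
  ⟨0x600020801080810000c00401804101010010040100100480000014408800420080005020002201400024004002380002000a0400000800530140408040,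
    0xa0, 1, 0x103154607297a3, 7,
    [(0xa0, 1), (0x637584a2, 4), (0x547690a1, 4), (0x64758390, 4), (0x547690a1, 4), (0x21647385, 4), (0x438690a2, 4), (0x64758390, 4), (0x438690a2, 4), (0x657483a1, 4), (0x64758390, 4), (0x21647385, 4)],
    [(0x103154607297a3, 7), (0x768594a1, 4), (0x20546391, 4), (0x205194a8, 4), (0x20546391, 4), (0x517384a9, 4), (0x207681a5, 4), (0x205194a8, 4), (0x207681a5, 4), (0x416395a8, 4), (0x205194a8, 4), (0x517384a9, 4)]⟩

def c_890 : frmChk tB tB F_890 = true := by decide +kernel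

def r_890_0 : chkL rootF engF2 tB tB sB_245 sB_245 4 F_890 [(255, 0, 0), (256, 0, 23)]
    0x59212c8e05c0f0741d05c56 = true := by
  decide +kernel

def r_890_1 : chkL rootF engF2 tB tB sB_245 sB_245 4 F_890 [(256, 23, 0)]
    0x7c0 = true := by
  decide +kernel

theorem f_890 (h : TabsF) : FrameF repsF 245 F_890.f :=
  frame_of rfl c_890 ((runs_of engOK r_890_0).append (runs_of engOK r_890_1)) (by decide +kernel) h.2 h.2

def F_891 : FrX :=
  ⟨0x482000044040440000c204002000900018204002000050080010020808018410201000002404041080080008102004020400500200280401011000c084,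
    0xa0, 1, 0x21315062728490a8, 8,
    [(0xa0, 1), (0x538690a2, 4), (0x548790a1, 4), (0x21437690, 4), (0x538690a2, 4), (0x548790a1, 4)],
    [(0x21315062728490a8, 8), (0x205497a1, 4), (0x548093a6, 4), (0x54617382, 4), (0x205497a1, 4), (0x548093a6, 4)]⟩

def c_891 : frmChk tA tA F_891 = true := by decide +kernel

def r_891_0 : chkL rootF engF2 tA tA sA_245 sA_245 4 F_891 [(255, 0, 0), (256, 0, 21)]
    0x128c0f15453168e8165491644b5240f1383905c0f03c2b03e1588d2c8940f8941e8941d8544e = true := by
  decide +kernel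

def r_891_1 : chkL rootF engF2 tA tA sA_245 sA_245 4 F_891 [(256, 21, 0)]
    0x10d41e0e835 = true := by
  decide +kernel

theorem f_891 (h : TabsF) : FrameF repsF 245 F_891.f :=
  frame_of rfl c_891 ((runs_of engOK r_891_0).append (runs_of engOK r_891_1)) (by decide +kernel) h.1 h.1

def F_892 : FrX :=
  ⟨0x482000044040440000c2040020009000182040000880880000a00080040082022020408028400220800800880208100040004040600100101022204008,
    0xa0, 1, 0x405264718692a3, 7,
    [(0xa0, 1), (0x538690a2, 4), (0x548790a1, 4), (0x21437690, 4), (0x538690a2, 4), (0x548790a1, 4)],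
    [(0x405264718692a3, 7), (0x216094a8, 4), (0x53627481, 4), (0x215386a0, 4), (0x53627481, 4), (0x208697a1, 4), (0x538094a6, 4), (0x215386a0, 4), (0x538094a6, 4), (0x617482a0, 4), (0x215386a0, 4), (0x208697a1, 4)]⟩

def c_892 : frmChk tA tB F_892 = true := by decide +kernel

def r_892_0 : chkL rootF engF2 tA tB sA_245 sB_245 4 F_892 [(255, 0, 0), (256, 0, 13)]
    0x109c2705c1b8b22c = true := by
  decide +kernel

def r_892_1 : chkL rootF engF2 tA tB sA_245 sB_245 4 F_892 [(256, 13, 14)]
    0x103c1e = true := by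
  decide +kernel

def r_892_2 : chkL rootF engF2 tA tB sA_245 sB_245 4 F_892 [(256, 27, 14)]
    0x41e0781e = true := by
  decide +kernel

def r_892_3 : chkL rootF engF2 tA tB sA_245 sB_245 4 F_892 [(256, 41, 0)]
    0x45a = true := by
  decide +kernel

theorem f_892 (h : TabsF) : FrameF repsF 245 F_892.f :=
  frame_of rfl c_892 ((runs_of engOK r_892_0).append ((runs_of engOK r_892_1).append ((runs_of engOK r_892_2).append (runs_of engOK r_892_3)))) (by decide +kernel) h.1 h.2

def F_893 : FrX :=
  ⟨0x2002000900044004000e02041000141000800040808000404200a0001082100100010210810040441010010202102000200008a020004008100a12040004,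
    0xa3, 1, 0x304154758690a3, 7,
    [(0xa3, 1), (0x208693a5, 4), (0x10548793, 4), (0x217693a4, 4), (0x208693a5, 4), (0x10548793, 4)],
    [(0x304154758690a3, 7), (0x657192a8, 4), (0x30758194, 4), (0x307185a6, 4), (0x30758194, 4), (0x427685a1, 4), (0x308692a5, 4), (0x307185a6, 4), (0x308692a5, 4), (0x518794a6, 4), (0x307185a6, 4), (0x427685a1, 4)]⟩

def c_893 : frmChk tA tB F_893 = true := by decide +kernel

def r_893_0 : chkL rootF engF2 tA tB sA_245 sB_245 4 F_893 [(255, 0, 0), (256, 0, 22)]
    0x4174703903c1d03c3505c1709c3307817 = true := by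
  decide +kernel

def r_893_1 : chkL rootF engF2 tA tB sA_245 sB_245 4 F_893 [(256, 22, 0)]
    0x45907817 = true := by
  decide +kernel

theorem f_893 (h : TabsF) : FrameF repsF 245 F_893.f :=
  frame_of rfl c_893 ((runs_of engOK r_893_0).append (runs_of engOK r_893_1)) (by decide +kernel) h.1 h.2

theorem cl_245 (h : TabsF) : ∀ f ∈ fr_245, FrameF repsF 245 f :=
  List.forall_mem_cons.2 ⟨f_866 h, List.forall_mem_cons.2 ⟨f_867 h, List.forall_mem_cons.2 ⟨f_868 h, List.forall_mem_cons.2 ⟨f_869 h, List.forall_mem_cons.2 ⟨f_870 h, List.forall_mem_cons.2 ⟨f_871 h, List.forall_mem_cons.2 ⟨f_872 h, List.forall_mem_cons.2 ⟨f_873 h, List.forall_mem_cons.2 ⟨f_874 h, List.forall_mem_cons.2 ⟨f_875 h, List.forall_mem_cons.2 ⟨f_876 h, List.forall_mem_cons.2 ⟨f_877 h, List.forall_mem_cons.2 ⟨f_878 h, List.forall_mem_cons.2 ⟨f_879 h, List.forall_mem_cons.2 ⟨f_880 h, List.forall_mem_cons.2 ⟨f_881 h, List.forall_mem_cons.2 ⟨f_882 h, List.forall_mem_cons.2 ⟨f_883 h, List.forall_mem_cons.2 ⟨f_884 h, List.forall_mem_cons.2 ⟨f_885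 h, List.forall_mem_cons.2 ⟨f_886 h, List.forall_mem_cons.2 ⟨f_887 h, List.forall_mem_cons.2 ⟨f_888 h, List.forall_mem_cons.2 ⟨f_889 h, List.forall_mem_cons.2 ⟨f_890 h, List.forall_mem_cons.2 ⟨f_891 h, List.forall_mem_cons.2 ⟨f_892 h, List.forall_mem_cons.2 ⟨f_893 h,
    fun _ h0 => absurd h0 List.not_mem_nil⟩⟩⟩⟩⟩⟩⟩⟩⟩⟩⟩⟩⟩⟩⟩⟩⟩⟩⟩⟩⟩⟩⟩⟩⟩⟩⟩⟩

def F_894 : FrX :=
  ⟨0x1001040012008080000e0084080041000810100004400804041010000420201000824200702000084001001001481000004000501102004140c101010000,
    0xa3, 1, 0x3054748492a7, 6,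
    [(0xa3, 1), (0x207584a6, 4), (0x10547693, 4), (0x647593a8, 4), (0x10547693, 4), (0x216485a7, 4), (0x208693a4, 4), (0x647593a8, 4), (0x208693a4, 4), (0x106574a8, 4), (0x647593a8, 4), (0x216485a7, 4)],
    [(0x3054748492a7, 6), (0x608793a4, 4), (0x315284a6, 4), (0x527086a4, 4), (0x315284a6, 4), (0x748691a0, 4), (0x52768093, 4), (0x527086a4, 4), (0x52768093, 4), (0x316470a8, 4), (0x527086a4, 4), (0x748691a0, 4)]⟩

def c_894 : frmChk tB tB F_894 = true := by decide +kernel

def r_894_0 : chkL rootF engF2 tB tB sB_246 sB_246 4 F_894 [(255, 0, 0), (256, 0, 24)]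
    0x1078271384e = true := by
  decide +kernel

def r_894_1 : chkL rootF engF2 tB tB sB_246 sB_246 4 F_894 [(256, 24, 0)]
    0x59406c1e07b280781e16459 = true := by
  decide +kernel

theorem f_894 (h : TabsF) : FrameF repsF 246 F_894.f :=
  frame_of rfl c_894 ((runs_of engOK r_894_0).append (runs_of engOK r_894_1)) (by decide +kernel) h.2 h.2

def F_895 : FrX :=
  ⟨0x1001040012008080000e0084080041000810100004050000442001a000000884804000104200010860022008404000210010800008a00c00500000201300,
    0xa3, 1, 0x324064768395a3, 7,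
    [(0xa3, 1), (0x207584a6, 4), (0x10547693, 4), (0x647593a8, 4), (0x10547693, 4), (0x216485a7, 4), (0x208693a4, 4), (0x647593a8, 4), (0x208693a4, 4), (0x106574a8, 4), (0x647593a8, 4), (0x216485a7, 4)],
    [(0x324064768395a3, 7), (0x437285a9, 4), (0x20418596, 4), (0x317085a6, 4), (0x437285a9, 4), (0x20418596, 4)]⟩

def c_895 : frmChk tB tA F_895 = true := by decide +kernel

def r_895_0 : chkL rootF engF2 tB tA sB_246 sA_246 4 F_895 [(255, 0, 0), (256, 0, 21)]
    0x43a05c350e89a0b4362a68903c33 = true := by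
  decide +kernel

def r_895_1 : chkL rootF engF2 tB tA sB_246 sA_246 4 F_895 [(256, 21, 0)]
    0x106c1e0ac1b03c1b22e89 = true := by
  decide +kernel

theorem f_895 (h : TabsF) : FrameF repsF 246 F_895.f :=
  frame_of rfl c_895 ((runs_of engOK r_895_0).append (runs_of engOK r_895_1)) (by decide +kernel) h.2 h.1

def F_896 : FrX :=
  ⟨0x1001040012008080000e00840800410008101000060000084061010020020802808000200200048140084042c00000420010800404200484480000200048,
    0xa3, 1, 0x304062708490a4, 7,
    [(0xa3, 1), (0x207584a6, 4), (0x10547693, 4), (0x647593a8, 4), (0x10547693, 4), (0x216485a7, 4), (0x208693a4, 4), (0x647593a8, 4), (0x208693a4, 4), (0x106574a8, 4), (0x647593a8, 4), (0x216485a7, 4)],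
    [(0x304062708490a4, 7), (0x32508796, 4), (0x438791a5, 4), (0x426187a0, 4), (0x32508796, 4), (0x438791a5, 4)]⟩

def c_896 : frmChk tB tA F_896 = true := by decide +kernel

def r_896_0 : chkL rootF engF2 tB tA sB_246 sA_246 4 F_896 [(255, 0, 0), (256, 0, 14)]
    0x41b = true := by
  decide +kernel

def r_896_1 : chkL rootF engF2 tB tA sB_246 sA_246 4 F_896 [(256, 14, 19)]
    0x68aa481e27033 = true := by
  decide +kernel

def r_896_2 : chkL rootF engF2 tB tA sB_246 sA_246 4 F_896 [(256, 33, 14)]
    0x105c3303c1703c71 = true := by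
  decide +kernel

def r_896_3 : chkL rootF engF2 tB tA sB_246 sA_246 4 F_896 [(256, 47, 0)]
    0x1 = true := by
  decide +kernel

theorem f_896 (h : TabsF) : FrameF repsF 246 F_896.f :=
  frame_of rfl c_896 ((runs_of engOK r_896_0).append ((runs_of engOK r_896_1).append ((runs_of engOK r_896_2).append (runs_of engOK r_896_3)))) (by decide +kernel) h.2 h.1

def F_897 : FrX :=
  ⟨0x1001040012008080000e00840800410008101000044010080090100004102010010302002020042048000442040410004840008808014008401002020010,
    0xa3, 1, 0x405065738790a8, 7,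
    [(0xa3, 1), (0x207584a6, 4), (0x10547693, 4), (0x647593a8, 4), (0x10547693, 4), (0x216485a7, 4), (0x208693a4, 4), (0x647593a8, 4), (0x208693a4, 4), (0x106574a8, 4), (0x647593a8, 4), (0x216485a7, 4)],
    [(0x405065738790a8, 7), (0x537692a4, 4), (0x536091a8, 4), (0x21537084, 4), (0x537692a4, 4), (0x536091a8, 4)]⟩

def c_897 : frmChk tB tA F_897 = true := by decide +kernel

def r_897_0 : chkL rootF engF2 tB tA sB_246 sA_246 4 F_897 [(255, 0, 0), (256, 0, 18)]
    0x112c270ac2b = true := by
  decide +kernel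

def r_897_1 : chkL rootF engF2 tB tA sB_246 sA_246 4 F_897 [(256, 18, 15)]
    0x417 = true := by
  decide +kernel

def r_897_2 : chkL rootF engF2 tB tA sB_246 sA_246 4 F_897 [(256, 33, 14)]
    0x40f03c3a03c172a40f03c99 = true := by
  decide +kernel

def r_897_3 : chkL rootF engF2 tB tA sB_246 sA_246 4 F_897 [(256, 47, 0)]
    0x13298a = true := by
  decide +kernel

theorem f_897 (h : TabsF) : FrameF repsF 246 F_897.f :=
  frame_of rfl c_897 ((runs_of engOK r_897_0).append ((runs_of engOK r_897_1).append ((runs_of engOK r_897_2).append (runs_of engOK r_897_3)))) (by decide +kernel) h.2 h.1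

def F_898 : FrX :=
  ⟨0x600020801080810000c004018041010100100401002002800001004880900400400a0008a0220240010000020a20022008000c00802044000820220200,
    0xa0, 1, 0x415465758491a3, 7,
    [(0xa0, 1), (0x637584a2, 4), (0x547690a1, 4), (0x64758390, 4), (0x547690a1, 4), (0x21647385, 4), (0x438690a2, 4), (0x64758390, 4), (0x438690a2, 4), (0x657483a1, 4), (0x64758390, 4), (0x21647385, 4)],
    [(0x415465758491a3, 7), (0x204351a7, 4), (0x43658790, 4), (0x436192a8, 4), (0x204351a7, 4), (0x43658790, 4)]⟩

def c_898 : frmChk tB tA F_898 = true := by decide +kernel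

def r_898_0 : chkL rootF engF2 tB tA sB_246 sA_246 4 F_898 [(255, 0, 0), (256, 0, 25)]
    0x40f03c0f0b40f88e3188c0f03c65 = true := by
  decide +kernel

def r_898_1 : chkL rootF engF2 tB tA sB_246 sA_246 4 F_898 [(256, 25, 0)]
    0x103c390ac275291a4a82b = true := by
  decide +kernel

theorem f_898 (h : TabsF) : FrameF repsF 246 F_898.f :=
  frame_of rfl c_898 ((runs_of engOK r_898_0).append (runs_of engOK r_898_1)) (by decide +kernel) h.2 h.1

def F_899 : FrX :=
  ⟨0x600020801080810000c0040180410101001004002010900000101440124002000000500820832000400200120810400640008000000808020401408140,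
    0xa0, 1, 0x204062738090a7, 7,
    [(0xa0, 1), (0x637584a2, 4), (0x547690a1, 4), (0x64758390, 4), (0x547690a1, 4), (0x21647385, 4), (0x438690a2, 4), (0x64758390, 4), (0x438690a2, 4), (0x657483a1, 4), (0x64758390, 4), (0x21647385, 4)],
    [(0x204062738090a7, 7), (0x40758396, 4), (0x528391a4, 4), (0x617283a0, 4), (0x40758396, 4), (0x528391a4, 4)]⟩

def c_899 : frmChk tB tA F_899 = true := by decide +kernel

def r_899_0 : chkL rootF engF2 tB tA sB_246 sA_246 4 F_899 [(255, 0, 0), (256, 0, 24)]
    0x41e0d42d03d89 = true := by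
  decide +kernel

def r_899_1 : chkL rootF engF2 tB tA sB_246 sA_246 4 F_899 [(256, 24, 0)]
    0x58912c2d2a8360b41794691 = true := by
  decide +kernel

theorem f_899 (h : TabsF) : FrameF repsF 246 F_899.f :=
  frame_of rfl c_899 ((runs_of engOK r_899_0).append (runs_of engOK r_899_1)) (by decide +kernel) h.2 h.1

def F_900 : FrX :=
  ⟨0x600020801080810000c0040180410101001004000a00014200400808020a00084800002020800340004100800208090004020400a00000100820700280,
    0xa0, 1, 0x2030435173a2, 6,
    [(0xa0, 1), (0x637584a2, 4), (0x547690a1, 4), (0x64758390, 4), (0x547690a1, 4), (0x21647385, 4), (0x438690a2, 4), (0x64758390, 4), (0x438690a2, 4), (0x657483a1, 4), (0x64758390, 4), (0x21647385, 4)],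
    [(0x2030435173a2, 6), (0x417682a3, 4), (0x21536490, 4), (0x41628790, 4), (0x21536490, 4), (0x627481a5, 4), (0x728690a3, 4), (0x41628790, 4), (0x728690a3, 4), (0x42536187, 4), (0x41628790, 4), (0x627481a5, 4)]⟩

def c_900 : frmChk tB tB F_900 = true := by decide +kernel

def r_900_0 : chkL rootF engF2 tB tB sB_246 sB_246 4 F_900 [(255, 0, 0), (256, 0, 23)]
    0x4473300f = true := by
  decide +kernel

def r_900_1 : chkL rootF engF2 tB tB sB_246 sB_246 4 F_900 [(256, 23, 0)]
    0x10e87205c53 = true := by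
  decide +kernel

theorem f_900 (h : TabsF) : FrameF repsF 246 F_900.f :=
  frame_of rfl c_900 ((runs_of engOK r_900_0).append (runs_of engOK r_900_1)) (by decide +kernel) h.2 h.2

def F_901 : FrX :=
  ⟨0x1001040012008080000e00840800410008101000042010041008022002000500442000060000404040041810800000202100800804410088020006810108,
    0xa3, 1, 0x103053768496a0, 7,
    [(0xa3, 1), (0x207584a6, 4), (0x10547693, 4), (0x647593a8, 4), (0x10547693, 4), (0x216485a7, 4), (0x208693a4, 4), (0x647593a8, 4), (0x208693a4, 4), (0x106574a8, 4), (0x647593a8, 4), (0x216485a7, 4)],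
    [(0x103053768496a0, 7), (0x517394a2, 4), (0x647381a0, 4), (0x20738596, 4), (0x517394a2, 4), (0x647381a0, 4)]⟩

def c_901 : frmChk tB tA F_901 = true := by decide +kernel

def r_901_0 : chkL rootF engF2 tB tA sB_246 sA_246 4 F_901 [(255, 0, 0), (256, 0, 24)]
    0x1 = true := by
  decide +kernel

def r_901_1 : chkL rootF engF2 tB tA sB_246 sA_246 4 F_901 [(256, 24, 0)]
    0x1 = true := by
  decide +kernel

theorem f_901 (h : TabsF) : FrameF repsF 246 F_901.f :=
  frame_of rfl c_901 ((runs_of engOK r_901_0).append (runs_of engOK r_901_1)) (by decide +kernel) h.2 h.1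

def F_902 : FrX :=
  ⟨0x1001040012008080000e0084080041000810100004202010004802200200030081020080108010014000280002100820010000080e004008100805012028,
    0xa3, 1, 0x54728793a2, 5,
    [(0xa3, 1), (0x207584a6, 4), (0x10547693, 4), (0x647593a8, 4), (0x10547693, 4), (0x216485a7, 4), (0x208693a4, 4), (0x647593a8, 4), (0x208693a4, 4), (0x106574a8, 4), (0x647593a8, 4), (0x216485a7, 4)],
    [(0x54728793a2, 5), (0x627394a0, 4), (0x10547382, 4), (0x738695a1, 4), (0x627394a0, 4), (0x10547382, 4)]⟩

def c_902 : frmChk tB tA F_902 = true := by decide +kernel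

def r_902_0 : chkL rootF engF2 tB tA sB_246 sA_246 4 F_902 [(255, 0, 0), (256, 0, 24)]
    0x1 = true := by
  decide +kernel

def r_902_1 : chkL rootF engF2 tB tA sB_246 sA_246 4 F_902 [(256, 24, 0)]
    0x42b03c2d = true := by
  decide +kernel

theorem f_902 (h : TabsF) : FrameF repsF 246 F_902.f :=
  frame_of rfl c_902 ((runs_of engOK r_902_0).append (runs_of engOK r_902_1)) (by decide +kernel) h.2 h.1

def F_903 : FrX :=
  ⟨0x1001040012008080000e0084080041000810100004200810010140010102000002c108002203000240004c08000408800000082010820000092900041020,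
    0xa3, 1, 0x30537695a7, 5,
    [(0xa3, 1), (0x207584a6, 4), (0x10547693, 4), (0x647593a8, 4), (0x10547693, 4), (0x216485a7, 4), (0x208693a4, 4), (0x647593a8, 4), (0x208693a4, 4), (0x106574a8, 4), (0x647593a8, 4), (0x216485a7, 4)],
    [(0x30537695a7, 5), (0x32608795, 4), (0x316094a8, 4), (0x215460a7, 4), (0x32608795, 4), (0x316094a8, 4)]⟩

def c_903 : frmChk tB tA F_903 = true := by decide +kernel

def r_903_0 : chkL rootF engF2 tB tA sB_246 sA_246 4 F_903 [(255, 0, 0), (256, 0, 23)]
    0x1e80660d4350b42d4a5296a00f28c351c40f = true := by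
  decide +kernel

def r_903_1 : chkL rootF engF2 tB tA sB_246 sA_246 4 F_903 [(256, 23, 24)]
    0x40f0d42b03c3311e4311e43 = true := by
  decide +kernel

def r_903_2 : chkL rootF engF2 tB tA sB_246 sA_246 4 F_903 [(256, 47, 0)]
    0x1 = true := by
  decide +kernel

theorem f_903 (h : TabsF) : FrameF repsF 246 F_903.f :=
  frame_of rfl c_903 ((runs_of engOK r_903_0).append ((runs_of engOK r_903_1).append (runs_of engOK r_903_2))) (by decide +kernel) h.2 h.1

def F_904 : FrX :=
  ⟨0x1c40440000080810000008400804100001010840421020000020220002008000820210a0005200000190208108400802084000020430004018008010201,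
    0x0, 0, 0x5487, 2,
    [(0x0, 0), (0x20637584, 4), (0x105476a9, 4), (0x647583a9, 4), (0x105476a9, 4), (0x21647385, 4), (0x204386a9, 4), (0x647583a9, 4), (0x204386a9, 4), (0x10657483, 4), (0x647583a9, 4), (0x21647385, 4)],
    [(0x5487, 2), (0x204376a9, 4), (0x105487a9, 4), (0x215386a9, 4), (0x204376a9, 4), (0x105487a9, 4)]⟩

def c_904 : frmChk tB tA F_904 = true := by decide +kernel

def r_904_0 : chkL rootF engF2 tB tA sB_246 sA_246 4 F_904 [(255, 0, 0), (256, 0, 19)]
    0x453d041b265386315864998 = true := by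
  decide +kernel

def r_904_1 : chkL rootF engF2 tB tA sB_246 sA_246 4 F_904 [(256, 19, 14)]
    0x1685a822c273a226 = true := by
  decide +kernel

def r_904_2 : chkL rootF engF2 tB tA sB_246 sA_246 4 F_904 [(256, 33, 0)]
    0x105c6a1641b = true := by
  decide +kernel

theorem f_904 (h : TabsF) : FrameF repsF 246 F_904.f :=
  frame_of rfl c_904 ((runs_of engOK r_904_0).append ((runs_of engOK r_904_1).append (runs_of engOK r_904_2))) (by decide +kernel) h.2 h.1

def F_905 : FrX :=
  ⟨0x1001040012008080000e00840800410008101000042010041008102022000040406000220000404040041810800000202100080819004408100860000024,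
    0xa3, 1, 0x314351628191a5, 7,
    [(0xa3, 1), (0x207584a6, 4), (0x10547693, 4), (0x647593a8, 4), (0x10547693, 4), (0x216485a7, 4), (0x208693a4, 4), (0x647593a8, 4), (0x208693a4, 4), (0x106574a8, 4), (0x647593a8, 4), (0x216485a7, 4)],
    [(0x314351628191a5, 7), (0x526083a4, 4), (0x758390a1, 4), (0x41728396, 4), (0x526083a4, 4), (0x758390a1, 4)]⟩

def c_905 : frmChk tB tA F_905 = true := by decide +kernel

def r_905_0 : chkL rootF engF2 tB tA sB_246 sA_246 4 F_905 [(255, 0, 0), (256, 0, 25)]
    0x4c303c1e6141705c1e = true := by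
  decide +kernel

def r_905_1 : chkL rootF engF2 tB tA sB_246 sA_246 4 F_905 [(256, 25, 0)]
    0x45c2a833 = true := by
  decide +kernel

theorem f_905 (h : TabsF) : FrameF repsF 246 F_905.f :=
  frame_of rfl c_905 ((runs_of engOK r_905_0).append (runs_of engOK r_905_1)) (by decide +kernel) h.2 h.1

def F_906 : FrX :=
  ⟨0x600020801080810000c0040180410101001004001011100000022802000c000100210a0000220068004140048000802484000500010080020100021102,
    0xa0, 1, 0x4254607695a1, 6,
    [(0xa0, 1), (0x637584a2, 4), (0x547690a1, 4), (0x64758390, 4), (0x547690a1, 4), (0x21647385, 4), (0x438690a2, 4), (0x64758390, 4), (0x438690a2, 4), (0x657483a1, 4), (0x64758390, 4), (0x21647385, 4)],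
    [(0x4254607695a1, 6), (0x64738590, 4), (0x217095a6, 4), (0x21758390, 4), (0x217095a6, 4), (0x307598a4, 4), (0x21536487, 4), (0x21758390, 4), (0x21536487, 4), (0x508397a6, 4), (0x21758390, 4), (0x307598a4, 4)]⟩

def c_906 : frmChk tB tB F_906 = true := by decide +kernel

def r_906_0 : chkL rootF engF2 tB tB sB_246 sB_246 4 F_906 [(255, 0, 0), (256, 0, 23)]
    0x41b = true := by
  decide +kernel

def r_906_1 : chkL rootF engF2 tB tB sB_246 sB_246 4 F_906 [(256, 23, 0)]
    0x40f09c6a03c0f = true := by
  decide +kernel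

theorem f_906 (h : TabsF) : FrameF repsF 246 F_906.f :=
  frame_of rfl c_906 ((runs_of engOK r_906_0).append (runs_of engOK r_906_1)) (by decide +kernel) h.2 h.2

def F_907 : FrX :=
  ⟨0x1c2102000004044000002041000101000082040890080080000802400800084004404120400030008064140808000802008082004048004040210200120,
    0x0, 0, 0x216475, 3,
    [(0x0, 0), (0x205386a9, 4), (0x105487a9, 4), (0x214376a9, 4), (0x205386a9, 4), (0x105487a9, 4)],
    [(0x216475, 3), (0x107384a9, 4), (0x207685a9, 4), (0x215463a9, 4), (0x107384a9, 4), (0x207685a9, 4)]⟩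

def c_907 : frmChk tA tA F_907 = true := by decide +kernel

def r_907_0 : chkL rootF engF2 tA tA sA_246 sA_246 4 F_907 [(255, 0, 0), (256, 0, 4)]
    0x1 = true := by
  decide +kernel

def r_907_1 : chkL rootF engF2 tA tA sA_246 sA_246 4 F_907 [(256, 4, 5)]
    0x41b03c17 = true := by
  decide +kernel

def r_907_2 : chkL rootF engF2 tA tA sA_246 sA_246 4 F_907 [(256, 9, 6)]
    0x105c33 = true := by
  decide +kernel

def r_907_3 : chkL rootF engF2 tA tA sA_246 sA_246 4 F_907 [(256, 15, 5)]
    0x12d0b42c80f1984d = true := by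
  decide +kernel

def r_907_4 : chkL rootF engF2 tA tA sA_246 sA_246 4 F_907 [(256, 20, 17)]
    0x10747281c2b = true := by
  decide +kernel

def r_907_5 : chkL rootF engF2 tA tA sA_246 sA_246 4 F_907 [(256, 37, 0)]
    0x4592981e = true := by
  decide +kernel

theorem f_907 (h : TabsF) : FrameF repsF 246 F_907.f :=
  frame_of rfl c_907 ((runs_of engOK r_907_0).append ((runs_of engOK r_907_1).append ((runs_of engOK r_907_2).append ((runs_of engOK r_907_3).append ((runs_of engOK r_907_4).append (runs_of engOK r_907_5)))))) (by decide +kernel) h.1 h.1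

def F_908 : FrX :=
  ⟨0x2002000900044004000e0204100014100080004080080101400840000821018010020400402400101004001200040840020400802208000a100110030820,
    0xa3, 1, 0x10215062768496a5, 8,
    [(0xa3, 1), (0x208693a5, 4), (0x10548793, 4), (0x217693a4, 4), (0x208693a5, 4), (0x10548793, 4)],
    [(0x10215062768496a5, 8), (0x657194a3, 4), (0x405271a8, 4), (0x62718390, 4), (0x657194a3, 4), (0x405271a8, 4)]⟩

def c_908 : frmChk tA tA F_908 = true := by decide +kernel

def r_908_0 : chkL rootF engF2 tA tA sA_246 sA_246 4 F_908 [(255, 0, 0), (256, 0, 20)]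
    0x41b06c1b0cea22a8e43882e = true := by
  decide +kernel

def r_908_1 : chkL rootF engF2 tA tA sA_246 sA_246 4 F_908 [(256, 20, 0)]
    0x1 = true := by
  decide +kernel

theorem f_908 (h : TabsF) : FrameF repsF 246 F_908.f :=
  frame_of rfl c_908 ((runs_of engOK r_908_0).append (runs_of engOK r_908_1)) (by decide +kernel) h.1 h.1

def F_909 : FrX :=
  ⟨0x80080a000804040e0000210100200100000204088048100012000840002020100c80202000404001005000008842004020110800104840a004040800820,
    0xa6, 1, 0x4350748695a8, 6,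
    [(0xa6, 1), (0x205396a8, 4), (0x10548796, 4), (0x214396a7, 4), (0x205396a8, 4), (0x10548796, 4)],
    [(0x4350748695a8, 6), (0x526094a8, 4), (0x516097a3, 4), (0x21607483, 4), (0x526094a8, 4), (0x516097a3, 4)]⟩

def c_909 : frmChk tA tA F_909 = true := by decide +kernel

def r_909_0 : chkL rootF engF2 tA tA sA_246 sA_246 4 F_909 [(255, 0, 0), (256, 0, 21)]
    0x12d0a63302e = true := by
  decide +kernel

def r_909_1 : chkL rootF engF2 tA tA sA_246 sA_246 4 F_909 [(256, 21, 0)]
    0x10b42e6441d = true := by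
  decide +kernel

theorem f_909 (h : TabsF) : FrameF repsF 246 F_909.f :=
  frame_of rfl c_909 ((runs_of engOK r_909_0).append (runs_of engOK r_909_1)) (by decide +kernel) h.1 h.1

def F_910 : FrX :=
  ⟨0x80080a000804040e0000210100200100000204089002000142011000801400400408101000003100002800082800000a024202024001321000080800041,
    0xa6, 1, 0x3251708191a6, 6,
    [(0xa6, 1), (0x205396a8, 4), (0x10548796, 4), (0x214396a7, 4), (0x205396a8, 4), (0x10548796, 4)],
    [(0x3251708191a6, 6), (0x217386a5, 4), (0x41508697, 4), (0x428693a0, 4), (0x217386a5, 4), (0x41508697, 4)]⟩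

def c_910 : frmChk tA tA F_910 = true := by decide +kernel

def r_910_0 : chkL rootF engF2 tA tA sA_246 sA_246 4 F_910 [(255, 0, 0), (256, 0, 18)]
    0x42d0b81d4709c0b41707859 = true := by
  decide +kernel

def r_910_1 : chkL rootF engF2 tA tA sA_246 sA_246 4 F_910 [(256, 18, 0)]
    0x42d134550741d05c1e = true := by
  decide +kernel

theorem f_910 (h : TabsF) : FrameF repsF 246 F_910.f :=
  frame_of rfl c_910 ((runs_of engOK r_910_0).append (runs_of engOK r_910_1)) (by decide +kernel) h.1 h.1

def F_911 : FrX :=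
  ⟨0x482000044040440000c2040020009000182040001080480004200004010044020409001101000120000400802201800040001084502200101202900080,
    0xa0, 1, 0x21306594a1, 5,
    [(0xa0, 1), (0x538690a2, 4), (0x548790a1, 4), (0x21437690, 4), (0x538690a2, 4), (0x548790a1, 4)],
    [(0x21306594a1, 5), (0x31507698, 4), (0x427596a3, 4), (0x42768095, 4), (0x427596a3, 4), (0x708695a1, 4), (0x31428590, 4), (0x42768095, 4), (0x31428590, 4), (0x658097a3, 4), (0x42768095, 4), (0x708695a1, 4)]⟩

def c_911 : frmChk tA tB F_911 = true := by decide +kernel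

def r_911_0 : chkL rootF engF2 tA tB sA_246 sB_246 4 F_911 [(255, 0, 0), (256, 0, 21)]
    0x10b82709c1b0741d = true := by
  decide +kernel

def r_911_1 : chkL rootF engF2 tA tB sA_246 sB_246 4 F_911 [(256, 21, 0)]
    0x10ac1b = true := by
  decide +kernel

theorem f_911 (h : TabsF) : FrameF repsF 246 F_911.f :=
  frame_of rfl c_911 ((runs_of engOK r_911_0).append (runs_of engOK r_911_1)) (by decide +kernel) h.1 h.2

def F_912 : FrX :=
  ⟨0x80080a000804040e00002101002001000002040890020001410000808801004004881008010031009008000038001002024002004000222044880820000,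
    0xa6, 1, 0x21435265708493a6, 8,
    [(0xa6, 1), (0x205396a8, 4), (0x10548796, 4), (0x214396a7, 4), (0x205396a8, 4), (0x10548796, 4)],
    [(0x21435265708493a6, 8), (0x417596a3, 4), (0x30417286, 4), (0x415298a0, 4), (0x417596a3, 4), (0x30417286, 4)]⟩

def c_912 : frmChk tA tA F_912 = true := by decide +kernel

def r_912_0 : chkL rootF engF2 tA tA sA_246 sA_246 4 F_912 [(255, 0, 0), (256, 0, 18)]
    0x109c9a4350e0b40fc0f12 = true := by
  decide +kernel

def r_912_1 : chkL rootF engF2 tA tA sA_246 sA_246 4 F_912 [(256, 18, 0)]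
    0x44b1384e1384e25a861383524c9a = true := by
  decide +kernel

theorem f_912 (h : TabsF) : FrameF repsF 246 F_912.f :=
  frame_of rfl c_912 ((runs_of engOK r_912_0).append (runs_of engOK r_912_1)) (by decide +kernel) h.1 h.1

def F_913 : FrX :=
  ⟨0x2002000900044004000e02041000141000800040800400484020004200010c01800000310100010404020100820000011100081084050020280840211000,
    0xa3, 1, 0x1054627296a3, 6,
    [(0xa3, 1), (0x208693a5, 4), (0x10548793, 4), (0x217693a4, 4), (0x208693a5, 4), (0x10548793, 4)],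
    [(0x1054627296a3, 6), (0x327198a4, 4), (0x10325486, 4), (0x327096a5, 4), (0x327198a4, 4), (0x10325486, 4)]⟩

def c_913 : frmChk tA tA F_913 = true := by decide +kernel

def r_913_0 : chkL rootF engF2 tA tA sA_246 sA_246 4 F_913 [(255, 0, 0), (256, 0, 19)]
    0x4471c8930e81b = true := by
  decide +kernel

def r_913_1 : chkL rootF engF2 tA tA sA_246 sA_246 4 F_913 [(256, 19, 0)]
    0x4550e94c5303c = true := by
  decide +kernel

theorem f_913 (h : TabsF) : FrameF repsF 246 F_913.f :=
  frame_of rfl c_913 ((runs_of engOK r_913_0).append (runs_of engOK r_913_1)) (by decide +kernel) h.1 h.1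

def F_914 : FrX :=
  ⟨0x80080a000804040e00002101002001000002040890020001404010009010004804081010000031000028000828001010024002044005022240880060000,
    0xa6, 1, 0x30425361718397a2, 8,
    [(0xa6, 1), (0x205396a8, 4), (0x10548796, 4), (0x214396a7, 4), (0x205396a8, 4), (0x10548796, 4)],
    [(0x30425361718397a2, 8), (0x516480a3, 4), (0x20647395, 4), (0x648291a7, 4), (0x516480a3, 4), (0x20647395, 4)]⟩

def c_914 : frmChk tA tA F_914 = true := by decide +kernel

def r_914_0 : chkL rootF engF2 tA tA sA_246 sA_246 4 F_914 [(255, 0, 0), (256, 0, 18)]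
    0x658294b10b41d0741d = true := by
  decide +kernel

def r_914_1 : chkL rootF engF2 tA tA sA_246 sA_246 4 F_914 [(256, 18, 0)]
    0x42d = true := by
  decide +kernel

theorem f_914 (h : TabsF) : FrameF repsF 246 F_914.f :=
  frame_of rfl c_914 ((runs_of engOK r_914_0).append (runs_of engOK r_914_1)) (by decide +kernel) h.1 h.1

def F_915 : FrX :=
  ⟨0x482000044040440000c20400200090001820400100200820010001800801048180100008040408140002a0401010400010808080480080014220000084,
    0xa0, 1, 0x103243526394a3, 7,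
    [(0xa0, 1), (0x538690a2, 4), (0x548790a1, 4), (0x21437690, 4), (0x538690a2, 4), (0x548790a1, 4)],
    [(0x103243526394a3, 7), (0x517398a4, 4), (0x10627493, 4), (0x627394a8, 4), (0x10627493, 4), (0x508394a7, 4), (0x516284a9, 4), (0x627394a8, 4), (0x516284a9, 4), (0x104397a8, 4), (0x627394a8, 4), (0x508394a7, 4)]⟩

def c_915 : frmChk tA tB F_915 = true := by decide +kernel

def r_915_0 : chkL rootF engF2 tA tB sA_246 sB_246 4 F_915 [(255, 0, 0), (256, 0, 22)]
    0x112c1e0741d8b027 = true := by
  decide +kernel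

def r_915_1 : chkL rootF engF2 tA tB sA_246 sB_246 4 F_915 [(256, 22, 0)]
    0x103c2b0741e0e8364d01d = true := by
  decide +kernel

theorem f_915 (h : TabsF) : FrameF repsF 246 F_915.f :=
  frame_of rfl c_915 ((runs_of engOK r_915_0).append (runs_of engOK r_915_1)) (by decide +kernel) h.1 h.2

def F_916 : FrX :=
  ⟨0x482000044040440000c2040020009000182040020002080100100208080427000002000088004220800020918001140100014002108000001800808082,
    0xa0, 1, 0x4364738495a8, 6,
    [(0xa0, 1), (0x538690a2, 4), (0x548790a1, 4), (0x21437690, 4), (0x538690a2, 4), (0x548790a1, 4)],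
    [(0x4364738495a8, 6), (0x206597a3, 4), (0x106598a4, 4), (0x21436587, 4), (0x206597a3, 4), (0x106598a4, 4)]⟩

def c_916 : frmChk tA tA F_916 = true := by decide +kernel

def r_916_0 : chkL rootF engF2 tA tA sA_246 sA_246 4 F_916 [(255, 0, 0), (256, 0, 20)]
    0x1078276840f03c3a = true := by
  decide +kernel

def r_916_1 : chkL rootF engF2 tA tA sA_246 sA_246 4 F_916 [(256, 20, 0)]
    0x103c3a03cc3 = true := by
  decide +kernel

theorem f_916 (h : TabsF) : FrameF repsF 246 F_916.f :=
  frame_of rfl c_916 ((runs_of engOK r_916_0).append (runs_of engOK r_916_1)) (by decide +kernel) h.1 h.1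

def F_917 : FrX :=
  ⟨0x2002000900044004000e02041000141000800040808001034008020012000240200202000880040224000100900048100100030005008008005016040010,
    0xa3, 1, 0x1042536582a3, 6,
    [(0xa3, 1), (0x208693a5, 4), (0x10548793, 4), (0x217693a4, 4), (0x208693a5, 4), (0x10548793, 4)],
    [(0x1042536582a3, 6), (0x438195a6, 4), (0x10627495, 4), (0x738095a2, 4), (0x438195a6, 4), (0x10627495, 4)]⟩

def c_917 : frmChk tA tA F_917 = true := by decide +kernel

def r_917_0 : chkL rootF engF2 tA tA sA_246 sA_246 4 F_917 [(255, 0, 0), (256, 0, 21)]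
    0x10d6b01c5b08d2b0c1ac106c470acc92343333047 = true := by
  decide +kernel

def r_917_1 : chkL rootF engF2 tA tA sA_246 sA_246 4 F_917 [(256, 21, 0)]
    0x41d = true := by
  decide +kernel

theorem f_917 (h : TabsF) : FrameF repsF 246 F_917.f :=
  frame_of rfl c_917 ((runs_of engOK r_917_0).append (runs_of engOK r_917_1)) (by decide +kernel) h.1 h.1

def F_918 : FrX :=
  ⟨0x482000044040440000c2040020009000182040020002080100100208024022008400100081040280040021808801140100002014108000044004808040,
    0xa0, 1, 0x314260768297a4, 7,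
    [(0xa0, 1), (0x538690a2, 4), (0x548790a1, 4), (0x21437690, 4), (0x538690a2, 4), (0x548790a1, 4)],
    [(0x314260768297a4, 7), (0x718695a4, 4), (0x206397a5, 4), (0x204195a7, 4), (0x206397a5, 4), (0x548391a7, 4), (0x207486a1, 4), (0x204195a7, 4), (0x207486a1, 4), (0x416375a9, 4), (0x204195a7, 4), (0x548391a7, 4)]⟩

def c_918 : frmChk tA tB F_918 = true := by decide +kernel

def r_918_0 : chkL rootF engF2 tA tB sA_246 sB_246 4 F_918 [(255, 0, 0), (256, 0, 17)]
    0x41d41c1e3150e164551541e0782d06c1e07817 = true := by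
  decide +kernel

def r_918_1 : chkL rootF engF2 tA tB sA_246 sB_246 4 F_918 [(256, 17, 0)]
    0x106c1b6a03982c3a9141e = true := by
  decide +kernel

theorem f_918 (h : TabsF) : FrameF repsF 246 F_918.f :=
  frame_of rfl c_918 ((runs_of engOK r_918_0).append (runs_of engOK r_918_1)) (by decide +kernel) h.1 h.2

def F_919 : FrX :=
  ⟨0x80080a000804040e000021010020010000020408a0001120080088100224001000001080400031012800000214001802002000380001001000a20408201,
    0xa6, 1, 0x2042506483a0, 6,
    [(0xa6, 1), (0x205396a8, 4), (0x10548796, 4), (0x214396a7, 4), (0x205396a8, 4), (0x10548796, 4)],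
    [(0x2042506483a0, 6), (0x308295a4, 4), (0x627395a1, 4), (0x41708695, 4), (0x308295a4, 4), (0x627395a1, 4)]⟩

def c_919 : frmChk tA tA F_919 = true := by decide +kernel

def r_919_0 : chkL rootF engF2 tA tA sA_246 sA_246 4 F_919 [(255, 0, 0), (256, 0, 23)]
    0x10ac4d0b42d05c5c0b81b = true := by
  decide +kernel

def r_919_1 : chkL rootF engF2 tA tA sA_246 sA_246 4 F_919 [(256, 23, 0)]
    0x42d22d32 = true := by
  decide +kernel

theorem f_919 (h : TabsF) : FrameF repsF 246 F_919.f :=
  frame_of rfl c_919 ((runs_of engOK r_919_0).append (runs_of engOK r_919_1)) (by decide +kernel) h.1 h.1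

def F_920 : FrX :=
  ⟨0x482000044040440000c2040020009000182040000821100000a00080041001010042060001c00010800460201000802080080404090080022100000450,
    0xa0, 1, 0x214252618794a6, 7,
    [(0xa0, 1), (0x538690a2, 4), (0x548790a1, 4), (0x21437690, 4), (0x538690a2, 4), (0x548790a1, 4)],
    [(0x214252618794a6, 7), (0x508497a3, 4), (0x216094a8, 4), (0x217384a9, 4), (0x216094a8, 4), (0x657483a9, 4), (0x215093a7, 4), (0x217384a9, 4), (0x215093a7, 4), (0x607398a4, 4), (0x217384a9, 4), (0x657483a9, 4)]⟩

def c_920 : frmChk tA tB F_920 = true := by decide +kernel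

def r_920_0 : chkL rootF engF2 tA tB sA_246 sB_246 4 F_920 [(255, 0, 0), (256, 0, 21)]
    0x106c1b18c59 = true := by
  decide +kernel

def r_920_1 : chkL rootF engF2 tA tB sA_246 sB_246 4 F_920 [(256, 21, 0)]
    0x105c170cc360b43631817 = true := by
  decide +kernel

theorem f_920 (h : TabsF) : FrameF repsF 246 F_920.f :=
  frame_of rfl c_920 ((runs_of engOK r_920_0).append (runs_of engOK r_920_1)) (by decide +kernel) h.1 h.2

def F_921 : FrX :=
  ⟨0x2002000900044004000e0204100014100080004080800100110104020902010100010802000604400a20020a000000801081100080041000040a00010290,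
    0xa3, 1, 0x425061708494a6, 7,
    [(0xa3, 1), (0x208693a5, 4), (0x10548793, 4), (0x217693a4, 4), (0x208693a5, 4), (0x10548793, 4)],
    [(0x425061708494a6, 7), (0x507492a3, 4), (0x768190a5, 4), (0x325081a9, 4), (0x768190a5, 4), (0x205364a9, 4), (0x748193a2, 4), (0x325081a9, 4), (0x748193a2, 4), (0x327695a0, 4), (0x325081a9, 4), (0x205364a9, 4)]⟩

def c_921 : frmChk tA tB F_921 = true := by decide +kernel

def r_921_0 : chkL rootF engF2 tA tB sA_246 sB_246 4 F_921 [(255, 0, 0), (256, 0, 15)]
    0x105c8b44d1a0740f03e25 = true := by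
  decide +kernel

def r_921_1 : chkL rootF engF2 tA tB sA_246 sB_246 4 F_921 [(256, 15, 15)]
    0x10ac0f = true := by
  decide +kernel

def r_921_2 : chkL rootF engF2 tA tB sA_246 sB_246 4 F_921 [(256, 30, 0)]
    0x103c1b = true := by
  decide +kernel

theorem f_921 (h : TabsF) : FrameF repsF 246 F_921.f :=
  frame_of rfl c_921 ((runs_of engOK r_921_0).append ((runs_of engOK r_921_1).append (runs_of engOK r_921_2))) (by decide +kernel) h.1 h.2

theorem cl_246 (h : TabsF) : ∀ f ∈ fr_246, FrameF repsF 246 f :=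
  List.forall_mem_cons.2 ⟨f_894 h, List.forall_mem_cons.2 ⟨f_895 h, List.forall_mem_cons.2 ⟨f_896 h, List.forall_mem_cons.2 ⟨f_897 h, List.forall_mem_cons.2 ⟨f_898 h, List.forall_mem_cons.2 ⟨f_899 h, List.forall_mem_cons.2 ⟨f_900 h, List.forall_mem_cons.2 ⟨f_901 h, List.forall_mem_cons.2 ⟨f_902 h, List.forall_mem_cons.2 ⟨f_903 h, List.forall_mem_cons.2 ⟨f_904 h, List.forall_mem_cons.2 ⟨f_905 h, List.forall_mem_cons.2 ⟨f_906 h, List.forall_mem_cons.2 ⟨f_907 h, List.forall_mem_cons.2 ⟨f_908 h, List.forall_mem_cons.2 ⟨f_909 h, List.forall_mem_cons.2 ⟨f_910 h, List.forall_mem_cons.2 ⟨f_911 h, List.forall_mem_cons.2 ⟨f_912 h, List.forall_mem_cons.2 ⟨f_913 h, List.forall_mem_cons.2 ⟨f_914 h, List.forall_mem_cons.2 ⟨f_915 h, List.forall_mem_cons.2 ⟨f_916 h, List.forall_mem_cons.2 ⟨f_917 h, List.forall_mem_cons.2 ⟨f_918 h, List.forall_mem_cons.2 ⟨f_919 h, List.forall_mem_cons.2 ⟨f_920 h, List.forall_mem_cons.2 ⟨f_921 h,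
    fun _ h0 => absurd h0 List.not_mem_nil⟩⟩⟩⟩⟩⟩⟩⟩⟩⟩⟩⟩⟩⟩⟩⟩⟩⟩⟩⟩⟩⟩⟩⟩⟩⟩⟩⟩

/-- the classes finished in this module -/
theorem all_L10 (h : TabsF) : ∀ p ∈ ([(242, fr_242), (243, fr_243), (244, fr_244), (245, fr_245), (246, fr_246)] : List (ℕ × List ℕ)),
    ∀ f ∈ p.2, FrameF repsF p.1 f :=
  List.forall_mem_cons.2 ⟨cl_242 h, List.forall_mem_cons.2 ⟨cl_243 h, List.forall_mem_cons.2 ⟨cl_244 h, List.forall_mem_cons.2 ⟨cl_245 h, List.forall_mem_cons.2 ⟨cl_246 h, fun _ h0 => absurd h0 List.not_mem_nil⟩⟩⟩⟩⟩

end Pool.Agent.Gen.TY.F
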