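import Pool.Agent.Helper20.TY.EngF
import Pool.Agent.Helper20.TY.TabG
import Pool.Agent.Gen.TY.FS.SufA
import Pool.Agent.Gen.TY.FS.SufB
import Pool.Agent.Gen.TY.FR.Dat

/-!
MP_8ee768_co, project TH-Y', stage F: frames.
-/

set_option autoImplicit false

namespace Pool.Agent.Gen.TY.F

open Pool.Agent.Helper79.CV
open Pool.Agent.Helper20.TY
open Pool.Agent.Helper20.TY.EngF
open Pool.Agent.Gen.TY.FS
open Pool.Agent.Gen.TY.FR

def F_922 : FrX :=
  ⟨0x1c2102000004044000002041000101000082040884200080001400008000c0003101402030400420a0000088022008010001410840900020008a0200080,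
    0x0, 0, 0x206384, 3,
    [(0x0, 0), (0x205386a9, 4), (0x105487a9, 4), (0x214376a9, 4), (0x205386a9, 4), (0x105487a9, 4)],
    [(0x206384, 3), (0x204365a9, 4), (0x217485a9, 4), (0x107386a9, 4), (0x204365a9, 4), (0x217485a9, 4)]⟩

def c_922 : frmChk tA tA F_922 = true := by decide +kernel

def r_922_0 : chkL rootF engF2 tA tA sA_247 sA_247 4 F_922 [(255, 0, 0), (256, 0, 10)]
    0x42b05c1b06c1b1558a05c8e384b405c1709c0f = true := by
  decide +kernel

def r_922_1 : chkL rootF engF2 tA tA sA_247 sA_247 4 F_922 [(256, 10, 5)]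
    0x10ac1706c17 = true := by
  decide +kernel

def r_922_2 : chkL rootF engF2 tA tA sA_247 sA_247 4 F_922 [(256, 15, 4)]
    0x10ac2b06c5314c270ac5a0ac2b = true := by
  decide +kernel

def r_922_3 : chkL rootF engF2 tA tA sA_247 sA_247 4 F_922 [(256, 19, 5)]
    0x60b0ac2b0ac0f17053 = true := by
  decide +kernel

def r_922_4 : chkL rootF engF2 tA tA sA_247 sA_247 4 F_922 [(256, 24, 10)]
    0x19184e06c1e074170cc1e = true := by
  decide +kernel

def r_922_5 : chkL rootF engF2 tA tA sA_247 sA_247 4 F_922 [(256, 34, 0)]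
    0x1a180f = true := by
  decide +kernel

theorem f_922 (h : TabsF) : FrameF repsF 247 F_922.f :=
  frame_of rfl c_922 ((runs_of engOK r_922_0).append ((runs_of engOK r_922_1).append ((runs_of engOK r_922_2).append ((runs_of engOK r_922_3).append ((runs_of engOK r_922_4).append (runs_of engOK r_922_5)))))) (by decide +kernel) h.1 h.1

def F_923 : FrX :=
  ⟨0x482000044040440000c2040020009000182040000881040002200088040021010802010080020100080200508001009880010140050120004200010082,
    0xa0, 1, 0x102130537197a8, 7,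
    [(0xa0, 1), (0x538690a2, 4), (0x548790a1, 4), (0x21437690, 4), (0x538690a2, 4), (0x548790a1, 4)],
    [(0x102130537197a8, 7), (0x305182a6, 4), (0x417382a9, 4), (0x54708296, 4), (0x305182a6, 4), (0x417382a9, 4)]⟩

def c_923 : frmChk tA tA F_923 = true := by decide +kernel

def r_923_0 : chkL rootF engF2 tA tA sA_247 sA_247 4 F_923 [(255, 0, 0), (256, 0, 24)]
    0x10781e1982e0b929 = true := by
  decide +kernel

def r_923_1 : chkL rootF engF2 tA tA sA_247 sA_247 4 F_923 [(256, 24, 0)]
    0x10e80f44d0b0d685a9087 = true := by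
  decide +kernel

theorem f_923 (h : TabsF) : FrameF repsF 247 F_923.f :=
  frame_of rfl c_923 ((runs_of engOK r_923_0).append (runs_of engOK r_923_1)) (by decide +kernel) h.1 h.1

def F_924 : FrX :=
  ⟨0x482000044040440000c20400200090001820400008810400022000880400210108020340a0000000180200508000008880010140050120004200010082,
    0xa0, 1, 0x213261718797a6, 7,
    [(0xa0, 1), (0x538690a2, 4), (0x548790a1, 4), (0x21437690, 4), (0x538690a2, 4), (0x548790a1, 4)],
    [(0x213261718797a6, 7), (0x305182a6, 4), (0x54708296, 4), (0x417382a9, 4), (0x305182a6, 4), (0x54708296, 4)]⟩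

def c_924 : frmChk tA tA F_924 = true := by decide +kernel

def r_924_0 : chkL rootF engF2 tA tA sA_247 sA_247 4 F_924 [(255, 0, 0), (256, 0, 24)]
    0x4361383503d29 = true := by
  decide +kernel

def r_924_1 : chkL rootF engF2 tA tA sA_247 sA_247 4 F_924 [(256, 24, 0)]
    0x41e0ac1e28c2e = true := by
  decide +kernel

theorem f_924 (h : TabsF) : FrameF repsF 247 F_924.f :=
  frame_of rfl c_924 ((runs_of engOK r_924_0).append (runs_of engOK r_924_1)) (by decide +kernel) h.1 h.1

def F_925 : FrX :=
  ⟨0x2002000900044004000e0204100014100080004081000008110080240101040202002400400400420a000808800008802088140005080000040880244040,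
    0xa3, 1, 0x203262708195a8, 7,
    [(0xa3, 1), (0x208693a5, 4), (0x10548793, 4), (0x217693a4, 4), (0x208693a5, 4), (0x10548793, 4)],
    [(0x203262708195a8, 7), (0x517690a3, 4), (0x518794a2, 4), (0x32405186, 4), (0x517690a3, 4), (0x518794a2, 4)]⟩

def c_925 : frmChk tA tA F_925 = true := by decide +kernel

def r_925_0 : chkL rootF engF2 tA tA sA_247 sA_247 4 F_925 [(255, 0, 0), (256, 0, 20)]
    0x10b43a = true := by
  decide +kernel

def r_925_1 : chkL rootF engF2 tA tA sA_247 sA_247 4 F_925 [(256, 20, 0)]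
    0x40f0e40f1c86c09c66 = true := by
  decide +kernel

theorem f_925 (h : TabsF) : FrameF repsF 247 F_925.f :=
  frame_of rfl c_925 ((runs_of engOK r_925_0).append (runs_of engOK r_925_1)) (by decide +kernel) h.1 h.1

def F_926 : FrX :=
  ⟨0x2002000900044004000e02041000141000800040810000081100802401010402020024020204804a0a000008800000802080140005080000040880244040,
    0xa3, 1, 0x315060728193a6, 7,
    [(0xa3, 1), (0x208693a5, 4), (0x10548793, 4), (0x217693a4, 4), (0x208693a5, 4), (0x10548793, 4)],
    [(0x315060728193a6, 7), (0x517690a3, 4), (0x32405186, 4), (0x518794a2, 4), (0x517690a3, 4), (0x32405186, 4)]⟩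

def c_926 : frmChk tA tA F_926 = true := by decide +kernel

def r_926_0 : chkL rootF engF2 tA tA sA_247 sA_247 4 F_926 [(255, 0, 0), (256, 0, 20)]
    0x43503c0f03c2d11c27 = true := by
  decide +kernel

def r_926_1 : chkL rootF engF2 tA tA sA_247 sA_247 4 F_926 [(256, 20, 0)]
    0x106cc303d1a03c27 = true := by
  decide +kernel

theorem f_926 (h : TabsF) : FrameF repsF 247 F_926.f :=
  frame_of rfl c_926 ((runs_of engOK r_926_0).append (runs_of engOK r_926_1)) (by decide +kernel) h.1 h.1

def F_927 : FrX :=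
  ⟨0x80080a000804040e00002101002001000002040881200002220008100414001041000050100004000890000128018000c200900410000a1004040600200,
    0xa6, 1, 0x2162748092a4, 6,
    [(0xa6, 1), (0x205396a8, 4), (0x10548796, 4), (0x214396a7, 4), (0x205396a8, 4), (0x10548796, 4)],
    [(0x2162748092a4, 6), (0x315498a0, 4), (0x417682a5, 4), (0x305476a1, 4), (0x417682a5, 4), (0x435092a1, 4), (0x107698a3, 4), (0x305476a1, 4), (0x107698a3, 4), (0x305182a4, 4), (0x305476a1, 4), (0x435092a1, 4)]⟩

def c_927 : frmChk tA tB F_927 = true := by decide +kernel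

def r_927_0 : chkL rootF engF2 tA tB sA_247 sB_247 4 F_927 [(255, 0, 0), (256, 0, 16)]
    0x10d41e07853074531c5230d8360d4350d8740d8350d4363481b06c530b54c = true := by
  decide +kernel

def r_927_1 : chkL rootF engF2 tA tB sA_247 sB_247 4 F_927 [(256, 16, 12)]
    0x10d83624c5a0d8360d80f03c1e0e82b079130781e22c7403c2d = true := by
  decide +kernel

def r_927_2 : chkL rootF engF2 tA tB sA_247 sB_247 4 F_927 [(256, 28, 0)]
    0x43a0d41d074170d81b0d84e06c5514ea8549c222c17 = true := by
  decide +kernel

theorem f_927 (h : TabsF) : FrameF repsF 247 F_927.f :=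
  frame_of rfl c_927 ((runs_of engOK r_927_0).append ((runs_of engOK r_927_1).append (runs_of engOK r_927_2))) (by decide +kernel) h.1 h.2

def F_928 : FrX :=
  ⟨0x2002000900044004000e02041000141000800040802000224004400209008080040202010080004800880202020008040c01011001041020001210008210,
    0xa3, 1, 0x30435264718290a2, 8,
    [(0xa3, 1), (0x208693a5, 4), (0x10548793, 4), (0x217693a4, 4), (0x208693a5, 4), (0x10548793, 4)],
    [(0x30435264718290a2, 8), (0x214065a9, 4), (0x10628397, 4), (0x21546083, 4), (0x10628397, 4), (0x415260a7, 4), (0x506483a9, 4), (0x21546083, 4), (0x506483a9, 4), (0x20546197, 4), (0x21546083, 4), (0x415260a7, 4)]⟩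

def c_928 : frmChk tA tB F_928 = true := by decide +kernel

def r_928_0 : chkL rootF engF2 tA tB sA_247 sB_247 4 F_928 [(511, 0, 0)]
    0x10f00fe101b03d6805c1706c4d0f00f07515 = true := by
  decide +kernel

theorem f_928 (h : TabsF) : FrameF repsF 247 F_928.f :=
  frame_of rfl c_928 (runs_of engOK r_928_0) (by decide +kernel) h.1 h.2

def F_929 : FrX :=
  ⟨0x482000044040440000c204002000900018204000090080800802008000018820082040090400020200010088022000200400504041010c200088010808,
    0xa0, 1, 0x104352608398a6, 7,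
    [(0xa0, 1), (0x538690a2, 4), (0x548790a1, 4), (0x21437690, 4), (0x538690a2, 4), (0x548790a1, 4)],
    [(0x104352608398a6, 7), (0x416582a9, 4), (0x32416097, 4), (0x415083a7, 4), (0x416582a9, 4), (0x32416097, 4)]⟩

def c_929 : frmChk tA tA F_929 = true := by decide +kernel

def r_929_0 : chkL rootF engF2 tA tA sA_247 sA_247 4 F_929 [(255, 0, 0), (256, 0, 24)]
    0x43505d5806c4e03c1709c334386c03c0f = true := by
  decide +kernel

def r_929_1 : chkL rootF engF2 tA tA sA_247 sA_247 4 F_929 [(256, 24, 0)]
    0x105c0f0cc5309c9509c17078390b40f = true := by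
  decide +kernel

theorem f_929 (h : TabsF) : FrameF repsF 247 F_929.f :=
  frame_of rfl c_929 ((runs_of engOK r_929_0).append (runs_of engOK r_929_1)) (by decide +kernel) h.1 h.1

def F_930 : FrX :=
  ⟨0x482000044040440000c2040020009000182040000881040004020400010050010088410080020100080200508010000280008222080824040002500011,
    0xa0, 1, 0x103043738197a2, 7,
    [(0xa0, 1), (0x538690a2, 4), (0x548790a1, 4), (0x21437690, 4), (0x538690a2, 4), (0x548790a1, 4)],
    [(0x103043738197a2, 7), (0x426075a3, 4), (0x42518390, 4), (0x427196a8, 4), (0x426075a3, 4), (0x42518390, 4)]⟩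

def c_930 : frmChk tA tA F_930 = true := by decide +kernel

def r_930_0 : chkL rootF engF2 tA tA sA_247 sA_247 4 F_930 [(255, 0, 0), (256, 0, 19)]
    0x105c8b0741d2347109c4b = true := by
  decide +kernel

def r_930_1 : chkL rootF engF2 tA tA sA_247 sA_247 4 F_930 [(256, 19, 0)]
    0x465074170741706c1d0d84e = true := by
  decide +kernel

theorem f_930 (h : TabsF) : FrameF repsF 247 F_930.f :=
  frame_of rfl c_930 ((runs_of engOK r_930_0).append (runs_of engOK r_930_1)) (by decide +kernel) h.1 h.1

def F_931 : FrX :=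
  ⟨0x2002000900044004000e0204100014100080004081000008110100220902010104000800400400420a000808800020008004220002001042000c08080a84,
    0xa3, 1, 0x324251647098a5, 7,
    [(0xa3, 1), (0x208693a5, 4), (0x10548793, 4), (0x217693a4, 4), (0x208693a5, 4), (0x10548793, 4)],
    [(0x324251647098a5, 7), (0x748193a2, 4), (0x758190a6, 4), (0x30546281, 4), (0x748193a2, 4), (0x758190a6, 4)]⟩

def c_931 : frmChk tA tA F_931 = true := by decide +kernel

def r_931_0 : chkL rootF engF2 tA tA sA_247 sA_247 4 F_931 [(511, 0, 0)]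
    0x11c80f0ac0f24c3a = true := by
  decide +kernel

theorem f_931 (h : TabsF) : FrameF repsF 247 F_931.f :=
  frame_of rfl c_931 (runs_of engOK r_931_0) (by decide +kernel) h.1 h.1

def F_932 : FrX :=
  ⟨0x80080a000804040e000021010020010000020408900800004840041004100080044030008020820000808010804028000842000405020005011040400c0,
    0xa6, 1, 0x325064758197a6, 7,
    [(0xa6, 1), (0x205396a8, 4), (0x10548796, 4), (0x214396a7, 4), (0x205396a8, 4), (0x10548796, 4)],
    [(0x325064758197a6, 7), (0x405372a1, 4), (0x40768591, 4), (0x406283a9, 4), (0x405372a1, 4), (0x40768591, 4)]⟩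

def c_932 : frmChk tA tA F_932 = true := by decide +kernel

def r_932_0 : chkL rootF engF2 tA tA sA_247 sA_247 4 F_932 [(255, 0, 0), (256, 0, 18)]
    0x114c1e1341d18c1d = true := by
  decide +kernel

def r_932_1 : chkL rootF engF2 tA tA sA_247 sA_247 4 F_932 [(256, 18, 0)]
    0x40f06c1b1e1195601e0e84d0b84d0781e = true := by
  decide +kernel

theorem f_932 (h : TabsF) : FrameF repsF 247 F_932.f :=
  frame_of rfl c_932 ((runs_of engOK r_932_0).append (runs_of engOK r_932_1)) (by decide +kernel) h.1 h.1

def F_933 : FrX :=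
  ⟨0x80080a000804040e000021010020010000020408900100c1010000420404001040800040808010842010000014110002020090084000088802040600180,
    0xa6, 1, 0x1030435183a1, 6,
    [(0xa6, 1), (0x205396a8, 4), (0x10548796, 4), (0x214396a7, 4), (0x205396a8, 4), (0x10548796, 4)],
    [(0x1030435183a1, 6), (0x32417086, 4), (0x107695a3, 4), (0x61708495, 4), (0x107695a3, 4), (0x406187a2, 4), (0x32648195, 4), (0x61708495, 4), (0x32648195, 4), (0x607184a3, 4), (0x61708495, 4), (0x406187a2, 4)]⟩

def c_933 : frmChk tA tB F_933 = true := by decide +kernel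

def r_933_0 : chkL rootF engF2 tA tB sA_247 sB_247 4 F_933 [(255, 0, 0), (256, 0, 21)]
    0x59128c6514c330cc1d03c1d5505c06c270f01e = true := by
  decide +kernel

def r_933_1 : chkL rootF engF2 tA tB sA_247 sB_247 4 F_933 [(256, 21, 0)]
    0x4330ac1d1d02b = true := by
  decide +kernel

theorem f_933 (h : TabsF) : FrameF repsF 247 F_933.f :=
  frame_of rfl c_933 ((runs_of engOK r_933_0).append (runs_of engOK r_933_1)) (by decide +kernel) h.1 h.2

def F_934 : FrX :=
  ⟨0x80080a000804040e000021010020010000020408820120000900204004040100400c042000400400a00800080220000a100101041240404000805080a00,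
    0xa6, 1, 0x2141506292a1, 6,
    [(0xa6, 1), (0x205396a8, 4), (0x10548796, 4), (0x214396a7, 4), (0x205396a8, 4), (0x10548796, 4)],
    [(0x2141506292a1, 6), (0x31708295, 4), (0x206471a5, 4), (0x21647083, 4), (0x206471a5, 4), (0x217380a9, 4), (0x32648195, 4), (0x21647083, 4), (0x32648195, 4), (0x107283a5, 4), (0x21647083, 4), (0x217380a9, 4)]⟩

def c_934 : frmChk tA tB F_934 = true := by decide +kernel

def r_934_0 : chkL rootF engF2 tA tB sA_247 sB_247 4 F_934 [(255, 0, 0), (256, 0, 22)]
    0x106c0f2c85a1c81b0d4350ccca0ac5a = true := by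
  decide +kernel

def r_934_1 : chkL rootF engF2 tA tB sA_247 sB_247 4 F_934 [(256, 22, 0)]
    0x41b06c1b0e523255328942788c5a4981b = true := by
  decide +kernel

theorem f_934 (h : TabsF) : FrameF repsF 247 F_934.f :=
  frame_of rfl c_934 ((runs_of engOK r_934_0).append (runs_of engOK r_934_1)) (by decide +kernel) h.1 h.2

def F_935 : FrX :=
  ⟨0x2002000900044004000e020410001410008000408004020202900404008008810002040040440004800200224010100002800880220400005012000c0041,
    0xa3, 1, 0x305481a3, 4,
    [(0xa3, 1), (0x208693a5, 4), (0x10548793, 4), (0x217693a4, 4), (0x208693a5, 4), (0x10548793, 4)],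
    [(0x305481a3, 4), (0x326190a4, 4), (0x54718390, 4), (0x768290a5, 4), (0x326190a4, 4), (0x54718390, 4)]⟩

def c_935 : frmChk tA tA F_935 = true := by decide +kernel

def r_935_0 : chkL rootF engF2 tA tA sA_247 sA_247 4 F_935 [(255, 0, 0), (256, 0, 19)]
    0x111e4306e296241b12c33 = true := by
  decide +kernel

def r_935_1 : chkL rootF engF2 tA tA sA_247 sA_247 4 F_935 [(256, 19, 22)]
    0x5521581e06ca3 = true := by
  decide +kernel

def r_935_2 : chkL rootF engF2 tA tA sA_247 sA_247 4 F_935 [(256, 41, 0)]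
    0x1 = true := by
  decide +kernel

theorem f_935 (h : TabsF) : FrameF repsF 247 F_935.f :=
  frame_of rfl c_935 ((runs_of engOK r_935_0).append ((runs_of engOK r_935_1).append (runs_of engOK r_935_2))) (by decide +kernel) h.1 h.1

def F_936 : FrX :=
  ⟨0x2002000900044004000e02041000141000800040800400484020004200014048100080210100011000180008822040024300081020080808000002224004,
    0xa3, 1, 0x5162768391a8, 6,
    [(0xa3, 1), (0x208693a5, 4), (0x10548793, 4), (0x217693a4, 4), (0x208693a5, 4), (0x10548793, 4)],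
    [(0x5162768391a8, 6), (0x536081a7, 4), (0x415390a2, 4), (0x53728496, 4), (0x536081a7, 4), (0x415390a2, 4)]⟩

def c_936 : frmChk tA tA F_936 = true := by decide +kernel

def r_936_0 : chkL rootF engF2 tA tA sA_247 sA_247 4 F_936 [(255, 0, 0), (256, 0, 21)]
    0x10b42d074360741e868170d4350ad340742b0ac35 = true := by
  decide +kernel

def r_936_1 : chkL rootF engF2 tA tA sA_247 sA_247 4 F_936 [(256, 21, 0)]
    0x543 = true := by
  decide +kernel

theorem f_936 (h : TabsF) : FrameF repsF 247 F_936.f :=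
  frame_of rfl c_936 ((runs_of engOK r_936_0).append (runs_of engOK r_936_1)) (by decide +kernel) h.1 h.1

def F_937 : FrX :=
  ⟨0x2002000900044004000e020410001410008000408080004c1000a00010812001000004101100008180400400019020040000091005002200401140011001,
    0xa3, 1, 0x1030415381a3, 6,
    [(0xa3, 1), (0x208693a5, 4), (0x10548793, 4), (0x217693a4, 4), (0x208693a5, 4), (0x10548793, 4)],
    [(0x1030415381a3, 6), (0x326495a1, 4), (0x10748395, 4), (0x768295a0, 4), (0x326495a1, 4), (0x10748395, 4)]⟩

def c_937 : frmChk tA tA F_937 = true := by decide +kernel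

def r_937_0 : chkL rootF engF2 tA tA sA_247 sA_247 4 F_937 [(255, 0, 0), (256, 0, 22)]
    0x106f09c301b0ae8607817c1b0c8344d07835 = true := by
  decide +kernel

def r_937_1 : chkL rootF engF2 tA tA sA_247 sA_247 4 F_937 [(256, 22, 0)]
    0x41705ce4 = true := by
  decide +kernel

theorem f_937 (h : TabsF) : FrameF repsF 247 F_937.f :=
  frame_of rfl c_937 ((runs_of engOK r_937_0).append (runs_of engOK r_937_1)) (by decide +kernel) h.1 h.1

def F_938 : FrX :=
  ⟨0x80080a000804040e0000210100200100000204089008000048401000822000800801301000003010008810082804402022100204001000a0022100c0000,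
    0xa6, 1, 0x213054608291a3, 7,
    [(0xa6, 1), (0x205396a8, 4), (0x10548796, 4), (0x214396a7, 4), (0x205396a8, 4), (0x10548796, 4)],
    [(0x213054608291a3, 7), (0x517486a3, 4), (0x20547396, 4), (0x205374a1, 4), (0x20547396, 4), (0x415398a7, 4), (0x203186a5, 4), (0x205374a1, 4), (0x203186a5, 4), (0x437596a1, 4), (0x205374a1, 4), (0x415398a7, 4)]⟩

def c_938 : frmChk tA tB F_938 = true := by decide +kernel

def r_938_0 : chkL rootF engF2 tA tB sA_247 sB_247 4 F_938 [(255, 0, 0), (256, 0, 9)]
    0x5548d20e8581b1581b1981b = true := by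
  decide +kernel

def r_938_1 : chkL rootF engF2 tA tB sA_247 sB_247 4 F_938 [(256, 9, 17)]
    0x4a90b87155059 = true := by
  decide +kernel

def r_938_2 : chkL rootF engF2 tA tB sA_247 sB_247 4 F_938 [(256, 26, 0)]
    0x1710d10b459e10173443521c350d42b0760b9258612c5c = true := by
  decide +kernel

theorem f_938 (h : TabsF) : FrameF repsF 247 F_938.f :=
  frame_of rfl c_938 ((runs_of engOK r_938_0).append ((runs_of engOK r_938_1).append (runs_of engOK r_938_2))) (by decide +kernel) h.1 h.2

def F_939 : FrX :=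
  ⟨0x482000044040440000c2040020009000182040010080020801000808040044220400042008004110000811016008208014008002200200101020008082,
    0xa0, 1, 0x42708297a4, 5,
    [(0xa0, 1), (0x538690a2, 4), (0x548790a1, 4), (0x21437690, 4), (0x538690a2, 4), (0x548790a1, 4)],
    [(0x42708297a4, 5), (0x638795a4, 4), (0x207196a5, 4), (0x204395a6, 4), (0x207196a5, 4), (0x548193a6, 4), (0x206487a3, 4), (0x204395a6, 4), (0x206487a3, 4), (0x436571a9, 4), (0x204395a6, 4), (0x548193a6, 4)]⟩

def c_939 : frmChk tA tB F_939 = true := by decide +kernel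

def r_939_0 : chkL rootF engF2 tA tB sA_247 sB_247 4 F_939 [(255, 0, 0), (256, 0, 24)]
    0x41e03c0f0e80f079c406c0f44e5403c17 = true := by
  decide +kernel

def r_939_1 : chkL rootF engF2 tA tB sA_247 sB_247 4 F_939 [(256, 24, 0)]
    0x41e03c3a12c351380f = true := by
  decide +kernel

theorem f_939 (h : TabsF) : FrameF repsF 247 F_939.f :=
  frame_of rfl c_939 ((runs_of engOK r_939_0).append (runs_of engOK r_939_1)) (by decide +kernel) h.1 h.2

def F_940 : FrX :=
  ⟨0x2002000900044004000e020410001410008000408080004c1000a00010812001000004101100008180400400019020040000a11004002200401140049000,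
    0xa3, 1, 0x1030415381a3, 6,
    [(0xa3, 1), (0x208693a5, 4), (0x10548793, 4), (0x217693a4, 4), (0x208693a5, 4), (0x10548793, 4)],
    [(0x1030415381a3, 6), (0x326495a1, 4), (0x10748395, 4), (0x768295a0, 4), (0x326495a1, 4), (0x10748395, 4)]⟩

def c_940 : frmChk tA tA F_940 = true := by decide +kernel

def r_940_0 : chkL rootF engF2 tA tA sA_247 sA_247 4 F_940 [(255, 0, 0), (256, 0, 22)]
    0x4990ac1e0ba15 = true := by
  decide +kernel

def r_940_1 : chkL rootF engF2 tA tA sA_247 sA_247 4 F_940 [(256, 22, 0)]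
    0x112d0b1581d = true := by
  decide +kernel

theorem f_940 (h : TabsF) : FrameF repsF 247 F_940.f :=
  frame_of rfl c_940 ((runs_of engOK r_940_0).append (runs_of engOK r_940_1)) (by decide +kernel) h.1 h.1

def F_941 : FrX :=
  ⟨0x2002000900044004000e020410001410008000408004004840200042000140481000802101a0005000180000822000024300001020480808000002224004,
    0xa3, 1, 0x5162768391a8, 6,
    [(0xa3, 1), (0x208693a5, 4), (0x10548793, 4), (0x217693a4, 4), (0x208693a5, 4), (0x10548793, 4)],
    [(0x5162768391a8, 6), (0x536081a7, 4), (0x415390a2, 4), (0x53728496, 4), (0x536081a7, 4), (0x415390a2, 4)]⟩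

def c_941 : frmChk tA tA F_941 = true := by decide +kernel

def r_941_0 : chkL rootF engF2 tA tA sA_247 sA_247 4 F_941 [(255, 0, 0), (256, 0, 20)]
    0x11990ea283c0e9b04684748f302c8356c04711f0a0e93819417318650d8350cc3905c170750d12c2ba511c = true := by
  decide +kernel

def r_941_1 : chkL rootF engF2 tA tA sA_247 sA_247 4 F_941 [(256, 20, 0)]
    0x4390d433 = true := by
  decide +kernel

theorem f_941 (h : TabsF) : FrameF repsF 247 F_941.f :=
  frame_of rfl c_941 ((runs_of engOK r_941_0).append (runs_of engOK r_941_1)) (by decide +kernel) h.1 h.1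

def F_942 : FrX :=
  ⟨0x80080a000804040e0000210100200100000204089148000040401000022000800801301000002410008810082800402022100204041000a0022100c0000,
    0xa6, 1, 0x10206285a5, 5,
    [(0xa6, 1), (0x205396a8, 4), (0x10548796, 4), (0x214396a7, 4), (0x205396a8, 4), (0x10548796, 4)],
    [(0x10206285a5, 5), (0x315462a7, 4), (0x207198a4, 4), (0x415398a7, 4), (0x207198a4, 4), (0x416073a5, 4), (0x43516298, 4), (0x415398a7, 4), (0x43516298, 4), (0x205374a1, 4), (0x415398a7, 4), (0x416073a5, 4)]⟩

def c_942 : frmChk tA tB F_942 = true := by decide +kernel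

def r_942_0 : chkL rootF engF2 tA tB sA_247 sB_247 4 F_942 [(255, 0, 0), (256, 0, 13)]
    0x15288b62a0b22e4a = true := by
  decide +kernel

def r_942_1 : chkL rootF engF2 tA tB sA_247 sB_247 4 F_942 [(256, 13, 15)]
    0x4ac154470790709c555487141c651541d470550741d = true := by
  decide +kernel

def r_942_2 : chkL rootF engF2 tA tB sA_247 sB_247 4 F_942 [(256, 28, 0)]
    0x10ac1d074551344d0744d5515211c471345513455435521c51c0b84d1986a = true := by
  decide +kernel

theorem f_942 (h : TabsF) : FrameF repsF 247 F_942.f :=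
  frame_of rfl c_942 ((runs_of engOK r_942_0).append ((runs_of engOK r_942_1).append (runs_of engOK r_942_2))) (by decide +kernel) h.1 h.2

def F_943 : FrX :=
  ⟨0x482000044040440000c2040020009000182040000880880000880800010410030020410100008700000400822210002020046010100020040804800048,
    0xa0, 1, 0x43638092a3, 5,
    [(0xa0, 1), (0x538690a2, 4), (0x548790a1, 4), (0x21437690, 4), (0x538690a2, 4), (0x548790a1, 4)],
    [(0x43638092a3, 5), (0x307598a4, 4), (0x53627481, 4), (0x436275a0, 4), (0x53627481, 4), (0x435091a7, 4), (0x406298a3, 4), (0x436275a0, 4), (0x406298a3, 4), (0x547381a0, 4), (0x436275a0, 4), (0x435091a7, 4)]⟩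

def c_943 : frmChk tA tB F_943 = true := by decide +kernel

def r_943_0 : chkL rootF engF2 tA tB sA_247 sB_247 4 F_943 [(255, 0, 0), (256, 0, 19)]
    0x42705d9422c1b0cc2d05c598343306c171344b3244e = true := by
  decide +kernel

def r_943_1 : chkL rootF engF2 tA tB sA_247 sB_247 4 F_943 [(256, 19, 0)]
    0x10b41705c1b348271981b0d40f = true := by
  decide +kernel

theorem f_943 (h : TabsF) : FrameF repsF 247 F_943.f :=
  frame_of rfl c_943 ((runs_of engOK r_943_0).append (runs_of engOK r_943_1)) (by decide +kernel) h.1 h.2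

def F_944 : FrX :=
  ⟨0x1c21020000040440000020410001010000820408a0001100000400110202100008214000084049010040004083110400200208080090008004224088000,
    0x0, 0, 0x206483, 3,
    [(0x0, 0), (0x205386a9, 4), (0x105487a9, 4), (0x214376a9, 4), (0x205386a9, 4), (0x105487a9, 4)],
    [(0x206483, 3), (0x204385a9, 4), (0x216573a9, 4), (0x107486a9, 4), (0x204385a9, 4), (0x216573a9, 4)]⟩

def c_944 : frmChk tA tA F_944 = true := by decide +kernel

def r_944_0 : chkL rootF engF2 tA tA sA_247 sA_247 4 F_944 [(255, 0, 0), (256, 0, 5)]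
    0x1 = true := by
  decide +kernel

def r_944_1 : chkL rootF engF2 tA tA sA_247 sA_247 4 F_944 [(256, 5, 17)]
    0x109c1d03c2b06c5688e07 = true := by
  decide +kernel

def r_944_2 : chkL rootF engF2 tA tA sA_247 sA_247 4 F_944 [(256, 22, 6)]
    0x1 = true := by
  decide +kernel

def r_944_3 : chkL rootF engF2 tA tA sA_247 sA_247 4 F_944 [(256, 28, 4)]
    0x141da409c2709c2781c1709c1789a07 = true := by
  decide +kernel

def r_944_4 : chkL rootF engF2 tA tA sA_247 sA_247 4 F_944 [(256, 32, 5)]
    0x1 = true := by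
  decide +kernel

def r_944_5 : chkL rootF engF2 tA tA sA_247 sA_247 4 F_944 [(256, 37, 0)]
    0x1 = true := by
  decide +kernel

theorem f_944 (h : TabsF) : FrameF repsF 247 F_944.f :=
  frame_of rfl c_944 ((runs_of engOK r_944_0).append ((runs_of engOK r_944_1).append ((runs_of engOK r_944_2).append ((runs_of engOK r_944_3).append ((runs_of engOK r_944_4).append (runs_of engOK r_944_5)))))) (by decide +kernel) h.1 h.1

def F_945 : FrX :=
  ⟨0x482000044040440000c2040020009000182040010020082001000180080102814020000804041010000030408020040094008000400904010a00200045,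
    0xa0, 1, 0x41517594a6, 5,
    [(0xa0, 1), (0x538690a2, 4), (0x548790a1, 4), (0x21437690, 4), (0x538690a2, 4), (0x548790a1, 4)],
    [(0x41517594a6, 5), (0x207498a3, 4), (0x506197a4, 4), (0x617483a9, 4), (0x506197a4, 4), (0x435287a9, 4), (0x206193a8, 4), (0x617483a9, 4), (0x206193a8, 4), (0x508394a7, 4), (0x617483a9, 4), (0x435287a9, 4)]⟩

def c_945 : frmChk tA tB F_945 = true := by decide +kernel

def r_945_0 : chkL rootF engF2 tA tB sA_247 sB_247 4 F_945 [(255, 0, 0), (256, 0, 21)]
    0x105c17 = true := by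
  decide +kernel

def r_945_1 : chkL rootF engF2 tA tB sA_247 sB_247 4 F_945 [(256, 21, 0)]
    0x105c1705c1705d15 = true := by
  decide +kernel

theorem f_945 (h : TabsF) : FrameF repsF 247 F_945.f :=
  frame_of rfl c_945 ((runs_of engOK r_945_0).append (runs_of engOK r_945_1)) (by decide +kernel) h.1 h.2

def F_946 : FrX :=
  ⟨0x2002000900044004000e02041000141000800040800400484001204000810881000004110100010204040111011020801000081084008000404940011000,
    0xa3, 1, 0x214252638097a4, 7,
    [(0xa3, 1), (0x208693a5, 4), (0x10548793, 4), (0x217693a4, 4), (0x208693a5, 4), (0x10548793, 4)],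
    [(0x214252638097a4, 7), (0x638594a0, 4), (0x718293a4, 4), (0x607194a3, 4), (0x718293a4, 4), (0x405296a3, 4), (0x307185a6, 4), (0x607194a3, 4), (0x307185a6, 4), (0x436082a9, 4), (0x607194a3, 4), (0x405296a3, 4)]⟩

def c_946 : frmChk tA tB F_946 = true := by decide +kernel

def r_946_0 : chkL rootF engF2 tA tB sA_247 sB_247 4 F_946 [(255, 0, 0), (256, 0, 17)]
    0x11d0171943309c7489631454aac148d = true := by
  decide +kernel

def r_946_1 : chkL rootF engF2 tA tB sA_247 sB_247 4 F_946 [(256, 17, 15)]
    0x41e42c1b0b4470d61c83532 = true := by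
  decide +kernel

def r_946_2 : chkL rootF engF2 tA tB sA_247 sB_247 4 F_946 [(256, 32, 0)]
    0x4270cc3c078170781e0784d0781e0d70c0781e0784781d0781e6491a46b12b0a522613607 = true := by
  decide +kernel

theorem f_946 (h : TabsF) : FrameF repsF 247 F_946.f :=
  frame_of rfl c_946 ((runs_of engOK r_946_0).append ((runs_of engOK r_946_1).append (runs_of engOK r_946_2))) (by decide +kernel) h.1 h.2

def F_947 : FrX :=
  ⟨0x482000044040440000c2040020009000182040002022020000880200014008004440110020010200800051089020802008002108008404000904000104,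
    0xa0, 1, 0x51637091a5, 5,
    [(0xa0, 1), (0x538690a2, 4), (0x548790a1, 4), (0x21437690, 4), (0x538690a2, 4), (0x548790a1, 4)],
    [(0x51637091a5, 5), (0x637284a0, 4), (0x305197a4, 4), (0x435186a0, 4), (0x305197a4, 4), (0x436092a8, 4), (0x51647283, 4), (0x435186a0, 4), (0x51647283, 4), (0x408697a3, 4), (0x435186a0, 4), (0x436092a8, 4)]⟩

def c_947 : frmChk tA tB F_947 = true := by decide +kernel

def r_947_0 : chkL rootF engF2 tA tB sA_247 sB_247 4 F_947 [(255, 0, 0), (256, 0, 20)]
    0x43511c4711c2b = true := by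
  decide +kernel

def r_947_1 : chkL rootF engF2 tA tB sA_247 sB_247 4 F_947 [(256, 20, 21)]
    0x4350f01d0ac2b = true := by
  decide +kernel

def r_947_2 : chkL rootF engF2 tA tB sA_247 sB_247 4 F_947 [(256, 41, 0)]
    0x41e = true := by
  decide +kernel

theorem f_947 (h : TabsF) : FrameF repsF 247 F_947.f :=
  frame_of rfl c_947 ((runs_of engOK r_947_0).append ((runs_of engOK r_947_1).append (runs_of engOK r_947_2))) (by decide +kernel) h.1 h.2

def F_948 : FrX :=
  ⟨0x2002000900044004000e020410001410008000408100000181008024020022002202008010080088208004048000108400402000060002002020a0024086,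
    0xa3, 1, 0x214352728198a3, 7,
    [(0xa3, 1), (0x208693a5, 4), (0x10548793, 4), (0x217693a4, 4), (0x208693a5, 4), (0x10548793, 4)],
    [(0x214352728198a3, 7), (0x517093a6, 4), (0x31426580, 4), (0x425163a9, 4), (0x31426580, 4), (0x638791a5, 4), (0x427096a3, 4), (0x425163a9, 4), (0x427096a3, 4), (0x536180a9, 4), (0x425163a9, 4), (0x638791a5, 4)]⟩

def c_948 : frmChk tA tB F_948 = true := by decide +kernel

def r_948_0 : chkL rootF engF2 tA tB sA_247 sB_247 4 F_948 [(255, 0, 0), (256, 0, 24)]
    0x11581d0782d2728c = true := by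
  decide +kernel

def r_948_1 : chkL rootF engF2 tA tB sA_247 sB_247 4 F_948 [(256, 24, 0)]
    0x49c350cc270d43304703c5303c3503c720e41d0781d1d00f = true := by
  decide +kernel

theorem f_948 (h : TabsF) : FrameF repsF 247 F_948.f :=
  frame_of rfl c_948 ((runs_of engOK r_948_0).append (runs_of engOK r_948_1)) (by decide +kernel) h.1 h.2

def F_949 : FrX :=
  ⟨0x1001040012008080000e0084080041000810100004400804041010000420201000810220408000600006014201101000081000a00880040c080009080080,
    0xa3, 1, 0x506491a3, 4,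
    [(0xa3, 1), (0x207584a6, 4), (0x10547693, 4), (0x647593a8, 4), (0x10547693, 4), (0x216485a7, 4), (0x208693a4, 4), (0x647593a8, 4), (0x208693a4, 4), (0x106574a8, 4), (0x647593a8, 4), (0x216485a7, 4)],
    [(0x506491a3, 4), (0x527086a4, 4), (0x31607495, 4), (0x316470a8, 4), (0x31607495, 4), (0x648092a7, 4), (0x315284a6, 4), (0x316470a8, 4), (0x315284a6, 4), (0x407695a8, 4), (0x316470a8, 4), (0x648092a7, 4)]⟩

def c_949 : frmChk tB tB F_949 = true := by decide +kernel

def r_949_0 : chkL rootF engF2 tB tB sB_247 sB_247 4 F_949 [(255, 0, 0), (256, 0, 16)]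
    0x4390e42709d230e41d03c3527095298a61681e = true := by
  decide +kernel

def r_949_1 : chkL rootF engF2 tB tB sB_247 sB_247 4 F_949 [(256, 16, 17)]
    0x106c1b06c1b06c0f0781e82f09079260ac0f = true := by
  decide +kernel

def r_949_2 : chkL rootF engF2 tB tB sB_247 sB_247 4 F_949 [(256, 33, 0)]
    0x42709c0f09c872c934268932981b03c1b81e4603e45264aa03caa03f41 = true := by
  decide +kernel

theorem f_949 (h : TabsF) : FrameF repsF 247 F_949.f :=
  frame_of rfl c_949 ((runs_of engOK r_949_0).append ((runs_of engOK r_949_1).append (runs_of engOK r_949_2))) (by decide +kernel) h.2 h.2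

theorem cl_247 (h : TabsF) : ∀ f ∈ fr_247, FrameF repsF 247 f :=
  List.forall_mem_cons.2 ⟨f_922 h, List.forall_mem_cons.2 ⟨f_923 h, List.forall_mem_cons.2 ⟨f_924 h, List.forall_mem_cons.2 ⟨f_925 h, List.forall_mem_cons.2 ⟨f_926 h, List.forall_mem_cons.2 ⟨f_927 h, List.forall_mem_cons.2 ⟨f_928 h, List.forall_mem_cons.2 ⟨f_929 h, List.forall_mem_cons.2 ⟨f_930 h, List.forall_mem_cons.2 ⟨f_931 h, List.forall_mem_cons.2 ⟨f_932 h, List.forall_mem_cons.2 ⟨f_933 h, List.forall_mem_cons.2 ⟨f_934 h, List.forall_mem_cons.2 ⟨f_935 h, List.forall_mem_cons.2 ⟨f_936 h, List.forall_mem_cons.2 ⟨f_937 h, List.forall_mem_cons.2 ⟨f_938 h, List.forall_mem_cons.2 ⟨f_939 h, List.forall_mem_cons.2 ⟨f_940 h, List.forall_mem_cons.2 ⟨f_941 h, List.forall_mem_cons.2 ⟨f_942 h, List.forall_mem_cons.2 ⟨f_943 h, List.forall_mem_cons.2 ⟨f_944 h, List.forall_mem_cons.2 ⟨f_945 h, List.forall_mem_cons.2 ⟨f_946 h, List.forall_mem_cons.2 ⟨f_947 h, List.forall_mem_cons.2 ⟨f_948 h, List.forall_mem_cons.2 ⟨f_949 h,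
    fun _ h0 => absurd h0 List.not_mem_nil⟩⟩⟩⟩⟩⟩⟩⟩⟩⟩⟩⟩⟩⟩⟩⟩⟩⟩⟩⟩⟩⟩⟩⟩⟩⟩⟩⟩

def F_950 : FrX :=
  ⟨0x1c4044000008081000000840080410000101084050080080010000048100080281012001280022004040004820a0802001002040400400c001221220000,
    0x0, 0, 0x53647584, 4,
    [(0x0, 0), (0x20637584, 4), (0x105476a9, 4), (0x647583a9, 4), (0x105476a9, 4), (0x21647385, 4), (0x204386a9, 4), (0x647583a9, 4), (0x204386a9, 4), (0x10657483, 4), (0x647583a9, 4), (0x21647385, 4)],
    [(0x53647584, 4), (0x206475a9, 4), (0x106387a9, 4), (0x214385a9, 4), (0x206475a9, 4), (0x106387a9, 4)]⟩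

def c_950 : frmChk tB tA F_950 = true := by decide +kernel

def r_950_0 : chkL rootF engF2 tB tA sB_248 sA_248 4 F_950 [(255, 0, 0), (256, 0, 4)]
    0x465 = true := by
  decide +kernel

def r_950_1 : chkL rootF engF2 tB tA sB_248 sA_248 4 F_950 [(256, 4, 6)]
    0x12344b = true := by
  decide +kernel

def r_950_2 : chkL rootF engF2 tB tA sB_248 sA_248 4 F_950 [(256, 10, 8)]
    0x1 = true := by
  decide +kernel

def r_950_3 : chkL rootF engF2 tB tA sB_248 sA_248 4 F_950 [(256, 18, 9)]
    0x1 = true := by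
  decide +kernel

def r_950_4 : chkL rootF engF2 tB tA sB_248 sA_248 4 F_950 [(256, 27, 7)]
    0x1 = true := by
  decide +kernel

def r_950_5 : chkL rootF engF2 tB tA sB_248 sA_248 4 F_950 [(256, 34, 6)]
    0x1 = true := by
  decide +kernel

def r_950_6 : chkL rootF engF2 tB tA sB_248 sA_248 4 F_950 [(256, 40, 0)]
    0x465 = true := by
  decide +kernel

theorem f_950 (h : TabsF) : FrameF repsF 248 F_950.f :=
  frame_of rfl c_950 ((runs_of engOK r_950_0).append ((runs_of engOK r_950_1).append ((runs_of engOK r_950_2).append ((runs_of engOK r_950_3).append ((runs_of engOK r_950_4).append ((runs_of engOK r_950_5).append (runs_of engOK r_950_6))))))) (by decide +kernel) h.2 h.1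

def F_951 : FrX :=
  ⟨0x1001040012008080000e008408004100081010000409000080a001002000088480410800402040040002820044000021008400010a028840002100220084,
    0xa3, 1, 0x4061768690a3, 6,
    [(0xa3, 1), (0x207584a6, 4), (0x10547693, 4), (0x647593a8, 4), (0x10547693, 4), (0x216485a7, 4), (0x208693a4, 4), (0x647593a8, 4), (0x208693a4, 4), (0x106574a8, 4), (0x647593a8, 4), (0x216485a7, 4)],
    [(0x4061768690a3, 6), (0x438792a5, 4), (0x43507196, 4), (0x436281a0, 4), (0x438792a5, 4), (0x43507196, 4)]⟩

def c_951 : frmChk tB tA F_951 = true := by decide +kernel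

def r_951_0 : chkL rootF engF2 tB tA sB_248 sA_248 4 F_951 [(255, 0, 0), (256, 0, 16)]
    0x4270742e = true := by
  decide +kernel

def r_951_1 : chkL rootF engF2 tB tA sB_248 sA_248 4 F_951 [(256, 16, 16)]
    0x433 = true := by
  decide +kernel

def r_951_2 : chkL rootF engF2 tB tA sB_248 sA_248 4 F_951 [(256, 32, 0)]
    0x41d0ac53a2a43b080f = true := by
  decide +kernel

theorem f_951 (h : TabsF) : FrameF repsF 248 F_951.f :=
  frame_of rfl c_951 ((runs_of engOK r_951_0).append ((runs_of engOK r_951_1).append (runs_of engOK r_951_2))) (by decide +kernel) h.2 h.1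

def F_952 : FrX :=
  ⟨0x1001040012008080000e00840800410008101000044201040041028000080042400002204080004008090006800820020002404401004404088005200040,
    0xa3, 1, 0x1031607287a0, 6,
    [(0xa3, 1), (0x207584a6, 4), (0x10547693, 4), (0x647593a8, 4), (0x10547693, 4), (0x216485a7, 4), (0x208693a4, 4), (0x647593a8, 4), (0x208693a4, 4), (0x106574a8, 4), (0x647593a8, 4), (0x216485a7, 4)],
    [(0x1031607287a0, 6), (0x104285a7, 4), (0x548196a3, 4), (0x20418596, 4), (0x548196a3, 4), (0x41527380, 4), (0x214096a7, 4), (0x20418596, 4), (0x214096a7, 4), (0x205184a3, 4), (0x20418596, 4), (0x41527380, 4)]⟩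

def c_952 : frmChk tB tB F_952 = true := by decide +kernel

def r_952_0 : chkL rootF engF2 tB tB sB_248 sB_248 4 F_952 [(255, 0, 0), (256, 0, 24)]
    0x44d05c331c5320d417 = true := by
  decide +kernel

def r_952_1 : chkL rootF engF2 tB tB sB_248 sB_248 4 F_952 [(256, 24, 0)]
    0x105d54 = true := by
  decide +kernel

theorem f_952 (h : TabsF) : FrameF repsF 248 F_952.f :=
  frame_of rfl c_952 ((runs_of engOK r_952_0).append (runs_of engOK r_952_1)) (by decide +kernel) h.2 h.2

def F_953 : FrX :=
  ⟨0x600020801080810000c0040180410101001004010010100800002422004040048020400800440440001200042008210014020000408088004140600048,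
    0xa0, 1, 0x5062718796a5, 6,
    [(0xa0, 1), (0x637584a2, 4), (0x547690a1, 4), (0x64758390, 4), (0x547690a1, 4), (0x21647385, 4), (0x438690a2, 4), (0x64758390, 4), (0x438690a2, 4), (0x657483a1, 4), (0x64758390, 4), (0x21647385, 4)],
    [(0x5062718796a5, 6), (0x416593a8, 4), (0x207598a4, 4), (0x203194a8, 4), (0x207598a4, 4), (0x768394a1, 4), (0x20436591, 4), (0x203194a8, 4), (0x20436591, 4), (0x317584a9, 4), (0x203194a8, 4), (0x768394a1, 4)]⟩

def c_953 : frmChk tB tB F_953 = true := by decide +kernel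

def r_953_0 : chkL rootF engF2 tB tB sB_248 sB_248 4 F_953 [(255, 0, 0), (256, 0, 25)]
    0x109c27 = true := by
  decide +kernel

def r_953_1 : chkL rootF engF2 tB tB sB_248 sB_248 4 F_953 [(256, 25, 0)]
    0x41b03c0f03c691a439 = true := by
  decide +kernel

theorem f_953 (h : TabsF) : FrameF repsF 248 F_953.f :=
  frame_of rfl c_953 ((runs_of engOK r_953_0).append (runs_of engOK r_953_1)) (by decide +kernel) h.2 h.2

def F_954 : FrX :=
  ⟨0x600020801080810000c00401804101010010040012000280004002200a8200084000808020040040890010281008200204020600084100100020400201,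
    0xa0, 1, 0x415465768594a6, 7,
    [(0xa0, 1), (0x637584a2, 4), (0x547690a1, 4), (0x64758390, 4), (0x547690a1, 4), (0x21647385, 4), (0x438690a2, 4), (0x64758390, 4), (0x438690a2, 4), (0x657483a1, 4), (0x64758390, 4), (0x21647385, 4)],
    [(0x415465768594a6, 7), (0x208196a3, 4), (0x407598a1, 4), (0x637581a9, 4), (0x407598a1, 4), (0x314286a9, 4), (0x207593a6, 4), (0x637581a9, 4), (0x207593a6, 4), (0x406391a8, 4), (0x637581a9, 4), (0x314286a9, 4)]⟩

def c_954 : frmChk tB tB F_954 = true := by decide +kernel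

def r_954_0 : chkL rootF engF2 tB tB sB_248 sB_248 4 F_954 [(255, 0, 0), (256, 0, 23)]
    0x4350d8c309c6c1e035254368aa26 = true := by
  decide +kernel

def r_954_1 : chkL rootF engF2 tB tB sB_248 sB_248 4 F_954 [(256, 23, 0)]
    0x10e8170785a1381b = true := by
  decide +kernel

theorem f_954 (h : TabsF) : FrameF repsF 248 F_954.f :=
  frame_of rfl c_954 ((runs_of engOK r_954_0).append (runs_of engOK r_954_1)) (by decide +kernel) h.2 h.2

def F_955 : FrX :=
  ⟨0x1001040012008080000e00840800410008101000040480080120010040020022488002001380002004040004820800420010000405004408004200a04040,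
    0xa3, 1, 0x213241548395a6, 7,
    [(0xa3, 1), (0x207584a6, 4), (0x10547693, 4), (0x647593a8, 4), (0x10547693, 4), (0x216485a7, 4), (0x208693a4, 4), (0x647593a8, 4), (0x208693a4, 4), (0x106574a8, 4), (0x647593a8, 4), (0x216485a7, 4)],
    [(0x213241548395a6, 7), (0x305197a8, 4), (0x406295a7, 4), (0x628197a5, 4), (0x406295a7, 4), (0x438791a5, 4), (0x306285a1, 4), (0x628197a5, 4), (0x306285a1, 4), (0x407581a9, 4), (0x628197a5, 4), (0x438791a5, 4)]⟩

def c_955 : frmChk tB tB F_955 = true := by decide +kernel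

def r_955_0 : chkL rootF engF2 tB tB sB_248 sB_248 4 F_955 [(255, 0, 0), (256, 0, 10)]
    0x42703c17 = true := by
  decide +kernel

def r_955_1 : chkL rootF engF2 tB tB sB_248 sB_248 4 F_955 [(256, 10, 12)]
    0x10d41d = true := by
  decide +kernel

def r_955_2 : chkL rootF engF2 tB tB sB_248 sB_248 4 F_955 [(256, 22, 16)]
    0x10d417 = true := by
  decide +kernel

def r_955_3 : chkL rootF engF2 tB tB sB_248 sB_248 4 F_955 [(256, 38, 8)]
    0x41d = true := by
  decide +kernel

def r_955_4 : chkL rootF engF2 tB tB sB_248 sB_248 4 F_955 [(256, 46, 0)]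
    0x1 = true := by
  decide +kernel

theorem f_955 (h : TabsF) : FrameF repsF 248 F_955.f :=
  frame_of rfl c_955 ((runs_of engOK r_955_0).append ((runs_of engOK r_955_1).append ((runs_of engOK r_955_2).append ((runs_of engOK r_955_3).append (runs_of engOK r_955_4))))) (by decide +kernel) h.2 h.2

def F_956 : FrX :=
  ⟨0x1001040012008080000e00840800410008101000060000082080102100180084200008080020810820022400400020014004020200810801010102220104,
    0xa3, 1, 0x213140546190a2, 7,
    [(0xa3, 1), (0x207584a6, 4), (0x10547693, 4), (0x647593a8, 4), (0x10547693, 4), (0x216485a7, 4), (0x208693a4, 4), (0x647593a8, 4), (0x208693a4, 4), (0x106574a8, 4), (0x647593a8, 4), (0x216485a7, 4)],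
    [(0x213140546190a2, 7), (0x327085a9, 4), (0x41507396, 4), (0x41537082, 4), (0x41507396, 4), (0x537280a6, 4), (0x415283a9, 4), (0x41537082, 4), (0x415283a9, 4), (0x30758296, 4), (0x41537082, 4), (0x537280a6, 4)]⟩

def c_956 : frmChk tB tB F_956 = true := by decide +kernel

def r_956_0 : chkL rootF engF2 tB tB sB_248 sB_248 4 F_956 [(511, 0, 0)]
    0x105c2bb8285a841d074651950d05c17 = true := by
  decide +kernel

theorem f_956 (h : TabsF) : FrameF repsF 248 F_956.f :=
  frame_of rfl c_956 (runs_of engOK r_956_0) (by decide +kernel) h.2 h.2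

def F_957 : FrX :=
  ⟨0x2002000900044004000e02041000141000800040801000418004400141010040020201000902000441000101000042210804060001100008101104040044,
    0xa3, 1, 0x213043718393a0, 7,
    [(0xa3, 1), (0x208693a5, 4), (0x10548793, 4), (0x217693a4, 4), (0x208693a5, 4), (0x10548793, 4)],
    [(0x213043718393a0, 7), (0x648395a1, 4), (0x425083a7, 4), (0x62718390, 4), (0x648395a1, 4), (0x425083a7, 4)]⟩

def c_957 : frmChk tA tA F_957 = true := by decide +kernel

def r_957_0 : chkL rootF engF2 tA tA sA_248 sA_248 4 F_957 [(255, 0, 0), (256, 0, 19)]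
    0x109cb40744b07474 = true := by
  decide +kernel

def r_957_1 : chkL rootF engF2 tA tA sA_248 sA_248 4 F_957 [(256, 19, 0)]
    0x41d0743c = true := by
  decide +kernel

theorem f_957 (h : TabsF) : FrameF repsF 248 F_957.f :=
  frame_of rfl c_957 ((runs_of engOK r_957_0).append (runs_of engOK r_957_1)) (by decide +kernel) h.1 h.1

def F_958 : FrX :=
  ⟨0x2002000900044004000e02041000141000800040802000224004044101008088000004101081000820800202000041800018041011040100101200440280,
    0xa3, 1, 0x203065728191a0, 7,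
    [(0xa3, 1), (0x208693a5, 4), (0x10548793, 4), (0x217693a4, 4), (0x208693a5, 4), (0x10548793, 4)],
    [(0x203065728191a0, 7), (0x415260a7, 4), (0x506483a9, 4), (0x21546083, 4), (0x506483a9, 4), (0x20546197, 4), (0x425183a7, 4), (0x21546083, 4), (0x425183a7, 4), (0x214065a9, 4), (0x21546083, 4), (0x20546197, 4)]⟩

def c_958 : frmChk tA tB F_958 = true := by decide +kernel

def r_958_0 : chkL rootF engF2 tA tB sA_248 sB_248 4 F_958 [(255, 0, 0), (256, 0, 20)]
    0x453 = true := by
  decide +kernel

def r_958_1 : chkL rootF engF2 tA tB sA_248 sB_248 4 F_958 [(256, 20, 0)]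
    0x130c2e03c63 = true := by
  decide +kernel

theorem f_958 (h : TabsF) : FrameF repsF 248 F_958.f :=
  frame_of rfl c_958 ((runs_of engOK r_958_0).append (runs_of engOK r_958_1)) (by decide +kernel) h.1 h.2

def F_959 : FrX :=
  ⟨0x482000044040440000c2040020009000182040020002080100040808080424020010400022080409000041002002211884004000830002010100008090,
    0xa0, 1, 0x214051728594a7, 7,
    [(0xa0, 1), (0x538690a2, 4), (0x548790a1, 4), (0x21437690, 4), (0x538690a2, 4), (0x548790a1, 4)],
    [(0x214051728594a7, 7), (0x637492a8, 4), (0x105498a6, 4), (0x103296a8, 4), (0x105498a6, 4), (0x758296a3, 4), (0x10627493, 4), (0x103296a8, 4), (0x10627493, 4), (0x325486a9, 4), (0x103296a8, 4), (0x758296a3, 4)]⟩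

def c_959 : frmChk tA tB F_959 = true := by decide +kernel

def r_959_0 : chkL rootF engF2 tA tB sA_248 sB_248 4 F_959 [(255, 0, 0), (256, 0, 20)]
    0x10742e6281d0741d = true := by
  decide +kernel

def r_959_1 : chkL rootF engF2 tA tB sA_248 sB_248 4 F_959 [(256, 20, 0)]
    0x10741b03c1d0742b09c35 = true := by
  decide +kernel

theorem f_959 (h : TabsF) : FrameF repsF 248 F_959.f :=
  frame_of rfl c_959 ((runs_of engOK r_959_0).append (runs_of engOK r_959_1)) (by decide +kernel) h.1 h.2

def F_960 : FrX :=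
  ⟨0x482000044040440000c2040020009000182040010100008104000209400022020600000804040202000180880004800881000180021002440200808003,
    0xa0, 1, 0x10415360768596a0, 8,
    [(0xa0, 1), (0x538690a2, 4), (0x548790a1, 4), (0x21437690, 4), (0x538690a2, 4), (0x548790a1, 4)],
    [(0x10415360768596a0, 8), (0x308195a2, 4), (0x768091a4, 4), (0x53768190, 4), (0x768091a4, 4), (0x42518390, 4), (0x507693a2, 4), (0x53768190, 4), (0x507693a2, 4), (0x105398a4, 4), (0x53768190, 4), (0x42518390, 4)]⟩

def c_960 : frmChk tA tB F_960 = true := by decide +kernel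

def r_960_0 : chkL rootF engF2 tA tB sA_248 sB_248 4 F_960 [(511, 0, 0)]
    0x103c1d074e40782d134270785c = true := by
  decide +kernel

theorem f_960 (h : TabsF) : FrameF repsF 248 F_960.f :=
  frame_of rfl c_960 (runs_of engOK r_960_0) (by decide +kernel) h.1 h.2

def F_961 : FrX :=
  ⟨0x80080a000804040e0000210100200100000204089002000140100840600400003082000080208200100080108004821090048002000808a002042080010,
    0xa6, 1, 0x5165718296a2, 6,
    [(0xa6, 1), (0x205396a8, 4), (0x10548796, 4), (0x214396a7, 4), (0x205396a8, 4), (0x10548796, 4)],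
    [(0x5165718296a2, 6), (0x426593a0, 4), (0x64708195, 4), (0x32658194, 4), (0x64708195, 4), (0x536294a7, 4), (0x438192a0, 4), (0x32658194, 4), (0x438192a0, 4), (0x32547096, 4), (0x32658194, 4), (0x536294a7, 4)]⟩

def c_961 : frmChk tA tB F_961 = true := by decide +kernel

def r_961_0 : chkL rootF engF2 tA tB sA_248 sB_248 4 F_961 [(255, 0, 0), (256, 0, 18)]
    0x5133144b0b859 = true := by
  decide +kernel

def r_961_1 : chkL rootF engF2 tA tB sA_248 sB_248 4 F_961 [(256, 18, 0)]
    0x103cd11644b0b86a = true := by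
  decide +kernel

theorem f_961 (h : TabsF) : FrameF repsF 248 F_961.f :=
  frame_of rfl c_961 ((runs_of engOK r_961_0).append (runs_of engOK r_961_1)) (by decide +kernel) h.1 h.2

def F_962 : FrX :=
  ⟨0x2002000900044004000e02041000141000800040808000408081080101020101080101004200406000888008820004800420302040000800300200081001,
    0xa3, 1, 0x32435360768194a0, 8,
    [(0xa3, 1), (0x208693a5, 4), (0x10548793, 4), (0x217693a4, 4), (0x208693a5, 4), (0x10548793, 4)],
    [(0x32435360768194a0, 8), (0x407591a3, 4), (0x627094a8, 4), (0x40516297, 4), (0x627094a8, 4), (0x41508397, 4), (0x627195a3, 4), (0x40516297, 4), (0x627195a3, 4), (0x517490a8, 4), (0x40516297, 4), (0x41508397, 4)]⟩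

def c_962 : frmChk tA tB F_962 = true := by decide +kernel

def r_962_0 : chkL rootF engF2 tA tB sA_248 sB_248 4 F_962 [(255, 0, 0), (256, 0, 23)]
    0x103c2d05c780e85c0d81b = true := by
  decide +kernel

def r_962_1 : chkL rootF engF2 tA tB sA_248 sB_248 4 F_962 [(256, 23, 0)]
    0x10cc2d0ac4b5286505c17 = true := by
  decide +kernel

theorem f_962 (h : TabsF) : FrameF repsF 248 F_962.f :=
  frame_of rfl c_962 ((runs_of engOK r_962_0).append (runs_of engOK r_962_1)) (by decide +kernel) h.1 h.2

def F_963 : FrX :=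
  ⟨0x2002000900044004000e0204100014100080004080040104201020001020210100010212000800c0140a040440000000a04020808020100040002008c050,
    0xa3, 1, 0x4061718794a3, 6,
    [(0xa3, 1), (0x208693a5, 4), (0x10548793, 4), (0x217693a4, 4), (0x208693a5, 4), (0x10548793, 4)],
    [(0x4061718794a3, 6), (0x428596a1, 4), (0x30748195, 4), (0x308591a6, 4), (0x30748195, 4), (0x657291a8, 4), (0x304261a9, 4), (0x308591a6, 4), (0x304261a9, 4), (0x517498a6, 4), (0x308591a6, 4), (0x657291a8, 4)]⟩

def c_963 : frmChk tA tB F_963 = true := by decide +kernel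

def r_963_0 : chkL rootF engF2 tA tB sA_248 sB_248 4 F_963 [(255, 0, 0), (256, 0, 12)]
    0x1 = true := by
  decide +kernel

def r_963_1 : chkL rootF engF2 tA tB sA_248 sB_248 4 F_963 [(256, 12, 23)]
    0x435660170e84e1380f1985c = true := by
  decide +kernel

def r_963_2 : chkL rootF engF2 tA tB sA_248 sB_248 4 F_963 [(256, 35, 0)]
    0x42703c1d = true := by
  decide +kernel

theorem f_963 (h : TabsF) : FrameF repsF 248 F_963.f :=
  frame_of rfl c_963 ((runs_of engOK r_963_0).append ((runs_of engOK r_963_1).append (runs_of engOK r_963_2))) (by decide +kernel) h.1 h.2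

def F_964 : FrX :=
  ⟨0x2002000900044004000e02041000141000800040800801021108024002000240200088000888000224000101020408100100000032408008005042062000,
    0xa3, 1, 0x1020425281a4, 6,
    [(0xa3, 1), (0x208693a5, 4), (0x10548793, 4), (0x217693a4, 4), (0x208693a5, 4), (0x10548793, 4)],
    [(0x1020425281a4, 6), (0x526374a0, 4), (0x768291a4, 4), (0x307491a6, 4), (0x768291a4, 4), (0x407385a6, 4), (0x526091a3, 4), (0x307491a6, 4), (0x526091a3, 4), (0x306482a7, 4), (0x307491a6, 4), (0x407385a6, 4)]⟩

def c_964 : frmChk tA tB F_964 = true := by decide +kernel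

def r_964_0 : chkL rootF engF2 tA tB sA_248 sB_248 4 F_964 [(255, 0, 0), (256, 0, 21)]
    0x417156b0154390e439a281b = true := by
  decide +kernel

def r_964_1 : chkL rootF engF2 tA tB sA_248 sB_248 4 F_964 [(256, 21, 8)]
    0x42b = true := by
  decide +kernel

def r_964_2 : chkL rootF engF2 tA tB sA_248 sB_248 4 F_964 [(256, 29, 10)]
    0x103c55 = true := by
  decide +kernel

def r_964_3 : chkL rootF engF2 tA tB sA_248 sB_248 4 F_964 [(256, 39, 0)]
    0x111c1d05c17 = true := by
  decide +kernel

theorem f_964 (h : TabsF) : FrameF repsF 248 F_964.f :=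
  frame_of rfl c_964 ((runs_of engOK r_964_0).append ((runs_of engOK r_964_1).append ((runs_of engOK r_964_2).append (runs_of engOK r_964_3)))) (by decide +kernel) h.1 h.2

def F_965 : FrX :=
  ⟨0x80080a000804040e00002101002001000002040881011001020010020042004018014000c00041020000001122600140001102010400a88002111000000,
    0xa6, 1, 0x52758596a7, 5,
    [(0xa6, 1), (0x205396a8, 4), (0x10548796, 4), (0x214396a7, 4), (0x205396a8, 4), (0x10548796, 4)],
    [(0x52758596a7, 5), (0x507493a8, 4), (0x106284a9, 4), (0x627394a8, 4), (0x106284a9, 4), (0x518794a3, 4), (0x43506297, 4), (0x627394a8, 4), (0x43506297, 4), (0x107398a4, 4), (0x627394a8, 4), (0x518794a3, 4)]⟩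

def c_965 : frmChk tA tB F_965 = true := by decide +kernel

def r_965_0 : chkL rootF engF2 tA tB sA_248 sB_248 4 F_965 [(255, 0, 0), (256, 0, 15)]
    0x128c53 = true := by
  decide +kernel

def r_965_1 : chkL rootF engF2 tA tB sA_248 sB_248 4 F_965 [(256, 15, 17)]
    0x41703c5a03c3688c9324c1e2641e = true := by
  decide +kernel

def r_965_2 : chkL rootF engF2 tA tB sA_248 sB_248 4 F_965 [(256, 32, 0)]
    0x103cd21380f70499a0ca3a885624c8ea1a8621e85a260d9902e9921c0b8788702b1b02e9606a9904d1b0e18b1c12668328ea21589323a86a1887a1689836640ba648702e1e21c0ac6c0ba581aa641346c3862c = true := by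
  decide +kernel

theorem f_965 (h : TabsF) : FrameF repsF 248 F_965.f :=
  frame_of rfl c_965 ((runs_of engOK r_965_0).append ((runs_of engOK r_965_1).append (runs_of engOK r_965_2))) (by decide +kernel) h.1 h.2

def F_966 : FrX :=
  ⟨0x80080a000804040e000021010020010000020408a00010041800248004802020000804004000310100a0000604002408004008002400400500222620000,
    0xa6, 1, 0x42647496a6, 5,
    [(0xa6, 1), (0x205396a8, 4), (0x10548796, 4), (0x214396a7, 4), (0x205396a8, 4), (0x10548796, 4)],
    [(0x42647496a6, 5), (0x406587a3, 4), (0x107592a6, 4), (0x658392a7, 4), (0x107592a6, 4), (0x416385a7, 4), (0x407392a8, 4), (0x658392a7, 4), (0x407392a8, 4), (0x107683a5, 4), (0x658392a7, 4), (0x416385a7, 4)]⟩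

def c_966 : frmChk tA tB F_966 = true := by decide +kernel

def r_966_0 : chkL rootF engF2 tA tB sA_248 sB_248 4 F_966 [(255, 0, 0), (256, 0, 17)]
    0x114c1705c5c0b42e11c1d07670 = true := by
  decide +kernel

def r_966_1 : chkL rootF engF2 tA tB sA_248 sB_248 4 F_966 [(256, 17, 12)]
    0x144c1d03c1711c17 = true := by
  decide +kernel

def r_966_2 : chkL rootF engF2 tA tB sA_248 sB_248 4 F_966 [(256, 29, 0)]
    0x122c9a4549a6288b269152698a154780745c = true := by
  decide +kernel

theorem f_966 (h : TabsF) : FrameF repsF 248 F_966.f :=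
  frame_of rfl c_966 ((runs_of engOK r_966_0).append ((runs_of engOK r_966_1).append (runs_of engOK r_966_2))) (by decide +kernel) h.1 h.2

def F_967 : FrX :=
  ⟨0x80080a000804040e000021010020010000020408a000100404002480048020200008044040002d0100a0000604002408004008002000400500222620000,
    0xa6, 1, 0x21426590a4, 5,
    [(0xa6, 1), (0x205396a8, 4), (0x10548796, 4), (0x214396a7, 4), (0x205396a8, 4), (0x10548796, 4)],
    [(0x21426590a4, 5), (0x537694a8, 4), (0x107592a6, 4), (0x107683a5, 4), (0x107592a6, 4), (0x427386a5, 4), (0x108594a3, 4), (0x107683a5, 4), (0x108594a3, 4), (0x658392a7, 4), (0x107683a5, 4), (0x427386a5, 4)]⟩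

def c_967 : frmChk tA tB F_967 = true := by decide +kernel

def r_967_0 : chkL rootF engF2 tA tB sA_248 sB_248 4 F_967 [(255, 0, 0), (256, 0, 26)]
    0x112ce40d44d1383a03c4e = true := by
  decide +kernel

def r_967_1 : chkL rootF engF2 tA tB sA_248 sB_248 4 F_967 [(256, 26, 0)]
    0x41d09c1e0782e0b85532a291542e0b85515469 = true := by
  decide +kernel

theorem f_967 (h : TabsF) : FrameF repsF 248 F_967.f :=
  frame_of rfl c_967 ((runs_of engOK r_967_0).append (runs_of engOK r_967_1)) (by decide +kernel) h.1 h.2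

def F_968 : FrX :=
  ⟨0x1001040012008080000e00840800410008101000044201040041028000080042400002204080004008090006800820020008004441010c04008005200040,
    0xa3, 1, 0x1031607287a0, 6,
    [(0xa3, 1), (0x207584a6, 4), (0x10547693, 4), (0x647593a8, 4), (0x10547693, 4), (0x216485a7, 4), (0x208693a4, 4), (0x647593a8, 4), (0x208693a4, 4), (0x106574a8, 4), (0x647593a8, 4), (0x216485a7, 4)],
    [(0x1031607287a0, 6), (0x104285a7, 4), (0x548196a3, 4), (0x20418596, 4), (0x548196a3, 4), (0x41527380, 4), (0x214096a7, 4), (0x20418596, 4), (0x214096a7, 4), (0x205184a3, 4), (0x20418596, 4), (0x41527380, 4)]⟩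

def c_968 : frmChk tB tB F_968 = true := by decide +kernel

def r_968_0 : chkL rootF engF2 tB tB sB_248 sB_248 4 F_968 [(255, 0, 0), (256, 0, 24)]
    0x42e42c780d41d1684d134691346338427 = true := by
  decide +kernel

def r_968_1 : chkL rootF engF2 tB tB sB_248 sB_248 4 F_968 [(256, 24, 0)]
    0x41d0b41d1644b = true := by
  decide +kernel

theorem f_968 (h : TabsF) : FrameF repsF 248 F_968.f :=
  frame_of rfl c_968 ((runs_of engOK r_968_0).append (runs_of engOK r_968_1)) (by decide +kernel) h.2 h.2

def F_969 : FrX :=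
  ⟨0x1001040012008080000e00840800410008101000060002480080102100180084000008080020810820030400c00020014004020200810801010002220104,
    0xa3, 1, 0x304250607386a0, 7,
    [(0xa3, 1), (0x207584a6, 4), (0x10547693, 4), (0x647593a8, 4), (0x10547693, 4), (0x216485a7, 4), (0x208693a4, 4), (0x647593a8, 4), (0x208693a4, 4), (0x106574a8, 4), (0x647593a8, 4), (0x216485a7, 4)],
    [(0x304250607386a0, 7), (0x305287a4, 4), (0x328096a1, 4), (0x30758296, 4), (0x328096a1, 4), (0x41537082, 4), (0x728596a4, 4), (0x30758296, 4), (0x728596a4, 4), (0x207583a1, 4), (0x30758296, 4), (0x41537082, 4)]⟩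

def c_969 : frmChk tB tB F_969 = true := by decide +kernel

def r_969_0 : chkL rootF engF2 tB tB sB_248 sB_248 4 F_969 [(255, 0, 0), (256, 0, 25)]
    0x41709c0f1703605c2b03c1748d43d101705c8b14c2b23427 = true := by
  decide +kernel

def r_969_1 : chkL rootF engF2 tB tB sB_248 sB_248 4 F_969 [(256, 25, 0)]
    0x10ac390ac2b0ac172689a169982682b1c64909c2b = true := by
  decide +kernel

theorem f_969 (h : TabsF) : FrameF repsF 248 F_969.f :=
  frame_of rfl c_969 ((runs_of engOK r_969_0).append (runs_of engOK r_969_1)) (by decide +kernel) h.2 h.2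

def F_970 : FrX :=
  ⟨0x600020801080810000c00401804101010010040012000280004002200a8200084000808020040040890010281008080604020400024000100024400201,
    0xa0, 1, 0x415465768594a6, 7,
    [(0xa0, 1), (0x637584a2, 4), (0x547690a1, 4), (0x64758390, 4), (0x547690a1, 4), (0x21647385, 4), (0x438690a2, 4), (0x64758390, 4), (0x438690a2, 4), (0x657483a1, 4), (0x64758390, 4), (0x21647385, 4)],
    [(0x415465768594a6, 7), (0x208196a3, 4), (0x407598a1, 4), (0x637581a9, 4), (0x407598a1, 4), (0x314286a9, 4), (0x207593a6, 4), (0x637581a9, 4), (0x207593a6, 4), (0x406391a8, 4), (0x637581a9, 4), (0x314286a9, 4)]⟩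

def c_970 : frmChk tB tB F_970 = true := by decide +kernel

def r_970_0 : chkL rootF engF2 tB tB sB_248 sB_248 4 F_970 [(255, 0, 0), (256, 0, 23)]
    0x10f01e0b439 = true := by
  decide +kernel

def r_970_1 : chkL rootF engF2 tB tB sB_248 sB_248 4 F_970 [(256, 23, 0)]
    0x4170b41781c5c = true := by
  decide +kernel

theorem f_970 (h : TabsF) : FrameF repsF 248 F_970.f :=
  frame_of rfl c_970 ((runs_of engOK r_970_0).append (runs_of engOK r_970_1)) (by decide +kernel) h.2 h.2

def F_971 : FrX :=
  ⟨0x1001040012008080000e0084080041000810100004048008012001004002002280800a001380002004040004820800420010000405004408004440a00040,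
    0xa3, 1, 0x51618593a4, 5,
    [(0xa3, 1), (0x207584a6, 4), (0x10547693, 4), (0x647593a8, 4), (0x10547693, 4), (0x216485a7, 4), (0x208693a4, 4), (0x647593a8, 4), (0x208693a4, 4), (0x106574a8, 4), (0x647593a8, 4), (0x216485a7, 4)],
    [(0x51618593a4, 5), (0x208795a1, 4), (0x436075a8, 4), (0x438791a5, 4), (0x436075a8, 4), (0x628197a5, 4), (0x204351a9, 4), (0x438791a5, 4), (0x204351a9, 4), (0x608591a7, 4), (0x438791a5, 4), (0x628197a5, 4)]⟩

def c_971 : frmChk tB tB F_971 = true := by decide +kernel

def r_971_0 : chkL rootF engF2 tB tB sB_248 sB_248 4 F_971 [(255, 0, 0), (256, 0, 14)]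
    0x13a0350b93248c0f330ca1a459a3289330ca = true := by
  decide +kernel

def r_971_1 : chkL rootF engF2 tB tB sB_248 sB_248 4 F_971 [(256, 14, 21)]
    0x4591341d0741d0b4cc3280f330ca = true := by
  decide +kernel

def r_971_2 : chkL rootF engF2 tB tB sB_248 sB_248 4 F_971 [(256, 35, 0)]
    0x10f00f0b47105c7105c2d05c1b05c17 = true := by
  decide +kernel

theorem f_971 (h : TabsF) : FrameF repsF 248 F_971.f :=
  frame_of rfl c_971 ((runs_of engOK r_971_0).append ((runs_of engOK r_971_1).append (runs_of engOK r_971_2))) (by decide +kernel) h.2 h.2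

def F_972 : FrX :=
  ⟨0x1001040012008080000e00840800410008101000040480080120010040020022488002001380002004040004820800420010000405004408004440040050,
    0xa3, 1, 0x213241548395a6, 7,
    [(0xa3, 1), (0x207584a6, 4), (0x10547693, 4), (0x647593a8, 4), (0x10547693, 4), (0x216485a7, 4), (0x208693a4, 4), (0x647593a8, 4), (0x208693a4, 4), (0x106574a8, 4), (0x647593a8, 4), (0x216485a7, 4)],
    [(0x213241548395a6, 7), (0x305197a8, 4), (0x406295a7, 4), (0x628197a5, 4), (0x406295a7, 4), (0x438791a5, 4), (0x306285a1, 4), (0x628197a5, 4), (0x306285a1, 4), (0x407581a9, 4), (0x628197a5, 4), (0x438791a5, 4)]⟩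

def c_972 : frmChk tB tB F_972 = true := by decide +kernel

def r_972_0 : chkL rootF engF2 tB tB sB_248 sB_248 4 F_972 [(255, 0, 0), (256, 0, 10)]
    0x4360cc1706c0f = true := by
  decide +kernel

def r_972_1 : chkL rootF engF2 tB tB sB_248 sB_248 4 F_972 [(256, 10, 12)]
    0x103c99 = true := by
  decide +kernel

def r_972_2 : chkL rootF engF2 tB tB sB_248 sB_248 4 F_972 [(256, 22, 16)]
    0x105c4d14c8b = true := by
  decide +kernel

def r_972_3 : chkL rootF engF2 tB tB sB_248 sB_248 4 F_972 [(256, 38, 8)]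
    0x41d = true := by
  decide +kernel

def r_972_4 : chkL rootF engF2 tB tB sB_248 sB_248 4 F_972 [(256, 46, 0)]
    0x41d = true := by
  decide +kernel

theorem f_972 (h : TabsF) : FrameF repsF 248 F_972.f :=
  frame_of rfl c_972 ((runs_of engOK r_972_0).append ((runs_of engOK r_972_1).append ((runs_of engOK r_972_2).append ((runs_of engOK r_972_3).append (runs_of engOK r_972_4))))) (by decide +kernel) h.2 h.2

def F_973 : FrX :=
  ⟨0x1001040012008080000e00840800410008101000060002480080102100180084000008080020810820022010401020014004020200810801010102020104,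
    0xa3, 1, 0x102031416084a0, 7,
    [(0xa3, 1), (0x207584a6, 4), (0x10547693, 4), (0x647593a8, 4), (0x10547693, 4), (0x216485a7, 4), (0x208693a4, 4), (0x647593a8, 4), (0x208693a4, 4), (0x106574a8, 4), (0x647593a8, 4), (0x216485a7, 4)],
    [(0x102031416084a0, 7), (0x207583a1, 4), (0x728596a4, 4), (0x30758296, 4), (0x728596a4, 4), (0x41537082, 4), (0x328096a1, 4), (0x30758296, 4), (0x328096a1, 4), (0x305287a4, 4), (0x30758296, 4), (0x41537082, 4)]⟩

def c_973 : frmChk tB tB F_973 = true := by decide +kernel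

def r_973_0 : chkL rootF engF2 tB tB sB_248 sB_248 4 F_973 [(255, 0, 0), (256, 0, 25)]
    0x10b41b16a1311c1750c178999805c996601e0cc17 = true := by
  decide +kernel

def r_973_1 : chkL rootF engF2 tB tB sB_248 sB_248 4 F_973 [(256, 25, 0)]
    0x109c330ac270d43909c2703c2b05c170ac390e4178659886a86 = true := by
  decide +kernel

theorem f_973 (h : TabsF) : FrameF repsF 248 F_973.f :=
  frame_of rfl c_973 ((runs_of engOK r_973_0).append (runs_of engOK r_973_1)) (by decide +kernel) h.2 h.2

def F_974 : FrX :=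
  ⟨0x600020801080810000c0040180410101001004001200028000400220080240084020808020040040890010281008200204020600024000100024400201,
    0xa0, 1, 0x203142517094a7, 7,
    [(0xa0, 1), (0x637584a2, 4), (0x547690a1, 4), (0x64758390, 4), (0x547690a1, 4), (0x21647385, 4), (0x438690a2, 4), (0x64758390, 4), (0x438690a2, 4), (0x657483a1, 4), (0x64758390, 4), (0x21647385, 4)],
    [(0x203142517094a7, 7), (0x617498a3, 4), (0x207593a6, 4), (0x208196a3, 4), (0x207593a6, 4), (0x548396a1, 4), (0x20748691, 4), (0x208196a3, 4), (0x20748691, 4), (0x637581a9, 4), (0x208196a3, 4), (0x548396a1, 4)]⟩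

def c_974 : frmChk tB tB F_974 = true := by decide +kernel

def r_974_0 : chkL rootF engF2 tB tB sB_248 sB_248 4 F_974 [(255, 0, 0), (256, 0, 23)]
    0x41705c4705c6618c2d07a2609e26 = true := by
  decide +kernel

def r_974_1 : chkL rootF engF2 tB tB sB_248 sB_248 4 F_974 [(256, 23, 0)]
    0x42e0ac171382d0761a = true := by
  decide +kernel

theorem f_974 (h : TabsF) : FrameF repsF 248 F_974.f :=
  frame_of rfl c_974 ((runs_of engOK r_974_0).append (runs_of engOK r_974_1)) (by decide +kernel) h.2 h.2

def F_975 : FrX :=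
  ⟨0x1001040012008080000e008408004100081010000405000044200100400008828082000821002002002214020408004100410001112004005000000c3000,
    0xa3, 1, 0x3241658192a4, 6,
    [(0xa3, 1), (0x207584a6, 4), (0x10547693, 4), (0x647593a8, 4), (0x10547693, 4), (0x216485a7, 4), (0x208693a4, 4), (0x647593a8, 4), (0x208693a4, 4), (0x106574a8, 4), (0x647593a8, 4), (0x216485a7, 4)],
    [(0x3241658192a4, 6), (0x527690a4, 4), (0x317580a6, 4), (0x314276a5, 4), (0x317580a6, 4), (0x647298a5, 4), (0x315490a2, 4), (0x314276a5, 4), (0x315490a2, 4), (0x426580a7, 4), (0x314276a5, 4), (0x647298a5, 4)]⟩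

def c_975 : frmChk tB tB F_975 = true := by decide +kernel

def r_975_0 : chkL rootF engF2 tB tB sB_248 sB_248 4 F_975 [(255, 0, 0), (256, 0, 23)]
    0x41b0b4350d5310f0992b036 = true := by
  decide +kernel

def r_975_1 : chkL rootF engF2 tB tB sB_248 sB_248 4 F_975 [(256, 23, 0)]
    0x109cb105c3509c0f03c17 = true := by
  decide +kernel

theorem f_975 (h : TabsF) : FrameF repsF 248 F_975.f :=
  frame_of rfl c_975 ((runs_of engOK r_975_0).append (runs_of engOK r_975_1)) (by decide +kernel) h.2 h.2

def F_976 : FrX :=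
  ⟨0x1001040012008080000e00840800410008101000060000024880208004180084040002000100110208404206000020022000a0820001000400a088100050,
    0xa3, 1, 0x2131427487a3, 6,
    [(0xa3, 1), (0x207584a6, 4), (0x10547693, 4), (0x647593a8, 4), (0x10547693, 4), (0x216485a7, 4), (0x208693a4, 4), (0x647593a8, 4), (0x208693a4, 4), (0x106574a8, 4), (0x647593a8, 4), (0x216485a7, 4)],
    [(0x2131427487a3, 6), (0x407185a6, 4), (0x30758692, 4), (0x768592a1, 4), (0x30758692, 4), (0x435176a8, 4), (0x406192a7, 4), (0x768592a1, 4), (0x406192a7, 4), (0x306587a1, 4), (0x768592a1, 4), (0x435176a8, 4)]⟩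

def c_976 : frmChk tB tB F_976 = true := by decide +kernel

def r_976_0 : chkL rootF engF2 tB tB sB_248 sB_248 4 F_976 [(255, 0, 0), (256, 0, 17)]
    0x4270d43c0cd4521c8e5501d0cc350d6510cc350d6c80d41703c8e6300f1a46c18e61 = true := by
  decide +kernel

def r_976_1 : chkL rootF engF2 tB tB sB_248 sB_248 4 F_976 [(256, 17, 15)]
    0x40f03c270d43c0cc170d8330cc3306c3505c33 = true := by
  decide +kernel

def r_976_2 : chkL rootF engF2 tB tB sB_248 sB_248 4 F_976 [(256, 32, 15)]
    0x10e6459840f = true := by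
  decide +kernel

def r_976_3 : chkL rootF engF2 tB tB sB_248 sB_248 4 F_976 [(256, 47, 0)]
    0x1 = true := by
  decide +kernel

theorem f_976 (h : TabsF) : FrameF repsF 248 F_976.f :=
  frame_of rfl c_976 ((runs_of engOK r_976_0).append ((runs_of engOK r_976_1).append ((runs_of engOK r_976_2).append (runs_of engOK r_976_3)))) (by decide +kernel) h.2 h.2

def F_977 : FrX :=
  ⟨0x1001040012008080000e00840800410008101000040500004420010040000882808200084200010200044046c00000120010800a04200404280000200108,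
    0xa3, 1, 0x3241658192a4, 6,
    [(0xa3, 1), (0x207584a6, 4), (0x10547693, 4), (0x647593a8, 4), (0x10547693, 4), (0x216485a7, 4), (0x208693a4, 4), (0x647593a8, 4), (0x208693a4, 4), (0x106574a8, 4), (0x647593a8, 4), (0x216485a7, 4)],
    [(0x3241658192a4, 6), (0x527690a4, 4), (0x317580a6, 4), (0x314276a5, 4), (0x317580a6, 4), (0x647298a5, 4), (0x315490a2, 4), (0x314276a5, 4), (0x315490a2, 4), (0x426580a7, 4), (0x314276a5, 4), (0x647298a5, 4)]⟩

def c_977 : frmChk tB tB F_977 = true := by decide +kernel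

def r_977_0 : chkL rootF engF2 tB tB sB_248 sB_248 4 F_977 [(255, 0, 0), (256, 0, 24)]
    0x12342d = true := by
  decide +kernel

def r_977_1 : chkL rootF engF2 tB tB sB_248 sB_248 4 F_977 [(256, 24, 0)]
    0x40f03c4d05c3a0cc1b2c8930cd43d091a11d92c0f0550f424684764b03c144e = true := by
  decide +kernel

theorem f_977 (h : TabsF) : FrameF repsF 248 F_977.f :=
  frame_of rfl c_977 ((runs_of engOK r_977_0).append (runs_of engOK r_977_1)) (by decide +kernel) h.2 h.2

theorem cl_248 (h : TabsF) : ∀ f ∈ fr_248, FrameF repsF 248 f :=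
  List.forall_mem_cons.2 ⟨f_950 h, List.forall_mem_cons.2 ⟨f_951 h, List.forall_mem_cons.2 ⟨f_952 h, List.forall_mem_cons.2 ⟨f_953 h, List.forall_mem_cons.2 ⟨f_954 h, List.forall_mem_cons.2 ⟨f_955 h, List.forall_mem_cons.2 ⟨f_956 h, List.forall_mem_cons.2 ⟨f_957 h, List.forall_mem_cons.2 ⟨f_958 h, List.forall_mem_cons.2 ⟨f_959 h, List.forall_mem_cons.2 ⟨f_960 h, List.forall_mem_cons.2 ⟨f_961 h, List.forall_mem_cons.2 ⟨f_962 h, List.forall_mem_cons.2 ⟨f_963 h, List.forall_mem_cons.2 ⟨f_964 h, List.forall_mem_cons.2 ⟨f_965 h, List.forall_mem_cons.2 ⟨f_966 h, List.forall_mem_cons.2 ⟨f_967 h, List.forall_mem_cons.2 ⟨f_968 h, List.forall_mem_cons.2 ⟨f_969 h, List.forall_mem_cons.2 ⟨f_970 h, List.forall_mem_cons.2 ⟨f_971 h, List.forall_mem_cons.2 ⟨f_972 h, List.forall_mem_cons.2 ⟨f_973 h, List.forall_mem_cons.2 ⟨f_974 h, List.forall_mem_cons.2 ⟨f_975 h, List.forall_mem_cons.2 ⟨f_976 h, List.forall_mem_cons.2 ⟨f_977 h,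
    fun _ h0 => absurd h0 List.not_mem_nil⟩⟩⟩⟩⟩⟩⟩⟩⟩⟩⟩⟩⟩⟩⟩⟩⟩⟩⟩⟩⟩⟩⟩⟩⟩⟩⟩⟩

def F_978 : FrX :=
  ⟨0x1001040012008080000e00840800410008101000050008500810000805000084020100801000182060000808011008013414020400000088100100040084,
    0xa3, 1, 0x3042526280a2, 6,
    [(0xa3, 1), (0x207584a6, 4), (0x10547693, 4), (0x647593a8, 4), (0x10547693, 4), (0x216485a7, 4), (0x208693a4, 4), (0x647593a8, 4), (0x208693a4, 4), (0x106574a8, 4), (0x647593a8, 4), (0x216485a7, 4)],
    [(0x3042526280a2, 6), (0x405396a8, 4), (0x42738196, 4), (0x207596a1, 4), (0x405396a8, 4), (0x42738196, 4)]⟩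

def c_978 : frmChk tB tA F_978 = true := by decide +kernel

def r_978_0 : chkL rootF engF2 tB tA sB_249 sA_249 4 F_978 [(255, 0, 0), (256, 0, 22)]
    0x42b05c17078330e81e = true := by
  decide +kernel

def r_978_1 : chkL rootF engF2 tB tA sB_249 sA_249 4 F_978 [(256, 22, 0)]
    0x10e43512c3a078330e84b61983 = true := by
  decide +kernel

theorem f_978 (h : TabsF) : FrameF repsF 249 F_978.f :=
  frame_of rfl c_978 ((runs_of engOK r_978_0).append (runs_of engOK r_978_1)) (by decide +kernel) h.2 h.1

def F_979 : FrX :=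
  ⟨0x1001040012008080000e00840800410008101000042080040050100140100082402000122800200080201810100800024300080c00104000440040010210,
    0xa3, 1, 0x21405460718191a3, 8,
    [(0xa3, 1), (0x207584a6, 4), (0x10547693, 4), (0x647593a8, 4), (0x10547693, 4), (0x216485a7, 4), (0x208693a4, 4), (0x647593a8, 4), (0x208693a4, 4), (0x106574a8, 4), (0x647593a8, 4), (0x216485a7, 4)],
    [(0x21405460718191a3, 8), (0x617483a0, 4), (0x50728396, 4), (0x428391a5, 4), (0x617483a0, 4), (0x50728396, 4)]⟩

def c_979 : frmChk tB tA F_979 = true := by decide +kernel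

def r_979_0 : chkL rootF engF2 tB tA sB_249 sA_249 4 F_979 [(255, 0, 0), (256, 0, 25)]
    0x105c17238590b89a0743a8a7210d859 = true := by
  decide +kernel

def r_979_1 : chkL rootF engF2 tB tA sB_249 sA_249 4 F_979 [(256, 25, 0)]
    0x11c8930746a139154588e5301b1a40f03d2306c6903c1b44c4d = true := by
  decide +kernel

theorem f_979 (h : TabsF) : FrameF repsF 249 F_979.f :=
  frame_of rfl c_979 ((runs_of engOK r_979_0).append (runs_of engOK r_979_1)) (by decide +kernel) h.2 h.1

def F_980 : FrX :=
  ⟨0x1001040012008080000e00840800410008101000042020100048022000240104800000a10400208100200811500008000804006000a00000508002821800,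
    0xa3, 1, 0x325163738793a2, 7,
    [(0xa3, 1), (0x207584a6, 4), (0x10547693, 4), (0x647593a8, 4), (0x10547693, 4), (0x216485a7, 4), (0x208693a4, 4), (0x647593a8, 4), (0x208693a4, 4), (0x106574a8, 4), (0x647593a8, 4), (0x216485a7, 4)],
    [(0x325163738793a2, 7), (0x648192a0, 4), (0x41507382, 4), (0x42738196, 4), (0x41507382, 4), (0x426198a5, 4), (0x627394a0, 4), (0x42738196, 4), (0x627394a0, 4), (0x21508496, 4), (0x42738196, 4), (0x426198a5, 4)]⟩

def c_980 : frmChk tB tB F_980 = true := by decide +kernel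

def r_980_0 : chkL rootF engF2 tB tB sB_249 sB_249 4 F_980 [(255, 0, 0), (256, 0, 24)]
    0x12c499 = true := by
  decide +kernel

def r_980_1 : chkL rootF engF2 tB tB sB_249 sB_249 4 F_980 [(256, 24, 0)]
    0x1 = true := by
  decide +kernel

theorem f_980 (h : TabsF) : FrameF repsF 249 F_980.f :=
  frame_of rfl c_980 ((runs_of engOK r_980_0).append (runs_of engOK r_980_1)) (by decide +kernel) h.2 h.2

def F_981 : FrX :=
  ⟨0x1001040012008080000e00840800410008101000042020100041400100144000440040110201010100204a0010080802000008a000a01600408002001010,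
    0xa3, 1, 0x104150728793a2, 7,
    [(0xa3, 1), (0x207584a6, 4), (0x10547693, 4), (0x647593a8, 4), (0x10547693, 4), (0x216485a7, 4), (0x208693a4, 4), (0x647593a8, 4), (0x208693a4, 4), (0x106574a8, 4), (0x647593a8, 4), (0x216485a7, 4)],
    [(0x104150728793a2, 7), (0x627391a5, 4), (0x10547382, 4), (0x738690a4, 4), (0x627391a5, 4), (0x10547382, 4)]⟩

def c_981 : frmChk tB tA F_981 = true := by decide +kernel

def r_981_0 : chkL rootF engF2 tB tA sB_249 sA_249 4 F_981 [(255, 0, 0), (256, 0, 24)]
    0x103c2b = true := by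
  decide +kernel

def r_981_1 : chkL rootF engF2 tB tA sB_249 sA_249 4 F_981 [(256, 24, 0)]
    0x144e13c4646b0b44c9324f01169a36013817d1246b085613b1406f44a481706c1705c3c06c1705c3c = true := by
  decide +kernel

theorem f_981 (h : TabsF) : FrameF repsF 249 F_981.f :=
  frame_of rfl c_981 ((runs_of engOK r_981_0).append (runs_of engOK r_981_1)) (by decide +kernel) h.2 h.1

def F_982 : FrX :=
  ⟨0x600020801080810000c0040180410101001004004040820002c0004028000002002840110000a028000142001101410204004420010000014140008040,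
    0xa0, 1, 0x1040708393a0, 6,
    [(0xa0, 1), (0x637584a2, 4), (0x547690a1, 4), (0x64758390, 4), (0x547690a1, 4), (0x21647385, 4), (0x438690a2, 4), (0x64758390, 4), (0x438690a2, 4), (0x657483a1, 4), (0x64758390, 4), (0x21647385, 4)],
    [(0x1040708393a0, 6), (0x638795a2, 4), (0x435187a0, 4), (0x20648791, 4), (0x638795a2, 4), (0x435187a0, 4)]⟩

def c_982 : frmChk tB tA F_982 = true := by decide +kernel

def r_982_0 : chkL rootF engF2 tB tA sB_249 sA_249 4 F_982 [(255, 0, 0), (256, 0, 24)]
    0x45925856 = true := by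
  decide +kernel

def r_982_1 : chkL rootF engF2 tB tA sB_249 sA_249 4 F_982 [(256, 24, 0)]
    0x11945503c0f = true := by
  decide +kernel

theorem f_982 (h : TabsF) : FrameF repsF 249 F_982.f :=
  frame_of rfl c_982 ((runs_of engOK r_982_0).append (runs_of engOK r_982_1)) (by decide +kernel) h.2 h.1

def F_983 : FrX :=
  ⟨0x600020801080810000c0040180410101001004010020028000420440280100080020420058008008204100001100211008100100102000100900111100,
    0xa0, 1, 0x214152638191a3, 7,
    [(0xa0, 1), (0x637584a2, 4), (0x547690a1, 4), (0x64758390, 4), (0x547690a1, 4), (0x21647385, 4), (0x438690a2, 4), (0x64758390, 4), (0x438690a2, 4), (0x657483a1, 4), (0x64758390, 4), (0x21647385, 4)],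
    [(0x214152638191a3, 7), (0x435086a1, 4), (0x21748690, 4), (0x738695a2, 4), (0x435086a1, 4), (0x21748690, 4)]⟩

def c_983 : frmChk tB tA F_983 = true := by decide +kernel

def r_983_0 : chkL rootF engF2 tB tA sB_249 sA_249 4 F_983 [(255, 0, 0), (256, 0, 16)]
    0x111d0e6181e05c69 = true := by
  decide +kernel

def r_983_1 : chkL rootF engF2 tB tA sB_249 sA_249 4 F_983 [(256, 16, 19)]
    0x114c0f2b12a4b00f0ac36 = true := by
  decide +kernel

def r_983_2 : chkL rootF engF2 tB tA sB_249 sA_249 4 F_983 [(256, 35, 0)]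
    0x4594583a03c0f = true := by
  decide +kernel

theorem f_983 (h : TabsF) : FrameF repsF 249 F_983.f :=
  frame_of rfl c_983 ((runs_of engOK r_983_0).append ((runs_of engOK r_983_1).append (runs_of engOK r_983_2))) (by decide +kernel) h.2 h.1

def F_984 : FrX :=
  ⟨0x600020801080810000c004018041010100100400201024100004140200404008080008408022100a0020020002018008480c1000000804008090200028,
    0xa0, 1, 0x41627486a0, 5,
    [(0xa0, 1), (0x637584a2, 4), (0x547690a1, 4), (0x64758390, 4), (0x547690a1, 4), (0x21647385, 4), (0x438690a2, 4), (0x64758390, 4), (0x438690a2, 4), (0x657483a1, 4), (0x64758390, 4), (0x21647385, 4)],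
    [(0x41627486a0, 5), (0x517283a6, 4), (0x758190a4, 4), (0x32518790, 4), (0x758190a4, 4), (0x31526487, 4), (0x738290a6, 4), (0x32518790, 4), (0x738290a6, 4), (0x327185a4, 4), (0x32518790, 4), (0x31526487, 4)]⟩

def c_984 : frmChk tB tB F_984 = true := by decide +kernel

def r_984_0 : chkL rootF engF2 tB tB sB_249 sB_249 4 F_984 [(255, 0, 0), (256, 0, 25)]
    0x106c330781b = true := by
  decide +kernel

def r_984_1 : chkL rootF engF2 tB tB sB_249 sB_249 4 F_984 [(256, 25, 0)]
    0x10d41705c17 = true := by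
  decide +kernel

theorem f_984 (h : TabsF) : FrameF repsF 249 F_984.f :=
  frame_of rfl c_984 ((runs_of engOK r_984_0).append (runs_of engOK r_984_1)) (by decide +kernel) h.2 h.2

def F_985 : FrX :=
  ⟨0x80080a000804040e000021010020010000020408900200014204008080410000310100010040210080080008080408022040410060c1100060080800080,
    0xa6, 1, 0x31425160728390a3, 8,
    [(0xa6, 1), (0x205396a8, 4), (0x10548796, 4), (0x214396a7, 4), (0x205396a8, 4), (0x10548796, 4)],
    [(0x31425160728390a3, 8), (0x108697a3, 4), (0x32418695, 4), (0x407586a2, 4), (0x108697a3, 4), (0x32418695, 4)]⟩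

def c_985 : frmChk tA tA F_985 = true := by decide +kernel

def r_985_0 : chkL rootF engF2 tA tA sA_249 sA_249 4 F_985 [(255, 0, 0), (256, 0, 14)]
    0x41d0ac550f01b = true := by
  decide +kernel

def r_985_1 : chkL rootF engF2 tA tA sA_249 sA_249 4 F_985 [(256, 14, 11)]
    0x1078353840f = true := by
  decide +kernel

def r_985_2 : chkL rootF engF2 tA tA sA_249 sA_249 4 F_985 [(256, 25, 16)]
    0x1 = true := by
  decide +kernel

def r_985_3 : chkL rootF engF2 tA tA sA_249 sA_249 4 F_985 [(256, 41, 0)]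
    0x1 = true := by
  decide +kernel

theorem f_985 (h : TabsF) : FrameF repsF 249 F_985.f :=
  frame_of rfl c_985 ((runs_of engOK r_985_0).append ((runs_of engOK r_985_1).append ((runs_of engOK r_985_2).append (runs_of engOK r_985_3)))) (by decide +kernel) h.1 h.1

def F_986 : FrX :=
  ⟨0x1c2102000004044000002041000101000082040890080080000802400200404020404060104004008340110808000410100080022050220008022200080,
    0x0, 0, 0x53637486, 4,
    [(0x0, 0), (0x205386a9, 4), (0x105487a9, 4), (0x214376a9, 4), (0x205386a9, 4), (0x105487a9, 4)],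
    [(0x53637486, 4), (0x20437586, 4), (0x107384a9, 4), (0x436587a9, 4), (0x107384a9, 4), (0x21536487, 4), (0x207685a9, 4), (0x436587a9, 4), (0x207685a9, 4), (0x10657483, 4), (0x436587a9, 4), (0x21536487, 4)]⟩

def c_986 : frmChk tA tB F_986 = true := by decide +kernel

def r_986_0 : chkL rootF engF2 tA tB sA_249 sB_249 4 F_986 [(255, 0, 0), (256, 0, 3)]
    0x1 = true := by
  decide +kernel

def r_986_1 : chkL rootF engF2 tA tB sA_249 sB_249 4 F_986 [(256, 3, 3)]
    0x10783c1985a16866 = true := by
  decide +kernel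

def r_986_2 : chkL rootF engF2 tA tB sA_249 sB_249 4 F_986 [(256, 6, 4)]
    0x472154723483a = true := by
  decide +kernel

def r_986_3 : chkL rootF engF2 tA tB sA_249 sB_249 4 F_986 [(256, 10, 5)]
    0x10b80f0f00f = true := by
  decide +kernel

def r_986_4 : chkL rootF engF2 tA tB sA_249 sB_249 4 F_986 [(256, 15, 3)]
    0x43a = true := by
  decide +kernel

def r_986_5 : chkL rootF engF2 tA tB sA_249 sB_249 4 F_986 [(256, 18, 10)]
    0x10e66290e5211c47a485c1c8563487211c4711f84168a6348723482b1705a0e6520ac66168665886611d46170275186650d435185a5194cd10c334871348531c84e09c65 = true := by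
  decide +kernel

def r_986_6 : chkL rootF engF2 tA tB sA_249 sB_249 4 F_986 [(256, 28, 12)]
    0x43c1680f03c3c = true := by
  decide +kernel

def r_986_7 : chkL rootF engF2 tA tB sA_249 sB_249 4 F_986 [(256, 40, 0)]
    0x1 = true := by
  decide +kernel

theorem f_986 (h : TabsF) : FrameF repsF 249 F_986.f :=
  frame_of rfl c_986 ((runs_of engOK r_986_0).append ((runs_of engOK r_986_1).append ((runs_of engOK r_986_2).append ((runs_of engOK r_986_3).append ((runs_of engOK r_986_4).append ((runs_of engOK r_986_5).append ((runs_of engOK r_986_6).append (runs_of engOK r_986_7)))))))) (by decide +kernel) h.1 h.2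

def F_987 : FrX :=
  ⟨0x2002000900044004000e02041000141000800040800801014010080101000182008204004024000410800202000048040300001011080220404011410200,
    0xa3, 1, 0x104350608098a2, 7,
    [(0xa3, 1), (0x208693a5, 4), (0x10548793, 4), (0x217693a4, 4), (0x208693a5, 4), (0x10548793, 4)],
    [(0x104350608098a2, 7), (0x416295a8, 4), (0x31628097, 4), (0x436275a0, 4), (0x416295a8, 4), (0x31628097, 4)]⟩

def c_987 : frmChk tA tA F_987 = true := by decide +kernel

def r_987_0 : chkL rootF engF2 tA tA sA_249 sA_249 4 F_987 [(511, 0, 0)]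
    0x105c5509c0f13447 = true := by
  decide +kernel

theorem f_987 (h : TabsF) : FrameF repsF 249 F_987.f :=
  frame_of rfl c_987 (runs_of engOK r_987_0) (by decide +kernel) h.1 h.1

def F_988 : FrX :=
  ⟨0x2002000900044004000e02041000141000800040800400484001202012000c0002002400110400040c000100800048800280080084804006022202041000,
    0xa3, 1, 0x10435163708697a6, 8,
    [(0xa3, 1), (0x208693a5, 4), (0x10548793, 4), (0x217693a4, 4), (0x208693a5, 4), (0x10548793, 4)],
    [(0x10435163708697a6, 8), (0x607281a4, 4), (0x30758194, 4), (0x526381a9, 4), (0x607281a4, 4), (0x30758194, 4)]⟩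

def c_988 : frmChk tA tA F_988 = true := by decide +kernel

def r_988_0 : chkL rootF engF2 tA tA sA_249 sA_249 4 F_988 [(255, 0, 0), (256, 0, 20)]
    0x4270e80f03c4b50c0f03c4b0ac35 = true := by
  decide +kernel

def r_988_1 : chkL rootF engF2 tA tA sA_249 sA_249 4 F_988 [(256, 20, 0)]
    0x45506c1705c3322c35 = true := by
  decide +kernel

theorem f_988 (h : TabsF) : FrameF repsF 249 F_988.f :=
  frame_of rfl c_988 ((runs_of engOK r_988_0).append (runs_of engOK r_988_1)) (by decide +kernel) h.1 h.1

def F_989 : FrX :=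
  ⟨0x482000044040440000c2040020009000182040001080480001080180020101800800070800040000086220408000040084090110201082010000040084,
    0xa0, 1, 0x102130536291a8, 7,
    [(0xa0, 1), (0x538690a2, 4), (0x548790a1, 4), (0x21437690, 4), (0x538690a2, 4), (0x548790a1, 4)],
    [(0x102130536291a8, 7), (0x516382a0, 4), (0x418293a7, 4), (0x54708296, 4), (0x516382a0, 4), (0x418293a7, 4)]⟩

def c_989 : frmChk tA tA F_989 = true := by decide +kernel

def r_989_0 : chkL rootF engF2 tA tA sA_249 sA_249 4 F_989 [(255, 0, 0), (256, 0, 23)]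
    0x10ad461941e25915 = true := by
  decide +kernel

def r_989_1 : chkL rootF engF2 tA tA sA_249 sA_249 4 F_989 [(256, 23, 0)]
    0x1270c59503314f48625c8 = true := by
  decide +kernel

theorem f_989 (h : TabsF) : FrameF repsF 249 F_989.f :=
  frame_of rfl c_989 ((runs_of engOK r_989_0).append (runs_of engOK r_989_1)) (by decide +kernel) h.1 h.1

def F_990 : FrX :=
  ⟨0x2002000900044004000e0204100014100080004081001808401000011100040202002402010400400c040110800000011100081080040a20008042201001,
    0xa3, 1, 0x43728592a2, 5,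
    [(0xa3, 1), (0x208693a5, 4), (0x10548793, 4), (0x217693a4, 4), (0x208693a5, 4), (0x10548793, 4)],
    [(0x43728592a2, 5), (0x536482a0, 4), (0x10628397, 4), (0x54638297, 4), (0x10628397, 4), (0x426385a1, 4), (0x436597a0, 4), (0x54638297, 4), (0x436597a0, 4), (0x10325486, 4), (0x54638297, 4), (0x426385a1, 4)]⟩

def c_990 : frmChk tA tB F_990 = true := by decide +kernel

def r_990_0 : chkL rootF engF2 tA tB sA_249 sB_249 4 F_990 [(511, 0, 0)]
    0x42d0b5681d01b = true := by
  decide +kernel

theorem f_990 (h : TabsF) : FrameF repsF 249 F_990.f :=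
  frame_of rfl c_990 (runs_of engOK r_990_0) (by decide +kernel) h.1 h.2

def F_991 : FrX :=
  ⟨0x482000044040440000c204002000900018204000090200080408010000088800482202180e000002000030404000800012400080450104001200000043,
    0xa0, 1, 0x103063718297a4, 7,
    [(0xa0, 1), (0x538690a2, 4), (0x548790a1, 4), (0x21437690, 4), (0x538690a2, 4), (0x548790a1, 4)],
    [(0x103063718297a4, 7), (0x618395a2, 4), (0x407391a5, 4), (0x406295a1, 4), (0x407391a5, 4), (0x528796a1, 4), (0x214083a6, 4), (0x406295a1, 4), (0x214083a6, 4), (0x516273a9, 4), (0x406295a1, 4), (0x528796a1, 4)]⟩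

def c_991 : frmChk tA tB F_991 = true := by decide +kernel

def r_991_0 : chkL rootF engF2 tA tB sA_249 sB_249 4 F_991 [(255, 0, 0), (256, 0, 22)]
    0x41b21c2e = true := by
  decide +kernel

def r_991_1 : chkL rootF engF2 tA tB sA_249 sB_249 4 F_991 [(256, 22, 0)]
    0x45612c55454273281b = true := by
  decide +kernel

theorem f_991 (h : TabsF) : FrameF repsF 249 F_991.f :=
  frame_of rfl c_991 ((runs_of engOK r_991_0).append (runs_of engOK r_991_1)) (by decide +kernel) h.1 h.2

def F_992 : FrX :=
  ⟨0x80080a000804040e000021010020010000020408a000100110040024841400000508002100e00400a010000004100801001100080002804000824640200,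
    0xa6, 1, 0x203042657498a1, 7,
    [(0xa6, 1), (0x205396a8, 4), (0x10548796, 4), (0x214396a7, 4), (0x205396a8, 4), (0x10548796, 4)],
    [(0x203042657498a1, 7), (0x43628195, 4), (0x768190a3, 4), (0x507281a4, 4), (0x43628195, 4), (0x768190a3, 4)]⟩

def c_992 : frmChk tA tA F_992 = true := by decide +kernel

def r_992_0 : chkL rootF engF2 tA tA sA_249 sA_249 4 F_992 [(255, 0, 0), (256, 0, 23)]
    0x15490d = true := by
  decide +kernel

def r_992_1 : chkL rootF engF2 tA tA sA_249 sA_249 4 F_992 [(256, 23, 0)]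
    0x4d21682e14c171b01711c5314c2b03d3214c17 = true := by
  decide +kernel

theorem f_992 (h : TabsF) : FrameF repsF 249 F_992.f :=
  frame_of rfl c_992 ((runs_of engOK r_992_0).append (runs_of engOK r_992_1)) (by decide +kernel) h.1 h.1

def F_993 : FrX :=
  ⟨0x2002000900044004000e02041000141000800040801002680000c00200812000000022220122000024020008401000802004002020422200002140014044,
    0xa3, 1, 0x1042536384a3, 6,
    [(0xa3, 1), (0x208693a5, 4), (0x10548793, 4), (0x217693a4, 4), (0x208693a5, 4), (0x10548793, 4)],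
    [(0x1042536384a3, 6), (0x415296a3, 4), (0x10728396, 4), (0x407596a8, 4), (0x415296a3, 4), (0x10728396, 4)]⟩

def c_993 : frmChk tA tA F_993 = true := by decide +kernel

def r_993_0 : chkL rootF engF2 tA tA sA_249 sA_249 4 F_993 [(255, 0, 0), (256, 0, 20)]
    0x41d1360d0b44e09ca9 = true := by
  decide +kernel

def r_993_1 : chkL rootF engF2 tA tA sA_249 sA_249 4 F_993 [(256, 20, 21)]
    0x4270b42d4a8330d90d0e8561344d1940f05d980e817 = true := by
  decide +kernel

def r_993_2 : chkL rootF engF2 tA tA sA_249 sA_249 4 F_993 [(256, 41, 0)]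
    0x1 = true := by
  decide +kernel

theorem f_993 (h : TabsF) : FrameF repsF 249 F_993.f :=
  frame_of rfl c_993 ((runs_of engOK r_993_0).append ((runs_of engOK r_993_1).append (runs_of engOK r_993_2))) (by decide +kernel) h.1 h.1

def F_994 : FrX :=
  ⟨0x80080a000804040e0000210100200100000204089001000422008810002400104080005000003100004800101320002436008004000060a000001080080,
    0xa6, 1, 0x31607190a8, 5,
    [(0xa6, 1), (0x205396a8, 4), (0x10548796, 4), (0x214396a7, 4), (0x205396a8, 4), (0x10548796, 4)],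
    [(0x31607190a8, 5), (0x518692a0, 4), (0x548697a3, 4), (0x30417286, 4), (0x518692a0, 4), (0x548697a3, 4)]⟩

def c_994 : frmChk tA tA F_994 = true := by decide +kernel

def r_994_0 : chkL rootF engF2 tA tA sA_249 sA_249 4 F_994 [(255, 0, 0), (256, 0, 19)]
    0x148d070b82e0b86c0b82e4586c05d161b09c0e43a09c694582e4582e531465509c05c35458d406c5a06c0f0e87403c470cc1711c0f1561c9602e1d02e = true := by
  decide +kernel

def r_994_1 : chkL rootF engF2 tA tA sA_249 sA_249 4 F_994 [(256, 19, 0)]
    0x4590746a0764630c0f = true := by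
  decide +kernel

theorem f_994 (h : TabsF) : FrameF repsF 249 F_994.f :=
  frame_of rfl c_994 ((runs_of engOK r_994_0).append (runs_of engOK r_994_1)) (by decide +kernel) h.1 h.1

def F_995 : FrX :=
  ⟨0x482000044040440000c204002000900018204000108102000102080004005001002052000104058208020020200020c084008000450000001004010450,
    0xa0, 1, 0x324351708397a4, 7,
    [(0xa0, 1), (0x538690a2, 4), (0x548790a1, 4), (0x21437690, 4), (0x538690a2, 4), (0x548790a1, 4)],
    [(0x324351708397a4, 7), (0x738691a4, 4), (0x207596a1, 4), (0x208491a6, 4), (0x207596a1, 4), (0x415398a6, 4), (0x206473a8, 4), (0x208491a6, 4), (0x206473a8, 4), (0x617584a9, 4), (0x208491a6, 4), (0x415398a6, 4)]⟩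

def c_995 : frmChk tA tB F_995 = true := by decide +kernel

def r_995_0 : chkL rootF engF2 tA tB sA_249 sB_249 4 F_995 [(255, 0, 0), (256, 0, 23)]
    0x40f09c33 = true := by
  decide +kernel

def r_995_1 : chkL rootF engF2 tA tB sA_249 sB_249 4 F_995 [(256, 23, 0)]
    0x10f017 = true := by
  decide +kernel

theorem f_995 (h : TabsF) : FrameF repsF 249 F_995.f :=
  frame_of rfl c_995 ((runs_of engOK r_995_0).append (runs_of engOK r_995_1)) (by decide +kernel) h.1 h.2

def F_996 : FrX :=
  ⟨0x1001040012008080000e008408004100081010000408080480200081000800824880000881a0001040081004800800202100000111080600508000801100,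
    0xa3, 1, 0x1030428594a6, 6,
    [(0xa3, 1), (0x207584a6, 4), (0x10547693, 4), (0x647593a8, 4), (0x10547693, 4), (0x216485a7, 4), (0x208693a4, 4), (0x647593a8, 4), (0x208693a4, 4), (0x106574a8, 4), (0x647593a8, 4), (0x216485a7, 4)],
    [(0x1030428594a6, 6), (0x436281a5, 4), (0x30627598, 4), (0x406291a7, 4), (0x436281a5, 4), (0x30627598, 4)]⟩

def c_996 : frmChk tB tA F_996 = true := by decide +kernel

def r_996_0 : chkL rootF engF2 tB tA sB_249 sA_249 4 F_996 [(255, 0, 0), (256, 0, 25)]
    0x44b05c1709c27 = true := by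
  decide +kernel

def r_996_1 : chkL rootF engF2 tB tA sB_249 sA_249 4 F_996 [(256, 25, 0)]
    0x447 = true := by
  decide +kernel

theorem f_996 (h : TabsF) : FrameF repsF 249 F_996.f :=
  frame_of rfl c_996 ((runs_of engOK r_996_0).append (runs_of engOK r_996_1)) (by decide +kernel) h.2 h.1

def F_997 : FrX :=
  ⟨0x1001040012008080000e00840800410008101000042100001101050005000044020108002020200800022402020020040008100c0a000c0c020102020004,
    0xa3, 1, 0x425261728698a6, 7,
    [(0xa3, 1), (0x207584a6, 4), (0x10547693, 4), (0x647593a8, 4), (0x10547693, 4), (0x216485a7, 4), (0x208693a4, 4), (0x647593a8, 4), (0x208693a4, 4), (0x106574a8, 4), (0x647593a8, 4), (0x216485a7, 4)],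
    [(0x425261728698a6, 7), (0x437081a9, 4), (0x42608195, 4), (0x327681a5, 4), (0x437081a9, 4), (0x42608195, 4)]⟩

def c_997 : frmChk tB tA F_997 = true := by decide +kernel

def r_997_0 : chkL rootF engF2 tB tA sB_249 sA_249 4 F_997 [(255, 0, 0), (256, 0, 23)]
    0x41e03c9a05c2b09c27 = true := by
  decide +kernel

def r_997_1 : chkL rootF engF2 tB tA sB_249 sA_249 4 F_997 [(256, 23, 0)]
    0x10cd0d0ac1e = true := by
  decide +kernel

theorem f_997 (h : TabsF) : FrameF repsF 249 F_997.f :=
  frame_of rfl c_997 ((runs_of engOK r_997_0).append (runs_of engOK r_997_1)) (by decide +kernel) h.2 h.1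

def F_998 : FrX :=
  ⟨0x600020801080810000c004018041010100100401010000440000422040402208840000080081020040410088000880061400100002800400c400210028,
    0xa0, 1, 0x10203052728398a6, 8,
    [(0xa0, 1), (0x637584a2, 4), (0x547690a1, 4), (0x64758390, 4), (0x547690a1, 4), (0x21647385, 4), (0x438690a2, 4), (0x64758390, 4), (0x438690a2, 4), (0x657483a1, 4), (0x64758390, 4), (0x21647385, 4)],
    [(0x10203052728398a6, 8), (0x627381a9, 4), (0x30416295, 4), (0x627084a5, 4), (0x627381a9, 4), (0x30416295, 4)]⟩

def c_998 : frmChk tB tA F_998 = true := by decide +kernel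

def r_998_0 : chkL rootF engF2 tB tA sB_249 sA_249 4 F_998 [(255, 0, 0), (256, 0, 23)]
    0x10d8f0 = true := by
  decide +kernel

def r_998_1 : chkL rootF engF2 tB tA sB_249 sA_249 4 F_998 [(256, 23, 0)]
    0x433155433282e03c2b = true := by
  decide +kernel

theorem f_998 (h : TabsF) : FrameF repsF 249 F_998.f :=
  frame_of rfl c_998 ((runs_of engOK r_998_0).append (runs_of engOK r_998_1)) (by decide +kernel) h.2 h.1

def F_999 : FrX :=
  ⟨0x1001040012008080000e0084080041000810100006000002808003004102002801000a000100404140084200400020014004000c08000820440402020904,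
    0xa3, 1, 0x3153638591a4, 6,
    [(0xa3, 1), (0x207584a6, 4), (0x10547693, 4), (0x647593a8, 4), (0x10547693, 4), (0x216485a7, 4), (0x208693a4, 4), (0x647593a8, 4), (0x208693a4, 4), (0x106574a8, 4), (0x647593a8, 4), (0x216485a7, 4)],
    [(0x3153638591a4, 6), (0x206587a1, 4), (0x437590a8, 4), (0x436187a5, 4), (0x437590a8, 4), (0x768192a5, 4), (0x204351a6, 4), (0x436187a5, 4), (0x204351a6, 4), (0x618590a7, 4), (0x436187a5, 4), (0x768192a5, 4)]⟩

def c_999 : frmChk tB tB F_999 = true := by decide +kernel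

def r_999_0 : chkL rootF engF2 tB tB sB_249 sB_249 4 F_999 [(255, 0, 0), (256, 0, 23)]
    0x4171709a = true := by
  decide +kernel

def r_999_1 : chkL rootF engF2 tB tB sB_249 sB_249 4 F_999 [(256, 23, 24)]
    0x42b0d43505c2b0ac2b03c275481706d16 = true := by
  decide +kernel

def r_999_2 : chkL rootF engF2 tB tB sB_249 sB_249 4 F_999 [(256, 47, 0)]
    0x1 = true := by
  decide +kernel

theorem f_999 (h : TabsF) : FrameF repsF 249 F_999.f :=
  frame_of rfl c_999 ((runs_of engOK r_999_0).append ((runs_of engOK r_999_1).append (runs_of engOK r_999_2))) (by decide +kernel) h.2 h.2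

def F_1000 : FrX :=
  ⟨0x80080a000804040e000021010020010000020408924100040080040004400010408020602100100208080000141001010200810840100a04040d0200000,
    0xa6, 1, 0x20315460a8, 5,
    [(0xa6, 1), (0x205396a8, 4), (0x10548796, 4), (0x214396a7, 4), (0x205396a8, 4), (0x10548796, 4)],
    [(0x20315460a8, 5), (0x416098a2, 4), (0x546398a7, 4), (0x30517298, 4), (0x416098a2, 4), (0x546398a7, 4)]⟩

def c_1000 : frmChk tA tA F_1000 = true := by decide +kernel

def r_1000_0 : chkL rootF engF2 tA tA sA_249 sA_249 4 F_1000 [(255, 0, 0), (256, 0, 19)]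
    0x15330cd102e3844e391230e4e2384721c8391555118c36 = true := by
  decide +kernel

def r_1000_1 : chkL rootF engF2 tA tA sA_249 sA_249 4 F_1000 [(256, 19, 0)]
    0x11382ed805518c335871414d7087251951510e48d0b86611c47 = true := by
  decide +kernel

theorem f_1000 (h : TabsF) : FrameF repsF 249 F_1000.f :=
  frame_of rfl c_1000 ((runs_of engOK r_1000_0).append (runs_of engOK r_1000_1)) (by decide +kernel) h.1 h.1

def F_1001 : FrX :=
  ⟨0x2002000900044004000e02041000141000800040802002010120008208020a0202000800410400420a00000ac00000141041010002201000000822200084,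
    0xa3, 1, 0x10324351748092a0, 8,
    [(0xa3, 1), (0x208693a5, 4), (0x10548793, 4), (0x217693a4, 4), (0x208693a5, 4), (0x10548793, 4)],
    [(0x10324351748092a0, 8), (0x406183a9, 4), (0x217083a5, 4), (0x62748395, 4), (0x406183a9, 4), (0x217083a5, 4)]⟩

def c_1001 : frmChk tA tA F_1001 = true := by decide +kernel

def r_1001_0 : chkL rootF engF2 tA tA sA_249 sA_249 4 F_1001 [(255, 0, 0), (256, 0, 21)]
    0x105c1d03c0f = true := by
  decide +kernel

def r_1001_1 : chkL rootF engF2 tA tA sA_249 sA_249 4 F_1001 [(256, 21, 0)]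
    0x4650ac650d4360ac17 = true := by
  decide +kernel

theorem f_1001 (h : TabsF) : FrameF repsF 249 F_1001.f :=
  frame_of rfl c_1001 ((runs_of engOK r_1001_0).append (runs_of engOK r_1001_1)) (by decide +kernel) h.1 h.1

def F_1002 : FrX :=
  ⟨0x2002000900044004000e02041000141000800040810000082080802402004080140280004130810220800400010010100040001005001020401110009010,
    0xa3, 1, 0x3153748691a3, 6,
    [(0xa3, 1), (0x208693a5, 4), (0x10548793, 4), (0x217693a4, 4), (0x208693a5, 4), (0x10548793, 4)],
    [(0x3153748691a3, 6), (0x204176a8, 4), (0x53718490, 4), (0x415387a6, 4), (0x53718490, 4), (0x618792a4, 4), (0x205386a7, 4), (0x415387a6, 4), (0x205386a7, 4), (0x748190a6, 4), (0x415387a6, 4), (0x618792a4, 4)]⟩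

def c_1002 : frmChk tA tB F_1002 = true := by decide +kernel

def r_1002_0 : chkL rootF engF2 tA tB sA_249 sB_249 4 F_1002 [(255, 0, 0), (256, 0, 23)]
    0x109c7409c2b258390e8560cc1709c650ae622c817 = true := by
  decide +kernel

def r_1002_1 : chkL rootF engF2 tA tB sA_249 sB_249 4 F_1002 [(256, 23, 0)]
    0x41b1942b = true := by
  decide +kernel

theorem f_1002 (h : TabsF) : FrameF repsF 249 F_1002.f :=
  frame_of rfl c_1002 ((runs_of engOK r_1002_0).append (runs_of engOK r_1002_1)) (by decide +kernel) h.1 h.2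

def F_1003 : FrX :=
  ⟨0x2002000900044004000e02041000141000800040800801018808024002000180200100820008008080420111800000148100800010808800400042021012,
    0xa3, 1, 0x21425060a3, 5,
    [(0xa3, 1), (0x208693a5, 4), (0x10548793, 4), (0x217693a4, 4), (0x208693a5, 4), (0x10548793, 4)],
    [(0x21425060a3, 5), (0x648593a0, 4), (0x10628793, 4), (0x427593a1, 4), (0x648593a0, 4), (0x10628793, 4)]⟩

def c_1003 : frmChk tA tA F_1003 = true := by decide +kernel

def r_1003_0 : chkL rootF engF2 tA tA sA_249 sA_249 4 F_1003 [(255, 0, 0), (256, 0, 17)]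
    0x4331c4b103c1b06c0f03c33 = true := by
  decide +kernel

def r_1003_1 : chkL rootF engF2 tA tA sA_249 sA_249 4 F_1003 [(256, 17, 12)]
    0x48b09c0f = true := by
  decide +kernel

def r_1003_2 : chkL rootF engF2 tA tA sA_249 sA_249 4 F_1003 [(256, 29, 0)]
    0x44b3141b = true := by
  decide +kernel

theorem f_1003 (h : TabsF) : FrameF repsF 249 F_1003.f :=
  frame_of rfl c_1003 ((runs_of engOK r_1003_0).append ((runs_of engOK r_1003_1).append (runs_of engOK r_1003_2))) (by decide +kernel) h.1 h.1

def F_1004 : FrX :=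
  ⟨0x482000044040440000c2040020009000182040010010048008000084020108208440010000048400800430880101500048004010200800100802000504,
    0xa0, 1, 0x435464708592a6, 7,
    [(0xa0, 1), (0x538690a2, 4), (0x548790a1, 4), (0x21437690, 4), (0x538690a2, 4), (0x548790a1, 4)],
    [(0x435464708592a6, 7), (0x638097a4, 4), (0x527186a0, 4), (0x435280a6, 4), (0x527186a0, 4), (0x408391a6, 4), (0x526497a3, 4), (0x435280a6, 4), (0x526497a3, 4), (0x436071a8, 4), (0x435280a6, 4), (0x408391a6, 4)]⟩

def c_1004 : frmChk tA tB F_1004 = true := by decide +kernel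

def r_1004_0 : chkL rootF engF2 tA tB sA_249 sB_249 4 F_1004 [(255, 0, 0), (256, 0, 12)]
    0x1 = true := by
  decide +kernel

def r_1004_1 : chkL rootF engF2 tA tB sA_249 sB_249 4 F_1004 [(256, 12, 14)]
    0x105c2b28c9309c0f = true := by
  decide +kernel

def r_1004_2 : chkL rootF engF2 tA tB sA_249 sB_249 4 F_1004 [(256, 26, 0)]
    0x44e03c1e0781e0741d0744b = true := by
  decide +kernel

theorem f_1004 (h : TabsF) : FrameF repsF 249 F_1004.f :=
  frame_of rfl c_1004 ((runs_of engOK r_1004_0).append ((runs_of engOK r_1004_1).append (runs_of engOK r_1004_2))) (by decide +kernel) h.1 h.2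

def F_1005 : FrX :=
  ⟨0x2002000900044004000e0204100014100080004080800020812000011000a208200040104040009010040082028400800224202040080800044080008840,
    0xa3, 1, 0x2152608091a5, 6,
    [(0xa3, 1), (0x208693a5, 4), (0x10548793, 4), (0x217693a4, 4), (0x208693a5, 4), (0x10548793, 4)],
    [(0x2152608091a5, 6), (0x306485a7, 4), (0x217098a4, 4), (0x214063a7, 4), (0x217098a4, 4), (0x407395a6, 4), (0x21436085, 4), (0x214063a7, 4), (0x21436085, 4), (0x637498a0, 4), (0x214063a7, 4), (0x407395a6, 4)]⟩

def c_1005 : frmChk tA tB F_1005 = true := by decide +kernel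

def r_1005_0 : chkL rootF engF2 tA tB sA_249 sB_249 4 F_1005 [(255, 0, 0), (256, 0, 19)]
    0x10f00f07853 = true := by
  decide +kernel

def r_1005_1 : chkL rootF engF2 tA tB sA_249 sB_249 4 F_1005 [(256, 19, 22)]
    0x103c270b42d03c1d438271701d074274d02d = true := by
  decide +kernel

def r_1005_2 : chkL rootF engF2 tA tB sA_249 sB_249 4 F_1005 [(256, 41, 0)]
    0x1 = true := by
  decide +kernel

theorem f_1005 (h : TabsF) : FrameF repsF 249 F_1005.f :=
  frame_of rfl c_1005 ((runs_of engOK r_1005_0).append ((runs_of engOK r_1005_1).append (runs_of engOK r_1005_2))) (by decide +kernel) h.1 h.2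

theorem cl_249 (h : TabsF) : ∀ f ∈ fr_249, FrameF repsF 249 f :=
  List.forall_mem_cons.2 ⟨f_978 h, List.forall_mem_cons.2 ⟨f_979 h, List.forall_mem_cons.2 ⟨f_980 h, List.forall_mem_cons.2 ⟨f_981 h, List.forall_mem_cons.2 ⟨f_982 h, List.forall_mem_cons.2 ⟨f_983 h, List.forall_mem_cons.2 ⟨f_984 h, List.forall_mem_cons.2 ⟨f_985 h, List.forall_mem_cons.2 ⟨f_986 h, List.forall_mem_cons.2 ⟨f_987 h, List.forall_mem_cons.2 ⟨f_988 h, List.forall_mem_cons.2 ⟨f_989 h, List.forall_mem_cons.2 ⟨f_990 h, List.forall_mem_cons.2 ⟨f_991 h, List.forall_mem_cons.2 ⟨f_992 h, List.forall_mem_cons.2 ⟨f_993 h, List.forall_mem_cons.2 ⟨f_994 h, List.forall_mem_cons.2 ⟨f_995 h, List.forall_mem_cons.2 ⟨f_996 h, List.forall_mem_cons.2 ⟨f_997 h, List.forall_mem_cons.2 ⟨f_998 h, List.forall_mem_cons.2 ⟨f_999 h, List.forall_mem_cons.2 ⟨f_1000 h, List.forall_mem_cons.2 ⟨f_1001 h, List.forall_mem_cons.2 ⟨f_1002 h, List.forall_mem_cons.2 ⟨f_1003 h, List.forall_mem_cons.2 ⟨f_1004 h, List.forall_mem_cons.2 ⟨f_1005 h,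
    fun _ h0 => absurd h0 List.not_mem_nil⟩⟩⟩⟩⟩⟩⟩⟩⟩⟩⟩⟩⟩⟩⟩⟩⟩⟩⟩⟩⟩⟩⟩⟩⟩⟩⟩⟩

def F_1006 : FrX :=
  ⟨0x1001040012008080000e00840800410008101000040808100810100821000084004100820000182260000808011000012614020400000408100100040084,
    0xa3, 1, 0x314261758698a6, 7,
    [(0xa3, 1), (0x207584a6, 4), (0x10547693, 4), (0x647593a8, 4), (0x10547693, 4), (0x216485a7, 4), (0x208693a4, 4), (0x647593a8, 4), (0x208693a4, 4), (0x106574a8, 4), (0x647593a8, 4), (0x216485a7, 4)],
    [(0x314261758698a6, 7), (0x407183a9, 4), (0x60728395, 4), (0x216483a5, 4), (0x407183a9, 4), (0x60728395, 4)]⟩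

def c_1006 : frmChk tB tA F_1006 = true := by decide +kernel

def r_1006_0 : chkL rootF engF2 tB tA sB_250 sA_250 4 F_1006 [(255, 0, 0), (256, 0, 14)]
    0x43909c3c2a41e0781e = true := by
  decide +kernel

def r_1006_1 : chkL rootF engF2 tB tA sB_250 sA_250 4 F_1006 [(256, 14, 17)]
    0x1a2a8907b06 = true := by
  decide +kernel

def r_1006_2 : chkL rootF engF2 tB tA sB_250 sA_250 4 F_1006 [(256, 31, 16)]
    0x40f0aca9 = true := by
  decide +kernel

def r_1006_3 : chkL rootF engF2 tB tA sB_250 sA_250 4 F_1006 [(256, 47, 0)]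
    0x1 = true := by
  decide +kernel

theorem f_1006 (h : TabsF) : FrameF repsF 250 F_1006.f :=
  frame_of rfl c_1006 ((runs_of engOK r_1006_0).append ((runs_of engOK r_1006_1).append ((runs_of engOK r_1006_2).append (runs_of engOK r_1006_3)))) (by decide +kernel) h.2 h.1

def F_1007 : FrX :=
  ⟨0x1001040012008080000e00840800410008101000042080040050100140100082402000102020202088200810100808020700800c00004004040004010210,
    0xa3, 1, 0x21405460718191a3, 8,
    [(0xa3, 1), (0x207584a6, 4), (0x10547693, 4), (0x647593a8, 4), (0x10547693, 4), (0x216485a7, 4), (0x208693a4, 4), (0x647593a8, 4), (0x208693a4, 4), (0x106574a8, 4), (0x647593a8, 4), (0x216485a7, 4)],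
    [(0x21405460718191a3, 8), (0x617483a0, 4), (0x50728396, 4), (0x428391a5, 4), (0x617483a0, 4), (0x50728396, 4)]⟩

def c_1007 : frmChk tB tA F_1007 = true := by decide +kernel

def r_1007_0 : chkL rootF engF2 tB tA sB_250 sA_250 4 F_1007 [(255, 0, 0), (256, 0, 25)]
    0x10b41705c1709d6805c562346c0b5314a7210b42b = true := by
  decide +kernel

def r_1007_1 : chkL rootF engF2 tB tA sB_250 sA_250 4 F_1007 [(256, 25, 0)]
    0x4272941d09c1d235c1f0036d0b81f005a09c27 = true := by
  decide +kernel

theorem f_1007 (h : TabsF) : FrameF repsF 250 F_1007.f :=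
  frame_of rfl c_1007 ((runs_of engOK r_1007_0).append (runs_of engOK r_1007_1)) (by decide +kernel) h.2 h.1

def F_1008 : FrX :=
  ⟨0x1001040012008080000e00840800410008101000042100004048022000200044802002210400208120200810500008000804006000a00001108002820c00,
    0xa3, 1, 0x5261738397a4, 6,
    [(0xa3, 1), (0x207584a6, 4), (0x10547693, 4), (0x647593a8, 4), (0x10547693, 4), (0x216485a7, 4), (0x208693a4, 4), (0x647593a8, 4), (0x208693a4, 4), (0x106574a8, 4), (0x647593a8, 4), (0x216485a7, 4)],
    [(0x5261738397a4, 6), (0x43507182, 4), (0x436097a2, 4), (0x436591a8, 4), (0x43507182, 4), (0x436097a2, 4)]⟩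

def c_1008 : frmChk tB tA F_1008 = true := by decide +kernel

def r_1008_0 : chkL rootF engF2 tB tA sB_250 sA_250 4 F_1008 [(255, 0, 0), (256, 0, 24)]
    0x109c4794a1309ec8b8069 = true := by
  decide +kernel

def r_1008_1 : chkL rootF engF2 tB tA sB_250 sA_250 4 F_1008 [(256, 24, 0)]
    0x4b83600f944170b48b06c1e0783aa608bd109a0ac1790e159456122d6189907494550cc0f03c334cb241cb300cc33 = true := by
  decide +kernel

theorem f_1008 (h : TabsF) : FrameF repsF 250 F_1008.f :=
  frame_of rfl c_1008 ((runs_of engOK r_1008_0).append (runs_of engOK r_1008_1)) (by decide +kernel) h.2 h.1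

def F_1009 : FrX :=
  ⟨0x1001040012008080000e00840800410008101000042020100041400100144000440040120220010008204a00100800420000808200a00704008002001010,
    0xa3, 1, 0x104150728793a2, 7,
    [(0xa3, 1), (0x207584a6, 4), (0x10547693, 4), (0x647593a8, 4), (0x10547693, 4), (0x216485a7, 4), (0x208693a4, 4), (0x647593a8, 4), (0x208693a4, 4), (0x106574a8, 4), (0x647593a8, 4), (0x216485a7, 4)],
    [(0x104150728793a2, 7), (0x627391a5, 4), (0x10547382, 4), (0x738690a4, 4), (0x627391a5, 4), (0x10547382, 4)]⟩

def c_1009 : frmChk tB tA F_1009 = true := by decide +kernel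

def r_1009_0 : chkL rootF engF2 tB tA sB_250 sA_250 4 F_1009 [(255, 0, 0), (256, 0, 24)]
    0x41b0b4531941b14c65 = true := by
  decide +kernel

def r_1009_1 : chkL rootF engF2 tB tA sB_250 sA_250 4 F_1009 [(256, 24, 0)]
    0x47230cc330c53b08b22c417 = true := by
  decide +kernel

theorem f_1009 (h : TabsF) : FrameF repsF 250 F_1009.f :=
  frame_of rfl c_1009 ((runs_of engOK r_1009_0).append (runs_of engOK r_1009_1)) (by decide +kernel) h.2 h.1

def F_1010 : FrX :=
  ⟨0x600020801080810000c004018041010100100400404082000340002018000004002842000004a228000102001100410204204420010000014140008040,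
    0xa0, 1, 0x4353637098a0, 6,
    [(0xa0, 1), (0x637584a2, 4), (0x547690a1, 4), (0x64758390, 4), (0x547690a1, 4), (0x21647385, 4), (0x438690a2, 4), (0x64758390, 4), (0x438690a2, 4), (0x657483a1, 4), (0x64758390, 4), (0x21647385, 4)],
    [(0x4353637098a0, 6), (0x406593a2, 4), (0x435087a1, 4), (0x40538796, 4), (0x435087a1, 4), (0x21536094, 4), (0x638795a2, 4), (0x40538796, 4), (0x638795a2, 4), (0x305496a1, 4), (0x40538796, 4), (0x21536094, 4)]⟩

def c_1010 : frmChk tB tB F_1010 = true := by decide +kernel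

def r_1010_0 : chkL rootF engF2 tB tB sB_250 sB_250 4 F_1010 [(255, 0, 0), (256, 0, 22)]
    0x11545503cac0e81b = true := by
  decide +kernel

def r_1010_1 : chkL rootF engF2 tB tB sB_250 sB_250 4 F_1010 [(256, 22, 0)]
    0x119833628aa0e84d = true := by
  decide +kernel

theorem f_1010 (h : TabsF) : FrameF repsF 250 F_1010.f :=
  frame_of rfl c_1010 ((runs_of engOK r_1010_0).append (runs_of engOK r_1010_1)) (by decide +kernel) h.2 h.2

def F_1011 : FrX :=
  ⟨0x600020801080810000c0040180410101001004010020028000440420180200080020404018048208004100001101210008100100102000100900111100,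
    0xa0, 1, 0x104152618391a3, 7,
    [(0xa0, 1), (0x637584a2, 4), (0x547690a1, 4), (0x64758390, 4), (0x547690a1, 4), (0x21647385, 4), (0x438690a2, 4), (0x64758390, 4), (0x438690a2, 4), (0x657483a1, 4), (0x64758390, 4), (0x21647385, 4)],
    [(0x104152618391a3, 7), (0x305172a4, 4), (0x20748691, 4), (0x407286a3, 4), (0x20748691, 4), (0x324095a7, 4), (0x435186a0, 4), (0x407286a3, 4), (0x435186a0, 4), (0x427091a3, 4), (0x407286a3, 4), (0x324095a7, 4)]⟩

def c_1011 : frmChk tB tB F_1011 = true := by decide +kernel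

def r_1011_0 : chkL rootF engF2 tB tB sB_250 sB_250 4 F_1011 [(255, 0, 0), (256, 0, 26)]
    0x45303d07 = true := by
  decide +kernel

def r_1011_1 : chkL rootF engF2 tB tB sB_250 sB_250 4 F_1011 [(256, 26, 0)]
    0x41714c534c41b03c4e0cc330ac53 = true := by
  decide +kernel

theorem f_1011 (h : TabsF) : FrameF repsF 250 F_1011.f :=
  frame_of rfl c_1011 ((runs_of engOK r_1011_0).append (runs_of engOK r_1011_1)) (by decide +kernel) h.2 h.2

def F_1012 : FrX :=
  ⟨0x600020801080810000c00401804101010010040020102410000414020040400808000a6000220008002402000200800248181000002804020090080028,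
    0xa0, 1, 0x41627486a0, 5,
    [(0xa0, 1), (0x637584a2, 4), (0x547690a1, 4), (0x64758390, 4), (0x547690a1, 4), (0x21647385, 4), (0x438690a2, 4), (0x64758390, 4), (0x438690a2, 4), (0x657483a1, 4), (0x64758390, 4), (0x21647385, 4)],
    [(0x41627486a0, 5), (0x517283a6, 4), (0x758190a4, 4), (0x32518790, 4), (0x758190a4, 4), (0x31526487, 4), (0x738290a6, 4), (0x32518790, 4), (0x738290a6, 4), (0x327185a4, 4), (0x32518790, 4), (0x31526487, 4)]⟩

def c_1012 : frmChk tB tB F_1012 = true := by decide +kernel

def r_1012_0 : chkL rootF engF2 tB tB sB_250 sB_250 4 F_1012 [(255, 0, 0), (256, 0, 25)]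
    0x44e13855 = true := by
  decide +kernel

def r_1012_1 : chkL rootF engF2 tB tB sB_250 sB_250 4 F_1012 [(256, 25, 0)]
    0x116839078561541e299a20d4170b42b = true := by
  decide +kernel

theorem f_1012 (h : TabsF) : FrameF repsF 250 F_1012.f :=
  frame_of rfl c_1012 ((runs_of engOK r_1012_0).append (runs_of engOK r_1012_1)) (by decide +kernel) h.2 h.2

def F_1013 : FrX :=
  ⟨0x80080a000804040e000021010020010000020408a000040808040c10048020002001100010400420a010000c80219100000110041000004040825080000,
    0xa6, 1, 0x305461758696a4, 7,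
    [(0xa6, 1), (0x205396a8, 4), (0x10548796, 4), (0x214396a7, 4), (0x205396a8, 4), (0x10548796, 4)],
    [(0x305461758696a4, 7), (0x32708591, 4), (0x416385a7, 4), (0x628594a0, 4), (0x32708591, 4), (0x416385a7, 4)]⟩

def c_1013 : frmChk tA tA F_1013 = true := by decide +kernel

def r_1013_0 : chkL rootF engF2 tA tA sA_250 sA_250 4 F_1013 [(255, 0, 0), (256, 0, 22)]
    0x103c1b06c2b0b41d = true := by
  decide +kernel

def r_1013_1 : chkL rootF engF2 tA tA sA_250 sA_250 4 F_1013 [(256, 22, 0)]
    0x41d0b7128b02d5301d0741b06d92 = true := by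
  decide +kernel

theorem f_1013 (h : TabsF) : FrameF repsF 250 F_1013.f :=
  frame_of rfl c_1013 ((runs_of engOK r_1013_0).append (runs_of engOK r_1013_1)) (by decide +kernel) h.1 h.1

def F_1014 : FrX :=
  ⟨0x482000044040440000c204002000900018204000088104000802008001405001008042000800800808020880e00080a048000110028484000020000401,
    0xa0, 1, 0x213142658092a7, 7,
    [(0xa0, 1), (0x538690a2, 4), (0x548790a1, 4), (0x21437690, 4), (0x538690a2, 4), (0x548790a1, 4)],
    [(0x213142658092a7, 7), (0x50627498, 4), (0x617483a0, 4), (0x217493a5, 4), (0x50627498, 4), (0x617483a0, 4)]⟩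

def c_1014 : frmChk tA tA F_1014 = true := by decide +kernel

def r_1014_0 : chkL rootF engF2 tA tA sA_250 sA_250 4 F_1014 [(255, 0, 0), (256, 0, 21)]
    0x42715631c18170e81d8583a05c7224c6cc50270b82e = true := by
  decide +kernel

def r_1014_1 : chkL rootF engF2 tA tA sA_250 sA_250 4 F_1014 [(256, 21, 0)]
    0x43328c2e12c1706c4e05c27 = true := by
  decide +kernel

theorem f_1014 (h : TabsF) : FrameF repsF 250 F_1014.f :=
  frame_of rfl c_1014 ((runs_of engOK r_1014_0).append (runs_of engOK r_1014_1)) (by decide +kernel) h.1 h.1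

def F_1015 : FrX :=
  ⟨0x482000044040440000c2040020009000182040000408882008100010010410004022020002080080080140288000400211090040090c00010020200201,
    0xa0, 1, 0x1020637082a1, 6,
    [(0xa0, 1), (0x538690a2, 4), (0x548790a1, 4), (0x21437690, 4), (0x538690a2, 4), (0x548790a1, 4)],
    [(0x1020637082a1, 6), (0x31658790, 4), (0x215490a7, 4), (0x326490a8, 4), (0x31658790, 4), (0x215490a7, 4)]⟩

def c_1015 : frmChk tA tA F_1015 = true := by decide +kernel

def r_1015_0 : chkL rootF engF2 tA tA sA_250 sA_250 4 F_1015 [(255, 0, 0), (256, 0, 24)]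
    0x417 = true := by
  decide +kernel

def r_1015_1 : chkL rootF engF2 tA tA sA_250 sA_250 4 F_1015 [(256, 24, 0)]
    0x4390b43a0e817 = true := by
  decide +kernel

theorem f_1015 (h : TabsF) : FrameF repsF 250 F_1015.f :=
  frame_of rfl c_1015 ((runs_of engOK r_1015_0).append (runs_of engOK r_1015_1)) (by decide +kernel) h.1 h.1

def F_1016 : FrX :=
  ⟨0x2002000900044004000e0204100014100080004080800020e00120000882080200008022000008404088028082000084804020101010880020208000c004,
    0xa3, 1, 0x203285a4, 4,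
    [(0xa3, 1), (0x208693a5, 4), (0x10548793, 4), (0x217693a4, 4), (0x208693a5, 4), (0x10548793, 4)],
    [(0x203285a4, 4), (0x326087a5, 4), (0x217694a8, 4), (0x508794a6, 4), (0x217694a8, 4), (0x317085a6, 4), (0x326594a0, 4), (0x508794a6, 4), (0x326594a0, 4), (0x215086a7, 4), (0x508794a6, 4), (0x317085a6, 4)]⟩

def c_1016 : frmChk tA tB F_1016 = true := by decide +kernel

def r_1016_0 : chkL rootF engF2 tA tB sA_250 sB_250 4 F_1016 [(255, 0, 0), (256, 0, 23)]
    0x51cc60270cc3c12d0b0b40f0cc1e0b40f = true := by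
  decide +kernel

def r_1016_1 : chkL rootF engF2 tA tB sA_250 sB_250 4 F_1016 [(256, 23, 0)]
    0x14540f169940ac694a48781c1e0e48781c0f078870759403c8b0750b = true := by
  decide +kernel

theorem f_1016 (h : TabsF) : FrameF repsF 250 F_1016.f :=
  frame_of rfl c_1016 ((runs_of engOK r_1016_0).append (runs_of engOK r_1016_1)) (by decide +kernel) h.1 h.2

def F_1017 : FrX :=
  ⟨0x2002000900044004000e0204100014100080004080200201010440020822080002010802000400400a20004ac000001410c1010002201000000802200084,
    0xa3, 1, 0x2130718290a2, 6,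
    [(0xa3, 1), (0x208693a5, 4), (0x10548793, 4), (0x217693a4, 4), (0x208693a5, 4), (0x10548793, 4)],
    [(0x2130718290a2, 6), (0x415260a9, 4), (0x54628397, 4), (0x10526483, 4), (0x54628397, 4), (0x205164a7, 4), (0x406183a9, 4), (0x10526483, 4), (0x406183a9, 4), (0x10426597, 4), (0x10526483, 4), (0x205164a7, 4)]⟩

def c_1017 : frmChk tA tB F_1017 = true := by decide +kernel

def r_1017_0 : chkL rootF engF2 tA tB sA_250 sB_250 4 F_1017 [(255, 0, 0), (256, 0, 22)]
    0x48d0d88d0784d05c1e1951344c2b = true := by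
  decide +kernel

def r_1017_1 : chkL rootF engF2 tA tB sA_250 sB_250 4 F_1017 [(256, 22, 0)]
    0x4170783a0e40f0781703d4a0ac17 = true := by
  decide +kernel

theorem f_1017 (h : TabsF) : FrameF repsF 250 F_1017.f :=
  frame_of rfl c_1017 ((runs_of engOK r_1017_0).append (runs_of engOK r_1017_1)) (by decide +kernel) h.1 h.2

def F_1018 : FrX :=
  ⟨0x482000044040440000c204002000900018204000040a02080408020008008800402203100c000002000030404000008012408080450104001200000043,
    0xa0, 1, 0x5364728190a0, 6,
    [(0xa0, 1), (0x538690a2, 4), (0x548790a1, 4), (0x21437690, 4), (0x538690a2, 4), (0x548790a1, 4)],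
    [(0x5364728190a0, 6), (0x415390a7, 4), (0x216390a8, 4), (0x42658790, 4), (0x415390a7, 4), (0x216390a8, 4)]⟩

def c_1018 : frmChk tA tA F_1018 = true := by decide +kernel

def r_1018_0 : chkL rootF engF2 tA tA sA_250 sA_250 4 F_1018 [(255, 0, 0), (256, 0, 19)]
    0x106e1c03e0e14c2b06c2e = true := by
  decide +kernel

def r_1018_1 : chkL rootF engF2 tA tA sA_250 sA_250 4 F_1018 [(256, 19, 0)]
    0x1ca303a8b2242f281381b0b81b06c8e0d41b11c47 = true := by
  decide +kernel

theorem f_1018 (h : TabsF) : FrameF repsF 250 F_1018.f :=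
  frame_of rfl c_1018 ((runs_of engOK r_1018_0).append (runs_of engOK r_1018_1)) (by decide +kernel) h.1 h.1

def F_1019 : FrX :=
  ⟨0x80080a000804040e0000210100200100000204088201020402048010002400004088005002001100004800101320002432000204100060a000005080000,
    0xa6, 1, 0x314050718494a6, 7,
    [(0xa6, 1), (0x205396a8, 4), (0x10548796, 4), (0x214396a7, 4), (0x205396a8, 4), (0x10548796, 4)],
    [(0x314050718494a6, 7), (0x435290a1, 4), (0x758694a3, 4), (0x104386a9, 4), (0x758694a3, 4), (0x314072a9, 4), (0x528691a0, 4), (0x104386a9, 4), (0x528691a0, 4), (0x107593a4, 4), (0x104386a9, 4), (0x314072a9, 4)]⟩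

def c_1019 : frmChk tA tB F_1019 = true := by decide +kernel

def r_1019_0 : chkL rootF engF2 tA tB sA_250 sB_250 4 F_1019 [(255, 0, 0), (256, 0, 25)]
    0x121cc51344b1390b1540f16439 = true := by
  decide +kernel

def r_1019_1 : chkL rootF engF2 tA tB sA_250 sB_250 4 F_1019 [(256, 25, 0)]
    0x42d0ac695496246558549c24d145c9161455326451c1595844d235858924d136444d0744e3303603c2d434d1344ac1384e1b08d = true := by
  decide +kernel

theorem f_1019 (h : TabsF) : FrameF repsF 250 F_1019.f :=
  frame_of rfl c_1019 ((runs_of engOK r_1019_0).append (runs_of engOK r_1019_1)) (by decide +kernel) h.1 h.2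

def F_1020 : FrX :=
  ⟨0x482000044040440000c204002000900018204000108102000102080004005001002052000104148002000420300020c084008000440400104004800440,
    0xa0, 1, 0x324351708397a4, 7,
    [(0xa0, 1), (0x538690a2, 4), (0x548790a1, 4), (0x21437690, 4), (0x538690a2, 4), (0x548790a1, 4)],
    [(0x324351708397a4, 7), (0x738691a4, 4), (0x207596a1, 4), (0x208491a6, 4), (0x207596a1, 4), (0x415398a6, 4), (0x206473a8, 4), (0x208491a6, 4), (0x206473a8, 4), (0x617584a9, 4), (0x208491a6, 4), (0x415398a6, 4)]⟩

def c_1020 : frmChk tA tB F_1020 = true := by decide +kernel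

def r_1020_0 : chkL rootF engF2 tA tB sA_250 sB_250 4 F_1020 [(255, 0, 0), (256, 0, 22)]
    0x4174352503c8d3308b0da4503e0b0ea0d9140f82c3a834330741d = true := by
  decide +kernel

def r_1020_1 : chkL rootF engF2 tA tB sA_250 sB_250 4 F_1020 [(256, 22, 0)]
    0x10f03605c5505c1b = true := by
  decide +kernel

theorem f_1020 (h : TabsF) : FrameF repsF 250 F_1020.f :=
  frame_of rfl c_1020 ((runs_of engOK r_1020_0).append (runs_of engOK r_1020_1)) (by decide +kernel) h.1 h.2

def F_1021 : FrX :=
  ⟨0x1001040012008080000e008408004100081010000441000004a0002020000884805200010028010820022400404000022100800204024040002000060848,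
    0xa3, 1, 0x3241608795a3, 6,
    [(0xa3, 1), (0x207584a6, 4), (0x10547693, 4), (0x647593a8, 4), (0x10547693, 4), (0x216485a7, 4), (0x208693a4, 4), (0x647593a8, 4), (0x208693a4, 4), (0x106574a8, 4), (0x647593a8, 4), (0x216485a7, 4)],
    [(0x3241608795a3, 6), (0x637198a0, 4), (0x52648091, 4), (0x105298a7, 4), (0x52648091, 4), (0x104397a8, 4), (0x526370a1, 4), (0x105298a7, 4), (0x526370a1, 4), (0x648190a7, 4), (0x105298a7, 4), (0x104397a8, 4)]⟩

def c_1021 : frmChk tB tB F_1021 = true := by decide +kernel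

def r_1021_0 : chkL rootF engF2 tB tB sB_250 sB_250 4 F_1021 [(255, 0, 0), (256, 0, 15)]
    0x132835268ca14c1e078270d435 = true := by
  decide +kernel

def r_1021_1 : chkL rootF engF2 tB tB sB_250 sB_250 4 F_1021 [(256, 15, 17)]
    0x40f03e6807859455164546914c2d03c27 = true := by
  decide +kernel

def r_1021_2 : chkL rootF engF2 tB tB sB_250 sB_250 4 F_1021 [(256, 32, 0)]
    0x6250d465 = true := by
  decide +kernel

theorem f_1021 (h : TabsF) : FrameF repsF 250 F_1021.f :=
  frame_of rfl c_1021 ((runs_of engOK r_1021_0).append ((runs_of engOK r_1021_1).append (runs_of engOK r_1021_2))) (by decide +kernel) h.2 h.2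

theorem cl_250 (h : TabsF) : ∀ f ∈ fr_250, FrameF repsF 250 f :=
  List.forall_mem_cons.2 ⟨f_1006 h, List.forall_mem_cons.2 ⟨f_1007 h, List.forall_mem_cons.2 ⟨f_1008 h, List.forall_mem_cons.2 ⟨f_1009 h, List.forall_mem_cons.2 ⟨f_1010 h, List.forall_mem_cons.2 ⟨f_1011 h, List.forall_mem_cons.2 ⟨f_1012 h, List.forall_mem_cons.2 ⟨f_1013 h, List.forall_mem_cons.2 ⟨f_1014 h, List.forall_mem_cons.2 ⟨f_1015 h, List.forall_mem_cons.2 ⟨f_1016 h, List.forall_mem_cons.2 ⟨f_1017 h, List.forall_mem_cons.2 ⟨f_1018 h, List.forall_mem_cons.2 ⟨f_1019 h, List.forall_mem_cons.2 ⟨f_1020 h, List.forall_mem_cons.2 ⟨f_1021 h,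
    fun _ h0 => absurd h0 List.not_mem_nil⟩⟩⟩⟩⟩⟩⟩⟩⟩⟩⟩⟩⟩⟩⟩⟩

def F_1022 : FrX :=
  ⟨0x1001040012008080000e0084080041000810100004100810041020008420200800804200d02000102000801001480800144000501002004000c101010080,
    0xa3, 1, 0x203164758290a2, 7,
    [(0xa3, 1), (0x207584a6, 4), (0x10547693, 4), (0x647593a8, 4), (0x10547693, 4), (0x216485a7, 4), (0x208693a4, 4), (0x647593a8, 4), (0x208693a4, 4), (0x106574a8, 4), (0x647593a8, 4), (0x216485a7, 4)],
    [(0x203164758290a2, 7), (0x407182a9, 4), (0x50768293, 4), (0x546182a3, 4), (0x407182a9, 4), (0x50768293, 4)]⟩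

def c_1022 : frmChk tB tA F_1022 = true := by decide +kernel

def r_1022_0 : chkL rootF engF2 tB tA sB_251 sA_251 4 F_1022 [(255, 0, 0), (256, 0, 24)]
    0x10ebc0e05c270bc0078a90799122c0f0780f0ac360f035 = true := by
  decide +kernel

def r_1022_1 : chkL rootF engF2 tB tA sB_251 sA_251 4 F_1022 [(256, 24, 0)]
    0x4398a41b06db0 = true := by
  decide +kernel

theorem f_1022 (h : TabsF) : FrameF repsF 251 F_1022.f :=
  frame_of rfl c_1022 ((runs_of engOK r_1022_0).append (runs_of engOK r_1022_1)) (by decide +kernel) h.2 h.1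

def F_1023 : FrX :=
  ⟨0x1001040012008080000e00840800410008101000040500004404202000800884006000120018010c00022100024000210010800008a00901100000600300,
    0xa3, 1, 0x5260718293a1, 6,
    [(0xa3, 1), (0x207584a6, 4), (0x10547693, 4), (0x647593a8, 4), (0x10547693, 4), (0x216485a7, 4), (0x208693a4, 4), (0x647593a8, 4), (0x208693a4, 4), (0x106574a8, 4), (0x647593a8, 4), (0x216485a7, 4)],
    [(0x5260718293a1, 6), (0x50738692, 4), (0x425173a6, 4), (0x107394a8, 4), (0x50738692, 4), (0x425173a6, 4)]⟩

def c_1023 : frmChk tB tA F_1023 = true := by decide +kernel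

def r_1023_0 : chkL rootF engF2 tB tA sB_251 sA_251 4 F_1023 [(255, 0, 0), (256, 0, 14)]
    0x111c4706c1b = true := by
  decide +kernel

def r_1023_1 : chkL rootF engF2 tB tA sB_251 sA_251 4 F_1023 [(256, 14, 17)]
    0x103c8b06e61 = true := by
  decide +kernel

def r_1023_2 : chkL rootF engF2 tB tA sB_251 sA_251 4 F_1023 [(256, 31, 16)]
    0x45a134531341b22c1e = true := by
  decide +kernel

def r_1023_3 : chkL rootF engF2 tB tA sB_251 sA_251 4 F_1023 [(256, 47, 0)]
    0x1 = true := by
  decide +kernel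

theorem f_1023 (h : TabsF) : FrameF repsF 251 F_1023.f :=
  frame_of rfl c_1023 ((runs_of engOK r_1023_0).append ((runs_of engOK r_1023_1).append ((runs_of engOK r_1023_2).append (runs_of engOK r_1023_3)))) (by decide +kernel) h.2 h.1

def F_1024 : FrX :=
  ⟨0x1001040012008080000e0084080041000810100004804000404120002082080200a000220010048008084142800000420010800404200080082000604440,
    0xa3, 1, 0x20305361728392a0, 8,
    [(0xa3, 1), (0x207584a6, 4), (0x10547693, 4), (0x647593a8, 4), (0x10547693, 4), (0x216485a7, 4), (0x208693a4, 4), (0x647593a8, 4), (0x208693a4, 4), (0x106574a8, 4), (0x647593a8, 4), (0x216485a7, 4)],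
    [(0x20305361728392a0, 8), (0x205481a9, 4), (0x104273a6, 4), (0x20417385, 4), (0x104273a6, 4), (0x41528096, 4), (0x517384a9, 4), (0x20417385, 4), (0x517384a9, 4), (0x214085a6, 4), (0x20417385, 4), (0x41528096, 4)]⟩

def c_1024 : frmChk tB tB F_1024 = true := by decide +kernel

def r_1024_0 : chkL rootF engF2 tB tB sB_251 sB_251 4 F_1024 [(255, 0, 0), (256, 0, 15)]
    0x14d0360cc1b05c4b = true := by
  decide +kernel

def r_1024_1 : chkL rootF engF2 tB tB sB_251 sB_251 4 F_1024 [(256, 15, 18)]
    0x41b = true := by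
  decide +kernel

def r_1024_2 : chkL rootF engF2 tB tB sB_251 sB_251 4 F_1024 [(256, 33, 14)]
    0x42d1381b2a42d = true := by
  decide +kernel

def r_1024_3 : chkL rootF engF2 tB tB sB_251 sB_251 4 F_1024 [(256, 47, 0)]
    0x1 = true := by
  decide +kernel

theorem f_1024 (h : TabsF) : FrameF repsF 251 F_1024.f :=
  frame_of rfl c_1024 ((runs_of engOK r_1024_0).append ((runs_of engOK r_1024_1).append ((runs_of engOK r_1024_2).append (runs_of engOK r_1024_3)))) (by decide +kernel) h.2 h.2

def F_1025 : FrX :=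
  ⟨0x1001040012008080000e0084080041000810100004044010010120800012400208000089058020020004010021800802000044440120000100c004602000,
    0xa3, 1, 0x1021304164728792a0, 9,
    [(0xa3, 1), (0x207584a6, 4), (0x10547693, 4), (0x647593a8, 4), (0x10547693, 4), (0x216485a7, 4), (0x208693a4, 4), (0x647593a8, 4), (0x208693a4, 4), (0x106574a8, 4), (0x647593a8, 4), (0x216485a7, 4)],
    [(0x1021304164728792a0, 9), (0x205173a9, 4), (0x657380a4, 4), (0x61738294, 4), (0x205173a9, 4), (0x657380a4, 4)]⟩

def c_1025 : frmChk tB tA F_1025 = true := by decide +kernel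

def r_1025_0 : chkL rootF engF2 tB tA sB_251 sA_251 4 F_1025 [(255, 0, 0), (256, 0, 23)]
    0x42d0b41e0782d05ce1 = true := by
  decide +kernel

def r_1025_1 : chkL rootF engF2 tB tA sB_251 sA_251 4 F_1025 [(256, 23, 0)]
    0x10f017078170cc9a0f2490b6680782705c2d = true := by
  decide +kernel

theorem f_1025 (h : TabsF) : FrameF repsF 251 F_1025.f :=
  frame_of rfl c_1025 ((runs_of engOK r_1025_0).append (runs_of engOK r_1025_1)) (by decide +kernel) h.2 h.1

def F_1026 : FrX :=
  ⟨0x600020801080810000c00401804101010010040020220200000500088090041000080904a0200200100002020a01022008040c00200004040820220200,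
    0xa0, 1, 0x4154627692a1, 6,
    [(0xa0, 1), (0x637584a2, 4), (0x547690a1, 4), (0x64758390, 4), (0x547690a1, 4), (0x21647385, 4), (0x438690a2, 4), (0x64758390, 4), (0x438690a2, 4), (0x657483a1, 4), (0x64758390, 4), (0x21647385, 4)],
    [(0x4154627692a1, 6), (0x21738590, 4), (0x516472a0, 4), (0x21647583, 4), (0x516472a0, 4), (0x327581a9, 4), (0x53648790, 4), (0x21647583, 4), (0x53648790, 4), (0x527183a0, 4), (0x21647583, 4), (0x327581a9, 4)]⟩

def c_1026 : frmChk tB tB F_1026 = true := by decide +kernel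

def r_1026_0 : chkL rootF engF2 tB tB sB_251 sB_251 4 F_1026 [(255, 0, 0), (256, 0, 25)]
    0x48da3285a182e = true := by
  decide +kernel

def r_1026_1 : chkL rootF engF2 tB tB sB_251 sB_251 4 F_1026 [(256, 25, 0)]
    0x13851503c651956191a450b42d = true := by
  decide +kernel

theorem f_1026 (h : TabsF) : FrameF repsF 251 F_1026.f :=
  frame_of rfl c_1026 ((runs_of engOK r_1026_0).append (runs_of engOK r_1026_1)) (by decide +kernel) h.2 h.2

def F_1027 : FrX :=
  ⟨0x600020801080810000c0040180410101001004020000900401101400124002000000520800810010408220020800408441008000a00800220001009100,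
    0xa0, 1, 0x324052708292a0, 7,
    [(0xa0, 1), (0x637584a2, 4), (0x547690a1, 4), (0x64758390, 4), (0x547690a1, 4), (0x21647385, 4), (0x438690a2, 4), (0x64758390, 4), (0x438690a2, 4), (0x657483a1, 4), (0x64758390, 4), (0x21647385, 4)],
    [(0x324052708292a0, 7), (0x326587a9, 4), (0x305487a1, 4), (0x20648791, 4), (0x326587a9, 4), (0x305487a1, 4)]⟩

def c_1027 : frmChk tB tA F_1027 = true := by decide +kernel

def r_1027_0 : chkL rootF engF2 tB tA sB_251 sA_251 4 F_1027 [(511, 0, 0)]
    0x49c7214950cb2326c80788e05d2609c1e09c0f05c1e8981d03e0b = true := by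
  decide +kernel

theorem f_1027 (h : TabsF) : FrameF repsF 251 F_1027.f :=
  frame_of rfl c_1027 (runs_of engOK r_1027_0) (by decide +kernel) h.2 h.1

def F_1028 : FrX :=
  ⟨0x600020801080810000c0040180410101001004000a00014200400808020a00084800002100100910004202000201410004004400a00300300020400082,
    0xa0, 1, 0x2030435173a2, 6,
    [(0xa0, 1), (0x637584a2, 4), (0x547690a1, 4), (0x64758390, 4), (0x547690a1, 4), (0x21647385, 4), (0x438690a2, 4), (0x64758390, 4), (0x438690a2, 4), (0x657483a1, 4), (0x64758390, 4), (0x21647385, 4)],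
    [(0x2030435173a2, 6), (0x417682a3, 4), (0x21536490, 4), (0x41628790, 4), (0x21536490, 4), (0x627481a5, 4), (0x728690a3, 4), (0x41628790, 4), (0x728690a3, 4), (0x42536187, 4), (0x41628790, 4), (0x627481a5, 4)]⟩

def c_1028 : frmChk tB tB F_1028 = true := by decide +kernel

def r_1028_0 : chkL rootF engF2 tB tB sB_251 sB_251 4 F_1028 [(255, 0, 0), (256, 0, 23)]
    0x10cc390cc330cccc0cc5503c0f0d83c8580f0ac0f644a61c447 = true := by
  decide +kernel

def r_1028_1 : chkL rootF engF2 tB tB sB_251 sB_251 4 F_1028 [(256, 23, 0)]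
    0x10e5c40e4390e40f134a360c551c455 = true := by
  decide +kernel

theorem f_1028 (h : TabsF) : FrameF repsF 251 F_1028.f :=
  frame_of rfl c_1028 ((runs_of engOK r_1028_0).append (runs_of engOK r_1028_1)) (by decide +kernel) h.2 h.2

def F_1029 : FrX :=
  ⟨0x80080a000804040e000021010020010000020408a0001002080088100224001000801080400031012800000604401802002000380001001000a20408001,
    0xa6, 1, 0x314051657590a3, 7,
    [(0xa6, 1), (0x205396a8, 4), (0x10548796, 4), (0x214396a7, 4), (0x205396a8, 4), (0x10548796, 4)],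
    [(0x314051657590a3, 7), (0x418392a7, 4), (0x41708695, 4), (0x415263a0, 4), (0x418392a7, 4), (0x41708695, 4)]⟩

def c_1029 : frmChk tA tA F_1029 = true := by decide +kernel

def r_1029_0 : chkL rootF engF2 tA tA sA_251 sA_251 4 F_1029 [(511, 0, 0)]
    0x48d0ac2b = true := by
  decide +kernel

theorem f_1029 (h : TabsF) : FrameF repsF 251 F_1029.f :=
  frame_of rfl c_1029 (runs_of engOK r_1029_0) (by decide +kernel) h.1 h.1

def F_1030 : FrX :=
  ⟨0x2002000900044004000e02041000141000800040801001021000c0020102020001808800102800040c0002010000488000040004450400001408c0012030,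
    0xa3, 1, 0x54638793a2, 5,
    [(0xa3, 1), (0x208693a5, 4), (0x10548793, 4), (0x217693a4, 4), (0x208693a5, 4), (0x10548793, 4)],
    [(0x54638793a2, 5), (0x758493a0, 4), (0x10546283, 4), (0x53628497, 4), (0x10546283, 4), (0x537498a1, 4), (0x627395a0, 4), (0x53628497, 4), (0x627395a0, 4), (0x10438597, 4), (0x53628497, 4), (0x537498a1, 4)]⟩

def c_1030 : frmChk tA tB F_1030 = true := by decide +kernel

def r_1030_0 : chkL rootF engF2 tA tB sA_251 sB_251 4 F_1030 [(255, 0, 0), (256, 0, 22)]
    0x103c17 = true := by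
  decide +kernel

def r_1030_1 : chkL rootF engF2 tA tB sA_251 sB_251 4 F_1030 [(256, 22, 0)]
    0x43605c1e26817 = true := by
  decide +kernel

theorem f_1030 (h : TabsF) : FrameF repsF 251 F_1030.f :=
  frame_of rfl c_1030 ((runs_of engOK r_1030_0).append (runs_of engOK r_1030_1)) (by decide +kernel) h.1 h.2

def F_1031 : FrX :=
  ⟨0x80080a000804040e0000210100200100000204088042100202000840001400400440030140008100800000110204080100208044400a804000911200020,
    0xa6, 1, 0x10203065738497a0, 8,
    [(0xa6, 1), (0x205396a8, 4), (0x10548796, 4), (0x214396a7, 4), (0x205396a8, 4), (0x10548796, 4)],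
    [(0x10203065738497a0, 8), (0x325476a1, 4), (0x328694a0, 4), (0x10328795, 4), (0x325476a1, 4), (0x328694a0, 4)]⟩

def c_1031 : frmChk tA tA F_1031 = true := by decide +kernel

def r_1031_0 : chkL rootF engF2 tA tA sA_251 sA_251 4 F_1031 [(255, 0, 0), (256, 0, 23)]
    0x436 = true := by
  decide +kernel

def r_1031_1 : chkL rootF engF2 tA tA sA_251 sA_251 4 F_1031 [(256, 23, 0)]
    0x10b86a = true := by
  decide +kernel

theorem f_1031 (h : TabsF) : FrameF repsF 251 F_1031.f :=
  frame_of rfl c_1031 ((runs_of engOK r_1031_0).append (runs_of engOK r_1031_1)) (by decide +kernel) h.1 h.1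

def F_1032 : FrX :=
  ⟨0x1c2102000004044000002041000101000082040888081000000880200200401001102060000084010040460604200802081000481090001028100008020,
    0x0, 0, 0x5487, 2,
    [(0x0, 0), (0x205386a9, 4), (0x105487a9, 4), (0x214376a9, 4), (0x205386a9, 4), (0x105487a9, 4)],
    [(0x5487, 2), (0x20637584, 4), (0x105486a9, 4), (0x657384a9, 4), (0x105486a9, 4), (0x21657483, 4), (0x205376a9, 4), (0x657384a9, 4), (0x205376a9, 4), (0x10647385, 4), (0x657384a9, 4), (0x21657483, 4)]⟩

def c_1032 : frmChk tA tB F_1032 = true := by decide +kernel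

def r_1032_0 : chkL rootF engF2 tA tB sA_251 sB_251 4 F_1032 [(255, 0, 0), (256, 0, 14)]
    0x15608b = true := by
  decide +kernel

def r_1032_1 : chkL rootF engF2 tA tB sA_251 sB_251 4 F_1032 [(256, 14, 14)]
    0x1a242e = true := by
  decide +kernel

def r_1032_2 : chkL rootF engF2 tA tB sA_251 sB_251 4 F_1032 [(256, 28, 0)]
    0x12e12c2a5a84b056 = true := by
  decide +kernel

theorem f_1032 (h : TabsF) : FrameF repsF 251 F_1032.f :=
  frame_of rfl c_1032 ((runs_of engOK r_1032_0).append ((runs_of engOK r_1032_1).append (runs_of engOK r_1032_2))) (by decide +kernel) h.1 h.2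

def F_1033 : FrX :=
  ⟨0x80080a000804040e000021010020010000020408a0001004600088100224001000800040400085010040000604201802002000481001001028220408020,
    0xa6, 1, 0x3254627586a8, 6,
    [(0xa6, 1), (0x205396a8, 4), (0x10548796, 4), (0x214396a7, 4), (0x205396a8, 4), (0x10548796, 4)],
    [(0x3254627586a8, 6), (0x607293a8, 4), (0x107593a4, 4), (0x52618493, 4), (0x607293a8, 4), (0x107593a4, 4)]⟩

def c_1033 : frmChk tA tA F_1033 = true := by decide +kernel

def r_1033_0 : chkL rootF engF2 tA tA sA_251 sA_251 4 F_1033 [(255, 0, 0), (256, 0, 21)]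
    0x44b630712342d0b48d314ac12c3a17322 = true := by
  decide +kernel

def r_1033_1 : chkL rootF engF2 tA tA sA_251 sA_251 4 F_1033 [(256, 21, 0)]
    0x103c330d8360b40f = true := by
  decide +kernel

theorem f_1033 (h : TabsF) : FrameF repsF 251 F_1033.f :=
  frame_of rfl c_1033 ((runs_of engOK r_1033_0).append (runs_of engOK r_1033_1)) (by decide +kernel) h.1 h.1

def F_1034 : FrX :=
  ⟨0x2002000900044004000e02041000141000800040800401042001400401008400004102060008010016800208400400801001800340080800000910204001,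
    0xa3, 1, 0x214054607495a2, 7,
    [(0xa3, 1), (0x208693a5, 4), (0x10548793, 4), (0x217693a4, 4), (0x208693a5, 4), (0x10548793, 4)],
    [(0x214054607495a2, 7), (0x438795a6, 4), (0x10546297, 4), (0x10748395, 4), (0x10546297, 4), (0x537498a2, 4), (0x107384a6, 4), (0x10748395, 4), (0x107384a6, 4), (0x62758394, 4), (0x10748395, 4), (0x537498a2, 4)]⟩

def c_1034 : frmChk tA tB F_1034 = true := by decide +kernel

def r_1034_0 : chkL rootF engF2 tA tB sA_251 sB_251 4 F_1034 [(255, 0, 0), (256, 0, 22)]
    0x15482d05c1781c171947409c17 = true := by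
  decide +kernel

def r_1034_1 : chkL rootF engF2 tA tB sA_251 sB_251 4 F_1034 [(256, 22, 0)]
    0x15142b1942b1942b1941724e4334a921683654931 = true := by
  decide +kernel

theorem f_1034 (h : TabsF) : FrameF repsF 251 F_1034.f :=
  frame_of rfl c_1034 ((runs_of engOK r_1034_0).append (runs_of engOK r_1034_1)) (by decide +kernel) h.1 h.2

def F_1035 : FrX :=
  ⟨0x482000044040440000c2040020009000182040000881040000880800040093000000510020080200040400a22210002080010118080408300000808040,
    0xa0, 1, 0x425496a4, 4,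
    [(0xa0, 1), (0x538690a2, 4), (0x548790a1, 4), (0x21437690, 4), (0x538690a2, 4), (0x548790a1, 4)],
    [(0x425496a4, 4), (0x407293a8, 4), (0x106597a2, 4), (0x657283a9, 4), (0x106597a2, 4), (0x417382a9, 4), (0x406598a3, 4), (0x657283a9, 4), (0x406598a3, 4), (0x108392a7, 4), (0x657283a9, 4), (0x417382a9, 4)]⟩

def c_1035 : frmChk tA tB F_1035 = true := by decide +kernel

def r_1035_0 : chkL rootF engF2 tA tB sA_251 sB_251 4 F_1035 [(255, 0, 0), (256, 0, 17)]
    0x4a603c0f03c2e0781e0e83a09c1707856 = true := by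
  decide +kernel

def r_1035_1 : chkL rootF engF2 tA tB sA_251 sB_251 4 F_1035 [(256, 17, 0)]
    0x41705c1e0cc4d = true := by
  decide +kernel

theorem f_1035 (h : TabsF) : FrameF repsF 251 F_1035.f :=
  frame_of rfl c_1035 ((runs_of engOK r_1035_0).append (runs_of engOK r_1035_1)) (by decide +kernel) h.1 h.2

def F_1036 : FrX :=
  ⟨0x80080a000804040e000021010020010000020408822000020900204000040840408804010901000208084000122100010200020404010a2400081220000,
    0xa6, 1, 0x10325290a4, 5,
    [(0xa6, 1), (0x205396a8, 4), (0x10548796, 4), (0x214396a7, 4), (0x205396a8, 4), (0x10548796, 4)],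
    [(0x10325290a4, 5), (0x32418695, 4), (0x418790a3, 4), (0x415076a2, 4), (0x32418695, 4), (0x418790a3, 4)]⟩

def c_1036 : frmChk tA tA F_1036 = true := by decide +kernel

def r_1036_0 : chkL rootF engF2 tA tA sA_251 sA_251 4 F_1036 [(255, 0, 0), (256, 0, 22)]
    0x18b22511c330f06c = true := by
  decide +kernel

def r_1036_1 : chkL rootF engF2 tA tA sA_251 sA_251 4 F_1036 [(256, 22, 0)]
    0x105c6c = true := by
  decide +kernel

theorem f_1036 (h : TabsF) : FrameF repsF 251 F_1036.f :=
  frame_of rfl c_1036 ((runs_of engOK r_1036_0).append (runs_of engOK r_1036_1)) (by decide +kernel) h.1 h.1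

def F_1037 : FrX :=
  ⟨0x80080a000804040e0000210100200100000204088220000209008010000408202111000084400001201004008461000208020808040108c002004600000,
    0xa6, 1, 0x3241618495a8, 6,
    [(0xa6, 1), (0x205396a8, 4), (0x10548796, 4), (0x214396a7, 4), (0x205396a8, 4), (0x10548796, 4)],
    [(0x3241618495a8, 6), (0x304297a8, 4), (0x51607498, 4), (0x518497a2, 4), (0x51607498, 4), (0x637284a9, 4), (0x305182a4, 4), (0x518497a2, 4), (0x305182a4, 4), (0x608794a2, 4), (0x518497a2, 4), (0x637284a9, 4)]⟩

def c_1037 : frmChk tA tB F_1037 = true := by decide +kernel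

def r_1037_0 : chkL rootF engF2 tA tB sA_251 sB_251 4 F_1037 [(255, 0, 0), (256, 0, 15)]
    0x40f = true := by
  decide +kernel

def r_1037_1 : chkL rootF engF2 tA tB sA_251 sB_251 4 F_1037 [(256, 15, 13)]
    0x41703c1b03c47 = true := by
  decide +kernel

def r_1037_2 : chkL rootF engF2 tA tB sA_251 sB_251 4 F_1037 [(256, 28, 0)]
    0x41b11c0f03c1b = true := by
  decide +kernel

theorem f_1037 (h : TabsF) : FrameF repsF 251 F_1037.f :=
  frame_of rfl c_1037 ((runs_of engOK r_1037_0).append ((runs_of engOK r_1037_1).append (runs_of engOK r_1037_2))) (by decide +kernel) h.1 h.2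

def F_1038 : FrX :=
  ⟨0x2002000900044004000e02041000141000800040810000081100804201010401040008101010180820800208018020040004201000400220401140081010,
    0xa3, 1, 0x2131415465728493a6, 9,
    [(0xa3, 1), (0x208693a5, 4), (0x10548793, 4), (0x217693a4, 4), (0x208693a5, 4), (0x10548793, 4)],
    [(0x2131415465728493a6, 9), (0x327096a5, 4), (0x32405186, 4), (0x327498a1, 4), (0x327096a5, 4), (0x32405186, 4)]⟩

def c_1038 : frmChk tA tA F_1038 = true := by decide +kernel

def r_1038_0 : chkL rootF engF2 tA tA sA_251 sA_251 4 F_1038 [(511, 0, 0)]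
    0x109c6a11c1d2a43c03c6a12c1b03c4706c1b05c1d11c4706c27 = true := by
  decide +kernel

theorem f_1038 (h : TabsF) : FrameF repsF 251 F_1038.f :=
  frame_of rfl c_1038 (runs_of engOK r_1038_0) (by decide +kernel) h.1 h.1

def F_1039 : FrX :=
  ⟨0x80080a000804040e00002101002001000002040881080200404400100220000c00880060002020008088100428400800202082050008402042202040000,
    0xa6, 1, 0x3061748697a1, 6,
    [(0xa6, 1), (0x205396a8, 4), (0x10548796, 4), (0x214396a7, 4), (0x205396a8, 4), (0x10548796, 4)],
    [(0x3061748697a1, 6), (0x32718095, 4), (0x647598a3, 4), (0x10648795, 4), (0x647598a3, 4), (0x518790a2, 4), (0x32647081, 4), (0x10648795, 4), (0x32647081, 4), (0x108597a3, 4), (0x10648795, 4), (0x518790a2, 4)]⟩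

def c_1039 : frmChk tA tB F_1039 = true := by decide +kernel

def r_1039_0 : chkL rootF engF2 tA tB sA_251 sB_251 4 F_1039 [(255, 0, 0), (256, 0, 20)]
    0x10745c11d6159017 = true := by
  decide +kernel

def r_1039_1 : chkL rootF engF2 tA tB sA_251 sB_251 4 F_1039 [(256, 20, 0)]
    0x4568646907a1915856 = true := by
  decide +kernel

theorem f_1039 (h : TabsF) : FrameF repsF 251 F_1039.f :=
  frame_of rfl c_1039 ((runs_of engOK r_1039_0).append (runs_of engOK r_1039_1)) (by decide +kernel) h.1 h.2

def F_1040 : FrX :=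
  ⟨0x1c4044000008081000000840080410000101084042102000020001010002020048a0200102040080004208202188024010080100510440800400b000000,
    0x0, 0, 0x21637485, 4,
    [(0x0, 0), (0x20637584, 4), (0x105476a9, 4), (0x647583a9, 4), (0x105476a9, 4), (0x21647385, 4), (0x204386a9, 4), (0x647583a9, 4), (0x204386a9, 4), (0x10657483, 4), (0x647583a9, 4), (0x21647385, 4)],
    [(0x21637485, 4), (0x105386a9, 4), (0x205487a9, 4), (0x214376a9, 4), (0x105386a9, 4), (0x205487a9, 4)]⟩

def c_1040 : frmChk tB tA F_1040 = true := by decide +kernel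

def r_1040_0 : chkL rootF engF2 tB tA sB_251 sA_251 4 F_1040 [(255, 0, 0), (256, 0, 24)]
    0x13280f = true := by
  decide +kernel

def r_1040_1 : chkL rootF engF2 tB tA sB_251 sA_251 4 F_1040 [(256, 24, 0)]
    0x417 = true := by
  decide +kernel

theorem f_1040 (h : TabsF) : FrameF repsF 251 F_1040.f :=
  frame_of rfl c_1040 ((runs_of engOK r_1040_0).append (runs_of engOK r_1040_1)) (by decide +kernel) h.2 h.1

def F_1041 : FrX :=
  ⟨0x1001040012008080000e0084080041000810100004200802400140010102000009a0000a0000208040084804400000804094000400840400290120000094,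
    0xa3, 1, 0x3263768697a3, 6,
    [(0xa3, 1), (0x207584a6, 4), (0x10547693, 4), (0x647593a8, 4), (0x10547693, 4), (0x216485a7, 4), (0x208693a4, 4), (0x647593a8, 4), (0x208693a4, 4), (0x106574a8, 4), (0x647593a8, 4), (0x216485a7, 4)],
    [(0x3263768697a3, 6), (0x307495a8, 4), (0x10546298, 4), (0x628495a7, 4), (0x10546298, 4), (0x317584a9, 4), (0x306287a4, 4), (0x628495a7, 4), (0x306287a4, 4), (0x108594a7, 4), (0x628495a7, 4), (0x317584a9, 4)]⟩

def c_1041 : frmChk tB tB F_1041 = true := by decide +kernel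

def r_1041_0 : chkL rootF engF2 tB tB sB_251 sB_251 4 F_1041 [(255, 0, 0), (256, 0, 17)]
    0x10e439 = true := by
  decide +kernel

def r_1041_1 : chkL rootF engF2 tB tB sB_251 sB_251 4 F_1041 [(256, 17, 11)]
    0x42b = true := by
  decide +kernel

def r_1041_2 : chkL rootF engF2 tB tB sB_251 sB_251 4 F_1041 [(256, 28, 0)]
    0x103c2b = true := by
  decide +kernel

theorem f_1041 (h : TabsF) : FrameF repsF 251 F_1041.f :=
  frame_of rfl c_1041 ((runs_of engOK r_1041_0).append ((runs_of engOK r_1041_1).append (runs_of engOK r_1041_2))) (by decide +kernel) h.2 h.2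

def F_1042 : FrX :=
  ⟨0x1001040012008080000e00840800410008101000042080040048022002000880442000120000404041042814400000202100800818004410300004000104,
    0xa3, 1, 0x314154648291a7, 7,
    [(0xa3, 1), (0x207584a6, 4), (0x10547693, 4), (0x647593a8, 4), (0x10547693, 4), (0x216485a7, 4), (0x208693a4, 4), (0x647593a8, 4), (0x208693a4, 4), (0x106574a8, 4), (0x647593a8, 4), (0x216485a7, 4)],
    [(0x314154648291a7, 7), (0x31527480, 4), (0x637490a2, 4), (0x617498a5, 4), (0x31527480, 4), (0x637490a2, 4)]⟩

def c_1042 : frmChk tB tA F_1042 = true := by decide +kernel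

def r_1042_0 : chkL rootF engF2 tB tA sB_251 sA_251 4 F_1042 [(255, 0, 0), (256, 0, 25)]
    0x41e0741d1a42b = true := by
  decide +kernel

def r_1042_1 : chkL rootF engF2 tB tA sB_251 sA_251 4 F_1042 [(256, 25, 0)]
    0x105cc3 = true := by
  decide +kernel

theorem f_1042 (h : TabsF) : FrameF repsF 251 F_1042.f :=
  frame_of rfl c_1042 ((runs_of engOK r_1042_0).append (runs_of engOK r_1042_1)) (by decide +kernel) h.2 h.1

def F_1043 : FrX :=
  ⟨0x1001040012008080000e0084080041000810100004201010014802200200004044020200240210014000081002100810014000080e004008901002022000,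
    0xa3, 1, 0x3141617193a3, 6,
    [(0xa3, 1), (0x207584a6, 4), (0x10547693, 4), (0x647593a8, 4), (0x10547693, 4), (0x216485a7, 4), (0x208693a4, 4), (0x647593a8, 4), (0x208693a4, 4), (0x106574a8, 4), (0x647593a8, 4), (0x216485a7, 4)],
    [(0x3141617193a3, 6), (0x206583a4, 4), (0x53647091, 4), (0x436591a8, 4), (0x53647091, 4), (0x437285a6, 4), (0x208491a3, 4), (0x436591a8, 4), (0x208491a3, 4), (0x546370a8, 4), (0x436591a8, 4), (0x437285a6, 4)]⟩

def c_1043 : frmChk tB tB F_1043 = true := by decide +kernel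

def r_1043_0 : chkL rootF engF2 tB tB sB_251 sB_251 4 F_1043 [(255, 0, 0), (256, 0, 21)]
    0x105c1e03c174702e0b82d = true := by
  decide +kernel

def r_1043_1 : chkL rootF engF2 tB tB sB_251 sB_251 4 F_1043 [(256, 21, 26)]
    0x103c1b49b2403c36 = true := by
  decide +kernel

def r_1043_2 : chkL rootF engF2 tB tB sB_251 sB_251 4 F_1043 [(256, 47, 0)]
    0x1 = true := by
  decide +kernel

theorem f_1043 (h : TabsF) : FrameF repsF 251 F_1043.f :=
  frame_of rfl c_1043 ((runs_of engOK r_1043_0).append ((runs_of engOK r_1043_1).append (runs_of engOK r_1043_2))) (by decide +kernel) h.2 h.2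

def F_1044 : FrX :=
  ⟨0x80080a000804040e00002101002001000002040881011001020010020042001010034000c00041020000000888040140120091006000a88002040600000,
    0xa6, 1, 0x43608796a5, 5,
    [(0xa6, 1), (0x205396a8, 4), (0x10548796, 4), (0x214396a7, 4), (0x205396a8, 4), (0x10548796, 4)],
    [(0x43608796a5, 5), (0x627394a8, 4), (0x506198a3, 4), (0x507493a8, 4), (0x506198a3, 4), (0x218493a7, 4), (0x43506297, 4), (0x507493a8, 4), (0x43506297, 4), (0x617483a9, 4), (0x507493a8, 4), (0x218493a7, 4)]⟩

def c_1044 : frmChk tA tB F_1044 = true := by decide +kernel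

def r_1044_0 : chkL rootF engF2 tA tB sA_251 sB_251 4 F_1044 [(255, 0, 0), (256, 0, 22)]
    0x41e07a233140f = true := by
  decide +kernel

def r_1044_1 : chkL rootF engF2 tA tB sA_251 sB_251 4 F_1044 [(256, 22, 0)]
    0x103c1b = true := by
  decide +kernel

theorem f_1044 (h : TabsF) : FrameF repsF 251 F_1044.f :=
  frame_of rfl c_1044 ((runs_of engOK r_1044_0).append (runs_of engOK r_1044_1)) (by decide +kernel) h.1 h.2

def F_1045 : FrX :=
  ⟨0x2002000900044004000e02041000141000800040800801014008024002004880200100100888000224000100800048100100000055008020501042061000,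
    0xa3, 1, 0x20314350648097a3, 8,
    [(0xa3, 1), (0x208693a5, 4), (0x10548793, 4), (0x217693a4, 4), (0x208693a5, 4), (0x10548793, 4)],
    [(0x20314350648097a3, 8), (0x517480a2, 4), (0x62748395, 4), (0x307491a6, 4), (0x517480a2, 4), (0x62748395, 4)]⟩

def c_1045 : frmChk tA tA F_1045 = true := by decide +kernel

def r_1045_0 : chkL rootF engF2 tA tA sA_251 sA_251 4 F_1045 [(255, 0, 0), (256, 0, 23)]
    0x41b1589a05c1b = true := by
  decide +kernel

def r_1045_1 : chkL rootF engF2 tA tA sA_251 sA_251 4 F_1045 [(256, 23, 0)]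
    0x4530cc710d41d = true := by
  decide +kernel

theorem f_1045 (h : TabsF) : FrameF repsF 251 F_1045.f :=
  frame_of rfl c_1045 ((runs_of engOK r_1045_0).append (runs_of engOK r_1045_1)) (by decide +kernel) h.1 h.1

def F_1046 : FrX :=
  ⟨0x80080a000804040e00002101002001000002040881011001020010020042004018014000c000410200000008880401400020820140180a04440a0020000,
    0xa6, 1, 0x52758596a7, 5,
    [(0xa6, 1), (0x205396a8, 4), (0x10548796, 4), (0x214396a7, 4), (0x205396a8, 4), (0x10548796, 4)],
    [(0x52758596a7, 5), (0x507493a8, 4), (0x106284a9, 4), (0x627394a8, 4), (0x106284a9, 4), (0x518794a3, 4), (0x43506297, 4), (0x627394a8, 4), (0x43506297, 4), (0x107398a4, 4), (0x627394a8, 4), (0x518794a3, 4)]⟩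

def c_1046 : frmChk tA tB F_1046 = true := by decide +kernel

def r_1046_0 : chkL rootF engF2 tA tB sA_251 sB_251 4 F_1046 [(255, 0, 0), (256, 0, 21)]
    0x44b06c47254594394a11d46 = true := by
  decide +kernel

def r_1046_1 : chkL rootF engF2 tA tB sA_251 sB_251 4 F_1046 [(256, 21, 0)]
    0x4390d41b = true := by
  decide +kernel

theorem f_1046 (h : TabsF) : FrameF repsF 251 F_1046.f :=
  frame_of rfl c_1046 ((runs_of engOK r_1046_0).append (runs_of engOK r_1046_1)) (by decide +kernel) h.1 h.2

def F_1047 : FrX :=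
  ⟨0x1001040012008080000e00840800410008101000042008d00001400101020000020108042020200240001804040808800004002100c200000aa104041000,
    0xa3, 1, 0x213053607683a0, 7,
    [(0xa3, 1), (0x207584a6, 4), (0x10547693, 4), (0x647593a8, 4), (0x10547693, 4), (0x216485a7, 4), (0x208693a4, 4), (0x647593a8, 4), (0x208693a4, 4), (0x106574a8, 4), (0x647593a8, 4), (0x216485a7, 4)],
    [(0x213053607683a0, 7), (0x758096a1, 4), (0x405396a2, 4), (0x21738496, 4), (0x758096a1, 4), (0x405396a2, 4)]⟩

def c_1047 : frmChk tB tA F_1047 = true := by decide +kernel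

def r_1047_0 : chkL rootF engF2 tB tA sB_251 sA_251 4 F_1047 [(511, 0, 0)]
    0x10ac17 = true := by
  decide +kernel

theorem f_1047 (h : TabsF) : FrameF repsF 251 F_1047.f :=
  frame_of rfl c_1047 (runs_of engOK r_1047_0) (by decide +kernel) h.2 h.1

def F_1048 : FrX :=
  ⟨0x1001040012008080000e008408004100081010000420201000480220020000204402020410801001400028000210082001000008c040400805400a022004,
    0xa3, 1, 0x1041718590a4, 6,
    [(0xa3, 1), (0x207584a6, 4), (0x10547693, 4), (0x647593a8, 4), (0x10547693, 4), (0x216485a7, 4), (0x208693a4, 4), (0x647593a8, 4), (0x208693a4, 4), (0x106574a8, 4), (0x647593a8, 4), (0x216485a7, 4)],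
    [(0x1041718590a4, 6), (0x638492a5, 4), (0x106497a8, 4), (0x105384a6, 4), (0x106497a8, 4), (0x437285a6, 4), (0x106592a3, 4), (0x105384a6, 4), (0x106592a3, 4), (0x538697a4, 4), (0x105384a6, 4), (0x437285a6, 4)]⟩

def c_1048 : frmChk tB tB F_1048 = true := by decide +kernel

def r_1048_0 : chkL rootF engF2 tB tB sB_251 sB_251 4 F_1048 [(255, 0, 0), (256, 0, 23)]
    0x103cb403c1703c5a0741d0781d07417 = true := by
  decide +kernel

def r_1048_1 : chkL rootF engF2 tB tB sB_251 sB_251 4 F_1048 [(256, 23, 0)]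
    0x107827078271682705c0f = true := by
  decide +kernel

theorem f_1048 (h : TabsF) : FrameF repsF 251 F_1048.f :=
  frame_of rfl c_1048 ((runs_of engOK r_1048_0).append (runs_of engOK r_1048_1)) (by decide +kernel) h.2 h.2

def F_1049 : FrX :=
  ⟨0x2002000900044004000e02041000141000800040810000018100802402002200220200801008009024800084808008800041000042800200202224001002,
    0xa3, 1, 0x214352728198a3, 7,
    [(0xa3, 1), (0x208693a5, 4), (0x10548793, 4), (0x217693a4, 4), (0x208693a5, 4), (0x10548793, 4)],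
    [(0x214352728198a3, 7), (0x517093a6, 4), (0x31426580, 4), (0x425163a9, 4), (0x31426580, 4), (0x638791a5, 4), (0x427096a3, 4), (0x425163a9, 4), (0x427096a3, 4), (0x536180a9, 4), (0x425163a9, 4), (0x638791a5, 4)]⟩

def c_1049 : frmChk tA tB F_1049 = true := by decide +kernel

def r_1049_0 : chkL rootF engF2 tA tB sA_251 sB_251 4 F_1049 [(255, 0, 0), (256, 0, 24)]
    0x124c1d0781b0782b03c0f11c1d5a027 = true := by
  decide +kernel

def r_1049_1 : chkL rootF engF2 tA tB sA_251 sB_251 4 F_1049 [(256, 24, 0)]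
    0x10e80f03c2709c1b18ce406c1b06c4e09c2d0b42d = true := by
  decide +kernel

theorem f_1049 (h : TabsF) : FrameF repsF 251 F_1049.f :=
  frame_of rfl c_1049 ((runs_of engOK r_1049_0).append (runs_of engOK r_1049_1)) (by decide +kernel) h.1 h.2

theorem cl_251 (h : TabsF) : ∀ f ∈ fr_251, FrameF repsF 251 f :=
  List.forall_mem_cons.2 ⟨f_1022 h, List.forall_mem_cons.2 ⟨f_1023 h, List.forall_mem_cons.2 ⟨f_1024 h, List.forall_mem_cons.2 ⟨f_1025 h, List.forall_mem_cons.2 ⟨f_1026 h, List.forall_mem_cons.2 ⟨f_1027 h, List.forall_mem_cons.2 ⟨f_1028 h, List.forall_mem_cons.2 ⟨f_1029 h, List.forall_mem_cons.2 ⟨f_1030 h, List.forall_mem_cons.2 ⟨f_1031 h, List.forall_mem_cons.2 ⟨f_1032 h, List.forall_mem_cons.2 ⟨f_1033 h, List.forall_mem_cons.2 ⟨f_1034 h, List.forall_mem_cons.2 ⟨f_1035 h, List.forall_mem_cons.2 ⟨f_1036 h, List.forall_mem_cons.2 ⟨f_1037 h, List.forall_mem_cons.2 ⟨f_1038 h, List.forall_mem_cons.2 ⟨f_1039 h, List.forall_mem_cons.2 ⟨f_1040 h, List.forall_mem_cons.2 ⟨f_1041 h, List.forall_mem_cons.2 ⟨f_1042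 h, List.forall_mem_cons.2 ⟨f_1043 h, List.forall_mem_cons.2 ⟨f_1044 h, List.forall_mem_cons.2 ⟨f_1045 h, List.forall_mem_cons.2 ⟨f_1046 h, List.forall_mem_cons.2 ⟨f_1047 h, List.forall_mem_cons.2 ⟨f_1048 h, List.forall_mem_cons.2 ⟨f_1049 h,
    fun _ h0 => absurd h0 List.not_mem_nil⟩⟩⟩⟩⟩⟩⟩⟩⟩⟩⟩⟩⟩⟩⟩⟩⟩⟩⟩⟩⟩⟩⟩⟩⟩⟩⟩⟩

/-- the classes finished in this module -/
theorem all_L11 (h : TabsF) : ∀ p ∈ ([(247, fr_247), (248, fr_248), (249, fr_249), (250, fr_250), (251, fr_251)] : List (ℕ × List ℕ)),
    ∀ f ∈ p.2, FrameF repsF p.1 f :=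
  List.forall_mem_cons.2 ⟨cl_247 h, List.forall_mem_cons.2 ⟨cl_248 h, List.forall_mem_cons.2 ⟨cl_249 h, List.forall_mem_cons.2 ⟨cl_250 h, List.forall_mem_cons.2 ⟨cl_251 h, fun _ h0 => absurd h0 List.not_mem_nil⟩⟩⟩⟩⟩

end Pool.Agent.Gen.TY.F
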