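import Pool.Agent.Helper20.TY.EngF
import Pool.Agent.Helper20.TY.TabG
import Pool.Agent.Gen.TY.FS.SufA
import Pool.Agent.Gen.TY.FS.SufB
import Pool.Agent.Gen.TY.FR.Dat

/-!
MP_8ee768_co, project TH-Y', stage F: frames.
-/

set_option autoImplicit false

namespace Pool.Agent.Gen.TY.F

open Pool.Agent.Helper79.CV
open Pool.Agent.Helper20.TY
open Pool.Agent.Helper20.TY.EngF
open Pool.Agent.Gen.TY.FS
open Pool.Agent.Gen.TY.FR

def F_1050 : FrX :=
  ⟨0x1001040012008080000e0084080041000810100004400802080140004502000003200082000038008408840402000042000808442002080000a140000050,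
    0xa3, 1, 0x203165708494a3, 7,
    [(0xa3, 1), (0x207584a6, 4), (0x10547693, 4), (0x647593a8, 4), (0x10547693, 4), (0x216485a7, 4), (0x208693a4, 4), (0x647593a8, 4), (0x208693a4, 4), (0x106574a8, 4), (0x647593a8, 4), (0x216485a7, 4)],
    [(0x203165708494a3, 7), (0x547081a6, 4), (0x42738196, 4), (0x305281a9, 4), (0x547081a6, 4), (0x42738196, 4)]⟩

def c_1050 : frmChk tB tA F_1050 = true := by decide +kernel

def r_1050_0 : chkL rootF engF2 tB tA sB_252 sA_252 4 F_1050 [(255, 0, 0), (256, 0, 15)]
    0x6520cc270cd2c5240f = true := by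
  decide +kernel

def r_1050_1 : chkL rootF engF2 tB tA sB_252 sA_252 4 F_1050 [(256, 15, 14)]
    0x109c2705ea12540f0e439 = true := by
  decide +kernel

def r_1050_2 : chkL rootF engF2 tB tA sB_252 sA_252 4 F_1050 [(256, 29, 18)]
    0x14688e0cd0d63027e410d647906312c6280f = true := by
  decide +kernel

def r_1050_3 : chkL rootF engF2 tB tA sB_252 sA_252 4 F_1050 [(256, 47, 0)]
    0x1 = true := by
  decide +kernel

theorem f_1050 (h : TabsF) : FrameF repsF 252 F_1050.f :=
  frame_of rfl c_1050 ((runs_of engOK r_1050_0).append ((runs_of engOK r_1050_1).append ((runs_of engOK r_1050_2).append (runs_of engOK r_1050_3)))) (by decide +kernel) h.2 h.1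

def F_1051 : FrX :=
  ⟨0x1001040012008080000e00840800410008101000060001500080022802000880400200080080805020a0100010100821010000080a0000c0540008820200,
    0xa3, 1, 0x3042526274a2, 6,
    [(0xa3, 1), (0x207584a6, 4), (0x10547693, 4), (0x647593a8, 4), (0x10547693, 4), (0x216485a7, 4), (0x208693a4, 4), (0x647593a8, 4), (0x208693a4, 4), (0x106574a8, 4), (0x647593a8, 4), (0x216485a7, 4)],
    [(0x3042526274a2, 6), (0x408596a3, 4), (0x31748296, 4), (0x527096a1, 4), (0x408596a3, 4), (0x31748296, 4)]⟩

def c_1051 : frmChk tB tA F_1051 = true := by decide +kernel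

def r_1051_0 : chkL rootF engF2 tB tA sB_252 sA_252 4 F_1051 [(255, 0, 0), (256, 0, 18)]
    0x122c0f0741d0e638 = true := by
  decide +kernel

def r_1051_1 : chkL rootF engF2 tB tA sB_252 sA_252 4 F_1051 [(256, 18, 16)]
    0x10781e0d625 = true := by
  decide +kernel

def r_1051_2 : chkL rootF engF2 tB tA sB_252 sA_252 4 F_1051 [(256, 34, 0)]
    0x45ca3036 = true := by
  decide +kernel

theorem f_1051 (h : TabsF) : FrameF repsF 252 F_1051.f :=
  frame_of rfl c_1051 ((runs_of engOK r_1051_0).append ((runs_of engOK r_1051_1).append (runs_of engOK r_1051_2))) (by decide +kernel) h.2 h.1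

def F_1052 : FrX :=
  ⟨0x1001040012008080000e00840800410008101000050009100101008101020002008008082000806000205200100808800014000441000084460410040200,
    0xa3, 1, 0x304254617382a1, 7,
    [(0xa3, 1), (0x207584a6, 4), (0x10547693, 4), (0x647593a8, 4), (0x10547693, 4), (0x216485a7, 4), (0x208693a4, 4), (0x647593a8, 4), (0x208693a4, 4), (0x106574a8, 4), (0x647593a8, 4), (0x216485a7, 4)],
    [(0x304254617382a1, 7), (0x41728396, 4), (0x405296a3, 4), (0x107596a8, 4), (0x41728396, 4), (0x405296a3, 4)]⟩

def c_1052 : frmChk tB tA F_1052 = true := by decide +kernel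

def r_1052_0 : chkL rootF engF2 tB tA sB_252 sA_252 4 F_1052 [(255, 0, 0), (256, 0, 21)]
    0x10b45309c2703c6303c2b1682b0781e0ac8da168c = true := by
  decide +kernel

def r_1052_1 : chkL rootF engF2 tB tA sB_252 sA_252 4 F_1052 [(256, 21, 0)]
    0x11c41b3608d0ac175602d = true := by
  decide +kernel

theorem f_1052 (h : TabsF) : FrameF repsF 252 F_1052.f :=
  frame_of rfl c_1052 ((runs_of engOK r_1052_0).append (runs_of engOK r_1052_1)) (by decide +kernel) h.2 h.1

def F_1053 : FrX :=
  ⟨0x1001040012008080000e0084080041000810100004802140100802004200002040204012000480400821000810100040084800a808004408500002040004,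
    0xa3, 1, 0x1031627583a2, 6,
    [(0xa3, 1), (0x207584a6, 4), (0x10547693, 4), (0x647593a8, 4), (0x10547693, 4), (0x216485a7, 4), (0x208693a4, 4), (0x647593a8, 4), (0x208693a4, 4), (0x106574a8, 4), (0x647593a8, 4), (0x216485a7, 4)],
    [(0x1031627583a2, 6), (0x208796a1, 4), (0x31507496, 4), (0x528496a3, 4), (0x208796a1, 4), (0x31507496, 4)]⟩

def c_1053 : frmChk tB tA F_1053 = true := by decide +kernel

def r_1053_0 : chkL rootF engF2 tB tA sB_252 sA_252 4 F_1053 [(255, 0, 0), (256, 0, 17)]
    0x11683a22c17 = true := by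
  decide +kernel

def r_1053_1 : chkL rootF engF2 tB tA sB_252 sA_252 4 F_1053 [(256, 17, 13)]
    0x439 = true := by
  decide +kernel

def r_1053_2 : chkL rootF engF2 tB tA sB_252 sA_252 4 F_1053 [(256, 30, 17)]
    0x417945160e4390ac27 = true := by
  decide +kernel

def r_1053_3 : chkL rootF engF2 tB tA sB_252 sA_252 4 F_1053 [(256, 47, 0)]
    0x1 = true := by
  decide +kernel

theorem f_1053 (h : TabsF) : FrameF repsF 252 F_1053.f :=
  frame_of rfl c_1053 ((runs_of engOK r_1053_0).append ((runs_of engOK r_1053_1).append ((runs_of engOK r_1053_2).append (runs_of engOK r_1053_3)))) (by decide +kernel) h.2 h.1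

def F_1054 : FrX :=
  ⟨0x600020801080810000c0040180410101001004004011040000081040880042020008420000048042801810800100240300201010024000004040111020,
    0xa0, 1, 0x103240657092a5, 7,
    [(0xa0, 1), (0x637584a2, 4), (0x547690a1, 4), (0x64758390, 4), (0x547690a1, 4), (0x21647385, 4), (0x438690a2, 4), (0x64758390, 4), (0x438690a2, 4), (0x657483a1, 4), (0x64758390, 4), (0x21647385, 4)],
    [(0x103240657092a5, 7), (0x638597a2, 4), (0x637084a1, 4), (0x21546390, 4), (0x638597a2, 4), (0x637084a1, 4)]⟩

def c_1054 : frmChk tB tA F_1054 = true := by decide +kernel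

def r_1054_0 : chkL rootF engF2 tB tA sB_252 sA_252 4 F_1054 [(255, 0, 0), (256, 0, 25)]
    0x40f03c0f0ac2b05c0f03c2b2640f03c2d0ac2b1a41e0b4a50782e0cc1d740742a40f03c2b0b4591641b1c82b = true := by
  decide +kernel

def r_1054_1 : chkL rootF engF2 tB tA sB_252 sA_252 4 F_1054 [(256, 25, 0)]
    0x13c10e07a546844e8385c0781d07a58a60470ac4782c660ac5c0acd1a302e687a003c3a0ac6918e2509c2e1a4470ae45b05078a81d1704b1a41d81c4d135611c4550d47116469d10a5740590d4590d4690d5d00b48d0b82d0b84d0b41e0b471c0f060ce8988e290ac3c896258b10b46427894690ae19 = true := by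
  decide +kernel

theorem f_1054 (h : TabsF) : FrameF repsF 252 F_1054.f :=
  frame_of rfl c_1054 ((runs_of engOK r_1054_0).append (runs_of engOK r_1054_1)) (by decide +kernel) h.2 h.1

def F_1055 : FrX :=
  ⟨0x600020801080810000c0040180410101001004010040024000004862001040084400004000209020a01012000101800884000100000801101104400102,
    0xa0, 1, 0x425463758797a6, 7,
    [(0xa0, 1), (0x637584a2, 4), (0x547690a1, 4), (0x64758390, 4), (0x547690a1, 4), (0x21647385, 4), (0x438690a2, 4), (0x64758390, 4), (0x438690a2, 4), (0x657483a1, 4), (0x64758390, 4), (0x21647385, 4)],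
    [(0x425463758797a6, 7), (0x407683a2, 4), (0x10758392, 4), (0x416583a9, 4), (0x407683a2, 4), (0x10758392, 4)]⟩

def c_1055 : frmChk tB tA F_1055 = true := by decide +kernel

def r_1055_0 : chkL rootF engF2 tB tA sB_252 sA_252 4 F_1055 [(255, 0, 0), (256, 0, 23)]
    0x44b06c4d0ac3a0ac272341e14c4e = true := by
  decide +kernel

def r_1055_1 : chkL rootF engF2 tB tA sB_252 sA_252 4 F_1055 [(256, 23, 0)]
    0x103c0f09c8d07853138e206c2d0ac1e0e455 = true := by
  decide +kernel

theorem f_1055 (h : TabsF) : FrameF repsF 252 F_1055.f :=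
  frame_of rfl c_1055 ((runs_of engOK r_1055_0).append (runs_of engOK r_1055_1)) (by decide +kernel) h.2 h.1

def F_1056 : FrX :=
  ⟨0x600020801080810000c004018041010100100400802020140010040420c00400080012000181008110240020000021110008100010200001c001211020,
    0xa0, 1, 0x324251617583a0, 7,
    [(0xa0, 1), (0x637584a2, 4), (0x547690a1, 4), (0x64758390, 4), (0x547690a1, 4), (0x21647385, 4), (0x438690a2, 4), (0x64758390, 4), (0x438690a2, 4), (0x657483a1, 4), (0x64758390, 4), (0x21647385, 4)],
    [(0x324251617583a0, 7), (0x327185a4, 4), (0x517390a6, 4), (0x53718290, 4), (0x517390a6, 4), (0x53647281, 4), (0x528390a4, 4), (0x53718290, 4), (0x528390a4, 4), (0x317582a6, 4), (0x53718290, 4), (0x53647281, 4)]⟩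

def c_1056 : frmChk tB tB F_1056 = true := by decide +kernel

def r_1056_0 : chkL rootF engF2 tB tB sB_252 sB_252 4 F_1056 [(255, 0, 0), (256, 0, 25)]
    0x111c3c1b069 = true := by
  decide +kernel

def r_1056_1 : chkL rootF engF2 tB tB sB_252 sB_252 4 F_1056 [(256, 25, 22)]
    0x10b86c1b00f0ac2b25896 = true := by
  decide +kernel

def r_1056_2 : chkL rootF engF2 tB tB sB_252 sB_252 4 F_1056 [(256, 47, 0)]
    0x1 = true := by
  decide +kernel

theorem f_1056 (h : TabsF) : FrameF repsF 252 F_1056.f :=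
  frame_of rfl c_1056 ((runs_of engOK r_1056_0).append ((runs_of engOK r_1056_1).append (runs_of engOK r_1056_2))) (by decide +kernel) h.2 h.2

def F_1057 : FrX :=
  ⟨0x80080a000804040e00002101002001000002040881200008044400100012000030920000a02450021008000400102800000082024003001080a02800010,
    0xa6, 1, 0x324164708495a6, 7,
    [(0xa6, 1), (0x205396a8, 4), (0x10548796, 4), (0x214396a7, 4), (0x205396a8, 4), (0x10548796, 4)],
    [(0x324164708495a6, 7), (0x517392a6, 4), (0x51607498, 4), (0x435182a0, 4), (0x517392a6, 4), (0x51607498, 4)]⟩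

def c_1057 : frmChk tA tA F_1057 = true := by decide +kernel

def r_1057_0 : chkL rootF engF2 tA tA sA_252 sA_252 4 F_1057 [(255, 0, 0), (256, 0, 21)]
    0x10ac2d3504d = true := by
  decide +kernel

def r_1057_1 : chkL rootF engF2 tA tA sA_252 sA_252 4 F_1057 [(256, 21, 0)]
    0x45c4701d1940f = true := by
  decide +kernel

theorem f_1057 (h : TabsF) : FrameF repsF 252 F_1057.f :=
  frame_of rfl c_1057 ((runs_of engOK r_1057_0).append (runs_of engOK r_1057_1)) (by decide +kernel) h.1 h.1

def F_1058 : FrX :=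
  ⟨0x482000044040440000c2040020009000182040020000500800200a08040884020010000082550121000800080008800210002000048000082120008414,
    0xa0, 1, 0x30435262768595a3, 8,
    [(0xa0, 1), (0x538690a2, 4), (0x548790a1, 4), (0x21437690, 4), (0x538690a2, 4), (0x548790a1, 4)],
    [(0x30435262768595a3, 8), (0x637284a9, 4), (0x31528490, 4), (0x617584a0, 4), (0x637284a9, 4), (0x31528490, 4)]⟩

def c_1058 : frmChk tA tA F_1058 = true := by decide +kernel

def r_1058_0 : chkL rootF engF2 tA tA sA_252 sA_252 4 F_1058 [(511, 0, 0)]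
    0x40f03c4b09c330d84e05cc52a433 = true := by
  decide +kernel

theorem f_1058 (h : TabsF) : FrameF repsF 252 F_1058.f :=
  frame_of rfl c_1058 (runs_of engOK r_1058_0) (by decide +kernel) h.1 h.1

def F_1059 : FrX :=
  ⟨0x2002000900044004000e02041000141000800040800800248000c0040080888020010010408100028004a104001010100000206040480000101204041200,
    0xa3, 1, 0x1020314051658297a3, 9,
    [(0xa3, 1), (0x208693a5, 4), (0x10548793, 4), (0x217693a4, 4), (0x208693a5, 4), (0x10548793, 4)],
    [(0x1020314051658297a3, 9), (0x317084a6, 4), (0x54627091, 4), (0x708593a2, 4), (0x317084a6, 4), (0x54627091, 4)]⟩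

def c_1059 : frmChk tA tA F_1059 = true := by decide +kernel

def r_1059_0 : chkL rootF engF2 tA tA sA_252 sA_252 4 F_1059 [(511, 0, 0)]
    0x103d58d83c00ad4c528271344d = true := by
  decide +kernel

theorem f_1059 (h : TabsF) : FrameF repsF 252 F_1059.f :=
  frame_of rfl c_1059 (runs_of engOK r_1059_0) (by decide +kernel) h.1 h.1

def F_1060 : FrX :=
  ⟨0x482000044040440000c204002000900018204002006202000010020808002101020200002801022210008040402000a004010180010102004140010082,
    0xa0, 1, 0x3140637080a8, 6,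
    [(0xa0, 1), (0x538690a2, 4), (0x548790a1, 4), (0x21437690, 4), (0x538690a2, 4), (0x548790a1, 4)],
    [(0x3140637080a8, 6), (0x658297a1, 4), (0x508397a4, 4), (0x32416097, 4), (0x658297a1, 4), (0x508397a4, 4)]⟩

def c_1060 : frmChk tA tA F_1060 = true := by decide +kernel

def r_1060_0 : chkL rootF engF2 tA tA sA_252 sA_252 4 F_1060 [(255, 0, 0), (256, 0, 17)]
    0x11344da0c3a1341b03ca60d80f0780f0776041c350b82e = true := by
  decide +kernel

def r_1060_1 : chkL rootF engF2 tA tA sA_252 sA_252 4 F_1060 [(256, 17, 0)]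
    0x41d22c0f03c2e3182e22c5c0d68ab200f = true := by
  decide +kernel

theorem f_1060 (h : TabsF) : FrameF repsF 252 F_1060.f :=
  frame_of rfl c_1060 ((runs_of engOK r_1060_0).append (runs_of engOK r_1060_1)) (by decide +kernel) h.1 h.1

def F_1061 : FrX :=
  ⟨0x1c2102000004044000002041000101000082040884200080001400008000c00031014000882450021000804400108800001002024048001080924000010,
    0x0, 0, 0x206384, 3,
    [(0x0, 0), (0x205386a9, 4), (0x105487a9, 4), (0x214376a9, 4), (0x205386a9, 4), (0x105487a9, 4)],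
    [(0x206384, 3), (0x204365a9, 4), (0x217485a9, 4), (0x107386a9, 4), (0x204365a9, 4), (0x217485a9, 4)]⟩

def c_1061 : frmChk tA tA F_1061 = true := by decide +kernel

def r_1061_0 : chkL rootF engF2 tA tA sA_252 sA_252 4 F_1061 [(255, 0, 0), (256, 0, 10)]
    0x4331980f06d1c = true := by
  decide +kernel

def r_1061_1 : chkL rootF engF2 tA tA sA_252 sA_252 4 F_1061 [(256, 10, 5)]
    0x40f05c1b05c17 = true := by
  decide +kernel

def r_1061_2 : chkL rootF engF2 tA tA sA_252 sA_252 4 F_1061 [(256, 15, 4)]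
    0x1 = true := by
  decide +kernel

def r_1061_3 : chkL rootF engF2 tA tA sA_252 sA_252 4 F_1061 [(256, 19, 5)]
    0x58506e19c44550d81b06c1b84c1b06c5a = true := by
  decide +kernel

def r_1061_4 : chkL rootF engF2 tA tA sA_252 sA_252 4 F_1061 [(256, 24, 10)]
    0x1 = true := by
  decide +kernel

def r_1061_5 : chkL rootF engF2 tA tA sA_252 sA_252 4 F_1061 [(256, 34, 0)]
    0x1 = true := by
  decide +kernel

theorem f_1061 (h : TabsF) : FrameF repsF 252 F_1061.f :=
  frame_of rfl c_1061 ((runs_of engOK r_1061_0).append ((runs_of engOK r_1061_1).append ((runs_of engOK r_1061_2).append ((runs_of engOK r_1061_3).append ((runs_of engOK r_1061_4).append (runs_of engOK r_1061_5)))))) (by decide +kernel) h.1 h.1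

def F_1062 : FrX :=
  ⟨0x80080a000804040e00002101002001000002040881200002208028000020202080408050100004000890000128002001044508021010124200010080010,
    0xa6, 1, 0x3141607694a2, 6,
    [(0xa6, 1), (0x205396a8, 4), (0x10548796, 4), (0x214396a7, 4), (0x205396a8, 4), (0x10548796, 4)],
    [(0x3141607694a2, 6), (0x507198a6, 4), (0x32647095, 4), (0x32508197, 4), (0x32647095, 4), (0x108597a4, 4), (0x328791a6, 4), (0x32508197, 4), (0x328791a6, 4), (0x64758190, 4), (0x32508197, 4), (0x108597a4, 4)]⟩

def c_1062 : frmChk tA tB F_1062 = true := by decide +kernel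

def r_1062_0 : chkL rootF engF2 tA tB sA_252 sB_252 4 F_1062 [(255, 0, 0), (256, 0, 20)]
    0x40f0d80f1382749722c8833c902b12c3603c0f03c361ab4412c2d12c391380f = true := by
  decide +kernel

def r_1062_1 : chkL rootF engF2 tA tB sA_252 sB_252 4 F_1062 [(256, 20, 0)]
    0x40f03c0f0d80f05c2d03c0f = true := by
  decide +kernel

theorem f_1062 (h : TabsF) : FrameF repsF 252 F_1062.f :=
  frame_of rfl c_1062 ((runs_of engOK r_1062_0).append (runs_of engOK r_1062_1)) (by decide +kernel) h.1 h.2

def F_1063 : FrX :=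
  ⟨0x80080a000804040e0000210100200100000204088220000404802400004008208040410140000802080080088021080100010108400090030040460c000,
    0xa6, 1, 0x103260758398a2, 7,
    [(0xa6, 1), (0x205396a8, 4), (0x10548796, 4), (0x214396a7, 4), (0x205396a8, 4), (0x10548796, 4)],
    [(0x103260758398a2, 7), (0x328791a6, 4), (0x32607495, 4), (0x325184a0, 4), (0x328791a6, 4), (0x32607495, 4)]⟩

def c_1063 : frmChk tA tA F_1063 = true := by decide +kernel

def r_1063_0 : chkL rootF engF2 tA tA sA_252 sA_252 4 F_1063 [(511, 0, 0)]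
    0x44d1344d1341d0740f0d84d8982d = true := by
  decide +kernel

theorem f_1063 (h : TabsF) : FrameF repsF 252 F_1063.f :=
  frame_of rfl c_1063 (runs_of engOK r_1063_0) (by decide +kernel) h.1 h.1

def F_1064 : FrX :=
  ⟨0x1c2102000004044000002041000101000082040888200008008080004000242020601000900010021000406012248100081010041200201108004802000,
    0x0, 0, 0x107583, 3,
    [(0x0, 0), (0x205386a9, 4), (0x105487a9, 4), (0x214376a9, 4), (0x205386a9, 4), (0x105487a9, 4)],
    [(0x107583, 3), (0x216387a9, 4), (0x105374a9, 4), (0x206584a9, 4), (0x216387a9, 4), (0x105374a9, 4)]⟩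

def c_1064 : frmChk tA tA F_1064 = true := by decide +kernel

def r_1064_0 : chkL rootF engF2 tA tA sA_252 sA_252 4 F_1064 [(255, 0, 0), (256, 0, 11)]
    0x41b0741e0781e = true := by
  decide +kernel

def r_1064_1 : chkL rootF engF2 tA tA sA_252 sA_252 4 F_1064 [(256, 11, 5)]
    0x4a32581e6181e0781e0781e30c1e0781b = true := by
  decide +kernel

def r_1064_2 : chkL rootF engF2 tA tA sA_252 sA_252 4 F_1064 [(256, 16, 5)]
    0x114c4714c5314cd1 = true := by
  decide +kernel

def r_1064_3 : chkL rootF engF2 tA tA sA_252 sA_252 4 F_1064 [(256, 21, 4)]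
    0x1 = true := by
  decide +kernel

def r_1064_4 : chkL rootF engF2 tA tA sA_252 sA_252 4 F_1064 [(256, 25, 6)]
    0x106c1b = true := by
  decide +kernel

def r_1064_5 : chkL rootF engF2 tA tA sA_252 sA_252 4 F_1064 [(256, 31, 0)]
    0x42b0aca3 = true := by
  decide +kernel

theorem f_1064 (h : TabsF) : FrameF repsF 252 F_1064.f :=
  frame_of rfl c_1064 ((runs_of engOK r_1064_0).append ((runs_of engOK r_1064_1).append ((runs_of engOK r_1064_2).append ((runs_of engOK r_1064_3).append ((runs_of engOK r_1064_4).append (runs_of engOK r_1064_5)))))) (by decide +kernel) h.1 h.1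

def F_1065 : FrX :=
  ⟨0x2002000900044004000e020410001410008000408008010140084000082201001028002040240010100400120004200002840080220010080a0104014041,
    0xa3, 1, 0x203052748497a2, 7,
    [(0xa3, 1), (0x208693a5, 4), (0x10548793, 4), (0x217693a4, 4), (0x208693a5, 4), (0x10548793, 4)],
    [(0x203052748497a2, 7), (0x205476a3, 4), (0x31548097, 4), (0x548296a1, 4), (0x205476a3, 4), (0x31548097, 4)]⟩

def c_1065 : frmChk tA tA F_1065 = true := by decide +kernel

def r_1065_0 : chkL rootF engF2 tA tA sA_252 sA_252 4 F_1065 [(255, 0, 0), (256, 0, 22)]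
    0x106c2e0748b13474 = true := by
  decide +kernel

def r_1065_1 : chkL rootF engF2 tA tA sA_252 sA_252 4 F_1065 [(256, 22, 0)]
    0x1076320b45605c2d8c8170cc0f = true := by
  decide +kernel

theorem f_1065 (h : TabsF) : FrameF repsF 252 F_1065.f :=
  frame_of rfl c_1065 ((runs_of engOK r_1065_0).append (runs_of engOK r_1065_1)) (by decide +kernel) h.1 h.1

def F_1066 : FrX :=
  ⟨0x80080a000804040e00002101002001000002040882200004044088100080082020024000c000100210008020122501000000500410009011080c0202000,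
    0xa6, 1, 0x315065728391a3, 7,
    [(0xa6, 1), (0x205396a8, 4), (0x10548796, 4), (0x214396a7, 4), (0x205396a8, 4), (0x10548796, 4)],
    [(0x315065728391a3, 7), (0x107583a6, 4), (0x21648395, 4), (0x208397a4, 4), (0x107583a6, 4), (0x21648395, 4)]⟩

def c_1066 : frmChk tA tA F_1066 = true := by decide +kernel

def r_1066_0 : chkL rootF engF2 tA tA sA_252 sA_252 4 F_1066 [(255, 0, 0), (256, 0, 21)]
    0x10783303c2709c2e03c0f05d2505c1e0f059 = true := by
  decide +kernel

def r_1066_1 : chkL rootF engF2 tA tA sA_252 sA_252 4 F_1066 [(256, 21, 20)]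
    0x42e1e05503c2b = true := by
  decide +kernel

def r_1066_2 : chkL rootF engF2 tA tA sA_252 sA_252 4 F_1066 [(256, 41, 0)]
    0x43c = true := by
  decide +kernel

theorem f_1066 (h : TabsF) : FrameF repsF 252 F_1066.f :=
  frame_of rfl c_1066 ((runs_of engOK r_1066_0).append ((runs_of engOK r_1066_1).append (runs_of engOK r_1066_2))) (by decide +kernel) h.1 h.1

def F_1067 : FrX :=
  ⟨0x482000044040440000c2040020009000182040002022040100880200014008004400110020010200800082181020802008002108008404000904044004,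
    0xa0, 1, 0x103241526471a3, 7,
    [(0xa0, 1), (0x538690a2, 4), (0x548790a1, 4), (0x21437690, 4), (0x538690a2, 4), (0x548790a1, 4)],
    [(0x103241526471a3, 7), (0x435186a0, 4), (0x40637192, 4), (0x436092a8, 4), (0x40637192, 4), (0x607583a4, 4), (0x518092a6, 4), (0x436092a8, 4), (0x518092a6, 4), (0x306471a8, 4), (0x436092a8, 4), (0x607583a4, 4)]⟩

def c_1067 : frmChk tA tB F_1067 = true := by decide +kernel

def r_1067_0 : chkL rootF engF2 tA tB sA_252 sB_252 4 F_1067 [(255, 0, 0), (256, 0, 20)]
    0x10741d0741d0741d0741d = true := by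
  decide +kernel

def r_1067_1 : chkL rootF engF2 tA tB sA_252 sB_252 4 F_1067 [(256, 20, 21)]
    0x113455 = true := by
  decide +kernel

def r_1067_2 : chkL rootF engF2 tA tB sA_252 sB_252 4 F_1067 [(256, 41, 0)]
    0x1 = true := by
  decide +kernel

theorem f_1067 (h : TabsF) : FrameF repsF 252 F_1067.f :=
  frame_of rfl c_1067 ((runs_of engOK r_1067_0).append ((runs_of engOK r_1067_1).append (runs_of engOK r_1067_2))) (by decide +kernel) h.1 h.2

def F_1068 : FrX :=
  ⟨0x80080a000804040e0000210100200100000204088220000111002040000408404088004140000802205800001411000106002000600108a000004604000,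
    0xa6, 1, 0x31657192a3, 5,
    [(0xa6, 1), (0x205396a8, 4), (0x10548796, 4), (0x214396a7, 4), (0x205396a8, 4), (0x10548796, 4)],
    [(0x31657192a3, 5), (0x218590a6, 4), (0x21647083, 4), (0x215397a4, 4), (0x218590a6, 4), (0x21647083, 4)]⟩

def c_1068 : frmChk tA tA F_1068 = true := by decide +kernel

def r_1068_0 : chkL rootF engF2 tA tA sA_252 sA_252 4 F_1068 [(255, 0, 0), (256, 0, 23)]
    0x10d871 = true := by
  decide +kernel

def r_1068_1 : chkL rootF engF2 tA tA sA_252 sA_252 4 F_1068 [(256, 23, 18)]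
    0x1 = true := by
  decide +kernel

def r_1068_2 : chkL rootF engF2 tA tA sA_252 sA_252 4 F_1068 [(256, 41, 0)]
    0x1 = true := by
  decide +kernel

theorem f_1068 (h : TabsF) : FrameF repsF 252 F_1068.f :=
  frame_of rfl c_1068 ((runs_of engOK r_1068_0).append ((runs_of engOK r_1068_1).append (runs_of engOK r_1068_2))) (by decide +kernel) h.1 h.1

def F_1069 : FrX :=
  ⟨0x80080a000804040e0000210100200100000204088108100060440010022000000a011020002020008088801000500800204042040402502100104041000,
    0xa6, 1, 0x2030436073a6, 6,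
    [(0xa6, 1), (0x205396a8, 4), (0x10548796, 4), (0x214396a7, 4), (0x205396a8, 4), (0x10548796, 4)],
    [(0x2030436073a6, 6), (0x607593a8, 4), (0x52618493, 4), (0x107293a4, 4), (0x607593a8, 4), (0x52618493, 4)]⟩

def c_1069 : frmChk tA tA F_1069 = true := by decide +kernel

def r_1069_0 : chkL rootF engF2 tA tA sA_252 sA_252 4 F_1069 [(255, 0, 0), (256, 0, 21)]
    0x4170741d82c9a0ac1d0741b06c56a881d05d0e0741b03c1b06c1b = true := by
  decide +kernel

def r_1069_1 : chkL rootF engF2 tA tA sA_252 sA_252 4 F_1069 [(256, 21, 0)]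
    0x4360ac7406c2b0ac1b0760e2b02703c0f1d01b23689 = true := by
  decide +kernel

theorem f_1069 (h : TabsF) : FrameF repsF 252 F_1069.f :=
  frame_of rfl c_1069 ((runs_of engOK r_1069_0).append (runs_of engOK r_1069_1)) (by decide +kernel) h.1 h.1

def F_1070 : FrX :=
  ⟨0x2002000900044004000e02041000141000800040810000082080810011010401041002001008008822040112010020040004203004000208001140008090,
    0xa3, 1, 0x10214350638296a0, 8,
    [(0xa3, 1), (0x208693a5, 4), (0x10548793, 4), (0x217693a4, 4), (0x208693a5, 4), (0x10548793, 4)],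
    [(0x10214350638296a0, 8), (0x546190a8, 4), (0x315470a2, 4), (0x54638297, 4), (0x546190a8, 4), (0x315470a2, 4)]⟩

def c_1070 : frmChk tA tA F_1070 = true := by decide +kernel

def r_1070_0 : chkL rootF engF2 tA tA sA_252 sA_252 4 F_1070 [(255, 0, 0), (256, 0, 20)]
    0x11e02b0e43c1c4780ea2c = true := by
  decide +kernel

def r_1070_1 : chkL rootF engF2 tA tA sA_252 sA_252 4 F_1070 [(256, 20, 0)]
    0x43c15871 = true := by
  decide +kernel

theorem f_1070 (h : TabsF) : FrameF repsF 252 F_1070.f :=
  frame_of rfl c_1070 ((runs_of engOK r_1070_0).append (runs_of engOK r_1070_1)) (by decide +kernel) h.1 h.1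

def F_1071 : FrX :=
  ⟨0x80080a000804040e00002101002001000002040882200002090080100004082045080000c0600001201800001221000200006001100060c000805082000,
    0xa6, 1, 0x21324151748398a6, 8,
    [(0xa6, 1), (0x205396a8, 4), (0x10548796, 4), (0x214396a7, 4), (0x205396a8, 4), (0x10548796, 4)],
    [(0x21324151748398a6, 8), (0x304297a8, 4), (0x506174a2, 4), (0x426198a7, 4), (0x506174a2, 4), (0x538294a7, 4), (0x306187a9, 4), (0x426198a7, 4), (0x306187a9, 4), (0x507298a4, 4), (0x426198a7, 4), (0x538294a7, 4)]⟩

def c_1071 : frmChk tA tB F_1071 = true := by decide +kernel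

def r_1071_0 : chkL rootF engF2 tA tB sA_252 sB_252 4 F_1071 [(255, 0, 0), (256, 0, 15)]
    0x4e2b804e0cc78 = true := by
  decide +kernel

def r_1071_1 : chkL rootF engF2 tA tB sA_252 sB_252 4 F_1071 [(256, 15, 12)]
    0x41b03c0f05c17 = true := by
  decide +kernel

def r_1071_2 : chkL rootF engF2 tA tB sA_252 sB_252 4 F_1071 [(256, 27, 0)]
    0x11b00f = true := by
  decide +kernel

theorem f_1071 (h : TabsF) : FrameF repsF 252 F_1071.f :=
  frame_of rfl c_1071 ((runs_of engOK r_1071_0).append ((runs_of engOK r_1071_1).append (runs_of engOK r_1071_2))) (by decide +kernel) h.1 h.2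

def F_1072 : FrX :=
  ⟨0x80080a000804040e00002101002001000002040882200004048104020040082008404001400008020800800880210801000841030000900300210088080,
    0xa6, 1, 0x324161758292a8, 7,
    [(0xa6, 1), (0x205396a8, 4), (0x10548796, 4), (0x214396a7, 4), (0x205396a8, 4), (0x10548796, 4)],
    [(0x324161758292a8, 7), (0x728390a4, 4), (0x607183a5, 4), (0x21548396, 4), (0x728390a4, 4), (0x607183a5, 4)]⟩

def c_1072 : frmChk tA tA F_1072 = true := by decide +kernel

def r_1072_0 : chkL rootF engF2 tA tA sA_252 sA_252 4 F_1072 [(255, 0, 0), (256, 0, 22)]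
    0x40f1344d168175602e13945711455188e7105c1544d5141e = true := by
  decide +kernel

def r_1072_1 : chkL rootF engF2 tA tA sA_252 sA_252 4 F_1072 [(256, 22, 0)]
    0x42b09c0f18d1c03c1e = true := by
  decide +kernel

theorem f_1072 (h : TabsF) : FrameF repsF 252 F_1072.f :=
  frame_of rfl c_1072 ((runs_of engOK r_1072_0).append (runs_of engOK r_1072_1)) (by decide +kernel) h.1 h.1

def F_1073 : FrX :=
  ⟨0x80080a000804040e00002101002001000002040890020001404010008814004004081010000031000028000828020108004042040020222002100448200,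
    0xa6, 1, 0x104160748294a3, 7,
    [(0xa6, 1), (0x205396a8, 4), (0x10548796, 4), (0x214396a7, 4), (0x205396a8, 4), (0x10548796, 4)],
    [(0x104160748294a3, 7), (0x217386a5, 4), (0x20647395, 4), (0x107384a9, 4), (0x217386a5, 4), (0x20647395, 4)]⟩

def c_1073 : frmChk tA tA F_1073 = true := by decide +kernel

def r_1073_0 : chkL rootF engF2 tA tA sA_252 sA_252 4 F_1073 [(255, 0, 0), (256, 0, 18)]
    0x42b8a8e206c2e05c5314c531c43903c27268d21680f9842b18c27 = true := by
  decide +kernel

def r_1073_1 : chkL rootF engF2 tA tA sA_252 sA_252 4 F_1073 [(256, 18, 0)]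
    0x40f03c3c12c0f2c84d = true := by
  decide +kernel

theorem f_1073 (h : TabsF) : FrameF repsF 252 F_1073.f :=
  frame_of rfl c_1073 ((runs_of engOK r_1073_0).append (runs_of engOK r_1073_1)) (by decide +kernel) h.1 h.1

def F_1074 : FrX :=
  ⟨0x482000044040440000c204002000900018204001002008200100018008010280802004080404101000003040802004009400800040a804000a00080058,
    0xa0, 1, 0x104352618795a6, 7,
    [(0xa0, 1), (0x538690a2, 4), (0x548790a1, 4), (0x21437690, 4), (0x538690a2, 4), (0x548790a1, 4)],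
    [(0x104352618795a6, 7), (0x517398a4, 4), (0x206193a8, 4), (0x207498a3, 4), (0x206193a8, 4), (0x658497a3, 4), (0x204351a7, 4), (0x207498a3, 4), (0x204351a7, 4), (0x617483a9, 4), (0x207498a3, 4), (0x658497a3, 4)]⟩

def c_1074 : frmChk tA tB F_1074 = true := by decide +kernel

def r_1074_0 : chkL rootF engF2 tA tB sA_252 sB_252 4 F_1074 [(255, 0, 0), (256, 0, 22)]
    0x44705c551c456 = true := by
  decide +kernel

def r_1074_1 : chkL rootF engF2 tA tB sA_252 sB_252 4 F_1074 [(256, 22, 0)]
    0x103c17154711547103c33 = true := by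
  decide +kernel

theorem f_1074 (h : TabsF) : FrameF repsF 252 F_1074.f :=
  frame_of rfl c_1074 ((runs_of engOK r_1074_0).append (runs_of engOK r_1074_1)) (by decide +kernel) h.1 h.2

def F_1075 : FrX :=
  ⟨0x2002000900044004000e0204100014100080004080800020280420004820a0080000420200000840240c0440500000108040220010201000001002088890,
    0xa3, 1, 0x10315464728595a1, 8,
    [(0xa3, 1), (0x208693a5, 4), (0x10548793, 4), (0x217693a4, 4), (0x208693a5, 4), (0x10548793, 4)],
    [(0x10315464728595a1, 8), (0x54718390, 4), (0x428396a1, 4), (0x526083a7, 4), (0x54718390, 4), (0x428396a1, 4)]⟩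

def c_1075 : frmChk tA tA F_1075 = true := by decide +kernel

def r_1075_0 : chkL rootF engF2 tA tA sA_252 sA_252 4 F_1075 [(255, 0, 0), (256, 0, 21)]
    0x103c33 = true := by
  decide +kernel

def r_1075_1 : chkL rootF engF2 tA tA sA_252 sA_252 4 F_1075 [(256, 21, 0)]
    0x41705c4e0d44e0e45c1982e = true := by
  decide +kernel

theorem f_1075 (h : TabsF) : FrameF repsF 252 F_1075.f :=
  frame_of rfl c_1075 ((runs_of engOK r_1075_0).append (runs_of engOK r_1075_1)) (by decide +kernel) h.1 h.1

def F_1076 : FrX :=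
  ⟨0x2002000900044004000e020410001410008000408080010011080200120002402000c8000a004402804000082140081000400200050080004408a0050800,
    0xa3, 1, 0x5064768291a8, 6,
    [(0xa3, 1), (0x208693a5, 4), (0x10548793, 4), (0x217693a4, 4), (0x208693a5, 4), (0x10548793, 4)],
    [(0x5064768291a8, 6), (0x407385a6, 4), (0x21607495, 4), (0x214076a3, 4), (0x21607495, 4), (0x437698a0, 4), (0x216385a7, 4), (0x214076a3, 4), (0x216385a7, 4), (0x647095a3, 4), (0x214076a3, 4), (0x437698a0, 4)]⟩

def c_1076 : frmChk tA tB F_1076 = true := by decide +kernel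

def r_1076_0 : chkL rootF engF2 tA tB sA_252 sB_252 4 F_1076 [(255, 0, 0), (256, 0, 18)]
    0x103ccc1345506c4d5520b82c33 = true := by
  decide +kernel

def r_1076_1 : chkL rootF engF2 tA tB sA_252 sB_252 4 F_1076 [(256, 18, 12)]
    0x111c470d43506ca328c8ba0c1742c0f11c33 = true := by
  decide +kernel

def r_1076_2 : chkL rootF engF2 tA tB sA_252 sB_252 4 F_1076 [(256, 30, 0)]
    0x4170743906c27e800f03c1b03c334680f4cb0303c334c80f0cd322981b = true := by
  decide +kernel

theorem f_1076 (h : TabsF) : FrameF repsF 252 F_1076.f :=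
  frame_of rfl c_1076 ((runs_of engOK r_1076_0).append ((runs_of engOK r_1076_1).append (runs_of engOK r_1076_2))) (by decide +kernel) h.1 h.2

def F_1077 : FrX :=
  ⟨0x80080a000804040e00002101002001000002040890020002202008100414001041000050000084800a100001282100018200900400000a1002040600200,
    0xa6, 1, 0x10325061728092a3, 8,
    [(0xa6, 1), (0x205396a8, 4), (0x10548796, 4), (0x214396a7, 4), (0x205396a8, 4), (0x10548796, 4)],
    [(0x10325061728092a3, 8), (0x315498a0, 4), (0x30417286, 4), (0x314072a5, 4), (0x30417286, 4), (0x405196a3, 4), (0x507298a4, 4), (0x314072a5, 4), (0x507298a4, 4), (0x104386a5, 4), (0x314072a5, 4), (0x405196a3, 4)]⟩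

def c_1077 : frmChk tA tB F_1077 = true := by decide +kernel

def r_1077_0 : chkL rootF engF2 tA tB sA_252 sB_252 4 F_1077 [(255, 0, 0), (256, 0, 14)]
    0x5460d42e0d83651a2c0d85c1d02e548361d0360b84d1705c0b83c = true := by
  decide +kernel

def r_1077_1 : chkL rootF engF2 tA tB sA_252 sB_252 4 F_1077 [(256, 14, 13)]
    0x41d05c3605c1d05c4d = true := by
  decide +kernel

def r_1077_2 : chkL rootF engF2 tA tB sA_252 sB_252 4 F_1077 [(256, 27, 0)]
    0x4350d85c0d8360d8360d8360d8360d8360d95211c36 = true := by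
  decide +kernel

theorem f_1077 (h : TabsF) : FrameF repsF 252 F_1077.f :=
  frame_of rfl c_1077 ((runs_of engOK r_1077_0).append ((runs_of engOK r_1077_1).append (runs_of engOK r_1077_2))) (by decide +kernel) h.1 h.2

theorem cl_252 (h : TabsF) : ∀ f ∈ fr_252, FrameF repsF 252 f :=
  List.forall_mem_cons.2 ⟨f_1050 h, List.forall_mem_cons.2 ⟨f_1051 h, List.forall_mem_cons.2 ⟨f_1052 h, List.forall_mem_cons.2 ⟨f_1053 h, List.forall_mem_cons.2 ⟨f_1054 h, List.forall_mem_cons.2 ⟨f_1055 h, List.forall_mem_cons.2 ⟨f_1056 h, List.forall_mem_cons.2 ⟨f_1057 h, List.forall_mem_cons.2 ⟨f_1058 h, List.forall_mem_cons.2 ⟨f_1059 h, List.forall_mem_cons.2 ⟨f_1060 h, List.forall_mem_cons.2 ⟨f_1061 h, List.forall_mem_cons.2 ⟨f_1062 h, List.forall_mem_cons.2 ⟨f_1063 h, List.forall_mem_cons.2 ⟨f_1064 h, List.forall_mem_cons.2 ⟨f_1065 h, List.forall_mem_cons.2 ⟨f_1066 h, List.forall_mem_cons.2 ⟨f_1067 h, List.forall_mem_cons.2 ⟨f_1068 h, List.forall_mem_cons.2 ⟨f_1069 h, List.forall_mem_cons.2 ⟨f_1070 h, List.forall_mem_cons.2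 ⟨f_1071 h, List.forall_mem_cons.2 ⟨f_1072 h, List.forall_mem_cons.2 ⟨f_1073 h, List.forall_mem_cons.2 ⟨f_1074 h, List.forall_mem_cons.2 ⟨f_1075 h, List.forall_mem_cons.2 ⟨f_1076 h, List.forall_mem_cons.2 ⟨f_1077 h,
    fun _ h0 => absurd h0 List.not_mem_nil⟩⟩⟩⟩⟩⟩⟩⟩⟩⟩⟩⟩⟩⟩⟩⟩⟩⟩⟩⟩⟩⟩⟩⟩⟩⟩⟩⟩

def F_1078 : FrX :=
  ⟨0x1001040012008080000e0084080041000810100004090000180840002100202004a04001003008024004480001100800080400120402000d080100050008,
    0xa3, 1, 0x3053618097a4, 6,
    [(0xa3, 1), (0x207584a6, 4), (0x10547693, 4), (0x647593a8, 4), (0x10547693, 4), (0x216485a7, 4), (0x208693a4, 4), (0x647593a8, 4), (0x208693a4, 4), (0x106574a8, 4), (0x647593a8, 4), (0x216485a7, 4)],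
    [(0x3053618097a4, 6), (0x31507482, 4), (0x748693a0, 4), (0x627491a5, 4), (0x31507482, 4), (0x748693a0, 4)]⟩

def c_1078 : frmChk tB tA F_1078 = true := by decide +kernel

def r_1078_0 : chkL rootF engF2 tB tA sB_253 sA_253 4 F_1078 [(255, 0, 0), (256, 0, 25)]
    0x44d5282b8710e0781b06ec42340f3248d = true := by
  decide +kernel

def r_1078_1 : chkL rootF engF2 tB tA sB_253 sA_253 4 F_1078 [(256, 25, 0)]
    0x45311c470cc170ac0f15a2c0e931c84aa9a0e805c39 = true := by
  decide +kernel

theorem f_1078 (h : TabsF) : FrameF repsF 253 F_1078.f :=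
  frame_of rfl c_1078 ((runs_of engOK r_1078_0).append (runs_of engOK r_1078_1)) (by decide +kernel) h.2 h.1

def F_1079 : FrX :=
  ⟨0x1001040012008080000e00840800410008101000040410100808400040840040404042020000280068002808001400400940200108024008101000042080,
    0xa3, 1, 0x1030415261738593a0, 9,
    [(0xa3, 1), (0x207584a6, 4), (0x10547693, 4), (0x647593a8, 4), (0x10547693, 4), (0x216485a7, 4), (0x208693a4, 4), (0x647593a8, 4), (0x208693a4, 4), (0x106574a8, 4), (0x647593a8, 4), (0x216485a7, 4)],
    [(0x1030415261738593a0, 9), (0x427398a5, 4), (0x217380a6, 4), (0x41657390, 4), (0x427398a5, 4), (0x217380a6, 4)]⟩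

def c_1079 : frmChk tB tA F_1079 = true := by decide +kernel

def r_1079_0 : chkL rootF engF2 tB tA sB_253 sA_253 4 F_1079 [(255, 0, 0), (256, 0, 23)]
    0x1078690782ba2435 = true := by
  decide +kernel

def r_1079_1 : chkL rootF engF2 tB tA sB_253 sA_253 4 F_1079 [(256, 23, 0)]
    0x4390cc78076920e433a48ac1342b = true := by
  decide +kernel

theorem f_1079 (h : TabsF) : FrameF repsF 253 F_1079.f :=
  frame_of rfl c_1079 ((runs_of engOK r_1079_0).append (runs_of engOK r_1079_1)) (by decide +kernel) h.2 h.1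

def F_1080 : FrX :=
  ⟨0x1001040012008080000e00840800410008101000042080040041400102000042422000202020201008210810100808800004000c01800084060005800200,
    0xa3, 1, 0x102132728195a6, 7,
    [(0xa3, 1), (0x207584a6, 4), (0x10547693, 4), (0x647593a8, 4), (0x10547693, 4), (0x216485a7, 4), (0x208693a4, 4), (0x647593a8, 4), (0x208693a4, 4), (0x106574a8, 4), (0x647593a8, 4), (0x216485a7, 4)],
    [(0x102132728195a6, 7), (0x427193a0, 4), (0x658194a3, 4), (0x206593a4, 4), (0x658194a3, 4), (0x308792a4, 4), (0x406571a2, 4), (0x206593a4, 4), (0x406571a2, 4), (0x204381a9, 4), (0x206593a4, 4), (0x308792a4, 4)]⟩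

def c_1080 : frmChk tB tB F_1080 = true := by decide +kernel

def r_1080_0 : chkL rootF engF2 tB tB sB_253 sB_253 4 F_1080 [(255, 0, 0), (256, 0, 15)]
    0x65290e62916c1743c08703c0f03c616549509c858c50d4170b81b05ec83304b0ac6a3285505c17 = true := by
  decide +kernel

def r_1080_1 : chkL rootF engF2 tB tB sB_253 sB_253 4 F_1080 [(256, 15, 18)]
    0x41e06cd80d827 = true := by
  decide +kernel

def r_1080_2 : chkL rootF engF2 tB tB sB_253 sB_253 4 F_1080 [(256, 33, 0)]
    0x74421d1621e9827036 = true := by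
  decide +kernel

theorem f_1080 (h : TabsF) : FrameF repsF 253 F_1080.f :=
  frame_of rfl c_1080 ((runs_of engOK r_1080_0).append ((runs_of engOK r_1080_1).append (runs_of engOK r_1080_2))) (by decide +kernel) h.2 h.2

def F_1081 : FrX :=
  ⟨0x1001040012008080000e008408004100081010000420081000c8022002000080440202020000110020201e00100000814084000200810081010408020210,
    0xa3, 1, 0x2032527285a3, 6,
    [(0xa3, 1), (0x207584a6, 4), (0x10547693, 4), (0x647593a8, 4), (0x10547693, 4), (0x216485a7, 4), (0x208693a4, 4), (0x647593a8, 4), (0x208693a4, 4), (0x106574a8, 4), (0x647593a8, 4), (0x216485a7, 4)],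
    [(0x2032527285a3, 6), (0x437285a6, 4), (0x21658490, 4), (0x648590a3, 4), (0x21658490, 4), (0x647183a5, 4), (0x637290a4, 4), (0x648590a3, 4), (0x637290a4, 4), (0x215486a3, 4), (0x648590a3, 4), (0x647183a5, 4)]⟩

def c_1081 : frmChk tB tB F_1081 = true := by decide +kernel

def r_1081_0 : chkL rootF engF2 tB tB sB_253 sB_253 4 F_1081 [(255, 0, 0), (256, 0, 23)]
    0x427 = true := by
  decide +kernel

def r_1081_1 : chkL rootF engF2 tB tB sB_253 sB_253 4 F_1081 [(256, 23, 0)]
    0x105c171706c = true := by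
  decide +kernel

theorem f_1081 (h : TabsF) : FrameF repsF 253 F_1081.f :=
  frame_of rfl c_1081 ((runs_of engOK r_1081_0).append (runs_of engOK r_1081_1)) (by decide +kernel) h.2 h.2

def F_1082 : FrX :=
  ⟨0x600020801080810000c00401804101010010040021008020000224020804200400220200002080282021020011000c09c0000000804401010001008300,
    0xa0, 1, 0x104052617392a3, 7,
    [(0xa0, 1), (0x637584a2, 4), (0x547690a1, 4), (0x64758390, 4), (0x547690a1, 4), (0x21647385, 4), (0x438690a2, 4), (0x64758390, 4), (0x438690a2, 4), (0x657483a1, 4), (0x64758390, 4), (0x21647385, 4)],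
    [(0x104052617392a3, 7), (0x758094a2, 4), (0x21647583, 4), (0x307596a1, 4), (0x758094a2, 4), (0x21647583, 4)]⟩

def c_1082 : frmChk tB tA F_1082 = true := by decide +kernel

def r_1082_0 : chkL rootF engF2 tB tA sB_253 sA_253 4 F_1082 [(255, 0, 0), (256, 0, 24)]
    0x16a01703c721aa7003c39 = true := by
  decide +kernel

def r_1082_1 : chkL rootF engF2 tB tA sB_253 sA_253 4 F_1082 [(256, 24, 0)]
    0x105c4e0b41703c3503c3609c2b = true := by
  decide +kernel

theorem f_1082 (h : TabsF) : FrameF repsF 253 F_1082.f :=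
  frame_of rfl c_1082 ((runs_of engOK r_1082_0).append (runs_of engOK r_1082_1)) (by decide +kernel) h.2 h.1

def F_1083 : FrX :=
  ⟨0x600020801080810000c0040180410101001004002020500000081202000a000200380012000088080049001011018600800004008040040009001c1000,
    0xa0, 1, 0x213063708096a5, 7,
    [(0xa0, 1), (0x637584a2, 4), (0x547690a1, 4), (0x64758390, 4), (0x547690a1, 4), (0x21647385, 4), (0x438690a2, 4), (0x64758390, 4), (0x438690a2, 4), (0x657483a1, 4), (0x64758390, 4), (0x21647385, 4)],
    [(0x213063708096a5, 7), (0x508197a6, 4), (0x507382a4, 4), (0x21506493, 4), (0x508197a6, 4), (0x507382a4, 4)]⟩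

def c_1083 : frmChk tB tA F_1083 = true := by decide +kernel

def r_1083_0 : chkL rootF engF2 tB tA sB_253 sA_253 4 F_1083 [(255, 0, 0), (256, 0, 24)]
    0x41d0746603cd422cd19142d03c5a = true := by
  decide +kernel

def r_1083_1 : chkL rootF engF2 tB tA sB_253 sA_253 4 F_1083 [(256, 24, 0)]
    0x10b40f = true := by
  decide +kernel

theorem f_1083 (h : TabsF) : FrameF repsF 253 F_1083.f :=
  frame_of rfl c_1083 ((runs_of engOK r_1083_0).append (runs_of engOK r_1083_1)) (by decide +kernel) h.2 h.1

def F_1084 : FrX :=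
  ⟨0x600020801080810000c00401804101010010040020102410000812008800420000080a000046000840420204000020a100201020510080020000140280,
    0xa0, 1, 0x2142617486a0, 6,
    [(0xa0, 1), (0x637584a2, 4), (0x547690a1, 4), (0x64758390, 4), (0x547690a1, 4), (0x21647385, 4), (0x438690a2, 4), (0x64758390, 4), (0x438690a2, 4), (0x657483a1, 4), (0x64758390, 4), (0x21647385, 4)],
    [(0x2142617486a0, 6), (0x517283a4, 4), (0x758190a6, 4), (0x32518790, 4), (0x758190a6, 4), (0x31526487, 4), (0x738290a4, 4), (0x32518790, 4), (0x738290a4, 4), (0x327185a6, 4), (0x32518790, 4), (0x31526487, 4)]⟩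

def c_1084 : frmChk tB tB F_1084 = true := by decide +kernel

def r_1084_0 : chkL rootF engF2 tB tB sB_253 sB_253 4 F_1084 [(255, 0, 0), (256, 0, 26)]
    0x58909c27 = true := by
  decide +kernel

def r_1084_1 : chkL rootF engF2 tB tB sB_253 sB_253 4 F_1084 [(256, 26, 0)]
    0x4270ac1b1642b03c0f = true := by
  decide +kernel

theorem f_1084 (h : TabsF) : FrameF repsF 253 F_1084.f :=
  frame_of rfl c_1084 ((runs_of engOK r_1084_0).append (runs_of engOK r_1084_1)) (by decide +kernel) h.2 h.2

def F_1085 : FrX :=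
  ⟨0x482000044040440000c2040020009000182040000840900002100100014101200200044028080220800800181010820220100240100100004200010208,
    0xa0, 1, 0x314264738491a3, 7,
    [(0xa0, 1), (0x538690a2, 4), (0x548790a1, 4), (0x21437690, 4), (0x538690a2, 4), (0x548790a1, 4)],
    [(0x314264738491a3, 7), (0x406273a5, 4), (0x61738590, 4), (0x217394a8, 4), (0x406273a5, 4), (0x61738590, 4)]⟩

def c_1085 : frmChk tA tA F_1085 = true := by decide +kernel

def r_1085_0 : chkL rootF engF2 tA tA sA_253 sA_253 4 F_1085 [(255, 0, 0), (256, 0, 21)]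
    0x44d05c17078a906c368e23806e1a0781e078e41382d = true := by
  decide +kernel

def r_1085_1 : chkL rootF engF2 tA tA sA_253 sA_253 4 F_1085 [(256, 21, 0)]
    0x107856362c4b402706cd80d81e0782b0b42b = true := by
  decide +kernel

theorem f_1085 (h : TabsF) : FrameF repsF 253 F_1085.f :=
  frame_of rfl c_1085 ((runs_of engOK r_1085_0).append (runs_of engOK r_1085_1)) (by decide +kernel) h.1 h.1

def F_1086 : FrX :=
  ⟨0x1c2102000004044000002041000101000082040890080080001004100400101040808044008084220100808501010820420300040100000244200080080,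
    0x0, 0, 0x54647587, 4,
    [(0x0, 0), (0x205386a9, 4), (0x105487a9, 4), (0x214376a9, 4), (0x205386a9, 4), (0x105487a9, 4)],
    [(0x54647587, 4), (0x20536487, 4), (0x107685a9, 4), (0x436587a9, 4), (0x107685a9, 4), (0x21657483, 4), (0x205463a9, 4), (0x436587a9, 4), (0x205463a9, 4), (0x10437586, 4), (0x436587a9, 4), (0x21657483, 4)]⟩

def c_1086 : frmChk tA tB F_1086 = true := by decide +kernel

def r_1086_0 : chkL rootF engF2 tA tB sA_253 sB_253 4 F_1086 [(255, 0, 0), (256, 0, 4)]
    0x4a62724a3c0f003c1d1a40f41c7115872 = true := by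
  decide +kernel

def r_1086_1 : chkL rootF engF2 tA tB sA_253 sB_253 4 F_1086 [(256, 4, 5)]
    0x11385c = true := by
  decide +kernel

def r_1086_2 : chkL rootF engF2 tA tB sA_253 sB_253 4 F_1086 [(256, 9, 6)]
    0x4592b2a8 = true := by
  decide +kernel

def r_1086_3 : chkL rootF engF2 tA tB sA_253 sB_253 4 F_1086 [(256, 15, 12)]
    0x44e1384e = true := by
  decide +kernel

def r_1086_4 : chkL rootF engF2 tA tB sA_253 sB_253 4 F_1086 [(256, 27, 10)]
    0x45a1599221c0f1545603caaa0c637081e1c41e1c41e1c68ca328c = true := by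
  decide +kernel

def r_1086_5 : chkL rootF engF2 tA tB sA_253 sB_253 4 F_1086 [(256, 37, 0)]
    0x103c8b158560750d0cd29 = true := by
  decide +kernel

theorem f_1086 (h : TabsF) : FrameF repsF 253 F_1086.f :=
  frame_of rfl c_1086 ((runs_of engOK r_1086_0).append ((runs_of engOK r_1086_1).append ((runs_of engOK r_1086_2).append ((runs_of engOK r_1086_3).append ((runs_of engOK r_1086_4).append (runs_of engOK r_1086_5)))))) (by decide +kernel) h.1 h.2

def F_1087 : FrX :=
  ⟨0x482000044040440000c2040020009000182040020001100100020281440022000022000081040112000200202020a01808001008800800042210008210,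
    0xa0, 1, 0x4063718793a1, 6,
    [(0xa0, 1), (0x538690a2, 4), (0x548790a1, 4), (0x21437690, 4), (0x538690a2, 4), (0x548790a1, 4)],
    [(0x4063718793a1, 6), (0x10428593, 4), (0x507683a4, 4), (0x30768591, 4), (0x507683a4, 4), (0x305198a2, 4), (0x31427690, 4), (0x30768591, 4), (0x31427690, 4), (0x538091a4, 4), (0x30768591, 4), (0x305198a2, 4)]⟩

def c_1087 : frmChk tA tB F_1087 = true := by decide +kernel

def r_1087_0 : chkL rootF engF2 tA tB sA_253 sB_253 4 F_1087 [(511, 0, 0)]
    0x436074a96a00f03c1d03c0f = true := by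
  decide +kernel

theorem f_1087 (h : TabsF) : FrameF repsF 253 F_1087.f :=
  frame_of rfl c_1087 (runs_of engOK r_1087_0) (by decide +kernel) h.1 h.2

def F_1088 : FrX :=
  ⟨0x2002000900044004000e02041000141000800040800802049008400008110400040081000a084008800802080100200020203100840080804400c0002001,
    0xa3, 1, 0x314253627486a8, 7,
    [(0xa3, 1), (0x208693a5, 4), (0x10548793, 4), (0x217693a4, 4), (0x208693a5, 4), (0x10548793, 4)],
    [(0x314253627486a8, 7), (0x516094a8, 4), (0x307194a2, 4), (0x63758294, 4), (0x516094a8, 4), (0x307194a2, 4)]⟩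

def c_1088 : frmChk tA tA F_1088 = true := by decide +kernel

def r_1088_0 : chkL rootF engF2 tA tA sA_253 sA_253 4 F_1088 [(255, 0, 0), (256, 0, 21)]
    0x16c04d16847d204e0d632455542704d21c170ac66 = true := by
  decide +kernel

def r_1088_1 : chkL rootF engF2 tA tA sA_253 sA_253 4 F_1088 [(256, 21, 0)]
    0x43c0e41b11c550f3505c05507435 = true := by
  decide +kernel

theorem f_1088 (h : TabsF) : FrameF repsF 253 F_1088.f :=
  frame_of rfl c_1088 ((runs_of engOK r_1088_0).append (runs_of engOK r_1088_1)) (by decide +kernel) h.1 h.1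

def F_1089 : FrX :=
  ⟨0x80080a000804040e00002101002001000002040890010008088002030440001041000404008085020108000501002820441000040000400244101008080,
    0xa6, 1, 0x314151608093a0, 7,
    [(0xa6, 1), (0x205396a8, 4), (0x10548796, 4), (0x214396a7, 4), (0x205396a8, 4), (0x10548796, 4)],
    [(0x314151608093a0, 7), (0x608194a2, 4), (0x437681a5, 4), (0x52708193, 4), (0x608194a2, 4), (0x437681a5, 4)]⟩

def c_1089 : frmChk tA tA F_1089 = true := by decide +kernel

def r_1089_0 : chkL rootF engF2 tA tA sA_253 sA_253 4 F_1089 [(511, 0, 0)]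
    0x41d0781d1342b0ac8d = true := by
  decide +kernel

theorem f_1089 (h : TabsF) : FrameF repsF 253 F_1089.f :=
  frame_of rfl c_1089 (runs_of engOK r_1089_0) (by decide +kernel) h.1 h.1

def F_1090 : FrX :=
  ⟨0x482000044040440000c2040020009000182040000902000802020800a00804000880040888002080082021404008120100000206010104001022200008,
    0xa0, 1, 0x21314350637093a0, 8,
    [(0xa0, 1), (0x538690a2, 4), (0x548790a1, 4), (0x21437690, 4), (0x538690a2, 4), (0x548790a1, 4)],
    [(0x21314350637093a0, 8), (0x508294a1, 4), (0x205476a3, 4), (0x42507698, 4), (0x205476a3, 4), (0x31428095, 4), (0x768492a1, 4), (0x42507698, 4), (0x768492a1, 4), (0x405298a3, 4), (0x42507698, 4), (0x31428095, 4)]⟩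

def c_1090 : frmChk tA tB F_1090 = true := by decide +kernel

def r_1090_0 : chkL rootF engF2 tA tB sA_253 sB_253 4 F_1090 [(255, 0, 0), (256, 0, 22)]
    0x47811c2be402e0d616 = true := by
  decide +kernel

def r_1090_1 : chkL rootF engF2 tA tB sA_253 sB_253 4 F_1090 [(256, 22, 0)]
    0x124c1e078270f069a16838ca70 = true := by
  decide +kernel

theorem f_1090 (h : TabsF) : FrameF repsF 253 F_1090.f :=
  frame_of rfl c_1090 ((runs_of engOK r_1090_0).append (runs_of engOK r_1090_1)) (by decide +kernel) h.1 h.2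

def F_1091 : FrX :=
  ⟨0x482000044040440000c2040020009000182040020001100100020280042022400022000081040124200200100908108088010000600200002004010290,
    0xa0, 1, 0x30435361708395a2, 8,
    [(0xa0, 1), (0x538690a2, 4), (0x548790a1, 4), (0x21437690, 4), (0x538690a2, 4), (0x548790a1, 4)],
    [(0x30435361708395a2, 8), (0x508193a7, 4), (0x31427690, 4), (0x10428593, 4), (0x31427690, 4), (0x108395a6, 4), (0x425180a7, 4), (0x10428593, 4), (0x425180a7, 4), (0x30768591, 4), (0x10428593, 4), (0x108395a6, 4)]⟩

def c_1091 : frmChk tA tB F_1091 = true := by decide +kernel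

def r_1091_0 : chkL rootF engF2 tA tB sA_253 sB_253 4 F_1091 [(255, 0, 0), (256, 0, 22)]
    0x10d40f25a1903c0f06c0f2580f03c0f = true := by
  decide +kernel

def r_1091_1 : chkL rootF engF2 tA tB sA_253 sB_253 4 F_1091 [(256, 22, 0)]
    0x10b44703c1d0749c03c8b23a0e03c9c8388e0b80f = true := by
  decide +kernel

theorem f_1091 (h : TabsF) : FrameF repsF 253 F_1091.f :=
  frame_of rfl c_1091 ((runs_of engOK r_1091_0).append (runs_of engOK r_1091_1)) (by decide +kernel) h.1 h.2

def F_1092 : FrX :=
  ⟨0x80080a000804040e00002101002001000002040890010004204010008444001040040410000085000044080509002008084200440000420204100408080,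
    0xa6, 1, 0x304152608097a6, 7,
    [(0xa6, 1), (0x205396a8, 4), (0x10548796, 4), (0x214396a7, 4), (0x205396a8, 4), (0x10548796, 4)],
    [(0x304152608097a6, 7), (0x618592a0, 4), (0x217384a9, 4), (0x607392a1, 4), (0x217384a9, 4), (0x546290a1, 4), (0x107385a6, 4), (0x607392a1, 4), (0x107385a6, 4), (0x608491a2, 4), (0x607392a1, 4), (0x546290a1, 4)]⟩

def c_1092 : frmChk tA tB F_1092 = true := by decide +kernel

def r_1092_0 : chkL rootF engF2 tA tB sA_253 sB_253 4 F_1092 [(255, 0, 0), (256, 0, 11)]
    0x41e03c0f = true := by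
  decide +kernel

def r_1092_1 : chkL rootF engF2 tA tB sA_253 sB_253 4 F_1092 [(256, 11, 15)]
    0x40f18c2e1352a0b82703c66 = true := by
  decide +kernel

def r_1092_2 : chkL rootF engF2 tA tB sA_253 sB_253 4 F_1092 [(256, 26, 0)]
    0x11581e0742e = true := by
  decide +kernel

theorem f_1092 (h : TabsF) : FrameF repsF 253 F_1092.f :=
  frame_of rfl c_1092 ((runs_of engOK r_1092_0).append ((runs_of engOK r_1092_1).append (runs_of engOK r_1092_2))) (by decide +kernel) h.1 h.2

def F_1093 : FrX :=
  ⟨0x2002000900044004000e0204100014100080004080080104101002040100024200008420409010020a000100104050000280000441201000840004214200,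
    0xa3, 1, 0x10405163718498a6, 8,
    [(0xa3, 1), (0x208693a5, 4), (0x10548793, 4), (0x217693a4, 4), (0x208693a5, 4), (0x10548793, 4)],
    [(0x10405163718498a6, 8), (0x314260a9, 4), (0x31748095, 4), (0x317286a5, 4), (0x314260a9, 4), (0x31748095, 4)]⟩

def c_1093 : frmChk tA tA F_1093 = true := by decide +kernel

def r_1093_0 : chkL rootF engF2 tA tA sA_253 sA_253 4 F_1093 [(511, 0, 0)]
    0x41709c4d03c1703e1511c1b5302b894171685a03c1b464c50ac1b09e153281d = true := by
  decide +kernel

theorem f_1093 (h : TabsF) : FrameF repsF 253 F_1093.f :=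
  frame_of rfl c_1093 (runs_of engOK r_1093_0) (by decide +kernel) h.1 h.1

def F_1094 : FrX :=
  ⟨0x80080a000804040e0000210100200100000204088101100100840002048400000412102001014000a002200202040400202080480002800802210840200,
    0xa6, 1, 0x3150648297a6, 6,
    [(0xa6, 1), (0x205396a8, 4), (0x10548796, 4), (0x214396a7, 4), (0x205396a8, 4), (0x10548796, 4)],
    [(0x3150648297a6, 6), (0x107485a2, 4), (0x53607492, 4), (0x617483a9, 4), (0x107485a2, 4), (0x53607492, 4)]⟩

def c_1094 : frmChk tA tA F_1094 = true := by decide +kernel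

def r_1094_0 : chkL rootF engF2 tA tA sA_253 sA_253 4 F_1094 [(511, 0, 0)]
    0x10d4351580f158631345c5501b05c2711c2705e1388c35164784e04d = true := by
  decide +kernel

theorem f_1094 (h : TabsF) : FrameF repsF 253 F_1094.f :=
  frame_of rfl c_1094 (runs_of engOK r_1094_0) (by decide +kernel) h.1 h.1

def F_1095 : FrX :=
  ⟨0x80080a000804040e00002101002001000002040882200002088024000040082c00400080c00010012000240a12002840004001005003000401210008010,
    0xa6, 1, 0x305161748798a1, 7,
    [(0xa6, 1), (0x205396a8, 4), (0x10548796, 4), (0x214396a7, 4), (0x205396a8, 4), (0x10548796, 4)],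
    [(0x305161748798a1, 7), (0x32508197, 4), (0x647185a3, 4), (0x64758190, 4), (0x647185a3, 4), (0x758091a2, 4), (0x32647095, 4), (0x64758190, 4), (0x32647095, 4), (0x518790a3, 4), (0x64758190, 4), (0x758091a2, 4)]⟩

def c_1095 : frmChk tA tB F_1095 = true := by decide +kernel

def r_1095_0 : chkL rootF engF2 tA tB sA_253 sB_253 4 F_1095 [(255, 0, 0), (256, 0, 17)]
    0x42e06c170d43503c6651a349306c8705c4380f = true := by
  decide +kernel

def r_1095_1 : chkL rootF engF2 tA tB sA_253 sB_253 4 F_1095 [(256, 17, 12)]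
    0x11680f03eb012c17270558543603c0f03c8d0f01d21c8d158560f01d0f01d0b82b1704d0b48d = true := by
  decide +kernel

def r_1095_2 : chkL rootF engF2 tA tB sA_253 sB_253 4 F_1095 [(256, 29, 0)]
    0x4a90b81d0d43305e1685a3103c93 = true := by
  decide +kernel

theorem f_1095 (h : TabsF) : FrameF repsF 253 F_1095.f :=
  frame_of rfl c_1095 ((runs_of engOK r_1095_0).append ((runs_of engOK r_1095_1).append (runs_of engOK r_1095_2))) (by decide +kernel) h.1 h.2

def F_1096 : FrX :=
  ⟨0x600020801080810000c0040180410101001004008200002800080804082a02020020004270400008084000102020010400400c00010084000401300201,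
    0xa0, 1, 0x314151738795a3, 7,
    [(0xa0, 1), (0x637584a2, 4), (0x547690a1, 4), (0x64758390, 4), (0x547690a1, 4), (0x21647385, 4), (0x438690a2, 4), (0x64758390, 4), (0x438690a2, 4), (0x657483a1, 4), (0x64758390, 4), (0x21647385, 4)],
    [(0x314151738795a3, 7), (0x203198a6, 4), (0x50748693, 4), (0x637498a1, 4), (0x50748693, 4), (0x526391a8, 4), (0x206174a3, 4), (0x637498a1, 4), (0x206174a3, 4), (0x508396a1, 4), (0x637498a1, 4), (0x526391a8, 4)]⟩

def c_1096 : frmChk tB tB F_1096 = true := by decide +kernel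

def r_1096_0 : chkL rootF engF2 tB tB sB_253 sB_253 4 F_1096 [(255, 0, 0), (256, 0, 23)]
    0x417 = true := by
  decide +kernel

def r_1096_1 : chkL rootF engF2 tB tB sB_253 sB_253 4 F_1096 [(256, 23, 0)]
    0x45309c1d = true := by
  decide +kernel

theorem f_1096 (h : TabsF) : FrameF repsF 253 F_1096.f :=
  frame_of rfl c_1096 ((runs_of engOK r_1096_0).append (runs_of engOK r_1096_1)) (by decide +kernel) h.2 h.2

def F_1097 : FrX :=
  ⟨0x1001040012008080000e00840800410008101000042100004060002100004190048200001080100800041202040000420100200206091088080100200048,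
    0xa3, 1, 0x32415463738398a2, 8,
    [(0xa3, 1), (0x207584a6, 4), (0x10547693, 4), (0x647593a8, 4), (0x10547693, 4), (0x216485a7, 4), (0x208693a4, 4), (0x647593a8, 4), (0x208693a4, 4), (0x106574a8, 4), (0x647593a8, 4), (0x216485a7, 4)],
    [(0x32415463738398a2, 8), (0x738192a0, 4), (0x40517396, 4), (0x627385a4, 4), (0x738192a0, 4), (0x40517396, 4)]⟩

def c_1097 : frmChk tB tA F_1097 = true := by decide +kernel

def r_1097_0 : chkL rootF engF2 tB tA sB_253 sA_253 4 F_1097 [(511, 0, 0)]
    0x106c2d0cc2e1340f720b20cc8e09c2d = true := by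
  decide +kernel

theorem f_1097 (h : TabsF) : FrameF repsF 253 F_1097.f :=
  frame_of rfl c_1097 (runs_of engOK r_1097_0) (by decide +kernel) h.2 h.1

def F_1098 : FrX :=
  ⟨0x1001040012008080000e0084080041000810100004210000110103000100004402410800240120080003200b000010400000800408824020044000a00280,
    0xa3, 1, 0x3240738094a6, 6,
    [(0xa3, 1), (0x207584a6, 4), (0x10547693, 4), (0x647593a8, 4), (0x10547693, 4), (0x216485a7, 4), (0x208693a4, 4), (0x647593a8, 4), (0x208693a4, 4), (0x106574a8, 4), (0x647593a8, 4), (0x216485a7, 4)],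
    [(0x3240738094a6, 6), (0x607583a4, 4), (0x42608195, 4), (0x316097a2, 4), (0x607583a4, 4), (0x42608195, 4)]⟩

def c_1098 : frmChk tB tA F_1098 = true := by decide +kernel

def r_1098_0 : chkL rootF engF2 tB tA sB_253 sA_253 4 F_1098 [(255, 0, 0), (256, 0, 24)]
    0x12341b0d436 = true := by
  decide +kernel

def r_1098_1 : chkL rootF engF2 tB tA sB_253 sA_253 4 F_1098 [(256, 24, 0)]
    0x447 = true := by
  decide +kernel

theorem f_1098 (h : TabsF) : FrameF repsF 253 F_1098.f :=
  frame_of rfl c_1098 ((runs_of engOK r_1098_0).append (runs_of engOK r_1098_1)) (by decide +kernel) h.2 h.1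

def F_1099 : FrX :=
  ⟨0x600020801080810000c0040180410101001004002200042000081840080422020000801020400008410010102020040402260400002804020015000201,
    0xa0, 1, 0x304253638390a3, 7,
    [(0xa0, 1), (0x637584a2, 4), (0x547690a1, 4), (0x64758390, 4), (0x547690a1, 4), (0x21647385, 4), (0x438690a2, 4), (0x64758390, 4), (0x438690a2, 4), (0x657483a1, 4), (0x64758390, 4), (0x21647385, 4)],
    [(0x304253638390a3, 7), (0x627094a5, 4), (0x20758391, 4), (0x527083a6, 4), (0x20758391, 4), (0x415260a7, 4), (0x658394a2, 4), (0x527083a6, 4), (0x658394a2, 4), (0x507291a6, 4), (0x527083a6, 4), (0x415260a7, 4)]⟩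

def c_1099 : frmChk tB tB F_1099 = true := by decide +kernel

def r_1099_0 : chkL rootF engF2 tB tB sB_253 sB_253 4 F_1099 [(255, 0, 0), (256, 0, 25)]
    0x114c4b074870b90e05c17 = true := by
  decide +kernel

def r_1099_1 : chkL rootF engF2 tB tB sB_253 sB_253 4 F_1099 [(256, 25, 0)]
    0x13142b05c5660c360741dc47507410d4345963107e1146c1958c47507410d4345963107e1146c195821c47 = true := by
  decide +kernel

theorem f_1099 (h : TabsF) : FrameF repsF 253 F_1099.f :=
  frame_of rfl c_1099 ((runs_of engOK r_1099_0).append (runs_of engOK r_1099_1)) (by decide +kernel) h.2 h.2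

def F_1100 : FrX :=
  ⟨0x600020801080810000c0040180410101001004001102000400202020801044004408004020200228010400242020020200520200002040004500020042,
    0xa0, 1, 0x405262738192a0, 7,
    [(0xa0, 1), (0x637584a2, 4), (0x547690a1, 4), (0x64758390, 4), (0x547690a1, 4), (0x21647385, 4), (0x438690a2, 4), (0x64758390, 4), (0x438690a2, 4), (0x657483a1, 4), (0x64758390, 4), (0x21647385, 4)],
    [(0x405262738192a0, 7), (0x516472a9, 4), (0x203164a8, 4), (0x53647098, 4), (0x516472a9, 4), (0x203164a8, 4)]⟩

def c_1100 : frmChk tB tA F_1100 = true := by decide +kernel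

def r_1100_0 : chkL rootF engF2 tB tA sB_253 sA_253 4 F_1100 [(255, 0, 0), (256, 0, 23)]
    0x4330e83909c6998662d80330b62314cb2c6311 = true := by
  decide +kernel

def r_1100_1 : chkL rootF engF2 tB tA sB_253 sA_253 4 F_1100 [(256, 23, 0)]
    0x1 = true := by
  decide +kernel

theorem f_1100 (h : TabsF) : FrameF repsF 253 F_1100.f :=
  frame_of rfl c_1100 ((runs_of engOK r_1100_0).append (runs_of engOK r_1100_1)) (by decide +kernel) h.2 h.1

def F_1101 : FrX :=
  ⟨0x1c4044000008081000000840080410000101084060002080000024040280040080013000080806030100608400238000800008808020002108408010080,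
    0x0, 0, 0x21547387, 4,
    [(0x0, 0), (0x20637584, 4), (0x105476a9, 4), (0x647583a9, 4), (0x105476a9, 4), (0x21647385, 4), (0x204386a9, 4), (0x647583a9, 4), (0x204386a9, 4), (0x10657483, 4), (0x647583a9, 4), (0x21647385, 4)],
    [(0x21547387, 4), (0x106374a9, 4), (0x205483a9, 4), (0x217586a9, 4), (0x106374a9, 4), (0x205483a9, 4)]⟩

def c_1101 : frmChk tB tA F_1101 = true := by decide +kernel

def r_1101_0 : chkL rootF engF2 tB tA sB_253 sA_253 4 F_1101 [(255, 0, 0), (256, 0, 9)]
    0x4f0 = true := by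
  decide +kernel

def r_1101_1 : chkL rootF engF2 tB tA sB_253 sA_253 4 F_1101 [(256, 9, 6)]
    0x40f = true := by
  decide +kernel

def r_1101_2 : chkL rootF engF2 tB tA sB_253 sA_253 4 F_1101 [(256, 15, 4)]
    0x47114da20b82e2b0e2 = true := by
  decide +kernel

def r_1101_3 : chkL rootF engF2 tB tA sB_253 sA_253 4 F_1101 [(256, 19, 12)]
    0x1170331708b21c1d = true := by
  decide +kernel

def r_1101_4 : chkL rootF engF2 tB tA sB_253 sA_253 4 F_1101 [(256, 31, 8)]
    0x691857214c760c243985714c446c = true := by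
  decide +kernel

def r_1101_5 : chkL rootF engF2 tB tA sB_253 sA_253 4 F_1101 [(256, 39, 8)]
    0x453 = true := by
  decide +kernel

def r_1101_6 : chkL rootF engF2 tB tA sB_253 sA_253 4 F_1101 [(256, 47, 0)]
    0x1 = true := by
  decide +kernel

theorem f_1101 (h : TabsF) : FrameF repsF 253 F_1101.f :=
  frame_of rfl c_1101 ((runs_of engOK r_1101_0).append ((runs_of engOK r_1101_1).append ((runs_of engOK r_1101_2).append ((runs_of engOK r_1101_3).append ((runs_of engOK r_1101_4).append ((runs_of engOK r_1101_5).append (runs_of engOK r_1101_6))))))) (by decide +kernel) h.2 h.1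

def F_1102 : FrX :=
  ⟨0x600020801080810000c0040180410101001004004024000400044020809000008418004020010208000400a02020020202821801002040404408010002,
    0xa0, 1, 0x4052728694a7, 6,
    [(0xa0, 1), (0x637584a2, 4), (0x547690a1, 4), (0x64758390, 4), (0x547690a1, 4), (0x21647385, 4), (0x438690a2, 4), (0x64758390, 4), (0x438690a2, 4), (0x657483a1, 4), (0x64758390, 4), (0x21647385, 4)],
    [(0x4052728694a7, 6), (0x748396a2, 4), (0x415092a8, 4), (0x506398a2, 4), (0x415092a8, 4), (0x627198a3, 4), (0x50748693, 4), (0x506398a2, 4), (0x50748693, 4), (0x416382a9, 4), (0x506398a2, 4), (0x627198a3, 4)]⟩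

def c_1102 : frmChk tB tB F_1102 = true := by decide +kernel

def r_1102_0 : chkL rootF engF2 tB tB sB_253 sB_253 4 F_1102 [(255, 0, 0), (256, 0, 15)]
    0x4699240f14c5314c5609e49 = true := by
  decide +kernel

def r_1102_1 : chkL rootF engF2 tB tB sB_253 sB_253 4 F_1102 [(256, 15, 16)]
    0x11344d03ca90ac2b = true := by
  decide +kernel

def r_1102_2 : chkL rootF engF2 tB tB sB_253 sB_253 4 F_1102 [(256, 31, 0)]
    0x1 = true := by
  decide +kernel

theorem f_1102 (h : TabsF) : FrameF repsF 253 F_1102.f :=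
  frame_of rfl c_1102 ((runs_of engOK r_1102_0).append ((runs_of engOK r_1102_1).append (runs_of engOK r_1102_2))) (by decide +kernel) h.2 h.2

def F_1103 : FrX :=
  ⟨0x2002000900044004000e020410001410008000408008020800a000140002402202000060410402040a080004802000108081804040600800002004204040,
    0xa3, 1, 0x4153627294a0, 6,
    [(0xa3, 1), (0x208693a5, 4), (0x10548793, 4), (0x217693a4, 4), (0x208693a5, 4), (0x10548793, 4)],
    [(0x4153627294a0, 6), (0x105382a7, 4), (0x108693a4, 4), (0x10627495, 4), (0x105382a7, 4), (0x108693a4, 4)]⟩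

def c_1103 : frmChk tA tA F_1103 = true := by decide +kernel

def r_1103_0 : chkL rootF engF2 tA tA sA_253 sA_253 4 F_1103 [(255, 0, 0), (256, 0, 22)]
    0x10d4351e047 = true := by
  decide +kernel

def r_1103_1 : chkL rootF engF2 tA tA sA_253 sA_253 4 F_1103 [(256, 22, 0)]
    0x40f09c5503d2a0b41d06c39 = true := by
  decide +kernel

theorem f_1103 (h : TabsF) : FrameF repsF 253 F_1103.f :=
  frame_of rfl c_1103 ((runs_of engOK r_1103_0).append (runs_of engOK r_1103_1)) (by decide +kernel) h.1 h.1

def F_1104 : FrX :=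
  ⟨0x2002000900044004000e02041000141000800040808000204401200008209408000042004020010820a0020a010020041000811004008010000888010090,
    0xa3, 1, 0x102042608197a4, 7,
    [(0xa3, 1), (0x208693a5, 4), (0x10548793, 4), (0x217693a4, 4), (0x208693a5, 4), (0x10548793, 4)],
    [(0x102042608197a4, 7), (0x326495a0, 4), (0x718692a5, 4), (0x307195a2, 4), (0x718692a5, 4), (0x508493a2, 4), (0x206471a3, 4), (0x307195a2, 4), (0x206471a3, 4), (0x305286a9, 4), (0x307195a2, 4), (0x508493a2, 4)]⟩

def c_1104 : frmChk tA tB F_1104 = true := by decide +kernel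

def r_1104_0 : chkL rootF engF2 tA tB sA_253 sB_253 4 F_1104 [(255, 0, 0), (256, 0, 15)]
    0x4330b85a03c0f84c2730c1d = true := by
  decide +kernel

def r_1104_1 : chkL rootF engF2 tA tB sA_253 sB_253 4 F_1104 [(256, 15, 14)]
    0x10e4564705303c1703c1b0b82e = true := by
  decide +kernel

def r_1104_2 : chkL rootF engF2 tA tB sA_253 sB_253 4 F_1104 [(256, 29, 12)]
    0x52c8c6a84b03614c331681b = true := by
  decide +kernel

def r_1104_3 : chkL rootF engF2 tA tB sA_253 sB_253 4 F_1104 [(256, 41, 0)]
    0x41703c56 = true := by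
  decide +kernel

theorem f_1104 (h : TabsF) : FrameF repsF 253 F_1104.f :=
  frame_of rfl c_1104 ((runs_of engOK r_1104_0).append ((runs_of engOK r_1104_1).append ((runs_of engOK r_1104_2).append (runs_of engOK r_1104_3)))) (by decide +kernel) h.1 h.2

def F_1105 : FrX :=
  ⟨0x482000044040440000c2040020009000182040020001100100020280014044104080000081040112000200202008108088010000600204001030100290,
    0xa0, 1, 0x304052768297a3, 7,
    [(0xa0, 1), (0x538690a2, 4), (0x548790a1, 4), (0x21437690, 4), (0x538690a2, 4), (0x548790a1, 4)],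
    [(0x304052768297a3, 7), (0x538492a7, 4), (0x32416097, 4), (0x607392a5, 4), (0x32416097, 4), (0x527381a9, 4), (0x607584a3, 4), (0x607392a5, 4), (0x607584a3, 4), (0x417293a5, 4), (0x607392a5, 4), (0x527381a9, 4)]⟩

def c_1105 : frmChk tA tB F_1105 = true := by decide +kernel

def r_1105_0 : chkL rootF engF2 tA tB sA_253 sB_253 4 F_1105 [(255, 0, 0), (256, 0, 23)]
    0x10b41705c1b0d41728c710f03c12cc90ac1b06c4b3242b06c1b44d195502e0b82e = true := by
  decide +kernel

def r_1105_1 : chkL rootF engF2 tA tB sA_253 sB_253 4 F_1105 [(256, 23, 0)]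
    0x10f03a2c82e84f05330e418e62154560ac4703c1728cb20ac2b0aca32c82b0ac2b159d05298a708cc709c403c0f7414a629c2331c27100f03c1b0d40f = true := by
  decide +kernel

theorem f_1105 (h : TabsF) : FrameF repsF 253 F_1105.f :=
  frame_of rfl c_1105 ((runs_of engOK r_1105_0).append (runs_of engOK r_1105_1)) (by decide +kernel) h.1 h.2

theorem cl_253 (h : TabsF) : ∀ f ∈ fr_253, FrameF repsF 253 f :=
  List.forall_mem_cons.2 ⟨f_1078 h, List.forall_mem_cons.2 ⟨f_1079 h, List.forall_mem_cons.2 ⟨f_1080 h, List.forall_mem_cons.2 ⟨f_1081 h, List.forall_mem_cons.2 ⟨f_1082 h, List.forall_mem_cons.2 ⟨f_1083 h, List.forall_mem_cons.2 ⟨f_1084 h, List.forall_mem_cons.2 ⟨f_1085 h, List.forall_mem_cons.2 ⟨f_1086 h, List.forall_mem_cons.2 ⟨f_1087 h, List.forall_mem_cons.2 ⟨f_1088 h, List.forall_mem_cons.2 ⟨f_1089 h, List.forall_mem_cons.2 ⟨f_1090 h, List.forall_mem_cons.2 ⟨f_1091 h, List.forall_mem_cons.2 ⟨f_1092 h, List.forall_mem_cons.2 ⟨f_1093 h, List.forall_mem_cons.2 ⟨f_1094 h, List.forall_mem_cons.2 ⟨f_1095 h, List.forall_mem_cons.2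 ⟨f_1096 h, List.forall_mem_cons.2 ⟨f_1097 h, List.forall_mem_cons.2 ⟨f_1098 h, List.forall_mem_cons.2 ⟨f_1099 h, List.forall_mem_cons.2 ⟨f_1100 h, List.forall_mem_cons.2 ⟨f_1101 h, List.forall_mem_cons.2 ⟨f_1102 h, List.forall_mem_cons.2 ⟨f_1103 h, List.forall_mem_cons.2 ⟨f_1104 h, List.forall_mem_cons.2 ⟨f_1105 h,
    fun _ h0 => absurd h0 List.not_mem_nil⟩⟩⟩⟩⟩⟩⟩⟩⟩⟩⟩⟩⟩⟩⟩⟩⟩⟩⟩⟩⟩⟩⟩⟩⟩⟩⟩⟩

def F_1106 : FrX :=
  ⟨0x2002000900044004000e02041000141000800040800800418100c00400821000100100104024000412058000000410100000804840440010244004214000,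
    0xa3, 1, 0x203161728293a3, 7,
    [(0xa3, 1), (0x208693a5, 4), (0x10548793, 4), (0x217693a4, 4), (0x208693a5, 4), (0x10548793, 4)],
    [(0x203161728293a3, 7), (0x738291a5, 4), (0x54627091, 4), (0x308691a4, 4), (0x738291a5, 4), (0x54627091, 4)]⟩

def c_1106 : frmChk tA tA F_1106 = true := by decide +kernel

def r_1106_0 : chkL rootF engF2 tA tA sA_254 sA_254 4 F_1106 [(255, 0, 0), (256, 0, 20)]
    0x105c0f2981b = true := by
  decide +kernel

def r_1106_1 : chkL rootF engF2 tA tA sA_254 sA_254 4 F_1106 [(256, 20, 21)]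
    0x10d88d0cc3309c1b = true := by
  decide +kernel

def r_1106_2 : chkL rootF engF2 tA tA sA_254 sA_254 4 F_1106 [(256, 41, 0)]
    0x1 = true := by
  decide +kernel

theorem f_1106 (h : TabsF) : FrameF repsF 254 F_1106.f :=
  frame_of rfl c_1106 ((runs_of engOK r_1106_0).append ((runs_of engOK r_1106_1).append (runs_of engOK r_1106_2))) (by decide +kernel) h.1 h.1

def F_1107 : FrX :=
  ⟨0x482000044040440000c2040020009000182040008021002000a08010014004004400101020081008000011102008800040000148080081014145010002,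
    0xa0, 1, 0x10213052648192a1, 8,
    [(0xa0, 1), (0x538690a2, 4), (0x548790a1, 4), (0x21437690, 4), (0x538690a2, 4), (0x548790a1, 4)],
    [(0x10213052648192a1, 8), (0x10428593, 4), (0x607285a3, 4), (0x617485a9, 4), (0x10428593, 4), (0x607285a3, 4)]⟩

def c_1107 : frmChk tA tA F_1107 = true := by decide +kernel

def r_1107_0 : chkL rootF engF2 tA tA sA_254 sA_254 4 F_1107 [(255, 0, 0), (256, 0, 19)]
    0x1 = true := by
  decide +kernel

def r_1107_1 : chkL rootF engF2 tA tA sA_254 sA_254 4 F_1107 [(256, 19, 22)]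
    0x1 = true := by
  decide +kernel

def r_1107_2 : chkL rootF engF2 tA tA sA_254 sA_254 4 F_1107 [(256, 41, 0)]
    0x1 = true := by
  decide +kernel

theorem f_1107 (h : TabsF) : FrameF repsF 254 F_1107.f :=
  frame_of rfl c_1107 ((runs_of engOK r_1107_0).append ((runs_of engOK r_1107_1).append (runs_of engOK r_1107_2))) (by decide +kernel) h.1 h.1

def F_1108 : FrX :=
  ⟨0x482000044040440000c204002000900018204001008144000080028004009000801200100490012000040088020880001400100044800008a041210400,
    0xa0, 1, 0x3243506580a5, 6,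
    [(0xa0, 1), (0x538690a2, 4), (0x548790a1, 4), (0x21437690, 4), (0x538690a2, 4), (0x548790a1, 4)],
    [(0x3243506580a5, 6), (0x508396a4, 4), (0x758196a2, 4), (0x31427096, 4), (0x508396a4, 4), (0x758196a2, 4)]⟩

def c_1108 : frmChk tA tA F_1108 = true := by decide +kernel

def r_1108_0 : chkL rootF engF2 tA tA sA_254 sA_254 4 F_1108 [(511, 0, 0)]
    0x40f05c3c078b40781ea0ec81aa1a9300f03c3c2a817894aa0d817 = true := by
  decide +kernel

theorem f_1108 (h : TabsF) : FrameF repsF 254 F_1108.f :=
  frame_of rfl c_1108 (runs_of engOK r_1108_0) (by decide +kernel) h.1 h.1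

def F_1109 : FrX :=
  ⟨0x80080a000804040e00002101002001000002040880600002808088000020202020408050100010002030000122001002028010005002911084042200000,
    0xa6, 1, 0x3140648691a2, 6,
    [(0xa6, 1), (0x205396a8, 4), (0x10548796, 4), (0x214396a7, 4), (0x205396a8, 4), (0x10548796, 4)],
    [(0x3140648691a2, 6), (0x325180a4, 4), (0x32657094, 4), (0x326187a9, 4), (0x325180a4, 4), (0x32657094, 4)]⟩

def c_1109 : frmChk tA tA F_1109 = true := by decide +kernel

def r_1109_0 : chkL rootF engF2 tA tA sA_254 sA_254 4 F_1109 [(255, 0, 0), (256, 0, 23)]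
    0x4350788d06c7812c9611c36 = true := by
  decide +kernel

def r_1109_1 : chkL rootF engF2 tA tA sA_254 sA_254 4 F_1109 [(256, 23, 0)]
    0x111c59324961385a0e88d = true := by
  decide +kernel

theorem f_1109 (h : TabsF) : FrameF repsF 254 F_1109.f :=
  frame_of rfl c_1109 ((runs_of engOK r_1109_0).append (runs_of engOK r_1109_1)) (by decide +kernel) h.1 h.1

def F_1110 : FrX :=
  ⟨0x1c21020000040440000020410001010000820408a0004008000081200800880005100100024040412050040080610101080004080440014280004600000,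
    0x0, 0, 0x43637586, 4,
    [(0x0, 0), (0x205386a9, 4), (0x105487a9, 4), (0x214376a9, 4), (0x205386a9, 4), (0x105487a9, 4)],
    [(0x43637586, 4), (0x207684a9, 4), (0x105473a9, 4), (0x216385a9, 4), (0x207684a9, 4), (0x105473a9, 4)]⟩

def c_1110 : frmChk tA tA F_1110 = true := by decide +kernel

def r_1110_0 : chkL rootF engF2 tA tA sA_254 sA_254 4 F_1110 [(255, 0, 0), (256, 0, 3)]
    0x49c = true := by
  decide +kernel

def r_1110_1 : chkL rootF engF2 tA tA sA_254 sA_254 4 F_1110 [(256, 3, 2)]
    0x1 = true := by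
  decide +kernel

def r_1110_2 : chkL rootF engF2 tA tA sA_254 sA_254 4 F_1110 [(256, 5, 6)]
    0x106c0f = true := by
  decide +kernel

def r_1110_3 : chkL rootF engF2 tA tA sA_254 sA_254 4 F_1110 [(256, 11, 5)]
    0x4b4 = true := by
  decide +kernel

def r_1110_4 : chkL rootF engF2 tA tA sA_254 sA_254 4 F_1110 [(256, 16, 2)]
    0x1 = true := by
  decide +kernel

def r_1110_5 : chkL rootF engF2 tA tA sA_254 sA_254 4 F_1110 [(256, 18, 3)]
    0x466 = true := by
  decide +kernel

def r_1110_6 : chkL rootF engF2 tA tA sA_254 sA_254 4 F_1110 [(256, 21, 3)]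
    0x466 = true := by
  decide +kernel

def r_1110_7 : chkL rootF engF2 tA tA sA_254 sA_254 4 F_1110 [(256, 24, 3)]
    0x134871 = true := by
  decide +kernel

def r_1110_8 : chkL rootF engF2 tA tA sA_254 sA_254 4 F_1110 [(256, 27, 3)]
    0x1 = true := by
  decide +kernel

def r_1110_9 : chkL rootF engF2 tA tA sA_254 sA_254 4 F_1110 [(256, 30, 1)]
    0x1 = true := by
  decide +kernel

def r_1110_10 : chkL rootF engF2 tA tA sA_254 sA_254 4 F_1110 [(256, 31, 1)]
    0x1 = true := by
  decide +kernel

def r_1110_11 : chkL rootF engF2 tA tA sA_254 sA_254 4 F_1110 [(256, 32, 1)]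
    0x1 = true := by
  decide +kernel

def r_1110_12 : chkL rootF engF2 tA tA sA_254 sA_254 4 F_1110 [(256, 33, 1)]
    0x1 = true := by
  decide +kernel

def r_1110_13 : chkL rootF engF2 tA tA sA_254 sA_254 4 F_1110 [(256, 34, 1)]
    0x4f0 = true := by
  decide +kernel

def r_1110_14 : chkL rootF engF2 tA tA sA_254 sA_254 4 F_1110 [(256, 35, 4)]
    0x1 = true := by
  decide +kernel

def r_1110_15 : chkL rootF engF2 tA tA sA_254 sA_254 4 F_1110 [(256, 39, 0)]
    0x1 = true := by
  decide +kernel

theorem f_1110 (h : TabsF) : FrameF repsF 254 F_1110.f :=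
  frame_of rfl c_1110 ((runs_of engOK r_1110_0).append ((runs_of engOK r_1110_1).append ((runs_of engOK r_1110_2).append ((runs_of engOK r_1110_3).append ((runs_of engOK r_1110_4).append ((runs_of engOK r_1110_5).append ((runs_of engOK r_1110_6).append ((runs_of engOK r_1110_7).append ((runs_of engOK r_1110_8).append ((runs_of engOK r_1110_9).append ((runs_of engOK r_1110_10).append ((runs_of engOK r_1110_11).append ((runs_of engOK r_1110_12).append ((runs_of engOK r_1110_13).append ((runs_of engOK r_1110_14).append (runs_of engOK r_1110_15)))))))))))))))) (by decide +kernel) h.1 h.1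

def F_1111 : FrX :=
  ⟨0x80080a000804040e00002101002001000002040880424100408088000810000004023020004040012040800080600101012004080402214280220020000,
    0xa6, 1, 0x104152607587a2, 7,
    [(0xa6, 1), (0x205396a8, 4), (0x10548796, 4), (0x214396a7, 4), (0x205396a8, 4), (0x10548796, 4)],
    [(0x104152607587a2, 7), (0x203187a6, 4), (0x64708195, 4), (0x10328795, 4), (0x64708195, 4), (0x107283a4, 4), (0x213095a6, 4), (0x10328795, 4), (0x213095a6, 4), (0x32647180, 4), (0x10328795, 4), (0x107283a4, 4)]⟩

def c_1111 : frmChk tA tB F_1111 = true := by decide +kernel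

def r_1111_0 : chkL rootF engF2 tA tB sA_254 sB_254 4 F_1111 [(255, 0, 0), (256, 0, 22)]
    0x44e1384e1389c06c2b = true := by
  decide +kernel

def r_1111_1 : chkL rootF engF2 tA tB sA_254 sB_254 4 F_1111 [(256, 22, 0)]
    0x18988d07a1a1941d1946c0b82ea489924e92 = true := by
  decide +kernel

theorem f_1111 (h : TabsF) : FrameF repsF 254 F_1111.f :=
  frame_of rfl c_1111 ((runs_of engOK r_1111_0).append (runs_of engOK r_1111_1)) (by decide +kernel) h.1 h.2

def F_1112 : FrX :=
  ⟨0x2002000900044004000e02041000141000800040801000228020001200040884440000101101001040040011000400801041001080480800300144011010,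
    0xa3, 1, 0x4051768397a2, 6,
    [(0xa3, 1), (0x208693a5, 4), (0x10548793, 4), (0x217693a4, 4), (0x208693a5, 4), (0x10548793, 4)],
    [(0x4051768397a2, 6), (0x308791a4, 4), (0x10546297, 4), (0x62708391, 4), (0x10546297, 4), (0x317098a5, 4), (0x627380a4, 4), (0x62708391, 4), (0x627380a4, 4), (0x54718390, 4), (0x62708391, 4), (0x317098a5, 4)]⟩

def c_1112 : frmChk tA tB F_1112 = true := by decide +kernel

def r_1112_0 : chkL rootF engF2 tA tB sA_254 sB_254 4 F_1112 [(255, 0, 0), (256, 0, 20)]
    0x41b06c1b03d4a15427 = true := by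
  decide +kernel

def r_1112_1 : chkL rootF engF2 tA tB sA_254 sB_254 4 F_1112 [(256, 20, 0)]
    0x47103c0f05c4e09c330b80f = true := by
  decide +kernel

theorem f_1112 (h : TabsF) : FrameF repsF 254 F_1112.f :=
  frame_of rfl c_1112 ((runs_of engOK r_1112_0).append (runs_of engOK r_1112_1)) (by decide +kernel) h.1 h.2

def F_1113 : FrX :=
  ⟨0x80080a000804040e000021010020010000020408804810001044004004100000049220014000290208000012140018000e8000006000801100880220000,
    0xa6, 1, 0x304164728495a6, 7,
    [(0xa6, 1), (0x205396a8, 4), (0x10548796, 4), (0x214396a7, 4), (0x205396a8, 4), (0x10548796, 4)],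
    [(0x304164728495a6, 7), (0x517390a6, 4), (0x43516298, 4), (0x517480a2, 4), (0x517390a6, 4), (0x43516298, 4)]⟩

def c_1113 : frmChk tA tA F_1113 = true := by decide +kernel

def r_1113_0 : chkL rootF engF2 tA tA sA_254 sA_254 4 F_1113 [(255, 0, 0), (256, 0, 23)]
    0x44e2947411d26 = true := by
  decide +kernel

def r_1113_1 : chkL rootF engF2 tA tA sA_254 sA_254 4 F_1113 [(256, 23, 0)]
    0x1c924c = true := by
  decide +kernel

theorem f_1113 (h : TabsF) : FrameF repsF 254 F_1113.f :=
  frame_of rfl c_1113 ((runs_of engOK r_1113_0).append (runs_of engOK r_1113_1)) (by decide +kernel) h.1 h.1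

def F_1114 : FrX :=
  ⟨0x482000044040440000c2040020009000182040013080020000800200040084804400101001001020800031204008800014000b22040100101120000002,
    0xa0, 1, 0x21306287a7, 5,
    [(0xa0, 1), (0x538690a2, 4), (0x548790a1, 4), (0x21437690, 4), (0x538690a2, 4), (0x548790a1, 4)],
    [(0x21306287a7, 5), (0x50637198, 4), (0x325498a7, 4), (0x406298a1, 4), (0x50637198, 4), (0x325498a7, 4)]⟩

def c_1114 : frmChk tA tA F_1114 = true := by decide +kernel

def r_1114_0 : chkL rootF engF2 tA tA sA_254 sA_254 4 F_1114 [(255, 0, 0), (256, 0, 21)]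
    0x4aa12da87802e0b44b12c0f = true := by
  decide +kernel

def r_1114_1 : chkL rootF engF2 tA tA sA_254 sA_254 4 F_1114 [(256, 21, 0)]
    0x41e14d16 = true := by
  decide +kernel

theorem f_1114 (h : TabsF) : FrameF repsF 254 F_1114.f :=
  frame_of rfl c_1114 ((runs_of engOK r_1114_0).append (runs_of engOK r_1114_1)) (by decide +kernel) h.1 h.1

def F_1115 : FrX :=
  ⟨0x482000044040440000c2040020009000182040002080440000a00010010410808080401081001046800020800208800010002148080080001820200408,
    0xa0, 1, 0x304352658193a5, 7,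
    [(0xa0, 1), (0x538690a2, 4), (0x548790a1, 4), (0x21437690, 4), (0x538690a2, 4), (0x548790a1, 4)],
    [(0x304352658193a5, 7), (0x215364a9, 4), (0x647183a0, 4), (0x64728590, 4), (0x215364a9, 4), (0x647183a0, 4)]⟩

def c_1115 : frmChk tA tA F_1115 = true := by decide +kernel

def r_1115_0 : chkL rootF engF2 tA tA sA_254 sA_254 4 F_1115 [(255, 0, 0), (256, 0, 20)]
    0x45307817 = true := by
  decide +kernel

def r_1115_1 : chkL rootF engF2 tA tA sA_254 sA_254 4 F_1115 [(256, 20, 0)]
    0x1314171541e = true := by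
  decide +kernel

theorem f_1115 (h : TabsF) : FrameF repsF 254 F_1115.f :=
  frame_of rfl c_1115 ((runs_of engOK r_1115_0).append (runs_of engOK r_1115_1)) (by decide +kernel) h.1 h.1

def F_1116 : FrX :=
  ⟨0x80080a000804040e00002101002001000002040880411004008088000820002020404050416801000040000080601002001040011000224240125000000,
    0xa6, 1, 0x10405360728390a5, 8,
    [(0xa6, 1), (0x205396a8, 4), (0x10548796, 4), (0x214396a7, 4), (0x205396a8, 4), (0x10548796, 4)],
    [(0x10405360728390a5, 8), (0x546397a8, 4), (0x526390a1, 4), (0x42637081, 4), (0x546397a8, 4), (0x526390a1, 4)]⟩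

def c_1116 : frmChk tA tA F_1116 = true := by decide +kernel

def r_1116_0 : chkL rootF engF2 tA tA sA_254 sA_254 4 F_1116 [(511, 0, 0)]
    0x41b11c2e12c87aa04e = true := by
  decide +kernel

theorem f_1116 (h : TabsF) : FrameF repsF 254 F_1116.f :=
  frame_of rfl c_1116 (runs_of engOK r_1116_0) (by decide +kernel) h.1 h.1

def F_1117 : FrX :=
  ⟨0x482000044040440000c2040020009000182040001012108004020200020808010010101101000410800060201020008004011080410089014104000004,
    0xa0, 1, 0x2130425162a6, 6,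
    [(0xa0, 1), (0x538690a2, 4), (0x548790a1, 4), (0x21437690, 4), (0x538690a2, 4), (0x548790a1, 4)],
    [(0x2130425162a6, 6), (0x637281a0, 4), (0x215394a7, 4), (0x728094a1, 4), (0x215394a7, 4), (0x657082a1, 4), (0x106394a8, 4), (0x728094a1, 4), (0x106394a8, 4), (0x537180a2, 4), (0x728094a1, 4), (0x657082a1, 4)]⟩

def c_1117 : frmChk tA tB F_1117 = true := by decide +kernel

def r_1117_0 : chkL rootF engF2 tA tB sA_254 sB_254 4 F_1117 [(255, 0, 0), (256, 0, 20)]
    0x42da180f05c1705c5609c1e = true := by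
  decide +kernel

def r_1117_1 : chkL rootF engF2 tA tB sA_254 sB_254 4 F_1117 [(256, 20, 0)]
    0x105d9256328264172348d0781e = true := by
  decide +kernel

theorem f_1117 (h : TabsF) : FrameF repsF 254 F_1117.f :=
  frame_of rfl c_1117 ((runs_of engOK r_1117_0).append (runs_of engOK r_1117_1)) (by decide +kernel) h.1 h.2

def F_1118 : FrX :=
  ⟨0x2002000900044004000e0204100014100080004080040104202000881000a202100000101028009024800011010000801084003004041000000904011010,
    0xa3, 1, 0x103042516498a0, 7,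
    [(0xa3, 1), (0x208693a5, 4), (0x10548793, 4), (0x217693a4, 4), (0x208693a5, 4), (0x10548793, 4)],
    [(0x103042516498a0, 7), (0x217096a4, 4), (0x607283a5, 4), (0x62708391, 4), (0x607283a5, 4), (0x54627190, 4), (0x618392a4, 4), (0x62708391, 4), (0x618392a4, 4), (0x207691a5, 4), (0x62708391, 4), (0x54627190, 4)]⟩

def c_1118 : frmChk tA tB F_1118 = true := by decide +kernel

def r_1118_0 : chkL rootF engF2 tA tB sA_254 sB_254 4 F_1118 [(255, 0, 0), (256, 0, 23)]
    0x10d82e2a6a80f05622c5a1688da308da3125497240d836a4b031b292c0c6c = true := by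
  decide +kernel

def r_1118_1 : chkL rootF engF2 tA tB sA_254 sB_254 4 F_1118 [(256, 23, 0)]
    0x1 = true := by
  decide +kernel

theorem f_1118 (h : TabsF) : FrameF repsF 254 F_1118.f :=
  frame_of rfl c_1118 ((runs_of engOK r_1118_0).append (runs_of engOK r_1118_1)) (by decide +kernel) h.1 h.2

def F_1119 : FrX :=
  ⟨0x2002000900044004000e02041000141000800040801000418001030001020108000800a009020010400800090004104000400000e0441042210080210080,
    0xa3, 1, 0x20324250758298a0, 8,
    [(0xa3, 1), (0x208693a5, 4), (0x10548793, 4), (0x217693a4, 4), (0x208693a5, 4), (0x10548793, 4)],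
    [(0x20324250758298a0, 8), (0x547096a8, 4), (0x547392a1, 4), (0x30546281, 4), (0x547096a8, 4), (0x547392a1, 4)]⟩

def c_1119 : frmChk tA tA F_1119 = true := by decide +kernel

def r_1119_0 : chkL rootF engF2 tA tA sA_254 sA_254 4 F_1119 [(255, 0, 0), (256, 0, 22)]
    0x10d4350e41b = true := by
  decide +kernel

def r_1119_1 : chkL rootF engF2 tA tA sA_254 sA_254 4 F_1119 [(256, 22, 0)]
    0x41709d51 = true := by
  decide +kernel

theorem f_1119 (h : TabsF) : FrameF repsF 254 F_1119.f :=
  frame_of rfl c_1119 ((runs_of engOK r_1119_0).append (runs_of engOK r_1119_1)) (by decide +kernel) h.1 h.1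

def F_1120 : FrX :=
  ⟨0x1c21020000040440000020410001010000820408a00040080000242008020200105001004000e028004c100011008108004020000490001004104014004,
    0x0, 0, 0x216574, 3,
    [(0x0, 0), (0x205386a9, 4), (0x105487a9, 4), (0x214376a9, 4), (0x205386a9, 4), (0x105487a9, 4)],
    [(0x216574, 3), (0x106385a9, 4), (0x207684a9, 4), (0x215473a9, 4), (0x106385a9, 4), (0x207684a9, 4)]⟩

def c_1120 : frmChk tA tA F_1120 = true := by decide +kernel

def r_1120_0 : chkL rootF engF2 tA tA sA_254 sA_254 4 F_1120 [(255, 0, 0), (256, 0, 11)]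
    0x6380cc2b4383a0ace82a83a0781e548331583a159892685622c561d0b8 = true := by
  decide +kernel

def r_1120_1 : chkL rootF engF2 tA tA sA_254 sA_254 4 F_1120 [(256, 11, 12)]
    0x10e83a = true := by
  decide +kernel

def r_1120_2 : chkL rootF engF2 tA tA sA_254 sA_254 4 F_1120 [(256, 23, 3)]
    0x42b03c350cc33 = true := by
  decide +kernel

def r_1120_3 : chkL rootF engF2 tA tA sA_254 sA_254 4 F_1120 [(256, 26, 6)]
    0x10e4390e439 = true := by
  decide +kernel

def r_1120_4 : chkL rootF engF2 tA tA sA_254 sA_254 4 F_1120 [(256, 32, 4)]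
    0x40f0ac0f = true := by
  decide +kernel

def r_1120_5 : chkL rootF engF2 tA tA sA_254 sA_254 4 F_1120 [(256, 36, 0)]
    0x10781d0782b = true := by
  decide +kernel

theorem f_1120 (h : TabsF) : FrameF repsF 254 F_1120.f :=
  frame_of rfl c_1120 ((runs_of engOK r_1120_0).append ((runs_of engOK r_1120_1).append ((runs_of engOK r_1120_2).append ((runs_of engOK r_1120_3).append ((runs_of engOK r_1120_4).append (runs_of engOK r_1120_5)))))) (by decide +kernel) h.1 h.1

def F_1121 : FrX :=
  ⟨0x482000044040440000c2040020009000182040000900808008020080000190040120400904000202000100880208100084004040482040003002704000,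
    0xa0, 1, 0x205062758398a1, 7,
    [(0xa0, 1), (0x538690a2, 4), (0x548790a1, 4), (0x21437690, 4), (0x538690a2, 4), (0x548790a1, 4)],
    [(0x205062758398a1, 7), (0x31658790, 4), (0x317492a5, 4), (0x203184a6, 4), (0x31658790, 4), (0x317492a5, 4)]⟩

def c_1121 : frmChk tA tA F_1121 = true := by decide +kernel

def r_1121_0 : chkL rootF engF2 tA tA sA_254 sA_254 4 F_1121 [(255, 0, 0), (256, 0, 25)]
    0x40f0782d = true := by
  decide +kernel

def r_1121_1 : chkL rootF engF2 tA tA sA_254 sA_254 4 F_1121 [(256, 25, 0)]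
    0x42d0742b = true := by
  decide +kernel

theorem f_1121 (h : TabsF) : FrameF repsF 254 F_1121.f :=
  frame_of rfl c_1121 ((runs_of engOK r_1121_0).append (runs_of engOK r_1121_1)) (by decide +kernel) h.1 h.1

def F_1122 : FrX :=
  ⟨0x80080a000804040e00002101002001000002040890040007008004020410001042000040808010824210000010110802020080084000081014040602400,
    0xa6, 1, 0x43536574a6, 5,
    [(0xa6, 1), (0x205396a8, 4), (0x10548796, 4), (0x214396a7, 4), (0x205396a8, 4), (0x10548796, 4)],
    [(0x43536574a6, 5), (0x206387a5, 4), (0x107694a3, 4), (0x638594a7, 4), (0x107694a3, 4), (0x215386a7, 4), (0x207594a8, 4), (0x638594a7, 4), (0x207594a8, 4), (0x107385a6, 4), (0x638594a7, 4), (0x215386a7, 4)]⟩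

def c_1122 : frmChk tA tB F_1122 = true := by decide +kernel

def r_1122_0 : chkL rootF engF2 tA tB sA_254 sB_254 4 F_1122 [(255, 0, 0), (256, 0, 19)]
    0x41705d15b41541c43c1540f0784e0781e0781d = true := by
  decide +kernel

def r_1122_1 : chkL rootF engF2 tA tB sA_254 sB_254 4 F_1122 [(256, 19, 0)]
    0x105c5506c1e06c1b = true := by
  decide +kernel

theorem f_1122 (h : TabsF) : FrameF repsF 254 F_1122.f :=
  frame_of rfl c_1122 ((runs_of engOK r_1122_0).append (runs_of engOK r_1122_1)) (by decide +kernel) h.1 h.2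

def F_1123 : FrX :=
  ⟨0x482000044040440000c2040020009000182040004100400804200208000884022010008090140130000800081020000290000480008840002100008504,
    0xa0, 1, 0x5060768292a4, 6,
    [(0xa0, 1), (0x538690a2, 4), (0x548790a1, 4), (0x21437690, 4), (0x538690a2, 4), (0x548790a1, 4)],
    [(0x5060768292a4, 6), (0x507396a2, 4), (0x617584a0, 4), (0x325084a7, 4), (0x617584a0, 4), (0x205391a7, 4), (0x728496a3, 4), (0x325084a7, 4), (0x728496a3, 4), (0x326170a5, 4), (0x325084a7, 4), (0x205391a7, 4)]⟩

def c_1123 : frmChk tA tB F_1123 = true := by decide +kernel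

def r_1123_0 : chkL rootF engF2 tA tB sA_254 sB_254 4 F_1123 [(255, 0, 0), (256, 0, 15)]
    0x105c33 = true := by
  decide +kernel

def r_1123_1 : chkL rootF engF2 tA tB sA_254 sB_254 4 F_1123 [(256, 15, 14)]
    0x130c0f30c0f30c4e = true := by
  decide +kernel

def r_1123_2 : chkL rootF engF2 tA tB sA_254 sB_254 4 F_1123 [(256, 29, 0)]
    0x47805cc3a445c = true := by
  decide +kernel

theorem f_1123 (h : TabsF) : FrameF repsF 254 F_1123.f :=
  frame_of rfl c_1123 ((runs_of engOK r_1123_0).append ((runs_of engOK r_1123_1).append (runs_of engOK r_1123_2))) (by decide +kernel) h.1 h.2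

def F_1124 : FrX :=
  ⟨0x80080a000804040e00002101002001000002040890040001108004020410008005024000802c01020208000810102400100080006000408100870600000,
    0xa6, 1, 0x20405363738194a6, 8,
    [(0xa6, 1), (0x205396a8, 4), (0x10548796, 4), (0x214396a7, 4), (0x205396a8, 4), (0x10548796, 4)],
    [(0x20405363738194a6, 8), (0x405273a1, 4), (0x52618493, 4), (0x528097a6, 4), (0x405273a1, 4), (0x52618493, 4)]⟩

def c_1124 : frmChk tA tA F_1124 = true := by decide +kernel

def r_1124_0 : chkL rootF engF2 tA tA sA_254 sA_254 4 F_1124 [(255, 0, 0), (256, 0, 19)]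
    0x47803c0f170551344d = true := by
  decide +kernel

def r_1124_1 : chkL rootF engF2 tA tA sA_254 sA_254 4 F_1124 [(256, 19, 0)]
    0x4780b41d = true := by
  decide +kernel

theorem f_1124 (h : TabsF) : FrameF repsF 254 F_1124.f :=
  frame_of rfl c_1124 ((runs_of engOK r_1124_0).append (runs_of engOK r_1124_1)) (by decide +kernel) h.1 h.1

def F_1125 : FrX :=
  ⟨0x80080a000804040e00002101002001000002040890010008088004020440010140011000808011020008001380420002004048021040408100804840000,
    0xa6, 1, 0x204351607493a0, 7,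
    [(0xa6, 1), (0x205396a8, 4), (0x10548796, 4), (0x214396a7, 4), (0x205396a8, 4), (0x10548796, 4)],
    [(0x204351607493a0, 7), (0x648291a0, 4), (0x647183a5, 4), (0x32506497, 4), (0x648291a0, 4), (0x647183a5, 4)]⟩

def c_1125 : frmChk tA tA F_1125 = true := by decide +kernel

def r_1125_0 : chkL rootF engF2 tA tA sA_254 sA_254 4 F_1125 [(255, 0, 0), (256, 0, 19)]
    0x105c8d = true := by
  decide +kernel

def r_1125_1 : chkL rootF engF2 tA tA sA_254 sA_254 4 F_1125 [(256, 19, 0)]
    0x1 = true := by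
  decide +kernel

theorem f_1125 (h : TabsF) : FrameF repsF 254 F_1125.f :=
  frame_of rfl c_1125 ((runs_of engOK r_1125_0).append (runs_of engOK r_1125_1)) (by decide +kernel) h.1 h.1

def F_1126 : FrX :=
  ⟨0x482000044040440000c204002000900018204000401108080402001008004420001200808104012001200000302000020800a00800880204401000840c,
    0xa0, 1, 0x102152607593a3, 7,
    [(0xa0, 1), (0x538690a2, 4), (0x548790a1, 4), (0x21437690, 4), (0x538690a2, 4), (0x548790a1, 4)],
    [(0x102152607593a3, 7), (0x657084a1, 4), (0x10627493, 4), (0x417093a8, 4), (0x10627493, 4), (0x415287a0, 4), (0x658193a4, 4), (0x417093a8, 4), (0x658193a4, 4), (0x406271a8, 4), (0x417093a8, 4), (0x415287a0, 4)]⟩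

def c_1126 : frmChk tA tB F_1126 = true := by decide +kernel

def r_1126_0 : chkL rootF engF2 tA tB sA_254 sB_254 4 F_1126 [(255, 0, 0), (256, 0, 23)]
    0x10e6191642d1641e1c417 = true := by
  decide +kernel

def r_1126_1 : chkL rootF engF2 tA tB sA_254 sB_254 4 F_1126 [(256, 23, 0)]
    0x66105c6a1702d0b41d25817 = true := by
  decide +kernel

theorem f_1126 (h : TabsF) : FrameF repsF 254 F_1126.f :=
  frame_of rfl c_1126 ((runs_of engOK r_1126_0).append (runs_of engOK r_1126_1)) (by decide +kernel) h.1 h.2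

def F_1127 : FrX :=
  ⟨0x482000044040440000c2040020009000182040000822108008020080010108010020400888000280000021c00208100100000230882002100802900080,
    0xa0, 1, 0x3150627586a4, 6,
    [(0xa0, 1), (0x538690a2, 4), (0x548790a1, 4), (0x21437690, 4), (0x538690a2, 4), (0x548790a1, 4)],
    [(0x3150627586a4, 6), (0x657081a2, 4), (0x538094a7, 4), (0x217094a8, 4), (0x538094a7, 4), (0x106372a8, 4), (0x658294a1, 4), (0x217094a8, 4), (0x658294a1, 4), (0x215387a0, 4), (0x217094a8, 4), (0x106372a8, 4)]⟩

def c_1127 : frmChk tA tB F_1127 = true := by decide +kernel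

def r_1127_0 : chkL rootF engF2 tA tB sA_254 sB_254 4 F_1127 [(255, 0, 0), (256, 0, 21)]
    0x10e91a0742b4691a = true := by
  decide +kernel

def r_1127_1 : chkL rootF engF2 tA tB sA_254 sB_254 4 F_1127 [(256, 21, 0)]
    0x5862381b05c1705c1703c1722cc30741d0743a05c1d0cc3c05c72 = true := by
  decide +kernel

theorem f_1127 (h : TabsF) : FrameF repsF 254 F_1127.f :=
  frame_of rfl c_1127 ((runs_of engOK r_1127_0).append (runs_of engOK r_1127_1)) (by decide +kernel) h.1 h.2

def F_1128 : FrX :=
  ⟨0x482000044040440000c2040020009000182040000900808004200008000882020a10008110500130000200080220000250001090008840002400008404,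
    0xa0, 1, 0x425461748596a7, 7,
    [(0xa0, 1), (0x538690a2, 4), (0x548790a1, 4), (0x21437690, 4), (0x538690a2, 4), (0x548790a1, 4)],
    [(0x425461748596a7, 7), (0x40518392, 4), (0x516087a2, 4), (0x516473a9, 4), (0x40518392, 4), (0x516087a2, 4)]⟩

def c_1128 : frmChk tA tA F_1128 = true := by decide +kernel

def r_1128_0 : chkL rootF engF2 tA tA sA_254 sA_254 4 F_1128 [(255, 0, 0), (256, 0, 19)]
    0x564c251503c0f = true := by
  decide +kernel

def r_1128_1 : chkL rootF engF2 tA tA sA_254 sA_254 4 F_1128 [(256, 19, 0)]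
    0x10e40f = true := by
  decide +kernel

theorem f_1128 (h : TabsF) : FrameF repsF 254 F_1128.f :=
  frame_of rfl c_1128 ((runs_of engOK r_1128_0).append (runs_of engOK r_1128_1)) (by decide +kernel) h.1 h.1

def F_1129 : FrX :=
  ⟨0x80080a000804040e0000210100200100000204089004000700800402041000104200005000008480419000012001000a0200a00100000a1002040600210,
    0xa6, 1, 0x43536574a6, 5,
    [(0xa6, 1), (0x205396a8, 4), (0x10548796, 4), (0x214396a7, 4), (0x205396a8, 4), (0x10548796, 4)],
    [(0x43536574a6, 5), (0x206387a5, 4), (0x107694a3, 4), (0x638594a7, 4), (0x107694a3, 4), (0x215386a7, 4), (0x207594a8, 4), (0x638594a7, 4), (0x207594a8, 4), (0x107385a6, 4), (0x638594a7, 4), (0x215386a7, 4)]⟩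

def c_1129 : frmChk tA tB F_1129 = true := by decide +kernel

def r_1129_0 : chkL rootF engF2 tA tB sA_254 sB_254 4 F_1129 [(255, 0, 0), (256, 0, 19)]
    0x10e83c06c17 = true := by
  decide +kernel

def r_1129_1 : chkL rootF engF2 tA tB sA_254 sB_254 4 F_1129 [(256, 19, 0)]
    0x41d2680f03c390d872 = true := by
  decide +kernel

theorem f_1129 (h : TabsF) : FrameF repsF 254 F_1129.f :=
  frame_of rfl c_1129 ((runs_of engOK r_1129_0).append (runs_of engOK r_1129_1)) (by decide +kernel) h.1 h.2

def F_1130 : FrX :=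
  ⟨0x482000044040440000c2040020009000182040000900808008100008000190300210000904000202000100880208100014020006082040003020408410,
    0xa0, 1, 0x2030507496a7, 6,
    [(0xa0, 1), (0x538690a2, 4), (0x548790a1, 4), (0x21437690, 4), (0x538690a2, 4), (0x548790a1, 4)],
    [(0x2030507496a7, 6), (0x508792a3, 4), (0x516473a9, 4), (0x648297a3, 4), (0x516473a9, 4), (0x108397a2, 4), (0x50647298, 4), (0x648297a3, 4), (0x50647298, 4), (0x518293a7, 4), (0x648297a3, 4), (0x108397a2, 4)]⟩

def c_1130 : frmChk tA tB F_1130 = true := by decide +kernel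

def r_1130_0 : chkL rootF engF2 tA tB sA_254 sB_254 4 F_1130 [(255, 0, 0), (256, 0, 15)]
    0x11b00f03c0f1941b = true := by
  decide +kernel

def r_1130_1 : chkL rootF engF2 tA tB sA_254 sB_254 4 F_1130 [(256, 15, 16)]
    0x103cc9 = true := by
  decide +kernel

def r_1130_2 : chkL rootF engF2 tA tB sA_254 sB_254 4 F_1130 [(256, 31, 0)]
    0x10e40f0ac1d0b43c0f02d = true := by
  decide +kernel

theorem f_1130 (h : TabsF) : FrameF repsF 254 F_1130.f :=
  frame_of rfl c_1130 ((runs_of engOK r_1130_0).append ((runs_of engOK r_1130_1).append (runs_of engOK r_1130_2))) (by decide +kernel) h.1 h.2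

def F_1131 : FrX :=
  ⟨0x2002000900044004000e020410001410008000408200402420004001110100400400880001040044108002020210011400040090010404202040c0008004,
    0xa3, 1, 0x1031547280a2, 6,
    [(0xa3, 1), (0x208693a5, 4), (0x10548793, 4), (0x217693a4, 4), (0x208693a5, 4), (0x10548793, 4)],
    [(0x1031547280a2, 6), (0x425160a8, 4), (0x54628397, 4), (0x10426597, 4), (0x54628397, 4), (0x204165a3, 4), (0x506197a8, 4), (0x10426597, 4), (0x506197a8, 4), (0x10526483, 4), (0x10426597, 4), (0x204165a3, 4)]⟩

def c_1131 : frmChk tA tB F_1131 = true := by decide +kernel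

def r_1131_0 : chkL rootF engF2 tA tB sA_254 sB_254 4 F_1131 [(255, 0, 0), (256, 0, 22)]
    0x40f0cc1d84e31 = true := by
  decide +kernel

def r_1131_1 : chkL rootF engF2 tA tB sA_254 sB_254 4 F_1131 [(256, 22, 19)]
    0x41d03c0f07417 = true := by
  decide +kernel

def r_1131_2 : chkL rootF engF2 tA tB sA_254 sB_254 4 F_1131 [(256, 41, 0)]
    0x1 = true := by
  decide +kernel

theorem f_1131 (h : TabsF) : FrameF repsF 254 F_1131.f :=
  frame_of rfl c_1131 ((runs_of engOK r_1131_0).append ((runs_of engOK r_1131_1).append (runs_of engOK r_1131_2))) (by decide +kernel) h.1 h.2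

def F_1132 : FrX :=
  ⟨0x80080a000804040e000021010020010000020408900800004820081020002000310140020020220000208006010018020420000804088024441100a0000,
    0xa6, 1, 0x104164728690a3, 7,
    [(0xa6, 1), (0x205396a8, 4), (0x10548796, 4), (0x214396a7, 4), (0x205396a8, 4), (0x10548796, 4)],
    [(0x104164728690a3, 7), (0x526097a8, 4), (0x31658294, 4), (0x315286a0, 4), (0x31658294, 4), (0x507486a2, 4), (0x318097a6, 4), (0x315286a0, 4), (0x318097a6, 4), (0x628594a0, 4), (0x315286a0, 4), (0x507486a2, 4)]⟩

def c_1132 : frmChk tA tB F_1132 = true := by decide +kernel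

def r_1132_0 : chkL rootF engF2 tA tB sA_254 sB_254 4 F_1132 [(255, 0, 0), (256, 0, 18)]
    0x105c171585606c1e0788d2344e = true := by
  decide +kernel

def r_1132_1 : chkL rootF engF2 tA tB sA_254 sB_254 4 F_1132 [(256, 18, 0)]
    0x112c4b12c171a82e = true := by
  decide +kernel

theorem f_1132 (h : TabsF) : FrameF repsF 254 F_1132.f :=
  frame_of rfl c_1132 ((runs_of engOK r_1132_0).append (runs_of engOK r_1132_1)) (by decide +kernel) h.1 h.2

def F_1133 : FrX :=
  ⟨0x600020801080810000c0040180410101001004004011040000082020880041040008400900602000400830500010202010020000400081060140100021,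
    0xa0, 1, 0x304253637290a3, 7,
    [(0xa0, 1), (0x637584a2, 4), (0x547690a1, 4), (0x64758390, 4), (0x547690a1, 4), (0x21647385, 4), (0x438690a2, 4), (0x64758390, 4), (0x438690a2, 4), (0x657483a1, 4), (0x64758390, 4), (0x21647385, 4)],
    [(0x304253637290a3, 7), (0x408297a5, 4), (0x20546391, 4), (0x405263a8, 4), (0x20546391, 4), (0x527180a4, 4), (0x638597a2, 4), (0x405263a8, 4), (0x638597a2, 4), (0x425091a8, 4), (0x405263a8, 4), (0x527180a4, 4)]⟩

def c_1133 : frmChk tB tB F_1133 = true := by decide +kernel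

def r_1133_0 : chkL rootF engF2 tB tB sB_254 sB_254 4 F_1133 [(255, 0, 0), (256, 0, 15)]
    0x105c1d21c3c0ac1707469270170b817 = true := by
  decide +kernel

def r_1133_1 : chkL rootF engF2 tB tB sB_254 sB_254 4 F_1133 [(256, 15, 17)]
    0x42e05c170b9860ac2b07417 = true := by
  decide +kernel

def r_1133_2 : chkL rootF engF2 tB tB sB_254 sB_254 4 F_1133 [(256, 32, 0)]
    0x41714c2e06f18c602d = true := by
  decide +kernel

theorem f_1133 (h : TabsF) : FrameF repsF 254 F_1133.f :=
  frame_of rfl c_1133 ((runs_of engOK r_1133_0).append ((runs_of engOK r_1133_1).append (runs_of engOK r_1133_2))) (by decide +kernel) h.2 h.2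

theorem cl_254 (h : TabsF) : ∀ f ∈ fr_254, FrameF repsF 254 f :=
  List.forall_mem_cons.2 ⟨f_1106 h, List.forall_mem_cons.2 ⟨f_1107 h, List.forall_mem_cons.2 ⟨f_1108 h, List.forall_mem_cons.2 ⟨f_1109 h, List.forall_mem_cons.2 ⟨f_1110 h, List.forall_mem_cons.2 ⟨f_1111 h, List.forall_mem_cons.2 ⟨f_1112 h, List.forall_mem_cons.2 ⟨f_1113 h, List.forall_mem_cons.2 ⟨f_1114 h, List.forall_mem_cons.2 ⟨f_1115 h, List.forall_mem_cons.2 ⟨f_1116 h, List.forall_mem_cons.2 ⟨f_1117 h, List.forall_mem_cons.2 ⟨f_1118 h, List.forall_mem_cons.2 ⟨f_1119 h, List.forall_mem_cons.2 ⟨f_1120 h, List.forall_mem_cons.2 ⟨f_1121 h, List.forall_mem_cons.2 ⟨f_1122 h, List.forall_mem_cons.2 ⟨f_1123 h, List.forall_mem_cons.2 ⟨f_1124 h, List.forall_mem_cons.2 ⟨f_1125 h, List.forall_mem_cons.2 ⟨f_1126 h, List.forall_mem_cons.2 ⟨f_1127 h, List.forall_mem_cons.2 ⟨f_1128 h, List.forall_mem_cons.2 ⟨f_1129 h, List.forall_mem_cons.2 ⟨f_1130 h, List.forall_mem_cons.2 ⟨f_1131 h, List.forall_mem_cons.2 ⟨f_1132 h, List.forall_mem_cons.2 ⟨f_1133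 h,
    fun _ h0 => absurd h0 List.not_mem_nil⟩⟩⟩⟩⟩⟩⟩⟩⟩⟩⟩⟩⟩⟩⟩⟩⟩⟩⟩⟩⟩⟩⟩⟩⟩⟩⟩⟩

def F_1134 : FrX :=
  ⟨0x482000044040440000c2040020009000182040000811100108020080040044200012010080020102000840e0000800030000123004802004401000800c,
    0xa0, 1, 0x204252627281a8, 7,
    [(0xa0, 1), (0x538690a2, 4), (0x548790a1, 4), (0x21437690, 4), (0x538690a2, 4), (0x548790a1, 4)],
    [(0x204252627281a8, 7), (0x437291a5, 4), (0x408291a6, 4), (0x30658791, 4), (0x437291a5, 4), (0x408291a6, 4)]⟩

def c_1134 : frmChk tA tA F_1134 = true := by decide +kernel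

def r_1134_0 : chkL rootF engF2 tA tA sA_255 sA_255 4 F_1134 [(255, 0, 0), (256, 0, 22)]
    0x168839385e0078596a01e = true := by
  decide +kernel

def r_1134_1 : chkL rootF engF2 tA tA sA_255 sA_255 4 F_1134 [(256, 22, 0)]
    0x10ac2b = true := by
  decide +kernel

theorem f_1134 (h : TabsF) : FrameF repsF 255 F_1134.f :=
  frame_of rfl c_1134 ((runs_of engOK r_1134_0).append (runs_of engOK r_1134_1)) (by decide +kernel) h.1 h.1

def F_1135 : FrX :=
  ⟨0x2002000900044004000e020410001410008000408100000d2000802402004080140000104002008282800808000050100040220006001000401402207000,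
    0xa3, 1, 0x316487a5, 4,
    [(0xa3, 1), (0x208693a5, 4), (0x10548793, 4), (0x217693a4, 4), (0x208693a5, 4), (0x10548793, 4)],
    [(0x316487a5, 4), (0x204176a8, 4), (0x308495a6, 4), (0x647195a8, 4), (0x308495a6, 4), (0x326481a7, 4), (0x20617495, 4), (0x647195a8, 4), (0x20617495, 4), (0x307186a4, 4), (0x647195a8, 4), (0x326481a7, 4)]⟩

def c_1135 : frmChk tA tB F_1135 = true := by decide +kernel

def r_1135_0 : chkL rootF engF2 tA tB sA_255 sB_255 4 F_1135 [(511, 0, 0)]
    0x44b05c0f09c1703c650d83606c4e06c0f = true := by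
  decide +kernel

theorem f_1135 (h : TabsF) : FrameF repsF 255 F_1135.f :=
  frame_of rfl c_1135 (runs_of engOK r_1135_0) (by decide +kernel) h.1 h.2

def F_1136 : FrX :=
  ⟨0x80080a000804040e00002101002001000002040881200008048400020020200048501000a0280008008800002e00240000009000601a000202150008000,
    0xa6, 1, 0x10415260718493a6, 8,
    [(0xa6, 1), (0x205396a8, 4), (0x10548796, 4), (0x214396a7, 4), (0x205396a8, 4), (0x10548796, 4)],
    [(0x10415260718493a6, 8), (0x316592a0, 4), (0x31407682, 4), (0x317598a4, 4), (0x316592a0, 4), (0x31407682, 4)]⟩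

def c_1136 : frmChk tA tA F_1136 = true := by decide +kernel

def r_1136_0 : chkL rootF engF2 tA tA sA_255 sA_255 4 F_1136 [(511, 0, 0)]
    0x478134352b04d1346503e7014c5c3481d1945588f21 = true := by
  decide +kernel

theorem f_1136 (h : TabsF) : FrameF repsF 255 F_1136.f :=
  frame_of rfl c_1136 (runs_of engOK r_1136_0) (by decide +kernel) h.1 h.1

def F_1137 : FrX :=
  ⟨0x80080a000804040e00002101002001000002040881200008604030000012008010020410100004002030000e00042008048001011010121004003c00000,
    0xa6, 1, 0x2040657484a3, 6,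
    [(0xa6, 1), (0x205396a8, 4), (0x10548796, 4), (0x214396a7, 4), (0x205396a8, 4), (0x10548796, 4)],
    [(0x2040657484a3, 6), (0x406287a5, 4), (0x41528693, 4), (0x628593a7, 4), (0x41528693, 4), (0x107685a2, 4), (0x407593a8, 4), (0x628593a7, 4), (0x407593a8, 4), (0x416582a7, 4), (0x628593a7, 4), (0x107685a2, 4)]⟩

def c_1137 : frmChk tA tB F_1137 = true := by decide +kernel

def r_1137_0 : chkL rootF engF2 tA tB sA_255 sB_255 4 F_1137 [(255, 0, 0), (256, 0, 20)]
    0x103c1e2b087 = true := by
  decide +kernel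

def r_1137_1 : chkL rootF engF2 tA tB sA_255 sB_255 4 F_1137 [(256, 20, 21)]
    0x41e = true := by
  decide +kernel

def r_1137_2 : chkL rootF engF2 tA tB sA_255 sB_255 4 F_1137 [(256, 41, 0)]
    0x1 = true := by
  decide +kernel

theorem f_1137 (h : TabsF) : FrameF repsF 255 F_1137.f :=
  frame_of rfl c_1137 ((runs_of engOK r_1137_0).append ((runs_of engOK r_1137_1).append (runs_of engOK r_1137_2))) (by decide +kernel) h.1 h.2

def F_1138 : FrX :=
  ⟨0x482000044040440000c2040020009000182040020001100100100208010c0480408000002e00100808001000e0200402040040020009210001100000c2,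
    0xa0, 1, 0x10304153748290a6, 8,
    [(0xa0, 1), (0x538690a2, 4), (0x548790a1, 4), (0x21437690, 4), (0x538690a2, 4), (0x548790a1, 4)],
    [(0x10304153748290a6, 8), (0x516398a2, 4), (0x20637194, 4), (0x637584a0, 4), (0x516398a2, 4), (0x20637194, 4)]⟩

def c_1138 : frmChk tA tA F_1138 = true := by decide +kernel

def r_1138_0 : chkL rootF engF2 tA tA sA_255 sA_255 4 F_1138 [(255, 0, 0), (256, 0, 18)]
    0x53450d62b040f12c1e0ba984a40fa286a0e43929839a280f0e6a2075451341e = true := by
  decide +kernel

def r_1138_1 : chkL rootF engF2 tA tA sA_255 sA_255 4 F_1138 [(256, 18, 23)]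
    0x14d14358ac103c4b0782ea612903e8a1a8390e4a60e68a03c39a881d = true := by
  decide +kernel

def r_1138_2 : chkL rootF engF2 tA tA sA_255 sA_255 4 F_1138 [(256, 41, 0)]
    0x1 = true := by
  decide +kernel

theorem f_1138 (h : TabsF) : FrameF repsF 255 F_1138.f :=
  frame_of rfl c_1138 ((runs_of engOK r_1138_0).append ((runs_of engOK r_1138_1).append (runs_of engOK r_1138_2))) (by decide +kernel) h.1 h.1

def F_1139 : FrX :=
  ⟨0x482000044040440000c2040020009000182040020000882000200084024022020400040028010242100800700008108040010240200100004010210208,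
    0xa0, 1, 0x3141718093a8, 6,
    [(0xa0, 1), (0x538690a2, 4), (0x548790a1, 4), (0x21437690, 4), (0x538690a2, 4), (0x548790a1, 4)],
    [(0x3141718093a8, 6), (0x108295a6, 4), (0x105387a4, 4), (0x10647293, 4), (0x108295a6, 4), (0x105387a4, 4)]⟩

def c_1139 : frmChk tA tA F_1139 = true := by decide +kernel

def r_1139_0 : chkL rootF engF2 tA tA sA_255 sA_255 4 F_1139 [(511, 0, 0)]
    0x42b3603907a0e0781b1642b0acd80e42bc883914cc9 = true := by
  decide +kernel

theorem f_1139 (h : TabsF) : FrameF repsF 255 F_1139.f :=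
  frame_of rfl c_1139 (runs_of engOK r_1139_0) (by decide +kernel) h.1 h.1

def F_1140 : FrX :=
  ⟨0x80080a000804040e00002101002001000002040882012000088024000440010040013020002008082808000284040101100101084010080404380020000,
    0xa6, 1, 0x314051627590a2, 7,
    [(0xa6, 1), (0x205396a8, 4), (0x10548796, 4), (0x214396a7, 4), (0x205396a8, 4), (0x10548796, 4)],
    [(0x314051627590a2, 7), (0x217380a9, 4), (0x32647095, 4), (0x20647381, 4), (0x32647095, 4), (0x203187a5, 4), (0x106482a9, 4), (0x20647381, 4), (0x106482a9, 4), (0x30728195, 4), (0x20647381, 4), (0x203187a5, 4)]⟩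

def c_1140 : frmChk tA tB F_1140 = true := by decide +kernel

def r_1140_0 : chkL rootF engF2 tA tB sA_255 sB_255 4 F_1140 [(255, 0, 0), (256, 0, 21)]
    0x1074661380f11c63 = true := by
  decide +kernel

def r_1140_1 : chkL rootF engF2 tA tB sA_255 sB_255 4 F_1140 [(256, 21, 0)]
    0x42d43b03c44f09904718ca3138c507a0e07453 = true := by
  decide +kernel

theorem f_1140 (h : TabsF) : FrameF repsF 255 F_1140.f :=
  frame_of rfl c_1140 ((runs_of engOK r_1140_0).append (runs_of engOK r_1140_1)) (by decide +kernel) h.1 h.2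

def F_1141 : FrX :=
  ⟨0x80080a000804040e000021010020010000020408a0004100300028400414000040020400202180842020000024002801040000040402000404402227000,
    0xa6, 1, 0x103040516284a1, 7,
    [(0xa6, 1), (0x205396a8, 4), (0x10548796, 4), (0x214396a7, 4), (0x205396a8, 4), (0x10548796, 4)],
    [(0x103040516284a1, 7), (0x21647083, 4), (0x728095a4, 4), (0x31708295, 4), (0x728095a4, 4), (0x307182a6, 4), (0x32648195, 4), (0x31708295, 4), (0x32648195, 4), (0x203187a4, 4), (0x31708295, 4), (0x307182a6, 4)]⟩

def c_1141 : frmChk tA tB F_1141 = true := by decide +kernel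

def r_1141_0 : chkL rootF engF2 tA tB sA_255 sB_255 4 F_1141 [(255, 0, 0), (256, 0, 22)]
    0x109c4e = true := by
  decide +kernel

def r_1141_1 : chkL rootF engF2 tA tB sA_255 sB_255 4 F_1141 [(256, 22, 0)]
    0x11a80f09c0f03c0f09c3309c27 = true := by
  decide +kernel

theorem f_1141 (h : TabsF) : FrameF repsF 255 F_1141.f :=
  frame_of rfl c_1141 ((runs_of engOK r_1141_0).append (runs_of engOK r_1141_1)) (by decide +kernel) h.1 h.2

def F_1142 : FrX :=
  ⟨0x482000044040440000c2040020009000182040001101002004020200000884202010120002900002311010200000800284000202050104000000017002,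
    0xa0, 1, 0x405260768291a7, 7,
    [(0xa0, 1), (0x538690a2, 4), (0x548790a1, 4), (0x21437690, 4), (0x538690a2, 4), (0x548790a1, 4)],
    [(0x405260768291a7, 7), (0x32417586, 4), (0x204196a5, 4), (0x304198a7, 4), (0x32417586, 4), (0x204196a5, 4)]⟩

def c_1142 : frmChk tA tA F_1142 = true := by decide +kernel

def r_1142_0 : chkL rootF engF2 tA tA sA_255 sA_255 4 F_1142 [(255, 0, 0), (256, 0, 22)]
    0x122c36 = true := by
  decide +kernel

def r_1142_1 : chkL rootF engF2 tA tA sA_255 sA_255 4 F_1142 [(256, 22, 0)]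
    0x11942b0ac78 = true := by
  decide +kernel

theorem f_1142 (h : TabsF) : FrameF repsF 255 F_1142.f :=
  frame_of rfl c_1142 ((runs_of engOK r_1142_0).append (runs_of engOK r_1142_1)) (by decide +kernel) h.1 h.1

def F_1143 : FrX :=
  ⟨0x80080a000804040e000021010020010000020408a000410030002840041400004002040020280880a200000200402801040000006002004000c02227000,
    0xa6, 1, 0x103242516075a1, 7,
    [(0xa6, 1), (0x205396a8, 4), (0x10548796, 4), (0x214396a7, 4), (0x205396a8, 4), (0x10548796, 4)],
    [(0x103242516075a1, 7), (0x21647083, 4), (0x107395a6, 4), (0x31708295, 4), (0x107395a6, 4), (0x203187a4, 4), (0x32648195, 4), (0x31708295, 4), (0x32648195, 4), (0x307182a6, 4), (0x31708295, 4), (0x203187a4, 4)]⟩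

def c_1143 : frmChk tA tB F_1143 = true := by decide +kernel

def r_1143_0 : chkL rootF engF2 tA tB sA_255 sB_255 4 F_1143 [(255, 0, 0), (256, 0, 21)]
    0x10f02e0ba9206c1b = true := by
  decide +kernel

def r_1143_1 : chkL rootF engF2 tA tB sA_255 sB_255 4 F_1143 [(256, 21, 20)]
    0x41e2a42b = true := by
  decide +kernel

def r_1143_2 : chkL rootF engF2 tA tB sA_255 sB_255 4 F_1143 [(256, 41, 0)]
    0x1 = true := by
  decide +kernel

theorem f_1143 (h : TabsF) : FrameF repsF 255 F_1143.f :=
  frame_of rfl c_1143 ((runs_of engOK r_1143_0).append ((runs_of engOK r_1143_1).append (runs_of engOK r_1143_2))) (by decide +kernel) h.1 h.2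

def F_1144 : FrX :=
  ⟨0x482000044040440000c2040020009000182040020001042000200030010c0200a01000008202020a000102000201802080000284090001000880216008,
    0xa0, 1, 0x213161728798a5, 7,
    [(0xa0, 1), (0x538690a2, 4), (0x548790a1, 4), (0x21437690, 4), (0x538690a2, 4), (0x548790a1, 4)],
    [(0x213161728798a5, 7), (0x517093a2, 4), (0x516098a4, 4), (0x42517683, 4), (0x517093a2, 4), (0x516098a4, 4)]⟩

def c_1144 : frmChk tA tA F_1144 = true := by decide +kernel

def r_1144_0 : chkL rootF engF2 tA tA sA_255 sA_255 4 F_1144 [(255, 0, 0), (256, 0, 20)]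
    0x41e06c170ac5506c33 = true := by
  decide +kernel

def r_1144_1 : chkL rootF engF2 tA tA sA_255 sA_255 4 F_1144 [(256, 20, 0)]
    0x11341e0cc2b = true := by
  decide +kernel

theorem f_1144 (h : TabsF) : FrameF repsF 255 F_1144.f :=
  frame_of rfl c_1144 ((runs_of engOK r_1144_0).append (runs_of engOK r_1144_1)) (by decide +kernel) h.1 h.1

def F_1145 : FrX :=
  ⟨0x1c210200000404400000204100010100008204088404400000102400040080004201112000280800a210030200400801084000006050004000804087000,
    0x0, 0, 0x1020, 2,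
    [(0x0, 0), (0x205386a9, 4), (0x105487a9, 4), (0x214376a9, 4), (0x205386a9, 4), (0x105487a9, 4)],
    [(0x1020, 2), (0x215386a9, 4), (0x205487a9, 4), (0x104376a9, 4), (0x215386a9, 4), (0x205487a9, 4)]⟩

def c_1145 : frmChk tA tA F_1145 = true := by decide +kernel

def r_1145_0 : chkL rootF engF2 tA tA sA_255 sA_255 4 F_1145 [(255, 0, 0), (256, 0, 2)]
    0x1 = true := by
  decide +kernel

def r_1145_1 : chkL rootF engF2 tA tA sA_255 sA_255 4 F_1145 [(256, 2, 2)]
    0x13512a = true := by
  decide +kernel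

def r_1145_2 : chkL rootF engF2 tA tA sA_255 sA_255 4 F_1145 [(256, 4, 2)]
    0x1 = true := by
  decide +kernel

def r_1145_3 : chkL rootF engF2 tA tA sA_255 sA_255 4 F_1145 [(256, 6, 5)]
    0x456 = true := by
  decide +kernel

def r_1145_4 : chkL rootF engF2 tA tA sA_255 sA_255 4 F_1145 [(256, 11, 4)]
    0x4a9 = true := by
  decide +kernel

def r_1145_5 : chkL rootF engF2 tA tA sA_255 sA_255 4 F_1145 [(256, 15, 2)]
    0x11384e = true := by
  decide +kernel

def r_1145_6 : chkL rootF engF2 tA tA sA_255 sA_255 4 F_1145 [(256, 17, 2)]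
    0x4360d83618caa = true := by
  decide +kernel

def r_1145_7 : chkL rootF engF2 tA tA sA_255 sA_255 4 F_1145 [(256, 19, 2)]
    0x11b05c = true := by
  decide +kernel

def r_1145_8 : chkL rootF engF2 tA tA sA_255 sA_255 4 F_1145 [(256, 21, 5)]
    0x42b0cc1b = true := by
  decide +kernel

def r_1145_9 : chkL rootF engF2 tA tA sA_255 sA_255 4 F_1145 [(256, 26, 4)]
    0x10b4a60b42d170690b439 = true := by
  decide +kernel

def r_1145_10 : chkL rootF engF2 tA tA sA_255 sA_255 4 F_1145 [(256, 30, 2)]
    0x10ac2d = true := by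
  decide +kernel

def r_1145_11 : chkL rootF engF2 tA tA sA_255 sA_255 4 F_1145 [(256, 32, 2)]
    0x1 = true := by
  decide +kernel

def r_1145_12 : chkL rootF engF2 tA tA sA_255 sA_255 4 F_1145 [(256, 34, 5)]
    0x1 = true := by
  decide +kernel

def r_1145_13 : chkL rootF engF2 tA tA sA_255 sA_255 4 F_1145 [(256, 39, 0)]
    0x13c02d = true := by
  decide +kernel

theorem f_1145 (h : TabsF) : FrameF repsF 255 F_1145.f :=
  frame_of rfl c_1145 ((runs_of engOK r_1145_0).append ((runs_of engOK r_1145_1).append ((runs_of engOK r_1145_2).append ((runs_of engOK r_1145_3).append ((runs_of engOK r_1145_4).append ((runs_of engOK r_1145_5).append ((runs_of engOK r_1145_6).append ((runs_of engOK r_1145_7).append ((runs_of engOK r_1145_8).append ((runs_of engOK r_1145_9).append ((runs_of engOK r_1145_10).append ((runs_of engOK r_1145_11).append ((runs_of engOK r_1145_12).append (runs_of engOK r_1145_13)))))))))))))) (by decide +kernel) h.1 h.1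

def F_1146 : FrX :=
  ⟨0x482000044040440000c2040020009000182040001011100004020200020810012010120002900042105200000200800284000202050100004000017002,
    0xa0, 1, 0x21314052628590a6, 8,
    [(0xa0, 1), (0x538690a2, 4), (0x548790a1, 4), (0x21437690, 4), (0x538690a2, 4), (0x548790a1, 4)],
    [(0x21314052628590a6, 8), (0x108796a2, 4), (0x548093a7, 4), (0x215487a0, 4), (0x548093a7, 4), (0x637281a0, 4), (0x205496a1, 4), (0x215487a0, 4), (0x205496a1, 4), (0x217093a8, 4), (0x215487a0, 4), (0x637281a0, 4)]⟩

def c_1146 : frmChk tA tB F_1146 = true := by decide +kernel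

def r_1146_0 : chkL rootF engF2 tA tB sA_255 sB_255 4 F_1146 [(255, 0, 0), (256, 0, 23)]
    0x10740f0d43503e45d109ca300f03c66 = true := by
  decide +kernel

def r_1146_1 : chkL rootF engF2 tA tB sA_255 sB_255 4 F_1146 [(256, 23, 0)]
    0x4aa03dc218c6a0b44d1c84d0cc0f = true := by
  decide +kernel

theorem f_1146 (h : TabsF) : FrameF repsF 255 F_1146.f :=
  frame_of rfl c_1146 ((runs_of engOK r_1146_0).append (runs_of engOK r_1146_1)) (by decide +kernel) h.1 h.2

def F_1147 : FrX :=
  ⟨0x1001040012008080000e0084080041000810100004080b040020008100080082008008084020400220004002060400210100800103030004011000213000,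
    0xa3, 1, 0x10203142506073a0, 8,
    [(0xa3, 1), (0x207584a6, 4), (0x10547693, 4), (0x647593a8, 4), (0x10547693, 4), (0x216485a7, 4), (0x208693a4, 4), (0x647593a8, 4), (0x208693a4, 4), (0x106574a8, 4), (0x647593a8, 4), (0x216485a7, 4)],
    [(0x10203142506073a0, 8), (0x728596a4, 4), (0x218096a3, 4), (0x43507196, 4), (0x728596a4, 4), (0x218096a3, 4)]⟩

def c_1147 : frmChk tB tA F_1147 = true := by decide +kernel

def r_1147_0 : chkL rootF engF2 tB tA sB_255 sA_255 4 F_1147 [(255, 0, 0), (256, 0, 24)]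
    0x40f0e40f03c17 = true := by
  decide +kernel

def r_1147_1 : chkL rootF engF2 tB tA sB_255 sA_255 4 F_1147 [(256, 24, 0)]
    0x10b4d1 = true := by
  decide +kernel

theorem f_1147 (h : TabsF) : FrameF repsF 255 F_1147.f :=
  frame_of rfl c_1147 ((runs_of engOK r_1147_0).append (runs_of engOK r_1147_1)) (by decide +kernel) h.2 h.1

def F_1148 : FrX :=
  ⟨0x1001040012008080000e0084080041000810100004801000808810000412001001010a002028200808004200801420002004004401004040015002820080,
    0xa3, 1, 0x1021308390a4, 6,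
    [(0xa3, 1), (0x207584a6, 4), (0x10547693, 4), (0x647593a8, 4), (0x10547693, 4), (0x216485a7, 4), (0x208693a4, 4), (0x647593a8, 4), (0x208693a4, 4), (0x106574a8, 4), (0x647593a8, 4), (0x216485a7, 4)],
    [(0x1021308390a4, 6), (0x758690a1, 4), (0x437692a5, 4), (0x437581a6, 4), (0x437692a5, 4), (0x205187a6, 4), (0x436190a8, 4), (0x437581a6, 4), (0x436190a8, 4), (0x658192a7, 4), (0x437581a6, 4), (0x205187a6, 4)]⟩

def c_1148 : frmChk tB tB F_1148 = true := by decide +kernel

def r_1148_0 : chkL rootF engF2 tB tB sB_255 sB_255 4 F_1148 [(511, 0, 0)]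
    0x10d81b = true := by
  decide +kernel

theorem f_1148 (h : TabsF) : FrameF repsF 255 F_1148.f :=
  frame_of rfl c_1148 (runs_of engOK r_1148_0) (by decide +kernel) h.2 h.2

def F_1149 : FrX :=
  ⟨0x1001040012008080000e008408004100081010000440400200844000041800804402020011a0002000040202050810200000005011000801108104850000,
    0xa3, 1, 0x21315065728092a1, 8,
    [(0xa3, 1), (0x207584a6, 4), (0x10547693, 4), (0x647593a8, 4), (0x10547693, 4), (0x216485a7, 4), (0x208693a4, 4), (0x647593a8, 4), (0x208693a4, 4), (0x106574a8, 4), (0x647593a8, 4), (0x216485a7, 4)],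
    [(0x21315065728092a1, 8), (0x50627398, 4), (0x516473a8, 4), (0x104273a9, 4), (0x50627398, 4), (0x516473a8, 4)]⟩

def c_1149 : frmChk tB tA F_1149 = true := by decide +kernel

def r_1149_0 : chkL rootF engF2 tB tA sB_255 sA_255 4 F_1149 [(255, 0, 0), (256, 0, 24)]
    0x41b0cc0f = true := by
  decide +kernel

def r_1149_1 : chkL rootF engF2 tB tA sB_255 sA_255 4 F_1149 [(256, 24, 0)]
    0x4630b863 = true := by
  decide +kernel

theorem f_1149 (h : TabsF) : FrameF repsF 255 F_1149.f :=
  frame_of rfl c_1149 ((runs_of engOK r_1149_0).append (runs_of engOK r_1149_1)) (by decide +kernel) h.2 h.1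

def F_1150 : FrX :=
  ⟨0x600020801080810000c0040180410101001004001010500400400220124000080010802020812000100400e0000880020400120000400101440811000a,
    0xa0, 1, 0x10203043516271a6, 8,
    [(0xa0, 1), (0x637584a2, 4), (0x547690a1, 4), (0x64758390, 4), (0x547690a1, 4), (0x21647385, 4), (0x438690a2, 4), (0x64758390, 4), (0x438690a2, 4), (0x657483a1, 4), (0x64758390, 4), (0x21647385, 4)],
    [(0x10203043516271a6, 8), (0x406391a8, 4), (0x20738591, 4), (0x427691a5, 4), (0x406391a8, 4), (0x20738591, 4)]⟩

def c_1150 : frmChk tB tA F_1150 = true := by decide +kernel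

def r_1150_0 : chkL rootF engF2 tB tA sB_255 sA_255 4 F_1150 [(255, 0, 0), (256, 0, 26)]
    0x42e0ac27 = true := by
  decide +kernel

def r_1150_1 : chkL rootF engF2 tB tA sB_255 sA_255 4 F_1150 [(256, 26, 0)]
    0x427 = true := by
  decide +kernel

theorem f_1150 (h : TabsF) : FrameF repsF 255 F_1150.f :=
  frame_of rfl c_1150 ((runs_of engOK r_1150_0).append (runs_of engOK r_1150_1)) (by decide +kernel) h.2 h.1

def F_1151 : FrX :=
  ⟨0x1001040012008080000e00840800410008101000040808084020002140080084804000101100215024002008400000420100a0020002080000a000202148,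
    0xa3, 1, 0x324151648090a6, 7,
    [(0xa3, 1), (0x207584a6, 4), (0x10547693, 4), (0x647593a8, 4), (0x10547693, 4), (0x216485a7, 4), (0x208693a4, 4), (0x647593a8, 4), (0x208693a4, 4), (0x106574a8, 4), (0x647593a8, 4), (0x216485a7, 4)],
    [(0x324151648090a6, 7), (0x607493a2, 4), (0x648195a7, 4), (0x207481a6, 4), (0x648195a7, 4), (0x405372a6, 4), (0x628193a0, 4), (0x207481a6, 4), (0x628193a0, 4), (0x207695a4, 4), (0x207481a6, 4), (0x405372a6, 4)]⟩

def c_1151 : frmChk tB tB F_1151 = true := by decide +kernel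

def r_1151_0 : chkL rootF engF2 tB tB sB_255 sB_255 4 F_1151 [(511, 0, 0)]
    0x4350e43c4a46a5a0362a83c4a46a5a01e0b40f0f1291a968 = true := by
  decide +kernel

theorem f_1151 (h : TabsF) : FrameF repsF 255 F_1151.f :=
  frame_of rfl c_1151 (runs_of engOK r_1151_0) (by decide +kernel) h.2 h.2

def F_1152 : FrX :=
  ⟨0x482000044040440000c2040020009000182040010020028001000284040810030020010000030101000440600010001080091820080810100802800003,
    0xa0, 1, 0x4254657198a7, 6,
    [(0xa0, 1), (0x538690a2, 4), (0x548790a1, 4), (0x21437690, 4), (0x538690a2, 4), (0x548790a1, 4)],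
    [(0x4254657198a7, 6), (0x324095a6, 4), (0x657081a2, 4), (0x528193a6, 4), (0x657081a2, 4), (0x527496a3, 4), (0x40538192, 4), (0x528193a6, 4), (0x40538192, 4), (0x627093a5, 4), (0x528193a6, 4), (0x527496a3, 4)]⟩

def c_1152 : frmChk tA tB F_1152 = true := by decide +kernel

def r_1152_0 : chkL rootF engF2 tA tB sA_255 sB_255 4 F_1152 [(511, 0, 0)]
    0x10b41d = true := by
  decide +kernel

theorem f_1152 (h : TabsF) : FrameF repsF 255 F_1152.f :=
  frame_of rfl c_1152 (runs_of engOK r_1152_0) (by decide +kernel) h.1 h.2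

def F_1153 : FrX :=
  ⟨0x1c2102000004044000002041000101000082040890040100008001010200044020108404002008444020140021120000204206040010020244110008000,
    0x0, 0, 0x217385, 3,
    [(0x0, 0), (0x205386a9, 4), (0x105487a9, 4), (0x214376a9, 4), (0x205386a9, 4), (0x105487a9, 4)],
    [(0x217385, 3), (0x106587a9, 4), (0x205384a9, 4), (0x216374a9, 4), (0x106587a9, 4), (0x205384a9, 4)]⟩

def c_1153 : frmChk tA tA F_1153 = true := by decide +kernel

def r_1153_0 : chkL rootF engF2 tA tA sA_255 sA_255 4 F_1153 [(255, 0, 0), (256, 0, 4)]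
    0x42d = true := by
  decide +kernel

def r_1153_1 : chkL rootF engF2 tA tA sA_255 sA_255 4 F_1153 [(256, 4, 3)]
    0x106c4b06c9c = true := by
  decide +kernel

def r_1153_2 : chkL rootF engF2 tA tA sA_255 sA_255 4 F_1153 [(256, 7, 7)]
    0x42b = true := by
  decide +kernel

def r_1153_3 : chkL rootF engF2 tA tA sA_255 sA_255 4 F_1153 [(256, 14, 10)]
    0x105ca90749c0745a = true := by
  decide +kernel

def r_1153_4 : chkL rootF engF2 tA tA sA_255 sA_255 4 F_1153 [(256, 24, 13)]
    0x417 = true := by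
  decide +kernel

def r_1153_5 : chkL rootF engF2 tA tA sA_255 sA_255 4 F_1153 [(256, 37, 0)]
    0x48d81cac0d456 = true := by
  decide +kernel

theorem f_1153 (h : TabsF) : FrameF repsF 255 F_1153.f :=
  frame_of rfl c_1153 ((runs_of engOK r_1153_0).append ((runs_of engOK r_1153_1).append ((runs_of engOK r_1153_2).append ((runs_of engOK r_1153_3).append ((runs_of engOK r_1153_4).append (runs_of engOK r_1153_5)))))) (by decide +kernel) h.1 h.1

def F_1154 : FrX :=
  ⟨0x2002000900044004000e0204100014100080004080400028012000200800a204280002001210808820800010011000801080090006048000100880012080,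
    0xa3, 1, 0x10315260738395a0, 8,
    [(0xa3, 1), (0x208693a5, 4), (0x10548793, 4), (0x217693a4, 4), (0x208693a5, 4), (0x10548793, 4)],
    [(0x10315260738395a0, 8), (0x627198a5, 4), (0x627094a3, 4), (0x10536284, 4), (0x627198a5, 4), (0x627094a3, 4)]⟩

def c_1154 : frmChk tA tA F_1154 = true := by decide +kernel

def r_1154_0 : chkL rootF engF2 tA tA sA_255 sA_255 4 F_1154 [(255, 0, 0), (256, 0, 21)]
    0x42e078170d47454463 = true := by
  decide +kernel

def r_1154_1 : chkL rootF engF2 tA tA sA_255 sA_255 4 F_1154 [(256, 21, 0)]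
    0x40f03c0f06f44 = true := by
  decide +kernel

theorem f_1154 (h : TabsF) : FrameF repsF 255 F_1154.f :=
  frame_of rfl c_1154 ((runs_of engOK r_1154_0).append (runs_of engOK r_1154_1)) (by decide +kernel) h.1 h.1

def F_1155 : FrX :=
  ⟨0x2002000900044004000e0204100014100080004081000008208100140102010290000020400101041080080500002000800808a000800808100c04220044,
    0xa3, 1, 0x103264708794a6, 7,
    [(0xa3, 1), (0x208693a5, 4), (0x10548793, 4), (0x217693a4, 4), (0x208693a5, 4), (0x10548793, 4)],
    [(0x103264708794a6, 7), (0x738591a2, 4), (0x647095a8, 4), (0x216485a9, 4), (0x647095a8, 4), (0x305182a9, 4), (0x647392a1, 4), (0x216485a9, 4), (0x647392a1, 4), (0x217098a5, 4), (0x216485a9, 4), (0x305182a9, 4)]⟩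

def c_1155 : frmChk tA tB F_1155 = true := by decide +kernel

def r_1155_0 : chkL rootF engF2 tA tB sA_255 sB_255 4 F_1155 [(255, 0, 0), (256, 0, 25)]
    0x1074471705c4e03309c2705c17 = true := by
  decide +kernel

def r_1155_1 : chkL rootF engF2 tA tB sA_255 sB_255 4 F_1155 [(256, 25, 0)]
    0x103c3c12c4703c0f0e41705c0f1380f0d859 = true := by
  decide +kernel

theorem f_1155 (h : TabsF) : FrameF repsF 255 F_1155.f :=
  frame_of rfl c_1155 ((runs_of engOK r_1155_0).append (runs_of engOK r_1155_1)) (by decide +kernel) h.1 h.2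

def F_1156 : FrX :=
  ⟨0x1001040012008080000e00840800410008101000060000018100202022002020048600003100100140010010040c08800040200811804000444003002000,
    0xa3, 1, 0x10214051657691a2, 8,
    [(0xa3, 1), (0x207584a6, 4), (0x10547693, 4), (0x647593a8, 4), (0x10547693, 4), (0x216485a7, 4), (0x208693a4, 4), (0x647593a8, 4), (0x208693a4, 4), (0x106574a8, 4), (0x647593a8, 4), (0x216485a7, 4)],
    [(0x10214051657691a2, 8), (0x506387a4, 4), (0x50618294, 4), (0x315072a9, 4), (0x506387a4, 4), (0x50618294, 4)]⟩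

def c_1156 : frmChk tB tA F_1156 = true := by decide +kernel

def r_1156_0 : chkL rootF engF2 tB tA sB_255 sA_255 4 F_1156 [(255, 0, 0), (256, 0, 23)]
    0x10cc1b = true := by
  decide +kernel

def r_1156_1 : chkL rootF engF2 tB tA sB_255 sA_255 4 F_1156 [(256, 23, 0)]
    0x42b5301e = true := by
  decide +kernel

theorem f_1156 (h : TabsF) : FrameF repsF 255 F_1156.f :=
  frame_of rfl c_1156 ((runs_of engOK r_1156_0).append (runs_of engOK r_1156_1)) (by decide +kernel) h.2 h.1

def F_1157 : FrX :=
  ⟨0x600020801080810000c004018041010100100401002002480001004880900400400200128002014000200044400124008000011020008001400109a080,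
    0xa0, 1, 0x3041546472a7, 6,
    [(0xa0, 1), (0x637584a2, 4), (0x547690a1, 4), (0x64758390, 4), (0x547690a1, 4), (0x21647385, 4), (0x438690a2, 4), (0x64758390, 4), (0x438690a2, 4), (0x657483a1, 4), (0x64758390, 4), (0x21647385, 4)],
    [(0x3041546472a7, 6), (0x10738592, 4), (0x436192a8, 4), (0x607492a5, 4), (0x10738592, 4), (0x436192a8, 4)]⟩

def c_1157 : frmChk tB tA F_1157 = true := by decide +kernel

def r_1157_0 : chkL rootF engF2 tB tA sB_255 sA_255 4 F_1157 [(255, 0, 0), (256, 0, 25)]
    0x41b0ac4e05c1718c1e078330cc3c = true := by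
  decide +kernel

def r_1157_1 : chkL rootF engF2 tB tA sB_255 sA_255 4 F_1157 [(256, 25, 0)]
    0x41e07827 = true := by
  decide +kernel

theorem f_1157 (h : TabsF) : FrameF repsF 255 F_1157.f :=
  frame_of rfl c_1157 ((runs_of engOK r_1157_0).append (runs_of engOK r_1157_1)) (by decide +kernel) h.2 h.1

def F_1158 : FrX :=
  ⟨0x1001040012008080000e008408004100081010000408081c0010100101000082008008084020400220004800060404010100002103021040011000213000,
    0xa3, 1, 0x31405374a3, 5,
    [(0xa3, 1), (0x207584a6, 4), (0x10547693, 4), (0x647593a8, 4), (0x10547693, 4), (0x216485a7, 4), (0x208693a4, 4), (0x647593a8, 4), (0x208693a4, 4), (0x106574a8, 4), (0x647593a8, 4), (0x216485a7, 4)],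
    [(0x31405374a3, 5), (0x104287a6, 4), (0x43607195, 4), (0x107695a8, 4), (0x43607195, 4), (0x327681a0, 4), (0x428695a7, 4), (0x107695a8, 4), (0x428695a7, 4), (0x436170a8, 4), (0x107695a8, 4), (0x327681a0, 4)]⟩

def c_1158 : frmChk tB tB F_1158 = true := by decide +kernel

def r_1158_0 : chkL rootF engF2 tB tB sB_255 sB_255 4 F_1158 [(255, 0, 0), (256, 0, 25)]
    0x5616258c0cc33 = true := by
  decide +kernel

def r_1158_1 : chkL rootF engF2 tB tB sB_255 sB_255 4 F_1158 [(256, 25, 0)]
    0x103c4e0cc0f2680f09e499a2541d00f = true := by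
  decide +kernel

theorem f_1158 (h : TabsF) : FrameF repsF 255 F_1158.f :=
  frame_of rfl c_1158 ((runs_of engOK r_1158_0).append (runs_of engOK r_1158_1)) (by decide +kernel) h.2 h.2

def F_1159 : FrX :=
  ⟨0x80080a000804040e00002101002001000002040884200000482400020014000084601001210808020808000011101804000111004008801000904400010,
    0xa6, 1, 0x10204352618594a0, 8,
    [(0xa6, 1), (0x205396a8, 4), (0x10548796, 4), (0x214396a7, 4), (0x205396a8, 4), (0x10548796, 4)],
    [(0x10204352618594a0, 8), (0x103284a5, 4), (0x327198a6, 4), (0x32657094, 4), (0x103284a5, 4), (0x327198a6, 4)]⟩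

def c_1159 : frmChk tA tA F_1159 = true := by decide +kernel

def r_1159_0 : chkL rootF engF2 tA tA sA_255 sA_255 4 F_1159 [(255, 0, 0), (256, 0, 21)]
    0x41705c71330951340f074b109c27 = true := by
  decide +kernel

def r_1159_1 : chkL rootF engF2 tA tA sA_255 sA_255 4 F_1159 [(256, 21, 0)]
    0x4350cd5203c3a = true := by
  decide +kernel

theorem f_1159 (h : TabsF) : FrameF repsF 255 F_1159.f :=
  frame_of rfl c_1159 ((runs_of engOK r_1159_0).append (runs_of engOK r_1159_1)) (by decide +kernel) h.1 h.1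

def F_1160 : FrX :=
  ⟨0x2002000900044004000e02041000141000800040810000082081001401020102900000204001010410800805000001800048001005020800100c00220284,
    0xa3, 1, 0x103264708794a6, 7,
    [(0xa3, 1), (0x208693a5, 4), (0x10548793, 4), (0x217693a4, 4), (0x208693a5, 4), (0x10548793, 4)],
    [(0x103264708794a6, 7), (0x738591a2, 4), (0x647095a8, 4), (0x216485a9, 4), (0x647095a8, 4), (0x305182a9, 4), (0x647392a1, 4), (0x216485a9, 4), (0x647392a1, 4), (0x217098a5, 4), (0x216485a9, 4), (0x305182a9, 4)]⟩

def c_1160 : frmChk tA tB F_1160 = true := by decide +kernel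

def r_1160_0 : chkL rootF engF2 tA tB sA_255 sB_255 4 F_1160 [(255, 0, 0), (256, 0, 25)]
    0x10aea1b80c30f06a = true := by
  decide +kernel

def r_1160_1 : chkL rootF engF2 tA tB sA_255 sB_255 4 F_1160 [(256, 25, 0)]
    0x45aa86e011c170740f = true := by
  decide +kernel

theorem f_1160 (h : TabsF) : FrameF repsF 255 F_1160.f :=
  frame_of rfl c_1160 ((runs_of engOK r_1160_0).append (runs_of engOK r_1160_1)) (by decide +kernel) h.1 h.2

def F_1161 : FrX :=
  ⟨0x482000044040440000c2040020009000182040000880880000a00080040082022020420004900010511040001000802080080110090080010000207001,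
    0xa0, 1, 0x405264718692a3, 7,
    [(0xa0, 1), (0x538690a2, 4), (0x548790a1, 4), (0x21437690, 4), (0x538690a2, 4), (0x548790a1, 4)],
    [(0x405264718692a3, 7), (0x216094a8, 4), (0x53627481, 4), (0x215386a0, 4), (0x53627481, 4), (0x208697a1, 4), (0x538094a6, 4), (0x215386a0, 4), (0x538094a6, 4), (0x617482a0, 4), (0x215386a0, 4), (0x208697a1, 4)]⟩

def c_1161 : frmChk tA tB F_1161 = true := by decide +kernel

def r_1161_0 : chkL rootF engF2 tA tB sA_255 sB_255 4 F_1161 [(255, 0, 0), (256, 0, 20)]
    0x41b05c170781b = true := by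
  decide +kernel

def r_1161_1 : chkL rootF engF2 tA tB sA_255 sB_255 4 F_1161 [(256, 20, 0)]
    0x13881e078b8 = true := by
  decide +kernel

theorem f_1161 (h : TabsF) : FrameF repsF 255 F_1161.f :=
  frame_of rfl c_1161 ((runs_of engOK r_1161_0).append (runs_of engOK r_1161_1)) (by decide +kernel) h.1 h.2

theorem cl_255 (h : TabsF) : ∀ f ∈ fr_255, FrameF repsF 255 f :=
  List.forall_mem_cons.2 ⟨f_1134 h, List.forall_mem_cons.2 ⟨f_1135 h, List.forall_mem_cons.2 ⟨f_1136 h, List.forall_mem_cons.2 ⟨f_1137 h, List.forall_mem_cons.2 ⟨f_1138 h, List.forall_mem_cons.2 ⟨f_1139 h, List.forall_mem_cons.2 ⟨f_1140 h, List.forall_mem_cons.2 ⟨f_1141 h, List.forall_mem_cons.2 ⟨f_1142 h, List.forall_mem_cons.2 ⟨f_1143 h, List.forall_mem_cons.2 ⟨f_1144 h, List.forall_mem_cons.2 ⟨f_1145 h, List.forall_mem_cons.2 ⟨f_1146 h, List.forall_mem_cons.2 ⟨f_1147 h, List.forall_mem_cons.2 ⟨f_1148 h, List.forall_mem_cons.2 ⟨f_1149 h, List.forall_mem_cons.2 ⟨f_1150 h, List.forall_mem_cons.2 ⟨f_1151 h, List.forall_mem_cons.2 ⟨f_1152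 h, List.forall_mem_cons.2 ⟨f_1153 h, List.forall_mem_cons.2 ⟨f_1154 h, List.forall_mem_cons.2 ⟨f_1155 h, List.forall_mem_cons.2 ⟨f_1156 h, List.forall_mem_cons.2 ⟨f_1157 h, List.forall_mem_cons.2 ⟨f_1158 h, List.forall_mem_cons.2 ⟨f_1159 h, List.forall_mem_cons.2 ⟨f_1160 h, List.forall_mem_cons.2 ⟨f_1161 h,
    fun _ h0 => absurd h0 List.not_mem_nil⟩⟩⟩⟩⟩⟩⟩⟩⟩⟩⟩⟩⟩⟩⟩⟩⟩⟩⟩⟩⟩⟩⟩⟩⟩⟩⟩⟩

def F_1162 : FrX :=
  ⟨0x1001040012008080000e00840800410008101000060000100480102102000880404202000080804240041800044810202010020011000408108104040040,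
    0xa3, 1, 0x10315265708294a3, 8,
    [(0xa3, 1), (0x207584a6, 4), (0x10547693, 4), (0x647593a8, 4), (0x10547693, 4), (0x216485a7, 4), (0x208693a4, 4), (0x647593a8, 4), (0x208693a4, 4), (0x106574a8, 4), (0x647593a8, 4), (0x216485a7, 4)],
    [(0x10315265708294a3, 8), (0x405287a6, 4), (0x40517396, 4), (0x214083a9, 4), (0x405287a6, 4), (0x40517396, 4)]⟩

def c_1162 : frmChk tB tA F_1162 = true := by decide +kernel

def r_1162_0 : chkL rootF engF2 tB tA sB_256 sA_256 4 F_1162 [(511, 0, 0)]
    0x50d6301e06c1e05c1d0791903c1e4640f0b82e = true := by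
  decide +kernel

theorem f_1162 (h : TabsF) : FrameF repsF 256 F_1162.f :=
  frame_of rfl c_1162 (runs_of engOK r_1162_0) (by decide +kernel) h.2 h.1

def F_1163 : FrX :=
  ⟨0x1001040012008080000e008408004100081010000420200210010300020020408102000a0000848040030048021000240044800c04004408004002002008,
    0xa3, 1, 0x104054738692a3, 7,
    [(0xa3, 1), (0x207584a6, 4), (0x10547693, 4), (0x647593a8, 4), (0x10547693, 4), (0x216485a7, 4), (0x208693a4, 4), (0x647593a8, 4), (0x208693a4, 4), (0x106574a8, 4), (0x647593a8, 4), (0x216485a7, 4)],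
    [(0x104054738692a3, 7), (0x316594a8, 4), (0x40517283, 4), (0x317285a6, 4), (0x40517283, 4), (0x618590a3, 4), (0x728694a5, 4), (0x317285a6, 4), (0x728694a5, 4), (0x405381a6, 4), (0x317285a6, 4), (0x618590a3, 4)]⟩

def c_1163 : frmChk tB tB F_1163 = true := by decide +kernel

def r_1163_0 : chkL rootF engF2 tB tB sB_256 sB_256 4 F_1163 [(511, 0, 0)]
    0x6310cc33 = true := by
  decide +kernel

theorem f_1163 (h : TabsF) : FrameF repsF 256 F_1163.f :=
  frame_of rfl c_1163 (runs_of engOK r_1163_0) (by decide +kernel) h.2 h.2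

def F_1164 : FrX :=
  ⟨0x1001040012008080000e00840800410008101000042010100088022000220028400002202200004140008010218420002000808c08010008022104012000,
    0xa3, 1, 0x20315060718491a3, 8,
    [(0xa3, 1), (0x207584a6, 4), (0x10547693, 4), (0x647593a8, 4), (0x10547693, 4), (0x216485a7, 4), (0x208693a4, 4), (0x647593a8, 4), (0x208693a4, 4), (0x106574a8, 4), (0x647593a8, 4), (0x216485a7, 4)],
    [(0x20315060718491a3, 8), (0x546071a2, 4), (0x43718296, 4), (0x537190a8, 4), (0x546071a2, 4), (0x43718296, 4)]⟩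

def c_1164 : frmChk tB tA F_1164 = true := by decide +kernel

def r_1164_0 : chkL rootF engF2 tB tA sB_256 sA_256 4 F_1164 [(511, 0, 0)]
    0x10b84718c2b = true := by
  decide +kernel

theorem f_1164 (h : TabsF) : FrameF repsF 256 F_1164.f :=
  frame_of rfl c_1164 (runs_of engOK r_1164_0) (by decide +kernel) h.2 h.1

def F_1165 : FrX :=
  ⟨0x1001040012008080000e00840800410008101000044201020081028000020810010008082020040040024840401008800014000405024000054002022080,
    0xa3, 1, 0x3051627187a2, 6,
    [(0xa3, 1), (0x207584a6, 4), (0x10547693, 4), (0x647593a8, 4), (0x10547693, 4), (0x216485a7, 4), (0x208693a4, 4), (0x647593a8, 4), (0x208693a4, 4), (0x106574a8, 4), (0x647593a8, 4), (0x216485a7, 4)],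
    [(0x3051627187a2, 6), (0x205481a3, 4), (0x41738296, 4), (0x42508196, 4), (0x41738296, 4), (0x425180a7, 4), (0x405296a3, 4), (0x42508196, 4), (0x405296a3, 4), (0x21507384, 4), (0x42508196, 4), (0x425180a7, 4)]⟩

def c_1165 : frmChk tB tB F_1165 = true := by decide +kernel

def r_1165_0 : chkL rootF engF2 tB tB sB_256 sB_256 4 F_1165 [(255, 0, 0), (256, 0, 21)]
    0x4350740f = true := by
  decide +kernel

def r_1165_1 : chkL rootF engF2 tB tB sB_256 sB_256 4 F_1165 [(256, 21, 0)]
    0x105c1706c0f0e40f = true := by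
  decide +kernel

theorem f_1165 (h : TabsF) : FrameF repsF 256 F_1165.f :=
  frame_of rfl c_1165 ((runs_of engOK r_1165_0).append (runs_of engOK r_1165_1)) (by decide +kernel) h.2 h.2

def F_1166 : FrX :=
  ⟨0x1001040012008080000e00840800410008101000042008024001400100280080808200088020010244410080020408200004009101024000011008011010,
    0xa3, 1, 0x203241618297a4, 7,
    [(0xa3, 1), (0x207584a6, 4), (0x10547693, 4), (0x647593a8, 4), (0x10547693, 4), (0x216485a7, 4), (0x208693a4, 4), (0x647593a8, 4), (0x208693a4, 4), (0x106574a8, 4), (0x647593a8, 4), (0x216485a7, 4)],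
    [(0x203241618297a4, 7), (0x43507182, 4), (0x627193a5, 4), (0x718694a0, 4), (0x43507182, 4), (0x627193a5, 4)]⟩

def c_1166 : frmChk tB tA F_1166 = true := by decide +kernel

def r_1166_0 : chkL rootF engF2 tB tA sB_256 sA_256 4 F_1166 [(511, 0, 0)]
    0x41703c2705c1d689a864417648a59506a07585c1784 = true := by
  decide +kernel

theorem f_1166 (h : TabsF) : FrameF repsF 256 F_1166.f :=
  frame_of rfl c_1166 (runs_of engOK r_1166_0) (by decide +kernel) h.2 h.1

def F_1167 : FrX :=
  ⟨0x600020801080810000c0040180410101001004000a00022800101400080244004002002200020008201012020820040200089400002804020111000201,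
    0xa0, 1, 0x103241527580a8, 7,
    [(0xa0, 1), (0x637584a2, 4), (0x547690a1, 4), (0x64758390, 4), (0x547690a1, 4), (0x21647385, 4), (0x438690a2, 4), (0x64758390, 4), (0x438690a2, 4), (0x657483a1, 4), (0x64758390, 4), (0x21647385, 4)],
    [(0x103241527580a8, 7), (0x728591a6, 4), (0x708491a3, 4), (0x20546391, 4), (0x728591a6, 4), (0x708491a3, 4)]⟩

def c_1167 : frmChk tB tA F_1167 = true := by decide +kernel

def r_1167_0 : chkL rootF engF2 tB tA sB_256 sA_256 4 F_1167 [(255, 0, 0), (256, 0, 22)]
    0x10ac2e0ac2e05c1792417 = true := by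
  decide +kernel

def r_1167_1 : chkL rootF engF2 tB tA sB_256 sA_256 4 F_1167 [(256, 22, 0)]
    0x4171a8360781b0e81714c36 = true := by
  decide +kernel

theorem f_1167 (h : TabsF) : FrameF repsF 256 F_1167.f :=
  frame_of rfl c_1167 ((runs_of engOK r_1167_0).append (runs_of engOK r_1167_1)) (by decide +kernel) h.2 h.1

def F_1168 : FrX :=
  ⟨0x600020801080810000c00401804101010010040100200122000048041802020800008010004220001001120402080a0100081010004004040841010280,
    0xa0, 1, 0x2131527583a0, 6,
    [(0xa0, 1), (0x637584a2, 4), (0x547690a1, 4), (0x64758390, 4), (0x547690a1, 4), (0x21647385, 4), (0x438690a2, 4), (0x64758390, 4), (0x438690a2, 4), (0x657483a1, 4), (0x64758390, 4), (0x21647385, 4)],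
    [(0x2131527583a0, 6), (0x427186a5, 4), (0x617490a3, 4), (0x64718290, 4), (0x617490a3, 4), (0x53647281, 4), (0x628490a5, 4), (0x64718290, 4), (0x628490a5, 4), (0x417682a3, 4), (0x64718290, 4), (0x53647281, 4)]⟩

def c_1168 : frmChk tB tB F_1168 = true := by decide +kernel

def r_1168_0 : chkL rootF engF2 tB tB sB_256 sB_256 4 F_1168 [(511, 0, 0)]
    0x10781e06c3503c2e3142e = true := by
  decide +kernel

theorem f_1168 (h : TabsF) : FrameF repsF 256 F_1168.f :=
  frame_of rfl c_1168 (runs_of engOK r_1168_0) (by decide +kernel) h.2 h.2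

def F_1169 : FrX :=
  ⟨0x2002000900044004000e0204100014100080004081000228010100410080a002000004110000c04200c00080820010001080088002080010080880214044,
    0xa3, 1, 0x324251638193a3, 7,
    [(0xa3, 1), (0x208693a5, 4), (0x10548793, 4), (0x217693a4, 4), (0x208693a5, 4), (0x10548793, 4)],
    [(0x324251638193a3, 7), (0x405371a2, 4), (0x31728096, 4), (0x327196a5, 4), (0x31728096, 4), (0x325184a7, 4), (0x405296a3, 4), (0x327196a5, 4), (0x405296a3, 4), (0x217380a5, 4), (0x327196a5, 4), (0x325184a7, 4)]⟩

def c_1169 : frmChk tA tB F_1169 = true := by decide +kernel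

def r_1169_0 : chkL rootF engF2 tA tB sA_256 sB_256 4 F_1169 [(511, 0, 0)]
    0x103c17 = true := by
  decide +kernel

theorem f_1169 (h : TabsF) : FrameF repsF 256 F_1169.f :=
  frame_of rfl c_1169 (runs_of engOK r_1169_0) (by decide +kernel) h.1 h.2

def F_1170 : FrX :=
  ⟨0x80080a000804040e0000210100200100000204088201080820840000882000000450101020040440080800082020100200010a020004011100a028a0000,
    0xa6, 1, 0x20405463738196a6, 8,
    [(0xa6, 1), (0x205396a8, 4), (0x10548796, 4), (0x214396a7, 4), (0x205396a8, 4), (0x10548796, 4)],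
    [(0x20405463738196a6, 8), (0x407293a1, 4), (0x52618493, 4), (0x758093a6, 4), (0x407293a1, 4), (0x52618493, 4)]⟩

def c_1170 : frmChk tA tA F_1170 = true := by decide +kernel

def r_1170_0 : chkL rootF engF2 tA tA sA_256 sA_256 4 F_1170 [(255, 0, 0), (256, 0, 22)]
    0x54506c5c06c4e164c606c1e = true := by
  decide +kernel

def r_1170_1 : chkL rootF engF2 tA tA sA_256 sA_256 4 F_1170 [(256, 22, 19)]
    0x466 = true := by
  decide +kernel

def r_1170_2 : chkL rootF engF2 tA tA sA_256 sA_256 4 F_1170 [(256, 41, 0)]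
    0x1 = true := by
  decide +kernel

theorem f_1170 (h : TabsF) : FrameF repsF 256 F_1170.f :=
  frame_of rfl c_1170 ((runs_of engOK r_1170_0).append ((runs_of engOK r_1170_1).append (runs_of engOK r_1170_2))) (by decide +kernel) h.1 h.1

def F_1171 : FrX :=
  ⟨0x482000044040440000c204002000900018204001002004280100080804081003001001000003100002008450800800801400a000840120044040800082,
    0xa0, 1, 0x3243517083a4, 6,
    [(0xa0, 1), (0x538690a2, 4), (0x548790a1, 4), (0x21437690, 4), (0x538690a2, 4), (0x548790a1, 4)],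
    [(0x3243517083a4, 6), (0x107386a4, 4), (0x607592a1, 4), (0x108492a6, 4), (0x607592a1, 4), (0x415380a6, 4), (0x647392a8, 4), (0x108492a6, 4), (0x647392a8, 4), (0x617584a0, 4), (0x108492a6, 4), (0x415380a6, 4)]⟩

def c_1171 : frmChk tA tB F_1171 = true := by decide +kernel

def r_1171_0 : chkL rootF engF2 tA tB sA_256 sB_256 4 F_1171 [(255, 0, 0), (256, 0, 24)]
    0x4630781e078368641e4c534 = true := by
  decide +kernel

def r_1171_1 : chkL rootF engF2 tA tB sA_256 sB_256 4 F_1171 [(256, 24, 0)]
    0x10e41d2570506c2e0782d12c1e134530f02b06c35 = true := by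
  decide +kernel

theorem f_1171 (h : TabsF) : FrameF repsF 256 F_1171.f :=
  frame_of rfl c_1171 ((runs_of engOK r_1171_0).append (runs_of engOK r_1171_1)) (by decide +kernel) h.1 h.2

def F_1172 : FrX :=
  ⟨0x482000044040440000c204002000900018204000044024200120008008004801001201008a001000180040408008008010010040480082100101020083,
    0xa0, 1, 0x54617382a0, 5,
    [(0xa0, 1), (0x538690a2, 4), (0x548790a1, 4), (0x21437690, 4), (0x538690a2, 4), (0x548790a1, 4)],
    [(0x54617382a0, 5), (0x217490a8, 4), (0x325490a6, 4), (0x31758690, 4), (0x217490a8, 4), (0x325490a6, 4)]⟩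

def c_1172 : frmChk tA tA F_1172 = true := by decide +kernel

def r_1172_0 : chkL rootF engF2 tA tA sA_256 sA_256 4 F_1172 [(255, 0, 0), (256, 0, 23)]
    0x66111cc50745a0781b0741d3141b = true := by
  decide +kernel

def r_1172_1 : chkL rootF engF2 tA tA sA_256 sA_256 4 F_1172 [(256, 23, 0)]
    0x11641d074c50741d0742b0af21 = true := by
  decide +kernel

theorem f_1172 (h : TabsF) : FrameF repsF 256 F_1172.f :=
  frame_of rfl c_1172 ((runs_of engOK r_1172_0).append (runs_of engOK r_1172_1)) (by decide +kernel) h.1 h.1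

def F_1173 : FrX :=
  ⟨0x80080a000804040e0000210100200100000204088202200004840000881000011108401002001010100800082320200114000108400800c080802820000,
    0xa6, 1, 0x314261748691a2, 7,
    [(0xa6, 1), (0x205396a8, 4), (0x10548796, 4), (0x214396a7, 4), (0x205396a8, 4), (0x10548796, 4)],
    [(0x314261748691a2, 7), (0x516483a0, 4), (0x32647590, 4), (0x647182a9, 4), (0x516483a0, 4), (0x32647590, 4)]⟩

def c_1173 : frmChk tA tA F_1173 = true := by decide +kernel

def r_1173_0 : chkL rootF engF2 tA tA sA_256 sA_256 4 F_1173 [(255, 0, 0), (256, 0, 21)]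
    0x42e194331c4f005c9c28c171381b = true := by
  decide +kernel

def r_1173_1 : chkL rootF engF2 tA tA sA_256 sA_256 4 F_1173 [(256, 21, 0)]
    0x5262a46a327094381b = true := by
  decide +kernel

theorem f_1173 (h : TabsF) : FrameF repsF 256 F_1173.f :=
  frame_of rfl c_1173 ((runs_of engOK r_1173_0).append (runs_of engOK r_1173_1)) (by decide +kernel) h.1 h.1

def F_1174 : FrX :=
  ⟨0x80080a000804040e0000210100200100000204088048040080440040041000002060405010001020005000012851000020048a020012021004042200000,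
    0xa6, 1, 0x2032517592a0, 6,
    [(0xa6, 1), (0x205396a8, 4), (0x10548796, 4), (0x214396a7, 4), (0x205396a8, 4), (0x10548796, 4)],
    [(0x2032517592a0, 6), (0x607184a9, 4), (0x326174a5, 4), (0x32647180, 4), (0x326174a5, 4), (0x10648795, 4), (0x324086a9, 4), (0x32647180, 4), (0x324086a9, 4), (0x417680a5, 4), (0x32647180, 4), (0x10648795, 4)]⟩

def c_1174 : frmChk tA tB F_1174 = true := by decide +kernel

def r_1174_0 : chkL rootF engF2 tA tB sA_256 sB_256 4 F_1174 [(511, 0, 0)]
    0x10b45506d4903c1e21c8703cc303c5a6148b2351c14c6514c8724c871d074 = true := by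
  decide +kernel

theorem f_1174 (h : TabsF) : FrameF repsF 256 F_1174.f :=
  frame_of rfl c_1174 (runs_of engOK r_1174_0) (by decide +kernel) h.1 h.2

def F_1175 : FrX :=
  ⟨0x1c404400000808100000084008041000010108404210200000108100010200004204052022001000043001012300024008000800888450c004003000000,
    0x0, 0, 0x4376, 2,
    [(0x0, 0), (0x20637584, 4), (0x105476a9, 4), (0x647583a9, 4), (0x105476a9, 4), (0x21647385, 4), (0x204386a9, 4), (0x647583a9, 4), (0x204386a9, 4), (0x10657483, 4), (0x647583a9, 4), (0x21647385, 4)],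
    [(0x4376, 2), (0x205487a9, 4), (0x105386a9, 4), (0x214376a9, 4), (0x205487a9, 4), (0x105386a9, 4)]⟩

def c_1175 : frmChk tB tA F_1175 = true := by decide +kernel

def r_1175_0 : chkL rootF engF2 tB tA sB_256 sA_256 4 F_1175 [(255, 0, 0), (256, 0, 21)]
    0x1134cc = true := by
  decide +kernel

def r_1175_1 : chkL rootF engF2 tB tA sB_256 sA_256 4 F_1175 [(256, 21, 0)]
    0x1 = true := by
  decide +kernel

theorem f_1175 (h : TabsF) : FrameF repsF 256 F_1175.f :=
  frame_of rfl c_1175 ((runs_of engOK r_1175_0).append (runs_of engOK r_1175_1)) (by decide +kernel) h.2 h.1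

def F_1176 : FrX :=
  ⟨0x600020801080810000c0040180410101001004001040500000030042001040081012020000220008084100108000240284000600002824000100409003,
    0xa0, 1, 0x104153758091a3, 7,
    [(0xa0, 1), (0x637584a2, 4), (0x547690a1, 4), (0x64758390, 4), (0x547690a1, 4), (0x21647385, 4), (0x438690a2, 4), (0x64758390, 4), (0x438690a2, 4), (0x657483a1, 4), (0x64758390, 4), (0x21647385, 4)],
    [(0x104153758091a3, 7), (0x107382a6, 4), (0x54637098, 4), (0x546073a1, 4), (0x54637098, 4), (0x607192a3, 4), (0x546182a0, 4), (0x546073a1, 4), (0x546182a0, 4), (0x307698a1, 4), (0x546073a1, 4), (0x607192a3, 4)]⟩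

def c_1176 : frmChk tB tB F_1176 = true := by decide +kernel

def r_1176_0 : chkL rootF engF2 tB tB sB_256 sB_256 4 F_1176 [(511, 0, 0)]
    0x1074270d8360741b07827 = true := by
  decide +kernel

theorem f_1176 (h : TabsF) : FrameF repsF 256 F_1176.f :=
  frame_of rfl c_1176 (runs_of engOK r_1176_0) (by decide +kernel) h.2 h.2

def F_1177 : FrX :=
  ⟨0x1001040012008080000e00840800410008101000066000040040022002000880442000122000004040022808401000802042900808004400500102000104,
    0xa3, 1, 0x3140537285a5, 6,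
    [(0xa3, 1), (0x207584a6, 4), (0x10547693, 4), (0x647593a8, 4), (0x10547693, 4), (0x216485a7, 4), (0x208693a4, 4), (0x647593a8, 4), (0x208693a4, 4), (0x106574a8, 4), (0x647593a8, 4), (0x216485a7, 4)],
    [(0x3140537285a5, 6), (0x617498a5, 4), (0x214398a0, 4), (0x50627398, 4), (0x617498a5, 4), (0x214398a0, 4)]⟩

def c_1177 : frmChk tB tA F_1177 = true := by decide +kernel

def r_1177_0 : chkL rootF engF2 tB tA sB_256 sA_256 4 F_1177 [(255, 0, 0), (256, 0, 21)]
    0x113853 = true := by
  decide +kernel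

def r_1177_1 : chkL rootF engF2 tB tA sB_256 sA_256 4 F_1177 [(256, 21, 0)]
    0x51c4581e4c52309c1721c3c9510e1391c = true := by
  decide +kernel

theorem f_1177 (h : TabsF) : FrameF repsF 256 F_1177.f :=
  frame_of rfl c_1177 ((runs_of engOK r_1177_0).append (runs_of engOK r_1177_1)) (by decide +kernel) h.2 h.1

def F_1178 : FrX :=
  ⟨0x600020801080810000c0040180410101001004010020042800001440880022008002001000422048000112100001240084008000404000014201010a80,
    0xa0, 1, 0x3152637095a5, 6,
    [(0xa0, 1), (0x637584a2, 4), (0x547690a1, 4), (0x64758390, 4), (0x547690a1, 4), (0x21647385, 4), (0x438690a2, 4), (0x64758390, 4), (0x438690a2, 4), (0x657483a1, 4), (0x64758390, 4), (0x21647385, 4)],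
    [(0x3152637095a5, 6), (0x758192a6, 4), (0x738092a4, 4), (0x10536492, 4), (0x758192a6, 4), (0x738092a4, 4)]⟩

def c_1178 : frmChk tB tA F_1178 = true := by decide +kernel

def r_1178_0 : chkL rootF engF2 tB tA sB_256 sA_256 4 F_1178 [(511, 0, 0)]
    0x41e03c4e0e929074631c84e1382e0ac72 = true := by
  decide +kernel

theorem f_1178 (h : TabsF) : FrameF repsF 256 F_1178.f :=
  frame_of rfl c_1178 (runs_of engOK r_1178_0) (by decide +kernel) h.2 h.1

def F_1179 : FrX :=
  ⟨0x1001040012008080000e0084080041000810100004200810010104210200200080820008202020024000480001080880001404140101040040c100041010,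
    0xa3, 1, 0x415061728394a3, 7,
    [(0xa3, 1), (0x207584a6, 4), (0x10547693, 4), (0x647593a8, 4), (0x10547693, 4), (0x216485a7, 4), (0x208693a4, 4), (0x647593a8, 4), (0x208693a4, 4), (0x106574a8, 4), (0x647593a8, 4), (0x216485a7, 4)],
    [(0x415061728394a3, 7), (0x207593a4, 4), (0x42658190, 4), (0x208194a3, 4), (0x42658190, 4), (0x307694a2, 4), (0x437581a9, 4), (0x208194a3, 4), (0x437581a9, 4), (0x406592a3, 4), (0x208194a3, 4), (0x307694a2, 4)]⟩

def c_1179 : frmChk tB tB F_1179 = true := by decide +kernel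

def r_1179_0 : chkL rootF engF2 tB tB sB_256 sB_256 4 F_1179 [(255, 0, 0), (256, 0, 11)]
    0x1 = true := by
  decide +kernel

def r_1179_1 : chkL rootF engF2 tB tB sB_256 sB_256 4 F_1179 [(256, 11, 15)]
    0x1 = true := by
  decide +kernel

def r_1179_2 : chkL rootF engF2 tB tB sB_256 sB_256 4 F_1179 [(256, 26, 0)]
    0x5255285a = true := by
  decide +kernel

theorem f_1179 (h : TabsF) : FrameF repsF 256 F_1179.f :=
  frame_of rfl c_1179 ((runs_of engOK r_1179_0).append ((runs_of engOK r_1179_1).append (runs_of engOK r_1179_2))) (by decide +kernel) h.2 h.2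

def F_1180 : FrX :=
  ⟨0x482000044040440000c2040020009000182040020002080100020280a80044000012000081040220800020808001140081010000448002005080808082,
    0xa0, 1, 0x10324351718596a1, 8,
    [(0xa0, 1), (0x538690a2, 4), (0x548790a1, 4), (0x21437690, 4), (0x538690a2, 4), (0x548790a1, 4)],
    [(0x10324351718596a1, 8), (0x20318594, 4), (0x768295a1, 4), (0x40768592, 4), (0x768295a1, 4), (0x548092a3, 4), (0x31427690, 4), (0x40768592, 4), (0x31427690, 4), (0x405298a1, 4), (0x40768592, 4), (0x548092a3, 4)]⟩

def c_1180 : frmChk tA tB F_1180 = true := by decide +kernel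

def r_1180_0 : chkL rootF engF2 tA tB sA_256 sB_256 4 F_1180 [(511, 0, 0)]
    0x12541e = true := by
  decide +kernel

theorem f_1180 (h : TabsF) : FrameF repsF 256 F_1180.f :=
  frame_of rfl c_1180 (runs_of engOK r_1180_0) (by decide +kernel) h.1 h.2

def F_1181 : FrX :=
  ⟨0x2002000900044004000e02041000141000800040820101001100202008202101000204020808010004080404820000802040200084083100200220201001,
    0xa3, 1, 0x102052607081a0, 7,
    [(0xa3, 1), (0x208693a5, 4), (0x10548793, 4), (0x217693a4, 4), (0x208693a5, 4), (0x10548793, 4)],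
    [(0x102052607081a0, 7), (0x203197a5, 4), (0x416097a8, 4), (0x43628597, 4), (0x203197a5, 4), (0x416097a8, 4)]⟩

def c_1181 : frmChk tA tA F_1181 = true := by decide +kernel

def r_1181_0 : chkL rootF engF2 tA tA sA_256 sA_256 4 F_1181 [(511, 0, 0)]
    0x10cc1b06c5c = true := by
  decide +kernel

theorem f_1181 (h : TabsF) : FrameF repsF 256 F_1181.f :=
  frame_of rfl c_1181 (runs_of engOK r_1181_0) (by decide +kernel) h.1 h.1

def F_1182 : FrX :=
  ⟨0x482000044040440000c2040020009000182040020002080100100208014044004400100081040220800020808001801224102020108000004204800042,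
    0xa0, 1, 0x103265708193a8, 7,
    [(0xa0, 1), (0x538690a2, 4), (0x548790a1, 4), (0x21437690, 4), (0x538690a2, 4), (0x548790a1, 4)],
    [(0x103265708193a8, 7), (0x207396a5, 4), (0x206487a1, 4), (0x20518394, 4), (0x207396a5, 4), (0x206487a1, 4)]⟩

def c_1182 : frmChk tA tA F_1182 = true := by decide +kernel

def r_1182_0 : chkL rootF engF2 tA tA sA_256 sA_256 4 F_1182 [(511, 0, 0)]
    0x41b06c170781d07545 = true := by
  decide +kernel

theorem f_1182 (h : TabsF) : FrameF repsF 256 F_1182.f :=
  frame_of rfl c_1182 (runs_of engOK r_1182_0) (by decide +kernel) h.1 h.1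

def F_1183 : FrX :=
  ⟨0x2002000900044004000e02041000141000800040800801014000824101040082000004100888000224000100800048120500000026101008001004214040,
    0xa3, 1, 0x4162708798a7, 6,
    [(0xa3, 1), (0x208693a5, 4), (0x10548793, 4), (0x217693a4, 4), (0x208693a5, 4), (0x10548793, 4)],
    [(0x4162708798a7, 6), (0x327691a5, 4), (0x517480a2, 4), (0x218093a5, 4), (0x517480a2, 4), (0x216495a3, 4), (0x31768092, 4), (0x218093a5, 4), (0x31768092, 4), (0x527493a1, 4), (0x218093a5, 4), (0x216495a3, 4)]⟩

def c_1183 : frmChk tA tB F_1183 = true := by decide +kernel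

def r_1183_0 : chkL rootF engF2 tA tB sA_256 sB_256 4 F_1183 [(511, 0, 0)]
    0x103c1b2340f0743906c3903c33 = true := by
  decide +kernel

theorem f_1183 (h : TabsF) : FrameF repsF 256 F_1183.f :=
  frame_of rfl c_1183 (runs_of engOK r_1183_0) (by decide +kernel) h.1 h.2

def F_1184 : FrX :=
  ⟨0x1001040012008080000e00840800410008101000060000084040102820220810008000200020812000240250440010084240009008000440020003000084,
    0xa3, 1, 0x213142617496a8, 7,
    [(0xa3, 1), (0x207584a6, 4), (0x10547693, 4), (0x647593a8, 4), (0x10547693, 4), (0x216485a7, 4), (0x208693a4, 4), (0x647593a8, 4), (0x208693a4, 4), (0x106574a8, 4), (0x647593a8, 4), (0x216485a7, 4)],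
    [(0x213142617496a8, 7), (0x405283a9, 4), (0x607583a1, 4), (0x64728391, 4), (0x405283a9, 4), (0x607583a1, 4)]⟩

def c_1184 : frmChk tB tA F_1184 = true := by decide +kernel

def r_1184_0 : chkL rootF engF2 tB tA sB_256 sA_256 4 F_1184 [(255, 0, 0), (256, 0, 22)]
    0x103c4b4342e = true := by
  decide +kernel

def r_1184_1 : chkL rootF engF2 tB tA sB_256 sA_256 4 F_1184 [(256, 22, 0)]
    0x51683835897050e83a8c80f = true := by
  decide +kernel

theorem f_1184 (h : TabsF) : FrameF repsF 256 F_1184.f :=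
  frame_of rfl c_1184 ((runs_of engOK r_1184_0).append (runs_of engOK r_1184_1)) (by decide +kernel) h.2 h.1

def F_1185 : FrX :=
  ⟨0x1001040012008080000e00840800410008101000060000028080048100180084480000080200084220448008401020022000308200010001008402800108,
    0xa3, 1, 0x2032415065738495a6, 9,
    [(0xa3, 1), (0x207584a6, 4), (0x10547693, 4), (0x647593a8, 4), (0x10547693, 4), (0x216485a7, 4), (0x208693a4, 4), (0x647593a8, 4), (0x208693a4, 4), (0x106574a8, 4), (0x647593a8, 4), (0x216485a7, 4)],
    [(0x2032415065738495a6, 9), (0x536297a1, 4), (0x10546298, 4), (0x436287a0, 4), (0x536297a1, 4), (0x10546298, 4)]⟩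

def c_1185 : frmChk tB tA F_1185 = true := by decide +kernel

def r_1185_0 : chkL rootF engF2 tB tA sB_256 sA_256 4 F_1185 [(255, 0, 0), (256, 0, 20)]
    0x10783305c1e1348e03d1305cc9458174581e05c35 = true := by
  decide +kernel

def r_1185_1 : chkL rootF engF2 tB tA sB_256 sA_256 4 F_1185 [(256, 20, 0)]
    0x103c2709c33459166841e21c17 = true := by
  decide +kernel

theorem f_1185 (h : TabsF) : FrameF repsF 256 F_1185.f :=
  frame_of rfl c_1185 ((runs_of engOK r_1185_0).append (runs_of engOK r_1185_1)) (by decide +kernel) h.2 h.1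

def F_1186 : FrX :=
  ⟨0x1001040012008080000e0084080041000810100004090000446001002000088280820000202080080003001012040041004800010a024020082001011800,
    0xa3, 1, 0x2132417181a3, 6,
    [(0xa3, 1), (0x207584a6, 4), (0x10547693, 4), (0x647593a8, 4), (0x10547693, 4), (0x216485a7, 4), (0x208693a4, 4), (0x647593a8, 4), (0x208693a4, 4), (0x106574a8, 4), (0x647593a8, 4), (0x216485a7, 4)],
    [(0x2132417181a3, 6), (0x305472a6, 4), (0x52648091, 4), (0x546291a7, 4), (0x52648091, 4), (0x627583a4, 4), (0x307691a2, 4), (0x546291a7, 4), (0x307691a2, 4), (0x426580a7, 4), (0x546291a7, 4), (0x627583a4, 4)]⟩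

def c_1186 : frmChk tB tB F_1186 = true := by decide +kernel

def r_1186_0 : chkL rootF engF2 tB tB sB_256 sB_256 4 F_1186 [(255, 0, 0), (256, 0, 21)]
    0x4170b89c0741d0cc2e = true := by
  decide +kernel

def r_1186_1 : chkL rootF engF2 tB tB sB_256 sB_256 4 F_1186 [(256, 21, 0)]
    0x10789c2582e05c170ce3103c170cc0f03c1b05c9ca602e = true := by
  decide +kernel

theorem f_1186 (h : TabsF) : FrameF repsF 256 F_1186.f :=
  frame_of rfl c_1186 ((runs_of engOK r_1186_0).append (runs_of engOK r_1186_1)) (by decide +kernel) h.2 h.2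

def F_1187 : FrX :=
  ⟨0x2002000900044004000e02041000141000800040810048024010000209000081040202010000030202000422020408142281810000080008002100008050,
    0xa3, 1, 0x2132517185a1, 6,
    [(0xa3, 1), (0x208693a5, 4), (0x10548793, 4), (0x217693a4, 4), (0x208693a5, 4), (0x10548793, 4)],
    [(0x2132517185a1, 6), (0x30628197, 4), (0x528497a0, 4), (0x416597a3, 4), (0x30628197, 4), (0x528497a0, 4)]⟩

def c_1187 : frmChk tA tA F_1187 = true := by decide +kernel

def r_1187_0 : chkL rootF engF2 tA tA sA_256 sA_256 4 F_1187 [(511, 0, 0)]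
    0x45c2a4270e44d1a81d09d19 = true := by
  decide +kernel

theorem f_1187 (h : TabsF) : FrameF repsF 256 F_1187.f :=
  frame_of rfl c_1187 (runs_of engOK r_1187_0) (by decide +kernel) h.1 h.1

def F_1188 : FrX :=
  ⟨0x482000044040440000c2040020009000182040020001042009020080040050010012030000031400020004508000048084008200840420004004800082,
    0xa0, 1, 0x324250708390a3, 7,
    [(0xa0, 1), (0x538690a2, 4), (0x548790a1, 4), (0x21437690, 4), (0x538690a2, 4), (0x548790a1, 4)],
    [(0x324250708390a3, 7), (0x325094a6, 4), (0x30658791, 4), (0x506387a2, 4), (0x30658791, 4), (0x204163a5, 4), (0x628794a3, 4), (0x506387a2, 4), (0x628794a3, 4), (0x536091a2, 4), (0x506387a2, 4), (0x204163a5, 4)]⟩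

def c_1188 : frmChk tA tB F_1188 = true := by decide +kernel

def r_1188_0 : chkL rootF engF2 tA tB sA_256 sB_256 4 F_1188 [(511, 0, 0)]
    0x41b4d09c03c56d084711c1d = true := by
  decide +kernel

theorem f_1188 (h : TabsF) : FrameF repsF 256 F_1188.f :=
  frame_of rfl c_1188 (runs_of engOK r_1188_0) (by decide +kernel) h.1 h.2

def F_1189 : FrX :=
  ⟨0x2002000900044004000e02041000141000800040808001001101020401040042000284000a008102420000088200488000400010050800002440c0214000,
    0xa3, 1, 0x63718596a8, 5,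
    [(0xa3, 1), (0x208693a5, 4), (0x10548793, 4), (0x217693a4, 4), (0x208693a5, 4), (0x10548793, 4)],
    [(0x63718596a8, 5), (0x208196a4, 4), (0x53708491, 4), (0x538194a6, 4), (0x53708491, 4), (0x617294a8, 4), (0x205364a9, 4), (0x538194a6, 4), (0x205364a9, 4), (0x417098a6, 4), (0x538194a6, 4), (0x617294a8, 4)]⟩

def c_1189 : frmChk tA tB F_1189 = true := by decide +kernel

def r_1189_0 : chkL rootF engF2 tA tB sA_256 sB_256 4 F_1189 [(511, 0, 0)]
    0x42703c0f09c2d1382b = true := by
  decide +kernel

theorem f_1189 (h : TabsF) : FrameF repsF 256 F_1189.f :=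
  frame_of rfl c_1189 (runs_of engOK r_1189_0) (by decide +kernel) h.1 h.2

theorem cl_256 (h : TabsF) : ∀ f ∈ fr_256, FrameF repsF 256 f :=
  List.forall_mem_cons.2 ⟨f_1162 h, List.forall_mem_cons.2 ⟨f_1163 h, List.forall_mem_cons.2 ⟨f_1164 h, List.forall_mem_cons.2 ⟨f_1165 h, List.forall_mem_cons.2 ⟨f_1166 h, List.forall_mem_cons.2 ⟨f_1167 h, List.forall_mem_cons.2 ⟨f_1168 h, List.forall_mem_cons.2 ⟨f_1169 h, List.forall_mem_cons.2 ⟨f_1170 h, List.forall_mem_cons.2 ⟨f_1171 h, List.forall_mem_cons.2 ⟨f_1172 h, List.forall_mem_cons.2 ⟨f_1173 h, List.forall_mem_cons.2 ⟨f_1174 h, List.forall_mem_cons.2 ⟨f_1175 h, List.forall_mem_cons.2 ⟨f_1176 h, List.forall_mem_cons.2 ⟨f_1177 h, List.forall_mem_cons.2 ⟨f_1178 h, List.forall_mem_cons.2 ⟨f_1179 h, List.forall_mem_cons.2 ⟨f_1180 h, List.forall_mem_cons.2 ⟨f_1181 h, List.forall_mem_cons.2 ⟨f_1182 h, List.forall_mem_cons.2 ⟨f_1183 h, List.forall_mem_cons.2 ⟨f_1184 h, List.forall_mem_cons.2 ⟨f_1185 h, List.forall_mem_cons.2 ⟨f_1186 h, List.forall_mem_cons.2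 ⟨f_1187 h, List.forall_mem_cons.2 ⟨f_1188 h, List.forall_mem_cons.2 ⟨f_1189 h,
    fun _ h0 => absurd h0 List.not_mem_nil⟩⟩⟩⟩⟩⟩⟩⟩⟩⟩⟩⟩⟩⟩⟩⟩⟩⟩⟩⟩⟩⟩⟩⟩⟩⟩⟩⟩

/-- the classes finished in this module -/
theorem all_L12 (h : TabsF) : ∀ p ∈ ([(252, fr_252), (253, fr_253), (254, fr_254), (255, fr_255), (256, fr_256)] : List (ℕ × List ℕ)),
    ∀ f ∈ p.2, FrameF repsF p.1 f :=
  List.forall_mem_cons.2 ⟨cl_252 h, List.forall_mem_cons.2 ⟨cl_253 h, List.forall_mem_cons.2 ⟨cl_254 h, List.forall_mem_cons.2 ⟨cl_255 h, List.forall_mem_cons.2 ⟨cl_256 h, fun _ h0 => absurd h0 List.not_mem_nil⟩⟩⟩⟩⟩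

end Pool.Agent.Gen.TY.F
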