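import Pool.Agent.Helper20.TY.EngF
import Pool.Agent.Helper20.TY.TabG
import Pool.Agent.Gen.TY.FS.SufA
import Pool.Agent.Gen.TY.FS.SufB
import Pool.Agent.Gen.TY.FR.Dat

/-!
MP_8ee768_co, project TH-Y', stage F: frames.
-/

set_option autoImplicit false

namespace Pool.Agent.Gen.TY.F

open Pool.Agent.Helper79.CV
open Pool.Agent.Helper20.TY
open Pool.Agent.Helper20.TY.EngF
open Pool.Agent.Gen.TY.FS
open Pool.Agent.Gen.TY.FR

def F_1342 : FrX :=
  ⟨0x1001040012008080000e0084080041000810100004042600042000280008002003020080110040014000000c444030004050020007000800460101000040,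
    0xa3, 1, 0x103241506273a2, 7,
    [(0xa3, 1), (0x207584a6, 4), (0x10547693, 4), (0x647593a8, 4), (0x10547693, 4), (0x216485a7, 4), (0x208693a4, 4), (0x647593a8, 4), (0x208693a4, 4), (0x106574a8, 4), (0x647593a8, 4), (0x216485a7, 4)],
    [(0x103241506273a2, 7), (0x718396a5, 4), (0x10548296, 4), (0x327096a4, 4), (0x718396a5, 4), (0x10548296, 4)]⟩

def c_1342 : frmChk tB tA F_1342 = true := by decide +kernel

def r_1342_0 : chkL rootF engF2 tB tA sB_264 sA_264 4 F_1342 [(255, 0, 0), (256, 0, 20)]
    0x107839 = true := by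
  decide +kernel

def r_1342_1 : chkL rootF engF2 tB tA sB_264 sA_264 4 F_1342 [(256, 20, 0)]
    0x43606c1b = true := by
  decide +kernel

theorem f_1342 (h : TabsF) : FrameF repsF 264 F_1342.f :=
  frame_of rfl c_1342 ((runs_of engOK r_1342_0).append (runs_of engOK r_1342_1)) (by decide +kernel) h.2 h.1

def F_1343 : FrX :=
  ⟨0x1001040012008080000e008408004100081010000420800200a00100043200084000022010801008800a1200208030004000201210000001090408030200,
    0xa3, 1, 0x638297a3, 4,
    [(0xa3, 1), (0x207584a6, 4), (0x10547693, 4), (0x647593a8, 4), (0x10547693, 4), (0x216485a7, 4), (0x208693a4, 4), (0x647593a8, 4), (0x208693a4, 4), (0x106574a8, 4), (0x647593a8, 4), (0x216485a7, 4)],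
    [(0x638297a3, 4), (0x428095a3, 4), (0x10547693, 4), (0x437695a2, 4), (0x10547693, 4), (0x435281a9, 4), (0x327680a4, 4), (0x437695a2, 4), (0x327680a4, 4), (0x105394a2, 4), (0x437695a2, 4), (0x435281a9, 4)]⟩

def c_1343 : frmChk tB tB F_1343 = true := by decide +kernel

def r_1343_0 : chkL rootF engF2 tB tB sB_264 sB_264 4 F_1343 [(511, 0, 0)]
    0x1 = true := by
  decide +kernel

theorem f_1343 (h : TabsF) : FrameF repsF 264 F_1343.f :=
  frame_of rfl c_1343 (runs_of engOK r_1343_0) (by decide +kernel) h.2 h.2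

def F_1344 : FrX :=
  ⟨0x1001040012008080000e00840800410008101000042010041020010004080050030108008020011008402082000c0020208400c001100080060004800140,
    0xa3, 1, 0x4360718295a3, 6,
    [(0xa3, 1), (0x207584a6, 4), (0x10547693, 4), (0x647593a8, 4), (0x10547693, 4), (0x216485a7, 4), (0x208693a4, 4), (0x647593a8, 4), (0x208693a4, 4), (0x106574a8, 4), (0x647593a8, 4), (0x216485a7, 4)],
    [(0x4360718295a3, 6), (0x328691a0, 4), (0x10547693, 4), (0x305491a2, 4), (0x10547693, 4), (0x308792a1, 4), (0x205486a3, 4), (0x305491a2, 4), (0x205486a3, 4), (0x317690a2, 4), (0x305491a2, 4), (0x308792a1, 4)]⟩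

def c_1344 : frmChk tB tB F_1344 = true := by decide +kernel

def r_1344_0 : chkL rootF engF2 tB tB sB_264 sB_264 4 F_1344 [(511, 0, 0)]
    0x106c0f22c0f0b43525466 = true := by
  decide +kernel

theorem f_1344 (h : TabsF) : FrameF repsF 264 F_1344.f :=
  frame_of rfl c_1344 (runs_of engOK r_1344_0) (by decide +kernel) h.2 h.2

def F_1345 : FrX :=
  ⟨0x600020801080810000c004018041010100100400401400080002404080a00000c802001080020184080200120838000400020110000804008099000001,
    0xa0, 1, 0x10418196a4, 5,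
    [(0xa0, 1), (0x637584a2, 4), (0x547690a1, 4), (0x64758390, 4), (0x547690a1, 4), (0x21647385, 4), (0x438690a2, 4), (0x64758390, 4), (0x438690a2, 4), (0x657483a1, 4), (0x64758390, 4), (0x21647385, 4)],
    [(0x10418196a4, 5), (0x21536094, 4), (0x607481a5, 4), (0x608297a3, 4), (0x21536094, 4), (0x607481a5, 4)]⟩

def c_1345 : frmChk tB tA F_1345 = true := by decide +kernel

def r_1345_0 : chkL rootF engF2 tB tA sB_264 sA_264 4 F_1345 [(511, 0, 0)]
    0x105c3a0741e = true := by
  decide +kernel

theorem f_1345 (h : TabsF) : FrameF repsF 264 F_1345.f :=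
  frame_of rfl c_1345 (runs_of engOK r_1345_0) (by decide +kernel) h.2 h.1

def F_1346 : FrX :=
  ⟨0x600020801080810000c0040180410101001004001200012200022800080424040000800898010020202100008038030000000200800081040c00220300,
    0xa0, 1, 0x315264a0, 4,
    [(0xa0, 1), (0x637584a2, 4), (0x547690a1, 4), (0x64758390, 4), (0x547690a1, 4), (0x21647385, 4), (0x438690a2, 4), (0x64758390, 4), (0x438690a2, 4), (0x657483a1, 4), (0x64758390, 4), (0x21647385, 4)],
    [(0x315264a0, 4), (0x417286a5, 4), (0x627490a3, 4), (0x64728190, 4), (0x627490a3, 4), (0x53647182, 4), (0x618490a5, 4), (0x64728190, 4), (0x618490a5, 4), (0x427681a3, 4), (0x64728190, 4), (0x53647182, 4)]⟩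

def c_1346 : frmChk tB tB F_1346 = true := by decide +kernel

def r_1346_0 : chkL rootF engF2 tB tB sB_264 sB_264 4 F_1346 [(511, 0, 0)]
    0x1258a922c1b18c8b05e2603c2b5a02b0b42b0ac2d0752688f224580f09d2c8370c03c0f2345c360698b0170e40f0748b03c2b = true := by
  decide +kernel

theorem f_1346 (h : TabsF) : FrameF repsF 264 F_1346.f :=
  frame_of rfl c_1346 (runs_of engOK r_1346_0) (by decide +kernel) h.2 h.2

def F_1347 : FrX :=
  ⟨0x482000044040440000c2040020009000182040010040042000800810680008100010101001080112200810480038000000091004000004040904110010,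
    0xa0, 1, 0x608597a0, 4,
    [(0xa0, 1), (0x538690a2, 4), (0x548790a1, 4), (0x21437690, 4), (0x538690a2, 4), (0x548790a1, 4)],
    [(0x608597a0, 4), (0x507683a2, 4), (0x768495a1, 4), (0x21437690, 4), (0x507683a2, 4), (0x768495a1, 4)]⟩

def c_1347 : frmChk tA tA F_1347 = true := by decide +kernel

def r_1347_0 : chkL rootF engF2 tA tA sA_264 sA_264 4 F_1347 [(511, 0, 0)]
    0x106c8d1d09316a4c45651 = true := by
  decide +kernel

theorem f_1347 (h : TabsF) : FrameF repsF 264 F_1347.f :=
  frame_of rfl c_1347 (runs_of engOK r_1347_0) (by decide +kernel) h.1 h.1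

def F_1348 : FrX :=
  ⟨0x80080a000804040e0000210100200100000204088042100201c080000200001001102060002520080028800020200000d000420400c2801100000220200,
    0xa6, 1, 0x3241508697a6, 6,
    [(0xa6, 1), (0x205396a8, 4), (0x10548796, 4), (0x214396a7, 4), (0x205396a8, 4), (0x10548796, 4)],
    [(0x3241508697a6, 6), (0x205387a6, 4), (0x10548796, 4), (0x214387a9, 4), (0x205387a6, 4), (0x10548796, 4)]⟩

def c_1348 : frmChk tA tA F_1348 = true := by decide +kernel

def r_1348_0 : chkL rootF engF2 tA tA sA_264 sA_264 4 F_1348 [(511, 0, 0)]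
    0x1 = true := by
  decide +kernel

theorem f_1348 (h : TabsF) : FrameF repsF 264 F_1348.f :=
  frame_of rfl c_1348 (runs_of engOK r_1348_0) (by decide +kernel) h.1 h.1

def F_1349 : FrX :=
  ⟨0x2002000900044004000e0204100014100080004080040108812000420000a202100000104022500480020200020030000c00820000800806040210008210,
    0xa3, 1, 0x405162a3, 4,
    [(0xa3, 1), (0x208693a5, 4), (0x10548793, 4), (0x217693a4, 4), (0x208693a5, 4), (0x10548793, 4)],
    [(0x405162a3, 4), (0x648293a1, 4), (0x10548793, 4), (0x657293a0, 4), (0x648293a1, 4), (0x10548793, 4)]⟩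

def c_1349 : frmChk tA tA F_1349 = true := by decide +kernel

def r_1349_0 : chkL rootF engF2 tA tA sA_264 sA_264 4 F_1349 [(511, 0, 0)]
    0x10e88d28c2b0e88d28c2b21e1a24e1321e1a24e13 = true := by
  decide +kernel

theorem f_1349 (h : TabsF) : FrameF repsF 264 F_1349.f :=
  frame_of rfl c_1349 (runs_of engOK r_1349_0) (by decide +kernel) h.1 h.1

theorem cl_264 (h : TabsF) : ∀ f ∈ fr_264, FrameF repsF 264 f :=
  List.forall_mem_cons.2 ⟨f_1342 h, List.forall_mem_cons.2 ⟨f_1343 h, List.forall_mem_cons.2 ⟨f_1344 h, List.forall_mem_cons.2 ⟨f_1345 h, List.forall_mem_cons.2 ⟨f_1346 h, List.forall_mem_cons.2 ⟨f_1347 h, List.forall_mem_cons.2 ⟨f_1348 h, List.forall_mem_cons.2 ⟨f_1349 h,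
    fun _ h0 => absurd h0 List.not_mem_nil⟩⟩⟩⟩⟩⟩⟩⟩

def F_1350 : FrX :=
  ⟨0x1001040012008080000e00840800410008101000040480040404202002000420032000801100401040044004444020a000000808060208000601010000c0,
    0xa3, 1, 0x203152658297a1, 7,
    [(0xa3, 1), (0x207584a6, 4), (0x10547693, 4), (0x647593a8, 4), (0x10547693, 4), (0x216485a7, 4), (0x208693a4, 4), (0x647593a8, 4), (0x208693a4, 4), (0x106574a8, 4), (0x647593a8, 4), (0x216485a7, 4)],
    [(0x203152658297a1, 7), (0x10548296, 4), (0x647390a2, 4), (0x40517396, 4), (0x647390a2, 4), (0x406591a8, 4), (0x41507382, 4), (0x40517396, 4), (0x41507382, 4), (0x516094a2, 4), (0x40517396, 4), (0x406591a8, 4)]⟩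

def c_1350 : frmChk tB tB F_1350 = true := by decide +kernel

def r_1350_0 : chkL rootF engF2 tB tB sB_265 sB_265 4 F_1350 [(255, 0, 0), (256, 0, 19)]
    0x49c254d12981d138632e01d0e81b = true := by
  decide +kernel

def r_1350_1 : chkL rootF engF2 tB tB sB_265 sB_265 4 F_1350 [(256, 19, 0)]
    0x4d405cd405ce4b80b8360b8360e4b8093 = true := by
  decide +kernel

theorem f_1350 (h : TabsF) : FrameF repsF 265 F_1350.f :=
  frame_of rfl c_1350 ((runs_of engOK r_1350_0).append (runs_of engOK r_1350_1)) (by decide +kernel) h.2 h.2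

def F_1351 : FrX :=
  ⟨0x1001040012008080000e00840800410008101000040420100404202002004020030200801100401040804004064020a00000080806020800022101001040,
    0xa3, 1, 0x1021304165728298a0, 9,
    [(0xa3, 1), (0x207584a6, 4), (0x10547693, 4), (0x647593a8, 4), (0x10547693, 4), (0x216485a7, 4), (0x208693a4, 4), (0x647593a8, 4), (0x208693a4, 4), (0x106574a8, 4), (0x647593a8, 4), (0x216485a7, 4)],
    [(0x1021304165728298a0, 9), (0x617395a8, 4), (0x627390a4, 4), (0x21507384, 4), (0x617395a8, 4), (0x627390a4, 4)]⟩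

def c_1351 : frmChk tB tA F_1351 = true := by decide +kernel

def r_1351_0 : chkL rootF engF2 tB tA sB_265 sA_265 4 F_1351 [(255, 0, 0), (256, 0, 18)]
    0x10cc330b83a0ce8a05c17 = true := by
  decide +kernel

def r_1351_1 : chkL rootF engF2 tB tA sB_265 sA_265 4 F_1351 [(256, 18, 23)]
    0x11c469 = true := by
  decide +kernel

def r_1351_2 : chkL rootF engF2 tB tA sB_265 sA_265 4 F_1351 [(256, 41, 0)]
    0x43a = true := by
  decide +kernel

theorem f_1351 (h : TabsF) : FrameF repsF 265 F_1351.f :=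
  frame_of rfl c_1351 ((runs_of engOK r_1351_0).append ((runs_of engOK r_1351_1).append (runs_of engOK r_1351_2))) (by decide +kernel) h.2 h.1

def F_1352 : FrX :=
  ⟨0x1001040012008080000e008408004100081010000480080081012000220a0000084100820004140040061440800000804080080110004408104408000084,
    0xa3, 1, 0x31415060768397a6, 8,
    [(0xa3, 1), (0x207584a6, 4), (0x10547693, 4), (0x647593a8, 4), (0x10547693, 4), (0x216485a7, 4), (0x208693a4, 4), (0x647593a8, 4), (0x208693a4, 4), (0x106574a8, 4), (0x647593a8, 4), (0x216485a7, 4)],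
    [(0x31415060768397a6, 8), (0x627580a1, 4), (0x30647591, 4), (0x427583a9, 4), (0x627580a1, 4), (0x30647591, 4)]⟩

def c_1352 : frmChk tB tA F_1352 = true := by decide +kernel

def r_1352_0 : chkL rootF engF2 tB tA sB_265 sA_265 4 F_1352 [(255, 0, 0), (256, 0, 21)]
    0x105c1e03c2709c1e3446a = true := by
  decide +kernel

def r_1352_1 : chkL rootF engF2 tB tA sB_265 sA_265 4 F_1352 [(256, 21, 0)]
    0x1074870d42b0cc9a = true := by
  decide +kernel

theorem f_1352 (h : TabsF) : FrameF repsF 265 F_1352.f :=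
  frame_of rfl c_1352 ((runs_of engOK r_1352_0).append (runs_of engOK r_1352_1)) (by decide +kernel) h.2 h.1

def F_1353 : FrX :=
  ⟨0x1001040012008080000e008408004100081010000480080081012000220a0000084100802400140140020440820008800000082110004008106418000004,
    0xa3, 1, 0x31415060768397a6, 8,
    [(0xa3, 1), (0x207584a6, 4), (0x10547693, 4), (0x647593a8, 4), (0x10547693, 4), (0x216485a7, 4), (0x208693a4, 4), (0x647593a8, 4), (0x208693a4, 4), (0x106574a8, 4), (0x647593a8, 4), (0x216485a7, 4)],
    [(0x31415060768397a6, 8), (0x627580a1, 4), (0x30647591, 4), (0x427583a9, 4), (0x627580a1, 4), (0x30647591, 4)]⟩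

def c_1353 : frmChk tB tA F_1353 = true := by decide +kernel

def r_1353_0 : chkL rootF engF2 tB tA sB_265 sA_265 4 F_1353 [(255, 0, 0), (256, 0, 21)]
    0x44ea867028ea2437090742721e299a09a09c27ac31405f900740f8a6680ac7117017 = true := by
  decide +kernel

def r_1353_1 : chkL rootF engF2 tB tA sB_265 sA_265 4 F_1353 [(256, 21, 0)]
    0x4170cc330ac2b21c1e05c9a = true := by
  decide +kernel

theorem f_1353 (h : TabsF) : FrameF repsF 265 F_1353.f :=
  frame_of rfl c_1353 ((runs_of engOK r_1353_0).append (runs_of engOK r_1353_1)) (by decide +kernel) h.2 h.1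

def F_1354 : FrX :=
  ⟨0x600020801080810000c004018041010100100400084400880010410020a000008800090090020100080200120808042481000110200004008009011001,
    0xa0, 1, 0x102140657293a3, 7,
    [(0xa0, 1), (0x637584a2, 4), (0x547690a1, 4), (0x64758390, 4), (0x547690a1, 4), (0x21647385, 4), (0x438690a2, 4), (0x64758390, 4), (0x438690a2, 4), (0x657483a1, 4), (0x64758390, 4), (0x21647385, 4)],
    [(0x102140657293a3, 7), (0x607481a5, 4), (0x42506193, 4), (0x516093a8, 4), (0x42506193, 4), (0x517286a0, 4), (0x748593a1, 4), (0x516093a8, 4), (0x748593a1, 4), (0x104265a8, 4), (0x516093a8, 4), (0x517286a0, 4)]⟩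

def c_1354 : frmChk tB tB F_1354 = true := by decide +kernel

def r_1354_0 : chkL rootF engF2 tB tB sB_265 sB_265 4 F_1354 [(511, 0, 0)]
    0x105c1b0741d2984711c2709c2d = true := by
  decide +kernel

theorem f_1354 (h : TabsF) : FrameF repsF 265 F_1354.f :=
  frame_of rfl c_1354 (runs_of engOK r_1354_0) (by decide +kernel) h.2 h.2

def F_1355 : FrX :=
  ⟨0x600020801080810000c0040180410101001004004044000c0010400420a000008802010082020100080202020808042481004010200004008009010041,
    0xa0, 1, 0x30506370a5, 5,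
    [(0xa0, 1), (0x637584a2, 4), (0x547690a1, 4), (0x64758390, 4), (0x547690a1, 4), (0x21647385, 4), (0x438690a2, 4), (0x64758390, 4), (0x438690a2, 4), (0x657483a1, 4), (0x64758390, 4), (0x21647385, 4)],
    [(0x30506370a5, 5), (0x728093a6, 4), (0x718593a4, 4), (0x21506493, 4), (0x728093a6, 4), (0x718593a4, 4)]⟩

def c_1355 : frmChk tB tA F_1355 = true := by decide +kernel

def r_1355_0 : chkL rootF engF2 tB tA sB_265 sA_265 4 F_1355 [(511, 0, 0)]
    0x44705c4709c5509c530f03a078530f03a1392611dc854bc00cc170d60d1a5290784e = true := by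
  decide +kernel

theorem f_1355 (h : TabsF) : FrameF repsF 265 F_1355.f :=
  frame_of rfl c_1355 (runs_of engOK r_1355_0) (by decide +kernel) h.2 h.1

def F_1356 : FrX :=
  ⟨0x600020801080810000c0040180410101001004001200012200022800080424040000800900200020208110808010400904000200834000010002021102,
    0xa0, 1, 0x315264a0, 4,
    [(0xa0, 1), (0x637584a2, 4), (0x547690a1, 4), (0x64758390, 4), (0x547690a1, 4), (0x21647385, 4), (0x438690a2, 4), (0x64758390, 4), (0x438690a2, 4), (0x657483a1, 4), (0x64758390, 4), (0x21647385, 4)],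
    [(0x315264a0, 4), (0x417286a5, 4), (0x627490a3, 4), (0x64728190, 4), (0x627490a3, 4), (0x53647182, 4), (0x618490a5, 4), (0x64728190, 4), (0x618490a5, 4), (0x427681a3, 4), (0x64728190, 4), (0x53647182, 4)]⟩

def c_1356 : frmChk tB tB F_1356 = true := by decide +kernel

def r_1356_0 : chkL rootF engF2 tB tB sB_265 sB_265 4 F_1356 [(511, 0, 0)]
    0x103cc5c60270741d154270ac1d = true := by
  decide +kernel

theorem f_1356 (h : TabsF) : FrameF repsF 265 F_1356.f :=
  frame_of rfl c_1356 (runs_of engOK r_1356_0) (by decide +kernel) h.2 h.2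

def F_1357 : FrX :=
  ⟨0x1001040012008080000e00840800410008101000042012240020002100080048010008088080004809082002000800406100200210088080040010820300,
    0xa3, 1, 0x1040627383a2, 6,
    [(0xa3, 1), (0x207584a6, 4), (0x10547693, 4), (0x647593a8, 4), (0x10547693, 4), (0x216485a7, 4), (0x208693a4, 4), (0x647593a8, 4), (0x208693a4, 4), (0x106574a8, 4), (0x647593a8, 4), (0x216485a7, 4)],
    [(0x1040627383a2, 6), (0x728596a4, 4), (0x40517396, 4), (0x328196a0, 4), (0x728596a4, 4), (0x40517396, 4)]⟩

def c_1357 : frmChk tB tA F_1357 = true := by decide +kernel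

def r_1357_0 : chkL rootF engF2 tB tA sB_265 sA_265 4 F_1357 [(511, 0, 0)]
    0x41706c4d138e165384e0bc01c4cc = true := by
  decide +kernel

theorem f_1357 (h : TabsF) : FrameF repsF 265 F_1357.f :=
  frame_of rfl c_1357 (runs_of engOK r_1357_0) (by decide +kernel) h.2 h.1

def F_1358 : FrX :=
  ⟨0x600020801080810000c0040180410101001004010100004400004804200c010288000012800201050820006000088004100010100880010014000c0028,
    0xa0, 1, 0x1030415163748597a3, 9,
    [(0xa0, 1), (0x637584a2, 4), (0x547690a1, 4), (0x64758390, 4), (0x547690a1, 4), (0x21647385, 4), (0x438690a2, 4), (0x64758390, 4), (0x438690a2, 4), (0x657483a1, 4), (0x64758390, 4), (0x21647385, 4)],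
    [(0x1030415163748597a3, 9), (0x324160a8, 4), (0x53608794, 4), (0x526091a7, 4), (0x324160a8, 4), (0x53608794, 4)]⟩

def c_1358 : frmChk tB tA F_1358 = true := by decide +kernel

def r_1358_0 : chkL rootF engF2 tB tA sB_265 sA_265 4 F_1358 [(255, 0, 0), (256, 0, 21)]
    0x11581b1540f0ac0f = true := by
  decide +kernel

def r_1358_1 : chkL rootF engF2 tB tA sB_265 sA_265 4 F_1358 [(256, 21, 0)]
    0x105c0f1542d5900f2582b03c39a142b03c39 = true := by
  decide +kernel

theorem f_1358 (h : TabsF) : FrameF repsF 265 F_1358.f :=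
  frame_of rfl c_1358 ((runs_of engOK r_1358_0).append (runs_of engOK r_1358_1)) (by decide +kernel) h.2 h.1

def F_1359 : FrX :=
  ⟨0x1001040012008080000e008408004100081010000482002081080400200200300801008011041000400414048000200040020a0182010c08020008000084,
    0xa3, 1, 0x213242546271a2, 7,
    [(0xa3, 1), (0x207584a6, 4), (0x10547693, 4), (0x647593a8, 4), (0x10547693, 4), (0x216485a7, 4), (0x208693a4, 4), (0x647593a8, 4), (0x208693a4, 4), (0x106574a8, 4), (0x647593a8, 4), (0x216485a7, 4)],
    [(0x213242546271a2, 7), (0x318496a0, 4), (0x53708296, 4), (0x425196a7, 4), (0x318496a0, 4), (0x53708296, 4)]⟩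

def c_1359 : frmChk tB tA F_1359 = true := by decide +kernel

def r_1359_0 : chkL rootF engF2 tB tA sB_265 sA_265 4 F_1359 [(255, 0, 0), (256, 0, 20)]
    0x103c951c81e07a68254a90e45511e8903c4d12c1ee10719a01e05c5309c17 = true := by
  decide +kernel

def r_1359_1 : chkL rootF engF2 tB tA sB_265 sA_265 4 F_1359 [(256, 20, 0)]
    0x105c6a384635a072314e105c0f0d81d158560ac17 = true := by
  decide +kernel

theorem f_1359 (h : TabsF) : FrameF repsF 265 F_1359.f :=
  frame_of rfl c_1359 ((runs_of engOK r_1359_0).append (runs_of engOK r_1359_1)) (by decide +kernel) h.2 h.1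

def F_1360 : FrX :=
  ⟨0x600020801080810000c0040180410101001004001200028014020200002024040400100c044400814001100800100008002a0100100080441101000102,
    0xa0, 1, 0x3152647098a0, 6,
    [(0xa0, 1), (0x637584a2, 4), (0x547690a1, 4), (0x64758390, 4), (0x547690a1, 4), (0x21647385, 4), (0x438690a2, 4), (0x64758390, 4), (0x438690a2, 4), (0x657483a1, 4), (0x64758390, 4), (0x21647385, 4)],
    [(0x3152647098a0, 6), (0x204196a5, 4), (0x406287a3, 4), (0x20648791, 4), (0x406287a3, 4), (0x10536492, 4), (0x618794a5, 4), (0x20648791, 4), (0x618794a5, 4), (0x426091a3, 4), (0x20648791, 4), (0x10536492, 4)]⟩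

def c_1360 : frmChk tB tB F_1360 = true := by decide +kernel

def r_1360_0 : chkL rootF engF2 tB tB sB_265 sB_265 4 F_1360 [(511, 0, 0)]
    0x11383a1a81e = true := by
  decide +kernel

theorem f_1360 (h : TabsF) : FrameF repsF 265 F_1360.f :=
  frame_of rfl c_1360 (runs_of engOK r_1360_0) (by decide +kernel) h.2 h.2

def F_1361 : FrX :=
  ⟨0x1001040012008080000e008408004100081010000421000610010300010000480100080880800048008812020008200040080012300000a1080220020300,
    0xa3, 1, 0x3043657083a6, 6,
    [(0xa3, 1), (0x207584a6, 4), (0x10547693, 4), (0x647593a8, 4), (0x10547693, 4), (0x216485a7, 4), (0x208693a4, 4), (0x647593a8, 4), (0x208693a4, 4), (0x106574a8, 4), (0x647593a8, 4), (0x216485a7, 4)],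
    [(0x3043657083a6, 6), (0x728695a4, 4), (0x43607195, 4), (0x218095a3, 4), (0x728695a4, 4), (0x43607195, 4)]⟩

def c_1361 : frmChk tB tA F_1361 = true := by decide +kernel

def r_1361_0 : chkL rootF engF2 tB tA sB_265 sA_265 4 F_1361 [(255, 0, 0), (256, 0, 20)]
    0x105ca605e430ac3609c5c03d9409c27 = true := by
  decide +kernel

def r_1361_1 : chkL rootF engF2 tB tA sB_265 sA_265 4 F_1361 [(256, 20, 0)]
    0x42709e8512ec10e49303c1b06c5c234cc2985a06c1b1682b12c35 = true := by
  decide +kernel

theorem f_1361 (h : TabsF) : FrameF repsF 265 F_1361.f :=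
  frame_of rfl c_1361 ((runs_of engOK r_1361_0).append (runs_of engOK r_1361_1)) (by decide +kernel) h.2 h.1

def F_1362 : FrX :=
  ⟨0x2002000900044004000e0204100014100080004082001024800020200a000c00040081000028010812020208400020043000810004200200400043402001,
    0xa3, 1, 0x102041708190a0, 7,
    [(0xa3, 1), (0x208693a5, 4), (0x10548793, 4), (0x217693a4, 4), (0x208693a5, 4), (0x10548793, 4)],
    [(0x102041708190a0, 7), (0x536497a1, 4), (0x425097a8, 4), (0x30628197, 4), (0x536497a1, 4), (0x425097a8, 4)]⟩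

def c_1362 : frmChk tA tA F_1362 = true := by decide +kernel

def r_1362_0 : chkL rootF engF2 tA tA sA_265 sA_265 4 F_1362 [(511, 0, 0)]
    0x43590c656905306da81944d58447194651356806c4b3145a11c334e2321a968 = true := by
  decide +kernel

theorem f_1362 (h : TabsF) : FrameF repsF 265 F_1362.f :=
  frame_of rfl c_1362 (runs_of engOK r_1362_0) (by decide +kernel) h.1 h.1

def F_1363 : FrX :=
  ⟨0x482000044040440000c2040020009000182040007100400001020000000c04800880040a02000402080020604008440010090006200080601020200008,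
    0xa0, 1, 0x314053637584a4, 7,
    [(0xa0, 1), (0x538690a2, 4), (0x548790a1, 4), (0x21437690, 4), (0x538690a2, 4), (0x548790a1, 4)],
    [(0x314053637584a4, 7), (0x42507698, 4), (0x104398a7, 4), (0x325198a6, 4), (0x42507698, 4), (0x104398a7, 4)]⟩

def c_1363 : frmChk tA tA F_1363 = true := by decide +kernel

def r_1363_0 : chkL rootF engF2 tA tA sA_265 sA_265 4 F_1363 [(255, 0, 0), (256, 0, 23)]
    0x42d0b42d4701e0d40f03c17 = true := by
  decide +kernel

def r_1363_1 : chkL rootF engF2 tA tA sA_265 sA_265 4 F_1363 [(256, 23, 0)]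
    0x105c35470360d82b03c4721d8c07887 = true := by
  decide +kernel

theorem f_1363 (h : TabsF) : FrameF repsF 265 F_1363.f :=
  frame_of rfl c_1363 ((runs_of engOK r_1363_0).append (runs_of engOK r_1363_1)) (by decide +kernel) h.1 h.1

def F_1364 : FrX :=
  ⟨0x2002000900044004000e02041000141000800040800401042038000010000242100088004022501608000002000040000300802041100022044004210200,
    0xa3, 1, 0x4150628397a3, 6,
    [(0xa3, 1), (0x208693a5, 4), (0x10548793, 4), (0x217693a4, 4), (0x208693a5, 4), (0x10548793, 4)],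
    [(0x4150628397a3, 6), (0x326587a0, 4), (0x10548793, 4), (0x648792a1, 4), (0x326587a0, 4), (0x10548793, 4)]⟩

def c_1364 : frmChk tA tA F_1364 = true := by decide +kernel

def r_1364_0 : chkL rootF engF2 tA tA sA_265 sA_265 4 F_1364 [(511, 0, 0)]
    0x11381e0e80f03c0f = true := by
  decide +kernel

theorem f_1364 (h : TabsF) : FrameF repsF 265 F_1364.f :=
  frame_of rfl c_1364 (runs_of engOK r_1364_0) (by decide +kernel) h.1 h.1

def F_1365 : FrX :=
  ⟨0x482000044040440000c2040020009000182040010010041200800810080408208010008001440120000810a00020500140200005008800040802000450,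
    0xa0, 1, 0x314285a0, 4,
    [(0xa0, 1), (0x538690a2, 4), (0x548790a1, 4), (0x21437690, 4), (0x538690a2, 4), (0x548790a1, 4)],
    [(0x314285a0, 4), (0x658190a4, 4), (0x758290a3, 4), (0x21437690, 4), (0x658190a4, 4), (0x758290a3, 4)]⟩

def c_1365 : frmChk tA tA F_1365 = true := by decide +kernel

def r_1365_0 : chkL rootF engF2 tA tA sA_265 sA_265 4 F_1365 [(511, 0, 0)]
    0x105c172944b5856103f035256148c1dc0d49584695844be80478c6a4e81e0e8231a93a0e801db8036 = true := by
  decide +kernel

theorem f_1365 (h : TabsF) : FrameF repsF 265 F_1365.f :=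
  frame_of rfl c_1365 (runs_of engOK r_1365_0) (by decide +kernel) h.1 h.1

theorem cl_265 (h : TabsF) : ∀ f ∈ fr_265, FrameF repsF 265 f :=
  List.forall_mem_cons.2 ⟨f_1350 h, List.forall_mem_cons.2 ⟨f_1351 h, List.forall_mem_cons.2 ⟨f_1352 h, List.forall_mem_cons.2 ⟨f_1353 h, List.forall_mem_cons.2 ⟨f_1354 h, List.forall_mem_cons.2 ⟨f_1355 h, List.forall_mem_cons.2 ⟨f_1356 h, List.forall_mem_cons.2 ⟨f_1357 h, List.forall_mem_cons.2 ⟨f_1358 h, List.forall_mem_cons.2 ⟨f_1359 h, List.forall_mem_cons.2 ⟨f_1360 h, List.forall_mem_cons.2 ⟨f_1361 h, List.forall_mem_cons.2 ⟨f_1362 h, List.forall_mem_cons.2 ⟨f_1363 h, List.forall_mem_cons.2 ⟨f_1364 h, List.forall_mem_cons.2 ⟨f_1365 h,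
    fun _ h0 => absurd h0 List.not_mem_nil⟩⟩⟩⟩⟩⟩⟩⟩⟩⟩⟩⟩⟩⟩⟩⟩

def F_1366 : FrX :=
  ⟨0x1001040012008080000e00840800410008101000044024200420002020080020810200801100008140000404444030004050020086000800460100020040,
    0xa3, 1, 0x51627387a2, 5,
    [(0xa3, 1), (0x207584a6, 4), (0x10547693, 4), (0x647593a8, 4), (0x10547693, 4), (0x216485a7, 4), (0x208693a4, 4), (0x647593a8, 4), (0x208693a4, 4), (0x106574a8, 4), (0x647593a8, 4), (0x216485a7, 4)],
    [(0x51627387a2, 5), (0x437281a0, 4), (0x41508296, 4), (0x42738196, 4), (0x41508296, 4), (0x314287a5, 4), (0x327496a0, 4), (0x42738196, 4), (0x327496a0, 4), (0x21507384, 4), (0x42738196, 4), (0x314287a5, 4)]⟩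

def c_1366 : frmChk tB tB F_1366 = true := by decide +kernel

def r_1366_0 : chkL rootF engF2 tB tB sB_266 sB_266 4 F_1366 [(511, 0, 0)]
    0x50d4a4c91383643531 = true := by
  decide +kernel

theorem f_1366 (h : TabsF) : FrameF repsF 266 F_1366.f :=
  frame_of rfl c_1366 (runs_of engOK r_1366_0) (by decide +kernel) h.2 h.2

def F_1367 : FrX :=
  ⟨0x1001040012008080000e008408004100081010000420800200a0010004320008400002201080100809090004208030004000201210000040011018820200,
    0xa3, 1, 0x638297a3, 4,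
    [(0xa3, 1), (0x207584a6, 4), (0x10547693, 4), (0x647593a8, 4), (0x10547693, 4), (0x216485a7, 4), (0x208693a4, 4), (0x647593a8, 4), (0x208693a4, 4), (0x106574a8, 4), (0x647593a8, 4), (0x216485a7, 4)],
    [(0x638297a3, 4), (0x428095a3, 4), (0x10547693, 4), (0x437695a2, 4), (0x10547693, 4), (0x435281a9, 4), (0x327680a4, 4), (0x437695a2, 4), (0x327680a4, 4), (0x105394a2, 4), (0x437695a2, 4), (0x435281a9, 4)]⟩

def c_1367 : frmChk tB tB F_1367 = true := by decide +kernel

def r_1367_0 : chkL rootF engF2 tB tB sB_266 sB_266 4 F_1367 [(511, 0, 0)]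
    0x109c2d09c1e0e82d12c4b05c1d05c3a = true := by
  decide +kernel

theorem f_1367 (h : TabsF) : FrameF repsF 266 F_1367.f :=
  frame_of rfl c_1367 (runs_of engOK r_1367_0) (by decide +kernel) h.2 h.2

def F_1368 : FrX :=
  ⟨0x1001040012008080000e00840800410008101000042010041020010004080050030108008020012000c0028201080020208400c001010081020024000104,
    0xa3, 1, 0x4360718295a3, 6,
    [(0xa3, 1), (0x207584a6, 4), (0x10547693, 4), (0x647593a8, 4), (0x10547693, 4), (0x216485a7, 4), (0x208693a4, 4), (0x647593a8, 4), (0x208693a4, 4), (0x106574a8, 4), (0x647593a8, 4), (0x216485a7, 4)],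
    [(0x4360718295a3, 6), (0x328691a0, 4), (0x10547693, 4), (0x305491a2, 4), (0x10547693, 4), (0x308792a1, 4), (0x205486a3, 4), (0x305491a2, 4), (0x205486a3, 4), (0x317690a2, 4), (0x305491a2, 4), (0x308792a1, 4)]⟩

def c_1368 : frmChk tB tB F_1368 = true := by decide +kernel

def r_1368_0 : chkL rootF engF2 tB tB sB_266 sB_266 4 F_1368 [(511, 0, 0)]
    0x10ac0f0740f = true := by
  decide +kernel

theorem f_1368 (h : TabsF) : FrameF repsF 266 F_1368.f :=
  frame_of rfl c_1368 (runs_of engOK r_1368_0) (by decide +kernel) h.2 h.2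

def F_1369 : FrX :=
  ⟨0x600020801080810000c0040180410101001004001200012200022800080424040000800894040040082100008038030000000800400080441400220300,
    0xa0, 1, 0x315264a0, 4,
    [(0xa0, 1), (0x637584a2, 4), (0x547690a1, 4), (0x64758390, 4), (0x547690a1, 4), (0x21647385, 4), (0x438690a2, 4), (0x64758390, 4), (0x438690a2, 4), (0x657483a1, 4), (0x64758390, 4), (0x21647385, 4)],
    [(0x315264a0, 4), (0x417286a5, 4), (0x627490a3, 4), (0x64728190, 4), (0x627490a3, 4), (0x53647182, 4), (0x618490a5, 4), (0x64728190, 4), (0x618490a5, 4), (0x427681a3, 4), (0x64728190, 4), (0x53647182, 4)]⟩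

def c_1369 : frmChk tB tB F_1369 = true := by decide +kernel

def r_1369_0 : chkL rootF engF2 tB tB sB_266 sB_266 4 F_1369 [(511, 0, 0)]
    0x10ac2b18c17164c903d98e400f03c1d = true := by
  decide +kernel

theorem f_1369 (h : TabsF) : FrameF repsF 266 F_1369.f :=
  frame_of rfl c_1369 (runs_of engOK r_1369_0) (by decide +kernel) h.2 h.2

theorem cl_266 (h : TabsF) : ∀ f ∈ fr_266, FrameF repsF 266 f :=
  List.forall_mem_cons.2 ⟨f_1366 h, List.forall_mem_cons.2 ⟨f_1367 h, List.forall_mem_cons.2 ⟨f_1368 h, List.forall_mem_cons.2 ⟨f_1369 h,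
    fun _ h0 => absurd h0 List.not_mem_nil⟩⟩⟩⟩

def F_1370 : FrX :=
  ⟨0x1001040012008080000e008408004100081010000440080404200080040800828a0000802100510240010008014030002050008001000400508000211100,
    0xa3, 1, 0x102140548496a3, 7,
    [(0xa3, 1), (0x207584a6, 4), (0x10547693, 4), (0x647593a8, 4), (0x10547693, 4), (0x216485a7, 4), (0x208693a4, 4), (0x647593a8, 4), (0x208693a4, 4), (0x106574a8, 4), (0x647593a8, 4), (0x216485a7, 4)],
    [(0x102140548496a3, 7), (0x407185a9, 4), (0x42638197, 4), (0x637198a5, 4), (0x42638197, 4), (0x205198a7, 4), (0x406395a8, 4), (0x637198a5, 4), (0x406395a8, 4), (0x428791a5, 4), (0x637198a5, 4), (0x205198a7, 4)]⟩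

def c_1370 : frmChk tB tB F_1370 = true := by decide +kernel

def r_1370_0 : chkL rootF engF2 tB tB sB_267 sB_267 4 F_1370 [(511, 0, 0)]
    0x43c03c1b13968 = true := by
  decide +kernel

theorem f_1370 (h : TabsF) : FrameF repsF 267 F_1370.f :=
  frame_of rfl c_1370 (runs_of engOK r_1370_0) (by decide +kernel) h.2 h.2

def F_1371 : FrX :=
  ⟨0x1001040012008080000e00840800410008101000042100001120010004302004800100102020200800033008208030002000800c080000404c4000210200,
    0xa3, 1, 0x738296a3, 4,
    [(0xa3, 1), (0x207584a6, 4), (0x10547693, 4), (0x647593a8, 4), (0x10547693, 4), (0x216485a7, 4), (0x208693a4, 4), (0x647593a8, 4), (0x208693a4, 4), (0x106574a8, 4), (0x647593a8, 4), (0x216485a7, 4)],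
    [(0x738296a3, 4), (0x425380a9, 4), (0x10547693, 4), (0x537694a2, 4), (0x10547693, 4), (0x528194a3, 4), (0x768092a4, 4), (0x537694a2, 4), (0x768092a4, 4), (0x104395a2, 4), (0x537694a2, 4), (0x528194a3, 4)]⟩

def c_1371 : frmChk tB tB F_1371 = true := by decide +kernel

def r_1371_0 : chkL rootF engF2 tB tB sB_267 sB_267 4 F_1371 [(255, 0, 0), (256, 0, 13)]
    0x4d8c0f420e83a0ea4ad083a138270ac3a9324c3a0e8b428aa625411cd8918b294a46194362a8a3194652591c22d8aa30acb41983a2499a0ac21cd8234592a48d138351384e1384e0748d1394a90e45 = true := by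
  decide +kernel

def r_1371_1 : chkL rootF engF2 tB tB sB_267 sB_267 4 F_1371 [(256, 13, 5)]
    0x6c4946c16a10b2718946907458a96251a590174691a330aa32b50 = true := by
  decide +kernel

def r_1371_2 : chkL rootF engF2 tB tB sB_267 sB_267 4 F_1371 [(256, 18, 23)]
    0x1f00d8aa2641a5c86a08b23a582709c = true := by
  decide +kernel

def r_1371_3 : chkL rootF engF2 tB tB sB_267 sB_267 4 F_1371 [(256, 41, 0)]
    0x1 = true := by
  decide +kernel

theorem f_1371 (h : TabsF) : FrameF repsF 267 F_1371.f :=
  frame_of rfl c_1371 ((runs_of engOK r_1371_0).append ((runs_of engOK r_1371_1).append ((runs_of engOK r_1371_2).append (runs_of engOK r_1371_3)))) (by decide +kernel) h.2 h.2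

def F_1372 : FrX :=
  ⟨0x1001040012008080000e0084080041000810100004200802402001000408009004820200120000a00040308204040042004020c0020100804c0000200048,
    0xa3, 1, 0x1062718095a4, 6,
    [(0xa3, 1), (0x207584a6, 4), (0x10547693, 4), (0x647593a8, 4), (0x10547693, 4), (0x216485a7, 4), (0x208693a4, 4), (0x647593a8, 4), (0x208693a4, 4), (0x106574a8, 4), (0x647593a8, 4), (0x216485a7, 4)],
    [(0x1062718095a4, 6), (0x328690a1, 4), (0x205487a9, 4), (0x315490a2, 4), (0x205487a9, 4), (0x307691a2, 4), (0x215486a3, 4), (0x315490a2, 4), (0x215486a3, 4), (0x318792a0, 4), (0x315490a2, 4), (0x307691a2, 4)]⟩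

def c_1372 : frmChk tB tB F_1372 = true := by decide +kernel

def r_1372_0 : chkL rootF engF2 tB tB sB_267 sB_267 4 F_1372 [(511, 0, 0)]
    0x1 = true := by
  decide +kernel

theorem f_1372 (h : TabsF) : FrameF repsF 267 F_1372.f :=
  frame_of rfl c_1372 (runs_of engOK r_1372_0) (by decide +kernel) h.2 h.2

def F_1373 : FrX :=
  ⟨0x600020801080810000c00401804101010010040010440020000300402208000800128012000220000420085480080a004002800040204000c400210080,
    0xa0, 1, 0x304364718693a8, 7,
    [(0xa0, 1), (0x637584a2, 4), (0x547690a1, 4), (0x64758390, 4), (0x547690a1, 4), (0x21647385, 4), (0x438690a2, 4), (0x64758390, 4), (0x438690a2, 4), (0x657483a1, 4), (0x64758390, 4), (0x21647385, 4)],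
    [(0x304364718693a8, 7), (0x324095a8, 4), (0x406573a1, 4), (0x40728196, 4), (0x324095a8, 4), (0x406573a1, 4)]⟩

def c_1373 : frmChk tB tA F_1373 = true := by decide +kernel

def r_1373_0 : chkL rootF engF2 tB tA sB_267 sA_267 4 F_1373 [(511, 0, 0)]
    0x4330783909c3909c390e4c606c2e0ba231542e0b81b0e41e0d41b = true := by
  decide +kernel

theorem f_1373 (h : TabsF) : FrameF repsF 267 F_1373.f :=
  frame_of rfl c_1373 (runs_of engOK r_1373_0) (by decide +kernel) h.2 h.1

def F_1374 : FrX :=
  ⟨0x600020801080810000c00401804101010010040004085008004004408210000080120040802020006001000c80100808002203000000c0010460200201,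
    0xa0, 1, 0x2153647281a0, 6,
    [(0xa0, 1), (0x637584a2, 4), (0x547690a1, 4), (0x64758390, 4), (0x547690a1, 4), (0x21647385, 4), (0x438690a2, 4), (0x64758390, 4), (0x438690a2, 4), (0x657483a1, 4), (0x64758390, 4), (0x21647385, 4)],
    [(0x2153647281a0, 6), (0x315462a7, 4), (0x416390a8, 4), (0x31526490, 4), (0x416390a8, 4), (0x32516487, 4), (0x426590a7, 4), (0x31526490, 4), (0x426590a7, 4), (0x435261a8, 4), (0x31526490, 4), (0x32516487, 4)]⟩

def c_1374 : frmChk tB tB F_1374 = true := by decide +kernel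

def r_1374_0 : chkL rootF engF2 tB tB sB_267 sB_267 4 F_1374 [(511, 0, 0)]
    0x105c1705c3a0781e = true := by
  decide +kernel

theorem f_1374 (h : TabsF) : FrameF repsF 267 F_1374.f :=
  frame_of rfl c_1374 (runs_of engOK r_1374_0) (by decide +kernel) h.2 h.2

def F_1375 : FrX :=
  ⟨0x600020801080810000c004018041010100100400101110000040014012400060001012000080400840e100001080408804208200200800018001009100,
    0xa0, 1, 0x214096a0, 4,
    [(0xa0, 1), (0x637584a2, 4), (0x547690a1, 4), (0x64758390, 4), (0x547690a1, 4), (0x21647385, 4), (0x438690a2, 4), (0x64758390, 4), (0x438690a2, 4), (0x657483a1, 4), (0x64758390, 4), (0x21647385, 4)],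
    [(0x214096a0, 4), (0x758093a1, 4), (0x506497a2, 4), (0x64758390, 4), (0x506497a2, 4), (0x21738590, 4), (0x306498a1, 4), (0x64758390, 4), (0x306498a1, 4), (0x708395a2, 4), (0x64758390, 4), (0x21738590, 4)]⟩

def c_1375 : frmChk tB tB F_1375 = true := by decide +kernel

def r_1375_0 : chkL rootF engF2 tB tB sB_267 sB_267 4 F_1375 [(511, 0, 0)]
    0x181c8b9142d90c2b05c4b1349905c0f2649905c0f1589c9483a9503512c531945618c5503c171345903c991640f05c178562381c9984c1e = true := by
  decide +kernel

theorem f_1375 (h : TabsF) : FrameF repsF 267 F_1375.f :=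
  frame_of rfl c_1375 (runs_of engOK r_1375_0) (by decide +kernel) h.2 h.2

def F_1376 : FrX :=
  ⟨0x1001040012008080000e0084080041000810100004402420041010000420080040204012000004804002680040100004081400a0202004005800001c0040,
    0xa3, 1, 0x104052607383a0, 7,
    [(0xa3, 1), (0x207584a6, 4), (0x10547693, 4), (0x647593a8, 4), (0x10547693, 4), (0x216485a7, 4), (0x208693a4, 4), (0x647593a8, 4), (0x208693a4, 4), (0x106574a8, 4), (0x647593a8, 4), (0x216485a7, 4)],
    [(0x104052607383a0, 7), (0x327184a5, 4), (0x214396a0, 4), (0x32418796, 4), (0x214396a0, 4), (0x41507283, 4), (0x748196a5, 4), (0x32418796, 4), (0x748196a5, 4), (0x314287a0, 4), (0x32418796, 4), (0x41507283, 4)]⟩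

def c_1376 : frmChk tB tB F_1376 = true := by decide +kernel

def r_1376_0 : chkL rootF engF2 tB tB sB_267 sB_267 4 F_1376 [(255, 0, 0), (256, 0, 21)]
    0x41e06c39 = true := by
  decide +kernel

def r_1376_1 : chkL rootF engF2 tB tB sB_267 sB_267 4 F_1376 [(256, 21, 0)]
    0x43303c4d = true := by
  decide +kernel

theorem f_1376 (h : TabsF) : FrameF repsF 267 F_1376.f :=
  frame_of rfl c_1376 ((runs_of engOK r_1376_0).append (runs_of engOK r_1376_1)) (by decide +kernel) h.2 h.2

def F_1377 : FrX :=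
  ⟨0x600020801080810000c0040180410101001004000424002200090040810800004028004402400208004102000201210008000800600004851020220200,
    0xa0, 1, 0x1032407380a1, 6,
    [(0xa0, 1), (0x637584a2, 4), (0x547690a1, 4), (0x64758390, 4), (0x547690a1, 4), (0x21647385, 4), (0x438690a2, 4), (0x64758390, 4), (0x438690a2, 4), (0x657483a1, 4), (0x64758390, 4), (0x21647385, 4)],
    [(0x1032407380a1, 6), (0x64758390, 4), (0x425190a8, 4), (0x627190a3, 4), (0x64758390, 4), (0x425190a8, 4)]⟩

def c_1377 : frmChk tB tA F_1377 = true := by decide +kernel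

def r_1377_0 : chkL rootF engF2 tB tA sB_267 sA_267 4 F_1377 [(511, 0, 0)]
    0x1348c60af12e080f164390d8a90ac9912c2b03c0f03caa2a8a93a3a06880f6c00f03c0f = true := by
  decide +kernel

theorem f_1377 (h : TabsF) : FrameF repsF 267 F_1377.f :=
  frame_of rfl c_1377 (runs_of engOK r_1377_0) (by decide +kernel) h.2 h.1

def F_1378 : FrX :=
  ⟨0x600020801080810000c004018041010100100400404044000008104209004002000842000003000d410008100800420218008200002800800042201001,
    0xa0, 1, 0x2140617395a3, 6,
    [(0xa0, 1), (0x637584a2, 4), (0x547690a1, 4), (0x64758390, 4), (0x547690a1, 4), (0x21647385, 4), (0x438690a2, 4), (0x64758390, 4), (0x438690a2, 4), (0x657483a1, 4), (0x64758390, 4), (0x21647385, 4)],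
    [(0x2140617395a3, 6), (0x417582a9, 4), (0x64758390, 4), (0x326175a0, 4), (0x417582a9, 4), (0x64758390, 4)]⟩

def c_1378 : frmChk tB tA F_1378 = true := by decide +kernel

def r_1378_0 : chkL rootF engF2 tB tA sB_267 sA_267 4 F_1378 [(255, 0, 0), (256, 0, 19)]
    0x10b4b814c171641709c171e02d0e827 = true := by
  decide +kernel

def r_1378_1 : chkL rootF engF2 tB tA sB_267 sA_267 4 F_1378 [(256, 19, 0)]
    0x12b0170b86a05c36074470b48b0cce1 = true := by
  decide +kernel

theorem f_1378 (h : TabsF) : FrameF repsF 267 F_1378.f :=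
  frame_of rfl c_1378 ((runs_of engOK r_1378_0).append (runs_of engOK r_1378_1)) (by decide +kernel) h.2 h.1

def F_1379 : FrX :=
  ⟨0x1001040012008080000e0084080041000810100004400c800420002020080080804200802100004240000408444030002050020031000400508100040040,
    0xa3, 1, 0x103141506185a1, 7,
    [(0xa3, 1), (0x207584a6, 4), (0x10547693, 4), (0x647593a8, 4), (0x10547693, 4), (0x216485a7, 4), (0x208693a4, 4), (0x647593a8, 4), (0x208693a4, 4), (0x106574a8, 4), (0x647593a8, 4), (0x216485a7, 4)],
    [(0x103141506185a1, 7), (0x41528096, 4), (0x718396a5, 4), (0x307496a2, 4), (0x41528096, 4), (0x718396a5, 4)]⟩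

def c_1379 : frmChk tB tA F_1379 = true := by decide +kernel

def r_1379_0 : chkL rootF engF2 tB tA sB_267 sA_267 4 F_1379 [(511, 0, 0)]
    0x4590e83a09c272c82d0b44d = true := by
  decide +kernel

theorem f_1379 (h : TabsF) : FrameF repsF 267 F_1379.f :=
  frame_of rfl c_1379 (runs_of engOK r_1379_0) (by decide +kernel) h.2 h.1

def F_1380 : FrX :=
  ⟨0x1001040012008080000e008408004100081010000420800200a0010004320008400002202020200808830010208030002000800c08000040022024810200,
    0xa3, 1, 0x638297a3, 4,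
    [(0xa3, 1), (0x207584a6, 4), (0x10547693, 4), (0x647593a8, 4), (0x10547693, 4), (0x216485a7, 4), (0x208693a4, 4), (0x647593a8, 4), (0x208693a4, 4), (0x106574a8, 4), (0x647593a8, 4), (0x216485a7, 4)],
    [(0x638297a3, 4), (0x428095a3, 4), (0x10547693, 4), (0x437695a2, 4), (0x10547693, 4), (0x435281a9, 4), (0x327680a4, 4), (0x437695a2, 4), (0x327680a4, 4), (0x105394a2, 4), (0x437695a2, 4), (0x435281a9, 4)]⟩

def c_1380 : frmChk tB tB F_1380 = true := by decide +kernel

def r_1380_0 : chkL rootF engF2 tB tB sB_267 sB_267 4 F_1380 [(511, 0, 0)]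
    0x10781b0782b0d8631582b = true := by
  decide +kernel

theorem f_1380 (h : TabsF) : FrameF repsF 267 F_1380.f :=
  frame_of rfl c_1380 (runs_of engOK r_1380_0) (by decide +kernel) h.2 h.2

def F_1381 : FrX :=
  ⟨0x80080a000804040e00002101002001000002040884010800204024002002000042c00060008208020810080015000800224000022030202002014084000,
    0xa6, 1, 0x326594a6, 4,
    [(0xa6, 1), (0x205396a8, 4), (0x10548796, 4), (0x214396a7, 4), (0x205396a8, 4), (0x10548796, 4)],
    [(0x326594a6, 4), (0x305462a8, 4), (0x10548796, 4), (0x315492a7, 4), (0x305462a8, 4), (0x10548796, 4)]⟩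

def c_1381 : frmChk tA tA F_1381 = true := by decide +kernel

def r_1381_0 : chkL rootF engF2 tA tA sA_267 sA_267 4 F_1381 [(511, 0, 0)]
    0x11541d0e456074390742e = true := by
  decide +kernel

theorem f_1381 (h : TabsF) : FrameF repsF 267 F_1381.f :=
  frame_of rfl c_1381 (runs_of engOK r_1381_0) (by decide +kernel) h.1 h.1

theorem cl_267 (h : TabsF) : ∀ f ∈ fr_267, FrameF repsF 267 f :=
  List.forall_mem_cons.2 ⟨f_1370 h, List.forall_mem_cons.2 ⟨f_1371 h, List.forall_mem_cons.2 ⟨f_1372 h, List.forall_mem_cons.2 ⟨f_1373 h, List.forall_mem_cons.2 ⟨f_1374 h, List.forall_mem_cons.2 ⟨f_1375 h, List.forall_mem_cons.2 ⟨f_1376 h, List.forall_mem_cons.2 ⟨f_1377 h, List.forall_mem_cons.2 ⟨f_1378 h, List.forall_mem_cons.2 ⟨f_1379 h, List.forall_mem_cons.2 ⟨f_1380 h, List.forall_mem_cons.2 ⟨f_1381 h,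
    fun _ h0 => absurd h0 List.not_mem_nil⟩⟩⟩⟩⟩⟩⟩⟩⟩⟩⟩⟩

def F_1382 : FrX :=
  ⟨0x1c2102000004044000002041000101000082040890080080001010008400101040048410000084200043440842010048040201010100020204080808080,
    0x0, 0, 0x436484, 3,
    [(0x0, 0), (0x205386a9, 4), (0x105487a9, 4), (0x214376a9, 4), (0x205386a9, 4), (0x105487a9, 4)],
    [(0x436484, 3), (0x205463a9, 4), (0x107685a9, 4), (0x217384a9, 4), (0x205463a9, 4), (0x107685a9, 4)]⟩

def c_1382 : frmChk tA tA F_1382 = true := by decide +kernel

def r_1382_0 : chkL rootF engF2 tA tA sA_268 sA_268 4 F_1382 [(255, 0, 0), (256, 0, 4)]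
    0x103ca9 = true := by
  decide +kernel

def r_1382_1 : chkL rootF engF2 tA tA sA_268 sA_268 4 F_1382 [(256, 4, 3)]
    0x1 = true := by
  decide +kernel

def r_1382_2 : chkL rootF engF2 tA tA sA_268 sA_268 4 F_1382 [(256, 7, 3)]
    0x43a = true := by
  decide +kernel

def r_1382_3 : chkL rootF engF2 tA tA sA_268 sA_268 4 F_1382 [(256, 10, 5)]
    0x112c2b0ac0f = true := by
  decide +kernel

def r_1382_4 : chkL rootF engF2 tA tA sA_268 sA_268 4 F_1382 [(256, 15, 9)]
    0x10cc53 = true := by
  decide +kernel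

def r_1382_5 : chkL rootF engF2 tA tA sA_268 sA_268 4 F_1382 [(256, 24, 11)]
    0x41e = true := by
  decide +kernel

def r_1382_6 : chkL rootF engF2 tA tA sA_268 sA_268 4 F_1382 [(256, 35, 0)]
    0x106e520ac2b = true := by
  decide +kernel

theorem f_1382 (h : TabsF) : FrameF repsF 268 F_1382.f :=
  frame_of rfl c_1382 ((runs_of engOK r_1382_0).append ((runs_of engOK r_1382_1).append ((runs_of engOK r_1382_2).append ((runs_of engOK r_1382_3).append ((runs_of engOK r_1382_4).append ((runs_of engOK r_1382_5).append (runs_of engOK r_1382_6))))))) (by decide +kernel) h.1 h.1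

def F_1383 : FrX :=
  ⟨0x80080a000804040e0000210100200100000204088101100100440082048000000412102000800400a0100000441001080020900020a8801100848400200,
    0xa6, 1, 0x42718494a3, 5,
    [(0xa6, 1), (0x205396a8, 4), (0x10548796, 4), (0x214396a7, 4), (0x205396a8, 4), (0x10548796, 4)],
    [(0x42718494a3, 5), (0x406283a5, 4), (0x21708395, 4), (0x617483a9, 4), (0x406283a5, 4), (0x21708395, 4)]⟩

def c_1383 : frmChk tA tA F_1383 = true := by decide +kernel

def r_1383_0 : chkL rootF engF2 tA tA sA_268 sA_268 4 F_1383 [(511, 0, 0)]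
    0x114d430ac2b06c1b = true := by
  decide +kernel

theorem f_1383 (h : TabsF) : FrameF repsF 268 F_1383.f :=
  frame_of rfl c_1383 (runs_of engOK r_1383_0) (by decide +kernel) h.1 h.1

def F_1384 : FrX :=
  ⟨0x80080a000804040e00002101002001000002040882200002090034000002208010012000c00010010d0080108008204000400100500300c000904010010,
    0xa6, 1, 0x3040547198a4, 6,
    [(0xa6, 1), (0x205396a8, 4), (0x10548796, 4), (0x214396a7, 4), (0x205396a8, 4), (0x10548796, 4)],
    [(0x3040547198a4, 6), (0x314260a9, 4), (0x617485a3, 4), (0x318590a6, 4), (0x617485a3, 4), (0x107293a6, 4), (0x428596a0, 4), (0x318590a6, 4), (0x428596a0, 4), (0x637490a1, 4), (0x318590a6, 4), (0x107293a6, 4)]⟩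

def c_1384 : frmChk tA tB F_1384 = true := by decide +kernel

def r_1384_0 : chkL rootF engF2 tA tB sA_268 sB_268 4 F_1384 [(255, 0, 0), (256, 0, 20)]
    0x10ac17 = true := by
  decide +kernel

def r_1384_1 : chkL rootF engF2 tA tB sA_268 sB_268 4 F_1384 [(256, 20, 0)]
    0x111c5a = true := by
  decide +kernel

theorem f_1384 (h : TabsF) : FrameF repsF 268 F_1384.f :=
  frame_of rfl c_1384 ((runs_of engOK r_1384_0).append (runs_of engOK r_1384_1)) (by decide +kernel) h.1 h.2

def F_1385 : FrX :=
  ⟨0x482000044040440000c20400200090001820400008240080081000080101110102004100200802008024408c0010040240005010100120004000810028,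
    0xa0, 1, 0x10203242536090a3, 8,
    [(0xa0, 1), (0x538690a2, 4), (0x548790a1, 4), (0x21437690, 4), (0x538690a2, 4), (0x548790a1, 4)],
    [(0x10203242536090a3, 8), (0x658294a1, 4), (0x31658790, 4), (0x406572a3, 4), (0x658294a1, 4), (0x31658790, 4)]⟩

def c_1385 : frmChk tA tA F_1385 = true := by decide +kernel

def r_1385_0 : chkL rootF engF2 tA tA sA_268 sA_268 4 F_1385 [(255, 0, 0), (256, 0, 18)]
    0x103c170d8170d4350f02e0b80f1341e0f05c0781b = true := by
  decide +kernel

def r_1385_1 : chkL rootF engF2 tA tA sA_268 sA_268 4 F_1385 [(256, 18, 0)]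
    0x42b18c1730d26 = true := by
  decide +kernel

theorem f_1385 (h : TabsF) : FrameF repsF 268 F_1385.f :=
  frame_of rfl c_1385 ((runs_of engOK r_1385_0).append (runs_of engOK r_1385_1)) (by decide +kernel) h.1 h.1

def F_1386 : FrX :=
  ⟨0x2002000900044004000e0204100014100080004080100048100802200200018024002801010000420404340084001000a040020011001020200090008104,
    0xa3, 1, 0x2131408692a8, 6,
    [(0xa3, 1), (0x208693a5, 4), (0x10548793, 4), (0x217693a4, 4), (0x208693a5, 4), (0x10548793, 4)],
    [(0x2131408692a8, 6), (0x526194a8, 4), (0x435061a7, 4), (0x20618793, 4), (0x526194a8, 4), (0x435061a7, 4)]⟩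

def c_1386 : frmChk tA tA F_1386 = true := by decide +kernel

def r_1386_0 : chkL rootF engF2 tA tA sA_268 sA_268 4 F_1386 [(511, 0, 0)]
    0x109c5903c5303c631706318c362c4e43c0391a43a14c0f0cc17 = true := by
  decide +kernel

theorem f_1386 (h : TabsF) : FrameF repsF 268 F_1386.f :=
  frame_of rfl c_1386 (runs_of engOK r_1386_0) (by decide +kernel) h.1 h.1

def F_1387 : FrX :=
  ⟨0x2002000900044004000e020410001410008000408080010020a022001000a20200020200408000420a000102040000108080010041201005100804210300,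
    0xa3, 1, 0x324253718698a6, 7,
    [(0xa3, 1), (0x208693a5, 4), (0x10548793, 4), (0x217693a4, 4), (0x208693a5, 4), (0x10548793, 4)],
    [(0x324253718698a6, 7), (0x405286a9, 4), (0x32708691, 4), (0x537486a1, 4), (0x405286a9, 4), (0x32708691, 4)]⟩

def c_1387 : frmChk tA tA F_1387 = true := by decide +kernel

def r_1387_0 : chkL rootF engF2 tA tA sA_268 sA_268 4 F_1387 [(511, 0, 0)]
    0x41b05c0f22cb1 = true := by
  decide +kernel

theorem f_1387 (h : TabsF) : FrameF repsF 268 F_1387.f :=
  frame_of rfl c_1387 (runs_of engOK r_1387_0) (by decide +kernel) h.1 h.1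

def F_1388 : FrX :=
  ⟨0x482000044040440000c2040020009000182040002100404008020010000424800880800884601000080020508008100100002244100920040002200001,
    0xa0, 1, 0x418491a2, 4,
    [(0xa0, 1), (0x538690a2, 4), (0x548790a1, 4), (0x21437690, 4), (0x538690a2, 4), (0x548790a1, 4)],
    [(0x418491a2, 4), (0x637581a0, 4), (0x42768590, 4), (0x31427586, 4), (0x42768590, 4), (0x517386a9, 4), (0x426183a0, 4), (0x31427586, 4), (0x426183a0, 4), (0x31658790, 4), (0x31427586, 4), (0x517386a9, 4)]⟩

def c_1388 : frmChk tA tB F_1388 = true := by decide +kernel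

def r_1388_0 : chkL rootF engF2 tA tB sA_268 sB_268 4 F_1388 [(511, 0, 0)]
    0x10d89a0783a45b090ae0e0b8170f087 = true := by
  decide +kernel

theorem f_1388 (h : TabsF) : FrameF repsF 268 F_1388.f :=
  frame_of rfl c_1388 (runs_of engOK r_1388_0) (by decide +kernel) h.1 h.2

def F_1389 : FrX :=
  ⟨0x80080a000804040e000021010020010000020408806000044100808000040880048220014000800800408000c0404021052005000402804200208020010,
    0xa6, 1, 0x61718294a3, 5,
    [(0xa6, 1), (0x205396a8, 4), (0x10548796, 4), (0x214396a7, 4), (0x205396a8, 4), (0x10548796, 4)],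
    [(0x61718294a3, 5), (0x214380a5, 4), (0x43627095, 4), (0x436187a9, 4), (0x214380a5, 4), (0x43627095, 4)]⟩

def c_1389 : frmChk tA tA F_1389 = true := by decide +kernel

def r_1389_0 : chkL rootF engF2 tA tA sA_268 sA_268 4 F_1389 [(511, 0, 0)]
    0x10d81716817 = true := by
  decide +kernel

theorem f_1389 (h : TabsF) : FrameF repsF 268 F_1389.f :=
  frame_of rfl c_1389 (runs_of engOK r_1389_0) (by decide +kernel) h.1 h.1

def F_1390 : FrX :=
  ⟨0x2002000900044004000e02041000141000800040801000418000a02001020208100001101028000880040400040420024000806840400200240104014100,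
    0xa3, 1, 0x21435261728198a3, 8,
    [(0xa3, 1), (0x208693a5, 4), (0x10548793, 4), (0x217693a4, 4), (0x208693a5, 4), (0x10548793, 4)],
    [(0x21435261728198a3, 8), (0x517093a2, 4), (0x31526480, 4), (0x325164a9, 4), (0x31526480, 4), (0x328791a5, 4), (0x647092a3, 4), (0x325164a9, 4), (0x647092a3, 4), (0x215380a9, 4), (0x325164a9, 4), (0x328791a5, 4)]⟩

def c_1390 : frmChk tA tB F_1390 = true := by decide +kernel

def r_1390_0 : chkL rootF engF2 tA tB sA_268 sB_268 4 F_1390 [(511, 0, 0)]
    0x41b0d4170ac360cc1d = true := by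
  decide +kernel

theorem f_1390 (h : TabsF) : FrameF repsF 268 F_1390.f :=
  frame_of rfl c_1390 (runs_of engOK r_1390_0) (by decide +kernel) h.1 h.2

def F_1391 : FrX :=
  ⟨0x482000044040440000c2040020009000182040008021002000a08010014004004400101043080180000400142020040000490004010204011110000030,
    0xa0, 1, 0x10213052648192a1, 8,
    [(0xa0, 1), (0x538690a2, 4), (0x548790a1, 4), (0x21437690, 4), (0x538690a2, 4), (0x548790a1, 4)],
    [(0x10213052648192a1, 8), (0x10428593, 4), (0x607285a3, 4), (0x617485a9, 4), (0x10428593, 4), (0x607285a3, 4)]⟩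

def c_1391 : frmChk tA tA F_1391 = true := by decide +kernel

def r_1391_0 : chkL rootF engF2 tA tA sA_268 sA_268 4 F_1391 [(511, 0, 0)]
    0x10e8391a8360d86a1a84b0d81b0ac4d2686a198e203cca4390bc283305c0f05e19c2499 = true := by
  decide +kernel

theorem f_1391 (h : TabsF) : FrameF repsF 268 F_1391.f :=
  frame_of rfl c_1391 (runs_of engOK r_1391_0) (by decide +kernel) h.1 h.1

def F_1392 : FrX :=
  ⟨0x80080a000804040e00002101002001000002040880a00004210080140004088004820001403080080040800140401040002010800408804240088020010,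
    0xa6, 1, 0x3240538090a1, 6,
    [(0xa6, 1), (0x205396a8, 4), (0x10548796, 4), (0x214396a7, 4), (0x205396a8, 4), (0x10548796, 4)],
    [(0x3240538090a1, 6), (0x52648193, 4), (0x207481a9, 4), (0x507681a3, 4), (0x52648193, 4), (0x207481a9, 4)]⟩

def c_1392 : frmChk tA tA F_1392 = true := by decide +kernel

def r_1392_0 : chkL rootF engF2 tA tA sA_268 sA_268 4 F_1392 [(511, 0, 0)]
    0x10b41b1644e03c27 = true := by
  decide +kernel

theorem f_1392 (h : TabsF) : FrameF repsF 268 F_1392.f :=
  frame_of rfl c_1392 (runs_of engOK r_1392_0) (by decide +kernel) h.1 h.1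

def F_1393 : FrX :=
  ⟨0x2002000900044004000e02041000141000800040801000228008041001020a0800000110104b000880040400040420001001810040400200300104011100,
    0xa3, 1, 0x203160768194a6, 7,
    [(0xa3, 1), (0x208693a5, 4), (0x10548793, 4), (0x217693a4, 4), (0x208693a5, 4), (0x10548793, 4)],
    [(0x203160768194a6, 7), (0x516074a3, 4), (0x32748695, 4), (0x748091a2, 4), (0x516074a3, 4), (0x32748695, 4)]⟩

def c_1393 : frmChk tA tA F_1393 = true := by decide +kernel

def r_1393_0 : chkL rootF engF2 tA tA sA_268 sA_268 4 F_1393 [(255, 0, 0), (256, 0, 18)]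
    0x4170cc33 = true := by
  decide +kernel

def r_1393_1 : chkL rootF engF2 tA tA sA_268 sA_268 4 F_1393 [(256, 18, 0)]
    0x1438170d447 = true := by
  decide +kernel

theorem f_1393 (h : TabsF) : FrameF repsF 268 F_1393.f :=
  frame_of rfl c_1393 ((runs_of engOK r_1393_0).append (runs_of engOK r_1393_1)) (by decide +kernel) h.1 h.1

def F_1394 : FrX :=
  ⟨0x482000044040440000c2040020009000182040002100404000880200004090020210802022000403800801080210202080004080500090002024200004,
    0xa0, 1, 0x416592a1, 4,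
    [(0xa0, 1), (0x538690a2, 4), (0x548790a1, 4), (0x21437690, 4), (0x538690a2, 4), (0x548790a1, 4)],
    [(0x416592a1, 4), (0x53768190, 4), (0x426175a0, 4), (0x42517683, 4), (0x426175a0, 4), (0x517386a9, 4), (0x31428590, 4), (0x42517683, 4), (0x31428590, 4), (0x657183a0, 4), (0x42517683, 4), (0x517386a9, 4)]⟩

def c_1394 : frmChk tA tB F_1394 = true := by decide +kernel

def r_1394_0 : chkL rootF engF2 tA tB sA_268 sB_268 4 F_1394 [(511, 0, 0)]
    0x107a2611c2dd12461b017138d2 = true := by
  decide +kernel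

theorem f_1394 (h : TabsF) : FrameF repsF 268 F_1394.f :=
  frame_of rfl c_1394 (runs_of engOK r_1394_0) (by decide +kernel) h.1 h.2

def F_1395 : FrX :=
  ⟨0x1c2102000004044000002041000101000082040890080080000802400200404020404050000030400020140828020240980080006010022440002200080,
    0x0, 0, 0x53637486, 4,
    [(0x0, 0), (0x205386a9, 4), (0x105487a9, 4), (0x214376a9, 4), (0x205386a9, 4), (0x105487a9, 4)],
    [(0x53637486, 4), (0x20437586, 4), (0x107384a9, 4), (0x436587a9, 4), (0x107384a9, 4), (0x21536487, 4), (0x207685a9, 4), (0x436587a9, 4), (0x207685a9, 4), (0x10657483, 4), (0x436587a9, 4), (0x21536487, 4)]⟩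

def c_1395 : frmChk tA tB F_1395 = true := by decide +kernel

def r_1395_0 : chkL rootF engF2 tA tB sA_268 sB_268 4 F_1395 [(255, 0, 0), (256, 0, 3)]
    0x1 = true := by
  decide +kernel

def r_1395_1 : chkL rootF engF2 tA tB sA_268 sB_268 4 F_1395 [(256, 3, 3)]
    0x4b1 = true := by
  decide +kernel

def r_1395_2 : chkL rootF engF2 tA tB sA_268 sB_268 4 F_1395 [(256, 6, 4)]
    0x10e8172709c = true := by
  decide +kernel

def r_1395_3 : chkL rootF engF2 tA tB sA_268 sB_268 4 F_1395 [(256, 10, 5)]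
    0x1194e4615a1 = true := by
  decide +kernel

def r_1395_4 : chkL rootF engF2 tA tB sA_268 sB_268 4 F_1395 [(256, 15, 5)]
    0x1 = true := by
  decide +kernel

def r_1395_5 : chkL rootF engF2 tA tB sA_268 sB_268 4 F_1395 [(256, 20, 17)]
    0x1 = true := by
  decide +kernel

def r_1395_6 : chkL rootF engF2 tA tB sA_268 sB_268 4 F_1395 [(256, 37, 0)]
    0x1 = true := by
  decide +kernel

theorem f_1395 (h : TabsF) : FrameF repsF 268 F_1395.f :=
  frame_of rfl c_1395 ((runs_of engOK r_1395_0).append ((runs_of engOK r_1395_1).append ((runs_of engOK r_1395_2).append ((runs_of engOK r_1395_3).append ((runs_of engOK r_1395_4).append ((runs_of engOK r_1395_5).append (runs_of engOK r_1395_6))))))) (by decide +kernel) h.1 h.2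

def F_1396 : FrX :=
  ⟨0x482000044040440000c2040020009000182040010080080101000180020102808810000804040410000220408020c00038100010410080014220000084,
    0xa0, 1, 0x103242608598a6, 7,
    [(0xa0, 1), (0x538690a2, 4), (0x548790a1, 4), (0x21437690, 4), (0x538690a2, 4), (0x548790a1, 4)],
    [(0x103242608598a6, 7), (0x516482a9, 4), (0x51608397, 4), (0x324051a7, 4), (0x516482a9, 4), (0x51608397, 4)]⟩

def c_1396 : frmChk tA tA F_1396 = true := by decide +kernel

def r_1396_0 : chkL rootF engF2 tA tA sA_268 sA_268 4 F_1396 [(511, 0, 0)]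
    0x10781e0d82ea14b8a30780792603d232700f = true := by
  decide +kernel

theorem f_1396 (h : TabsF) : FrameF repsF 268 F_1396.f :=
  frame_of rfl c_1396 (runs_of engOK r_1396_0) (by decide +kernel) h.1 h.1

def F_1397 : FrX :=
  ⟨0x482000044040440000c2040020009000182040010080080102000804010444220400001001080120000440802010428080091010210200001002000092,
    0xa0, 1, 0x203143658098a7, 7,
    [(0xa0, 1), (0x538690a2, 4), (0x548790a1, 4), (0x21437690, 4), (0x538690a2, 4), (0x548790a1, 4)],
    [(0x203143658098a7, 7), (0x64728095, 4), (0x617283a9, 4), (0x304172a5, 4), (0x64728095, 4), (0x617283a9, 4)]⟩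

def c_1397 : frmChk tA tA F_1397 = true := by decide +kernel

def r_1397_0 : chkL rootF engF2 tA tA sA_268 sA_268 4 F_1397 [(511, 0, 0)]
    0x7140d8c30d836 = true := by
  decide +kernel

theorem f_1397 (h : TabsF) : FrameF repsF 268 F_1397.f :=
  frame_of rfl c_1397 (runs_of engOK r_1397_0) (by decide +kernel) h.1 h.1

def F_1398 : FrX :=
  ⟨0x1c21020000040440000020410001010000820408a0001100000400110202100008214000024040410800200088060c00228100011010000404222400200,
    0x0, 0, 0x206483, 3,
    [(0x0, 0), (0x205386a9, 4), (0x105487a9, 4), (0x214376a9, 4), (0x205386a9, 4), (0x105487a9, 4)],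
    [(0x206483, 3), (0x204385a9, 4), (0x216573a9, 4), (0x107486a9, 4), (0x204385a9, 4), (0x216573a9, 4)]⟩

def c_1398 : frmChk tA tA F_1398 = true := by decide +kernel

def r_1398_0 : chkL rootF engF2 tA tA sA_268 sA_268 4 F_1398 [(255, 0, 0), (256, 0, 4)]
    0x1 = true := by
  decide +kernel

def r_1398_1 : chkL rootF engF2 tA tA sA_268 sA_268 4 F_1398 [(256, 4, 16)]
    0x115a230da321347809cb42581785a1625a8585a94 = true := by
  decide +kernel

def r_1398_2 : chkL rootF engF2 tA tA sA_268 sA_268 4 F_1398 [(256, 20, 6)]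
    0x185625 = true := by
  decide +kernel

def r_1398_3 : chkL rootF engF2 tA tA sA_268 sA_268 4 F_1398 [(256, 26, 3)]
    0x453 = true := by
  decide +kernel

def r_1398_4 : chkL rootF engF2 tA tA sA_268 sA_268 4 F_1398 [(256, 29, 4)]
    0x112c4b = true := by
  decide +kernel

def r_1398_5 : chkL rootF engF2 tA tA sA_268 sA_268 4 F_1398 [(256, 33, 4)]
    0x41b = true := by
  decide +kernel

def r_1398_6 : chkL rootF engF2 tA tA sA_268 sA_268 4 F_1398 [(256, 37, 0)]
    0x1 = true := by
  decide +kernel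

theorem f_1398 (h : TabsF) : FrameF repsF 268 F_1398.f :=
  frame_of rfl c_1398 ((runs_of engOK r_1398_0).append ((runs_of engOK r_1398_1).append ((runs_of engOK r_1398_2).append ((runs_of engOK r_1398_3).append ((runs_of engOK r_1398_4).append ((runs_of engOK r_1398_5).append (runs_of engOK r_1398_6))))))) (by decide +kernel) h.1 h.1

def F_1399 : FrX :=
  ⟨0x80080a000804040e00002101002001000002040890020001410018008204004020011010000031000028000828001240824000006001022440080808080,
    0xa6, 1, 0x32417095a8, 5,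
    [(0xa6, 1), (0x205396a8, 4), (0x10548796, 4), (0x214396a7, 4), (0x205396a8, 4), (0x10548796, 4)],
    [(0x32417095a8, 5), (0x627390a1, 4), (0x60748591, 4), (0x618590a2, 4), (0x60748591, 4), (0x204361a9, 4), (0x217385a6, 4), (0x618590a2, 4), (0x217385a6, 4), (0x107496a2, 4), (0x618590a2, 4), (0x204361a9, 4)]⟩

def c_1399 : frmChk tA tB F_1399 = true := by decide +kernel

def r_1399_0 : chkL rootF engF2 tA tB sA_268 sB_268 4 F_1399 [(511, 0, 0)]
    0x12e0b82344d0f0b806c55 = true := by
  decide +kernel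

theorem f_1399 (h : TabsF) : FrameF repsF 268 F_1399.f :=
  frame_of rfl c_1399 (runs_of engOK r_1399_0) (by decide +kernel) h.1 h.2

def F_1400 : FrX :=
  ⟨0x600020801080810000c0040180410101001004010010048000001442000c000848001020002201400024004002200402080a0400200800420041600042,
    0xa0, 1, 0x3143627197a6, 6,
    [(0xa0, 1), (0x637584a2, 4), (0x547690a1, 4), (0x64758390, 4), (0x547690a1, 4), (0x21647385, 4), (0x438690a2, 4), (0x64758390, 4), (0x438690a2, 4), (0x657483a1, 4), (0x64758390, 4), (0x21647385, 4)],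
    [(0x3143627197a6, 6), (0x325460a8, 4), (0x32517098, 4), (0x324176a9, 4), (0x325460a8, 4), (0x32517098, 4)]⟩

def c_1400 : frmChk tB tA F_1400 = true := by decide +kernel

def r_1400_0 : chkL rootF engF2 tB tA sB_268 sA_268 4 F_1400 [(511, 0, 0)]
    0x106c5503c9c07685a501d0b466 = true := by
  decide +kernel

theorem f_1400 (h : TabsF) : FrameF repsF 268 F_1400.f :=
  frame_of rfl c_1400 (runs_of engOK r_1400_0) (by decide +kernel) h.2 h.1

def F_1401 : FrX :=
  ⟨0x600020801080810000c00401804101010010040100100480000014408208040048001020002201400024004002104002800a0400204004504000440042,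
    0xa0, 1, 0x4161708592a8, 6,
    [(0xa0, 1), (0x637584a2, 4), (0x547690a1, 4), (0x64758390, 4), (0x547690a1, 4), (0x21647385, 4), (0x438690a2, 4), (0x64758390, 4), (0x438690a2, 4), (0x657483a1, 4), (0x64758390, 4), (0x21647385, 4)],
    [(0x4161708592a8, 6), (0x528397a4, 4), (0x527681a0, 4), (0x31405296, 4), (0x528397a4, 4), (0x527681a0, 4)]⟩

def c_1401 : frmChk tB tA F_1401 = true := by decide +kernel

def r_1401_0 : chkL rootF engF2 tB tA sB_268 sA_268 4 F_1401 [(511, 0, 0)]
    0x41e0790e = true := by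
  decide +kernel

theorem f_1401 (h : TabsF) : FrameF repsF 268 F_1401.f :=
  frame_of rfl c_1401 (runs_of engOK r_1401_0) (by decide +kernel) h.2 h.1

def F_1402 : FrX :=
  ⟨0x1c4044000008081000000840080410000101084042200100001081000020800804101102020200040022400022220040008020408a20800022041220200,
    0x0, 0, 0x21546487, 4,
    [(0x0, 0), (0x20637584, 4), (0x105476a9, 4), (0x647583a9, 4), (0x105476a9, 4), (0x21647385, 4), (0x204386a9, 4), (0x647583a9, 4), (0x204386a9, 4), (0x10657483, 4), (0x647583a9, 4), (0x21647385, 4)],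
    [(0x21546487, 4), (0x104375a9, 4), (0x206487a9, 4), (0x216385a9, 4), (0x104375a9, 4), (0x206487a9, 4)]⟩

def c_1402 : frmChk tB tA F_1402 = true := by decide +kernel

def r_1402_0 : chkL rootF engF2 tB tA sB_268 sA_268 4 F_1402 [(255, 0, 0), (256, 0, 7)]
    0x4e1 = true := by
  decide +kernel

def r_1402_1 : chkL rootF engF2 tB tA sB_268 sA_268 4 F_1402 [(256, 7, 6)]
    0x453 = true := by
  decide +kernel

def r_1402_2 : chkL rootF engF2 tB tA sB_268 sA_268 4 F_1402 [(256, 13, 6)]
    0x4170741d = true := by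
  decide +kernel

def r_1402_3 : chkL rootF engF2 tB tA sB_268 sA_268 4 F_1402 [(256, 19, 12)]
    0x106ccc13899 = true := by
  decide +kernel

def r_1402_4 : chkL rootF engF2 tB tA sB_268 sA_268 4 F_1402 [(256, 31, 3)]
    0x1 = true := by
  decide +kernel

def r_1402_5 : chkL rootF engF2 tB tA sB_268 sA_268 4 F_1402 [(256, 34, 7)]
    0x41b = true := by
  decide +kernel

def r_1402_6 : chkL rootF engF2 tB tA sB_268 sA_268 4 F_1402 [(256, 41, 0)]
    0x41e = true := by
  decide +kernel

theorem f_1402 (h : TabsF) : FrameF repsF 268 F_1402.f :=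
  frame_of rfl c_1402 ((runs_of engOK r_1402_0).append ((runs_of engOK r_1402_1).append ((runs_of engOK r_1402_2).append ((runs_of engOK r_1402_3).append ((runs_of engOK r_1402_4).append ((runs_of engOK r_1402_5).append (runs_of engOK r_1402_6))))))) (by decide +kernel) h.2 h.1

def F_1403 : FrX :=
  ⟨0x1001040012008080000e0084080041000810100004200802402060000408008004820200120000882000101200040042000420820a200088082009200040,
    0xa3, 1, 0x20314251708396a3, 8,
    [(0xa3, 1), (0x207584a6, 4), (0x10547693, 4), (0x647593a8, 4), (0x10547693, 4), (0x216485a7, 4), (0x208693a4, 4), (0x647593a8, 4), (0x208693a4, 4), (0x106574a8, 4), (0x647593a8, 4), (0x216485a7, 4)],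
    [(0x20314251708396a3, 8), (0x103274a9, 4), (0x30758692, 4), (0x328690a1, 4), (0x30758692, 4), (0x315490a2, 4), (0x748691a0, 4), (0x328690a1, 4), (0x748691a0, 4), (0x207593a1, 4), (0x328690a1, 4), (0x315490a2, 4)]⟩

def c_1403 : frmChk tB tB F_1403 = true := by decide +kernel

def r_1403_0 : chkL rootF engF2 tB tB sB_268 sB_268 4 F_1403 [(511, 0, 0)]
    0x118d6106c8bd1145d108b = true := by
  decide +kernel

theorem f_1403 (h : TabsF) : FrameF repsF 268 F_1403.f :=
  frame_of rfl c_1403 (runs_of engOK r_1403_0) (by decide +kernel) h.2 h.2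

def F_1404 : FrX :=
  ⟨0x2002000900044004000e020410001410008000408080010020808404020040801003800040200102a8000400092010100040420005001000011110008410,
    0xa3, 1, 0x547594a3, 4,
    [(0xa3, 1), (0x208693a5, 4), (0x10548793, 4), (0x217693a4, 4), (0x208693a5, 4), (0x10548793, 4)],
    [(0x547594a3, 4), (0x205386a7, 4), (0x10538497, 4), (0x215364a9, 4), (0x205386a7, 4), (0x10538497, 4)]⟩

def c_1404 : frmChk tA tA F_1404 = true := by decide +kernel

def r_1404_0 : chkL rootF engF2 tA tA sA_268 sA_268 4 F_1404 [(511, 0, 0)]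
    0x10742703c551941b24c170f1494a54c05c5505c3303c2712c1b = true := by
  decide +kernel

theorem f_1404 (h : TabsF) : FrameF repsF 268 F_1404.f :=
  frame_of rfl c_1404 (runs_of engOK r_1404_0) (by decide +kernel) h.1 h.1

def F_1405 : FrX :=
  ⟨0x482000044040440000c2040020009000182040000a0004800802008081005001008040088800008008022001c42000200800440c008084040024000801,
    0xa0, 1, 0x203251617090a1, 7,
    [(0xa0, 1), (0x538690a2, 4), (0x548790a1, 4), (0x21437690, 4), (0x538690a2, 4), (0x548790a1, 4)],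
    [(0x203251617090a1, 7), (0x10768593, 4), (0x417682a9, 4), (0x405276a3, 4), (0x10768593, 4), (0x417682a9, 4)]⟩

def c_1405 : frmChk tA tA F_1405 = true := by decide +kernel

def r_1405_0 : chkL rootF engF2 tA tA sA_268 sA_268 4 F_1405 [(511, 0, 0)]
    0x105c1705c1b06c470ac17 = true := by
  decide +kernel

theorem f_1405 (h : TabsF) : FrameF repsF 268 F_1405.f :=
  frame_of rfl c_1405 (runs_of engOK r_1405_0) (by decide +kernel) h.1 h.1

def F_1406 : FrX :=
  ⟨0x80080a000804040e0000210100200100000204089001000808400410048000b000001082008005008001021c00201120100100041000804040805080040,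
    0xa6, 1, 0x328695a8, 4,
    [(0xa6, 1), (0x205396a8, 4), (0x10548796, 4), (0x214396a7, 4), (0x205396a8, 4), (0x10548796, 4)],
    [(0x328695a8, 4), (0x308297a4, 4), (0x10658794, 4), (0x658497a2, 4), (0x10658794, 4), (0x317284a9, 4), (0x304265a8, 4), (0x658497a2, 4), (0x304265a8, 4), (0x107498a2, 4), (0x658497a2, 4), (0x317284a9, 4)]⟩

def c_1406 : frmChk tA tB F_1406 = true := by decide +kernel

def r_1406_0 : chkL rootF engF2 tA tB sA_268 sB_268 4 F_1406 [(511, 0, 0)]
    0x111e0d85439 = true := by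
  decide +kernel

theorem f_1406 (h : TabsF) : FrameF repsF 268 F_1406.f :=
  frame_of rfl c_1406 (runs_of engOK r_1406_0) (by decide +kernel) h.1 h.2

def F_1407 : FrX :=
  ⟨0x482000044040440000c2040020009000182040001200082001020800820810010010100902000080080404312010400040004012440100101010800600,
    0xa0, 1, 0x203142627092a0, 7,
    [(0xa0, 1), (0x538690a2, 4), (0x548790a1, 4), (0x21437690, 4), (0x538690a2, 4), (0x548790a1, 4)],
    [(0x203142627092a0, 7), (0x517684a9, 4), (0x507682a3, 4), (0x10427693, 4), (0x517684a9, 4), (0x507682a3, 4)]⟩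

def c_1407 : frmChk tA tA F_1407 = true := by decide +kernel

def r_1407_0 : chkL rootF engF2 tA tA sA_268 sA_268 4 F_1407 [(511, 0, 0)]
    0x1078360e40f = true := by
  decide +kernel

theorem f_1407 (h : TabsF) : FrameF repsF 268 F_1407.f :=
  frame_of rfl c_1407 (runs_of engOK r_1407_0) (by decide +kernel) h.1 h.1

def F_1408 : FrX :=
  ⟨0x2002000900044004000e0204100014100080004080040208012000420001404104000a010040080802020009c0800000a024220000600200402040080050,
    0xa3, 1, 0x2064718398a6, 6,
    [(0xa3, 1), (0x208693a5, 4), (0x10548793, 4), (0x217693a4, 4), (0x208693a5, 4), (0x10548793, 4)],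
    [(0x2064718398a6, 6), (0x205196a8, 4), (0x436572a1, 4), (0x435198a6, 4), (0x436572a1, 4), (0x708195a6, 4), (0x204386a9, 4), (0x435198a6, 4), (0x204386a9, 4), (0x617298a5, 4), (0x435198a6, 4), (0x708195a6, 4)]⟩

def c_1408 : frmChk tA tB F_1408 = true := by decide +kernel

def r_1408_0 : chkL rootF engF2 tA tB sA_268 sB_268 4 F_1408 [(255, 0, 0), (256, 0, 16)]
    0x44d05c360f0711a8271e0271340f = true := by
  decide +kernel

def r_1408_1 : chkL rootF engF2 tA tB sA_268 sB_268 4 F_1408 [(256, 16, 0)]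
    0x4170f03c03c8e07447171150d436 = true := by
  decide +kernel

theorem f_1408 (h : TabsF) : FrameF repsF 268 F_1408.f :=
  frame_of rfl c_1408 ((runs_of engOK r_1408_0).append (runs_of engOK r_1408_1)) (by decide +kernel) h.1 h.2

def F_1409 : FrX :=
  ⟨0x80080a000804040e000021010020010000020408806000044040900000800820220204014000800208008008800504010000404480009003000c0204108,
    0xa6, 1, 0x314253728097a3, 7,
    [(0xa6, 1), (0x205396a8, 4), (0x10548796, 4), (0x214396a7, 4), (0x205396a8, 4), (0x10548796, 4)],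
    [(0x314253728097a3, 7), (0x208791a6, 4), (0x21548396, 4), (0x546291a0, 4), (0x21548396, 4), (0x106273a9, 4), (0x546087a2, 4), (0x546291a0, 4), (0x546087a2, 4), (0x618392a0, 4), (0x546291a0, 4), (0x106273a9, 4)]⟩

def c_1409 : frmChk tA tB F_1409 = true := by decide +kernel

def r_1409_0 : chkL rootF engF2 tA tB sA_268 sB_268 4 F_1409 [(511, 0, 0)]
    0x4531542d03c0f = true := by
  decide +kernel

theorem f_1409 (h : TabsF) : FrameF repsF 268 F_1409.f :=
  frame_of rfl c_1409 (runs_of engOK r_1409_0) (by decide +kernel) h.1 h.2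

theorem cl_268 (h : TabsF) : ∀ f ∈ fr_268, FrameF repsF 268 f :=
  List.forall_mem_cons.2 ⟨f_1382 h, List.forall_mem_cons.2 ⟨f_1383 h, List.forall_mem_cons.2 ⟨f_1384 h, List.forall_mem_cons.2 ⟨f_1385 h, List.forall_mem_cons.2 ⟨f_1386 h, List.forall_mem_cons.2 ⟨f_1387 h, List.forall_mem_cons.2 ⟨f_1388 h, List.forall_mem_cons.2 ⟨f_1389 h, List.forall_mem_cons.2 ⟨f_1390 h, List.forall_mem_cons.2 ⟨f_1391 h, List.forall_mem_cons.2 ⟨f_1392 h, List.forall_mem_cons.2 ⟨f_1393 h, List.forall_mem_cons.2 ⟨f_1394 h, List.forall_mem_cons.2 ⟨f_1395 h, List.forall_mem_cons.2 ⟨f_1396 h, List.forall_mem_cons.2 ⟨f_1397 h, List.forall_mem_cons.2 ⟨f_1398 h, List.forall_mem_cons.2 ⟨f_1399 h, List.forall_mem_cons.2 ⟨f_1400 h, List.forall_mem_cons.2 ⟨f_1401 h, List.forall_mem_cons.2 ⟨f_1402 h, List.forall_mem_cons.2 ⟨f_1403 h, List.forall_mem_cons.2 ⟨f_1404 h, List.forall_mem_cons.2 ⟨f_1405 h, List.forall_mem_cons.2 ⟨f_1406 h, List.forall_mem_cons.2 ⟨f_1407 h, List.forall_mem_cons.2 ⟨f_1408 h, List.forall_mem_cons.2 ⟨f_1409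 h,
    fun _ h0 => absurd h0 List.not_mem_nil⟩⟩⟩⟩⟩⟩⟩⟩⟩⟩⟩⟩⟩⟩⟩⟩⟩⟩⟩⟩⟩⟩⟩⟩⟩⟩⟩⟩

def F_1410 : FrX :=
  ⟨0x80080a000804040e00002101002001000002040880420408008400080810000009080620144000080030000501100403004208020402200500042800000,
    0xa6, 1, 0x30758298a0, 5,
    [(0xa6, 1), (0x205396a8, 4), (0x10548796, 4), (0x214396a7, 4), (0x205396a8, 4), (0x10548796, 4)],
    [(0x30758298a0, 5), (0x607594a8, 4), (0x326574a1, 4), (0x32647590, 4), (0x326574a1, 4), (0x50648197, 4), (0x324096a8, 4), (0x32647590, 4), (0x324096a8, 4), (0x547690a1, 4), (0x32647590, 4), (0x50648197, 4)]⟩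

def c_1410 : frmChk tA tB F_1410 = true := by decide +kernel

def r_1410_0 : chkL rootF engF2 tA tB sA_269 sB_269 4 F_1410 [(255, 0, 0), (256, 0, 19)]
    0x1134a3 = true := by
  decide +kernel

def r_1410_1 : chkL rootF engF2 tA tB sA_269 sB_269 4 F_1410 [(256, 19, 0)]
    0x41b12c0f05c172a49a = true := by
  decide +kernel

theorem f_1410 (h : TabsF) : FrameF repsF 269 F_1410.f :=
  frame_of rfl c_1410 ((runs_of engOK r_1410_0).append (runs_of engOK r_1410_1)) (by decide +kernel) h.1 h.2

def F_1411 : FrX :=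
  ⟨0x2002000900044004000e0204100014100080004080800200a0a0000110012101040200001020080840c000110100000c0084008200ac00020008000a1010,
    0xa3, 1, 0x10326185a4, 5,
    [(0xa3, 1), (0x208693a5, 4), (0x10548793, 4), (0x217693a4, 4), (0x208693a5, 4), (0x10548793, 4)],
    [(0x10326185a4, 5), (0x203187a5, 4), (0x617094a8, 4), (0x528794a0, 4), (0x617094a8, 4), (0x637285a0, 4), (0x315094a2, 4), (0x528794a0, 4), (0x315094a2, 4), (0x526180a7, 4), (0x528794a0, 4), (0x637285a0, 4)]⟩

def c_1411 : frmChk tA tB F_1411 = true := by decide +kernel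

def r_1411_0 : chkL rootF engF2 tA tB sA_269 sB_269 4 F_1411 [(511, 0, 0)]
    0x44b0cc330741d074331383506c6a6a06c = true := by
  decide +kernel

theorem f_1411 (h : TabsF) : FrameF repsF 269 F_1411.f :=
  frame_of rfl c_1411 (runs_of engOK r_1411_0) (by decide +kernel) h.1 h.2

def F_1412 : FrX :=
  ⟨0x2002000900044004000e0204100014100080004081000001810100410200404022010801000004880202c1408000100010108201100c0008004200008084,
    0xa3, 1, 0x1041507091a3, 6,
    [(0xa3, 1), (0x208693a5, 4), (0x10548793, 4), (0x217693a4, 4), (0x208693a5, 4), (0x10548793, 4)],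
    [(0x1041507091a3, 6), (0x437286a1, 4), (0x10438597, 4), (0x436592a0, 4), (0x437286a1, 4), (0x10438597, 4)]⟩

def c_1412 : frmChk tA tA F_1412 = true := by decide +kernel

def r_1412_0 : chkL rootF engF2 tA tA sA_269 sA_269 4 F_1412 [(511, 0, 0)]
    0x10b86609c1705cc53191c265076610e1346505e460ba2c0cccc32ac809c6314c71 = true := by
  decide +kernel

theorem f_1412 (h : TabsF) : FrameF repsF 269 F_1412.f :=
  frame_of rfl c_1412 (runs_of engOK r_1412_0) (by decide +kernel) h.1 h.1

def F_1413 : FrX :=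
  ⟨0x80080a000804040e000021010020010000020408806000081044004000b00000480804010880024008008010141100800000482220404021008c0200000,
    0xa6, 1, 0x2140768395a6, 6,
    [(0xa6, 1), (0x205396a8, 4), (0x10548796, 4), (0x214396a7, 4), (0x205396a8, 4), (0x10548796, 4)],
    [(0x2140768395a6, 6), (0x417598a3, 4), (0x42637590, 4), (0x217580a6, 4), (0x417598a3, 4), (0x42637590, 4)]⟩

def c_1413 : frmChk tA tA F_1413 = true := by decide +kernel

def r_1413_0 : chkL rootF engF2 tA tA sA_269 sA_269 4 F_1413 [(255, 0, 0), (256, 0, 22)]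
    0x40f03c1b0b8a319427b0459707c0078991545cf00173c01e06c170b43c0f0b2 = true := by
  decide +kernel

def r_1413_1 : chkL rootF engF2 tA tA sA_269 sA_269 4 F_1413 [(256, 22, 0)]
    0x4170b41d1984d05c17170551705912c4d0b83c328a93a02e3a02e0b42d0b4170b41b = true := by
  decide +kernel

theorem f_1413 (h : TabsF) : FrameF repsF 269 F_1413.f :=
  frame_of rfl c_1413 ((runs_of engOK r_1413_0).append (runs_of engOK r_1413_1)) (by decide +kernel) h.1 h.1

def F_1414 : FrX :=
  ⟨0x482000044040440000c20400200090001820400100800208100048040001882084000010080081080408110060080080140080022c0002300000010082,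
    0xa0, 1, 0x10315063718797a0, 8,
    [(0xa0, 1), (0x538690a2, 4), (0x548790a1, 4), (0x21437690, 4), (0x538690a2, 4), (0x548790a1, 4)],
    [(0x10315063718797a0, 8), (0x306185a2, 4), (0x418593a7, 4), (0x64728590, 4), (0x306185a2, 4), (0x418593a7, 4)]⟩

def c_1414 : frmChk tA tA F_1414 = true := by decide +kernel

def r_1414_0 : chkL rootF engF2 tA tA sA_269 sA_269 4 F_1414 [(511, 0, 0)]
    0x41e11c9522de0269e00d463 = true := by
  decide +kernel

theorem f_1414 (h : TabsF) : FrameF repsF 269 F_1414.f :=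
  frame_of rfl c_1414 (runs_of engOK r_1414_0) (by decide +kernel) h.1 h.1

def F_1415 : FrX :=
  ⟨0x482000044040440000c2040020009000182040004011040000a00810080402008080410020149000040010888008010104002100080082060010800401,
    0xa0, 1, 0x324061768690a6, 7,
    [(0xa0, 1), (0x538690a2, 4), (0x548790a1, 4), (0x21437690, 4), (0x538690a2, 4), (0x548790a1, 4)],
    [(0x324061768690a6, 7), (0x517093a2, 4), (0x508496a1, 4), (0x517284a0, 4), (0x508496a1, 4), (0x216375a0, 4), (0x208493a7, 4), (0x517284a0, 4), (0x208493a7, 4), (0x107296a5, 4), (0x517284a0, 4), (0x216375a0, 4)]⟩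

def c_1415 : frmChk tA tB F_1415 = true := by decide +kernel

def r_1415_0 : chkL rootF engF2 tA tB sA_269 sB_269 4 F_1415 [(255, 0, 0), (256, 0, 18)]
    0x10da0e05c39 = true := by
  decide +kernel

def r_1415_1 : chkL rootF engF2 tA tB sA_269 sB_269 4 F_1415 [(256, 18, 20)]
    0x43911c1d078278542b = true := by
  decide +kernel

def r_1415_2 : chkL rootF engF2 tA tB sA_269 sB_269 4 F_1415 [(256, 38, 0)]
    0x1 = true := by
  decide +kernel

theorem f_1415 (h : TabsF) : FrameF repsF 269 F_1415.f :=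
  frame_of rfl c_1415 ((runs_of engOK r_1415_0).append ((runs_of engOK r_1415_1).append (runs_of engOK r_1415_2))) (by decide +kernel) h.1 h.2

def F_1416 : FrX :=
  ⟨0x482000044040440000c204002000900018204000100822800420000402100801040010102800048000014028102000800c008202004402100a02100004,
    0xa0, 1, 0x324253617285a0, 7,
    [(0xa0, 1), (0x538690a2, 4), (0x548790a1, 4), (0x21437690, 4), (0x538690a2, 4), (0x548790a1, 4)],
    [(0x324253617285a0, 7), (0x325184a7, 4), (0x418390a6, 4), (0x31528490, 4), (0x418390a6, 4), (0x31547682, 4), (0x215390a7, 4), (0x31528490, 4), (0x215390a7, 4), (0x435281a6, 4), (0x31528490, 4), (0x31547682, 4)]⟩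

def c_1416 : frmChk tA tB F_1416 = true := by decide +kernel

def r_1416_0 : chkL rootF engF2 tA tB sA_269 sB_269 4 F_1416 [(511, 0, 0)]
    0x4170ac17838170ba3424c9905c0f03c1e09c5312e15164d8854593601e03c27318e40e81d05c2703c1e = true := by
  decide +kernel

theorem f_1416 (h : TabsF) : FrameF repsF 269 F_1416.f :=
  frame_of rfl c_1416 (runs_of engOK r_1416_0) (by decide +kernel) h.1 h.2

def F_1417 : FrX :=
  ⟨0x1001040012008080000e00840800410008101000040820081020010023000020048048004020108208004800411000210014941000000440014100000084,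
    0xa3, 1, 0x4152738096a3, 6,
    [(0xa3, 1), (0x207584a6, 4), (0x10547693, 4), (0x647593a8, 4), (0x10547693, 4), (0x216485a7, 4), (0x208693a4, 4), (0x647593a8, 4), (0x208693a4, 4), (0x106574a8, 4), (0x647593a8, 4), (0x216485a7, 4)],
    [(0x4152738096a3, 6), (0x103285a9, 4), (0x21768493, 4), (0x327691a0, 4), (0x21768493, 4), (0x205491a3, 4), (0x768590a1, 4), (0x327691a0, 4), (0x768590a1, 4), (0x318492a0, 4), (0x327691a0, 4), (0x205491a3, 4)]⟩

def c_1417 : frmChk tB tB F_1417 = true := by decide +kernel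

def r_1417_0 : chkL rootF engF2 tB tB sB_269 sB_269 4 F_1417 [(511, 0, 0)]
    0x1 = true := by
  decide +kernel

theorem f_1417 (h : TabsF) : FrameF repsF 269 F_1417.f :=
  frame_of rfl c_1417 (runs_of engOK r_1417_0) (by decide +kernel) h.2 h.2

def F_1418 : FrX :=
  ⟨0x1001040012008080000e00840800410008101000060000028080400142002030030200000100404140084200400010202000088802000808082003002c04,
    0xa3, 1, 0x324065718295a6, 7,
    [(0xa3, 1), (0x207584a6, 4), (0x10547693, 4), (0x647593a8, 4), (0x10547693, 4), (0x216485a7, 4), (0x208693a4, 4), (0x647593a8, 4), (0x208693a4, 4), (0x106574a8, 4), (0x647593a8, 4), (0x216485a7, 4)],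
    [(0x324065718295a6, 7), (0x658492a3, 4), (0x31657490, 4), (0x206587a1, 4), (0x658492a3, 4), (0x31657490, 4)]⟩

def c_1418 : frmChk tB tA F_1418 = true := by decide +kernel

def r_1418_0 : chkL rootF engF2 tB tA sB_269 sA_269 4 F_1418 [(511, 0, 0)]
    0x471 = true := by
  decide +kernel

theorem f_1418 (h : TabsF) : FrameF repsF 269 F_1418.f :=
  frame_of rfl c_1418 (runs_of engOK r_1418_0) (by decide +kernel) h.2 h.1

def F_1419 : FrX :=
  ⟨0x1c4044000008081000000840080410000101084050100008001008008102000280440082000140200102404920210840040200110020b04008400000008,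
    0x0, 0, 0x84a9, 2,
    [(0x0, 0), (0x20637584, 4), (0x105476a9, 4), (0x647583a9, 4), (0x105476a9, 4), (0x21647385, 4), (0x204386a9, 4), (0x647583a9, 4), (0x204386a9, 4), (0x10657483, 4), (0x647583a9, 4), (0x21647385, 4)],
    [(0x84a9, 2), (0x205364a9, 4), (0x107485a9, 4), (0x217683a9, 4), (0x205364a9, 4), (0x107485a9, 4)]⟩

def c_1419 : frmChk tB tA F_1419 = true := by decide +kernel

def r_1419_0 : chkL rootF engF2 tB tA sB_269 sA_269 4 F_1419 [(255, 0, 0), (256, 0, 6)]
    0x417 = true := by
  decide +kernel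

def r_1419_1 : chkL rootF engF2 tB tA sB_269 sA_269 4 F_1419 [(256, 6, 12)]
    0x4b411c3511c47 = true := by
  decide +kernel

def r_1419_2 : chkL rootF engF2 tB tA sB_269 sA_269 4 F_1419 [(256, 18, 6)]
    0x41763053 = true := by
  decide +kernel

def r_1419_3 : chkL rootF engF2 tB tA sB_269 sA_269 4 F_1419 [(256, 24, 5)]
    0x1 = true := by
  decide +kernel

def r_1419_4 : chkL rootF engF2 tB tA sB_269 sA_269 4 F_1419 [(256, 29, 11)]
    0x1 = true := by
  decide +kernel

def r_1419_5 : chkL rootF engF2 tB tA sB_269 sA_269 4 F_1419 [(256, 40, 0)]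
    0x1a301723417 = true := by
  decide +kernel

theorem f_1419 (h : TabsF) : FrameF repsF 269 F_1419.f :=
  frame_of rfl c_1419 ((runs_of engOK r_1419_0).append ((runs_of engOK r_1419_1).append ((runs_of engOK r_1419_2).append ((runs_of engOK r_1419_3).append ((runs_of engOK r_1419_4).append (runs_of engOK r_1419_5)))))) (by decide +kernel) h.2 h.1

def F_1420 : FrX :=
  ⟨0x1001040012008080000e00840800410008101000042100001108022000200050080208082020200800022402020010802040940808020004060000820300,
    0xa3, 1, 0x32425061768794a3, 8,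
    [(0xa3, 1), (0x207584a6, 4), (0x10547693, 4), (0x647593a8, 4), (0x10547693, 4), (0x216485a7, 4), (0x208693a4, 4), (0x647593a8, 4), (0x208693a4, 4), (0x106574a8, 4), (0x647593a8, 4), (0x216485a7, 4)],
    [(0x32425061768794a3, 8), (0x548091a7, 4), (0x32658790, 4), (0x328097a1, 4), (0x32658790, 4), (0x106497a8, 4), (0x325471a9, 4), (0x328097a1, 4), (0x325471a9, 4), (0x657098a1, 4), (0x328097a1, 4), (0x106497a8, 4)]⟩

def c_1420 : frmChk tB tB F_1420 = true := by decide +kernel

def r_1420_0 : chkL rootF engF2 tB tB sB_269 sB_269 4 F_1420 [(511, 0, 0)]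
    0x4170e89c660352701b06f44 = true := by
  decide +kernel

theorem f_1420 (h : TabsF) : FrameF repsF 269 F_1420.f :=
  frame_of rfl c_1420 (runs_of engOK r_1420_0) (by decide +kernel) h.2 h.2

def F_1421 : FrX :=
  ⟨0x600020801080810000c004018041010100100400104400200011000420a00000830200120002012000001050802004040008121001004000c1401100a0,
    0xa0, 1, 0x2150768493a0, 6,
    [(0xa0, 1), (0x637584a2, 4), (0x547690a1, 4), (0x64758390, 4), (0x547690a1, 4), (0x21647385, 4), (0x438690a2, 4), (0x64758390, 4), (0x438690a2, 4), (0x657483a1, 4), (0x64758390, 4), (0x21647385, 4)],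
    [(0x2150768493a0, 6), (0x608497a1, 4), (0x537680a2, 4), (0x53608794, 4), (0x537680a2, 4), (0x21408796, 4), (0x537498a1, 4), (0x53608794, 4), (0x537498a1, 4), (0x708694a2, 4), (0x53608794, 4), (0x21408796, 4)]⟩

def c_1421 : frmChk tB tB F_1421 = true := by decide +kernel

def r_1421_0 : chkL rootF engF2 tB tB sB_269 sB_269 4 F_1421 [(255, 0, 0), (256, 0, 22)]
    0x10d8360b42e0b8781e06a1ab81e07810781ec4b21cc0350cc360781e0b8350d8350b4270d41e0d5461705c1d14617146168361695855154078691ab81e0781 = true := by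
  decide +kernel

def r_1421_1 : chkL rootF engF2 tB tB sB_269 sB_269 4 F_1421 [(256, 22, 0)]
    0x781e078155154 = true := by
  decide +kernel

theorem f_1421 (h : TabsF) : FrameF repsF 269 F_1421.f :=
  frame_of rfl c_1421 ((runs_of engOK r_1421_0).append (runs_of engOK r_1421_1)) (by decide +kernel) h.2 h.2

def F_1422 : FrX :=
  ⟨0x2002000900044004000e02041000141000800040800400484020600010010c00020024001104000424040101011000801000081084028a80000140001001,
    0xa3, 1, 0x4051728396a3, 6,
    [(0xa3, 1), (0x208693a5, 4), (0x10548793, 4), (0x217693a4, 4), (0x208693a5, 4), (0x10548793, 4)],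
    [(0x4051728396a3, 6), (0x748693a1, 4), (0x10325486, 4), (0x758692a0, 4), (0x748693a1, 4), (0x10325486, 4)]⟩

def c_1422 : frmChk tA tA F_1422 = true := by decide +kernel

def r_1422_0 : chkL rootF engF2 tA tA sA_269 sA_269 4 F_1422 [(511, 0, 0)]
    0x11c41b06c2d = true := by
  decide +kernel

theorem f_1422 (h : TabsF) : FrameF repsF 269 F_1422.f :=
  frame_of rfl c_1422 (runs_of engOK r_1422_0) (by decide +kernel) h.1 h.1

def F_1423 : FrX :=
  ⟨0x482000044040440000c20400200090001820400100800801008c0800010410020020401001080120000440802008800042081008510200011002000490,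
    0xa0, 1, 0x215060768390a3, 7,
    [(0xa0, 1), (0x538690a2, 4), (0x548790a1, 4), (0x21437690, 4), (0x538690a2, 4), (0x548790a1, 4)],
    [(0x215060768390a3, 7), (0x435091a7, 4), (0x40758692, 4), (0x507486a3, 4), (0x40758692, 4), (0x213074a5, 4), (0x738691a4, 4), (0x507486a3, 4), (0x738691a4, 4), (0x547092a3, 4), (0x507486a3, 4), (0x213074a5, 4)]⟩

def c_1423 : frmChk tA tB F_1423 = true := by decide +kernel

def r_1423_0 : chkL rootF engF2 tA tB sA_269 sB_269 4 F_1423 [(511, 0, 0)]
    0x11543c03c5a074d434ac211ce4 = true := by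
  decide +kernel

theorem f_1423 (h : TabsF) : FrameF repsF 269 F_1423.f :=
  frame_of rfl c_1423 (runs_of engOK r_1423_0) (by decide +kernel) h.1 h.2

def F_1424 : FrX :=
  ⟨0x2002000900044004000e0204100014100080004080040048400240020101010002002220110400040c000100800060009b00081080000820002042201004,
    0xa3, 1, 0x405262718793a4, 7,
    [(0xa3, 1), (0x208693a5, 4), (0x10548793, 4), (0x217693a4, 4), (0x208693a5, 4), (0x10548793, 4)],
    [(0x405262718793a4, 7), (0x648295a1, 4), (0x307485a2, 4), (0x308291a5, 4), (0x307485a2, 4), (0x217698a5, 4), (0x305164a9, 4), (0x308291a5, 4), (0x305164a9, 4), (0x527491a8, 4), (0x308291a5, 4), (0x217698a5, 4)]⟩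

def c_1424 : frmChk tA tB F_1424 = true := by decide +kernel

def r_1424_0 : chkL rootF engF2 tA tB sA_269 sB_269 4 F_1424 [(255, 0, 0), (256, 0, 18)]
    0x43c0783c03c0f = true := by
  decide +kernel

def r_1424_1 : chkL rootF engF2 tA tB sA_269 sB_269 4 F_1424 [(256, 18, 0)]
    0x42e05c17299a441f05a16264d12c69138 = true := by
  decide +kernel

theorem f_1424 (h : TabsF) : FrameF repsF 269 F_1424.f :=
  frame_of rfl c_1424 ((runs_of engOK r_1424_0).append (runs_of engOK r_1424_1)) (by decide +kernel) h.1 h.2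

def F_1425 : FrX :=
  ⟨0x1001040012008080000e00840800410008101000060000024200102101010044006000200100208120210010112008800814002000840001108000820c00,
    0xa3, 1, 0x5364708291a3, 6,
    [(0xa3, 1), (0x207584a6, 4), (0x10547693, 4), (0x647593a8, 4), (0x10547693, 4), (0x216485a7, 4), (0x208693a4, 4), (0x647593a8, 4), (0x208693a4, 4), (0x106574a8, 4), (0x647593a8, 4), (0x216485a7, 4)],
    [(0x5364708291a3, 6), (0x306287a4, 4), (0x40516397, 4), (0x305164a2, 4), (0x40516397, 4), (0x326498a0, 4), (0x425187a6, 4), (0x305164a2, 4), (0x425187a6, 4), (0x436097a2, 4), (0x305164a2, 4), (0x326498a0, 4)]⟩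

def c_1425 : frmChk tB tB F_1425 = true := by decide +kernel

def r_1425_0 : chkL rootF engF2 tB tB sB_269 sB_269 4 F_1425 [(255, 0, 0), (256, 0, 19)]
    0x44e3281b4681b88e310b42b8944e138b2ac03312e620cc2b12e2c0b81b8381d2662c1c872 = true := by
  decide +kernel

def r_1425_1 : chkL rootF engF2 tB tB sB_269 sB_269 4 F_1425 [(256, 19, 22)]
    0x417 = true := by
  decide +kernel

def r_1425_2 : chkL rootF engF2 tB tB sB_269 sB_269 4 F_1425 [(256, 41, 0)]
    0x1 = true := by
  decide +kernel

theorem f_1425 (h : TabsF) : FrameF repsF 269 F_1425.f :=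
  frame_of rfl c_1425 ((runs_of engOK r_1425_0).append ((runs_of engOK r_1425_1).append (runs_of engOK r_1425_2))) (by decide +kernel) h.2 h.2

theorem cl_269 (h : TabsF) : ∀ f ∈ fr_269, FrameF repsF 269 f :=
  List.forall_mem_cons.2 ⟨f_1410 h, List.forall_mem_cons.2 ⟨f_1411 h, List.forall_mem_cons.2 ⟨f_1412 h, List.forall_mem_cons.2 ⟨f_1413 h, List.forall_mem_cons.2 ⟨f_1414 h, List.forall_mem_cons.2 ⟨f_1415 h, List.forall_mem_cons.2 ⟨f_1416 h, List.forall_mem_cons.2 ⟨f_1417 h, List.forall_mem_cons.2 ⟨f_1418 h, List.forall_mem_cons.2 ⟨f_1419 h, List.forall_mem_cons.2 ⟨f_1420 h, List.forall_mem_cons.2 ⟨f_1421 h, List.forall_mem_cons.2 ⟨f_1422 h, List.forall_mem_cons.2 ⟨f_1423 h, List.forall_mem_cons.2 ⟨f_1424 h, List.forall_mem_cons.2 ⟨f_1425 h,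
    fun _ h0 => absurd h0 List.not_mem_nil⟩⟩⟩⟩⟩⟩⟩⟩⟩⟩⟩⟩⟩⟩⟩⟩

def F_1426 : FrX :=
  ⟨0x1001040012008080000e008408004100081010000404201004081020020000c0404202020000810040022808024800202014020005004408100200040840,
    0xa3, 1, 0x325263728492a6, 7,
    [(0xa3, 1), (0x207584a6, 4), (0x10547693, 4), (0x647593a8, 4), (0x10547693, 4), (0x216485a7, 4), (0x208693a4, 4), (0x647593a8, 4), (0x208693a4, 4), (0x106574a8, 4), (0x647593a8, 4), (0x216485a7, 4)],
    [(0x325263728492a6, 7), (0x637290a4, 4), (0x10547283, 4), (0x728691a5, 4), (0x637290a4, 4), (0x10547283, 4)]⟩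

def c_1426 : frmChk tB tA F_1426 = true := by decide +kernel

def r_1426_0 : chkL rootF engF2 tB tA sB_270 sA_270 4 F_1426 [(255, 0, 0), (256, 0, 22)]
    0x43a1a41e0b81e0781e = true := by
  decide +kernel

def r_1426_1 : chkL rootF engF2 tB tA sB_270 sA_270 4 F_1426 [(256, 22, 0)]
    0x41d05c660e83a05c690782e0781e0781e0e81e21c3a14c331643914c390e817d1027 = true := by
  decide +kernel

theorem f_1426 (h : TabsF) : FrameF repsF 270 F_1426.f :=
  frame_of rfl c_1426 ((runs_of engOK r_1426_0).append (runs_of engOK r_1426_1)) (by decide +kernel) h.2 h.1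

def F_1427 : FrX :=
  ⟨0x1001040012008080000e0084080041000810100004202010004802200020800840002222000011004002820821800020210080080c030008022008012000,
    0xa3, 1, 0x214363728395a0, 7,
    [(0xa3, 1), (0x207584a6, 4), (0x10547693, 4), (0x647593a8, 4), (0x10547693, 4), (0x216485a7, 4), (0x208693a4, 4), (0x647593a8, 4), (0x208693a4, 4), (0x106574a8, 4), (0x647593a8, 4), (0x216485a7, 4)],
    [(0x214363728395a0, 7), (0x506498a7, 4), (0x506193a2, 4), (0x41507283, 4), (0x506498a7, 4), (0x506193a2, 4)]⟩

def c_1427 : frmChk tB tA F_1427 = true := by decide +kernel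

def r_1427_0 : chkL rootF engF2 tB tA sB_270 sA_270 4 F_1427 [(511, 0, 0)]
    0x192a4c03c350ac1d0742d03c4724c1b = true := by
  decide +kernel

theorem f_1427 (h : TabsF) : FrameF repsF 270 F_1427.f :=
  frame_of rfl c_1427 (runs_of engOK r_1427_0) (by decide +kernel) h.2 h.1

def F_1428 : FrX :=
  ⟨0x1001040012008080000e0084080041000810100004200802400140010102000002e00020802001024441008002040808040400a000820008021008800048,
    0xa3, 1, 0x2130758496a3, 6,
    [(0xa3, 1), (0x207584a6, 4), (0x10547693, 4), (0x647593a8, 4), (0x10547693, 4), (0x216485a7, 4), (0x208693a4, 4), (0x647593a8, 4), (0x208693a4, 4), (0x106574a8, 4), (0x647593a8, 4), (0x216485a7, 4)],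
    [(0x2130758496a3, 6), (0x317584a9, 4), (0x32608795, 4), (0x607598a4, 4), (0x32608795, 4), (0x217498a5, 4), (0x316094a8, 4), (0x607598a4, 4), (0x316094a8, 4), (0x328597a4, 4), (0x607598a4, 4), (0x217498a5, 4)]⟩

def c_1428 : frmChk tB tB F_1428 = true := by decide +kernel

def r_1428_0 : chkL rootF engF2 tB tB sB_270 sB_270 4 F_1428 [(511, 0, 0)]
    0x10b435 = true := by
  decide +kernel

theorem f_1428 (h : TabsF) : FrameF repsF 270 F_1428.f :=
  frame_of rfl c_1428 (runs_of engOK r_1428_0) (by decide +kernel) h.2 h.2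

def F_1429 : FrX :=
  ⟨0x1001040012008080000e008408004100081010000420101000808221020020008102000a0000848040041440040400240300800810004408004006002008,
    0xa3, 1, 0x21415460728797a6, 8,
    [(0xa3, 1), (0x207584a6, 4), (0x10547693, 4), (0x647593a8, 4), (0x10547693, 4), (0x216485a7, 4), (0x208693a4, 4), (0x647593a8, 4), (0x208693a4, 4), (0x106574a8, 4), (0x647593a8, 4), (0x216485a7, 4)],
    [(0x21415460728797a6, 8), (0x327680a1, 4), (0x52648091, 4), (0x537480a9, 4), (0x327680a1, 4), (0x52648091, 4)]⟩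

def c_1429 : frmChk tB tA F_1429 = true := by decide +kernel

def r_1429_0 : chkL rootF engF2 tB tA sB_270 sA_270 4 F_1429 [(255, 0, 0), (256, 0, 20)]
    0x10ac8d0cc8d = true := by
  decide +kernel

def r_1429_1 : chkL rootF engF2 tB tA sB_270 sA_270 4 F_1429 [(256, 20, 0)]
    0x5070cc1716615a447105e52 = true := by
  decide +kernel

theorem f_1429 (h : TabsF) : FrameF repsF 270 F_1429.f :=
  frame_of rfl c_1429 ((runs_of engOK r_1429_0).append (runs_of engOK r_1429_1)) (by decide +kernel) h.2 h.1

def F_1430 : FrX :=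
  ⟨0x600020801080810000c004018041010100100401001010080000280880a004004000482000222004800110120801802084000500004004000900821010,
    0xa0, 1, 0x21314062758396a4, 8,
    [(0xa0, 1), (0x637584a2, 4), (0x547690a1, 4), (0x64758390, 4), (0x547690a1, 4), (0x21647385, 4), (0x438690a2, 4), (0x64758390, 4), (0x438690a2, 4), (0x657483a1, 4), (0x64758390, 4), (0x21647385, 4)],
    [(0x21314062758396a4, 8), (0x10648792, 4), (0x104352a7, 4), (0x106395a8, 4), (0x10648792, 4), (0x104352a7, 4)]⟩

def c_1430 : frmChk tB tA F_1430 = true := by decide +kernel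

def r_1430_0 : chkL rootF engF2 tB tA sB_270 sA_270 4 F_1430 [(511, 0, 0)]
    0x10d81d1381d05c1705f810b615c164505d29 = true := by
  decide +kernel

theorem f_1430 (h : TabsF) : FrameF repsF 270 F_1430.f :=
  frame_of rfl c_1430 (runs_of engOK r_1430_0) (by decide +kernel) h.2 h.1

def F_1431 : FrX :=
  ⟨0x1001040012008080000e00840800410008101000044201020081400020020800406000202020040040024840401008800004002604028200082100020048,
    0xa3, 1, 0x102132607190a0, 7,
    [(0xa3, 1), (0x207584a6, 4), (0x10547693, 4), (0x647593a8, 4), (0x10547693, 4), (0x216485a7, 4), (0x208693a4, 4), (0x647593a8, 4), (0x208693a4, 4), (0x106574a8, 4), (0x647593a8, 4), (0x216485a7, 4)],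
    [(0x102132607190a0, 7), (0x105284a3, 4), (0x215496a7, 4), (0x41528096, 4), (0x215496a7, 4), (0x20417385, 4), (0x408196a3, 4), (0x41528096, 4), (0x408196a3, 4), (0x425180a7, 4), (0x41528096, 4), (0x20417385, 4)]⟩

def c_1431 : frmChk tB tB F_1431 = true := by decide +kernel

def r_1431_0 : chkL rootF engF2 tB tB sB_270 sB_270 4 F_1431 [(511, 0, 0)]
    0x14a8391a847 = true := by
  decide +kernel

theorem f_1431 (h : TabsF) : FrameF repsF 270 F_1431.f :=
  frame_of rfl c_1431 (runs_of engOK r_1431_0) (by decide +kernel) h.2 h.2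

def F_1432 : FrX :=
  ⟨0x600020801080810000c00401804101010010040040108102001040041804020000048200000300201021020012000a2100081040104000040809010280,
    0xa0, 1, 0x32415163a0, 5,
    [(0xa0, 1), (0x637584a2, 4), (0x547690a1, 4), (0x64758390, 4), (0x547690a1, 4), (0x21647385, 4), (0x438690a2, 4), (0x64758390, 4), (0x438690a2, 4), (0x657483a1, 4), (0x64758390, 4), (0x21647385, 4)],
    [(0x32415163a0, 5), (0x627481a3, 4), (0x417290a5, 4), (0x21748690, 4), (0x417290a5, 4), (0x21537684, 4), (0x618290a3, 4), (0x21748690, 4), (0x618290a3, 4), (0x427186a5, 4), (0x21748690, 4), (0x21537684, 4)]⟩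

def c_1432 : frmChk tB tB F_1432 = true := by decide +kernel

def r_1432_0 : chkL rootF engF2 tB tB sB_270 sB_270 4 F_1432 [(511, 0, 0)]
    0x5380cc1e0ac2b09c17 = true := by
  decide +kernel

theorem f_1432 (h : TabsF) : FrameF repsF 270 F_1432.f :=
  frame_of rfl c_1432 (runs_of engOK r_1432_0) (by decide +kernel) h.2 h.2

def F_1433 : FrX :=
  ⟨0x80080a000804040e000021010020010000020408a5001000040028000480202000023000400805010040001080602408004009401000400b000c0808000,
    0xa6, 1, 0x21425463708696a6, 8,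
    [(0xa6, 1), (0x205396a8, 4), (0x10548796, 4), (0x214396a7, 4), (0x205396a8, 4), (0x10548796, 4)],
    [(0x21425463708696a6, 8), (0x617498a3, 4), (0x30517298, 4), (0x426598a0, 4), (0x617498a3, 4), (0x30517298, 4)]⟩

def c_1433 : frmChk tA tA F_1433 = true := by decide +kernel

def r_1433_0 : chkL rootF engF2 tA tA sA_270 sA_270 4 F_1433 [(255, 0, 0), (256, 0, 22)]
    0x1688e11544d = true := by
  decide +kernel

def r_1433_1 : chkL rootF engF2 tA tA sA_270 sA_270 4 F_1433 [(256, 22, 0)]
    0x41d0b82e2b02d6884d = true := by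
  decide +kernel

theorem f_1433 (h : TabsF) : FrameF repsF 270 F_1433.f :=
  frame_of rfl c_1433 ((runs_of engOK r_1433_0).append (runs_of engOK r_1433_1)) (by decide +kernel) h.1 h.1

def F_1434 : FrX :=
  ⟨0x1c2102000004044000002041000101000082040888081000001020400400102000604060280804010040005080600408080009401200800b00004600000,
    0x0, 0, 0x4376, 2,
    [(0x0, 0), (0x205386a9, 4), (0x105487a9, 4), (0x214376a9, 4), (0x205386a9, 4), (0x105487a9, 4)],
    [(0x4376, 2), (0x20657483, 4), (0x105376a9, 4), (0x657384a9, 4), (0x105376a9, 4), (0x21647385, 4), (0x204387a9, 4), (0x657384a9, 4), (0x204387a9, 4), (0x10637584, 4), (0x657384a9, 4), (0x21647385, 4)]⟩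

def c_1434 : frmChk tA tB F_1434 = true := by decide +kernel

def r_1434_0 : chkL rootF engF2 tA tB sA_270 sB_270 4 F_1434 [(255, 0, 0), (256, 0, 24)]
    0x1 = true := by
  decide +kernel

def r_1434_1 : chkL rootF engF2 tA tB sA_270 sB_270 4 F_1434 [(256, 24, 0)]
    0x103c531c47144c4d = true := by
  decide +kernel

theorem f_1434 (h : TabsF) : FrameF repsF 270 F_1434.f :=
  frame_of rfl c_1434 ((runs_of engOK r_1434_0).append (runs_of engOK r_1434_1)) (by decide +kernel) h.1 h.2

def F_1435 : FrX :=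
  ⟨0x2002000900044004000e0204100014100080004080080101400402480200088020010010088800022400010080004880210001040500800020204c011010,
    0xa3, 1, 0x304153728494a0, 7,
    [(0xa3, 1), (0x208693a5, 4), (0x10548793, 4), (0x217693a4, 4), (0x208693a5, 4), (0x10548793, 4)],
    [(0x304153728494a0, 7), (0x506183a7, 4), (0x218390a4, 4), (0x62748395, 4), (0x506183a7, 4), (0x218390a4, 4)]⟩

def c_1435 : frmChk tA tA F_1435 = true := by decide +kernel

def r_1435_0 : chkL rootF engF2 tA tA sA_270 sA_270 4 F_1435 [(511, 0, 0)]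
    0x12a51c154358543c0cc55 = true := by
  decide +kernel

theorem f_1435 (h : TabsF) : FrameF repsF 270 F_1435.f :=
  frame_of rfl c_1435 (runs_of engOK r_1435_0) (by decide +kernel) h.1 h.1

def F_1436 : FrX :=
  ⟨0x482000044040440000c204002000900018204002000208010010020801404400440010008104022080002080800180130001242010800000400c800042,
    0xa0, 1, 0x103265708193a8, 7,
    [(0xa0, 1), (0x538690a2, 4), (0x548790a1, 4), (0x21437690, 4), (0x538690a2, 4), (0x548790a1, 4)],
    [(0x103265708193a8, 7), (0x207396a5, 4), (0x206487a1, 4), (0x20518394, 4), (0x207396a5, 4), (0x206487a1, 4)]⟩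

def c_1436 : frmChk tA tA F_1436 = true := by decide +kernel

def r_1436_0 : chkL rootF engF2 tA tA sA_270 sA_270 4 F_1436 [(511, 0, 0)]
    0x4170d41d0741d09c1d07668b06e0 = true := by
  decide +kernel

theorem f_1436 (h : TabsF) : FrameF repsF 270 F_1436.f :=
  frame_of rfl c_1436 (runs_of engOK r_1436_0) (by decide +kernel) h.1 h.1

def F_1437 : FrX :=
  ⟨0x2002000900044004000e0204100014100080004080400101011040200820210010020402028800401404000500040000a000208480201000a00024201001,
    0xa3, 1, 0x5062708798a7, 6,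
    [(0xa3, 1), (0x208693a5, 4), (0x10548793, 4), (0x217693a4, 4), (0x208693a5, 4), (0x10548793, 4)],
    [(0x5062708798a7, 6), (0x327694a0, 4), (0x407185a2, 4), (0x428593a0, 4), (0x407185a2, 4), (0x426190a3, 4), (0x43768592, 4), (0x428593a0, 4), (0x43768592, 4), (0x207193a4, 4), (0x428593a0, 4), (0x426190a3, 4)]⟩

def c_1437 : frmChk tA tB F_1437 = true := by decide +kernel

def r_1437_0 : chkL rootF engF2 tA tB sA_270 sB_270 4 F_1437 [(511, 0, 0)]
    0x5230d41e = true := by
  decide +kernel

theorem f_1437 (h : TabsF) : FrameF repsF 270 F_1437.f :=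
  frame_of rfl c_1437 (runs_of engOK r_1437_0) (by decide +kernel) h.1 h.2

def F_1438 : FrX :=
  ⟨0x482000044040440000c2040020009000182040020000448000020280012108400400064001010040880420800200800248001008200920100002200084,
    0xa0, 1, 0x10204253607196a2, 8,
    [(0xa0, 1), (0x538690a2, 4), (0x548790a1, 4), (0x21437690, 4), (0x538690a2, 4), (0x548790a1, 4)],
    [(0x10204253607196a2, 8), (0x308195a6, 4), (0x31427690, 4), (0x30428591, 4), (0x31427690, 4), (0x508391a7, 4), (0x425198a6, 4), (0x30428591, 4), (0x425198a6, 4), (0x10768593, 4), (0x30428591, 4), (0x508391a7, 4)]⟩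

def c_1438 : frmChk tA tB F_1438 = true := by decide +kernel

def r_1438_0 : chkL rootF engF2 tA tB sA_270 sB_270 4 F_1438 [(511, 0, 0)]
    0x103c0f0cf6051741c17440cec1166c1b408e0d847 = true := by
  decide +kernel

theorem f_1438 (h : TabsF) : FrameF repsF 270 F_1438.f :=
  frame_of rfl c_1438 (runs_of engOK r_1438_0) (by decide +kernel) h.1 h.2

def F_1439 : FrX :=
  ⟨0x2002000900044004000e0204100014100080004081000001810080420081200814000010101018104004008580002004000420100040020c001104001210,
    0xa3, 1, 0x203250728397a6, 7,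
    [(0xa3, 1), (0x208693a5, 4), (0x10548793, 4), (0x217693a4, 4), (0x208693a5, 4), (0x10548793, 4)],
    [(0x203250728397a6, 7), (0x407592a8, 4), (0x425163a9, 4), (0x638092a4, 4), (0x425163a9, 4), (0x207198a4, 4), (0x637584a0, 4), (0x638092a4, 4), (0x637584a0, 4), (0x518094a2, 4), (0x638092a4, 4), (0x207198a4, 4)]⟩

def c_1439 : frmChk tA tB F_1439 = true := by decide +kernel

def r_1439_0 : chkL rootF engF2 tA tB sA_270 sB_270 4 F_1439 [(511, 0, 0)]
    0x11c47103c0f1582705e8905c35 = true := by
  decide +kernel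

theorem f_1439 (h : TabsF) : FrameF repsF 270 F_1439.f :=
  frame_of rfl c_1439 (runs_of engOK r_1439_0) (by decide +kernel) h.1 h.2

def F_1440 : FrX :=
  ⟨0x482000044040440000c2040020009000182040000408448004080200080088100010110100010404200100888010000210005280040404010200808014,
    0xa0, 1, 0x53647281a0, 5,
    [(0xa0, 1), (0x538690a2, 4), (0x548790a1, 4), (0x21437690, 4), (0x538690a2, 4), (0x548790a1, 4)],
    [(0x53647281a0, 5), (0x415390a7, 4), (0x216390a8, 4), (0x42658790, 4), (0x415390a7, 4), (0x216390a8, 4)]⟩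

def c_1440 : frmChk tA tA F_1440 = true := by decide +kernel

def r_1440_0 : chkL rootF engF2 tA tA sA_270 sA_270 4 F_1440 [(511, 0, 0)]
    0x109c2bb04990e4c5 = true := by
  decide +kernel

theorem f_1440 (h : TabsF) : FrameF repsF 270 F_1440.f :=
  frame_of rfl c_1440 (runs_of engOK r_1440_0) (by decide +kernel) h.1 h.1

def F_1441 : FrX :=
  ⟨0x80080a000804040e000021010020010000020408820840200900801008000800050840008440002820008000806100020802080804001042400e0200080,
    0xa6, 1, 0x50627383a0, 5,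
    [(0xa6, 1), (0x205396a8, 4), (0x10548796, 4), (0x214396a7, 4), (0x205396a8, 4), (0x10548796, 4)],
    [(0x50627383a0, 5), (0x728095a6, 4), (0x407395a1, 4), (0x32618495, 4), (0x728095a6, 4), (0x407395a1, 4)]⟩

def c_1441 : frmChk tA tA F_1441 = true := by decide +kernel

def r_1441_0 : chkL rootF engF2 tA tA sA_270 sA_270 4 F_1441 [(511, 0, 0)]
    0x1074d20e82b06c1d2704b1a54350d4a3444703c5311c5c17027 = true := by
  decide +kernel

theorem f_1441 (h : TabsF) : FrameF repsF 270 F_1441.f :=
  frame_of rfl c_1441 (runs_of engOK r_1441_0) (by decide +kernel) h.1 h.1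

def F_1442 : FrX :=
  ⟨0x80080a000804040e000021010020010000020408804804c000440040041000002040405010001020005000018841000020048a020012021004042200080,
    0xa6, 1, 0x315085a0, 4,
    [(0xa6, 1), (0x205396a8, 4), (0x10548796, 4), (0x214396a7, 4), (0x205396a8, 4), (0x10548796, 4)],
    [(0x315085a0, 4), (0x406187a2, 4), (0x768495a3, 4), (0x10648795, 4), (0x768495a3, 4), (0x32647180, 4), (0x416095a2, 4), (0x10648795, 4), (0x416095a2, 4), (0x107486a3, 4), (0x10648795, 4), (0x32647180, 4)]⟩

def c_1442 : frmChk tA tB F_1442 = true := by decide +kernel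

def r_1442_0 : chkL rootF engF2 tA tB sA_270 sB_270 4 F_1442 [(511, 0, 0)]
    0x44768a51352d028ca603c2d = true := by
  decide +kernel

theorem f_1442 (h : TabsF) : FrameF repsF 270 F_1442.f :=
  frame_of rfl c_1442 (runs_of engOK r_1442_0) (by decide +kernel) h.1 h.2

def F_1443 : FrX :=
  ⟨0x482000044040440000c2040020009000182040000881040000880800040090004c0011010050020004080888021000201000a000480408300020200404,
    0xa0, 1, 0x4353628795a3, 6,
    [(0xa0, 1), (0x538690a2, 4), (0x548790a1, 4), (0x21437690, 4), (0x538690a2, 4), (0x548790a1, 4)],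
    [(0x4353628795a3, 6), (0x607398a2, 4), (0x10548293, 4), (0x325498a7, 4), (0x10548293, 4), (0x326197a8, 4), (0x546072a3, 4), (0x325498a7, 4), (0x546072a3, 4), (0x108392a7, 4), (0x325498a7, 4), (0x326197a8, 4)]⟩

def c_1443 : frmChk tA tB F_1443 = true := by decide +kernel

def r_1443_0 : chkL rootF engF2 tA tB sA_270 sB_270 4 F_1443 [(255, 0, 0), (256, 0, 9)]
    0x10ac0f = true := by
  decide +kernel

def r_1443_1 : chkL rootF engF2 tA tB sA_270 sB_270 4 F_1443 [(256, 9, 8)]
    0x10782709c1b0d836 = true := by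
  decide +kernel

def r_1443_2 : chkL rootF engF2 tA tB sA_270 sB_270 4 F_1443 [(256, 17, 0)]
    0x10741d0782b0cc1e = true := by
  decide +kernel

theorem f_1443 (h : TabsF) : FrameF repsF 270 F_1443.f :=
  frame_of rfl c_1443 ((runs_of engOK r_1443_0).append ((runs_of engOK r_1443_1).append (runs_of engOK r_1443_2))) (by decide +kernel) h.1 h.2

def F_1444 : FrX :=
  ⟨0x1001040012008080000e00840800410008101000066000040040022002000880442000122000004040022808401000802100808c0800440050000a000104,
    0xa3, 1, 0x3140537285a5, 6,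
    [(0xa3, 1), (0x207584a6, 4), (0x10547693, 4), (0x647593a8, 4), (0x10547693, 4), (0x216485a7, 4), (0x208693a4, 4), (0x647593a8, 4), (0x208693a4, 4), (0x106574a8, 4), (0x647593a8, 4), (0x216485a7, 4)],
    [(0x3140537285a5, 6), (0x617498a5, 4), (0x214398a0, 4), (0x50627398, 4), (0x617498a5, 4), (0x214398a0, 4)]⟩

def c_1444 : frmChk tB tA F_1444 = true := by decide +kernel

def r_1444_0 : chkL rootF engF2 tB tA sB_270 sA_270 4 F_1444 [(255, 0, 0), (256, 0, 20)]
    0x43309c1d0cc33 = true := by
  decide +kernel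

def r_1444_1 : chkL rootF engF2 tB tA sB_270 sA_270 4 F_1444 [(256, 20, 0)]
    0x61314e5124d8c = true := by
  decide +kernel

theorem f_1444 (h : TabsF) : FrameF repsF 270 F_1444.f :=
  frame_of rfl c_1444 ((runs_of engOK r_1444_0).append (runs_of engOK r_1444_1)) (by decide +kernel) h.2 h.1

def F_1445 : FrX :=
  ⟨0x600020801080810000c00401804101010010040010405000004008041210000800108a0000220008084100108000802404200c0011080002c100009080,
    0xa0, 1, 0x10305165768297a3, 8,
    [(0xa0, 1), (0x637584a2, 4), (0x547690a1, 4), (0x64758390, 4), (0x547690a1, 4), (0x21647385, 4), (0x438690a2, 4), (0x64758390, 4), (0x438690a2, 4), (0x657483a1, 4), (0x64758390, 4), (0x21647385, 4)],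
    [(0x10305165768297a3, 8), (0x107283a6, 4), (0x10536492, 4), (0x108597a4, 4), (0x107283a6, 4), (0x10536492, 4)]⟩

def c_1445 : frmChk tB tA F_1445 = true := by decide +kernel

def r_1445_0 : chkL rootF engF2 tB tA sB_270 sA_270 4 F_1445 [(511, 0, 0)]
    0x103c2b = true := by
  decide +kernel

theorem f_1445 (h : TabsF) : FrameF repsF 270 F_1445.f :=
  frame_of rfl c_1445 (runs_of engOK r_1445_0) (by decide +kernel) h.2 h.1

def F_1446 : FrX :=
  ⟨0x1001040012008080000e0084080041000810100004210000404802200100088404200012000011224004080882000020210080080c000408108002200104,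
    0xa3, 1, 0x435162718193a8, 7,
    [(0xa3, 1), (0x207584a6, 4), (0x10547693, 4), (0x647593a8, 4), (0x10547693, 4), (0x216485a7, 4), (0x208693a4, 4), (0x647593a8, 4), (0x208693a4, 4), (0x106574a8, 4), (0x647593a8, 4), (0x216485a7, 4)],
    [(0x435162718193a8, 7), (0x516092a3, 4), (0x31527480, 4), (0x325174a9, 4), (0x31527480, 4), (0x328695a1, 4), (0x607493a2, 4), (0x325174a9, 4), (0x607493a2, 4), (0x215380a9, 4), (0x325174a9, 4), (0x328695a1, 4)]⟩

def c_1446 : frmChk tB tB F_1446 = true := by decide +kernel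

def r_1446_0 : chkL rootF engF2 tB tB sB_270 sB_270 4 F_1446 [(255, 0, 0), (256, 0, 21)]
    0x1079515501719564 = true := by
  decide +kernel

def r_1446_1 : chkL rootF engF2 tB tB sB_270 sB_270 4 F_1446 [(256, 21, 0)]
    0x1 = true := by
  decide +kernel

theorem f_1446 (h : TabsF) : FrameF repsF 270 F_1446.f :=
  frame_of rfl c_1446 ((runs_of engOK r_1446_0).append (runs_of engOK r_1446_1)) (by decide +kernel) h.2 h.2

def F_1447 : FrX :=
  ⟨0x600020801080810000c0040180410101001004001040500000024442001040080012020000220008084100108000860284000600002804000100409003,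
    0xa0, 1, 0x104051748492a4, 7,
    [(0xa0, 1), (0x637584a2, 4), (0x547690a1, 4), (0x64758390, 4), (0x547690a1, 4), (0x21647385, 4), (0x438690a2, 4), (0x64758390, 4), (0x438690a2, 4), (0x657483a1, 4), (0x64758390, 4), (0x21647385, 4)],
    [(0x104051748492a4, 7), (0x106394a7, 4), (0x546182a0, 4), (0x107382a6, 4), (0x546182a0, 4), (0x317095a6, 4), (0x768294a3, 4), (0x107382a6, 4), (0x768294a3, 4), (0x546073a1, 4), (0x107382a6, 4), (0x317095a6, 4)]⟩

def c_1447 : frmChk tB tB F_1447 = true := by decide +kernel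

def r_1447_0 : chkL rootF engF2 tB tB sB_270 sB_270 4 F_1447 [(511, 0, 0)]
    0x41b0748e = true := by
  decide +kernel

theorem f_1447 (h : TabsF) : FrameF repsF 270 F_1447.f :=
  frame_of rfl c_1447 (runs_of engOK r_1447_0) (by decide +kernel) h.2 h.2

def F_1448 : FrX :=
  ⟨0x2002000900044004000e02041000141000800040802000224008400048808080200202010200110400a0004202041004020420a0000400200020c0008050,
    0xa3, 1, 0x3042748292a0, 6,
    [(0xa3, 1), (0x208693a5, 4), (0x10548793, 4), (0x217693a4, 4), (0x208693a5, 4), (0x10548793, 4)],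
    [(0x3042748292a0, 6), (0x506483a9, 4), (0x427583a1, 4), (0x62708391, 4), (0x506483a9, 4), (0x427583a1, 4)]⟩

def c_1448 : frmChk tA tA F_1448 = true := by decide +kernel

def r_1448_0 : chkL rootF engF2 tA tA sA_270 sA_270 4 F_1448 [(511, 0, 0)]
    0x7121d04d0e91906c2e4d03a12cc3 = true := by
  decide +kernel

theorem f_1448 (h : TabsF) : FrameF repsF 270 F_1448.f :=
  frame_of rfl c_1448 (runs_of engOK r_1448_0) (by decide +kernel) h.1 h.1

def F_1449 : FrX :=
  ⟨0x482000044040440000c2040020009000182040020000448000080220040890020010100102501010040008880208803018002000480080100020200404,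
    0xa0, 1, 0x53618098a5, 5,
    [(0xa0, 1), (0x538690a2, 4), (0x548790a1, 4), (0x21437690, 4), (0x538690a2, 4), (0x548790a1, 4)],
    [(0x53618098a5, 5), (0x518294a7, 4), (0x307186a4, 4), (0x304195a7, 4), (0x307186a4, 4), (0x416275a9, 4), (0x30548291, 4), (0x304195a7, 4), (0x30548291, 4), (0x748695a1, 4), (0x304195a7, 4), (0x416275a9, 4)]⟩

def c_1449 : frmChk tA tB F_1449 = true := by decide +kernel

def r_1449_0 : chkL rootF engF2 tA tB sA_270 sB_270 4 F_1449 [(511, 0, 0)]
    0x10780f03c1e05c17 = true := by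
  decide +kernel

theorem f_1449 (h : TabsF) : FrameF repsF 270 F_1449.f :=
  frame_of rfl c_1449 (runs_of engOK r_1449_0) (by decide +kernel) h.1 h.2

def F_1450 : FrX :=
  ⟨0x80080a000804040e00002101002001000002040884020400208028400810004000404050100110200810000128410040240408001000121004042600000,
    0xa6, 1, 0x315465718090a6, 7,
    [(0xa6, 1), (0x205396a8, 4), (0x10548796, 4), (0x214396a7, 4), (0x205396a8, 4), (0x10548796, 4)],
    [(0x315465718090a6, 7), (0x506392a1, 4), (0x658497a3, 4), (0x106384a5, 4), (0x658497a3, 4), (0x316072a5, 4), (0x518492a0, 4), (0x106384a5, 4), (0x518492a0, 4), (0x105397a6, 4), (0x106384a5, 4), (0x316072a5, 4)]⟩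

def c_1450 : frmChk tA tB F_1450 = true := by decide +kernel

def r_1450_0 : chkL rootF engF2 tA tB sA_270 sB_270 4 F_1450 [(255, 0, 0), (256, 0, 18)]
    0x46934a2c9908d = true := by
  decide +kernel

def r_1450_1 : chkL rootF engF2 tA tB sA_270 sB_270 4 F_1450 [(256, 18, 0)]
    0x41d0745386615 = true := by
  decide +kernel

theorem f_1450 (h : TabsF) : FrameF repsF 270 F_1450.f :=
  frame_of rfl c_1450 ((runs_of engOK r_1450_0).append (runs_of engOK r_1450_1)) (by decide +kernel) h.1 h.2

def F_1451 : FrX :=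
  ⟨0x2002000900044004000e02041000141000800040808001001101020401020442000084000a00810242000008820048800040001005101000244080214000,
    0xa3, 1, 0x32517696a3, 5,
    [(0xa3, 1), (0x208693a5, 4), (0x10548793, 4), (0x217693a4, 4), (0x208693a5, 4), (0x10548793, 4)],
    [(0x32517696a3, 5), (0x306184a9, 4), (0x41507296, 4), (0x617294a8, 4), (0x41507296, 4), (0x538194a6, 4), (0x307298a4, 4), (0x617294a8, 4), (0x307298a4, 4), (0x506491a8, 4), (0x617294a8, 4), (0x538194a6, 4)]⟩

def c_1451 : frmChk tA tB F_1451 = true := by decide +kernel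

def r_1451_0 : chkL rootF engF2 tA tB sA_270 sB_270 4 F_1451 [(511, 0, 0)]
    0x105c0f078336244e2a49c = true := by
  decide +kernel

theorem f_1451 (h : TabsF) : FrameF repsF 270 F_1451.f :=
  frame_of rfl c_1451 (runs_of engOK r_1451_0) (by decide +kernel) h.1 h.2

def F_1452 : FrX :=
  ⟨0x80080a000804040e000021010020010000020408840110000a0004022404000004501000a08012002000000822240802020080084003204202210800000,
    0xa6, 1, 0x435064768194a6, 7,
    [(0xa6, 1), (0x205396a8, 4), (0x10548796, 4), (0x214396a7, 4), (0x205396a8, 4), (0x10548796, 4)],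
    [(0x435064768194a6, 7), (0x305291a4, 4), (0x768590a3, 4), (0x304176a9, 4), (0x768590a3, 4), (0x104382a9, 4), (0x527694a1, 4), (0x304176a9, 4), (0x527694a1, 4), (0x418593a0, 4), (0x304176a9, 4), (0x104382a9, 4)]⟩

def c_1452 : frmChk tA tB F_1452 = true := by decide +kernel

def r_1452_0 : chkL rootF engF2 tA tB sA_270 sB_270 4 F_1452 [(255, 0, 0), (256, 0, 20)]
    0x107859688471983c = true := by
  decide +kernel

def r_1452_1 : chkL rootF engF2 tA tB sA_270 sB_270 4 F_1452 [(256, 20, 0)]
    0x103c3306c560b44711c2d993241b0e217146134c5d101e = true := by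
  decide +kernel

theorem f_1452 (h : TabsF) : FrameF repsF 270 F_1452.f :=
  frame_of rfl c_1452 ((runs_of engOK r_1452_0).append (runs_of engOK r_1452_1)) (by decide +kernel) h.1 h.2

def F_1453 : FrX :=
  ⟨0x1001040012008080000e00840800410008101000044008020510100004202010008202020000048040084804401000014014020420200400488100040048,
    0xa3, 1, 0x2132405063a6, 6,
    [(0xa3, 1), (0x207584a6, 4), (0x10547693, 4), (0x647593a8, 4), (0x10547693, 4), (0x216485a7, 4), (0x208693a4, 4), (0x647593a8, 4), (0x208693a4, 4), (0x106574a8, 4), (0x647593a8, 4), (0x216485a7, 4)],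
    [(0x2132405063a6, 6), (0x537480a6, 4), (0x405291a7, 4), (0x748691a0, 4), (0x405291a7, 4), (0x327684a0, 4), (0x536091a8, 4), (0x748691a0, 4), (0x536091a8, 4), (0x527086a4, 4), (0x748691a0, 4), (0x327684a0, 4)]⟩

def c_1453 : frmChk tB tB F_1453 = true := by decide +kernel

def r_1453_0 : chkL rootF engF2 tB tB sB_270 sB_270 4 F_1453 [(255, 0, 0), (256, 0, 21)]
    0x109c27 = true := by
  decide +kernel

def r_1453_1 : chkL rootF engF2 tB tB sB_270 sB_270 4 F_1453 [(256, 21, 0)]
    0x41b0e8272700f = true := by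
  decide +kernel

theorem f_1453 (h : TabsF) : FrameF repsF 270 F_1453.f :=
  frame_of rfl c_1453 ((runs_of engOK r_1453_0).append (runs_of engOK r_1453_1)) (by decide +kernel) h.2 h.2

theorem cl_270 (h : TabsF) : ∀ f ∈ fr_270, FrameF repsF 270 f :=
  List.forall_mem_cons.2 ⟨f_1426 h, List.forall_mem_cons.2 ⟨f_1427 h, List.forall_mem_cons.2 ⟨f_1428 h, List.forall_mem_cons.2 ⟨f_1429 h, List.forall_mem_cons.2 ⟨f_1430 h, List.forall_mem_cons.2 ⟨f_1431 h, List.forall_mem_cons.2 ⟨f_1432 h, List.forall_mem_cons.2 ⟨f_1433 h, List.forall_mem_cons.2 ⟨f_1434 h, List.forall_mem_cons.2 ⟨f_1435 h, List.forall_mem_cons.2 ⟨f_1436 h, List.forall_mem_cons.2 ⟨f_1437 h, List.forall_mem_cons.2 ⟨f_1438 h, List.forall_mem_cons.2 ⟨f_1439 h, List.forall_mem_cons.2 ⟨f_1440 h, List.forall_mem_cons.2 ⟨f_1441 h, List.forall_mem_cons.2 ⟨f_1442 h, List.forall_mem_cons.2 ⟨f_1443 h, List.forall_mem_cons.2 ⟨f_1444 h, List.forall_mem_cons.2 ⟨f_1445 h, List.forall_mem_cons.2 ⟨f_1446 h, List.forall_mem_cons.2 ⟨f_1447 h, List.forall_mem_cons.2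 ⟨f_1448 h, List.forall_mem_cons.2 ⟨f_1449 h, List.forall_mem_cons.2 ⟨f_1450 h, List.forall_mem_cons.2 ⟨f_1451 h, List.forall_mem_cons.2 ⟨f_1452 h, List.forall_mem_cons.2 ⟨f_1453 h,
    fun _ h0 => absurd h0 List.not_mem_nil⟩⟩⟩⟩⟩⟩⟩⟩⟩⟩⟩⟩⟩⟩⟩⟩⟩⟩⟩⟩⟩⟩⟩⟩⟩⟩⟩⟩

def F_1454 : FrX :=
  ⟨0x80080a000804040e000021010020010000020408810810000440300004100080400230310000200000500001584000080240020404100a1004188020000,
    0xa6, 1, 0x103152657491a5, 7,
    [(0xa6, 1), (0x205396a8, 4), (0x10548796, 4), (0x214396a7, 4), (0x205396a8, 4), (0x10548796, 4)],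
    [(0x103152657491a5, 7), (0x516382a0, 4), (0x638491a7, 4), (0x42637095, 4), (0x516382a0, 4), (0x638491a7, 4)]⟩

def c_1454 : frmChk tA tA F_1454 = true := by decide +kernel

def r_1454_0 : chkL rootF engF2 tA tA sA_271 sA_271 4 F_1454 [(511, 0, 0)]
    0x40f1382b1380f = true := by
  decide +kernel

theorem f_1454 (h : TabsF) : FrameF repsF 271 F_1454.f :=
  frame_of rfl c_1454 (runs_of engOK r_1454_0) (by decide +kernel) h.1 h.1

def F_1455 : FrX :=
  ⟨0x80080a000804040e000021010020010000020408900100080884800208200000045010008040410820080002c040240000100808040010024420c820000,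
    0xa6, 1, 0x415063748191a3, 7,
    [(0xa6, 1), (0x205396a8, 4), (0x10548796, 4), (0x214396a7, 4), (0x205396a8, 4), (0x10548796, 4)],
    [(0x415063748191a3, 7), (0x435286a0, 4), (0x41708695, 4), (0x318692a7, 4), (0x435286a0, 4), (0x41708695, 4)]⟩

def c_1455 : frmChk tA tA F_1455 = true := by decide +kernel

def r_1455_0 : chkL rootF engF2 tA tA sA_271 sA_271 4 F_1455 [(511, 0, 0)]
    0x4e1390712946a1e06a1542b1e01b15417 = true := by
  decide +kernel

theorem f_1455 (h : TabsF) : FrameF repsF 271 F_1455.f :=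
  frame_of rfl c_1455 (runs_of engOK r_1455_0) (by decide +kernel) h.1 h.1

def F_1456 : FrX :=
  ⟨0x80080a000804040e00002101002001000002040892410004008004000440002020404050000011000048000822182001100081084012020204050210000,
    0xa6, 1, 0x314362a8, 4,
    [(0xa6, 1), (0x205396a8, 4), (0x10548796, 4), (0x214396a7, 4), (0x205396a8, 4), (0x10548796, 4)],
    [(0x314362a8, 4), (0x426075a1, 4), (0x30517298, 4), (0x217598a4, 4), (0x30517298, 4), (0x216374a5, 4), (0x416098a2, 4), (0x217598a4, 4), (0x416098a2, 4), (0x305271a4, 4), (0x217598a4, 4), (0x216374a5, 4)]⟩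

def c_1456 : frmChk tA tB F_1456 = true := by decide +kernel

def r_1456_0 : chkL rootF engF2 tA tB sA_271 sB_271 4 F_1456 [(511, 0, 0)]
    0x615168354ca318d2618d04d9160b9244e = true := by
  decide +kernel

theorem f_1456 (h : TabsF) : FrameF repsF 271 F_1456.f :=
  frame_of rfl c_1456 (runs_of engOK r_1456_0) (by decide +kernel) h.1 h.2

def F_1457 : FrX :=
  ⟨0x482000044040440000c2040020009000182040002020422008020010040024800400111880001000000020548008000100002148040120044010210220,
    0xa0, 1, 0x1032425160a6, 6,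
    [(0xa0, 1), (0x538690a2, 4), (0x548790a1, 4), (0x21437690, 4), (0x538690a2, 4), (0x548790a1, 4)],
    [(0x1032425160a6, 6), (0x206491a8, 4), (0x30658791, 4), (0x325491a7, 4), (0x206491a8, 4), (0x30658791, 4)]⟩

def c_1457 : frmChk tA tA F_1457 = true := by decide +kernel

def r_1457_0 : chkL rootF engF2 tA tA sA_271 sA_271 4 F_1457 [(511, 0, 0)]
    0x46303c1b0b43606c1b = true := by
  decide +kernel

theorem f_1457 (h : TabsF) : FrameF repsF 271 F_1457.f :=
  frame_of rfl c_1457 (runs_of engOK r_1457_0) (by decide +kernel) h.1 h.1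

def F_1458 : FrX :=
  ⟨0x2002000900044004000e020410001410008000408008020d0010020400800882000004100904000286000008040410002080808020480000202080214180,
    0xa3, 1, 0x3143657596a6, 6,
    [(0xa3, 1), (0x208693a5, 4), (0x10548793, 4), (0x217693a4, 4), (0x208693a5, 4), (0x10548793, 4)],
    [(0x3143657596a6, 6), (0x207681a4, 4), (0x307195a6, 4), (0x768495a1, 4), (0x307195a6, 4), (0x326487a1, 4), (0x204195a8, 4), (0x768495a1, 4), (0x204195a8, 4), (0x306184a7, 4), (0x768495a1, 4), (0x326487a1, 4)]⟩

def c_1458 : frmChk tA tB F_1458 = true := by decide +kernel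

def r_1458_0 : chkL rootF engF2 tA tB sA_271 sB_271 4 F_1458 [(511, 0, 0)]
    0x40f2941b0e93803c27 = true := by
  decide +kernel

theorem f_1458 (h : TabsF) : FrameF repsF 271 F_1458.f :=
  frame_of rfl c_1458 (runs_of engOK r_1458_0) (by decide +kernel) h.1 h.2

def F_1459 : FrX :=
  ⟨0x2002000900044004000e0204100014100080004080040102402000420000c088140000115080001000040006050400008100201080441020001004203100,
    0xa3, 1, 0x2032508392a6, 6,
    [(0xa3, 1), (0x208693a5, 4), (0x10548793, 4), (0x217693a4, 4), (0x208693a5, 4), (0x10548793, 4)],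
    [(0x2032508392a6, 6), (0x407295a8, 4), (0x425163a7, 4), (0x637280a4, 4), (0x425163a7, 4), (0x208791a4, 4), (0x638495a0, 4), (0x637280a4, 4), (0x638495a0, 4), (0x517480a2, 4), (0x637280a4, 4), (0x208791a4, 4)]⟩

def c_1459 : frmChk tA tB F_1459 = true := by decide +kernel

def r_1459_0 : chkL rootF engF2 tA tB sA_271 sB_271 4 F_1459 [(511, 0, 0)]
    0x4270ac1705c0f = true := by
  decide +kernel

theorem f_1459 (h : TabsF) : FrameF repsF 271 F_1459.f :=
  frame_of rfl c_1459 (runs_of engOK r_1459_0) (by decide +kernel) h.1 h.2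

def F_1460 : FrX :=
  ⟨0x482000044040440000c204002000900018204002000048400002028008018480001080010101151000000100322004020400520000080401011000800c,
    0xa0, 1, 0x3141537691a2, 6,
    [(0xa0, 1), (0x538690a2, 4), (0x548790a1, 4), (0x21437690, 4), (0x538690a2, 4), (0x548790a1, 4)],
    [(0x3141537691a2, 6), (0x617583a0, 4), (0x31427690, 4), (0x42617385, 4), (0x31427690, 4), (0x657381a9, 4), (0x425387a0, 4), (0x42617385, 4), (0x425387a0, 4), (0x63718590, 4), (0x42617385, 4), (0x657381a9, 4)]⟩

def c_1460 : frmChk tA tB F_1460 = true := by decide +kernel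

def r_1460_0 : chkL rootF engF2 tA tB sA_271 sB_271 4 F_1460 [(511, 0, 0)]
    0x103c0f0781e03c0f0b8350cc358c4592d0d10d417 = true := by
  decide +kernel

theorem f_1460 (h : TabsF) : FrameF repsF 271 F_1460.f :=
  frame_of rfl c_1460 (runs_of engOK r_1460_0) (by decide +kernel) h.1 h.2

def F_1461 : FrX :=
  ⟨0x2002000900044004000e0204100014100080004080100102101020001820210100020402000800402402021502000000a040208080201000200820101003,
    0xa3, 1, 0x1054768392a3, 6,
    [(0xa3, 1), (0x208693a5, 4), (0x10548793, 4), (0x217693a4, 4), (0x208693a5, 4), (0x10548793, 4)],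
    [(0x1054768392a3, 6), (0x738291a4, 4), (0x10546382, 4), (0x768290a5, 4), (0x738291a4, 4), (0x10546382, 4)]⟩

def c_1461 : frmChk tA tA F_1461 = true := by decide +kernel

def r_1461_0 : chkL rootF engF2 tA tA sA_271 sA_271 4 F_1461 [(255, 0, 0), (256, 0, 17)]
    0x43309c33 = true := by
  decide +kernel

def r_1461_1 : chkL rootF engF2 tA tA sA_271 sA_271 4 F_1461 [(256, 17, 0)]
    0x41b = true := by
  decide +kernel

theorem f_1461 (h : TabsF) : FrameF repsF 271 F_1461.f :=
  frame_of rfl c_1461 ((runs_of engOK r_1461_0).append (runs_of engOK r_1461_1)) (by decide +kernel) h.1 h.1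

def F_1462 : FrX :=
  ⟨0x80080a000804040e00002101002001000002040881011001020010020042001010034000c00041020000000888040140002142008000608004a20420002,
    0xa6, 1, 0x43608796a5, 5,
    [(0xa6, 1), (0x205396a8, 4), (0x10548796, 4), (0x214396a7, 4), (0x205396a8, 4), (0x10548796, 4)],
    [(0x43608796a5, 5), (0x627394a8, 4), (0x506198a3, 4), (0x507493a8, 4), (0x506198a3, 4), (0x218493a7, 4), (0x43506297, 4), (0x507493a8, 4), (0x43506297, 4), (0x617483a9, 4), (0x507493a8, 4), (0x218493a7, 4)]⟩

def c_1462 : frmChk tA tB F_1462 = true := by decide +kernel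

def r_1462_0 : chkL rootF engF2 tA tB sA_271 sB_271 4 F_1462 [(511, 0, 0)]
    0x41e = true := by
  decide +kernel

theorem f_1462 (h : TabsF) : FrameF repsF 271 F_1462.f :=
  frame_of rfl c_1462 (runs_of engOK r_1462_0) (by decide +kernel) h.1 h.2

def F_1463 : FrX :=
  ⟨0x2002000900044004000e0204100014100080004080100102101020000420210100020406000801800c08011100040000a040208080201000600020209001,
    0xa3, 1, 0x40658094a1, 5,
    [(0xa3, 1), (0x208693a5, 4), (0x10548793, 4), (0x217693a4, 4), (0x208693a5, 4), (0x10548793, 4)],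
    [(0x40658094a1, 5), (0x10546382, 4), (0x107496a8, 4), (0x107593a2, 4), (0x10546382, 4), (0x107496a8, 4)]⟩

def c_1463 : frmChk tA tA F_1463 = true := by decide +kernel

def r_1463_0 : chkL rootF engF2 tA tA sA_271 sA_271 4 F_1463 [(511, 0, 0)]
    0x10d42e4981e = true := by
  decide +kernel

theorem f_1463 (h : TabsF) : FrameF repsF 271 F_1463.f :=
  frame_of rfl c_1463 (runs_of engOK r_1463_0) (by decide +kernel) h.1 h.1

def F_1464 : FrX :=
  ⟨0x80080a000804040e000021010020010000020408a00010021400248004802020000808004000850200200011220024080040080030004003008c0808002,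
    0xa6, 1, 0x4184a8, 3,
    [(0xa6, 1), (0x205396a8, 4), (0x10548796, 4), (0x214396a7, 4), (0x205396a8, 4), (0x10548796, 4)],
    [(0x4184a8, 3), (0x206375a8, 4), (0x40768591, 4), (0x758691a3, 4), (0x40768591, 4), (0x427386a5, 4), (0x208391a6, 4), (0x758691a3, 4), (0x208391a6, 4), (0x406587a3, 4), (0x758691a3, 4), (0x427386a5, 4)]⟩

def c_1464 : frmChk tA tB F_1464 = true := by decide +kernel

def r_1464_0 : chkL rootF engF2 tA tB sA_271 sB_271 4 F_1464 [(511, 0, 0)]
    0x10782e1348e23827 = true := by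
  decide +kernel

theorem f_1464 (h : TabsF) : FrameF repsF 271 F_1464.f :=
  frame_of rfl c_1464 (runs_of engOK r_1464_0) (by decide +kernel) h.1 h.2

def F_1465 : FrX :=
  ⟨0x1c2102000004044000002041000101000082040888081000001020400400102000604060000098008080111102400408048008000a00800700010208001,
    0x0, 0, 0x4376, 2,
    [(0x0, 0), (0x205386a9, 4), (0x105487a9, 4), (0x214376a9, 4), (0x205386a9, 4), (0x105487a9, 4)],
    [(0x4376, 2), (0x20657483, 4), (0x105376a9, 4), (0x657384a9, 4), (0x105376a9, 4), (0x21647385, 4), (0x204387a9, 4), (0x657384a9, 4), (0x204387a9, 4), (0x10637584, 4), (0x657384a9, 4), (0x21647385, 4)]⟩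

def c_1465 : frmChk tA tB F_1465 = true := by decide +kernel

def r_1465_0 : chkL rootF engF2 tA tB sA_271 sB_271 4 F_1465 [(255, 0, 0), (256, 0, 23)]
    0x417 = true := by
  decide +kernel

def r_1465_1 : chkL rootF engF2 tA tB sA_271 sB_271 4 F_1465 [(256, 23, 0)]
    0x148e0e07896 = true := by
  decide +kernel

theorem f_1465 (h : TabsF) : FrameF repsF 271 F_1465.f :=
  frame_of rfl c_1465 ((runs_of engOK r_1465_0).append (runs_of engOK r_1465_1)) (by decide +kernel) h.1 h.2

def F_1466 : FrX :=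
  ⟨0x80080a000804040e000021010020010000020408a00010011000248004802020000810404000990080800011024024080040080008004007000c0808001,
    0xa6, 1, 0x10407392a4, 5,
    [(0xa6, 1), (0x205396a8, 4), (0x10548796, 4), (0x214396a7, 4), (0x205396a8, 4), (0x10548796, 4)],
    [(0x10407392a4, 5), (0x537694a8, 4), (0x214063a5, 4), (0x215387a6, 4), (0x214063a5, 4), (0x738590a6, 4), (0x218694a7, 4), (0x215387a6, 4), (0x218694a7, 4), (0x406587a3, 4), (0x215387a6, 4), (0x738590a6, 4)]⟩

def c_1466 : frmChk tA tB F_1466 = true := by decide +kernel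

def r_1466_0 : chkL rootF engF2 tA tB sA_271 sB_271 4 F_1466 [(511, 0, 0)]
    0x4553504b15453154d4 = true := by
  decide +kernel

theorem f_1466 (h : TabsF) : FrameF repsF 271 F_1466.f :=
  frame_of rfl c_1466 (runs_of engOK r_1466_0) (by decide +kernel) h.1 h.2

def F_1467 : FrX :=
  ⟨0x1c2102000004044000002041000101000082040888081000001020400400102000604060000030008080405103100408048008002600800700010088000,
    0x0, 0, 0x4376, 2,
    [(0x0, 0), (0x205386a9, 4), (0x105487a9, 4), (0x214376a9, 4), (0x205386a9, 4), (0x105487a9, 4)],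
    [(0x4376, 2), (0x20657483, 4), (0x105376a9, 4), (0x657384a9, 4), (0x105376a9, 4), (0x21647385, 4), (0x204387a9, 4), (0x657384a9, 4), (0x204387a9, 4), (0x10637584, 4), (0x657384a9, 4), (0x21647385, 4)]⟩

def c_1467 : frmChk tA tB F_1467 = true := by decide +kernel

def r_1467_0 : chkL rootF engF2 tA tB sA_271 sB_271 4 F_1467 [(255, 0, 0), (256, 0, 24)]
    0x1 = true := by
  decide +kernel

def r_1467_1 : chkL rootF engF2 tA tB sA_271 sB_271 4 F_1467 [(256, 24, 0)]
    0x103c352b02781c2723a0703c0f19607 = true := by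
  decide +kernel

theorem f_1467 (h : TabsF) : FrameF repsF 271 F_1467.f :=
  frame_of rfl c_1467 ((runs_of engOK r_1467_0).append (runs_of engOK r_1467_1)) (by decide +kernel) h.1 h.2

def F_1468 : FrX :=
  ⟨0x2002000900044004000e02041000141000800040800801014008024002000240200102200888000224000100800048100100000032408008002816044004,
    0xa3, 1, 0x415063718498a6, 7,
    [(0xa3, 1), (0x208693a5, 4), (0x10548793, 4), (0x217693a4, 4), (0x208693a5, 4), (0x10548793, 4)],
    [(0x415063718498a6, 7), (0x315260a9, 4), (0x31758094, 4), (0x317286a4, 4), (0x315260a9, 4), (0x31758094, 4)]⟩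

def c_1468 : frmChk tA tA F_1468 = true := by decide +kernel

def r_1468_0 : chkL rootF engF2 tA tA sA_271 sA_271 4 F_1468 [(511, 0, 0)]
    0x41d44c17074aa05c0f1c42e1981d14c1b1646613417 = true := by
  decide +kernel

theorem f_1468 (h : TabsF) : FrameF repsF 271 F_1468.f :=
  frame_of rfl c_1468 (runs_of engOK r_1468_0) (by decide +kernel) h.1 h.1

def F_1469 : FrX :=
  ⟨0x80080a000804040e000021010020010000020408a00010040400248004802020000804404000310080800011031024080040080024004007000c0808000,
    0xa6, 1, 0x21426590a4, 5,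
    [(0xa6, 1), (0x205396a8, 4), (0x10548796, 4), (0x214396a7, 4), (0x205396a8, 4), (0x10548796, 4)],
    [(0x21426590a4, 5), (0x537694a8, 4), (0x107592a6, 4), (0x107683a5, 4), (0x107592a6, 4), (0x427386a5, 4), (0x108594a3, 4), (0x107683a5, 4), (0x108594a3, 4), (0x658392a7, 4), (0x107683a5, 4), (0x427386a5, 4)]⟩

def c_1469 : frmChk tA tB F_1469 = true := by decide +kernel

def r_1469_0 : chkL rootF engF2 tA tB sA_271 sB_271 4 F_1469 [(255, 0, 0), (256, 0, 25)]
    0x40f1d03a = true := by
  decide +kernel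

def r_1469_1 : chkL rootF engF2 tA tB sA_271 sB_271 4 F_1469 [(256, 25, 0)]
    0x14682d2a4171384e05c0f14c8b328c3914d122ca9b06438c781a4a9112cc382e86a0c9903c8b92a0b32a0b8684d3188e2a58a2a5866184d624b80ac1d2a48b8b0c30747886a980b986075892a4c622c1e03cc30ae2c82e290b8ac23629894a9896a21a8ca8b053 = true := by
  decide +kernel

theorem f_1469 (h : TabsF) : FrameF repsF 271 F_1469.f :=
  frame_of rfl c_1469 ((runs_of engOK r_1469_0).append (runs_of engOK r_1469_1)) (by decide +kernel) h.1 h.2

def F_1470 : FrX :=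
  ⟨0x80080a000804040e00002101002001000002040881011001020010020042001010034000c00041020000000888040140001102010400908002a204c0000,
    0xa6, 1, 0x43608796a5, 5,
    [(0xa6, 1), (0x205396a8, 4), (0x10548796, 4), (0x214396a7, 4), (0x205396a8, 4), (0x10548796, 4)],
    [(0x43608796a5, 5), (0x627394a8, 4), (0x506198a3, 4), (0x507493a8, 4), (0x506198a3, 4), (0x218493a7, 4), (0x43506297, 4), (0x507493a8, 4), (0x43506297, 4), (0x617483a9, 4), (0x507493a8, 4), (0x218493a7, 4)]⟩

def c_1470 : frmChk tA tB F_1470 = true := by decide +kernel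

def r_1470_0 : chkL rootF engF2 tA tB sA_271 sB_271 4 F_1470 [(511, 0, 0)]
    0x11981d0748e11c5c11c7115447171c450dc10e81706c1b06c1b = true := by
  decide +kernel

theorem f_1470 (h : TabsF) : FrameF repsF 271 F_1470.f :=
  frame_of rfl c_1470 (runs_of engOK r_1470_0) (by decide +kernel) h.1 h.2

def F_1471 : FrX :=
  ⟨0x80080a000804040e000021010020010000020408a00010040400248004802020000804404000850100400011130024080040080030004005008c0808000,
    0xa6, 1, 0x21426590a4, 5,
    [(0xa6, 1), (0x205396a8, 4), (0x10548796, 4), (0x214396a7, 4), (0x205396a8, 4), (0x10548796, 4)],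
    [(0x21426590a4, 5), (0x537694a8, 4), (0x107592a6, 4), (0x107683a5, 4), (0x107592a6, 4), (0x427386a5, 4), (0x108594a3, 4), (0x107683a5, 4), (0x108594a3, 4), (0x658392a7, 4), (0x107683a5, 4), (0x427386a5, 4)]⟩

def c_1471 : frmChk tA tB F_1471 = true := by decide +kernel

def r_1471_0 : chkL rootF engF2 tA tB sA_271 sB_271 4 F_1471 [(255, 0, 0), (256, 0, 24)]
    0x103c530e83a03c0f = true := by
  decide +kernel

def r_1471_1 : chkL rootF engF2 tA tB sA_271 sB_271 4 F_1471 [(256, 24, 0)]
    0x113b1260c4dc884dc884d3444e03c960b896 = true := by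
  decide +kernel

theorem f_1471 (h : TabsF) : FrameF repsF 271 F_1471.f :=
  frame_of rfl c_1471 ((runs_of engOK r_1471_0).append (runs_of engOK r_1471_1)) (by decide +kernel) h.1 h.2

def F_1472 : FrX :=
  ⟨0x1001040012008080000e00840800410008101000042020041108022002000020442000120000110040021810800800202100800810404408100806000104,
    0xa3, 1, 0x3250647283a8, 6,
    [(0xa3, 1), (0x207584a6, 4), (0x10547693, 4), (0x647593a8, 4), (0x10547693, 4), (0x216485a7, 4), (0x208693a4, 4), (0x647593a8, 4), (0x208693a4, 4), (0x106574a8, 4), (0x647593a8, 4), (0x216485a7, 4)],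
    [(0x3250647283a8, 6), (0x758092a4, 4), (0x516092a3, 4), (0x43718692, 4), (0x758092a4, 4), (0x516092a3, 4)]⟩

def c_1472 : frmChk tB tA F_1472 = true := by decide +kernel

def r_1472_0 : chkL rootF engF2 tB tA sB_271 sA_271 4 F_1472 [(511, 0, 0)]
    0x4c305c1d05c3a03c8b03ec803c4eb20171340f = true := by
  decide +kernel

theorem f_1472 (h : TabsF) : FrameF repsF 271 F_1472.f :=
  frame_of rfl c_1472 (runs_of engOK r_1472_0) (by decide +kernel) h.2 h.1

def F_1473 : FrX :=
  ⟨0x1001040012008080000e0084080041000810100004201010008802200200004044020204108010014008180404100820010000080e004008101008022020,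
    0xa3, 1, 0x1061718392a6, 6,
    [(0xa3, 1), (0x207584a6, 4), (0x10547693, 4), (0x647593a8, 4), (0x10547693, 4), (0x216485a7, 4), (0x208693a4, 4), (0x647593a8, 4), (0x208693a4, 4), (0x106574a8, 4), (0x647593a8, 4), (0x216485a7, 4)],
    [(0x1061718392a6, 6), (0x436591a8, 4), (0x205471a6, 4), (0x206583a4, 4), (0x205471a6, 4), (0x538697a4, 4), (0x208491a3, 4), (0x206583a4, 4), (0x208491a3, 4), (0x647183a5, 4), (0x206583a4, 4), (0x538697a4, 4)]⟩

def c_1473 : frmChk tB tB F_1473 = true := by decide +kernel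

def r_1473_0 : chkL rootF engF2 tB tB sB_271 sB_271 4 F_1473 [(255, 0, 0), (256, 0, 16)]
    0x4a6 = true := by
  decide +kernel

def r_1473_1 : chkL rootF engF2 tB tB sB_271 sB_271 4 F_1473 [(256, 16, 0)]
    0x40f0d41b = true := by
  decide +kernel

theorem f_1473 (h : TabsF) : FrameF repsF 271 F_1473.f :=
  frame_of rfl c_1473 ((runs_of engOK r_1473_0).append (runs_of engOK r_1473_1)) (by decide +kernel) h.2 h.2

def F_1474 : FrX :=
  ⟨0x1001040012008080000e0084080041000810100004200802400140010102000009a0000a000020804008480440000080400420210202080009110000006a,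
    0xa3, 1, 0x3263768697a3, 6,
    [(0xa3, 1), (0x207584a6, 4), (0x10547693, 4), (0x647593a8, 4), (0x10547693, 4), (0x216485a7, 4), (0x208693a4, 4), (0x647593a8, 4), (0x208693a4, 4), (0x106574a8, 4), (0x647593a8, 4), (0x216485a7, 4)],
    [(0x3263768697a3, 6), (0x307495a8, 4), (0x10546298, 4), (0x628495a7, 4), (0x10546298, 4), (0x317584a9, 4), (0x306287a4, 4), (0x628495a7, 4), (0x306287a4, 4), (0x108594a7, 4), (0x628495a7, 4), (0x317584a9, 4)]⟩

def c_1474 : frmChk tB tB F_1474 = true := by decide +kernel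

def r_1474_0 : chkL rootF engF2 tB tB sB_271 sB_271 4 F_1474 [(255, 0, 0), (256, 0, 18)]
    0x1 = true := by
  decide +kernel

def r_1474_1 : chkL rootF engF2 tB tB sB_271 sB_271 4 F_1474 [(256, 18, 0)]
    0x4350780f = true := by
  decide +kernel

theorem f_1474 (h : TabsF) : FrameF repsF 271 F_1474.f :=
  frame_of rfl c_1474 ((runs_of engOK r_1474_0).append (runs_of engOK r_1474_1)) (by decide +kernel) h.2 h.2

def F_1475 : FrX :=
  ⟨0x1001040012008080000e00840800410008101000042008024001400101020000032000260000208040084804400000804004202102020800058100020070,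
    0xa3, 1, 0x3254618398a6, 6,
    [(0xa3, 1), (0x207584a6, 4), (0x10547693, 4), (0x647593a8, 4), (0x10547693, 4), (0x216485a7, 4), (0x208693a4, 4), (0x647593a8, 4), (0x208693a4, 4), (0x106574a8, 4), (0x647593a8, 4), (0x216485a7, 4)],
    [(0x3254618398a6, 6), (0x307495a8, 4), (0x215460a7, 4), (0x217498a5, 4), (0x215460a7, 4), (0x638794a5, 4), (0x213085a9, 4), (0x217498a5, 4), (0x213085a9, 4), (0x607598a4, 4), (0x217498a5, 4), (0x638794a5, 4)]⟩

def c_1475 : frmChk tB tB F_1475 = true := by decide +kernel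

def r_1475_0 : chkL rootF engF2 tB tB sB_271 sB_271 4 F_1475 [(255, 0, 0), (256, 0, 18)]
    0x4330cc0f8940f03c0f03c35 = true := by
  decide +kernel

def r_1475_1 : chkL rootF engF2 tB tB sB_271 sB_271 4 F_1475 [(256, 18, 0)]
    0x40f03c0f = true := by
  decide +kernel

theorem f_1475 (h : TabsF) : FrameF repsF 271 F_1475.f :=
  frame_of rfl c_1475 ((runs_of engOK r_1475_0).append (runs_of engOK r_1475_1)) (by decide +kernel) h.2 h.2

def F_1476 : FrX :=
  ⟨0x482000044040440000c2040020009000182040020000484000020280080184800010800110111510000000024120040204001200000804010110008414,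
    0xa0, 1, 0x3141768792a1, 6,
    [(0xa0, 1), (0x538690a2, 4), (0x548790a1, 4), (0x21437690, 4), (0x538690a2, 4), (0x548790a1, 4)],
    [(0x3141768792a1, 6), (0x63718590, 4), (0x425387a0, 4), (0x42617385, 4), (0x425387a0, 4), (0x657381a9, 4), (0x31427690, 4), (0x42617385, 4), (0x31427690, 4), (0x617583a0, 4), (0x42617385, 4), (0x657381a9, 4)]⟩

def c_1476 : frmChk tA tB F_1476 = true := by decide +kernel

def r_1476_0 : chkL rootF engF2 tA tB sA_271 sB_271 4 F_1476 [(511, 0, 0)]
    0x456314e28540f3140f0741703c2e = true := by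
  decide +kernel

theorem f_1476 (h : TabsF) : FrameF repsF 271 F_1476.f :=
  frame_of rfl c_1476 (runs_of engOK r_1476_0) (by decide +kernel) h.1 h.2

def F_1477 : FrX :=
  ⟨0x2002000900044004000e020410001410008000408008020108100204008008820000a4000904000242000009048410002080808020480040202080210100,
    0xa3, 1, 0x3150758590a7, 6,
    [(0xa3, 1), (0x208693a5, 4), (0x10548793, 4), (0x217693a4, 4), (0x208693a5, 4), (0x10548793, 4)],
    [(0x3150758590a7, 6), (0x617492a8, 4), (0x508493a6, 4), (0x506471a8, 4), (0x508493a6, 4), (0x326487a1, 4), (0x41507692, 4), (0x506471a8, 4), (0x41507692, 4), (0x718693a4, 4), (0x506471a8, 4), (0x326487a1, 4)]⟩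

def c_1477 : frmChk tA tB F_1477 = true := by decide +kernel

def r_1477_0 : chkL rootF engF2 tA tB sA_271 sB_271 4 F_1477 [(511, 0, 0)]
    0x42711c95270781541b0d86603c7406c661b01705f8805c4d = true := by
  decide +kernel

theorem f_1477 (h : TabsF) : FrameF repsF 271 F_1477.f :=
  frame_of rfl c_1477 (runs_of engOK r_1477_0) (by decide +kernel) h.1 h.2

def F_1478 : FrX :=
  ⟨0x2002000900044004000e0204100014100080004080040400442000420000c080140100115080001000048004444000008100201080441020001004201300,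
    0xa3, 1, 0x2151608792a3, 6,
    [(0xa3, 1), (0x208693a5, 4), (0x10548793, 4), (0x217693a4, 4), (0x208693a5, 4), (0x10548793, 4)],
    [(0x2151608792a3, 6), (0x748296a0, 4), (0x31426580, 4), (0x314082a7, 4), (0x31426580, 4), (0x407295a8, 4), (0x317096a4, 4), (0x314082a7, 4), (0x317096a4, 4), (0x206584a7, 4), (0x314082a7, 4), (0x407295a8, 4)]⟩

def c_1478 : frmChk tA tB F_1478 = true := by decide +kernel

def r_1478_0 : chkL rootF engF2 tA tB sA_271 sB_271 4 F_1478 [(255, 0, 0), (256, 0, 21)]
    0x4350d42b = true := by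
  decide +kernel

def r_1478_1 : chkL rootF engF2 tA tB sA_271 sB_271 4 F_1478 [(256, 21, 0)]
    0x65896232946708c8369c14ab06c2d2047950749444794427950479901e91427b04361d24a92b480d8270d874d2066 = true := by
  decide +kernel

theorem f_1478 (h : TabsF) : FrameF repsF 271 F_1478.f :=
  frame_of rfl c_1478 ((runs_of engOK r_1478_0).append (runs_of engOK r_1478_1)) (by decide +kernel) h.1 h.2

def F_1479 : FrX :=
  ⟨0x1001040012008080000e0084080041000810100006000002d000208004180084040000100020280808070010200020022000284400004004040003002083,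
    0xa3, 1, 0x1021307683a4, 6,
    [(0xa3, 1), (0x207584a6, 4), (0x10547693, 4), (0x647593a8, 4), (0x10547693, 4), (0x216485a7, 4), (0x208693a4, 4), (0x647593a8, 4), (0x208693a4, 4), (0x106574a8, 4), (0x647593a8, 4), (0x216485a7, 4)],
    [(0x1021307683a4, 6), (0x306587a1, 4), (0x327694a5, 4), (0x658194a7, 4), (0x327694a5, 4), (0x205186a7, 4), (0x307194a8, 4), (0x658194a7, 4), (0x307194a8, 4), (0x327581a6, 4), (0x658194a7, 4), (0x205186a7, 4)]⟩

def c_1479 : frmChk tB tB F_1479 = true := by decide +kernel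

def r_1479_0 : chkL rootF engF2 tB tB sB_271 sB_271 4 F_1479 [(255, 0, 0), (256, 0, 20)]
    0x42709c4d6841d1344d = true := by
  decide +kernel

def r_1479_1 : chkL rootF engF2 tB tB sB_271 sB_271 4 F_1479 [(256, 20, 0)]
    0x41d22c2709c2709c270741d0742b = true := by
  decide +kernel

theorem f_1479 (h : TabsF) : FrameF repsF 271 F_1479.f :=
  frame_of rfl c_1479 ((runs_of engOK r_1479_0).append (runs_of engOK r_1479_1)) (by decide +kernel) h.2 h.2

def F_1480 : FrX :=
  ⟨0x1001040012008080000e00840800410008101000040900004460010020000882808200002100100100204202010040410014000401a00480500000043002,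
    0xa3, 1, 0x2132417181a3, 6,
    [(0xa3, 1), (0x207584a6, 4), (0x10547693, 4), (0x647593a8, 4), (0x10547693, 4), (0x216485a7, 4), (0x208693a4, 4), (0x647593a8, 4), (0x208693a4, 4), (0x106574a8, 4), (0x647593a8, 4), (0x216485a7, 4)],
    [(0x2132417181a3, 6), (0x305472a6, 4), (0x52648091, 4), (0x546291a7, 4), (0x52648091, 4), (0x627583a4, 4), (0x307691a2, 4), (0x546291a7, 4), (0x307691a2, 4), (0x426580a7, 4), (0x546291a7, 4), (0x627583a4, 4)]⟩

def c_1480 : frmChk tB tB F_1480 = true := by decide +kernel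

def r_1480_0 : chkL rootF engF2 tB tB sB_271 sB_271 4 F_1480 [(255, 0, 0), (256, 0, 21)]
    0x11980f28ca903c0f28ca912c0f = true := by
  decide +kernel

def r_1480_1 : chkL rootF engF2 tB tB sB_271 sB_271 4 F_1480 [(256, 21, 0)]
    0x41d0b42d03c714970503c4791615438a32a43303c0f03c8b0cc0f = true := by
  decide +kernel

theorem f_1480 (h : TabsF) : FrameF repsF 271 F_1480.f :=
  frame_of rfl c_1480 ((runs_of engOK r_1480_0).append (runs_of engOK r_1480_1)) (by decide +kernel) h.2 h.2

def F_1481 : FrX :=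
  ⟨0x1001040012008080000e0084080041000810100004200810010802200200008044020204108010014004280005100820010000080e00400810100402a000,
    0xa3, 1, 0x2040637091a4, 6,
    [(0xa3, 1), (0x207584a6, 4), (0x10547693, 4), (0x647593a8, 4), (0x10547693, 4), (0x216485a7, 4), (0x208693a4, 4), (0x647593a8, 4), (0x208693a4, 4), (0x106574a8, 4), (0x647593a8, 4), (0x216485a7, 4)],
    [(0x2040637091a4, 6), (0x546370a8, 4), (0x214397a5, 4), (0x215486a3, 4), (0x214397a5, 4), (0x648590a3, 4), (0x217083a6, 4), (0x215486a3, 4), (0x217083a6, 4), (0x538697a4, 4), (0x215486a3, 4), (0x648590a3, 4)]⟩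

def c_1481 : frmChk tB tB F_1481 = true := by decide +kernel

def r_1481_0 : chkL rootF engF2 tB tB sB_271 sB_271 4 F_1481 [(255, 0, 0), (256, 0, 18)]
    0x1 = true := by
  decide +kernel

def r_1481_1 : chkL rootF engF2 tB tB sB_271 sB_271 4 F_1481 [(256, 18, 0)]
    0x41b074170d645 = true := by
  decide +kernel

theorem f_1481 (h : TabsF) : FrameF repsF 271 F_1481.f :=
  frame_of rfl c_1481 ((runs_of engOK r_1481_0).append (runs_of engOK r_1481_1)) (by decide +kernel) h.2 h.2

theorem cl_271 (h : TabsF) : ∀ f ∈ fr_271, FrameF repsF 271 f :=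
  List.forall_mem_cons.2 ⟨f_1454 h, List.forall_mem_cons.2 ⟨f_1455 h, List.forall_mem_cons.2 ⟨f_1456 h, List.forall_mem_cons.2 ⟨f_1457 h, List.forall_mem_cons.2 ⟨f_1458 h, List.forall_mem_cons.2 ⟨f_1459 h, List.forall_mem_cons.2 ⟨f_1460 h, List.forall_mem_cons.2 ⟨f_1461 h, List.forall_mem_cons.2 ⟨f_1462 h, List.forall_mem_cons.2 ⟨f_1463 h, List.forall_mem_cons.2 ⟨f_1464 h, List.forall_mem_cons.2 ⟨f_1465 h, List.forall_mem_cons.2 ⟨f_1466 h, List.forall_mem_cons.2 ⟨f_1467 h, List.forall_mem_cons.2 ⟨f_1468 h, List.forall_mem_cons.2 ⟨f_1469 h, List.forall_mem_cons.2 ⟨f_1470 h, List.forall_mem_cons.2 ⟨f_1471 h, List.forall_mem_cons.2 ⟨f_1472 h, List.forall_mem_cons.2 ⟨f_1473 h, List.forall_mem_cons.2 ⟨f_1474 h, List.forall_mem_cons.2 ⟨f_1475 h, List.forall_mem_cons.2 ⟨f_1476 h, List.forall_mem_cons.2 ⟨f_1477 h, List.forall_mem_cons.2 ⟨f_1478 h, List.forall_mem_cons.2 ⟨f_1479 h, List.forall_mem_cons.2 ⟨f_1480 h, List.forall_mem_cons.2 ⟨f_1481 h,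
    fun _ h0 => absurd h0 List.not_mem_nil⟩⟩⟩⟩⟩⟩⟩⟩⟩⟩⟩⟩⟩⟩⟩⟩⟩⟩⟩⟩⟩⟩⟩⟩⟩⟩⟩⟩

def F_1482 : FrX :=
  ⟨0x1001040012008080000e00840800410008101000042100004060010060000882808200002200004b00004002c00040410010800408200000501000210045,
    0xa3, 1, 0x4252738292a7, 6,
    [(0xa3, 1), (0x207584a6, 4), (0x10547693, 4), (0x647593a8, 4), (0x10547693, 4), (0x216485a7, 4), (0x208693a4, 4), (0x647593a8, 4), (0x208693a4, 4), (0x106574a8, 4), (0x647593a8, 4), (0x216485a7, 4)],
    [(0x4252738292a7, 6), (0x527690a4, 4), (0x104283a6, 4), (0x627583a4, 4), (0x104283a6, 4), (0x546291a7, 4), (0x65728390, 4), (0x627583a4, 4), (0x65728390, 4), (0x106475a2, 4), (0x627583a4, 4), (0x546291a7, 4)]⟩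

def c_1482 : frmChk tB tB F_1482 = true := by decide +kernel

def r_1482_0 : chkL rootF engF2 tB tB sB_272 sB_272 4 F_1482 [(511, 0, 0)]
    0x109c2705c27 = true := by
  decide +kernel

theorem f_1482 (h : TabsF) : FrameF repsF 272 F_1482.f :=
  frame_of rfl c_1482 (runs_of engOK r_1482_0) (by decide +kernel) h.2 h.2

def F_1483 : FrX :=
  ⟨0x1001040012008080000e0084080041000810100006000002808020800418008404000a000100208268010008000860022000a0440001000000a002202081,
    0xa3, 1, 0x1040546590a3, 6,
    [(0xa3, 1), (0x207584a6, 4), (0x10547693, 4), (0x647593a8, 4), (0x10547693, 4), (0x216485a7, 4), (0x208693a4, 4), (0x647593a8, 4), (0x208693a4, 4), (0x106574a8, 4), (0x647593a8, 4), (0x216485a7, 4)],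
    [(0x1040546590a3, 6), (0x768592a1, 4), (0x43657190, 4), (0x435176a8, 4), (0x43657190, 4), (0x205186a7, 4), (0x438192a5, 4), (0x435176a8, 4), (0x438192a5, 4), (0x617590a8, 4), (0x435176a8, 4), (0x205186a7, 4)]⟩

def c_1483 : frmChk tB tB F_1483 = true := by decide +kernel

def r_1483_0 : chkL rootF engF2 tB tB sB_272 sB_272 4 F_1483 [(511, 0, 0)]
    0x4a92a4a9294a9294a9294a92a4a92a41e = true := by
  decide +kernel

theorem f_1483 (h : TabsF) : FrameF repsF 272 F_1483.f :=
  frame_of rfl c_1483 (runs_of engOK r_1483_0) (by decide +kernel) h.2 h.2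

def F_1484 : FrX :=
  ⟨0x1001040012008080000e0084080041000810100006000002d0002080041800840400001001a0200240050000020060022000004401010005008002222009,
    0xa3, 1, 0x1021307683a4, 6,
    [(0xa3, 1), (0x207584a6, 4), (0x10547693, 4), (0x647593a8, 4), (0x10547693, 4), (0x216485a7, 4), (0x208693a4, 4), (0x647593a8, 4), (0x208693a4, 4), (0x106574a8, 4), (0x647593a8, 4), (0x216485a7, 4)],
    [(0x1021307683a4, 6), (0x306587a1, 4), (0x327694a5, 4), (0x658194a7, 4), (0x327694a5, 4), (0x205186a7, 4), (0x307194a8, 4), (0x658194a7, 4), (0x307194a8, 4), (0x327581a6, 4), (0x658194a7, 4), (0x205186a7, 4)]⟩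

def c_1484 : frmChk tB tB F_1484 = true := by decide +kernel

def r_1484_0 : chkL rootF engF2 tB tB sB_272 sB_272 4 F_1484 [(255, 0, 0), (256, 0, 20)]
    0x4cc330cc11c270d435 = true := by
  decide +kernel

def r_1484_1 : chkL rootF engF2 tB tB sB_272 sB_272 4 F_1484 [(256, 20, 0)]
    0x4360d8174390e4390e4390e = true := by
  decide +kernel

theorem f_1484 (h : TabsF) : FrameF repsF 272 F_1484.f :=
  frame_of rfl c_1484 ((runs_of engOK r_1484_0).append (runs_of engOK r_1484_1)) (by decide +kernel) h.2 h.2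

def F_1485 : FrX :=
  ⟨0x600020801080810000c0040180410101001004010040100100001440121002080002043800802000000110381010400040208000400808100c00180021,
    0xa0, 1, 0x205391a0, 4,
    [(0xa0, 1), (0x637584a2, 4), (0x547690a1, 4), (0x64758390, 4), (0x547690a1, 4), (0x21647385, 4), (0x438690a2, 4), (0x64758390, 4), (0x438690a2, 4), (0x657483a1, 4), (0x64758390, 4), (0x21647385, 4)],
    [(0x205391a0, 4), (0x657384a0, 4), (0x214376a9, 4), (0x21647385, 4), (0x214376a9, 4), (0x64758390, 4), (0x215486a0, 4), (0x21647385, 4), (0x215486a0, 4), (0x637485a9, 4), (0x21647385, 4), (0x64758390, 4)]⟩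

def c_1485 : frmChk tB tB F_1485 = true := by decide +kernel

def r_1485_0 : chkL rootF engF2 tB tB sB_272 sB_272 4 F_1485 [(511, 0, 0)]
    0x1 = true := by
  decide +kernel

theorem f_1485 (h : TabsF) : FrameF repsF 272 F_1485.f :=
  frame_of rfl c_1485 (runs_of engOK r_1485_0) (by decide +kernel) h.2 h.2

def F_1486 : FrX :=
  ⟨0x1001040012008080000e008408004100081010000420201000480220020000c044020202000040404002480406040020210080081800440810000200a001,
    0xa3, 1, 0x3262728792a3, 6,
    [(0xa3, 1), (0x207584a6, 4), (0x10547693, 4), (0x647593a8, 4), (0x10547693, 4), (0x216485a7, 4), (0x208693a4, 4), (0x647593a8, 4), (0x208693a4, 4), (0x106574a8, 4), (0x647593a8, 4), (0x216485a7, 4)],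
    [(0x3262728792a3, 6), (0x648590a3, 4), (0x10547283, 4), (0x437285a6, 4), (0x10547283, 4), (0x436591a8, 4), (0x637290a4, 4), (0x437285a6, 4), (0x637290a4, 4), (0x105384a6, 4), (0x437285a6, 4), (0x436591a8, 4)]⟩

def c_1486 : frmChk tB tB F_1486 = true := by decide +kernel

def r_1486_0 : chkL rootF engF2 tB tB sB_272 sB_272 4 F_1486 [(255, 0, 0), (256, 0, 16)]
    0x10781709c17 = true := by
  decide +kernel

def r_1486_1 : chkL rootF engF2 tB tB sB_272 sB_272 4 F_1486 [(256, 16, 25)]
    0x1 = true := by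
  decide +kernel

def r_1486_2 : chkL rootF engF2 tB tB sB_272 sB_272 4 F_1486 [(256, 41, 0)]
    0x1 = true := by
  decide +kernel

theorem f_1486 (h : TabsF) : FrameF repsF 272 F_1486.f :=
  frame_of rfl c_1486 ((runs_of engOK r_1486_0).append ((runs_of engOK r_1486_1).append (runs_of engOK r_1486_2))) (by decide +kernel) h.2 h.2

def F_1487 : FrX :=
  ⟨0x1001040012008080000e0084080041000810100004200802400140010102000002e000202020200240004800400048800004000c0182000005c100040130,
    0xa3, 1, 0x2130758496a3, 6,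
    [(0xa3, 1), (0x207584a6, 4), (0x10547693, 4), (0x647593a8, 4), (0x10547693, 4), (0x216485a7, 4), (0x208693a4, 4), (0x647593a8, 4), (0x208693a4, 4), (0x106574a8, 4), (0x647593a8, 4), (0x216485a7, 4)],
    [(0x2130758496a3, 6), (0x317584a9, 4), (0x32608795, 4), (0x607598a4, 4), (0x32608795, 4), (0x217498a5, 4), (0x316094a8, 4), (0x607598a4, 4), (0x316094a8, 4), (0x328597a4, 4), (0x607598a4, 4), (0x217498a5, 4)]⟩

def c_1487 : frmChk tB tB F_1487 = true := by decide +kernel

def r_1487_0 : chkL rootF engF2 tB tB sB_272 sB_272 4 F_1487 [(511, 0, 0)]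
    0x49a03c0f03c0f = true := by
  decide +kernel

theorem f_1487 (h : TabsF) : FrameF repsF 272 F_1487.f :=
  frame_of rfl c_1487 (runs_of engOK r_1487_0) (by decide +kernel) h.2 h.2

def F_1488 : FrX :=
  ⟨0x1001040012008080000e0084080041000810100004200802400140010102000002e000202020200240004800400048800004000c0242000005c1000400d0,
    0xa3, 1, 0x2130758496a3, 6,
    [(0xa3, 1), (0x207584a6, 4), (0x10547693, 4), (0x647593a8, 4), (0x10547693, 4), (0x216485a7, 4), (0x208693a4, 4), (0x647593a8, 4), (0x208693a4, 4), (0x106574a8, 4), (0x647593a8, 4), (0x216485a7, 4)],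
    [(0x2130758496a3, 6), (0x317584a9, 4), (0x32608795, 4), (0x607598a4, 4), (0x32608795, 4), (0x217498a5, 4), (0x316094a8, 4), (0x607598a4, 4), (0x316094a8, 4), (0x328597a4, 4), (0x607598a4, 4), (0x217498a5, 4)]⟩

def c_1488 : frmChk tB tB F_1488 = true := by decide +kernel

def r_1488_0 : chkL rootF engF2 tB tB sB_272 sB_272 4 F_1488 [(511, 0, 0)]
    0x40f = true := by
  decide +kernel

theorem f_1488 (h : TabsF) : FrameF repsF 272 F_1488.f :=
  frame_of rfl c_1488 (runs_of engOK r_1488_0) (by decide +kernel) h.2 h.2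

def F_1489 : FrX :=
  ⟨0x1001040012008080000e0084080041000810100004200802400140010102000009a00008202020024000480040004880000400260082000010e100010046,
    0xa3, 1, 0x3263768697a3, 6,
    [(0xa3, 1), (0x207584a6, 4), (0x10547693, 4), (0x647593a8, 4), (0x10547693, 4), (0x216485a7, 4), (0x208693a4, 4), (0x647593a8, 4), (0x208693a4, 4), (0x106574a8, 4), (0x647593a8, 4), (0x216485a7, 4)],
    [(0x3263768697a3, 6), (0x307495a8, 4), (0x10546298, 4), (0x628495a7, 4), (0x10546298, 4), (0x317584a9, 4), (0x306287a4, 4), (0x628495a7, 4), (0x306287a4, 4), (0x108594a7, 4), (0x628495a7, 4), (0x317584a9, 4)]⟩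

def c_1489 : frmChk tB tB F_1489 = true := by decide +kernel

def r_1489_0 : chkL rootF engF2 tB tB sB_272 sB_272 4 F_1489 [(255, 0, 0), (256, 0, 18)]
    0x1 = true := by
  decide +kernel

def r_1489_1 : chkL rootF engF2 tB tB sB_272 sB_272 4 F_1489 [(256, 18, 0)]
    0x40f = true := by
  decide +kernel

theorem f_1489 (h : TabsF) : FrameF repsF 272 F_1489.f :=
  frame_of rfl c_1489 ((runs_of engOK r_1489_0).append (runs_of engOK r_1489_1)) (by decide +kernel) h.2 h.2

def F_1490 : FrX :=
  ⟨0x1c4044000008081000000840080410000101084042102000001081000102000040a0206000011000018101204118024010020100c104008004807000000,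
    0x0, 0, 0x657384, 3,
    [(0x0, 0), (0x20637584, 4), (0x105476a9, 4), (0x647583a9, 4), (0x105476a9, 4), (0x21647385, 4), (0x204386a9, 4), (0x647583a9, 4), (0x204386a9, 4), (0x10657483, 4), (0x647583a9, 4), (0x21647385, 4)],
    [(0x657384, 3), (0x20637584, 4), (0x105386a9, 4), (0x637485a9, 4), (0x105386a9, 4), (0x21647385, 4), (0x205487a9, 4), (0x637485a9, 4), (0x205487a9, 4), (0x10657483, 4), (0x637485a9, 4), (0x21647385, 4)]⟩

def c_1490 : frmChk tB tB F_1490 = true := by decide +kernel

def r_1490_0 : chkL rootF engF2 tB tB sB_272 sB_272 4 F_1490 [(511, 0, 0)]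
    0x145b1483b14c5303c0f1490f14c4916c520ec5314c0f03c5243c531245b1483b14c5303c0f1490f14c4a6219a6283a629164598a8a98a649886698a0e98a4591662a2a629926219a6283a629164598a8a98a6445b1483b14c5303c0f1490f14c4916c520ec5314c0f03c5243c531245b1483b14c5303c0f1490f14c4a6219a6283a629164598a8a98a649886698a0e98a4591662a2a629926219a6283a629164598a8a98a6445b1483b14c5303c0f1490f14c4916c520ec5314c0f03c5243c531245b1483b14c5303c0f1490f14c4a6219a6283a629164598a8a98a649886698a0e98a4591662a2a629926219a6283a629164598a8a98a64 = true := by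
  decide +kernel

theorem f_1490 (h : TabsF) : FrameF repsF 272 F_1490.f :=
  frame_of rfl c_1490 (runs_of engOK r_1490_0) (by decide +kernel) h.2 h.2

def F_1491 : FrX :=
  ⟨0x1001040012008080000e0084080041000810100004200810010802200200008044020206000011004006181004100020210080080c004408100006002001,
    0xa3, 1, 0x2040637091a4, 6,
    [(0xa3, 1), (0x207584a6, 4), (0x10547693, 4), (0x647593a8, 4), (0x10547693, 4), (0x216485a7, 4), (0x208693a4, 4), (0x647593a8, 4), (0x208693a4, 4), (0x106574a8, 4), (0x647593a8, 4), (0x216485a7, 4)],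
    [(0x2040637091a4, 6), (0x546370a8, 4), (0x214397a5, 4), (0x215486a3, 4), (0x214397a5, 4), (0x648590a3, 4), (0x217083a6, 4), (0x215486a3, 4), (0x217083a6, 4), (0x538697a4, 4), (0x215486a3, 4), (0x648590a3, 4)]⟩

def c_1491 : frmChk tB tB F_1491 = true := by decide +kernel

def r_1491_0 : chkL rootF engF2 tB tB sB_272 sB_272 4 F_1491 [(255, 0, 0), (256, 0, 18)]
    0x1 = true := by
  decide +kernel

def r_1491_1 : chkL rootF engF2 tB tB sB_272 sB_272 4 F_1491 [(256, 18, 0)]
    0x1 = true := by
  decide +kernel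

theorem f_1491 (h : TabsF) : FrameF repsF 272 F_1491.f :=
  frame_of rfl c_1491 ((runs_of engOK r_1491_0).append (runs_of engOK r_1491_1)) (by decide +kernel) h.2 h.2

def F_1492 : FrX :=
  ⟨0x1c4044000008081000000840080410000101084042102000001081000102000040a0206000010c000701012041000240100201010104008000807000003,
    0x0, 0, 0x657384, 3,
    [(0x0, 0), (0x20637584, 4), (0x105476a9, 4), (0x647583a9, 4), (0x105476a9, 4), (0x21647385, 4), (0x204386a9, 4), (0x647583a9, 4), (0x204386a9, 4), (0x10657483, 4), (0x647583a9, 4), (0x21647385, 4)],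
    [(0x657384, 3), (0x20637584, 4), (0x105386a9, 4), (0x637485a9, 4), (0x105386a9, 4), (0x21647385, 4), (0x205487a9, 4), (0x637485a9, 4), (0x205487a9, 4), (0x10657483, 4), (0x637485a9, 4), (0x21647385, 4)]⟩

def c_1492 : frmChk tB tB F_1492 = true := by decide +kernel

def r_1492_0 : chkL rootF engF2 tB tB sB_272 sB_272 4 F_1492 [(255, 0, 0), (256, 0, 23)]
    0x1c488dc19431587215952294741946c09d3258463588c338465390690d466c488dc19431587215952294741946c09d3258463588c338465390690d466c488dc19431587215952294741946c09d3258463588c338465390690d466a148b1947490e259866244d9222d071956484e458c86a98b12d07429166230e6222c8bc1b4288e4398664a148b1947490e259866244d9222d071956484e458c86a98b12d07429166230e6222c8bc1b4288e4398664a148b1947490e259866244d9222d071956484e458c86a98b12d07429166230e6222c8bc1b4288e4398664c488dc19431587215952294741946c09d3258463588c338465390690d466c488dc19431587215952294741946c09d3258463588c338465390690d466c488dc19431587215952294741946c09d3258463588c338465390690d466 = true := by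
  decide +kernel

def r_1492_1 : chkL rootF engF2 tB tB sB_272 sB_272 4 F_1492 [(256, 23, 0)]
    0x1a148b1947490e259866244d9222d071956484e458c86a98b12d07429166230e6222c8bc1b4288e4398664a148b1947490e259866244d9222d071956484e458c86a98b12d07429166230e6222c8bc1b4288e4398664a148b1947490e259866244d9222d071956484e458c86a98b12d07429166230e6222c8bc1b4288e4398664c488dc19431587215952294741946c09d3258463588c338465390690d466c488dc19431587215952294741946c09d3258463588c338465390690d466c488dc19431587215952294741946c09d3258463588c338465390690d466a148b1947490e259866244d9222d071956484e458c86a98b12d07429166230e6222c8bc1b4288e4398664a148b1947490e259866244d9222d071956484e458c86a98b12d07429166230e6222c8bc1b4288e4398664a148b1947490e259866244d9222d071956484e458c86a98b12d07429166230e6222c8bc1b4288e4398664 = true := by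
  decide +kernel

theorem f_1492 (h : TabsF) : FrameF repsF 272 F_1492.f :=
  frame_of rfl c_1492 ((runs_of engOK r_1492_0).append (runs_of engOK r_1492_1)) (by decide +kernel) h.2 h.2

def F_1493 : FrX :=
  ⟨0x1001040012008080000e0084080041000810100004203810000802200200000044020206000011004000181003100020210080080c00440810080800a001,
    0xa3, 1, 0x217384a3, 4,
    [(0xa3, 1), (0x207584a6, 4), (0x10547693, 4), (0x647593a8, 4), (0x10547693, 4), (0x216485a7, 4), (0x208693a4, 4), (0x647593a8, 4), (0x208693a4, 4), (0x106574a8, 4), (0x647593a8, 4), (0x216485a7, 4)],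
    [(0x217384a3, 4), (0x105384a6, 4), (0x20638597, 4), (0x538697a4, 4), (0x20638597, 4), (0x215486a3, 4), (0x106497a8, 4), (0x538697a4, 4), (0x106497a8, 4), (0x206583a4, 4), (0x538697a4, 4), (0x215486a3, 4)]⟩

def c_1493 : frmChk tB tB F_1493 = true := by decide +kernel

def r_1493_0 : chkL rootF engF2 tB tB sB_272 sB_272 4 F_1493 [(511, 0, 0)]
    0x105c17 = true := by
  decide +kernel

theorem f_1493 (h : TabsF) : FrameF repsF 272 F_1493.f :=
  frame_of rfl c_1493 (runs_of engOK r_1493_0) (by decide +kernel) h.2 h.2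

def F_1494 : FrX :=
  ⟨0x1001040012008080000e0084080041000810100004203810000802200200000044020206000010c040001810041000202100800810004408100806002003,
    0xa3, 1, 0x217384a3, 4,
    [(0xa3, 1), (0x207584a6, 4), (0x10547693, 4), (0x647593a8, 4), (0x10547693, 4), (0x216485a7, 4), (0x208693a4, 4), (0x647593a8, 4), (0x208693a4, 4), (0x106574a8, 4), (0x647593a8, 4), (0x216485a7, 4)],
    [(0x217384a3, 4), (0x105384a6, 4), (0x20638597, 4), (0x538697a4, 4), (0x20638597, 4), (0x215486a3, 4), (0x106497a8, 4), (0x538697a4, 4), (0x106497a8, 4), (0x206583a4, 4), (0x538697a4, 4), (0x215486a3, 4)]⟩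

def c_1494 : frmChk tB tB F_1494 = true := by decide +kernel

def r_1494_0 : chkL rootF engF2 tB tB sB_272 sB_272 4 F_1494 [(511, 0, 0)]
    0x1 = true := by
  decide +kernel

theorem f_1494 (h : TabsF) : FrameF repsF 272 F_1494.f :=
  frame_of rfl c_1494 (runs_of engOK r_1494_0) (by decide +kernel) h.2 h.2

def F_1495 : FrX :=
  ⟨0x1001040012008080000e008408004100081010000420201000480220020000204402020600004040400c780000040020210080081800440810000000a021,
    0xa3, 1, 0x1041718590a4, 6,
    [(0xa3, 1), (0x207584a6, 4), (0x10547693, 4), (0x647593a8, 4), (0x10547693, 4), (0x216485a7, 4), (0x208693a4, 4), (0x647593a8, 4), (0x208693a4, 4), (0x106574a8, 4), (0x647593a8, 4), (0x216485a7, 4)],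
    [(0x1041718590a4, 6), (0x638492a5, 4), (0x106497a8, 4), (0x105384a6, 4), (0x106497a8, 4), (0x437285a6, 4), (0x106592a3, 4), (0x105384a6, 4), (0x106592a3, 4), (0x538697a4, 4), (0x105384a6, 4), (0x437285a6, 4)]⟩

def c_1495 : frmChk tB tB F_1495 = true := by decide +kernel

def r_1495_0 : chkL rootF engF2 tB tB sB_272 sB_272 4 F_1495 [(511, 0, 0)]
    0x43612d1306d94 = true := by
  decide +kernel

theorem f_1495 (h : TabsF) : FrameF repsF 272 F_1495.f :=
  frame_of rfl c_1495 (runs_of engOK r_1495_0) (by decide +kernel) h.2 h.2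

def F_1496 : FrX :=
  ⟨0x1001040012008080000e0084080041000810100004203810000802200200000044020206000011004000180c04100020210080080c004408100808002021,
    0xa3, 1, 0x217384a3, 4,
    [(0xa3, 1), (0x207584a6, 4), (0x10547693, 4), (0x647593a8, 4), (0x10547693, 4), (0x216485a7, 4), (0x208693a4, 4), (0x647593a8, 4), (0x208693a4, 4), (0x106574a8, 4), (0x647593a8, 4), (0x216485a7, 4)],
    [(0x217384a3, 4), (0x105384a6, 4), (0x20638597, 4), (0x538697a4, 4), (0x20638597, 4), (0x215486a3, 4), (0x106497a8, 4), (0x538697a4, 4), (0x106497a8, 4), (0x206583a4, 4), (0x538697a4, 4), (0x215486a3, 4)]⟩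

def c_1496 : frmChk tB tB F_1496 = true := by decide +kernel

def r_1496_0 : chkL rootF engF2 tB tB sB_272 sB_272 4 F_1496 [(511, 0, 0)]
    0x1 = true := by
  decide +kernel

theorem f_1496 (h : TabsF) : FrameF repsF 272 F_1496.f :=
  frame_of rfl c_1496 (runs_of engOK r_1496_0) (by decide +kernel) h.2 h.2

def F_1497 : FrX :=
  ⟨0x1001040012008080000e0084080041000810100004200802400140010102000003200024202020024000480040004880000400380042000005c100030030,
    0xa3, 1, 0x3254618398a6, 6,
    [(0xa3, 1), (0x207584a6, 4), (0x10547693, 4), (0x647593a8, 4), (0x10547693, 4), (0x216485a7, 4), (0x208693a4, 4), (0x647593a8, 4), (0x208693a4, 4), (0x106574a8, 4), (0x647593a8, 4), (0x216485a7, 4)],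
    [(0x3254618398a6, 6), (0x307495a8, 4), (0x215460a7, 4), (0x217498a5, 4), (0x215460a7, 4), (0x638794a5, 4), (0x213085a9, 4), (0x217498a5, 4), (0x213085a9, 4), (0x607598a4, 4), (0x217498a5, 4), (0x638794a5, 4)]⟩

def c_1497 : frmChk tB tB F_1497 = true := by decide +kernel

def r_1497_0 : chkL rootF engF2 tB tB sB_272 sB_272 4 F_1497 [(255, 0, 0), (256, 0, 18)]
    0x103c17 = true := by
  decide +kernel

def r_1497_1 : chkL rootF engF2 tB tB sB_272 sB_272 4 F_1497 [(256, 18, 0)]
    0x1 = true := by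
  decide +kernel

theorem f_1497 (h : TabsF) : FrameF repsF 272 F_1497.f :=
  frame_of rfl c_1497 ((runs_of engOK r_1497_0).append (runs_of engOK r_1497_1)) (by decide +kernel) h.2 h.2

theorem cl_272 (h : TabsF) : ∀ f ∈ fr_272, FrameF repsF 272 f :=
  List.forall_mem_cons.2 ⟨f_1482 h, List.forall_mem_cons.2 ⟨f_1483 h, List.forall_mem_cons.2 ⟨f_1484 h, List.forall_mem_cons.2 ⟨f_1485 h, List.forall_mem_cons.2 ⟨f_1486 h, List.forall_mem_cons.2 ⟨f_1487 h, List.forall_mem_cons.2 ⟨f_1488 h, List.forall_mem_cons.2 ⟨f_1489 h, List.forall_mem_cons.2 ⟨f_1490 h, List.forall_mem_cons.2 ⟨f_1491 h, List.forall_mem_cons.2 ⟨f_1492 h, List.forall_mem_cons.2 ⟨f_1493 h, List.forall_mem_cons.2 ⟨f_1494 h, List.forall_mem_cons.2 ⟨f_1495 h, List.forall_mem_cons.2 ⟨f_1496 h, List.forall_mem_cons.2 ⟨f_1497 h,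
    fun _ h0 => absurd h0 List.not_mem_nil⟩⟩⟩⟩⟩⟩⟩⟩⟩⟩⟩⟩⟩⟩⟩⟩

def F_1498 : FrX :=
  ⟨0x2002000900044004000e0204100014100080004080400048008102400080a002200002220013080024020180001000408084000840600202002004014200,
    0xa3, 1, 0x31405162768492a3, 8,
    [(0xa3, 1), (0x208693a5, 4), (0x10548793, 4), (0x217693a4, 4), (0x208693a5, 4), (0x10548793, 4)],
    [(0x31405162768492a3, 8), (0x617094a3, 4), (0x20546183, 4), (0x617295a8, 4), (0x617094a3, 4), (0x20546183, 4)]⟩

def c_1498 : frmChk tA tA F_1498 = true := by decide +kernel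

def r_1498_0 : chkL rootF engF2 tA tA sA_273 sA_273 4 F_1498 [(255, 0, 0), (256, 0, 18)]
    0x4170740f03d981381d = true := by
  decide +kernel

def r_1498_1 : chkL rootF engF2 tA tA sA_273 sA_273 4 F_1498 [(256, 18, 0)]
    0x10cd325914307946531460d81b0d5380b463 = true := by
  decide +kernel

theorem f_1498 (h : TabsF) : FrameF repsF 273 F_1498.f :=
  frame_of rfl c_1498 ((runs_of engOK r_1498_0).append (runs_of engOK r_1498_1)) (by decide +kernel) h.1 h.1

def F_1499 : FrX :=
  ⟨0x2002000900044004000e02041000141000800040800981000080a04000200401000103020004020003100112010000140080090006090008080901010080,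
    0xa3, 1, 0x10415072a2, 5,
    [(0xa3, 1), (0x208693a5, 4), (0x10548793, 4), (0x217693a4, 4), (0x208693a5, 4), (0x10548793, 4)],
    [(0x10415072a2, 5), (0x216380a5, 4), (0x10546297, 4), (0x21608397, 4), (0x10546297, 4), (0x326081a4, 4), (0x308697a5, 4), (0x21608397, 4), (0x308697a5, 4), (0x20546183, 4), (0x21608397, 4), (0x326081a4, 4)]⟩

def c_1499 : frmChk tA tB F_1499 = true := by decide +kernel

def r_1499_0 : chkL rootF engF2 tA tB sA_273 sB_273 4 F_1499 [(511, 0, 0)]
    0x11c42b0e817437050ac59264a3164b282c0f = true := by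
  decide +kernel

theorem f_1499 (h : TabsF) : FrameF repsF 273 F_1499.f :=
  frame_of rfl c_1499 (runs_of engOK r_1499_0) (by decide +kernel) h.1 h.2

def F_1500 : FrX :=
  ⟨0x482000044040440000c204002000900018204000040a02080408020008008800402202000404004700003040000010801801200048280000a100100050,
    0xa0, 1, 0x2041647081a2, 6,
    [(0xa0, 1), (0x538690a2, 4), (0x548790a1, 4), (0x21437690, 4), (0x538690a2, 4), (0x548790a1, 4)],
    [(0x2041647081a2, 6), (0x415390a7, 4), (0x42658790, 4), (0x216390a8, 4), (0x415390a7, 4), (0x42658790, 4)]⟩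

def c_1500 : frmChk tA tA F_1500 = true := by decide +kernel

def r_1500_0 : chkL rootF engF2 tA tA sA_273 sA_273 4 F_1500 [(511, 0, 0)]
    0x103c3903c5303c398e28a3509a36027 = true := by
  decide +kernel

theorem f_1500 (h : TabsF) : FrameF repsF 273 F_1500.f :=
  frame_of rfl c_1500 (runs_of engOK r_1500_0) (by decide +kernel) h.1 h.1

def F_1501 : FrX :=
  ⟨0x80080a000804040e000021010020010000020408a000080140040042088008000412400009380102002800000112000a012002000440101100200440200,
    0xa6, 1, 0x4250748791a3, 6,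
    [(0xa6, 1), (0x205396a8, 4), (0x10548796, 4), (0x214396a7, 4), (0x205396a8, 4), (0x10548796, 4)],
    [(0x4250748791a3, 6), (0x315462a0, 4), (0x31708295, 4), (0x318694a7, 4), (0x315462a0, 4), (0x31708295, 4)]⟩

def c_1501 : frmChk tA tA F_1501 = true := by decide +kernel

def r_1501_0 : chkL rootF engF2 tA tA sA_273 sA_273 4 F_1501 [(511, 0, 0)]
    0x47205c171b225 = true := by
  decide +kernel

theorem f_1501 (h : TabsF) : FrameF repsF 273 F_1501.f :=
  frame_of rfl c_1501 (runs_of engOK r_1501_0) (by decide +kernel) h.1 h.1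

def F_1502 : FrX :=
  ⟨0x80080a000804040e000021010020010000020408a0001001100400809020200404880000024040147010000010110101000112004005008000824400010,
    0xa6, 1, 0x3040718698a0, 6,
    [(0xa6, 1), (0x205396a8, 4), (0x10548796, 4), (0x214396a7, 4), (0x205396a8, 4), (0x10548796, 4)],
    [(0x3040718698a0, 6), (0x506498a2, 4), (0x536491a7, 4), (0x30647281, 4), (0x506498a2, 4), (0x536491a7, 4)]⟩

def c_1502 : frmChk tA tA F_1502 = true := by decide +kernel

def r_1502_0 : chkL rootF engF2 tA tA sA_273 sA_273 4 F_1502 [(511, 0, 0)]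
    0x113433c183c06cd43c00f0b82e32899a241706c3614c3528d86691b003c35 = true := by
  decide +kernel

theorem f_1502 (h : TabsF) : FrameF repsF 273 F_1502.f :=
  frame_of rfl c_1502 (runs_of engOK r_1502_0) (by decide +kernel) h.1 h.1

def F_1503 : FrX :=
  ⟨0x482000044040440000c2040020009000182040001081020001200020084041010200420001040020038084003000408040208080448400004000820440,
    0xa0, 1, 0x21324051647690a6, 8,
    [(0xa0, 1), (0x538690a2, 4), (0x548790a1, 4), (0x21437690, 4), (0x538690a2, 4), (0x548790a1, 4)],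
    [(0x21324051647690a6, 8), (0x217493a8, 4), (0x62748095, 4), (0x536174a0, 4), (0x217493a8, 4), (0x62748095, 4)]⟩

def c_1503 : frmChk tA tA F_1503 = true := by decide +kernel

def r_1503_0 : chkL rootF engF2 tA tA sA_273 sA_273 4 F_1503 [(511, 0, 0)]
    0x1164470741d05c1d0781b2548d = true := by
  decide +kernel

theorem f_1503 (h : TabsF) : FrameF repsF 273 F_1503.f :=
  frame_of rfl c_1503 (runs_of engOK r_1503_0) (by decide +kernel) h.1 h.1

def F_1504 : FrX :=
  ⟨0x482000044040440000c2040020009000182040008020408008101010010110008200410400085000024020501001002004008a20100220110002800001,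
    0xa0, 1, 0x103050628292a0, 7,
    [(0xa0, 1), (0x538690a2, 4), (0x548790a1, 4), (0x21437690, 4), (0x538690a2, 4), (0x548790a1, 4)],
    [(0x103050628292a0, 7), (0x216473a9, 4), (0x437285a0, 4), (0x42617385, 4), (0x437285a0, 4), (0x42637190, 4), (0x416285a9, 4), (0x42617385, 4), (0x416285a9, 4), (0x326174a0, 4), (0x42617385, 4), (0x42637190, 4)]⟩

def c_1504 : frmChk tA tB F_1504 = true := by decide +kernel

def r_1504_0 : chkL rootF engF2 tA tB sA_273 sB_273 4 F_1504 [(255, 0, 0), (256, 0, 18)]
    0x10e8960b46512c4b22c2788c721c82d = true := by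
  decide +kernel

def r_1504_1 : chkL rootF engF2 tA tB sA_273 sB_273 4 F_1504 [(256, 18, 0)]
    0x417b814a48f21 = true := by
  decide +kernel

theorem f_1504 (h : TabsF) : FrameF repsF 273 F_1504.f :=
  frame_of rfl c_1504 ((runs_of engOK r_1504_0).append (runs_of engOK r_1504_1)) (by decide +kernel) h.1 h.2

def F_1505 : FrX :=
  ⟨0x482000044040440000c204002000900018204000108048000420000401004402040420110100012000040080222000800008a082010224001122000082,
    0xa0, 1, 0x40657593a1, 5,
    [(0xa0, 1), (0x538690a2, 4), (0x548790a1, 4), (0x21437690, 4), (0x538690a2, 4), (0x548790a1, 4)],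
    [(0x40657593a1, 5), (0x42768095, 4), (0x316570a4, 4), (0x31507698, 4), (0x316570a4, 4), (0x508796a2, 4), (0x31428590, 4), (0x31507698, 4), (0x31428590, 4), (0x607598a4, 4), (0x31507698, 4), (0x508796a2, 4)]⟩

def c_1505 : frmChk tA tB F_1505 = true := by decide +kernel

def r_1505_0 : chkL rootF engF2 tA tB sA_273 sB_273 4 F_1505 [(511, 0, 0)]
    0x40f03c2e = true := by
  decide +kernel

theorem f_1505 (h : TabsF) : FrameF repsF 273 F_1505.f :=
  frame_of rfl c_1505 (runs_of engOK r_1505_0) (by decide +kernel) h.1 h.2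

def F_1506 : FrX :=
  ⟨0x80080a000804040e0000210100200100000204089002000140800800881000400440301000003100002800082800100202401008400020c102080820041,
    0xa6, 1, 0x10304252768491a5, 8,
    [(0xa6, 1), (0x205396a8, 4), (0x10548796, 4), (0x214396a7, 4), (0x205396a8, 4), (0x10548796, 4)],
    [(0x10304252768491a5, 8), (0x405372a1, 4), (0x406293a8, 4), (0x40768195, 4), (0x405372a1, 4), (0x406293a8, 4)]⟩

def c_1506 : frmChk tA tA F_1506 = true := by decide +kernel

def r_1506_0 : chkL rootF engF2 tA tA sA_273 sA_273 4 F_1506 [(511, 0, 0)]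
    0x128c330741d07433 = true := by
  decide +kernel

theorem f_1506 (h : TabsF) : FrameF repsF 273 F_1506.f :=
  frame_of rfl c_1506 (runs_of engOK r_1506_0) (by decide +kernel) h.1 h.1

def F_1507 : FrX :=
  ⟨0x1c21020000040440000020410001010000820408a0001100000400110202100008214000024041010040010088408800204001041080001044110880402,
    0x0, 0, 0x206483, 3,
    [(0x0, 0), (0x205386a9, 4), (0x105487a9, 4), (0x214376a9, 4), (0x205386a9, 4), (0x105487a9, 4)],
    [(0x206483, 3), (0x204385a9, 4), (0x216573a9, 4), (0x107486a9, 4), (0x204385a9, 4), (0x216573a9, 4)]⟩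

def c_1507 : frmChk tA tA F_1507 = true := by decide +kernel

def r_1507_0 : chkL rootF engF2 tA tA sA_273 sA_273 4 F_1507 [(255, 0, 0), (256, 0, 5)]
    0x41b0741d = true := by
  decide +kernel

def r_1507_1 : chkL rootF engF2 tA tA sA_273 sA_273 4 F_1507 [(256, 5, 17)]
    0x41b43a158d294 = true := by
  decide +kernel

def r_1507_2 : chkL rootF engF2 tA tA sA_273 sA_273 4 F_1507 [(256, 22, 6)]
    0x10783a = true := by
  decide +kernel

def r_1507_3 : chkL rootF engF2 tA tA sA_273 sA_273 4 F_1507 [(256, 28, 5)]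
    0x40f1581b = true := by
  decide +kernel

def r_1507_4 : chkL rootF engF2 tA tA sA_273 sA_273 4 F_1507 [(256, 33, 5)]
    0x41e = true := by
  decide +kernel

def r_1507_5 : chkL rootF engF2 tA tA sA_273 sA_273 4 F_1507 [(256, 38, 0)]
    0x1 = true := by
  decide +kernel

theorem f_1507 (h : TabsF) : FrameF repsF 273 F_1507.f :=
  frame_of rfl c_1507 ((runs_of engOK r_1507_0).append ((runs_of engOK r_1507_1).append ((runs_of engOK r_1507_2).append ((runs_of engOK r_1507_3).append ((runs_of engOK r_1507_4).append (runs_of engOK r_1507_5)))))) (by decide +kernel) h.1 h.1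

def F_1508 : FrX :=
  ⟨0x80080a000804040e0000210100200100000204088220000405008010000408202092000140000802080080088021000100004a0500009242000c020000a,
    0xa6, 1, 0x21324054617497a3, 8,
    [(0xa6, 1), (0x205396a8, 4), (0x10548796, 4), (0x214396a7, 4), (0x205396a8, 4), (0x10548796, 4)],
    [(0x21324054617497a3, 8), (0x435182a0, 4), (0x51647098, 4), (0x516392a7, 4), (0x435182a0, 4), (0x51647098, 4)]⟩

def c_1508 : frmChk tA tA F_1508 = true := by decide +kernel

def r_1508_0 : chkL rootF engF2 tA tA sA_273 sA_273 4 F_1508 [(511, 0, 0)]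
    0x40f0782e0780f1540f03c0f88c72 = true := by
  decide +kernel

theorem f_1508 (h : TabsF) : FrameF repsF 273 F_1508.f :=
  frame_of rfl c_1508 (runs_of engOK r_1508_0) (by decide +kernel) h.1 h.1

def F_1509 : FrX :=
  ⟨0x1c210200000404400000204100010100008204089008008000080240080008400440411000003040002014082801000208009008404000c102080600041,
    0x0, 0, 0x216475, 3,
    [(0x0, 0), (0x205386a9, 4), (0x105487a9, 4), (0x214376a9, 4), (0x205386a9, 4), (0x105487a9, 4)],
    [(0x216475, 3), (0x107384a9, 4), (0x207685a9, 4), (0x215463a9, 4), (0x107384a9, 4), (0x207685a9, 4)]⟩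

def c_1509 : frmChk tA tA F_1509 = true := by decide +kernel

def r_1509_0 : chkL rootF engF2 tA tA sA_273 sA_273 4 F_1509 [(255, 0, 0), (256, 0, 4)]
    0x111c17 = true := by
  decide +kernel

def r_1509_1 : chkL rootF engF2 tA tA sA_273 sA_273 4 F_1509 [(256, 4, 4)]
    0x44711c3311c4706c1b0743a0741e07417 = true := by
  decide +kernel

def r_1509_2 : chkL rootF engF2 tA tA sA_273 sA_273 4 F_1509 [(256, 8, 6)]
    0x111c3311c1b = true := by
  decide +kernel

def r_1509_3 : chkL rootF engF2 tA tA sA_273 sA_273 4 F_1509 [(256, 14, 10)]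
    0x1a1685e101e07aa106e0dc881b = true := by
  decide +kernel

def r_1509_4 : chkL rootF engF2 tA tA sA_273 sA_273 4 F_1509 [(256, 24, 13)]
    0x41b06c4d = true := by
  decide +kernel

def r_1509_5 : chkL rootF engF2 tA tA sA_273 sA_273 4 F_1509 [(256, 37, 0)]
    0x1 = true := by
  decide +kernel

theorem f_1509 (h : TabsF) : FrameF repsF 273 F_1509.f :=
  frame_of rfl c_1509 ((runs_of engOK r_1509_0).append ((runs_of engOK r_1509_1).append ((runs_of engOK r_1509_2).append ((runs_of engOK r_1509_3).append ((runs_of engOK r_1509_4).append (runs_of engOK r_1509_5)))))) (by decide +kernel) h.1 h.1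

def F_1510 : FrX :=
  ⟨0x80080a000804040e00002101002001000002040880481000104400400220000008884420004040010050000088400800201101041008401044042800402,
    0xa6, 1, 0x314252758798a3, 7,
    [(0xa6, 1), (0x205396a8, 4), (0x10548796, 4), (0x214396a7, 4), (0x205396a8, 4), (0x10548796, 4)],
    [(0x314252758798a3, 7), (0x508792a6, 4), (0x30417286, 4), (0x416287a9, 4), (0x30417286, 4), (0x536297a8, 4), (0x415096a2, 4), (0x416287a9, 4), (0x415096a2, 4), (0x307682a9, 4), (0x416287a9, 4), (0x536297a8, 4)]⟩

def c_1510 : frmChk tA tB F_1510 = true := by decide +kernel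

def r_1510_0 : chkL rootF engF2 tA tB sA_273 sB_273 4 F_1510 [(255, 0, 0), (256, 0, 22)]
    0x103c1b0782d = true := by
  decide +kernel

def r_1510_1 : chkL rootF engF2 tA tB sA_273 sB_273 4 F_1510 [(256, 22, 0)]
    0x40f0ac0f03c2b14d07c0c1d0b4334ca310741d07453 = true := by
  decide +kernel

theorem f_1510 (h : TabsF) : FrameF repsF 273 F_1510.f :=
  frame_of rfl c_1510 ((runs_of engOK r_1510_0).append (runs_of engOK r_1510_1)) (by decide +kernel) h.1 h.2

def F_1511 : FrX :=
  ⟨0x1001040012008080000e00840800410008101000040500008120010040002022808202002100200100204200910800410014000405201200440000011010,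
    0xa3, 1, 0x324254618492a5, 7,
    [(0xa3, 1), (0x207584a6, 4), (0x10547693, 4), (0x647593a8, 4), (0x10547693, 4), (0x216485a7, 4), (0x208693a4, 4), (0x647593a8, 4), (0x208693a4, 4), (0x106574a8, 4), (0x647593a8, 4), (0x216485a7, 4)],
    [(0x324254618492a5, 7), (0x435190a2, 4), (0x436075a8, 4), (0x43718296, 4), (0x435190a2, 4), (0x436075a8, 4)]⟩

def c_1511 : frmChk tB tA F_1511 = true := by decide +kernel

def r_1511_0 : chkL rootF engF2 tB tA sB_273 sA_273 4 F_1511 [(255, 0, 0), (256, 0, 20)]
    0x417 = true := by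
  decide +kernel

def r_1511_1 : chkL rootF engF2 tB tA sB_273 sA_273 4 F_1511 [(256, 20, 0)]
    0x51c05c8b = true := by
  decide +kernel

theorem f_1511 (h : TabsF) : FrameF repsF 273 F_1511.f :=
  frame_of rfl c_1511 ((runs_of engOK r_1511_0).append (runs_of engOK r_1511_1)) (by decide +kernel) h.2 h.1

def F_1512 : FrX :=
  ⟨0x1001040012008080000e0084080041000810100004080804801010010020201000809020110020a00028040450001000401080a010800440408008800008,
    0xa3, 1, 0x102031507397a0, 7,
    [(0xa3, 1), (0x207584a6, 4), (0x10547693, 4), (0x647593a8, 4), (0x10547693, 4), (0x216485a7, 4), (0x208693a4, 4), (0x647593a8, 4), (0x208693a4, 4), (0x106574a8, 4), (0x647593a8, 4), (0x216485a7, 4)],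
    [(0x102031507397a0, 7), (0x507286a1, 4), (0x425098a3, 4), (0x31507496, 4), (0x507286a1, 4), (0x425098a3, 4)]⟩

def c_1512 : frmChk tB tA F_1512 = true := by decide +kernel

def r_1512_0 : chkL rootF engF2 tB tA sB_273 sA_273 4 F_1512 [(511, 0, 0)]
    0x103c0f06da419435 = true := by
  decide +kernel

theorem f_1512 (h : TabsF) : FrameF repsF 273 F_1512.f :=
  frame_of rfl c_1512 (runs_of engOK r_1512_0) (by decide +kernel) h.2 h.1

def F_1513 : FrX :=
  ⟨0x1001040012008080000e008408004100081010000409000080a001002000088244420000232000010020101110040041004000010a200800501000821800,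
    0xa3, 1, 0x203051748496a5, 7,
    [(0xa3, 1), (0x207584a6, 4), (0x10547693, 4), (0x647593a8, 4), (0x10547693, 4), (0x216485a7, 4), (0x208693a4, 4), (0x647593a8, 4), (0x208693a4, 4), (0x106574a8, 4), (0x647593a8, 4), (0x216485a7, 4)],
    [(0x203051748496a5, 7), (0x306197a2, 4), (0x536174a8, 4), (0x50618294, 4), (0x306197a2, 4), (0x536174a8, 4)]⟩

def c_1513 : frmChk tB tA F_1513 = true := by decide +kernel

def r_1513_0 : chkL rootF engF2 tB tA sB_273 sA_273 4 F_1513 [(255, 0, 0), (256, 0, 20)]
    0x43a0783a0ac0f = true := by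
  decide +kernel

def r_1513_1 : chkL rootF engF2 tB tA sB_273 sA_273 4 F_1513 [(256, 20, 0)]
    0x40f03c4e = true := by
  decide +kernel

theorem f_1513 (h : TabsF) : FrameF repsF 273 F_1513.f :=
  frame_of rfl c_1513 ((runs_of engOK r_1513_0).append (runs_of engOK r_1513_1)) (by decide +kernel) h.2 h.1

def F_1514 : FrX :=
  ⟨0x1001040012008080000e00840800410008101000060000021800208004280044020005000080288808084406000020022000204400010404008104040048,
    0xa3, 1, 0x203142758493a2, 7,
    [(0xa3, 1), (0x207584a6, 4), (0x10547693, 4), (0x647593a8, 4), (0x10547693, 4), (0x216485a7, 4), (0x208693a4, 4), (0x647593a8, 4), (0x208693a4, 4), (0x106574a8, 4), (0x647593a8, 4), (0x216485a7, 4)],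
    [(0x203142758493a2, 7), (0x416097a2, 4), (0x32415087, 4), (0x416598a3, 4), (0x416097a2, 4), (0x32415087, 4)]⟩

def c_1514 : frmChk tB tA F_1514 = true := by decide +kernel

def r_1514_0 : chkL rootF engF2 tB tA sB_273 sA_273 4 F_1514 [(511, 0, 0)]
    0x10e82d0e41703c591648d = true := by
  decide +kernel

theorem f_1514 (h : TabsF) : FrameF repsF 273 F_1514.f :=
  frame_of rfl c_1514 (runs_of engOK r_1514_0) (by decide +kernel) h.2 h.1

def F_1515 : FrX :=
  ⟨0x1001040012008080000e0084080041000810100006000002180020800418008404000810004018082003000a401020022000308200004001110003000104,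
    0xa3, 1, 0x418692a3, 4,
    [(0xa3, 1), (0x207584a6, 4), (0x10547693, 4), (0x647593a8, 4), (0x10547693, 4), (0x216485a7, 4), (0x208693a4, 4), (0x647593a8, 4), (0x208693a4, 4), (0x106574a8, 4), (0x647593a8, 4), (0x216485a7, 4)],
    [(0x418692a3, 4), (0x617590a8, 4), (0x32405187, 4), (0x327581a6, 4), (0x32405187, 4), (0x658194a7, 4), (0x328690a1, 4), (0x327581a6, 4), (0x328690a1, 4), (0x407185a6, 4), (0x327581a6, 4), (0x658194a7, 4)]⟩

def c_1515 : frmChk tB tB F_1515 = true := by decide +kernel

def r_1515_0 : chkL rootF engF2 tB tB sB_273 sB_273 4 F_1515 [(255, 0, 0), (256, 0, 22)]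
    0x105c4b12c4e16878948780d41d05c1703c17 = true := by
  decide +kernel

def r_1515_1 : chkL rootF engF2 tB tB sB_273 sB_273 4 F_1515 [(256, 22, 0)]
    0x1470590cc171541e = true := by
  decide +kernel

theorem f_1515 (h : TabsF) : FrameF repsF 273 F_1515.f :=
  frame_of rfl c_1515 ((runs_of engOK r_1515_0).append (runs_of engOK r_1515_1)) (by decide +kernel) h.2 h.2

def F_1516 : FrX :=
  ⟨0x482000044040440000c204002000900018204000208044000090081001041000808041008000440002042050901000201000a008100320040006800001,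
    0xa0, 1, 0x20324162738090a6, 8,
    [(0xa0, 1), (0x538690a2, 4), (0x548790a1, 4), (0x21437690, 4), (0x538690a2, 4), (0x548790a1, 4)],
    [(0x20324162738090a6, 8), (0x758396a2, 4), (0x20518394, 4), (0x647183a0, 4), (0x758396a2, 4), (0x20518394, 4)]⟩

def c_1516 : frmChk tA tA F_1516 = true := by decide +kernel

def r_1516_0 : chkL rootF engF2 tA tA sA_273 sA_273 4 F_1516 [(511, 0, 0)]
    0x1708b14544b5448b14c17990170b42d = true := by
  decide +kernel

theorem f_1516 (h : TabsF) : FrameF repsF 273 F_1516.f :=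
  frame_of rfl c_1516 (runs_of engOK r_1516_0) (by decide +kernel) h.1 h.1

def F_1517 : FrX :=
  ⟨0x2002000900044004000e02041000141000800040810000081108002008820301200008001004020214040420810020002201820010008008004220008084,
    0xa3, 1, 0x106297a3, 4,
    [(0xa3, 1), (0x208693a5, 4), (0x10548793, 4), (0x217693a4, 4), (0x208693a5, 4), (0x10548793, 4)],
    [(0x106297a3, 4), (0x617382a5, 4), (0x10547398, 4), (0x607392a4, 4), (0x617382a5, 4), (0x10547398, 4)]⟩

def c_1517 : frmChk tA tA F_1517 = true := by decide +kernel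

def r_1517_0 : chkL rootF engF2 tA tA sA_273 sA_273 4 F_1517 [(511, 0, 0)]
    0x105c172586903c1d0e8720b80f05c5526827 = true := by
  decide +kernel

theorem f_1517 (h : TabsF) : FrameF repsF 273 F_1517.f :=
  frame_of rfl c_1517 (runs_of engOK r_1517_0) (by decide +kernel) h.1 h.1

def F_1518 : FrX :=
  ⟨0x80080a000804040e00002101002001000002040882010204010080100802002001084041024001010048000812202040300001011000e0c000005080000,
    0xa6, 1, 0x30415160708392a5, 8,
    [(0xa6, 1), (0x205396a8, 4), (0x10548796, 4), (0x214396a7, 4), (0x205396a8, 4), (0x10548796, 4)],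
    [(0x30415160708392a5, 8), (0x304297a8, 4), (0x426075a1, 4), (0x42638195, 4), (0x304297a8, 4), (0x426075a1, 4)]⟩

def c_1518 : frmChk tA tA F_1518 = true := by decide +kernel

def r_1518_0 : chkL rootF engF2 tA tA sA_273 sA_273 4 F_1518 [(511, 0, 0)]
    0x130c4705c56 = true := by
  decide +kernel

theorem f_1518 (h : TabsF) : FrameF repsF 273 F_1518.f :=
  frame_of rfl c_1518 (runs_of engOK r_1518_0) (by decide +kernel) h.1 h.1

def F_1519 : FrX :=
  ⟨0x80080a000804040e00002101002001000002040880480800404030008220008000013000c0003041000080108051010000504204000040a100904040000,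
    0xa6, 1, 0x213040628090a3, 7,
    [(0xa6, 1), (0x205396a8, 4), (0x10548796, 4), (0x214396a7, 4), (0x205396a8, 4), (0x10548796, 4)],
    [(0x213040628090a3, 7), (0x437596a1, 4), (0x53718092, 4), (0x317580a4, 4), (0x53718092, 4), (0x315462a7, 4), (0x418096a3, 4), (0x317580a4, 4), (0x418096a3, 4), (0x517392a4, 4), (0x317580a4, 4), (0x315462a7, 4)]⟩

def c_1519 : frmChk tA tB F_1519 = true := by decide +kernel

def r_1519_0 : chkL rootF engF2 tA tB sA_273 sB_273 4 F_1519 [(255, 0, 0), (256, 0, 18)]
    0x41d06c2714c3c5c0538645314c36168360d90d4945a1d170548b20d453 = true := by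
  decide +kernel

def r_1519_1 : chkL rootF engF2 tA tB sA_273 sB_273 4 F_1519 [(256, 18, 0)]
    0x41715455 = true := by
  decide +kernel

theorem f_1519 (h : TabsF) : FrameF repsF 273 F_1519.f :=
  frame_of rfl c_1519 ((runs_of engOK r_1519_0).append (runs_of engOK r_1519_1)) (by decide +kernel) h.1 h.2

def F_1520 : FrX :=
  ⟨0x2002000900044004000e02041000141000800040800801014010200008100982000204004024001010040012000404020280008022020820100084228040,
    0xa3, 1, 0x10324061758395a6, 8,
    [(0xa3, 1), (0x208693a5, 4), (0x10548793, 4), (0x217693a4, 4), (0x208693a5, 4), (0x10548793, 4)],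
    [(0x10324061758395a6, 8), (0x437098a2, 4), (0x52647091, 4), (0x637081a5, 4), (0x437098a2, 4), (0x52647091, 4)]⟩

def c_1520 : frmChk tA tA F_1520 = true := by decide +kernel

def r_1520_0 : chkL rootF engF2 tA tA sA_273 sA_273 4 F_1520 [(511, 0, 0)]
    0x41b06c3605c1b = true := by
  decide +kernel

theorem f_1520 (h : TabsF) : FrameF repsF 273 F_1520.f :=
  frame_of rfl c_1520 (runs_of engOK r_1520_0) (by decide +kernel) h.1 h.1

def F_1521 : FrX :=
  ⟨0x1c2102000004044000002041000101000082040888200008008080004000242020601001100008020800404880201400022010045600600300024400000,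
    0x0, 0, 0x107583, 3,
    [(0x0, 0), (0x205386a9, 4), (0x105487a9, 4), (0x214376a9, 4), (0x205386a9, 4), (0x105487a9, 4)],
    [(0x107583, 3), (0x216387a9, 4), (0x105374a9, 4), (0x206584a9, 4), (0x216387a9, 4), (0x105374a9, 4)]⟩

def c_1521 : frmChk tA tA F_1521 = true := by decide +kernel

def r_1521_0 : chkL rootF engF2 tA tA sA_273 sA_273 4 F_1521 [(255, 0, 0), (256, 0, 11)]
    0x1 = true := by
  decide +kernel

def r_1521_1 : chkL rootF engF2 tA tA sA_273 sA_273 4 F_1521 [(256, 11, 6)]
    0x114c1d = true := by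
  decide +kernel

def r_1521_2 : chkL rootF engF2 tA tA sA_273 sA_273 4 F_1521 [(256, 17, 4)]
    0x1 = true := by
  decide +kernel

def r_1521_3 : chkL rootF engF2 tA tA sA_273 sA_273 4 F_1521 [(256, 21, 6)]
    0x433 = true := by
  decide +kernel

def r_1521_4 : chkL rootF engF2 tA tA sA_273 sA_273 4 F_1521 [(256, 27, 10)]
    0x709c1a23a8b0a2e283 = true := by
  decide +kernel

def r_1521_5 : chkL rootF engF2 tA tA sA_273 sA_273 4 F_1521 [(256, 37, 0)]
    0x1 = true := by
  decide +kernel

theorem f_1521 (h : TabsF) : FrameF repsF 273 F_1521.f :=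
  frame_of rfl c_1521 ((runs_of engOK r_1521_0).append ((runs_of engOK r_1521_1).append ((runs_of engOK r_1521_2).append ((runs_of engOK r_1521_3).append ((runs_of engOK r_1521_4).append (runs_of engOK r_1521_5)))))) (by decide +kernel) h.1 h.1

def F_1522 : FrX :=
  ⟨0x2002000900044004000e0204100014100080004081000001810200240a000a00220200001008008820800404800001240100800004c02220202024001010,
    0xa3, 1, 0x415363728697a6, 7,
    [(0xa3, 1), (0x208693a5, 4), (0x10548793, 4), (0x217693a4, 4), (0x208693a5, 4), (0x10548793, 4)],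
    [(0x415363728697a6, 7), (0x517093a6, 4), (0x314082a9, 4), (0x658293a1, 4), (0x314082a9, 4), (0x537496a1, 4), (0x617082a5, 4), (0x658293a1, 4), (0x617082a5, 4), (0x406591a3, 4), (0x658293a1, 4), (0x537496a1, 4)]⟩

def c_1522 : frmChk tA tB F_1522 = true := by decide +kernel

def r_1522_0 : chkL rootF engF2 tA tB sA_273 sB_273 4 F_1522 [(255, 0, 0), (256, 0, 13)]
    0x4c5a141705c0f3844e0b40f = true := by
  decide +kernel

def r_1522_1 : chkL rootF engF2 tA tB sA_273 sB_273 4 F_1522 [(256, 13, 15)]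
    0x10d43303d2543463 = true := by
  decide +kernel

def r_1522_2 : chkL rootF engF2 tA tB sA_273 sB_273 4 F_1522 [(256, 28, 0)]
    0x1 = true := by
  decide +kernel

theorem f_1522 (h : TabsF) : FrameF repsF 273 F_1522.f :=
  frame_of rfl c_1522 ((runs_of engOK r_1522_0).append ((runs_of engOK r_1522_1).append (runs_of engOK r_1522_2))) (by decide +kernel) h.1 h.2

def F_1523 : FrX :=
  ⟨0x482000044040440000c204002000900018204001001010080800091004004422001001000004823080080808100800021400a000200100106020008404,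
    0xa0, 1, 0x3264718796a7, 6,
    [(0xa0, 1), (0x538690a2, 4), (0x548790a1, 4), (0x21437690, 4), (0x538690a2, 4), (0x548790a1, 4)],
    [(0x3264718796a7, 6), (0x30528491, 4), (0x657084a1, 4), (0x627384a9, 4), (0x30528491, 4), (0x657084a1, 4)]⟩

def c_1523 : frmChk tA tA F_1523 = true := by decide +kernel

def r_1523_0 : chkL rootF engF2 tA tA sA_273 sA_273 4 F_1523 [(511, 0, 0)]
    0x142c2b4a40f05c5530c1e = true := by
  decide +kernel

theorem f_1523 (h : TabsF) : FrameF repsF 273 F_1523.f :=
  frame_of rfl c_1523 (runs_of engOK r_1523_0) (by decide +kernel) h.1 h.1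

def F_1524 : FrX :=
  ⟨0x80080a000804040e00002101002001000002040881080800484030000220008000013000c0009041000080108041010000504204100040a100904040000,
    0xa6, 1, 0x20536081a6, 5,
    [(0xa6, 1), (0x205396a8, 4), (0x10548796, 4), (0x214396a7, 4), (0x205396a8, 4), (0x10548796, 4)],
    [(0x20536081a6, 5), (0x416073a5, 4), (0x438692a7, 4), (0x517392a4, 4), (0x438692a7, 4), (0x317580a4, 4), (0x546092a1, 4), (0x517392a4, 4), (0x546092a1, 4), (0x517486a3, 4), (0x517392a4, 4), (0x317580a4, 4)]⟩

def c_1524 : frmChk tA tB F_1524 = true := by decide +kernel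

def r_1524_0 : chkL rootF engF2 tA tB sA_273 sB_273 4 F_1524 [(255, 0, 0), (256, 0, 13)]
    0x10b86316855170271343511c5c09c4d0d417 = true := by
  decide +kernel

def r_1524_1 : chkL rootF engF2 tA tB sA_273 sB_273 4 F_1524 [(256, 13, 15)]
    0x44d11c4d1684d = true := by
  decide +kernel

def r_1524_2 : chkL rootF engF2 tA tB sA_273 sB_273 4 F_1524 [(256, 28, 0)]
    0x13906c31455 = true := by
  decide +kernel

theorem f_1524 (h : TabsF) : FrameF repsF 273 F_1524.f :=
  frame_of rfl c_1524 ((runs_of engOK r_1524_0).append ((runs_of engOK r_1524_1).append (runs_of engOK r_1524_2))) (by decide +kernel) h.1 h.2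

def F_1525 : FrX :=
  ⟨0x2002000900044004000e02041000141000800040800400484002202000810801000044110100010404020100820002021020091084200000404040211020,
    0xa3, 1, 0x30718095a7, 5,
    [(0xa3, 1), (0x208693a5, 4), (0x10548793, 4), (0x217693a4, 4), (0x208693a5, 4), (0x10548793, 4)],
    [(0x30718095a7, 5), (0x436082a9, 4), (0x518794a6, 4), (0x305164a9, 4), (0x518794a6, 4), (0x647293a0, 4), (0x40516382, 4), (0x305164a9, 4), (0x40516382, 4), (0x308796a4, 4), (0x305164a9, 4), (0x647293a0, 4)]⟩

def c_1525 : frmChk tA tB F_1525 = true := by decide +kernel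

def r_1525_0 : chkL rootF engF2 tA tB sA_273 sB_273 4 F_1525 [(255, 0, 0), (256, 0, 19)]
    0x10d5160ac1703c33 = true := by
  decide +kernel

def r_1525_1 : chkL rootF engF2 tA tB sA_273 sB_273 4 F_1525 [(256, 19, 0)]
    0x11942e = true := by
  decide +kernel

theorem f_1525 (h : TabsF) : FrameF repsF 273 F_1525.f :=
  frame_of rfl c_1525 ((runs_of engOK r_1525_0).append (runs_of engOK r_1525_1)) (by decide +kernel) h.1 h.2

theorem cl_273 (h : TabsF) : ∀ f ∈ fr_273, FrameF repsF 273 f :=
  List.forall_mem_cons.2 ⟨f_1498 h, List.forall_mem_cons.2 ⟨f_1499 h, List.forall_mem_cons.2 ⟨f_1500 h, List.forall_mem_cons.2 ⟨f_1501 h, List.forall_mem_cons.2 ⟨f_1502 h, List.forall_mem_cons.2 ⟨f_1503 h, List.forall_mem_cons.2 ⟨f_1504 h, List.forall_mem_cons.2 ⟨f_1505 h, List.forall_mem_cons.2 ⟨f_1506 h, List.forall_mem_cons.2 ⟨f_1507 h, List.forall_mem_cons.2 ⟨f_1508 h, List.forall_mem_cons.2 ⟨f_1509 h, List.forall_mem_cons.2 ⟨f_1510 h, List.forall_mem_cons.2 ⟨f_1511 h, List.forall_mem_cons.2 ⟨f_1512 h, List.forall_mem_cons.2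 ⟨f_1513 h, List.forall_mem_cons.2 ⟨f_1514 h, List.forall_mem_cons.2 ⟨f_1515 h, List.forall_mem_cons.2 ⟨f_1516 h, List.forall_mem_cons.2 ⟨f_1517 h, List.forall_mem_cons.2 ⟨f_1518 h, List.forall_mem_cons.2 ⟨f_1519 h, List.forall_mem_cons.2 ⟨f_1520 h, List.forall_mem_cons.2 ⟨f_1521 h, List.forall_mem_cons.2 ⟨f_1522 h, List.forall_mem_cons.2 ⟨f_1523 h, List.forall_mem_cons.2 ⟨f_1524 h, List.forall_mem_cons.2 ⟨f_1525 h,
    fun _ h0 => absurd h0 List.not_mem_nil⟩⟩⟩⟩⟩⟩⟩⟩⟩⟩⟩⟩⟩⟩⟩⟩⟩⟩⟩⟩⟩⟩⟩⟩⟩⟩⟩⟩

/-- the classes finished in this module -/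
theorem all_L14 (h : TabsF) : ∀ p ∈ ([(264, fr_264), (265, fr_265), (266, fr_266), (267, fr_267), (268, fr_268), (269, fr_269), (270, fr_270), (271, fr_271), (272, fr_272), (273, fr_273)] : List (ℕ × List ℕ)),
    ∀ f ∈ p.2, FrameF repsF p.1 f :=
  List.forall_mem_cons.2 ⟨cl_264 h, List.forall_mem_cons.2 ⟨cl_265 h, List.forall_mem_cons.2 ⟨cl_266 h, List.forall_mem_cons.2 ⟨cl_267 h, List.forall_mem_cons.2 ⟨cl_268 h, List.forall_mem_cons.2 ⟨cl_269 h, List.forall_mem_cons.2 ⟨cl_270 h, List.forall_mem_cons.2 ⟨cl_271 h, List.forall_mem_cons.2 ⟨cl_272 h, List.forall_mem_cons.2 ⟨cl_273 h, fun _ h0 => absurd h0 List.not_mem_nil⟩⟩⟩⟩⟩⟩⟩⟩⟩⟩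

end Pool.Agent.Gen.TY.F
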