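import Pool.Agent.Helper20.TY.EngF
import Pool.Agent.Helper20.TY.TabG
import Pool.Agent.Gen.TY.FS.SufA
import Pool.Agent.Gen.TY.FS.SufB
import Pool.Agent.Gen.TY.FR.Dat

/-!
MP_8ee768_co, project TH-Y', stage F: frames.
-/

set_option autoImplicit false

namespace Pool.Agent.Gen.TY.F

open Pool.Agent.Helper79.CV
open Pool.Agent.Helper20.TY
open Pool.Agent.Helper20.TY.EngF
open Pool.Agent.Gen.TY.FS
open Pool.Agent.Gen.TY.FR

def F_1526 : FrX :=
  ⟨0x80080a000804040e00002101002001000002040888080440204020400410008000404060140008008090000108400440248008022002820002002220080,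
    0xa6, 1, 0x1020435281a2, 6,
    [(0xa6, 1), (0x205396a8, 4), (0x10548796, 4), (0x214396a7, 4), (0x205396a8, 4), (0x10548796, 4)],
    [(0x1020435281a2, 6), (0x416095a2, 4), (0x31708295, 4), (0x437695a8, 4), (0x416095a2, 4), (0x31708295, 4)]⟩

def c_1526 : frmChk tA tA F_1526 = true := by decide +kernel

def r_1526_0 : chkL rootF engF2 tA tA sA_274 sA_274 4 F_1526 [(511, 0, 0)]
    0x11a6a203c6c17017074c35154c51943960b21549c = true := by
  decide +kernel

theorem f_1526 (h : TabsF) : FrameF repsF 274 F_1526.f :=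
  frame_of rfl c_1526 (runs_of engOK r_1526_0) (by decide +kernel) h.1 h.1

def F_1527 : FrX :=
  ⟨0x2002000900044004000e0204100014100080004080400028010120410080a0020000041009028802804004000204104001000800108800020408100c4200,
    0xa3, 1, 0x204161748090a6, 7,
    [(0xa3, 1), (0x208693a5, 4), (0x10548793, 4), (0x217693a4, 4), (0x208693a5, 4), (0x10548793, 4)],
    [(0x204161748090a6, 7), (0x517290a3, 4), (0x758496a1, 4), (0x325184a7, 4), (0x758496a1, 4), (0x315260a7, 4), (0x738490a2, 4), (0x325184a7, 4), (0x738490a2, 4), (0x327196a5, 4), (0x325184a7, 4), (0x315260a7, 4)]⟩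

def c_1527 : frmChk tA tB F_1527 = true := by decide +kernel

def r_1527_0 : chkL rootF engF2 tA tB sA_274 sB_274 4 F_1527 [(511, 0, 0)]
    0x14382e06c170b81d0781e05c470b835 = true := by
  decide +kernel

theorem f_1527 (h : TabsF) : FrameF repsF 274 F_1527.f :=
  frame_of rfl c_1527 (runs_of engOK r_1527_0) (by decide +kernel) h.1 h.2

def F_1528 : FrX :=
  ⟨0x80080a000804040e00002101002001000002040890010004208010808820001010100400a82800480008000020620002000042030042001100a00820200,
    0xa6, 1, 0x3251647098a6, 6,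
    [(0xa6, 1), (0x205396a8, 4), (0x10548796, 4), (0x214396a7, 4), (0x205396a8, 4), (0x10548796, 4)],
    [(0x3251647098a6, 6), (0x217384a9, 4), (0x61758490, 4), (0x536284a0, 4), (0x217384a9, 4), (0x61758490, 4)]⟩

def c_1528 : frmChk tA tA F_1528 = true := by decide +kernel

def r_1528_0 : chkL rootF engF2 tA tA sA_274 sA_274 4 F_1528 [(511, 0, 0)]
    0x106c1b09c720b8171644711ce4 = true := by
  decide +kernel

theorem f_1528 (h : TabsF) : FrameF repsF 274 F_1528.f :=
  frame_of rfl c_1528 (runs_of engOK r_1528_0) (by decide +kernel) h.1 h.1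

def F_1529 : FrX :=
  ⟨0x2002000900044004000e02041000141000800040801210081000a02000024001040001110100004002100830820010002100082030041008000e00080050,
    0xa3, 1, 0x104152617286a2, 7,
    [(0xa3, 1), (0x208693a5, 4), (0x10548793, 4), (0x217693a4, 4), (0x208693a5, 4), (0x10548793, 4)],
    [(0x104152617286a2, 7), (0x328497a1, 4), (0x20546197, 4), (0x308597a6, 4), (0x328497a1, 4), (0x20546197, 4)]⟩

def c_1529 : frmChk tA tA F_1529 = true := by decide +kernel

def r_1529_0 : chkL rootF engF2 tA tA sA_274 sA_274 4 F_1529 [(511, 0, 0)]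
    0x58c43b844382e05c0f03c4703d0b = true := by
  decide +kernel

theorem f_1529 (h : TabsF) : FrameF repsF 274 F_1529.f :=
  frame_of rfl c_1529 (runs_of engOK r_1529_0) (by decide +kernel) h.1 h.1

def F_1530 : FrX :=
  ⟨0x482000044040440000c2040020009000182040001101002001020800000c10010210100c00025000084004508008440004008222040120001010800002,
    0xa0, 1, 0x2051607093a6, 6,
    [(0xa0, 1), (0x538690a2, 4), (0x548790a1, 4), (0x21437690, 4), (0x538690a2, 4), (0x548790a1, 4)],
    [(0x2051607093a6, 6), (0x327091a8, 4), (0x32417586, 4), (0x325094a6, 4), (0x327091a8, 4), (0x32417586, 4)]⟩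

def c_1530 : frmChk tA tA F_1530 = true := by decide +kernel

def r_1530_0 : chkL rootF engF2 tA tA sA_274 sA_274 4 F_1530 [(511, 0, 0)]
    0x46a2343603c0f03c8e0769812c1b0741d = true := by
  decide +kernel

theorem f_1530 (h : TabsF) : FrameF repsF 274 F_1530.f :=
  frame_of rfl c_1530 (runs_of engOK r_1530_0) (by decide +kernel) h.1 h.1

def F_1531 : FrX :=
  ⟨0x482000044040440000c2040020009000182040004010880004020010020802800810108102008108040201002220000204006040300203100004010002,
    0xa0, 1, 0x204160758497a8, 7,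
    [(0xa0, 1), (0x538690a2, 4), (0x548790a1, 4), (0x21437690, 4), (0x538690a2, 4), (0x548790a1, 4)],
    [(0x204160758497a8, 7), (0x516073a2, 4), (0x516487a9, 4), (0x40518392, 4), (0x516073a2, 4), (0x516487a9, 4)]⟩

def c_1531 : frmChk tA tA F_1531 = true := by decide +kernel

def r_1531_0 : chkL rootF engF2 tA tA sA_274 sA_274 4 F_1531 [(511, 0, 0)]
    0x10f00f38ae0c44350da910783a389c2384e2386e01641d = true := by
  decide +kernel

theorem f_1531 (h : TabsF) : FrameF repsF 274 F_1531.f :=
  frame_of rfl c_1531 (runs_of engOK r_1531_0) (by decide +kernel) h.1 h.1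

def F_1532 : FrX :=
  ⟨0x482000044040440000c2040020009000182040002008242001200008080408010012000882000242100800400208440010010006082002000900110090,
    0xa0, 1, 0x53627185a0, 5,
    [(0xa0, 1), (0x538690a2, 4), (0x548790a1, 4), (0x21437690, 4), (0x538690a2, 4), (0x548790a1, 4)],
    [(0x53627185a0, 5), (0x435281a6, 4), (0x218490a7, 4), (0x42538190, 4), (0x218490a7, 4), (0x42517683, 4), (0x325490a6, 4), (0x42538190, 4), (0x325490a6, 4), (0x415382a7, 4), (0x42538190, 4), (0x42517683, 4)]⟩

def c_1532 : frmChk tA tB F_1532 = true := by decide +kernel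

def r_1532_0 : chkL rootF engF2 tA tB sA_274 sB_274 4 F_1532 [(511, 0, 0)]
    0x122c270e8392b053138ac = true := by
  decide +kernel

theorem f_1532 (h : TabsF) : FrameF repsF 274 F_1532.f :=
  frame_of rfl c_1532 (runs_of engOK r_1532_0) (by decide +kernel) h.1 h.2

def F_1533 : FrX :=
  ⟨0x2002000900044004000e0204100014100080004080080104102000140000c081200100104081001010040006001000108100202040441020001015440200,
    0xa3, 1, 0x315261708298a7, 7,
    [(0xa3, 1), (0x208693a5, 4), (0x10548793, 4), (0x217693a4, 4), (0x208693a5, 4), (0x10548793, 4)],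
    [(0x315261708298a7, 7), (0x318794a2, 4), (0x425076a3, 4), (0x435091a2, 4), (0x425076a3, 4), (0x438692a1, 4), (0x41508793, 4), (0x435091a2, 4), (0x41508793, 4), (0x327691a4, 4), (0x435091a2, 4), (0x438692a1, 4)]⟩

def c_1533 : frmChk tA tB F_1533 = true := by decide +kernel

def r_1533_0 : chkL rootF engF2 tA tB sA_274 sB_274 4 F_1533 [(255, 0, 0), (256, 0, 24)]
    0x41b06c1b0f01b06d0e1c84d = true := by
  decide +kernel

def r_1533_1 : chkL rootF engF2 tA tB sA_274 sB_274 4 F_1533 [(256, 24, 0)]
    0x40f06c0f0740f03c0f = true := by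
  decide +kernel

theorem f_1533 (h : TabsF) : FrameF repsF 274 F_1533.f :=
  frame_of rfl c_1533 ((runs_of engOK r_1533_0).append (runs_of engOK r_1533_1)) (by decide +kernel) h.1 h.2

def F_1534 : FrX :=
  ⟨0x1c21020000040440000020410001010000820408900800800010014008000440048022008020802083808090004104000402040404800083000a0200080,
    0x0, 0, 0x53637487, 4,
    [(0x0, 0), (0x205386a9, 4), (0x105487a9, 4), (0x214376a9, 4), (0x205386a9, 4), (0x105487a9, 4)],
    [(0x53637487, 4), (0x205463a9, 4), (0x107384a9, 4), (0x217685a9, 4), (0x205463a9, 4), (0x107384a9, 4)]⟩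

def c_1534 : frmChk tA tA F_1534 = true := by decide +kernel

def r_1534_0 : chkL rootF engF2 tA tA sA_274 sA_274 4 F_1534 [(255, 0, 0), (256, 0, 3)]
    0x4550b81b42c39 = true := by
  decide +kernel

def r_1534_1 : chkL rootF engF2 tA tA sA_274 sA_274 4 F_1534 [(256, 3, 3)]
    0x11a41b03c0f = true := by
  decide +kernel

def r_1534_2 : chkL rootF engF2 tA tA sA_274 sA_274 4 F_1534 [(256, 6, 2)]
    0x42b = true := by
  decide +kernel

def r_1534_3 : chkL rootF engF2 tA tA sA_274 sA_274 4 F_1534 [(256, 8, 1)]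
    0x1 = true := by
  decide +kernel

def r_1534_4 : chkL rootF engF2 tA tA sA_274 sA_274 4 F_1534 [(256, 9, 1)]
    0x1 = true := by
  decide +kernel

def r_1534_5 : chkL rootF engF2 tA tA sA_274 sA_274 4 F_1534 [(256, 10, 1)]
    0x1 = true := by
  decide +kernel

def r_1534_6 : chkL rootF engF2 tA tA sA_274 sA_274 4 F_1534 [(256, 11, 2)]
    0x109c2709c27 = true := by
  decide +kernel

def r_1534_7 : chkL rootF engF2 tA tA sA_274 sA_274 4 F_1534 [(256, 13, 1)]
    0x1 = true := by
  decide +kernel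

def r_1534_8 : chkL rootF engF2 tA tA sA_274 sA_274 4 F_1534 [(256, 14, 1)]
    0x1 = true := by
  decide +kernel

def r_1534_9 : chkL rootF engF2 tA tA sA_274 sA_274 4 F_1534 [(256, 15, 2)]
    0x427 = true := by
  decide +kernel

def r_1534_10 : chkL rootF engF2 tA tA sA_274 sA_274 4 F_1534 [(256, 17, 1)]
    0x1 = true := by
  decide +kernel

def r_1534_11 : chkL rootF engF2 tA tA sA_274 sA_274 4 F_1534 [(256, 18, 1)]
    0x1 = true := by
  decide +kernel

def r_1534_12 : chkL rootF engF2 tA tA sA_274 sA_274 4 F_1534 [(256, 19, 15)]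
    0x1 = true := by
  decide +kernel

def r_1534_13 : chkL rootF engF2 tA tA sA_274 sA_274 4 F_1534 [(256, 34, 0)]
    0x427 = true := by
  decide +kernel

theorem f_1534 (h : TabsF) : FrameF repsF 274 F_1534.f :=
  frame_of rfl c_1534 ((runs_of engOK r_1534_0).append ((runs_of engOK r_1534_1).append ((runs_of engOK r_1534_2).append ((runs_of engOK r_1534_3).append ((runs_of engOK r_1534_4).append ((runs_of engOK r_1534_5).append ((runs_of engOK r_1534_6).append ((runs_of engOK r_1534_7).append ((runs_of engOK r_1534_8).append ((runs_of engOK r_1534_9).append ((runs_of engOK r_1534_10).append ((runs_of engOK r_1534_11).append ((runs_of engOK r_1534_12).append (runs_of engOK r_1534_13)))))))))))))) (by decide +kernel) h.1 h.1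

def F_1535 : FrX :=
  ⟨0x80080a000804040e00002101002001000002040890010008088004020820004004501000802081008388001000402400014004040400108300100440080,
    0xa6, 1, 0x5460718294a8, 6,
    [(0xa6, 1), (0x205396a8, 4), (0x10548796, 4), (0x214396a7, 4), (0x205396a8, 4), (0x10548796, 4)],
    [(0x5460718294a8, 6), (0x435286a0, 4), (0x527694a1, 4), (0x10528793, 4), (0x435286a0, 4), (0x527694a1, 4)]⟩

def c_1535 : frmChk tA tA F_1535 = true := by decide +kernel

def r_1535_0 : chkL rootF engF2 tA tA sA_274 sA_274 4 F_1535 [(511, 0, 0)]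
    0x12a45521c3305c2b0d83622c4d0e41d06c2e0b82e = true := by
  decide +kernel

theorem f_1535 (h : TabsF) : FrameF repsF 274 F_1535.f :=
  frame_of rfl c_1535 (runs_of engOK r_1535_0) (by decide +kernel) h.1 h.1

def F_1536 : FrX :=
  ⟨0x482000044040440000c2040020009000182040000900808008200180000188004820000888000202006220400208100010010040600104088000a00048,
    0xa0, 1, 0x214252627198a5, 7,
    [(0xa0, 1), (0x538690a2, 4), (0x548790a1, 4), (0x21437690, 4), (0x538690a2, 4), (0x548790a1, 4)],
    [(0x214252627198a5, 7), (0x608495a3, 4), (0x708492a1, 4), (0x31527684, 4), (0x608495a3, 4), (0x708492a1, 4)]⟩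

def c_1536 : frmChk tA tA F_1536 = true := by decide +kernel

def r_1536_0 : chkL rootF engF2 tA tA sA_274 sA_274 4 F_1536 [(511, 0, 0)]
    0x105c171344b98a430f00f12c3c3889c1543c3501792a4a = true := by
  decide +kernel

theorem f_1536 (h : TabsF) : FrameF repsF 274 F_1536.f :=
  frame_of rfl c_1536 (runs_of engOK r_1536_0) (by decide +kernel) h.1 h.1

def F_1537 : FrX :=
  ⟨0x2002000900044004000e0204100014100080004080101a08001002020080200200002220090200020c0800090004100020400048804800082020c0212000,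
    0xa3, 1, 0x43547284a2, 5,
    [(0xa3, 1), (0x208693a5, 4), (0x10548793, 4), (0x217693a4, 4), (0x208693a5, 4), (0x10548793, 4)],
    [(0x43547284a2, 5), (0x326485a0, 4), (0x10628397, 4), (0x32548697, 4), (0x10628397, 4), (0x425386a1, 4), (0x658497a0, 4), (0x32548697, 4), (0x658497a0, 4), (0x10546382, 4), (0x32548697, 4), (0x425386a1, 4)]⟩

def c_1537 : frmChk tA tB F_1537 = true := by decide +kernel

def r_1537_0 : chkL rootF engF2 tA tB sA_274 sB_274 4 F_1537 [(511, 0, 0)]
    0x1078a5a14c30e50e530272641e1384e0b41d = true := by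
  decide +kernel

theorem f_1537 (h : TabsF) : FrameF repsF 274 F_1537.f :=
  frame_of rfl c_1537 (runs_of engOK r_1537_0) (by decide +kernel) h.1 h.2

def F_1538 : FrX :=
  ⟨0x1001040012008080000e00840800410008101000040808100820010020080084804100802100102000200208215000410014000401804400508100041000,
    0xa3, 1, 0x30405164708291a7, 8,
    [(0xa3, 1), (0x207584a6, 4), (0x10547693, 4), (0x647593a8, 4), (0x10547693, 4), (0x216485a7, 4), (0x208693a4, 4), (0x647593a8, 4), (0x208693a4, 4), (0x106574a8, 4), (0x647593a8, 4), (0x216485a7, 4)],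
    [(0x30405164708291a7, 8), (0x10325487, 4), (0x546197a2, 4), (0x546098a3, 4), (0x10325487, 4), (0x546197a2, 4)]⟩

def c_1538 : frmChk tB tA F_1538 = true := by decide +kernel

def r_1538_0 : chkL rootF engF2 tB tA sB_274 sA_274 4 F_1538 [(255, 0, 0), (256, 0, 21)]
    0x106c0f06c0f254720da8c = true := by
  decide +kernel

def r_1538_1 : chkL rootF engF2 tB tA sB_274 sA_274 4 F_1538 [(256, 21, 0)]
    0x64a4381b4387146855 = true := by
  decide +kernel

theorem f_1538 (h : TabsF) : FrameF repsF 274 F_1538.f :=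
  frame_of rfl c_1538 ((runs_of engOK r_1538_0).append (runs_of engOK r_1538_1)) (by decide +kernel) h.2 h.1

def F_1539 : FrX :=
  ⟨0x1001040012008080000e008408004100081010000405000080e0010040000882420200001200080100404040501028020000080c04004040401102840008,
    0xa3, 1, 0x4050607580a4, 6,
    [(0xa3, 1), (0x207584a6, 4), (0x10547693, 4), (0x647593a8, 4), (0x10547693, 4), (0x216485a7, 4), (0x208693a4, 4), (0x647593a8, 4), (0x208693a4, 4), (0x106574a8, 4), (0x647593a8, 4), (0x216485a7, 4)],
    [(0x4050607580a4, 6), (0x65738290, 4), (0x648190a7, 4), (0x215490a3, 4), (0x65738290, 4), (0x648190a7, 4)]⟩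

def c_1539 : frmChk tB tA F_1539 = true := by decide +kernel

def r_1539_0 : chkL rootF engF2 tB tA sB_274 sA_274 4 F_1539 [(511, 0, 0)]
    0x10781e03c0f0d8532584d33017 = true := by
  decide +kernel

theorem f_1539 (h : TabsF) : FrameF repsF 274 F_1539.f :=
  frame_of rfl c_1539 (runs_of engOK r_1539_0) (by decide +kernel) h.2 h.1

def F_1540 : FrX :=
  ⟨0x1001040012008080000e008408004100081010000409000080811021001020100102000a0000444000184220500030004000088c00000840408003000018,
    0xa3, 1, 0x4352708691a6, 6,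
    [(0xa3, 1), (0x207584a6, 4), (0x10547693, 4), (0x647593a8, 4), (0x10547693, 4), (0x216485a7, 4), (0x208693a4, 4), (0x647593a8, 4), (0x208693a4, 4), (0x106574a8, 4), (0x647593a8, 4), (0x216485a7, 4)],
    [(0x4352708691a6, 6), (0x206375a4, 4), (0x328197a0, 4), (0x206481a3, 4), (0x328197a0, 4), (0x406295a3, 4), (0x437581a6, 4), (0x206481a3, 4), (0x437581a6, 4), (0x306497a2, 4), (0x206481a3, 4), (0x406295a3, 4)]⟩

def c_1540 : frmChk tB tB F_1540 = true := by decide +kernel

def r_1540_0 : chkL rootF engF2 tB tB sB_274 sB_274 4 F_1540 [(511, 0, 0)]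
    0x10ccd23888e03c1e2381b2b0cc23b210ac2721c2b0ac2b = true := by
  decide +kernel

theorem f_1540 (h : TabsF) : FrameF repsF 274 F_1540.f :=
  frame_of rfl c_1540 (runs_of engOK r_1540_0) (by decide +kernel) h.2 h.2

def F_1541 : FrX :=
  ⟨0x482000044040440000c204002000900018204002000202080040820802402003040000008104018008004020e00210a008050002108000002104000042,
    0xa0, 1, 0x3150627498a0, 6,
    [(0xa0, 1), (0x538690a2, 4), (0x548790a1, 4), (0x21437690, 4), (0x538690a2, 4), (0x548790a1, 4)],
    [(0x3150627498a0, 6), (0x108592a6, 4), (0x708594a3, 4), (0x42637185, 4), (0x108592a6, 4), (0x708594a3, 4)]⟩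

def c_1541 : frmChk tA tA F_1541 = true := by decide +kernel

def r_1541_0 : chkL rootF engF2 tA tA sA_274 sA_274 4 F_1541 [(511, 0, 0)]
    0x103c0f11c470781e1341d = true := by
  decide +kernel

theorem f_1541 (h : TabsF) : FrameF repsF 274 F_1541.f :=
  frame_of rfl c_1541 (runs_of engOK r_1541_0) (by decide +kernel) h.1 h.1

theorem cl_274 (h : TabsF) : ∀ f ∈ fr_274, FrameF repsF 274 f :=
  List.forall_mem_cons.2 ⟨f_1526 h, List.forall_mem_cons.2 ⟨f_1527 h, List.forall_mem_cons.2 ⟨f_1528 h, List.forall_mem_cons.2 ⟨f_1529 h, List.forall_mem_cons.2 ⟨f_1530 h, List.forall_mem_cons.2 ⟨f_1531 h, List.forall_mem_cons.2 ⟨f_1532 h, List.forall_mem_cons.2 ⟨f_1533 h, List.forall_mem_cons.2 ⟨f_1534 h, List.forall_mem_cons.2 ⟨f_1535 h, List.forall_mem_cons.2 ⟨f_1536 h, List.forall_mem_cons.2 ⟨f_1537 h, List.forall_mem_cons.2 ⟨f_1538 h, List.forall_mem_cons.2 ⟨f_1539 h, List.forall_mem_cons.2 ⟨f_1540 h, List.forall_mem_cons.2 ⟨f_1541 h,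
    fun _ h0 => absurd h0 List.not_mem_nil⟩⟩⟩⟩⟩⟩⟩⟩⟩⟩⟩⟩⟩⟩⟩⟩

def F_1542 : FrX :=
  ⟨0x1001040012008080000e00840800410008101000042100004060010060000882808200002200004b00004000504040410010800408200000501000211201,
    0xa3, 1, 0x4252738292a7, 6,
    [(0xa3, 1), (0x207584a6, 4), (0x10547693, 4), (0x647593a8, 4), (0x10547693, 4), (0x216485a7, 4), (0x208693a4, 4), (0x647593a8, 4), (0x208693a4, 4), (0x106574a8, 4), (0x647593a8, 4), (0x216485a7, 4)],
    [(0x4252738292a7, 6), (0x527690a4, 4), (0x104283a6, 4), (0x627583a4, 4), (0x104283a6, 4), (0x546291a7, 4), (0x65728390, 4), (0x627583a4, 4), (0x65728390, 4), (0x106475a2, 4), (0x627583a4, 4), (0x546291a7, 4)]⟩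

def c_1542 : frmChk tB tB F_1542 = true := by decide +kernel

def r_1542_0 : chkL rootF engF2 tB tB sB_275 sB_275 4 F_1542 [(511, 0, 0)]
    0x106cca0b8715194651835 = true := by
  decide +kernel

theorem f_1542 (h : TabsF) : FrameF repsF 275 F_1542.f :=
  frame_of rfl c_1542 (runs_of engOK r_1542_0) (by decide +kernel) h.2 h.2

def F_1543 : FrX :=
  ⟨0x1001040012008080000e00840800410008101000060000021800208004180084040002800100208268010008008060022000a0440001000000a002202081,
    0xa3, 1, 0x2132536490a6, 6,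
    [(0xa3, 1), (0x207584a6, 4), (0x10547693, 4), (0x647593a8, 4), (0x10547693, 4), (0x216485a7, 4), (0x208693a4, 4), (0x647593a8, 4), (0x208693a4, 4), (0x106574a8, 4), (0x647593a8, 4), (0x216485a7, 4)],
    [(0x2132536490a6, 6), (0x718693a5, 4), (0x406192a7, 4), (0x407185a6, 4), (0x406192a7, 4), (0x327581a6, 4), (0x406593a8, 4), (0x407185a6, 4), (0x406593a8, 4), (0x768592a1, 4), (0x407185a6, 4), (0x327581a6, 4)]⟩

def c_1543 : frmChk tB tB F_1543 = true := by decide +kernel

def r_1543_0 : chkL rootF engF2 tB tB sB_275 sB_275 4 F_1543 [(255, 0, 0), (256, 0, 22)]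
    0x1 = true := by
  decide +kernel

def r_1543_1 : chkL rootF engF2 tB tB sB_275 sB_275 4 F_1543 [(256, 22, 0)]
    0x1 = true := by
  decide +kernel

theorem f_1543 (h : TabsF) : FrameF repsF 275 F_1543.f :=
  frame_of rfl c_1543 ((runs_of engOK r_1543_0).append (runs_of engOK r_1543_1)) (by decide +kernel) h.2 h.2

def F_1544 : FrX :=
  ⟨0x1001040012008080000e008408004100081010000600000242002080041800840400088001a0200240050000022060022000004401010005008002222001,
    0xa3, 1, 0x3142657392a4, 6,
    [(0xa3, 1), (0x207584a6, 4), (0x10547693, 4), (0x647593a8, 4), (0x10547693, 4), (0x216485a7, 4), (0x208693a4, 4), (0x647593a8, 4), (0x208693a4, 4), (0x106574a8, 4), (0x647593a8, 4), (0x216485a7, 4)],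
    [(0x3142657392a4, 6), (0x617590a8, 4), (0x304251a6, 4), (0x426187a5, 4), (0x304251a6, 4), (0x718693a5, 4), (0x428590a7, 4), (0x426187a5, 4), (0x428590a7, 4), (0x306587a1, 4), (0x426187a5, 4), (0x718693a5, 4)]⟩

def c_1544 : frmChk tB tB F_1544 = true := by decide +kernel

def r_1544_0 : chkL rootF engF2 tB tB sB_275 sB_275 4 F_1544 [(511, 0, 0)]
    0x105c1d07417 = true := by
  decide +kernel

theorem f_1544 (h : TabsF) : FrameF repsF 275 F_1544.f :=
  frame_of rfl c_1544 (runs_of engOK r_1544_0) (by decide +kernel) h.2 h.2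

def F_1545 : FrX :=
  ⟨0x1001040012008080000e0084080041000810100006000002808020800418008404000a00008022026801002000086002200088440001000000a002202081,
    0xa3, 1, 0x1040546590a3, 6,
    [(0xa3, 1), (0x207584a6, 4), (0x10547693, 4), (0x647593a8, 4), (0x10547693, 4), (0x216485a7, 4), (0x208693a4, 4), (0x647593a8, 4), (0x208693a4, 4), (0x106574a8, 4), (0x647593a8, 4), (0x216485a7, 4)],
    [(0x1040546590a3, 6), (0x768592a1, 4), (0x43657190, 4), (0x435176a8, 4), (0x43657190, 4), (0x205186a7, 4), (0x438192a5, 4), (0x435176a8, 4), (0x438192a5, 4), (0x617590a8, 4), (0x435176a8, 4), (0x205186a7, 4)]⟩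

def c_1545 : frmChk tB tB F_1545 = true := by decide +kernel

def r_1545_0 : chkL rootF engF2 tB tB sB_275 sB_275 4 F_1545 [(511, 0, 0)]
    0x11344d13439 = true := by
  decide +kernel

theorem f_1545 (h : TabsF) : FrameF repsF 275 F_1545.f :=
  frame_of rfl c_1545 (runs_of engOK r_1545_0) (by decide +kernel) h.2 h.2

def F_1546 : FrX :=
  ⟨0x1001040012008080000e0084080041000810100006000002d000208004180084040000100020280240050080020060022000284400010005008002202009,
    0xa3, 1, 0x1021307683a4, 6,
    [(0xa3, 1), (0x207584a6, 4), (0x10547693, 4), (0x647593a8, 4), (0x10547693, 4), (0x216485a7, 4), (0x208693a4, 4), (0x647593a8, 4), (0x208693a4, 4), (0x106574a8, 4), (0x647593a8, 4), (0x216485a7, 4)],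
    [(0x1021307683a4, 6), (0x306587a1, 4), (0x327694a5, 4), (0x658194a7, 4), (0x327694a5, 4), (0x205186a7, 4), (0x307194a8, 4), (0x658194a7, 4), (0x307194a8, 4), (0x327581a6, 4), (0x658194a7, 4), (0x205186a7, 4)]⟩

def c_1546 : frmChk tB tB F_1546 = true := by decide +kernel

def r_1546_0 : chkL rootF engF2 tB tB sB_275 sB_275 4 F_1546 [(511, 0, 0)]
    0x10d836519465186c = true := by
  decide +kernel

theorem f_1546 (h : TabsF) : FrameF repsF 275 F_1546.f :=
  frame_of rfl c_1546 (runs_of engOK r_1546_0) (by decide +kernel) h.2 h.2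

def F_1547 : FrX :=
  ⟨0x1001040012008080000e00840800410008101000042d00004020010000000882808200082200000100204042010440410010800408a00480500000203001,
    0xa3, 1, 0x2030537583a3, 6,
    [(0xa3, 1), (0x207584a6, 4), (0x10547693, 4), (0x647593a8, 4), (0x10547693, 4), (0x216485a7, 4), (0x208693a4, 4), (0x647593a8, 4), (0x208693a4, 4), (0x106574a8, 4), (0x647593a8, 4), (0x216485a7, 4)],
    [(0x2030537583a3, 6), (0x305472a6, 4), (0x31627498, 4), (0x647298a5, 4), (0x31627498, 4), (0x106475a2, 4), (0x306598a4, 4), (0x647298a5, 4), (0x306598a4, 4), (0x314276a5, 4), (0x647298a5, 4), (0x106475a2, 4)]⟩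

def c_1547 : frmChk tB tB F_1547 = true := by decide +kernel

def r_1547_0 : chkL rootF engF2 tB tB sB_275 sB_275 4 F_1547 [(511, 0, 0)]
    0x50d4341d074274341b05c2b = true := by
  decide +kernel

theorem f_1547 (h : TabsF) : FrameF repsF 275 F_1547.f :=
  frame_of rfl c_1547 (runs_of engOK r_1547_0) (by decide +kernel) h.2 h.2

def F_1548 : FrX :=
  ⟨0x600020801080810000c0040180410101001004010040100100001440121002080002043800802000000110121110400040208000400808100c00180140,
    0xa0, 1, 0x205391a0, 4,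
    [(0xa0, 1), (0x637584a2, 4), (0x547690a1, 4), (0x64758390, 4), (0x547690a1, 4), (0x21647385, 4), (0x438690a2, 4), (0x64758390, 4), (0x438690a2, 4), (0x657483a1, 4), (0x64758390, 4), (0x21647385, 4)],
    [(0x205391a0, 4), (0x657384a0, 4), (0x214376a9, 4), (0x21647385, 4), (0x214376a9, 4), (0x64758390, 4), (0x215486a0, 4), (0x21647385, 4), (0x215486a0, 4), (0x637485a9, 4), (0x21647385, 4), (0x64758390, 4)]⟩

def c_1548 : frmChk tB tB F_1548 = true := by decide +kernel

def r_1548_0 : chkL rootF engF2 tB tB sB_275 sB_275 4 F_1548 [(511, 0, 0)]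
    0x109c47 = true := by
  decide +kernel

theorem f_1548 (h : TabsF) : FrameF repsF 275 F_1548.f :=
  frame_of rfl c_1548 (runs_of engOK r_1548_0) (by decide +kernel) h.2 h.2

def F_1549 : FrX :=
  ⟨0x1001040012008080000e0084080041000810100004200810010802200200006044020202000040404008480406040020210080081800440810000200a001,
    0xa3, 1, 0x657390a3, 4,
    [(0xa3, 1), (0x207584a6, 4), (0x10547693, 4), (0x647593a8, 4), (0x10547693, 4), (0x216485a7, 4), (0x208693a4, 4), (0x647593a8, 4), (0x208693a4, 4), (0x106574a8, 4), (0x647593a8, 4), (0x216485a7, 4)],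
    [(0x657390a3, 4), (0x638492a5, 4), (0x53647091, 4), (0x546370a8, 4), (0x53647091, 4), (0x215486a3, 4), (0x708592a4, 4), (0x546370a8, 4), (0x708592a4, 4), (0x436591a8, 4), (0x546370a8, 4), (0x215486a3, 4)]⟩

def c_1549 : frmChk tB tB F_1549 = true := by decide +kernel

def r_1549_0 : chkL rootF engF2 tB tB sB_275 sB_275 4 F_1549 [(511, 0, 0)]
    0x10782d = true := by
  decide +kernel

theorem f_1549 (h : TabsF) : FrameF repsF 275 F_1549.f :=
  frame_of rfl c_1549 (runs_of engOK r_1549_0) (by decide +kernel) h.2 h.2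

def F_1550 : FrX :=
  ⟨0x1001040012008080000e00840800410008101000042008024001400101020000056000102020200240004800400048800004000c0182000005c100020130,
    0xa3, 1, 0x317496a3, 4,
    [(0xa3, 1), (0x207584a6, 4), (0x10547693, 4), (0x647593a8, 4), (0x10547693, 4), (0x216485a7, 4), (0x208693a4, 4), (0x647593a8, 4), (0x208693a4, 4), (0x106574a8, 4), (0x647593a8, 4), (0x216485a7, 4)],
    [(0x317496a3, 4), (0x205487a9, 4), (0x30617594, 4), (0x546197a8, 4), (0x30617594, 4), (0x328597a4, 4), (0x206198a7, 4), (0x546197a8, 4), (0x206198a7, 4), (0x307495a8, 4), (0x546197a8, 4), (0x328597a4, 4)]⟩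

def c_1550 : frmChk tB tB F_1550 = true := by decide +kernel

def r_1550_0 : chkL rootF engF2 tB tB sB_275 sB_275 4 F_1550 [(511, 0, 0)]
    0x106c1b = true := by
  decide +kernel

theorem f_1550 (h : TabsF) : FrameF repsF 275 F_1550.f :=
  frame_of rfl c_1550 (runs_of engOK r_1550_0) (by decide +kernel) h.2 h.2

def F_1551 : FrX :=
  ⟨0x1001040012008080000e0084080041000810100004200802400140010102000002e000202020200240004800400048800004000c024200001311000400c4,
    0xa3, 1, 0x2130758496a3, 6,
    [(0xa3, 1), (0x207584a6, 4), (0x10547693, 4), (0x647593a8, 4), (0x10547693, 4), (0x216485a7, 4), (0x208693a4, 4), (0x647593a8, 4), (0x208693a4, 4), (0x106574a8, 4), (0x647593a8, 4), (0x216485a7, 4)],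
    [(0x2130758496a3, 6), (0x317584a9, 4), (0x32608795, 4), (0x607598a4, 4), (0x32608795, 4), (0x217498a5, 4), (0x316094a8, 4), (0x607598a4, 4), (0x316094a8, 4), (0x328597a4, 4), (0x607598a4, 4), (0x217498a5, 4)]⟩

def c_1551 : frmChk tB tB F_1551 = true := by decide +kernel

def r_1551_0 : chkL rootF engF2 tB tB sB_275 sB_275 4 F_1551 [(511, 0, 0)]
    0x103c360d836 = true := by
  decide +kernel

theorem f_1551 (h : TabsF) : FrameF repsF 275 F_1551.f :=
  frame_of rfl c_1551 (runs_of engOK r_1551_0) (by decide +kernel) h.2 h.2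

def F_1552 : FrX :=
  ⟨0x1001040012008080000e0084080041000810100004200802400140010102000009a000082020200240004800400048800004000b0202000010e100010106,
    0xa3, 1, 0x3263768697a3, 6,
    [(0xa3, 1), (0x207584a6, 4), (0x10547693, 4), (0x647593a8, 4), (0x10547693, 4), (0x216485a7, 4), (0x208693a4, 4), (0x647593a8, 4), (0x208693a4, 4), (0x106574a8, 4), (0x647593a8, 4), (0x216485a7, 4)],
    [(0x3263768697a3, 6), (0x307495a8, 4), (0x10546298, 4), (0x628495a7, 4), (0x10546298, 4), (0x317584a9, 4), (0x306287a4, 4), (0x628495a7, 4), (0x306287a4, 4), (0x108594a7, 4), (0x628495a7, 4), (0x317584a9, 4)]⟩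

def c_1552 : frmChk tB tB F_1552 = true := by decide +kernel

def r_1552_0 : chkL rootF engF2 tB tB sB_275 sB_275 4 F_1552 [(255, 0, 0), (256, 0, 18)]
    0x1 = true := by
  decide +kernel

def r_1552_1 : chkL rootF engF2 tB tB sB_275 sB_275 4 F_1552 [(256, 18, 0)]
    0x40f = true := by
  decide +kernel

theorem f_1552 (h : TabsF) : FrameF repsF 275 F_1552.f :=
  frame_of rfl c_1552 ((runs_of engOK r_1552_0).append (runs_of engOK r_1552_1)) (by decide +kernel) h.2 h.2

def F_1553 : FrX :=
  ⟨0x1c4044000008081000000840080410000101084042102000001081000102000040a02060000208000181012040980240100201014104008004807000000,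
    0x0, 0, 0x657384, 3,
    [(0x0, 0), (0x20637584, 4), (0x105476a9, 4), (0x647583a9, 4), (0x105476a9, 4), (0x21647385, 4), (0x204386a9, 4), (0x647583a9, 4), (0x204386a9, 4), (0x10657483, 4), (0x647583a9, 4), (0x21647385, 4)],
    [(0x657384, 3), (0x20637584, 4), (0x105386a9, 4), (0x637485a9, 4), (0x105386a9, 4), (0x21647385, 4), (0x205487a9, 4), (0x637485a9, 4), (0x205487a9, 4), (0x10657483, 4), (0x637485a9, 4), (0x21647385, 4)]⟩

def c_1553 : frmChk tB tB F_1553 = true := by decide +kernel

def r_1553_0 : chkL rootF engF2 tB tB sB_275 sB_275 4 F_1553 [(511, 0, 0)]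
    0x66281e268948b90e2398a2522e139866498a0789a2522e4388e628948b84e619926281e268948b90e2398a2522e139866481e25988a619a349166291a45a32619920789662298668d24598a469168c9866481e25988a619a349166291a45a32619901798a0789a2522e4388e628948b84e619926281e268948b90e2398a2522e139866498a0789a2522e4388e628948b84e619920789662298668d24598a469168c9866481e25988a619a349166291a45a32619920789662298668d24598a469168c9866498a0789a2522e4388e628948b84e619926281e268948b90e2398a2522e139866498a0789a2522e4388e628948b84e619920789662298668d24598a469168c9866481e25988a619a349166291a45a32619920789662298668d24598a469168c98664 = true := by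
  decide +kernel

theorem f_1553 (h : TabsF) : FrameF repsF 275 F_1553.f :=
  frame_of rfl c_1553 (runs_of engOK r_1553_0) (by decide +kernel) h.2 h.2

def F_1554 : FrX :=
  ⟨0x1001040012008080000e0084080041000810100004200810010802200200008044020206000011004006480401100020210080080c00440810000c002001,
    0xa3, 1, 0x2040637091a4, 6,
    [(0xa3, 1), (0x207584a6, 4), (0x10547693, 4), (0x647593a8, 4), (0x10547693, 4), (0x216485a7, 4), (0x208693a4, 4), (0x647593a8, 4), (0x208693a4, 4), (0x106574a8, 4), (0x647593a8, 4), (0x216485a7, 4)],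
    [(0x2040637091a4, 6), (0x546370a8, 4), (0x214397a5, 4), (0x215486a3, 4), (0x214397a5, 4), (0x648590a3, 4), (0x217083a6, 4), (0x215486a3, 4), (0x217083a6, 4), (0x538697a4, 4), (0x215486a3, 4), (0x648590a3, 4)]⟩

def c_1554 : frmChk tB tB F_1554 = true := by decide +kernel

def r_1554_0 : chkL rootF engF2 tB tB sB_275 sB_275 4 F_1554 [(255, 0, 0), (256, 0, 18)]
    0x41e = true := by
  decide +kernel

def r_1554_1 : chkL rootF engF2 tB tB sB_275 sB_275 4 F_1554 [(256, 18, 0)]
    0x41707835 = true := by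
  decide +kernel

theorem f_1554 (h : TabsF) : FrameF repsF 275 F_1554.f :=
  frame_of rfl c_1554 ((runs_of engOK r_1554_0).append (runs_of engOK r_1554_1)) (by decide +kernel) h.2 h.2

def F_1555 : FrX :=
  ⟨0x1c4044000008081000000840080410000101084042102000001081000102000040a02060000208000421012040b00240100201014104008001807000000,
    0x0, 0, 0x657384, 3,
    [(0x0, 0), (0x20637584, 4), (0x105476a9, 4), (0x647583a9, 4), (0x105476a9, 4), (0x21647385, 4), (0x204386a9, 4), (0x647583a9, 4), (0x204386a9, 4), (0x10657483, 4), (0x647583a9, 4), (0x21647385, 4)],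
    [(0x657384, 3), (0x20637584, 4), (0x105386a9, 4), (0x637485a9, 4), (0x105386a9, 4), (0x21647385, 4), (0x205487a9, 4), (0x637485a9, 4), (0x205487a9, 4), (0x10657483, 4), (0x637485a9, 4), (0x21647385, 4)]⟩

def c_1555 : frmChk tB tB F_1555 = true := by decide +kernel

def r_1555_0 : chkL rootF engF2 tB tB sB_275 sB_275 4 F_1555 [(511, 0, 0)]
    0x158866896626486688e629328588e619916219a259899219a2398a4ca16239866458866896626486688e629328588e6199225896258d2456a066a32a882ea1986648962589634915a819a8caa20ba866199225896258d2456a066a32a882ea19866458866896626486688e629328588e619916219a259899219a2398a4ca16239866458866896626486688e629328588e6199225896258d2456a066a32a882ea1986648962589634915a819a8caa20ba866199225896258d2456a066a32a882ea19866458866896626486688e629328588e619916219a259899219a2398a4ca16239866458866896626486688e629328588e6199225896258d2456a066a32a882ea1986648962589634915a819a8caa20ba866199225896258d2456a066a32a882ea198664 = true := by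
  decide +kernel

theorem f_1555 (h : TabsF) : FrameF repsF 275 F_1555.f :=
  frame_of rfl c_1555 (runs_of engOK r_1555_0) (by decide +kernel) h.2 h.2

def F_1556 : FrX :=
  ⟨0x1001040012008080000e0084080041000810100004200802400140010102000002e000202020200240004800400048800004001201420000131100040144,
    0xa3, 1, 0x1031538795a6, 6,
    [(0xa3, 1), (0x207584a6, 4), (0x10547693, 4), (0x647593a8, 4), (0x10547693, 4), (0x216485a7, 4), (0x208693a4, 4), (0x647593a8, 4), (0x208693a4, 4), (0x106574a8, 4), (0x647593a8, 4), (0x216485a7, 4)],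
    [(0x1031538795a6, 6), (0x217498a5, 4), (0x316094a8, 4), (0x607598a4, 4), (0x316094a8, 4), (0x328597a4, 4), (0x215460a7, 4), (0x607598a4, 4), (0x215460a7, 4), (0x317584a9, 4), (0x607598a4, 4), (0x328597a4, 4)]⟩

def c_1556 : frmChk tB tB F_1556 = true := by decide +kernel

def r_1556_0 : chkL rootF engF2 tB tB sB_275 sB_275 4 F_1556 [(511, 0, 0)]
    0x1 = true := by
  decide +kernel

theorem f_1556 (h : TabsF) : FrameF repsF 275 F_1556.f :=
  frame_of rfl c_1556 (runs_of engOK r_1556_0) (by decide +kernel) h.2 h.2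

def F_1557 : FrX :=
  ⟨0x1001040012008080000e0084080041000810100004200802400140010102000009a000082020200240004800400048800004000b0202000009510001010a,
    0xa3, 1, 0x3263768697a3, 6,
    [(0xa3, 1), (0x207584a6, 4), (0x10547693, 4), (0x647593a8, 4), (0x10547693, 4), (0x216485a7, 4), (0x208693a4, 4), (0x647593a8, 4), (0x208693a4, 4), (0x106574a8, 4), (0x647593a8, 4), (0x216485a7, 4)],
    [(0x3263768697a3, 6), (0x307495a8, 4), (0x10546298, 4), (0x628495a7, 4), (0x10546298, 4), (0x317584a9, 4), (0x306287a4, 4), (0x628495a7, 4), (0x306287a4, 4), (0x108594a7, 4), (0x628495a7, 4), (0x317584a9, 4)]⟩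

def c_1557 : frmChk tB tB F_1557 = true := by decide +kernel

def r_1557_0 : chkL rootF engF2 tB tB sB_275 sB_275 4 F_1557 [(255, 0, 0), (256, 0, 18)]
    0x1 = true := by
  decide +kernel

def r_1557_1 : chkL rootF engF2 tB tB sB_275 sB_275 4 F_1557 [(256, 18, 0)]
    0x516 = true := by
  decide +kernel

theorem f_1557 (h : TabsF) : FrameF repsF 275 F_1557.f :=
  frame_of rfl c_1557 ((runs_of engOK r_1557_0).append (runs_of engOK r_1557_1)) (by decide +kernel) h.2 h.2

def F_1558 : FrX :=
  ⟨0x1001040012008080000e0084080041000810100004200802400140010102000005600010202020024000480040004880000400210302000005c100020070,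
    0xa3, 1, 0x317496a3, 4,
    [(0xa3, 1), (0x207584a6, 4), (0x10547693, 4), (0x647593a8, 4), (0x10547693, 4), (0x216485a7, 4), (0x208693a4, 4), (0x647593a8, 4), (0x208693a4, 4), (0x106574a8, 4), (0x647593a8, 4), (0x216485a7, 4)],
    [(0x317496a3, 4), (0x205487a9, 4), (0x30617594, 4), (0x546197a8, 4), (0x30617594, 4), (0x328597a4, 4), (0x206198a7, 4), (0x546197a8, 4), (0x206198a7, 4), (0x307495a8, 4), (0x546197a8, 4), (0x328597a4, 4)]⟩

def c_1558 : frmChk tB tB F_1558 = true := by decide +kernel

def r_1558_0 : chkL rootF engF2 tB tB sB_275 sB_275 4 F_1558 [(511, 0, 0)]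
    0x1 = true := by
  decide +kernel

theorem f_1558 (h : TabsF) : FrameF repsF 275 F_1558.f :=
  frame_of rfl c_1558 (runs_of engOK r_1558_0) (by decide +kernel) h.2 h.2

def F_1559 : FrX :=
  ⟨0x1001040012008080000e00840800410008101000042020100188022002000020440202020000208040021810040800202100800814004408100806002001,
    0xa3, 1, 0x3243526272a4, 6,
    [(0xa3, 1), (0x207584a6, 4), (0x10547693, 4), (0x647593a8, 4), (0x10547693, 4), (0x216485a7, 4), (0x208693a4, 4), (0x647593a8, 4), (0x208693a4, 4), (0x106574a8, 4), (0x647593a8, 4), (0x216485a7, 4)],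
    [(0x3243526272a4, 6), (0x546370a8, 4), (0x106592a3, 4), (0x638492a5, 4), (0x106592a3, 4), (0x647183a5, 4), (0x708592a4, 4), (0x638492a5, 4), (0x708592a4, 4), (0x105384a6, 4), (0x638492a5, 4), (0x647183a5, 4)]⟩

def c_1559 : frmChk tB tB F_1559 = true := by decide +kernel

def r_1559_0 : chkL rootF engF2 tB tB sB_275 sB_275 4 F_1559 [(511, 0, 0)]
    0x105c1d = true := by
  decide +kernel

theorem f_1559 (h : TabsF) : FrameF repsF 275 F_1559.f :=
  frame_of rfl c_1559 (runs_of engOK r_1559_0) (by decide +kernel) h.2 h.2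

def F_1560 : FrX :=
  ⟨0x1001040012008080000e0084080041000810100004200802400140010102000009a000082020200240004800400048800004000b02020000092900010114,
    0xa3, 1, 0x3263768697a3, 6,
    [(0xa3, 1), (0x207584a6, 4), (0x10547693, 4), (0x647593a8, 4), (0x10547693, 4), (0x216485a7, 4), (0x208693a4, 4), (0x647593a8, 4), (0x208693a4, 4), (0x106574a8, 4), (0x647593a8, 4), (0x216485a7, 4)],
    [(0x3263768697a3, 6), (0x307495a8, 4), (0x10546298, 4), (0x628495a7, 4), (0x10546298, 4), (0x317584a9, 4), (0x306287a4, 4), (0x628495a7, 4), (0x306287a4, 4), (0x108594a7, 4), (0x628495a7, 4), (0x317584a9, 4)]⟩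

def c_1560 : frmChk tB tB F_1560 = true := by decide +kernel

def r_1560_0 : chkL rootF engF2 tB tB sB_275 sB_275 4 F_1560 [(255, 0, 0), (256, 0, 18)]
    0x1 = true := by
  decide +kernel

def r_1560_1 : chkL rootF engF2 tB tB sB_275 sB_275 4 F_1560 [(256, 18, 0)]
    0x40f03cc3 = true := by
  decide +kernel

theorem f_1560 (h : TabsF) : FrameF repsF 275 F_1560.f :=
  frame_of rfl c_1560 ((runs_of engOK r_1560_0).append (runs_of engOK r_1560_1)) (by decide +kernel) h.2 h.2

def F_1561 : FrX :=
  ⟨0x1001040012008080000e0084080041000810100004200802400140010102000002e0002020202002400048004000488000040012028200001311000400a4,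
    0xa3, 1, 0x1031538795a6, 6,
    [(0xa3, 1), (0x207584a6, 4), (0x10547693, 4), (0x647593a8, 4), (0x10547693, 4), (0x216485a7, 4), (0x208693a4, 4), (0x647593a8, 4), (0x208693a4, 4), (0x106574a8, 4), (0x647593a8, 4), (0x216485a7, 4)],
    [(0x1031538795a6, 6), (0x217498a5, 4), (0x316094a8, 4), (0x607598a4, 4), (0x316094a8, 4), (0x328597a4, 4), (0x215460a7, 4), (0x607598a4, 4), (0x215460a7, 4), (0x317584a9, 4), (0x607598a4, 4), (0x328597a4, 4)]⟩

def c_1561 : frmChk tB tB F_1561 = true := by decide +kernel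

def r_1561_0 : chkL rootF engF2 tB tB sB_275 sB_275 4 F_1561 [(511, 0, 0)]
    0x40f = true := by
  decide +kernel

theorem f_1561 (h : TabsF) : FrameF repsF 275 F_1561.f :=
  frame_of rfl c_1561 (runs_of engOK r_1561_0) (by decide +kernel) h.2 h.2

def F_1562 : FrX :=
  ⟨0x1001040012008080000e00840800410008101000042008100108022002000060440202020000404040082814020400202100800818004408100004002021,
    0xa3, 1, 0x657390a3, 4,
    [(0xa3, 1), (0x207584a6, 4), (0x10547693, 4), (0x647593a8, 4), (0x10547693, 4), (0x216485a7, 4), (0x208693a4, 4), (0x647593a8, 4), (0x208693a4, 4), (0x106574a8, 4), (0x647593a8, 4), (0x216485a7, 4)],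
    [(0x657390a3, 4), (0x638492a5, 4), (0x53647091, 4), (0x546370a8, 4), (0x53647091, 4), (0x215486a3, 4), (0x708592a4, 4), (0x546370a8, 4), (0x708592a4, 4), (0x436591a8, 4), (0x546370a8, 4), (0x215486a3, 4)]⟩

def c_1562 : frmChk tB tB F_1562 = true := by decide +kernel

def r_1562_0 : chkL rootF engF2 tB tB sB_275 sB_275 4 F_1562 [(511, 0, 0)]
    0x41e = true := by
  decide +kernel

theorem f_1562 (h : TabsF) : FrameF repsF 275 F_1562.f :=
  frame_of rfl c_1562 (runs_of engOK r_1562_0) (by decide +kernel) h.2 h.2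

def F_1563 : FrX :=
  ⟨0x1001040012008080000e0084080041000810100004201010014802200200004044020202000011004004480401100020210080080c00440810080c002001,
    0xa3, 1, 0x3141617193a3, 6,
    [(0xa3, 1), (0x207584a6, 4), (0x10547693, 4), (0x647593a8, 4), (0x10547693, 4), (0x216485a7, 4), (0x208693a4, 4), (0x647593a8, 4), (0x208693a4, 4), (0x106574a8, 4), (0x647593a8, 4), (0x216485a7, 4)],
    [(0x3141617193a3, 6), (0x206583a4, 4), (0x53647091, 4), (0x436591a8, 4), (0x53647091, 4), (0x437285a6, 4), (0x208491a3, 4), (0x436591a8, 4), (0x208491a3, 4), (0x546370a8, 4), (0x436591a8, 4), (0x437285a6, 4)]⟩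

def c_1563 : frmChk tB tB F_1563 = true := by decide +kernel

def r_1563_0 : chkL rootF engF2 tB tB sB_275 sB_275 4 F_1563 [(511, 0, 0)]
    0x10cc1705c170acd11c847 = true := by
  decide +kernel

theorem f_1563 (h : TabsF) : FrameF repsF 275 F_1563.f :=
  frame_of rfl c_1563 (runs_of engOK r_1563_0) (by decide +kernel) h.2 h.2

def F_1564 : FrX :=
  ⟨0x1c4044000008081000000840080410000101084042102000001081000102000040a0206000011000024101203110024010020100c104008005009008000,
    0x0, 0, 0x657384, 3,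
    [(0x0, 0), (0x20637584, 4), (0x105476a9, 4), (0x647583a9, 4), (0x105476a9, 4), (0x21647385, 4), (0x204386a9, 4), (0x647583a9, 4), (0x204386a9, 4), (0x10657483, 4), (0x647583a9, 4), (0x21647385, 4)],
    [(0x657384, 3), (0x20637584, 4), (0x105386a9, 4), (0x637485a9, 4), (0x105386a9, 4), (0x21647385, 4), (0x205487a9, 4), (0x637485a9, 4), (0x205487a9, 4), (0x10657483, 4), (0x637485a9, 4), (0x21647385, 4)]⟩

def c_1564 : frmChk tB tB F_1564 = true := by decide +kernel

def r_1564_0 : chkL rootF engF2 tB tB sB_275 sB_275 4 F_1564 [(511, 0, 0)]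
    0x1a1a5415a159161589712c1613c4a26c4714a1a5415a159161589712c1613c4a26c4714a1a5415a159161589712c1613c4a26c471481f052361aa260ea2689a1a1582e8a9168c81f052361aa260ea2689a1a1582e8a9168c81f052361aa260ea2689a1a1582e8a9168ca1a5415a159161589712c1613c4a26c4714a1a5415a159161589712c1613c4a26c4714a1a5415a159161589712c1613c4a26c471481f052361aa260ea2689a1a1582e8a9168c81f052361aa260ea2689a1a1582e8a9168c81f052361aa260ea2689a1a1582e8a9168ca1a5415a159161589712c1613c4a26c4714a1a5415a159161589712c1613c4a26c4714a1a5415a159161589712c1613c4a26c471481f052361aa260ea2689a1a1582e8a9168c81f052361aa260ea2689a1a1582e8a9168c81f052361aa260ea2689a1a1582e8a9168c = true := by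
  decide +kernel

theorem f_1564 (h : TabsF) : FrameF repsF 275 F_1564.f :=
  frame_of rfl c_1564 (runs_of engOK r_1564_0) (by decide +kernel) h.2 h.2

def F_1565 : FrX :=
  ⟨0x1001040012008080000e008408004100081010000420201000480220020000c0440202020000404040021810041800202100800804404408100006002001,
    0xa3, 1, 0x3262728792a3, 6,
    [(0xa3, 1), (0x207584a6, 4), (0x10547693, 4), (0x647593a8, 4), (0x10547693, 4), (0x216485a7, 4), (0x208693a4, 4), (0x647593a8, 4), (0x208693a4, 4), (0x106574a8, 4), (0x647593a8, 4), (0x216485a7, 4)],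
    [(0x3262728792a3, 6), (0x648590a3, 4), (0x10547283, 4), (0x437285a6, 4), (0x10547283, 4), (0x436591a8, 4), (0x637290a4, 4), (0x437285a6, 4), (0x637290a4, 4), (0x105384a6, 4), (0x437285a6, 4), (0x436591a8, 4)]⟩

def c_1565 : frmChk tB tB F_1565 = true := by decide +kernel

def r_1565_0 : chkL rootF engF2 tB tB sB_275 sB_275 4 F_1565 [(255, 0, 0), (256, 0, 17)]
    0x105c17 = true := by
  decide +kernel

def r_1565_1 : chkL rootF engF2 tB tB sB_275 sB_275 4 F_1565 [(256, 17, 0)]
    0x1 = true := by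
  decide +kernel

theorem f_1565 (h : TabsF) : FrameF repsF 275 F_1565.f :=
  frame_of rfl c_1565 ((runs_of engOK r_1565_0).append (runs_of engOK r_1565_1)) (by decide +kernel) h.2 h.2

def F_1566 : FrX :=
  ⟨0x1001040012008080000e008408004100081010000420080240014001010200000860000c202020024000480040004880000400260082000005c100060050,
    0xa3, 1, 0x3150608493a5, 6,
    [(0xa3, 1), (0x207584a6, 4), (0x10547693, 4), (0x647593a8, 4), (0x10547693, 4), (0x216485a7, 4), (0x208693a4, 4), (0x647593a8, 4), (0x208693a4, 4), (0x106574a8, 4), (0x647593a8, 4), (0x216485a7, 4)],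
    [(0x3150608493a5, 6), (0x628495a7, 4), (0x106375a8, 4), (0x108594a7, 4), (0x106375a8, 4), (0x328597a4, 4), (0x10546298, 4), (0x108594a7, 4), (0x10546298, 4), (0x638794a5, 4), (0x108594a7, 4), (0x328597a4, 4)]⟩

def c_1566 : frmChk tB tB F_1566 = true := by decide +kernel

def r_1566_0 : chkL rootF engF2 tB tB sB_275 sB_275 4 F_1566 [(511, 0, 0)]
    0x112c361544705c0f03c0f = true := by
  decide +kernel

theorem f_1566 (h : TabsF) : FrameF repsF 275 F_1566.f :=
  frame_of rfl c_1566 (runs_of engOK r_1566_0) (by decide +kernel) h.2 h.2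

def F_1567 : FrX :=
  ⟨0x1001040012008080000e0084080041000810100004200802400140010102000002e00020202020024000480040004880000400150102000006490004008c,
    0xa3, 1, 0x2130758496a3, 6,
    [(0xa3, 1), (0x207584a6, 4), (0x10547693, 4), (0x647593a8, 4), (0x10547693, 4), (0x216485a7, 4), (0x208693a4, 4), (0x647593a8, 4), (0x208693a4, 4), (0x106574a8, 4), (0x647593a8, 4), (0x216485a7, 4)],
    [(0x2130758496a3, 6), (0x317584a9, 4), (0x32608795, 4), (0x607598a4, 4), (0x32608795, 4), (0x217498a5, 4), (0x316094a8, 4), (0x607598a4, 4), (0x316094a8, 4), (0x328597a4, 4), (0x607598a4, 4), (0x217498a5, 4)]⟩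

def c_1567 : frmChk tB tB F_1567 = true := by decide +kernel

def r_1567_0 : chkL rootF engF2 tB tB sB_275 sB_275 4 F_1567 [(511, 0, 0)]
    0x103c0f03ca5268274580f03c0f = true := by
  decide +kernel

theorem f_1567 (h : TabsF) : FrameF repsF 275 F_1567.f :=
  frame_of rfl c_1567 (runs_of engOK r_1567_0) (by decide +kernel) h.2 h.2

def F_1568 : FrX :=
  ⟨0x1001040012008080000e0084080041000810100004200802400140010102000003200024202020024000480040004880000400260082000005c100030050,
    0xa3, 1, 0x3254618398a6, 6,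
    [(0xa3, 1), (0x207584a6, 4), (0x10547693, 4), (0x647593a8, 4), (0x10547693, 4), (0x216485a7, 4), (0x208693a4, 4), (0x647593a8, 4), (0x208693a4, 4), (0x106574a8, 4), (0x647593a8, 4), (0x216485a7, 4)],
    [(0x3254618398a6, 6), (0x307495a8, 4), (0x215460a7, 4), (0x217498a5, 4), (0x215460a7, 4), (0x638794a5, 4), (0x213085a9, 4), (0x217498a5, 4), (0x213085a9, 4), (0x607598a4, 4), (0x217498a5, 4), (0x638794a5, 4)]⟩

def c_1568 : frmChk tB tB F_1568 = true := by decide +kernel

def r_1568_0 : chkL rootF engF2 tB tB sB_275 sB_275 4 F_1568 [(255, 0, 0), (256, 0, 18)]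
    0x103c4e09cca03c0f = true := by
  decide +kernel

def r_1568_1 : chkL rootF engF2 tB tB sB_275 sB_275 4 F_1568 [(256, 18, 0)]
    0x1 = true := by
  decide +kernel

theorem f_1568 (h : TabsF) : FrameF repsF 275 F_1568.f :=
  frame_of rfl c_1568 ((runs_of engOK r_1568_0).append (runs_of engOK r_1568_1)) (by decide +kernel) h.2 h.2

def F_1569 : FrX :=
  ⟨0x1001040012008080000e00840800410008101000042008100108022002000080440202060000208040061810040800202100800814004408100006002001,
    0xa3, 1, 0x2040637091a4, 6,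
    [(0xa3, 1), (0x207584a6, 4), (0x10547693, 4), (0x647593a8, 4), (0x10547693, 4), (0x216485a7, 4), (0x208693a4, 4), (0x647593a8, 4), (0x208693a4, 4), (0x106574a8, 4), (0x647593a8, 4), (0x216485a7, 4)],
    [(0x2040637091a4, 6), (0x546370a8, 4), (0x214397a5, 4), (0x215486a3, 4), (0x214397a5, 4), (0x648590a3, 4), (0x217083a6, 4), (0x215486a3, 4), (0x217083a6, 4), (0x538697a4, 4), (0x215486a3, 4), (0x648590a3, 4)]⟩

def c_1569 : frmChk tB tB F_1569 = true := by decide +kernel

def r_1569_0 : chkL rootF engF2 tB tB sB_275 sB_275 4 F_1569 [(255, 0, 0), (256, 0, 18)]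
    0x10ac35 = true := by
  decide +kernel

def r_1569_1 : chkL rootF engF2 tB tB sB_275 sB_275 4 F_1569 [(256, 18, 0)]
    0x471 = true := by
  decide +kernel

theorem f_1569 (h : TabsF) : FrameF repsF 275 F_1569.f :=
  frame_of rfl c_1569 ((runs_of engOK r_1569_0).append (runs_of engOK r_1569_1)) (by decide +kernel) h.2 h.2

theorem cl_275 (h : TabsF) : ∀ f ∈ fr_275, FrameF repsF 275 f :=
  List.forall_mem_cons.2 ⟨f_1542 h, List.forall_mem_cons.2 ⟨f_1543 h, List.forall_mem_cons.2 ⟨f_1544 h, List.forall_mem_cons.2 ⟨f_1545 h, List.forall_mem_cons.2 ⟨f_1546 h, List.forall_mem_cons.2 ⟨f_1547 h, List.forall_mem_cons.2 ⟨f_1548 h, List.forall_mem_cons.2 ⟨f_1549 h, List.forall_mem_cons.2 ⟨f_1550 h, List.forall_mem_cons.2 ⟨f_1551 h, List.forall_mem_cons.2 ⟨f_1552 h, List.forall_mem_cons.2 ⟨f_1553 h, List.forall_mem_cons.2 ⟨f_1554 h, List.forall_mem_cons.2 ⟨f_1555 h, List.forall_mem_cons.2 ⟨f_1556 h, List.forall_mem_cons.2 ⟨f_1557 h, List.forall_mem_cons.2 ⟨f_1558 h, List.forall_mem_cons.2 ⟨f_1559 h, List.forall_mem_cons.2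 ⟨f_1560 h, List.forall_mem_cons.2 ⟨f_1561 h, List.forall_mem_cons.2 ⟨f_1562 h, List.forall_mem_cons.2 ⟨f_1563 h, List.forall_mem_cons.2 ⟨f_1564 h, List.forall_mem_cons.2 ⟨f_1565 h, List.forall_mem_cons.2 ⟨f_1566 h, List.forall_mem_cons.2 ⟨f_1567 h, List.forall_mem_cons.2 ⟨f_1568 h, List.forall_mem_cons.2 ⟨f_1569 h,
    fun _ h0 => absurd h0 List.not_mem_nil⟩⟩⟩⟩⟩⟩⟩⟩⟩⟩⟩⟩⟩⟩⟩⟩⟩⟩⟩⟩⟩⟩⟩⟩⟩⟩⟩⟩

def F_1570 : FrX :=
  ⟨0x1001040012008080000e00840800410008101000042100004060010060000882808200002200004b00004000882040410010800408200000501000212201,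
    0xa3, 1, 0x4252738292a7, 6,
    [(0xa3, 1), (0x207584a6, 4), (0x10547693, 4), (0x647593a8, 4), (0x10547693, 4), (0x216485a7, 4), (0x208693a4, 4), (0x647593a8, 4), (0x208693a4, 4), (0x106574a8, 4), (0x647593a8, 4), (0x216485a7, 4)],
    [(0x4252738292a7, 6), (0x527690a4, 4), (0x104283a6, 4), (0x627583a4, 4), (0x104283a6, 4), (0x546291a7, 4), (0x65728390, 4), (0x627583a4, 4), (0x65728390, 4), (0x106475a2, 4), (0x627583a4, 4), (0x546291a7, 4)]⟩

def c_1570 : frmChk tB tB F_1570 = true := by decide +kernel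

def r_1570_0 : chkL rootF engF2 tB tB sB_276 sB_276 4 F_1570 [(511, 0, 0)]
    0x106c2709c2709c9a = true := by
  decide +kernel

theorem f_1570 (h : TabsF) : FrameF repsF 276 F_1570.f :=
  frame_of rfl c_1570 (runs_of engOK r_1570_0) (by decide +kernel) h.2 h.2

def F_1571 : FrX :=
  ⟨0x1001040012008080000e00840800410008101000060000024200208004180084040008800100208268010008002060022000a0440001000000a002202081,
    0xa3, 1, 0x3142657392a4, 6,
    [(0xa3, 1), (0x207584a6, 4), (0x10547693, 4), (0x647593a8, 4), (0x10547693, 4), (0x216485a7, 4), (0x208693a4, 4), (0x647593a8, 4), (0x208693a4, 4), (0x106574a8, 4), (0x647593a8, 4), (0x216485a7, 4)],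
    [(0x3142657392a4, 6), (0x617590a8, 4), (0x304251a6, 4), (0x426187a5, 4), (0x304251a6, 4), (0x718693a5, 4), (0x428590a7, 4), (0x426187a5, 4), (0x428590a7, 4), (0x306587a1, 4), (0x426187a5, 4), (0x718693a5, 4)]⟩

def c_1571 : frmChk tB tB F_1571 = true := by decide +kernel

def r_1571_0 : chkL rootF engF2 tB tB sB_276 sB_276 4 F_1571 [(511, 0, 0)]
    0x1 = true := by
  decide +kernel

theorem f_1571 (h : TabsF) : FrameF repsF 276 F_1571.f :=
  frame_of rfl c_1571 (runs_of engOK r_1571_0) (by decide +kernel) h.2 h.2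

def F_1572 : FrX :=
  ⟨0x1001040012008080000e008408004100081010000600000218002080041800840400028001a0200240050000028060022000004401010005008002222001,
    0xa3, 1, 0x2132536490a6, 6,
    [(0xa3, 1), (0x207584a6, 4), (0x10547693, 4), (0x647593a8, 4), (0x10547693, 4), (0x216485a7, 4), (0x208693a4, 4), (0x647593a8, 4), (0x208693a4, 4), (0x106574a8, 4), (0x647593a8, 4), (0x216485a7, 4)],
    [(0x2132536490a6, 6), (0x718693a5, 4), (0x406192a7, 4), (0x407185a6, 4), (0x406192a7, 4), (0x327581a6, 4), (0x406593a8, 4), (0x407185a6, 4), (0x406593a8, 4), (0x768592a1, 4), (0x407185a6, 4), (0x327581a6, 4)]⟩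

def c_1572 : frmChk tB tB F_1572 = true := by decide +kernel

def r_1572_0 : chkL rootF engF2 tB tB sB_276 sB_276 4 F_1572 [(255, 0, 0), (256, 0, 22)]
    0x1 = true := by
  decide +kernel

def r_1572_1 : chkL rootF engF2 tB tB sB_276 sB_276 4 F_1572 [(256, 22, 0)]
    0x1 = true := by
  decide +kernel

theorem f_1572 (h : TabsF) : FrameF repsF 276 F_1572.f :=
  frame_of rfl c_1572 ((runs_of engOK r_1572_0).append (runs_of engOK r_1572_1)) (by decide +kernel) h.2 h.2

def F_1573 : FrX :=
  ⟨0x1001040012008080000e0084080041000810100006000002808020800418008404000a00002028026801008000086002200028440001000000a002202081,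
    0xa3, 1, 0x1040546590a3, 6,
    [(0xa3, 1), (0x207584a6, 4), (0x10547693, 4), (0x647593a8, 4), (0x10547693, 4), (0x216485a7, 4), (0x208693a4, 4), (0x647593a8, 4), (0x208693a4, 4), (0x106574a8, 4), (0x647593a8, 4), (0x216485a7, 4)],
    [(0x1040546590a3, 6), (0x768592a1, 4), (0x43657190, 4), (0x435176a8, 4), (0x43657190, 4), (0x205186a7, 4), (0x438192a5, 4), (0x435176a8, 4), (0x438192a5, 4), (0x617590a8, 4), (0x435176a8, 4), (0x205186a7, 4)]⟩

def c_1573 : frmChk tB tB F_1573 = true := by decide +kernel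

def r_1573_0 : chkL rootF engF2 tB tB sB_276 sB_276 4 F_1573 [(511, 0, 0)]
    0x105c1705c27 = true := by
  decide +kernel

theorem f_1573 (h : TabsF) : FrameF repsF 276 F_1573.f :=
  frame_of rfl c_1573 (runs_of engOK r_1573_0) (by decide +kernel) h.2 h.2

def F_1574 : FrX :=
  ⟨0x1001040012008080000e0084080041000810100006000002d000208004180084040000100080220240050020020060022000884400010005008002202009,
    0xa3, 1, 0x1021307683a4, 6,
    [(0xa3, 1), (0x207584a6, 4), (0x10547693, 4), (0x647593a8, 4), (0x10547693, 4), (0x216485a7, 4), (0x208693a4, 4), (0x647593a8, 4), (0x208693a4, 4), (0x106574a8, 4), (0x647593a8, 4), (0x216485a7, 4)],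
    [(0x1021307683a4, 6), (0x306587a1, 4), (0x327694a5, 4), (0x658194a7, 4), (0x327694a5, 4), (0x205186a7, 4), (0x307194a8, 4), (0x658194a7, 4), (0x307194a8, 4), (0x327581a6, 4), (0x658194a7, 4), (0x205186a7, 4)]⟩

def c_1574 : frmChk tB tB F_1574 = true := by decide +kernel

def r_1574_0 : chkL rootF engF2 tB tB sB_276 sB_276 4 F_1574 [(511, 0, 0)]
    0x4350d8350cc390e439 = true := by
  decide +kernel

theorem f_1574 (h : TabsF) : FrameF repsF 276 F_1574.f :=
  frame_of rfl c_1574 (runs_of engOK r_1574_0) (by decide +kernel) h.2 h.2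

def F_1575 : FrX :=
  ⟨0x1001040012008080000e00840800410008101000042d00004020010000000882808200082200000200104022010440410010800408a00880500000203001,
    0xa3, 1, 0x2030537583a3, 6,
    [(0xa3, 1), (0x207584a6, 4), (0x10547693, 4), (0x647593a8, 4), (0x10547693, 4), (0x216485a7, 4), (0x208693a4, 4), (0x647593a8, 4), (0x208693a4, 4), (0x106574a8, 4), (0x647593a8, 4), (0x216485a7, 4)],
    [(0x2030537583a3, 6), (0x305472a6, 4), (0x31627498, 4), (0x647298a5, 4), (0x31627498, 4), (0x106475a2, 4), (0x306598a4, 4), (0x647298a5, 4), (0x306598a4, 4), (0x314276a5, 4), (0x647298a5, 4), (0x106475a2, 4)]⟩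

def c_1575 : frmChk tB tB F_1575 = true := by decide +kernel

def r_1575_0 : chkL rootF engF2 tB tB sB_276 sB_276 4 F_1575 [(511, 0, 0)]
    0x41705c1b05c1b = true := by
  decide +kernel

theorem f_1575 (h : TabsF) : FrameF repsF 276 F_1575.f :=
  frame_of rfl c_1575 (runs_of engOK r_1575_0) (by decide +kernel) h.2 h.2

def F_1576 : FrX :=
  ⟨0x600020801080810000c0040180410101001004010040100100001440121002080002043800802000000110211090400040208000400808100c00180180,
    0xa0, 1, 0x205391a0, 4,
    [(0xa0, 1), (0x637584a2, 4), (0x547690a1, 4), (0x64758390, 4), (0x547690a1, 4), (0x21647385, 4), (0x438690a2, 4), (0x64758390, 4), (0x438690a2, 4), (0x657483a1, 4), (0x64758390, 4), (0x21647385, 4)],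
    [(0x205391a0, 4), (0x657384a0, 4), (0x214376a9, 4), (0x21647385, 4), (0x214376a9, 4), (0x64758390, 4), (0x215486a0, 4), (0x21647385, 4), (0x215486a0, 4), (0x637485a9, 4), (0x21647385, 4), (0x64758390, 4)]⟩

def c_1576 : frmChk tB tB F_1576 = true := by decide +kernel

def r_1576_0 : chkL rootF engF2 tB tB sB_276 sB_276 4 F_1576 [(511, 0, 0)]
    0x40f05c17 = true := by
  decide +kernel

theorem f_1576 (h : TabsF) : FrameF repsF 276 F_1576.f :=
  frame_of rfl c_1576 (runs_of engOK r_1576_0) (by decide +kernel) h.2 h.2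

def F_1577 : FrX :=
  ⟨0x1001040012008080000e008408004100081010000420101000880220020000a044020202000040404004480406040020210080081800440810000200a001,
    0xa3, 1, 0x102092a7, 4,
    [(0xa3, 1), (0x207584a6, 4), (0x10547693, 4), (0x647593a8, 4), (0x10547693, 4), (0x216485a7, 4), (0x208693a4, 4), (0x647593a8, 4), (0x208693a4, 4), (0x106574a8, 4), (0x647593a8, 4), (0x216485a7, 4)],
    [(0x102092a7, 4), (0x638492a5, 4), (0x205471a6, 4), (0x647183a5, 4), (0x205471a6, 4), (0x648590a3, 4), (0x43718692, 4), (0x647183a5, 4), (0x43718692, 4), (0x206583a4, 4), (0x647183a5, 4), (0x648590a3, 4)]⟩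

def c_1577 : frmChk tB tB F_1577 = true := by decide +kernel

def r_1577_0 : chkL rootF engF2 tB tB sB_276 sB_276 4 F_1577 [(511, 0, 0)]
    0x106c27 = true := by
  decide +kernel

theorem f_1577 (h : TabsF) : FrameF repsF 276 F_1577.f :=
  frame_of rfl c_1577 (runs_of engOK r_1577_0) (by decide +kernel) h.2 h.2

def F_1578 : FrX :=
  ⟨0x1001040012008080000e0084080041000810100004200802400140010102000009a000082020200240004800400048800004000c0182000005c100010130,
    0xa3, 1, 0x3263768697a3, 6,
    [(0xa3, 1), (0x207584a6, 4), (0x10547693, 4), (0x647593a8, 4), (0x10547693, 4), (0x216485a7, 4), (0x208693a4, 4), (0x647593a8, 4), (0x208693a4, 4), (0x106574a8, 4), (0x647593a8, 4), (0x216485a7, 4)],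
    [(0x3263768697a3, 6), (0x307495a8, 4), (0x10546298, 4), (0x628495a7, 4), (0x10546298, 4), (0x317584a9, 4), (0x306287a4, 4), (0x628495a7, 4), (0x306287a4, 4), (0x108594a7, 4), (0x628495a7, 4), (0x317584a9, 4)]⟩

def c_1578 : frmChk tB tB F_1578 = true := by decide +kernel

def r_1578_0 : chkL rootF engF2 tB tB sB_276 sB_276 4 F_1578 [(255, 0, 0), (256, 0, 18)]
    0x417 = true := by
  decide +kernel

def r_1578_1 : chkL rootF engF2 tB tB sB_276 sB_276 4 F_1578 [(256, 18, 0)]
    0x1 = true := by
  decide +kernel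

theorem f_1578 (h : TabsF) : FrameF repsF 276 F_1578.f :=
  frame_of rfl c_1578 ((runs_of engOK r_1578_0).append (runs_of engOK r_1578_1)) (by decide +kernel) h.2 h.2

def F_1579 : FrX :=
  ⟨0x1001040012008080000e0084080041000810100004200802400140010102000002e000202020200240004800400048800004000c024200000aa1000400c8,
    0xa3, 1, 0x2130758496a3, 6,
    [(0xa3, 1), (0x207584a6, 4), (0x10547693, 4), (0x647593a8, 4), (0x10547693, 4), (0x216485a7, 4), (0x208693a4, 4), (0x647593a8, 4), (0x208693a4, 4), (0x106574a8, 4), (0x647593a8, 4), (0x216485a7, 4)],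
    [(0x2130758496a3, 6), (0x317584a9, 4), (0x32608795, 4), (0x607598a4, 4), (0x32608795, 4), (0x217498a5, 4), (0x316094a8, 4), (0x607598a4, 4), (0x316094a8, 4), (0x328597a4, 4), (0x607598a4, 4), (0x217498a5, 4)]⟩

def c_1579 : frmChk tB tB F_1579 = true := by decide +kernel

def r_1579_0 : chkL rootF engF2 tB tB sB_276 sB_276 4 F_1579 [(511, 0, 0)]
    0x41e = true := by
  decide +kernel

theorem f_1579 (h : TabsF) : FrameF repsF 276 F_1579.f :=
  frame_of rfl c_1579 (runs_of engOK r_1579_0) (by decide +kernel) h.2 h.2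

def F_1580 : FrX :=
  ⟨0x1001040012008080000e0084080041000810100004200802400140010102000009a00008202020024000480040004880000400150102000010e100010086,
    0xa3, 1, 0x3263768697a3, 6,
    [(0xa3, 1), (0x207584a6, 4), (0x10547693, 4), (0x647593a8, 4), (0x10547693, 4), (0x216485a7, 4), (0x208693a4, 4), (0x647593a8, 4), (0x208693a4, 4), (0x106574a8, 4), (0x647593a8, 4), (0x216485a7, 4)],
    [(0x3263768697a3, 6), (0x307495a8, 4), (0x10546298, 4), (0x628495a7, 4), (0x10546298, 4), (0x317584a9, 4), (0x306287a4, 4), (0x628495a7, 4), (0x306287a4, 4), (0x108594a7, 4), (0x628495a7, 4), (0x317584a9, 4)]⟩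

def c_1580 : frmChk tB tB F_1580 = true := by decide +kernel

def r_1580_0 : chkL rootF engF2 tB tB sB_276 sB_276 4 F_1580 [(255, 0, 0), (256, 0, 18)]
    0x1 = true := by
  decide +kernel

def r_1580_1 : chkL rootF engF2 tB tB sB_276 sB_276 4 F_1580 [(256, 18, 0)]
    0x1 = true := by
  decide +kernel

theorem f_1580 (h : TabsF) : FrameF repsF 276 F_1580.f :=
  frame_of rfl c_1580 ((runs_of engOK r_1580_0).append (runs_of engOK r_1580_1)) (by decide +kernel) h.2 h.2

def F_1581 : FrX :=
  ⟨0x1c4044000008081000000840080410000101084042102000001081000102000040a02060000404000181012040580240100201018104008004807000000,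
    0x0, 0, 0x657384, 3,
    [(0x0, 0), (0x20637584, 4), (0x105476a9, 4), (0x647583a9, 4), (0x105476a9, 4), (0x21647385, 4), (0x204386a9, 4), (0x647583a9, 4), (0x204386a9, 4), (0x10657483, 4), (0x647583a9, 4), (0x21647385, 4)],
    [(0x657384, 3), (0x20637584, 4), (0x105386a9, 4), (0x637485a9, 4), (0x105386a9, 4), (0x21647385, 4), (0x205487a9, 4), (0x637485a9, 4), (0x205487a9, 4), (0x10657483, 4), (0x637485a9, 4), (0x21647385, 4)]⟩

def c_1581 : frmChk tB tB F_1581 = true := by decide +kernel

def r_1581_0 : chkL rootF engF2 tB tB sB_276 sB_276 4 F_1581 [(511, 0, 0)]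
    0x1a1b1184e16c464385a64c4703c1b1422f12a1b1184e16c464385a64c4703c1b1422f12a1b1184e16c464385a64c4703c1b1422f1219a45992239922599258991139866219a45992239922599258991139866219a459922399225992589911398662a1b1184e16c464385a64c4703c1b1422f12a1b1184e16c464385a64c4703c1b1422f12a1b1184e16c464385a64c4703c1b1422f1219a45992239922599258991139866219a45992239922599258991139866219a459922399225992589911398662a1b1184e16c464385a64c4703c1b1422f12a1b1184e16c464385a64c4703c1b1422f12a1b1184e16c464385a64c4703c1b1422f1219a45992239922599258991139866219a45992239922599258991139866219a459922399225992589911398662 = true := by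
  decide +kernel

theorem f_1581 (h : TabsF) : FrameF repsF 276 F_1581.f :=
  frame_of rfl c_1581 (runs_of engOK r_1581_0) (by decide +kernel) h.2 h.2

def F_1582 : FrX :=
  ⟨0x1001040012008080000e0084080041000810100004200810010802200200008044020206000011004006280802100020210080080c00440810000a002001,
    0xa3, 1, 0x2040637091a4, 6,
    [(0xa3, 1), (0x207584a6, 4), (0x10547693, 4), (0x647593a8, 4), (0x10547693, 4), (0x216485a7, 4), (0x208693a4, 4), (0x647593a8, 4), (0x208693a4, 4), (0x106574a8, 4), (0x647593a8, 4), (0x216485a7, 4)],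
    [(0x2040637091a4, 6), (0x546370a8, 4), (0x214397a5, 4), (0x215486a3, 4), (0x214397a5, 4), (0x648590a3, 4), (0x217083a6, 4), (0x215486a3, 4), (0x217083a6, 4), (0x538697a4, 4), (0x215486a3, 4), (0x648590a3, 4)]⟩

def c_1582 : frmChk tB tB F_1582 = true := by decide +kernel

def r_1582_0 : chkL rootF engF2 tB tB sB_276 sB_276 4 F_1582 [(255, 0, 0), (256, 0, 18)]
    0x1 = true := by
  decide +kernel

def r_1582_1 : chkL rootF engF2 tB tB sB_276 sB_276 4 F_1582 [(256, 18, 23)]
    0x417 = true := by
  decide +kernel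

def r_1582_2 : chkL rootF engF2 tB tB sB_276 sB_276 4 F_1582 [(256, 41, 0)]
    0x1 = true := by
  decide +kernel

theorem f_1582 (h : TabsF) : FrameF repsF 276 F_1582.f :=
  frame_of rfl c_1582 ((runs_of engOK r_1582_0).append ((runs_of engOK r_1582_1).append (runs_of engOK r_1582_2))) (by decide +kernel) h.2 h.2

def F_1583 : FrX :=
  ⟨0x1c4044000008081000000840080410000101084042102000001081000102000040a02060000404000241012041900240100201004504008005007000000,
    0x0, 0, 0x657384, 3,
    [(0x0, 0), (0x20637584, 4), (0x105476a9, 4), (0x647583a9, 4), (0x105476a9, 4), (0x21647385, 4), (0x204386a9, 4), (0x647583a9, 4), (0x204386a9, 4), (0x10657483, 4), (0x647583a9, 4), (0x21647385, 4)],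
    [(0x657384, 3), (0x20637584, 4), (0x105386a9, 4), (0x637485a9, 4), (0x105386a9, 4), (0x21647385, 4), (0x205487a9, 4), (0x637485a9, 4), (0x205487a9, 4), (0x10657483, 4), (0x637485a9, 4), (0x21647385, 4)]⟩

def c_1583 : frmChk tB tB F_1583 = true := by decide +kernel

def r_1583_0 : chkL rootF engF2 tB tB sB_276 sB_276 4 F_1583 [(511, 0, 0)]
    0x66289a2598a628563491a45a26139866498a268966298a158d2469168984e619926289a2598a628563491a45a261398664a248da0e8982e898728aa2466a328923683a260ba261ca2a8919a8ca248da0e8982e898728aa2466a326289a2598a628563491a45a26139866498a268966298a158d2469168984e619926289a2598a628563491a45a2613986641b28923683a260ba261ca2a8919a8ca248da0e8982e898728aa2466a328923683a260ba261ca2a8919a8c98a268966298a158d2469168984e619926289a2598a628563491a45a26139866498a268966298a158d2469168984e619928923683a260ba261ca2a8919a8ca248da0e8982e898728aa2466a328923683a260ba261ca2a8919a8c = true := by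
  decide +kernel

theorem f_1583 (h : TabsF) : FrameF repsF 276 F_1583.f :=
  frame_of rfl c_1583 (runs_of engOK r_1583_0) (by decide +kernel) h.2 h.2

def F_1584 : FrX :=
  ⟨0x1001040012008080000e0084080041000810100004200802400140010102000009a00008202020024000480040004880000400120282000005c1000100b0,
    0xa3, 1, 0x3263768697a3, 6,
    [(0xa3, 1), (0x207584a6, 4), (0x10547693, 4), (0x647593a8, 4), (0x10547693, 4), (0x216485a7, 4), (0x208693a4, 4), (0x647593a8, 4), (0x208693a4, 4), (0x106574a8, 4), (0x647593a8, 4), (0x216485a7, 4)],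
    [(0x3263768697a3, 6), (0x307495a8, 4), (0x10546298, 4), (0x628495a7, 4), (0x10546298, 4), (0x317584a9, 4), (0x306287a4, 4), (0x628495a7, 4), (0x306287a4, 4), (0x108594a7, 4), (0x628495a7, 4), (0x317584a9, 4)]⟩

def c_1584 : frmChk tB tB F_1584 = true := by decide +kernel

def r_1584_0 : chkL rootF engF2 tB tB sB_276 sB_276 4 F_1584 [(255, 0, 0), (256, 0, 18)]
    0x1 = true := by
  decide +kernel

def r_1584_1 : chkL rootF engF2 tB tB sB_276 sB_276 4 F_1584 [(256, 18, 0)]
    0x1 = true := by
  decide +kernel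

theorem f_1584 (h : TabsF) : FrameF repsF 276 F_1584.f :=
  frame_of rfl c_1584 ((runs_of engOK r_1584_0).append (runs_of engOK r_1584_1)) (by decide +kernel) h.2 h.2

def F_1585 : FrX :=
  ⟨0x1001040012008080000e0084080041000810100004200802400140010102000002e000202020200240004800400048800004002600820000092900040054,
    0xa3, 1, 0x1031538795a6, 6,
    [(0xa3, 1), (0x207584a6, 4), (0x10547693, 4), (0x647593a8, 4), (0x10547693, 4), (0x216485a7, 4), (0x208693a4, 4), (0x647593a8, 4), (0x208693a4, 4), (0x106574a8, 4), (0x647593a8, 4), (0x216485a7, 4)],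
    [(0x1031538795a6, 6), (0x217498a5, 4), (0x316094a8, 4), (0x607598a4, 4), (0x316094a8, 4), (0x328597a4, 4), (0x215460a7, 4), (0x607598a4, 4), (0x215460a7, 4), (0x317584a9, 4), (0x607598a4, 4), (0x328597a4, 4)]⟩

def c_1585 : frmChk tB tB F_1585 = true := by decide +kernel

def r_1585_0 : chkL rootF engF2 tB tB sB_276 sB_276 4 F_1585 [(511, 0, 0)]
    0x1 = true := by
  decide +kernel

theorem f_1585 (h : TabsF) : FrameF repsF 276 F_1585.f :=
  frame_of rfl c_1585 (runs_of engOK r_1585_0) (by decide +kernel) h.2 h.2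

def F_1586 : FrX :=
  ⟨0x1001040012008080000e008408004100081010000420201000480220020000c044020202000011004002281402100020210080080c004408100004002021,
    0xa3, 1, 0x3262728792a3, 6,
    [(0xa3, 1), (0x207584a6, 4), (0x10547693, 4), (0x647593a8, 4), (0x10547693, 4), (0x216485a7, 4), (0x208693a4, 4), (0x647593a8, 4), (0x208693a4, 4), (0x106574a8, 4), (0x647593a8, 4), (0x216485a7, 4)],
    [(0x3262728792a3, 6), (0x648590a3, 4), (0x10547283, 4), (0x437285a6, 4), (0x10547283, 4), (0x436591a8, 4), (0x637290a4, 4), (0x437285a6, 4), (0x637290a4, 4), (0x105384a6, 4), (0x437285a6, 4), (0x436591a8, 4)]⟩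

def c_1586 : frmChk tB tB F_1586 = true := by decide +kernel

def r_1586_0 : chkL rootF engF2 tB tB sB_276 sB_276 4 F_1586 [(255, 0, 0), (256, 0, 17)]
    0x1 = true := by
  decide +kernel

def r_1586_1 : chkL rootF engF2 tB tB sB_276 sB_276 4 F_1586 [(256, 17, 0)]
    0x1 = true := by
  decide +kernel

theorem f_1586 (h : TabsF) : FrameF repsF 276 F_1586.f :=
  frame_of rfl c_1586 ((runs_of engOK r_1586_0).append (runs_of engOK r_1586_1)) (by decide +kernel) h.2 h.2

def F_1587 : FrX :=
  ⟨0x1001040012008080000e00840800410008101000042010100148022002000040440202020000404040041810040400202100800818004408100806002001,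
    0xa3, 1, 0x3141617193a3, 6,
    [(0xa3, 1), (0x207584a6, 4), (0x10547693, 4), (0x647593a8, 4), (0x10547693, 4), (0x216485a7, 4), (0x208693a4, 4), (0x647593a8, 4), (0x208693a4, 4), (0x106574a8, 4), (0x647593a8, 4), (0x216485a7, 4)],
    [(0x3141617193a3, 6), (0x206583a4, 4), (0x53647091, 4), (0x436591a8, 4), (0x53647091, 4), (0x437285a6, 4), (0x208491a3, 4), (0x436591a8, 4), (0x208491a3, 4), (0x546370a8, 4), (0x436591a8, 4), (0x437285a6, 4)]⟩

def c_1587 : frmChk tB tB F_1587 = true := by decide +kernel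

def r_1587_0 : chkL rootF engF2 tB tB sB_276 sB_276 4 F_1587 [(511, 0, 0)]
    0x52506c1b0d41b = true := by
  decide +kernel

theorem f_1587 (h : TabsF) : FrameF repsF 276 F_1587.f :=
  frame_of rfl c_1587 (runs_of engOK r_1587_0) (by decide +kernel) h.2 h.2

def F_1588 : FrX :=
  ⟨0x1001040012008080000e0084080041000810100004200802400140010102000002e00020202020024000480040004880000400260082000009510004004a,
    0xa3, 1, 0x1031538795a6, 6,
    [(0xa3, 1), (0x207584a6, 4), (0x10547693, 4), (0x647593a8, 4), (0x10547693, 4), (0x216485a7, 4), (0x208693a4, 4), (0x647593a8, 4), (0x208693a4, 4), (0x106574a8, 4), (0x647593a8, 4), (0x216485a7, 4)],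
    [(0x1031538795a6, 6), (0x217498a5, 4), (0x316094a8, 4), (0x607598a4, 4), (0x316094a8, 4), (0x328597a4, 4), (0x215460a7, 4), (0x607598a4, 4), (0x215460a7, 4), (0x317584a9, 4), (0x607598a4, 4), (0x328597a4, 4)]⟩

def c_1588 : frmChk tB tB F_1588 = true := by decide +kernel

def r_1588_0 : chkL rootF engF2 tB tB sB_276 sB_276 4 F_1588 [(511, 0, 0)]
    0x427 = true := by
  decide +kernel

theorem f_1588 (h : TabsF) : FrameF repsF 276 F_1588.f :=
  frame_of rfl c_1588 (runs_of engOK r_1588_0) (by decide +kernel) h.2 h.2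

def F_1589 : FrX :=
  ⟨0x1001040012008080000e0084080041000810100004200802400140010102000009a00008202020024000480040004880000400120142000005c100010150,
    0xa3, 1, 0x3263768697a3, 6,
    [(0xa3, 1), (0x207584a6, 4), (0x10547693, 4), (0x647593a8, 4), (0x10547693, 4), (0x216485a7, 4), (0x208693a4, 4), (0x647593a8, 4), (0x208693a4, 4), (0x106574a8, 4), (0x647593a8, 4), (0x216485a7, 4)],
    [(0x3263768697a3, 6), (0x307495a8, 4), (0x10546298, 4), (0x628495a7, 4), (0x10546298, 4), (0x317584a9, 4), (0x306287a4, 4), (0x628495a7, 4), (0x306287a4, 4), (0x108594a7, 4), (0x628495a7, 4), (0x317584a9, 4)]⟩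

def c_1589 : frmChk tB tB F_1589 = true := by decide +kernel

def r_1589_0 : chkL rootF engF2 tB tB sB_276 sB_276 4 F_1589 [(255, 0, 0), (256, 0, 18)]
    0x1 = true := by
  decide +kernel

def r_1589_1 : chkL rootF engF2 tB tB sB_276 sB_276 4 F_1589 [(256, 18, 0)]
    0x1 = true := by
  decide +kernel

theorem f_1589 (h : TabsF) : FrameF repsF 276 F_1589.f :=
  frame_of rfl c_1589 ((runs_of engOK r_1589_0).append (runs_of engOK r_1589_1)) (by decide +kernel) h.2 h.2

def F_1590 : FrX :=
  ⟨0x1001040012008080000e008408004100081010000420101000880220020000a0440202020000418040041810040400202100800804004408100006002003,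
    0xa3, 1, 0x102092a7, 4,
    [(0xa3, 1), (0x207584a6, 4), (0x10547693, 4), (0x647593a8, 4), (0x10547693, 4), (0x216485a7, 4), (0x208693a4, 4), (0x647593a8, 4), (0x208693a4, 4), (0x106574a8, 4), (0x647593a8, 4), (0x216485a7, 4)],
    [(0x102092a7, 4), (0x638492a5, 4), (0x205471a6, 4), (0x647183a5, 4), (0x205471a6, 4), (0x648590a3, 4), (0x43718692, 4), (0x647183a5, 4), (0x43718692, 4), (0x206583a4, 4), (0x647183a5, 4), (0x648590a3, 4)]⟩

def c_1590 : frmChk tB tB F_1590 = true := by decide +kernel

def r_1590_0 : chkL rootF engF2 tB tB sB_276 sB_276 4 F_1590 [(511, 0, 0)]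
    0x1 = true := by
  decide +kernel

theorem f_1590 (h : TabsF) : FrameF repsF 276 F_1590.f :=
  frame_of rfl c_1590 (runs_of engOK r_1590_0) (by decide +kernel) h.2 h.2

def F_1591 : FrX :=
  ⟨0x1001040012008080000e0084080041000810100004200802400140010102000008600030202020024000480040004880000400150102000005c100018090,
    0xa3, 1, 0x1042536295a4, 6,
    [(0xa3, 1), (0x207584a6, 4), (0x10547693, 4), (0x647593a8, 4), (0x10547693, 4), (0x216485a7, 4), (0x208693a4, 4), (0x647593a8, 4), (0x208693a4, 4), (0x106574a8, 4), (0x647593a8, 4), (0x216485a7, 4)],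
    [(0x1042536295a4, 6), (0x546197a8, 4), (0x103274a9, 4), (0x328597a4, 4), (0x103274a9, 4), (0x607598a4, 4), (0x326184a5, 4), (0x328597a4, 4), (0x326184a5, 4), (0x108594a7, 4), (0x328597a4, 4), (0x607598a4, 4)]⟩

def c_1591 : frmChk tB tB F_1591 = true := by decide +kernel

def r_1591_0 : chkL rootF engF2 tB tB sB_276 sB_276 4 F_1591 [(511, 0, 0)]
    0x4a505c0f03ca503c0f03c1b294ca03c0f = true := by
  decide +kernel

theorem f_1591 (h : TabsF) : FrameF repsF 276 F_1591.f :=
  frame_of rfl c_1591 (runs_of engOK r_1591_0) (by decide +kernel) h.2 h.2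

def F_1592 : FrX :=
  ⟨0x1c4044000008081000000840080410000101084042102000001081000102000040a0206000011000042101203108024010020100c104008006009008000,
    0x0, 0, 0x657384, 3,
    [(0x0, 0), (0x20637584, 4), (0x105476a9, 4), (0x647583a9, 4), (0x105476a9, 4), (0x21647385, 4), (0x204386a9, 4), (0x647583a9, 4), (0x204386a9, 4), (0x10657483, 4), (0x647583a9, 4), (0x21647385, 4)],
    [(0x657384, 3), (0x20637584, 4), (0x105386a9, 4), (0x637485a9, 4), (0x105386a9, 4), (0x21647385, 4), (0x205487a9, 4), (0x637485a9, 4), (0x205487a9, 4), (0x10657483, 4), (0x637485a9, 4), (0x21647385, 4)]⟩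

def c_1592 : frmChk tB tB F_1592 = true := by decide +kernel

def r_1592_0 : chkL rootF engF2 tB tB sB_276 sB_276 4 F_1592 [(511, 0, 0)]
    0x685a271484f1484f03c508bc4712a1689c5213c5213c0f1422f11c4a85a271484f1484f03c508bc471286689c5056c0e1a88f06c0e0da2662c471286689c5056c0e1a88f06c0e0da2662c471286689c5056c0e1a88f06c0e0da2662c4712a1689c5213c5213c0f1422f11c4a85a271484f1484f03c508bc4712a1689c5213c5213c0f1422f11c4a19a271415b0386a23c1b038368998b11c4a19a271415b0386a23c1b038368998b11c4a19a271415b0386a23c1b038368998b11c4a85a271484f1484f03c508bc4712a1689c5213c5213c0f1422f11c4a85a271484f1484f03c508bc471286689c5056c0e1a88f06c0e0da2662c471286689c5056c0e1a88f06c0e0da2662c471286689c5056c0e1a88f06c0e0da2662c4712 = true := by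
  decide +kernel

theorem f_1592 (h : TabsF) : FrameF repsF 276 F_1592.f :=
  frame_of rfl c_1592 (runs_of engOK r_1592_0) (by decide +kernel) h.2 h.2

def F_1593 : FrX :=
  ⟨0x1001040012008080000e008408004100081010000420201000480220020000c044020202000040404002280802180020210080080440440810000a002001,
    0xa3, 1, 0x3262728792a3, 6,
    [(0xa3, 1), (0x207584a6, 4), (0x10547693, 4), (0x647593a8, 4), (0x10547693, 4), (0x216485a7, 4), (0x208693a4, 4), (0x647593a8, 4), (0x208693a4, 4), (0x106574a8, 4), (0x647593a8, 4), (0x216485a7, 4)],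
    [(0x3262728792a3, 6), (0x648590a3, 4), (0x10547283, 4), (0x437285a6, 4), (0x10547283, 4), (0x436591a8, 4), (0x637290a4, 4), (0x437285a6, 4), (0x637290a4, 4), (0x105384a6, 4), (0x437285a6, 4), (0x436591a8, 4)]⟩

def c_1593 : frmChk tB tB F_1593 = true := by decide +kernel

def r_1593_0 : chkL rootF engF2 tB tB sB_276 sB_276 4 F_1593 [(255, 0, 0), (256, 0, 17)]
    0x1 = true := by
  decide +kernel

def r_1593_1 : chkL rootF engF2 tB tB sB_276 sB_276 4 F_1593 [(256, 17, 0)]
    0x1 = true := by
  decide +kernel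

theorem f_1593 (h : TabsF) : FrameF repsF 276 F_1593.f :=
  frame_of rfl c_1593 ((runs_of engOK r_1593_0).append (runs_of engOK r_1593_1)) (by decide +kernel) h.2 h.2

def F_1594 : FrX :=
  ⟨0x1001040012008080000e008408004100081010000420080240014001010200000860000c20202002400048004000488000040026008200000aa100060048,
    0xa3, 1, 0x3150608493a5, 6,
    [(0xa3, 1), (0x207584a6, 4), (0x10547693, 4), (0x647593a8, 4), (0x10547693, 4), (0x216485a7, 4), (0x208693a4, 4), (0x647593a8, 4), (0x208693a4, 4), (0x106574a8, 4), (0x647593a8, 4), (0x216485a7, 4)],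
    [(0x3150608493a5, 6), (0x628495a7, 4), (0x106375a8, 4), (0x108594a7, 4), (0x106375a8, 4), (0x328597a4, 4), (0x10546298, 4), (0x108594a7, 4), (0x10546298, 4), (0x638794a5, 4), (0x108594a7, 4), (0x328597a4, 4)]⟩

def c_1594 : frmChk tB tB F_1594 = true := by decide +kernel

def r_1594_0 : chkL rootF engF2 tB tB sB_276 sB_276 4 F_1594 [(511, 0, 0)]
    0x116866 = true := by
  decide +kernel

theorem f_1594 (h : TabsF) : FrameF repsF 276 F_1594.f :=
  frame_of rfl c_1594 (runs_of engOK r_1594_0) (by decide +kernel) h.2 h.2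

def F_1595 : FrX :=
  ⟨0x1001040012008080000e0084080041000810100004200802400140010102000002e00020202020024000480040004880000400260082000006490004004c,
    0xa3, 1, 0x2130758496a3, 6,
    [(0xa3, 1), (0x207584a6, 4), (0x10547693, 4), (0x647593a8, 4), (0x10547693, 4), (0x216485a7, 4), (0x208693a4, 4), (0x647593a8, 4), (0x208693a4, 4), (0x106574a8, 4), (0x647593a8, 4), (0x216485a7, 4)],
    [(0x2130758496a3, 6), (0x317584a9, 4), (0x32608795, 4), (0x607598a4, 4), (0x32608795, 4), (0x217498a5, 4), (0x316094a8, 4), (0x607598a4, 4), (0x316094a8, 4), (0x328597a4, 4), (0x607598a4, 4), (0x217498a5, 4)]⟩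

def c_1595 : frmChk tB tB F_1595 = true := by decide +kernel

def r_1595_0 : chkL rootF engF2 tB tB sB_276 sB_276 4 F_1595 [(511, 0, 0)]
    0x40f = true := by
  decide +kernel

theorem f_1595 (h : TabsF) : FrameF repsF 276 F_1595.f :=
  frame_of rfl c_1595 (runs_of engOK r_1595_0) (by decide +kernel) h.2 h.2

def F_1596 : FrX :=
  ⟨0x1001040012008080000e0084080041000810100004200802400140010102000003200024202020024000480040004880000400150102000005c100030090,
    0xa3, 1, 0x3254618398a6, 6,
    [(0xa3, 1), (0x207584a6, 4), (0x10547693, 4), (0x647593a8, 4), (0x10547693, 4), (0x216485a7, 4), (0x208693a4, 4), (0x647593a8, 4), (0x208693a4, 4), (0x106574a8, 4), (0x647593a8, 4), (0x216485a7, 4)],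
    [(0x3254618398a6, 6), (0x307495a8, 4), (0x215460a7, 4), (0x217498a5, 4), (0x215460a7, 4), (0x638794a5, 4), (0x213085a9, 4), (0x217498a5, 4), (0x213085a9, 4), (0x607598a4, 4), (0x217498a5, 4), (0x638794a5, 4)]⟩

def c_1596 : frmChk tB tB F_1596 = true := by decide +kernel

def r_1596_0 : chkL rootF engF2 tB tB sB_276 sB_276 4 F_1596 [(255, 0, 0), (256, 0, 18)]
    0x417 = true := by
  decide +kernel

def r_1596_1 : chkL rootF engF2 tB tB sB_276 sB_276 4 F_1596 [(256, 18, 0)]
    0x103c0f = true := by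
  decide +kernel

theorem f_1596 (h : TabsF) : FrameF repsF 276 F_1596.f :=
  frame_of rfl c_1596 ((runs_of engOK r_1596_0).append (runs_of engOK r_1596_1)) (by decide +kernel) h.2 h.2

def F_1597 : FrX :=
  ⟨0x1001040012008080000e00840800410008101000042008100108022002000080440202060000404040061810040400202100800818004408100006002001,
    0xa3, 1, 0x2040637091a4, 6,
    [(0xa3, 1), (0x207584a6, 4), (0x10547693, 4), (0x647593a8, 4), (0x10547693, 4), (0x216485a7, 4), (0x208693a4, 4), (0x647593a8, 4), (0x208693a4, 4), (0x106574a8, 4), (0x647593a8, 4), (0x216485a7, 4)],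
    [(0x2040637091a4, 6), (0x546370a8, 4), (0x214397a5, 4), (0x215486a3, 4), (0x214397a5, 4), (0x648590a3, 4), (0x217083a6, 4), (0x215486a3, 4), (0x217083a6, 4), (0x538697a4, 4), (0x215486a3, 4), (0x648590a3, 4)]⟩

def c_1597 : frmChk tB tB F_1597 = true := by decide +kernel

def r_1597_0 : chkL rootF engF2 tB tB sB_276 sB_276 4 F_1597 [(255, 0, 0), (256, 0, 18)]
    0x1 = true := by
  decide +kernel

def r_1597_1 : chkL rootF engF2 tB tB sB_276 sB_276 4 F_1597 [(256, 18, 23)]
    0x43506c2b = true := by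
  decide +kernel

def r_1597_2 : chkL rootF engF2 tB tB sB_276 sB_276 4 F_1597 [(256, 41, 0)]
    0x1 = true := by
  decide +kernel

theorem f_1597 (h : TabsF) : FrameF repsF 276 F_1597.f :=
  frame_of rfl c_1597 ((runs_of engOK r_1597_0).append ((runs_of engOK r_1597_1).append (runs_of engOK r_1597_2))) (by decide +kernel) h.2 h.2

theorem cl_276 (h : TabsF) : ∀ f ∈ fr_276, FrameF repsF 276 f :=
  List.forall_mem_cons.2 ⟨f_1570 h, List.forall_mem_cons.2 ⟨f_1571 h, List.forall_mem_cons.2 ⟨f_1572 h, List.forall_mem_cons.2 ⟨f_1573 h, List.forall_mem_cons.2 ⟨f_1574 h, List.forall_mem_cons.2 ⟨f_1575 h, List.forall_mem_cons.2 ⟨f_1576 h, List.forall_mem_cons.2 ⟨f_1577 h, List.forall_mem_cons.2 ⟨f_1578 h, List.forall_mem_cons.2 ⟨f_1579 h, List.forall_mem_cons.2 ⟨f_1580 h, List.forall_mem_cons.2 ⟨f_1581 h, List.forall_mem_cons.2 ⟨f_1582 h, List.forall_mem_cons.2 ⟨f_1583 h, List.forall_mem_cons.2 ⟨f_1584 h, List.forall_mem_cons.2 ⟨f_1585 h, List.forall_mem_cons.2 ⟨f_1586 h, List.forall_mem_cons.2 ⟨f_1587 h,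 List.forall_mem_cons.2 ⟨f_1588 h, List.forall_mem_cons.2 ⟨f_1589 h, List.forall_mem_cons.2 ⟨f_1590 h, List.forall_mem_cons.2 ⟨f_1591 h, List.forall_mem_cons.2 ⟨f_1592 h, List.forall_mem_cons.2 ⟨f_1593 h, List.forall_mem_cons.2 ⟨f_1594 h, List.forall_mem_cons.2 ⟨f_1595 h, List.forall_mem_cons.2 ⟨f_1596 h, List.forall_mem_cons.2 ⟨f_1597 h,
    fun _ h0 => absurd h0 List.not_mem_nil⟩⟩⟩⟩⟩⟩⟩⟩⟩⟩⟩⟩⟩⟩⟩⟩⟩⟩⟩⟩⟩⟩⟩⟩⟩⟩⟩⟩

def F_1598 : FrX :=
  ⟨0x482000044040440000c2040020009000182040000820218008100008010110010200410020080200800420940010040240005010100120004002800068,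
    0xa0, 1, 0x324151627483a0, 7,
    [(0xa0, 1), (0x538690a2, 4), (0x548790a1, 4), (0x21437690, 4), (0x538690a2, 4), (0x548790a1, 4)],
    [(0x324151627483a0, 7), (0x328490a6, 4), (0x217490a5, 4), (0x31658790, 4), (0x328490a6, 4), (0x217490a5, 4)]⟩

def c_1598 : frmChk tA tA F_1598 = true := by decide +kernel

def r_1598_0 : chkL rootF engF2 tA tA sA_277 sA_277 4 F_1598 [(511, 0, 0)]
    0x10781e0782ec900f06ca60e5254549906c3a = true := by
  decide +kernel

theorem f_1598 (h : TabsF) : FrameF repsF 277 F_1598.f :=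
  frame_of rfl c_1598 (runs_of engOK r_1598_0) (by decide +kernel) h.1 h.1

def F_1599 : FrX :=
  ⟨0x80080a000804040e00002101002001000002040882200002090034000002208010012000c0001141000008108208204000400100500040c000904410010,
    0xa6, 1, 0x3040547198a4, 6,
    [(0xa6, 1), (0x205396a8, 4), (0x10548796, 4), (0x214396a7, 4), (0x205396a8, 4), (0x10548796, 4)],
    [(0x3040547198a4, 6), (0x314260a9, 4), (0x617485a3, 4), (0x318590a6, 4), (0x617485a3, 4), (0x107293a6, 4), (0x428596a0, 4), (0x318590a6, 4), (0x428596a0, 4), (0x637490a1, 4), (0x318590a6, 4), (0x107293a6, 4)]⟩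

def c_1599 : frmChk tA tB F_1599 = true := by decide +kernel

def r_1599_0 : chkL rootF engF2 tA tB sA_277 sB_277 4 F_1599 [(511, 0, 0)]
    0x11341d03c1d0ac2b0740f0b94906c4d = true := by
  decide +kernel

theorem f_1599 (h : TabsF) : FrameF repsF 277 F_1599.f :=
  frame_of rfl c_1599 (runs_of engOK r_1599_0) (by decide +kernel) h.1 h.2

def F_1600 : FrX :=
  ⟨0x80080a000804040e00002101002001000002040881011001004400820480000004121020008005120001001044100108002090002000801100a48400200,
    0xa6, 1, 0x42718494a3, 5,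
    [(0xa6, 1), (0x205396a8, 4), (0x10548796, 4), (0x214396a7, 4), (0x205396a8, 4), (0x10548796, 4)],
    [(0x42718494a3, 5), (0x406283a5, 4), (0x21708395, 4), (0x617483a9, 4), (0x406283a5, 4), (0x21708395, 4)]⟩

def c_1600 : frmChk tA tA F_1600 = true := by decide +kernel

def r_1600_0 : chkL rootF engF2 tA tA sA_277 sA_277 4 F_1600 [(511, 0, 0)]
    0x45309c4e06c4e = true := by
  decide +kernel

theorem f_1600 (h : TabsF) : FrameF repsF 277 F_1600.f :=
  frame_of rfl c_1600 (runs_of engOK r_1600_0) (by decide +kernel) h.1 h.1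

def F_1601 : FrX :=
  ⟨0x2002000900044004000e020410001410008000408010010210080220020001802001280101000042040404208c001000a0400200110010202000a0008104,
    0xa3, 1, 0x3254658091a4, 6,
    [(0xa3, 1), (0x208693a5, 4), (0x10548793, 4), (0x217693a4, 4), (0x208693a5, 4), (0x10548793, 4)],
    [(0x3254658091a4, 6), (0x40516283, 4), (0x517098a6, 4), (0x517493a2, 4), (0x40516283, 4), (0x517098a6, 4)]⟩

def c_1601 : frmChk tA tA F_1601 = true := by decide +kernel

def r_1601_0 : chkL rootF engF2 tA tA sA_277 sA_277 4 F_1601 [(511, 0, 0)]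
    0x41703c2d0741e05c3a6892a254631708b2716815691c26836638105e92a880f0cc0f8a8170cc330cc3a0e827 = true := by
  decide +kernel

theorem f_1601 (h : TabsF) : FrameF repsF 277 F_1601.f :=
  frame_of rfl c_1601 (runs_of engOK r_1601_0) (by decide +kernel) h.1 h.1

def F_1602 : FrX :=
  ⟨0x80080a000804040e00002101002001000002040890011204008004020440002000404050000085000041000942002048100081010000420204029080080,
    0xa6, 1, 0x3143537482a6, 6,
    [(0xa6, 1), (0x205396a8, 4), (0x10548796, 4), (0x214396a7, 4), (0x205396a8, 4), (0x10548796, 4)],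
    [(0x3143537482a6, 6), (0x417280a5, 4), (0x307496a1, 4), (0x415296a7, 4), (0x307496a1, 4), (0x425183a7, 4), (0x758096a2, 4), (0x415296a7, 4), (0x758096a2, 4), (0x305271a4, 4), (0x415296a7, 4), (0x425183a7, 4)]⟩

def c_1602 : frmChk tA tB F_1602 = true := by decide +kernel

def r_1602_0 : chkL rootF engF2 tA tB sA_277 sB_277 4 F_1602 [(255, 0, 0), (256, 0, 20)]
    0x41d09c1d06c560e42709c4d49b0649b06d087290e62d087290e62 = true := by
  decide +kernel

def r_1602_1 : chkL rootF engF2 tA tB sA_277 sB_277 4 F_1602 [(256, 20, 0)]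
    0x4592988d14c6318c710ac2e1c42ea1685 = true := by
  decide +kernel

theorem f_1602 (h : TabsF) : FrameF repsF 277 F_1602.f :=
  frame_of rfl c_1602 ((runs_of engOK r_1602_0).append (runs_of engOK r_1602_1)) (by decide +kernel) h.1 h.2

def F_1603 : FrX :=
  ⟨0x2002000900044004000e020410001410008000408080010020a022001000a2020002020040800042241001010c0000108080010041201000000804214300,
    0xa3, 1, 0x324253718698a6, 7,
    [(0xa3, 1), (0x208693a5, 4), (0x10548793, 4), (0x217693a4, 4), (0x208693a5, 4), (0x10548793, 4)],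
    [(0x324253718698a6, 7), (0x405286a9, 4), (0x32708691, 4), (0x537486a1, 4), (0x405286a9, 4), (0x32708691, 4)]⟩

def c_1603 : frmChk tA tA F_1603 = true := by decide +kernel

def r_1603_0 : chkL rootF engF2 tA tA sA_277 sA_277 4 F_1603 [(511, 0, 0)]
    0x4470d81703c5a = true := by
  decide +kernel

theorem f_1603 (h : TabsF) : FrameF repsF 277 F_1603.f :=
  frame_of rfl c_1603 (runs_of engOK r_1603_0) (by decide +kernel) h.1 h.1

def F_1604 : FrX :=
  ⟨0x482000044040440000c2040020009000182040002100404008020010000424800880800881005000080021108408100100002048100920040002200401,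
    0xa0, 1, 0x418491a2, 4,
    [(0xa0, 1), (0x538690a2, 4), (0x548790a1, 4), (0x21437690, 4), (0x538690a2, 4), (0x548790a1, 4)],
    [(0x418491a2, 4), (0x637581a0, 4), (0x42768590, 4), (0x31427586, 4), (0x42768590, 4), (0x517386a9, 4), (0x426183a0, 4), (0x31427586, 4), (0x426183a0, 4), (0x31658790, 4), (0x31427586, 4), (0x517386a9, 4)]⟩

def c_1604 : frmChk tA tB F_1604 = true := by decide +kernel

def r_1604_0 : chkL rootF engF2 tA tB sA_277 sB_277 4 F_1604 [(511, 0, 0)]
    0x105e190ac4e1381d81c274a8368581d22c270cc2712e0b0781b = true := by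
  decide +kernel

theorem f_1604 (h : TabsF) : FrameF repsF 277 F_1604.f :=
  frame_of rfl c_1604 (runs_of engOK r_1604_0) (by decide +kernel) h.1 h.2

def F_1605 : FrX :=
  ⟨0x2002000900044004000e02041000141000800040810000012810000110204050021100001004020212100182000050002280088080080808004002200084,
    0xa3, 1, 0x314150617496a0, 7,
    [(0xa3, 1), (0x208693a5, 4), (0x10548793, 4), (0x217693a4, 4), (0x208693a5, 4), (0x10548793, 4)],
    [(0x314150617496a0, 7), (0x308791a2, 4), (0x547093a6, 4), (0x30548197, 4), (0x547093a6, 4), (0x31628097, 4), (0x547198a2, 4), (0x30548197, 4), (0x547198a2, 4), (0x738190a6, 4), (0x30548197, 4), (0x31628097, 4)]⟩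

def c_1605 : frmChk tA tB F_1605 = true := by decide +kernel

def r_1605_0 : chkL rootF engF2 tA tB sA_277 sB_277 4 F_1605 [(511, 0, 0)]
    0x42b03c2b = true := by
  decide +kernel

theorem f_1605 (h : TabsF) : FrameF repsF 277 F_1605.f :=
  frame_of rfl c_1605 (runs_of engOK r_1605_0) (by decide +kernel) h.1 h.2

def F_1606 : FrX :=
  ⟨0x2002000900044004000e020410001410008000408008020800a0004100080181040808010080020400a00031014000040300881010049000400040081001,
    0xa3, 1, 0x20325062728794a0, 8,
    [(0xa3, 1), (0x208693a5, 4), (0x10548793, 4), (0x217693a4, 4), (0x208693a5, 4), (0x10548793, 4)],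
    [(0x20325062728794a0, 8), (0x205463a7, 4), (0x548692a1, 4), (0x54718390, 4), (0x205463a7, 4), (0x548692a1, 4)]⟩

def c_1606 : frmChk tA tA F_1606 = true := by decide +kernel

def r_1606_0 : chkL rootF engF2 tA tA sA_277 sA_277 4 F_1606 [(511, 0, 0)]
    0x12e01e = true := by
  decide +kernel

theorem f_1606 (h : TabsF) : FrameF repsF 277 F_1606.f :=
  frame_of rfl c_1606 (runs_of engOK r_1606_0) (by decide +kernel) h.1 h.1

def F_1607 : FrX :=
  ⟨0x80080a000804040e00002101002001000002040882010801008400008220200022011001024000112010080084042400204008022010208002024084000,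
    0xa6, 1, 0x325061708490a6, 7,
    [(0xa6, 1), (0x205396a8, 4), (0x10548796, 4), (0x214396a7, 4), (0x205396a8, 4), (0x10548796, 4)],
    [(0x325061708490a6, 7), (0x207193a4, 4), (0x54718096, 4), (0x637182a5, 4), (0x207193a4, 4), (0x54718096, 4)]⟩

def c_1607 : frmChk tA tA F_1607 = true := by decide +kernel

def r_1607_0 : chkL rootF engF2 tA tA sA_277 sA_277 4 F_1607 [(255, 0, 0), (256, 0, 22)]
    0x42da171221c2da0c87a0c4d1354c3441bb405c06c2d0b45305c1b = true := by
  decide +kernel

def r_1607_1 : chkL rootF engF2 tA tA sA_277 sA_277 4 F_1607 [(256, 22, 0)]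
    0x41e0ce0bc0c3906d49434173480f = true := by
  decide +kernel

theorem f_1607 (h : TabsF) : FrameF repsF 277 F_1607.f :=
  frame_of rfl c_1607 ((runs_of engOK r_1607_0).append (runs_of engOK r_1607_1)) (by decide +kernel) h.1 h.1

def F_1608 : FrX :=
  ⟨0x482000044040440000c204002000900018204000048101010120008002010200a000410080040400020404a020080080400a0110200302100010800401,
    0xa0, 1, 0x10215180a2, 5,
    [(0xa0, 1), (0x538690a2, 4), (0x548790a1, 4), (0x21437690, 4), (0x538690a2, 4), (0x548790a1, 4)],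
    [(0x10215180a2, 5), (0x416372a8, 4), (0x42768590, 4), (0x31647290, 4), (0x42768590, 4), (0x216473a5, 4), (0x436190a8, 4), (0x31647290, 4), (0x436190a8, 4), (0x31627485, 4), (0x31647290, 4), (0x216473a5, 4)]⟩

def c_1608 : frmChk tA tB F_1608 = true := by decide +kernel

def r_1608_0 : chkL rootF engF2 tA tB sA_277 sB_277 4 F_1608 [(511, 0, 0)]
    0x42e0ac4b074171d0664a41d0741e077c00b81e = true := by
  decide +kernel

theorem f_1608 (h : TabsF) : FrameF repsF 277 F_1608.f :=
  frame_of rfl c_1608 (runs_of engOK r_1608_0) (by decide +kernel) h.1 h.2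

def F_1609 : FrX :=
  ⟨0x2002000900044004000e020410001410008000408004004840012040008800410008022008220810202000804040600090002a0010800200300220080080,
    0xa3, 1, 0x21304350718593a0, 8,
    [(0xa3, 1), (0x208693a5, 4), (0x10548793, 4), (0x217693a4, 4), (0x208693a5, 4), (0x10548793, 4)],
    [(0x21304350718593a0, 8), (0x546398a1, 4), (0x325480a7, 4), (0x54627190, 4), (0x546398a1, 4), (0x325480a7, 4)]⟩

def c_1609 : frmChk tA tA F_1609 = true := by decide +kernel

def r_1609_0 : chkL rootF engF2 tA tA sA_277 sA_277 4 F_1609 [(511, 0, 0)]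
    0x45916427344d10ac2b03c3918c2b234a5 = true := by
  decide +kernel

theorem f_1609 (h : TabsF) : FrameF repsF 277 F_1609.f :=
  frame_of rfl c_1609 (runs_of engOK r_1609_0) (by decide +kernel) h.1 h.1

def F_1610 : FrX :=
  ⟨0x80080a000804040e0000210100200100000204088048080041002080880008200108040088202022000820040804100a100042010008040202004442000,
    0xa6, 1, 0x61768390a3, 5,
    [(0xa6, 1), (0x205396a8, 4), (0x10548796, 4), (0x214396a7, 4), (0x205396a8, 4), (0x10548796, 4)],
    [(0x61768390a3, 5), (0x435192a7, 4), (0x54718096, 4), (0x517480a3, 4), (0x54718096, 4), (0x536274a1, 4), (0x738092a4, 4), (0x517480a3, 4), (0x738092a4, 4), (0x417596a3, 4), (0x517480a3, 4), (0x536274a1, 4)]⟩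

def c_1610 : frmChk tA tB F_1610 = true := by decide +kernel

def r_1610_0 : chkL rootF engF2 tA tB sA_277 sB_277 4 F_1610 [(511, 0, 0)]
    0x10ac47a442e2a50e13529c844b = true := by
  decide +kernel

theorem f_1610 (h : TabsF) : FrameF repsF 277 F_1610.f :=
  frame_of rfl c_1610 (runs_of engOK r_1610_0) (by decide +kernel) h.1 h.2

def F_1611 : FrX :=
  ⟨0x1c40440000080810000008400804100001010840422001000100200100010404402120012000080201010101084080200ea004000a000c8004000020c00,
    0x0, 0, 0x53657485, 4,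
    [(0x0, 0), (0x20637584, 4), (0x105476a9, 4), (0x647583a9, 4), (0x105476a9, 4), (0x21647385, 4), (0x204386a9, 4), (0x647583a9, 4), (0x204386a9, 4), (0x10657483, 4), (0x647583a9, 4), (0x21647385, 4)],
    [(0x53657485, 4), (0x206385a9, 4), (0x106487a9, 4), (0x214375a9, 4), (0x206385a9, 4), (0x106487a9, 4)]⟩

def c_1611 : frmChk tB tA F_1611 = true := by decide +kernel

def r_1611_0 : chkL rootF engF2 tB tA sB_277 sA_277 4 F_1611 [(255, 0, 0), (256, 0, 8)]
    0x4710b466 = true := by
  decide +kernel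

def r_1611_1 : chkL rootF engF2 tB tA sB_277 sA_277 4 F_1611 [(256, 8, 4)]
    0x49a = true := by
  decide +kernel

def r_1611_2 : chkL rootF engF2 tB tA sB_277 sA_277 4 F_1611 [(256, 12, 13)]
    0x106c1d12c4e = true := by
  decide +kernel

def r_1611_3 : chkL rootF engF2 tB tA sB_277 sA_277 4 F_1611 [(256, 25, 4)]
    0x1 = true := by
  decide +kernel

def r_1611_4 : chkL rootF engF2 tB tA sB_277 sA_277 4 F_1611 [(256, 29, 0)]
    0x10f017 = true := by
  decide +kernel

theorem f_1611 (h : TabsF) : FrameF repsF 277 F_1611.f :=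
  frame_of rfl c_1611 ((runs_of engOK r_1611_0).append ((runs_of engOK r_1611_1).append ((runs_of engOK r_1611_2).append ((runs_of engOK r_1611_3).append (runs_of engOK r_1611_4))))) (by decide +kernel) h.2 h.1

def F_1612 : FrX :=
  ⟨0x600020801080810000c00401804101010010040100100480000014404408080048001020002201400024004002104002800a0400204a00500040400042,
    0xa0, 1, 0x10305262718396a0, 8,
    [(0xa0, 1), (0x637584a2, 4), (0x547690a1, 4), (0x64758390, 4), (0x547690a1, 4), (0x21647385, 4), (0x438690a2, 4), (0x64758390, 4), (0x438690a2, 4), (0x657483a1, 4), (0x64758390, 4), (0x21647385, 4)],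
    [(0x10305262718396a0, 8), (0x538291a6, 4), (0x104253a7, 4), (0x53768490, 4), (0x538291a6, 4), (0x104253a7, 4)]⟩

def c_1612 : frmChk tB tA F_1612 = true := by decide +kernel

def r_1612_0 : chkL rootF engF2 tB tA sB_277 sA_277 4 F_1612 [(511, 0, 0)]
    0x11344b1704b139490781b0cc1b28c39 = true := by
  decide +kernel

theorem f_1612 (h : TabsF) : FrameF repsF 277 F_1612.f :=
  frame_of rfl c_1612 (runs_of engOK r_1612_0) (by decide +kernel) h.2 h.1

def F_1613 : FrX :=
  ⟨0x600020801080810000c0040180410101001004010100004403010020104002080020400800810200404100880008412100090100200028000c00210108,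
    0xa0, 1, 0x5364708797a0, 6,
    [(0xa0, 1), (0x637584a2, 4), (0x547690a1, 4), (0x64758390, 4), (0x547690a1, 4), (0x21647385, 4), (0x438690a2, 4), (0x64758390, 4), (0x438690a2, 4), (0x657483a1, 4), (0x64758390, 4), (0x21647385, 4)],
    [(0x5364708797a0, 6), (0x546093a2, 4), (0x638794a1, 4), (0x50648793, 4), (0x638794a1, 4), (0x21306495, 4), (0x406587a2, 4), (0x50648793, 4), (0x406587a2, 4), (0x435096a1, 4), (0x50648793, 4), (0x21306495, 4)]⟩

def c_1613 : frmChk tB tB F_1613 = true := by decide +kernel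

def r_1613_0 : chkL rootF engF2 tB tB sB_277 sB_277 4 F_1613 [(511, 0, 0)]
    0x4651c42b0ac360db0392b41 = true := by
  decide +kernel

theorem f_1613 (h : TabsF) : FrameF repsF 277 F_1613.f :=
  frame_of rfl c_1613 (runs_of engOK r_1613_0) (by decide +kernel) h.2 h.2

def F_1614 : FrX :=
  ⟨0x1c4044000008081000000840080410000101084042200100001081000020800804101102020200040022400022220040008020408a20700180040800200,
    0x0, 0, 0x21546487, 4,
    [(0x0, 0), (0x20637584, 4), (0x105476a9, 4), (0x647583a9, 4), (0x105476a9, 4), (0x21647385, 4), (0x204386a9, 4), (0x647583a9, 4), (0x204386a9, 4), (0x10657483, 4), (0x647583a9, 4), (0x21647385, 4)],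
    [(0x21546487, 4), (0x104375a9, 4), (0x206487a9, 4), (0x216385a9, 4), (0x104375a9, 4), (0x206487a9, 4)]⟩

def c_1614 : frmChk tB tA F_1614 = true := by decide +kernel

def r_1614_0 : chkL rootF engF2 tB tA sB_277 sA_277 4 F_1614 [(255, 0, 0), (256, 0, 6)]
    0x1 = true := by
  decide +kernel

def r_1614_1 : chkL rootF engF2 tB tA sB_277 sA_277 4 F_1614 [(256, 6, 6)]
    0x478 = true := by
  decide +kernel

def r_1614_2 : chkL rootF engF2 tB tA sB_277 sA_277 4 F_1614 [(256, 12, 13)]
    0x1078cc = true := by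
  decide +kernel

def r_1614_3 : chkL rootF engF2 tB tA sB_277 sA_277 4 F_1614 [(256, 25, 4)]
    0x106c2b = true := by
  decide +kernel

def r_1614_4 : chkL rootF engF2 tB tA sB_277 sA_277 4 F_1614 [(256, 29, 0)]
    0x10781b = true := by
  decide +kernel

theorem f_1614 (h : TabsF) : FrameF repsF 277 F_1614.f :=
  frame_of rfl c_1614 ((runs_of engOK r_1614_0).append ((runs_of engOK r_1614_1).append ((runs_of engOK r_1614_2).append ((runs_of engOK r_1614_3).append (runs_of engOK r_1614_4))))) (by decide +kernel) h.2 h.1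

def F_1615 : FrX :=
  ⟨0x1001040012008080000e00840800410008101000042008024020600004080080048202001200008820001012000400420062204002200088082001000c40,
    0xa3, 1, 0x32425063718797a3, 8,
    [(0xa3, 1), (0x207584a6, 4), (0x10547693, 4), (0x647593a8, 4), (0x10547693, 4), (0x216485a7, 4), (0x208693a4, 4), (0x647593a8, 4), (0x208693a4, 4), (0x106574a8, 4), (0x647593a8, 4), (0x216485a7, 4)],
    [(0x32425063718797a3, 8), (0x315490a2, 4), (0x30758692, 4), (0x328690a1, 4), (0x30758692, 4), (0x103274a9, 4), (0x215486a3, 4), (0x328690a1, 4), (0x215486a3, 4), (0x207593a1, 4), (0x328690a1, 4), (0x103274a9, 4)]⟩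

def c_1615 : frmChk tB tB F_1615 = true := by decide +kernel

def r_1615_0 : chkL rootF engF2 tB tB sB_277 sB_277 4 F_1615 [(511, 0, 0)]
    0x106d26 = true := by
  decide +kernel

theorem f_1615 (h : TabsF) : FrameF repsF 277 F_1615.f :=
  frame_of rfl c_1615 (runs_of engOK r_1615_0) (by decide +kernel) h.2 h.2

def F_1616 : FrX :=
  ⟨0x482000044040440000c2040020009000182040010080080108000084014044220400001001080120000440802010408080091042210200101002000082,
    0xa0, 1, 0x2131405364768290a6, 9,
    [(0xa0, 1), (0x538690a2, 4), (0x548790a1, 4), (0x21437690, 4), (0x538690a2, 4), (0x548790a1, 4)],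
    [(0x2131405364768290a6, 9), (0x527498a1, 4), (0x10627493, 4), (0x657483a0, 4), (0x527498a1, 4), (0x10627493, 4)]⟩

def c_1616 : frmChk tA tA F_1616 = true := by decide +kernel

def r_1616_0 : chkL rootF engF2 tA tA sA_277 sA_277 4 F_1616 [(511, 0, 0)]
    0x41e078a503c5603c330cc360d80f = true := by
  decide +kernel

theorem f_1616 (h : TabsF) : FrameF repsF 277 F_1616.f :=
  frame_of rfl c_1616 (runs_of engOK r_1616_0) (by decide +kernel) h.1 h.1

def F_1617 : FrX :=
  ⟨0x482000044040440000c20400200090001820400100200820010001800801078000000408040410100000304080108400800801101080a0014120000084,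
    0xa0, 1, 0x21638695a3, 5,
    [(0xa0, 1), (0x538690a2, 4), (0x548790a1, 4), (0x21437690, 4), (0x538690a2, 4), (0x548790a1, 4)],
    [(0x21638695a3, 5), (0x104397a8, 4), (0x20658794, 4), (0x658497a3, 4), (0x20658794, 4), (0x218493a7, 4), (0x106583a4, 4), (0x658497a3, 4), (0x106583a4, 4), (0x207498a3, 4), (0x658497a3, 4), (0x218493a7, 4)]⟩

def c_1617 : frmChk tA tB F_1617 = true := by decide +kernel

def r_1617_0 : chkL rootF engF2 tA tB sA_277 sB_277 4 F_1617 [(511, 0, 0)]
    0x105c4e = true := by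
  decide +kernel

theorem f_1617 (h : TabsF) : FrameF repsF 277 F_1617.f :=
  frame_of rfl c_1617 (runs_of engOK r_1617_0) (by decide +kernel) h.1 h.2

def F_1618 : FrX :=
  ⟨0x1c21020000040440000020410001010000820408a0001100000400110202100008214000024040410800200088060c002480180010100004040a0680000,
    0x0, 0, 0x206483, 3,
    [(0x0, 0), (0x205386a9, 4), (0x105487a9, 4), (0x214376a9, 4), (0x205386a9, 4), (0x105487a9, 4)],
    [(0x206483, 3), (0x204385a9, 4), (0x216573a9, 4), (0x107486a9, 4), (0x204385a9, 4), (0x216573a9, 4)]⟩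

def c_1618 : frmChk tA tA F_1618 = true := by decide +kernel

def r_1618_0 : chkL rootF engF2 tA tA sA_277 sA_277 4 F_1618 [(255, 0, 0), (256, 0, 5)]
    0x417 = true := by
  decide +kernel

def r_1618_1 : chkL rootF engF2 tA tA sA_277 sA_277 4 F_1618 [(256, 5, 17)]
    0x63182f03c26a188c690d6859469485a94868b4951459446986ad0 = true := by
  decide +kernel

def r_1618_2 : chkL rootF engF2 tA tA sA_277 sA_277 4 F_1618 [(256, 22, 6)]
    0x116a16 = true := by
  decide +kernel

def r_1618_3 : chkL rootF engF2 tA tA sA_277 sA_277 4 F_1618 [(256, 28, 5)]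
    0x106c471684b = true := by
  decide +kernel

def r_1618_4 : chkL rootF engF2 tA tA sA_277 sA_277 4 F_1618 [(256, 33, 5)]
    0x1 = true := by
  decide +kernel

def r_1618_5 : chkL rootF engF2 tA tA sA_277 sA_277 4 F_1618 [(256, 38, 0)]
    0x1 = true := by
  decide +kernel

theorem f_1618 (h : TabsF) : FrameF repsF 277 F_1618.f :=
  frame_of rfl c_1618 ((runs_of engOK r_1618_0).append ((runs_of engOK r_1618_1).append ((runs_of engOK r_1618_2).append ((runs_of engOK r_1618_3).append ((runs_of engOK r_1618_4).append (runs_of engOK r_1618_5)))))) (by decide +kernel) h.1 h.1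

def F_1619 : FrX :=
  ⟨0x80080a000804040e00002101002001000002040890020001410018008204004020011010000031000028000828001140024003004001021046080808000,
    0xa6, 1, 0x32417095a8, 5,
    [(0xa6, 1), (0x205396a8, 4), (0x10548796, 4), (0x214396a7, 4), (0x205396a8, 4), (0x10548796, 4)],
    [(0x32417095a8, 5), (0x627390a1, 4), (0x60748591, 4), (0x618590a2, 4), (0x60748591, 4), (0x204361a9, 4), (0x217385a6, 4), (0x618590a2, 4), (0x217385a6, 4), (0x107496a2, 4), (0x618590a2, 4), (0x204361a9, 4)]⟩

def c_1619 : frmChk tA tB F_1619 = true := by decide +kernel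

def r_1619_0 : chkL rootF engF2 tA tB sA_277 sB_277 4 F_1619 [(511, 0, 0)]
    0x4aca17816282706c1b = true := by
  decide +kernel

theorem f_1619 (h : TabsF) : FrameF repsF 277 F_1619.f :=
  frame_of rfl c_1619 (runs_of engOK r_1619_0) (by decide +kernel) h.1 h.2

def F_1620 : FrX :=
  ⟨0x2002000900044004000e0204100014100080004080040204040240020081080000408805010001020210000a016004040201011001200000404042210200,
    0xa3, 1, 0x2032536295a1, 6,
    [(0xa3, 1), (0x208693a5, 4), (0x10548793, 4), (0x217693a4, 4), (0x208693a5, 4), (0x10548793, 4)],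
    [(0x2032536295a1, 6), (0x53628497, 4), (0x107394a2, 4), (0x10438597, 4), (0x107394a2, 4), (0x437598a6, 4), (0x10546283, 4), (0x10438597, 4), (0x10546283, 4), (0x748593a2, 4), (0x10438597, 4), (0x437598a6, 4)]⟩

def c_1620 : frmChk tA tB F_1620 = true := by decide +kernel

def r_1620_0 : chkL rootF engF2 tA tB sA_277 sB_277 4 F_1620 [(255, 0, 0), (256, 0, 17)]
    0x42709c1714d3203c1e0788d2704e09c9c09c1b0ac27 = true := by
  decide +kernel

def r_1620_1 : chkL rootF engF2 tA tB sA_277 sB_277 4 F_1620 [(256, 17, 21)]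
    0x1529892c4350ac47 = true := by
  decide +kernel

def r_1620_2 : chkL rootF engF2 tA tB sA_277 sB_277 4 F_1620 [(256, 38, 0)]
    0x1 = true := by
  decide +kernel

theorem f_1620 (h : TabsF) : FrameF repsF 277 F_1620.f :=
  frame_of rfl c_1620 ((runs_of engOK r_1620_0).append ((runs_of engOK r_1620_1).append (runs_of engOK r_1620_2))) (by decide +kernel) h.1 h.2

def F_1621 : FrX :=
  ⟨0x80080a000804040e000021010020010000020408820802001014002084400000410120200040040100484a0404000801001101080010080414104000082,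
    0xa6, 1, 0x1021324264718595a0, 9,
    [(0xa6, 1), (0x205396a8, 4), (0x10548796, 4), (0x214396a7, 4), (0x205396a8, 4), (0x10548796, 4)],
    [(0x1021324264718595a0, 9), (0x538190a4, 4), (0x528196a7, 4), (0x32607481, 4), (0x538190a4, 4), (0x528196a7, 4)]⟩

def c_1621 : frmChk tA tA F_1621 = true := by decide +kernel

def r_1621_0 : chkL rootF engF2 tA tA sA_277 sA_277 4 F_1621 [(511, 0, 0)]
    0x144c1d0d80f928560d81e03c5303e0d8c85306e0d = true := by
  decide +kernel

theorem f_1621 (h : TabsF) : FrameF repsF 277 F_1621.f :=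
  frame_of rfl c_1621 (runs_of engOK r_1621_0) (by decide +kernel) h.1 h.1

def F_1622 : FrX :=
  ⟨0x2002000900044004000e02041000141000800040810000082a00802402004080140020004004005010040030408002800082080022001000411202002082,
    0xa3, 1, 0x435165a4, 4,
    [(0xa3, 1), (0x208693a5, 4), (0x10548793, 4), (0x217693a4, 4), (0x208693a5, 4), (0x10548793, 4)],
    [(0x435165a4, 4), (0x204176a8, 4), (0x507193a6, 4), (0x768493a1, 4), (0x507193a6, 4), (0x527486a1, 4), (0x208193a4, 4), (0x768493a1, 4), (0x208193a4, 4), (0x506184a7, 4), (0x768493a1, 4), (0x527486a1, 4)]⟩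

def c_1622 : frmChk tA tB F_1622 = true := by decide +kernel

def r_1622_0 : chkL rootF engF2 tA tB sA_277 sB_277 4 F_1622 [(511, 0, 0)]
    0x1238992680f1c81d0741d5285915654a0d8ae08471380f03c27 = true := by
  decide +kernel

theorem f_1622 (h : TabsF) : FrameF repsF 277 F_1622.f :=
  frame_of rfl c_1622 (runs_of engOK r_1622_0) (by decide +kernel) h.1 h.2

def F_1623 : FrX :=
  ⟨0x1001040012008080000e00840800410008101000040420028001208000180004040001510104200800030030080820420000086400804000444003002000,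
    0xa3, 1, 0x43538598a1, 5,
    [(0xa3, 1), (0x207584a6, 4), (0x10547693, 4), (0x647593a8, 4), (0x10547693, 4), (0x216485a7, 4), (0x208693a4, 4), (0x647593a8, 4), (0x208693a4, 4), (0x106574a8, 4), (0x647593a8, 4), (0x216485a7, 4)],
    [(0x43538598a1, 5), (0x20418596, 4), (0x418397a0, 4), (0x415376a2, 4), (0x20418596, 4), (0x418397a0, 4)]⟩

def c_1623 : frmChk tB tA F_1623 = true := by decide +kernel

def r_1623_0 : chkL rootF engF2 tB tA sB_277 sA_277 4 F_1623 [(511, 0, 0)]
    0x11e053 = true := by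
  decide +kernel

theorem f_1623 (h : TabsF) : FrameF repsF 277 F_1623.f :=
  frame_of rfl c_1623 (runs_of engOK r_1623_0) (by decide +kernel) h.2 h.1

def F_1624 : FrX :=
  ⟨0x1001040012008080000e008408004100081010000480100080a0018004020802420000202202020808004006003000410010801408200300101000800280,
    0xa3, 1, 0x30415362758292a3, 8,
    [(0xa3, 1), (0x207584a6, 4), (0x10547693, 4), (0x647593a8, 4), (0x10547693, 4), (0x216485a7, 4), (0x208693a4, 4), (0x647593a8, 4), (0x208693a4, 4), (0x106574a8, 4), (0x647593a8, 4), (0x216485a7, 4)],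
    [(0x30415362758292a3, 8), (0x617093a2, 4), (0x20437185, 4), (0x217085a6, 4), (0x20437185, 4), (0x217694a0, 4), (0x628593a1, 4), (0x217085a6, 4), (0x628593a1, 4), (0x104372a6, 4), (0x217085a6, 4), (0x217694a0, 4)]⟩

def c_1624 : frmChk tB tB F_1624 = true := by decide +kernel

def r_1624_0 : chkL rootF engF2 tB tB sB_277 sB_277 4 F_1624 [(511, 0, 0)]
    0x103c1703c3906d4609f0305f42328cc06c1e1981705d4609f0305f42328cc06c1706c1e = true := by
  decide +kernel

theorem f_1624 (h : TabsF) : FrameF repsF 277 F_1624.f :=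
  frame_of rfl c_1624 (runs_of engOK r_1624_0) (by decide +kernel) h.2 h.2

def F_1625 : FrX :=
  ⟨0x80080a000804040e000021010020010000020408806000044040900000800820220204014000800208008008800504010000580230009003000c0202000,
    0xa6, 1, 0x314253728097a3, 7,
    [(0xa6, 1), (0x205396a8, 4), (0x10548796, 4), (0x214396a7, 4), (0x205396a8, 4), (0x10548796, 4)],
    [(0x314253728097a3, 7), (0x208791a6, 4), (0x21548396, 4), (0x546291a0, 4), (0x21548396, 4), (0x106273a9, 4), (0x546087a2, 4), (0x546291a0, 4), (0x546087a2, 4), (0x618392a0, 4), (0x546291a0, 4), (0x106273a9, 4)]⟩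

def c_1625 : frmChk tA tB F_1625 = true := by decide +kernel

def r_1625_0 : chkL rootF engF2 tA tB sA_277 sB_277 4 F_1625 [(511, 0, 0)]
    0x4172340f03c5c0780f09c2e = true := by
  decide +kernel

theorem f_1625 (h : TabsF) : FrameF repsF 277 F_1625.f :=
  frame_of rfl c_1625 (runs_of engOK r_1625_0) (by decide +kernel) h.1 h.2

theorem cl_277 (h : TabsF) : ∀ f ∈ fr_277, FrameF repsF 277 f :=
  List.forall_mem_cons.2 ⟨f_1598 h, List.forall_mem_cons.2 ⟨f_1599 h, List.forall_mem_cons.2 ⟨f_1600 h, List.forall_mem_cons.2 ⟨f_1601 h, List.forall_mem_cons.2 ⟨f_1602 h, List.forall_mem_cons.2 ⟨f_1603 h, List.forall_mem_cons.2 ⟨f_1604 h, List.forall_mem_cons.2 ⟨f_1605 h, List.forall_mem_cons.2 ⟨f_1606 h, List.forall_mem_cons.2 ⟨f_1607 h, List.forall_mem_cons.2 ⟨f_1608 h, List.forall_mem_cons.2 ⟨f_1609 h, List.forall_mem_cons.2 ⟨f_1610 h, List.forall_mem_cons.2 ⟨f_1611 h, List.forall_mem_cons.2 ⟨f_1612 h, List.forall_mem_cons.2 ⟨f_1613 h, List.forall_mem_cons.2 ⟨f_1614 h, List.forall_mem_cons.2 ⟨f_1615 h,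 List.forall_mem_cons.2 ⟨f_1616 h, List.forall_mem_cons.2 ⟨f_1617 h, List.forall_mem_cons.2 ⟨f_1618 h, List.forall_mem_cons.2 ⟨f_1619 h, List.forall_mem_cons.2 ⟨f_1620 h, List.forall_mem_cons.2 ⟨f_1621 h, List.forall_mem_cons.2 ⟨f_1622 h, List.forall_mem_cons.2 ⟨f_1623 h, List.forall_mem_cons.2 ⟨f_1624 h, List.forall_mem_cons.2 ⟨f_1625 h,
    fun _ h0 => absurd h0 List.not_mem_nil⟩⟩⟩⟩⟩⟩⟩⟩⟩⟩⟩⟩⟩⟩⟩⟩⟩⟩⟩⟩⟩⟩⟩⟩⟩⟩⟩⟩

def F_1626 : FrX :=
  ⟨0x1001040012008080000e0084080041000810100004048008010120800012000208200088408020028005002101202002000044440101000100c004206000,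
    0xa3, 1, 0x1032415363758092a6, 9,
    [(0xa3, 1), (0x207584a6, 4), (0x10547693, 4), (0x647593a8, 4), (0x10547693, 4), (0x216485a7, 4), (0x208693a4, 4), (0x647593a8, 4), (0x208693a4, 4), (0x106574a8, 4), (0x647593a8, 4), (0x216485a7, 4)],
    [(0x1032415363758092a6, 9), (0x537698a1, 4), (0x21537084, 4), (0x536094a2, 4), (0x537698a1, 4), (0x21537084, 4)]⟩

def c_1626 : frmChk tB tA F_1626 = true := by decide +kernel

def r_1626_0 : chkL rootF engF2 tB tA sB_278 sA_278 4 F_1626 [(255, 0, 0), (256, 0, 19)]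
    0x10ac330b4330ac390ac2d = true := by
  decide +kernel

def r_1626_1 : chkL rootF engF2 tB tA sB_278 sA_278 4 F_1626 [(256, 19, 16)]
    0x10d42d0b44703cb16c08d86a468c81b32a320d4e80d41d91a522e01e0b81e06ca5 = true := by
  decide +kernel

def r_1626_2 : chkL rootF engF2 tB tA sB_278 sA_278 4 F_1626 [(256, 35, 0)]
    0x105d23 = true := by
  decide +kernel

theorem f_1626 (h : TabsF) : FrameF repsF 278 F_1626.f :=
  frame_of rfl c_1626 ((runs_of engOK r_1626_0).append ((runs_of engOK r_1626_1).append (runs_of engOK r_1626_2))) (by decide +kernel) h.2 h.1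

def F_1627 : FrX :=
  ⟨0x1001040012008080000e00840800410008101000060000082080202020180084040008424000404608010020042000210080084002111000011002202080,
    0xa3, 1, 0x204054637691a0, 7,
    [(0xa3, 1), (0x207584a6, 4), (0x10547693, 4), (0x647593a8, 4), (0x10547693, 4), (0x216485a7, 4), (0x208693a4, 4), (0x647593a8, 4), (0x208693a4, 4), (0x106574a8, 4), (0x647593a8, 4), (0x216485a7, 4)],
    [(0x204054637691a0, 7), (0x416287a0, 4), (0x415283a9, 4), (0x41657390, 4), (0x416287a0, 4), (0x415283a9, 4)]⟩

def c_1627 : frmChk tB tA F_1627 = true := by decide +kernel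

def r_1627_0 : chkL rootF engF2 tB tA sB_278 sA_278 4 F_1627 [(511, 0, 0)]
    0x1234780e6c10d839b405909c27 = true := by
  decide +kernel

theorem f_1627 (h : TabsF) : FrameF repsF 278 F_1627.f :=
  frame_of rfl c_1627 (runs_of engOK r_1627_0) (by decide +kernel) h.2 h.1

def F_1628 : FrX :=
  ⟨0x1001040012008080000e0084080041000810100004401001081010000410201001012202006008280004040204040004084840880800400c001002020010,
    0xa3, 1, 0x315163748491a0, 7,
    [(0xa3, 1), (0x207584a6, 4), (0x10547693, 4), (0x647593a8, 4), (0x10547693, 4), (0x216485a7, 4), (0x208693a4, 4), (0x647593a8, 4), (0x208693a4, 4), (0x106574a8, 4), (0x647593a8, 4), (0x216485a7, 4)],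
    [(0x315163748491a0, 7), (0x506371a2, 4), (0x507483a9, 4), (0x41508692, 4), (0x506371a2, 4), (0x507483a9, 4)]⟩

def c_1628 : frmChk tB tA F_1628 = true := by decide +kernel

def r_1628_0 : chkL rootF engF2 tB tA sB_278 sA_278 4 F_1628 [(511, 0, 0)]
    0x10740f0e4960741b1700f06c5903ca5 = true := by
  decide +kernel

theorem f_1628 (h : TabsF) : FrameF repsF 278 F_1628.f :=
  frame_of rfl c_1628 (runs_of engOK r_1628_0) (by decide +kernel) h.2 h.1

def F_1629 : FrX :=
  ⟨0x600020801080810000c00401804101010010040009002018000900208020220000240248004006000100000c4000210018001000422140004040210208,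
    0xa0, 1, 0x416287a0, 4,
    [(0xa0, 1), (0x637584a2, 4), (0x547690a1, 4), (0x64758390, 4), (0x547690a1, 4), (0x21647385, 4), (0x438690a2, 4), (0x64758390, 4), (0x438690a2, 4), (0x657483a1, 4), (0x64758390, 4), (0x21647385, 4)],
    [(0x416287a0, 4), (0x327185a6, 4), (0x518290a4, 4), (0x21738590, 4), (0x518290a4, 4), (0x21647583, 4), (0x317290a6, 4), (0x21738590, 4), (0x317290a6, 4), (0x527381a4, 4), (0x21738590, 4), (0x21647583, 4)]⟩

def c_1629 : frmChk tB tB F_1629 = true := by decide +kernel

def r_1629_0 : chkL rootF engF2 tB tB sB_278 sB_278 4 F_1629 [(511, 0, 0)]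
    0x40f09c362343c03c0f03c0f03c74 = true := by
  decide +kernel

theorem f_1629 (h : TabsF) : FrameF repsF 278 F_1629.f :=
  frame_of rfl c_1629 (runs_of engOK r_1629_0) (by decide +kernel) h.2 h.2

def F_1630 : FrX :=
  ⟨0x1001040012008080000e00840800410008101000050200084041010020020802808000204240008008084020802008420010c00404200080082000204440,
    0xa3, 1, 0x4251607182a0, 6,
    [(0xa3, 1), (0x207584a6, 4), (0x10547693, 4), (0x647593a8, 4), (0x10547693, 4), (0x216485a7, 4), (0x208693a4, 4), (0x647593a8, 4), (0x208693a4, 4), (0x106574a8, 4), (0x647593a8, 4), (0x216485a7, 4)],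
    [(0x4251607182a0, 6), (0x314096a8, 4), (0x215496a7, 4), (0x32508796, 4), (0x314096a8, 4), (0x215496a7, 4)]⟩

def c_1630 : frmChk tB tA F_1630 = true := by decide +kernel

def r_1630_0 : chkL rootF engF2 tB tA sB_278 sA_278 4 F_1630 [(511, 0, 0)]
    0x44b0b4391a4330cc0f = true := by
  decide +kernel

theorem f_1630 (h : TabsF) : FrameF repsF 278 F_1630.f :=
  frame_of rfl c_1630 (runs_of engOK r_1630_0) (by decide +kernel) h.2 h.1

def F_1631 : FrX :=
  ⟨0x600020801080810000c0040180410101001004001040500000400804121000080180808020043400020000213001400804208200000908100408080001,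
    0xa0, 1, 0x21518493a1, 5,
    [(0xa0, 1), (0x637584a2, 4), (0x547690a1, 4), (0x64758390, 4), (0x547690a1, 4), (0x21647385, 4), (0x438690a2, 4), (0x64758390, 4), (0x438690a2, 4), (0x657483a1, 4), (0x64758390, 4), (0x21647385, 4)],
    [(0x21518493a1, 5), (0x10536492, 4), (0x537482a0, 4), (0x537698a1, 4), (0x10536492, 4), (0x537482a0, 4)]⟩

def c_1631 : frmChk tB tA F_1631 = true := by decide +kernel

def r_1631_0 : chkL rootF engF2 tB tA sB_278 sA_278 4 F_1631 [(511, 0, 0)]
    0x4390781709c1e = true := by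
  decide +kernel

theorem f_1631 (h : TabsF) : FrameF repsF 278 F_1631.f :=
  frame_of rfl c_1631 (runs_of engOK r_1631_0) (by decide +kernel) h.2 h.1

def F_1632 : FrX :=
  ⟨0x600020801080810000c00401804101010010040200040028009024002240000084000a2220040040020011012000091040020000600400014021080880,
    0xa0, 1, 0x4251728191a2, 6,
    [(0xa0, 1), (0x637584a2, 4), (0x547690a1, 4), (0x64758390, 4), (0x547690a1, 4), (0x21647385, 4), (0x438690a2, 4), (0x64758390, 4), (0x438690a2, 4), (0x657483a1, 4), (0x64758390, 4), (0x21647385, 4)],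
    [(0x4251728191a2, 6), (0x415263a0, 4), (0x21648790, 4), (0x41536287, 4), (0x21648790, 4), (0x435162a9, 4), (0x326587a0, 4), (0x41536287, 4), (0x326587a0, 4), (0x42536190, 4), (0x41536287, 4), (0x435162a9, 4)]⟩

def c_1632 : frmChk tB tB F_1632 = true := by decide +kernel

def r_1632_0 : chkL rootF engF2 tB tB sB_278 sB_278 4 F_1632 [(511, 0, 0)]
    0x41dc0f8103d16168b4 = true := by
  decide +kernel

theorem f_1632 (h : TabsF) : FrameF repsF 278 F_1632.f :=
  frame_of rfl c_1632 (runs_of engOK r_1632_0) (by decide +kernel) h.2 h.2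

def F_1633 : FrX :=
  ⟨0x482000044040440000c20400200090001820400100101008080009100400442200100100000484008008180c100800021400a000200080901020000405,
    0xa0, 1, 0x3264718796a7, 6,
    [(0xa0, 1), (0x538690a2, 4), (0x548790a1, 4), (0x21437690, 4), (0x538690a2, 4), (0x548790a1, 4)],
    [(0x3264718796a7, 6), (0x30528491, 4), (0x657084a1, 4), (0x627384a9, 4), (0x30528491, 4), (0x657084a1, 4)]⟩

def c_1633 : frmChk tA tA F_1633 = true := by decide +kernel

def r_1633_0 : chkL rootF engF2 tA tA sA_278 sA_278 4 F_1633 [(511, 0, 0)]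
    0x105c990782b0b417 = true := by
  decide +kernel

theorem f_1633 (h : TabsF) : FrameF repsF 278 F_1633.f :=
  frame_of rfl c_1633 (runs_of engOK r_1633_0) (by decide +kernel) h.1 h.1

def F_1634 : FrX :=
  ⟨0x2002000900044004000e02041000141000800040800401024001024102004040200080210080040400a00406021010001080008080400820204088020104,
    0xa3, 1, 0x21314152628690a6, 8,
    [(0xa3, 1), (0x208693a5, 4), (0x10548793, 4), (0x217693a4, 4), (0x208693a5, 4), (0x10548793, 4)],
    [(0x21314152628690a6, 8), (0x218096a5, 4), (0x31758094, 4), (0x326480a7, 4), (0x218096a5, 4), (0x31758094, 4)]⟩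

def c_1634 : frmChk tA tA F_1634 = true := by decide +kernel

def r_1634_0 : chkL rootF engF2 tA tA sA_278 sA_278 4 F_1634 [(511, 0, 0)]
    0x40f078350b60b03c59e2035e041d05c271384e7224c = true := by
  decide +kernel

theorem f_1634 (h : TabsF) : FrameF repsF 278 F_1634.f :=
  frame_of rfl c_1634 (runs_of engOK r_1634_0) (by decide +kernel) h.1 h.1

def F_1635 : FrX :=
  ⟨0x2002000900044004000e020410001410008000408004004180a0004200012108100000200828011010400081000400140100800008880808000802222088,
    0xa3, 1, 0x40506581a4, 5,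
    [(0xa3, 1), (0x208693a5, 4), (0x10548793, 4), (0x217693a4, 4), (0x208693a5, 4), (0x10548793, 4)],
    [(0x40506581a4, 5), (0x435276a1, 4), (0x748590a6, 4), (0x317690a4, 4), (0x748590a6, 4), (0x617382a4, 4), (0x415290a3, 4), (0x317690a4, 4), (0x415290a3, 4), (0x316485a7, 4), (0x317690a4, 4), (0x617382a4, 4)]⟩

def c_1635 : frmChk tA tB F_1635 = true := by decide +kernel

def r_1635_0 : chkL rootF engF2 tA tB sA_278 sB_278 4 F_1635 [(511, 0, 0)]
    0x150d610d40f = true := by
  decide +kernel

theorem f_1635 (h : TabsF) : FrameF repsF 278 F_1635.f :=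
  frame_of rfl c_1635 (runs_of engOK r_1635_0) (by decide +kernel) h.1 h.2

def F_1636 : FrX :=
  ⟨0x2002000900044004000e02041000141000800040810000048050000404800881200100101008008480220140011010001040208022040000500240009004,
    0xa3, 1, 0x215465748192a0, 7,
    [(0xa3, 1), (0x208693a5, 4), (0x10548793, 4), (0x217693a4, 4), (0x208693a5, 4), (0x10548793, 4)],
    [(0x215465748192a0, 7), (0x104263a9, 4), (0x105276a8, 4), (0x10547398, 4), (0x104263a9, 4), (0x105276a8, 4)]⟩

def c_1636 : frmChk tA tA F_1636 = true := by decide +kernel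

def r_1636_0 : chkL rootF engF2 tA tA sA_278 sA_278 4 F_1636 [(511, 0, 0)]
    0x1074560e83a03c2709c35 = true := by
  decide +kernel

theorem f_1636 (h : TabsF) : FrameF repsF 278 F_1636.f :=
  frame_of rfl c_1636 (runs_of engOK r_1636_0) (by decide +kernel) h.1 h.1

def F_1637 : FrX :=
  ⟨0x80080a000804040e000021010020010000020408820204010080240008100040010840414000082800208002110814000011080808080004440a00a0000,
    0xa6, 1, 0x10324160758297a3, 8,
    [(0xa6, 1), (0x205396a8, 4), (0x10548796, 4), (0x214396a7, 4), (0x205396a8, 4), (0x10548796, 4)],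
    [(0x10324160758297a3, 8), (0x315286a7, 4), (0x52647093, 4), (0x528491a0, 4), (0x315286a7, 4), (0x52647093, 4)]⟩

def c_1637 : frmChk tA tA F_1637 = true := by decide +kernel

def r_1637_0 : chkL rootF engF2 tA tA sA_278 sA_278 4 F_1637 [(511, 0, 0)]
    0x44b1588b15427 = true := by
  decide +kernel

theorem f_1637 (h : TabsF) : FrameF repsF 278 F_1637.f :=
  frame_of rfl c_1637 (runs_of engOK r_1637_0) (by decide +kernel) h.1 h.1

def F_1638 : FrX :=
  ⟨0x80080a000804040e00002101002001000002040880480800404090000220008008013000c0003041000080108051010000004204800040a100904140000,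
    0xa6, 1, 0x54748192a6, 5,
    [(0xa6, 1), (0x205396a8, 4), (0x10548796, 4), (0x214396a7, 4), (0x205396a8, 4), (0x10548796, 4)],
    [(0x54748192a6, 5), (0x547190a3, 4), (0x627480a5, 4), (0x315462a7, 4), (0x627480a5, 4), (0x415398a7, 4), (0x627390a1, 4), (0x315462a7, 4), (0x627390a1, 4), (0x317580a4, 4), (0x315462a7, 4), (0x415398a7, 4)]⟩

def c_1638 : frmChk tA tB F_1638 = true := by decide +kernel

def r_1638_0 : chkL rootF engF2 tA tB sA_278 sB_278 4 F_1638 [(255, 0, 0), (256, 0, 22)]
    0x48b264c509c2e0d4740b82e518170b8360b8351d0361354c = true := by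
  decide +kernel

def r_1638_1 : chkL rootF engF2 tA tB sA_278 sB_278 4 F_1638 [(256, 22, 0)]
    0x56124c950d42d4711c11c36 = true := by
  decide +kernel

theorem f_1638 (h : TabsF) : FrameF repsF 278 F_1638.f :=
  frame_of rfl c_1638 ((runs_of engOK r_1638_0).append (runs_of engOK r_1638_1)) (by decide +kernel) h.1 h.2

def F_1639 : FrX :=
  ⟨0x1c2102000004044000002041000101000082040888200008008080004000242020601001100008020800404880201840100011005502200340004800000,
    0x0, 0, 0x107583, 3,
    [(0x0, 0), (0x205386a9, 4), (0x105487a9, 4), (0x214376a9, 4), (0x205386a9, 4), (0x105487a9, 4)],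
    [(0x107583, 3), (0x216387a9, 4), (0x105374a9, 4), (0x206584a9, 4), (0x216387a9, 4), (0x105374a9, 4)]⟩

def c_1639 : frmChk tA tA F_1639 = true := by decide +kernel

def r_1639_0 : chkL rootF engF2 tA tA sA_278 sA_278 4 F_1639 [(255, 0, 0), (256, 0, 12)]
    0x1 = true := by
  decide +kernel

def r_1639_1 : chkL rootF engF2 tA tA sA_278 sA_278 4 F_1639 [(256, 12, 5)]
    0x1 = true := by
  decide +kernel

def r_1639_2 : chkL rootF engF2 tA tA sA_278 sA_278 4 F_1639 [(256, 17, 5)]
    0x1 = true := by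
  decide +kernel

def r_1639_3 : chkL rootF engF2 tA tA sA_278 sA_278 4 F_1639 [(256, 22, 6)]
    0x1 = true := by
  decide +kernel

def r_1639_4 : chkL rootF engF2 tA tA sA_278 sA_278 4 F_1639 [(256, 28, 9)]
    0x4538550b3174209c2d = true := by
  decide +kernel

def r_1639_5 : chkL rootF engF2 tA tA sA_278 sA_278 4 F_1639 [(256, 37, 0)]
    0x1 = true := by
  decide +kernel

theorem f_1639 (h : TabsF) : FrameF repsF 278 F_1639.f :=
  frame_of rfl c_1639 ((runs_of engOK r_1639_0).append ((runs_of engOK r_1639_1).append ((runs_of engOK r_1639_2).append ((runs_of engOK r_1639_3).append ((runs_of engOK r_1639_4).append (runs_of engOK r_1639_5)))))) (by decide +kernel) h.1 h.1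

def F_1640 : FrX :=
  ⟨0x482000044040440000c2040020009000182040002012040000880200014088004400110020010400800040888002c00028003108200420004804200004,
    0xa0, 1, 0x204252637391a3, 7,
    [(0xa0, 1), (0x538690a2, 4), (0x548790a1, 4), (0x21437690, 4), (0x538690a2, 4), (0x548790a1, 4)],
    [(0x204252637391a3, 7), (0x526480a3, 4), (0x40637192, 4), (0x306471a8, 4), (0x40637192, 4), (0x308495a6, 4), (0x527183a0, 4), (0x306471a8, 4), (0x527183a0, 4), (0x436092a8, 4), (0x306471a8, 4), (0x308495a6, 4)]⟩

def c_1640 : frmChk tA tB F_1640 = true := by decide +kernel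

def r_1640_0 : chkL rootF engF2 tA tB sA_278 sB_278 4 F_1640 [(511, 0, 0)]
    0x122cc30d82d = true := by
  decide +kernel

theorem f_1640 (h : TabsF) : FrameF repsF 278 F_1640.f :=
  frame_of rfl c_1640 (runs_of engOK r_1640_0) (by decide +kernel) h.1 h.2

def F_1641 : FrX :=
  ⟨0x2002000900044004000e02041000141000800040800801014010200009000182100204004024001010040012000404020280008022200828100004228040,
    0xa3, 1, 0x42718298a6, 5,
    [(0xa3, 1), (0x208693a5, 4), (0x10548793, 4), (0x217693a4, 4), (0x208693a5, 4), (0x10548793, 4)],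
    [(0x42718298a6, 5), (0x536480a9, 4), (0x52647091, 4), (0x326487a1, 4), (0x536480a9, 4), (0x52647091, 4)]⟩

def c_1641 : frmChk tA tA F_1641 = true := by decide +kernel

def r_1641_0 : chkL rootF engF2 tA tA sA_278 sA_278 4 F_1641 [(511, 0, 0)]
    0x433 = true := by
  decide +kernel

theorem f_1641 (h : TabsF) : FrameF repsF 278 F_1641.f :=
  frame_of rfl c_1641 (runs_of engOK r_1641_0) (by decide +kernel) h.1 h.1

def F_1642 : FrX :=
  ⟨0x1c2102000004044000002041000101000082040888200008008080004000242020601001100008020800404880201400088011005600600300004c00000,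
    0x0, 0, 0x107583, 3,
    [(0x0, 0), (0x205386a9, 4), (0x105487a9, 4), (0x214376a9, 4), (0x205386a9, 4), (0x105487a9, 4)],
    [(0x107583, 3), (0x216387a9, 4), (0x105374a9, 4), (0x206584a9, 4), (0x216387a9, 4), (0x105374a9, 4)]⟩

def c_1642 : frmChk tA tA F_1642 = true := by decide +kernel

def r_1642_0 : chkL rootF engF2 tA tA sA_278 sA_278 4 F_1642 [(255, 0, 0), (256, 0, 12)]
    0x1 = true := by
  decide +kernel

def r_1642_1 : chkL rootF engF2 tA tA sA_278 sA_278 4 F_1642 [(256, 12, 5)]
    0x1 = true := by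
  decide +kernel

def r_1642_2 : chkL rootF engF2 tA tA sA_278 sA_278 4 F_1642 [(256, 17, 5)]
    0x1 = true := by
  decide +kernel

def r_1642_3 : chkL rootF engF2 tA tA sA_278 sA_278 4 F_1642 [(256, 22, 6)]
    0x1 = true := by
  decide +kernel

def r_1642_4 : chkL rootF engF2 tA tA sA_278 sA_278 4 F_1642 [(256, 28, 9)]
    0x10aca588d2a4e00f = true := by
  decide +kernel

def r_1642_5 : chkL rootF engF2 tA tA sA_278 sA_278 4 F_1642 [(256, 37, 0)]
    0x1 = true := by
  decide +kernel

theorem f_1642 (h : TabsF) : FrameF repsF 278 F_1642.f :=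
  frame_of rfl c_1642 ((runs_of engOK r_1642_0).append ((runs_of engOK r_1642_1).append ((runs_of engOK r_1642_2).append ((runs_of engOK r_1642_3).append ((runs_of engOK r_1642_4).append (runs_of engOK r_1642_5)))))) (by decide +kernel) h.1 h.1

def F_1643 : FrX :=
  ⟨0x2002000900044004000e0204100014100080004081000001810800200a002a00220200001008008820800404800001840100810004c02200202024001010,
    0xa3, 1, 0x51658197a4, 5,
    [(0xa3, 1), (0x208693a5, 4), (0x10548793, 4), (0x217693a4, 4), (0x208693a5, 4), (0x10548793, 4)],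
    [(0x51658197a4, 5), (0x203196a5, 4), (0x748091a6, 4), (0x537496a1, 4), (0x748091a6, 4), (0x658293a1, 4), (0x205174a3, 4), (0x537496a1, 4), (0x205174a3, 4), (0x536180a9, 4), (0x537496a1, 4), (0x658293a1, 4)]⟩

def c_1643 : frmChk tA tB F_1643 = true := by decide +kernel

def r_1643_0 : chkL rootF engF2 tA tB sA_278 sB_278 4 F_1643 [(511, 0, 0)]
    0x40f03d230cd320f035 = true := by
  decide +kernel

theorem f_1643 (h : TabsF) : FrameF repsF 278 F_1643.f :=
  frame_of rfl c_1643 (runs_of engOK r_1643_0) (by decide +kernel) h.1 h.2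

def F_1644 : FrX :=
  ⟨0x482000044040440000c20400200090001820400010804800042000040100440204042011010001200004008022200080000b8002010240101122000082,
    0xa0, 1, 0x40657593a1, 5,
    [(0xa0, 1), (0x538690a2, 4), (0x548790a1, 4), (0x21437690, 4), (0x538690a2, 4), (0x548790a1, 4)],
    [(0x40657593a1, 5), (0x42768095, 4), (0x316570a4, 4), (0x31507698, 4), (0x316570a4, 4), (0x508796a2, 4), (0x31428590, 4), (0x31507698, 4), (0x31428590, 4), (0x607598a4, 4), (0x31507698, 4), (0x508796a2, 4)]⟩

def c_1644 : frmChk tA tB F_1644 = true := by decide +kernel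

def r_1644_0 : chkL rootF engF2 tA tB sA_278 sB_278 4 F_1644 [(511, 0, 0)]
    0x40f = true := by
  decide +kernel

theorem f_1644 (h : TabsF) : FrameF repsF 278 F_1644.f :=
  frame_of rfl c_1644 (runs_of engOK r_1644_0) (by decide +kernel) h.1 h.2

def F_1645 : FrX :=
  ⟨0x80080a000804040e000021010020010000020408822000040500801000040820220240014000080208008008802100010000630100009242000c020000a,
    0xa6, 1, 0x2131435165708398a6, 9,
    [(0xa6, 1), (0x205396a8, 4), (0x10548796, 4), (0x214396a7, 4), (0x205396a8, 4), (0x10548796, 4)],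
    [(0x2131435165708398a6, 9), (0x437186a9, 4), (0x43627590, 4), (0x435182a0, 4), (0x437186a9, 4), (0x43627590, 4)]⟩

def c_1645 : frmChk tA tA F_1645 = true := by decide +kernel

def r_1645_0 : chkL rootF engF2 tA tA sA_278 sA_278 4 F_1645 [(511, 0, 0)]
    0x103c1b2341e = true := by
  decide +kernel

theorem f_1645 (h : TabsF) : FrameF repsF 278 F_1645.f :=
  frame_of rfl c_1645 (runs_of engOK r_1645_0) (by decide +kernel) h.1 h.1

def F_1646 : FrX :=
  ⟨0x1c21020000040440000020410001010000820408900800800008024008000840044041100000304000201408280100020800a2004040068002080600041,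
    0x0, 0, 0x216475, 3,
    [(0x0, 0), (0x205386a9, 4), (0x105487a9, 4), (0x214376a9, 4), (0x205386a9, 4), (0x105487a9, 4)],
    [(0x216475, 3), (0x107384a9, 4), (0x207685a9, 4), (0x215463a9, 4), (0x107384a9, 4), (0x207685a9, 4)]⟩

def c_1646 : frmChk tA tA F_1646 = true := by decide +kernel

def r_1646_0 : chkL rootF engF2 tA tA sA_278 sA_278 4 F_1646 [(255, 0, 0), (256, 0, 4)]
    0x50e = true := by
  decide +kernel

def r_1646_1 : chkL rootF engF2 tA tA sA_278 sA_278 4 F_1646 [(256, 4, 5)]
    0x41b05c87 = true := by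
  decide +kernel

def r_1646_2 : chkL rootF engF2 tA tA sA_278 sA_278 4 F_1646 [(256, 9, 6)]
    0x105c17 = true := by
  decide +kernel

def r_1646_3 : chkL rootF engF2 tA tA sA_278 sA_278 4 F_1646 [(256, 15, 9)]
    0x472e42a114c53648d1a84f0c892a1d30a = true := by
  decide +kernel

def r_1646_4 : chkL rootF engF2 tA tA sA_278 sA_278 4 F_1646 [(256, 24, 13)]
    0x45c05c1706c1705c17 = true := by
  decide +kernel

def r_1646_5 : chkL rootF engF2 tA tA sA_278 sA_278 4 F_1646 [(256, 37, 0)]
    0x417 = true := by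
  decide +kernel

theorem f_1646 (h : TabsF) : FrameF repsF 278 F_1646.f :=
  frame_of rfl c_1646 ((runs_of engOK r_1646_0).append ((runs_of engOK r_1646_1).append ((runs_of engOK r_1646_2).append ((runs_of engOK r_1646_3).append ((runs_of engOK r_1646_4).append (runs_of engOK r_1646_5)))))) (by decide +kernel) h.1 h.1

def F_1647 : FrX :=
  ⟨0x80080a000804040e0000210100200100000204088048100010440040022000000a180420004040010050000088400800201128001008401044042800402,
    0xa6, 1, 0x42758593a7, 5,
    [(0xa6, 1), (0x205396a8, 4), (0x10548796, 4), (0x214396a7, 4), (0x205396a8, 4), (0x10548796, 4)],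
    [(0x42758593a7, 5), (0x407296a8, 4), (0x105382a6, 4), (0x536297a8, 4), (0x105382a6, 4), (0x416287a9, 4), (0x40537692, 4), (0x536297a8, 4), (0x40537692, 4), (0x108697a2, 4), (0x536297a8, 4), (0x416287a9, 4)]⟩

def c_1647 : frmChk tA tB F_1647 = true := by decide +kernel

def r_1647_0 : chkL rootF engF2 tA tB sA_278 sB_278 4 F_1647 [(255, 0, 0), (256, 0, 23)]
    0x10741b11c1d07529 = true := by
  decide +kernel

def r_1647_1 : chkL rootF engF2 tA tB sA_278 sB_278 4 F_1647 [(256, 23, 0)]
    0x11545c = true := by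
  decide +kernel

theorem f_1647 (h : TabsF) : FrameF repsF 278 F_1647.f :=
  frame_of rfl c_1647 ((runs_of engOK r_1647_0).append (runs_of engOK r_1647_1)) (by decide +kernel) h.1 h.2

def F_1648 : FrX :=
  ⟨0x1001040012008080000e00840800410008101000040810084060010020020802808000204200008208084020802000422010800404200880082000204440,
    0xa3, 1, 0x2152657281a6, 6,
    [(0xa3, 1), (0x207584a6, 4), (0x10547693, 4), (0x647593a8, 4), (0x10547693, 4), (0x216485a7, 4), (0x208693a4, 4), (0x647593a8, 4), (0x208693a4, 4), (0x106574a8, 4), (0x647593a8, 4), (0x216485a7, 4)],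
    [(0x2152657281a6, 6), (0x637091a2, 4), (0x52648091, 4), (0x438791a5, 4), (0x637091a2, 4), (0x52648091, 4)]⟩

def c_1648 : frmChk tB tA F_1648 = true := by decide +kernel

def r_1648_0 : chkL rootF engF2 tB tA sB_278 sA_278 4 F_1648 [(511, 0, 0)]
    0x40f0e5311c6854943a = true := by
  decide +kernel

theorem f_1648 (h : TabsF) : FrameF repsF 278 F_1648.f :=
  frame_of rfl c_1648 (runs_of engOK r_1648_0) (by decide +kernel) h.2 h.1

def F_1649 : FrX :=
  ⟨0x1001040012008080000e00840800410008101000044010010810100004102010010122001020082a0004040204041000284000880800000c081002820010,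
    0xa3, 1, 0x315163748491a0, 7,
    [(0xa3, 1), (0x207584a6, 4), (0x10547693, 4), (0x647593a8, 4), (0x10547693, 4), (0x216485a7, 4), (0x208693a4, 4), (0x647593a8, 4), (0x208693a4, 4), (0x106574a8, 4), (0x647593a8, 4), (0x216485a7, 4)],
    [(0x315163748491a0, 7), (0x506371a2, 4), (0x507483a9, 4), (0x41508692, 4), (0x506371a2, 4), (0x507483a9, 4)]⟩

def c_1649 : frmChk tB tA F_1649 = true := by decide +kernel

def r_1649_0 : chkL rootF engF2 tB tA sB_278 sA_278 4 F_1649 [(511, 0, 0)]
    0x1074390b4a906c4b03c0f = true := by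
  decide +kernel

theorem f_1649 (h : TabsF) : FrameF repsF 278 F_1649.f :=
  frame_of rfl c_1649 (runs_of engOK r_1649_0) (by decide +kernel) h.2 h.1

def F_1650 : FrX :=
  ⟨0x1001040012008080000e0084080041000810100004400802081010000420201000814200102008082000221201081000144000501002004000c001012080,
    0xa3, 1, 0x1031758690a7, 6,
    [(0xa3, 1), (0x207584a6, 4), (0x10547693, 4), (0x647593a8, 4), (0x10547693, 4), (0x216485a7, 4), (0x208693a4, 4), (0x647593a8, 4), (0x208693a4, 4), (0x106574a8, 4), (0x647593a8, 4), (0x216485a7, 4)],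
    [(0x1031758690a7, 6), (0x648092a7, 4), (0x517493a8, 4), (0x516084a7, 4), (0x517493a8, 4), (0x327684a0, 4), (0x40518692, 4), (0x516084a7, 4), (0x40518692, 4), (0x608793a4, 4), (0x516084a7, 4), (0x327684a0, 4)]⟩

def c_1650 : frmChk tB tB F_1650 = true := by decide +kernel

def r_1650_0 : chkL rootF engF2 tB tB sB_278 sB_278 4 F_1650 [(511, 0, 0)]
    0x41d1982b8368c1385a0ac2b03c0f03c0f09c6a0ac2b0ac4d0ac2b8a4b1 = true := by
  decide +kernel

theorem f_1650 (h : TabsF) : FrameF repsF 278 F_1650.f :=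
  frame_of rfl c_1650 (runs_of engOK r_1650_0) (by decide +kernel) h.2 h.2

def F_1651 : FrX :=
  ⟨0x2002000900044004000e020410001410008000408080010020a022001000a202000202000880040224000100911000140080010005201000040804211010,
    0xa3, 1, 0x324253718698a6, 7,
    [(0xa3, 1), (0x208693a5, 4), (0x10548793, 4), (0x217693a4, 4), (0x208693a5, 4), (0x10548793, 4)],
    [(0x324253718698a6, 7), (0x405286a9, 4), (0x32708691, 4), (0x537486a1, 4), (0x405286a9, 4), (0x32708691, 4)]⟩

def c_1651 : frmChk tA tA F_1651 = true := by decide +kernel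

def r_1651_0 : chkL rootF engF2 tA tA sA_278 sA_278 4 F_1651 [(511, 0, 0)]
    0x18a50e42c170d4360e83a = true := by
  decide +kernel

theorem f_1651 (h : TabsF) : FrameF repsF 278 F_1651.f :=
  frame_of rfl c_1651 (runs_of engOK r_1651_0) (by decide +kernel) h.1 h.1

def F_1652 : FrX :=
  ⟨0x2002000900044004000e02041000141000800040810000014408002008220108100004200808011016000049000420002140200084001008000802202084,
    0xa3, 1, 0x3140748691a3, 6,
    [(0xa3, 1), (0x208693a5, 4), (0x10548793, 4), (0x217693a4, 4), (0x208693a5, 4), (0x10548793, 4)],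
    [(0x3140748691a3, 6), (0x425076a8, 4), (0x31758094, 4), (0x315087a6, 4), (0x31758094, 4), (0x658792a0, 4), (0x314286a7, 4), (0x315087a6, 4), (0x314286a7, 4), (0x708594a6, 4), (0x315087a6, 4), (0x658792a0, 4)]⟩

def c_1652 : frmChk tA tB F_1652 = true := by decide +kernel

def r_1652_0 : chkL rootF engF2 tA tB sA_278 sB_278 4 F_1652 [(511, 0, 0)]
    0x4590d817a4a910cc0f09c4703c1e1704d03c0f24c1705c171aa3105e1c8581711c4be084b0cc3c1981726427 = true := by
  decide +kernel

theorem f_1652 (h : TabsF) : FrameF repsF 278 F_1652.f :=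
  frame_of rfl c_1652 (runs_of engOK r_1652_0) (by decide +kernel) h.1 h.2

def F_1653 : FrX :=
  ⟨0x2002000900044004000e0204100014100080004081000001810a802002000200220200801008008820800404800010240101800010800220202024001012,
    0xa3, 1, 0x31418393a7, 5,
    [(0xa3, 1), (0x208693a5, 4), (0x10548793, 4), (0x217693a4, 4), (0x208693a5, 4), (0x10548793, 4)],
    [(0x31418393a7, 5), (0x203196a5, 4), (0x405387a6, 4), (0x638791a5, 4), (0x405387a6, 4), (0x425163a9, 4), (0x20618793, 4), (0x638791a5, 4), (0x20618793, 4), (0x406591a3, 4), (0x638791a5, 4), (0x425163a9, 4)]⟩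

def c_1653 : frmChk tA tB F_1653 = true := by decide +kernel

def r_1653_0 : chkL rootF engF2 tA tB sA_278 sB_278 4 F_1653 [(255, 0, 0), (256, 0, 21)]
    0x12946c03c0f03c0f03c0f = true := by
  decide +kernel

def r_1653_1 : chkL rootF engF2 tA tB sA_278 sB_278 4 F_1653 [(256, 21, 0)]
    0x447074960d4470749503c2d11c1d11c470749506c1b = true := by
  decide +kernel

theorem f_1653 (h : TabsF) : FrameF repsF 278 F_1653.f :=
  frame_of rfl c_1653 ((runs_of engOK r_1653_0).append (runs_of engOK r_1653_1)) (by decide +kernel) h.1 h.2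

theorem cl_278 (h : TabsF) : ∀ f ∈ fr_278, FrameF repsF 278 f :=
  List.forall_mem_cons.2 ⟨f_1626 h, List.forall_mem_cons.2 ⟨f_1627 h, List.forall_mem_cons.2 ⟨f_1628 h, List.forall_mem_cons.2 ⟨f_1629 h, List.forall_mem_cons.2 ⟨f_1630 h, List.forall_mem_cons.2 ⟨f_1631 h, List.forall_mem_cons.2 ⟨f_1632 h, List.forall_mem_cons.2 ⟨f_1633 h, List.forall_mem_cons.2 ⟨f_1634 h, List.forall_mem_cons.2 ⟨f_1635 h, List.forall_mem_cons.2 ⟨f_1636 h, List.forall_mem_cons.2 ⟨f_1637 h, List.forall_mem_cons.2 ⟨f_1638 h, List.forall_mem_cons.2 ⟨f_1639 h, List.forall_mem_cons.2 ⟨f_1640 h, List.forall_mem_cons.2 ⟨f_1641 h, List.forall_mem_cons.2 ⟨f_1642 h, List.forall_mem_cons.2 ⟨f_1643 h, List.forall_mem_cons.2 ⟨f_1644 h, List.forall_mem_cons.2 ⟨f_1645 h, List.forall_mem_cons.2 ⟨f_1646 h, List.forall_mem_cons.2 ⟨f_1647 h, List.forall_mem_cons.2 ⟨f_1648 h, List.forall_mem_cons.2 ⟨f_1649 h, List.forall_mem_cons.2 ⟨f_1650 h, List.forall_mem_cons.2 ⟨f_1651 h, List.forall_mem_cons.2 ⟨f_1652 h, List.forall_mem_cons.2 ⟨f_1653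 h,
    fun _ h0 => absurd h0 List.not_mem_nil⟩⟩⟩⟩⟩⟩⟩⟩⟩⟩⟩⟩⟩⟩⟩⟩⟩⟩⟩⟩⟩⟩⟩⟩⟩⟩⟩⟩

def F_1654 : FrX :=
  ⟨0x2002000900044004000e0204100014100080004080800020280084040380008000012200402001024404018101001010004042000500800c001110008010,
    0xa3, 1, 0x324051738698a3, 7,
    [(0xa3, 1), (0x208693a5, 4), (0x10548793, 4), (0x217693a4, 4), (0x208693a5, 4), (0x10548793, 4)],
    [(0x324051738698a3, 7), (0x437698a1, 4), (0x10547692, 4), (0x537682a0, 4), (0x437698a1, 4), (0x10547692, 4)]⟩

def c_1654 : frmChk tA tA F_1654 = true := by decide +kernel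

def r_1654_0 : chkL rootF engF2 tA tA sA_279 sA_279 4 F_1654 [(255, 0, 0), (256, 0, 12)]
    0x11e05c0743914c17134170b4270ac2bc270c = true := by
  decide +kernel

def r_1654_1 : chkL rootF engF2 tA tA sA_279 sA_279 4 F_1654 [(256, 12, 13)]
    0x60da268c05c17 = true := by
  decide +kernel

def r_1654_2 : chkL rootF engF2 tA tA sA_279 sA_279 4 F_1654 [(256, 25, 0)]
    0x106c0f2559106c1b = true := by
  decide +kernel

theorem f_1654 (h : TabsF) : FrameF repsF 279 F_1654.f :=
  frame_of rfl c_1654 ((runs_of engOK r_1654_0).append ((runs_of engOK r_1654_1).append (runs_of engOK r_1654_2))) (by decide +kernel) h.1 h.1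

def F_1655 : FrX :=
  ⟨0x2002000900044004000e0204100014100080004080800100112000020922010100010800210000500820a009004000121041020002201000040800210280,
    0xa3, 1, 0x104152738293a6, 7,
    [(0xa3, 1), (0x208693a5, 4), (0x10548793, 4), (0x217693a4, 4), (0x208693a5, 4), (0x10548793, 4)],
    [(0x104152738293a6, 7), (0x325081a9, 4), (0x204176a3, 4), (0x327695a0, 4), (0x204176a3, 4), (0x528493a0, 4), (0x768190a5, 4), (0x327695a0, 4), (0x768190a5, 4), (0x304195a2, 4), (0x327695a0, 4), (0x528493a0, 4)]⟩

def c_1655 : frmChk tA tB F_1655 = true := by decide +kernel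

def r_1655_0 : chkL rootF engF2 tA tB sA_279 sB_279 4 F_1655 [(511, 0, 0)]
    0x10e4473244706c8d06c3905c2705c270e43609c3a3264ab20781342e0f0ca0783a1a44d = true := by
  decide +kernel

theorem f_1655 (h : TabsF) : FrameF repsF 279 F_1655.f :=
  frame_of rfl c_1655 (runs_of engOK r_1655_0) (by decide +kernel) h.1 h.2

def F_1656 : FrX :=
  ⟨0x80080a000804040e00002101002001000002040890020008050000420100a08010820000d00010222000200500110940000482004001001000a02400010,
    0xa6, 1, 0x3141627393a0, 6,
    [(0xa6, 1), (0x205396a8, 4), (0x10548796, 4), (0x214396a7, 4), (0x205396a8, 4), (0x10548796, 4)],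
    [(0x3141627393a0, 6), (0x518392a6, 4), (0x215370a4, 4), (0x32517098, 4), (0x215370a4, 4), (0x32648591, 4), (0x708293a6, 4), (0x32517098, 4), (0x708293a6, 4), (0x315298a4, 4), (0x32517098, 4), (0x32648591, 4)]⟩

def c_1656 : frmChk tA tB F_1656 = true := by decide +kernel

def r_1656_0 : chkL rootF engF2 tA tB sA_279 sB_279 4 F_1656 [(511, 0, 0)]
    0x44b0d80f14c3c03c0f12c4730c9c = true := by
  decide +kernel

theorem f_1656 (h : TabsF) : FrameF repsF 279 F_1656.f :=
  frame_of rfl c_1656 (runs_of engOK r_1656_0) (by decide +kernel) h.1 h.2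

def F_1657 : FrX :=
  ⟨0x482000044040440000c2040020009000182040010023020004000208080021010202000808010208800009004110100040444080118400404100000042,
    0xa0, 1, 0x21324051758196a6, 8,
    [(0xa0, 1), (0x538690a2, 4), (0x548790a1, 4), (0x21437690, 4), (0x538690a2, 4), (0x548790a1, 4)],
    [(0x21324051758196a6, 8), (0x437196a5, 4), (0x52708496, 4), (0x108396a2, 4), (0x437196a5, 4), (0x52708496, 4)]⟩

def c_1657 : frmChk tA tA F_1657 = true := by decide +kernel

def r_1657_0 : chkL rootF engF2 tA tA sA_279 sA_279 4 F_1657 [(511, 0, 0)]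
    0x11641e0781e0b40f4c5703841d = true := by
  decide +kernel

theorem f_1657 (h : TabsF) : FrameF repsF 279 F_1657.f :=
  frame_of rfl c_1657 (runs_of engOK r_1657_0) (by decide +kernel) h.1 h.1

def F_1658 : FrX :=
  ⟨0x2002000900044004000e02041000141000800040802002020088024040208408000003000908010422200004404020940004000005002400000904044040,
    0xa3, 1, 0x304264748292a0, 7,
    [(0xa3, 1), (0x208693a5, 4), (0x10548793, 4), (0x217693a4, 4), (0x208693a5, 4), (0x10548793, 4)],
    [(0x304264748292a0, 7), (0x425083a9, 4), (0x647583a1, 4), (0x62708391, 4), (0x425083a9, 4), (0x647583a1, 4)]⟩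

def c_1658 : frmChk tA tA F_1658 = true := by decide +kernel

def r_1658_0 : chkL rootF engF2 tA tA sA_279 sA_279 4 F_1658 [(255, 0, 0), (256, 0, 17)]
    0x4c305c2e5242709c0f03c0f06d6803cf003c364a92a06c33 = true := by
  decide +kernel

def r_1658_1 : chkL rootF engF2 tA tA sA_279 sA_279 4 F_1658 [(256, 17, 0)]
    0x109c271d207a181b1d0b18711cc33441e232ac03905c35 = true := by
  decide +kernel

theorem f_1658 (h : TabsF) : FrameF repsF 279 F_1658.f :=
  frame_of rfl c_1658 ((runs_of engOK r_1658_0).append (runs_of engOK r_1658_1)) (by decide +kernel) h.1 h.1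

def F_1659 : FrX :=
  ⟨0x482000044040440000c2040020009000182040000a000480080200808100500100804009015000800802081001200020c8008000408084040002010410,
    0xa0, 1, 0x203251617090a1, 7,
    [(0xa0, 1), (0x538690a2, 4), (0x548790a1, 4), (0x21437690, 4), (0x538690a2, 4), (0x548790a1, 4)],
    [(0x203251617090a1, 7), (0x10768593, 4), (0x417682a9, 4), (0x405276a3, 4), (0x10768593, 4), (0x417682a9, 4)]⟩

def c_1659 : frmChk tA tA F_1659 = true := by decide +kernel

def r_1659_0 : chkL rootF engF2 tA tA sA_279 sA_279 4 F_1659 [(511, 0, 0)]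
    0x44782c8d318659845505c1705c1d11c3a = true := by
  decide +kernel

theorem f_1659 (h : TabsF) : FrameF repsF 279 F_1659.f :=
  frame_of rfl c_1659 (runs_of engOK r_1659_0) (by decide +kernel) h.1 h.1

def F_1660 : FrX :=
  ⟨0x482000044040440000c2040020009000182040000420418008100010040024100800101082040180000120201008200590000084048000044000808440,
    0xa0, 1, 0x2031405081a2, 6,
    [(0xa0, 1), (0x538690a2, 4), (0x548790a1, 4), (0x21437690, 4), (0x538690a2, 4), (0x548790a1, 4)],
    [(0x2031405081a2, 6), (0x326174a5, 4), (0x42768590, 4), (0x31627490, 4), (0x42768590, 4), (0x436271a8, 4), (0x216390a5, 4), (0x31627490, 4), (0x216390a5, 4), (0x31647285, 4), (0x31627490, 4), (0x436271a8, 4)]⟩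

def c_1660 : frmChk tA tB F_1660 = true := by decide +kernel

def r_1660_0 : chkL rootF engF2 tA tB sA_279 sB_279 4 F_1660 [(255, 0, 0), (256, 0, 22)]
    0x105c17 = true := by
  decide +kernel

def r_1660_1 : chkL rootF engF2 tA tB sA_279 sB_279 4 F_1660 [(256, 22, 0)]
    0x41b05c1d05c9603e310e6613c2310e6610f036 = true := by
  decide +kernel

theorem f_1660 (h : TabsF) : FrameF repsF 279 F_1660.f :=
  frame_of rfl c_1660 ((runs_of engOK r_1660_0).append (runs_of engOK r_1660_1)) (by decide +kernel) h.1 h.2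

def F_1661 : FrX :=
  ⟨0x482000044040440000c204002000900018204000400822080110000802401001008040220104028000c00000302000c00008a080408402000802800401,
    0xa0, 1, 0x1032627087a1, 6,
    [(0xa0, 1), (0x538690a2, 4), (0x548790a1, 4), (0x21437690, 4), (0x538690a2, 4), (0x548790a1, 4)],
    [(0x1032627087a1, 6), (0x32417685, 4), (0x548390a7, 4), (0x21438590, 4), (0x548390a7, 4), (0x435182a6, 4), (0x31427690, 4), (0x21438590, 4), (0x31427690, 4), (0x215384a7, 4), (0x21438590, 4), (0x435182a6, 4)]⟩

def c_1661 : frmChk tA tB F_1661 = true := by decide +kernel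

def r_1661_0 : chkL rootF engF2 tA tB sA_279 sB_279 4 F_1661 [(511, 0, 0)]
    0x706257480781d158561590d4341719962 = true := by
  decide +kernel

theorem f_1661 (h : TabsF) : FrameF repsF 279 F_1661.f :=
  frame_of rfl c_1661 (runs_of engOK r_1661_0) (by decide +kernel) h.1 h.2

def F_1662 : FrX :=
  ⟨0x80080a000804040e000021010020010000020408840102c001008002080200200040404240014018000080001111000420018a0800002024402100c0000,
    0xa6, 1, 0x102032518491a1, 7,
    [(0xa6, 1), (0x205396a8, 4), (0x10548796, 4), (0x214396a7, 4), (0x205396a8, 4), (0x10548796, 4)],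
    [(0x102032518491a1, 7), (0x32617084, 4), (0x768095a2, 4), (0x41708695, 4), (0x768095a2, 4), (0x407186a3, 4), (0x32648195, 4), (0x41708695, 4), (0x32648195, 4), (0x416087a2, 4), (0x41708695, 4), (0x407186a3, 4)]⟩

def c_1662 : frmChk tA tB F_1662 = true := by decide +kernel

def r_1662_0 : chkL rootF engF2 tA tB sA_279 sB_279 4 F_1662 [(511, 0, 0)]
    0x14694c7100f1941d1b0630782d0b436 = true := by
  decide +kernel

theorem f_1662 (h : TabsF) : FrameF repsF 279 F_1662.f :=
  frame_of rfl c_1662 (runs_of engOK r_1662_0) (by decide +kernel) h.1 h.2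

def F_1663 : FrX :=
  ⟨0x2002000900044004000e0204100014100080004081000002808400422020a008100000201008015020100030401020008002488080001042000a02000084,
    0xa3, 1, 0x103040728094a0, 7,
    [(0xa3, 1), (0x208693a5, 4), (0x10548793, 4), (0x217693a4, 4), (0x208693a5, 4), (0x10548793, 4)],
    [(0x103040728094a0, 7), (0x516483a7, 4), (0x428395a0, 4), (0x62708391, 4), (0x516483a7, 4), (0x428395a0, 4)]⟩

def c_1663 : frmChk tA tA F_1663 = true := by decide +kernel

def r_1663_0 : chkL rootF engF2 tA tA sA_279 sA_279 4 F_1663 [(511, 0, 0)]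
    0x105c0f0d8330d42b03c33 = true := by
  decide +kernel

theorem f_1663 (h : TabsF) : FrameF repsF 279 F_1663.f :=
  frame_of rfl c_1663 (runs_of engOK r_1663_0) (by decide +kernel) h.1 h.1

def F_1664 : FrX :=
  ⟨0x482000044040440000c2040020009000182040001022020801020800080108010020410100004400880005084010004440005010020804300100500001,
    0xa0, 1, 0x3051718298a8, 6,
    [(0xa0, 1), (0x538690a2, 4), (0x548790a1, 4), (0x21437690, 4), (0x538690a2, 4), (0x548790a1, 4)],
    [(0x3051718298a8, 6), (0x108392a6, 4), (0x417392a5, 4), (0x40658792, 4), (0x108392a6, 4), (0x417392a5, 4)]⟩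

def c_1664 : frmChk tA tA F_1664 = true := by decide +kernel

def r_1664_0 : chkL rootF engF2 tA tA sA_279 sA_279 4 F_1664 [(511, 0, 0)]
    0x469a152ca168509c3521d8607817264d8074a53141d074e431685a50351586662b823303a0da13c4817 = true := by
  decide +kernel

theorem f_1664 (h : TabsF) : FrameF repsF 279 F_1664.f :=
  frame_of rfl c_1664 (runs_of engOK r_1664_0) (by decide +kernel) h.1 h.1

def F_1665 : FrX :=
  ⟨0x2002000900044004000e020410001410008000408080910000a0000110020101200108000840082000404102011000140082090000808808000900050084,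
    0xa3, 1, 0x3240546372a2, 6,
    [(0xa3, 1), (0x208693a5, 4), (0x10548793, 4), (0x217693a4, 4), (0x208693a5, 4), (0x10548793, 4)],
    [(0x3240546372a2, 6), (0x608297a4, 4), (0x41508397, 4), (0x326597a1, 4), (0x608297a4, 4), (0x41508397, 4)]⟩

def c_1665 : frmChk tA tA F_1665 = true := by decide +kernel

def r_1665_0 : chkL rootF engF2 tA tA sA_279 sA_279 4 F_1665 [(511, 0, 0)]
    0x111c0f81c4b16a0b06c1d05c590cc1705c174581e838e238a2603e2c24c93 = true := by
  decide +kernel

theorem f_1665 (h : TabsF) : FrameF repsF 279 F_1665.f :=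
  frame_of rfl c_1665 (runs_of engOK r_1665_0) (by decide +kernel) h.1 h.1

def F_1666 : FrX :=
  ⟨0x80080a000804040e0000210100200100000204088208020011004020840020800101200140001412000080050110800800420a0402400011008040c0000,
    0xa6, 1, 0x214153607698a2, 7,
    [(0xa6, 1), (0x205396a8, 4), (0x10548796, 4), (0x214396a7, 4), (0x205396a8, 4), (0x10548796, 4)],
    [(0x214153607698a2, 7), (0x307592a6, 4), (0x32647081, 4), (0x30728195, 4), (0x32647081, 4), (0x507293a4, 4), (0x528197a6, 4), (0x30728195, 4), (0x528197a6, 4), (0x20647395, 4), (0x30728195, 4), (0x507293a4, 4)]⟩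

def c_1666 : frmChk tA tB F_1666 = true := by decide +kernel

def r_1666_0 : chkL rootF engF2 tA tB sA_279 sB_279 4 F_1666 [(511, 0, 0)]
    0x11361c8701d2563805c0f41c5c03cd122c952648b22c8b2541b360e8 = true := by
  decide +kernel

theorem f_1666 (h : TabsF) : FrameF repsF 279 F_1666.f :=
  frame_of rfl c_1666 (runs_of engOK r_1666_0) (by decide +kernel) h.1 h.2

def F_1667 : FrX :=
  ⟨0x600020801080810000c0040180410101001004001084000400101200220100008418001200021008400406040401860040001000500000031100440080,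
    0xa0, 1, 0x102141628295a6, 7,
    [(0xa0, 1), (0x637584a2, 4), (0x547690a1, 4), (0x64758390, 4), (0x547690a1, 4), (0x21647385, 4), (0x438690a2, 4), (0x64758390, 4), (0x438690a2, 4), (0x657483a1, 4), (0x64758390, 4), (0x21647385, 4)],
    [(0x102141628295a6, 7), (0x628197a3, 4), (0x415092a7, 4), (0x506397a2, 4), (0x415092a7, 4), (0x738496a2, 4), (0x325081a6, 4), (0x506397a2, 4), (0x325081a6, 4), (0x416372a9, 4), (0x506397a2, 4), (0x738496a2, 4)]⟩

def c_1667 : frmChk tB tB F_1667 = true := by decide +kernel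

def r_1667_0 : chkL rootF engF2 tB tB sB_279 sB_279 4 F_1667 [(511, 0, 0)]
    0x136017 = true := by
  decide +kernel

theorem f_1667 (h : TabsF) : FrameF repsF 279 F_1667.f :=
  frame_of rfl c_1667 (runs_of engOK r_1667_0) (by decide +kernel) h.2 h.2

def F_1668 : FrX :=
  ⟨0x1001040012008080000e008408004100081010000421006040014001010000400820400a000020800018480088040042014020010210008c080024200008,
    0xa3, 1, 0x10627687a2, 5,
    [(0xa3, 1), (0x207584a6, 4), (0x10547693, 4), (0x647593a8, 4), (0x10547693, 4), (0x216485a7, 4), (0x208693a4, 4), (0x647593a8, 4), (0x208693a4, 4), (0x106574a8, 4), (0x647593a8, 4), (0x216485a7, 4)],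
    [(0x10627687a2, 5), (0x537296a1, 4), (0x10548296, 4), (0x438796a0, 4), (0x537296a1, 4), (0x10548296, 4)]⟩

def c_1668 : frmChk tB tA F_1668 = true := by decide +kernel

def r_1668_0 : chkL rootF engF2 tB tA sB_279 sA_279 4 F_1668 [(511, 0, 0)]
    0x106c171a4390e44b14c1e07833 = true := by
  decide +kernel

theorem f_1668 (h : TabsF) : FrameF repsF 279 F_1668.f :=
  frame_of rfl c_1668 (runs_of engOK r_1668_0) (by decide +kernel) h.2 h.1

def F_1669 : FrX :=
  ⟨0x1001040012008080000e00840800410008101000060000100300028841020022080000800080220242804808010008800900008284020000082000211100,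
    0xa3, 1, 0x10324152648395a3, 8,
    [(0xa3, 1), (0x207584a6, 4), (0x10547693, 4), (0x647593a8, 4), (0x10547693, 4), (0x216485a7, 4), (0x208693a4, 4), (0x647593a8, 4), (0x208693a4, 4), (0x106574a8, 4), (0x647593a8, 4), (0x216485a7, 4)],
    [(0x10324152648395a3, 8), (0x205183a9, 4), (0x41728396, 4), (0x547083a6, 4), (0x205183a9, 4), (0x41728396, 4)]⟩

def c_1669 : frmChk tB tA F_1669 = true := by decide +kernel

def r_1669_0 : chkL rootF engF2 tB tA sB_279 sA_279 4 F_1669 [(255, 0, 0), (256, 0, 17)]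
    0x42d06c530ac2b = true := by
  decide +kernel

def r_1669_1 : chkL rootF engF2 tB tA sB_279 sA_279 4 F_1669 [(256, 17, 18)]
    0x41b06c6a06e4384c1e24d434341e0ac2b05cd8 = true := by
  decide +kernel

def r_1669_2 : chkL rootF engF2 tB tA sB_279 sA_279 4 F_1669 [(256, 35, 0)]
    0x1 = true := by
  decide +kernel

theorem f_1669 (h : TabsF) : FrameF repsF 279 F_1669.f :=
  frame_of rfl c_1669 ((runs_of engOK r_1669_0).append ((runs_of engOK r_1669_1).append (runs_of engOK r_1669_2))) (by decide +kernel) h.2 h.1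

def F_1670 : FrX :=
  ⟨0x1001040012008080000e00840800410008101000042008021088400004220000422000220005200040090084008000814008081030030000011008800280,
    0xa3, 1, 0x4064718396a6, 6,
    [(0xa3, 1), (0x207584a6, 4), (0x10547693, 4), (0x647593a8, 4), (0x10547693, 4), (0x216485a7, 4), (0x208693a4, 4), (0x647593a8, 4), (0x208693a4, 4), (0x106574a8, 4), (0x647593a8, 4), (0x216485a7, 4)],
    [(0x4064718396a6, 6), (0x428590a3, 4), (0x31657490, 4), (0x728690a1, 4), (0x428590a3, 4), (0x31657490, 4)]⟩

def c_1670 : frmChk tB tA F_1670 = true := by decide +kernel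

def r_1670_0 : chkL rootF engF2 tB tA sB_279 sA_279 4 F_1670 [(511, 0, 0)]
    0x42b09c1709c27d800f2341e05c2e2701d06ca92e01d2948d4a41706c2e = true := by
  decide +kernel

theorem f_1670 (h : TabsF) : FrameF repsF 279 F_1670.f :=
  frame_of rfl c_1670 (runs_of engOK r_1670_0) (by decide +kernel) h.2 h.1

def F_1671 : FrX :=
  ⟨0x600020801080810000c0040180410101001004001040500000400220820a0000801802000080400b004100240080801804201200110080002100041002,
    0xa0, 1, 0x425062708690a3, 7,
    [(0xa0, 1), (0x637584a2, 4), (0x547690a1, 4), (0x64758390, 4), (0x547690a1, 4), (0x21647385, 4), (0x438690a2, 4), (0x64758390, 4), (0x438690a2, 4), (0x657483a1, 4), (0x64758390, 4), (0x21647385, 4)],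
    [(0x425062708690a3, 7), (0x425096a8, 4), (0x20738591, 4), (0x507382a4, 4), (0x20738591, 4), (0x406182a5, 4), (0x738496a2, 4), (0x507382a4, 4), (0x738496a2, 4), (0x528091a4, 4), (0x507382a4, 4), (0x406182a5, 4)]⟩

def c_1671 : frmChk tB tB F_1671 = true := by decide +kernel

def r_1671_0 : chkL rootF engF2 tB tB sB_279 sB_279 4 F_1671 [(511, 0, 0)]
    0x10cc1b0781d8a44b06c1b03c2b1d0a5296a411c0f0cc4b = true := by
  decide +kernel

theorem f_1671 (h : TabsF) : FrameF repsF 279 F_1671.f :=
  frame_of rfl c_1671 (runs_of engOK r_1671_0) (by decide +kernel) h.2 h.2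

def F_1672 : FrX :=
  ⟨0x1001040012008080000e00840800410008101000060000028080400140880180404200000100404140084200400010104000088c000400004a8410040048,
    0xa3, 1, 0x2041607193a1, 6,
    [(0xa3, 1), (0x207584a6, 4), (0x10547693, 4), (0x647593a8, 4), (0x10547693, 4), (0x216485a7, 4), (0x208693a4, 4), (0x647593a8, 4), (0x208693a4, 4), (0x106574a8, 4), (0x647593a8, 4), (0x216485a7, 4)],
    [(0x2041607193a1, 6), (0x60738295, 4), (0x517384a6, 4), (0x427391a0, 4), (0x60738295, 4), (0x517384a6, 4)]⟩

def c_1672 : frmChk tB tA F_1672 = true := by decide +kernel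

def r_1672_0 : chkL rootF engF2 tB tA sB_279 sA_279 4 F_1672 [(511, 0, 0)]
    0x4c50cc3305c0f0b417 = true := by
  decide +kernel

theorem f_1672 (h : TabsF) : FrameF repsF 279 F_1672.f :=
  frame_of rfl c_1672 (runs_of engOK r_1672_0) (by decide +kernel) h.2 h.1

def F_1673 : FrX :=
  ⟨0x1001040012008080000e0084080041000810100004080804800802800021009008000088211100104082200800102000200400040500041050000a801100,
    0xa3, 1, 0x435160758795a8, 7,
    [(0xa3, 1), (0x207584a6, 4), (0x10547693, 4), (0x647593a8, 4), (0x10547693, 4), (0x216485a7, 4), (0x208693a4, 4), (0x647593a8, 4), (0x208693a4, 4), (0x106574a8, 4), (0x647593a8, 4), (0x216485a7, 4)],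
    [(0x435160758795a8, 7), (0x627194a0, 4), (0x657193a8, 4), (0x43527180, 4), (0x627194a0, 4), (0x657193a8, 4)]⟩

def c_1673 : frmChk tB tA F_1673 = true := by decide +kernel

def r_1673_0 : chkL rootF engF2 tB tA sB_279 sA_279 4 F_1673 [(511, 0, 0)]
    0x10f01b06c2d09c2706c1e0783ad081e09c2b09c4d2649926456 = true := by
  decide +kernel

theorem f_1673 (h : TabsF) : FrameF repsF 279 F_1673.f :=
  frame_of rfl c_1673 (runs_of engOK r_1673_0) (by decide +kernel) h.2 h.1

def F_1674 : FrX :=
  ⟨0x1c4044000008081000000840080410000101084042200100001081000020800804101110022210000428440022008020100002088824040006008020200,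
    0x0, 0, 0x21546487, 4,
    [(0x0, 0), (0x20637584, 4), (0x105476a9, 4), (0x647583a9, 4), (0x105476a9, 4), (0x21647385, 4), (0x204386a9, 4), (0x647583a9, 4), (0x204386a9, 4), (0x10657483, 4), (0x647583a9, 4), (0x21647385, 4)],
    [(0x21546487, 4), (0x104375a9, 4), (0x206487a9, 4), (0x216385a9, 4), (0x104375a9, 4), (0x206487a9, 4)]⟩

def c_1674 : frmChk tB tA F_1674 = true := by decide +kernel

def r_1674_0 : chkL rootF engF2 tB tA sB_279 sA_279 4 F_1674 [(255, 0, 0), (256, 0, 6)]
    0x10b82e = true := by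
  decide +kernel

def r_1674_1 : chkL rootF engF2 tB tA sB_279 sA_279 4 F_1674 [(256, 6, 6)]
    0x41d = true := by
  decide +kernel

def r_1674_2 : chkL rootF engF2 tB tA sB_279 sA_279 4 F_1674 [(256, 12, 13)]
    0x41d = true := by
  decide +kernel

def r_1674_3 : chkL rootF engF2 tB tA sB_279 sA_279 4 F_1674 [(256, 25, 4)]
    0x1 = true := by
  decide +kernel

def r_1674_4 : chkL rootF engF2 tB tA sB_279 sA_279 4 F_1674 [(256, 29, 0)]
    0x1074aa = true := by
  decide +kernel

theorem f_1674 (h : TabsF) : FrameF repsF 279 F_1674.f :=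
  frame_of rfl c_1674 ((runs_of engOK r_1674_0).append ((runs_of engOK r_1674_1).append ((runs_of engOK r_1674_2).append ((runs_of engOK r_1674_3).append (runs_of engOK r_1674_4))))) (by decide +kernel) h.2 h.1

def F_1675 : FrX :=
  ⟨0x1001040012008080000e008408004100081010000480100080a00001400800a2420200008104004142004200440000104100080810050000409002042008,
    0xa3, 1, 0x658691a7, 4,
    [(0xa3, 1), (0x207584a6, 4), (0x10547693, 4), (0x647593a8, 4), (0x10547693, 4), (0x216485a7, 4), (0x208693a4, 4), (0x647593a8, 4), (0x208693a4, 4), (0x106574a8, 4), (0x647593a8, 4), (0x216485a7, 4)],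
    [(0x658691a7, 4), (0x205483a6, 4), (0x647190a8, 4), (0x537184a6, 4), (0x647190a8, 4), (0x658492a3, 4), (0x20437185, 4), (0x537184a6, 4), (0x20437185, 4), (0x538690a4, 4), (0x537184a6, 4), (0x658492a3, 4)]⟩

def c_1675 : frmChk tB tB F_1675 = true := by decide +kernel

def r_1675_0 : chkL rootF engF2 tB tB sB_279 sB_279 4 F_1675 [(511, 0, 0)]
    0x10b8360e41e07a138c872 = true := by
  decide +kernel

theorem f_1675 (h : TabsF) : FrameF repsF 279 F_1675.f :=
  frame_of rfl c_1675 (runs_of engOK r_1675_0) (by decide +kernel) h.2 h.2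

def F_1676 : FrX :=
  ⟨0x80080a000804040e0000210100200100000204089002000805000080820400402050100801003101080800002c001002024002004001021000902460000,
    0xa6, 1, 0x325364718092a6, 7,
    [(0xa6, 1), (0x205396a8, 4), (0x10548796, 4), (0x214396a7, 4), (0x205396a8, 4), (0x10548796, 4)],
    [(0x325364718092a6, 7), (0x435298a0, 4), (0x10436287, 4), (0x436597a1, 4), (0x435298a0, 4), (0x10436287, 4)]⟩

def c_1676 : frmChk tA tA F_1676 = true := by decide +kernel

def r_1676_0 : chkL rootF engF2 tA tA sA_279 sA_279 4 F_1676 [(511, 0, 0)]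
    0x107433a5116c5056170b109e0791869c0f03c4856 = true := by
  decide +kernel

theorem f_1676 (h : TabsF) : FrameF repsF 279 F_1676.f :=
  frame_of rfl c_1676 (runs_of engOK r_1676_0) (by decide +kernel) h.1 h.1

def F_1677 : FrX :=
  ⟨0x2002000900044004000e02041000141000800040800400482120002400020a0180000010110400040c0001010300008011000a0006050000100840213000,
    0xa3, 1, 0x41607585a4, 5,
    [(0xa3, 1), (0x208693a5, 4), (0x10548793, 4), (0x217693a4, 4), (0x208693a5, 4), (0x10548793, 4)],
    [(0x41607585a4, 5), (0x62708391, 4), (0x647591a8, 4), (0x425091a3, 4), (0x62708391, 4), (0x647591a8, 4)]⟩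

def c_1677 : frmChk tA tA F_1677 = true := by decide +kernel

def r_1677_0 : chkL rootF engF2 tA tA sA_279 sA_279 4 F_1677 [(511, 0, 0)]
    0x103c2d328330d42707863 = true := by
  decide +kernel

theorem f_1677 (h : TabsF) : FrameF repsF 279 F_1677.f :=
  frame_of rfl c_1677 (runs_of engOK r_1677_0) (by decide +kernel) h.1 h.1

def F_1678 : FrX :=
  ⟨0x80080a000804040e00002101002001000002040880421002010100400204004020500060004040010810000223400040281108001010121004003800000,
    0xa6, 1, 0x3152628291a8, 6,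
    [(0xa6, 1), (0x205396a8, 4), (0x10548796, 4), (0x214396a7, 4), (0x205396a8, 4), (0x10548796, 4)],
    [(0x3152628291a8, 6), (0x517280a4, 4), (0x42637590, 4), (0x546372a1, 4), (0x42637590, 4), (0x547198a2, 4), (0x416380a5, 4), (0x546372a1, 4), (0x416380a5, 4), (0x527490a1, 4), (0x546372a1, 4), (0x547198a2, 4)]⟩

def c_1678 : frmChk tA tB F_1678 = true := by decide +kernel

def r_1678_0 : chkL rootF engF2 tA tB sA_279 sB_279 4 F_1678 [(511, 0, 0)]
    0x115a295914c154562346c1661c48c5990c5907855d084b98760 = true := by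
  decide +kernel

theorem f_1678 (h : TabsF) : FrameF repsF 279 F_1678.f :=
  frame_of rfl c_1678 (runs_of engOK r_1678_0) (by decide +kernel) h.1 h.2

def F_1679 : FrX :=
  ⟨0x2002000900044004000e02041000141000800040800801014008024002004880200100120010808080420110a00000101084000006008800400202021011,
    0xa3, 1, 0x32435363768196a5, 8,
    [(0xa3, 1), (0x208693a5, 4), (0x10548793, 4), (0x217693a4, 4), (0x208693a5, 4), (0x10548793, 4)],
    [(0x32435363768196a5, 8), (0x307491a6, 4), (0x517480a2, 4), (0x62748395, 4), (0x307491a6, 4), (0x517480a2, 4)]⟩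

def c_1679 : frmChk tA tA F_1679 = true := by decide +kernel

def r_1679_0 : chkL rootF engF2 tA tA sA_279 sA_279 4 F_1679 [(511, 0, 0)]
    0x10f0470cd8c331c806c1709c1b = true := by
  decide +kernel

theorem f_1679 (h : TabsF) : FrameF repsF 279 F_1679.f :=
  frame_of rfl c_1679 (runs_of engOK r_1679_0) (by decide +kernel) h.1 h.1

def F_1680 : FrX :=
  ⟨0x482000044040440000c2040020009000182040010020048108000084010108208400001008009008000030800a01400048005010080808100a02000084,
    0xa0, 1, 0x103252647193a3, 7,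
    [(0xa0, 1), (0x538690a2, 4), (0x548790a1, 4), (0x21437690, 4), (0x538690a2, 4), (0x548790a1, 4)],
    [(0x103252647193a3, 7), (0x305186a4, 4), (0x40637192, 4), (0x306492a8, 4), (0x40637192, 4), (0x647583a0, 4), (0x518492a6, 4), (0x306492a8, 4), (0x518492a6, 4), (0x436071a8, 4), (0x306492a8, 4), (0x647583a0, 4)]⟩

def c_1680 : frmChk tA tB F_1680 = true := by decide +kernel

def r_1680_0 : chkL rootF engF2 tA tB sA_279 sB_279 4 F_1680 [(511, 0, 0)]
    0x42b1c43905c3505c2b0d538264690d5382a89a0786619b28c922381f2105c0f03c0fca32488e07c841d03c0f0e4390cce13840f5500fd11610741e24c3524e1ca2a86316c40d623834c56140f03c17 = true := by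
  decide +kernel

theorem f_1680 (h : TabsF) : FrameF repsF 279 F_1680.f :=
  frame_of rfl c_1680 (runs_of engOK r_1680_0) (by decide +kernel) h.1 h.2

def F_1681 : FrX :=
  ⟨0x80080a000804040e000021010020010000020408a0001001100090020224001000100c21004044080050000888000408021000031008400204040808400,
    0xa6, 1, 0x10218692a4, 5,
    [(0xa6, 1), (0x205396a8, 4), (0x10548796, 4), (0x214396a7, 4), (0x205396a8, 4), (0x10548796, 4)],
    [(0x10218692a4, 5), (0x758391a6, 4), (0x214087a5, 4), (0x406375a8, 4), (0x214087a5, 4), (0x657392a8, 4), (0x408691a3, 4), (0x406375a8, 4), (0x408691a3, 4), (0x216385a7, 4), (0x406375a8, 4), (0x657392a8, 4)]⟩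

def c_1681 : frmChk tA tB F_1681 = true := by decide +kernel

def r_1681_0 : chkL rootF engF2 tA tB sA_279 sB_279 4 F_1681 [(511, 0, 0)]
    0x42d03c4d09c5314c2d0b41b0b81e1340f0ccd8 = true := by
  decide +kernel

theorem f_1681 (h : TabsF) : FrameF repsF 279 F_1681.f :=
  frame_of rfl c_1681 (runs_of engOK r_1681_0) (by decide +kernel) h.1 h.2

theorem cl_279 (h : TabsF) : ∀ f ∈ fr_279, FrameF repsF 279 f :=
  List.forall_mem_cons.2 ⟨f_1654 h, List.forall_mem_cons.2 ⟨f_1655 h, List.forall_mem_cons.2 ⟨f_1656 h, List.forall_mem_cons.2 ⟨f_1657 h, List.forall_mem_cons.2 ⟨f_1658 h, List.forall_mem_cons.2 ⟨f_1659 h, List.forall_mem_cons.2 ⟨f_1660 h, List.forall_mem_cons.2 ⟨f_1661 h, List.forall_mem_cons.2 ⟨f_1662 h, List.forall_mem_cons.2 ⟨f_1663 h, List.forall_mem_cons.2 ⟨f_1664 h, List.forall_mem_cons.2 ⟨f_1665 h, List.forall_mem_cons.2 ⟨f_1666 h, List.forall_mem_cons.2 ⟨f_1667 h, List.forall_mem_cons.2 ⟨f_1668 h, List.forall_mem_cons.2 ⟨f_1669 h, List.forall_mem_cons.2 ⟨f_1670 h, List.forall_mem_cons.2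 ⟨f_1671 h, List.forall_mem_cons.2 ⟨f_1672 h, List.forall_mem_cons.2 ⟨f_1673 h, List.forall_mem_cons.2 ⟨f_1674 h, List.forall_mem_cons.2 ⟨f_1675 h, List.forall_mem_cons.2 ⟨f_1676 h, List.forall_mem_cons.2 ⟨f_1677 h, List.forall_mem_cons.2 ⟨f_1678 h, List.forall_mem_cons.2 ⟨f_1679 h, List.forall_mem_cons.2 ⟨f_1680 h, List.forall_mem_cons.2 ⟨f_1681 h,
    fun _ h0 => absurd h0 List.not_mem_nil⟩⟩⟩⟩⟩⟩⟩⟩⟩⟩⟩⟩⟩⟩⟩⟩⟩⟩⟩⟩⟩⟩⟩⟩⟩⟩⟩⟩

def F_1682 : FrX :=
  ⟨0x80080a000804040e000021010020010000020408a000020440040018022400008088005810020810009000021200800020831100000800a002024080010,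
    0xa6, 1, 0x10213062768198a0, 8,
    [(0xa6, 1), (0x205396a8, 4), (0x10548796, 4), (0x214396a7, 4), (0x205396a8, 4), (0x10548796, 4)],
    [(0x10213062768198a0, 8), (0x325197a6, 4), (0x325490a8, 4), (0x32417086, 4), (0x325197a6, 4), (0x325490a8, 4)]⟩

def c_1682 : frmChk tA tA F_1682 = true := by decide +kernel

def r_1682_0 : chkL rootF engF2 tA tA sA_280 sA_280 4 F_1682 [(511, 0, 0)]
    0x46313a25c27211594a9501d0b6d0 = true := by
  decide +kernel

theorem f_1682 (h : TabsF) : FrameF repsF 280 F_1682.f :=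
  frame_of rfl c_1682 (runs_of engOK r_1682_0) (by decide +kernel) h.1 h.1

def F_1683 : FrX :=
  ⟨0x80080a000804040e000021010020010000020408a00c04000800881020000800210140000440220004208005010100820100080805401200402000c0080,
    0xa6, 1, 0x31407682a6, 5,
    [(0xa6, 1), (0x205396a8, 4), (0x10548796, 4), (0x214396a7, 4), (0x205396a8, 4), (0x10548796, 4)],
    [(0x31407682a6, 5), (0x518497a2, 4), (0x43506297, 4), (0x108397a6, 4), (0x518497a2, 4), (0x43506297, 4)]⟩

def c_1683 : frmChk tA tA F_1683 = true := by decide +kernel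

def r_1683_0 : chkL rootF engF2 tA tA sA_280 sA_280 4 F_1683 [(255, 0, 0), (256, 0, 20)]
    0x109c6a03d680d40f0f036078630b8936189624c9330c0f03c95a4459078743901e685e007456 = true := by
  decide +kernel

def r_1683_1 : chkL rootF engF2 tA tA sA_280 sA_280 4 F_1683 [(256, 20, 0)]
    0x48b05c5603c65361521640f158539441d0f0a611c59330591345936071168561684b = true := by
  decide +kernel

theorem f_1683 (h : TabsF) : FrameF repsF 280 F_1683.f :=
  frame_of rfl c_1683 ((runs_of engOK r_1683_0).append (runs_of engOK r_1683_1)) (by decide +kernel) h.1 h.1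

def F_1684 : FrX :=
  ⟨0x2002000900044004000e020410001410008000408006200280014004000408002200202200040410400200484010000c0001808800500222002202004004,
    0xa3, 1, 0x204251617292a2, 7,
    [(0xa3, 1), (0x208693a5, 4), (0x10548793, 4), (0x217693a4, 4), (0x208693a5, 4), (0x10548793, 4)],
    [(0x204251617292a2, 7), (0x415380a2, 4), (0x10546297, 4), (0x41508397, 4), (0x10546297, 4), (0x435081a6, 4), (0x308597a2, 4), (0x41508397, 4), (0x308597a2, 4), (0x40516283, 4), (0x41508397, 4), (0x435081a6, 4)]⟩

def c_1684 : frmChk tA tB F_1684 = true := by decide +kernel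

def r_1684_0 : chkL rootF engF2 tA tB sA_280 sB_280 4 F_1684 [(511, 0, 0)]
    0x43a0e4ca2e24603eb009c6509c0f0cc710780f0783609c2b05c2d1c9c15502712c0f03c0f03c0f03c1e5901e = true := by
  decide +kernel

theorem f_1684 (h : TabsF) : FrameF repsF 280 F_1684.f :=
  frame_of rfl c_1684 (runs_of engOK r_1684_0) (by decide +kernel) h.1 h.2

def F_1685 : FrX :=
  ⟨0x2002000900044004000e02041000141000800040810000028080804200812002100080201001082000c1c004001008800014001020410200401000824200,
    0xa3, 1, 0x324260728391a5, 7,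
    [(0xa3, 1), (0x208693a5, 4), (0x10548793, 4), (0x217693a4, 4), (0x208693a5, 4), (0x10548793, 4)],
    [(0x324260728391a5, 7), (0x205176a8, 4), (0x425196a3, 4), (0x40518397, 4), (0x205176a8, 4), (0x425196a3, 4)]⟩

def c_1685 : frmChk tA tA F_1685 = true := by decide +kernel

def r_1685_0 : chkL rootF engF2 tA tA sA_280 sA_280 4 F_1685 [(511, 0, 0)]
    0x46a06ca6a901e6902d1943912c391e05c0d417 = true := by
  decide +kernel

theorem f_1685 (h : TabsF) : FrameF repsF 280 F_1685.f :=
  frame_of rfl c_1685 (runs_of engOK r_1685_0) (by decide +kernel) h.1 h.1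

def F_1686 : FrX :=
  ⟨0x482000044040440000c204002000900018204000201090001020101000404202020042000400580840000410300000a080088080020221200200800401,
    0xa0, 1, 0x10203064708295a2, 8,
    [(0xa0, 1), (0x538690a2, 4), (0x548790a1, 4), (0x21437690, 4), (0x538690a2, 4), (0x548790a1, 4)],
    [(0x10203064708295a2, 8), (0x418592a7, 4), (0x31708596, 4), (0x436285a0, 4), (0x418592a7, 4), (0x31708596, 4)]⟩

def c_1686 : frmChk tA tA F_1686 = true := by decide +kernel

def r_1686_0 : chkL rootF engF2 tA tA sA_280 sA_280 4 F_1686 [(511, 0, 0)]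
    0x5346c01e0cc1e = true := by
  decide +kernel

theorem f_1686 (h : TabsF) : FrameF repsF 280 F_1686.f :=
  frame_of rfl c_1686 (runs_of engOK r_1686_0) (by decide +kernel) h.1 h.1

def F_1687 : FrX :=
  ⟨0x482000044040440000c20400200090001820400008840008008808000400808048220205000080100401110840008020010021100844001080a0100001,
    0xa0, 1, 0x315261748296a7, 7,
    [(0xa0, 1), (0x538690a2, 4), (0x548790a1, 4), (0x21437690, 4), (0x538690a2, 4), (0x548790a1, 4)],
    [(0x315261748296a7, 7), (0x21438095, 4), (0x436072a5, 4), (0x437186a9, 4), (0x21438095, 4), (0x436072a5, 4)]⟩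

def c_1687 : frmChk tA tA F_1687 = true := by decide +kernel

def r_1687_0 : chkL rootF engF2 tA tA sA_280 sA_280 4 F_1687 [(255, 0, 0), (256, 0, 19)]
    0x42d = true := by
  decide +kernel

def r_1687_1 : chkL rootF engF2 tA tA sA_280 sA_280 4 F_1687 [(256, 19, 16)]
    0x11a41730f2430ec105c17 = true := by
  decide +kernel

def r_1687_2 : chkL rootF engF2 tA tA sA_280 sA_280 4 F_1687 [(256, 35, 0)]
    0x417 = true := by
  decide +kernel

theorem f_1687 (h : TabsF) : FrameF repsF 280 F_1687.f :=
  frame_of rfl c_1687 ((runs_of engOK r_1687_0).append ((runs_of engOK r_1687_1).append (runs_of engOK r_1687_2))) (by decide +kernel) h.1 h.1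

def F_1688 : FrX :=
  ⟨0x482000044040440000c2040020009000182040004008220804080004080088200022010200910401000041080001010010211001050004011200008210,
    0xa0, 1, 0x2041607184a2, 6,
    [(0xa0, 1), (0x538690a2, 4), (0x548790a1, 4), (0x21437690, 4), (0x538690a2, 4), (0x548790a1, 4)],
    [(0x2041607184a2, 6), (0x325481a6, 4), (0x42768590, 4), (0x31548290, 4), (0x42768590, 4), (0x435182a7, 4), (0x218390a6, 4), (0x31548290, 4), (0x218390a6, 4), (0x31527684, 4), (0x31548290, 4), (0x435182a7, 4)]⟩

def c_1688 : frmChk tA tB F_1688 = true := by decide +kernel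

def r_1688_0 : chkL rootF engF2 tA tB sA_280 sB_280 4 F_1688 [(511, 0, 0)]
    0x13483505c1b06c1b2701703c0f12c5c1705c1705c1704b05d234a417 = true := by
  decide +kernel

theorem f_1688 (h : TabsF) : FrameF repsF 280 F_1688.f :=
  frame_of rfl c_1688 (runs_of engOK r_1688_0) (by decide +kernel) h.1 h.2

def F_1689 : FrX :=
  ⟨0x2002000900044004000e0204100014100080004081000001810200240a000a00220200000808010880080111800042240100840004808000202024001010,
    0xa3, 1, 0x415363728697a6, 7,
    [(0xa3, 1), (0x208693a5, 4), (0x10548793, 4), (0x217693a4, 4), (0x208693a5, 4), (0x10548793, 4)],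
    [(0x415363728697a6, 7), (0x517093a6, 4), (0x314082a9, 4), (0x658293a1, 4), (0x314082a9, 4), (0x537496a1, 4), (0x617082a5, 4), (0x658293a1, 4), (0x617082a5, 4), (0x406591a3, 4), (0x658293a1, 4), (0x537496a1, 4)]⟩

def c_1689 : frmChk tA tB F_1689 = true := by decide +kernel

def r_1689_0 : chkL rootF engF2 tA tB sA_280 sB_280 4 F_1689 [(255, 0, 0), (256, 0, 20)]
    0x105c0f23a0da32a1a16c4 = true := by
  decide +kernel

def r_1689_1 : chkL rootF engF2 tA tB sA_280 sB_280 4 F_1689 [(256, 20, 0)]
    0x12b04703c17 = true := by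
  decide +kernel

theorem f_1689 (h : TabsF) : FrameF repsF 280 F_1689.f :=
  frame_of rfl c_1689 ((runs_of engOK r_1689_0).append (runs_of engOK r_1689_1)) (by decide +kernel) h.1 h.2

def F_1690 : FrX :=
  ⟨0x2002000900044004000e02041000141000800040800801014010200008104082000206004024001010040012000402008080108080821020001084210041,
    0xa3, 1, 0x52647296a3, 5,
    [(0xa3, 1), (0x208693a5, 4), (0x10548793, 4), (0x217693a4, 4), (0x208693a5, 4), (0x10548793, 4)],
    [(0x52647296a3, 5), (0x437098a2, 4), (0x10436285, 4), (0x437195a6, 4), (0x437098a2, 4), (0x10436285, 4)]⟩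

def c_1690 : frmChk tA tA F_1690 = true := by decide +kernel

def r_1690_0 : chkL rootF engF2 tA tA sA_280 sA_280 4 F_1690 [(255, 0, 0), (256, 0, 18)]
    0x472 = true := by
  decide +kernel

def r_1690_1 : chkL rootF engF2 tA tA sA_280 sA_280 4 F_1690 [(256, 18, 0)]
    0x417 = true := by
  decide +kernel

theorem f_1690 (h : TabsF) : FrameF repsF 280 F_1690.f :=
  frame_of rfl c_1690 ((runs_of engOK r_1690_0).append (runs_of engOK r_1690_1)) (by decide +kernel) h.1 h.1

def F_1691 : FrX :=
  ⟨0x1c2102000004044000002041000101000082040888200008008080004000242020601000900010080080111880242204100041085108000240004800000,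
    0x0, 0, 0x107583, 3,
    [(0x0, 0), (0x205386a9, 4), (0x105487a9, 4), (0x214376a9, 4), (0x205386a9, 4), (0x105487a9, 4)],
    [(0x107583, 3), (0x216387a9, 4), (0x105374a9, 4), (0x206584a9, 4), (0x216387a9, 4), (0x105374a9, 4)]⟩

def c_1691 : frmChk tA tA F_1691 = true := by decide +kernel

def r_1691_0 : chkL rootF engF2 tA tA sA_280 sA_280 4 F_1691 [(255, 0, 0), (256, 0, 11)]
    0x5467814553017 = true := by
  decide +kernel

def r_1691_1 : chkL rootF engF2 tA tA sA_280 sA_280 4 F_1691 [(256, 11, 5)]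
    0x103c5c = true := by
  decide +kernel

def r_1691_2 : chkL rootF engF2 tA tA sA_280 sA_280 4 F_1691 [(256, 16, 4)]
    0x4270740f = true := by
  decide +kernel

def r_1691_3 : chkL rootF engF2 tA tA sA_280 sA_280 4 F_1691 [(256, 20, 6)]
    0x1 = true := by
  decide +kernel

def r_1691_4 : chkL rootF engF2 tA tA sA_280 sA_280 4 F_1691 [(256, 26, 0)]
    0x4170741d83427 = true := by
  decide +kernel

theorem f_1691 (h : TabsF) : FrameF repsF 280 F_1691.f :=
  frame_of rfl c_1691 ((runs_of engOK r_1691_0).append ((runs_of engOK r_1691_1).append ((runs_of engOK r_1691_2).append ((runs_of engOK r_1691_3).append (runs_of engOK r_1691_4))))) (by decide +kernel) h.1 h.1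

def F_1692 : FrX :=
  ⟨0x2002000900044004000e02041000141000800040810000018110000208202108100300001008008820800404800004040422210006200000204004041011,
    0xa3, 1, 0x21607495a3, 5,
    [(0xa3, 1), (0x208693a5, 4), (0x10548793, 4), (0x217693a4, 4), (0x208693a5, 4), (0x10548793, 4)],
    [(0x21607495a3, 5), (0x536180a9, 4), (0x53628497, 4), (0x214053a7, 4), (0x536180a9, 4), (0x53628497, 4)]⟩

def c_1692 : frmChk tA tA F_1692 = true := by decide +kernel

def r_1692_0 : chkL rootF engF2 tA tA sA_280 sA_280 4 F_1692 [(511, 0, 0)]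
    0x11a83309c35 = true := by
  decide +kernel

theorem f_1692 (h : TabsF) : FrameF repsF 280 F_1692.f :=
  frame_of rfl c_1692 (runs_of engOK r_1692_0) (by decide +kernel) h.1 h.1

def F_1693 : FrX :=
  ⟨0x80080a000804040e00002101002001000002040882200001101090004042002020024000c000100800808018802502040000410850009002400c0200000,
    0xa6, 1, 0x3242728797a1, 6,
    [(0xa6, 1), (0x205396a8, 4), (0x10548796, 4), (0x214396a7, 4), (0x205396a8, 4), (0x10548796, 4)],
    [(0x3242728797a1, 6), (0x43627095, 4), (0x538196a0, 4), (0x42638195, 4), (0x538196a0, 4), (0x546392a7, 4), (0x32647081, 4), (0x42638195, 4), (0x32647081, 4), (0x426593a0, 4), (0x42638195, 4), (0x546392a7, 4)]⟩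

def c_1693 : frmChk tA tB F_1693 = true := by decide +kernel

def r_1693_0 : chkL rootF engF2 tA tB sA_280 sB_280 4 F_1693 [(511, 0, 0)]
    0x10cc59164591641b164591a833 = true := by
  decide +kernel

theorem f_1693 (h : TabsF) : FrameF repsF 280 F_1693.f :=
  frame_of rfl c_1693 (runs_of engOK r_1693_0) (by decide +kernel) h.1 h.2

def F_1694 : FrX :=
  ⟨0x1001040012008080000e008408004100081010000409000018200100200020228081400042a000010008800482800021008000010a200848002050200004,
    0xa3, 1, 0x2130536293a6, 6,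
    [(0xa3, 1), (0x207584a6, 4), (0x10547693, 4), (0x647593a8, 4), (0x10547693, 4), (0x216485a7, 4), (0x208693a4, 4), (0x647593a8, 4), (0x208693a4, 4), (0x106574a8, 4), (0x647593a8, 4), (0x216485a7, 4)],
    [(0x2130536293a6, 6), (0x516390a8, 4), (0x32405187, 4), (0x516294a7, 4), (0x516390a8, 4), (0x32405187, 4)]⟩

def c_1694 : frmChk tB tA F_1694 = true := by decide +kernel

def r_1694_0 : chkL rootF engF2 tB tA sB_280 sA_280 4 F_1694 [(255, 0, 0), (256, 0, 13)]
    0x41d0742d = true := by
  decide +kernel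

def r_1694_1 : chkL rootF engF2 tB tA sB_280 sA_280 4 F_1694 [(256, 13, 12)]
    0x1 = true := by
  decide +kernel

def r_1694_2 : chkL rootF engF2 tB tA sB_280 sA_280 4 F_1694 [(256, 25, 0)]
    0x105c2d05c0f1a86a05c1e = true := by
  decide +kernel

theorem f_1694 (h : TabsF) : FrameF repsF 280 F_1694.f :=
  frame_of rfl c_1694 ((runs_of engOK r_1694_0).append ((runs_of engOK r_1694_1).append (runs_of engOK r_1694_2))) (by decide +kernel) h.2 h.1

def F_1695 : FrX :=
  ⟨0x1001040012008080000e00840800410008101000060000081100322000280044000008080080804120210040c00820024800020260010001008002220100,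
    0xa3, 1, 0x314254748494a6, 7,
    [(0xa3, 1), (0x207584a6, 4), (0x10547693, 4), (0x647593a8, 4), (0x10547693, 4), (0x216485a7, 4), (0x208693a4, 4), (0x647593a8, 4), (0x208693a4, 4), (0x106574a8, 4), (0x647593a8, 4), (0x216485a7, 4)],
    [(0x314254748494a6, 7), (0x214086a7, 4), (0x30758692, 4), (0x438691a5, 4), (0x214086a7, 4), (0x30758692, 4)]⟩

def c_1695 : frmChk tB tA F_1695 = true := by decide +kernel

def r_1695_0 : chkL rootF engF2 tB tA sB_280 sA_280 4 F_1695 [(255, 0, 0), (256, 0, 18)]
    0x43303c3305c5903c5903caa09c3986a1a = true := by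
  decide +kernel

def r_1695_1 : chkL rootF engF2 tB tA sB_280 sA_280 4 F_1695 [(256, 18, 17)]
    0x41e07433074330b43a = true := by
  decide +kernel

def r_1695_2 : chkL rootF engF2 tB tA sB_280 sA_280 4 F_1695 [(256, 35, 0)]
    0x1 = true := by
  decide +kernel

theorem f_1695 (h : TabsF) : FrameF repsF 280 F_1695.f :=
  frame_of rfl c_1695 ((runs_of engOK r_1695_0).append ((runs_of engOK r_1695_1).append (runs_of engOK r_1695_2))) (by decide +kernel) h.2 h.1

def F_1696 : FrX :=
  ⟨0x1001040012008080000e0084080041000810100004048008012001004002002280800a001200082006800084820000410840200108220800002000201104,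
    0xa3, 1, 0x51618593a4, 5,
    [(0xa3, 1), (0x207584a6, 4), (0x10547693, 4), (0x647593a8, 4), (0x10547693, 4), (0x216485a7, 4), (0x208693a4, 4), (0x647593a8, 4), (0x208693a4, 4), (0x106574a8, 4), (0x647593a8, 4), (0x216485a7, 4)],
    [(0x51618593a4, 5), (0x208795a1, 4), (0x436075a8, 4), (0x438791a5, 4), (0x436075a8, 4), (0x628197a5, 4), (0x204351a9, 4), (0x438791a5, 4), (0x204351a9, 4), (0x608591a7, 4), (0x438791a5, 4), (0x628197a5, 4)]⟩

def c_1696 : frmChk tB tB F_1696 = true := by decide +kernel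

def r_1696_0 : chkL rootF engF2 tB tB sB_280 sB_280 4 F_1696 [(511, 0, 0)]
    0x41705c950b4950cc690e81e16471256852545315427 = true := by
  decide +kernel

theorem f_1696 (h : TabsF) : FrameF repsF 280 F_1696.f :=
  frame_of rfl c_1696 (runs_of engOK r_1696_0) (by decide +kernel) h.2 h.2

def F_1697 : FrX :=
  ⟨0x80080a000804040e00002101002001000002040890020008608008008810004004401010000085000028001010441002024008420000209500080820100,
    0xa6, 1, 0x42546396a6, 5,
    [(0xa6, 1), (0x205396a8, 4), (0x10548796, 4), (0x214396a7, 4), (0x205396a8, 4), (0x10548796, 4)],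
    [(0x42546396a6, 5), (0x406293a8, 4), (0x10528793, 4), (0x416593a7, 4), (0x406293a8, 4), (0x10528793, 4)]⟩

def c_1697 : frmChk tA tA F_1697 = true := by decide +kernel

def r_1697_0 : chkL rootF engF2 tA tA sA_280 sA_280 4 F_1697 [(511, 0, 0)]
    0x10744e138561584707455164591644b0744e03c1b = true := by
  decide +kernel

theorem f_1697 (h : TabsF) : FrameF repsF 280 F_1697.f :=
  frame_of rfl c_1697 (runs_of engOK r_1697_0) (by decide +kernel) h.1 h.1

theorem cl_280 (h : TabsF) : ∀ f ∈ fr_280, FrameF repsF 280 f :=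
  List.forall_mem_cons.2 ⟨f_1682 h, List.forall_mem_cons.2 ⟨f_1683 h, List.forall_mem_cons.2 ⟨f_1684 h, List.forall_mem_cons.2 ⟨f_1685 h, List.forall_mem_cons.2 ⟨f_1686 h, List.forall_mem_cons.2 ⟨f_1687 h, List.forall_mem_cons.2 ⟨f_1688 h, List.forall_mem_cons.2 ⟨f_1689 h, List.forall_mem_cons.2 ⟨f_1690 h, List.forall_mem_cons.2 ⟨f_1691 h, List.forall_mem_cons.2 ⟨f_1692 h, List.forall_mem_cons.2 ⟨f_1693 h, List.forall_mem_cons.2 ⟨f_1694 h, List.forall_mem_cons.2 ⟨f_1695 h, List.forall_mem_cons.2 ⟨f_1696 h, List.forall_mem_cons.2 ⟨f_1697 h,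
    fun _ h0 => absurd h0 List.not_mem_nil⟩⟩⟩⟩⟩⟩⟩⟩⟩⟩⟩⟩⟩⟩⟩⟩

/-- the classes finished in this module -/
theorem all_L15 (h : TabsF) : ∀ p ∈ ([(274, fr_274), (275, fr_275), (276, fr_276), (277, fr_277), (278, fr_278), (279, fr_279), (280, fr_280)] : List (ℕ × List ℕ)),
    ∀ f ∈ p.2, FrameF repsF p.1 f :=
  List.forall_mem_cons.2 ⟨cl_274 h, List.forall_mem_cons.2 ⟨cl_275 h, List.forall_mem_cons.2 ⟨cl_276 h, List.forall_mem_cons.2 ⟨cl_277 h, List.forall_mem_cons.2 ⟨cl_278 h, List.forall_mem_cons.2 ⟨cl_279 h, List.forall_mem_cons.2 ⟨cl_280 h, fun _ h0 => absurd h0 List.not_mem_nil⟩⟩⟩⟩⟩⟩⟩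

end Pool.Agent.Gen.TY.F
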