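import Pool.Agent.Helper20.TY.EngF
import Pool.Agent.Helper20.TY.TabG
import Pool.Agent.Gen.TY.FS.SufA
import Pool.Agent.Gen.TY.FS.SufB
import Pool.Agent.Gen.TY.FR.Dat

/-!
MP_8ee768_co, project TH-Y', stage F: frames.
-/

set_option autoImplicit false

namespace Pool.Agent.Gen.TY.F

open Pool.Agent.Helper79.CV
open Pool.Agent.Helper20.TY
open Pool.Agent.Helper20.TY.EngF
open Pool.Agent.Gen.TY.FS
open Pool.Agent.Gen.TY.FR

def F_1698 : FrX :=
  ⟨0x80080a000804040e00002101002001000002040888080440204020400410008000404044040008808090000108410400240008022001920040002600080,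
    0xa6, 1, 0x1020435281a2, 6,
    [(0xa6, 1), (0x205396a8, 4), (0x10548796, 4), (0x214396a7, 4), (0x205396a8, 4), (0x10548796, 4)],
    [(0x1020435281a2, 6), (0x416095a2, 4), (0x31708295, 4), (0x437695a8, 4), (0x416095a2, 4), (0x31708295, 4)]⟩

def c_1698 : frmChk tA tA F_1698 = true := by decide +kernel

def r_1698_0 : chkL rootF engF2 tA tA sA_281 sA_281 4 F_1698 [(511, 0, 0)]
    0x11684e154530f06542ec103c1d0d84703c7822cc932495 = true := by
  decide +kernel

theorem f_1698 (h : TabsF) : FrameF repsF 281 F_1698.f :=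
  frame_of rfl c_1698 (runs_of engOK r_1698_0) (by decide +kernel) h.1 h.1

def F_1699 : FrX :=
  ⟨0x80080a000804040e000021010020010000020408810804002101001020400800090140008480020180408010006100020402080804010a00400a0200080,
    0xa6, 1, 0x10203253618097a3, 8,
    [(0xa6, 1), (0x205396a8, 4), (0x10548796, 4), (0x214396a7, 4), (0x205396a8, 4), (0x10548796, 4)],
    [(0x10203253618097a3, 8), (0x428391a0, 4), (0x41758690, 4), (0x407591a2, 4), (0x41758690, 4), (0x214063a9, 4), (0x207583a4, 4), (0x407591a2, 4), (0x207583a4, 4), (0x108694a2, 4), (0x407591a2, 4), (0x214063a9, 4)]⟩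

def c_1699 : frmChk tA tB F_1699 = true := by decide +kernel

def r_1699_0 : chkL rootF engF2 tA tB sA_281 sB_281 4 F_1699 [(255, 0, 0), (256, 0, 18)]
    0x48b14c2e0d42e0d42e = true := by
  decide +kernel

def r_1699_1 : chkL rootF engF2 tA tB sA_281 sB_281 4 F_1699 [(256, 18, 0)]
    0x103c59 = true := by
  decide +kernel

theorem f_1699 (h : TabsF) : FrameF repsF 281 F_1699.f :=
  frame_of rfl c_1699 ((runs_of engOK r_1699_0).append (runs_of engOK r_1699_1)) (by decide +kernel) h.1 h.2

def F_1700 : FrX :=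
  ⟨0x2002000900044004000e02041000141000800040808000208101100422000c0020012000088004105804004100042004000100a000500220001202021010,
    0xa3, 1, 0x415261768293a2, 7,
    [(0xa3, 1), (0x208693a5, 4), (0x10548793, 4), (0x217693a4, 4), (0x208693a5, 4), (0x10548793, 4)],
    [(0x415261768293a2, 7), (0x758392a0, 4), (0x21546083, 4), (0x748391a6, 4), (0x758392a0, 4), (0x21546083, 4)]⟩

def c_1700 : frmChk tA tA F_1700 = true := by decide +kernel

def r_1700_0 : chkL rootF engF2 tA tA sA_281 sA_281 4 F_1700 [(511, 0, 0)]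
    0x4170b4a91704e06c3a = true := by
  decide +kernel

theorem f_1700 (h : TabsF) : FrameF repsF 281 F_1700.f :=
  frame_of rfl c_1700 (runs_of engOK r_1700_0) (by decide +kernel) h.1 h.1

def F_1701 : FrX :=
  ⟨0x2002000900044004000e02041000141000800040810000018100804200812002100100108002182000428209000020002004220000600200440050010210,
    0xa3, 1, 0x213051617296a7, 7,
    [(0xa3, 1), (0x208693a5, 4), (0x10548793, 4), (0x217693a4, 4), (0x208693a5, 4), (0x10548793, 4)],
    [(0x213051617296a7, 7), (0x738490a2, 4), (0x425163a9, 4), (0x518094a2, 4), (0x425163a9, 4), (0x768294a0, 4), (0x40517398, 4), (0x518094a2, 4), (0x40517398, 4), (0x638092a4, 4), (0x518094a2, 4), (0x768294a0, 4)]⟩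

def c_1701 : frmChk tA tB F_1701 = true := by decide +kernel

def r_1701_0 : chkL rootF engF2 tA tB sA_281 sB_281 4 F_1701 [(511, 0, 0)]
    0x11381709c4e = true := by
  decide +kernel

theorem f_1701 (h : TabsF) : FrameF repsF 281 F_1701.f :=
  frame_of rfl c_1701 (runs_of engOK r_1701_0) (by decide +kernel) h.1 h.2

def F_1702 : FrX :=
  ⟨0x482000044040440000c204002000900018204000401088000402001002080180480010810200a000041201002220000204006040200602100024000042,
    0xa0, 1, 0x21304151608098a3, 8,
    [(0xa0, 1), (0x538690a2, 4), (0x548790a1, 4), (0x21437690, 4), (0x538690a2, 4), (0x548790a1, 4)],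
    [(0x21304151608098a3, 8), (0x608193a4, 4), (0x42608597, 4), (0x516073a2, 4), (0x608193a4, 4), (0x42608597, 4)]⟩

def c_1702 : frmChk tA tA F_1702 = true := by decide +kernel

def r_1702_0 : chkL rootF engF2 tA tA sA_281 sA_281 4 F_1702 [(511, 0, 0)]
    0x118d611b215625c2b09c83a02e0d4a50d4270b427c2523457210d8633850d1b0e835035c451509c2d467094541e294690ba4906cd222dc1349c8168360e8871c8272950b4a70921cca0741d72087 = true := by
  decide +kernel

theorem f_1702 (h : TabsF) : FrameF repsF 281 F_1702.f :=
  frame_of rfl c_1702 (runs_of engOK r_1702_0) (by decide +kernel) h.1 h.1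

def F_1703 : FrX :=
  ⟨0x482000044040440000c2040020009000182040020000448000080804040881800800100102008280040700080210082101002010080400300020008404,
    0xa0, 1, 0x31425362738091a6, 8,
    [(0xa0, 1), (0x538690a2, 4), (0x548790a1, 4), (0x21437690, 4), (0x538690a2, 4), (0x548790a1, 4)],
    [(0x31425362738091a6, 8), (0x437186a0, 4), (0x21435098, 4), (0x437296a5, 4), (0x437186a0, 4), (0x21435098, 4)]⟩

def c_1703 : frmChk tA tA F_1703 = true := by decide +kernel

def r_1703_0 : chkL rootF engF2 tA tA sA_281 sA_281 4 F_1703 [(511, 0, 0)]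
    0x10782705cc53441e07874171c81364915691 = true := by
  decide +kernel

theorem f_1703 (h : TabsF) : FrameF repsF 281 F_1703.f :=
  frame_of rfl c_1703 (runs_of engOK r_1703_0) (by decide +kernel) h.1 h.1

def F_1704 : FrX :=
  ⟨0x482000044040440000c2040020009000182040000808248004080100080088200010110200180802200010880010000218011004440104040200010410,
    0xa0, 1, 0x213141627183a0, 7,
    [(0xa0, 1), (0x538690a2, 4), (0x548790a1, 4), (0x21437690, 4), (0x538690a2, 4), (0x548790a1, 4)],
    [(0x213141627183a0, 7), (0x325481a6, 4), (0x415390a7, 4), (0x31548290, 4), (0x415390a7, 4), (0x31527684, 4), (0x218390a6, 4), (0x31548290, 4), (0x218390a6, 4), (0x435182a7, 4), (0x31548290, 4), (0x31527684, 4)]⟩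

def c_1704 : frmChk tA tB F_1704 = true := by decide +kernel

def r_1704_0 : chkL rootF engF2 tA tB sA_281 sB_281 4 F_1704 [(511, 0, 0)]
    0x43c03c3948f84707c01582b22e1611c170b90b = true := by
  decide +kernel

theorem f_1704 (h : TabsF) : FrameF repsF 281 F_1704.f :=
  frame_of rfl c_1704 (runs_of engOK r_1704_0) (by decide +kernel) h.1 h.2

def F_1705 : FrX :=
  ⟨0x482000044040440000c2040020009000182040008040802008101010010050004202010022080200a80801080004600300000048200400100024200201,
    0xa0, 1, 0x3143518291a2, 6,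
    [(0xa0, 1), (0x538690a2, 4), (0x548790a1, 4), (0x21437690, 4), (0x538690a2, 4), (0x548790a1, 4)],
    [(0x3143518291a2, 6), (0x216473a0, 4), (0x31768590, 4), (0x42617385, 4), (0x31768590, 4), (0x326174a9, 4), (0x416285a0, 4), (0x42617385, 4), (0x416285a0, 4), (0x42637190, 4), (0x42617385, 4), (0x326174a9, 4)]⟩

def c_1705 : frmChk tA tB F_1705 = true := by decide +kernel

def r_1705_0 : chkL rootF engF2 tA tB sA_281 sB_281 4 F_1705 [(511, 0, 0)]
    0x4170d8272c42706d230b86649436 = true := by
  decide +kernel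

theorem f_1705 (h : TabsF) : FrameF repsF 281 F_1705.f :=
  frame_of rfl c_1705 (runs_of engOK r_1705_0) (by decide +kernel) h.1 h.2

def F_1706 : FrX :=
  ⟨0x1c21020000040440000020410001010000820408882000080080200100002420810804009005040800802a0120002400048408001108004240080008010,
    0x0, 0, 0x43657485, 4,
    [(0x0, 0), (0x205386a9, 4), (0x105487a9, 4), (0x214376a9, 4), (0x205386a9, 4), (0x105487a9, 4)],
    [(0x43657485, 4), (0x206584a9, 4), (0x106387a9, 4), (0x215374a9, 4), (0x206584a9, 4), (0x106387a9, 4)]⟩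

def c_1706 : frmChk tA tA F_1706 = true := by decide +kernel

def r_1706_0 : chkL rootF engF2 tA tA sA_281 sA_281 4 F_1706 [(255, 0, 0), (256, 0, 11)]
    0x1 = true := by
  decide +kernel

def r_1706_1 : chkL rootF engF2 tA tA sA_281 sA_281 4 F_1706 [(256, 11, 4)]
    0x43505c2b = true := by
  decide +kernel

def r_1706_2 : chkL rootF engF2 tA tA sA_281 sA_281 4 F_1706 [(256, 15, 3)]
    0x4531385c = true := by
  decide +kernel

def r_1706_3 : chkL rootF engF2 tA tA sA_281 sA_281 4 F_1706 [(256, 18, 1)]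
    0x10b44e1704d14c55 = true := by
  decide +kernel

def r_1706_4 : chkL rootF engF2 tA tA sA_281 sA_281 4 F_1706 [(256, 19, 1)]
    0x1 = true := by
  decide +kernel

def r_1706_5 : chkL rootF engF2 tA tA sA_281 sA_281 4 F_1706 [(256, 20, 2)]
    0x11a42d0b42d1384e1385344d2a13472 = true := by
  decide +kernel

def r_1706_6 : chkL rootF engF2 tA tA sA_281 sA_281 4 F_1706 [(256, 22, 2)]
    0x105c17 = true := by
  decide +kernel

def r_1706_7 : chkL rootF engF2 tA tA sA_281 sA_281 4 F_1706 [(256, 24, 1)]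
    0x42b = true := by
  decide +kernel

def r_1706_8 : chkL rootF engF2 tA tA sA_281 sA_281 4 F_1706 [(256, 25, 2)]
    0x40f = true := by
  decide +kernel

def r_1706_9 : chkL rootF engF2 tA tA sA_281 sA_281 4 F_1706 [(256, 27, 2)]
    0x1 = true := by
  decide +kernel

def r_1706_10 : chkL rootF engF2 tA tA sA_281 sA_281 4 F_1706 [(256, 29, 3)]
    0x1 = true := by
  decide +kernel

def r_1706_11 : chkL rootF engF2 tA tA sA_281 sA_281 4 F_1706 [(256, 32, 0)]
    0x43c = true := by
  decide +kernel

theorem f_1706 (h : TabsF) : FrameF repsF 281 F_1706.f :=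
  frame_of rfl c_1706 ((runs_of engOK r_1706_0).append ((runs_of engOK r_1706_1).append ((runs_of engOK r_1706_2).append ((runs_of engOK r_1706_3).append ((runs_of engOK r_1706_4).append ((runs_of engOK r_1706_5).append ((runs_of engOK r_1706_6).append ((runs_of engOK r_1706_7).append ((runs_of engOK r_1706_8).append ((runs_of engOK r_1706_9).append ((runs_of engOK r_1706_10).append (runs_of engOK r_1706_11)))))))))))) (by decide +kernel) h.1 h.1

def F_1707 : FrX :=
  ⟨0x2002000900044004000e0204100014100080004080080104101002040200c0802001001040810010100400060010020081a0002840401020001005440200,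
    0xa3, 1, 0x314361768295a6, 7,
    [(0xa3, 1), (0x208693a5, 4), (0x10548793, 4), (0x217693a4, 4), (0x208693a5, 4), (0x10548793, 4)],
    [(0x314361768295a6, 7), (0x218093a4, 4), (0x607591a3, 4), (0x427593a1, 4), (0x607591a3, 4), (0x438692a1, 4), (0x417580a2, 4), (0x427593a1, 4), (0x417580a2, 4), (0x314260a9, 4), (0x427593a1, 4), (0x438692a1, 4)]⟩

def c_1707 : frmChk tA tB F_1707 = true := by decide +kernel

def r_1707_0 : chkL rootF engF2 tA tB sA_281 sB_281 4 F_1707 [(511, 0, 0)]
    0x45605c17 = true := by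
  decide +kernel

theorem f_1707 (h : TabsF) : FrameF repsF 281 F_1707.f :=
  frame_of rfl c_1707 (runs_of engOK r_1707_0) (by decide +kernel) h.1 h.2

def F_1708 : FrX :=
  ⟨0x482000044040440000c2040020009000182040002022020020000208880021010202010020010200800081084000040248005080108400604100030002,
    0xa0, 1, 0x20315465708295a0, 8,
    [(0xa0, 1), (0x538690a2, 4), (0x548790a1, 4), (0x21437690, 4), (0x538690a2, 4), (0x548790a1, 4)],
    [(0x20315465708295a0, 8), (0x407691a8, 4), (0x207695a3, 4), (0x42517683, 4), (0x407691a8, 4), (0x207695a3, 4)]⟩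

def c_1708 : frmChk tA tA F_1708 = true := by decide +kernel

def r_1708_0 : chkL rootF engF2 tA tA sA_281 sA_281 4 F_1708 [(511, 0, 0)]
    0x43605c8b079495302b0781e1a81e21c1e3182b1641e270651540f = true := by
  decide +kernel

theorem f_1708 (h : TabsF) : FrameF repsF 281 F_1708.f :=
  frame_of rfl c_1708 (runs_of engOK r_1708_0) (by decide +kernel) h.1 h.1

def F_1709 : FrX :=
  ⟨0x80080a000804040e00002101002001000002040882200004042030000080208010822000c00010021000800500110160000682004007001000a02000010,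
    0xa6, 1, 0x10435261728197a3, 8,
    [(0xa6, 1), (0x205396a8, 4), (0x10548796, 4), (0x214396a7, 4), (0x205396a8, 4), (0x10548796, 4)],
    [(0x10435261728197a3, 8), (0x546071a2, 4), (0x32548196, 4), (0x548790a3, 4), (0x546071a2, 4), (0x32548196, 4)]⟩

def c_1709 : frmChk tA tA F_1709 = true := by decide +kernel

def r_1709_0 : chkL rootF engF2 tA tA sA_281 sA_281 4 F_1709 [(511, 0, 0)]
    0x44e0741d8705303c0f = true := by
  decide +kernel

theorem f_1709 (h : TabsF) : FrameF repsF 281 F_1709.f :=
  frame_of rfl c_1709 (runs_of engOK r_1709_0) (by decide +kernel) h.1 h.1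

def F_1710 : FrX :=
  ⟨0x2002000900044004000e020410001410008000408100000280880040602084081000010008080108210004044000041601002000052000000c0904044040,
    0xa3, 1, 0x20306598a0, 5,
    [(0xa3, 1), (0x208693a5, 4), (0x10548793, 4), (0x217693a4, 4), (0x208693a5, 4), (0x10548793, 4)],
    [(0x20306598a0, 5), (0x527694a0, 4), (0x647583a1, 4), (0x54768392, 4), (0x647583a1, 4), (0x10547296, 4), (0x428395a0, 4), (0x54768392, 4), (0x428395a0, 4), (0x657492a1, 4), (0x54768392, 4), (0x10547296, 4)]⟩

def c_1710 : frmChk tA tB F_1710 = true := by decide +kernel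

def r_1710_0 : chkL rootF engF2 tA tB sA_281 sB_281 4 F_1710 [(511, 0, 0)]
    0x41d0750b1985c18c3603c3ab403a0e4172c4b81c4170e80f = true := by
  decide +kernel

theorem f_1710 (h : TabsF) : FrameF repsF 281 F_1710.f :=
  frame_of rfl c_1710 (runs_of engOK r_1710_0) (by decide +kernel) h.1 h.2

def F_1711 : FrX :=
  ⟨0x600020801080810000c0040180410101001004001200100400400804009400030040801200020024802008081101420000808202200800000841081040,
    0xa0, 1, 0x204050628498a1, 7,
    [(0xa0, 1), (0x637584a2, 4), (0x547690a1, 4), (0x64758390, 4), (0x547690a1, 4), (0x21647385, 4), (0x438690a2, 4), (0x64758390, 4), (0x438690a2, 4), (0x657483a1, 4), (0x64758390, 4), (0x21647385, 4)],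
    [(0x204050628498a1, 7), (0x21436590, 4), (0x218497a5, 4), (0x217083a6, 4), (0x21436590, 4), (0x218497a5, 4)]⟩

def c_1711 : frmChk tB tA F_1711 = true := by decide +kernel

def r_1711_0 : chkL rootF engF2 tB tA sB_281 sA_281 4 F_1711 [(511, 0, 0)]
    0x48d06c552682d0b41d = true := by
  decide +kernel

theorem f_1711 (h : TabsF) : FrameF repsF 281 F_1711.f :=
  frame_of rfl c_1711 (runs_of engOK r_1711_0) (by decide +kernel) h.2 h.1

def F_1712 : FrX :=
  ⟨0x1001040012008080000e00840800410008101000040a0104101020002000202200a000204020400040250010014008014040005000424010840001010082,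
    0xa3, 1, 0x314252607286a0, 7,
    [(0xa3, 1), (0x207584a6, 4), (0x10547693, 4), (0x647593a8, 4), (0x10547693, 4), (0x216485a7, 4), (0x208693a4, 4), (0x647593a8, 4), (0x208693a4, 4), (0x106574a8, 4), (0x647593a8, 4), (0x216485a7, 4)],
    [(0x314252607286a0, 7), (0x205481a7, 4), (0x428596a3, 4), (0x10548296, 4), (0x428596a3, 4), (0x40517382, 4), (0x218096a7, 4), (0x10548296, 4), (0x218096a7, 4), (0x105284a3, 4), (0x10548296, 4), (0x40517382, 4)]⟩

def c_1712 : frmChk tB tB F_1712 = true := by decide +kernel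

def r_1712_0 : chkL rootF engF2 tB tB sB_281 sB_281 4 F_1712 [(511, 0, 0)]
    0x103c0f078560cc1e = true := by
  decide +kernel

theorem f_1712 (h : TabsF) : FrameF repsF 281 F_1712.f :=
  frame_of rfl c_1712 (runs_of engOK r_1712_0) (by decide +kernel) h.2 h.2

def F_1713 : FrX :=
  ⟨0x1001040012008080000e008408004100081010000404101c0010200040102002080002060000810040041440100400014040220108050008801100008090,
    0xa3, 1, 0x3041647587a8, 6,
    [(0xa3, 1), (0x207584a6, 4), (0x10547693, 4), (0x647593a8, 4), (0x10547693, 4), (0x216485a7, 4), (0x208693a4, 4), (0x647593a8, 4), (0x208693a4, 4), (0x106574a8, 4), (0x647593a8, 4), (0x216485a7, 4)],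
    [(0x3041647587a8, 6), (0x327095a1, 4), (0x437695a8, 4), (0x42608195, 4), (0x327095a1, 4), (0x437695a8, 4)]⟩

def c_1713 : frmChk tB tA F_1713 = true := by decide +kernel

def r_1713_0 : chkL rootF engF2 tB tA sB_281 sA_281 4 F_1713 [(511, 0, 0)]
    0x10ac780f1681d02e05e1614ec2a62940d82e03c0f0f01b0b82b0cc0f0f01b1681e16a0dca039c30595602e = true := by
  decide +kernel

theorem f_1713 (h : TabsF) : FrameF repsF 281 F_1713.f :=
  frame_of rfl c_1713 (runs_of engOK r_1713_0) (by decide +kernel) h.2 h.1

def F_1714 : FrX :=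
  ⟨0x1001040012008080000e0084080041000810100006000500404020202022080000a00020008014014008020212000812001000a000600000282009011002,
    0xa3, 1, 0x10203043516274a2, 8,
    [(0xa3, 1), (0x207584a6, 4), (0x10547693, 4), (0x647593a8, 4), (0x10547693, 4), (0x216485a7, 4), (0x208693a4, 4), (0x647593a8, 4), (0x208693a4, 4), (0x106574a8, 4), (0x647593a8, 4), (0x216485a7, 4)],
    [(0x10203043516274a2, 8), (0x408196a3, 4), (0x53708296, 4), (0x217496a5, 4), (0x408196a3, 4), (0x53708296, 4)]⟩

def c_1714 : frmChk tB tA F_1714 = true := by decide +kernel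

def r_1714_0 : chkL rootF engF2 tB tA sB_281 sA_281 4 F_1714 [(511, 0, 0)]
    0x1238270d80f09cc6318724982d09d0b07923a484e09c1d075264983309d863246a13427 = true := by
  decide +kernel

theorem f_1714 (h : TabsF) : FrameF repsF 281 F_1714.f :=
  frame_of rfl c_1714 (runs_of engOK r_1714_0) (by decide +kernel) h.2 h.1

def F_1715 : FrX :=
  ⟨0x1001040012008080000e00840800410008101000042100001101204008102002082000088100084204041400a0000820004020501020000100c000808028,
    0xa3, 1, 0x51768696a2, 5,
    [(0xa3, 1), (0x207584a6, 4), (0x10547693, 4), (0x647593a8, 4), (0x10547693, 4), (0x216485a7, 4), (0x208693a4, 4), (0x647593a8, 4), (0x208693a4, 4), (0x106574a8, 4), (0x647593a8, 4), (0x216485a7, 4)],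
    [(0x51768696a2, 5), (0x617493a0, 4), (0x41508296, 4), (0x61738294, 4), (0x41508296, 4), (0x637194a5, 4), (0x438297a0, 4), (0x61738294, 4), (0x438297a0, 4), (0x50647391, 4), (0x61738294, 4), (0x637194a5, 4)]⟩

def c_1715 : frmChk tB tB F_1715 = true := by decide +kernel

def r_1715_0 : chkL rootF engF2 tB tB sB_281 sB_281 4 F_1715 [(511, 0, 0)]
    0x41e0b82d0e42b4381705c171942e439a805c1b = true := by
  decide +kernel

theorem f_1715 (h : TabsF) : FrameF repsF 281 F_1715.f :=
  frame_of rfl c_1715 (runs_of engOK r_1715_0) (by decide +kernel) h.2 h.2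

def F_1716 : FrX :=
  ⟨0x80080a000804040e00002101002001000002040890010008088004020882001010100412800041000008000691004500021008080400080444200820000,
    0xa6, 1, 0x5063768194a6, 6,
    [(0xa6, 1), (0x205396a8, 4), (0x10548796, 4), (0x214396a7, 4), (0x205396a8, 4), (0x10548796, 4)],
    [(0x5063768194a6, 6), (0x305291a6, 4), (0x748590a3, 4), (0x306174a9, 4), (0x748590a3, 4), (0x106382a9, 4), (0x527496a1, 4), (0x306174a9, 4), (0x527496a1, 4), (0x618593a0, 4), (0x306174a9, 4), (0x106382a9, 4)]⟩

def c_1716 : frmChk tA tB F_1716 = true := by decide +kernel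

def r_1716_0 : chkL rootF engF2 tA tB sA_281 sB_281 4 F_1716 [(511, 0, 0)]
    0x10741b0782b0781b = true := by
  decide +kernel

theorem f_1716 (h : TabsF) : FrameF repsF 281 F_1716.f :=
  frame_of rfl c_1716 (runs_of engOK r_1716_0) (by decide +kernel) h.1 h.2

def F_1717 : FrX :=
  ⟨0x482000044040440000c204002000900018204000088088000802008008018280002040210100011000020100222004874000101000880400001000820c,
    0xa0, 1, 0x105062718291a4, 7,
    [(0xa0, 1), (0x538690a2, 4), (0x548790a1, 4), (0x21437690, 4), (0x538690a2, 4), (0x548790a1, 4)],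
    [(0x105062718291a4, 7), (0x31627485, 4), (0x607495a1, 4), (0x207498a3, 4), (0x31627485, 4), (0x607495a1, 4)]⟩

def c_1717 : frmChk tA tA F_1717 = true := by decide +kernel

def r_1717_0 : chkL rootF engF2 tA tA sA_281 sA_281 4 F_1717 [(511, 0, 0)]
    0x453078560ac4d09cca7201703c0f0d5890f03c = true := by
  decide +kernel

theorem f_1717 (h : TabsF) : FrameF repsF 281 F_1717.f :=
  frame_of rfl c_1717 (runs_of engOK r_1717_0) (by decide +kernel) h.1 h.1

def F_1718 : FrX :=
  ⟨0x2002000900044004000e0204100014100080004080040102402000420220404010008020404400100808000a0004001081c0600080401020001002203080,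
    0xa3, 1, 0x324352758095a6, 7,
    [(0xa3, 1), (0x208693a5, 4), (0x10548793, 4), (0x217693a4, 4), (0x208693a5, 4), (0x10548793, 4)],
    [(0x324352758095a6, 7), (0x768594a0, 4), (0x30768192, 4), (0x425176a3, 4), (0x768594a0, 4), (0x30768192, 4)]⟩

def c_1718 : frmChk tA tA F_1718 = true := by decide +kernel

def r_1718_0 : chkL rootF engF2 tA tA sA_281 sA_281 4 F_1718 [(511, 0, 0)]
    0x40f3140f = true := by
  decide +kernel

theorem f_1718 (h : TabsF) : FrameF repsF 281 F_1718.f :=
  frame_of rfl c_1718 (runs_of engOK r_1718_0) (by decide +kernel) h.1 h.1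

def F_1719 : FrX :=
  ⟨0x2002000900044004000e020410001410008000408008020d00100204008008820000041129000002040000084110101040400090206080004010100c4000,
    0xa3, 1, 0x3143657596a6, 6,
    [(0xa3, 1), (0x208693a5, 4), (0x10548793, 4), (0x217693a4, 4), (0x208693a5, 4), (0x10548793, 4)],
    [(0x3143657596a6, 6), (0x207681a4, 4), (0x307195a6, 4), (0x768495a1, 4), (0x307195a6, 4), (0x326487a1, 4), (0x204195a8, 4), (0x768495a1, 4), (0x204195a8, 4), (0x306184a7, 4), (0x768495a1, 4), (0x326487a1, 4)]⟩

def c_1719 : frmChk tA tB F_1719 = true := by decide +kernel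

def r_1719_0 : chkL rootF engF2 tA tB sA_281 sB_281 4 F_1719 [(511, 0, 0)]
    0x1a16a409e07a1471 = true := by
  decide +kernel

theorem f_1719 (h : TabsF) : FrameF repsF 281 F_1719.f :=
  frame_of rfl c_1719 (runs_of engOK r_1719_0) (by decide +kernel) h.1 h.2

def F_1720 : FrX :=
  ⟨0x1001040012008080000e00840800410008101000044020080050100004200810008048084020010208004800800820210004005001004440023002040084,
    0xa3, 1, 0x203163708092a6, 7,
    [(0xa3, 1), (0x207584a6, 4), (0x10547693, 4), (0x647593a8, 4), (0x10547693, 4), (0x216485a7, 4), (0x208693a4, 4), (0x647593a8, 4), (0x208693a4, 4), (0x106574a8, 4), (0x647593a8, 4), (0x216485a7, 4)],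
    [(0x203163708092a6, 7), (0x106598a7, 4), (0x10547283, 4), (0x106493a2, 4), (0x106598a7, 4), (0x10547283, 4)]⟩

def c_1720 : frmChk tB tA F_1720 = true := by decide +kernel

def r_1720_0 : chkL rootF engF2 tB tA sB_281 sA_281 4 F_1720 [(255, 0, 0), (256, 0, 17)]
    0x109c0f05c1705c172a48e30c8e09c1d0d833 = true := by
  decide +kernel

def r_1720_1 : chkL rootF engF2 tB tA sB_281 sA_281 4 F_1720 [(256, 17, 0)]
    0x103c1e0780f03cc309c360cc27 = true := by
  decide +kernel

theorem f_1720 (h : TabsF) : FrameF repsF 281 F_1720.f :=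
  frame_of rfl c_1720 ((runs_of engOK r_1720_0).append (runs_of engOK r_1720_1)) (by decide +kernel) h.2 h.1

def F_1721 : FrX :=
  ⟨0x1c4044000008081000000840080410000101084050100008002001041000020030a008040004041000900101206a00100080a042000080c102042200000,
    0x0, 0, 0x53657386, 4,
    [(0x0, 0), (0x20637584, 4), (0x105476a9, 4), (0x647583a9, 4), (0x105476a9, 4), (0x21647385, 4), (0x204386a9, 4), (0x647583a9, 4), (0x204386a9, 4), (0x10657483, 4), (0x647583a9, 4), (0x21647385, 4)],
    [(0x53657386, 4), (0x207683a9, 4), (0x105364a9, 4), (0x217485a9, 4), (0x207683a9, 4), (0x105364a9, 4)]⟩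

def c_1721 : frmChk tB tA F_1721 = true := by decide +kernel

def r_1721_0 : chkL rootF engF2 tB tA sB_281 sA_281 4 F_1721 [(255, 0, 0), (256, 0, 3)]
    0x453 = true := by
  decide +kernel

def r_1721_1 : chkL rootF engF2 tB tA sB_281 sA_281 4 F_1721 [(256, 3, 11)]
    0x1 = true := by
  decide +kernel

def r_1721_2 : chkL rootF engF2 tB tA sB_281 sA_281 4 F_1721 [(256, 14, 7)]
    0x41b = true := by
  decide +kernel

def r_1721_3 : chkL rootF engF2 tB tA sB_281 sA_281 4 F_1721 [(256, 21, 5)]
    0x12641d = true := by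
  decide +kernel

def r_1721_4 : chkL rootF engF2 tB tA sB_281 sA_281 4 F_1721 [(256, 26, 8)]
    0x1 = true := by
  decide +kernel

def r_1721_5 : chkL rootF engF2 tB tA sB_281 sA_281 4 F_1721 [(256, 34, 0)]
    0x4e1 = true := by
  decide +kernel

theorem f_1721 (h : TabsF) : FrameF repsF 281 F_1721.f :=
  frame_of rfl c_1721 ((runs_of engOK r_1721_0).append ((runs_of engOK r_1721_1).append ((runs_of engOK r_1721_2).append ((runs_of engOK r_1721_3).append ((runs_of engOK r_1721_4).append (runs_of engOK r_1721_5)))))) (by decide +kernel) h.2 h.1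

def F_1722 : FrX :=
  ⟨0x1001040012008080000e008408004100081010000421000011010300002020248001001022000048000c200a021020012000800c08220004040000210210,
    0xa3, 1, 0x2051618095a7, 6,
    [(0xa3, 1), (0x207584a6, 4), (0x10547693, 4), (0x647593a8, 4), (0x10547693, 4), (0x216485a7, 4), (0x208693a4, 4), (0x647593a8, 4), (0x208693a4, 4), (0x106574a8, 4), (0x647593a8, 4), (0x216485a7, 4)],
    [(0x2051618095a7, 6), (0x425380a9, 4), (0x718694a5, 4), (0x325471a9, 4), (0x718694a5, 4), (0x546092a3, 4), (0x43527180, 4), (0x325471a9, 4), (0x43527180, 4), (0x328695a4, 4), (0x325471a9, 4), (0x546092a3, 4)]⟩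

def c_1722 : frmChk tB tB F_1722 = true := by decide +kernel

def r_1722_0 : chkL rootF engF2 tB tB sB_281 sB_281 4 F_1722 [(511, 0, 0)]
    0x10d41705c8d9c036 = true := by
  decide +kernel

theorem f_1722 (h : TabsF) : FrameF repsF 281 F_1722.f :=
  frame_of rfl c_1722 (runs_of engOK r_1722_0) (by decide +kernel) h.2 h.2

def F_1723 : FrX :=
  ⟨0x482000044040440000c2040020009000182040001081020004080208008090004202001028000420040410404120008008010102004411101024000002,
    0xa0, 1, 0x3151618492a4, 6,
    [(0xa0, 1), (0x538690a2, 4), (0x548790a1, 4), (0x21437690, 4), (0x538690a2, 4), (0x548790a1, 4)],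
    [(0x3151618492a4, 6), (0x31548290, 4), (0x607482a3, 4), (0x758296a1, 4), (0x31548290, 4), (0x607482a3, 4)]⟩

def c_1723 : frmChk tA tA F_1723 = true := by decide +kernel

def r_1723_0 : chkL rootF engF2 tA tA sA_281 sA_281 4 F_1723 [(511, 0, 0)]
    0x10b91c11c0f03c0f0e43303c3382e89 = true := by
  decide +kernel

theorem f_1723 (h : TabsF) : FrameF repsF 281 F_1723.f :=
  frame_of rfl c_1723 (runs_of engOK r_1723_0) (by decide +kernel) h.1 h.1

def F_1724 : FrX :=
  ⟨0x2002000900044004000e02041000141000800040814400020801004002004040140081010000280800880406020010001010805080400220204140020004,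
    0xa3, 1, 0x41627487a7, 5,
    [(0xa3, 1), (0x208693a5, 4), (0x10548793, 4), (0x217693a4, 4), (0x208693a5, 4), (0x10548793, 4)],
    [(0x41627487a7, 5), (0x326071a5, 4), (0x407598a2, 4), (0x317298a5, 4), (0x407598a2, 4), (0x516472a3, 4), (0x21607398, 4), (0x317298a5, 4), (0x21607398, 4), (0x314052a7, 4), (0x317298a5, 4), (0x516472a3, 4)]⟩

def c_1724 : frmChk tA tB F_1724 = true := by decide +kernel

def r_1724_0 : chkL rootF engF2 tA tB sA_281 sB_281 4 F_1724 [(255, 0, 0), (256, 0, 18)]
    0x122d980d6b0c46b009c3505d83a0e8c0743c8341783607871320cd0e30c2e = true := by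
  decide +kernel

def r_1724_1 : chkL rootF engF2 tA tB sA_281 sB_281 4 F_1724 [(256, 18, 0)]
    0x11694c138565183909c565244e078650ac3a07417 = true := by
  decide +kernel

theorem f_1724 (h : TabsF) : FrameF repsF 281 F_1724.f :=
  frame_of rfl c_1724 ((runs_of engOK r_1724_0).append (runs_of engOK r_1724_1)) (by decide +kernel) h.1 h.2

def F_1725 : FrX :=
  ⟨0x2002000900044004000e0204100014100080004081000001810200240a000a00220200001008014880040404040410201101800040000200300024001801,
    0xa3, 1, 0x415363728697a6, 7,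
    [(0xa3, 1), (0x208693a5, 4), (0x10548793, 4), (0x217693a4, 4), (0x208693a5, 4), (0x10548793, 4)],
    [(0x415363728697a6, 7), (0x517093a6, 4), (0x314082a9, 4), (0x658293a1, 4), (0x314082a9, 4), (0x537496a1, 4), (0x617082a5, 4), (0x658293a1, 4), (0x617082a5, 4), (0x406591a3, 4), (0x658293a1, 4), (0x537496a1, 4)]⟩

def c_1725 : frmChk tA tB F_1725 = true := by decide +kernel

def r_1725_0 : chkL rootF engF2 tA tB sA_281 sB_281 4 F_1725 [(255, 0, 0), (256, 0, 20)]
    0x114c2b1c4a64ca2a8aa2ac620742c270d70a = true := by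
  decide +kernel

def r_1725_1 : chkL rootF engF2 tA tB sA_281 sB_281 4 F_1725 [(256, 20, 0)]
    0x105c1705c17170170b41705c5c05c1705c170b44d05c470782e = true := by
  decide +kernel

theorem f_1725 (h : TabsF) : FrameF repsF 281 F_1725.f :=
  frame_of rfl c_1725 ((runs_of engOK r_1725_0).append (runs_of engOK r_1725_1)) (by decide +kernel) h.1 h.2

theorem cl_281 (h : TabsF) : ∀ f ∈ fr_281, FrameF repsF 281 f :=
  List.forall_mem_cons.2 ⟨f_1698 h, List.forall_mem_cons.2 ⟨f_1699 h, List.forall_mem_cons.2 ⟨f_1700 h, List.forall_mem_cons.2 ⟨f_1701 h, List.forall_mem_cons.2 ⟨f_1702 h, List.forall_mem_cons.2 ⟨f_1703 h, List.forall_mem_cons.2 ⟨f_1704 h, List.forall_mem_cons.2 ⟨f_1705 h, List.forall_mem_cons.2 ⟨f_1706 h, List.forall_mem_cons.2 ⟨f_1707 h, List.forall_mem_cons.2 ⟨f_1708 h, List.forall_mem_cons.2 ⟨f_1709 h, List.forall_mem_cons.2 ⟨f_1710 h, List.forall_mem_cons.2 ⟨f_1711 h, List.forall_mem_cons.2 ⟨f_1712 h, List.forall_mem_cons.2 ⟨f_1713 h, List.forall_mem_cons.2 ⟨f_1714 h, List.forall_mem_cons.2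 ⟨f_1715 h, List.forall_mem_cons.2 ⟨f_1716 h, List.forall_mem_cons.2 ⟨f_1717 h, List.forall_mem_cons.2 ⟨f_1718 h, List.forall_mem_cons.2 ⟨f_1719 h, List.forall_mem_cons.2 ⟨f_1720 h, List.forall_mem_cons.2 ⟨f_1721 h, List.forall_mem_cons.2 ⟨f_1722 h, List.forall_mem_cons.2 ⟨f_1723 h, List.forall_mem_cons.2 ⟨f_1724 h, List.forall_mem_cons.2 ⟨f_1725 h,
    fun _ h0 => absurd h0 List.not_mem_nil⟩⟩⟩⟩⟩⟩⟩⟩⟩⟩⟩⟩⟩⟩⟩⟩⟩⟩⟩⟩⟩⟩⟩⟩⟩⟩⟩⟩

def F_1726 : FrX :=
  ⟨0x80080a000804040e000021010020010000020408a0000204400400180224000080880040102008112010000213010400200310040001008006025080000,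
    0xa6, 1, 0x10213062768198a0, 8,
    [(0xa6, 1), (0x205396a8, 4), (0x10548796, 4), (0x214396a7, 4), (0x205396a8, 4), (0x10548796, 4)],
    [(0x10213062768198a0, 8), (0x325197a6, 4), (0x325490a8, 4), (0x32417086, 4), (0x325197a6, 4), (0x325490a8, 4)]⟩

def c_1726 : frmChk tA tA F_1726 = true := by decide +kernel

def r_1726_0 : chkL rootF engF2 tA tA sA_282 sA_282 4 F_1726 [(511, 0, 0)]
    0x43c074690d63489a26990660781b = true := by
  decide +kernel

theorem f_1726 (h : TabsF) : FrameF repsF 282 F_1726.f :=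
  frame_of rfl c_1726 (runs_of engOK r_1726_0) (by decide +kernel) h.1 h.1

def F_1727 : FrX :=
  ⟨0x80080a000804040e000021010020010000020408a00004042000881008800810000340000440220020208005011100820100080804401040402100c0000,
    0xa6, 1, 0x10204361748395a6, 8,
    [(0xa6, 1), (0x205396a8, 4), (0x10548796, 4), (0x214396a7, 4), (0x205396a8, 4), (0x10548796, 4)],
    [(0x10204361748395a6, 8), (0x215098a4, 4), (0x43506297, 4), (0x506187a3, 4), (0x215098a4, 4), (0x43506297, 4)]⟩

def c_1727 : frmChk tA tA F_1727 = true := by decide +kernel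

def r_1727_0 : chkL rootF engF2 tA tA sA_282 sA_282 4 F_1727 [(511, 0, 0)]
    0x44d03c0fc84630b8f0898d10b923c450ba0ea10b92318d23c872218d4990f410e6298e1238960ba87030b81d48f03164d4384e1168f0164551944d0ba0b8a45903e0e89a298940f1544711c471b05611e5282e1a22d26c8a230cc170746a = true := by
  decide +kernel

theorem f_1727 (h : TabsF) : FrameF repsF 282 F_1727.f :=
  frame_of rfl c_1727 (runs_of engOK r_1727_0) (by decide +kernel) h.1 h.1

def F_1728 : FrX :=
  ⟨0x80080a000804040e000021010020010000020408820840400600014000400800488020010810004080008005011008010210020404028007002100c0000,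
    0xa6, 1, 0x21506287a0, 5,
    [(0xa6, 1), (0x205396a8, 4), (0x10548796, 4), (0x214396a7, 4), (0x205396a8, 4), (0x10548796, 4)],
    [(0x21506287a0, 5), (0x307195a6, 4), (0x408795a2, 4), (0x43628195, 4), (0x307195a6, 4), (0x408795a2, 4)]⟩

def c_1728 : frmChk tA tA F_1728 = true := by decide +kernel

def r_1728_0 : chkL rootF engF2 tA tA sA_282 sA_282 4 F_1728 [(511, 0, 0)]
    0x42711e5421c871542d = true := by
  decide +kernel

theorem f_1728 (h : TabsF) : FrameF repsF 282 F_1728.f :=
  frame_of rfl c_1728 (runs_of engOK r_1728_0) (by decide +kernel) h.1 h.1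

def F_1729 : FrX :=
  ⟨0x2002000900044004000e020410001410008000408004002280814004008208002000802200040400420204404010000c0001808800600202002016004004,
    0xa3, 1, 0x3053617680a5, 6,
    [(0xa3, 1), (0x208693a5, 4), (0x10548793, 4), (0x217693a4, 4), (0x208693a5, 4), (0x10548793, 4)],
    [(0x3053617680a5, 6), (0x738290a5, 4), (0x318690a4, 4), (0x54627190, 4), (0x738290a5, 4), (0x318690a4, 4)]⟩

def c_1729 : frmChk tA tA F_1729 = true := by decide +kernel

def r_1729_0 : chkL rootF engF2 tA tA sA_282 sA_282 4 F_1729 [(511, 0, 0)]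
    0x10ea0e8680f0780f0741703c390d4360cc335140f03c5505c87314170d436 = true := by
  decide +kernel

theorem f_1729 (h : TabsF) : FrameF repsF 282 F_1729.f :=
  frame_of rfl c_1729 (runs_of engOK r_1729_0) (by decide +kernel) h.1 h.1

def F_1730 : FrX :=
  ⟨0x2002000900044004000e0204100014100080004081000002808080420200220014008020100108100840c004401008800014001020400200640100024004,
    0xa3, 1, 0x20617296a3, 5,
    [(0xa3, 1), (0x208693a5, 4), (0x10548793, 4), (0x217693a4, 4), (0x208693a5, 4), (0x10548793, 4)],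
    [(0x20617296a3, 5), (0x317298a5, 4), (0x31546280, 4), (0x317690a4, 4), (0x317298a5, 4), (0x31546280, 4)]⟩

def c_1730 : frmChk tA tA F_1730 = true := by decide +kernel

def r_1730_0 : chkL rootF engF2 tA tA sA_282 sA_282 4 F_1730 [(511, 0, 0)]
    0x41d0d4330e41705cc9b2039234170cc36 = true := by
  decide +kernel

theorem f_1730 (h : TabsF) : FrameF repsF 282 F_1730.f :=
  frame_of rfl c_1730 (runs_of engOK r_1730_0) (by decide +kernel) h.1 h.1

def F_1731 : FrX :=
  ⟨0x482000044040440000c2040020009000182040002081020800880200040090004022020002008010040111084000802018002014084400108020100201,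
    0xa0, 1, 0x536180a5, 4,
    [(0xa0, 1), (0x538690a2, 4), (0x548790a1, 4), (0x21437690, 4), (0x538690a2, 4), (0x548790a1, 4)],
    [(0x536180a5, 4), (0x405182a7, 4), (0x718693a4, 4), (0x415093a7, 4), (0x718693a4, 4), (0x416275a0, 4), (0x10548293, 4), (0x415093a7, 4), (0x10548293, 4), (0x507486a1, 4), (0x415093a7, 4), (0x416275a0, 4)]⟩

def c_1731 : frmChk tA tB F_1731 = true := by decide +kernel

def r_1731_0 : chkL rootF engF2 tA tB sA_282 sB_282 4 F_1731 [(511, 0, 0)]
    0x42799207254358563105c1b2c41e = true := by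
  decide +kernel

theorem f_1731 (h : TabsF) : FrameF repsF 282 F_1731.f :=
  frame_of rfl c_1731 (runs_of engOK r_1731_0) (by decide +kernel) h.1 h.2

def F_1732 : FrX :=
  ⟨0x482000044040440000c2040020009000182040004008220804080004080088200022010100110401000201084001010100001280050004011004210201,
    0xa0, 1, 0x2041607184a2, 6,
    [(0xa0, 1), (0x538690a2, 4), (0x548790a1, 4), (0x21437690, 4), (0x538690a2, 4), (0x548790a1, 4)],
    [(0x2041607184a2, 6), (0x325481a6, 4), (0x42768590, 4), (0x31548290, 4), (0x42768590, 4), (0x435182a7, 4), (0x218390a6, 4), (0x31548290, 4), (0x218390a6, 4), (0x31527684, 4), (0x31548290, 4), (0x435182a7, 4)]⟩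

def c_1732 : frmChk tA tB F_1732 = true := by decide +kernel

def r_1732_0 : chkL rootF engF2 tA tB sA_282 sB_282 4 F_1732 [(511, 0, 0)]
    0x41705c170781b0781e06c990ac390741b09c17c514ac514ac514ac514ac514ac514a05c2d0ac39 = true := by
  decide +kernel

theorem f_1732 (h : TabsF) : FrameF repsF 282 F_1732.f :=
  frame_of rfl c_1732 (runs_of engOK r_1732_0) (by decide +kernel) h.1 h.2

def F_1733 : FrX :=
  ⟨0x80080a000804040e000021010020010000020408842018000420280000802020000230014008080208004008802104004001110050006003000c0808000,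
    0xa6, 1, 0x1030647185a4, 6,
    [(0xa6, 1), (0x205396a8, 4), (0x10548796, 4), (0x214396a7, 4), (0x205396a8, 4), (0x10548796, 4)],
    [(0x1030647185a4, 6), (0x32548196, 4), (0x507396a8, 4), (0x407296a1, 4), (0x32548196, 4), (0x507396a8, 4)]⟩

def c_1733 : frmChk tA tA F_1733 = true := by decide +kernel

def r_1733_0 : chkL rootF engF2 tA tA sA_282 sA_282 4 F_1733 [(511, 0, 0)]
    0x435134531541b0791c03c1e1580f = true := by
  decide +kernel

theorem f_1733 (h : TabsF) : FrameF repsF 282 F_1733.f :=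
  frame_of rfl c_1733 (runs_of engOK r_1733_0) (by decide +kernel) h.1 h.1

def F_1734 : FrX :=
  ⟨0x482000044040440000c2040020009000182040001022080100900200014004004400110020040200800028828004040900002108030021004820200004,
    0xa0, 1, 0x103153627182a6, 7,
    [(0xa0, 1), (0x538690a2, 4), (0x548790a1, 4), (0x21437690, 4), (0x538690a2, 4), (0x548790a1, 4)],
    [(0x103153627182a6, 7), (0x508192a6, 4), (0x40637192, 4), (0x548792a3, 4), (0x508192a6, 4), (0x40637192, 4)]⟩

def c_1734 : frmChk tA tA F_1734 = true := by decide +kernel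

def r_1734_0 : chkL rootF engF2 tA tA sA_282 sA_282 4 F_1734 [(511, 0, 0)]
    0x10745a0751641c1703c270781e0781e078332c455 = true := by
  decide +kernel

theorem f_1734 (h : TabsF) : FrameF repsF 282 F_1734.f :=
  frame_of rfl c_1734 (runs_of engOK r_1734_0) (by decide +kernel) h.1 h.1

def F_1735 : FrX :=
  ⟨0x2002000900044004000e0204100014100080004081000001440400280a000880220200000808010824200110800042800100850004808000202024001010,
    0xa3, 1, 0x10314153728094a0, 8,
    [(0xa3, 1), (0x208693a5, 4), (0x10548793, 4), (0x217693a4, 4), (0x208693a5, 4), (0x10548793, 4)],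
    [(0x10314153728094a0, 8), (0x506183a7, 4), (0x218390a4, 4), (0x62748395, 4), (0x506183a7, 4), (0x218390a4, 4)]⟩

def c_1735 : frmChk tA tA F_1735 = true := by decide +kernel

def r_1735_0 : chkL rootF engF2 tA tA sA_282 sA_282 4 F_1735 [(511, 0, 0)]
    0x11580f1e03a94856 = true := by
  decide +kernel

theorem f_1735 (h : TabsF) : FrameF repsF 282 F_1735.f :=
  frame_of rfl c_1735 (runs_of engOK r_1735_0) (by decide +kernel) h.1 h.1

def F_1736 : FrX :=
  ⟨0x2002000900044004000e02041000141000800040800801014010200009000182100204004024002004250010100402008080108080801020200004211001,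
    0xa3, 1, 0x42718298a6, 5,
    [(0xa3, 1), (0x208693a5, 4), (0x10548793, 4), (0x217693a4, 4), (0x208693a5, 4), (0x10548793, 4)],
    [(0x42718298a6, 5), (0x536480a9, 4), (0x52647091, 4), (0x326487a1, 4), (0x536480a9, 4), (0x52647091, 4)]⟩

def c_1736 : frmChk tA tA F_1736 = true := by decide +kernel

def r_1736_0 : chkL rootF engF2 tA tA sA_282 sA_282 4 F_1736 [(511, 0, 0)]
    0x4330cea24a41d3505a = true := by
  decide +kernel

theorem f_1736 (h : TabsF) : FrameF repsF 282 F_1736.f :=
  frame_of rfl c_1736 (runs_of engOK r_1736_0) (by decide +kernel) h.1 h.1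

def F_1737 : FrX :=
  ⟨0x2002000900044004000e02041000141000800040804001010110402008202100100204001208008820800084808004040400210006200000204024201001,
    0xa3, 1, 0x5062708798a7, 6,
    [(0xa3, 1), (0x208693a5, 4), (0x10548793, 4), (0x217693a4, 4), (0x208693a5, 4), (0x10548793, 4)],
    [(0x5062708798a7, 6), (0x327694a0, 4), (0x407185a2, 4), (0x428593a0, 4), (0x407185a2, 4), (0x426190a3, 4), (0x43768592, 4), (0x428593a0, 4), (0x43768592, 4), (0x207193a4, 4), (0x428593a0, 4), (0x426190a3, 4)]⟩

def c_1737 : frmChk tA tB F_1737 = true := by decide +kernel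

def r_1737_0 : chkL rootF engF2 tA tB sA_282 sB_282 4 F_1737 [(511, 0, 0)]
    0x4661711c05c1e1382b = true := by
  decide +kernel

theorem f_1737 (h : TabsF) : FrameF repsF 282 F_1737.f :=
  frame_of rfl c_1737 (runs_of engOK r_1737_0) (by decide +kernel) h.1 h.2

def F_1738 : FrX :=
  ⟨0x80080a000804040e00002101002001000002040882200001101090004042002020024000c000112200000408880488000080510050001002440c0200000,
    0xa6, 1, 0x3242728797a1, 6,
    [(0xa6, 1), (0x205396a8, 4), (0x10548796, 4), (0x214396a7, 4), (0x205396a8, 4), (0x10548796, 4)],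
    [(0x3242728797a1, 6), (0x43627095, 4), (0x538196a0, 4), (0x42638195, 4), (0x538196a0, 4), (0x546392a7, 4), (0x32647081, 4), (0x42638195, 4), (0x32647081, 4), (0x426593a0, 4), (0x42638195, 4), (0x546392a7, 4)]⟩

def c_1738 : frmChk tA tB F_1738 = true := by decide +kernel

def r_1738_0 : chkL rootF engF2 tA tB sA_282 sB_282 4 F_1738 [(511, 0, 0)]
    0x10eb21c9321c9321c9321c90558541d8c721c9321c908b03c6a = true := by
  decide +kernel

theorem f_1738 (h : TabsF) : FrameF repsF 282 F_1738.f :=
  frame_of rfl c_1738 (runs_of engOK r_1738_0) (by decide +kernel) h.1 h.2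

def F_1739 : FrX :=
  ⟨0x2002000900044004000e02041000141000800040810000028081001402000c00220200200808010224011080008408800041000141008000c01020009800,
    0xa3, 1, 0x425064728593a6, 7,
    [(0xa3, 1), (0x208693a5, 4), (0x10548793, 4), (0x217693a4, 4), (0x208693a5, 4), (0x10548793, 4)],
    [(0x425064728593a6, 7), (0x327598a0, 4), (0x32405186, 4), (0x327196a4, 4), (0x327598a0, 4), (0x32405186, 4)]⟩

def c_1739 : frmChk tA tA F_1739 = true := by decide +kernel

def r_1739_0 : chkL rootF engF2 tA tA sA_282 sA_282 4 F_1739 [(511, 0, 0)]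
    0x105c1706c2703c1e12c630ac2b0748d88c1705c3c0f10e = true := by
  decide +kernel

theorem f_1739 (h : TabsF) : FrameF repsF 282 F_1739.f :=
  frame_of rfl c_1739 (runs_of engOK r_1739_0) (by decide +kernel) h.1 h.1

def F_1740 : FrX :=
  ⟨0x80080a000804040e00002101002001000002040882010910020004100042002020004040c00011020000c00100500802002080980001080c400c0040800,
    0xa6, 1, 0x10214150637485a0, 8,
    [(0xa6, 1), (0x205396a8, 4), (0x10548796, 4), (0x214396a7, 4), (0x205396a8, 4), (0x10548796, 4)],
    [(0x10214150637485a0, 8), (0x318695a0, 4), (0x218795a4, 4), (0x32407695, 4), (0x318695a0, 4), (0x218795a4, 4)]⟩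

def c_1740 : frmChk tA tA F_1740 = true := by decide +kernel

def r_1740_0 : chkL rootF engF2 tA tA sA_282 sA_282 4 F_1740 [(511, 0, 0)]
    0x52a0b82d03c2d03c74 = true := by
  decide +kernel

theorem f_1740 (h : TabsF) : FrameF repsF 282 F_1740.f :=
  frame_of rfl c_1740 (runs_of engOK r_1740_0) (by decide +kernel) h.1 h.1

def F_1741 : FrX :=
  ⟨0x80080a000804040e00002101002001000002040881081000060008100020201010808100c00040240412000023000140002090002808408000840880040,
    0xa6, 1, 0x104064758398a2, 7,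
    [(0xa6, 1), (0x205396a8, 4), (0x10548796, 4), (0x214396a7, 4), (0x205396a8, 4), (0x10548796, 4)],
    [(0x104064758398a2, 7), (0x328791a4, 4), (0x32407695, 4), (0x325186a0, 4), (0x328791a4, 4), (0x32407695, 4)]⟩

def c_1741 : frmChk tA tA F_1741 = true := by decide +kernel

def r_1741_0 : chkL rootF engF2 tA tA sA_282 sA_282 4 F_1741 [(511, 0, 0)]
    0x10d42709c17 = true := by
  decide +kernel

theorem f_1741 (h : TabsF) : FrameF repsF 282 F_1741.f :=
  frame_of rfl c_1741 (runs_of engOK r_1741_0) (by decide +kernel) h.1 h.1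

def F_1742 : FrX :=
  ⟨0x482000044040440000c204002000900018204002000400280020a008024020030400000101010220810008102801802040000084108000802002800881,
    0xa0, 1, 0x3052768393a2, 6,
    [(0xa0, 1), (0x538690a2, 4), (0x548790a1, 4), (0x21437690, 4), (0x538690a2, 4), (0x548790a1, 4)],
    [(0x3052768393a2, 6), (0x406297a3, 4), (0x31427685, 4), (0x62748590, 4), (0x31427685, 4), (0x207496a1, 4), (0x708594a3, 4), (0x62748590, 4), (0x708594a3, 4), (0x31647290, 4), (0x62748590, 4), (0x207496a1, 4)]⟩

def c_1742 : frmChk tA tB F_1742 = true := by decide +kernel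

def r_1742_0 : chkL rootF engF2 tA tB sA_282 sB_282 4 F_1742 [(511, 0, 0)]
    0x43511c27 = true := by
  decide +kernel

theorem f_1742 (h : TabsF) : FrameF repsF 282 F_1742.f :=
  frame_of rfl c_1742 (runs_of engOK r_1742_0) (by decide +kernel) h.1 h.2

def F_1743 : FrX :=
  ⟨0x482000044040440000c20400200090001820400009020008040204000010480110120200010800008800488a8000800248001018048404080080080001,
    0xa0, 1, 0x3150768194a2, 6,
    [(0xa0, 1), (0x538690a2, 4), (0x548790a1, 4), (0x21437690, 4), (0x538690a2, 4), (0x548790a1, 4)],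
    [(0x3150768194a2, 6), (0x607193a5, 4), (0x42768590, 4), (0x31426097, 4), (0x42768590, 4), (0x306197a8, 4), (0x427391a5, 4), (0x31426097, 4), (0x427391a5, 4), (0x31708596, 4), (0x31426097, 4), (0x306197a8, 4)]⟩

def c_1743 : frmChk tA tB F_1743 = true := by decide +kernel

def r_1743_0 : chkL rootF engF2 tA tB sA_282 sB_282 4 F_1743 [(511, 0, 0)]
    0x1078a52942b0ac2e360660ac2b0b4594d05505c96 = true := by
  decide +kernel

theorem f_1743 (h : TabsF) : FrameF repsF 282 F_1743.f :=
  frame_of rfl c_1743 (runs_of engOK r_1743_0) (by decide +kernel) h.1 h.2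

def F_1744 : FrX :=
  ⟨0x2002000900044004000e0204100014100080004081000008110080240101040202002401000c0042040494008000080101000800220800080210000c4041,
    0xa3, 1, 0x315060728193a6, 7,
    [(0xa3, 1), (0x208693a5, 4), (0x10548793, 4), (0x217693a4, 4), (0x208693a5, 4), (0x10548793, 4)],
    [(0x315060728193a6, 7), (0x517690a3, 4), (0x32405186, 4), (0x518794a2, 4), (0x517690a3, 4), (0x32405186, 4)]⟩

def c_1744 : frmChk tA tA F_1744 = true := by decide +kernel

def r_1744_0 : chkL rootF engF2 tA tA sA_282 sA_282 4 F_1744 [(511, 0, 0)]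
    0x10d6290d8270b82e1b01d1645611c3a = true := by
  decide +kernel

theorem f_1744 (h : TabsF) : FrameF repsF 282 F_1744.f :=
  frame_of rfl c_1744 (runs_of engOK r_1744_0) (by decide +kernel) h.1 h.1

def F_1745 : FrX :=
  ⟨0x2002000900044004000e0204100014100080004080040102401008020100024101020202000801004088020a020040040281011001041021000200010210,
    0xa3, 1, 0x4350608098a2, 6,
    [(0xa3, 1), (0x208693a5, 4), (0x10548793, 4), (0x217693a4, 4), (0x208693a5, 4), (0x10548793, 4)],
    [(0x4350608098a2, 6), (0x406295a8, 4), (0x30628197, 4), (0x436275a1, 4), (0x406295a8, 4), (0x30628197, 4)]⟩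

def c_1745 : frmChk tA tA F_1745 = true := by decide +kernel

def r_1745_0 : chkL rootF engF2 tA tA sA_282 sA_282 4 F_1745 [(511, 0, 0)]
    0x4278d07209e34 = true := by
  decide +kernel

theorem f_1745 (h : TabsF) : FrameF repsF 282 F_1745.f :=
  frame_of rfl c_1745 (runs_of engOK r_1745_0) (by decide +kernel) h.1 h.1

def F_1746 : FrX :=
  ⟨0x80080a000804040e000021010020010000020408a0001002080400180414000005080200400032000890000128050400220090040020820002040600200,
    0xa6, 1, 0x102152638296a1, 7,
    [(0xa6, 1), (0x205396a8, 4), (0x10548796, 4), (0x214396a7, 4), (0x205396a8, 4), (0x10548796, 4)],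
    [(0x102152638296a1, 7), (0x54708196, 4), (0x324097a1, 4), (0x32657094, 4), (0x324097a1, 4), (0x507694a8, 4), (0x32648195, 4), (0x32657094, 4), (0x32648195, 4), (0x657490a1, 4), (0x32657094, 4), (0x507694a8, 4)]⟩

def c_1746 : frmChk tA tB F_1746 = true := by decide +kernel

def r_1746_0 : chkL rootF engF2 tA tB sA_282 sB_282 4 F_1746 [(511, 0, 0)]
    0x40f05c53 = true := by
  decide +kernel

theorem f_1746 (h : TabsF) : FrameF repsF 282 F_1746.f :=
  frame_of rfl c_1746 (runs_of engOK r_1746_0) (by decide +kernel) h.1 h.2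

def F_1747 : FrX :=
  ⟨0x482000044040440000c2040020009000182040002080440001200008040041080802050080301000880020508001040080010102041020001200808082,
    0xa0, 1, 0x40708298a4, 5,
    [(0xa0, 1), (0x538690a2, 4), (0x548790a1, 4), (0x21437690, 4), (0x538690a2, 4), (0x548790a1, 4)],
    [(0x40708298a4, 5), (0x546387a9, 4), (0x206471a5, 4), (0x205493a6, 4), (0x206471a5, 4), (0x438195a6, 4), (0x208796a3, 4), (0x205493a6, 4), (0x208796a3, 4), (0x657193a4, 4), (0x205493a6, 4), (0x438195a6, 4)]⟩

def c_1747 : frmChk tA tB F_1747 = true := by decide +kernel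

def r_1747_0 : chkL rootF engF2 tA tB sA_282 sB_282 4 F_1747 [(511, 0, 0)]
    0x109c1d03c1b09c0f06c8e = true := by
  decide +kernel

theorem f_1747 (h : TabsF) : FrameF repsF 282 F_1747.f :=
  frame_of rfl c_1747 (runs_of engOK r_1747_0) (by decide +kernel) h.1 h.2

def F_1748 : FrX :=
  ⟨0x2002000900044004000e02041000141000800040810000028080804202002200140080201008500820800404401010840080a01000400200202104004004,
    0xa3, 1, 0x20617296a3, 5,
    [(0xa3, 1), (0x208693a5, 4), (0x10548793, 4), (0x217693a4, 4), (0x208693a5, 4), (0x10548793, 4)],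
    [(0x20617296a3, 5), (0x317298a5, 4), (0x31546280, 4), (0x317690a4, 4), (0x317298a5, 4), (0x31546280, 4)]⟩

def c_1748 : frmChk tA tA F_1748 = true := by decide +kernel

def r_1748_0 : chkL rootF engF2 tA tA sA_282 sA_282 4 F_1748 [(511, 0, 0)]
    0x435a3185a1705e104703c36 = true := by
  decide +kernel

theorem f_1748 (h : TabsF) : FrameF repsF 282 F_1748.f :=
  frame_of rfl c_1748 (runs_of engOK r_1748_0) (by decide +kernel) h.1 h.1

def F_1749 : FrX :=
  ⟨0x482000044040440000c2040020009000182040002081020800880200040090004022010020011600800001084020802008002108000400700024200201,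
    0xa0, 1, 0x536180a5, 4,
    [(0xa0, 1), (0x538690a2, 4), (0x548790a1, 4), (0x21437690, 4), (0x538690a2, 4), (0x548790a1, 4)],
    [(0x536180a5, 4), (0x405182a7, 4), (0x718693a4, 4), (0x415093a7, 4), (0x718693a4, 4), (0x416275a0, 4), (0x10548293, 4), (0x415093a7, 4), (0x10548293, 4), (0x507486a1, 4), (0x415093a7, 4), (0x416275a0, 4)]⟩

def c_1749 : frmChk tA tB F_1749 = true := by decide +kernel

def r_1749_0 : chkL rootF engF2 tA tB sA_282 sB_282 4 F_1749 [(511, 0, 0)]
    0x4270785506c2b = true := by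
  decide +kernel

theorem f_1749 (h : TabsF) : FrameF repsF 282 F_1749.f :=
  frame_of rfl c_1749 (runs_of engOK r_1749_0) (by decide +kernel) h.1 h.2

def F_1750 : FrX :=
  ⟨0x80080a000804040e000021010020010000020408822000040484a00000400800408220014005000208008005011108010200020404009003002100c0000,
    0xa6, 1, 0x3151658795a7, 6,
    [(0xa6, 1), (0x205396a8, 4), (0x10548796, 4), (0x214396a7, 4), (0x205396a8, 4), (0x10548796, 4)],
    [(0x3151658795a7, 6), (0x203174a9, 4), (0x508694a3, 4), (0x437186a9, 4), (0x508694a3, 4), (0x435297a1, 4), (0x20417386, 4), (0x437186a9, 4), (0x20417386, 4), (0x507193a4, 4), (0x437186a9, 4), (0x435297a1, 4)]⟩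

def c_1750 : frmChk tA tB F_1750 = true := by decide +kernel

def r_1750_0 : chkL rootF engF2 tA tB sA_282 sB_282 4 F_1750 [(511, 0, 0)]
    0x42b4388d1582b11c0f1541b05c17 = true := by
  decide +kernel

theorem f_1750 (h : TabsF) : FrameF repsF 282 F_1750.f :=
  frame_of rfl c_1750 (runs_of engOK r_1750_0) (by decide +kernel) h.1 h.2

def F_1751 : FrX :=
  ⟨0x1c2102000004044000002041000101000082040888081000001020400400102000604050084049000880004888008041100001006100820202004600000,
    0x0, 0, 0x4376, 2,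
    [(0x0, 0), (0x205386a9, 4), (0x105487a9, 4), (0x214376a9, 4), (0x205386a9, 4), (0x105487a9, 4)],
    [(0x4376, 2), (0x20657483, 4), (0x105376a9, 4), (0x657384a9, 4), (0x105376a9, 4), (0x21647385, 4), (0x204387a9, 4), (0x657384a9, 4), (0x204387a9, 4), (0x10637584, 4), (0x657384a9, 4), (0x21647385, 4)]⟩

def c_1751 : frmChk tA tB F_1751 = true := by decide +kernel

def r_1751_0 : chkL rootF engF2 tA tB sA_282 sB_282 4 F_1751 [(511, 0, 0)]
    0x4d216871 = true := by
  decide +kernel

theorem f_1751 (h : TabsF) : FrameF repsF 282 F_1751.f :=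
  frame_of rfl c_1751 (runs_of engOK r_1751_0) (by decide +kernel) h.1 h.2

def F_1752 : FrX :=
  ⟨0x482000044040440000c2040020009000182040020090880000020280020102800400040101011020800060808020040340001008140120004002200084,
    0xa0, 1, 0x304052738293a3, 7,
    [(0xa0, 1), (0x538690a2, 4), (0x548790a1, 4), (0x21437690, 4), (0x538690a2, 4), (0x548790a1, 4)],
    [(0x304052738293a3, 7), (0x205384a6, 4), (0x32416097, 4), (0x206397a5, 4), (0x32416097, 4), (0x526381a0, 4), (0x658497a3, 4), (0x206397a5, 4), (0x658497a3, 4), (0x304162a5, 4), (0x206397a5, 4), (0x526381a0, 4)]⟩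

def c_1752 : frmChk tA tB F_1752 = true := by decide +kernel

def r_1752_0 : chkL rootF engF2 tA tB sA_282 sB_282 4 F_1752 [(511, 0, 0)]
    0x1079c109c27 = true := by
  decide +kernel

theorem f_1752 (h : TabsF) : FrameF repsF 282 F_1752.f :=
  frame_of rfl c_1752 (runs_of engOK r_1752_0) (by decide +kernel) h.1 h.2

def F_1753 : FrX :=
  ⟨0x600020801080810000c0040180410101001004001040500000400140112000080022420000220008084100108000420208084400200854010012200001,
    0xa0, 1, 0x3254738098a5, 6,
    [(0xa0, 1), (0x637584a2, 4), (0x547690a1, 4), (0x64758390, 4), (0x547690a1, 4), (0x21647385, 4), (0x438690a2, 4), (0x64758390, 4), (0x438690a2, 4), (0x657483a1, 4), (0x64758390, 4), (0x21647385, 4)],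
    [(0x3254738098a5, 6), (0x768395a2, 4), (0x406281a5, 4), (0x406597a2, 4), (0x406281a5, 4), (0x316572a9, 4), (0x40758396, 4), (0x406597a2, 4), (0x40758396, 4), (0x528197a6, 4), (0x406597a2, 4), (0x316572a9, 4)]⟩

def c_1753 : frmChk tB tB F_1753 = true := by decide +kernel

def r_1753_0 : chkL rootF engF2 tB tB sB_282 sB_282 4 F_1753 [(255, 0, 0), (256, 0, 20)]
    0x58661865 = true := by
  decide +kernel

def r_1753_1 : chkL rootF engF2 tB tB sB_282 sB_282 4 F_1753 [(256, 20, 0)]
    0x1 = true := by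
  decide +kernel

theorem f_1753 (h : TabsF) : FrameF repsF 282 F_1753.f :=
  frame_of rfl c_1753 ((runs_of engOK r_1753_0).append (runs_of engOK r_1753_1)) (by decide +kernel) h.2 h.2

theorem cl_282 (h : TabsF) : ∀ f ∈ fr_282, FrameF repsF 282 f :=
  List.forall_mem_cons.2 ⟨f_1726 h, List.forall_mem_cons.2 ⟨f_1727 h, List.forall_mem_cons.2 ⟨f_1728 h, List.forall_mem_cons.2 ⟨f_1729 h, List.forall_mem_cons.2 ⟨f_1730 h, List.forall_mem_cons.2 ⟨f_1731 h, List.forall_mem_cons.2 ⟨f_1732 h, List.forall_mem_cons.2 ⟨f_1733 h, List.forall_mem_cons.2 ⟨f_1734 h, List.forall_mem_cons.2 ⟨f_1735 h, List.forall_mem_cons.2 ⟨f_1736 h, List.forall_mem_cons.2 ⟨f_1737 h, List.forall_mem_cons.2 ⟨f_1738 h, List.forall_mem_cons.2 ⟨f_1739 h, List.forall_mem_cons.2 ⟨f_1740 h, List.forall_mem_cons.2 ⟨f_1741 h, List.forall_mem_cons.2 ⟨f_1742 h, List.forall_mem_cons.2 ⟨f_1743 h, List.forall_mem_cons.2 ⟨f_1744 h, List.forall_mem_cons.2 ⟨f_1745 h, List.forall_mem_cons.2 ⟨f_1746 h, List.forall_mem_cons.2 ⟨f_1747 h, List.forall_mem_cons.2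 ⟨f_1748 h, List.forall_mem_cons.2 ⟨f_1749 h, List.forall_mem_cons.2 ⟨f_1750 h, List.forall_mem_cons.2 ⟨f_1751 h, List.forall_mem_cons.2 ⟨f_1752 h, List.forall_mem_cons.2 ⟨f_1753 h,
    fun _ h0 => absurd h0 List.not_mem_nil⟩⟩⟩⟩⟩⟩⟩⟩⟩⟩⟩⟩⟩⟩⟩⟩⟩⟩⟩⟩⟩⟩⟩⟩⟩⟩⟩⟩

def F_1754 : FrX :=
  ⟨0x80080a000804040e000021010020010000020408a000020440008810022400800088005810020810009000021200800022821000200800a0020040c0010,
    0xa6, 1, 0x4352628194a6, 6,
    [(0xa6, 1), (0x205396a8, 4), (0x10548796, 4), (0x214396a7, 4), (0x205396a8, 4), (0x10548796, 4)],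
    [(0x4352628194a6, 6), (0x425360a1, 4), (0x53718092, 4), (0x538694a7, 4), (0x425360a1, 4), (0x53718092, 4)]⟩

def c_1754 : frmChk tA tA F_1754 = true := by decide +kernel

def r_1754_0 : chkL rootF engF2 tA tA sA_283 sA_283 4 F_1754 [(511, 0, 0)]
    0x11341733232a881b06c2e03c2d24c5c254c503c2d1aa1686a268685607616a288b89689 = true := by
  decide +kernel

theorem f_1754 (h : TabsF) : FrameF repsF 283 F_1754.f :=
  frame_of rfl c_1754 (runs_of engOK r_1754_0) (by decide +kernel) h.1 h.1

def F_1755 : FrX :=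
  ⟨0x80080a000804040e000021010020010000020408a00c04000800881020000800210140000440220004208005010018021000080805480004400040c0080,
    0xa6, 1, 0x31407682a6, 5,
    [(0xa6, 1), (0x205396a8, 4), (0x10548796, 4), (0x214396a7, 4), (0x205396a8, 4), (0x10548796, 4)],
    [(0x31407682a6, 5), (0x518497a2, 4), (0x43506297, 4), (0x108397a6, 4), (0x518497a2, 4), (0x43506297, 4)]⟩

def c_1755 : frmChk tA tA F_1755 = true := by decide +kernel

def r_1755_0 : chkL rootF engF2 tA tA sA_283 sA_283 4 F_1755 [(255, 0, 0), (256, 0, 20)]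
    0x11c46a1a68a6628a3864a9283612c351b0e10f05c164f00b8551b0c6519c224d863889324c93aa3a081ea14398c385c230c8e03c0f03c0f078f003c47 = true := by
  decide +kernel

def r_1755_1 : chkL rootF engF2 tA tA sA_283 sA_283 4 F_1755 [(256, 20, 0)]
    0x43c5284b03f03e047813654198a9384a90784d1584d1a84b1544711cc505c17314c9330f0332a2164cc16662990599c05953047518d81c471168723c06a3845a = true := by
  decide +kernel

theorem f_1755 (h : TabsF) : FrameF repsF 283 F_1755.f :=
  frame_of rfl c_1755 ((runs_of engOK r_1755_0).append (runs_of engOK r_1755_1)) (by decide +kernel) h.1 h.1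

def F_1756 : FrX :=
  ⟨0x2002000900044004000e02041000141000800040800620028001400400040800220020220004041040020048401000801001828000500202500202000084,
    0xa3, 1, 0x204251617292a2, 7,
    [(0xa3, 1), (0x208693a5, 4), (0x10548793, 4), (0x217693a4, 4), (0x208693a5, 4), (0x10548793, 4)],
    [(0x204251617292a2, 7), (0x415380a2, 4), (0x10546297, 4), (0x41508397, 4), (0x10546297, 4), (0x435081a6, 4), (0x308597a2, 4), (0x41508397, 4), (0x308597a2, 4), (0x40516283, 4), (0x41508397, 4), (0x435081a6, 4)]⟩

def c_1756 : frmChk tA tB F_1756 = true := by decide +kernel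

def r_1756_0 : chkL rootF engF2 tA tB sA_283 sB_283 4 F_1756 [(511, 0, 0)]
    0x49a42d2a2c4b80744e82c1d234331c43a138330742b0ac332640f2a4a3328470f0330cc4703c1703c0f05c0f0d427 = true := by
  decide +kernel

theorem f_1756 (h : TabsF) : FrameF repsF 283 F_1756.f :=
  frame_of rfl c_1756 (runs_of engOK r_1756_0) (by decide +kernel) h.1 h.2

def F_1757 : FrX :=
  ⟨0x2002000900044004000e02041000141000800040808000408080c04200812000100080201020082000c1c000011008800004001020410200401002824200,
    0xa3, 1, 0x314061708090a5, 7,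
    [(0xa3, 1), (0x208693a5, 4), (0x10548793, 4), (0x217693a4, 4), (0x208693a5, 4), (0x10548793, 4)],
    [(0x314061708090a5, 7), (0x738592a1, 4), (0x748596a0, 4), (0x10436285, 4), (0x738592a1, 4), (0x748596a0, 4)]⟩

def c_1757 : frmChk tA tA F_1757 = true := by decide +kernel

def r_1757_0 : chkL rootF engF2 tA tA sA_283 sA_283 4 F_1757 [(511, 0, 0)]
    0x10b856314650742d1706c05c0fa168303c6c12c2b06c270ac6a9884e1704703e85a0c0f0ea0d07a0e = true := by
  decide +kernel

theorem f_1757 (h : TabsF) : FrameF repsF 283 F_1757.f :=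
  frame_of rfl c_1757 (runs_of engOK r_1757_0) (by decide +kernel) h.1 h.1

def F_1758 : FrX :=
  ⟨0x482000044040440000c2040020009000182040002010900000a0001002400202022042000400580840000410300080208008c080020201210200800001,
    0xa0, 1, 0x10203063728598a6, 8,
    [(0xa0, 1), (0x538690a2, 4), (0x548790a1, 4), (0x21437690, 4), (0x538690a2, 4), (0x548790a1, 4)],
    [(0x10203063728598a6, 8), (0x527386a9, 4), (0x30528491, 4), (0x526470a1, 4), (0x527386a9, 4), (0x30528491, 4)]⟩

def c_1758 : frmChk tA tA F_1758 = true := by decide +kernel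

def r_1758_0 : chkL rootF engF2 tA tA sA_283 sA_283 4 F_1758 [(511, 0, 0)]
    0x41e0d4b1294b109c1b05c8b0ac2b2e0170781e0ac1e1702b = true := by
  decide +kernel

theorem f_1758 (h : TabsF) : FrameF repsF 283 F_1758.f :=
  frame_of rfl c_1758 (runs_of engOK r_1758_0) (by decide +kernel) h.1 h.1

def F_1759 : FrX :=
  ⟨0x482000044040440000c20400200090001820400008840008008808000400802208204205000080100401110840008020010021100900801400a0100001,
    0xa0, 1, 0x102143516093a6, 7,
    [(0xa0, 1), (0x538690a2, 4), (0x548790a1, 4), (0x21437690, 4), (0x538690a2, 4), (0x548790a1, 4)],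
    [(0x102143516093a6, 7), (0x416092a8, 4), (0x32416587, 4), (0x415093a7, 4), (0x416092a8, 4), (0x32416587, 4)]⟩

def c_1759 : frmChk tA tA F_1759 = true := by decide +kernel

def r_1759_0 : chkL rootF engF2 tA tA sA_283 sA_283 4 F_1759 [(255, 0, 0), (256, 0, 16)]
    0x10d41705c2722c4781c1d2e10d3462589525c841d0f03c = true := by
  decide +kernel

def r_1759_1 : chkL rootF engF2 tA tA sA_283 sA_283 4 F_1759 [(256, 16, 0)]
    0x10b44e1a42b0d41e3181e14c650ae25705314a41d85a1c0b859 = true := by
  decide +kernel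

theorem f_1759 (h : TabsF) : FrameF repsF 283 F_1759.f :=
  frame_of rfl c_1759 ((runs_of engOK r_1759_0).append (runs_of engOK r_1759_1)) (by decide +kernel) h.1 h.1

def F_1760 : FrX :=
  ⟨0x482000044040440000c2040020009000182040004008220804080004080088200022001204900480000040081001800010201011050004011200008210,
    0xa0, 1, 0x2041607184a2, 6,
    [(0xa0, 1), (0x538690a2, 4), (0x548790a1, 4), (0x21437690, 4), (0x538690a2, 4), (0x548790a1, 4)],
    [(0x2041607184a2, 6), (0x325481a6, 4), (0x42768590, 4), (0x31548290, 4), (0x42768590, 4), (0x435182a7, 4), (0x218390a6, 4), (0x31548290, 4), (0x218390a6, 4), (0x31527684, 4), (0x31548290, 4), (0x435182a7, 4)]⟩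

def c_1760 : frmChk tA tB F_1760 = true := by decide +kernel

def r_1760_0 : chkL rootF engF2 tA tB sA_283 sB_283 4 F_1760 [(511, 0, 0)]
    0x41e42c655896206d6206c6905c171550b12cd4 = true := by
  decide +kernel

theorem f_1760 (h : TabsF) : FrameF repsF 283 F_1760.f :=
  frame_of rfl c_1760 (runs_of engOK r_1760_0) (by decide +kernel) h.1 h.2

def F_1761 : FrX :=
  ⟨0x2002000900044004000e0204100014100080004080080104102000140000c081200100104081001010040006001000800281000441080800140208020281,
    0xa3, 1, 0x315261708298a7, 7,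
    [(0xa3, 1), (0x208693a5, 4), (0x10548793, 4), (0x217693a4, 4), (0x208693a5, 4), (0x10548793, 4)],
    [(0x315261708298a7, 7), (0x318794a2, 4), (0x425076a3, 4), (0x435091a2, 4), (0x425076a3, 4), (0x438692a1, 4), (0x41508793, 4), (0x435091a2, 4), (0x41508793, 4), (0x327691a4, 4), (0x435091a2, 4), (0x438692a1, 4)]⟩

def c_1761 : frmChk tA tB F_1761 = true := by decide +kernel

def r_1761_0 : chkL rootF engF2 tA tB sA_283 sB_283 4 F_1761 [(511, 0, 0)]
    0x111c271344e03c8b06c1e09c2b0f02b0d865 = true := by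
  decide +kernel

theorem f_1761 (h : TabsF) : FrameF repsF 283 F_1761.f :=
  frame_of rfl c_1761 (runs_of engOK r_1761_0) (by decide +kernel) h.1 h.2

def F_1762 : FrX :=
  ⟨0x1c210200000404400000204100010100008204089008008000100140080004400480221000008440002086101045000108008444004000a900080200080,
    0x0, 0, 0x53637487, 4,
    [(0x0, 0), (0x205386a9, 4), (0x105487a9, 4), (0x214376a9, 4), (0x205386a9, 4), (0x105487a9, 4)],
    [(0x53637487, 4), (0x205463a9, 4), (0x107384a9, 4), (0x217685a9, 4), (0x205463a9, 4), (0x107384a9, 4)]⟩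

def c_1762 : frmChk tA tA F_1762 = true := by decide +kernel

def r_1762_0 : chkL rootF engF2 tA tA sA_283 sA_283 4 F_1762 [(255, 0, 0), (256, 0, 3)]
    0x114c0f = true := by
  decide +kernel

def r_1762_1 : chkL rootF engF2 tA tA sA_283 sA_283 4 F_1762 [(256, 3, 3)]
    0x42707827 = true := by
  decide +kernel

def r_1762_2 : chkL rootF engF2 tA tA sA_283 sA_283 4 F_1762 [(256, 6, 1)]
    0x532 = true := by
  decide +kernel

def r_1762_3 : chkL rootF engF2 tA tA sA_283 sA_283 4 F_1762 [(256, 7, 1)]
    0x1 = true := by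
  decide +kernel

def r_1762_4 : chkL rootF engF2 tA tA sA_283 sA_283 4 F_1762 [(256, 8, 2)]
    0x1 = true := by
  decide +kernel

def r_1762_5 : chkL rootF engF2 tA tA sA_283 sA_283 4 F_1762 [(256, 10, 2)]
    0x1 = true := by
  decide +kernel

def r_1762_6 : chkL rootF engF2 tA tA sA_283 sA_283 4 F_1762 [(256, 12, 1)]
    0x11c827 = true := by
  decide +kernel

def r_1762_7 : chkL rootF engF2 tA tA sA_283 sA_283 4 F_1762 [(256, 13, 2)]
    0x1 = true := by
  decide +kernel

def r_1762_8 : chkL rootF engF2 tA tA sA_283 sA_283 4 F_1762 [(256, 15, 2)]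
    0x427 = true := by
  decide +kernel

def r_1762_9 : chkL rootF engF2 tA tA sA_283 sA_283 4 F_1762 [(256, 17, 3)]
    0x1 = true := by
  decide +kernel

def r_1762_10 : chkL rootF engF2 tA tA sA_283 sA_283 4 F_1762 [(256, 20, 14)]
    0x417 = true := by
  decide +kernel

def r_1762_11 : chkL rootF engF2 tA tA sA_283 sA_283 4 F_1762 [(256, 34, 0)]
    0x1 = true := by
  decide +kernel

theorem f_1762 (h : TabsF) : FrameF repsF 283 F_1762.f :=
  frame_of rfl c_1762 ((runs_of engOK r_1762_0).append ((runs_of engOK r_1762_1).append ((runs_of engOK r_1762_2).append ((runs_of engOK r_1762_3).append ((runs_of engOK r_1762_4).append ((runs_of engOK r_1762_5).append ((runs_of engOK r_1762_6).append ((runs_of engOK r_1762_7).append ((runs_of engOK r_1762_8).append ((runs_of engOK r_1762_9).append ((runs_of engOK r_1762_10).append (runs_of engOK r_1762_11)))))))))))) (by decide +kernel) h.1 h.1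

def F_1763 : FrX :=
  ⟨0x2002000900044004000e02041000141000800040801002680000c00200812000000022210100004404020001010450002000084c800400088020c0212000,
    0xa3, 1, 0x1042536384a3, 6,
    [(0xa3, 1), (0x208693a5, 4), (0x10548793, 4), (0x217693a4, 4), (0x208693a5, 4), (0x10548793, 4)],
    [(0x1042536384a3, 6), (0x415296a3, 4), (0x10728396, 4), (0x407596a8, 4), (0x415296a3, 4), (0x10728396, 4)]⟩

def c_1763 : frmChk tA tA F_1763 = true := by decide +kernel

def r_1763_0 : chkL rootF engF2 tA tA sA_283 sA_283 4 F_1763 [(511, 0, 0)]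
    0x48e06c17 = true := by
  decide +kernel

theorem f_1763 (h : TabsF) : FrameF repsF 283 F_1763.f :=
  frame_of rfl c_1763 (runs_of engOK r_1763_0) (by decide +kernel) h.1 h.1

def F_1764 : FrX :=
  ⟨0x80080a000804040e0000210100200100000204089002000860800800881000400440101000008500002800101044200101400444000010a900100440080,
    0xa6, 1, 0x42546396a6, 5,
    [(0xa6, 1), (0x205396a8, 4), (0x10548796, 4), (0x214396a7, 4), (0x205396a8, 4), (0x10548796, 4)],
    [(0x42546396a6, 5), (0x406293a8, 4), (0x10528793, 4), (0x416593a7, 4), (0x406293a8, 4), (0x10528793, 4)]⟩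

def c_1764 : frmChk tA tA F_1764 = true := by decide +kernel

def r_1764_0 : chkL rootF engF2 tA tA sA_283 sA_283 4 F_1764 [(511, 0, 0)]
    0x45a85a15e104d = true := by
  decide +kernel

theorem f_1764 (h : TabsF) : FrameF repsF 283 F_1764.f :=
  frame_of rfl c_1764 (runs_of engOK r_1764_0) (by decide +kernel) h.1 h.1

def F_1765 : FrX :=
  ⟨0x482000044040440000c204002000900018204001010000810100018000210840482000080e001000080030401208800014000040440104088200800048,
    0xa0, 1, 0x21324052617296a0, 8,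
    [(0xa0, 1), (0x538690a2, 4), (0x548790a1, 4), (0x21437690, 4), (0x538690a2, 4), (0x548790a1, 4)],
    [(0x21324052617296a0, 8), (0x538091a7, 4), (0x304295a6, 4), (0x42538190, 4), (0x304295a6, 4), (0x51768390, 4), (0x104298a7, 4), (0x42538190, 4), (0x104298a7, 4), (0x508193a6, 4), (0x42538190, 4), (0x51768390, 4)]⟩

def c_1765 : frmChk tA tB F_1765 = true := by decide +kernel

def r_1765_0 : chkL rootF engF2 tA tB sA_283 sB_283 4 F_1765 [(511, 0, 0)]
    0x105c3a = true := by
  decide +kernel

theorem f_1765 (h : TabsF) : FrameF repsF 283 F_1765.f :=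
  frame_of rfl c_1765 (runs_of engOK r_1765_0) (by decide +kernel) h.1 h.2

def F_1766 : FrX :=
  ⟨0x1001040012008080000e0084080041000810100004090000182001002000203004a0400042a000010008800482800021008000010a05000a002050200004,
    0xa3, 1, 0x32405161738098a6, 8,
    [(0xa3, 1), (0x207584a6, 4), (0x10547693, 4), (0x647593a8, 4), (0x10547693, 4), (0x216485a7, 4), (0x208693a4, 4), (0x647593a8, 4), (0x208693a4, 4), (0x106574a8, 4), (0x647593a8, 4), (0x216485a7, 4)],
    [(0x32405161738098a6, 8), (0x547183a9, 4), (0x10548692, 4), (0x546370a2, 4), (0x547183a9, 4), (0x10548692, 4)]⟩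

def c_1766 : frmChk tB tA F_1766 = true := by decide +kernel

def r_1766_0 : chkL rootF engF2 tB tA sB_283 sA_283 4 F_1766 [(511, 0, 0)]
    0x41d0b41705c1d07436 = true := by
  decide +kernel

theorem f_1766 (h : TabsF) : FrameF repsF 283 F_1766.f :=
  frame_of rfl c_1766 (runs_of engOK r_1766_0) (by decide +kernel) h.2 h.1

def F_1767 : FrX :=
  ⟨0x1001040012008080000e00840800410008101000060000081100022480280044800000080080804120210040c00838000800020260000001108002220100,
    0xa3, 1, 0x1020314265738098a0, 9,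
    [(0xa3, 1), (0x207584a6, 4), (0x10547693, 4), (0x647593a8, 4), (0x10547693, 4), (0x216485a7, 4), (0x208693a4, 4), (0x647593a8, 4), (0x208693a4, 4), (0x106574a8, 4), (0x647593a8, 4), (0x216485a7, 4)],
    [(0x1020314265738098a0, 9), (0x768295a4, 4), (0x618290a3, 4), (0x43507182, 4), (0x768295a4, 4), (0x618290a3, 4)]⟩

def c_1767 : frmChk tB tA F_1767 = true := by decide +kernel

def r_1767_0 : chkL rootF engF2 tB tA sB_283 sA_283 4 F_1767 [(511, 0, 0)]
    0x105c0f314336506505c17d073005c17 = true := by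
  decide +kernel

theorem f_1767 (h : TabsF) : FrameF repsF 283 F_1767.f :=
  frame_of rfl c_1767 (runs_of engOK r_1767_0) (by decide +kernel) h.2 h.1

def F_1768 : FrX :=
  ⟨0x1001040012008080000e0084080041000810100004048008012001004002002280800a020000280016810084020010400840200108020810002000201104,
    0xa3, 1, 0x51618593a4, 5,
    [(0xa3, 1), (0x207584a6, 4), (0x10547693, 4), (0x647593a8, 4), (0x10547693, 4), (0x216485a7, 4), (0x208693a4, 4), (0x647593a8, 4), (0x208693a4, 4), (0x106574a8, 4), (0x647593a8, 4), (0x216485a7, 4)],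
    [(0x51618593a4, 5), (0x208795a1, 4), (0x436075a8, 4), (0x438791a5, 4), (0x436075a8, 4), (0x628197a5, 4), (0x204351a9, 4), (0x438791a5, 4), (0x204351a9, 4), (0x608591a7, 4), (0x438791a5, 4), (0x628197a5, 4)]⟩

def c_1768 : frmChk tB tB F_1768 = true := by decide +kernel

def r_1768_0 : chkL rootF engF2 tB tB sB_283 sB_283 4 F_1768 [(511, 0, 0)]
    0x43605d161a48e28c65710351703621e85e04b491471 = true := by
  decide +kernel

theorem f_1768 (h : TabsF) : FrameF repsF 283 F_1768.f :=
  frame_of rfl c_1768 (runs_of engOK r_1768_0) (by decide +kernel) h.2 h.2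

def F_1769 : FrX :=
  ⟨0x2002000900044004000e02041000141000800040810000018110000208202108100300002008004810800209000004040244208006200000404002041011,
    0xa3, 1, 0x21607495a3, 5,
    [(0xa3, 1), (0x208693a5, 4), (0x10548793, 4), (0x217693a4, 4), (0x208693a5, 4), (0x10548793, 4)],
    [(0x21607495a3, 5), (0x536180a9, 4), (0x53628497, 4), (0x214053a7, 4), (0x536180a9, 4), (0x53628497, 4)]⟩

def c_1769 : frmChk tA tA F_1769 = true := by decide +kernel

def r_1769_0 : chkL rootF engF2 tA tA sA_283 sA_283 4 F_1769 [(511, 0, 0)]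
    0x49a = true := by
  decide +kernel

theorem f_1769 (h : TabsF) : FrameF repsF 283 F_1769.f :=
  frame_of rfl c_1769 (runs_of engOK r_1769_0) (by decide +kernel) h.1 h.1

theorem cl_283 (h : TabsF) : ∀ f ∈ fr_283, FrameF repsF 283 f :=
  List.forall_mem_cons.2 ⟨f_1754 h, List.forall_mem_cons.2 ⟨f_1755 h, List.forall_mem_cons.2 ⟨f_1756 h, List.forall_mem_cons.2 ⟨f_1757 h, List.forall_mem_cons.2 ⟨f_1758 h, List.forall_mem_cons.2 ⟨f_1759 h, List.forall_mem_cons.2 ⟨f_1760 h, List.forall_mem_cons.2 ⟨f_1761 h, List.forall_mem_cons.2 ⟨f_1762 h, List.forall_mem_cons.2 ⟨f_1763 h, List.forall_mem_cons.2 ⟨f_1764 h, List.forall_mem_cons.2 ⟨f_1765 h, List.forall_mem_cons.2 ⟨f_1766 h, List.forall_mem_cons.2 ⟨f_1767 h, List.forall_mem_cons.2 ⟨f_1768 h, List.forall_mem_cons.2 ⟨f_1769 h,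
    fun _ h0 => absurd h0 List.not_mem_nil⟩⟩⟩⟩⟩⟩⟩⟩⟩⟩⟩⟩⟩⟩⟩⟩

def F_1770 : FrX :=
  ⟨0x80080a000804040e00002101002001000002040888080440204020400410008000404044040008808090000108410400240008022012820002002220080,
    0xa6, 1, 0x1020435281a2, 6,
    [(0xa6, 1), (0x205396a8, 4), (0x10548796, 4), (0x214396a7, 4), (0x205396a8, 4), (0x10548796, 4)],
    [(0x1020435281a2, 6), (0x416095a2, 4), (0x31708295, 4), (0x437695a8, 4), (0x416095a2, 4), (0x31708295, 4)]⟩

def c_1770 : frmChk tA tA F_1770 = true := by decide +kernel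

def r_1770_0 : chkL rootF engF2 tA tA sA_284 sA_284 4 F_1770 [(511, 0, 0)]
    0x114c0f11c1d11c5a9883c498270741e3500f076239888e = true := by
  decide +kernel

theorem f_1770 (h : TabsF) : FrameF repsF 284 F_1770.f :=
  frame_of rfl c_1770 (runs_of engOK r_1770_0) (by decide +kernel) h.1 h.1

def F_1771 : FrX :=
  ⟨0x80080a000804040e000021010020010000020408810804002101001020400800090140008480020920008000206100020402080804010804400a0200080,
    0xa6, 1, 0x10203253618097a3, 8,
    [(0xa6, 1), (0x205396a8, 4), (0x10548796, 4), (0x214396a7, 4), (0x205396a8, 4), (0x10548796, 4)],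
    [(0x10203253618097a3, 8), (0x428391a0, 4), (0x41758690, 4), (0x407591a2, 4), (0x41758690, 4), (0x214063a9, 4), (0x207583a4, 4), (0x407591a2, 4), (0x207583a4, 4), (0x108694a2, 4), (0x407591a2, 4), (0x214063a9, 4)]⟩

def c_1771 : frmChk tA tB F_1771 = true := by decide +kernel

def r_1771_0 : chkL rootF engF2 tA tB sA_284 sB_284 4 F_1771 [(255, 0, 0), (256, 0, 19)]
    0x112c4b1945303c0f = true := by
  decide +kernel

def r_1771_1 : chkL rootF engF2 tA tB sA_284 sB_284 4 F_1771 [(256, 19, 0)]
    0x45314c2b1347403c5350c1705c1d = true := by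
  decide +kernel

theorem f_1771 (h : TabsF) : FrameF repsF 284 F_1771.f :=
  frame_of rfl c_1771 ((runs_of engOK r_1771_0).append (runs_of engOK r_1771_1)) (by decide +kernel) h.1 h.2

def F_1772 : FrX :=
  ⟨0x2002000900044004000e02041000141000800040808000208101100422000c002001200008800410d200004002042004000100a000500200401202021010,
    0xa3, 1, 0x415261768293a2, 7,
    [(0xa3, 1), (0x208693a5, 4), (0x10548793, 4), (0x217693a4, 4), (0x208693a5, 4), (0x10548793, 4)],
    [(0x415261768293a2, 7), (0x758392a0, 4), (0x21546083, 4), (0x748391a6, 4), (0x758392a0, 4), (0x21546083, 4)]⟩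

def c_1772 : frmChk tA tA F_1772 = true := by decide +kernel

def r_1772_0 : chkL rootF engF2 tA tA sA_284 sA_284 4 F_1772 [(511, 0, 0)]
    0x105ca917283 = true := by
  decide +kernel

theorem f_1772 (h : TabsF) : FrameF repsF 284 F_1772.f :=
  frame_of rfl c_1772 (runs_of engOK r_1772_0) (by decide +kernel) h.1 h.1

def F_1773 : FrX :=
  ⟨0x2002000900044004000e02041000141000800040810000018100804200812008140000108002182000428209000020002004220000600200440042000250,
    0xa3, 1, 0x203250728397a6, 7,
    [(0xa3, 1), (0x208693a5, 4), (0x10548793, 4), (0x217693a4, 4), (0x208693a5, 4), (0x10548793, 4)],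
    [(0x203250728397a6, 7), (0x407592a8, 4), (0x425163a9, 4), (0x638092a4, 4), (0x425163a9, 4), (0x207198a4, 4), (0x637584a0, 4), (0x638092a4, 4), (0x637584a0, 4), (0x518094a2, 4), (0x638092a4, 4), (0x207198a4, 4)]⟩

def c_1773 : frmChk tA tB F_1773 = true := by decide +kernel

def r_1773_0 : chkL rootF engF2 tA tB sA_284 sB_284 4 F_1773 [(511, 0, 0)]
    0x111f0aa27880f02709c47194171981709c590e85a = true := by
  decide +kernel

theorem f_1773 (h : TabsF) : FrameF repsF 284 F_1773.f :=
  frame_of rfl c_1773 (runs_of engOK r_1773_0) (by decide +kernel) h.1 h.2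

def F_1774 : FrX :=
  ⟨0x482000044040440000c204002000900018204000401088000402001002080280081010810200a000041201002220000204006040200602100014010002,
    0xa0, 1, 0x204160758497a8, 7,
    [(0xa0, 1), (0x538690a2, 4), (0x548790a1, 4), (0x21437690, 4), (0x538690a2, 4), (0x548790a1, 4)],
    [(0x204160758497a8, 7), (0x516073a2, 4), (0x516487a9, 4), (0x40518392, 4), (0x516073a2, 4), (0x516487a9, 4)]⟩

def c_1774 : frmChk tA tA F_1774 = true := by decide +kernel

def r_1774_0 : chkL rootF engF2 tA tA sA_284 sA_284 4 F_1774 [(511, 0, 0)]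
    0x10d4e10d899384e13a071074631a41d0d4560d4360ac360d4353501b075150781e4a721ca189a2788074e1b80e80ac361c41d384e13a02b = true := by
  decide +kernel

theorem f_1774 (h : TabsF) : FrameF repsF 284 F_1774.f :=
  frame_of rfl c_1774 (runs_of engOK r_1774_0) (by decide +kernel) h.1 h.1

def F_1775 : FrX :=
  ⟨0x482000044040440000c2040020009000182040020001042000080804040881200800100102008280040d00080210082101002010080400300020008404,
    0xa0, 1, 0x4052607691a7, 6,
    [(0xa0, 1), (0x538690a2, 4), (0x548790a1, 4), (0x21437690, 4), (0x538690a2, 4), (0x548790a1, 4)],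
    [(0x4052607691a7, 6), (0x32416587, 4), (0x204196a8, 4), (0x304195a7, 4), (0x32416587, 4), (0x204196a8, 4)]⟩

def c_1775 : frmChk tA tA F_1775 = true := by decide +kernel

def r_1775_0 : chkL rootF engF2 tA tA sA_284 sA_284 4 F_1775 [(511, 0, 0)]
    0x130cd814ca51564a346d01684b294170744b03d0d4558c8647203e52 = true := by
  decide +kernel

theorem f_1775 (h : TabsF) : FrameF repsF 284 F_1775.f :=
  frame_of rfl c_1775 (runs_of engOK r_1775_0) (by decide +kernel) h.1 h.1

def F_1776 : FrX :=
  ⟨0x482000044040440000c2040020009000182040000808248004080100080088200010110200180802200010880010000218005210040104040200010012,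
    0xa0, 1, 0x213141627183a0, 7,
    [(0xa0, 1), (0x538690a2, 4), (0x548790a1, 4), (0x21437690, 4), (0x538690a2, 4), (0x548790a1, 4)],
    [(0x213141627183a0, 7), (0x325481a6, 4), (0x415390a7, 4), (0x31548290, 4), (0x415390a7, 4), (0x31527684, 4), (0x218390a6, 4), (0x31548290, 4), (0x218390a6, 4), (0x435182a7, 4), (0x31548290, 4), (0x31527684, 4)]⟩

def c_1776 : frmChk tA tB F_1776 = true := by decide +kernel

def r_1776_0 : chkL rootF engF2 tA tB sA_284 sB_284 4 F_1776 [(511, 0, 0)]
    0x10ac330d91311c2e = true := by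
  decide +kernel

theorem f_1776 (h : TabsF) : FrameF repsF 284 F_1776.f :=
  frame_of rfl c_1776 (runs_of engOK r_1776_0) (by decide +kernel) h.1 h.2

def F_1777 : FrX :=
  ⟨0x482000044040440000c2040020009000182040008040802008101010010050004202010022080200a80801080010c00240000048080400100024200201,
    0xa0, 1, 0x3143518291a2, 6,
    [(0xa0, 1), (0x538690a2, 4), (0x548790a1, 4), (0x21437690, 4), (0x538690a2, 4), (0x548790a1, 4)],
    [(0x3143518291a2, 6), (0x216473a0, 4), (0x31768590, 4), (0x42617385, 4), (0x31768590, 4), (0x326174a9, 4), (0x416285a0, 4), (0x42617385, 4), (0x416285a0, 4), (0x42637190, 4), (0x42617385, 4), (0x326174a9, 4)]⟩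

def c_1777 : frmChk tA tB F_1777 = true := by decide +kernel

def r_1777_0 : chkL rootF engF2 tA tB sA_284 sB_284 4 F_1777 [(511, 0, 0)]
    0x1074171d02e2542705c1726a15a50170e81d06c72 = true := by
  decide +kernel

theorem f_1777 (h : TabsF) : FrameF repsF 284 F_1777.f :=
  frame_of rfl c_1777 (runs_of engOK r_1777_0) (by decide +kernel) h.1 h.2

def F_1778 : FrX :=
  ⟨0x1c21020000040440000020410001010000820408882000080080200100002420810804009005040800802a01200200020c8008001008804240080008010,
    0x0, 0, 0x43657485, 4,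
    [(0x0, 0), (0x205386a9, 4), (0x105487a9, 4), (0x214376a9, 4), (0x205386a9, 4), (0x105487a9, 4)],
    [(0x43657485, 4), (0x206584a9, 4), (0x106387a9, 4), (0x215374a9, 4), (0x206584a9, 4), (0x106387a9, 4)]⟩

def c_1778 : frmChk tA tA F_1778 = true := by decide +kernel

def r_1778_0 : chkL rootF engF2 tA tA sA_284 sA_284 4 F_1778 [(255, 0, 0), (256, 0, 11)]
    0x42b = true := by
  decide +kernel

def r_1778_1 : chkL rootF engF2 tA tA sA_284 sA_284 4 F_1778 [(256, 11, 4)]
    0x10d44d = true := by
  decide +kernel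

def r_1778_2 : chkL rootF engF2 tA tA sA_284 sA_284 4 F_1778 [(256, 15, 3)]
    0x4350d44b = true := by
  decide +kernel

def r_1778_3 : chkL rootF engF2 tA tA sA_284 sA_284 4 F_1778 [(256, 18, 1)]
    0x10b436 = true := by
  decide +kernel

def r_1778_4 : chkL rootF engF2 tA tA sA_284 sA_284 4 F_1778 [(256, 19, 1)]
    0x40f = true := by
  decide +kernel

def r_1778_5 : chkL rootF engF2 tA tA sA_284 sA_284 4 F_1778 [(256, 20, 2)]
    0x1 = true := by
  decide +kernel

def r_1778_6 : chkL rootF engF2 tA tA sA_284 sA_284 4 F_1778 [(256, 22, 2)]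
    0x105c17 = true := by
  decide +kernel

def r_1778_7 : chkL rootF engF2 tA tA sA_284 sA_284 4 F_1778 [(256, 24, 2)]
    0x1 = true := by
  decide +kernel

def r_1778_8 : chkL rootF engF2 tA tA sA_284 sA_284 4 F_1778 [(256, 26, 2)]
    0x40f = true := by
  decide +kernel

def r_1778_9 : chkL rootF engF2 tA tA sA_284 sA_284 4 F_1778 [(256, 28, 1)]
    0x40f = true := by
  decide +kernel

def r_1778_10 : chkL rootF engF2 tA tA sA_284 sA_284 4 F_1778 [(256, 29, 3)]
    0x1 = true := by
  decide +kernel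

def r_1778_11 : chkL rootF engF2 tA tA sA_284 sA_284 4 F_1778 [(256, 32, 0)]
    0x40f = true := by
  decide +kernel

theorem f_1778 (h : TabsF) : FrameF repsF 284 F_1778.f :=
  frame_of rfl c_1778 ((runs_of engOK r_1778_0).append ((runs_of engOK r_1778_1).append ((runs_of engOK r_1778_2).append ((runs_of engOK r_1778_3).append ((runs_of engOK r_1778_4).append ((runs_of engOK r_1778_5).append ((runs_of engOK r_1778_6).append ((runs_of engOK r_1778_7).append ((runs_of engOK r_1778_8).append ((runs_of engOK r_1778_9).append ((runs_of engOK r_1778_10).append (runs_of engOK r_1778_11)))))))))))) (by decide +kernel) h.1 h.1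

def F_1779 : FrX :=
  ⟨0x2002000900044004000e0204100014100080004080080104102042040000c080200100104081001010040006001000108180002840441020001005440200,
    0xa3, 1, 0x324152718698a6, 7,
    [(0xa3, 1), (0x208693a5, 4), (0x10548793, 4), (0x217693a4, 4), (0x208693a5, 4), (0x10548793, 4)],
    [(0x324152718698a6, 7), (0x435091a2, 4), (0x317086a4, 4), (0x438692a1, 4), (0x317086a4, 4), (0x427593a1, 4), (0x215086a9, 4), (0x438692a1, 4), (0x215086a9, 4), (0x417092a3, 4), (0x438692a1, 4), (0x427593a1, 4)]⟩

def c_1779 : frmChk tA tB F_1779 = true := by decide +kernel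

def r_1779_0 : chkL rootF engF2 tA tB sA_284 sB_284 4 F_1779 [(511, 0, 0)]
    0x1168ca0781e12c4711c4711c1711c47 = true := by
  decide +kernel

theorem f_1779 (h : TabsF) : FrameF repsF 284 F_1779.f :=
  frame_of rfl c_1779 (runs_of engOK r_1779_0) (by decide +kernel) h.1 h.2

def F_1780 : FrX :=
  ⟨0x482000044040440000c2040020009000182040002022020004100208080021010202010020010200800081084010000240005080118400604100030002,
    0xa0, 1, 0x215160718292a3, 7,
    [(0xa0, 1), (0x538690a2, 4), (0x548790a1, 4), (0x21437690, 4), (0x538690a2, 4), (0x548790a1, 4)],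
    [(0x215160718292a3, 7), (0x108396a2, 4), (0x42517683, 4), (0x508397a4, 4), (0x108396a2, 4), (0x42517683, 4)]⟩

def c_1780 : frmChk tA tA F_1780 = true := by decide +kernel

def r_1780_0 : chkL rootF engF2 tA tA sA_284 sA_284 4 F_1780 [(511, 0, 0)]
    0x45c0745c0753430cca074593282b2344721ce4314350aca90e8a98a847314ca = true := by
  decide +kernel

theorem f_1780 (h : TabsF) : FrameF repsF 284 F_1780.f :=
  frame_of rfl c_1780 (runs_of engOK r_1780_0) (by decide +kernel) h.1 h.1

def F_1781 : FrX :=
  ⟨0x80080a000804040e00002101002001000002040882200004050020400002208010822000c00010021000800500110940000682004007001000a02000010,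
    0xa6, 1, 0x5364708192a6, 6,
    [(0xa6, 1), (0x205396a8, 4), (0x10548796, 4), (0x214396a7, 4), (0x205396a8, 4), (0x10548796, 4)],
    [(0x5364708192a6, 6), (0x425397a1, 4), (0x10426387, 4), (0x426598a0, 4), (0x425397a1, 4), (0x10426387, 4)]⟩

def c_1781 : frmChk tA tA F_1781 = true := by decide +kernel

def r_1781_0 : chkL rootF engF2 tA tA sA_284 sA_284 4 F_1781 [(511, 0, 0)]
    0x10748e23a23898270760e12c555503c = true := by
  decide +kernel

theorem f_1781 (h : TabsF) : FrameF repsF 284 F_1781.f :=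
  frame_of rfl c_1781 (runs_of engOK r_1781_0) (by decide +kernel) h.1 h.1

def F_1782 : FrX :=
  ⟨0x2002000900044004000e020410001410008000408100000280880040602084081000010008080108210004044000209400042000050080000c0904044040,
    0xa3, 1, 0x20306598a0, 5,
    [(0xa3, 1), (0x208693a5, 4), (0x10548793, 4), (0x217693a4, 4), (0x208693a5, 4), (0x10548793, 4)],
    [(0x20306598a0, 5), (0x527694a0, 4), (0x647583a1, 4), (0x54768392, 4), (0x647583a1, 4), (0x10547296, 4), (0x428395a0, 4), (0x54768392, 4), (0x428395a0, 4), (0x657492a1, 4), (0x54768392, 4), (0x10547296, 4)]⟩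

def c_1782 : frmChk tA tB F_1782 = true := by decide +kernel

def r_1782_0 : chkL rootF engF2 tA tB sA_284 sB_284 4 F_1782 [(511, 0, 0)]
    0x10748d348660b82e03c2e0ad320d83a0e89c0e83a1702e = true := by
  decide +kernel

theorem f_1782 (h : TabsF) : FrameF repsF 284 F_1782.f :=
  frame_of rfl c_1782 (runs_of engOK r_1782_0) (by decide +kernel) h.1 h.2

def F_1783 : FrX :=
  ⟨0x600020801080810000c004018041010100100400120010040040080400940003004080120002002010200a401101420000808202200800040841080040,
    0xa0, 1, 0x204050628498a1, 7,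
    [(0xa0, 1), (0x637584a2, 4), (0x547690a1, 4), (0x64758390, 4), (0x547690a1, 4), (0x21647385, 4), (0x438690a2, 4), (0x64758390, 4), (0x438690a2, 4), (0x657483a1, 4), (0x64758390, 4), (0x21647385, 4)],
    [(0x204050628498a1, 7), (0x21436590, 4), (0x218497a5, 4), (0x217083a6, 4), (0x21436590, 4), (0x218497a5, 4)]⟩

def c_1783 : frmChk tB tA F_1783 = true := by decide +kernel

def r_1783_0 : chkL rootF engF2 tB tA sB_284 sA_284 4 F_1783 [(511, 0, 0)]
    0x1138170748d0781e1c83a0781e0782d1542d1942d3148d = true := by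
  decide +kernel

theorem f_1783 (h : TabsF) : FrameF repsF 284 F_1783.f :=
  frame_of rfl c_1783 (runs_of engOK r_1783_0) (by decide +kernel) h.2 h.1

def F_1784 : FrX :=
  ⟨0x1001040012008080000e0084080041000810100004084004101020002080202200a000220120400040250010014000014040005000424010840001010082,
    0xa3, 1, 0x315462708491a0, 7,
    [(0xa3, 1), (0x207584a6, 4), (0x10547693, 4), (0x647593a8, 4), (0x10547693, 4), (0x216485a7, 4), (0x208693a4, 4), (0x647593a8, 4), (0x208693a4, 4), (0x106574a8, 4), (0x647593a8, 4), (0x216485a7, 4)],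
    [(0x315462708491a0, 7), (0x214085a6, 4), (0x207384a9, 4), (0x40517382, 4), (0x207384a9, 4), (0x10548296, 4), (0x527381a6, 4), (0x40517382, 4), (0x527381a6, 4), (0x425180a9, 4), (0x40517382, 4), (0x10548296, 4)]⟩

def c_1784 : frmChk tB tB F_1784 = true := by decide +kernel

def r_1784_0 : chkL rootF engF2 tB tB sB_284 sB_284 4 F_1784 [(511, 0, 0)]
    0x41e0e81e09c2b06e4a0e80f06c0f = true := by
  decide +kernel

theorem f_1784 (h : TabsF) : FrameF repsF 284 F_1784.f :=
  frame_of rfl c_1784 (runs_of engOK r_1784_0) (by decide +kernel) h.2 h.2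

def F_1785 : FrX :=
  ⟨0x1001040012008080000e00840800410008101000040410048010200040102002082002060018010040041440100400014040200108050008801100008090,
    0xa3, 1, 0x213243518492a3, 7,
    [(0xa3, 1), (0x207584a6, 4), (0x10547693, 4), (0x647593a8, 4), (0x10547693, 4), (0x216485a7, 4), (0x208693a4, 4), (0x647593a8, 4), (0x208693a4, 4), (0x106574a8, 4), (0x647593a8, 4), (0x216485a7, 4)],
    [(0x213243518492a3, 7), (0x436190a2, 4), (0x43507182, 4), (0x437695a8, 4), (0x436190a2, 4), (0x43507182, 4)]⟩

def c_1785 : frmChk tB tA F_1785 = true := by decide +kernel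

def r_1785_0 : chkL rootF engF2 tB tA sB_284 sA_284 4 F_1785 [(511, 0, 0)]
    0x10ad2c295a43a270c482b82c2b8aa2921c1b12c1709c8d05c5a15827134650cc0f0d4179880f = true := by
  decide +kernel

theorem f_1785 (h : TabsF) : FrameF repsF 284 F_1785.f :=
  frame_of rfl c_1785 (runs_of engOK r_1785_0) (by decide +kernel) h.2 h.1

def F_1786 : FrX :=
  ⟨0x1001040012008080000e0084080041000810100006000010c04020202022080800800020008014014008820012000812001000a000600000282009011002,
    0xa3, 1, 0x1031506374a7, 6,
    [(0xa3, 1), (0x207584a6, 4), (0x10547693, 4), (0x647593a8, 4), (0x10547693, 4), (0x216485a7, 4), (0x208693a4, 4), (0x647593a8, 4), (0x208693a4, 4), (0x106574a8, 4), (0x647593a8, 4), (0x216485a7, 4)],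
    [(0x1031506374a7, 6), (0x52618094, 4), (0x537194a8, 4), (0x327694a0, 4), (0x52618094, 4), (0x537194a8, 4)]⟩

def c_1786 : frmChk tB tA F_1786 = true := by decide +kernel

def r_1786_0 : chkL rootF engF2 tB tA sB_284 sA_284 4 F_1786 [(511, 0, 0)]
    0x10ac390d44d0ac9c0cce28b09c0d856a52851641b1658606c270758c07853 = true := by
  decide +kernel

theorem f_1786 (h : TabsF) : FrameF repsF 284 F_1786.f :=
  frame_of rfl c_1786 (runs_of engOK r_1786_0) (by decide +kernel) h.2 h.1

def F_1787 : FrX :=
  ⟨0x1001040012008080000e008408004100081010000421000011012040081020020820000a0000884a00041400a0000024004020501020000100c000808028,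
    0xa3, 1, 0x51768696a2, 5,
    [(0xa3, 1), (0x207584a6, 4), (0x10547693, 4), (0x647593a8, 4), (0x10547693, 4), (0x216485a7, 4), (0x208693a4, 4), (0x647593a8, 4), (0x208693a4, 4), (0x106574a8, 4), (0x647593a8, 4), (0x216485a7, 4)],
    [(0x51768696a2, 5), (0x617493a0, 4), (0x41508296, 4), (0x61738294, 4), (0x41508296, 4), (0x637194a5, 4), (0x438297a0, 4), (0x61738294, 4), (0x438297a0, 4), (0x50647391, 4), (0x61738294, 4), (0x637194a5, 4)]⟩

def c_1787 : frmChk tB tB F_1787 = true := by decide +kernel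

def r_1787_0 : chkL rootF engF2 tB tB sB_284 sB_284 4 F_1787 [(511, 0, 0)]
    0x41e06c1e4383305c650b41e4380f3442e05c99 = true := by
  decide +kernel

theorem f_1787 (h : TabsF) : FrameF repsF 284 F_1787.f :=
  frame_of rfl c_1787 (runs_of engOK r_1787_0) (by decide +kernel) h.2 h.2

def F_1788 : FrX :=
  ⟨0x80080a000804040e00002101002001000002040890010008090014020802001010100412800041000008000691004410021000080400090444200820000,
    0xa6, 1, 0x2032417295a8, 6,
    [(0xa6, 1), (0x205396a8, 4), (0x10548796, 4), (0x214396a7, 4), (0x205396a8, 4), (0x10548796, 4)],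
    [(0x2032417295a8, 6), (0x607293a1, 4), (0x42638591, 4), (0x618593a0, 4), (0x42638591, 4), (0x306174a9, 4), (0x107285a6, 4), (0x618593a0, 4), (0x107285a6, 4), (0x314296a0, 4), (0x618593a0, 4), (0x306174a9, 4)]⟩

def c_1788 : frmChk tA tB F_1788 = true := by decide +kernel

def r_1788_0 : chkL rootF engF2 tA tB sA_284 sB_284 4 F_1788 [(511, 0, 0)]
    0x122d2649871c1705c18361381e06c1b = true := by
  decide +kernel

theorem f_1788 (h : TabsF) : FrameF repsF 284 F_1788.f :=
  frame_of rfl c_1788 (runs_of engOK r_1788_0) (by decide +kernel) h.1 h.2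

def F_1789 : FrX :=
  ⟨0x482000044040440000c204002000900018204000088088001003008000018280002040210100011000020100221004864000101020880400001000820c,
    0xa0, 1, 0x4263718095a0, 6,
    [(0xa0, 1), (0x538690a2, 4), (0x548790a1, 4), (0x21437690, 4), (0x538690a2, 4), (0x548790a1, 4)],
    [(0x4263718095a0, 6), (0x308596a4, 4), (0x108592a7, 4), (0x31627485, 4), (0x308596a4, 4), (0x108592a7, 4)]⟩

def c_1789 : frmChk tA tA F_1789 = true := by decide +kernel

def r_1789_0 : chkL rootF engF2 tA tA sA_284 sA_284 4 F_1789 [(511, 0, 0)]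
    0x4aa22c39168171643912c9924c1e344170782b = true := by
  decide +kernel

theorem f_1789 (h : TabsF) : FrameF repsF 284 F_1789.f :=
  frame_of rfl c_1789 (runs_of engOK r_1789_0) (by decide +kernel) h.1 h.1

def F_1790 : FrX :=
  ⟨0x2002000900044004000e0204100014100080004080040102401008020020404410008020404400100808000a000420108180600080401020001002203080,
    0xa3, 1, 0x215260758198a0, 7,
    [(0xa3, 1), (0x208693a5, 4), (0x10548793, 4), (0x217693a4, 4), (0x208693a5, 4), (0x10548793, 4)],
    [(0x215260758198a0, 7), (0x627390a5, 4), (0x627491a8, 4), (0x10436285, 4), (0x627390a5, 4), (0x627491a8, 4)]⟩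

def c_1790 : frmChk tA tA F_1790 = true := by decide +kernel

def r_1790_0 : chkL rootF engF2 tA tA sA_284 sA_284 4 F_1790 [(511, 0, 0)]
    0x40f1543330c1712c1b2641b0cc78 = true := by
  decide +kernel

theorem f_1790 (h : TabsF) : FrameF repsF 284 F_1790.f :=
  frame_of rfl c_1790 (runs_of engOK r_1790_0) (by decide +kernel) h.1 h.1

def F_1791 : FrX :=
  ⟨0x2002000900044004000e020410001410008000408008020d00100204008008820000041129000002040000084110200141400010204080104010100c4000,
    0xa3, 1, 0x3143657596a6, 6,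
    [(0xa3, 1), (0x208693a5, 4), (0x10548793, 4), (0x217693a4, 4), (0x208693a5, 4), (0x10548793, 4)],
    [(0x3143657596a6, 6), (0x207681a4, 4), (0x307195a6, 4), (0x768495a1, 4), (0x307195a6, 4), (0x326487a1, 4), (0x204195a8, 4), (0x768495a1, 4), (0x204195a8, 4), (0x306184a7, 4), (0x768495a1, 4), (0x326487a1, 4)]⟩

def c_1791 : frmChk tA tB F_1791 = true := by decide +kernel

def r_1791_0 : chkL rootF engF2 tA tB sA_284 sB_284 4 F_1791 [(511, 0, 0)]
    0x1986700cce416b120cc47 = true := by
  decide +kernel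

theorem f_1791 (h : TabsF) : FrameF repsF 284 F_1791.f :=
  frame_of rfl c_1791 (runs_of engOK r_1791_0) (by decide +kernel) h.1 h.2

def F_1792 : FrX :=
  ⟨0x1001040012008080000e008408004100081010000421000040414001010000400860400a00002080001828084a0000420140200102020844008000202008,
    0xa3, 1, 0x21325161768490a3, 8,
    [(0xa3, 1), (0x207584a6, 4), (0x10547693, 4), (0x647593a8, 4), (0x10547693, 4), (0x216485a7, 4), (0x208693a4, 4), (0x647593a8, 4), (0x208693a4, 4), (0x106574a8, 4), (0x647593a8, 4), (0x216485a7, 4)],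
    [(0x21325161768490a3, 8), (0x107493a2, 4), (0x10548296, 4), (0x106375a8, 4), (0x107493a2, 4), (0x10548296, 4)]⟩

def c_1792 : frmChk tB tA F_1792 = true := by decide +kernel

def r_1792_0 : chkL rootF engF2 tB tA sB_284 sA_284 4 F_1792 [(511, 0, 0)]
    0x43c0ac1b0781e238aa09c6305c1781f24c84e81540f49863 = true := by
  decide +kernel

theorem f_1792 (h : TabsF) : FrameF repsF 284 F_1792.f :=
  frame_of rfl c_1792 (runs_of engOK r_1792_0) (by decide +kernel) h.2 h.1

def F_1793 : FrX :=
  ⟨0x600020801080810000c0040180410101001004004040440000024042002020080822020000030008090008109800850484000100002804000008481001,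
    0xa0, 1, 0x103063708092a5, 7,
    [(0xa0, 1), (0x637584a2, 4), (0x547690a1, 4), (0x64758390, 4), (0x547690a1, 4), (0x21647385, 4), (0x438690a2, 4), (0x64758390, 4), (0x438690a2, 4), (0x657483a1, 4), (0x64758390, 4), (0x21647385, 4)],
    [(0x103063708092a5, 7), (0x527198a6, 4), (0x527380a4, 4), (0x31526490, 4), (0x527198a6, 4), (0x527380a4, 4)]⟩

def c_1793 : frmChk tB tA F_1793 = true := by decide +kernel

def r_1793_0 : chkL rootF engF2 tB tA sB_284 sA_284 4 F_1793 [(511, 0, 0)]
    0x41e05c2b075c20b8a3 = true := by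
  decide +kernel

theorem f_1793 (h : TabsF) : FrameF repsF 284 F_1793.f :=
  frame_of rfl c_1793 (runs_of engOK r_1793_0) (by decide +kernel) h.2 h.1

def F_1794 : FrX :=
  ⟨0x1001040012008080000e00840800410008101000064400040400102002000880406000122000040040021810800800802100086010804400500008040044,
    0xa3, 1, 0x2040617184a4, 6,
    [(0xa3, 1), (0x207584a6, 4), (0x10547693, 4), (0x647593a8, 4), (0x10547693, 4), (0x216485a7, 4), (0x208693a4, 4), (0x647593a8, 4), (0x208693a4, 4), (0x106574a8, 4), (0x647593a8, 4), (0x216485a7, 4)],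
    [(0x2040617184a4, 6), (0x314065a2, 4), (0x617498a5, 4), (0x326598a1, 4), (0x617498a5, 4), (0x526370a1, 4), (0x214098a3, 4), (0x326598a1, 4), (0x214098a3, 4), (0x325174a6, 4), (0x326598a1, 4), (0x526370a1, 4)]⟩

def c_1794 : frmChk tB tB F_1794 = true := by decide +kernel

def r_1794_0 : chkL rootF engF2 tB tB sB_284 sB_284 4 F_1794 [(511, 0, 0)]
    0x103c630cc3909c6c = true := by
  decide +kernel

theorem f_1794 (h : TabsF) : FrameF repsF 284 F_1794.f :=
  frame_of rfl c_1794 (runs_of engOK r_1794_0) (by decide +kernel) h.2 h.2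

def F_1795 : FrX :=
  ⟨0x1c2102000004044000002041000101000082040890080080002002100800021011004100804040208040808411104410100200080488010044020080080,
    0x0, 0, 0x43657386, 4,
    [(0x0, 0), (0x205386a9, 4), (0x105487a9, 4), (0x214376a9, 4), (0x205386a9, 4), (0x105487a9, 4)],
    [(0x43657386, 4), (0x207685a9, 4), (0x105463a9, 4), (0x217384a9, 4), (0x207685a9, 4), (0x105463a9, 4)]⟩

def c_1795 : frmChk tA tA F_1795 = true := by decide +kernel

def r_1795_0 : chkL rootF engF2 tA tA sA_284 sA_284 4 F_1795 [(255, 0, 0), (256, 0, 1)]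
    0x1 = true := by
  decide +kernel

def r_1795_1 : chkL rootF engF2 tA tA sA_284 sA_284 4 F_1795 [(256, 1, 2)]
    0x10ac1d = true := by
  decide +kernel

def r_1795_2 : chkL rootF engF2 tA tA sA_284 sA_284 4 F_1795 [(256, 3, 2)]
    0x474 = true := by
  decide +kernel

def r_1795_3 : chkL rootF engF2 tA tA sA_284 sA_284 4 F_1795 [(256, 5, 2)]
    0x1 = true := by
  decide +kernel

def r_1795_4 : chkL rootF engF2 tA tA sA_284 sA_284 4 F_1795 [(256, 7, 7)]
    0x11344d4b05a = true := by
  decide +kernel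

def r_1795_5 : chkL rootF engF2 tA tA sA_284 sA_284 4 F_1795 [(256, 14, 3)]
    0x103c392a435 = true := by
  decide +kernel

def r_1795_6 : chkL rootF engF2 tA tA sA_284 sA_284 4 F_1795 [(256, 17, 1)]
    0x4470f0471343c = true := by
  decide +kernel

def r_1795_7 : chkL rootF engF2 tA tA sA_284 sA_284 4 F_1795 [(256, 18, 13)]
    0x439 = true := by
  decide +kernel

def r_1795_8 : chkL rootF engF2 tA tA sA_284 sA_284 4 F_1795 [(256, 31, 2)]
    0x1 = true := by
  decide +kernel

def r_1795_9 : chkL rootF engF2 tA tA sA_284 sA_284 4 F_1795 [(256, 33, 2)]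
    0x10ac2b = true := by
  decide +kernel

def r_1795_10 : chkL rootF engF2 tA tA sA_284 sA_284 4 F_1795 [(256, 35, 0)]
    0x1 = true := by
  decide +kernel

theorem f_1795 (h : TabsF) : FrameF repsF 284 F_1795.f :=
  frame_of rfl c_1795 ((runs_of engOK r_1795_0).append ((runs_of engOK r_1795_1).append ((runs_of engOK r_1795_2).append ((runs_of engOK r_1795_3).append ((runs_of engOK r_1795_4).append ((runs_of engOK r_1795_5).append ((runs_of engOK r_1795_6).append ((runs_of engOK r_1795_7).append ((runs_of engOK r_1795_8).append ((runs_of engOK r_1795_9).append (runs_of engOK r_1795_10))))))))))) (by decide +kernel) h.1 h.1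

def F_1796 : FrX :=
  ⟨0x80080a000804040e00002101002001000002040890010008082010020822001010100400804041008048000411104410021000080400090044200820080,
    0xa6, 1, 0x10204251768098a6, 8,
    [(0xa6, 1), (0x205396a8, 4), (0x10548796, 4), (0x214396a7, 4), (0x205396a8, 4), (0x10548796, 4)],
    [(0x10204251768098a6, 8), (0x608491a3, 4), (0x107285a6, 4), (0x607293a1, 4), (0x107285a6, 4), (0x546390a1, 4), (0x317284a9, 4), (0x607293a1, 4), (0x317284a9, 4), (0x618593a0, 4), (0x607293a1, 4), (0x546390a1, 4)]⟩

def c_1796 : frmChk tA tB F_1796 = true := by decide +kernel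

def r_1796_0 : chkL rootF engF2 tA tB sA_284 sB_284 4 F_1796 [(511, 0, 0)]
    0x44b0748b3484d03c0f09c2722c4e7401d03c0f0741d = true := by
  decide +kernel

theorem f_1796 (h : TabsF) : FrameF repsF 284 F_1796.f :=
  frame_of rfl c_1796 (runs_of engOK r_1796_0) (by decide +kernel) h.1 h.2

def F_1797 : FrX :=
  ⟨0x2002000900044004000e0204100014100080004080080104102000140000c081200100104081001010040006001000108100202040441020001040140288,
    0xa3, 1, 0x315261708298a7, 7,
    [(0xa3, 1), (0x208693a5, 4), (0x10548793, 4), (0x217693a4, 4), (0x208693a5, 4), (0x10548793, 4)],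
    [(0x315261708298a7, 7), (0x318794a2, 4), (0x425076a3, 4), (0x435091a2, 4), (0x425076a3, 4), (0x438692a1, 4), (0x41508793, 4), (0x435091a2, 4), (0x41508793, 4), (0x327691a4, 4), (0x435091a2, 4), (0x438692a1, 4)]⟩

def c_1797 : frmChk tA tB F_1797 = true := by decide +kernel

def r_1797_0 : chkL rootF engF2 tA tB sA_284 sB_284 4 F_1797 [(511, 0, 0)]
    0x1294472340f03d2303c0f03c0f0d41b4384d = true := by
  decide +kernel

theorem f_1797 (h : TabsF) : FrameF repsF 284 F_1797.f :=
  frame_of rfl c_1797 (runs_of engOK r_1797_0) (by decide +kernel) h.1 h.2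

theorem cl_284 (h : TabsF) : ∀ f ∈ fr_284, FrameF repsF 284 f :=
  List.forall_mem_cons.2 ⟨f_1770 h, List.forall_mem_cons.2 ⟨f_1771 h, List.forall_mem_cons.2 ⟨f_1772 h, List.forall_mem_cons.2 ⟨f_1773 h, List.forall_mem_cons.2 ⟨f_1774 h, List.forall_mem_cons.2 ⟨f_1775 h, List.forall_mem_cons.2 ⟨f_1776 h, List.forall_mem_cons.2 ⟨f_1777 h, List.forall_mem_cons.2 ⟨f_1778 h, List.forall_mem_cons.2 ⟨f_1779 h, List.forall_mem_cons.2 ⟨f_1780 h, List.forall_mem_cons.2 ⟨f_1781 h, List.forall_mem_cons.2 ⟨f_1782 h, List.forall_mem_cons.2 ⟨f_1783 h, List.forall_mem_cons.2 ⟨f_1784 h, List.forall_mem_cons.2 ⟨f_1785 h, List.forall_mem_cons.2 ⟨f_1786 h, List.forall_mem_cons.2 ⟨f_1787 h, List.forall_mem_cons.2 ⟨f_1788 h, List.forall_mem_cons.2 ⟨f_1789 h, List.forall_mem_cons.2 ⟨f_1790 h, List.forall_mem_cons.2 ⟨f_1791 h, List.forall_mem_cons.2 ⟨f_1792 h, List.forall_mem_cons.2 ⟨f_1793 h, List.forall_mem_cons.2 ⟨f_1794 h, List.forall_mem_cons.2 ⟨f_1795 h, List.forall_mem_cons.2 ⟨f_1796 h, List.forall_mem_cons.2 ⟨f_1797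 h,
    fun _ h0 => absurd h0 List.not_mem_nil⟩⟩⟩⟩⟩⟩⟩⟩⟩⟩⟩⟩⟩⟩⟩⟩⟩⟩⟩⟩⟩⟩⟩⟩⟩⟩⟩⟩

def F_1798 : FrX :=
  ⟨0x2002000900044004000e0204100014100080004080080101400802400104088200000410088800022400010080004810010000002e020140101040210440,
    0xa3, 1, 0x3252618297a4, 6,
    [(0xa3, 1), (0x208693a5, 4), (0x10548793, 4), (0x217693a4, 4), (0x208693a5, 4), (0x10548793, 4)],
    [(0x3252618297a4, 6), (0x218093a5, 4), (0x607491a3, 4), (0x527493a1, 4), (0x607491a3, 4), (0x538692a1, 4), (0x517480a2, 4), (0x527493a1, 4), (0x517480a2, 4), (0x315260a9, 4), (0x527493a1, 4), (0x538692a1, 4)]⟩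

def c_1798 : frmChk tA tB F_1798 = true := by decide +kernel

def r_1798_0 : chkL rootF engF2 tA tB sA_285 sB_285 4 F_1798 [(511, 0, 0)]
    0x10d84e = true := by
  decide +kernel

theorem f_1798 (h : TabsF) : FrameF repsF 285 F_1798.f :=
  frame_of rfl c_1798 (runs_of engOK r_1798_0) (by decide +kernel) h.1 h.2

def F_1799 : FrX :=
  ⟨0x80080a000804040e00002101002001000002040881011001020010020042004004064000c000410200000008880408048a8090004000900240080220100,
    0xa6, 1, 0x20506095a6, 5,
    [(0xa6, 1), (0x205396a8, 4), (0x10548796, 4), (0x214396a7, 4), (0x205396a8, 4), (0x10548796, 4)],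
    [(0x20506095a6, 5), (0x608497a3, 4), (0x526194a7, 4), (0x528397a4, 4), (0x526194a7, 4), (0x107398a4, 4), (0x435260a8, 4), (0x528397a4, 4), (0x435260a8, 4), (0x617483a9, 4), (0x528397a4, 4), (0x107398a4, 4)]⟩

def c_1799 : frmChk tA tB F_1799 = true := by decide +kernel

def r_1799_0 : chkL rootF engF2 tA tB sA_285 sB_285 4 F_1799 [(511, 0, 0)]
    0x1138471385c138471385c9840f11c5c5498903d0b469164396478072585611997017123684a942d1a50d4c4586a545520e42b1384e = true := by
  decide +kernel

theorem f_1799 (h : TabsF) : FrameF repsF 285 F_1799.f :=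
  frame_of rfl c_1799 (runs_of engOK r_1799_0) (by decide +kernel) h.1 h.2

def F_1800 : FrX :=
  ⟨0x482000044040440000c20400200090001820400200020801000401800802440200140000810402208000208080011400820100005080000050a0408082,
    0xa0, 1, 0x1042637196a0, 6,
    [(0xa0, 1), (0x538690a2, 4), (0x548790a1, 4), (0x21437690, 4), (0x538690a2, 4), (0x548790a1, 4)],
    [(0x1042637196a0, 6), (0x316598a4, 4), (0x315280a7, 4), (0x31627490, 4), (0x316598a4, 4), (0x315280a7, 4)]⟩

def c_1800 : frmChk tA tA F_1800 = true := by decide +kernel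

def r_1800_0 : chkL rootF engF2 tA tA sA_285 sA_285 4 F_1800 [(511, 0, 0)]
    0x114c5a0740f1c91c = true := by
  decide +kernel

theorem f_1800 (h : TabsF) : FrameF repsF 285 F_1800.f :=
  frame_of rfl c_1800 (runs_of engOK r_1800_0) (by decide +kernel) h.1 h.1

def F_1801 : FrX :=
  ⟨0x80080a000804040e0000210100200100000204088101100102001002000c044004101000c0004102000000088804014000110200c308080044002820400,
    0xa6, 1, 0x21405265708794a0, 8,
    [(0xa6, 1), (0x205396a8, 4), (0x10548796, 4), (0x214396a7, 4), (0x205396a8, 4), (0x10548796, 4)],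
    [(0x21405265708794a0, 8), (0x416370a5, 4), (0x708496a2, 4), (0x52708193, 4), (0x416370a5, 4), (0x708496a2, 4)]⟩

def c_1801 : frmChk tA tA F_1801 = true := by decide +kernel

def r_1801_0 : chkL rootF engF2 tA tA sA_285 sA_285 4 F_1801 [(511, 0, 0)]
    0x10741d8541b = true := by
  decide +kernel

theorem f_1801 (h : TabsF) : FrameF repsF 285 F_1801.f :=
  frame_of rfl c_1801 (runs_of engOK r_1801_0) (by decide +kernel) h.1 h.1

def F_1802 : FrX :=
  ⟨0x482000044040440000c2040020009000182040000820482008020080010104800400060015800010800420000200400282101008200900900002000884,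
    0xa0, 1, 0x102041607582a8, 7,
    [(0xa0, 1), (0x538690a2, 4), (0x548790a1, 4), (0x21437690, 4), (0x538690a2, 4), (0x548790a1, 4)],
    [(0x102041607582a8, 7), (0x738691a2, 4), (0x647091a5, 4), (0x30528491, 4), (0x738691a2, 4), (0x647091a5, 4)]⟩

def c_1802 : frmChk tA tA F_1802 = true := by decide +kernel

def r_1802_0 : chkL rootF engF2 tA tA sA_285 sA_285 4 F_1802 [(511, 0, 0)]
    0x11a9a1e800f9c0174646619b0a0cc1d0cd073301e = true := by
  decide +kernel

theorem f_1802 (h : TabsF) : FrameF repsF 285 F_1802.f :=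
  frame_of rfl c_1802 (runs_of engOK r_1802_0) (by decide +kernel) h.1 h.1

def F_1803 : FrX :=
  ⟨0x1c21020000040440000020410001010000820408880810000010204004001020006040600000300100580480284004080480080018300a0004000600040,
    0x0, 0, 0x4376, 2,
    [(0x0, 0), (0x205386a9, 4), (0x105487a9, 4), (0x214376a9, 4), (0x205386a9, 4), (0x105487a9, 4)],
    [(0x4376, 2), (0x20657483, 4), (0x105376a9, 4), (0x657384a9, 4), (0x105376a9, 4), (0x21647385, 4), (0x204387a9, 4), (0x657384a9, 4), (0x204387a9, 4), (0x10637584, 4), (0x657384a9, 4), (0x21647385, 4)]⟩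

def c_1803 : frmChk tA tB F_1803 = true := by decide +kernel

def r_1803_0 : chkL rootF engF2 tA tB sA_285 sB_285 4 F_1803 [(511, 0, 0)]
    0x4c906c1b14c5309ca51a40f12c4b14c0f05c8d12c2712c63 = true := by
  decide +kernel

theorem f_1803 (h : TabsF) : FrameF repsF 285 F_1803.f :=
  frame_of rfl c_1803 (runs_of engOK r_1803_0) (by decide +kernel) h.1 h.2

def F_1804 : FrX :=
  ⟨0x2002000900044004000e02041000141000800040800801014002028802000a0020004010088800022400010080004880090001100500800020204c011010,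
    0xa3, 1, 0x214250748193a1, 7,
    [(0xa3, 1), (0x208693a5, 4), (0x10548793, 4), (0x217693a4, 4), (0x208693a5, 4), (0x10548793, 4)],
    [(0x214250748193a1, 7), (0x10547296, 4), (0x617083a5, 4), (0x10768392, 4), (0x617083a5, 4), (0x207691a4, 4), (0x54628397, 4), (0x10768392, 4), (0x54628397, 4), (0x607192a5, 4), (0x10768392, 4), (0x207691a4, 4)]⟩

def c_1804 : frmChk tA tB F_1804 = true := by decide +kernel

def r_1804_0 : chkL rootF engF2 tA tB sA_285 sB_285 4 F_1804 [(511, 0, 0)]
    0x4170f02b = true := by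
  decide +kernel

theorem f_1804 (h : TabsF) : FrameF repsF 285 F_1804.f :=
  frame_of rfl c_1804 (runs_of engOK r_1804_0) (by decide +kernel) h.1 h.2

def F_1805 : FrX :=
  ⟨0x600020801080810000c0040180410101001004000a00100800101400024022008000482200020008208030043001410040021000600800014001080280,
    0xa0, 1, 0x102131427094a7, 7,
    [(0xa0, 1), (0x637584a2, 4), (0x547690a1, 4), (0x64758390, 4), (0x547690a1, 4), (0x21647385, 4), (0x438690a2, 4), (0x64758390, 4), (0x438690a2, 4), (0x657483a1, 4), (0x64758390, 4), (0x21647385, 4)],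
    [(0x102131427094a7, 7), (0x627498a5, 4), (0x107395a6, 4), (0x108296a5, 4), (0x107395a6, 4), (0x438596a2, 4), (0x10748692, 4), (0x108296a5, 4), (0x10748692, 4), (0x657382a9, 4), (0x108296a5, 4), (0x438596a2, 4)]⟩

def c_1805 : frmChk tB tB F_1805 = true := by decide +kernel

def r_1805_0 : chkL rootF engF2 tB tB sB_285 sB_285 4 F_1805 [(511, 0, 0)]
    0x40f43994259160e83634986 = true := by
  decide +kernel

theorem f_1805 (h : TabsF) : FrameF repsF 285 F_1805.f :=
  frame_of rfl c_1805 (runs_of engOK r_1805_0) (by decide +kernel) h.2 h.2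

def F_1806 : FrX :=
  ⟨0x1001040012008080000e0084080041000810100006000008404020202018008404000210009800424004180004040821001000000a200008101002222080,
    0xa3, 1, 0x4053638194a5, 6,
    [(0xa3, 1), (0x207584a6, 4), (0x10547693, 4), (0x647593a8, 4), (0x10547693, 4), (0x216485a7, 4), (0x208693a4, 4), (0x647593a8, 4), (0x208693a4, 4), (0x106574a8, 4), (0x647593a8, 4), (0x216485a7, 4)],
    [(0x4053638194a5, 6), (0x304251a6, 4), (0x307184a9, 4), (0x30758296, 4), (0x304251a6, 4), (0x307184a9, 4)]⟩

def c_1806 : frmChk tB tA F_1806 = true := by decide +kernel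

def r_1806_0 : chkL rootF engF2 tB tA sB_285 sA_285 4 F_1806 [(511, 0, 0)]
    0x103ce10cc3503c1705d3805c36 = true := by
  decide +kernel

theorem f_1806 (h : TabsF) : FrameF repsF 285 F_1806.f :=
  frame_of rfl c_1806 (runs_of engOK r_1806_0) (by decide +kernel) h.2 h.1

def F_1807 : FrX :=
  ⟨0x600020801080810000c00401804101010010040010405000004008041210000800108a0000140008084100103200410404204400200800108500008080,
    0xa0, 1, 0x10325163708097a5, 8,
    [(0xa0, 1), (0x637584a2, 4), (0x547690a1, 4), (0x64758390, 4), (0x547690a1, 4), (0x21647385, 4), (0x438690a2, 4), (0x64758390, 4), (0x438690a2, 4), (0x657483a1, 4), (0x64758390, 4), (0x21647385, 4)],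
    [(0x10325163708097a5, 8), (0x107283a6, 4), (0x108597a4, 4), (0x10536492, 4), (0x107283a6, 4), (0x108597a4, 4)]⟩

def c_1807 : frmChk tB tA F_1807 = true := by decide +kernel

def r_1807_0 : chkL rootF engF2 tB tA sB_285 sA_285 4 F_1807 [(511, 0, 0)]
    0x4171a46903c0f15453 = true := by
  decide +kernel

theorem f_1807 (h : TabsF) : FrameF repsF 285 F_1807.f :=
  frame_of rfl c_1807 (runs_of engOK r_1807_0) (by decide +kernel) h.2 h.1

def F_1808 : FrX :=
  ⟨0x1001040012008080000e00840800410008101000042020021010200004102084042000108020010844030010021020202000808808004008002003020104,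
    0xa3, 1, 0x40738792a3, 5,
    [(0xa3, 1), (0x207584a6, 4), (0x10547693, 4), (0x647593a8, 4), (0x10547693, 4), (0x216485a7, 4), (0x208693a4, 4), (0x647593a8, 4), (0x208693a4, 4), (0x106574a8, 4), (0x647593a8, 4), (0x216485a7, 4)],
    [(0x40738792a3, 5), (0x637294a5, 4), (0x41507283, 4), (0x728691a0, 4), (0x637294a5, 4), (0x41507283, 4)]⟩

def c_1808 : frmChk tB tA F_1808 = true := by decide +kernel

def r_1808_0 : chkL rootF engF2 tB tA sB_285 sA_285 4 F_1808 [(511, 0, 0)]
    0x41d4981e0b52c8368909c8b05c17 = true := by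
  decide +kernel

theorem f_1808 (h : TabsF) : FrameF repsF 285 F_1808.f :=
  frame_of rfl c_1808 (runs_of engOK r_1808_0) (by decide +kernel) h.2 h.1

def F_1809 : FrX :=
  ⟨0x1001040012008080000e00840800410008101000042100004060222000000884042000104408110200040808820000210000804008a00401101002200104,
    0xa3, 1, 0x324263718797a3, 7,
    [(0xa3, 1), (0x207584a6, 4), (0x10547693, 4), (0x647593a8, 4), (0x10547693, 4), (0x216485a7, 4), (0x208693a4, 4), (0x647593a8, 4), (0x208693a4, 4), (0x106574a8, 4), (0x647593a8, 4), (0x216485a7, 4)],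
    [(0x324263718797a3, 7), (0x314095a2, 4), (0x53708692, 4), (0x328695a1, 4), (0x53708692, 4), (0x325174a9, 4), (0x214086a3, 4), (0x328695a1, 4), (0x214086a3, 4), (0x527093a1, 4), (0x328695a1, 4), (0x325174a9, 4)]⟩

def c_1809 : frmChk tB tB F_1809 = true := by decide +kernel

def r_1809_0 : chkL rootF engF2 tB tB sB_285 sB_285 4 F_1809 [(511, 0, 0)]
    0x507 = true := by
  decide +kernel

theorem f_1809 (h : TabsF) : FrameF repsF 285 F_1809.f :=
  frame_of rfl c_1809 (runs_of engOK r_1809_0) (by decide +kernel) h.2 h.2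

def F_1810 : FrX :=
  ⟨0x1001040012008080000e00840800410008101000040440100101208000820802008008084020208240044800010820020000804400a2000004c000212080,
    0xa3, 1, 0x315360728691a2, 7,
    [(0xa3, 1), (0x207584a6, 4), (0x10547693, 4), (0x647593a8, 4), (0x10547693, 4), (0x216485a7, 4), (0x208693a4, 4), (0x647593a8, 4), (0x208693a4, 4), (0x106574a8, 4), (0x647593a8, 4), (0x216485a7, 4)],
    [(0x315360728691a2, 7), (0x214085a6, 4), (0x41738296, 4), (0x21507384, 4), (0x41738296, 4), (0x105284a9, 4), (0x547380a6, 4), (0x21507384, 4), (0x547380a6, 4), (0x42508196, 4), (0x21507384, 4), (0x105284a9, 4)]⟩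

def c_1810 : frmChk tB tB F_1810 = true := by decide +kernel

def r_1810_0 : chkL rootF engF2 tB tB sB_285 sB_285 4 F_1810 [(511, 0, 0)]
    0x41b0741d05ea20ac53 = true := by
  decide +kernel

theorem f_1810 (h : TabsF) : FrameF repsF 285 F_1810.f :=
  frame_of rfl c_1810 (runs_of engOK r_1810_0) (by decide +kernel) h.2 h.2

def F_1811 : FrX :=
  ⟨0x600020801080810000c004018041010100100401000804220000280a00220008440000401101022000410010800121008400000081000c000900061022,
    0xa0, 1, 0x314253728490a0, 7,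
    [(0xa0, 1), (0x637584a2, 4), (0x547690a1, 4), (0x64758390, 4), (0x547690a1, 4), (0x21647385, 4), (0x438690a2, 4), (0x64758390, 4), (0x438690a2, 4), (0x657483a1, 4), (0x64758390, 4), (0x21647385, 4)],
    [(0x314253728490a0, 7), (0x516290a7, 4), (0x428190a3, 4), (0x64738590, 4), (0x516290a7, 4), (0x428190a3, 4)]⟩

def c_1811 : frmChk tB tA F_1811 = true := by decide +kernel

def r_1811_0 : chkL rootF engF2 tB tA sB_285 sA_285 4 F_1811 [(511, 0, 0)]
    0x10b80f0740f = true := by
  decide +kernel

theorem f_1811 (h : TabsF) : FrameF repsF 285 F_1811.f :=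
  frame_of rfl c_1811 (runs_of engOK r_1811_0) (by decide +kernel) h.2 h.1

def F_1812 : FrX :=
  ⟨0x1001040012008080000e00840800410008101000042080020081400100120000812008082020202004020280601008800004001501004001014104010004,
    0xa3, 1, 0x1031435061748398a6, 9,
    [(0xa3, 1), (0x207584a6, 4), (0x10547693, 4), (0x647593a8, 4), (0x10547693, 4), (0x216485a7, 4), (0x208693a4, 4), (0x647593a8, 4), (0x208693a4, 4), (0x106574a8, 4), (0x647593a8, 4), (0x216485a7, 4)],
    [(0x1031435061748398a6, 9), (0x435281a9, 4), (0x43657190, 4), (0x436287a0, 4), (0x435281a9, 4), (0x43657190, 4)]⟩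

def c_1812 : frmChk tB tA F_1812 = true := by decide +kernel

def r_1812_0 : chkL rootF engF2 tB tA sB_285 sA_285 4 F_1812 [(511, 0, 0)]
    0x42e0cc1706d0b42c6a0781705c56470530cc1e0b4270cd0b0cc1726433438270ac3305c1e = true := by
  decide +kernel

theorem f_1812 (h : TabsF) : FrameF repsF 285 F_1812.f :=
  frame_of rfl c_1812 (runs_of engOK r_1812_0) (by decide +kernel) h.2 h.1

def F_1813 : FrX :=
  ⟨0x600020801080810000c0040180410101001004002010844000400208180400040012020000110008410006800080240204205000104000014009100082,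
    0xa0, 1, 0x21314052617485a3, 8,
    [(0xa0, 1), (0x637584a2, 4), (0x547690a1, 4), (0x64758390, 4), (0x547690a1, 4), (0x21647385, 4), (0x438690a2, 4), (0x64758390, 4), (0x438690a2, 4), (0x657483a1, 4), (0x64758390, 4), (0x21647385, 4)],
    [(0x21314052617485a3, 8), (0x315492a8, 4), (0x10648792, 4), (0x306592a7, 4), (0x315492a8, 4), (0x10648792, 4)]⟩

def c_1813 : frmChk tB tA F_1813 = true := by decide +kernel

def r_1813_0 : chkL rootF engF2 tB tA sB_285 sA_285 4 F_1813 [(511, 0, 0)]
    0x103c2b09c3603c0f6306a09c0f03c2b = true := by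
  decide +kernel

theorem f_1813 (h : TabsF) : FrameF repsF 285 F_1813.f :=
  frame_of rfl c_1813 (runs_of engOK r_1813_0) (by decide +kernel) h.2 h.1

def F_1814 : FrX :=
  ⟨0x1001040012008080000e008408004100081010000420101000880220020000a0440202020280004008408004048400202080004011004440010104840040,
    0xa3, 1, 0x102092a7, 4,
    [(0xa3, 1), (0x207584a6, 4), (0x10547693, 4), (0x647593a8, 4), (0x10547693, 4), (0x216485a7, 4), (0x208693a4, 4), (0x647593a8, 4), (0x208693a4, 4), (0x106574a8, 4), (0x647593a8, 4), (0x216485a7, 4)],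
    [(0x102092a7, 4), (0x638492a5, 4), (0x205471a6, 4), (0x647183a5, 4), (0x205471a6, 4), (0x648590a3, 4), (0x43718692, 4), (0x647183a5, 4), (0x43718692, 4), (0x206583a4, 4), (0x647183a5, 4), (0x648590a3, 4)]⟩

def c_1814 : frmChk tB tB F_1814 = true := by decide +kernel

def r_1814_0 : chkL rootF engF2 tB tB sB_285 sB_285 4 F_1814 [(511, 0, 0)]
    0x41e06c1b03c0f05c1705c2e0b81b06c1b05c712941705c1b06c1b = true := by
  decide +kernel

theorem f_1814 (h : TabsF) : FrameF repsF 285 F_1814.f :=
  frame_of rfl c_1814 (runs_of engOK r_1814_0) (by decide +kernel) h.2 h.2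

def F_1815 : FrX :=
  ⟨0x1001040012008080000e008408004100081010000409000042011021010000440060002024082042001008084400088000042002020200040a8100040048,
    0xa3, 1, 0x31405162708292a3, 8,
    [(0xa3, 1), (0x207584a6, 4), (0x10547693, 4), (0x647593a8, 4), (0x10547693, 4), (0x216485a7, 4), (0x208693a4, 4), (0x647593a8, 4), (0x208693a4, 4), (0x106574a8, 4), (0x647593a8, 4), (0x216485a7, 4)],
    [(0x31405162708292a3, 8), (0x436097a2, 4), (0x30427581, 4), (0x204381a6, 4), (0x30427581, 4), (0x206395a4, 4), (0x628197a0, 4), (0x204381a6, 4), (0x628197a0, 4), (0x324075a6, 4), (0x204381a6, 4), (0x206395a4, 4)]⟩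

def c_1815 : frmChk tB tB F_1815 = true := by decide +kernel

def r_1815_0 : chkL rootF engF2 tB tB sB_285 sB_285 4 F_1815 [(511, 0, 0)]
    0x10e44d1a43c0e4532348b2382703c3548f22 = true := by
  decide +kernel

theorem f_1815 (h : TabsF) : FrameF repsF 285 F_1815.f :=
  frame_of rfl c_1815 (runs_of engOK r_1815_0) (by decide +kernel) h.2 h.2

def F_1816 : FrX :=
  ⟨0x80080a000804040e00002101002001000002040881200008044400100080080620120008028200010041801002204200320000051002801100040008200,
    0xa6, 1, 0x3040758396a0, 6,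
    [(0xa6, 1), (0x205396a8, 4), (0x10548796, 4), (0x214396a7, 4), (0x205396a8, 4), (0x10548796, 4)],
    [(0x3040758396a0, 6), (0x648790a2, 4), (0x506473a1, 4), (0x21648395, 4), (0x648790a2, 4), (0x506473a1, 4)]⟩

def c_1816 : frmChk tA tA F_1816 = true := by decide +kernel

def r_1816_0 : chkL rootF engF2 tA tA sA_285 sA_285 4 F_1816 [(511, 0, 0)]
    0x40f03c2d0bb48870950e45c0742d07711d408b1384e = true := by
  decide +kernel

theorem f_1816 (h : TabsF) : FrameF repsF 285 F_1816.f :=
  frame_of rfl c_1816 (runs_of engOK r_1816_0) (by decide +kernel) h.1 h.1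

def F_1817 : FrX :=
  ⟨0x2002000900044004000e02041000141000800040810002410808002008120208000003004004300112000082000060000204220002010208002104884040,
    0xa3, 1, 0x324253748096a6, 7,
    [(0xa3, 1), (0x208693a5, 4), (0x10548793, 4), (0x217693a4, 4), (0x208693a5, 4), (0x10548793, 4)],
    [(0x324253748096a6, 7), (0x528496a0, 4), (0x30728196, 4), (0x417596a3, 4), (0x528496a0, 4), (0x30728196, 4)]⟩

def c_1817 : frmChk tA tA F_1817 = true := by decide +kernel

def r_1817_0 : chkL rootF engF2 tA tA sA_285 sA_285 4 F_1817 [(511, 0, 0)]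
    0x10e84d03e4590c391345646919c622a22c4d05c710cc3a = true := by
  decide +kernel

theorem f_1817 (h : TabsF) : FrameF repsF 285 F_1817.f :=
  frame_of rfl c_1817 (runs_of engOK r_1817_0) (by decide +kernel) h.1 h.1

def F_1818 : FrX :=
  ⟨0x80080a000804040e00002101002001000002040890040004050000808100884040880000808010280408200122010002020a10004018004202080008010,
    0xa6, 1, 0x213242618597a0, 7,
    [(0xa6, 1), (0x205396a8, 4), (0x10548796, 4), (0x214396a7, 4), (0x205396a8, 4), (0x10548796, 4)],
    [(0x213242618597a0, 7), (0x215398a4, 4), (0x708392a6, 4), (0x32517098, 4), (0x708392a6, 4), (0x32648591, 4), (0x315270a4, 4), (0x32517098, 4), (0x315270a4, 4), (0x518293a6, 4), (0x32517098, 4), (0x32648591, 4)]⟩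

def c_1818 : frmChk tA tB F_1818 = true := by decide +kernel

def r_1818_0 : chkL rootF engF2 tA tB sA_285 sB_285 4 F_1818 [(511, 0, 0)]
    0x1154c3348331705306c1b170e10b4b4e085c07455154560b4d158551c0d26c882d = true := by
  decide +kernel

theorem f_1818 (h : TabsF) : FrameF repsF 285 F_1818.f :=
  frame_of rfl c_1818 (runs_of engOK r_1818_0) (by decide +kernel) h.1 h.2

def F_1819 : FrX :=
  ⟨0x482000044040440000c204002000900018204000202400200108010000c012020200040c00010280000809500110400000448280080400214010200004,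
    0xa0, 1, 0x103142546191a4, 7,
    [(0xa0, 1), (0x538690a2, 4), (0x548790a1, 4), (0x21437690, 4), (0x538690a2, 4), (0x548790a1, 4)],
    [(0x103142546191a4, 7), (0x304172a8, 4), (0x657391a2, 4), (0x657280a3, 4), (0x657391a2, 4), (0x708294a3, 4), (0x416583a0, 4), (0x657280a3, 4), (0x416583a0, 4), (0x328091a7, 4), (0x657280a3, 4), (0x708294a3, 4)]⟩

def c_1819 : frmChk tA tB F_1819 = true := by decide +kernel

def r_1819_0 : chkL rootF engF2 tA tB sA_285 sB_285 4 F_1819 [(511, 0, 0)]
    0x103c6a09c270781e0742bb22c10ac270ac361c40f09c47298473141e = true := by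
  decide +kernel

theorem f_1819 (h : TabsF) : FrameF repsF 285 F_1819.f :=
  frame_of rfl c_1819 (runs_of engOK r_1819_0) (by decide +kernel) h.1 h.2

def F_1820 : FrX :=
  ⟨0x80080a000804040e000021010020010000020408a00040422000284004140000404000511000150000400005080080081600000410000a1004044600200,
    0xa6, 1, 0x104350617586a0, 7,
    [(0xa6, 1), (0x205396a8, 4), (0x10548796, 4), (0x214396a7, 4), (0x205396a8, 4), (0x10548796, 4)],
    [(0x104350617586a0, 7), (0x748095a2, 4), (0x107395a6, 4), (0x43628195, 4), (0x748095a2, 4), (0x107395a6, 4)]⟩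

def c_1820 : frmChk tA tA F_1820 = true := by decide +kernel

def r_1820_0 : chkL rootF engF2 tA tA sA_285 sA_285 4 F_1820 [(511, 0, 0)]
    0x42714d4c05c0f03c7103c0f03f4207b0c05c17c481e05c278681705c0f0d47105c1750f4222c1705c17 = true := by
  decide +kernel

theorem f_1820 (h : TabsF) : FrameF repsF 285 F_1820.f :=
  frame_of rfl c_1820 (runs_of engOK r_1820_0) (by decide +kernel) h.1 h.1

def F_1821 : FrX :=
  ⟨0x2002000900044004000e020410001410008000408080010011010204010084020000a4000a06800242000008810008800080800007080002040880214000,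
    0xa3, 1, 0x31708598a7, 5,
    [(0xa3, 1), (0x208693a5, 4), (0x10548793, 4), (0x217693a4, 4), (0x208693a5, 4), (0x10548793, 4)],
    [(0x31708598a7, 5), (0x617294a8, 4), (0x507384a6, 4), (0x506491a8, 4), (0x507384a6, 4), (0x326498a1, 4), (0x41507296, 4), (0x506491a8, 4), (0x41507296, 4), (0x738691a4, 4), (0x506491a8, 4), (0x326498a1, 4)]⟩

def c_1821 : frmChk tA tB F_1821 = true := by decide +kernel

def r_1821_0 : chkL rootF engF2 tA tB sA_285 sB_285 4 F_1821 [(511, 0, 0)]
    0x10e4271642d = true := by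
  decide +kernel

theorem f_1821 (h : TabsF) : FrameF repsF 285 F_1821.f :=
  frame_of rfl c_1821 (runs_of engOK r_1821_0) (by decide +kernel) h.1 h.2

def F_1822 : FrX :=
  ⟨0x482000044040440000c2040020009000182040004020480004020010010804800400520002181408080021004000800284000240020804050100008050,
    0xa0, 1, 0x305264708793a6, 7,
    [(0xa0, 1), (0x538690a2, 4), (0x548790a1, 4), (0x21437690, 4), (0x538690a2, 4), (0x548790a1, 4)],
    [(0x305264708793a6, 7), (0x637582a9, 4), (0x406271a8, 4), (0x408293a6, 4), (0x406271a8, 4), (0x325198a6, 4), (0x407596a3, 4), (0x408293a6, 4), (0x407596a3, 4), (0x718693a2, 4), (0x408293a6, 4), (0x325198a6, 4)]⟩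

def c_1822 : frmChk tA tB F_1822 = true := by decide +kernel

def r_1822_0 : chkL rootF engF2 tA tB sA_285 sB_285 4 F_1822 [(511, 0, 0)]
    0x10e42da0ec11681b06c0f = true := by
  decide +kernel

theorem f_1822 (h : TabsF) : FrameF repsF 285 F_1822.f :=
  frame_of rfl c_1822 (runs_of engOK r_1822_0) (by decide +kernel) h.1 h.2

def F_1823 : FrX :=
  ⟨0x2002000900044004000e020410001410008000408020002240044002090080800402020200040064040282004000401080042200020008200021040c0050,
    0xa3, 1, 0x32435165708191a2, 8,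
    [(0xa3, 1), (0x208693a5, 4), (0x10548793, 4), (0x217693a4, 4), (0x208693a5, 4), (0x10548793, 4)],
    [(0x32435165708191a2, 8), (0x415260a7, 4), (0x10628397, 4), (0x21546083, 4), (0x10628397, 4), (0x214065a9, 4), (0x425183a7, 4), (0x21546083, 4), (0x425183a7, 4), (0x20546197, 4), (0x21546083, 4), (0x214065a9, 4)]⟩

def c_1823 : frmChk tA tB F_1823 = true := by decide +kernel

def r_1823_0 : chkL rootF engF2 tA tB sA_285 sB_285 4 F_1823 [(511, 0, 0)]
    0x103c0f03c3903c4b03c0f0b80f = true := by
  decide +kernel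

theorem f_1823 (h : TabsF) : FrameF repsF 285 F_1823.f :=
  frame_of rfl c_1823 (runs_of engOK r_1823_0) (by decide +kernel) h.1 h.2

def F_1824 : FrX :=
  ⟨0x482000044040440000c2040020009000182040010080080104000208010044804400120202180008080031004000800280080282028804040100000042,
    0xa0, 1, 0x3142708297a4, 6,
    [(0xa0, 1), (0x538690a2, 4), (0x548790a1, 4), (0x21437690, 4), (0x538690a2, 4), (0x548790a1, 4)],
    [(0x3142708297a4, 6), (0x618795a4, 4), (0x207396a5, 4), (0x204195a6, 4), (0x207396a5, 4), (0x548391a6, 4), (0x206487a1, 4), (0x204195a6, 4), (0x206487a1, 4), (0x416573a9, 4), (0x204195a6, 4), (0x548391a6, 4)]⟩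

def c_1824 : frmChk tA tB F_1824 = true := by decide +kernel

def r_1824_0 : chkL rootF engF2 tA tB sA_285 sB_285 4 F_1824 [(511, 0, 0)]
    0x10b80fc5306c505a0781b11c2e870551ab304c84b0781e = true := by
  decide +kernel

theorem f_1824 (h : TabsF) : FrameF repsF 285 F_1824.f :=
  frame_of rfl c_1824 (runs_of engOK r_1824_0) (by decide +kernel) h.1 h.2

def F_1825 : FrX :=
  ⟨0x1001040012008080000e0084080041000810100004200810010102880102000208000088202020024000480001080880010008448082000005c000212080,
    0xa3, 1, 0x4152658090a3, 6,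
    [(0xa3, 1), (0x207584a6, 4), (0x10547693, 4), (0x647593a8, 4), (0x10547693, 4), (0x216485a7, 4), (0x208693a4, 4), (0x647593a8, 4), (0x208693a4, 4), (0x106574a8, 4), (0x647593a8, 4), (0x216485a7, 4)],
    [(0x4152658090a3, 6), (0x107695a2, 4), (0x61728394, 4), (0x217683a0, 4), (0x61728394, 4), (0x215460a7, 4), (0x208395a1, 4), (0x217683a0, 4), (0x208395a1, 4), (0x627194a0, 4), (0x217683a0, 4), (0x215460a7, 4)]⟩

def c_1825 : frmChk tB tB F_1825 = true := by decide +kernel

def r_1825_0 : chkL rootF engF2 tB tB sB_285 sB_285 4 F_1825 [(511, 0, 0)]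
    0x4392689a2689a0ac0f1381714c1d = true := by
  decide +kernel

theorem f_1825 (h : TabsF) : FrameF repsF 285 F_1825.f :=
  frame_of rfl c_1825 (runs_of engOK r_1825_0) (by decide +kernel) h.2 h.2

theorem cl_285 (h : TabsF) : ∀ f ∈ fr_285, FrameF repsF 285 f :=
  List.forall_mem_cons.2 ⟨f_1798 h, List.forall_mem_cons.2 ⟨f_1799 h, List.forall_mem_cons.2 ⟨f_1800 h, List.forall_mem_cons.2 ⟨f_1801 h, List.forall_mem_cons.2 ⟨f_1802 h, List.forall_mem_cons.2 ⟨f_1803 h, List.forall_mem_cons.2 ⟨f_1804 h, List.forall_mem_cons.2 ⟨f_1805 h, List.forall_mem_cons.2 ⟨f_1806 h, List.forall_mem_cons.2 ⟨f_1807 h, List.forall_mem_cons.2 ⟨f_1808 h, List.forall_mem_cons.2 ⟨f_1809 h, List.forall_mem_cons.2 ⟨f_1810 h, List.forall_mem_cons.2 ⟨f_1811 h, List.forall_mem_cons.2 ⟨f_1812 h, List.forall_mem_cons.2 ⟨f_1813 h, List.forall_mem_cons.2 ⟨f_1814 h, List.forall_mem_cons.2 ⟨f_1815 h, List.forall_mem_cons.2 ⟨f_1816 h, List.forall_mem_cons.2 ⟨f_1817 h, List.forall_mem_cons.2 ⟨f_1818 h, List.forall_mem_cons.2 ⟨f_1819 h,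 List.forall_mem_cons.2 ⟨f_1820 h, List.forall_mem_cons.2 ⟨f_1821 h, List.forall_mem_cons.2 ⟨f_1822 h, List.forall_mem_cons.2 ⟨f_1823 h, List.forall_mem_cons.2 ⟨f_1824 h, List.forall_mem_cons.2 ⟨f_1825 h,
    fun _ h0 => absurd h0 List.not_mem_nil⟩⟩⟩⟩⟩⟩⟩⟩⟩⟩⟩⟩⟩⟩⟩⟩⟩⟩⟩⟩⟩⟩⟩⟩⟩⟩⟩⟩

def F_1826 : FrX :=
  ⟨0x1c4044000008081000000840080410000101084050080080010000030400020140828004000405608010100044120210008085000000440014042200004,
    0x0, 0, 0x43547385, 4,
    [(0x0, 0), (0x20637584, 4), (0x105476a9, 4), (0x647583a9, 4), (0x105476a9, 4), (0x21647385, 4), (0x204386a9, 4), (0x647583a9, 4), (0x204386a9, 4), (0x10657483, 4), (0x647583a9, 4), (0x21647385, 4)],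
    [(0x43547385, 4), (0x206387a9, 4), (0x104385a9, 4), (0x216475a9, 4), (0x206387a9, 4), (0x104385a9, 4)]⟩

def c_1826 : frmChk tB tA F_1826 = true := by decide +kernel

def r_1826_0 : chkL rootF engF2 tB tA sB_286 sA_286 4 F_1826 [(255, 0, 0), (256, 0, 10)]
    0x1 = true := by
  decide +kernel

def r_1826_1 : chkL rootF engF2 tB tA sB_286 sA_286 4 F_1826 [(256, 10, 12)]
    0x1 = true := by
  decide +kernel

def r_1826_2 : chkL rootF engF2 tB tA sB_286 sA_286 4 F_1826 [(256, 22, 13)]
    0x42b = true := by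
  decide +kernel

def r_1826_3 : chkL rootF engF2 tB tA sB_286 sA_286 4 F_1826 [(256, 35, 0)]
    0x1 = true := by
  decide +kernel

theorem f_1826 (h : TabsF) : FrameF repsF 286 F_1826.f :=
  frame_of rfl c_1826 ((runs_of engOK r_1826_0).append ((runs_of engOK r_1826_1).append ((runs_of engOK r_1826_2).append (runs_of engOK r_1826_3)))) (by decide +kernel) h.2 h.1

def F_1827 : FrX :=
  ⟨0x1001040012008080000e008408004100081010000405000081012080001a000208000088408020020004810101002002000044440101000100c404606000,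
    0xa3, 1, 0x40518791a8, 5,
    [(0xa3, 1), (0x207584a6, 4), (0x10547693, 4), (0x647593a8, 4), (0x10547693, 4), (0x216485a7, 4), (0x208693a4, 4), (0x647593a8, 4), (0x208693a4, 4), (0x106574a8, 4), (0x647593a8, 4), (0x216485a7, 4)],
    [(0x40518791a8, 5), (0x314275a6, 4), (0x107594a8, 4), (0x30758692, 4), (0x314275a6, 4), (0x107594a8, 4)]⟩

def c_1827 : frmChk tB tA F_1827 = true := by decide +kernel

def r_1827_0 : chkL rootF engF2 tB tA sB_286 sA_286 4 F_1827 [(255, 0, 0), (256, 0, 16)]
    0x43306c2d0cd455845c234331685c0b42d0e40f0cc1d = true := by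
  decide +kernel

def r_1827_1 : chkL rootF engF2 tB tA sB_286 sA_286 4 F_1827 [(256, 16, 0)]
    0x105c5c09c330cc5c1385c09c9a2345c0cc8d0b41b2d09c0b42d8962c0b439 = true := by
  decide +kernel

theorem f_1827 (h : TabsF) : FrameF repsF 286 F_1827.f :=
  frame_of rfl c_1827 ((runs_of engOK r_1827_0).append (runs_of engOK r_1827_1)) (by decide +kernel) h.2 h.1

def F_1828 : FrX :=
  ⟨0x1001040012008080000e0084080041000810100006000008208020202018008404000840010040560c010100040020610000084002001000011002602080,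
    0xa3, 1, 0x204054637691a0, 7,
    [(0xa3, 1), (0x207584a6, 4), (0x10547693, 4), (0x647593a8, 4), (0x10547693, 4), (0x216485a7, 4), (0x208693a4, 4), (0x647593a8, 4), (0x208693a4, 4), (0x106574a8, 4), (0x647593a8, 4), (0x216485a7, 4)],
    [(0x204054637691a0, 7), (0x416287a0, 4), (0x415283a9, 4), (0x41657390, 4), (0x416287a0, 4), (0x415283a9, 4)]⟩

def c_1828 : frmChk tB tA F_1828 = true := by decide +kernel

def r_1828_0 : chkL rootF engF2 tB tA sB_286 sA_286 4 F_1828 [(511, 0, 0)]
    0x4170cc17 = true := by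
  decide +kernel

theorem f_1828 (h : TabsF) : FrameF repsF 286 F_1828.f :=
  frame_of rfl c_1828 (runs_of engOK r_1828_0) (by decide +kernel) h.2 h.1

def F_1829 : FrX :=
  ⟨0x600020801080810000c00401804101010010040009020008000900208020221000240040204016008100000c4020290008001000400140004040210208,
    0xa0, 1, 0x3242618691a2, 6,
    [(0xa0, 1), (0x637584a2, 4), (0x547690a1, 4), (0x64758390, 4), (0x547690a1, 4), (0x21647385, 4), (0x438690a2, 4), (0x64758390, 4), (0x438690a2, 4), (0x657483a1, 4), (0x64758390, 4), (0x21647385, 4)],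
    [(0x3242618691a2, 6), (0x317582a0, 4), (0x53648790, 4), (0x21647583, 4), (0x53648790, 4), (0x517283a9, 4), (0x326481a0, 4), (0x21647583, 4), (0x326481a0, 4), (0x21738590, 4), (0x21647583, 4), (0x517283a9, 4)]⟩

def c_1829 : frmChk tB tB F_1829 = true := by decide +kernel

def r_1829_0 : chkL rootF engF2 tB tB sB_286 sB_286 4 F_1829 [(511, 0, 0)]
    0x436 = true := by
  decide +kernel

theorem f_1829 (h : TabsF) : FrameF repsF 286 F_1829.f :=
  frame_of rfl c_1829 (runs_of engOK r_1829_0) (by decide +kernel) h.2 h.2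

def F_1830 : FrX :=
  ⟨0x1001040012008080000e00840800410008101000060000084061010020020802808000200040808808084100800000420018c00404200080082000604440,
    0xa3, 1, 0x305360748292a4, 7,
    [(0xa3, 1), (0x207584a6, 4), (0x10547693, 4), (0x647593a8, 4), (0x10547693, 4), (0x216485a7, 4), (0x208693a4, 4), (0x647593a8, 4), (0x208693a4, 4), (0x106574a8, 4), (0x647593a8, 4), (0x216485a7, 4)],
    [(0x305360748292a4, 7), (0x32508796, 4), (0x426187a0, 4), (0x438791a5, 4), (0x32508796, 4), (0x426187a0, 4)]⟩

def c_1830 : frmChk tB tA F_1830 = true := by decide +kernel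

def r_1830_0 : chkL rootF engF2 tB tA sB_286 sA_286 4 F_1830 [(255, 0, 0), (256, 0, 18)]
    0x11342d09c2d = true := by
  decide +kernel

def r_1830_1 : chkL rootF engF2 tB tA sB_286 sA_286 4 F_1830 [(256, 18, 17)]
    0x44b1682e1383609c1b = true := by
  decide +kernel

def r_1830_2 : chkL rootF engF2 tB tA sB_286 sA_286 4 F_1830 [(256, 35, 0)]
    0x1 = true := by
  decide +kernel

theorem f_1830 (h : TabsF) : FrameF repsF 286 F_1830.f :=
  frame_of rfl c_1830 ((runs_of engOK r_1830_0).append ((runs_of engOK r_1830_1).append (runs_of engOK r_1830_2))) (by decide +kernel) h.2 h.1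

def F_1831 : FrX :=
  ⟨0x600020801080810000c0040180410101001004001040500000400804121000080180800a00040410001000203010400804208200020908300408080001,
    0xa0, 1, 0x21518493a1, 5,
    [(0xa0, 1), (0x637584a2, 4), (0x547690a1, 4), (0x64758390, 4), (0x547690a1, 4), (0x21647385, 4), (0x438690a2, 4), (0x64758390, 4), (0x438690a2, 4), (0x657483a1, 4), (0x64758390, 4), (0x21647385, 4)],
    [(0x21518493a1, 5), (0x10536492, 4), (0x537482a0, 4), (0x537698a1, 4), (0x10536492, 4), (0x537482a0, 4)]⟩

def c_1831 : frmChk tB tA F_1831 = true := by decide +kernel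

def r_1831_0 : chkL rootF engF2 tB tA sB_286 sA_286 4 F_1831 [(511, 0, 0)]
    0x42749835194651c4c905c17 = true := by
  decide +kernel

theorem f_1831 (h : TabsF) : FrameF repsF 286 F_1831.f :=
  frame_of rfl c_1831 (runs_of engOK r_1831_0) (by decide +kernel) h.2 h.1

def F_1832 : FrX :=
  ⟨0x600020801080810000c0040180410101001004020004002800902400224000008400092201040150000011002008010040220000600000214021080880,
    0xa0, 1, 0x4251728191a2, 6,
    [(0xa0, 1), (0x637584a2, 4), (0x547690a1, 4), (0x64758390, 4), (0x547690a1, 4), (0x21647385, 4), (0x438690a2, 4), (0x64758390, 4), (0x438690a2, 4), (0x657483a1, 4), (0x64758390, 4), (0x21647385, 4)],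
    [(0x4251728191a2, 6), (0x415263a0, 4), (0x21648790, 4), (0x41536287, 4), (0x21648790, 4), (0x435162a9, 4), (0x326587a0, 4), (0x41536287, 4), (0x326587a0, 4), (0x42536190, 4), (0x41536287, 4), (0x435162a9, 4)]⟩

def c_1832 : frmChk tB tB F_1832 = true := by decide +kernel

def r_1832_0 : chkL rootF engF2 tB tB sB_286 sB_286 4 F_1832 [(511, 0, 0)]
    0x105c560adc103c2e236524582705c17 = true := by
  decide +kernel

theorem f_1832 (h : TabsF) : FrameF repsF 286 F_1832.f :=
  frame_of rfl c_1832 (runs_of engOK r_1832_0) (by decide +kernel) h.2 h.2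

def F_1833 : FrX :=
  ⟨0x2002000900044004000e020410001410008000408008020800a000410008018104080801a020800801800011010000004300281010048000480040081001,
    0xa3, 1, 0x21314053718693a0, 8,
    [(0xa3, 1), (0x208693a5, 4), (0x10548793, 4), (0x217693a4, 4), (0x208693a5, 4), (0x10548793, 4)],
    [(0x21314053718693a0, 8), (0x548692a1, 4), (0x205463a7, 4), (0x54718390, 4), (0x548692a1, 4), (0x205463a7, 4)]⟩

def c_1833 : frmChk tA tA F_1833 = true := by decide +kernel

def r_1833_0 : chkL rootF engF2 tA tA sA_286 sA_286 4 F_1833 [(511, 0, 0)]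
    0x42706c96a46946319463194 = true := by
  decide +kernel

theorem f_1833 (h : TabsF) : FrameF repsF 286 F_1833.f :=
  frame_of rfl c_1833 (runs_of engOK r_1833_0) (by decide +kernel) h.1 h.1

def F_1834 : FrX :=
  ⟨0x80080a000804040e0000210100200100000204088060000810403000801200404008041a20004000180800101010400022000203000444040408100a000,
    0xa6, 1, 0x2132627490a8, 6,
    [(0xa6, 1), (0x205396a8, 4), (0x10548796, 4), (0x214396a7, 4), (0x205396a8, 4), (0x10548796, 4)],
    [(0x2132627490a8, 6), (0x518096a3, 4), (0x758092a4, 4), (0x43627180, 4), (0x518096a3, 4), (0x758092a4, 4)]⟩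

def c_1834 : frmChk tA tA F_1834 = true := by decide +kernel

def r_1834_0 : chkL rootF engF2 tA tA sA_286 sA_286 4 F_1834 [(511, 0, 0)]
    0x10e42e07a15c501e07a700781d = true := by
  decide +kernel

theorem f_1834 (h : TabsF) : FrameF repsF 286 F_1834.f :=
  frame_of rfl c_1834 (runs_of engOK r_1834_0) (by decide +kernel) h.1 h.1

def F_1835 : FrX :=
  ⟨0x482000044040440000c20400200090001820400012000280011001001804042000800410280018201000c0401020040204008202000202010402024004,
    0xa0, 1, 0x214261728792a1, 7,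
    [(0xa0, 1), (0x538690a2, 4), (0x548790a1, 4), (0x21437690, 4), (0x538690a2, 4), (0x548790a1, 4)],
    [(0x214261728792a1, 7), (0x32418590, 4), (0x517682a0, 4), (0x21437685, 4), (0x517682a0, 4), (0x215483a9, 4), (0x31427690, 4), (0x21437685, 4), (0x31427690, 4), (0x435281a0, 4), (0x21437685, 4), (0x215483a9, 4)]⟩

def c_1835 : frmChk tA tB F_1835 = true := by decide +kernel

def r_1835_0 : chkL rootF engF2 tA tB sA_286 sB_286 4 F_1835 [(511, 0, 0)]
    0x10787111c55498270750b05e43948360d8a9 = true := by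
  decide +kernel

theorem f_1835 (h : TabsF) : FrameF repsF 286 F_1835.f :=
  frame_of rfl c_1835 (runs_of engOK r_1835_0) (by decide +kernel) h.1 h.2

def F_1836 : FrX :=
  ⟨0x2002000900044004000e020410001410008000408004004840012040008800410008022040820001210008004000600080008a0010810600380220080080,
    0xa3, 1, 0x30405462728594a0, 8,
    [(0xa3, 1), (0x208693a5, 4), (0x10548793, 4), (0x217693a4, 4), (0x208693a5, 4), (0x10548793, 4)],
    [(0x30405462728594a0, 8), (0x325480a7, 4), (0x546398a1, 4), (0x54627190, 4), (0x325480a7, 4), (0x546398a1, 4)]⟩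

def c_1836 : frmChk tA tA F_1836 = true := by decide +kernel

def r_1836_0 : chkL rootF engF2 tA tA sA_286 sA_286 4 F_1836 [(511, 0, 0)]
    0x12348b0ac1b03c1b2651544d1544c2b = true := by
  decide +kernel

theorem f_1836 (h : TabsF) : FrameF repsF 286 F_1836.f :=
  frame_of rfl c_1836 (runs_of engOK r_1836_0) (by decide +kernel) h.1 h.1

def F_1837 : FrX :=
  ⟨0x482000044040440000c204002000900018204002000208010188080008040202002040004402011200008040401040001024800a080800040c00224040,
    0xa0, 1, 0x4352748292a4, 6,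
    [(0xa0, 1), (0x538690a2, 4), (0x548790a1, 4), (0x21437690, 4), (0x538690a2, 4), (0x548790a1, 4)],
    [(0x4352748292a4, 6), (0x42658790, 4), (0x105387a2, 4), (0x638791a4, 4), (0x42658790, 4), (0x105387a2, 4)]⟩

def c_1837 : frmChk tA tA F_1837 = true := by decide +kernel

def r_1837_0 : chkL rootF engF2 tA tA sA_286 sA_286 4 F_1837 [(511, 0, 0)]
    0x103c1d0789c1a40f06c1b = true := by
  decide +kernel

theorem f_1837 (h : TabsF) : FrameF repsF 286 F_1837.f :=
  frame_of rfl c_1837 (runs_of engOK r_1837_0) (by decide +kernel) h.1 h.1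

def F_1838 : FrX :=
  ⟨0x482000044040440000c2040020009000182040008012000804081200020802022000040d4400048000100010301010000006000a100300101200800280,
    0xa0, 1, 0x213141528191a2, 7,
    [(0xa0, 1), (0x538690a2, 4), (0x548790a1, 4), (0x21437690, 4), (0x538690a2, 4), (0x548790a1, 4)],
    [(0x213141528191a2, 7), (0x436271a0, 4), (0x31768590, 4), (0x42637185, 4), (0x31768590, 4), (0x416372a9, 4), (0x326485a0, 4), (0x42637185, 4), (0x326485a0, 4), (0x42617390, 4), (0x42637185, 4), (0x416372a9, 4)]⟩

def c_1838 : frmChk tA tB F_1838 = true := by decide +kernel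

def r_1838_0 : chkL rootF engF2 tA tB sA_286 sB_286 4 F_1838 [(511, 0, 0)]
    0x60b06c1b06c17 = true := by
  decide +kernel

theorem f_1838 (h : TabsF) : FrameF repsF 286 F_1838.f :=
  frame_of rfl c_1838 (runs_of engOK r_1838_0) (by decide +kernel) h.1 h.2

def F_1839 : FrX :=
  ⟨0x80080a000804040e000021010020010000020408822000040500801000c008202002400140000802080080088021000100005109000a8002420c0088000,
    0xa6, 1, 0x3140768295a6, 6,
    [(0xa6, 1), (0x205396a8, 4), (0x10548796, 4), (0x214396a7, 4), (0x205396a8, 4), (0x10548796, 4)],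
    [(0x3140768295a6, 6), (0x758491a2, 4), (0x43627590, 4), (0x107583a6, 4), (0x758491a2, 4), (0x43627590, 4)]⟩

def c_1839 : frmChk tA tA F_1839 = true := by decide +kernel

def r_1839_0 : chkL rootF engF2 tA tA sA_286 sA_286 4 F_1839 [(511, 0, 0)]
    0x10ac350781d = true := by
  decide +kernel

theorem f_1839 (h : TabsF) : FrameF repsF 286 F_1839.f :=
  frame_of rfl c_1839 (runs_of engOK r_1839_0) (by decide +kernel) h.1 h.1

def F_1840 : FrX :=
  ⟨0x2002000900044004000e02041000141000800040810000018100802402000a40220200001008008820800404800020040001810010a00200340024001005,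
    0xa3, 1, 0x304061768196a3, 7,
    [(0xa3, 1), (0x208693a5, 4), (0x10548793, 4), (0x217693a4, 4), (0x208693a5, 4), (0x10548793, 4)],
    [(0x304061768196a3, 7), (0x425163a9, 4), (0x53708491, 4), (0x517093a6, 4), (0x53708491, 4), (0x658293a1, 4), (0x427096a3, 4), (0x517093a6, 4), (0x427096a3, 4), (0x318495a6, 4), (0x517093a6, 4), (0x658293a1, 4)]⟩

def c_1840 : frmChk tA tB F_1840 = true := by decide +kernel

def r_1840_0 : chkL rootF engF2 tA tB sA_286 sB_286 4 F_1840 [(511, 0, 0)]
    0x10d88714c962681b6149322c4724c872681e24c170781705c1d88c4d = true := by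
  decide +kernel

theorem f_1840 (h : TabsF) : FrameF repsF 286 F_1840.f :=
  frame_of rfl c_1840 (runs_of engOK r_1840_0) (by decide +kernel) h.1 h.2

def F_1841 : FrX :=
  ⟨0x1c21020000040440000020410001010000820408a00011000004001102021000082140000240410128000100890484402040080010800204040a0480000,
    0x0, 0, 0x206483, 3,
    [(0x0, 0), (0x205386a9, 4), (0x105487a9, 4), (0x214376a9, 4), (0x205386a9, 4), (0x105487a9, 4)],
    [(0x206483, 3), (0x204385a9, 4), (0x216573a9, 4), (0x107486a9, 4), (0x204385a9, 4), (0x216573a9, 4)]⟩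

def c_1841 : frmChk tA tA F_1841 = true := by decide +kernel

def r_1841_0 : chkL rootF engF2 tA tA sA_286 sA_286 4 F_1841 [(255, 0, 0), (256, 0, 6)]
    0x109c27438b40d52c298270f09a2982724caa1a52c42d2c42c274a83c0f07209c2d0d836 = true := by
  decide +kernel

def r_1841_1 : chkL rootF engF2 tA tA sA_286 sA_286 4 F_1841 [(256, 6, 18)]
    0x1894d274168529894d158 = true := by
  decide +kernel

def r_1841_2 : chkL rootF engF2 tA tA sA_286 sA_286 4 F_1841 [(256, 24, 5)]
    0x112c3a09d89 = true := by
  decide +kernel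

def r_1841_3 : chkL rootF engF2 tA tA sA_286 sA_286 4 F_1841 [(256, 29, 0)]
    0x1 = true := by
  decide +kernel

theorem f_1841 (h : TabsF) : FrameF repsF 286 F_1841.f :=
  frame_of rfl c_1841 ((runs_of engOK r_1841_0).append ((runs_of engOK r_1841_1).append ((runs_of engOK r_1841_2).append (runs_of engOK r_1841_3)))) (by decide +kernel) h.1 h.1

def F_1842 : FrX :=
  ⟨0x2002000900044004000e020410001410008000408008010140380000080001821002040040240010128000120010400002840080220808205000800a0040,
    0xa3, 1, 0x4051628397a3, 6,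
    [(0xa3, 1), (0x208693a5, 4), (0x10548793, 4), (0x217693a4, 4), (0x208693a5, 4), (0x10548793, 4)],
    [(0x4051628397a3, 6), (0x326487a1, 4), (0x10548793, 4), (0x658792a0, 4), (0x326487a1, 4), (0x10548793, 4)]⟩

def c_1842 : frmChk tA tA F_1842 = true := by decide +kernel

def r_1842_0 : chkL rootF engF2 tA tA sA_286 sA_286 4 F_1842 [(511, 0, 0)]
    0x122d0b0e4ac22c1e2541b0f0178d01d05c1d = true := by
  decide +kernel

theorem f_1842 (h : TabsF) : FrameF repsF 286 F_1842.f :=
  frame_of rfl c_1842 (runs_of engOK r_1842_0) (by decide +kernel) h.1 h.1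

def F_1843 : FrX :=
  ⟨0x482000044040440000c2040020009000182040010020082001000180080102808020040804041010000030408008440014010310080080014120000084,
    0xa0, 1, 0x104352618795a6, 7,
    [(0xa0, 1), (0x538690a2, 4), (0x548790a1, 4), (0x21437690, 4), (0x538690a2, 4), (0x548790a1, 4)],
    [(0x104352618795a6, 7), (0x517398a4, 4), (0x206193a8, 4), (0x207498a3, 4), (0x206193a8, 4), (0x658497a3, 4), (0x204351a7, 4), (0x207498a3, 4), (0x204351a7, 4), (0x617483a9, 4), (0x207498a3, 4), (0x658497a3, 4)]⟩

def c_1843 : frmChk tA tB F_1843 = true := by decide +kernel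

def r_1843_0 : chkL rootF engF2 tA tB sA_286 sB_286 4 F_1843 [(511, 0, 0)]
    0x41e078350d5944544b07958465510d4330b81721cd4 = true := by
  decide +kernel

theorem f_1843 (h : TabsF) : FrameF repsF 286 F_1843.f :=
  frame_of rfl c_1843 (runs_of engOK r_1843_0) (by decide +kernel) h.1 h.2

def F_1844 : FrX :=
  ⟨0x482000044040440000c2040020009000182040002102060000880200004088004400101022010400800040888010400108003108040420004804200004,
    0xa0, 1, 0x54708794a4, 5,
    [(0xa0, 1), (0x538690a2, 4), (0x548790a1, 4), (0x21437690, 4), (0x538690a2, 4), (0x548790a1, 4)],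
    [(0x54708794a4, 5), (0x637284a0, 4), (0x718695a4, 4), (0x308495a6, 4), (0x718695a4, 4), (0x214083a6, 4), (0x607295a3, 4), (0x308495a6, 4), (0x607295a3, 4), (0x306471a8, 4), (0x308495a6, 4), (0x214083a6, 4)]⟩

def c_1844 : frmChk tA tB F_1844 = true := by decide +kernel

def r_1844_0 : chkL rootF engF2 tA tB sA_286 sB_286 4 F_1844 [(511, 0, 0)]
    0x10f03c0d44e = true := by
  decide +kernel

theorem f_1844 (h : TabsF) : FrameF repsF 286 F_1844.f :=
  frame_of rfl c_1844 (runs_of engOK r_1844_0) (by decide +kernel) h.1 h.2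

def F_1845 : FrX :=
  ⟨0x2002000900044004000e02041000141000800040800801014038000008000182100204004024000412040202001400000284008022200828100004028040,
    0xa3, 1, 0x4150627398a3, 6,
    [(0xa3, 1), (0x208693a5, 4), (0x10548793, 4), (0x217693a4, 4), (0x208693a5, 4), (0x10548793, 4)],
    [(0x4150627398a3, 6), (0x658792a0, 4), (0x10548793, 4), (0x326487a1, 4), (0x658792a0, 4), (0x10548793, 4)]⟩

def c_1845 : frmChk tA tA F_1845 = true := by decide +kernel

def r_1845_0 : chkL rootF engF2 tA tA sA_286 sA_286 4 F_1845 [(511, 0, 0)]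
    0x10d417 = true := by
  decide +kernel

theorem f_1845 (h : TabsF) : FrameF repsF 286 F_1845.f :=
  frame_of rfl c_1845 (runs_of engOK r_1845_0) (by decide +kernel) h.1 h.1

def F_1846 : FrX :=
  ⟨0x1c2102000004044000002041000101000082040888200008008080004000242020601001020080020800424880320001008011004700200300004c00000,
    0x0, 0, 0x107583, 3,
    [(0x0, 0), (0x205386a9, 4), (0x105487a9, 4), (0x214376a9, 4), (0x205386a9, 4), (0x105487a9, 4)],
    [(0x107583, 3), (0x216387a9, 4), (0x105374a9, 4), (0x206584a9, 4), (0x216387a9, 4), (0x105374a9, 4)]⟩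

def c_1846 : frmChk tA tA F_1846 = true := by decide +kernel

def r_1846_0 : chkL rootF engF2 tA tA sA_286 sA_286 4 F_1846 [(255, 0, 0), (256, 0, 13)]
    0x114e13 = true := by
  decide +kernel

def r_1846_1 : chkL rootF engF2 tA tA sA_286 sA_286 4 F_1846 [(256, 13, 5)]
    0x44b = true := by
  decide +kernel

def r_1846_2 : chkL rootF engF2 tA tA sA_286 sA_286 4 F_1846 [(256, 18, 7)]
    0x1 = true := by
  decide +kernel

def r_1846_3 : chkL rootF engF2 tA tA sA_286 sA_286 4 F_1846 [(256, 25, 7)]
    0x44d238ac09d836182d0b4e8384a6170d1 = true := by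
  decide +kernel

def r_1846_4 : chkL rootF engF2 tA tA sA_286 sA_286 4 F_1846 [(256, 32, 0)]
    0x10e42b = true := by
  decide +kernel

theorem f_1846 (h : TabsF) : FrameF repsF 286 F_1846.f :=
  frame_of rfl c_1846 ((runs_of engOK r_1846_0).append ((runs_of engOK r_1846_1).append ((runs_of engOK r_1846_2).append ((runs_of engOK r_1846_3).append (runs_of engOK r_1846_4))))) (by decide +kernel) h.1 h.1

def F_1847 : FrX :=
  ⟨0x2002000900044004000e0204100014100080004081000001810800200a002a00220200001008008820800404800020001001810040600200242024001014,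
    0xa3, 1, 0x51658197a4, 5,
    [(0xa3, 1), (0x208693a5, 4), (0x10548793, 4), (0x217693a4, 4), (0x208693a5, 4), (0x10548793, 4)],
    [(0x51658197a4, 5), (0x203196a5, 4), (0x748091a6, 4), (0x537496a1, 4), (0x748091a6, 4), (0x658293a1, 4), (0x205174a3, 4), (0x537496a1, 4), (0x205174a3, 4), (0x536180a9, 4), (0x537496a1, 4), (0x658293a1, 4)]⟩

def c_1847 : frmChk tA tB F_1847 = true := by decide +kernel

def r_1847_0 : chkL rootF engF2 tA tB sA_286 sB_286 4 F_1847 [(511, 0, 0)]
    0x11987211c17 = true := by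
  decide +kernel

theorem f_1847 (h : TabsF) : FrameF repsF 286 F_1847.f :=
  frame_of rfl c_1847 (runs_of engOK r_1847_0) (by decide +kernel) h.1 h.2

def F_1848 : FrX :=
  ⟨0x1001040012008080000e0084080041000810100006000010084902800200004044004200008078014008280002000820010000010300400810105000a002,
    0xa3, 1, 0x103241728392a3, 7,
    [(0xa3, 1), (0x207584a6, 4), (0x10547693, 4), (0x647593a8, 4), (0x10547693, 4), (0x216485a7, 4), (0x208693a4, 4), (0x647593a8, 4), (0x208693a4, 4), (0x106574a8, 4), (0x647593a8, 4), (0x216485a7, 4)],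
    [(0x103241728392a3, 7), (0x628791a5, 4), (0x32415087, 4), (0x638794a0, 4), (0x628791a5, 4), (0x32415087, 4)]⟩

def c_1848 : frmChk tB tA F_1848 = true := by decide +kernel

def r_1848_0 : chkL rootF engF2 tB tA sB_286 sA_286 4 F_1848 [(511, 0, 0)]
    0x1360390e42b0b43509c87 = true := by
  decide +kernel

theorem f_1848 (h : TabsF) : FrameF repsF 286 F_1848.f :=
  frame_of rfl c_1848 (runs_of engOK r_1848_0) (by decide +kernel) h.2 h.1

def F_1849 : FrX :=
  ⟨0x1001040012008080000e0084080041000810100004201004100802200200050044200006000070004005003001200020210080080041008802010400010c,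
    0xa3, 1, 0x103053768496a0, 7,
    [(0xa3, 1), (0x207584a6, 4), (0x10547693, 4), (0x647593a8, 4), (0x10547693, 4), (0x216485a7, 4), (0x208693a4, 4), (0x647593a8, 4), (0x208693a4, 4), (0x106574a8, 4), (0x647593a8, 4), (0x216485a7, 4)],
    [(0x103053768496a0, 7), (0x517394a2, 4), (0x647381a0, 4), (0x20738596, 4), (0x517394a2, 4), (0x647381a0, 4)]⟩

def c_1849 : frmChk tB tA F_1849 = true := by decide +kernel

def r_1849_0 : chkL rootF engF2 tB tA sB_286 sA_286 4 F_1849 [(511, 0, 0)]
    0x10b4330ce310781e0b613 = true := by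
  decide +kernel

theorem f_1849 (h : TabsF) : FrameF repsF 286 F_1849.f :=
  frame_of rfl c_1849 (runs_of engOK r_1849_0) (by decide +kernel) h.2 h.1

def F_1850 : FrX :=
  ⟨0x1001040012008080000e008408004100081010000420080240014001010200000e200006000520004009002c002000804004201000434000011008000290,
    0xa3, 1, 0x208596a3, 4,
    [(0xa3, 1), (0x207584a6, 4), (0x10547693, 4), (0x647593a8, 4), (0x10547693, 4), (0x216485a7, 4), (0x208693a4, 4), (0x647593a8, 4), (0x208693a4, 4), (0x106574a8, 4), (0x647593a8, 4), (0x216485a7, 4)],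
    [(0x208596a3, 4), (0x205487a9, 4), (0x21638497, 4), (0x638794a5, 4), (0x21638497, 4), (0x108594a7, 4), (0x206395a4, 4), (0x638794a5, 4), (0x206395a4, 4), (0x217498a5, 4), (0x638794a5, 4), (0x108594a7, 4)]⟩

def c_1850 : frmChk tB tB F_1850 = true := by decide +kernel

def r_1850_0 : chkL rootF engF2 tB tB sB_286 sB_286 4 F_1850 [(511, 0, 0)]
    0x4932ca522348d92a528720d9300f1b00f05c1714ca905c0f03c0f03c27 = true := by
  decide +kernel

theorem f_1850 (h : TabsF) : FrameF repsF 286 F_1850.f :=
  frame_of rfl c_1850 (runs_of engOK r_1850_0) (by decide +kernel) h.2 h.2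

def F_1851 : FrX :=
  ⟨0x80080a000804040e000021010020010000020408822000040500801000c00820200240014000080208008008802150040001110240008003020c0208000,
    0xa6, 1, 0x3140768295a6, 6,
    [(0xa6, 1), (0x205396a8, 4), (0x10548796, 4), (0x214396a7, 4), (0x205396a8, 4), (0x10548796, 4)],
    [(0x3140768295a6, 6), (0x758491a2, 4), (0x43627590, 4), (0x107583a6, 4), (0x758491a2, 4), (0x43627590, 4)]⟩

def c_1851 : frmChk tA tA F_1851 = true := by decide +kernel

def r_1851_0 : chkL rootF engF2 tA tA sA_286 sA_286 4 F_1851 [(511, 0, 0)]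
    0x106c1b05c1e03c0f194a5 = true := by
  decide +kernel

theorem f_1851 (h : TabsF) : FrameF repsF 286 F_1851.f :=
  frame_of rfl c_1851 (runs_of engOK r_1851_0) (by decide +kernel) h.1 h.1

def F_1852 : FrX :=
  ⟨0x482000044040440000c204002000900018204000202204010088020001400800440011302000040080004088801000410800210a040422000804200004,
    0xa0, 1, 0x324252657093a3, 7,
    [(0xa0, 1), (0x538690a2, 4), (0x548790a1, 4), (0x21437690, 4), (0x538690a2, 4), (0x548790a1, 4)],
    [(0x324252657093a3, 7), (0x607583a4, 4), (0x40637192, 4), (0x436092a8, 4), (0x40637192, 4), (0x435186a0, 4), (0x758492a3, 4), (0x436092a8, 4), (0x758492a3, 4), (0x306471a8, 4), (0x436092a8, 4), (0x435186a0, 4)]⟩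

def c_1852 : frmChk tA tB F_1852 = true := by decide +kernel

def r_1852_0 : chkL rootF engF2 tA tB sA_286 sB_286 4 F_1852 [(511, 0, 0)]
    0x623c840f = true := by
  decide +kernel

theorem f_1852 (h : TabsF) : FrameF repsF 286 F_1852.f :=
  frame_of rfl c_1852 (runs_of engOK r_1852_0) (by decide +kernel) h.1 h.2

def F_1853 : FrX :=
  ⟨0x2002000900044004000e0204100014100080004081000001810a802002000200220200801008008820800404800020004001810042a00200302024001002,
    0xa3, 1, 0x31418393a7, 5,
    [(0xa3, 1), (0x208693a5, 4), (0x10548793, 4), (0x217693a4, 4), (0x208693a5, 4), (0x10548793, 4)],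
    [(0x31418393a7, 5), (0x203196a5, 4), (0x405387a6, 4), (0x638791a5, 4), (0x405387a6, 4), (0x425163a9, 4), (0x20618793, 4), (0x638791a5, 4), (0x20618793, 4), (0x406591a3, 4), (0x638791a5, 4), (0x425163a9, 4)]⟩

def c_1853 : frmChk tA tB F_1853 = true := by decide +kernel

def r_1853_0 : chkL rootF engF2 tA tB sA_286 sB_286 4 F_1853 [(255, 0, 0), (256, 0, 18)]
    0x11b01b09c1b06c5306c1b = true := by
  decide +kernel

def r_1853_1 : chkL rootF engF2 tA tB sA_286 sB_286 4 F_1853 [(256, 18, 0)]
    0x11c47103c0f = true := by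
  decide +kernel

theorem f_1853 (h : TabsF) : FrameF repsF 286 F_1853.f :=
  frame_of rfl c_1853 ((runs_of engOK r_1853_0).append (runs_of engOK r_1853_1)) (by decide +kernel) h.1 h.2

theorem cl_286 (h : TabsF) : ∀ f ∈ fr_286, FrameF repsF 286 f :=
  List.forall_mem_cons.2 ⟨f_1826 h, List.forall_mem_cons.2 ⟨f_1827 h, List.forall_mem_cons.2 ⟨f_1828 h, List.forall_mem_cons.2 ⟨f_1829 h, List.forall_mem_cons.2 ⟨f_1830 h, List.forall_mem_cons.2 ⟨f_1831 h, List.forall_mem_cons.2 ⟨f_1832 h, List.forall_mem_cons.2 ⟨f_1833 h, List.forall_mem_cons.2 ⟨f_1834 h, List.forall_mem_cons.2 ⟨f_1835 h, List.forall_mem_cons.2 ⟨f_1836 h, List.forall_mem_cons.2 ⟨f_1837 h, List.forall_mem_cons.2 ⟨f_1838 h, List.forall_mem_cons.2 ⟨f_1839 h, List.forall_mem_cons.2 ⟨f_1840 h, List.forall_mem_cons.2 ⟨f_1841 h, List.forall_mem_cons.2 ⟨f_1842 h, List.forall_mem_cons.2 ⟨f_1843 h, List.forall_mem_cons.2 ⟨f_1844 h, List.forall_mem_cons.2 ⟨f_1845 h, List.forall_mem_cons.2 ⟨f_1846 h, List.forall_mem_cons.2 ⟨f_1847 h, List.forall_mem_cons.2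 ⟨f_1848 h, List.forall_mem_cons.2 ⟨f_1849 h, List.forall_mem_cons.2 ⟨f_1850 h, List.forall_mem_cons.2 ⟨f_1851 h, List.forall_mem_cons.2 ⟨f_1852 h, List.forall_mem_cons.2 ⟨f_1853 h,
    fun _ h0 => absurd h0 List.not_mem_nil⟩⟩⟩⟩⟩⟩⟩⟩⟩⟩⟩⟩⟩⟩⟩⟩⟩⟩⟩⟩⟩⟩⟩⟩⟩⟩⟩⟩

def F_1854 : FrX :=
  ⟨0x80080a000804040e000021010020010000020408a0000404200030080414008000020614040008800890000214010000240001030000c21002181008000,
    0xa6, 1, 0x102061748193a0, 7,
    [(0xa6, 1), (0x205396a8, 4), (0x10548796, 4), (0x214396a7, 4), (0x205396a8, 4), (0x10548796, 4)],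
    [(0x102061748193a0, 7), (0x547690a1, 4), (0x324075a8, 4), (0x32547096, 4), (0x324075a8, 4), (0x65708194, 4), (0x326097a1, 4), (0x32547096, 4), (0x326097a1, 4), (0x507496a8, 4), (0x32547096, 4), (0x65708194, 4)]⟩

def c_1854 : frmChk tA tB F_1854 = true := by decide +kernel

def r_1854_0 : chkL rootF engF2 tA tB sA_287 sB_287 4 F_1854 [(511, 0, 0)]
    0x11681e138591d06c14d620e41e = true := by
  decide +kernel

theorem f_1854 (h : TabsF) : FrameF repsF 287 F_1854.f :=
  frame_of rfl c_1854 (runs_of engOK r_1854_0) (by decide +kernel) h.1 h.2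

def F_1855 : FrX :=
  ⟨0x80080a000804040e000021010020010000020408a600020010040000844100004101200020400411200800040410280100500109001000040c150008000,
    0xa6, 1, 0x304154728696a6, 7,
    [(0xa6, 1), (0x205396a8, 4), (0x10548796, 4), (0x214396a7, 4), (0x205396a8, 4), (0x10548796, 4)],
    [(0x304154728696a6, 7), (0x107398a6, 4), (0x43516298, 4), (0x507498a2, 4), (0x107398a6, 4), (0x43516298, 4)]⟩

def c_1855 : frmChk tA tA F_1855 = true := by decide +kernel

def r_1855_0 : chkL rootF engF2 tA tA sA_287 sA_287 4 F_1855 [(255, 0, 0), (256, 0, 20)]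
    0x40f1703617078 = true := by
  decide +kernel

def r_1855_1 : chkL rootF engF2 tA tA sA_287 sA_287 4 F_1855 [(256, 20, 0)]
    0x10b81b03c5a03c1b06c59 = true := by
  decide +kernel

theorem f_1855 (h : TabsF) : FrameF repsF 287 F_1855.f :=
  frame_of rfl c_1855 ((runs_of engOK r_1855_0).append (runs_of engOK r_1855_1)) (by decide +kernel) h.1 h.1

def F_1856 : FrX :=
  ⟨0x2002000900044004000e020410001410008000408100000d2010000111000242020008000802080280400d000000480100880900008800002600800c2080,
    0xa3, 1, 0x314353637496a6, 7,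
    [(0xa3, 1), (0x208693a5, 4), (0x10548793, 4), (0x217693a4, 4), (0x208693a5, 4), (0x10548793, 4)],
    [(0x314353637496a6, 7), (0x206495a8, 4), (0x30748195, 4), (0x327695a1, 4), (0x206495a8, 4), (0x30748195, 4)]⟩

def c_1856 : frmChk tA tA F_1856 = true := by decide +kernel

def r_1856_0 : chkL rootF engF2 tA tA sA_287 sA_287 4 F_1856 [(511, 0, 0)]
    0x41705c39134360b872 = true := by
  decide +kernel

theorem f_1856 (h : TabsF) : FrameF repsF 287 F_1856.f :=
  frame_of rfl c_1856 (runs_of engOK r_1856_0) (by decide +kernel) h.1 h.1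

def F_1857 : FrX :=
  ⟨0x482000044040440000c2040020009000182040001081020001020800040504200400074000004000180404604000008100801210050120001010040208,
    0xa0, 1, 0x3143516597a6, 6,
    [(0xa0, 1), (0x538690a2, 4), (0x548790a1, 4), (0x21437690, 4), (0x538690a2, 4), (0x548790a1, 4)],
    [(0x3143516597a6, 6), (0x206473a8, 4), (0x50617398, 4), (0x415273a9, 4), (0x206473a8, 4), (0x50617398, 4)]⟩

def c_1857 : frmChk tA tA F_1857 = true := by decide +kernel

def r_1857_0 : chkL rootF engF2 tA tA sA_287 sA_287 4 F_1857 [(511, 0, 0)]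
    0x10b41e0e42d30c350e44d06c2e0b81e0782d = true := by
  decide +kernel

theorem f_1857 (h : TabsF) : FrameF repsF 287 F_1857.f :=
  frame_of rfl c_1857 (runs_of engOK r_1857_0) (by decide +kernel) h.1 h.1

def F_1858 : FrX :=
  ⟨0x2002000900044004000e020410001410008000408100000820808024020040801402800202048040121000304000008020800800b0005000408202002001,
    0xa3, 1, 0x2043517391a4, 6,
    [(0xa3, 1), (0x208693a5, 4), (0x10548793, 4), (0x217693a4, 4), (0x208693a5, 4), (0x10548793, 4)],
    [(0x2043517391a4, 6), (0x204176a8, 4), (0x536492a1, 4), (0x415387a6, 4), (0x536492a1, 4), (0x748190a6, 4), (0x205386a7, 4), (0x415387a6, 4), (0x205386a7, 4), (0x618792a4, 4), (0x415387a6, 4), (0x748190a6, 4)]⟩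

def c_1858 : frmChk tA tB F_1858 = true := by decide +kernel

def r_1858_0 : chkL rootF engF2 tA tB sA_287 sB_287 4 F_1858 [(511, 0, 0)]
    0x12381b0ac270741b = true := by
  decide +kernel

theorem f_1858 (h : TabsF) : FrameF repsF 287 F_1858.f :=
  frame_of rfl c_1858 (runs_of engOK r_1858_0) (by decide +kernel) h.1 h.2

def F_1859 : FrX :=
  ⟨0x482000044040440000c2040020009000182040002010900010024200000c0280008006000200b00004104020300004028400400200062200010600000c,
    0xa0, 1, 0x10305063718696a0, 8,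
    [(0xa0, 1), (0x538690a2, 4), (0x548790a1, 4), (0x21437690, 4), (0x538690a2, 4), (0x548790a1, 4)],
    [(0x10305063718696a0, 8), (0x638591a2, 4), (0x104385a7, 4), (0x64728590, 4), (0x638591a2, 4), (0x104385a7, 4)]⟩

def c_1859 : frmChk tA tA F_1859 = true := by decide +kernel

def r_1859_0 : chkL rootF engF2 tA tA sA_287 sA_287 4 F_1859 [(511, 0, 0)]
    0x103c1e0d81705c17 = true := by
  decide +kernel

theorem f_1859 (h : TabsF) : FrameF repsF 287 F_1859.f :=
  frame_of rfl c_1859 (runs_of engOK r_1859_0) (by decide +kernel) h.1 h.1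

def F_1860 : FrX :=
  ⟨0x482000044040440000c2040020009000182040002008300101200008024002080080410080060202000800e00001009080010142201002000804210008,
    0xa0, 1, 0x103243526270a1, 7,
    [(0xa0, 1), (0x538690a2, 4), (0x548790a1, 4), (0x21437690, 4), (0x538690a2, 4), (0x548790a1, 4)],
    [(0x103243526270a1, 7), (0x31547682, 4), (0x325190a7, 4), (0x31528490, 4), (0x325190a7, 4), (0x415283a6, 4), (0x42768590, 4), (0x31528490, 4), (0x42768590, 4), (0x215384a7, 4), (0x31528490, 4), (0x415283a6, 4)]⟩

def c_1860 : frmChk tA tB F_1860 = true := by decide +kernel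

def r_1860_0 : chkL rootF engF2 tA tB sA_287 sB_287 4 F_1860 [(511, 0, 0)]
    0x45a03c0f03c3305d4c4640fca0a5296a403d0d0784e52855 = true := by
  decide +kernel

theorem f_1860 (h : TabsF) : FrameF repsF 287 F_1860.f :=
  frame_of rfl c_1860 (runs_of engOK r_1860_0) (by decide +kernel) h.1 h.2

def F_1861 : FrX :=
  ⟨0x600020801080810000c004018041010100100400404082000040008412100004208080202004020801000020301008200c008a021000081008080a0040,
    0xa0, 1, 0x1032406495a2, 6,
    [(0xa0, 1), (0x637584a2, 4), (0x547690a1, 4), (0x64758390, 4), (0x547690a1, 4), (0x21647385, 4), (0x438690a2, 4), (0x64758390, 4), (0x438690a2, 4), (0x657483a1, 4), (0x64758390, 4), (0x21647385, 4)],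
    [(0x1032406495a2, 6), (0x538192a4, 4), (0x40538796, 4), (0x536271a0, 4), (0x538192a4, 4), (0x40538796, 4)]⟩

def c_1861 : frmChk tB tA F_1861 = true := by decide +kernel

def r_1861_0 : chkL rootF engF2 tB tA sB_287 sA_287 4 F_1861 [(511, 0, 0)]
    0x4ca0e6a40780f03c3511c4718c63 = true := by
  decide +kernel

theorem f_1861 (h : TabsF) : FrameF repsF 287 F_1861.f :=
  frame_of rfl c_1861 (runs_of engOK r_1861_0) (by decide +kernel) h.2 h.1

def F_1862 : FrX :=
  ⟨0x1001040012008080000e00840800410008101000040410084010112001000044004002204200012500012800020404010010002008800809b00000222000,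
    0xa3, 1, 0x4264708393a5, 6,
    [(0xa3, 1), (0x207584a6, 4), (0x10547693, 4), (0x647593a8, 4), (0x10547693, 4), (0x216485a7, 4), (0x208693a4, 4), (0x647593a8, 4), (0x208693a4, 4), (0x106574a8, 4), (0x647593a8, 4), (0x216485a7, 4)],
    [(0x4264708393a5, 6), (0x327485a9, 4), (0x307185a6, 4), (0x20418596, 4), (0x327485a9, 4), (0x307185a6, 4)]⟩

def c_1862 : frmChk tB tA F_1862 = true := by decide +kernel

def r_1862_0 : chkL rootF engF2 tB tA sB_287 sA_287 4 F_1862 [(511, 0, 0)]
    0x4360d8a50742d = true := by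
  decide +kernel

theorem f_1862 (h : TabsF) : FrameF repsF 287 F_1862.f :=
  frame_of rfl c_1862 (runs_of engOK r_1862_0) (by decide +kernel) h.2 h.1

def F_1863 : FrX :=
  ⟨0x1001040012008080000e00840800410008101000042008024008108004220010008002201200008820001012000401405040005010200000a90101010080,
    0xa3, 1, 0x215260718191a3, 7,
    [(0xa3, 1), (0x207584a6, 4), (0x10547693, 4), (0x647593a8, 4), (0x10547693, 4), (0x216485a7, 4), (0x208693a4, 4), (0x647593a8, 4), (0x208693a4, 4), (0x106574a8, 4), (0x647593a8, 4), (0x216485a7, 4)],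
    [(0x215260718191a3, 7), (0x657083a1, 4), (0x41728396, 4), (0x208395a4, 4), (0x657083a1, 4), (0x41728396, 4)]⟩

def c_1863 : frmChk tB tA F_1863 = true := by decide +kernel

def r_1863_0 : chkL rootF engF2 tB tA sB_287 sA_287 4 F_1863 [(511, 0, 0)]
    0x46318cd8c270963131c4788c26a8c251c9324cd23880741d = true := by
  decide +kernel

theorem f_1863 (h : TabsF) : FrameF repsF 287 F_1863.f :=
  frame_of rfl c_1863 (runs_of engOK r_1863_0) (by decide +kernel) h.2 h.1

def F_1864 : FrX :=
  ⟨0x1001040012008080000e00840800410008101000044020080071000020000802809000204020010208004800800800020100801204030040a82000215000,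
    0xa3, 1, 0x42526098a7, 5,
    [(0xa3, 1), (0x207584a6, 4), (0x10547693, 4), (0x647593a8, 4), (0x10547693, 4), (0x216485a7, 4), (0x208693a4, 4), (0x647593a8, 4), (0x208693a4, 4), (0x106574a8, 4), (0x647593a8, 4), (0x216485a7, 4)],
    [(0x42526098a7, 5), (0x306592a4, 4), (0x426187a0, 4), (0x208793a4, 4), (0x426187a0, 4), (0x205194a3, 4), (0x32658790, 4), (0x208793a4, 4), (0x32658790, 4), (0x406193a2, 4), (0x208793a4, 4), (0x205194a3, 4)]⟩

def c_1864 : frmChk tB tB F_1864 = true := by decide +kernel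

def r_1864_0 : chkL rootF engF2 tB tB sB_287 sB_287 4 F_1864 [(511, 0, 0)]
    0x493a4893a482b05c1b05d2c5902b0ac33 = true := by
  decide +kernel

theorem f_1864 (h : TabsF) : FrameF repsF 287 F_1864.f :=
  frame_of rfl c_1864 (runs_of engOK r_1864_0) (by decide +kernel) h.2 h.2

def F_1865 : FrX :=
  ⟨0x1c4044000008081000000840080410000101084060002080000082020180080040028400200c04208410008046020610000204003010000011042202000,
    0x0, 0, 0x21537586, 4,
    [(0x0, 0), (0x20637584, 4), (0x105476a9, 4), (0x647583a9, 4), (0x105476a9, 4), (0x21647385, 4), (0x204386a9, 4), (0x647583a9, 4), (0x204386a9, 4), (0x10657483, 4), (0x647583a9, 4), (0x21647385, 4)],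
    [(0x21537586, 4), (0x107586a9, 4), (0x206374a9, 4), (0x215483a9, 4), (0x107586a9, 4), (0x206374a9, 4)]⟩

def c_1865 : frmChk tB tA F_1865 = true := by decide +kernel

def r_1865_0 : chkL rootF engF2 tB tA sB_287 sA_287 4 F_1865 [(255, 0, 0), (256, 0, 9)]
    0x45a = true := by
  decide +kernel

def r_1865_1 : chkL rootF engF2 tB tA sB_287 sA_287 4 F_1865 [(256, 9, 10)]
    0x1078721641b12c5a44c4b4687288e624691ac2817 = true := by
  decide +kernel

def r_1865_2 : chkL rootF engF2 tB tA sB_287 sA_287 4 F_1865 [(256, 19, 3)]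
    0x105c1705c2e1381b05d168c4c68581714d1a234652698a85a83a4a134691a06c4b4a41e2a98a82e98a28534691a3881e05c391641b05c1712c1705c1b = true := by
  decide +kernel

def r_1865_3 : chkL rootF engF2 tB tA sB_287 sA_287 4 F_1865 [(256, 22, 8)]
    0x10784b = true := by
  decide +kernel

def r_1865_4 : chkL rootF engF2 tB tA sB_287 sA_287 4 F_1865 [(256, 30, 0)]
    0x11541b4683906c17 = true := by
  decide +kernel

theorem f_1865 (h : TabsF) : FrameF repsF 287 F_1865.f :=
  frame_of rfl c_1865 ((runs_of engOK r_1865_0).append ((runs_of engOK r_1865_1).append ((runs_of engOK r_1865_2).append ((runs_of engOK r_1865_3).append (runs_of engOK r_1865_4))))) (by decide +kernel) h.2 h.1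

def F_1866 : FrX :=
  ⟨0x600020801080810000c00401804101010010040040140008001020081240006004000820200420480100118020088002480008100040000140200a4020,
    0xa0, 1, 0x2042658695a2, 6,
    [(0xa0, 1), (0x637584a2, 4), (0x547690a1, 4), (0x64758390, 4), (0x547690a1, 4), (0x21647385, 4), (0x438690a2, 4), (0x64758390, 4), (0x438690a2, 4), (0x657483a1, 4), (0x64758390, 4), (0x21647385, 4)],
    [(0x2042658695a2, 6), (0x508397a2, 4), (0x21648790, 4), (0x53648097, 4), (0x21648790, 4), (0x738095a1, 4), (0x306485a2, 4), (0x53648097, 4), (0x306485a2, 4), (0x21537098, 4), (0x53648097, 4), (0x738095a1, 4)]⟩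

def c_1866 : frmChk tB tB F_1866 = true := by decide +kernel

def r_1866_0 : chkL rootF engF2 tB tB sB_287 sB_287 4 F_1866 [(511, 0, 0)]
    0x42e11d45c482e9480f03c391e00f18c364a817 = true := by
  decide +kernel

theorem f_1866 (h : TabsF) : FrameF repsF 287 F_1866.f :=
  frame_of rfl c_1866 (runs_of engOK r_1866_0) (by decide +kernel) h.2 h.2

def F_1867 : FrX :=
  ⟨0x2002000900044004000e02041000141000800040808001002080a00010212201000202001020080420c00412010008440040008008a000010008200a0410,
    0xa3, 1, 0x31405260768693a8, 8,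
    [(0xa3, 1), (0x208693a5, 4), (0x10548793, 4), (0x217693a4, 4), (0x208693a5, 4), (0x10548793, 4)],
    [(0x31405260768693a8, 8), (0x657192a8, 4), (0x206371a4, 4), (0x53718490, 4), (0x657192a8, 4), (0x206371a4, 4)]⟩

def c_1867 : frmChk tA tA F_1867 = true := by decide +kernel

def r_1867_0 : chkL rootF engF2 tA tA sA_287 sA_287 4 F_1867 [(511, 0, 0)]
    0x1234630ac3a0e46c = true := by
  decide +kernel

theorem f_1867 (h : TabsF) : FrameF repsF 287 F_1867.f :=
  frame_of rfl c_1867 (runs_of engOK r_1867_0) (by decide +kernel) h.1 h.1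

def F_1868 : FrX :=
  ⟨0x80080a000804040e0000210100200100000204088042100412000480008020200808040108800042081000001413000100004800a020802100840600400,
    0xa6, 1, 0x21405371a7, 5,
    [(0xa6, 1), (0x205396a8, 4), (0x10548796, 4), (0x214396a7, 4), (0x205396a8, 4), (0x10548796, 4)],
    [(0x21405371a7, 5), (0x41538692, 4), (0x307492a8, 4), (0x507192a6, 4), (0x41538692, 4), (0x307492a8, 4)]⟩

def c_1868 : frmChk tA tA F_1868 = true := by decide +kernel

def r_1868_0 : chkL rootF engF2 tA tA sA_287 sA_287 4 F_1868 [(511, 0, 0)]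
    0x10b41705c0f9197022c1e05c1703c1d2a40f05c5505e290ce150746605c4b11c1707474 = true := by
  decide +kernel

theorem f_1868 (h : TabsF) : FrameF repsF 287 F_1868.f :=
  frame_of rfl c_1868 (runs_of engOK r_1868_0) (by decide +kernel) h.1 h.1

def F_1869 : FrX :=
  ⟨0x482000044040440000c2040020009000182040002012040000900810080402008080438000208000040030508000002100082108108080840004800801,
    0xa0, 1, 0x314260748691a6, 7,
    [(0xa0, 1), (0x538690a2, 4), (0x548790a1, 4), (0x21437690, 4), (0x538690a2, 4), (0x548790a1, 4)],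
    [(0x314260748691a6, 7), (0x526470a1, 4), (0x758396a2, 4), (0x105283a7, 4), (0x758396a2, 4), (0x215094a7, 4), (0x647183a0, 4), (0x105283a7, 4), (0x647183a0, 4), (0x107296a5, 4), (0x105283a7, 4), (0x215094a7, 4)]⟩

def c_1869 : frmChk tA tB F_1869 = true := by decide +kernel

def r_1869_0 : chkL rootF engF2 tA tB sA_287 sB_287 4 F_1869 [(511, 0, 0)]
    0x1078950f01b06c1e1582b07a2982c8b = true := by
  decide +kernel

theorem f_1869 (h : TabsF) : FrameF repsF 287 F_1869.f :=
  frame_of rfl c_1869 (runs_of engOK r_1869_0) (by decide +kernel) h.1 h.2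

def F_1870 : FrX :=
  ⟨0x2002000900044004000e02041000141000800040810000081108004006000240220018020400048024021440800000101001820010008808004220008084,
    0xa3, 1, 0x52618196a0, 5,
    [(0xa3, 1), (0x208693a5, 4), (0x10548793, 4), (0x217693a4, 4), (0x208693a5, 4), (0x10548793, 4)],
    [(0x52618196a0, 5), (0x103296a5, 4), (0x104276a8, 4), (0x10438597, 4), (0x103296a5, 4), (0x104276a8, 4)]⟩

def c_1870 : frmChk tA tA F_1870 = true := by decide +kernel

def r_1870_0 : chkL rootF engF2 tA tA sA_287 sA_287 4 F_1870 [(511, 0, 0)]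
    0x4531384b12c360d85312c0f0b80f03c0f03c72 = true := by
  decide +kernel

theorem f_1870 (h : TabsF) : FrameF repsF 287 F_1870.f :=
  frame_of rfl c_1870 (runs_of engOK r_1870_0) (by decide +kernel) h.1 h.1

def F_1871 : FrX :=
  ⟨0x2002000900044004000e020410001410008000408008020800901001802021010000440010240404140200404010080080840080206000004040080a4040,
    0xa3, 1, 0x5161758093a0, 6,
    [(0xa3, 1), (0x208693a5, 4), (0x10548793, 4), (0x217693a4, 4), (0x208693a5, 4), (0x10548793, 4)],
    [(0x5161758093a0, 6), (0x407195a2, 4), (0x517483a6, 4), (0x54718390, 4), (0x517483a6, 4), (0x54627091, 4), (0x508394a2, 4), (0x54718390, 4), (0x508394a2, 4), (0x417590a6, 4), (0x54718390, 4), (0x54627091, 4)]⟩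

def c_1871 : frmChk tA tB F_1871 = true := by decide +kernel

def r_1871_0 : chkL rootF engF2 tA tB sA_287 sB_287 4 F_1871 [(511, 0, 0)]
    0x4cc1585a4d03906c2e06c65078360b85c0e42744c354c40f0e5831581d05c6c05d16c482709c1d2a81e = true := by
  decide +kernel

theorem f_1871 (h : TabsF) : FrameF repsF 287 F_1871.f :=
  frame_of rfl c_1871 (runs_of engOK r_1871_0) (by decide +kernel) h.1 h.2

def F_1872 : FrX :=
  ⟨0x482000044040440000c20400200090001820400100800801010001800400448048800008040404100002204080088000140010406000a00440200080c2,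
    0xa0, 1, 0x102050728790a3, 7,
    [(0xa0, 1), (0x538690a2, 4), (0x548790a1, 4), (0x21437690, 4), (0x538690a2, 4), (0x548790a1, 4)],
    [(0x102050728790a3, 7), (0x536197a2, 4), (0x42538190, 4), (0x537086a4, 4), (0x536197a2, 4), (0x42538190, 4)]⟩

def c_1872 : frmChk tA tA F_1872 = true := by decide +kernel

def r_1872_0 : chkL rootF engF2 tA tA sA_287 sA_287 4 F_1872 [(511, 0, 0)]
    0x41b03c1e06c1b0d40f0740f = true := by
  decide +kernel

theorem f_1872 (h : TabsF) : FrameF repsF 287 F_1872.f :=
  frame_of rfl c_1872 (runs_of engOK r_1872_0) (by decide +kernel) h.1 h.1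

def F_1873 : FrX :=
  ⟨0x1c21020000040440000020410001010000820408900800800008024002004040204040500000304000c0805c002100020800900841000202400a0200080,
    0x0, 0, 0x21437684, 4,
    [(0x0, 0), (0x205386a9, 4), (0x105487a9, 4), (0x214376a9, 4), (0x205386a9, 4), (0x105487a9, 4)],
    [(0x21437684, 4), (0x10657483, 4), (0x207685a9, 4), (0x436587a9, 4), (0x207685a9, 4), (0x21536487, 4), (0x107384a9, 4), (0x436587a9, 4), (0x107384a9, 4), (0x20437586, 4), (0x436587a9, 4), (0x21536487, 4)]⟩

def c_1873 : frmChk tA tB F_1873 = true := by decide +kernel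

def r_1873_0 : chkL rootF engF2 tA tB sA_287 sB_287 4 F_1873 [(255, 0, 0), (256, 0, 3)]
    0x1 = true := by
  decide +kernel

def r_1873_1 : chkL rootF engF2 tA tB sA_287 sB_287 4 F_1873 [(256, 3, 5)]
    0x41b = true := by
  decide +kernel

def r_1873_2 : chkL rootF engF2 tA tB sA_287 sB_287 4 F_1873 [(256, 8, 5)]
    0x124de02c8b15286c9190d1354c = true := by
  decide +kernel

def r_1873_3 : chkL rootF engF2 tA tB sA_287 sB_287 4 F_1873 [(256, 13, 5)]
    0x42e0ac2709c17 = true := by
  decide +kernel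

def r_1873_4 : chkL rootF engF2 tA tB sA_287 sB_287 4 F_1873 [(256, 18, 0)]
    0x45506c8d = true := by
  decide +kernel

theorem f_1873 (h : TabsF) : FrameF repsF 287 F_1873.f :=
  frame_of rfl c_1873 ((runs_of engOK r_1873_0).append ((runs_of engOK r_1873_1).append ((runs_of engOK r_1873_2).append ((runs_of engOK r_1873_3).append (runs_of engOK r_1873_4))))) (by decide +kernel) h.1 h.2

def F_1874 : FrX :=
  ⟨0x80080a000804040e000021010020010000020408900200080480080082400040205010100000310000c8001c00201002024010084001020240080808080,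
    0xa6, 1, 0x305365728098a3, 7,
    [(0xa6, 1), (0x205396a8, 4), (0x10548796, 4), (0x214396a7, 4), (0x205396a8, 4), (0x10548796, 4)],
    [(0x305365728098a3, 7), (0x538790a6, 4), (0x53648192, 4), (0x205371a4, 4), (0x538790a6, 4), (0x53648192, 4)]⟩

def c_1874 : frmChk tA tA F_1874 = true := by decide +kernel

def r_1874_0 : chkL rootF engF2 tA tA sA_287 sA_287 4 F_1874 [(511, 0, 0)]
    0x11343c0d40f03c3503c1d2562589722c862589721 = true := by
  decide +kernel

theorem f_1874 (h : TabsF) : FrameF repsF 287 F_1874.f :=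
  frame_of rfl c_1874 (runs_of engOK r_1874_0) (by decide +kernel) h.1 h.1

def F_1875 : FrX :=
  ⟨0x482000044040440000c2040020009000182040010080080104000208010044804400101001080120000440802020008008091000410224001110000610,
    0xa0, 1, 0x3142708297a4, 6,
    [(0xa0, 1), (0x538690a2, 4), (0x548790a1, 4), (0x21437690, 4), (0x538690a2, 4), (0x548790a1, 4)],
    [(0x3142708297a4, 6), (0x618795a4, 4), (0x207396a5, 4), (0x204195a6, 4), (0x207396a5, 4), (0x548391a6, 4), (0x206487a1, 4), (0x204195a6, 4), (0x206487a1, 4), (0x416573a9, 4), (0x204195a6, 4), (0x548391a6, 4)]⟩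

def c_1875 : frmChk tA tB F_1875 = true := by decide +kernel

def r_1875_0 : chkL rootF engF2 tA tB sA_287 sB_287 4 F_1875 [(511, 0, 0)]
    0x41b06c9306c1b0e4170b40f = true := by
  decide +kernel

theorem f_1875 (h : TabsF) : FrameF repsF 287 F_1875.f :=
  frame_of rfl c_1875 (runs_of engOK r_1875_0) (by decide +kernel) h.1 h.2

def F_1876 : FrX :=
  ⟨0x482000044040440000c2040020009000182040010020082004000404010801811000100922008280000400022210200840006040100100101100010042,
    0xa0, 1, 0x5063718194a2, 6,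
    [(0xa0, 1), (0x538690a2, 4), (0x548790a1, 4), (0x21437690, 4), (0x538690a2, 4), (0x548790a1, 4)],
    [(0x5063718194a2, 6), (0x106397a5, 4), (0x31428590, 4), (0x10427693, 4), (0x31428590, 4), (0x617093a8, 4), (0x427396a5, 4), (0x10427693, 4), (0x427396a5, 4), (0x30768591, 4), (0x10427693, 4), (0x617093a8, 4)]⟩

def c_1876 : frmChk tA tB F_1876 = true := by decide +kernel

def r_1876_0 : chkL rootF engF2 tA tB sA_287 sB_287 4 F_1876 [(511, 0, 0)]
    0x48d = true := by
  decide +kernel

theorem f_1876 (h : TabsF) : FrameF repsF 287 F_1876.f :=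
  frame_of rfl c_1876 (runs_of engOK r_1876_0) (by decide +kernel) h.1 h.2

def F_1877 : FrX :=
  ⟨0x482000044040440000c2040020009000182040002011048002020200040810010010100882000180040200080a20022008006000408480900024000804,
    0xa0, 1, 0x1030416280a8, 6,
    [(0xa0, 1), (0x538690a2, 4), (0x548790a1, 4), (0x21437690, 4), (0x538690a2, 4), (0x548790a1, 4)],
    [(0x1030416280a8, 6), (0x518693a2, 4), (0x508493a7, 4), (0x10647293, 4), (0x518693a2, 4), (0x508493a7, 4)]⟩

def c_1877 : frmChk tA tA F_1877 = true := by decide +kernel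

def r_1877_0 : chkL rootF engF2 tA tA sA_287 sA_287 4 F_1877 [(511, 0, 0)]
    0x10e81705e85a243a0d417 = true := by
  decide +kernel

theorem f_1877 (h : TabsF) : FrameF repsF 287 F_1877.f :=
  frame_of rfl c_1877 (runs_of engOK r_1877_0) (by decide +kernel) h.1 h.1

def F_1878 : FrX :=
  ⟨0x2002000900044004000e02041000141000800040808000204408040008208408200042000900011c1000004202042000200404a020000020040888020050,
    0xa3, 1, 0x415365728095a4, 7,
    [(0xa3, 1), (0x208693a5, 4), (0x10548793, 4), (0x217693a4, 4), (0x208693a5, 4), (0x10548793, 4)],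
    [(0x415365728095a4, 7), (0x538792a0, 4), (0x326184a9, 4), (0x506192a3, 4), (0x326184a9, 4), (0x527490a3, 4), (0x306187a5, 4), (0x506192a3, 4), (0x306187a5, 4), (0x508493a2, 4), (0x506192a3, 4), (0x527490a3, 4)]⟩

def c_1878 : frmChk tA tB F_1878 = true := by decide +kernel

def r_1878_0 : chkL rootF engF2 tA tB sA_287 sB_287 4 F_1878 [(255, 0, 0), (256, 0, 19)]
    0x1318a609c720ea459301703c1705c1b = true := by
  decide +kernel

def r_1878_1 : chkL rootF engF2 tA tB sA_287 sB_287 4 F_1878 [(256, 19, 0)]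
    0x1074170b856134470e81b = true := by
  decide +kernel

theorem f_1878 (h : TabsF) : FrameF repsF 287 F_1878.f :=
  frame_of rfl c_1878 ((runs_of engOK r_1878_0).append (runs_of engOK r_1878_1)) (by decide +kernel) h.1 h.2

def F_1879 : FrX :=
  ⟨0x1001040012008080000e00840800410008101000042100004040c12001000080048202003a00000800001012041804420000200206080088082101000040,
    0xa3, 1, 0x4260748598a5, 6,
    [(0xa3, 1), (0x207584a6, 4), (0x10547693, 4), (0x647593a8, 4), (0x10547693, 4), (0x216485a7, 4), (0x208693a4, 4), (0x647593a8, 4), (0x208693a4, 4), (0x106574a8, 4), (0x647593a8, 4), (0x216485a7, 4)],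
    [(0x4260748598a5, 6), (0x648590a3, 4), (0x618592a7, 4), (0x20417385, 4), (0x648590a3, 4), (0x618592a7, 4)]⟩

def c_1879 : frmChk tB tA F_1879 = true := by decide +kernel

def r_1879_0 : chkL rootF engF2 tB tA sB_287 sA_287 4 F_1879 [(511, 0, 0)]
    0x41d03c0f15946 = true := by
  decide +kernel

theorem f_1879 (h : TabsF) : FrameF repsF 287 F_1879.f :=
  frame_of rfl c_1879 (runs_of engOK r_1879_0) (by decide +kernel) h.2 h.1

def F_1880 : FrX :=
  ⟨0x600020801080810000c00401804101010010040010440020000228002800400800208812000201200000105080040c00404e001010800000c1004000a0,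
    0xa0, 1, 0x314052647195a6, 7,
    [(0xa0, 1), (0x637584a2, 4), (0x547690a1, 4), (0x64758390, 4), (0x547690a1, 4), (0x21647385, 4), (0x438690a2, 4), (0x64758390, 4), (0x438690a2, 4), (0x657483a1, 4), (0x64758390, 4), (0x21647385, 4)],
    [(0x314052647195a6, 7), (0x548693a1, 4), (0x207496a3, 4), (0x208193a6, 4), (0x207496a3, 4), (0x317598a6, 4), (0x205461a8, 4), (0x208193a6, 4), (0x205461a8, 4), (0x637481a9, 4), (0x208193a6, 4), (0x317598a6, 4)]⟩

def c_1880 : frmChk tB tB F_1880 = true := by decide +kernel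

def r_1880_0 : chkL rootF engF2 tB tB sB_287 sB_287 4 F_1880 [(511, 0, 0)]
    0x45517055515546a03969126078551705551554078170b82e14c1e0cc2e0781b = true := by
  decide +kernel

theorem f_1880 (h : TabsF) : FrameF repsF 287 F_1880.f :=
  frame_of rfl c_1880 (runs_of engOK r_1880_0) (by decide +kernel) h.2 h.2

def F_1881 : FrX :=
  ⟨0x482000044040440000c20400200090001820400100800801040c0100020021800800100804040410000220408002800018002310030001014220008004,
    0xa0, 1, 0x102061738691a6, 7,
    [(0xa0, 1), (0x538690a2, 4), (0x548790a1, 4), (0x21437690, 4), (0x538690a2, 4), (0x548790a1, 4)],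
    [(0x102061738691a6, 7), (0x214053a7, 4), (0x548692a3, 4), (0x537086a4, 4), (0x548692a3, 4), (0x507391a4, 4), (0x217486a0, 4), (0x537086a4, 4), (0x217486a0, 4), (0x437092a5, 4), (0x537086a4, 4), (0x507391a4, 4)]⟩

def c_1881 : frmChk tA tB F_1881 = true := by decide +kernel

def r_1881_0 : chkL rootF engF2 tA tB sA_287 sB_287 4 F_1881 [(511, 0, 0)]
    0x141c4b1680f12d4a0ac4b0ad1a05c2b = true := by
  decide +kernel

theorem f_1881 (h : TabsF) : FrameF repsF 287 F_1881.f :=
  frame_of rfl c_1881 (runs_of engOK r_1881_0) (by decide +kernel) h.1 h.2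

theorem cl_287 (h : TabsF) : ∀ f ∈ fr_287, FrameF repsF 287 f :=
  List.forall_mem_cons.2 ⟨f_1854 h, List.forall_mem_cons.2 ⟨f_1855 h, List.forall_mem_cons.2 ⟨f_1856 h, List.forall_mem_cons.2 ⟨f_1857 h, List.forall_mem_cons.2 ⟨f_1858 h, List.forall_mem_cons.2 ⟨f_1859 h, List.forall_mem_cons.2 ⟨f_1860 h, List.forall_mem_cons.2 ⟨f_1861 h, List.forall_mem_cons.2 ⟨f_1862 h, List.forall_mem_cons.2 ⟨f_1863 h, List.forall_mem_cons.2 ⟨f_1864 h, List.forall_mem_cons.2 ⟨f_1865 h, List.forall_mem_cons.2 ⟨f_1866 h, List.forall_mem_cons.2 ⟨f_1867 h, List.forall_mem_cons.2 ⟨f_1868 h, List.forall_mem_cons.2 ⟨f_1869 h, List.forall_mem_cons.2 ⟨f_1870 h, List.forall_mem_cons.2 ⟨f_1871 h, List.forall_mem_cons.2 ⟨f_1872 h, List.forall_mem_cons.2 ⟨f_1873 h, List.forall_mem_cons.2 ⟨f_1874 h, List.forall_mem_cons.2 ⟨f_1875 h, List.forall_mem_cons.2 ⟨f_1876 h, List.forall_mem_cons.2 ⟨f_1877 h, List.forall_mem_cons.2 ⟨f_1878 h, List.forall_mem_cons.2 ⟨f_1879 h, List.forall_mem_cons.2 ⟨f_1880 h, List.forall_mem_cons.2 ⟨f_1881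 h,
    fun _ h0 => absurd h0 List.not_mem_nil⟩⟩⟩⟩⟩⟩⟩⟩⟩⟩⟩⟩⟩⟩⟩⟩⟩⟩⟩⟩⟩⟩⟩⟩⟩⟩⟩⟩

/-- the classes finished in this module -/
theorem all_L16 (h : TabsF) : ∀ p ∈ ([(281, fr_281), (282, fr_282), (283, fr_283), (284, fr_284), (285, fr_285), (286, fr_286), (287, fr_287)] : List (ℕ × List ℕ)),
    ∀ f ∈ p.2, FrameF repsF p.1 f :=
  List.forall_mem_cons.2 ⟨cl_281 h, List.forall_mem_cons.2 ⟨cl_282 h, List.forall_mem_cons.2 ⟨cl_283 h, List.forall_mem_cons.2 ⟨cl_284 h, List.forall_mem_cons.2 ⟨cl_285 h, List.forall_mem_cons.2 ⟨cl_286 h, List.forall_mem_cons.2 ⟨cl_287 h, fun _ h0 => absurd h0 List.not_mem_nil⟩⟩⟩⟩⟩⟩⟩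

end Pool.Agent.Gen.TY.F
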