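import Pool.Agent.Helper20.TY.EngF
import Pool.Agent.Helper20.TY.TabG
import Pool.Agent.Gen.TY.FS.SufA
import Pool.Agent.Gen.TY.FS.SufB
import Pool.Agent.Gen.TY.FR.Dat

/-!
MP_8ee768_co, project TH-Y', stage F: frames.
-/

set_option autoImplicit false

namespace Pool.Agent.Gen.TY.F

open Pool.Agent.Helper79.CV
open Pool.Agent.Helper20.TY
open Pool.Agent.Helper20.TY.EngF
open Pool.Agent.Gen.TY.FS
open Pool.Agent.Gen.TY.FR

def F_2096 : FrX :=
  ⟨0x80080a000804040e00002101002001000002040881010208020010020042004040c0005010000410201000012620000a028082010010220202011080000,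
    0xa6, 1, 0x2141718197a5, 6,
    [(0xa6, 1), (0x205396a8, 4), (0x10548796, 4), (0x214396a7, 4), (0x205396a8, 4), (0x10548796, 4)],
    [(0x2141718197a5, 6), (0x105476a3, 4), (0x548097a2, 4), (0x32548196, 4), (0x105476a3, 4), (0x548097a2, 4)]⟩

def c_2096 : frmChk tA tA F_2096 = true := by decide +kernel

def r_2096_0 : chkL rootF engF2 tA tA sA_298 sA_298 4 F_2096 [(511, 0, 0)]
    0x4561648e074990b82e09c4b03c360da0b0ac2b0f0c3a8ac21581d = true := by
  decide +kernel

theorem f_2096 (h : TabsF) : FrameF repsF 298 F_2096.f :=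
  frame_of rfl c_2096 (runs_of engOK r_2096_0) (by decide +kernel) h.1 h.1

def F_2097 : FrX :=
  ⟨0x80080a000804040e000021010020010000020408810804002200100200202080080130008480020000808013204001400410000c0508088002110040000,
    0xa6, 1, 0x10213041738290a8, 8,
    [(0xa6, 1), (0x205396a8, 4), (0x10548796, 4), (0x214396a7, 4), (0x205396a8, 4), (0x10548796, 4)],
    [(0x10213041738290a8, 8), (0x307598a6, 4), (0x305294a1, 4), (0x30617284, 4), (0x307598a6, 4), (0x305294a1, 4)]⟩

def c_2097 : frmChk tA tA F_2097 = true := by decide +kernel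

def r_2097_0 : chkL rootF engF2 tA tA sA_298 sA_298 4 F_2097 [(511, 0, 0)]
    0x10d41d1a8741b0741d06c1b2540b8d1aa055254551b0d10b80f03ccc0b62caa10e2392c12d0e0f330c8b8298a328a6233c01d = true := by
  decide +kernel

theorem f_2097 (h : TabsF) : FrameF repsF 298 F_2097.f :=
  frame_of rfl c_2097 (runs_of engOK r_2097_0) (by decide +kernel) h.1 h.1

def F_2098 : FrX :=
  ⟨0x2002000900044004000e0204100014100080004080040044801020060080088100010012000208008043800840100000a0402200004480004400000c6040,
    0xa3, 1, 0x2160758394a3, 6,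
    [(0xa3, 1), (0x208693a5, 4), (0x10548793, 4), (0x217693a4, 4), (0x208693a5, 4), (0x10548793, 4)],
    [(0x2160758394a3, 6), (0x306184a7, 4), (0x53628497, 4), (0x215084a9, 4), (0x306184a7, 4), (0x53628497, 4)]⟩

def c_2098 : frmChk tA tA F_2098 = true := by decide +kernel

def r_2098_0 : chkL rootF engF2 tA tA sA_298 sA_298 4 F_2098 [(511, 0, 0)]
    0x1154350ce3109c56946c290c2eb082d15856 = true := by
  decide +kernel

theorem f_2098 (h : TabsF) : FrameF repsF 298 F_2098.f :=
  frame_of rfl c_2098 (runs_of engOK r_2098_0) (by decide +kernel) h.1 h.1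

def F_2099 : FrX :=
  ⟨0x80080a000804040e000021010020010000020408a00041004800248008120000100804000820204800208006010024081000000c0402000444322020000,
    0xa6, 1, 0x1042516075a1, 6,
    [(0xa6, 1), (0x205396a8, 4), (0x10548796, 4), (0x214396a7, 4), (0x205396a8, 4), (0x10548796, 4)],
    [(0x1042516075a1, 6), (0x31647082, 4), (0x107295a6, 4), (0x21708395, 4), (0x107295a6, 4), (0x213087a4, 4), (0x32648195, 4), (0x21708395, 4), (0x32648195, 4), (0x207183a6, 4), (0x21708395, 4), (0x213087a4, 4)]⟩

def c_2099 : frmChk tA tB F_2099 = true := by decide +kernel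

def r_2099_0 : chkL rootF engF2 tA tB sA_298 sB_298 4 F_2099 [(511, 0, 0)]
    0x42788c5503ca314c17074394d08d078780d6343140f = true := by
  decide +kernel

theorem f_2099 (h : TabsF) : FrameF repsF 298 F_2099.f :=
  frame_of rfl c_2099 (runs_of engOK r_2099_0) (by decide +kernel) h.1 h.2

def F_2100 : FrX :=
  ⟨0x482000044040440000c20400200090001820400200010420001001100804228080800000880050080800053020011401000002c0080801010010200201,
    0xa0, 1, 0x20324154748092a6, 8,
    [(0xa0, 1), (0x538690a2, 4), (0x548790a1, 4), (0x21437690, 4), (0x538690a2, 4), (0x548790a1, 4)],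
    [(0x20324154748092a6, 8), (0x106398a2, 4), (0x52637184, 4), (0x637094a5, 4), (0x106398a2, 4), (0x52637184, 4)]⟩

def c_2100 : frmChk tA tA F_2100 = true := by decide +kernel

def r_2100_0 : chkL rootF engF2 tA tA sA_298 sA_298 4 F_2100 [(511, 0, 0)]
    0x50d0e4360d82b4d02b0ac2b0ac2b0792905c2705c1705f051c836868990ac39 = true := by
  decide +kernel

theorem f_2100 (h : TabsF) : FrameF repsF 298 F_2100.f :=
  frame_of rfl c_2100 (runs_of engOK r_2100_0) (by decide +kernel) h.1 h.1

def F_2101 : FrX :=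
  ⟨0x482000044040440000c204002000900018204002000090a000200084040882020020000102008280040101080201140040005010108004001080808208,
    0xa0, 1, 0x203240506374a5, 7,
    [(0xa0, 1), (0x538690a2, 4), (0x548790a1, 4), (0x21437690, 4), (0x538690a2, 4), (0x548790a1, 4)],
    [(0x203240506374a5, 7), (0x538094a6, 4), (0x518294a7, 4), (0x20317694, 4), (0x538094a6, 4), (0x518294a7, 4)]⟩

def c_2101 : frmChk tA tA F_2101 = true := by decide +kernel

def r_2101_0 : chkL rootF engF2 tA tA sA_298 sA_298 4 F_2101 [(511, 0, 0)]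
    0x456156151c8170b80f0783a0783a0e81e1640f03c2b = true := by
  decide +kernel

theorem f_2101 (h : TabsF) : FrameF repsF 298 F_2101.f :=
  frame_of rfl c_2101 (runs_of engOK r_2101_0) (by decide +kernel) h.1 h.1

def F_2102 : FrX :=
  ⟨0x482000044040440000c204002000900018204000080830080810000804008420001202000490001200081008400040021400800220090404002001040a,
    0xa0, 1, 0x43617283a0, 5,
    [(0xa0, 1), (0x538690a2, 4), (0x548790a1, 4), (0x21437690, 4), (0x538690a2, 4), (0x548790a1, 4)],
    [(0x43617283a0, 5), (0x435281a7, 4), (0x215390a6, 4), (0x31528490, 4), (0x215390a6, 4), (0x31547682, 4), (0x418390a7, 4), (0x31528490, 4), (0x418390a7, 4), (0x325184a6, 4), (0x31528490, 4), (0x31547682, 4)]⟩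

def c_2102 : frmChk tA tB F_2102 = true := by decide +kernel

def r_2102_0 : chkL rootF engF2 tA tB sA_298 sB_298 4 F_2102 [(511, 0, 0)]
    0x11681b2701e139194701e078270d83c09c270d827 = true := by
  decide +kernel

theorem f_2102 (h : TabsF) : FrameF repsF 298 F_2102.f :=
  frame_of rfl c_2102 (runs_of engOK r_2102_0) (by decide +kernel) h.1 h.2

def F_2103 : FrX :=
  ⟨0x80080a000804040e0000210100200100000204088808400048202080081000001108042000062008088080021000040e0420080004080804400a0020010,
    0xa6, 1, 0x3150627181a0, 6,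
    [(0xa6, 1), (0x205396a8, 4), (0x10548796, 4), (0x214396a7, 4), (0x205396a8, 4), (0x10548796, 4)],
    [(0x3150627181a0, 6), (0x107295a6, 4), (0x407395a8, 4), (0x32418695, 4), (0x107295a6, 4), (0x407395a8, 4)]⟩

def c_2103 : frmChk tA tA F_2103 = true := by decide +kernel

def r_2103_0 : chkL rootF engF2 tA tA sA_298 sA_298 4 F_2103 [(511, 0, 0)]
    0x44b14c2e09ccc1947818c8e31427 = true := by
  decide +kernel

theorem f_2103 (h : TabsF) : FrameF repsF 298 F_2103.f :=
  frame_of rfl c_2103 (runs_of engOK r_2103_0) (by decide +kernel) h.1 h.1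

def F_2104 : FrX :=
  ⟨0x1c21020000040440000020410001010000820408a000400800002420080202001050010040062108088004821000440e008008000440000440210080010,
    0x0, 0, 0x216574, 3,
    [(0x0, 0), (0x205386a9, 4), (0x105487a9, 4), (0x214376a9, 4), (0x205386a9, 4), (0x105487a9, 4)],
    [(0x216574, 3), (0x106385a9, 4), (0x207684a9, 4), (0x215473a9, 4), (0x106385a9, 4), (0x207684a9, 4)]⟩

def c_2104 : frmChk tA tA F_2104 = true := by decide +kernel

def r_2104_0 : chkL rootF engF2 tA tA sA_298 sA_298 4 F_2104 [(255, 0, 0), (256, 0, 12)]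
    0x40f = true := by
  decide +kernel

def r_2104_1 : chkL rootF engF2 tA tA sA_298 sA_298 4 F_2104 [(256, 12, 7)]
    0x1 = true := by
  decide +kernel

def r_2104_2 : chkL rootF engF2 tA tA sA_298 sA_298 4 F_2104 [(256, 19, 5)]
    0x1 = true := by
  decide +kernel

def r_2104_3 : chkL rootF engF2 tA tA sA_298 sA_298 4 F_2104 [(256, 24, 3)]
    0x10f03c = true := by
  decide +kernel

def r_2104_4 : chkL rootF engF2 tA tA sA_298 sA_298 4 F_2104 [(256, 27, 0)]
    0x111c5c = true := by
  decide +kernel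

theorem f_2104 (h : TabsF) : FrameF repsF 298 F_2104.f :=
  frame_of rfl c_2104 ((runs_of engOK r_2104_0).append ((runs_of engOK r_2104_1).append ((runs_of engOK r_2104_2).append ((runs_of engOK r_2104_3).append (runs_of engOK r_2104_4))))) (by decide +kernel) h.1 h.1

def F_2105 : FrX :=
  ⟨0x482000044040440000c20400200090001820400200008820001001100804228200200000220810080800410020020c0106002001880402010010008210,
    0xa0, 1, 0x3141758294a6, 6,
    [(0xa0, 1), (0x538690a2, 4), (0x548790a1, 4), (0x21437690, 4), (0x538690a2, 4), (0x548790a1, 4)],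
    [(0x3141758294a6, 6), (0x758092a1, 4), (0x406397a5, 4), (0x216375a9, 4), (0x406397a5, 4), (0x517284a9, 4), (0x638091a2, 4), (0x216375a9, 4), (0x638091a2, 4), (0x214095a7, 4), (0x216375a9, 4), (0x517284a9, 4)]⟩

def c_2105 : frmChk tA tB F_2105 = true := by decide +kernel

def r_2105_0 : chkL rootF engF2 tA tB sA_298 sB_298 4 F_2105 [(511, 0, 0)]
    0x10d4c30d80f12c5512c560740f = true := by
  decide +kernel

theorem f_2105 (h : TabsF) : FrameF repsF 298 F_2105.f :=
  frame_of rfl c_2105 (runs_of engOK r_2105_0) (by decide +kernel) h.1 h.2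

def F_2106 : FrX :=
  ⟨0x2002000900044004000e02041000141000800040802000224001104102004040200080210080004800880202020001040100001011068020101040c08200,
    0xa3, 1, 0x30425461748290a2, 8,
    [(0xa3, 1), (0x208693a5, 4), (0x10548793, 4), (0x217693a4, 4), (0x208693a5, 4), (0x10548793, 4)],
    [(0x30425461748290a2, 8), (0x204183a9, 4), (0x54728396, 4), (0x517083a6, 4), (0x204183a9, 4), (0x54728396, 4)]⟩

def c_2106 : frmChk tA tA F_2106 = true := by decide +kernel

def r_2106_0 : chkL rootF engF2 tA tA sA_298 sA_298 4 F_2106 [(511, 0, 0)]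
    0x106c270e817 = true := by
  decide +kernel

theorem f_2106 (h : TabsF) : FrameF repsF 298 F_2106.f :=
  frame_of rfl c_2106 (runs_of engOK r_2106_0) (by decide +kernel) h.1 h.1

def F_2107 : FrX :=
  ⟨0x482000044040440000c2040020009000182040000900808004200008088082020200400904000202000100880204144010005110102000401200808008,
    0xa0, 1, 0x102140718791a5, 7,
    [(0xa0, 1), (0x538690a2, 4), (0x548790a1, 4), (0x21437690, 4), (0x538690a2, 4), (0x548790a1, 4)],
    [(0x102140718791a5, 7), (0x406275a3, 4), (0x758294a1, 4), (0x31758690, 4), (0x406275a3, 4), (0x758294a1, 4)]⟩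

def c_2107 : frmChk tA tA F_2107 = true := by decide +kernel

def r_2107_0 : chkL rootF engF2 tA tA sA_298 sA_298 4 F_2107 [(511, 0, 0)]
    0x10e83a05c1b0ac0f = true := by
  decide +kernel

theorem f_2107 (h : TabsF) : FrameF repsF 298 F_2107.f :=
  frame_of rfl c_2107 (runs_of engOK r_2107_0) (by decide +kernel) h.1 h.1

def F_2108 : FrX :=
  ⟨0x482000044040440000c204002000900018204000084090002000080a000880220210008104100110400840081000400214008002280800102020008404,
    0xa0, 1, 0x205062768196a2, 7,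
    [(0xa0, 1), (0x538690a2, 4), (0x548790a1, 4), (0x21437690, 4), (0x538690a2, 4), (0x548790a1, 4)],
    [(0x205062768196a2, 7), (0x204193a5, 4), (0x42768590, 4), (0x20317694, 4), (0x42768590, 4), (0x213094a8, 4), (0x437691a5, 4), (0x20317694, 4), (0x437691a5, 4), (0x31408592, 4), (0x20317694, 4), (0x213094a8, 4)]⟩

def c_2108 : frmChk tA tB F_2108 = true := by decide +kernel

def r_2108_0 : chkL rootF engF2 tA tB sA_298 sB_298 4 F_2108 [(511, 0, 0)]
    0x105c2e1544e03c1e03c0f0cc0f05c330781e = true := by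
  decide +kernel

theorem f_2108 (h : TabsF) : FrameF repsF 298 F_2108.f :=
  frame_of rfl c_2108 (runs_of engOK r_2108_0) (by decide +kernel) h.1 h.2

def F_2109 : FrX :=
  ⟨0x482000044040440000c2040020009000182040000821022004200008080021010202010020080204100400600204008880010140090102100100010082,
    0xa0, 1, 0x21304052637481a5, 8,
    [(0xa0, 1), (0x538690a2, 4), (0x548790a1, 4), (0x21437690, 4), (0x538690a2, 4), (0x548790a1, 4)],
    [(0x21304052637481a5, 8), (0x205491a6, 4), (0x328491a7, 4), (0x30768591, 4), (0x205491a6, 4), (0x328491a7, 4)]⟩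

def c_2109 : frmChk tA tA F_2109 = true := by decide +kernel

def r_2109_0 : chkL rootF engF2 tA tA sA_298 sA_298 4 F_2109 [(511, 0, 0)]
    0x10ae1c0cc55 = true := by
  decide +kernel

theorem f_2109 (h : TabsF) : FrameF repsF 298 F_2109.f :=
  frame_of rfl c_2109 (runs_of engOK r_2109_0) (by decide +kernel) h.1 h.1

def F_2110 : FrX :=
  ⟨0x2002000900044004000e02041000141000800040800404008101400400820801200100104082001008088004421001800001202040440100101200041200,
    0xa3, 1, 0x3252768192a7, 6,
    [(0xa3, 1), (0x208693a5, 4), (0x10548793, 4), (0x217693a4, 4), (0x208693a5, 4), (0x10548793, 4)],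
    [(0x3252768192a7, 6), (0x417290a3, 4), (0x436580a7, 4), (0x216574a3, 4), (0x436580a7, 4), (0x317498a2, 4), (0x42657190, 4), (0x216574a3, 4), (0x42657190, 4), (0x217380a4, 4), (0x216574a3, 4), (0x317498a2, 4)]⟩

def c_2110 : frmChk tA tB F_2110 = true := by decide +kernel

def r_2110_0 : chkL rootF engF2 tA tB sA_298 sB_298 4 F_2110 [(511, 0, 0)]
    0x44b1987111c6c0d41b0f08d03ec421c1b1a86c = true := by
  decide +kernel

theorem f_2110 (h : TabsF) : FrameF repsF 298 F_2110.f :=
  frame_of rfl c_2110 (runs_of engOK r_2110_0) (by decide +kernel) h.1 h.2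

def F_2111 : FrX :=
  ⟨0x1c2102000004044000002041000101000082040884200080001400008000c0003101400091001001200020802450280200404a0200900010008a0000010,
    0x0, 0, 0x206384, 3,
    [(0x0, 0), (0x205386a9, 4), (0x105487a9, 4), (0x214376a9, 4), (0x205386a9, 4), (0x105487a9, 4)],
    [(0x206384, 3), (0x204365a9, 4), (0x217485a9, 4), (0x107386a9, 4), (0x204365a9, 4), (0x217485a9, 4)]⟩

def c_2111 : frmChk tA tA F_2111 = true := by decide +kernel

def r_2111_0 : chkL rootF engF2 tA tA sA_298 sA_298 4 F_2111 [(255, 0, 0), (256, 0, 8)]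
    0x5070b43311c1705c56 = true := by
  decide +kernel

def r_2111_1 : chkL rootF engF2 tA tA sA_298 sA_298 4 F_2111 [(256, 8, 5)]
    0x1 = true := by
  decide +kernel

def r_2111_2 : chkL rootF engF2 tA tA sA_298 sA_298 4 F_2111 [(256, 13, 3)]
    0x45305c17 = true := by
  decide +kernel

def r_2111_3 : chkL rootF engF2 tA tA sA_298 sA_298 4 F_2111 [(256, 16, 7)]
    0x1 = true := by
  decide +kernel

def r_2111_4 : chkL rootF engF2 tA tA sA_298 sA_298 4 F_2111 [(256, 23, 0)]
    0x1 = true := by
  decide +kernel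

theorem f_2111 (h : TabsF) : FrameF repsF 298 F_2111.f :=
  frame_of rfl c_2111 ((runs_of engOK r_2111_0).append ((runs_of engOK r_2111_1).append ((runs_of engOK r_2111_2).append ((runs_of engOK r_2111_3).append (runs_of engOK r_2111_4))))) (by decide +kernel) h.1 h.1

def F_2112 : FrX :=
  ⟨0x2002000900044004000e02041000141000800040810000082081004101008402020005000810810812000208020402802084048001080000040880044040,
    0xa3, 1, 0x20327491a7, 5,
    [(0xa3, 1), (0x208693a5, 4), (0x10548793, 4), (0x217693a4, 4), (0x208693a5, 4), (0x10548793, 4)],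
    [(0x20327491a7, 5), (0x32415086, 4), (0x417592a8, 4), (0x417093a6, 4), (0x32415086, 4), (0x417592a8, 4)]⟩

def c_2112 : frmChk tA tA F_2112 = true := by decide +kernel

def r_2112_0 : chkL rootF engF2 tA tA sA_298 sA_298 4 F_2112 [(511, 0, 0)]
    0x103c6c1344d1e08e078335481e0e41b0d40f0d42e = true := by
  decide +kernel

theorem f_2112 (h : TabsF) : FrameF repsF 298 F_2112.f :=
  frame_of rfl c_2112 (runs_of engOK r_2112_0) (by decide +kernel) h.1 h.1

def F_2113 : FrX :=
  ⟨0x80080a000804040e00002101002001000002040882200002081400404024000030500000a1001001200800002450280200008a020003001000a02800010,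
    0xa6, 1, 0x65718297a2, 5,
    [(0xa6, 1), (0x205396a8, 4), (0x10548796, 4), (0x214396a7, 4), (0x205396a8, 4), (0x10548796, 4)],
    [(0x65718297a2, 5), (0x425396a0, 4), (0x64708195, 4), (0x32548196, 4), (0x64708195, 4), (0x546293a7, 4), (0x435281a0, 4), (0x32548196, 4), (0x435281a0, 4), (0x32657094, 4), (0x32548196, 4), (0x546293a7, 4)]⟩

def c_2113 : frmChk tA tB F_2113 = true := by decide +kernel

def r_2113_0 : chkL rootF engF2 tA tB sA_298 sB_298 4 F_2113 [(511, 0, 0)]
    0x46505c177091a0b8535482e0e8330d8362c81b06c723505c0ba0e8982709c17 = true := by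
  decide +kernel

theorem f_2113 (h : TabsF) : FrameF repsF 298 F_2113.f :=
  frame_of rfl c_2113 (runs_of engOK r_2113_0) (by decide +kernel) h.1 h.2

def F_2114 : FrX :=
  ⟨0x482000044040440000c20400200090001820400200008820001001100804228200200000220810080800410020020c01000c20c0080402010010200201,
    0xa0, 1, 0x3141758294a6, 6,
    [(0xa0, 1), (0x538690a2, 4), (0x548790a1, 4), (0x21437690, 4), (0x538690a2, 4), (0x548790a1, 4)],
    [(0x3141758294a6, 6), (0x758092a1, 4), (0x406397a5, 4), (0x216375a9, 4), (0x406397a5, 4), (0x517284a9, 4), (0x638091a2, 4), (0x216375a9, 4), (0x638091a2, 4), (0x214095a7, 4), (0x216375a9, 4), (0x517284a9, 4)]⟩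

def c_2114 : frmChk tA tB F_2114 = true := by decide +kernel

def r_2114_0 : chkL rootF engF2 tA tB sA_298 sB_298 4 F_2114 [(511, 0, 0)]
    0x10b82e0f017 = true := by
  decide +kernel

theorem f_2114 (h : TabsF) : FrameF repsF 298 F_2114.f :=
  frame_of rfl c_2114 (runs_of engOK r_2114_0) (by decide +kernel) h.1 h.2

def F_2115 : FrX :=
  ⟨0x80080a000804040e000021010020010000020408880840004820208008100000110804230000200808008002110004080420080c04080804440a0020000,
    0xa6, 1, 0x3043516082a1, 6,
    [(0xa6, 1), (0x205396a8, 4), (0x10548796, 4), (0x214396a7, 4), (0x205396a8, 4), (0x10548796, 4)],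
    [(0x3043516082a1, 6), (0x32418695, 4), (0x107295a6, 4), (0x407395a8, 4), (0x32418695, 4), (0x107295a6, 4)]⟩

def c_2115 : frmChk tA tA F_2115 = true := by decide +kernel

def r_2115_0 : chkL rootF engF2 tA tA sA_298 sA_298 4 F_2115 [(511, 0, 0)]
    0x45903c931c866 = true := by
  decide +kernel

theorem f_2115 (h : TabsF) : FrameF repsF 298 F_2115.f :=
  frame_of rfl c_2115 (runs_of engOK r_2115_0) (by decide +kernel) h.1 h.1

def F_2116 : FrX :=
  ⟨0x482000044040440000c2040020009000182040000a00100820000808040884220010008104100510000840081000400214008002200804102020008404,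
    0xa0, 1, 0x2031425362708192a0, 9,
    [(0xa0, 1), (0x538690a2, 4), (0x548790a1, 4), (0x21437690, 4), (0x538690a2, 4), (0x548790a1, 4)],
    [(0x2031425362708192a0, 9), (0x435176a9, 4), (0x103276a8, 4), (0x42507698, 4), (0x435176a9, 4), (0x103276a8, 4)]⟩

def c_2116 : frmChk tA tA F_2116 = true := by decide +kernel

def r_2116_0 : chkL rootF engF2 tA tA sA_298 sA_298 4 F_2116 [(511, 0, 0)]
    0x40f03c8e1541ea0d8a = true := by
  decide +kernel

theorem f_2116 (h : TabsF) : FrameF repsF 298 F_2116.f :=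
  frame_of rfl c_2116 (runs_of engOK r_2116_0) (by decide +kernel) h.1 h.1

def F_2117 : FrX :=
  ⟨0x482000044040440000c2040020009000182040000900808000a000800c0082020020400904000202000100880204140410005110102004001200808008,
    0xa0, 1, 0x314054627292a4, 7,
    [(0xa0, 1), (0x538690a2, 4), (0x548790a1, 4), (0x21437690, 4), (0x538690a2, 4), (0x548790a1, 4)],
    [(0x314054627292a4, 7), (0x216094a8, 4), (0x436275a0, 4), (0x607581a2, 4), (0x436275a0, 4), (0x618093a2, 4), (0x758294a1, 4), (0x607581a2, 4), (0x758294a1, 4), (0x204381a6, 4), (0x607581a2, 4), (0x618093a2, 4)]⟩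

def c_2117 : frmChk tA tB F_2117 = true := by decide +kernel

def r_2117_0 : chkL rootF engF2 tA tB sA_298 sB_298 4 F_2117 [(511, 0, 0)]
    0x10d80f = true := by
  decide +kernel

theorem f_2117 (h : TabsF) : FrameF repsF 298 F_2117.f :=
  frame_of rfl c_2117 (runs_of engOK r_2117_0) (by decide +kernel) h.1 h.2

def F_2118 : FrX :=
  ⟨0x1001040012008080000e0084080041000810100006000002420002810428004480000020020003082002200a010420022000808200002001084080210108,
    0xa3, 1, 0x30405262758696a3, 8,
    [(0xa3, 1), (0x207584a6, 4), (0x10547693, 4), (0x647593a8, 4), (0x10547693, 4), (0x216485a7, 4), (0x208693a4, 4), (0x647593a8, 4), (0x208693a4, 4), (0x106574a8, 4), (0x647593a8, 4), (0x216485a7, 4)],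
    [(0x30405262758696a3, 8), (0x648095a7, 4), (0x41527380, 4), (0x618092a3, 4), (0x648095a7, 4), (0x41527380, 4)]⟩

def c_2118 : frmChk tB tA F_2118 = true := by decide +kernel

def r_2118_0 : chkL rootF engF2 tB tA sB_298 sA_298 4 F_2118 [(511, 0, 0)]
    0x10b40f156c21a8aa0ac17 = true := by
  decide +kernel

theorem f_2118 (h : TabsF) : FrameF repsF 298 F_2118.f :=
  frame_of rfl c_2118 (runs_of engOK r_2118_0) (by decide +kernel) h.2 h.1

def F_2119 : FrX :=
  ⟨0x1001040012008080000e00840800410008101000040420084120010040010804804000104200012000020048444000120010802005004440404100200048,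
    0xa3, 1, 0x32406272a3, 5,
    [(0xa3, 1), (0x207584a6, 4), (0x10547693, 4), (0x647593a8, 4), (0x10547693, 4), (0x216485a7, 4), (0x208693a4, 4), (0x647593a8, 4), (0x208693a4, 4), (0x106574a8, 4), (0x647593a8, 4), (0x216485a7, 4)],
    [(0x32406272a3, 5), (0x748392a5, 4), (0x41508692, 4), (0x637192a0, 4), (0x748392a5, 4), (0x41508692, 4)]⟩

def c_2119 : frmChk tB tA F_2119 = true := by decide +kernel

def r_2119_0 : chkL rootF engF2 tB tA sB_298 sA_298 4 F_2119 [(511, 0, 0)]
    0x11381705c0f09c1e09c1e05c270cc0f0d4c5324cc0e88d = true := by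
  decide +kernel

theorem f_2119 (h : TabsF) : FrameF repsF 298 F_2119.f :=
  frame_of rfl c_2119 (runs_of engOK r_2119_0) (by decide +kernel) h.2 h.1

def F_2120 : FrX :=
  ⟨0x1001040012008080000e008408004100081010000408200840a001002001080480400020420000a000020048444000120010802006004440404100200048,
    0xa3, 1, 0x32417287a3, 5,
    [(0xa3, 1), (0x207584a6, 4), (0x10547693, 4), (0x647593a8, 4), (0x10547693, 4), (0x216485a7, 4), (0x208693a4, 4), (0x647593a8, 4), (0x208693a4, 4), (0x106574a8, 4), (0x647593a8, 4), (0x216485a7, 4)],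
    [(0x32417287a3, 5), (0x317085a6, 4), (0x40518692, 4), (0x618592a3, 4), (0x40518692, 4), (0x536174a8, 4), (0x637092a1, 4), (0x618592a3, 4), (0x637092a1, 4), (0x406581a3, 4), (0x618592a3, 4), (0x536174a8, 4)]⟩

def c_2120 : frmChk tB tB F_2120 = true := by decide +kernel

def r_2120_0 : chkL rootF engF2 tB tB sB_298 sB_298 4 F_2120 [(511, 0, 0)]
    0x40f03e0b134332c8350b81e03c4e1a6380b85a298330b427 = true := by
  decide +kernel

theorem f_2120 (h : TabsF) : FrameF repsF 298 F_2120.f :=
  frame_of rfl c_2120 (runs_of engOK r_2120_0) (by decide +kernel) h.2 h.2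

def F_2121 : FrX :=
  ⟨0x80080a000804040e0000210100200100000204089008000048400140012002801080200080208200008080108040280004100084060050a100002240080,
    0xa6, 1, 0x205062708396a0, 7,
    [(0xa6, 1), (0x205396a8, 4), (0x10548796, 4), (0x214396a7, 4), (0x205396a8, 4), (0x10548796, 4)],
    [(0x205062708396a0, 7), (0x708293a6, 4), (0x425370a1, 4), (0x61708495, 4), (0x708293a6, 4), (0x425370a1, 4)]⟩

def c_2121 : frmChk tA tA F_2121 = true := by decide +kernel

def r_2121_0 : chkL rootF engF2 tA tA sA_298 sA_298 4 F_2121 [(255, 0, 0), (256, 0, 13)]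
    0x130c1e3447105c171c4a9498711c41709c272a40f3181b1654605c0f03c6511c470748714c1e0b82e0b82ea280f170391702709c0f = true := by
  decide +kernel

def r_2121_1 : chkL rootF engF2 tA tA sA_298 sA_298 4 F_2121 [(256, 13, 0)]
    0x40f0b80f22c932e0a90e42b09c3a0e41e21e23a882709c27 = true := by
  decide +kernel

theorem f_2121 (h : TabsF) : FrameF repsF 298 F_2121.f :=
  frame_of rfl c_2121 ((runs_of engOK r_2121_0).append (runs_of engOK r_2121_1)) (by decide +kernel) h.1 h.1

def F_2122 : FrX :=
  ⟨0x2002000900044004000e020410001410008000408010004180200012000121081000202009020010400800090004008020140020204804c8002100040050,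
    0xa3, 1, 0x435160708091a6, 7,
    [(0xa3, 1), (0x208693a5, 4), (0x10548793, 4), (0x217693a4, 4), (0x208693a5, 4), (0x10548793, 4)],
    [(0x435160708091a6, 7), (0x617382a4, 4), (0x315098a6, 4), (0x506174a3, 4), (0x315098a6, 4), (0x647192a3, 4), (0x435082a7, 4), (0x506174a3, 4), (0x435082a7, 4), (0x637498a1, 4), (0x506174a3, 4), (0x647192a3, 4)]⟩

def c_2122 : frmChk tA tB F_2122 = true := by decide +kernel

def r_2122_0 : chkL rootF engF2 tA tB sA_298 sB_298 4 F_2122 [(511, 0, 0)]
    0x42d09c4b11c663c13814c270cc2d06c990d83a = true := by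
  decide +kernel

theorem f_2122 (h : TabsF) : FrameF repsF 298 F_2122.f :=
  frame_of rfl c_2122 (runs_of engOK r_2122_0) (by decide +kernel) h.1 h.2

def F_2123 : FrX :=
  ⟨0x80080a000804040e000021010020010000020408a6000400080024000414008000401080400405008080040a02002408120100041000420004805080040,
    0xa6, 1, 0x3041547298a8, 6,
    [(0xa6, 1), (0x205396a8, 4), (0x10548796, 4), (0x214396a7, 4), (0x205396a8, 4), (0x10548796, 4)],
    [(0x3041547298a8, 6), (0x216073a5, 4), (0x43516298, 4), (0x216598a0, 4), (0x43516298, 4), (0x206574a1, 4), (0x507398a6, 4), (0x216598a0, 4), (0x507398a6, 4), (0x435261a0, 4), (0x216598a0, 4), (0x206574a1, 4)]⟩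

def c_2123 : frmChk tA tB F_2123 = true := by decide +kernel

def r_2123_0 : chkL rootF engF2 tA tB sA_298 sB_298 4 F_2123 [(255, 0, 0), (256, 0, 10)]
    0x184e52c48391648d2340f05c4e = true := by
  decide +kernel

def r_2123_1 : chkL rootF engF2 tA tB sA_298 sB_298 4 F_2123 [(256, 10, 18)]
    0x45688c55 = true := by
  decide +kernel

def r_2123_2 : chkL rootF engF2 tA tB sA_298 sB_298 4 F_2123 [(256, 28, 0)]
    0x43a1583a03c0f = true := by
  decide +kernel

theorem f_2123 (h : TabsF) : FrameF repsF 298 F_2123.f :=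
  frame_of rfl c_2123 ((runs_of engOK r_2123_0).append ((runs_of engOK r_2123_1).append (runs_of engOK r_2123_2))) (by decide +kernel) h.1 h.2

theorem cl_298 (h : TabsF) : ∀ f ∈ fr_298, FrameF repsF 298 f :=
  List.forall_mem_cons.2 ⟨f_2096 h, List.forall_mem_cons.2 ⟨f_2097 h, List.forall_mem_cons.2 ⟨f_2098 h, List.forall_mem_cons.2 ⟨f_2099 h, List.forall_mem_cons.2 ⟨f_2100 h, List.forall_mem_cons.2 ⟨f_2101 h, List.forall_mem_cons.2 ⟨f_2102 h, List.forall_mem_cons.2 ⟨f_2103 h, List.forall_mem_cons.2 ⟨f_2104 h, List.forall_mem_cons.2 ⟨f_2105 h, List.forall_mem_cons.2 ⟨f_2106 h, List.forall_mem_cons.2 ⟨f_2107 h, List.forall_mem_cons.2 ⟨f_2108 h, List.forall_mem_cons.2 ⟨f_2109 h, List.forall_mem_cons.2 ⟨f_2110 h, List.forall_mem_cons.2 ⟨f_2111 h, List.forall_mem_cons.2 ⟨f_2112 h, List.forall_mem_cons.2 ⟨f_2113 h, List.forall_mem_cons.2 ⟨f_2114 h, List.forall_mem_cons.2 ⟨f_2115 h, List.forall_mem_cons.2 ⟨f_2116 h, List.forall_mem_cons.2 ⟨f_2117 h, List.forall_mem_cons.2 ⟨f_2118 h, List.forall_mem_cons.2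 ⟨f_2119 h, List.forall_mem_cons.2 ⟨f_2120 h, List.forall_mem_cons.2 ⟨f_2121 h, List.forall_mem_cons.2 ⟨f_2122 h, List.forall_mem_cons.2 ⟨f_2123 h,
    fun _ h0 => absurd h0 List.not_mem_nil⟩⟩⟩⟩⟩⟩⟩⟩⟩⟩⟩⟩⟩⟩⟩⟩⟩⟩⟩⟩⟩⟩⟩⟩⟩⟩⟩⟩

def F_2124 : FrX :=
  ⟨0x482000044040440000c2040020009000182040000880908000a00080040082020020420004020010500140081000802080080130090080010080206001,
    0xa0, 1, 0x314352657093a3, 7,
    [(0xa0, 1), (0x538690a2, 4), (0x548790a1, 4), (0x21437690, 4), (0x538690a2, 4), (0x548790a1, 4)],
    [(0x314352657093a3, 7), (0x607581a2, 4), (0x20617394, 4), (0x216094a8, 4), (0x20617394, 4), (0x215386a0, 4), (0x758294a1, 4), (0x216094a8, 4), (0x758294a1, 4), (0x106273a8, 4), (0x216094a8, 4), (0x215386a0, 4)]⟩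

def c_2124 : frmChk tA tB F_2124 = true := by decide +kernel

def r_2124_0 : chkL rootF engF2 tA tB sA_299 sB_299 4 F_2124 [(511, 0, 0)]
    0x10781e06c1d0ac36 = true := by
  decide +kernel

theorem f_2124 (h : TabsF) : FrameF repsF 299 F_2124.f :=
  frame_of rfl c_2124 (runs_of engOK r_2124_0) (by decide +kernel) h.1 h.2

def F_2125 : FrX :=
  ⟨0x80080a000804040e000021010020010000020408a0002000480088100224010020011000104004810c080004030018020280000110080010008040c6000,
    0xa6, 1, 0x10204250618591a2, 8,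
    [(0xa6, 1), (0x205396a8, 4), (0x10548796, 4), (0x214396a7, 4), (0x205396a8, 4), (0x10548796, 4)],
    [(0x10204250618591a2, 8), (0x213087a5, 4), (0x64708195, 4), (0x10326487, 4), (0x64708195, 4), (0x107382a9, 4), (0x203164a5, 4), (0x10326487, 4), (0x203164a5, 4), (0x32718095, 4), (0x10326487, 4), (0x107382a9, 4)]⟩

def c_2125 : frmChk tA tB F_2125 = true := by decide +kernel

def r_2125_0 : chkL rootF engF2 tA tB sA_299 sB_299 4 F_2125 [(511, 0, 0)]
    0x18360e0782b03c0f11d07 = true := by
  decide +kernel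

theorem f_2125 (h : TabsF) : FrameF repsF 299 F_2125.f :=
  frame_of rfl c_2125 (runs_of engOK r_2125_0) (by decide +kernel) h.1 h.2

def F_2126 : FrX :=
  ⟨0x482000044040440000c204002000900018204001008002080400011002002422202000100402044011104000300180008400014105000001400000c240,
    0xa0, 1, 0x21324262718798a5, 8,
    [(0xa0, 1), (0x538690a2, 4), (0x548790a1, 4), (0x21437690, 4), (0x538690a2, 4), (0x548790a1, 4)],
    [(0x21324262718798a5, 8), (0x526094a1, 4), (0x527098a3, 4), (0x31527684, 4), (0x526094a1, 4), (0x527098a3, 4)]⟩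

def c_2126 : frmChk tA tA F_2126 = true := by decide +kernel

def r_2126_0 : chkL rootF engF2 tA tA sA_299 sA_299 4 F_2126 [(511, 0, 0)]
    0x1386e08705c270e824c390ccb10780f = true := by
  decide +kernel

theorem f_2126 (h : TabsF) : FrameF repsF 299 F_2126.f :=
  frame_of rfl c_2126 (runs_of engOK r_2126_0) (by decide +kernel) h.1 h.1

def F_2127 : FrX :=
  ⟨0x80080a000804040e00002101002001000002040880422000420008400014004220400041204800840810000011100801020080006008080404010446000,
    0xa6, 1, 0x4054628590a2, 6,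
    [(0xa6, 1), (0x205396a8, 4), (0x10548796, 4), (0x214396a7, 4), (0x205396a8, 4), (0x10548796, 4)],
    [(0x4054628590a2, 6), (0x206483a9, 4), (0x64708591, 4), (0x536472a1, 4), (0x206483a9, 4), (0x64708591, 4)]⟩

def c_2127 : frmChk tA tA F_2127 = true := by decide +kernel

def r_2127_0 : chkL rootF engF2 tA tA sA_299 sA_299 4 F_2127 [(511, 0, 0)]
    0x41e0781d0761c05c1b1b0c91341d077121e01e6a232 = true := by
  decide +kernel

theorem f_2127 (h : TabsF) : FrameF repsF 299 F_2127.f :=
  frame_of rfl c_2127 (runs_of engOK r_2127_0) (by decide +kernel) h.1 h.1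

def F_2128 : FrX :=
  ⟨0x482000044040440000c2040020009000182040000884000800a00080010400032020420004020008081440504000802080080130090081010100004001,
    0xa0, 1, 0x20325160708192a6, 8,
    [(0xa0, 1), (0x538690a2, 4), (0x548790a1, 4), (0x21437690, 4), (0x538690a2, 4), (0x548790a1, 4)],
    [(0x20325160708192a6, 8), (0x103297a5, 4), (0x32416587, 4), (0x324098a6, 4), (0x103297a5, 4), (0x32416587, 4)]⟩

def c_2128 : frmChk tA tA F_2128 = true := by decide +kernel

def r_2128_0 : chkL rootF engF2 tA tA sA_299 sA_299 4 F_2128 [(511, 0, 0)]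
    0x188c17 = true := by
  decide +kernel

theorem f_2128 (h : TabsF) : FrameF repsF 299 F_2128.f :=
  frame_of rfl c_2128 (runs_of engOK r_2128_0) (by decide +kernel) h.1 h.1

def F_2129 : FrX :=
  ⟨0x2002000900044004000e02041000141000800040800400448001400401040040020c00220004a00040880809010000801001801000480800300402200084,
    0xa3, 1, 0x10526496a2, 5,
    [(0xa3, 1), (0x208693a5, 4), (0x10548793, 4), (0x217693a4, 4), (0x208693a5, 4), (0x10548793, 4)],
    [(0x10526496a2, 5), (0x728693a1, 4), (0x10546297, 4), (0x54728396, 4), (0x10546297, 4), (0x738296a0, 4), (0x546398a1, 4), (0x54728396, 4), (0x546398a1, 4), (0x10768392, 4), (0x54728396, 4), (0x738296a0, 4)]⟩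

def c_2129 : frmChk tA tB F_2129 = true := by decide +kernel

def r_2129_0 : chkL rootF engF2 tA tB sA_299 sB_299 4 F_2129 [(511, 0, 0)]
    0x43c074b2d103c0cd1a = true := by
  decide +kernel

theorem f_2129 (h : TabsF) : FrameF repsF 299 F_2129.f :=
  frame_of rfl c_2129 (runs_of engOK r_2129_0) (by decide +kernel) h.1 h.2

def F_2130 : FrX :=
  ⟨0x80080a000804040e000021010020010000020408a00020004800881002240100200110002042220008808012100018020200000805080002020040c3000,
    0xa6, 1, 0x10204250618591a2, 8,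
    [(0xa6, 1), (0x205396a8, 4), (0x10548796, 4), (0x214396a7, 4), (0x205396a8, 4), (0x10548796, 4)],
    [(0x10204250618591a2, 8), (0x213087a5, 4), (0x64708195, 4), (0x10326487, 4), (0x64708195, 4), (0x107382a9, 4), (0x203164a5, 4), (0x10326487, 4), (0x203164a5, 4), (0x32718095, 4), (0x10326487, 4), (0x107382a9, 4)]⟩

def c_2130 : frmChk tA tB F_2130 = true := by decide +kernel

def r_2130_0 : chkL rootF engF2 tA tB sA_299 sB_299 4 F_2130 [(511, 0, 0)]
    0x4170741d09c1e0b66419a64198e2 = true := by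
  decide +kernel

theorem f_2130 (h : TabsF) : FrameF repsF 299 F_2130.f :=
  frame_of rfl c_2130 (runs_of engOK r_2130_0) (by decide +kernel) h.1 h.2

def F_2131 : FrX :=
  ⟨0x1001040012008080000e00840800410008101000042008024020008140080084804000102410018240000808020400214004200100030000011100041110,
    0xa3, 1, 0x204050738292a7, 7,
    [(0xa3, 1), (0x207584a6, 4), (0x10547693, 4), (0x647593a8, 4), (0x10547693, 4), (0x216485a7, 4), (0x208693a4, 4), (0x647593a8, 4), (0x208693a4, 4), (0x106574a8, 4), (0x647593a8, 4), (0x216485a7, 4)],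
    [(0x204050738292a7, 7), (0x207695a4, 4), (0x425183a6, 4), (0x627083a4, 4), (0x425183a6, 4), (0x406291a7, 4), (0x60728395, 4), (0x627083a4, 4), (0x60728395, 4), (0x516470a2, 4), (0x627083a4, 4), (0x406291a7, 4)]⟩

def c_2131 : frmChk tB tB F_2131 = true := by decide +kernel

def r_2131_0 : chkL rootF engF2 tB tB sB_299 sB_299 4 F_2131 [(511, 0, 0)]
    0x4ca0ce64 = true := by
  decide +kernel

theorem f_2131 (h : TabsF) : FrameF repsF 299 F_2131.f :=
  frame_of rfl c_2131 (runs_of engOK r_2131_0) (by decide +kernel) h.2 h.2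

def F_2132 : FrX :=
  ⟨0x1001040012008080000e008408004100081010000420800200811081001200100100080880200102400a4800401020004004008200804841010002020104,
    0xa3, 1, 0x103050628191a5, 7,
    [(0xa3, 1), (0x207584a6, 4), (0x10547693, 4), (0x647593a8, 4), (0x10547693, 4), (0x216485a7, 4), (0x208693a4, 4), (0x647593a8, 4), (0x208693a4, 4), (0x106574a8, 4), (0x647593a8, 4), (0x216485a7, 4)],
    [(0x103050628191a5, 7), (0x206583a1, 4), (0x708395a4, 4), (0x41728396, 4), (0x206583a1, 4), (0x708395a4, 4)]⟩

def c_2132 : frmChk tB tA F_2132 = true := by decide +kernel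

def r_2132_0 : chkL rootF engF2 tB tA sB_299 sA_299 4 F_2132 [(511, 0, 0)]
    0x10ae85 = true := by
  decide +kernel

theorem f_2132 (h : TabsF) : FrameF repsF 299 F_2132.f :=
  frame_of rfl c_2132 (runs_of engOK r_2132_0) (by decide +kernel) h.2 h.1

def F_2133 : FrX :=
  ⟨0x600020801080810000c0040180410101001004001040842000022802002020040400102410030208000100108008210404000800802040004140408022,
    0xa0, 1, 0x214250617382a6, 7,
    [(0xa0, 1), (0x637584a2, 4), (0x547690a1, 4), (0x64758390, 4), (0x547690a1, 4), (0x21647385, 4), (0x438690a2, 4), (0x64758390, 4), (0x438690a2, 4), (0x657483a1, 4), (0x64758390, 4), (0x21647385, 4)],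
    [(0x214250617382a6, 7), (0x708592a4, 4), (0x10436592, 4), (0x718692a3, 4), (0x708592a4, 4), (0x10436592, 4)]⟩

def c_2133 : frmChk tB tA F_2133 = true := by decide +kernel

def r_2133_0 : chkL rootF engF2 tB tA sB_299 sA_299 4 F_2133 [(511, 0, 0)]
    0x10b50d = true := by
  decide +kernel

theorem f_2133 (h : TabsF) : FrameF repsF 299 F_2133.f :=
  frame_of rfl c_2133 (runs_of engOK r_2133_0) (by decide +kernel) h.2 h.1

def F_2134 : FrX :=
  ⟨0x1001040012008080000e00840800410008101000066000040040022000280048400002200080006048080804800810202080004011000400108104042140,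
    0xa3, 1, 0x213240537185a5, 7,
    [(0xa3, 1), (0x207584a6, 4), (0x10547693, 4), (0x647593a8, 4), (0x10547693, 4), (0x216485a7, 4), (0x208693a4, 4), (0x647593a8, 4), (0x208693a4, 4), (0x106574a8, 4), (0x647593a8, 4), (0x216485a7, 4)],
    [(0x213240537185a5, 7), (0x436198a5, 4), (0x217498a0, 4), (0x50627398, 4), (0x436198a5, 4), (0x217498a0, 4)]⟩

def c_2134 : frmChk tB tA F_2134 = true := by decide +kernel

def r_2134_0 : chkL rootF engF2 tB tA sB_299 sA_299 4 F_2134 [(511, 0, 0)]
    0x109cf00d51aa264a23a0ba281b = true := by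
  decide +kernel

theorem f_2134 (h : TabsF) : FrameF repsF 299 F_2134.f :=
  frame_of rfl c_2134 (runs_of engOK r_2134_0) (by decide +kernel) h.2 h.1

def F_2135 : FrX :=
  ⟨0x600020801080810000c0040180410101001004002020444000400208180200080012001080822048000100800208208004085000404000100c08010082,
    0xa0, 1, 0x2031425170a7, 6,
    [(0xa0, 1), (0x637584a2, 4), (0x547690a1, 4), (0x64758390, 4), (0x547690a1, 4), (0x21647385, 4), (0x438690a2, 4), (0x64758390, 4), (0x438690a2, 4), (0x657483a1, 4), (0x64758390, 4), (0x21647385, 4)],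
    [(0x2031425170a7, 6), (0x617480a3, 4), (0x307592a6, 4), (0x608192a3, 4), (0x307592a6, 4), (0x546083a1, 4), (0x10748692, 4), (0x608192a3, 4), (0x10748692, 4), (0x637581a0, 4), (0x608192a3, 4), (0x546083a1, 4)]⟩

def c_2135 : frmChk tB tB F_2135 = true := by decide +kernel

def r_2135_0 : chkL rootF engF2 tB tB sB_299 sB_299 4 F_2135 [(511, 0, 0)]
    0x40f = true := by
  decide +kernel

theorem f_2135 (h : TabsF) : FrameF repsF 299 F_2135.f :=
  frame_of rfl c_2135 (runs_of engOK r_2135_0) (by decide +kernel) h.2 h.2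

def F_2136 : FrX :=
  ⟨0x1001040012008080000e00840800410008101000042008024020002100080084804100102410004240000808050400410004200202030004011100041010,
    0xa3, 1, 0x315065748290a3, 7,
    [(0xa3, 1), (0x207584a6, 4), (0x10547693, 4), (0x647593a8, 4), (0x10547693, 4), (0x216485a7, 4), (0x208693a4, 4), (0x647593a8, 4), (0x208693a4, 4), (0x106574a8, 4), (0x647593a8, 4), (0x216485a7, 4)],
    [(0x315065748290a3, 7), (0x647298a0, 4), (0x40517693, 4), (0x516470a2, 4), (0x40517693, 4), (0x627083a4, 4), (0x205198a7, 4), (0x516470a2, 4), (0x205198a7, 4), (0x607493a2, 4), (0x516470a2, 4), (0x627083a4, 4)]⟩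

def c_2136 : frmChk tB tB F_2136 = true := by decide +kernel

def r_2136_0 : chkL rootF engF2 tB tB sB_299 sB_299 4 F_2136 [(511, 0, 0)]
    0x1 = true := by
  decide +kernel

theorem f_2136 (h : TabsF) : FrameF repsF 299 F_2136.f :=
  frame_of rfl c_2136 (runs_of engOK r_2136_0) (by decide +kernel) h.2 h.2

def F_2137 : FrX :=
  ⟨0x1001040012008080000e00840800410008101000042100004060002100004190048200002200004800021012c20000802040200811024004010003000104,
    0xa3, 1, 0x10203042538597a0, 8,
    [(0xa3, 1), (0x207584a6, 4), (0x10547693, 4), (0x647593a8, 4), (0x10547693, 4), (0x216485a7, 4), (0x208693a4, 4), (0x647593a8, 4), (0x208693a4, 4), (0x106574a8, 4), (0x647593a8, 4), (0x216485a7, 4)],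
    [(0x10203042538597a0, 8), (0x627385a4, 4), (0x738192a0, 4), (0x40517396, 4), (0x627385a4, 4), (0x738192a0, 4)]⟩

def c_2137 : frmChk tB tA F_2137 = true := by decide +kernel

def r_2137_0 : chkL rootF engF2 tB tA sB_299 sA_299 4 F_2137 [(511, 0, 0)]
    0x10741e1581e = true := by
  decide +kernel

theorem f_2137 (h : TabsF) : FrameF repsF 299 F_2137.f :=
  frame_of rfl c_2137 (runs_of engOK r_2137_0) (by decide +kernel) h.2 h.1

def F_2138 : FrX :=
  ⟨0x1001040012008080000e00840800410008101000040808048020008100080082488000088100008242004204440000202100a0011003000000a000042088,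
    0xa3, 1, 0x1030428594a6, 6,
    [(0xa3, 1), (0x207584a6, 4), (0x10547693, 4), (0x647593a8, 4), (0x10547693, 4), (0x216485a7, 4), (0x208693a4, 4), (0x647593a8, 4), (0x208693a4, 4), (0x106574a8, 4), (0x647593a8, 4), (0x216485a7, 4)],
    [(0x1030428594a6, 6), (0x436281a5, 4), (0x30627598, 4), (0x406291a7, 4), (0x436281a5, 4), (0x30627598, 4)]⟩

def c_2138 : frmChk tB tA F_2138 = true := by decide +kernel

def r_2138_0 : chkL rootF engF2 tB tA sB_299 sA_299 4 F_2138 [(511, 0, 0)]
    0x105c2e = true := by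
  decide +kernel

theorem f_2138 (h : TabsF) : FrameF repsF 299 F_2138.f :=
  frame_of rfl c_2138 (runs_of engOK r_2138_0) (by decide +kernel) h.2 h.1

def F_2139 : FrX :=
  ⟨0x1001040012008080000e008408004100081010000600000280804001408801804042000001a010424005000002101020200000880a020000108008821040,
    0xa3, 1, 0x2041607193a1, 6,
    [(0xa3, 1), (0x207584a6, 4), (0x10547693, 4), (0x647593a8, 4), (0x10547693, 4), (0x216485a7, 4), (0x208693a4, 4), (0x647593a8, 4), (0x208693a4, 4), (0x106574a8, 4), (0x647593a8, 4), (0x216485a7, 4)],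
    [(0x2041607193a1, 6), (0x60738295, 4), (0x517384a6, 4), (0x427391a0, 4), (0x60738295, 4), (0x517384a6, 4)]⟩

def c_2139 : frmChk tB tA F_2139 = true := by decide +kernel

def r_2139_0 : chkL rootF engF2 tB tA sB_299 sA_299 4 F_2139 [(511, 0, 0)]
    0x43305c710e82d0cc7206c1e = true := by
  decide +kernel

theorem f_2139 (h : TabsF) : FrameF repsF 299 F_2139.f :=
  frame_of rfl c_2139 (runs_of engOK r_2139_0) (by decide +kernel) h.2 h.1

def F_2140 : FrX :=
  ⟨0x600020801080810000c004018041010100100401310000200001000410220208002200080020080008414088802004060420150000400c000400008003,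
    0xa0, 1, 0x203143546283a3, 7,
    [(0xa0, 1), (0x637584a2, 4), (0x547690a1, 4), (0x64758390, 4), (0x547690a1, 4), (0x21647385, 4), (0x438690a2, 4), (0x64758390, 4), (0x438690a2, 4), (0x657483a1, 4), (0x64758390, 4), (0x21647385, 4)],
    [(0x203143546283a3, 7), (0x546271a0, 4), (0x32517098, 4), (0x507198a4, 4), (0x32517098, 4), (0x415063a7, 4), (0x406298a5, 4), (0x507198a4, 4), (0x406298a5, 4), (0x103275a4, 4), (0x507198a4, 4), (0x415063a7, 4)]⟩

def c_2140 : frmChk tB tB F_2140 = true := by decide +kernel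

def r_2140_0 : chkL rootF engF2 tB tB sB_299 sB_299 4 F_2140 [(511, 0, 0)]
    0x427e202e = true := by
  decide +kernel

theorem f_2140 (h : TabsF) : FrameF repsF 299 F_2140.f :=
  frame_of rfl c_2140 (runs_of engOK r_2140_0) (by decide +kernel) h.2 h.2

def F_2141 : FrX :=
  ⟨0x1001040012008080000e0084080041000810100006000002d000030041020028010000100100404240050008021020014004000c08000408104042802004,
    0xa3, 1, 0x1030435475a3, 6,
    [(0xa3, 1), (0x207584a6, 4), (0x10547693, 4), (0x647593a8, 4), (0x10547693, 4), (0x216485a7, 4), (0x208693a4, 4), (0x647593a8, 4), (0x208693a4, 4), (0x106574a8, 4), (0x647593a8, 4), (0x216485a7, 4)],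
    [(0x1030435475a3, 6), (0x327185a6, 4), (0x30617594, 4), (0x657194a8, 4), (0x30617594, 4), (0x206587a1, 4), (0x328694a5, 4), (0x657194a8, 4), (0x328694a5, 4), (0x305176a8, 4), (0x657194a8, 4), (0x206587a1, 4)]⟩

def c_2141 : frmChk tB tB F_2141 = true := by decide +kernel

def r_2141_0 : chkL rootF engF2 tB tB sB_299 sB_299 4 F_2141 [(511, 0, 0)]
    0x42791b440b4665903a1351a09e8693344 = true := by
  decide +kernel

theorem f_2141 (h : TabsF) : FrameF repsF 299 F_2141.f :=
  frame_of rfl c_2141 (runs_of engOK r_2141_0) (by decide +kernel) h.2 h.2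

def F_2142 : FrX :=
  ⟨0x80080a000804040e00002101002001000002040890020001410000420204004020880041002084840810000023010001010106041000120204021080000,
    0xa6, 1, 0x30425260758193a6, 8,
    [(0xa6, 1), (0x205396a8, 4), (0x10548796, 4), (0x214396a7, 4), (0x205396a8, 4), (0x10548796, 4)],
    [(0x30425260758193a6, 8), (0x306597a1, 4), (0x30417286, 4), (0x308592a4, 4), (0x306597a1, 4), (0x30417286, 4)]⟩

def c_2142 : frmChk tA tA F_2142 = true := by decide +kernel

def r_2142_0 : chkL rootF engF2 tA tA sA_299 sA_299 4 F_2142 [(511, 0, 0)]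
    0x44e0b42d03ccc2b10b = true := by
  decide +kernel

theorem f_2142 (h : TabsF) : FrameF repsF 299 F_2142.f :=
  frame_of rfl c_2142 (runs_of engOK r_2142_0) (by decide +kernel) h.1 h.1

def F_2143 : FrX :=
  ⟨0x1c2102000004044000002041000101000082040890040100008001010200044020108401002084440800140023020001004206041010020204110008000,
    0x0, 0, 0x217385, 3,
    [(0x0, 0), (0x205386a9, 4), (0x105487a9, 4), (0x214376a9, 4), (0x205386a9, 4), (0x105487a9, 4)],
    [(0x217385, 3), (0x106587a9, 4), (0x205384a9, 4), (0x216374a9, 4), (0x106587a9, 4), (0x205384a9, 4)]⟩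

def c_2143 : frmChk tA tA F_2143 = true := by decide +kernel

def r_2143_0 : chkL rootF engF2 tA tA sA_299 sA_299 4 F_2143 [(255, 0, 0), (256, 0, 3)]
    0x1 = true := by
  decide +kernel

def r_2143_1 : chkL rootF engF2 tA tA sA_299 sA_299 4 F_2143 [(256, 3, 5)]
    0x11343c = true := by
  decide +kernel

def r_2143_2 : chkL rootF engF2 tA tA sA_299 sA_299 4 F_2143 [(256, 8, 12)]
    0x44b = true := by
  decide +kernel

def r_2143_3 : chkL rootF engF2 tA tA sA_299 sA_299 4 F_2143 [(256, 20, 0)]
    0x1 = true := by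
  decide +kernel

theorem f_2143 (h : TabsF) : FrameF repsF 299 F_2143.f :=
  frame_of rfl c_2143 ((runs_of engOK r_2143_0).append ((runs_of engOK r_2143_1).append ((runs_of engOK r_2143_2).append (runs_of engOK r_2143_3)))) (by decide +kernel) h.1 h.1

def F_2144 : FrX :=
  ⟨0x80080a000804040e0000210100200100000204088202200005008010020401002012102000101001080800100410000a04208888400840c000802440000,
    0xa6, 1, 0x104152607390a1, 7,
    [(0xa6, 1), (0x205396a8, 4), (0x10548796, 4), (0x214396a7, 4), (0x205396a8, 4), (0x10548796, 4)],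
    [(0x104152607390a1, 7), (0x32718095, 4), (0x203164a9, 4), (0x10326487, 4), (0x203164a9, 4), (0x107382a5, 4), (0x64708195, 4), (0x10326487, 4), (0x64708195, 4), (0x213087a9, 4), (0x10326487, 4), (0x107382a5, 4)]⟩

def c_2144 : frmChk tA tB F_2144 = true := by decide +kernel

def r_2144_0 : chkL rootF engF2 tA tB sA_299 sB_299 4 F_2144 [(511, 0, 0)]
    0x1170550748d = true := by
  decide +kernel

theorem f_2144 (h : TabsF) : FrameF repsF 299 F_2144.f :=
  frame_of rfl c_2144 (runs_of engOK r_2144_0) (by decide +kernel) h.1 h.2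

def F_2145 : FrX :=
  ⟨0x482000044040440000c2040020009000182040010100002804000110090044804080000804040402091040102010100080088180040404088000200401,
    0xa0, 1, 0x1042718691a5, 6,
    [(0xa0, 1), (0x538690a2, 4), (0x548790a1, 4), (0x21437690, 4), (0x538690a2, 4), (0x548790a1, 4)],
    [(0x1042718691a5, 6), (0x416283a0, 4), (0x758091a2, 4), (0x637582a0, 4), (0x758091a2, 4), (0x308294a6, 4), (0x32417586, 4), (0x637582a0, 4), (0x32417586, 4), (0x206391a8, 4), (0x637582a0, 4), (0x308294a6, 4)]⟩

def c_2145 : frmChk tA tB F_2145 = true := by decide +kernel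

def r_2145_0 : chkL rootF engF2 tA tB sA_299 sB_299 4 F_2145 [(511, 0, 0)]
    0x4170b82e0782e = true := by
  decide +kernel

theorem f_2145 (h : TabsF) : FrameF repsF 299 F_2145.f :=
  frame_of rfl c_2145 (runs_of engOK r_2145_0) (by decide +kernel) h.1 h.2

def F_2146 : FrX :=
  ⟨0x482000044040440000c20400200090001820400008211000080200800148042000800408880002800001008283200020080101180084040008a0008004,
    0xa0, 1, 0x21315364768297a6, 8,
    [(0xa0, 1), (0x538690a2, 4), (0x548790a1, 4), (0x21437690, 4), (0x538690a2, 4), (0x548790a1, 4)],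
    [(0x21315364768297a6, 8), (0x527480a1, 4), (0x30627491, 4), (0x657483a9, 4), (0x527480a1, 4), (0x30627491, 4)]⟩

def c_2146 : frmChk tA tA F_2146 = true := by decide +kernel

def r_2146_0 : chkL rootF engF2 tA tA sA_299 sA_299 4 F_2146 [(511, 0, 0)]
    0x10b82e = true := by
  decide +kernel

theorem f_2146 (h : TabsF) : FrameF repsF 299 F_2146.f :=
  frame_of rfl c_2146 (runs_of engOK r_2146_0) (by decide +kernel) h.1 h.1

def F_2147 : FrX :=
  ⟨0x2002000900044004000e02041000141000800040808002050420000208040882020008000900010242000008804400140041012000a01000401022201001,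
    0xa3, 1, 0x41546581a4, 5,
    [(0xa3, 1), (0x208693a5, 4), (0x10548793, 4), (0x217693a4, 4), (0x208693a5, 4), (0x10548793, 4)],
    [(0x41546581a4, 5), (0x203176a4, 4), (0x718095a6, 4), (0x437695a1, 4), (0x718095a6, 4), (0x647382a1, 4), (0x204195a3, 4), (0x437695a1, 4), (0x204195a3, 4), (0x436180a7, 4), (0x437695a1, 4), (0x647382a1, 4)]⟩

def c_2147 : frmChk tA tB F_2147 = true := by decide +kernel

def r_2147_0 : chkL rootF engF2 tA tB sA_299 sB_299 4 F_2147 [(511, 0, 0)]
    0x46c0f06c1d072 = true := by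
  decide +kernel

theorem f_2147 (h : TabsF) : FrameF repsF 299 F_2147.f :=
  frame_of rfl c_2147 (runs_of engOK r_2147_0) (by decide +kernel) h.1 h.2

def F_2148 : FrX :=
  ⟨0x2002000900044004000e02041000141000800040810000012800802402004080140200104002008220818008008050100040220006001020401002203000,
    0xa3, 1, 0x518792a3, 4,
    [(0xa3, 1), (0x208693a5, 4), (0x10548793, 4), (0x217693a4, 4), (0x208693a5, 4), (0x10548793, 4)],
    [(0x518792a3, 4), (0x748190a6, 4), (0x32415086, 4), (0x326481a7, 4), (0x32415086, 4), (0x647195a8, 4), (0x327690a4, 4), (0x326481a7, 4), (0x327690a4, 4), (0x506184a7, 4), (0x326481a7, 4), (0x647195a8, 4)]⟩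

def c_2148 : frmChk tA tB F_2148 = true := by decide +kernel

def r_2148_0 : chkL rootF engF2 tA tB sA_299 sB_299 4 F_2148 [(511, 0, 0)]
    0x45a05c17 = true := by
  decide +kernel

theorem f_2148 (h : TabsF) : FrameF repsF 299 F_2148.f :=
  frame_of rfl c_2148 (runs_of engOK r_2148_0) (by decide +kernel) h.1 h.2

def F_2149 : FrX :=
  ⟨0x2002000900044004000e02041000141000800040820040441000400209008080020108000104004410800102021001140004004802020820202140008004,
    0xa3, 1, 0x31547280a2, 5,
    [(0xa3, 1), (0x208693a5, 4), (0x10548793, 4), (0x217693a4, 4), (0x208693a5, 4), (0x10548793, 4)],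
    [(0x31547280a2, 5), (0x425061a8, 4), (0x54628397, 4), (0x10426597, 4), (0x54628397, 4), (0x214065a3, 4), (0x516097a8, 4), (0x10426597, 4), (0x516097a8, 4), (0x10526483, 4), (0x10426597, 4), (0x214065a3, 4)]⟩

def c_2149 : frmChk tA tB F_2149 = true := by decide +kernel

def r_2149_0 : chkL rootF engF2 tA tB sA_299 sB_299 4 F_2149 [(511, 0, 0)]
    0x103c0f0ce1a = true := by
  decide +kernel

theorem f_2149 (h : TabsF) : FrameF repsF 299 F_2149.f :=
  frame_of rfl c_2149 (runs_of engOK r_2149_0) (by decide +kernel) h.1 h.2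

def F_2150 : FrX :=
  ⟨0x482000044040440000c204002000900018204001002002800800038004003003002001000003010100044060000200108209014009001001400200004a,
    0xa0, 1, 0x2131718694a6, 6,
    [(0xa0, 1), (0x538690a2, 4), (0x548790a1, 4), (0x21437690, 4), (0x538690a2, 4), (0x548790a1, 4)],
    [(0x2131718694a6, 6), (0x105396a2, 4), (0x708495a3, 4), (0x536284a9, 4), (0x708495a3, 4), (0x326571a9, 4), (0x108492a6, 4), (0x536284a9, 4), (0x108492a6, 4), (0x627093a5, 4), (0x536284a9, 4), (0x326571a9, 4)]⟩

def c_2150 : frmChk tA tB F_2150 = true := by decide +kernel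

def r_2150_0 : chkL rootF engF2 tA tB sA_299 sB_299 4 F_2150 [(511, 0, 0)]
    0x106c470d496 = true := by
  decide +kernel

theorem f_2150 (h : TabsF) : FrameF repsF 299 F_2150.f :=
  frame_of rfl c_2150 (runs_of engOK r_2150_0) (by decide +kernel) h.1 h.2

def F_2151 : FrX :=
  ⟨0x1001040012008080000e00840800410008101000040500008120002800002030048202008408010800880404820000202008a0400c024040002008000050,
    0xa3, 1, 0x32658192a4, 5,
    [(0xa3, 1), (0x207584a6, 4), (0x10547693, 4), (0x647593a8, 4), (0x10547693, 4), (0x216485a7, 4), (0x208693a4, 4), (0x647593a8, 4), (0x208693a4, 4), (0x106574a8, 4), (0x647593a8, 4), (0x216485a7, 4)],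
    [(0x32658192a4, 5), (0x527690a1, 4), (0x437580a6, 4), (0x214376a5, 4), (0x437580a6, 4), (0x617298a5, 4), (0x435190a2, 4), (0x214376a5, 4), (0x435190a2, 4), (0x216580a7, 4), (0x214376a5, 4), (0x617298a5, 4)]⟩

def c_2151 : frmChk tB tB F_2151 = true := by decide +kernel

def r_2151_0 : chkL rootF engF2 tB tB sB_299 sB_299 4 F_2151 [(511, 0, 0)]
    0x1 = true := by
  decide +kernel

theorem f_2151 (h : TabsF) : FrameF repsF 299 F_2151.f :=
  frame_of rfl c_2151 (runs_of engOK r_2151_0) (by decide +kernel) h.2 h.2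

theorem cl_299 (h : TabsF) : ∀ f ∈ fr_299, FrameF repsF 299 f :=
  List.forall_mem_cons.2 ⟨f_2124 h, List.forall_mem_cons.2 ⟨f_2125 h, List.forall_mem_cons.2 ⟨f_2126 h, List.forall_mem_cons.2 ⟨f_2127 h, List.forall_mem_cons.2 ⟨f_2128 h, List.forall_mem_cons.2 ⟨f_2129 h, List.forall_mem_cons.2 ⟨f_2130 h, List.forall_mem_cons.2 ⟨f_2131 h, List.forall_mem_cons.2 ⟨f_2132 h, List.forall_mem_cons.2 ⟨f_2133 h, List.forall_mem_cons.2 ⟨f_2134 h, List.forall_mem_cons.2 ⟨f_2135 h, List.forall_mem_cons.2 ⟨f_2136 h, List.forall_mem_cons.2 ⟨f_2137 h, List.forall_mem_cons.2 ⟨f_2138 h, List.forall_mem_cons.2 ⟨f_2139 h, List.forall_mem_cons.2 ⟨f_2140 h, List.forall_mem_cons.2 ⟨f_2141 h, List.forall_mem_cons.2 ⟨f_2142 h, List.forall_mem_cons.2 ⟨f_2143 h, List.forall_mem_cons.2 ⟨f_2144 h, List.forall_mem_cons.2 ⟨f_2145 h, List.forall_mem_cons.2 ⟨f_2146 h, List.forall_mem_cons.2 ⟨f_2147 h, List.forall_mem_cons.2 ⟨f_2148 h, List.forall_mem_cons.2 ⟨f_2149 h, List.forall_mem_cons.2 ⟨f_2150 h, List.forall_mem_cons.2 ⟨f_2151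 h,
    fun _ h0 => absurd h0 List.not_mem_nil⟩⟩⟩⟩⟩⟩⟩⟩⟩⟩⟩⟩⟩⟩⟩⟩⟩⟩⟩⟩⟩⟩⟩⟩⟩⟩⟩⟩

def F_2152 : FrX :=
  ⟨0x80080a000804040e00002101002001000002040881010208008400020882000010120400902001020001000481182400001810040400100244141010000,
    0xa6, 1, 0x103051638094a7, 7,
    [(0xa6, 1), (0x205396a8, 4), (0x10548796, 4), (0x214396a7, 4), (0x205396a8, 4), (0x10548796, 4)],
    [(0x103051638094a7, 7), (0x31607482, 4), (0x748590a3, 4), (0x527496a1, 4), (0x31607482, 4), (0x748590a3, 4)]⟩

def c_2152 : frmChk tA tA F_2152 = true := by decide +kernel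

def r_2152_0 : chkL rootF engF2 tA tA sA_300 sA_300 4 F_2152 [(511, 0, 0)]
    0x41d = true := by
  decide +kernel

theorem f_2152 (h : TabsF) : FrameF repsF 300 F_2152.f :=
  frame_of rfl c_2152 (runs_of engOK r_2152_0) (by decide +kernel) h.1 h.1

def F_2153 : FrX :=
  ⟨0x80080a000804040e000021010020010000020408820140140080240004400000408020500800050000400804c400204810000101100042020404d080000,
    0xa6, 1, 0x425261748392a2, 7,
    [(0xa6, 1), (0x205396a8, 4), (0x10548796, 4), (0x214396a7, 4), (0x205396a8, 4), (0x10548796, 4)],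
    [(0x425261748392a2, 7), (0x318495a0, 4), (0x32607495, 4), (0x218795a6, 4), (0x318495a0, 4), (0x32607495, 4)]⟩

def c_2153 : frmChk tA tA F_2153 = true := by decide +kernel

def r_2153_0 : chkL rootF engF2 tA tA sA_300 sA_300 4 F_2153 [(511, 0, 0)]
    0x11c41d1345603c63 = true := by
  decide +kernel

theorem f_2153 (h : TabsF) : FrameF repsF 300 F_2153.f :=
  frame_of rfl c_2153 (runs_of engOK r_2153_0) (by decide +kernel) h.1 h.1

def F_2154 : FrX :=
  ⟨0x80080a000804040e00002101002001000002040881011001004400820480000004121000848002002000200854110100000090006020804040899000000,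
    0xa6, 1, 0x42718494a3, 5,
    [(0xa6, 1), (0x205396a8, 4), (0x10548796, 4), (0x214396a7, 4), (0x205396a8, 4), (0x10548796, 4)],
    [(0x42718494a3, 5), (0x406283a5, 4), (0x21708395, 4), (0x617483a9, 4), (0x406283a5, 4), (0x21708395, 4)]⟩

def c_2154 : frmChk tA tA F_2154 = true := by decide +kernel

def r_2154_0 : chkL rootF engF2 tA tA sA_300 sA_300 4 F_2154 [(511, 0, 0)]
    0x118c0f = true := by
  decide +kernel

theorem f_2154 (h : TabsF) : FrameF repsF 300 F_2154.f :=
  frame_of rfl c_2154 (runs_of engOK r_2154_0) (by decide +kernel) h.1 h.1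

def F_2155 : FrX :=
  ⟨0x2002000900044004000e0204100014100080004081000001280800200a00018014020801000008420404940044001000a040220010001020200100008184,
    0xa3, 1, 0x1041507692a3, 6,
    [(0xa3, 1), (0x208693a5, 4), (0x10548793, 4), (0x217693a4, 4), (0x208693a5, 4), (0x10548793, 4)],
    [(0x1041507692a3, 6), (0x328795a1, 4), (0x10325486, 4), (0x327694a0, 4), (0x328795a1, 4), (0x10325486, 4)]⟩

def c_2155 : frmChk tA tA F_2155 = true := by decide +kernel

def r_2155_0 : chkL rootF engF2 tA tA sA_300 sA_300 4 F_2155 [(511, 0, 0)]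
    0x4170d80f03c1705c3341c0f0ea2503c0f1c44d05ce40f03a0e8178a83a8e2238586c1c49c = true := by
  decide +kernel

theorem f_2155 (h : TabsF) : FrameF repsF 300 F_2155.f :=
  frame_of rfl c_2155 (runs_of engOK r_2155_0) (by decide +kernel) h.1 h.1

def F_2156 : FrX :=
  ⟨0x2002000900044004000e020410001410008000408080010020a0220010020a02000088000880040242000100854000140080010005201001000804211100,
    0xa3, 1, 0x2141728796a7, 6,
    [(0xa3, 1), (0x208693a5, 4), (0x10548793, 4), (0x217693a4, 4), (0x208693a5, 4), (0x10548793, 4)],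
    [(0x2141728796a7, 6), (0x217093a5, 4), (0x405286a9, 4), (0x318692a5, 4), (0x405286a9, 4), (0x517492a3, 4), (0x32708691, 4), (0x318692a5, 4), (0x32708691, 4), (0x314095a2, 4), (0x318692a5, 4), (0x517492a3, 4)]⟩

def c_2156 : frmChk tA tB F_2156 = true := by decide +kernel

def r_2156_0 : chkL rootF engF2 tA tB sA_300 sB_300 4 F_2156 [(511, 0, 0)]
    0x105c1d = true := by
  decide +kernel

theorem f_2156 (h : TabsF) : FrameF repsF 300 F_2156.f :=
  frame_of rfl c_2156 (runs_of engOK r_2156_0) (by decide +kernel) h.1 h.2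

def F_2157 : FrX :=
  ⟨0x482000044040440000c204002000900018204002000202080010020800c08400448000008800420a000020844408108018010002200104001020200028,
    0xa0, 1, 0x3142547097a4, 6,
    [(0xa0, 1), (0x538690a2, 4), (0x548790a1, 4), (0x21437690, 4), (0x538690a2, 4), (0x548790a1, 4)],
    [(0x3142547097a4, 6), (0x617492a8, 4), (0x507396a2, 4), (0x508192a6, 4), (0x507396a2, 4), (0x438291a6, 4), (0x507486a1, 4), (0x508192a6, 4), (0x507486a1, 4), (0x627381a9, 4), (0x508192a6, 4), (0x438291a6, 4)]⟩

def c_2157 : frmChk tA tB F_2157 = true := by decide +kernel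

def r_2157_0 : chkL rootF engF2 tA tB sA_300 sB_300 4 F_2157 [(511, 0, 0)]
    0x40f8582e0ac2e06c2b03c4706fa005c2e0ba23 = true := by
  decide +kernel

theorem f_2157 (h : TabsF) : FrameF repsF 300 F_2157.f :=
  frame_of rfl c_2157 (runs_of engOK r_2157_0) (by decide +kernel) h.1 h.2

def F_2158 : FrX :=
  ⟨0x482000044040440000c2040020009000182040020001024000020280024030010080800081040280040100209120508008010000408400004024080204,
    0xa0, 1, 0x2142537691a2, 6,
    [(0xa0, 1), (0x538690a2, 4), (0x548790a1, 4), (0x21437690, 4), (0x538690a2, 4), (0x548790a1, 4)],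
    [(0x2142537691a2, 6), (0x637581a0, 4), (0x31427690, 4), (0x42637185, 4), (0x31427690, 4), (0x657183a9, 4), (0x425187a0, 4), (0x42637185, 4), (0x425187a0, 4), (0x61738590, 4), (0x42637185, 4), (0x657183a9, 4)]⟩

def c_2158 : frmChk tA tB F_2158 = true := by decide +kernel

def r_2158_0 : chkL rootF engF2 tA tB sA_300 sB_300 4 F_2158 [(511, 0, 0)]
    0x10d82b0781e = true := by
  decide +kernel

theorem f_2158 (h : TabsF) : FrameF repsF 300 F_2158.f :=
  frame_of rfl c_2158 (runs_of engOK r_2158_0) (by decide +kernel) h.1 h.2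

def F_2159 : FrX :=
  ⟨0x482000044040440000c2040020009000182040001080480000a00a00010404020400041101000120000400802220c00000083014010200011402804080,
    0xa0, 1, 0x2130618595a4, 6,
    [(0xa0, 1), (0x538690a2, 4), (0x548790a1, 4), (0x21437690, 4), (0x538690a2, 4), (0x548790a1, 4)],
    [(0x2130618595a4, 6), (0x31528490, 4), (0x637584a9, 4), (0x617284a0, 4), (0x31528490, 4), (0x637584a9, 4)]⟩

def c_2159 : frmChk tA tA F_2159 = true := by decide +kernel

def r_2159_0 : chkL rootF engF2 tA tA sA_300 sA_300 4 F_2159 [(511, 0, 0)]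
    0x41e = true := by
  decide +kernel

theorem f_2159 (h : TabsF) : FrameF repsF 300 F_2159.f :=
  frame_of rfl c_2159 (runs_of engOK r_2159_0) (by decide +kernel) h.1 h.1

def F_2160 : FrX :=
  ⟨0x1c2102000004044000002041000101000082040888200008008080004000242020601001020080020800440880060001180018023010240300004082000,
    0x0, 0, 0x107583, 3,
    [(0x0, 0), (0x205386a9, 4), (0x105487a9, 4), (0x214376a9, 4), (0x205386a9, 4), (0x105487a9, 4)],
    [(0x107583, 3), (0x216387a9, 4), (0x105374a9, 4), (0x206584a9, 4), (0x216387a9, 4), (0x105374a9, 4)]⟩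

def c_2160 : frmChk tA tA F_2160 = true := by decide +kernel

def r_2160_0 : chkL rootF engF2 tA tA sA_300 sA_300 4 F_2160 [(255, 0, 0), (256, 0, 13)]
    0x10781705c17 = true := by
  decide +kernel

def r_2160_1 : chkL rootF engF2 tA tA sA_300 sA_300 4 F_2160 [(256, 13, 7)]
    0x1 = true := by
  decide +kernel

def r_2160_2 : chkL rootF engF2 tA tA sA_300 sA_300 4 F_2160 [(256, 20, 10)]
    0x12942b6856138643 = true := by
  decide +kernel

def r_2160_3 : chkL rootF engF2 tA tA sA_300 sA_300 4 F_2160 [(256, 30, 0)]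
    0x1 = true := by
  decide +kernel

theorem f_2160 (h : TabsF) : FrameF repsF 300 F_2160.f :=
  frame_of rfl c_2160 ((runs_of engOK r_2160_0).append ((runs_of engOK r_2160_1).append ((runs_of engOK r_2160_2).append (runs_of engOK r_2160_3)))) (by decide +kernel) h.1 h.1

def F_2161 : FrX :=
  ⟨0x482000044040440000c20400200090001820400020120400008802000804020224000500200104008000408880100020800221082100a2006004200004,
    0xa0, 1, 0x1020304363728598a6, 9,
    [(0xa0, 1), (0x538690a2, 4), (0x548790a1, 4), (0x21437690, 4), (0x538690a2, 4), (0x548790a1, 4)],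
    [(0x1020304363728598a6, 9), (0x547386a9, 4), (0x30548291, 4), (0x546270a1, 4), (0x547386a9, 4), (0x30548291, 4)]⟩

def c_2161 : frmChk tA tA F_2161 = true := by decide +kernel

def r_2161_0 : chkL rootF engF2 tA tA sA_300 sA_300 4 F_2161 [(511, 0, 0)]
    0x12582e0ac1e0e63818f0389926c88170741e0782e2e017 = true := by
  decide +kernel

theorem f_2161 (h : TabsF) : FrameF repsF 300 F_2161.f :=
  frame_of rfl c_2161 (runs_of engOK r_2161_0) (by decide +kernel) h.1 h.1

def F_2162 : FrX :=
  ⟨0x1c2102000004044000002041000101000082040888200008000880200002202020600041100008020800404880220c00001003034010200202404804000,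
    0x0, 0, 0x21546587, 4,
    [(0x0, 0), (0x205386a9, 4), (0x105487a9, 4), (0x214376a9, 4), (0x205386a9, 4), (0x105487a9, 4)],
    [(0x21546587, 4), (0x10437586, 4), (0x206584a9, 4), (0x547386a9, 4), (0x206584a9, 4), (0x21547683, 4), (0x105374a9, 4), (0x547386a9, 4), (0x105374a9, 4), (0x20647385, 4), (0x547386a9, 4), (0x21547683, 4)]⟩

def c_2162 : frmChk tA tB F_2162 = true := by decide +kernel

def r_2162_0 : chkL rootF engF2 tA tB sA_300 sB_300 4 F_2162 [(255, 0, 0), (256, 0, 13)]
    0x1 = true := by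
  decide +kernel

def r_2162_1 : chkL rootF engF2 tA tB sA_300 sB_300 4 F_2162 [(256, 13, 4)]
    0x427 = true := by
  decide +kernel

def r_2162_2 : chkL rootF engF2 tA tB sA_300 sB_300 4 F_2162 [(256, 17, 7)]
    0x117027 = true := by
  decide +kernel

def r_2162_3 : chkL rootF engF2 tA tB sA_300 sB_300 4 F_2162 [(256, 24, 0)]
    0x44d = true := by
  decide +kernel

theorem f_2162 (h : TabsF) : FrameF repsF 300 F_2162.f :=
  frame_of rfl c_2162 ((runs_of engOK r_2162_0).append ((runs_of engOK r_2162_1).append ((runs_of engOK r_2162_2).append (runs_of engOK r_2162_3)))) (by decide +kernel) h.1 h.2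

def F_2163 : FrX :=
  ⟨0x482000044040440000c204002000900018204000210200010088020003400800440010102400040080004088801084008000010a040402100c04204004,
    0xa0, 1, 0x104153718791a3, 7,
    [(0xa0, 1), (0x538690a2, 4), (0x548790a1, 4), (0x21437690, 4), (0x538690a2, 4), (0x548790a1, 4)],
    [(0x104153718791a3, 7), (0x214083a6, 4), (0x30758691, 4), (0x607583a4, 4), (0x30758691, 4), (0x436092a8, 4), (0x216475a0, 4), (0x607583a4, 4), (0x216475a0, 4), (0x638091a4, 4), (0x607583a4, 4), (0x436092a8, 4)]⟩

def c_2163 : frmChk tA tB F_2163 = true := by decide +kernel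

def r_2163_0 : chkL rootF engF2 tA tB sA_300 sB_300 4 F_2163 [(511, 0, 0)]
    0x1 = true := by
  decide +kernel

theorem f_2163 (h : TabsF) : FrameF repsF 300 F_2163.f :=
  frame_of rfl c_2163 (runs_of engOK r_2163_0) (by decide +kernel) h.1 h.2

def F_2164 : FrX :=
  ⟨0x80080a000804040e000021010020010000020408806000044100980000040820200204014000800208008008800500010000580230009403000c0202000,
    0xa6, 1, 0x314254708794a7, 7,
    [(0xa6, 1), (0x205396a8, 4), (0x10548796, 4), (0x214396a7, 4), (0x205396a8, 4), (0x10548796, 4)],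
    [(0x314254708794a7, 7), (0x617490a2, 4), (0x738592a6, 4), (0x108596a2, 4), (0x738592a6, 4), (0x204396a1, 4), (0x60748591, 4), (0x108596a2, 4), (0x60748591, 4), (0x106273a9, 4), (0x108596a2, 4), (0x204396a1, 4)]⟩

def c_2164 : frmChk tA tB F_2164 = true := by decide +kernel

def r_2164_0 : chkL rootF engF2 tA tB sA_300 sB_300 4 F_2164 [(511, 0, 0)]
    0x103c0f = true := by
  decide +kernel

theorem f_2164 (h : TabsF) : FrameF repsF 300 F_2164.f :=
  frame_of rfl c_2164 (runs_of engOK r_2164_0) (by decide +kernel) h.1 h.2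

def F_2165 : FrX :=
  ⟨0x2002000900044004000e02041000141000800040800800248020010008012108200400210080020800880410880040040241801010201800400002024004,
    0xa3, 1, 0x20415061768197a0, 8,
    [(0xa3, 1), (0x208693a5, 4), (0x10548793, 4), (0x217693a4, 4), (0x208693a5, 4), (0x10548793, 4)],
    [(0x20415061768197a0, 8), (0x325476a0, 4), (0x215496a8, 4), (0x31548097, 4), (0x325476a0, 4), (0x215496a8, 4)]⟩

def c_2165 : frmChk tA tA F_2165 = true := by decide +kernel

def r_2165_0 : chkL rootF engF2 tA tA sA_300 sA_300 4 F_2165 [(511, 0, 0)]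
    0x41d0e40f = true := by
  decide +kernel

theorem f_2165 (h : TabsF) : FrameF repsF 300 F_2165.f :=
  frame_of rfl c_2165 (runs_of engOK r_2165_0) (by decide +kernel) h.1 h.1

def F_2166 : FrX :=
  ⟨0x80080a000804040e0000210100200100000204088048080041002042080008200202042180800802001008001300004004104800200808a00201080c000,
    0xa6, 1, 0x325160748191a6, 7,
    [(0xa6, 1), (0x205396a8, 4), (0x10548796, 4), (0x214396a7, 4), (0x205396a8, 4), (0x10548796, 4)],
    [(0x325160748191a6, 7), (0x216380a5, 4), (0x54718096, 4), (0x728093a4, 4), (0x216380a5, 4), (0x54718096, 4)]⟩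

def c_2166 : frmChk tA tA F_2166 = true := by decide +kernel

def r_2166_0 : chkL rootF engF2 tA tA sA_300 sA_300 4 F_2166 [(511, 0, 0)]
    0x106d0b12c4b078c906c930b81e1c4530743a3842b0781ea301e12c2e12c5c06c17 = true := by
  decide +kernel

theorem f_2166 (h : TabsF) : FrameF repsF 300 F_2166.f :=
  frame_of rfl c_2166 (runs_of engOK r_2166_0) (by decide +kernel) h.1 h.1

def F_2167 : FrX :=
  ⟨0x2002000900044004000e0204100014100080004080800040180802001081005000108400582000902000008201102000000420a020800208101024080001,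
    0xa3, 1, 0x102042617495a2, 7,
    [(0xa3, 1), (0x208693a5, 4), (0x10548793, 4), (0x217693a4, 4), (0x208693a5, 4), (0x10548793, 4)],
    [(0x102042617495a2, 7), (0x308791a2, 4), (0x10546297, 4), (0x54708391, 4), (0x10546297, 4), (0x317098a6, 4), (0x547380a2, 4), (0x54708391, 4), (0x547380a2, 4), (0x62718390, 4), (0x54708391, 4), (0x317098a6, 4)]⟩

def c_2167 : frmChk tA tB F_2167 = true := by decide +kernel

def r_2167_0 : chkL rootF engF2 tA tB sA_300 sB_300 4 F_2167 [(511, 0, 0)]
    0x10781b = true := by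
  decide +kernel

theorem f_2167 (h : TabsF) : FrameF repsF 300 F_2167.f :=
  frame_of rfl c_2167 (runs_of engOK r_2167_0) (by decide +kernel) h.1 h.2

def F_2168 : FrX :=
  ⟨0x482000044040440000c204002000900018204000041201080408020002080202200004110400078000000010301010021002000a100000101a00808280,
    0xa0, 1, 0x51627282a0, 5,
    [(0xa0, 1), (0x538690a2, 4), (0x548790a1, 4), (0x21437690, 4), (0x538690a2, 4), (0x548790a1, 4)],
    [(0x51627282a0, 5), (0x326174a8, 4), (0x416290a5, 4), (0x42617390, 4), (0x416290a5, 4), (0x42637185, 4), (0x437290a8, 4), (0x42617390, 4), (0x437290a8, 4), (0x216473a5, 4), (0x42617390, 4), (0x42637185, 4)]⟩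

def c_2168 : frmChk tA tB F_2168 = true := by decide +kernel

def r_2168_0 : chkL rootF engF2 tA tB sA_300 sB_300 4 F_2168 [(511, 0, 0)]
    0x4c614c3905c360d41705c36 = true := by
  decide +kernel

theorem f_2168 (h : TabsF) : FrameF repsF 300 F_2168.f :=
  frame_of rfl c_2168 (runs_of engOK r_2168_0) (by decide +kernel) h.1 h.2

def F_2169 : FrX :=
  ⟨0x80080a000804040e000021010020010000020408900800004900a080080008200108040080202822000820040804100a100042010008040202004442000,
    0xa6, 1, 0x435161748691a6, 7,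
    [(0xa6, 1), (0x205396a8, 4), (0x10548796, 4), (0x214396a7, 4), (0x205396a8, 4), (0x10548796, 4)],
    [(0x435161748691a6, 7), (0x203175a4, 4), (0x718690a3, 4), (0x315486a7, 4), (0x718690a3, 4), (0x435192a7, 4), (0x207486a5, 4), (0x315486a7, 4), (0x207486a5, 4), (0x547390a1, 4), (0x315486a7, 4), (0x435192a7, 4)]⟩

def c_2169 : frmChk tA tB F_2169 = true := by decide +kernel

def r_2169_0 : chkL rootF engF2 tA tB sA_300 sB_300 4 F_2169 [(511, 0, 0)]
    0x16481e05d921541e3145a = true := by
  decide +kernel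

theorem f_2169 (h : TabsF) : FrameF repsF 300 F_2169.f :=
  frame_of rfl c_2169 (runs_of engOK r_2169_0) (by decide +kernel) h.1 h.2

def F_2170 : FrX :=
  ⟨0x482000044040440000c2040020009000182040010080080108000084014044220400001001080120000440802008808100091042110200101002000082,
    0xa0, 1, 0x2131405364768290a6, 9,
    [(0xa0, 1), (0x538690a2, 4), (0x548790a1, 4), (0x21437690, 4), (0x538690a2, 4), (0x548790a1, 4)],
    [(0x2131405364768290a6, 9), (0x527498a1, 4), (0x10627493, 4), (0x657483a0, 4), (0x527498a1, 4), (0x10627493, 4)]⟩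

def c_2170 : frmChk tA tA F_2170 = true := by decide +kernel

def r_2170_0 : chkL rootF engF2 tA tA sA_300 sA_300 4 F_2170 [(511, 0, 0)]
    0x109c1e0d81e = true := by
  decide +kernel

theorem f_2170 (h : TabsF) : FrameF repsF 300 F_2170.f :=
  frame_of rfl c_2170 (runs_of engOK r_2170_0) (by decide +kernel) h.1 h.1

def F_2171 : FrX :=
  ⟨0x1c2102000004044000002041000101000082040890080080000802400200404020404050000030400020140828008900088083004200021046002200000,
    0x0, 0, 0x53637486, 4,
    [(0x0, 0), (0x205386a9, 4), (0x105487a9, 4), (0x214376a9, 4), (0x205386a9, 4), (0x105487a9, 4)],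
    [(0x53637486, 4), (0x20437586, 4), (0x107384a9, 4), (0x436587a9, 4), (0x107384a9, 4), (0x21536487, 4), (0x207685a9, 4), (0x436587a9, 4), (0x207685a9, 4), (0x10657483, 4), (0x436587a9, 4), (0x21536487, 4)]⟩

def c_2171 : frmChk tA tB F_2171 = true := by decide +kernel

def r_2171_0 : chkL rootF engF2 tA tB sA_300 sB_300 4 F_2171 [(255, 0, 0), (256, 0, 4)]
    0x487 = true := by
  decide +kernel

def r_2171_1 : chkL rootF engF2 tA tB sA_300 sB_300 4 F_2171 [(256, 4, 6)]
    0x1 = true := by
  decide +kernel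

def r_2171_2 : chkL rootF engF2 tA tB sA_300 sB_300 4 F_2171 [(256, 10, 7)]
    0x1 = true := by
  decide +kernel

def r_2171_3 : chkL rootF engF2 tA tB sA_300 sB_300 4 F_2171 [(256, 17, 0)]
    0x1 = true := by
  decide +kernel

theorem f_2171 (h : TabsF) : FrameF repsF 300 F_2171.f :=
  frame_of rfl c_2171 ((runs_of engOK r_2171_0).append ((runs_of engOK r_2171_1).append ((runs_of engOK r_2171_2).append (runs_of engOK r_2171_3)))) (by decide +kernel) h.1 h.2

def F_2172 : FrX :=
  ⟨0x482000044040440000c2040020009000182040010020082001000180080107800000040804041010000030408020c000080801100180a0014120000084,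
    0xa0, 1, 0x21638695a3, 5,
    [(0xa0, 1), (0x538690a2, 4), (0x548790a1, 4), (0x21437690, 4), (0x538690a2, 4), (0x548790a1, 4)],
    [(0x21638695a3, 5), (0x104397a8, 4), (0x20658794, 4), (0x658497a3, 4), (0x20658794, 4), (0x218493a7, 4), (0x106583a4, 4), (0x658497a3, 4), (0x106583a4, 4), (0x207498a3, 4), (0x658497a3, 4), (0x218493a7, 4)]⟩

def c_2172 : frmChk tA tB F_2172 = true := by decide +kernel

def r_2172_0 : chkL rootF engF2 tA tB sA_300 sB_300 4 F_2172 [(511, 0, 0)]
    0x1 = true := by
  decide +kernel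

theorem f_2172 (h : TabsF) : FrameF repsF 300 F_2172.f :=
  frame_of rfl c_2172 (runs_of engOK r_2172_0) (by decide +kernel) h.1 h.2

def F_2173 : FrX :=
  ⟨0x80080a000804040e00002101002001000002040890020001404008808280004020011010000031000028000828001900024003004001021046080808000,
    0xa6, 1, 0x425163708696a8, 7,
    [(0xa6, 1), (0x205396a8, 4), (0x10548796, 4), (0x214396a7, 4), (0x205396a8, 4), (0x10548796, 4)],
    [(0x425163708696a8, 7), (0x107496a2, 4), (0x21758390, 4), (0x108392a6, 4), (0x21758390, 4), (0x546092a1, 4), (0x627483a9, 4), (0x108392a6, 4), (0x627483a9, 4), (0x207591a6, 4), (0x108392a6, 4), (0x546092a1, 4)]⟩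

def c_2173 : frmChk tA tB F_2173 = true := by decide +kernel

def r_2173_0 : chkL rootF engF2 tA tB sA_300 sB_300 4 F_2173 [(511, 0, 0)]
    0x4273240f = true := by
  decide +kernel

theorem f_2173 (h : TabsF) : FrameF repsF 300 F_2173.f :=
  frame_of rfl c_2173 (runs_of engOK r_2173_0) (by decide +kernel) h.1 h.2

def F_2174 : FrX :=
  ⟨0x482000044040440000c20400200090001820400008211000200001820040202080c0000888001010000004028700802018000410400604010220000204,
    0xa0, 1, 0x4152718096a1, 6,
    [(0xa0, 1), (0x538690a2, 4), (0x548790a1, 4), (0x21437690, 4), (0x538690a2, 4), (0x548790a1, 4)],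
    [(0x4152718096a1, 6), (0x10428593, 4), (0x217694a8, 4), (0x30427691, 4), (0x217694a8, 4), (0x204391a5, 4), (0x31768590, 4), (0x30427691, 4), (0x31768590, 4), (0x304192a8, 4), (0x30427691, 4), (0x204391a5, 4)]⟩

def c_2174 : frmChk tA tB F_2174 = true := by decide +kernel

def r_2174_0 : chkL rootF engF2 tA tB sA_300 sB_300 4 F_2174 [(511, 0, 0)]
    0x10b81e = true := by
  decide +kernel

theorem f_2174 (h : TabsF) : FrameF repsF 300 F_2174.f :=
  frame_of rfl c_2174 (runs_of engOK r_2174_0) (by decide +kernel) h.1 h.2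

def F_2175 : FrX :=
  ⟨0x2002000900044004000e02041000141000800040800402040402400200810800004088050100010202100008884404040201011001200000404042211000,
    0xa3, 1, 0x5461748596a0, 6,
    [(0xa3, 1), (0x208693a5, 4), (0x10548793, 4), (0x217693a4, 4), (0x208693a5, 4), (0x10548793, 4)],
    [(0x5461748596a0, 6), (0x748593a2, 4), (0x108795a6, 4), (0x10438597, 4), (0x108795a6, 4), (0x53628497, 4), (0x107394a2, 4), (0x10438597, 4), (0x107394a2, 4), (0x437598a6, 4), (0x10438597, 4), (0x53628497, 4)]⟩

def c_2175 : frmChk tA tB F_2175 = true := by decide +kernel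

def r_2175_0 : chkL rootF engF2 tA tB sA_300 sB_300 4 F_2175 [(511, 0, 0)]
    0x11a84e0ac6a0ac3505d192c50b0d41705c270cc532a4350d41b0d5295a01b0ac27 = true := by
  decide +kernel

theorem f_2175 (h : TabsF) : FrameF repsF 300 F_2175.f :=
  frame_of rfl c_2175 (runs_of engOK r_2175_0) (by decide +kernel) h.1 h.2

def F_2176 : FrX :=
  ⟨0x2002000900044004000e02041000141000800040810000012800802402004080140200104004005010040030488002800082080022001000411202002002,
    0xa3, 1, 0x518792a3, 4,
    [(0xa3, 1), (0x208693a5, 4), (0x10548793, 4), (0x217693a4, 4), (0x208693a5, 4), (0x10548793, 4)],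
    [(0x518792a3, 4), (0x748190a6, 4), (0x32415086, 4), (0x326481a7, 4), (0x32415086, 4), (0x647195a8, 4), (0x327690a4, 4), (0x326481a7, 4), (0x327690a4, 4), (0x506184a7, 4), (0x326481a7, 4), (0x647195a8, 4)]⟩

def c_2176 : frmChk tA tB F_2176 = true := by decide +kernel

def r_2176_0 : chkL rootF engF2 tA tB sA_300 sB_300 4 F_2176 [(511, 0, 0)]
    0x103d4c = true := by
  decide +kernel

theorem f_2176 (h : TabsF) : FrameF repsF 300 F_2176.f :=
  frame_of rfl c_2176 (runs_of engOK r_2176_0) (by decide +kernel) h.1 h.2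

def F_2177 : FrX :=
  ⟨0x600020801080810000c00401804101010010040020205000004004048090000083020008802020002001000c80200409002012000910c0010020200201,
    0xa0, 1, 0x3053648793a0, 6,
    [(0xa0, 1), (0x637584a2, 4), (0x547690a1, 4), (0x64758390, 4), (0x547690a1, 4), (0x21647385, 4), (0x438690a2, 4), (0x64758390, 4), (0x438690a2, 4), (0x657483a1, 4), (0x64758390, 4), (0x21647385, 4)],
    [(0x3053648793a0, 6), (0x768094a2, 4), (0x536084a1, 4), (0x53648097, 4), (0x536084a1, 4), (0x21647098, 4), (0x537496a2, 4), (0x53648097, 4), (0x537496a2, 4), (0x408697a1, 4), (0x53648097, 4), (0x21647098, 4)]⟩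

def c_2177 : frmChk tB tB F_2177 = true := by decide +kernel

def r_2177_0 : chkL rootF engF2 tB tB sB_300 sB_300 4 F_2177 [(511, 0, 0)]
    0x112e0b348d23481b348d2348d2348d20741d = true := by
  decide +kernel

theorem f_2177 (h : TabsF) : FrameF repsF 300 F_2177.f :=
  frame_of rfl c_2177 (runs_of engOK r_2177_0) (by decide +kernel) h.2 h.2

def F_2178 : FrX :=
  ⟨0x1001040012008080000e00840800410008101000042008024008400006000090048202001200008820001012000410420062204002000088082001000c40,
    0xa3, 1, 0x30415263728097a3, 8,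
    [(0xa3, 1), (0x207584a6, 4), (0x10547693, 4), (0x647593a8, 4), (0x10547693, 4), (0x216485a7, 4), (0x208693a4, 4), (0x647593a8, 4), (0x208693a4, 4), (0x106574a8, 4), (0x647593a8, 4), (0x216485a7, 4)],
    [(0x30415263728097a3, 8), (0x318792a0, 4), (0x21658490, 4), (0x106592a3, 4), (0x21658490, 4), (0x103274a9, 4), (0x306587a1, 4), (0x106592a3, 4), (0x306587a1, 4), (0x208491a3, 4), (0x106592a3, 4), (0x103274a9, 4)]⟩

def c_2178 : frmChk tB tB F_2178 = true := by decide +kernel

def r_2178_0 : chkL rootF engF2 tB tB sB_300 sB_300 4 F_2178 [(511, 0, 0)]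
    0x154551 = true := by
  decide +kernel

theorem f_2178 (h : TabsF) : FrameF repsF 300 F_2178.f :=
  frame_of rfl c_2178 (runs_of engOK r_2178_0) (by decide +kernel) h.2 h.2

def F_2179 : FrX :=
  ⟨0x1001040012008080000e008408004100081010000480101800a0000804020802420000202202020808004004003000410010821408200300101000800280,
    0xa3, 1, 0x2031408295a5, 6,
    [(0xa3, 1), (0x207584a6, 4), (0x10547693, 4), (0x647593a8, 4), (0x10547693, 4), (0x216485a7, 4), (0x208693a4, 4), (0x647593a8, 4), (0x208693a4, 4), (0x106574a8, 4), (0x647593a8, 4), (0x216485a7, 4)],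
    [(0x2031408295a5, 6), (0x206184a7, 4), (0x437695a2, 4), (0x106295a7, 4), (0x437695a2, 4), (0x627183a0, 4), (0x21608495, 4), (0x106295a7, 4), (0x21608495, 4), (0x104372a6, 4), (0x106295a7, 4), (0x627183a0, 4)]⟩

def c_2179 : frmChk tB tB F_2179 = true := by decide +kernel

def r_2179_0 : chkL rootF engF2 tB tB sB_300 sB_300 4 F_2179 [(511, 0, 0)]
    0x10e82b4a52507417 = true := by
  decide +kernel

theorem f_2179 (h : TabsF) : FrameF repsF 300 F_2179.f :=
  frame_of rfl c_2179 (runs_of engOK r_2179_0) (by decide +kernel) h.2 h.2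

theorem cl_300 (h : TabsF) : ∀ f ∈ fr_300, FrameF repsF 300 f :=
  List.forall_mem_cons.2 ⟨f_2152 h, List.forall_mem_cons.2 ⟨f_2153 h, List.forall_mem_cons.2 ⟨f_2154 h, List.forall_mem_cons.2 ⟨f_2155 h, List.forall_mem_cons.2 ⟨f_2156 h, List.forall_mem_cons.2 ⟨f_2157 h, List.forall_mem_cons.2 ⟨f_2158 h, List.forall_mem_cons.2 ⟨f_2159 h, List.forall_mem_cons.2 ⟨f_2160 h, List.forall_mem_cons.2 ⟨f_2161 h, List.forall_mem_cons.2 ⟨f_2162 h, List.forall_mem_cons.2 ⟨f_2163 h, List.forall_mem_cons.2 ⟨f_2164 h, List.forall_mem_cons.2 ⟨f_2165 h, List.forall_mem_cons.2 ⟨f_2166 h, List.forall_mem_cons.2 ⟨f_2167 h, List.forall_mem_cons.2 ⟨f_2168 h, List.forall_mem_cons.2 ⟨f_2169 h, List.forall_mem_cons.2 ⟨f_2170 h, List.forall_mem_cons.2 ⟨f_2171 h, List.forall_mem_cons.2 ⟨f_2172 h, List.forall_mem_cons.2 ⟨f_2173 h, List.forall_mem_cons.2 ⟨f_2174 h, List.forall_mem_cons.2 ⟨f_2175 h, List.forall_mem_cons.2 ⟨f_2176 h, List.forall_mem_cons.2 ⟨f_2177 h, List.forall_mem_cons.2 ⟨f_2178 h, List.forall_mem_cons.2 ⟨f_2179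 h,
    fun _ h0 => absurd h0 List.not_mem_nil⟩⟩⟩⟩⟩⟩⟩⟩⟩⟩⟩⟩⟩⟩⟩⟩⟩⟩⟩⟩⟩⟩⟩⟩⟩⟩⟩⟩

def F_2180 : FrX :=
  ⟨0x2002000900044004000e02041000141000800040804000280100c00011010400040023020002808024020280408000802004202004100201010202102001,
    0xa3, 1, 0x42548091a5, 5,
    [(0xa3, 1), (0x208693a5, 4), (0x10548793, 4), (0x217693a4, 4), (0x208693a5, 4), (0x10548793, 4)],
    [(0x42548091a5, 5), (0x506384a7, 4), (0x217698a5, 4), (0x213065a7, 4), (0x217698a5, 4), (0x657394a0, 4), (0x21536084, 4), (0x213065a7, 4), (0x21536084, 4), (0x307598a6, 4), (0x213065a7, 4), (0x657394a0, 4)]⟩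

def c_2180 : frmChk tA tB F_2180 = true := by decide +kernel

def r_2180_0 : chkL rootF engF2 tA tB sA_301 sB_301 4 F_2180 [(511, 0, 0)]
    0x4171344d0e5314e02b1701d0ac17 = true := by
  decide +kernel

theorem f_2180 (h : TabsF) : FrameF repsF 301 F_2180.f :=
  frame_of rfl c_2180 (runs_of engOK r_2180_0) (by decide +kernel) h.1 h.2

def F_2181 : FrX :=
  ⟨0x482000044040440000c2040020009000182040020004008100200084020a00048880000082022002020220600081802080000230010202002202000012,
    0xa0, 1, 0x325060728697a1, 7,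
    [(0xa0, 1), (0x538690a2, 4), (0x548790a1, 4), (0x21437690, 4), (0x538690a2, 4), (0x548790a1, 4)],
    [(0x325060728697a1, 7), (0x54768290, 4), (0x314098a6, 4), (0x31528490, 4), (0x314098a6, 4), (0x508492a7, 4), (0x31427685, 4), (0x31528490, 4), (0x31427685, 4), (0x528094a6, 4), (0x31528490, 4), (0x508492a7, 4)]⟩

def c_2181 : frmChk tA tB F_2181 = true := by decide +kernel

def r_2181_0 : chkL rootF engF2 tA tB sA_301 sB_301 4 F_2181 [(511, 0, 0)]
    0x10787209c2709c270ac360ac1b1c47139069 = true := by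
  decide +kernel

theorem f_2181 (h : TabsF) : FrameF repsF 301 F_2181.f :=
  frame_of rfl c_2181 (runs_of engOK r_2181_0) (by decide +kernel) h.1 h.2

def F_2182 : FrX :=
  ⟨0x2002000900044004000e0204100014100080004082002028200040011101010004002800008202020c000801002048800201002048080000014402220240,
    0xa3, 1, 0x1050647081a0, 6,
    [(0xa3, 1), (0x208693a5, 4), (0x10548793, 4), (0x217693a4, 4), (0x208693a5, 4), (0x10548793, 4)],
    [(0x1050647081a0, 6), (0x314097a2, 4), (0x506197a8, 4), (0x54638297, 4), (0x314097a2, 4), (0x506197a8, 4)]⟩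

def c_2182 : frmChk tA tA F_2182 = true := by decide +kernel

def r_2182_0 : chkL rootF engF2 tA tA sA_301 sA_301 4 F_2182 [(511, 0, 0)]
    0x105e1a8e00f0d51903c5503c1d = true := by
  decide +kernel

theorem f_2182 (h : TabsF) : FrameF repsF 301 F_2182.f :=
  frame_of rfl c_2182 (runs_of engOK r_2182_0) (by decide +kernel) h.1 h.1

def F_2183 : FrX :=
  ⟨0x80080a000804040e000021010020010000020408a0000802200028402004080041010800202809020028400400202801040000006021002010100408090,
    0xa6, 1, 0x3151648298a6, 6,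
    [(0xa6, 1), (0x205396a8, 4), (0x10548796, 4), (0x214396a7, 4), (0x205396a8, 4), (0x10548796, 4)],
    [(0x3151648298a6, 6), (0x314280a9, 4), (0x42506397, 4), (0x426185a7, 4), (0x314280a9, 4), (0x42506397, 4)]⟩

def c_2183 : frmChk tA tA F_2183 = true := by decide +kernel

def r_2183_0 : chkL rootF engF2 tA tA sA_301 sA_301 4 F_2183 [(511, 0, 0)]
    0x122c2b294352c8b10d71494a7005c1d14c0f = true := by
  decide +kernel

theorem f_2183 (h : TabsF) : FrameF repsF 301 F_2183.f :=
  frame_of rfl c_2183 (runs_of engOK r_2183_0) (by decide +kernel) h.1 h.1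

def F_2184 : FrX :=
  ⟨0x482000044040440000c2040020009000182040020001100100080804010c0120020010020128020a000008122001802080000408090001000a08010210,
    0xa0, 1, 0x3251637297a6, 6,
    [(0xa0, 1), (0x538690a2, 4), (0x548790a1, 4), (0x21437690, 4), (0x538690a2, 4), (0x548790a1, 4)],
    [(0x3251637297a6, 6), (0x326170a8, 4), (0x32415098, 4), (0x326475a9, 4), (0x326170a8, 4), (0x32415098, 4)]⟩

def c_2184 : frmChk tA tA F_2184 = true := by decide +kernel

def r_2184_0 : chkL rootF engF2 tA tA sA_301 sA_301 4 F_2184 [(511, 0, 0)]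
    0x42e0ac17 = true := by
  decide +kernel

theorem f_2184 (h : TabsF) : FrameF repsF 301 F_2184.f :=
  frame_of rfl c_2184 (runs_of engOK r_2184_0) (by decide +kernel) h.1 h.1

def F_2185 : FrX :=
  ⟨0x80080a000804040e00002101002001000002040881101012020008100004082009000080902000202010040202040802048040011003002401010200210,
    0xa6, 1, 0x42517287a1, 5,
    [(0xa6, 1), (0x205396a8, 4), (0x10548796, 4), (0x214396a7, 4), (0x205396a8, 4), (0x10548796, 4)],
    [(0x42517287a1, 5), (0x42637081, 4), (0x218695a0, 4), (0x43628195, 4), (0x218695a0, 4), (0x416283a7, 4), (0x32647095, 4), (0x43628195, 4), (0x32647095, 4), (0x436182a0, 4), (0x43628195, 4), (0x416283a7, 4)]⟩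

def c_2185 : frmChk tA tB F_2185 = true := by decide +kernel

def r_2185_0 : chkL rootF engF2 tA tB sA_301 sB_301 4 F_2185 [(511, 0, 0)]
    0x4ca03c0f11d194651909c0f03c9a03c0f06c47 = true := by
  decide +kernel

theorem f_2185 (h : TabsF) : FrameF repsF 301 F_2185.f :=
  frame_of rfl c_2185 (runs_of engOK r_2185_0) (by decide +kernel) h.1 h.2

def F_2186 : FrX :=
  ⟨0x80080a000804040e0000210100200100000204088101200022000810002401004801100402200100840810100404080024200002a000602010003000280,
    0xa6, 1, 0x314150627491a2, 7,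
    [(0xa6, 1), (0x205396a8, 4), (0x10548796, 4), (0x214396a7, 4), (0x205396a8, 4), (0x10548796, 4)],
    [(0x314150627491a2, 7), (0x213087a5, 4), (0x32647095, 4), (0x30647281, 4), (0x32647095, 4), (0x317280a9, 4), (0x647182a5, 4), (0x30647281, 4), (0x647182a5, 4), (0x20738195, 4), (0x30647281, 4), (0x317280a9, 4)]⟩

def c_2186 : frmChk tA tB F_2186 = true := by decide +kernel

def r_2186_0 : chkL rootF engF2 tA tB sA_301 sB_301 4 F_2186 [(511, 0, 0)]
    0x12340f03c1d = true := by
  decide +kernel

theorem f_2186 (h : TabsF) : FrameF repsF 301 F_2186.f :=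
  frame_of rfl c_2186 (runs_of engOK r_2186_0) (by decide +kernel) h.1 h.2

def F_2187 : FrX :=
  ⟨0x1001040012008080000e00840800410008101000042100001108022000200050080208082020200800022402020010802040200809420004060000808300,
    0xa3, 1, 0x10214251608695a3, 8,
    [(0xa3, 1), (0x207584a6, 4), (0x10547693, 4), (0x647593a8, 4), (0x10547693, 4), (0x216485a7, 4), (0x208693a4, 4), (0x647593a8, 4), (0x208693a4, 4), (0x106574a8, 4), (0x647593a8, 4), (0x216485a7, 4)],
    [(0x10214251608695a3, 8), (0x106497a8, 4), (0x32658790, 4), (0x328097a1, 4), (0x32658790, 4), (0x548091a7, 4), (0x326481a0, 4), (0x328097a1, 4), (0x326481a0, 4), (0x657098a1, 4), (0x328097a1, 4), (0x548091a7, 4)]⟩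

def c_2187 : frmChk tB tB F_2187 = true := by decide +kernel

def r_2187_0 : chkL rootF engF2 tB tB sB_301 sB_301 4 F_2187 [(511, 0, 0)]
    0x103c0f13594 = true := by
  decide +kernel

theorem f_2187 (h : TabsF) : FrameF repsF 301 F_2187.f :=
  frame_of rfl c_2187 (runs_of engOK r_2187_0) (by decide +kernel) h.2 h.2

def F_2188 : FrX :=
  ⟨0x1001040012008080000e00840800410008101000060000028080400142002030030200000100404140084200400010202000088802000808082003001062,
    0xa3, 1, 0x324065718295a6, 7,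
    [(0xa3, 1), (0x207584a6, 4), (0x10547693, 4), (0x647593a8, 4), (0x10547693, 4), (0x216485a7, 4), (0x208693a4, 4), (0x647593a8, 4), (0x208693a4, 4), (0x106574a8, 4), (0x647593a8, 4), (0x216485a7, 4)],
    [(0x324065718295a6, 7), (0x658492a3, 4), (0x31657490, 4), (0x206587a1, 4), (0x658492a3, 4), (0x31657490, 4)]⟩

def c_2188 : frmChk tB tA F_2188 = true := by decide +kernel

def r_2188_0 : chkL rootF engF2 tB tA sB_301 sA_301 4 F_2188 [(511, 0, 0)]
    0x668d803c06c0f = true := by
  decide +kernel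

theorem f_2188 (h : TabsF) : FrameF repsF 301 F_2188.f :=
  frame_of rfl c_2188 (runs_of engOK r_2188_0) (by decide +kernel) h.2 h.1

def F_2189 : FrX :=
  ⟨0x1001040012008080000e00840800410008101000040808028108028000220010080000882100100140022400820010802040000111020400108800809100,
    0xa3, 1, 0x10507481a5, 5,
    [(0xa3, 1), (0x207584a6, 4), (0x10547693, 4), (0x647593a8, 4), (0x10547693, 4), (0x216485a7, 4), (0x208693a4, 4), (0x647593a8, 4), (0x208693a4, 4), (0x106574a8, 4), (0x647593a8, 4), (0x216485a7, 4)],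
    [(0x10507481a5, 5), (0x526091a3, 4), (0x408591a7, 4), (0x64738291, 4), (0x526091a3, 4), (0x408591a7, 4)]⟩

def c_2189 : frmChk tB tA F_2189 = true := by decide +kernel

def r_2189_0 : chkL rootF engF2 tB tA sB_301 sA_301 4 F_2189 [(511, 0, 0)]
    0x44b05c4b03c0fb405cb40d214cd2 = true := by
  decide +kernel

theorem f_2189 (h : TabsF) : FrameF repsF 301 F_2189.f :=
  frame_of rfl c_2189 (runs_of engOK r_2189_0) (by decide +kernel) h.2 h.1

def F_2190 : FrX :=
  ⟨0x1c4044000008081000000840080410000101084050100008001008008102000280440082000140100122400920210840040200110020804008c00008008,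
    0x0, 0, 0x84a9, 2,
    [(0x0, 0), (0x20637584, 4), (0x105476a9, 4), (0x647583a9, 4), (0x105476a9, 4), (0x21647385, 4), (0x204386a9, 4), (0x647583a9, 4), (0x204386a9, 4), (0x10657483, 4), (0x647583a9, 4), (0x21647385, 4)],
    [(0x84a9, 2), (0x205364a9, 4), (0x107485a9, 4), (0x217683a9, 4), (0x205364a9, 4), (0x107485a9, 4)]⟩

def c_2190 : frmChk tB tA F_2190 = true := by decide +kernel

def r_2190_0 : chkL rootF engF2 tB tA sB_301 sA_301 4 F_2190 [(255, 0, 0), (256, 0, 5)]
    0x1 = true := by
  decide +kernel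

def r_2190_1 : chkL rootF engF2 tB tA sB_301 sA_301 4 F_2190 [(256, 5, 12)]
    0x1 = true := by
  decide +kernel

def r_2190_2 : chkL rootF engF2 tB tA sB_301 sA_301 4 F_2190 [(256, 17, 4)]
    0x1 = true := by
  decide +kernel

def r_2190_3 : chkL rootF engF2 tB tA sB_301 sA_301 4 F_2190 [(256, 21, 0)]
    0x1 = true := by
  decide +kernel

theorem f_2190 (h : TabsF) : FrameF repsF 301 F_2190.f :=
  frame_of rfl c_2190 ((runs_of engOK r_2190_0).append ((runs_of engOK r_2190_1).append ((runs_of engOK r_2190_2).append (runs_of engOK r_2190_3)))) (by decide +kernel) h.2 h.1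

def F_2191 : FrX :=
  ⟨0x1001040012008080000e00840800410008101000040820081020010023000020048048004080100208004808411000210014801000400440014100008084,
    0xa3, 1, 0x4152738096a3, 6,
    [(0xa3, 1), (0x207584a6, 4), (0x10547693, 4), (0x647593a8, 4), (0x10547693, 4), (0x216485a7, 4), (0x208693a4, 4), (0x647593a8, 4), (0x208693a4, 4), (0x106574a8, 4), (0x647593a8, 4), (0x216485a7, 4)],
    [(0x4152738096a3, 6), (0x103285a9, 4), (0x21768493, 4), (0x327691a0, 4), (0x21768493, 4), (0x205491a3, 4), (0x768590a1, 4), (0x327691a0, 4), (0x768590a1, 4), (0x318492a0, 4), (0x327691a0, 4), (0x205491a3, 4)]⟩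

def c_2191 : frmChk tB tB F_2191 = true := by decide +kernel

def r_2191_0 : chkL rootF engF2 tB tB sB_301 sB_301 4 F_2191 [(511, 0, 0)]
    0x1 = true := by
  decide +kernel

theorem f_2191 (h : TabsF) : FrameF repsF 301 F_2191.f :=
  frame_of rfl c_2191 (runs_of engOK r_2191_0) (by decide +kernel) h.2 h.2

def F_2192 : FrX :=
  ⟨0x600020801080810000c0040180410101001004010100004400001810800884004800101000230100402400608020022380080400004040400000440042,
    0xa0, 1, 0x10204365728197a0, 8,
    [(0xa0, 1), (0x637584a2, 4), (0x547690a1, 4), (0x64758390, 4), (0x547690a1, 4), (0x21647385, 4), (0x438690a2, 4), (0x64758390, 4), (0x438690a2, 4), (0x657483a1, 4), (0x64758390, 4), (0x21647385, 4)],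
    [(0x10204365728197a0, 8), (0x305496a7, 4), (0x216395a8, 4), (0x21405396, 4), (0x216395a8, 4), (0x53608794, 4), (0x214350a7, 4), (0x21405396, 4), (0x214350a7, 4), (0x406593a8, 4), (0x21405396, 4), (0x53608794, 4)]⟩

def c_2192 : frmChk tB tB F_2192 = true := by decide +kernel

def r_2192_0 : chkL rootF engF2 tB tB sB_301 sB_301 4 F_2192 [(511, 0, 0)]
    0x435 = true := by
  decide +kernel

theorem f_2192 (h : TabsF) : FrameF repsF 301 F_2192.f :=
  frame_of rfl c_2192 (runs_of engOK r_2192_0) (by decide +kernel) h.2 h.2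

def F_2193 : FrX :=
  ⟨0x1001040012008080000e0084080041000810100004400802080140002102000004a001404080006000091a00200808420001008202000088082009400040,
    0xa3, 1, 0x105365768498a0, 7,
    [(0xa3, 1), (0x207584a6, 4), (0x10547693, 4), (0x647593a8, 4), (0x10547693, 4), (0x216485a7, 4), (0x208693a4, 4), (0x647593a8, 4), (0x208693a4, 4), (0x106574a8, 4), (0x647593a8, 4), (0x216485a7, 4)],
    [(0x105365768498a0, 7), (0x416597a2, 4), (0x418693a0, 4), (0x20417385, 4), (0x416597a2, 4), (0x418693a0, 4)]⟩

def c_2193 : frmChk tB tA F_2193 = true := by decide +kernel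

def r_2193_0 : chkL rootF engF2 tB tA sB_301 sA_301 4 F_2193 [(511, 0, 0)]
    0x10b82e0d41d = true := by
  decide +kernel

theorem f_2193 (h : TabsF) : FrameF repsF 301 F_2193.f :=
  frame_of rfl c_2193 (runs_of engOK r_2193_0) (by decide +kernel) h.2 h.1

def F_2194 : FrX :=
  ⟨0x600020801080810000c0040180410101001004001200021200400804009400049000004020200068210010008001800804201200050000210040081801,
    0xa0, 1, 0x102032406384a1, 7,
    [(0xa0, 1), (0x637584a2, 4), (0x547690a1, 4), (0x64758390, 4), (0x547690a1, 4), (0x21647385, 4), (0x438690a2, 4), (0x64758390, 4), (0x438690a2, 4), (0x657483a1, 4), (0x64758390, 4), (0x21647385, 4)],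
    [(0x102032406384a1, 7), (0x21436590, 4), (0x728590a4, 4), (0x718690a3, 4), (0x21436590, 4), (0x728590a4, 4)]⟩

def c_2194 : frmChk tB tA F_2194 = true := by decide +kernel

def r_2194_0 : chkL rootF engF2 tB tA sB_301 sA_301 4 F_2194 [(511, 0, 0)]
    0x109c1d0746a159071581d2b01d074a6074a605c27074a9 = true := by
  decide +kernel

theorem f_2194 (h : TabsF) : FrameF repsF 301 F_2194.f :=
  frame_of rfl c_2194 (runs_of engOK r_2194_0) (by decide +kernel) h.2 h.1

def F_2195 : FrX :=
  ⟨0x1001040012008080000e008408004100081010000405001801081020002000441000080a0000280000422d00020000202100140808030040060000820300,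
    0xa3, 1, 0x102032407183a5, 7,
    [(0xa3, 1), (0x207584a6, 4), (0x10547693, 4), (0x647593a8, 4), (0x10547693, 4), (0x216485a7, 4), (0x208693a4, 4), (0x647593a8, 4), (0x208693a4, 4), (0x106574a8, 4), (0x647593a8, 4), (0x216485a7, 4)],
    [(0x102032407183a5, 7), (0x436195a8, 4), (0x107495a2, 4), (0x60738295, 4), (0x436195a8, 4), (0x107495a2, 4)]⟩

def c_2195 : frmChk tB tA F_2195 = true := by decide +kernel

def r_2195_0 : chkL rootF engF2 tB tA sB_301 sA_301 4 F_2195 [(511, 0, 0)]
    0x42703c35 = true := by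
  decide +kernel

theorem f_2195 (h : TabsF) : FrameF repsF 301 F_2195.f :=
  frame_of rfl c_2195 (runs_of engOK r_2195_0) (by decide +kernel) h.2 h.1

def F_2196 : FrX :=
  ⟨0x600020801080810000c004018041010100100400104400200011000420a00000830202022004003800001200090014044000081010200800c101010020,
    0xa0, 1, 0x2150768493a0, 6,
    [(0xa0, 1), (0x637584a2, 4), (0x547690a1, 4), (0x64758390, 4), (0x547690a1, 4), (0x21647385, 4), (0x438690a2, 4), (0x64758390, 4), (0x438690a2, 4), (0x657483a1, 4), (0x64758390, 4), (0x21647385, 4)],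
    [(0x2150768493a0, 6), (0x608497a1, 4), (0x537680a2, 4), (0x53608794, 4), (0x537680a2, 4), (0x21408796, 4), (0x537498a1, 4), (0x53608794, 4), (0x537498a1, 4), (0x708694a2, 4), (0x53608794, 4), (0x21408796, 4)]⟩

def c_2196 : frmChk tB tB F_2196 = true := by decide +kernel

def r_2196_0 : chkL rootF engF2 tB tB sB_301 sB_301 4 F_2196 [(511, 0, 0)]
    0x4781e0781982d0cc53074781e07805c2d0b4781e0781350741e49c190b42c2741c2d0cc3341ea123453a142d0cc33 = true := by
  decide +kernel

theorem f_2196 (h : TabsF) : FrameF repsF 301 F_2196.f :=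
  frame_of rfl c_2196 (runs_of engOK r_2196_0) (by decide +kernel) h.2 h.2

def F_2197 : FrX :=
  ⟨0x1001040012008080000e00840800410008101000060000100480102102002020830200024000404008084b00100000210100080802002840002003000c04,
    0xa3, 1, 0x1040548296a3, 6,
    [(0xa3, 1), (0x207584a6, 4), (0x10547693, 4), (0x647593a8, 4), (0x10547693, 4), (0x216485a7, 4), (0x208693a4, 4), (0x647593a8, 4), (0x208693a4, 4), (0x106574a8, 4), (0x647593a8, 4), (0x216485a7, 4)],
    [(0x1040548296a3, 6), (0x527184a9, 4), (0x40516397, 4), (0x637195a2, 4), (0x40516397, 4), (0x218095a7, 4), (0x638492a5, 4), (0x637195a2, 4), (0x638492a5, 4), (0x407591a2, 4), (0x637195a2, 4), (0x218095a7, 4)]⟩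

def c_2197 : frmChk tB tB F_2197 = true := by decide +kernel

def r_2197_0 : chkL rootF engF2 tB tB sB_301 sB_301 4 F_2197 [(511, 0, 0)]
    0x115478154330cc5509c551549a09c2705e8cb128cb12139442e1e0590ac2d154a61542e0b41e = true := by
  decide +kernel

theorem f_2197 (h : TabsF) : FrameF repsF 301 F_2197.f :=
  frame_of rfl c_2197 (runs_of engOK r_2197_0) (by decide +kernel) h.2 h.2

def F_2198 : FrX :=
  ⟨0x482000044040440000c2040020009000182040010080080101000182400100804820000804040410000220408010840080080110000604011230000005,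
    0xa0, 1, 0x31405061718397a1, 8,
    [(0xa0, 1), (0x538690a2, 4), (0x548790a1, 4), (0x21437690, 4), (0x538690a2, 4), (0x548790a1, 4)],
    [(0x31405061718397a1, 8), (0x31527684, 4), (0x407691a5, 4), (0x768093a2, 4), (0x31527684, 4), (0x407691a5, 4)]⟩

def c_2198 : frmChk tA tA F_2198 = true := by decide +kernel

def r_2198_0 : chkL rootF engF2 tA tA sA_301 sA_301 4 F_2198 [(511, 0, 0)]
    0x42b0cc330d8170781e = true := by
  decide +kernel

theorem f_2198 (h : TabsF) : FrameF repsF 301 F_2198.f :=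
  frame_of rfl c_2198 (runs_of engOK r_2198_0) (by decide +kernel) h.1 h.1

def F_2199 : FrX :=
  ⟨0x2002000900044004000e02041000141000800040800400484020600010010c00020024001104001084040500011000801000081084020aa0000140001001,
    0xa3, 1, 0x4051728396a3, 6,
    [(0xa3, 1), (0x208693a5, 4), (0x10548793, 4), (0x217693a4, 4), (0x208693a5, 4), (0x10548793, 4)],
    [(0x4051728396a3, 6), (0x748693a1, 4), (0x10325486, 4), (0x758692a0, 4), (0x748693a1, 4), (0x10325486, 4)]⟩

def c_2199 : frmChk tA tA F_2199 = true := by decide +kernel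

def r_2199_0 : chkL rootF engF2 tA tA sA_301 sA_301 4 F_2199 [(511, 0, 0)]
    0x48d0e81b = true := by
  decide +kernel

theorem f_2199 (h : TabsF) : FrameF repsF 301 F_2199.f :=
  frame_of rfl c_2199 (runs_of engOK r_2199_0) (by decide +kernel) h.1 h.1

def F_2200 : FrX :=
  ⟨0x1c21020000040440000020410001010000820408a0001100000082100202101000204040104060410800804081120c00202180080010000404220400200,
    0x0, 0, 0x21537386, 4,
    [(0x0, 0), (0x205386a9, 4), (0x105487a9, 4), (0x214376a9, 4), (0x205386a9, 4), (0x105487a9, 4)],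
    [(0x21537386, 4), (0x10536487, 4), (0x204385a9, 4), (0x537684a9, 4), (0x204385a9, 4), (0x21637584, 4), (0x107486a9, 4), (0x537684a9, 4), (0x107486a9, 4), (0x20547683, 4), (0x537684a9, 4), (0x21637584, 4)]⟩

def c_2200 : frmChk tA tB F_2200 = true := by decide +kernel

def r_2200_0 : chkL rootF engF2 tA tB sA_301 sB_301 4 F_2200 [(255, 0, 0), (256, 0, 10)]
    0x1 = true := by
  decide +kernel

def r_2200_1 : chkL rootF engF2 tA tB sA_301 sB_301 4 F_2200 [(256, 10, 13)]
    0x1 = true := by
  decide +kernel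

def r_2200_2 : chkL rootF engF2 tA tB sA_301 sB_301 4 F_2200 [(256, 23, 4)]
    0x11d078154534b02e1714c5254c5615412e4a15b0c = true := by
  decide +kernel

def r_2200_3 : chkL rootF engF2 tA tB sA_301 sB_301 4 F_2200 [(256, 27, 0)]
    0x1 = true := by
  decide +kernel

theorem f_2200 (h : TabsF) : FrameF repsF 301 F_2200.f :=
  frame_of rfl c_2200 ((runs_of engOK r_2200_0).append ((runs_of engOK r_2200_1).append ((runs_of engOK r_2200_2).append (runs_of engOK r_2200_3)))) (by decide +kernel) h.1 h.2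

def F_2201 : FrX :=
  ⟨0x2002000900044004000e0204100014100080004080040048400240020101480002002020110400040c000100800060040b000810a0000820002042201004,
    0xa3, 1, 0x324351617397a3, 7,
    [(0xa3, 1), (0x208693a5, 4), (0x10548793, 4), (0x217693a4, 4), (0x208693a5, 4), (0x10548793, 4)],
    [(0x324351617397a3, 7), (0x308291a5, 4), (0x21607495, 4), (0x527491a8, 4), (0x21607495, 4), (0x526381a9, 4), (0x307485a2, 4), (0x527491a8, 4), (0x307485a2, 4), (0x516092a8, 4), (0x527491a8, 4), (0x526381a9, 4)]⟩

def c_2201 : frmChk tA tB F_2201 = true := by decide +kernel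

def r_2201_0 : chkL rootF engF2 tA tB sA_301 sB_301 4 F_2201 [(511, 0, 0)]
    0x41d05c17 = true := by
  decide +kernel

theorem f_2201 (h : TabsF) : FrameF repsF 301 F_2201.f :=
  frame_of rfl c_2201 (runs_of engOK r_2201_0) (by decide +kernel) h.1 h.2

def F_2202 : FrX :=
  ⟨0x2002000900044004000e020410001410008000408080004c1000a0001081200100000410120080848010002001102004000180a08080400040c220009000,
    0xa3, 1, 0x1030415381a3, 6,
    [(0xa3, 1), (0x208693a5, 4), (0x10548793, 4), (0x217693a4, 4), (0x208693a5, 4), (0x10548793, 4)],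
    [(0x1030415381a3, 6), (0x326495a1, 4), (0x10748395, 4), (0x768295a0, 4), (0x326495a1, 4), (0x10748395, 4)]⟩

def c_2202 : frmChk tA tA F_2202 = true := by decide +kernel

def r_2202_0 : chkL rootF engF2 tA tA sA_301 sA_301 4 F_2202 [(511, 0, 0)]
    0x105c0f09c8d06c1b0ac2b0cc1709e258b01705c1ea4ad00784d = true := by
  decide +kernel

theorem f_2202 (h : TabsF) : FrameF repsF 301 F_2202.f :=
  frame_of rfl c_2202 (runs_of engOK r_2202_0) (by decide +kernel) h.1 h.1

def F_2203 : FrX :=
  ⟨0x80080a000804040e0000210100200100000204088208020011008010020040800101410110204812001000008840804110004201000800a000904440000,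
    0xa6, 1, 0x65718693a2, 5,
    [(0xa6, 1), (0x205396a8, 4), (0x10548796, 4), (0x214396a7, 4), (0x205396a8, 4), (0x10548796, 4)],
    [(0x65718693a2, 5), (0x546198a0, 4), (0x32647081, 4), (0x32618495, 4), (0x32647081, 4), (0x658491a7, 4), (0x328594a0, 4), (0x32618495, 4), (0x328594a0, 4), (0x41708695, 4), (0x32618495, 4), (0x658491a7, 4)]⟩

def c_2203 : frmChk tA tB F_2203 = true := by decide +kernel

def r_2203_0 : chkL rootF engF2 tA tB sA_301 sB_301 4 F_2203 [(511, 0, 0)]
    0x42711d0b1344d198661987422d83c0f81 = true := by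
  decide +kernel

theorem f_2203 (h : TabsF) : FrameF repsF 301 F_2203.f :=
  frame_of rfl c_2203 (runs_of engOK r_2203_0) (by decide +kernel) h.1 h.2

def F_2204 : FrX :=
  ⟨0x482000044040440000c2040020009000182040010010100800800810020908208010004004004480100804501010402010808008040400100a00040084,
    0xa0, 1, 0x103140528297a3, 7,
    [(0xa0, 1), (0x538690a2, 4), (0x548790a1, 4), (0x21437690, 4), (0x538690a2, 4), (0x548790a1, 4)],
    [(0x103140528297a3, 7), (0x518492a6, 4), (0x21437096, 4), (0x617092a5, 4), (0x21437096, 4), (0x526183a9, 4), (0x657084a1, 4), (0x617092a5, 4), (0x657084a1, 4), (0x436291a5, 4), (0x617092a5, 4), (0x526183a9, 4)]⟩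

def c_2204 : frmChk tA tB F_2204 = true := by decide +kernel

def r_2204_0 : chkL rootF engF2 tA tB sA_301 sB_301 4 F_2204 [(511, 0, 0)]
    0x41d0741d0781d0ae0b = true := by
  decide +kernel

theorem f_2204 (h : TabsF) : FrameF repsF 301 F_2204.f :=
  frame_of rfl c_2204 (runs_of engOK r_2204_0) (by decide +kernel) h.1 h.2

def F_2205 : FrX :=
  ⟨0x80080a000804040e0000210100200100000204089002000141001800820400402001100100402100800800080804400c0240800404004220008804c0080,
    0xa6, 1, 0x32417095a8, 5,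
    [(0xa6, 1), (0x205396a8, 4), (0x10548796, 4), (0x214396a7, 4), (0x205396a8, 4), (0x10548796, 4)],
    [(0x32417095a8, 5), (0x627390a1, 4), (0x60748591, 4), (0x618590a2, 4), (0x60748591, 4), (0x204361a9, 4), (0x217385a6, 4), (0x618590a2, 4), (0x217385a6, 4), (0x107496a2, 4), (0x618590a2, 4), (0x204361a9, 4)]⟩

def c_2205 : frmChk tA tB F_2205 = true := by decide +kernel

def r_2205_0 : chkL rootF engF2 tA tB sA_301 sB_301 4 F_2205 [(511, 0, 0)]
    0x43ad07420e827 = true := by
  decide +kernel

theorem f_2205 (h : TabsF) : FrameF repsF 301 F_2205.f :=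
  frame_of rfl c_2205 (runs_of engOK r_2205_0) (by decide +kernel) h.1 h.2

def F_2206 : FrX :=
  ⟨0x482000044040440000c2040020009000182040010080080100800810010410030020401001080120000440802008800042041008110200011002008490,
    0xa0, 1, 0x54628091a6, 5,
    [(0xa0, 1), (0x538690a2, 4), (0x548790a1, 4), (0x21437690, 4), (0x538690a2, 4), (0x548790a1, 4)],
    [(0x54628091a6, 5), (0x507486a3, 4), (0x215498a7, 4), (0x213074a5, 4), (0x215498a7, 4), (0x407396a5, 4), (0x215386a0, 4), (0x213074a5, 4), (0x215386a0, 4), (0x307598a4, 4), (0x213074a5, 4), (0x407396a5, 4)]⟩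

def c_2206 : frmChk tA tB F_2206 = true := by decide +kernel

def r_2206_0 : chkL rootF engF2 tA tB sA_301 sB_301 4 F_2206 [(511, 0, 0)]
    0x4c93300f0e44e0ac6605c1707453 = true := by
  decide +kernel

theorem f_2206 (h : TabsF) : FrameF repsF 301 F_2206.f :=
  frame_of rfl c_2206 (runs_of engOK r_2206_0) (by decide +kernel) h.1 h.2

def F_2207 : FrX :=
  ⟨0x1001040012008080000e00840800410008101000042080040041400100182000810100108020600808082402000820002700800c00004004040004010210,
    0xa3, 1, 0x1020425192a7, 6,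
    [(0xa3, 1), (0x207584a6, 4), (0x10547693, 4), (0x647593a8, 4), (0x10547693, 4), (0x216485a7, 4), (0x208693a4, 4), (0x647593a8, 4), (0x208693a4, 4), (0x106574a8, 4), (0x647593a8, 4), (0x216485a7, 4)],
    [(0x1020425192a7, 6), (0x638192a0, 4), (0x105274a6, 4), (0x617483a0, 4), (0x105274a6, 4), (0x618095a3, 4), (0x31748692, 4), (0x617483a0, 4), (0x31748692, 4), (0x526083a1, 4), (0x617483a0, 4), (0x618095a3, 4)]⟩

def c_2207 : frmChk tB tB F_2207 = true := by decide +kernel

def r_2207_0 : chkL rootF engF2 tB tB sB_301 sB_301 4 F_2207 [(511, 0, 0)]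
    0x49623992 = true := by
  decide +kernel

theorem f_2207 (h : TabsF) : FrameF repsF 301 F_2207.f :=
  frame_of rfl c_2207 (runs_of engOK r_2207_0) (by decide +kernel) h.2 h.2

theorem cl_301 (h : TabsF) : ∀ f ∈ fr_301, FrameF repsF 301 f :=
  List.forall_mem_cons.2 ⟨f_2180 h, List.forall_mem_cons.2 ⟨f_2181 h, List.forall_mem_cons.2 ⟨f_2182 h, List.forall_mem_cons.2 ⟨f_2183 h, List.forall_mem_cons.2 ⟨f_2184 h, List.forall_mem_cons.2 ⟨f_2185 h, List.forall_mem_cons.2 ⟨f_2186 h, List.forall_mem_cons.2 ⟨f_2187 h, List.forall_mem_cons.2 ⟨f_2188 h, List.forall_mem_cons.2 ⟨f_2189 h, List.forall_mem_cons.2 ⟨f_2190 h, List.forall_mem_cons.2 ⟨f_2191 h, List.forall_mem_cons.2 ⟨f_2192 h, List.forall_mem_cons.2 ⟨f_2193 h, List.forall_mem_cons.2 ⟨f_2194 h, List.forall_mem_cons.2 ⟨f_2195 h, List.forall_mem_cons.2 ⟨f_2196 h, List.forall_mem_cons.2 ⟨f_2197 h, List.forall_mem_cons.2 ⟨f_2198 h, List.forall_mem_cons.2 ⟨f_2199 h, List.forall_mem_cons.2 ⟨f_2200 h, List.forall_mem_cons.2 ⟨f_2201 h, List.forall_mem_cons.2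 ⟨f_2202 h, List.forall_mem_cons.2 ⟨f_2203 h, List.forall_mem_cons.2 ⟨f_2204 h, List.forall_mem_cons.2 ⟨f_2205 h, List.forall_mem_cons.2 ⟨f_2206 h, List.forall_mem_cons.2 ⟨f_2207 h,
    fun _ h0 => absurd h0 List.not_mem_nil⟩⟩⟩⟩⟩⟩⟩⟩⟩⟩⟩⟩⟩⟩⟩⟩⟩⟩⟩⟩⟩⟩⟩⟩⟩⟩⟩⟩

def F_2208 : FrX :=
  ⟨0x2002000900044004000e02041000141000800040800802010800c00400224000020100460002a08040880085000000802001502000908000202104001010,
    0xa3, 1, 0x10415364768597a0, 8,
    [(0xa3, 1), (0x208693a5, 4), (0x10548793, 4), (0x217693a4, 4), (0x208693a5, 4), (0x10548793, 4)],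
    [(0x10415364768597a0, 8), (0x107385a2, 4), (0x108693a4, 4), (0x10426597, 4), (0x107385a2, 4), (0x108693a4, 4)]⟩

def c_2208 : frmChk tA tA F_2208 = true := by decide +kernel

def r_2208_0 : chkL rootF engF2 tA tA sA_302 sA_302 4 F_2208 [(511, 0, 0)]
    0x11b00f03c0f = true := by
  decide +kernel

theorem f_2208 (h : TabsF) : FrameF repsF 302 F_2208.f :=
  frame_of rfl c_2208 (runs_of engOK r_2208_0) (by decide +kernel) h.1 h.1

def F_2209 : FrX :=
  ⟨0x80080a000804040e000021010020010000020408a000080804004811200220002082000020224a0008800810800028010400400800101042000a0200005,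
    0xa6, 1, 0x104361768595a0, 7,
    [(0xa6, 1), (0x205396a8, 4), (0x10548796, 4), (0x214396a7, 4), (0x205396a8, 4), (0x10548796, 4)],
    [(0x104361768595a0, 7), (0x758194a2, 4), (0x508193a6, 4), (0x43627081, 4), (0x758194a2, 4), (0x508193a6, 4)]⟩

def c_2209 : frmChk tA tA F_2209 = true := by decide +kernel

def r_2209_0 : chkL rootF engF2 tA tA sA_302 sA_302 4 F_2209 [(511, 0, 0)]
    0x48e5841d1c9d00741d0b4b10742d8b01d8b05c = true := by
  decide +kernel

theorem f_2209 (h : TabsF) : FrameF repsF 302 F_2209.f :=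
  frame_of rfl c_2209 (runs_of engOK r_2209_0) (by decide +kernel) h.1 h.1

def F_2210 : FrX :=
  ⟨0x2002000900044004000e02041000141000800040802002010100c0028022400002010080208200a000a08005004008800801002080808000202104041002,
    0xa3, 1, 0x10314065738090a1, 8,
    [(0xa3, 1), (0x208693a5, 4), (0x10548793, 4), (0x217693a4, 4), (0x208693a5, 4), (0x10548793, 4)],
    [(0x10314065738090a1, 8), (0x54768392, 4), (0x406183a9, 4), (0x507183a2, 4), (0x54768392, 4), (0x406183a9, 4)]⟩

def c_2210 : frmChk tA tA F_2210 = true := by decide +kernel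

def r_2210_0 : chkL rootF engF2 tA tA sA_302 sA_302 4 F_2210 [(511, 0, 0)]
    0x4870741d0cf2403c1e06c1d03c1b06c1b0d40f = true := by
  decide +kernel

theorem f_2210 (h : TabsF) : FrameF repsF 302 F_2210.f :=
  frame_of rfl c_2210 (runs_of engOK r_2210_0) (by decide +kernel) h.1 h.1

def F_2211 : FrX :=
  ⟨0x80080a000804040e000021010020010000020408811040080600081000022000308200021020082008002010802008018448400400101042000a000000a,
    0xa6, 1, 0x102152607183a2, 7,
    [(0xa6, 1), (0x205396a8, 4), (0x10548796, 4), (0x214396a7, 4), (0x205396a8, 4), (0x10548796, 4)],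
    [(0x102152607183a2, 7), (0x318095a6, 4), (0x32407695, 4), (0x218495a7, 4), (0x318095a6, 4), (0x32407695, 4)]⟩

def c_2211 : frmChk tA tA F_2211 = true := by decide +kernel

def r_2211_0 : chkL rootF engF2 tA tA sA_302 sA_302 4 F_2211 [(511, 0, 0)]
    0x45503c5c134662348d = true := by
  decide +kernel

theorem f_2211 (h : TabsF) : FrameF repsF 302 F_2211.f :=
  frame_of rfl c_2211 (runs_of engOK r_2211_0) (by decide +kernel) h.1 h.1

def F_2212 : FrX :=
  ⟨0x482000044040440000c2040020009000182040001080480004200004010044020404220002340008080809000100800280140280028804040100000042,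
    0xa0, 1, 0x40657593a1, 5,
    [(0xa0, 1), (0x538690a2, 4), (0x548790a1, 4), (0x21437690, 4), (0x538690a2, 4), (0x548790a1, 4)],
    [(0x40657593a1, 5), (0x42768095, 4), (0x316570a4, 4), (0x31507698, 4), (0x316570a4, 4), (0x508796a2, 4), (0x31428590, 4), (0x31507698, 4), (0x31428590, 4), (0x607598a4, 4), (0x31507698, 4), (0x508796a2, 4)]⟩

def c_2212 : frmChk tA tB F_2212 = true := by decide +kernel

def r_2212_0 : chkL rootF engF2 tA tB sA_302 sB_302 4 F_2212 [(511, 0, 0)]
    0x122c3a48f21 = true := by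
  decide +kernel

theorem f_2212 (h : TabsF) : FrameF repsF 302 F_2212.f :=
  frame_of rfl c_2212 (runs_of engOK r_2212_0) (by decide +kernel) h.1 h.2

def F_2213 : FrX :=
  ⟨0x2002000900044004000e02041000141000800040802000224004400209008080040202020004004080249110004000108004220002080480100100020442,
    0xa3, 1, 0x20305363718292a0, 8,
    [(0xa3, 1), (0x208693a5, 4), (0x10548793, 4), (0x217693a4, 4), (0x208693a5, 4), (0x10548793, 4)],
    [(0x20305363718292a0, 8), (0x214065a9, 4), (0x425183a7, 4), (0x21546083, 4), (0x425183a7, 4), (0x20546197, 4), (0x506483a9, 4), (0x21546083, 4), (0x506483a9, 4), (0x415260a7, 4), (0x21546083, 4), (0x20546197, 4)]⟩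

def c_2213 : frmChk tA tB F_2213 = true := by decide +kernel

def r_2213_0 : chkL rootF engF2 tA tB sA_302 sB_302 4 F_2213 [(511, 0, 0)]
    0x103c0f06c33 = true := by
  decide +kernel

theorem f_2213 (h : TabsF) : FrameF repsF 302 F_2213.f :=
  frame_of rfl c_2213 (runs_of engOK r_2213_0) (by decide +kernel) h.1 h.2

def F_2214 : FrX :=
  ⟨0x482000044040440000c2040020009000182040000410818002100200040810004040120008010022500140800000802441000180050100000810200504,
    0xa0, 1, 0x4351657382a0, 6,
    [(0xa0, 1), (0x538690a2, 4), (0x548790a1, 4), (0x21437690, 4), (0x538690a2, 4), (0x548790a1, 4)],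
    [(0x4351657382a0, 6), (0x326471a8, 4), (0x416390a5, 4), (0x31647290, 4), (0x416390a5, 4), (0x31627485, 4), (0x217390a8, 4), (0x31647290, 4), (0x217390a8, 4), (0x436172a5, 4), (0x31647290, 4), (0x31627485, 4)]⟩

def c_2214 : frmChk tA tB F_2214 = true := by decide +kernel

def r_2214_0 : chkL rootF engF2 tA tB sA_302 sB_302 4 F_2214 [(511, 0, 0)]
    0x42d0b40f = true := by
  decide +kernel

theorem f_2214 (h : TabsF) : FrameF repsF 302 F_2214.f :=
  frame_of rfl c_2214 (runs_of engOK r_2214_0) (by decide +kernel) h.1 h.2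

def F_2215 : FrX :=
  ⟨0x2002000900044004000e0204100014100080004080800103400804000a00018010020401002801020405400000041000a040248080001020200024201001,
    0xa3, 1, 0x42536582a3, 5,
    [(0xa3, 1), (0x208693a5, 4), (0x10548793, 4), (0x217693a4, 4), (0x208693a5, 4), (0x10548793, 4)],
    [(0x42536582a3, 5), (0x438095a6, 4), (0x10627495, 4), (0x738195a2, 4), (0x438095a6, 4), (0x10627495, 4)]⟩

def c_2215 : frmChk tA tA F_2215 = true := by decide +kernel

def r_2215_0 : chkL rootF engF2 tA tA sA_302 sA_302 4 F_2215 [(511, 0, 0)]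
    0x105c2d0741d09c1b = true := by
  decide +kernel

theorem f_2215 (h : TabsF) : FrameF repsF 302 F_2215.f :=
  frame_of rfl c_2215 (runs_of engOK r_2215_0) (by decide +kernel) h.1 h.1

def F_2216 : FrX :=
  ⟨0x482000044040440000c2040020009000182040004020480008020280010104800400041081801080800021800208200b00001008100900100002200084,
    0xa0, 1, 0x4253657092a8, 6,
    [(0xa0, 1), (0x538690a2, 4), (0x548790a1, 4), (0x21437690, 4), (0x538690a2, 4), (0x548790a1, 4)],
    [(0x4253657092a8, 6), (0x658497a3, 4), (0x627184a0, 4), (0x30528491, 4), (0x658497a3, 4), (0x627184a0, 4)]⟩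

def c_2216 : frmChk tA tA F_2216 = true := by decide +kernel

def r_2216_0 : chkL rootF engF2 tA tA sA_302 sA_302 4 F_2216 [(511, 0, 0)]
    0x103c360d81b074c3 = true := by
  decide +kernel

theorem f_2216 (h : TabsF) : FrameF repsF 302 F_2216.f :=
  frame_of rfl c_2216 (runs_of engOK r_2216_0) (by decide +kernel) h.1 h.1

def F_2217 : FrX :=
  ⟨0x80080a000804040e00002101002001000002040881011001004400820480000004121000c00041020000000888041120500102004140000244280820000,
    0xa6, 1, 0x42718494a3, 5,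
    [(0xa6, 1), (0x205396a8, 4), (0x10548796, 4), (0x214396a7, 4), (0x205396a8, 4), (0x10548796, 4)],
    [(0x42718494a3, 5), (0x406283a5, 4), (0x21708395, 4), (0x617483a9, 4), (0x406283a5, 4), (0x21708395, 4)]⟩

def c_2217 : frmChk tA tA F_2217 = true := by decide +kernel

def r_2217_0 : chkL rootF engF2 tA tA sA_302 sA_302 4 F_2217 [(511, 0, 0)]
    0x1385c2385e0 = true := by
  decide +kernel

theorem f_2217 (h : TabsF) : FrameF repsF 302 F_2217.f :=
  frame_of rfl c_2217 (runs_of engOK r_2217_0) (by decide +kernel) h.1 h.1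

def F_2218 : FrX :=
  ⟨0x1c2102000004044000002041000101000082040888081000001020400400102000604050028010200054000188410048040448001100020204004600000,
    0x0, 0, 0x4376, 2,
    [(0x0, 0), (0x205386a9, 4), (0x105487a9, 4), (0x214376a9, 4), (0x205386a9, 4), (0x105487a9, 4)],
    [(0x4376, 2), (0x20657483, 4), (0x105376a9, 4), (0x657384a9, 4), (0x105376a9, 4), (0x21647385, 4), (0x204387a9, 4), (0x657384a9, 4), (0x204387a9, 4), (0x10637584, 4), (0x657384a9, 4), (0x21647385, 4)]⟩

def c_2218 : frmChk tA tB F_2218 = true := by decide +kernel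

def r_2218_0 : chkL rootF engF2 tA tB sA_302 sB_302 4 F_2218 [(511, 0, 0)]
    0x4532b05a = true := by
  decide +kernel

theorem f_2218 (h : TabsF) : FrameF repsF 302 F_2218.f :=
  frame_of rfl c_2218 (runs_of engOK r_2218_0) (by decide +kernel) h.1 h.2

def F_2219 : FrX :=
  ⟨0x2002000900044004000e02041000141000800040800801014020224000040882000004100888000224000100800040121480020006201002200004215000,
    0xa3, 1, 0x4152728797a6, 6,
    [(0xa3, 1), (0x208693a5, 4), (0x10548793, 4), (0x217693a4, 4), (0x208693a5, 4), (0x10548793, 4)],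
    [(0x4152728797a6, 6), (0x517092a3, 4), (0x214086a9, 4), (0x538692a1, 4), (0x214086a9, 4), (0x527493a1, 4), (0x317086a5, 4), (0x538692a1, 4), (0x317086a5, 4), (0x405391a2, 4), (0x538692a1, 4), (0x527493a1, 4)]⟩

def c_2219 : frmChk tA tB F_2219 = true := by decide +kernel

def r_2219_0 : chkL rootF engF2 tA tB sA_302 sB_302 4 F_2219 [(511, 0, 0)]
    0x1 = true := by
  decide +kernel

theorem f_2219 (h : TabsF) : FrameF repsF 302 F_2219.f :=
  frame_of rfl c_2219 (runs_of engOK r_2219_0) (by decide +kernel) h.1 h.2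

def F_2220 : FrX :=
  ⟨0x482000044040440000c2040020009000182040020002080100020280a800440000120000810402208000208080205080080100004080800440a0300084,
    0xa0, 1, 0x20324350608497a0, 8,
    [(0xa0, 1), (0x538690a2, 4), (0x548790a1, 4), (0x21437690, 4), (0x538690a2, 4), (0x548790a1, 4)],
    [(0x20324350608497a0, 8), (0x548092a3, 4), (0x768295a1, 4), (0x40768592, 4), (0x768295a1, 4), (0x20318594, 4), (0x507684a3, 4), (0x40768592, 4), (0x507684a3, 4), (0x405298a1, 4), (0x40768592, 4), (0x20318594, 4)]⟩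

def c_2220 : frmChk tA tB F_2220 = true := by decide +kernel

def r_2220_0 : chkL rootF engF2 tA tB sA_302 sB_302 4 F_2220 [(511, 0, 0)]
    0x1 = true := by
  decide +kernel

theorem f_2220 (h : TabsF) : FrameF repsF 302 F_2220.f :=
  frame_of rfl c_2220 (runs_of engOK r_2220_0) (by decide +kernel) h.1 h.2

def F_2221 : FrX :=
  ⟨0x2002000900044004000e020410001410008000408100000b400100410200404022000020080801102020004a0004088000240400410002003400c0000860,
    0xa3, 1, 0x20306476a5, 5,
    [(0xa3, 1), (0x208693a5, 4), (0x10548793, 4), (0x217693a4, 4), (0x208693a5, 4), (0x10548793, 4)],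
    [(0x20306476a5, 5), (0x308795a2, 4), (0x318495a6, 4), (0x10627495, 4), (0x308795a2, 4), (0x318495a6, 4)]⟩

def c_2221 : frmChk tA tA F_2221 = true := by decide +kernel

def r_2221_0 : chkL rootF engF2 tA tA sA_302 sA_302 4 F_2221 [(511, 0, 0)]
    0x42e05c1d03c0f05c2b22c5c2341d172260b41b42c63a52852d053 = true := by
  decide +kernel

theorem f_2221 (h : TabsF) : FrameF repsF 302 F_2221.f :=
  frame_of rfl c_2221 (runs_of engOK r_2221_0) (by decide +kernel) h.1 h.1

def F_2222 : FrX :=
  ⟨0x80080a000804040e000021010020010000020408820804000a0002404040084020404000c0001022001800018840080200208202001a000202002040820,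
    0xa6, 1, 0x5263738595a1, 6,
    [(0xa6, 1), (0x205396a8, 4), (0x10548796, 4), (0x214396a7, 4), (0x205396a8, 4), (0x10548796, 4)],
    [(0x5263738595a1, 6), (0x32508197, 4), (0x628194a0, 4), (0x637481a5, 4), (0x32508197, 4), (0x628194a0, 4)]⟩

def c_2222 : frmChk tA tA F_2222 = true := by decide +kernel

def r_2222_0 : chkL rootF engF2 tA tA sA_302 sA_302 4 F_2222 [(511, 0, 0)]
    0x10b90e4394c = true := by
  decide +kernel

theorem f_2222 (h : TabsF) : FrameF repsF 302 F_2222.f :=
  frame_of rfl c_2222 (runs_of engOK r_2222_0) (by decide +kernel) h.1 h.1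

def F_2223 : FrX :=
  ⟨0x80080a000804040e000021010020010000020408a0000808600028400880082000020400400084410818000021010202400108020000081100280820120,
    0xa6, 1, 0x3242647496a6, 6,
    [(0xa6, 1), (0x205396a8, 4), (0x10548796, 4), (0x214396a7, 4), (0x205396a8, 4), (0x10548796, 4)],
    [(0x3242647496a6, 6), (0x406587a2, 4), (0x107593a6, 4), (0x658293a7, 4), (0x107593a6, 4), (0x416285a7, 4), (0x407293a8, 4), (0x658293a7, 4), (0x407293a8, 4), (0x107682a5, 4), (0x658293a7, 4), (0x416285a7, 4)]⟩

def c_2223 : frmChk tA tB F_2223 = true := by decide +kernel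

def r_2223_0 : chkL rootF engF2 tA tB sA_302 sB_302 4 F_2223 [(511, 0, 0)]
    0x113958 = true := by
  decide +kernel

theorem f_2223 (h : TabsF) : FrameF repsF 302 F_2223.f :=
  frame_of rfl c_2223 (runs_of engOK r_2223_0) (by decide +kernel) h.1 h.2

def F_2224 : FrX :=
  ⟨0x80080a000804040e0000210100200100000204088108100006000810001014101100401002004010008880082a00004036000001100880c0000000a0041,
    0xa6, 1, 0x20316597a2, 5,
    [(0xa6, 1), (0x205396a8, 4), (0x10548796, 4), (0x214396a7, 4), (0x205396a8, 4), (0x10548796, 4)],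
    [(0x20316597a2, 5), (0x518496a2, 4), (0x32647095, 4), (0x54708196, 4), (0x32647095, 4), (0x548691a3, 4), (0x417085a2, 4), (0x54708196, 4), (0x417085a2, 4), (0x32658194, 4), (0x54708196, 4), (0x548691a3, 4)]⟩

def c_2224 : frmChk tA tB F_2224 = true := by decide +kernel

def r_2224_0 : chkL rootF engF2 tA tB sA_302 sB_302 4 F_2224 [(511, 0, 0)]
    0x1 = true := by
  decide +kernel

theorem f_2224 (h : TabsF) : FrameF repsF 302 F_2224.f :=
  frame_of rfl c_2224 (runs_of engOK r_2224_0) (by decide +kernel) h.1 h.2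

def F_2225 : FrX :=
  ⟨0x482000044040440000c2040020009000182040000822080004080100080022020029010100008200800009c02201020900002140090002002010210002,
    0xa0, 1, 0x203263738394a0, 7,
    [(0xa0, 1), (0x538690a2, 4), (0x548790a1, 4), (0x21437690, 4), (0x538690a2, 4), (0x548790a1, 4)],
    [(0x203263738394a0, 7), (0x658097a3, 4), (0x426095a1, 4), (0x42658790, 4), (0x426095a1, 4), (0x31758690, 4), (0x427098a3, 4), (0x42658790, 4), (0x427098a3, 4), (0x508796a1, 4), (0x42658790, 4), (0x31758690, 4)]⟩

def c_2225 : frmChk tA tB F_2225 = true := by decide +kernel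

def r_2225_0 : chkL rootF engF2 tA tB sA_302 sB_302 4 F_2225 [(511, 0, 0)]
    0x4270ccc9324333249a21c9a03c1d2703303c0f = true := by
  decide +kernel

theorem f_2225 (h : TabsF) : FrameF repsF 302 F_2225.f :=
  frame_of rfl c_2225 (runs_of engOK r_2225_0) (by decide +kernel) h.1 h.2

def F_2226 : FrX :=
  ⟨0x2002000900044004000e020410001410008000408100000181010041020024402201000008080110202000488014088000240400410002002400c0004081,
    0xa3, 1, 0x314254638495a7, 7,
    [(0xa3, 1), (0x208693a5, 4), (0x10548793, 4), (0x217693a4, 4), (0x208693a5, 4), (0x10548793, 4)],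
    [(0x314254638495a7, 7), (0x40517296, 4), (0x307298a5, 4), (0x437286a1, 4), (0x40517296, 4), (0x307298a5, 4)]⟩

def c_2226 : frmChk tA tA F_2226 = true := by decide +kernel

def r_2226_0 : chkL rootF engF2 tA tA sA_302 sA_302 4 F_2226 [(511, 0, 0)]
    0x41b05c470741705c2e = true := by
  decide +kernel

theorem f_2226 (h : TabsF) : FrameF repsF 302 F_2226.f :=
  frame_of rfl c_2226 (runs_of engOK r_2226_0) (by decide +kernel) h.1 h.1

def F_2227 : FrX :=
  ⟨0x80080a000804040e000021010020010000020408810810000600081000101410110040100200401000900000b840004024200801100880c000020448000,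
    0xa6, 1, 0x20316597a2, 5,
    [(0xa6, 1), (0x205396a8, 4), (0x10548796, 4), (0x214396a7, 4), (0x205396a8, 4), (0x10548796, 4)],
    [(0x20316597a2, 5), (0x518496a2, 4), (0x32647095, 4), (0x54708196, 4), (0x32647095, 4), (0x548691a3, 4), (0x417085a2, 4), (0x54708196, 4), (0x417085a2, 4), (0x32658194, 4), (0x54708196, 4), (0x548691a3, 4)]⟩

def c_2227 : frmChk tA tB F_2227 = true := by decide +kernel

def r_2227_0 : chkL rootF engF2 tA tB sA_302 sB_302 4 F_2227 [(511, 0, 0)]
    0x48e2388e = true := by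
  decide +kernel

theorem f_2227 (h : TabsF) : FrameF repsF 302 F_2227.f :=
  frame_of rfl c_2227 (runs_of engOK r_2227_0) (by decide +kernel) h.1 h.2

def F_2228 : FrX :=
  ⟨0x80080a000804040e000021010020010000020408a00008022000284008800820000244004000844108008011100502024001080200000811000c0260000,
    0xa6, 1, 0x2131768792a4, 6,
    [(0xa6, 1), (0x205396a8, 4), (0x10548796, 4), (0x214396a7, 4), (0x205396a8, 4), (0x10548796, 4)],
    [(0x2131768792a4, 6), (0x728590a6, 4), (0x304187a5, 4), (0x416285a7, 4), (0x304187a5, 4), (0x658293a7, 4), (0x417690a2, 4), (0x416285a7, 4), (0x417690a2, 4), (0x306275a8, 4), (0x416285a7, 4), (0x658293a7, 4)]⟩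

def c_2228 : frmChk tA tB F_2228 = true := by decide +kernel

def r_2228_0 : chkL rootF engF2 tA tB sA_302 sB_302 4 F_2228 [(511, 0, 0)]
    0x1 = true := by
  decide +kernel

theorem f_2228 (h : TabsF) : FrameF repsF 302 F_2228.f :=
  frame_of rfl c_2228 (runs_of engOK r_2228_0) (by decide +kernel) h.1 h.2

def F_2229 : FrX :=
  ⟨0x2002000900044004000e0204100014100080004080080101400840000812020020010221008002100018000603040800020100a050040108100210040001,
    0xa3, 1, 0x3151708695a3, 6,
    [(0xa3, 1), (0x208693a5, 4), (0x10548793, 4), (0x217693a4, 4), (0x208693a5, 4), (0x10548793, 4)],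
    [(0x3151708695a3, 6), (0x647290a8, 4), (0x31758094, 4), (0x318490a6, 4), (0x31758094, 4), (0x528496a0, 4), (0x317286a4, 4), (0x318490a6, 4), (0x317286a4, 4), (0x407598a6, 4), (0x318490a6, 4), (0x528496a0, 4)]⟩

def c_2229 : frmChk tA tB F_2229 = true := by decide +kernel

def r_2229_0 : chkL rootF engF2 tA tB sA_302 sB_302 4 F_2229 [(511, 0, 0)]
    0x113417078658a62906c6c = true := by
  decide +kernel

theorem f_2229 (h : TabsF) : FrameF repsF 302 F_2229.f :=
  frame_of rfl c_2229 (runs_of engOK r_2229_0) (by decide +kernel) h.1 h.2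

def F_2230 : FrX :=
  ⟨0x2002000900044004000e02041000141000800040800801014008024001040882000004100888000224000100800048100100000087080022202044211000,
    0xa3, 1, 0x3252618297a4, 6,
    [(0xa3, 1), (0x208693a5, 4), (0x10548793, 4), (0x217693a4, 4), (0x208693a5, 4), (0x10548793, 4)],
    [(0x3252618297a4, 6), (0x218093a5, 4), (0x607491a3, 4), (0x527493a1, 4), (0x607491a3, 4), (0x538692a1, 4), (0x517480a2, 4), (0x527493a1, 4), (0x517480a2, 4), (0x315260a9, 4), (0x527493a1, 4), (0x538692a1, 4)]⟩

def c_2230 : frmChk tA tB F_2230 = true := by decide +kernel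

def r_2230_0 : chkL rootF engF2 tA tB sA_302 sB_302 4 F_2230 [(511, 0, 0)]
    0x42e0b447 = true := by
  decide +kernel

theorem f_2230 (h : TabsF) : FrameF repsF 302 F_2230.f :=
  frame_of rfl c_2230 (runs_of engOK r_2230_0) (by decide +kernel) h.1 h.2

def F_2231 : FrX :=
  ⟨0x1c2102000004044000002041000101000082040888081000001020400400102000604060000054010054004088400408048008001050020204024600000,
    0x0, 0, 0x4376, 2,
    [(0x0, 0), (0x205386a9, 4), (0x105487a9, 4), (0x214376a9, 4), (0x205386a9, 4), (0x105487a9, 4)],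
    [(0x4376, 2), (0x20657483, 4), (0x105376a9, 4), (0x657384a9, 4), (0x105376a9, 4), (0x21647385, 4), (0x204387a9, 4), (0x657384a9, 4), (0x204387a9, 4), (0x10637584, 4), (0x657384a9, 4), (0x21647385, 4)]⟩

def c_2231 : frmChk tA tB F_2231 = true := by decide +kernel

def r_2231_0 : chkL rootF engF2 tA tB sA_302 sB_302 4 F_2231 [(511, 0, 0)]
    0x42e344aa68a0718c6319839 = true := by
  decide +kernel

theorem f_2231 (h : TabsF) : FrameF repsF 302 F_2231.f :=
  frame_of rfl c_2231 (runs_of engOK r_2231_0) (by decide +kernel) h.1 h.2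

def F_2232 : FrX :=
  ⟨0x80080a000804040e00002101002001000002040881011001020010020042002014024000c000410200000008880408020083110050009002440c0200000,
    0xa6, 1, 0x102140508394a6, 7,
    [(0xa6, 1), (0x205396a8, 4), (0x10548796, 4), (0x214396a7, 4), (0x205396a8, 4), (0x10548796, 4)],
    [(0x102140508394a6, 7), (0x507493a8, 4), (0x526194a7, 4), (0x617483a9, 4), (0x526194a7, 4), (0x204387a9, 4), (0x506198a3, 4), (0x617483a9, 4), (0x506198a3, 4), (0x528397a4, 4), (0x617483a9, 4), (0x204387a9, 4)]⟩

def c_2232 : frmChk tA tB F_2232 = true := by decide +kernel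

def r_2232_0 : chkL rootF engF2 tA tB sA_302 sB_302 4 F_2232 [(511, 0, 0)]
    0x1079520b827 = true := by
  decide +kernel

theorem f_2232 (h : TabsF) : FrameF repsF 302 F_2232.f :=
  frame_of rfl c_2232 (runs_of engOK r_2232_0) (by decide +kernel) h.1 h.2

def F_2233 : FrX :=
  ⟨0x1001040012008080000e00840800410008101000042100004060222000000884042000100c10010260000808c00000212200800808200400500002200104,
    0xa3, 1, 0x324263718797a3, 7,
    [(0xa3, 1), (0x207584a6, 4), (0x10547693, 4), (0x647593a8, 4), (0x10547693, 4), (0x216485a7, 4), (0x208693a4, 4), (0x647593a8, 4), (0x208693a4, 4), (0x106574a8, 4), (0x647593a8, 4), (0x216485a7, 4)],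
    [(0x324263718797a3, 7), (0x314095a2, 4), (0x53708692, 4), (0x328695a1, 4), (0x53708692, 4), (0x325174a9, 4), (0x214086a3, 4), (0x328695a1, 4), (0x214086a3, 4), (0x527093a1, 4), (0x328695a1, 4), (0x325174a9, 4)]⟩

def c_2233 : frmChk tB tB F_2233 = true := by decide +kernel

def r_2233_0 : chkL rootF engF2 tB tB sB_302 sB_302 4 F_2233 [(511, 0, 0)]
    0x107835 = true := by
  decide +kernel

theorem f_2233 (h : TabsF) : FrameF repsF 302 F_2233.f :=
  frame_of rfl c_2233 (runs_of engOK r_2233_0) (by decide +kernel) h.2 h.2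

def F_2234 : FrX :=
  ⟨0x600020801080810000c004018041010100100401004002400044080812100008040008200022020800410200020840a004044400200000100820700280,
    0xa0, 1, 0x105162748492a4, 7,
    [(0xa0, 1), (0x637584a2, 4), (0x547690a1, 4), (0x64758390, 4), (0x547690a1, 4), (0x21647385, 4), (0x438690a2, 4), (0x64758390, 4), (0x438690a2, 4), (0x657483a1, 4), (0x64758390, 4), (0x21647385, 4)],
    [(0x105162748492a4, 7), (0x324091a7, 4), (0x425186a0, 4), (0x407386a2, 4), (0x425186a0, 4), (0x437095a2, 4), (0x728691a3, 4), (0x407386a2, 4), (0x728691a3, 4), (0x205173a4, 4), (0x407386a2, 4), (0x437095a2, 4)]⟩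

def c_2234 : frmChk tB tB F_2234 = true := by decide +kernel

def r_2234_0 : chkL rootF engF2 tB tB sB_302 sB_302 4 F_2234 [(511, 0, 0)]
    0x1 = true := by
  decide +kernel

theorem f_2234 (h : TabsF) : FrameF repsF 302 F_2234.f :=
  frame_of rfl c_2234 (runs_of engOK r_2234_0) (by decide +kernel) h.2 h.2

def F_2235 : FrX :=
  ⟨0x1001040012008080000e0084080041000810100004200802400140010102000004a0002a0000208040084804400000420110800400840414488000200048,
    0xa3, 1, 0x2142628498a3, 6,
    [(0xa3, 1), (0x207584a6, 4), (0x10547693, 4), (0x647593a8, 4), (0x10547693, 4), (0x216485a7, 4), (0x208693a4, 4), (0x647593a8, 4), (0x208693a4, 4), (0x106574a8, 4), (0x647593a8, 4), (0x216485a7, 4)],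
    [(0x2142628498a3, 6), (0x607598a4, 4), (0x20317485, 4), (0x317584a9, 4), (0x20317485, 4), (0x628495a7, 4), (0x316094a8, 4), (0x317584a9, 4), (0x316094a8, 4), (0x205487a9, 4), (0x317584a9, 4), (0x628495a7, 4)]⟩

def c_2235 : frmChk tB tB F_2235 = true := by decide +kernel

def r_2235_0 : chkL rootF engF2 tB tB sB_302 sB_302 4 F_2235 [(511, 0, 0)]
    0x48e0d80f = true := by
  decide +kernel

theorem f_2235 (h : TabsF) : FrameF repsF 302 F_2235.f :=
  frame_of rfl c_2235 (runs_of engOK r_2235_0) (by decide +kernel) h.2 h.2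

theorem cl_302 (h : TabsF) : ∀ f ∈ fr_302, FrameF repsF 302 f :=
  List.forall_mem_cons.2 ⟨f_2208 h, List.forall_mem_cons.2 ⟨f_2209 h, List.forall_mem_cons.2 ⟨f_2210 h, List.forall_mem_cons.2 ⟨f_2211 h, List.forall_mem_cons.2 ⟨f_2212 h, List.forall_mem_cons.2 ⟨f_2213 h, List.forall_mem_cons.2 ⟨f_2214 h, List.forall_mem_cons.2 ⟨f_2215 h, List.forall_mem_cons.2 ⟨f_2216 h, List.forall_mem_cons.2 ⟨f_2217 h, List.forall_mem_cons.2 ⟨f_2218 h, List.forall_mem_cons.2 ⟨f_2219 h, List.forall_mem_cons.2 ⟨f_2220 h, List.forall_mem_cons.2 ⟨f_2221 h, List.forall_mem_cons.2 ⟨f_2222 h, List.forall_mem_cons.2 ⟨f_2223 h, List.forall_mem_cons.2 ⟨f_2224 h, List.forall_mem_cons.2 ⟨f_2225 h, List.forall_mem_cons.2 ⟨f_2226 h, List.forall_mem_cons.2 ⟨f_2227 h, List.forall_mem_cons.2 ⟨f_2228 h, List.forall_mem_cons.2 ⟨f_2229 h, List.forall_mem_cons.2 ⟨f_2230 h, List.forall_mem_cons.2 ⟨f_2231 h, List.forall_mem_cons.2 ⟨f_2232 h, List.forall_mem_cons.2 ⟨f_2233 h, List.forall_mem_cons.2 ⟨f_2234 h, List.forall_mem_cons.2 ⟨f_2235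 h,
    fun _ h0 => absurd h0 List.not_mem_nil⟩⟩⟩⟩⟩⟩⟩⟩⟩⟩⟩⟩⟩⟩⟩⟩⟩⟩⟩⟩⟩⟩⟩⟩⟩⟩⟩⟩

def F_2236 : FrX :=
  ⟨0x2002000900044004000e02041000141000800040804000220800c0001024200012002400102480104004008440100880000400100508000024411001c000,
    0xa3, 1, 0x213241538390a6, 7,
    [(0xa3, 1), (0x208693a5, 4), (0x10548793, 4), (0x217693a4, 4), (0x208693a5, 4), (0x10548793, 4)],
    [(0x213241538390a6, 7), (0x608193a5, 4), (0x21607594, 4), (0x436082a7, 4), (0x608193a5, 4), (0x21607594, 4)]⟩

def c_2236 : frmChk tA tA F_2236 = true := by decide +kernel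

def r_2236_0 : chkL rootF engF2 tA tA sA_303 sA_303 4 F_2236 [(255, 0, 0), (256, 0, 15)]
    0x4630781b07871984e8b06e0 = true := by
  decide +kernel

def r_2236_1 : chkL rootF engF2 tA tA sA_303 sA_303 4 F_2236 [(256, 15, 0)]
    0x46c05c1b = true := by
  decide +kernel

theorem f_2236 (h : TabsF) : FrameF repsF 303 F_2236.f :=
  frame_of rfl c_2236 ((runs_of engOK r_2236_0).append (runs_of engOK r_2236_1)) (by decide +kernel) h.1 h.1

def F_2237 : FrX :=
  ⟨0x80080a000804040e000021010020010000020408a0002000480088100224010020011000024090842021000802010101040110040400108004021080080,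
    0xa6, 1, 0x10304251607392a0, 8,
    [(0xa6, 1), (0x205396a8, 4), (0x10548796, 4), (0x214396a7, 4), (0x205396a8, 4), (0x10548796, 4)],
    [(0x10304251607392a0, 8), (0x107382a9, 4), (0x203164a5, 4), (0x10326487, 4), (0x203164a5, 4), (0x32718095, 4), (0x647283a9, 4), (0x10326487, 4), (0x647283a9, 4), (0x213087a5, 4), (0x10326487, 4), (0x32718095, 4)]⟩

def c_2237 : frmChk tA tB F_2237 = true := by decide +kernel

def r_2237_0 : chkL rootF engF2 tA tB sA_303 sB_303 4 F_2237 [(511, 0, 0)]
    0x10ac2b11c470781e12c2b = true := by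
  decide +kernel

theorem f_2237 (h : TabsF) : FrameF repsF 303 F_2237.f :=
  frame_of rfl c_2237 (runs_of engOK r_2237_0) (by decide +kernel) h.1 h.2

def F_2238 : FrX :=
  ⟨0x2002000900044004000e02041000141000800040802000224001400808820800200080220004004008a58010004000801001801010048000042804014200,
    0xa3, 1, 0x304263738190a1, 7,
    [(0xa3, 1), (0x208693a5, 4), (0x10548793, 4), (0x217693a4, 4), (0x208693a5, 4), (0x10548793, 4)],
    [(0x304263738190a1, 7), (0x10758394, 4), (0x526183a9, 4), (0x607283a4, 4), (0x10758394, 4), (0x526183a9, 4)]⟩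

def c_2238 : frmChk tA tA F_2238 = true := by decide +kernel

def r_2238_0 : chkL rootF engF2 tA tA sA_303 sA_303 4 F_2238 [(511, 0, 0)]
    0x10b41b2729405c171350b = true := by
  decide +kernel

theorem f_2238 (h : TabsF) : FrameF repsF 303 F_2238.f :=
  frame_of rfl c_2238 (runs_of engOK r_2238_0) (by decide +kernel) h.1 h.1

def F_2239 : FrX :=
  ⟨0x80080a000804040e000021010020010000020408a0004100300088100812000004024000104004208840200108001802028000011002104040a10040200,
    0xa6, 1, 0x20304150627490a0, 8,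
    [(0xa6, 1), (0x205396a8, 4), (0x10548796, 4), (0x214396a7, 4), (0x205396a8, 4), (0x10548796, 4)],
    [(0x20304150627490a0, 8), (0x203187a6, 4), (0x107395a4, 4), (0x31708295, 4), (0x107395a4, 4), (0x21647083, 4), (0x728095a6, 4), (0x31708295, 4), (0x728095a6, 4), (0x307182a4, 4), (0x31708295, 4), (0x21647083, 4)]⟩

def c_2239 : frmChk tA tB F_2239 = true := by decide +kernel

def r_2239_0 : chkL rootF engF2 tA tB sA_303 sB_303 4 F_2239 [(511, 0, 0)]
    0x6261703905c5c0b45c05c174390e = true := by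
  decide +kernel

theorem f_2239 (h : TabsF) : FrameF repsF 303 F_2239.f :=
  frame_of rfl c_2239 (runs_of engOK r_2239_0) (by decide +kernel) h.1 h.2

def F_2240 : FrX :=
  ⟨0x2002000900044004000e02041000141000800040801140401000c00201000080020128020004030002020808880000140001812002480808002402200004,
    0xa3, 1, 0x315065728592a2, 7,
    [(0xa3, 1), (0x208693a5, 4), (0x10548793, 4), (0x217693a4, 4), (0x208693a5, 4), (0x10548793, 4)],
    [(0x315065728592a2, 7), (0x608197a5, 4), (0x53628497, 4), (0x204197a3, 4), (0x608197a5, 4), (0x53628497, 4)]⟩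

def c_2240 : frmChk tA tA F_2240 = true := by decide +kernel

def r_2240_0 : chkL rootF engF2 tA tA sA_303 sA_303 4 F_2240 [(511, 0, 0)]
    0x42b03c0f4711c = true := by
  decide +kernel

theorem f_2240 (h : TabsF) : FrameF repsF 303 F_2240.f :=
  frame_of rfl c_2240 (runs_of engOK r_2240_0) (by decide +kernel) h.1 h.1

def F_2241 : FrX :=
  ⟨0x482000044040440000c2040020009000182040001080480000900200010410014022020002900008080249000100802014002000490081010020010210,
    0xa0, 1, 0x103040608490a3, 7,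
    [(0xa0, 1), (0x538690a2, 4), (0x548790a1, 4), (0x21437690, 4), (0x538690a2, 4), (0x548790a1, 4)],
    [(0x103040608490a3, 7), (0x436192a5, 4), (0x61738590, 4), (0x206174a8, 4), (0x436192a5, 4), (0x61738590, 4)]⟩

def c_2241 : frmChk tA tA F_2241 = true := by decide +kernel

def r_2241_0 : chkL rootF engF2 tA tA sA_303 sA_303 4 F_2241 [(511, 0, 0)]
    0x60e8582e0ac2703c2e1340f03c27 = true := by
  decide +kernel

theorem f_2241 (h : TabsF) : FrameF repsF 303 F_2241.f :=
  frame_of rfl c_2241 (runs_of engOK r_2241_0) (by decide +kernel) h.1 h.1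

def F_2242 : FrX :=
  ⟨0x482000044040440000c2040020009000182040000480410804200010020028008802001102010440100101004001800040001184450000014080210080,
    0xa0, 1, 0x2050657481a2, 6,
    [(0xa0, 1), (0x538690a2, 4), (0x548790a1, 4), (0x21437690, 4), (0x538690a2, 4), (0x548790a1, 4)],
    [(0x2050657481a2, 6), (0x326471a5, 4), (0x42768590, 4), (0x31647290, 4), (0x42768590, 4), (0x436172a8, 4), (0x217390a5, 4), (0x31647290, 4), (0x217390a5, 4), (0x31627485, 4), (0x31647290, 4), (0x436172a8, 4)]⟩

def c_2242 : frmChk tA tB F_2242 = true := by decide +kernel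

def r_2242_0 : chkL rootF engF2 tA tB sA_303 sB_303 4 F_2242 [(511, 0, 0)]
    0x41b0e4e103ee00d4170ac1703c6c = true := by
  decide +kernel

theorem f_2242 (h : TabsF) : FrameF repsF 303 F_2242.f :=
  frame_of rfl c_2242 (runs_of engOK r_2242_0) (by decide +kernel) h.1 h.2

def F_2243 : FrX :=
  ⟨0x2002000900044004000e02041000141000800040801002010400c00200812000004202050100004200c0000a04c004040801011001200000401018240200,
    0xa3, 1, 0x314154618398a0, 7,
    [(0xa3, 1), (0x208693a5, 4), (0x10548793, 4), (0x217693a4, 4), (0x208693a5, 4), (0x10548793, 4)],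
    [(0x314154618398a0, 7), (0x738495a2, 4), (0x105374a6, 4), (0x10547398, 4), (0x105374a6, 4), (0x54628793, 4), (0x108594a2, 4), (0x10547398, 4), (0x108594a2, 4), (0x437598a6, 4), (0x10547398, 4), (0x54628793, 4)]⟩

def c_2243 : frmChk tA tB F_2243 = true := by decide +kernel

def r_2243_0 : chkL rootF engF2 tA tB sA_303 sB_303 4 F_2243 [(511, 0, 0)]
    0x10e83a136c4b13c00e83a07872 = true := by
  decide +kernel

theorem f_2243 (h : TabsF) : FrameF repsF 303 F_2243.f :=
  frame_of rfl c_2243 (runs_of engOK r_2243_0) (by decide +kernel) h.1 h.2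

def F_2244 : FrX :=
  ⟨0x482000044040440000c2040020009000182040000880880004200008020021040802210020080200040800440c84008880010140200402100008208080,
    0xa0, 1, 0x2154607493a2, 6,
    [(0xa0, 1), (0x538690a2, 4), (0x548790a1, 4), (0x21437690, 4), (0x538690a2, 4), (0x548790a1, 4)],
    [(0x2154607493a2, 6), (0x318094a6, 4), (0x31627485, 4), (0x315097a2, 4), (0x318094a6, 4), (0x31627485, 4)]⟩

def c_2244 : frmChk tA tA F_2244 = true := by decide +kernel

def r_2244_0 : chkL rootF engF2 tA tA sA_303 sA_303 4 F_2244 [(511, 0, 0)]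
    0x41713a340b82e = true := by
  decide +kernel

theorem f_2244 (h : TabsF) : FrameF repsF 303 F_2244.f :=
  frame_of rfl c_2244 (runs_of engOK r_2244_0) (by decide +kernel) h.1 h.1

def F_2245 : FrX :=
  ⟨0x80080a000804040e0000210100200100000204088220000208140040402400003050000084400008008b100008090400000088022001080211200800082,
    0xa6, 1, 0x65718297a2, 5,
    [(0xa6, 1), (0x205396a8, 4), (0x10548796, 4), (0x214396a7, 4), (0x205396a8, 4), (0x10548796, 4)],
    [(0x65718297a2, 5), (0x425396a0, 4), (0x64708195, 4), (0x32548196, 4), (0x64708195, 4), (0x546293a7, 4), (0x435281a0, 4), (0x32548196, 4), (0x435281a0, 4), (0x32657094, 4), (0x32548196, 4), (0x546293a7, 4)]⟩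

def c_2245 : frmChk tA tB F_2245 = true := by decide +kernel

def r_2245_0 : chkL rootF engF2 tA tB sA_303 sB_303 4 F_2245 [(511, 0, 0)]
    0x103c0f09c1b06c4e = true := by
  decide +kernel

theorem f_2245 (h : TabsF) : FrameF repsF 303 F_2245.f :=
  frame_of rfl c_2245 (runs_of engOK r_2245_0) (by decide +kernel) h.1 h.2

def F_2246 : FrX :=
  ⟨0x80080a000804040e000021010020010000020408820804000814001104400000210140200040040080884c0802000801002081080010080814088000082,
    0xa6, 1, 0x30405165718096a0, 8,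
    [(0xa6, 1), (0x205396a8, 4), (0x10548796, 4), (0x214396a7, 4), (0x205396a8, 4), (0x10548796, 4)],
    [(0x30405165718096a0, 8), (0x608194a2, 4), (0x546381a7, 4), (0x30728195, 4), (0x608194a2, 4), (0x546381a7, 4)]⟩

def c_2246 : frmChk tA tA F_2246 = true := by decide +kernel

def r_2246_0 : chkL rootF engF2 tA tA sA_303 sA_303 4 F_2246 [(511, 0, 0)]
    0x10d4e10745c0f03c1583609c2b07456 = true := by
  decide +kernel

theorem f_2246 (h : TabsF) : FrameF repsF 303 F_2246.f :=
  frame_of rfl c_2246 (runs_of engOK r_2246_0) (by decide +kernel) h.1 h.1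

def F_2247 : FrX :=
  ⟨0x2002000900044004000e02041000141000800040810000081c00802402004080220020004004005008080048808002800081100041001000811202001102,
    0xa3, 1, 0x1051647483a8, 6,
    [(0xa3, 1), (0x208693a5, 4), (0x10548793, 4), (0x217693a4, 4), (0x208693a5, 4), (0x10548793, 4)],
    [(0x1051647483a8, 6), (0x218093a4, 4), (0x517093a6, 4), (0x52648793, 4), (0x218093a4, 4), (0x517093a6, 4)]⟩

def c_2247 : frmChk tA tA F_2247 = true := by decide +kernel

def r_2247_0 : chkL rootF engF2 tA tA sA_303 sA_303 4 F_2247 [(511, 0, 0)]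
    0x41d0f03c0f02b074660ac270ac1e5614a1552aa26851342b0cc3306c721c9431c41b09c1e = true := by
  decide +kernel

theorem f_2247 (h : TabsF) : FrameF repsF 303 F_2247.f :=
  frame_of rfl c_2247 (runs_of engOK r_2247_0) (by decide +kernel) h.1 h.1

def F_2248 : FrX :=
  ⟨0x2002000900044004000e02041000141000800040810000084050000111000422020024000804040880080208182002040084048001080000211080044002,
    0xa3, 1, 0x42728490a1, 5,
    [(0xa3, 1), (0x208693a5, 4), (0x10548793, 4), (0x217693a4, 4), (0x208693a5, 4), (0x10548793, 4)],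
    [(0x42728490a1, 5), (0x54638297, 4), (0x106485a9, 4), (0x10325486, 4), (0x106485a9, 4), (0x435286a7, 4), (0x10628397, 4), (0x10325486, 4), (0x10628397, 4), (0x326584a9, 4), (0x10325486, 4), (0x435286a7, 4)]⟩

def c_2248 : frmChk tA tB F_2248 = true := by decide +kernel

def r_2248_0 : chkL rootF engF2 tA tB sA_303 sB_303 4 F_2248 [(511, 0, 0)]
    0x433 = true := by
  decide +kernel

theorem f_2248 (h : TabsF) : FrameF repsF 303 F_2248.f :=
  frame_of rfl c_2248 (runs_of engOK r_2248_0) (by decide +kernel) h.1 h.2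

def F_2249 : FrX :=
  ⟨0x1c40440000080810000008400804100001010840421020000010810001020000420405200004040004c8048822000240100201018104008001043040000,
    0x0, 0, 0x4376, 2,
    [(0x0, 0), (0x20637584, 4), (0x105476a9, 4), (0x647583a9, 4), (0x105476a9, 4), (0x21647385, 4), (0x204386a9, 4), (0x647583a9, 4), (0x204386a9, 4), (0x10657483, 4), (0x647583a9, 4), (0x21647385, 4)],
    [(0x4376, 2), (0x205487a9, 4), (0x105386a9, 4), (0x214376a9, 4), (0x205487a9, 4), (0x105386a9, 4)]⟩

def c_2249 : frmChk tB tA F_2249 = true := by decide +kernel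

def r_2249_0 : chkL rootF engF2 tB tA sB_303 sA_303 4 F_2249 [(511, 0, 0)]
    0x40f03c47 = true := by
  decide +kernel

theorem f_2249 (h : TabsF) : FrameF repsF 303 F_2249.f :=
  frame_of rfl c_2249 (runs_of engOK r_2249_0) (by decide +kernel) h.2 h.1

def F_2250 : FrX :=
  ⟨0x1001040012008080000e0084080041000810100004200802400140010102000009a0000a000020804008480440000086000420215002080000a100000188,
    0xa3, 1, 0x3263768697a3, 6,
    [(0xa3, 1), (0x207584a6, 4), (0x10547693, 4), (0x647593a8, 4), (0x10547693, 4), (0x216485a7, 4), (0x208693a4, 4), (0x647593a8, 4), (0x208693a4, 4), (0x106574a8, 4), (0x647593a8, 4), (0x216485a7, 4)],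
    [(0x3263768697a3, 6), (0x307495a8, 4), (0x10546298, 4), (0x628495a7, 4), (0x10546298, 4), (0x317584a9, 4), (0x306287a4, 4), (0x628495a7, 4), (0x306287a4, 4), (0x108594a7, 4), (0x628495a7, 4), (0x317584a9, 4)]⟩

def c_2250 : frmChk tB tB F_2250 = true := by decide +kernel

def r_2250_0 : chkL rootF engF2 tB tB sB_303 sB_303 4 F_2250 [(511, 0, 0)]
    0x40f = true := by
  decide +kernel

theorem f_2250 (h : TabsF) : FrameF repsF 303 F_2250.f :=
  frame_of rfl c_2250 (runs_of engOK r_2250_0) (by decide +kernel) h.2 h.2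

def F_2251 : FrX :=
  ⟨0x1001040012008080000e008408004100081010000420100410080220020000a0442000120011010040042814001000202100808908004408100004000104,
    0xa3, 1, 0x43718791a8, 5,
    [(0xa3, 1), (0x207584a6, 4), (0x10547693, 4), (0x647593a8, 4), (0x10547693, 4), (0x216485a7, 4), (0x208693a4, 4), (0x647593a8, 4), (0x208693a4, 4), (0x106574a8, 4), (0x647593a8, 4), (0x216485a7, 4)],
    [(0x43718791a8, 5), (0x205471a6, 4), (0x537190a8, 4), (0x43718692, 4), (0x205471a6, 4), (0x537190a8, 4)]⟩

def c_2251 : frmChk tB tA F_2251 = true := by decide +kernel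

def r_2251_0 : chkL rootF engF2 tB tA sB_303 sA_303 4 F_2251 [(511, 0, 0)]
    0x10ac1e0ac36 = true := by
  decide +kernel

theorem f_2251 (h : TabsF) : FrameF repsF 303 F_2251.f :=
  frame_of rfl c_2251 (runs_of engOK r_2251_0) (by decide +kernel) h.2 h.1

def F_2252 : FrX :=
  ⟨0x1001040012008080000e0084080041000810100004200810010140010102000a0080080820202002400048000108088000040012028200000aa148011000,
    0xa3, 1, 0x305264758294a8, 7,
    [(0xa3, 1), (0x207584a6, 4), (0x10547693, 4), (0x647593a8, 4), (0x10547693, 4), (0x216485a7, 4), (0x208693a4, 4), (0x647593a8, 4), (0x208693a4, 4), (0x106574a8, 4), (0x647593a8, 4), (0x216485a7, 4)],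
    [(0x305264758294a8, 7), (0x657083a4, 4), (0x316597a2, 4), (0x42658190, 4), (0x657083a4, 4), (0x316597a2, 4)]⟩

def c_2252 : frmChk tB tA F_2252 = true := by decide +kernel

def r_2252_0 : chkL rootF engF2 tB tA sB_303 sA_303 4 F_2252 [(511, 0, 0)]
    0x41b0ac74 = true := by
  decide +kernel

theorem f_2252 (h : TabsF) : FrameF repsF 303 F_2252.f :=
  frame_of rfl c_2252 (runs_of engOK r_2252_0) (by decide +kernel) h.2 h.1

def F_2253 : FrX :=
  ⟨0x1001040012008080000e0084080041000810100004201010014802200200004044020200808000414200280002040821010000080a00400812100a022000,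
    0xa3, 1, 0x3141617193a3, 6,
    [(0xa3, 1), (0x207584a6, 4), (0x10547693, 4), (0x647593a8, 4), (0x10547693, 4), (0x216485a7, 4), (0x208693a4, 4), (0x647593a8, 4), (0x208693a4, 4), (0x106574a8, 4), (0x647593a8, 4), (0x216485a7, 4)],
    [(0x3141617193a3, 6), (0x206583a4, 4), (0x53647091, 4), (0x436591a8, 4), (0x53647091, 4), (0x437285a6, 4), (0x208491a3, 4), (0x436591a8, 4), (0x208491a3, 4), (0x546370a8, 4), (0x436591a8, 4), (0x437285a6, 4)]⟩

def c_2253 : frmChk tB tB F_2253 = true := by decide +kernel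

def r_2253_0 : chkL rootF engF2 tB tB sB_303 sB_303 4 F_2253 [(511, 0, 0)]
    0x106cb206c35 = true := by
  decide +kernel

theorem f_2253 (h : TabsF) : FrameF repsF 303 F_2253.f :=
  frame_of rfl c_2253 (runs_of engOK r_2253_0) (by decide +kernel) h.2 h.2

def F_2254 : FrX :=
  ⟨0x80080a000804040e00002101002001000002040881011001020010020042001010034000c000410200000008880401400010c201001410804c220020000,
    0xa6, 1, 0x43608796a5, 5,
    [(0xa6, 1), (0x205396a8, 4), (0x10548796, 4), (0x214396a7, 4), (0x205396a8, 4), (0x10548796, 4)],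
    [(0x43608796a5, 5), (0x627394a8, 4), (0x506198a3, 4), (0x507493a8, 4), (0x506198a3, 4), (0x218493a7, 4), (0x43506297, 4), (0x507493a8, 4), (0x43506297, 4), (0x617483a9, 4), (0x507493a8, 4), (0x218493a7, 4)]⟩

def c_2254 : frmChk tA tB F_2254 = true := by decide +kernel

def r_2254_0 : chkL rootF engF2 tA tB sA_303 sB_303 4 F_2254 [(511, 0, 0)]
    0x11b14c2541d = true := by
  decide +kernel

theorem f_2254 (h : TabsF) : FrameF repsF 303 F_2254.f :=
  frame_of rfl c_2254 (runs_of engOK r_2254_0) (by decide +kernel) h.1 h.2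

def F_2255 : FrX :=
  ⟨0x2002000900044004000e0204100014100080004080100102101020001820210100020402000800408504041802000000a040208080201020220020081001,
    0xa3, 1, 0x3262768292a3, 6,
    [(0xa3, 1), (0x208693a5, 4), (0x10548793, 4), (0x217693a4, 4), (0x208693a5, 4), (0x10548793, 4)],
    [(0x3262768292a3, 6), (0x768290a5, 4), (0x10546382, 4), (0x738291a4, 4), (0x768290a5, 4), (0x10546382, 4)]⟩

def c_2255 : frmChk tA tA F_2255 = true := by decide +kernel

def r_2255_0 : chkL rootF engF2 tA tA sA_303 sA_303 4 F_2255 [(511, 0, 0)]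
    0x46305c27 = true := by
  decide +kernel

theorem f_2255 (h : TabsF) : FrameF repsF 303 F_2255.f :=
  frame_of rfl c_2255 (runs_of engOK r_2255_0) (by decide +kernel) h.1 h.1

def F_2256 : FrX :=
  ⟨0x2002000900044004000e0204100014100080004080080101400802400200488020010010088800022400010080004810010000003180800808a016044000,
    0xa3, 1, 0x32435363768196a5, 8,
    [(0xa3, 1), (0x208693a5, 4), (0x10548793, 4), (0x217693a4, 4), (0x208693a5, 4), (0x10548793, 4)],
    [(0x32435363768196a5, 8), (0x307491a6, 4), (0x517480a2, 4), (0x62748395, 4), (0x307491a6, 4), (0x517480a2, 4)]⟩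

def c_2256 : frmChk tA tA F_2256 = true := by decide +kernel

def r_2256_0 : chkL rootF engF2 tA tA sA_303 sA_303 4 F_2256 [(511, 0, 0)]
    0x122c1e03c560781706c171340f = true := by
  decide +kernel

theorem f_2256 (h : TabsF) : FrameF repsF 303 F_2256.f :=
  frame_of rfl c_2256 (runs_of engOK r_2256_0) (by decide +kernel) h.1 h.1

def F_2257 : FrX :=
  ⟨0x80080a000804040e000021010020010000020408a00010041800248004802020000804004000850810400001220024080040080030004203200c0808000,
    0xa6, 1, 0x42647496a6, 5,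
    [(0xa6, 1), (0x205396a8, 4), (0x10548796, 4), (0x214396a7, 4), (0x205396a8, 4), (0x10548796, 4)],
    [(0x42647496a6, 5), (0x406587a3, 4), (0x107592a6, 4), (0x658392a7, 4), (0x107592a6, 4), (0x416385a7, 4), (0x407392a8, 4), (0x658392a7, 4), (0x407392a8, 4), (0x107683a5, 4), (0x658392a7, 4), (0x416385a7, 4)]⟩

def c_2257 : frmChk tA tB F_2257 = true := by decide +kernel

def r_2257_0 : chkL rootF engF2 tA tB sA_303 sB_303 4 F_2257 [(511, 0, 0)]
    0x10740f0781713a1306e912349a6488d14c8b = true := by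
  decide +kernel

theorem f_2257 (h : TabsF) : FrameF repsF 303 F_2257.f :=
  frame_of rfl c_2257 (runs_of engOK r_2257_0) (by decide +kernel) h.1 h.2

def F_2258 : FrX :=
  ⟨0x1c4044000008081000000840080410000101084042102000020001010002020048a02001200008100404202060880240104201004104008006003200000,
    0x0, 0, 0x21637485, 4,
    [(0x0, 0), (0x20637584, 4), (0x105476a9, 4), (0x647583a9, 4), (0x105476a9, 4), (0x21647385, 4), (0x204386a9, 4), (0x647583a9, 4), (0x204386a9, 4), (0x10657483, 4), (0x647583a9, 4), (0x21647385, 4)],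
    [(0x21637485, 4), (0x105386a9, 4), (0x205487a9, 4), (0x214376a9, 4), (0x105386a9, 4), (0x205487a9, 4)]⟩

def c_2258 : frmChk tB tA F_2258 = true := by decide +kernel

def r_2258_0 : chkL rootF engF2 tB tA sB_303 sA_303 4 F_2258 [(511, 0, 0)]
    0x1 = true := by
  decide +kernel

theorem f_2258 (h : TabsF) : FrameF repsF 303 F_2258.f :=
  frame_of rfl c_2258 (runs_of engOK r_2258_0) (by decide +kernel) h.2 h.1

def F_2259 : FrX :=
  ⟨0x1001040012008080000e00840800410008101000042008100101400101020000c0410010202020024000480001080880000400260082000010e100a21000,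
    0xa3, 1, 0x304361718697a3, 7,
    [(0xa3, 1), (0x207584a6, 4), (0x10547693, 4), (0x647593a8, 4), (0x10547693, 4), (0x216485a7, 4), (0x208693a4, 4), (0x647593a8, 4), (0x208693a4, 4), (0x106574a8, 4), (0x647593a8, 4), (0x216485a7, 4)],
    [(0x304361718697a3, 7), (0x326481a5, 4), (0x50647391, 4), (0x647298a0, 4), (0x326481a5, 4), (0x50647391, 4)]⟩

def c_2259 : frmChk tB tA F_2259 = true := by decide +kernel

def r_2259_0 : chkL rootF engF2 tB tA sB_303 sA_303 4 F_2259 [(511, 0, 0)]
    0x10ac9506c1b0ac1d = true := by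
  decide +kernel

theorem f_2259 (h : TabsF) : FrameF repsF 303 F_2259.f :=
  frame_of rfl c_2259 (runs_of engOK r_2259_0) (by decide +kernel) h.2 h.1

def F_2260 : FrX :=
  ⟨0x1001040012008080000e0084080041000810100004200802400140010102000004a0002a0000208040084804400000804004201500034000011101200084,
    0xa3, 1, 0x2142628498a3, 6,
    [(0xa3, 1), (0x207584a6, 4), (0x10547693, 4), (0x647593a8, 4), (0x10547693, 4), (0x216485a7, 4), (0x208693a4, 4), (0x647593a8, 4), (0x208693a4, 4), (0x106574a8, 4), (0x647593a8, 4), (0x216485a7, 4)],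
    [(0x2142628498a3, 6), (0x607598a4, 4), (0x20317485, 4), (0x317584a9, 4), (0x20317485, 4), (0x628495a7, 4), (0x316094a8, 4), (0x317584a9, 4), (0x316094a8, 4), (0x205487a9, 4), (0x317584a9, 4), (0x628495a7, 4)]⟩

def c_2260 : frmChk tB tB F_2260 = true := by decide +kernel

def r_2260_0 : chkL rootF engF2 tB tB sB_303 sB_303 4 F_2260 [(511, 0, 0)]
    0x10d80f03c65 = true := by
  decide +kernel

theorem f_2260 (h : TabsF) : FrameF repsF 303 F_2260.f :=
  frame_of rfl c_2260 (runs_of engOK r_2260_0) (by decide +kernel) h.2 h.2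

def F_2261 : FrX :=
  ⟨0x2002000900044004000e02041000141000800040800801014008024002050040200002200888000224000100800048100100000055008009204024054000,
    0xa3, 1, 0x1032436195a7, 6,
    [(0xa3, 1), (0x208693a5, 4), (0x10548793, 4), (0x217693a4, 4), (0x208693a5, 4), (0x10548793, 4)],
    [(0x1032436195a7, 6), (0x31758094, 4), (0x617592a8, 4), (0x426375a0, 4), (0x31758094, 4), (0x617592a8, 4)]⟩

def c_2261 : frmChk tA tA F_2261 = true := by decide +kernel

def r_2261_0 : chkL rootF engF2 tA tA sA_303 sA_303 4 F_2261 [(511, 0, 0)]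
    0x42e3302e0b8cc = true := by
  decide +kernel

theorem f_2261 (h : TabsF) : FrameF repsF 303 F_2261.f :=
  frame_of rfl c_2261 (runs_of engOK r_2261_0) (by decide +kernel) h.1 h.1

def F_2262 : FrX :=
  ⟨0x80080a000804040e00002101002001000002040881011001020010020042002014024000c0004102000000088804014000208201412020a202200440000,
    0xa6, 1, 0x102140508394a6, 7,
    [(0xa6, 1), (0x205396a8, 4), (0x10548796, 4), (0x214396a7, 4), (0x205396a8, 4), (0x10548796, 4)],
    [(0x102140508394a6, 7), (0x507493a8, 4), (0x526194a7, 4), (0x617483a9, 4), (0x526194a7, 4), (0x204387a9, 4), (0x506198a3, 4), (0x617483a9, 4), (0x506198a3, 4), (0x528397a4, 4), (0x617483a9, 4), (0x204387a9, 4)]⟩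

def c_2262 : frmChk tA tB F_2262 = true := by decide +kernel

def r_2262_0 : chkL rootF engF2 tA tB sA_303 sB_303 4 F_2262 [(511, 0, 0)]
    0x45c168171346a137031340f = true := by
  decide +kernel

theorem f_2262 (h : TabsF) : FrameF repsF 303 F_2262.f :=
  frame_of rfl c_2262 (runs_of engOK r_2262_0) (by decide +kernel) h.1 h.2

def F_2263 : FrX :=
  ⟨0x482000044040440000c204002000900018204000210200010088020000408800444012000400400086004888800080201800100a048404000200200024,
    0xa0, 1, 0x50657192a7, 5,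
    [(0xa0, 1), (0x538690a2, 4), (0x548790a1, 4), (0x21437690, 4), (0x538690a2, 4), (0x548790a1, 4)],
    [(0x50657192a7, 5), (0x308495a6, 4), (0x216475a0, 4), (0x214083a6, 4), (0x216475a0, 4), (0x408697a3, 4), (0x21438095, 4), (0x214083a6, 4), (0x21438095, 4), (0x607583a4, 4), (0x214083a6, 4), (0x408697a3, 4)]⟩

def c_2263 : frmChk tA tB F_2263 = true := by decide +kernel

def r_2263_0 : chkL rootF engF2 tA tB sA_303 sB_303 4 F_2263 [(511, 0, 0)]
    0x5250b40f = true := by
  decide +kernel

theorem f_2263 (h : TabsF) : FrameF repsF 303 F_2263.f :=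
  frame_of rfl c_2263 (runs_of engOK r_2263_0) (by decide +kernel) h.1 h.2

theorem cl_303 (h : TabsF) : ∀ f ∈ fr_303, FrameF repsF 303 f :=
  List.forall_mem_cons.2 ⟨f_2236 h, List.forall_mem_cons.2 ⟨f_2237 h, List.forall_mem_cons.2 ⟨f_2238 h, List.forall_mem_cons.2 ⟨f_2239 h, List.forall_mem_cons.2 ⟨f_2240 h, List.forall_mem_cons.2 ⟨f_2241 h, List.forall_mem_cons.2 ⟨f_2242 h, List.forall_mem_cons.2 ⟨f_2243 h, List.forall_mem_cons.2 ⟨f_2244 h, List.forall_mem_cons.2 ⟨f_2245 h, List.forall_mem_cons.2 ⟨f_2246 h, List.forall_mem_cons.2 ⟨f_2247 h, List.forall_mem_cons.2 ⟨f_2248 h, List.forall_mem_cons.2 ⟨f_2249 h, List.forall_mem_cons.2 ⟨f_2250 h, List.forall_mem_cons.2 ⟨f_2251 h, List.forall_mem_cons.2 ⟨f_2252 h, List.forall_mem_cons.2 ⟨f_2253 h, List.forall_mem_cons.2 ⟨f_2254 h, List.forall_mem_cons.2 ⟨f_2255 h, List.forall_mem_cons.2 ⟨f_2256 h, List.forall_mem_cons.2 ⟨f_2257 h, List.forall_mem_cons.2 ⟨f_2258 h, List.forall_mem_cons.2 ⟨f_2259 h, List.forall_mem_cons.2 ⟨f_2260 h, List.forall_mem_cons.2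 ⟨f_2261 h, List.forall_mem_cons.2 ⟨f_2262 h, List.forall_mem_cons.2 ⟨f_2263 h,
    fun _ h0 => absurd h0 List.not_mem_nil⟩⟩⟩⟩⟩⟩⟩⟩⟩⟩⟩⟩⟩⟩⟩⟩⟩⟩⟩⟩⟩⟩⟩⟩⟩⟩⟩⟩

def F_2264 : FrX :=
  ⟨0x80080a000804040e00002101002001000002040880480800420008400020201040802041204802000040080501080801020080006102200300200810080,
    0xa6, 1, 0x2131435462708491a6, 9,
    [(0xa6, 1), (0x205396a8, 4), (0x10548796, 4), (0x214396a7, 4), (0x205396a8, 4), (0x10548796, 4)],
    [(0x2131435462708491a6, 9), (0x314276a5, 4), (0x31508297, 4), (0x318496a0, 4), (0x314276a5, 4), (0x31508297, 4)]⟩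

def c_2264 : frmChk tA tA F_2264 = true := by decide +kernel

def r_2264_0 : chkL rootF engF2 tA tA sA_304 sA_304 4 F_2264 [(511, 0, 0)]
    0x41e1590d1388b0740f03c0f07516170474b047 = true := by
  decide +kernel

theorem f_2264 (h : TabsF) : FrameF repsF 304 F_2264.f :=
  frame_of rfl c_2264 (runs_of engOK r_2264_0) (by decide +kernel) h.1 h.1

def F_2265 : FrX :=
  ⟨0x80080a000804040e000021010020010000020408a0002000480088100224010020011000022080842021000842010101020010040400108004029080080,
    0xa6, 1, 0x10304251607392a0, 8,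
    [(0xa6, 1), (0x205396a8, 4), (0x10548796, 4), (0x214396a7, 4), (0x205396a8, 4), (0x10548796, 4)],
    [(0x10304251607392a0, 8), (0x107382a9, 4), (0x203164a5, 4), (0x10326487, 4), (0x203164a5, 4), (0x32718095, 4), (0x647283a9, 4), (0x10326487, 4), (0x647283a9, 4), (0x213087a5, 4), (0x10326487, 4), (0x32718095, 4)]⟩

def c_2265 : frmChk tA tB F_2265 = true := by decide +kernel

def r_2265_0 : chkL rootF engF2 tA tB sA_304 sB_304 4 F_2265 [(511, 0, 0)]
    0x105c1711c472342b = true := by
  decide +kernel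

theorem f_2265 (h : TabsF) : FrameF repsF 304 F_2265.f :=
  frame_of rfl c_2265 (runs_of engOK r_2265_0) (by decide +kernel) h.1 h.2

def F_2266 : FrX :=
  ⟨0x2002000900044004000e0204100014100080004080200022400140080882080020008022000400400a218010004800801001801010048000100804014208,
    0xa3, 1, 0x304263738190a1, 7,
    [(0xa3, 1), (0x208693a5, 4), (0x10548793, 4), (0x217693a4, 4), (0x208693a5, 4), (0x10548793, 4)],
    [(0x304263738190a1, 7), (0x10758394, 4), (0x526183a9, 4), (0x607283a4, 4), (0x10758394, 4), (0x526183a9, 4)]⟩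

def c_2266 : frmChk tA tA F_2266 = true := by decide +kernel

def r_2266_0 : chkL rootF engF2 tA tA sA_304 sA_304 4 F_2266 [(511, 0, 0)]
    0x106c1b06c1b1a81e06c744e10b06d4a = true := by
  decide +kernel

theorem f_2266 (h : TabsF) : FrameF repsF 304 F_2266.f :=
  frame_of rfl c_2266 (runs_of engOK r_2266_0) (by decide +kernel) h.1 h.1

def F_2267 : FrX :=
  ⟨0x80080a000804040e000021010020010000020408a000410030008810081200000402400010400420a000200108801802028000011008004040a10140200,
    0xa6, 1, 0x20304150627490a0, 8,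
    [(0xa6, 1), (0x205396a8, 4), (0x10548796, 4), (0x214396a7, 4), (0x205396a8, 4), (0x10548796, 4)],
    [(0x20304150627490a0, 8), (0x203187a6, 4), (0x107395a4, 4), (0x31708295, 4), (0x107395a4, 4), (0x21647083, 4), (0x728095a6, 4), (0x31708295, 4), (0x728095a6, 4), (0x307182a4, 4), (0x31708295, 4), (0x21647083, 4)]⟩

def c_2267 : frmChk tA tB F_2267 = true := by decide +kernel

def r_2267_0 : chkL rootF engF2 tA tB sA_304 sB_304 4 F_2267 [(511, 0, 0)]
    0x11c8711c8710b4f01c89324c2d0b85a0b417 = true := by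
  decide +kernel

theorem f_2267 (h : TabsF) : FrameF repsF 304 F_2267.f :=
  frame_of rfl c_2267 (runs_of engOK r_2267_0) (by decide +kernel) h.1 h.2

def F_2268 : FrX :=
  ⟨0x482000044040440000c2040020009000182040000901004000a00080004084004880820004020002031010108400802080080130048404010000800401,
    0xa0, 1, 0x2132426592a1, 6,
    [(0xa0, 1), (0x538690a2, 4), (0x548790a1, 4), (0x21437690, 4), (0x538690a2, 4), (0x548790a1, 4)],
    [(0x2132426592a1, 6), (0x51768390, 4), (0x426375a0, 4), (0x42537681, 4), (0x426375a0, 4), (0x537186a9, 4), (0x31428590, 4), (0x42537681, 4), (0x31428590, 4), (0x657381a0, 4), (0x42537681, 4), (0x537186a9, 4)]⟩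

def c_2268 : frmChk tA tB F_2268 = true := by decide +kernel

def r_2268_0 : chkL rootF engF2 tA tB sA_304 sB_304 4 F_2268 [(511, 0, 0)]
    0x40f0b41eb8027 = true := by
  decide +kernel

theorem f_2268 (h : TabsF) : FrameF repsF 304 F_2268.f :=
  frame_of rfl c_2268 (runs_of engOK r_2268_0) (by decide +kernel) h.1 h.2

def F_2269 : FrX :=
  ⟨0x2002000900044004000e02041000141000800040801140401000c002010000800201280200020200020208088c0000140001811000480808002402200104,
    0xa3, 1, 0x315065728592a2, 7,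
    [(0xa3, 1), (0x208693a5, 4), (0x10548793, 4), (0x217693a4, 4), (0x208693a5, 4), (0x10548793, 4)],
    [(0x315065728592a2, 7), (0x608197a5, 4), (0x53628497, 4), (0x204197a3, 4), (0x608197a5, 4), (0x53628497, 4)]⟩

def c_2269 : frmChk tA tA F_2269 = true := by decide +kernel

def r_2269_0 : chkL rootF engF2 tA tA sA_304 sA_304 4 F_2269 [(511, 0, 0)]
    0x41d1980f = true := by
  decide +kernel

theorem f_2269 (h : TabsF) : FrameF repsF 304 F_2269.f :=
  frame_of rfl c_2269 (runs_of engOK r_2269_0) (by decide +kernel) h.1 h.1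

def F_2270 : FrX :=
  ⟨0x482000044040440000c20400200090001820400004804108042000100200280088020011040004401001010440018000400012840500000140802100a0,
    0xa0, 1, 0x2050657481a2, 6,
    [(0xa0, 1), (0x538690a2, 4), (0x548790a1, 4), (0x21437690, 4), (0x538690a2, 4), (0x548790a1, 4)],
    [(0x2050657481a2, 6), (0x326471a5, 4), (0x42768590, 4), (0x31647290, 4), (0x42768590, 4), (0x436172a8, 4), (0x217390a5, 4), (0x31647290, 4), (0x217390a5, 4), (0x31627485, 4), (0x31647290, 4), (0x436172a8, 4)]⟩

def c_2270 : frmChk tA tB F_2270 = true := by decide +kernel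

def r_2270_0 : chkL rootF engF2 tA tB sA_304 sB_304 4 F_2270 [(511, 0, 0)]
    0x103c173a00f03c65c1417 = true := by
  decide +kernel

theorem f_2270 (h : TabsF) : FrameF repsF 304 F_2270.f :=
  frame_of rfl c_2270 (runs_of engOK r_2270_0) (by decide +kernel) h.1 h.2

def F_2271 : FrX :=
  ⟨0x2002000900044004000e020410001410008000408008020800a000410000a2020200090100200808008800c1014000040284008000e00200802004081100,
    0xa3, 1, 0x103143637297a6, 7,
    [(0xa3, 1), (0x208693a5, 4), (0x10548793, 4), (0x217693a4, 4), (0x208693a5, 4), (0x10548793, 4)],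
    [(0x103143637297a6, 7), (0x718095a6, 4), (0x314250a9, 4), (0x428695a0, 4), (0x314250a9, 4), (0x738596a0, 4), (0x426071a8, 4), (0x428695a0, 4), (0x426071a8, 4), (0x318690a5, 4), (0x428695a0, 4), (0x738596a0, 4)]⟩

def c_2271 : frmChk tA tB F_2271 = true := by decide +kernel

def r_2271_0 : chkL rootF engF2 tA tB sA_304 sB_304 4 F_2271 [(511, 0, 0)]
    0x44d1346903c27 = true := by
  decide +kernel

theorem f_2271 (h : TabsF) : FrameF repsF 304 F_2271.f :=
  frame_of rfl c_2271 (runs_of engOK r_2271_0) (by decide +kernel) h.1 h.2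

def F_2272 : FrX :=
  ⟨0x2002000900044004000e02041000141000800040810000012801004102004040220101010000048800e00406040010001080088080400220200088040084,
    0xa3, 1, 0x2041628591a4, 6,
    [(0xa3, 1), (0x208693a5, 4), (0x10548793, 4), (0x217693a4, 4), (0x208693a5, 4), (0x10548793, 4)],
    [(0x2041628591a4, 6), (0x41506283, 4), (0x417592a8, 4), (0x417096a3, 4), (0x41506283, 4), (0x417592a8, 4)]⟩

def c_2272 : frmChk tA tA F_2272 = true := by decide +kernel

def r_2272_0 : chkL rootF engF2 tA tA sA_304 sA_304 4 F_2272 [(511, 0, 0)]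
    0x109c1703dc41c90b03c2e0cc391716203c0f03c1d07439 = true := by
  decide +kernel

theorem f_2272 (h : TabsF) : FrameF repsF 304 F_2272.f :=
  frame_of rfl c_2272 (runs_of engOK r_2272_0) (by decide +kernel) h.1 h.1

def F_2273 : FrX :=
  ⟨0x482000044040440000c204002000900018204000108048000088081001041002002041010000410006040044411000201000a008100220040008808050,
    0xa0, 1, 0x214360748691a6, 7,
    [(0xa0, 1), (0x538690a2, 4), (0x548790a1, 4), (0x21437690, 4), (0x538690a2, 4), (0x548790a1, 4)],
    [(0x214360748691a6, 7), (0x536170a4, 4), (0x758296a3, 4), (0x405382a7, 4), (0x758296a3, 4), (0x435091a7, 4), (0x617482a0, 4), (0x405382a7, 4), (0x617482a0, 4), (0x407396a5, 4), (0x405382a7, 4), (0x435091a7, 4)]⟩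

def c_2273 : frmChk tA tB F_2273 = true := by decide +kernel

def r_2273_0 : chkL rootF engF2 tA tB sA_304 sB_304 4 F_2273 [(511, 0, 0)]
    0x45a0d81d07435 = true := by
  decide +kernel

theorem f_2273 (h : TabsF) : FrameF repsF 304 F_2273.f :=
  frame_of rfl c_2273 (runs_of engOK r_2273_0) (by decide +kernel) h.1 h.2

def F_2274 : FrX :=
  ⟨0x80080a000804040e00002101002001000002040880600c0800440040008008002012041008004000088820101011000020004a020400901900089000010,
    0xa6, 1, 0x30437096a6, 5,
    [(0xa6, 1), (0x205396a8, 4), (0x10548796, 4), (0x214396a7, 4), (0x205396a8, 4), (0x10548796, 4)],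
    [(0x30437096a6, 5), (0x537280a4, 4), (0x507196a3, 4), (0x538496a0, 4), (0x507196a3, 4), (0x214385a0, 4), (0x407296a8, 4), (0x538496a0, 4), (0x407296a8, 4), (0x307184a5, 4), (0x538496a0, 4), (0x214385a0, 4)]⟩

def c_2274 : frmChk tA tB F_2274 = true := by decide +kernel

def r_2274_0 : chkL rootF engF2 tA tB sA_304 sB_304 4 F_2274 [(511, 0, 0)]
    0x45306d135481b06c1d07554 = true := by
  decide +kernel

theorem f_2274 (h : TabsF) : FrameF repsF 304 F_2274.f :=
  frame_of rfl c_2274 (runs_of engOK r_2274_0) (by decide +kernel) h.1 h.2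

def F_2275 : FrX :=
  ⟨0x80080a000804040e0000210100200100000204088208020011008010080008200108406006400001004820040808004030000101100808c001004440200,
    0xa6, 1, 0x3154647192a3, 6,
    [(0xa6, 1), (0x205396a8, 4), (0x10548796, 4), (0x214396a7, 4), (0x205396a8, 4), (0x10548796, 4)],
    [(0x3154647192a3, 6), (0x218590a4, 4), (0x21647083, 4), (0x215397a6, 4), (0x218590a4, 4), (0x21647083, 4)]⟩

def c_2275 : frmChk tA tA F_2275 = true := by decide +kernel

def r_2275_0 : chkL rootF engF2 tA tA sA_304 sA_304 4 F_2275 [(511, 0, 0)]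
    0x103c1723945 = true := by
  decide +kernel

theorem f_2275 (h : TabsF) : FrameF repsF 304 F_2275.f :=
  frame_of rfl c_2275 (runs_of engOK r_2275_0) (by decide +kernel) h.1 h.1

def F_2276 : FrX :=
  ⟨0x2002000900044004000e02041000141000800040810000084048002008820021200002204004061010040030404020000201820010000208101220008280,
    0xa3, 1, 0x32437291a0, 5,
    [(0xa3, 1), (0x208693a5, 4), (0x10548793, 4), (0x217693a4, 4), (0x208693a5, 4), (0x10548793, 4)],
    [(0x32437291a0, 5), (0x536482a7, 4), (0x105263a9, 4), (0x10536284, 4), (0x105263a9, 4), (0x43628597, 4), (0x104286a7, 4), (0x10536284, 4), (0x104286a7, 4), (0x326584a9, 4), (0x10536284, 4), (0x43628597, 4)]⟩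

def c_2276 : frmChk tA tB F_2276 = true := by decide +kernel

def r_2276_0 : chkL rootF engF2 tA tB sA_304 sB_304 4 F_2276 [(511, 0, 0)]
    0x48d05c0f9142b06caa2683a42d891399282c35 = true := by
  decide +kernel

theorem f_2276 (h : TabsF) : FrameF repsF 304 F_2276.f :=
  frame_of rfl c_2276 (runs_of engOK r_2276_0) (by decide +kernel) h.1 h.2

def F_2277 : FrX :=
  ⟨0x1c40440000080810000008400804100001010840421020000010810001020000420405200004040004c200892200024010020101810400800100b000100,
    0x0, 0, 0x4376, 2,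
    [(0x0, 0), (0x20637584, 4), (0x105476a9, 4), (0x647583a9, 4), (0x105476a9, 4), (0x21647385, 4), (0x204386a9, 4), (0x647583a9, 4), (0x204386a9, 4), (0x10657483, 4), (0x647583a9, 4), (0x21647385, 4)],
    [(0x4376, 2), (0x205487a9, 4), (0x105386a9, 4), (0x214376a9, 4), (0x205487a9, 4), (0x105386a9, 4)]⟩

def c_2277 : frmChk tB tA F_2277 = true := by decide +kernel

def r_2277_0 : chkL rootF engF2 tB tA sB_304 sA_304 4 F_2277 [(511, 0, 0)]
    0x113926 = true := by
  decide +kernel

theorem f_2277 (h : TabsF) : FrameF repsF 304 F_2277.f :=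
  frame_of rfl c_2277 (runs_of engOK r_2277_0) (by decide +kernel) h.2 h.1

def F_2278 : FrX :=
  ⟨0x1001040012008080000e0084080041000810100004200802400140010102000009a0000a00002080400848044000008028042021000208000aa100000188,
    0xa3, 1, 0x3263768697a3, 6,
    [(0xa3, 1), (0x207584a6, 4), (0x10547693, 4), (0x647593a8, 4), (0x10547693, 4), (0x216485a7, 4), (0x208693a4, 4), (0x647593a8, 4), (0x208693a4, 4), (0x106574a8, 4), (0x647593a8, 4), (0x216485a7, 4)],
    [(0x3263768697a3, 6), (0x307495a8, 4), (0x10546298, 4), (0x628495a7, 4), (0x10546298, 4), (0x317584a9, 4), (0x306287a4, 4), (0x628495a7, 4), (0x306287a4, 4), (0x108594a7, 4), (0x628495a7, 4), (0x317584a9, 4)]⟩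

def c_2278 : frmChk tB tB F_2278 = true := by decide +kernel

def r_2278_0 : chkL rootF engF2 tB tB sB_304 sB_304 4 F_2278 [(511, 0, 0)]
    0x10e80f = true := by
  decide +kernel

theorem f_2278 (h : TabsF) : FrameF repsF 304 F_2278.f :=
  frame_of rfl c_2278 (runs_of engOK r_2278_0) (by decide +kernel) h.2 h.2

def F_2279 : FrX :=
  ⟨0x1001040012008080000e0084080041000810100004200802400140010102000002e000220000208040084804400000804004201500020480090100040094,
    0xa3, 1, 0x1031538795a6, 6,
    [(0xa3, 1), (0x207584a6, 4), (0x10547693, 4), (0x647593a8, 4), (0x10547693, 4), (0x216485a7, 4), (0x208693a4, 4), (0x647593a8, 4), (0x208693a4, 4), (0x106574a8, 4), (0x647593a8, 4), (0x216485a7, 4)],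
    [(0x1031538795a6, 6), (0x217498a5, 4), (0x316094a8, 4), (0x607598a4, 4), (0x316094a8, 4), (0x328597a4, 4), (0x215460a7, 4), (0x607598a4, 4), (0x215460a7, 4), (0x317584a9, 4), (0x607598a4, 4), (0x328597a4, 4)]⟩

def c_2279 : frmChk tB tB F_2279 = true := by decide +kernel

def r_2279_0 : chkL rootF engF2 tB tB sB_304 sB_304 4 F_2279 [(511, 0, 0)]
    0x48e168cc0ce0788e4611c5a0b40f12ccc3283381e2311c350cc0f = true := by
  decide +kernel

theorem f_2279 (h : TabsF) : FrameF repsF 304 F_2279.f :=
  frame_of rfl c_2279 (runs_of engOK r_2279_0) (by decide +kernel) h.2 h.2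

def F_2280 : FrX :=
  ⟨0x1001040012008080000e008408004100081010000420100410080220020000a044200012000011004004281440100020210080080c004408100004000304,
    0xa3, 1, 0x43718791a8, 5,
    [(0xa3, 1), (0x207584a6, 4), (0x10547693, 4), (0x647593a8, 4), (0x10547693, 4), (0x216485a7, 4), (0x208693a4, 4), (0x647593a8, 4), (0x208693a4, 4), (0x106574a8, 4), (0x647593a8, 4), (0x216485a7, 4)],
    [(0x43718791a8, 5), (0x205471a6, 4), (0x537190a8, 4), (0x43718692, 4), (0x205471a6, 4), (0x537190a8, 4)]⟩

def c_2280 : frmChk tB tA F_2280 = true := by decide +kernel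

def r_2280_0 : chkL rootF engF2 tB tA sB_304 sA_304 4 F_2280 [(511, 0, 0)]
    0x4390ac2b03c0f = true := by
  decide +kernel

theorem f_2280 (h : TabsF) : FrameF repsF 304 F_2280.f :=
  frame_of rfl c_2280 (runs_of engOK r_2280_0) (by decide +kernel) h.2 h.1

def F_2281 : FrX :=
  ⟨0x1001040012008080000e0084080041000810100004201010014802200200004044020200208040414000280002040820090000081a00400810100a022000,
    0xa3, 1, 0x3141617193a3, 6,
    [(0xa3, 1), (0x207584a6, 4), (0x10547693, 4), (0x647593a8, 4), (0x10547693, 4), (0x216485a7, 4), (0x208693a4, 4), (0x647593a8, 4), (0x208693a4, 4), (0x106574a8, 4), (0x647593a8, 4), (0x216485a7, 4)],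
    [(0x3141617193a3, 6), (0x206583a4, 4), (0x53647091, 4), (0x436591a8, 4), (0x53647091, 4), (0x437285a6, 4), (0x208491a3, 4), (0x436591a8, 4), (0x208491a3, 4), (0x546370a8, 4), (0x436591a8, 4), (0x437285a6, 4)]⟩

def c_2281 : frmChk tB tB F_2281 = true := by decide +kernel

def r_2281_0 : chkL rootF engF2 tB tB sB_304 sB_304 4 F_2281 [(511, 0, 0)]
    0x4360b40f03c1b06c17 = true := by
  decide +kernel

theorem f_2281 (h : TabsF) : FrameF repsF 304 F_2281.f :=
  frame_of rfl c_2281 (runs_of engOK r_2281_0) (by decide +kernel) h.2 h.2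

def F_2282 : FrX :=
  ⟨0x80080a000804040e00002101002001000002040881011001020010020042001010034000c000410200000008880401400010c2010000908005220820004,
    0xa6, 1, 0x43608796a5, 5,
    [(0xa6, 1), (0x205396a8, 4), (0x10548796, 4), (0x214396a7, 4), (0x205396a8, 4), (0x10548796, 4)],
    [(0x43608796a5, 5), (0x627394a8, 4), (0x506198a3, 4), (0x507493a8, 4), (0x506198a3, 4), (0x218493a7, 4), (0x43506297, 4), (0x507493a8, 4), (0x43506297, 4), (0x617483a9, 4), (0x507493a8, 4), (0x218493a7, 4)]⟩

def c_2282 : frmChk tA tB F_2282 = true := by decide +kernel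

def r_2282_0 : chkL rootF engF2 tA tB sA_304 sB_304 4 F_2282 [(511, 0, 0)]
    0x42b05e8a12c0f0781e0781e14c2e = true := by
  decide +kernel

theorem f_2282 (h : TabsF) : FrameF repsF 304 F_2282.f :=
  frame_of rfl c_2282 (runs_of engOK r_2282_0) (by decide +kernel) h.1 h.2

def F_2283 : FrX :=
  ⟨0x80080a000804040e00002101002001000002040881011001020010020042004004064000c00041020000000888040140002082014000a88002242400100,
    0xa6, 1, 0x20506095a6, 5,
    [(0xa6, 1), (0x205396a8, 4), (0x10548796, 4), (0x214396a7, 4), (0x205396a8, 4), (0x10548796, 4)],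
    [(0x20506095a6, 5), (0x608497a3, 4), (0x526194a7, 4), (0x528397a4, 4), (0x526194a7, 4), (0x107398a4, 4), (0x435260a8, 4), (0x528397a4, 4), (0x435260a8, 4), (0x617483a9, 4), (0x528397a4, 4), (0x107398a4, 4)]⟩

def c_2283 : frmChk tA tB F_2283 = true := by decide +kernel

def r_2283_0 : chkL rootF engF2 tA tB sA_304 sB_304 4 F_2283 [(511, 0, 0)]
    0x42b2a42b2a4331705c1583909c2b = true := by
  decide +kernel

theorem f_2283 (h : TabsF) : FrameF repsF 304 F_2283.f :=
  frame_of rfl c_2283 (runs_of engOK r_2283_0) (by decide +kernel) h.1 h.2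

def F_2284 : FrX :=
  ⟨0x2002000900044004000e0204100014100080004080100102101020001820210100020402000800401404041882000000a040208080201000a00020081801,
    0xa3, 1, 0x3262768292a3, 6,
    [(0xa3, 1), (0x208693a5, 4), (0x10548793, 4), (0x217693a4, 4), (0x208693a5, 4), (0x10548793, 4)],
    [(0x3262768292a3, 6), (0x768290a5, 4), (0x10546382, 4), (0x738291a4, 4), (0x768290a5, 4), (0x10546382, 4)]⟩

def c_2284 : frmChk tA tA F_2284 = true := by decide +kernel

def r_2284_0 : chkL rootF engF2 tA tA sA_304 sA_304 4 F_2284 [(511, 0, 0)]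
    0x1194270e86605c1d1941b0ac6c09c27 = true := by
  decide +kernel

theorem f_2284 (h : TabsF) : FrameF repsF 304 F_2284.f :=
  frame_of rfl c_2284 (runs_of engOK r_2284_0) (by decide +kernel) h.1 h.1

def F_2285 : FrX :=
  ⟨0x80080a000804040e000021010020010000020408a0001004180024800480202000080400400085010040000922002408004008003000400b000c0808800,
    0xa6, 1, 0x42647496a6, 5,
    [(0xa6, 1), (0x205396a8, 4), (0x10548796, 4), (0x214396a7, 4), (0x205396a8, 4), (0x10548796, 4)],
    [(0x42647496a6, 5), (0x406587a3, 4), (0x107592a6, 4), (0x658392a7, 4), (0x107592a6, 4), (0x416385a7, 4), (0x407392a8, 4), (0x658392a7, 4), (0x407392a8, 4), (0x107683a5, 4), (0x658392a7, 4), (0x416385a7, 4)]⟩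

def c_2285 : frmChk tA tB F_2285 = true := by decide +kernel

def r_2285_0 : chkL rootF engF2 tA tB sA_304 sB_304 4 F_2285 [(511, 0, 0)]
    0x10b81d0791303c2e0780f = true := by
  decide +kernel

theorem f_2285 (h : TabsF) : FrameF repsF 304 F_2285.f :=
  frame_of rfl c_2285 (runs_of engOK r_2285_0) (by decide +kernel) h.1 h.2

def F_2286 : FrX :=
  ⟨0x1001040012008080000e0084080041000810100004200810010802200200006044020200088020014008280002140820030000080a00400810100a022000,
    0xa3, 1, 0x657390a3, 4,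
    [(0xa3, 1), (0x207584a6, 4), (0x10547693, 4), (0x647593a8, 4), (0x10547693, 4), (0x216485a7, 4), (0x208693a4, 4), (0x647593a8, 4), (0x208693a4, 4), (0x106574a8, 4), (0x647593a8, 4), (0x216485a7, 4)],
    [(0x657390a3, 4), (0x638492a5, 4), (0x53647091, 4), (0x546370a8, 4), (0x53647091, 4), (0x215486a3, 4), (0x708592a4, 4), (0x546370a8, 4), (0x708592a4, 4), (0x436591a8, 4), (0x546370a8, 4), (0x215486a3, 4)]⟩

def c_2286 : frmChk tB tB F_2286 = true := by decide +kernel

def r_2286_0 : chkL rootF engF2 tB tB sB_304 sB_304 4 F_2286 [(511, 0, 0)]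
    0x43303e4aa0ec203e34b82b00745a = true := by
  decide +kernel

theorem f_2286 (h : TabsF) : FrameF repsF 304 F_2286.f :=
  frame_of rfl c_2286 (runs_of engOK r_2286_0) (by decide +kernel) h.2 h.2

def F_2287 : FrX :=
  ⟨0x1c4044000008081000000840080410000101084042102000020001010002020048a02001040208100404002060880240100301014104008006003000000,
    0x0, 0, 0x21637485, 4,
    [(0x0, 0), (0x20637584, 4), (0x105476a9, 4), (0x647583a9, 4), (0x105476a9, 4), (0x21647385, 4), (0x204386a9, 4), (0x647583a9, 4), (0x204386a9, 4), (0x10657483, 4), (0x647583a9, 4), (0x21647385, 4)],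
    [(0x21637485, 4), (0x105386a9, 4), (0x205487a9, 4), (0x214376a9, 4), (0x105386a9, 4), (0x205487a9, 4)]⟩

def c_2287 : frmChk tB tA F_2287 = true := by decide +kernel

def r_2287_0 : chkL rootF engF2 tB tA sB_304 sA_304 4 F_2287 [(511, 0, 0)]
    0x111c2d0b42d06ca50781e = true := by
  decide +kernel

theorem f_2287 (h : TabsF) : FrameF repsF 304 F_2287.f :=
  frame_of rfl c_2287 (runs_of engOK r_2287_0) (by decide +kernel) h.2 h.1

def F_2288 : FrX :=
  ⟨0x1001040012008080000e0084080041000810100004200802400140010102000004a0002a0000208040084804400000804004201500021200131100000084,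
    0xa3, 1, 0x2142628498a3, 6,
    [(0xa3, 1), (0x207584a6, 4), (0x10547693, 4), (0x647593a8, 4), (0x10547693, 4), (0x216485a7, 4), (0x208693a4, 4), (0x647593a8, 4), (0x208693a4, 4), (0x106574a8, 4), (0x647593a8, 4), (0x216485a7, 4)],
    [(0x2142628498a3, 6), (0x607598a4, 4), (0x20317485, 4), (0x317584a9, 4), (0x20317485, 4), (0x628495a7, 4), (0x316094a8, 4), (0x317584a9, 4), (0x316094a8, 4), (0x205487a9, 4), (0x317584a9, 4), (0x628495a7, 4)]⟩

def c_2288 : frmChk tB tB F_2288 = true := by decide +kernel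

def r_2288_0 : chkL rootF engF2 tB tB sB_304 sB_304 4 F_2288 [(511, 0, 0)]
    0x105c5c = true := by
  decide +kernel

theorem f_2288 (h : TabsF) : FrameF repsF 304 F_2288.f :=
  frame_of rfl c_2288 (runs_of engOK r_2288_0) (by decide +kernel) h.2 h.2

def F_2289 : FrX :=
  ⟨0x1001040012008080000e0084080041000810100004400802080140002102000005600080202004024000480040c048800004002604020000064900020040,
    0xa3, 1, 0x315365738395a6, 7,
    [(0xa3, 1), (0x207584a6, 4), (0x10547693, 4), (0x647593a8, 4), (0x10547693, 4), (0x216485a7, 4), (0x208693a4, 4), (0x647593a8, 4), (0x208693a4, 4), (0x106574a8, 4), (0x647593a8, 4), (0x216485a7, 4)],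
    [(0x315365738395a6, 7), (0x206198a7, 4), (0x30617594, 4), (0x326184a5, 4), (0x206198a7, 4), (0x30617594, 4)]⟩

def c_2289 : frmChk tB tA F_2289 = true := by decide +kernel

def r_2289_0 : chkL rootF engF2 tB tA sB_304 sA_304 4 F_2289 [(511, 0, 0)]
    0x105c0f03c472a43603c0f03c4e14c5a2a436 = true := by
  decide +kernel

theorem f_2289 (h : TabsF) : FrameF repsF 304 F_2289.f :=
  frame_of rfl c_2289 (runs_of engOK r_2289_0) (by decide +kernel) h.2 h.1

def F_2290 : FrX :=
  ⟨0x1001040012008080000e008408004100081010000420080240014001010200000320002420202020002008c0600048800004001501000081130104000004,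
    0xa3, 1, 0x3254618398a6, 6,
    [(0xa3, 1), (0x207584a6, 4), (0x10547693, 4), (0x647593a8, 4), (0x10547693, 4), (0x216485a7, 4), (0x208693a4, 4), (0x647593a8, 4), (0x208693a4, 4), (0x106574a8, 4), (0x647593a8, 4), (0x216485a7, 4)],
    [(0x3254618398a6, 6), (0x307495a8, 4), (0x215460a7, 4), (0x217498a5, 4), (0x215460a7, 4), (0x638794a5, 4), (0x213085a9, 4), (0x217498a5, 4), (0x213085a9, 4), (0x607598a4, 4), (0x217498a5, 4), (0x638794a5, 4)]⟩

def c_2290 : frmChk tB tB F_2290 = true := by decide +kernel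

def r_2290_0 : chkL rootF engF2 tB tB sB_304 sB_304 4 F_2290 [(511, 0, 0)]
    0x183a8c05d070b60e8381e078271385a0e80f03c1703e16650b8 = true := by
  decide +kernel

theorem f_2290 (h : TabsF) : FrameF repsF 304 F_2290.f :=
  frame_of rfl c_2290 (runs_of engOK r_2290_0) (by decide +kernel) h.2 h.2

def F_2291 : FrX :=
  ⟨0x80080a000804040e00002101002001000002040881011001020010020042002014024000c00041020000000888040140002082014000608003210440040,
    0xa6, 1, 0x102140508394a6, 7,
    [(0xa6, 1), (0x205396a8, 4), (0x10548796, 4), (0x214396a7, 4), (0x205396a8, 4), (0x10548796, 4)],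
    [(0x102140508394a6, 7), (0x507493a8, 4), (0x526194a7, 4), (0x617483a9, 4), (0x526194a7, 4), (0x204387a9, 4), (0x506198a3, 4), (0x617483a9, 4), (0x506198a3, 4), (0x528397a4, 4), (0x617483a9, 4), (0x204387a9, 4)]⟩

def c_2291 : frmChk tA tB F_2291 = true := by decide +kernel

def r_2291_0 : chkL rootF engF2 tA tB sA_304 sB_304 4 F_2291 [(511, 0, 0)]
    0x106c0f = true := by
  decide +kernel

theorem f_2291 (h : TabsF) : FrameF repsF 304 F_2291.f :=
  frame_of rfl c_2291 (runs_of engOK r_2291_0) (by decide +kernel) h.1 h.2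

theorem cl_304 (h : TabsF) : ∀ f ∈ fr_304, FrameF repsF 304 f :=
  List.forall_mem_cons.2 ⟨f_2264 h, List.forall_mem_cons.2 ⟨f_2265 h, List.forall_mem_cons.2 ⟨f_2266 h, List.forall_mem_cons.2 ⟨f_2267 h, List.forall_mem_cons.2 ⟨f_2268 h, List.forall_mem_cons.2 ⟨f_2269 h, List.forall_mem_cons.2 ⟨f_2270 h, List.forall_mem_cons.2 ⟨f_2271 h, List.forall_mem_cons.2 ⟨f_2272 h, List.forall_mem_cons.2 ⟨f_2273 h, List.forall_mem_cons.2 ⟨f_2274 h, List.forall_mem_cons.2 ⟨f_2275 h, List.forall_mem_cons.2 ⟨f_2276 h, List.forall_mem_cons.2 ⟨f_2277 h, List.forall_mem_cons.2 ⟨f_2278 h, List.forall_mem_cons.2 ⟨f_2279 h, List.forall_mem_cons.2 ⟨f_2280 h, List.forall_mem_cons.2 ⟨f_2281 h, List.forall_mem_cons.2 ⟨f_2282 h, List.forall_mem_cons.2 ⟨f_2283 h, List.forall_mem_cons.2 ⟨f_2284 h, List.forall_mem_cons.2 ⟨f_2285 h, List.forall_mem_cons.2 ⟨f_2286 h, List.forall_mem_cons.2 ⟨f_2287 h, List.forall_mem_cons.2 ⟨f_2288 h, List.forall_mem_cons.2 ⟨f_2289 h, List.forall_mem_cons.2 ⟨f_2290 h, List.forall_mem_cons.2 ⟨f_2291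 h,
    fun _ h0 => absurd h0 List.not_mem_nil⟩⟩⟩⟩⟩⟩⟩⟩⟩⟩⟩⟩⟩⟩⟩⟩⟩⟩⟩⟩⟩⟩⟩⟩⟩⟩⟩⟩

def F_2292 : FrX :=
  ⟨0x80080a000804040e000021010020010000020408804808004044004020000880048220010840820000408010c0401800002001020408804240088020010,
    0xa6, 1, 0x20324353708193a6, 8,
    [(0xa6, 1), (0x205396a8, 4), (0x10548796, 4), (0x214396a7, 4), (0x205396a8, 4), (0x10548796, 4)],
    [(0x20324353708193a6, 8), (0x104273a9, 4), (0x406587a2, 4), (0x426591a0, 4), (0x406587a2, 4), (0x418392a0, 4), (0x657390a1, 4), (0x426591a0, 4), (0x657390a1, 4), (0x208791a4, 4), (0x426591a0, 4), (0x418392a0, 4)]⟩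

def c_2292 : frmChk tA tB F_2292 = true := by decide +kernel

def r_2292_0 : chkL rootF engF2 tA tB sA_305 sB_305 4 F_2292 [(511, 0, 0)]
    0x41d03c0f03c2709eb00b8272942e38ab00b8272942e1585c0f0330cc4706c0f03c2716417 = true := by
  decide +kernel

theorem f_2292 (h : TabsF) : FrameF repsF 305 F_2292.f :=
  frame_of rfl c_2292 (runs_of engOK r_2292_0) (by decide +kernel) h.1 h.2

def F_2293 : FrX :=
  ⟨0x482000044040440000c2040020009000182040010020082000800810014004804400101004089008000049042008800014001004020204011110000030,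
    0xa0, 1, 0x215060718294a3, 7,
    [(0xa0, 1), (0x538690a2, 4), (0x548790a1, 4), (0x21437690, 4), (0x538690a2, 4), (0x548790a1, 4)],
    [(0x215060718294a3, 7), (0x435186a0, 4), (0x21437690, 4), (0x435287a9, 4), (0x435186a0, 4), (0x21437690, 4)]⟩

def c_2293 : frmChk tA tA F_2293 = true := by decide +kernel

def r_2293_0 : chkL rootF engF2 tA tA sA_305 sA_305 4 F_2293 [(511, 0, 0)]
    0x1198aa = true := by
  decide +kernel

theorem f_2293 (h : TabsF) : FrameF repsF 305 F_2293.f :=
  frame_of rfl c_2293 (runs_of engOK r_2293_0) (by decide +kernel) h.1 h.1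

def F_2294 : FrX :=
  ⟨0x2002000900044004000e02041000141000800040801000418020002100020a08100001101024081040040081040400801084000040500200300104011100,
    0xa3, 1, 0x21324262718098a6, 8,
    [(0xa3, 1), (0x208693a5, 4), (0x10548793, 4), (0x217693a4, 4), (0x208693a5, 4), (0x10548793, 4)],
    [(0x21324262718098a6, 8), (0x528693a1, 4), (0x405387a2, 4), (0x405291a3, 4), (0x405387a2, 4), (0x217695a3, 4), (0x314086a9, 4), (0x405291a3, 4), (0x314086a9, 4), (0x328791a5, 4), (0x405291a3, 4), (0x217695a3, 4)]⟩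

def c_2294 : frmChk tA tB F_2294 = true := by decide +kernel

def r_2294_0 : chkL rootF engF2 tA tB sA_305 sB_305 4 F_2294 [(511, 0, 0)]
    0x1a901709c27 = true := by
  decide +kernel

theorem f_2294 (h : TabsF) : FrameF repsF 305 F_2294.f :=
  frame_of rfl c_2294 (runs_of engOK r_2294_0) (by decide +kernel) h.1 h.2

def F_2295 : FrX :=
  ⟨0x2002000900044004000e02041000141000800040801000418001400100820800100101110020042080248400040410001000811040400200300104011100,
    0xa3, 1, 0x104061708297a6, 7,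
    [(0xa3, 1), (0x208693a5, 4), (0x10548793, 4), (0x217693a4, 4), (0x208693a5, 4), (0x10548793, 4)],
    [(0x104061708297a6, 7), (0x405387a2, 4), (0x40517692, 4), (0x314086a9, 4), (0x405387a2, 4), (0x40517692, 4)]⟩

def c_2295 : frmChk tA tA F_2295 = true := by decide +kernel

def r_2295_0 : chkL rootF engF2 tA tA sA_305 sA_305 4 F_2295 [(511, 0, 0)]
    0x113827 = true := by
  decide +kernel

theorem f_2295 (h : TabsF) : FrameF repsF 305 F_2295.f :=
  frame_of rfl c_2295 (runs_of engOK r_2295_0) (by decide +kernel) h.1 h.1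

def F_2296 : FrX :=
  ⟨0x80080a000804040e000021010020010000020408805040044080880008000800048220100400802800408000c04010020220100204080042400a8020010,
    0xa6, 1, 0x102142526170a2, 7,
    [(0xa6, 1), (0x205396a8, 4), (0x10548796, 4), (0x214396a7, 4), (0x205396a8, 4), (0x10548796, 4)],
    [(0x102142526170a2, 7), (0x438295a7, 4), (0x40768195, 4), (0x213095a6, 4), (0x438295a7, 4), (0x40768195, 4)]⟩

def c_2296 : frmChk tA tA F_2296 = true := by decide +kernel

def r_2296_0 : chkL rootF engF2 tA tA sA_305 sA_305 4 F_2296 [(511, 0, 0)]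
    0x11d0e11a4e806c2e06c74c1a070f2628541d = true := by
  decide +kernel

theorem f_2296 (h : TabsF) : FrameF repsF 305 F_2296.f :=
  frame_of rfl c_2296 (runs_of engOK r_2296_0) (by decide +kernel) h.1 h.1

def F_2297 : FrX :=
  ⟨0x80080a000804040e00002101002001000002040880420402408088000810001001002050100010200810000128088000221010041010121004040210200,
    0xa6, 1, 0x2132406175a3, 6,
    [(0xa6, 1), (0x205396a8, 4), (0x10548796, 4), (0x214396a7, 4), (0x205396a8, 4), (0x10548796, 4)],
    [(0x2132406175a3, 6), (0x438291a7, 4), (0x64708591, 4), (0x526391a0, 4), (0x438291a7, 4), (0x64708591, 4)]⟩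

def c_2297 : frmChk tA tA F_2297 = true := by decide +kernel

def r_2297_0 : chkL rootF engF2 tA tA sA_305 sA_305 4 F_2297 [(511, 0, 0)]
    0x49a11c631686a09c351394c03d525306a16a51b405a03c5a03c361386a1546a03c55 = true := by
  decide +kernel

theorem f_2297 (h : TabsF) : FrameF repsF 305 F_2297.f :=
  frame_of rfl c_2297 (runs_of engOK r_2297_0) (by decide +kernel) h.1 h.1

def F_2298 : FrX :=
  ⟨0x482000044040440000c2040020009000182040002100404000880200004090020210801204101000040808880208800010001080480082012020200404,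
    0xa0, 1, 0x416592a1, 4,
    [(0xa0, 1), (0x538690a2, 4), (0x548790a1, 4), (0x21437690, 4), (0x538690a2, 4), (0x548790a1, 4)],
    [(0x416592a1, 4), (0x53768190, 4), (0x426175a0, 4), (0x42517683, 4), (0x426175a0, 4), (0x517386a9, 4), (0x31428590, 4), (0x42517683, 4), (0x31428590, 4), (0x657183a0, 4), (0x42517683, 4), (0x517386a9, 4)]⟩

def c_2298 : frmChk tA tB F_2298 = true := by decide +kernel

def r_2298_0 : chkL rootF engF2 tA tB sA_305 sB_305 4 F_2298 [(511, 0, 0)]
    0x103c653141e872543288b = true := by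
  decide +kernel

theorem f_2298 (h : TabsF) : FrameF repsF 305 F_2298.f :=
  frame_of rfl c_2298 (runs_of engOK r_2298_0) (by decide +kernel) h.1 h.2

def F_2299 : FrX :=
  ⟨0x1001040012008080000e0084080041000810100004400808011002004020201008003200820008482100200840800800084000880803004008a000210100,
    0xa3, 1, 0x21638395a0, 5,
    [(0xa3, 1), (0x207584a6, 4), (0x10547693, 4), (0x647593a8, 4), (0x10547693, 4), (0x216485a7, 4), (0x208693a4, 4), (0x647593a8, 4), (0x208693a4, 4), (0x106574a8, 4), (0x647593a8, 4), (0x216485a7, 4)],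
    [(0x21638395a0, 5), (0x506398a1, 4), (0x507694a2, 4), (0x21507384, 4), (0x506398a1, 4), (0x507694a2, 4)]⟩

def c_2299 : frmChk tB tA F_2299 = true := by decide +kernel

def r_2299_0 : chkL rootF engF2 tB tA sB_305 sA_305 4 F_2299 [(511, 0, 0)]
    0x4170781e = true := by
  decide +kernel

theorem f_2299 (h : TabsF) : FrameF repsF 305 F_2299.f :=
  frame_of rfl c_2299 (runs_of engOK r_2299_0) (by decide +kernel) h.2 h.1

def F_2300 : FrX :=
  ⟨0x600020801080810000c0040180410101001004010040042003001800180002080000880800442000098084012010400040208000400800508000621100,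
    0xa0, 1, 0x5364708098a0, 6,
    [(0xa0, 1), (0x637584a2, 4), (0x547690a1, 4), (0x64758390, 4), (0x547690a1, 4), (0x21647385, 4), (0x438690a2, 4), (0x64758390, 4), (0x438690a2, 4), (0x657483a1, 4), (0x64758390, 4), (0x21647385, 4)],
    [(0x5364708098a0, 6), (0x305496a2, 4), (0x406387a1, 4), (0x30648795, 4), (0x406387a1, 4), (0x21506493, 4), (0x658794a2, 4), (0x30648795, 4), (0x658794a2, 4), (0x436095a1, 4), (0x30648795, 4), (0x21506493, 4)]⟩

def c_2300 : frmChk tB tB F_2300 = true := by decide +kernel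

def r_2300_0 : chkL rootF engF2 tB tB sB_305 sB_305 4 F_2300 [(511, 0, 0)]
    0x41e07417 = true := by
  decide +kernel

theorem f_2300 (h : TabsF) : FrameF repsF 305 F_2300.f :=
  frame_of rfl c_2300 (runs_of engOK r_2300_0) (by decide +kernel) h.2 h.2

def F_2301 : FrX :=
  ⟨0x1001040012008080000e0084080041000810100004400808011002004020201008003202030040402020200840400004084000888803004000a000210100,
    0xa3, 1, 0x21638395a0, 5,
    [(0xa3, 1), (0x207584a6, 4), (0x10547693, 4), (0x647593a8, 4), (0x10547693, 4), (0x216485a7, 4), (0x208693a4, 4), (0x647593a8, 4), (0x208693a4, 4), (0x106574a8, 4), (0x647593a8, 4), (0x216485a7, 4)],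
    [(0x21638395a0, 5), (0x506398a1, 4), (0x507694a2, 4), (0x21507384, 4), (0x506398a1, 4), (0x507694a2, 4)]⟩

def c_2301 : frmChk tB tA F_2301 = true := by decide +kernel

def r_2301_0 : chkL rootF engF2 tB tA sB_305 sA_305 4 F_2301 [(511, 0, 0)]
    0x106c53 = true := by
  decide +kernel

theorem f_2301 (h : TabsF) : FrameF repsF 305 F_2301.f :=
  frame_of rfl c_2301 (runs_of engOK r_2301_0) (by decide +kernel) h.2 h.1

def F_2302 : FrX :=
  ⟨0x600020801080810000c004018041010100100400100c0014000500208210000080180040202002404004020c0020020208101200002008046140010002,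
    0xa0, 1, 0x203140647185a2, 7,
    [(0xa0, 1), (0x637584a2, 4), (0x547690a1, 4), (0x64758390, 4), (0x547690a1, 4), (0x21647385, 4), (0x438690a2, 4), (0x64758390, 4), (0x438690a2, 4), (0x657483a1, 4), (0x64758390, 4), (0x21647385, 4)],
    [(0x203140647185a2, 7), (0x528190a4, 4), (0x53748690, 4), (0x326190a7, 4), (0x528190a4, 4), (0x53748690, 4)]⟩

def c_2302 : frmChk tB tA F_2302 = true := by decide +kernel

def r_2302_0 : chkL rootF engF2 tB tA sB_305 sA_305 4 F_2302 [(511, 0, 0)]
    0x10b43a2580f0b45903c596180f03c0f92a0e62986a298603c560cc1e = true := by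
  decide +kernel

theorem f_2302 (h : TabsF) : FrameF repsF 305 F_2302.f :=
  frame_of rfl c_2302 (runs_of engOK r_2302_0) (by decide +kernel) h.2 h.1

def F_2303 : FrX :=
  ⟨0x600020801080810000c0040180410101001004001084000400050020821800008018004020200244040400440120020208101200002008004140011002,
    0xa0, 1, 0x537292a4, 4,
    [(0xa0, 1), (0x637584a2, 4), (0x547690a1, 4), (0x64758390, 4), (0x547690a1, 4), (0x21647385, 4), (0x438690a2, 4), (0x64758390, 4), (0x438690a2, 4), (0x657483a1, 4), (0x64758390, 4), (0x21647385, 4)],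
    [(0x537292a4, 4), (0x53748690, 4), (0x107482a3, 4), (0x627491a5, 4), (0x53748690, 4), (0x107482a3, 4)]⟩

def c_2303 : frmChk tB tA F_2303 = true := by decide +kernel

def r_2303_0 : chkL rootF engF2 tB tA sB_305 sA_305 4 F_2303 [(511, 0, 0)]
    0x42b90e621a82b0b42e0ac2b11c2d1642bd214351585704550f0690ac1e21cd2a182e = true := by
  decide +kernel

theorem f_2303 (h : TabsF) : FrameF repsF 305 F_2303.f :=
  frame_of rfl c_2303 (runs_of engOK r_2303_0) (by decide +kernel) h.2 h.1

def F_2304 : FrX :=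
  ⟨0x1001040012008080000e008408004100081010000440100800a0008004020802422000202212020808004004003000410010801408200300101000800280,
    0xa3, 1, 0x4250658190a3, 6,
    [(0xa3, 1), (0x207584a6, 4), (0x10547693, 4), (0x647593a8, 4), (0x10547693, 4), (0x216485a7, 4), (0x208693a4, 4), (0x647593a8, 4), (0x208693a4, 4), (0x106574a8, 4), (0x647593a8, 4), (0x216485a7, 4)],
    [(0x4250658190a3, 6), (0x217694a0, 4), (0x53627098, 4), (0x205376a1, 4), (0x53627098, 4), (0x206184a7, 4), (0x105394a2, 4), (0x205376a1, 4), (0x105394a2, 4), (0x607298a1, 4), (0x205376a1, 4), (0x206184a7, 4)]⟩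

def c_2304 : frmChk tB tB F_2304 = true := by decide +kernel

def r_2304_0 : chkL rootF engF2 tB tB sB_305 sB_305 4 F_2304 [(511, 0, 0)]
    0x10d41b06c5647036c5017138cc05d7015435 = true := by
  decide +kernel

theorem f_2304 (h : TabsF) : FrameF repsF 305 F_2304.f :=
  frame_of rfl c_2304 (runs_of engOK r_2304_0) (by decide +kernel) h.2 h.2

def F_2305 : FrX :=
  ⟨0x1c21020000040440000020410001010000820408a0001100000082100202101000204040024041010040010088438000200020011008068004126400000,
    0x0, 0, 0x43536584, 4,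
    [(0x0, 0), (0x205386a9, 4), (0x105487a9, 4), (0x214376a9, 4), (0x205386a9, 4), (0x105487a9, 4)],
    [(0x43536584, 4), (0x20547683, 4), (0x107486a9, 4), (0x537684a9, 4), (0x107486a9, 4), (0x21637584, 4), (0x204385a9, 4), (0x537684a9, 4), (0x204385a9, 4), (0x10536487, 4), (0x537684a9, 4), (0x21637584, 4)]⟩

def c_2305 : frmChk tA tB F_2305 = true := by decide +kernel

def r_2305_0 : chkL rootF engF2 tA tB sA_305 sB_305 4 F_2305 [(255, 0, 0), (256, 0, 10)]
    0x1 = true := by
  decide +kernel

def r_2305_1 : chkL rootF engF2 tA tB sA_305 sB_305 4 F_2305 [(256, 10, 13)]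
    0x1 = true := by
  decide +kernel

def r_2305_2 : chkL rootF engF2 tA tB sA_305 sB_305 4 F_2305 [(256, 23, 4)]
    0x1 = true := by
  decide +kernel

def r_2305_3 : chkL rootF engF2 tA tB sA_305 sB_305 4 F_2305 [(256, 27, 0)]
    0x1 = true := by
  decide +kernel

theorem f_2305 (h : TabsF) : FrameF repsF 305 F_2305.f :=
  frame_of rfl c_2305 ((runs_of engOK r_2305_0).append ((runs_of engOK r_2305_1).append ((runs_of engOK r_2305_2).append (runs_of engOK r_2305_3)))) (by decide +kernel) h.1 h.2

def F_2306 : FrX :=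
  ⟨0x1c21020000040440000020410001010000820408900800800008024008000840044041010040204080001408080780000000a0006000824640430200000,
    0x0, 0, 0x216475, 3,
    [(0x0, 0), (0x205386a9, 4), (0x105487a9, 4), (0x214376a9, 4), (0x205386a9, 4), (0x105487a9, 4)],
    [(0x216475, 3), (0x107384a9, 4), (0x207685a9, 4), (0x215463a9, 4), (0x107384a9, 4), (0x207685a9, 4)]⟩

def c_2306 : frmChk tA tA F_2306 = true := by decide +kernel

def r_2306_0 : chkL rootF engF2 tA tA sA_305 sA_305 4 F_2306 [(255, 0, 0), (256, 0, 6)]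
    0x10741d = true := by
  decide +kernel

def r_2306_1 : chkL rootF engF2 tA tA sA_305 sA_305 4 F_2306 [(256, 6, 9)]
    0x1 = true := by
  decide +kernel

def r_2306_2 : chkL rootF engF2 tA tA sA_305 sA_305 4 F_2306 [(256, 15, 0)]
    0x10ea2aaa384a8b88e8286a8a25a1a258d2a889a384aaa2c19154aa348c60b12d4a88e260ad2ac8aa4 = true := by
  decide +kernel

theorem f_2306 (h : TabsF) : FrameF repsF 305 F_2306.f :=
  frame_of rfl c_2306 ((runs_of engOK r_2306_0).append ((runs_of engOK r_2306_1).append (runs_of engOK r_2306_2))) (by decide +kernel) h.1 h.1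

def F_2307 : FrX :=
  ⟨0x482000044040440000c2040020009000182040010080080101000180020110a080100008040404100002204080380000500380004000c0014020200084,
    0xa0, 1, 0x20305263768694a3, 8,
    [(0xa0, 1), (0x538690a2, 4), (0x548790a1, 4), (0x21437690, 4), (0x538690a2, 4), (0x548790a1, 4)],
    [(0x20305263768694a3, 8), (0x536487a0, 4), (0x31647290, 4), (0x516482a9, 4), (0x536487a0, 4), (0x31647290, 4)]⟩

def c_2307 : frmChk tA tA F_2307 = true := by decide +kernel

def r_2307_0 : chkL rootF engF2 tA tA sA_305 sA_305 4 F_2307 [(511, 0, 0)]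
    0x10ac0f = true := by
  decide +kernel

theorem f_2307 (h : TabsF) : FrameF repsF 305 F_2307.f :=
  frame_of rfl c_2307 (runs_of engOK r_2307_0) (by decide +kernel) h.1 h.1

def F_2308 : FrX :=
  ⟨0x482000044040440000c2040020009000182040001080480000900200010404820400041101000120000400802238000000091094000240011402800080,
    0xa0, 1, 0x314153748297a6, 7,
    [(0xa0, 1), (0x538690a2, 4), (0x548790a1, 4), (0x21437690, 4), (0x538690a2, 4), (0x548790a1, 4)],
    [(0x314153748297a6, 7), (0x516380a2, 4), (0x40637192, 4), (0x637584a9, 4), (0x516380a2, 4), (0x40637192, 4)]⟩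

def c_2308 : frmChk tA tA F_2308 = true := by decide +kernel

def r_2308_0 : chkL rootF engF2 tA tA sA_305 sA_305 4 F_2308 [(511, 0, 0)]
    0x103c0f0acd4350350b80f = true := by
  decide +kernel

theorem f_2308 (h : TabsF) : FrameF repsF 305 F_2308.f :=
  frame_of rfl c_2308 (runs_of engOK r_2308_0) (by decide +kernel) h.1 h.1

def F_2309 : FrX :=
  ⟨0x80080a000804040e0000210100200100000204088060000441c0800000000820220204014000800208008008800500080000510430009403400c0200000,
    0xa6, 1, 0x304152658696a7, 7,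
    [(0xa6, 1), (0x205396a8, 4), (0x10548796, 4), (0x214396a7, 4), (0x205396a8, 4), (0x10548796, 4)],
    [(0x304152658696a7, 7), (0x215390a6, 4), (0x436187a9, 4), (0x208791a6, 4), (0x436187a9, 4), (0x546291a0, 4), (0x10538792, 4), (0x208791a6, 4), (0x10538792, 4), (0x204396a1, 4), (0x208791a6, 4), (0x546291a0, 4)]⟩

def c_2309 : frmChk tA tB F_2309 = true := by decide +kernel

def r_2309_0 : chkL rootF engF2 tA tB sA_305 sB_305 4 F_2309 [(511, 0, 0)]
    0x48d = true := by
  decide +kernel

theorem f_2309 (h : TabsF) : FrameF repsF 305 F_2309.f :=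
  frame_of rfl c_2309 (runs_of engOK r_2309_0) (by decide +kernel) h.1 h.2

def F_2310 : FrX :=
  ⟨0x1c40440000080810000008400804100001010840600020800000820201800800400284000208102084040008008a0012608034000300020040002220100,
    0x0, 0, 0x21537586, 4,
    [(0x0, 0), (0x20637584, 4), (0x105476a9, 4), (0x647583a9, 4), (0x105476a9, 4), (0x21647385, 4), (0x204386a9, 4), (0x647583a9, 4), (0x204386a9, 4), (0x10657483, 4), (0x647583a9, 4), (0x21647385, 4)],
    [(0x21537586, 4), (0x107586a9, 4), (0x206374a9, 4), (0x215483a9, 4), (0x107586a9, 4), (0x206374a9, 4)]⟩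

def c_2310 : frmChk tB tA F_2310 = true := by decide +kernel

def r_2310_0 : chkL rootF engF2 tB tA sB_305 sA_305 4 F_2310 [(255, 0, 0), (256, 0, 9)]
    0x1 = true := by
  decide +kernel

def r_2310_1 : chkL rootF engF2 tB tA sB_305 sA_305 4 F_2310 [(256, 9, 8)]
    0x1 = true := by
  decide +kernel

def r_2310_2 : chkL rootF engF2 tB tA sB_305 sA_305 4 F_2310 [(256, 17, 7)]
    0x1 = true := by
  decide +kernel

def r_2310_3 : chkL rootF engF2 tB tA sB_305 sA_305 4 F_2310 [(256, 24, 4)]
    0x1 = true := by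
  decide +kernel

def r_2310_4 : chkL rootF engF2 tB tA sB_305 sA_305 4 F_2310 [(256, 28, 0)]
    0x1 = true := by
  decide +kernel

theorem f_2310 (h : TabsF) : FrameF repsF 305 F_2310.f :=
  frame_of rfl c_2310 ((runs_of engOK r_2310_0).append ((runs_of engOK r_2310_1).append ((runs_of engOK r_2310_2).append ((runs_of engOK r_2310_3).append (runs_of engOK r_2310_4))))) (by decide +kernel) h.2 h.1

def F_2311 : FrX :=
  ⟨0x600020801080810000c00401804101010010040040408200005400081210000004080820200402080100002030104002001388002100000142200a0020,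
    0xa0, 1, 0x213150638494a3, 7,
    [(0xa0, 1), (0x637584a2, 4), (0x547690a1, 4), (0x64758390, 4), (0x547690a1, 4), (0x21647385, 4), (0x438690a2, 4), (0x64758390, 4), (0x438690a2, 4), (0x657483a1, 4), (0x64758390, 4), (0x21647385, 4)],
    [(0x213150638494a3, 7), (0x425186a0, 4), (0x53748690, 4), (0x317286a9, 4), (0x425186a0, 4), (0x53748690, 4)]⟩

def c_2311 : frmChk tB tA F_2311 = true := by decide +kernel

def r_2311_0 : chkL rootF engF2 tB tA sB_305 sA_305 4 F_2311 [(511, 0, 0)]
    0x42b = true := by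
  decide +kernel

theorem f_2311 (h : TabsF) : FrameF repsF 305 F_2311.f :=
  frame_of rfl c_2311 (runs_of engOK r_2311_0) (by decide +kernel) h.2 h.1

def F_2312 : FrX :=
  ⟨0x600020801080810000c00401804101010010040040408200000480081210080004080820200402080100002030084402441088002000000144200a0020,
    0xa0, 1, 0x30435161748296a0, 8,
    [(0xa0, 1), (0x637584a2, 4), (0x547690a1, 4), (0x64758390, 4), (0x547690a1, 4), (0x21647385, 4), (0x438690a2, 4), (0x64758390, 4), (0x438690a2, 4), (0x657483a1, 4), (0x64758390, 4), (0x21647385, 4)],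
    [(0x30435161748296a0, 8), (0x415392a8, 4), (0x205371a6, 4), (0x53748690, 4), (0x415392a8, 4), (0x205371a6, 4)]⟩

def c_2312 : frmChk tB tA F_2312 = true := by decide +kernel

def r_2312_0 : chkL rootF engF2 tB tA sB_305 sA_305 4 F_2312 [(511, 0, 0)]
    0x4471b047 = true := by
  decide +kernel

theorem f_2312 (h : TabsF) : FrameF repsF 305 F_2312.f :=
  frame_of rfl c_2312 (runs_of engOK r_2312_0) (by decide +kernel) h.2 h.1

def F_2313 : FrX :=
  ⟨0x1001040012008080000e00840800410008101000042008024010200005000090048202001200008820001012000420420062204002000088082001000c40,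
    0xa3, 1, 0x4352718096a3, 6,
    [(0xa3, 1), (0x207584a6, 4), (0x10547693, 4), (0x647593a8, 4), (0x10547693, 4), (0x216485a7, 4), (0x208693a4, 4), (0x647593a8, 4), (0x208693a4, 4), (0x106574a8, 4), (0x647593a8, 4), (0x216485a7, 4)],
    [(0x4352718096a3, 6), (0x213085a9, 4), (0x32648791, 4), (0x216493a0, 4), (0x32648791, 4), (0x207593a1, 4), (0x648590a3, 4), (0x216493a0, 4), (0x648590a3, 4), (0x318792a0, 4), (0x216493a0, 4), (0x207593a1, 4)]⟩

def c_2313 : frmChk tB tB F_2313 = true := by decide +kernel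

def r_2313_0 : chkL rootF engF2 tB tB sB_305 sB_305 4 F_2313 [(511, 0, 0)]
    0x12d09c = true := by
  decide +kernel

theorem f_2313 (h : TabsF) : FrameF repsF 305 F_2313.f :=
  frame_of rfl c_2313 (runs_of engOK r_2313_0) (by decide +kernel) h.2 h.2

def F_2314 : FrX :=
  ⟨0x482000044040440000c2040020009000182040001080480000a00a00010404020400041101000120000400802208800080083014200240011002804080,
    0xa0, 1, 0x2130618595a4, 6,
    [(0xa0, 1), (0x538690a2, 4), (0x548790a1, 4), (0x21437690, 4), (0x538690a2, 4), (0x548790a1, 4)],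
    [(0x2130618595a4, 6), (0x31528490, 4), (0x637584a9, 4), (0x617284a0, 4), (0x31528490, 4), (0x637584a9, 4)]⟩

def c_2314 : frmChk tA tA F_2314 = true := by decide +kernel

def r_2314_0 : chkL rootF engF2 tA tA sA_305 sA_305 4 F_2314 [(511, 0, 0)]
    0x103d380e8354e00f = true := by
  decide +kernel

theorem f_2314 (h : TabsF) : FrameF repsF 305 F_2314.f :=
  frame_of rfl c_2314 (runs_of engOK r_2314_0) (by decide +kernel) h.1 h.1

def F_2315 : FrX :=
  ⟨0x482000044040440000c204002000900018204001008008010100018002010820a0100008040404100002204080200400940080004100c0014220200084,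
    0xa0, 1, 0x1032405162738591a6, 9,
    [(0xa0, 1), (0x538690a2, 4), (0x548790a1, 4), (0x21437690, 4), (0x538690a2, 4), (0x548790a1, 4)],
    [(0x1032405162738591a6, 9), (0x536487a0, 4), (0x20538194, 4), (0x537196a2, 4), (0x536487a0, 4), (0x20538194, 4)]⟩

def c_2315 : frmChk tA tA F_2315 = true := by decide +kernel

def r_2315_0 : chkL rootF engF2 tA tA sA_305 sA_305 4 F_2315 [(511, 0, 0)]
    0x45a3c01e14c1e0781e2709a0781e0d8992689a0d81d07835 = true := by
  decide +kernel

theorem f_2315 (h : TabsF) : FrameF repsF 305 F_2315.f :=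
  frame_of rfl c_2315 (runs_of engOK r_2315_0) (by decide +kernel) h.1 h.1

def F_2316 : FrX :=
  ⟨0x80080a000804040e0000210100200100000204089002000141000080820400402201101000003100002800082800180202400200400102a006080809000,
    0xa6, 1, 0x204152708198a3, 7,
    [(0xa6, 1), (0x205396a8, 4), (0x10548796, 4), (0x214396a7, 4), (0x205396a8, 4), (0x10548796, 4)],
    [(0x204152708198a3, 7), (0x207591a6, 4), (0x10436287, 4), (0x204361a9, 4), (0x10436287, 4), (0x618590a2, 4), (0x437596a1, 4), (0x204361a9, 4), (0x437596a1, 4), (0x216087a9, 4), (0x204361a9, 4), (0x618590a2, 4)]⟩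

def c_2316 : frmChk tA tB F_2316 = true := by decide +kernel

def r_2316_0 : chkL rootF engF2 tA tB sA_305 sB_305 4 F_2316 [(511, 0, 0)]
    0x1458b8 = true := by
  decide +kernel

theorem f_2316 (h : TabsF) : FrameF repsF 305 F_2316.f :=
  frame_of rfl c_2316 (runs_of engOK r_2316_0) (by decide +kernel) h.1 h.2

def F_2317 : FrX :=
  ⟨0x80080a000804040e0000210100200100000204088048080041002042080008200202042000800c02003008001300304004100800200800a00201080c000,
    0xa6, 1, 0x324161758690a6, 7,
    [(0xa6, 1), (0x205396a8, 4), (0x10548796, 4), (0x214396a7, 4), (0x205396a8, 4), (0x10548796, 4)],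
    [(0x324161758690a6, 7), (0x728093a4, 4), (0x54718096, 4), (0x216380a5, 4), (0x728093a4, 4), (0x54718096, 4)]⟩

def c_2317 : frmChk tA tA F_2317 = true := by decide +kernel

def r_2317_0 : chkL rootF engF2 tA tA sA_305 sA_305 4 F_2317 [(511, 0, 0)]
    0x6c1164e114cb41542e51456078d21384e28ce111ce1434e184c1e2b28c0784b1341b = true := by
  decide +kernel

theorem f_2317 (h : TabsF) : FrameF repsF 305 F_2317.f :=
  frame_of rfl c_2317 (runs_of engOK r_2317_0) (by decide +kernel) h.1 h.1

def F_2318 : FrX :=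
  ⟨0x80080a000804040e0000210100200100000204089148000041000080080008200908040080202022000820040804100a1000c2010008040202004442000,
    0xa6, 1, 0x20617485a5, 5,
    [(0xa6, 1), (0x205396a8, 4), (0x10548796, 4), (0x214396a7, 4), (0x205396a8, 4), (0x10548796, 4)],
    [(0x20617485a5, 5), (0x203175a4, 4), (0x416298a7, 4), (0x537198a4, 4), (0x416298a7, 4), (0x436071a5, 4), (0x20517398, 4), (0x537198a4, 4), (0x20517398, 4), (0x536274a1, 4), (0x537198a4, 4), (0x436071a5, 4)]⟩

def c_2318 : frmChk tA tB F_2318 = true := by decide +kernel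

def r_2318_0 : chkL rootF engF2 tA tB sA_305 sB_305 4 F_2318 [(511, 0, 0)]
    0x10f00f30c4d0f03c11c2e = true := by
  decide +kernel

theorem f_2318 (h : TabsF) : FrameF repsF 305 F_2318.f :=
  frame_of rfl c_2318 (runs_of engOK r_2318_0) (by decide +kernel) h.1 h.2

def F_2319 : FrX :=
  ⟨0x2002000900044004000e02041000141000800040810000042200802402004080140080104004005010040030608002800082080022001000411202002002,
    0xa3, 1, 0x2143528490a8, 6,
    [(0xa3, 1), (0x208693a5, 4), (0x10548793, 4), (0x217693a4, 4), (0x208693a5, 4), (0x10548793, 4)],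
    [(0x2143528490a8, 6), (0x647195a8, 4), (0x30768192, 4), (0x307186a4, 4), (0x30768192, 4), (0x527486a1, 4), (0x308495a6, 4), (0x307186a4, 4), (0x308495a6, 4), (0x618792a4, 4), (0x307186a4, 4), (0x527486a1, 4)]⟩

def c_2319 : frmChk tA tB F_2319 = true := by decide +kernel

def r_2319_0 : chkL rootF engF2 tA tB sA_305 sB_305 4 F_2319 [(511, 0, 0)]
    0x40f0740f03c1d0745503c4e03e0d03c4e03c1d13833 = true := by
  decide +kernel

theorem f_2319 (h : TabsF) : FrameF repsF 305 F_2319.f :=
  frame_of rfl c_2319 (runs_of engOK r_2319_0) (by decide +kernel) h.1 h.2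

theorem cl_305 (h : TabsF) : ∀ f ∈ fr_305, FrameF repsF 305 f :=
  List.forall_mem_cons.2 ⟨f_2292 h, List.forall_mem_cons.2 ⟨f_2293 h, List.forall_mem_cons.2 ⟨f_2294 h, List.forall_mem_cons.2 ⟨f_2295 h, List.forall_mem_cons.2 ⟨f_2296 h, List.forall_mem_cons.2 ⟨f_2297 h, List.forall_mem_cons.2 ⟨f_2298 h, List.forall_mem_cons.2 ⟨f_2299 h, List.forall_mem_cons.2 ⟨f_2300 h, List.forall_mem_cons.2 ⟨f_2301 h, List.forall_mem_cons.2 ⟨f_2302 h, List.forall_mem_cons.2 ⟨f_2303 h, List.forall_mem_cons.2 ⟨f_2304 h, List.forall_mem_cons.2 ⟨f_2305 h, List.forall_mem_cons.2 ⟨f_2306 h, List.forall_mem_cons.2 ⟨f_2307 h, List.forall_mem_cons.2 ⟨f_2308 h, List.forall_mem_cons.2 ⟨f_2309 h, List.forall_mem_cons.2 ⟨f_2310 h, List.forall_mem_cons.2 ⟨f_2311 h, List.forall_mem_cons.2 ⟨f_2312 h, List.forall_mem_cons.2 ⟨f_2313 h, List.forall_mem_cons.2 ⟨f_2314 h, List.forall_mem_cons.2 ⟨f_2315 h, List.forall_mem_cons.2 ⟨f_2316 h, List.forall_mem_cons.2 ⟨f_2317 h, List.forall_mem_cons.2 ⟨f_2318 h, List.forall_mem_cons.2 ⟨f_2319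 h,
    fun _ h0 => absurd h0 List.not_mem_nil⟩⟩⟩⟩⟩⟩⟩⟩⟩⟩⟩⟩⟩⟩⟩⟩⟩⟩⟩⟩⟩⟩⟩⟩⟩⟩⟩⟩

def F_2320 : FrX :=
  ⟨0x80080a000804040e000021010020010000020408a000080860010410024200100080004040a0090200200804010088002083000c0000100244220080080,
    0xa6, 1, 0x21416383a6, 5,
    [(0xa6, 1), (0x205396a8, 4), (0x10548796, 4), (0x214396a7, 4), (0x205396a8, 4), (0x10548796, 4)],
    [(0x21416383a6, 5), (0x108593a6, 4), (0x40527693, 4), (0x418293a7, 4), (0x108593a6, 4), (0x40527693, 4)]⟩

def c_2320 : frmChk tA tA F_2320 = true := by decide +kernel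

def r_2320_0 : chkL rootF engF2 tA tA sA_306 sA_306 4 F_2320 [(511, 0, 0)]
    0x40f12c2b18c0f1382b1583c03d2c1343c12c4d164471344d = true := by
  decide +kernel

theorem f_2320 (h : TabsF) : FrameF repsF 306 F_2320.f :=
  frame_of rfl c_2320 (runs_of engOK r_2320_0) (by decide +kernel) h.1 h.1

def F_2321 : FrX :=
  ⟨0x80080a000804040e000021010020010000020408840210000600080080802020080230084009102080002011001001011400400c001a004000810040200,
    0xa6, 1, 0x205162748096a8, 7,
    [(0xa6, 1), (0x205396a8, 4), (0x10548796, 4), (0x214396a7, 4), (0x205396a8, 4), (0x10548796, 4)],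
    [(0x205162748096a8, 7), (0x203186a9, 4), (0x207185a4, 4), (0x20657394, 4), (0x203186a9, 4), (0x207185a4, 4)]⟩

def c_2321 : frmChk tA tA F_2321 = true := by decide +kernel

def r_2321_0 : chkL rootF engF2 tA tA sA_306 sA_306 4 F_2321 [(511, 0, 0)]
    0x11c87231aa4 = true := by
  decide +kernel

theorem f_2321 (h : TabsF) : FrameF repsF 306 F_2321.f :=
  frame_of rfl c_2321 (runs_of engOK r_2321_0) (by decide +kernel) h.1 h.1

def F_2322 : FrX :=
  ⟨0x2002000900044004000e02041000141000800040804001020080c006002240001000802082081104082000050040081000000a2000a00000140824220200,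
    0xa3, 1, 0x1021425492a8, 6,
    [(0xa3, 1), (0x208693a5, 4), (0x10548793, 4), (0x217693a4, 4), (0x208693a5, 4), (0x10548793, 4)],
    [(0x1021425492a8, 6), (0x308491a6, 4), (0x215084a7, 4), (0x53768492, 4), (0x308491a6, 4), (0x215084a7, 4)]⟩

def c_2322 : frmChk tA tA F_2322 = true := by decide +kernel

def r_2322_0 : chkL rootF engF2 tA tA sA_306 sA_306 4 F_2322 [(511, 0, 0)]
    0x43c2e017078b1 = true := by
  decide +kernel

theorem f_2322 (h : TabsF) : FrameF repsF 306 F_2322.f :=
  frame_of rfl c_2322 (runs_of engOK r_2322_0) (by decide +kernel) h.1 h.1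

def F_2323 : FrX :=
  ⟨0x482000044040440000c20400200090001820400041004008040800040008848088800082018104000200211004011000800042c0200804050002200001,
    0xa0, 1, 0x21425162768298a5, 8,
    [(0xa0, 1), (0x538690a2, 4), (0x548790a1, 4), (0x21437690, 4), (0x538690a2, 4), (0x548790a1, 4)],
    [(0x21425162768298a5, 8), (0x628097a3, 4), (0x506294a1, 4), (0x31627485, 4), (0x628097a3, 4), (0x506294a1, 4)]⟩

def c_2323 : frmChk tA tA F_2323 = true := by decide +kernel

def r_2323_0 : chkL rootF engF2 tA tA sA_306 sA_306 4 F_2323 [(511, 0, 0)]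
    0x50e05c4b06c9a0cc33 = true := by
  decide +kernel

theorem f_2323 (h : TabsF) : FrameF repsF 306 F_2323.f :=
  frame_of rfl c_2323 (runs_of engOK r_2323_0) (by decide +kernel) h.1 h.1

def F_2324 : FrX :=
  ⟨0x2002000900044004000e02041000141000800040801001021010020201000188040028001400022004054004081008008004023000400220204180020004,
    0xa3, 1, 0x4050628792a3, 6,
    [(0xa3, 1), (0x208693a5, 4), (0x10548793, 4), (0x217693a4, 4), (0x208693a5, 4), (0x10548793, 4)],
    [(0x4050628792a3, 6), (0x708495a2, 4), (0x40516382, 4), (0x206384a7, 4), (0x40516382, 4), (0x207491a8, 4), (0x637295a0, 4), (0x206384a7, 4), (0x637295a0, 4), (0x425180a7, 4), (0x206384a7, 4), (0x207491a8, 4)]⟩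

def c_2324 : frmChk tA tB F_2324 = true := by decide +kernel

def r_2324_0 : chkL rootF engF2 tA tB sA_306 sB_306 4 F_2324 [(511, 0, 0)]
    0x40f079640b613a441e0cc330cc1734463984b1 = true := by
  decide +kernel

theorem f_2324 (h : TabsF) : FrameF repsF 306 F_2324.f :=
  frame_of rfl c_2324 (runs_of engOK r_2324_0) (by decide +kernel) h.1 h.2

def F_2325 : FrX :=
  ⟨0x482000044040440000c2040020009000182040010020028001000284040810030020004001010840a00209000101800048001008048004040810010210,
    0xa0, 1, 0x4254657198a7, 6,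
    [(0xa0, 1), (0x538690a2, 4), (0x548790a1, 4), (0x21437690, 4), (0x538690a2, 4), (0x548790a1, 4)],
    [(0x4254657198a7, 6), (0x324095a6, 4), (0x657081a2, 4), (0x528193a6, 4), (0x657081a2, 4), (0x527496a3, 4), (0x40538192, 4), (0x528193a6, 4), (0x40538192, 4), (0x627093a5, 4), (0x528193a6, 4), (0x527496a3, 4)]⟩

def c_2325 : frmChk tA tB F_2325 = true := by decide +kernel

def r_2325_0 : chkL rootF engF2 tA tB sA_306 sB_306 4 F_2325 [(511, 0, 0)]
    0x45a2382709c2e09c27 = true := by
  decide +kernel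

theorem f_2325 (h : TabsF) : FrameF repsF 306 F_2325.f :=
  frame_of rfl c_2325 (runs_of engOK r_2325_0) (by decide +kernel) h.1 h.2

def F_2326 : FrX :=
  ⟨0x482000044040440000c204002000900018204000041201080810001004004400480202000e000082800030004000082100080084030205200020200401,
    0xa0, 1, 0x203140508192a2, 7,
    [(0xa0, 1), (0x538690a2, 4), (0x548790a1, 4), (0x21437690, 4), (0x538690a2, 4), (0x548790a1, 4)],
    [(0x203140508192a2, 7), (0x326174a5, 4), (0x42768590, 4), (0x31627490, 4), (0x42768590, 4), (0x436271a8, 4), (0x216390a5, 4), (0x31627490, 4), (0x216390a5, 4), (0x31647285, 4), (0x31627490, 4), (0x436271a8, 4)]⟩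

def c_2326 : frmChk tA tB F_2326 = true := by decide +kernel

def r_2326_0 : chkL rootF engF2 tA tB sA_306 sB_306 4 F_2326 [(511, 0, 0)]
    0x42d074780b43906c660792a05c2b9282705c1705c2705c1705c1b = true := by
  decide +kernel

theorem f_2326 (h : TabsF) : FrameF repsF 306 F_2326.f :=
  frame_of rfl c_2326 (runs_of engOK r_2326_0) (by decide +kernel) h.1 h.2

def F_2327 : FrX :=
  ⟨0x80080a000804040e0000210100200100000204088420000049008002000408800501040810250002003000008900b00010000204040800a002104440000,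
    0xa6, 1, 0x3141526096a3, 6,
    [(0xa6, 1), (0x205396a8, 4), (0x10548796, 4), (0x214396a7, 4), (0x205396a8, 4), (0x10548796, 4)],
    [(0x3141526096a3, 6), (0x106598a2, 4), (0x10326487, 4), (0x105497a3, 4), (0x106598a2, 4), (0x10326487, 4)]⟩

def c_2327 : frmChk tA tA F_2327 = true := by decide +kernel

def r_2327_0 : chkL rootF engF2 tA tA sA_306 sA_306 4 F_2327 [(511, 0, 0)]
    0x1264550b43a649927400f078a938417 = true := by
  decide +kernel

theorem f_2327 (h : TabsF) : FrameF repsF 306 F_2327.f :=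
  frame_of rfl c_2327 (runs_of engOK r_2327_0) (by decide +kernel) h.1 h.1

def F_2328 : FrX :=
  ⟨0x482000044040440000c204002000900018204000084208080088080008008202002040402400080a200010802010100080004012420184040200800048,
    0xa0, 1, 0x103043516070a6, 7,
    [(0xa0, 1), (0x538690a2, 4), (0x548790a1, 4), (0x21437690, 4), (0x538690a2, 4), (0x548790a1, 4)],
    [(0x103043516070a6, 7), (0x407293a8, 4), (0x10758693, 4), (0x415293a6, 4), (0x407293a8, 4), (0x10758693, 4)]⟩

def c_2328 : frmChk tA tA F_2328 = true := by decide +kernel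

def r_2328_0 : chkL rootF engF2 tA tA sA_306 sA_306 4 F_2328 [(511, 0, 0)]
    0x41b0d45503c1e06cca2384d0d81e = true := by
  decide +kernel

theorem f_2328 (h : TabsF) : FrameF repsF 306 F_2328.f :=
  frame_of rfl c_2328 (runs_of engOK r_2328_0) (by decide +kernel) h.1 h.1

def F_2329 : FrX :=
  ⟨0x482000044040440000c2040020009000182040010020028008000030020428208400001288100180000040281020001000208280810202010202000005,
    0xa0, 1, 0x213251657090a6, 7,
    [(0xa0, 1), (0x538690a2, 4), (0x548790a1, 4), (0x21437690, 4), (0x538690a2, 4), (0x548790a1, 4)],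
    [(0x213251657090a6, 7), (0x617293a8, 4), (0x64728095, 4), (0x415372a0, 4), (0x617293a8, 4), (0x64728095, 4)]⟩

def c_2329 : frmChk tA tA F_2329 = true := by decide +kernel

def r_2329_0 : chkL rootF engF2 tA tA sA_306 sA_306 4 F_2329 [(511, 0, 0)]
    0x4170ac2e05c473c027740f044d0d1541d49827 = true := by
  decide +kernel

theorem f_2329 (h : TabsF) : FrameF repsF 306 F_2329.f :=
  frame_of rfl c_2329 (runs_of engOK r_2329_0) (by decide +kernel) h.1 h.1

def F_2330 : FrX :=
  ⟨0x2002000900044004000e0204100014100080004080800200a0a0000110012101040200004020012600808001010000800248001011010000404101409004,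
    0xa3, 1, 0x10326185a4, 5,
    [(0xa3, 1), (0x208693a5, 4), (0x10548793, 4), (0x217693a4, 4), (0x208693a5, 4), (0x10548793, 4)],
    [(0x10326185a4, 5), (0x203187a5, 4), (0x617094a8, 4), (0x528794a0, 4), (0x617094a8, 4), (0x637285a0, 4), (0x315094a2, 4), (0x528794a0, 4), (0x315094a2, 4), (0x526180a7, 4), (0x528794a0, 4), (0x637285a0, 4)]⟩

def c_2330 : frmChk tA tB F_2330 = true := by decide +kernel

def r_2330_0 : chkL rootF engF2 tA tB sA_306 sB_306 4 F_2330 [(511, 0, 0)]
    0x10787103c0f0e82d0cc4d = true := by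
  decide +kernel

theorem f_2330 (h : TabsF) : FrameF repsF 306 F_2330.f :=
  frame_of rfl c_2330 (runs_of engOK r_2330_0) (by decide +kernel) h.1 h.2

def F_2331 : FrX :=
  ⟨0x482000044040440000c2040020009000182040001081020001020800020450010080400c00042000086100888008800001082110008082040010800401,
    0xa0, 1, 0x102030527494a3, 7,
    [(0xa0, 1), (0x538690a2, 4), (0x548790a1, 4), (0x21437690, 4), (0x538690a2, 4), (0x548790a1, 4)],
    [(0x102030527494a3, 7), (0x415398a6, 4), (0x30647291, 4), (0x417296a8, 4), (0x30647291, 4), (0x508196a4, 4), (0x537286a9, 4), (0x417296a8, 4), (0x537286a9, 4), (0x306194a8, 4), (0x417296a8, 4), (0x508196a4, 4)]⟩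

def c_2331 : frmChk tA tB F_2331 = true := by decide +kernel

def r_2331_0 : chkL rootF engF2 tA tB sA_306 sB_306 4 F_2331 [(511, 0, 0)]
    0x41d078360e81d0741d = true := by
  decide +kernel

theorem f_2331 (h : TabsF) : FrameF repsF 306 F_2331.f :=
  frame_of rfl c_2331 (runs_of engOK r_2331_0) (by decide +kernel) h.1 h.2

def F_2332 : FrX :=
  ⟨0x2002000900044004000e0204100014100080004080200041400402420101004800000220820250082002000a001020003000820000400208100202092080,
    0xa3, 1, 0x10325363718092a0, 8,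
    [(0xa3, 1), (0x208693a5, 4), (0x10548793, 4), (0x217693a4, 4), (0x208693a5, 4), (0x10548793, 4)],
    [(0x10325363718092a0, 8), (0x204165a9, 4), (0x425083a7, 4), (0x20546183, 4), (0x425083a7, 4), (0x21546097, 4), (0x516483a9, 4), (0x20546183, 4), (0x516483a9, 4), (0x405261a7, 4), (0x20546183, 4), (0x21546097, 4)]⟩

def c_2332 : frmChk tA tB F_2332 = true := by decide +kernel

def r_2332_0 : chkL rootF engF2 tA tB sA_306 sB_306 4 F_2332 [(511, 0, 0)]
    0x10ac363a2258b2340acb47201b = true := by
  decide +kernel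

theorem f_2332 (h : TabsF) : FrameF repsF 306 F_2332.f :=
  frame_of rfl c_2332 (runs_of engOK r_2332_0) (by decide +kernel) h.1 h.2

def F_2333 : FrX :=
  ⟨0x2002000900044004000e0204100014100080004080800100110120000810a102000204004080004112000202020001800040801030082800100a10008201,
    0xa3, 1, 0x213241506195a7, 7,
    [(0xa3, 1), (0x208693a5, 4), (0x10548793, 4), (0x217693a4, 4), (0x208693a5, 4), (0x10548793, 4)],
    [(0x213241506195a7, 7), (0x53708491, 4), (0x657092a8, 4), (0x216370a4, 4), (0x53708491, 4), (0x657092a8, 4)]⟩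

def c_2333 : frmChk tA tA F_2333 = true := by decide +kernel

def r_2333_0 : chkL rootF engF2 tA tA sA_306 sA_306 4 F_2333 [(511, 0, 0)]
    0x109c352c6c414c171c417 = true := by
  decide +kernel

theorem f_2333 (h : TabsF) : FrameF repsF 306 F_2333.f :=
  frame_of rfl c_2333 (runs_of engOK r_2333_0) (by decide +kernel) h.1 h.1

def F_2334 : FrX :=
  ⟨0x1c2102000004044000002041000101000082040890080080001010008100404040013001004020408000140808041140084000006042422000880808080,
    0x0, 0, 0x21547683, 4,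
    [(0x0, 0), (0x205386a9, 4), (0x105487a9, 4), (0x214376a9, 4), (0x205386a9, 4), (0x105487a9, 4)],
    [(0x21547683, 4), (0x107384a9, 4), (0x205463a9, 4), (0x217685a9, 4), (0x107384a9, 4), (0x205463a9, 4)]⟩

def c_2334 : frmChk tA tA F_2334 = true := by decide +kernel

def r_2334_0 : chkL rootF engF2 tA tA sA_306 sA_306 4 F_2334 [(255, 0, 0), (256, 0, 3)]
    0x40f1349503c6312c53 = true := by
  decide +kernel

def r_2334_1 : chkL rootF engF2 tA tA sA_306 sA_306 4 F_2334 [(256, 3, 2)]
    0x1 = true := by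
  decide +kernel

def r_2334_2 : chkL rootF engF2 tA tA sA_306 sA_306 4 F_2334 [(256, 5, 3)]
    0x417 = true := by
  decide +kernel

def r_2334_3 : chkL rootF engF2 tA tA sA_306 sA_306 4 F_2334 [(256, 8, 4)]
    0x60da1651465315462585469a186c91a07a186929836a1a2691a86914a61ca161c8a381e86298728587228e07a18a61ca161c8a381e86 = true := by
  decide +kernel

def r_2334_4 : chkL rootF engF2 tA tA sA_306 sA_306 4 F_2334 [(256, 12, 3)]
    0x436 = true := by
  decide +kernel

def r_2334_5 : chkL rootF engF2 tA tA sA_306 sA_306 4 F_2334 [(256, 15, 1)]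
    0x1 = true := by
  decide +kernel

def r_2334_6 : chkL rootF engF2 tA tA sA_306 sA_306 4 F_2334 [(256, 16, 13)]
    0x52a30c5642d0b = true := by
  decide +kernel

def r_2334_7 : chkL rootF engF2 tA tA sA_306 sA_306 4 F_2334 [(256, 29, 0)]
    0x469 = true := by
  decide +kernel

theorem f_2334 (h : TabsF) : FrameF repsF 306 F_2334.f :=
  frame_of rfl c_2334 ((runs_of engOK r_2334_0).append ((runs_of engOK r_2334_1).append ((runs_of engOK r_2334_2).append ((runs_of engOK r_2334_3).append ((runs_of engOK r_2334_4).append ((runs_of engOK r_2334_5).append ((runs_of engOK r_2334_6).append (runs_of engOK r_2334_7)))))))) (by decide +kernel) h.1 h.1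

def F_2335 : FrX :=
  ⟨0x482000044040440000c2040020009000182040010080080104000110020021810800100804040410000220408002800024442240108100044200000042,
    0xa0, 1, 0x304260768291a4, 7,
    [(0xa0, 1), (0x538690a2, 4), (0x548790a1, 4), (0x21437690, 4), (0x538690a2, 4), (0x548790a1, 4)],
    [(0x304260768291a4, 7), (0x537086a4, 4), (0x217396a5, 4), (0x214053a7, 4), (0x217396a5, 4), (0x305498a7, 4), (0x217486a0, 4), (0x214053a7, 4), (0x217486a0, 4), (0x407596a3, 4), (0x214053a7, 4), (0x305498a7, 4)]⟩

def c_2335 : frmChk tA tB F_2335 = true := by decide +kernel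

def r_2335_0 : chkL rootF engF2 tA tB sA_306 sB_306 4 F_2335 [(511, 0, 0)]
    0x114c4e = true := by
  decide +kernel

theorem f_2335 (h : TabsF) : FrameF repsF 306 F_2335.f :=
  frame_of rfl c_2335 (runs_of engOK r_2335_0) (by decide +kernel) h.1 h.2

def F_2336 : FrX :=
  ⟨0x1c21020000040440000020410001010000820408a0001100000082100202101000204040088004112000200022201802048000011082401100a20008200,
    0x0, 0, 0x43536584, 4,
    [(0x0, 0), (0x205386a9, 4), (0x105487a9, 4), (0x214376a9, 4), (0x205386a9, 4), (0x105487a9, 4)],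
    [(0x43536584, 4), (0x20547683, 4), (0x107486a9, 4), (0x537684a9, 4), (0x107486a9, 4), (0x21637584, 4), (0x204385a9, 4), (0x537684a9, 4), (0x204385a9, 4), (0x10536487, 4), (0x537684a9, 4), (0x21637584, 4)]⟩

def c_2336 : frmChk tA tB F_2336 = true := by decide +kernel

def r_2336_0 : chkL rootF engF2 tA tB sA_306 sB_306 4 F_2336 [(255, 0, 0), (256, 0, 9)]
    0x46c9181d134d41b03c05c1d = true := by
  decide +kernel

def r_2336_1 : chkL rootF engF2 tA tB sA_306 sB_306 4 F_2336 [(256, 9, 14)]
    0x1 = true := by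
  decide +kernel

def r_2336_2 : chkL rootF engF2 tA tB sA_306 sB_306 4 F_2336 [(256, 23, 4)]
    0x1 = true := by
  decide +kernel

def r_2336_3 : chkL rootF engF2 tA tB sA_306 sB_306 4 F_2336 [(256, 27, 0)]
    0x10e859 = true := by
  decide +kernel

theorem f_2336 (h : TabsF) : FrameF repsF 306 F_2336.f :=
  frame_of rfl c_2336 ((runs_of engOK r_2336_0).append ((runs_of engOK r_2336_1).append ((runs_of engOK r_2336_2).append (runs_of engOK r_2336_3)))) (by decide +kernel) h.1 h.2

def F_2337 : FrX :=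
  ⟨0x2002000900044004000e02041000141000800040800402080101400400210c0002002400210200020c000009000404221001009080600800000842201001,
    0xa3, 1, 0x21325160768296a3, 8,
    [(0xa3, 1), (0x208693a5, 4), (0x10548793, 4), (0x217693a4, 4), (0x208693a5, 4), (0x10548793, 4)],
    [(0x21325160768296a3, 8), (0x204386a9, 4), (0x42657190, 4), (0x207194a3, 4), (0x42657190, 4), (0x328594a0, 4), (0x718693a4, 4), (0x207194a3, 4), (0x718693a4, 4), (0x406592a3, 4), (0x207194a3, 4), (0x328594a0, 4)]⟩

def c_2337 : frmChk tA tB F_2337 = true := by decide +kernel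

def r_2337_0 : chkL rootF engF2 tA tB sA_306 sB_306 4 F_2337 [(511, 0, 0)]
    0x42b0768907436154743144d05c17 = true := by
  decide +kernel

theorem f_2337 (h : TabsF) : FrameF repsF 306 F_2337.f :=
  frame_of rfl c_2337 (runs_of engOK r_2337_0) (by decide +kernel) h.1 h.2

def F_2338 : FrX :=
  ⟨0x2002000900044004000e02041000141000800040804000240420002008008988200008010080141000240042011000040300202010041020000004283001,
    0xa3, 1, 0x20324051658697a3, 8,
    [(0xa3, 1), (0x208693a5, 4), (0x10548793, 4), (0x217693a4, 4), (0x208693a5, 4), (0x10548793, 4)],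
    [(0x20324051658697a3, 8), (0x437081a6, 4), (0x54627091, 4), (0x537098a2, 4), (0x437081a6, 4), (0x54627091, 4)]⟩

def c_2338 : frmChk tA tA F_2338 = true := by decide +kernel

def r_2338_0 : chkL rootF engF2 tA tA sA_306 sA_306 4 F_2338 [(511, 0, 0)]
    0x10d8360781b06c270b44b12c8e4d02d1e036 = true := by
  decide +kernel

theorem f_2338 (h : TabsF) : FrameF repsF 306 F_2338.f :=
  frame_of rfl c_2338 (runs_of engOK r_2338_0) (by decide +kernel) h.1 h.1

def F_2339 : FrX :=
  ⟨0x2002000900044004000e02041000141000800040810000082080802402004080140280010000030202114020012010002080090084001008600002202001,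
    0xa3, 1, 0x2043517391a4, 6,
    [(0xa3, 1), (0x208693a5, 4), (0x10548793, 4), (0x217693a4, 4), (0x208693a5, 4), (0x10548793, 4)],
    [(0x2043517391a4, 6), (0x204176a8, 4), (0x536492a1, 4), (0x415387a6, 4), (0x536492a1, 4), (0x748190a6, 4), (0x205386a7, 4), (0x415387a6, 4), (0x205386a7, 4), (0x618792a4, 4), (0x415387a6, 4), (0x748190a6, 4)]⟩

def c_2339 : frmChk tA tB F_2339 = true := by decide +kernel

def r_2339_0 : chkL rootF engF2 tA tB sA_306 sB_306 4 F_2339 [(511, 0, 0)]
    0x44b05f03198661982b0b835 = true := by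
  decide +kernel

theorem f_2339 (h : TabsF) : FrameF repsF 306 F_2339.f :=
  frame_of rfl c_2339 (runs_of engOK r_2339_0) (by decide +kernel) h.1 h.2

def F_2340 : FrX :=
  ⟨0x482000044040440000c2040020009000182040004021020001020080044104200400050080805000020004601088008100001210040120004010a00208,
    0xa0, 1, 0x4251758495a3, 6,
    [(0xa0, 1), (0x538690a2, 4), (0x548790a1, 4), (0x21437690, 4), (0x538690a2, 4), (0x548790a1, 4)],
    [(0x4251758495a3, 6), (0x408291a6, 4), (0x50617398, 4), (0x738691a2, 4), (0x50617398, 4), (0x548692a1, 4), (0x406273a8, 4), (0x738691a2, 4), (0x406273a8, 4), (0x508196a2, 4), (0x738691a2, 4), (0x548692a1, 4)]⟩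

def c_2340 : frmChk tA tB F_2340 = true := by decide +kernel

def r_2340_0 : chkL rootF engF2 tA tB sA_306 sB_306 4 F_2340 [(511, 0, 0)]
    0x127162 = true := by
  decide +kernel

theorem f_2340 (h : TabsF) : FrameF repsF 306 F_2340.f :=
  frame_of rfl c_2340 (runs_of engOK r_2340_0) (by decide +kernel) h.1 h.2

def F_2341 : FrX :=
  ⟨0x482000044040440000c2040020009000182040020000500800020280010c0480008004010200904024000802302004020400600200062000012200000c,
    0xa0, 1, 0x103043728190a7, 7,
    [(0xa0, 1), (0x538690a2, 4), (0x548790a1, 4), (0x21437690, 4), (0x538690a2, 4), (0x548790a1, 4)],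
    [(0x103043728190a7, 7), (0x106497a5, 4), (0x325198a6, 4), (0x324061a5, 4), (0x325198a6, 4), (0x506187a4, 4), (0x32416097, 4), (0x324061a5, 4), (0x32416097, 4), (0x406598a1, 4), (0x324061a5, 4), (0x506187a4, 4)]⟩

def c_2341 : frmChk tA tB F_2341 = true := by decide +kernel

def r_2341_0 : chkL rootF engF2 tA tB sA_306 sB_306 4 F_2341 [(511, 0, 0)]
    0x4550781e0cc33 = true := by
  decide +kernel

theorem f_2341 (h : TabsF) : FrameF repsF 306 F_2341.f :=
  frame_of rfl c_2341 (runs_of engOK r_2341_0) (by decide +kernel) h.1 h.2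

def F_2342 : FrX :=
  ⟨0x482000044040440000c2040020009000182040020001042000020810010c10010080040041080180080400102002420442408004090000001042020410,
    0xa0, 1, 0x1054628098a6, 6,
    [(0xa0, 1), (0x538690a2, 4), (0x548790a1, 4), (0x21437690, 4), (0x538690a2, 4), (0x548790a1, 4)],
    [(0x1054628098a6, 6), (0x748695a3, 4), (0x215480a7, 4), (0x217493a5, 4), (0x215480a7, 4), (0x607394a5, 4), (0x215386a9, 4), (0x217493a5, 4), (0x215386a9, 4), (0x758093a4, 4), (0x217493a5, 4), (0x607394a5, 4)]⟩

def c_2342 : frmChk tA tB F_2342 = true := by decide +kernel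

def r_2342_0 : chkL rootF engF2 tA tB sA_306 sB_306 4 F_2342 [(511, 0, 0)]
    0x43c4584b1384e1383c = true := by
  decide +kernel

theorem f_2342 (h : TabsF) : FrameF repsF 306 F_2342.f :=
  frame_of rfl c_2342 (runs_of engOK r_2342_0) (by decide +kernel) h.1 h.2

def F_2343 : FrX :=
  ⟨0x1c21020000040440000020410001010000820408a0001100000044100401101000108040088004112000200022201802028000011022804080a10008200,
    0x0, 0, 0x537386, 3,
    [(0x0, 0), (0x205386a9, 4), (0x105487a9, 4), (0x214376a9, 4), (0x205386a9, 4), (0x105487a9, 4)],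
    [(0x537386, 3), (0x20536487, 4), (0x104385a9, 4), (0x537684a9, 4), (0x104385a9, 4), (0x21637584, 4), (0x207486a9, 4), (0x537684a9, 4), (0x207486a9, 4), (0x10547683, 4), (0x537684a9, 4), (0x21637584, 4)]⟩

def c_2343 : frmChk tA tB F_2343 = true := by decide +kernel

def r_2343_0 : chkL rootF engF2 tA tB sA_306 sB_306 4 F_2343 [(255, 0, 0), (256, 0, 5)]
    0x10d80f05c17 = true := by
  decide +kernel

def r_2343_1 : chkL rootF engF2 tA tB sA_306 sB_306 4 F_2343 [(256, 5, 14)]
    0x10e88b = true := by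
  decide +kernel

def r_2343_2 : chkL rootF engF2 tA tB sA_306 sB_306 4 F_2343 [(256, 19, 5)]
    0x1 = true := by
  decide +kernel

def r_2343_3 : chkL rootF engF2 tA tB sA_306 sB_306 4 F_2343 [(256, 24, 5)]
    0x11586c = true := by
  decide +kernel

def r_2343_4 : chkL rootF engF2 tA tB sA_306 sB_306 4 F_2343 [(256, 29, 2)]
    0x1 = true := by
  decide +kernel

def r_2343_5 : chkL rootF engF2 tA tB sA_306 sB_306 4 F_2343 [(256, 31, 0)]
    0x45c17143 = true := by
  decide +kernel

theorem f_2343 (h : TabsF) : FrameF repsF 306 F_2343.f :=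
  frame_of rfl c_2343 ((runs_of engOK r_2343_0).append ((runs_of engOK r_2343_1).append ((runs_of engOK r_2343_2).append ((runs_of engOK r_2343_3).append ((runs_of engOK r_2343_4).append (runs_of engOK r_2343_5)))))) (by decide +kernel) h.1 h.2

def F_2344 : FrX :=
  ⟨0x2002000900044004000e02041000141000800040808001001101200008221101000108004080004112000202020001800020402030023000080a10008201,
    0xa3, 1, 0x405262748198a4, 7,
    [(0xa3, 1), (0x208693a5, 4), (0x10548793, 4), (0x217693a4, 4), (0x208693a5, 4), (0x10548793, 4)],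
    [(0x405262748198a4, 7), (0x205364a9, 4), (0x507184a2, 4), (0x207193a5, 4), (0x507184a2, 4), (0x308692a5, 4), (0x647195a3, 4), (0x207193a5, 4), (0x647195a3, 4), (0x528493a0, 4), (0x207193a5, 4), (0x308692a5, 4)]⟩

def c_2344 : frmChk tA tB F_2344 = true := by decide +kernel

def r_2344_0 : chkL rootF engF2 tA tB sA_306 sB_306 4 F_2344 [(511, 0, 0)]
    0x122c1705c3a = true := by
  decide +kernel

theorem f_2344 (h : TabsF) : FrameF repsF 306 F_2344.f :=
  frame_of rfl c_2344 (runs_of engOK r_2344_0) (by decide +kernel) h.1 h.2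

def F_2345 : FrX :=
  ⟨0x600020801080810000c0040180410101001004020000500800882802002200020020400020440208404200242008210100000800402040000821008203,
    0xa0, 1, 0x3242728191a2, 6,
    [(0xa0, 1), (0x637584a2, 4), (0x547690a1, 4), (0x64758390, 4), (0x547690a1, 4), (0x21647385, 4), (0x438690a2, 4), (0x64758390, 4), (0x438690a2, 4), (0x657483a1, 4), (0x64758390, 4), (0x21647385, 4)],
    [(0x3242728191a2, 6), (0x315462a0, 4), (0x53648790, 4), (0x21546387, 4), (0x53648790, 4), (0x425163a9, 4), (0x326187a0, 4), (0x21546387, 4), (0x326187a0, 4), (0x21436590, 4), (0x21546387, 4), (0x425163a9, 4)]⟩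

def c_2345 : frmChk tB tB F_2345 = true := by decide +kernel

def r_2345_0 : chkL rootF engF2 tB tB sB_306 sB_306 4 F_2345 [(511, 0, 0)]
    0x42709c1b = true := by
  decide +kernel

theorem f_2345 (h : TabsF) : FrameF repsF 306 F_2345.f :=
  frame_of rfl c_2345 (runs_of engOK r_2345_0) (by decide +kernel) h.2 h.2

def F_2346 : FrX :=
  ⟨0x1001040012008080000e00840800410008101000042100004041030001000044040102200a0001080008101204182002100080120400008c080101020040,
    0xa3, 1, 0x214250628498a3, 7,
    [(0xa3, 1), (0x207584a6, 4), (0x10547693, 4), (0x647593a8, 4), (0x10547693, 4), (0x216485a7, 4), (0x208693a4, 4), (0x647593a8, 4), (0x208693a4, 4), (0x106574a8, 4), (0x647593a8, 4), (0x216485a7, 4)],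
    [(0x214250628498a3, 7), (0x657098a4, 4), (0x31527480, 4), (0x317084a9, 4), (0x31527480, 4), (0x628490a7, 4), (0x316594a8, 4), (0x317084a9, 4), (0x316594a8, 4), (0x405287a9, 4), (0x317084a9, 4), (0x628490a7, 4)]⟩

def c_2346 : frmChk tB tB F_2346 = true := by decide +kernel

def r_2346_0 : chkL rootF engF2 tB tB sB_306 sB_306 4 F_2346 [(511, 0, 0)]
    0x10b81e03c17 = true := by
  decide +kernel

theorem f_2346 (h : TabsF) : FrameF repsF 306 F_2346.f :=
  frame_of rfl c_2346 (runs_of engOK r_2346_0) (by decide +kernel) h.2 h.2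

def F_2347 : FrX :=
  ⟨0x1001040012008080000e00840800410008101000044010080080902001020004005002204020010408002801000404090100002008820809100800222020,
    0xa3, 1, 0x314253617093a4, 7,
    [(0xa3, 1), (0x207584a6, 4), (0x10547693, 4), (0x647593a8, 4), (0x10547693, 4), (0x216485a7, 4), (0x208693a4, 4), (0x647593a8, 4), (0x208693a4, 4), (0x106574a8, 4), (0x647593a8, 4), (0x216485a7, 4)],
    [(0x314253617093a4, 7), (0x107493a8, 4), (0x305276a1, 4), (0x105298a3, 4), (0x305276a1, 4), (0x648190a3, 4), (0x527483a9, 4), (0x105298a3, 4), (0x527483a9, 4), (0x317698a0, 4), (0x105298a3, 4), (0x648190a3, 4)]⟩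

def c_2347 : frmChk tB tB F_2347 = true := by decide +kernel

def r_2347_0 : chkL rootF engF2 tB tB sB_306 sB_306 4 F_2347 [(511, 0, 0)]
    0x10d90722caa = true := by
  decide +kernel

theorem f_2347 (h : TabsF) : FrameF repsF 306 F_2347.f :=
  frame_of rfl c_2347 (runs_of engOK r_2347_0) (by decide +kernel) h.2 h.2

theorem cl_306 (h : TabsF) : ∀ f ∈ fr_306, FrameF repsF 306 f :=
  List.forall_mem_cons.2 ⟨f_2320 h, List.forall_mem_cons.2 ⟨f_2321 h, List.forall_mem_cons.2 ⟨f_2322 h, List.forall_mem_cons.2 ⟨f_2323 h, List.forall_mem_cons.2 ⟨f_2324 h, List.forall_mem_cons.2 ⟨f_2325 h, List.forall_mem_cons.2 ⟨f_2326 h, List.forall_mem_cons.2 ⟨f_2327 h, List.forall_mem_cons.2 ⟨f_2328 h, List.forall_mem_cons.2 ⟨f_2329 h, List.forall_mem_cons.2 ⟨f_2330 h, List.forall_mem_cons.2 ⟨f_2331 h, List.forall_mem_cons.2 ⟨f_2332 h, List.forall_mem_cons.2 ⟨f_2333 h, List.forall_mem_cons.2 ⟨f_2334 h, List.forall_mem_cons.2 ⟨f_2335 h, List.forall_mem_cons.2 ⟨f_2336 h, List.forall_mem_cons.2 ⟨f_2337 h, List.forall_mem_cons.2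 ⟨f_2338 h, List.forall_mem_cons.2 ⟨f_2339 h, List.forall_mem_cons.2 ⟨f_2340 h, List.forall_mem_cons.2 ⟨f_2341 h, List.forall_mem_cons.2 ⟨f_2342 h, List.forall_mem_cons.2 ⟨f_2343 h, List.forall_mem_cons.2 ⟨f_2344 h, List.forall_mem_cons.2 ⟨f_2345 h, List.forall_mem_cons.2 ⟨f_2346 h, List.forall_mem_cons.2 ⟨f_2347 h,
    fun _ h0 => absurd h0 List.not_mem_nil⟩⟩⟩⟩⟩⟩⟩⟩⟩⟩⟩⟩⟩⟩⟩⟩⟩⟩⟩⟩⟩⟩⟩⟩⟩⟩⟩⟩

/-- the classes finished in this module -/
theorem all_L18 (h : TabsF) : ∀ p ∈ ([(298, fr_298), (299, fr_299), (300, fr_300), (301, fr_301), (302, fr_302), (303, fr_303), (304, fr_304), (305, fr_305), (306, fr_306)] : List (ℕ × List ℕ)),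
    ∀ f ∈ p.2, FrameF repsF p.1 f :=
  List.forall_mem_cons.2 ⟨cl_298 h, List.forall_mem_cons.2 ⟨cl_299 h, List.forall_mem_cons.2 ⟨cl_300 h, List.forall_mem_cons.2 ⟨cl_301 h, List.forall_mem_cons.2 ⟨cl_302 h, List.forall_mem_cons.2 ⟨cl_303 h, List.forall_mem_cons.2 ⟨cl_304 h, List.forall_mem_cons.2 ⟨cl_305 h, List.forall_mem_cons.2 ⟨cl_306 h, fun _ h0 => absurd h0 List.not_mem_nil⟩⟩⟩⟩⟩⟩⟩⟩⟩

end Pool.Agent.Gen.TY.F
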