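import Pool.Agent.Helper20.TY.EngF
import Pool.Agent.Helper20.TY.TabG
import Pool.Agent.Gen.TY.FS.SufA
import Pool.Agent.Gen.TY.FS.SufB
import Pool.Agent.Gen.TY.FR.Dat

/-!
MP_8ee768_co, project TH-Y', stage F: frames.
-/

set_option autoImplicit false

namespace Pool.Agent.Gen.TY.F

open Pool.Agent.Helper79.CV
open Pool.Agent.Helper20.TY
open Pool.Agent.Helper20.TY.EngF
open Pool.Agent.Gen.TY.FS
open Pool.Agent.Gen.TY.FR

def F_2348 : FrX :=
  ⟨0x2002000900044004000e0204100014100080004080080400181010042010408020012002000800832401008001100004024100800204880800201000c004,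
    0xa3, 1, 0x20304151617598a0, 8,
    [(0xa3, 1), (0x208693a5, 4), (0x10548793, 4), (0x217693a4, 4), (0x208693a5, 4), (0x10548793, 4)],
    [(0x20304151617598a0, 8), (0x728395a0, 4), (0x718394a6, 4), (0x21546083, 4), (0x728395a0, 4), (0x718394a6, 4)]⟩

def c_2348 : frmChk tA tA F_2348 = true := by decide +kernel

def r_2348_0 : chkL rootF engF2 tA tA sA_307 sA_307 4 F_2348 [(511, 0, 0)]
    0x103c2d18d1a42c0f134950ac550d853 = true := by
  decide +kernel

theorem f_2348 (h : TabsF) : FrameF repsF 307 F_2348.f :=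
  frame_of rfl c_2348 (runs_of engOK r_2348_0) (by decide +kernel) h.1 h.1

def F_2349 : FrX :=
  ⟨0x2002000900044004000e02041000141000800040810003020080804200242001000002208008110408200005004008100100080080883440000820200280,
    0xa3, 1, 0x10314052657682a5, 8,
    [(0xa3, 1), (0x208693a5, 4), (0x10548793, 4), (0x217693a4, 4), (0x208693a5, 4), (0x10548793, 4)],
    [(0x10314052657682a5, 8), (0x758496a0, 4), (0x435296a1, 4), (0x10728396, 4), (0x758496a0, 4), (0x435296a1, 4)]⟩

def c_2349 : frmChk tA tA F_2349 = true := by decide +kernel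

def r_2349_0 : chkL rootF engF2 tA tA sA_307 sA_307 4 F_2349 [(511, 0, 0)]
    0x60b0d4e81b0990ac272c6b00d8356601d06c0f0b8170781b11caa3a0271981711c170f134a0c39e0863 = true := by
  decide +kernel

theorem f_2349 (h : TabsF) : FrameF repsF 307 F_2349.f :=
  frame_of rfl c_2349 (runs_of engOK r_2349_0) (by decide +kernel) h.1 h.1

def F_2350 : FrX :=
  ⟨0x80080a000804040e0000210100200100000204088808104006000042004008200840400102008108004100010300620a0880080004004003002000c0080,
    0xa6, 1, 0x2132435280a2, 6,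
    [(0xa6, 1), (0x205396a8, 4), (0x10548796, 4), (0x214396a7, 4), (0x205396a8, 4), (0x10548796, 4)],
    [(0x2132435280a2, 6), (0x436095a8, 4), (0x31708295, 4), (0x417695a2, 4), (0x436095a8, 4), (0x31708295, 4)]⟩

def c_2350 : frmChk tA tA F_2350 = true := by decide +kernel

def r_2350_0 : chkL rootF engF2 tA tA sA_307 sA_307 4 F_2350 [(511, 0, 0)]
    0x4876141b21c4b21c390ac6c03c1d23427198566198630c1b06c36 = true := by
  decide +kernel

theorem f_2350 (h : TabsF) : FrameF repsF 307 F_2350.f :=
  frame_of rfl c_2350 (runs_of engOK r_2350_0) (by decide +kernel) h.1 h.1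

def F_2351 : FrX :=
  ⟨0x482000044040440000c2040020009000182040004100400804080005100088000822008101010400020821100401100100002048080909100002200001,
    0xa0, 1, 0x10425360738693a0, 8,
    [(0xa0, 1), (0x538690a2, 4), (0x548790a1, 4), (0x21437690, 4), (0x538690a2, 4), (0x548790a1, 4)],
    [(0x10425360738693a0, 8), (0x768193a4, 4), (0x325176a0, 4), (0x40768592, 4), (0x768193a4, 4), (0x325176a0, 4)]⟩

def c_2351 : frmChk tA tA F_2351 = true := by decide +kernel

def r_2351_0 : chkL rootF engF2 tA tA sA_307 sA_307 4 F_2351 [(511, 0, 0)]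
    0x10ac334c9910b41b07817 = true := by
  decide +kernel

theorem f_2351 (h : TabsF) : FrameF repsF 307 F_2351.f :=
  frame_of rfl c_2351 (runs_of engOK r_2351_0) (by decide +kernel) h.1 h.1

def F_2352 : FrX :=
  ⟨0x2002000900044004000e0204100014100080004080100102100102880200210020002020140002108404400408100820e0040080004002002000a0024004,
    0xa3, 1, 0x103140528595a1, 7,
    [(0xa3, 1), (0x208693a5, 4), (0x10548793, 4), (0x217693a4, 4), (0x208693a5, 4), (0x10548793, 4)],
    [(0x103140528595a1, 7), (0x21546097, 4), (0x768391a4, 4), (0x20618397, 4), (0x768391a4, 4), (0x617092a5, 4), (0x10546283, 4), (0x20618397, 4), (0x10546283, 4), (0x207196a4, 4), (0x20618397, 4), (0x617092a5, 4)]⟩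

def c_2352 : frmChk tA tB F_2352 = true := by decide +kernel

def r_2352_0 : chkL rootF engF2 tA tB sA_307 sB_307 4 F_2352 [(511, 0, 0)]
    0x10d41d0b42d = true := by
  decide +kernel

theorem f_2352 (h : TabsF) : FrameF repsF 307 F_2352.f :=
  frame_of rfl c_2352 (runs_of engOK r_2352_0) (by decide +kernel) h.1 h.2

def F_2353 : FrX :=
  ⟨0x482000044040440000c2040020009000182040010020028001220080080108010020410009010800a00209000101040040448008048004000880400050,
    0xa0, 1, 0x103040658292a5, 7,
    [(0xa0, 1), (0x538690a2, 4), (0x548790a1, 4), (0x21437690, 4), (0x538690a2, 4), (0x548790a1, 4)],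
    [(0x103040658292a5, 7), (0x528694a1, 4), (0x407286a3, 4), (0x31758690, 4), (0x528694a1, 4), (0x407286a3, 4)]⟩

def c_2353 : frmChk tA tA F_2353 = true := by decide +kernel

def r_2353_0 : chkL rootF engF2 tA tA sA_307 sA_307 4 F_2353 [(511, 0, 0)]
    0x43c0f05505c3c12c1b06c3c09c4b12c4b1a41d1c81b = true := by
  decide +kernel

theorem f_2353 (h : TabsF) : FrameF repsF 307 F_2353.f :=
  frame_of rfl c_2353 (runs_of engOK r_2353_0) (by decide +kernel) h.1 h.1

def F_2354 : FrX :=
  ⟨0x482000044040440000c20400200090001820400004120108081000100400440048020200d0800020800020101000082024082004200600300010800401,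
    0xa0, 1, 0x203140508192a2, 7,
    [(0xa0, 1), (0x538690a2, 4), (0x548790a1, 4), (0x21437690, 4), (0x538690a2, 4), (0x548790a1, 4)],
    [(0x203140508192a2, 7), (0x326174a5, 4), (0x42768590, 4), (0x31627490, 4), (0x42768590, 4), (0x436271a8, 4), (0x216390a5, 4), (0x31627490, 4), (0x216390a5, 4), (0x31647285, 4), (0x31627490, 4), (0x436271a8, 4)]⟩

def c_2354 : frmChk tA tB F_2354 = true := by decide +kernel

def r_2354_0 : chkL rootF engF2 tA tB sA_307 sB_307 4 F_2354 [(511, 0, 0)]
    0x43c078a94c4d40f01e2a5313502750dc105c950e5311384e1645905c2e12c4b09cca09c2732827 = true := by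
  decide +kernel

theorem f_2354 (h : TabsF) : FrameF repsF 307 F_2354.f :=
  frame_of rfl c_2354 (runs_of engOK r_2354_0) (by decide +kernel) h.1 h.2

def F_2355 : FrX :=
  ⟨0x80080a000804040e00002101002001000002040888084000482020800810000011080420000524008080800a000008024420024000080840400a0020030,
    0xa6, 1, 0x3043516082a1, 6,
    [(0xa6, 1), (0x205396a8, 4), (0x10548796, 4), (0x214396a7, 4), (0x205396a8, 4), (0x10548796, 4)],
    [(0x3043516082a1, 6), (0x32418695, 4), (0x107295a6, 4), (0x407395a8, 4), (0x32418695, 4), (0x107295a6, 4)]⟩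

def c_2355 : frmChk tA tA F_2355 = true := by decide +kernel

def r_2355_0 : chkL rootF engF2 tA tA sA_307 sA_307 4 F_2355 [(511, 0, 0)]
    0x6311644e0da1903c1b05c8d6308e14c3a = true := by
  decide +kernel

theorem f_2355 (h : TabsF) : FrameF repsF 307 F_2355.f :=
  frame_of rfl c_2355 (runs_of engOK r_2355_0) (by decide +kernel) h.1 h.1

def F_2356 : FrX :=
  ⟨0x1c21020000040440000020410001010000820408a0004008000024200802020010500100400525008080048a00004802408002400040004040210080030,
    0x0, 0, 0x216574, 3,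
    [(0x0, 0), (0x205386a9, 4), (0x105487a9, 4), (0x214376a9, 4), (0x205386a9, 4), (0x105487a9, 4)],
    [(0x216574, 3), (0x106385a9, 4), (0x207684a9, 4), (0x215473a9, 4), (0x106385a9, 4), (0x207684a9, 4)]⟩

def c_2356 : frmChk tA tA F_2356 = true := by decide +kernel

def r_2356_0 : chkL rootF engF2 tA tA sA_307 sA_307 4 F_2356 [(255, 0, 0), (256, 0, 15)]
    0x5910b42e = true := by
  decide +kernel

def r_2356_1 : chkL rootF engF2 tA tA sA_307 sA_307 4 F_2356 [(256, 15, 6)]
    0x48b0b44e = true := by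
  decide +kernel

def r_2356_2 : chkL rootF engF2 tA tA sA_307 sA_307 4 F_2356 [(256, 21, 5)]
    0x1 = true := by
  decide +kernel

def r_2356_3 : chkL rootF engF2 tA tA sA_307 sA_307 4 F_2356 [(256, 26, 0)]
    0x1 = true := by
  decide +kernel

theorem f_2356 (h : TabsF) : FrameF repsF 307 F_2356.f :=
  frame_of rfl c_2356 ((runs_of engOK r_2356_0).append ((runs_of engOK r_2356_1).append ((runs_of engOK r_2356_2).append (runs_of engOK r_2356_3)))) (by decide +kernel) h.1 h.1

def F_2357 : FrX :=
  ⟨0x482000044040440000c2040020009000182040000900808004200008002022020601000904000202000100880204800810001084102000701200808008,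
    0xa0, 1, 0x3050647096a2, 6,
    [(0xa0, 1), (0x538690a2, 4), (0x548790a1, 4), (0x21437690, 4), (0x538690a2, 4), (0x548790a1, 4)],
    [(0x3050647096a2, 6), (0x304298a7, 4), (0x42637185, 4), (0x426095a1, 4), (0x304298a7, 4), (0x42637185, 4)]⟩

def c_2357 : frmChk tA tA F_2357 = true := by decide +kernel

def r_2357_0 : chkL rootF engF2 tA tA sA_307 sA_307 4 F_2357 [(511, 0, 0)]
    0x103c3309c0f03c1e384c505c27 = true := by
  decide +kernel

theorem f_2357 (h : TabsF) : FrameF repsF 307 F_2357.f :=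
  frame_of rfl c_2357 (runs_of engOK r_2357_0) (by decide +kernel) h.1 h.1

def F_2358 : FrX :=
  ⟨0x80080a000804040e0000210100200100000204089008000048100840482000101080200080208200008080108042004000168840000808a002140000030,
    0xa6, 1, 0x104352657298a0, 7,
    [(0xa6, 1), (0x205396a8, 4), (0x10548796, 4), (0x214396a7, 4), (0x205396a8, 4), (0x10548796, 4)],
    [(0x104352657298a0, 7), (0x426593a7, 4), (0x526381a0, 4), (0x32658194, 4), (0x526381a0, 4), (0x32547096, 4), (0x438192a7, 4), (0x32658194, 4), (0x438192a7, 4), (0x536294a0, 4), (0x32658194, 4), (0x32547096, 4)]⟩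

def c_2358 : frmChk tA tB F_2358 = true := by decide +kernel

def r_2358_0 : chkL rootF engF2 tA tB sA_307 sB_307 4 F_2358 [(511, 0, 0)]
    0x40f = true := by
  decide +kernel

theorem f_2358 (h : TabsF) : FrameF repsF 307 F_2358.f :=
  frame_of rfl c_2358 (runs_of engOK r_2358_0) (by decide +kernel) h.1 h.2

def F_2359 : FrX :=
  ⟨0x2002000900044004000e020410001410008000408004004480012040008208010001011044005050080880088000048004002024400400001012000c1020,
    0xa3, 1, 0x103041718092a5, 7,
    [(0xa3, 1), (0x208693a5, 4), (0x10548793, 4), (0x217693a4, 4), (0x208693a5, 4), (0x10548793, 4)],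
    [(0x103041718092a5, 7), (0x526398a1, 4), (0x435287a0, 4), (0x10526497, 4), (0x526398a1, 4), (0x435287a0, 4)]⟩

def c_2359 : frmChk tA tA F_2359 = true := by decide +kernel

def r_2359_0 : chkL rootF engF2 tA tA sA_307 sA_307 4 F_2359 [(511, 0, 0)]
    0x103c1e5601e4700f06c560d856078330d41d2988e15447 = true := by
  decide +kernel

theorem f_2359 (h : TabsF) : FrameF repsF 307 F_2359.f :=
  frame_of rfl c_2359 (runs_of engOK r_2359_0) (by decide +kernel) h.1 h.1

def F_2360 : FrX :=
  ⟨0x2002000900044004000e02041000141000800040801000418008400060810040100201000902001040080009000402400004048421080008101110042020,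
    0xa3, 1, 0x104352648296a2, 7,
    [(0xa3, 1), (0x208693a5, 4), (0x10548793, 4), (0x217693a4, 4), (0x208693a5, 4), (0x10548793, 4)],
    [(0x104352648296a2, 7), (0x657294a1, 4), (0x10628397, 4), (0x54728396, 4), (0x10628397, 4), (0x527496a0, 4), (0x648395a1, 4), (0x54728396, 4), (0x648395a1, 4), (0x10547692, 4), (0x54728396, 4), (0x527496a0, 4)]⟩

def c_2360 : frmChk tA tB F_2360 = true := by decide +kernel

def r_2360_0 : chkL rootF engF2 tA tB sA_307 sB_307 4 F_2360 [(511, 0, 0)]
    0x11712348c0f0f0170d8350f0170d8351d0d1 = true := by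
  decide +kernel

theorem f_2360 (h : TabsF) : FrameF repsF 307 F_2360.f :=
  frame_of rfl c_2360 (runs_of engOK r_2360_0) (by decide +kernel) h.1 h.2

def F_2361 : FrX :=
  ⟨0x482000044040440000c2040020009000182040000821022004200008080021010202010020080200800401088201020880084340090002002100010002,
    0xa0, 1, 0x21304052637481a5, 8,
    [(0xa0, 1), (0x538690a2, 4), (0x548790a1, 4), (0x21437690, 4), (0x538690a2, 4), (0x548790a1, 4)],
    [(0x21304052637481a5, 8), (0x205491a6, 4), (0x328491a7, 4), (0x30768591, 4), (0x205491a6, 4), (0x328491a7, 4)]⟩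

def c_2361 : frmChk tA tA F_2361 = true := by decide +kernel

def r_2361_0 : chkL rootF engF2 tA tA sA_307 sA_307 4 F_2361 [(511, 0, 0)]
    0x41b0d5a42d01b06c1d = true := by
  decide +kernel

theorem f_2361 (h : TabsF) : FrameF repsF 307 F_2361.f :=
  frame_of rfl c_2361 (runs_of engOK r_2361_0) (by decide +kernel) h.1 h.1

def F_2362 : FrX :=
  ⟨0x2002000900044004000e02041000141000800040810000028081004101008408060001000808010812000208820408800024040041080800040880044040,
    0xa3, 1, 0x1052647594a3, 6,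
    [(0xa3, 1), (0x208693a5, 4), (0x10548793, 4), (0x217693a4, 4), (0x208693a5, 4), (0x10548793, 4)],
    [(0x1052647594a3, 6), (0x516384a7, 4), (0x10638297, 4), (0x425063a9, 4), (0x516384a7, 4), (0x10638297, 4)]⟩

def c_2362 : frmChk tA tA F_2362 = true := by decide +kernel

def r_2362_0 : chkL rootF engF2 tA tA sA_307 sA_307 4 F_2362 [(511, 0, 0)]
    0x103c5522d890e4391a9495a00f0e83a12c1b6181b82e460b40f = true := by
  decide +kernel

theorem f_2362 (h : TabsF) : FrameF repsF 307 F_2362.f :=
  frame_of rfl c_2362 (runs_of engOK r_2362_0) (by decide +kernel) h.1 h.1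

def F_2363 : FrX :=
  ⟨0x80080a000804040e000021010020010000020408a000100208040015041400000508002100e00400a010000002200801002080080002804000824a20200,
    0xa6, 1, 0x30538494a1, 5,
    [(0xa6, 1), (0x205396a8, 4), (0x10548796, 4), (0x214396a7, 4), (0x205396a8, 4), (0x10548796, 4)],
    [(0x30538494a1, 5), (0x32657094, 4), (0x768190a3, 4), (0x54708196, 4), (0x768190a3, 4), (0x407596a2, 4), (0x32648195, 4), (0x54708196, 4), (0x32648195, 4), (0x546097a3, 4), (0x54708196, 4), (0x407596a2, 4)]⟩

def c_2363 : frmChk tA tB F_2363 = true := by decide +kernel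

def r_2363_0 : chkL rootF engF2 tA tB sA_307 sB_307 4 F_2363 [(511, 0, 0)]
    0x10745a0b853 = true := by
  decide +kernel

theorem f_2363 (h : TabsF) : FrameF repsF 307 F_2363.f :=
  frame_of rfl c_2363 (runs_of engOK r_2363_0) (by decide +kernel) h.1 h.2

def F_2364 : FrX :=
  ⟨0x80080a000804040e000021010020010000020408a02200022000284000140040404000404000840828808001200102024001080200010810002420a0010,
    0xa6, 1, 0x30618097a7, 5,
    [(0xa6, 1), (0x205396a8, 4), (0x10548796, 4), (0x214396a7, 4), (0x205396a8, 4), (0x10548796, 4)],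
    [(0x30618097a7, 5), (0x31508297, 4), (0x548697a3, 4), (0x406297a1, 4), (0x31508297, 4), (0x548697a3, 4)]⟩

def c_2364 : frmChk tA tA F_2364 = true := by decide +kernel

def r_2364_0 : chkL rootF engF2 tA tA sA_307 sA_307 4 F_2364 [(511, 0, 0)]
    0x111c4d1943a134361710e1585c238170d44e1383a24c4e = true := by
  decide +kernel

theorem f_2364 (h : TabsF) : FrameF repsF 307 F_2364.f :=
  frame_of rfl c_2364 (runs_of engOK r_2364_0) (by decide +kernel) h.1 h.1

def F_2365 : FrX :=
  ⟨0x2002000900044004000e02041000141000800040801000228001400101008400040201120008004c828802000200002404042080020400000010c000c044,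
    0xa3, 1, 0x205063718598a6, 7,
    [(0xa3, 1), (0x208693a5, 4), (0x10548793, 4), (0x217693a4, 4), (0x208693a5, 4), (0x10548793, 4)],
    [(0x205063718598a6, 7), (0x508194a6, 4), (0x327584a1, 4), (0x328196a4, 4), (0x327584a1, 4), (0x617098a4, 4), (0x325064a9, 4), (0x328196a4, 4), (0x325064a9, 4), (0x417596a8, 4), (0x328196a4, 4), (0x617098a4, 4)]⟩

def c_2365 : frmChk tA tB F_2365 = true := by decide +kernel

def r_2365_0 : chkL rootF engF2 tA tB sA_307 sB_307 4 F_2365 [(511, 0, 0)]
    0x103c360d80f0e40f12c0f09c1e = true := by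
  decide +kernel

theorem f_2365 (h : TabsF) : FrameF repsF 307 F_2365.f :=
  frame_of rfl c_2365 (runs_of engOK r_2365_0) (by decide +kernel) h.1 h.2

def F_2366 : FrX :=
  ⟨0x482000044040440000c204002000900018204001001010080200081804080422001000800414071000080008100820021400a000200000106020008404,
    0xa0, 1, 0x3253627295a8, 6,
    [(0xa0, 1), (0x538690a2, 4), (0x548790a1, 4), (0x21437690, 4), (0x538690a2, 4), (0x548790a1, 4)],
    [(0x3253627295a8, 6), (0x708295a3, 4), (0x108294a6, 4), (0x54637182, 4), (0x708295a3, 4), (0x108294a6, 4)]⟩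

def c_2366 : frmChk tA tA F_2366 = true := by decide +kernel

def r_2366_0 : chkL rootF engF2 tA tA sA_307 sA_307 4 F_2366 [(511, 0, 0)]
    0x10741e2b0a94a5a8c150b42e19740b2267091568a = true := by
  decide +kernel

theorem f_2366 (h : TabsF) : FrameF repsF 307 F_2366.f :=
  frame_of rfl c_2366 (runs_of engOK r_2366_0) (by decide +kernel) h.1 h.1

def F_2367 : FrX :=
  ⟨0x2002000900044004000e02041000141000800040801000418020004208012108100000200902001040080009000400420900a00020880808100802202080,
    0xa3, 1, 0x205065718191a6, 7,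
    [(0xa3, 1), (0x208693a5, 4), (0x10548793, 4), (0x217693a4, 4), (0x208693a5, 4), (0x10548793, 4)],
    [(0x205065718191a6, 7), (0x506174a3, 4), (0x648295a1, 4), (0x617382a4, 4), (0x648295a1, 4), (0x317690a4, 4), (0x435082a7, 4), (0x617382a4, 4), (0x435082a7, 4), (0x417395a6, 4), (0x617382a4, 4), (0x317690a4, 4)]⟩

def c_2367 : frmChk tA tB F_2367 = true := by decide +kernel

def r_2367_0 : chkL rootF engF2 tA tB sA_307 sB_307 4 F_2367 [(511, 0, 0)]
    0x111c4711cc61342723435 = true := by
  decide +kernel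

theorem f_2367 (h : TabsF) : FrameF repsF 307 F_2367.f :=
  frame_of rfl c_2367 (runs_of engOK r_2367_0) (by decide +kernel) h.1 h.2

def F_2368 : FrX :=
  ⟨0x2002000900044004000e02041000141000800040800400448010040400800881200100105c0000848000810001101000000030a044040000501200049000,
    0xa3, 1, 0x204052728291a6, 7,
    [(0xa3, 1), (0x208693a5, 4), (0x10548793, 4), (0x217693a4, 4), (0x208693a5, 4), (0x10548793, 4)],
    [(0x204052728291a6, 7), (0x306184a7, 4), (0x20617594, 4), (0x326198a5, 4), (0x306184a7, 4), (0x20617594, 4)]⟩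

def c_2368 : frmChk tA tA F_2368 = true := by decide +kernel

def r_2368_0 : chkL rootF engF2 tA tA sA_307 sA_307 4 F_2368 [(511, 0, 0)]
    0x1078568a465705a141d0d0781b = true := by
  decide +kernel

theorem f_2368 (h : TabsF) : FrameF repsF 307 F_2368.f :=
  frame_of rfl c_2368 (runs_of engOK r_2368_0) (by decide +kernel) h.1 h.1

def F_2369 : FrX :=
  ⟨0x80080a000804040e000021010020010000020408900800004840b000022000800001300080208200008080108042002080104204100840a100904040000,
    0xa6, 1, 0x41516191a8, 5,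
    [(0xa6, 1), (0x205396a8, 4), (0x10548796, 4), (0x214396a7, 4), (0x205396a8, 4), (0x10548796, 4)],
    [(0x41516191a8, 5), (0x205374a1, 4), (0x41758690, 4), (0x517486a3, 4), (0x41758690, 4), (0x517392a4, 4), (0x203186a5, 4), (0x517486a3, 4), (0x203186a5, 4), (0x547190a3, 4), (0x517486a3, 4), (0x517392a4, 4)]⟩

def c_2369 : frmChk tA tB F_2369 = true := by decide +kernel

def r_2369_0 : chkL rootF engF2 tA tB sA_307 sB_307 4 F_2369 [(511, 0, 0)]
    0x40f25992259921a4a3a845628ca9 = true := by
  decide +kernel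

theorem f_2369 (h : TabsF) : FrameF repsF 307 F_2369.f :=
  frame_of rfl c_2369 (runs_of engOK r_2369_0) (by decide +kernel) h.1 h.2

def F_2370 : FrX :=
  ⟨0x80080a000804040e00002101002001000002040881011001020010020042004018014000c0004048000088188004014000404201800440040c0a0000008,
    0xa6, 1, 0x52758596a7, 5,
    [(0xa6, 1), (0x205396a8, 4), (0x10548796, 4), (0x214396a7, 4), (0x205396a8, 4), (0x10548796, 4)],
    [(0x52758596a7, 5), (0x507493a8, 4), (0x106284a9, 4), (0x627394a8, 4), (0x106284a9, 4), (0x518794a3, 4), (0x43506297, 4), (0x627394a8, 4), (0x43506297, 4), (0x107398a4, 4), (0x627394a8, 4), (0x518794a3, 4)]⟩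

def c_2370 : frmChk tA tB F_2370 = true := by decide +kernel

def r_2370_0 : chkL rootF engF2 tA tB sA_307 sB_307 4 F_2370 [(511, 0, 0)]
    0x11700f0b82b21c0f = true := by
  decide +kernel

theorem f_2370 (h : TabsF) : FrameF repsF 307 F_2370.f :=
  frame_of rfl c_2370 (runs_of engOK r_2370_0) (by decide +kernel) h.1 h.2

def F_2371 : FrX :=
  ⟨0x2002000900044004000e02041000141000800040800801018808024002000180200100800888000280400101800048100100000098808000488042061000,
    0xa3, 1, 0x21425060a3, 5,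
    [(0xa3, 1), (0x208693a5, 4), (0x10548793, 4), (0x217693a4, 4), (0x208693a5, 4), (0x10548793, 4)],
    [(0x21425060a3, 5), (0x648593a0, 4), (0x10628793, 4), (0x427593a1, 4), (0x648593a0, 4), (0x10628793, 4)]⟩

def c_2371 : frmChk tA tA F_2371 = true := by decide +kernel

def r_2371_0 : chkL rootF engF2 tA tA sA_307 sA_307 4 F_2371 [(511, 0, 0)]
    0x121cc60e80f0cc33 = true := by
  decide +kernel

theorem f_2371 (h : TabsF) : FrameF repsF 307 F_2371.f :=
  frame_of rfl c_2371 (runs_of engOK r_2371_0) (by decide +kernel) h.1 h.1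

def F_2372 : FrX :=
  ⟨0x80080a000804040e000021010020010000020408a0001001100024800480202000080c0040002c121011000108002408004008002010000222040c08400,
    0xa6, 1, 0x43768490a3, 5,
    [(0xa6, 1), (0x205396a8, 4), (0x10548796, 4), (0x214396a7, 4), (0x205396a8, 4), (0x10548796, 4)],
    [(0x43768490a3, 5), (0x658392a7, 4), (0x40768591, 4), (0x406587a3, 4), (0x40768591, 4), (0x215387a6, 4), (0x407392a8, 4), (0x406587a3, 4), (0x407392a8, 4), (0x758691a3, 4), (0x406587a3, 4), (0x215387a6, 4)]⟩

def c_2372 : frmChk tA tB F_2372 = true := by decide +kernel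

def r_2372_0 : chkL rootF engF2 tA tB sA_307 sB_307 4 F_2372 [(511, 0, 0)]
    0x4e89a04b3a26812e688b2689a22c9a06330e0d0da618962c50d4306c3a = true := by
  decide +kernel

theorem f_2372 (h : TabsF) : FrameF repsF 307 F_2372.f :=
  frame_of rfl c_2372 (runs_of engOK r_2372_0) (by decide +kernel) h.1 h.2

def F_2373 : FrX :=
  ⟨0x1001040012008080000e00840800410008101000040503000120010040002022008202002100200b00004002010800410014000405200000444001213000,
    0xa3, 1, 0x21324150607486a0, 8,
    [(0xa3, 1), (0x207584a6, 4), (0x10547693, 4), (0x647593a8, 4), (0x10547693, 4), (0x216485a7, 4), (0x208693a4, 4), (0x647593a8, 4), (0x208693a4, 4), (0x106574a8, 4), (0x647593a8, 4), (0x216485a7, 4)],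
    [(0x21324150607486a0, 8), (0x108596a3, 4), (0x527096a4, 4), (0x43718296, 4), (0x108596a3, 4), (0x527096a4, 4)]⟩

def c_2373 : frmChk tB tA F_2373 = true := by decide +kernel

def r_2373_0 : chkL rootF engF2 tB tA sB_307 sA_307 4 F_2373 [(511, 0, 0)]
    0x49a1544d = true := by
  decide +kernel

theorem f_2373 (h : TabsF) : FrameF repsF 307 F_2373.f :=
  frame_of rfl c_2373 (runs_of engOK r_2373_0) (by decide +kernel) h.2 h.1

def F_2374 : FrX :=
  ⟨0x1001040012008080000e0084080041000810100006000002d000208004180084040000100100110820028208400020022000a08200004001110402200104,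
    0xa3, 1, 0x1021307683a4, 6,
    [(0xa3, 1), (0x207584a6, 4), (0x10547693, 4), (0x647593a8, 4), (0x10547693, 4), (0x216485a7, 4), (0x208693a4, 4), (0x647593a8, 4), (0x208693a4, 4), (0x106574a8, 4), (0x647593a8, 4), (0x216485a7, 4)],
    [(0x1021307683a4, 6), (0x306587a1, 4), (0x327694a5, 4), (0x658194a7, 4), (0x327694a5, 4), (0x205186a7, 4), (0x307194a8, 4), (0x658194a7, 4), (0x307194a8, 4), (0x327581a6, 4), (0x658194a7, 4), (0x205186a7, 4)]⟩

def c_2374 : frmChk tB tB F_2374 = true := by decide +kernel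

def r_2374_0 : chkL rootF engF2 tB tB sB_307 sB_307 4 F_2374 [(511, 0, 0)]
    0x40f05c3312c3c = true := by
  decide +kernel

theorem f_2374 (h : TabsF) : FrameF repsF 307 F_2374.f :=
  frame_of rfl c_2374 (runs_of engOK r_2374_0) (by decide +kernel) h.2 h.2

def F_2375 : FrX :=
  ⟨0x80080a000804040e0000210100200100000204089002000804800800881000101100049000003020081a00002120100204104808000800c040800820040,
    0xa6, 1, 0x3042548691a3, 6,
    [(0xa6, 1), (0x205396a8, 4), (0x10548796, 4), (0x214396a7, 4), (0x205396a8, 4), (0x10548796, 4)],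
    [(0x3042548691a3, 6), (0x436572a8, 4), (0x10528793, 4), (0x107285a6, 4), (0x10528793, 4), (0x628594a7, 4), (0x104386a5, 4), (0x107285a6, 4), (0x104386a5, 4), (0x758293a6, 4), (0x107285a6, 4), (0x628594a7, 4)]⟩

def c_2375 : frmChk tA tB F_2375 = true := by decide +kernel

def r_2375_0 : chkL rootF engF2 tA tB sA_307 sB_307 4 F_2375 [(511, 0, 0)]
    0x453236298b264b820714e260cc2e0cc0f14c39 = true := by
  decide +kernel

theorem f_2375 (h : TabsF) : FrameF repsF 307 F_2375.f :=
  frame_of rfl c_2375 (runs_of engOK r_2375_0) (by decide +kernel) h.1 h.2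

theorem cl_307 (h : TabsF) : ∀ f ∈ fr_307, FrameF repsF 307 f :=
  List.forall_mem_cons.2 ⟨f_2348 h, List.forall_mem_cons.2 ⟨f_2349 h, List.forall_mem_cons.2 ⟨f_2350 h, List.forall_mem_cons.2 ⟨f_2351 h, List.forall_mem_cons.2 ⟨f_2352 h, List.forall_mem_cons.2 ⟨f_2353 h, List.forall_mem_cons.2 ⟨f_2354 h, List.forall_mem_cons.2 ⟨f_2355 h, List.forall_mem_cons.2 ⟨f_2356 h, List.forall_mem_cons.2 ⟨f_2357 h, List.forall_mem_cons.2 ⟨f_2358 h, List.forall_mem_cons.2 ⟨f_2359 h, List.forall_mem_cons.2 ⟨f_2360 h, List.forall_mem_cons.2 ⟨f_2361 h, List.forall_mem_cons.2 ⟨f_2362 h, List.forall_mem_cons.2 ⟨f_2363 h, List.forall_mem_cons.2 ⟨f_2364 h, List.forall_mem_cons.2 ⟨f_2365 h, List.forall_mem_cons.2 ⟨f_2366 h, List.forall_mem_cons.2 ⟨f_2367 h, List.forall_mem_cons.2 ⟨f_2368 h, List.forall_mem_cons.2 ⟨f_2369 h, List.forall_mem_cons.2 ⟨f_2370 h, List.forall_mem_cons.2 ⟨f_2371 h, List.forall_mem_cons.2 ⟨f_2372 h, List.forall_mem_cons.2 ⟨f_2373 h, List.forall_mem_cons.2 ⟨f_2374 h, List.forall_mem_cons.2 ⟨f_2375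 h,
    fun _ h0 => absurd h0 List.not_mem_nil⟩⟩⟩⟩⟩⟩⟩⟩⟩⟩⟩⟩⟩⟩⟩⟩⟩⟩⟩⟩⟩⟩⟩⟩⟩⟩⟩⟩

def F_2376 : FrX :=
  ⟨0x80080a000804040e000021010020010000020408a000040420c02400041000800040404004800a088080800300420000204008022002801500202220000,
    0xa6, 1, 0x103041527292a8, 7,
    [(0xa6, 1), (0x205396a8, 4), (0x10548796, 4), (0x214396a7, 4), (0x205396a8, 4), (0x10548796, 4)],
    [(0x103041527292a8, 7), (0x218793a6, 4), (0x204387a5, 4), (0x10658794, 4), (0x218793a6, 4), (0x204387a5, 4)]⟩

def c_2376 : frmChk tA tA F_2376 = true := by decide +kernel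

def r_2376_0 : chkL rootF engF2 tA tA sA_308 sA_308 4 F_2376 [(511, 0, 0)]
    0x417 = true := by
  decide +kernel

theorem f_2376 (h : TabsF) : FrameF repsF 308 F_2376.f :=
  frame_of rfl c_2376 (runs_of engOK r_2376_0) (by decide +kernel) h.1 h.1

def F_2377 : FrX :=
  ⟨0x80080a000804040e0000210100200100000204088104040103800002000008800901400084800081201000002260000204100808041108c002030200000,
    0xa6, 1, 0x4250617598a5, 6,
    [(0xa6, 1), (0x205396a8, 4), (0x10548796, 4), (0x214396a7, 4), (0x205396a8, 4), (0x10548796, 4)],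
    [(0x4250617598a5, 6), (0x548791a3, 4), (0x658790a2, 4), (0x10326487, 4), (0x548791a3, 4), (0x658790a2, 4)]⟩

def c_2377 : frmChk tA tA F_2377 = true := by decide +kernel

def r_2377_0 : chkL rootF engF2 tA tA sA_308 sA_308 4 F_2377 [(511, 0, 0)]
    0x105c5a05c5303c1d0f04e12c4e = true := by
  decide +kernel

theorem f_2377 (h : TabsF) : FrameF repsF 308 F_2377.f :=
  frame_of rfl c_2377 (runs_of engOK r_2377_0) (by decide +kernel) h.1 h.1

def F_2378 : FrX :=
  ⟨0x2002000900044004000e02041000141000800040800402080120004200012101040002120002080080420a0940002000a004220000410200400140080050,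
    0xa3, 1, 0x4065718793a4, 6,
    [(0xa3, 1), (0x208693a5, 4), (0x10548793, 4), (0x217693a4, 4), (0x208693a5, 4), (0x10548793, 4)],
    [(0x4065718793a4, 6), (0x428695a1, 4), (0x307485a6, 4), (0x308691a5, 4), (0x307485a6, 4), (0x617298a5, 4), (0x304251a9, 4), (0x308691a5, 4), (0x304251a9, 4), (0x657491a8, 4), (0x308691a5, 4), (0x617298a5, 4)]⟩

def c_2378 : frmChk tA tB F_2378 = true := by decide +kernel

def r_2378_0 : chkL rootF engF2 tA tB sA_308 sB_308 4 F_2378 [(511, 0, 0)]
    0x478076490b85a0f04e = true := by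
  decide +kernel

theorem f_2378 (h : TabsF) : FrameF repsF 308 F_2378.f :=
  frame_of rfl c_2378 (runs_of engOK r_2378_0) (by decide +kernel) h.1 h.2

def F_2379 : FrX :=
  ⟨0x482000044040440000c2040020009000182040002010900008020010020108200012120002008080040b01080228000204006040002202100104010002,
    0xa0, 1, 0x213040728498a3, 7,
    [(0xa0, 1), (0x538690a2, 4), (0x548790a1, 4), (0x21437690, 4), (0x538690a2, 4), (0x548790a1, 4)],
    [(0x213040728498a3, 7), (0x307496a5, 4), (0x30428591, 4), (0x306172a8, 4), (0x307496a5, 4), (0x30428591, 4)]⟩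

def c_2379 : frmChk tA tA F_2379 = true := by decide +kernel

def r_2379_0 : chkL rootF engF2 tA tA sA_308 sA_308 4 F_2379 [(511, 0, 0)]
    0x1158274a81b0d4358540f0b478 = true := by
  decide +kernel

theorem f_2379 (h : TabsF) : FrameF repsF 308 F_2379.f :=
  frame_of rfl c_2379 (runs_of engOK r_2379_0) (by decide +kernel) h.1 h.1

def F_2380 : FrX :=
  ⟨0x2002000900044004000e0204100014100080004080800026802000011000a2082000001200000480c808044000041040024020808004100044008000c050,
    0xa3, 1, 0x4053608093a3, 6,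
    [(0xa3, 1), (0x208693a5, 4), (0x10548793, 4), (0x217693a4, 4), (0x208693a5, 4), (0x10548793, 4)],
    [(0x4053608093a3, 6), (0x607382a4, 4), (0x30748195, 4), (0x407395a6, 4), (0x30748195, 4), (0x214063a7, 4), (0x648295a0, 4), (0x407395a6, 4), (0x648295a0, 4), (0x437081a6, 4), (0x407395a6, 4), (0x214063a7, 4)]⟩

def c_2380 : frmChk tA tB F_2380 = true := by decide +kernel

def r_2380_0 : chkL rootF engF2 tA tB sA_308 sB_308 4 F_2380 [(511, 0, 0)]
    0x109c332e017 = true := by
  decide +kernel

theorem f_2380 (h : TabsF) : FrameF repsF 308 F_2380.f :=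
  frame_of rfl c_2380 (runs_of engOK r_2380_0) (by decide +kernel) h.1 h.2

def F_2381 : FrX :=
  ⟨0x482000044040440000c2040020009000182040020001042000080804040893000000100400048280041400102219100000006010080000101010808600,
    0xa0, 1, 0x214164738495a8, 7,
    [(0xa0, 1), (0x538690a2, 4), (0x548790a1, 4), (0x21437690, 4), (0x538690a2, 4), (0x548790a1, 4)],
    [(0x214164738495a8, 7), (0x106597a2, 4), (0x406598a3, 4), (0x32416587, 4), (0x106597a2, 4), (0x406598a3, 4)]⟩

def c_2381 : frmChk tA tA F_2381 = true := by decide +kernel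

def r_2381_0 : chkL rootF engF2 tA tA sA_308 sA_308 4 F_2381 [(511, 0, 0)]
    0x4c509c360781e0b81e05c0f03c0f18c0f0cc1e0cc1d = true := by
  decide +kernel

theorem f_2381 (h : TabsF) : FrameF repsF 308 F_2381.f :=
  frame_of rfl c_2381 (runs_of engOK r_2381_0) (by decide +kernel) h.1 h.1

def F_2382 : FrX :=
  ⟨0x482000044040440000c20400200090001820400008082480040801000800882000101200080a0012000810404030000200208282000904040202000042,
    0xa0, 1, 0x213141627183a0, 7,
    [(0xa0, 1), (0x538690a2, 4), (0x548790a1, 4), (0x21437690, 4), (0x538690a2, 4), (0x548790a1, 4)],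
    [(0x213141627183a0, 7), (0x325481a6, 4), (0x415390a7, 4), (0x31548290, 4), (0x415390a7, 4), (0x31527684, 4), (0x218390a6, 4), (0x31548290, 4), (0x218390a6, 4), (0x435182a7, 4), (0x31548290, 4), (0x31527684, 4)]⟩

def c_2382 : frmChk tA tB F_2382 = true := by decide +kernel

def r_2382_0 : chkL rootF engF2 tA tB sA_308 sB_308 4 F_2382 [(511, 0, 0)]
    0x12689a2688b0748b0cc1e70523 = true := by
  decide +kernel

theorem f_2382 (h : TabsF) : FrameF repsF 308 F_2382.f :=
  frame_of rfl c_2382 (runs_of engOK r_2382_0) (by decide +kernel) h.1 h.2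

def F_2383 : FrX :=
  ⟨0x1c21020000040440000020410001010000820408a000110000040011040110000412802100e00400a000110004100801008080012044804040a10000200,
    0x0, 0, 0x54637685, 4,
    [(0x0, 0), (0x205386a9, 4), (0x105487a9, 4), (0x214376a9, 4), (0x205386a9, 4), (0x105487a9, 4)],
    [(0x54637685, 4), (0x207486a9, 4), (0x104385a9, 4), (0x216573a9, 4), (0x207486a9, 4), (0x104385a9, 4)]⟩

def c_2383 : frmChk tA tA F_2383 = true := by decide +kernel

def r_2383_0 : chkL rootF engF2 tA tA sA_308 sA_308 4 F_2383 [(255, 0, 0), (256, 0, 3)]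
    0x41d0e88e = true := by
  decide +kernel

def r_2383_1 : chkL rootF engF2 tA tA sA_308 sA_308 4 F_2383 [(256, 3, 2)]
    0x71805c360d83614c1703c3605ca328c4706d0b194a314c5305c5606c55 = true := by
  decide +kernel

def r_2383_2 : chkL rootF engF2 tA tA sA_308 sA_308 4 F_2383 [(256, 5, 14)]
    0x43581e169484b05e2324c0f = true := by
  decide +kernel

def r_2383_3 : chkL rootF engF2 tA tA sA_308 sA_308 4 F_2383 [(256, 19, 6)]
    0x41703c17264598a5190d47811c0f = true := by
  decide +kernel

def r_2383_4 : chkL rootF engF2 tA tA sA_308 sA_308 4 F_2383 [(256, 25, 3)]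
    0x453 = true := by
  decide +kernel

def r_2383_5 : chkL rootF engF2 tA tA sA_308 sA_308 4 F_2383 [(256, 28, 2)]
    0x5468392c4b11c03e1362a13438c328c5905c9605d0709c2e05c6c = true := by
  decide +kernel

def r_2383_6 : chkL rootF engF2 tA tA sA_308 sA_308 4 F_2383 [(256, 30, 2)]
    0x128c1715859164592945309cc614c9305d1a158c605d3414c2e0b82e1585305c1705c17 = true := by
  decide +kernel

def r_2383_7 : chkL rootF engF2 tA tA sA_308 sA_308 4 F_2383 [(256, 32, 0)]
    0x1 = true := by
  decide +kernel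

theorem f_2383 (h : TabsF) : FrameF repsF 308 F_2383.f :=
  frame_of rfl c_2383 ((runs_of engOK r_2383_0).append ((runs_of engOK r_2383_1).append ((runs_of engOK r_2383_2).append ((runs_of engOK r_2383_3).append ((runs_of engOK r_2383_4).append ((runs_of engOK r_2383_5).append ((runs_of engOK r_2383_6).append (runs_of engOK r_2383_7)))))))) (by decide +kernel) h.1 h.1

def F_2384 : FrX :=
  ⟨0x482000044040440000c2040020009000182040002022020001200008080101810200410020010200800081084001040080084312089002000900010008,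
    0xa0, 1, 0x314362768092a3, 7,
    [(0xa0, 1), (0x538690a2, 4), (0x548790a1, 4), (0x21437690, 4), (0x538690a2, 4), (0x548790a1, 4)],
    [(0x314362768092a3, 7), (0x105298a7, 4), (0x51647283, 4), (0x526471a0, 4), (0x51647283, 4), (0x507193a2, 4), (0x647098a1, 4), (0x526471a0, 4), (0x647098a1, 4), (0x217583a0, 4), (0x526471a0, 4), (0x507193a2, 4)]⟩

def c_2384 : frmChk tA tB F_2384 = true := by decide +kernel

def r_2384_0 : chkL rootF engF2 tA tB sA_308 sB_308 4 F_2384 [(511, 0, 0)]
    0x46503d0703c2b = true := by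
  decide +kernel

theorem f_2384 (h : TabsF) : FrameF repsF 308 F_2384.f :=
  frame_of rfl c_2384 (runs_of engOK r_2384_0) (by decide +kernel) h.1 h.2

def F_2385 : FrX :=
  ⟨0x2002000900044004000e02041000141000800040808001002080a0001022090100010802500600400a000112000000800080080032045000080a00010280,
    0xa3, 1, 0x10304265738198a3, 8,
    [(0xa3, 1), (0x208693a5, 4), (0x10548793, 4), (0x217693a4, 4), (0x208693a5, 4), (0x10548793, 4)],
    [(0x10304265738198a3, 8), (0x437095a6, 4), (0x62708391, 4), (0x517084a2, 4), (0x437095a6, 4), (0x62708391, 4)]⟩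

def c_2385 : frmChk tA tA F_2385 = true := by decide +kernel

def r_2385_0 : chkL rootF engF2 tA tA sA_308 sA_308 4 F_2385 [(511, 0, 0)]
    0x41bc1b060d83a = true := by
  decide +kernel

theorem f_2385 (h : TabsF) : FrameF repsF 308 F_2385.f :=
  frame_of rfl c_2385 (runs_of engOK r_2385_0) (by decide +kernel) h.1 h.1

def F_2386 : FrX :=
  ⟨0x482000044040440000c2040020009000182040001081020001020800020450010080420001040582080200202000408044808000450000001022020410,
    0xa0, 1, 0x314352637395a3, 7,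
    [(0xa0, 1), (0x538690a2, 4), (0x548790a1, 4), (0x21437690, 4), (0x538690a2, 4), (0x548790a1, 4)],
    [(0x314352637395a3, 7), (0x508196a4, 4), (0x30647291, 4), (0x417296a8, 4), (0x30647291, 4), (0x415398a6, 4), (0x507284a1, 4), (0x417296a8, 4), (0x507284a1, 4), (0x306194a8, 4), (0x417296a8, 4), (0x415398a6, 4)]⟩

def c_2386 : frmChk tA tB F_2386 = true := by decide +kernel

def r_2386_0 : chkL rootF engF2 tA tB sA_308 sB_308 4 F_2386 [(511, 0, 0)]
    0x4172b0360d83a = true := by
  decide +kernel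

theorem f_2386 (h : TabsF) : FrameF repsF 308 F_2386.f :=
  frame_of rfl c_2386 (runs_of engOK r_2386_0) (by decide +kernel) h.1 h.2

def F_2387 : FrX :=
  ⟨0x2002000900044004000e020410001410008000408100000280810041010084080600010008080108210004044000081101000800808808200408020c2080,
    0xa3, 1, 0x1052647594a3, 6,
    [(0xa3, 1), (0x208693a5, 4), (0x10548793, 4), (0x217693a4, 4), (0x208693a5, 4), (0x10548793, 4)],
    [(0x1052647594a3, 6), (0x516384a7, 4), (0x10638297, 4), (0x425063a9, 4), (0x516384a7, 4), (0x10638297, 4)]⟩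

def c_2387 : frmChk tA tA F_2387 = true := by decide +kernel

def r_2387_0 : chkL rootF engF2 tA tA sA_308 sA_308 4 F_2387 [(511, 0, 0)]
    0x43312c4d2685a0f017a1874 = true := by
  decide +kernel

theorem f_2387 (h : TabsF) : FrameF repsF 308 F_2387.f :=
  frame_of rfl c_2387 (runs_of engOK r_2387_0) (by decide +kernel) h.1 h.1

def F_2388 : FrX :=
  ⟨0x2002000900044004000e02041000141000800040800400882008400010410100140028010100010204040101010008000201823011088008004110008004,
    0xa3, 1, 0x10204162718592a0, 8,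
    [(0xa3, 1), (0x208693a5, 4), (0x10548793, 4), (0x217693a4, 4), (0x208693a5, 4), (0x10548793, 4)],
    [(0x10204162718592a0, 8), (0x315084a9, 4), (0x416280a7, 4), (0x10536284, 4), (0x416280a7, 4), (0x10438597, 4), (0x305162a9, 4), (0x10536284, 4), (0x305162a9, 4), (0x405381a7, 4), (0x10536284, 4), (0x10438597, 4)]⟩

def c_2388 : frmChk tA tB F_2388 = true := by decide +kernel

def r_2388_0 : chkL rootF engF2 tA tB sA_308 sB_308 4 F_2388 [(511, 0, 0)]
    0x10781e0d43c = true := by
  decide +kernel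

theorem f_2388 (h : TabsF) : FrameF repsF 308 F_2388.f :=
  frame_of rfl c_2388 (runs_of engOK r_2388_0) (by decide +kernel) h.1 h.2

def F_2389 : FrX :=
  ⟨0x482000044040440000c20400200090001820400008808800200001820001808048200021010001100002010022004203000804400088085000180000c2,
    0xa0, 1, 0x3250618297a1, 6,
    [(0xa0, 1), (0x538690a2, 4), (0x548790a1, 4), (0x21437690, 4), (0x538690a2, 4), (0x548790a1, 4)],
    [(0x3250618297a1, 6), (0x21438590, 4), (0x407691a5, 4), (0x32417690, 4), (0x407691a5, 4), (0x304192a8, 4), (0x31427685, 4), (0x32417690, 4), (0x31427685, 4), (0x103294a5, 4), (0x32417690, 4), (0x304192a8, 4)]⟩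

def c_2389 : frmChk tA tB F_2389 = true := by decide +kernel

def r_2389_0 : chkL rootF engF2 tA tB sA_308 sB_308 4 F_2389 [(511, 0, 0)]
    0x45906c3525427 = true := by
  decide +kernel

theorem f_2389 (h : TabsF) : FrameF repsF 308 F_2389.f :=
  frame_of rfl c_2389 (runs_of engOK r_2389_0) (by decide +kernel) h.1 h.2

def F_2390 : FrX :=
  ⟨0x80080a000804040e0000210100200100000204088220000208089000000a208004042002400004010800801080202420001000441280400100864200200,
    0xa6, 1, 0x105063738293a1, 7,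
    [(0xa6, 1), (0x205396a8, 4), (0x10548796, 4), (0x214396a7, 4), (0x205396a8, 4), (0x10548796, 4)],
    [(0x105063738293a1, 7), (0x32708591, 4), (0x416270a5, 4), (0x637094a8, 4), (0x32708591, 4), (0x416270a5, 4)]⟩

def c_2390 : frmChk tA tA F_2390 = true := by decide +kernel

def r_2390_0 : chkL rootF engF2 tA tA sA_308 sA_308 4 F_2390 [(511, 0, 0)]
    0x42709c275842709cd11981b06c8d1390b60c170e80f19a2c8c6318c6b0 = true := by
  decide +kernel

theorem f_2390 (h : TabsF) : FrameF repsF 308 F_2390.f :=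
  frame_of rfl c_2390 (runs_of engOK r_2390_0) (by decide +kernel) h.1 h.1

def F_2391 : FrX :=
  ⟨0x482000044040440000c2040020009000182040020000448000100110042021400800100030440410800800089002240442002100200400004020008404,
    0xa0, 1, 0x4161708496a2, 6,
    [(0xa0, 1), (0x538690a2, 4), (0x548790a1, 4), (0x21437690, 4), (0x538690a2, 4), (0x548790a1, 4)],
    [(0x4161708496a2, 6), (0x508193a7, 4), (0x42768590, 4), (0x31425098, 4), (0x42768590, 4), (0x305198a6, 4), (0x428391a7, 4), (0x31425098, 4), (0x428391a7, 4), (0x31768095, 4), (0x31425098, 4), (0x305198a6, 4)]⟩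

def c_2391 : frmChk tA tB F_2391 = true := by decide +kernel

def r_2391_0 : chkL rootF engF2 tA tB sA_308 sB_308 4 F_2391 [(511, 0, 0)]
    0x1 = true := by
  decide +kernel

theorem f_2391 (h : TabsF) : FrameF repsF 308 F_2391.f :=
  frame_of rfl c_2391 (runs_of engOK r_2391_0) (by decide +kernel) h.1 h.2

def F_2392 : FrX :=
  ⟨0x2002000900044004000e02041000141000800040810000018110000208202108100300002008004810800209000001022100800420028044000808010290,
    0xa3, 1, 0x21607495a3, 5,
    [(0xa3, 1), (0x208693a5, 4), (0x10548793, 4), (0x217693a4, 4), (0x208693a5, 4), (0x10548793, 4)],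
    [(0x21607495a3, 5), (0x536180a9, 4), (0x53628497, 4), (0x214053a7, 4), (0x536180a9, 4), (0x53628497, 4)]⟩

def c_2392 : frmChk tA tA F_2392 = true := by decide +kernel

def r_2392_0 : chkL rootF engF2 tA tA sA_308 sA_308 4 F_2392 [(511, 0, 0)]
    0x40f0d82b0d43c05c170f1291b0e40d83c0f21c42c4d2a52909c0f1d00f09c171342e03c3c0d84d = true := by
  decide +kernel

theorem f_2392 (h : TabsF) : FrameF repsF 308 F_2392.f :=
  frame_of rfl c_2392 (runs_of engOK r_2392_0) (by decide +kernel) h.1 h.1

def F_2393 : FrX :=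
  ⟨0x80080a000804040e000021010020010000020408808810000820228002400040004010a000402000809000010840010c084408000410120001002c40080,
    0xa6, 1, 0x213151648092a0, 7,
    [(0xa6, 1), (0x205396a8, 4), (0x10548796, 4), (0x214396a7, 4), (0x205396a8, 4), (0x10548796, 4)],
    [(0x213151648092a0, 7), (0x426073a9, 4), (0x637481a5, 4), (0x20647381, 4), (0x637481a5, 4), (0x30647295, 4), (0x406281a9, 4), (0x20647381, 4), (0x406281a9, 4), (0x204376a5, 4), (0x20647381, 4), (0x30647295, 4)]⟩

def c_2393 : frmChk tA tB F_2393 = true := by decide +kernel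

def r_2393_0 : chkL rootF engF2 tA tB sA_308 sB_308 4 F_2393 [(511, 0, 0)]
    0x10f01d = true := by
  decide +kernel

theorem f_2393 (h : TabsF) : FrameF repsF 308 F_2393.f :=
  frame_of rfl c_2393 (runs_of engOK r_2393_0) (by decide +kernel) h.1 h.2

def F_2394 : FrX :=
  ⟨0x1c40440000080810000008400804100001010840600020800000820201800800400284060404082080040048022200100014205000100040110a0220000,
    0x0, 0, 0x21537586, 4,
    [(0x0, 0), (0x20637584, 4), (0x105476a9, 4), (0x647583a9, 4), (0x105476a9, 4), (0x21647385, 4), (0x204386a9, 4), (0x647583a9, 4), (0x204386a9, 4), (0x10657483, 4), (0x647583a9, 4), (0x21647385, 4)],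
    [(0x21537586, 4), (0x107586a9, 4), (0x206374a9, 4), (0x215483a9, 4), (0x107586a9, 4), (0x206374a9, 4)]⟩

def c_2394 : frmChk tB tA F_2394 = true := by decide +kernel

def r_2394_0 : chkL rootF engF2 tB tA sB_308 sA_308 4 F_2394 [(255, 0, 0), (256, 0, 14)]
    0x1 = true := by
  decide +kernel

def r_2394_1 : chkL rootF engF2 tB tA sB_308 sA_308 4 F_2394 [(256, 14, 10)]
    0x117035 = true := by
  decide +kernel

def r_2394_2 : chkL rootF engF2 tB tA sB_308 sA_308 4 F_2394 [(256, 24, 0)]
    0x1 = true := by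
  decide +kernel

theorem f_2394 (h : TabsF) : FrameF repsF 308 F_2394.f :=
  frame_of rfl c_2394 ((runs_of engOK r_2394_0).append ((runs_of engOK r_2394_1).append (runs_of engOK r_2394_2))) (by decide +kernel) h.2 h.1

def F_2395 : FrX :=
  ⟨0x1001040012008080000e008408004100081010000440200800600020200800c4140008004020010208004800800800422100800204083000081002221100,
    0xa3, 1, 0x2065738690a3, 6,
    [(0xa3, 1), (0x207584a6, 4), (0x10547693, 4), (0x647593a8, 4), (0x10547693, 4), (0x216485a7, 4), (0x208693a4, 4), (0x647593a8, 4), (0x208693a4, 4), (0x106574a8, 4), (0x647593a8, 4), (0x216485a7, 4)],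
    [(0x2065738690a3, 6), (0x546390a8, 4), (0x64728391, 4), (0x637284a5, 4), (0x64728391, 4), (0x106584a3, 4), (0x728590a4, 4), (0x637284a5, 4), (0x728590a4, 4), (0x438691a5, 4), (0x637284a5, 4), (0x106584a3, 4)]⟩

def c_2395 : frmChk tB tB F_2395 = true := by decide +kernel

def r_2395_0 : chkL rootF engF2 tB tB sB_308 sB_308 4 F_2395 [(511, 0, 0)]
    0x44e = true := by
  decide +kernel

theorem f_2395 (h : TabsF) : FrameF repsF 308 F_2395.f :=
  frame_of rfl c_2395 (runs_of engOK r_2395_0) (by decide +kernel) h.2 h.2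

def F_2396 : FrX :=
  ⟨0x1001040012008080000e00840800410008101000060000081100050021020022048008006040408208004804800020010001801500000440014080200084,
    0xa3, 1, 0x213042528194a6, 7,
    [(0xa3, 1), (0x207584a6, 4), (0x10547693, 4), (0x647593a8, 4), (0x10547693, 4), (0x216485a7, 4), (0x208693a4, 4), (0x647593a8, 4), (0x208693a4, 4), (0x106574a8, 4), (0x647593a8, 4), (0x216485a7, 4)],
    [(0x213042528194a6, 7), (0x405361a2, 4), (0x61728394, 4), (0x618590a7, 4), (0x405361a2, 4), (0x61728394, 4)]⟩

def c_2396 : frmChk tB tA F_2396 = true := by decide +kernel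

def r_2396_0 : chkL rootF engF2 tB tA sB_308 sA_308 4 F_2396 [(511, 0, 0)]
    0x41703c0f09c2b09c1d265c207417 = true := by
  decide +kernel

theorem f_2396 (h : TabsF) : FrameF repsF 308 F_2396.f :=
  frame_of rfl c_2396 (runs_of engOK r_2396_0) (by decide +kernel) h.2 h.1

def F_2397 : FrX :=
  ⟨0x600020801080810000c0040180410101001004000a00100800101400020a020080024040204000080842001020101004400200109000901002004404a0,
    0xa0, 1, 0x203043627296a3, 7,
    [(0xa0, 1), (0x637584a2, 4), (0x547690a1, 4), (0x64758390, 4), (0x547690a1, 4), (0x21647385, 4), (0x438690a2, 4), (0x64758390, 4), (0x438690a2, 4), (0x657483a1, 4), (0x64758390, 4), (0x21647385, 4)],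
    [(0x203043627296a3, 7), (0x657382a9, 4), (0x31405296, 4), (0x406592a8, 4), (0x31405296, 4), (0x718592a6, 4), (0x407398a2, 4), (0x406592a8, 4), (0x407398a2, 4), (0x316295a8, 4), (0x406592a8, 4), (0x718592a6, 4)]⟩

def c_2397 : frmChk tB tB F_2397 = true := by decide +kernel

def r_2397_0 : chkL rootF engF2 tB tB sB_308 sB_308 4 F_2397 [(511, 0, 0)]
    0x40f = true := by
  decide +kernel

theorem f_2397 (h : TabsF) : FrameF repsF 308 F_2397.f :=
  frame_of rfl c_2397 (runs_of engOK r_2397_0) (by decide +kernel) h.2 h.2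

def F_2398 : FrX :=
  ⟨0x2002000900044004000e0204100014100080004080080101400240010101010001820400408400a000882206000004800201801030000800500210000201,
    0xa3, 1, 0x21637493a1, 5,
    [(0xa3, 1), (0x208693a5, 4), (0x10548793, 4), (0x217693a4, 4), (0x208693a5, 4), (0x10548793, 4)],
    [(0x21637493a1, 5), (0x10548793, 4), (0x436275a0, 4), (0x54627398, 4), (0x436275a0, 4), (0x738594a1, 4), (0x10628397, 4), (0x54627398, 4), (0x10628397, 4), (0x537498a0, 4), (0x54627398, 4), (0x738594a1, 4)]⟩

def c_2398 : frmChk tA tB F_2398 = true := by decide +kernel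

def r_2398_0 : chkL rootF engF2 tA tB sA_308 sB_308 4 F_2398 [(511, 0, 0)]
    0x427078170e455 = true := by
  decide +kernel

theorem f_2398 (h : TabsF) : FrameF repsF 308 F_2398.f :=
  frame_of rfl c_2398 (runs_of engOK r_2398_0) (by decide +kernel) h.1 h.2

def F_2399 : FrX :=
  ⟨0x80080a000804040e0000210100200100000204089002000140100820a004000031010001004021008008000808042801024040022081102028080800080,
    0xa6, 1, 0x10415363728797a0, 8,
    [(0xa6, 1), (0x205396a8, 4), (0x10548796, 4), (0x214396a7, 4), (0x205396a8, 4), (0x10548796, 4)],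
    [(0x10415363728797a0, 8), (0x526381a7, 4), (0x308192a4, 4), (0x60748195, 4), (0x526381a7, 4), (0x308192a4, 4)]⟩

def c_2399 : frmChk tA tA F_2399 = true := by decide +kernel

def r_2399_0 : chkL rootF engF2 tA tA sA_308 sA_308 4 F_2399 [(511, 0, 0)]
    0x4c309c6c328ca03c6a074d107472 = true := by
  decide +kernel

theorem f_2399 (h : TabsF) : FrameF repsF 308 F_2399.f :=
  frame_of rfl c_2399 (runs_of engOK r_2399_0) (by decide +kernel) h.1 h.1

def F_2400 : FrX :=
  ⟨0x482000044040440000c2040020009000182040010080080101000808020101184800000804040410000220408004804081000110050102010a00040084,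
    0xa0, 1, 0x4052658598a4, 6,
    [(0xa0, 1), (0x538690a2, 4), (0x548790a1, 4), (0x21437690, 4), (0x538690a2, 4), (0x548790a1, 4)],
    [(0x4052658598a4, 6), (0x325487a9, 4), (0x416072a8, 4), (0x608793a2, 4), (0x416072a8, 4), (0x517398a2, 4), (0x546092a3, 4), (0x608793a2, 4), (0x546092a3, 4), (0x418293a7, 4), (0x608793a2, 4), (0x517398a2, 4)]⟩

def c_2400 : frmChk tA tB F_2400 = true := by decide +kernel

def r_2400_0 : chkL rootF engF2 tA tB sA_308 sB_308 4 F_2400 [(511, 0, 0)]
    0x4c903c270ac2b0ae13 = true := by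
  decide +kernel

theorem f_2400 (h : TabsF) : FrameF repsF 308 F_2400.f :=
  frame_of rfl c_2400 (runs_of engOK r_2400_0) (by decide +kernel) h.1 h.2

def F_2401 : FrX :=
  ⟨0x1001040012008080000e00840800410008101000040840100090100101000184004108004020400440022800c40004010100000b02020844010000220004,
    0xa3, 1, 0x103253647092a0, 7,
    [(0xa3, 1), (0x207584a6, 4), (0x10547693, 4), (0x647593a8, 4), (0x10547693, 4), (0x216485a7, 4), (0x208693a4, 4), (0x647593a8, 4), (0x208693a4, 4), (0x106574a8, 4), (0x647593a8, 4), (0x216485a7, 4)],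
    [(0x103253647092a0, 7), (0x527384a9, 4), (0x627381a0, 4), (0x41657390, 4), (0x527384a9, 4), (0x627381a0, 4)]⟩

def c_2401 : frmChk tB tA F_2401 = true := by decide +kernel

def r_2401_0 : chkL rootF engF2 tB tA sB_308 sA_308 4 F_2401 [(511, 0, 0)]
    0x6290ad94924650d41d0ac4ea320e = true := by
  decide +kernel

theorem f_2401 (h : TabsF) : FrameF repsF 308 F_2401.f :=
  frame_of rfl c_2401 (runs_of engOK r_2401_0) (by decide +kernel) h.2 h.1

def F_2402 : FrX :=
  ⟨0x600020801080810000c0040180410101001004001200028000030040009404024000801200020042804300400201240080080110200800000809002084,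
    0xa0, 1, 0x30548293a6, 5,
    [(0xa0, 1), (0x637584a2, 4), (0x547690a1, 4), (0x64758390, 4), (0x547690a1, 4), (0x21647385, 4), (0x438690a2, 4), (0x64758390, 4), (0x438690a2, 4), (0x657483a1, 4), (0x64758390, 4), (0x21647385, 4)],
    [(0x30548293a6, 5), (0x527483a9, 4), (0x315460a7, 4), (0x607492a5, 4), (0x315460a7, 4), (0x428197a5, 4), (0x608395a2, 4), (0x607492a5, 4), (0x608395a2, 4), (0x317592a4, 4), (0x607492a5, 4), (0x428197a5, 4)]⟩

def c_2402 : frmChk tB tB F_2402 = true := by decide +kernel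

def r_2402_0 : chkL rootF engF2 tB tB sB_308 sB_308 4 F_2402 [(511, 0, 0)]
    0x141e0d = true := by
  decide +kernel

theorem f_2402 (h : TabsF) : FrameF repsF 308 F_2402.f :=
  frame_of rfl c_2402 (runs_of engOK r_2402_0) (by decide +kernel) h.2 h.2

def F_2403 : FrX :=
  ⟨0x80080a000804040e000021010020010000020408a0001001100400420441000004824000048009020030200188001140004010006000808022042408000,
    0xa6, 1, 0x20314052708798a3, 8,
    [(0xa6, 1), (0x205396a8, 4), (0x10548796, 4), (0x214396a7, 4), (0x205396a8, 4), (0x10548796, 4)],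
    [(0x20314052708798a3, 8), (0x758092a6, 4), (0x20417386, 4), (0x416280a9, 4), (0x20417386, 4), (0x536290a8, 4), (0x417596a2, 4), (0x416280a9, 4), (0x417596a2, 4), (0x607382a9, 4), (0x416280a9, 4), (0x536290a8, 4)]⟩

def c_2403 : frmChk tA tB F_2403 = true := by decide +kernel

def r_2403_0 : chkL rootF engF2 tA tB sA_308 sB_308 4 F_2403 [(511, 0, 0)]
    0x10f03a1385312c2e = true := by
  decide +kernel

theorem f_2403 (h : TabsF) : FrameF repsF 308 F_2403.f :=
  frame_of rfl c_2403 (runs_of engOK r_2403_0) (by decide +kernel) h.1 h.2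

theorem cl_308 (h : TabsF) : ∀ f ∈ fr_308, FrameF repsF 308 f :=
  List.forall_mem_cons.2 ⟨f_2376 h, List.forall_mem_cons.2 ⟨f_2377 h, List.forall_mem_cons.2 ⟨f_2378 h, List.forall_mem_cons.2 ⟨f_2379 h, List.forall_mem_cons.2 ⟨f_2380 h, List.forall_mem_cons.2 ⟨f_2381 h, List.forall_mem_cons.2 ⟨f_2382 h, List.forall_mem_cons.2 ⟨f_2383 h, List.forall_mem_cons.2 ⟨f_2384 h, List.forall_mem_cons.2 ⟨f_2385 h, List.forall_mem_cons.2 ⟨f_2386 h, List.forall_mem_cons.2 ⟨f_2387 h, List.forall_mem_cons.2 ⟨f_2388 h, List.forall_mem_cons.2 ⟨f_2389 h, List.forall_mem_cons.2 ⟨f_2390 h, List.forall_mem_cons.2 ⟨f_2391 h, List.forall_mem_cons.2 ⟨f_2392 h, List.forall_mem_cons.2 ⟨f_2393 h, List.forall_mem_cons.2 ⟨f_2394 h, List.forall_mem_cons.2 ⟨f_2395 h, List.forall_mem_cons.2 ⟨f_2396 h, List.forall_mem_cons.2 ⟨f_2397 h, List.forall_mem_cons.2 ⟨f_2398 h, List.forall_mem_cons.2 ⟨f_2399 h, List.forall_mem_cons.2 ⟨f_2400 h, List.forall_mem_cons.2 ⟨f_2401 h, List.forall_mem_cons.2 ⟨f_2402 h, List.forall_mem_cons.2 ⟨f_2403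 h,
    fun _ h0 => absurd h0 List.not_mem_nil⟩⟩⟩⟩⟩⟩⟩⟩⟩⟩⟩⟩⟩⟩⟩⟩⟩⟩⟩⟩⟩⟩⟩⟩⟩⟩⟩⟩

def F_2404 : FrX :=
  ⟨0x80080a000804040e0000210100200100000204088201020401008010080200200108404840020812001800001221004020060a01000020a002005080000,
    0xa6, 1, 0x30415160708392a5, 8,
    [(0xa6, 1), (0x205396a8, 4), (0x10548796, 4), (0x214396a7, 4), (0x205396a8, 4), (0x10548796, 4)],
    [(0x30415160708392a5, 8), (0x304297a8, 4), (0x426075a1, 4), (0x42638195, 4), (0x304297a8, 4), (0x426075a1, 4)]⟩

def c_2404 : frmChk tA tA F_2404 = true := by decide +kernel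

def r_2404_0 : chkL rootF engF2 tA tA sA_309 sA_309 4 F_2404 [(511, 0, 0)]
    0x11544b32651 = true := by
  decide +kernel

theorem f_2404 (h : TabsF) : FrameF repsF 309 F_2404.f :=
  frame_of rfl c_2404 (runs_of engOK r_2404_0) (by decide +kernel) h.1 h.1

def F_2405 : FrX :=
  ⟨0x80080a000804040e0000210100200100000204088104040100840002084008000901401004002100043080012100100200400a0204c00081020100c0000,
    0xa6, 1, 0x21325260718491a5, 8,
    [(0xa6, 1), (0x205396a8, 4), (0x10548796, 4), (0x214396a7, 4), (0x205396a8, 4), (0x10548796, 4)],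
    [(0x21325260718491a5, 8), (0x406573a1, 4), (0x427396a8, 4), (0x20738195, 4), (0x406573a1, 4), (0x427396a8, 4)]⟩

def c_2405 : frmChk tA tA F_2405 = true := by decide +kernel

def r_2405_0 : chkL rootF engF2 tA tA sA_309 sA_309 4 F_2405 [(511, 0, 0)]
    0x42b1647882d916604d1541705cca1545531455 = true := by
  decide +kernel

theorem f_2405 (h : TabsF) : FrameF repsF 309 F_2405.f :=
  frame_of rfl c_2405 (runs_of engOK r_2405_0) (by decide +kernel) h.1 h.1

def F_2406 : FrX :=
  ⟨0x2002000900044004000e020410001410008000408008010880a000410001210120000021002008100042600040100000a0840080206102004000008a4040,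
    0xa3, 1, 0x10405162a3, 5,
    [(0xa3, 1), (0x208693a5, 4), (0x10548793, 4), (0x217693a4, 4), (0x208693a5, 4), (0x10548793, 4)],
    [(0x10405162a3, 5), (0x648293a0, 4), (0x10548793, 4), (0x657293a1, 4), (0x648293a0, 4), (0x10548793, 4)]⟩

def c_2406 : frmChk tA tA F_2406 = true := by decide +kernel

def r_2406_0 : chkL rootF engF2 tA tA sA_309 sA_309 4 F_2406 [(511, 0, 0)]
    0x51509c271b01b03f44918651702e06c1b = true := by
  decide +kernel

theorem f_2406 (h : TabsF) : FrameF repsF 309 F_2406.f :=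
  frame_of rfl c_2406 (runs_of engOK r_2406_0) (by decide +kernel) h.1 h.1

def F_2407 : FrX :=
  ⟨0x482000044040440000c2040020009000182040002012040000900810080402008080410080004800c0000450301000201000a008100600700200800001,
    0xa0, 1, 0x314260748691a6, 7,
    [(0xa0, 1), (0x538690a2, 4), (0x548790a1, 4), (0x21437690, 4), (0x538690a2, 4), (0x548790a1, 4)],
    [(0x314260748691a6, 7), (0x526470a1, 4), (0x758396a2, 4), (0x105283a7, 4), (0x758396a2, 4), (0x215094a7, 4), (0x647183a0, 4), (0x105283a7, 4), (0x647183a0, 4), (0x107296a5, 4), (0x105283a7, 4), (0x215094a7, 4)]⟩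

def c_2407 : frmChk tA tB F_2407 = true := by decide +kernel

def r_2407_0 : chkL rootF engF2 tA tB sA_309 sB_309 4 F_2407 [(511, 0, 0)]
    0x42b0cc4b82c3a = true := by
  decide +kernel

theorem f_2407 (h : TabsF) : FrameF repsF 309 F_2407.f :=
  frame_of rfl c_2407 (runs_of engOK r_2407_0) (by decide +kernel) h.1 h.2

def F_2408 : FrX :=
  ⟨0x2002000900044004000e02041000141000800040810000081108004060810041200008008008208220100422010020040201808010008008004220008084,
    0xa3, 1, 0x32638696a2, 5,
    [(0xa3, 1), (0x208693a5, 4), (0x10548793, 4), (0x217693a4, 4), (0x208693a5, 4), (0x10548793, 4)],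
    [(0x32638696a2, 5), (0x427596a0, 4), (0x10548397, 4), (0x62758394, 4), (0x10548397, 4), (0x527694a1, 4), (0x648392a0, 4), (0x62758394, 4), (0x648392a0, 4), (0x10627495, 4), (0x62758394, 4), (0x527694a1, 4)]⟩

def c_2408 : frmChk tA tB F_2408 = true := by decide +kernel

def r_2408_0 : chkL rootF engF2 tA tB sA_309 sB_309 4 F_2408 [(511, 0, 0)]
    0x10acc503c1705c33 = true := by
  decide +kernel

theorem f_2408 (h : TabsF) : FrameF repsF 309 F_2408.f :=
  frame_of rfl c_2408 (runs_of engOK r_2408_0) (by decide +kernel) h.1 h.2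

def F_2409 : FrX :=
  ⟨0x482000044040440000c204002000900018204002000400280008080408018a100020000400049010040031082008108110002010080082100000900201,
    0xa0, 1, 0x203043536292a3, 7,
    [(0xa0, 1), (0x538690a2, 4), (0x548790a1, 4), (0x21437690, 4), (0x538690a2, 4), (0x548790a1, 4)],
    [(0x203043536292a3, 7), (0x658093a4, 4), (0x31426587, 4), (0x657091a2, 4), (0x658093a4, 4), (0x31426587, 4)]⟩

def c_2409 : frmChk tA tA F_2409 = true := by decide +kernel

def r_2409_0 : chkL rootF engF2 tA tA sA_309 sA_309 4 F_2409 [(511, 0, 0)]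
    0x14c8b2198361c8470b83a = true := by
  decide +kernel

theorem f_2409 (h : TabsF) : FrameF repsF 309 F_2409.f :=
  frame_of rfl c_2409 (runs_of engOK r_2409_0) (by decide +kernel) h.1 h.1

def F_2410 : FrX :=
  ⟨0x482000044040440000c204002000900018204000400822080408000408008820002200110140102000001048402000800820a003000902101202000002,
    0xa0, 1, 0x2041607184a2, 6,
    [(0xa0, 1), (0x538690a2, 4), (0x548790a1, 4), (0x21437690, 4), (0x538690a2, 4), (0x548790a1, 4)],
    [(0x2041607184a2, 6), (0x325481a6, 4), (0x42768590, 4), (0x31548290, 4), (0x42768590, 4), (0x435182a7, 4), (0x218390a6, 4), (0x31548290, 4), (0x218390a6, 4), (0x31527684, 4), (0x31548290, 4), (0x435182a7, 4)]⟩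

def c_2410 : frmChk tA tB F_2410 = true := by decide +kernel

def r_2410_0 : chkL rootF engF2 tA tB sA_309 sB_309 4 F_2410 [(511, 0, 0)]
    0x60781f060740f = true := by
  decide +kernel

theorem f_2410 (h : TabsF) : FrameF repsF 309 F_2410.f :=
  frame_of rfl c_2410 (runs_of engOK r_2410_0) (by decide +kernel) h.1 h.2

def F_2411 : FrX :=
  ⟨0x482000044040440000c204002000900018204000108208200084080001040402040004110100012000001080e010400020090006210200011022200080,
    0xa0, 1, 0x1054617283a5, 6,
    [(0xa0, 1), (0x538690a2, 4), (0x548790a1, 4), (0x21437690, 4), (0x538690a2, 4), (0x548790a1, 4)],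
    [(0x1054617283a5, 6), (0x307194a8, 4), (0x326194a5, 4), (0x20768594, 4), (0x307194a8, 4), (0x326194a5, 4)]⟩

def c_2411 : frmChk tA tA F_2411 = true := by decide +kernel

def r_2411_0 : chkL rootF engF2 tA tA sA_309 sA_309 4 F_2411 [(511, 0, 0)]
    0x10cf300742b07b30 = true := by
  decide +kernel

theorem f_2411 (h : TabsF) : FrameF repsF 309 F_2411.f :=
  frame_of rfl c_2411 (runs_of engOK r_2411_0) (by decide +kernel) h.1 h.1

def F_2412 : FrX :=
  ⟨0x482000044040440000c2040020009000182040001012080000880280024002020400050020040400800040a88208020888010108200082002004200004,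
    0xa0, 1, 0x305461768692a6, 7,
    [(0xa0, 1), (0x538690a2, 4), (0x548790a1, 4), (0x21437690, 4), (0x538690a2, 4), (0x548790a1, 4)],
    [(0x305461768692a6, 7), (0x408293a7, 4), (0x54637182, 4), (0x508296a1, 4), (0x408293a7, 4), (0x54637182, 4)]⟩

def c_2412 : frmChk tA tA F_2412 = true := by decide +kernel

def r_2412_0 : chkL rootF engF2 tA tA sA_309 sA_309 4 F_2412 [(511, 0, 0)]
    0x43a154170d8170782705c4b05d16 = true := by
  decide +kernel

theorem f_2412 (h : TabsF) : FrameF repsF 309 F_2412.f :=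
  frame_of rfl c_2412 (runs_of engOK r_2412_0) (by decide +kernel) h.1 h.1

def F_2413 : FrX :=
  ⟨0x1c210200000404400000204100010100008204088820000800088020000220202060004110000802080011088c410400020050022210200202024200000,
    0x0, 0, 0x21546587, 4,
    [(0x0, 0), (0x205386a9, 4), (0x105487a9, 4), (0x214376a9, 4), (0x205386a9, 4), (0x105487a9, 4)],
    [(0x21546587, 4), (0x10437586, 4), (0x206584a9, 4), (0x547386a9, 4), (0x206584a9, 4), (0x21547683, 4), (0x105374a9, 4), (0x547386a9, 4), (0x105374a9, 4), (0x20647385, 4), (0x547386a9, 4), (0x21547683, 4)]⟩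

def c_2413 : frmChk tA tB F_2413 = true := by decide +kernel

def r_2413_0 : chkL rootF engF2 tA tB sA_309 sB_309 4 F_2413 [(255, 0, 0), (256, 0, 14)]
    0x45305c1d0741d = true := by
  decide +kernel

def r_2413_1 : chkL rootF engF2 tA tB sA_309 sB_309 4 F_2413 [(256, 14, 8)]
    0x1 = true := by
  decide +kernel

def r_2413_2 : chkL rootF engF2 tA tB sA_309 sB_309 4 F_2413 [(256, 22, 0)]
    0x1 = true := by
  decide +kernel

theorem f_2413 (h : TabsF) : FrameF repsF 309 F_2413.f :=
  frame_of rfl c_2413 ((runs_of engOK r_2413_0).append ((runs_of engOK r_2413_1).append (runs_of engOK r_2413_2))) (by decide +kernel) h.1 h.2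

def F_2414 : FrX :=
  ⟨0x80080a000804040e000021010020010000020408806000044040900000440820200204014000800208008008800502004000410300006202040c1820000,
    0xa6, 1, 0x103142518095a7, 7,
    [(0xa6, 1), (0x205396a8, 4), (0x10548796, 4), (0x214396a7, 4), (0x205396a8, 4), (0x10548796, 4)],
    [(0x103142518095a7, 7), (0x216084a9, 4), (0x738592a6, 4), (0x106273a9, 4), (0x738592a6, 4), (0x546291a0, 4), (0x20617384, 4), (0x106273a9, 4), (0x20617384, 4), (0x108596a2, 4), (0x106273a9, 4), (0x546291a0, 4)]⟩

def c_2414 : frmChk tA tB F_2414 = true := by decide +kernel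

def r_2414_0 : chkL rootF engF2 tA tB sA_309 sB_309 4 F_2414 [(511, 0, 0)]
    0x42b03c0f0f01e1544b = true := by
  decide +kernel

theorem f_2414 (h : TabsF) : FrameF repsF 309 F_2414.f :=
  frame_of rfl c_2414 (runs_of engOK r_2414_0) (by decide +kernel) h.1 h.2

def F_2415 : FrX :=
  ⟨0x2002000900044004000e0204100014100080004081000001e010000111000242020200001008008820800110800410001020850040200200300024201001,
    0xa3, 1, 0x203254657583a6, 7,
    [(0xa3, 1), (0x208693a5, 4), (0x10548793, 4), (0x217693a4, 4), (0x208693a5, 4), (0x10548793, 4)],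
    [(0x203254657583a6, 7), (0x328794a0, 4), (0x21607594, 4), (0x318594a6, 4), (0x328794a0, 4), (0x21607594, 4)]⟩

def c_2415 : frmChk tA tA F_2415 = true := by decide +kernel

def r_2415_0 : chkL rootF engF2 tA tA sA_309 sA_309 4 F_2415 [(511, 0, 0)]
    0x41e0744be210e07a92a0e92075380ac2d = true := by
  decide +kernel

theorem f_2415 (h : TabsF) : FrameF repsF 309 F_2415.f :=
  frame_of rfl c_2415 (runs_of engOK r_2415_0) (by decide +kernel) h.1 h.1

def F_2416 : FrX :=
  ⟨0x80080a000804040e00002101002001000002040880481000110080800200141001100420004040020030000ca8000c00221000011008400244040808000,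
    0xa6, 1, 0x2031658397a2, 6,
    [(0xa6, 1), (0x205396a8, 4), (0x10548796, 4), (0x214396a7, 4), (0x205396a8, 4), (0x10548796, 4)],
    [(0x2031658397a2, 6), (0x418596a2, 4), (0x32647095, 4), (0x54708196, 4), (0x32647095, 4), (0x546198a3, 4), (0x517084a2, 4), (0x54708196, 4), (0x517084a2, 4), (0x32658194, 4), (0x54708196, 4), (0x546198a3, 4)]⟩

def c_2416 : frmChk tA tB F_2416 = true := by decide +kernel

def r_2416_0 : chkL rootF engF2 tA tB sA_309 sB_309 4 F_2416 [(511, 0, 0)]
    0x40f03fa003c0f = true := by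
  decide +kernel

theorem f_2416 (h : TabsF) : FrameF repsF 309 F_2416.f :=
  frame_of rfl c_2416 (runs_of engOK r_2416_0) (by decide +kernel) h.1 h.2

def F_2417 : FrX :=
  ⟨0x80080a000804040e000021010020010000020408842000003040240000120080104040600082082208100400180008002240000220101010040040a0900,
    0xa6, 1, 0x425262758491a8, 7,
    [(0xa6, 1), (0x205396a8, 4), (0x10548796, 4), (0x214396a7, 4), (0x205396a8, 4), (0x10548796, 4)],
    [(0x425262758491a8, 7), (0x216073a5, 4), (0x218790a4, 4), (0x21548396, 4), (0x216073a5, 4), (0x218790a4, 4)]⟩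

def c_2417 : frmChk tA tA F_2417 = true := by decide +kernel

def r_2417_0 : chkL rootF engF2 tA tA sA_309 sA_309 4 F_2417 [(511, 0, 0)]
    0x45612c4e1a41706cd1 = true := by
  decide +kernel

theorem f_2417 (h : TabsF) : FrameF repsF 309 F_2417.f :=
  frame_of rfl c_2417 (runs_of engOK r_2417_0) (by decide +kernel) h.1 h.1

def F_2418 : FrX :=
  ⟨0x80080a000804040e0000210100200100000204088120000141020002000408820901002000800428004280002110000a040048080408404200080040044,
    0xa6, 1, 0x204350628093a2, 7,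
    [(0xa6, 1), (0x205396a8, 4), (0x10548796, 4), (0x214396a7, 4), (0x205396a8, 4), (0x10548796, 4)],
    [(0x204350628093a2, 7), (0x537290a8, 4), (0x32647081, 4), (0x30647295, 4), (0x32647081, 4), (0x305297a1, 4), (0x506493a8, 4), (0x30647295, 4), (0x506493a8, 4), (0x20738195, 4), (0x30647295, 4), (0x305297a1, 4)]⟩

def c_2418 : frmChk tA tB F_2418 = true := by decide +kernel

def r_2418_0 : chkL rootF engF2 tA tB sA_309 sB_309 4 F_2418 [(511, 0, 0)]
    0x40f154551541e0740f22c0f22c0f22c1703c63 = true := by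
  decide +kernel

theorem f_2418 (h : TabsF) : FrameF repsF 309 F_2418.f :=
  frame_of rfl c_2418 (runs_of engOK r_2418_0) (by decide +kernel) h.1 h.2

def F_2419 : FrX :=
  ⟨0x482000044040440000c2040020009000182040020000422800080804040890020020000024040180080808080810101080004011080800100802200904,
    0xa0, 1, 0x104251607496a6, 7,
    [(0xa0, 1), (0x538690a2, 4), (0x548790a1, 4), (0x21437690, 4), (0x538690a2, 4), (0x548790a1, 4)],
    [(0x104251607496a6, 7), (0x206487a3, 4), (0x657091a2, 4), (0x208391a7, 4), (0x657091a2, 4), (0x325480a7, 4), (0x647391a8, 4), (0x208391a7, 4), (0x647391a8, 4), (0x657283a0, 4), (0x208391a7, 4), (0x325480a7, 4)]⟩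

def c_2419 : frmChk tA tB F_2419 = true := by decide +kernel

def r_2419_0 : chkL rootF engF2 tA tB sA_309 sB_309 4 F_2419 [(511, 0, 0)]
    0x41d16417 = true := by
  decide +kernel

theorem f_2419 (h : TabsF) : FrameF repsF 309 F_2419.f :=
  frame_of rfl c_2419 (runs_of engOK r_2419_0) (by decide +kernel) h.1 h.2

def F_2420 : FrX :=
  ⟨0x80080a000804040e00002101002001000002040890200808048008008020202020401000804040080088400010508100100840030002201100804800900,
    0xa6, 1, 0x21307280a6, 5,
    [(0xa6, 1), (0x205396a8, 4), (0x10548796, 4), (0x214396a7, 4), (0x205396a8, 4), (0x10548796, 4)],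
    [(0x21307280a6, 5), (0x508796a3, 4), (0x31548296, 4), (0x407296a1, 4), (0x508796a3, 4), (0x31548296, 4)]⟩

def c_2420 : frmChk tA tA F_2420 = true := by decide +kernel

def r_2420_0 : chkL rootF engF2 tA tA sA_309 sA_309 4 F_2420 [(511, 0, 0)]
    0x109c711704781c1709c1705c270785c154170ac53 = true := by
  decide +kernel

theorem f_2420 (h : TabsF) : FrameF repsF 309 F_2420.f :=
  frame_of rfl c_2420 (runs_of engOK r_2420_0) (by decide +kernel) h.1 h.1

def F_2421 : FrX :=
  ⟨0x2002000900044004000e0204100014100080004080800040808102040102010800001060408000488024010012102000800800a000c00200300202821000,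
    0xa3, 1, 0x3242508395a1, 6,
    [(0xa3, 1), (0x208693a5, 4), (0x10548793, 4), (0x217693a4, 4), (0x208693a5, 4), (0x10548793, 4)],
    [(0x3242508395a1, 6), (0x32548697, 4), (0x107693a5, 4), (0x10638297, 4), (0x107693a5, 4), (0x638792a4, 4), (0x10546283, 4), (0x10638297, 4), (0x10546283, 4), (0x738296a5, 4), (0x10638297, 4), (0x638792a4, 4)]⟩

def c_2421 : frmChk tA tB F_2421 = true := by decide +kernel

def r_2421_0 : chkL rootF engF2 tA tB sA_309 sB_309 4 F_2421 [(511, 0, 0)]
    0x103caa0b83a0cc3a0b4a90b42d = true := by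
  decide +kernel

theorem f_2421 (h : TabsF) : FrameF repsF 309 F_2421.f :=
  frame_of rfl c_2421 (runs_of engOK r_2421_0) (by decide +kernel) h.1 h.2

def F_2422 : FrX :=
  ⟨0x2002000900044004000e0204100014100080004080040088200120400040c002020000a041080110100400060208200080000880808008200028c0200044,
    0xa3, 1, 0x1020627190a2, 6,
    [(0xa3, 1), (0x208693a5, 4), (0x10548793, 4), (0x217693a4, 4), (0x208693a5, 4), (0x10548793, 4)],
    [(0x1020627190a2, 6), (0x315084a9, 4), (0x10546297, 4), (0x41506283, 4), (0x10546297, 4), (0x304185a7, 4), (0x436281a9, 4), (0x41506283, 4), (0x436281a9, 4), (0x40518397, 4), (0x41506283, 4), (0x304185a7, 4)]⟩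

def c_2422 : frmChk tA tB F_2422 = true := by decide +kernel

def r_2422_0 : chkL rootF engF2 tA tB sA_309 sB_309 4 F_2422 [(511, 0, 0)]
    0x138472 = true := by
  decide +kernel

theorem f_2422 (h : TabsF) : FrameF repsF 309 F_2422.f :=
  frame_of rfl c_2422 (runs_of engOK r_2422_0) (by decide +kernel) h.1 h.2

def F_2423 : FrX :=
  ⟨0x482000044040440000c2040020009000182040010010022804000110080044804080000808010120800440402010100010810040500200101100020122,
    0xa0, 1, 0x10304052647193a3, 8,
    [(0xa0, 1), (0x538690a2, 4), (0x548790a1, 4), (0x21437690, 4), (0x538690a2, 4), (0x548790a1, 4)],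
    [(0x10304052647193a3, 8), (0x205486a3, 4), (0x30627491, 4), (0x206391a8, 4), (0x30627491, 4), (0x637582a0, 4), (0x548391a6, 4), (0x206391a8, 4), (0x548391a6, 4), (0x326074a8, 4), (0x206391a8, 4), (0x637582a0, 4)]⟩

def c_2423 : frmChk tA tB F_2423 = true := by decide +kernel

def r_2423_0 : chkL rootF engF2 tA tB sA_309 sB_309 4 F_2423 [(511, 0, 0)]
    0x42d03c0f03c0f4940f = true := by
  decide +kernel

theorem f_2423 (h : TabsF) : FrameF repsF 309 F_2423.f :=
  frame_of rfl c_2423 (runs_of engOK r_2423_0) (by decide +kernel) h.1 h.2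

def F_2424 : FrX :=
  ⟨0x2002000900044004000e020410001410008000408008020800880240008080820000084841080084108000060210200002040080220040200820c0018040,
    0xa3, 1, 0x2030418498a2, 6,
    [(0xa3, 1), (0x208693a5, 4), (0x10548793, 4), (0x217693a4, 4), (0x208693a5, 4), (0x10548793, 4)],
    [(0x2030418498a2, 6), (0x105296a3, 4), (0x10438597, 4), (0x107682a4, 4), (0x105296a3, 4), (0x10438597, 4)]⟩

def c_2424 : frmChk tA tA F_2424 = true := by decide +kernel

def r_2424_0 : chkL rootF engF2 tA tA sA_309 sA_309 4 F_2424 [(511, 0, 0)]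
    0x11384e154530780f = true := by
  decide +kernel

theorem f_2424 (h : TabsF) : FrameF repsF 309 F_2424.f :=
  frame_of rfl c_2424 (runs_of engOK r_2424_0) (by decide +kernel) h.1 h.1

def F_2425 : FrX :=
  ⟨0x80080a000804040e000021010020010000020408902010040440041000800820080840100000300010488004402010101001010804088042400040a0800,
    0xa6, 1, 0x30617281a8, 5,
    [(0xa6, 1), (0x205396a8, 4), (0x10548796, 4), (0x214396a7, 4), (0x205396a8, 4), (0x10548796, 4)],
    [(0x30617281a8, 5), (0x105273a4, 4), (0x21548396, 4), (0x415296a0, 4), (0x21548396, 4), (0x204187a5, 4), (0x407396a1, 4), (0x415296a0, 4), (0x407396a1, 4), (0x425183a0, 4), (0x415296a0, 4), (0x204187a5, 4)]⟩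

def c_2425 : frmChk tA tB F_2425 = true := by decide +kernel

def r_2425_0 : chkL rootF engF2 tA tB sA_309 sB_309 4 F_2425 [(511, 0, 0)]
    0x103c0f = true := by
  decide +kernel

theorem f_2425 (h : TabsF) : FrameF repsF 309 F_2425.f :=
  frame_of rfl c_2425 (runs_of engOK r_2425_0) (by decide +kernel) h.1 h.2

def F_2426 : FrX :=
  ⟨0x1001040012008080000e008408004100081010000420080240084000050800800482020012000088200010120004044000002044c0080080464101000048,
    0xa3, 1, 0x21405162738098a3, 8,
    [(0xa3, 1), (0x207584a6, 4), (0x10547693, 4), (0x647593a8, 4), (0x10547693, 4), (0x216485a7, 4), (0x208693a4, 4), (0x647593a8, 4), (0x208693a4, 4), (0x106574a8, 4), (0x647593a8, 4), (0x216485a7, 4)],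
    [(0x21405162738098a3, 8), (0x328690a1, 4), (0x20317485, 4), (0x103274a9, 4), (0x20317485, 4), (0x106592a3, 4), (0x748691a0, 4), (0x103274a9, 4), (0x748691a0, 4), (0x213085a9, 4), (0x103274a9, 4), (0x106592a3, 4)]⟩

def c_2426 : frmChk tB tB F_2426 = true := by decide +kernel

def r_2426_0 : chkL rootF engF2 tB tB sB_309 sB_309 4 F_2426 [(511, 0, 0)]
    0x106c47 = true := by
  decide +kernel

theorem f_2426 (h : TabsF) : FrameF repsF 309 F_2426.f :=
  frame_of rfl c_2426 (runs_of engOK r_2426_0) (by decide +kernel) h.2 h.2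

def F_2427 : FrX :=
  ⟨0x1001040012008080000e00840800410008101000042100c0100840000410008080110010202020080002140a040020002100800c08004024440008010210,
    0xa3, 1, 0x4350607584a0, 6,
    [(0xa3, 1), (0x207584a6, 4), (0x10547693, 4), (0x647593a8, 4), (0x10547693, 4), (0x216485a7, 4), (0x208693a4, 4), (0x647593a8, 4), (0x208693a4, 4), (0x106574a8, 4), (0x647593a8, 4), (0x216485a7, 4)],
    [(0x4350607584a0, 6), (0x537496a2, 4), (0x308796a1, 4), (0x21508496, 4), (0x537496a2, 4), (0x308796a1, 4)]⟩

def c_2427 : frmChk tB tA F_2427 = true := by decide +kernel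

def r_2427_0 : chkL rootF engF2 tB tA sB_309 sA_309 4 F_2427 [(511, 0, 0)]
    0x41d0741705c36 = true := by
  decide +kernel

theorem f_2427 (h : TabsF) : FrameF repsF 309 F_2427.f :=
  frame_of rfl c_2427 (runs_of engOK r_2427_0) (by decide +kernel) h.2 h.1

def F_2428 : FrX :=
  ⟨0x1001040012008080000e00840800410008101000060000028080050046000880420200000100110143004200400402804100080c10010000401002042008,
    0xa3, 1, 0x103054627598a3, 7,
    [(0xa3, 1), (0x207584a6, 4), (0x10547693, 4), (0x647593a8, 4), (0x10547693, 4), (0x216485a7, 4), (0x208693a4, 4), (0x647593a8, 4), (0x208693a4, 4), (0x106574a8, 4), (0x647593a8, 4), (0x216485a7, 4)],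
    [(0x103054627598a3, 7), (0x637495a2, 4), (0x30427581, 4), (0x527481a9, 4), (0x30427581, 4), (0x526097a4, 4), (0x638192a5, 4), (0x527481a9, 4), (0x638192a5, 4), (0x305472a9, 4), (0x527481a9, 4), (0x526097a4, 4)]⟩

def c_2428 : frmChk tB tB F_2428 = true := by decide +kernel

def r_2428_0 : chkL rootF engF2 tB tB sB_309 sB_309 4 F_2428 [(511, 0, 0)]
    0x105c2b = true := by
  decide +kernel

theorem f_2428 (h : TabsF) : FrameF repsF 309 F_2428.f :=
  frame_of rfl c_2428 (runs_of engOK r_2428_0) (by decide +kernel) h.2 h.2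

def F_2429 : FrX :=
  ⟨0x600020801080810000c0040180410101001004001200100400021220024022080000801100100008404220108220c00404000420802800020400008280,
    0xa0, 1, 0x3042516298a3, 6,
    [(0xa0, 1), (0x637584a2, 4), (0x547690a1, 4), (0x64758390, 4), (0x547690a1, 4), (0x21647385, 4), (0x438690a2, 4), (0x64758390, 4), (0x438690a2, 4), (0x657483a1, 4), (0x64758390, 4), (0x21647385, 4)],
    [(0x3042516298a3, 6), (0x638094a1, 4), (0x21538097, 4), (0x657480a2, 4), (0x638094a1, 4), (0x21538097, 4)]⟩

def c_2429 : frmChk tB tA F_2429 = true := by decide +kernel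

def r_2429_0 : chkL rootF engF2 tB tA sB_309 sA_309 4 F_2429 [(511, 0, 0)]
    0x439234ac0b82e0d40f14d910b82e = true := by
  decide +kernel

theorem f_2429 (h : TabsF) : FrameF repsF 309 F_2429.f :=
  frame_of rfl c_2429 (runs_of engOK r_2429_0) (by decide +kernel) h.2 h.1

def F_2430 : FrX :=
  ⟨0x600020801080810000c0040180410101001004000a00100800101400020a02008002404080100008084e20100020010401020400b00080100000040282,
    0xa0, 1, 0x103142547297a3, 7,
    [(0xa0, 1), (0x637584a2, 4), (0x547690a1, 4), (0x64758390, 4), (0x547690a1, 4), (0x21647385, 4), (0x438690a2, 4), (0x64758390, 4), (0x438690a2, 4), (0x657483a1, 4), (0x64758390, 4), (0x21647385, 4)],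
    [(0x103142547297a3, 7), (0x718592a6, 4), (0x31405296, 4), (0x406592a8, 4), (0x31405296, 4), (0x657382a9, 4), (0x407186a5, 4), (0x406592a8, 4), (0x407186a5, 4), (0x316295a8, 4), (0x406592a8, 4), (0x657382a9, 4)]⟩

def c_2430 : frmChk tB tB F_2430 = true := by decide +kernel

def r_2430_0 : chkL rootF engF2 tB tB sB_309 sB_309 4 F_2430 [(511, 0, 0)]
    0x1 = true := by
  decide +kernel

theorem f_2430 (h : TabsF) : FrameF repsF 309 F_2430.f :=
  frame_of rfl c_2430 (runs_of engOK r_2430_0) (by decide +kernel) h.2 h.2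

def F_2431 : FrX :=
  ⟨0x2002000900044004000e02041000141000800040800401024001204000241041000002204088041020020018404020008000208080401040221220080080,
    0xa3, 1, 0x324153628097a4, 7,
    [(0xa3, 1), (0x208693a5, 4), (0x10548793, 4), (0x217693a4, 4), (0x208693a5, 4), (0x10548793, 4)],
    [(0x324153628097a4, 7), (0x538692a0, 4), (0x718493a2, 4), (0x507192a3, 4), (0x718493a2, 4), (0x206495a3, 4), (0x307186a5, 4), (0x507192a3, 4), (0x307186a5, 4), (0x325084a9, 4), (0x507192a3, 4), (0x206495a3, 4)]⟩

def c_2431 : frmChk tA tB F_2431 = true := by decide +kernel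

def r_2431_0 : chkL rootF engF2 tA tB sA_309 sB_309 4 F_2431 [(511, 0, 0)]
    0x111cc52706c4570c09c0f1344d = true := by
  decide +kernel

theorem f_2431 (h : TabsF) : FrameF repsF 309 F_2431.f :=
  frame_of rfl c_2431 (runs_of engOK r_2431_0) (by decide +kernel) h.1 h.2

theorem cl_309 (h : TabsF) : ∀ f ∈ fr_309, FrameF repsF 309 f :=
  List.forall_mem_cons.2 ⟨f_2404 h, List.forall_mem_cons.2 ⟨f_2405 h, List.forall_mem_cons.2 ⟨f_2406 h, List.forall_mem_cons.2 ⟨f_2407 h, List.forall_mem_cons.2 ⟨f_2408 h, List.forall_mem_cons.2 ⟨f_2409 h, List.forall_mem_cons.2 ⟨f_2410 h, List.forall_mem_cons.2 ⟨f_2411 h, List.forall_mem_cons.2 ⟨f_2412 h, List.forall_mem_cons.2 ⟨f_2413 h, List.forall_mem_cons.2 ⟨f_2414 h, List.forall_mem_cons.2 ⟨f_2415 h, List.forall_mem_cons.2 ⟨f_2416 h, List.forall_mem_cons.2 ⟨f_2417 h, List.forall_mem_cons.2 ⟨f_2418 h, List.forall_mem_cons.2 ⟨f_2419 h, List.forall_mem_cons.2 ⟨f_2420 h, List.forall_mem_cons.2 ⟨f_2421 h, List.forall_mem_cons.2 ⟨f_2422 h, List.forall_mem_cons.2 ⟨f_2423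 h, List.forall_mem_cons.2 ⟨f_2424 h, List.forall_mem_cons.2 ⟨f_2425 h, List.forall_mem_cons.2 ⟨f_2426 h, List.forall_mem_cons.2 ⟨f_2427 h, List.forall_mem_cons.2 ⟨f_2428 h, List.forall_mem_cons.2 ⟨f_2429 h, List.forall_mem_cons.2 ⟨f_2430 h, List.forall_mem_cons.2 ⟨f_2431 h,
    fun _ h0 => absurd h0 List.not_mem_nil⟩⟩⟩⟩⟩⟩⟩⟩⟩⟩⟩⟩⟩⟩⟩⟩⟩⟩⟩⟩⟩⟩⟩⟩⟩⟩⟩⟩

def F_2432 : FrX :=
  ⟨0x1001040012008080000e00840800410008101000040420028001110000180010010200884260008840024000401020020000c00c04004000444003022000,
    0xa3, 1, 0x415061728098a6, 7,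
    [(0xa3, 1), (0x207584a6, 4), (0x10547693, 4), (0x647593a8, 4), (0x10547693, 4), (0x216485a7, 4), (0x208693a4, 4), (0x647593a8, 4), (0x208693a4, 4), (0x106574a8, 4), (0x647593a8, 4), (0x216485a7, 4)],
    [(0x415061728098a6, 7), (0x305487a9, 4), (0x10548692, 4), (0x315476a2, 4), (0x305487a9, 4), (0x10548692, 4)]⟩

def c_2432 : frmChk tB tA F_2432 = true := by decide +kernel

def r_2432_0 : chkL rootF engF2 tB tA sB_310 sA_310 4 F_2432 [(511, 0, 0)]
    0x46a = true := by
  decide +kernel

theorem f_2432 (h : TabsF) : FrameF repsF 310 F_2432.f :=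
  frame_of rfl c_2432 (runs_of engOK r_2432_0) (by decide +kernel) h.2 h.1

def F_2433 : FrX :=
  ⟨0x1001040012008080000e00840800410008101000042008024020010004080090048202004100112600000206020000210014001001011401011008000210,
    0xa3, 1, 0x1062718095a4, 6,
    [(0xa3, 1), (0x207584a6, 4), (0x10547693, 4), (0x647593a8, 4), (0x10547693, 4), (0x216485a7, 4), (0x208693a4, 4), (0x647593a8, 4), (0x208693a4, 4), (0x106574a8, 4), (0x647593a8, 4), (0x216485a7, 4)],
    [(0x1062718095a4, 6), (0x328690a1, 4), (0x205487a9, 4), (0x315490a2, 4), (0x205487a9, 4), (0x307691a2, 4), (0x215486a3, 4), (0x315490a2, 4), (0x215486a3, 4), (0x318792a0, 4), (0x315490a2, 4), (0x307691a2, 4)]⟩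

def c_2433 : frmChk tB tB F_2433 = true := by decide +kernel

def r_2433_0 : chkL rootF engF2 tB tB sB_310 sB_310 4 F_2433 [(511, 0, 0)]
    0x1 = true := by
  decide +kernel

theorem f_2433 (h : TabsF) : FrameF repsF 310 F_2433.f :=
  frame_of rfl c_2433 (runs_of engOK r_2433_0) (by decide +kernel) h.2 h.2

def F_2434 : FrX :=
  ⟨0x600020801080810000c004018041010100100400404044000040004810a020080802000820032600000200508008210004020100002140004408010082,
    0xa0, 1, 0x32435062768495a6, 8,
    [(0xa0, 1), (0x637584a2, 4), (0x547690a1, 4), (0x64758390, 4), (0x547690a1, 4), (0x21647385, 4), (0x438690a2, 4), (0x64758390, 4), (0x438690a2, 4), (0x657483a1, 4), (0x64758390, 4), (0x21647385, 4)],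
    [(0x32435062768495a6, 8), (0x657094a2, 4), (0x32517098, 4), (0x617084a3, 4), (0x657094a2, 4), (0x32517098, 4)]⟩

def c_2434 : frmChk tB tA F_2434 = true := by decide +kernel

def r_2434_0 : chkL rootF engF2 tB tA sB_310 sA_310 4 F_2434 [(511, 0, 0)]
    0x1 = true := by
  decide +kernel

theorem f_2434 (h : TabsF) : FrameF repsF 310 F_2434.f :=
  frame_of rfl c_2434 (runs_of engOK r_2434_0) (by decide +kernel) h.2 h.1

def F_2435 : FrX :=
  ⟨0x1001040012008080000e008408004100081010000420100880a0010004020802420000202020200808010011410030002000800c080000c0022004806004,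
    0xa3, 1, 0x415082a3, 4,
    [(0xa3, 1), (0x207584a6, 4), (0x10547693, 4), (0x647593a8, 4), (0x10547693, 4), (0x216485a7, 4), (0x208693a4, 4), (0x647593a8, 4), (0x208693a4, 4), (0x106574a8, 4), (0x647593a8, 4), (0x216485a7, 4)],
    [(0x415082a3, 4), (0x217085a6, 4), (0x10547693, 4), (0x617093a2, 4), (0x10547693, 4), (0x206184a7, 4), (0x628593a1, 4), (0x617093a2, 4), (0x628593a1, 4), (0x546071a2, 4), (0x617093a2, 4), (0x206184a7, 4)]⟩

def c_2435 : frmChk tB tB F_2435 = true := by decide +kernel

def r_2435_0 : chkL rootF engF2 tB tB sB_310 sB_310 4 F_2435 [(511, 0, 0)]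
    0x1 = true := by
  decide +kernel

theorem f_2435 (h : TabsF) : FrameF repsF 310 F_2435.f :=
  frame_of rfl c_2435 (runs_of engOK r_2435_0) (by decide +kernel) h.2 h.2

def F_2436 : FrX :=
  ⟨0x600020801080810000c0040180410101001004020000900400902402001400004022006020200120082100088010080240020000c00840010400220300,
    0xa0, 1, 0x2053718091a0, 6,
    [(0xa0, 1), (0x637584a2, 4), (0x547690a1, 4), (0x64758390, 4), (0x547690a1, 4), (0x21647385, 4), (0x438690a2, 4), (0x64758390, 4), (0x438690a2, 4), (0x657483a1, 4), (0x64758390, 4), (0x21647385, 4)],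
    [(0x2053718091a0, 6), (0x314265a0, 4), (0x436187a9, 4), (0x31526487, 4), (0x436187a9, 4), (0x32516490, 4), (0x546287a0, 4), (0x31526487, 4), (0x546287a0, 4), (0x415263a9, 4), (0x31526487, 4), (0x32516490, 4)]⟩

def c_2436 : frmChk tB tB F_2436 = true := by decide +kernel

def r_2436_0 : chkL rootF engF2 tB tB sB_310 sB_310 4 F_2436 [(511, 0, 0)]
    0x107836 = true := by
  decide +kernel

theorem f_2436 (h : TabsF) : FrameF repsF 310 F_2436.f :=
  frame_of rfl c_2436 (runs_of engOK r_2436_0) (by decide +kernel) h.2 h.2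

def F_2437 : FrX :=
  ⟨0x1c2102000004044000002041000101000082040890080080000802400800084004404101004020408000140808060c00008080006004000664218000100,
    0x0, 0, 0x216475, 3,
    [(0x0, 0), (0x205386a9, 4), (0x105487a9, 4), (0x214376a9, 4), (0x205386a9, 4), (0x105487a9, 4)],
    [(0x216475, 3), (0x107384a9, 4), (0x207685a9, 4), (0x215463a9, 4), (0x107384a9, 4), (0x207685a9, 4)]⟩

def c_2437 : frmChk tA tA F_2437 = true := by decide +kernel

def r_2437_0 : chkL rootF engF2 tA tA sA_310 sA_310 4 F_2437 [(255, 0, 0), (256, 0, 7)]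
    0x109c55 = true := by
  decide +kernel

def r_2437_1 : chkL rootF engF2 tA tA sA_310 sA_310 4 F_2437 [(256, 7, 8)]
    0x118c53 = true := by
  decide +kernel

def r_2437_2 : chkL rootF engF2 tA tA sA_310 sA_310 4 F_2437 [(256, 15, 0)]
    0x103c4e03c1e = true := by
  decide +kernel

theorem f_2437 (h : TabsF) : FrameF repsF 310 F_2437.f :=
  frame_of rfl c_2437 ((runs_of engOK r_2437_0).append ((runs_of engOK r_2437_1).append (runs_of engOK r_2437_2))) (by decide +kernel) h.1 h.1

def F_2438 : FrX :=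
  ⟨0x1c21020000040440000020410001010000820408a000110000008210020210100020404002404101004001008842004038000001100100a800006640800,
    0x0, 0, 0x43536584, 4,
    [(0x0, 0), (0x205386a9, 4), (0x105487a9, 4), (0x214376a9, 4), (0x205386a9, 4), (0x105487a9, 4)],
    [(0x43536584, 4), (0x20547683, 4), (0x107486a9, 4), (0x537684a9, 4), (0x107486a9, 4), (0x21637584, 4), (0x204385a9, 4), (0x537684a9, 4), (0x204385a9, 4), (0x10536487, 4), (0x537684a9, 4), (0x21637584, 4)]⟩

def c_2438 : frmChk tA tB F_2438 = true := by decide +kernel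

def r_2438_0 : chkL rootF engF2 tA tB sA_310 sB_310 4 F_2438 [(255, 0, 0), (256, 0, 17)]
    0x1 = true := by
  decide +kernel

def r_2438_1 : chkL rootF engF2 tA tB sA_310 sB_310 4 F_2438 [(256, 17, 8)]
    0x1 = true := by
  decide +kernel

def r_2438_2 : chkL rootF engF2 tA tB sA_310 sB_310 4 F_2438 [(256, 25, 0)]
    0x1 = true := by
  decide +kernel

theorem f_2438 (h : TabsF) : FrameF repsF 310 F_2438.f :=
  frame_of rfl c_2438 ((runs_of engOK r_2438_0).append ((runs_of engOK r_2438_1).append (runs_of engOK r_2438_2))) (by decide +kernel) h.1 h.2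

def F_2439 : FrX :=
  ⟨0x80080a000804040e000021010020010000020408900200014100008088010040050c0001004021008008000808041c00024000006000200664080820100,
    0xa6, 1, 0x103241627397a5, 7,
    [(0xa6, 1), (0x205396a8, 4), (0x10548796, 4), (0x214396a7, 4), (0x205396a8, 4), (0x10548796, 4)],
    [(0x103241627397a5, 7), (0x526183a7, 4), (0x415298a0, 4), (0x52647093, 4), (0x526183a7, 4), (0x415298a0, 4)]⟩

def c_2439 : frmChk tA tA F_2439 = true := by decide +kernel

def r_2439_0 : chkL rootF engF2 tA tA sA_310 sA_310 4 F_2439 [(511, 0, 0)]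
    0x10741d1ca6209c0f = true := by
  decide +kernel

theorem f_2439 (h : TabsF) : FrameF repsF 310 F_2439.f :=
  frame_of rfl c_2439 (runs_of engOK r_2439_0) (by decide +kernel) h.1 h.1

def F_2440 : FrX :=
  ⟨0x482000044040440000c2040020009000182040010020082001000180080107800000040804041010000030408020040180080110001082810000240884,
    0xa0, 1, 0x21638695a3, 5,
    [(0xa0, 1), (0x538690a2, 4), (0x548790a1, 4), (0x21437690, 4), (0x538690a2, 4), (0x548790a1, 4)],
    [(0x21638695a3, 5), (0x104397a8, 4), (0x20658794, 4), (0x658497a3, 4), (0x20658794, 4), (0x218493a7, 4), (0x106583a4, 4), (0x658497a3, 4), (0x106583a4, 4), (0x207498a3, 4), (0x658497a3, 4), (0x218493a7, 4)]⟩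

def c_2440 : frmChk tA tB F_2440 = true := by decide +kernel

def r_2440_0 : chkL rootF engF2 tA tB sA_310 sB_310 4 F_2440 [(511, 0, 0)]
    0x1 = true := by
  decide +kernel

theorem f_2440 (h : TabsF) : FrameF repsF 310 F_2440.f :=
  frame_of rfl c_2440 (runs_of engOK r_2440_0) (by decide +kernel) h.1 h.2

def F_2441 : FrX :=
  ⟨0x2002000900044004000e02041000141000800040800801014008400008410100110204004024001010040012000420000300801030000808900016200801,
    0xa3, 1, 0x305364708794a2, 7,
    [(0xa3, 1), (0x208693a5, 4), (0x10548793, 4), (0x217693a4, 4), (0x208693a5, 4), (0x10548793, 4)],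
    [(0x305364708794a2, 7), (0x435062a7, 4), (0x62718390, 4), (0x628495a1, 4), (0x435062a7, 4), (0x62718390, 4)]⟩

def c_2441 : frmChk tA tA F_2441 = true := by decide +kernel

def r_2441_0 : chkL rootF engF2 tA tA sA_310 sA_310 4 F_2441 [(511, 0, 0)]
    0x48b09c1e0781e05c4e = true := by
  decide +kernel

theorem f_2441 (h : TabsF) : FrameF repsF 310 F_2441.f :=
  frame_of rfl c_2441 (runs_of engOK r_2441_0) (by decide +kernel) h.1 h.1

def F_2442 : FrX :=
  ⟨0x2002000900044004000e0204100014100080004080040048401020001080088100004410110400040c000100800060801000081084004000624248011000,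
    0xa3, 1, 0x314152708195a3, 7,
    [(0xa3, 1), (0x208693a5, 4), (0x10548793, 4), (0x217693a4, 4), (0x208693a5, 4), (0x10548793, 4)],
    [(0x314152708195a3, 7), (0x437590a6, 4), (0x21608793, 4), (0x216390a4, 4), (0x21608793, 4), (0x638594a0, 4), (0x216475a3, 4), (0x216390a4, 4), (0x216475a3, 4), (0x308796a4, 4), (0x216390a4, 4), (0x638594a0, 4)]⟩

def c_2442 : frmChk tA tB F_2442 = true := by decide +kernel

def r_2442_0 : chkL rootF engF2 tA tB sA_310 sB_310 4 F_2442 [(511, 0, 0)]
    0x105c0f11c551544724cb12d01b06cc31642d926230cc1d0ac27 = true := by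
  decide +kernel

theorem f_2442 (h : TabsF) : FrameF repsF 310 F_2442.f :=
  frame_of rfl c_2442 (runs_of engOK r_2442_0) (by decide +kernel) h.1 h.2

def F_2443 : FrX :=
  ⟨0x1001040012008080000e00840800410008101000044020080060002020020890048008004020010208004800800830000600805410000440024002200084,
    0xa3, 1, 0x2150748491a8, 6,
    [(0xa3, 1), (0x207584a6, 4), (0x10547693, 4), (0x647593a8, 4), (0x10547693, 4), (0x216485a7, 4), (0x208693a4, 4), (0x647593a8, 4), (0x208693a4, 4), (0x106574a8, 4), (0x647593a8, 4), (0x216485a7, 4)],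
    [(0x2150748491a8, 6), (0x305172a6, 4), (0x728095a4, 4), (0x64728391, 4), (0x305172a6, 4), (0x728095a4, 4)]⟩

def c_2443 : frmChk tB tA F_2443 = true := by decide +kernel

def r_2443_0 : chkL rootF engF2 tB tA sB_310 sA_310 4 F_2443 [(511, 0, 0)]
    0x1 = true := by
  decide +kernel

theorem f_2443 (h : TabsF) : FrameF repsF 310 F_2443.f :=
  frame_of rfl c_2443 (runs_of engOK r_2443_0) (by decide +kernel) h.2 h.1

def F_2444 : FrX :=
  ⟨0x600020801080810000c004018041010100100401010000440301002010400208002040080081020040410088003800000008151000000c024c00210008,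
    0xa0, 1, 0x3050758095a0, 6,
    [(0xa0, 1), (0x637584a2, 4), (0x547690a1, 4), (0x64758390, 4), (0x547690a1, 4), (0x21647385, 4), (0x438690a2, 4), (0x64758390, 4), (0x438690a2, 4), (0x657483a1, 4), (0x64758390, 4), (0x21647385, 4)],
    [(0x3050758095a0, 6), (0x546093a2, 4), (0x638794a1, 4), (0x50648793, 4), (0x638794a1, 4), (0x21306495, 4), (0x406587a2, 4), (0x50648793, 4), (0x406587a2, 4), (0x435096a1, 4), (0x50648793, 4), (0x21306495, 4)]⟩

def c_2444 : frmChk tB tB F_2444 = true := by decide +kernel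

def r_2444_0 : chkL rootF engF2 tB tB sB_310 sB_310 4 F_2444 [(511, 0, 0)]
    0x12d11c0b92c650b44702e4b1942d11c0b92c6508b2a8aa2559222caa2a8956488b2a8aa2559222caa2a8956488b2a8aa2559222caa2a895648b44702e4b1942d11c0b92c650b44702e4b1942d11c0b92c650b44702e4b1942d11c0b92c6508b2a8aa2559222caa2a8956488b2a8aa25592 = true := by
  decide +kernel

theorem f_2444 (h : TabsF) : FrameF repsF 310 F_2444.f :=
  frame_of rfl c_2444 (runs_of engOK r_2444_0) (by decide +kernel) h.2 h.2

def F_2445 : FrX :=
  ⟨0x1001040012008080000e00840800410008101000042100001120010004002024804100102020200800022402020030002000800c0800030c048102010010,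
    0xa3, 1, 0x30405160718295a3, 8,
    [(0xa3, 1), (0x207584a6, 4), (0x10547693, 4), (0x647593a8, 4), (0x10547693, 4), (0x216485a7, 4), (0x208693a4, 4), (0x647593a8, 4), (0x208693a4, 4), (0x106574a8, 4), (0x647593a8, 4), (0x216485a7, 4)],
    [(0x30405160718295a3, 8), (0x328695a4, 4), (0x10547693, 4), (0x104395a2, 4), (0x10547693, 4), (0x438792a5, 4), (0x104286a3, 4), (0x104395a2, 4), (0x104286a3, 4), (0x537694a2, 4), (0x104395a2, 4), (0x438792a5, 4)]⟩

def c_2445 : frmChk tB tB F_2445 = true := by decide +kernel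

def r_2445_0 : chkL rootF engF2 tB tB sB_310 sB_310 4 F_2445 [(511, 0, 0)]
    0x10ac1b = true := by
  decide +kernel

theorem f_2445 (h : TabsF) : FrameF repsF 310 F_2445.f :=
  frame_of rfl c_2445 (runs_of engOK r_2445_0) (by decide +kernel) h.2 h.2

def F_2446 : FrX :=
  ⟨0x2002000900044004000e0204100014100080004080040048402000420000c0881001001010820408800401000540004081002000804480040010040c1800,
    0xa3, 1, 0x5062738390a7, 6,
    [(0xa3, 1), (0x208693a5, 4), (0x10548793, 4), (0x217693a4, 4), (0x208693a5, 4), (0x10548793, 4)],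
    [(0x5062738390a7, 6), (0x748296a0, 4), (0x405391a2, 4), (0x425387a0, 4), (0x405391a2, 4), (0x426170a8, 4), (0x53728496, 4), (0x425387a0, 4), (0x53728496, 4), (0x208791a4, 4), (0x425387a0, 4), (0x426170a8, 4)]⟩

def c_2446 : frmChk tA tB F_2446 = true := by decide +kernel

def r_2446_0 : chkL rootF engF2 tA tB sA_310 sB_310 4 F_2446 [(511, 0, 0)]
    0x41e11c474e13805c2b0acd8 = true := by
  decide +kernel

theorem f_2446 (h : TabsF) : FrameF repsF 310 F_2446.f :=
  frame_of rfl c_2446 (runs_of engOK r_2446_0) (by decide +kernel) h.1 h.2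

def F_2447 : FrX :=
  ⟨0x482000044040440000c2040020009000182040020000484000100208080184100018000024040412040800401120040204005002002804000110008404,
    0xa0, 1, 0x314092a0, 4,
    [(0xa0, 1), (0x538690a2, 4), (0x548790a1, 4), (0x21437690, 4), (0x538690a2, 4), (0x548790a1, 4)],
    [(0x314092a0, 4), (0x425186a9, 4), (0x425087a3, 4), (0x10427693, 4), (0x425186a9, 4), (0x425087a3, 4)]⟩

def c_2447 : frmChk tA tA F_2447 = true := by decide +kernel

def r_2447_0 : chkL rootF engF2 tA tA sA_310 sA_310 4 F_2447 [(511, 0, 0)]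
    0x11585a15625a9129a9322c840f12c3c03d34a903c4b1944d03a03c2e = true := by
  decide +kernel

theorem f_2447 (h : TabsF) : FrameF repsF 310 F_2447.f :=
  frame_of rfl c_2447 (runs_of engOK r_2447_0) (by decide +kernel) h.1 h.1

def F_2448 : FrX :=
  ⟨0x80080a000804040e0000210100200100000204088104040101002080020200404088006000800408018820012800000a024010011010104200080050004,
    0xa6, 1, 0x32405463708691a3, 8,
    [(0xa6, 1), (0x205396a8, 4), (0x10548796, 4), (0x214396a7, 4), (0x205396a8, 4), (0x10548796, 4)],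
    [(0x32405463708691a3, 8), (0x405273a8, 4), (0x50618497, 4), (0x406185a2, 4), (0x50618497, 4), (0x208593a4, 4), (0x617382a5, 4), (0x406185a2, 4), (0x617382a5, 4), (0x548097a2, 4), (0x406185a2, 4), (0x208593a4, 4)]⟩

def c_2448 : frmChk tA tB F_2448 = true := by decide +kernel

def r_2448_0 : chkL rootF engF2 tA tB sA_310 sB_310 4 F_2448 [(511, 0, 0)]
    0x1d80172391303c5303c531681da925109d0b5283c168660f1a222c1d = true := by
  decide +kernel

theorem f_2448 (h : TabsF) : FrameF repsF 310 F_2448.f :=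
  frame_of rfl c_2448 (runs_of engOK r_2448_0) (by decide +kernel) h.1 h.2

def F_2449 : FrX :=
  ⟨0x1001040012008080000e00840800410008101000042100004060010004000882808200084100110200044206010000210014001001200401101000040c04,
    0xa3, 1, 0x3165748290a3, 6,
    [(0xa3, 1), (0x207584a6, 4), (0x10547693, 4), (0x647593a8, 4), (0x10547693, 4), (0x216485a7, 4), (0x208693a4, 4), (0x647593a8, 4), (0x208693a4, 4), (0x106574a8, 4), (0x647593a8, 4), (0x216485a7, 4)],
    [(0x3165748290a3, 6), (0x647298a5, 4), (0x10547693, 4), (0x106475a2, 4), (0x10547693, 4), (0x627583a4, 4), (0x105298a7, 4), (0x106475a2, 4), (0x105298a7, 4), (0x657493a2, 4), (0x106475a2, 4), (0x627583a4, 4)]⟩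

def c_2449 : frmChk tB tB F_2449 = true := by decide +kernel

def r_2449_0 : chkL rootF engF2 tB tB sB_310 sB_310 4 F_2449 [(511, 0, 0)]
    0x1 = true := by
  decide +kernel

theorem f_2449 (h : TabsF) : FrameF repsF 310 F_2449.f :=
  frame_of rfl c_2449 (runs_of engOK r_2449_0) (by decide +kernel) h.2 h.2

theorem cl_310 (h : TabsF) : ∀ f ∈ fr_310, FrameF repsF 310 f :=
  List.forall_mem_cons.2 ⟨f_2432 h, List.forall_mem_cons.2 ⟨f_2433 h, List.forall_mem_cons.2 ⟨f_2434 h, List.forall_mem_cons.2 ⟨f_2435 h, List.forall_mem_cons.2 ⟨f_2436 h, List.forall_mem_cons.2 ⟨f_2437 h, List.forall_mem_cons.2 ⟨f_2438 h, List.forall_mem_cons.2 ⟨f_2439 h, List.forall_mem_cons.2 ⟨f_2440 h, List.forall_mem_cons.2 ⟨f_2441 h, List.forall_mem_cons.2 ⟨f_2442 h, List.forall_mem_cons.2 ⟨f_2443 h, List.forall_mem_cons.2 ⟨f_2444 h, List.forall_mem_cons.2 ⟨f_2445 h, List.forall_mem_cons.2 ⟨f_2446 h, List.forall_mem_cons.2 ⟨f_2447 h, List.forall_mem_cons.2 ⟨f_2448 h, List.forall_mem_cons.2 ⟨f_2449 h,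
    fun _ h0 => absurd h0 List.not_mem_nil⟩⟩⟩⟩⟩⟩⟩⟩⟩⟩⟩⟩⟩⟩⟩⟩⟩⟩

def F_2450 : FrX :=
  ⟨0x80080a000804040e000021010020010000020408822000040484000086400000204440100400080008900400c900100200400a0204100202020240c0000,
    0xa6, 1, 0x3060768690a8, 6,
    [(0xa6, 1), (0x205396a8, 4), (0x10548796, 4), (0x214396a7, 4), (0x205396a8, 4), (0x10548796, 4)],
    [(0x3060768690a8, 6), (0x507692a8, 4), (0x547691a3, 4), (0x21407683, 4), (0x507692a8, 4), (0x547691a3, 4)]⟩

def c_2450 : frmChk tA tA F_2450 = true := by decide +kernel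

def r_2450_0 : chkL rootF engF2 tA tA sA_311 sA_311 4 F_2450 [(511, 0, 0)]
    0x15145a32b223280f = true := by
  decide +kernel

theorem f_2450 (h : TabsF) : FrameF repsF 311 F_2450.f :=
  frame_of rfl c_2450 (runs_of engOK r_2450_0) (by decide +kernel) h.1 h.1

def F_2451 : FrX :=
  ⟨0x2002000900044004000e02041000141000800040810000014401004102004040220100210000048800880406041010001080088080401820200088000084,
    0xa3, 1, 0x2140508392a8, 6,
    [(0xa3, 1), (0x208693a5, 4), (0x10548793, 4), (0x217693a4, 4), (0x208693a5, 4), (0x10548793, 4)],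
    [(0x2140508392a8, 6), (0x318495a6, 4), (0x314052a7, 4), (0x31768092, 4), (0x318495a6, 4), (0x314052a7, 4)]⟩

def c_2451 : frmChk tA tA F_2451 = true := by decide +kernel

def r_2451_0 : chkL rootF engF2 tA tA sA_311 sA_311 4 F_2451 [(511, 0, 0)]
    0x10cc5c09c8ea282b0ac2b0ac1d03c2711c1d = true := by
  decide +kernel

theorem f_2451 (h : TabsF) : FrameF repsF 311 F_2451.f :=
  frame_of rfl c_2451 (runs_of engOK r_2451_0) (by decide +kernel) h.1 h.1

def F_2452 : FrX :=
  ⟨0x2002000900044004000e020410001410008000408008020800a000410000a202020004210020080e00800001019000040284008000e000008020040c1100,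
    0xa3, 1, 0x104065718793a4, 7,
    [(0xa3, 1), (0x208693a5, 4), (0x10548793, 4), (0x217693a4, 4), (0x208693a5, 4), (0x10548793, 4)],
    [(0x104065718793a4, 7), (0x428695a0, 4), (0x317485a6, 4), (0x318690a5, 4), (0x317485a6, 4), (0x607298a5, 4), (0x314250a9, 4), (0x318690a5, 4), (0x314250a9, 4), (0x657490a8, 4), (0x318690a5, 4), (0x607298a5, 4)]⟩

def c_2452 : frmChk tA tB F_2452 = true := by decide +kernel

def r_2452_0 : chkL rootF engF2 tA tB sA_311 sB_311 4 F_2452 [(511, 0, 0)]
    0x4330d82b1a427 = true := by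
  decide +kernel

theorem f_2452 (h : TabsF) : FrameF repsF 311 F_2452.f :=
  frame_of rfl c_2452 (runs_of engOK r_2452_0) (by decide +kernel) h.1 h.2

def F_2453 : FrX :=
  ⟨0x482000044040440000c204002000900018204000108048000088081001041002002041010000410008040044909000201000a0081001a0040008800041,
    0xa0, 1, 0x214360748691a6, 7,
    [(0xa0, 1), (0x538690a2, 4), (0x548790a1, 4), (0x21437690, 4), (0x538690a2, 4), (0x548790a1, 4)],
    [(0x214360748691a6, 7), (0x536170a4, 4), (0x758296a3, 4), (0x405382a7, 4), (0x758296a3, 4), (0x435091a7, 4), (0x617482a0, 4), (0x405382a7, 4), (0x617482a0, 4), (0x407396a5, 4), (0x405382a7, 4), (0x435091a7, 4)]⟩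

def c_2453 : frmChk tA tB F_2453 = true := by decide +kernel

def r_2453_0 : chkL rootF engF2 tA tB sA_311 sB_311 4 F_2453 [(511, 0, 0)]
    0x119817 = true := by
  decide +kernel

theorem f_2453 (h : TabsF) : FrameF repsF 311 F_2453.f :=
  frame_of rfl c_2453 (runs_of engOK r_2453_0) (by decide +kernel) h.1 h.2

def F_2454 : FrX :=
  ⟨0x80080a000804040e0000210100200100000204088208020011008010080008200108406000400401004810081808304010000101100800c0010044c0000,
    0xa6, 1, 0x3154647192a3, 6,
    [(0xa6, 1), (0x205396a8, 4), (0x10548796, 4), (0x214396a7, 4), (0x205396a8, 4), (0x10548796, 4)],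
    [(0x3154647192a3, 6), (0x218590a4, 4), (0x21647083, 4), (0x215397a6, 4), (0x218590a4, 4), (0x21647083, 4)]⟩

def c_2454 : frmChk tA tA F_2454 = true := by decide +kernel

def r_2454_0 : chkL rootF engF2 tA tA sA_311 sA_311 4 F_2454 [(511, 0, 0)]
    0x44705c4b = true := by
  decide +kernel

theorem f_2454 (h : TabsF) : FrameF repsF 311 F_2454.f :=
  frame_of rfl c_2454 (runs_of engOK r_2454_0) (by decide +kernel) h.1 h.1

def F_2455 : FrX :=
  ⟨0x80080a000804040e0000210100200100000204088063000800440040008000003012041008004000080840101111000020004a020400901900088840000,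
    0xa6, 1, 0x10416187a8, 5,
    [(0xa6, 1), (0x205396a8, 4), (0x10548796, 4), (0x214396a7, 4), (0x205396a8, 4), (0x10548796, 4)],
    [(0x10416187a8, 5), (0x214385a0, 4), (0x50618497, 4), (0x408597a3, 4), (0x50618497, 4), (0x406283a5, 4), (0x213097a4, 4), (0x408597a3, 4), (0x213097a4, 4), (0x546180a3, 4), (0x408597a3, 4), (0x406283a5, 4)]⟩

def c_2455 : frmChk tA tB F_2455 = true := by decide +kernel

def r_2455_0 : chkL rootF engF2 tA tB sA_311 sB_311 4 F_2455 [(511, 0, 0)]
    0x103c5c = true := by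
  decide +kernel

theorem f_2455 (h : TabsF) : FrameF repsF 311 F_2455.f :=
  frame_of rfl c_2455 (runs_of engOK r_2455_0) (by decide +kernel) h.1 h.2

def F_2456 : FrX :=
  ⟨0x2002000900044004000e02041000141000800040810000084048002008820021200002204004005010040030812020003001820010000208100220008084,
    0xa3, 1, 0x32437291a0, 5,
    [(0xa3, 1), (0x208693a5, 4), (0x10548793, 4), (0x217693a4, 4), (0x208693a5, 4), (0x10548793, 4)],
    [(0x32437291a0, 5), (0x536482a7, 4), (0x105263a9, 4), (0x10536284, 4), (0x105263a9, 4), (0x43628597, 4), (0x104286a7, 4), (0x10536284, 4), (0x104286a7, 4), (0x326584a9, 4), (0x10536284, 4), (0x43628597, 4)]⟩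

def c_2456 : frmChk tA tB F_2456 = true := by decide +kernel

def r_2456_0 : chkL rootF engF2 tA tB sA_311 sB_311 4 F_2456 [(511, 0, 0)]
    0x41d0e4390e4552644e1384d0742b03c17 = true := by
  decide +kernel

theorem f_2456 (h : TabsF) : FrameF repsF 311 F_2456.f :=
  frame_of rfl c_2456 (runs_of engOK r_2456_0) (by decide +kernel) h.1 h.2

def F_2457 : FrX :=
  ⟨0x80080a000804040e000021010020010000020408804210020200084000140040184000814000810080000011020408010010c0440000904028111000021,
    0xa6, 1, 0x5265758697a8, 6,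
    [(0xa6, 1), (0x205396a8, 4), (0x10548796, 4), (0x214396a7, 4), (0x205396a8, 4), (0x10548796, 4)],
    [(0x5265758697a8, 6), (0x506273a8, 4), (0x106274a9, 4), (0x43516298, 4), (0x506273a8, 4), (0x106274a9, 4)]⟩

def c_2457 : frmChk tA tA F_2457 = true := by decide +kernel

def r_2457_0 : chkL rootF engF2 tA tA sA_311 sA_311 4 F_2457 [(511, 0, 0)]
    0x4551541e07447 = true := by
  decide +kernel

theorem f_2457 (h : TabsF) : FrameF repsF 311 F_2457.f :=
  frame_of rfl c_2457 (runs_of engOK r_2457_0) (by decide +kernel) h.1 h.1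

def F_2458 : FrX :=
  ⟨0x2002000900044004000e02041000141000800040801001021000c0020102020000408804102800040c00020100004880000400042184000002a0c0062020,
    0xa3, 1, 0x50608495a1, 5,
    [(0xa3, 1), (0x208693a5, 4), (0x10548793, 4), (0x217693a4, 4), (0x208693a5, 4), (0x10548793, 4)],
    [(0x50608495a1, 5), (0x53628497, 4), (0x107598a6, 4), (0x10438597, 4), (0x107598a6, 4), (0x738594a2, 4), (0x10546283, 4), (0x10438597, 4), (0x10546283, 4), (0x438795a6, 4), (0x10438597, 4), (0x738594a2, 4)]⟩

def c_2458 : frmChk tA tB F_2458 = true := by decide +kernel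

def r_2458_0 : chkL rootF engF2 tA tB sA_311 sB_311 4 F_2458 [(511, 0, 0)]
    0x10acc60783503c55 = true := by
  decide +kernel

theorem f_2458 (h : TabsF) : FrameF repsF 311 F_2458.f :=
  frame_of rfl c_2458 (runs_of engOK r_2458_0) (by decide +kernel) h.1 h.2

def F_2459 : FrX :=
  ⟨0x2002000900044004000e0204100014100080004080040104200140040100840001810202000800c0140a0404400000801001800440080800010110004023,
    0xa3, 1, 0x1096a2, 3,
    [(0xa3, 1), (0x208693a5, 4), (0x10548793, 4), (0x217693a4, 4), (0x208693a5, 4), (0x10548793, 4)],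
    [(0x1096a2, 3), (0x758493a1, 4), (0x10546297, 4), (0x62758394, 4), (0x10546297, 4), (0x738594a0, 4), (0x436298a1, 4), (0x62758394, 4), (0x436298a1, 4), (0x10748395, 4), (0x62758394, 4), (0x738594a0, 4)]⟩

def c_2459 : frmChk tA tB F_2459 = true := by decide +kernel

def r_2459_0 : chkL rootF engF2 tA tB sA_311 sB_311 4 F_2459 [(511, 0, 0)]
    0x41b = true := by
  decide +kernel

theorem f_2459 (h : TabsF) : FrameF repsF 311 F_2459.f :=
  frame_of rfl c_2459 (runs_of engOK r_2459_0) (by decide +kernel) h.1 h.2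

def F_2460 : FrX :=
  ⟨0x80080a000804040e000021010020010000020408a000100404008810022400100080030040002d0100a0000604001802002000480001001010220408022,
    0xa6, 1, 0x5464748593a2, 6,
    [(0xa6, 1), (0x205396a8, 4), (0x10548796, 4), (0x214396a7, 4), (0x205396a8, 4), (0x10548796, 4)],
    [(0x5464748593a2, 6), (0x325498a0, 4), (0x10326487, 4), (0x326597a1, 4), (0x325498a0, 4), (0x10326487, 4)]⟩

def c_2460 : frmChk tA tA F_2460 = true := by decide +kernel

def r_2460_0 : chkL rootF engF2 tA tA sA_311 sA_311 4 F_2460 [(511, 0, 0)]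
    0x40f = true := by
  decide +kernel

theorem f_2460 (h : TabsF) : FrameF repsF 311 F_2460.f :=
  frame_of rfl c_2460 (runs_of engOK r_2460_0) (by decide +kernel) h.1 h.1

def F_2461 : FrX :=
  ⟨0x1c210200000404400000204100010100008204088808100000088020020040100110206000002c0100a0404604000802081000480090001010100060022,
    0x0, 0, 0x5487, 2,
    [(0x0, 0), (0x205386a9, 4), (0x105487a9, 4), (0x214376a9, 4), (0x205386a9, 4), (0x105487a9, 4)],
    [(0x5487, 2), (0x20637584, 4), (0x105486a9, 4), (0x657384a9, 4), (0x105486a9, 4), (0x21657483, 4), (0x205376a9, 4), (0x657384a9, 4), (0x205376a9, 4), (0x10647385, 4), (0x657384a9, 4), (0x21657483, 4)]⟩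

def c_2461 : frmChk tA tB F_2461 = true := by decide +kernel

def r_2461_0 : chkL rootF engF2 tA tB sA_311 sB_311 4 F_2461 [(511, 0, 0)]
    0x40f = true := by
  decide +kernel

theorem f_2461 (h : TabsF) : FrameF repsF 311 F_2461.f :=
  frame_of rfl c_2461 (runs_of engOK r_2461_0) (by decide +kernel) h.1 h.2

def F_2462 : FrX :=
  ⟨0x2002000900044004000e0204100014100080004080040104200140040100840000410206000800c014040418400000801001800440080800028110004021,
    0xa3, 1, 0x214054607495a2, 7,
    [(0xa3, 1), (0x208693a5, 4), (0x10548793, 4), (0x217693a4, 4), (0x208693a5, 4), (0x10548793, 4)],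
    [(0x214054607495a2, 7), (0x438795a6, 4), (0x10546297, 4), (0x10748395, 4), (0x10546297, 4), (0x537498a2, 4), (0x107384a6, 4), (0x10748395, 4), (0x107384a6, 4), (0x62758394, 4), (0x10748395, 4), (0x537498a2, 4)]⟩

def c_2462 : frmChk tA tB F_2462 = true := by decide +kernel

def r_2462_0 : chkL rootF engF2 tA tB sA_311 sB_311 4 F_2462 [(511, 0, 0)]
    0x105c173482781c4e81c2e = true := by
  decide +kernel

theorem f_2462 (h : TabsF) : FrameF repsF 311 F_2462.f :=
  frame_of rfl c_2462 (runs_of engOK r_2462_0) (by decide +kernel) h.1 h.2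

def F_2463 : FrX :=
  ⟨0x2002000900044004000e02041000141000800040810000028090000404800881200200085804000480000124081010000080088022040000501200042201,
    0xa3, 1, 0x32438198a0, 5,
    [(0xa3, 1), (0x208693a5, 4), (0x10548793, 4), (0x217693a4, 4), (0x208693a5, 4), (0x10548793, 4)],
    [(0x32438198a0, 5), (0x647592a3, 4), (0x105276a8, 4), (0x10627594, 4), (0x105276a8, 4), (0x62748395, 4), (0x104296a3, 4), (0x10627594, 4), (0x104296a3, 4), (0x657294a8, 4), (0x10627594, 4), (0x62748395, 4)]⟩

def c_2463 : frmChk tA tB F_2463 = true := by decide +kernel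

def r_2463_0 : chkL rootF engF2 tA tB sA_311 sB_311 4 F_2463 [(511, 0, 0)]
    0x41e1a4691a41e0781b0781e0e45c1545c = true := by
  decide +kernel

theorem f_2463 (h : TabsF) : FrameF repsF 311 F_2463.f :=
  frame_of rfl c_2463 (runs_of engOK r_2463_0) (by decide +kernel) h.1 h.2

def F_2464 : FrX :=
  ⟨0x2002000900044004000e02041000141000800040800400448020004200012108100020210100011000180008880840040300a01008080808002002204004,
    0xa3, 1, 0x102153748091a3, 7,
    [(0xa3, 1), (0x208693a5, 4), (0x10548793, 4), (0x217693a4, 4), (0x208693a5, 4), (0x10548793, 4)],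
    [(0x102153748091a3, 7), (0x437180a6, 4), (0x52647398, 4), (0x435276a1, 4), (0x52647398, 4), (0x317690a4, 4), (0x526180a7, 4), (0x435276a1, 4), (0x526180a7, 4), (0x637498a1, 4), (0x435276a1, 4), (0x317690a4, 4)]⟩

def c_2464 : frmChk tA tB F_2464 = true := by decide +kernel

def r_2464_0 : chkL rootF engF2 tA tB sA_311 sB_311 4 F_2464 [(511, 0, 0)]
    0x1 = true := by
  decide +kernel

theorem f_2464 (h : TabsF) : FrameF repsF 311 F_2464.f :=
  frame_of rfl c_2464 (runs_of engOK r_2464_0) (by decide +kernel) h.1 h.2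

def F_2465 : FrX :=
  ⟨0x2002000900044004000e02041000141000800040808000401800a000108120010000a40011a0001020440002011020040000011005000208001140110009,
    0xa3, 1, 0x2130627493a5, 6,
    [(0xa3, 1), (0x208693a5, 4), (0x10548793, 4), (0x217693a4, 4), (0x208693a5, 4), (0x10548793, 4)],
    [(0x2130627493a5, 6), (0x506381a9, 4), (0x325084a7, 4), (0x41506297, 4), (0x506381a9, 4), (0x325084a7, 4)]⟩

def c_2465 : frmChk tA tA F_2465 = true := by decide +kernel

def r_2465_0 : chkL rootF engF2 tA tA sA_311 sA_311 4 F_2465 [(511, 0, 0)]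
    0x43c05c1b05c1b078470b45c0d81707417 = true := by
  decide +kernel

theorem f_2465 (h : TabsF) : FrameF repsF 311 F_2465.f :=
  frame_of rfl c_2465 (runs_of engOK r_2465_0) (by decide +kernel) h.1 h.1

def F_2466 : FrX :=
  ⟨0x80080a000804040e000021010020010000020408900800004840b0000220008000013010000030100081800a0085000022000204800050a1002000c0080,
    0xa6, 1, 0x41516191a8, 5,
    [(0xa6, 1), (0x205396a8, 4), (0x10548796, 4), (0x214396a7, 4), (0x205396a8, 4), (0x10548796, 4)],
    [(0x41516191a8, 5), (0x205374a1, 4), (0x41758690, 4), (0x517486a3, 4), (0x41758690, 4), (0x517392a4, 4), (0x203186a5, 4), (0x517486a3, 4), (0x203186a5, 4), (0x547190a3, 4), (0x517486a3, 4), (0x517392a4, 4)]⟩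

def c_2466 : frmChk tA tB F_2466 = true := by decide +kernel

def r_2466_0 : chkL rootF engF2 tA tB sA_311 sB_311 4 F_2466 [(511, 0, 0)]
    0x1074c335056 = true := by
  decide +kernel

theorem f_2466 (h : TabsF) : FrameF repsF 311 F_2466.f :=
  frame_of rfl c_2466 (runs_of engOK r_2466_0) (by decide +kernel) h.1 h.2

def F_2467 : FrX :=
  ⟨0x482000044040440000c204002000900018204001008002080100080804004422040005000005470000080108040800801400a000200000901020008038,
    0xa0, 1, 0x42708297a4, 5,
    [(0xa0, 1), (0x538690a2, 4), (0x548790a1, 4), (0x21437690, 4), (0x538690a2, 4), (0x548790a1, 4)],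
    [(0x42708297a4, 5), (0x638795a4, 4), (0x207196a5, 4), (0x204395a6, 4), (0x207196a5, 4), (0x548193a6, 4), (0x206487a3, 4), (0x204395a6, 4), (0x206487a3, 4), (0x436571a9, 4), (0x204395a6, 4), (0x548193a6, 4)]⟩

def c_2467 : frmChk tA tB F_2467 = true := by decide +kernel

def r_2467_0 : chkL rootF engF2 tA tB sA_311 sB_311 4 F_2467 [(511, 0, 0)]
    0x40f03c0f1584b03c2b = true := by
  decide +kernel

theorem f_2467 (h : TabsF) : FrameF repsF 311 F_2467.f :=
  frame_of rfl c_2467 (runs_of engOK r_2467_0) (by decide +kernel) h.1 h.2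

def F_2468 : FrX :=
  ⟨0x1001040012008080000e0084080041000810100006000002808020800418008404000a006020410208010080200420010000284402010004011002202080,
    0xa3, 1, 0x1040546590a3, 6,
    [(0xa3, 1), (0x207584a6, 4), (0x10547693, 4), (0x647593a8, 4), (0x10547693, 4), (0x216485a7, 4), (0x208693a4, 4), (0x647593a8, 4), (0x208693a4, 4), (0x106574a8, 4), (0x647593a8, 4), (0x216485a7, 4)],
    [(0x1040546590a3, 6), (0x768592a1, 4), (0x43657190, 4), (0x435176a8, 4), (0x43657190, 4), (0x205186a7, 4), (0x438192a5, 4), (0x435176a8, 4), (0x438192a5, 4), (0x617590a8, 4), (0x435176a8, 4), (0x205186a7, 4)]⟩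

def c_2468 : frmChk tB tB F_2468 = true := by decide +kernel

def r_2468_0 : chkL rootF engF2 tB tB sB_311 sB_311 4 F_2468 [(511, 0, 0)]
    0x435 = true := by
  decide +kernel

theorem f_2468 (h : TabsF) : FrameF repsF 311 F_2468.f :=
  frame_of rfl c_2468 (runs_of engOK r_2468_0) (by decide +kernel) h.2 h.2

def F_2469 : FrX :=
  ⟨0x1001040012008080000e00840800410008101000044010080090100004102010010302002020042a00020400444010004840008808000040409002820010,
    0xa3, 1, 0x102152637492a6, 7,
    [(0xa3, 1), (0x207584a6, 4), (0x10547693, 4), (0x647593a8, 4), (0x10547693, 4), (0x216485a7, 4), (0x208693a4, 4), (0x647593a8, 4), (0x208693a4, 4), (0x106574a8, 4), (0x647593a8, 4), (0x216485a7, 4)],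
    [(0x102152637492a6, 7), (0x536091a8, 4), (0x21537084, 4), (0x537692a4, 4), (0x536091a8, 4), (0x21537084, 4)]⟩

def c_2469 : frmChk tB tA F_2469 = true := by decide +kernel

def r_2469_0 : chkL rootF engF2 tB tA sB_311 sA_311 4 F_2469 [(511, 0, 0)]
    0x48e05c2b06c8e = true := by
  decide +kernel

theorem f_2469 (h : TabsF) : FrameF repsF 311 F_2469.f :=
  frame_of rfl c_2469 (runs_of engOK r_2469_0) (by decide +kernel) h.2 h.1

def F_2470 : FrX :=
  ⟨0x1001040012008080000e0084080041000810100004400804041010000420201000824200702000200000025201081000004000501100044040c003002040,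
    0xa3, 1, 0x2032637490a5, 6,
    [(0xa3, 1), (0x207584a6, 4), (0x10547693, 4), (0x647593a8, 4), (0x10547693, 4), (0x216485a7, 4), (0x208693a4, 4), (0x647593a8, 4), (0x208693a4, 4), (0x106574a8, 4), (0x647593a8, 4), (0x216485a7, 4)],
    [(0x2032637490a5, 6), (0x608793a4, 4), (0x405291a7, 4), (0x527086a4, 4), (0x405291a7, 4), (0x316470a8, 4), (0x52768093, 4), (0x527086a4, 4), (0x52768093, 4), (0x748691a0, 4), (0x527086a4, 4), (0x316470a8, 4)]⟩

def c_2470 : frmChk tB tB F_2470 = true := by decide +kernel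

def r_2470_0 : chkL rootF engF2 tB tB sB_311 sB_311 4 F_2470 [(511, 0, 0)]
    0x10b42d07a1aa0e13 = true := by
  decide +kernel

theorem f_2470 (h : TabsF) : FrameF repsF 311 F_2470.f :=
  frame_of rfl c_2470 (runs_of engOK r_2470_0) (by decide +kernel) h.2 h.2

def F_2471 : FrX :=
  ⟨0x1001040012008080000e00840800410008101000040900004460010020000882808200004200008100084042c00000422010800404200480484000200048,
    0xa3, 1, 0x2132417181a3, 6,
    [(0xa3, 1), (0x207584a6, 4), (0x10547693, 4), (0x647593a8, 4), (0x10547693, 4), (0x216485a7, 4), (0x208693a4, 4), (0x647593a8, 4), (0x208693a4, 4), (0x106574a8, 4), (0x647593a8, 4), (0x216485a7, 4)],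
    [(0x2132417181a3, 6), (0x305472a6, 4), (0x52648091, 4), (0x546291a7, 4), (0x52648091, 4), (0x627583a4, 4), (0x307691a2, 4), (0x546291a7, 4), (0x307691a2, 4), (0x426580a7, 4), (0x546291a7, 4), (0x627583a4, 4)]⟩

def c_2471 : frmChk tB tB F_2471 = true := by decide +kernel

def r_2471_0 : chkL rootF engF2 tB tB sB_311 sB_311 4 F_2471 [(511, 0, 0)]
    0x4e106c2713417 = true := by
  decide +kernel

theorem f_2471 (h : TabsF) : FrameF repsF 311 F_2471.f :=
  frame_of rfl c_2471 (runs_of engOK r_2471_0) (by decide +kernel) h.2 h.2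

def F_2472 : FrX :=
  ⟨0x1c404400000808100000084008041000010108404210200000108100010200004204052000010c000244018888000240100201010104008005003000088,
    0x0, 0, 0x4376, 2,
    [(0x0, 0), (0x20637584, 4), (0x105476a9, 4), (0x647583a9, 4), (0x105476a9, 4), (0x21647385, 4), (0x204386a9, 4), (0x647583a9, 4), (0x204386a9, 4), (0x10657483, 4), (0x647583a9, 4), (0x21647385, 4)],
    [(0x4376, 2), (0x205487a9, 4), (0x105386a9, 4), (0x214376a9, 4), (0x205487a9, 4), (0x105386a9, 4)]⟩

def c_2472 : frmChk tB tA F_2472 = true := by decide +kernel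

def r_2472_0 : chkL rootF engF2 tB tA sB_311 sA_311 4 F_2472 [(511, 0, 0)]
    0x10ac0f1380f = true := by
  decide +kernel

theorem f_2472 (h : TabsF) : FrameF repsF 311 F_2472.f :=
  frame_of rfl c_2472 (runs_of engOK r_2472_0) (by decide +kernel) h.2 h.1

def F_2473 : FrX :=
  ⟨0x1001040012008080000e008408004100081010000420201000480220020000c044020200088020024000180003140820030000080a004088101008022000,
    0xa3, 1, 0x3262728792a3, 6,
    [(0xa3, 1), (0x207584a6, 4), (0x10547693, 4), (0x647593a8, 4), (0x10547693, 4), (0x216485a7, 4), (0x208693a4, 4), (0x647593a8, 4), (0x208693a4, 4), (0x106574a8, 4), (0x647593a8, 4), (0x216485a7, 4)],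
    [(0x3262728792a3, 6), (0x648590a3, 4), (0x10547283, 4), (0x437285a6, 4), (0x10547283, 4), (0x436591a8, 4), (0x637290a4, 4), (0x437285a6, 4), (0x637290a4, 4), (0x105384a6, 4), (0x437285a6, 4), (0x436591a8, 4)]⟩

def c_2473 : frmChk tB tB F_2473 = true := by decide +kernel

def r_2473_0 : chkL rootF engF2 tB tB sB_311 sB_311 4 F_2473 [(511, 0, 0)]
    0x1 = true := by
  decide +kernel

theorem f_2473 (h : TabsF) : FrameF repsF 311 F_2473.f :=
  frame_of rfl c_2473 (runs_of engOK r_2473_0) (by decide +kernel) h.2 h.2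

def F_2474 : FrX :=
  ⟨0x1001040012008080000e0084080041000810100004200802400140010102000004a0002a0000208040084804400000802804202100021200058100000190,
    0xa3, 1, 0x5161738695a7, 6,
    [(0xa3, 1), (0x207584a6, 4), (0x10547693, 4), (0x647593a8, 4), (0x10547693, 4), (0x216485a7, 4), (0x208693a4, 4), (0x647593a8, 4), (0x208693a4, 4), (0x106574a8, 4), (0x647593a8, 4), (0x216485a7, 4)],
    [(0x5161738695a7, 6), (0x205487a9, 4), (0x316094a8, 4), (0x317584a9, 4), (0x316094a8, 4), (0x628495a7, 4), (0x20317485, 4), (0x317584a9, 4), (0x20317485, 4), (0x607598a4, 4), (0x317584a9, 4), (0x628495a7, 4)]⟩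

def c_2474 : frmChk tB tB F_2474 = true := by decide +kernel

def r_2474_0 : chkL rootF engF2 tB tB sB_311 sB_311 4 F_2474 [(511, 0, 0)]
    0x4c625817 = true := by
  decide +kernel

theorem f_2474 (h : TabsF) : FrameF repsF 311 F_2474.f :=
  frame_of rfl c_2474 (runs_of engOK r_2474_0) (by decide +kernel) h.2 h.2

def F_2475 : FrX :=
  ⟨0x80080a000804040e000021010020010000020408a000100208002480048020200008140040002d0200c00005080024080040080020004003000c0808408,
    0xa6, 1, 0x21768792a4, 5,
    [(0xa6, 1), (0x205396a8, 4), (0x10548796, 4), (0x214396a7, 4), (0x205396a8, 4), (0x10548796, 4)],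
    [(0x21768792a4, 5), (0x738590a6, 4), (0x204187a5, 4), (0x416385a7, 4), (0x204187a5, 4), (0x658392a7, 4), (0x417690a3, 4), (0x416385a7, 4), (0x417690a3, 4), (0x206375a8, 4), (0x416385a7, 4), (0x658392a7, 4)]⟩

def c_2475 : frmChk tA tB F_2475 = true := by decide +kernel

def r_2475_0 : chkL rootF engF2 tA tB sA_311 sB_311 4 F_2475 [(511, 0, 0)]
    0x40f61586154532a4b1078a514c362c4593503914c39 = true := by
  decide +kernel

theorem f_2475 (h : TabsF) : FrameF repsF 311 F_2475.f :=
  frame_of rfl c_2475 (runs_of engOK r_2475_0) (by decide +kernel) h.1 h.2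

def F_2476 : FrX :=
  ⟨0x80080a000804040e00002101002001000002040881011001020010020042002014024000c000410200000008880401400010c2010001088006210800044,
    0xa6, 1, 0x102140508394a6, 7,
    [(0xa6, 1), (0x205396a8, 4), (0x10548796, 4), (0x214396a7, 4), (0x205396a8, 4), (0x10548796, 4)],
    [(0x102140508394a6, 7), (0x507493a8, 4), (0x526194a7, 4), (0x617483a9, 4), (0x526194a7, 4), (0x204387a9, 4), (0x506198a3, 4), (0x617483a9, 4), (0x506198a3, 4), (0x528397a4, 4), (0x617483a9, 4), (0x204387a9, 4)]⟩

def c_2476 : frmChk tA tB F_2476 = true := by decide +kernel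

def r_2476_0 : chkL rootF engF2 tA tB sA_311 sB_311 4 F_2476 [(511, 0, 0)]
    0x40f0740f = true := by
  decide +kernel

theorem f_2476 (h : TabsF) : FrameF repsF 311 F_2476.f :=
  frame_of rfl c_2476 (runs_of engOK r_2476_0) (by decide +kernel) h.1 h.2

def F_2477 : FrX :=
  ⟨0x1001040012008080000e008408004100081010000420080240014001010200000860000e0000208040064818400000804004201500020800060100000092,
    0xa3, 1, 0x3150608493a5, 6,
    [(0xa3, 1), (0x207584a6, 4), (0x10547693, 4), (0x647593a8, 4), (0x10547693, 4), (0x216485a7, 4), (0x208693a4, 4), (0x647593a8, 4), (0x208693a4, 4), (0x106574a8, 4), (0x647593a8, 4), (0x216485a7, 4)],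
    [(0x3150608493a5, 6), (0x628495a7, 4), (0x106375a8, 4), (0x108594a7, 4), (0x106375a8, 4), (0x328597a4, 4), (0x10546298, 4), (0x108594a7, 4), (0x10546298, 4), (0x638794a5, 4), (0x108594a7, 4), (0x328597a4, 4)]⟩

def c_2477 : frmChk tB tB F_2477 = true := by decide +kernel

def r_2477_0 : chkL rootF engF2 tB tB sB_311 sB_311 4 F_2477 [(511, 0, 0)]
    0x106d07514352a469 = true := by
  decide +kernel

theorem f_2477 (h : TabsF) : FrameF repsF 311 F_2477.f :=
  frame_of rfl c_2477 (runs_of engOK r_2477_0) (by decide +kernel) h.2 h.2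

theorem cl_311 (h : TabsF) : ∀ f ∈ fr_311, FrameF repsF 311 f :=
  List.forall_mem_cons.2 ⟨f_2450 h, List.forall_mem_cons.2 ⟨f_2451 h, List.forall_mem_cons.2 ⟨f_2452 h, List.forall_mem_cons.2 ⟨f_2453 h, List.forall_mem_cons.2 ⟨f_2454 h, List.forall_mem_cons.2 ⟨f_2455 h, List.forall_mem_cons.2 ⟨f_2456 h, List.forall_mem_cons.2 ⟨f_2457 h, List.forall_mem_cons.2 ⟨f_2458 h, List.forall_mem_cons.2 ⟨f_2459 h, List.forall_mem_cons.2 ⟨f_2460 h, List.forall_mem_cons.2 ⟨f_2461 h, List.forall_mem_cons.2 ⟨f_2462 h, List.forall_mem_cons.2 ⟨f_2463 h, List.forall_mem_cons.2 ⟨f_2464 h, List.forall_mem_cons.2 ⟨f_2465 h, List.forall_mem_cons.2 ⟨f_2466 h, List.forall_mem_cons.2 ⟨f_2467 h, List.forall_mem_cons.2 ⟨f_2468 h, List.forall_mem_cons.2 ⟨f_2469 h, List.forall_mem_cons.2 ⟨f_2470 h, List.forall_mem_cons.2 ⟨f_2471 h, List.forall_mem_cons.2 ⟨f_2472 h, List.forall_mem_cons.2 ⟨f_2473 h, List.forall_mem_cons.2 ⟨f_2474 h, List.forall_mem_cons.2 ⟨f_2475 h, List.forall_mem_cons.2 ⟨f_2476 h, List.forall_mem_cons.2 ⟨f_2477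 h,
    fun _ h0 => absurd h0 List.not_mem_nil⟩⟩⟩⟩⟩⟩⟩⟩⟩⟩⟩⟩⟩⟩⟩⟩⟩⟩⟩⟩⟩⟩⟩⟩⟩⟩⟩⟩

def F_2478 : FrX :=
  ⟨0x80080a000804040e00002101002001000002040881200008044400100012000030920000a02800021008000408302800000082010803001080a02800004,
    0xa6, 1, 0x324164708495a6, 7,
    [(0xa6, 1), (0x205396a8, 4), (0x10548796, 4), (0x214396a7, 4), (0x205396a8, 4), (0x10548796, 4)],
    [(0x324164708495a6, 7), (0x517392a6, 4), (0x51607498, 4), (0x435182a0, 4), (0x517392a6, 4), (0x51607498, 4)]⟩

def c_2478 : frmChk tA tA F_2478 = true := by decide +kernel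

def r_2478_0 : chkL rootF engF2 tA tA sA_312 sA_312 4 F_2478 [(511, 0, 0)]
    0x43a0ac3a0e82b264470781d0785314e4c = true := by
  decide +kernel

theorem f_2478 (h : TabsF) : FrameF repsF 312 F_2478.f :=
  frame_of rfl c_2478 (runs_of engOK r_2478_0) (by decide +kernel) h.1 h.1

def F_2479 : FrX :=
  ⟨0x482000044040440000c2040020009000182040020000500800200048040884020014000082900121000800088208800210002010048000082120008404,
    0xa0, 1, 0x324253648096a1, 7,
    [(0xa0, 1), (0x538690a2, 4), (0x548790a1, 4), (0x21437690, 4), (0x538690a2, 4), (0x548790a1, 4)],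
    [(0x324253648096a1, 7), (0x31528490, 4), (0x316270a8, 4), (0x316597a4, 4), (0x31528490, 4), (0x316270a8, 4)]⟩

def c_2479 : frmChk tA tA F_2479 = true := by decide +kernel

def r_2479_0 : chkL rootF engF2 tA tA sA_312 sA_312 4 F_2479 [(511, 0, 0)]
    0x43922c0f05c5c14d0e = true := by
  decide +kernel

theorem f_2479 (h : TabsF) : FrameF repsF 312 F_2479.f :=
  frame_of rfl c_2479 (runs_of engOK r_2479_0) (by decide +kernel) h.1 h.1

def F_2480 : FrX :=
  ⟨0x80080a000804040e00002101002001000002040881014100208028000820000010014820001040080040800a014001010420040804080810440a0020400,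
    0xa6, 1, 0x3141526076a2, 6,
    [(0xa6, 1), (0x205396a8, 4), (0x10548796, 4), (0x214396a7, 4), (0x205396a8, 4), (0x10548796, 4)],
    [(0x3141526076a2, 6), (0x207183a6, 4), (0x32647095, 4), (0x20738195, 4), (0x32647095, 4), (0x107382a4, 4), (0x318795a6, 4), (0x20738195, 4), (0x318795a6, 4), (0x30647281, 4), (0x20738195, 4), (0x107382a4, 4)]⟩

def c_2480 : frmChk tA tB F_2480 = true := by decide +kernel

def r_2480_0 : chkL rootF engF2 tA tB sA_312 sB_312 4 F_2480 [(511, 0, 0)]
    0x43921c8d0e42b12c170ac690e45509c1721c2b = true := by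
  decide +kernel

theorem f_2480 (h : TabsF) : FrameF repsF 312 F_2480.f :=
  frame_of rfl c_2480 (runs_of engOK r_2480_0) (by decide +kernel) h.1 h.2

def F_2481 : FrX :=
  ⟨0x2002000900044004000e02041000141000800040800800248000c00400808880200100104081000280058000801410100000206040480000101002141400,
    0xa3, 1, 0x1020314051658297a3, 9,
    [(0xa3, 1), (0x208693a5, 4), (0x10548793, 4), (0x217693a4, 4), (0x208693a5, 4), (0x10548793, 4)],
    [(0x1020314051658297a3, 9), (0x317084a6, 4), (0x54627091, 4), (0x708593a2, 4), (0x317084a6, 4), (0x54627091, 4)]⟩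

def c_2481 : frmChk tA tA F_2481 = true := by decide +kernel

def r_2481_0 : chkL rootF engF2 tA tA sA_312 sA_312 4 F_2481 [(511, 0, 0)]
    0x10cdc806c1b03c33 = true := by
  decide +kernel

theorem f_2481 (h : TabsF) : FrameF repsF 312 F_2481.f :=
  frame_of rfl c_2481 (runs_of engOK r_2481_0) (by decide +kernel) h.1 h.1

def F_2482 : FrX :=
  ⟨0x482000044040440000c20400200090001820400200020e000010020808042101000200002801024210008040402000a004010180010100800140010182,
    0xa0, 1, 0x3043536574a3, 6,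
    [(0xa0, 1), (0x538690a2, 4), (0x548790a1, 4), (0x21437690, 4), (0x538690a2, 4), (0x548790a1, 4)],
    [(0x3043536574a3, 6), (0x328495a6, 4), (0x31768095, 4), (0x214095a7, 4), (0x328495a6, 4), (0x31768095, 4)]⟩

def c_2482 : frmChk tA tA F_2482 = true := by decide +kernel

def r_2482_0 : chkL rootF engF2 tA tA sA_312 sA_312 4 F_2482 [(511, 0, 0)]
    0x109c2b03c0f078470783a0d83503c5a07836 = true := by
  decide +kernel

theorem f_2482 (h : TabsF) : FrameF repsF 312 F_2482.f :=
  frame_of rfl c_2482 (runs_of engOK r_2482_0) (by decide +kernel) h.1 h.1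

def F_2483 : FrX :=
  ⟨0x1c2102000004044000002041000101000082040884200080001400008000c00031014000882800021000804408308800001002010848001080924000004,
    0x0, 0, 0x206384, 3,
    [(0x0, 0), (0x205386a9, 4), (0x105487a9, 4), (0x214376a9, 4), (0x205386a9, 4), (0x105487a9, 4)],
    [(0x206384, 3), (0x204365a9, 4), (0x217485a9, 4), (0x107386a9, 4), (0x204365a9, 4), (0x217485a9, 4)]⟩

def c_2483 : frmChk tA tA F_2483 = true := by decide +kernel

def r_2483_0 : chkL rootF engF2 tA tA sA_312 sA_312 4 F_2483 [(255, 0, 0), (256, 0, 8)]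
    0x4ac = true := by
  decide +kernel

def r_2483_1 : chkL rootF engF2 tA tA sA_312 sA_312 4 F_2483 [(256, 8, 5)]
    0x1 = true := by
  decide +kernel

def r_2483_2 : chkL rootF engF2 tA tA sA_312 sA_312 4 F_2483 [(256, 13, 5)]
    0x459 = true := by
  decide +kernel

def r_2483_3 : chkL rootF engF2 tA tA sA_312 sA_312 4 F_2483 [(256, 18, 0)]
    0x15245a = true := by
  decide +kernel

theorem f_2483 (h : TabsF) : FrameF repsF 312 F_2483.f :=
  frame_of rfl c_2483 ((runs_of engOK r_2483_0).append ((runs_of engOK r_2483_1).append ((runs_of engOK r_2483_2).append (runs_of engOK r_2483_3)))) (by decide +kernel) h.1 h.1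

def F_2484 : FrX :=
  ⟨0x80080a000804040e0000210100200100000204088120000220802800002020208040805010000400089000012800200104800800a010124200010a80008,
    0xa6, 1, 0x3141607694a2, 6,
    [(0xa6, 1), (0x205396a8, 4), (0x10548796, 4), (0x214396a7, 4), (0x205396a8, 4), (0x10548796, 4)],
    [(0x3141607694a2, 6), (0x507198a6, 4), (0x32647095, 4), (0x32508197, 4), (0x32647095, 4), (0x108597a4, 4), (0x328791a6, 4), (0x32508197, 4), (0x328791a6, 4), (0x64758190, 4), (0x32508197, 4), (0x108597a4, 4)]⟩

def c_2484 : frmChk tA tB F_2484 = true := by decide +kernel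

def r_2484_0 : chkL rootF engF2 tA tB sA_312 sB_312 4 F_2484 [(511, 0, 0)]
    0x10cc1e2542d0b49c0f03c0781e = true := by
  decide +kernel

theorem f_2484 (h : TabsF) : FrameF repsF 312 F_2484.f :=
  frame_of rfl c_2484 (runs_of engOK r_2484_0) (by decide +kernel) h.1 h.2

def F_2485 : FrX :=
  ⟨0x80080a000804040e000021010020010000020408822000040480240000400820284040014000080208008008802108010001010840009003000c0208408,
    0xa6, 1, 0x3064718193a4, 6,
    [(0xa6, 1), (0x205396a8, 4), (0x10548796, 4), (0x214396a7, 4), (0x205396a8, 4), (0x10548796, 4)],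
    [(0x3064718193a4, 6), (0x32607495, 4), (0x607183a5, 4), (0x416082a9, 4), (0x32607495, 4), (0x607183a5, 4)]⟩

def c_2485 : frmChk tA tA F_2485 = true := by decide +kernel

def r_2485_0 : chkL rootF engF2 tA tA sA_312 sA_312 4 F_2485 [(511, 0, 0)]
    0x41e1340f1381703c0f619626188d2348d255830781b03c2b03c5303e23c4703171c4530a52b125c9146079648a8652541ec0c4e = true := by
  decide +kernel

theorem f_2485 (h : TabsF) : FrameF repsF 312 F_2485.f :=
  frame_of rfl c_2485 (runs_of engOK r_2485_0) (by decide +kernel) h.1 h.1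

def F_2486 : FrX :=
  ⟨0x2002000900044004000e020410001410008000408100000181008024020022002202008010080088208004048000108400402000060002002020a0021411,
    0xa3, 1, 0x214352728198a3, 7,
    [(0xa3, 1), (0x208693a5, 4), (0x10548793, 4), (0x217693a4, 4), (0x208693a5, 4), (0x10548793, 4)],
    [(0x214352728198a3, 7), (0x517093a6, 4), (0x31426580, 4), (0x425163a9, 4), (0x31426580, 4), (0x638791a5, 4), (0x427096a3, 4), (0x425163a9, 4), (0x427096a3, 4), (0x536180a9, 4), (0x425163a9, 4), (0x638791a5, 4)]⟩

def c_2486 : frmChk tA tB F_2486 = true := by decide +kernel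

def r_2486_0 : chkL rootF engF2 tA tB sA_312 sB_312 4 F_2486 [(511, 0, 0)]
    0x11654a05d514b00f43459296852a5070768503d0d895614553109c1b24c4b = true := by
  decide +kernel

theorem f_2486 (h : TabsF) : FrameF repsF 312 F_2486.f :=
  frame_of rfl c_2486 (runs_of engOK r_2486_0) (by decide +kernel) h.1 h.2

def F_2487 : FrX :=
  ⟨0x1c2102000004044000002041000101000082040888200008008080004000242020601000900010020820404880248100081010041200201100004800044,
    0x0, 0, 0x107583, 3,
    [(0x0, 0), (0x205386a9, 4), (0x105487a9, 4), (0x214376a9, 4), (0x205386a9, 4), (0x105487a9, 4)],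
    [(0x107583, 3), (0x216387a9, 4), (0x105374a9, 4), (0x206584a9, 4), (0x216387a9, 4), (0x105374a9, 4)]⟩

def c_2487 : frmChk tA tA F_2487 = true := by decide +kernel

def r_2487_0 : chkL rootF engF2 tA tA sA_312 sA_312 4 F_2487 [(255, 0, 0), (256, 0, 12)]
    0x48705c0f03c53 = true := by
  decide +kernel

def r_2487_1 : chkL rootF engF2 tA tA sA_312 sA_312 4 F_2487 [(256, 12, 7)]
    0x1 = true := by
  decide +kernel

def r_2487_2 : chkL rootF engF2 tA tA sA_312 sA_312 4 F_2487 [(256, 19, 0)]
    0x662 = true := by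
  decide +kernel

theorem f_2487 (h : TabsF) : FrameF repsF 312 F_2487.f :=
  frame_of rfl c_2487 ((runs_of engOK r_2487_0).append ((runs_of engOK r_2487_1).append (runs_of engOK r_2487_2))) (by decide +kernel) h.1 h.1

def F_2488 : FrX :=
  ⟨0x2002000900044004000e02041000141000800040800801014008400008220100100244004024001010040012000420000284008022001008104104010841,
    0xa3, 1, 0x213065718798a6, 7,
    [(0xa3, 1), (0x208693a5, 4), (0x10548793, 4), (0x217693a4, 4), (0x208693a5, 4), (0x10548793, 4)],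
    [(0x213065718798a6, 7), (0x315260a9, 4), (0x52647398, 4), (0x405271a8, 4), (0x315260a9, 4), (0x52647398, 4)]⟩

def c_2488 : frmChk tA tA F_2488 = true := by decide +kernel

def r_2488_0 : chkL rootF engF2 tA tA sA_312 sA_312 4 F_2488 [(511, 0, 0)]
    0x107827b101e81c4d0790d5301b05c17 = true := by
  decide +kernel

theorem f_2488 (h : TabsF) : FrameF repsF 312 F_2488.f :=
  frame_of rfl c_2488 (runs_of engOK r_2488_0) (by decide +kernel) h.1 h.1

def F_2489 : FrX :=
  ⟨0x80080a000804040e00002101002001000002040882200004044088100080082020024000c000100208208008802501000000500410009011000c0200044,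
    0xa6, 1, 0x315065728391a3, 7,
    [(0xa6, 1), (0x205396a8, 4), (0x10548796, 4), (0x214396a7, 4), (0x205396a8, 4), (0x10548796, 4)],
    [(0x315065728391a3, 7), (0x107583a6, 4), (0x21648395, 4), (0x208397a4, 4), (0x107583a6, 4), (0x21648395, 4)]⟩

def c_2489 : frmChk tA tA F_2489 = true := by decide +kernel

def r_2489_0 : chkL rootF engF2 tA tA sA_312 sA_312 4 F_2489 [(511, 0, 0)]
    0x459 = true := by
  decide +kernel

theorem f_2489 (h : TabsF) : FrameF repsF 312 F_2489.f :=
  frame_of rfl c_2489 (runs_of engOK r_2489_0) (by decide +kernel) h.1 h.1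

def F_2490 : FrX :=
  ⟨0x482000044040440000c2040020009000182040002022040100880200014008004400110020010200800050888020802008002108008404000904000904,
    0xa0, 1, 0x103241526471a3, 7,
    [(0xa0, 1), (0x538690a2, 4), (0x548790a1, 4), (0x21437690, 4), (0x538690a2, 4), (0x548790a1, 4)],
    [(0x103241526471a3, 7), (0x435186a0, 4), (0x40637192, 4), (0x436092a8, 4), (0x40637192, 4), (0x607583a4, 4), (0x518092a6, 4), (0x436092a8, 4), (0x518092a6, 4), (0x306471a8, 4), (0x436092a8, 4), (0x607583a4, 4)]⟩

def c_2490 : frmChk tA tB F_2490 = true := by decide +kernel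

def r_2490_0 : chkL rootF engF2 tA tB sA_312 sB_312 4 F_2490 [(511, 0, 0)]
    0x105c5505c330cc1705d1a = true := by
  decide +kernel

theorem f_2490 (h : TabsF) : FrameF repsF 312 F_2490.f :=
  frame_of rfl c_2490 (runs_of engOK r_2490_0) (by decide +kernel) h.1 h.2

def F_2491 : FrX :=
  ⟨0x482000044040440000c2040020009000182040000880880000880800010410030020410100008200045400802210002020046010100120040800800048,
    0xa0, 1, 0x42608290a4, 5,
    [(0xa0, 1), (0x538690a2, 4), (0x548790a1, 4), (0x21437690, 4), (0x538690a2, 4), (0x548790a1, 4)],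
    [(0x42608290a4, 5), (0x307598a4, 4), (0x627091a5, 4), (0x436275a0, 4), (0x627091a5, 4), (0x547381a0, 4), (0x406298a3, 4), (0x436275a0, 4), (0x406298a3, 4), (0x435091a7, 4), (0x436275a0, 4), (0x547381a0, 4)]⟩

def c_2491 : frmChk tA tB F_2491 = true := by decide +kernel

def r_2491_0 : chkL rootF engF2 tA tB sA_312 sB_312 4 F_2491 [(511, 0, 0)]
    0x42e0b80f06cd1b403a0b8350cc3603c0f078d805c1b = true := by
  decide +kernel

theorem f_2491 (h : TabsF) : FrameF repsF 312 F_2491.f :=
  frame_of rfl c_2491 (runs_of engOK r_2491_0) (by decide +kernel) h.1 h.2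

def F_2492 : FrX :=
  ⟨0x2002000900044004000e020410001410008000408080004c1000a00010812001000004101080088180400800011020040000211004002200401141049000,
    0xa3, 1, 0x1030415381a3, 6,
    [(0xa3, 1), (0x208693a5, 4), (0x10548793, 4), (0x217693a4, 4), (0x208693a5, 4), (0x10548793, 4)],
    [(0x1030415381a3, 6), (0x326495a1, 4), (0x10748395, 4), (0x768295a0, 4), (0x326495a1, 4), (0x10748395, 4)]⟩

def c_2492 : frmChk tA tA F_2492 = true := by decide +kernel

def r_2492_0 : chkL rootF engF2 tA tA sA_312 sA_312 4 F_2492 [(511, 0, 0)]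
    0x105c17b10c5b10270cc0f9445a = true := by
  decide +kernel

theorem f_2492 (h : TabsF) : FrameF repsF 312 F_2492.f :=
  frame_of rfl c_2492 (runs_of engOK r_2492_0) (by decide +kernel) h.1 h.1

def F_2493 : FrX :=
  ⟨0x2002000900044004000e0204100014100080004081005001400800200812000820000220080404101008004a000420002001820010800608100a02002080,
    0xa3, 1, 0x203250647084a0, 7,
    [(0xa3, 1), (0x208693a5, 4), (0x10548793, 4), (0x217693a4, 4), (0x208693a5, 4), (0x10548793, 4)],
    [(0x203250647084a0, 7), (0x206497a3, 4), (0x658297a1, 4), (0x31548097, 4), (0x206497a3, 4), (0x658297a1, 4)]⟩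

def c_2493 : frmChk tA tA F_2493 = true := by decide +kernel

def r_2493_0 : chkL rootF engF2 tA tA sA_312 sA_312 4 F_2493 [(511, 0, 0)]
    0x103c6c0d8b44392a0e47803c3312c8d09c0f13495 = true := by
  decide +kernel

theorem f_2493 (h : TabsF) : FrameF repsF 312 F_2493.f :=
  frame_of rfl c_2493 (runs_of engOK r_2493_0) (by decide +kernel) h.1 h.1

def F_2494 : FrX :=
  ⟨0x80080a000804040e0000210100200100000204088208040009008010010018800101400084400081029000008840204010004101100800c000904440000,
    0xa6, 1, 0x324361708798a0, 7,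
    [(0xa6, 1), (0x205396a8, 4), (0x10548796, 4), (0x214396a7, 4), (0x205396a8, 4), (0x10548796, 4)],
    [(0x324361708798a0, 7), (0x547091a3, 4), (0x527098a6, 4), (0x42637081, 4), (0x547091a3, 4), (0x527098a6, 4)]⟩

def c_2494 : frmChk tA tA F_2494 = true := by decide +kernel

def r_2494_0 : chkL rootF engF2 tA tA sA_312 sA_312 4 F_2494 [(511, 0, 0)]
    0x107954 = true := by
  decide +kernel

theorem f_2494 (h : TabsF) : FrameF repsF 312 F_2494.f :=
  frame_of rfl c_2494 (runs_of engOK r_2494_0) (by decide +kernel) h.1 h.1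

def F_2495 : FrX :=
  ⟨0x80080a000804040e0000210100200100000204088108020040403000022000800801301020012410008800082800402022000204041000a0022100c0000,
    0xa6, 1, 0x435460758190a6, 7,
    [(0xa6, 1), (0x205396a8, 4), (0x10548796, 4), (0x214396a7, 4), (0x205396a8, 4), (0x10548796, 4)],
    [(0x435460758190a6, 7), (0x517392a4, 4), (0x607598a3, 4), (0x416073a5, 4), (0x607598a3, 4), (0x437182a5, 4), (0x546092a1, 4), (0x416073a5, 4), (0x546092a1, 4), (0x415398a7, 4), (0x416073a5, 4), (0x437182a5, 4)]⟩

def c_2495 : frmChk tA tB F_2495 = true := by decide +kernel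

def r_2495_0 : chkL rootF engF2 tA tB sA_312 sB_312 4 F_2495 [(511, 0, 0)]
    0x10ac4b0f215864ac49703c15250cd23856190e91c = true := by
  decide +kernel

theorem f_2495 (h : TabsF) : FrameF repsF 312 F_2495.f :=
  frame_of rfl c_2495 (runs_of engOK r_2495_0) (by decide +kernel) h.1 h.2

def F_2496 : FrX :=
  ⟨0x1001040012008080000e008408004100081010000409000080a01300000008824002000822000208000210104c100041004000010a200c005000004a2000,
    0xa3, 1, 0x213243718596a5, 7,
    [(0xa3, 1), (0x207584a6, 4), (0x10547693, 4), (0x647593a8, 4), (0x10547693, 4), (0x216485a7, 4), (0x208693a4, 4), (0x647593a8, 4), (0x208693a4, 4), (0x106574a8, 4), (0x647593a8, 4), (0x216485a7, 4)],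
    [(0x213243718596a5, 7), (0x308695a4, 4), (0x527086a1, 4), (0x41738692, 4), (0x308695a4, 4), (0x527086a1, 4)]⟩

def c_2496 : frmChk tB tA F_2496 = true := by decide +kernel

def r_2496_0 : chkL rootF engF2 tB tA sB_312 sA_312 4 F_2496 [(511, 0, 0)]
    0x124c39360a315817 = true := by
  decide +kernel

theorem f_2496 (h : TabsF) : FrameF repsF 312 F_2496.f :=
  frame_of rfl c_2496 (runs_of engOK r_2496_0) (by decide +kernel) h.2 h.1

def F_2497 : FrX :=
  ⟨0x1001040012008080000e008408004100081010000600000242002080042800440200022001a0202000180106020020022000004401030004008100140050,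
    0xa3, 1, 0x4261758590a3, 6,
    [(0xa3, 1), (0x207584a6, 4), (0x10547693, 4), (0x647593a8, 4), (0x10547693, 4), (0x216485a7, 4), (0x208693a4, 4), (0x647593a8, 4), (0x208693a4, 4), (0x106574a8, 4), (0x647593a8, 4), (0x216485a7, 4)],
    [(0x4261758590a3, 6), (0x307194a8, 4), (0x30758296, 4), (0x305164a2, 4), (0x307194a8, 4), (0x30758296, 4)]⟩

def c_2497 : frmChk tB tA F_2497 = true := by decide +kernel

def r_2497_0 : chkL rootF engF2 tB tA sB_312 sA_312 4 F_2497 [(511, 0, 0)]
    0x43309c27 = true := by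
  decide +kernel

theorem f_2497 (h : TabsF) : FrameF repsF 312 F_2497.f :=
  frame_of rfl c_2497 (runs_of engOK r_2497_0) (by decide +kernel) h.2 h.1

def F_2498 : FrX :=
  ⟨0x600020801080810000c0040180410101001004010020042800001440880022008002000800812000200404500090400640208000006000b00400040082,
    0xa0, 1, 0x3152637095a5, 6,
    [(0xa0, 1), (0x637584a2, 4), (0x547690a1, 4), (0x64758390, 4), (0x547690a1, 4), (0x21647385, 4), (0x438690a2, 4), (0x64758390, 4), (0x438690a2, 4), (0x657483a1, 4), (0x64758390, 4), (0x21647385, 4)],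
    [(0x3152637095a5, 6), (0x758192a6, 4), (0x738092a4, 4), (0x10536492, 4), (0x758192a6, 4), (0x738092a4, 4)]⟩

def c_2498 : frmChk tB tA F_2498 = true := by decide +kernel

def r_2498_0 : chkL rootF engF2 tB tA sB_312 sA_312 4 F_2498 [(511, 0, 0)]
    0x435155890743315887 = true := by
  decide +kernel

theorem f_2498 (h : TabsF) : FrameF repsF 312 F_2498.f :=
  frame_of rfl c_2498 (runs_of engOK r_2498_0) (by decide +kernel) h.2 h.1

def F_2499 : FrX :=
  ⟨0x1001040012008080000e0084080041000810100006000002808020800418008404000a000020130820030010081020022000808200004048002002500104,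
    0xa3, 1, 0x3143647691a3, 6,
    [(0xa3, 1), (0x207584a6, 4), (0x10547693, 4), (0x647593a8, 4), (0x10547693, 4), (0x216485a7, 4), (0x208693a4, 4), (0x647593a8, 4), (0x208693a4, 4), (0x106574a8, 4), (0x647593a8, 4), (0x216485a7, 4)],
    [(0x3143647691a3, 6), (0x205186a7, 4), (0x43657190, 4), (0x435176a8, 4), (0x43657190, 4), (0x768592a1, 4), (0x204387a6, 4), (0x435176a8, 4), (0x204387a6, 4), (0x617590a8, 4), (0x435176a8, 4), (0x768592a1, 4)]⟩

def c_2499 : frmChk tB tB F_2499 = true := by decide +kernel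

def r_2499_0 : chkL rootF engF2 tB tB sB_312 sB_312 4 F_2499 [(511, 0, 0)]
    0x112c391580f8c60761a1322d5145607c14952560781c95c14720ce19867818c4c341c8b0760b864390cc7198a2590cc99841e8380f0e8170cc9522c330cc710e82b = true := by
  decide +kernel

theorem f_2499 (h : TabsF) : FrameF repsF 312 F_2499.f :=
  frame_of rfl c_2499 (runs_of engOK r_2499_0) (by decide +kernel) h.2 h.2

def F_2500 : FrX :=
  ⟨0x80080a000804040e00002101002001000002040882200004048084008040082020404001400008020800800880210801000041031000900300244088000,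
    0xa6, 1, 0x43516298a6, 5,
    [(0xa6, 1), (0x205396a8, 4), (0x10548796, 4), (0x214396a7, 4), (0x205396a8, 4), (0x10548796, 4)],
    [(0x43516298a6, 5), (0x416082a9, 4), (0x31508297, 4), (0x436582a7, 4), (0x416082a9, 4), (0x31508297, 4)]⟩

def c_2500 : frmChk tA tA F_2500 = true := by decide +kernel

def r_2500_0 : chkL rootF engF2 tA tA sA_312 sA_312 4 F_2500 [(511, 0, 0)]
    0x4551390b = true := by
  decide +kernel

theorem f_2500 (h : TabsF) : FrameF repsF 312 F_2500.f :=
  frame_of rfl c_2500 (runs_of engOK r_2500_0) (by decide +kernel) h.1 h.1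

def F_2501 : FrX :=
  ⟨0x80080a000804040e000021010020010000020408900200014040100088140040040810100000310000280008280010082240020400002222020804c8000,
    0xa6, 1, 0x104160748294a3, 7,
    [(0xa6, 1), (0x205396a8, 4), (0x10548796, 4), (0x214396a7, 4), (0x205396a8, 4), (0x10548796, 4)],
    [(0x104160748294a3, 7), (0x217386a5, 4), (0x20647395, 4), (0x107384a9, 4), (0x217386a5, 4), (0x20647395, 4)]⟩

def c_2501 : frmChk tA tA F_2501 = true := by decide +kernel

def r_2501_0 : chkL rootF engF2 tA tA sA_312 sA_312 4 F_2501 [(511, 0, 0)]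
    0x1 = true := by
  decide +kernel

theorem f_2501 (h : TabsF) : FrameF repsF 312 F_2501.f :=
  frame_of rfl c_2501 (runs_of engOK r_2501_0) (by decide +kernel) h.1 h.1

def F_2502 : FrX :=
  ⟨0x482000044040440000c2040020009000182040010020082001000180080102808020040804041010000030408020040094008000400a84010200200045,
    0xa0, 1, 0x104352618795a6, 7,
    [(0xa0, 1), (0x538690a2, 4), (0x548790a1, 4), (0x21437690, 4), (0x538690a2, 4), (0x548790a1, 4)],
    [(0x104352618795a6, 7), (0x517398a4, 4), (0x206193a8, 4), (0x207498a3, 4), (0x206193a8, 4), (0x658497a3, 4), (0x204351a7, 4), (0x207498a3, 4), (0x204351a7, 4), (0x617483a9, 4), (0x207498a3, 4), (0x658497a3, 4)]⟩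

def c_2502 : frmChk tA tB F_2502 = true := by decide +kernel

def r_2502_0 : chkL rootF engF2 tA tB sA_312 sB_312 4 F_2502 [(511, 0, 0)]
    0x10d515265450d40f03c1e0d41e03c1e = true := by
  decide +kernel

theorem f_2502 (h : TabsF) : FrameF repsF 312 F_2502.f :=
  frame_of rfl c_2502 (runs_of engOK r_2502_0) (by decide +kernel) h.1 h.2

def F_2503 : FrX :=
  ⟨0x80080a000804040e00002101002001000002040881200008044400100080080620120001028000020810020011250100200110041000901100042400200,
    0xa6, 1, 0x3040758396a0, 6,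
    [(0xa6, 1), (0x205396a8, 4), (0x10548796, 4), (0x214396a7, 4), (0x205396a8, 4), (0x10548796, 4)],
    [(0x3040758396a0, 6), (0x648790a2, 4), (0x506473a1, 4), (0x21648395, 4), (0x648790a2, 4), (0x506473a1, 4)]⟩

def c_2503 : frmChk tA tA F_2503 = true := by decide +kernel

def r_2503_0 : chkL rootF engF2 tA tA sA_312 sA_312 4 F_2503 [(511, 0, 0)]
    0x44d1341e = true := by
  decide +kernel

theorem f_2503 (h : TabsF) : FrameF repsF 312 F_2503.f :=
  frame_of rfl c_2503 (runs_of engOK r_2503_0) (by decide +kernel) h.1 h.1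

def F_2504 : FrX :=
  ⟨0x2002000900044004000e02041000141000800040810000018108002008220108100001204004301010040085200020000204220002000a08100104000045,
    0xa3, 1, 0x3140546392a6, 6,
    [(0xa3, 1), (0x208693a5, 4), (0x10548793, 4), (0x217693a4, 4), (0x208693a5, 4), (0x10548793, 4)],
    [(0x3140546392a6, 6), (0x708594a6, 4), (0x214350a7, 4), (0x217086a5, 4), (0x214350a7, 4), (0x768093a5, 4), (0x216594a8, 4), (0x217086a5, 4), (0x216594a8, 4), (0x437586a0, 4), (0x217086a5, 4), (0x768093a5, 4)]⟩

def c_2504 : frmChk tA tB F_2504 = true := by decide +kernel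

def r_2504_0 : chkL rootF engF2 tA tB sA_312 sB_312 4 F_2504 [(511, 0, 0)]
    0x4551384e05c5a1381d0cc3312c330cc4b09c33a1a8611c47a148747286a3033 = true := by
  decide +kernel

theorem f_2504 (h : TabsF) : FrameF repsF 312 F_2504.f :=
  frame_of rfl c_2504 (runs_of engOK r_2504_0) (by decide +kernel) h.1 h.2

def F_2505 : FrX :=
  ⟨0x80080a000804040e000021010020010000020408900200022020081004140010410000550000148008100001280100004200900410000a1004040600200,
    0xa6, 1, 0x10325061728092a3, 8,
    [(0xa6, 1), (0x205396a8, 4), (0x10548796, 4), (0x214396a7, 4), (0x205396a8, 4), (0x10548796, 4)],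
    [(0x10325061728092a3, 8), (0x315498a0, 4), (0x30417286, 4), (0x314072a5, 4), (0x30417286, 4), (0x405196a3, 4), (0x507298a4, 4), (0x314072a5, 4), (0x507298a4, 4), (0x104386a5, 4), (0x314072a5, 4), (0x405196a3, 4)]⟩

def c_2505 : frmChk tA tB F_2505 = true := by decide +kernel

def r_2505_0 : chkL rootF engF2 tA tB sA_312 sB_312 4 F_2505 [(511, 0, 0)]
    0x453 = true := by
  decide +kernel

theorem f_2505 (h : TabsF) : FrameF repsF 312 F_2505.f :=
  frame_of rfl c_2505 (runs_of engOK r_2505_0) (by decide +kernel) h.1 h.2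

theorem cl_312 (h : TabsF) : ∀ f ∈ fr_312, FrameF repsF 312 f :=
  List.forall_mem_cons.2 ⟨f_2478 h, List.forall_mem_cons.2 ⟨f_2479 h, List.forall_mem_cons.2 ⟨f_2480 h, List.forall_mem_cons.2 ⟨f_2481 h, List.forall_mem_cons.2 ⟨f_2482 h, List.forall_mem_cons.2 ⟨f_2483 h, List.forall_mem_cons.2 ⟨f_2484 h, List.forall_mem_cons.2 ⟨f_2485 h, List.forall_mem_cons.2 ⟨f_2486 h, List.forall_mem_cons.2 ⟨f_2487 h, List.forall_mem_cons.2 ⟨f_2488 h, List.forall_mem_cons.2 ⟨f_2489 h, List.forall_mem_cons.2 ⟨f_2490 h, List.forall_mem_cons.2 ⟨f_2491 h, List.forall_mem_cons.2 ⟨f_2492 h, List.forall_mem_cons.2 ⟨f_2493 h, List.forall_mem_cons.2 ⟨f_2494 h, List.forall_mem_cons.2 ⟨f_2495 h, List.forall_mem_cons.2 ⟨f_2496 h, List.forall_mem_cons.2 ⟨f_2497 h, List.forall_mem_cons.2 ⟨f_2498 h, List.forall_mem_cons.2 ⟨f_2499 h, List.forall_mem_cons.2 ⟨f_2500 h, List.forall_mem_cons.2 ⟨f_2501 h, List.forall_mem_cons.2 ⟨f_2502 h, List.forall_mem_cons.2 ⟨f_2503 h, List.forall_mem_cons.2 ⟨f_2504 h, List.forall_mem_cons.2 ⟨f_2505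 h,
    fun _ h0 => absurd h0 List.not_mem_nil⟩⟩⟩⟩⟩⟩⟩⟩⟩⟩⟩⟩⟩⟩⟩⟩⟩⟩⟩⟩⟩⟩⟩⟩⟩⟩⟩⟩

def F_2506 : FrX :=
  ⟨0x2002000900044004000e0204100014100080004081000008110080240102020104000412508400800a000804800000800088200006041000040884204040,
    0xa3, 1, 0x3242617096a4, 6,
    [(0xa3, 1), (0x208693a5, 4), (0x10548793, 4), (0x217693a4, 4), (0x208693a5, 4), (0x10548793, 4)],
    [(0x3242617096a4, 6), (0x507492a8, 4), (0x317690a5, 4), (0x315082a9, 4), (0x317690a5, 4), (0x206485a9, 4), (0x317498a2, 4), (0x315082a9, 4), (0x317498a2, 4), (0x768295a0, 4), (0x315082a9, 4), (0x206485a9, 4)]⟩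

def c_2506 : frmChk tA tB F_2506 = true := by decide +kernel

def r_2506_0 : chkL rootF engF2 tA tB sA_313 sB_313 4 F_2506 [(511, 0, 0)]
    0x41b0cc39 = true := by
  decide +kernel

theorem f_2506 (h : TabsF) : FrameF repsF 313 F_2506.f :=
  frame_of rfl c_2506 (runs_of engOK r_2506_0) (by decide +kernel) h.1 h.2

def F_2507 : FrX :=
  ⟨0x482000044040440000c204002000900018204000110040800402020000089c000010121984000002000100880200800011001080450104001000210404,
    0xa0, 1, 0x21324054638794a3, 8,
    [(0xa0, 1), (0x538690a2, 4), (0x548790a1, 4), (0x21437690, 4), (0x538690a2, 4), (0x548790a1, 4)],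
    [(0x21324054638794a3, 8), (0x436571a0, 4), (0x42658790, 4), (0x326581a9, 4), (0x436571a0, 4), (0x42658790, 4)]⟩

def c_2507 : frmChk tA tA F_2507 = true := by decide +kernel

def r_2507_0 : chkL rootF engF2 tA tA sA_313 sA_313 4 F_2507 [(511, 0, 0)]
    0x41d25721c8b410b7600741d074550741e = true := by
  decide +kernel

theorem f_2507 (h : TabsF) : FrameF repsF 313 F_2507.f :=
  frame_of rfl c_2507 (runs_of engOK r_2507_0) (by decide +kernel) h.1 h.1

def F_2508 : FrX :=
  ⟨0x482000044040440000c2040020009000182040020091040000020280040050010012030000030500000200508000009284008240050020004004010082,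
    0xa0, 1, 0x21406381a7, 5,
    [(0xa0, 1), (0x538690a2, 4), (0x548790a1, 4), (0x21437690, 4), (0x538690a2, 4), (0x548790a1, 4)],
    [(0x21406381a7, 5), (0x204163a5, 4), (0x508497a3, 4), (0x306297a5, 4), (0x508497a3, 4), (0x305281a6, 4), (0x32416097, 4), (0x306297a5, 4), (0x32416097, 4), (0x536284a0, 4), (0x306297a5, 4), (0x305281a6, 4)]⟩

def c_2508 : frmChk tA tB F_2508 = true := by decide +kernel

def r_2508_0 : chkL rootF engF2 tA tB sA_313 sB_313 4 F_2508 [(511, 0, 0)]
    0x11344d0d83a = true := by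
  decide +kernel

theorem f_2508 (h : TabsF) : FrameF repsF 313 F_2508.f :=
  frame_of rfl c_2508 (runs_of engOK r_2508_0) (by decide +kernel) h.1 h.2

def F_2509 : FrX :=
  ⟨0x482000044040440000c2040020009000182040002021082000a00010014004004400100882003200001001002201802080000284000504010900a00040,
    0xa0, 1, 0x102151627680a3, 7,
    [(0xa0, 1), (0x538690a2, 4), (0x548790a1, 4), (0x21437690, 4), (0x538690a2, 4), (0x548790a1, 4)],
    [(0x102151627680a3, 7), (0x718693a2, 4), (0x10428593, 4), (0x657093a4, 4), (0x718693a2, 4), (0x10428593, 4)]⟩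

def c_2509 : frmChk tA tA F_2509 = true := by decide +kernel

def r_2509_0 : chkL rootF engF2 tA tA sA_313 sA_313 4 F_2509 [(511, 0, 0)]
    0x122c1e05c3a = true := by
  decide +kernel

theorem f_2509 (h : TabsF) : FrameF repsF 313 F_2509.f :=
  frame_of rfl c_2509 (runs_of engOK r_2509_0) (by decide +kernel) h.1 h.1

def F_2510 : FrX :=
  ⟨0x80080a000804040e00002101002001000002040890010004220088100024001040800054800010802010000128412000020050041000109204040600000,
    0xa6, 1, 0x31607190a8, 5,
    [(0xa6, 1), (0x205396a8, 4), (0x10548796, 4), (0x214396a7, 4), (0x205396a8, 4), (0x10548796, 4)],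
    [(0x31607190a8, 5), (0x518692a0, 4), (0x548697a3, 4), (0x30417286, 4), (0x518692a0, 4), (0x548697a3, 4)]⟩

def c_2510 : frmChk tA tA F_2510 = true := by decide +kernel

def r_2510_0 : chkL rootF engF2 tA tA sA_313 sA_313 4 F_2510 [(511, 0, 0)]
    0x11700f078e103c27 = true := by
  decide +kernel

theorem f_2510 (h : TabsF) : FrameF repsF 313 F_2510.f :=
  frame_of rfl c_2510 (runs_of engOK r_2510_0) (by decide +kernel) h.1 h.1

def F_2511 : FrX :=
  ⟨0x2002000900044004000e02041000141000800040801000418000c00200822080100100120122001240040011000400802004002020501000240104011010,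
    0xa3, 1, 0x10214251768496a5, 8,
    [(0xa3, 1), (0x208693a5, 4), (0x10548793, 4), (0x217693a4, 4), (0x208693a5, 4), (0x10548793, 4)],
    [(0x10214251768496a5, 8), (0x417290a3, 4), (0x516072a8, 4), (0x54728396, 4), (0x417290a3, 4), (0x516072a8, 4)]⟩

def c_2511 : frmChk tA tA F_2511 = true := by decide +kernel

def r_2511_0 : chkL rootF engF2 tA tA sA_313 sA_313 4 F_2511 [(511, 0, 0)]
    0x42d09c360b40f0e88d0f00f0d43a2e047 = true := by
  decide +kernel

theorem f_2511 (h : TabsF) : FrameF repsF 313 F_2511.f :=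
  frame_of rfl c_2511 (runs_of engOK r_2511_0) (by decide +kernel) h.1 h.1

def F_2512 : FrX :=
  ⟨0x2002000900044004000e02041000141000800040820040224000400209008080040202010900010202000402020408042001811000880008202110008010,
    0xa3, 1, 0x3041517182a1, 6,
    [(0xa3, 1), (0x208693a5, 4), (0x10548793, 4), (0x217693a4, 4), (0x208693a5, 4), (0x10548793, 4)],
    [(0x3041517182a1, 6), (0x21546083, 4), (0x416597a3, 4), (0x20546197, 4), (0x416597a3, 4), (0x425061a8, 4), (0x10628397, 4), (0x20546197, 4), (0x10628397, 4), (0x205164a3, 4), (0x20546197, 4), (0x425061a8, 4)]⟩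

def c_2512 : frmChk tA tB F_2512 = true := by decide +kernel

def r_2512_0 : chkL rootF engF2 tA tB sA_313 sB_313 4 F_2512 [(511, 0, 0)]
    0x10e817 = true := by
  decide +kernel

theorem f_2512 (h : TabsF) : FrameF repsF 313 F_2512.f :=
  frame_of rfl c_2512 (runs_of engOK r_2512_0) (by decide +kernel) h.1 h.2

def F_2513 : FrX :=
  ⟨0x1001040012008080000e008408004100081010000420080240024001102800008082000a000020804008480440000080200420210003002000a100041510,
    0xa3, 1, 0x2043657298a0, 6,
    [(0xa3, 1), (0x207584a6, 4), (0x10547693, 4), (0x647593a8, 4), (0x10547693, 4), (0x216485a7, 4), (0x208693a4, 4), (0x647593a8, 4), (0x208693a4, 4), (0x106574a8, 4), (0x647593a8, 4), (0x216485a7, 4)],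
    [(0x2043657298a0, 6), (0x648295a7, 4), (0x638290a1, 4), (0x43507182, 4), (0x648295a7, 4), (0x638290a1, 4)]⟩

def c_2513 : frmChk tB tA F_2513 = true := by decide +kernel

def r_2513_0 : chkL rootF engF2 tB tA sB_313 sA_313 4 F_2513 [(511, 0, 0)]
    0x43a = true := by
  decide +kernel

theorem f_2513 (h : TabsF) : FrameF repsF 313 F_2513.f :=
  frame_of rfl c_2513 (runs_of engOK r_2513_0) (by decide +kernel) h.2 h.1

def F_2514 : FrX :=
  ⟨0x1001040012008080000e0084080041000810100004200810012044010001200080820008202020024000480001080080200424120203000080a100041010,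
    0xa3, 1, 0x103252718595a6, 7,
    [(0xa3, 1), (0x207584a6, 4), (0x10547693, 4), (0x647593a8, 4), (0x10547693, 4), (0x216485a7, 4), (0x208693a4, 4), (0x647593a8, 4), (0x208693a4, 4), (0x106574a8, 4), (0x647593a8, 4), (0x216485a7, 4)],
    [(0x103252718595a6, 7), (0x435190a2, 4), (0x718694a0, 4), (0x328690a4, 4), (0x718694a0, 4), (0x207593a4, 4), (0x425186a3, 4), (0x328690a4, 4), (0x425186a3, 4), (0x324071a9, 4), (0x328690a4, 4), (0x207593a4, 4)]⟩

def c_2514 : frmChk tB tB F_2514 = true := by decide +kernel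

def r_2514_0 : chkL rootF engF2 tB tB sB_313 sB_313 4 F_2514 [(511, 0, 0)]
    0x43322c8b2381d0b40f15433 = true := by
  decide +kernel

theorem f_2514 (h : TabsF) : FrameF repsF 313 F_2514.f :=
  frame_of rfl c_2514 (runs_of engOK r_2514_0) (by decide +kernel) h.2 h.2

def F_2515 : FrX :=
  ⟨0x1c4044000008081000000840080410000101084042102000020001010002020048a02002200004100210010123200140040220048104008802003000004,
    0x0, 0, 0x21637485, 4,
    [(0x0, 0), (0x20637584, 4), (0x105476a9, 4), (0x647583a9, 4), (0x105476a9, 4), (0x21647385, 4), (0x204386a9, 4), (0x647583a9, 4), (0x204386a9, 4), (0x10657483, 4), (0x647583a9, 4), (0x21647385, 4)],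
    [(0x21637485, 4), (0x105386a9, 4), (0x205487a9, 4), (0x214376a9, 4), (0x105386a9, 4), (0x205487a9, 4)]⟩

def c_2515 : frmChk tB tA F_2515 = true := by decide +kernel

def r_2515_0 : chkL rootF engF2 tB tA sB_313 sA_313 4 F_2515 [(511, 0, 0)]
    0x496 = true := by
  decide +kernel

theorem f_2515 (h : TabsF) : FrameF repsF 313 F_2515.f :=
  frame_of rfl c_2515 (runs_of engOK r_2515_0) (by decide +kernel) h.2 h.1

def F_2516 : FrX :=
  ⟨0x600020801080810000c0040180410101001004010040024000064802001040080400082000220208004102000208800284400100402002900100408082,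
    0xa0, 1, 0x62768492a4, 5,
    [(0xa0, 1), (0x637584a2, 4), (0x547690a1, 4), (0x64758390, 4), (0x547690a1, 4), (0x21647385, 4), (0x438690a2, 4), (0x64758390, 4), (0x438690a2, 4), (0x657483a1, 4), (0x64758390, 4), (0x21647385, 4)],
    [(0x62768492a4, 5), (0x53748690, 4), (0x104286a5, 4), (0x728691a3, 4), (0x53748690, 4), (0x104286a5, 4)]⟩

def c_2516 : frmChk tB tA F_2516 = true := by decide +kernel

def r_2516_0 : chkL rootF engF2 tB tA sB_313 sA_313 4 F_2516 [(511, 0, 0)]
    0x4c3138330d8560b84b198c3 = true := by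
  decide +kernel

theorem f_2516 (h : TabsF) : FrameF repsF 313 F_2516.f :=
  frame_of rfl c_2516 (runs_of engOK r_2516_0) (by decide +kernel) h.2 h.1

def F_2517 : FrX :=
  ⟨0x1001040012008080000e00840800410008101000042020021008024012000020442000102200004140090810021020002000808808084508100002000104,
    0xa3, 1, 0x3240508293a2, 6,
    [(0xa3, 1), (0x207584a6, 4), (0x10547693, 4), (0x647593a8, 4), (0x10547693, 4), (0x216485a7, 4), (0x208693a4, 4), (0x647593a8, 4), (0x208693a4, 4), (0x106574a8, 4), (0x647593a8, 4), (0x216485a7, 4)],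
    [(0x3240508293a2, 6), (0x638294a5, 4), (0x40517382, 4), (0x768290a1, 4), (0x638294a5, 4), (0x40517382, 4)]⟩

def c_2517 : frmChk tB tA F_2517 = true := by decide +kernel

def r_2517_0 : chkL rootF engF2 tB tA sB_313 sA_313 4 F_2517 [(511, 0, 0)]
    0x4ca07495 = true := by
  decide +kernel

theorem f_2517 (h : TabsF) : FrameF repsF 313 F_2517.f :=
  frame_of rfl c_2517 (runs_of engOK r_2517_0) (by decide +kernel) h.2 h.1

def F_2518 : FrX :=
  ⟨0x600020801080810000c004018041010100100401004002400001008600104004802200200022020800410200021008208008048001828c000100020042,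
    0xa0, 1, 0x32425260718496a3, 8,
    [(0xa0, 1), (0x637584a2, 4), (0x547690a1, 4), (0x64758390, 4), (0x547690a1, 4), (0x21647385, 4), (0x438690a2, 4), (0x64758390, 4), (0x438690a2, 4), (0x657483a1, 4), (0x64758390, 4), (0x21647385, 4)],
    [(0x32425260718496a3, 8), (0x416583a9, 4), (0x20768491, 4), (0x204198a3, 4), (0x20768491, 4), (0x437598a1, 4), (0x206593a8, 4), (0x204198a3, 4), (0x206593a8, 4), (0x768194a3, 4), (0x204198a3, 4), (0x437598a1, 4)]⟩

def c_2518 : frmChk tB tB F_2518 = true := by decide +kernel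

def r_2518_0 : chkL rootF engF2 tB tB sB_313 sB_313 4 F_2518 [(511, 0, 0)]
    0x4650e4533440f = true := by
  decide +kernel

theorem f_2518 (h : TabsF) : FrameF repsF 313 F_2518.f :=
  frame_of rfl c_2518 (runs_of engOK r_2518_0) (by decide +kernel) h.2 h.2

def F_2519 : FrX :=
  ⟨0x482000044040440000c2040020009000182040008080400804201010010044022000401080020120000800501020008090010141008840005100008088,
    0xa0, 1, 0x204350748191a0, 7,
    [(0xa0, 1), (0x538690a2, 4), (0x548790a1, 4), (0x21437690, 4), (0x538690a2, 4), (0x548790a1, 4)],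
    [(0x204350748191a0, 7), (0x326471a0, 4), (0x637285a9, 4), (0x32417685, 4), (0x637285a9, 4), (0x21437690, 4), (0x617485a0, 4), (0x32417685, 4), (0x617485a0, 4), (0x416273a9, 4), (0x32417685, 4), (0x21437690, 4)]⟩

def c_2519 : frmChk tA tB F_2519 = true := by decide +kernel

def r_2519_0 : chkL rootF engF2 tA tB sA_313 sB_313 4 F_2519 [(511, 0, 0)]
    0x42e0ac17 = true := by
  decide +kernel

theorem f_2519 (h : TabsF) : FrameF repsF 313 F_2519.f :=
  frame_of rfl c_2519 (runs_of engOK r_2519_0) (by decide +kernel) h.1 h.2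

def F_2520 : FrX :=
  ⟨0x80080a000804040e0000210100200100000204089002000140800402081000400602100080801200100080101011080202008008402c004040890042000,
    0xa6, 1, 0x213242618295a6, 7,
    [(0xa6, 1), (0x205396a8, 4), (0x10548796, 4), (0x214396a7, 4), (0x205396a8, 4), (0x10548796, 4)],
    [(0x213242618295a6, 7), (0x528091a4, 4), (0x52607493, 4), (0x315286a7, 4), (0x528091a4, 4), (0x52607493, 4)]⟩

def c_2520 : frmChk tA tA F_2520 = true := by decide +kernel

def r_2520_0 : chkL rootF engF2 tA tA sA_313 sA_313 4 F_2520 [(511, 0, 0)]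
    0x4471341b = true := by
  decide +kernel

theorem f_2520 (h : TabsF) : FrameF repsF 313 F_2520.f :=
  frame_of rfl c_2520 (runs_of engOK r_2520_0) (by decide +kernel) h.1 h.1

def F_2521 : FrX :=
  ⟨0x80080a000804040e00002101002001000002040890080000488004020414008004401010000030801c10000218001002024020005004021000804442000,
    0xa6, 1, 0x315064708290a6, 7,
    [(0xa6, 1), (0x205396a8, 4), (0x10548796, 4), (0x214396a7, 4), (0x205396a8, 4), (0x10548796, 4)],
    [(0x315064708290a6, 7), (0x107498a2, 4), (0x52607493, 4), (0x617483a5, 4), (0x107498a2, 4), (0x52607493, 4)]⟩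

def c_2521 : frmChk tA tA F_2521 = true := by decide +kernel

def r_2521_0 : chkL rootF engF2 tA tA sA_313 sA_313 4 F_2521 [(511, 0, 0)]
    0x44d0b83c0ac2da840f = true := by
  decide +kernel

theorem f_2521 (h : TabsF) : FrameF repsF 313 F_2521.f :=
  frame_of rfl c_2521 (runs_of engOK r_2521_0) (by decide +kernel) h.1 h.1

def F_2522 : FrX :=
  ⟨0x1c2102000004044000002041000101000082040890040100000802400401008004022210000031001c00048218010002040220005050021000880202000,
    0x0, 0, 0x102164, 3,
    [(0x0, 0), (0x205386a9, 4), (0x105487a9, 4), (0x214376a9, 4), (0x205386a9, 4), (0x105487a9, 4)],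
    [(0x102164, 3), (0x105384a9, 4), (0x216587a9, 4), (0x206374a9, 4), (0x105384a9, 4), (0x216587a9, 4)]⟩

def c_2522 : frmChk tA tA F_2522 = true := by decide +kernel

def r_2522_0 : chkL rootF engF2 tA tA sA_313 sA_313 4 F_2522 [(255, 0, 0), (256, 0, 6)]
    0x1 = true := by
  decide +kernel

def r_2522_1 : chkL rootF engF2 tA tA sA_313 sA_313 4 F_2522 [(256, 6, 15)]
    0x417 = true := by
  decide +kernel

def r_2522_2 : chkL rootF engF2 tA tA sA_313 sA_313 4 F_2522 [(256, 21, 8)]
    0x1 = true := by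
  decide +kernel

def r_2522_3 : chkL rootF engF2 tA tA sA_313 sA_313 4 F_2522 [(256, 29, 0)]
    0x1 = true := by
  decide +kernel

theorem f_2522 (h : TabsF) : FrameF repsF 313 F_2522.f :=
  frame_of rfl c_2522 ((runs_of engOK r_2522_0).append ((runs_of engOK r_2522_1).append ((runs_of engOK r_2522_2).append (runs_of engOK r_2522_3)))) (by decide +kernel) h.1 h.1

def F_2523 : FrX :=
  ⟨0x482000044040440000c20400200090001820400008241800080200800101008100204009040010100010c00030081000840040404800c0014100024040,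
    0xa0, 1, 0x3241546076a4, 6,
    [(0xa0, 1), (0x538690a2, 4), (0x548790a1, 4), (0x21437690, 4), (0x538690a2, 4), (0x548790a1, 4)],
    [(0x3241546076a4, 6), (0x106372a8, 4), (0x647095a1, 4), (0x108295a7, 4), (0x647095a1, 4), (0x204381a7, 4), (0x638795a2, 4), (0x108295a7, 4), (0x638795a2, 4), (0x647182a0, 4), (0x108295a7, 4), (0x204381a7, 4)]⟩

def c_2523 : frmChk tA tB F_2523 = true := by decide +kernel

def r_2523_0 : chkL rootF engF2 tA tB sA_313 sB_313 4 F_2523 [(511, 0, 0)]
    0x40f03c0f1c47103c2e03c4e = true := by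
  decide +kernel

theorem f_2523 (h : TabsF) : FrameF repsF 313 F_2523.f :=
  frame_of rfl c_2523 (runs_of engOK r_2523_0) (by decide +kernel) h.1 h.2

def F_2524 : FrX :=
  ⟨0x1001040012008080000e00840800410008101000042008024020010005220008008002202100142000200216020000410014000401000408100940800042,
    0xa3, 1, 0x10324163728298a3, 8,
    [(0xa3, 1), (0x207584a6, 4), (0x10547693, 4), (0x647593a8, 4), (0x10547693, 4), (0x216485a7, 4), (0x208693a4, 4), (0x647593a8, 4), (0x208693a4, 4), (0x106574a8, 4), (0x647593a8, 4), (0x216485a7, 4)],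
    [(0x10324163728298a3, 8), (0x768192a5, 4), (0x41507693, 4), (0x327684a0, 4), (0x768192a5, 4), (0x41507693, 4)]⟩

def c_2524 : frmChk tB tA F_2524 = true := by decide +kernel

def r_2524_0 : chkL rootF engF2 tB tA sB_313 sA_313 4 F_2524 [(511, 0, 0)]
    0x10d83a09c2703c0f = true := by
  decide +kernel

theorem f_2524 (h : TabsF) : FrameF repsF 313 F_2524.f :=
  frame_of rfl c_2524 (runs_of engOK r_2524_0) (by decide +kernel) h.2 h.1

def F_2525 : FrX :=
  ⟨0x1001040012008080000e008408004100081010000421000084a0010004000882420200008020010802024200500000202100808808024040002000808034,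
    0xa3, 1, 0x1041628293a3, 6,
    [(0xa3, 1), (0x207584a6, 4), (0x10547693, 4), (0x647593a8, 4), (0x10547693, 4), (0x216485a7, 4), (0x208693a4, 4), (0x647593a8, 4), (0x208693a4, 4), (0x106574a8, 4), (0x647593a8, 4), (0x216485a7, 4)],
    [(0x1041628293a3, 6), (0x628193a5, 4), (0x41507693, 4), (0x728493a0, 4), (0x628193a5, 4), (0x41507693, 4)]⟩

def c_2525 : frmChk tB tA F_2525 = true := by decide +kernel

def r_2525_0 : chkL rootF engF2 tB tA sB_313 sA_313 4 F_2525 [(511, 0, 0)]
    0x103e8a0cc3348d2a83827078170d9851710e63107618330b8364a8960748705c0f = true := by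
  decide +kernel

theorem f_2525 (h : TabsF) : FrameF repsF 313 F_2525.f :=
  frame_of rfl c_2525 (runs_of engOK r_2525_0) (by decide +kernel) h.2 h.1

def F_2526 : FrX :=
  ⟨0x600020801080810000c0040180410101001004010010100800001810820802008001084000208108048440042020020340201000004040004001108280,
    0xa0, 1, 0x104165748098a2, 7,
    [(0xa0, 1), (0x637584a2, 4), (0x547690a1, 4), (0x64758390, 4), (0x547690a1, 4), (0x21647385, 4), (0x438690a2, 4), (0x64758390, 4), (0x438690a2, 4), (0x657483a1, 4), (0x64758390, 4), (0x21647385, 4)],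
    [(0x104165748098a2, 7), (0x216395a8, 4), (0x21768490, 4), (0x215073a4, 4), (0x216395a8, 4), (0x21768490, 4)]⟩

def c_2526 : frmChk tB tA F_2526 = true := by decide +kernel

def r_2526_0 : chkL rootF engF2 tB tA sB_313 sA_313 4 F_2526 [(511, 0, 0)]
    0x107435 = true := by
  decide +kernel

theorem f_2526 (h : TabsF) : FrameF repsF 313 F_2526.f :=
  frame_of rfl c_2526 (runs_of engOK r_2526_0) (by decide +kernel) h.2 h.1

def F_2527 : FrX :=
  ⟨0x1001040012008080000e0084080041000810100004080808400802204022001008000204211100200020084804041041004000000a800408100802202080,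
    0xa3, 1, 0x315062748292a3, 7,
    [(0xa3, 1), (0x207584a6, 4), (0x10547693, 4), (0x647593a8, 4), (0x10547693, 4), (0x216485a7, 4), (0x208693a4, 4), (0x647593a8, 4), (0x208693a4, 4), (0x106574a8, 4), (0x647593a8, 4), (0x216485a7, 4)],
    [(0x315062748292a3, 7), (0x407695a2, 4), (0x42537081, 4), (0x407281a6, 4), (0x42537081, 4), (0x607293a4, 4), (0x628195a7, 4), (0x407281a6, 4), (0x628195a7, 4), (0x205374a6, 4), (0x407281a6, 4), (0x607293a4, 4)]⟩

def c_2527 : frmChk tB tB F_2527 = true := by decide +kernel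

def r_2527_0 : chkL rootF engF2 tB tB sB_313 sB_313 4 F_2527 [(511, 0, 0)]
    0x48d2341d = true := by
  decide +kernel

theorem f_2527 (h : TabsF) : FrameF repsF 313 F_2527.f :=
  frame_of rfl c_2527 (runs_of engOK r_2527_0) (by decide +kernel) h.2 h.2

def F_2528 : FrX :=
  ⟨0x482000044040440000c2040020009000182040020002080100100208380404000012000081040220800020808020040201011002148000001880808082,
    0xa0, 1, 0x2040607494a0, 6,
    [(0xa0, 1), (0x538690a2, 4), (0x548790a1, 4), (0x21437690, 4), (0x538690a2, 4), (0x548790a1, 4)],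
    [(0x2040607494a0, 6), (0x537684a0, 4), (0x768295a1, 4), (0x10427693, 4), (0x537684a0, 4), (0x768295a1, 4)]⟩

def c_2528 : frmChk tA tA F_2528 = true := by decide +kernel

def r_2528_0 : chkL rootF engF2 tA tA sA_313 sA_313 4 F_2528 [(511, 0, 0)]
    0x41e14c5330f8288fa090caa078550ac2e = true := by
  decide +kernel

theorem f_2528 (h : TabsF) : FrameF repsF 313 F_2528.f :=
  frame_of rfl c_2528 (runs_of engOK r_2528_0) (by decide +kernel) h.1 h.1

def F_2529 : FrX :=
  ⟨0x2002000900044004000e02041000141000800040800801014008022012000240200202000888000224000100800060002008010005048488004404040050,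
    0xa3, 1, 0x21405092a8, 5,
    [(0xa3, 1), (0x208693a5, 4), (0x10548793, 4), (0x217693a4, 4), (0x208693a5, 4), (0x10548793, 4)],
    [(0x21405092a8, 5), (0x438195a6, 4), (0x405281a7, 4), (0x30768192, 4), (0x438195a6, 4), (0x405281a7, 4)]⟩

def c_2529 : frmChk tA tA F_2529 = true := by decide +kernel

def r_2529_0 : chkL rootF engF2 tA tA sA_313 sA_313 4 F_2529 [(511, 0, 0)]
    0x41d = true := by
  decide +kernel

theorem f_2529 (h : TabsF) : FrameF repsF 313 F_2529.f :=
  frame_of rfl c_2529 (runs_of engOK r_2529_0) (by decide +kernel) h.1 h.1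

def F_2530 : FrX :=
  ⟨0x482000044040440000c2040020009000182040020002080100100208024022008400100081040220800020808010101104142020100120004004800042,
    0xa0, 1, 0x314260768297a4, 7,
    [(0xa0, 1), (0x538690a2, 4), (0x548790a1, 4), (0x21437690, 4), (0x538690a2, 4), (0x548790a1, 4)],
    [(0x314260768297a4, 7), (0x718695a4, 4), (0x206397a5, 4), (0x204195a7, 4), (0x206397a5, 4), (0x548391a7, 4), (0x207486a1, 4), (0x204195a7, 4), (0x207486a1, 4), (0x416375a9, 4), (0x204195a7, 4), (0x548391a7, 4)]⟩

def c_2530 : frmChk tA tB F_2530 = true := by decide +kernel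

def r_2530_0 : chkL rootF engF2 tA tB sA_313 sB_313 4 F_2530 [(511, 0, 0)]
    0x10790d0b4271701e0740f0cc4e = true := by
  decide +kernel

theorem f_2530 (h : TabsF) : FrameF repsF 313 F_2530.f :=
  frame_of rfl c_2530 (runs_of engOK r_2530_0) (by decide +kernel) h.1 h.2

def F_2531 : FrX :=
  ⟨0x2002000900044004000e02041000141000800040810000081101002209020101040008000808010880080404124020040001810000800200214140021002,
    0xa3, 1, 0x324251647098a5, 7,
    [(0xa3, 1), (0x208693a5, 4), (0x10548793, 4), (0x217693a4, 4), (0x208693a5, 4), (0x10548793, 4)],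
    [(0x324251647098a5, 7), (0x748193a2, 4), (0x758190a6, 4), (0x30546281, 4), (0x748193a2, 4), (0x758190a6, 4)]⟩

def c_2531 : frmChk tA tA F_2531 = true := by decide +kernel

def r_2531_0 : chkL rootF engF2 tA tA sA_313 sA_313 4 F_2531 [(511, 0, 0)]
    0x10742b0b41b11c2b = true := by
  decide +kernel

theorem f_2531 (h : TabsF) : FrameF repsF 313 F_2531.f :=
  frame_of rfl c_2531 (runs_of engOK r_2531_0) (by decide +kernel) h.1 h.1

def F_2532 : FrX :=
  ⟨0x80080a000804040e0000210100200100000204088220000111002040000408801082008140000801203408008401000100011108400090c000002600001,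
    0xa6, 1, 0x60728491a7, 5,
    [(0xa6, 1), (0x205396a8, 4), (0x10548796, 4), (0x214396a7, 4), (0x205396a8, 4), (0x10548796, 4)],
    [(0x60728491a7, 5), (0x307684a5, 4), (0x218596a0, 4), (0x214380a5, 4), (0x218596a0, 4), (0x548097a3, 4), (0x21407683, 4), (0x214380a5, 4), (0x21407683, 4), (0x435096a8, 4), (0x214380a5, 4), (0x548097a3, 4)]⟩

def c_2532 : frmChk tA tB F_2532 = true := by decide +kernel

def r_2532_0 : chkL rootF engF2 tA tB sA_313 sB_313 4 F_2532 [(511, 0, 0)]
    0x41e0b88e05c2d11c9c0741d9141d0d81d88c2d = true := by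
  decide +kernel

theorem f_2532 (h : TabsF) : FrameF repsF 313 F_2532.f :=
  frame_of rfl c_2532 (runs_of engOK r_2532_0) (by decide +kernel) h.1 h.2

def F_2533 : FrX :=
  ⟨0x482000044040440000c2040020009000182040004080828004020010020028200400113100100100000201080220800404002140010202140104010002,
    0xa0, 1, 0x10213243647180a3, 8,
    [(0xa0, 1), (0x538690a2, 4), (0x548790a1, 4), (0x21437690, 4), (0x538690a2, 4), (0x548790a1, 4)],
    [(0x10213243647180a3, 8), (0x526183a0, 4), (0x20658794, 4), (0x526094a1, 4), (0x20658794, 4), (0x516073a2, 4), (0x108394a6, 4), (0x526094a1, 4), (0x108394a6, 4), (0x506287a1, 4), (0x526094a1, 4), (0x516073a2, 4)]⟩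

def c_2533 : frmChk tA tB F_2533 = true := by decide +kernel

def r_2533_0 : chkL rootF engF2 tA tB sA_313 sB_313 4 F_2533 [(511, 0, 0)]
    0x44e0783506c958640f = true := by
  decide +kernel

theorem f_2533 (h : TabsF) : FrameF repsF 313 F_2533.f :=
  frame_of rfl c_2533 (runs_of engOK r_2533_0) (by decide +kernel) h.1 h.2

theorem cl_313 (h : TabsF) : ∀ f ∈ fr_313, FrameF repsF 313 f :=
  List.forall_mem_cons.2 ⟨f_2506 h, List.forall_mem_cons.2 ⟨f_2507 h, List.forall_mem_cons.2 ⟨f_2508 h, List.forall_mem_cons.2 ⟨f_2509 h, List.forall_mem_cons.2 ⟨f_2510 h, List.forall_mem_cons.2 ⟨f_2511 h, List.forall_mem_cons.2 ⟨f_2512 h, List.forall_mem_cons.2 ⟨f_2513 h, List.forall_mem_cons.2 ⟨f_2514 h, List.forall_mem_cons.2 ⟨f_2515 h, List.forall_mem_cons.2 ⟨f_2516 h, List.forall_mem_cons.2 ⟨f_2517 h, List.forall_mem_cons.2 ⟨f_2518 h, List.forall_mem_cons.2 ⟨f_2519 h, List.forall_mem_cons.2 ⟨f_2520 h, List.forall_mem_cons.2 ⟨f_2521 h, List.forall_mem_cons.2 ⟨f_2522 h, List.forall_mem_cons.2 ⟨f_2523 h, List.forall_mem_cons.2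 ⟨f_2524 h, List.forall_mem_cons.2 ⟨f_2525 h, List.forall_mem_cons.2 ⟨f_2526 h, List.forall_mem_cons.2 ⟨f_2527 h, List.forall_mem_cons.2 ⟨f_2528 h, List.forall_mem_cons.2 ⟨f_2529 h, List.forall_mem_cons.2 ⟨f_2530 h, List.forall_mem_cons.2 ⟨f_2531 h, List.forall_mem_cons.2 ⟨f_2532 h, List.forall_mem_cons.2 ⟨f_2533 h,
    fun _ h0 => absurd h0 List.not_mem_nil⟩⟩⟩⟩⟩⟩⟩⟩⟩⟩⟩⟩⟩⟩⟩⟩⟩⟩⟩⟩⟩⟩⟩⟩⟩⟩⟩⟩

def F_2534 : FrX :=
  ⟨0x2002000900044004000e02041000141000800040808000401800a00010112108000024001020c01020100080880048800040001005040100244080214000,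
    0xa3, 1, 0x3054628197a3, 6,
    [(0xa3, 1), (0x208693a5, 4), (0x10548793, 4), (0x217693a4, 4), (0x208693a5, 4), (0x10548793, 4)],
    [(0x3054628197a3, 6), (0x216370a4, 4), (0x54708391, 4), (0x708692a5, 4), (0x216370a4, 4), (0x54708391, 4)]⟩

def c_2534 : frmChk tA tA F_2534 = true := by decide +kernel

def r_2534_0 : chkL rootF engF2 tA tA sA_314 sA_314 4 F_2534 [(511, 0, 0)]
    0x18b0659c0a522cb43242b22c2d = true := by
  decide +kernel

theorem f_2534 (h : TabsF) : FrameF repsF 314 F_2534.f :=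
  frame_of rfl c_2534 (runs_of engOK r_2534_0) (by decide +kernel) h.1 h.1

def F_2535 : FrX :=
  ⟨0x80080a000804040e00002101002001000002040880480800420004800010148004401001208400120001080802040801020080006002602300200800080,
    0xa6, 1, 0x31538397a0, 5,
    [(0xa6, 1), (0x205396a8, 4), (0x10548796, 4), (0x214396a7, 4), (0x205396a8, 4), (0x10548796, 4)],
    [(0x31538397a0, 5), (0x548691a2, 4), (0x417096a3, 4), (0x64708591, 4), (0x417096a3, 4), (0x32516498, 4), (0x657084a2, 4), (0x64708591, 4), (0x657084a2, 4), (0x618594a3, 4), (0x64708591, 4), (0x32516498, 4)]⟩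

def c_2535 : frmChk tA tB F_2535 = true := by decide +kernel

def r_2535_0 : chkL rootF engF2 tA tB sA_314 sB_314 4 F_2535 [(511, 0, 0)]
    0x4990e4f02a44ea84330d4f02a44ea844d0b827 = true := by
  decide +kernel

theorem f_2535 (h : TabsF) : FrameF repsF 314 F_2535.f :=
  frame_of rfl c_2535 (runs_of engOK r_2535_0) (by decide +kernel) h.1 h.2

def F_2536 : FrX :=
  ⟨0x2002000900044004000e02041000141000800040802000224008400048808080200202020004004080240130084000101001820010082080100224000201,
    0xa3, 1, 0x3042748292a0, 6,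
    [(0xa3, 1), (0x208693a5, 4), (0x10548793, 4), (0x217693a4, 4), (0x208693a5, 4), (0x10548793, 4)],
    [(0x3042748292a0, 6), (0x506483a9, 4), (0x427583a1, 4), (0x62708391, 4), (0x506483a9, 4), (0x427583a1, 4)]⟩

def c_2536 : frmChk tA tA F_2536 = true := by decide +kernel

def r_2536_0 : chkL rootF engF2 tA tA sA_314 sA_314 4 F_2536 [(511, 0, 0)]
    0x11641e09c550f20782e0790c27914360740f = true := by
  decide +kernel

theorem f_2536 (h : TabsF) : FrameF repsF 314 F_2536.f :=
  frame_of rfl c_2536 (runs_of engOK r_2536_0) (by decide +kernel) h.1 h.1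

def F_2537 : FrX :=
  ⟨0x80080a000804040e000021010020010000020408804240280200084000802000300204100800402008002810800400218440480210101042000a0000010,
    0xa6, 1, 0x2050627683a0, 6,
    [(0xa6, 1), (0x205396a8, 4), (0x10548796, 4), (0x214396a7, 4), (0x205396a8, 4), (0x10548796, 4)],
    [(0x2050627683a0, 6), (0x738295a6, 4), (0x304295a1, 4), (0x61708495, 4), (0x738295a6, 4), (0x304295a1, 4)]⟩

def c_2537 : frmChk tA tA F_2537 = true := by decide +kernel

def r_2537_0 : chkL rootF engF2 tA tA sA_314 sA_314 4 F_2537 [(511, 0, 0)]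
    0x40f51929c900f1360d4695252545319c41685a03d522394503c0f31545 = true := by
  decide +kernel

theorem f_2537 (h : TabsF) : FrameF repsF 314 F_2537.f :=
  frame_of rfl c_2537 (runs_of engOK r_2537_0) (by decide +kernel) h.1 h.1

def F_2538 : FrX :=
  ⟨0x2002000900044004000e02041000141000800040800802010800c00108224000020101010020080400a0a00100404802080400a080a000002020040c1000,
    0xa3, 1, 0x1040617196a8, 6,
    [(0xa3, 1), (0x208693a5, 4), (0x10548793, 4), (0x217693a4, 4), (0x208693a5, 4), (0x10548793, 4)],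
    [(0x1040617196a8, 6), (0x425380a9, 4), (0x517480a6, 4), (0x31728096, 4), (0x425380a9, 4), (0x517480a6, 4)]⟩

def c_2538 : frmChk tA tA F_2538 = true := by decide +kernel

def r_2538_0 : chkL rootF engF2 tA tA sA_314 sA_314 4 F_2538 [(511, 0, 0)]
    0x1c181be103c = true := by
  decide +kernel

theorem f_2538 (h : TabsF) : FrameF repsF 314 F_2538.f :=
  frame_of rfl c_2538 (runs_of engOK r_2538_0) (by decide +kernel) h.1 h.1

def F_2539 : FrX :=
  ⟨0x482000044040440000c2040020009000182040001080480000a00a00010404020400060002044008080809000500802010502008108080440100000050,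
    0xa0, 1, 0x2130618595a4, 6,
    [(0xa0, 1), (0x538690a2, 4), (0x548790a1, 4), (0x21437690, 4), (0x538690a2, 4), (0x548790a1, 4)],
    [(0x2130618595a4, 6), (0x31528490, 4), (0x637584a9, 4), (0x617284a0, 4), (0x31528490, 4), (0x637584a9, 4)]⟩

def c_2539 : frmChk tA tA F_2539 = true := by decide +kernel

def r_2539_0 : chkL rootF engF2 tA tA sA_314 sA_314 4 F_2539 [(511, 0, 0)]
    0x103ca912c8b11c4709c3603c8b = true := by
  decide +kernel

theorem f_2539 (h : TabsF) : FrameF repsF 314 F_2539.f :=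
  frame_of rfl c_2539 (runs_of engOK r_2539_0) (by decide +kernel) h.1 h.1

def F_2540 : FrX :=
  ⟨0x482000044040440000c2040020009000182040000442010108040080020028008802001104000480100004108401400024004040450000014202210080,
    0xa0, 1, 0x51647682a0, 5,
    [(0xa0, 1), (0x538690a2, 4), (0x548790a1, 4), (0x21437690, 4), (0x538690a2, 4), (0x548790a1, 4)],
    [(0x51647682a0, 5), (0x416273a8, 4), (0x617490a5, 4), (0x32417690, 4), (0x617490a5, 4), (0x21437685, 4), (0x637290a8, 4), (0x32417690, 4), (0x637290a8, 4), (0x326471a5, 4), (0x32417690, 4), (0x21437685, 4)]⟩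

def c_2540 : frmChk tA tB F_2540 = true := by decide +kernel

def r_2540_0 : chkL rootF engF2 tA tB sA_314 sB_314 4 F_2540 [(511, 0, 0)]
    0x4172a8a903c4730c170781d = true := by
  decide +kernel

theorem f_2540 (h : TabsF) : FrameF repsF 314 F_2540.f :=
  frame_of rfl c_2540 (runs_of engOK r_2540_0) (by decide +kernel) h.1 h.2

def F_2541 : FrX :=
  ⟨0x1001040012008080000e008408004100081010000421000040414001010000460220002021002202048100080c0008800004941200020004021000800208,
    0xa3, 1, 0x102142748296a5, 7,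
    [(0xa3, 1), (0x207584a6, 4), (0x10547693, 4), (0x647593a8, 4), (0x10547693, 4), (0x216485a7, 4), (0x208693a4, 4), (0x647593a8, 4), (0x208693a4, 4), (0x106574a8, 4), (0x647593a8, 4), (0x216485a7, 4)],
    [(0x102142748296a5, 7), (0x658194a3, 4), (0x214065a7, 4), (0x65738290, 4), (0x658194a3, 4), (0x214065a7, 4)]⟩

def c_2541 : frmChk tB tA F_2541 = true := by decide +kernel

def r_2541_0 : chkL rootF engF2 tB tA sB_314 sA_314 4 F_2541 [(511, 0, 0)]
    0x121cca2348da2417 = true := by
  decide +kernel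

theorem f_2541 (h : TabsF) : FrameF repsF 314 F_2541.f :=
  frame_of rfl c_2541 (runs_of engOK r_2541_0) (by decide +kernel) h.2 h.1

def F_2542 : FrX :=
  ⟨0x1001040012008080000e0084080041000810100004410000048140002100280008604000202a000800024840401008800004000206020704080100000048,
    0xa3, 1, 0x31516194a7, 5,
    [(0xa3, 1), (0x207584a6, 4), (0x10547693, 4), (0x647593a8, 4), (0x10547693, 4), (0x216485a7, 4), (0x208693a4, 4), (0x647593a8, 4), (0x208693a4, 4), (0x106574a8, 4), (0x647593a8, 4), (0x216485a7, 4)],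
    [(0x31516194a7, 5), (0x20317485, 4), (0x607493a8, 4), (0x627491a5, 4), (0x20317485, 4), (0x607493a8, 4)]⟩

def c_2542 : frmChk tB tA F_2542 = true := by decide +kernel

def r_2542_0 : chkL rootF engF2 tB tA sB_314 sA_314 4 F_2542 [(511, 0, 0)]
    0x10e4390e439 = true := by
  decide +kernel

theorem f_2542 (h : TabsF) : FrameF repsF 314 F_2542.f :=
  frame_of rfl c_2542 (runs_of engOK r_2542_0) (by decide +kernel) h.2 h.1

def F_2543 : FrX :=
  ⟨0x1001040012008080000e0084080041000810100004044010010810200200024040420202000044002002280a404000400950000005004408100000040c40,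
    0xa3, 1, 0x324354647092a0, 7,
    [(0xa3, 1), (0x207584a6, 4), (0x10547693, 4), (0x647593a8, 4), (0x10547693, 4), (0x216485a7, 4), (0x208693a4, 4), (0x647593a8, 4), (0x208693a4, 4), (0x106574a8, 4), (0x647593a8, 4), (0x216485a7, 4)],
    [(0x324354647092a0, 7), (0x427385a9, 4), (0x627380a1, 4), (0x50647391, 4), (0x427385a9, 4), (0x627380a1, 4)]⟩

def c_2543 : frmChk tB tA F_2543 = true := by decide +kernel

def r_2543_0 : chkL rootF engF2 tB tA sB_314 sA_314 4 F_2543 [(511, 0, 0)]
    0x4a903c392d00f = true := by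
  decide +kernel

theorem f_2543 (h : TabsF) : FrameF repsF 314 F_2543.f :=
  frame_of rfl c_2543 (runs_of engOK r_2543_0) (by decide +kernel) h.2 h.1

def F_2544 : FrX :=
  ⟨0x1001040012008080000e0084080041000810100004084010008802800200042044004202012040000808288020040020210014c001004440010004000050,
    0xa3, 1, 0x203265718491a2, 7,
    [(0xa3, 1), (0x207584a6, 4), (0x10547693, 4), (0x647593a8, 4), (0x10547693, 4), (0x216485a7, 4), (0x208693a4, 4), (0x647593a8, 4), (0x208693a4, 4), (0x106574a8, 4), (0x647593a8, 4), (0x216485a7, 4)],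
    [(0x203265718491a2, 7), (0x546073a2, 4), (0x41738692, 4), (0x517380a9, 4), (0x546073a2, 4), (0x41738692, 4)]⟩

def c_2544 : frmChk tB tA F_2544 = true := by decide +kernel

def r_2544_0 : chkL rootF engF2 tB tA sB_314 sA_314 4 F_2544 [(511, 0, 0)]
    0x103c350e83a0e84b48e292a5c192a299a1c1 = true := by
  decide +kernel

theorem f_2544 (h : TabsF) : FrameF repsF 314 F_2544.f :=
  frame_of rfl c_2544 (runs_of engOK r_2544_0) (by decide +kernel) h.2 h.1

def F_2545 : FrX :=
  ⟨0x600020801080810000c00401804101010010040100400420030100220008000480180008008102080500a0100801802284008200010004020008081001,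
    0xa0, 1, 0x2143657098a0, 6,
    [(0xa0, 1), (0x637584a2, 4), (0x547690a1, 4), (0x64758390, 4), (0x547690a1, 4), (0x21647385, 4), (0x438690a2, 4), (0x64758390, 4), (0x438690a2, 4), (0x657483a1, 4), (0x64758390, 4), (0x21647385, 4)],
    [(0x2143657098a0, 6), (0x546093a1, 4), (0x506387a2, 4), (0x53608794, 4), (0x506387a2, 4), (0x21405396, 4), (0x438795a1, 4), (0x53608794, 4), (0x438795a1, 4), (0x306594a2, 4), (0x53608794, 4), (0x21405396, 4)]⟩

def c_2545 : frmChk tB tB F_2545 = true := by decide +kernel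

def r_2545_0 : chkL rootF engF2 tB tB sB_314 sB_314 4 F_2545 [(511, 0, 0)]
    0x1 = true := by
  decide +kernel

theorem f_2545 (h : TabsF) : FrameF repsF 314 F_2545.f :=
  frame_of rfl c_2545 (runs_of engOK r_2545_0) (by decide +kernel) h.2 h.2

def F_2546 : FrX :=
  ⟨0x1c2102000004044000002041000101000082040888200008008080004000242020601000900010021000404880660050001011001300200340004800000,
    0x0, 0, 0x107583, 3,
    [(0x0, 0), (0x205386a9, 4), (0x105487a9, 4), (0x214376a9, 4), (0x205386a9, 4), (0x105487a9, 4)],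
    [(0x107583, 3), (0x216387a9, 4), (0x105374a9, 4), (0x206584a9, 4), (0x216387a9, 4), (0x105374a9, 4)]⟩

def c_2546 : frmChk tA tA F_2546 = true := by decide +kernel

def r_2546_0 : chkL rootF engF2 tA tA sA_314 sA_314 4 F_2546 [(255, 0, 0), (256, 0, 12)]
    0x112c2b2696826896268530ac5509d1515453c450781f05 = true := by
  decide +kernel

def r_2546_1 : chkL rootF engF2 tA tA sA_314 sA_314 4 F_2546 [(256, 12, 7)]
    0x1 = true := by
  decide +kernel

def r_2546_2 : chkL rootF engF2 tA tA sA_314 sA_314 4 F_2546 [(256, 19, 0)]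
    0x1690b40d4e20aca9b100f0b43a0aca52e138 = true := by
  decide +kernel

theorem f_2546 (h : TabsF) : FrameF repsF 314 F_2546.f :=
  frame_of rfl c_2546 ((runs_of engOK r_2546_0).append ((runs_of engOK r_2546_1).append (runs_of engOK r_2546_2))) (by decide +kernel) h.1 h.1

def F_2547 : FrX :=
  ⟨0x2002000900044004000e02041000141000800040800801014038000008000182100204004024001010040012000400000284008022205028080004010051,
    0xa3, 1, 0x4051628397a3, 6,
    [(0xa3, 1), (0x208693a5, 4), (0x10548793, 4), (0x217693a4, 4), (0x208693a5, 4), (0x10548793, 4)],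
    [(0x4051628397a3, 6), (0x326487a1, 4), (0x10548793, 4), (0x658792a0, 4), (0x326487a1, 4), (0x10548793, 4)]⟩

def c_2547 : frmChk tA tA F_2547 = true := by decide +kernel

def r_2547_0 : chkL rootF engF2 tA tA sA_314 sA_314 4 F_2547 [(511, 0, 0)]
    0x1 = true := by
  decide +kernel

theorem f_2547 (h : TabsF) : FrameF repsF 314 F_2547.f :=
  frame_of rfl c_2547 (runs_of engOK r_2547_0) (by decide +kernel) h.1 h.1

def F_2548 : FrX :=
  ⟨0x80080a000804040e000021010020010000020408822000040500801000c0082020024000c000100210008008806500500000510010009003400c0200000,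
    0xa6, 1, 0x3140768295a6, 6,
    [(0xa6, 1), (0x205396a8, 4), (0x10548796, 4), (0x214396a7, 4), (0x205396a8, 4), (0x10548796, 4)],
    [(0x3140768295a6, 6), (0x758491a2, 4), (0x43627590, 4), (0x107583a6, 4), (0x758491a2, 4), (0x43627590, 4)]⟩

def c_2548 : frmChk tA tA F_2548 = true := by decide +kernel

def r_2548_0 : chkL rootF engF2 tA tA sA_314 sA_314 4 F_2548 [(511, 0, 0)]
    0x41d11c4719991 = true := by
  decide +kernel

theorem f_2548 (h : TabsF) : FrameF repsF 314 F_2548.f :=
  frame_of rfl c_2548 (runs_of engOK r_2548_0) (by decide +kernel) h.1 h.1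

def F_2549 : FrX :=
  ⟨0x80080a000804040e0000210100200100000204089002000140801080881000400408101000003100002800082800100202400200400026800210244a000,
    0xa6, 1, 0x3051647298a6, 6,
    [(0xa6, 1), (0x205396a8, 4), (0x10548796, 4), (0x214396a7, 4), (0x205396a8, 4), (0x10548796, 4)],
    [(0x3051647298a6, 6), (0x107384a9, 4), (0x53618492, 4), (0x607584a2, 4), (0x107384a9, 4), (0x53618492, 4)]⟩

def c_2549 : frmChk tA tA F_2549 = true := by decide +kernel

def r_2549_0 : chkL rootF engF2 tA tA sA_314 sA_314 4 F_2549 [(511, 0, 0)]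
    0x10d81e074361c43c = true := by
  decide +kernel

theorem f_2549 (h : TabsF) : FrameF repsF 314 F_2549.f :=
  frame_of rfl c_2549 (runs_of engOK r_2549_0) (by decide +kernel) h.1 h.1

theorem cl_314 (h : TabsF) : ∀ f ∈ fr_314, FrameF repsF 314 f :=
  List.forall_mem_cons.2 ⟨f_2534 h, List.forall_mem_cons.2 ⟨f_2535 h, List.forall_mem_cons.2 ⟨f_2536 h, List.forall_mem_cons.2 ⟨f_2537 h, List.forall_mem_cons.2 ⟨f_2538 h, List.forall_mem_cons.2 ⟨f_2539 h, List.forall_mem_cons.2 ⟨f_2540 h, List.forall_mem_cons.2 ⟨f_2541 h, List.forall_mem_cons.2 ⟨f_2542 h, List.forall_mem_cons.2 ⟨f_2543 h, List.forall_mem_cons.2 ⟨f_2544 h, List.forall_mem_cons.2 ⟨f_2545 h, List.forall_mem_cons.2 ⟨f_2546 h, List.forall_mem_cons.2 ⟨f_2547 h, List.forall_mem_cons.2 ⟨f_2548 h, List.forall_mem_cons.2 ⟨f_2549 h,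
    fun _ h0 => absurd h0 List.not_mem_nil⟩⟩⟩⟩⟩⟩⟩⟩⟩⟩⟩⟩⟩⟩⟩⟩

def F_2550 : FrX :=
  ⟨0x2002000900044004000e02041000141000800040801000421400c00201040080020028020001040042020808840000140001810800480808002402200104,
    0xa3, 1, 0x213052617485a8, 7,
    [(0xa3, 1), (0x208693a5, 4), (0x10548793, 4), (0x217693a4, 4), (0x208693a5, 4), (0x10548793, 4)],
    [(0x213052617485a8, 7), (0x538091a2, 4), (0x638791a4, 4), (0x42657091, 4), (0x538091a2, 4), (0x638791a4, 4)]⟩

def c_2550 : frmChk tA tA F_2550 = true := by decide +kernel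

def r_2550_0 : chkL rootF engF2 tA tA sA_315 sA_315 4 F_2550 [(511, 0, 0)]
    0x4274390e12c270d46a = true := by
  decide +kernel

theorem f_2550 (h : TabsF) : FrameF repsF 315 F_2550.f :=
  frame_of rfl c_2550 (runs_of engOK r_2550_0) (by decide +kernel) h.1 h.1

def F_2551 : FrX :=
  ⟨0x80080a000804040e000021010020010000020408a0002000480088100224010020011000041082002020040942010101010010040500108004009080080,
    0xa6, 1, 0x20314152608591a0, 8,
    [(0xa6, 1), (0x205396a8, 4), (0x10548796, 4), (0x214396a7, 4), (0x205396a8, 4), (0x10548796, 4)],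
    [(0x20314152608591a0, 8), (0x213087a5, 4), (0x647283a9, 4), (0x10326487, 4), (0x647283a9, 4), (0x32718095, 4), (0x203164a5, 4), (0x10326487, 4), (0x203164a5, 4), (0x107382a9, 4), (0x10326487, 4), (0x32718095, 4)]⟩

def c_2551 : frmChk tA tB F_2551 = true := by decide +kernel

def r_2551_0 : chkL rootF engF2 tA tB sA_315 sB_315 4 F_2551 [(511, 0, 0)]
    0x105c65 = true := by
  decide +kernel

theorem f_2551 (h : TabsF) : FrameF repsF 315 F_2551.f :=
  frame_of rfl c_2551 (runs_of engOK r_2551_0) (by decide +kernel) h.1 h.2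

def F_2552 : FrX :=
  ⟨0x80080a000804040e000021010020010000020408a000020280040042022400008050004010200a000880101082081802008102004108000202104010010,
    0xa6, 1, 0x102132607691a2, 7,
    [(0xa6, 1), (0x205396a8, 4), (0x10548796, 4), (0x214396a7, 4), (0x205396a8, 4), (0x10548796, 4)],
    [(0x102132607691a2, 7), (0x325087a6, 4), (0x32548196, 4), (0x324071a9, 4), (0x325087a6, 4), (0x32548196, 4)]⟩

def c_2552 : frmChk tA tA F_2552 = true := by decide +kernel

def r_2552_0 : chkL rootF engF2 tA tA sA_315 sA_315 4 F_2552 [(511, 0, 0)]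
    0x46388c562c41b0b4172584d = true := by
  decide +kernel

theorem f_2552 (h : TabsF) : FrameF repsF 315 F_2552.f :=
  frame_of rfl c_2552 (runs_of engOK r_2552_0) (by decide +kernel) h.1 h.1

def F_2553 : FrX :=
  ⟨0x482000044040440000c204002000900018204000801080800420101008004202020042000008400a000140940080108080090040090081004080200028,
    0xa0, 1, 0x2051608091a0, 6,
    [(0xa0, 1), (0x538690a2, 4), (0x548790a1, 4), (0x21437690, 4), (0x538690a2, 4), (0x548790a1, 4)],
    [(0x2051608091a0, 6), (0x326471a0, 4), (0x417285a9, 4), (0x42637185, 4), (0x417285a9, 4), (0x42617390, 4), (0x436285a0, 4), (0x42637185, 4), (0x436285a0, 4), (0x216374a9, 4), (0x42637185, 4), (0x42617390, 4)]⟩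

def c_2553 : frmChk tA tB F_2553 = true := by decide +kernel

def r_2553_0 : chkL rootF engF2 tA tB sA_315 sB_315 4 F_2553 [(511, 0, 0)]
    0x40f0b81e = true := by
  decide +kernel

theorem f_2553 (h : TabsF) : FrameF repsF 315 F_2553.f :=
  frame_of rfl c_2553 (runs_of engOK r_2553_0) (by decide +kernel) h.1 h.2

def F_2554 : FrX :=
  ⟨0x80080a000804040e00002101002001000002040882024100060004100014000048081001081000840800400044100801012001080408080404248400200,
    0xa6, 1, 0x2132415260a2, 6,
    [(0xa6, 1), (0x205396a8, 4), (0x10548796, 4), (0x214396a7, 4), (0x205396a8, 4), (0x10548796, 4)],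
    [(0x2132415260a2, 6), (0x107382a6, 4), (0x32647095, 4), (0x20738195, 4), (0x32647095, 4), (0x207183a4, 4), (0x218095a6, 4), (0x20738195, 4), (0x218095a6, 4), (0x30647281, 4), (0x20738195, 4), (0x207183a4, 4)]⟩

def c_2554 : frmChk tA tB F_2554 = true := by decide +kernel

def r_2554_0 : chkL rootF engF2 tA tB sA_315 sB_315 4 F_2554 [(511, 0, 0)]
    0x4650d8650b45603e6485a439482709c2e43ac11c41e = true := by
  decide +kernel

theorem f_2554 (h : TabsF) : FrameF repsF 315 F_2554.f :=
  frame_of rfl c_2554 (runs_of engOK r_2554_0) (by decide +kernel) h.1 h.2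

def F_2555 : FrX :=
  ⟨0x2002000900044004000e02041000141000800040810140002080802401000081040202001001080400818004048008800041000840440000501000224300,
    0xa3, 1, 0x315263708390a0, 7,
    [(0xa3, 1), (0x208693a5, 4), (0x10548793, 4), (0x217693a4, 4), (0x208693a5, 4), (0x10548793, 4)],
    [(0x315263708390a0, 7), (0x618297a5, 4), (0x426097a3, 4), (0x10538497, 4), (0x618297a5, 4), (0x426097a3, 4)]⟩

def c_2555 : frmChk tA tA F_2555 = true := by decide +kernel

def r_2555_0 : chkL rootF engF2 tA tA sA_315 sA_315 4 F_2555 [(511, 0, 0)]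
    0x68305c3603c0f074270ae191702d8645c = true := by
  decide +kernel

theorem f_2555 (h : TabsF) : FrameF repsF 315 F_2555.f :=
  frame_of rfl c_2555 (runs_of engOK r_2555_0) (by decide +kernel) h.1 h.1

def F_2556 : FrX :=
  ⟨0x482000044040440000c2040020009000182040000901004000a00080004084004880820004020001040111128000802080080130048404008080800001,
    0xa0, 1, 0x2132426592a1, 6,
    [(0xa0, 1), (0x538690a2, 4), (0x548790a1, 4), (0x21437690, 4), (0x538690a2, 4), (0x548790a1, 4)],
    [(0x2132426592a1, 6), (0x51768390, 4), (0x426375a0, 4), (0x42537681, 4), (0x426375a0, 4), (0x537186a9, 4), (0x31428590, 4), (0x42537681, 4), (0x31428590, 4), (0x657381a0, 4), (0x42537681, 4), (0x537186a9, 4)]⟩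

def c_2556 : frmChk tA tB F_2556 = true := by decide +kernel

def r_2556_0 : chkL rootF engF2 tA tB sA_315 sB_315 4 F_2556 [(511, 0, 0)]
    0x10b41d0741d0e42b = true := by
  decide +kernel

theorem f_2556 (h : TabsF) : FrameF repsF 315 F_2556.f :=
  frame_of rfl c_2556 (runs_of engOK r_2556_0) (by decide +kernel) h.1 h.2

def F_2557 : FrX :=
  ⟨0x482000044040440000c204002000900018204001008002080100081404004422040001000004840002081908040800801400a000200080901020000038,
    0xa0, 1, 0x54657198a7, 5,
    [(0xa0, 1), (0x538690a2, 4), (0x548790a1, 4), (0x21437690, 4), (0x538690a2, 4), (0x548790a1, 4)],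
    [(0x54657198a7, 5), (0x204395a6, 4), (0x657081a4, 4), (0x548193a6, 4), (0x657081a4, 4), (0x547296a3, 4), (0x20538194, 4), (0x548193a6, 4), (0x20538194, 4), (0x647093a5, 4), (0x548193a6, 4), (0x547296a3, 4)]⟩

def c_2557 : frmChk tA tB F_2557 = true := by decide +kernel

def r_2557_0 : chkL rootF engF2 tA tB sA_315 sB_315 4 F_2557 [(511, 0, 0)]
    0x182c8703d23 = true := by
  decide +kernel

theorem f_2557 (h : TabsF) : FrameF repsF 315 F_2557.f :=
  frame_of rfl c_2557 (runs_of engOK r_2557_0) (by decide +kernel) h.1 h.2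

def F_2558 : FrX :=
  ⟨0x2002000900044004000e02041000141000800040810000012801004102004040220101010000048400a00486040010001080088080400820204088000084,
    0xa3, 1, 0x2041628591a4, 6,
    [(0xa3, 1), (0x208693a5, 4), (0x10548793, 4), (0x217693a4, 4), (0x208693a5, 4), (0x10548793, 4)],
    [(0x2041628591a4, 6), (0x41506283, 4), (0x417592a8, 4), (0x417096a3, 4), (0x41506283, 4), (0x417592a8, 4)]⟩

def c_2558 : frmChk tA tA F_2558 = true := by decide +kernel

def r_2558_0 : chkL rootF engF2 tA tA sA_315 sA_315 4 F_2558 [(511, 0, 0)]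
    0x103c1709d4603c8b = true := by
  decide +kernel

theorem f_2558 (h : TabsF) : FrameF repsF 315 F_2558.f :=
  frame_of rfl c_2558 (runs_of engOK r_2558_0) (by decide +kernel) h.1 h.1

def F_2559 : FrX :=
  ⟨0x2002000900044004000e02041000141000800040800400448020004200012108100020210020031000420080880800040300801008080808000802224004,
    0xa3, 1, 0x314352658192a6, 7,
    [(0xa3, 1), (0x208693a5, 4), (0x10548793, 4), (0x217693a4, 4), (0x208693a5, 4), (0x10548793, 4)],
    [(0x314352658192a6, 7), (0x317690a4, 4), (0x526180a7, 4), (0x435276a1, 4), (0x526180a7, 4), (0x637498a1, 4), (0x415290a3, 4), (0x435276a1, 4), (0x415290a3, 4), (0x437180a6, 4), (0x435276a1, 4), (0x637498a1, 4)]⟩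

def c_2559 : frmChk tA tB F_2559 = true := by decide +kernel

def r_2559_0 : chkL rootF engF2 tA tB sA_315 sB_315 4 F_2559 [(511, 0, 0)]
    0x10d4350cc33a158a09ca3 = true := by
  decide +kernel

theorem f_2559 (h : TabsF) : FrameF repsF 315 F_2559.f :=
  frame_of rfl c_2559 (runs_of engOK r_2559_0) (by decide +kernel) h.1 h.2

def F_2560 : FrX :=
  ⟨0x2002000900044004000e0204100014100080004081000002809000040480088120020008100402048022014008101000108008802204000050020002a200,
    0xa3, 1, 0x32438198a0, 5,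
    [(0xa3, 1), (0x208693a5, 4), (0x10548793, 4), (0x217693a4, 4), (0x208693a5, 4), (0x10548793, 4)],
    [(0x32438198a0, 5), (0x647592a3, 4), (0x105276a8, 4), (0x10627594, 4), (0x105276a8, 4), (0x62748395, 4), (0x104296a3, 4), (0x10627594, 4), (0x104296a3, 4), (0x657294a8, 4), (0x10627594, 4), (0x62748395, 4)]⟩

def c_2560 : frmChk tA tB F_2560 = true := by decide +kernel

def r_2560_0 : chkL rootF engF2 tA tB sA_315 sB_315 4 F_2560 [(511, 0, 0)]
    0x4691a4690e40f138c5a1a8c468358c62c = true := by
  decide +kernel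

theorem f_2560 (h : TabsF) : FrameF repsF 315 F_2560.f :=
  frame_of rfl c_2560 (runs_of engOK r_2560_0) (by decide +kernel) h.1 h.2

def F_2561 : FrX :=
  ⟨0x80080a000804040e00002101002001000002040882020401008400008810000009084041024000280021800101101400001108080808000444140010200,
    0xa6, 1, 0x20304254628095a3, 8,
    [(0xa6, 1), (0x205396a8, 4), (0x10548796, 4), (0x214396a7, 4), (0x205396a8, 4), (0x10548796, 4)],
    [(0x20304254628095a3, 8), (0x204386a9, 4), (0x20738195, 4), (0x206174a5, 4), (0x204386a9, 4), (0x20738195, 4)]⟩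

def c_2561 : frmChk tA tA F_2561 = true := by decide +kernel

def r_2561_0 : chkL rootF engF2 tA tA sA_315 sA_315 4 F_2561 [(511, 0, 0)]
    0x10b817a484e = true := by
  decide +kernel

theorem f_2561 (h : TabsF) : FrameF repsF 315 F_2561.f :=
  frame_of rfl c_2561 (runs_of engOK r_2561_0) (by decide +kernel) h.1 h.1

def F_2562 : FrX :=
  ⟨0x80080a000804040e00002101002001000002040880480800404090000220008008013010020030400021800a0081000022000204800040a100a000c0080,
    0xa6, 1, 0x54748192a6, 5,
    [(0xa6, 1), (0x205396a8, 4), (0x10548796, 4), (0x214396a7, 4), (0x205396a8, 4), (0x10548796, 4)],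
    [(0x54748192a6, 5), (0x547190a3, 4), (0x627480a5, 4), (0x315462a7, 4), (0x627480a5, 4), (0x415398a7, 4), (0x627390a1, 4), (0x315462a7, 4), (0x627390a1, 4), (0x317580a4, 4), (0x315462a7, 4), (0x415398a7, 4)]⟩

def c_2562 : frmChk tA tB F_2562 = true := by decide +kernel

def r_2562_0 : chkL rootF engF2 tA tB sA_315 sB_315 4 F_2562 [(511, 0, 0)]
    0x46c = true := by
  decide +kernel

theorem f_2562 (h : TabsF) : FrameF repsF 315 F_2562.f :=
  frame_of rfl c_2562 (runs_of engOK r_2562_0) (by decide +kernel) h.1 h.2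

def F_2563 : FrX :=
  ⟨0x1001040012008080000e008408004100081010000420100410080220020000a044200012000021404004280902000020210080080800440810000a000904,
    0xa3, 1, 0x43718791a8, 5,
    [(0xa3, 1), (0x207584a6, 4), (0x10547693, 4), (0x647593a8, 4), (0x10547693, 4), (0x216485a7, 4), (0x208693a4, 4), (0x647593a8, 4), (0x208693a4, 4), (0x106574a8, 4), (0x647593a8, 4), (0x216485a7, 4)],
    [(0x43718791a8, 5), (0x205471a6, 4), (0x537190a8, 4), (0x43718692, 4), (0x205471a6, 4), (0x537190a8, 4)]⟩

def c_2563 : frmChk tB tA F_2563 = true := by decide +kernel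

def r_2563_0 : chkL rootF engF2 tB tA sB_315 sA_315 4 F_2563 [(511, 0, 0)]
    0x13324682e0744d1c44c5c = true := by
  decide +kernel

theorem f_2563 (h : TabsF) : FrameF repsF 315 F_2563.f :=
  frame_of rfl c_2563 (runs_of engOK r_2563_0) (by decide +kernel) h.2 h.1

def F_2564 : FrX :=
  ⟨0x1001040012008080000e0084080041000810100004200802400140010102000009a0000a0000208040084804400000801404202600820800108100000058,
    0xa3, 1, 0x3263768697a3, 6,
    [(0xa3, 1), (0x207584a6, 4), (0x10547693, 4), (0x647593a8, 4), (0x10547693, 4), (0x216485a7, 4), (0x208693a4, 4), (0x647593a8, 4), (0x208693a4, 4), (0x106574a8, 4), (0x647593a8, 4), (0x216485a7, 4)],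
    [(0x3263768697a3, 6), (0x307495a8, 4), (0x10546298, 4), (0x628495a7, 4), (0x10546298, 4), (0x317584a9, 4), (0x306287a4, 4), (0x628495a7, 4), (0x306287a4, 4), (0x108594a7, 4), (0x628495a7, 4), (0x317584a9, 4)]⟩

def c_2564 : frmChk tB tB F_2564 = true := by decide +kernel

def r_2564_0 : chkL rootF engF2 tB tB sB_315 sB_315 4 F_2564 [(511, 0, 0)]
    0x1 = true := by
  decide +kernel

theorem f_2564 (h : TabsF) : FrameF repsF 315 F_2564.f :=
  frame_of rfl c_2564 (runs_of engOK r_2564_0) (by decide +kernel) h.2 h.2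

def F_2565 : FrX :=
  ⟨0x1001040012008080000e0084080041000810100004200802400140010102000004a0002a00002080400848044000008040042015000212000aa100000088,
    0xa3, 1, 0x5161738695a7, 6,
    [(0xa3, 1), (0x207584a6, 4), (0x10547693, 4), (0x647593a8, 4), (0x10547693, 4), (0x216485a7, 4), (0x208693a4, 4), (0x647593a8, 4), (0x208693a4, 4), (0x106574a8, 4), (0x647593a8, 4), (0x216485a7, 4)],
    [(0x5161738695a7, 6), (0x205487a9, 4), (0x316094a8, 4), (0x317584a9, 4), (0x316094a8, 4), (0x628495a7, 4), (0x20317485, 4), (0x317584a9, 4), (0x20317485, 4), (0x607598a4, 4), (0x317584a9, 4), (0x628495a7, 4)]⟩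

def c_2565 : frmChk tB tB F_2565 = true := by decide +kernel

def r_2565_0 : chkL rootF engF2 tB tB sB_315 sB_315 4 F_2565 [(511, 0, 0)]
    0x1 = true := by
  decide +kernel

theorem f_2565 (h : TabsF) : FrameF repsF 315 F_2565.f :=
  frame_of rfl c_2565 (runs_of engOK r_2565_0) (by decide +kernel) h.2 h.2

def F_2566 : FrX :=
  ⟨0x1c4044000008081000000840080410000101084042102000001081000102000042040520000404000424018882080240100201018104008006003000080,
    0x0, 0, 0x4376, 2,
    [(0x0, 0), (0x20637584, 4), (0x105476a9, 4), (0x647583a9, 4), (0x105476a9, 4), (0x21647385, 4), (0x204386a9, 4), (0x647583a9, 4), (0x204386a9, 4), (0x10657483, 4), (0x647583a9, 4), (0x21647385, 4)],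
    [(0x4376, 2), (0x205487a9, 4), (0x105386a9, 4), (0x214376a9, 4), (0x205487a9, 4), (0x105386a9, 4)]⟩

def c_2566 : frmChk tB tA F_2566 = true := by decide +kernel

def r_2566_0 : chkL rootF engF2 tB tA sB_315 sA_315 4 F_2566 [(511, 0, 0)]
    0x40f06c6a = true := by
  decide +kernel

theorem f_2566 (h : TabsF) : FrameF repsF 315 F_2566.f :=
  frame_of rfl c_2566 (runs_of engOK r_2566_0) (by decide +kernel) h.2 h.1

def F_2567 : FrX :=
  ⟨0x1001040012008080000e008408004100081010000420101000880220020000a044020200088020014004280002140820030000080a00400810100a022000,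
    0xa3, 1, 0x102092a7, 4,
    [(0xa3, 1), (0x207584a6, 4), (0x10547693, 4), (0x647593a8, 4), (0x10547693, 4), (0x216485a7, 4), (0x208693a4, 4), (0x647593a8, 4), (0x208693a4, 4), (0x106574a8, 4), (0x647593a8, 4), (0x216485a7, 4)],
    [(0x102092a7, 4), (0x638492a5, 4), (0x205471a6, 4), (0x647183a5, 4), (0x205471a6, 4), (0x648590a3, 4), (0x43718692, 4), (0x647183a5, 4), (0x43718692, 4), (0x206583a4, 4), (0x647183a5, 4), (0x648590a3, 4)]⟩

def c_2567 : frmChk tB tB F_2567 = true := by decide +kernel

def r_2567_0 : chkL rootF engF2 tB tB sB_315 sB_315 4 F_2567 [(511, 0, 0)]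
    0x1236451c8720e6a2e8289 = true := by
  decide +kernel

theorem f_2567 (h : TabsF) : FrameF repsF 315 F_2567.f :=
  frame_of rfl c_2567 (runs_of engOK r_2567_0) (by decide +kernel) h.2 h.2

def F_2568 : FrX :=
  ⟨0x1c21020000040440000020410001010000820408880810000010204004001020006040600000e00100a0209082000408048008000600800500010280041,
    0x0, 0, 0x4376, 2,
    [(0x0, 0), (0x205386a9, 4), (0x105487a9, 4), (0x214376a9, 4), (0x205386a9, 4), (0x105487a9, 4)],
    [(0x4376, 2), (0x20657483, 4), (0x105376a9, 4), (0x657384a9, 4), (0x105376a9, 4), (0x21647385, 4), (0x204387a9, 4), (0x657384a9, 4), (0x204387a9, 4), (0x10637584, 4), (0x657384a9, 4), (0x21647385, 4)]⟩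

def c_2568 : frmChk tA tB F_2568 = true := by decide +kernel

def r_2568_0 : chkL rootF engF2 tA tB sA_315 sB_315 4 F_2568 [(511, 0, 0)]
    0x417 = true := by
  decide +kernel

theorem f_2568 (h : TabsF) : FrameF repsF 315 F_2568.f :=
  frame_of rfl c_2568 (runs_of engOK r_2568_0) (by decide +kernel) h.1 h.2

def F_2569 : FrX :=
  ⟨0x80080a000804040e00002101002001000002040881011001020010020042004018014000c000410200000008880401400070020004010880060a0400402,
    0xa6, 1, 0x52758596a7, 5,
    [(0xa6, 1), (0x205396a8, 4), (0x10548796, 4), (0x214396a7, 4), (0x205396a8, 4), (0x10548796, 4)],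
    [(0x52758596a7, 5), (0x507493a8, 4), (0x106284a9, 4), (0x627394a8, 4), (0x106284a9, 4), (0x518794a3, 4), (0x43506297, 4), (0x627394a8, 4), (0x43506297, 4), (0x107398a4, 4), (0x627394a8, 4), (0x518794a3, 4)]⟩

def c_2569 : frmChk tA tB F_2569 = true := by decide +kernel

def r_2569_0 : chkL rootF engF2 tA tB sA_315 sB_315 4 F_2569 [(511, 0, 0)]
    0x10783c = true := by
  decide +kernel

theorem f_2569 (h : TabsF) : FrameF repsF 315 F_2569.f :=
  frame_of rfl c_2569 (runs_of engOK r_2569_0) (by decide +kernel) h.1 h.2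

def F_2570 : FrX :=
  ⟨0x2002000900044004000e020410001410008000408008010140080240020004c02001020008880002240001008000481001000000e0408008001042061402,
    0xa3, 1, 0x3263738698a3, 6,
    [(0xa3, 1), (0x208693a5, 4), (0x10548793, 4), (0x217693a4, 4), (0x208693a5, 4), (0x10548793, 4)],
    [(0x3263738698a3, 6), (0x307298a5, 4), (0x10547296, 4), (0x317286a4, 4), (0x307298a5, 4), (0x10547296, 4)]⟩

def c_2570 : frmChk tA tA F_2570 = true := by decide +kernel

def r_2570_0 : chkL rootF engF2 tA tA sA_315 sA_315 4 F_2570 [(511, 0, 0)]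
    0x10741b03c272a41b = true := by
  decide +kernel

theorem f_2570 (h : TabsF) : FrameF repsF 315 F_2570.f :=
  frame_of rfl c_2570 (runs_of engOK r_2570_0) (by decide +kernel) h.1 h.1

def F_2571 : FrX :=
  ⟨0x80080a000804040e00002101002001000002040881011001020010020042007000004040c00041020000000888040140002082014000a88002240400120,
    0xa6, 1, 0x43537493a6, 5,
    [(0xa6, 1), (0x205396a8, 4), (0x10548796, 4), (0x214396a7, 4), (0x205396a8, 4), (0x10548796, 4)],
    [(0x43537493a6, 5), (0x204387a9, 4), (0x106574a3, 4), (0x436598a7, 4), (0x106574a3, 4), (0x218493a7, 4), (0x206597a8, 4), (0x436598a7, 4), (0x206597a8, 4), (0x107398a4, 4), (0x436598a7, 4), (0x218493a7, 4)]⟩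

def c_2571 : frmChk tA tB F_2571 = true := by decide +kernel

def r_2571_0 : chkL rootF engF2 tA tB sA_315 sB_315 4 F_2571 [(511, 0, 0)]
    0x42d9a318ca0b828c1b = true := by
  decide +kernel

theorem f_2571 (h : TabsF) : FrameF repsF 315 F_2571.f :=
  frame_of rfl c_2571 (runs_of engOK r_2571_0) (by decide +kernel) h.1 h.2

def F_2572 : FrX :=
  ⟨0x1001040012008080000e0084080041000810100004201010014802200200004044020200208070014000280002000820090000080240400810100a022002,
    0xa3, 1, 0x3141617193a3, 6,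
    [(0xa3, 1), (0x207584a6, 4), (0x10547693, 4), (0x647593a8, 4), (0x10547693, 4), (0x216485a7, 4), (0x208693a4, 4), (0x647593a8, 4), (0x208693a4, 4), (0x106574a8, 4), (0x647593a8, 4), (0x216485a7, 4)],
    [(0x3141617193a3, 6), (0x206583a4, 4), (0x53647091, 4), (0x436591a8, 4), (0x53647091, 4), (0x437285a6, 4), (0x208491a3, 4), (0x436591a8, 4), (0x208491a3, 4), (0x546370a8, 4), (0x436591a8, 4), (0x437285a6, 4)]⟩

def c_2572 : frmChk tB tB F_2572 = true := by decide +kernel

def r_2572_0 : chkL rootF engF2 tB tB sB_315 sB_315 4 F_2572 [(511, 0, 0)]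
    0x1 = true := by
  decide +kernel

theorem f_2572 (h : TabsF) : FrameF repsF 315 F_2572.f :=
  frame_of rfl c_2572 (runs_of engOK r_2572_0) (by decide +kernel) h.2 h.2

def F_2573 : FrX :=
  ⟨0x1001040012008080000e008408004100081010000420100410080220020000a0442000120000700040042814400000202100800800404408100004000306,
    0xa3, 1, 0x43718791a8, 5,
    [(0xa3, 1), (0x207584a6, 4), (0x10547693, 4), (0x647593a8, 4), (0x10547693, 4), (0x216485a7, 4), (0x208693a4, 4), (0x647593a8, 4), (0x208693a4, 4), (0x106574a8, 4), (0x647593a8, 4), (0x216485a7, 4)],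
    [(0x43718791a8, 5), (0x205471a6, 4), (0x537190a8, 4), (0x43718692, 4), (0x205471a6, 4), (0x537190a8, 4)]⟩

def c_2573 : frmChk tB tA F_2573 = true := by decide +kernel

def r_2573_0 : chkL rootF engF2 tB tA sB_315 sA_315 4 F_2573 [(511, 0, 0)]
    0x41e = true := by
  decide +kernel

theorem f_2573 (h : TabsF) : FrameF repsF 315 F_2573.f :=
  frame_of rfl c_2573 (runs_of engOK r_2573_0) (by decide +kernel) h.2 h.1

def F_2574 : FrX :=
  ⟨0x1001040012008080000e008408004100081010000420080240014001010200000e2000060000208040084804400000804004201500020480090100008094,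
    0xa3, 1, 0x208596a3, 4,
    [(0xa3, 1), (0x207584a6, 4), (0x10547693, 4), (0x647593a8, 4), (0x10547693, 4), (0x216485a7, 4), (0x208693a4, 4), (0x647593a8, 4), (0x208693a4, 4), (0x106574a8, 4), (0x647593a8, 4), (0x216485a7, 4)],
    [(0x208596a3, 4), (0x205487a9, 4), (0x21638497, 4), (0x638794a5, 4), (0x21638497, 4), (0x108594a7, 4), (0x206395a4, 4), (0x638794a5, 4), (0x206395a4, 4), (0x217498a5, 4), (0x638794a5, 4), (0x108594a7, 4)]⟩

def c_2574 : frmChk tB tB F_2574 = true := by decide +kernel

def r_2574_0 : chkL rootF engF2 tB tB sB_315 sB_315 4 F_2574 [(511, 0, 0)]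
    0x42b03c0f = true := by
  decide +kernel

theorem f_2574 (h : TabsF) : FrameF repsF 315 F_2574.f :=
  frame_of rfl c_2574 (runs_of engOK r_2574_0) (by decide +kernel) h.2 h.2

def F_2575 : FrX :=
  ⟨0x1001040012008080000e00840800410008101000042100001120010060002022808200002200004b00004002c0080041001080040820000044400021004c,
    0xa3, 1, 0x102131547491a8, 7,
    [(0xa3, 1), (0x207584a6, 4), (0x10547693, 4), (0x647593a8, 4), (0x10547693, 4), (0x216485a7, 4), (0x208693a4, 4), (0x647593a8, 4), (0x208693a4, 4), (0x106574a8, 4), (0x647593a8, 4), (0x216485a7, 4)],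
    [(0x102131547491a8, 7), (0x104283a6, 4), (0x748391a5, 4), (0x65728390, 4), (0x104283a6, 4), (0x748391a5, 4)]⟩

def c_2575 : frmChk tB tA F_2575 = true := by decide +kernel

def r_2575_0 : chkL rootF engF2 tB tA sB_315 sA_315 4 F_2575 [(511, 0, 0)]
    0x1074170b81707916 = true := by
  decide +kernel

theorem f_2575 (h : TabsF) : FrameF repsF 315 F_2575.f :=
  frame_of rfl c_2575 (runs_of engOK r_2575_0) (by decide +kernel) h.2 h.1

def F_2576 : FrX :=
  ⟨0x1001040012008080000e0084080041000810100006000002808020800418008404000a000100110268010008000c20022000a0820001000000a002201104,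
    0xa3, 1, 0x3143647691a3, 6,
    [(0xa3, 1), (0x207584a6, 4), (0x10547693, 4), (0x647593a8, 4), (0x10547693, 4), (0x216485a7, 4), (0x208693a4, 4), (0x647593a8, 4), (0x208693a4, 4), (0x106574a8, 4), (0x647593a8, 4), (0x216485a7, 4)],
    [(0x3143647691a3, 6), (0x205186a7, 4), (0x43657190, 4), (0x435176a8, 4), (0x43657190, 4), (0x768592a1, 4), (0x204387a6, 4), (0x435176a8, 4), (0x204387a6, 4), (0x617590a8, 4), (0x435176a8, 4), (0x768592a1, 4)]⟩

def c_2576 : frmChk tB tB F_2576 = true := by decide +kernel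

def r_2576_0 : chkL rootF engF2 tB tB sB_315 sB_315 4 F_2576 [(511, 0, 0)]
    0x11988b3143505c170d531a31980d531a31980d531a31980782b = true := by
  decide +kernel

theorem f_2576 (h : TabsF) : FrameF repsF 315 F_2576.f :=
  frame_of rfl c_2576 (runs_of engOK r_2576_0) (by decide +kernel) h.2 h.2

def F_2577 : FrX :=
  ⟨0x80080a000804040e000021010020010000020408a00010040400248004802020000818004000850200c00005024024080040080030004003000c0808400,
    0xa6, 1, 0x53648692a8, 5,
    [(0xa6, 1), (0x205396a8, 4), (0x10548796, 4), (0x214396a7, 4), (0x205396a8, 4), (0x10548796, 4)],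
    [(0x53648692a8, 5), (0x738590a6, 4), (0x10426387, 4), (0x427386a5, 4), (0x10426387, 4), (0x758691a3, 4), (0x426590a8, 4), (0x427386a5, 4), (0x426590a8, 4), (0x107683a5, 4), (0x427386a5, 4), (0x758691a3, 4)]⟩

def c_2577 : frmChk tA tB F_2577 = true := by decide +kernel

def r_2577_0 : chkL rootF engF2 tA tB sA_315 sB_315 4 F_2577 [(511, 0, 0)]
    0x1ac01d0747205c39 = true := by
  decide +kernel

theorem f_2577 (h : TabsF) : FrameF repsF 315 F_2577.f :=
  frame_of rfl c_2577 (runs_of engOK r_2577_0) (by decide +kernel) h.1 h.2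

theorem cl_315 (h : TabsF) : ∀ f ∈ fr_315, FrameF repsF 315 f :=
  List.forall_mem_cons.2 ⟨f_2550 h, List.forall_mem_cons.2 ⟨f_2551 h, List.forall_mem_cons.2 ⟨f_2552 h, List.forall_mem_cons.2 ⟨f_2553 h, List.forall_mem_cons.2 ⟨f_2554 h, List.forall_mem_cons.2 ⟨f_2555 h, List.forall_mem_cons.2 ⟨f_2556 h, List.forall_mem_cons.2 ⟨f_2557 h, List.forall_mem_cons.2 ⟨f_2558 h, List.forall_mem_cons.2 ⟨f_2559 h, List.forall_mem_cons.2 ⟨f_2560 h, List.forall_mem_cons.2 ⟨f_2561 h, List.forall_mem_cons.2 ⟨f_2562 h, List.forall_mem_cons.2 ⟨f_2563 h, List.forall_mem_cons.2 ⟨f_2564 h, List.forall_mem_cons.2 ⟨f_2565 h, List.forall_mem_cons.2 ⟨f_2566 h, List.forall_mem_cons.2 ⟨f_2567 h, List.forall_mem_cons.2 ⟨f_2568 h, List.forall_mem_cons.2 ⟨f_2569 h, List.forall_mem_cons.2 ⟨f_2570 h, List.forall_mem_cons.2 ⟨f_2571 h, List.forall_mem_cons.2 ⟨f_2572 h, List.forall_mem_cons.2 ⟨f_2573 h, List.forall_mem_cons.2 ⟨f_2574 h, List.forall_mem_cons.2 ⟨f_2575 h, List.forall_mem_cons.2 ⟨f_2576 h, List.forall_mem_cons.2 ⟨f_2577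 h,
    fun _ h0 => absurd h0 List.not_mem_nil⟩⟩⟩⟩⟩⟩⟩⟩⟩⟩⟩⟩⟩⟩⟩⟩⟩⟩⟩⟩⟩⟩⟩⟩⟩⟩⟩⟩

def F_2578 : FrX :=
  ⟨0x600020801080810000c0040180410101001004008200004400200084021102808400001088820008410004040420021000208202002840000840200048,
    0xa0, 1, 0x2032405463738197a0, 9,
    [(0xa0, 1), (0x637584a2, 4), (0x547690a1, 4), (0x64758390, 4), (0x547690a1, 4), (0x21647385, 4), (0x438690a2, 4), (0x64758390, 4), (0x438690a2, 4), (0x657483a1, 4), (0x64758390, 4), (0x21647385, 4)],
    [(0x2032405463738197a0, 9), (0x106472a3, 4), (0x526491a8, 4), (0x64758390, 4), (0x106472a3, 4), (0x526491a8, 4)]⟩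

def c_2578 : frmChk tB tA F_2578 = true := by decide +kernel

def r_2578_0 : chkL rootF engF2 tB tA sB_316 sA_316 4 F_2578 [(511, 0, 0)]
    0x10b41e1c4711c471 = true := by
  decide +kernel

theorem f_2578 (h : TabsF) : FrameF repsF 316 F_2578.f :=
  frame_of rfl c_2578 (runs_of engOK r_2578_0) (by decide +kernel) h.2 h.1

def F_2579 : FrX :=
  ⟨0x1001040012008080000e008408004100081010000441000003021040042008100081080010800201c200280002041040001000800a100000a82040211000,
    0xa3, 1, 0x10415260718095a0, 8,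
    [(0xa3, 1), (0x207584a6, 4), (0x10547693, 4), (0x647593a8, 4), (0x10547693, 4), (0x216485a7, 4), (0x208693a4, 4), (0x647593a8, 4), (0x208693a4, 4), (0x106574a8, 4), (0x647593a8, 4), (0x216485a7, 4)],
    [(0x10415260718095a0, 8), (0x618293a5, 4), (0x648290a7, 4), (0x30417582, 4), (0x618293a5, 4), (0x648290a7, 4)]⟩

def c_2579 : frmChk tB tA F_2579 = true := by decide +kernel

def r_2579_0 : chkL rootF engF2 tB tA sB_316 sA_316 4 F_2579 [(511, 0, 0)]
    0x10b41d = true := by
  decide +kernel

theorem f_2579 (h : TabsF) : FrameF repsF 316 F_2579.f :=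
  frame_of rfl c_2579 (runs_of engOK r_2579_0) (by decide +kernel) h.2 h.1

def F_2580 : FrX :=
  ⟨0x600020801080810000c0040180410101001004000808818000030080821002000000884100422000080140a0001010044000082600008a100400220020,
    0xa0, 1, 0x2142517284a0, 6,
    [(0xa0, 1), (0x637584a2, 4), (0x547690a1, 4), (0x64758390, 4), (0x547690a1, 4), (0x21647385, 4), (0x438690a2, 4), (0x64758390, 4), (0x438690a2, 4), (0x657483a1, 4), (0x64758390, 4), (0x21647385, 4)],
    [(0x2142517284a0, 6), (0x326190a7, 4), (0x418290a5, 4), (0x64758390, 4), (0x326190a7, 4), (0x418290a5, 4)]⟩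

def c_2580 : frmChk tB tA F_2580 = true := by decide +kernel

def r_2580_0 : chkL rootF engF2 tB tA sB_316 sA_316 4 F_2580 [(511, 0, 0)]
    0x16a1a8 = true := by
  decide +kernel

theorem f_2580 (h : TabsF) : FrameF repsF 316 F_2580.f :=
  frame_of rfl c_2580 (runs_of engOK r_2580_0) (by decide +kernel) h.2 h.1

def F_2581 : FrX :=
  ⟨0x600020801080810000c00401804101010010040042000208004000480240206204000010800200400509400210080a0001020404042010004040008048,
    0xa0, 1, 0x40738596a0, 5,
    [(0xa0, 1), (0x637584a2, 4), (0x547690a1, 4), (0x64758390, 4), (0x547690a1, 4), (0x21647385, 4), (0x438690a2, 4), (0x64758390, 4), (0x438690a2, 4), (0x657483a1, 4), (0x64758390, 4), (0x21647385, 4)],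
    [(0x40738596a0, 5), (0x508397a2, 4), (0x648093a1, 4), (0x64758390, 4), (0x648093a1, 4), (0x21738590, 4), (0x647095a2, 4), (0x64758390, 4), (0x647095a2, 4), (0x307598a1, 4), (0x64758390, 4), (0x21738590, 4)]⟩

def c_2581 : frmChk tB tB F_2581 = true := by decide +kernel

def r_2581_0 : chkL rootF engF2 tB tB sB_316 sB_316 4 F_2581 [(511, 0, 0)]
    0x1 = true := by
  decide +kernel

theorem f_2581 (h : TabsF) : FrameF repsF 316 F_2581.f :=
  frame_of rfl c_2581 (runs_of engOK r_2581_0) (by decide +kernel) h.2 h.2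

def F_2582 : FrX :=
  ⟨0x1001040012008080000e00840800410008101000042010041020010004042102808000210201012040040084808000014040201008002840a00080200084,
    0xa3, 1, 0x103240508397a2, 7,
    [(0xa3, 1), (0x207584a6, 4), (0x10547693, 4), (0x647593a8, 4), (0x10547693, 4), (0x216485a7, 4), (0x208693a4, 4), (0x647593a8, 4), (0x208693a4, 4), (0x106574a8, 4), (0x647593a8, 4), (0x216485a7, 4)],
    [(0x103240508397a2, 7), (0x218694a5, 4), (0x41507396, 4), (0x61738294, 4), (0x41507396, 4), (0x426198a0, 4), (0x627381a5, 4), (0x61738294, 4), (0x627381a5, 4), (0x50648291, 4), (0x61738294, 4), (0x426198a0, 4)]⟩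

def c_2582 : frmChk tB tB F_2582 = true := by decide +kernel

def r_2582_0 : chkL rootF engF2 tB tB sB_316 sB_316 4 F_2582 [(511, 0, 0)]
    0x436 = true := by
  decide +kernel

theorem f_2582 (h : TabsF) : FrameF repsF 316 F_2582.f :=
  frame_of rfl c_2582 (runs_of engOK r_2582_0) (by decide +kernel) h.2 h.2

def F_2583 : FrX :=
  ⟨0x1c2102000004044000002041000101000082040888081000020000404000241010a02020000030020020208508004804281000340050001028200010001,
    0x0, 0, 0x10647583, 4,
    [(0x0, 0), (0x205386a9, 4), (0x105487a9, 4), (0x214376a9, 4), (0x205386a9, 4), (0x105487a9, 4)],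
    [(0x10647583, 4), (0x214387a9, 4), (0x105376a9, 4), (0x205486a9, 4), (0x214387a9, 4), (0x105376a9, 4)]⟩

def c_2583 : frmChk tA tA F_2583 = true := by decide +kernel

def r_2583_0 : chkL rootF engF2 tA tA sA_316 sA_316 4 F_2583 [(511, 0, 0)]
    0x417 = true := by
  decide +kernel

theorem f_2583 (h : TabsF) : FrameF repsF 316 F_2583.f :=
  frame_of rfl c_2583 (runs_of engOK r_2583_0) (by decide +kernel) h.1 h.1

def F_2584 : FrX :=
  ⟨0x80080a000804040e000021010020010000020408a00010020a2008100014001011000080400031020020000508000804204040340000901028140400001,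
    0xa6, 1, 0x405161768090a6, 7,
    [(0xa6, 1), (0x205396a8, 4), (0x10548796, 4), (0x214396a7, 4), (0x205396a8, 4), (0x10548796, 4)],
    [(0x405161768090a6, 7), (0x318792a4, 4), (0x10548796, 4), (0x306287a5, 4), (0x318792a4, 4), (0x10548796, 4)]⟩

def c_2584 : frmChk tA tA F_2584 = true := by decide +kernel

def r_2584_0 : chkL rootF engF2 tA tA sA_316 sA_316 4 F_2584 [(511, 0, 0)]
    0x105c1d0ac2b06c1b = true := by
  decide +kernel

theorem f_2584 (h : TabsF) : FrameF repsF 316 F_2584.f :=
  frame_of rfl c_2584 (runs_of engOK r_2584_0) (by decide +kernel) h.1 h.1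

def F_2585 : FrX :=
  ⟨0x2002000900044004000e0204100014100080004080040102400240020100820000420206000801002402020840000c80020100038084000002a210042000,
    0xa3, 1, 0x4360738396a1, 6,
    [(0xa3, 1), (0x208693a5, 4), (0x10548793, 4), (0x217693a4, 4), (0x208693a5, 4), (0x10548793, 4)],
    [(0x4360738396a1, 6), (0x54627398, 4), (0x105394a6, 4), (0x10548793, 4), (0x105394a6, 4), (0x758493a2, 4), (0x10628397, 4), (0x10548793, 4), (0x10628397, 4), (0x438795a6, 4), (0x10548793, 4), (0x758493a2, 4)]⟩

def c_2585 : frmChk tA tB F_2585 = true := by decide +kernel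

def r_2585_0 : chkL rootF engF2 tA tB sA_316 sB_316 4 F_2585 [(511, 0, 0)]
    0x1 = true := by
  decide +kernel

theorem f_2585 (h : TabsF) : FrameF repsF 316 F_2585.f :=
  frame_of rfl c_2585 (runs_of engOK r_2585_0) (by decide +kernel) h.1 h.2

def F_2586 : FrX :=
  ⟨0x2002000900044004000e0204100014100080004080100101200140010102010001810802000800401404011100000980000400044102020002c140011020,
    0xa3, 1, 0x1020748596a0, 6,
    [(0xa3, 1), (0x208693a5, 4), (0x10548793, 4), (0x217693a4, 4), (0x208693a5, 4), (0x10548793, 4)],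
    [(0x1020748596a0, 6), (0x758493a1, 4), (0x628794a0, 4), (0x53628497, 4), (0x628794a0, 4), (0x10438597, 4), (0x627395a1, 4), (0x53628497, 4), (0x627395a1, 4), (0x537498a0, 4), (0x53628497, 4), (0x10438597, 4)]⟩

def c_2586 : frmChk tA tB F_2586 = true := by decide +kernel

def r_2586_0 : chkL rootF engF2 tA tB sA_316 sB_316 4 F_2586 [(511, 0, 0)]
    0x40f = true := by
  decide +kernel

theorem f_2586 (h : TabsF) : FrameF repsF 316 F_2586.f :=
  frame_of rfl c_2586 (runs_of engOK r_2586_0) (by decide +kernel) h.1 h.2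

def F_2587 : FrX :=
  ⟨0x2002000900044004000e0204100014100080004080080104101020000820210100280022000800800c08040480000000a040208080601000600020300484,
    0xa3, 1, 0x20325064768497a0, 8,
    [(0xa3, 1), (0x208693a5, 4), (0x10548793, 4), (0x217693a4, 4), (0x208693a5, 4), (0x10548793, 4)],
    [(0x20325064768497a0, 8), (0x205476a3, 4), (0x548296a1, 4), (0x31548097, 4), (0x205476a3, 4), (0x548296a1, 4)]⟩

def c_2587 : frmChk tA tA F_2587 = true := by decide +kernel

def r_2587_0 : chkL rootF engF2 tA tA sA_316 sA_316 4 F_2587 [(511, 0, 0)]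
    0x11641d = true := by
  decide +kernel

theorem f_2587 (h : TabsF) : FrameF repsF 316 F_2587.f :=
  frame_of rfl c_2587 (runs_of engOK r_2587_0) (by decide +kernel) h.1 h.1

def F_2588 : FrX :=
  ⟨0x80080a000804040e00002101002001000002040881011001020010020042002008024040c0004102000000201110014000110200c001088006210802008,
    0xa6, 1, 0x103152618598a3, 7,
    [(0xa6, 1), (0x205396a8, 4), (0x10548796, 4), (0x214396a7, 4), (0x205396a8, 4), (0x10548796, 4)],
    [(0x103152618598a3, 7), (0x518794a3, 4), (0x20617384, 4), (0x204387a9, 4), (0x20617384, 4), (0x436598a7, 4), (0x205193a4, 4), (0x204387a9, 4), (0x205193a4, 4), (0x617483a9, 4), (0x204387a9, 4), (0x436598a7, 4)]⟩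

def c_2588 : frmChk tA tB F_2588 = true := by decide +kernel

def r_2588_0 : chkL rootF engF2 tA tB sA_316 sB_316 4 F_2588 [(511, 0, 0)]
    0x4710780f = true := by
  decide +kernel

theorem f_2588 (h : TabsF) : FrameF repsF 316 F_2588.f :=
  frame_of rfl c_2588 (runs_of engOK r_2588_0) (by decide +kernel) h.1 h.2

def F_2589 : FrX :=
  ⟨0x80080a000804040e000021010020010000020408a0001004040024800480202000081800400049008080000a020024080040080014004007004040c2400,
    0xa6, 1, 0x53648692a8, 5,
    [(0xa6, 1), (0x205396a8, 4), (0x10548796, 4), (0x214396a7, 4), (0x205396a8, 4), (0x10548796, 4)],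
    [(0x53648692a8, 5), (0x738590a6, 4), (0x10426387, 4), (0x427386a5, 4), (0x10426387, 4), (0x758691a3, 4), (0x426590a8, 4), (0x427386a5, 4), (0x426590a8, 4), (0x107683a5, 4), (0x427386a5, 4), (0x758691a3, 4)]⟩

def c_2589 : frmChk tA tB F_2589 = true := by decide +kernel

def r_2589_0 : chkL rootF engF2 tA tB sA_316 sB_316 4 F_2589 [(511, 0, 0)]
    0x10748e0ac27 = true := by
  decide +kernel

theorem f_2589 (h : TabsF) : FrameF repsF 316 F_2589.f :=
  frame_of rfl c_2589 (runs_of engOK r_2589_0) (by decide +kernel) h.1 h.2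

def F_2590 : FrX :=
  ⟨0x1c2102000004044000002041000101000082040888081000001020400400102002020620000030020020208508000408048008001a00800300810284004,
    0x0, 0, 0x215387, 3,
    [(0x0, 0), (0x205386a9, 4), (0x105487a9, 4), (0x214376a9, 4), (0x205386a9, 4), (0x105487a9, 4)],
    [(0x215387, 3), (0x105376a9, 4), (0x204387a9, 4), (0x215486a9, 4), (0x105376a9, 4), (0x204387a9, 4)]⟩

def c_2590 : frmChk tA tA F_2590 = true := by decide +kernel

def r_2590_0 : chkL rootF engF2 tA tA sA_316 sA_316 4 F_2590 [(511, 0, 0)]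
    0x1 = true := by
  decide +kernel

theorem f_2590 (h : TabsF) : FrameF repsF 316 F_2590.f :=
  frame_of rfl c_2590 (runs_of engOK r_2590_0) (by decide +kernel) h.1 h.1

def F_2591 : FrX :=
  ⟨0x80080a000804040e000021010020010000020408a0001002080024800480202000081400400031020020000508002408004008001800400300c040c4004,
    0xa6, 1, 0x21768792a4, 5,
    [(0xa6, 1), (0x205396a8, 4), (0x10548796, 4), (0x214396a7, 4), (0x205396a8, 4), (0x10548796, 4)],
    [(0x21768792a4, 5), (0x738590a6, 4), (0x204187a5, 4), (0x416385a7, 4), (0x204187a5, 4), (0x658392a7, 4), (0x417690a3, 4), (0x416385a7, 4), (0x417690a3, 4), (0x206375a8, 4), (0x416385a7, 4), (0x658392a7, 4)]⟩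

def c_2591 : frmChk tA tB F_2591 = true := by decide +kernel

def r_2591_0 : chkL rootF engF2 tA tB sA_316 sB_316 4 F_2591 [(511, 0, 0)]
    0x417074170741d = true := by
  decide +kernel

theorem f_2591 (h : TabsF) : FrameF repsF 316 F_2591.f :=
  frame_of rfl c_2591 (runs_of engOK r_2591_0) (by decide +kernel) h.1 h.2

def F_2592 : FrX :=
  ⟨0x2002000900044004000e0204100014100080004080800040182000020800c090021100004020011082020082820000108084022000880800002002089010,
    0xa3, 1, 0x40618598a0, 5,
    [(0xa3, 1), (0x208693a5, 4), (0x10548793, 4), (0x217693a4, 4), (0x208693a5, 4), (0x10548793, 4)],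
    [(0x40618598a0, 5), (0x318790a2, 4), (0x547180a6, 4), (0x10548793, 4), (0x547180a6, 4), (0x10627398, 4), (0x305491a2, 4), (0x10548793, 4), (0x305491a2, 4), (0x708193a6, 4), (0x10548793, 4), (0x10627398, 4)]⟩

def c_2592 : frmChk tA tB F_2592 = true := by decide +kernel

def r_2592_0 : chkL rootF engF2 tA tB sA_316 sB_316 4 F_2592 [(511, 0, 0)]
    0x1 = true := by
  decide +kernel

theorem f_2592 (h : TabsF) : FrameF repsF 316 F_2592.f :=
  frame_of rfl c_2592 (runs_of engOK r_2592_0) (by decide +kernel) h.1 h.2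

def F_2593 : FrX :=
  ⟨0x80080a000804040e00002101002001000002040882200008310080100002208004820001024000080041800108410001020020012412204200200821000,
    0xa6, 1, 0x324162748296a6, 7,
    [(0xa6, 1), (0x205396a8, 4), (0x10548796, 4), (0x214396a7, 4), (0x205396a8, 4), (0x10548796, 4)],
    [(0x324162748296a6, 7), (0x517680a2, 4), (0x407593a1, 4), (0x516293a7, 4), (0x407593a1, 4), (0x216584a7, 4), (0x728093a6, 4), (0x516293a7, 4), (0x728093a6, 4), (0x406271a5, 4), (0x516293a7, 4), (0x216584a7, 4)]⟩

def c_2593 : frmChk tA tB F_2593 = true := by decide +kernel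

def r_2593_0 : chkL rootF engF2 tA tB sA_316 sB_316 4 F_2593 [(511, 0, 0)]
    0x10740f06c1b06c1b06c7806c2d = true := by
  decide +kernel

theorem f_2593 (h : TabsF) : FrameF repsF 316 F_2593.f :=
  frame_of rfl c_2593 (runs_of engOK r_2593_0) (by decide +kernel) h.1 h.2

def F_2594 : FrX :=
  ⟨0x1001040012008080000e0084080041000810100006000002d000208004180084040000100100208820021812000020022000a04400004004440100180050,
    0xa3, 1, 0x1021307683a4, 6,
    [(0xa3, 1), (0x207584a6, 4), (0x10547693, 4), (0x647593a8, 4), (0x10547693, 4), (0x216485a7, 4), (0x208693a4, 4), (0x647593a8, 4), (0x208693a4, 4), (0x106574a8, 4), (0x647593a8, 4), (0x216485a7, 4)],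
    [(0x1021307683a4, 6), (0x306587a1, 4), (0x327694a5, 4), (0x658194a7, 4), (0x327694a5, 4), (0x205186a7, 4), (0x307194a8, 4), (0x658194a7, 4), (0x307194a8, 4), (0x327581a6, 4), (0x658194a7, 4), (0x205186a7, 4)]⟩

def c_2594 : frmChk tB tB F_2594 = true := by decide +kernel

def r_2594_0 : chkL rootF engF2 tB tB sB_316 sB_316 4 F_2594 [(511, 0, 0)]
    0x43309c3309c5605c17 = true := by
  decide +kernel

theorem f_2594 (h : TabsF) : FrameF repsF 316 F_2594.f :=
  frame_of rfl c_2594 (runs_of engOK r_2594_0) (by decide +kernel) h.2 h.2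

def F_2595 : FrX :=
  ⟨0x1001040012008080000e00840800410008101000042008024001400101020000056000120280004040084048404000804000201210020800058101000140,
    0xa3, 1, 0x317496a3, 4,
    [(0xa3, 1), (0x207584a6, 4), (0x10547693, 4), (0x647593a8, 4), (0x10547693, 4), (0x216485a7, 4), (0x208693a4, 4), (0x647593a8, 4), (0x208693a4, 4), (0x106574a8, 4), (0x647593a8, 4), (0x216485a7, 4)],
    [(0x317496a3, 4), (0x205487a9, 4), (0x30617594, 4), (0x546197a8, 4), (0x30617594, 4), (0x328597a4, 4), (0x206198a7, 4), (0x546197a8, 4), (0x206198a7, 4), (0x307495a8, 4), (0x546197a8, 4), (0x328597a4, 4)]⟩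

def c_2595 : frmChk tB tB F_2595 = true := by decide +kernel

def r_2595_0 : chkL rootF engF2 tB tB sB_316 sB_316 4 F_2595 [(511, 0, 0)]
    0x103c0f03c1e078591646a5280f03c1b06c0f42f0a2381d1340f0744e21d83 = true := by
  decide +kernel

theorem f_2595 (h : TabsF) : FrameF repsF 316 F_2595.f :=
  frame_of rfl c_2595 (runs_of engOK r_2595_0) (by decide +kernel) h.2 h.2

theorem cl_316 (h : TabsF) : ∀ f ∈ fr_316, FrameF repsF 316 f :=
  List.forall_mem_cons.2 ⟨f_2578 h, List.forall_mem_cons.2 ⟨f_2579 h, List.forall_mem_cons.2 ⟨f_2580 h, List.forall_mem_cons.2 ⟨f_2581 h, List.forall_mem_cons.2 ⟨f_2582 h, List.forall_mem_cons.2 ⟨f_2583 h, List.forall_mem_cons.2 ⟨f_2584 h, List.forall_mem_cons.2 ⟨f_2585 h, List.forall_mem_cons.2 ⟨f_2586 h, List.forall_mem_cons.2 ⟨f_2587 h, List.forall_mem_cons.2 ⟨f_2588 h, List.forall_mem_cons.2 ⟨f_2589 h, List.forall_mem_cons.2 ⟨f_2590 h, List.forall_mem_cons.2 ⟨f_2591 h, List.forall_mem_cons.2 ⟨f_2592 h, List.forall_mem_cons.2 ⟨f_2593 h, List.forall_mem_cons.2 ⟨f_2594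 h, List.forall_mem_cons.2 ⟨f_2595 h,
    fun _ h0 => absurd h0 List.not_mem_nil⟩⟩⟩⟩⟩⟩⟩⟩⟩⟩⟩⟩⟩⟩⟩⟩⟩⟩

def F_2596 : FrX :=
  ⟨0x2002000900044004000e02041000141000800040808000401820000208080181801100004026001010040082011000800284000022080808100100408084,
    0xa3, 1, 0x314351657093a1, 7,
    [(0xa3, 1), (0x208693a5, 4), (0x10548793, 4), (0x217693a4, 4), (0x208693a5, 4), (0x10548793, 4)],
    [(0x314351657093a1, 7), (0x54728396, 4), (0x546180a7, 4), (0x305491a2, 4), (0x54728396, 4), (0x546180a7, 4)]⟩

def c_2596 : frmChk tA tA F_2596 = true := by decide +kernel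

def r_2596_0 : chkL rootF engF2 tA tA sA_317 sA_317 4 F_2596 [(511, 0, 0)]
    0x144c331a81e = true := by
  decide +kernel

theorem f_2596 (h : TabsF) : FrameF repsF 317 F_2596.f :=
  frame_of rfl c_2596 (runs_of engOK r_2596_0) (by decide +kernel) h.1 h.1

def F_2597 : FrX :=
  ⟨0x80080a000804040e0000210100200100000204088048080040440040022000090088006000e000010050080013000800201100041008448004024084000,
    0xa6, 1, 0x10213160748798a0, 8,
    [(0xa6, 1), (0x205396a8, 4), (0x10548796, 4), (0x214396a7, 4), (0x205396a8, 4), (0x10548796, 4)],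
    [(0x10213160748798a0, 8), (0x526491a0, 4), (0x647598a3, 4), (0x30647281, 4), (0x526491a0, 4), (0x647598a3, 4)]⟩

def c_2597 : frmChk tA tA F_2597 = true := by decide +kernel

def r_2597_0 : chkL rootF engF2 tA tA sA_317 sA_317 4 F_2597 [(511, 0, 0)]
    0x4d27410b05c1d1700f81c4d11c8713887134b2 = true := by
  decide +kernel

theorem f_2597 (h : TabsF) : FrameF repsF 317 F_2597.f :=
  frame_of rfl c_2597 (runs_of engOK r_2597_0) (by decide +kernel) h.1 h.1

def F_2598 : FrX :=
  ⟨0x482000044040440000c204002000900018204001002002800100018008010811002040080e0010100000484011088000140000404800c0014100404040,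
    0xa0, 1, 0x20305362738094a6, 8,
    [(0xa0, 1), (0x538690a2, 4), (0x548790a1, 4), (0x21437690, 4), (0x538690a2, 4), (0x548790a1, 4)],
    [(0x20305362738094a6, 8), (0x407286a3, 4), (0x40538192, 4), (0x406197a5, 4), (0x407286a3, 4), (0x40538192, 4)]⟩

def c_2598 : frmChk tA tA F_2598 = true := by decide +kernel

def r_2598_0 : chkL rootF engF2 tA tA sA_317 sA_317 4 F_2598 [(511, 0, 0)]
    0x4171549a54558c840f03ea103c0f = true := by
  decide +kernel

theorem f_2598 (h : TabsF) : FrameF repsF 317 F_2598.f :=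
  frame_of rfl c_2598 (runs_of engOK r_2598_0) (by decide +kernel) h.1 h.1

def F_2599 : FrX :=
  ⟨0x80080a000804040e00002101002001000002040890020008608008008810004004401010000030200808201010101002024022004280001100804442000,
    0xa6, 1, 0x42546396a6, 5,
    [(0xa6, 1), (0x205396a8, 4), (0x10548796, 4), (0x214396a7, 4), (0x205396a8, 4), (0x10548796, 4)],
    [(0x42546396a6, 5), (0x406293a8, 4), (0x10528793, 4), (0x416593a7, 4), (0x406293a8, 4), (0x10528793, 4)]⟩

def c_2599 : frmChk tA tA F_2599 = true := by decide +kernel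

def r_2599_0 : chkL rootF engF2 tA tA sA_317 sA_317 4 F_2599 [(511, 0, 0)]
    0x42e12c1d2641e0784b0b81b11c5a344ca3604d12c0f = true := by
  decide +kernel

theorem f_2599 (h : TabsF) : FrameF repsF 317 F_2599.f :=
  frame_of rfl c_2599 (runs_of engOK r_2599_0) (by decide +kernel) h.1 h.1

def F_2600 : FrX :=
  ⟨0x80080a000804040e0000210100200100000204089002000140800800881000400608101000003020410820101010100216000008400800c000804442000,
    0xa6, 1, 0x214152758293a8, 7,
    [(0xa6, 1), (0x205396a8, 4), (0x10548796, 4), (0x214396a7, 4), (0x205396a8, 4), (0x10548796, 4)],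
    [(0x214152758293a8, 7), (0x538097a6, 4), (0x405372a1, 4), (0x53618492, 4), (0x538097a6, 4), (0x405372a1, 4)]⟩

def c_2600 : frmChk tA tA F_2600 = true := by decide +kernel

def r_2600_0 : chkL rootF engF2 tA tA sA_317 sA_317 4 F_2600 [(511, 0, 0)]
    0x150d8918c6314e2c2a58949589685612345a0b42e0b81b = true := by
  decide +kernel

theorem f_2600 (h : TabsF) : FrameF repsF 317 F_2600.f :=
  frame_of rfl c_2600 (runs_of engOK r_2600_0) (by decide +kernel) h.1 h.1

def F_2601 : FrX :=
  ⟨0x482000044040440000c204002000900018204001002002800100018004081003002040080404101000a008401108800014028000480080054000804040,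
    0xa0, 1, 0x708297a4, 4,
    [(0xa0, 1), (0x538690a2, 4), (0x548790a1, 4), (0x21437690, 4), (0x538690a2, 4), (0x548790a1, 4)],
    [(0x708297a4, 4), (0x638795a2, 4), (0x407196a5, 4), (0x324095a6, 4), (0x407196a5, 4), (0x528193a6, 4), (0x406287a3, 4), (0x324095a6, 4), (0x406287a3, 4), (0x326571a9, 4), (0x324095a6, 4), (0x528193a6, 4)]⟩

def c_2601 : frmChk tA tB F_2601 = true := by decide +kernel

def r_2601_0 : chkL rootF engF2 tA tB sA_317 sB_317 4 F_2601 [(511, 0, 0)]
    0x43a0e8170b856a0e2a4d1625c05605c0f = true := by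
  decide +kernel

theorem f_2601 (h : TabsF) : FrameF repsF 317 F_2601.f :=
  frame_of rfl c_2601 (runs_of engOK r_2601_0) (by decide +kernel) h.1 h.2

def F_2602 : FrX :=
  ⟨0x482000044040440000c2040020009000182040000480410804200010010044022000401104000182000400103020008000088880810204001402800401,
    0xa0, 1, 0x31517482a0, 5,
    [(0xa0, 1), (0x538690a2, 4), (0x548790a1, 4), (0x21437690, 4), (0x538690a2, 4), (0x548790a1, 4)],
    [(0x31517482a0, 5), (0x436172a8, 4), (0x647390a5, 4), (0x21437690, 4), (0x647390a5, 4), (0x32417685, 4), (0x627190a8, 4), (0x21437690, 4), (0x627190a8, 4), (0x216374a5, 4), (0x21437690, 4), (0x32417685, 4)]⟩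

def c_2602 : frmChk tA tB F_2602 = true := by decide +kernel

def r_2602_0 : chkL rootF engF2 tA tB sA_317 sB_317 4 F_2602 [(511, 0, 0)]
    0x61505c170e83a = true := by
  decide +kernel

theorem f_2602 (h : TabsF) : FrameF repsF 317 F_2602.f :=
  frame_of rfl c_2602 (runs_of engOK r_2602_0) (by decide +kernel) h.1 h.2

def F_2603 : FrX :=
  ⟨0x2002000900044004000e0204100014100080004082000848400020200882100100000223000008400408018082000000a04022001004800800a40080c040,
    0xa3, 1, 0x103242507280a2, 7,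
    [(0xa3, 1), (0x208693a5, 4), (0x10548793, 4), (0x217693a4, 4), (0x208693a5, 4), (0x10548793, 4)],
    [(0x103242507280a2, 7), (0x216597a8, 4), (0x31548097, 4), (0x326497a0, 4), (0x216597a8, 4), (0x31548097, 4)]⟩

def c_2603 : frmChk tA tA F_2603 = true := by decide +kernel

def r_2603_0 : chkL rootF engF2 tA tA sA_317 sA_317 4 F_2603 [(511, 0, 0)]
    0x42703c9926459074990e8a309c4b3298c22e893298c03c1b0cc3603c560b42705e89e201715645984a3a278805ea115513561b022dd0519920e91a09c172d033 = true := by
  decide +kernel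

theorem f_2603 (h : TabsF) : FrameF repsF 317 F_2603.f :=
  frame_of rfl c_2603 (runs_of engOK r_2603_0) (by decide +kernel) h.1 h.1

def F_2604 : FrX :=
  ⟨0x80080a000804040e000021010020010000020408a6000400080024000480208000013000400404220800800880210101000106240120000100a200a0000,
    0xa6, 1, 0x30417286a6, 5,
    [(0xa6, 1), (0x205396a8, 4), (0x10548796, 4), (0x214396a7, 4), (0x205396a8, 4), (0x10548796, 4)],
    [(0x30417286a6, 5), (0x507398a6, 4), (0x43516298, 4), (0x107498a2, 4), (0x507398a6, 4), (0x43516298, 4)]⟩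

def c_2604 : frmChk tA tA F_2604 = true := by decide +kernel

def r_2604_0 : chkL rootF engF2 tA tA sA_317 sA_317 4 F_2604 [(511, 0, 0)]
    0x130c0f4389530cd1078270b83303c5c15a702962a = true := by
  decide +kernel

theorem f_2604 (h : TabsF) : FrameF repsF 317 F_2604.f :=
  frame_of rfl c_2604 (runs_of engOK r_2604_0) (by decide +kernel) h.1 h.1

def F_2605 : FrX :=
  ⟨0x482000044040440000c2040020009000182040000408882008100010010410004022020004043000082020408000400214008021000920040040840042,
    0xa0, 1, 0x1020637082a1, 6,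
    [(0xa0, 1), (0x538690a2, 4), (0x548790a1, 4), (0x21437690, 4), (0x538690a2, 4), (0x548790a1, 4)],
    [(0x1020637082a1, 6), (0x31658790, 4), (0x215490a7, 4), (0x326490a8, 4), (0x31658790, 4), (0x215490a7, 4)]⟩

def c_2605 : frmChk tA tA F_2605 = true := by decide +kernel

def r_2605_0 : chkL rootF engF2 tA tA sA_317 sA_317 4 F_2605 [(511, 0, 0)]
    0x103c270f00f03c0f82c0f0d85c = true := by
  decide +kernel

theorem f_2605 (h : TabsF) : FrameF repsF 317 F_2605.f :=
  frame_of rfl c_2605 (runs_of engOK r_2605_0) (by decide +kernel) h.1 h.1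

def F_2606 : FrX :=
  ⟨0x2002000900044004000e02041000141000800040810000018100804200242008100100120208404020a00048800000140040204202201001000802204004,
    0xa3, 1, 0x42627093a5, 5,
    [(0xa3, 1), (0x208693a5, 4), (0x10548793, 4), (0x217693a4, 4), (0x208693a5, 4), (0x10548793, 4)],
    [(0x42627093a5, 5), (0x768294a0, 4), (0x405371a2, 4), (0x425398a0, 4), (0x405371a2, 4), (0x426190a8, 4), (0x53768492, 4), (0x425398a0, 4), (0x53768492, 4), (0x207198a4, 4), (0x425398a0, 4), (0x426190a8, 4)]⟩

def c_2606 : frmChk tA tB F_2606 = true := by decide +kernel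

def r_2606_0 : chkL rootF engF2 tA tB sA_317 sB_317 4 F_2606 [(511, 0, 0)]
    0x41711ec4b10b205c4b0ac170d92903c17 = true := by
  decide +kernel

theorem f_2606 (h : TabsF) : FrameF repsF 317 F_2606.f :=
  frame_of rfl c_2606 (runs_of engOK r_2606_0) (by decide +kernel) h.1 h.2

def F_2607 : FrX :=
  ⟨0x482000044040440000c204002000900018204002000400280020a008024020030400000101010280050009102001109040008080908000004002800082,
    0xa0, 1, 0x3052768393a2, 6,
    [(0xa0, 1), (0x538690a2, 4), (0x548790a1, 4), (0x21437690, 4), (0x538690a2, 4), (0x548790a1, 4)],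
    [(0x3052768393a2, 6), (0x406297a3, 4), (0x31427685, 4), (0x62748590, 4), (0x31427685, 4), (0x207496a1, 4), (0x708594a3, 4), (0x62748590, 4), (0x708594a3, 4), (0x31647290, 4), (0x62748590, 4), (0x207496a1, 4)]⟩

def c_2607 : frmChk tA tB F_2607 = true := by decide +kernel

def r_2607_0 : chkL rootF engF2 tA tB sA_317 sB_317 4 F_2607 [(511, 0, 0)]
    0x64a0b8360b836134c9325c83843c09c4d5243a0cc3a1581e = true := by
  decide +kernel

theorem f_2607 (h : TabsF) : FrameF repsF 317 F_2607.f :=
  frame_of rfl c_2607 (runs_of engOK r_2607_0) (by decide +kernel) h.1 h.2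

def F_2608 : FrX :=
  ⟨0x2002000900044004000e02041000141000800040810000018110000208202108100300000808505020200048800020140140200002001008000802204084,
    0xa3, 1, 0x21607495a3, 5,
    [(0xa3, 1), (0x208693a5, 4), (0x10548793, 4), (0x217693a4, 4), (0x208693a5, 4), (0x10548793, 4)],
    [(0x21607495a3, 5), (0x536180a9, 4), (0x53628497, 4), (0x214053a7, 4), (0x536180a9, 4), (0x53628497, 4)]⟩

def c_2608 : frmChk tA tA F_2608 = true := by decide +kernel

def r_2608_0 : chkL rootF engF2 tA tA sA_317 sA_317 4 F_2608 [(511, 0, 0)]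
    0x436 = true := by
  decide +kernel

theorem f_2608 (h : TabsF) : FrameF repsF 317 F_2608.f :=
  frame_of rfl c_2608 (runs_of engOK r_2608_0) (by decide +kernel) h.1 h.1

def F_2609 : FrX :=
  ⟨0x80080a000804040e00002101002001000002040882010801010034000802002000084040c000104800008019101105000006800840000804440c0200000,
    0xa6, 1, 0x10304153708693a6, 8,
    [(0xa6, 1), (0x205396a8, 4), (0x10548796, 4), (0x214396a7, 4), (0x205396a8, 4), (0x10548796, 4)],
    [(0x10304153708693a6, 8), (0x316072a9, 4), (0x107485a3, 4), (0x318596a0, 4), (0x107485a3, 4), (0x426193a0, 4), (0x728590a6, 4), (0x318596a0, 4), (0x728590a6, 4), (0x307496a1, 4), (0x318596a0, 4), (0x426193a0, 4)]⟩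

def c_2609 : frmChk tA tB F_2609 = true := by decide +kernel

def r_2609_0 : chkL rootF engF2 tA tB sA_317 sB_317 4 F_2609 [(511, 0, 0)]
    0x10d8a629b821d066 = true := by
  decide +kernel

theorem f_2609 (h : TabsF) : FrameF repsF 317 F_2609.f :=
  frame_of rfl c_2609 (runs_of engOK r_2609_0) (by decide +kernel) h.1 h.2

def F_2610 : FrX :=
  ⟨0x2002000900044004000e02041000141000800040810000028090000460800881200200000808010280400181810020140140200005008000401020009010,
    0xa3, 1, 0x63768297a2, 5,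
    [(0xa3, 1), (0x208693a5, 4), (0x10548793, 4), (0x217693a4, 4), (0x208693a5, 4), (0x10548793, 4)],
    [(0x63768297a2, 5), (0x427695a0, 4), (0x10548397, 4), (0x62748395, 4), (0x10548397, 4), (0x527496a1, 4), (0x647283a0, 4), (0x62748395, 4), (0x647283a0, 4), (0x10627594, 4), (0x62748395, 4), (0x527496a1, 4)]⟩

def c_2610 : frmChk tA tB F_2610 = true := by decide +kernel

def r_2610_0 : chkL rootF engF2 tA tB sA_317 sB_317 4 F_2610 [(511, 0, 0)]
    0x10ac2b0ac36 = true := by
  decide +kernel

theorem f_2610 (h : TabsF) : FrameF repsF 317 F_2610.f :=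
  frame_of rfl c_2610 (runs_of engOK r_2610_0) (by decide +kernel) h.1 h.2

def F_2611 : FrX :=
  ⟨0x1001040012008080000e00840800410008101000044080100490100004100082400202002020040240804800011008010100800c082000005010800e2000,
    0xa3, 1, 0x43527180a3, 5,
    [(0xa3, 1), (0x207584a6, 4), (0x10547693, 4), (0x647593a8, 4), (0x10547693, 4), (0x216485a7, 4), (0x208693a4, 4), (0x647593a8, 4), (0x208693a4, 4), (0x106574a8, 4), (0x647593a8, 4), (0x216485a7, 4)],
    [(0x43527180a3, 5), (0x213085a6, 4), (0x32618794, 4), (0x216394a0, 4), (0x32618794, 4), (0x206375a1, 4), (0x608594a3, 4), (0x216394a0, 4), (0x608594a3, 4), (0x316287a0, 4), (0x216394a0, 4), (0x206375a1, 4)]⟩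

def c_2611 : frmChk tB tB F_2611 = true := by decide +kernel

def r_2611_0 : chkL rootF engF2 tB tB sB_317 sB_317 4 F_2611 [(255, 0, 0), (256, 0, 17)]
    0x105c1d = true := by
  decide +kernel

def r_2611_1 : chkL rootF engF2 tB tB sB_317 sB_317 4 F_2611 [(256, 17, 0)]
    0x10b41e = true := by
  decide +kernel

theorem f_2611 (h : TabsF) : FrameF repsF 317 F_2611.f :=
  frame_of rfl c_2611 ((runs_of engOK r_2611_0).append (runs_of engOK r_2611_1)) (by decide +kernel) h.2 h.2

theorem cl_317 (h : TabsF) : ∀ f ∈ fr_317, FrameF repsF 317 f :=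
  List.forall_mem_cons.2 ⟨f_2596 h, List.forall_mem_cons.2 ⟨f_2597 h, List.forall_mem_cons.2 ⟨f_2598 h, List.forall_mem_cons.2 ⟨f_2599 h, List.forall_mem_cons.2 ⟨f_2600 h, List.forall_mem_cons.2 ⟨f_2601 h, List.forall_mem_cons.2 ⟨f_2602 h, List.forall_mem_cons.2 ⟨f_2603 h, List.forall_mem_cons.2 ⟨f_2604 h, List.forall_mem_cons.2 ⟨f_2605 h, List.forall_mem_cons.2 ⟨f_2606 h, List.forall_mem_cons.2 ⟨f_2607 h, List.forall_mem_cons.2 ⟨f_2608 h, List.forall_mem_cons.2 ⟨f_2609 h, List.forall_mem_cons.2 ⟨f_2610 h, List.forall_mem_cons.2 ⟨f_2611 h,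
    fun _ h0 => absurd h0 List.not_mem_nil⟩⟩⟩⟩⟩⟩⟩⟩⟩⟩⟩⟩⟩⟩⟩⟩

def F_2612 : FrX :=
  ⟨0x2002000900044004000e0204100014100080004080800040182000020800c090021100004026001010040082011000800284000022080800140180008084,
    0xa3, 1, 0x40618598a0, 5,
    [(0xa3, 1), (0x208693a5, 4), (0x10548793, 4), (0x217693a4, 4), (0x208693a5, 4), (0x10548793, 4)],
    [(0x40618598a0, 5), (0x318790a2, 4), (0x547180a6, 4), (0x10548793, 4), (0x547180a6, 4), (0x10627398, 4), (0x305491a2, 4), (0x10548793, 4), (0x305491a2, 4), (0x708193a6, 4), (0x10548793, 4), (0x10627398, 4)]⟩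

def c_2612 : frmChk tA tB F_2612 = true := by decide +kernel

def r_2612_0 : chkL rootF engF2 tA tB sA_318 sB_318 4 F_2612 [(511, 0, 0)]
    0x1 = true := by
  decide +kernel

theorem f_2612 (h : TabsF) : FrameF repsF 318 F_2612.f :=
  frame_of rfl c_2612 (runs_of engOK r_2612_0) (by decide +kernel) h.1 h.2

def F_2613 : FrX :=
  ⟨0x80080a000804040e00002101002001000002040880480800404400400220000022c0006000e00001005008001300080020110004101a001004024084000,
    0xa6, 1, 0x326495a6, 4,
    [(0xa6, 1), (0x205396a8, 4), (0x10548796, 4), (0x214396a7, 4), (0x205396a8, 4), (0x10548796, 4)],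
    [(0x326495a6, 4), (0x305492a8, 4), (0x10548796, 4), (0x315462a7, 4), (0x305492a8, 4), (0x10548796, 4)]⟩

def c_2613 : frmChk tA tA F_2613 = true := by decide +kernel

def r_2613_0 : chkL rootF engF2 tA tA sA_318 sA_318 4 F_2613 [(511, 0, 0)]
    0x1 = true := by
  decide +kernel

theorem f_2613 (h : TabsF) : FrameF repsF 318 F_2613.f :=
  frame_of rfl c_2613 (runs_of engOK r_2613_0) (by decide +kernel) h.1 h.1

def F_2614 : FrX :=
  ⟨0x482000044040440000c204002000900018204001002002800100018004081003002040080e001010000048401108800014000040480080054500004040,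
    0xa0, 1, 0x708297a4, 4,
    [(0xa0, 1), (0x538690a2, 4), (0x548790a1, 4), (0x21437690, 4), (0x538690a2, 4), (0x548790a1, 4)],
    [(0x708297a4, 4), (0x638795a2, 4), (0x407196a5, 4), (0x324095a6, 4), (0x407196a5, 4), (0x528193a6, 4), (0x406287a3, 4), (0x324095a6, 4), (0x406287a3, 4), (0x326571a9, 4), (0x324095a6, 4), (0x528193a6, 4)]⟩

def c_2614 : frmChk tA tB F_2614 = true := by decide +kernel

def r_2614_0 : chkL rootF engF2 tA tB sA_318 sB_318 4 F_2614 [(511, 0, 0)]
    0x103e293443a05c3605c171590b8a62905e0705c0f03c0f = true := by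
  decide +kernel

theorem f_2614 (h : TabsF) : FrameF repsF 318 F_2614.f :=
  frame_of rfl c_2614 (runs_of engOK r_2614_0) (by decide +kernel) h.1 h.2

def F_2615 : FrX :=
  ⟨0x80080a000804040e00002101002001000002040890020008608008008810004004401010000030200808201010101002160000084008045000804442000,
    0xa6, 1, 0x42546396a6, 5,
    [(0xa6, 1), (0x205396a8, 4), (0x10548796, 4), (0x214396a7, 4), (0x205396a8, 4), (0x10548796, 4)],
    [(0x42546396a6, 5), (0x406293a8, 4), (0x10528793, 4), (0x416593a7, 4), (0x406293a8, 4), (0x10528793, 4)]⟩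

def c_2615 : frmChk tA tA F_2615 = true := by decide +kernel

def r_2615_0 : chkL rootF engF2 tA tA sA_318 sA_318 4 F_2615 [(511, 0, 0)]
    0x41d2641b11c0f = true := by
  decide +kernel

theorem f_2615 (h : TabsF) : FrameF repsF 318 F_2615.f :=
  frame_of rfl c_2615 (runs_of engOK r_2615_0) (by decide +kernel) h.1 h.1

def F_2616 : FrX :=
  ⟨0x482000044040440000c20400200090001820400004804108042000100100440220004011040001820004001030200080000a01c0010204001110010401,
    0xa0, 1, 0x31517482a0, 5,
    [(0xa0, 1), (0x538690a2, 4), (0x548790a1, 4), (0x21437690, 4), (0x538690a2, 4), (0x548790a1, 4)],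
    [(0x31517482a0, 5), (0x436172a8, 4), (0x647390a5, 4), (0x21437690, 4), (0x647390a5, 4), (0x32417685, 4), (0x627190a8, 4), (0x21437690, 4), (0x627190a8, 4), (0x216374a5, 4), (0x21437690, 4), (0x32417685, 4)]⟩

def c_2616 : frmChk tA tB F_2616 = true := by decide +kernel

def r_2616_0 : chkL rootF engF2 tA tB sA_318 sB_318 4 F_2616 [(511, 0, 0)]
    0x106c1b05ce2 = true := by
  decide +kernel

theorem f_2616 (h : TabsF) : FrameF repsF 318 F_2616.f :=
  frame_of rfl c_2616 (runs_of engOK r_2616_0) (by decide +kernel) h.1 h.2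

def F_2617 : FrX :=
  ⟨0x1001040012008080000e0084080041000810100006000002420020800422080800a000228000030041044804400000202010808008200400b00020200084,
    0xa3, 1, 0x42608195a3, 5,
    [(0xa3, 1), (0x207584a6, 4), (0x10547693, 4), (0x647593a8, 4), (0x10547693, 4), (0x216485a7, 4), (0x208693a4, 4), (0x647593a8, 4), (0x208693a4, 4), (0x106574a8, 4), (0x647593a8, 4), (0x216485a7, 4)],
    [(0x42608195a3, 5), (0x216497a0, 4), (0x53708692, 4), (0x205397a1, 4), (0x53708692, 4), (0x208491a7, 4), (0x105364a2, 4), (0x205397a1, 4), (0x105364a2, 4), (0x728690a1, 4), (0x205397a1, 4), (0x208491a7, 4)]⟩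

def c_2617 : frmChk tB tB F_2617 = true := by decide +kernel

def r_2617_0 : chkL rootF engF2 tB tB sB_318 sB_318 4 F_2617 [(255, 0, 0), (256, 0, 14)]
    0x417 = true := by
  decide +kernel

def r_2617_1 : chkL rootF engF2 tB tB sB_318 sB_318 4 F_2617 [(256, 14, 0)]
    0x4710e817 = true := by
  decide +kernel

theorem f_2617 (h : TabsF) : FrameF repsF 318 F_2617.f :=
  frame_of rfl c_2617 ((runs_of engOK r_2617_0).append (runs_of engOK r_2617_1)) (by decide +kernel) h.2 h.2

def F_2618 : FrX :=
  ⟨0x600020801080810000c0040180410101001004001011100000400140124000600010120000222800040110128000420208084400004008004140011002,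
    0xa0, 1, 0x214096a0, 4,
    [(0xa0, 1), (0x637584a2, 4), (0x547690a1, 4), (0x64758390, 4), (0x547690a1, 4), (0x21647385, 4), (0x438690a2, 4), (0x64758390, 4), (0x438690a2, 4), (0x657483a1, 4), (0x64758390, 4), (0x21647385, 4)],
    [(0x214096a0, 4), (0x758093a1, 4), (0x506497a2, 4), (0x64758390, 4), (0x506497a2, 4), (0x21738590, 4), (0x306498a1, 4), (0x64758390, 4), (0x306498a1, 4), (0x708395a2, 4), (0x64758390, 4), (0x21738590, 4)]⟩

def c_2618 : frmChk tB tB F_2618 = true := by decide +kernel

def r_2618_0 : chkL rootF engF2 tB tB sB_318 sB_318 4 F_2618 [(511, 0, 0)]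
    0x12aa926442de40ac11c2b0ac631a447315c4711c10f2310f238 = true := by
  decide +kernel

theorem f_2618 (h : TabsF) : FrameF repsF 318 F_2618.f :=
  frame_of rfl c_2618 (runs_of engOK r_2618_0) (by decide +kernel) h.2 h.2

theorem cl_318 (h : TabsF) : ∀ f ∈ fr_318, FrameF repsF 318 f :=
  List.forall_mem_cons.2 ⟨f_2612 h, List.forall_mem_cons.2 ⟨f_2613 h, List.forall_mem_cons.2 ⟨f_2614 h, List.forall_mem_cons.2 ⟨f_2615 h, List.forall_mem_cons.2 ⟨f_2616 h, List.forall_mem_cons.2 ⟨f_2617 h, List.forall_mem_cons.2 ⟨f_2618 h,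
    fun _ h0 => absurd h0 List.not_mem_nil⟩⟩⟩⟩⟩⟩⟩

/-- the classes finished in this module -/
theorem all_L19 (h : TabsF) : ∀ p ∈ ([(307, fr_307), (308, fr_308), (309, fr_309), (310, fr_310), (311, fr_311), (312, fr_312), (313, fr_313), (314, fr_314), (315, fr_315), (316, fr_316), (317, fr_317), (318, fr_318)] : List (ℕ × List ℕ)),
    ∀ f ∈ p.2, FrameF repsF p.1 f :=
  List.forall_mem_cons.2 ⟨cl_307 h, List.forall_mem_cons.2 ⟨cl_308 h, List.forall_mem_cons.2 ⟨cl_309 h, List.forall_mem_cons.2 ⟨cl_310 h, List.forall_mem_cons.2 ⟨cl_311 h, List.forall_mem_cons.2 ⟨cl_312 h, List.forall_mem_cons.2 ⟨cl_313 h, List.forall_mem_cons.2 ⟨cl_314 h, List.forall_mem_cons.2 ⟨cl_315 h, List.forall_mem_cons.2 ⟨cl_316 h, List.forall_mem_cons.2 ⟨cl_317 h, List.forall_mem_cons.2 ⟨cl_318 h, fun _ h0 => absurd h0 List.not_mem_nil⟩⟩⟩⟩⟩⟩⟩⟩⟩⟩⟩⟩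

end Pool.Agent.Gen.TY.F
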