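import Pool.Agent.Helper20.TY.EngF
import Pool.Agent.Helper20.TY.TabG
import Pool.Agent.Gen.TY.FS.SufA
import Pool.Agent.Gen.TY.FS.SufB
import Pool.Agent.Gen.TY.FR.Dat

/-!
MP_8ee768_co, project TH-Y', stage F: frames.
-/

set_option autoImplicit false

namespace Pool.Agent.Gen.TY.F

open Pool.Agent.Helper79.CV
open Pool.Agent.Helper20.TY
open Pool.Agent.Helper20.TY.EngF
open Pool.Agent.Gen.TY.FS
open Pool.Agent.Gen.TY.FR

def F_2619 : FrX :=
  ⟨0x2002000900044004000e02041000141000800040810000042890000110202101800100000802080812000112010010002080090024080008100901010090,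
    0xa3, 1, 0x324351637487a8, 7,
    [(0xa3, 1), (0x208693a5, 4), (0x10548793, 4), (0x217693a4, 4), (0x208693a5, 4), (0x10548793, 4)],
    [(0x324351637487a8, 7), (0x306192a4, 4), (0x507192a8, 4), (0x53768492, 4), (0x306192a4, 4), (0x507192a8, 4)]⟩

def c_2619 : frmChk tA tA F_2619 = true := by decide +kernel

def r_2619_0 : chkL rootF engF2 tA tA sA_319 sA_319 4 F_2619 [(511, 0, 0)]
    0x105c2b05c1d09c1722d1c06c170f00f = true := by
  decide +kernel

theorem f_2619 (h : TabsF) : FrameF repsF 319 F_2619.f :=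
  frame_of rfl c_2619 (runs_of engOK r_2619_0) (by decide +kernel) h.1 h.1

def F_2620 : FrX :=
  ⟨0x80080a000804040e000021010020010000020408900100042040041004800020200840500000481020018006110100002803080800008024442000a0000,
    0xa6, 1, 0x10204250628591a3, 8,
    [(0xa6, 1), (0x205396a8, 4), (0x10548796, 4), (0x214396a7, 4), (0x205396a8, 4), (0x10548796, 4)],
    [(0x10204250628591a3, 8), (0x304265a8, 4), (0x30728195, 4), (0x307496a1, 4), (0x304265a8, 4), (0x30728195, 4)]⟩

def c_2620 : frmChk tA tA F_2620 = true := by decide +kernel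

def r_2620_0 : chkL rootF engF2 tA tA sA_319 sA_319 4 F_2620 [(511, 0, 0)]
    0x45621c1b4648b170d80784b12c5607459 = true := by
  decide +kernel

theorem f_2620 (h : TabsF) : FrameF repsF 319 F_2620.f :=
  frame_of rfl c_2620 (runs_of engOK r_2620_0) (by decide +kernel) h.1 h.1

def F_2621 : FrX :=
  ⟨0x482000044040440000c2040020009000182040002022020001020880080108010020410080004104200041080608008100001210048004000804810208,
    0xa0, 1, 0x2132405364758392a3, 9,
    [(0xa0, 1), (0x538690a2, 4), (0x548790a1, 4), (0x21437690, 4), (0x538690a2, 4), (0x548790a1, 4)],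
    [(0x2132405364758392a3, 9), (0x508394a7, 4), (0x42517683, 4), (0x108392a6, 4), (0x508394a7, 4), (0x42517683, 4)]⟩

def c_2621 : frmChk tA tA F_2621 = true := by decide +kernel

def r_2621_0 : chkL rootF engF2 tA tA sA_319 sA_319 4 F_2621 [(511, 0, 0)]
    0x1cc02d0d6348c43a = true := by
  decide +kernel

theorem f_2621 (h : TabsF) : FrameF repsF 319 F_2621.f :=
  frame_of rfl c_2621 (runs_of engOK r_2621_0) (by decide +kernel) h.1 h.1

def F_2622 : FrX :=
  ⟨0x2002000900044004000e02041000141000800040810000028080804202002200140080204010110220800420080410100080080080801008040a02202080,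
    0xa3, 1, 0x20617296a3, 5,
    [(0xa3, 1), (0x208693a5, 4), (0x10548793, 4), (0x217693a4, 4), (0x208693a5, 4), (0x10548793, 4)],
    [(0x20617296a3, 5), (0x317298a5, 4), (0x31546280, 4), (0x317690a4, 4), (0x317298a5, 4), (0x31546280, 4)]⟩

def c_2622 : frmChk tA tA F_2622 = true := by decide +kernel

def r_2622_0 : chkL rootF engF2 tA tA sA_319 sA_319 4 F_2622 [(511, 0, 0)]
    0x591e403506c0f03ed006c3c13427 = true := by
  decide +kernel

theorem f_2622 (h : TabsF) : FrameF repsF 319 F_2622.f :=
  frame_of rfl c_2622 (runs_of engOK r_2622_0) (by decide +kernel) h.1 h.1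

def F_2623 : FrX :=
  ⟨0x80080a000804040e00002101002001000002040882010204008400008440000041013020010110020801800100500101004042040002808100914040000,
    0xa6, 1, 0x3050758792a4, 6,
    [(0xa6, 1), (0x205396a8, 4), (0x10548796, 4), (0x214396a7, 4), (0x205396a8, 4), (0x10548796, 4)],
    [(0x3050758792a4, 6), (0x42637095, 4), (0x425183a7, 4), (0x428691a0, 4), (0x42637095, 4), (0x425183a7, 4)]⟩

def c_2623 : frmChk tA tA F_2623 = true := by decide +kernel

def r_2623_0 : chkL rootF engF2 tA tA sA_319 sA_319 4 F_2623 [(511, 0, 0)]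
    0x10cc350d82d12c6323631 = true := by
  decide +kernel

theorem f_2623 (h : TabsF) : FrameF repsF 319 F_2623.f :=
  frame_of rfl c_2623 (runs_of engOK r_2623_0) (by decide +kernel) h.1 h.1

def F_2624 : FrX :=
  ⟨0x482000044040440000c204002000900018204000201110080802001004004420001200088200102000000408542000200800a108000608300224000001,
    0xa0, 1, 0x102130426280a8, 7,
    [(0xa0, 1), (0x538690a2, 4), (0x548790a1, 4), (0x21437690, 4), (0x538690a2, 4), (0x548790a1, 4)],
    [(0x102130426280a8, 7), (0x518693a4, 4), (0x508293a7, 4), (0x10627493, 4), (0x518693a4, 4), (0x508293a7, 4)]⟩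

def c_2624 : frmChk tA tA F_2624 = true := by decide +kernel

def r_2624_0 : chkL rootF engF2 tA tA sA_319 sA_319 4 F_2624 [(511, 0, 0)]
    0x46306c17 = true := by
  decide +kernel

theorem f_2624 (h : TabsF) : FrameF repsF 319 F_2624.f :=
  frame_of rfl c_2624 (runs_of engOK r_2624_0) (by decide +kernel) h.1 h.1

def F_2625 : FrX :=
  ⟨0x80080a000804040e00002101002001000002040882200001108400008020200c04880000882000012010080214102400001010026008408100824200000,
    0xa6, 1, 0x3041647497a1, 6,
    [(0xa6, 1), (0x205396a8, 4), (0x10548796, 4), (0x214396a7, 4), (0x205396a8, 4), (0x10548796, 4)],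
    [(0x3041647497a1, 6), (0x10328795, 4), (0x647591a3, 4), (0x64718095, 4), (0x647591a3, 4), (0x718590a2, 4), (0x32647081, 4), (0x64718095, 4), (0x32647081, 4), (0x518097a3, 4), (0x64718095, 4), (0x718590a2, 4)]⟩

def c_2625 : frmChk tA tB F_2625 = true := by decide +kernel

def r_2625_0 : chkL rootF engF2 tA tB sA_319 sB_319 4 F_2625 [(511, 0, 0)]
    0x10741d0746307827 = true := by
  decide +kernel

theorem f_2625 (h : TabsF) : FrameF repsF 319 F_2625.f :=
  frame_of rfl c_2625 (runs_of engOK r_2625_0) (by decide +kernel) h.1 h.2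

def F_2626 : FrX :=
  ⟨0x2002000900044004000e020410001410008000408100500140100001110000420202040008040404110001420000480101000810808200a0044040200280,
    0xa3, 1, 0x102132517185a1, 7,
    [(0xa3, 1), (0x208693a5, 4), (0x10548793, 4), (0x217693a4, 4), (0x208693a5, 4), (0x10548793, 4)],
    [(0x102132517185a1, 7), (0x31628097, 4), (0x528497a1, 4), (0x406597a3, 4), (0x31628097, 4), (0x528497a1, 4)]⟩

def c_2626 : frmChk tA tA F_2626 = true := by decide +kernel

def r_2626_0 : chkL rootF engF2 tA tA sA_319 sA_319 4 F_2626 [(511, 0, 0)]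
    0x48b0e44709c39074390785c195986299862a8c6618a0b80f0b80f03c0f2c919 = true := by
  decide +kernel

theorem f_2626 (h : TabsF) : FrameF repsF 319 F_2626.f :=
  frame_of rfl c_2626 (runs_of engOK r_2626_0) (by decide +kernel) h.1 h.1

def F_2627 : FrX :=
  ⟨0x482000044040440000c2040020009000182040020002080100080806200c0002082000010400441130000440800141010000010a010020000824200084,
    0xa0, 1, 0x4252708496a0, 6,
    [(0xa0, 1), (0x538690a2, 4), (0x548790a1, 4), (0x21437690, 4), (0x538690a2, 4), (0x548790a1, 4)],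
    [(0x4252708496a0, 6), (0x437692a5, 4), (0x207684a1, 4), (0x51768390, 4), (0x437692a5, 4), (0x207684a1, 4)]⟩

def c_2627 : frmChk tA tA F_2627 = true := by decide +kernel

def r_2627_0 : chkL rootF engF2 tA tA sA_319 sA_319 4 F_2627 [(511, 0, 0)]
    0x42b03c0f0ac2b074270e447 = true := by
  decide +kernel

theorem f_2627 (h : TabsF) : FrameF repsF 319 F_2627.f :=
  frame_of rfl c_2627 (runs_of engOK r_2627_0) (by decide +kernel) h.1 h.1

def F_2628 : FrX :=
  ⟨0x482000044040440000c2040020009000182040010080080101000180020102808400410000048200045480802001040082110100201002010800010090,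
    0xa0, 1, 0x5265738098a4, 6,
    [(0xa0, 1), (0x538690a2, 4), (0x548790a1, 4), (0x21437690, 4), (0x538690a2, 4), (0x548790a1, 4)],
    [(0x5265738098a4, 6), (0x40768592, 4), (0x408193a6, 4), (0x324051a7, 4), (0x40768592, 4), (0x408193a6, 4)]⟩

def c_2628 : frmChk tA tA F_2628 = true := by decide +kernel

def r_2628_0 : chkL rootF engF2 tA tA sA_319 sA_319 4 F_2628 [(511, 0, 0)]
    0x41b06c1b06c4e1585603c6603c1bc84d4 = true := by
  decide +kernel

theorem f_2628 (h : TabsF) : FrameF repsF 319 F_2628.f :=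
  frame_of rfl c_2628 (runs_of engOK r_2628_0) (by decide +kernel) h.1 h.1

def F_2629 : FrX :=
  ⟨0x80080a000804040e0000210100200100000204088202040102001000800c024020101000844000811210000088040410024040022002220002044800200,
    0xa6, 1, 0x405062728594a2, 7,
    [(0xa6, 1), (0x205396a8, 4), (0x10548796, 4), (0x214396a7, 4), (0x205396a8, 4), (0x10548796, 4)],
    [(0x405062728594a2, 7), (0x427083a5, 4), (0x51647098, 4), (0x627093a1, 4), (0x427083a5, 4), (0x51647098, 4)]⟩

def c_2629 : frmChk tA tA F_2629 = true := by decide +kernel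

def r_2629_0 : chkL rootF engF2 tA tA sA_319 sA_319 4 F_2629 [(511, 0, 0)]
    0x40f0e82e0da5230ec2 = true := by
  decide +kernel

theorem f_2629 (h : TabsF) : FrameF repsF 319 F_2629.f :=
  frame_of rfl c_2629 (runs_of engOK r_2629_0) (by decide +kernel) h.1 h.1

def F_2630 : FrX :=
  ⟨0x2002000900044004000e02041000141000800040800400484002202002000a000200242010819010201000208000488004100020108002003002200a1000,
    0xa3, 1, 0x21405265728593a6, 8,
    [(0xa3, 1), (0x208693a5, 4), (0x10548793, 4), (0x217693a4, 4), (0x208693a5, 4), (0x10548793, 4)],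
    [(0x21405265728593a6, 8), (0x317498a6, 4), (0x31426580, 4), (0x317290a5, 4), (0x317498a6, 4), (0x31426580, 4)]⟩

def c_2630 : frmChk tA tA F_2630 = true := by decide +kernel

def r_2630_0 : chkL rootF engF2 tA tA sA_319 sA_319 4 F_2630 [(511, 0, 0)]
    0x42b05c17c244b06c1d4343c = true := by
  decide +kernel

theorem f_2630 (h : TabsF) : FrameF repsF 319 F_2630.f :=
  frame_of rfl c_2630 (runs_of engOK r_2630_0) (by decide +kernel) h.1 h.1

def F_2631 : FrX :=
  ⟨0x2002000900044004000e02041000141000800040800800284010080101000182080024020004088010c00810810000040300201010020920000041081001,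
    0xa3, 1, 0x203152628298a0, 7,
    [(0xa3, 1), (0x208693a5, 4), (0x10548793, 4), (0x217693a4, 4), (0x208693a5, 4), (0x10548793, 4)],
    [(0x203152628298a0, 7), (0x517094a8, 4), (0x406275a3, 4), (0x54627091, 4), (0x406275a3, 4), (0x54718390, 4), (0x416295a8, 4), (0x54627091, 4), (0x416295a8, 4), (0x507491a3, 4), (0x54627091, 4), (0x54718390, 4)]⟩

def c_2631 : frmChk tA tB F_2631 = true := by decide +kernel

def r_2631_0 : chkL rootF engF2 tA tB sA_319 sB_319 4 F_2631 [(511, 0, 0)]
    0x5230ac4e = true := by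
  decide +kernel

theorem f_2631 (h : TabsF) : FrameF repsF 319 F_2631.f :=
  frame_of rfl c_2631 (runs_of engOK r_2631_0) (by decide +kernel) h.1 h.2

def F_2632 : FrX :=
  ⟨0x2002000900044004000e020410001410008000408100006480020021010082080000011100000488008804009100040403002020100400200020040c1011,
    0xa3, 1, 0x63728293a3, 5,
    [(0xa3, 1), (0x208693a5, 4), (0x10548793, 4), (0x217693a4, 4), (0x208693a5, 4), (0x10548793, 4)],
    [(0x63728293a3, 5), (0x738096a5, 4), (0x10547296, 4), (0x328196a4, 4), (0x738096a5, 4), (0x10547296, 4)]⟩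

def c_2632 : frmChk tA tA F_2632 = true := by decide +kernel

def r_2632_0 : chkL rootF engF2 tA tA sA_319 sA_319 4 F_2632 [(255, 0, 0), (256, 0, 8)]
    0x5b03301709c2705c1d05c2b = true := by
  decide +kernel

def r_2632_1 : chkL rootF engF2 tA tA sA_319 sA_319 4 F_2632 [(256, 8, 11)]
    0x436468470b4366c01b = true := by
  decide +kernel

def r_2632_2 : chkL rootF engF2 tA tA sA_319 sA_319 4 F_2632 [(256, 19, 0)]
    0x10ba8c0b8170b42e0b4270b42d0ad1a1c81b = true := by
  decide +kernel

theorem f_2632 (h : TabsF) : FrameF repsF 319 F_2632.f :=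
  frame_of rfl c_2632 ((runs_of engOK r_2632_0).append ((runs_of engOK r_2632_1).append (runs_of engOK r_2632_2))) (by decide +kernel) h.1 h.1

def F_2633 : FrX :=
  ⟨0x80080a000804040e0000210100200100000204088220000404140020802400003050000088200008008480008065040000005002200a800202144000010,
    0xa6, 1, 0x203242657098a1, 7,
    [(0xa6, 1), (0x205396a8, 4), (0x10548796, 4), (0x214396a7, 4), (0x205396a8, 4), (0x10548796, 4)],
    [(0x203242657098a1, 7), (0x60748195, 4), (0x638192a7, 4), (0x305281a4, 4), (0x60748195, 4), (0x638192a7, 4)]⟩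

def c_2633 : frmChk tA tA F_2633 = true := by decide +kernel

def r_2633_0 : chkL rootF engF2 tA tA sA_319 sA_319 4 F_2633 [(511, 0, 0)]
    0x40f03c0f05c5c14c2e = true := by
  decide +kernel

theorem f_2633 (h : TabsF) : FrameF repsF 319 F_2633.f :=
  frame_of rfl c_2633 (runs_of engOK r_2633_0) (by decide +kernel) h.1 h.1

def F_2634 : FrX :=
  ⟨0x80080a000804040e00002101002001000002040882200004602030000014008010020410040008000882800a10010004240001030000921000080228010,
    0xa6, 1, 0x4354647282a5, 6,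
    [(0xa6, 1), (0x205396a8, 4), (0x10548796, 4), (0x214396a7, 4), (0x205396a8, 4), (0x10548796, 4)],
    [(0x4354647282a5, 6), (0x758093a4, 4), (0x107293a6, 4), (0x52648193, 4), (0x758093a4, 4), (0x107293a6, 4)]⟩

def c_2634 : frmChk tA tA F_2634 = true := by decide +kernel

def r_2634_0 : chkL rootF engF2 tA tA sA_319 sA_319 4 F_2634 [(511, 0, 0)]
    0x1e402e42c5523a2603c17d400f = true := by
  decide +kernel

theorem f_2634 (h : TabsF) : FrameF repsF 319 F_2634.f :=
  frame_of rfl c_2634 (runs_of engOK r_2634_0) (by decide +kernel) h.1 h.1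

def F_2635 : FrX :=
  ⟨0x80080a000804040e00002101002001000002040881080400200c00800808080009100420008004010050040028440802061000011008084040010840200,
    0xa6, 1, 0x2132415265748194a0, 9,
    [(0xa6, 1), (0x205396a8, 4), (0x10548796, 4), (0x214396a7, 4), (0x205396a8, 4), (0x10548796, 4)],
    [(0x2132415265748194a0, 9), (0x436170a5, 4), (0x427096a8, 4), (0x32708591, 4), (0x436170a5, 4), (0x427096a8, 4)]⟩

def c_2635 : frmChk tA tA F_2635 = true := by decide +kernel

def r_2635_0 : chkL rootF engF2 tA tA sA_319 sA_319 4 F_2635 [(511, 0, 0)]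
    0x45c1560b8a8ca0d42788d4a1c85c1c80f = true := by
  decide +kernel

theorem f_2635 (h : TabsF) : FrameF repsF 319 F_2635.f :=
  frame_of rfl c_2635 (runs_of engOK r_2635_0) (by decide +kernel) h.1 h.1

def F_2636 : FrX :=
  ⟨0x2002000900044004000e020410001410008000408080002044012000088208020000842040800050100400420204418000800030300202001012000a0200,
    0xa3, 1, 0x4064748791a3, 6,
    [(0xa3, 1), (0x208693a5, 4), (0x10548793, 4), (0x217693a4, 4), (0x208693a5, 4), (0x10548793, 4)],
    [(0x4064748791a3, 6), (0x427685a0, 4), (0x31758094, 4), (0x317085a6, 4), (0x31758094, 4), (0x657092a8, 4), (0x314260a7, 4), (0x317085a6, 4), (0x314260a7, 4), (0x508794a6, 4), (0x317085a6, 4), (0x657092a8, 4)]⟩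

def c_2636 : frmChk tA tB F_2636 = true := by decide +kernel

def r_2636_0 : chkL rootF engF2 tA tB sA_319 sB_319 4 F_2636 [(511, 0, 0)]
    0x41705c99 = true := by
  decide +kernel

theorem f_2636 (h : TabsF) : FrameF repsF 319 F_2636.f :=
  frame_of rfl c_2636 (runs_of engOK r_2636_0) (by decide +kernel) h.1 h.2

def F_2637 : FrX :=
  ⟨0x80080a000804040e00002101002001000002040880a00004202028200014004040400040c0008008008080012041008240011012000a484000110020010,
    0xa6, 1, 0x30425365708090a1, 8,
    [(0xa6, 1), (0x205396a8, 4), (0x10548796, 4), (0x214396a7, 4), (0x205396a8, 4), (0x10548796, 4)],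
    [(0x30425365708090a1, 8), (0x65708194, 4), (0x627381a9, 4), (0x305281a4, 4), (0x65708194, 4), (0x627381a9, 4)]⟩

def c_2637 : frmChk tA tA F_2637 = true := by decide +kernel

def r_2637_0 : chkL rootF engF2 tA tA sA_319 sA_319 4 F_2637 [(511, 0, 0)]
    0x5620d44719417 = true := by
  decide +kernel

theorem f_2637 (h : TabsF) : FrameF repsF 319 F_2637.f :=
  frame_of rfl c_2637 (runs_of engOK r_2637_0) (by decide +kernel) h.1 h.1

def F_2638 : FrX :=
  ⟨0x1c21020000040440000020410001010000820408a0001100000044100404021000101100082021022880004224001802082000080441101000200440200,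
    0x0, 0, 0x21546474, 4,
    [(0x0, 0), (0x205386a9, 4), (0x105487a9, 4), (0x214376a9, 4), (0x205386a9, 4), (0x105487a9, 4)],
    [(0x21546474, 4), (0x104385a9, 4), (0x207486a9, 4), (0x216573a9, 4), (0x104385a9, 4), (0x207486a9, 4)]⟩

def c_2638 : frmChk tA tA F_2638 = true := by decide +kernel

def r_2638_0 : chkL rootF engF2 tA tA sA_319 sA_319 4 F_2638 [(255, 0, 0), (256, 0, 3)]
    0x436 = true := by
  decide +kernel

def r_2638_1 : chkL rootF engF2 tA tA sA_319 sA_319 4 F_2638 [(256, 3, 1)]
    0x1 = true := by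
  decide +kernel

def r_2638_2 : chkL rootF engF2 tA tA sA_319 sA_319 4 F_2638 [(256, 4, 1)]
    0x471 = true := by
  decide +kernel

def r_2638_3 : chkL rootF engF2 tA tA sA_319 sA_319 4 F_2638 [(256, 5, 15)]
    0x1134a60d44d0d456 = true := by
  decide +kernel

def r_2638_4 : chkL rootF engF2 tA tA sA_319 sA_319 4 F_2638 [(256, 20, 3)]
    0x1154a3a88a3294e1c32c1b0ac2c18b4952a230ec128ea2b10a328ea21a46c30c17b06861aac4 = true := by
  decide +kernel

def r_2638_5 : chkL rootF engF2 tA tA sA_319 sA_319 4 F_2638 [(256, 23, 2)]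
    0x1 = true := by
  decide +kernel

def r_2638_6 : chkL rootF engF2 tA tA sA_319 sA_319 4 F_2638 [(256, 25, 4)]
    0x105e261582b = true := by
  decide +kernel

def r_2638_7 : chkL rootF engF2 tA tA sA_319 sA_319 4 F_2638 [(256, 29, 0)]
    0x1 = true := by
  decide +kernel

theorem f_2638 (h : TabsF) : FrameF repsF 319 F_2638.f :=
  frame_of rfl c_2638 ((runs_of engOK r_2638_0).append ((runs_of engOK r_2638_1).append ((runs_of engOK r_2638_2).append ((runs_of engOK r_2638_3).append ((runs_of engOK r_2638_4).append ((runs_of engOK r_2638_5).append ((runs_of engOK r_2638_6).append (runs_of engOK r_2638_7)))))))) (by decide +kernel) h.1 h.1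

def F_2639 : FrX :=
  ⟨0x482000044040440000c2040020009000182040000a0004800420000a00088008488000088800001200022040020280001090034801010400122000000a,
    0xa0, 1, 0x32405160728590a2, 8,
    [(0xa0, 1), (0x538690a2, 4), (0x548790a1, 4), (0x21437690, 4), (0x538690a2, 4), (0x548790a1, 4)],
    [(0x32405160728590a2, 8), (0x417682a9, 4), (0x31768095, 4), (0x204376a5, 4), (0x417682a9, 4), (0x31768095, 4)]⟩

def c_2639 : frmChk tA tA F_2639 = true := by decide +kernel

def r_2639_0 : chkL rootF engF2 tA tA sA_319 sA_319 4 F_2639 [(511, 0, 0)]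
    0x103c63 = true := by
  decide +kernel

theorem f_2639 (h : TabsF) : FrameF repsF 319 F_2639.f :=
  frame_of rfl c_2639 (runs_of engOK r_2639_0) (by decide +kernel) h.1 h.1

def F_2640 : FrX :=
  ⟨0x2002000900044004000e020410001410008000408010002280014001010201000400811008480008800804000204040c04022101020400001410c000a000,
    0xa3, 1, 0x205165728798a3, 7,
    [(0xa3, 1), (0x208693a5, 4), (0x10548793, 4), (0x217693a4, 4), (0x208693a5, 4), (0x10548793, 4)],
    [(0x205165728798a3, 7), (0x728694a1, 4), (0x30526481, 4), (0x304186a9, 4), (0x30526481, 4), (0x417596a8, 4), (0x307291a4, 4), (0x304186a9, 4), (0x307291a4, 4), (0x526184a9, 4), (0x304186a9, 4), (0x417596a8, 4)]⟩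

def c_2640 : frmChk tA tB F_2640 = true := by decide +kernel

def r_2640_0 : chkL rootF engF2 tA tB sA_319 sB_319 4 F_2640 [(511, 0, 0)]
    0x103c0f = true := by
  decide +kernel

theorem f_2640 (h : TabsF) : FrameF repsF 319 F_2640.f :=
  frame_of rfl c_2640 (runs_of engOK r_2640_0) (by decide +kernel) h.1 h.2

def F_2641 : FrX :=
  ⟨0x482000044040440000c2040020009000182040002012040000880200024002020600050020010400800040888020109008011101300080014004200004,
    0xa0, 1, 0x314350708592a7, 7,
    [(0xa0, 1), (0x538690a2, 4), (0x548790a1, 4), (0x21437690, 4), (0x538690a2, 4), (0x548790a1, 4)],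
    [(0x314350708592a7, 7), (0x52608497, 4), (0x527381a0, 4), (0x415293a6, 4), (0x52608497, 4), (0x527381a0, 4)]⟩

def c_2641 : frmChk tA tA F_2641 = true := by decide +kernel

def r_2641_0 : chkL rootF engF2 tA tA sA_319 sA_319 4 F_2641 [(511, 0, 0)]
    0x10b46c = true := by
  decide +kernel

theorem f_2641 (h : TabsF) : FrameF repsF 319 F_2641.f :=
  frame_of rfl c_2641 (runs_of engOK r_2641_0) (by decide +kernel) h.1 h.1

def F_2642 : FrX :=
  ⟨0x1c2102000004044000002041000101000082040888200008008080004000242020601015024000000c00440880050008108001011100220240004080010,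
    0x0, 0, 0x107583, 3,
    [(0x0, 0), (0x205386a9, 4), (0x105487a9, 4), (0x214376a9, 4), (0x205386a9, 4), (0x105487a9, 4)],
    [(0x107583, 3), (0x216387a9, 4), (0x105374a9, 4), (0x206584a9, 4), (0x216387a9, 4), (0x105374a9, 4)]⟩

def c_2642 : frmChk tA tA F_2642 = true := by decide +kernel

def r_2642_0 : chkL rootF engF2 tA tA sA_319 sA_319 4 F_2642 [(255, 0, 0), (256, 0, 12)]
    0x186613 = true := by
  decide +kernel

def r_2642_1 : chkL rootF engF2 tA tA sA_319 sA_319 4 F_2642 [(256, 12, 7)]
    0x1 = true := by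
  decide +kernel

def r_2642_2 : chkL rootF engF2 tA tA sA_319 sA_319 4 F_2642 [(256, 19, 10)]
    0x6a18b381aa055546150d62c15a641a8740b417 = true := by
  decide +kernel

def r_2642_3 : chkL rootF engF2 tA tA sA_319 sA_319 4 F_2642 [(256, 29, 0)]
    0x44b = true := by
  decide +kernel

theorem f_2642 (h : TabsF) : FrameF repsF 319 F_2642.f :=
  frame_of rfl c_2642 ((runs_of engOK r_2642_0).append ((runs_of engOK r_2642_1).append ((runs_of engOK r_2642_2).append (runs_of engOK r_2642_3)))) (by decide +kernel) h.1 h.1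

def F_2643 : FrX :=
  ⟨0x80080a000804040e00002101002001000002040880600004408090800040082020020415404000000c008008800500080000410110009202400c0200010,
    0xa6, 1, 0x203250718696a4, 7,
    [(0xa6, 1), (0x205396a8, 4), (0x10548796, 4), (0x214396a7, 4), (0x205396a8, 4), (0x10548796, 4)],
    [(0x203250718696a4, 7), (0x215390a6, 4), (0x758491a2, 4), (0x216084a9, 4), (0x758491a2, 4), (0x106273a9, 4), (0x538496a0, 4), (0x216084a9, 4), (0x538496a0, 4), (0x607592a1, 4), (0x216084a9, 4), (0x106273a9, 4)]⟩

def c_2643 : frmChk tA tB F_2643 = true := by decide +kernel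

def r_2643_0 : chkL rootF engF2 tA tB sA_319 sB_319 4 F_2643 [(511, 0, 0)]
    0x43c = true := by
  decide +kernel

theorem f_2643 (h : TabsF) : FrameF repsF 319 F_2643.f :=
  frame_of rfl c_2643 (runs_of engOK r_2643_0) (by decide +kernel) h.1 h.2

def F_2644 : FrX :=
  ⟨0x482000044040440000c204002000900018204002000050080010020914008400001200002409041080080008c020040204005000000820002144050002,
    0xa0, 1, 0x214154627494a2, 7,
    [(0xa0, 1), (0x538690a2, 4), (0x548790a1, 4), (0x21437690, 4), (0x538690a2, 4), (0x548790a1, 4)],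
    [(0x214154627494a2, 7), (0x327681a0, 4), (0x40768592, 4), (0x517693a4, 4), (0x327681a0, 4), (0x40768592, 4)]⟩

def c_2644 : frmChk tA tA F_2644 = true := by decide +kernel

def r_2644_0 : chkL rootF engF2 tA tA sA_319 sA_319 4 F_2644 [(511, 0, 0)]
    0x41b6280f = true := by
  decide +kernel

theorem f_2644 (h : TabsF) : FrameF repsF 319 F_2644.f :=
  frame_of rfl c_2644 (runs_of engOK r_2644_0) (by decide +kernel) h.1 h.1

def F_2645 : FrX :=
  ⟨0x80080a000804040e00002101002001000002040881200002444030000012008010022001400020080040800e0100420800200108040280108c202020000,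
    0xa6, 1, 0x1032405373a4, 6,
    [(0xa6, 1), (0x205396a8, 4), (0x10548796, 4), (0x214396a7, 4), (0x205396a8, 4), (0x10548796, 4)],
    [(0x1032405373a4, 6), (0x435276a8, 4), (0x406591a2, 4), (0x528791a6, 4), (0x406591a2, 4), (0x307582a6, 4), (0x438691a7, 4), (0x528791a6, 4), (0x438691a7, 4), (0x406287a5, 4), (0x528791a6, 4), (0x307582a6, 4)]⟩

def c_2645 : frmChk tA tB F_2645 = true := by decide +kernel

def r_2645_0 : chkL rootF engF2 tA tB sA_319 sB_319 4 F_2645 [(511, 0, 0)]
    0x1 = true := by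
  decide +kernel

theorem f_2645 (h : TabsF) : FrameF repsF 319 F_2645.f :=
  frame_of rfl c_2645 (runs_of engOK r_2645_0) (by decide +kernel) h.1 h.2

def F_2646 : FrX :=
  ⟨0x80080a000804040e00002101002001000002040890020001408008008240004022011010000031000028000828001002028810004018008802080809100,
    0xa6, 1, 0x415464728096a3, 7,
    [(0xa6, 1), (0x205396a8, 4), (0x10548796, 4), (0x214396a7, 4), (0x205396a8, 4), (0x10548796, 4)],
    [(0x415464728096a3, 7), (0x216087a9, 4), (0x53618492, 4), (0x215396a0, 4), (0x53618492, 4), (0x107496a2, 4), (0x538790a6, 4), (0x215396a0, 4), (0x538790a6, 4), (0x628491a0, 4), (0x215396a0, 4), (0x107496a2, 4)]⟩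

def c_2646 : frmChk tA tB F_2646 = true := by decide +kernel

def r_2646_0 : chkL rootF engF2 tA tB sA_319 sB_319 4 F_2646 [(511, 0, 0)]
    0x4d10b41705c2d = true := by
  decide +kernel

theorem f_2646 (h : TabsF) : FrameF repsF 319 F_2646.f :=
  frame_of rfl c_2646 (runs_of engOK r_2646_0) (by decide +kernel) h.1 h.2

theorem cl_319 (h : TabsF) : ∀ f ∈ fr_319, FrameF repsF 319 f :=
  List.forall_mem_cons.2 ⟨f_2619 h, List.forall_mem_cons.2 ⟨f_2620 h, List.forall_mem_cons.2 ⟨f_2621 h, List.forall_mem_cons.2 ⟨f_2622 h, List.forall_mem_cons.2 ⟨f_2623 h, List.forall_mem_cons.2 ⟨f_2624 h, List.forall_mem_cons.2 ⟨f_2625 h, List.forall_mem_cons.2 ⟨f_2626 h, List.forall_mem_cons.2 ⟨f_2627 h, List.forall_mem_cons.2 ⟨f_2628 h, List.forall_mem_cons.2 ⟨f_2629 h, List.forall_mem_cons.2 ⟨f_2630 h, List.forall_mem_cons.2 ⟨f_2631 h, List.forall_mem_cons.2 ⟨f_2632 h, List.forall_mem_cons.2 ⟨f_2633 h, List.forall_mem_cons.2 ⟨f_2634 h, List.forall_mem_cons.2 ⟨f_2635 h, List.forall_mem_cons.2 ⟨f_2636 h, List.forall_mem_cons.2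 ⟨f_2637 h, List.forall_mem_cons.2 ⟨f_2638 h, List.forall_mem_cons.2 ⟨f_2639 h, List.forall_mem_cons.2 ⟨f_2640 h, List.forall_mem_cons.2 ⟨f_2641 h, List.forall_mem_cons.2 ⟨f_2642 h, List.forall_mem_cons.2 ⟨f_2643 h, List.forall_mem_cons.2 ⟨f_2644 h, List.forall_mem_cons.2 ⟨f_2645 h, List.forall_mem_cons.2 ⟨f_2646 h,
    fun _ h0 => absurd h0 List.not_mem_nil⟩⟩⟩⟩⟩⟩⟩⟩⟩⟩⟩⟩⟩⟩⟩⟩⟩⟩⟩⟩⟩⟩⟩⟩⟩⟩⟩⟩

def F_2647 : FrX :=
  ⟨0x80080a000804040e000021010020010000020408804108080044004004800000480c04100800410000a800044110200800100a020400402500202840000,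
    0xa6, 1, 0x315363718492a3, 7,
    [(0xa6, 1), (0x205396a8, 4), (0x10548796, 4), (0x214396a7, 4), (0x205396a8, 4), (0x10548796, 4)],
    [(0x315363718492a3, 7), (0x546290a1, 4), (0x43627081, 4), (0x536297a8, 4), (0x546290a1, 4), (0x43627081, 4)]⟩

def c_2647 : frmChk tA tA F_2647 = true := by decide +kernel

def r_2647_0 : chkL rootF engF2 tA tA sA_320 sA_320 4 F_2647 [(511, 0, 0)]
    0x48e154358700f03c17239c406c1b03c0f0740f0d833170780f01d = true := by
  decide +kernel

theorem f_2647 (h : TabsF) : FrameF repsF 320 F_2647.f :=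
  frame_of rfl c_2647 (runs_of engOK r_2647_0) (by decide +kernel) h.1 h.1

def F_2648 : FrX :=
  ⟨0x80080a000804040e0000210100200100000204088101100100840002044000001901401004002020203000012900100200400a0204100088020180c0000,
    0xa6, 1, 0x104253657294a5, 7,
    [(0xa6, 1), (0x205396a8, 4), (0x10548796, 4), (0x214396a7, 4), (0x205396a8, 4), (0x10548796, 4)],
    [(0x104253657294a5, 7), (0x627183a5, 4), (0x106284a9, 4), (0x43627095, 4), (0x627183a5, 4), (0x106284a9, 4)]⟩

def c_2648 : frmChk tA tA F_2648 = true := by decide +kernel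

def r_2648_0 : chkL rootF engF2 tA tA sA_320 sA_320 4 F_2648 [(511, 0, 0)]
    0x10b80f1701e0d41e12c35 = true := by
  decide +kernel

theorem f_2648 (h : TabsF) : FrameF repsF 320 F_2648.f :=
  frame_of rfl c_2648 (runs_of engOK r_2648_0) (by decide +kernel) h.1 h.1

def F_2649 : FrX :=
  ⟨0x80080a000804040e00002101002001000002040882020401008024000810004001084040c0000c2800008002110824000040080220022005010a00a0000,
    0xa6, 1, 0x30405361748298a3, 8,
    [(0xa6, 1), (0x205396a8, 4), (0x10548796, 4), (0x214396a7, 4), (0x205396a8, 4), (0x10548796, 4)],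
    [(0x30405361748298a3, 8), (0x528491a0, 4), (0x52647093, 4), (0x315286a7, 4), (0x528491a0, 4), (0x52647093, 4)]⟩

def c_2649 : frmChk tA tA F_2649 = true := by decide +kernel

def r_2649_0 : chkL rootF engF2 tA tA sA_320 sA_320 4 F_2649 [(511, 0, 0)]
    0x11544b = true := by
  decide +kernel

theorem f_2649 (h : TabsF) : FrameF repsF 320 F_2649.f :=
  frame_of rfl c_2649 (runs_of engOK r_2649_0) (by decide +kernel) h.1 h.1

def F_2650 : FrX :=
  ⟨0x2002000900044004000e020410001410008000408008020800a00041000121010400042100200802040a008044100000a0840080206010004000080a4040,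
    0xa3, 1, 0x41607593a4, 5,
    [(0xa3, 1), (0x208693a5, 4), (0x10548793, 4), (0x217693a4, 4), (0x208693a5, 4), (0x10548793, 4)],
    [(0x41607593a4, 5), (0x31628097, 4), (0x316485a7, 4), (0x314250a9, 4), (0x31628097, 4), (0x316485a7, 4)]⟩

def c_2650 : frmChk tA tA F_2650 = true := by decide +kernel

def r_2650_0 : chkL rootF engF2 tA tA sA_320 sA_320 4 F_2650 [(511, 0, 0)]
    0x41b074354c44b11c2712c1b09c1b06c1b3487281c27c178261781e101e = true := by
  decide +kernel

theorem f_2650 (h : TabsF) : FrameF repsF 320 F_2650.f :=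
  frame_of rfl c_2650 (runs_of engOK r_2650_0) (by decide +kernel) h.1 h.1

def F_2651 : FrX :=
  ⟨0x482000044040440000c20400200090001820400100101008080009100201082080100100000482008808080c100800021400a000200102100008010405,
    0xa0, 1, 0x314365728595a3, 7,
    [(0xa0, 1), (0x538690a2, 4), (0x548790a1, 4), (0x21437690, 4), (0x538690a2, 4), (0x548790a1, 4)],
    [(0x314365728595a3, 7), (0x617092a5, 4), (0x30528491, 4), (0x518492a6, 4), (0x30528491, 4), (0x517396a2, 4), (0x657084a1, 4), (0x518492a6, 4), (0x657084a1, 4), (0x213095a6, 4), (0x518492a6, 4), (0x517396a2, 4)]⟩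

def c_2651 : frmChk tA tB F_2651 = true := by decide +kernel

def r_2651_0 : chkL rootF engF2 tA tB sA_320 sB_320 4 F_2651 [(511, 0, 0)]
    0x105c1705c330743605c27 = true := by
  decide +kernel

theorem f_2651 (h : TabsF) : FrameF repsF 320 F_2651.f :=
  frame_of rfl c_2651 (runs_of engOK r_2651_0) (by decide +kernel) h.1 h.2

def F_2652 : FrX :=
  ⟨0x2002000900044004000e02041000141000800040800401024001024102004040200080210080040202220102021010001080008080401008800202060104,
    0xa3, 1, 0x10204250607691a8, 8,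
    [(0xa3, 1), (0x208693a5, 4), (0x10548793, 4), (0x217693a4, 4), (0x208693a5, 4), (0x10548793, 4)],
    [(0x10204250607691a8, 8), (0x326480a7, 4), (0x218096a5, 4), (0x31758094, 4), (0x326480a7, 4), (0x218096a5, 4)]⟩

def c_2652 : frmChk tA tA F_2652 = true := by decide +kernel

def r_2652_0 : chkL rootF engF2 tA tA sA_320 sA_320 4 F_2652 [(511, 0, 0)]
    0x4170f00f0cc1703c3c0751966017 = true := by
  decide +kernel

theorem f_2652 (h : TabsF) : FrameF repsF 320 F_2652.f :=
  frame_of rfl c_2652 (runs_of engOK r_2652_0) (by decide +kernel) h.1 h.1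

def F_2653 : FrX :=
  ⟨0x2002000900044004000e0204100014100080004081000004805000011080202120010010080800c480200140011010002040208080040000444240009004,
    0xa3, 1, 0x425364728391a0, 7,
    [(0xa3, 1), (0x208693a5, 4), (0x10548793, 4), (0x217693a4, 4), (0x208693a5, 4), (0x10548793, 4)],
    [(0x425364728391a0, 7), (0x436582a7, 4), (0x104263a9, 4), (0x10436285, 4), (0x104263a9, 4), (0x53628497, 4), (0x105286a7, 4), (0x10436285, 4), (0x105286a7, 4), (0x326485a9, 4), (0x10436285, 4), (0x53628497, 4)]⟩

def c_2653 : frmChk tA tB F_2653 = true := by decide +kernel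

def r_2653_0 : chkL rootF engF2 tA tB sA_320 sB_320 4 F_2653 [(511, 0, 0)]
    0x1074360740f = true := by
  decide +kernel

theorem f_2653 (h : TabsF) : FrameF repsF 320 F_2653.f :=
  frame_of rfl c_2653 (runs_of engOK r_2653_0) (by decide +kernel) h.1 h.2

def F_2654 : FrX :=
  ⟨0x482000044040440000c2040020009000182040010020100404000208010804804080210000030104200440210410000240205080100220002104000006,
    0xa0, 1, 0x2032537391a2, 6,
    [(0xa0, 1), (0x538690a2, 4), (0x548790a1, 4), (0x21437690, 4), (0x538690a2, 4), (0x548790a1, 4)],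
    [(0x2032537391a2, 6), (0x317086a2, 4), (0x31408592, 4), (0x316574a9, 4), (0x317086a2, 4), (0x31408592, 4)]⟩

def c_2654 : frmChk tA tA F_2654 = true := by decide +kernel

def r_2654_0 : chkL rootF engF2 tA tA sA_320 sA_320 4 F_2654 [(511, 0, 0)]
    0x112c2d0ac2b22c1e18e6182c2e8a81d = true := by
  decide +kernel

theorem f_2654 (h : TabsF) : FrameF repsF 320 F_2654.f :=
  frame_of rfl c_2654 (runs_of engOK r_2654_0) (by decide +kernel) h.1 h.1

def F_2655 : FrX :=
  ⟨0x2002000900044004000e02041000141000800040810000042208002008208288100008004010110410800804080820000204202040010020002104041042,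
    0xa3, 1, 0x203261738698a3, 7,
    [(0xa3, 1), (0x208693a5, 4), (0x10548793, 4), (0x217693a4, 4), (0x208693a5, 4), (0x10548793, 4)],
    [(0x203261738698a3, 7), (0x327198a5, 4), (0x54627190, 4), (0x637180a4, 4), (0x327198a5, 4), (0x54627190, 4)]⟩

def c_2655 : frmChk tA tA F_2655 = true := by decide +kernel

def r_2655_0 : chkL rootF engF2 tA tA sA_320 sA_320 4 F_2655 [(511, 0, 0)]
    0x10b42d03c2d03c0f11c35 = true := by
  decide +kernel

theorem f_2655 (h : TabsF) : FrameF repsF 320 F_2655.f :=
  frame_of rfl c_2655 (runs_of engOK r_2655_0) (by decide +kernel) h.1 h.1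

def F_2656 : FrX :=
  ⟨0x80080a000804040e00002101002001000002040882022000050020401000208010822020010110010801020204800040242001001000921004083000002,
    0xa6, 1, 0x3042617092a1, 6,
    [(0xa6, 1), (0x205396a8, 4), (0x10548796, 4), (0x214396a7, 4), (0x205396a8, 4), (0x10548796, 4)],
    [(0x3042617092a1, 6), (0x50648197, 4), (0x526483a7, 4), (0x203164a9, 4), (0x50648197, 4), (0x526483a7, 4)]⟩

def c_2656 : frmChk tA tA F_2656 = true := by decide +kernel

def r_2656_0 : chkL rootF engF2 tA tA sA_320 sA_320 4 F_2656 [(511, 0, 0)]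
    0x107619c601d2350e = true := by
  decide +kernel

theorem f_2656 (h : TabsF) : FrameF repsF 320 F_2656.f :=
  frame_of rfl c_2656 (runs_of engOK r_2656_0) (by decide +kernel) h.1 h.1

def F_2657 : FrX :=
  ⟨0x482000044040440000c20400200090001820400021008020011001800040500040c0000c00010202001800a00490400000090140080408204020200028,
    0xa0, 1, 0x2031628691a6, 6,
    [(0xa0, 1), (0x538690a2, 4), (0x548790a1, 4), (0x21437690, 4), (0x538690a2, 4), (0x548790a1, 4)],
    [(0x2031628691a6, 6), (0x406275a1, 4), (0x548392a7, 4), (0x107583a4, 4), (0x548392a7, 4), (0x507196a4, 4), (0x416283a0, 4), (0x107583a4, 4), (0x416283a0, 4), (0x107492a5, 4), (0x107583a4, 4), (0x507196a4, 4)]⟩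

def c_2657 : frmChk tA tB F_2657 = true := by decide +kernel

def r_2657_0 : chkL rootF engF2 tA tB sA_320 sB_320 4 F_2657 [(511, 0, 0)]
    0x10cc0fa440f0f01e = true := by
  decide +kernel

theorem f_2657 (h : TabsF) : FrameF repsF 320 F_2657.f :=
  frame_of rfl c_2657 (runs_of engOK r_2657_0) (by decide +kernel) h.1 h.2

def F_2658 : FrX :=
  ⟨0x80080a000804040e000021010020010000020408900400040500008082020040205010008020808800811000a4010002080310004000104240101010001,
    0xa6, 1, 0x435063708692a8, 7,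
    [(0xa6, 1), (0x205396a8, 4), (0x10548796, 4), (0x214396a7, 4), (0x205396a8, 4), (0x10548796, 4)],
    [(0x435063708692a8, 7), (0x426097a8, 4), (0x304271a5, 4), (0x42638591, 4), (0x426097a8, 4), (0x304271a5, 4)]⟩

def c_2658 : frmChk tA tA F_2658 = true := by decide +kernel

def r_2658_0 : chkL rootF engF2 tA tA sA_320 sA_320 4 F_2658 [(511, 0, 0)]
    0x4591670605c1e = true := by
  decide +kernel

theorem f_2658 (h : TabsF) : FrameF repsF 320 F_2658.f :=
  frame_of rfl c_2658 (runs_of engOK r_2658_0) (by decide +kernel) h.1 h.1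

def F_2659 : FrX :=
  ⟨0x80080a000804040e00002101002001000002040881200002204400100080080c04120008208004010044080408201100000110041008804240110100002,
    0xa6, 1, 0x3043546193a1, 6,
    [(0xa6, 1), (0x205396a8, 4), (0x10548796, 4), (0x214396a7, 4), (0x205396a8, 4), (0x10548796, 4)],
    [(0x3043546193a1, 6), (0x32708591, 4), (0x506471a3, 4), (0x51647098, 4), (0x506471a3, 4), (0x518097a2, 4), (0x32648195, 4), (0x51647098, 4), (0x32648195, 4), (0x107598a3, 4), (0x51647098, 4), (0x518097a2, 4)]⟩

def c_2659 : frmChk tA tB F_2659 = true := by decide +kernel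

def r_2659_0 : chkL rootF engF2 tA tB sA_320 sB_320 4 F_2659 [(511, 0, 0)]
    0x1 = true := by
  decide +kernel

theorem f_2659 (h : TabsF) : FrameF repsF 320 F_2659.f :=
  frame_of rfl c_2659 (runs_of engOK r_2659_0) (by decide +kernel) h.1 h.2

def F_2660 : FrX :=
  ⟨0x80080a000804040e0000210100200100000204088220000404140020802400003050000088200008008480008c81040000005002200a800202144000002,
    0xa6, 1, 0x203242657098a1, 7,
    [(0xa6, 1), (0x205396a8, 4), (0x10548796, 4), (0x214396a7, 4), (0x205396a8, 4), (0x10548796, 4)],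
    [(0x203242657098a1, 7), (0x60748195, 4), (0x638192a7, 4), (0x305281a4, 4), (0x60748195, 4), (0x638192a7, 4)]⟩

def c_2660 : frmChk tA tA F_2660 = true := by decide +kernel

def r_2660_0 : chkL rootF engF2 tA tA sA_320 sA_320 4 F_2660 [(511, 0, 0)]
    0x11718c = true := by
  decide +kernel

theorem f_2660 (h : TabsF) : FrameF repsF 320 F_2660.f :=
  frame_of rfl c_2660 (runs_of engOK r_2660_0) (by decide +kernel) h.1 h.1

def F_2661 : FrX :=
  ⟨0x80080a000804040e00002101002001000002040882200004602030000014008010020410040008000882800a10010004240001030000921000081810001,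
    0xa6, 1, 0x4354647282a5, 6,
    [(0xa6, 1), (0x205396a8, 4), (0x10548796, 4), (0x214396a7, 4), (0x205396a8, 4), (0x10548796, 4)],
    [(0x4354647282a5, 6), (0x758093a4, 4), (0x107293a6, 4), (0x52648193, 4), (0x758093a4, 4), (0x107293a6, 4)]⟩

def c_2661 : frmChk tA tA F_2661 = true := by decide +kernel

def r_2661_0 : chkL rootF engF2 tA tA sA_320 sA_320 4 F_2661 [(511, 0, 0)]
    0x60d836164721c5448d5482b0b48d42c781a8562655123552074a518c6691664 = true := by
  decide +kernel

theorem f_2661 (h : TabsF) : FrameF repsF 320 F_2661.f :=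
  frame_of rfl c_2661 (runs_of engOK r_2661_0) (by decide +kernel) h.1 h.1

def F_2662 : FrX :=
  ⟨0x482000044040440000c204002000900018204000201090002000020a000c008040c00100260010000400400898000402840040020006220001040000a4,
    0xa0, 1, 0x5064728194a2, 6,
    [(0xa0, 1), (0x538690a2, 4), (0x548790a1, 4), (0x21437690, 4), (0x538690a2, 4), (0x548790a1, 4)],
    [(0x5064728194a2, 6), (0x204391a5, 4), (0x42768590, 4), (0x20317694, 4), (0x42768590, 4), (0x103294a8, 4), (0x417693a5, 4), (0x20317694, 4), (0x417693a5, 4), (0x31408592, 4), (0x20317694, 4), (0x103294a8, 4)]⟩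

def c_2662 : frmChk tA tB F_2662 = true := by decide +kernel

def r_2662_0 : chkL rootF engF2 tA tB sA_320 sB_320 4 F_2662 [(511, 0, 0)]
    0x103c33 = true := by
  decide +kernel

theorem f_2662 (h : TabsF) : FrameF repsF 320 F_2662.f :=
  frame_of rfl c_2662 (runs_of engOK r_2662_0) (by decide +kernel) h.1 h.2

def F_2663 : FrX :=
  ⟨0x80080a000804040e00002101002001000002040881080400200c00800808080009100420008004010050040c48000802061000011008084040010840020,
    0xa6, 1, 0x2132415265748194a0, 9,
    [(0xa6, 1), (0x205396a8, 4), (0x10548796, 4), (0x214396a7, 4), (0x205396a8, 4), (0x10548796, 4)],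
    [(0x2132415265748194a0, 9), (0x436170a5, 4), (0x427096a8, 4), (0x32708591, 4), (0x436170a5, 4), (0x427096a8, 4)]⟩

def c_2663 : frmChk tA tA F_2663 = true := by decide +kernel

def r_2663_0 : chkL rootF engF2 tA tA sA_320 sA_320 4 F_2663 [(511, 0, 0)]
    0x118f0a1541d = true := by
  decide +kernel

theorem f_2663 (h : TabsF) : FrameF repsF 320 F_2663.f :=
  frame_of rfl c_2663 (runs_of engOK r_2663_0) (by decide +kernel) h.1 h.1

def F_2664 : FrX :=
  ⟨0x2002000900044004000e02041000141000800040808000204401200008820802000084204080005010040042c400018000800030300202001012000a0020,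
    0xa3, 1, 0x4064748791a3, 6,
    [(0xa3, 1), (0x208693a5, 4), (0x10548793, 4), (0x217693a4, 4), (0x208693a5, 4), (0x10548793, 4)],
    [(0x4064748791a3, 6), (0x427685a0, 4), (0x31758094, 4), (0x317085a6, 4), (0x31758094, 4), (0x657092a8, 4), (0x314260a7, 4), (0x317085a6, 4), (0x314260a7, 4), (0x508794a6, 4), (0x317085a6, 4), (0x657092a8, 4)]⟩

def c_2664 : frmChk tA tB F_2664 = true := by decide +kernel

def r_2664_0 : chkL rootF engF2 tA tB sA_320 sB_320 4 F_2664 [(511, 0, 0)]
    0x41d0ac99 = true := by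
  decide +kernel

theorem f_2664 (h : TabsF) : FrameF repsF 320 F_2664.f :=
  frame_of rfl c_2664 (runs_of engOK r_2664_0) (by decide +kernel) h.1 h.2

def F_2665 : FrX :=
  ⟨0x482000044040440000c2040020009000182040002012040000880200024002020600050020010400800040888020124008011108300080006004200004,
    0xa0, 1, 0x314350708592a7, 7,
    [(0xa0, 1), (0x538690a2, 4), (0x548790a1, 4), (0x21437690, 4), (0x538690a2, 4), (0x548790a1, 4)],
    [(0x314350708592a7, 7), (0x52608497, 4), (0x527381a0, 4), (0x415293a6, 4), (0x52608497, 4), (0x527381a0, 4)]⟩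

def c_2665 : frmChk tA tA F_2665 = true := by decide +kernel

def r_2665_0 : chkL rootF engF2 tA tA sA_320 sA_320 4 F_2665 [(511, 0, 0)]
    0x107817 = true := by
  decide +kernel

theorem f_2665 (h : TabsF) : FrameF repsF 320 F_2665.f :=
  frame_of rfl c_2665 (runs_of engOK r_2665_0) (by decide +kernel) h.1 h.1

def F_2666 : FrX :=
  ⟨0x1c2102000004044000002041000101000082040888200008000880200002202020600041100008020800404880208440022210006200200202024400010,
    0x0, 0, 0x53637583, 4,
    [(0x0, 0), (0x205386a9, 4), (0x105487a9, 4), (0x214376a9, 4), (0x205386a9, 4), (0x105487a9, 4)],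
    [(0x53637583, 4), (0x20647385, 4), (0x105374a9, 4), (0x547386a9, 4), (0x105374a9, 4), (0x21547683, 4), (0x206584a9, 4), (0x547386a9, 4), (0x206584a9, 4), (0x10437586, 4), (0x547386a9, 4), (0x21547683, 4)]⟩

def c_2666 : frmChk tA tB F_2666 = true := by decide +kernel

def r_2666_0 : chkL rootF engF2 tA tB sA_320 sB_320 4 F_2666 [(255, 0, 0), (256, 0, 12)]
    0x1 = true := by
  decide +kernel

def r_2666_1 : chkL rootF engF2 tA tB sA_320 sB_320 4 F_2666 [(256, 12, 6)]
    0x1 = true := by
  decide +kernel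

def r_2666_2 : chkL rootF engF2 tA tB sA_320 sB_320 4 F_2666 [(256, 18, 7)]
    0x41719915 = true := by
  decide +kernel

def r_2666_3 : chkL rootF engF2 tA tB sA_320 sB_320 4 F_2666 [(256, 25, 0)]
    0x1 = true := by
  decide +kernel

theorem f_2666 (h : TabsF) : FrameF repsF 320 F_2666.f :=
  frame_of rfl c_2666 ((runs_of engOK r_2666_0).append ((runs_of engOK r_2666_1).append ((runs_of engOK r_2666_2).append (runs_of engOK r_2666_3)))) (by decide +kernel) h.1 h.2

def F_2667 : FrX :=
  ⟨0x1c210200000404400000204100010100008204088820000800808000400024202060100102008002080044088005020c108001011100220240004080010,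
    0x0, 0, 0x107583, 3,
    [(0x0, 0), (0x205386a9, 4), (0x105487a9, 4), (0x214376a9, 4), (0x205386a9, 4), (0x105487a9, 4)],
    [(0x107583, 3), (0x216387a9, 4), (0x105374a9, 4), (0x206584a9, 4), (0x216387a9, 4), (0x105374a9, 4)]⟩

def c_2667 : frmChk tA tA F_2667 = true := by decide +kernel

def r_2667_0 : chkL rootF engF2 tA tA sA_320 sA_320 4 F_2667 [(255, 0, 0), (256, 0, 12)]
    0x61984c2b05c17 = true := by
  decide +kernel

def r_2667_1 : chkL rootF engF2 tA tA sA_320 sA_320 4 F_2667 [(256, 12, 7)]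
    0x1 = true := by
  decide +kernel

def r_2667_2 : chkL rootF engF2 tA tA sA_320 sA_320 4 F_2667 [(256, 19, 10)]
    0x1e054505c17856160b4f0198721586a1a874 = true := by
  decide +kernel

def r_2667_3 : chkL rootF engF2 tA tA sA_320 sA_320 4 F_2667 [(256, 29, 0)]
    0x1 = true := by
  decide +kernel

theorem f_2667 (h : TabsF) : FrameF repsF 320 F_2667.f :=
  frame_of rfl c_2667 ((runs_of engOK r_2667_0).append ((runs_of engOK r_2667_1).append ((runs_of engOK r_2667_2).append (runs_of engOK r_2667_3)))) (by decide +kernel) h.1 h.1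

def F_2668 : FrX :=
  ⟨0x80080a000804040e0000210100200100000204088060000440809080004008202002040140008002080080088005020c0000410110009202400c0200010,
    0xa6, 1, 0x203250718696a4, 7,
    [(0xa6, 1), (0x205396a8, 4), (0x10548796, 4), (0x214396a7, 4), (0x205396a8, 4), (0x10548796, 4)],
    [(0x203250718696a4, 7), (0x215390a6, 4), (0x758491a2, 4), (0x216084a9, 4), (0x758491a2, 4), (0x106273a9, 4), (0x538496a0, 4), (0x216084a9, 4), (0x538496a0, 4), (0x607592a1, 4), (0x216084a9, 4), (0x106273a9, 4)]⟩

def c_2668 : frmChk tA tB F_2668 = true := by decide +kernel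

def r_2668_0 : chkL rootF engF2 tA tB sA_320 sB_320 4 F_2668 [(511, 0, 0)]
    0x1 = true := by
  decide +kernel

theorem f_2668 (h : TabsF) : FrameF repsF 320 F_2668.f :=
  frame_of rfl c_2668 (runs_of engOK r_2668_0) (by decide +kernel) h.1 h.2

def F_2669 : FrX :=
  ⟨0x80080a000804040e00002101002001000002040880a00008088082020020208004401000c00080080080800128502400001010040409100240150040000,
    0xa6, 1, 0x2150658191a2, 6,
    [(0xa6, 1), (0x205396a8, 4), (0x10548796, 4), (0x214396a7, 4), (0x205396a8, 4), (0x10548796, 4)],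
    [(0x2150658191a2, 6), (0x304276a5, 4), (0x64708195, 4), (0x32407681, 4), (0x64708195, 4), (0x406273a9, 4), (0x204381a5, 4), (0x32407681, 4), (0x204381a5, 4), (0x32607495, 4), (0x32407681, 4), (0x406273a9, 4)]⟩

def c_2669 : frmChk tA tB F_2669 = true := by decide +kernel

def r_2669_0 : chkL rootF engF2 tA tB sA_320 sB_320 4 F_2669 [(511, 0, 0)]
    0x13445603c0f = true := by
  decide +kernel

theorem f_2669 (h : TabsF) : FrameF repsF 320 F_2669.f :=
  frame_of rfl c_2669 (runs_of engOK r_2669_0) (by decide +kernel) h.1 h.2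

def F_2670 : FrX :=
  ⟨0x482000044040440000c204002000900018204002000050080010020914008400001200002409041080080008c020040204005000000820002110008083,
    0xa0, 1, 0x214154627494a2, 7,
    [(0xa0, 1), (0x538690a2, 4), (0x548790a1, 4), (0x21437690, 4), (0x538690a2, 4), (0x548790a1, 4)],
    [(0x214154627494a2, 7), (0x327681a0, 4), (0x40768592, 4), (0x517693a4, 4), (0x327681a0, 4), (0x40768592, 4)]⟩

def c_2670 : frmChk tA tA F_2670 = true := by decide +kernel

def r_2670_0 : chkL rootF engF2 tA tA sA_320 sA_320 4 F_2670 [(511, 0, 0)]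
    0x10d435 = true := by
  decide +kernel

theorem f_2670 (h : TabsF) : FrameF repsF 320 F_2670.f :=
  frame_of rfl c_2670 (runs_of engOK r_2670_0) (by decide +kernel) h.1 h.1

def F_2671 : FrX :=
  ⟨0x80080a000804040e00002101002001000002040881200002444030000012008010022001400020080040800e010042080020010804100810042028a0000,
    0xa6, 1, 0x1032405373a4, 6,
    [(0xa6, 1), (0x205396a8, 4), (0x10548796, 4), (0x214396a7, 4), (0x205396a8, 4), (0x10548796, 4)],
    [(0x1032405373a4, 6), (0x435276a8, 4), (0x406591a2, 4), (0x528791a6, 4), (0x406591a2, 4), (0x307582a6, 4), (0x438691a7, 4), (0x528791a6, 4), (0x438691a7, 4), (0x406287a5, 4), (0x528791a6, 4), (0x307582a6, 4)]⟩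

def c_2671 : frmChk tA tB F_2671 = true := by decide +kernel

def r_2671_0 : chkL rootF engF2 tA tB sA_320 sB_320 4 F_2671 [(511, 0, 0)]
    0x447154d40781e07447 = true := by
  decide +kernel

theorem f_2671 (h : TabsF) : FrameF repsF 320 F_2671.f :=
  frame_of rfl c_2671 (runs_of engOK r_2671_0) (by decide +kernel) h.1 h.2

def F_2672 : FrX :=
  ⟨0x1c4044000008081000000840080410000101084050100008001008008102000280440082000140200110008211020c00004440c4001000040c018002008,
    0x0, 0, 0x84a9, 2,
    [(0x0, 0), (0x20637584, 4), (0x105476a9, 4), (0x647583a9, 4), (0x105476a9, 4), (0x21647385, 4), (0x204386a9, 4), (0x647583a9, 4), (0x204386a9, 4), (0x10657483, 4), (0x647583a9, 4), (0x21647385, 4)],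
    [(0x84a9, 2), (0x205364a9, 4), (0x107485a9, 4), (0x217683a9, 4), (0x205364a9, 4), (0x107485a9, 4)]⟩

def c_2672 : frmChk tB tA F_2672 = true := by decide +kernel

def r_2672_0 : chkL rootF engF2 tB tA sB_320 sA_320 4 F_2672 [(255, 0, 0), (256, 0, 9)]
    0x1 = true := by
  decide +kernel

def r_2672_1 : chkL rootF engF2 tB tA sB_320 sA_320 4 F_2672 [(256, 9, 5)]
    0x121d0e = true := by
  decide +kernel

def r_2672_2 : chkL rootF engF2 tB tA sB_320 sA_320 4 F_2672 [(256, 14, 0)]
    0x46c = true := by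
  decide +kernel

theorem f_2672 (h : TabsF) : FrameF repsF 320 F_2672.f :=
  frame_of rfl c_2672 ((runs_of engOK r_2672_0).append ((runs_of engOK r_2672_1).append (runs_of engOK r_2672_2))) (by decide +kernel) h.2 h.1

def F_2673 : FrX :=
  ⟨0x1001040012008080000e008408004100081010000420080240104100050000800482020012000088200010120004044880002004120800a0082101000440,
    0xa3, 1, 0x4153627098a3, 6,
    [(0xa3, 1), (0x207584a6, 4), (0x10547693, 4), (0x647593a8, 4), (0x10547693, 4), (0x216485a7, 4), (0x208693a4, 4), (0x647593a8, 4), (0x208693a4, 4), (0x106574a8, 4), (0x647593a8, 4), (0x216485a7, 4)],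
    [(0x4153627098a3, 6), (0x307691a2, 4), (0x20317485, 4), (0x213085a9, 4), (0x20317485, 4), (0x216493a0, 4), (0x768592a1, 4), (0x213085a9, 4), (0x768592a1, 4), (0x103274a9, 4), (0x213085a9, 4), (0x216493a0, 4)]⟩

def c_2673 : frmChk tB tB F_2673 = true := by decide +kernel

def r_2673_0 : chkL rootF engF2 tB tB sB_320 sB_320 4 F_2673 [(511, 0, 0)]
    0x43a2c433 = true := by
  decide +kernel

theorem f_2673 (h : TabsF) : FrameF repsF 320 F_2673.f :=
  frame_of rfl c_2673 (runs_of engOK r_2673_0) (by decide +kernel) h.2 h.2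

def F_2674 : FrX :=
  ⟨0x80080a000804040e00002101002001000002040890020001408008008240004022011010000031000028000828001002024010084001008902080809100,
    0xa6, 1, 0x415464728096a3, 7,
    [(0xa6, 1), (0x205396a8, 4), (0x10548796, 4), (0x214396a7, 4), (0x205396a8, 4), (0x10548796, 4)],
    [(0x415464728096a3, 7), (0x216087a9, 4), (0x53618492, 4), (0x215396a0, 4), (0x53618492, 4), (0x107496a2, 4), (0x538790a6, 4), (0x215396a0, 4), (0x538790a6, 4), (0x628491a0, 4), (0x215396a0, 4), (0x107496a2, 4)]⟩

def c_2674 : frmChk tA tB F_2674 = true := by decide +kernel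

def r_2674_0 : chkL rootF engF2 tA tB sA_320 sB_320 4 F_2674 [(511, 0, 0)]
    0x453 = true := by
  decide +kernel

theorem f_2674 (h : TabsF) : FrameF repsF 320 F_2674.f :=
  frame_of rfl c_2674 (runs_of engOK r_2674_0) (by decide +kernel) h.1 h.2

theorem cl_320 (h : TabsF) : ∀ f ∈ fr_320, FrameF repsF 320 f :=
  List.forall_mem_cons.2 ⟨f_2647 h, List.forall_mem_cons.2 ⟨f_2648 h, List.forall_mem_cons.2 ⟨f_2649 h, List.forall_mem_cons.2 ⟨f_2650 h, List.forall_mem_cons.2 ⟨f_2651 h, List.forall_mem_cons.2 ⟨f_2652 h, List.forall_mem_cons.2 ⟨f_2653 h, List.forall_mem_cons.2 ⟨f_2654 h, List.forall_mem_cons.2 ⟨f_2655 h, List.forall_mem_cons.2 ⟨f_2656 h, List.forall_mem_cons.2 ⟨f_2657 h, List.forall_mem_cons.2 ⟨f_2658 h, List.forall_mem_cons.2 ⟨f_2659 h, List.forall_mem_cons.2 ⟨f_2660 h, List.forall_mem_cons.2 ⟨f_2661 h, List.forall_mem_cons.2 ⟨f_2662 h, List.forall_mem_cons.2 ⟨f_2663 h, List.forall_mem_cons.2 ⟨f_2664 h, List.forall_mem_cons.2 ⟨f_2665 h, List.forall_mem_cons.2 ⟨f_2666 h, List.forall_mem_cons.2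 ⟨f_2667 h, List.forall_mem_cons.2 ⟨f_2668 h, List.forall_mem_cons.2 ⟨f_2669 h, List.forall_mem_cons.2 ⟨f_2670 h, List.forall_mem_cons.2 ⟨f_2671 h, List.forall_mem_cons.2 ⟨f_2672 h, List.forall_mem_cons.2 ⟨f_2673 h, List.forall_mem_cons.2 ⟨f_2674 h,
    fun _ h0 => absurd h0 List.not_mem_nil⟩⟩⟩⟩⟩⟩⟩⟩⟩⟩⟩⟩⟩⟩⟩⟩⟩⟩⟩⟩⟩⟩⟩⟩⟩⟩⟩⟩

def F_2675 : FrX :=
  ⟨0x80080a000804040e000021010020010000020408a0000408080028400880084000180400044021020028001c00208108100800040400901100002600080,
    0xa6, 1, 0x205464768097a3, 7,
    [(0xa6, 1), (0x205396a8, 4), (0x10548796, 4), (0x214396a7, 4), (0x205396a8, 4), (0x10548796, 4)],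
    [(0x205464768097a3, 7), (0x537280a4, 4), (0x53648192, 4), (0x105397a6, 4), (0x537280a4, 4), (0x53648192, 4)]⟩

def c_2675 : frmChk tA tA F_2675 = true := by decide +kernel

def r_2675_0 : chkL rootF engF2 tA tA sA_321 sA_321 4 F_2675 [(511, 0, 0)]
    0x453134e816865 = true := by
  decide +kernel

theorem f_2675 (h : TabsF) : FrameF repsF 321 F_2675.f :=
  frame_of rfl c_2675 (runs_of engOK r_2675_0) (by decide +kernel) h.1 h.1

def F_2676 : FrX :=
  ⟨0x80080a000804040e000021010020010000020408a0000204400204020414008200400040400048180080800380410400201108080000800540202020010,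
    0xa6, 1, 0x103262738194a2, 7,
    [(0xa6, 1), (0x205396a8, 4), (0x10548796, 4), (0x214396a7, 4), (0x205396a8, 4), (0x10548796, 4)],
    [(0x103262738194a2, 7), (0x527390a1, 4), (0x32648195, 4), (0x52647093, 4), (0x32648195, 4), (0x507293a8, 4), (0x306497a1, 4), (0x52647093, 4), (0x306497a1, 4), (0x53708192, 4), (0x52647093, 4), (0x507293a8, 4)]⟩

def c_2676 : frmChk tA tB F_2676 = true := by decide +kernel

def r_2676_0 : chkL rootF engF2 tA tB sA_321 sB_321 4 F_2676 [(511, 0, 0)]
    0x43911c471b071 = true := by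
  decide +kernel

theorem f_2676 (h : TabsF) : FrameF repsF 321 F_2676.f :=
  frame_of rfl c_2676 (runs_of engOK r_2676_0) (by decide +kernel) h.1 h.2

def F_2677 : FrX :=
  ⟨0x482000044040440000c2040020009000182040002010900008020010040048200212020004004020800805880200101084004041200600101024000002,
    0xa0, 1, 0x304053607194a3, 7,
    [(0xa0, 1), (0x538690a2, 4), (0x548790a1, 4), (0x21437690, 4), (0x538690a2, 4), (0x548790a1, 4)],
    [(0x304053607194a3, 7), (0x536284a0, 4), (0x53768190, 4), (0x415372a9, 4), (0x536284a0, 4), (0x53768190, 4)]⟩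

def c_2677 : frmChk tA tA F_2677 = true := by decide +kernel

def r_2677_0 : chkL rootF engF2 tA tA sA_321 sA_321 4 F_2677 [(511, 0, 0)]
    0x103c5a03c0f48d235840f03c0f = true := by
  decide +kernel

theorem f_2677 (h : TabsF) : FrameF repsF 321 F_2677.f :=
  frame_of rfl c_2677 (runs_of engOK r_2677_0) (by decide +kernel) h.1 h.1

def F_2678 : FrX :=
  ⟨0x2002000900044004000e02041000141000800040808001001101020402004040200380000a002810104004060200088000400010204002280010a0020210,
    0xa3, 1, 0x53748795a3, 5,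
    [(0xa3, 1), (0x208693a5, 4), (0x10548793, 4), (0x217693a4, 4), (0x208693a5, 4), (0x10548793, 4)],
    [(0x53748795a3, 5), (0x205364a9, 4), (0x10538497, 4), (0x215386a7, 4), (0x205364a9, 4), (0x10538497, 4)]⟩

def c_2678 : frmChk tA tA F_2678 = true := by decide +kernel

def r_2678_0 : chkL rootF engF2 tA tA sA_321 sA_321 4 F_2678 [(511, 0, 0)]
    0x10ac3903c1703c4e = true := by
  decide +kernel

theorem f_2678 (h : TabsF) : FrameF repsF 321 F_2678.f :=
  frame_of rfl c_2678 (runs_of engOK r_2678_0) (by decide +kernel) h.1 h.1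

def F_2679 : FrX :=
  ⟨0x80080a000804040e000021010020010000020408840810040600040200400820084040008882004100100000222008020210000804100a8002070200200,
    0xa6, 1, 0x2132647082a6, 6,
    [(0xa6, 1), (0x205396a8, 4), (0x10548796, 4), (0x214396a7, 4), (0x205396a8, 4), (0x10548796, 4)],
    [(0x2132647082a6, 6), (0x518794a3, 4), (0x30657294, 4), (0x618294a0, 4), (0x518794a3, 4), (0x30657294, 4)]⟩

def c_2679 : frmChk tA tA F_2679 = true := by decide +kernel

def r_2679_0 : chkL rootF engF2 tA tA sA_321 sA_321 4 F_2679 [(511, 0, 0)]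
    0x41e09c1b05c1b11c5560c1b05c1b = true := by
  decide +kernel

theorem f_2679 (h : TabsF) : FrameF repsF 321 F_2679.f :=
  frame_of rfl c_2679 (runs_of engOK r_2679_0) (by decide +kernel) h.1 h.1

def F_2680 : FrX :=
  ⟨0x482000044040440000c204002000900018204000088204800408010000808800480012000800801004003040c000800218018002028804040104000042,
    0xa0, 1, 0x1031627083a4, 6,
    [(0xa0, 1), (0x538690a2, 4), (0x548790a1, 4), (0x21437690, 4), (0x538690a2, 4), (0x548790a1, 4)],
    [(0x1031627083a4, 6), (0x20768594, 4), (0x107394a5, 4), (0x216394a8, 4), (0x20768594, 4), (0x107394a5, 4)]⟩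

def c_2680 : frmChk tA tA F_2680 = true := by decide +kernel

def r_2680_0 : chkL rootF engF2 tA tA sA_321 sA_321 4 F_2680 [(511, 0, 0)]
    0x106c4b5140f0b84b03c9a2701e2d291a1a19a4694 = true := by
  decide +kernel

theorem f_2680 (h : TabsF) : FrameF repsF 321 F_2680.f :=
  frame_of rfl c_2680 (runs_of engOK r_2680_0) (by decide +kernel) h.1 h.1

def F_2681 : FrX :=
  ⟨0x482000044040440000c2040020009000182040002008242008080004040082800400104101010280400400102001100100002048090000011010808610,
    0xa0, 1, 0x104062708791a1, 7,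
    [(0xa0, 1), (0x538690a2, 4), (0x548790a1, 4), (0x21437690, 4), (0x538690a2, 4), (0x548790a1, 4)],
    [(0x104062708791a1, 7), (0x32417685, 4), (0x518290a7, 4), (0x21438590, 4), (0x518290a7, 4), (0x215483a6, 4), (0x31427690, 4), (0x21438590, 4), (0x31427690, 4), (0x435281a7, 4), (0x21438590, 4), (0x215483a6, 4)]⟩

def c_2681 : frmChk tA tB F_2681 = true := by decide +kernel

def r_2681_0 : chkL rootF engF2 tA tB sA_321 sB_321 4 F_2681 [(511, 0, 0)]
    0x41b2b0ac2b04b09c27 = true := by
  decide +kernel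

theorem f_2681 (h : TabsF) : FrameF repsF 321 F_2681.f :=
  frame_of rfl c_2681 (runs_of engOK r_2681_0) (by decide +kernel) h.1 h.2

def F_2682 : FrX :=
  ⟨0x482000044040440000c204002000900018204000204044800802001001005008008041008000500042002050100100201800a008100220040007800001,
    0xa0, 1, 0x2042647180a3, 6,
    [(0xa0, 1), (0x538690a2, 4), (0x548790a1, 4), (0x21437690, 4), (0x538690a2, 4), (0x548790a1, 4)],
    [(0x2042647180a3, 6), (0x516284a0, 4), (0x10658793, 4), (0x516093a2, 4), (0x10658793, 4), (0x526074a1, 4), (0x208493a6, 4), (0x516093a2, 4), (0x208493a6, 4), (0x506187a2, 4), (0x516093a2, 4), (0x526074a1, 4)]⟩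

def c_2682 : frmChk tA tB F_2682 = true := by decide +kernel

def r_2682_0 : chkL rootF engF2 tA tB sA_321 sB_321 4 F_2682 [(511, 0, 0)]
    0x182c8e82c1e351544d0d455134 = true := by
  decide +kernel

theorem f_2682 (h : TabsF) : FrameF repsF 321 F_2682.f :=
  frame_of rfl c_2682 (runs_of engOK r_2682_0) (by decide +kernel) h.1 h.2

def F_2683 : FrX :=
  ⟨0x482000044040440000c204002000900018204000040a020804080200080088004022020008011220000420404000108018010001900100101140040042,
    0xa0, 1, 0x5364728190a0, 6,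
    [(0xa0, 1), (0x538690a2, 4), (0x548790a1, 4), (0x21437690, 4), (0x538690a2, 4), (0x548790a1, 4)],
    [(0x5364728190a0, 6), (0x415390a7, 4), (0x216390a8, 4), (0x42658790, 4), (0x415390a7, 4), (0x216390a8, 4)]⟩

def c_2683 : frmChk tA tA F_2683 = true := by decide +kernel

def r_2683_0 : chkL rootF engF2 tA tA sA_321 sA_321 4 F_2683 [(511, 0, 0)]
    0x433158691705c11e85b103311c1e06c330cc1d0d83c0d80f = true := by
  decide +kernel

theorem f_2683 (h : TabsF) : FrameF repsF 321 F_2683.f :=
  frame_of rfl c_2683 (runs_of engOK r_2683_0) (by decide +kernel) h.1 h.1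

def F_2684 : FrX :=
  ⟨0x2002000900044004000e02041000141000800040810000081108002008820301200008010000620204040421010008000241020002201018020020008084,
    0xa3, 1, 0x106297a3, 4,
    [(0xa3, 1), (0x208693a5, 4), (0x10548793, 4), (0x217693a4, 4), (0x208693a5, 4), (0x10548793, 4)],
    [(0x106297a3, 4), (0x617382a5, 4), (0x10547398, 4), (0x607392a4, 4), (0x617382a5, 4), (0x10547398, 4)]⟩

def c_2684 : frmChk tA tA F_2684 = true := by decide +kernel

def r_2684_0 : chkL rootF engF2 tA tA sA_321 sA_321 4 F_2684 [(511, 0, 0)]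
    0x11988d28c2b03c368c8350ac1e0741dc6132 = true := by
  decide +kernel

theorem f_2684 (h : TabsF) : FrameF repsF 321 F_2684.f :=
  frame_of rfl c_2684 (runs_of engOK r_2684_0) (by decide +kernel) h.1 h.1

def F_2685 : FrX :=
  ⟨0x80080a000804040e000021010020010000020408a000080804040042088008030012001088004103000800040110204000100a000400101188202440000,
    0xa6, 1, 0x215361738594a1, 7,
    [(0xa6, 1), (0x205396a8, 4), (0x10548796, 4), (0x214396a7, 4), (0x205396a8, 4), (0x10548796, 4)],
    [(0x215361738594a1, 7), (0x10326487, 4), (0x536498a0, 4), (0x526497a1, 4), (0x10326487, 4), (0x536498a0, 4)]⟩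

def c_2685 : frmChk tA tA F_2685 = true := by decide +kernel

def r_2685_0 : chkL rootF engF2 tA tA sA_321 sA_321 4 F_2685 [(511, 0, 0)]
    0x106c0f0742d06c17 = true := by
  decide +kernel

theorem f_2685 (h : TabsF) : FrameF repsF 321 F_2685.f :=
  frame_of rfl c_2685 (runs_of engOK r_2685_0) (by decide +kernel) h.1 h.1

def F_2686 : FrX :=
  ⟨0x80080a000804040e00002101002001000002040882010204020004100c80002000084050020601000048001012200040300101001000c1c020005080000,
    0xa6, 1, 0x103064738193a4, 7,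
    [(0xa6, 1), (0x205396a8, 4), (0x10548796, 4), (0x214396a7, 4), (0x205396a8, 4), (0x10548796, 4)],
    [(0x103064738193a4, 7), (0x32407695, 4), (0x107683a5, 4), (0x417682a9, 4), (0x32407695, 4), (0x107683a5, 4)]⟩

def c_2686 : frmChk tA tA F_2686 = true := by decide +kernel

def r_2686_0 : chkL rootF engF2 tA tA sA_321 sA_321 4 F_2686 [(511, 0, 0)]
    0x43c0f06c22c3311c270e82d03d8ae081e = true := by
  decide +kernel

theorem f_2686 (h : TabsF) : FrameF repsF 321 F_2686.f :=
  frame_of rfl c_2686 (runs_of engOK r_2686_0) (by decide +kernel) h.1 h.1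

def F_2687 : FrX :=
  ⟨0x482000044040440000c204002000900018204002000400280008a100080180804020000101011010042009102001408300002048080800100010200201,
    0xa0, 1, 0x3052647598a2, 6,
    [(0xa0, 1), (0x538690a2, 4), (0x548790a1, 4), (0x21437690, 4), (0x538690a2, 4), (0x548790a1, 4)],
    [(0x3052647598a2, 6), (0x407296a3, 4), (0x31427685, 4), (0x64728590, 4), (0x31427685, 4), (0x206497a1, 4), (0x608594a3, 4), (0x64728590, 4), (0x608594a3, 4), (0x31627490, 4), (0x64728590, 4), (0x206497a1, 4)]⟩

def c_2687 : frmChk tA tB F_2687 = true := by decide +kernel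

def r_2687_0 : chkL rootF engF2 tA tB sA_321 sB_321 4 F_2687 [(511, 0, 0)]
    0x10ac27 = true := by
  decide +kernel

theorem f_2687 (h : TabsF) : FrameF repsF 321 F_2687.f :=
  frame_of rfl c_2687 (runs_of engOK r_2687_0) (by decide +kernel) h.1 h.2

def F_2688 : FrX :=
  ⟨0x1001040012008080000e0084080041000810100004200810011020000420200800830200202020104082208002800890004000080a020000882400210200,
    0xa3, 1, 0x4060738795a8, 6,
    [(0xa3, 1), (0x207584a6, 4), (0x10547693, 4), (0x647593a8, 4), (0x10547693, 4), (0x216485a7, 4), (0x208693a4, 4), (0x647593a8, 4), (0x208693a4, 4), (0x106574a8, 4), (0x647593a8, 4), (0x216485a7, 4)],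
    [(0x4060738795a8, 6), (0x536297a4, 4), (0x536190a8, 4), (0x21537084, 4), (0x536297a4, 4), (0x536190a8, 4)]⟩

def c_2688 : frmChk tB tA F_2688 = true := by decide +kernel

def r_2688_0 : chkL rootF engF2 tB tA sB_321 sA_321 4 F_2688 [(511, 0, 0)]
    0x10742b8581b30cc91d0b8629896a08b05e130e40f0d40f2945c = true := by
  decide +kernel

theorem f_2688 (h : TabsF) : FrameF repsF 321 F_2688.f :=
  frame_of rfl c_2688 (runs_of engOK r_2688_0) (by decide +kernel) h.2 h.1

def F_2689 : FrX :=
  ⟨0x1001040012008080000e0084080041000810100004200810011020000601200004820200b02000104000208002840800004000880a000088882410200040,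
    0xa3, 1, 0x5060768296a7, 6,
    [(0xa3, 1), (0x207584a6, 4), (0x10547693, 4), (0x647593a8, 4), (0x10547693, 4), (0x216485a7, 4), (0x208693a4, 4), (0x647593a8, 4), (0x208693a4, 4), (0x106574a8, 4), (0x647593a8, 4), (0x216485a7, 4)],
    [(0x5060768296a7, 6), (0x30758692, 4), (0x406175a2, 4), (0x437581a9, 4), (0x30758692, 4), (0x406175a2, 4)]⟩

def c_2689 : frmChk tB tA F_2689 = true := by decide +kernel

def r_2689_0 : chkL rootF engF2 tB tA sB_321 sA_321 4 F_2689 [(511, 0, 0)]
    0x103c3309cac2a417 = true := by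
  decide +kernel

theorem f_2689 (h : TabsF) : FrameF repsF 321 F_2689.f :=
  frame_of rfl c_2689 (runs_of engOK r_2689_0) (by decide +kernel) h.2 h.1

def F_2690 : FrX :=
  ⟨0x600020801080810000c0040180410101001004010008014400010084821002008002010002230200404102000001022088800200200001040800210308,
    0xa0, 1, 0x314152617183a0, 7,
    [(0xa0, 1), (0x637584a2, 4), (0x547690a1, 4), (0x64758390, 4), (0x547690a1, 4), (0x21647385, 4), (0x438690a2, 4), (0x64758390, 4), (0x438690a2, 4), (0x657483a1, 4), (0x64758390, 4), (0x21647385, 4)],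
    [(0x314152617183a0, 7), (0x418290a5, 4), (0x326190a7, 4), (0x64758390, 4), (0x418290a5, 4), (0x326190a7, 4)]⟩

def c_2690 : frmChk tB tA F_2690 = true := by decide +kernel

def r_2690_0 : chkL rootF engF2 tB tA sB_321 sA_321 4 F_2690 [(511, 0, 0)]
    0x5890ac590e4390e41b0e8b10b5890e40f = true := by
  decide +kernel

theorem f_2690 (h : TabsF) : FrameF repsF 321 F_2690.f :=
  frame_of rfl c_2690 (runs_of engOK r_2690_0) (by decide +kernel) h.2 h.1

def F_2691 : FrX :=
  ⟨0x600020801080810000c0040180410101001004001014008000201040820800404800120000220084040110128000420308080400024000004042011002,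
    0xa0, 1, 0x305161738094a1, 7,
    [(0xa0, 1), (0x637584a2, 4), (0x547690a1, 4), (0x64758390, 4), (0x547690a1, 4), (0x21647385, 4), (0x438690a2, 4), (0x64758390, 4), (0x438690a2, 4), (0x657483a1, 4), (0x64758390, 4), (0x21647385, 4)],
    [(0x305161738094a1, 7), (0x53647182, 4), (0x306491a8, 4), (0x506497a2, 4), (0x53647182, 4), (0x306491a8, 4)]⟩

def c_2691 : frmChk tB tA F_2691 = true := by decide +kernel

def r_2691_0 : chkL rootF engF2 tB tA sB_321 sA_321 4 F_2691 [(511, 0, 0)]
    0x10ac2790e520ea38458270782e0ba150ae230d499 = true := by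
  decide +kernel

theorem f_2691 (h : TabsF) : FrameF repsF 321 F_2691.f :=
  frame_of rfl c_2691 (runs_of engOK r_2691_0) (by decide +kernel) h.2 h.1

def F_2692 : FrX :=
  ⟨0x1001040012008080000e00840800410008101000048010004204200006000c0004a040020010030040044804c00000210010801008240400304000200084,
    0xa3, 1, 0x3041618197a0, 6,
    [(0xa3, 1), (0x207584a6, 4), (0x10547693, 4), (0x647593a8, 4), (0x10547693, 4), (0x216485a7, 4), (0x208693a4, 4), (0x647593a8, 4), (0x208693a4, 4), (0x106574a8, 4), (0x647593a8, 4), (0x216485a7, 4)],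
    [(0x3041618197a0, 6), (0x406195a2, 4), (0x517394a8, 4), (0x41607395, 4), (0x517394a8, 4), (0x41658290, 4), (0x106473a2, 4), (0x41607395, 4), (0x106473a2, 4), (0x546091a8, 4), (0x41607395, 4), (0x41658290, 4)]⟩

def c_2692 : frmChk tB tB F_2692 = true := by decide +kernel

def r_2692_0 : chkL rootF engF2 tB tB sB_321 sB_321 4 F_2692 [(511, 0, 0)]
    0x43a1e0364c8e4b10cc0ac2b1a42b1984b = true := by
  decide +kernel

theorem f_2692 (h : TabsF) : FrameF repsF 321 F_2692.f :=
  frame_of rfl c_2692 (runs_of engOK r_2692_0) (by decide +kernel) h.2 h.2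

def F_2693 : FrX :=
  ⟨0x80080a000804040e000021010020010000020408a000100110040080902020040488000002e000112010000014102801004000006001048000824604000,
    0xa6, 1, 0x3040718698a0, 6,
    [(0xa6, 1), (0x205396a8, 4), (0x10548796, 4), (0x214396a7, 4), (0x205396a8, 4), (0x10548796, 4)],
    [(0x3040718698a0, 6), (0x506498a2, 4), (0x536491a7, 4), (0x30647281, 4), (0x506498a2, 4), (0x536491a7, 4)]⟩

def c_2693 : frmChk tA tA F_2693 = true := by decide +kernel

def r_2693_0 : chkL rootF engF2 tA tA sA_321 sA_321 4 F_2693 [(511, 0, 0)]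
    0x11701e0782b0781e0740f1680f = true := by
  decide +kernel

theorem f_2693 (h : TabsF) : FrameF repsF 321 F_2693.f :=
  frame_of rfl c_2693 (runs_of engOK r_2693_0) (by decide +kernel) h.1 h.1

def F_2694 : FrX :=
  ⟨0x482000044040440000c2040020009000182040020000448000100110010c10008080400400085020024020501001802004028200100200050002804001,
    0xa0, 1, 0x213143718093a8, 7,
    [(0xa0, 1), (0x538690a2, 4), (0x548790a1, 4), (0x21437690, 4), (0x538690a2, 4), (0x548790a1, 4)],
    [(0x213143718093a8, 7), (0x408195a6, 4), (0x405287a3, 4), (0x40637192, 4), (0x408195a6, 4), (0x405287a3, 4)]⟩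

def c_2694 : frmChk tA tA F_2694 = true := by decide +kernel

def r_2694_0 : chkL rootF engF2 tA tA sA_321 sA_321 4 F_2694 [(511, 0, 0)]
    0x107a520e42e8d09c8b08e2688e4b12c2720e26a1c22c9c8e01e0786a2688e14c5694a0e09c2d0782d0b417 = true := by
  decide +kernel

theorem f_2694 (h : TabsF) : FrameF repsF 321 F_2694.f :=
  frame_of rfl c_2694 (runs_of engOK r_2694_0) (by decide +kernel) h.1 h.1

def F_2695 : FrX :=
  ⟨0x482000044040440000c2040020009000182040001081020001200020020101012000520001040082020404203000408040208080450100004400800440,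
    0xa0, 1, 0x214262728093a8, 7,
    [(0xa0, 1), (0x538690a2, 4), (0x548790a1, 4), (0x21437690, 4), (0x538690a2, 4), (0x548790a1, 4)],
    [(0x214262728093a8, 7), (0x308795a4, 4), (0x305182a6, 4), (0x30647291, 4), (0x308795a4, 4), (0x305182a6, 4)]⟩

def c_2695 : frmChk tA tA F_2695 = true := by decide +kernel

def r_2695_0 : chkL rootF engF2 tA tA sA_321 sA_321 4 F_2695 [(511, 0, 0)]
    0x109de012c0f = true := by
  decide +kernel

theorem f_2695 (h : TabsF) : FrameF repsF 321 F_2695.f :=
  frame_of rfl c_2695 (runs_of engOK r_2695_0) (by decide +kernel) h.1 h.1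

def F_2696 : FrX :=
  ⟨0x80080a000804040e0000210100200100000204088104020202000810001200404208005002004100024800101220004036000001100060c000005082000,
    0xa6, 1, 0x3141528294a8, 6,
    [(0xa6, 1), (0x205396a8, 4), (0x10548796, 4), (0x214396a7, 4), (0x205396a8, 4), (0x10548796, 4)],
    [(0x3141528294a8, 6), (0x617280a9, 4), (0x40537692, 4), (0x537296a1, 4), (0x40537692, 4), (0x718496a2, 4), (0x538091a6, 4), (0x537296a1, 4), (0x538091a6, 4), (0x406297a1, 4), (0x537296a1, 4), (0x718496a2, 4)]⟩

def c_2696 : frmChk tA tB F_2696 = true := by decide +kernel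

def r_2696_0 : chkL rootF engF2 tA tB sA_321 sB_321 4 F_2696 [(511, 0, 0)]
    0x41d05c591341d4701d = true := by
  decide +kernel

theorem f_2696 (h : TabsF) : FrameF repsF 321 F_2696.f :=
  frame_of rfl c_2696 (runs_of engOK r_2696_0) (by decide +kernel) h.1 h.2

def F_2697 : FrX :=
  ⟨0x80080a000804040e00002101002001000002040882080400090034000400208000013000c00010220000801380410500005040041000408100904040000,
    0xa6, 1, 0x2132425363708494a6, 9,
    [(0xa6, 1), (0x205396a8, 4), (0x10548796, 4), (0x214396a7, 4), (0x205396a8, 4), (0x10548796, 4)],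
    [(0x2132425363708494a6, 9), (0x617485a3, 4), (0x30728591, 4), (0x428596a0, 4), (0x617485a3, 4), (0x30728591, 4)]⟩

def c_2697 : frmChk tA tA F_2697 = true := by decide +kernel

def r_2697_0 : chkL rootF engF2 tA tA sA_321 sA_321 4 F_2697 [(511, 0, 0)]
    0x114c4b06c1e9a02e09d2a0780f = true := by
  decide +kernel

theorem f_2697 (h : TabsF) : FrameF repsF 321 F_2697.f :=
  frame_of rfl c_2697 (runs_of engOK r_2697_0) (by decide +kernel) h.1 h.1

def F_2698 : FrX :=
  ⟨0x482000044040440000c204002000900018204000041030080810001004004420001201008004023080080008101004021000a00820840000402000840c,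
    0xa0, 1, 0x53627481a0, 5,
    [(0xa0, 1), (0x538690a2, 4), (0x548790a1, 4), (0x21437690, 4), (0x538690a2, 4), (0x548790a1, 4)],
    [(0x53627481a0, 5), (0x215390a6, 4), (0x417390a8, 4), (0x42758690, 4), (0x215390a6, 4), (0x417390a8, 4)]⟩

def c_2698 : frmChk tA tA F_2698 = true := by decide +kernel

def r_2698_0 : chkL rootF engF2 tA tA sA_321 sA_321 4 F_2698 [(511, 0, 0)]
    0x417 = true := by
  decide +kernel

theorem f_2698 (h : TabsF) : FrameF repsF 321 F_2698.f :=
  frame_of rfl c_2698 (runs_of engOK r_2698_0) (by decide +kernel) h.1 h.1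

def F_2699 : FrX :=
  ⟨0x482000044040440000c2040020009000182040000822108008020080010108010020410100008200800009880210040240005010208404001802800008,
    0xa0, 1, 0x3150627586a4, 6,
    [(0xa0, 1), (0x538690a2, 4), (0x548790a1, 4), (0x21437690, 4), (0x538690a2, 4), (0x548790a1, 4)],
    [(0x3150627586a4, 6), (0x657081a2, 4), (0x538094a7, 4), (0x217094a8, 4), (0x538094a7, 4), (0x106372a8, 4), (0x658294a1, 4), (0x217094a8, 4), (0x658294a1, 4), (0x215387a0, 4), (0x217094a8, 4), (0x106372a8, 4)]⟩

def c_2699 : frmChk tA tB F_2699 = true := by decide +kernel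

def r_2699_0 : chkL rootF engF2 tA tB sA_321 sB_321 4 F_2699 [(511, 0, 0)]
    0x13602d03c0f30c1e = true := by
  decide +kernel

theorem f_2699 (h : TabsF) : FrameF repsF 321 F_2699.f :=
  frame_of rfl c_2699 (runs_of engOK r_2699_0) (by decide +kernel) h.1 h.2

def F_2700 : FrX :=
  ⟨0x2002000900044004000e020410001410008000408008020108200100080408820210040040240010100402820014008002840080220808011000800080c0,
    0xa3, 1, 0x4054648196a0, 6,
    [(0xa3, 1), (0x208693a5, 4), (0x10548793, 4), (0x217693a4, 4), (0x208693a5, 4), (0x10548793, 4)],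
    [(0x4054648196a0, 6), (0x305491a2, 4), (0x546071a8, 4), (0x54638297, 4), (0x305491a2, 4), (0x546071a8, 4)]⟩

def c_2700 : frmChk tA tA F_2700 = true := by decide +kernel

def r_2700_0 : chkL rootF engF2 tA tA sA_321 sA_321 4 F_2700 [(511, 0, 0)]
    0x44e0cc4d0ea3206c870b8651b03324c93 = true := by
  decide +kernel

theorem f_2700 (h : TabsF) : FrameF repsF 321 F_2700.f :=
  frame_of rfl c_2700 (runs_of engOK r_2700_0) (by decide +kernel) h.1 h.1

def F_2701 : FrX :=
  ⟨0x482000044040440000c2040020009000182040010020082001000180080101810030000804a010100000484011088000140010004800c0014110004004,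
    0xa0, 1, 0x60748395a6, 5,
    [(0xa0, 1), (0x538690a2, 4), (0x548790a1, 4), (0x21437690, 4), (0x538690a2, 4), (0x548790a1, 4)],
    [(0x60748395a6, 5), (0x627394a8, 4), (0x506197a4, 4), (0x508394a7, 4), (0x506197a4, 4), (0x218493a7, 4), (0x506287a3, 4), (0x508394a7, 4), (0x506287a3, 4), (0x617483a9, 4), (0x508394a7, 4), (0x218493a7, 4)]⟩

def c_2701 : frmChk tA tB F_2701 = true := by decide +kernel

def r_2701_0 : chkL rootF engF2 tA tB sA_321 sB_321 4 F_2701 [(511, 0, 0)]
    0x487 = true := by
  decide +kernel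

theorem f_2701 (h : TabsF) : FrameF repsF 321 F_2701.f :=
  frame_of rfl c_2701 (runs_of engOK r_2701_0) (by decide +kernel) h.1 h.2

def F_2702 : FrX :=
  ⟨0x80080a000804040e00002101002001000002040886420400020004000080208008013008400010208000801100500101004046240182000100910040000,
    0xa6, 1, 0x314264748696a6, 7,
    [(0xa6, 1), (0x205396a8, 4), (0x10548796, 4), (0x214396a7, 4), (0x205396a8, 4), (0x10548796, 4)],
    [(0x314264748696a6, 7), (0x406572a1, 4), (0x307598a6, 4), (0x216598a7, 4), (0x307598a6, 4), (0x435261a7, 4), (0x407198a2, 4), (0x216598a7, 4), (0x407198a2, 4), (0x213076a5, 4), (0x216598a7, 4), (0x435261a7, 4)]⟩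

def c_2702 : frmChk tA tB F_2702 = true := by decide +kernel

def r_2702_0 : chkL rootF engF2 tA tB sA_321 sB_321 4 F_2702 [(511, 0, 0)]
    0x46a09c4d = true := by
  decide +kernel

theorem f_2702 (h : TabsF) : FrameF repsF 321 F_2702.f :=
  frame_of rfl c_2702 (runs_of engOK r_2702_0) (by decide +kernel) h.1 h.2

theorem cl_321 (h : TabsF) : ∀ f ∈ fr_321, FrameF repsF 321 f :=
  List.forall_mem_cons.2 ⟨f_2675 h, List.forall_mem_cons.2 ⟨f_2676 h, List.forall_mem_cons.2 ⟨f_2677 h, List.forall_mem_cons.2 ⟨f_2678 h, List.forall_mem_cons.2 ⟨f_2679 h, List.forall_mem_cons.2 ⟨f_2680 h, List.forall_mem_cons.2 ⟨f_2681 h, List.forall_mem_cons.2 ⟨f_2682 h, List.forall_mem_cons.2 ⟨f_2683 h, List.forall_mem_cons.2 ⟨f_2684 h, List.forall_mem_cons.2 ⟨f_2685 h, List.forall_mem_cons.2 ⟨f_2686 h, List.forall_mem_cons.2 ⟨f_2687 h, List.forall_mem_cons.2 ⟨f_2688 h, List.forall_mem_cons.2 ⟨f_2689 h, List.forall_mem_cons.2 ⟨f_2690 h, List.forall_mem_cons.2 ⟨f_2691 h, List.forall_mem_cons.2 ⟨f_2692 h, List.forall_mem_cons.2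 ⟨f_2693 h, List.forall_mem_cons.2 ⟨f_2694 h, List.forall_mem_cons.2 ⟨f_2695 h, List.forall_mem_cons.2 ⟨f_2696 h, List.forall_mem_cons.2 ⟨f_2697 h, List.forall_mem_cons.2 ⟨f_2698 h, List.forall_mem_cons.2 ⟨f_2699 h, List.forall_mem_cons.2 ⟨f_2700 h, List.forall_mem_cons.2 ⟨f_2701 h, List.forall_mem_cons.2 ⟨f_2702 h,
    fun _ h0 => absurd h0 List.not_mem_nil⟩⟩⟩⟩⟩⟩⟩⟩⟩⟩⟩⟩⟩⟩⟩⟩⟩⟩⟩⟩⟩⟩⟩⟩⟩⟩⟩⟩

def F_2703 : FrX :=
  ⟨0x2002000900044004000e02041000141000800040801000228000c00201040080041400120002900042020810820000802004202000441000440404080050,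
    0xa3, 1, 0x2142658698a2, 6,
    [(0xa3, 1), (0x208693a5, 4), (0x10548793, 4), (0x217693a4, 4), (0x208693a5, 4), (0x10548793, 4)],
    [(0x2142658698a2, 6), (0x546398a0, 4), (0x20546197, 4), (0x315487a2, 4), (0x546398a0, 4), (0x20546197, 4)]⟩

def c_2703 : frmChk tA tA F_2703 = true := by decide +kernel

def r_2703_0 : chkL rootF engF2 tA tA sA_322 sA_322 4 F_2703 [(511, 0, 0)]
    0x41e16863324391382d0f0a91d04e2a8930b46c24cb12a4b42c46c = true := by
  decide +kernel

theorem f_2703 (h : TabsF) : FrameF repsF 322 F_2703.f :=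
  frame_of rfl c_2703 (runs_of engOK r_2703_0) (by decide +kernel) h.1 h.1

def F_2704 : FrX :=
  ⟨0x482000044040440000c2040020009000182040001101002004020200000884202010120002020002300111088000800284000222050104000080012002,
    0xa0, 1, 0x405260768291a7, 7,
    [(0xa0, 1), (0x538690a2, 4), (0x548790a1, 4), (0x21437690, 4), (0x538690a2, 4), (0x548790a1, 4)],
    [(0x405260768291a7, 7), (0x32417586, 4), (0x204196a5, 4), (0x304198a7, 4), (0x32417586, 4), (0x204196a5, 4)]⟩

def c_2704 : frmChk tA tA F_2704 = true := by decide +kernel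

def r_2704_0 : chkL rootF engF2 tA tA sA_322 sA_322 4 F_2704 [(511, 0, 0)]
    0x41d0743c03c0f = true := by
  decide +kernel

theorem f_2704 (h : TabsF) : FrameF repsF 322 F_2704.f :=
  frame_of rfl c_2704 (runs_of engOK r_2704_0) (by decide +kernel) h.1 h.1

def F_2705 : FrX :=
  ⟨0x482000044040440000c2040020009000182040020001042000200030010c0200a010000082020242111000002201802080000284090000000800212480,
    0xa0, 1, 0x213161728798a5, 7,
    [(0xa0, 1), (0x538690a2, 4), (0x548790a1, 4), (0x21437690, 4), (0x538690a2, 4), (0x548790a1, 4)],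
    [(0x213161728798a5, 7), (0x517093a2, 4), (0x516098a4, 4), (0x42517683, 4), (0x517093a2, 4), (0x516098a4, 4)]⟩

def c_2705 : frmChk tA tA F_2705 = true := by decide +kernel

def r_2705_0 : chkL rootF engF2 tA tA sA_322 sA_322 4 F_2705 [(511, 0, 0)]
    0x4ac06c2e0781e = true := by
  decide +kernel

theorem f_2705 (h : TabsF) : FrameF repsF 322 F_2705.f :=
  frame_of rfl c_2705 (runs_of engOK r_2705_0) (by decide +kernel) h.1 h.1

def F_2706 : FrX :=
  ⟨0x482000044040440000c204002000900018204000101108800402020002081001001012000202000a005200400200800284000222050101004000016002,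
    0xa0, 1, 0x1040526174a3, 6,
    [(0xa0, 1), (0x538690a2, 4), (0x548790a1, 4), (0x21437690, 4), (0x538690a2, 4), (0x548790a1, 4)],
    [(0x1040526174a3, 6), (0x215487a0, 4), (0x10647293, 4), (0x217093a8, 4), (0x10647293, 4), (0x657082a1, 4), (0x548093a7, 4), (0x217093a8, 4), (0x548093a7, 4), (0x206471a8, 4), (0x217093a8, 4), (0x657082a1, 4)]⟩

def c_2706 : frmChk tA tB F_2706 = true := by decide +kernel

def r_2706_0 : chkL rootF engF2 tA tB sA_322 sB_322 4 F_2706 [(511, 0, 0)]
    0x41b9181d0741d = true := by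
  decide +kernel

theorem f_2706 (h : TabsF) : FrameF repsF 322 F_2706.f :=
  frame_of rfl c_2706 (runs_of engOK r_2706_0) (by decide +kernel) h.1 h.2

def F_2707 : FrX :=
  ⟨0x80080a000804040e000021010020010000020408a000200030002840041401004002040010200880a208001008402801048000006002004000802223000,
    0xa6, 1, 0x324250618692a1, 7,
    [(0xa6, 1), (0x205396a8, 4), (0x10548796, 4), (0x214396a7, 4), (0x205396a8, 4), (0x10548796, 4)],
    [(0x324250618692a1, 7), (0x31708295, 4), (0x306487a5, 4), (0x21647083, 4), (0x306487a5, 4), (0x107283a9, 4), (0x32648195, 4), (0x21647083, 4), (0x32648195, 4), (0x217380a5, 4), (0x21647083, 4), (0x107283a9, 4)]⟩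

def c_2707 : frmChk tA tB F_2707 = true := by decide +kernel

def r_2707_0 : chkL rootF engF2 tA tB sA_322 sB_322 4 F_2707 [(511, 0, 0)]
    0x12580f = true := by
  decide +kernel

theorem f_2707 (h : TabsF) : FrameF repsF 322 F_2707.f :=
  frame_of rfl c_2707 (runs_of engOK r_2707_0) (by decide +kernel) h.1 h.2

def F_2708 : FrX :=
  ⟨0x80080a000804040e00002101002001000002040881012000220008100024001440800040a02800842010000020600802040040011002200202020825000,
    0xa6, 1, 0x204162748492a1, 7,
    [(0xa6, 1), (0x205396a8, 4), (0x10548796, 4), (0x214396a7, 4), (0x205396a8, 4), (0x10548796, 4)],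
    [(0x204162748492a1, 7), (0x53647092, 4), (0x647185a2, 4), (0x106483a9, 4), (0x53647092, 4), (0x647185a2, 4)]⟩

def c_2708 : frmChk tA tA F_2708 = true := by decide +kernel

def r_2708_0 : chkL rootF engF2 tA tA sA_322 sA_322 4 F_2708 [(511, 0, 0)]
    0x41e11c961645305e5105e1c = true := by
  decide +kernel

theorem f_2708 (h : TabsF) : FrameF repsF 322 F_2708.f :=
  frame_of rfl c_2708 (runs_of engOK r_2708_0) (by decide +kernel) h.1 h.1

def F_2709 : FrX :=
  ⟨0x80080a000804040e000021010020010000020408a0002000300028400414010040020400202182002020800920002801040000040502000404002225000,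
    0xa6, 1, 0x104152607691a0, 7,
    [(0xa6, 1), (0x205396a8, 4), (0x10548796, 4), (0x214396a7, 4), (0x205396a8, 4), (0x10548796, 4)],
    [(0x104152607691a0, 7), (0x217380a5, 4), (0x206471a9, 4), (0x21647083, 4), (0x206471a9, 4), (0x31708295, 4), (0x306487a5, 4), (0x21647083, 4), (0x306487a5, 4), (0x107283a9, 4), (0x21647083, 4), (0x31708295, 4)]⟩

def c_2709 : frmChk tA tB F_2709 = true := by decide +kernel

def r_2709_0 : chkL rootF engF2 tA tB sA_322 sB_322 4 F_2709 [(511, 0, 0)]
    0x198847 = true := by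
  decide +kernel

theorem f_2709 (h : TabsF) : FrameF repsF 322 F_2709.f :=
  frame_of rfl c_2709 (runs_of engOK r_2709_0) (by decide +kernel) h.1 h.2

def F_2710 : FrX :=
  ⟨0x482000044040440000c2040020009000182040001080820801020800020108200400040a0820200008104100200880004000010a002182100100600084,
    0xa0, 1, 0x102031436280a8, 7,
    [(0xa0, 1), (0x538690a2, 4), (0x548790a1, 4), (0x21437690, 4), (0x538690a2, 4), (0x548790a1, 4)],
    [(0x102031436280a8, 7), (0x548692a1, 4), (0x508392a7, 4), (0x40637192, 4), (0x548692a1, 4), (0x508392a7, 4)]⟩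

def c_2710 : frmChk tA tA F_2710 = true := by decide +kernel

def r_2710_0 : chkL rootF engF2 tA tA sA_322 sA_322 4 F_2710 [(511, 0, 0)]
    0x10b80f0740f03c0f = true := by
  decide +kernel

theorem f_2710 (h : TabsF) : FrameF repsF 322 F_2710.f :=
  frame_of rfl c_2710 (runs_of engOK r_2710_0) (by decide +kernel) h.1 h.1

def F_2711 : FrX :=
  ⟨0x482000044040440000c2040020009000182040020002080100100208080422008022009090020120000040c08020001001002150010202010210080001,
    0xa0, 1, 0x415260718196a5, 7,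
    [(0xa0, 1), (0x538690a2, 4), (0x548790a1, 4), (0x21437690, 4), (0x538690a2, 4), (0x548790a1, 4)],
    [(0x415260718196a5, 7), (0x206597a3, 4), (0x207486a1, 4), (0x20318594, 4), (0x206597a3, 4), (0x207486a1, 4)]⟩

def c_2711 : frmChk tA tA F_2711 = true := by decide +kernel

def r_2711_0 : chkL rootF engF2 tA tA sA_322 sA_322 4 F_2711 [(511, 0, 0)]
    0x10782b0ac36 = true := by
  decide +kernel

theorem f_2711 (h : TabsF) : FrameF repsF 322 F_2711.f :=
  frame_of rfl c_2711 (runs_of engOK r_2711_0) (by decide +kernel) h.1 h.1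

def F_2712 : FrX :=
  ⟨0x2002000900044004000e0204100014100080004082004202008040011020a000020204000104006000881012001010403000088080001040600220081001,
    0xa3, 1, 0x3043517281a2, 6,
    [(0xa3, 1), (0x208693a5, 4), (0x10548793, 4), (0x217693a4, 4), (0x208693a5, 4), (0x10548793, 4)],
    [(0x3043517281a2, 6), (0x215064a3, 4), (0x10628397, 4), (0x21546097, 4), (0x10628397, 4), (0x425160a8, 4), (0x406597a3, 4), (0x21546097, 4), (0x406597a3, 4), (0x20546183, 4), (0x21546097, 4), (0x425160a8, 4)]⟩

def c_2712 : frmChk tA tB F_2712 = true := by decide +kernel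

def r_2712_0 : chkL rootF engF2 tA tB sA_322 sB_322 4 F_2712 [(511, 0, 0)]
    0x10ac270e92c09c4e = true := by
  decide +kernel

theorem f_2712 (h : TabsF) : FrameF repsF 322 F_2712.f :=
  frame_of rfl c_2712 (runs_of engOK r_2712_0) (by decide +kernel) h.1 h.2

def F_2713 : FrX :=
  ⟨0x80080a000804040e000021010020010000020408901000181080080084002020210004040040048008900001011230000040080222000017000c0808000,
    0xa6, 1, 0x102131507183a0, 7,
    [(0xa6, 1), (0x205396a8, 4), (0x10548796, 4), (0x214396a7, 4), (0x205396a8, 4), (0x10548796, 4)],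
    [(0x102131507183a0, 7), (0x314286a0, 4), (0x416395a7, 4), (0x31648295, 4), (0x416395a7, 4), (0x21647083, 4), (0x628495a0, 4), (0x31648295, 4), (0x628495a0, 4), (0x436182a7, 4), (0x31648295, 4), (0x21647083, 4)]⟩

def c_2713 : frmChk tA tB F_2713 = true := by decide +kernel

def r_2713_0 : chkL rootF engF2 tA tB sA_322 sB_322 4 F_2713 [(511, 0, 0)]
    0x11c8723841b5600f0cc2d = true := by
  decide +kernel

theorem f_2713 (h : TabsF) : FrameF repsF 322 F_2713.f :=
  frame_of rfl c_2713 (runs_of engOK r_2713_0) (by decide +kernel) h.1 h.2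

def F_2714 : FrX :=
  ⟨0x80080a000804040e000021010020010000020408842000004901a00000040820010804042040040804280000130020080800080830084024000c0808000,
    0xa6, 1, 0x203163768494a3, 7,
    [(0xa6, 1), (0x205396a8, 4), (0x10548796, 4), (0x214396a7, 4), (0x205396a8, 4), (0x10548796, 4)],
    [(0x203163768494a3, 7), (0x207486a5, 4), (0x32418695, 4), (0x307186a9, 4), (0x207486a5, 4), (0x32418695, 4)]⟩

def c_2714 : frmChk tA tA F_2714 = true := by decide +kernel

def r_2714_0 : chkL rootF engF2 tA tA sA_322 sA_322 4 F_2714 [(511, 0, 0)]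
    0x1234c30b4d242d07 = true := by
  decide +kernel

theorem f_2714 (h : TabsF) : FrameF repsF 322 F_2714.f :=
  frame_of rfl c_2714 (runs_of engOK r_2714_0) (by decide +kernel) h.1 h.1

def F_2715 : FrX :=
  ⟨0x2002000900044004000e020410001410008000408008040940200041000140402200002044a0000220800800800040800208001011108001004086044004,
    0xa3, 1, 0x103240536093a3, 7,
    [(0xa3, 1), (0x208693a5, 4), (0x10548793, 4), (0x217693a4, 4), (0x208693a5, 4), (0x10548793, 4)],
    [(0x103240536093a3, 7), (0x637281a4, 4), (0x21607495, 4), (0x417295a8, 4), (0x21607495, 4), (0x304182a7, 4), (0x638495a1, 4), (0x417295a8, 4), (0x638495a1, 4), (0x426071a8, 4), (0x417295a8, 4), (0x304182a7, 4)]⟩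

def c_2715 : frmChk tA tB F_2715 = true := by decide +kernel

def r_2715_0 : chkL rootF engF2 tA tB sA_322 sB_322 4 F_2715 [(511, 0, 0)]
    0x10b4271342703c4b = true := by
  decide +kernel

theorem f_2715 (h : TabsF) : FrameF repsF 322 F_2715.f :=
  frame_of rfl c_2715 (runs_of engOK r_2715_0) (by decide +kernel) h.1 h.2

def F_2716 : FrX :=
  ⟨0x1c2102000004044000002041000101000082040890040100008001010200044020108404002008410800140213020000204206040010021004110008080,
    0x0, 0, 0x217385, 3,
    [(0x0, 0), (0x205386a9, 4), (0x105487a9, 4), (0x214376a9, 4), (0x205386a9, 4), (0x105487a9, 4)],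
    [(0x217385, 3), (0x106587a9, 4), (0x205384a9, 4), (0x216374a9, 4), (0x106587a9, 4), (0x205384a9, 4)]⟩

def c_2716 : frmChk tA tA F_2716 = true := by decide +kernel

def r_2716_0 : chkL rootF engF2 tA tA sA_322 sA_322 4 F_2716 [(255, 0, 0), (256, 0, 3)]
    0x103c0f0ac2705c27 = true := by
  decide +kernel

def r_2716_1 : chkL rootF engF2 tA tA sA_322 sA_322 4 F_2716 [(256, 3, 5)]
    0x42b = true := by
  decide +kernel

def r_2716_2 : chkL rootF engF2 tA tA sA_322 sA_322 4 F_2716 [(256, 8, 13)]
    0x103c2e = true := by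
  decide +kernel

def r_2716_3 : chkL rootF engF2 tA tA sA_322 sA_322 4 F_2716 [(256, 21, 0)]
    0x103c35 = true := by
  decide +kernel

theorem f_2716 (h : TabsF) : FrameF repsF 322 F_2716.f :=
  frame_of rfl c_2716 ((runs_of engOK r_2716_0).append ((runs_of engOK r_2716_1).append ((runs_of engOK r_2716_2).append (runs_of engOK r_2716_3)))) (by decide +kernel) h.1 h.1

def F_2717 : FrX :=
  ⟨0x2002000900044004000e0204100014100080004081000008208100140102010202000220400101041080080500002000800808a0008008081008c0202280,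
    0xa3, 1, 0x103242617096a4, 7,
    [(0xa3, 1), (0x208693a5, 4), (0x10548793, 4), (0x217693a4, 4), (0x208693a5, 4), (0x10548793, 4)],
    [(0x103242617096a4, 7), (0x517492a8, 4), (0x307691a5, 4), (0x305182a9, 4), (0x307691a5, 4), (0x216485a9, 4), (0x307498a2, 4), (0x305182a9, 4), (0x307498a2, 4), (0x768295a1, 4), (0x305182a9, 4), (0x216485a9, 4)]⟩

def c_2717 : frmChk tA tB F_2717 = true := by decide +kernel

def r_2717_0 : chkL rootF engF2 tA tB sA_322 sB_322 4 F_2717 [(511, 0, 0)]
    0x105c17 = true := by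
  decide +kernel

theorem f_2717 (h : TabsF) : FrameF repsF 322 F_2717.f :=
  frame_of rfl c_2717 (runs_of engOK r_2717_0) (by decide +kernel) h.1 h.2

def F_2718 : FrX :=
  ⟨0x482000044040440000c2040020009000182040010020028001000180040810030020410000030101000440600010001080090140080810100802800058,
    0xa0, 1, 0x708297a4, 4,
    [(0xa0, 1), (0x538690a2, 4), (0x548790a1, 4), (0x21437690, 4), (0x538690a2, 4), (0x548790a1, 4)],
    [(0x708297a4, 4), (0x638795a2, 4), (0x407196a5, 4), (0x324095a6, 4), (0x407196a5, 4), (0x528193a6, 4), (0x406287a3, 4), (0x324095a6, 4), (0x406287a3, 4), (0x326571a9, 4), (0x324095a6, 4), (0x528193a6, 4)]⟩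

def c_2718 : frmChk tA tB F_2718 = true := by decide +kernel

def r_2718_0 : chkL rootF engF2 tA tB sA_322 sB_322 4 F_2718 [(511, 0, 0)]
    0x417 = true := by
  decide +kernel

theorem f_2718 (h : TabsF) : FrameF repsF 322 F_2718.f :=
  frame_of rfl c_2718 (runs_of engOK r_2718_0) (by decide +kernel) h.1 h.2

def F_2719 : FrX :=
  ⟨0x80080a000804040e00002101002001000002040890020001410000420204004020880044002008810810000213010000210106040000121004021080080,
    0xa6, 1, 0x10405261748093a6, 8,
    [(0xa6, 1), (0x205396a8, 4), (0x10548796, 4), (0x214396a7, 4), (0x205396a8, 4), (0x10548796, 4)],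
    [(0x10405261748093a6, 8), (0x308592a4, 4), (0x30417286, 4), (0x306597a1, 4), (0x308592a4, 4), (0x30417286, 4)]⟩

def c_2719 : frmChk tA tA F_2719 = true := by decide +kernel

def r_2719_0 : chkL rootF engF2 tA tA sA_322 sA_322 4 F_2719 [(511, 0, 0)]
    0x10780f03c0f = true := by
  decide +kernel

theorem f_2719 (h : TabsF) : FrameF repsF 322 F_2719.f :=
  frame_of rfl c_2719 (runs_of engOK r_2719_0) (by decide +kernel) h.1 h.1

def F_2720 : FrX :=
  ⟨0x482000044040440000c2040020009000182040010010100804000110080044804880000804042002001440103010100080088180000604088100000401,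
    0xa0, 1, 0x10435263718392a6, 8,
    [(0xa0, 1), (0x538690a2, 4), (0x548790a1, 4), (0x21437690, 4), (0x538690a2, 4), (0x548790a1, 4)],
    [(0x10435263718392a6, 8), (0x206391a8, 4), (0x325471a0, 4), (0x205486a3, 4), (0x325471a0, 4), (0x628097a3, 4), (0x548391a6, 4), (0x205486a3, 4), (0x548391a6, 4), (0x307186a2, 4), (0x205486a3, 4), (0x628097a3, 4)]⟩

def c_2720 : frmChk tA tB F_2720 = true := by decide +kernel

def r_2720_0 : chkL rootF engF2 tA tB sA_322 sB_322 4 F_2720 [(511, 0, 0)]
    0x10b41e0b495 = true := by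
  decide +kernel

theorem f_2720 (h : TabsF) : FrameF repsF 322 F_2720.f :=
  frame_of rfl c_2720 (runs_of engOK r_2720_0) (by decide +kernel) h.1 h.2

def F_2721 : FrX :=
  ⟨0x2002000900044004000e02041000141000800040810000082081001401020102020002204001010410800805000001800041881040820800100c00200280,
    0xa3, 1, 0x103242617096a4, 7,
    [(0xa3, 1), (0x208693a5, 4), (0x10548793, 4), (0x217693a4, 4), (0x208693a5, 4), (0x10548793, 4)],
    [(0x103242617096a4, 7), (0x517492a8, 4), (0x307691a5, 4), (0x305182a9, 4), (0x307691a5, 4), (0x216485a9, 4), (0x307498a2, 4), (0x305182a9, 4), (0x307498a2, 4), (0x768295a1, 4), (0x305182a9, 4), (0x216485a9, 4)]⟩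

def c_2721 : frmChk tA tB F_2721 = true := by decide +kernel

def r_2721_0 : chkL rootF engF2 tA tB sA_322 sB_322 4 F_2721 [(511, 0, 0)]
    0x417 = true := by
  decide +kernel

theorem f_2721 (h : TabsF) : FrameF repsF 322 F_2721.f :=
  frame_of rfl c_2721 (runs_of engOK r_2721_0) (by decide +kernel) h.1 h.2

def F_2722 : FrX :=
  ⟨0x482000044040440000c2040020009000182040010190000804000110000044804880000804040400011040103002800082080180048604088000000401,
    0xa0, 1, 0x3042506497a7, 6,
    [(0xa0, 1), (0x538690a2, 4), (0x548790a1, 4), (0x21437690, 4), (0x538690a2, 4), (0x548790a1, 4)],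
    [(0x3042506497a7, 6), (0x205486a3, 4), (0x516397a2, 4), (0x628097a3, 4), (0x516397a2, 4), (0x416283a0, 4), (0x54608297, 4), (0x628097a3, 4), (0x54608297, 4), (0x325180a6, 4), (0x628097a3, 4), (0x416283a0, 4)]⟩

def c_2722 : frmChk tA tB F_2722 = true := by decide +kernel

def r_2722_0 : chkL rootF engF2 tA tB sA_322 sB_322 4 F_2722 [(511, 0, 0)]
    0x106cb189a942d1c806c270b6d0075c10b41e07417 = true := by
  decide +kernel

theorem f_2722 (h : TabsF) : FrameF repsF 322 F_2722.f :=
  frame_of rfl c_2722 (runs_of engOK r_2722_0) (by decide +kernel) h.1 h.2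

def F_2723 : FrX :=
  ⟨0x80080a000804040e0000210100200100000204089002000140080840020c004020800041004088840810000013010101210104040000120004021080080,
    0xa6, 1, 0x10314051708293a0, 8,
    [(0xa6, 1), (0x205396a8, 4), (0x10548796, 4), (0x214396a7, 4), (0x205396a8, 4), (0x10548796, 4)],
    [(0x10314051708293a0, 8), (0x627093a8, 4), (0x314270a5, 4), (0x64708591, 4), (0x627093a8, 4), (0x314270a5, 4)]⟩

def c_2723 : frmChk tA tA F_2723 = true := by decide +kernel

def r_2723_0 : chkL rootF engF2 tA tA sA_322 sA_322 4 F_2723 [(511, 0, 0)]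
    0x41748d23c88cc078c9 = true := by
  decide +kernel

theorem f_2723 (h : TabsF) : FrameF repsF 322 F_2723.f :=
  frame_of rfl c_2723 (runs_of engOK r_2723_0) (by decide +kernel) h.1 h.1

def F_2724 : FrX :=
  ⟨0x482000044040440000c2040020009000182040010020028009800080040010030020410000030101000440600002002082090120090010012802000050,
    0xa0, 1, 0x2040638697a6, 6,
    [(0xa0, 1), (0x538690a2, 4), (0x548790a1, 4), (0x21437690, 4), (0x538690a2, 4), (0x548790a1, 4)],
    [(0x2040638697a6, 6), (0x324095a6, 4), (0x415287a9, 4), (0x638795a2, 4), (0x415287a9, 4), (0x105396a2, 4), (0x406287a3, 4), (0x638795a2, 4), (0x406287a3, 4), (0x416392a5, 4), (0x638795a2, 4), (0x105396a2, 4)]⟩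

def c_2724 : frmChk tA tB F_2724 = true := by decide +kernel

def r_2724_0 : chkL rootF engF2 tA tB sA_322 sB_322 4 F_2724 [(511, 0, 0)]
    0x42d1544d4e08e = true := by
  decide +kernel

theorem f_2724 (h : TabsF) : FrameF repsF 322 F_2724.f :=
  frame_of rfl c_2724 (runs_of engOK r_2724_0) (by decide +kernel) h.1 h.2

def F_2725 : FrX :=
  ⟨0x1001040012008080000e0084080041000810100004410000912000202000203004820000110000a040040404820000240014020006004408004009000058,
    0xa3, 1, 0x32437181a3, 5,
    [(0xa3, 1), (0x207584a6, 4), (0x10547693, 4), (0x647593a8, 4), (0x10547693, 4), (0x216485a7, 4), (0x208693a4, 4), (0x647593a8, 4), (0x208693a4, 4), (0x106574a8, 4), (0x647593a8, 4), (0x216485a7, 4)],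
    [(0x32437181a3, 5), (0x305172a6, 4), (0x52618094, 4), (0x516294a7, 4), (0x52618094, 4), (0x627583a1, 4), (0x307694a2, 4), (0x516294a7, 4), (0x307694a2, 4), (0x216580a7, 4), (0x516294a7, 4), (0x627583a1, 4)]⟩

def c_2725 : frmChk tB tB F_2725 = true := by decide +kernel

def r_2725_0 : chkL rootF engF2 tB tB sB_322 sB_322 4 F_2725 [(511, 0, 0)]
    0x4360d80f03c36 = true := by
  decide +kernel

theorem f_2725 (h : TabsF) : FrameF repsF 322 F_2725.f :=
  frame_of rfl c_2725 (runs_of engOK r_2725_0) (by decide +kernel) h.2 h.2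

def F_2726 : FrX :=
  ⟨0x600020801080810000c0040180410101001004001200028000101200080244004000905a000000200101100812200200000a0400804404440821000200,
    0xa0, 1, 0x203041728793a8, 7,
    [(0xa0, 1), (0x637584a2, 4), (0x547690a1, 4), (0x64758390, 4), (0x547690a1, 4), (0x21647385, 4), (0x438690a2, 4), (0x64758390, 4), (0x438690a2, 4), (0x657483a1, 4), (0x64758390, 4), (0x21647385, 4)],
    [(0x203041728793a8, 7), (0x207395a6, 4), (0x204351a8, 4), (0x20748691, 4), (0x207395a6, 4), (0x204351a8, 4)]⟩

def c_2726 : frmChk tB tA F_2726 = true := by decide +kernel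

def r_2726_0 : chkL rootF engF2 tB tA sB_322 sA_322 4 F_2726 [(511, 0, 0)]
    0x70ac488e2580f8980f = true := by
  decide +kernel

theorem f_2726 (h : TabsF) : FrameF repsF 322 F_2726.f :=
  frame_of rfl c_2726 (runs_of engOK r_2726_0) (by decide +kernel) h.2 h.1

def F_2727 : FrX :=
  ⟨0x1001040012008080000e00840800410008101000040808084020002140080084804000104410014220000808010400414004200200030000011100041110,
    0xa3, 1, 0x324151648090a6, 7,
    [(0xa3, 1), (0x207584a6, 4), (0x10547693, 4), (0x647593a8, 4), (0x10547693, 4), (0x216485a7, 4), (0x208693a4, 4), (0x647593a8, 4), (0x208693a4, 4), (0x106574a8, 4), (0x647593a8, 4), (0x216485a7, 4)],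
    [(0x324151648090a6, 7), (0x607493a2, 4), (0x648195a7, 4), (0x207481a6, 4), (0x648195a7, 4), (0x405372a6, 4), (0x628193a0, 4), (0x207481a6, 4), (0x628193a0, 4), (0x207695a4, 4), (0x207481a6, 4), (0x405372a6, 4)]⟩

def c_2727 : frmChk tB tB F_2727 = true := by decide +kernel

def r_2727_0 : chkL rootF engF2 tB tB sB_322 sB_322 4 F_2727 [(511, 0, 0)]
    0x45615856 = true := by
  decide +kernel

theorem f_2727 (h : TabsF) : FrameF repsF 322 F_2727.f :=
  frame_of rfl c_2727 (runs_of engOK r_2727_0) (by decide +kernel) h.2 h.2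

def F_2728 : FrX :=
  ⟨0x1001040012008080000e00840800410008101000042008100110200004200844020108020000208068022808000800022010820420200400084000210280,
    0xa3, 1, 0x415390a7, 4,
    [(0xa3, 1), (0x207584a6, 4), (0x10547693, 4), (0x647593a8, 4), (0x10547693, 4), (0x216485a7, 4), (0x208693a4, 4), (0x647593a8, 4), (0x208693a4, 4), (0x106574a8, 4), (0x647593a8, 4), (0x216485a7, 4)],
    [(0x415390a7, 4), (0x53708692, 4), (0x317094a8, 4), (0x425170a6, 4), (0x53708692, 4), (0x317094a8, 4)]⟩

def c_2728 : frmChk tB tA F_2728 = true := by decide +kernel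

def r_2728_0 : chkL rootF engF2 tB tA sB_322 sA_322 4 F_2728 [(511, 0, 0)]
    0x435074690741b = true := by
  decide +kernel

theorem f_2728 (h : TabsF) : FrameF repsF 322 F_2728.f :=
  frame_of rfl c_2728 (runs_of engOK r_2728_0) (by decide +kernel) h.2 h.1

def F_2729 : FrX :=
  ⟨0x1001040012008080000e00840800410008101000042080040050200060100082082000802020410240801808800008010040004901200000501000210104,
    0xa3, 1, 0x3254748792a7, 6,
    [(0xa3, 1), (0x207584a6, 4), (0x10547693, 4), (0x647593a8, 4), (0x10547693, 4), (0x216485a7, 4), (0x208693a4, 4), (0x647593a8, 4), (0x208693a4, 4), (0x106574a8, 4), (0x647593a8, 4), (0x216485a7, 4)],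
    [(0x3254748792a7, 6), (0x627590a4, 4), (0x107483a6, 4), (0x527683a4, 4), (0x107483a6, 4), (0x547691a2, 4), (0x65728390, 4), (0x527683a4, 4), (0x65728390, 4), (0x105264a7, 4), (0x527683a4, 4), (0x547691a2, 4)]⟩

def c_2729 : frmChk tB tB F_2729 = true := by decide +kernel

def r_2729_0 : chkL rootF engF2 tB tB sB_322 sB_322 4 F_2729 [(511, 0, 0)]
    0x1d2161d8138a844e2c46607aa105c1ea16c4 = true := by
  decide +kernel

theorem f_2729 (h : TabsF) : FrameF repsF 322 F_2729.f :=
  frame_of rfl c_2729 (runs_of engOK r_2729_0) (by decide +kernel) h.2 h.2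

def F_2730 : FrX :=
  ⟨0x2002000900044004000e0204100014100080004081000004220080240200408014008010400200820a018008002050100040220006001008401002206000,
    0xa3, 1, 0x2143528490a8, 6,
    [(0xa3, 1), (0x208693a5, 4), (0x10548793, 4), (0x217693a4, 4), (0x208693a5, 4), (0x10548793, 4)],
    [(0x2143528490a8, 6), (0x647195a8, 4), (0x30768192, 4), (0x307186a4, 4), (0x30768192, 4), (0x527486a1, 4), (0x308495a6, 4), (0x307186a4, 4), (0x308495a6, 4), (0x618792a4, 4), (0x307186a4, 4), (0x527486a1, 4)]⟩

def c_2730 : frmChk tA tB F_2730 = true := by decide +kernel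

def r_2730_0 : chkL rootF engF2 tA tB sA_322 sB_322 4 F_2730 [(511, 0, 0)]
    0x103c2728c65 = true := by
  decide +kernel

theorem f_2730 (h : TabsF) : FrameF repsF 322 F_2730.f :=
  frame_of rfl c_2730 (runs_of engOK r_2730_0) (by decide +kernel) h.1 h.2

theorem cl_322 (h : TabsF) : ∀ f ∈ fr_322, FrameF repsF 322 f :=
  List.forall_mem_cons.2 ⟨f_2703 h, List.forall_mem_cons.2 ⟨f_2704 h, List.forall_mem_cons.2 ⟨f_2705 h, List.forall_mem_cons.2 ⟨f_2706 h, List.forall_mem_cons.2 ⟨f_2707 h, List.forall_mem_cons.2 ⟨f_2708 h, List.forall_mem_cons.2 ⟨f_2709 h, List.forall_mem_cons.2 ⟨f_2710 h, List.forall_mem_cons.2 ⟨f_2711 h, List.forall_mem_cons.2 ⟨f_2712 h, List.forall_mem_cons.2 ⟨f_2713 h, List.forall_mem_cons.2 ⟨f_2714 h, List.forall_mem_cons.2 ⟨f_2715 h, List.forall_mem_cons.2 ⟨f_2716 h, List.forall_mem_cons.2 ⟨f_2717 h, List.forall_mem_cons.2 ⟨f_2718 h, List.forall_mem_cons.2 ⟨f_2719 h, List.forall_mem_cons.2 ⟨f_2720 h, List.forall_mem_cons.2 ⟨f_2721 h, List.forall_mem_cons.2 ⟨f_2722 h, List.forall_mem_cons.2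 ⟨f_2723 h, List.forall_mem_cons.2 ⟨f_2724 h, List.forall_mem_cons.2 ⟨f_2725 h, List.forall_mem_cons.2 ⟨f_2726 h, List.forall_mem_cons.2 ⟨f_2727 h, List.forall_mem_cons.2 ⟨f_2728 h, List.forall_mem_cons.2 ⟨f_2729 h, List.forall_mem_cons.2 ⟨f_2730 h,
    fun _ h0 => absurd h0 List.not_mem_nil⟩⟩⟩⟩⟩⟩⟩⟩⟩⟩⟩⟩⟩⟩⟩⟩⟩⟩⟩⟩⟩⟩⟩⟩⟩⟩⟩⟩

def F_2731 : FrX :=
  ⟨0x1001040012008080000e0084080041000810100004200802400109000902000800400222000510404008820a000000804100201010020800091009000280,
    0xa3, 1, 0x103040608494a2, 7,
    [(0xa3, 1), (0x207584a6, 4), (0x10547693, 4), (0x647593a8, 4), (0x10547693, 4), (0x216485a7, 4), (0x208693a4, 4), (0x647593a8, 4), (0x208693a4, 4), (0x106574a8, 4), (0x647593a8, 4), (0x216485a7, 4)],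
    [(0x103040608494a2, 7), (0x435182a6, 4), (0x60738295, 4), (0x748291a0, 4), (0x435182a6, 4), (0x60738295, 4)]⟩

def c_2731 : frmChk tB tA F_2731 = true := by decide +kernel

def r_2731_0 : chkL rootF engF2 tB tA sB_323 sA_323 4 F_2731 [(511, 0, 0)]
    0x55258952 = true := by
  decide +kernel

theorem f_2731 (h : TabsF) : FrameF repsF 323 F_2731.f :=
  frame_of rfl c_2731 (runs_of engOK r_2731_0) (by decide +kernel) h.2 h.1

def F_2732 : FrX :=
  ⟨0x1001040012008080000e00840800410008101000040420028008400041080020030200820000810043044804400000104004220204020800840100020050,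
    0xa3, 1, 0x5061738294a3, 6,
    [(0xa3, 1), (0x207584a6, 4), (0x10547693, 4), (0x647593a8, 4), (0x10547693, 4), (0x216485a7, 4), (0x208693a4, 4), (0x647593a8, 4), (0x208693a4, 4), (0x106574a8, 4), (0x647593a8, 4), (0x216485a7, 4)],
    [(0x5061738294a3, 6), (0x308592a1, 4), (0x31657490, 4), (0x307491a2, 4), (0x31657490, 4), (0x208691a3, 4), (0x217485a9, 4), (0x307491a2, 4), (0x217485a9, 4), (0x106593a2, 4), (0x307491a2, 4), (0x208691a3, 4)]⟩

def c_2732 : frmChk tB tB F_2732 = true := by decide +kernel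

def r_2732_0 : chkL rootF engF2 tB tB sB_323 sB_323 4 F_2732 [(511, 0, 0)]
    0x106c3903c1b = true := by
  decide +kernel

theorem f_2732 (h : TabsF) : FrameF repsF 323 F_2732.f :=
  frame_of rfl c_2732 (runs_of engOK r_2732_0) (by decide +kernel) h.2 h.2

def F_2733 : FrX :=
  ⟨0x600020801080810000c004018041010100100400c840800000020082002020040822020004020008081200508000802500820110010084008018100001,
    0xa0, 1, 0x2131415074a8, 6,
    [(0xa0, 1), (0x637584a2, 4), (0x547690a1, 4), (0x64758390, 4), (0x547690a1, 4), (0x21647385, 4), (0x438690a2, 4), (0x64758390, 4), (0x438690a2, 4), (0x657483a1, 4), (0x64758390, 4), (0x21647385, 4)],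
    [(0x2131415074a8, 6), (0x305162a7, 4), (0x54637098, 4), (0x307698a2, 4), (0x54637098, 4), (0x324176a0, 4), (0x517298a6, 4), (0x307698a2, 4), (0x517298a6, 4), (0x546073a2, 4), (0x307698a2, 4), (0x324176a0, 4)]⟩

def c_2733 : frmChk tB tB F_2733 = true := by decide +kernel

def r_2733_0 : chkL rootF engF2 tB tB sB_323 sB_323 4 F_2733 [(511, 0, 0)]
    0x42d0b417 = true := by
  decide +kernel

theorem f_2733 (h : TabsF) : FrameF repsF 323 F_2733.f :=
  frame_of rfl c_2733 (runs_of engOK r_2733_0) (by decide +kernel) h.2 h.2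

def F_2734 : FrX :=
  ⟨0x600020801080810000c004018041010100100400420440080010400400a20000880200108002002480010050100180410002010e104000000809010080,
    0xa0, 1, 0x10215271a6, 5,
    [(0xa0, 1), (0x637584a2, 4), (0x547690a1, 4), (0x64758390, 4), (0x547690a1, 4), (0x21647385, 4), (0x438690a2, 4), (0x64758390, 4), (0x438690a2, 4), (0x657483a1, 4), (0x64758390, 4), (0x21647385, 4)],
    [(0x10215271a6, 5), (0x305196a8, 4), (0x40718296, 4), (0x437596a2, 4), (0x305196a8, 4), (0x40718296, 4)]⟩

def c_2734 : frmChk tB tA F_2734 = true := by decide +kernel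

def r_2734_0 : chkL rootF engF2 tB tA sB_323 sA_323 4 F_2734 [(511, 0, 0)]
    0x105c1705c65 = true := by
  decide +kernel

theorem f_2734 (h : TabsF) : FrameF repsF 323 F_2734.f :=
  frame_of rfl c_2734 (runs_of engOK r_2734_0) (by decide +kernel) h.2 h.1

def F_2735 : FrX :=
  ⟨0x600020801080810000c00401804101010010040010111000000228010084042000008a0000220020102150088000802484000200500080060400020300,
    0xa0, 1, 0x10314263718593a2, 8,
    [(0xa0, 1), (0x637584a2, 4), (0x547690a1, 4), (0x64758390, 4), (0x547690a1, 4), (0x21647385, 4), (0x438690a2, 4), (0x64758390, 4), (0x438690a2, 4), (0x657483a1, 4), (0x64758390, 4), (0x21647385, 4)],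
    [(0x10314263718593a2, 8), (0x506498a1, 4), (0x53647182, 4), (0x306492a7, 4), (0x506498a1, 4), (0x53647182, 4)]⟩

def c_2735 : frmChk tB tA F_2735 = true := by decide +kernel

def r_2735_0 : chkL rootF engF2 tB tA sB_323 sA_323 4 F_2735 [(511, 0, 0)]
    0x1 = true := by
  decide +kernel

theorem f_2735 (h : TabsF) : FrameF repsF 323 F_2735.f :=
  frame_of rfl c_2735 (runs_of engOK r_2735_0) (by decide +kernel) h.2 h.1

def F_2736 : FrX :=
  ⟨0x1001040012008080000e00840800410008101000042008100101400101020000084108102103800240001400020420040100082010800410214008801000,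
    0xa3, 1, 0x10304260748597a6, 8,
    [(0xa3, 1), (0x207584a6, 4), (0x10547693, 4), (0x647593a8, 4), (0x10547693, 4), (0x216485a7, 4), (0x208693a4, 4), (0x647593a8, 4), (0x208693a4, 4), (0x106574a8, 4), (0x647593a8, 4), (0x216485a7, 4)],
    [(0x10304260748597a6, 8), (0x326481a5, 4), (0x32608795, 4), (0x324071a9, 4), (0x326481a5, 4), (0x32608795, 4)]⟩

def c_2736 : frmChk tB tA F_2736 = true := by decide +kernel

def r_2736_0 : chkL rootF engF2 tB tA sB_323 sA_323 4 F_2736 [(511, 0, 0)]
    0x5c1f004d12c279883c = true := by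
  decide +kernel

theorem f_2736 (h : TabsF) : FrameF repsF 323 F_2736.f :=
  frame_of rfl c_2736 (runs_of engOK r_2736_0) (by decide +kernel) h.2 h.1

def F_2737 : FrX :=
  ⟨0x1001040012008080000e00840800410008101000040a01041008400020010040406000202100100040021810800820002100082110004408900060000084,
    0xa3, 1, 0x2132617086a1, 6,
    [(0xa3, 1), (0x207584a6, 4), (0x10547693, 4), (0x647593a8, 4), (0x10547693, 4), (0x216485a7, 4), (0x208693a4, 4), (0x647593a8, 4), (0x208693a4, 4), (0x106574a8, 4), (0x647593a8, 4), (0x216485a7, 4)],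
    [(0x2132617086a1, 6), (0x42507381, 4), (0x548096a7, 4), (0x21508496, 4), (0x548096a7, 4), (0x105284a3, 4), (0x41738296, 4), (0x21508496, 4), (0x41738296, 4), (0x214085a7, 4), (0x21508496, 4), (0x105284a3, 4)]⟩

def c_2737 : frmChk tB tB F_2737 = true := by decide +kernel

def r_2737_0 : chkL rootF engF2 tB tB sB_323 sB_323 4 F_2737 [(511, 0, 0)]
    0x478 = true := by
  decide +kernel

theorem f_2737 (h : TabsF) : FrameF repsF 323 F_2737.f :=
  frame_of rfl c_2737 (runs_of engOK r_2737_0) (by decide +kernel) h.2 h.2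

def F_2738 : FrX :=
  ⟨0x482000044040440000c2040020009000182040000900980000a00080004082020020404024000200c00800181010100084004040500120001142040008,
    0xa0, 1, 0x32415470a4, 5,
    [(0xa0, 1), (0x538690a2, 4), (0x548790a1, 4), (0x21437690, 4), (0x538690a2, 4), (0x548790a1, 4)],
    [(0x32415470a4, 5), (0x106273a8, 4), (0x607495a1, 4), (0x108295a6, 4), (0x607495a1, 4), (0x204381a6, 4), (0x738695a2, 4), (0x108295a6, 4), (0x738695a2, 4), (0x617482a0, 4), (0x108295a6, 4), (0x204381a6, 4)]⟩

def c_2738 : frmChk tA tB F_2738 = true := by decide +kernel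

def r_2738_0 : chkL rootF engF2 tA tB sA_323 sB_323 4 F_2738 [(511, 0, 0)]
    0x466 = true := by
  decide +kernel

theorem f_2738 (h : TabsF) : FrameF repsF 323 F_2738.f :=
  frame_of rfl c_2738 (runs_of engOK r_2738_0) (by decide +kernel) h.1 h.2

def F_2739 : FrX :=
  ⟨0x2002000900044004000e020410001410008000408080010020a180040002400210008020402001022080040201000080004800100520101042101080d000,
    0xa3, 1, 0x628397a3, 4,
    [(0xa3, 1), (0x208693a5, 4), (0x10548793, 4), (0x217693a4, 4), (0x208693a5, 4), (0x10548793, 4)],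
    [(0x628397a3, 4), (0x326087a5, 4), (0x10548793, 4), (0x618792a4, 4), (0x326087a5, 4), (0x10548793, 4)]⟩

def c_2739 : frmChk tA tA F_2739 = true := by decide +kernel

def r_2739_0 : chkL rootF engF2 tA tA sA_323 sA_323 4 F_2739 [(511, 0, 0)]
    0x18aa26aa00f03c0f0ac8dc31344e00f50c9330c2722c0f06d980d9490ac9c078363c3302c42703c2bc442bc8853a32a84e0933a00f0d47105c3c05c17 = true := by
  decide +kernel

theorem f_2739 (h : TabsF) : FrameF repsF 323 F_2739.f :=
  frame_of rfl c_2739 (runs_of engOK r_2739_0) (by decide +kernel) h.1 h.1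

def F_2740 : FrX :=
  ⟨0x1c2102000004044000002041000101000082040888200008001080100002108004820200a0028008008004821a0200400002110004d000108a080200000,
    0x0, 0, 0x21536487, 4,
    [(0x0, 0), (0x205386a9, 4), (0x105487a9, 4), (0x214376a9, 4), (0x205386a9, 4), (0x105487a9, 4)],
    [(0x21536487, 4), (0x105374a9, 4), (0x206387a9, 4), (0x216584a9, 4), (0x105374a9, 4), (0x206387a9, 4)]⟩

def c_2740 : frmChk tA tA F_2740 = true := by decide +kernel

def r_2740_0 : chkL rootF engF2 tA tA sA_323 sA_323 4 F_2740 [(255, 0, 0), (256, 0, 14)]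
    0x105c1d0e80f = true := by
  decide +kernel

def r_2740_1 : chkL rootF engF2 tA tA sA_323 sA_323 4 F_2740 [(256, 14, 3)]
    0x1 = true := by
  decide +kernel

def r_2740_2 : chkL rootF engF2 tA tA sA_323 sA_323 4 F_2740 [(256, 17, 5)]
    0x1 = true := by
  decide +kernel

def r_2740_3 : chkL rootF engF2 tA tA sA_323 sA_323 4 F_2740 [(256, 22, 3)]
    0x1 = true := by
  decide +kernel

def r_2740_4 : chkL rootF engF2 tA tA sA_323 sA_323 4 F_2740 [(256, 25, 0)]
    0x1 = true := by
  decide +kernel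

theorem f_2740 (h : TabsF) : FrameF repsF 323 F_2740.f :=
  frame_of rfl c_2740 ((runs_of engOK r_2740_0).append ((runs_of engOK r_2740_1).append ((runs_of engOK r_2740_2).append ((runs_of engOK r_2740_3).append (runs_of engOK r_2740_4))))) (by decide +kernel) h.1 h.1

def F_2741 : FrX :=
  ⟨0x80080a000804040e00002101002001000002040884200000490080020034008004401000c0028008008080021a00204000101100040840108a104040000,
    0xa6, 1, 0x435364708098a3, 7,
    [(0xa6, 1), (0x205396a8, 4), (0x10548796, 4), (0x214396a7, 4), (0x205396a8, 4), (0x10548796, 4)],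
    [(0x435364708098a3, 7), (0x758293a4, 4), (0x64758190, 4), (0x213075a6, 4), (0x758293a4, 4), (0x64758190, 4)]⟩

def c_2741 : frmChk tA tA F_2741 = true := by decide +kernel

def r_2741_0 : chkL rootF engF2 tA tA sA_323 sA_323 4 F_2741 [(511, 0, 0)]
    0x40f = true := by
  decide +kernel

theorem f_2741 (h : TabsF) : FrameF repsF 323 F_2741.f :=
  frame_of rfl c_2741 (runs_of engOK r_2741_0) (by decide +kernel) h.1 h.1

def F_2742 : FrX :=
  ⟨0x482000044040440000c204002000900018204002000050080020a00800c0840200004000240404108008000810104002840040420208200021000080c8,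
    0xa0, 1, 0x103251657598a1, 7,
    [(0xa0, 1), (0x538690a2, 4), (0x548790a1, 4), (0x21437690, 4), (0x538690a2, 4), (0x548790a1, 4)],
    [(0x103251657598a1, 7), (0x20317694, 4), (0x607485a1, 4), (0x40768592, 4), (0x607485a1, 4), (0x406297a3, 4), (0x31428590, 4), (0x40768592, 4), (0x31428590, 4), (0x647092a1, 4), (0x40768592, 4), (0x406297a3, 4)]⟩

def c_2742 : frmChk tA tB F_2742 = true := by decide +kernel

def r_2742_0 : chkL rootF engF2 tA tB sA_323 sB_323 4 F_2742 [(511, 0, 0)]
    0x52a4a44b = true := by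
  decide +kernel

theorem f_2742 (h : TabsF) : FrameF repsF 323 F_2742.f :=
  frame_of rfl c_2742 (runs_of engOK r_2742_0) (by decide +kernel) h.1 h.2

def F_2743 : FrX :=
  ⟨0x1001040012008080000e00840800410008101000050200100490000804000882420200002000140040024804011008010100080c80024020082000042404,
    0xa3, 1, 0x2040607182a0, 6,
    [(0xa3, 1), (0x207584a6, 4), (0x10547693, 4), (0x647593a8, 4), (0x10547693, 4), (0x216485a7, 4), (0x208693a4, 4), (0x647593a8, 4), (0x208693a4, 4), (0x106574a8, 4), (0x647593a8, 4), (0x216485a7, 4)],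
    [(0x2040607182a0, 6), (0x405396a8, 4), (0x105296a7, 4), (0x32418796, 4), (0x405396a8, 4), (0x105296a7, 4)]⟩

def c_2743 : frmChk tB tA F_2743 = true := by decide +kernel

def r_2743_0 : chkL rootF engF2 tB tA sB_323 sA_323 4 F_2743 [(511, 0, 0)]
    0x122c2d2388e = true := by
  decide +kernel

theorem f_2743 (h : TabsF) : FrameF repsF 323 F_2743.f :=
  frame_of rfl c_2743 (runs_of engOK r_2743_0) (by decide +kernel) h.2 h.1

def F_2744 : FrX :=
  ⟨0x1001040012008080000e00840800410008101000042008024010020201000084042000520000404081401810200800022084004401100080440100020050,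
    0xa3, 1, 0x10425365768298a0, 8,
    [(0xa3, 1), (0x207584a6, 4), (0x10547693, 4), (0x647593a8, 4), (0x10547693, 4), (0x216485a7, 4), (0x208693a4, 4), (0x647593a8, 4), (0x208693a4, 4), (0x106574a8, 4), (0x647593a8, 4), (0x216485a7, 4)],
    [(0x10425365768298a0, 8), (0x416597a8, 4), (0x416293a0, 4), (0x41527380, 4), (0x416597a8, 4), (0x416293a0, 4)]⟩

def c_2744 : frmChk tB tA F_2744 = true := by decide +kernel

def r_2744_0 : chkL rootF engF2 tB tA sB_323 sA_323 4 F_2744 [(511, 0, 0)]
    0x1 = true := by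
  decide +kernel

theorem f_2744 (h : TabsF) : FrameF repsF 323 F_2744.f :=
  frame_of rfl c_2744 (runs_of engOK r_2744_0) (by decide +kernel) h.2 h.1

def F_2745 : FrX :=
  ⟨0x1001040012008080000e008408004100081010000420800200900401001000844820000a0000208080421810200800022100840c00104000440020020210,
    0xa3, 1, 0x3241508796a3, 6,
    [(0xa3, 1), (0x207584a6, 4), (0x10547693, 4), (0x647593a8, 4), (0x10547693, 4), (0x216485a7, 4), (0x208693a4, 4), (0x647593a8, 4), (0x208693a4, 4), (0x106574a8, 4), (0x647593a8, 4), (0x216485a7, 4)],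
    [(0x3241508796a3, 6), (0x537180a9, 4), (0x10546298, 4), (0x628091a7, 4), (0x10546298, 4), (0x437091a8, 4), (0x536297a1, 4), (0x628091a7, 4), (0x536297a1, 4), (0x548190a7, 4), (0x628091a7, 4), (0x437091a8, 4)]⟩

def c_2745 : frmChk tB tB F_2745 = true := by decide +kernel

def r_2745_0 : chkL rootF engF2 tB tB sB_323 sB_323 4 F_2745 [(511, 0, 0)]
    0x1 = true := by
  decide +kernel

theorem f_2745 (h : TabsF) : FrameF repsF 323 F_2745.f :=
  frame_of rfl c_2745 (runs_of engOK r_2745_0) (by decide +kernel) h.2 h.2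

def F_2746 : FrX :=
  ⟨0x2002000900044004000e0204100014100080004080040044801020060080088100010010108800088004010001102014020020420200880500014000c004,
    0xa3, 1, 0x2160758394a3, 6,
    [(0xa3, 1), (0x208693a5, 4), (0x10548793, 4), (0x217693a4, 4), (0x208693a5, 4), (0x10548793, 4)],
    [(0x2160758394a3, 6), (0x306184a7, 4), (0x53628497, 4), (0x215084a9, 4), (0x306184a7, 4), (0x53628497, 4)]⟩

def c_2746 : frmChk tA tA F_2746 = true := by decide +kernel

def r_2746_0 : chkL rootF engF2 tA tA sA_323 sA_323 4 F_2746 [(511, 0, 0)]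
    0x10b41703c4e = true := by
  decide +kernel

theorem f_2746 (h : TabsF) : FrameF repsF 323 F_2746.f :=
  frame_of rfl c_2746 (runs_of engOK r_2746_0) (by decide +kernel) h.1 h.1

theorem cl_323 (h : TabsF) : ∀ f ∈ fr_323, FrameF repsF 323 f :=
  List.forall_mem_cons.2 ⟨f_2731 h, List.forall_mem_cons.2 ⟨f_2732 h, List.forall_mem_cons.2 ⟨f_2733 h, List.forall_mem_cons.2 ⟨f_2734 h, List.forall_mem_cons.2 ⟨f_2735 h, List.forall_mem_cons.2 ⟨f_2736 h, List.forall_mem_cons.2 ⟨f_2737 h, List.forall_mem_cons.2 ⟨f_2738 h, List.forall_mem_cons.2 ⟨f_2739 h, List.forall_mem_cons.2 ⟨f_2740 h, List.forall_mem_cons.2 ⟨f_2741 h, List.forall_mem_cons.2 ⟨f_2742 h, List.forall_mem_cons.2 ⟨f_2743 h, List.forall_mem_cons.2 ⟨f_2744 h, List.forall_mem_cons.2 ⟨f_2745 h, List.forall_mem_cons.2 ⟨f_2746 h,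
    fun _ h0 => absurd h0 List.not_mem_nil⟩⟩⟩⟩⟩⟩⟩⟩⟩⟩⟩⟩⟩⟩⟩⟩

def F_2747 : FrX :=
  ⟨0x2002000900044004000e020410001410008000408040004108200020080408900210040040242010100400820014008002840000220808011001800080c0,
    0xa3, 1, 0x4050618598a0, 6,
    [(0xa3, 1), (0x208693a5, 4), (0x10548793, 4), (0x217693a4, 4), (0x208693a5, 4), (0x10548793, 4)],
    [(0x4050618598a0, 6), (0x318790a2, 4), (0x547180a6, 4), (0x10548793, 4), (0x547180a6, 4), (0x10627398, 4), (0x305491a2, 4), (0x10548793, 4), (0x305491a2, 4), (0x708193a6, 4), (0x10548793, 4), (0x10627398, 4)]⟩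

def c_2747 : frmChk tA tB F_2747 = true := by decide +kernel

def r_2747_0 : chkL rootF engF2 tA tB sA_324 sB_324 4 F_2747 [(511, 0, 0)]
    0x1 = true := by
  decide +kernel

theorem f_2747 (h : TabsF) : FrameF repsF 324 F_2747.f :=
  frame_of rfl c_2747 (runs_of engOK r_2747_0) (by decide +kernel) h.1 h.2

def F_2748 : FrX :=
  ⟨0x80080a000804040e00002101002001000002040880480800404400400220000022c00060004a00010050080081400800201101001128000044006804000,
    0xa6, 1, 0x326495a6, 4,
    [(0xa6, 1), (0x205396a8, 4), (0x10548796, 4), (0x214396a7, 4), (0x205396a8, 4), (0x10548796, 4)],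
    [(0x326495a6, 4), (0x305492a8, 4), (0x10548796, 4), (0x315462a7, 4), (0x305492a8, 4), (0x10548796, 4)]⟩

def c_2748 : frmChk tA tA F_2748 = true := by decide +kernel

def r_2748_0 : chkL rootF engF2 tA tA sA_324 sA_324 4 F_2748 [(511, 0, 0)]
    0x11b2381aa681c43a324331e21c8665814cd80e43336053330728c853a479014d49138cc = true := by
  decide +kernel

theorem f_2748 (h : TabsF) : FrameF repsF 324 F_2748.f :=
  frame_of rfl c_2748 (runs_of engOK r_2748_0) (by decide +kernel) h.1 h.1

def F_2749 : FrX :=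
  ⟨0x482000044040440000c204002000900018204001002008200100018000c010030030000804a01010000048401108800014001000480081014500004004,
    0xa0, 1, 0x405365708394a8, 7,
    [(0xa0, 1), (0x538690a2, 4), (0x548790a1, 4), (0x21437690, 4), (0x538690a2, 4), (0x548790a1, 4)],
    [(0x405365708394a8, 7), (0x507286a3, 4), (0x507196a4, 4), (0x21435098, 4), (0x507286a3, 4), (0x507196a4, 4)]⟩

def c_2749 : frmChk tA tA F_2749 = true := by decide +kernel

def r_2749_0 : chkL rootF engF2 tA tA sA_324 sA_324 4 F_2749 [(511, 0, 0)]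
    0x1154330e42b05c1705c1e0ac170b4b405c0f03e920782b03c5a = true := by
  decide +kernel

theorem f_2749 (h : TabsF) : FrameF repsF 324 F_2749.f :=
  frame_of rfl c_2749 (runs_of engOK r_2749_0) (by decide +kernel) h.1 h.1

def F_2750 : FrX :=
  ⟨0x80080a000804040e00002101002001000002040890020110408008008810004004003010000030200808200038001002028810004008045000880062000,
    0xa6, 1, 0x102040526475a2, 7,
    [(0xa6, 1), (0x205396a8, 4), (0x10548796, 4), (0x214396a7, 4), (0x205396a8, 4), (0x10548796, 4)],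
    [(0x102040526475a2, 7), (0x738295a4, 4), (0x40768195, 4), (0x216395a0, 4), (0x738295a4, 4), (0x40768195, 4)]⟩

def c_2750 : frmChk tA tA F_2750 = true := by decide +kernel

def r_2750_0 : chkL rootF engF2 tA tA sA_324 sA_324 4 F_2750 [(511, 0, 0)]
    0x11e0aa314c35442ec922c0ac4e19a2a8b06c89a5803c0f = true := by
  decide +kernel

theorem f_2750 (h : TabsF) : FrameF repsF 324 F_2750.f :=
  frame_of rfl c_2750 (runs_of engOK r_2750_0) (by decide +kernel) h.1 h.1

def F_2751 : FrX :=
  ⟨0x482000044040440000c20400200090001820400004804108042000100100440220004011040001404004008022200080000a01c00102200010a0080082,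
    0xa0, 1, 0x31517482a0, 5,
    [(0xa0, 1), (0x538690a2, 4), (0x548790a1, 4), (0x21437690, 4), (0x538690a2, 4), (0x548790a1, 4)],
    [(0x31517482a0, 5), (0x436172a8, 4), (0x647390a5, 4), (0x21437690, 4), (0x647390a5, 4), (0x32417685, 4), (0x627190a8, 4), (0x21437690, 4), (0x627190a8, 4), (0x216374a5, 4), (0x21437690, 4), (0x32417685, 4)]⟩

def c_2751 : frmChk tA tB F_2751 = true := by decide +kernel

def r_2751_0 : chkL rootF engF2 tA tB sA_324 sB_324 4 F_2751 [(511, 0, 0)]
    0x106c4e06c1b2548d03c390781b2348d03c0f15455 = true := by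
  decide +kernel

theorem f_2751 (h : TabsF) : FrameF repsF 324 F_2751.f :=
  frame_of rfl c_2751 (runs_of engOK r_2751_0) (by decide +kernel) h.1 h.2

def F_2752 : FrX :=
  ⟨0x600020801080810000c00401804101010010040008088180000300808210020000008a0000420040088140a0000008a448001006200080100000221020,
    0xa0, 1, 0x2142517284a0, 6,
    [(0xa0, 1), (0x637584a2, 4), (0x547690a1, 4), (0x64758390, 4), (0x547690a1, 4), (0x21647385, 4), (0x438690a2, 4), (0x64758390, 4), (0x438690a2, 4), (0x657483a1, 4), (0x64758390, 4), (0x21647385, 4)],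
    [(0x2142517284a0, 6), (0x326190a7, 4), (0x418290a5, 4), (0x64758390, 4), (0x326190a7, 4), (0x418290a5, 4)]⟩

def c_2752 : frmChk tB tA F_2752 = true := by decide +kernel

def r_2752_0 : chkL rootF engF2 tB tA sB_324 sA_324 4 F_2752 [(511, 0, 0)]
    0x1 = true := by
  decide +kernel

theorem f_2752 (h : TabsF) : FrameF repsF 324 F_2752.f :=
  frame_of rfl c_2752 (runs_of engOK r_2752_0) (by decide +kernel) h.2 h.1

def F_2753 : FrX :=
  ⟨0x1001040012008080000e0084080041000810100006000010030020800422080800810800908002014200280002040820001000800a200000a82040211000,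
    0xa3, 1, 0x305062758098a7, 7,
    [(0xa3, 1), (0x207584a6, 4), (0x10547693, 4), (0x647593a8, 4), (0x10547693, 4), (0x216485a7, 4), (0x208693a4, 4), (0x647593a8, 4), (0x208693a4, 4), (0x106574a8, 4), (0x647593a8, 4), (0x216485a7, 4)],
    [(0x305062758098a7, 7), (0x53708692, 4), (0x537481a9, 4), (0x405361a2, 4), (0x53708692, 4), (0x537481a9, 4)]⟩

def c_2753 : frmChk tB tA F_2753 = true := by decide +kernel

def r_2753_0 : chkL rootF engF2 tB tA sB_324 sA_324 4 F_2753 [(511, 0, 0)]
    0x103e34 = true := by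
  decide +kernel

theorem f_2753 (h : TabsF) : FrameF repsF 324 F_2753.f :=
  frame_of rfl c_2753 (runs_of engOK r_2753_0) (by decide +kernel) h.2 h.1

def F_2754 : FrX :=
  ⟨0x1001040012008080000e0084080041000810100004201004101020000480210200a000220011010040050084808000014040201008030808a00000200084,
    0xa3, 1, 0x103260748694a2, 7,
    [(0xa3, 1), (0x207584a6, 4), (0x10547693, 4), (0x647593a8, 4), (0x10547693, 4), (0x216485a7, 4), (0x208693a4, 4), (0x647593a8, 4), (0x208693a4, 4), (0x106574a8, 4), (0x647593a8, 4), (0x216485a7, 4)],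
    [(0x103260748694a2, 7), (0x527381a6, 4), (0x41607395, 4), (0x738492a0, 4), (0x527381a6, 4), (0x41607395, 4)]⟩

def c_2754 : frmChk tB tA F_2754 = true := by decide +kernel

def r_2754_0 : chkL rootF engF2 tB tA sB_324 sA_324 4 F_2754 [(511, 0, 0)]
    0x107417 = true := by
  decide +kernel

theorem f_2754 (h : TabsF) : FrameF repsF 324 F_2754.f :=
  frame_of rfl c_2754 (runs_of engOK r_2754_0) (by decide +kernel) h.2 h.1

def F_2755 : FrX :=
  ⟨0x600020801080810000c0040180410101001004004200020800400048024020620400001080022800040142021001420008004404004008004140008048,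
    0xa0, 1, 0x53608794a0, 5,
    [(0xa0, 1), (0x637584a2, 4), (0x547690a1, 4), (0x64758390, 4), (0x547690a1, 4), (0x21647385, 4), (0x438690a2, 4), (0x64758390, 4), (0x438690a2, 4), (0x657483a1, 4), (0x64758390, 4), (0x21647385, 4)],
    [(0x53608794a0, 5), (0x508397a2, 4), (0x648093a1, 4), (0x64758390, 4), (0x648093a1, 4), (0x21738590, 4), (0x647095a2, 4), (0x64758390, 4), (0x647095a2, 4), (0x307598a1, 4), (0x64758390, 4), (0x21738590, 4)]⟩

def c_2755 : frmChk tB tB F_2755 = true := by decide +kernel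

def r_2755_0 : chkL rootF engF2 tB tB sB_324 sB_324 4 F_2755 [(511, 0, 0)]
    0x10e81e = true := by
  decide +kernel

theorem f_2755 (h : TabsF) : FrameF repsF 324 F_2755.f :=
  frame_of rfl c_2755 (runs_of engOK r_2755_0) (by decide +kernel) h.2 h.2

def F_2756 : FrX :=
  ⟨0x482000044040440000c2040020009000182040002080440000880200040090020012110026000400020801080610002080004080440444010004212000,
    0xa0, 1, 0x415360748496a5, 7,
    [(0xa0, 1), (0x538690a2, 4), (0x548790a1, 4), (0x21437690, 4), (0x538690a2, 4), (0x548790a1, 4)],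
    [(0x415360748496a5, 7), (0x306297a5, 4), (0x306471a8, 4), (0x30428591, 4), (0x306297a5, 4), (0x306471a8, 4)]⟩

def c_2756 : frmChk tA tA F_2756 = true := by decide +kernel

def r_2756_0 : chkL rootF engF2 tA tA sA_324 sA_324 4 F_2756 [(511, 0, 0)]
    0x105c175500f03c0f05c1e06ce178017 = true := by
  decide +kernel

theorem f_2756 (h : TabsF) : FrameF repsF 324 F_2756.f :=
  frame_of rfl c_2756 (runs_of engOK r_2756_0) (by decide +kernel) h.1 h.1

def F_2757 : FrX :=
  ⟨0x80080a000804040e000021010020010000020408822000046100801000040880048200010240000800418001006100010200200c040a804200200221000,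
    0xa6, 1, 0x20657680a3, 5,
    [(0xa6, 1), (0x205396a8, 4), (0x10548796, 4), (0x214396a7, 4), (0x205396a8, 4), (0x10548796, 4)],
    [(0x20657680a3, 5), (0x728093a6, 4), (0x52648193, 4), (0x107593a4, 4), (0x728093a6, 4), (0x52648193, 4)]⟩

def c_2757 : frmChk tA tA F_2757 = true := by decide +kernel

def r_2757_0 : chkL rootF engF2 tA tA sA_324 sA_324 4 F_2757 [(511, 0, 0)]
    0x105c1da2a8c1641b1385a1e0720b42d = true := by
  decide +kernel

theorem f_2757 (h : TabsF) : FrameF repsF 324 F_2757.f :=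
  frame_of rfl c_2757 (runs_of engOK r_2757_0) (by decide +kernel) h.1 h.1

def F_2758 : FrX :=
  ⟨0x2002000900044004000e0204100014100080004080800040182000020800c090021100004020011012800082020400800284003020080800002180008050,
    0xa3, 1, 0x40618598a0, 5,
    [(0xa3, 1), (0x208693a5, 4), (0x10548793, 4), (0x217693a4, 4), (0x208693a5, 4), (0x10548793, 4)],
    [(0x40618598a0, 5), (0x318790a2, 4), (0x547180a6, 4), (0x10548793, 4), (0x547180a6, 4), (0x10627398, 4), (0x305491a2, 4), (0x10548793, 4), (0x305491a2, 4), (0x708193a6, 4), (0x10548793, 4), (0x10627398, 4)]⟩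

def c_2758 : frmChk tA tB F_2758 = true := by decide +kernel

def r_2758_0 : chkL rootF engF2 tA tB sA_324 sB_324 4 F_2758 [(511, 0, 0)]
    0x11381b0f053 = true := by
  decide +kernel

theorem f_2758 (h : TabsF) : FrameF repsF 324 F_2758.f :=
  frame_of rfl c_2758 (runs_of engOK r_2758_0) (by decide +kernel) h.1 h.2

def F_2759 : FrX :=
  ⟨0x2002000900044004000e0204100014100080004081000008110800200902110104000801000062020404042101000800024102000210100a020100008084,
    0xa3, 1, 0x2060768294a6, 6,
    [(0xa3, 1), (0x208693a5, 4), (0x10548793, 4), (0x217693a4, 4), (0x208693a5, 4), (0x10548793, 4)],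
    [(0x2060768294a6, 6), (0x537486a0, 4), (0x20617495, 4), (0x748193a2, 4), (0x537486a0, 4), (0x20617495, 4)]⟩

def c_2759 : frmChk tA tA F_2759 = true := by decide +kernel

def r_2759_0 : chkL rootF engF2 tA tA sA_324 sA_324 4 F_2759 [(511, 0, 0)]
    0x105c0f4340f03c171380f24e834681e = true := by
  decide +kernel

theorem f_2759 (h : TabsF) : FrameF repsF 324 F_2759.f :=
  frame_of rfl c_2759 (runs_of engOK r_2759_0) (by decide +kernel) h.1 h.1

def F_2760 : FrX :=
  ⟨0x482000044040440000c204002000900018204000040a020804080200080088004022020008012202004020404000108018010001810104001101040042,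
    0xa0, 1, 0x5364728190a0, 6,
    [(0xa0, 1), (0x538690a2, 4), (0x548790a1, 4), (0x21437690, 4), (0x538690a2, 4), (0x548790a1, 4)],
    [(0x5364728190a0, 6), (0x415390a7, 4), (0x216390a8, 4), (0x42658790, 4), (0x415390a7, 4), (0x216390a8, 4)]⟩

def c_2760 : frmChk tA tA F_2760 = true := by decide +kernel

def r_2760_0 : chkL rootF engF2 tA tA sA_324 sA_324 4 F_2760 [(511, 0, 0)]
    0x41d0743a18e299a01e18c0f074c68701b0d82e0d8f0 = true := by
  decide +kernel

theorem f_2760 (h : TabsF) : FrameF repsF 324 F_2760.f :=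
  frame_of rfl c_2760 (runs_of engOK r_2760_0) (by decide +kernel) h.1 h.1

def F_2761 : FrX :=
  ⟨0x482000044040440000c204002000900018204000402102000102c00000c010010000520281040080020004203000408080008080448400404004800440,
    0xa0, 1, 0x315098a0, 4,
    [(0xa0, 1), (0x538690a2, 4), (0x548790a1, 4), (0x21437690, 4), (0x538690a2, 4), (0x548790a1, 4)],
    [(0x315098a0, 4), (0x108596a2, 4), (0x408597a3, 4), (0x32417685, 4), (0x108596a2, 4), (0x408597a3, 4)]⟩

def c_2761 : frmChk tA tA F_2761 = true := by decide +kernel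

def r_2761_0 : chkL rootF engF2 tA tA sA_324 sA_324 4 F_2761 [(511, 0, 0)]
    0x13144b0b80f3146a = true := by
  decide +kernel

theorem f_2761 (h : TabsF) : FrameF repsF 324 F_2761.f :=
  frame_of rfl c_2761 (runs_of engOK r_2761_0) (by decide +kernel) h.1 h.1

def F_2762 : FrX :=
  ⟨0x482000044040440000c2040020009000182040002040448008020010010050080080410080005000420020501001002081008280100220040042900001,
    0xa0, 1, 0x2042647180a3, 6,
    [(0xa0, 1), (0x538690a2, 4), (0x548790a1, 4), (0x21437690, 4), (0x538690a2, 4), (0x548790a1, 4)],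
    [(0x2042647180a3, 6), (0x516284a0, 4), (0x10658793, 4), (0x516093a2, 4), (0x10658793, 4), (0x526074a1, 4), (0x208493a6, 4), (0x516093a2, 4), (0x208493a6, 4), (0x506187a2, 4), (0x516093a2, 4), (0x526074a1, 4)]⟩

def c_2762 : frmChk tA tB F_2762 = true := by decide +kernel

def r_2762_0 : chkL rootF engF2 tA tB sA_324 sB_324 4 F_2762 [(511, 0, 0)]
    0x181e4589a070742d05c170d41706c3a = true := by
  decide +kernel

theorem f_2762 (h : TabsF) : FrameF repsF 324 F_2762.f :=
  frame_of rfl c_2762 (runs_of engOK r_2762_0) (by decide +kernel) h.1 h.2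

def F_2763 : FrX :=
  ⟨0x80080a000804040e0000210100200100000204088108100006001002004008200940400084800022001000032300080204100808041a0002020100c0000,
    0xa6, 1, 0x648195a6, 4,
    [(0xa6, 1), (0x205396a8, 4), (0x10548796, 4), (0x214396a7, 4), (0x205396a8, 4), (0x10548796, 4)],
    [(0x648195a6, 4), (0x205493a1, 4), (0x54718096, 4), (0x546382a7, 4), (0x205493a1, 4), (0x54718096, 4)]⟩

def c_2763 : frmChk tA tA F_2763 = true := by decide +kernel

def r_2763_0 : chkL rootF engF2 tA tA sA_324 sA_324 4 F_2763 [(511, 0, 0)]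
    0x13181d4381b1341b = true := by
  decide +kernel

theorem f_2763 (h : TabsF) : FrameF repsF 324 F_2763.f :=
  frame_of rfl c_2763 (runs_of engOK r_2763_0) (by decide +kernel) h.1 h.1

def F_2764 : FrX :=
  ⟨0x80080a000804040e000021010020010000020408a0000808600028400880082000020400082021020028000401102408100002040400103100302440000,
    0xa6, 1, 0x3242647496a6, 6,
    [(0xa6, 1), (0x205396a8, 4), (0x10548796, 4), (0x214396a7, 4), (0x205396a8, 4), (0x10548796, 4)],
    [(0x3242647496a6, 6), (0x406587a2, 4), (0x107593a6, 4), (0x658293a7, 4), (0x107593a6, 4), (0x416285a7, 4), (0x407293a8, 4), (0x658293a7, 4), (0x407293a8, 4), (0x107682a5, 4), (0x658293a7, 4), (0x416285a7, 4)]⟩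

def c_2764 : frmChk tA tB F_2764 = true := by decide +kernel

def r_2764_0 : chkL rootF engF2 tA tB sA_324 sB_324 4 F_2764 [(511, 0, 0)]
    0x48b0b90e4a6c1194698d0691a6250ad23 = true := by
  decide +kernel

theorem f_2764 (h : TabsF) : FrameF repsF 324 F_2764.f :=
  frame_of rfl c_2764 (runs_of engOK r_2764_0) (by decide +kernel) h.1 h.2

theorem cl_324 (h : TabsF) : ∀ f ∈ fr_324, FrameF repsF 324 f :=
  List.forall_mem_cons.2 ⟨f_2747 h, List.forall_mem_cons.2 ⟨f_2748 h, List.forall_mem_cons.2 ⟨f_2749 h, List.forall_mem_cons.2 ⟨f_2750 h, List.forall_mem_cons.2 ⟨f_2751 h, List.forall_mem_cons.2 ⟨f_2752 h, List.forall_mem_cons.2 ⟨f_2753 h, List.forall_mem_cons.2 ⟨f_2754 h, List.forall_mem_cons.2 ⟨f_2755 h, List.forall_mem_cons.2 ⟨f_2756 h, List.forall_mem_cons.2 ⟨f_2757 h, List.forall_mem_cons.2 ⟨f_2758 h, List.forall_mem_cons.2 ⟨f_2759 h, List.forall_mem_cons.2 ⟨f_2760 h, List.forall_mem_cons.2 ⟨f_2761 h, List.forall_mem_cons.2 ⟨f_2762 h, List.forall_mem_cons.2 ⟨f_2763 h, List.forall_mem_cons.2 ⟨f_2764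 h,
    fun _ h0 => absurd h0 List.not_mem_nil⟩⟩⟩⟩⟩⟩⟩⟩⟩⟩⟩⟩⟩⟩⟩⟩⟩⟩

def F_2765 : FrX :=
  ⟨0x80080a000804040e000021010020010000020408a0000408098080020800081001100400050181020308000011001500044000040400188100100440080,
    0xa6, 1, 0x10304250718391a3, 8,
    [(0xa6, 1), (0x205396a8, 4), (0x10548796, 4), (0x214396a7, 4), (0x205396a8, 4), (0x10548796, 4)],
    [(0x10304250718391a3, 8), (0x546187a3, 4), (0x10328795, 4), (0x608794a2, 4), (0x546187a3, 4), (0x10328795, 4)]⟩

def c_2765 : frmChk tA tA F_2765 = true := by decide +kernel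

def r_2765_0 : chkL rootF engF2 tA tA sA_325 sA_325 4 F_2765 [(511, 0, 0)]
    0x52603f2203c0f12cc93285a4c69212c713443c3505a = true := by
  decide +kernel

theorem f_2765 (h : TabsF) : FrameF repsF 325 F_2765.f :=
  frame_of rfl c_2765 (runs_of engOK r_2765_0) (by decide +kernel) h.1 h.1

def F_2766 : FrX :=
  ⟨0x482000044040440000c2040020009000182040000902000800880800000988004820020008008004246020401018100010010006208084000000808048,
    0xa0, 1, 0x314062728298a4, 7,
    [(0xa0, 1), (0x538690a2, 4), (0x548790a1, 4), (0x21437690, 4), (0x538690a2, 4), (0x548790a1, 4)],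
    [(0x314062728298a4, 7), (0x216584a9, 4), (0x436270a5, 4), (0x657091a2, 4), (0x436270a5, 4), (0x618395a2, 4), (0x708492a1, 4), (0x657091a2, 4), (0x708492a1, 4), (0x435291a6, 4), (0x657091a2, 4), (0x618395a2, 4)]⟩

def c_2766 : frmChk tA tB F_2766 = true := by decide +kernel

def r_2766_0 : chkL rootF engF2 tA tB sA_325 sB_325 4 F_2766 [(511, 0, 0)]
    0x127035 = true := by
  decide +kernel

theorem f_2766 (h : TabsF) : FrameF repsF 325 F_2766.f :=
  frame_of rfl c_2766 (runs_of engOK r_2766_0) (by decide +kernel) h.1 h.2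

def F_2767 : FrX :=
  ⟨0x2002000900044004000e020410001410008000408010002820200021022021008000202100200404040c014101001800024002001100000e000111008004,
    0xa3, 1, 0x32405063738297a3, 8,
    [(0xa3, 1), (0x208693a5, 4), (0x10548793, 4), (0x217693a4, 4), (0x208693a5, 4), (0x10548793, 4)],
    [(0x32405063738297a3, 8), (0x308594a2, 4), (0x40517692, 4), (0x207694a3, 4), (0x40517692, 4), (0x204381a9, 4), (0x327685a0, 4), (0x207694a3, 4), (0x327685a0, 4), (0x425190a3, 4), (0x207694a3, 4), (0x204381a9, 4)]⟩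

def c_2767 : frmChk tA tB F_2767 = true := by decide +kernel

def r_2767_0 : chkL rootF engF2 tA tB sA_325 sB_325 4 F_2767 [(511, 0, 0)]
    0x121c2d0b50b22c2b12c3a03c4d = true := by
  decide +kernel

theorem f_2767 (h : TabsF) : FrameF repsF 325 F_2767.f :=
  frame_of rfl c_2767 (runs_of engOK r_2767_0) (by decide +kernel) h.1 h.2

def F_2768 : FrX :=
  ⟨0x2002000900044004000e020410001410008000408080910000a0000110020101200108020000084008406102001010101080090040208800040800050280,
    0xa3, 1, 0x3240546372a2, 6,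
    [(0xa3, 1), (0x208693a5, 4), (0x10548793, 4), (0x217693a4, 4), (0x208693a5, 4), (0x10548793, 4)],
    [(0x3240546372a2, 6), (0x608297a4, 4), (0x41508397, 4), (0x326597a1, 4), (0x608297a4, 4), (0x41508397, 4)]⟩

def c_2768 : frmChk tA tA F_2768 = true := by decide +kernel

def r_2768_0 : chkL rootF engF2 tA tA sA_325 sA_325 4 F_2768 [(511, 0, 0)]
    0x103c1b0780f0f01b0780f06c170b88d09c598b055 = true := by
  decide +kernel

theorem f_2768 (h : TabsF) : FrameF repsF 325 F_2768.f :=
  frame_of rfl c_2768 (runs_of engOK r_2768_0) (by decide +kernel) h.1 h.1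

def F_2769 : FrX :=
  ⟨0x2002000900044004000e0204100014100080004080101a080010020200802002000022220010140024000048011030101000802080400208003210082000,
    0xa3, 1, 0x43547284a2, 5,
    [(0xa3, 1), (0x208693a5, 4), (0x10548793, 4), (0x217693a4, 4), (0x208693a5, 4), (0x10548793, 4)],
    [(0x43547284a2, 5), (0x326485a0, 4), (0x10628397, 4), (0x32548697, 4), (0x10628397, 4), (0x425386a1, 4), (0x658497a0, 4), (0x32548697, 4), (0x658497a0, 4), (0x10546382, 4), (0x32548697, 4), (0x425386a1, 4)]⟩

def c_2769 : frmChk tA tB F_2769 = true := by decide +kernel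

def r_2769_0 : chkL rootF engF2 tA tB sA_325 sB_325 4 F_2769 [(511, 0, 0)]
    0x4721c447 = true := by
  decide +kernel

theorem f_2769 (h : TabsF) : FrameF repsF 325 F_2769.f :=
  frame_of rfl c_2769 (runs_of engOK r_2769_0) (by decide +kernel) h.1 h.2

def F_2770 : FrX :=
  ⟨0x482000044040440000c2040020009000182040010100c08008000030000428100820001002049000040020601029000140000884000222040002900001,
    0xa0, 1, 0x53657680a5, 5,
    [(0xa0, 1), (0x538690a2, 4), (0x548790a1, 4), (0x21437690, 4), (0x538690a2, 4), (0x548790a1, 4)],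
    [(0x53657680a5, 5), (0x407582a3, 4), (0x738196a4, 4), (0x507496a3, 4), (0x738196a4, 4), (0x215374a0, 4), (0x54708296, 4), (0x507496a3, 4), (0x54708296, 4), (0x435081a7, 4), (0x507496a3, 4), (0x215374a0, 4)]⟩

def c_2770 : frmChk tA tB F_2770 = true := by decide +kernel

def r_2770_0 : chkL rootF engF2 tA tB sA_325 sB_325 4 F_2770 [(511, 0, 0)]
    0x106c1b0b85906c2b05c1b = true := by
  decide +kernel

theorem f_2770 (h : TabsF) : FrameF repsF 325 F_2770.f :=
  frame_of rfl c_2770 (runs_of engOK r_2770_0) (by decide +kernel) h.1 h.2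

def F_2771 : FrX :=
  ⟨0x482000044040440000c204002000900018204000400822080110000802401001008042000144008008c20000202800800808a000408082002002010410,
    0xa0, 1, 0x1032627087a1, 6,
    [(0xa0, 1), (0x538690a2, 4), (0x548790a1, 4), (0x21437690, 4), (0x538690a2, 4), (0x548790a1, 4)],
    [(0x1032627087a1, 6), (0x32417685, 4), (0x548390a7, 4), (0x21438590, 4), (0x548390a7, 4), (0x435182a6, 4), (0x31427690, 4), (0x21438590, 4), (0x31427690, 4), (0x215384a7, 4), (0x21438590, 4), (0x435182a6, 4)]⟩

def c_2771 : frmChk tA tB F_2771 = true := by decide +kernel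

def r_2771_0 : chkL rootF engF2 tA tB sA_325 sB_325 4 F_2771 [(511, 0, 0)]
    0x43c03c0f07516 = true := by
  decide +kernel

theorem f_2771 (h : TabsF) : FrameF repsF 325 F_2771.f :=
  frame_of rfl c_2771 (runs_of engOK r_2771_0) (by decide +kernel) h.1 h.2

def F_2772 : FrX :=
  ⟨0x2002000900044004000e02041000141000800040810018048010000110802001200100102002020880000110081048020300082040048000444040014200,
    0xa3, 1, 0x32637286a2, 5,
    [(0xa3, 1), (0x208693a5, 4), (0x10548793, 4), (0x217693a4, 4), (0x208693a5, 4), (0x10548793, 4)],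
    [(0x32637286a2, 5), (0x425386a0, 4), (0x10548397, 4), (0x53628497, 4), (0x10548397, 4), (0x526384a1, 4), (0x648297a0, 4), (0x53628497, 4), (0x648297a0, 4), (0x10436285, 4), (0x53628497, 4), (0x526384a1, 4)]⟩

def c_2772 : frmChk tA tB F_2772 = true := by decide +kernel

def r_2772_0 : chkL rootF engF2 tA tB sA_325 sB_325 4 F_2772 [(511, 0, 0)]
    0x109c2e03c2d = true := by
  decide +kernel

theorem f_2772 (h : TabsF) : FrameF repsF 325 F_2772.f :=
  frame_of rfl c_2772 (runs_of engOK r_2772_0) (by decide +kernel) h.1 h.2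

def F_2773 : FrX :=
  ⟨0x482000044040440000c2040020009000182040000442010101080800020808004800102102000180200010203001420100000206048400100804800440,
    0xa0, 1, 0x3151627282a0, 6,
    [(0xa0, 1), (0x538690a2, 4), (0x548790a1, 4), (0x21437690, 4), (0x538690a2, 4), (0x548790a1, 4)],
    [(0x3151627282a0, 6), (0x216374a8, 4), (0x436290a5, 4), (0x42637190, 4), (0x436290a5, 4), (0x42617385, 4), (0x417290a8, 4), (0x42637190, 4), (0x417290a8, 4), (0x326471a5, 4), (0x42637190, 4), (0x42617385, 4)]⟩

def c_2773 : frmChk tA tB F_2773 = true := by decide +kernel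

def r_2773_0 : chkL rootF engF2 tA tB sA_325 sB_325 4 F_2773 [(511, 0, 0)]
    0x103c6392a4a09caa28c17 = true := by
  decide +kernel

theorem f_2773 (h : TabsF) : FrameF repsF 325 F_2773.f :=
  frame_of rfl c_2773 (runs_of engOK r_2773_0) (by decide +kernel) h.1 h.2

def F_2774 : FrX :=
  ⟨0x482000044040440000c2040020009000182040001100408001200020000c08008820060122000002020401080600240440006010a00602000002800008,
    0xa0, 1, 0x2150618795a6, 6,
    [(0xa0, 1), (0x538690a2, 4), (0x548790a1, 4), (0x21437690, 4), (0x538690a2, 4), (0x548790a1, 4)],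
    [(0x2150618795a6, 6), (0x205193a7, 4), (0x20658794, 4), (0x204361a8, 4), (0x205193a7, 4), (0x20658794, 4)]⟩

def c_2774 : frmChk tA tA F_2774 = true := by decide +kernel

def r_2774_0 : chkL rootF engF2 tA tA sA_325 sA_325 4 F_2774 [(511, 0, 0)]
    0x60bc282e03c0f0ac1b = true := by
  decide +kernel

theorem f_2774 (h : TabsF) : FrameF repsF 325 F_2774.f :=
  frame_of rfl c_2774 (runs_of engOK r_2774_0) (by decide +kernel) h.1 h.1

def F_2775 : FrX :=
  ⟨0x2002000900044004000e02041000141000800040808000202800a0001200220004012200404050102002008201004814002008a000800208002210080010,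
    0xa3, 1, 0x214351627096a4, 7,
    [(0xa3, 1), (0x208693a5, 4), (0x10548793, 4), (0x217693a4, 4), (0x208693a5, 4), (0x10548793, 4)],
    [(0x214351627096a4, 7), (0x207694a8, 4), (0x317590a2, 4), (0x203184a9, 4), (0x317590a2, 4), (0x406582a9, 4), (0x317698a4, 4), (0x203184a9, 4), (0x317698a4, 4), (0x758492a0, 4), (0x203184a9, 4), (0x406582a9, 4)]⟩

def c_2775 : frmChk tA tB F_2775 = true := by decide +kernel

def r_2775_0 : chkL rootF engF2 tA tB sA_325 sB_325 4 F_2775 [(511, 0, 0)]
    0x11580f06c1b0cc0f = true := by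
  decide +kernel

theorem f_2775 (h : TabsF) : FrameF repsF 325 F_2775.f :=
  frame_of rfl c_2775 (runs_of engOK r_2775_0) (by decide +kernel) h.1 h.2

def F_2776 : FrX :=
  ⟨0x80080a000804040e00002101002001000002040882200001120010008812004004084002022000080301800201040420242000022002200500220020200,
    0xa6, 1, 0x30618291a7, 5,
    [(0xa6, 1), (0x205396a8, 4), (0x10548796, 4), (0x214396a7, 4), (0x205396a8, 4), (0x10548796, 4)],
    [(0x30618291a7, 5), (0x104283a5, 4), (0x547693a1, 4), (0x204176a5, 4), (0x547693a1, 4), (0x415298a0, 4), (0x21407683, 4), (0x204176a5, 4), (0x21407683, 4), (0x205193a4, 4), (0x204176a5, 4), (0x415298a0, 4)]⟩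

def c_2776 : frmChk tA tB F_2776 = true := by decide +kernel

def r_2776_0 : chkL rootF engF2 tA tB sA_325 sB_325 4 F_2776 [(511, 0, 0)]
    0x41706c0f03c0f1384e1582e196921584b = true := by
  decide +kernel

theorem f_2776 (h : TabsF) : FrameF repsF 325 F_2776.f :=
  frame_of rfl c_2776 (runs_of engOK r_2776_0) (by decide +kernel) h.1 h.2

def F_2777 : FrX :=
  ⟨0x80080a000804040e00002101002001000002040880880800220002808040081041000420008500020030080014050101040048002000908100020600080,
    0xa6, 1, 0x5263768090a1, 6,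
    [(0xa6, 1), (0x205396a8, 4), (0x10548796, 4), (0x214396a7, 4), (0x205396a8, 4), (0x10548796, 4)],
    [(0x5263768090a1, 6), (0x32407695, 4), (0x427381a9, 4), (0x32607481, 4), (0x427381a9, 4), (0x206374a5, 4), (0x64708195, 4), (0x32607481, 4), (0x64708195, 4), (0x436072a9, 4), (0x32607481, 4), (0x206374a5, 4)]⟩

def c_2777 : frmChk tA tB F_2777 = true := by decide +kernel

def r_2777_0 : chkL rootF engF2 tA tB sA_325 sB_325 4 F_2777 [(511, 0, 0)]
    0x42b14f30 = true := by
  decide +kernel

theorem f_2777 (h : TabsF) : FrameF repsF 325 F_2777.f :=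
  frame_of rfl c_2777 (runs_of engOK r_2777_0) (by decide +kernel) h.1 h.2

def F_2778 : FrX :=
  ⟨0x600020801080810000c00401804101010010040040408200000240260010400404080024010413800000002030084402040080004000004144080a0040,
    0xa0, 1, 0x305462758693a6, 7,
    [(0xa0, 1), (0x637584a2, 4), (0x547690a1, 4), (0x64758390, 4), (0x547690a1, 4), (0x21647385, 4), (0x438690a2, 4), (0x64758390, 4), (0x438690a2, 4), (0x657483a1, 4), (0x64758390, 4), (0x21647385, 4)],
    [(0x305462758693a6, 7), (0x526374a9, 4), (0x317580a4, 4), (0x748092a5, 4), (0x317580a4, 4), (0x617294a5, 4), (0x638095a2, 4), (0x748092a5, 4), (0x638095a2, 4), (0x315492a7, 4), (0x748092a5, 4), (0x617294a5, 4)]⟩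

def c_2778 : frmChk tB tB F_2778 = true := by decide +kernel

def r_2778_0 : chkL rootF engF2 tB tB sB_325 sB_325 4 F_2778 [(511, 0, 0)]
    0x118c17 = true := by
  decide +kernel

theorem f_2778 (h : TabsF) : FrameF repsF 325 F_2778.f :=
  frame_of rfl c_2778 (runs_of engOK r_2778_0) (by decide +kernel) h.2 h.2

def F_2779 : FrX :=
  ⟨0x600020801080810000c0040180410101001004004160400000102008101004000408080880040200001410a020102012100200102100010140200a0020,
    0xa0, 1, 0x30516573a3, 5,
    [(0xa0, 1), (0x637584a2, 4), (0x547690a1, 4), (0x64758390, 4), (0x547690a1, 4), (0x21647385, 4), (0x438690a2, 4), (0x64758390, 4), (0x438690a2, 4), (0x657483a1, 4), (0x64758390, 4), (0x21647385, 4)],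
    [(0x30516573a3, 5), (0x328197a6, 4), (0x53648097, 4), (0x105297a4, 4), (0x328197a6, 4), (0x53648097, 4)]⟩

def c_2779 : frmChk tB tA F_2779 = true := by decide +kernel

def r_2779_0 : chkL rootF engF2 tB tA sB_325 sA_325 4 F_2779 [(511, 0, 0)]
    0x45a13839 = true := by
  decide +kernel

theorem f_2779 (h : TabsF) : FrameF repsF 325 F_2779.f :=
  frame_of rfl c_2779 (runs_of engOK r_2779_0) (by decide +kernel) h.2 h.1

def F_2780 : FrX :=
  ⟨0x1001040012008080000e0084080041000810100004082008102060002008002004804800102080c808004410800000240000805010104400014402000084,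
    0xa3, 1, 0x4051728396a3, 6,
    [(0xa3, 1), (0x207584a6, 4), (0x10547693, 4), (0x647593a8, 4), (0x10547693, 4), (0x216485a7, 4), (0x208693a4, 4), (0x647593a8, 4), (0x208693a4, 4), (0x106574a8, 4), (0x647593a8, 4), (0x216485a7, 4)],
    [(0x4051728396a3, 6), (0x213074a9, 4), (0x10548692, 4), (0x218690a3, 4), (0x10548692, 4), (0x317590a2, 4), (0x748693a0, 4), (0x218690a3, 4), (0x748693a0, 4), (0x205491a3, 4), (0x218690a3, 4), (0x317590a2, 4)]⟩

def c_2780 : frmChk tB tB F_2780 = true := by decide +kernel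

def r_2780_0 : chkL rootF engF2 tB tB sB_325 sB_325 4 F_2780 [(511, 0, 0)]
    0x45a1681e12c66 = true := by
  decide +kernel

theorem f_2780 (h : TabsF) : FrameF repsF 325 F_2780.f :=
  frame_of rfl c_2780 (runs_of engOK r_2780_0) (by decide +kernel) h.2 h.2

def F_2781 : FrX :=
  ⟨0x1001040012008080000e008408004100081010000408400410100208008020300101001021002041080c2402000020802008800c08004004040004010210,
    0xa3, 1, 0x3054627190a1, 6,
    [(0xa3, 1), (0x207584a6, 4), (0x10547693, 4), (0x647593a8, 4), (0x10547693, 4), (0x216485a7, 4), (0x208693a4, 4), (0x647593a8, 4), (0x208693a4, 4), (0x106574a8, 4), (0x647593a8, 4), (0x216485a7, 4)],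
    [(0x3054627190a1, 6), (0x20418596, 4), (0x215473a9, 4), (0x41527380, 4), (0x215473a9, 4), (0x105284a6, 4), (0x50738296, 4), (0x41527380, 4), (0x50738296, 4), (0x425180a9, 4), (0x41527380, 4), (0x105284a6, 4)]⟩

def c_2781 : frmChk tB tB F_2781 = true := by decide +kernel

def r_2781_0 : chkL rootF engF2 tB tB sB_325 sB_325 4 F_2781 [(511, 0, 0)]
    0x11700f = true := by
  decide +kernel

theorem f_2781 (h : TabsF) : FrameF repsF 325 F_2781.f :=
  frame_of rfl c_2781 (runs_of engOK r_2781_0) (by decide +kernel) h.2 h.2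

def F_2782 : FrX :=
  ⟨0x1001040012008080000e00840800410008101000040410048020002800080048404002204080200120008200431000800818002008a00801108008022000,
    0xa3, 1, 0x104254608092a3, 7,
    [(0xa3, 1), (0x207584a6, 4), (0x10547693, 4), (0x647593a8, 4), (0x10547693, 4), (0x216485a7, 4), (0x208693a4, 4), (0x647593a8, 4), (0x208693a4, 4), (0x106574a8, 4), (0x647593a8, 4), (0x216485a7, 4)],
    [(0x104254608092a3, 7), (0x657298a1, 4), (0x43527180, 4), (0x435172a6, 4), (0x43527180, 4), (0x516290a7, 4), (0x436198a5, 4), (0x435172a6, 4), (0x436198a5, 4), (0x217580a6, 4), (0x435172a6, 4), (0x516290a7, 4)]⟩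

def c_2782 : frmChk tB tB F_2782 = true := by decide +kernel

def r_2782_0 : chkL rootF engF2 tB tB sB_325 sB_325 4 F_2782 [(511, 0, 0)]
    0x10782b = true := by
  decide +kernel

theorem f_2782 (h : TabsF) : FrameF repsF 325 F_2782.f :=
  frame_of rfl c_2782 (runs_of engOK r_2782_0) (by decide +kernel) h.2 h.2

def F_2783 : FrX :=
  ⟨0x1001040012008080000e00840800410008101000048202000301100100080044004108004081200020022022000810404104080400820800060000840280,
    0xa3, 1, 0x3141607286a0, 6,
    [(0xa3, 1), (0x207584a6, 4), (0x10547693, 4), (0x647593a8, 4), (0x10547693, 4), (0x216485a7, 4), (0x208693a4, 4), (0x647593a8, 4), (0x208693a4, 4), (0x106574a8, 4), (0x647593a8, 4), (0x216485a7, 4)],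
    [(0x3141607286a0, 6), (0x518096a7, 4), (0x205396a4, 4), (0x31748296, 4), (0x518096a7, 4), (0x205396a4, 4)]⟩

def c_2783 : frmChk tB tA F_2783 = true := by decide +kernel

def r_2783_0 : chkL rootF engF2 tB tA sB_325 sA_325 4 F_2783 [(511, 0, 0)]
    0x10ac630781e0781b0ac35 = true := by
  decide +kernel

theorem f_2783 (h : TabsF) : FrameF repsF 325 F_2783.f :=
  frame_of rfl c_2783 (runs_of engOK r_2783_0) (by decide +kernel) h.2 h.1

def F_2784 : FrX :=
  ⟨0x600020801080810000c0040180410101001004000b20008000101400000a040048001042a00000000220006010a0a00c00001024004401100400140020,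
    0xa0, 1, 0x214252607387a3, 7,
    [(0xa0, 1), (0x637584a2, 4), (0x547690a1, 4), (0x64758390, 4), (0x547690a1, 4), (0x21647385, 4), (0x438690a2, 4), (0x64758390, 4), (0x438690a2, 4), (0x657483a1, 4), (0x64758390, 4), (0x21647385, 4)],
    [(0x214252607387a3, 7), (0x316584a0, 4), (0x41628097, 4), (0x108497a3, 4), (0x41628097, 4), (0x104352a8, 4), (0x306597a1, 4), (0x108497a3, 4), (0x306597a1, 4), (0x406281a3, 4), (0x108497a3, 4), (0x104352a8, 4)]⟩

def c_2784 : frmChk tB tB F_2784 = true := by decide +kernel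

def r_2784_0 : chkL rootF engF2 tB tB sB_325 sB_325 4 F_2784 [(511, 0, 0)]
    0x499264d10e436 = true := by
  decide +kernel

theorem f_2784 (h : TabsF) : FrameF repsF 325 F_2784.f :=
  frame_of rfl c_2784 (runs_of engOK r_2784_0) (by decide +kernel) h.2 h.2

def F_2785 : FrX :=
  ⟨0x1001040012008080000e008408004100081010000408800800a0008100020030030108010101401000184004802000014100080400820840010101000290,
    0xa3, 1, 0x214150658190a3, 7,
    [(0xa3, 1), (0x207584a6, 4), (0x10547693, 4), (0x647593a8, 4), (0x10547693, 4), (0x216485a7, 4), (0x208693a4, 4), (0x647593a8, 4), (0x208693a4, 4), (0x106574a8, 4), (0x647593a8, 4), (0x216485a7, 4)],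
    [(0x214150658190a3, 7), (0x427691a0, 4), (0x53627098, 4), (0x205376a4, 4), (0x53627098, 4), (0x206481a7, 4), (0x405391a2, 4), (0x205376a4, 4), (0x405391a2, 4), (0x607298a4, 4), (0x205376a4, 4), (0x206481a7, 4)]⟩

def c_2785 : frmChk tB tB F_2785 = true := by decide +kernel

def r_2785_0 : chkL rootF engF2 tB tB sB_325 sB_325 4 F_2785 [(511, 0, 0)]
    0x43506c74a0f81e201d03c171d261 = true := by
  decide +kernel

theorem f_2785 (h : TabsF) : FrameF repsF 325 F_2785.f :=
  frame_of rfl c_2785 (runs_of engOK r_2785_0) (by decide +kernel) h.2 h.2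

def F_2786 : FrX :=
  ⟨0x600020801080810000c0040180410101001004002200024000024202204040080400088020010080424840080420002404220100102000420100008108,
    0xa0, 1, 0x1051627492a4, 6,
    [(0xa0, 1), (0x637584a2, 4), (0x547690a1, 4), (0x64758390, 4), (0x547690a1, 4), (0x21647385, 4), (0x438690a2, 4), (0x64758390, 4), (0x438690a2, 4), (0x657483a1, 4), (0x64758390, 4), (0x21647385, 4)],
    [(0x1051627492a4, 6), (0x324091a8, 4), (0x425176a0, 4), (0x407683a2, 4), (0x425176a0, 4), (0x438095a2, 4), (0x768291a3, 4), (0x407683a2, 4), (0x768291a3, 4), (0x205183a4, 4), (0x407683a2, 4), (0x438095a2, 4)]⟩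

def c_2786 : frmChk tB tB F_2786 = true := by decide +kernel

def r_2786_0 : chkL rootF engF2 tB tB sB_325 sB_325 4 F_2786 [(511, 0, 0)]
    0x670d203313b84 = true := by
  decide +kernel

theorem f_2786 (h : TabsF) : FrameF repsF 325 F_2786.f :=
  frame_of rfl c_2786 (runs_of engOK r_2786_0) (by decide +kernel) h.2 h.2

def F_2787 : FrX :=
  ⟨0x2002000900044004000e0204100014100080004080800045800120000a000c00020101020120010042020108800000801040001084010202400242801001,
    0xa3, 1, 0x10647080a5, 5,
    [(0xa3, 1), (0x208693a5, 4), (0x10548793, 4), (0x217693a4, 4), (0x208693a5, 4), (0x10548793, 4)],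
    [(0x10647080a5, 5), (0x437682a1, 4), (0x418095a6, 4), (0x647395a1, 4), (0x418095a6, 4), (0x203164a7, 4), (0x63748295, 4), (0x647395a1, 4), (0x63748295, 4), (0x617380a4, 4), (0x647395a1, 4), (0x203164a7, 4)]⟩

def c_2787 : frmChk tA tB F_2787 = true := by decide +kernel

def r_2787_0 : chkL rootF engF2 tA tB sA_325 sB_325 4 F_2787 [(511, 0, 0)]
    0x12641b = true := by
  decide +kernel

theorem f_2787 (h : TabsF) : FrameF repsF 325 F_2787.f :=
  frame_of rfl c_2787 (runs_of engOK r_2787_0) (by decide +kernel) h.1 h.2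

def F_2788 : FrX :=
  ⟨0x482000044040440000c2040020009000182040000821100008080900010101200200061804040080000110888000400100200111090080014020100404,
    0xa0, 1, 0x213142547298a7, 7,
    [(0xa0, 1), (0x538690a2, 4), (0x548790a1, 4), (0x21437690, 4), (0x538690a2, 4), (0x548790a1, 4)],
    [(0x213142547298a7, 7), (0x627095a1, 4), (0x305184a6, 4), (0x658492a1, 4), (0x305184a6, 4), (0x657391a2, 4), (0x52708496, 4), (0x658492a1, 4), (0x52708496, 4), (0x306192a5, 4), (0x658492a1, 4), (0x657391a2, 4)]⟩

def c_2788 : frmChk tA tB F_2788 = true := by decide +kernel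

def r_2788_0 : chkL rootF engF2 tA tB sA_325 sB_325 4 F_2788 [(511, 0, 0)]
    0x105c1705c4b1a44e05c1783a2a05c6507417c84470db2205c1705c1705c1d = true := by
  decide +kernel

theorem f_2788 (h : TabsF) : FrameF repsF 325 F_2788.f :=
  frame_of rfl c_2788 (runs_of engOK r_2788_0) (by decide +kernel) h.1 h.2

def F_2789 : FrX :=
  ⟨0x80080a000804040e00002101002001000002040890020001420090020014008004021008004220808210000108040400224080022002220002050800200,
    0xa6, 1, 0x5160718090a8, 6,
    [(0xa6, 1), (0x205396a8, 4), (0x10548796, 4), (0x214396a7, 4), (0x205396a8, 4), (0x10548796, 4)],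
    [(0x5160718090a8, 6), (0x305192a4, 4), (0x41508697, 4), (0x405186a3, 4), (0x41508697, 4), (0x405372a1, 4), (0x438692a0, 4), (0x405186a3, 4), (0x438692a0, 4), (0x105497a3, 4), (0x405186a3, 4), (0x405372a1, 4)]⟩

def c_2789 : frmChk tA tB F_2789 = true := by decide +kernel

def r_2789_0 : chkL rootF engF2 tA tB sA_325 sB_325 4 F_2789 [(511, 0, 0)]
    0x10f04e074561343c = true := by
  decide +kernel

theorem f_2789 (h : TabsF) : FrameF repsF 325 F_2789.f :=
  frame_of rfl c_2789 (runs_of engOK r_2789_0) (by decide +kernel) h.1 h.2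

def F_2790 : FrX :=
  ⟨0x600020801080810000c0040180410101001004000a0004800003002800a202080000400880452200400100880008210088000100002040000884210108,
    0xa0, 1, 0x3140536098a4, 6,
    [(0xa0, 1), (0x637584a2, 4), (0x547690a1, 4), (0x64758390, 4), (0x547690a1, 4), (0x21647385, 4), (0x438690a2, 4), (0x64758390, 4), (0x438690a2, 4), (0x657483a1, 4), (0x64758390, 4), (0x21647385, 4)],
    [(0x3140536098a4, 6), (0x546271a9, 4), (0x637480a1, 4), (0x718095a4, 4), (0x637480a1, 4), (0x327591a4, 4), (0x628094a5, 4), (0x718095a4, 4), (0x628094a5, 4), (0x416395a7, 4), (0x718095a4, 4), (0x327591a4, 4)]⟩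

def c_2790 : frmChk tB tB F_2790 = true := by decide +kernel

def r_2790_0 : chkL rootF engF2 tB tB sB_325 sB_325 4 F_2790 [(511, 0, 0)]
    0x4271e0170b417 = true := by
  decide +kernel

theorem f_2790 (h : TabsF) : FrameF repsF 325 F_2790.f :=
  frame_of rfl c_2790 (runs_of engOK r_2790_0) (by decide +kernel) h.2 h.2

def F_2791 : FrX :=
  ⟨0x600020801080810000c0040180410101001004008010808000020442000c00024820004088220120002400400210080708000400000840020040088048,
    0xa0, 1, 0x213054718193a6, 7,
    [(0xa0, 1), (0x637584a2, 4), (0x547690a1, 4), (0x64758390, 4), (0x547690a1, 4), (0x21647385, 4), (0x438690a2, 4), (0x64758390, 4), (0x438690a2, 4), (0x657483a1, 4), (0x64758390, 4), (0x21647385, 4)],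
    [(0x213054718193a6, 7), (0x314275a9, 4), (0x546083a2, 4), (0x426097a5, 4), (0x546083a2, 4), (0x748192a5, 4), (0x316095a7, 4), (0x426097a5, 4), (0x316095a7, 4), (0x528397a4, 4), (0x426097a5, 4), (0x748192a5, 4)]⟩

def c_2791 : frmChk tB tB F_2791 = true := by decide +kernel

def r_2791_0 : chkL rootF engF2 tB tB sB_325 sB_325 4 F_2791 [(511, 0, 0)]
    0x4331a40f = true := by
  decide +kernel

theorem f_2791 (h : TabsF) : FrameF repsF 325 F_2791.f :=
  frame_of rfl c_2791 (runs_of engOK r_2791_0) (by decide +kernel) h.2 h.2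

def F_2792 : FrX :=
  ⟨0x600020801080810000c0040180410101001004002080440000082102000240020408408020010208402400902008200300000848002040020040808021,
    0xa0, 1, 0x213050748197a3, 7,
    [(0xa0, 1), (0x637584a2, 4), (0x547690a1, 4), (0x64758390, 4), (0x547690a1, 4), (0x21647385, 4), (0x438690a2, 4), (0x64758390, 4), (0x438690a2, 4), (0x657483a1, 4), (0x64758390, 4), (0x21647385, 4)],
    [(0x213050748197a3, 7), (0x517293a6, 4), (0x40738596, 4), (0x407693a2, 4), (0x40738596, 4), (0x327681a9, 4), (0x405162a7, 4), (0x407693a2, 4), (0x405162a7, 4), (0x638597a2, 4), (0x407693a2, 4), (0x327681a9, 4)]⟩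

def c_2792 : frmChk tB tB F_2792 = true := by decide +kernel

def r_2792_0 : chkL rootF engF2 tB tB sB_325 sB_325 4 F_2792 [(511, 0, 0)]
    0x106c1d07817 = true := by
  decide +kernel

theorem f_2792 (h : TabsF) : FrameF repsF 325 F_2792.f :=
  frame_of rfl c_2792 (runs_of engOK r_2792_0) (by decide +kernel) h.2 h.2

theorem cl_325 (h : TabsF) : ∀ f ∈ fr_325, FrameF repsF 325 f :=
  List.forall_mem_cons.2 ⟨f_2765 h, List.forall_mem_cons.2 ⟨f_2766 h, List.forall_mem_cons.2 ⟨f_2767 h, List.forall_mem_cons.2 ⟨f_2768 h, List.forall_mem_cons.2 ⟨f_2769 h, List.forall_mem_cons.2 ⟨f_2770 h, List.forall_mem_cons.2 ⟨f_2771 h, List.forall_mem_cons.2 ⟨f_2772 h, List.forall_mem_cons.2 ⟨f_2773 h, List.forall_mem_cons.2 ⟨f_2774 h, List.forall_mem_cons.2 ⟨f_2775 h, List.forall_mem_cons.2 ⟨f_2776 h, List.forall_mem_cons.2 ⟨f_2777 h, List.forall_mem_cons.2 ⟨f_2778 h, List.forall_mem_cons.2 ⟨f_2779 h, List.forall_mem_cons.2 ⟨f_2780 h, List.forall_mem_cons.2 ⟨f_2781 h, List.forall_mem_cons.2 ⟨f_2782 h, List.forall_mem_cons.2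 ⟨f_2783 h, List.forall_mem_cons.2 ⟨f_2784 h, List.forall_mem_cons.2 ⟨f_2785 h, List.forall_mem_cons.2 ⟨f_2786 h, List.forall_mem_cons.2 ⟨f_2787 h, List.forall_mem_cons.2 ⟨f_2788 h, List.forall_mem_cons.2 ⟨f_2789 h, List.forall_mem_cons.2 ⟨f_2790 h, List.forall_mem_cons.2 ⟨f_2791 h, List.forall_mem_cons.2 ⟨f_2792 h,
    fun _ h0 => absurd h0 List.not_mem_nil⟩⟩⟩⟩⟩⟩⟩⟩⟩⟩⟩⟩⟩⟩⟩⟩⟩⟩⟩⟩⟩⟩⟩⟩⟩⟩⟩⟩

def F_2793 : FrX :=
  ⟨0x2002000900044004000e02041000141000800040810000028080810012002200220600020044020080420180081018100080480084000200440202002001,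
    0xa3, 1, 0x2051748097a1, 6,
    [(0xa3, 1), (0x208693a5, 4), (0x10548793, 4), (0x217693a4, 4), (0x208693a5, 4), (0x10548793, 4)],
    [(0x2051748097a1, 6), (0x31546280, 4), (0x547192a8, 4), (0x547396a0, 4), (0x31546280, 4), (0x547192a8, 4)]⟩

def c_2793 : frmChk tA tA F_2793 = true := by decide +kernel

def r_2793_0 : chkL rootF engF2 tA tA sA_326 sA_326 4 F_2793 [(511, 0, 0)]
    0x10b43319631 = true := by
  decide +kernel

theorem f_2793 (h : TabsF) : FrameF repsF 326 F_2793.f :=
  frame_of rfl c_2793 (runs_of engOK r_2793_0) (by decide +kernel) h.1 h.1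

def F_2794 : FrX :=
  ⟨0x482000044040440000c204002000900018204000048101010120008002010200a000432000040000020404a02009008440020110200202100010800401,
    0xa0, 1, 0x10215180a2, 5,
    [(0xa0, 1), (0x538690a2, 4), (0x548790a1, 4), (0x21437690, 4), (0x538690a2, 4), (0x548790a1, 4)],
    [(0x10215180a2, 5), (0x416372a8, 4), (0x42768590, 4), (0x31647290, 4), (0x42768590, 4), (0x216473a5, 4), (0x436190a8, 4), (0x31647290, 4), (0x436190a8, 4), (0x31627485, 4), (0x31647290, 4), (0x216473a5, 4)]⟩

def c_2794 : frmChk tA tB F_2794 = true := by decide +kernel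

def r_2794_0 : chkL rootF engF2 tA tB sA_326 sB_326 4 F_2794 [(511, 0, 0)]
    0x44e12c2d076c10ad070b44b0e83a0781e = true := by
  decide +kernel

theorem f_2794 (h : TabsF) : FrameF repsF 326 F_2794.f :=
  frame_of rfl c_2794 (runs_of engOK r_2794_0) (by decide +kernel) h.1 h.2

def F_2795 : FrX :=
  ⟨0x80080a000804040e000021010020010000020408a0000404224004100080088008014012020040200801800a000540002200200110004025002000c1000,
    0xa6, 1, 0x10203241617090a8, 8,
    [(0xa6, 1), (0x205396a8, 4), (0x10548796, 4), (0x214396a7, 4), (0x205396a8, 4), (0x10548796, 4)],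
    [(0x10203241617090a8, 8), (0x518793a4, 4), (0x508796a2, 4), (0x10426387, 4), (0x518793a4, 4), (0x508796a2, 4)]⟩

def c_2795 : frmChk tA tA F_2795 = true := by decide +kernel

def r_2795_0 : chkL rootF engF2 tA tA sA_326 sA_326 4 F_2795 [(511, 0, 0)]
    0x14645a47223a85194711c05d1c17149328ca4d017078593301b06c271a43c0f00f = true := by
  decide +kernel

theorem f_2795 (h : TabsF) : FrameF repsF 326 F_2795.f :=
  frame_of rfl c_2795 (runs_of engOK r_2795_0) (by decide +kernel) h.1 h.1

def F_2796 : FrX :=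
  ⟨0x482000044040440000c2040020009000182040000480220801080800020108200400072000040000020811080409008500002110048040004004012008,
    0xa0, 1, 0x425461738290a0, 7,
    [(0xa0, 1), (0x538690a2, 4), (0x548790a1, 4), (0x21437690, 4), (0x538690a2, 4), (0x548790a1, 4)],
    [(0x425461738290a0, 7), (0x417290a8, 4), (0x435290a6, 4), (0x31758690, 4), (0x417290a8, 4), (0x435290a6, 4)]⟩

def c_2796 : frmChk tA tA F_2796 = true := by decide +kernel

def r_2796_0 : chkL rootF engF2 tA tA sA_326 sA_326 4 F_2796 [(511, 0, 0)]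
    0x106c2b0e41b0acb40b82e45534 = true := by
  decide +kernel

theorem f_2796 (h : TabsF) : FrameF repsF 326 F_2796.f :=
  frame_of rfl c_2796 (runs_of engOK r_2796_0) (by decide +kernel) h.1 h.1

def F_2797 : FrX :=
  ⟨0x2002000900044004000e02041000141000800040800800248020010008012108200400232000020000a00440880048044241001010200200400002024004,
    0xa3, 1, 0x20415061768197a0, 8,
    [(0xa3, 1), (0x208693a5, 4), (0x10548793, 4), (0x217693a4, 4), (0x208693a5, 4), (0x10548793, 4)],
    [(0x20415061768197a0, 8), (0x325476a0, 4), (0x215496a8, 4), (0x31548097, 4), (0x325476a0, 4), (0x215496a8, 4)]⟩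

def c_2797 : frmChk tA tA F_2797 = true := by decide +kernel

def r_2797_0 : chkL rootF engF2 tA tA sA_326 sA_326 4 F_2797 [(511, 0, 0)]
    0x45a5603305c170d40f = true := by
  decide +kernel

theorem f_2797 (h : TabsF) : FrameF repsF 326 F_2797.f :=
  frame_of rfl c_2797 (runs_of engOK r_2797_0) (by decide +kernel) h.1 h.1

def F_2798 : FrX :=
  ⟨0x2002000900044004000e02041000141000800040810000012810000110204050021100020044020012100182000058000280488080080008004002200084,
    0xa3, 1, 0x314151608395a1, 7,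
    [(0xa3, 1), (0x208693a5, 4), (0x10548793, 4), (0x217693a4, 4), (0x208693a5, 4), (0x10548793, 4)],
    [(0x314151608395a1, 7), (0x31628097, 4), (0x547093a6, 4), (0x30548197, 4), (0x547093a6, 4), (0x308791a2, 4), (0x10546283, 4), (0x30548197, 4), (0x10546283, 4), (0x738190a6, 4), (0x30548197, 4), (0x308791a2, 4)]⟩

def c_2798 : frmChk tA tB F_2798 = true := by decide +kernel

def r_2798_0 : chkL rootF engF2 tA tB sA_326 sB_326 4 F_2798 [(511, 0, 0)]
    0x48b0741d14c0f = true := by
  decide +kernel

theorem f_2798 (h : TabsF) : FrameF repsF 326 F_2798.f :=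
  frame_of rfl c_2798 (runs_of engOK r_2798_0) (by decide +kernel) h.1 h.2

def F_2799 : FrX :=
  ⟨0x482000044040440000c2040020009000182040002200100108080004110408200022020002009020020048088421002008006010000640010202002001,
    0xa0, 1, 0x205161708491a0, 7,
    [(0xa0, 1), (0x538690a2, 4), (0x548790a1, 4), (0x21437690, 4), (0x538690a2, 4), (0x548790a1, 4)],
    [(0x205161708491a0, 7), (0x215384a0, 4), (0x527681a9, 4), (0x21437685, 4), (0x527681a9, 4), (0x32418590, 4), (0x547683a0, 4), (0x21437685, 4), (0x547683a0, 4), (0x435182a9, 4), (0x21437685, 4), (0x32418590, 4)]⟩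

def c_2799 : frmChk tA tB F_2799 = true := by decide +kernel

def r_2799_0 : chkL rootF engF2 tA tB sA_326 sB_326 4 F_2799 [(511, 0, 0)]
    0x111c4789a23a16150ba1588c5630cc3316c130cc58aac10aec188c350b82d = true := by
  decide +kernel

theorem f_2799 (h : TabsF) : FrameF repsF 326 F_2799.f :=
  frame_of rfl c_2799 (runs_of engOK r_2799_0) (by decide +kernel) h.1 h.2

def F_2800 : FrX :=
  ⟨0x482000044040440000c204002000900018204000210200010088020003400800440010102400040080004088802002400801210a240402000804200004,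
    0xa0, 1, 0x104153718791a3, 7,
    [(0xa0, 1), (0x538690a2, 4), (0x548790a1, 4), (0x21437690, 4), (0x538690a2, 4), (0x548790a1, 4)],
    [(0x104153718791a3, 7), (0x214083a6, 4), (0x30758691, 4), (0x607583a4, 4), (0x30758691, 4), (0x436092a8, 4), (0x216475a0, 4), (0x607583a4, 4), (0x216475a0, 4), (0x638091a4, 4), (0x607583a4, 4), (0x436092a8, 4)]⟩

def c_2800 : frmChk tA tB F_2800 = true := by decide +kernel

def r_2800_0 : chkL rootF engF2 tA tB sA_326 sB_326 4 F_2800 [(511, 0, 0)]
    0x42e = true := by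
  decide +kernel

theorem f_2800 (h : TabsF) : FrameF repsF 326 F_2800.f :=
  frame_of rfl c_2800 (runs_of engOK r_2800_0) (by decide +kernel) h.1 h.2

def F_2801 : FrX :=
  ⟨0x2002000900044004000e0204100014100080004080080101400804200a000180100204004024001010040012000420000202809030080808100216000001,
    0xa3, 1, 0x30435061738292a6, 8,
    [(0xa3, 1), (0x208693a5, 4), (0x10548793, 4), (0x217693a4, 4), (0x208693a5, 4), (0x10548793, 4)],
    [(0x30435061738292a6, 8), (0x738195a2, 4), (0x30426581, 4), (0x708196a4, 4), (0x738195a2, 4), (0x30426581, 4)]⟩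

def c_2801 : frmChk tA tA F_2801 = true := by decide +kernel

def r_2801_0 : chkL rootF engF2 tA tA sA_326 sA_326 4 F_2801 [(511, 0, 0)]
    0x472 = true := by
  decide +kernel

theorem f_2801 (h : TabsF) : FrameF repsF 326 F_2801.f :=
  frame_of rfl c_2801 (runs_of engOK r_2801_0) (by decide +kernel) h.1 h.1

def F_2802 : FrX :=
  ⟨0x80080a000804040e000021010020010000020408822000040480901000400820200240014000080208008008802012040020010340088203020c0008000,
    0xa6, 1, 0x324352718696a3, 7,
    [(0xa6, 1), (0x205396a8, 4), (0x10548796, 4), (0x214396a7, 4), (0x205396a8, 4), (0x10548796, 4)],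
    [(0x324352718696a3, 7), (0x508496a3, 4), (0x32617084, 4), (0x758491a2, 4), (0x508496a3, 4), (0x32617084, 4)]⟩

def c_2802 : frmChk tA tA F_2802 = true := by decide +kernel

def r_2802_0 : chkL rootF engF2 tA tA sA_326 sA_326 4 F_2802 [(511, 0, 0)]
    0x1 = true := by
  decide +kernel

theorem f_2802 (h : TabsF) : FrameF repsF 326 F_2802.f :=
  frame_of rfl c_2802 (runs_of engOK r_2802_0) (by decide +kernel) h.1 h.1

def F_2803 : FrX :=
  ⟨0x1c2102000004044000002041000101000082040888200008008080004000242020601001020080020800440880048401022010023200200300024880000,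
    0x0, 0, 0x107583, 3,
    [(0x0, 0), (0x205386a9, 4), (0x105487a9, 4), (0x214376a9, 4), (0x205386a9, 4), (0x105487a9, 4)],
    [(0x107583, 3), (0x216387a9, 4), (0x105374a9, 4), (0x206584a9, 4), (0x216387a9, 4), (0x105374a9, 4)]⟩

def c_2803 : frmChk tA tA F_2803 = true := by decide +kernel

def r_2803_0 : chkL rootF engF2 tA tA sA_326 sA_326 4 F_2803 [(255, 0, 0), (256, 0, 13)]
    0x4272d01d = true := by
  decide +kernel

def r_2803_1 : chkL rootF engF2 tA tA sA_326 sA_326 4 F_2803 [(256, 13, 8)]
    0x112c2b = true := by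
  decide +kernel

def r_2803_2 : chkL rootF engF2 tA tA sA_326 sA_326 4 F_2803 [(256, 21, 0)]
    0x1585e00d645d2243c0f03c0e1ac1b0ac24721ca434702b50e23d084e8c4178368509c1b05c178b0178544d = true := by
  decide +kernel

theorem f_2803 (h : TabsF) : FrameF repsF 326 F_2803.f :=
  frame_of rfl c_2803 ((runs_of engOK r_2803_0).append ((runs_of engOK r_2803_1).append (runs_of engOK r_2803_2))) (by decide +kernel) h.1 h.1

def F_2804 : FrX :=
  ⟨0x1c2102000004044000002041000101000082040888200008000880200002202020600041100008020800404880210204101001034100220302004800000,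
    0x0, 0, 0x53637583, 4,
    [(0x0, 0), (0x205386a9, 4), (0x105487a9, 4), (0x214376a9, 4), (0x205386a9, 4), (0x105487a9, 4)],
    [(0x53637583, 4), (0x20647385, 4), (0x105374a9, 4), (0x547386a9, 4), (0x105374a9, 4), (0x21547683, 4), (0x206584a9, 4), (0x547386a9, 4), (0x206584a9, 4), (0x10437586, 4), (0x547386a9, 4), (0x21547683, 4)]⟩

def c_2804 : frmChk tA tB F_2804 = true := by decide +kernel

def r_2804_0 : chkL rootF engF2 tA tB sA_326 sB_326 4 F_2804 [(255, 0, 0), (256, 0, 12)]
    0x1 = true := by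
  decide +kernel

def r_2804_1 : chkL rootF engF2 tA tB sA_326 sB_326 4 F_2804 [(256, 12, 6)]
    0x41e = true := by
  decide +kernel

def r_2804_2 : chkL rootF engF2 tA tB sA_326 sB_326 4 F_2804 [(256, 18, 7)]
    0x427 = true := by
  decide +kernel

def r_2804_3 : chkL rootF engF2 tA tB sA_326 sB_326 4 F_2804 [(256, 25, 0)]
    0x49a = true := by
  decide +kernel

theorem f_2804 (h : TabsF) : FrameF repsF 326 F_2804.f :=
  frame_of rfl c_2804 ((runs_of engOK r_2804_0).append ((runs_of engOK r_2804_1).append ((runs_of engOK r_2804_2).append (runs_of engOK r_2804_3)))) (by decide +kernel) h.1 h.2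

def F_2805 : FrX :=
  ⟨0x2002000900044004000e02041000141000800040810000018102002102002240220200001008008820800404800010201101800054000220300024001001,
    0xa3, 1, 0x103240738297a3, 7,
    [(0xa3, 1), (0x208693a5, 4), (0x10548793, 4), (0x217693a4, 4), (0x208693a5, 4), (0x10548793, 4)],
    [(0x103240738297a3, 7), (0x318495a6, 4), (0x40517296, 4), (0x617295a3, 4), (0x40517296, 4), (0x536180a9, 4), (0x637284a1, 4), (0x617295a3, 4), (0x637284a1, 4), (0x406591a3, 4), (0x617295a3, 4), (0x536180a9, 4)]⟩

def c_2805 : frmChk tA tB F_2805 = true := by decide +kernel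

def r_2805_0 : chkL rootF engF2 tA tB sA_326 sB_326 4 F_2805 [(511, 0, 0)]
    0x41e1c41e0781e = true := by
  decide +kernel

theorem f_2805 (h : TabsF) : FrameF repsF 326 F_2805.f :=
  frame_of rfl c_2805 (runs_of engOK r_2805_0) (by decide +kernel) h.1 h.2

def F_2806 : FrX :=
  ⟨0x1001040012008080000e00840800410008101000060000048040202020180084040200800100208220101402042020022000146000010004408100020050,
    0xa3, 1, 0x31546092a4, 5,
    [(0xa3, 1), (0x207584a6, 4), (0x10547693, 4), (0x647593a8, 4), (0x10547693, 4), (0x216485a7, 4), (0x208693a4, 4), (0x647593a8, 4), (0x208693a4, 4), (0x106574a8, 4), (0x647593a8, 4), (0x216485a7, 4)],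
    [(0x31546092a4, 5), (0x41528096, 4), (0x526387a4, 4), (0x527093a1, 4), (0x41528096, 4), (0x526387a4, 4)]⟩

def c_2806 : frmChk tB tA F_2806 = true := by decide +kernel

def r_2806_0 : chkL rootF engF2 tB tA sB_326 sA_326 4 F_2806 [(511, 0, 0)]
    0x109c1b28c1b0f08b2e017 = true := by
  decide +kernel

theorem f_2806 (h : TabsF) : FrameF repsF 326 F_2806.f :=
  frame_of rfl c_2806 (runs_of engOK r_2806_0) (by decide +kernel) h.2 h.1

def F_2807 : FrX :=
  ⟨0x1001040012008080000e0084080041000810100004080808881010010020201000804008402040200008028082041000064000880200040c080002a02008,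
    0xa3, 1, 0x3041506375a7, 6,
    [(0xa3, 1), (0x207584a6, 4), (0x10547693, 4), (0x647593a8, 4), (0x10547693, 4), (0x216485a7, 4), (0x208693a4, 4), (0x647593a8, 4), (0x208693a4, 4), (0x106574a8, 4), (0x647593a8, 4), (0x216485a7, 4)],
    [(0x3041506375a7, 6), (0x52768093, 4), (0x547193a8, 4), (0x426193a0, 4), (0x52768093, 4), (0x547193a8, 4)]⟩

def c_2807 : frmChk tB tA F_2807 = true := by decide +kernel

def r_2807_0 : chkL rootF engF2 tB tA sB_326 sA_326 4 F_2807 [(511, 0, 0)]
    0x105c931a89303c0f05c2b22c17 = true := by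
  decide +kernel

theorem f_2807 (h : TabsF) : FrameF repsF 326 F_2807.f :=
  frame_of rfl c_2807 (runs_of engOK r_2807_0) (by decide +kernel) h.2 h.1

def F_2808 : FrX :=
  ⟨0x1001040012008080000e0084080041000810100004400808011002004020201008003200410008422000220840801000084000880802084000a000a10100,
    0xa3, 1, 0x21638395a0, 5,
    [(0xa3, 1), (0x207584a6, 4), (0x10547693, 4), (0x647593a8, 4), (0x10547693, 4), (0x216485a7, 4), (0x208693a4, 4), (0x647593a8, 4), (0x208693a4, 4), (0x106574a8, 4), (0x647593a8, 4), (0x216485a7, 4)],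
    [(0x21638395a0, 5), (0x506398a1, 4), (0x507694a2, 4), (0x21507384, 4), (0x506398a1, 4), (0x507694a2, 4)]⟩

def c_2808 : frmChk tB tA F_2808 = true := by decide +kernel

def r_2808_0 : chkL rootF engF2 tB tA sB_326 sA_326 4 F_2808 [(511, 0, 0)]
    0x10cc47 = true := by
  decide +kernel

theorem f_2808 (h : TabsF) : FrameF repsF 326 F_2808.f :=
  frame_of rfl c_2808 (runs_of engOK r_2808_0) (by decide +kernel) h.2 h.1

def F_2809 : FrX :=
  ⟨0x600020801080810000c0040180410101001004010040042003001800180002080000880800442000080404498010400040208000400800508400300108,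
    0xa0, 1, 0x5364708098a0, 6,
    [(0xa0, 1), (0x637584a2, 4), (0x547690a1, 4), (0x64758390, 4), (0x547690a1, 4), (0x21647385, 4), (0x438690a2, 4), (0x64758390, 4), (0x438690a2, 4), (0x657483a1, 4), (0x64758390, 4), (0x21647385, 4)],
    [(0x5364708098a0, 6), (0x305496a2, 4), (0x406387a1, 4), (0x30648795, 4), (0x406387a1, 4), (0x21506493, 4), (0x658794a2, 4), (0x30648795, 4), (0x658794a2, 4), (0x436095a1, 4), (0x30648795, 4), (0x21506493, 4)]⟩

def c_2809 : frmChk tB tB F_2809 = true := by decide +kernel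

def r_2809_0 : chkL rootF engF2 tB tB sB_326 sB_326 4 F_2809 [(511, 0, 0)]
    0x433 = true := by
  decide +kernel

theorem f_2809 (h : TabsF) : FrameF repsF 326 F_2809.f :=
  frame_of rfl c_2809 (runs_of engOK r_2809_0) (by decide +kernel) h.2 h.2

def F_2810 : FrX :=
  ⟨0x1001040012008080000e00840800410008101000040900004220010044000882808200001100110800044222010000212014001001200081100000040c04,
    0xa3, 1, 0x3265768791a7, 6,
    [(0xa3, 1), (0x207584a6, 4), (0x10547693, 4), (0x647593a8, 4), (0x10547693, 4), (0x216485a7, 4), (0x208693a4, 4), (0x647593a8, 4), (0x208693a4, 4), (0x106574a8, 4), (0x647593a8, 4), (0x216485a7, 4)],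
    [(0x3265768791a7, 6), (0x305472a6, 4), (0x648190a7, 4), (0x527481a6, 4), (0x648190a7, 4), (0x657493a2, 4), (0x30427581, 4), (0x527481a6, 4), (0x30427581, 4), (0x527690a4, 4), (0x527481a6, 4), (0x657493a2, 4)]⟩

def c_2810 : frmChk tB tB F_2810 = true := by decide +kernel

def r_2810_0 : chkL rootF engF2 tB tB sB_326 sB_326 4 F_2810 [(511, 0, 0)]
    0x42b0ac4b03c0f05c558385605c33 = true := by
  decide +kernel

theorem f_2810 (h : TabsF) : FrameF repsF 326 F_2810.f :=
  frame_of rfl c_2810 (runs_of engOK r_2810_0) (by decide +kernel) h.2 h.2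

def F_2811 : FrX :=
  ⟨0x2002000900044004000e02041000141000800040810000048050000404800881200100104002008480300140081010000240220006040000500240008204,
    0xa3, 1, 0x215465748192a0, 7,
    [(0xa3, 1), (0x208693a5, 4), (0x10548793, 4), (0x217693a4, 4), (0x208693a5, 4), (0x10548793, 4)],
    [(0x215465748192a0, 7), (0x104263a9, 4), (0x105276a8, 4), (0x10547398, 4), (0x104263a9, 4), (0x105276a8, 4)]⟩

def c_2811 : frmChk tA tA F_2811 = true := by decide +kernel

def r_2811_0 : chkL rootF engF2 tA tA sA_326 sA_326 4 F_2811 [(511, 0, 0)]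
    0x4c90b42d0d44e0788b0ac66 = true := by
  decide +kernel

theorem f_2811 (h : TabsF) : FrameF repsF 326 F_2811.f :=
  frame_of rfl c_2811 (runs_of engOK r_2811_0) (by decide +kernel) h.1 h.1

def F_2812 : FrX :=
  ⟨0x482000044040440000c204002000900018204001001010080800091004004422001001000004810200080c0c040800021400a000200200844020000411,
    0xa0, 1, 0x3264718796a7, 6,
    [(0xa0, 1), (0x538690a2, 4), (0x548790a1, 4), (0x21437690, 4), (0x538690a2, 4), (0x548790a1, 4)],
    [(0x3264718796a7, 6), (0x30528491, 4), (0x657084a1, 4), (0x627384a9, 4), (0x30528491, 4), (0x657084a1, 4)]⟩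

def c_2812 : frmChk tA tA F_2812 = true := by decide +kernel

def r_2812_0 : chkL rootF engF2 tA tA sA_326 sA_326 4 F_2812 [(511, 0, 0)]
    0x105c27 = true := by
  decide +kernel

theorem f_2812 (h : TabsF) : FrameF repsF 326 F_2812.f :=
  frame_of rfl c_2812 (runs_of engOK r_2812_0) (by decide +kernel) h.1 h.1

def F_2813 : FrX :=
  ⟨0x2002000900044004000e02041000141000800040800402020801024102004040040081010080040800e00006021010001080008080400220200088220104,
    0xa3, 1, 0x425160718191a6, 7,
    [(0xa3, 1), (0x208693a5, 4), (0x10548793, 4), (0x217693a4, 4), (0x208693a5, 4), (0x10548793, 4)],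
    [(0x425160718191a6, 7), (0x516472a3, 4), (0x218096a5, 4), (0x517380a2, 4), (0x218096a5, 4), (0x537194a2, 4), (0x326480a7, 4), (0x517380a2, 4), (0x326480a7, 4), (0x527396a1, 4), (0x517380a2, 4), (0x537194a2, 4)]⟩

def c_2813 : frmChk tA tB F_2813 = true := by decide +kernel

def r_2813_0 : chkL rootF engF2 tA tB sA_326 sB_326 4 F_2813 [(511, 0, 0)]
    0x6260ac2b1384e = true := by
  decide +kernel

theorem f_2813 (h : TabsF) : FrameF repsF 326 F_2813.f :=
  frame_of rfl c_2813 (runs_of engOK r_2813_0) (by decide +kernel) h.1 h.2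

def F_2814 : FrX :=
  ⟨0x80080a000804040e00002101002001000002040890080a0040401000822000800001300080801041000180100051010004004004900040a100900140080,
    0xa6, 1, 0x21326282a8, 5,
    [(0xa6, 1), (0x205396a8, 4), (0x10548796, 4), (0x214396a7, 4), (0x205396a8, 4), (0x10548796, 4)],
    [(0x21326282a8, 5), (0x317580a4, 4), (0x20547396, 4), (0x437596a1, 4), (0x20547396, 4), (0x437182a5, 4), (0x418096a3, 4), (0x437596a1, 4), (0x418096a3, 4), (0x205374a1, 4), (0x437596a1, 4), (0x437182a5, 4)]⟩

def c_2814 : frmChk tA tB F_2814 = true := by decide +kernel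

def r_2814_0 : chkL rootF engF2 tA tB sA_326 sB_326 4 F_2814 [(511, 0, 0)]
    0x10f06614c5c61459158592b229aa05621e8606c1b = true := by
  decide +kernel

theorem f_2814 (h : TabsF) : FrameF repsF 326 F_2814.f :=
  frame_of rfl c_2814 (runs_of engOK r_2814_0) (by decide +kernel) h.1 h.2

def F_2815 : FrX :=
  ⟨0x80080a000804040e00002101002001000002040881011001004400820480000004121020008005120001000805100108002090002000801100940600200,
    0xa6, 1, 0x42718494a3, 5,
    [(0xa6, 1), (0x205396a8, 4), (0x10548796, 4), (0x214396a7, 4), (0x205396a8, 4), (0x10548796, 4)],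
    [(0x42718494a3, 5), (0x406283a5, 4), (0x21708395, 4), (0x617483a9, 4), (0x406283a5, 4), (0x21708395, 4)]⟩

def c_2815 : frmChk tA tA F_2815 = true := by decide +kernel

def r_2815_0 : chkL rootF engF2 tA tA sA_326 sA_326 4 F_2815 [(511, 0, 0)]
    0x1 = true := by
  decide +kernel

theorem f_2815 (h : TabsF) : FrameF repsF 326 F_2815.f :=
  frame_of rfl c_2815 (runs_of engOK r_2815_0) (by decide +kernel) h.1 h.1

def F_2816 : FrX :=
  ⟨0x80080a000804040e00002101002001000002040882200002090034000002208010012000c0001141000008108440204000400100500040c000904880010,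
    0xa6, 1, 0x3040547198a4, 6,
    [(0xa6, 1), (0x205396a8, 4), (0x10548796, 4), (0x214396a7, 4), (0x205396a8, 4), (0x10548796, 4)],
    [(0x3040547198a4, 6), (0x314260a9, 4), (0x617485a3, 4), (0x318590a6, 4), (0x617485a3, 4), (0x107293a6, 4), (0x428596a0, 4), (0x318590a6, 4), (0x428596a0, 4), (0x637490a1, 4), (0x318590a6, 4), (0x107293a6, 4)]⟩

def c_2816 : frmChk tA tB F_2816 = true := by decide +kernel

def r_2816_0 : chkL rootF engF2 tA tB sA_326 sB_326 4 F_2816 [(511, 0, 0)]
    0x44731417 = true := by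
  decide +kernel

theorem f_2816 (h : TabsF) : FrameF repsF 326 F_2816.f :=
  frame_of rfl c_2816 (runs_of engOK r_2816_0) (by decide +kernel) h.1 h.2

def F_2817 : FrX :=
  ⟨0x2002000900044004000e02041000141000800040810000012808002008220108100005000808010814400209000420002140200084008008000802042084,
    0xa3, 1, 0x1031647490a6, 6,
    [(0xa3, 1), (0x208693a5, 4), (0x10548793, 4), (0x217693a4, 4), (0x208693a5, 4), (0x10548793, 4)],
    [(0x1031647490a6, 6), (0x658792a0, 4), (0x417593a6, 4), (0x416580a7, 4), (0x417593a6, 4), (0x326085a7, 4), (0x417092a8, 4), (0x416580a7, 4), (0x417092a8, 4), (0x768093a5, 4), (0x416580a7, 4), (0x326085a7, 4)]⟩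

def c_2817 : frmChk tA tB F_2817 = true := by decide +kernel

def r_2817_0 : chkL rootF engF2 tA tB sA_326 sB_326 4 F_2817 [(511, 0, 0)]
    0x10743911c4784e328721a164599241e96254a441eb421982e1a = true := by
  decide +kernel

theorem f_2817 (h : TabsF) : FrameF repsF 326 F_2817.f :=
  frame_of rfl c_2817 (runs_of engOK r_2817_0) (by decide +kernel) h.1 h.2

def F_2818 : FrX :=
  ⟨0x1c2102000004044000002041000101000082040890080080000802400200404020404050000030400020140828002040100482004050021046022200000,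
    0x0, 0, 0x21437684, 4,
    [(0x0, 0), (0x205386a9, 4), (0x105487a9, 4), (0x214376a9, 4), (0x205386a9, 4), (0x105487a9, 4)],
    [(0x21437684, 4), (0x10657483, 4), (0x207685a9, 4), (0x436587a9, 4), (0x207685a9, 4), (0x21536487, 4), (0x107384a9, 4), (0x436587a9, 4), (0x107384a9, 4), (0x20437586, 4), (0x436587a9, 4), (0x21536487, 4)]⟩

def c_2818 : frmChk tA tB F_2818 = true := by decide +kernel

def r_2818_0 : chkL rootF engF2 tA tB sA_326 sB_326 4 F_2818 [(255, 0, 0), (256, 0, 5)]
    0x1 = true := by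
  decide +kernel

def r_2818_1 : chkL rootF engF2 tA tB sA_326 sB_326 4 F_2818 [(256, 5, 7)]
    0x439 = true := by
  decide +kernel

def r_2818_2 : chkL rootF engF2 tA tB sA_326 sB_326 4 F_2818 [(256, 12, 16)]
    0x1 = true := by
  decide +kernel

def r_2818_3 : chkL rootF engF2 tA tB sA_326 sB_326 4 F_2818 [(256, 28, 0)]
    0x1 = true := by
  decide +kernel

theorem f_2818 (h : TabsF) : FrameF repsF 326 F_2818.f :=
  frame_of rfl c_2818 ((runs_of engOK r_2818_0).append ((runs_of engOK r_2818_1).append ((runs_of engOK r_2818_2).append (runs_of engOK r_2818_3)))) (by decide +kernel) h.1 h.2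

def F_2819 : FrX :=
  ⟨0x2002000900044004000e02041000141000800040810000018100802402000a40220200001008008820800404800001801100810054002200300024001001,
    0xa3, 1, 0x102042748198a4, 7,
    [(0xa3, 1), (0x208693a5, 4), (0x10548793, 4), (0x217693a4, 4), (0x208693a5, 4), (0x10548793, 4)],
    [(0x102042748198a4, 7), (0x425163a9, 4), (0x617082a5, 4), (0x517093a6, 4), (0x617082a5, 4), (0x318495a6, 4), (0x427096a3, 4), (0x517093a6, 4), (0x427096a3, 4), (0x658293a1, 4), (0x517093a6, 4), (0x318495a6, 4)]⟩

def c_2819 : frmChk tA tB F_2819 = true := by decide +kernel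

def r_2819_0 : chkL rootF engF2 tA tB sA_326 sB_326 4 F_2819 [(511, 0, 0)]
    0x41d = true := by
  decide +kernel

theorem f_2819 (h : TabsF) : FrameF repsF 326 F_2819.f :=
  frame_of rfl c_2819 (runs_of engOK r_2819_0) (by decide +kernel) h.1 h.2

def F_2820 : FrX :=
  ⟨0x1001040012008080000e00840800410008101000042100001101050004102004800100102020200800022402020020012002800c08220304040000010210,
    0xa3, 1, 0x5261728696a8, 6,
    [(0xa3, 1), (0x207584a6, 4), (0x10547693, 4), (0x647593a8, 4), (0x10547693, 4), (0x216485a7, 4), (0x208693a4, 4), (0x647593a8, 4), (0x208693a4, 4), (0x106574a8, 4), (0x647593a8, 4), (0x216485a7, 4)],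
    [(0x5261728696a8, 6), (0x527093a4, 4), (0x42608195, 4), (0x528194a3, 4), (0x42608195, 4), (0x537694a2, 4), (0x437081a9, 4), (0x528194a3, 4), (0x437081a9, 4), (0x546092a3, 4), (0x528194a3, 4), (0x537694a2, 4)]⟩

def c_2820 : frmChk tB tB F_2820 = true := by decide +kernel

def r_2820_0 : chkL rootF engF2 tB tB sB_326 sB_326 4 F_2820 [(511, 0, 0)]
    0x1268391c8630b8cc06dc4 = true := by
  decide +kernel

theorem f_2820 (h : TabsF) : FrameF repsF 326 F_2820.f :=
  frame_of rfl c_2820 (runs_of engOK r_2820_0) (by decide +kernel) h.2 h.2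

theorem cl_326 (h : TabsF) : ∀ f ∈ fr_326, FrameF repsF 326 f :=
  List.forall_mem_cons.2 ⟨f_2793 h, List.forall_mem_cons.2 ⟨f_2794 h, List.forall_mem_cons.2 ⟨f_2795 h, List.forall_mem_cons.2 ⟨f_2796 h, List.forall_mem_cons.2 ⟨f_2797 h, List.forall_mem_cons.2 ⟨f_2798 h, List.forall_mem_cons.2 ⟨f_2799 h, List.forall_mem_cons.2 ⟨f_2800 h, List.forall_mem_cons.2 ⟨f_2801 h, List.forall_mem_cons.2 ⟨f_2802 h, List.forall_mem_cons.2 ⟨f_2803 h, List.forall_mem_cons.2 ⟨f_2804 h, List.forall_mem_cons.2 ⟨f_2805 h, List.forall_mem_cons.2 ⟨f_2806 h, List.forall_mem_cons.2 ⟨f_2807 h, List.forall_mem_cons.2 ⟨f_2808 h, List.forall_mem_cons.2 ⟨f_2809 h, List.forall_mem_cons.2 ⟨f_2810 h, List.forall_mem_cons.2 ⟨f_2811 h, List.forall_mem_cons.2 ⟨f_2812 h, List.forall_mem_cons.2 ⟨f_2813 h, List.forall_mem_cons.2 ⟨f_2814 h, List.forall_mem_cons.2 ⟨f_2815 h, List.forall_mem_cons.2 ⟨f_2816 h, List.forall_mem_cons.2 ⟨f_2817 h, List.forall_mem_cons.2 ⟨f_2818 h, List.forall_mem_cons.2 ⟨f_2819 h, List.forall_mem_cons.2 ⟨f_2820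 h,
    fun _ h0 => absurd h0 List.not_mem_nil⟩⟩⟩⟩⟩⟩⟩⟩⟩⟩⟩⟩⟩⟩⟩⟩⟩⟩⟩⟩⟩⟩⟩⟩⟩⟩⟩⟩

def F_2821 : FrX :=
  ⟨0x2002000900044004000e02041000141000800040800404002810040400104080120120004044000112010080082050000280088022080808002002204004,
    0xa3, 1, 0x1020314064728498a3, 9,
    [(0xa3, 1), (0x208693a5, 4), (0x10548793, 4), (0x217693a4, 4), (0x208693a5, 4), (0x10548793, 4)],
    [(0x1020314064728498a3, 9), (0x517498a2, 4), (0x21436085, 4), (0x516082a9, 4), (0x21436085, 4), (0x738295a1, 4), (0x607492a8, 4), (0x516082a9, 4), (0x607492a8, 4), (0x435281a9, 4), (0x516082a9, 4), (0x738295a1, 4)]⟩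

def c_2821 : frmChk tA tB F_2821 = true := by decide +kernel

def r_2821_0 : chkL rootF engF2 tA tB sA_327 sB_327 4 F_2821 [(511, 0, 0)]
    0x427 = true := by
  decide +kernel

theorem f_2821 (h : TabsF) : FrameF repsF 327 F_2821.f :=
  frame_of rfl c_2821 (runs_of engOK r_2821_0) (by decide +kernel) h.1 h.2

def F_2822 : FrX :=
  ⟨0x2002000900044004000e020410001410008000408004020202a0004200040881040008010100010400a00005084000024300081020042440400040200201,
    0xa3, 1, 0x10315480a3, 5,
    [(0xa3, 1), (0x208693a5, 4), (0x10548793, 4), (0x217693a4, 4), (0x208693a5, 4), (0x10548793, 4)],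
    [(0x10315480a3, 5), (0x618290a4, 4), (0x54718390, 4), (0x327690a5, 4), (0x618290a4, 4), (0x54718390, 4)]⟩

def c_2822 : frmChk tA tA F_2822 = true := by decide +kernel

def r_2822_0 : chkL rootF engF2 tA tA sA_327 sA_327 4 F_2822 [(511, 0, 0)]
    0x124ca628c2d0f0a34390e42c27a0c8b2341711c1b = true := by
  decide +kernel

theorem f_2822 (h : TabsF) : FrameF repsF 327 F_2822.f :=
  frame_of rfl c_2822 (runs_of engOK r_2822_0) (by decide +kernel) h.1 h.1

def F_2823 : FrX :=
  ⟨0x80080a000804040e00002101002001000002040890008004410000808800884004880002002020244004280400041022100102004008020202024400010,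
    0xa6, 1, 0x314253657190a1, 7,
    [(0xa6, 1), (0x205396a8, 4), (0x10548796, 4), (0x214396a7, 4), (0x205396a8, 4), (0x10548796, 4)],
    [(0x314253657190a1, 7), (0x65708194, 4), (0x627083a9, 4), (0x315270a4, 4), (0x65708194, 4), (0x627083a9, 4)]⟩

def c_2823 : frmChk tA tA F_2823 = true := by decide +kernel

def r_2823_0 : chkL rootF engF2 tA tA sA_327 sA_327 4 F_2823 [(511, 0, 0)]
    0x10d80fb4232ac00f0f02706c1b = true := by
  decide +kernel

theorem f_2823 (h : TabsF) : FrameF repsF 327 F_2823.f :=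
  frame_of rfl c_2823 (runs_of engOK r_2823_0) (by decide +kernel) h.1 h.1

def F_2824 : FrX :=
  ⟨0x80080a000804040e00002101002001000002040890020008044010008110804040081010000030200801221100104020221002040300000444001008200,
    0xa6, 1, 0x21415362758495a0, 8,
    [(0xa6, 1), (0x205396a8, 4), (0x10548796, 4), (0x214396a7, 4), (0x205396a8, 4), (0x10548796, 4)],
    [(0x21415362758495a0, 8), (0x518293a6, 4), (0x317098a4, 4), (0x52708193, 4), (0x317098a4, 4), (0x53648192, 4), (0x217085a6, 4), (0x52708193, 4), (0x217085a6, 4), (0x528391a4, 4), (0x52708193, 4), (0x53648192, 4)]⟩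

def c_2824 : frmChk tA tB F_2824 = true := by decide +kernel

def r_2824_0 : chkL rootF engF2 tA tB sA_327 sB_327 4 F_2824 [(511, 0, 0)]
    0x59203c1b1e00f90f41d0a8382e469145907643 = true := by
  decide +kernel

theorem f_2824 (h : TabsF) : FrameF repsF 327 F_2824.f :=
  frame_of rfl c_2824 (runs_of engOK r_2824_0) (by decide +kernel) h.1 h.2

def F_2825 : FrX :=
  ⟨0x2002000900044004000e020410001410008000408005804008012040008000410001030021020001002004006040600210000a0006002220300140010080,
    0xa3, 1, 0x1041507292a2, 6,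
    [(0xa3, 1), (0x208693a5, 4), (0x10548793, 4), (0x217693a4, 4), (0x208693a5, 4), (0x10548793, 4)],
    [(0x1041507292a2, 6), (0x216380a5, 4), (0x10546297, 4), (0x21608397, 4), (0x10546297, 4), (0x326081a4, 4), (0x308697a5, 4), (0x21608397, 4), (0x308697a5, 4), (0x20546183, 4), (0x21608397, 4), (0x326081a4, 4)]⟩

def c_2825 : frmChk tA tB F_2825 = true := by decide +kernel

def r_2825_0 : chkL rootF engF2 tA tB sA_327 sB_327 4 F_2825 [(511, 0, 0)]
    0x106c2e138a506c5c = true := by
  decide +kernel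

theorem f_2825 (h : TabsF) : FrameF repsF 327 F_2825.f :=
  frame_of rfl c_2825 (runs_of engOK r_2825_0) (by decide +kernel) h.1 h.2

def F_2826 : FrX :=
  ⟨0x482000044040440000c20400200090001820400100200280010001809800042000800408080110100000490105200400044482000002040110a0400010,
    0xa0, 1, 0x203140647094a0, 7,
    [(0xa0, 1), (0x538690a2, 4), (0x548790a1, 4), (0x21437690, 4), (0x538690a2, 4), (0x548790a1, 4)],
    [(0x203140647094a0, 7), (0x517682a0, 4), (0x768495a3, 4), (0x30427691, 4), (0x517682a0, 4), (0x768495a3, 4)]⟩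

def c_2826 : frmChk tA tA F_2826 = true := by decide +kernel

def r_2826_0 : chkL rootF engF2 tA tA sA_327 sA_327 4 F_2826 [(511, 0, 0)]
    0x46c05c330cc3c2a8aa = true := by
  decide +kernel

theorem f_2826 (h : TabsF) : FrameF repsF 327 F_2826.f :=
  frame_of rfl c_2826 (runs_of engOK r_2826_0) (by decide +kernel) h.1 h.1

def F_2827 : FrX :=
  ⟨0x482000044040440000c2040020009000182040000481010101200080040044004802002050800110000400200488208020081110200200101010800401,
    0xa0, 1, 0x517482a0, 4,
    [(0xa0, 1), (0x538690a2, 4), (0x548790a1, 4), (0x21437690, 4), (0x538690a2, 4), (0x548790a1, 4)],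
    [(0x517482a0, 4), (0x416372a8, 4), (0x647190a5, 4), (0x32417690, 4), (0x647190a5, 4), (0x21437685, 4), (0x627390a8, 4), (0x32417690, 4), (0x627390a8, 4), (0x326174a5, 4), (0x32417690, 4), (0x21437685, 4)]⟩

def c_2827 : frmChk tA tB F_2827 = true := by decide +kernel

def r_2827_0 : chkL rootF engF2 tA tB sA_327 sB_327 4 F_2827 [(511, 0, 0)]
    0x10e44b0787284c1b = true := by
  decide +kernel

theorem f_2827 (h : TabsF) : FrameF repsF 327 F_2827.f :=
  frame_of rfl c_2827 (runs_of engOK r_2827_0) (by decide +kernel) h.1 h.2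

def F_2828 : FrX :=
  ⟨0x600020801080810000c0040180410101001004008020408000100406000a00008820110080220800028101010201040900001200004024400009011002,
    0xa0, 1, 0x10325160738497a5, 8,
    [(0xa0, 1), (0x637584a2, 4), (0x547690a1, 4), (0x64758390, 4), (0x547690a1, 4), (0x21647385, 4), (0x438690a2, 4), (0x64758390, 4), (0x438690a2, 4), (0x657483a1, 4), (0x64758390, 4), (0x21647385, 4)],
    [(0x10325160738497a5, 8), (0x204163a7, 4), (0x206594a8, 4), (0x20538791, 4), (0x204163a7, 4), (0x206594a8, 4)]⟩

def c_2828 : frmChk tB tA F_2828 = true := by decide +kernel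

def r_2828_0 : chkL rootF engF2 tB tA sB_327 sA_327 4 F_2828 [(511, 0, 0)]
    0x16483c49592 = true := by
  decide +kernel

theorem f_2828 (h : TabsF) : FrameF repsF 327 F_2828.f :=
  frame_of rfl c_2828 (runs_of engOK r_2828_0) (by decide +kernel) h.2 h.1

def F_2829 : FrX :=
  ⟨0x1001040012008080000e00840800410008101000042008100101400100824000404100120000404040082230022000804002480c00024000011440000210,
    0xa3, 1, 0x20314150627094a0, 8,
    [(0xa3, 1), (0x207584a6, 4), (0x10547693, 4), (0x647593a8, 4), (0x10547693, 4), (0x216485a7, 4), (0x208693a4, 4), (0x647593a8, 4), (0x208693a4, 4), (0x106574a8, 4), (0x647593a8, 4), (0x216485a7, 4)],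
    [(0x20314150627094a0, 8), (0x217380a6, 4), (0x738592a4, 4), (0x50647391, 4), (0x217380a6, 4), (0x738592a4, 4)]⟩

def c_2829 : frmChk tB tA F_2829 = true := by decide +kernel

def r_2829_0 : chkL rootF engF2 tB tA sB_327 sA_327 4 F_2829 [(511, 0, 0)]
    0x43a0743a0741d = true := by
  decide +kernel

theorem f_2829 (h : TabsF) : FrameF repsF 327 F_2829.f :=
  frame_of rfl c_2829 (runs_of engOK r_2829_0) (by decide +kernel) h.2 h.1

def F_2830 : FrX :=
  ⟨0x600020801080810000c0040180410101001004000840241000081802002020040800120000420008082402001200802481000404004404040201008440,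
    0xa0, 1, 0x42617583a0, 5,
    [(0xa0, 1), (0x637584a2, 4), (0x547690a1, 4), (0x64758390, 4), (0x547690a1, 4), (0x21647385, 4), (0x438690a2, 4), (0x64758390, 4), (0x438690a2, 4), (0x657483a1, 4), (0x64758390, 4), (0x21647385, 4)],
    [(0x42617583a0, 5), (0x327581a4, 4), (0x517290a6, 4), (0x21758390, 4), (0x517290a6, 4), (0x21647385, 4), (0x318290a4, 4), (0x21758390, 4), (0x318290a4, 4), (0x527183a6, 4), (0x21758390, 4), (0x21647385, 4)]⟩

def c_2830 : frmChk tB tB F_2830 = true := by decide +kernel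

def r_2830_0 : chkL rootF engF2 tB tB sB_327 sB_327 4 F_2830 [(511, 0, 0)]
    0x103d153501706cb8 = true := by
  decide +kernel

theorem f_2830 (h : TabsF) : FrameF repsF 327 F_2830.f :=
  frame_of rfl c_2830 (runs_of engOK r_2830_0) (by decide +kernel) h.2 h.2

def F_2831 : FrX :=
  ⟨0x1001040012008080000e00840800410008101000042020100041400101040100048048020000208020241810100800240004220102081088020100000084,
    0xa3, 1, 0x51728693a2, 5,
    [(0xa3, 1), (0x207584a6, 4), (0x10547693, 4), (0x647593a8, 4), (0x10547693, 4), (0x216485a7, 4), (0x208693a4, 4), (0x647593a8, 4), (0x208693a4, 4), (0x106574a8, 4), (0x647593a8, 4), (0x216485a7, 4)],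
    [(0x51728693a2, 5), (0x216498a0, 4), (0x41507382, 4), (0x21738496, 4), (0x41507382, 4), (0x618492a5, 4), (0x738694a0, 4), (0x21738496, 4), (0x738694a0, 4), (0x42508196, 4), (0x21738496, 4), (0x618492a5, 4)]⟩

def c_2831 : frmChk tB tB F_2831 = true := by decide +kernel

def r_2831_0 : chkL rootF engF2 tB tB sB_327 sB_327 4 F_2831 [(511, 0, 0)]
    0x41e = true := by
  decide +kernel

theorem f_2831 (h : TabsF) : FrameF repsF 327 F_2831.f :=
  frame_of rfl c_2831 (runs_of engOK r_2831_0) (by decide +kernel) h.2 h.2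

def F_2832 : FrX :=
  ⟨0x1001040012008080000e00840800410008101000042204001108022000020020442000110081200000240805100008000900002008824024040008020290,
    0xa3, 1, 0x4052607190a0, 6,
    [(0xa3, 1), (0x207584a6, 4), (0x10547693, 4), (0x647593a8, 4), (0x10547693, 4), (0x216485a7, 4), (0x208693a4, 4), (0x647593a8, 4), (0x208693a4, 4), (0x106574a8, 4), (0x647593a8, 4), (0x216485a7, 4)],
    [(0x4052607190a0, 6), (0x328496a5, 4), (0x208196a7, 4), (0x30417596, 4), (0x328496a5, 4), (0x208196a7, 4)]⟩

def c_2832 : frmChk tB tA F_2832 = true := by decide +kernel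

def r_2832_0 : chkL rootF engF2 tB tA sB_327 sA_327 4 F_2832 [(511, 0, 0)]
    0x10b827 = true := by
  decide +kernel

theorem f_2832 (h : TabsF) : FrameF repsF 327 F_2832.f :=
  frame_of rfl c_2832 (runs_of engOK r_2832_0) (by decide +kernel) h.2 h.1

def F_2833 : FrX :=
  ⟨0x1001040012008080000e00840800410008101000042008042008022002000080282000881410009042000030012008200004000806000088082104800110,
    0xa3, 1, 0x304054627590a1, 7,
    [(0xa3, 1), (0x207584a6, 4), (0x10547693, 4), (0x647593a8, 4), (0x10547693, 4), (0x216485a7, 4), (0x208693a4, 4), (0x647593a8, 4), (0x208693a4, 4), (0x106574a8, 4), (0x647593a8, 4), (0x216485a7, 4)],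
    [(0x304054627590a1, 7), (0x20738596, 4), (0x324175a9, 4), (0x41527380, 4), (0x324175a9, 4), (0x305287a6, 4), (0x41508296, 4), (0x41527380, 4), (0x41508296, 4), (0x537280a9, 4), (0x41527380, 4), (0x305287a6, 4)]⟩

def c_2833 : frmChk tB tB F_2833 = true := by decide +kernel

def r_2833_0 : chkL rootF engF2 tB tB sB_327 sB_327 4 F_2833 [(511, 0, 0)]
    0x10e8d2 = true := by
  decide +kernel

theorem f_2833 (h : TabsF) : FrameF repsF 327 F_2833.f :=
  frame_of rfl c_2833 (runs_of engOK r_2833_0) (by decide +kernel) h.2 h.2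

def F_2834 : FrX :=
  ⟨0x482000044040440000c20400200090001820400100100480080000840400422304000008080134000010408009081001000802480000a0044041000042,
    0xa0, 1, 0x21324052658695a3, 8,
    [(0xa0, 1), (0x538690a2, 4), (0x548790a1, 4), (0x21437690, 4), (0x538690a2, 4), (0x548790a1, 4)],
    [(0x21324052658695a3, 8), (0x546183a9, 4), (0x42617390, 4), (0x526187a0, 4), (0x546183a9, 4), (0x42617390, 4)]⟩

def c_2834 : frmChk tA tA F_2834 = true := by decide +kernel

def r_2834_0 : chkL rootF engF2 tA tA sA_327 sA_327 4 F_2834 [(511, 0, 0)]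
    0x41d5241d = true := by
  decide +kernel

theorem f_2834 (h : TabsF) : FrameF repsF 327 F_2834.f :=
  frame_of rfl c_2834 (runs_of engOK r_2834_0) (by decide +kernel) h.1 h.1

def F_2835 : FrX :=
  ⟨0x80080a000804040e00002101002001000002040890020008048004022a0000000850100100204a000800241080201400100100084008010482842400000,
    0xa6, 1, 0x305263748498a3, 7,
    [(0xa6, 1), (0x205396a8, 4), (0x10548796, 4), (0x214396a7, 4), (0x205396a8, 4), (0x10548796, 4)],
    [(0x305263748498a3, 7), (0x425398a0, 4), (0x31407682, 4), (0x427680a9, 4), (0x31407682, 4), (0x518092a4, 4), (0x537690a8, 4), (0x427680a9, 4), (0x537690a8, 4), (0x203184a9, 4), (0x427680a9, 4), (0x518092a4, 4)]⟩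

def c_2835 : frmChk tA tB F_2835 = true := by decide +kernel

def r_2835_0 : chkL rootF engF2 tA tB sA_327 sB_327 4 F_2835 [(511, 0, 0)]
    0x41e1a44d = true := by
  decide +kernel

theorem f_2835 (h : TabsF) : FrameF repsF 327 F_2835.f :=
  frame_of rfl c_2835 (runs_of engOK r_2835_0) (by decide +kernel) h.1 h.2

def F_2836 : FrX :=
  ⟨0x2002000900044004000e0204100014100080004080800040182000020800c084420100004020013400028000828000108100802080800820002002089010,
    0xa3, 1, 0x103041508496a2, 7,
    [(0xa3, 1), (0x208693a5, 4), (0x10548793, 4), (0x217693a4, 4), (0x208693a5, 4), (0x10548793, 4)],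
    [(0x103041508496a2, 7), (0x738091a5, 4), (0x54628397, 4), (0x10627398, 4), (0x54628397, 4), (0x307198a4, 4), (0x628190a5, 4), (0x10627398, 4), (0x628190a5, 4), (0x10548793, 4), (0x10627398, 4), (0x307198a4, 4)]⟩

def c_2836 : frmChk tA tB F_2836 = true := by decide +kernel

def r_2836_0 : chkL rootF engF2 tA tB sA_327 sB_327 4 F_2836 [(511, 0, 0)]
    0x4360d817 = true := by
  decide +kernel

theorem f_2836 (h : TabsF) : FrameF repsF 327 F_2836.f :=
  frame_of rfl c_2836 (runs_of engOK r_2836_0) (by decide +kernel) h.1 h.2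

def F_2837 : FrX :=
  ⟨0x482000044040440000c2040020009000182040010010048008000084040042230400000808010422000140820108100011090040200080044041000042,
    0xa0, 1, 0x21324052658695a3, 8,
    [(0xa0, 1), (0x538690a2, 4), (0x548790a1, 4), (0x21437690, 4), (0x538690a2, 4), (0x548790a1, 4)],
    [(0x21324052658695a3, 8), (0x546183a9, 4), (0x42617390, 4), (0x526187a0, 4), (0x546183a9, 4), (0x42617390, 4)]⟩

def c_2837 : frmChk tA tA F_2837 = true := by decide +kernel

def r_2837_0 : chkL rootF engF2 tA tA sA_327 sA_327 4 F_2837 [(511, 0, 0)]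
    0x10741e13a130f2150f03606c2d = true := by
  decide +kernel

theorem f_2837 (h : TabsF) : FrameF repsF 327 F_2837.f :=
  frame_of rfl c_2837 (runs_of engOK r_2837_0) (by decide +kernel) h.1 h.1

def F_2838 : FrX :=
  ⟨0x80080a000804040e00002101002001000002040890020008048004020240002048401015000008800802201080201000100101084008010482842400000,
    0xa6, 1, 0x203052718396a7, 7,
    [(0xa6, 1), (0x205396a8, 4), (0x10548796, 4), (0x214396a7, 4), (0x205396a8, 4), (0x10548796, 4)],
    [(0x203052718396a7, 7), (0x425398a0, 4), (0x406173a9, 4), (0x618294a0, 4), (0x406173a9, 4), (0x207594a8, 4), (0x53618492, 4), (0x618294a0, 4), (0x53618492, 4), (0x738290a4, 4), (0x618294a0, 4), (0x207594a8, 4)]⟩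

def c_2838 : frmChk tA tB F_2838 = true := by decide +kernel

def r_2838_0 : chkL rootF engF2 tA tB sA_327 sB_327 4 F_2838 [(511, 0, 0)]
    0x103c2e0b81705c1e03d0e89b06 = true := by
  decide +kernel

theorem f_2838 (h : TabsF) : FrameF repsF 327 F_2838.f :=
  frame_of rfl c_2838 (runs_of engOK r_2838_0) (by decide +kernel) h.1 h.2

def F_2839 : FrX :=
  ⟨0x80080a000804040e00002101002001000002040881011001020010020042007000004040c00041020000002011100140004182004001088006120404080,
    0xa6, 1, 0x43537493a6, 5,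
    [(0xa6, 1), (0x205396a8, 4), (0x10548796, 4), (0x214396a7, 4), (0x205396a8, 4), (0x10548796, 4)],
    [(0x43537493a6, 5), (0x204387a9, 4), (0x106574a3, 4), (0x436598a7, 4), (0x106574a3, 4), (0x218493a7, 4), (0x206597a8, 4), (0x436598a7, 4), (0x206597a8, 4), (0x107398a4, 4), (0x436598a7, 4), (0x218493a7, 4)]⟩

def c_2839 : frmChk tA tB F_2839 = true := by decide +kernel

def r_2839_0 : chkL rootF engF2 tA tB sA_327 sB_327 4 F_2839 [(511, 0, 0)]
    0x1 = true := by
  decide +kernel

theorem f_2839 (h : TabsF) : FrameF repsF 327 F_2839.f :=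
  frame_of rfl c_2839 (runs_of engOK r_2839_0) (by decide +kernel) h.1 h.2

def F_2840 : FrX :=
  ⟨0x80080a000804040e000021010020010000020408a00010010c00248004802020000810004000e10080800011040024080040080004004007004040c1080,
    0xa6, 1, 0x40536475a6, 5,
    [(0xa6, 1), (0x205396a8, 4), (0x10548796, 4), (0x214396a7, 4), (0x205396a8, 4), (0x10548796, 4)],
    [(0x40536475a6, 5), (0x427386a5, 4), (0x417690a3, 4), (0x738590a6, 4), (0x417690a3, 4), (0x215387a6, 4), (0x426590a8, 4), (0x738590a6, 4), (0x426590a8, 4), (0x416385a7, 4), (0x738590a6, 4), (0x215387a6, 4)]⟩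

def c_2840 : frmChk tA tB F_2840 = true := by decide +kernel

def r_2840_0 : chkL rootF engF2 tA tB sA_327 sB_327 4 F_2840 [(511, 0, 0)]
    0x10f1a20742b05c2b = true := by
  decide +kernel

theorem f_2840 (h : TabsF) : FrameF repsF 327 F_2840.f :=
  frame_of rfl c_2840 (runs_of engOK r_2840_0) (by decide +kernel) h.1 h.2

def F_2841 : FrX :=
  ⟨0x1c2102000004044000002041000101000082040888081000001020400400102002020620000054038000209202000408048008001200800100810282200,
    0x0, 0, 0x215387, 3,
    [(0x0, 0), (0x205386a9, 4), (0x105487a9, 4), (0x214376a9, 4), (0x205386a9, 4), (0x105487a9, 4)],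
    [(0x215387, 3), (0x105376a9, 4), (0x204387a9, 4), (0x215486a9, 4), (0x105376a9, 4), (0x204387a9, 4)]⟩

def c_2841 : frmChk tA tA F_2841 = true := by decide +kernel

def r_2841_0 : chkL rootF engF2 tA tA sA_327 sA_327 4 F_2841 [(511, 0, 0)]
    0x10d98a0d8a309c39 = true := by
  decide +kernel

theorem f_2841 (h : TabsF) : FrameF repsF 327 F_2841.f :=
  frame_of rfl c_2841 (runs_of engOK r_2841_0) (by decide +kernel) h.1 h.1

def F_2842 : FrX :=
  ⟨0x80080a000804040e000021010020010000020408a0001002080024800480202000081400400055038000001202002408004008001000400100c040c2200,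
    0xa6, 1, 0x21768792a4, 5,
    [(0xa6, 1), (0x205396a8, 4), (0x10548796, 4), (0x214396a7, 4), (0x205396a8, 4), (0x10548796, 4)],
    [(0x21768792a4, 5), (0x738590a6, 4), (0x204187a5, 4), (0x416385a7, 4), (0x204187a5, 4), (0x658392a7, 4), (0x417690a3, 4), (0x416385a7, 4), (0x417690a3, 4), (0x206375a8, 4), (0x416385a7, 4), (0x658392a7, 4)]⟩

def c_2842 : frmChk tA tB F_2842 = true := by decide +kernel

def r_2842_0 : chkL rootF engF2 tA tB sA_327 sB_327 4 F_2842 [(511, 0, 0)]
    0x436 = true := by
  decide +kernel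

theorem f_2842 (h : TabsF) : FrameF repsF 327 F_2842.f :=
  frame_of rfl c_2842 (runs_of engOK r_2842_0) (by decide +kernel) h.1 h.2

def F_2843 : FrX :=
  ⟨0x1001040012008080000e0084080041000810100004202010018802200200002044020202000070000820480410000040090080020080444401000c000290,
    0xa3, 1, 0x3243526272a4, 6,
    [(0xa3, 1), (0x207584a6, 4), (0x10547693, 4), (0x647593a8, 4), (0x10547693, 4), (0x216485a7, 4), (0x208693a4, 4), (0x647593a8, 4), (0x208693a4, 4), (0x106574a8, 4), (0x647593a8, 4), (0x216485a7, 4)],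
    [(0x3243526272a4, 6), (0x546370a8, 4), (0x106592a3, 4), (0x638492a5, 4), (0x106592a3, 4), (0x647183a5, 4), (0x708592a4, 4), (0x638492a5, 4), (0x708592a4, 4), (0x105384a6, 4), (0x638492a5, 4), (0x647183a5, 4)]⟩

def c_2843 : frmChk tB tB F_2843 = true := by decide +kernel

def r_2843_0 : chkL rootF engF2 tB tB sB_327 sB_327 4 F_2843 [(511, 0, 0)]
    0x106d8303c2b0ac2b = true := by
  decide +kernel

theorem f_2843 (h : TabsF) : FrameF repsF 327 F_2843.f :=
  frame_of rfl c_2843 (runs_of engOK r_2843_0) (by decide +kernel) h.2 h.2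

def F_2844 : FrX :=
  ⟨0x1001040012008080000e008408004100081010000421000040414001010000400e2040002020202020240810500008800004002103000081130104000004,
    0xa3, 1, 0x64748793a8, 5,
    [(0xa3, 1), (0x207584a6, 4), (0x10547693, 4), (0x647593a8, 4), (0x10547693, 4), (0x216485a7, 4), (0x208693a4, 4), (0x647593a8, 4), (0x208693a4, 4), (0x106574a8, 4), (0x647593a8, 4), (0x216485a7, 4)],
    [(0x64748793a8, 5), (0x206395a4, 4), (0x106375a8, 4), (0x21638497, 4), (0x206395a4, 4), (0x106375a8, 4)]⟩

def c_2844 : frmChk tB tA F_2844 = true := by decide +kernel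

def r_2844_0 : chkL rootF engF2 tB tA sB_327 sA_327 4 F_2844 [(511, 0, 0)]
    0x41753055 = true := by
  decide +kernel

theorem f_2844 (h : TabsF) : FrameF repsF 327 F_2844.f :=
  frame_of rfl c_2844 (runs_of engOK r_2844_0) (by decide +kernel) h.2 h.1

def F_2845 : FrX :=
  ⟨0x1001040012008080000e00840800410008101000042008024001400101020000056000102200004240010230022008800000083810020000095009000200,
    0xa3, 1, 0x317496a3, 4,
    [(0xa3, 1), (0x207584a6, 4), (0x10547693, 4), (0x647593a8, 4), (0x10547693, 4), (0x216485a7, 4), (0x208693a4, 4), (0x647593a8, 4), (0x208693a4, 4), (0x106574a8, 4), (0x647593a8, 4), (0x216485a7, 4)],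
    [(0x317496a3, 4), (0x205487a9, 4), (0x30617594, 4), (0x546197a8, 4), (0x30617594, 4), (0x328597a4, 4), (0x206198a7, 4), (0x546197a8, 4), (0x206198a7, 4), (0x307495a8, 4), (0x546197a8, 4), (0x328597a4, 4)]⟩

def c_2845 : frmChk tB tB F_2845 = true := by decide +kernel

def r_2845_0 : chkL rootF engF2 tB tB sB_327 sB_327 4 F_2845 [(511, 0, 0)]
    0x10b43906d3805c1d = true := by
  decide +kernel

theorem f_2845 (h : TabsF) : FrameF repsF 327 F_2845.f :=
  frame_of rfl c_2845 (runs_of engOK r_2845_0) (by decide +kernel) h.2 h.2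

def F_2846 : FrX :=
  ⟨0x1001040012008080000e00840800410008101000042100001120010060002022808200001200008802804006c00000420010800404200c00484000200048,
    0xa3, 1, 0x102131547491a8, 7,
    [(0xa3, 1), (0x207584a6, 4), (0x10547693, 4), (0x647593a8, 4), (0x10547693, 4), (0x216485a7, 4), (0x208693a4, 4), (0x647593a8, 4), (0x208693a4, 4), (0x106574a8, 4), (0x647593a8, 4), (0x216485a7, 4)],
    [(0x102131547491a8, 7), (0x104283a6, 4), (0x748391a5, 4), (0x65728390, 4), (0x104283a6, 4), (0x748391a5, 4)]⟩

def c_2846 : frmChk tB tA F_2846 = true := by decide +kernel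

def r_2846_0 : chkL rootF engF2 tB tA sB_327 sA_327 4 F_2846 [(511, 0, 0)]
    0x662348279c350 = true := by
  decide +kernel

theorem f_2846 (h : TabsF) : FrameF repsF 327 F_2846.f :=
  frame_of rfl c_2846 (runs_of engOK r_2846_0) (by decide +kernel) h.2 h.1

def F_2847 : FrX :=
  ⟨0x1001040012008080000e0084080041000810100006000002808020800418008404000a0001a0410268010000000420014000008260010000011002221100,
    0xa3, 1, 0x3143647691a3, 6,
    [(0xa3, 1), (0x207584a6, 4), (0x10547693, 4), (0x647593a8, 4), (0x10547693, 4), (0x216485a7, 4), (0x208693a4, 4), (0x647593a8, 4), (0x208693a4, 4), (0x106574a8, 4), (0x647593a8, 4), (0x216485a7, 4)],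
    [(0x3143647691a3, 6), (0x205186a7, 4), (0x43657190, 4), (0x435176a8, 4), (0x43657190, 4), (0x768592a1, 4), (0x204387a6, 4), (0x435176a8, 4), (0x204387a6, 4), (0x617590a8, 4), (0x435176a8, 4), (0x768592a1, 4)]⟩

def c_2847 : frmChk tB tB F_2847 = true := by decide +kernel

def r_2847_0 : chkL rootF engF2 tB tB sB_327 sB_327 4 F_2847 [(511, 0, 0)]
    0x7054390e2342d0b42b = true := by
  decide +kernel

theorem f_2847 (h : TabsF) : FrameF repsF 327 F_2847.f :=
  frame_of rfl c_2847 (runs_of engOK r_2847_0) (by decide +kernel) h.2 h.2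

def F_2848 : FrX :=
  ⟨0x80080a000804040e000021010020010000020408a00010040400248004802020000818004000e10200c00005040024080040080004004003004040c4008,
    0xa6, 1, 0x53648692a8, 5,
    [(0xa6, 1), (0x205396a8, 4), (0x10548796, 4), (0x214396a7, 4), (0x205396a8, 4), (0x10548796, 4)],
    [(0x53648692a8, 5), (0x738590a6, 4), (0x10426387, 4), (0x427386a5, 4), (0x10426387, 4), (0x758691a3, 4), (0x426590a8, 4), (0x427386a5, 4), (0x426590a8, 4), (0x107683a5, 4), (0x427386a5, 4), (0x758691a3, 4)]⟩

def c_2848 : frmChk tA tB F_2848 = true := by decide +kernel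

def r_2848_0 : chkL rootF engF2 tA tB sA_327 sB_327 4 F_2848 [(511, 0, 0)]
    0x106c3c0f03c05c0f0781e03c1b = true := by
  decide +kernel

theorem f_2848 (h : TabsF) : FrameF repsF 327 F_2848.f :=
  frame_of rfl c_2848 (runs_of engOK r_2848_0) (by decide +kernel) h.1 h.2

theorem cl_327 (h : TabsF) : ∀ f ∈ fr_327, FrameF repsF 327 f :=
  List.forall_mem_cons.2 ⟨f_2821 h, List.forall_mem_cons.2 ⟨f_2822 h, List.forall_mem_cons.2 ⟨f_2823 h, List.forall_mem_cons.2 ⟨f_2824 h, List.forall_mem_cons.2 ⟨f_2825 h, List.forall_mem_cons.2 ⟨f_2826 h, List.forall_mem_cons.2 ⟨f_2827 h, List.forall_mem_cons.2 ⟨f_2828 h, List.forall_mem_cons.2 ⟨f_2829 h, List.forall_mem_cons.2 ⟨f_2830 h, List.forall_mem_cons.2 ⟨f_2831 h, List.forall_mem_cons.2 ⟨f_2832 h, List.forall_mem_cons.2 ⟨f_2833 h, List.forall_mem_cons.2 ⟨f_2834 h, List.forall_mem_cons.2 ⟨f_2835 h, List.forall_mem_cons.2 ⟨f_2836 h, List.forall_mem_cons.2 ⟨f_2837 h, List.forall_mem_cons.2 ⟨f_2838 h, List.forall_mem_cons.2 ⟨f_2839 h, List.forall_mem_cons.2 ⟨f_2840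 h, List.forall_mem_cons.2 ⟨f_2841 h, List.forall_mem_cons.2 ⟨f_2842 h, List.forall_mem_cons.2 ⟨f_2843 h, List.forall_mem_cons.2 ⟨f_2844 h, List.forall_mem_cons.2 ⟨f_2845 h, List.forall_mem_cons.2 ⟨f_2846 h, List.forall_mem_cons.2 ⟨f_2847 h, List.forall_mem_cons.2 ⟨f_2848 h,
    fun _ h0 => absurd h0 List.not_mem_nil⟩⟩⟩⟩⟩⟩⟩⟩⟩⟩⟩⟩⟩⟩⟩⟩⟩⟩⟩⟩⟩⟩⟩⟩⟩⟩⟩⟩

def F_2849 : FrX :=
  ⟨0x80080a000804040e0000210100200100000204088208080061002040080008200202040140000812000018201101000100010a02080018a100210800001,
    0xa6, 1, 0x2054647680a3, 6,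
    [(0xa6, 1), (0x205396a8, 4), (0x10548796, 4), (0x214396a7, 4), (0x205396a8, 4), (0x10548796, 4)],
    [(0x2054647680a3, 6), (0x728093a4, 4), (0x52648193, 4), (0x107593a6, 4), (0x728093a4, 4), (0x52648193, 4)]⟩

def c_2849 : frmChk tA tA F_2849 = true := by decide +kernel

def r_2849_0 : chkL rootF engF2 tA tA sA_328 sA_328 4 F_2849 [(511, 0, 0)]
    0x10783c1e03906c1b14c4e = true := by
  decide +kernel

theorem f_2849 (h : TabsF) : FrameF repsF 328 F_2849.f :=
  frame_of rfl c_2849 (runs_of engOK r_2849_0) (by decide +kernel) h.1 h.1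

def F_2850 : FrX :=
  ⟨0x80080a000804040e000021010020010000020408820802000d0080100800082001084000c0001022000022050801000200004a02800a040202404040002,
    0xa6, 1, 0x102043617483a6, 7,
    [(0xa6, 1), (0x205396a8, 4), (0x10548796, 4), (0x214396a7, 4), (0x205396a8, 4), (0x10548796, 4)],
    [(0x102043617483a6, 7), (0x218590a4, 4), (0x43627590, 4), (0x618790a3, 4), (0x218590a4, 4), (0x43627590, 4)]⟩

def c_2850 : frmChk tA tA F_2850 = true := by decide +kernel

def r_2850_0 : chkL rootF engF2 tA tA sA_328 sA_328 4 F_2850 [(511, 0, 0)]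
    0x61a2965882e4c92a0ba0c0f1342703c3c0741d168531545a3c00f17033 = true := by
  decide +kernel

theorem f_2850 (h : TabsF) : FrameF repsF 328 F_2850.f :=
  frame_of rfl c_2850 (runs_of engOK r_2850_0) (by decide +kernel) h.1 h.1

def F_2851 : FrX :=
  ⟨0x2002000900044004000e0204100014100080004081000002420100410088004120200020080801102020002c404020040001808008800200340220000082,
    0xa3, 1, 0x304164728395a1, 7,
    [(0xa3, 1), (0x208693a5, 4), (0x10548793, 4), (0x217693a4, 4), (0x208693a5, 4), (0x10548793, 4)],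
    [(0x304164728395a1, 7), (0x10547398, 4), (0x205496a3, 4), (0x215486a7, 4), (0x10547398, 4), (0x205496a3, 4)]⟩

def c_2851 : frmChk tA tA F_2851 = true := by decide +kernel

def r_2851_0 : chkL rootF engF2 tA tA sA_328 sA_328 4 F_2851 [(511, 0, 0)]
    0x41ba0c4da0c1b06d4906c2706c1b = true := by
  decide +kernel

theorem f_2851 (h : TabsF) : FrameF repsF 328 F_2851.f :=
  frame_of rfl c_2851 (runs_of engOK r_2851_0) (by decide +kernel) h.1 h.1

def F_2852 : FrX :=
  ⟨0x80080a000804040e000021010020010000020408810810000444001002200000090c40100200404000c1400a0201000026002001100040a1004000c0020,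
    0xa6, 1, 0x4253637094a6, 6,
    [(0xa6, 1), (0x205396a8, 4), (0x10548796, 4), (0x214396a7, 4), (0x205396a8, 4), (0x10548796, 4)],
    [(0x4253637094a6, 6), (0x526374a8, 4), (0x52718093, 4), (0x415296a0, 4), (0x526374a8, 4), (0x52718093, 4)]⟩

def c_2852 : frmChk tA tA F_2852 = true := by decide +kernel

def r_2852_0 : chkL rootF engF2 tA tA sA_328 sA_328 4 F_2852 [(511, 0, 0)]
    0x447 = true := by
  decide +kernel

theorem f_2852 (h : TabsF) : FrameF repsF 328 F_2852.f :=
  frame_of rfl c_2852 (runs_of engOK r_2852_0) (by decide +kernel) h.1 h.1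

def F_2853 : FrX :=
  ⟨0x2002000900044004000e020410001410008000408008010410200100080121012020002100800210004c0004888000040281003010080808000208020024,
    0xa3, 1, 0x3142508298a0, 6,
    [(0xa3, 1), (0x208693a5, 4), (0x10548793, 4), (0x217693a4, 4), (0x208693a5, 4), (0x10548793, 4)],
    [(0x3142508298a0, 6), (0x617092a8, 4), (0x205476a3, 4), (0x54627091, 4), (0x205476a3, 4), (0x62718390, 4), (0x215496a8, 4), (0x54627091, 4), (0x215496a8, 4), (0x607291a3, 4), (0x54627091, 4), (0x62718390, 4)]⟩

def c_2853 : frmChk tA tB F_2853 = true := by decide +kernel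

def r_2853_0 : chkL rootF engF2 tA tB sA_328 sB_328 4 F_2853 [(511, 0, 0)]
    0x10740f03c390745511c550e40f03c55 = true := by
  decide +kernel

theorem f_2853 (h : TabsF) : FrameF repsF 328 F_2853.f :=
  frame_of rfl c_2853 (runs_of engOK r_2853_0) (by decide +kernel) h.1 h.2

def F_2854 : FrX :=
  ⟨0x482000044040440000c204002000900018204000082208000088080008020202002061010001420080000901411000201000a008080402100c00211000,
    0xa0, 1, 0x435363708694a1, 7,
    [(0xa0, 1), (0x538690a2, 4), (0x548790a1, 4), (0x21437690, 4), (0x538690a2, 4), (0x548790a1, 4)],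
    [(0x435363708694a1, 7), (0x31647285, 4), (0x315094a7, 4), (0x318096a2, 4), (0x31647285, 4), (0x315094a7, 4)]⟩

def c_2854 : frmChk tA tA F_2854 = true := by decide +kernel

def r_2854_0 : chkL rootF engF2 tA tA sA_328 sA_328 4 F_2854 [(511, 0, 0)]
    0x103c0fa29860e81b074b481e07a0e8305cc514e1330c1b2541b4c5b02c5b042f0548d312383329833 = true := by
  decide +kernel

theorem f_2854 (h : TabsF) : FrameF repsF 328 F_2854.f :=
  frame_of rfl c_2854 (runs_of engOK r_2854_0) (by decide +kernel) h.1 h.1

def F_2855 : FrX :=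
  ⟨0x482000044040440000c204002000900018204000041201080408020008004800404201010600040080000600109000021002000a040402900200808280,
    0xa0, 1, 0x2031507681a2, 6,
    [(0xa0, 1), (0x538690a2, 4), (0x548790a1, 4), (0x21437690, 4), (0x538690a2, 4), (0x548790a1, 4)],
    [(0x2031507681a2, 6), (0x436271a5, 4), (0x42768590, 4), (0x31627490, 4), (0x42768590, 4), (0x326174a8, 4), (0x417390a5, 4), (0x31627490, 4), (0x417390a5, 4), (0x31647285, 4), (0x31627490, 4), (0x326174a8, 4)]⟩

def c_2855 : frmChk tA tB F_2855 = true := by decide +kernel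

def r_2855_0 : chkL rootF engF2 tA tB sA_328 sB_328 4 F_2855 [(511, 0, 0)]
    0x10744b50c4b = true := by
  decide +kernel

theorem f_2855 (h : TabsF) : FrameF repsF 328 F_2855.f :=
  frame_of rfl c_2855 (runs_of engOK r_2855_0) (by decide +kernel) h.1 h.2

def F_2856 : FrX :=
  ⟨0x80080a000804040e000021010020010000020408a000100404040042022400000850100020280a00088000108c001802000102004108000202104448000,
    0xa6, 1, 0x214051738190a5, 7,
    [(0xa6, 1), (0x205396a8, 4), (0x10548796, 4), (0x214396a7, 4), (0x205396a8, 4), (0x10548796, 4)],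
    [(0x214051738190a5, 7), (0x426591a7, 4), (0x425398a0, 4), (0x42637081, 4), (0x426591a7, 4), (0x425398a0, 4)]⟩

def c_2856 : frmChk tA tA F_2856 = true := by decide +kernel

def r_2856_0 : chkL rootF engF2 tA tA sA_328 sA_328 4 F_2856 [(511, 0, 0)]
    0x11700f1980f2c40f14c6a38586 = true := by
  decide +kernel

theorem f_2856 (h : TabsF) : FrameF repsF 328 F_2856.f :=
  frame_of rfl c_2856 (runs_of engOK r_2856_0) (by decide +kernel) h.1 h.1

def F_2857 : FrX :=
  ⟨0x2002000900044004000e02041000141000800040810140002080802401000081040202001008008400800805010048800041000026040000501400223000,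
    0xa3, 1, 0x304252617183a1, 7,
    [(0xa3, 1), (0x208693a5, 4), (0x10548793, 4), (0x217693a4, 4), (0x208693a5, 4), (0x10548793, 4)],
    [(0x304252617183a1, 7), (0x10538497, 4), (0x426097a3, 4), (0x618297a5, 4), (0x10538497, 4), (0x426097a3, 4)]⟩

def c_2857 : frmChk tA tA F_2857 = true := by decide +kernel

def r_2857_0 : chkL rootF engF2 tA tA sA_328 sA_328 4 F_2857 [(511, 0, 0)]
    0x41e0cc3c0e8b80f0b20cc6c0b493 = true := by
  decide +kernel

theorem f_2857 (h : TabsF) : FrameF repsF 328 F_2857.f :=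
  frame_of rfl c_2857 (runs_of engOK r_2857_0) (by decide +kernel) h.1 h.1

def F_2858 : FrX :=
  ⟨0x482000044040440000c204002000900018204001001002810800008404004422040001000003040081104020100100208400822005002000500000804c,
    0xa0, 1, 0x4051657086a8, 6,
    [(0xa0, 1), (0x538690a2, 4), (0x548790a1, 4), (0x21437690, 4), (0x538690a2, 4), (0x548790a1, 4)],
    [(0x4051657086a8, 6), (0x637291a8, 4), (0x607591a4, 4), (0x30528491, 4), (0x637291a8, 4), (0x607591a4, 4)]⟩

def c_2858 : frmChk tA tA F_2858 = true := by decide +kernel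

def r_2858_0 : chkL rootF engF2 tA tA sA_328 sA_328 4 F_2858 [(511, 0, 0)]
    0x4723a01e0b8ca3183503c1e26835 = true := by
  decide +kernel

theorem f_2858 (h : TabsF) : FrameF repsF 328 F_2858.f :=
  frame_of rfl c_2858 (runs_of engOK r_2858_0) (by decide +kernel) h.1 h.1

def F_2859 : FrX :=
  ⟨0x80080a000804040e0000210100200100000204088042410042000840001400003002041010001100002000021304000a0480480010009210040a1800000,
    0xa6, 1, 0x4052617587a2, 6,
    [(0xa6, 1), (0x205396a8, 4), (0x10548796, 4), (0x214396a7, 4), (0x205396a8, 4), (0x10548796, 4)],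
    [(0x4052617587a2, 6), (0x203187a4, 4), (0x64708195, 4), (0x10328795, 4), (0x64708195, 4), (0x107283a6, 4), (0x213095a4, 4), (0x10328795, 4), (0x213095a4, 4), (0x32647180, 4), (0x10328795, 4), (0x107283a6, 4)]⟩

def c_2859 : frmChk tA tB F_2859 = true := by decide +kernel

def r_2859_0 : chkL rootF engF2 tA tB sA_328 sB_328 4 F_2859 [(511, 0, 0)]
    0x44d1344d03cf0 = true := by
  decide +kernel

theorem f_2859 (h : TabsF) : FrameF repsF 328 F_2859.f :=
  frame_of rfl c_2859 (runs_of engOK r_2859_0) (by decide +kernel) h.1 h.2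

def F_2860 : FrX :=
  ⟨0x482000044040440000c2040020009000182040010020100904000208010804804080001004901008000030101001800084000102080801100904000484,
    0xa0, 1, 0x203042728493a3, 7,
    [(0xa0, 1), (0x538690a2, 4), (0x548790a1, 4), (0x21437690, 4), (0x538690a2, 4), (0x548790a1, 4)],
    [(0x203042728493a3, 7), (0x607392a5, 4), (0x31408592, 4), (0x647192a8, 4), (0x607392a5, 4), (0x31408592, 4)]⟩

def c_2860 : frmChk tA tA F_2860 = true := by decide +kernel

def r_2860_0 : chkL rootF engF2 tA tA sA_328 sA_328 4 F_2860 [(511, 0, 0)]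
    0x18641e4541703cd40781e03c27 = true := by
  decide +kernel

theorem f_2860 (h : TabsF) : FrameF repsF 328 F_2860.f :=
  frame_of rfl c_2860 (runs_of engOK r_2860_0) (by decide +kernel) h.1 h.1

def F_2861 : FrX :=
  ⟨0x80080a000804040e000021010020010000020408820220000600041000140100480810014000088408000010141408010011010840080804041c0400000,
    0xa6, 1, 0x4052618491a0, 6,
    [(0xa6, 1), (0x205396a8, 4), (0x10548796, 4), (0x214396a7, 4), (0x205396a8, 4), (0x10548796, 4)],
    [(0x4052618491a0, 6), (0x317280a5, 4), (0x647182a9, 4), (0x30647281, 4), (0x647182a9, 4), (0x20738195, 4), (0x106483a5, 4), (0x30647281, 4), (0x106483a5, 4), (0x213087a9, 4), (0x30647281, 4), (0x20738195, 4)]⟩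

def c_2861 : frmChk tA tB F_2861 = true := by decide +kernel

def r_2861_0 : chkL rootF engF2 tA tB sA_328 sB_328 4 F_2861 [(511, 0, 0)]
    0x11d055158550cc170cc330ccd11d2519c226 = true := by
  decide +kernel

theorem f_2861 (h : TabsF) : FrameF repsF 328 F_2861.f :=
  frame_of rfl c_2861 (runs_of engOK r_2861_0) (by decide +kernel) h.1 h.2

def F_2862 : FrX :=
  ⟨0x80080a000804040e0000210100200100000204088401080021002c000802002000404040c001844800008001210100020001080810003042402100c0000,
    0xa6, 1, 0x10203153657298a3, 8,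
    [(0xa6, 1), (0x205396a8, 4), (0x10548796, 4), (0x214396a7, 4), (0x205396a8, 4), (0x10548796, 4)],
    [(0x10203153657298a3, 8), (0x728590a6, 4), (0x32648591, 4), (0x107385a4, 4), (0x728590a6, 4), (0x32648591, 4)]⟩

def c_2862 : frmChk tA tA F_2862 = true := by decide +kernel

def r_2862_0 : chkL rootF engF2 tA tA sA_328 sA_328 4 F_2862 [(511, 0, 0)]
    0x427 = true := by
  decide +kernel

theorem f_2862 (h : TabsF) : FrameF repsF 328 F_2862.f :=
  frame_of rfl c_2862 (runs_of engOK r_2862_0) (by decide +kernel) h.1 h.1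

def F_2863 : FrX :=
  ⟨0x2002000900044004000e0204100014100080004081000002808400422020a008100000200808011020200054401020900004200045001000040904004040,
    0xa3, 1, 0x415361718295a2, 7,
    [(0xa3, 1), (0x208693a5, 4), (0x10548793, 4), (0x217693a4, 4), (0x208693a5, 4), (0x10548793, 4)],
    [(0x415361718295a2, 7), (0x428395a0, 4), (0x62708391, 4), (0x516483a7, 4), (0x428395a0, 4), (0x62708391, 4)]⟩

def c_2863 : frmChk tA tA F_2863 = true := by decide +kernel

def r_2863_0 : chkL rootF engF2 tA tA sA_328 sA_328 4 F_2863 [(511, 0, 0)]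
    0x106c36633840cc330cd2515545 = true := by
  decide +kernel

theorem f_2863 (h : TabsF) : FrameF repsF 328 F_2863.f :=
  frame_of rfl c_2863 (runs_of engOK r_2863_0) (by decide +kernel) h.1 h.1

def F_2864 : FrX :=
  ⟨0x2002000900044004000e0204100014100080004080800100112000020922010100010800088004200220420a010000140081010002801008000900210084,
    0xa3, 1, 0x104152738293a6, 7,
    [(0xa3, 1), (0x208693a5, 4), (0x10548793, 4), (0x217693a4, 4), (0x208693a5, 4), (0x10548793, 4)],
    [(0x104152738293a6, 7), (0x325081a9, 4), (0x204176a3, 4), (0x327695a0, 4), (0x204176a3, 4), (0x528493a0, 4), (0x768190a5, 4), (0x327695a0, 4), (0x768190a5, 4), (0x304195a2, 4), (0x327695a0, 4), (0x528493a0, 4)]⟩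

def c_2864 : frmChk tA tB F_2864 = true := by decide +kernel

def r_2864_0 : chkL rootF engF2 tA tB sA_328 sB_328 4 F_2864 [(511, 0, 0)]
    0x42b0ac55 = true := by
  decide +kernel

theorem f_2864 (h : TabsF) : FrameF repsF 328 F_2864.f :=
  frame_of rfl c_2864 (runs_of engOK r_2864_0) (by decide +kernel) h.1 h.2

def F_2865 : FrX :=
  ⟨0x482000044040440000c204002000900018204002480104000002008001405001008040020108028004000810302000a0c0008080408404000802800401,
    0xa0, 1, 0x1021425371a8, 6,
    [(0xa0, 1), (0x538690a2, 4), (0x548790a1, 4), (0x21437690, 4), (0x538690a2, 4), (0x548790a1, 4)],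
    [(0x1021425371a8, 6), (0x415398a6, 4), (0x307198a2, 4), (0x50627498, 4), (0x415398a6, 4), (0x307198a2, 4)]⟩

def c_2865 : frmChk tA tA F_2865 = true := by decide +kernel

def r_2865_0 : chkL rootF engF2 tA tA sA_328 sA_328 4 F_2865 [(511, 0, 0)]
    0x41d05c933488b0ac1b06c1706c95 = true := by
  decide +kernel

theorem f_2865 (h : TabsF) : FrameF repsF 328 F_2865.f :=
  frame_of rfl c_2865 (runs_of engOK r_2865_0) (by decide +kernel) h.1 h.1

def F_2866 : FrX :=
  ⟨0x482000044040440000c2040020009000182040001022020804020200080028010022010100018200800009084010000240005080038004206100010002,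
    0xa0, 1, 0x103241647180a3, 7,
    [(0xa0, 1), (0x538690a2, 4), (0x548790a1, 4), (0x21437690, 4), (0x538690a2, 4), (0x548790a1, 4)],
    [(0x103241647180a3, 7), (0x546183a0, 4), (0x40658792, 4), (0x546092a1, 4), (0x40658792, 4), (0x516073a4, 4), (0x108392a6, 4), (0x546092a1, 4), (0x108392a6, 4), (0x506487a1, 4), (0x546092a1, 4), (0x516073a4, 4)]⟩

def c_2866 : frmChk tA tB F_2866 = true := by decide +kernel

def r_2866_0 : chkL rootF engF2 tA tB sA_328 sB_328 4 F_2866 [(511, 0, 0)]
    0x4d203c2b2709c2702b0ac1d24c36 = true := by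
  decide +kernel

theorem f_2866 (h : TabsF) : FrameF repsF 328 F_2866.f :=
  frame_of rfl c_2866 (runs_of engOK r_2866_0) (by decide +kernel) h.1 h.2

def F_2867 : FrX :=
  ⟨0x2002000900044004000e02041000141000800040820101001100202008202101000204020808010004080209010000802040200084201010408020281001,
    0xa3, 1, 0x204351708290a0, 7,
    [(0xa3, 1), (0x208693a5, 4), (0x10548793, 4), (0x217693a4, 4), (0x208693a5, 4), (0x10548793, 4)],
    [(0x204351708290a0, 7), (0x416097a8, 4), (0x203197a5, 4), (0x43628597, 4), (0x416097a8, 4), (0x203197a5, 4)]⟩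

def c_2867 : frmChk tA tA F_2867 = true := by decide +kernel

def r_2867_0 : chkL rootF engF2 tA tA sA_328 sA_328 4 F_2867 [(511, 0, 0)]
    0x50b = true := by
  decide +kernel

theorem f_2867 (h : TabsF) : FrameF repsF 328 F_2867.f :=
  frame_of rfl c_2867 (runs_of engOK r_2867_0) (by decide +kernel) h.1 h.1

def F_2868 : FrX :=
  ⟨0x1c2102000004044000002041000101000082040888081000001020400400102000604064800010040080209012200800048001005200810508010280000,
    0x0, 0, 0x4376, 2,
    [(0x0, 0), (0x205386a9, 4), (0x105487a9, 4), (0x214376a9, 4), (0x205386a9, 4), (0x105487a9, 4)],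
    [(0x4376, 2), (0x20657483, 4), (0x105376a9, 4), (0x657384a9, 4), (0x105376a9, 4), (0x21647385, 4), (0x204387a9, 4), (0x657384a9, 4), (0x204387a9, 4), (0x10637584, 4), (0x657384a9, 4), (0x21647385, 4)]⟩

def c_2868 : frmChk tA tB F_2868 = true := by decide +kernel

def r_2868_0 : chkL rootF engF2 tA tB sA_328 sB_328 4 F_2868 [(511, 0, 0)]
    0x1 = true := by
  decide +kernel

theorem f_2868 (h : TabsF) : FrameF repsF 328 F_2868.f :=
  frame_of rfl c_2868 (runs_of engOK r_2868_0) (by decide +kernel) h.1 h.2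

def F_2869 : FrX :=
  ⟨0x80080a000804040e000021010020010000020408a5001000040028000480202000023000400805008080001100502408004008a020004007000c0808000,
    0xa6, 1, 0x10203142637186a6, 8,
    [(0xa6, 1), (0x205396a8, 4), (0x10548796, 4), (0x214396a7, 4), (0x205396a8, 4), (0x10548796, 4)],
    [(0x10203142637186a6, 8), (0x426598a0, 4), (0x30517298, 4), (0x617498a3, 4), (0x426598a0, 4), (0x30517298, 4)]⟩

def c_2869 : frmChk tA tA F_2869 = true := by decide +kernel

def r_2869_0 : chkL rootF engF2 tA tA sA_328 sA_328 4 F_2869 [(511, 0, 0)]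
    0x10b90d07465154781e0690d427 = true := by
  decide +kernel

theorem f_2869 (h : TabsF) : FrameF repsF 328 F_2869.f :=
  frame_of rfl c_2869 (runs_of engOK r_2869_0) (by decide +kernel) h.1 h.1

def F_2870 : FrX :=
  ⟨0x80080a000804040e000021010020010000020408a0001002080024800480202000081404c000110400800010122028000040010050004105080c0808000,
    0xa6, 1, 0x41537691a4, 5,
    [(0xa6, 1), (0x205396a8, 4), (0x10548796, 4), (0x214396a7, 4), (0x205396a8, 4), (0x10548796, 4)],
    [(0x41537691a4, 5), (0x206375a8, 4), (0x417690a3, 4), (0x416385a7, 4), (0x417690a3, 4), (0x658392a7, 4), (0x204187a5, 4), (0x416385a7, 4), (0x204187a5, 4), (0x738590a6, 4), (0x416385a7, 4), (0x658392a7, 4)]⟩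

def c_2870 : frmChk tA tB F_2870 = true := by decide +kernel

def r_2870_0 : chkL rootF engF2 tA tB sA_328 sB_328 4 F_2870 [(511, 0, 0)]
    0x4170741b = true := by
  decide +kernel

theorem f_2870 (h : TabsF) : FrameF repsF 328 F_2870.f :=
  frame_of rfl c_2870 (runs_of engOK r_2870_0) (by decide +kernel) h.1 h.2

def F_2871 : FrX :=
  ⟨0x2002000900044004000e0204100014100080004080040021810140040082080020010012000404008024a400000400801001828000600200300004015010,
    0xa3, 1, 0x10213251608293a3, 8,
    [(0xa3, 1), (0x208693a5, 4), (0x10548793, 4), (0x217693a4, 4), (0x208693a5, 4), (0x10548793, 4)],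
    [(0x10213251608293a3, 8), (0x437286a1, 4), (0x42657190, 4), (0x417290a3, 4), (0x42657190, 4), (0x324185a7, 4), (0x318690a4, 4), (0x417290a3, 4), (0x318690a4, 4), (0x216574a3, 4), (0x417290a3, 4), (0x324185a7, 4)]⟩

def c_2871 : frmChk tA tB F_2871 = true := by decide +kernel

def r_2871_0 : chkL rootF engF2 tA tB sA_328 sB_328 4 F_2871 [(511, 0, 0)]
    0x456 = true := by
  decide +kernel

theorem f_2871 (h : TabsF) : FrameF repsF 328 F_2871.f :=
  frame_of rfl c_2871 (runs_of engOK r_2871_0) (by decide +kernel) h.1 h.2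

def F_2872 : FrX :=
  ⟨0x482000044040440000c20400200090001820400004402420012000800800480100120200080100121004404080004080800901400900800041100000c2,
    0xa0, 1, 0x54617382a0, 5,
    [(0xa0, 1), (0x538690a2, 4), (0x548790a1, 4), (0x21437690, 4), (0x538690a2, 4), (0x548790a1, 4)],
    [(0x54617382a0, 5), (0x217490a8, 4), (0x325490a6, 4), (0x31758690, 4), (0x217490a8, 4), (0x325490a6, 4)]⟩

def c_2872 : frmChk tA tA F_2872 = true := by decide +kernel

def r_2872_0 : chkL rootF engF2 tA tA sA_328 sA_328 4 F_2872 [(511, 0, 0)]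
    0x103c350cc35079640f3245312c708274b00f8d039 = true := by
  decide +kernel

theorem f_2872 (h : TabsF) : FrameF repsF 328 F_2872.f :=
  frame_of rfl c_2872 (runs_of engOK r_2872_0) (by decide +kernel) h.1 h.1

def F_2873 : FrX :=
  ⟨0x80080a000804040e000021010020010000020408a0000808040400808224000020501000202420410808000820201802000102004010001100a02c20000,
    0xa6, 1, 0x10204251708192a3, 8,
    [(0xa6, 1), (0x205396a8, 4), (0x10548796, 4), (0x214396a7, 4), (0x205396a8, 4), (0x10548796, 4)],
    [(0x10204251708192a3, 8), (0x205197a6, 4), (0x10436287, 4), (0x204361a5, 4), (0x10436287, 4), (0x506198a2, 4), (0x436597a1, 4), (0x204361a5, 4), (0x436597a1, 4), (0x216087a5, 4), (0x204361a5, 4), (0x506198a2, 4)]⟩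

def c_2873 : frmChk tA tB F_2873 = true := by decide +kernel

def r_2873_0 : chkL rootF engF2 tA tB sA_328 sB_328 4 F_2873 [(511, 0, 0)]
    0x41705c3312c0f = true := by
  decide +kernel

theorem f_2873 (h : TabsF) : FrameF repsF 328 F_2873.f :=
  frame_of rfl c_2873 (runs_of engOK r_2873_0) (by decide +kernel) h.1 h.2

def F_2874 : FrX :=
  ⟨0x1001040012008080000e0084080041000810100004200802400840000422000080a002220000208040084804400000814004201504030000011100040090,
    0xa3, 1, 0x324351628596a3, 7,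
    [(0xa3, 1), (0x207584a6, 4), (0x10547693, 4), (0x647593a8, 4), (0x10547693, 4), (0x216485a7, 4), (0x208693a4, 4), (0x647593a8, 4), (0x208693a4, 4), (0x106574a8, 4), (0x647593a8, 4), (0x216485a7, 4)],
    [(0x324351628596a3, 7), (0x436091a8, 4), (0x43507182, 4), (0x436597a2, 4), (0x436091a8, 4), (0x43507182, 4)]⟩

def c_2874 : frmChk tB tA F_2874 = true := by decide +kernel

def r_2874_0 : chkL rootF engF2 tB tA sB_328 sA_328 4 F_2874 [(511, 0, 0)]
    0x40f0e80f0743a = true := by
  decide +kernel

theorem f_2874 (h : TabsF) : FrameF repsF 328 F_2874.f :=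
  frame_of rfl c_2874 (runs_of engOK r_2874_0) (by decide +kernel) h.2 h.1

def F_2875 : FrX :=
  ⟨0x1001040012008080000e008408004100081010000420201000480220020000c0440202001200008140010810441008820040000806004000511002022000,
    0xa3, 1, 0x3262728792a3, 6,
    [(0xa3, 1), (0x207584a6, 4), (0x10547693, 4), (0x647593a8, 4), (0x10547693, 4), (0x216485a7, 4), (0x208693a4, 4), (0x647593a8, 4), (0x208693a4, 4), (0x106574a8, 4), (0x647593a8, 4), (0x216485a7, 4)],
    [(0x3262728792a3, 6), (0x648590a3, 4), (0x10547283, 4), (0x437285a6, 4), (0x10547283, 4), (0x436591a8, 4), (0x637290a4, 4), (0x437285a6, 4), (0x637290a4, 4), (0x105384a6, 4), (0x437285a6, 4), (0x436591a8, 4)]⟩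

def c_2875 : frmChk tB tB F_2875 = true := by decide +kernel

def r_2875_0 : chkL rootF engF2 tB tB sB_328 sB_328 4 F_2875 [(511, 0, 0)]
    0x40f = true := by
  decide +kernel

theorem f_2875 (h : TabsF) : FrameF repsF 328 F_2875.f :=
  frame_of rfl c_2875 (runs_of engOK r_2875_0) (by decide +kernel) h.2 h.2

def F_2876 : FrX :=
  ⟨0x482000044040440000c2040020009000182040004020480004020010081804800010108102009009000009002220000204006040000602500110010002,
    0xa0, 1, 0x103243527494a3, 7,
    [(0xa0, 1), (0x538690a2, 4), (0x548790a1, 4), (0x21437690, 4), (0x538690a2, 4), (0x548790a1, 4)],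
    [(0x103243527494a3, 7), (0x325198a6, 4), (0x10627493, 4), (0x327496a8, 4), (0x10627493, 4), (0x508396a2, 4), (0x517486a9, 4), (0x327496a8, 4), (0x517486a9, 4), (0x106392a8, 4), (0x327496a8, 4), (0x508396a2, 4)]⟩

def c_2876 : frmChk tA tB F_2876 = true := by decide +kernel

def r_2876_0 : chkL rootF engF2 tA tB sA_328 sB_328 4 F_2876 [(511, 0, 0)]
    0x42d0782d0780f0d83607836 = true := by
  decide +kernel

theorem f_2876 (h : TabsF) : FrameF repsF 328 F_2876.f :=
  frame_of rfl c_2876 (runs_of engOK r_2876_0) (by decide +kernel) h.1 h.2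

theorem cl_328 (h : TabsF) : ∀ f ∈ fr_328, FrameF repsF 328 f :=
  List.forall_mem_cons.2 ⟨f_2849 h, List.forall_mem_cons.2 ⟨f_2850 h, List.forall_mem_cons.2 ⟨f_2851 h, List.forall_mem_cons.2 ⟨f_2852 h, List.forall_mem_cons.2 ⟨f_2853 h, List.forall_mem_cons.2 ⟨f_2854 h, List.forall_mem_cons.2 ⟨f_2855 h, List.forall_mem_cons.2 ⟨f_2856 h, List.forall_mem_cons.2 ⟨f_2857 h, List.forall_mem_cons.2 ⟨f_2858 h, List.forall_mem_cons.2 ⟨f_2859 h, List.forall_mem_cons.2 ⟨f_2860 h, List.forall_mem_cons.2 ⟨f_2861 h, List.forall_mem_cons.2 ⟨f_2862 h, List.forall_mem_cons.2 ⟨f_2863 h, List.forall_mem_cons.2 ⟨f_2864 h, List.forall_mem_cons.2 ⟨f_2865 h, List.forall_mem_cons.2 ⟨f_2866 h, List.forall_mem_cons.2 ⟨f_2867 h, List.forall_mem_cons.2 ⟨f_2868 h, List.forall_mem_cons.2 ⟨f_2869 h, List.forall_mem_cons.2 ⟨f_2870 h, List.forall_mem_cons.2 ⟨f_2871 h, List.forall_mem_cons.2 ⟨f_2872 h, List.forall_mem_cons.2 ⟨f_2873 h, List.forall_mem_cons.2 ⟨f_2874 h, List.forall_mem_cons.2 ⟨f_2875 h, List.forall_mem_cons.2 ⟨f_2876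 h,
    fun _ h0 => absurd h0 List.not_mem_nil⟩⟩⟩⟩⟩⟩⟩⟩⟩⟩⟩⟩⟩⟩⟩⟩⟩⟩⟩⟩⟩⟩⟩⟩⟩⟩⟩⟩

def F_2877 : FrX :=
  ⟨0x1001040012008080000e008408004100081010000421000046200100040008828082000010801008000500040c4000804100201210024060001200040208,
    0xa3, 1, 0x768293a3, 4,
    [(0xa3, 1), (0x207584a6, 4), (0x10547693, 4), (0x647593a8, 4), (0x10547693, 4), (0x216485a7, 4), (0x208693a4, 4), (0x647593a8, 4), (0x208693a4, 4), (0x106574a8, 4), (0x647593a8, 4), (0x216485a7, 4)],
    [(0x768293a3, 4), (0x426580a7, 4), (0x10547693, 4), (0x657493a2, 4), (0x10547693, 4), (0x527481a6, 4), (0x728093a4, 4), (0x657493a2, 4), (0x728093a4, 4), (0x106475a2, 4), (0x657493a2, 4), (0x527481a6, 4)]⟩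

def c_2877 : frmChk tB tB F_2877 = true := by decide +kernel

def r_2877_0 : chkL rootF engF2 tB tB sB_329 sB_329 4 F_2877 [(511, 0, 0)]
    0x1 = true := by
  decide +kernel

theorem f_2877 (h : TabsF) : FrameF repsF 329 F_2877.f :=
  frame_of rfl c_2877 (runs_of engOK r_2877_0) (by decide +kernel) h.2 h.2

def F_2878 : FrX :=
  ⟨0x1001040012008080000e00840800410008101000060000048040540100180080400100100200030240501080800820022102082100010000408008011010,
    0xa3, 1, 0x3052648494a8, 6,
    [(0xa3, 1), (0x207584a6, 4), (0x10547693, 4), (0x647593a8, 4), (0x10547693, 4), (0x216485a7, 4), (0x208693a4, 4), (0x647593a8, 4), (0x208693a4, 4), (0x106574a8, 4), (0x647593a8, 4), (0x216485a7, 4)],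
    [(0x3052648494a8, 6), (0x405372a9, 4), (0x31748692, 4), (0x728694a0, 4), (0x31748692, 4), (0x517094a2, 4), (0x538690a4, 4), (0x728694a0, 4), (0x538690a4, 4), (0x314297a0, 4), (0x728694a0, 4), (0x517094a2, 4)]⟩

def c_2878 : frmChk tB tB F_2878 = true := by decide +kernel

def r_2878_0 : chkL rootF engF2 tB tB sB_329 sB_329 4 F_2878 [(511, 0, 0)]
    0x111c1b06c471a869 = true := by
  decide +kernel

theorem f_2878 (h : TabsF) : FrameF repsF 329 F_2878.f :=
  frame_of rfl c_2878 (runs_of engOK r_2878_0) (by decide +kernel) h.2 h.2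

def F_2879 : FrX :=
  ⟨0x1001040012008080000e0084080041000810100004201004102001000700004003010800220006200010004a011000410010800408098088004100000084,
    0xa3, 1, 0x4150638297a3, 6,
    [(0xa3, 1), (0x207584a6, 4), (0x10547693, 4), (0x647593a8, 4), (0x10547693, 4), (0x216485a7, 4), (0x208693a4, 4), (0x647593a8, 4), (0x208693a4, 4), (0x106574a8, 4), (0x647593a8, 4), (0x216485a7, 4)],
    [(0x4150638297a3, 6), (0x218590a3, 4), (0x10547693, 4), (0x317690a2, 4), (0x10547693, 4), (0x203184a9, 4), (0x327685a1, 4), (0x317690a2, 4), (0x327685a1, 4), (0x305491a2, 4), (0x317690a2, 4), (0x203184a9, 4)]⟩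

def c_2879 : frmChk tB tB F_2879 = true := by decide +kernel

def r_2879_0 : chkL rootF engF2 tB tB sB_329 sB_329 4 F_2879 [(511, 0, 0)]
    0x1 = true := by
  decide +kernel

theorem f_2879 (h : TabsF) : FrameF repsF 329 F_2879.f :=
  frame_of rfl c_2879 (runs_of engOK r_2879_0) (by decide +kernel) h.2 h.2

def F_2880 : FrX :=
  ⟨0x600020801080810000c004018041010100100400040c004400082800821000004400104200010208040008a02020020382600200002040004009000042,
    0xa0, 1, 0x4353637182a0, 6,
    [(0xa0, 1), (0x637584a2, 4), (0x547690a1, 4), (0x64758390, 4), (0x547690a1, 4), (0x21647385, 4), (0x438690a2, 4), (0x64758390, 4), (0x438690a2, 4), (0x657483a1, 4), (0x64758390, 4), (0x21647385, 4)],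
    [(0x4353637182a0, 6), (0x324165a8, 4), (0x435190a7, 4), (0x41536290, 4), (0x435190a7, 4), (0x42536187, 4), (0x526390a8, 4), (0x41536290, 4), (0x526390a8, 4), (0x315462a7, 4), (0x41536290, 4), (0x42536187, 4)]⟩

def c_2880 : frmChk tB tB F_2880 = true := by decide +kernel

def r_2880_0 : chkL rootF engF2 tB tB sB_329 sB_329 4 F_2880 [(511, 0, 0)]
    0x4270cc5314c53 = true := by
  decide +kernel

theorem f_2880 (h : TabsF) : FrameF repsF 329 F_2880.f :=
  frame_of rfl c_2880 (runs_of engOK r_2880_0) (by decide +kernel) h.2 h.2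

def F_2881 : FrX :=
  ⟨0x600020801080810000c004018041010100100401001004801400020810200208040008400040600004010c8802108c0840201000000804008400200028,
    0xa0, 1, 0x21315264708098a0, 8,
    [(0xa0, 1), (0x637584a2, 4), (0x547690a1, 4), (0x64758390, 4), (0x547690a1, 4), (0x21647385, 4), (0x438690a2, 4), (0x64758390, 4), (0x438690a2, 4), (0x657483a1, 4), (0x64758390, 4), (0x21647385, 4)],
    [(0x21315264708098a0, 8), (0x104296a5, 4), (0x406187a3, 4), (0x10648792, 4), (0x406187a3, 4), (0x20536491, 4), (0x628794a5, 4), (0x10648792, 4), (0x628794a5, 4), (0x416092a3, 4), (0x10648792, 4), (0x20536491, 4)]⟩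

def c_2881 : frmChk tB tB F_2881 = true := by decide +kernel

def r_2881_0 : chkL rootF engF2 tB tB sB_329 sB_329 4 F_2881 [(511, 0, 0)]
    0x1194874a49c = true := by
  decide +kernel

theorem f_2881 (h : TabsF) : FrameF repsF 329 F_2881.f :=
  frame_of rfl c_2881 (runs_of engOK r_2881_0) (by decide +kernel) h.2 h.2

def F_2882 : FrX :=
  ⟨0x1001040012008080000e008408004100081010000421000046200100040008828082000010801008000500040c4000224044201210024040001000040208,
    0xa3, 1, 0x768293a3, 4,
    [(0xa3, 1), (0x207584a6, 4), (0x10547693, 4), (0x647593a8, 4), (0x10547693, 4), (0x216485a7, 4), (0x208693a4, 4), (0x647593a8, 4), (0x208693a4, 4), (0x106574a8, 4), (0x647593a8, 4), (0x216485a7, 4)],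
    [(0x768293a3, 4), (0x426580a7, 4), (0x10547693, 4), (0x657493a2, 4), (0x10547693, 4), (0x527481a6, 4), (0x728093a4, 4), (0x657493a2, 4), (0x728093a4, 4), (0x106475a2, 4), (0x657493a2, 4), (0x527481a6, 4)]⟩

def c_2882 : frmChk tB tB F_2882 = true := by decide +kernel

def r_2882_0 : chkL rootF engF2 tB tB sB_329 sB_329 4 F_2882 [(511, 0, 0)]
    0x109c0f0ac1b = true := by
  decide +kernel

theorem f_2882 (h : TabsF) : FrameF repsF 329 F_2882.f :=
  frame_of rfl c_2882 (runs_of engOK r_2882_0) (by decide +kernel) h.2 h.2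

def F_2883 : FrX :=
  ⟨0x1001040012008080000e0084080041000810100006000004804010210018008240010010020003024050108080082002200008a100010000408108011010,
    0xa3, 1, 0x3160748295a3, 6,
    [(0xa3, 1), (0x207584a6, 4), (0x10547693, 4), (0x647593a8, 4), (0x10547693, 4), (0x216485a7, 4), (0x208693a4, 4), (0x647593a8, 4), (0x208693a4, 4), (0x106574a8, 4), (0x647593a8, 4), (0x216485a7, 4)],
    [(0x3160748295a3, 6), (0x728694a0, 4), (0x40516397, 4), (0x517094a2, 4), (0x40516397, 4), (0x708392a4, 4), (0x205186a7, 4), (0x517094a2, 4), (0x205186a7, 4), (0x637490a2, 4), (0x517094a2, 4), (0x708392a4, 4)]⟩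

def c_2883 : frmChk tB tB F_2883 = true := by decide +kernel

def r_2883_0 : chkL rootF engF2 tB tB sB_329 sB_329 4 F_2883 [(511, 0, 0)]
    0x7241685a16a708585316a52524a9c90a92a6a105c992a48b05c35 = true := by
  decide +kernel

theorem f_2883 (h : TabsF) : FrameF repsF 329 F_2883.f :=
  frame_of rfl c_2883 (runs_of engOK r_2883_0) (by decide +kernel) h.2 h.2

theorem cl_329 (h : TabsF) : ∀ f ∈ fr_329, FrameF repsF 329 f :=
  List.forall_mem_cons.2 ⟨f_2877 h, List.forall_mem_cons.2 ⟨f_2878 h, List.forall_mem_cons.2 ⟨f_2879 h, List.forall_mem_cons.2 ⟨f_2880 h, List.forall_mem_cons.2 ⟨f_2881 h, List.forall_mem_cons.2 ⟨f_2882 h, List.forall_mem_cons.2 ⟨f_2883 h,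
    fun _ h0 => absurd h0 List.not_mem_nil⟩⟩⟩⟩⟩⟩⟩

def F_2884 : FrX :=
  ⟨0x1001040012008080000e008408004100081010000441000004a180800000201008404200408000410008280060c03028000020800a00084000a004200040,
    0xa3, 1, 0x3262738398a3, 6,
    [(0xa3, 1), (0x207584a6, 4), (0x10547693, 4), (0x647593a8, 4), (0x10547693, 4), (0x216485a7, 4), (0x208693a4, 4), (0x647593a8, 4), (0x208693a4, 4), (0x106574a8, 4), (0x647593a8, 4), (0x216485a7, 4)],
    [(0x3262738398a3, 6), (0x526094a3, 4), (0x10325487, 4), (0x435287a9, 4), (0x10325487, 4), (0x436195a2, 4), (0x608793a4, 4), (0x435287a9, 4), (0x608793a4, 4), (0x104253a9, 4), (0x435287a9, 4), (0x436195a2, 4)]⟩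

def c_2884 : frmChk tB tB F_2884 = true := by decide +kernel

def r_2884_0 : chkL rootF engF2 tB tB sB_330 sB_330 4 F_2884 [(511, 0, 0)]
    0x1 = true := by
  decide +kernel

theorem f_2884 (h : TabsF) : FrameF repsF 330 F_2884.f :=
  frame_of rfl c_2884 (runs_of engOK r_2884_0) (by decide +kernel) h.2 h.2

def F_2885 : FrX :=
  ⟨0x1001040012008080000e008408004100081010000421000046200100040008828082000010801008000500040c40300040002012100ac040001000040208,
    0xa3, 1, 0x768293a3, 4,
    [(0xa3, 1), (0x207584a6, 4), (0x10547693, 4), (0x647593a8, 4), (0x10547693, 4), (0x216485a7, 4), (0x208693a4, 4), (0x647593a8, 4), (0x208693a4, 4), (0x106574a8, 4), (0x647593a8, 4), (0x216485a7, 4)],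
    [(0x768293a3, 4), (0x426580a7, 4), (0x10547693, 4), (0x657493a2, 4), (0x10547693, 4), (0x527481a6, 4), (0x728093a4, 4), (0x657493a2, 4), (0x728093a4, 4), (0x106475a2, 4), (0x657493a2, 4), (0x527481a6, 4)]⟩

def c_2885 : frmChk tB tB F_2885 = true := by decide +kernel

def r_2885_0 : chkL rootF engF2 tB tB sB_330 sB_330 4 F_2885 [(511, 0, 0)]
    0x106c350ac3a = true := by
  decide +kernel

theorem f_2885 (h : TabsF) : FrameF repsF 330 F_2885.f :=
  frame_of rfl c_2885 (runs_of engOK r_2885_0) (by decide +kernel) h.2 h.2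

def F_2886 : FrX :=
  ⟨0x1001040012008080000e0084080041000810100004201004102001000408005003010800220006200010004a0110004100108004080100a8004300000084,
    0xa3, 1, 0x4360718295a3, 6,
    [(0xa3, 1), (0x207584a6, 4), (0x10547693, 4), (0x647593a8, 4), (0x10547693, 4), (0x216485a7, 4), (0x208693a4, 4), (0x647593a8, 4), (0x208693a4, 4), (0x106574a8, 4), (0x647593a8, 4), (0x216485a7, 4)],
    [(0x4360718295a3, 6), (0x328691a0, 4), (0x10547693, 4), (0x305491a2, 4), (0x10547693, 4), (0x308792a1, 4), (0x205486a3, 4), (0x305491a2, 4), (0x205486a3, 4), (0x317690a2, 4), (0x305491a2, 4), (0x308792a1, 4)]⟩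

def c_2886 : frmChk tB tB F_2886 = true := by decide +kernel

def r_2886_0 : chkL rootF engF2 tB tB sB_330 sB_330 4 F_2886 [(511, 0, 0)]
    0x1 = true := by
  decide +kernel

theorem f_2886 (h : TabsF) : FrameF repsF 330 F_2886.f :=
  frame_of rfl c_2886 (runs_of engOK r_2886_0) (by decide +kernel) h.2 h.2

def F_2887 : FrX :=
  ⟨0x600020801080810000c004018041010100100400040c004400082800821000004400104200010208040008a02020020200220240002040004409800042,
    0xa0, 1, 0x4353637182a0, 6,
    [(0xa0, 1), (0x637584a2, 4), (0x547690a1, 4), (0x64758390, 4), (0x547690a1, 4), (0x21647385, 4), (0x438690a2, 4), (0x64758390, 4), (0x438690a2, 4), (0x657483a1, 4), (0x64758390, 4), (0x21647385, 4)],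
    [(0x4353637182a0, 6), (0x324165a8, 4), (0x435190a7, 4), (0x41536290, 4), (0x435190a7, 4), (0x42536187, 4), (0x526390a8, 4), (0x41536290, 4), (0x526390a8, 4), (0x315462a7, 4), (0x41536290, 4), (0x42536187, 4)]⟩

def c_2887 : frmChk tB tB F_2887 = true := by decide +kernel

def r_2887_0 : chkL rootF engF2 tB tB sB_330 sB_330 4 F_2887 [(511, 0, 0)]
    0x109c2709c2713836 = true := by
  decide +kernel

theorem f_2887 (h : TabsF) : FrameF repsF 330 F_2887.f :=
  frame_of rfl c_2887 (runs_of engOK r_2887_0) (by decide +kernel) h.2 h.2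

def F_2888 : FrX :=
  ⟨0x600020801080810000c004018041010100100401001004800000820814200208040008400040600004010c880210080840221000000844008400200028,
    0xa0, 1, 0x5064728193a0, 6,
    [(0xa0, 1), (0x637584a2, 4), (0x547690a1, 4), (0x64758390, 4), (0x547690a1, 4), (0x21647385, 4), (0x438690a2, 4), (0x64758390, 4), (0x438690a2, 4), (0x657483a1, 4), (0x64758390, 4), (0x21647385, 4)],
    [(0x5064728193a0, 6), (0x206194a7, 4), (0x425360a8, 4), (0x20536491, 4), (0x425360a8, 4), (0x10648792, 4), (0x415396a7, 4), (0x20536491, 4), (0x415396a7, 4), (0x406291a8, 4), (0x20536491, 4), (0x10648792, 4)]⟩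

def c_2888 : frmChk tB tB F_2888 = true := by decide +kernel

def r_2888_0 : chkL rootF engF2 tB tB sB_330 sB_330 4 F_2888 [(511, 0, 0)]
    0x1 = true := by
  decide +kernel

theorem f_2888 (h : TabsF) : FrameF repsF 330 F_2888.f :=
  frame_of rfl c_2888 (runs_of engOK r_2888_0) (by decide +kernel) h.2 h.2

theorem cl_330 (h : TabsF) : ∀ f ∈ fr_330, FrameF repsF 330 f :=
  List.forall_mem_cons.2 ⟨f_2884 h, List.forall_mem_cons.2 ⟨f_2885 h, List.forall_mem_cons.2 ⟨f_2886 h, List.forall_mem_cons.2 ⟨f_2887 h, List.forall_mem_cons.2 ⟨f_2888 h,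
    fun _ h0 => absurd h0 List.not_mem_nil⟩⟩⟩⟩⟩

def F_2889 : FrX :=
  ⟨0x1c2102000004044000002041000101000082040890080080001010008400101040048404004004240040180503020008004202440010020204140008080,
    0x0, 0, 0x436484, 3,
    [(0x0, 0), (0x205386a9, 4), (0x105487a9, 4), (0x214376a9, 4), (0x205386a9, 4), (0x105487a9, 4)],
    [(0x436484, 3), (0x205463a9, 4), (0x107685a9, 4), (0x217384a9, 4), (0x205463a9, 4), (0x107685a9, 4)]⟩

def c_2889 : frmChk tA tA F_2889 = true := by decide +kernel

def r_2889_0 : chkL rootF engF2 tA tA sA_331 sA_331 4 F_2889 [(255, 0, 0), (256, 0, 6)]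
    0x6459241b29aa405c392e01d = true := by
  decide +kernel

def r_2889_1 : chkL rootF engF2 tA tA sA_331 sA_331 4 F_2889 [(256, 6, 8)]
    0x427 = true := by
  decide +kernel

def r_2889_2 : chkL rootF engF2 tA tA sA_331 sA_331 4 F_2889 [(256, 14, 0)]
    0x41e = true := by
  decide +kernel

theorem f_2889 (h : TabsF) : FrameF repsF 331 F_2889.f :=
  frame_of rfl c_2889 ((runs_of engOK r_2889_0).append ((runs_of engOK r_2889_1).append (runs_of engOK r_2889_2))) (by decide +kernel) h.1 h.1

def F_2890 : FrX :=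
  ⟨0x2002000900044004000e0204100014100080004080800100208102040102010200008220408000420a000102040020008008009401001010080c04214200,
    0xa3, 1, 0x214051647296a3, 7,
    [(0xa3, 1), (0x208693a5, 4), (0x10548793, 4), (0x217693a4, 4), (0x208693a5, 4), (0x10548793, 4)],
    [(0x214051647296a3, 7), (0x307498a2, 4), (0x30546281, 4), (0x307591a6, 4), (0x307498a2, 4), (0x30546281, 4)]⟩

def c_2890 : frmChk tA tA F_2890 = true := by decide +kernel

def r_2890_0 : chkL rootF engF2 tA tA sA_331 sA_331 4 F_2890 [(511, 0, 0)]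
    0x45c = true := by
  decide +kernel

theorem f_2890 (h : TabsF) : FrameF repsF 331 F_2890.f :=
  frame_of rfl c_2890 (runs_of engOK r_2890_0) (by decide +kernel) h.1 h.1

def F_2891 : FrX :=
  ⟨0x482000044040440000c2040020009000182040000822108008100008010101010200404024000240800080181020000204006440010120004140010028,
    0xa0, 1, 0x213140506285a8, 7,
    [(0xa0, 1), (0x538690a2, 4), (0x548790a1, 4), (0x21437690, 4), (0x538690a2, 4), (0x548790a1, 4)],
    [(0x213140506285a8, 7), (0x658294a1, 4), (0x538094a7, 4), (0x20637194, 4), (0x658294a1, 4), (0x538094a7, 4)]⟩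

def c_2891 : frmChk tA tA F_2891 = true := by decide +kernel

def r_2891_0 : chkL rootF engF2 tA tA sA_331 sA_331 4 F_2891 [(511, 0, 0)]
    0x10b8c305c0f0f047 = true := by
  decide +kernel

theorem f_2891 (h : TabsF) : FrameF repsF 331 F_2891.f :=
  frame_of rfl c_2891 (runs_of engOK r_2891_0) (by decide +kernel) h.1 h.1

def F_2892 : FrX :=
  ⟨0x482000044040440000c2040020009000182040020001024000020280042030010022000081040180080200202010101080010020480800110003020250,
    0xa0, 1, 0x4065718390a2, 6,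
    [(0xa0, 1), (0x538690a2, 4), (0x548790a1, 4), (0x21437690, 4), (0x538690a2, 4), (0x548790a1, 4)],
    [(0x4065718390a2, 6), (0x425386a9, 4), (0x31426097, 4), (0x425180a7, 4), (0x425386a9, 4), (0x31426097, 4)]⟩

def c_2892 : frmChk tA tA F_2892 = true := by decide +kernel

def r_2892_0 : chkL rootF engF2 tA tA sA_331 sA_331 4 F_2892 [(511, 0, 0)]
    0x40f03c1b = true := by
  decide +kernel

theorem f_2892 (h : TabsF) : FrameF repsF 331 F_2892.f :=
  frame_of rfl c_2892 (runs_of engOK r_2892_0) (by decide +kernel) h.1 h.1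

def F_2893 : FrX :=
  ⟨0x80080a000804040e0000210100200100000204088101100101020002040401000412102000800400a01000004410000a020088480004414000a10440200,
    0xa6, 1, 0x20415162738095a2, 8,
    [(0xa6, 1), (0x205396a8, 4), (0x10548796, 4), (0x214396a7, 4), (0x205396a8, 4), (0x10548796, 4)],
    [(0x20415162738095a2, 8), (0x206497a8, 4), (0x32648591, 4), (0x306471a5, 4), (0x206497a8, 4), (0x32648591, 4)]⟩

def c_2893 : frmChk tA tA F_2893 = true := by decide +kernel

def r_2893_0 : chkL rootF engF2 tA tA sA_331 sA_331 4 F_2893 [(511, 0, 0)]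
    0x43c05c1705c35 = true := by
  decide +kernel

theorem f_2893 (h : TabsF) : FrameF repsF 331 F_2893.f :=
  frame_of rfl c_2893 (runs_of engOK r_2893_0) (by decide +kernel) h.1 h.1

def F_2894 : FrX :=
  ⟨0x80080a000804040e00002101002001000002040884200000484024000012008010404080c00810021000801212002800004001005003001080904010010,
    0xa6, 1, 0x103242768490a8, 7,
    [(0xa6, 1), (0x205396a8, 4), (0x10548796, 4), (0x214396a7, 4), (0x205396a8, 4), (0x10548796, 4)],
    [(0x103242768490a8, 7), (0x315294a7, 4), (0x318590a6, 4), (0x31407682, 4), (0x315294a7, 4), (0x318590a6, 4)]⟩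

def c_2894 : frmChk tA tA F_2894 = true := by decide +kernel

def r_2894_0 : chkL rootF engF2 tA tA sA_331 sA_331 4 F_2894 [(511, 0, 0)]
    0x40f05d924641705c1705c5c1703c = true := by
  decide +kernel

theorem f_2894 (h : TabsF) : FrameF repsF 331 F_2894.f :=
  frame_of rfl c_2894 (runs_of engOK r_2894_0) (by decide +kernel) h.1 h.1

def F_2895 : FrX :=
  ⟨0x80080a000804040e00002101002001000002040890010001810000420404001040a00044004005040048000503002008100082440000420204009080080,
    0xa6, 1, 0x2132506392a1, 6,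
    [(0xa6, 1), (0x205396a8, 4), (0x10548796, 4), (0x214396a7, 4), (0x205396a8, 4), (0x10548796, 4)],
    [(0x2132506392a1, 6), (0x61708495, 4), (0x324071a5, 4), (0x32417086, 4), (0x324071a5, 4), (0x417680a9, 4), (0x32648195, 4), (0x32417086, 4), (0x32648195, 4), (0x107486a5, 4), (0x32417086, 4), (0x417680a9, 4)]⟩

def c_2895 : frmChk tA tB F_2895 = true := by decide +kernel

def r_2895_0 : chkL rootF engF2 tA tB sA_331 sB_331 4 F_2895 [(511, 0, 0)]
    0x1076290b92559065195644968615691a5055 = true := by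
  decide +kernel

theorem f_2895 (h : TabsF) : FrameF repsF 331 F_2895.f :=
  frame_of rfl c_2895 (runs_of engOK r_2895_0) (by decide +kernel) h.1 h.2

def F_2896 : FrX :=
  ⟨0x2002000900044004000e02041000141000800040800400218120002400020a08200000101088003800042001000400801041800040400200300204011900,
    0xa3, 1, 0x104050617582a6, 7,
    [(0xa3, 1), (0x208693a5, 4), (0x10548793, 4), (0x217693a4, 4), (0x208693a5, 4), (0x10548793, 4)],
    [(0x104050617582a6, 7), (0x738590a2, 4), (0x42657190, 4), (0x318690a4, 4), (0x738590a2, 4), (0x42657190, 4)]⟩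

def c_2896 : frmChk tA tA F_2896 = true := by decide +kernel

def r_2896_0 : chkL rootF engF2 tA tA sA_331 sA_331 4 F_2896 [(511, 0, 0)]
    0x44e = true := by
  decide +kernel

theorem f_2896 (h : TabsF) : FrameF repsF 331 F_2896.f :=
  frame_of rfl c_2896 (runs_of engOK r_2896_0) (by decide +kernel) h.1 h.1

def F_2897 : FrX :=
  ⟨0x482000044040440000c2040020009000182040010020082004000110010804804400101001080180000440042010100280090040020602500100000142,
    0xa0, 1, 0x304150728198a3, 7,
    [(0xa0, 1), (0x538690a2, 4), (0x548790a1, 4), (0x21437690, 4), (0x538690a2, 4), (0x548790a1, 4)],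
    [(0x304150728198a3, 7), (0x407596a3, 4), (0x31408592, 4), (0x406287a1, 4), (0x407596a3, 4), (0x31408592, 4)]⟩

def c_2897 : frmChk tA tA F_2897 = true := by decide +kernel

def r_2897_0 : chkL rootF engF2 tA tA sA_331 sA_331 4 F_2897 [(511, 0, 0)]
    0x1 = true := by
  decide +kernel

theorem f_2897 (h : TabsF) : FrameF repsF 331 F_2897.f :=
  frame_of rfl c_2897 (runs_of engOK r_2897_0) (by decide +kernel) h.1 h.1

def F_2898 : FrX :=
  ⟨0x482000044040440000c2040020009000182040002100404000880200004088101010101024000400800800880208800011001080448104001200210404,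
    0xa0, 1, 0x4150738491a2, 6,
    [(0xa0, 1), (0x538690a2, 4), (0x548790a1, 4), (0x21437690, 4), (0x538690a2, 4), (0x548790a1, 4)],
    [(0x4150738491a2, 6), (0x426170a5, 4), (0x31428095, 4), (0x426387a9, 4), (0x426170a5, 4), (0x31428095, 4)]⟩

def c_2898 : frmChk tA tA F_2898 = true := by decide +kernel

def r_2898_0 : chkL rootF engF2 tA tA sA_331 sA_331 4 F_2898 [(511, 0, 0)]
    0x105c1d1c934238650741d0741e = true := by
  decide +kernel

theorem f_2898 (h : TabsF) : FrameF repsF 331 F_2898.f :=
  frame_of rfl c_2898 (runs_of engOK r_2898_0) (by decide +kernel) h.1 h.1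

def F_2899 : FrX :=
  ⟨0x80080a000804040e000021010020010000020408806000044080880028000800048220014000800800408000c04021010010100404820023000a0220100,
    0xa6, 1, 0x10325063718491a3, 8,
    [(0xa6, 1), (0x205396a8, 4), (0x10548796, 4), (0x214396a7, 4), (0x205396a8, 4), (0x10548796, 4)],
    [(0x10325063718491a3, 8), (0x425376a1, 4), (0x40768195, 4), (0x207693a8, 4), (0x425376a1, 4), (0x40768195, 4)]⟩

def c_2899 : frmChk tA tA F_2899 = true := by decide +kernel

def r_2899_0 : chkL rootF engF2 tA tA sA_331 sA_331 4 F_2899 [(511, 0, 0)]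
    0x10780f46513 = true := by
  decide +kernel

theorem f_2899 (h : TabsF) : FrameF repsF 331 F_2899.f :=
  frame_of rfl c_2899 (runs_of engOK r_2899_0) (by decide +kernel) h.1 h.1

def F_2900 : FrX :=
  ⟨0x2002000900044004000e02041000141000800040801000418000c00200812000100140101028000880040400040410102000810020500204240104011010,
    0xa3, 1, 0x103153637097a6, 7,
    [(0xa3, 1), (0x208693a5, 4), (0x10548793, 4), (0x217693a4, 4), (0x208693a5, 4), (0x10548793, 4)],
    [(0x103153637097a6, 7), (0x516072a8, 4), (0x40517398, 4), (0x325164a9, 4), (0x516072a8, 4), (0x40517398, 4)]⟩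

def c_2900 : frmChk tA tA F_2900 = true := by decide +kernel

def r_2900_0 : chkL rootF engF2 tA tA sA_331 sA_331 4 F_2900 [(511, 0, 0)]
    0x41b06c17 = true := by
  decide +kernel

theorem f_2900 (h : TabsF) : FrameF repsF 331 F_2900.f :=
  frame_of rfl c_2900 (runs_of engOK r_2900_0) (by decide +kernel) h.1 h.1

def F_2901 : FrX :=
  ⟨0x80080a000804040e00002101002001000002040880421002010020420204004000500060008010010810000028098000240408021000121004042600004,
    0xa6, 1, 0x21304154628191a3, 8,
    [(0xa6, 1), (0x205396a8, 4), (0x10548796, 4), (0x214396a7, 4), (0x205396a8, 4), (0x10548796, 4)],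
    [(0x21304154628191a3, 8), (0x546372a1, 4), (0x52718093, 4), (0x517280a4, 4), (0x52718093, 4), (0x425196a7, 4), (0x416380a5, 4), (0x517280a4, 4), (0x416380a5, 4), (0x217593a4, 4), (0x517280a4, 4), (0x425196a7, 4)]⟩

def c_2901 : frmChk tA tB F_2901 = true := by decide +kernel

def r_2901_0 : chkL rootF engF2 tA tB sA_331 sB_331 4 F_2901 [(511, 0, 0)]
    0x10f03c0ad380e5581d10e07459 = true := by
  decide +kernel

theorem f_2901 (h : TabsF) : FrameF repsF 331 F_2901.f :=
  frame_of rfl c_2901 (runs_of engOK r_2901_0) (by decide +kernel) h.1 h.2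

def F_2902 : FrX :=
  ⟨0x1c2102000004044000002041000101000082040888081000020000404000182008604000900010410000805110500408241008022600800500010200000,
    0x0, 0, 0x647583, 3,
    [(0x0, 0), (0x205386a9, 4), (0x105487a9, 4), (0x214376a9, 4), (0x205386a9, 4), (0x105487a9, 4)],
    [(0x647583, 3), (0x204387a9, 4), (0x105376a9, 4), (0x215486a9, 4), (0x204387a9, 4), (0x105376a9, 4)]⟩

def c_2902 : frmChk tA tA F_2902 = true := by decide +kernel

def r_2902_0 : chkL rootF engF2 tA tA sA_331 sA_331 4 F_2902 [(511, 0, 0)]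
    0x12b08d = true := by
  decide +kernel

theorem f_2902 (h : TabsF) : FrameF repsF 331 F_2902.f :=
  frame_of rfl c_2902 (runs_of engOK r_2902_0) (by decide +kernel) h.1 h.1

def F_2903 : FrX :=
  ⟨0x2002000900044004000e02041000141000800040800801014000824102004080200100120008008024020110800000140100280012408808002042004084,
    0xa3, 1, 0x102140627196a8, 7,
    [(0xa3, 1), (0x208693a5, 4), (0x10548793, 4), (0x217693a4, 4), (0x208693a5, 4), (0x10548793, 4)],
    [(0x102140627196a8, 7), (0x536480a9, 4), (0x517480a2, 4), (0x31768092, 4), (0x536480a9, 4), (0x517480a2, 4)]⟩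

def c_2903 : frmChk tA tA F_2903 = true := by decide +kernel

def r_2903_0 : chkL rootF engF2 tA tA sA_331 sA_331 4 F_2903 [(511, 0, 0)]
    0x4330cc2b = true := by
  decide +kernel

theorem f_2903 (h : TabsF) : FrameF repsF 331 F_2903.f :=
  frame_of rfl c_2903 (runs_of engOK r_2903_0) (by decide +kernel) h.1 h.1

def F_2904 : FrX :=
  ⟨0x2002000900044004000e020410001410008000408004010210902000102021010002040010880010840400040210080080400880808800002042200a9000,
    0xa3, 1, 0x304150637580a6, 7,
    [(0xa3, 1), (0x208693a5, 4), (0x10548793, 4), (0x217693a4, 4), (0x208693a5, 4), (0x10548793, 4)],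
    [(0x304150637580a6, 7), (0x768290a5, 4), (0x53718490, 4), (0x426190a3, 4), (0x768290a5, 4), (0x53718490, 4)]⟩

def c_2904 : frmChk tA tA F_2904 = true := by decide +kernel

def r_2904_0 : chkL rootF engF2 tA tA sA_331 sA_331 4 F_2904 [(511, 0, 0)]
    0x105c0f = true := by
  decide +kernel

theorem f_2904 (h : TabsF) : FrameF repsF 331 F_2904.f :=
  frame_of rfl c_2904 (runs_of engOK r_2904_0) (by decide +kernel) h.1 h.1

def F_2905 : FrX :=
  ⟨0x80080a000804040e000021010020010000020408a00010011000300282420040000140004000490200200008880101010001020304101080042240a0000,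
    0xa6, 1, 0x3061748493a4, 6,
    [(0xa6, 1), (0x205396a8, 4), (0x10548796, 4), (0x214396a7, 4), (0x205396a8, 4), (0x10548796, 4)],
    [(0x3061748493a4, 6), (0x32718095, 4), (0x637480a5, 4), (0x416280a9, 4), (0x32718095, 4), (0x637480a5, 4)]⟩

def c_2905 : frmChk tA tA F_2905 = true := by decide +kernel

def r_2905_0 : chkL rootF engF2 tA tA sA_331 sA_331 4 F_2905 [(511, 0, 0)]
    0x44e0d41d0b478 = true := by
  decide +kernel

theorem f_2905 (h : TabsF) : FrameF repsF 331 F_2905.f :=
  frame_of rfl c_2905 (runs_of engOK r_2905_0) (by decide +kernel) h.1 h.1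

def F_2906 : FrX :=
  ⟨0x482000044040440000c2040020009000182040010020028008000084020188208400010009010200800421001201002048008008200a02100802000084,
    0xa0, 1, 0x30506392a7, 5,
    [(0xa0, 1), (0x538690a2, 4), (0x548790a1, 4), (0x21437690, 4), (0x538690a2, 4), (0x548790a1, 4)],
    [(0x30506392a7, 5), (0x608495a3, 4), (0x435172a0, 4), (0x407286a3, 4), (0x435172a0, 4), (0x408391a6, 4), (0x64728095, 4), (0x407286a3, 4), (0x64728095, 4), (0x305186a4, 4), (0x407286a3, 4), (0x408391a6, 4)]⟩

def c_2906 : frmChk tA tB F_2906 = true := by decide +kernel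

def r_2906_0 : chkL rootF engF2 tA tB sA_331 sB_331 4 F_2906 [(511, 0, 0)]
    0x60d = true := by
  decide +kernel

theorem f_2906 (h : TabsF) : FrameF repsF 331 F_2906.f :=
  frame_of rfl c_2906 (runs_of engOK r_2906_0) (by decide +kernel) h.1 h.2

def F_2907 : FrX :=
  ⟨0x80080a000804040e000021010020010000020408840210000600040200802020080830014008090100200010806004080040480020006005000c0800041,
    0xa6, 1, 0x405264748193a6, 7,
    [(0xa6, 1), (0x205396a8, 4), (0x10548796, 4), (0x214396a7, 4), (0x205396a8, 4), (0x10548796, 4)],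
    [(0x405264748193a6, 7), (0x305492a1, 4), (0x30617284, 4), (0x308597a6, 4), (0x305492a1, 4), (0x30617284, 4)]⟩

def c_2907 : frmChk tA tA F_2907 = true := by decide +kernel

def r_2907_0 : chkL rootF engF2 tA tA sA_331 sA_331 4 F_2907 [(511, 0, 0)]
    0x41e07a2ac860bca01b6301705c531581b06c17 = true := by
  decide +kernel

theorem f_2907 (h : TabsF) : FrameF repsF 331 F_2907.f :=
  frame_of rfl c_2907 (runs_of engOK r_2907_0) (by decide +kernel) h.1 h.1

def F_2908 : FrX :=
  ⟨0x80080a000804040e000021010020010000020408a00010011000900202420040080140004000490200200008880081080080420100001080440a0220402,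
    0xa6, 1, 0x314151628298a6, 7,
    [(0xa6, 1), (0x205396a8, 4), (0x10548796, 4), (0x214396a7, 4), (0x205396a8, 4), (0x10548796, 4)],
    [(0x314151628298a6, 7), (0x416280a9, 4), (0x43506297, 4), (0x316285a7, 4), (0x416280a9, 4), (0x43506297, 4)]⟩

def c_2908 : frmChk tA tA F_2908 = true := by decide +kernel

def r_2908_0 : chkL rootF engF2 tA tA sA_331 sA_331 4 F_2908 [(511, 0, 0)]
    0x107447 = true := by
  decide +kernel

theorem f_2908 (h : TabsF) : FrameF repsF 331 F_2908.f :=
  frame_of rfl c_2908 (runs_of engOK r_2908_0) (by decide +kernel) h.1 h.1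

def F_2909 : FrX :=
  ⟨0x2002000900044004000e0204100014100080004080040102401020001020210100020480102800a0040500100204080080400080808080202040200a1002,
    0xa3, 1, 0x4151718492a5, 6,
    [(0xa3, 1), (0x208693a5, 4), (0x10548793, 4), (0x217693a4, 4), (0x208693a5, 4), (0x10548793, 4)],
    [(0x4151718492a5, 6), (0x426190a3, 4), (0x425170a8, 4), (0x42658397, 4), (0x426190a3, 4), (0x425170a8, 4)]⟩

def c_2909 : frmChk tA tA F_2909 = true := by decide +kernel

def r_2909_0 : chkL rootF engF2 tA tA sA_331 sA_331 4 F_2909 [(511, 0, 0)]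
    0x106c4703c1741e076515403f445314c25744 = true := by
  decide +kernel

theorem f_2909 (h : TabsF) : FrameF repsF 331 F_2909.f :=
  frame_of rfl c_2909 (runs_of engOK r_2909_0) (by decide +kernel) h.1 h.1

def F_2910 : FrX :=
  ⟨0x482000044040440000c2040020009000182040010010048008000084020108208440004001010440800430800201100048009008200800100802000884,
    0xa0, 1, 0x435464708592a6, 7,
    [(0xa0, 1), (0x538690a2, 4), (0x548790a1, 4), (0x21437690, 4), (0x538690a2, 4), (0x548790a1, 4)],
    [(0x435464708592a6, 7), (0x638097a4, 4), (0x527186a0, 4), (0x435280a6, 4), (0x527186a0, 4), (0x408391a6, 4), (0x526497a3, 4), (0x435280a6, 4), (0x526497a3, 4), (0x436071a8, 4), (0x435280a6, 4), (0x408391a6, 4)]⟩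

def c_2910 : frmChk tA tB F_2910 = true := by decide +kernel

def r_2910_0 : chkL rootF engF2 tA tB sA_331 sB_331 4 F_2910 [(511, 0, 0)]
    0x466989310741d = true := by
  decide +kernel

theorem f_2910 (h : TabsF) : FrameF repsF 331 F_2910.f :=
  frame_of rfl c_2910 (runs_of engOK r_2910_0) (by decide +kernel) h.1 h.2

def F_2911 : FrX :=
  ⟨0x2002000900044004000e02041000141000800040804001020080c00600224000100080204088141008080005004010100000222000601000011024200208,
    0xa3, 1, 0x1021425492a8, 6,
    [(0xa3, 1), (0x208693a5, 4), (0x10548793, 4), (0x217693a4, 4), (0x208693a5, 4), (0x10548793, 4)],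
    [(0x1021425492a8, 6), (0x308491a6, 4), (0x215084a7, 4), (0x53768492, 4), (0x308491a6, 4), (0x215084a7, 4)]⟩

def c_2911 : frmChk tA tA F_2911 = true := by decide +kernel

def r_2911_0 : chkL rootF engF2 tA tA sA_331 sA_331 4 F_2911 [(511, 0, 0)]
    0x40f2358c05c171a40f = true := by
  decide +kernel

theorem f_2911 (h : TabsF) : FrameF repsF 331 F_2911.f :=
  frame_of rfl c_2911 (runs_of engOK r_2911_0) (by decide +kernel) h.1 h.1

def F_2912 : FrX :=
  ⟨0x482000044040440000c2040020009000182040000820218008100008010110010200410020080200814020101020400204004440010120004110010028,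
    0xa0, 1, 0x324151627483a0, 7,
    [(0xa0, 1), (0x538690a2, 4), (0x548790a1, 4), (0x21437690, 4), (0x538690a2, 4), (0x548790a1, 4)],
    [(0x324151627483a0, 7), (0x328490a6, 4), (0x217490a5, 4), (0x31658790, 4), (0x328490a6, 4), (0x217490a5, 4)]⟩

def c_2912 : frmChk tA tA F_2912 = true := by decide +kernel

def r_2912_0 : chkL rootF engF2 tA tA sA_331 sA_331 4 F_2912 [(511, 0, 0)]
    0x1138350cd340781b06c1e = true := by
  decide +kernel

theorem f_2912 (h : TabsF) : FrameF repsF 331 F_2912.f :=
  frame_of rfl c_2912 (runs_of engOK r_2912_0) (by decide +kernel) h.1 h.1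

def F_2913 : FrX :=
  ⟨0x2002000900044004000e02041000141000800040800803240008400008208400000103000888000880080040014810140000210006080000011581008080,
    0xa3, 1, 0x3241546376a3, 6,
    [(0xa3, 1), (0x208693a5, 4), (0x10548793, 4), (0x217693a4, 4), (0x208693a5, 4), (0x10548793, 4)],
    [(0x3241546376a3, 6), (0x213085a7, 4), (0x40517296, 4), (0x217596a8, 4), (0x40517296, 4), (0x437581a2, 4), (0x308796a5, 4), (0x217596a8, 4), (0x308796a5, 4), (0x405271a8, 4), (0x217596a8, 4), (0x437581a2, 4)]⟩

def c_2913 : frmChk tA tB F_2913 = true := by decide +kernel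

def r_2913_0 : chkL rootF engF2 tA tB sA_331 sB_331 4 F_2913 [(511, 0, 0)]
    0x10cc0f2683c = true := by
  decide +kernel

theorem f_2913 (h : TabsF) : FrameF repsF 331 F_2913.f :=
  frame_of rfl c_2913 (runs_of engOK r_2913_0) (by decide +kernel) h.1 h.2

def F_2914 : FrX :=
  ⟨0x482000044040440000c204002000900018204002000104200002028001405001008040008800418008020001e02000a008008210008484000024000401,
    0xa0, 1, 0x435464758291a3, 7,
    [(0xa0, 1), (0x538690a2, 4), (0x548790a1, 4), (0x21437690, 4), (0x538690a2, 4), (0x548790a1, 4)],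
    [(0x435464758291a3, 7), (0x415280a7, 4), (0x32417690, 4), (0x415398a6, 4), (0x415280a7, 4), (0x32417690, 4)]⟩

def c_2914 : frmChk tA tA F_2914 = true := by decide +kernel

def r_2914_0 : chkL rootF engF2 tA tA sA_331 sA_331 4 F_2914 [(511, 0, 0)]
    0x10741d0781d06c1e = true := by
  decide +kernel

theorem f_2914 (h : TabsF) : FrameF repsF 331 F_2914.f :=
  frame_of rfl c_2914 (runs_of engOK r_2914_0) (by decide +kernel) h.1 h.1

def F_2915 : FrX :=
  ⟨0x2002000900044004000e02041000141000800040810000082080802402004080140280010120010202100401012010002040020005001008600110008050,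
    0xa3, 1, 0x3153748691a3, 6,
    [(0xa3, 1), (0x208693a5, 4), (0x10548793, 4), (0x217693a4, 4), (0x208693a5, 4), (0x10548793, 4)],
    [(0x3153748691a3, 6), (0x204176a8, 4), (0x53718490, 4), (0x415387a6, 4), (0x53718490, 4), (0x618792a4, 4), (0x205386a7, 4), (0x415387a6, 4), (0x205386a7, 4), (0x748190a6, 4), (0x415387a6, 4), (0x618792a4, 4)]⟩

def c_2915 : frmChk tA tB F_2915 = true := by decide +kernel

def r_2915_0 : chkL rootF engF2 tA tB sA_331 sB_331 4 F_2915 [(511, 0, 0)]
    0x417 = true := by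
  decide +kernel

theorem f_2915 (h : TabsF) : FrameF repsF 331 F_2915.f :=
  frame_of rfl c_2915 (runs_of engOK r_2915_0) (by decide +kernel) h.1 h.2

def F_2916 : FrX :=
  ⟨0x80080a000804040e0000210100200100000204088108080049002080080008200108040084800022001008001301000124000800a00010a100010908080,
    0xa6, 1, 0x53627481a6, 5,
    [(0xa6, 1), (0x205396a8, 4), (0x10548796, 4), (0x214396a7, 4), (0x205396a8, 4), (0x10548796, 4)],
    [(0x53627481a6, 5), (0x436071a5, 4), (0x738092a4, 4), (0x435192a7, 4), (0x738092a4, 4), (0x315486a7, 4), (0x607592a1, 4), (0x435192a7, 4), (0x607592a1, 4), (0x517480a3, 4), (0x435192a7, 4), (0x315486a7, 4)]⟩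

def c_2916 : frmChk tA tB F_2916 = true := by decide +kernel

def r_2916_0 : chkL rootF engF2 tA tB sA_331 sB_331 4 F_2916 [(511, 0, 0)]
    0x54514c0f03c4d = true := by
  decide +kernel

theorem f_2916 (h : TabsF) : FrameF repsF 331 F_2916.f :=
  frame_of rfl c_2916 (runs_of engOK r_2916_0) (by decide +kernel) h.1 h.2

theorem cl_331 (h : TabsF) : ∀ f ∈ fr_331, FrameF repsF 331 f :=
  List.forall_mem_cons.2 ⟨f_2889 h, List.forall_mem_cons.2 ⟨f_2890 h, List.forall_mem_cons.2 ⟨f_2891 h, List.forall_mem_cons.2 ⟨f_2892 h, List.forall_mem_cons.2 ⟨f_2893 h, List.forall_mem_cons.2 ⟨f_2894 h, List.forall_mem_cons.2 ⟨f_2895 h, List.forall_mem_cons.2 ⟨f_2896 h, List.forall_mem_cons.2 ⟨f_2897 h, List.forall_mem_cons.2 ⟨f_2898 h, List.forall_mem_cons.2 ⟨f_2899 h, List.forall_mem_cons.2 ⟨f_2900 h, List.forall_mem_cons.2 ⟨f_2901 h, List.forall_mem_cons.2 ⟨f_2902 h, List.forall_mem_cons.2 ⟨f_2903 h, List.forall_mem_cons.2 ⟨f_2904 h, List.forall_mem_cons.2 ⟨f_2905 h, List.forall_mem_cons.2 ⟨f_2906 h, List.forall_mem_cons.2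 ⟨f_2907 h, List.forall_mem_cons.2 ⟨f_2908 h, List.forall_mem_cons.2 ⟨f_2909 h, List.forall_mem_cons.2 ⟨f_2910 h, List.forall_mem_cons.2 ⟨f_2911 h, List.forall_mem_cons.2 ⟨f_2912 h, List.forall_mem_cons.2 ⟨f_2913 h, List.forall_mem_cons.2 ⟨f_2914 h, List.forall_mem_cons.2 ⟨f_2915 h, List.forall_mem_cons.2 ⟨f_2916 h,
    fun _ h0 => absurd h0 List.not_mem_nil⟩⟩⟩⟩⟩⟩⟩⟩⟩⟩⟩⟩⟩⟩⟩⟩⟩⟩⟩⟩⟩⟩⟩⟩⟩⟩⟩⟩

def F_2917 : FrX :=
  ⟨0x2002000900044004000e020410001410008000408010020104100202008008820000a8000902000242000008844410002080810020480040202080210100,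
    0xa3, 1, 0x102130438592a8, 7,
    [(0xa3, 1), (0x208693a5, 4), (0x10548793, 4), (0x217693a4, 4), (0x208693a5, 4), (0x10548793, 4)],
    [(0x102130438592a8, 7), (0x508493a6, 4), (0x325081a7, 4), (0x41507692, 4), (0x508493a6, 4), (0x325081a7, 4)]⟩

def c_2917 : frmChk tA tA F_2917 = true := by decide +kernel

def r_2917_0 : chkL rootF engF2 tA tA sA_332 sA_332 4 F_2917 [(511, 0, 0)]
    0x40fa328ca150e0741703c47ac0668a92a0d8a606c1b = true := by
  decide +kernel

theorem f_2917 (h : TabsF) : FrameF repsF 332 F_2917.f :=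
  frame_of rfl c_2917 (runs_of engOK r_2917_0) (by decide +kernel) h.1 h.1

def F_2918 : FrX :=
  ⟨0x80080a000804040e000021010020010000020408900100080884800208200000045010008020820020002408c0402400001010040600100244019000080,
    0xa6, 1, 0x415063748191a3, 7,
    [(0xa6, 1), (0x205396a8, 4), (0x10548796, 4), (0x214396a7, 4), (0x205396a8, 4), (0x10548796, 4)],
    [(0x415063748191a3, 7), (0x435286a0, 4), (0x41708695, 4), (0x318692a7, 4), (0x435286a0, 4), (0x41708695, 4)]⟩

def c_2918 : frmChk tA tA F_2918 = true := by decide +kernel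

def r_2918_0 : chkL rootF engF2 tA tA sA_332 sA_332 4 F_2918 [(511, 0, 0)]
    0x44b164c603c2e = true := by
  decide +kernel

theorem f_2918 (h : TabsF) : FrameF repsF 332 F_2918.f :=
  frame_of rfl c_2918 (runs_of engOK r_2918_0) (by decide +kernel) h.1 h.1

def F_2919 : FrX :=
  ⟨0x80080a000804040e00002101002001000002040881200002210020800a020040005000409020000800811000a8090002080110005000104240101010010,
    0xa6, 1, 0x304353627692a6, 7,
    [(0xa6, 1), (0x205396a8, 4), (0x10548796, 4), (0x214396a7, 4), (0x205396a8, 4), (0x10548796, 4)],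
    [(0x304353627692a6, 7), (0x547693a8, 4), (0x31407682, 4), (0x507691a2, 4), (0x547693a8, 4), (0x31407682, 4)]⟩

def c_2919 : frmChk tA tA F_2919 = true := by decide +kernel

def r_2919_0 : chkL rootF engF2 tA tA sA_332 sA_332 4 F_2919 [(511, 0, 0)]
    0x10d40f03c1d = true := by
  decide +kernel

theorem f_2919 (h : TabsF) : FrameF repsF 332 F_2919.f :=
  frame_of rfl c_2919 (runs_of engOK r_2919_0) (by decide +kernel) h.1 h.1

def F_2920 : FrX :=
  ⟨0x482000044040440000c204002000900018204002000088200010011001405000428000002208020a000800840490400210090040080408004020200028,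
    0xa0, 1, 0x103053647590a3, 7,
    [(0xa0, 1), (0x538690a2, 4), (0x548790a1, 4), (0x21437690, 4), (0x538690a2, 4), (0x548790a1, 4)],
    [(0x103053647590a3, 7), (0x538492a7, 4), (0x53768190, 4), (0x204153a6, 4), (0x538492a7, 4), (0x53768190, 4)]⟩

def c_2920 : frmChk tA tA F_2920 = true := by decide +kernel

def r_2920_0 : chkL rootF engF2 tA tA sA_332 sA_332 4 F_2920 [(511, 0, 0)]
    0x47103c1e = true := by
  decide +kernel

theorem f_2920 (h : TabsF) : FrameF repsF 332 F_2920.f :=
  frame_of rfl c_2920 (runs_of engOK r_2920_0) (by decide +kernel) h.1 h.1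

def F_2921 : FrX :=
  ⟨0x80080a000804040e000021010020010000020408810840800440300004100000400230310000200000404804440000080420010804100a10040c8020200,
    0xa6, 1, 0x1032435061a0, 6,
    [(0xa6, 1), (0x205396a8, 4), (0x10548796, 4), (0x214396a7, 4), (0x205396a8, 4), (0x10548796, 4)],
    [(0x1032435061a0, 6), (0x418095a3, 4), (0x218795a6, 4), (0x42637095, 4), (0x418095a3, 4), (0x218795a6, 4)]⟩

def c_2921 : frmChk tA tA F_2921 = true := by decide +kernel

def r_2921_0 : chkL rootF engF2 tA tA sA_332 sA_332 4 F_2921 [(511, 0, 0)]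
    0x4781585a0780f09c8709c470ac56198351983549874 = true := by
  decide +kernel

theorem f_2921 (h : TabsF) : FrameF repsF 332 F_2921.f :=
  frame_of rfl c_2921 (runs_of engOK r_2921_0) (by decide +kernel) h.1 h.1

def F_2922 : FrX :=
  ⟨0x2002000900044004000e0204100014100080004080040400282000240000c080140200115080001000048004448000008100202040441020001004201300,
    0xa3, 1, 0x315165738492a6, 7,
    [(0xa3, 1), (0x208693a5, 4), (0x10548793, 4), (0x217693a4, 4), (0x208693a5, 4), (0x10548793, 4)],
    [(0x315165738492a6, 7), (0x327690a4, 4), (0x32415086, 4), (0x328795a1, 4), (0x327690a4, 4), (0x32415086, 4)]⟩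

def c_2922 : frmChk tA tA F_2922 = true := by decide +kernel

def r_2922_0 : chkL rootF engF2 tA tA sA_332 sA_332 4 F_2922 [(511, 0, 0)]
    0x42b03c2d05c0f11c2724c9309c3603c0f03c1e = true := by
  decide +kernel

theorem f_2922 (h : TabsF) : FrameF repsF 332 F_2922.f :=
  frame_of rfl c_2922 (runs_of engOK r_2922_0) (by decide +kernel) h.1 h.1

def F_2923 : FrX :=
  ⟨0x482000044040440000c2040020009000182040000901004000a00080004084004880800888000202000100828308108010010040600104001020600200,
    0xa0, 1, 0x2132426592a1, 6,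
    [(0xa0, 1), (0x538690a2, 4), (0x548790a1, 4), (0x21437690, 4), (0x538690a2, 4), (0x548790a1, 4)],
    [(0x2132426592a1, 6), (0x51768390, 4), (0x426375a0, 4), (0x42537681, 4), (0x426375a0, 4), (0x537186a9, 4), (0x31428590, 4), (0x42537681, 4), (0x31428590, 4), (0x657381a0, 4), (0x42537681, 4), (0x537186a9, 4)]⟩

def c_2923 : frmChk tA tB F_2923 = true := by decide +kernel

def r_2923_0 : chkL rootF engF2 tA tB sA_332 sB_332 4 F_2923 [(511, 0, 0)]
    0x4c330c0f = true := by
  decide +kernel

theorem f_2923 (h : TabsF) : FrameF repsF 332 F_2923.f :=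
  frame_of rfl c_2923 (runs_of engOK r_2923_0) (by decide +kernel) h.1 h.2

def F_2924 : FrX :=
  ⟨0x80080a000804040e000021010020010000020408a0001001100090020242001000034000400049020020000888001140002002008400508004221280008,
    0xa6, 1, 0x2160748395a6, 6,
    [(0xa6, 1), (0x205396a8, 4), (0x10548796, 4), (0x214396a7, 4), (0x205396a8, 4), (0x10548796, 4)],
    [(0x2160748395a6, 6), (0x506198a3, 4), (0x43506297, 4), (0x215087a4, 4), (0x506198a3, 4), (0x43506297, 4)]⟩

def c_2924 : frmChk tA tA F_2924 = true := by decide +kernel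

def r_2924_0 : chkL rootF engF2 tA tA sA_332 sA_332 4 F_2924 [(511, 0, 0)]
    0x1138351541b0b83503c1e = true := by
  decide +kernel

theorem f_2924 (h : TabsF) : FrameF repsF 332 F_2924.f :=
  frame_of rfl c_2924 (runs_of engOK r_2924_0) (by decide +kernel) h.1 h.1

def F_2925 : FrX :=
  ⟨0x2002000900044004000e02041000141000800040801001021010200018202101000204001028000424040200401408008040008080a00000204020129400,
    0xa3, 1, 0x3262768292a3, 6,
    [(0xa3, 1), (0x208693a5, 4), (0x10548793, 4), (0x217693a4, 4), (0x208693a5, 4), (0x10548793, 4)],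
    [(0x3262768292a3, 6), (0x768290a5, 4), (0x10546382, 4), (0x738291a4, 4), (0x768290a5, 4), (0x10546382, 4)]⟩

def c_2925 : frmChk tA tA F_2925 = true := by decide +kernel

def r_2925_0 : chkL rootF engF2 tA tA sA_332 sA_332 4 F_2925 [(511, 0, 0)]
    0x10b82703c4e1940f = true := by
  decide +kernel

theorem f_2925 (h : TabsF) : FrameF repsF 332 F_2925.f :=
  frame_of rfl c_2925 (runs_of engOK r_2925_0) (by decide +kernel) h.1 h.1

def F_2926 : FrX :=
  ⟨0x1c2102000004044000002041000101000082040888081000020000404000182008604001020080420040200503400408048008003200800300010108400,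
    0x0, 0, 0x647583, 3,
    [(0x0, 0), (0x205386a9, 4), (0x105487a9, 4), (0x214376a9, 4), (0x205386a9, 4), (0x105487a9, 4)],
    [(0x647583, 3), (0x204387a9, 4), (0x105376a9, 4), (0x215486a9, 4), (0x204387a9, 4), (0x105376a9, 4)]⟩

def c_2926 : frmChk tA tA F_2926 = true := by decide +kernel

def r_2926_0 : chkL rootF engF2 tA tA sA_332 sA_332 4 F_2926 [(511, 0, 0)]
    0x417 = true := by
  decide +kernel

theorem f_2926 (h : TabsF) : FrameF repsF 332 F_2926.f :=
  frame_of rfl c_2926 (runs_of engOK r_2926_0) (by decide +kernel) h.1 h.1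

def F_2927 : FrX :=
  ⟨0x80080a000804040e000021010020010000020408a0001001100090020242002004024000400049020020000888001140002002014001008001a10460040,
    0xa6, 1, 0x213241527196a3, 7,
    [(0xa6, 1), (0x205396a8, 4), (0x10548796, 4), (0x214396a7, 4), (0x205396a8, 4), (0x10548796, 4)],
    [(0x213241527196a3, 7), (0x506198a3, 4), (0x32617084, 4), (0x617594a2, 4), (0x506198a3, 4), (0x32617084, 4)]⟩

def c_2927 : frmChk tA tA F_2927 = true := by decide +kernel

def r_2927_0 : chkL rootF engF2 tA tA sA_332 sA_332 4 F_2927 [(511, 0, 0)]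
    0x106c0f12ca60b40f = true := by
  decide +kernel

theorem f_2927 (h : TabsF) : FrameF repsF 332 F_2927.f :=
  frame_of rfl c_2927 (runs_of engOK r_2927_0) (by decide +kernel) h.1 h.1

def F_2928 : FrX :=
  ⟨0x2002000900044004000e02041000141000800040800801014008024002000180200108820008008024020110800000101100800048408808002016004014,
    0xa3, 1, 0x3154657392a6, 6,
    [(0xa3, 1), (0x208693a5, 4), (0x10548793, 4), (0x217693a4, 4), (0x208693a5, 4), (0x10548793, 4)],
    [(0x3154657392a6, 6), (0x427690a8, 4), (0x30426581, 4), (0x427593a1, 4), (0x427690a8, 4), (0x30426581, 4)]⟩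

def c_2928 : frmChk tA tA F_2928 = true := by decide +kernel

def r_2928_0 : chkL rootF engF2 tA tA sA_332 sA_332 4 F_2928 [(511, 0, 0)]
    0x105c35 = true := by
  decide +kernel

theorem f_2928 (h : TabsF) : FrameF repsF 332 F_2928.f :=
  frame_of rfl c_2928 (runs_of engOK r_2928_0) (by decide +kernel) h.1 h.1

def F_2929 : FrX :=
  ⟨0x482000044040440000c2040020009000182040001012080000900200080401010032020001040020800030808000140100082008508080006008800a40,
    0xa0, 1, 0x20628395a6, 5,
    [(0xa0, 1), (0x538690a2, 4), (0x548790a1, 4), (0x21437690, 4), (0x538690a2, 4), (0x548790a1, 4)],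
    [(0x20628395a6, 5), (0x436297a8, 4), (0x215094a7, 4), (0x508397a4, 4), (0x215094a7, 4), (0x618793a4, 4), (0x506284a3, 4), (0x508397a4, 4), (0x506284a3, 4), (0x217483a9, 4), (0x508397a4, 4), (0x618793a4, 4)]⟩

def c_2929 : frmChk tA tB F_2929 = true := by decide +kernel

def r_2929_0 : chkL rootF engF2 tA tB sA_332 sB_332 4 F_2929 [(511, 0, 0)]
    0x417 = true := by
  decide +kernel

theorem f_2929 (h : TabsF) : FrameF repsF 332 F_2929.f :=
  frame_of rfl c_2929 (runs_of engOK r_2929_0) (by decide +kernel) h.1 h.2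

def F_2930 : FrX :=
  ⟨0x1c2102000004044000002041000101000082040888081000020000404000182008604000820030410000201112100408248008002600800500010280000,
    0x0, 0, 0x647583, 3,
    [(0x0, 0), (0x205386a9, 4), (0x105487a9, 4), (0x214376a9, 4), (0x205386a9, 4), (0x105487a9, 4)],
    [(0x647583, 3), (0x204387a9, 4), (0x105376a9, 4), (0x215486a9, 4), (0x204387a9, 4), (0x105376a9, 4)]⟩

def c_2930 : frmChk tA tA F_2930 = true := by decide +kernel

def r_2930_0 : chkL rootF engF2 tA tA sA_332 sA_332 4 F_2930 [(511, 0, 0)]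
    0x41b = true := by
  decide +kernel

theorem f_2930 (h : TabsF) : FrameF repsF 332 F_2930.f :=
  frame_of rfl c_2930 (runs_of engOK r_2930_0) (by decide +kernel) h.1 h.1

def F_2931 : FrX :=
  ⟨0x2002000900044004000e020410001410008000408008010140080240020004c0200102020008008024020110800000101100280032408808000042004084,
    0xa3, 1, 0x3263738698a3, 6,
    [(0xa3, 1), (0x208693a5, 4), (0x10548793, 4), (0x217693a4, 4), (0x208693a5, 4), (0x10548793, 4)],
    [(0x3263738698a3, 6), (0x307298a5, 4), (0x10547296, 4), (0x317286a4, 4), (0x307298a5, 4), (0x10547296, 4)]⟩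

def c_2931 : frmChk tA tA F_2931 = true := by decide +kernel

def r_2931_0 : chkL rootF engF2 tA tA sA_332 sA_332 4 F_2931 [(511, 0, 0)]
    0x42709c330d4330cc330cc330b80f2728c = true := by
  decide +kernel

theorem f_2931 (h : TabsF) : FrameF repsF 332 F_2931.f :=
  frame_of rfl c_2931 (runs_of engOK r_2931_0) (by decide +kernel) h.1 h.1

def F_2932 : FrX :=
  ⟨0x2002000900044004000e0204100014100080004080040102109020001020210100020400108800040c000405001008008040088080a000006040200a9000,
    0xa3, 1, 0x304150637580a6, 7,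
    [(0xa3, 1), (0x208693a5, 4), (0x10548793, 4), (0x217693a4, 4), (0x208693a5, 4), (0x10548793, 4)],
    [(0x304150637580a6, 7), (0x768290a5, 4), (0x53718490, 4), (0x426190a3, 4), (0x768290a5, 4), (0x53718490, 4)]⟩

def c_2932 : frmChk tA tA F_2932 = true := by decide +kernel

def r_2932_0 : chkL rootF engF2 tA tA sA_332 sA_332 4 F_2932 [(511, 0, 0)]
    0x12340f = true := by
  decide +kernel

theorem f_2932 (h : TabsF) : FrameF repsF 332 F_2932.f :=
  frame_of rfl c_2932 (runs_of engOK r_2932_0) (by decide +kernel) h.1 h.1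

def F_2933 : FrX :=
  ⟨0x80080a000804040e000021010020010000020408a0001001100030028242004000014000400049020020000888001140001102010401008006224480000,
    0xa6, 1, 0x3061748493a4, 6,
    [(0xa6, 1), (0x205396a8, 4), (0x10548796, 4), (0x214396a7, 4), (0x205396a8, 4), (0x10548796, 4)],
    [(0x3061748493a4, 6), (0x32718095, 4), (0x637480a5, 4), (0x416280a9, 4), (0x32718095, 4), (0x637480a5, 4)]⟩

def c_2933 : frmChk tA tA F_2933 = true := by decide +kernel

def r_2933_0 : chkL rootF engF2 tA tA sA_332 sA_332 4 F_2933 [(511, 0, 0)]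
    0x43c0784d03c4e03c6c = true := by
  decide +kernel

theorem f_2933 (h : TabsF) : FrameF repsF 332 F_2933.f :=
  frame_of rfl c_2933 (runs_of engOK r_2933_0) (by decide +kernel) h.1 h.1

def F_2934 : FrX :=
  ⟨0x482000044040440000c204002000900018204001002002800800008402018820840000100108021080042110100140004800800a200a00100802000084,
    0xa0, 1, 0x30506392a7, 5,
    [(0xa0, 1), (0x538690a2, 4), (0x548790a1, 4), (0x21437690, 4), (0x538690a2, 4), (0x548790a1, 4)],
    [(0x30506392a7, 5), (0x608495a3, 4), (0x435172a0, 4), (0x407286a3, 4), (0x435172a0, 4), (0x408391a6, 4), (0x64728095, 4), (0x407286a3, 4), (0x64728095, 4), (0x305186a4, 4), (0x407286a3, 4), (0x408391a6, 4)]⟩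

def c_2934 : frmChk tA tB F_2934 = true := by decide +kernel

def r_2934_0 : chkL rootF engF2 tA tB sA_332 sB_332 4 F_2934 [(511, 0, 0)]
    0x1 = true := by
  decide +kernel

theorem f_2934 (h : TabsF) : FrameF repsF 332 F_2934.f :=
  frame_of rfl c_2934 (runs_of engOK r_2934_0) (by decide +kernel) h.1 h.2

def F_2935 : FrX :=
  ⟨0x80080a000804040e000021010020010000020408804210020200048000802020080814014000290100200010822004080040480020006005000c0800041,
    0xa6, 1, 0x2163758492a8, 6,
    [(0xa6, 1), (0x205396a8, 4), (0x10548796, 4), (0x214396a7, 4), (0x205396a8, 4), (0x10548796, 4)],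
    [(0x2163758492a8, 6), (0x417690a3, 4), (0x204187a5, 4), (0x41538692, 4), (0x417690a3, 4), (0x204187a5, 4)]⟩

def c_2935 : frmChk tA tA F_2935 = true := by decide +kernel

def r_2935_0 : chkL rootF engF2 tA tA sA_332 sA_332 4 F_2935 [(511, 0, 0)]
    0x60d05c1d0744b = true := by
  decide +kernel

theorem f_2935 (h : TabsF) : FrameF repsF 332 F_2935.f :=
  frame_of rfl c_2935 (runs_of engOK r_2935_0) (by decide +kernel) h.1 h.1

def F_2936 : FrX :=
  ⟨0x80080a000804040e000021010020010000020408a00010011000900202420040080140004000490200200008880011400010420100010080060a0600402,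
    0xa6, 1, 0x314151628298a6, 7,
    [(0xa6, 1), (0x205396a8, 4), (0x10548796, 4), (0x214396a7, 4), (0x205396a8, 4), (0x10548796, 4)],
    [(0x314151628298a6, 7), (0x416280a9, 4), (0x43506297, 4), (0x316285a7, 4), (0x416280a9, 4), (0x43506297, 4)]⟩

def c_2936 : frmChk tA tA F_2936 = true := by decide +kernel

def r_2936_0 : chkL rootF engF2 tA tA sA_332 sA_332 4 F_2936 [(511, 0, 0)]
    0x41d = true := by
  decide +kernel

theorem f_2936 (h : TabsF) : FrameF repsF 332 F_2936.f :=
  frame_of rfl c_2936 (runs_of engOK r_2936_0) (by decide +kernel) h.1 h.1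

def F_2937 : FrX :=
  ⟨0x2002000900044004000e0204100014100080004080040102401020001020210100020480102800840c000411000408008040008080a000006040200a1002,
    0xa3, 1, 0x4151718492a5, 6,
    [(0xa3, 1), (0x208693a5, 4), (0x10548793, 4), (0x217693a4, 4), (0x208693a5, 4), (0x10548793, 4)],
    [(0x4151718492a5, 6), (0x426190a3, 4), (0x425170a8, 4), (0x42658397, 4), (0x426190a3, 4), (0x425170a8, 4)]⟩

def c_2937 : frmChk tA tA F_2937 = true := by decide +kernel

def r_2937_0 : chkL rootF engF2 tA tA sA_332 sA_332 4 F_2937 [(511, 0, 0)]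
    0x10ac0f2659824c996600f = true := by
  decide +kernel

theorem f_2937 (h : TabsF) : FrameF repsF 332 F_2937.f :=
  frame_of rfl c_2937 (runs_of engOK r_2937_0) (by decide +kernel) h.1 h.1

def F_2938 : FrX :=
  ⟨0x482000044040440000c204002000900018204001001004800800008402010820844000100108041080043090000140004800800a200800100802000884,
    0xa0, 1, 0x435464708592a6, 7,
    [(0xa0, 1), (0x538690a2, 4), (0x548790a1, 4), (0x21437690, 4), (0x538690a2, 4), (0x548790a1, 4)],
    [(0x435464708592a6, 7), (0x638097a4, 4), (0x527186a0, 4), (0x435280a6, 4), (0x527186a0, 4), (0x408391a6, 4), (0x526497a3, 4), (0x435280a6, 4), (0x526497a3, 4), (0x436071a8, 4), (0x435280a6, 4), (0x408391a6, 4)]⟩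

def c_2938 : frmChk tA tB F_2938 = true := by decide +kernel

def r_2938_0 : chkL rootF engF2 tA tB sA_332 sB_332 4 F_2938 [(511, 0, 0)]
    0x41d = true := by
  decide +kernel

theorem f_2938 (h : TabsF) : FrameF repsF 332 F_2938.f :=
  frame_of rfl c_2938 (runs_of engOK r_2938_0) (by decide +kernel) h.1 h.2

def F_2939 : FrX :=
  ⟨0x2002000900044004000e0204100014100080004080080101400802400200018020010212000800802402011080000010450080004a808808000016004002,
    0xa3, 1, 0x204162728593a6, 7,
    [(0xa3, 1), (0x208693a5, 4), (0x10548793, 4), (0x217693a4, 4), (0x208693a5, 4), (0x10548793, 4)],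
    [(0x204162728593a6, 7), (0x307298a5, 4), (0x30426581, 4), (0x307491a6, 4), (0x307298a5, 4), (0x30426581, 4)]⟩

def c_2939 : frmChk tA tA F_2939 = true := by decide +kernel

def r_2939_0 : chkL rootF engF2 tA tA sA_332 sA_332 4 F_2939 [(511, 0, 0)]
    0x10780f = true := by
  decide +kernel

theorem f_2939 (h : TabsF) : FrameF repsF 332 F_2939.f :=
  frame_of rfl c_2939 (runs_of engOK r_2939_0) (by decide +kernel) h.1 h.1

def F_2940 : FrX :=
  ⟨0x80080a000804040e000021010020010000020408a0001001100090020142022000024000400049020020000888001140002002014001308001222400001,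
    0xa6, 1, 0x3062708398a0, 6,
    [(0xa6, 1), (0x205396a8, 4), (0x10548796, 4), (0x214396a7, 4), (0x205396a8, 4), (0x10548796, 4)],
    [(0x3062708398a0, 6), (0x708592a6, 4), (0x547093a1, 4), (0x32617084, 4), (0x708592a6, 4), (0x547093a1, 4)]⟩

def c_2940 : frmChk tA tA F_2940 = true := by decide +kernel

def r_2940_0 : chkL rootF engF2 tA tA sA_332 sA_332 4 F_2940 [(511, 0, 0)]
    0x44e11c1d06c1b0741b0e81d1702d = true := by
  decide +kernel

theorem f_2940 (h : TabsF) : FrameF repsF 332 F_2940.f :=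
  frame_of rfl c_2940 (runs_of engOK r_2940_0) (by decide +kernel) h.1 h.1

def F_2941 : FrX :=
  ⟨0x482000044040440000c204002000900018204000101208000090020008040100c042020001040020800030808000140100142008108080006008800442,
    0xa0, 1, 0x213050768597a3, 7,
    [(0xa0, 1), (0x538690a2, 4), (0x548790a1, 4), (0x21437690, 4), (0x538690a2, 4), (0x548790a1, 4)],
    [(0x213050768597a3, 7), (0x435198a7, 4), (0x52608497, 4), (0x607498a3, 4), (0x52608497, 4), (0x217483a9, 4), (0x516073a4, 4), (0x607498a3, 4), (0x516073a4, 4), (0x528794a3, 4), (0x607498a3, 4), (0x217483a9, 4)]⟩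

def c_2941 : frmChk tA tB F_2941 = true := by decide +kernel

def r_2941_0 : chkL rootF engF2 tA tB sA_332 sB_332 4 F_2941 [(511, 0, 0)]
    0x10b41b06c1b0e84b = true := by
  decide +kernel

theorem f_2941 (h : TabsF) : FrameF repsF 332 F_2941.f :=
  frame_of rfl c_2941 (runs_of engOK r_2941_0) (by decide +kernel) h.1 h.2

def F_2942 : FrX :=
  ⟨0x482000044040440000c204002000900018204002000104200002028001405001008040008b00018008020000e02000a008010000408484000024000203,
    0xa0, 1, 0x435464758291a3, 7,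
    [(0xa0, 1), (0x538690a2, 4), (0x548790a1, 4), (0x21437690, 4), (0x538690a2, 4), (0x548790a1, 4)],
    [(0x435464758291a3, 7), (0x415280a7, 4), (0x32417690, 4), (0x415398a6, 4), (0x415280a7, 4), (0x32417690, 4)]⟩

def c_2942 : frmChk tA tA F_2942 = true := by decide +kernel

def r_2942_0 : chkL rootF engF2 tA tA sA_332 sA_332 4 F_2942 [(511, 0, 0)]
    0x41b11c1b = true := by
  decide +kernel

theorem f_2942 (h : TabsF) : FrameF repsF 332 F_2942.f :=
  frame_of rfl c_2942 (runs_of engOK r_2942_0) (by decide +kernel) h.1 h.1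

def F_2943 : FrX :=
  ⟨0x2002000900044004000e02041000141000800040810000082080802402004080140280010120010204040400430010002040020005001020240110008050,
    0xa3, 1, 0x3153748691a3, 6,
    [(0xa3, 1), (0x208693a5, 4), (0x10548793, 4), (0x217693a4, 4), (0x208693a5, 4), (0x10548793, 4)],
    [(0x3153748691a3, 6), (0x204176a8, 4), (0x53718490, 4), (0x415387a6, 4), (0x53718490, 4), (0x618792a4, 4), (0x205386a7, 4), (0x415387a6, 4), (0x205386a7, 4), (0x748190a6, 4), (0x415387a6, 4), (0x618792a4, 4)]⟩

def c_2943 : frmChk tA tB F_2943 = true := by decide +kernel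

def r_2943_0 : chkL rootF engF2 tA tB sA_332 sB_332 4 F_2943 [(511, 0, 0)]
    0x41703c17 = true := by
  decide +kernel

theorem f_2943 (h : TabsF) : FrameF repsF 332 F_2943.f :=
  frame_of rfl c_2943 (runs_of engOK r_2943_0) (by decide +kernel) h.1 h.2

def F_2944 : FrX :=
  ⟨0x80080a000804040e0000210100200100000204088108080049002080080008200108040102800012001008001301000104004800a00020a100810900080,
    0xa6, 1, 0x53627481a6, 5,
    [(0xa6, 1), (0x205396a8, 4), (0x10548796, 4), (0x214396a7, 4), (0x205396a8, 4), (0x10548796, 4)],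
    [(0x53627481a6, 5), (0x436071a5, 4), (0x738092a4, 4), (0x435192a7, 4), (0x738092a4, 4), (0x315486a7, 4), (0x607592a1, 4), (0x435192a7, 4), (0x607592a1, 4), (0x517480a3, 4), (0x435192a7, 4), (0x315486a7, 4)]⟩

def c_2944 : frmChk tA tB F_2944 = true := by decide +kernel

def r_2944_0 : chkL rootF engF2 tA tB sA_332 sB_332 4 F_2944 [(511, 0, 0)]
    0x111c0f0f08d1a82e = true := by
  decide +kernel

theorem f_2944 (h : TabsF) : FrameF repsF 332 F_2944.f :=
  frame_of rfl c_2944 (runs_of engOK r_2944_0) (by decide +kernel) h.1 h.2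

theorem cl_332 (h : TabsF) : ∀ f ∈ fr_332, FrameF repsF 332 f :=
  List.forall_mem_cons.2 ⟨f_2917 h, List.forall_mem_cons.2 ⟨f_2918 h, List.forall_mem_cons.2 ⟨f_2919 h, List.forall_mem_cons.2 ⟨f_2920 h, List.forall_mem_cons.2 ⟨f_2921 h, List.forall_mem_cons.2 ⟨f_2922 h, List.forall_mem_cons.2 ⟨f_2923 h, List.forall_mem_cons.2 ⟨f_2924 h, List.forall_mem_cons.2 ⟨f_2925 h, List.forall_mem_cons.2 ⟨f_2926 h, List.forall_mem_cons.2 ⟨f_2927 h, List.forall_mem_cons.2 ⟨f_2928 h, List.forall_mem_cons.2 ⟨f_2929 h, List.forall_mem_cons.2 ⟨f_2930 h, List.forall_mem_cons.2 ⟨f_2931 h, List.forall_mem_cons.2 ⟨f_2932 h, List.forall_mem_cons.2 ⟨f_2933 h, List.forall_mem_cons.2 ⟨f_2934 h, List.forall_mem_cons.2 ⟨f_2935 h, List.forall_mem_cons.2 ⟨f_2936 h, List.forall_mem_cons.2 ⟨f_2937 h, List.forall_mem_cons.2 ⟨f_2938 h, List.forall_mem_cons.2 ⟨f_2939 h, List.forall_mem_cons.2 ⟨f_2940 h, List.forall_mem_cons.2 ⟨f_2941 h, List.forall_mem_cons.2 ⟨f_2942 h, List.forall_mem_cons.2 ⟨f_2943 h, List.forall_mem_cons.2 ⟨f_2944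 h,
    fun _ h0 => absurd h0 List.not_mem_nil⟩⟩⟩⟩⟩⟩⟩⟩⟩⟩⟩⟩⟩⟩⟩⟩⟩⟩⟩⟩⟩⟩⟩⟩⟩⟩⟩⟩

/-- the classes finished in this module -/
theorem all_L20 (h : TabsF) : ∀ p ∈ ([(319, fr_319), (320, fr_320), (321, fr_321), (322, fr_322), (323, fr_323), (324, fr_324), (325, fr_325), (326, fr_326), (327, fr_327), (328, fr_328), (329, fr_329), (330, fr_330), (331, fr_331), (332, fr_332)] : List (ℕ × List ℕ)),
    ∀ f ∈ p.2, FrameF repsF p.1 f :=
  List.forall_mem_cons.2 ⟨cl_319 h, List.forall_mem_cons.2 ⟨cl_320 h, List.forall_mem_cons.2 ⟨cl_321 h, List.forall_mem_cons.2 ⟨cl_322 h, List.forall_mem_cons.2 ⟨cl_323 h, List.forall_mem_cons.2 ⟨cl_324 h, List.forall_mem_cons.2 ⟨cl_325 h, List.forall_mem_cons.2 ⟨cl_326 h, List.forall_mem_cons.2 ⟨cl_327 h, List.forall_mem_cons.2 ⟨cl_328 h, List.forall_mem_cons.2 ⟨cl_329 h, List.forall_mem_cons.2 ⟨cl_330 h, List.forall_mem_cons.2 ⟨cl_331 h, List.forall_mem_cons.2 ⟨cl_332 h, fun _ h0 => absurd h0 List.not_mem_nil⟩⟩⟩⟩⟩⟩⟩⟩⟩⟩⟩⟩⟩⟩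

end Pool.Agent.Gen.TY.F
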