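import Pool.Agent.Helper20.TY.EngF
import Pool.Agent.Helper20.TY.TabG
import Pool.Agent.Gen.TY.FS.SufA
import Pool.Agent.Gen.TY.FS.SufB
import Pool.Agent.Gen.TY.FR.Dat

/-!
MP_8ee768_co, project TH-Y', stage F: frames.
-/

set_option autoImplicit false

namespace Pool.Agent.Gen.TY.F

open Pool.Agent.Helper79.CV
open Pool.Agent.Helper20.TY
open Pool.Agent.Helper20.TY.EngF
open Pool.Agent.Gen.TY.FS
open Pool.Agent.Gen.TY.FR

def F_2945 : FrX :=
  ⟨0x1c21020000040440000020410001010000820408900800800008100102004040200148020020204218008050202200220080820040100110008a0200008,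
    0x0, 0, 0x537585, 3,
    [(0x0, 0), (0x205386a9, 4), (0x105487a9, 4), (0x214376a9, 4), (0x205386a9, 4), (0x105487a9, 4)],
    [(0x537585, 3), (0x207685a9, 4), (0x107384a9, 4), (0x215463a9, 4), (0x207685a9, 4), (0x107384a9, 4)]⟩

def c_2945 : frmChk tA tA F_2945 = true := by decide +kernel

def r_2945_0 : chkL rootF engF2 tA tA sA_333 sA_333 4 F_2945 [(255, 0, 0), (256, 0, 6)]
    0x11c895 = true := by
  decide +kernel

def r_2945_1 : chkL rootF engF2 tA tA sA_333 sA_333 4 F_2945 [(256, 6, 7)]
    0x105c17 = true := by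
  decide +kernel

def r_2945_2 : chkL rootF engF2 tA tA sA_333 sA_333 4 F_2945 [(256, 13, 0)]
    0x10ac2d = true := by
  decide +kernel

theorem f_2945 (h : TabsF) : FrameF repsF 333 F_2945.f :=
  frame_of rfl c_2945 ((runs_of engOK r_2945_0).append ((runs_of engOK r_2945_1).append (runs_of engOK r_2945_2))) (by decide +kernel) h.1 h.1

def F_2946 : FrX :=
  ⟨0x2002000900044004000e020410001410008000408004020801012040010084020200048021020004258000050200200210000a00060008100008c0200048,
    0xa3, 1, 0x405163718290a3, 7,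
    [(0xa3, 1), (0x208693a5, 4), (0x10548793, 4), (0x217693a4, 4), (0x208693a5, 4), (0x10548793, 4)],
    [(0x405163718290a3, 7), (0x326498a1, 4), (0x10526497, 4), (0x536487a0, 4), (0x326498a1, 4), (0x10526497, 4)]⟩

def c_2946 : frmChk tA tA F_2946 = true := by decide +kernel

def r_2946_0 : chkL rootF engF2 tA tA sA_333 sA_333 4 F_2946 [(511, 0, 0)]
    0x105c474718c684176c0170b417 = true := by
  decide +kernel

theorem f_2946 (h : TabsF) : FrameF repsF 333 F_2946.f :=
  frame_of rfl c_2946 (runs_of engOK r_2946_0) (by decide +kernel) h.1 h.1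

def F_2947 : FrX :=
  ⟨0x80080a000804040e00002101002001000002040890020008050000808204004020501002002021021808001020201022100102004001011000802900008,
    0xa6, 1, 0x425365708192a6, 7,
    [(0xa6, 1), (0x205396a8, 4), (0x10548796, 4), (0x214396a7, 4), (0x205396a8, 4), (0x10548796, 4)],
    [(0x425365708192a6, 7), (0x436597a1, 4), (0x10436287, 4), (0x435298a0, 4), (0x436597a1, 4), (0x10436287, 4)]⟩

def c_2947 : frmChk tA tA F_2947 = true := by decide +kernel

def r_2947_0 : chkL rootF engF2 tA tA sA_333 sA_333 4 F_2947 [(511, 0, 0)]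
    0x19280f = true := by
  decide +kernel

theorem f_2947 (h : TabsF) : FrameF repsF 333 F_2947.f :=
  frame_of rfl c_2947 (runs_of engOK r_2947_0) (by decide +kernel) h.1 h.1

def F_2948 : FrX :=
  ⟨0x482000044040440000c2040020009000182040002080440000880200040090020018802022000421800801080220022008006000410090002024200004,
    0xa0, 1, 0x2031658794a0, 6,
    [(0xa0, 1), (0x538690a2, 4), (0x548790a1, 4), (0x21437690, 4), (0x538690a2, 4), (0x548790a1, 4)],
    [(0x2031658794a0, 6), (0x426175a0, 4), (0x428796a3, 4), (0x30428591, 4), (0x426175a0, 4), (0x428796a3, 4)]⟩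

def c_2948 : frmChk tA tA F_2948 = true := by decide +kernel

def r_2948_0 : chkL rootF engF2 tA tA sA_333 sA_333 4 F_2948 [(511, 0, 0)]
    0x5151c4742b00f0cc3a0ac0f = true := by
  decide +kernel

theorem f_2948 (h : TabsF) : FrameF repsF 333 F_2948.f :=
  frame_of rfl c_2948 (runs_of engOK r_2948_0) (by decide +kernel) h.1 h.1

def F_2949 : FrX :=
  ⟨0x482000044040440000c2040020009000182040010020082004011010010804804000101001080180000440042010200480080148100200101110000502,
    0xa0, 1, 0x10425360758093a0, 8,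
    [(0xa0, 1), (0x538690a2, 4), (0x548790a1, 4), (0x21437690, 4), (0x538690a2, 4), (0x548790a1, 4)],
    [(0x10425360758093a0, 8), (0x618597a4, 4), (0x637285a0, 4), (0x31408592, 4), (0x618597a4, 4), (0x637285a0, 4)]⟩

def c_2949 : frmChk tA tA F_2949 = true := by decide +kernel

def r_2949_0 : chkL rootF engF2 tA tA sA_333 sA_333 4 F_2949 [(511, 0, 0)]
    0x42d = true := by
  decide +kernel

theorem f_2949 (h : TabsF) : FrameF repsF 333 F_2949.f :=
  frame_of rfl c_2949 (runs_of engOK r_2949_0) (by decide +kernel) h.1 h.1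

def F_2950 : FrX :=
  ⟨0x2002000900044004000e02041000141000800040800800228120001400020a0820000010104d000880040400000400801021800040600200300004011900,
    0xa3, 1, 0x214050738298a8, 7,
    [(0xa3, 1), (0x208693a5, 4), (0x10548793, 4), (0x217693a4, 4), (0x208693a5, 4), (0x10548793, 4)],
    [(0x214050738298a8, 7), (0x748591a6, 4), (0x405291a3, 4), (0x63708291, 4), (0x748591a6, 4), (0x405291a3, 4)]⟩

def c_2950 : frmChk tA tA F_2950 = true := by decide +kernel

def r_2950_0 : chkL rootF engF2 tA tA sA_333 sA_333 4 F_2950 [(511, 0, 0)]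
    0x1470354d0271344790c17 = true := by
  decide +kernel

theorem f_2950 (h : TabsF) : FrameF repsF 333 F_2950.f :=
  frame_of rfl c_2950 (runs_of engOK r_2950_0) (by decide +kernel) h.1 h.1

def F_2951 : FrX :=
  ⟨0x80080a000804040e00002101002001000002040880a00004204082100080088004024001405040080040800100601800002000880408804240088020800,
    0xa6, 1, 0x3242508292a1, 6,
    [(0xa6, 1), (0x205396a8, 4), (0x10548796, 4), (0x214396a7, 4), (0x205396a8, 4), (0x10548796, 4)],
    [(0x3242508292a1, 6), (0x43627095, 4), (0x307681a5, 4), (0x42637081, 4), (0x307681a5, 4), (0x406372a9, 4), (0x32648195, 4), (0x42637081, 4), (0x32648195, 4), (0x426073a5, 4), (0x42637081, 4), (0x406372a9, 4)]⟩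

def c_2951 : frmChk tA tB F_2951 = true := by decide +kernel

def r_2951_0 : chkL rootF engF2 tA tB sA_333 sB_333 4 F_2951 [(511, 0, 0)]
    0x1 = true := by
  decide +kernel

theorem f_2951 (h : TabsF) : FrameF repsF 333 F_2951.f :=
  frame_of rfl c_2951 (runs_of engOK r_2951_0) (by decide +kernel) h.1 h.2

def F_2952 : FrX :=
  ⟨0x80080a000804040e00002101002001000002040890010008084004100842001010800080802081020008000401082800022a01080400100244200880080,
    0xa6, 1, 0x405260768193a6, 7,
    [(0xa6, 1), (0x205396a8, 4), (0x10548796, 4), (0x214396a7, 4), (0x205396a8, 4), (0x10548796, 4)],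
    [(0x405260768193a6, 7), (0x657392a1, 4), (0x20417386, 4), (0x738590a4, 4), (0x657392a1, 4), (0x20417386, 4)]⟩

def c_2952 : frmChk tA tA F_2952 = true := by decide +kernel

def r_2952_0 : chkL rootF engF2 tA tA sA_333 sA_333 4 F_2952 [(511, 0, 0)]
    0x41b1642b0d40f = true := by
  decide +kernel

theorem f_2952 (h : TabsF) : FrameF repsF 333 F_2952.f :=
  frame_of rfl c_2952 (runs_of engOK r_2952_0) (by decide +kernel) h.1 h.1

def F_2953 : FrX :=
  ⟨0x80080a000804040e00002101002001000002040881081000048028000480202000023020004380008090000108100101042010040410084010010140200,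
    0xa6, 1, 0x104251758092a5, 7,
    [(0xa6, 1), (0x205396a8, 4), (0x10548796, 4), (0x214396a7, 4), (0x205396a8, 4), (0x10548796, 4)],
    [(0x104251758092a5, 7), (0x617498a3, 4), (0x107485a2, 4), (0x32607495, 4), (0x617498a3, 4), (0x107485a2, 4)]⟩

def c_2953 : frmChk tA tA F_2953 = true := by decide +kernel

def r_2953_0 : chkL rootF engF2 tA tA sA_333 sA_333 4 F_2953 [(511, 0, 0)]
    0x40f = true := by
  decide +kernel

theorem f_2953 (h : TabsF) : FrameF repsF 333 F_2953.f :=
  frame_of rfl c_2953 (runs_of engOK r_2953_0) (by decide +kernel) h.1 h.1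

def F_2954 : FrX :=
  ⟨0x482000044040440000c2040020009000182040004100400804020010002024800880800884281000080020508010100080010244200904040002200001,
    0xa0, 1, 0x3241657293a1, 6,
    [(0xa0, 1), (0x538690a2, 4), (0x548790a1, 4), (0x21437690, 4), (0x538690a2, 4), (0x548790a1, 4)],
    [(0x3241657293a1, 6), (0x42708596, 4), (0x426183a0, 4), (0x425391a7, 4), (0x42708596, 4), (0x426183a0, 4)]⟩

def c_2954 : frmChk tA tA F_2954 = true := by decide +kernel

def r_2954_0 : chkL rootF engF2 tA tA sA_333 sA_333 4 F_2954 [(511, 0, 0)]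
    0x11a65409c2b3441e3842b = true := by
  decide +kernel

theorem f_2954 (h : TabsF) : FrameF repsF 333 F_2954.f :=
  frame_of rfl c_2954 (runs_of engOK r_2954_0) (by decide +kernel) h.1 h.1

def F_2955 : FrX :=
  ⟨0x482000044040440000c2040020009000182040000902000808100008048084004802000888000202000020444020002110000484010120212020200081,
    0xa0, 1, 0x3253617191a3, 6,
    [(0xa0, 1), (0x538690a2, 4), (0x548790a1, 4), (0x21437690, 4), (0x538690a2, 4), (0x548790a1, 4)],
    [(0x3253617191a3, 6), (0x307581a2, 4), (0x42758690, 4), (0x617593a4, 4), (0x307581a2, 4), (0x42758690, 4)]⟩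

def c_2955 : frmChk tA tA F_2955 = true := by decide +kernel

def r_2955_0 : chkL rootF engF2 tA tA sA_333 sA_333 4 F_2955 [(511, 0, 0)]
    0x42b0741706c1b05c1e = true := by
  decide +kernel

theorem f_2955 (h : TabsF) : FrameF repsF 333 F_2955.f :=
  frame_of rfl c_2955 (runs_of engOK r_2955_0) (by decide +kernel) h.1 h.1

def F_2956 : FrX :=
  ⟨0x2002000900044004000e02041000141000800040801001024080c00200224000100080204084301008080006000010100000212040601000011024200208,
    0xa3, 1, 0x203140647581a6, 7,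
    [(0xa3, 1), (0x208693a5, 4), (0x10548793, 4), (0x217693a4, 4), (0x208693a5, 4), (0x10548793, 4)],
    [(0x203140647581a6, 7), (0x407192a3, 4), (0x53768492, 4), (0x618092a5, 4), (0x407192a3, 4), (0x53768492, 4)]⟩

def c_2956 : frmChk tA tA F_2956 = true := by decide +kernel

def r_2956_0 : chkL rootF engF2 tA tA sA_333 sA_333 4 F_2956 [(511, 0, 0)]
    0x40f15435 = true := by
  decide +kernel

theorem f_2956 (h : TabsF) : FrameF repsF 333 F_2956.f :=
  frame_of rfl c_2956 (runs_of engOK r_2956_0) (by decide +kernel) h.1 h.1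

def F_2957 : FrX :=
  ⟨0x2002000900044004000e0204100014100080004080100048101002020100018204002801010000420404520080102000a004020401001020200090008104,
    0xa3, 1, 0x2131506292a6, 6,
    [(0xa3, 1), (0x208693a5, 4), (0x10548793, 4), (0x217693a4, 4), (0x208693a5, 4), (0x10548793, 4)],
    [(0x2131506292a6, 6), (0x708495a2, 4), (0x405361a7, 4), (0x617082a4, 4), (0x405361a7, 4), (0x728093a4, 4), (0x426195a8, 4), (0x617082a4, 4), (0x426195a8, 4), (0x537482a0, 4), (0x617082a4, 4), (0x728093a4, 4)]⟩

def c_2957 : frmChk tA tB F_2957 = true := by decide +kernel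

def r_2957_0 : chkL rootF engF2 tA tB sA_333 sB_333 4 F_2957 [(511, 0, 0)]
    0x134463 = true := by
  decide +kernel

theorem f_2957 (h : TabsF) : FrameF repsF 333 F_2957.f :=
  frame_of rfl c_2957 (runs_of engOK r_2957_0) (by decide +kernel) h.1 h.2

def F_2958 : FrX :=
  ⟨0x1c2102000004044000002041000101000082040888081000020000404000182008604000a00810410000005110500408240208002600800500010600000,
    0x0, 0, 0x647583, 3,
    [(0x0, 0), (0x205386a9, 4), (0x105487a9, 4), (0x214376a9, 4), (0x205386a9, 4), (0x105487a9, 4)],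
    [(0x647583, 3), (0x204387a9, 4), (0x105376a9, 4), (0x215486a9, 4), (0x204387a9, 4), (0x105376a9, 4)]⟩

def c_2958 : frmChk tA tA F_2958 = true := by decide +kernel

def r_2958_0 : chkL rootF engF2 tA tA sA_333 sA_333 4 F_2958 [(511, 0, 0)]
    0x4ac2348b = true := by
  decide +kernel

theorem f_2958 (h : TabsF) : FrameF repsF 333 F_2958.f :=
  frame_of rfl c_2958 (runs_of engOK r_2958_0) (by decide +kernel) h.1 h.1

def F_2959 : FrX :=
  ⟨0x2002000900044004000e02041000141000800040800801014004024802000880200100120008008024020110800000108100280012408808002042004084,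
    0xa3, 1, 0x304153728494a0, 7,
    [(0xa3, 1), (0x208693a5, 4), (0x10548793, 4), (0x217693a4, 4), (0x208693a5, 4), (0x10548793, 4)],
    [(0x304153728494a0, 7), (0x506183a7, 4), (0x218390a4, 4), (0x62748395, 4), (0x506183a7, 4), (0x218390a4, 4)]⟩

def c_2959 : frmChk tA tA F_2959 = true := by decide +kernel

def r_2959_0 : chkL rootF engF2 tA tA sA_333 sA_333 4 F_2959 [(511, 0, 0)]
    0x44705c876140f03c0f03cac0b92a = true := by
  decide +kernel

theorem f_2959 (h : TabsF) : FrameF repsF 333 F_2959.f :=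
  frame_of rfl c_2959 (runs_of engOK r_2959_0) (by decide +kernel) h.1 h.1

def F_2960 : FrX :=
  ⟨0x2002000900044004000e020410001410008000408004010210902000102021010002040010880020040500040210080080400880808080202040200a9000,
    0xa3, 1, 0x304150637580a6, 7,
    [(0xa3, 1), (0x208693a5, 4), (0x10548793, 4), (0x217693a4, 4), (0x208693a5, 4), (0x10548793, 4)],
    [(0x304150637580a6, 7), (0x768290a5, 4), (0x53718490, 4), (0x426190a3, 4), (0x768290a5, 4), (0x53718490, 4)]⟩

def c_2960 : frmChk tA tA F_2960 = true := by decide +kernel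

def r_2960_0 : chkL rootF engF2 tA tA sA_333 sA_333 4 F_2960 [(511, 0, 0)]
    0x10b81e316c403c2d = true := by
  decide +kernel

theorem f_2960 (h : TabsF) : FrameF repsF 333 F_2960.f :=
  frame_of rfl c_2960 (runs_of engOK r_2960_0) (by decide +kernel) h.1 h.1

def F_2961 : FrX :=
  ⟨0x80080a000804040e000021010020010000020408a00010011000300282420040000140004000490200200008880081080081020104001080442240a0000,
    0xa6, 1, 0x3061748493a4, 6,
    [(0xa6, 1), (0x205396a8, 4), (0x10548796, 4), (0x214396a7, 4), (0x205396a8, 4), (0x10548796, 4)],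
    [(0x3061748493a4, 6), (0x32718095, 4), (0x637480a5, 4), (0x416280a9, 4), (0x32718095, 4), (0x637480a5, 4)]⟩

def c_2961 : frmChk tA tA F_2961 = true := by decide +kernel

def r_2961_0 : chkL rootF engF2 tA tA sA_333 sA_333 4 F_2961 [(511, 0, 0)]
    0x44e1542b = true := by
  decide +kernel

theorem f_2961 (h : TabsF) : FrameF repsF 333 F_2961.f :=
  frame_of rfl c_2961 (runs_of engOK r_2961_0) (by decide +kernel) h.1 h.1

def F_2962 : FrX :=
  ⟨0x482000044040440000c2040020009000182040010020028008000084020188208400004001010240800421001201100048009008200a00100802000084,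
    0xa0, 1, 0x30506392a7, 5,
    [(0xa0, 1), (0x538690a2, 4), (0x548790a1, 4), (0x21437690, 4), (0x538690a2, 4), (0x548790a1, 4)],
    [(0x30506392a7, 5), (0x608495a3, 4), (0x435172a0, 4), (0x407286a3, 4), (0x435172a0, 4), (0x408391a6, 4), (0x64728095, 4), (0x407286a3, 4), (0x64728095, 4), (0x305186a4, 4), (0x407286a3, 4), (0x408391a6, 4)]⟩

def c_2962 : frmChk tA tB F_2962 = true := by decide +kernel

def r_2962_0 : chkL rootF engF2 tA tB sA_333 sB_333 4 F_2962 [(511, 0, 0)]
    0x10760d = true := by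
  decide +kernel

theorem f_2962 (h : TabsF) : FrameF repsF 333 F_2962.f :=
  frame_of rfl c_2962 (runs_of engOK r_2962_0) (by decide +kernel) h.1 h.2

def F_2963 : FrX :=
  ⟨0x80080a000804040e000021010020010000020408820210080600041000802020080810014000090100200010806004080040480220006005000c0800041,
    0xa6, 1, 0x104154607482a3, 7,
    [(0xa6, 1), (0x205396a8, 4), (0x10548796, 4), (0x214396a7, 4), (0x205396a8, 4), (0x10548796, 4)],
    [(0x104154607482a3, 7), (0x218693a0, 4), (0x52647093, 4), (0x518493a7, 4), (0x218693a0, 4), (0x52647093, 4)]⟩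

def c_2963 : frmChk tA tA F_2963 = true := by decide +kernel

def r_2963_0 : chkL rootF engF2 tA tA sA_333 sA_333 4 F_2963 [(511, 0, 0)]
    0x106c690b81b = true := by
  decide +kernel

theorem f_2963 (h : TabsF) : FrameF repsF 333 F_2963.f :=
  frame_of rfl c_2963 (runs_of engOK r_2963_0) (by decide +kernel) h.1 h.1

def F_2964 : FrX :=
  ⟨0x80080a000804040e000021010020010000020408a00010011000900202420040080140004000490200200008880101010000420300101080040a0220402,
    0xa6, 1, 0x314151628298a6, 7,
    [(0xa6, 1), (0x205396a8, 4), (0x10548796, 4), (0x214396a7, 4), (0x205396a8, 4), (0x10548796, 4)],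
    [(0x314151628298a6, 7), (0x416280a9, 4), (0x43506297, 4), (0x316285a7, 4), (0x416280a9, 4), (0x43506297, 4)]⟩

def c_2964 : frmChk tA tA F_2964 = true := by decide +kernel

def r_2964_0 : chkL rootF engF2 tA tA sA_333 sA_333 4 F_2964 [(511, 0, 0)]
    0x44703c3307447 = true := by
  decide +kernel

theorem f_2964 (h : TabsF) : FrameF repsF 333 F_2964.f :=
  frame_of rfl c_2964 (runs_of engOK r_2964_0) (by decide +kernel) h.1 h.1

def F_2965 : FrX :=
  ⟨0x2002000900044004000e020410001410008000408004010240102000102021010002048010280090840400100204080080400080808800002042200a1002,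
    0xa3, 1, 0x4151718492a5, 6,
    [(0xa3, 1), (0x208693a5, 4), (0x10548793, 4), (0x217693a4, 4), (0x208693a5, 4), (0x10548793, 4)],
    [(0x4151718492a5, 6), (0x426190a3, 4), (0x425170a8, 4), (0x42658397, 4), (0x426190a3, 4), (0x425170a8, 4)]⟩

def c_2965 : frmChk tA tA F_2965 = true := by decide +kernel

def r_2965_0 : chkL rootF engF2 tA tA sA_333 sA_333 4 F_2965 [(511, 0, 0)]
    0x41b0cc33 = true := by
  decide +kernel

theorem f_2965 (h : TabsF) : FrameF repsF 333 F_2965.f :=
  frame_of rfl c_2965 (runs_of engOK r_2965_0) (by decide +kernel) h.1 h.1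

def F_2966 : FrX :=
  ⟨0x482000044040440000c2040020009000182040010010048008000084020108208440010009010400800430800201002048008008200802100802000884,
    0xa0, 1, 0x435464708592a6, 7,
    [(0xa0, 1), (0x538690a2, 4), (0x548790a1, 4), (0x21437690, 4), (0x538690a2, 4), (0x548790a1, 4)],
    [(0x435464708592a6, 7), (0x638097a4, 4), (0x527186a0, 4), (0x435280a6, 4), (0x527186a0, 4), (0x408391a6, 4), (0x526497a3, 4), (0x435280a6, 4), (0x526497a3, 4), (0x436071a8, 4), (0x435280a6, 4), (0x408391a6, 4)]⟩

def c_2966 : frmChk tA tB F_2966 = true := by decide +kernel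

def r_2966_0 : chkL rootF engF2 tA tB sA_333 sB_333 4 F_2966 [(511, 0, 0)]
    0x466988660740f = true := by
  decide +kernel

theorem f_2966 (h : TabsF) : FrameF repsF 333 F_2966.f :=
  frame_of rfl c_2966 (runs_of engOK r_2966_0) (by decide +kernel) h.1 h.2

def F_2967 : FrX :=
  ⟨0x2002000900044004000e020410001410008000408144000801010040010084020200048040024004108008048200200410080a00060008200008c0200048,
    0xa3, 1, 0x1042546074a8, 6,
    [(0xa3, 1), (0x208693a5, 4), (0x10548793, 4), (0x217693a4, 4), (0x208693a5, 4), (0x10548793, 4)],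
    [(0x1042546074a8, 6), (0x326498a1, 4), (0x607298a5, 4), (0x40517398, 4), (0x326498a1, 4), (0x607298a5, 4)]⟩

def c_2967 : frmChk tA tA F_2967 = true := by decide +kernel

def r_2967_0 : chkL rootF engF2 tA tA sA_333 sA_333 4 F_2967 [(511, 0, 0)]
    0x14552511c27 = true := by
  decide +kernel

theorem f_2967 (h : TabsF) : FrameF repsF 333 F_2967.f :=
  frame_of rfl c_2967 (runs_of engOK r_2967_0) (by decide +kernel) h.1 h.1

def F_2968 : FrX :=
  ⟨0x80080a000804040e00002101002001000002040882022000050200008204004020501020002c20010808000820211002100102004001021000802900008,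
    0xa6, 1, 0x415360768291a0, 7,
    [(0xa6, 1), (0x205396a8, 4), (0x10548796, 4), (0x214396a7, 4), (0x205396a8, 4), (0x10548796, 4)],
    [(0x415360768291a0, 7), (0x536472a8, 4), (0x203164a9, 4), (0x51647098, 4), (0x536472a8, 4), (0x203164a9, 4)]⟩

def c_2968 : frmChk tA tA F_2968 = true := by decide +kernel

def r_2968_0 : chkL rootF engF2 tA tA sA_333 sA_333 4 F_2968 [(511, 0, 0)]
    0x42d03c59 = true := by
  decide +kernel

theorem f_2968 (h : TabsF) : FrameF repsF 333 F_2968.f :=
  frame_of rfl c_2968 (runs_of engOK r_2968_0) (by decide +kernel) h.1 h.1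

def F_2969 : FrX :=
  ⟨0x80080a000804040e00002101002001000002040892420002010000400204004020500044008010810810000028090000249408001000121004042200004,
    0xa6, 1, 0x3251617583a3, 6,
    [(0xa6, 1), (0x205396a8, 4), (0x10548796, 4), (0x214396a7, 4), (0x205396a8, 4), (0x10548796, 4)],
    [(0x3251617583a3, 6), (0x304271a5, 4), (0x51607498, 4), (0x547198a2, 4), (0x51607498, 4), (0x546372a1, 4), (0x305298a4, 4), (0x547198a2, 4), (0x305298a4, 4), (0x416075a2, 4), (0x547198a2, 4), (0x546372a1, 4)]⟩

def c_2969 : frmChk tA tB F_2969 = true := by decide +kernel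

def r_2969_0 : chkL rootF engF2 tA tB sA_333 sB_333 4 F_2969 [(511, 0, 0)]
    0x10784b12c3c1701d0740f0740f0740f07a1384c3984c3c94455836459445583645944558364503e0d03e0d03e0d = true := by
  decide +kernel

theorem f_2969 (h : TabsF) : FrameF repsF 333 F_2969.f :=
  frame_of rfl c_2969 (runs_of engOK r_2969_0) (by decide +kernel) h.1 h.2

def F_2970 : FrX :=
  ⟨0x482000044040440000c204002000900018204002000104200002028001405001008040008800418008020001e02000a008004408008484000024000801,
    0xa0, 1, 0x435464758291a3, 7,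
    [(0xa0, 1), (0x538690a2, 4), (0x548790a1, 4), (0x21437690, 4), (0x538690a2, 4), (0x548790a1, 4)],
    [(0x435464758291a3, 7), (0x415280a7, 4), (0x32417690, 4), (0x415398a6, 4), (0x415280a7, 4), (0x32417690, 4)]⟩

def c_2970 : frmChk tA tA F_2970 = true := by decide +kernel

def r_2970_0 : chkL rootF engF2 tA tA sA_333 sA_333 4 F_2970 [(511, 0, 0)]
    0x4270ad328c4c51645906d1a = true := by
  decide +kernel

theorem f_2970 (h : TabsF) : FrameF repsF 333 F_2970.f :=
  frame_of rfl c_2970 (runs_of engOK r_2970_0) (by decide +kernel) h.1 h.1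

def F_2971 : FrX :=
  ⟨0x2002000900044004000e020410001410008000408100000820808024020040801402800101200102a0100400012010002040020005001000210110008450,
    0xa3, 1, 0x3153748691a3, 6,
    [(0xa3, 1), (0x208693a5, 4), (0x10548793, 4), (0x217693a4, 4), (0x208693a5, 4), (0x10548793, 4)],
    [(0x3153748691a3, 6), (0x204176a8, 4), (0x53718490, 4), (0x415387a6, 4), (0x53718490, 4), (0x618792a4, 4), (0x205386a7, 4), (0x415387a6, 4), (0x205386a7, 4), (0x748190a6, 4), (0x415387a6, 4), (0x618792a4, 4)]⟩

def c_2971 : frmChk tA tB F_2971 = true := by decide +kernel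

def r_2971_0 : chkL rootF engF2 tA tB sA_333 sB_333 4 F_2971 [(511, 0, 0)]
    0x40f03e0b03c0f = true := by
  decide +kernel

theorem f_2971 (h : TabsF) : FrameF repsF 333 F_2971.f :=
  frame_of rfl c_2971 (runs_of engOK r_2971_0) (by decide +kernel) h.1 h.2

def F_2972 : FrX :=
  ⟨0x80080a000804040e0000210100200100000204088108080049002080080008200108042000800402003008001301200104000800a00010a100010908080,
    0xa6, 1, 0x53627481a6, 5,
    [(0xa6, 1), (0x205396a8, 4), (0x10548796, 4), (0x214396a7, 4), (0x205396a8, 4), (0x10548796, 4)],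
    [(0x53627481a6, 5), (0x436071a5, 4), (0x738092a4, 4), (0x435192a7, 4), (0x738092a4, 4), (0x315486a7, 4), (0x607592a1, 4), (0x435192a7, 4), (0x607592a1, 4), (0x517480a3, 4), (0x435192a7, 4), (0x315486a7, 4)]⟩

def c_2972 : frmChk tA tB F_2972 = true := by decide +kernel

def r_2972_0 : chkL rootF engF2 tA tB sA_333 sB_333 4 F_2972 [(511, 0, 0)]
    0x507c18531340f = true := by
  decide +kernel

theorem f_2972 (h : TabsF) : FrameF repsF 333 F_2972.f :=
  frame_of rfl c_2972 (runs_of engOK r_2972_0) (by decide +kernel) h.1 h.2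

theorem cl_333 (h : TabsF) : ∀ f ∈ fr_333, FrameF repsF 333 f :=
  List.forall_mem_cons.2 ⟨f_2945 h, List.forall_mem_cons.2 ⟨f_2946 h, List.forall_mem_cons.2 ⟨f_2947 h, List.forall_mem_cons.2 ⟨f_2948 h, List.forall_mem_cons.2 ⟨f_2949 h, List.forall_mem_cons.2 ⟨f_2950 h, List.forall_mem_cons.2 ⟨f_2951 h, List.forall_mem_cons.2 ⟨f_2952 h, List.forall_mem_cons.2 ⟨f_2953 h, List.forall_mem_cons.2 ⟨f_2954 h, List.forall_mem_cons.2 ⟨f_2955 h, List.forall_mem_cons.2 ⟨f_2956 h, List.forall_mem_cons.2 ⟨f_2957 h, List.forall_mem_cons.2 ⟨f_2958 h, List.forall_mem_cons.2 ⟨f_2959 h, List.forall_mem_cons.2 ⟨f_2960 h, List.forall_mem_cons.2 ⟨f_2961 h, List.forall_mem_cons.2 ⟨f_2962 h, List.forall_mem_cons.2 ⟨f_2963 h, List.forall_mem_cons.2 ⟨f_2964 h, List.forall_mem_cons.2 ⟨f_2965 h, List.forall_mem_cons.2 ⟨f_2966 h, List.forall_mem_cons.2 ⟨f_2967 h, List.forall_mem_cons.2 ⟨f_2968 h, List.forall_mem_cons.2 ⟨f_2969 h, List.forall_mem_cons.2 ⟨f_2970 h, List.forall_mem_cons.2 ⟨f_2971 h, List.forall_mem_cons.2 ⟨f_2972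 h,
    fun _ h0 => absurd h0 List.not_mem_nil⟩⟩⟩⟩⟩⟩⟩⟩⟩⟩⟩⟩⟩⟩⟩⟩⟩⟩⟩⟩⟩⟩⟩⟩⟩⟩⟩⟩

def F_2973 : FrX :=
  ⟨0x2002000900044004000e0204100014100080004080100048100103000080a0100000441101000041040804008200100044400010300401084010100c4020,
    0xa3, 1, 0x21314150618296a0, 8,
    [(0xa3, 1), (0x208693a5, 4), (0x10548793, 4), (0x217693a4, 4), (0x208693a5, 4), (0x10548793, 4)],
    [(0x21314150618296a0, 8), (0x205491a8, 4), (0x305471a6, 4), (0x32548697, 4), (0x205491a8, 4), (0x305471a6, 4)]⟩

def c_2973 : frmChk tA tA F_2973 = true := by decide +kernel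

def r_2973_0 : chkL rootF engF2 tA tA sA_334 sA_334 4 F_2973 [(511, 0, 0)]
    0x40f0b40f = true := by
  decide +kernel

theorem f_2973 (h : TabsF) : FrameF repsF 334 F_2973.f :=
  frame_of rfl c_2973 (runs_of engOK r_2973_0) (by decide +kernel) h.1 h.1

def F_2974 : FrX :=
  ⟨0x80080a000804040e0000210100200100000204088220000209004011000220402201000240000401080080108021000180008a0820010c04000a0200005,
    0xa6, 1, 0x1021628098a0, 6,
    [(0xa6, 1), (0x205396a8, 4), (0x10548796, 4), (0x214396a7, 4), (0x205396a8, 4), (0x10548796, 4)],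
    [(0x1021628098a0, 6), (0x538190a6, 4), (0x548197a2, 4), (0x43627081, 4), (0x538190a6, 4), (0x548197a2, 4)]⟩

def c_2974 : frmChk tA tA F_2974 = true := by decide +kernel

def r_2974_0 : chkL rootF engF2 tA tA sA_334 sA_334 4 F_2974 [(511, 0, 0)]
    0x42b = true := by
  decide +kernel

theorem f_2974 (h : TabsF) : FrameF repsF 334 F_2974.f :=
  frame_of rfl c_2974 (runs_of engOK r_2974_0) (by decide +kernel) h.1 h.1

def F_2975 : FrX :=
  ⟨0x80080a000804040e00002101002001000002040890008004408004020810041012000410000085000088000822004002421020010000089500200820120,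
    0xa6, 1, 0x5361718690a1, 6,
    [(0xa6, 1), (0x205396a8, 4), (0x10548796, 4), (0x214396a7, 4), (0x205396a8, 4), (0x10548796, 4)],
    [(0x5361718690a1, 6), (0x53708192, 4), (0x436170a9, 4), (0x547086a2, 4), (0x53708192, 4), (0x436170a9, 4)]⟩

def c_2975 : frmChk tA tA F_2975 = true := by decide +kernel

def r_2975_0 : chkL rootF engF2 tA tA sA_334 sA_334 4 F_2975 [(511, 0, 0)]
    0x41e03c1719436 = true := by
  decide +kernel

theorem f_2975 (h : TabsF) : FrameF repsF 334 F_2975.f :=
  frame_of rfl c_2975 (runs_of engOK r_2975_0) (by decide +kernel) h.1 h.1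

def F_2976 : FrX :=
  ⟨0x1c21020000040440000020410001010000820408a00011000004002081022000102120000440210080800081084081080040600020800c0002092800820,
    0x0, 0, 0x53657484, 4,
    [(0x0, 0), (0x205386a9, 4), (0x105487a9, 4), (0x214376a9, 4), (0x205386a9, 4), (0x105487a9, 4)],
    [(0x53657484, 4), (0x206573a9, 4), (0x107486a9, 4), (0x214385a9, 4), (0x206573a9, 4), (0x107486a9, 4)]⟩

def c_2976 : frmChk tA tA F_2976 = true := by decide +kernel

def r_2976_0 : chkL rootF engF2 tA tA sA_334 sA_334 4 F_2976 [(255, 0, 0), (256, 0, 4)]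
    0x1 = true := by
  decide +kernel

def r_2976_1 : chkL rootF engF2 tA tA sA_334 sA_334 4 F_2976 [(256, 4, 11)]
    0x181e25 = true := by
  decide +kernel

def r_2976_2 : chkL rootF engF2 tA tA sA_334 sA_334 4 F_2976 [(256, 15, 4)]
    0x40f = true := by
  decide +kernel

def r_2976_3 : chkL rootF engF2 tA tA sA_334 sA_334 4 F_2976 [(256, 19, 2)]
    0x48e = true := by
  decide +kernel

def r_2976_4 : chkL rootF engF2 tA tA sA_334 sA_334 4 F_2976 [(256, 21, 1)]
    0x1 = true := by
  decide +kernel

def r_2976_5 : chkL rootF engF2 tA tA sA_334 sA_334 4 F_2976 [(256, 22, 0)]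
    0x43c0b82e = true := by
  decide +kernel

theorem f_2976 (h : TabsF) : FrameF repsF 334 F_2976.f :=
  frame_of rfl c_2976 ((runs_of engOK r_2976_0).append ((runs_of engOK r_2976_1).append ((runs_of engOK r_2976_2).append ((runs_of engOK r_2976_3).append ((runs_of engOK r_2976_4).append (runs_of engOK r_2976_5)))))) (by decide +kernel) h.1 h.1

def F_2977 : FrX :=
  ⟨0x2002000900044004000e0204100014100080004080040102402001001008024120020200404400100808000a000400108084040041080480100082040860,
    0xa3, 1, 0x4164728095a1, 6,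
    [(0xa3, 1), (0x208693a5, 4), (0x10548793, 4), (0x217693a4, 4), (0x208693a5, 4), (0x10548793, 4)],
    [(0x4164728095a1, 6), (0x10548793, 4), (0x205496a8, 4), (0x215463a7, 4), (0x10548793, 4), (0x205496a8, 4)]⟩

def c_2977 : frmChk tA tA F_2977 = true := by decide +kernel

def r_2977_0 : chkL rootF engF2 tA tA sA_334 sA_334 4 F_2977 [(511, 0, 0)]
    0x40f = true := by
  decide +kernel

theorem f_2977 (h : TabsF) : FrameF repsF 334 F_2977.f :=
  frame_of rfl c_2977 (runs_of engOK r_2977_0) (by decide +kernel) h.1 h.1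

def F_2978 : FrX :=
  ⟨0x1c2102000004044000002041000101000082040890080080002002100800021011004110000084100080440822010002440220010040109500400080120,
    0x0, 0, 0x43657386, 4,
    [(0x0, 0), (0x205386a9, 4), (0x105487a9, 4), (0x214376a9, 4), (0x205386a9, 4), (0x105487a9, 4)],
    [(0x43657386, 4), (0x207685a9, 4), (0x105463a9, 4), (0x217384a9, 4), (0x207685a9, 4), (0x105463a9, 4)]⟩

def c_2978 : frmChk tA tA F_2978 = true := by decide +kernel

def r_2978_0 : chkL rootF engF2 tA tA sA_334 sA_334 4 F_2978 [(255, 0, 0), (256, 0, 3)]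
    0x105c36 = true := by
  decide +kernel

def r_2978_1 : chkL rootF engF2 tA tA sA_334 sA_334 4 F_2978 [(256, 3, 1)]
    0x1 = true := by
  decide +kernel

def r_2978_2 : chkL rootF engF2 tA tA sA_334 sA_334 4 F_2978 [(256, 4, 6)]
    0x41e = true := by
  decide +kernel

def r_2978_3 : chkL rootF engF2 tA tA sA_334 sA_334 4 F_2978 [(256, 10, 3)]
    0x1 = true := by
  decide +kernel

def r_2978_4 : chkL rootF engF2 tA tA sA_334 sA_334 4 F_2978 [(256, 13, 11)]
    0x10d872 = true := by
  decide +kernel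

def r_2978_5 : chkL rootF engF2 tA tA sA_334 sA_334 4 F_2978 [(256, 24, 0)]
    0x417 = true := by
  decide +kernel

theorem f_2978 (h : TabsF) : FrameF repsF 334 F_2978.f :=
  frame_of rfl c_2978 ((runs_of engOK r_2978_0).append ((runs_of engOK r_2978_1).append ((runs_of engOK r_2978_2).append ((runs_of engOK r_2978_3).append ((runs_of engOK r_2978_4).append (runs_of engOK r_2978_5)))))) (by decide +kernel) h.1 h.1

def F_2979 : FrX :=
  ⟨0x482000044040440000c204002000900018204000088088000420000802002202040900210100011000020100222000880014a050008840002404000042,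
    0xa0, 1, 0x3043768493a2, 6,
    [(0xa0, 1), (0x538690a2, 4), (0x548790a1, 4), (0x21437690, 4), (0x538690a2, 4), (0x548790a1, 4)],
    [(0x3043768493a2, 6), (0x658097a3, 4), (0x31427685, 4), (0x42658790, 4), (0x31427685, 4), (0x508796a1, 4), (0x427098a3, 4), (0x42658790, 4), (0x427098a3, 4), (0x31758690, 4), (0x42658790, 4), (0x508796a1, 4)]⟩

def c_2979 : frmChk tA tB F_2979 = true := by decide +kernel

def r_2979_0 : chkL rootF engF2 tA tB sA_334 sB_334 4 F_2979 [(511, 0, 0)]
    0x1 = true := by
  decide +kernel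

theorem f_2979 (h : TabsF) : FrameF repsF 334 F_2979.f :=
  frame_of rfl c_2979 (runs_of engOK r_2979_0) (by decide +kernel) h.1 h.2

def F_2980 : FrX :=
  ⟨0x482000044040440000c204002000900018204000090080800802008000019a00002040090400020200010088022000200400504041010c200280210008,
    0xa0, 1, 0x10213142536595a3, 8,
    [(0xa0, 1), (0x538690a2, 4), (0x548790a1, 4), (0x21437690, 4), (0x538690a2, 4), (0x548790a1, 4)],
    [(0x10213142536595a3, 8), (0x416582a9, 4), (0x31658790, 4), (0x436572a0, 4), (0x416582a9, 4), (0x31658790, 4)]⟩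

def c_2980 : frmChk tA tA F_2980 = true := by decide +kernel

def r_2980_0 : chkL rootF engF2 tA tA sA_334 sA_334 4 F_2980 [(511, 0, 0)]
    0x4aa1540f = true := by
  decide +kernel

theorem f_2980 (h : TabsF) : FrameF repsF 334 F_2980.f :=
  frame_of rfl c_2980 (runs_of engOK r_2980_0) (by decide +kernel) h.1 h.1

def F_2981 : FrX :=
  ⟨0x482000044040440000c2040020009000182040020000500800200a08040884020010000082900124200800081008800210002082048000002120008404,
    0xa0, 1, 0x10315362768394a3, 8,
    [(0xa0, 1), (0x538690a2, 4), (0x548790a1, 4), (0x21437690, 4), (0x538690a2, 4), (0x548790a1, 4)],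
    [(0x10315362768394a3, 8), (0x617584a0, 4), (0x31528490, 4), (0x637284a9, 4), (0x617584a0, 4), (0x31528490, 4)]⟩

def c_2981 : frmChk tA tA F_2981 = true := by decide +kernel

def r_2981_0 : chkL rootF engF2 tA tA sA_334 sA_334 4 F_2981 [(511, 0, 0)]
    0x105c1705e150780f0781d1581e05c17 = true := by
  decide +kernel

theorem f_2981 (h : TabsF) : FrameF repsF 334 F_2981.f :=
  frame_of rfl c_2981 (runs_of engOK r_2981_0) (by decide +kernel) h.1 h.1

def F_2982 : FrX :=
  ⟨0x80080a000804040e00002101002001000002040890080000484004100410008004403000802082000080801080402800084200040502006302104040000,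
    0xa6, 1, 0x325064758197a6, 7,
    [(0xa6, 1), (0x205396a8, 4), (0x10548796, 4), (0x214396a7, 4), (0x205396a8, 4), (0x10548796, 4)],
    [(0x325064758197a6, 7), (0x405372a1, 4), (0x40768591, 4), (0x406283a9, 4), (0x405372a1, 4), (0x40768591, 4)]⟩

def c_2982 : frmChk tA tA F_2982 = true := by decide +kernel

def r_2982_0 : chkL rootF engF2 tA tA sA_334 sA_334 4 F_2982 [(511, 0, 0)]
    0x10b84d1344d1581b06c9921cb805c17 = true := by
  decide +kernel

theorem f_2982 (h : TabsF) : FrameF repsF 334 F_2982.f :=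
  frame_of rfl c_2982 (runs_of engOK r_2982_0) (by decide +kernel) h.1 h.1

def F_2983 : FrX :=
  ⟨0x1c21020000040440000020410001010000820408a0004008000024200802020010500100090140280050020211010101080000080480001044304880000,
    0x0, 0, 0x216574, 3,
    [(0x0, 0), (0x205386a9, 4), (0x105487a9, 4), (0x214376a9, 4), (0x205386a9, 4), (0x105487a9, 4)],
    [(0x216574, 3), (0x106385a9, 4), (0x207684a9, 4), (0x215473a9, 4), (0x106385a9, 4), (0x207684a9, 4)]⟩

def c_2983 : frmChk tA tA F_2983 = true := by decide +kernel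

def r_2983_0 : chkL rootF engF2 tA tA sA_334 sA_334 4 F_2983 [(255, 0, 0), (256, 0, 14)]
    0x46a0740f0b4b2 = true := by
  decide +kernel

def r_2983_1 : chkL rootF engF2 tA tA sA_334 sA_334 4 F_2983 [(256, 14, 6)]
    0x1 = true := by
  decide +kernel

def r_2983_2 : chkL rootF engF2 tA tA sA_334 sA_334 4 F_2983 [(256, 20, 4)]
    0x41e09c692942703c27 = true := by
  decide +kernel

def r_2983_3 : chkL rootF engF2 tA tA sA_334 sA_334 4 F_2983 [(256, 24, 0)]
    0x1 = true := by
  decide +kernel

theorem f_2983 (h : TabsF) : FrameF repsF 334 F_2983.f :=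
  frame_of rfl c_2983 ((runs_of engOK r_2983_0).append ((runs_of engOK r_2983_1).append ((runs_of engOK r_2983_2).append (runs_of engOK r_2983_3)))) (by decide +kernel) h.1 h.1

def F_2984 : FrX :=
  ⟨0x2002000900044004000e02041000141000800040800800248000c004008088802001001040901002800580000110101000002020404800001013040c1000,
    0xa3, 1, 0x2031415064738298a3, 9,
    [(0xa3, 1), (0x208693a5, 4), (0x10548793, 4), (0x217693a4, 4), (0x208693a5, 4), (0x10548793, 4)],
    [(0x2031415064738298a3, 9), (0x708593a2, 4), (0x54627091, 4), (0x317084a6, 4), (0x708593a2, 4), (0x54627091, 4)]⟩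

def c_2984 : frmChk tA tA F_2984 = true := by decide +kernel

def r_2984_0 : chkL rootF engF2 tA tA sA_334 sA_334 4 F_2984 [(511, 0, 0)]
    0x42b = true := by
  decide +kernel

theorem f_2984 (h : TabsF) : FrameF repsF 334 F_2984.f :=
  frame_of rfl c_2984 (runs_of engOK r_2984_0) (by decide +kernel) h.1 h.1

def F_2985 : FrX :=
  ⟨0x80080a000804040e00002101002001000002040881200002208028000020202c004000501000040008900001280020010480080710101242000100c0000,
    0xa6, 1, 0x31435060738697a0, 8,
    [(0xa6, 1), (0x205396a8, 4), (0x10548796, 4), (0x214396a7, 4), (0x205396a8, 4), (0x10548796, 4)],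
    [(0x31435060738697a0, 8), (0x518790a2, 4), (0x106498a3, 4), (0x64758190, 4), (0x106498a3, 4), (0x32508197, 4), (0x647185a2, 4), (0x64758190, 4), (0x647185a2, 4), (0x758091a3, 4), (0x64758190, 4), (0x32508197, 4)]⟩

def c_2985 : frmChk tA tB F_2985 = true := by decide +kernel

def r_2985_0 : chkL rootF engF2 tA tB sA_334 sB_334 4 F_2985 [(511, 0, 0)]
    0x11a82b = true := by
  decide +kernel

theorem f_2985 (h : TabsF) : FrameF repsF 334 F_2985.f :=
  frame_of rfl c_2985 (runs_of engOK r_2985_0) (by decide +kernel) h.1 h.2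

def F_2986 : FrX :=
  ⟨0x80080a000804040e0000210100200100000204088108080048440010022000002201102000202000808840100840080020404204041a002002104041000,
    0xa6, 1, 0x436281a6, 4,
    [(0xa6, 1), (0x205396a8, 4), (0x10548796, 4), (0x214396a7, 4), (0x205396a8, 4), (0x10548796, 4)],
    [(0x436281a6, 4), (0x546092a1, 4), (0x53718092, 4), (0x438692a7, 4), (0x546092a1, 4), (0x53718092, 4)]⟩

def c_2986 : frmChk tA tA F_2986 = true := by decide +kernel

def r_2986_0 : chkL rootF engF2 tA tA sA_334 sA_334 4 F_2986 [(511, 0, 0)]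
    0x40f03c0f158561541e078560ac1b = true := by
  decide +kernel

theorem f_2986 (h : TabsF) : FrameF repsF 334 F_2986.f :=
  frame_of rfl c_2986 (runs_of engOK r_2986_0) (by decide +kernel) h.1 h.1

def F_2987 : FrX :=
  ⟨0x80080a000804040e000021010020010000020408822000011100204000040840408800410240000828081000141100010200a0006001082400080604000,
    0xa6, 1, 0x31657192a3, 5,
    [(0xa6, 1), (0x205396a8, 4), (0x10548796, 4), (0x214396a7, 4), (0x205396a8, 4), (0x10548796, 4)],
    [(0x31657192a3, 5), (0x218590a6, 4), (0x21647083, 4), (0x215397a4, 4), (0x218590a6, 4), (0x21647083, 4)]⟩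

def c_2987 : frmChk tA tA F_2987 = true := by decide +kernel

def r_2987_0 : chkL rootF engF2 tA tA sA_334 sA_334 4 F_2987 [(511, 0, 0)]
    0x453 = true := by
  decide +kernel

theorem f_2987 (h : TabsF) : FrameF repsF 334 F_2987.f :=
  frame_of rfl c_2987 (runs_of engOK r_2987_0) (by decide +kernel) h.1 h.1

def F_2988 : FrX :=
  ⟨0x2002000900044004000e02041000141000800040810000082080810011010401041002001004020882800110012020040004201005000200401140009010,
    0xa3, 1, 0x10214350638296a0, 8,
    [(0xa3, 1), (0x208693a5, 4), (0x10548793, 4), (0x217693a4, 4), (0x208693a5, 4), (0x10548793, 4)],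
    [(0x10214350638296a0, 8), (0x546190a8, 4), (0x315470a2, 4), (0x54638297, 4), (0x546190a8, 4), (0x315470a2, 4)]⟩

def c_2988 : frmChk tA tA F_2988 = true := by decide +kernel

def r_2988_0 : chkL rootF engF2 tA tA sA_334 sA_334 4 F_2988 [(511, 0, 0)]
    0x41b0b4530740f = true := by
  decide +kernel

theorem f_2988 (h : TabsF) : FrameF repsF 334 F_2988.f :=
  frame_of rfl c_2988 (runs_of engOK r_2988_0) (by decide +kernel) h.1 h.1

def F_2989 : FrX :=
  ⟨0x482000044040440000c20400200090001820400008810400008808000104100180804100200802000a0400912010002080004310080440010002804001,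
    0xa0, 1, 0x215161738195a8, 7,
    [(0xa0, 1), (0x538690a2, 4), (0x548790a1, 4), (0x21437690, 4), (0x538690a2, 4), (0x548790a1, 4)],
    [(0x215161738195a8, 7), (0x106297a5, 4), (0x628094a3, 4), (0x53627481, 4), (0x106297a5, 4), (0x628094a3, 4)]⟩

def c_2989 : frmChk tA tA F_2989 = true := by decide +kernel

def r_2989_0 : chkL rootF engF2 tA tA sA_334 sA_334 4 F_2989 [(511, 0, 0)]
    0x1 = true := by
  decide +kernel

theorem f_2989 (h : TabsF) : FrameF repsF 334 F_2989.f :=
  frame_of rfl c_2989 (runs_of engOK r_2989_0) (by decide +kernel) h.1 h.1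

def F_2990 : FrX :=
  ⟨0x80080a000804040e0000210100200100000204088220000209008010000408806101000082400401201002008221000202002001100060c000805082000,
    0xa6, 1, 0x528693a8, 4,
    [(0xa6, 1), (0x205396a8, 4), (0x10548796, 4), (0x214396a7, 4), (0x205396a8, 4), (0x10548796, 4)],
    [(0x528693a8, 4), (0x507298a4, 4), (0x10426387, 4), (0x637284a9, 4), (0x10426387, 4), (0x518497a2, 4), (0x506394a8, 4), (0x637284a9, 4), (0x506394a8, 4), (0x107482a9, 4), (0x637284a9, 4), (0x518497a2, 4)]⟩

def c_2990 : frmChk tA tB F_2990 = true := by decide +kernel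

def r_2990_0 : chkL rootF engF2 tA tB sA_334 sB_334 4 F_2990 [(511, 0, 0)]
    0x10ac4b = true := by
  decide +kernel

theorem f_2990 (h : TabsF) : FrameF repsF 334 F_2990.f :=
  frame_of rfl c_2990 (runs_of engOK r_2990_0) (by decide +kernel) h.1 h.2

def F_2991 : FrX :=
  ⟨0x482000044040440000c204002000900018204001001010080100080804088422001000080208102000004808310880001400200604010010140000a400,
    0xa0, 1, 0x215064708290a8, 7,
    [(0xa0, 1), (0x538690a2, 4), (0x548790a1, 4), (0x21437690, 4), (0x538690a2, 4), (0x548790a1, 4)],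
    [(0x215064708290a8, 7), (0x307198a4, 4), (0x607192a5, 4), (0x54637182, 4), (0x307198a4, 4), (0x607192a5, 4)]⟩

def c_2991 : frmChk tA tA F_2991 = true := by decide +kernel

def r_2991_0 : chkL rootF engF2 tA tA sA_334 sA_334 4 F_2991 [(511, 0, 0)]
    0x10781e0784d = true := by
  decide +kernel

theorem f_2991 (h : TabsF) : FrameF repsF 334 F_2991.f :=
  frame_of rfl c_2991 (runs_of engOK r_2991_0) (by decide +kernel) h.1 h.1

def F_2992 : FrX :=
  ⟨0x2002000900044004000e0204100014100080004081000008208081001101040104100200100402080a000112090020040004201005000208401140008010,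
    0xa3, 1, 0x10214350638296a0, 8,
    [(0xa3, 1), (0x208693a5, 4), (0x10548793, 4), (0x217693a4, 4), (0x208693a5, 4), (0x10548793, 4)],
    [(0x10214350638296a0, 8), (0x546190a8, 4), (0x315470a2, 4), (0x54638297, 4), (0x546190a8, 4), (0x315470a2, 4)]⟩

def c_2992 : frmChk tA tA F_2992 = true := by decide +kernel

def r_2992_0 : chkL rootF engF2 tA tA sA_334 sA_334 4 F_2992 [(511, 0, 0)]
    0x10ac560ac6a1c41d0e6629a00f03d0b = true := by
  decide +kernel

theorem f_2992 (h : TabsF) : FrameF repsF 334 F_2992.f :=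
  frame_of rfl c_2992 (runs_of engOK r_2992_0) (by decide +kernel) h.1 h.1

def F_2993 : FrX :=
  ⟨0x80080a000804040e0000210100200100000204088220000111002040000408404088004102400000a0190000141100010200a000600108a400000604000,
    0xa6, 1, 0x31657192a3, 5,
    [(0xa6, 1), (0x205396a8, 4), (0x10548796, 4), (0x214396a7, 4), (0x205396a8, 4), (0x10548796, 4)],
    [(0x31657192a3, 5), (0x218590a6, 4), (0x21647083, 4), (0x215397a4, 4), (0x218590a6, 4), (0x21647083, 4)]⟩

def c_2993 : frmChk tA tA F_2993 = true := by decide +kernel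

def r_2993_0 : chkL rootF engF2 tA tA sA_334 sA_334 4 F_2993 [(511, 0, 0)]
    0x471 = true := by
  decide +kernel

theorem f_2993 (h : TabsF) : FrameF repsF 334 F_2993.f :=
  frame_of rfl c_2993 (runs_of engOK r_2993_0) (by decide +kernel) h.1 h.1

def F_2994 : FrX :=
  ⟨0x80080a000804040e00002101002001000002040890020002208008008810001011004410000048200810a002110020010410080804080c0404020021000,
    0xa6, 1, 0x2030547491a5, 6,
    [(0xa6, 1), (0x205396a8, 4), (0x10548796, 4), (0x214396a7, 4), (0x205396a8, 4), (0x10548796, 4)],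
    [(0x2030547491a5, 6), (0x306287a5, 4), (0x416593a7, 4), (0x417682a5, 4), (0x416593a7, 4), (0x527690a8, 4), (0x30417286, 4), (0x417682a5, 4), (0x30417286, 4), (0x758293a6, 4), (0x417682a5, 4), (0x527690a8, 4)]⟩

def c_2994 : frmChk tA tB F_2994 = true := by decide +kernel

def r_2994_0 : chkL rootF engF2 tA tB sA_334 sB_334 4 F_2994 [(511, 0, 0)]
    0x15c01b11c2709c471541d1941b = true := by
  decide +kernel

theorem f_2994 (h : TabsF) : FrameF repsF 334 F_2994.f :=
  frame_of rfl c_2994 (runs_of engOK r_2994_0) (by decide +kernel) h.1 h.2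

def F_2995 : FrX :=
  ⟨0x80080a000804040e00002101002001000002040890020001404010008814004004081010000031000028000828002008014002140000121004100440241,
    0xa6, 1, 0x104160748294a3, 7,
    [(0xa6, 1), (0x205396a8, 4), (0x10548796, 4), (0x214396a7, 4), (0x205396a8, 4), (0x10548796, 4)],
    [(0x104160748294a3, 7), (0x217386a5, 4), (0x20647395, 4), (0x107384a9, 4), (0x217386a5, 4), (0x20647395, 4)]⟩

def c_2995 : frmChk tA tA F_2995 = true := by decide +kernel

def r_2995_0 : chkL rootF engF2 tA tA sA_334 sA_334 4 F_2995 [(511, 0, 0)]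
    0x41d0745a0741d0741d0ea34 = true := by
  decide +kernel

theorem f_2995 (h : TabsF) : FrameF repsF 334 F_2995.f :=
  frame_of rfl c_2995 (runs_of engOK r_2995_0) (by decide +kernel) h.1 h.1

def F_2996 : FrX :=
  ⟨0x1c21020000040440000020410001010000820408a00011000004001102021000082140000810410100400042030104002002082800900080040a0200482,
    0x0, 0, 0x206483, 3,
    [(0x0, 0), (0x205386a9, 4), (0x105487a9, 4), (0x214376a9, 4), (0x205386a9, 4), (0x105487a9, 4)],
    [(0x206483, 3), (0x204385a9, 4), (0x216573a9, 4), (0x107486a9, 4), (0x204385a9, 4), (0x216573a9, 4)]⟩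

def c_2996 : frmChk tA tA F_2996 = true := by decide +kernel

def r_2996_0 : chkL rootF engF2 tA tA sA_334 sA_334 4 F_2996 [(255, 0, 0), (256, 0, 17)]
    0x189625166340b81b03c6c = true := by
  decide +kernel

def r_2996_1 : chkL rootF engF2 tA tA sA_334 sA_334 4 F_2996 [(256, 17, 0)]
    0x106c1d = true := by
  decide +kernel

theorem f_2996 (h : TabsF) : FrameF repsF 334 F_2996.f :=
  frame_of rfl c_2996 ((runs_of engOK r_2996_0).append (runs_of engOK r_2996_1)) (by decide +kernel) h.1 h.1

def F_2997 : FrX :=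
  ⟨0x482000044040440000c2040020009000182040010020082001000180080104804060000804041010000030408020040094008000400904028100000858,
    0xa0, 1, 0x215461738394a6, 7,
    [(0xa0, 1), (0x538690a2, 4), (0x548790a1, 4), (0x21437690, 4), (0x538690a2, 4), (0x548790a1, 4)],
    [(0x215461738394a6, 7), (0x104397a8, 4), (0x526094a3, 4), (0x435287a9, 4), (0x526094a3, 4), (0x617483a9, 4), (0x105298a7, 4), (0x435287a9, 4), (0x105298a7, 4), (0x608793a4, 4), (0x435287a9, 4), (0x617483a9, 4)]⟩

def c_2997 : frmChk tA tB F_2997 = true := by decide +kernel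

def r_2997_0 : chkL rootF engF2 tA tB sA_334 sB_334 4 F_2997 [(511, 0, 0)]
    0x10b427 = true := by
  decide +kernel

theorem f_2997 (h : TabsF) : FrameF repsF 334 F_2997.f :=
  frame_of rfl c_2997 (runs_of engOK r_2997_0) (by decide +kernel) h.1 h.2

def F_2998 : FrX :=
  ⟨0x2002000900044004000e020410001410008000408010004180014001008208001001011248020030000880090004008000042020404c0000501102041000,
    0xa3, 1, 0x104061708297a6, 7,
    [(0xa3, 1), (0x208693a5, 4), (0x10548793, 4), (0x217693a4, 4), (0x208693a5, 4), (0x10548793, 4)],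
    [(0x104061708297a6, 7), (0x405387a2, 4), (0x40517692, 4), (0x314086a9, 4), (0x405387a2, 4), (0x40517692, 4)]⟩

def c_2998 : frmChk tA tA F_2998 = true := by decide +kernel

def r_2998_0 : chkL rootF engF2 tA tA sA_334 sA_334 4 F_2998 [(511, 0, 0)]
    0x11944711c1e12c1e0784b12c2d = true := by
  decide +kernel

theorem f_2998 (h : TabsF) : FrameF repsF 334 F_2998.f :=
  frame_of rfl c_2998 (runs_of engOK r_2998_0) (by decide +kernel) h.1 h.1

def F_2999 : FrX :=
  ⟨0x80080a000804040e000021010020010000020408812000022200081004140010410000501000040008900001280180030200900420000a1002040600200,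
    0xa6, 1, 0x2162748092a4, 6,
    [(0xa6, 1), (0x205396a8, 4), (0x10548796, 4), (0x214396a7, 4), (0x205396a8, 4), (0x10548796, 4)],
    [(0x2162748092a4, 6), (0x315498a0, 4), (0x417682a5, 4), (0x305476a1, 4), (0x417682a5, 4), (0x435092a1, 4), (0x107698a3, 4), (0x305476a1, 4), (0x107698a3, 4), (0x305182a4, 4), (0x305476a1, 4), (0x435092a1, 4)]⟩

def c_2999 : frmChk tA tB F_2999 = true := by decide +kernel

def r_2999_0 : chkL rootF engF2 tA tB sA_334 sB_334 4 F_2999 [(511, 0, 0)]
    0x4360d8360d83606c1b06c360d8361d0360d8360d8360d836 = true := by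
  decide +kernel

theorem f_2999 (h : TabsF) : FrameF repsF 334 F_2999.f :=
  frame_of rfl c_2999 (runs_of engOK r_2999_0) (by decide +kernel) h.1 h.2

def F_3000 : FrX :=
  ⟨0x482000044040440000c2040020009000182040002022020000880200024088004400110020010200800081084020802008002108008402004904040014,
    0xa0, 1, 0x205265748590a4, 7,
    [(0xa0, 1), (0x538690a2, 4), (0x548790a1, 4), (0x21437690, 4), (0x538690a2, 4), (0x548790a1, 4)],
    [(0x205265748590a4, 7), (0x308495a6, 4), (0x407291a8, 4), (0x637284a0, 4), (0x407291a8, 4), (0x435186a0, 4), (0x607295a3, 4), (0x637284a0, 4), (0x607295a3, 4), (0x638091a4, 4), (0x637284a0, 4), (0x435186a0, 4)]⟩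

def c_3000 : frmChk tA tB F_3000 = true := by decide +kernel

def r_3000_0 : chkL rootF engF2 tA tB sA_334 sB_334 4 F_3000 [(511, 0, 0)]
    0x10ac170b853 = true := by
  decide +kernel

theorem f_3000 (h : TabsF) : FrameF repsF 334 F_3000.f :=
  frame_of rfl c_3000 (runs_of engOK r_3000_0) (by decide +kernel) h.1 h.2

theorem cl_334 (h : TabsF) : ∀ f ∈ fr_334, FrameF repsF 334 f :=
  List.forall_mem_cons.2 ⟨f_2973 h, List.forall_mem_cons.2 ⟨f_2974 h, List.forall_mem_cons.2 ⟨f_2975 h, List.forall_mem_cons.2 ⟨f_2976 h, List.forall_mem_cons.2 ⟨f_2977 h, List.forall_mem_cons.2 ⟨f_2978 h, List.forall_mem_cons.2 ⟨f_2979 h, List.forall_mem_cons.2 ⟨f_2980 h, List.forall_mem_cons.2 ⟨f_2981 h, List.forall_mem_cons.2 ⟨f_2982 h, List.forall_mem_cons.2 ⟨f_2983 h, List.forall_mem_cons.2 ⟨f_2984 h, List.forall_mem_cons.2 ⟨f_2985 h, List.forall_mem_cons.2 ⟨f_2986 h, List.forall_mem_cons.2 ⟨f_2987 h, List.forall_mem_cons.2 ⟨f_2988 h, List.forall_mem_cons.2 ⟨f_2989 h, List.forall_mem_cons.2 ⟨f_2990 h, List.forall_mem_cons.2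 ⟨f_2991 h, List.forall_mem_cons.2 ⟨f_2992 h, List.forall_mem_cons.2 ⟨f_2993 h, List.forall_mem_cons.2 ⟨f_2994 h, List.forall_mem_cons.2 ⟨f_2995 h, List.forall_mem_cons.2 ⟨f_2996 h, List.forall_mem_cons.2 ⟨f_2997 h, List.forall_mem_cons.2 ⟨f_2998 h, List.forall_mem_cons.2 ⟨f_2999 h, List.forall_mem_cons.2 ⟨f_3000 h,
    fun _ h0 => absurd h0 List.not_mem_nil⟩⟩⟩⟩⟩⟩⟩⟩⟩⟩⟩⟩⟩⟩⟩⟩⟩⟩⟩⟩⟩⟩⟩⟩⟩⟩⟩⟩

def F_3001 : FrX :=
  ⟨0x482000044040440000c2040020009000182040020002020800080220024028018400001904000480000004113010400010008084c40400014200800080,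
    0xa0, 1, 0x214151748197a6, 7,
    [(0xa0, 1), (0x538690a2, 4), (0x548790a1, 4), (0x21437690, 4), (0x538690a2, 4), (0x548790a1, 4)],
    [(0x214151748197a6, 7), (0x104362a5, 4), (0x62748095, 4), (0x627381a9, 4), (0x104362a5, 4), (0x62748095, 4)]⟩

def c_3001 : frmChk tA tA F_3001 = true := by decide +kernel

def r_3001_0 : chkL rootF engF2 tA tA sA_335 sA_335 4 F_3001 [(511, 0, 0)]
    0x146a25a16a406c0f09c0f = true := by
  decide +kernel

theorem f_3001 (h : TabsF) : FrameF repsF 335 F_3001.f :=
  frame_of rfl c_3001 (runs_of engOK r_3001_0) (by decide +kernel) h.1 h.1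

def F_3002 : FrX :=
  ⟨0x80080a000804040e0000210100200100000204088063000800440040008000003012041008004000080840101111000020004a0204c1101104080800000,
    0xa6, 1, 0x10416187a8, 5,
    [(0xa6, 1), (0x205396a8, 4), (0x10548796, 4), (0x214396a7, 4), (0x205396a8, 4), (0x10548796, 4)],
    [(0x10416187a8, 5), (0x214385a0, 4), (0x50618497, 4), (0x408597a3, 4), (0x50618497, 4), (0x406283a5, 4), (0x213097a4, 4), (0x408597a3, 4), (0x213097a4, 4), (0x546180a3, 4), (0x408597a3, 4), (0x406283a5, 4)]⟩

def c_3002 : frmChk tA tB F_3002 = true := by decide +kernel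

def r_3002_0 : chkL rootF engF2 tA tB sA_335 sB_335 4 F_3002 [(511, 0, 0)]
    0x1170553446c = true := by
  decide +kernel

theorem f_3002 (h : TabsF) : FrameF repsF 335 F_3002.f :=
  frame_of rfl c_3002 (runs_of engOK r_3002_0) (by decide +kernel) h.1 h.2

def F_3003 : FrX :=
  ⟨0x482000044040440000c204002000900018204000108048000088081001041002002041010000410008620040809000201000a0081001a0040000a00041,
    0xa0, 1, 0x214360748691a6, 7,
    [(0xa0, 1), (0x538690a2, 4), (0x548790a1, 4), (0x21437690, 4), (0x538690a2, 4), (0x548790a1, 4)],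
    [(0x214360748691a6, 7), (0x536170a4, 4), (0x758296a3, 4), (0x405382a7, 4), (0x758296a3, 4), (0x435091a7, 4), (0x617482a0, 4), (0x405382a7, 4), (0x617482a0, 4), (0x407396a5, 4), (0x405382a7, 4), (0x435091a7, 4)]⟩

def c_3003 : frmChk tA tB F_3003 = true := by decide +kernel

def r_3003_0 : chkL rootF engF2 tA tB sA_335 sB_335 4 F_3003 [(511, 0, 0)]
    0x106c1d = true := by
  decide +kernel

theorem f_3003 (h : TabsF) : FrameF repsF 335 F_3003.f :=
  frame_of rfl c_3003 (runs_of engOK r_3003_0) (by decide +kernel) h.1 h.2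

def F_3004 : FrX :=
  ⟨0x2002000900044004000e02041000141000800040808000401280a000108120010002040011a0001020100002011020040000011005000208004915410000,
    0xa3, 1, 0x3140647486a8, 6,
    [(0xa3, 1), (0x208693a5, 4), (0x10548793, 4), (0x217693a4, 4), (0x208693a5, 4), (0x10548793, 4)],
    [(0x3140647486a8, 6), (0x425190a8, 4), (0x437590a6, 4), (0x32718690, 4), (0x425190a8, 4), (0x437590a6, 4)]⟩

def c_3004 : frmChk tA tA F_3004 = true := by decide +kernel

def r_3004_0 : chkL rootF engF2 tA tA sA_335 sA_335 4 F_3004 [(511, 0, 0)]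
    0x40f2595884c935608b960780cc93 = true := by
  decide +kernel

theorem f_3004 (h : TabsF) : FrameF repsF 335 F_3004.f :=
  frame_of rfl c_3004 (runs_of engOK r_3004_0) (by decide +kernel) h.1 h.1

def F_3005 : FrX :=
  ⟨0x80080a000804040e0000210100200100000204088208020011008010080008200108406000400400834810080800304010000101100800c2000044c0000,
    0xa6, 1, 0x3154647192a3, 6,
    [(0xa6, 1), (0x205396a8, 4), (0x10548796, 4), (0x214396a7, 4), (0x205396a8, 4), (0x10548796, 4)],
    [(0x3154647192a3, 6), (0x218590a4, 4), (0x21647083, 4), (0x215397a6, 4), (0x218590a4, 4), (0x21647083, 4)]⟩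

def c_3005 : frmChk tA tA F_3005 = true := by decide +kernel

def r_3005_0 : chkL rootF engF2 tA tA sA_335 sA_335 4 F_3005 [(511, 0, 0)]
    0x40f = true := by
  decide +kernel

theorem f_3005 (h : TabsF) : FrameF repsF 335 F_3005.f :=
  frame_of rfl c_3005 (runs_of engOK r_3005_0) (by decide +kernel) h.1 h.1

def F_3006 : FrX :=
  ⟨0x2002000900044004000e020410001410008000408008020800a000410000a482020004010020080e00800001019000040284008000e000060020040c1000,
    0xa3, 1, 0x203240658597a4, 7,
    [(0xa3, 1), (0x208693a5, 4), (0x10548793, 4), (0x217693a4, 4), (0x208693a5, 4), (0x10548793, 4)],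
    [(0x203240658597a4, 7), (0x435098a6, 4), (0x417295a8, 4), (0x607298a5, 4), (0x417295a8, 4), (0x318690a5, 4), (0x436572a0, 4), (0x607298a5, 4), (0x436572a0, 4), (0x416085a9, 4), (0x607298a5, 4), (0x318690a5, 4)]⟩

def c_3006 : frmChk tA tB F_3006 = true := by decide +kernel

def r_3006_0 : chkL rootF engF2 tA tB sA_335 sB_335 4 F_3006 [(511, 0, 0)]
    0x45509ce406c1e0785513435 = true := by
  decide +kernel

theorem f_3006 (h : TabsF) : FrameF repsF 335 F_3006.f :=
  frame_of rfl c_3006 (runs_of engOK r_3006_0) (by decide +kernel) h.1 h.2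

def F_3007 : FrX :=
  ⟨0x2002000900044004000e02041000141000800040810018084008002008820001200002204004005008040030802020003001820010000208300220008084,
    0xa3, 1, 0x63728792a2, 5,
    [(0xa3, 1), (0x208693a5, 4), (0x10548793, 4), (0x217693a4, 4), (0x208693a5, 4), (0x10548793, 4)],
    [(0x63728792a2, 5), (0x426385a0, 4), (0x10548397, 4), (0x43628597, 4), (0x10548397, 4), (0x435286a1, 4), (0x326497a0, 4), (0x43628597, 4), (0x326497a0, 4), (0x10536284, 4), (0x43628597, 4), (0x435286a1, 4)]⟩

def c_3007 : frmChk tA tB F_3007 = true := by decide +kernel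

def r_3007_0 : chkL rootF engF2 tA tB sA_335 sB_335 4 F_3007 [(511, 0, 0)]
    0x105c171a44b = true := by
  decide +kernel

theorem f_3007 (h : TabsF) : FrameF repsF 335 F_3007.f :=
  frame_of rfl c_3007 (runs_of engOK r_3007_0) (by decide +kernel) h.1 h.2

def F_3008 : FrX :=
  ⟨0x2002000900044004000e02041000141000800040801001012001400101020100018108000848000414000101000048800004040441020080014140011022,
    0xa3, 1, 0x1054638793a2, 6,
    [(0xa3, 1), (0x208693a5, 4), (0x10548793, 4), (0x217693a4, 4), (0x208693a5, 4), (0x10548793, 4)],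
    [(0x1054638793a2, 6), (0x758493a1, 4), (0x10546283, 4), (0x53628497, 4), (0x10546283, 4), (0x537498a0, 4), (0x627395a1, 4), (0x53628497, 4), (0x627395a1, 4), (0x10438597, 4), (0x53628497, 4), (0x537498a0, 4)]⟩

def c_3008 : frmChk tA tB F_3008 = true := by decide +kernel

def r_3008_0 : chkL rootF engF2 tA tB sA_335 sB_335 4 F_3008 [(511, 0, 0)]
    0x40f0740f03c475180f = true := by
  decide +kernel

theorem f_3008 (h : TabsF) : FrameF repsF 335 F_3008.f :=
  frame_of rfl c_3008 (runs_of engOK r_3008_0) (by decide +kernel) h.1 h.2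

def F_3009 : FrX :=
  ⟨0x1c2102000004044000002041000101000082040888081000002020200200104000508060000084010040111084000802484000420030104028100010021,
    0x0, 0, 0x637485, 3,
    [(0x0, 0), (0x205386a9, 4), (0x105487a9, 4), (0x214376a9, 4), (0x205386a9, 4), (0x105487a9, 4)],
    [(0x637485, 3), (0x20637584, 4), (0x104387a9, 4), (0x657384a9, 4), (0x104387a9, 4), (0x21647385, 4), (0x205376a9, 4), (0x657384a9, 4), (0x205376a9, 4), (0x10657483, 4), (0x657384a9, 4), (0x21647385, 4)]⟩

def c_3009 : frmChk tA tB F_3009 = true := by decide +kernel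

def r_3009_0 : chkL rootF engF2 tA tB sA_335 sB_335 4 F_3009 [(511, 0, 0)]
    0x4590d45522c1705c17 = true := by
  decide +kernel

theorem f_3009 (h : TabsF) : FrameF repsF 335 F_3009.f :=
  frame_of rfl c_3009 (runs_of engOK r_3009_0) (by decide +kernel) h.1 h.2

def F_3010 : FrX :=
  ⟨0x80080a000804040e000021010020010000020408a000100110002840020c0440008000804000850100400010840048024020004200004040280a1008021,
    0xa6, 1, 0x304150647193a1, 7,
    [(0xa6, 1), (0x205396a8, 4), (0x10548796, 4), (0x214396a7, 4), (0x205396a8, 4), (0x10548796, 4)],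
    [(0x304150647193a1, 7), (0x52708193, 4), (0x637084a5, 4), (0x417096a2, 4), (0x52708193, 4), (0x637084a5, 4)]⟩

def c_3010 : frmChk tA tA F_3010 = true := by decide +kernel

def r_3010_0 : chkL rootF engF2 tA tA sA_335 sA_335 4 F_3010 [(511, 0, 0)]
    0x1 = true := by
  decide +kernel

theorem f_3010 (h : TabsF) : FrameF repsF 335 F_3010.f :=
  frame_of rfl c_3010 (runs_of engOK r_3010_0) (by decide +kernel) h.1 h.1

def F_3011 : FrX :=
  ⟨0x1c2102000004044000002041000101000082040888081000020000208000184004508000840080410000101084040802084040420030084010100060022,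
    0x0, 0, 0x21647583, 4,
    [(0x0, 0), (0x205386a9, 4), (0x105487a9, 4), (0x214376a9, 4), (0x205386a9, 4), (0x105487a9, 4)],
    [(0x21647583, 4), (0x104387a9, 4), (0x205376a9, 4), (0x215486a9, 4), (0x104387a9, 4), (0x205376a9, 4)]⟩

def c_3011 : frmChk tA tA F_3011 = true := by decide +kernel

def r_3011_0 : chkL rootF engF2 tA tA sA_335 sA_335 4 F_3011 [(511, 0, 0)]
    0x447 = true := by
  decide +kernel

theorem f_3011 (h : TabsF) : FrameF repsF 335 F_3011.f :=
  frame_of rfl c_3011 (runs_of engOK r_3011_0) (by decide +kernel) h.1 h.1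

def F_3012 : FrX :=
  ⟨0x2002000900044004000e02041000141000800040801001012001400101020100004108060008004014040111000000804404200440020900028140001021,
    0xa3, 1, 0x1050608495a1, 6,
    [(0xa3, 1), (0x208693a5, 4), (0x10548793, 4), (0x217693a4, 4), (0x208693a5, 4), (0x10548793, 4)],
    [(0x1050608495a1, 6), (0x53628497, 4), (0x107598a6, 4), (0x10438597, 4), (0x107598a6, 4), (0x738594a2, 4), (0x10546283, 4), (0x10438597, 4), (0x10546283, 4), (0x438795a6, 4), (0x10438597, 4), (0x738594a2, 4)]⟩

def c_3012 : frmChk tA tB F_3012 = true := by decide +kernel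

def r_3012_0 : chkL rootF engF2 tA tB sA_335 sB_335 4 F_3012 [(511, 0, 0)]
    0x4170ac170b82d1c551 = true := by
  decide +kernel

theorem f_3012 (h : TabsF) : FrameF repsF 335 F_3012.f :=
  frame_of rfl c_3012 (runs_of engOK r_3012_0) (by decide +kernel) h.1 h.2

def F_3013 : FrX :=
  ⟨0x2002000900044004000e0204100014100080004080040102400240020100820000420204108800012400020040004880040100048084010002a210042020,
    0xa3, 1, 0x4360738396a1, 6,
    [(0xa3, 1), (0x208693a5, 4), (0x10548793, 4), (0x217693a4, 4), (0x208693a5, 4), (0x10548793, 4)],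
    [(0x4360738396a1, 6), (0x54627398, 4), (0x105394a6, 4), (0x10548793, 4), (0x105394a6, 4), (0x758493a2, 4), (0x10628397, 4), (0x10548793, 4), (0x10628397, 4), (0x438795a6, 4), (0x10548793, 4), (0x758493a2, 4)]⟩

def c_3013 : frmChk tA tB F_3013 = true := by decide +kernel

def r_3013_0 : chkL rootF engF2 tA tB sA_335 sB_335 4 F_3013 [(511, 0, 0)]
    0x111c0f0ac2b = true := by
  decide +kernel

theorem f_3013 (h : TabsF) : FrameF repsF 335 F_3013.f :=
  frame_of rfl c_3013 (runs_of engOK r_3013_0) (by decide +kernel) h.1 h.2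

def F_3014 : FrX :=
  ⟨0x1001040012008080000e008408004100081010000420201000480220020000c0440202001080100140002800050c08200100000811804008101004052000,
    0xa3, 1, 0x3262728792a3, 6,
    [(0xa3, 1), (0x207584a6, 4), (0x10547693, 4), (0x647593a8, 4), (0x10547693, 4), (0x216485a7, 4), (0x208693a4, 4), (0x647593a8, 4), (0x208693a4, 4), (0x106574a8, 4), (0x647593a8, 4), (0x216485a7, 4)],
    [(0x3262728792a3, 6), (0x648590a3, 4), (0x10547283, 4), (0x437285a6, 4), (0x10547283, 4), (0x436591a8, 4), (0x637290a4, 4), (0x437285a6, 4), (0x637290a4, 4), (0x105384a6, 4), (0x437285a6, 4), (0x436591a8, 4)]⟩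

def c_3014 : frmChk tB tB F_3014 = true := by decide +kernel

def r_3014_0 : chkL rootF engF2 tB tB sB_335 sB_335 4 F_3014 [(511, 0, 0)]
    0x44d = true := by
  decide +kernel

theorem f_3014 (h : TabsF) : FrameF repsF 335 F_3014.f :=
  frame_of rfl c_3014 (runs_of engOK r_3014_0) (by decide +kernel) h.2 h.2

def F_3015 : FrX :=
  ⟨0x1001040012008080000e008408004100081010000420081000c1400101020000030108002020200240004800011408800004002600820000095100031000,
    0xa3, 1, 0x104164718396a6, 7,
    [(0xa3, 1), (0x207584a6, 4), (0x10547693, 4), (0x647593a8, 4), (0x10547693, 4), (0x216485a7, 4), (0x208693a4, 4), (0x647593a8, 4), (0x208693a4, 4), (0x106574a8, 4), (0x647593a8, 4), (0x216485a7, 4)],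
    [(0x104164718396a6, 7), (0x218590a3, 4), (0x43657190, 4), (0x728690a4, 4), (0x218590a3, 4), (0x43657190, 4)]⟩

def c_3015 : frmChk tB tA F_3015 = true := by decide +kernel

def r_3015_0 : chkL rootF engF2 tB tA sB_335 sA_335 4 F_3015 [(511, 0, 0)]
    0x19442b = true := by
  decide +kernel

theorem f_3015 (h : TabsF) : FrameF repsF 335 F_3015.f :=
  frame_of rfl c_3015 (runs_of engOK r_3015_0) (by decide +kernel) h.2 h.1

def F_3016 : FrX :=
  ⟨0x1001040012008080000e008408004100081010000420100410080220020000a044200012000041804004180c8000002021008008040044081000080000d8,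
    0xa3, 1, 0x43718791a8, 5,
    [(0xa3, 1), (0x207584a6, 4), (0x10547693, 4), (0x647593a8, 4), (0x10547693, 4), (0x216485a7, 4), (0x208693a4, 4), (0x647593a8, 4), (0x208693a4, 4), (0x106574a8, 4), (0x647593a8, 4), (0x216485a7, 4)],
    [(0x43718791a8, 5), (0x205471a6, 4), (0x537190a8, 4), (0x43718692, 4), (0x205471a6, 4), (0x537190a8, 4)]⟩

def c_3016 : frmChk tB tA F_3016 = true := by decide +kernel

def r_3016_0 : chkL rootF engF2 tB tA sB_335 sA_335 4 F_3016 [(511, 0, 0)]
    0x43381e6209c3c = true := by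
  decide +kernel

theorem f_3016 (h : TabsF) : FrameF repsF 335 F_3016.f :=
  frame_of rfl c_3016 (runs_of engOK r_3016_0) (by decide +kernel) h.2 h.1

def F_3017 : FrX :=
  ⟨0x1001040012008080000e00840800410008101000042008024001400101020000086000320000214040084818400000804004201200020800058100000150,
    0xa3, 1, 0x1042536295a4, 6,
    [(0xa3, 1), (0x207584a6, 4), (0x10547693, 4), (0x647593a8, 4), (0x10547693, 4), (0x216485a7, 4), (0x208693a4, 4), (0x647593a8, 4), (0x208693a4, 4), (0x106574a8, 4), (0x647593a8, 4), (0x216485a7, 4)],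
    [(0x1042536295a4, 6), (0x546197a8, 4), (0x103274a9, 4), (0x328597a4, 4), (0x103274a9, 4), (0x607598a4, 4), (0x326184a5, 4), (0x328597a4, 4), (0x326184a5, 4), (0x108594a7, 4), (0x328597a4, 4), (0x607598a4, 4)]⟩

def c_3017 : frmChk tB tB F_3017 = true := by decide +kernel

def r_3017_0 : chkL rootF engF2 tB tB sB_335 sB_335 4 F_3017 [(511, 0, 0)]
    0x41d0740f = true := by
  decide +kernel

theorem f_3017 (h : TabsF) : FrameF repsF 335 F_3017.f :=
  frame_of rfl c_3017 (runs_of engOK r_3017_0) (by decide +kernel) h.2 h.2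

def F_3018 : FrX :=
  ⟨0x1001040012008080000e0084080041000810100004200802400140010102000008600032000020804006481840000080400420150002080006010000008c,
    0xa3, 1, 0x1042536295a4, 6,
    [(0xa3, 1), (0x207584a6, 4), (0x10547693, 4), (0x647593a8, 4), (0x10547693, 4), (0x216485a7, 4), (0x208693a4, 4), (0x647593a8, 4), (0x208693a4, 4), (0x106574a8, 4), (0x647593a8, 4), (0x216485a7, 4)],
    [(0x1042536295a4, 6), (0x546197a8, 4), (0x103274a9, 4), (0x328597a4, 4), (0x103274a9, 4), (0x607598a4, 4), (0x326184a5, 4), (0x328597a4, 4), (0x326184a5, 4), (0x108594a7, 4), (0x328597a4, 4), (0x607598a4, 4)]⟩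

def c_3018 : frmChk tB tB F_3018 = true := by decide +kernel

def r_3018_0 : chkL rootF engF2 tB tB sB_335 sB_335 4 F_3018 [(511, 0, 0)]
    0x40f1680f = true := by
  decide +kernel

theorem f_3018 (h : TabsF) : FrameF repsF 335 F_3018.f :=
  frame_of rfl c_3018 (runs_of engOK r_3018_0) (by decide +kernel) h.2 h.2

def F_3019 : FrX :=
  ⟨0x1001040012008080000e00840800410008101000042008100101400101020000084102802020200240004800010808800004000c024200000aa10001c400,
    0xa3, 1, 0x103150658093a4, 7,
    [(0xa3, 1), (0x207584a6, 4), (0x10547693, 4), (0x647593a8, 4), (0x10547693, 4), (0x216485a7, 4), (0x208693a4, 4), (0x647593a8, 4), (0x208693a4, 4), (0x106574a8, 4), (0x647593a8, 4), (0x216485a7, 4)],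
    [(0x103150658093a4, 7), (0x40518296, 4), (0x407583a6, 4), (0x324071a9, 4), (0x40518296, 4), (0x407583a6, 4)]⟩

def c_3019 : frmChk tB tA F_3019 = true := by decide +kernel

def r_3019_0 : chkL rootF engF2 tB tA sB_335 sA_335 4 F_3019 [(511, 0, 0)]
    0x10ac950cc33 = true := by
  decide +kernel

theorem f_3019 (h : TabsF) : FrameF repsF 335 F_3019.f :=
  frame_of rfl c_3019 (runs_of engOK r_3019_0) (by decide +kernel) h.2 h.1

def F_3020 : FrX :=
  ⟨0x1c4044000008081000000840080410000101084042102000020001010002020048a0200102040040010200202060024010028100410410800400b000003,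
    0x0, 0, 0x21637485, 4,
    [(0x0, 0), (0x20637584, 4), (0x105476a9, 4), (0x647583a9, 4), (0x105476a9, 4), (0x21647385, 4), (0x204386a9, 4), (0x647583a9, 4), (0x204386a9, 4), (0x10657483, 4), (0x647583a9, 4), (0x21647385, 4)],
    [(0x21637485, 4), (0x105386a9, 4), (0x205487a9, 4), (0x214376a9, 4), (0x105386a9, 4), (0x205487a9, 4)]⟩

def c_3020 : frmChk tB tA F_3020 = true := by decide +kernel

def r_3020_0 : chkL rootF engF2 tB tA sB_335 sA_335 4 F_3020 [(511, 0, 0)]
    0x10741d = true := by
  decide +kernel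

theorem f_3020 (h : TabsF) : FrameF repsF 335 F_3020.f :=
  frame_of rfl c_3020 (runs_of engOK r_3020_0) (by decide +kernel) h.2 h.1

def F_3021 : FrX :=
  ⟨0x1001040012008080000e0084080041000810100004201010008802200200004044020204204010014000480001100820090010080e004008101002022020,
    0xa3, 1, 0x1061718392a6, 6,
    [(0xa3, 1), (0x207584a6, 4), (0x10547693, 4), (0x647593a8, 4), (0x10547693, 4), (0x216485a7, 4), (0x208693a4, 4), (0x647593a8, 4), (0x208693a4, 4), (0x106574a8, 4), (0x647593a8, 4), (0x216485a7, 4)],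
    [(0x1061718392a6, 6), (0x436591a8, 4), (0x205471a6, 4), (0x206583a4, 4), (0x205471a6, 4), (0x538697a4, 4), (0x208491a3, 4), (0x206583a4, 4), (0x208491a3, 4), (0x647183a5, 4), (0x206583a4, 4), (0x538697a4, 4)]⟩

def c_3021 : frmChk tB tB F_3021 = true := by decide +kernel

def r_3021_0 : chkL rootF engF2 tB tB sB_335 sB_335 4 F_3021 [(511, 0, 0)]
    0x10b81b03c0f03c3306c1b0b433 = true := by
  decide +kernel

theorem f_3021 (h : TabsF) : FrameF repsF 335 F_3021.f :=
  frame_of rfl c_3021 (runs_of engOK r_3021_0) (by decide +kernel) h.2 h.2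

def F_3022 : FrX :=
  ⟨0x1001040012008080000e0084080041000810100004200810010802200200008044020204102040044000280002040820010008080600410810100a022002,
    0xa3, 1, 0x2040637091a4, 6,
    [(0xa3, 1), (0x207584a6, 4), (0x10547693, 4), (0x647593a8, 4), (0x10547693, 4), (0x216485a7, 4), (0x208693a4, 4), (0x647593a8, 4), (0x208693a4, 4), (0x106574a8, 4), (0x647593a8, 4), (0x216485a7, 4)],
    [(0x2040637091a4, 6), (0x546370a8, 4), (0x214397a5, 4), (0x215486a3, 4), (0x214397a5, 4), (0x648590a3, 4), (0x217083a6, 4), (0x215486a3, 4), (0x217083a6, 4), (0x538697a4, 4), (0x215486a3, 4), (0x648590a3, 4)]⟩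

def c_3022 : frmChk tB tB F_3022 = true := by decide +kernel

def r_3022_0 : chkL rootF engF2 tB tB sB_335 sB_335 4 F_3022 [(511, 0, 0)]
    0x1 = true := by
  decide +kernel

theorem f_3022 (h : TabsF) : FrameF repsF 335 F_3022.f :=
  frame_of rfl c_3022 (runs_of engOK r_3022_0) (by decide +kernel) h.2 h.2

def F_3023 : FrX :=
  ⟨0x2002000900044004000e02041000141000800040808000401800a000108120010000a40011a0001020440002011020040000011005000208001141448000,
    0xa3, 1, 0x2130627493a5, 6,
    [(0xa3, 1), (0x208693a5, 4), (0x10548793, 4), (0x217693a4, 4), (0x208693a5, 4), (0x10548793, 4)],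
    [(0x2130627493a5, 6), (0x506381a9, 4), (0x325084a7, 4), (0x41506297, 4), (0x506381a9, 4), (0x325084a7, 4)]⟩

def c_3023 : frmChk tA tA F_3023 = true := by decide +kernel

def r_3023_0 : chkL rootF engF2 tA tA sA_335 sA_335 4 F_3023 [(511, 0, 0)]
    0x112c0f12c1b = true := by
  decide +kernel

theorem f_3023 (h : TabsF) : FrameF repsF 335 F_3023.f :=
  frame_of rfl c_3023 (runs_of engOK r_3023_0) (by decide +kernel) h.1 h.1

def F_3024 : FrX :=
  ⟨0x2002000900044004000e02041000141000800040810018084008002008820001200002204004005010080048404020003001820010000208100a20010280,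
    0xa3, 1, 0x21536571a1, 5,
    [(0xa3, 1), (0x208693a5, 4), (0x10548793, 4), (0x217693a4, 4), (0x208693a5, 4), (0x10548793, 4)],
    [(0x21536571a1, 5), (0x10536284, 4), (0x326497a0, 4), (0x43628597, 4), (0x326497a0, 4), (0x435286a1, 4), (0x10548397, 4), (0x43628597, 4), (0x10548397, 4), (0x426385a0, 4), (0x43628597, 4), (0x435286a1, 4)]⟩

def c_3024 : frmChk tA tB F_3024 = true := by decide +kernel

def r_3024_0 : chkL rootF engF2 tA tB sA_335 sB_335 4 F_3024 [(511, 0, 0)]
    0x42705c930e8690cc350e83906e13 = true := by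
  decide +kernel

theorem f_3024 (h : TabsF) : FrameF repsF 335 F_3024.f :=
  frame_of rfl c_3024 (runs_of engOK r_3024_0) (by decide +kernel) h.1 h.2

def F_3025 : FrX :=
  ⟨0x482000044040440000c204002000900018204000088088000088080001041003002041010000810008640040411000201000a0085001a0040000800050,
    0xa0, 1, 0x43638092a3, 5,
    [(0xa0, 1), (0x538690a2, 4), (0x548790a1, 4), (0x21437690, 4), (0x538690a2, 4), (0x548790a1, 4)],
    [(0x43638092a3, 5), (0x307598a4, 4), (0x53627481, 4), (0x436275a0, 4), (0x53627481, 4), (0x435091a7, 4), (0x406298a3, 4), (0x436275a0, 4), (0x406298a3, 4), (0x547381a0, 4), (0x436275a0, 4), (0x435091a7, 4)]⟩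

def c_3025 : frmChk tA tB F_3025 = true := by decide +kernel

def r_3025_0 : chkL rootF engF2 tA tB sA_335 sB_335 4 F_3025 [(511, 0, 0)]
    0x42d2b09305c2e = true := by
  decide +kernel

theorem f_3025 (h : TabsF) : FrameF repsF 335 F_3025.f :=
  frame_of rfl c_3025 (runs_of engOK r_3025_0) (by decide +kernel) h.1 h.2

def F_3026 : FrX :=
  ⟨0x80080a000804040e00002101002001000002040881011001020010020042004004014040c000410200000008880401400020820140006080048a1000408,
    0xa6, 1, 0x315160758398a6, 7,
    [(0xa6, 1), (0x205396a8, 4), (0x10548796, 4), (0x214396a7, 4), (0x205396a8, 4), (0x10548796, 4)],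
    [(0x315160758398a6, 7), (0x627394a8, 4), (0x106574a3, 4), (0x107398a4, 4), (0x106574a3, 4), (0x528397a4, 4), (0x106284a9, 4), (0x107398a4, 4), (0x106284a9, 4), (0x436598a7, 4), (0x107398a4, 4), (0x528397a4, 4)]⟩

def c_3026 : frmChk tA tB F_3026 = true := by decide +kernel

def r_3026_0 : chkL rootF engF2 tA tB sA_335 sB_335 4 F_3026 [(511, 0, 0)]
    0x4780b80f03c0f = true := by
  decide +kernel

theorem f_3026 (h : TabsF) : FrameF repsF 335 F_3026.f :=
  frame_of rfl c_3026 (runs_of engOK r_3026_0) (by decide +kernel) h.1 h.2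

def F_3027 : FrX :=
  ⟨0x80080a000804040e000021010020010000020408a00010011000248004802020000810404000850100400010840024080040080030004005008c0808044,
    0xa6, 1, 0x10407392a4, 5,
    [(0xa6, 1), (0x205396a8, 4), (0x10548796, 4), (0x214396a7, 4), (0x205396a8, 4), (0x10548796, 4)],
    [(0x10407392a4, 5), (0x537694a8, 4), (0x214063a5, 4), (0x215387a6, 4), (0x214063a5, 4), (0x738590a6, 4), (0x218694a7, 4), (0x215387a6, 4), (0x218694a7, 4), (0x406587a3, 4), (0x215387a6, 4), (0x738590a6, 4)]⟩

def c_3027 : frmChk tA tB F_3027 = true := by decide +kernel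

def r_3027_0 : chkL rootF engF2 tA tB sA_335 sB_335 4 F_3027 [(511, 0, 0)]
    0x1 = true := by
  decide +kernel

theorem f_3027 (h : TabsF) : FrameF repsF 335 F_3027.f :=
  frame_of rfl c_3027 (runs_of engOK r_3027_0) (by decide +kernel) h.1 h.2

def F_3028 : FrX :=
  ⟨0x1001040012008080000e00840800410008101000040500004420010040000882808200082100200100204202011800410014000405200480500000043000,
    0xa3, 1, 0x3241658192a4, 6,
    [(0xa3, 1), (0x207584a6, 4), (0x10547693, 4), (0x647593a8, 4), (0x10547693, 4), (0x216485a7, 4), (0x208693a4, 4), (0x647593a8, 4), (0x208693a4, 4), (0x106574a8, 4), (0x647593a8, 4), (0x216485a7, 4)],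
    [(0x3241658192a4, 6), (0x527690a4, 4), (0x317580a6, 4), (0x314276a5, 4), (0x317580a6, 4), (0x647298a5, 4), (0x315490a2, 4), (0x314276a5, 4), (0x315490a2, 4), (0x426580a7, 4), (0x314276a5, 4), (0x647298a5, 4)]⟩

def c_3028 : frmChk tB tB F_3028 = true := by decide +kernel

def r_3028_0 : chkL rootF engF2 tB tB sB_335 sB_335 4 F_3028 [(511, 0, 0)]
    0x184c0f16827 = true := by
  decide +kernel

theorem f_3028 (h : TabsF) : FrameF repsF 335 F_3028.f :=
  frame_of rfl c_3028 (runs_of engOK r_3028_0) (by decide +kernel) h.2 h.2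

theorem cl_335 (h : TabsF) : ∀ f ∈ fr_335, FrameF repsF 335 f :=
  List.forall_mem_cons.2 ⟨f_3001 h, List.forall_mem_cons.2 ⟨f_3002 h, List.forall_mem_cons.2 ⟨f_3003 h, List.forall_mem_cons.2 ⟨f_3004 h, List.forall_mem_cons.2 ⟨f_3005 h, List.forall_mem_cons.2 ⟨f_3006 h, List.forall_mem_cons.2 ⟨f_3007 h, List.forall_mem_cons.2 ⟨f_3008 h, List.forall_mem_cons.2 ⟨f_3009 h, List.forall_mem_cons.2 ⟨f_3010 h, List.forall_mem_cons.2 ⟨f_3011 h, List.forall_mem_cons.2 ⟨f_3012 h, List.forall_mem_cons.2 ⟨f_3013 h, List.forall_mem_cons.2 ⟨f_3014 h, List.forall_mem_cons.2 ⟨f_3015 h, List.forall_mem_cons.2 ⟨f_3016 h, List.forall_mem_cons.2 ⟨f_3017 h, List.forall_mem_cons.2 ⟨f_3018 h, List.forall_mem_cons.2 ⟨f_3019 h, List.forall_mem_cons.2 ⟨f_3020 h, List.forall_mem_cons.2 ⟨f_3021 h, List.forall_mem_cons.2 ⟨f_3022 h, List.forall_mem_cons.2 ⟨f_3023 h, List.forall_mem_cons.2 ⟨f_3024 h, List.forall_mem_cons.2 ⟨f_3025 h, List.forall_mem_cons.2 ⟨f_3026 h, List.forall_mem_cons.2 ⟨f_3027 h, List.forall_mem_cons.2 ⟨f_3028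 h,
    fun _ h0 => absurd h0 List.not_mem_nil⟩⟩⟩⟩⟩⟩⟩⟩⟩⟩⟩⟩⟩⟩⟩⟩⟩⟩⟩⟩⟩⟩⟩⟩⟩⟩⟩⟩

def F_3029 : FrX :=
  ⟨0x2002000900044004000e020410001410008000408008020108100204008008820000a400088800028600008804041000208000a020480000202080214100,
    0xa3, 1, 0x3150758590a7, 6,
    [(0xa3, 1), (0x208693a5, 4), (0x10548793, 4), (0x217693a4, 4), (0x208693a5, 4), (0x10548793, 4)],
    [(0x3150758590a7, 6), (0x617492a8, 4), (0x508493a6, 4), (0x506471a8, 4), (0x508493a6, 4), (0x326487a1, 4), (0x41507692, 4), (0x506471a8, 4), (0x41507692, 4), (0x718693a4, 4), (0x506471a8, 4), (0x326487a1, 4)]⟩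

def c_3029 : frmChk tA tB F_3029 = true := by decide +kernel

def r_3029_0 : chkL rootF engF2 tA tB sA_336 sB_336 4 F_3029 [(511, 0, 0)]
    0x538834330ac1e = true := by
  decide +kernel

theorem f_3029 (h : TabsF) : FrameF repsF 336 F_3029.f :=
  frame_of rfl c_3029 (runs_of engOK r_3029_0) (by decide +kernel) h.1 h.2

def F_3030 : FrX :=
  ⟨0x482000044040440000c2040020009000182040002020500008020010040024800c00110083001000020020148408000300002048040120044010210020,
    0xa0, 1, 0x52657392a4, 5,
    [(0xa0, 1), (0x538690a2, 4), (0x548790a1, 4), (0x21437690, 4), (0x538690a2, 4), (0x548790a1, 4)],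
    [(0x52657392a4, 5), (0x54768290, 4), (0x105483a6, 4), (0x325491a7, 4), (0x54768290, 4), (0x105483a6, 4)]⟩

def c_3030 : frmChk tA tA F_3030 = true := by decide +kernel

def r_3030_0 : chkL rootF engF2 tA tA sA_336 sA_336 4 F_3030 [(511, 0, 0)]
    0x103d4c = true := by
  decide +kernel

theorem f_3030 (h : TabsF) : FrameF repsF 336 F_3030.f :=
  frame_of rfl c_3030 (runs_of engOK r_3030_0) (by decide +kernel) h.1 h.1

def F_3031 : FrX :=
  ⟨0x2002000900044004000e0204100014100080004080040102402000420000c08814000011008a00100024000444400000a100200080441020001004201300,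
    0xa3, 1, 0x2032508392a6, 6,
    [(0xa3, 1), (0x208693a5, 4), (0x10548793, 4), (0x217693a4, 4), (0x208693a5, 4), (0x10548793, 4)],
    [(0x2032508392a6, 6), (0x407295a8, 4), (0x425163a7, 4), (0x637280a4, 4), (0x425163a7, 4), (0x208791a4, 4), (0x638495a0, 4), (0x637280a4, 4), (0x638495a0, 4), (0x517480a2, 4), (0x637280a4, 4), (0x208791a4, 4)]⟩

def c_3031 : frmChk tA tB F_3031 = true := by decide +kernel

def r_3031_0 : chkL rootF engF2 tA tB sA_336 sB_336 4 F_3031 [(511, 0, 0)]
    0x1986611b0273c14609cf05186c = true := by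
  decide +kernel

theorem f_3031 (h : TabsF) : FrameF repsF 336 F_3031.f :=
  frame_of rfl c_3031 (runs_of engOK r_3031_0) (by decide +kernel) h.1 h.2

def F_3032 : FrX :=
  ⟨0x80080a000804040e00002101002001000002040881010808088400020820000004501000c000410820000800c0402400041008080400100244218800080,
    0xa6, 1, 0x2132426182a6, 6,
    [(0xa6, 1), (0x205396a8, 4), (0x10548796, 4), (0x214396a7, 4), (0x205396a8, 4), (0x10548796, 4)],
    [(0x2132426182a6, 6), (0x518092a4, 4), (0x53607492, 4), (0x318692a7, 4), (0x518092a4, 4), (0x53607492, 4)]⟩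

def c_3032 : frmChk tA tA F_3032 = true := by decide +kernel

def r_3032_0 : chkL rootF engF2 tA tA sA_336 sA_336 4 F_3032 [(511, 0, 0)]
    0x11941e = true := by
  decide +kernel

theorem f_3032 (h : TabsF) : FrameF repsF 336 F_3032.f :=
  frame_of rfl c_3032 (runs_of engOK r_3032_0) (by decide +kernel) h.1 h.1

def F_3033 : FrX :=
  ⟨0x80080a000804040e000021010020010000020408810810000440300004100080400230104020202000402005480020080040020404100a1004088020200,
    0xa6, 1, 0x103152657491a5, 7,
    [(0xa6, 1), (0x205396a8, 4), (0x10548796, 4), (0x214396a7, 4), (0x205396a8, 4), (0x10548796, 4)],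
    [(0x103152657491a5, 7), (0x516382a0, 4), (0x638491a7, 4), (0x42637095, 4), (0x516382a0, 4), (0x638491a7, 4)]⟩

def c_3033 : frmChk tA tA F_3033 = true := by decide +kernel

def r_3033_0 : chkL rootF engF2 tA tA sA_336 sA_336 4 F_3033 [(511, 0, 0)]
    0x114c2e = true := by
  decide +kernel

theorem f_3033 (h : TabsF) : FrameF repsF 336 F_3033.f :=
  frame_of rfl c_3033 (runs_of engOK r_3033_0) (by decide +kernel) h.1 h.1

def F_3034 : FrX :=
  ⟨0x80080a000804040e00002101002001000002040882011004208024000440002000404050020011000041000a02082001100081084012020204040210080,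
    0xa6, 1, 0x2151617582a3, 6,
    [(0xa6, 1), (0x205396a8, 4), (0x10548796, 4), (0x214396a7, 4), (0x205396a8, 4), (0x10548796, 4)],
    [(0x2151617582a3, 6), (0x417280a5, 4), (0x52607493, 4), (0x547293a1, 4), (0x52607493, 4), (0x547186a2, 4), (0x518093a4, 4), (0x547293a1, 4), (0x518093a4, 4), (0x426075a1, 4), (0x547293a1, 4), (0x547186a2, 4)]⟩

def c_3034 : frmChk tA tB F_3034 = true := by decide +kernel

def r_3034_0 : chkL rootF engF2 tA tB sA_336 sB_336 4 F_3034 [(511, 0, 0)]
    0x455 = true := by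
  decide +kernel

theorem f_3034 (h : TabsF) : FrameF repsF 336 F_3034.f :=
  frame_of rfl c_3034 (runs_of engOK r_3034_0) (by decide +kernel) h.1 h.2

def F_3035 : FrX :=
  ⟨0x482000044040440000c2040020009000182040020000484000020280080184800010800101011012800009004120040204005200000904000110008014,
    0xa0, 1, 0x3141768792a1, 6,
    [(0xa0, 1), (0x538690a2, 4), (0x548790a1, 4), (0x21437690, 4), (0x538690a2, 4), (0x548790a1, 4)],
    [(0x3141768792a1, 6), (0x63718590, 4), (0x425387a0, 4), (0x42617385, 4), (0x425387a0, 4), (0x657381a9, 4), (0x31427690, 4), (0x42617385, 4), (0x31427690, 4), (0x617583a0, 4), (0x42617385, 4), (0x657381a9, 4)]⟩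

def c_3035 : frmChk tA tB F_3035 = true := by decide +kernel

def r_3035_0 : chkL rootF engF2 tA tB sA_336 sB_336 4 F_3035 [(511, 0, 0)]
    0x115855 = true := by
  decide +kernel

theorem f_3035 (h : TabsF) : FrameF repsF 336 F_3035.f :=
  frame_of rfl c_3035 (runs_of engOK r_3035_0) (by decide +kernel) h.1 h.2

def F_3036 : FrX :=
  ⟨0x1c404400000808100000084008041000010108404210200000108100010200004204052000041800024100ca02000240100201004104008005009000022,
    0x0, 0, 0x4376, 2,
    [(0x0, 0), (0x20637584, 4), (0x105476a9, 4), (0x647583a9, 4), (0x105476a9, 4), (0x21647385, 4), (0x204386a9, 4), (0x647583a9, 4), (0x204386a9, 4), (0x10657483, 4), (0x647583a9, 4), (0x21647385, 4)],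
    [(0x4376, 2), (0x205487a9, 4), (0x105386a9, 4), (0x214376a9, 4), (0x205487a9, 4), (0x105386a9, 4)]⟩

def c_3036 : frmChk tB tA F_3036 = true := by decide +kernel

def r_3036_0 : chkL rootF engF2 tB tA sB_336 sA_336 4 F_3036 [(511, 0, 0)]
    0x11942e0760b84e1689865 = true := by
  decide +kernel

theorem f_3036 (h : TabsF) : FrameF repsF 336 F_3036.f :=
  frame_of rfl c_3036 (runs_of engOK r_3036_0) (by decide +kernel) h.2 h.1

def F_3037 : FrX :=
  ⟨0x1001040012008080000e008408004100081010000420201000480220020000c0440202001080100140002800050c0820010000081240400810100402a000,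
    0xa3, 1, 0x3262728792a3, 6,
    [(0xa3, 1), (0x207584a6, 4), (0x10547693, 4), (0x647593a8, 4), (0x10547693, 4), (0x216485a7, 4), (0x208693a4, 4), (0x647593a8, 4), (0x208693a4, 4), (0x106574a8, 4), (0x647593a8, 4), (0x216485a7, 4)],
    [(0x3262728792a3, 6), (0x648590a3, 4), (0x10547283, 4), (0x437285a6, 4), (0x10547283, 4), (0x436591a8, 4), (0x637290a4, 4), (0x437285a6, 4), (0x637290a4, 4), (0x105384a6, 4), (0x437285a6, 4), (0x436591a8, 4)]⟩

def c_3037 : frmChk tB tB F_3037 = true := by decide +kernel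

def r_3037_0 : chkL rootF engF2 tB tB sB_336 sB_336 4 F_3037 [(511, 0, 0)]
    0x1 = true := by
  decide +kernel

theorem f_3037 (h : TabsF) : FrameF repsF 336 F_3037.f :=
  frame_of rfl c_3037 (runs_of engOK r_3037_0) (by decide +kernel) h.2 h.2

def F_3038 : FrX :=
  ⟨0x1001040012008080000e00840800410008101000042008100101400101020000030108042020200240004800010808800004002600820000095100031002,
    0xa3, 1, 0x5161748692a5, 6,
    [(0xa3, 1), (0x207584a6, 4), (0x10547693, 4), (0x647593a8, 4), (0x10547693, 4), (0x216485a7, 4), (0x208693a4, 4), (0x647593a8, 4), (0x208693a4, 4), (0x106574a8, 4), (0x647593a8, 4), (0x216485a7, 4)],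
    [(0x5161748692a5, 6), (0x218590a3, 4), (0x215460a7, 4), (0x21738496, 4), (0x218590a3, 4), (0x215460a7, 4)]⟩

def c_3038 : frmChk tB tA F_3038 = true := by decide +kernel

def r_3038_0 : chkL rootF engF2 tB tA sB_336 sA_336 4 F_3038 [(511, 0, 0)]
    0x42b0ac2b1a41d07827 = true := by
  decide +kernel

theorem f_3038 (h : TabsF) : FrameF repsF 336 F_3038.f :=
  frame_of rfl c_3038 (runs_of engOK r_3038_0) (by decide +kernel) h.2 h.1

def F_3039 : FrX :=
  ⟨0x1001040012008080000e008408004100081010000420100410080220020000a044200012000041804004180c800000202100800804004408100008000126,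
    0xa3, 1, 0x43718791a8, 5,
    [(0xa3, 1), (0x207584a6, 4), (0x10547693, 4), (0x647593a8, 4), (0x10547693, 4), (0x216485a7, 4), (0x208693a4, 4), (0x647593a8, 4), (0x208693a4, 4), (0x106574a8, 4), (0x647593a8, 4), (0x216485a7, 4)],
    [(0x43718791a8, 5), (0x205471a6, 4), (0x537190a8, 4), (0x43718692, 4), (0x205471a6, 4), (0x537190a8, 4)]⟩

def c_3039 : frmChk tB tA F_3039 = true := by decide +kernel

def r_3039_0 : chkL rootF engF2 tB tA sB_336 sA_336 4 F_3039 [(511, 0, 0)]
    0x10ac2b0781e = true := by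
  decide +kernel

theorem f_3039 (h : TabsF) : FrameF repsF 336 F_3039.f :=
  frame_of rfl c_3039 (runs_of engOK r_3039_0) (by decide +kernel) h.2 h.1

def F_3040 : FrX :=
  ⟨0x1001040012008080000e00840800410008101000042008024001400101020000086000320000208040084804400000804004201200420800058100008150,
    0xa3, 1, 0x1042536295a4, 6,
    [(0xa3, 1), (0x207584a6, 4), (0x10547693, 4), (0x647593a8, 4), (0x10547693, 4), (0x216485a7, 4), (0x208693a4, 4), (0x647593a8, 4), (0x208693a4, 4), (0x106574a8, 4), (0x647593a8, 4), (0x216485a7, 4)],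
    [(0x1042536295a4, 6), (0x546197a8, 4), (0x103274a9, 4), (0x328597a4, 4), (0x103274a9, 4), (0x607598a4, 4), (0x326184a5, 4), (0x328597a4, 4), (0x326184a5, 4), (0x108594a7, 4), (0x328597a4, 4), (0x607598a4, 4)]⟩

def c_3040 : frmChk tB tB F_3040 = true := by decide +kernel

def r_3040_0 : chkL rootF engF2 tB tB sB_336 sB_336 4 F_3040 [(511, 0, 0)]
    0x106c1b03c0f = true := by
  decide +kernel

theorem f_3040 (h : TabsF) : FrameF repsF 336 F_3040.f :=
  frame_of rfl c_3040 (runs_of engOK r_3040_0) (by decide +kernel) h.2 h.2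

def F_3041 : FrX :=
  ⟨0x1001040012008080000e0084080041000810100004200802400140010102000008600032000020804008480440000080400420150002080006090000808c,
    0xa3, 1, 0x1042536295a4, 6,
    [(0xa3, 1), (0x207584a6, 4), (0x10547693, 4), (0x647593a8, 4), (0x10547693, 4), (0x216485a7, 4), (0x208693a4, 4), (0x647593a8, 4), (0x208693a4, 4), (0x106574a8, 4), (0x647593a8, 4), (0x216485a7, 4)],
    [(0x1042536295a4, 6), (0x546197a8, 4), (0x103274a9, 4), (0x328597a4, 4), (0x103274a9, 4), (0x607598a4, 4), (0x326184a5, 4), (0x328597a4, 4), (0x326184a5, 4), (0x108594a7, 4), (0x328597a4, 4), (0x607598a4, 4)]⟩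

def c_3041 : frmChk tB tB F_3041 = true := by decide +kernel

def r_3041_0 : chkL rootF engF2 tB tB sB_336 sB_336 4 F_3041 [(511, 0, 0)]
    0x40f12d0e4344b12c4b05c0f = true := by
  decide +kernel

theorem f_3041 (h : TabsF) : FrameF repsF 336 F_3041.f :=
  frame_of rfl c_3041 (runs_of engOK r_3041_0) (by decide +kernel) h.2 h.2

def F_3042 : FrX :=
  ⟨0x80080a000804040e000021010020010000020408a00010020800248004802020000814004000990080600011020024080040080008004009000c0808021,
    0xa6, 1, 0x41537691a4, 5,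
    [(0xa6, 1), (0x205396a8, 4), (0x10548796, 4), (0x214396a7, 4), (0x205396a8, 4), (0x10548796, 4)],
    [(0x41537691a4, 5), (0x206375a8, 4), (0x417690a3, 4), (0x416385a7, 4), (0x417690a3, 4), (0x658392a7, 4), (0x204187a5, 4), (0x416385a7, 4), (0x204187a5, 4), (0x738590a6, 4), (0x416385a7, 4), (0x658392a7, 4)]⟩

def c_3042 : frmChk tA tB F_3042 = true := by decide +kernel

def r_3042_0 : chkL rootF engF2 tA tB sA_336 sB_336 4 F_3042 [(511, 0, 0)]
    0x10b82e0b817 = true := by
  decide +kernel

theorem f_3042 (h : TabsF) : FrameF repsF 336 F_3042.f :=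
  frame_of rfl c_3042 (runs_of engOK r_3042_0) (by decide +kernel) h.1 h.2

def F_3043 : FrX :=
  ⟨0x2002000900044004000e02041000141000800040800801014008024002000420200102040888000224000100800048100100000055008008006018034020,
    0xa3, 1, 0x214253637294a0, 7,
    [(0xa3, 1), (0x208693a5, 4), (0x10548793, 4), (0x217693a4, 4), (0x208693a5, 4), (0x10548793, 4)],
    [(0x214253637294a0, 7), (0x106385a7, 4), (0x108493a2, 4), (0x10547296, 4), (0x106385a7, 4), (0x108493a2, 4)]⟩

def c_3043 : frmChk tA tA F_3043 = true := by decide +kernel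

def r_3043_0 : chkL rootF engF2 tA tA sA_336 sA_336 4 F_3043 [(511, 0, 0)]
    0x103c0f = true := by
  decide +kernel

theorem f_3043 (h : TabsF) : FrameF repsF 336 F_3043.f :=
  frame_of rfl c_3043 (runs_of engOK r_3043_0) (by decide +kernel) h.1 h.1

def F_3044 : FrX :=
  ⟨0x2002000900044004000e020410001410008000408008010140080240020004c020010200088800022400010080004810010000004a808008001018034022,
    0xa3, 1, 0x3263738698a3, 6,
    [(0xa3, 1), (0x208693a5, 4), (0x10548793, 4), (0x217693a4, 4), (0x208693a5, 4), (0x10548793, 4)],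
    [(0x3263738698a3, 6), (0x307298a5, 4), (0x10547296, 4), (0x317286a4, 4), (0x307298a5, 4), (0x10547296, 4)]⟩

def c_3044 : frmChk tA tA F_3044 = true := by decide +kernel

def r_3044_0 : chkL rootF engF2 tA tA sA_336 sA_336 4 F_3044 [(511, 0, 0)]
    0x182e490741b = true := by
  decide +kernel

theorem f_3044 (h : TabsF) : FrameF repsF 336 F_3044.f :=
  frame_of rfl c_3044 (runs_of engOK r_3044_0) (by decide +kernel) h.1 h.1

def F_3045 : FrX :=
  ⟨0x80080a000804040e0000210100200100000204088101100102001002004200100c044000c00041020000000888040140002142008001088006220400022,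
    0xa6, 1, 0x50758697a8, 5,
    [(0xa6, 1), (0x205396a8, 4), (0x10548796, 4), (0x214396a7, 4), (0x205396a8, 4), (0x10548796, 4)],
    [(0x50758697a8, 5), (0x528397a4, 4), (0x51607498, 4), (0x608497a3, 4), (0x51607498, 4), (0x218493a7, 4), (0x435260a8, 4), (0x608497a3, 4), (0x435260a8, 4), (0x518794a3, 4), (0x608497a3, 4), (0x218493a7, 4)]⟩

def c_3045 : frmChk tA tB F_3045 = true := by decide +kernel

def r_3045_0 : chkL rootF engF2 tA tB sA_336 sB_336 4 F_3045 [(511, 0, 0)]
    0x118c0f0782e = true := by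
  decide +kernel

theorem f_3045 (h : TabsF) : FrameF repsF 336 F_3045.f :=
  frame_of rfl c_3045 (runs_of engOK r_3045_0) (by decide +kernel) h.1 h.2

def F_3046 : FrX :=
  ⟨0x80080a000804040e0000210100200100000204088101100102001002004200100c044000c00041020000000888040140002082014001308001220400021,
    0xa6, 1, 0x50758697a8, 5,
    [(0xa6, 1), (0x205396a8, 4), (0x10548796, 4), (0x214396a7, 4), (0x205396a8, 4), (0x10548796, 4)],
    [(0x50758697a8, 5), (0x528397a4, 4), (0x51607498, 4), (0x608497a3, 4), (0x51607498, 4), (0x218493a7, 4), (0x435260a8, 4), (0x608497a3, 4), (0x435260a8, 4), (0x518794a3, 4), (0x608497a3, 4), (0x218493a7, 4)]⟩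

def c_3046 : frmChk tA tB F_3046 = true := by decide +kernel

def r_3046_0 : chkL rootF engF2 tA tB sA_336 sB_336 4 F_3046 [(511, 0, 0)]
    0x148c2d = true := by
  decide +kernel

theorem f_3046 (h : TabsF) : FrameF repsF 336 F_3046.f :=
  frame_of rfl c_3046 (runs_of engOK r_3046_0) (by decide +kernel) h.1 h.2

def F_3047 : FrX :=
  ⟨0x1001040012008080000e00840800410008101000042008100101400101020000084108102020200240004800010808800004000c024200000aa100019080,
    0xa3, 1, 0x21324261758498a6, 8,
    [(0xa3, 1), (0x207584a6, 4), (0x10547693, 4), (0x647593a8, 4), (0x10547693, 4), (0x216485a7, 4), (0x208693a4, 4), (0x647593a8, 4), (0x208693a4, 4), (0x106574a8, 4), (0x647593a8, 4), (0x216485a7, 4)],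
    [(0x21324261758498a6, 8), (0x324071a9, 4), (0x32608795, 4), (0x326481a5, 4), (0x324071a9, 4), (0x32608795, 4)]⟩

def c_3047 : frmChk tB tA F_3047 = true := by decide +kernel

def r_3047_0 : chkL rootF engF2 tB tA sB_336 sA_336 4 F_3047 [(511, 0, 0)]
    0x40f05c17 = true := by
  decide +kernel

theorem f_3047 (h : TabsF) : FrameF repsF 336 F_3047.f :=
  frame_of rfl c_3047 (runs_of engOK r_3047_0) (by decide +kernel) h.2 h.1

def F_3048 : FrX :=
  ⟨0x1c4044000008081000000840080410000101084042102000020001010002020048a0200108040810014200202060024010020100410400800400b000003,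
    0x0, 0, 0x21637485, 4,
    [(0x0, 0), (0x20637584, 4), (0x105476a9, 4), (0x647583a9, 4), (0x105476a9, 4), (0x21647385, 4), (0x204386a9, 4), (0x647583a9, 4), (0x204386a9, 4), (0x10657483, 4), (0x647583a9, 4), (0x21647385, 4)],
    [(0x21637485, 4), (0x105386a9, 4), (0x205487a9, 4), (0x214376a9, 4), (0x105386a9, 4), (0x205487a9, 4)]⟩

def c_3048 : frmChk tB tA F_3048 = true := by decide +kernel

def r_3048_0 : chkL rootF engF2 tB tA sB_336 sA_336 4 F_3048 [(511, 0, 0)]
    0x42d = true := by
  decide +kernel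

theorem f_3048 (h : TabsF) : FrameF repsF 336 F_3048.f :=
  frame_of rfl c_3048 (runs_of engOK r_3048_0) (by decide +kernel) h.2 h.1

def F_3049 : FrX :=
  ⟨0x1001040012008080000e0084080041000810100004201010008802200200004044020204108010014008481001100820010000080e004008101002022020,
    0xa3, 1, 0x1061718392a6, 6,
    [(0xa3, 1), (0x207584a6, 4), (0x10547693, 4), (0x647593a8, 4), (0x10547693, 4), (0x216485a7, 4), (0x208693a4, 4), (0x647593a8, 4), (0x208693a4, 4), (0x106574a8, 4), (0x647593a8, 4), (0x216485a7, 4)],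
    [(0x1061718392a6, 6), (0x436591a8, 4), (0x205471a6, 4), (0x206583a4, 4), (0x205471a6, 4), (0x538697a4, 4), (0x208491a3, 4), (0x206583a4, 4), (0x208491a3, 4), (0x647183a5, 4), (0x206583a4, 4), (0x538697a4, 4)]⟩

def c_3049 : frmChk tB tB F_3049 = true := by decide +kernel

def r_3049_0 : chkL rootF engF2 tB tB sB_336 sB_336 4 F_3049 [(511, 0, 0)]
    0x40f06c330b8330d82b = true := by
  decide +kernel

theorem f_3049 (h : TabsF) : FrameF repsF 336 F_3049.f :=
  frame_of rfl c_3049 (runs_of engOK r_3049_0) (by decide +kernel) h.2 h.2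

def F_3050 : FrX :=
  ⟨0x1001040012008080000e0084080041000810100004200810010802200200008044020204108040814004280002040820010000080600400810100a022002,
    0xa3, 1, 0x2040637091a4, 6,
    [(0xa3, 1), (0x207584a6, 4), (0x10547693, 4), (0x647593a8, 4), (0x10547693, 4), (0x216485a7, 4), (0x208693a4, 4), (0x647593a8, 4), (0x208693a4, 4), (0x106574a8, 4), (0x647593a8, 4), (0x216485a7, 4)],
    [(0x2040637091a4, 6), (0x546370a8, 4), (0x214397a5, 4), (0x215486a3, 4), (0x214397a5, 4), (0x648590a3, 4), (0x217083a6, 4), (0x215486a3, 4), (0x217083a6, 4), (0x538697a4, 4), (0x215486a3, 4), (0x648590a3, 4)]⟩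

def c_3050 : frmChk tB tB F_3050 = true := by decide +kernel

def r_3050_0 : chkL rootF engF2 tB tB sB_336 sB_336 4 F_3050 [(511, 0, 0)]
    0x1 = true := by
  decide +kernel

theorem f_3050 (h : TabsF) : FrameF repsF 336 F_3050.f :=
  frame_of rfl c_3050 (runs_of engOK r_3050_0) (by decide +kernel) h.2 h.2

def F_3051 : FrX :=
  ⟨0x80080a000804040e000021010020010000020408822a000005002040000020801082200088401001001008008480204010000100500840c000a02900010,
    0xa6, 1, 0x304153607385a3, 7,
    [(0xa6, 1), (0x205396a8, 4), (0x10548796, 4), (0x214396a7, 4), (0x205396a8, 4), (0x10548796, 4)],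
    [(0x304153607385a3, 7), (0x306297a8, 4), (0x50648197, 4), (0x425397a1, 4), (0x306297a8, 4), (0x50648197, 4)]⟩

def c_3051 : frmChk tA tA F_3051 = true := by decide +kernel

def r_3051_0 : chkL rootF engF2 tA tA sA_336 sA_336 4 F_3051 [(511, 0, 0)]
    0x116436 = true := by
  decide +kernel

theorem f_3051 (h : TabsF) : FrameF repsF 336 F_3051.f :=
  frame_of rfl c_3051 (runs_of engOK r_3051_0) (by decide +kernel) h.1 h.1

def F_3052 : FrX :=
  ⟨0x482000044040440000c204002000900018204002000204040002028001404801040008008800418008004018842000a008010100408484000104000018,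
    0xa0, 1, 0x1020305390a2, 6,
    [(0xa0, 1), (0x538690a2, 4), (0x548790a1, 4), (0x21437690, 4), (0x538690a2, 4), (0x548790a1, 4)],
    [(0x1020305390a2, 6), (0x657284a9, 4), (0x31427690, 4), (0x31647285, 4), (0x31427690, 4), (0x647582a0, 4), (0x315486a9, 4), (0x31647285, 4), (0x315486a9, 4), (0x62748590, 4), (0x31647285, 4), (0x647582a0, 4)]⟩

def c_3052 : frmChk tA tB F_3052 = true := by decide +kernel

def r_3052_0 : chkL rootF engF2 tA tB sA_336 sB_336 4 F_3052 [(511, 0, 0)]
    0x1a282b = true := by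
  decide +kernel

theorem f_3052 (h : TabsF) : FrameF repsF 336 F_3052.f :=
  frame_of rfl c_3052 (runs_of engOK r_3052_0) (by decide +kernel) h.1 h.2

def F_3053 : FrX :=
  ⟨0x2002000900044004000e0204100014100080004080800200912000020800a202020200004080004220800020880800141081010002201000000804212208,
    0xa3, 1, 0x326185a4, 4,
    [(0xa3, 1), (0x208693a5, 4), (0x10548793, 4), (0x217693a4, 4), (0x208693a5, 4), (0x10548793, 4)],
    [(0x326185a4, 4), (0x213087a5, 4), (0x607194a8, 4), (0x528794a1, 4), (0x607194a8, 4), (0x637285a1, 4), (0x305194a2, 4), (0x528794a1, 4), (0x305194a2, 4), (0x526081a7, 4), (0x528794a1, 4), (0x637285a1, 4)]⟩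

def c_3053 : frmChk tA tB F_3053 = true := by decide +kernel

def r_3053_0 : chkL rootF engF2 tA tB sA_336 sB_336 4 F_3053 [(511, 0, 0)]
    0x12c53205c1711e4ad083905c173282b14c35 = true := by
  decide +kernel

theorem f_3053 (h : TabsF) : FrameF repsF 336 F_3053.f :=
  frame_of rfl c_3053 (runs_of engOK r_3053_0) (by decide +kernel) h.1 h.2

def F_3054 : FrX :=
  ⟨0x80080a000804040e00002101002001000002040881011001020010020042004004014040c00041020000000888040140002082014000608004a24420000,
    0xa6, 1, 0x315160758398a6, 7,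
    [(0xa6, 1), (0x205396a8, 4), (0x10548796, 4), (0x214396a7, 4), (0x205396a8, 4), (0x10548796, 4)],
    [(0x315160758398a6, 7), (0x627394a8, 4), (0x106574a3, 4), (0x107398a4, 4), (0x106574a3, 4), (0x528397a4, 4), (0x106284a9, 4), (0x107398a4, 4), (0x106284a9, 4), (0x436598a7, 4), (0x107398a4, 4), (0x528397a4, 4)]⟩

def c_3054 : frmChk tA tB F_3054 = true := by decide +kernel

def r_3054_0 : chkL rootF engF2 tA tB sA_336 sB_336 4 F_3054 [(511, 0, 0)]
    0x14681e12c5a03c5c168471c85c1700f = true := by
  decide +kernel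

theorem f_3054 (h : TabsF) : FrameF repsF 336 F_3054.f :=
  frame_of rfl c_3054 (runs_of engOK r_3054_0) (by decide +kernel) h.1 h.2

def F_3055 : FrX :=
  ⟨0x80080a000804040e000021010020010000020408a00010011000248004802020000810404000850100400011124024080040080030004005008c0808000,
    0xa6, 1, 0x10407392a4, 5,
    [(0xa6, 1), (0x205396a8, 4), (0x10548796, 4), (0x214396a7, 4), (0x205396a8, 4), (0x10548796, 4)],
    [(0x10407392a4, 5), (0x537694a8, 4), (0x214063a5, 4), (0x215387a6, 4), (0x214063a5, 4), (0x738590a6, 4), (0x218694a7, 4), (0x215387a6, 4), (0x218694a7, 4), (0x406587a3, 4), (0x215387a6, 4), (0x738590a6, 4)]⟩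

def c_3055 : frmChk tA tB F_3055 = true := by decide +kernel

def r_3055_0 : chkL rootF engF2 tA tB sA_336 sB_336 4 F_3055 [(511, 0, 0)]
    0x42b238a9 = true := by
  decide +kernel

theorem f_3055 (h : TabsF) : FrameF repsF 336 F_3055.f :=
  frame_of rfl c_3055 (runs_of engOK r_3055_0) (by decide +kernel) h.1 h.2

def F_3056 : FrX :=
  ⟨0x1001040012008080000e00840800410008101000040500004420010040000882808200082100104100204202010040410014000401200480500000043002,
    0xa3, 1, 0x3241658192a4, 6,
    [(0xa3, 1), (0x207584a6, 4), (0x10547693, 4), (0x647593a8, 4), (0x10547693, 4), (0x216485a7, 4), (0x208693a4, 4), (0x647593a8, 4), (0x208693a4, 4), (0x106574a8, 4), (0x647593a8, 4), (0x216485a7, 4)],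
    [(0x3241658192a4, 6), (0x527690a4, 4), (0x317580a6, 4), (0x314276a5, 4), (0x317580a6, 4), (0x647298a5, 4), (0x315490a2, 4), (0x314276a5, 4), (0x315490a2, 4), (0x426580a7, 4), (0x314276a5, 4), (0x647298a5, 4)]⟩

def c_3056 : frmChk tB tB F_3056 = true := by decide +kernel

def r_3056_0 : chkL rootF engF2 tB tB sB_336 sB_336 4 F_3056 [(511, 0, 0)]
    0x42b06c56 = true := by
  decide +kernel

theorem f_3056 (h : TabsF) : FrameF repsF 336 F_3056.f :=
  frame_of rfl c_3056 (runs_of engOK r_3056_0) (by decide +kernel) h.2 h.2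

theorem cl_336 (h : TabsF) : ∀ f ∈ fr_336, FrameF repsF 336 f :=
  List.forall_mem_cons.2 ⟨f_3029 h, List.forall_mem_cons.2 ⟨f_3030 h, List.forall_mem_cons.2 ⟨f_3031 h, List.forall_mem_cons.2 ⟨f_3032 h, List.forall_mem_cons.2 ⟨f_3033 h, List.forall_mem_cons.2 ⟨f_3034 h, List.forall_mem_cons.2 ⟨f_3035 h, List.forall_mem_cons.2 ⟨f_3036 h, List.forall_mem_cons.2 ⟨f_3037 h, List.forall_mem_cons.2 ⟨f_3038 h, List.forall_mem_cons.2 ⟨f_3039 h, List.forall_mem_cons.2 ⟨f_3040 h, List.forall_mem_cons.2 ⟨f_3041 h, List.forall_mem_cons.2 ⟨f_3042 h, List.forall_mem_cons.2 ⟨f_3043 h, List.forall_mem_cons.2 ⟨f_3044 h, List.forall_mem_cons.2 ⟨f_3045 h, List.forall_mem_cons.2 ⟨f_3046 h, List.forall_mem_cons.2 ⟨f_3047 h, List.forall_mem_cons.2 ⟨f_3048 h, List.forall_mem_cons.2 ⟨f_3049 h, List.forall_mem_cons.2 ⟨f_3050 h, List.forall_mem_cons.2 ⟨f_3051 h, List.forall_mem_cons.2 ⟨f_3052 h, List.forall_mem_cons.2 ⟨f_3053 h, List.forall_mem_cons.2 ⟨f_3054 h, List.forall_mem_cons.2 ⟨f_3055 h, List.forall_mem_cons.2 ⟨f_3056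 h,
    fun _ h0 => absurd h0 List.not_mem_nil⟩⟩⟩⟩⟩⟩⟩⟩⟩⟩⟩⟩⟩⟩⟩⟩⟩⟩⟩⟩⟩⟩⟩⟩⟩⟩⟩⟩

def F_3057 : FrX :=
  ⟨0x2002000900044004000e02041000141000800040800404002810100810202100100120001208400124002080400048008040448001200100204010204004,
    0xa3, 1, 0x21304153628696a0, 8,
    [(0xa3, 1), (0x208693a5, 4), (0x10548793, 4), (0x217693a4, 4), (0x208693a5, 4), (0x10548793, 4)],
    [(0x21304153628696a0, 8), (0x508391a6, 4), (0x207183a4, 4), (0x52648397, 4), (0x508391a6, 4), (0x207183a4, 4)]⟩

def c_3057 : frmChk tA tA F_3057 = true := by decide +kernel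

def r_3057_0 : chkL rootF engF2 tA tA sA_337 sA_337 4 F_3057 [(511, 0, 0)]
    0x43344c330740f = true := by
  decide +kernel

theorem f_3057 (h : TabsF) : FrameF repsF 337 F_3057.f :=
  frame_of rfl c_3057 (runs_of engOK r_3057_0) (by decide +kernel) h.1 h.1

def F_3058 : FrX :=
  ⟨0x2002000900044004000e0204100014100080004080400102008402404200088020008802a0080040082001110040001005008000300084c4000024000201,
    0xa3, 1, 0x3250708494a2, 6,
    [(0xa3, 1), (0x208693a5, 4), (0x10548793, 4), (0x217693a4, 4), (0x208693a5, 4), (0x10548793, 4)],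
    [(0x3250708494a2, 6), (0x206483a7, 4), (0x54718390, 4), (0x658392a1, 4), (0x206483a7, 4), (0x54718390, 4)]⟩

def c_3058 : frmChk tA tA F_3058 = true := by decide +kernel

def r_3058_0 : chkL rootF engF2 tA tA sA_337 sA_337 4 F_3058 [(511, 0, 0)]
    0x5a40b82d17027 = true := by
  decide +kernel

theorem f_3058 (h : TabsF) : FrameF repsF 337 F_3058.f :=
  frame_of rfl c_3058 (runs_of engOK r_3058_0) (by decide +kernel) h.1 h.1

def F_3059 : FrX :=
  ⟨0x80080a000804040e000021010020010000020408a000100110009002014202200002400a400804208000201100108100401402010280000044011008200,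
    0xa6, 1, 0x1054628397a1, 6,
    [(0xa6, 1), (0x205396a8, 4), (0x10548796, 4), (0x214396a7, 4), (0x205396a8, 4), (0x10548796, 4)],
    [(0x1054628397a1, 6), (0x32617084, 4), (0x547093a1, 4), (0x708592a6, 4), (0x32617084, 4), (0x547093a1, 4)]⟩

def c_3059 : frmChk tA tA F_3059 = true := by decide +kernel

def r_3059_0 : chkL rootF engF2 tA tA sA_337 sA_337 4 F_3059 [(511, 0, 0)]
    0x114c0f5325103c2d07543 = true := by
  decide +kernel

theorem f_3059 (h : TabsF) : FrameF repsF 337 F_3059.f :=
  frame_of rfl c_3059 (runs_of engOK r_3059_0) (by decide +kernel) h.1 h.1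

def F_3060 : FrX :=
  ⟨0x482000044040440000c204002000900018204000220010010804000841010180020040120140002080a008004101400040248022200800100800200440,
    0xa0, 1, 0x10315061708691a0, 8,
    [(0xa0, 1), (0x538690a2, 4), (0x548790a1, 4), (0x21437690, 4), (0x538690a2, 4), (0x548790a1, 4)],
    [(0x10315061708691a0, 8), (0x107683a2, 4), (0x415376a9, 4), (0x40768592, 4), (0x107683a2, 4), (0x415376a9, 4)]⟩

def c_3060 : frmChk tA tA F_3060 = true := by decide +kernel

def r_3060_0 : chkL rootF engF2 tA tA sA_337 sA_337 4 F_3060 [(511, 0, 0)]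
    0x103c0f4a8554a84705c5305c0f03c0f = true := by
  decide +kernel

theorem f_3060 (h : TabsF) : FrameF repsF 337 F_3060.f :=
  frame_of rfl c_3060 (runs_of engOK r_3060_0) (by decide +kernel) h.1 h.1

def F_3061 : FrX :=
  ⟨0x2002000900044004000e020410001410008000408008890400102000082004010001030020280020002024004040480088400080808105202004000c0080,
    0xa3, 1, 0x41728692a2, 5,
    [(0xa3, 1), (0x208693a5, 4), (0x10548793, 4), (0x217693a4, 4), (0x208693a5, 4), (0x10548793, 4)],
    [(0x41728692a2, 5), (0x538697a0, 4), (0x40516297, 4), (0x318297a4, 4), (0x538697a0, 4), (0x40516297, 4)]⟩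

def c_3061 : frmChk tA tA F_3061 = true := by decide +kernel

def r_3061_0 : chkL rootF engF2 tA tA sA_337 sA_337 4 F_3061 [(511, 0, 0)]
    0x103c5c0f033 = true := by
  decide +kernel

theorem f_3061 (h : TabsF) : FrameF repsF 337 F_3061.f :=
  frame_of rfl c_3061 (runs_of engOK r_3061_0) (by decide +kernel) h.1 h.1

def F_3062 : FrX :=
  ⟨0x482000044040440000c2040020009000182040001200028000900200280404100080060001040840880209000100140100142008028000401020400210,
    0xa0, 1, 0x40607292a0, 5,
    [(0xa0, 1), (0x538690a2, 4), (0x548790a1, 4), (0x21437690, 4), (0x538690a2, 4), (0x548790a1, 4)],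
    [(0x40607292a0, 5), (0x537684a9, 4), (0x507682a1, 4), (0x30427691, 4), (0x537684a9, 4), (0x507682a1, 4)]⟩

def c_3062 : frmChk tA tA F_3062 = true := by decide +kernel

def r_3062_0 : chkL rootF engF2 tA tA sA_337 sA_337 4 F_3062 [(511, 0, 0)]
    0x105c172388e3181b06c5303c2709c352381b31447195640b70903cc9 = true := by
  decide +kernel

theorem f_3062 (h : TabsF) : FrameF repsF 337 F_3062.f :=
  frame_of rfl c_3062 (runs_of engOK r_3062_0) (by decide +kernel) h.1 h.1

def F_3063 : FrX :=
  ⟨0x482000044040440000c2040020009000182040000442010108040080020028008802004050400410800020204001080c48001004200801100002200401,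
    0xa0, 1, 0x51647682a0, 5,
    [(0xa0, 1), (0x538690a2, 4), (0x548790a1, 4), (0x21437690, 4), (0x538690a2, 4), (0x548790a1, 4)],
    [(0x51647682a0, 5), (0x416273a8, 4), (0x617490a5, 4), (0x32417690, 4), (0x617490a5, 4), (0x21437685, 4), (0x637290a8, 4), (0x32417690, 4), (0x637290a8, 4), (0x326471a5, 4), (0x32417690, 4), (0x21437685, 4)]⟩

def c_3063 : frmChk tA tB F_3063 = true := by decide +kernel

def r_3063_0 : chkL rootF engF2 tA tB sA_337 sB_337 4 F_3063 [(511, 0, 0)]
    0x516c6056 = true := by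
  decide +kernel

theorem f_3063 (h : TabsF) : FrameF repsF 337 F_3063.f :=
  frame_of rfl c_3063 (runs_of engOK r_3063_0) (by decide +kernel) h.1 h.2

def F_3064 : FrX :=
  ⟨0x482000044040440000c204002000900018204001008008010100018002010180c800010000048200046220408001040084010110201002010800040084,
    0xa0, 1, 0x4350748795a6, 6,
    [(0xa0, 1), (0x538690a2, 4), (0x548790a1, 4), (0x21437690, 4), (0x538690a2, 4), (0x548790a1, 4)],
    [(0x4350748795a6, 6), (0x526094a3, 4), (0x51608397, 4), (0x216074a8, 4), (0x526094a3, 4), (0x51608397, 4)]⟩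

def c_3064 : frmChk tA tA F_3064 = true := by decide +kernel

def r_3064_0 : chkL rootF engF2 tA tA sA_337 sA_337 4 F_3064 [(511, 0, 0)]
    0x10782b03c0f0ad294972122d45590b1 = true := by
  decide +kernel

theorem f_3064 (h : TabsF) : FrameF repsF 337 F_3064.f :=
  frame_of rfl c_3064 (runs_of engOK r_3064_0) (by decide +kernel) h.1 h.1

def F_3065 : FrX :=
  ⟨0x80080a000804040e00002101002001000002040882020401020010008014004020111000844001008308000808040410024040022001320008080800080,
    0xa6, 1, 0x32435364718798a3, 8,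
    [(0xa6, 1), (0x205396a8, 4), (0x10548796, 4), (0x214396a7, 4), (0x205396a8, 4), (0x10548796, 4)],
    [(0x32435364718798a3, 8), (0x305192a4, 4), (0x51647098, 4), (0x517382a6, 4), (0x305192a4, 4), (0x51647098, 4)]⟩

def c_3065 : frmChk tA tA F_3065 = true := by decide +kernel

def r_3065_0 : chkL rootF engF2 tA tA sA_337 sA_337 4 F_3065 [(511, 0, 0)]
    0x4178368c1705c = true := by
  decide +kernel

theorem f_3065 (h : TabsF) : FrameF repsF 337 F_3065.f :=
  frame_of rfl c_3065 (runs_of engOK r_3065_0) (by decide +kernel) h.1 h.1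

def F_3066 : FrX :=
  ⟨0x2002000900044004000e02041000141000800040800400484001202012000c0002002402000404000c060150800000801080080084005006020202001001,
    0xa3, 1, 0x10435163708697a6, 8,
    [(0xa3, 1), (0x208693a5, 4), (0x10548793, 4), (0x217693a4, 4), (0x208693a5, 4), (0x10548793, 4)],
    [(0x10435163708697a6, 8), (0x607281a4, 4), (0x30758194, 4), (0x526381a9, 4), (0x607281a4, 4), (0x30758194, 4)]⟩

def c_3066 : frmChk tA tA F_3066 = true := by decide +kernel

def r_3066_0 : chkL rootF engF2 tA tA sA_337 sA_337 4 F_3066 [(511, 0, 0)]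
    0x11382e0b81712c2b = true := by
  decide +kernel

theorem f_3066 (h : TabsF) : FrameF repsF 337 F_3066.f :=
  frame_of rfl c_3066 (runs_of engOK r_3066_0) (by decide +kernel) h.1 h.1

def F_3067 : FrX :=
  ⟨0x2002000900044004000e02041000141000800040800801014010080101000182008204020004088010c00216000000040300201010080820400011400201,
    0xa3, 1, 0x104350608098a2, 7,
    [(0xa3, 1), (0x208693a5, 4), (0x10548793, 4), (0x217693a4, 4), (0x208693a5, 4), (0x10548793, 4)],
    [(0x104350608098a2, 7), (0x416295a8, 4), (0x31628097, 4), (0x436275a0, 4), (0x416295a8, 4), (0x31628097, 4)]⟩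

def c_3067 : frmChk tA tA F_3067 = true := by decide +kernel

def r_3067_0 : chkL rootF engF2 tA tA sA_337 sA_337 4 F_3067 [(511, 0, 0)]
    0x41b06d8a21cb1e04568a788 = true := by
  decide +kernel

theorem f_3067 (h : TabsF) : FrameF repsF 337 F_3067.f :=
  frame_of rfl c_3067 (runs_of engOK r_3067_0) (by decide +kernel) h.1 h.1

def F_3068 : FrX :=
  ⟨0x80080a000804040e000021010020010000020408a00004015004008084410000210100000440210080680008080018020040010060c1000060080808080,
    0xa6, 1, 0x203142546274a3, 7,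
    [(0xa6, 1), (0x205396a8, 4), (0x10548796, 4), (0x214396a7, 4), (0x205396a8, 4), (0x10548796, 4)],
    [(0x203142546274a3, 7), (0x628491a0, 4), (0x32708591, 4), (0x546391a7, 4), (0x628491a0, 4), (0x32708591, 4)]⟩

def c_3068 : frmChk tA tA F_3068 = true := by decide +kernel

def r_3068_0 : chkL rootF engF2 tA tA sA_337 sA_337 4 F_3068 [(511, 0, 0)]
    0x48706c2b2c81b = true := by
  decide +kernel

theorem f_3068 (h : TabsF) : FrameF repsF 337 F_3068.f :=
  frame_of rfl c_3068 (runs_of engOK r_3068_0) (by decide +kernel) h.1 h.1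

def F_3069 : FrX :=
  ⟨0x2002000900044004000e0204100014100080004081001808401000011100040202002400080404040c00014080004801010008108084002000e042201000,
    0xa3, 1, 0x43728592a2, 5,
    [(0xa3, 1), (0x208693a5, 4), (0x10548793, 4), (0x217693a4, 4), (0x208693a5, 4), (0x10548793, 4)],
    [(0x43728592a2, 5), (0x536482a0, 4), (0x10628397, 4), (0x54638297, 4), (0x10628397, 4), (0x426385a1, 4), (0x436597a0, 4), (0x54638297, 4), (0x436597a0, 4), (0x10325486, 4), (0x54638297, 4), (0x426385a1, 4)]⟩

def c_3069 : frmChk tA tB F_3069 = true := by decide +kernel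

def r_3069_0 : chkL rootF engF2 tA tB sA_337 sB_337 4 F_3069 [(511, 0, 0)]
    0x111c0f03c651d21ad4252 = true := by
  decide +kernel

theorem f_3069 (h : TabsF) : FrameF repsF 337 F_3069.f :=
  frame_of rfl c_3069 (runs_of engOK r_3069_0) (by decide +kernel) h.1 h.2

def F_3070 : FrX :=
  ⟨0x80080a000804040e000021010020010000020408a0001001100090020242001000034000400541020020000882101140002002000400508004221280000,
    0xa6, 1, 0x2160748395a6, 6,
    [(0xa6, 1), (0x205396a8, 4), (0x10548796, 4), (0x214396a7, 4), (0x205396a8, 4), (0x10548796, 4)],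
    [(0x2160748395a6, 6), (0x506198a3, 4), (0x43506297, 4), (0x215087a4, 4), (0x506198a3, 4), (0x43506297, 4)]⟩

def c_3070 : frmChk tA tA F_3070 = true := by decide +kernel

def r_3070_0 : chkL rootF engF2 tA tA sA_337 sA_337 4 F_3070 [(511, 0, 0)]
    0x41d06c1d06c1d138f003c0f24c1e = true := by
  decide +kernel

theorem f_3070 (h : TabsF) : FrameF repsF 337 F_3070.f :=
  frame_of rfl c_3070 (runs_of engOK r_3070_0) (by decide +kernel) h.1 h.1

def F_3071 : FrX :=
  ⟨0x2002000900044004000e02041000141000800040801001021010200018202101000204001028000424040200401408008040008080a0000020402140c080,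
    0xa3, 1, 0x3262768292a3, 6,
    [(0xa3, 1), (0x208693a5, 4), (0x10548793, 4), (0x217693a4, 4), (0x208693a5, 4), (0x10548793, 4)],
    [(0x3262768292a3, 6), (0x768290a5, 4), (0x10546382, 4), (0x738291a4, 4), (0x768290a5, 4), (0x10546382, 4)]⟩

def c_3071 : frmChk tA tA F_3071 = true := by decide +kernel

def r_3071_0 : chkL rootF engF2 tA tA sA_337 sA_337 4 F_3071 [(511, 0, 0)]
    0x43505c3506c171342703c1e0744d03c1d9500f = true := by
  decide +kernel

theorem f_3071 (h : TabsF) : FrameF repsF 337 F_3071.f :=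
  frame_of rfl c_3071 (runs_of engOK r_3071_0) (by decide +kernel) h.1 h.1

def F_3072 : FrX :=
  ⟨0x80080a000804040e000021010020010000020408a0001001100090020242002004024000400049020300000918001140002002014001008000a10460000,
    0xa6, 1, 0x213241527196a3, 7,
    [(0xa6, 1), (0x205396a8, 4), (0x10548796, 4), (0x214396a7, 4), (0x205396a8, 4), (0x10548796, 4)],
    [(0x213241527196a3, 7), (0x506198a3, 4), (0x32617084, 4), (0x617594a2, 4), (0x506198a3, 4), (0x32617084, 4)]⟩

def c_3072 : frmChk tA tA F_3072 = true := by decide +kernel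

def r_3072_0 : chkL rootF engF2 tA tA sA_337 sA_337 4 F_3072 [(511, 0, 0)]
    0x456 = true := by
  decide +kernel

theorem f_3072 (h : TabsF) : FrameF repsF 337 F_3072.f :=
  frame_of rfl c_3072 (runs_of engOK r_3072_0) (by decide +kernel) h.1 h.1

def F_3073 : FrX :=
  ⟨0x2002000900044004000e02041000141000800040800801011088024002000180200108020008500024020110800000101100800040408808002016004014,
    0xa3, 1, 0x30415084a3, 5,
    [(0xa3, 1), (0x208693a5, 4), (0x10548793, 4), (0x217693a4, 4), (0x208693a5, 4), (0x10548793, 4)],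
    [(0x30415084a3, 5), (0x526190a3, 4), (0x54718390, 4), (0x427690a8, 4), (0x526190a3, 4), (0x54718390, 4)]⟩

def c_3073 : frmChk tA tA F_3073 = true := by decide +kernel

def r_3073_0 : chkL rootF engF2 tA tA sA_337 sA_337 4 F_3073 [(511, 0, 0)]
    0x11383905c0f0cca31685512c4e1580f = true := by
  decide +kernel

theorem f_3073 (h : TabsF) : FrameF repsF 337 F_3073.f :=
  frame_of rfl c_3073 (runs_of engOK r_3073_0) (by decide +kernel) h.1 h.1

def F_3074 : FrX :=
  ⟨0x482000044040440000c2040020009000182040001012080000900200080401010032020001040020806021009000140100082008508080006000800240,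
    0xa0, 1, 0x20628395a6, 5,
    [(0xa0, 1), (0x538690a2, 4), (0x548790a1, 4), (0x21437690, 4), (0x538690a2, 4), (0x548790a1, 4)],
    [(0x20628395a6, 5), (0x436297a8, 4), (0x215094a7, 4), (0x508397a4, 4), (0x215094a7, 4), (0x618793a4, 4), (0x506284a3, 4), (0x508397a4, 4), (0x506284a3, 4), (0x217483a9, 4), (0x508397a4, 4), (0x618793a4, 4)]⟩

def c_3074 : frmChk tA tB F_3074 = true := by decide +kernel

def r_3074_0 : chkL rootF engF2 tA tB sA_337 sB_337 4 F_3074 [(511, 0, 0)]
    0x41e = true := by
  decide +kernel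

theorem f_3074 (h : TabsF) : FrameF repsF 337 F_3074.f :=
  frame_of rfl c_3074 (runs_of engOK r_3074_0) (by decide +kernel) h.1 h.2

def F_3075 : FrX :=
  ⟨0x1c2102000004044000002041000101000082040888081000020000404000182008604008020810410800201110100400248008022600800500010280000,
    0x0, 0, 0x647583, 3,
    [(0x0, 0), (0x205386a9, 4), (0x105487a9, 4), (0x214376a9, 4), (0x205386a9, 4), (0x105487a9, 4)],
    [(0x647583, 3), (0x204387a9, 4), (0x105376a9, 4), (0x215486a9, 4), (0x204387a9, 4), (0x105376a9, 4)]⟩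

def c_3075 : frmChk tA tA F_3075 = true := by decide +kernel

def r_3075_0 : chkL rootF engF2 tA tA sA_337 sA_337 4 F_3075 [(511, 0, 0)]
    0x116833 = true := by
  decide +kernel

theorem f_3075 (h : TabsF) : FrameF repsF 337 F_3075.f :=
  frame_of rfl c_3075 (runs_of engOK r_3075_0) (by decide +kernel) h.1 h.1

def F_3076 : FrX :=
  ⟨0x2002000900044004000e0204100014100080004080040102109020001020210100020400140c00040c010004001008008000088080a000006042200a9000,
    0xa3, 1, 0x304150637580a6, 7,
    [(0xa3, 1), (0x208693a5, 4), (0x10548793, 4), (0x217693a4, 4), (0x208693a5, 4), (0x10548793, 4)],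
    [(0x304150637580a6, 7), (0x768290a5, 4), (0x53718490, 4), (0x426190a3, 4), (0x768290a5, 4), (0x53718490, 4)]⟩

def c_3076 : frmChk tA tA F_3076 = true := by decide +kernel

def r_3076_0 : chkL rootF engF2 tA tA sA_337 sA_337 4 F_3076 [(511, 0, 0)]
    0x42b0d417 = true := by
  decide +kernel

theorem f_3076 (h : TabsF) : FrameF repsF 337 F_3076.f :=
  frame_of rfl c_3076 (runs_of engOK r_3076_0) (by decide +kernel) h.1 h.1

def F_3077 : FrX :=
  ⟨0x80080a000804040e000021010020010000020408a0001001100110008242004020014000400049020020000888001140008102030401008006224080000,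
    0xa6, 1, 0x213162758192a8, 7,
    [(0xa6, 1), (0x205396a8, 4), (0x10548796, 4), (0x214396a7, 4), (0x205396a8, 4), (0x10548796, 4)],
    [(0x213162758192a8, 7), (0x637290a1, 4), (0x637480a5, 4), (0x42516398, 4), (0x637290a1, 4), (0x637480a5, 4)]⟩

def c_3077 : frmChk tA tA F_3077 = true := by decide +kernel

def r_3077_0 : chkL rootF engF2 tA tA sA_337 sA_337 4 F_3077 [(511, 0, 0)]
    0x11c9450d45a1342b2a8a906c4d16607835525c063 = true := by
  decide +kernel

theorem f_3077 (h : TabsF) : FrameF repsF 337 F_3077.f :=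
  frame_of rfl c_3077 (runs_of engOK r_3077_0) (by decide +kernel) h.1 h.1

def F_3078 : FrX :=
  ⟨0x482000044040440000c204002000900018204001002002800800008402018820840000100108084080046100100140004800800a200202100802000084,
    0xa0, 1, 0x30506392a7, 5,
    [(0xa0, 1), (0x538690a2, 4), (0x548790a1, 4), (0x21437690, 4), (0x538690a2, 4), (0x548790a1, 4)],
    [(0x30506392a7, 5), (0x608495a3, 4), (0x435172a0, 4), (0x407286a3, 4), (0x435172a0, 4), (0x408391a6, 4), (0x64728095, 4), (0x407286a3, 4), (0x64728095, 4), (0x305186a4, 4), (0x407286a3, 4), (0x408391a6, 4)]⟩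

def c_3078 : frmChk tA tB F_3078 = true := by decide +kernel

def r_3078_0 : chkL rootF engF2 tA tB sA_337 sB_337 4 F_3078 [(511, 0, 0)]
    0x11382b = true := by
  decide +kernel

theorem f_3078 (h : TabsF) : FrameF repsF 337 F_3078.f :=
  frame_of rfl c_3078 (runs_of engOK r_3078_0) (by decide +kernel) h.1 h.2

def F_3079 : FrX :=
  ⟨0x80080a000804040e000021010020010000020408a0001001100090020242004008014000400049020020000888010148000042010221000006020600402,
    0xa6, 1, 0x314151628298a6, 7,
    [(0xa6, 1), (0x205396a8, 4), (0x10548796, 4), (0x214396a7, 4), (0x205396a8, 4), (0x10548796, 4)],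
    [(0x314151628298a6, 7), (0x416280a9, 4), (0x43506297, 4), (0x316285a7, 4), (0x416280a9, 4), (0x43506297, 4)]⟩

def c_3079 : frmChk tA tA F_3079 = true := by decide +kernel

def r_3079_0 : chkL rootF engF2 tA tA sA_337 sA_337 4 F_3079 [(511, 0, 0)]
    0x45a16a1996036 = true := by
  decide +kernel

theorem f_3079 (h : TabsF) : FrameF repsF 337 F_3079.f :=
  frame_of rfl c_3079 (runs_of engOK r_3079_0) (by decide +kernel) h.1 h.1

def F_3080 : FrX :=
  ⟨0x2002000900044004000e020410001410008000408004a102001020001020010100020480102800900c000011000408008040008080a080006040200a1002,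
    0xa3, 1, 0x40536571a1, 5,
    [(0xa3, 1), (0x208693a5, 4), (0x10548793, 4), (0x217693a4, 4), (0x208693a5, 4), (0x10548793, 4)],
    [(0x40536571a1, 5), (0x42658397, 4), (0x608197a4, 4), (0x315097a2, 4), (0x42658397, 4), (0x608197a4, 4)]⟩

def c_3080 : frmChk tA tA F_3080 = true := by decide +kernel

def r_3080_0 : chkL rootF engF2 tA tA sA_337 sA_337 4 F_3080 [(511, 0, 0)]
    0x40f03c27 = true := by
  decide +kernel

theorem f_3080 (h : TabsF) : FrameF repsF 337 F_3080.f :=
  frame_of rfl c_3080 (runs_of engOK r_3080_0) (by decide +kernel) h.1 h.1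

def F_3081 : FrX :=
  ⟨0x482000044040440000c204002000900018204001001004800800008402010820844001001128040080043010000150004800000a200800100802000884,
    0xa0, 1, 0x435464708592a6, 7,
    [(0xa0, 1), (0x538690a2, 4), (0x548790a1, 4), (0x21437690, 4), (0x538690a2, 4), (0x548790a1, 4)],
    [(0x435464708592a6, 7), (0x638097a4, 4), (0x527186a0, 4), (0x435280a6, 4), (0x527186a0, 4), (0x408391a6, 4), (0x526497a3, 4), (0x435280a6, 4), (0x526497a3, 4), (0x436071a8, 4), (0x435280a6, 4), (0x408391a6, 4)]⟩

def c_3081 : frmChk tA tB F_3081 = true := by decide +kernel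

def r_3081_0 : chkL rootF engF2 tA tB sA_337 sB_337 4 F_3081 [(511, 0, 0)]
    0x41e = true := by
  decide +kernel

theorem f_3081 (h : TabsF) : FrameF repsF 337 F_3081.f :=
  frame_of rfl c_3081 (runs_of engOK r_3081_0) (by decide +kernel) h.1 h.2

def F_3082 : FrX :=
  ⟨0x482000044040440000c204002000900018204002000104200002018401405001008000008b00018008020000e02000a008010018008484000024000201,
    0xa0, 1, 0x10324261748494a6, 8,
    [(0xa0, 1), (0x538690a2, 4), (0x548790a1, 4), (0x21437690, 4), (0x538690a2, 4), (0x548790a1, 4)],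
    [(0x10324261748494a6, 8), (0x415280a7, 4), (0x61738095, 4), (0x648092a3, 4), (0x415280a7, 4), (0x61738095, 4)]⟩

def c_3082 : frmChk tA tA F_3082 = true := by decide +kernel

def r_3082_0 : chkL rootF engF2 tA tA sA_337 sA_337 4 F_3082 [(511, 0, 0)]
    0x106c1b0750e0f01b = true := by
  decide +kernel

theorem f_3082 (h : TabsF) : FrameF repsF 337 F_3082.f :=
  frame_of rfl c_3082 (runs_of engOK r_3082_0) (by decide +kernel) h.1 h.1

def F_3083 : FrX :=
  ⟨0x2002000900044004000e02041000141000800040810000082080802402004080140280010120010234020400400010002040020005001020440110008050,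
    0xa3, 1, 0x3153748691a3, 6,
    [(0xa3, 1), (0x208693a5, 4), (0x10548793, 4), (0x217693a4, 4), (0x208693a5, 4), (0x10548793, 4)],
    [(0x3153748691a3, 6), (0x204176a8, 4), (0x53718490, 4), (0x415387a6, 4), (0x53718490, 4), (0x618792a4, 4), (0x205386a7, 4), (0x415387a6, 4), (0x205386a7, 4), (0x748190a6, 4), (0x415387a6, 4), (0x618792a4, 4)]⟩

def c_3083 : frmChk tA tB F_3083 = true := by decide +kernel

def r_3083_0 : chkL rootF engF2 tA tB sA_337 sB_337 4 F_3083 [(511, 0, 0)]
    0x103c0f = true := by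
  decide +kernel

theorem f_3083 (h : TabsF) : FrameF repsF 337 F_3083.f :=
  frame_of rfl c_3083 (runs_of engOK r_3083_0) (by decide +kernel) h.1 h.2

def F_3084 : FrX :=
  ⟨0x80080a000804040e0000210100200100000204088120000140403000001200801002409004008800418820101001000024000103000090c000111080001,
    0xa6, 1, 0x3242748491a7, 6,
    [(0xa6, 1), (0x205396a8, 4), (0x10548796, 4), (0x214396a7, 4), (0x205396a8, 4), (0x10548796, 4)],
    [(0x3242748491a7, 6), (0x406287a5, 4), (0x318590a6, 4), (0x317286a5, 4), (0x318590a6, 4), (0x758694a2, 4), (0x31407682, 4), (0x317286a5, 4), (0x31407682, 4), (0x657290a8, 4), (0x317286a5, 4), (0x758694a2, 4)]⟩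

def c_3084 : frmChk tA tB F_3084 = true := by decide +kernel

def r_3084_0 : chkL rootF engF2 tA tB sA_337 sB_337 4 F_3084 [(511, 0, 0)]
    0x13505944d521b017 = true := by
  decide +kernel

theorem f_3084 (h : TabsF) : FrameF repsF 337 F_3084.f :=
  frame_of rfl c_3084 (runs_of engOK r_3084_0) (by decide +kernel) h.1 h.2

theorem cl_337 (h : TabsF) : ∀ f ∈ fr_337, FrameF repsF 337 f :=
  List.forall_mem_cons.2 ⟨f_3057 h, List.forall_mem_cons.2 ⟨f_3058 h, List.forall_mem_cons.2 ⟨f_3059 h, List.forall_mem_cons.2 ⟨f_3060 h, List.forall_mem_cons.2 ⟨f_3061 h, List.forall_mem_cons.2 ⟨f_3062 h, List.forall_mem_cons.2 ⟨f_3063 h, List.forall_mem_cons.2 ⟨f_3064 h, List.forall_mem_cons.2 ⟨f_3065 h, List.forall_mem_cons.2 ⟨f_3066 h, List.forall_mem_cons.2 ⟨f_3067 h, List.forall_mem_cons.2 ⟨f_3068 h, List.forall_mem_cons.2 ⟨f_3069 h, List.forall_mem_cons.2 ⟨f_3070 h, List.forall_mem_cons.2 ⟨f_3071 h, List.forall_mem_cons.2 ⟨f_3072 h, List.forall_mem_cons.2 ⟨f_3073 h, List.forall_mem_cons.2 ⟨f_3074 h, List.forall_mem_cons.2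 ⟨f_3075 h, List.forall_mem_cons.2 ⟨f_3076 h, List.forall_mem_cons.2 ⟨f_3077 h, List.forall_mem_cons.2 ⟨f_3078 h, List.forall_mem_cons.2 ⟨f_3079 h, List.forall_mem_cons.2 ⟨f_3080 h, List.forall_mem_cons.2 ⟨f_3081 h, List.forall_mem_cons.2 ⟨f_3082 h, List.forall_mem_cons.2 ⟨f_3083 h, List.forall_mem_cons.2 ⟨f_3084 h,
    fun _ h0 => absurd h0 List.not_mem_nil⟩⟩⟩⟩⟩⟩⟩⟩⟩⟩⟩⟩⟩⟩⟩⟩⟩⟩⟩⟩⟩⟩⟩⟩⟩⟩⟩⟩

def F_3085 : FrX :=
  ⟨0x80080a000804040e000021010020010000020408a02200022000881000140010410000511000140008100001280190000200100410001a1004040600200,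
    0xa6, 1, 0x3060768196a6, 6,
    [(0xa6, 1), (0x205396a8, 4), (0x10548796, 4), (0x214396a7, 4), (0x205396a8, 4), (0x10548796, 4)],
    [(0x3060768196a6, 6), (0x415362a0, 4), (0x548697a3, 4), (0x105397a4, 4), (0x548697a3, 4), (0x305182a4, 4), (0x406297a1, 4), (0x105397a4, 4), (0x406297a1, 4), (0x104386a5, 4), (0x105397a4, 4), (0x305182a4, 4)]⟩

def c_3085 : frmChk tA tB F_3085 = true := by decide +kernel

def r_3085_0 : chkL rootF engF2 tA tB sA_338 sB_338 4 F_3085 [(511, 0, 0)]
    0x106c1e03c95234360b81d1d30a = true := by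
  decide +kernel

theorem f_3085 (h : TabsF) : FrameF repsF 338 F_3085.f :=
  frame_of rfl c_3085 (runs_of engOK r_3085_0) (by decide +kernel) h.1 h.2

def F_3086 : FrX :=
  ⟨0x482000044040440000c2040020009000182040010020082000800810014004804400120022081408080041002000802084000204020484010100008050,
    0xa0, 1, 0x215060718294a3, 7,
    [(0xa0, 1), (0x538690a2, 4), (0x548790a1, 4), (0x21437690, 4), (0x538690a2, 4), (0x548790a1, 4)],
    [(0x215060718294a3, 7), (0x435186a0, 4), (0x21437690, 4), (0x435287a9, 4), (0x435186a0, 4), (0x21437690, 4)]⟩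

def c_3086 : frmChk tA tA F_3086 = true := by decide +kernel

def r_3086_0 : chkL rootF engF2 tA tA sA_338 sA_338 4 F_3086 [(511, 0, 0)]
    0x433 = true := by
  decide +kernel

theorem f_3086 (h : TabsF) : FrameF repsF 338 F_3086.f :=
  frame_of rfl c_3086 (runs_of engOK r_3086_0) (by decide +kernel) h.1 h.1

def F_3087 : FrX :=
  ⟨0x2002000900044004000e020410001410008000408010004180014001008208001001011201220014400c0001000400801004002040500800300104051000,
    0xa3, 1, 0x104061708297a6, 7,
    [(0xa3, 1), (0x208693a5, 4), (0x10548793, 4), (0x217693a4, 4), (0x208693a5, 4), (0x10548793, 4)],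
    [(0x104061708297a6, 7), (0x405387a2, 4), (0x40517692, 4), (0x314086a9, 4), (0x405387a2, 4), (0x40517692, 4)]⟩

def c_3087 : frmChk tA tA F_3087 = true := by decide +kernel

def r_3087_0 : chkL rootF engF2 tA tA sA_338 sA_338 4 F_3087 [(511, 0, 0)]
    0x1 = true := by
  decide +kernel

theorem f_3087 (h : TabsF) : FrameF repsF 338 F_3087.f :=
  frame_of rfl c_3087 (runs_of engOK r_3087_0) (by decide +kernel) h.1 h.1

def F_3088 : FrX :=
  ⟨0x482000044040440000c2040020009000182040010100c08004000208000890020210021904000002000100880200800011081080490082002020200404,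
    0xa0, 1, 0x3043758096a6, 6,
    [(0xa0, 1), (0x538690a2, 4), (0x548790a1, 4), (0x21437690, 4), (0x538690a2, 4), (0x548790a1, 4)],
    [(0x3043758096a6, 6), (0x748296a3, 4), (0x53708196, 4), (0x214096a5, 4), (0x748296a3, 4), (0x53708196, 4)]⟩

def c_3088 : frmChk tA tA F_3088 = true := by decide +kernel

def r_3088_0 : chkL rootF engF2 tA tA sA_338 sA_338 4 F_3088 [(511, 0, 0)]
    0x1195434c41d07741d802b0780f0784e07836 = true := by
  decide +kernel

theorem f_3088 (h : TabsF) : FrameF repsF 338 F_3088.f :=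
  frame_of rfl c_3088 (runs_of engOK r_3088_0) (by decide +kernel) h.1 h.1

def F_3089 : FrX :=
  ⟨0x2002000900044004000e020410001410008000408010004180014001008208001001011040220034000c8001000408801004002040400800300104051000,
    0xa3, 1, 0x104061708297a6, 7,
    [(0xa3, 1), (0x208693a5, 4), (0x10548793, 4), (0x217693a4, 4), (0x208693a5, 4), (0x10548793, 4)],
    [(0x104061708297a6, 7), (0x405387a2, 4), (0x40517692, 4), (0x314086a9, 4), (0x405387a2, 4), (0x40517692, 4)]⟩

def c_3089 : frmChk tA tA F_3089 = true := by decide +kernel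

def r_3089_0 : chkL rootF engF2 tA tA sA_338 sA_338 4 F_3089 [(511, 0, 0)]
    0x1 = true := by
  decide +kernel

theorem f_3089 (h : TabsF) : FrameF repsF 338 F_3089.f :=
  frame_of rfl c_3089 (runs_of engOK r_3089_0) (by decide +kernel) h.1 h.1

def F_3090 : FrX :=
  ⟨0x482000044040440000c2040020009000182040010100c08004000208000890020210001304100102000000880201800010081080490082002020200404,
    0xa0, 1, 0x1043517481a6, 6,
    [(0xa0, 1), (0x538690a2, 4), (0x548790a1, 4), (0x21437690, 4), (0x538690a2, 4), (0x548790a1, 4)],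
    [(0x1043517481a6, 6), (0x214096a5, 4), (0x53708196, 4), (0x748296a3, 4), (0x214096a5, 4), (0x53708196, 4)]⟩

def c_3090 : frmChk tA tA F_3090 = true := by decide +kernel

def r_3090_0 : chkL rootF engF2 tA tA sA_338 sA_338 4 F_3090 [(511, 0, 0)]
    0x51c5520d81c1e0b847836070782e22c1d = true := by
  decide +kernel

theorem f_3090 (h : TabsF) : FrameF repsF 338 F_3090.f :=
  frame_of rfl c_3090 (runs_of engOK r_3090_0) (by decide +kernel) h.1 h.1

def F_3091 : FrX :=
  ⟨0x2002000900044004000e02041000141000800040802000224004400209008080040202031000014c00800202020000041001811000040020003210008210,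
    0xa3, 1, 0x20305363718292a0, 8,
    [(0xa3, 1), (0x208693a5, 4), (0x10548793, 4), (0x217693a4, 4), (0x208693a5, 4), (0x10548793, 4)],
    [(0x20305363718292a0, 8), (0x214065a9, 4), (0x425183a7, 4), (0x21546083, 4), (0x425183a7, 4), (0x20546197, 4), (0x506483a9, 4), (0x21546083, 4), (0x506483a9, 4), (0x415260a7, 4), (0x21546083, 4), (0x20546197, 4)]⟩

def c_3091 : frmChk tA tB F_3091 = true := by decide +kernel

def r_3091_0 : chkL rootF engF2 tA tB sA_338 sB_338 4 F_3091 [(511, 0, 0)]
    0x105c1705c2d = true := by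
  decide +kernel

theorem f_3091 (h : TabsF) : FrameF repsF 338 F_3091.f :=
  frame_of rfl c_3091 (runs_of engOK r_3091_0) (by decide +kernel) h.1 h.2

def F_3092 : FrX :=
  ⟨0x600020801080810000c0040180410101001004010020082000001440880022008202000800812000200208441110400840208000400080508400140040,
    0xa0, 1, 0x103140507591a0, 7,
    [(0xa0, 1), (0x637584a2, 4), (0x547690a1, 4), (0x64758390, 4), (0x547690a1, 4), (0x21647385, 4), (0x438690a2, 4), (0x64758390, 4), (0x438690a2, 4), (0x657483a1, 4), (0x64758390, 4), (0x21647385, 4)],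
    [(0x103140507591a0, 7), (0x537086a2, 4), (0x537184a9, 4), (0x10536492, 4), (0x537086a2, 4), (0x537184a9, 4)]⟩

def c_3092 : frmChk tB tA F_3092 = true := by decide +kernel

def r_3092_0 : chkL rootF engF2 tB tA sB_338 sA_338 4 F_3092 [(511, 0, 0)]
    0x447 = true := by
  decide +kernel

theorem f_3092 (h : TabsF) : FrameF repsF 338 F_3092.f :=
  frame_of rfl c_3092 (runs_of engOK r_3092_0) (by decide +kernel) h.2 h.1

def F_3093 : FrX :=
  ⟨0x1001040012008080000e0084080041000810100004080804801010010020201000809020408040a00008024450001000081000a00080044040c009000018,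
    0xa3, 1, 0x102031507397a0, 7,
    [(0xa3, 1), (0x207584a6, 4), (0x10547693, 4), (0x647593a8, 4), (0x10547693, 4), (0x216485a7, 4), (0x208693a4, 4), (0x647593a8, 4), (0x208693a4, 4), (0x106574a8, 4), (0x647593a8, 4), (0x216485a7, 4)],
    [(0x102031507397a0, 7), (0x507286a1, 4), (0x425098a3, 4), (0x31507496, 4), (0x507286a1, 4), (0x425098a3, 4)]⟩

def c_3093 : frmChk tB tA F_3093 = true := by decide +kernel

def r_3093_0 : chkL rootF engF2 tB tA sB_338 sA_338 4 F_3093 [(511, 0, 0)]
    0x10b41d = true := by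
  decide +kernel

theorem f_3093 (h : TabsF) : FrameF repsF 338 F_3093.f :=
  frame_of rfl c_3093 (runs_of engOK r_3093_0) (by decide +kernel) h.2 h.1

def F_3094 : FrX :=
  ⟨0x1001040012008080000e00840800410008101000040900001520010020002022808200002100100100204202010800410014000401a01200440000010250,
    0xa3, 1, 0x2132407680a3, 6,
    [(0xa3, 1), (0x207584a6, 4), (0x10547693, 4), (0x647593a8, 4), (0x10547693, 4), (0x216485a7, 4), (0x208693a4, 4), (0x647593a8, 4), (0x208693a4, 4), (0x106574a8, 4), (0x647593a8, 4), (0x216485a7, 4)],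
    [(0x2132407680a3, 6), (0x748391a5, 4), (0x50648291, 4), (0x327691a0, 4), (0x748391a5, 4), (0x50648291, 4)]⟩

def c_3094 : frmChk tB tA F_3094 = true := by decide +kernel

def r_3094_0 : chkL rootF engF2 tB tA sB_338 sA_338 4 F_3094 [(511, 0, 0)]
    0x105c1705c870d81d47036 = true := by
  decide +kernel

theorem f_3094 (h : TabsF) : FrameF repsF 338 F_3094.f :=
  frame_of rfl c_3094 (runs_of engOK r_3094_0) (by decide +kernel) h.2 h.1

def F_3095 : FrX :=
  ⟨0x1001040012008080000e0084080041000810100004401001081010000410201001012200402001200004028204141000084000880a00080c081003020000,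
    0xa3, 1, 0x315163748491a0, 7,
    [(0xa3, 1), (0x207584a6, 4), (0x10547693, 4), (0x647593a8, 4), (0x10547693, 4), (0x216485a7, 4), (0x208693a4, 4), (0x647593a8, 4), (0x208693a4, 4), (0x106574a8, 4), (0x647593a8, 4), (0x216485a7, 4)],
    [(0x315163748491a0, 7), (0x506371a2, 4), (0x507483a9, 4), (0x41508692, 4), (0x506371a2, 4), (0x507483a9, 4)]⟩

def c_3095 : frmChk tB tA F_3095 = true := by decide +kernel

def r_3095_0 : chkL rootF engF2 tB tA sB_338 sA_338 4 F_3095 [(511, 0, 0)]
    0x10b81e0f00f = true := by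
  decide +kernel

theorem f_3095 (h : TabsF) : FrameF repsF 338 F_3095.f :=
  frame_of rfl c_3095 (runs_of engOK r_3095_0) (by decide +kernel) h.2 h.1

def F_3096 : FrX :=
  ⟨0x1001040012008080000e008408004100081010000405000080e001004000088242020000220004080002101110040041004020010a200080501000821800,
    0xa3, 1, 0x4050607580a4, 6,
    [(0xa3, 1), (0x207584a6, 4), (0x10547693, 4), (0x647593a8, 4), (0x10547693, 4), (0x216485a7, 4), (0x208693a4, 4), (0x647593a8, 4), (0x208693a4, 4), (0x106574a8, 4), (0x647593a8, 4), (0x216485a7, 4)],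
    [(0x4050607580a4, 6), (0x65738290, 4), (0x648190a7, 4), (0x215490a3, 4), (0x65738290, 4), (0x648190a7, 4)]⟩

def c_3096 : frmChk tB tA F_3096 = true := by decide +kernel

def r_3096_0 : chkL rootF engF2 tB tA sB_338 sA_338 4 F_3096 [(511, 0, 0)]
    0x1645940f01b06c8e = true := by
  decide +kernel

theorem f_3096 (h : TabsF) : FrameF repsF 338 F_3096.f :=
  frame_of rfl c_3096 (runs_of engOK r_3096_0) (by decide +kernel) h.2 h.1

def F_3097 : FrX :=
  ⟨0x1001040012008080000e0084080041000810100004400808011010000420201000804220102008082000240081881000144000501002004000c000850080,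
    0xa3, 1, 0x3150748692a3, 6,
    [(0xa3, 1), (0x207584a6, 4), (0x10547693, 4), (0x647593a8, 4), (0x10547693, 4), (0x216485a7, 4), (0x208693a4, 4), (0x647593a8, 4), (0x208693a4, 4), (0x106574a8, 4), (0x647593a8, 4), (0x216485a7, 4)],
    [(0x3150748692a3, 6), (0x407695a8, 4), (0x21537084, 4), (0x214087a6, 4), (0x21537084, 4), (0x608793a4, 4), (0x218695a7, 4), (0x214087a6, 4), (0x218695a7, 4), (0x537480a6, 4), (0x214087a6, 4), (0x608793a4, 4)]⟩

def c_3097 : frmChk tB tB F_3097 = true := by decide +kernel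

def r_3097_0 : chkL rootF engF2 tB tB sB_338 sB_338 4 F_3097 [(511, 0, 0)]
    0x41e09c8b3248b1348b5301e8360da303c8362c1341d = true := by
  decide +kernel

theorem f_3097 (h : TabsF) : FrameF repsF 338 F_3097.f :=
  frame_of rfl c_3097 (runs_of engOK r_3097_0) (by decide +kernel) h.2 h.2

def F_3098 : FrX :=
  ⟨0x1c21020000040440000020410001010000820408a000110000040011020210000821400002404101004001008840809000402010108004000c122400402,
    0x0, 0, 0x206483, 3,
    [(0x0, 0), (0x205386a9, 4), (0x105487a9, 4), (0x214376a9, 4), (0x205386a9, 4), (0x105487a9, 4)],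
    [(0x206483, 3), (0x204385a9, 4), (0x216573a9, 4), (0x107486a9, 4), (0x204385a9, 4), (0x216573a9, 4)]⟩

def c_3098 : frmChk tA tA F_3098 = true := by decide +kernel

def r_3098_0 : chkL rootF engF2 tA tA sA_338 sA_338 4 F_3098 [(255, 0, 0), (256, 0, 16)]
    0x44709c270cc171c4b218cd281c5591453 = true := by
  decide +kernel

def r_3098_1 : chkL rootF engF2 tA tA sA_338 sA_338 4 F_3098 [(256, 16, 10)]
    0x41d0ac270740f09c1d = true := by
  decide +kernel

def r_3098_2 : chkL rootF engF2 tA tA sA_338 sA_338 4 F_3098 [(256, 26, 0)]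
    0x1 = true := by
  decide +kernel

theorem f_3098 (h : TabsF) : FrameF repsF 338 F_3098.f :=
  frame_of rfl c_3098 ((runs_of engOK r_3098_0).append ((runs_of engOK r_3098_1).append (runs_of engOK r_3098_2))) (by decide +kernel) h.1 h.1

def F_3099 : FrX :=
  ⟨0x80080a000804040e00002101002001000002040890020001408001080810004006001110000031000028000828001002024020204000224440080820041,
    0xa6, 1, 0x315361748196a2, 7,
    [(0xa6, 1), (0x205396a8, 4), (0x10548796, 4), (0x214396a7, 4), (0x205396a8, 4), (0x10548796, 4)],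
    [(0x315361748196a2, 7), (0x325196a0, 4), (0x32647180, 4), (0x327594a8, 4), (0x325196a0, 4), (0x32647180, 4)]⟩

def c_3099 : frmChk tA tA F_3099 = true := by decide +kernel

def r_3099_0 : chkL rootF engF2 tA tA sA_338 sA_338 4 F_3099 [(511, 0, 0)]
    0x1074270742e = true := by
  decide +kernel

theorem f_3099 (h : TabsF) : FrameF repsF 338 F_3099.f :=
  frame_of rfl c_3099 (runs_of engOK r_3099_0) (by decide +kernel) h.1 h.1

def F_3100 : FrX :=
  ⟨0x1c2102000004044000002041000101000082040890080080000802400800084004404110000030400020140828010002010820204040024440400220041,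
    0x0, 0, 0x216475, 3,
    [(0x0, 0), (0x205386a9, 4), (0x105487a9, 4), (0x214376a9, 4), (0x205386a9, 4), (0x105487a9, 4)],
    [(0x216475, 3), (0x107384a9, 4), (0x207685a9, 4), (0x215463a9, 4), (0x107384a9, 4), (0x207685a9, 4)]⟩

def c_3100 : frmChk tA tA F_3100 = true := by decide +kernel

def r_3100_0 : chkL rootF engF2 tA tA sA_338 sA_338 4 F_3100 [(255, 0, 0), (256, 0, 10)]
    0x109c1d42c1b06c17 = true := by
  decide +kernel

def r_3100_1 : chkL rootF engF2 tA tA sA_338 sA_338 4 F_3100 [(256, 10, 0)]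
    0x46918f228b23842f0a3309c7202e0b84d0b42d9a20783a0d0b60d13866c8b181570a9301b = true := by
  decide +kernel

theorem f_3100 (h : TabsF) : FrameF repsF 338 F_3100.f :=
  frame_of rfl c_3100 ((runs_of engOK r_3100_0).append (runs_of engOK r_3100_1)) (by decide +kernel) h.1 h.1

def F_3101 : FrX :=
  ⟨0x80080a000804040e000021010020010000020408822000040500801000014020220202014000080208008008802100010000510420009402200c020000a,
    0xa6, 1, 0x104351718498a2, 7,
    [(0xa6, 1), (0x205396a8, 4), (0x10548796, 4), (0x214396a7, 4), (0x205396a8, 4), (0x10548796, 4)],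
    [(0x104351718498a2, 7), (0x324096a1, 4), (0x32718095, 4), (0x326584a7, 4), (0x324096a1, 4), (0x32718095, 4)]⟩

def c_3101 : frmChk tA tA F_3101 = true := by decide +kernel

def r_3101_0 : chkL rootF engF2 tA tA sA_338 sA_338 4 F_3101 [(511, 0, 0)]
    0x10f017 = true := by
  decide +kernel

theorem f_3101 (h : TabsF) : FrameF repsF 338 F_3101.f :=
  frame_of rfl c_3101 (runs_of engOK r_3101_0) (by decide +kernel) h.1 h.1

def F_3102 : FrX :=
  ⟨0x80080a000804040e0000210100200100000204088048100010440040022000000891202000404001005000008840009000112010100844000c042800402,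
    0xa6, 1, 0x213142657697a4, 7,
    [(0xa6, 1), (0x205396a8, 4), (0x10548796, 4), (0x214396a7, 4), (0x205396a8, 4), (0x10548796, 4)],
    [(0x213142657697a4, 7), (0x407296a8, 4), (0x305197a6, 4), (0x518296a7, 4), (0x305197a6, 4), (0x438692a7, 4), (0x405187a2, 4), (0x518296a7, 4), (0x405187a2, 4), (0x307682a9, 4), (0x518296a7, 4), (0x438692a7, 4)]⟩

def c_3102 : frmChk tA tB F_3102 = true := by decide +kernel

def r_3102_0 : chkL rootF engF2 tA tB sA_338 sB_338 4 F_3102 [(511, 0, 0)]
    0x41b14c781a81e12c8d = true := by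
  decide +kernel

theorem f_3102 (h : TabsF) : FrameF repsF 338 F_3102.f :=
  frame_of rfl c_3102 (runs_of engOK r_3102_0) (by decide +kernel) h.1 h.2

def F_3103 : FrX :=
  ⟨0x80080a000804040e000021010020010000020408822000040480840080400820204040014000080208008008802108010000410844009003000c0200408,
    0xa6, 1, 0x43516298a6, 5,
    [(0xa6, 1), (0x205396a8, 4), (0x10548796, 4), (0x214396a7, 4), (0x205396a8, 4), (0x10548796, 4)],
    [(0x43516298a6, 5), (0x416082a9, 4), (0x31508297, 4), (0x436582a7, 4), (0x416082a9, 4), (0x31508297, 4)]⟩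

def c_3103 : frmChk tA tA F_3103 = true := by decide +kernel

def r_3103_0 : chkL rootF engF2 tA tA sA_338 sA_338 4 F_3103 [(511, 0, 0)]
    0x42e0b81d = true := by
  decide +kernel

theorem f_3103 (h : TabsF) : FrameF repsF 338 F_3103.f :=
  frame_of rfl c_3103 (runs_of engOK r_3103_0) (by decide +kernel) h.1 h.1

def F_3104 : FrX :=
  ⟨0x1c2102000004044000002041000101000082040888200008008080004000242020601001100008020800404880208100281010041600201100004800044,
    0x0, 0, 0x107583, 3,
    [(0x0, 0), (0x205386a9, 4), (0x105487a9, 4), (0x214376a9, 4), (0x205386a9, 4), (0x105487a9, 4)],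
    [(0x107583, 3), (0x216387a9, 4), (0x105374a9, 4), (0x206584a9, 4), (0x216387a9, 4), (0x105374a9, 4)]⟩

def c_3104 : frmChk tA tA F_3104 = true := by decide +kernel

def r_3104_0 : chkL rootF engF2 tA tA sA_338 sA_338 4 F_3104 [(255, 0, 0), (256, 0, 14)]
    0x1 = true := by
  decide +kernel

def r_3104_1 : chkL rootF engF2 tA tA sA_338 sA_338 4 F_3104 [(256, 14, 0)]
    0x1a0c1d = true := by
  decide +kernel

theorem f_3104 (h : TabsF) : FrameF repsF 338 F_3104.f :=
  frame_of rfl c_3104 ((runs_of engOK r_3104_0).append (runs_of engOK r_3104_1)) (by decide +kernel) h.1 h.1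

def F_3105 : FrX :=
  ⟨0x2002000900044004000e02041000141000800040800801014010020401000182000204804024001010040012000410000280088022080808100080228440,
    0xa3, 1, 0x203154658190a6, 7,
    [(0xa3, 1), (0x208693a5, 4), (0x10548793, 4), (0x217693a4, 4), (0x208693a5, 4), (0x10548793, 4)],
    [(0x203154658190a6, 7), (0x426190a3, 4), (0x42657398, 4), (0x425180a7, 4), (0x426190a3, 4), (0x42657398, 4)]⟩

def c_3105 : frmChk tA tA F_3105 = true := by decide +kernel

def r_3105_0 : chkL rootF engF2 tA tA sA_338 sA_338 4 F_3105 [(511, 0, 0)]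
    0x4c90cd1a5492a5306a = true := by
  decide +kernel

theorem f_3105 (h : TabsF) : FrameF repsF 338 F_3105.f :=
  frame_of rfl c_3105 (runs_of engOK r_3105_0) (by decide +kernel) h.1 h.1

def F_3106 : FrX :=
  ⟨0x2002000900044004000e02041000141000800040810000018100802402002200220200801008008820800404800010840040880004c002002020a0001410,
    0xa3, 1, 0x214352728198a3, 7,
    [(0xa3, 1), (0x208693a5, 4), (0x10548793, 4), (0x217693a4, 4), (0x208693a5, 4), (0x10548793, 4)],
    [(0x214352728198a3, 7), (0x517093a6, 4), (0x31426580, 4), (0x425163a9, 4), (0x31426580, 4), (0x638791a5, 4), (0x427096a3, 4), (0x425163a9, 4), (0x427096a3, 4), (0x536180a9, 4), (0x425163a9, 4), (0x638791a5, 4)]⟩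

def c_3106 : frmChk tA tB F_3106 = true := by decide +kernel

def r_3106_0 : chkL rootF engF2 tA tB sA_338 sB_338 4 F_3106 [(511, 0, 0)]
    0x40f03c0f = true := by
  decide +kernel

theorem f_3106 (h : TabsF) : FrameF repsF 338 F_3106.f :=
  frame_of rfl c_3106 (runs_of engOK r_3106_0) (by decide +kernel) h.1 h.2

def F_3107 : FrX :=
  ⟨0x80080a000804040e0000210100200100000204088208080005002040020028800082202000430001005008008820004030010100100840c000202900002,
    0xa6, 1, 0x315360748794a5, 7,
    [(0xa6, 1), (0x205396a8, 4), (0x10548796, 4), (0x214396a7, 4), (0x205396a8, 4), (0x10548796, 4)],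
    [(0x315360748794a5, 7), (0x406271a5, 4), (0x637184a9, 4), (0x32718095, 4), (0x406271a5, 4), (0x637184a9, 4)]⟩

def c_3107 : frmChk tA tA F_3107 = true := by decide +kernel

def r_3107_0 : chkL rootF engF2 tA tA sA_338 sA_338 4 F_3107 [(511, 0, 0)]
    0x4d128ce12a40f3300f = true := by
  decide +kernel

theorem f_3107 (h : TabsF) : FrameF repsF 338 F_3107.f :=
  frame_of rfl c_3107 (runs_of engOK r_3107_0) (by decide +kernel) h.1 h.1

def F_3108 : FrX :=
  ⟨0x482000044040440000c204002000900018204002000204040008022001404800440020002801048002004018842000a008010101008604000104000006,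
    0xa0, 1, 0x307691a0, 4,
    [(0xa0, 1), (0x538690a2, 4), (0x548790a1, 4), (0x21437690, 4), (0x538690a2, 4), (0x548790a1, 4)],
    [(0x307691a0, 4), (0x315087a2, 4), (0x315486a9, 4), (0x31407692, 4), (0x315087a2, 4), (0x315486a9, 4)]⟩

def c_3108 : frmChk tA tA F_3108 = true := by decide +kernel

def r_3108_0 : chkL rootF engF2 tA tA sA_338 sA_338 4 F_3108 [(511, 0, 0)]
    0x41d0742b0d82d = true := by
  decide +kernel

theorem f_3108 (h : TabsF) : FrameF repsF 338 F_3108.f :=
  frame_of rfl c_3108 (runs_of engOK r_3108_0) (by decide +kernel) h.1 h.1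

def F_3109 : FrX :=
  ⟨0x2002000900044004000e0204100014100080004080800200912000020800a202020200001080020820800004880800140281010002200200002005801042,
    0xa3, 1, 0x326185a4, 4,
    [(0xa3, 1), (0x208693a5, 4), (0x10548793, 4), (0x217693a4, 4), (0x208693a5, 4), (0x10548793, 4)],
    [(0x326185a4, 4), (0x213087a5, 4), (0x607194a8, 4), (0x528794a1, 4), (0x607194a8, 4), (0x637285a1, 4), (0x305194a2, 4), (0x528794a1, 4), (0x305194a2, 4), (0x526081a7, 4), (0x528794a1, 4), (0x637285a1, 4)]⟩

def c_3109 : frmChk tA tB F_3109 = true := by decide +kernel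

def r_3109_0 : chkL rootF engF2 tA tB sA_338 sB_338 4 F_3109 [(511, 0, 0)]
    0x41b03c1d1a43a22d8a03c1d = true := by
  decide +kernel

theorem f_3109 (h : TabsF) : FrameF repsF 338 F_3109.f :=
  frame_of rfl c_3109 (runs_of engOK r_3109_0) (by decide +kernel) h.1 h.2

def F_3110 : FrX :=
  ⟨0x80080a000804040e00002101002001000002040890020001410000808802084004880010000031000028000828001802024002004000202444080820820,
    0xa6, 1, 0x40537692a6, 5,
    [(0xa6, 1), (0x205396a8, 4), (0x10548796, 4), (0x214396a7, 4), (0x205396a8, 4), (0x10548796, 4)],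
    [(0x40537692a6, 5), (0x537294a8, 4), (0x30417286, 4), (0x507291a6, 4), (0x537294a8, 4), (0x30417286, 4)]⟩

def c_3110 : frmChk tA tA F_3110 = true := by decide +kernel

def r_3110_0 : chkL rootF engF2 tA tA sA_338 sA_338 4 F_3110 [(511, 0, 0)]
    0x41d = true := by
  decide +kernel

theorem f_3110 (h : TabsF) : FrameF repsF 338 F_3110.f :=
  frame_of rfl c_3110 (runs_of engOK r_3110_0) (by decide +kernel) h.1 h.1

def F_3111 : FrX :=
  ⟨0x2002000900044004000e02041000141000800040800400484001204000810881000004110100010404020100820020801000081084008200404140011820,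
    0xa3, 1, 0x214252638097a4, 7,
    [(0xa3, 1), (0x208693a5, 4), (0x10548793, 4), (0x217693a4, 4), (0x208693a5, 4), (0x10548793, 4)],
    [(0x214252638097a4, 7), (0x638594a0, 4), (0x718293a4, 4), (0x607194a3, 4), (0x718293a4, 4), (0x405296a3, 4), (0x307185a6, 4), (0x607194a3, 4), (0x307185a6, 4), (0x436082a9, 4), (0x607194a3, 4), (0x405296a3, 4)]⟩

def c_3111 : frmChk tA tB F_3111 = true := by decide +kernel

def r_3111_0 : chkL rootF engF2 tA tB sA_338 sB_338 4 F_3111 [(511, 0, 0)]
    0x41e0b81e60d38 = true := by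
  decide +kernel

theorem f_3111 (h : TabsF) : FrameF repsF 338 F_3111.f :=
  frame_of rfl c_3111 (runs_of engOK r_3111_0) (by decide +kernel) h.1 h.2

def F_3112 : FrX :=
  ⟨0x2002000900044004000e0204100014100080004080040042442000420000c088100000110100011000245002000400009300081080041020000000213120,
    0xa3, 1, 0x2131506273a6, 6,
    [(0xa3, 1), (0x208693a5, 4), (0x10548793, 4), (0x217693a4, 4), (0x208693a5, 4), (0x10548793, 4)],
    [(0x2131506273a6, 6), (0x206584a7, 4), (0x405391a2, 4), (0x208791a4, 4), (0x405391a2, 4), (0x637280a4, 4), (0x657491a8, 4), (0x208791a4, 4), (0x657491a8, 4), (0x425387a0, 4), (0x208791a4, 4), (0x637280a4, 4)]⟩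

def c_3112 : frmChk tA tB F_3112 = true := by decide +kernel

def r_3112_0 : chkL rootF engF2 tA tB sA_338 sB_338 4 F_3112 [(511, 0, 0)]
    0x103c0f05c691941e = true := by
  decide +kernel

theorem f_3112 (h : TabsF) : FrameF repsF 338 F_3112.f :=
  frame_of rfl c_3112 (runs_of engOK r_3112_0) (by decide +kernel) h.1 h.2

theorem cl_338 (h : TabsF) : ∀ f ∈ fr_338, FrameF repsF 338 f :=
  List.forall_mem_cons.2 ⟨f_3085 h, List.forall_mem_cons.2 ⟨f_3086 h, List.forall_mem_cons.2 ⟨f_3087 h, List.forall_mem_cons.2 ⟨f_3088 h, List.forall_mem_cons.2 ⟨f_3089 h, List.forall_mem_cons.2 ⟨f_3090 h, List.forall_mem_cons.2 ⟨f_3091 h, List.forall_mem_cons.2 ⟨f_3092 h, List.forall_mem_cons.2 ⟨f_3093 h, List.forall_mem_cons.2 ⟨f_3094 h, List.forall_mem_cons.2 ⟨f_3095 h, List.forall_mem_cons.2 ⟨f_3096 h, List.forall_mem_cons.2 ⟨f_3097 h, List.forall_mem_cons.2 ⟨f_3098 h, List.forall_mem_cons.2 ⟨f_3099 h, List.forall_mem_cons.2 ⟨f_3100 h, List.forall_mem_cons.2 ⟨f_3101 h, List.forall_mem_cons.2 ⟨f_3102 h, List.forall_mem_cons.2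 ⟨f_3103 h, List.forall_mem_cons.2 ⟨f_3104 h, List.forall_mem_cons.2 ⟨f_3105 h, List.forall_mem_cons.2 ⟨f_3106 h, List.forall_mem_cons.2 ⟨f_3107 h, List.forall_mem_cons.2 ⟨f_3108 h, List.forall_mem_cons.2 ⟨f_3109 h, List.forall_mem_cons.2 ⟨f_3110 h, List.forall_mem_cons.2 ⟨f_3111 h, List.forall_mem_cons.2 ⟨f_3112 h,
    fun _ h0 => absurd h0 List.not_mem_nil⟩⟩⟩⟩⟩⟩⟩⟩⟩⟩⟩⟩⟩⟩⟩⟩⟩⟩⟩⟩⟩⟩⟩⟩⟩⟩⟩⟩

def F_3113 : FrX :=
  ⟨0x600020801080810000c0040180410101001004000900808000101400400a040048001040802601000824006000048003000a0400104000500000440042,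
    0xa0, 1, 0x103040507192a6, 7,
    [(0xa0, 1), (0x637584a2, 4), (0x547690a1, 4), (0x64758390, 4), (0x547690a1, 4), (0x21647385, 4), (0x438690a2, 4), (0x64758390, 4), (0x438690a2, 4), (0x657483a1, 4), (0x64758390, 4), (0x21647385, 4)],
    [(0x103040507192a6, 7), (0x408395a1, 4), (0x436275a0, 4), (0x406281a3, 4), (0x436275a0, 4), (0x108497a3, 4), (0x316295a8, 4), (0x406281a3, 4), (0x316295a8, 4), (0x307581a4, 4), (0x406281a3, 4), (0x108497a3, 4)]⟩

def c_3113 : frmChk tB tB F_3113 = true := by decide +kernel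

def r_3113_0 : chkL rootF engF2 tB tB sB_339 sB_339 4 F_3113 [(511, 0, 0)]
    0x106c87 = true := by
  decide +kernel

theorem f_3113 (h : TabsF) : FrameF repsF 339 F_3113.f :=
  frame_of rfl c_3113 (runs_of engOK r_3113_0) (by decide +kernel) h.2 h.2

def F_3114 : FrX :=
  ⟨0x1001040012008080000e00840800410008101000040808048008028001080082080000881100112048040404800002202100100111000400108004801100,
    0xa3, 1, 0x415062718197a8, 7,
    [(0xa3, 1), (0x207584a6, 4), (0x10547693, 4), (0x647593a8, 4), (0x10547693, 4), (0x216485a7, 4), (0x208693a4, 4), (0x647593a8, 4), (0x208693a4, 4), (0x106574a8, 4), (0x647593a8, 4), (0x216485a7, 4)],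
    [(0x415062718197a8, 7), (0x306574a2, 4), (0x107485a9, 4), (0x31748692, 4), (0x306574a2, 4), (0x107485a9, 4)]⟩

def c_3114 : frmChk tB tA F_3114 = true := by decide +kernel

def r_3114_0 : chkL rootF engF2 tB tA sB_339 sA_339 4 F_3114 [(511, 0, 0)]
    0x103c6c1b04e = true := by
  decide +kernel

theorem f_3114 (h : TabsF) : FrameF repsF 339 F_3114.f :=
  frame_of rfl c_3114 (runs_of engOK r_3114_0) (by decide +kernel) h.2 h.1

def F_3115 : FrX :=
  ⟨0x1001040012008080000e0084080041000810100004080804800840002108008008410080210010024001000801100240000404820202080410a008811000,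
    0xa3, 1, 0x5261738094a3, 6,
    [(0xa3, 1), (0x207584a6, 4), (0x10547693, 4), (0x647593a8, 4), (0x10547693, 4), (0x216485a7, 4), (0x208693a4, 4), (0x647593a8, 4), (0x208693a4, 4), (0x106574a8, 4), (0x647593a8, 4), (0x216485a7, 4)],
    [(0x5261738094a3, 6), (0x328590a1, 4), (0x31748692, 4), (0x327491a0, 4), (0x31748692, 4), (0x206591a3, 4), (0x107485a9, 4), (0x327491a0, 4), (0x107485a9, 4), (0x218693a0, 4), (0x327491a0, 4), (0x206591a3, 4)]⟩

def c_3115 : frmChk tB tB F_3115 = true := by decide +kernel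

def r_3115_0 : chkL rootF engF2 tB tB sB_339 sB_339 4 F_3115 [(511, 0, 0)]
    0x1 = true := by
  decide +kernel

theorem f_3115 (h : TabsF) : FrameF repsF 339 F_3115.f :=
  frame_of rfl c_3115 (runs_of engOK r_3115_0) (by decide +kernel) h.2 h.2

def F_3116 : FrX :=
  ⟨0x1001040012008080000e0084080041000810100006280004100003000200202081010010008020480808240a000004802100800c08004104040004010210,
    0xa3, 1, 0x103143537285a5, 7,
    [(0xa3, 1), (0x207584a6, 4), (0x10547693, 4), (0x647593a8, 4), (0x10547693, 4), (0x216485a7, 4), (0x208693a4, 4), (0x647593a8, 4), (0x208693a4, 4), (0x106574a8, 4), (0x647593a8, 4), (0x216485a7, 4)],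
    [(0x103143537285a5, 7), (0x647198a5, 4), (0x314298a0, 4), (0x50627398, 4), (0x647198a5, 4), (0x314298a0, 4)]⟩

def c_3116 : frmChk tB tA F_3116 = true := by decide +kernel

def r_3116_0 : chkL rootF engF2 tB tA sB_339 sA_339 4 F_3116 [(511, 0, 0)]
    0x683 = true := by
  decide +kernel

theorem f_3116 (h : TabsF) : FrameF repsF 339 F_3116.f :=
  frame_of rfl c_3116 (runs_of engOK r_3116_0) (by decide +kernel) h.2 h.1

def F_3117 : FrX :=
  ⟨0x600020801080810000c0040180410101001004010010048000001426000c00048800002000220140002400400204802500220400010200420840080048,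
    0xa0, 1, 0x213041516498a3, 7,
    [(0xa0, 1), (0x637584a2, 4), (0x547690a1, 4), (0x64758390, 4), (0x547690a1, 4), (0x21647385, 4), (0x438690a2, 4), (0x64758390, 4), (0x438690a2, 4), (0x657483a1, 4), (0x64758390, 4), (0x21647385, 4)],
    [(0x213041516498a3, 7), (0x318092a4, 4), (0x53648097, 4), (0x517280a6, 4), (0x318092a4, 4), (0x53648097, 4)]⟩

def c_3117 : frmChk tB tA F_3117 = true := by decide +kernel

def r_3117_0 : chkL rootF engF2 tB tA sB_339 sA_339 4 F_3117 [(511, 0, 0)]
    0x103c2e = true := by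
  decide +kernel

theorem f_3117 (h : TabsF) : FrameF repsF 339 F_3117.f :=
  frame_of rfl c_3117 (runs_of engOK r_3117_0) (by decide +kernel) h.2 h.1

def F_3118 : FrX :=
  ⟨0x1c4044000008081000000840080410000101084042200100001081000020800804101104080244008082408202004800100220408104100101004040200,
    0x0, 0, 0x21546487, 4,
    [(0x0, 0), (0x20637584, 4), (0x105476a9, 4), (0x647583a9, 4), (0x105476a9, 4), (0x21647385, 4), (0x204386a9, 4), (0x647583a9, 4), (0x204386a9, 4), (0x10657483, 4), (0x647583a9, 4), (0x21647385, 4)],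
    [(0x21546487, 4), (0x104375a9, 4), (0x206487a9, 4), (0x216385a9, 4), (0x104375a9, 4), (0x206487a9, 4)]⟩

def c_3118 : frmChk tB tA F_3118 = true := by decide +kernel

def r_3118_0 : chkL rootF engF2 tB tA sB_339 sA_339 4 F_3118 [(255, 0, 0), (256, 0, 5)]
    0x42d14c56 = true := by
  decide +kernel

def r_3118_1 : chkL rootF engF2 tB tA sB_339 sA_339 4 F_3118 [(256, 5, 11)]
    0x18381d = true := by
  decide +kernel

def r_3118_2 : chkL rootF engF2 tB tA sB_339 sA_339 4 F_3118 [(256, 16, 7)]
    0x44d0ac1d = true := by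
  decide +kernel

def r_3118_3 : chkL rootF engF2 tB tA sB_339 sA_339 4 F_3118 [(256, 23, 0)]
    0x1 = true := by
  decide +kernel

theorem f_3118 (h : TabsF) : FrameF repsF 339 F_3118.f :=
  frame_of rfl c_3118 ((runs_of engOK r_3118_0).append ((runs_of engOK r_3118_1).append ((runs_of engOK r_3118_2).append (runs_of engOK r_3118_3)))) (by decide +kernel) h.2 h.1

def F_3119 : FrX :=
  ⟨0x1001040012008080000e00840800410008101000040500008108400040200040420a00401100400160004200820420004100080c04010008021002042008,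
    0xa3, 1, 0x213141517597a2, 7,
    [(0xa3, 1), (0x207584a6, 4), (0x10547693, 4), (0x647593a8, 4), (0x10547693, 4), (0x216485a7, 4), (0x208693a4, 4), (0x647593a8, 4), (0x208693a4, 4), (0x106574a8, 4), (0x647593a8, 4), (0x216485a7, 4)],
    [(0x213141517597a2, 7), (0x628397a0, 4), (0x41507396, 4), (0x41638297, 4), (0x41507396, 4), (0x638792a5, 4), (0x324186a0, 4), (0x41638297, 4), (0x324186a0, 4), (0x50768293, 4), (0x41638297, 4), (0x638792a5, 4)]⟩

def c_3119 : frmChk tB tB F_3119 = true := by decide +kernel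

def r_3119_0 : chkL rootF engF2 tB tB sB_339 sB_339 4 F_3119 [(511, 0, 0)]
    0x12340f = true := by
  decide +kernel

theorem f_3119 (h : TabsF) : FrameF repsF 339 F_3119.f :=
  frame_of rfl c_3119 (runs_of engOK r_3119_0) (by decide +kernel) h.2 h.2

def F_3120 : FrX :=
  ⟨0x1001040012008080000e008408004100081010000440100402200080040800421500080009000120004002a201080020a014008001010081020084000104,
    0xa3, 1, 0x3051658395a6, 6,
    [(0xa3, 1), (0x207584a6, 4), (0x10547693, 4), (0x647593a8, 4), (0x10547693, 4), (0x216485a7, 4), (0x208693a4, 4), (0x647593a8, 4), (0x208693a4, 4), (0x106574a8, 4), (0x647593a8, 4), (0x216485a7, 4)],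
    [(0x3051658395a6, 6), (0x326198a0, 4), (0x53617094, 4), (0x526184a7, 4), (0x326198a0, 4), (0x53617094, 4)]⟩

def c_3120 : frmChk tB tA F_3120 = true := by decide +kernel

def r_3120_0 : chkL rootF engF2 tB tA sB_339 sA_339 4 F_3120 [(511, 0, 0)]
    0x42b0e40f0ac39 = true := by
  decide +kernel

theorem f_3120 (h : TabsF) : FrameF repsF 339 F_3120.f :=
  frame_of rfl c_3120 (runs_of engOK r_3120_0) (by decide +kernel) h.2 h.1

def F_3121 : FrX :=
  ⟨0x1001040012008080000e00840800410008101000040500008101110000102004104100102200040800024060880820009000082110004040404089000004,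
    0xa3, 1, 0x4265708397a5, 6,
    [(0xa3, 1), (0x207584a6, 4), (0x10547693, 4), (0x647593a8, 4), (0x10547693, 4), (0x216485a7, 4), (0x208693a4, 4), (0x647593a8, 4), (0x208693a4, 4), (0x106574a8, 4), (0x647593a8, 4), (0x216485a7, 4)],
    [(0x4265708397a5, 6), (0x536074a8, 4), (0x607193a2, 4), (0x41608295, 4), (0x536074a8, 4), (0x607193a2, 4)]⟩

def c_3121 : frmChk tB tA F_3121 = true := by decide +kernel

def r_3121_0 : chkL rootF engF2 tB tA sB_339 sA_339 4 F_3121 [(511, 0, 0)]
    0x109c270d81d0cc391685a0cc5a38436 = true := by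
  decide +kernel

theorem f_3121 (h : TabsF) : FrameF repsF 339 F_3121.f :=
  frame_of rfl c_3121 (runs_of engOK r_3121_0) (by decide +kernel) h.2 h.1

def F_3122 : FrX :=
  ⟨0x1001040012008080000e008408004100081010000405000081011044004008100041001042000c0400021040a00820020000084910004440404009000004,
    0xa3, 1, 0x10203241526598a0, 8,
    [(0xa3, 1), (0x207584a6, 4), (0x10547693, 4), (0x647593a8, 4), (0x10547693, 4), (0x216485a7, 4), (0x208693a4, 4), (0x647593a8, 4), (0x208693a4, 4), (0x106574a8, 4), (0x647593a8, 4), (0x216485a7, 4)],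
    [(0x10203241526598a0, 8), (0x618293a5, 4), (0x608297a4, 4), (0x10547382, 4), (0x618293a5, 4), (0x608297a4, 4)]⟩

def c_3122 : frmChk tB tA F_3122 = true := by decide +kernel

def r_3122_0 : chkL rootF engF2 tB tA sB_339 sA_339 4 F_3122 [(511, 0, 0)]
    0x1d101d9141d12c3a0b88d = true := by
  decide +kernel

theorem f_3122 (h : TabsF) : FrameF repsF 339 F_3122.f :=
  frame_of rfl c_3122 (runs_of engOK r_3122_0) (by decide +kernel) h.2 h.1

def F_3123 : FrX :=
  ⟨0x1001040012008080000e0084080041000810100006000002808011000422080140008020008022080809000420a020014001001210002040011008820200,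
    0xa3, 1, 0x32415361748593a0, 8,
    [(0xa3, 1), (0x207584a6, 4), (0x10547693, 4), (0x647593a8, 4), (0x10547693, 4), (0x216485a7, 4), (0x208693a4, 4), (0x647593a8, 4), (0x208693a4, 4), (0x106574a8, 4), (0x647593a8, 4), (0x216485a7, 4)],
    [(0x32415361748593a0, 8), (0x425098a3, 4), (0x215087a6, 4), (0x41506397, 4), (0x425098a3, 4), (0x215087a6, 4)]⟩

def c_3123 : frmChk tB tA F_3123 = true := by decide +kernel

def r_3123_0 : chkL rootF engF2 tB tA sB_339 sA_339 4 F_3123 [(511, 0, 0)]
    0x417158c93489a074170ace1324aa0b8a9 = true := by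
  decide +kernel

theorem f_3123 (h : TabsF) : FrameF repsF 339 F_3123.f :=
  frame_of rfl c_3123 (runs_of engOK r_3123_0) (by decide +kernel) h.2 h.1

def F_3124 : FrX :=
  ⟨0x600020801080810000c00401804101010010040004088280001042020022000044001040404001200300000806100808200a0000800812110040600020,
    0xa0, 1, 0x647281a0, 4,
    [(0xa0, 1), (0x637584a2, 4), (0x547690a1, 4), (0x64758390, 4), (0x547690a1, 4), (0x21647385, 4), (0x438690a2, 4), (0x64758390, 4), (0x438690a2, 4), (0x657483a1, 4), (0x64758390, 4), (0x21647385, 4)],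
    [(0x647281a0, 4), (0x435261a7, 4), (0x426590a8, 4), (0x31526490, 4), (0x426590a8, 4), (0x32516487, 4), (0x416390a7, 4), (0x31526490, 4), (0x416390a7, 4), (0x315462a8, 4), (0x31526490, 4), (0x32516487, 4)]⟩

def c_3124 : frmChk tB tB F_3124 = true := by decide +kernel

def r_3124_0 : chkL rootF engF2 tB tB sB_339 sB_339 4 F_3124 [(511, 0, 0)]
    0x1 = true := by
  decide +kernel

theorem f_3124 (h : TabsF) : FrameF repsF 339 F_3124.f :=
  frame_of rfl c_3124 (runs_of engOK r_3124_0) (by decide +kernel) h.2 h.2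

def F_3125 : FrX :=
  ⟨0x482000044040440000c204002000900018204000202640000088020001400002060004102400200080008088821040010800010a0010a0006024200004,
    0xa0, 1, 0x4052758396a6, 6,
    [(0xa0, 1), (0x538690a2, 4), (0x548790a1, 4), (0x21437690, 4), (0x538690a2, 4), (0x548790a1, 4)],
    [(0x4052758396a6, 6), (0x548796a3, 4), (0x32417096, 4), (0x518096a2, 4), (0x548796a3, 4), (0x32417096, 4)]⟩

def c_3125 : frmChk tA tA F_3125 = true := by decide +kernel

def r_3125_0 : chkL rootF engF2 tA tA sA_339 sA_339 4 F_3125 [(511, 0, 0)]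
    0x46c1684e0784e1685a270391c87414c631384e8543a = true := by
  decide +kernel

theorem f_3125 (h : TabsF) : FrameF repsF 339 F_3125.f :=
  frame_of rfl c_3125 (runs_of engOK r_3125_0) (by decide +kernel) h.1 h.1

def F_3126 : FrX :=
  ⟨0x2002000900044004000e0204100014100080004082002041800020200a000a00020201000028010821040400800420011000810044200200300024081001,
    0xa3, 1, 0x4054647081a0, 6,
    [(0xa3, 1), (0x208693a5, 4), (0x10548793, 4), (0x217693a4, 4), (0x208693a5, 4), (0x10548793, 4)],
    [(0x4054647081a0, 6), (0x305197a2, 4), (0x416097a8, 4), (0x54638297, 4), (0x305197a2, 4), (0x416097a8, 4)]⟩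

def c_3126 : frmChk tA tA F_3126 = true := by decide +kernel

def r_3126_0 : chkL rootF engF2 tA tA sA_339 sA_339 4 F_3126 [(511, 0, 0)]
    0x106c1705c4d = true := by
  decide +kernel

theorem f_3126 (h : TabsF) : FrameF repsF 339 F_3126.f :=
  frame_of rfl c_3126 (runs_of engOK r_3126_0) (by decide +kernel) h.1 h.1

def F_3127 : FrX :=
  ⟨0x2002000900044004000e02041000141000800040800801014038000008000182100204004024000410800202000040000300801030104021082004210210,
    0xa3, 1, 0x4150627398a3, 6,
    [(0xa3, 1), (0x208693a5, 4), (0x10548793, 4), (0x217693a4, 4), (0x208693a5, 4), (0x10548793, 4)],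
    [(0x4150627398a3, 6), (0x658792a0, 4), (0x10548793, 4), (0x326487a1, 4), (0x658792a0, 4), (0x10548793, 4)]⟩

def c_3127 : frmChk tA tA F_3127 = true := by decide +kernel

def r_3127_0 : chkL rootF engF2 tA tA sA_339 sA_339 4 F_3127 [(511, 0, 0)]
    0x105c172c41b03c0f0e40f0ac1703c0f03c1e0ac17 = true := by
  decide +kernel

theorem f_3127 (h : TabsF) : FrameF repsF 339 F_3127.f :=
  frame_of rfl c_3127 (runs_of engOK r_3127_0) (by decide +kernel) h.1 h.1

def F_3128 : FrX :=
  ⟨0x482000044040440000c2040020009000182040000502000301080800000c0800482000810420070000000050800140010000010a050c20000804200084,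
    0xa0, 1, 0x3154768290a0, 6,
    [(0xa0, 1), (0x538690a2, 4), (0x548790a1, 4), (0x21437690, 4), (0x538690a2, 4), (0x548790a1, 4)],
    [(0x3154768290a0, 6), (0x417290a8, 4), (0x546290a3, 4), (0x51768390, 4), (0x417290a8, 4), (0x546290a3, 4)]⟩

def c_3128 : frmChk tA tA F_3128 = true := by decide +kernel

def r_3128_0 : chkL rootF engF2 tA tA sA_339 sA_339 4 F_3128 [(511, 0, 0)]
    0x10ac2703c0f = true := by
  decide +kernel

theorem f_3128 (h : TabsF) : FrameF repsF 339 F_3128.f :=
  frame_of rfl c_3128 (runs_of engOK r_3128_0) (by decide +kernel) h.1 h.1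

theorem cl_339 (h : TabsF) : ∀ f ∈ fr_339, FrameF repsF 339 f :=
  List.forall_mem_cons.2 ⟨f_3113 h, List.forall_mem_cons.2 ⟨f_3114 h, List.forall_mem_cons.2 ⟨f_3115 h, List.forall_mem_cons.2 ⟨f_3116 h, List.forall_mem_cons.2 ⟨f_3117 h, List.forall_mem_cons.2 ⟨f_3118 h, List.forall_mem_cons.2 ⟨f_3119 h, List.forall_mem_cons.2 ⟨f_3120 h, List.forall_mem_cons.2 ⟨f_3121 h, List.forall_mem_cons.2 ⟨f_3122 h, List.forall_mem_cons.2 ⟨f_3123 h, List.forall_mem_cons.2 ⟨f_3124 h, List.forall_mem_cons.2 ⟨f_3125 h, List.forall_mem_cons.2 ⟨f_3126 h, List.forall_mem_cons.2 ⟨f_3127 h, List.forall_mem_cons.2 ⟨f_3128 h,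
    fun _ h0 => absurd h0 List.not_mem_nil⟩⟩⟩⟩⟩⟩⟩⟩⟩⟩⟩⟩⟩⟩⟩⟩

def F_3129 : FrX :=
  ⟨0x1c21020000040440000020410001010000820408a0004008000024200802020010500100090143200040020211010101080000080408021044104880000,
    0x0, 0, 0x216574, 3,
    [(0x0, 0), (0x205386a9, 4), (0x105487a9, 4), (0x214376a9, 4), (0x205386a9, 4), (0x105487a9, 4)],
    [(0x216574, 3), (0x106385a9, 4), (0x207684a9, 4), (0x215473a9, 4), (0x106385a9, 4), (0x207684a9, 4)]⟩

def c_3129 : frmChk tA tA F_3129 = true := by decide +kernel

def r_3129_0 : chkL rootF engF2 tA tA sA_340 sA_340 4 F_3129 [(255, 0, 0), (256, 0, 13)]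
    0x1074d1 = true := by
  decide +kernel

def r_3129_1 : chkL rootF engF2 tA tA sA_340 sA_340 4 F_3129 [(256, 13, 5)]
    0x10743a0e85a = true := by
  decide +kernel

def r_3129_2 : chkL rootF engF2 tA tA sA_340 sA_340 4 F_3129 [(256, 18, 0)]
    0x45512c1e = true := by
  decide +kernel

theorem f_3129 (h : TabsF) : FrameF repsF 340 F_3129.f :=
  frame_of rfl c_3129 ((runs_of engOK r_3129_0).append ((runs_of engOK r_3129_1).append (runs_of engOK r_3129_2))) (by decide +kernel) h.1 h.1

def F_3130 : FrX :=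
  ⟨0x2002000900044004000e02041000141000800040800800248000c004008088802001001040901032000480000110101000002020404080201011040c1000,
    0xa3, 1, 0x1020314051658297a3, 9,
    [(0xa3, 1), (0x208693a5, 4), (0x10548793, 4), (0x217693a4, 4), (0x208693a5, 4), (0x10548793, 4)],
    [(0x1020314051658297a3, 9), (0x317084a6, 4), (0x54627091, 4), (0x708593a2, 4), (0x317084a6, 4), (0x54627091, 4)]⟩

def c_3130 : frmChk tA tA F_3130 = true := by decide +kernel

def r_3130_0 : chkL rootF engF2 tA tA sA_340 sA_340 4 F_3130 [(511, 0, 0)]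
    0x10b80f4701d136b01682e = true := by
  decide +kernel

theorem f_3130 (h : TabsF) : FrameF repsF 340 F_3130.f :=
  frame_of rfl c_3130 (runs_of engOK r_3130_0) (by decide +kernel) h.1 h.1

def F_3131 : FrX :=
  ⟨0x482000044040440000c2040020009000182040020000882000200030010c10804020000022081008080041002008800240000848020d04100020200201,
    0xa0, 1, 0x3052658194a5, 6,
    [(0xa0, 1), (0x538690a2, 4), (0x548790a1, 4), (0x21437690, 4), (0x538690a2, 4), (0x548790a1, 4)],
    [(0x3052658194a5, 6), (0x215364a0, 4), (0x647183a9, 4), (0x64728590, 4), (0x215364a0, 4), (0x647183a9, 4)]⟩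

def c_3131 : frmChk tA tA F_3131 = true := by decide +kernel

def r_3131_0 : chkL rootF engF2 tA tA sA_340 sA_340 4 F_3131 [(511, 0, 0)]
    0x42707427 = true := by
  decide +kernel

theorem f_3131 (h : TabsF) : FrameF repsF 340 F_3131.f :=
  frame_of rfl c_3131 (runs_of engOK r_3131_0) (by decide +kernel) h.1 h.1

def F_3132 : FrX :=
  ⟨0x482000044040440000c2040020009000182040020000500800100208040884820010000382100124200000081008800210002082048000002120008404,
    0xa0, 1, 0x324251748197a6, 7,
    [(0xa0, 1), (0x538690a2, 4), (0x548790a1, 4), (0x21437690, 4), (0x538690a2, 4), (0x548790a1, 4)],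
    [(0x324251748197a6, 7), (0x214063a5, 4), (0x63718095, 4), (0x637284a9, 4), (0x214063a5, 4), (0x63718095, 4)]⟩

def c_3132 : frmChk tA tA F_3132 = true := by decide +kernel

def r_3132_0 : chkL rootF engF2 tA tA sA_340 sA_340 4 F_3132 [(511, 0, 0)]
    0x5545517031466078c530cc9a3388 = true := by
  decide +kernel

theorem f_3132 (h : TabsF) : FrameF repsF 340 F_3132.f :=
  frame_of rfl c_3132 (runs_of engOK r_3132_0) (by decide +kernel) h.1 h.1

def F_3133 : FrX :=
  ⟨0x80080a000804040e00002101002001000002040881200002208028000020202c0040005010000400089000012801a0080400080510001242400100c0000,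
    0xa6, 1, 0x10213243608493a0, 8,
    [(0xa6, 1), (0x205396a8, 4), (0x10548796, 4), (0x214396a7, 4), (0x205396a8, 4), (0x10548796, 4)],
    [(0x10213243608493a0, 8), (0x758091a3, 4), (0x647185a2, 4), (0x64758190, 4), (0x647185a2, 4), (0x32508197, 4), (0x106498a3, 4), (0x64758190, 4), (0x106498a3, 4), (0x518790a2, 4), (0x64758190, 4), (0x32508197, 4)]⟩

def c_3133 : frmChk tA tB F_3133 = true := by decide +kernel

def r_3133_0 : chkL rootF engF2 tA tB sA_340 sB_340 4 F_3133 [(511, 0, 0)]
    0x718 = true := by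
  decide +kernel

theorem f_3133 (h : TabsF) : FrameF repsF 340 F_3133.f :=
  frame_of rfl c_3133 (runs_of engOK r_3133_0) (by decide +kernel) h.1 h.2

def F_3134 : FrX :=
  ⟨0x482000044040440000c204002000900018204000090080800802008000019a00002040090400020200010088022000205101104041010c200000210008,
    0xa0, 1, 0x20304254638794a3, 8,
    [(0xa0, 1), (0x538690a2, 4), (0x548790a1, 4), (0x21437690, 4), (0x538690a2, 4), (0x548790a1, 4)],
    [(0x20304254638794a3, 8), (0x436572a0, 4), (0x31658790, 4), (0x416582a9, 4), (0x436572a0, 4), (0x31658790, 4)]⟩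

def c_3134 : frmChk tA tA F_3134 = true := by decide +kernel

def r_3134_0 : chkL rootF engF2 tA tA sA_340 sA_340 4 F_3134 [(511, 0, 0)]
    0x124c0f03c4e = true := by
  decide +kernel

theorem f_3134 (h : TabsF) : FrameF repsF 340 F_3134.f :=
  frame_of rfl c_3134 (runs_of engOK r_3134_0) (by decide +kernel) h.1 h.1

def F_3135 : FrX :=
  ⟨0x2002000900044004000e0204100014100080004080200022400440020822080080008021008000480088020202001004a00020a0100800202020a1008004,
    0xa3, 1, 0x304165728190a1, 7,
    [(0xa3, 1), (0x208693a5, 4), (0x10548793, 4), (0x217693a4, 4), (0x208693a5, 4), (0x10548793, 4)],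
    [(0x304165728190a1, 7), (0x41506297, 4), (0x526183a9, 4), (0x40516283, 4), (0x526183a9, 4), (0x205164a7, 4), (0x10548397, 4), (0x40516283, 4), (0x10548397, 4), (0x214065a9, 4), (0x40516283, 4), (0x205164a7, 4)]⟩

def c_3135 : frmChk tA tB F_3135 = true := by decide +kernel

def r_3135_0 : chkL rootF engF2 tA tB sA_340 sB_340 4 F_3135 [(511, 0, 0)]
    0x41e0e94c168f05603a = true := by
  decide +kernel

theorem f_3135 (h : TabsF) : FrameF repsF 340 F_3135.f :=
  frame_of rfl c_3135 (runs_of engOK r_3135_0) (by decide +kernel) h.1 h.2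

def F_3136 : FrX :=
  ⟨0x2002000900044004000e02041000141000800040801000418001400100820800100101124802000080098009000400800004202040484010501002041000,
    0xa3, 1, 0x104061708297a6, 7,
    [(0xa3, 1), (0x208693a5, 4), (0x10548793, 4), (0x217693a4, 4), (0x208693a5, 4), (0x10548793, 4)],
    [(0x104061708297a6, 7), (0x405387a2, 4), (0x40517692, 4), (0x314086a9, 4), (0x405387a2, 4), (0x40517692, 4)]⟩

def c_3136 : frmChk tA tA F_3136 = true := by decide +kernel

def r_3136_0 : chkL rootF engF2 tA tA sA_340 sA_340 4 F_3136 [(511, 0, 0)]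
    0x43c12c4b = true := by
  decide +kernel

theorem f_3136 (h : TabsF) : FrameF repsF 340 F_3136.f :=
  frame_of rfl c_3136 (runs_of engOK r_3136_0) (by decide +kernel) h.1 h.1

def F_3137 : FrX :=
  ⟨0x482000044040440000c2040020009000182040020000882000020810024022800400100022081008080041002001802084000204041001010150008050,
    0xa0, 1, 0x5062708193a4, 6,
    [(0xa0, 1), (0x538690a2, 4), (0x548790a1, 4), (0x21437690, 4), (0x538690a2, 4), (0x548790a1, 4)],
    [(0x5062708193a4, 6), (0x21437690, 4), (0x435187a0, 4), (0x435286a9, 4), (0x21437690, 4), (0x435187a0, 4)]⟩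

def c_3137 : frmChk tA tA F_3137 = true := by decide +kernel

def r_3137_0 : chkL rootF engF2 tA tA sA_340 sA_340 4 F_3137 [(511, 0, 0)]
    0x417 = true := by
  decide +kernel

theorem f_3137 (h : TabsF) : FrameF repsF 340 F_3137.f :=
  frame_of rfl c_3137 (runs_of engOK r_3137_0) (by decide +kernel) h.1 h.1

def F_3138 : FrX :=
  ⟨0x482000044040440000c20400200090001820400009008080044100080008802202100009040002020001008802018002040050900900020020a0008404,
    0xa0, 1, 0x214251607398a1, 7,
    [(0xa0, 1), (0x538690a2, 4), (0x548790a1, 4), (0x21437690, 4), (0x538690a2, 4), (0x548790a1, 4)],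
    [(0x214251607398a1, 7), (0x64728590, 4), (0x218593a6, 4), (0x307185a4, 4), (0x64728590, 4), (0x218593a6, 4)]⟩

def c_3138 : frmChk tA tA F_3138 = true := by decide +kernel

def r_3138_0 : chkL rootF engF2 tA tA sA_340 sA_340 4 F_3138 [(511, 0, 0)]
    0x43c0f10d4941d1540f = true := by
  decide +kernel

theorem f_3138 (h : TabsF) : FrameF repsF 340 F_3138.f :=
  frame_of rfl c_3138 (runs_of engOK r_3138_0) (by decide +kernel) h.1 h.1

def F_3139 : FrX :=
  ⟨0x80080a000804040e000021010020010000020408812000022200081004140010410000501000040008900001280000110280900020100a1082040600200,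
    0xa6, 1, 0x2162748092a4, 6,
    [(0xa6, 1), (0x205396a8, 4), (0x10548796, 4), (0x214396a7, 4), (0x205396a8, 4), (0x10548796, 4)],
    [(0x2162748092a4, 6), (0x315498a0, 4), (0x417682a5, 4), (0x305476a1, 4), (0x417682a5, 4), (0x435092a1, 4), (0x107698a3, 4), (0x305476a1, 4), (0x107698a3, 4), (0x305182a4, 4), (0x305476a1, 4), (0x435092a1, 4)]⟩

def c_3139 : frmChk tA tB F_3139 = true := by decide +kernel

def r_3139_0 : chkL rootF engF2 tA tB sA_340 sB_340 4 F_3139 [(511, 0, 0)]
    0x4360d8360d8360d8360d82e = true := by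
  decide +kernel

theorem f_3139 (h : TabsF) : FrameF repsF 340 F_3139.f :=
  frame_of rfl c_3139 (runs_of engOK r_3139_0) (by decide +kernel) h.1 h.2

def F_3140 : FrX :=
  ⟨0x482000044040440000c2040020009000182040000900808004200008000890220210020004900302000800880200800210801010090002002021008404,
    0xa0, 1, 0x21405063718195a3, 8,
    [(0xa0, 1), (0x538690a2, 4), (0x548790a1, 4), (0x21437690, 4), (0x538690a2, 4), (0x548790a1, 4)],
    [(0x21405063718195a3, 8), (0x516473a9, 4), (0x64728590, 4), (0x326481a0, 4), (0x516473a9, 4), (0x64728590, 4)]⟩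

def c_3140 : frmChk tA tA F_3140 = true := by decide +kernel

def r_3140_0 : chkL rootF engF2 tA tA sA_340 sA_340 4 F_3140 [(511, 0, 0)]
    0x11340f0740f = true := by
  decide +kernel

theorem f_3140 (h : TabsF) : FrameF repsF 340 F_3140.f :=
  frame_of rfl c_3140 (runs_of engOK r_3140_0) (by decide +kernel) h.1 h.1

def F_3141 : FrX :=
  ⟨0x80080a000804040e000021010020010000020408a00041004800284008210000100120208020800800808010804008020420000204080944400a0020010,
    0xa6, 1, 0x103141506275a0, 7,
    [(0xa6, 1), (0x205396a8, 4), (0x10548796, 4), (0x214396a7, 4), (0x205396a8, 4), (0x10548796, 4)],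
    [(0x103141506275a0, 7), (0x207183a6, 4), (0x217395a4, 4), (0x32718095, 4), (0x217395a4, 4), (0x10326487, 4), (0x308295a6, 4), (0x32718095, 4), (0x308295a6, 4), (0x317280a4, 4), (0x32718095, 4), (0x10326487, 4)]⟩

def c_3141 : frmChk tA tB F_3141 = true := by decide +kernel

def r_3141_0 : chkL rootF engF2 tA tB sA_340 sB_340 4 F_3141 [(511, 0, 0)]
    0x417 = true := by
  decide +kernel

theorem f_3141 (h : TabsF) : FrameF repsF 340 F_3141.f :=
  frame_of rfl c_3141 (runs_of engOK r_3141_0) (by decide +kernel) h.1 h.2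

def F_3142 : FrX :=
  ⟨0x1c2102000004044000002041000101000082040890080080001001400800044004802210000030418000140428408008100082140050022002810200000,
    0x0, 0, 0x53637487, 4,
    [(0x0, 0), (0x205386a9, 4), (0x105487a9, 4), (0x214376a9, 4), (0x205386a9, 4), (0x105487a9, 4)],
    [(0x53637487, 4), (0x205463a9, 4), (0x107384a9, 4), (0x217685a9, 4), (0x205463a9, 4), (0x107384a9, 4)]⟩

def c_3142 : frmChk tA tA F_3142 = true := by decide +kernel

def r_3142_0 : chkL rootF engF2 tA tA sA_340 sA_340 4 F_3142 [(255, 0, 0), (256, 0, 3)]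
    0x1 = true := by
  decide +kernel

def r_3142_1 : chkL rootF engF2 tA tA sA_340 sA_340 4 F_3142 [(256, 3, 4)]
    0x427 = true := by
  decide +kernel

def r_3142_2 : chkL rootF engF2 tA tA sA_340 sA_340 4 F_3142 [(256, 7, 3)]
    0x1 = true := by
  decide +kernel

def r_3142_3 : chkL rootF engF2 tA tA sA_340 sA_340 4 F_3142 [(256, 10, 1)]
    0x4c5 = true := by
  decide +kernel

def r_3142_4 : chkL rootF engF2 tA tA sA_340 sA_340 4 F_3142 [(256, 11, 9)]
    0x42b = true := by
  decide +kernel

def r_3142_5 : chkL rootF engF2 tA tA sA_340 sA_340 4 F_3142 [(256, 20, 0)]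
    0x417 = true := by
  decide +kernel

theorem f_3142 (h : TabsF) : FrameF repsF 340 F_3142.f :=
  frame_of rfl c_3142 ((runs_of engOK r_3142_0).append ((runs_of engOK r_3142_1).append ((runs_of engOK r_3142_2).append ((runs_of engOK r_3142_3).append ((runs_of engOK r_3142_4).append (runs_of engOK r_3142_5)))))) (by decide +kernel) h.1 h.1

def F_3143 : FrX :=
  ⟨0x2002000900044004000e02041000141000800040800801041010020401000182000084104081001010040006001010000280008222080808100250088040,
    0xa3, 1, 0x20415162728593a6, 8,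
    [(0xa3, 1), (0x208693a5, 4), (0x10548793, 4), (0x217693a4, 4), (0x208693a5, 4), (0x10548793, 4)],
    [(0x20415162728593a6, 8), (0x307298a4, 4), (0x30526481, 4), (0x307591a6, 4), (0x307298a4, 4), (0x30526481, 4)]⟩

def c_3143 : frmChk tA tA F_3143 = true := by decide +kernel

def r_3143_0 : chkL rootF engF2 tA tA sA_340 sA_340 4 F_3143 [(511, 0, 0)]
    0x109d4948d2909c39 = true := by
  decide +kernel

theorem f_3143 (h : TabsF) : FrameF repsF 340 F_3143.f :=
  frame_of rfl c_3143 (runs_of engOK r_3143_0) (by decide +kernel) h.1 h.1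

def F_3144 : FrX :=
  ⟨0x482000044040440000c2040020009000182040010020082001000180080102814020000804041010000620404220040094008000400904028200000048,
    0xa0, 1, 0x41517594a6, 5,
    [(0xa0, 1), (0x538690a2, 4), (0x548790a1, 4), (0x21437690, 4), (0x538690a2, 4), (0x548790a1, 4)],
    [(0x41517594a6, 5), (0x207498a3, 4), (0x506197a4, 4), (0x617483a9, 4), (0x506197a4, 4), (0x435287a9, 4), (0x206193a8, 4), (0x617483a9, 4), (0x206193a8, 4), (0x508394a7, 4), (0x617483a9, 4), (0x435287a9, 4)]⟩

def c_3144 : frmChk tA tB F_3144 = true := by decide +kernel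

def r_3144_0 : chkL rootF engF2 tA tB sA_340 sB_340 4 F_3144 [(511, 0, 0)]
    0x1 = true := by
  decide +kernel

theorem f_3144 (h : TabsF) : FrameF repsF 340 F_3144.f :=
  frame_of rfl c_3144 (runs_of engOK r_3144_0) (by decide +kernel) h.1 h.2

def F_3145 : FrX :=
  ⟨0x80080a000804040e000021010020010000020408822000040480240000400820804041014000a0020800800a20210801000101030400900300210080000,
    0xa6, 1, 0x435361748397a2, 7,
    [(0xa6, 1), (0x205396a8, 4), (0x10548796, 4), (0x214396a7, 4), (0x205396a8, 4), (0x10548796, 4)],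
    [(0x435361748397a2, 7), (0x325184a0, 4), (0x32607495, 4), (0x328791a6, 4), (0x325184a0, 4), (0x32607495, 4)]⟩

def c_3145 : frmChk tA tA F_3145 = true := by decide +kernel

def r_3145_0 : chkL rootF engF2 tA tA sA_340 sA_340 4 F_3145 [(511, 0, 0)]
    0x11588b = true := by
  decide +kernel

theorem f_3145 (h : TabsF) : FrameF repsF 340 F_3145.f :=
  frame_of rfl c_3145 (runs_of engOK r_3145_0) (by decide +kernel) h.1 h.1

def F_3146 : FrX :=
  ⟨0x482000044040440000c2040020009000182040020000500800200910041044020010000101010121000400102008108080090006200200101002800282,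
    0xa0, 1, 0x3254617598a7, 6,
    [(0xa0, 1), (0x538690a2, 4), (0x548790a1, 4), (0x21437690, 4), (0x538690a2, 4), (0x548790a1, 4)],
    [(0x3254617598a7, 6), (0x213095a7, 4), (0x607584a1, 4), (0x518492a7, 4), (0x607584a1, 4), (0x516397a2, 4), (0x30528491, 4), (0x518492a7, 4), (0x30528491, 4), (0x607192a5, 4), (0x518492a7, 4), (0x516397a2, 4)]⟩

def c_3146 : frmChk tA tB F_3146 = true := by decide +kernel

def r_3146_0 : chkL rootF engF2 tA tB sA_340 sB_340 4 F_3146 [(511, 0, 0)]
    0x1 = true := by
  decide +kernel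

theorem f_3146 (h : TabsF) : FrameF repsF 340 F_3146.f :=
  frame_of rfl c_3146 (runs_of engOK r_3146_0) (by decide +kernel) h.1 h.2

def F_3147 : FrX :=
  ⟨0x80080a000804040e00002101002001000002040890020004488004020810001012000410000085028088000802004002421020010000089100200820120,
    0xa6, 1, 0x213142517185a3, 7,
    [(0xa6, 1), (0x205396a8, 4), (0x10548796, 4), (0x214396a7, 4), (0x205396a8, 4), (0x10548796, 4)],
    [(0x213142517185a3, 7), (0x406392a8, 4), (0x53708192, 4), (0x657492a1, 4), (0x406392a8, 4), (0x53708192, 4)]⟩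

def c_3147 : frmChk tA tA F_3147 = true := by decide +kernel

def r_3147_0 : chkL rootF engF2 tA tA sA_340 sA_340 4 F_3147 [(511, 0, 0)]
    0x1138362b033198781b00f03c3611c33074a54a7280741d1705c12c1d1b047198170cc3512c2d = true := by
  decide +kernel

theorem f_3147 (h : TabsF) : FrameF repsF 340 F_3147.f :=
  frame_of rfl c_3147 (runs_of engOK r_3147_0) (by decide +kernel) h.1 h.1

def F_3148 : FrX :=
  ⟨0x482000044040440000c20400200090001820400008808800042000080200220204042011010c011008020100202000800014a080008840002404000042,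
    0xa0, 1, 0x2130408498a2, 6,
    [(0xa0, 1), (0x538690a2, 4), (0x548790a1, 4), (0x21437690, 4), (0x538690a2, 4), (0x548790a1, 4)],
    [(0x2130408498a2, 6), (0x607598a4, 4), (0x31427685, 4), (0x31758690, 4), (0x31427685, 4), (0x708695a2, 4), (0x318096a4, 4), (0x31758690, 4), (0x318096a4, 4), (0x42658790, 4), (0x31758690, 4), (0x708695a2, 4)]⟩

def c_3148 : frmChk tA tB F_3148 = true := by decide +kernel

def r_3148_0 : chkL rootF engF2 tA tB sA_340 sB_340 4 F_3148 [(511, 0, 0)]
    0x111c2d0e833 = true := by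
  decide +kernel

theorem f_3148 (h : TabsF) : FrameF repsF 340 F_3148.f :=
  frame_of rfl c_3148 (runs_of engOK r_3148_0) (by decide +kernel) h.1 h.2

def F_3149 : FrX :=
  ⟨0x80080a000804040e000021010020010000020408900080044080040208100410120004100000850000880008220010020210a001000148c100200800041,
    0xa6, 1, 0x4353718691a0, 6,
    [(0xa6, 1), (0x205396a8, 4), (0x10548796, 4), (0x214396a7, 4), (0x205396a8, 4), (0x10548796, 4)],
    [(0x4353718691a0, 6), (0x547086a2, 4), (0x436170a9, 4), (0x53708192, 4), (0x547086a2, 4), (0x436170a9, 4)]⟩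

def c_3149 : frmChk tA tA F_3149 = true := by decide +kernel

def r_3149_0 : chkL rootF engF2 tA tA sA_340 sA_340 4 F_3149 [(511, 0, 0)]
    0x10cc17 = true := by
  decide +kernel

theorem f_3149 (h : TabsF) : FrameF repsF 340 F_3149.f :=
  frame_of rfl c_3149 (runs_of engOK r_3149_0) (by decide +kernel) h.1 h.1

def F_3150 : FrX :=
  ⟨0x482000044040440000c20400200090001820400021008020080400080004390000420008440010000800205080081000140200060800c0011002808880,
    0xa0, 1, 0x103240546393a4, 7,
    [(0xa0, 1), (0x538690a2, 4), (0x548790a1, 4), (0x21437690, 4), (0x538690a2, 4), (0x548790a1, 4)],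
    [(0x103240546393a4, 7), (0x437192a8, 4), (0x406572a1, 4), (0x657198a2, 4), (0x406572a1, 4), (0x308197a2, 4), (0x436582a9, 4), (0x657198a2, 4), (0x436582a9, 4), (0x214098a7, 4), (0x657198a2, 4), (0x308197a2, 4)]⟩

def c_3150 : frmChk tA tB F_3150 = true := by decide +kernel

def r_3150_0 : chkL rootF engF2 tA tB sA_340 sB_340 4 F_3150 [(511, 0, 0)]
    0x43c = true := by
  decide +kernel

theorem f_3150 (h : TabsF) : FrameF repsF 340 F_3150.f :=
  frame_of rfl c_3150 (runs_of engOK r_3150_0) (by decide +kernel) h.1 h.2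

def F_3151 : FrX :=
  ⟨0x2002000900044004000e02041000141000800040808000202800a0001081200804002202000a00802402049040000080204020008402220000210000c050,
    0xa3, 1, 0x52657093a5, 5,
    [(0xa3, 1), (0x208693a5, 4), (0x10548793, 4), (0x217693a4, 4), (0x208693a5, 4), (0x10548793, 4)],
    [(0x52657093a5, 5), (0x758492a0, 4), (0x206371a4, 4), (0x426398a0, 4), (0x206371a4, 4), (0x425190a8, 4), (0x63758294, 4), (0x426398a0, 4), (0x63758294, 4), (0x407198a2, 4), (0x426398a0, 4), (0x425190a8, 4)]⟩

def c_3151 : frmChk tA tB F_3151 = true := by decide +kernel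

def r_3151_0 : chkL rootF engF2 tA tB sA_340 sB_340 4 F_3151 [(511, 0, 0)]
    0x10e5389141d = true := by
  decide +kernel

theorem f_3151 (h : TabsF) : FrameF repsF 340 F_3151.f :=
  frame_of rfl c_3151 (runs_of engOK r_3151_0) (by decide +kernel) h.1 h.2

def F_3152 : FrX :=
  ⟨0x2002000900044004000e02041000141000800040800801021108400008120200200088000888001082200004024008100001022010820200044a20020200,
    0xa3, 1, 0x314051637580a6, 7,
    [(0xa3, 1), (0x208693a5, 4), (0x10548793, 4), (0x217693a4, 4), (0x208693a5, 4), (0x10548793, 4)],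
    [(0x314051637580a6, 7), (0x768291a4, 4), (0x43708591, 4), (0x526091a3, 4), (0x768291a4, 4), (0x43708591, 4)]⟩

def c_3152 : frmChk tA tA F_3152 = true := by decide +kernel

def r_3152_0 : chkL rootF engF2 tA tA sA_340 sA_340 4 F_3152 [(511, 0, 0)]
    0x46c05c5c166131725218c1e03e29 = true := by
  decide +kernel

theorem f_3152 (h : TabsF) : FrameF repsF 340 F_3152.f :=
  frame_of rfl c_3152 (runs_of engOK r_3152_0) (by decide +kernel) h.1 h.1

def F_3153 : FrX :=
  ⟨0x482000044040440000c2040020009000182040020001042000080804010c10018080000101010220800809100101802022002008108000040804010210,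
    0xa0, 1, 0x428296a4, 4,
    [(0xa0, 1), (0x538690a2, 4), (0x548790a1, 4), (0x21437690, 4), (0x538690a2, 4), (0x548790a1, 4)],
    [(0x428296a4, 4), (0x758093a4, 4), (0x106297a5, 4), (0x436275a9, 4), (0x106297a5, 4), (0x547381a9, 4), (0x628094a3, 4), (0x436275a9, 4), (0x628094a3, 4), (0x104395a7, 4), (0x436275a9, 4), (0x547381a9, 4)]⟩

def c_3153 : frmChk tA tB F_3153 = true := by decide +kernel

def r_3153_0 : chkL rootF engF2 tA tB sA_340 sB_340 4 F_3153 [(511, 0, 0)]
    0x109c36 = true := by
  decide +kernel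

theorem f_3153 (h : TabsF) : FrameF repsF 340 F_3153.f :=
  frame_of rfl c_3153 (runs_of engOK r_3153_0) (by decide +kernel) h.1 h.2

def F_3154 : FrX :=
  ⟨0x1001040012008080000e00840800410008101000044020080050100060200810008048001020a108200424004000100040400201080200400210004c2080,
    0xa3, 1, 0x4262758693a6, 6,
    [(0xa3, 1), (0x207584a6, 4), (0x10547693, 4), (0x647593a8, 4), (0x10547693, 4), (0x216485a7, 4), (0x208693a4, 4), (0x647593a8, 4), (0x208693a4, 4), (0x106574a8, 4), (0x647593a8, 4), (0x216485a7, 4)],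
    [(0x4262758693a6, 6), (0x608397a4, 4), (0x10547283, 4), (0x618392a5, 4), (0x608397a4, 4), (0x10547283, 4)]⟩

def c_3154 : frmChk tB tA F_3154 = true := by decide +kernel

def r_3154_0 : chkL rootF engF2 tB tA sB_340 sA_340 4 F_3154 [(511, 0, 0)]
    0x10742b2a44d = true := by
  decide +kernel

theorem f_3154 (h : TabsF) : FrameF repsF 340 F_3154.f :=
  frame_of rfl c_3154 (runs_of engOK r_3154_0) (by decide +kernel) h.2 h.1

def F_3155 : FrX :=
  ⟨0x600020801080810000c00401804101010010040101000044000012802040440204100016010801600000108020080a00000a0400a0000000c021080082,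
    0xa0, 1, 0x104261718195a6, 7,
    [(0xa0, 1), (0x637584a2, 4), (0x547690a1, 4), (0x64758390, 4), (0x547690a1, 4), (0x21647385, 4), (0x438690a2, 4), (0x64758390, 4), (0x438690a2, 4), (0x657483a1, 4), (0x64758390, 4), (0x21647385, 4)],
    [(0x104261718195a6, 7), (0x417296a3, 4), (0x508192a6, 4), (0x507396a2, 4), (0x508192a6, 4), (0x638497a2, 4), (0x324150a7, 4), (0x507396a2, 4), (0x324150a7, 4), (0x627381a9, 4), (0x507396a2, 4), (0x638497a2, 4)]⟩

def c_3155 : frmChk tB tB F_3155 = true := by decide +kernel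

def r_3155_0 : chkL rootF engF2 tB tB sB_340 sB_340 4 F_3155 [(511, 0, 0)]
    0x4873181b = true := by
  decide +kernel

theorem f_3155 (h : TabsF) : FrameF repsF 340 F_3155.f :=
  frame_of rfl c_3155 (runs_of engOK r_3155_0) (by decide +kernel) h.2 h.2

def F_3156 : FrX :=
  ⟨0x482000044040440000c2040020009000182040010080020804000208020028110402001124000182000110084020008004020102010202002104014002,
    0xa0, 1, 0x213042516293a6, 7,
    [(0xa0, 1), (0x538690a2, 4), (0x548790a1, 4), (0x21437690, 4), (0x538690a2, 4), (0x548790a1, 4)],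
    [(0x213042516293a6, 7), (0x637281a9, 4), (0x214053a7, 4), (0x407298a1, 4), (0x214053a7, 4), (0x658297a1, 4), (0x406391a8, 4), (0x407298a1, 4), (0x406391a8, 4), (0x537198a2, 4), (0x407298a1, 4), (0x658297a1, 4)]⟩

def c_3156 : frmChk tA tB F_3156 = true := by decide +kernel

def r_3156_0 : chkL rootF engF2 tA tB sA_340 sB_340 4 F_3156 [(511, 0, 0)]
    0x10cc0f1541e58455 = true := by
  decide +kernel

theorem f_3156 (h : TabsF) : FrameF repsF 340 F_3156.f :=
  frame_of rfl c_3156 (runs_of engOK r_3156_0) (by decide +kernel) h.1 h.2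

theorem cl_340 (h : TabsF) : ∀ f ∈ fr_340, FrameF repsF 340 f :=
  List.forall_mem_cons.2 ⟨f_3129 h, List.forall_mem_cons.2 ⟨f_3130 h, List.forall_mem_cons.2 ⟨f_3131 h, List.forall_mem_cons.2 ⟨f_3132 h, List.forall_mem_cons.2 ⟨f_3133 h, List.forall_mem_cons.2 ⟨f_3134 h, List.forall_mem_cons.2 ⟨f_3135 h, List.forall_mem_cons.2 ⟨f_3136 h, List.forall_mem_cons.2 ⟨f_3137 h, List.forall_mem_cons.2 ⟨f_3138 h, List.forall_mem_cons.2 ⟨f_3139 h, List.forall_mem_cons.2 ⟨f_3140 h, List.forall_mem_cons.2 ⟨f_3141 h, List.forall_mem_cons.2 ⟨f_3142 h, List.forall_mem_cons.2 ⟨f_3143 h, List.forall_mem_cons.2 ⟨f_3144 h, List.forall_mem_cons.2 ⟨f_3145 h, List.forall_mem_cons.2 ⟨f_3146 h, List.forall_mem_cons.2 ⟨f_3147 h, List.forall_mem_cons.2 ⟨f_3148 h, List.forall_mem_cons.2 ⟨f_3149 h, List.forall_mem_cons.2 ⟨f_3150 h, List.forall_mem_cons.2 ⟨f_3151 h, List.forall_mem_cons.2 ⟨f_3152 h, List.forall_mem_cons.2 ⟨f_3153 h, List.forall_mem_cons.2 ⟨f_3154 h, List.forall_mem_cons.2 ⟨f_3155 h, List.forall_mem_cons.2 ⟨f_3156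 h,
    fun _ h0 => absurd h0 List.not_mem_nil⟩⟩⟩⟩⟩⟩⟩⟩⟩⟩⟩⟩⟩⟩⟩⟩⟩⟩⟩⟩⟩⟩⟩⟩⟩⟩⟩⟩

def F_3157 : FrX :=
  ⟨0x482000044040440000c2040020009000182040002021082000a00010014004004400108055000110000400002208100020081084200204011010800820,
    0xa0, 1, 0x324352607181a5, 7,
    [(0xa0, 1), (0x538690a2, 4), (0x548790a1, 4), (0x21437690, 4), (0x538690a2, 4), (0x548790a1, 4)],
    [(0x324352607181a5, 7), (0x657093a4, 4), (0x718693a2, 4), (0x10428593, 4), (0x657093a4, 4), (0x718693a2, 4)]⟩

def c_3157 : frmChk tA tA F_3157 = true := by decide +kernel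

def r_3157_0 : chkL rootF engF2 tA tA sA_341 sA_341 4 F_3157 [(511, 0, 0)]
    0x1 = true := by
  decide +kernel

theorem f_3157 (h : TabsF) : FrameF repsF 341 F_3157.f :=
  frame_of rfl c_3157 (runs_of engOK r_3157_0) (by decide +kernel) h.1 h.1

def F_3158 : FrX :=
  ⟨0x2002000900044004000e02041000141000800040800400218120002400020a0820000010805c000810040400000400101021800040600200300004011900,
    0xa3, 1, 0x104050617582a6, 7,
    [(0xa3, 1), (0x208693a5, 4), (0x10548793, 4), (0x217693a4, 4), (0x208693a5, 4), (0x10548793, 4)],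
    [(0x104050617582a6, 7), (0x738590a2, 4), (0x42657190, 4), (0x318690a4, 4), (0x738590a2, 4), (0x42657190, 4)]⟩

def c_3158 : frmChk tA tA F_3158 = true := by decide +kernel

def r_3158_0 : chkL rootF engF2 tA tA sA_341 sA_341 4 F_3158 [(511, 0, 0)]
    0x447 = true := by
  decide +kernel

theorem f_3158 (h : TabsF) : FrameF repsF 341 F_3158.f :=
  frame_of rfl c_3158 (runs_of engOK r_3158_0) (by decide +kernel) h.1 h.1

def F_3159 : FrX :=
  ⟨0x482000044040440000c20400200090001820400020804400008802000400900200188020220008148004008802200220080060004080a0002024200004,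
    0xa0, 1, 0x2031658794a0, 6,
    [(0xa0, 1), (0x538690a2, 4), (0x548790a1, 4), (0x21437690, 4), (0x538690a2, 4), (0x548790a1, 4)],
    [(0x2031658794a0, 6), (0x426175a0, 4), (0x428796a3, 4), (0x30428591, 4), (0x426175a0, 4), (0x428796a3, 4)]⟩

def c_3159 : frmChk tA tA F_3159 = true := by decide +kernel

def r_3159_0 : chkL rootF engF2 tA tA sA_341 sA_341 4 F_3159 [(511, 0, 0)]
    0x111d34 = true := by
  decide +kernel

theorem f_3159 (h : TabsF) : FrameF repsF 341 F_3159.f :=
  frame_of rfl c_3159 (runs_of engOK r_3159_0) (by decide +kernel) h.1 h.1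

def F_3160 : FrX :=
  ⟨0x1c2102000004044000002041000101000082040888200008000880200002208004440108054020010040420080608100021001080600204240004800800,
    0x0, 0, 0x436386, 3,
    [(0x0, 0), (0x205386a9, 4), (0x105487a9, 4), (0x214376a9, 4), (0x205386a9, 4), (0x105487a9, 4)],
    [(0x436386, 3), (0x206584a9, 4), (0x105374a9, 4), (0x216387a9, 4), (0x206584a9, 4), (0x105374a9, 4)]⟩

def c_3160 : frmChk tA tA F_3160 = true := by decide +kernel

def r_3160_0 : chkL rootF engF2 tA tA sA_341 sA_341 4 F_3160 [(255, 0, 0), (256, 0, 9)]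
    0x45c = true := by
  decide +kernel

def r_3160_1 : chkL rootF engF2 tA tA sA_341 sA_341 4 F_3160 [(256, 9, 6)]
    0x1 = true := by
  decide +kernel

def r_3160_2 : chkL rootF engF2 tA tA sA_341 sA_341 4 F_3160 [(256, 15, 0)]
    0x1 = true := by
  decide +kernel

theorem f_3160 (h : TabsF) : FrameF repsF 341 F_3160.f :=
  frame_of rfl c_3160 ((runs_of engOK r_3160_0).append ((runs_of engOK r_3160_1).append (runs_of engOK r_3160_2))) (by decide +kernel) h.1 h.1

def F_3161 : FrX :=
  ⟨0x2002000900044004000e02041000141000800040801000418000908202002200100040101028000880040400040410204040011020400200240144011010,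
    0xa3, 1, 0x20304351627598a0, 8,
    [(0xa3, 1), (0x208693a5, 4), (0x10548793, 4), (0x217693a4, 4), (0x208693a5, 4), (0x10548793, 4)],
    [(0x20304351627598a0, 8), (0x748390a6, 4), (0x728391a5, 4), (0x10426583, 4), (0x748390a6, 4), (0x728391a5, 4)]⟩

def c_3161 : frmChk tA tA F_3161 = true := by decide +kernel

def r_3161_0 : chkL rootF engF2 tA tA sA_341 sA_341 4 F_3161 [(511, 0, 0)]
    0x106c2b06c36 = true := by
  decide +kernel

theorem f_3161 (h : TabsF) : FrameF repsF 341 F_3161.f :=
  frame_of rfl c_3161 (runs_of engOK r_3161_0) (by decide +kernel) h.1 h.1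

def F_3162 : FrX :=
  ⟨0x80080a000804040e000021010020010000020408806000044081040000400840048220014000800800408000c04042010a1010040402800300080220100,
    0xa6, 1, 0x204154618094a8, 7,
    [(0xa6, 1), (0x205396a8, 4), (0x10548796, 4), (0x214396a7, 4), (0x205396a8, 4), (0x10548796, 4)],
    [(0x204154618094a8, 7), (0x315280a4, 4), (0x528691a7, 4), (0x52607493, 4), (0x315280a4, 4), (0x528691a7, 4)]⟩

def c_3162 : frmChk tA tA F_3162 = true := by decide +kernel

def r_3162_0 : chkL rootF engF2 tA tA sA_341 sA_341 4 F_3162 [(511, 0, 0)]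
    0x4360d80f03c69 = true := by
  decide +kernel

theorem f_3162 (h : TabsF) : FrameF repsF 341 F_3162.f :=
  frame_of rfl c_3162 (runs_of engOK r_3162_0) (by decide +kernel) h.1 h.1

def F_3163 : FrX :=
  ⟨0x80080a000804040e00002101002001000002040880a00004204082100080088004024008414020010040800080601100002001080408804240088020800,
    0xa6, 1, 0x3242508292a1, 6,
    [(0xa6, 1), (0x205396a8, 4), (0x10548796, 4), (0x214396a7, 4), (0x205396a8, 4), (0x10548796, 4)],
    [(0x3242508292a1, 6), (0x43627095, 4), (0x307681a5, 4), (0x42637081, 4), (0x307681a5, 4), (0x406372a9, 4), (0x32648195, 4), (0x42637081, 4), (0x32648195, 4), (0x426073a5, 4), (0x42637081, 4), (0x406372a9, 4)]⟩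

def c_3163 : frmChk tA tB F_3163 = true := by decide +kernel

def r_3163_0 : chkL rootF engF2 tA tB sA_341 sB_341 4 F_3163 [(511, 0, 0)]
    0x1 = true := by
  decide +kernel

theorem f_3163 (h : TabsF) : FrameF repsF 341 F_3163.f :=
  frame_of rfl c_3163 (runs_of engOK r_3163_0) (by decide +kernel) h.1 h.2

def F_3164 : FrX :=
  ⟨0x1c2102000004044000002041000101000082040888081000020000404000182008604001200808120000011120500408040208002200900300010608000,
    0x0, 0, 0x647583, 3,
    [(0x0, 0), (0x205386a9, 4), (0x105487a9, 4), (0x214376a9, 4), (0x205386a9, 4), (0x105487a9, 4)],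
    [(0x647583, 3), (0x204387a9, 4), (0x105376a9, 4), (0x215486a9, 4), (0x204387a9, 4), (0x105376a9, 4)]⟩

def c_3164 : frmChk tA tA F_3164 = true := by decide +kernel

def r_3164_0 : chkL rootF engF2 tA tA sA_341 sA_341 4 F_3164 [(511, 0, 0)]
    0x181f24c881e = true := by
  decide +kernel

theorem f_3164 (h : TabsF) : FrameF repsF 341 F_3164.f :=
  frame_of rfl c_3164 (runs_of engOK r_3164_0) (by decide +kernel) h.1 h.1

def F_3165 : FrX :=
  ⟨0x2002000900044004000e02041000141000800040804001020090020010202101100204001208008124000011020408008040008080a00100204020229000,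
    0xa3, 1, 0x405163758294a3, 7,
    [(0xa3, 1), (0x208693a5, 4), (0x10548793, 4), (0x217693a4, 4), (0x208693a5, 4), (0x10548793, 4)],
    [(0x405163758294a3, 7), (0x326084a7, 4), (0x21546097, 4), (0x316085a9, 4), (0x326084a7, 4), (0x21546097, 4)]⟩

def c_3165 : frmChk tA tA F_3165 = true := by decide +kernel

def r_3165_0 : chkL rootF engF2 tA tA sA_341 sA_341 4 F_3165 [(511, 0, 0)]
    0x436 = true := by
  decide +kernel

theorem f_3165 (h : TabsF) : FrameF repsF 341 F_3165.f :=
  frame_of rfl c_3165 (runs_of engOK r_3165_0) (by decide +kernel) h.1 h.1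

def F_3166 : FrX :=
  ⟨0x80080a000804040e000021010020010000020408805011001200048000022020080804024000410000200001232004088040480010006203008c0800000,
    0xa6, 1, 0x304251657091a1, 7,
    [(0xa6, 1), (0x205396a8, 4), (0x10548796, 4), (0x214396a7, 4), (0x205396a8, 4), (0x10548796, 4)],
    [(0x304251657091a1, 7), (0x60748195, 4), (0x628395a7, 4), (0x203195a4, 4), (0x60748195, 4), (0x628395a7, 4)]⟩

def c_3166 : frmChk tA tA F_3166 = true := by decide +kernel

def r_3166_0 : chkL rootF engF2 tA tA sA_341 sA_341 4 F_3166 [(511, 0, 0)]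
    0x10785c06c8d1545503c93 = true := by
  decide +kernel

theorem f_3166 (h : TabsF) : FrameF repsF 341 F_3166.f :=
  frame_of rfl c_3166 (runs_of engOK r_3166_0) (by decide +kernel) h.1 h.1

def F_3167 : FrX :=
  ⟨0x2002000900044004000e020410001410008000408008010211102000082021010002040020280020040300100210080088400080808080202048200a1000,
    0xa3, 1, 0x204251657582a6, 7,
    [(0xa3, 1), (0x208693a5, 4), (0x10548793, 4), (0x217693a4, 4), (0x208693a5, 4), (0x10548793, 4)],
    [(0x204251657582a6, 7), (0x738291a4, 4), (0x52647091, 4), (0x308591a6, 4), (0x738291a4, 4), (0x52647091, 4)]⟩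

def c_3167 : frmChk tA tA F_3167 = true := by decide +kernel

def r_3167_0 : chkL rootF engF2 tA tA sA_341 sA_341 4 F_3167 [(511, 0, 0)]
    0x105c4e = true := by
  decide +kernel

theorem f_3167 (h : TabsF) : FrameF repsF 341 F_3167.f :=
  frame_of rfl c_3167 (runs_of engOK r_3167_0) (by decide +kernel) h.1 h.1

def F_3168 : FrX :=
  ⟨0x80080a000804040e000021010020010000020408a0001001100090020142022000024000400049020020000888008108008042010000208044a220a0000,
    0xa6, 1, 0x1054628397a1, 6,
    [(0xa6, 1), (0x205396a8, 4), (0x10548796, 4), (0x214396a7, 4), (0x205396a8, 4), (0x10548796, 4)],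
    [(0x1054628397a1, 6), (0x32617084, 4), (0x547093a1, 4), (0x708592a6, 4), (0x32617084, 4), (0x547093a1, 4)]⟩

def c_3168 : frmChk tA tA F_3168 = true := by decide +kernel

def r_3168_0 : chkL rootF engF2 tA tA sA_341 sA_341 4 F_3168 [(511, 0, 0)]
    0x44e15847 = true := by
  decide +kernel

theorem f_3168 (h : TabsF) : FrameF repsF 341 F_3168.f :=
  frame_of rfl c_3168 (runs_of engOK r_3168_0) (by decide +kernel) h.1 h.1

def F_3169 : FrX :=
  ⟨0x482000044040440000c2040020009000182040001012080000900200080404018012020001040020800030808000140100142008028801000820800403,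
    0xa0, 1, 0x43526395a3, 5,
    [(0xa0, 1), (0x538690a2, 4), (0x548790a1, 4), (0x21437690, 4), (0x538690a2, 4), (0x548790a1, 4)],
    [(0x43526395a3, 5), (0x508397a4, 4), (0x10627493, 4), (0x436297a8, 4), (0x10627493, 4), (0x435198a7, 4), (0x506284a3, 4), (0x436297a8, 4), (0x506284a3, 4), (0x107394a8, 4), (0x436297a8, 4), (0x435198a7, 4)]⟩

def c_3169 : frmChk tA tB F_3169 = true := by decide +kernel

def r_3169_0 : chkL rootF engF2 tA tB sA_341 sB_341 4 F_3169 [(511, 0, 0)]
    0x105ea106c59 = true := by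
  decide +kernel

theorem f_3169 (h : TabsF) : FrameF repsF 341 F_3169.f :=
  frame_of rfl c_3169 (runs_of engOK r_3169_0) (by decide +kernel) h.1 h.2

def F_3170 : FrX :=
  ⟨0x80080a000804040e000021010020010000020408804810001200048000202020090804014000510800400002130004080040480010006003000c0800120,
    0xa6, 1, 0x425363708194a6, 7,
    [(0xa6, 1), (0x205396a8, 4), (0x10548796, 4), (0x214396a7, 4), (0x205396a8, 4), (0x10548796, 4)],
    [(0x425363708194a6, 7), (0x526374a1, 4), (0x10528793, 4), (0x528496a0, 4), (0x526374a1, 4), (0x10528793, 4)]⟩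

def c_3170 : frmChk tA tA F_3170 = true := by decide +kernel

def r_3170_0 : chkL rootF engF2 tA tA sA_341 sA_341 4 F_3170 [(511, 0, 0)]
    0x12b02b = true := by
  decide +kernel

theorem f_3170 (h : TabsF) : FrameF repsF 341 F_3170.f :=
  frame_of rfl c_3170 (runs_of engOK r_3170_0) (by decide +kernel) h.1 h.1

def F_3171 : FrX :=
  ⟨0x2002000900044004000e02041000141000800040810003020090000110202101000204001008008424040004401008008041008080a00000204020221402,
    0xa3, 1, 0x314052658295a5, 7,
    [(0xa3, 1), (0x208693a5, 4), (0x10548793, 4), (0x217693a4, 4), (0x208693a5, 4), (0x10548793, 4)],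
    [(0x314052658295a5, 7), (0x528496a1, 4), (0x437596a0, 4), (0x10728396, 4), (0x528496a1, 4), (0x437596a0, 4)]⟩

def c_3171 : frmChk tA tA F_3171 = true := by decide +kernel

def r_3171_0 : chkL rootF engF2 tA tA sA_341 sA_341 4 F_3171 [(511, 0, 0)]
    0x10780f = true := by
  decide +kernel

theorem f_3171 (h : TabsF) : FrameF repsF 341 F_3171.f :=
  frame_of rfl c_3171 (runs_of engOK r_3171_0) (by decide +kernel) h.1 h.1

def F_3172 : FrX :=
  ⟨0x80080a000804040e000021010020010000020408a00010011000900202420020040240004000490200200008880101010000420300101080042100c0041,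
    0xa6, 1, 0x213241527196a3, 7,
    [(0xa6, 1), (0x205396a8, 4), (0x10548796, 4), (0x214396a7, 4), (0x205396a8, 4), (0x10548796, 4)],
    [(0x213241527196a3, 7), (0x506198a3, 4), (0x32617084, 4), (0x617594a2, 4), (0x506198a3, 4), (0x32617084, 4)]⟩

def c_3172 : frmChk tA tA F_3172 = true := by decide +kernel

def r_3172_0 : chkL rootF engF2 tA tA sA_341 sA_341 4 F_3172 [(511, 0, 0)]
    0x106c1b0781e = true := by
  decide +kernel

theorem f_3172 (h : TabsF) : FrameF repsF 341 F_3172.f :=
  frame_of rfl c_3172 (runs_of engOK r_3172_0) (by decide +kernel) h.1 h.1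

def F_3173 : FrX :=
  ⟨0x2002000900044004000e020410001410008000408008010410102000082021010002440010280110840400100110080080400080808800002042200a1020,
    0xa3, 1, 0x3043648592a8, 6,
    [(0xa3, 1), (0x208693a5, 4), (0x10548793, 4), (0x217693a4, 4), (0x208693a5, 4), (0x10548793, 4)],
    [(0x3043648592a8, 6), (0x528493a0, 4), (0x315286a7, 4), (0x52647091, 4), (0x528493a0, 4), (0x315286a7, 4)]⟩

def c_3173 : frmChk tA tA F_3173 = true := by decide +kernel

def r_3173_0 : chkL rootF engF2 tA tA sA_341 sA_341 4 F_3173 [(511, 0, 0)]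
    0x4930d82b170171e02b = true := by
  decide +kernel

theorem f_3173 (h : TabsF) : FrameF repsF 341 F_3173.f :=
  frame_of rfl c_3173 (runs_of engOK r_3173_0) (by decide +kernel) h.1 h.1

def F_3174 : FrX :=
  ⟨0x482000044040440000c2040020009000182040001012080000900200080404004062020001040020800030808000140100082008448402000810800a01,
    0xa0, 1, 0x213161748695a3, 7,
    [(0xa0, 1), (0x538690a2, 4), (0x548790a1, 4), (0x21437690, 4), (0x538690a2, 4), (0x548790a1, 4)],
    [(0x213161748695a3, 7), (0x107394a8, 4), (0x52608497, 4), (0x528794a3, 4), (0x52608497, 4), (0x618793a4, 4), (0x105283a7, 4), (0x528794a3, 4), (0x105283a7, 4), (0x607498a3, 4), (0x528794a3, 4), (0x618793a4, 4)]⟩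

def c_3174 : frmChk tA tB F_3174 = true := by decide +kernel

def r_3174_0 : chkL rootF engF2 tA tB sA_341 sB_341 4 F_3174 [(511, 0, 0)]
    0x1 = true := by
  decide +kernel

theorem f_3174 (h : TabsF) : FrameF repsF 341 F_3174.f :=
  frame_of rfl c_3174 (runs_of engOK r_3174_0) (by decide +kernel) h.1 h.2

def F_3175 : FrX :=
  ⟨0x482000044040440000c2040020009000182040010040042001000180080041810100080808010110c00440402010400080090140080480104100000082,
    0xa0, 1, 0x4252648593a1, 6,
    [(0xa0, 1), (0x538690a2, 4), (0x548790a1, 4), (0x21437690, 4), (0x538690a2, 4), (0x548790a1, 4)],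
    [(0x4252648593a1, 6), (0x31425098, 4), (0x317486a0, 4), (0x317296a5, 4), (0x31425098, 4), (0x317486a0, 4)]⟩

def c_3175 : frmChk tA tA F_3175 = true := by decide +kernel

def r_3175_0 : chkL rootF engF2 tA tA sA_341 sA_341 4 F_3175 [(511, 0, 0)]
    0x103c0f = true := by
  decide +kernel

theorem f_3175 (h : TabsF) : FrameF repsF 341 F_3175.f :=
  frame_of rfl c_3175 (runs_of engOK r_3175_0) (by decide +kernel) h.1 h.1

def F_3176 : FrX :=
  ⟨0x482000044040440000c2040020009000182040010020082004000110098004804000111800080100800440442010000080090140100200501110000102,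
    0xa0, 1, 0x4263748495a8, 6,
    [(0xa0, 1), (0x538690a2, 4), (0x548790a1, 4), (0x21437690, 4), (0x538690a2, 4), (0x548790a1, 4)],
    [(0x4263748495a8, 6), (0x407596a3, 4), (0x107598a2, 4), (0x32417586, 4), (0x407596a3, 4), (0x107598a2, 4)]⟩

def c_3176 : frmChk tA tA F_3176 = true := by decide +kernel

def r_3176_0 : chkL rootF engF2 tA tA sA_341 sA_341 4 F_3176 [(511, 0, 0)]
    0x10d81e03c1b = true := by
  decide +kernel

theorem f_3176 (h : TabsF) : FrameF repsF 341 F_3176.f :=
  frame_of rfl c_3176 (runs_of engOK r_3176_0) (by decide +kernel) h.1 h.1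

def F_3177 : FrX :=
  ⟨0x2002000900044004000e02041000141000800040800401088120002400020a01200000101104000880043400000400801081800040600200300004011900,
    0xa3, 1, 0x10415062a3, 5,
    [(0xa3, 1), (0x208693a5, 4), (0x10548793, 4), (0x217693a4, 4), (0x208693a5, 4), (0x10548793, 4)],
    [(0x10415062a3, 5), (0x658293a1, 4), (0x10548793, 4), (0x647293a0, 4), (0x658293a1, 4), (0x10548793, 4)]⟩

def c_3177 : frmChk tA tA F_3177 = true := by decide +kernel

def r_3177_0 : chkL rootF engF2 tA tA sA_341 sA_341 4 F_3177 [(511, 0, 0)]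
    0x40f17063 = true := by
  decide +kernel

theorem f_3177 (h : TabsF) : FrameF repsF 341 F_3177.f :=
  frame_of rfl c_3177 (runs_of engOK r_3177_0) (by decide +kernel) h.1 h.1

def F_3178 : FrX :=
  ⟨0x80080a000804040e00002101002001000002040892420002010000400204004020500060400010010818000028080040201c0a001010121004002200004,
    0xa6, 1, 0x3142546287a7, 6,
    [(0xa6, 1), (0x205396a8, 4), (0x10548796, 4), (0x214396a7, 4), (0x205396a8, 4), (0x10548796, 4)],
    [(0x3142546287a7, 6), (0x416075a2, 4), (0x305298a4, 4), (0x547198a2, 4), (0x305298a4, 4), (0x546372a1, 4), (0x51607498, 4), (0x547198a2, 4), (0x51607498, 4), (0x304271a5, 4), (0x547198a2, 4), (0x546372a1, 4)]⟩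

def c_3178 : frmChk tA tB F_3178 = true := by decide +kernel

def r_3178_0 : chkL rootF engF2 tA tB sA_341 sB_341 4 F_3178 [(511, 0, 0)]
    0x11682b0ac0f03c0f154551542b0ac2b = true := by
  decide +kernel

theorem f_3178 (h : TabsF) : FrameF repsF 341 F_3178.f :=
  frame_of rfl c_3178 (runs_of engOK r_3178_0) (by decide +kernel) h.1 h.2

def F_3179 : FrX :=
  ⟨0x80080a000804040e000021010020010000020408a0240002080024800012008010400080400030020a00801210002801004001005003001040904010010,
    0xa6, 1, 0x2032618097a7, 6,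
    [(0xa6, 1), (0x205396a8, 4), (0x10548796, 4), (0x214396a7, 4), (0x205396a8, 4), (0x10548796, 4)],
    [(0x2032618097a7, 6), (0x21508397, 4), (0x548697a2, 4), (0x406397a1, 4), (0x21508397, 4), (0x548697a2, 4)]⟩

def c_3179 : frmChk tA tA F_3179 = true := by decide +kernel

def r_3179_0 : chkL rootF engF2 tA tA sA_341 sA_341 4 F_3179 [(511, 0, 0)]
    0x1 = true := by
  decide +kernel

theorem f_3179 (h : TabsF) : FrameF repsF 341 F_3179.f :=
  frame_of rfl c_3179 (runs_of engOK r_3179_0) (by decide +kernel) h.1 h.1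

def F_3180 : FrX :=
  ⟨0x80080a000804040e0000210100200100000204088101100102001002002400400412102000800400a01000004412000a002080480048424000810440200,
    0xa6, 1, 0x2131425162718597a3, 9,
    [(0xa6, 1), (0x205396a8, 4), (0x10548796, 4), (0x214396a7, 4), (0x205396a8, 4), (0x10548796, 4)],
    [(0x2131425162718597a3, 9), (0x435260a8, 4), (0x52708193, 4), (0x527694a1, 4), (0x435260a8, 4), (0x52708193, 4)]⟩

def c_3180 : frmChk tA tA F_3180 = true := by decide +kernel

def r_3180_0 : chkL rootF engF2 tA tA sA_341 sA_341 4 F_3180 [(511, 0, 0)]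
    0x4550b82e = true := by
  decide +kernel

theorem f_3180 (h : TabsF) : FrameF repsF 341 F_3180.f :=
  frame_of rfl c_3180 (runs_of engOK r_3180_0) (by decide +kernel) h.1 h.1

def F_3181 : FrX :=
  ⟨0x2002000900044004000e0204100014100080004080100048101002020100018204002802050000401404410040100000a004020401041020200110008104,
    0xa3, 1, 0x2131506292a6, 6,
    [(0xa3, 1), (0x208693a5, 4), (0x10548793, 4), (0x217693a4, 4), (0x208693a5, 4), (0x10548793, 4)],
    [(0x2131506292a6, 6), (0x708495a2, 4), (0x405361a7, 4), (0x617082a4, 4), (0x405361a7, 4), (0x728093a4, 4), (0x426195a8, 4), (0x617082a4, 4), (0x426195a8, 4), (0x537482a0, 4), (0x617082a4, 4), (0x728093a4, 4)]⟩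

def c_3181 : frmChk tA tB F_3181 = true := by decide +kernel

def r_3181_0 : chkL rootF engF2 tA tB sA_341 sB_341 4 F_3181 [(511, 0, 0)]
    0x42b992701980f31ac1b1066 = true := by
  decide +kernel

theorem f_3181 (h : TabsF) : FrameF repsF 341 F_3181.f :=
  frame_of rfl c_3181 (runs_of engOK r_3181_0) (by decide +kernel) h.1 h.2

def F_3182 : FrX :=
  ⟨0x482000044040440000c204002000900018204002000104200002028001405001008040008b00048002040400222000a00801000040440402002400020c,
    0xa0, 1, 0x435464758291a3, 7,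
    [(0xa0, 1), (0x538690a2, 4), (0x548790a1, 4), (0x21437690, 4), (0x538690a2, 4), (0x548790a1, 4)],
    [(0x435464758291a3, 7), (0x415280a7, 4), (0x32417690, 4), (0x415398a6, 4), (0x415280a7, 4), (0x32417690, 4)]⟩

def c_3182 : frmChk tA tA F_3182 = true := by decide +kernel

def r_3182_0 : chkL rootF engF2 tA tA sA_341 sA_341 4 F_3182 [(511, 0, 0)]
    0x10e80f = true := by
  decide +kernel

theorem f_3182 (h : TabsF) : FrameF repsF 341 F_3182.f :=
  frame_of rfl c_3182 (runs_of engOK r_3182_0) (by decide +kernel) h.1 h.1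

def F_3183 : FrX :=
  ⟨0x2002000900044004000e020410001410008000408100000d2000802402004080140000110000030204040420410010002010820204001020240140008050,
    0xa3, 1, 0x316487a5, 4,
    [(0xa3, 1), (0x208693a5, 4), (0x10548793, 4), (0x217693a4, 4), (0x208693a5, 4), (0x10548793, 4)],
    [(0x316487a5, 4), (0x204176a8, 4), (0x308495a6, 4), (0x647195a8, 4), (0x308495a6, 4), (0x326481a7, 4), (0x20617495, 4), (0x647195a8, 4), (0x20617495, 4), (0x307186a4, 4), (0x647195a8, 4), (0x326481a7, 4)]⟩

def c_3183 : frmChk tA tB F_3183 = true := by decide +kernel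

def r_3183_0 : chkL rootF engF2 tA tB sA_341 sB_341 4 F_3183 [(511, 0, 0)]
    0x119465 = true := by
  decide +kernel

theorem f_3183 (h : TabsF) : FrameF repsF 341 F_3183.f :=
  frame_of rfl c_3183 (runs_of engOK r_3183_0) (by decide +kernel) h.1 h.2

def F_3184 : FrX :=
  ⟨0x80080a000804040e000021010020010000020408820204010084000082400000310140100400090000308000c120100200400a020401008902024080000,
    0xa6, 1, 0x214050708392a6, 7,
    [(0xa6, 1), (0x205396a8, 4), (0x10548796, 4), (0x214396a7, 4), (0x205396a8, 4), (0x10548796, 4)],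
    [(0x214050708392a6, 7), (0x305497a8, 4), (0x406172a5, 4), (0x546183a0, 4), (0x406172a5, 4), (0x438592a0, 4), (0x618097a3, 4), (0x546183a0, 4), (0x618097a3, 4), (0x507283a4, 4), (0x546183a0, 4), (0x438592a0, 4)]⟩

def c_3184 : frmChk tA tB F_3184 = true := by decide +kernel

def r_3184_0 : chkL rootF engF2 tA tB sA_341 sB_341 4 F_3184 [(511, 0, 0)]
    0x113859 = true := by
  decide +kernel

theorem f_3184 (h : TabsF) : FrameF repsF 341 F_3184.f :=
  frame_of rfl c_3184 (runs_of engOK r_3184_0) (by decide +kernel) h.1 h.2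

theorem cl_341 (h : TabsF) : ∀ f ∈ fr_341, FrameF repsF 341 f :=
  List.forall_mem_cons.2 ⟨f_3157 h, List.forall_mem_cons.2 ⟨f_3158 h, List.forall_mem_cons.2 ⟨f_3159 h, List.forall_mem_cons.2 ⟨f_3160 h, List.forall_mem_cons.2 ⟨f_3161 h, List.forall_mem_cons.2 ⟨f_3162 h, List.forall_mem_cons.2 ⟨f_3163 h, List.forall_mem_cons.2 ⟨f_3164 h, List.forall_mem_cons.2 ⟨f_3165 h, List.forall_mem_cons.2 ⟨f_3166 h, List.forall_mem_cons.2 ⟨f_3167 h, List.forall_mem_cons.2 ⟨f_3168 h, List.forall_mem_cons.2 ⟨f_3169 h, List.forall_mem_cons.2 ⟨f_3170 h, List.forall_mem_cons.2 ⟨f_3171 h, List.forall_mem_cons.2 ⟨f_3172 h, List.forall_mem_cons.2 ⟨f_3173 h, List.forall_mem_cons.2 ⟨f_3174 h, List.forall_mem_cons.2 ⟨f_3175 h, List.forall_mem_cons.2 ⟨f_3176 h, List.forall_mem_cons.2 ⟨f_3177 h, List.forall_mem_cons.2 ⟨f_3178 h, List.forall_mem_cons.2 ⟨f_3179 h, List.forall_mem_cons.2 ⟨f_3180 h, List.forall_mem_cons.2 ⟨f_3181 h, List.forall_mem_cons.2 ⟨f_3182 h, List.forall_mem_cons.2 ⟨f_3183 h, List.forall_mem_cons.2 ⟨f_3184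 h,
    fun _ h0 => absurd h0 List.not_mem_nil⟩⟩⟩⟩⟩⟩⟩⟩⟩⟩⟩⟩⟩⟩⟩⟩⟩⟩⟩⟩⟩⟩⟩⟩⟩⟩⟩⟩

def F_3185 : FrX :=
  ⟨0x80080a000804040e00002101002001000002040881081000048028000480202000023020001040008090003010500101042004080410084010010142000,
    0xa6, 1, 0x104251758092a5, 7,
    [(0xa6, 1), (0x205396a8, 4), (0x10548796, 4), (0x214396a7, 4), (0x205396a8, 4), (0x10548796, 4)],
    [(0x104251758092a5, 7), (0x617498a3, 4), (0x107485a2, 4), (0x32607495, 4), (0x617498a3, 4), (0x107485a2, 4)]⟩

def c_3185 : frmChk tA tA F_3185 = true := by decide +kernel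

def r_3185_0 : chkL rootF engF2 tA tA sA_342 sA_342 4 F_3185 [(511, 0, 0)]
    0x447 = true := by
  decide +kernel

theorem f_3185 (h : TabsF) : FrameF repsF 342 F_3185.f :=
  frame_of rfl c_3185 (runs_of engOK r_3185_0) (by decide +kernel) h.1 h.1

def F_3186 : FrX :=
  ⟨0x80080a000804040e00002101002001000002040882200002084024800012008010400080c00010021000802013202800004001005003001080904014000,
    0xa6, 1, 0x203140657291a8, 7,
    [(0xa6, 1), (0x205396a8, 4), (0x10548796, 4), (0x214396a7, 4), (0x205396a8, 4), (0x10548796, 4)],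
    [(0x203140657291a8, 7), (0x617483a5, 4), (0x628394a0, 4), (0x21508397, 4), (0x617483a5, 4), (0x628394a0, 4)]⟩

def c_3186 : frmChk tA tA F_3186 = true := by decide +kernel

def r_3186_0 : chkL rootF engF2 tA tA sA_342 sA_342 4 F_3186 [(511, 0, 0)]
    0x12368c8340f07a838cb84e081b06c0f85a1311c1b = true := by
  decide +kernel

theorem f_3186 (h : TabsF) : FrameF repsF 342 F_3186.f :=
  frame_of rfl c_3186 (runs_of engOK r_3186_0) (by decide +kernel) h.1 h.1

def F_3187 : FrX :=
  ⟨0x482000044040440000c204002000900018204002000082800002028004089004002008010101012100020200320880024800100804800008201000c200,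
    0xa0, 1, 0x1062748593a0, 6,
    [(0xa0, 1), (0x538690a2, 4), (0x548790a1, 4), (0x21437690, 4), (0x538690a2, 4), (0x548790a1, 4)],
    [(0x1062748593a0, 6), (0x315298a6, 4), (0x315487a0, 4), (0x31426097, 4), (0x315298a6, 4), (0x315487a0, 4)]⟩

def c_3187 : frmChk tA tA F_3187 = true := by decide +kernel

def r_3187_0 : chkL rootF engF2 tA tA sA_342 sA_342 4 F_3187 [(511, 0, 0)]
    0x4360d51c84c0f2e01e = true := by
  decide +kernel

theorem f_3187 (h : TabsF) : FrameF repsF 342 F_3187.f :=
  frame_of rfl c_3187 (runs_of engOK r_3187_0) (by decide +kernel) h.1 h.1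

def F_3188 : FrX :=
  ⟨0x1c2102000004044000002041000101000082040888200008001020400000c0801082008090001002100020a013208800048001005048001080880014000,
    0x0, 0, 0x546576, 3,
    [(0x0, 0), (0x205386a9, 4), (0x105487a9, 4), (0x214376a9, 4), (0x205386a9, 4), (0x105487a9, 4)],
    [(0x546576, 3), (0x206387a9, 4), (0x106584a9, 4), (0x215374a9, 4), (0x206387a9, 4), (0x106584a9, 4)]⟩

def c_3188 : frmChk tA tA F_3188 = true := by decide +kernel

def r_3188_0 : chkL rootF engF2 tA tA sA_342 sA_342 4 F_3188 [(255, 0, 0), (256, 0, 9)]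
    0x48b = true := by
  decide +kernel

def r_3188_1 : chkL rootF engF2 tA tA sA_342 sA_342 4 F_3188 [(256, 9, 5)]
    0x41784c271341e = true := by
  decide +kernel

def r_3188_2 : chkL rootF engF2 tA tA sA_342 sA_342 4 F_3188 [(256, 14, 0)]
    0x40f = true := by
  decide +kernel

theorem f_3188 (h : TabsF) : FrameF repsF 342 F_3188.f :=
  frame_of rfl c_3188 ((runs_of engOK r_3188_0).append ((runs_of engOK r_3188_1).append (runs_of engOK r_3188_2))) (by decide +kernel) h.1 h.1

def F_3189 : FrX :=
  ⟨0x2002000900044004000e02041000141000800040800801100080c00400224000100880204081001008080007010410100000206040601000011024200008,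
    0xa3, 1, 0x21314051738591a0, 8,
    [(0xa3, 1), (0x208693a5, 4), (0x10548793, 4), (0x217693a4, 4), (0x208693a5, 4), (0x10548793, 4)],
    [(0x21314051738591a0, 8), (0x546387a1, 4), (0x325480a9, 4), (0x54627091, 4), (0x546387a1, 4), (0x325480a9, 4)]⟩

def c_3189 : frmChk tA tA F_3189 = true := by decide +kernel

def r_3189_0 : chkL rootF engF2 tA tA sA_342 sA_342 4 F_3189 [(511, 0, 0)]
    0x6c44d04b0cc1e0f017 = true := by
  decide +kernel

theorem f_3189 (h : TabsF) : FrameF repsF 342 F_3189.f :=
  frame_of rfl c_3189 (runs_of engOK r_3189_0) (by decide +kernel) h.1 h.1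

def F_3190 : FrX :=
  ⟨0x482000044040440000c2040020009000182040000822040808100008010101012000410020080200800082181020400204004440010120004140010028,
    0xa0, 1, 0x213250617187a6, 7,
    [(0xa0, 1), (0x538690a2, 4), (0x548790a1, 4), (0x21437690, 4), (0x538690a2, 4), (0x548790a1, 4)],
    [(0x213250617187a6, 7), (0x105392a6, 4), (0x40758692, 4), (0x417392a8, 4), (0x105392a6, 4), (0x40758692, 4)]⟩

def c_3190 : frmChk tA tA F_3190 = true := by decide +kernel

def r_3190_0 : chkL rootF engF2 tA tA sA_342 sA_342 4 F_3190 [(511, 0, 0)]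
    0x10b82d = true := by
  decide +kernel

theorem f_3190 (h : TabsF) : FrameF repsF 342 F_3190.f :=
  frame_of rfl c_3190 (runs_of engOK r_3190_0) (by decide +kernel) h.1 h.1

def F_3191 : FrX :=
  ⟨0x80080a000804040e00002101002001000002040881200002208028000020202080408040c00040080080800210810140000110005001081010404642000,
    0xa6, 1, 0x3141607694a2, 6,
    [(0xa6, 1), (0x205396a8, 4), (0x10548796, 4), (0x214396a7, 4), (0x205396a8, 4), (0x10548796, 4)],
    [(0x3141607694a2, 6), (0x507198a6, 4), (0x32647095, 4), (0x32508197, 4), (0x32647095, 4), (0x108597a4, 4), (0x328791a6, 4), (0x32508197, 4), (0x328791a6, 4), (0x64758190, 4), (0x32508197, 4), (0x108597a4, 4)]⟩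

def c_3191 : frmChk tA tB F_3191 = true := by decide +kernel

def r_3191_0 : chkL rootF engF2 tA tB sA_342 sB_342 4 F_3191 [(511, 0, 0)]
    0x11d0743501d11c74 = true := by
  decide +kernel

theorem f_3191 (h : TabsF) : FrameF repsF 342 F_3191.f :=
  frame_of rfl c_3191 (runs_of engOK r_3191_0) (by decide +kernel) h.1 h.2

def F_3192 : FrX :=
  ⟨0x1c2102000004044000002041000101000082040888081000020000404000182008604001100008120000811120500408041008022200900300010208000,
    0x0, 0, 0x647583, 3,
    [(0x0, 0), (0x205386a9, 4), (0x105487a9, 4), (0x214376a9, 4), (0x205386a9, 4), (0x105487a9, 4)],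
    [(0x647583, 3), (0x204387a9, 4), (0x105376a9, 4), (0x215486a9, 4), (0x204387a9, 4), (0x105376a9, 4)]⟩

def c_3192 : frmChk tA tA F_3192 = true := by decide +kernel

def r_3192_0 : chkL rootF engF2 tA tA sA_342 sA_342 4 F_3192 [(511, 0, 0)]
    0x44d85607 = true := by
  decide +kernel

theorem f_3192 (h : TabsF) : FrameF repsF 342 F_3192.f :=
  frame_of rfl c_3192 (runs_of engOK r_3192_0) (by decide +kernel) h.1 h.1

def F_3193 : FrX :=
  ⟨0x2002000900044004000e02041000141000800040810003020090000110202101000204001008008124000011020408008041008080a00100204020229000,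
    0xa3, 1, 0x203142536380a3, 7,
    [(0xa3, 1), (0x208693a5, 4), (0x10548793, 4), (0x217693a4, 4), (0x208693a5, 4), (0x10548793, 4)],
    [(0x203142536380a3, 7), (0x528496a1, 4), (0x10728396, 4), (0x437596a0, 4), (0x528496a1, 4), (0x10728396, 4)]⟩

def c_3193 : frmChk tA tA F_3193 = true := by decide +kernel

def r_3193_0 : chkL rootF engF2 tA tA sA_342 sA_342 4 F_3193 [(511, 0, 0)]
    0x42e09c1e50c27 = true := by
  decide +kernel

theorem f_3193 (h : TabsF) : FrameF repsF 342 F_3193.f :=
  frame_of rfl c_3193 (runs_of engOK r_3193_0) (by decide +kernel) h.1 h.1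

def F_3194 : FrX :=
  ⟨0x80080a000804040e000021010020010000020408804810001200048000202020090804024000410800200001232004088040480010006003008c0800000,
    0xa6, 1, 0x425363708194a6, 7,
    [(0xa6, 1), (0x205396a8, 4), (0x10548796, 4), (0x214396a7, 4), (0x205396a8, 4), (0x10548796, 4)],
    [(0x425363708194a6, 7), (0x526374a1, 4), (0x10528793, 4), (0x528496a0, 4), (0x526374a1, 4), (0x10528793, 4)]⟩

def c_3194 : frmChk tA tA F_3194 = true := by decide +kernel

def r_3194_0 : chkL rootF engF2 tA tA sA_342 sA_342 4 F_3194 [(511, 0, 0)]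
    0x44d0b44e = true := by
  decide +kernel

theorem f_3194 (h : TabsF) : FrameF repsF 342 F_3194.f :=
  frame_of rfl c_3194 (runs_of engOK r_3194_0) (by decide +kernel) h.1 h.1

def F_3195 : FrX :=
  ⟨0x2002000900044004000e02041000141000800040800801021110200008202101000204002028001084020010021008008840008080880000204a200a1000,
    0xa3, 1, 0x204251657582a6, 7,
    [(0xa3, 1), (0x208693a5, 4), (0x10548793, 4), (0x217693a4, 4), (0x208693a5, 4), (0x10548793, 4)],
    [(0x204251657582a6, 7), (0x738291a4, 4), (0x52647091, 4), (0x308591a6, 4), (0x738291a4, 4), (0x52647091, 4)]⟩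

def c_3195 : frmChk tA tA F_3195 = true := by decide +kernel

def r_3195_0 : chkL rootF engF2 tA tA sA_342 sA_342 4 F_3195 [(511, 0, 0)]
    0x507 = true := by
  decide +kernel

theorem f_3195 (h : TabsF) : FrameF repsF 342 F_3195.f :=
  frame_of rfl c_3195 (runs_of engOK r_3195_0) (by decide +kernel) h.1 h.1

def F_3196 : FrX :=
  ⟨0x80080a000804040e000021010020010000020408a0001001100090020142022000024000400049020020000888010101000042030010208004a220a0000,
    0xa6, 1, 0x1054628397a1, 6,
    [(0xa6, 1), (0x205396a8, 4), (0x10548796, 4), (0x214396a7, 4), (0x205396a8, 4), (0x10548796, 4)],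
    [(0x1054628397a1, 6), (0x32617084, 4), (0x547093a1, 4), (0x708592a6, 4), (0x32617084, 4), (0x547093a1, 4)]⟩

def c_3196 : frmChk tA tA F_3196 = true := by decide +kernel

def r_3196_0 : chkL rootF engF2 tA tA sA_342 sA_342 4 F_3196 [(511, 0, 0)]
    0x44e0b88d3481b1e0b80b82e0b856 = true := by
  decide +kernel

theorem f_3196 (h : TabsF) : FrameF repsF 342 F_3196.f :=
  frame_of rfl c_3196 (runs_of engOK r_3196_0) (by decide +kernel) h.1 h.1

def F_3197 : FrX :=
  ⟨0x482000044040440000c2040020009000182040001012080000900200080404018012020001040020800030808000140100142008048402000810800403,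
    0xa0, 1, 0x43526395a3, 5,
    [(0xa0, 1), (0x538690a2, 4), (0x548790a1, 4), (0x21437690, 4), (0x538690a2, 4), (0x548790a1, 4)],
    [(0x43526395a3, 5), (0x508397a4, 4), (0x10627493, 4), (0x436297a8, 4), (0x10627493, 4), (0x435198a7, 4), (0x506284a3, 4), (0x436297a8, 4), (0x506284a3, 4), (0x107394a8, 4), (0x436297a8, 4), (0x435198a7, 4)]⟩

def c_3197 : frmChk tA tB F_3197 = true := by decide +kernel

def r_3197_0 : chkL rootF engF2 tA tB sA_342 sB_342 4 F_3197 [(511, 0, 0)]
    0x643d0459 = true := by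
  decide +kernel

theorem f_3197 (h : TabsF) : FrameF repsF 342 F_3197.f :=
  frame_of rfl c_3197 (runs_of engOK r_3197_0) (by decide +kernel) h.1 h.2

def F_3198 : FrX :=
  ⟨0x80080a000804040e000021010020010000020408805011001200048000022020080804014000510000400002130004080040480010006203000c0800120,
    0xa6, 1, 0x304251657091a1, 7,
    [(0xa6, 1), (0x205396a8, 4), (0x10548796, 4), (0x214396a7, 4), (0x205396a8, 4), (0x10548796, 4)],
    [(0x304251657091a1, 7), (0x60748195, 4), (0x628395a7, 4), (0x203195a4, 4), (0x60748195, 4), (0x628395a7, 4)]⟩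

def c_3198 : frmChk tA tA F_3198 = true := by decide +kernel

def r_3198_0 : chkL rootF engF2 tA tA sA_342 sA_342 4 F_3198 [(511, 0, 0)]
    0x106c2d0d98986a1a0b61a = true := by
  decide +kernel

theorem f_3198 (h : TabsF) : FrameF repsF 342 F_3198.f :=
  frame_of rfl c_3198 (runs_of engOK r_3198_0) (by decide +kernel) h.1 h.1

def F_3199 : FrX :=
  ⟨0x2002000900044004000e02041000141000800040804001020090020010202101100204001208008424040004401008008040008080a00000204020221402,
    0xa3, 1, 0x405163758294a3, 7,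
    [(0xa3, 1), (0x208693a5, 4), (0x10548793, 4), (0x217693a4, 4), (0x208693a5, 4), (0x10548793, 4)],
    [(0x405163758294a3, 7), (0x326084a7, 4), (0x21546097, 4), (0x316085a9, 4), (0x326084a7, 4), (0x21546097, 4)]⟩

def c_3199 : frmChk tA tA F_3199 = true := by decide +kernel

def r_3199_0 : chkL rootF engF2 tA tA sA_342 sA_342 4 F_3199 [(511, 0, 0)]
    0x427 = true := by
  decide +kernel

theorem f_3199 (h : TabsF) : FrameF repsF 342 F_3199.f :=
  frame_of rfl c_3199 (runs_of engOK r_3199_0) (by decide +kernel) h.1 h.1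

def F_3200 : FrX :=
  ⟨0x80080a000804040e000021010020010000020408a00010011000900202420020040240004000490200200008880081080080420100001080442100c0041,
    0xa6, 1, 0x213241527196a3, 7,
    [(0xa6, 1), (0x205396a8, 4), (0x10548796, 4), (0x214396a7, 4), (0x205396a8, 4), (0x10548796, 4)],
    [(0x213241527196a3, 7), (0x506198a3, 4), (0x32617084, 4), (0x617594a2, 4), (0x506198a3, 4), (0x32617084, 4)]⟩

def c_3200 : frmChk tA tA F_3200 = true := by decide +kernel

def r_3200_0 : chkL rootF engF2 tA tA sA_342 sA_342 4 F_3200 [(511, 0, 0)]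
    0x41b05c33 = true := by
  decide +kernel

theorem f_3200 (h : TabsF) : FrameF repsF 342 F_3200.f :=
  frame_of rfl c_3200 (runs_of engOK r_3200_0) (by decide +kernel) h.1 h.1

def F_3201 : FrX :=
  ⟨0x2002000900044004000e020410001410008000408008010410102000082021010002440010280120040500100110080080400080808080202040200a1020,
    0xa3, 1, 0x3043648592a8, 6,
    [(0xa3, 1), (0x208693a5, 4), (0x10548793, 4), (0x217693a4, 4), (0x208693a5, 4), (0x10548793, 4)],
    [(0x3043648592a8, 6), (0x528493a0, 4), (0x315286a7, 4), (0x52647091, 4), (0x528493a0, 4), (0x315286a7, 4)]⟩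

def c_3201 : frmChk tA tA F_3201 = true := by decide +kernel

def r_3201_0 : chkL rootF engF2 tA tA sA_342 sA_342 4 F_3201 [(511, 0, 0)]
    0x124c0f = true := by
  decide +kernel

theorem f_3201 (h : TabsF) : FrameF repsF 342 F_3201.f :=
  frame_of rfl c_3201 (runs_of engOK r_3201_0) (by decide +kernel) h.1 h.1

def F_3202 : FrX :=
  ⟨0x482000044040440000c2040020009000182040001012080000900200080404004062020001040020800030808000140100082008428801000820800a01,
    0xa0, 1, 0x213161748695a3, 7,
    [(0xa0, 1), (0x538690a2, 4), (0x548790a1, 4), (0x21437690, 4), (0x538690a2, 4), (0x548790a1, 4)],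
    [(0x213161748695a3, 7), (0x107394a8, 4), (0x52608497, 4), (0x528794a3, 4), (0x52608497, 4), (0x618793a4, 4), (0x105283a7, 4), (0x528794a3, 4), (0x105283a7, 4), (0x607498a3, 4), (0x528794a3, 4), (0x618793a4, 4)]⟩

def c_3202 : frmChk tA tB F_3202 = true := by decide +kernel

def r_3202_0 : chkL rootF engF2 tA tB sA_342 sB_342 4 F_3202 [(511, 0, 0)]
    0x1 = true := by
  decide +kernel

theorem f_3202 (h : TabsF) : FrameF repsF 342 F_3202.f :=
  frame_of rfl c_3202 (runs_of engOK r_3202_0) (by decide +kernel) h.1 h.2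

def F_3203 : FrX :=
  ⟨0x482000044040440000c204002000900018204002000090040020003001404104020040010b080220800820001001801240000048108000004100008448,
    0xa0, 1, 0x10315262748791a0, 8,
    [(0xa0, 1), (0x538690a2, 4), (0x548790a1, 4), (0x21437690, 4), (0x538690a2, 4), (0x548790a1, 4)],
    [(0x10315262748791a0, 8), (0x203154a6, 4), (0x317284a9, 4), (0x31708596, 4), (0x203154a6, 4), (0x317284a9, 4)]⟩

def c_3203 : frmChk tA tA F_3203 = true := by decide +kernel

def r_3203_0 : chkL rootF engF2 tA tA sA_342 sA_342 4 F_3203 [(511, 0, 0)]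
    0x42e15455 = true := by
  decide +kernel

theorem f_3203 (h : TabsF) : FrameF repsF 342 F_3203.f :=
  frame_of rfl c_3203 (runs_of engOK r_3203_0) (by decide +kernel) h.1 h.1

def F_3204 : FrX :=
  ⟨0x80080a000804040e000021010020010000020408a5001000040028000480202000023000400141008080001104110101142000080410084010010140200,
    0xa6, 1, 0x10203142637186a6, 8,
    [(0xa6, 1), (0x205396a8, 4), (0x10548796, 4), (0x214396a7, 4), (0x205396a8, 4), (0x10548796, 4)],
    [(0x10203142637186a6, 8), (0x426598a0, 4), (0x30517298, 4), (0x617498a3, 4), (0x426598a0, 4), (0x30517298, 4)]⟩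

def c_3204 : frmChk tA tA F_3204 = true := by decide +kernel

def r_3204_0 : chkL rootF engF2 tA tA sA_342 sA_342 4 F_3204 [(511, 0, 0)]
    0x116847 = true := by
  decide +kernel

theorem f_3204 (h : TabsF) : FrameF repsF 342 F_3204.f :=
  frame_of rfl c_3204 (runs_of engOK r_3204_0) (by decide +kernel) h.1 h.1

def F_3205 : FrX :=
  ⟨0x80080a000804040e000021010020010000020408a0001002080024800812008010400084c00011020200001212002800004001005013001000904010010,
    0xa6, 1, 0x305163728490a3, 7,
    [(0xa6, 1), (0x205396a8, 4), (0x10548796, 4), (0x214396a7, 4), (0x205396a8, 4), (0x10548796, 4)],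
    [(0x305163728490a3, 7), (0x406397a1, 4), (0x42638195, 4), (0x206375a8, 4), (0x406397a1, 4), (0x42638195, 4)]⟩

def c_3205 : frmChk tA tA F_3205 = true := by decide +kernel

def r_3205_0 : chkL rootF engF2 tA tA sA_342 sA_342 4 F_3205 [(511, 0, 0)]
    0x11384e0e8f006cf01380f = true := by
  decide +kernel

theorem f_3205 (h : TabsF) : FrameF repsF 342 F_3205.f :=
  frame_of rfl c_3205 (runs_of engOK r_3205_0) (by decide +kernel) h.1 h.1

def F_3206 : FrX :=
  ⟨0x2002000900044004000e020410001410008000408008032400084000082084000001030008880010840802000108081000082100060800000110a100a080,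
    0xa3, 1, 0x1032406393a3, 6,
    [(0xa3, 1), (0x208693a5, 4), (0x10548793, 4), (0x217693a4, 4), (0x208693a5, 4), (0x10548793, 4)],
    [(0x1032406393a3, 6), (0x437581a2, 4), (0x40517296, 4), (0x217596a8, 4), (0x40517296, 4), (0x213085a7, 4), (0x438296a1, 4), (0x217596a8, 4), (0x438296a1, 4), (0x405271a8, 4), (0x217596a8, 4), (0x213085a7, 4)]⟩

def c_3206 : frmChk tA tB F_3206 = true := by decide +kernel

def r_3206_0 : chkL rootF engF2 tA tB sA_342 sB_342 4 F_3206 [(511, 0, 0)]
    0x53805c0f = true := by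
  decide +kernel

theorem f_3206 (h : TabsF) : FrameF repsF 342 F_3206.f :=
  frame_of rfl c_3206 (runs_of engOK r_3206_0) (by decide +kernel) h.1 h.2

def F_3207 : FrX :=
  ⟨0x2002000900044004000e02041000141000800040800402080120002400020a01a0000010110400040c0000048008008011000a0006049000000840440450,
    0xa3, 1, 0x1031427392a6, 6,
    [(0xa3, 1), (0x208693a5, 4), (0x10548793, 4), (0x217693a4, 4), (0x208693a5, 4), (0x10548793, 4)],
    [(0x1031427392a6, 6), (0x647591a8, 4), (0x31526480, 4), (0x647293a0, 4), (0x647591a8, 4), (0x31526480, 4)]⟩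

def c_3207 : frmChk tA tA F_3207 = true := by decide +kernel

def r_3207_0 : chkL rootF engF2 tA tA sA_342 sA_342 4 F_3207 [(511, 0, 0)]
    0x106cc3b080f = true := by
  decide +kernel

theorem f_3207 (h : TabsF) : FrameF repsF 342 F_3207.f :=
  frame_of rfl c_3207 (runs_of engOK r_3207_0) (by decide +kernel) h.1 h.1

def F_3208 : FrX :=
  ⟨0x482000044040440000c2040020009000182040002020842000a0001001400800440010108100018000a400002208800040081084200204011010800820,
    0xa0, 1, 0x324152617086a3, 7,
    [(0xa0, 1), (0x538690a2, 4), (0x548790a1, 4), (0x21437690, 4), (0x538690a2, 4), (0x548790a1, 4)],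
    [(0x324152617086a3, 7), (0x758492a3, 4), (0x31407692, 4), (0x658092a1, 4), (0x758492a3, 4), (0x31407692, 4)]⟩

def c_3208 : frmChk tA tA F_3208 = true := by decide +kernel

def r_3208_0 : chkL rootF engF2 tA tA sA_342 sA_342 4 F_3208 [(511, 0, 0)]
    0x42b1a82d0b82e = true := by
  decide +kernel

theorem f_3208 (h : TabsF) : FrameF repsF 342 F_3208.f :=
  frame_of rfl c_3208 (runs_of engOK r_3208_0) (by decide +kernel) h.1 h.1

def F_3209 : FrX :=
  ⟨0x80080a000804040e00002101002001000002040880411004008088000220201000802060008010014190000020600400221010041010108100040210040,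
    0xa6, 1, 0x2032608491a7, 6,
    [(0xa6, 1), (0x205396a8, 4), (0x10548796, 4), (0x214396a7, 4), (0x205396a8, 4), (0x10548796, 4)],
    [(0x2032608491a7, 6), (0x206384a5, 4), (0x718596a2, 4), (0x407182a5, 4), (0x718596a2, 4), (0x548293a0, 4), (0x42637180, 4), (0x407182a5, 4), (0x42637180, 4), (0x405296a8, 4), (0x407182a5, 4), (0x548293a0, 4)]⟩

def c_3209 : frmChk tA tB F_3209 = true := by decide +kernel

def r_3209_0 : chkL rootF engF2 tA tB sA_342 sB_342 4 F_3209 [(511, 0, 0)]
    0x44e41d0b8644e = true := by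
  decide +kernel

theorem f_3209 (h : TabsF) : FrameF repsF 342 F_3209.f :=
  frame_of rfl c_3209 (runs_of engOK r_3209_0) (by decide +kernel) h.1 h.2

def F_3210 : FrX :=
  ⟨0x482000044040440000c204002000900018204002000104200002028001405001008040008b00108202000400222000a00801000040060400002420020c,
    0xa0, 1, 0x435464758291a3, 7,
    [(0xa0, 1), (0x538690a2, 4), (0x548790a1, 4), (0x21437690, 4), (0x538690a2, 4), (0x548790a1, 4)],
    [(0x435464758291a3, 7), (0x415280a7, 4), (0x32417690, 4), (0x415398a6, 4), (0x415280a7, 4), (0x32417690, 4)]⟩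

def c_3210 : frmChk tA tA F_3210 = true := by decide +kernel

def r_3210_0 : chkL rootF engF2 tA tA sA_342 sA_342 4 F_3210 [(511, 0, 0)]
    0x42e = true := by
  decide +kernel

theorem f_3210 (h : TabsF) : FrameF repsF 342 F_3210.f :=
  frame_of rfl c_3210 (runs_of engOK r_3210_0) (by decide +kernel) h.1 h.1

def F_3211 : FrX :=
  ⟨0x2002000900044004000e020410001410008000408100000d20008024020040801400001100000302040404204100100020800a2004001020240104008050,
    0xa3, 1, 0x316487a5, 4,
    [(0xa3, 1), (0x208693a5, 4), (0x10548793, 4), (0x217693a4, 4), (0x208693a5, 4), (0x10548793, 4)],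
    [(0x316487a5, 4), (0x204176a8, 4), (0x308495a6, 4), (0x647195a8, 4), (0x308495a6, 4), (0x326481a7, 4), (0x20617495, 4), (0x647195a8, 4), (0x20617495, 4), (0x307186a4, 4), (0x647195a8, 4), (0x326481a7, 4)]⟩

def c_3211 : frmChk tA tB F_3211 = true := by decide +kernel

def r_3211_0 : chkL rootF engF2 tA tB sA_342 sB_342 4 F_3211 [(511, 0, 0)]
    0x4b22c817 = true := by
  decide +kernel

theorem f_3211 (h : TabsF) : FrameF repsF 342 F_3211.f :=
  frame_of rfl c_3211 (runs_of engOK r_3211_0) (by decide +kernel) h.1 h.2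

def F_3212 : FrX :=
  ⟨0x80080a000804040e000021010020010000020408820204010084000082400000310140100400088040300000c120100200400a020408008802025080000,
    0xa6, 1, 0x214050708392a6, 7,
    [(0xa6, 1), (0x205396a8, 4), (0x10548796, 4), (0x214396a7, 4), (0x205396a8, 4), (0x10548796, 4)],
    [(0x214050708392a6, 7), (0x305497a8, 4), (0x406172a5, 4), (0x546183a0, 4), (0x406172a5, 4), (0x438592a0, 4), (0x618097a3, 4), (0x546183a0, 4), (0x618097a3, 4), (0x507283a4, 4), (0x546183a0, 4), (0x438592a0, 4)]⟩

def c_3212 : frmChk tA tB F_3212 = true := by decide +kernel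

def r_3212_0 : chkL rootF engF2 tA tB sA_342 sB_342 4 F_3212 [(511, 0, 0)]
    0x41d05c71 = true := by
  decide +kernel

theorem f_3212 (h : TabsF) : FrameF repsF 342 F_3212.f :=
  frame_of rfl c_3212 (runs_of engOK r_3212_0) (by decide +kernel) h.1 h.2

theorem cl_342 (h : TabsF) : ∀ f ∈ fr_342, FrameF repsF 342 f :=
  List.forall_mem_cons.2 ⟨f_3185 h, List.forall_mem_cons.2 ⟨f_3186 h, List.forall_mem_cons.2 ⟨f_3187 h, List.forall_mem_cons.2 ⟨f_3188 h, List.forall_mem_cons.2 ⟨f_3189 h, List.forall_mem_cons.2 ⟨f_3190 h, List.forall_mem_cons.2 ⟨f_3191 h, List.forall_mem_cons.2 ⟨f_3192 h, List.forall_mem_cons.2 ⟨f_3193 h, List.forall_mem_cons.2 ⟨f_3194 h, List.forall_mem_cons.2 ⟨f_3195 h, List.forall_mem_cons.2 ⟨f_3196 h, List.forall_mem_cons.2 ⟨f_3197 h, List.forall_mem_cons.2 ⟨f_3198 h, List.forall_mem_cons.2 ⟨f_3199 h, List.forall_mem_cons.2 ⟨f_3200 h, List.forall_mem_cons.2 ⟨f_3201 h, List.forall_mem_cons.2 ⟨f_3202 h, List.forall_mem_cons.2 ⟨f_3203 h, List.forall_mem_cons.2 ⟨f_3204 h, List.forall_mem_cons.2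 ⟨f_3205 h, List.forall_mem_cons.2 ⟨f_3206 h, List.forall_mem_cons.2 ⟨f_3207 h, List.forall_mem_cons.2 ⟨f_3208 h, List.forall_mem_cons.2 ⟨f_3209 h, List.forall_mem_cons.2 ⟨f_3210 h, List.forall_mem_cons.2 ⟨f_3211 h, List.forall_mem_cons.2 ⟨f_3212 h,
    fun _ h0 => absurd h0 List.not_mem_nil⟩⟩⟩⟩⟩⟩⟩⟩⟩⟩⟩⟩⟩⟩⟩⟩⟩⟩⟩⟩⟩⟩⟩⟩⟩⟩⟩⟩

def F_3213 : FrX :=
  ⟨0x80080a000804040e000021010020010000020408810810000440300004100080400230010840220000404006440200080020010804100a1004088020200,
    0xa6, 1, 0x103152657491a5, 7,
    [(0xa6, 1), (0x205396a8, 4), (0x10548796, 4), (0x214396a7, 4), (0x205396a8, 4), (0x10548796, 4)],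
    [(0x103152657491a5, 7), (0x516382a0, 4), (0x638491a7, 4), (0x42637095, 4), (0x516382a0, 4), (0x638491a7, 4)]⟩

def c_3213 : frmChk tA tA F_3213 = true := by decide +kernel

def r_3213_0 : chkL rootF engF2 tA tA sA_343 sA_343 4 F_3213 [(511, 0, 0)]
    0x103c17 = true := by
  decide +kernel

theorem f_3213 (h : TabsF) : FrameF repsF 343 F_3213.f :=
  frame_of rfl c_3213 (runs_of engOK r_3213_0) (by decide +kernel) h.1 h.1

def F_3214 : FrX :=
  ⟨0x2002000900044004000e0204100014100080004080040104202000240000c088140000101084081040040004448000408100200040441020001004201300,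
    0xa3, 1, 0x203043528590a6, 7,
    [(0xa3, 1), (0x208693a5, 4), (0x10548793, 4), (0x217693a4, 4), (0x208693a5, 4), (0x10548793, 4)],
    [(0x203043528590a6, 7), (0x638495a0, 4), (0x63708291, 4), (0x425163a7, 4), (0x638495a0, 4), (0x63708291, 4)]⟩

def c_3214 : frmChk tA tA F_3214 = true := by decide +kernel

def r_3214_0 : chkL rootF engF2 tA tA sA_343 sA_343 4 F_3214 [(511, 0, 0)]
    0x42b0740f13463 = true := by
  decide +kernel

theorem f_3214 (h : TabsF) : FrameF repsF 343 F_3214.f :=
  frame_of rfl c_3214 (runs_of engOK r_3214_0) (by decide +kernel) h.1 h.1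

def F_3215 : FrX :=
  ⟨0x482000044040440000c2040020009000182040002020500008020010040024800c00101084009008000020244808080100001084040120044010210020,
    0xa0, 1, 0x52657392a4, 5,
    [(0xa0, 1), (0x538690a2, 4), (0x548790a1, 4), (0x21437690, 4), (0x538690a2, 4), (0x548790a1, 4)],
    [(0x52657392a4, 5), (0x54768290, 4), (0x105483a6, 4), (0x325491a7, 4), (0x54768290, 4), (0x105483a6, 4)]⟩

def c_3215 : frmChk tA tA F_3215 = true := by decide +kernel

def r_3215_0 : chkL rootF engF2 tA tA sA_343 sA_343 4 F_3215 [(511, 0, 0)]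
    0x40f03c2d = true := by
  decide +kernel

theorem f_3215 (h : TabsF) : FrameF repsF 343 F_3215.f :=
  frame_of rfl c_3215 (runs_of engOK r_3215_0) (by decide +kernel) h.1 h.1

def F_3216 : FrX :=
  ⟨0x2002000900044004000e020410001410008000408010020104100202008008820000a8000c00040286008008040410002000811020480000202080212100,
    0xa3, 1, 0x103051768591a8, 7,
    [(0xa3, 1), (0x208693a5, 4), (0x10548793, 4), (0x217693a4, 4), (0x208693a5, 4), (0x10548793, 4)],
    [(0x103051768591a8, 7), (0x325081a7, 4), (0x508493a6, 4), (0x41507692, 4), (0x325081a7, 4), (0x508493a6, 4)]⟩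

def c_3216 : frmChk tA tA F_3216 = true := by decide +kernel

def r_3216_0 : chkL rootF engF2 tA tA sA_343 sA_343 4 F_3216 [(511, 0, 0)]
    0x1294472383629938c912a4a8664e066 = true := by
  decide +kernel

theorem f_3216 (h : TabsF) : FrameF repsF 343 F_3216.f :=
  frame_of rfl c_3216 (runs_of engOK r_3216_0) (by decide +kernel) h.1 h.1

def F_3217 : FrX :=
  ⟨0x80080a000804040e000021010020010000020408880140080880800208200000045010008400810820000400c0402400021010040400100244119000080,
    0xa6, 1, 0x2031506281a0, 6,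
    [(0xa6, 1), (0x205396a8, 4), (0x10548796, 4), (0x214396a7, 4), (0x205396a8, 4), (0x10548796, 4)],
    [(0x2031506281a0, 6), (0x213095a6, 4), (0x427395a8, 4), (0x41708695, 4), (0x213095a6, 4), (0x427395a8, 4)]⟩

def c_3217 : frmChk tA tA F_3217 = true := by decide +kernel

def r_3217_0 : chkL rootF engF2 tA tA sA_343 sA_343 4 F_3217 [(511, 0, 0)]
    0x103c0f03c0f0741d06d8560c2703c0f = true := by
  decide +kernel

theorem f_3217 (h : TabsF) : FrameF repsF 343 F_3217.f :=
  frame_of rfl c_3217 (runs_of engOK r_3217_0) (by decide +kernel) h.1 h.1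

def F_3218 : FrX :=
  ⟨0x80080a000804040e00002101002001000002040880410404408104000440001000802050100011000042000604082001100081084012020204040210080,
    0xa6, 1, 0x103241607184a6, 7,
    [(0xa6, 1), (0x205396a8, 4), (0x10548796, 4), (0x214396a7, 4), (0x205396a8, 4), (0x10548796, 4)],
    [(0x103241607184a6, 7), (0x526391a0, 4), (0x40768591, 4), (0x738291a4, 4), (0x526391a0, 4), (0x40768591, 4)]⟩

def c_3218 : frmChk tA tA F_3218 = true := by decide +kernel

def r_3218_0 : chkL rootF engF2 tA tA sA_343 sA_343 4 F_3218 [(511, 0, 0)]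
    0x48721c5c18c63 = true := by
  decide +kernel

theorem f_3218 (h : TabsF) : FrameF repsF 343 F_3218.f :=
  frame_of rfl c_3218 (runs_of engOK r_3218_0) (by decide +kernel) h.1 h.1

def F_3219 : FrX :=
  ⟨0x482000044040440000c2040020009000182040000901004000a00080004084004880808088100200040820820208100010010040600104011020200208,
    0xa0, 1, 0x2041658690a1, 6,
    [(0xa0, 1), (0x538690a2, 4), (0x548790a1, 4), (0x21437690, 4), (0x538690a2, 4), (0x548790a1, 4)],
    [(0x2041658690a1, 6), (0x51768390, 4), (0x426187a9, 4), (0x42537681, 4), (0x426187a9, 4), (0x657381a0, 4), (0x31428590, 4), (0x42537681, 4), (0x31428590, 4), (0x537186a9, 4), (0x42537681, 4), (0x657381a0, 4)]⟩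

def c_3219 : frmChk tA tB F_3219 = true := by decide +kernel

def r_3219_0 : chkL rootF engF2 tA tB sA_343 sB_343 4 F_3219 [(511, 0, 0)]
    0x11703581c1b1c80f = true := by
  decide +kernel

theorem f_3219 (h : TabsF) : FrameF repsF 343 F_3219.f :=
  frame_of rfl c_3219 (runs_of engOK r_3219_0) (by decide +kernel) h.1 h.2

def F_3220 : FrX :=
  ⟨0x1c2102000004044000002041000101000082040888081000020000404000182008604001020080120000111122400408048008003200900300010208000,
    0x0, 0, 0x647583, 3,
    [(0x0, 0), (0x205386a9, 4), (0x105487a9, 4), (0x214376a9, 4), (0x205386a9, 4), (0x105487a9, 4)],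
    [(0x647583, 3), (0x204387a9, 4), (0x105376a9, 4), (0x215486a9, 4), (0x204387a9, 4), (0x105376a9, 4)]⟩

def c_3220 : frmChk tA tA F_3220 = true := by decide +kernel

def r_3220_0 : chkL rootF engF2 tA tA sA_343 sA_343 4 F_3220 [(511, 0, 0)]
    0x112c5918c5a = true := by
  decide +kernel

theorem f_3220 (h : TabsF) : FrameF repsF 343 F_3220.f :=
  frame_of rfl c_3220 (runs_of engOK r_3220_0) (by decide +kernel) h.1 h.1

def F_3221 : FrX :=
  ⟨0x2002000900044004000e02041000141000800040801001021010200018202101000204001028000124000111020408008040008080a00100204020229000,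
    0xa3, 1, 0x3262768292a3, 6,
    [(0xa3, 1), (0x208693a5, 4), (0x10548793, 4), (0x217693a4, 4), (0x208693a5, 4), (0x10548793, 4)],
    [(0x3262768292a3, 6), (0x768290a5, 4), (0x10546382, 4), (0x738291a4, 4), (0x768290a5, 4), (0x10546382, 4)]⟩

def c_3221 : frmChk tA tA F_3221 = true := by decide +kernel

def r_3221_0 : chkL rootF engF2 tA tA sA_343 sA_343 4 F_3221 [(511, 0, 0)]
    0x10cc1b06c271980f06c1b = true := by
  decide +kernel

theorem f_3221 (h : TabsF) : FrameF repsF 343 F_3221.f :=
  frame_of rfl c_3221 (runs_of engOK r_3221_0) (by decide +kernel) h.1 h.1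

def F_3222 : FrX :=
  ⟨0x80080a000804040e000021010020010000020408804210020200048000802020080814024000410200200011222004088040480010006003008c0800000,
    0xa6, 1, 0x2064738591a6, 6,
    [(0xa6, 1), (0x205396a8, 4), (0x10548796, 4), (0x214396a7, 4), (0x205396a8, 4), (0x10548796, 4)],
    [(0x2064738591a6, 6), (0x204187a5, 4), (0x41538692, 4), (0x417690a3, 4), (0x204187a5, 4), (0x41538692, 4)]⟩

def c_3222 : frmChk tA tA F_3222 = true := by decide +kernel

def r_3222_0 : chkL rootF engF2 tA tA sA_343 sA_343 4 F_3222 [(511, 0, 0)]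
    0x5230d81b09e540d48d = true := by
  decide +kernel

theorem f_3222 (h : TabsF) : FrameF repsF 343 F_3222.f :=
  frame_of rfl c_3222 (runs_of engOK r_3222_0) (by decide +kernel) h.1 h.1

def F_3223 : FrX :=
  ⟨0x2002000900044004000e02041000141000800040800801021110200008202101000204002028000424020201020008008840008080a000002048202a1000,
    0xa3, 1, 0x204251657582a6, 7,
    [(0xa3, 1), (0x208693a5, 4), (0x10548793, 4), (0x217693a4, 4), (0x208693a5, 4), (0x10548793, 4)],
    [(0x204251657582a6, 7), (0x738291a4, 4), (0x52647091, 4), (0x308591a6, 4), (0x738291a4, 4), (0x52647091, 4)]⟩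

def c_3223 : frmChk tA tA F_3223 = true := by decide +kernel

def r_3223_0 : chkL rootF engF2 tA tA sA_343 sA_343 4 F_3223 [(511, 0, 0)]
    0x433 = true := by
  decide +kernel

theorem f_3223 (h : TabsF) : FrameF repsF 343 F_3223.f :=
  frame_of rfl c_3223 (runs_of engOK r_3223_0) (by decide +kernel) h.1 h.1

def F_3224 : FrX :=
  ⟨0x80080a000804040e000021010020010000020408a0001001100090020142022000024000400049020020000888001140002002014000608004a22420000,
    0xa6, 1, 0x1054628397a1, 6,
    [(0xa6, 1), (0x205396a8, 4), (0x10548796, 4), (0x214396a7, 4), (0x205396a8, 4), (0x10548796, 4)],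
    [(0x1054628397a1, 6), (0x32617084, 4), (0x547093a1, 4), (0x708592a6, 4), (0x32617084, 4), (0x547093a1, 4)]⟩

def c_3224 : frmChk tA tA F_3224 = true := by decide +kernel

def r_3224_0 : chkL rootF engF2 tA tA sA_343 sA_343 4 F_3224 [(511, 0, 0)]
    0x122c2b1e02e = true := by
  decide +kernel

theorem f_3224 (h : TabsF) : FrameF repsF 343 F_3224.f :=
  frame_of rfl c_3224 (runs_of engOK r_3224_0) (by decide +kernel) h.1 h.1

def F_3225 : FrX :=
  ⟨0x482000044040440000c2040020009000182040001012080000900200080404018012020001040020800030808000140100142008108080006002800442,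
    0xa0, 1, 0x43526395a3, 5,
    [(0xa0, 1), (0x538690a2, 4), (0x548790a1, 4), (0x21437690, 4), (0x538690a2, 4), (0x548790a1, 4)],
    [(0x43526395a3, 5), (0x508397a4, 4), (0x10627493, 4), (0x436297a8, 4), (0x10627493, 4), (0x435198a7, 4), (0x506284a3, 4), (0x436297a8, 4), (0x506284a3, 4), (0x107394a8, 4), (0x436297a8, 4), (0x435198a7, 4)]⟩

def c_3225 : frmChk tA tB F_3225 = true := by decide +kernel

def r_3225_0 : chkL rootF engF2 tA tB sA_343 sB_343 4 F_3225 [(511, 0, 0)]
    0x11c80f = true := by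
  decide +kernel

theorem f_3225 (h : TabsF) : FrameF repsF 343 F_3225.f :=
  frame_of rfl c_3225 (runs_of engOK r_3225_0) (by decide +kernel) h.1 h.2

def F_3226 : FrX :=
  ⟨0x80080a000804040e000021010020010000020408804210020200048000802020080814014000510200400012120004080040480010006003000c0800120,
    0xa6, 1, 0x2064738591a6, 6,
    [(0xa6, 1), (0x205396a8, 4), (0x10548796, 4), (0x214396a7, 4), (0x205396a8, 4), (0x10548796, 4)],
    [(0x2064738591a6, 6), (0x204187a5, 4), (0x41538692, 4), (0x417690a3, 4), (0x204187a5, 4), (0x41538692, 4)]⟩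

def c_3226 : frmChk tA tA F_3226 = true := by decide +kernel

def r_3226_0 : chkL rootF engF2 tA tA sA_343 sA_343 4 F_3226 [(511, 0, 0)]
    0x103c4e05c0f = true := by
  decide +kernel

theorem f_3226 (h : TabsF) : FrameF repsF 343 F_3226.f :=
  frame_of rfl c_3226 (runs_of engOK r_3226_0) (by decide +kernel) h.1 h.1

def F_3227 : FrX :=
  ⟨0x2002000900044004000e02041000141000800040801001021010200018202101000204001028000424040104401008008040008080a00000204020221402,
    0xa3, 1, 0x3262768292a3, 6,
    [(0xa3, 1), (0x208693a5, 4), (0x10548793, 4), (0x217693a4, 4), (0x208693a5, 4), (0x10548793, 4)],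
    [(0x3262768292a3, 6), (0x768290a5, 4), (0x10546382, 4), (0x738291a4, 4), (0x768290a5, 4), (0x10546382, 4)]⟩

def c_3227 : frmChk tA tA F_3227 = true := by decide +kernel

def r_3227_0 : chkL rootF engF2 tA tA sA_343 sA_343 4 F_3227 [(511, 0, 0)]
    0x41d0741e0f215 = true := by
  decide +kernel

theorem f_3227 (h : TabsF) : FrameF repsF 343 F_3227.f :=
  frame_of rfl c_3227 (runs_of engOK r_3227_0) (by decide +kernel) h.1 h.1

def F_3228 : FrX :=
  ⟨0x80080a000804040e000021010020010000020408a0001001100090020242002004024000400049020020000888001140002002014000508004210440041,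
    0xa6, 1, 0x213241527196a3, 7,
    [(0xa6, 1), (0x205396a8, 4), (0x10548796, 4), (0x214396a7, 4), (0x205396a8, 4), (0x10548796, 4)],
    [(0x213241527196a3, 7), (0x506198a3, 4), (0x32617084, 4), (0x617594a2, 4), (0x506198a3, 4), (0x32617084, 4)]⟩

def c_3228 : frmChk tA tA F_3228 = true := by decide +kernel

def r_3228_0 : chkL rootF engF2 tA tA sA_343 sA_343 4 F_3228 [(511, 0, 0)]
    0x1078360741e0b46c = true := by
  decide +kernel

theorem f_3228 (h : TabsF) : FrameF repsF 343 F_3228.f :=
  frame_of rfl c_3228 (runs_of engOK r_3228_0) (by decide +kernel) h.1 h.1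

def F_3229 : FrX :=
  ⟨0x2002000900044004000e02041000141000800040800801041010200008202101000244001028010424040201010008008040008080a000002040202a1020,
    0xa3, 1, 0x3043648592a8, 6,
    [(0xa3, 1), (0x208693a5, 4), (0x10548793, 4), (0x217693a4, 4), (0x208693a5, 4), (0x10548793, 4)],
    [(0x3043648592a8, 6), (0x528493a0, 4), (0x315286a7, 4), (0x52647091, 4), (0x528493a0, 4), (0x315286a7, 4)]⟩

def c_3229 : frmChk tA tA F_3229 = true := by decide +kernel

def r_3229_0 : chkL rootF engF2 tA tA sA_343 sA_343 4 F_3229 [(511, 0, 0)]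
    0x10ac0f = true := by
  decide +kernel

theorem f_3229 (h : TabsF) : FrameF repsF 343 F_3229.f :=
  frame_of rfl c_3229 (runs_of engOK r_3229_0) (by decide +kernel) h.1 h.1

def F_3230 : FrX :=
  ⟨0x482000044040440000c2040020009000182040001012080000900200080404004062020001040020800030808000140100082008508080006002800a40,
    0xa0, 1, 0x213161748695a3, 7,
    [(0xa0, 1), (0x538690a2, 4), (0x548790a1, 4), (0x21437690, 4), (0x538690a2, 4), (0x548790a1, 4)],
    [(0x213161748695a3, 7), (0x107394a8, 4), (0x52608497, 4), (0x528794a3, 4), (0x52608497, 4), (0x618793a4, 4), (0x105283a7, 4), (0x528794a3, 4), (0x105283a7, 4), (0x607498a3, 4), (0x528794a3, 4), (0x618793a4, 4)]⟩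

def c_3230 : frmChk tA tB F_3230 = true := by decide +kernel

def r_3230_0 : chkL rootF engF2 tA tB sA_343 sB_343 4 F_3230 [(511, 0, 0)]
    0x427 = true := by
  decide +kernel

theorem f_3230 (h : TabsF) : FrameF repsF 343 F_3230.f :=
  frame_of rfl c_3230 (runs_of engOK r_3230_0) (by decide +kernel) h.1 h.2

def F_3231 : FrX :=
  ⟨0x1c2102000004044000002041000101000082040888081000020000404000182008604000820098410000201112000408248008000a00800500010280001,
    0x0, 0, 0x647583, 3,
    [(0x0, 0), (0x205386a9, 4), (0x105487a9, 4), (0x214376a9, 4), (0x205386a9, 4), (0x105487a9, 4)],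
    [(0x647583, 3), (0x204387a9, 4), (0x105376a9, 4), (0x215486a9, 4), (0x204387a9, 4), (0x105376a9, 4)]⟩

def c_3231 : frmChk tA tA F_3231 = true := by decide +kernel

def r_3231_0 : chkL rootF engF2 tA tA sA_343 sA_343 4 F_3231 [(511, 0, 0)]
    0x10b81e = true := by
  decide +kernel

theorem f_3231 (h : TabsF) : FrameF repsF 343 F_3231.f :=
  frame_of rfl c_3231 (runs_of engOK r_3231_0) (by decide +kernel) h.1 h.1

def F_3232 : FrX :=
  ⟨0x2002000900044004000e02041000141000800040800801014008024002000240200102220008008024020110800000101100800054009208000018034020,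
    0xa3, 1, 0x415063718498a6, 7,
    [(0xa3, 1), (0x208693a5, 4), (0x10548793, 4), (0x217693a4, 4), (0x208693a5, 4), (0x10548793, 4)],
    [(0x415063718498a6, 7), (0x315260a9, 4), (0x31758094, 4), (0x317286a4, 4), (0x315260a9, 4), (0x31758094, 4)]⟩

def c_3232 : frmChk tA tA F_3232 = true := by decide +kernel

def r_3232_0 : chkL rootF engF2 tA tA sA_343 sA_343 4 F_3232 [(511, 0, 0)]
    0x103c330b81d = true := by
  decide +kernel

theorem f_3232 (h : TabsF) : FrameF repsF 343 F_3232.f :=
  frame_of rfl c_3232 (runs_of engOK r_3232_0) (by decide +kernel) h.1 h.1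

def F_3233 : FrX :=
  ⟨0x80080a000804040e000021010020010000020408a0001001100030028242004000014000400049020020000888001140002142008001008006224400002,
    0xa6, 1, 0x3061748493a4, 6,
    [(0xa6, 1), (0x205396a8, 4), (0x10548796, 4), (0x214396a7, 4), (0x205396a8, 4), (0x10548796, 4)],
    [(0x3061748493a4, 6), (0x32718095, 4), (0x637480a5, 4), (0x416280a9, 4), (0x32718095, 4), (0x637480a5, 4)]⟩

def c_3233 : frmChk tA tA F_3233 = true := by decide +kernel

def r_3233_0 : chkL rootF engF2 tA tA sA_343 sA_343 4 F_3233 [(511, 0, 0)]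
    0x10781e07463 = true := by
  decide +kernel

theorem f_3233 (h : TabsF) : FrameF repsF 343 F_3233.f :=
  frame_of rfl c_3233 (runs_of engOK r_3233_0) (by decide +kernel) h.1 h.1

def F_3234 : FrX :=
  ⟨0x482000044040440000c204002000900018204001013000800800008400010820844000100108020080042110100140004800800a200a00900802000084,
    0xa0, 1, 0x43506487a8, 5,
    [(0xa0, 1), (0x538690a2, 4), (0x548790a1, 4), (0x21437690, 4), (0x538690a2, 4), (0x548790a1, 4)],
    [(0x43506487a8, 5), (0x435280a6, 4), (0x51608397, 4), (0x638097a4, 4), (0x51608397, 4), (0x216384a0, 4), (0x526497a3, 4), (0x638097a4, 4), (0x526497a3, 4), (0x305186a4, 4), (0x638097a4, 4), (0x216384a0, 4)]⟩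

def c_3234 : frmChk tA tB F_3234 = true := by decide +kernel

def r_3234_0 : chkL rootF engF2 tA tB sA_343 sB_343 4 F_3234 [(511, 0, 0)]
    0x4e4 = true := by
  decide +kernel

theorem f_3234 (h : TabsF) : FrameF repsF 343 F_3234.f :=
  frame_of rfl c_3234 (runs_of engOK r_3234_0) (by decide +kernel) h.1 h.2

def F_3235 : FrX :=
  ⟨0x80080a000804040e000021010020010000020408a00010011000900202420040080140004000490200200008880011400020020084010080060a0680400,
    0xa6, 1, 0x314151628298a6, 7,
    [(0xa6, 1), (0x205396a8, 4), (0x10548796, 4), (0x214396a7, 4), (0x205396a8, 4), (0x10548796, 4)],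
    [(0x314151628298a6, 7), (0x416280a9, 4), (0x43506297, 4), (0x316285a7, 4), (0x416280a9, 4), (0x43506297, 4)]⟩

def c_3235 : frmChk tA tA F_3235 = true := by decide +kernel

def r_3235_0 : chkL rootF engF2 tA tA sA_343 sA_343 4 F_3235 [(511, 0, 0)]
    0x121c1b = true := by
  decide +kernel

theorem f_3235 (h : TabsF) : FrameF repsF 343 F_3235.f :=
  frame_of rfl c_3235 (runs_of engOK r_3235_0) (by decide +kernel) h.1 h.1

def F_3236 : FrX :=
  ⟨0x2002000900044004000e0204100014100080004080080101400802400200024020024202000800802402011080000010110080005400880800401800c0c0,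
    0xa3, 1, 0x1032748193a5, 6,
    [(0xa3, 1), (0x208693a5, 4), (0x10548793, 4), (0x217693a4, 4), (0x208693a5, 4), (0x10548793, 4)],
    [(0x1032748193a5, 6), (0x315260a9, 4), (0x405281a7, 4), (0x52648397, 4), (0x315260a9, 4), (0x405281a7, 4)]⟩

def c_3236 : frmChk tA tA F_3236 = true := by decide +kernel

def r_3236_0 : chkL rootF engF2 tA tA sA_343 sA_343 4 F_3236 [(511, 0, 0)]
    0x4270b81e = true := by
  decide +kernel

theorem f_3236 (h : TabsF) : FrameF repsF 343 F_3236.f :=
  frame_of rfl c_3236 (runs_of engOK r_3236_0) (by decide +kernel) h.1 h.1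

def F_3237 : FrX :=
  ⟨0x482000044040440000c204002000900018204001010006800800008400018820840000100108040080043090000140004800800a200800900802000884,
    0xa0, 1, 0x30637086a5, 5,
    [(0xa0, 1), (0x538690a2, 4), (0x548790a1, 4), (0x21437690, 4), (0x538690a2, 4), (0x548790a1, 4)],
    [(0x30637086a5, 5), (0x407286a3, 4), (0x718395a4, 4), (0x608495a3, 4), (0x718395a4, 4), (0x216384a0, 4), (0x64728095, 4), (0x608495a3, 4), (0x64728095, 4), (0x436071a8, 4), (0x608495a3, 4), (0x216384a0, 4)]⟩

def c_3237 : frmChk tA tB F_3237 = true := by decide +kernel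

def r_3237_0 : chkL rootF engF2 tA tB sA_343 sB_343 4 F_3237 [(511, 0, 0)]
    0x105c1705c170f09507433 = true := by
  decide +kernel

theorem f_3237 (h : TabsF) : FrameF repsF 343 F_3237.f :=
  frame_of rfl c_3237 (runs_of engOK r_3237_0) (by decide +kernel) h.1 h.2

def F_3238 : FrX :=
  ⟨0x482000044040440000c204002000900018204002000104200002028001405001008040008b00018008020000322000a00801000040848400002400020c,
    0xa0, 1, 0x435464758291a3, 7,
    [(0xa0, 1), (0x538690a2, 4), (0x548790a1, 4), (0x21437690, 4), (0x538690a2, 4), (0x548790a1, 4)],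
    [(0x435464758291a3, 7), (0x415280a7, 4), (0x32417690, 4), (0x415398a6, 4), (0x415280a7, 4), (0x32417690, 4)]⟩

def c_3238 : frmChk tA tA F_3238 = true := by decide +kernel

def r_3238_0 : chkL rootF engF2 tA tA sA_343 sA_343 4 F_3238 [(511, 0, 0)]
    0x112c47 = true := by
  decide +kernel

theorem f_3238 (h : TabsF) : FrameF repsF 343 F_3238.f :=
  frame_of rfl c_3238 (runs_of engOK r_3238_0) (by decide +kernel) h.1 h.1

def F_3239 : FrX :=
  ⟨0x2002000900044004000e020410001410008000408100000d20008024020040801400001101200102040404004100100020400200050010202401100080d0,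
    0xa3, 1, 0x316487a5, 4,
    [(0xa3, 1), (0x208693a5, 4), (0x10548793, 4), (0x217693a4, 4), (0x208693a5, 4), (0x10548793, 4)],
    [(0x316487a5, 4), (0x204176a8, 4), (0x308495a6, 4), (0x647195a8, 4), (0x308495a6, 4), (0x326481a7, 4), (0x20617495, 4), (0x647195a8, 4), (0x20617495, 4), (0x307186a4, 4), (0x647195a8, 4), (0x326481a7, 4)]⟩

def c_3239 : frmChk tA tB F_3239 = true := by decide +kernel

def r_3239_0 : chkL rootF engF2 tA tB sA_343 sB_343 4 F_3239 [(511, 0, 0)]
    0x109c2703c0f = true := by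
  decide +kernel

theorem f_3239 (h : TabsF) : FrameF repsF 343 F_3239.f :=
  frame_of rfl c_3239 (runs_of engOK r_3239_0) (by decide +kernel) h.1 h.2

def F_3240 : FrX :=
  ⟨0x80080a000804040e000021010020010000020408820204010084000082400000310140100400084020300800c400100200400a020410008802024080010,
    0xa6, 1, 0x214050708392a6, 7,
    [(0xa6, 1), (0x205396a8, 4), (0x10548796, 4), (0x214396a7, 4), (0x205396a8, 4), (0x10548796, 4)],
    [(0x214050708392a6, 7), (0x305497a8, 4), (0x406172a5, 4), (0x546183a0, 4), (0x406172a5, 4), (0x438592a0, 4), (0x618097a3, 4), (0x546183a0, 4), (0x618097a3, 4), (0x507283a4, 4), (0x546183a0, 4), (0x438592a0, 4)]⟩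

def c_3240 : frmChk tA tB F_3240 = true := by decide +kernel

def r_3240_0 : chkL rootF engF2 tA tB sA_343 sB_343 4 F_3240 [(511, 0, 0)]
    0x4c92380f = true := by
  decide +kernel

theorem f_3240 (h : TabsF) : FrameF repsF 343 F_3240.f :=
  frame_of rfl c_3240 (runs_of engOK r_3240_0) (by decide +kernel) h.1 h.2

theorem cl_343 (h : TabsF) : ∀ f ∈ fr_343, FrameF repsF 343 f :=
  List.forall_mem_cons.2 ⟨f_3213 h, List.forall_mem_cons.2 ⟨f_3214 h, List.forall_mem_cons.2 ⟨f_3215 h, List.forall_mem_cons.2 ⟨f_3216 h, List.forall_mem_cons.2 ⟨f_3217 h, List.forall_mem_cons.2 ⟨f_3218 h, List.forall_mem_cons.2 ⟨f_3219 h, List.forall_mem_cons.2 ⟨f_3220 h, List.forall_mem_cons.2 ⟨f_3221 h, List.forall_mem_cons.2 ⟨f_3222 h, List.forall_mem_cons.2 ⟨f_3223 h, List.forall_mem_cons.2 ⟨f_3224 h, List.forall_mem_cons.2 ⟨f_3225 h, List.forall_mem_cons.2 ⟨f_3226 h, List.forall_mem_cons.2 ⟨f_3227 h, List.forall_mem_cons.2 ⟨f_3228 h, List.forall_mem_cons.2 ⟨f_3229 h, List.forall_mem_cons.2 ⟨f_3230 h, List.forall_mem_cons.2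 ⟨f_3231 h, List.forall_mem_cons.2 ⟨f_3232 h, List.forall_mem_cons.2 ⟨f_3233 h, List.forall_mem_cons.2 ⟨f_3234 h, List.forall_mem_cons.2 ⟨f_3235 h, List.forall_mem_cons.2 ⟨f_3236 h, List.forall_mem_cons.2 ⟨f_3237 h, List.forall_mem_cons.2 ⟨f_3238 h, List.forall_mem_cons.2 ⟨f_3239 h, List.forall_mem_cons.2 ⟨f_3240 h,
    fun _ h0 => absurd h0 List.not_mem_nil⟩⟩⟩⟩⟩⟩⟩⟩⟩⟩⟩⟩⟩⟩⟩⟩⟩⟩⟩⟩⟩⟩⟩⟩⟩⟩⟩⟩

def F_3241 : FrX :=
  ⟨0x80080a000804040e000021010020010000020408a0000404200030080414008000020600048009008088000614010400240001030002820002111008000,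
    0xa6, 1, 0x102061748193a0, 7,
    [(0xa6, 1), (0x205396a8, 4), (0x10548796, 4), (0x214396a7, 4), (0x205396a8, 4), (0x10548796, 4)],
    [(0x102061748193a0, 7), (0x547690a1, 4), (0x324075a8, 4), (0x32547096, 4), (0x324075a8, 4), (0x65708194, 4), (0x326097a1, 4), (0x32547096, 4), (0x326097a1, 4), (0x507496a8, 4), (0x32547096, 4), (0x65708194, 4)]⟩

def c_3241 : frmChk tA tB F_3241 = true := by decide +kernel

def r_3241_0 : chkL rootF engF2 tA tB sA_344 sB_344 4 F_3241 [(511, 0, 0)]
    0x4360d8360d86a1b055 = true := by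
  decide +kernel

theorem f_3241 (h : TabsF) : FrameF repsF 344 F_3241.f :=
  frame_of rfl c_3241 (runs_of engOK r_3241_0) (by decide +kernel) h.1 h.2

def F_3242 : FrX :=
  ⟨0x80080a000804040e000021010020010000020408a000020810040080844100004101200040008411200080060410280104100101001000040c111008000,
    0xa6, 1, 0x31425363758291a8, 8,
    [(0xa6, 1), (0x205396a8, 4), (0x10548796, 4), (0x214396a7, 4), (0x205396a8, 4), (0x10548796, 4)],
    [(0x31425363758291a8, 8), (0x437680a5, 4), (0x437290a1, 4), (0x43516298, 4), (0x437680a5, 4), (0x437290a1, 4)]⟩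

def c_3242 : frmChk tA tA F_3242 = true := by decide +kernel

def r_3242_0 : chkL rootF engF2 tA tA sA_344 sA_344 4 F_3242 [(511, 0, 0)]
    0x41e28d19454d115853 = true := by
  decide +kernel

theorem f_3242 (h : TabsF) : FrameF repsF 344 F_3242.f :=
  frame_of rfl c_3242 (runs_of engOK r_3242_0) (by decide +kernel) h.1 h.1

def F_3243 : FrX :=
  ⟨0x2002000900044004000e020410001410008000408100012420100001110002420000880008020802804004024000480101000b00008800002600100c2080,
    0xa3, 1, 0x203163708093a3, 7,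
    [(0xa3, 1), (0x208693a5, 4), (0x10548793, 4), (0x217693a4, 4), (0x208693a5, 4), (0x10548793, 4)],
    [(0x203163708093a3, 7), (0x718096a5, 4), (0x54728396, 4), (0x213096a4, 4), (0x718096a5, 4), (0x54728396, 4)]⟩

def c_3243 : frmChk tA tA F_3243 = true := by decide +kernel

def r_3243_0 : chkL rootF engF2 tA tA sA_344 sA_344 4 F_3243 [(511, 0, 0)]
    0x4475240f = true := by
  decide +kernel

theorem f_3243 (h : TabsF) : FrameF repsF 344 F_3243.f :=
  frame_of rfl c_3243 (runs_of engOK r_3243_0) (by decide +kernel) h.1 h.1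

def F_3244 : FrX :=
  ⟨0x482000044040440000c2040020009000182040001101120001020800000c04200080060008004000880404284000408100801210050120001010040208,
    0xa0, 1, 0x405363728596a6, 7,
    [(0xa0, 1), (0x538690a2, 4), (0x548790a1, 4), (0x21437690, 4), (0x538690a2, 4), (0x548790a1, 4)],
    [(0x405363728596a6, 7), (0x748695a3, 4), (0x32418095, 4), (0x607195a2, 4), (0x748695a3, 4), (0x32418095, 4)]⟩

def c_3244 : frmChk tA tA F_3244 = true := by decide +kernel

def r_3244_0 : chkL rootF engF2 tA tA sA_344 sA_344 4 F_3244 [(511, 0, 0)]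
    0x42d552b08a81b0ac278d23489a1585817 = true := by
  decide +kernel

theorem f_3244 (h : TabsF) : FrameF repsF 344 F_3244.f :=
  frame_of rfl c_3244 (runs_of engOK r_3244_0) (by decide +kernel) h.1 h.1

def F_3245 : FrX :=
  ⟨0x80080a000804040e00002101002001000002040882011004220010008024001010100400882000480010000604040410100050022002800222115000000,
    0xa6, 1, 0x203140617380a6, 7,
    [(0xa6, 1), (0x205396a8, 4), (0x10548796, 4), (0x214396a7, 4), (0x205396a8, 4), (0x10548796, 4)],
    [(0x203140617380a6, 7), (0x758093a4, 4), (0x41528693, 4), (0x607293a1, 4), (0x758093a4, 4), (0x41528693, 4)]⟩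

def c_3245 : frmChk tA tA F_3245 = true := by decide +kernel

def r_3245_0 : chkL rootF engF2 tA tA sA_344 sA_344 4 F_3245 [(511, 0, 0)]
    0x103c3518c1d = true := by
  decide +kernel

theorem f_3245 (h : TabsF) : FrameF repsF 344 F_3245.f :=
  frame_of rfl c_3245 (runs_of engOK r_3245_0) (by decide +kernel) h.1 h.1

def F_3246 : FrX :=
  ⟨0x482000044040440000c2040020009000182040002010900010024200000c02800080060002008080040220605000040284004002200622000004010208,
    0xa0, 1, 0x10305063718696a0, 8,
    [(0xa0, 1), (0x538690a2, 4), (0x548790a1, 4), (0x21437690, 4), (0x538690a2, 4), (0x548790a1, 4)],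
    [(0x10305063718696a0, 8), (0x638591a2, 4), (0x104385a7, 4), (0x64728590, 4), (0x638591a2, 4), (0x104385a7, 4)]⟩

def c_3246 : frmChk tA tA F_3246 = true := by decide +kernel

def r_3246_0 : chkL rootF engF2 tA tA sA_344 sA_344 4 F_3246 [(511, 0, 0)]
    0x48b0e81e4703a = true := by
  decide +kernel

theorem f_3246 (h : TabsF) : FrameF repsF 344 F_3246.f :=
  frame_of rfl c_3246 (runs_of engOK r_3246_0) (by decide +kernel) h.1 h.1

def F_3247 : FrX :=
  ⟨0x482000044040440000c2040020009000182040002008300101200008024002080080410083000202000800206001040080010006201002040804210208,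
    0xa0, 1, 0x103243526270a1, 7,
    [(0xa0, 1), (0x538690a2, 4), (0x548790a1, 4), (0x21437690, 4), (0x538690a2, 4), (0x548790a1, 4)],
    [(0x103243526270a1, 7), (0x31547682, 4), (0x325190a7, 4), (0x31528490, 4), (0x325190a7, 4), (0x415283a6, 4), (0x42768590, 4), (0x31528490, 4), (0x42768590, 4), (0x215384a7, 4), (0x31528490, 4), (0x415283a6, 4)]⟩

def c_3247 : frmChk tA tB F_3247 = true := by decide +kernel

def r_3247_0 : chkL rootF engF2 tA tB sA_344 sB_344 4 F_3247 [(511, 0, 0)]
    0x48e2700f = true := by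
  decide +kernel

theorem f_3247 (h : TabsF) : FrameF repsF 344 F_3247.f :=
  frame_of rfl c_3247 (runs_of engOK r_3247_0) (by decide +kernel) h.1 h.2

def F_3248 : FrX :=
  ⟨0x600020801080810000c004018041010100100400404082000040008412100004040280202004020801000020302000a0840082220100401008080a0040,
    0xa0, 1, 0x203152748397a5, 7,
    [(0xa0, 1), (0x637584a2, 4), (0x547690a1, 4), (0x64758390, 4), (0x547690a1, 4), (0x21647385, 4), (0x438690a2, 4), (0x64758390, 4), (0x438690a2, 4), (0x657483a1, 4), (0x64758390, 4), (0x21647385, 4)],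
    [(0x203152748397a5, 7), (0x405261a8, 4), (0x324091a7, 4), (0x40538796, 4), (0x405261a8, 4), (0x324091a7, 4)]⟩

def c_3248 : frmChk tB tA F_3248 = true := by decide +kernel

def r_3248_0 : chkL rootF engF2 tB tA sB_344 sA_344 4 F_3248 [(511, 0, 0)]
    0x42d11c470f01b = true := by
  decide +kernel

theorem f_3248 (h : TabsF) : FrameF repsF 344 F_3248.f :=
  frame_of rfl c_3248 (runs_of engOK r_3248_0) (by decide +kernel) h.2 h.1

def F_3249 : FrX :=
  ⟨0x1001040012008080000e00840800410008101000040410084008102002000054004002216090010100002800020410010010002008800809b00000222000,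
    0xa3, 1, 0x4054718394a6, 6,
    [(0xa3, 1), (0x207584a6, 4), (0x10547693, 4), (0x647593a8, 4), (0x10547693, 4), (0x216485a7, 4), (0x208693a4, 4), (0x647593a8, 4), (0x208693a4, 4), (0x106574a8, 4), (0x647593a8, 4), (0x216485a7, 4)],
    [(0x4054718394a6, 6), (0x426580a3, 4), (0x31657490, 4), (0x657298a1, 4), (0x426580a3, 4), (0x31657490, 4)]⟩

def c_3249 : frmChk tB tA F_3249 = true := by decide +kernel

def r_3249_0 : chkL rootF engF2 tB tA sB_344 sA_344 4 F_3249 [(511, 0, 0)]
    0x10740f16649 = true := by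
  decide +kernel

theorem f_3249 (h : TabsF) : FrameF repsF 344 F_3249.f :=
  frame_of rfl c_3249 (runs_of engOK r_3249_0) (by decide +kernel) h.2 h.1

def F_3250 : FrX :=
  ⟨0x1001040012008080000e00840800410008101000042008024020010005220008008002201200008820001012000400804040205010100400a90101010080,
    0xa3, 1, 0x32405463738297a3, 8,
    [(0xa3, 1), (0x207584a6, 4), (0x10547693, 4), (0x647593a8, 4), (0x10547693, 4), (0x216485a7, 4), (0x208693a4, 4), (0x647593a8, 4), (0x208693a4, 4), (0x106574a8, 4), (0x647593a8, 4), (0x216485a7, 4)],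
    [(0x32405463738297a3, 8), (0x327684a0, 4), (0x41507693, 4), (0x768192a5, 4), (0x327684a0, 4), (0x41507693, 4)]⟩

def c_3250 : frmChk tB tA F_3250 = true := by decide +kernel

def r_3250_0 : chkL rootF engF2 tB tA sB_344 sA_344 4 F_3250 [(511, 0, 0)]
    0x1 = true := by
  decide +kernel

theorem f_3250 (h : TabsF) : FrameF repsF 344 F_3250.f :=
  frame_of rfl c_3250 (runs_of engOK r_3250_0) (by decide +kernel) h.2 h.1

def F_3251 : FrX :=
  ⟨0x1001040012008080000e00840800410008101000042010041020010006102000810100108020010880042402400400202100808808004004a40004010010,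
    0xa3, 1, 0x32415163728298a3, 8,
    [(0xa3, 1), (0x207584a6, 4), (0x10547693, 4), (0x647593a8, 4), (0x10547693, 4), (0x216485a7, 4), (0x208693a4, 4), (0x647593a8, 4), (0x208693a4, 4), (0x106574a8, 4), (0x647593a8, 4), (0x216485a7, 4)],
    [(0x32415163728298a3, 8), (0x768092a4, 4), (0x41507693, 4), (0x327685a1, 4), (0x768092a4, 4), (0x41507693, 4)]⟩

def c_3251 : frmChk tB tA F_3251 = true := by decide +kernel

def r_3251_0 : chkL rootF engF2 tB tA sB_344 sA_344 4 F_3251 [(511, 0, 0)]
    0x41705c1d = true := by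
  decide +kernel

theorem f_3251 (h : TabsF) : FrameF repsF 344 F_3251.f :=
  frame_of rfl c_3251 (runs_of engOK r_3251_0) (by decide +kernel) h.2 h.1

def F_3252 : FrX :=
  ⟨0x1c4044000008081000000840080410000101084060002080000082020180080040028400408404208400008942010250000204003100000011442200000,
    0x0, 0, 0x21537586, 4,
    [(0x0, 0), (0x20637584, 4), (0x105476a9, 4), (0x647583a9, 4), (0x105476a9, 4), (0x21647385, 4), (0x204386a9, 4), (0x647583a9, 4), (0x204386a9, 4), (0x10657483, 4), (0x647583a9, 4), (0x21647385, 4)],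
    [(0x21537586, 4), (0x107586a9, 4), (0x206374a9, 4), (0x215483a9, 4), (0x107586a9, 4), (0x206374a9, 4)]⟩

def c_3252 : frmChk tB tA F_3252 = true := by decide +kernel

def r_3252_0 : chkL rootF engF2 tB tA sB_344 sA_344 4 F_3252 [(255, 0, 0), (256, 0, 14)]
    0x11642e05c3312c4b12c2e = true := by
  decide +kernel

def r_3252_1 : chkL rootF engF2 tB tA sB_344 sA_344 4 F_3252 [(256, 14, 0)]
    0x112c1b = true := by
  decide +kernel

theorem f_3252 (h : TabsF) : FrameF repsF 344 F_3252.f :=
  frame_of rfl c_3252 ((runs_of engOK r_3252_0).append (runs_of engOK r_3252_1)) (by decide +kernel) h.2 h.1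

def F_3253 : FrX :=
  ⟨0x600020801080810000c0040180410101001004004014000800102008124000600400082020040808000810a0a0200403400008100040400140200a0020,
    0xa0, 1, 0x2042658695a2, 6,
    [(0xa0, 1), (0x637584a2, 4), (0x547690a1, 4), (0x64758390, 4), (0x547690a1, 4), (0x21647385, 4), (0x438690a2, 4), (0x64758390, 4), (0x438690a2, 4), (0x657483a1, 4), (0x64758390, 4), (0x21647385, 4)],
    [(0x2042658695a2, 6), (0x508397a2, 4), (0x21648790, 4), (0x53648097, 4), (0x21648790, 4), (0x738095a1, 4), (0x306485a2, 4), (0x53648097, 4), (0x306485a2, 4), (0x21537098, 4), (0x53648097, 4), (0x738095a1, 4)]⟩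

def c_3253 : frmChk tB tB F_3253 = true := by decide +kernel

def r_3253_0 : chkL rootF engF2 tB tB sB_344 sB_344 4 F_3253 [(511, 0, 0)]
    0x184e1384d4516554514595514516554514595514516554514595521384e130b82e0b82e84e1384d4516554514595514516554 = true := by
  decide +kernel

theorem f_3253 (h : TabsF) : FrameF repsF 344 F_3253.f :=
  frame_of rfl c_3253 (runs_of engOK r_3253_0) (by decide +kernel) h.2 h.2

def F_3254 : FrX :=
  ⟨0x80080a000804040e00002101002001000002040882200004050080100004081040a00108024200010048820400202001100001080403021001006200004,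
    0xa6, 1, 0x104350637594a2, 7,
    [(0xa6, 1), (0x205396a8, 4), (0x10548796, 4), (0x214396a7, 4), (0x205396a8, 4), (0x10548796, 4)],
    [(0x104350637594a2, 7), (0x327684a5, 4), (0x32508197, 4), (0x324196a0, 4), (0x327684a5, 4), (0x32508197, 4)]⟩

def c_3254 : frmChk tA tA F_3254 = true := by decide +kernel

def r_3254_0 : chkL rootF engF2 tA tA sA_344 sA_344 4 F_3254 [(511, 0, 0)]
    0x42e235430782e = true := by
  decide +kernel

theorem f_3254 (h : TabsF) : FrameF repsF 344 F_3254.f :=
  frame_of rfl c_3254 (runs_of engOK r_3254_0) (by decide +kernel) h.1 h.1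

def F_3255 : FrX :=
  ⟨0x2002000900044004000e020410001410008000408010020801a0001200020a0202000800402200020a000082200400800284000222090000802080808840,
    0xa3, 1, 0x10326282a3, 5,
    [(0xa3, 1), (0x208693a5, 4), (0x10548793, 4), (0x217693a4, 4), (0x208693a5, 4), (0x10548793, 4)],
    [(0x10326282a3, 5), (0x638192a5, 4), (0x10547692, 4), (0x738092a4, 4), (0x638192a5, 4), (0x10547692, 4)]⟩

def c_3255 : frmChk tA tA F_3255 = true := by decide +kernel

def r_3255_0 : chkL rootF engF2 tA tA sA_344 sA_344 4 F_3255 [(511, 0, 0)]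
    0x109c360b4270b42d4b30c4e30a4a52cc30b84b1234e3280e929ca2a83c207c19916602d0782d0b523 = true := by
  decide +kernel

theorem f_3255 (h : TabsF) : FrameF repsF 344 F_3255.f :=
  frame_of rfl c_3255 (runs_of engOK r_3255_0) (by decide +kernel) h.1 h.1

def F_3256 : FrX :=
  ⟨0x482000044040440000c2040020009000182040002080440000892000040081800000510020010800420400494010002080000284040120040108010102,
    0xa0, 1, 0x42508098a0, 5,
    [(0xa0, 1), (0x538690a2, 4), (0x548790a1, 4), (0x21437690, 4), (0x538690a2, 4), (0x548790a1, 4)],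
    [(0x42508098a0, 5), (0x308596a4, 4), (0x208597a1, 4), (0x32417685, 4), (0x308596a4, 4), (0x208597a1, 4)]⟩

def c_3256 : frmChk tA tA F_3256 = true := by decide +kernel

def r_3256_0 : chkL rootF engF2 tA tA sA_344 sA_344 4 F_3256 [(511, 0, 0)]
    0x1c0f810780f06d07 = true := by
  decide +kernel

theorem f_3256 (h : TabsF) : FrameF repsF 344 F_3256.f :=
  frame_of rfl c_3256 (runs_of engOK r_3256_0) (by decide +kernel) h.1 h.1

def F_3257 : FrX :=
  ⟨0x80080a000804040e0000210100200100000204088041080800440040102000022050006000208000a01c000000700800201100a40000904840003000800,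
    0xa6, 1, 0x21305061708594a1, 8,
    [(0xa6, 1), (0x205396a8, 4), (0x10548796, 4), (0x214396a7, 4), (0x205396a8, 4), (0x10548796, 4)],
    [(0x21305061708594a1, 8), (0x32647180, 4), (0x536498a7, 4), (0x526490a1, 4), (0x32647180, 4), (0x536498a7, 4)]⟩

def c_3257 : frmChk tA tA F_3257 = true := by decide +kernel

def r_3257_0 : chkL rootF engF2 tA tA sA_344 sA_344 4 F_3257 [(511, 0, 0)]
    0x10f01e0b80f154358541d = true := by
  decide +kernel

theorem f_3257 (h : TabsF) : FrameF repsF 344 F_3257.f :=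
  frame_of rfl c_3257 (runs_of engOK r_3257_0) (by decide +kernel) h.1 h.1

def F_3258 : FrX :=
  ⟨0x482000044040440000c2040020009000182040002024002001020400040800811010100c000110100000486028088000040012840800800a2110000001,
    0xa0, 1, 0x415065758298a1, 7,
    [(0xa0, 1), (0x538690a2, 4), (0x548790a1, 4), (0x21437690, 4), (0x538690a2, 4), (0x548790a1, 4)],
    [(0x415065758298a1, 7), (0x30768591, 4), (0x426071a5, 4), (0x10427693, 4), (0x426071a5, 4), (0x106397a8, 4), (0x31428590, 4), (0x10427693, 4), (0x31428590, 4), (0x617093a5, 4), (0x10427693, 4), (0x106397a8, 4)]⟩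

def c_3258 : frmChk tA tB F_3258 = true := by decide +kernel

def r_3258_0 : chkL rootF engF2 tA tB sA_344 sB_344 4 F_3258 [(511, 0, 0)]
    0x41e0b81e12e4c98664 = true := by
  decide +kernel

theorem f_3258 (h : TabsF) : FrameF repsF 344 F_3258.f :=
  frame_of rfl c_3258 (runs_of engOK r_3258_0) (by decide +kernel) h.1 h.2

def F_3259 : FrX :=
  ⟨0x482000044040440000c2040020009000182040002100404008020010000428400822000882001000080020604008402100000284040120040004808058,
    0xa0, 1, 0x4150607392a1, 6,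
    [(0xa0, 1), (0x538690a2, 4), (0x548790a1, 4), (0x21437690, 4), (0x538690a2, 4), (0x548790a1, 4)],
    [(0x4150607392a1, 6), (0x42708596, 4), (0x104283a6, 4), (0x425371a9, 4), (0x42708596, 4), (0x104283a6, 4)]⟩

def c_3259 : frmChk tA tA F_3259 = true := by decide +kernel

def r_3259_0 : chkL rootF engF2 tA tA sA_344 sA_344 4 F_3259 [(511, 0, 0)]
    0x46a0e81b06c334541b2a42e1341b2a42d0e433170a90b43a06c1b1701b03c0f03c1b = true := by
  decide +kernel

theorem f_3259 (h : TabsF) : FrameF repsF 344 F_3259.f :=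
  frame_of rfl c_3259 (runs_of engOK r_3259_0) (by decide +kernel) h.1 h.1

def F_3260 : FrX :=
  ⟨0x1c21020000040440000020410001010000820408a0001100000400208400a000040c800008800420a000408303008141001010002200004000818800280,
    0x0, 0, 0x216483, 3,
    [(0x0, 0), (0x205386a9, 4), (0x105487a9, 4), (0x214376a9, 4), (0x205386a9, 4), (0x105487a9, 4)],
    [(0x216483, 3), (0x104385a9, 4), (0x206573a9, 4), (0x217486a9, 4), (0x104385a9, 4), (0x206573a9, 4)]⟩

def c_3260 : frmChk tA tA F_3260 = true := by decide +kernel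

def r_3260_0 : chkL rootF engF2 tA tA sA_344 sA_344 4 F_3260 [(511, 0, 0)]
    0x41e03c0f = true := by
  decide +kernel

theorem f_3260 (h : TabsF) : FrameF repsF 344 F_3260.f :=
  frame_of rfl c_3260 (runs_of engOK r_3260_0) (by decide +kernel) h.1 h.1

def F_3261 : FrX :=
  ⟨0x80080a000804040e00002101002001000002040890010004208004900440001040800050000085000048000444002001100081010000888900300440280,
    0xa6, 1, 0x324364718494a3, 7,
    [(0xa6, 1), (0x205396a8, 4), (0x10548796, 4), (0x214396a7, 4), (0x205396a8, 4), (0x10548796, 4)],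
    [(0x324364718494a3, 7), (0x306284a5, 4), (0x61708495, 4), (0x217384a9, 4), (0x306284a5, 4), (0x61708495, 4)]⟩

def c_3261 : frmChk tA tA F_3261 = true := by decide +kernel

def r_3261_0 : chkL rootF engF2 tA tA sA_344 sA_344 4 F_3261 [(511, 0, 0)]
    0x124c35 = true := by
  decide +kernel

theorem f_3261 (h : TabsF) : FrameF repsF 344 F_3261.f :=
  frame_of rfl c_3261 (runs_of engOK r_3261_0) (by decide +kernel) h.1 h.1

def F_3262 : FrX :=
  ⟨0x80080a000804040e000021010020010000020408810110040844001004800000040c402000800400a010000303000141002090002002804000819000280,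
    0xa6, 1, 0x4264748196a6, 6,
    [(0xa6, 1), (0x205396a8, 4), (0x10548796, 4), (0x214396a7, 4), (0x205396a8, 4), (0x10548796, 4)],
    [(0x4264748196a6, 6), (0x406571a3, 4), (0x758092a6, 4), (0x316592a7, 4), (0x758092a6, 4), (0x516384a7, 4), (0x407392a1, 4), (0x316592a7, 4), (0x407392a1, 4), (0x317680a5, 4), (0x316592a7, 4), (0x516384a7, 4)]⟩

def c_3262 : frmChk tA tB F_3262 = true := by decide +kernel

def r_3262_0 : chkL rootF engF2 tA tB sA_344 sB_344 4 F_3262 [(511, 0, 0)]
    0x1134710ba310ba31 = true := by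
  decide +kernel

theorem f_3262 (h : TabsF) : FrameF repsF 344 F_3262.f :=
  frame_of rfl c_3262 (runs_of engOK r_3262_0) (by decide +kernel) h.1 h.2

def F_3263 : FrX :=
  ⟨0x482000044040440000c2040020009000182040002080440000a00010010408008404081081000142900800800220040000211005280800000802200088,
    0xa0, 1, 0x1021314194a0, 6,
    [(0xa0, 1), (0x538690a2, 4), (0x548790a1, 4), (0x21437690, 4), (0x538690a2, 4), (0x548790a1, 4)],
    [(0x1021314194a0, 6), (0x315286a0, 4), (0x318795a4, 4), (0x31407692, 4), (0x315286a0, 4), (0x318795a4, 4)]⟩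

def c_3263 : frmChk tA tA F_3263 = true := by decide +kernel

def r_3263_0 : chkL rootF engF2 tA tA sA_344 sA_344 4 F_3263 [(511, 0, 0)]
    0x45303c0f92417 = true := by
  decide +kernel

theorem f_3263 (h : TabsF) : FrameF repsF 344 F_3263.f :=
  frame_of rfl c_3263 (runs_of engOK r_3263_0) (by decide +kernel) h.1 h.1

def F_3264 : FrX :=
  ⟨0x80080a000804040e00002101002001000002040890040001108010420410008004024001500009008400000a08081400068000006000820040880220040,
    0xa6, 1, 0x103051647096a8, 7,
    [(0xa6, 1), (0x205396a8, 4), (0x10548796, 4), (0x214396a7, 4), (0x205396a8, 4), (0x10548796, 4)],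
    [(0x103051647096a8, 7), (0x107284a9, 4), (0x607584a3, 4), (0x52618493, 4), (0x107284a9, 4), (0x607584a3, 4)]⟩

def c_3264 : frmChk tA tA F_3264 = true := by decide +kernel

def r_3264_0 : chkL rootF engF2 tA tA sA_344 sA_344 4 F_3264 [(511, 0, 0)]
    0x112c2e03c55 = true := by
  decide +kernel

theorem f_3264 (h : TabsF) : FrameF repsF 344 F_3264.f :=
  frame_of rfl c_3264 (runs_of engOK r_3264_0) (by decide +kernel) h.1 h.1

def F_3265 : FrX :=
  ⟨0x482000044040440000c2040020009000182040001014180004020200020800810010100c00040408800220048008140004006000600081014024000804,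
    0xa0, 1, 0x3142546076a4, 6,
    [(0xa0, 1), (0x538690a2, 4), (0x548790a1, 4), (0x21437690, 4), (0x538690a2, 4), (0x548790a1, 4)],
    [(0x3142546076a4, 6), (0x206471a8, 4), (0x637095a2, 4), (0x208195a7, 4), (0x637095a2, 4), (0x104382a7, 4), (0x648795a1, 4), (0x208195a7, 4), (0x648795a1, 4), (0x637281a0, 4), (0x208195a7, 4), (0x104382a7, 4)]⟩

def c_3265 : frmChk tA tB F_3265 = true := by decide +kernel

def r_3265_0 : chkL rootF engF2 tA tB sA_344 sB_344 4 F_3265 [(511, 0, 0)]
    0x168a2ac880f = true := by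
  decide +kernel

theorem f_3265 (h : TabsF) : FrameF repsF 344 F_3265.f :=
  frame_of rfl c_3265 (runs_of engOK r_3265_0) (by decide +kernel) h.1 h.2

def F_3266 : FrX :=
  ⟨0x80080a000804040e00002101002001000002040890010004208004900440001040800050000085000048000444001002160000a100012202400010a0100,
    0xa6, 1, 0x203053718594a5, 7,
    [(0xa6, 1), (0x205396a8, 4), (0x10548796, 4), (0x214396a7, 4), (0x205396a8, 4), (0x10548796, 4)],
    [(0x203053718594a5, 7), (0x306284a5, 4), (0x217384a9, 4), (0x61708495, 4), (0x306284a5, 4), (0x217384a9, 4)]⟩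

def c_3266 : frmChk tA tA F_3266 = true := by decide +kernel

def r_3266_0 : chkL rootF engF2 tA tA sA_344 sA_344 4 F_3266 [(511, 0, 0)]
    0x105c4e = true := by
  decide +kernel

theorem f_3266 (h : TabsF) : FrameF repsF 344 F_3266.f :=
  frame_of rfl c_3266 (runs_of engOK r_3266_0) (by decide +kernel) h.1 h.1

def F_3267 : FrX :=
  ⟨0x2002000900044004000e02041000141000800040801000282001201002000c00040048110100004204040400440010001041023210001020204110008004,
    0xa3, 1, 0x4251718794a3, 6,
    [(0xa3, 1), (0x208693a5, 4), (0x10548793, 4), (0x217693a4, 4), (0x208693a5, 4), (0x10548793, 4)],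
    [(0x4251718794a3, 6), (0x408195a6, 4), (0x32708691, 4), (0x328196a5, 4), (0x32708691, 4), (0x517496a8, 4), (0x324065a9, 4), (0x328196a5, 4), (0x324065a9, 4), (0x617098a5, 4), (0x328196a5, 4), (0x517496a8, 4)]⟩

def c_3267 : frmChk tA tB F_3267 = true := by decide +kernel

def r_3267_0 : chkL rootF engF2 tA tB sA_344 sB_344 4 F_3267 [(511, 0, 0)]
    0x49a = true := by
  decide +kernel

theorem f_3267 (h : TabsF) : FrameF repsF 344 F_3267.f :=
  frame_of rfl c_3267 (runs_of engOK r_3267_0) (by decide +kernel) h.1 h.2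

def F_3268 : FrX :=
  ⟨0x482000044040440000c20400200090001820400100800801040c0100020021800800100804040410000220408002440100200111200400014220008084,
    0xa0, 1, 0x102061738691a6, 7,
    [(0xa0, 1), (0x538690a2, 4), (0x548790a1, 4), (0x21437690, 4), (0x538690a2, 4), (0x548790a1, 4)],
    [(0x102061738691a6, 7), (0x214053a7, 4), (0x548692a3, 4), (0x537086a4, 4), (0x548692a3, 4), (0x507391a4, 4), (0x217486a0, 4), (0x537086a4, 4), (0x217486a0, 4), (0x437092a5, 4), (0x537086a4, 4), (0x507391a4, 4)]⟩

def c_3268 : frmChk tA tB F_3268 = true := by decide +kernel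

def r_3268_0 : chkL rootF engF2 tA tB sA_344 sB_344 4 F_3268 [(511, 0, 0)]
    0x103c0f0d4350d44d05c4b12c17 = true := by
  decide +kernel

theorem f_3268 (h : TabsF) : FrameF repsF 344 F_3268.f :=
  frame_of rfl c_3268 (runs_of engOK r_3268_0) (by decide +kernel) h.1 h.2

theorem cl_344 (h : TabsF) : ∀ f ∈ fr_344, FrameF repsF 344 f :=
  List.forall_mem_cons.2 ⟨f_3241 h, List.forall_mem_cons.2 ⟨f_3242 h, List.forall_mem_cons.2 ⟨f_3243 h, List.forall_mem_cons.2 ⟨f_3244 h, List.forall_mem_cons.2 ⟨f_3245 h, List.forall_mem_cons.2 ⟨f_3246 h, List.forall_mem_cons.2 ⟨f_3247 h, List.forall_mem_cons.2 ⟨f_3248 h, List.forall_mem_cons.2 ⟨f_3249 h, List.forall_mem_cons.2 ⟨f_3250 h, List.forall_mem_cons.2 ⟨f_3251 h, List.forall_mem_cons.2 ⟨f_3252 h, List.forall_mem_cons.2 ⟨f_3253 h, List.forall_mem_cons.2 ⟨f_3254 h, List.forall_mem_cons.2 ⟨f_3255 h, List.forall_mem_cons.2 ⟨f_3256 h, List.forall_mem_cons.2 ⟨f_3257 h, List.forall_mem_cons.2 ⟨f_3258 h, List.forall_mem_cons.2 ⟨f_3259 h, List.forall_mem_cons.2 ⟨f_3260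 h, List.forall_mem_cons.2 ⟨f_3261 h, List.forall_mem_cons.2 ⟨f_3262 h, List.forall_mem_cons.2 ⟨f_3263 h, List.forall_mem_cons.2 ⟨f_3264 h, List.forall_mem_cons.2 ⟨f_3265 h, List.forall_mem_cons.2 ⟨f_3266 h, List.forall_mem_cons.2 ⟨f_3267 h, List.forall_mem_cons.2 ⟨f_3268 h,
    fun _ h0 => absurd h0 List.not_mem_nil⟩⟩⟩⟩⟩⟩⟩⟩⟩⟩⟩⟩⟩⟩⟩⟩⟩⟩⟩⟩⟩⟩⟩⟩⟩⟩⟩⟩

def F_3269 : FrX :=
  ⟨0x2002000900044004000e0204100014100080004081000002180100410200404014008101480001010202028202001000008008808080060e000202000005,
    0xa3, 1, 0x314262748190a6, 7,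
    [(0xa3, 1), (0x208693a5, 4), (0x10548793, 4), (0x217693a4, 4), (0x208693a5, 4), (0x10548793, 4)],
    [(0x314262748190a6, 7), (0x527396a1, 4), (0x407598a2, 4), (0x314052a7, 4), (0x407598a2, 4), (0x215386a7, 4), (0x407196a3, 4), (0x314052a7, 4), (0x407196a3, 4), (0x317298a5, 4), (0x314052a7, 4), (0x215386a7, 4)]⟩

def c_3269 : frmChk tA tB F_3269 = true := by decide +kernel

def r_3269_0 : chkL rootF engF2 tA tB sA_345 sB_345 4 F_3269 [(511, 0, 0)]
    0x10b83609f908a84b = true := by
  decide +kernel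

theorem f_3269 (h : TabsF) : FrameF repsF 345 F_3269.f :=
  frame_of rfl c_3269 (runs_of engOK r_3269_0) (by decide +kernel) h.1 h.2

def F_3270 : FrX :=
  ⟨0x80080a000804040e0000210100200100000204088200880200840000814008004101203080001000203008012200000200404a0200d0008002010088010,
    0xa6, 1, 0x2030607191a2, 6,
    [(0xa6, 1), (0x205396a8, 4), (0x10548796, 4), (0x214396a7, 4), (0x205396a8, 4), (0x10548796, 4)],
    [(0x2030607191a2, 6), (0x527083a6, 4), (0x54708196, 4), (0x314270a9, 4), (0x527083a6, 4), (0x54708196, 4)]⟩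

def c_3270 : frmChk tA tA F_3270 = true := by decide +kernel

def r_3270_0 : chkL rootF engF2 tA tA sA_345 sA_345 4 F_3270 [(511, 0, 0)]
    0x113436 = true := by
  decide +kernel

theorem f_3270 (h : TabsF) : FrameF repsF 345 F_3270.f :=
  frame_of rfl c_3270 (runs_of engOK r_3270_0) (by decide +kernel) h.1 h.1

def F_3271 : FrX :=
  ⟨0x80080a000804040e00002101002001000002040893080000050000100800082009084002002008208008201002204040300602010002022002005008200,
    0xa6, 1, 0x203142627583a3, 7,
    [(0xa6, 1), (0x205396a8, 4), (0x10548796, 4), (0x214396a7, 4), (0x205396a8, 4), (0x10548796, 4)],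
    [(0x203142627583a3, 7), (0x416298a7, 4), (0x32517098, 4), (0x546398a0, 4), (0x416298a7, 4), (0x32517098, 4)]⟩

def c_3271 : frmChk tA tA F_3271 = true := by decide +kernel

def r_3271_0 : chkL rootF engF2 tA tA sA_345 sA_345 4 F_3271 [(511, 0, 0)]
    0x507c180f03c2d05c3609d510d5524996451b245605c561461d24c0b81d53306 = true := by
  decide +kernel

theorem f_3271 (h : TabsF) : FrameF repsF 345 F_3271.f :=
  frame_of rfl c_3271 (runs_of engOK r_3271_0) (by decide +kernel) h.1 h.1

def F_3272 : FrX :=
  ⟨0x2002000900044004000e020410001410008000408008020800a0004100010c010400030101000081022060004040400402842080022006004000000a4040,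
    0xa3, 1, 0x30425265728196a3, 8,
    [(0xa3, 1), (0x208693a5, 4), (0x10548793, 4), (0x217693a4, 4), (0x208693a5, 4), (0x10548793, 4)],
    [(0x30425265728196a3, 8), (0x407391a6, 4), (0x40516283, 4), (0x408795a2, 4), (0x407391a6, 4), (0x40516283, 4)]⟩

def c_3272 : frmChk tA tA F_3272 = true := by decide +kernel

def r_3272_0 : chkL rootF engF2 tA tA sA_345 sA_345 4 F_3272 [(511, 0, 0)]
    0x109c27 = true := by
  decide +kernel

theorem f_3272 (h : TabsF) : FrameF repsF 345 F_3272.f :=
  frame_of rfl c_3272 (runs_of engOK r_3272_0) (by decide +kernel) h.1 h.1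

def F_3273 : FrX :=
  ⟨0x2002000900044004000e02041000141000800040810000081108004060810041200008002182009008200005004020004201020010000220040220020281,
    0xa3, 1, 0x32638696a2, 5,
    [(0xa3, 1), (0x208693a5, 4), (0x10548793, 4), (0x217693a4, 4), (0x208693a5, 4), (0x10548793, 4)],
    [(0x32638696a2, 5), (0x427596a0, 4), (0x10548397, 4), (0x62758394, 4), (0x10548397, 4), (0x527694a1, 4), (0x648392a0, 4), (0x62758394, 4), (0x648392a0, 4), (0x10627495, 4), (0x62758394, 4), (0x527694a1, 4)]⟩

def c_3273 : frmChk tA tB F_3273 = true := by decide +kernel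

def r_3273_0 : chkL rootF engF2 tA tB sA_345 sB_345 4 F_3273 [(511, 0, 0)]
    0x417 = true := by
  decide +kernel

theorem f_3273 (h : TabsF) : FrameF repsF 345 F_3273.f :=
  frame_of rfl c_3273 (runs_of engOK r_3273_0) (by decide +kernel) h.1 h.2

def F_3274 : FrX :=
  ⟨0x482000044040440000c2040020009000182040004011020104080004080041200202000848401020000008404120008208048202000602100220000042,
    0xa0, 1, 0x4350617187a6, 6,
    [(0xa0, 1), (0x538690a2, 4), (0x548790a1, 4), (0x21437690, 4), (0x538690a2, 4), (0x548790a1, 4)],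
    [(0x4350617187a6, 6), (0x405291a6, 4), (0x30758691, 4), (0x437291a8, 4), (0x405291a6, 4), (0x30758691, 4)]⟩

def c_3274 : frmChk tA tA F_3274 = true := by decide +kernel

def r_3274_0 : chkL rootF engF2 tA tA sA_345 sA_345 4 F_3274 [(511, 0, 0)]
    0x103c2e0b9310783603c930782e = true := by
  decide +kernel

theorem f_3274 (h : TabsF) : FrameF repsF 345 F_3274.f :=
  frame_of rfl c_3274 (runs_of engOK r_3274_0) (by decide +kernel) h.1 h.1

def F_3275 : FrX :=
  ⟨0x482000044040440000c2040020009000182040000421012001080800080102100200050040081300000011102008008100041210080002100810900201,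
    0xa0, 1, 0x4151637582a0, 6,
    [(0xa0, 1), (0x538690a2, 4), (0x548790a1, 4), (0x21437690, 4), (0x538690a2, 4), (0x548790a1, 4)],
    [(0x4151637582a0, 6), (0x216374a8, 4), (0x437190a5, 4), (0x31627490, 4), (0x437190a5, 4), (0x31647285, 4), (0x326190a8, 4), (0x31627490, 4), (0x326190a8, 4), (0x416273a5, 4), (0x31627490, 4), (0x31647285, 4)]⟩

def c_3275 : frmChk tA tB F_3275 = true := by decide +kernel

def r_3275_0 : chkL rootF engF2 tA tB sA_345 sB_345 4 F_3275 [(511, 0, 0)]
    0x4362541d0e83912c3a0e44b0e44711c3911c470e439 = true := by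
  decide +kernel

theorem f_3275 (h : TabsF) : FrameF repsF 345 F_3275.f :=
  frame_of rfl c_3275 (runs_of engOK r_3275_0) (by decide +kernel) h.1 h.2

def F_3276 : FrX :=
  ⟨0x600020801080810000c0040180410101001004007200020000400004009400049002000880010020210300088010840800201210100080010009004201,
    0xa0, 1, 0x30417498a8, 5,
    [(0xa0, 1), (0x637584a2, 4), (0x547690a1, 4), (0x64758390, 4), (0x547690a1, 4), (0x21647385, 4), (0x438690a2, 4), (0x64758390, 4), (0x438690a2, 4), (0x657483a1, 4), (0x64758390, 4), (0x21647385, 4)],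
    [(0x30417498a8, 5), (0x325098a6, 4), (0x437598a1, 4), (0x42617098, 4), (0x325098a6, 4), (0x437598a1, 4)]⟩

def c_3276 : frmChk tB tA F_3276 = true := by decide +kernel

def r_3276_0 : chkL rootF engF2 tB tA sB_345 sA_345 4 F_3276 [(511, 0, 0)]
    0x11b06c0746c = true := by
  decide +kernel

theorem f_3276 (h : TabsF) : FrameF repsF 345 F_3276.f :=
  frame_of rfl c_3276 (runs_of engOK r_3276_0) (by decide +kernel) h.2 h.1

def F_3277 : FrX :=
  ⟨0x600020801080810000c0040180410101001004000a0010080008480800a202020000404020400008084200102020010580000100c1008c000000144880,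
    0xa0, 1, 0x21415261748697a6, 8,
    [(0xa0, 1), (0x637584a2, 4), (0x547690a1, 4), (0x64758390, 4), (0x547690a1, 4), (0x21647385, 4), (0x438690a2, 4), (0x64758390, 4), (0x438690a2, 4), (0x657483a1, 4), (0x64758390, 4), (0x21647385, 4)],
    [(0x21415261748697a6, 8), (0x315082a4, 4), (0x60718294, 4), (0x657382a9, 4), (0x315082a4, 4), (0x60718294, 4)]⟩

def c_3277 : frmChk tB tA F_3277 = true := by decide +kernel

def r_3277_0 : chkL rootF engF2 tB tA sB_345 sA_345 4 F_3277 [(511, 0, 0)]
    0x1 = true := by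
  decide +kernel

theorem f_3277 (h : TabsF) : FrameF repsF 345 F_3277.f :=
  frame_of rfl c_3277 (runs_of engOK r_3277_0) (by decide +kernel) h.2 h.1

def F_3278 : FrX :=
  ⟨0x1c404400000808100000084008041000010108406000208000010400420a00000880220008013812021020001801084081000101010000000a009014400,
    0x0, 0, 0x43546483, 4,
    [(0x0, 0), (0x20637584, 4), (0x105476a9, 4), (0x647583a9, 4), (0x105476a9, 4), (0x21647385, 4), (0x204386a9, 4), (0x647583a9, 4), (0x204386a9, 4), (0x10657483, 4), (0x647583a9, 4), (0x21647385, 4)],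
    [(0x43546483, 4), (0x205483a9, 4), (0x106374a9, 4), (0x217586a9, 4), (0x205483a9, 4), (0x106374a9, 4)]⟩

def c_3278 : frmChk tB tA F_3278 = true := by decide +kernel

def r_3278_0 : chkL rootF engF2 tB tA sB_345 sA_345 4 F_3278 [(255, 0, 0), (256, 0, 8)]
    0x10781e = true := by
  decide +kernel

def r_3278_1 : chkL rootF engF2 tB tA sB_345 sA_345 4 F_3278 [(256, 8, 0)]
    0x42e = true := by
  decide +kernel

theorem f_3278 (h : TabsF) : FrameF repsF 345 F_3278.f :=
  frame_of rfl c_3278 ((runs_of engOK r_3278_0).append (runs_of engOK r_3278_1)) (by decide +kernel) h.2 h.1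

def F_3279 : FrX :=
  ⟨0x1001040012008080000e00840800410008101000040820081008400022000030048048004200008208001c00850002200000845010004440014008000084,
    0xa3, 1, 0x4253708196a3, 6,
    [(0xa3, 1), (0x207584a6, 4), (0x10547693, 4), (0x647593a8, 4), (0x10547693, 4), (0x216485a7, 4), (0x208693a4, 4), (0x647593a8, 4), (0x208693a4, 4), (0x106574a8, 4), (0x647593a8, 4), (0x216485a7, 4)],
    [(0x4253708196a3, 6), (0x213074a9, 4), (0x32658790, 4), (0x306592a1, 4), (0x32658790, 4), (0x318492a0, 4), (0x657491a2, 4), (0x306592a1, 4), (0x657491a2, 4), (0x208793a1, 4), (0x306592a1, 4), (0x318492a0, 4)]⟩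

def c_3279 : frmChk tB tB F_3279 = true := by decide +kernel

def r_3279_0 : chkL rootF engF2 tB tB sB_345 sB_345 4 F_3279 [(511, 0, 0)]
    0x439 = true := by
  decide +kernel

theorem f_3279 (h : TabsF) : FrameF repsF 345 F_3279.f :=
  frame_of rfl c_3279 (runs_of engOK r_3279_0) (by decide +kernel) h.2 h.2

def F_3280 : FrX :=
  ⟨0x1001040012008080000e00840800410008101000042100001101110021000044004108002020200800022402020002802100102108020004060000820340,
    0xa3, 1, 0x203051618390a3, 7,
    [(0xa3, 1), (0x207584a6, 4), (0x10547693, 4), (0x647593a8, 4), (0x10547693, 4), (0x216485a7, 4), (0x208693a4, 4), (0x647593a8, 4), (0x208693a4, 4), (0x106574a8, 4), (0x647593a8, 4), (0x216485a7, 4)],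
    [(0x203051618390a3, 7), (0x528390a1, 4), (0x41728396, 4), (0x607583a4, 4), (0x528390a1, 4), (0x41728396, 4)]⟩

def c_3280 : frmChk tB tA F_3280 = true := by decide +kernel

def r_3280_0 : chkL rootF engF2 tB tA sB_345 sA_345 4 F_3280 [(511, 0, 0)]
    0x106c1b05c3a = true := by
  decide +kernel

theorem f_3280 (h : TabsF) : FrameF repsF 345 F_3280.f :=
  frame_of rfl c_3280 (runs_of engOK r_3280_0) (by decide +kernel) h.2 h.1

def F_3281 : FrX :=
  ⟨0x1001040012008080000e00840800410008101000040410084008400040120000810800504080202000040804440010800800202108000801065105002000,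
    0xa3, 1, 0x52748798a1, 5,
    [(0xa3, 1), (0x207584a6, 4), (0x10547693, 4), (0x647593a8, 4), (0x10547693, 4), (0x216485a7, 4), (0x208693a4, 4), (0x647593a8, 4), (0x208693a4, 4), (0x106574a8, 4), (0x647593a8, 4), (0x216485a7, 4)],
    [(0x52748798a1, 5), (0x50638297, 4), (0x417286a0, 4), (0x41768293, 4), (0x417286a0, 4), (0x768392a5, 4), (0x41507396, 4), (0x41768293, 4), (0x41507396, 4), (0x628793a0, 4), (0x41768293, 4), (0x768392a5, 4)]⟩

def c_3281 : frmChk tB tB F_3281 = true := by decide +kernel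

def r_3281_0 : chkL rootF engF2 tB tB sB_345 sB_345 4 F_3281 [(511, 0, 0)]
    0x45a12c59 = true := by
  decide +kernel

theorem f_3281 (h : TabsF) : FrameF repsF 345 F_3281.f :=
  frame_of rfl c_3281 (runs_of engOK r_3281_0) (by decide +kernel) h.2 h.2

def F_3282 : FrX :=
  ⟨0x80080a000804040e00002101002001000002040884020400220008008014001051000400c00280222000800500040802004040420003001000940020030,
    0xa6, 1, 0x203152627492a3, 7,
    [(0xa6, 1), (0x205396a8, 4), (0x10548796, 4), (0x214396a7, 4), (0x205396a8, 4), (0x10548796, 4)],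
    [(0x203152627492a3, 7), (0x618592a0, 4), (0x32617084, 4), (0x546193a7, 4), (0x618592a0, 4), (0x32617084, 4)]⟩

def c_3282 : frmChk tA tA F_3282 = true := by decide +kernel

def r_3282_0 : chkL rootF engF2 tA tA sA_345 sA_345 4 F_3282 [(511, 0, 0)]
    0x43603c0f03c0f0b88e13b422992ad0a2388f4113b42c880f03c0f = true := by
  decide +kernel

theorem f_3282 (h : TabsF) : FrameF repsF 345 F_3282.f :=
  frame_of rfl c_3282 (runs_of engOK r_3282_0) (by decide +kernel) h.1 h.1

def F_3283 : FrX :=
  ⟨0x2002000900044004000e0204100014100080004080080024800440018101004004008102000800800a4802808004008002042004400808000400a000c021,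
    0xa3, 1, 0x10314365708393a1, 8,
    [(0xa3, 1), (0x208693a5, 4), (0x10548793, 4), (0x217693a4, 4), (0x208693a5, 4), (0x10548793, 4)],
    [(0x10314365708393a1, 8), (0x54728396, 4), (0x416083a7, 4), (0x518390a2, 4), (0x54728396, 4), (0x416083a7, 4)]⟩

def c_3283 : frmChk tA tA F_3283 = true := by decide +kernel

def r_3283_0 : chkL rootF engF2 tA tA sA_345 sA_345 4 F_3283 [(511, 0, 0)]
    0x10e61a = true := by
  decide +kernel

theorem f_3283 (h : TabsF) : FrameF repsF 345 F_3283.f :=
  frame_of rfl c_3283 (runs_of engOK r_3283_0) (by decide +kernel) h.1 h.1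

def F_3284 : FrX :=
  ⟨0x2002000900044004000e02041000141000800040801000228001400101008400040201100a08200422200040400048800000080480840000040a100c2020,
    0xa3, 1, 0x214152718794a3, 7,
    [(0xa3, 1), (0x208693a5, 4), (0x10548793, 4), (0x217693a4, 4), (0x208693a5, 4), (0x10548793, 4)],
    [(0x214152718794a3, 7), (0x508194a6, 4), (0x32708691, 4), (0x328196a4, 4), (0x32708691, 4), (0x417596a8, 4), (0x325064a9, 4), (0x328196a4, 4), (0x325064a9, 4), (0x617098a4, 4), (0x328196a4, 4), (0x417596a8, 4)]⟩

def c_3284 : frmChk tA tB F_3284 = true := by decide +kernel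

def r_3284_0 : chkL rootF engF2 tA tB sA_345 sB_345 4 F_3284 [(511, 0, 0)]
    0x10ac17 = true := by
  decide +kernel

theorem f_3284 (h : TabsF) : FrameF repsF 345 F_3284.f :=
  frame_of rfl c_3284 (runs_of engOK r_3284_0) (by decide +kernel) h.1 h.2

def F_3285 : FrX :=
  ⟨0x80080a000804040e000021010020010000020408a000080220002840022400204040004040004840a080800a00408800202800420002002002210008030,
    0xa6, 1, 0x3251708598a6, 6,
    [(0xa6, 1), (0x205396a8, 4), (0x10548796, 4), (0x214396a7, 4), (0x205396a8, 4), (0x10548796, 4)],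
    [(0x3251708598a6, 6), (0x617382a9, 4), (0x61758490, 4), (0x425361a0, 4), (0x617382a9, 4), (0x61758490, 4)]⟩

def c_3285 : frmChk tA tA F_3285 = true := by decide +kernel

def r_3285_0 : chkL rootF engF2 tA tA sA_345 sA_345 4 F_3285 [(511, 0, 0)]
    0x41703c5903c3c1386a1a87881c650b863 = true := by
  decide +kernel

theorem f_3285 (h : TabsF) : FrameF repsF 345 F_3285.f :=
  frame_of rfl c_3285 (runs_of engOK r_3285_0) (by decide +kernel) h.1 h.1

def F_3286 : FrX :=
  ⟨0x2002000900044004000e0204100014100080004080100101200140010102010000410806000204400a200112020000801008082010041000040a10800201,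
    0xa3, 1, 0x1050608495a1, 6,
    [(0xa3, 1), (0x208693a5, 4), (0x10548793, 4), (0x217693a4, 4), (0x208693a5, 4), (0x10548793, 4)],
    [(0x1050608495a1, 6), (0x53628497, 4), (0x107598a6, 4), (0x10438597, 4), (0x107598a6, 4), (0x738594a2, 4), (0x10546283, 4), (0x10438597, 4), (0x10546283, 4), (0x438795a6, 4), (0x10438597, 4), (0x738594a2, 4)]⟩

def c_3286 : frmChk tA tB F_3286 = true := by decide +kernel

def r_3286_0 : chkL rootF engF2 tA tB sA_345 sB_345 4 F_3286 [(511, 0, 0)]
    0x41b12c4b661980d863 = true := by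
  decide +kernel

theorem f_3286 (h : TabsF) : FrameF repsF 345 F_3286.f :=
  frame_of rfl c_3286 (runs_of engOK r_3286_0) (by decide +kernel) h.1 h.2

def F_3287 : FrX :=
  ⟨0x80080a000804040e0000210100200100000204089001000808400410010a008010800080808011020001020411202800022080080801002040a00880080,
    0xa6, 1, 0x315162738693a0, 7,
    [(0xa6, 1), (0x205396a8, 4), (0x10548796, 4), (0x214396a7, 4), (0x205396a8, 4), (0x10548796, 4)],
    [(0x315162738693a0, 7), (0x708293a6, 4), (0x214370a5, 4), (0x65708194, 4), (0x708293a6, 4), (0x214370a5, 4)]⟩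

def c_3287 : frmChk tA tA F_3287 = true := by decide +kernel

def r_3287_0 : chkL rootF engF2 tA tA sA_345 sA_345 4 F_3287 [(511, 0, 0)]
    0x111e4a9a04d0780f03c4d94878551c2740693604e06c0f03c781e00f06c1b = true := by
  decide +kernel

theorem f_3287 (h : TabsF) : FrameF repsF 345 F_3287.f :=
  frame_of rfl c_3287 (runs_of engOK r_3287_0) (by decide +kernel) h.1 h.1

def F_3288 : FrX :=
  ⟨0x482000044040440000c2040020009000182040000822040808100008040021010802000888000280000020015420002002044480010100812220000081,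
    0xa0, 1, 0x1031435072a7, 6,
    [(0xa0, 1), (0x538690a2, 4), (0x548790a1, 4), (0x21437690, 4), (0x538690a2, 4), (0x548790a1, 4)],
    [(0x1031435072a7, 6), (0x647580a1, 4), (0x105392a6, 4), (0x608492a1, 4), (0x105392a6, 4), (0x607381a4, 4), (0x40758692, 4), (0x608492a1, 4), (0x40758692, 4), (0x536184a0, 4), (0x608492a1, 4), (0x607381a4, 4)]⟩

def c_3288 : frmChk tA tB F_3288 = true := by decide +kernel

def r_3288_0 : chkL rootF engF2 tA tB sA_345 sB_345 4 F_3288 [(511, 0, 0)]
    0x41d07436 = true := by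
  decide +kernel

theorem f_3288 (h : TabsF) : FrameF repsF 345 F_3288.f :=
  frame_of rfl c_3288 (runs_of engOK r_3288_0) (by decide +kernel) h.1 h.2

def F_3289 : FrX :=
  ⟨0x2002000900044004000e02041000141000800040808002000320000404010c08004024000900010224000008491000802041001041028400000900044004,
    0xa3, 1, 0x405262748097a1, 7,
    [(0xa3, 1), (0x208693a5, 4), (0x10548793, 4), (0x217693a4, 4), (0x208693a5, 4), (0x10548793, 4)],
    [(0x405262748097a1, 7), (0x10325486, 4), (0x107294a8, 4), (0x107395a6, 4), (0x10325486, 4), (0x107294a8, 4)]⟩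

def c_3289 : frmChk tA tA F_3289 = true := by decide +kernel

def r_3289_0 : chkL rootF engF2 tA tA sA_345 sA_345 4 F_3289 [(511, 0, 0)]
    0x105c4d0784d0acb111c17 = true := by
  decide +kernel

theorem f_3289 (h : TabsF) : FrameF repsF 345 F_3289.f :=
  frame_of rfl c_3289 (runs_of engOK r_3289_0) (by decide +kernel) h.1 h.1

def F_3290 : FrX :=
  ⟨0x80080a000804040e00002101002001000002040881200008048028000020201030800800c000400800804802105041040020100204100810100a4000010,
    0xa6, 1, 0x213052738196a7, 7,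
    [(0xa6, 1), (0x205396a8, 4), (0x10548796, 4), (0x214396a7, 4), (0x205396a8, 4), (0x10548796, 4)],
    [(0x213052738196a7, 7), (0x425397a1, 4), (0x416083a9, 4), (0x607294a1, 4), (0x416083a9, 4), (0x218594a7, 4), (0x53607492, 4), (0x607294a1, 4), (0x53607492, 4), (0x728391a4, 4), (0x607294a1, 4), (0x218594a7, 4)]⟩

def c_3290 : frmChk tA tB F_3290 = true := by decide +kernel

def r_3290_0 : chkL rootF engF2 tA tB sA_345 sB_345 4 F_3290 [(511, 0, 0)]
    0x4742c40f05c2d = true := by
  decide +kernel

theorem f_3290 (h : TabsF) : FrameF repsF 345 F_3290.f :=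
  frame_of rfl c_3290 (runs_of engOK r_3290_0) (by decide +kernel) h.1 h.2

def F_3291 : FrX :=
  ⟨0x80080a000804040e00002101002001000002040890020001408010808240004020011001004021008008000808048100221801010000120044080a80080,
    0xa6, 1, 0x304151657296a8, 7,
    [(0xa6, 1), (0x205396a8, 4), (0x10548796, 4), (0x214396a7, 4), (0x205396a8, 4), (0x10548796, 4)],
    [(0x304151657296a8, 7), (0x627390a1, 4), (0x53618492, 4), (0x628491a0, 4), (0x53618492, 4), (0x207591a6, 4), (0x107384a9, 4), (0x628491a0, 4), (0x107384a9, 4), (0x215396a0, 4), (0x628491a0, 4), (0x207591a6, 4)]⟩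

def c_3291 : frmChk tA tB F_3291 = true := by decide +kernel

def r_3291_0 : chkL rootF engF2 tA tB sA_345 sB_345 4 F_3291 [(511, 0, 0)]
    0x41d = true := by
  decide +kernel

theorem f_3291 (h : TabsF) : FrameF repsF 345 F_3291.f :=
  frame_of rfl c_3291 (runs_of engOK r_3291_0) (by decide +kernel) h.1 h.2

def F_3292 : FrX :=
  ⟨0x2002000900044004000e0204100014100080004080040048400420208200088002002400110400040c000100800050100300081030000820002042201014,
    0xa3, 1, 0x5164718093a0, 6,
    [(0xa3, 1), (0x208693a5, 4), (0x10548793, 4), (0x217693a4, 4), (0x208693a5, 4), (0x10548793, 4)],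
    [(0x5164718093a0, 6), (0x408391a2, 4), (0x506183a7, 4), (0x54728396, 4), (0x408391a2, 4), (0x506183a7, 4)]⟩

def c_3292 : frmChk tA tA F_3292 = true := by decide +kernel

def r_3292_0 : chkL rootF engF2 tA tA sA_345 sA_345 4 F_3292 [(511, 0, 0)]
    0x12b0471643903d920740f = true := by
  decide +kernel

theorem f_3292 (h : TabsF) : FrameF repsF 345 F_3292.f :=
  frame_of rfl c_3292 (runs_of engOK r_3292_0) (by decide +kernel) h.1 h.1

def F_3293 : FrX :=
  ⟨0x80080a000804040e00002101002001000002040884021000044084008280001000103020004220010810000088300440221010002008400404040808200,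
    0xa6, 1, 0x10324252607498a3, 8,
    [(0xa6, 1), (0x205396a8, 4), (0x10548796, 4), (0x214396a7, 4), (0x205396a8, 4), (0x10548796, 4)],
    [(0x10324252607498a3, 8), (0x436597a1, 4), (0x31607482, 4), (0x437182a9, 4), (0x31607482, 4), (0x507194a3, 4), (0x658291a7, 4), (0x437182a9, 4), (0x658291a7, 4), (0x416073a9, 4), (0x437182a9, 4), (0x507194a3, 4)]⟩

def c_3293 : frmChk tA tB F_3293 = true := by decide +kernel

def r_3293_0 : chkL rootF engF2 tA tB sA_345 sB_345 4 F_3293 [(511, 0, 0)]
    0x1a241703c4e = true := by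
  decide +kernel

theorem f_3293 (h : TabsF) : FrameF repsF 345 F_3293.f :=
  frame_of rfl c_3293 (runs_of engOK r_3293_0) (by decide +kernel) h.1 h.2

def F_3294 : FrX :=
  ⟨0x600020801080810000c0040180410101001004004160400000102008101004000408080880040200001410a020012403000008100300400140200a0020,
    0xa0, 1, 0x30516573a3, 5,
    [(0xa0, 1), (0x637584a2, 4), (0x547690a1, 4), (0x64758390, 4), (0x547690a1, 4), (0x21647385, 4), (0x438690a2, 4), (0x64758390, 4), (0x438690a2, 4), (0x657483a1, 4), (0x64758390, 4), (0x21647385, 4)],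
    [(0x30516573a3, 5), (0x328197a6, 4), (0x53648097, 4), (0x105297a4, 4), (0x328197a6, 4), (0x53648097, 4)]⟩

def c_3294 : frmChk tB tA F_3294 = true := by decide +kernel

def r_3294_0 : chkL rootF engF2 tB tA sB_345 sA_345 4 F_3294 [(511, 0, 0)]
    0x41b316290d82d = true := by
  decide +kernel

theorem f_3294 (h : TabsF) : FrameF repsF 345 F_3294.f :=
  frame_of rfl c_3294 (runs_of engOK r_3294_0) (by decide +kernel) h.2 h.1

def F_3295 : FrX :=
  ⟨0x600020801080810000c00401804101010010040040408200000240260010400404080320010403000100002030000402840080004100404140080a0040,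
    0xa0, 1, 0x305462758693a6, 7,
    [(0xa0, 1), (0x637584a2, 4), (0x547690a1, 4), (0x64758390, 4), (0x547690a1, 4), (0x21647385, 4), (0x438690a2, 4), (0x64758390, 4), (0x438690a2, 4), (0x657483a1, 4), (0x64758390, 4), (0x21647385, 4)],
    [(0x305462758693a6, 7), (0x526374a9, 4), (0x317580a4, 4), (0x748092a5, 4), (0x317580a4, 4), (0x617294a5, 4), (0x638095a2, 4), (0x748092a5, 4), (0x638095a2, 4), (0x315492a7, 4), (0x748092a5, 4), (0x617294a5, 4)]⟩

def c_3295 : frmChk tB tB F_3295 = true := by decide +kernel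

def r_3295_0 : chkL rootF engF2 tB tB sB_345 sB_345 4 F_3295 [(511, 0, 0)]
    0x106c2e = true := by
  decide +kernel

theorem f_3295 (h : TabsF) : FrameF repsF 345 F_3295.f :=
  frame_of rfl c_3295 (runs_of engOK r_3295_0) (by decide +kernel) h.2 h.2

def F_3296 : FrX :=
  ⟨0x482000044040440000c20400200090001820400010804800012000200084040208020600020209202004004090000c0080090006200202011002800080,
    0xa0, 1, 0x10214162708096a3, 8,
    [(0xa0, 1), (0x538690a2, 4), (0x548790a1, 4), (0x21437690, 4), (0x538690a2, 4), (0x548790a1, 4)],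
    [(0x10214162708096a3, 8), (0x517286a9, 4), (0x30528491, 4), (0x305192a7, 4), (0x30528491, 4), (0x647592a1, 4), (0x308697a2, 4), (0x305192a7, 4), (0x308697a2, 4), (0x218495a7, 4), (0x305192a7, 4), (0x647592a1, 4)]⟩

def c_3296 : frmChk tA tB F_3296 = true := by decide +kernel

def r_3296_0 : chkL rootF engF2 tA tB sA_345 sB_345 4 F_3296 [(511, 0, 0)]
    0x5896258906c1e = true := by
  decide +kernel

theorem f_3296 (h : TabsF) : FrameF repsF 345 F_3296.f :=
  frame_of rfl c_3296 (runs_of engOK r_3296_0) (by decide +kernel) h.1 h.2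

theorem cl_345 (h : TabsF) : ∀ f ∈ fr_345, FrameF repsF 345 f :=
  List.forall_mem_cons.2 ⟨f_3269 h, List.forall_mem_cons.2 ⟨f_3270 h, List.forall_mem_cons.2 ⟨f_3271 h, List.forall_mem_cons.2 ⟨f_3272 h, List.forall_mem_cons.2 ⟨f_3273 h, List.forall_mem_cons.2 ⟨f_3274 h, List.forall_mem_cons.2 ⟨f_3275 h, List.forall_mem_cons.2 ⟨f_3276 h, List.forall_mem_cons.2 ⟨f_3277 h, List.forall_mem_cons.2 ⟨f_3278 h, List.forall_mem_cons.2 ⟨f_3279 h, List.forall_mem_cons.2 ⟨f_3280 h, List.forall_mem_cons.2 ⟨f_3281 h, List.forall_mem_cons.2 ⟨f_3282 h, List.forall_mem_cons.2 ⟨f_3283 h, List.forall_mem_cons.2 ⟨f_3284 h, List.forall_mem_cons.2 ⟨f_3285 h, List.forall_mem_cons.2 ⟨f_3286 h, List.forall_mem_cons.2 ⟨f_3287 h, List.forall_mem_cons.2 ⟨f_3288 h, List.forall_mem_cons.2 ⟨f_3289 h, List.forall_mem_cons.2 ⟨f_3290 h, List.forall_mem_cons.2 ⟨f_3291 h, List.forall_mem_cons.2 ⟨f_3292 h, List.forall_mem_cons.2 ⟨f_3293 h, List.forall_mem_cons.2 ⟨f_3294 h, List.forall_mem_cons.2 ⟨f_3295 h, List.forall_mem_cons.2 ⟨f_3296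 h,
    fun _ h0 => absurd h0 List.not_mem_nil⟩⟩⟩⟩⟩⟩⟩⟩⟩⟩⟩⟩⟩⟩⟩⟩⟩⟩⟩⟩⟩⟩⟩⟩⟩⟩⟩⟩

def F_3297 : FrX :=
  ⟨0x600020801080810000c0040180410101001004004024000400102008280105000008404020010208000400a020202900040200008100810140a0220020,
    0xa0, 1, 0x435361758491a3, 7,
    [(0xa0, 1), (0x637584a2, 4), (0x547690a1, 4), (0x64758390, 4), (0x547690a1, 4), (0x21647385, 4), (0x438690a2, 4), (0x64758390, 4), (0x438690a2, 4), (0x657483a1, 4), (0x64758390, 4), (0x21647385, 4)],
    [(0x435361758491a3, 7), (0x203165a7, 4), (0x43658790, 4), (0x416592a8, 4), (0x203165a7, 4), (0x43658790, 4)]⟩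

def c_3297 : frmChk tB tA F_3297 = true := by decide +kernel

def r_3297_0 : chkL rootF engF2 tB tA sB_346 sA_346 4 F_3297 [(511, 0, 0)]
    0x10ac6903c0f = true := by
  decide +kernel

theorem f_3297 (h : TabsF) : FrameF repsF 346 F_3297.f :=
  frame_of rfl c_3297 (runs_of engOK r_3297_0) (by decide +kernel) h.2 h.1

def F_3298 : FrX :=
  ⟨0x1c4044000008081000000840080410000101084050100008002008004200800420820210001441040884004800108010100080420020044011021200200,
    0x0, 0, 0x21536484, 4,
    [(0x0, 0), (0x20637584, 4), (0x105476a9, 4), (0x647583a9, 4), (0x105476a9, 4), (0x21647385, 4), (0x204386a9, 4), (0x647583a9, 4), (0x204386a9, 4), (0x10657483, 4), (0x647583a9, 4), (0x21647385, 4)],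
    [(0x21536484, 4), (0x105364a9, 4), (0x207683a9, 4), (0x217485a9, 4), (0x105364a9, 4), (0x207683a9, 4)]⟩

def c_3298 : frmChk tB tA F_3298 = true := by decide +kernel

def r_3298_0 : chkL rootF engF2 tB tA sB_346 sA_346 4 F_3298 [(255, 0, 0), (256, 0, 12)]
    0x49a3a04b12c270b41b0d99111f9026827a60b43241d = true := by
  decide +kernel

def r_3298_1 : chkL rootF engF2 tB tA sB_346 sA_346 4 F_3298 [(256, 12, 0)]
    0x45a268e812c4b268e812c4b = true := by
  decide +kernel

theorem f_3298 (h : TabsF) : FrameF repsF 346 F_3298.f :=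
  frame_of rfl c_3298 ((runs_of engOK r_3298_0).append (runs_of engOK r_3298_1)) (by decide +kernel) h.2 h.1

def F_3299 : FrX :=
  ⟨0x600020801080810000c0040180410101001004002200024000400208324000080400080a00010081404940080010202004220100100000428100008108,
    0xa0, 1, 0x2053647090a4, 6,
    [(0xa0, 1), (0x637584a2, 4), (0x547690a1, 4), (0x64758390, 4), (0x547690a1, 4), (0x21647385, 4), (0x438690a2, 4), (0x64758390, 4), (0x438690a2, 4), (0x657483a1, 4), (0x64758390, 4), (0x21647385, 4)],
    [(0x2053647090a4, 6), (0x53768490, 4), (0x768291a3, 4), (0x104276a5, 4), (0x53768490, 4), (0x768291a3, 4)]⟩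

def c_3299 : frmChk tB tA F_3299 = true := by decide +kernel

def r_3299_0 : chkL rootF engF2 tB tA sB_346 sA_346 4 F_3299 [(511, 0, 0)]
    0x1514d21e0535602d14c8e = true := by
  decide +kernel

theorem f_3299 (h : TabsF) : FrameF repsF 346 F_3299.f :=
  frame_of rfl c_3299 (runs_of engOK r_3299_0) (by decide +kernel) h.2 h.1

def F_3300 : FrX :=
  ⟨0x600020801080810000c0040180410101001004000900808000101402020a00004800102200020100202000601008800c40201024004001101400140020,
    0xa0, 1, 0x105160768591a6, 7,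
    [(0xa0, 1), (0x637584a2, 4), (0x547690a1, 4), (0x64758390, 4), (0x547690a1, 4), (0x21647385, 4), (0x438690a2, 4), (0x64758390, 4), (0x438690a2, 4), (0x657483a1, 4), (0x64758390, 4), (0x21647385, 4)],
    [(0x105160768591a6, 7), (0x406281a3, 4), (0x758496a1, 4), (0x307581a4, 4), (0x758496a1, 4), (0x318092a4, 4), (0x436275a0, 4), (0x307581a4, 4), (0x436275a0, 4), (0x304196a8, 4), (0x307581a4, 4), (0x318092a4, 4)]⟩

def c_3300 : frmChk tB tB F_3300 = true := by decide +kernel

def r_3300_0 : chkL rootF engF2 tB tB sB_346 sB_346 4 F_3300 [(511, 0, 0)]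
    0x106c0f = true := by
  decide +kernel

theorem f_3300 (h : TabsF) : FrameF repsF 346 F_3300.f :=
  frame_of rfl c_3300 (runs_of engOK r_3300_0) (by decide +kernel) h.2 h.2

def F_3301 : FrX :=
  ⟨0x1001040012008080000e00840800410008101000040820081001400804180000440040104020402000020810820010200000285090014001014442000004,
    0xa3, 1, 0x21325163718292a6, 8,
    [(0xa3, 1), (0x207584a6, 4), (0x10547693, 4), (0x647593a8, 4), (0x10547693, 4), (0x216485a7, 4), (0x208693a4, 4), (0x647593a8, 4), (0x208693a4, 4), (0x106574a8, 4), (0x647593a8, 4), (0x216485a7, 4)],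
    [(0x21325163718292a6, 8), (0x628190a3, 4), (0x42537081, 4), (0x648197a5, 4), (0x628190a3, 4), (0x42537081, 4)]⟩

def c_3301 : frmChk tB tA F_3301 = true := by decide +kernel

def r_3301_0 : chkL rootF engF2 tB tA sB_346 sA_346 4 F_3301 [(511, 0, 0)]
    0x41e0b427 = true := by
  decide +kernel

theorem f_3301 (h : TabsF) : FrameF repsF 346 F_3301.f :=
  frame_of rfl c_3301 (runs_of engOK r_3301_0) (by decide +kernel) h.2 h.1

def F_3302 : FrX :=
  ⟨0x1001040012008080000e008408004100081010000409000080a00081000a0022420000210101401040884004800000014100080400820800050001202280,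
    0xa3, 1, 0x104150658790a8, 7,
    [(0xa3, 1), (0x207584a6, 4), (0x10547693, 4), (0x647593a8, 4), (0x10547693, 4), (0x216485a7, 4), (0x208693a4, 4), (0x647593a8, 4), (0x208693a4, 4), (0x106574a8, 4), (0x647593a8, 4), (0x216485a7, 4)],
    [(0x104150658790a8, 7), (0x637592a1, 4), (0x607594a8, 4), (0x30427581, 4), (0x637592a1, 4), (0x607594a8, 4)]⟩

def c_3302 : frmChk tB tA F_3302 = true := by decide +kernel

def r_3302_0 : chkL rootF engF2 tB tA sB_346 sA_346 4 F_3302 [(511, 0, 0)]
    0x10743c = true := by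
  decide +kernel

theorem f_3302 (h : TabsF) : FrameF repsF 346 F_3302.f :=
  frame_of rfl c_3302 (runs_of engOK r_3302_0) (by decide +kernel) h.2 h.1

def F_3303 : FrX :=
  ⟨0x1001040012008080000e00840800410008101000060000048040030041040182080000800100110240041400800020610004000101000888100414200104,
    0xa3, 1, 0x213243518497a2, 7,
    [(0xa3, 1), (0x207584a6, 4), (0x10547693, 4), (0x647593a8, 4), (0x10547693, 4), (0x216485a7, 4), (0x208693a4, 4), (0x647593a8, 4), (0x208693a4, 4), (0x106574a8, 4), (0x647593a8, 4), (0x216485a7, 4)],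
    [(0x213243518497a2, 7), (0x648192a0, 4), (0x50738296, 4), (0x41738692, 4), (0x50738296, 4), (0x218694a5, 4), (0x617384a0, 4), (0x41738692, 4), (0x617384a0, 4), (0x41506298, 4), (0x41738692, 4), (0x218694a5, 4)]⟩

def c_3303 : frmChk tB tB F_3303 = true := by decide +kernel

def r_3303_0 : chkL rootF engF2 tB tB sB_346 sB_346 4 F_3303 [(511, 0, 0)]
    0x44d03c2703c0f = true := by
  decide +kernel

theorem f_3303 (h : TabsF) : FrameF repsF 346 F_3303.f :=
  frame_of rfl c_3303 (runs_of engOK r_3303_0) (by decide +kernel) h.2 h.2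

def F_3304 : FrX :=
  ⟨0x482000044040440000c2040020009000182040010020082001000808080104140010210000084101000811c00088008100081210048004080810080008,
    0xa0, 1, 0x1031617396a0, 6,
    [(0xa0, 1), (0x538690a2, 4), (0x548790a1, 4), (0x21437690, 4), (0x538690a2, 4), (0x548790a1, 4)],
    [(0x1031617396a0, 6), (0x317598a2, 4), (0x315480a6, 4), (0x31627490, 4), (0x317598a2, 4), (0x315480a6, 4)]⟩

def c_3304 : frmChk tA tA F_3304 = true := by decide +kernel

def r_3304_0 : chkL rootF engF2 tA tA sA_346 sA_346 4 F_3304 [(511, 0, 0)]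
    0x46c03c0f0e41b0b41703c0f12c1706c1719866 = true := by
  decide +kernel

theorem f_3304 (h : TabsF) : FrameF repsF 346 F_3304.f :=
  frame_of rfl c_3304 (runs_of engOK r_3304_0) (by decide +kernel) h.1 h.1

def F_3305 : FrX :=
  ⟨0x80080a000804040e0000210100200100000204088060000810409000001200830002009004008000105004188041000024008103000060c080003000001,
    0xa6, 1, 0x105462758497a2, 7,
    [(0xa6, 1), (0x205396a8, 4), (0x10548796, 4), (0x214396a7, 4), (0x205396a8, 4), (0x10548796, 4)],
    [(0x105462758497a2, 7), (0x526473a1, 4), (0x10648795, 4), (0x648392a0, 4), (0x526473a1, 4), (0x10648795, 4)]⟩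

def c_3305 : frmChk tA tA F_3305 = true := by decide +kernel

def r_3305_0 : chkL rootF engF2 tA tA sA_346 sA_346 4 F_3305 [(511, 0, 0)]
    0x112c2b0742b = true := by
  decide +kernel

theorem f_3305 (h : TabsF) : FrameF repsF 346 F_3305.f :=
  frame_of rfl c_3305 (runs_of engOK r_3305_0) (by decide +kernel) h.1 h.1

def F_3306 : FrX :=
  ⟨0x482000044040440000c2040020009000182040001100408000900200000c300080c000102800100004008082a220040004004401800622000042800002,
    0xa0, 1, 0x21304163738096a3, 8,
    [(0xa0, 1), (0x538690a2, 4), (0x548790a1, 4), (0x21437690, 4), (0x538690a2, 4), (0x548790a1, 4)],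
    [(0x21304163738096a3, 8), (0x326581a9, 4), (0x52708496, 4), (0x657092a3, 4), (0x52708496, 4), (0x415392a6, 4), (0x708193a2, 4), (0x657092a3, 4), (0x708193a2, 4), (0x628495a3, 4), (0x657092a3, 4), (0x415392a6, 4)]⟩

def c_3306 : frmChk tA tB F_3306 = true := by decide +kernel

def r_3306_0 : chkL rootF engF2 tA tB sA_346 sB_346 4 F_3306 [(511, 0, 0)]
    0x44e3285311c5306c993601e1541b06c1b0d41e3280f0789926499 = true := by
  decide +kernel

theorem f_3306 (h : TabsF) : FrameF repsF 346 F_3306.f :=
  frame_of rfl c_3306 (runs_of engOK r_3306_0) (by decide +kernel) h.1 h.2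

def F_3307 : FrX :=
  ⟨0x80080a000804040e000021010020010000020408820202020084000082400000510120200010100800281001a80001010040460400b0000014100020002,
    0xa6, 1, 0x315364708794a5, 7,
    [(0xa6, 1), (0x205396a8, 4), (0x10548796, 4), (0x214396a7, 4), (0x205396a8, 4), (0x10548796, 4)],
    [(0x315364708794a5, 7), (0x406172a5, 4), (0x617380a9, 4), (0x32618495, 4), (0x406172a5, 4), (0x617380a9, 4)]⟩

def c_3307 : frmChk tA tA F_3307 = true := by decide +kernel

def r_3307_0 : chkL rootF engF2 tA tA sA_346 sA_346 4 F_3307 [(511, 0, 0)]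
    0x109c5c03dc403c8d11c3303cb10785c1701e0e8743c03603c558e06317238 = true := by
  decide +kernel

theorem f_3307 (h : TabsF) : FrameF repsF 346 F_3307.f :=
  frame_of rfl c_3307 (runs_of engOK r_3307_0) (by decide +kernel) h.1 h.1

def F_3308 : FrX :=
  ⟨0x2002000900044004000e020410001410008000408100000b4000804202004080140000104001010480020220022010100080084080800805010202042002,
    0xa3, 1, 0x3243536586a3, 6,
    [(0xa3, 1), (0x208693a5, 4), (0x10548793, 4), (0x217693a4, 4), (0x208693a5, 4), (0x10548793, 4)],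
    [(0x3243536586a3, 6), (0x308495a6, 4), (0x10627495, 4), (0x318795a2, 4), (0x308495a6, 4), (0x10627495, 4)]⟩

def c_3308 : frmChk tA tA F_3308 = true := by decide +kernel

def r_3308_0 : chkL rootF engF2 tA tA sA_346 sA_346 4 F_3308 [(511, 0, 0)]
    0x44703c350ac33 = true := by
  decide +kernel

theorem f_3308 (h : TabsF) : FrameF repsF 346 F_3308.f :=
  frame_of rfl c_3308 (runs_of engOK r_3308_0) (by decide +kernel) h.1 h.1

def F_3309 : FrX :=
  ⟨0x80080a000804040e000021010020010000020408822000011084000080202000848880010820040805084000240014000020100220102002100e0020002,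
    0xa6, 1, 0x4153608598a2, 6,
    [(0xa6, 1), (0x205396a8, 4), (0x10548796, 4), (0x214396a7, 4), (0x205396a8, 4), (0x10548796, 4)],
    [(0x4153608598a2, 6), (0x508791a6, 4), (0x32647081, 4), (0x10328795, 4), (0x32647081, 4), (0x107598a4, 4), (0x325190a6, 4), (0x10328795, 4), (0x325190a6, 4), (0x64718095, 4), (0x10328795, 4), (0x107598a4, 4)]⟩

def c_3309 : frmChk tA tB F_3309 = true := by decide +kernel

def r_3309_0 : chkL rootF engF2 tA tB sA_346 sB_346 4 F_3309 [(511, 0, 0)]
    0x115836c92a8 = true := by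
  decide +kernel

theorem f_3309 (h : TabsF) : FrameF repsF 346 F_3309.f :=
  frame_of rfl c_3309 (runs_of engOK r_3309_0) (by decide +kernel) h.1 h.2

def F_3310 : FrX :=
  ⟨0x482000044040440000c2040020009000182040008010808002102100080101200200060060080020818000181000420300100240050100004200010208,
    0xa0, 1, 0x405260758092a0, 7,
    [(0xa0, 1), (0x538690a2, 4), (0x548790a1, 4), (0x21437690, 4), (0x538690a2, 4), (0x548790a1, 4)],
    [(0x405260758092a0, 7), (0x647385a9, 4), (0x627085a1, 4), (0x30428591, 4), (0x647385a9, 4), (0x627085a1, 4)]⟩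

def c_3310 : frmChk tA tA F_3310 = true := by decide +kernel

def r_3310_0 : chkL rootF engF2 tA tA sA_346 sA_346 4 F_3310 [(511, 0, 0)]
    0x103c0f1681e05c0f = true := by
  decide +kernel

theorem f_3310 (h : TabsF) : FrameF repsF 346 F_3310.f :=
  frame_of rfl c_3310 (runs_of engOK r_3310_0) (by decide +kernel) h.1 h.1

def F_3311 : FrX :=
  ⟨0x482000044040440000c2040020009000182040020001100100040809410101000200400022080220800400084001802048040830100000100900060440,
    0xa0, 1, 0x2041628497a2, 6,
    [(0xa0, 1), (0x538690a2, 4), (0x548790a1, 4), (0x21437690, 4), (0x538690a2, 4), (0x548790a1, 4)],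
    [(0x2041628497a2, 6), (0x308195a2, 4), (0x42768590, 4), (0x31768095, 4), (0x42768590, 4), (0x518093a4, 4), (0x107683a2, 4), (0x31768095, 4), (0x107683a2, 4), (0x31425098, 4), (0x31768095, 4), (0x518093a4, 4)]⟩

def c_3311 : frmChk tA tB F_3311 = true := by decide +kernel

def r_3311_0 : chkL rootF engF2 tA tB sA_346 sB_346 4 F_3311 [(511, 0, 0)]
    0x447 = true := by
  decide +kernel

theorem f_3311 (h : TabsF) : FrameF repsF 346 F_3311.f :=
  frame_of rfl c_3311 (runs_of engOK r_3311_0) (by decide +kernel) h.1 h.2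

def F_3312 : FrX :=
  ⟨0x80080a000804040e0000210100200100000204088101100102001004402400200808102000202000a010000204044408812000280300082002200440200,
    0xa6, 1, 0x103243637398a0, 7,
    [(0xa6, 1), (0x205396a8, 4), (0x10548796, 4), (0x214396a7, 4), (0x205396a8, 4), (0x10548796, 4)],
    [(0x103243637398a0, 7), (0x758194a3, 4), (0x528196a0, 4), (0x30647281, 4), (0x758194a3, 4), (0x528196a0, 4)]⟩

def c_3312 : frmChk tA tA F_3312 = true := by decide +kernel

def r_3312_0 : chkL rootF engF2 tA tA sA_346 sA_346 4 F_3312 [(511, 0, 0)]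
    0x43509c0f = true := by
  decide +kernel

theorem f_3312 (h : TabsF) : FrameF repsF 346 F_3312.f :=
  frame_of rfl c_3312 (runs_of engOK r_3312_0) (by decide +kernel) h.1 h.1

def F_3313 : FrX :=
  ⟨0x2002000900044004000e0204100014100080004080040104201004040105004100000220408200020a00010200004800c900040a40080040001020224200,
    0xa3, 1, 0x21314053648097a3, 8,
    [(0xa3, 1), (0x208693a5, 4), (0x10548793, 4), (0x217693a4, 4), (0x208693a5, 4), (0x10548793, 4)],
    [(0x21314053648097a3, 8), (0x407581a2, 4), (0x62758394, 4), (0x317590a6, 4), (0x407581a2, 4), (0x62758394, 4)]⟩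

def c_3313 : frmChk tA tA F_3313 = true := by decide +kernel

def r_3313_0 : chkL rootF engF2 tA tA sA_346 sA_346 4 F_3313 [(511, 0, 0)]
    0x4170b42b0d40f = true := by
  decide +kernel

theorem f_3313 (h : TabsF) : FrameF repsF 346 F_3313.f :=
  frame_of rfl c_3313 (runs_of engOK r_3313_0) (by decide +kernel) h.1 h.1

def F_3314 : FrX :=
  ⟨0x2002000900044004000e02041000141000800040800800248008400008208400800103000888000812000200400048200801008080a00500088602040080,
    0xa3, 1, 0x10304362758690a3, 8,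
    [(0xa3, 1), (0x208693a5, 4), (0x10548793, 4), (0x217693a4, 4), (0x208693a5, 4), (0x10548793, 4)],
    [(0x10304362758690a3, 8), (0x217596a8, 4), (0x43718590, 4), (0x437581a2, 4), (0x43718590, 4), (0x607281a5, 4), (0x438296a1, 4), (0x437581a2, 4), (0x438296a1, 4), (0x518790a2, 4), (0x437581a2, 4), (0x607281a5, 4)]⟩

def c_3314 : frmChk tA tB F_3314 = true := by decide +kernel

def r_3314_0 : chkL rootF engF2 tA tB sA_346 sB_346 4 F_3314 [(511, 0, 0)]
    0x5465505a361684344d531465500f = true := by
  decide +kernel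

theorem f_3314 (h : TabsF) : FrameF repsF 346 F_3314.f :=
  frame_of rfl c_3314 (runs_of engOK r_3314_0) (by decide +kernel) h.1 h.2

def F_3315 : FrX :=
  ⟨0x80080a000804040e000021010020010000020408811010120200081000040820090000a0002058002030000202002801042040080003002400010a00201,
    0xa6, 1, 0x42517287a1, 5,
    [(0xa6, 1), (0x205396a8, 4), (0x10548796, 4), (0x214396a7, 4), (0x205396a8, 4), (0x10548796, 4)],
    [(0x42517287a1, 5), (0x42637081, 4), (0x218695a0, 4), (0x43628195, 4), (0x218695a0, 4), (0x416283a7, 4), (0x32647095, 4), (0x43628195, 4), (0x32647095, 4), (0x436182a0, 4), (0x43628195, 4), (0x416283a7, 4)]⟩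

def c_3315 : frmChk tA tB F_3315 = true := by decide +kernel

def r_3315_0 : chkL rootF engF2 tA tB sA_346 sB_346 4 F_3315 [(511, 0, 0)]
    0x10741d16439 = true := by
  decide +kernel

theorem f_3315 (h : TabsF) : FrameF repsF 346 F_3315.f :=
  frame_of rfl c_3315 (runs_of engOK r_3315_0) (by decide +kernel) h.1 h.2

def F_3316 : FrX :=
  ⟨0x2002000900044004000e02041000141000800040800800248004400181010040040081020008008a0a0002108004008002042004400800000440a0034020,
    0xa3, 1, 0x10314365708393a1, 8,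
    [(0xa3, 1), (0x208693a5, 4), (0x10548793, 4), (0x217693a4, 4), (0x208693a5, 4), (0x10548793, 4)],
    [(0x10314365708393a1, 8), (0x54728396, 4), (0x416083a7, 4), (0x518390a2, 4), (0x54728396, 4), (0x416083a7, 4)]⟩

def c_3316 : frmChk tA tA F_3316 = true := by decide +kernel

def r_3316_0 : chkL rootF engF2 tA tA sA_346 sA_346 4 F_3316 [(511, 0, 0)]
    0x103c1d = true := by
  decide +kernel

theorem f_3316 (h : TabsF) : FrameF repsF 346 F_3316.f :=
  frame_of rfl c_3316 (runs_of engOK r_3316_0) (by decide +kernel) h.1 h.1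

def F_3317 : FrX :=
  ⟨0x80080a000804040e00002101002001000002040884200000320008008414001041000400c00280022060800500000802004040420003201000140020030,
    0xa6, 1, 0x213250708290a6, 7,
    [(0xa6, 1), (0x205396a8, 4), (0x10548796, 4), (0x214396a7, 4), (0x205396a8, 4), (0x10548796, 4)],
    [(0x213250708290a6, 7), (0x107698a3, 4), (0x40537692, 4), (0x417682a5, 4), (0x107698a3, 4), (0x40537692, 4)]⟩

def c_3317 : frmChk tA tA F_3317 = true := by decide +kernel

def r_3317_0 : chkL rootF engF2 tA tA sA_346 sA_346 4 F_3317 [(511, 0, 0)]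
    0x4366242b2982eb07480ac2b = true := by
  decide +kernel

theorem f_3317 (h : TabsF) : FrameF repsF 346 F_3317.f :=
  frame_of rfl c_3317 (runs_of engOK r_3317_0) (by decide +kernel) h.1 h.1

def F_3318 : FrX :=
  ⟨0x2002000900044004000e02041000141000800040801000228001400101008400040201100a08200822060010400008800000080480841000044210082020,
    0xa3, 1, 0x205063718598a6, 7,
    [(0xa3, 1), (0x208693a5, 4), (0x10548793, 4), (0x217693a4, 4), (0x208693a5, 4), (0x10548793, 4)],
    [(0x205063718598a6, 7), (0x508194a6, 4), (0x327584a1, 4), (0x328196a4, 4), (0x327584a1, 4), (0x617098a4, 4), (0x325064a9, 4), (0x328196a4, 4), (0x325064a9, 4), (0x417596a8, 4), (0x328196a4, 4), (0x617098a4, 4)]⟩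

def c_3318 : frmChk tA tB F_3318 = true := by decide +kernel

def r_3318_0 : chkL rootF engF2 tA tB sA_346 sB_346 4 F_3318 [(511, 0, 0)]
    0x106c1b06c1b06c1d0743c0cc33 = true := by
  decide +kernel

theorem f_3318 (h : TabsF) : FrameF repsF 346 F_3318.f :=
  frame_of rfl c_3318 (runs_of engOK r_3318_0) (by decide +kernel) h.1 h.2

def F_3319 : FrX :=
  ⟨0x1c4044000008081000000840080410000101084050100008002001041000020030a008010004204c08022040202200401800804040a0800022001001040,
    0x0, 0, 0x53657386, 4,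
    [(0x0, 0), (0x20637584, 4), (0x105476a9, 4), (0x647583a9, 4), (0x105476a9, 4), (0x21647385, 4), (0x204386a9, 4), (0x647583a9, 4), (0x204386a9, 4), (0x10657483, 4), (0x647583a9, 4), (0x21647385, 4)],
    [(0x53657386, 4), (0x207683a9, 4), (0x105364a9, 4), (0x217485a9, 4), (0x207683a9, 4), (0x105364a9, 4)]⟩

def c_3319 : frmChk tB tA F_3319 = true := by decide +kernel

def r_3319_0 : chkL rootF engF2 tB tA sB_346 sA_346 4 F_3319 [(255, 0, 0), (256, 0, 13)]
    0x10e81b1550d18d2503c2d0b42d0b469 = true := by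
  decide +kernel

def r_3319_1 : chkL rootF engF2 tB tA sB_346 sA_346 4 F_3319 [(256, 13, 10)]
    0x11c4650785a2381d = true := by
  decide +kernel

def r_3319_2 : chkL rootF engF2 tB tA sB_346 sA_346 4 F_3319 [(256, 23, 0)]
    0x417 = true := by
  decide +kernel

theorem f_3319 (h : TabsF) : FrameF repsF 346 F_3319.f :=
  frame_of rfl c_3319 ((runs_of engOK r_3319_0).append ((runs_of engOK r_3319_1).append (runs_of engOK r_3319_2))) (by decide +kernel) h.2 h.1

def F_3320 : FrX :=
  ⟨0x600020801080810000c004018041010100100402000400440402420028004008001200008a8201204802004000080a2100000000510000008008112090,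
    0xa0, 1, 0x21304253718292a1, 8,
    [(0xa0, 1), (0x637584a2, 4), (0x547690a1, 4), (0x64758390, 4), (0x547690a1, 4), (0x21647385, 4), (0x438690a2, 4), (0x64758390, 4), (0x438690a2, 4), (0x657483a1, 4), (0x64758390, 4), (0x21647385, 4)],
    [(0x21304253718292a1, 8), (0x50648793, 4), (0x104287a3, 4), (0x516287a9, 4), (0x50648793, 4), (0x104287a3, 4)]⟩

def c_3320 : frmChk tB tA F_3320 = true := by decide +kernel

def r_3320_0 : chkL rootF engF2 tB tA sB_346 sA_346 4 F_3320 [(511, 0, 0)]
    0x10f08d = true := by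
  decide +kernel

theorem f_3320 (h : TabsF) : FrameF repsF 346 F_3320.f :=
  frame_of rfl c_3320 (runs_of engOK r_3320_0) (by decide +kernel) h.2 h.1

def F_3321 : FrX :=
  ⟨0x1001040012008080000e00840800410008101000040808048008400021080080084100802100100240010008011001400204008202100028082018804004,
    0xa3, 1, 0x5261738094a3, 6,
    [(0xa3, 1), (0x207584a6, 4), (0x10547693, 4), (0x647593a8, 4), (0x10547693, 4), (0x216485a7, 4), (0x208693a4, 4), (0x647593a8, 4), (0x208693a4, 4), (0x106574a8, 4), (0x647593a8, 4), (0x216485a7, 4)],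
    [(0x5261738094a3, 6), (0x328590a1, 4), (0x31748692, 4), (0x327491a0, 4), (0x31748692, 4), (0x206591a3, 4), (0x107485a9, 4), (0x327491a0, 4), (0x107485a9, 4), (0x218693a0, 4), (0x327491a0, 4), (0x206591a3, 4)]⟩

def c_3321 : frmChk tB tB F_3321 = true := by decide +kernel

def r_3321_0 : chkL rootF engF2 tB tB sB_346 sB_346 4 F_3321 [(511, 0, 0)]
    0x1 = true := by
  decide +kernel

theorem f_3321 (h : TabsF) : FrameF repsF 346 F_3321.f :=
  frame_of rfl c_3321 (runs_of engOK r_3321_0) (by decide +kernel) h.2 h.2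

def F_3322 : FrX :=
  ⟨0x482000044040440000c204002000900018204000202050000088020001401002060004102400200080840018901040010800010a000aa0002104000004,
    0xa0, 1, 0x104053627690a3, 7,
    [(0xa0, 1), (0x538690a2, 4), (0x548790a1, 4), (0x21437690, 4), (0x538690a2, 4), (0x548790a1, 4)],
    [(0x104053627690a3, 7), (0x548796a3, 4), (0x31548290, 4), (0x546072a1, 4), (0x548796a3, 4), (0x31548290, 4)]⟩

def c_3322 : frmChk tA tA F_3322 = true := by decide +kernel

def r_3322_0 : chkL rootF engF2 tA tA sA_346 sA_346 4 F_3322 [(511, 0, 0)]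
    0x499661070d433 = true := by
  decide +kernel

theorem f_3322 (h : TabsF) : FrameF repsF 346 F_3322.f :=
  frame_of rfl c_3322 (runs_of engOK r_3322_0) (by decide +kernel) h.1 h.1

def F_3323 : FrX :=
  ⟨0x80080a000804040e000021010020010000020408806000044100808000c0082020020404400010014040800a120010082020110010088050000c0008010,
    0xa6, 1, 0x103041728295a8, 7,
    [(0xa6, 1), (0x205396a8, 4), (0x10548796, 4), (0x214396a7, 4), (0x205396a8, 4), (0x10548796, 4)],
    [(0x103041728295a8, 7), (0x618392a0, 4), (0x43627590, 4), (0x607592a1, 4), (0x43627590, 4), (0x216084a9, 4), (0x107583a6, 4), (0x607592a1, 4), (0x107583a6, 4), (0x204396a1, 4), (0x607592a1, 4), (0x216084a9, 4)]⟩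

def c_3323 : frmChk tA tB F_3323 = true := by decide +kernel

def r_3323_0 : chkL rootF engF2 tA tB sA_346 sB_346 4 F_3323 [(511, 0, 0)]
    0x10e42e05c2b = true := by
  decide +kernel

theorem f_3323 (h : TabsF) : FrameF repsF 346 F_3323.f :=
  frame_of rfl c_3323 (runs_of engOK r_3323_0) (by decide +kernel) h.1 h.2

def F_3324 : FrX :=
  ⟨0x80080a000804040e0000210100200100000204088202020201002040020400402050006000200808002810002830000a100102024009101800002800800,
    0xa6, 1, 0x3261758190a8, 6,
    [(0xa6, 1), (0x205396a8, 4), (0x10548796, 4), (0x214396a7, 4), (0x205396a8, 4), (0x10548796, 4)],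
    [(0x3261758190a8, 6), (0x217593a4, 4), (0x51607498, 4), (0x416075a2, 4), (0x51607498, 4), (0x415283a7, 4), (0x426093a1, 4), (0x416075a2, 4), (0x426093a1, 4), (0x547198a2, 4), (0x416075a2, 4), (0x415283a7, 4)]⟩

def c_3324 : frmChk tA tB F_3324 = true := by decide +kernel

def r_3324_0 : chkL rootF engF2 tA tB sA_346 sB_346 4 F_3324 [(511, 0, 0)]
    0x4950781e = true := by
  decide +kernel

theorem f_3324 (h : TabsF) : FrameF repsF 346 F_3324.f :=
  frame_of rfl c_3324 (runs_of engOK r_3324_0) (by decide +kernel) h.1 h.2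

theorem cl_346 (h : TabsF) : ∀ f ∈ fr_346, FrameF repsF 346 f :=
  List.forall_mem_cons.2 ⟨f_3297 h, List.forall_mem_cons.2 ⟨f_3298 h, List.forall_mem_cons.2 ⟨f_3299 h, List.forall_mem_cons.2 ⟨f_3300 h, List.forall_mem_cons.2 ⟨f_3301 h, List.forall_mem_cons.2 ⟨f_3302 h, List.forall_mem_cons.2 ⟨f_3303 h, List.forall_mem_cons.2 ⟨f_3304 h, List.forall_mem_cons.2 ⟨f_3305 h, List.forall_mem_cons.2 ⟨f_3306 h, List.forall_mem_cons.2 ⟨f_3307 h, List.forall_mem_cons.2 ⟨f_3308 h, List.forall_mem_cons.2 ⟨f_3309 h, List.forall_mem_cons.2 ⟨f_3310 h, List.forall_mem_cons.2 ⟨f_3311 h, List.forall_mem_cons.2 ⟨f_3312 h, List.forall_mem_cons.2 ⟨f_3313 h, List.forall_mem_cons.2 ⟨f_3314 h, List.forall_mem_cons.2 ⟨f_3315 h, List.forall_mem_cons.2 ⟨f_3316 h, List.forall_mem_cons.2 ⟨f_3317 h, List.forall_mem_cons.2 ⟨f_3318 h, List.forall_mem_cons.2 ⟨f_3319 h, List.forall_mem_cons.2 ⟨f_3320 h, List.forall_mem_cons.2 ⟨f_3321 h, List.forall_mem_cons.2 ⟨f_3322 h, List.forall_mem_cons.2 ⟨f_3323 h, List.forall_mem_cons.2 ⟨f_3324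 h,
    fun _ h0 => absurd h0 List.not_mem_nil⟩⟩⟩⟩⟩⟩⟩⟩⟩⟩⟩⟩⟩⟩⟩⟩⟩⟩⟩⟩⟩⟩⟩⟩⟩⟩⟩⟩

/-- the classes finished in this module -/
theorem all_L21 (h : TabsF) : ∀ p ∈ ([(333, fr_333), (334, fr_334), (335, fr_335), (336, fr_336), (337, fr_337), (338, fr_338), (339, fr_339), (340, fr_340), (341, fr_341), (342, fr_342), (343, fr_343), (344, fr_344), (345, fr_345), (346, fr_346)] : List (ℕ × List ℕ)),
    ∀ f ∈ p.2, FrameF repsF p.1 f :=
  List.forall_mem_cons.2 ⟨cl_333 h, List.forall_mem_cons.2 ⟨cl_334 h, List.forall_mem_cons.2 ⟨cl_335 h, List.forall_mem_cons.2 ⟨cl_336 h, List.forall_mem_cons.2 ⟨cl_337 h, List.forall_mem_cons.2 ⟨cl_338 h, List.forall_mem_cons.2 ⟨cl_339 h, List.forall_mem_cons.2 ⟨cl_340 h, List.forall_mem_cons.2 ⟨cl_341 h, List.forall_mem_cons.2 ⟨cl_342 h, List.forall_mem_cons.2 ⟨cl_343 h, List.forall_mem_cons.2 ⟨cl_344 h, List.forall_mem_cons.2 ⟨cl_345 h, List.forall_mem_cons.2 ⟨cl_346 h, fun _ h0 => absurd h0 List.not_mem_nil⟩⟩⟩⟩⟩⟩⟩⟩⟩⟩⟩⟩⟩⟩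

end Pool.Agent.Gen.TY.F
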