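import Pool.Agent.Helper20.TY.EngF
import Pool.Agent.Helper20.TY.TabG
import Pool.Agent.Gen.TY.FS.SufA
import Pool.Agent.Gen.TY.FS.SufB
import Pool.Agent.Gen.TY.FR.Dat

/-!
MP_8ee768_co, project TH-Y', stage F: frames.
-/

set_option autoImplicit false

namespace Pool.Agent.Gen.TY.F

open Pool.Agent.Helper79.CV
open Pool.Agent.Helper20.TY
open Pool.Agent.Helper20.TY.EngF
open Pool.Agent.Gen.TY.FS
open Pool.Agent.Gen.TY.FR

def F_3325 : FrX :=
  ⟨0x2002000900044004000e020410001410008000408100000218010041020040401400810100000308020202a202001000108008808080020e000202000005,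
    0xa3, 1, 0x314262748190a6, 7,
    [(0xa3, 1), (0x208693a5, 4), (0x10548793, 4), (0x217693a4, 4), (0x208693a5, 4), (0x10548793, 4)],
    [(0x314262748190a6, 7), (0x527396a1, 4), (0x407598a2, 4), (0x314052a7, 4), (0x407598a2, 4), (0x215386a7, 4), (0x407196a3, 4), (0x314052a7, 4), (0x407196a3, 4), (0x317298a5, 4), (0x314052a7, 4), (0x215386a7, 4)]⟩

def c_3325 : frmChk tA tB F_3325 = true := by decide +kernel

def r_3325_0 : chkL rootF engF2 tA tB sA_347 sB_347 4 F_3325 [(511, 0, 0)]
    0x10b82b28c278a42714d540ac17 = true := by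
  decide +kernel

theorem f_3325 (h : TabsF) : FrameF repsF 347 F_3325.f :=
  frame_of rfl c_3325 (runs_of engOK r_3325_0) (by decide +kernel) h.1 h.2

def F_3326 : FrX :=
  ⟨0x80080a000804040e00002101002001000002040882200a0200840000804008004101201002001000203008012200100200404a0200d0008002010088010,
    0xa6, 1, 0x104050637085a3, 7,
    [(0xa6, 1), (0x205396a8, 4), (0x10548796, 4), (0x214396a7, 4), (0x205396a8, 4), (0x10548796, 4)],
    [(0x104050637085a3, 7), (0x437296a8, 4), (0x54708196, 4), (0x205396a1, 4), (0x437296a8, 4), (0x54708196, 4)]⟩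

def c_3326 : frmChk tA tA F_3326 = true := by decide +kernel

def r_3326_0 : chkL rootF engF2 tA tA sA_347 sA_347 4 F_3326 [(511, 0, 0)]
    0x11c40f06c1b = true := by
  decide +kernel

theorem f_3326 (h : TabsF) : FrameF repsF 347 F_3326.f :=
  frame_of rfl c_3326 (runs_of engOK r_3326_0) (by decide +kernel) h.1 h.1

def F_3327 : FrX :=
  ⟨0x80080a000804040e0000210100200100000204088060006800440040008008004808041002004830200820040015000020010a020001002440202400010,
    0xa6, 1, 0x2140507584a0, 6,
    [(0xa6, 1), (0x205396a8, 4), (0x10548796, 4), (0x214396a7, 4), (0x205396a8, 4), (0x10548796, 4)],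
    [(0x2140507584a0, 6), (0x607395a1, 4), (0x408795a2, 4), (0x21648395, 4), (0x607395a1, 4), (0x408795a2, 4)]⟩

def c_3327 : frmChk tA tA F_3327 = true := by decide +kernel

def r_3327_0 : chkL rootF engF2 tA tA sA_347 sA_347 4 F_3327 [(511, 0, 0)]
    0x106c1b06c1b06c3a0e89a0e94c15817 = true := by
  decide +kernel

theorem f_3327 (h : TabsF) : FrameF repsF 347 F_3327.f :=
  frame_of rfl c_3327 (runs_of engOK r_3327_0) (by decide +kernel) h.1 h.1

def F_3328 : FrX :=
  ⟨0x80080a000804040e00002101002001000002040882080800050080100800082009084020002008608008201002200040300602010002022002005008200,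
    0xa6, 1, 0x2132528291a6, 6,
    [(0xa6, 1), (0x205396a8, 4), (0x10548796, 4), (0x214396a7, 4), (0x205396a8, 4), (0x10548796, 4)],
    [(0x2132528291a6, 6), (0x316280a5, 4), (0x43627590, 4), (0x416298a7, 4), (0x316280a5, 4), (0x43627590, 4)]⟩

def c_3328 : frmChk tA tA F_3328 = true := by decide +kernel

def r_3328_0 : chkL rootF engF2 tA tA sA_347 sA_347 4 F_3328 [(511, 0, 0)]
    0x44b70741155587205a561c852932561c84ab485294c5615241f03c185a0790741d46 = true := by
  decide +kernel

theorem f_3328 (h : TabsF) : FrameF repsF 347 F_3328.f :=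
  frame_of rfl c_3328 (runs_of engOK r_3328_0) (by decide +kernel) h.1 h.1

def F_3329 : FrX :=
  ⟨0x2002000900044004000e020410001410008000408008020800a0004100010c010400030100200288023060004040400402840080022002004000000a4040,
    0xa3, 1, 0x30425265728196a3, 8,
    [(0xa3, 1), (0x208693a5, 4), (0x10548793, 4), (0x217693a4, 4), (0x208693a5, 4), (0x10548793, 4)],
    [(0x30425265728196a3, 8), (0x407391a6, 4), (0x40516283, 4), (0x408795a2, 4), (0x407391a6, 4), (0x40516283, 4)]⟩

def c_3329 : frmChk tA tA F_3329 = true := by decide +kernel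

def r_3329_0 : chkL rootF engF2 tA tA sA_347 sA_347 4 F_3329 [(511, 0, 0)]
    0x4962384b88c69 = true := by
  decide +kernel

theorem f_3329 (h : TabsF) : FrameF repsF 347 F_3329.f :=
  frame_of rfl c_3329 (runs_of engOK r_3329_0) (by decide +kernel) h.1 h.1

def F_3330 : FrX :=
  ⟨0x2002000900044004000e02041000141000800040810000081108004060810041200008004002009008600085004020000201820010000220040220020281,
    0xa3, 1, 0x32638696a2, 5,
    [(0xa3, 1), (0x208693a5, 4), (0x10548793, 4), (0x217693a4, 4), (0x208693a5, 4), (0x10548793, 4)],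
    [(0x32638696a2, 5), (0x427596a0, 4), (0x10548397, 4), (0x62758394, 4), (0x10548397, 4), (0x527694a1, 4), (0x648392a0, 4), (0x62758394, 4), (0x648392a0, 4), (0x10627495, 4), (0x62758394, 4), (0x527694a1, 4)]⟩

def c_3330 : frmChk tA tB F_3330 = true := by decide +kernel

def r_3330_0 : chkL rootF engF2 tA tB sA_347 sB_347 4 F_3330 [(511, 0, 0)]
    0x105c3605c3505c178720ec301b = true := by
  decide +kernel

theorem f_3330 (h : TabsF) : FrameF repsF 347 F_3330.f :=
  frame_of rfl c_3330 (runs_of engOK r_3330_0) (by decide +kernel) h.1 h.2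

def F_3331 : FrX :=
  ⟨0x482000044040440000c204002000900018204000401102010408000408004120020200102840102002000c404120008008008202000602100220000042,
    0xa0, 1, 0x4350617187a6, 6,
    [(0xa0, 1), (0x538690a2, 4), (0x548790a1, 4), (0x21437690, 4), (0x538690a2, 4), (0x548790a1, 4)],
    [(0x4350617187a6, 6), (0x405291a6, 4), (0x30758691, 4), (0x437291a8, 4), (0x405291a6, 4), (0x30758691, 4)]⟩

def c_3331 : frmChk tA tA F_3331 = true := by decide +kernel

def r_3331_0 : chkL rootF engF2 tA tA sA_347 sA_347 4 F_3331 [(511, 0, 0)]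
    0x42d03c1d07487254470e8353502e = true := by
  decide +kernel

theorem f_3331 (h : TabsF) : FrameF repsF 347 F_3331.f :=
  frame_of rfl c_3331 (runs_of engOK r_3331_0) (by decide +kernel) h.1 h.1

def F_3332 : FrX :=
  ⟨0x482000044040440000c2040020009000182040000421012001080800080102100200050020085000020011102008008100001210080082100810900201,
    0xa0, 1, 0x4151637582a0, 6,
    [(0xa0, 1), (0x538690a2, 4), (0x548790a1, 4), (0x21437690, 4), (0x538690a2, 4), (0x548790a1, 4)],
    [(0x4151637582a0, 6), (0x216374a8, 4), (0x437190a5, 4), (0x31627490, 4), (0x437190a5, 4), (0x31647285, 4), (0x326190a8, 4), (0x31627490, 4), (0x326190a8, 4), (0x416273a5, 4), (0x31627490, 4), (0x31647285, 4)]⟩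

def c_3332 : frmChk tA tB F_3332 = true := by decide +kernel

def r_3332_0 : chkL rootF engF2 tA tB sA_347 sB_347 4 F_3332 [(511, 0, 0)]
    0x14541750d13 = true := by
  decide +kernel

theorem f_3332 (h : TabsF) : FrameF repsF 347 F_3332.f :=
  frame_of rfl c_3332 (runs_of engOK r_3332_0) (by decide +kernel) h.1 h.2

def F_3333 : FrX :=
  ⟨0x600020801080810000c0040180410101001004002200024000400404009400049002000880200020210300089010840800201200100080010009004201,
    0xa0, 1, 0x2152648091a6, 6,
    [(0xa0, 1), (0x637584a2, 4), (0x547690a1, 4), (0x64758390, 4), (0x547690a1, 4), (0x21647385, 4), (0x438690a2, 4), (0x64758390, 4), (0x438690a2, 4), (0x657483a1, 4), (0x64758390, 4), (0x21647385, 4)],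
    [(0x2152648091a6, 6), (0x314285a0, 4), (0x42617098, 4), (0x426395a7, 4), (0x314285a0, 4), (0x42617098, 4)]⟩

def c_3333 : frmChk tB tA F_3333 = true := by decide +kernel

def r_3333_0 : chkL rootF engF2 tB tA sB_347 sA_347 4 F_3333 [(511, 0, 0)]
    0x10b41d = true := by
  decide +kernel

theorem f_3333 (h : TabsF) : FrameF repsF 347 F_3333.f :=
  frame_of rfl c_3333 (runs_of engOK r_3333_0) (by decide +kernel) h.2 h.1

def F_3334 : FrX :=
  ⟨0x1001040012008080000e00840800410008101000044020080041400022000810048048004020010208004800800804800004801204010104021002861000,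
    0xa3, 1, 0x304160708295a7, 7,
    [(0xa3, 1), (0x207584a6, 4), (0x10547693, 4), (0x647593a8, 4), (0x10547693, 4), (0x216485a7, 4), (0x208693a4, 4), (0x647593a8, 4), (0x208693a4, 4), (0x106574a8, 4), (0x647593a8, 4), (0x216485a7, 4)],
    [(0x304160708295a7, 7), (0x32658790, 4), (0x657491a2, 4), (0x106584a3, 4), (0x32658790, 4), (0x657491a2, 4)]⟩

def c_3334 : frmChk tB tA F_3334 = true := by decide +kernel

def r_3334_0 : chkL rootF engF2 tB tA sB_347 sA_347 4 F_3334 [(511, 0, 0)]
    0x41d4c80f11c47 = true := by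
  decide +kernel

theorem f_3334 (h : TabsF) : FrameF repsF 347 F_3334.f :=
  frame_of rfl c_3334 (runs_of engOK r_3334_0) (by decide +kernel) h.2 h.1

def F_3335 : FrX :=
  ⟨0x600020801080810000c0040180410101001004000a0010080008180000a20202002040402040000808420010202001058000040081008c0000001448a0,
    0xa0, 1, 0x203263728196a5, 7,
    [(0xa0, 1), (0x637584a2, 4), (0x547690a1, 4), (0x64758390, 4), (0x547690a1, 4), (0x21647385, 4), (0x438690a2, 4), (0x64758390, 4), (0x438690a2, 4), (0x657483a1, 4), (0x64758390, 4), (0x21647385, 4)],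
    [(0x203263728196a5, 7), (0x507291a6, 4), (0x315082a4, 4), (0x50648793, 4), (0x507291a6, 4), (0x315082a4, 4)]⟩

def c_3335 : frmChk tB tA F_3335 = true := by decide +kernel

def r_3335_0 : chkL rootF engF2 tB tA sB_347 sA_347 4 F_3335 [(511, 0, 0)]
    0x45303c4711c1d = true := by
  decide +kernel

theorem f_3335 (h : TabsF) : FrameF repsF 347 F_3335.f :=
  frame_of rfl c_3335 (runs_of engOK r_3335_0) (by decide +kernel) h.2 h.1

def F_3336 : FrX :=
  ⟨0x1c404400000808100000084008041000010108406000208000010400420a00000880220008022012021020001981084081000100810000000a009014400,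
    0x0, 0, 0x43546483, 4,
    [(0x0, 0), (0x20637584, 4), (0x105476a9, 4), (0x647583a9, 4), (0x105476a9, 4), (0x21647385, 4), (0x204386a9, 4), (0x647583a9, 4), (0x204386a9, 4), (0x10657483, 4), (0x647583a9, 4), (0x21647385, 4)],
    [(0x43546483, 4), (0x205483a9, 4), (0x106374a9, 4), (0x217586a9, 4), (0x205483a9, 4), (0x106374a9, 4)]⟩

def c_3336 : frmChk tB tA F_3336 = true := by decide +kernel

def r_3336_0 : chkL rootF engF2 tB tA sB_347 sA_347 4 F_3336 [(255, 0, 0), (256, 0, 8)]
    0x121e4c896342381e1d09503c6583a861b07407895946d04720da301d09c4d = true := by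
  decide +kernel

def r_3336_1 : chkL rootF engF2 tB tA sB_347 sA_347 4 F_3336 [(256, 8, 0)]
    0x10741d8341e2546a1642b0741d0741d = true := by
  decide +kernel

theorem f_3336 (h : TabsF) : FrameF repsF 347 F_3336.f :=
  frame_of rfl c_3336 ((runs_of engOK r_3336_0).append (runs_of engOK r_3336_1)) (by decide +kernel) h.2 h.1

def F_3337 : FrX :=
  ⟨0x1001040012008080000e00840800410008101000040820081008400022000030048048004200008208004c14800002200000845010004440014002000084,
    0xa3, 1, 0x4253708196a3, 6,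
    [(0xa3, 1), (0x207584a6, 4), (0x10547693, 4), (0x647593a8, 4), (0x10547693, 4), (0x216485a7, 4), (0x208693a4, 4), (0x647593a8, 4), (0x208693a4, 4), (0x106574a8, 4), (0x647593a8, 4), (0x216485a7, 4)],
    [(0x4253708196a3, 6), (0x213074a9, 4), (0x32658790, 4), (0x306592a1, 4), (0x32658790, 4), (0x318492a0, 4), (0x657491a2, 4), (0x306592a1, 4), (0x657491a2, 4), (0x208793a1, 4), (0x306592a1, 4), (0x318492a0, 4)]⟩

def c_3337 : frmChk tB tB F_3337 = true := by decide +kernel

def r_3337_0 : chkL rootF engF2 tB tB sB_347 sB_347 4 F_3337 [(511, 0, 0)]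
    0x433 = true := by
  decide +kernel

theorem f_3337 (h : TabsF) : FrameF repsF 347 F_3337.f :=
  frame_of rfl c_3337 (runs_of engOK r_3337_0) (by decide +kernel) h.2 h.2

def F_3338 : FrX :=
  ⟨0x1001040012008080000e00840800410008101000042100001101110021000044004108002020200800022402020002802100100c0a820004060000820200,
    0xa3, 1, 0x203051618390a3, 7,
    [(0xa3, 1), (0x207584a6, 4), (0x10547693, 4), (0x647593a8, 4), (0x10547693, 4), (0x216485a7, 4), (0x208693a4, 4), (0x647593a8, 4), (0x208693a4, 4), (0x106574a8, 4), (0x647593a8, 4), (0x216485a7, 4)],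
    [(0x203051618390a3, 7), (0x528390a1, 4), (0x41728396, 4), (0x607583a4, 4), (0x528390a1, 4), (0x41728396, 4)]⟩

def c_3338 : frmChk tB tA F_3338 = true := by decide +kernel

def r_3338_0 : chkL rootF engF2 tB tA sB_347 sA_347 4 F_3338 [(511, 0, 0)]
    0x43a06c1b2340f = true := by
  decide +kernel

theorem f_3338 (h : TabsF) : FrameF repsF 347 F_3338.f :=
  frame_of rfl c_3338 (runs_of engOK r_3338_0) (by decide +kernel) h.2 h.1

def F_3339 : FrX :=
  ⟨0x1001040012008080000e00840800410008101000040410084008400040120000810800504080202000040804440010800800202108000801108105002014,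
    0xa3, 1, 0x52748798a1, 5,
    [(0xa3, 1), (0x207584a6, 4), (0x10547693, 4), (0x647593a8, 4), (0x10547693, 4), (0x216485a7, 4), (0x208693a4, 4), (0x647593a8, 4), (0x208693a4, 4), (0x106574a8, 4), (0x647593a8, 4), (0x216485a7, 4)],
    [(0x52748798a1, 5), (0x50638297, 4), (0x417286a0, 4), (0x41768293, 4), (0x417286a0, 4), (0x768392a5, 4), (0x41507396, 4), (0x41768293, 4), (0x41507396, 4), (0x628793a0, 4), (0x41768293, 4), (0x768392a5, 4)]⟩

def c_3339 : frmChk tB tB F_3339 = true := by decide +kernel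

def r_3339_0 : chkL rootF engF2 tB tB sB_347 sB_347 4 F_3339 [(511, 0, 0)]
    0x10ac8d3185334817 = true := by
  decide +kernel

theorem f_3339 (h : TabsF) : FrameF repsF 347 F_3339.f :=
  frame_of rfl c_3339 (runs_of engOK r_3339_0) (by decide +kernel) h.2 h.2

def F_3340 : FrX :=
  ⟨0x482000044040440000c2040020009000182040001101002001020800000950010210000848001000080009012188800024000206080082100010800202,
    0xa0, 1, 0x213042538497a5, 7,
    [(0xa0, 1), (0x538690a2, 4), (0x548790a1, 4), (0x21437690, 4), (0x538690a2, 4), (0x548790a1, 4)],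
    [(0x213042538497a5, 7), (0x436170a5, 4), (0x327091a8, 4), (0x42708596, 4), (0x436170a5, 4), (0x327091a8, 4)]⟩

def c_3340 : frmChk tA tA F_3340 = true := by decide +kernel

def r_3340_0 : chkL rootF engF2 tA tA sA_347 sA_347 4 F_3340 [(511, 0, 0)]
    0x106d613500f = true := by
  decide +kernel

theorem f_3340 (h : TabsF) : FrameF repsF 347 F_3340.f :=
  frame_of rfl c_3340 (runs_of engOK r_3340_0) (by decide +kernel) h.1 h.1

def F_3341 : FrX :=
  ⟨0x2002000900044004000e0204100014100080004080100202020140010012400004008111010000410220001202601000100008a082041008000a10080040,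
    0xa3, 1, 0x205163738492a6, 7,
    [(0xa3, 1), (0x208693a5, 4), (0x10548793, 4), (0x217693a4, 4), (0x208693a5, 4), (0x10548793, 4)],
    [(0x205163738492a6, 7), (0x307192a4, 4), (0x30526481, 4), (0x308795a6, 4), (0x307192a4, 4), (0x30526481, 4)]⟩

def c_3341 : frmChk tA tA F_3341 = true := by decide +kernel

def r_3341_0 : chkL rootF engF2 tA tA sA_347 sA_347 4 F_3341 [(511, 0, 0)]
    0x4390b82706c1b6318550c0f09c1b = true := by
  decide +kernel

theorem f_3341 (h : TabsF) : FrameF repsF 347 F_3341.f :=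
  frame_of rfl c_3341 (runs_of engOK r_3341_0) (by decide +kernel) h.1 h.1

def F_3342 : FrX :=
  ⟨0x80080a000804040e0000210100200100000204089000800810800800841010104100041000008420201032012000100204410802001000c000812020010,
    0xa6, 1, 0x324353718691a0, 7,
    [(0xa6, 1), (0x205396a8, 4), (0x10548796, 4), (0x214396a7, 4), (0x205396a8, 4), (0x10548796, 4)],
    [(0x324353718691a0, 7), (0x547086a3, 4), (0x426170a9, 4), (0x52708193, 4), (0x547086a3, 4), (0x426170a9, 4)]⟩

def c_3342 : frmChk tA tA F_3342 = true := by decide +kernel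

def r_3342_0 : chkL rootF engF2 tA tA sA_347 sA_347 4 F_3342 [(511, 0, 0)]
    0x10cc0f06c0f8d00f = true := by
  decide +kernel

theorem f_3342 (h : TabsF) : FrameF repsF 347 F_3342.f :=
  frame_of rfl c_3342 (runs_of engOK r_3342_0) (by decide +kernel) h.1 h.1

def F_3343 : FrX :=
  ⟨0x80080a000804040e00002101002001000002040890020001248008008810001011004000802080280004e00220204202100040030002001100820020200,
    0xa6, 1, 0x1020314065a3, 6,
    [(0xa6, 1), (0x205396a8, 4), (0x10548796, 4), (0x214396a7, 4), (0x205396a8, 4), (0x10548796, 4)],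
    [(0x1020314065a3, 6), (0x417682a5, 4), (0x43627590, 4), (0x527690a8, 4), (0x43627590, 4), (0x315286a7, 4), (0x418590a2, 4), (0x527690a8, 4), (0x418590a2, 4), (0x436572a8, 4), (0x527690a8, 4), (0x315286a7, 4)]⟩

def c_3343 : frmChk tA tB F_3343 = true := by decide +kernel

def r_3343_0 : chkL rootF engF2 tA tB sA_347 sB_347 4 F_3343 [(511, 0, 0)]
    0x48d2341d = true := by
  decide +kernel

theorem f_3343 (h : TabsF) : FrameF repsF 347 F_3343.f :=
  frame_of rfl c_3343 (runs_of engOK r_3343_0) (by decide +kernel) h.1 h.2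

def F_3344 : FrX :=
  ⟨0x2002000900044004000e0204100014100080004080100024810140010080a00020010010090200048020010422c0102040000a0010840000040a10040200,
    0xa3, 1, 0x204050647582a6, 7,
    [(0xa3, 1), (0x208693a5, 4), (0x10548793, 4), (0x217693a4, 4), (0x208693a5, 4), (0x10548793, 4)],
    [(0x204050647582a6, 7), (0x738592a0, 4), (0x40517692, 4), (0x638192a4, 4), (0x738592a0, 4), (0x40517692, 4)]⟩

def c_3344 : frmChk tA tA F_3344 = true := by decide +kernel

def r_3344_0 : chkL rootF engF2 tA tA sA_347 sA_347 4 F_3344 [(511, 0, 0)]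
    0x4650d86c0743c = true := by
  decide +kernel

theorem f_3344 (h : TabsF) : FrameF repsF 347 F_3344.f :=
  frame_of rfl c_3344 (runs_of engOK r_3344_0) (by decide +kernel) h.1 h.1

def F_3345 : FrX :=
  ⟨0x482000044040440000c20400200090001820400004108180042000100208080048001021020001800002000a0a2002020008604001020200220201000a,
    0xa0, 1, 0x213243516282a0, 7,
    [(0xa0, 1), (0x538690a2, 4), (0x548790a1, 4), (0x21437690, 4), (0x538690a2, 4), (0x548790a1, 4)],
    [(0x213243516282a0, 7), (0x436172a8, 4), (0x217390a5, 4), (0x31647290, 4), (0x217390a5, 4), (0x31627485, 4), (0x416390a8, 4), (0x31647290, 4), (0x416390a8, 4), (0x326471a5, 4), (0x31647290, 4), (0x31627485, 4)]⟩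

def c_3345 : frmChk tA tB F_3345 = true := by decide +kernel

def r_3345_0 : chkL rootF engF2 tA tB sA_347 sB_347 4 F_3345 [(511, 0, 0)]
    0x41e13a0d1564503c1d09c0f0740f0741e1541e = true := by
  decide +kernel

theorem f_3345 (h : TabsF) : FrameF repsF 347 F_3345.f :=
  frame_of rfl c_3345 (runs_of engOK r_3345_0) (by decide +kernel) h.1 h.2

def F_3346 : FrX :=
  ⟨0x2002000900044004000e0204100014100080004080040048400420208200088002002400110400040c000100800050401100080086000822003042201000,
    0xa3, 1, 0x5164718093a0, 6,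
    [(0xa3, 1), (0x208693a5, 4), (0x10548793, 4), (0x217693a4, 4), (0x208693a5, 4), (0x10548793, 4)],
    [(0x5164718093a0, 6), (0x408391a2, 4), (0x506183a7, 4), (0x54728396, 4), (0x408391a2, 4), (0x506183a7, 4)]⟩

def c_3346 : frmChk tA tA F_3346 = true := by decide +kernel

def r_3346_0 : chkL rootF engF2 tA tA sA_347 sA_347 4 F_3346 [(511, 0, 0)]
    0x49c270cc170350d8c5331c406c47 = true := by
  decide +kernel

theorem f_3346 (h : TabsF) : FrameF repsF 347 F_3346.f :=
  frame_of rfl c_3346 (runs_of engOK r_3346_0) (by decide +kernel) h.1 h.1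

def F_3347 : FrX :=
  ⟨0x2002000900044004000e0204100014100080004080080101403800000800018210020400462021041080400e000000000200811020200800500010200201,
    0xa3, 1, 0x4150627398a3, 6,
    [(0xa3, 1), (0x208693a5, 4), (0x10548793, 4), (0x217693a4, 4), (0x208693a5, 4), (0x10548793, 4)],
    [(0x4150627398a3, 6), (0x658792a0, 4), (0x10548793, 4), (0x326487a1, 4), (0x658792a0, 4), (0x10548793, 4)]⟩

def c_3347 : frmChk tA tA F_3347 = true := by decide +kernel

def r_3347_0 : chkL rootF engF2 tA tA sA_347 sA_347 4 F_3347 [(511, 0, 0)]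
    0x4651682711c2e09c1b = true := by
  decide +kernel

theorem f_3347 (h : TabsF) : FrameF repsF 347 F_3347.f :=
  frame_of rfl c_3347 (runs_of engOK r_3347_0) (by decide +kernel) h.1 h.1

def F_3348 : FrX :=
  ⟨0x1c21020000040440000020410001010000820408a000110000008210020210100020404062025041080400c088008440200010001200000404020600200,
    0x0, 0, 0x43536584, 4,
    [(0x0, 0), (0x205386a9, 4), (0x105487a9, 4), (0x214376a9, 4), (0x205386a9, 4), (0x105487a9, 4)],
    [(0x43536584, 4), (0x20547683, 4), (0x107486a9, 4), (0x537684a9, 4), (0x107486a9, 4), (0x21637584, 4), (0x204385a9, 4), (0x537684a9, 4), (0x204385a9, 4), (0x10536487, 4), (0x537684a9, 4), (0x21637584, 4)]⟩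

def c_3348 : frmChk tA tB F_3348 = true := by decide +kernel

def r_3348_0 : chkL rootF engF2 tA tB sA_347 sB_347 4 F_3348 [(255, 0, 0), (256, 0, 16)]
    0x11d0748950d1c45a83705169294c45ab0bc0 = true := by
  decide +kernel

def r_3348_1 : chkL rootF engF2 tA tB sA_347 sB_347 4 F_3348 [(256, 16, 7)]
    0x109c27 = true := by
  decide +kernel

def r_3348_2 : chkL rootF engF2 tA tB sA_347 sB_347 4 F_3348 [(256, 23, 0)]
    0x116b05 = true := by
  decide +kernel

theorem f_3348 (h : TabsF) : FrameF repsF 347 F_3348.f :=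
  frame_of rfl c_3348 ((runs_of engOK r_3348_0).append ((runs_of engOK r_3348_1).append (runs_of engOK r_3348_2))) (by decide +kernel) h.1 h.2

def F_3349 : FrX :=
  ⟨0x482000044040440000c20400200090001820400100800801010001800081448048000008040404100002204080084401000801100220a0004020108084,
    0xa0, 1, 0x3051658493a7, 6,
    [(0xa0, 1), (0x538690a2, 4), (0x548790a1, 4), (0x21437690, 4), (0x538690a2, 4), (0x548790a1, 4)],
    [(0x3051658493a7, 6), (0x32417096, 4), (0x537086a4, 4), (0x527098a1, 4), (0x32417096, 4), (0x537086a4, 4)]⟩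

def c_3349 : frmChk tA tA F_3349 = true := by decide +kernel

def r_3349_0 : chkL rootF engF2 tA tA sA_347 sA_347 4 F_3349 [(511, 0, 0)]
    0x41705c2e0b81d09c17134270d68a32ac20f04b5481d7040f = true := by
  decide +kernel

theorem f_3349 (h : TabsF) : FrameF repsF 347 F_3349.f :=
  frame_of rfl c_3349 (runs_of engOK r_3349_0) (by decide +kernel) h.1 h.1

def F_3350 : FrX :=
  ⟨0x482000044040440000c204002000900018204001482008000080008001400422040004d001010120400440802020000008091004300200011002000090,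
    0xa0, 1, 0x2032406286a6, 6,
    [(0xa0, 1), (0x538690a2, 4), (0x548790a1, 4), (0x21437690, 4), (0x538690a2, 4), (0x548790a1, 4)],
    [(0x2032406286a6, 6), (0x326475a0, 4), (0x415298a7, 4), (0x307598a2, 4), (0x415298a7, 4), (0x536170a2, 4), (0x206498a3, 4), (0x307598a2, 4), (0x206498a3, 4), (0x304172a5, 4), (0x307598a2, 4), (0x536170a2, 4)]⟩

def c_3350 : frmChk tA tB F_3350 = true := by decide +kernel

def r_3350_0 : chkL rootF engF2 tA tB sA_347 sB_347 4 F_3350 [(511, 0, 0)]
    0x10d417 = true := by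
  decide +kernel

theorem f_3350 (h : TabsF) : FrameF repsF 347 F_3350.f :=
  frame_of rfl c_3350 (runs_of engOK r_3350_0) (by decide +kernel) h.1 h.2

def F_3351 : FrX :=
  ⟨0x80080a000804040e000021010020010000020408a00008014004008090400802210100000420302120248008801018020040020040010004400a0008010,
    0xa6, 1, 0x4052728396a0, 6,
    [(0xa6, 1), (0x205396a8, 4), (0x10548796, 4), (0x214396a7, 4), (0x205396a8, 4), (0x10548796, 4)],
    [(0x4052728396a0, 6), (0x648293a7, 4), (0x205364a1, 4), (0x64718095, 4), (0x648293a7, 4), (0x205364a1, 4)]⟩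

def c_3351 : frmChk tA tA F_3351 = true := by decide +kernel

def r_3351_0 : chkL rootF engF2 tA tA sA_347 sA_347 4 F_3351 [(511, 0, 0)]
    0x113439690171344d519c8 = true := by
  decide +kernel

theorem f_3351 (h : TabsF) : FrameF repsF 347 F_3351.f :=
  frame_of rfl c_3351 (runs_of engOK r_3351_0) (by decide +kernel) h.1 h.1

def F_3352 : FrX :=
  ⟨0x2002000900044004000e02041000141000800040800400418081204002000c00020101020002050012220180a00000801080080084010200400202801001,
    0xa3, 1, 0x203251658293a3, 7,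
    [(0xa3, 1), (0x208693a5, 4), (0x10548793, 4), (0x217693a4, 4), (0x208693a5, 4), (0x10548793, 4)],
    [(0x203251658293a3, 7), (0x437682a1, 4), (0x52647190, 4), (0x417690a3, 4), (0x52647190, 4), (0x416385a7, 4), (0x318290a4, 4), (0x417690a3, 4), (0x318290a4, 4), (0x526174a3, 4), (0x417690a3, 4), (0x416385a7, 4)]⟩

def c_3352 : frmChk tA tB F_3352 = true := by decide +kernel

def r_3352_0 : chkL rootF engF2 tA tB sA_347 sB_347 4 F_3352 [(511, 0, 0)]
    0x4b805c2b = true := by
  decide +kernel

theorem f_3352 (h : TabsF) : FrameF repsF 347 F_3352.f :=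
  frame_of rfl c_3352 (runs_of engOK r_3352_0) (by decide +kernel) h.1 h.2

def F_3353 : FrX :=
  ⟨0x482000044040440000c2040020009000182040000421021001080800080101200200060004040012040418888000408100200111090080004020000404,
    0xa0, 1, 0x4253768190a0, 6,
    [(0xa0, 1), (0x538690a2, 4), (0x548790a1, 4), (0x21437690, 4), (0x538690a2, 4), (0x548790a1, 4)],
    [(0x4253768190a0, 6), (0x537190a4, 4), (0x326190a8, 4), (0x52768490, 4), (0x537190a4, 4), (0x326190a8, 4)]⟩

def c_3353 : frmChk tA tA F_3353 = true := by decide +kernel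

def r_3353_0 : chkL rootF engF2 tA tA sA_347 sA_347 4 F_3353 [(511, 0, 0)]
    0x105c1d09c8b1383611e0b8382b2a817 = true := by
  decide +kernel

theorem f_3353 (h : TabsF) : FrameF repsF 347 F_3353.f :=
  frame_of rfl c_3353 (runs_of engOK r_3353_0) (by decide +kernel) h.1 h.1

def F_3354 : FrX :=
  ⟨0x2002000900044004000e02041000141000800040810000024210000111000241040204008004220408200142000048000300081080040020044040210280,
    0xa3, 1, 0x21405462718398a6, 8,
    [(0xa3, 1), (0x208693a5, 4), (0x10548793, 4), (0x217693a4, 4), (0x208693a5, 4), (0x10548793, 4)],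
    [(0x21405462718398a6, 8), (0x206495a8, 4), (0x315074a2, 4), (0x203198a5, 4), (0x315074a2, 4), (0x768290a5, 4), (0x316485a9, 4), (0x203198a5, 4), (0x316485a9, 4), (0x527498a0, 4), (0x203198a5, 4), (0x768290a5, 4)]⟩

def c_3354 : frmChk tA tB F_3354 = true := by decide +kernel

def r_3354_0 : chkL rootF engF2 tA tB sA_347 sB_347 4 F_3354 [(511, 0, 0)]
    0x40f03c0f1380f03c0f0d4170d43903c390f00f03c0f06d8a05c4e0b8178364c = true := by
  decide +kernel

theorem f_3354 (h : TabsF) : FrameF repsF 347 F_3354.f :=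
  frame_of rfl c_3354 (runs_of engOK r_3354_0) (by decide +kernel) h.1 h.2

def F_3355 : FrX :=
  ⟨0x80080a000804040e00002101002001000002040890020001408010808240004020011001004021008008000808048100224941004000120044080800080,
    0xa6, 1, 0x304151657296a8, 7,
    [(0xa6, 1), (0x205396a8, 4), (0x10548796, 4), (0x214396a7, 4), (0x205396a8, 4), (0x10548796, 4)],
    [(0x304151657296a8, 7), (0x627390a1, 4), (0x53618492, 4), (0x628491a0, 4), (0x53618492, 4), (0x207591a6, 4), (0x107384a9, 4), (0x628491a0, 4), (0x107384a9, 4), (0x215396a0, 4), (0x628491a0, 4), (0x207591a6, 4)]⟩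

def c_3355 : frmChk tA tB F_3355 = true := by decide +kernel

def r_3355_0 : chkL rootF engF2 tA tB sA_347 sB_347 4 F_3355 [(511, 0, 0)]
    0x41d91b420e817 = true := by
  decide +kernel

theorem f_3355 (h : TabsF) : FrameF repsF 347 F_3355.f :=
  frame_of rfl c_3355 (runs_of engOK r_3355_0) (by decide +kernel) h.1 h.2

def F_3356 : FrX :=
  ⟨0x2002000900044004000e0204100014100080004080040048400420208200088002002400110400040c000100800050100300081086800820002042201000,
    0xa3, 1, 0x5164718093a0, 6,
    [(0xa3, 1), (0x208693a5, 4), (0x10548793, 4), (0x217693a4, 4), (0x208693a5, 4), (0x10548793, 4)],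
    [(0x5164718093a0, 6), (0x408391a2, 4), (0x506183a7, 4), (0x54728396, 4), (0x408391a2, 4), (0x506183a7, 4)]⟩

def c_3356 : frmChk tA tA F_3356 = true := by decide +kernel

def r_3356_0 : chkL rootF engF2 tA tA sA_347 sA_347 4 F_3356 [(511, 0, 0)]
    0x12701d0741d = true := by
  decide +kernel

theorem f_3356 (h : TabsF) : FrameF repsF 347 F_3356.f :=
  frame_of rfl c_3356 (runs_of engOK r_3356_0) (by decide +kernel) h.1 h.1

def F_3357 : FrX :=
  ⟨0x80080a000804040e00002101002001000002040884021000044084008280001000103020004258010810000088000440221010001008400404040808200,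
    0xa6, 1, 0x10324252607498a3, 8,
    [(0xa6, 1), (0x205396a8, 4), (0x10548796, 4), (0x214396a7, 4), (0x205396a8, 4), (0x10548796, 4)],
    [(0x10324252607498a3, 8), (0x436597a1, 4), (0x31607482, 4), (0x437182a9, 4), (0x31607482, 4), (0x507194a3, 4), (0x658291a7, 4), (0x437182a9, 4), (0x658291a7, 4), (0x416073a9, 4), (0x437182a9, 4), (0x507194a3, 4)]⟩

def c_3357 : frmChk tA tB F_3357 = true := by decide +kernel

def r_3357_0 : chkL rootF engF2 tA tB sA_347 sB_347 4 F_3357 [(511, 0, 0)]
    0x435494350ac55 = true := by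
  decide +kernel

theorem f_3357 (h : TabsF) : FrameF repsF 347 F_3357.f :=
  frame_of rfl c_3357 (runs_of engOK r_3357_0) (by decide +kernel) h.1 h.2

def F_3358 : FrX :=
  ⟨0x600020801080810000c00401804101010010040041604000001020081010040004080a00a0042208000410a020002403000008100100400140200a0020,
    0xa0, 1, 0x30516573a3, 5,
    [(0xa0, 1), (0x637584a2, 4), (0x547690a1, 4), (0x64758390, 4), (0x547690a1, 4), (0x21647385, 4), (0x438690a2, 4), (0x64758390, 4), (0x438690a2, 4), (0x657483a1, 4), (0x64758390, 4), (0x21647385, 4)],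
    [(0x30516573a3, 5), (0x328197a6, 4), (0x53648097, 4), (0x105297a4, 4), (0x328197a6, 4), (0x53648097, 4)]⟩

def c_3358 : frmChk tB tA F_3358 = true := by decide +kernel

def r_3358_0 : chkL rootF engF2 tB tA sB_347 sA_347 4 F_3358 [(511, 0, 0)]
    0x686b108d0d853 = true := by
  decide +kernel

theorem f_3358 (h : TabsF) : FrameF repsF 347 F_3358.f :=
  frame_of rfl c_3358 (runs_of engOK r_3358_0) (by decide +kernel) h.2 h.1

def F_3359 : FrX :=
  ⟨0x600020801080810000c00401804101010010040040408200000240260010400404080020200402080100002030010c02840080004100404140080a0040,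
    0xa0, 1, 0x305462758693a6, 7,
    [(0xa0, 1), (0x637584a2, 4), (0x547690a1, 4), (0x64758390, 4), (0x547690a1, 4), (0x21647385, 4), (0x438690a2, 4), (0x64758390, 4), (0x438690a2, 4), (0x657483a1, 4), (0x64758390, 4), (0x21647385, 4)],
    [(0x305462758693a6, 7), (0x526374a9, 4), (0x317580a4, 4), (0x748092a5, 4), (0x317580a4, 4), (0x617294a5, 4), (0x638095a2, 4), (0x748092a5, 4), (0x638095a2, 4), (0x315492a7, 4), (0x748092a5, 4), (0x617294a5, 4)]⟩

def c_3359 : frmChk tB tB F_3359 = true := by decide +kernel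

def r_3359_0 : chkL rootF engF2 tB tB sB_347 sB_347 4 F_3359 [(511, 0, 0)]
    0x40f = true := by
  decide +kernel

theorem f_3359 (h : TabsF) : FrameF repsF 347 F_3359.f :=
  frame_of rfl c_3359 (runs_of engOK r_3359_0) (by decide +kernel) h.2 h.2

def F_3360 : FrX :=
  ⟨0x482000044040440000c20400200090001820400010804800012000200084040208020600020200200204204090800c0080090006200602010002800080,
    0xa0, 1, 0x10214162708096a3, 8,
    [(0xa0, 1), (0x538690a2, 4), (0x548790a1, 4), (0x21437690, 4), (0x538690a2, 4), (0x548790a1, 4)],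
    [(0x10214162708096a3, 8), (0x517286a9, 4), (0x30528491, 4), (0x305192a7, 4), (0x30528491, 4), (0x647592a1, 4), (0x308697a2, 4), (0x305192a7, 4), (0x308697a2, 4), (0x218495a7, 4), (0x305192a7, 4), (0x647592a1, 4)]⟩

def c_3360 : frmChk tA tB F_3360 = true := by decide +kernel

def r_3360_0 : chkL rootF engF2 tA tB sA_347 sB_347 4 F_3360 [(511, 0, 0)]
    0x4cab20cab20cab220d03c1b06c1b = true := by
  decide +kernel

theorem f_3360 (h : TabsF) : FrameF repsF 347 F_3360.f :=
  frame_of rfl c_3360 (runs_of engOK r_3360_0) (by decide +kernel) h.1 h.2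

theorem cl_347 (h : TabsF) : ∀ f ∈ fr_347, FrameF repsF 347 f :=
  List.forall_mem_cons.2 ⟨f_3325 h, List.forall_mem_cons.2 ⟨f_3326 h, List.forall_mem_cons.2 ⟨f_3327 h, List.forall_mem_cons.2 ⟨f_3328 h, List.forall_mem_cons.2 ⟨f_3329 h, List.forall_mem_cons.2 ⟨f_3330 h, List.forall_mem_cons.2 ⟨f_3331 h, List.forall_mem_cons.2 ⟨f_3332 h, List.forall_mem_cons.2 ⟨f_3333 h, List.forall_mem_cons.2 ⟨f_3334 h, List.forall_mem_cons.2 ⟨f_3335 h, List.forall_mem_cons.2 ⟨f_3336 h, List.forall_mem_cons.2 ⟨f_3337 h, List.forall_mem_cons.2 ⟨f_3338 h, List.forall_mem_cons.2 ⟨f_3339 h, List.forall_mem_cons.2 ⟨f_3340 h, List.forall_mem_cons.2 ⟨f_3341 h, List.forall_mem_cons.2 ⟨f_3342 h, List.forall_mem_cons.2 ⟨f_3343 h, List.forall_mem_cons.2 ⟨f_3344 h, List.forall_mem_cons.2 ⟨f_3345 h, List.forall_mem_cons.2 ⟨f_3346 h, List.forall_mem_cons.2 ⟨f_3347 h, List.forall_mem_cons.2 ⟨f_3348 h, List.forall_mem_cons.2 ⟨f_3349 h, List.forall_mem_cons.2 ⟨f_3350 h, List.forall_mem_cons.2 ⟨f_3351 h, List.forall_mem_cons.2 ⟨f_3352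 h, List.forall_mem_cons.2 ⟨f_3353 h, List.forall_mem_cons.2 ⟨f_3354 h, List.forall_mem_cons.2 ⟨f_3355 h, List.forall_mem_cons.2 ⟨f_3356 h, List.forall_mem_cons.2 ⟨f_3357 h, List.forall_mem_cons.2 ⟨f_3358 h, List.forall_mem_cons.2 ⟨f_3359 h, List.forall_mem_cons.2 ⟨f_3360 h,
    fun _ h0 => absurd h0 List.not_mem_nil⟩⟩⟩⟩⟩⟩⟩⟩⟩⟩⟩⟩⟩⟩⟩⟩⟩⟩⟩⟩⟩⟩⟩⟩⟩⟩⟩⟩⟩⟩⟩⟩⟩⟩⟩⟩

def F_3361 : FrX :=
  ⟨0x80080a000804040e0000210100200100000204088108040020403000041000800002861004008810008810101401000024000103000080c102111008000,
    0xa6, 1, 0x102142658398a1, 7,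
    [(0xa6, 1), (0x205396a8, 4), (0x10548796, 4), (0x214396a7, 4), (0x205396a8, 4), (0x10548796, 4)],
    [(0x102142658398a1, 7), (0x32418695, 4), (0x326097a1, 4), (0x327580a4, 4), (0x32418695, 4), (0x326097a1, 4)]⟩

def c_3361 : frmChk tA tA F_3361 = true := by decide +kernel

def r_3361_0 : chkL rootF engF2 tA tA sA_348 sA_348 4 F_3361 [(511, 0, 0)]
    0x4a50b835158561382b21c7841e32c184e3a063 = true := by
  decide +kernel

theorem f_3361 (h : TabsF) : FrameF repsF 348 F_3361.f :=
  frame_of rfl c_3361 (runs_of engOK r_3361_0) (by decide +kernel) h.1 h.1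

def F_3362 : FrX :=
  ⟨0x80080a000804040e0000210100200100000204088201020210840000844000004101201008000410200480050010200100100a05001001040c111008000,
    0xa6, 1, 0x213242637084a6, 7,
    [(0xa6, 1), (0x205396a8, 4), (0x10548796, 4), (0x214396a7, 4), (0x205396a8, 4), (0x10548796, 4)],
    [(0x213242637084a6, 7), (0x657491a3, 4), (0x30728591, 4), (0x428691a0, 4), (0x657491a3, 4), (0x30728591, 4)]⟩

def c_3362 : frmChk tA tA F_3362 = true := by decide +kernel

def r_3362_0 : chkL rootF engF2 tA tA sA_348 sA_348 4 F_3362 [(511, 0, 0)]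
    0x4c328cc32a44d03d46268786484d134780e8c51348d1685a6190b0ac1705d340f07194670168c91682b = true := by
  decide +kernel

theorem f_3362 (h : TabsF) : FrameF repsF 348 F_3362.f :=
  frame_of rfl c_3362 (runs_of engOK r_3362_0) (by decide +kernel) h.1 h.1

def F_3363 : FrX :=
  ⟨0x2002000900044004000e020410001410008000408100000422100001108010412001080008020802804004224000500020800900408800002601000c0080,
    0xa3, 1, 0x4362708591a3, 6,
    [(0xa3, 1), (0x208693a5, 4), (0x10548793, 4), (0x217693a4, 4), (0x208693a5, 4), (0x10548793, 4)],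
    [(0x4362708591a3, 6), (0x415276a8, 4), (0x41508397, 4), (0x204196a3, 4), (0x415276a8, 4), (0x41508397, 4)]⟩

def c_3363 : frmChk tA tA F_3363 = true := by decide +kernel

def r_3363_0 : chkL rootF engF2 tA tA sA_348 sA_348 4 F_3363 [(511, 0, 0)]
    0x105c2712c2b03c1e05c1e = true := by
  decide +kernel

theorem f_3363 (h : TabsF) : FrameF repsF 348 F_3363.f :=
  frame_of rfl c_3363 (runs_of engOK r_3363_0) (by decide +kernel) h.1 h.1

def F_3364 : FrX :=
  ⟨0x482000044040440000c2040020009000182040001009021001020800080404200080050080085000080005084008008100001210040104101011040208,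
    0xa0, 1, 0x31426371a0, 5,
    [(0xa0, 1), (0x538690a2, 4), (0x548790a1, 4), (0x21437690, 4), (0x538690a2, 4), (0x548790a1, 4)],
    [(0x31426371a0, 5), (0x658190a4, 4), (0x528390a7, 4), (0x31627490, 4), (0x658190a4, 4), (0x528390a7, 4)]⟩

def c_3364 : frmChk tA tA F_3364 = true := by decide +kernel

def r_3364_0 : chkL rootF engF2 tA tA sA_348 sA_348 4 F_3364 [(511, 0, 0)]
    0x46305d620ac1b = true := by
  decide +kernel

theorem f_3364 (h : TabsF) : FrameF repsF 348 F_3364.f :=
  frame_of rfl c_3364 (runs_of engOK r_3364_0) (by decide +kernel) h.1 h.1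

def F_3365 : FrX :=
  ⟨0x80080a000804040e000021010020010000020408820102040084000088200000108844008820004800100206040424000020500220020002a2025000000,
    0xa6, 1, 0x103052748798a3, 7,
    [(0xa6, 1), (0x205396a8, 4), (0x10548796, 4), (0x214396a7, 4), (0x205396a8, 4), (0x10548796, 4)],
    [(0x103052748798a3, 7), (0x538297a6, 4), (0x30417286, 4), (0x417682a9, 4), (0x30417286, 4), (0x507692a8, 4), (0x415396a7, 4), (0x417682a9, 4), (0x415396a7, 4), (0x306287a9, 4), (0x417682a9, 4), (0x507692a8, 4)]⟩

def c_3365 : frmChk tA tB F_3365 = true := by decide +kernel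

def r_3365_0 : chkL rootF engF2 tA tB sA_348 sB_348 4 F_3365 [(511, 0, 0)]
    0x10b48e294930e859 = true := by
  decide +kernel

theorem f_3365 (h : TabsF) : FrameF repsF 348 F_3365.f :=
  frame_of rfl c_3365 (runs_of engOK r_3365_0) (by decide +kernel) h.1 h.2

def F_3366 : FrX :=
  ⟨0x2002000900044004000e02041000141000800040810000028080804202004080140088010000084202100230600010002080088030001010408202002001,
    0xa3, 1, 0x41507091a3, 5,
    [(0xa3, 1), (0x208693a5, 4), (0x10548793, 4), (0x217693a4, 4), (0x208693a5, 4), (0x10548793, 4)],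
    [(0x41507091a3, 5), (0x437286a0, 4), (0x10438597, 4), (0x436592a1, 4), (0x437286a0, 4), (0x10438597, 4)]⟩

def c_3366 : frmChk tA tA F_3366 = true := by decide +kernel

def r_3366_0 : chkL rootF engF2 tA tA sA_348 sA_348 4 F_3366 [(511, 0, 0)]
    0x46a22c330b839 = true := by
  decide +kernel

theorem f_3366 (h : TabsF) : FrameF repsF 348 F_3366.f :=
  frame_of rfl c_3366 (runs_of engOK r_3366_0) (by decide +kernel) h.1 h.1

def F_3367 : FrX :=
  ⟨0x482000044040440000c204002000900018204000200830010120000802400208008041008000420200080021600800801000a082200102002840210400,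
    0xa0, 1, 0x103243526270a1, 7,
    [(0xa0, 1), (0x538690a2, 4), (0x548790a1, 4), (0x21437690, 4), (0x538690a2, 4), (0x548790a1, 4)],
    [(0x103243526270a1, 7), (0x31547682, 4), (0x325190a7, 4), (0x31528490, 4), (0x325190a7, 4), (0x415283a6, 4), (0x42768590, 4), (0x31528490, 4), (0x42768590, 4), (0x215384a7, 4), (0x31528490, 4), (0x415283a6, 4)]⟩

def c_3367 : frmChk tA tB F_3367 = true := by decide +kernel

def r_3367_0 : chkL rootF engF2 tA tB sA_348 sB_348 4 F_3367 [(511, 0, 0)]
    0x14d02e05c1705cc3 = true := by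
  decide +kernel

theorem f_3367 (h : TabsF) : FrameF repsF 348 F_3367.f :=
  frame_of rfl c_3367 (runs_of engOK r_3367_0) (by decide +kernel) h.1 h.2

def F_3368 : FrX :=
  ⟨0x2002000900044004000e0204100014100080004080054200012000240000104104020200110808040080000482800080104100004045002800c400220040,
    0xa3, 1, 0x3152637083a0, 6,
    [(0xa3, 1), (0x208693a5, 4), (0x10548793, 4), (0x217693a4, 4), (0x208693a5, 4), (0x10548793, 4)],
    [(0x3152637083a0, 6), (0x618297a5, 4), (0x426097a3, 4), (0x10538497, 4), (0x618297a5, 4), (0x426097a3, 4)]⟩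

def c_3368 : frmChk tA tA F_3368 = true := by decide +kernel

def r_3368_0 : chkL rootF engF2 tA tA sA_348 sA_348 4 F_3368 [(511, 0, 0)]
    0x472 = true := by
  decide +kernel

theorem f_3368 (h : TabsF) : FrameF repsF 348 F_3368.f :=
  frame_of rfl c_3368 (runs_of engOK r_3368_0) (by decide +kernel) h.1 h.1

def F_3369 : FrX :=
  ⟨0x2002000900044004000e020410001410008000408040010101010240010428020000041081020084400202210020200010040200060008105200c0008040,
    0xa3, 1, 0x2043618597a3, 6,
    [(0xa3, 1), (0x208693a5, 4), (0x10548793, 4), (0x217693a4, 4), (0x208693a5, 4), (0x10548793, 4)],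
    [(0x2043618597a3, 6), (0x205174a8, 4), (0x62748395, 4), (0x607491a3, 4), (0x205174a8, 4), (0x62748395, 4)]⟩

def c_3369 : frmChk tA tA F_3369 = true := by decide +kernel

def r_3369_0 : chkL rootF engF2 tA tA sA_348 sA_348 4 F_3369 [(511, 0, 0)]
    0x10741b = true := by
  decide +kernel

theorem f_3369 (h : TabsF) : FrameF repsF 348 F_3369.f :=
  frame_of rfl c_3369 (runs_of engOK r_3369_0) (by decide +kernel) h.1 h.1

def F_3370 : FrX :=
  ⟨0x80080a000804040e0000210100200100000204089002120201000042020400400050004800280a000020101080201002100102004108010560002820000,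
    0xa6, 1, 0x3243537481a6, 6,
    [(0xa6, 1), (0x205396a8, 4), (0x10548796, 4), (0x214396a7, 4), (0x205396a8, 4), (0x10548796, 4)],
    [(0x3243537481a6, 6), (0x304271a5, 4), (0x748096a2, 4), (0x425196a7, 4), (0x748096a2, 4), (0x415283a7, 4), (0x307596a1, 4), (0x425196a7, 4), (0x307596a1, 4), (0x517280a4, 4), (0x425196a7, 4), (0x415283a7, 4)]⟩

def c_3370 : frmChk tA tB F_3370 = true := by decide +kernel

def r_3370_0 : chkL rootF engF2 tA tB sA_348 sB_348 4 F_3370 [(511, 0, 0)]
    0x4471705960f480781e07853 = true := by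
  decide +kernel

theorem f_3370 (h : TabsF) : FrameF repsF 348 F_3370.f :=
  frame_of rfl c_3370 (runs_of engOK r_3370_0) (by decide +kernel) h.1 h.2

def F_3371 : FrX :=
  ⟨0x80080a000804040e0000210100200100000204089002000804400410101001004808100148002084080040082020180000200108040022808a042400000,
    0xa6, 1, 0x21304052647194a0, 8,
    [(0xa6, 1), (0x205396a8, 4), (0x10548796, 4), (0x214396a7, 4), (0x205396a8, 4), (0x10548796, 4)],
    [(0x21304052647194a0, 8), (0x106483a5, 4), (0x648291a7, 4), (0x32647590, 4), (0x106483a5, 4), (0x648291a7, 4)]⟩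

def c_3371 : frmChk tA tA F_3371 = true := by decide +kernel

def r_3371_0 : chkL rootF engF2 tA tA sA_348 sA_348 4 F_3371 [(511, 0, 0)]
    0x41e2388b26447158950d81d25847 = true := by
  decide +kernel

theorem f_3371 (h : TabsF) : FrameF repsF 348 F_3371.f :=
  frame_of rfl c_3371 (runs_of engOK r_3371_0) (by decide +kernel) h.1 h.1

def F_3372 : FrX :=
  ⟨0x482000044040440000c2040020009000182040001101002000a0a000004084004400101400020100850010128008800000098122048004001010800002,
    0xa0, 1, 0x3254748097a0, 6,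
    [(0xa0, 1), (0x538690a2, 4), (0x548790a1, 4), (0x21437690, 4), (0x538690a2, 4), (0x548790a1, 4)],
    [(0x3254748097a0, 6), (0x627094a3, 4), (0x748596a1, 4), (0x20768594, 4), (0x748596a1, 4), (0x31407692, 4), (0x607285a3, 4), (0x20768594, 4), (0x607285a3, 4), (0x206497a1, 4), (0x20768594, 4), (0x31407692, 4)]⟩

def c_3372 : frmChk tA tB F_3372 = true := by decide +kernel

def r_3372_0 : chkL rootF engF2 tA tB sA_348 sB_348 4 F_3372 [(511, 0, 0)]
    0x40f = true := by
  decide +kernel

theorem f_3372 (h : TabsF) : FrameF repsF 348 F_3372.f :=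
  frame_of rfl c_3372 (runs_of engOK r_3372_0) (by decide +kernel) h.1 h.2

def F_3373 : FrX :=
  ⟨0x2002000900044004000e02041000141000800040800801021108024002000240200088020008008024020404810000101100800054010208100024404001,
    0xa3, 1, 0x1020425281a4, 6,
    [(0xa3, 1), (0x208693a5, 4), (0x10548793, 4), (0x217693a4, 4), (0x208693a5, 4), (0x10548793, 4)],
    [(0x1020425281a4, 6), (0x526374a0, 4), (0x768291a4, 4), (0x307491a6, 4), (0x768291a4, 4), (0x407385a6, 4), (0x526091a3, 4), (0x307491a6, 4), (0x526091a3, 4), (0x306482a7, 4), (0x307491a6, 4), (0x407385a6, 4)]⟩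

def c_3373 : frmChk tA tB F_3373 = true := by decide +kernel

def r_3373_0 : chkL rootF engF2 tA tB sA_348 sB_348 4 F_3373 [(511, 0, 0)]
    0x10b82e = true := by
  decide +kernel

theorem f_3373 (h : TabsF) : FrameF repsF 348 F_3373.f :=
  frame_of rfl c_3373 (runs_of engOK r_3373_0) (by decide +kernel) h.1 h.2

def F_3374 : FrX :=
  ⟨0x80080a000804040e000021010020010000020408a0001001100090020242001000034000400049010040001082520040221002010080408004121008000,
    0xa6, 1, 0x2160748395a6, 6,
    [(0xa6, 1), (0x205396a8, 4), (0x10548796, 4), (0x214396a7, 4), (0x205396a8, 4), (0x10548796, 4)],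
    [(0x2160748395a6, 6), (0x506198a3, 4), (0x43506297, 4), (0x215087a4, 4), (0x506198a3, 4), (0x43506297, 4)]⟩

def c_3374 : frmChk tA tA F_3374 = true := by decide +kernel

def r_3374_0 : chkL rootF engF2 tA tA sA_348 sA_348 4 F_3374 [(511, 0, 0)]
    0x10b44b06c9906dd0 = true := by
  decide +kernel

theorem f_3374 (h : TabsF) : FrameF repsF 348 F_3374.f :=
  frame_of rfl c_3374 (runs_of engOK r_3374_0) (by decide +kernel) h.1 h.1

def F_3375 : FrX :=
  ⟨0x80080a000804040e000021010020010000020408a0001004040090021040082100024000400049020020000912201140002002014008808002211008000,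
    0xa6, 1, 0x2040547196a0, 6,
    [(0xa6, 1), (0x205396a8, 4), (0x10548796, 4), (0x214396a7, 4), (0x205396a8, 4), (0x10548796, 4)],
    [(0x2040547196a0, 6), (0x218593a0, 4), (0x526491a7, 4), (0x21648395, 4), (0x526491a7, 4), (0x31708295, 4), (0x536498a0, 4), (0x21648395, 4), (0x536498a0, 4), (0x518392a7, 4), (0x21648395, 4), (0x31708295, 4)]⟩

def c_3375 : frmChk tA tB F_3375 = true := by decide +kernel

def r_3375_0 : chkL rootF engF2 tA tB sA_348 sB_348 4 F_3375 [(511, 0, 0)]
    0x13241b = true := by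
  decide +kernel

theorem f_3375 (h : TabsF) : FrameF repsF 348 F_3375.f :=
  frame_of rfl c_3375 (runs_of engOK r_3375_0) (by decide +kernel) h.1 h.2

def F_3376 : FrX :=
  ⟨0x1001040012008080000e00840800410008101000040420028020010043000020030200801380002000100006023000420010000405080908084101000040,
    0xa3, 1, 0x4250638197a3, 6,
    [(0xa3, 1), (0x207584a6, 4), (0x10547693, 4), (0x647593a8, 4), (0x10547693, 4), (0x216485a7, 4), (0x208693a4, 4), (0x647593a8, 4), (0x208693a4, 4), (0x106574a8, 4), (0x647593a8, 4), (0x216485a7, 4)],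
    [(0x4250638197a3, 6), (0x215490a3, 4), (0x20768593, 4), (0x327690a1, 4), (0x20768593, 4), (0x103284a9, 4), (0x315476a2, 4), (0x327690a1, 4), (0x315476a2, 4), (0x308592a1, 4), (0x327690a1, 4), (0x103284a9, 4)]⟩

def c_3376 : frmChk tB tB F_3376 = true := by decide +kernel

def r_3376_0 : chkL rootF engF2 tB tB sB_348 sB_348 4 F_3376 [(511, 0, 0)]
    0x10e8b222c8d81f052b270 = true := by
  decide +kernel

theorem f_3376 (h : TabsF) : FrameF repsF 348 F_3376.f :=
  frame_of rfl c_3376 (runs_of engOK r_3376_0) (by decide +kernel) h.2 h.2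

theorem cl_348 (h : TabsF) : ∀ f ∈ fr_348, FrameF repsF 348 f :=
  List.forall_mem_cons.2 ⟨f_3361 h, List.forall_mem_cons.2 ⟨f_3362 h, List.forall_mem_cons.2 ⟨f_3363 h, List.forall_mem_cons.2 ⟨f_3364 h, List.forall_mem_cons.2 ⟨f_3365 h, List.forall_mem_cons.2 ⟨f_3366 h, List.forall_mem_cons.2 ⟨f_3367 h, List.forall_mem_cons.2 ⟨f_3368 h, List.forall_mem_cons.2 ⟨f_3369 h, List.forall_mem_cons.2 ⟨f_3370 h, List.forall_mem_cons.2 ⟨f_3371 h, List.forall_mem_cons.2 ⟨f_3372 h, List.forall_mem_cons.2 ⟨f_3373 h, List.forall_mem_cons.2 ⟨f_3374 h, List.forall_mem_cons.2 ⟨f_3375 h, List.forall_mem_cons.2 ⟨f_3376 h,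
    fun _ h0 => absurd h0 List.not_mem_nil⟩⟩⟩⟩⟩⟩⟩⟩⟩⟩⟩⟩⟩⟩⟩⟩

def F_3377 : FrX :=
  ⟨0x80080a000804040e000021010020010000020408a0000404200030080414008000020600048008180088100214010400240001030000828002111008000,
    0xa6, 1, 0x102061748193a0, 7,
    [(0xa6, 1), (0x205396a8, 4), (0x10548796, 4), (0x214396a7, 4), (0x205396a8, 4), (0x10548796, 4)],
    [(0x102061748193a0, 7), (0x547690a1, 4), (0x324075a8, 4), (0x32547096, 4), (0x324075a8, 4), (0x65708194, 4), (0x326097a1, 4), (0x32547096, 4), (0x326097a1, 4), (0x507496a8, 4), (0x32547096, 4), (0x65708194, 4)]⟩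

def c_3377 : frmChk tA tB F_3377 = true := by decide +kernel

def r_3377_0 : chkL rootF engF2 tA tB sA_349 sB_349 4 F_3377 [(511, 0, 0)]
    0x11e04d0d85a135681541d = true := by
  decide +kernel

theorem f_3377 (h : TabsF) : FrameF repsF 349 F_3377.f :=
  frame_of rfl c_3377 (runs_of engOK r_3377_0) (by decide +kernel) h.1 h.2

def F_3378 : FrX :=
  ⟨0x80080a000804040e000021010020010000020408a000020810040080844100004101200008800411200480040410280100100301001000040c111008000,
    0xa6, 1, 0x31425363758291a8, 8,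
    [(0xa6, 1), (0x205396a8, 4), (0x10548796, 4), (0x214396a7, 4), (0x205396a8, 4), (0x10548796, 4)],
    [(0x31425363758291a8, 8), (0x437680a5, 4), (0x437290a1, 4), (0x43516298, 4), (0x437680a5, 4), (0x437290a1, 4)]⟩

def c_3378 : frmChk tA tA F_3378 = true := by decide +kernel

def r_3378_0 : chkL rootF engF2 tA tA sA_349 sA_349 4 F_3378 [(511, 0, 0)]
    0x4a33242b = true := by
  decide +kernel

theorem f_3378 (h : TabsF) : FrameF repsF 349 F_3378.f :=
  frame_of rfl c_3378 (runs_of engOK r_3378_0) (by decide +kernel) h.1 h.1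

def F_3379 : FrX :=
  ⟨0x2002000900044004000e0204100014100080004081000004221000011100024b0000080008020802804004224000480101000b00008800002600000c2080,
    0xa3, 1, 0x325463758694a3, 7,
    [(0xa3, 1), (0x208693a5, 4), (0x10548793, 4), (0x217693a4, 4), (0x208693a5, 4), (0x10548793, 4)],
    [(0x325463758694a3, 7), (0x306582a7, 4), (0x10426597, 4), (0x316584a9, 4), (0x306582a7, 4), (0x10426597, 4)]⟩

def c_3379 : frmChk tA tA F_3379 = true := by decide +kernel

def r_3379_0 : chkL rootF engF2 tA tA sA_349 sA_349 4 F_3379 [(511, 0, 0)]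
    0x112c2e = true := by
  decide +kernel

theorem f_3379 (h : TabsF) : FrameF repsF 349 F_3379.f :=
  frame_of rfl c_3379 (runs_of engOK r_3379_0) (by decide +kernel) h.1 h.1

def F_3380 : FrX :=
  ⟨0x482000044040440000c2040020009000182040001009021001020800080404200080060008004080080404284000408100801210050120001010040208,
    0xa0, 1, 0x31426371a0, 5,
    [(0xa0, 1), (0x538690a2, 4), (0x548790a1, 4), (0x21437690, 4), (0x538690a2, 4), (0x548790a1, 4)],
    [(0x31426371a0, 5), (0x658190a4, 4), (0x528390a7, 4), (0x31627490, 4), (0x658190a4, 4), (0x528390a7, 4)]⟩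

def c_3380 : frmChk tA tA F_3380 = true := by decide +kernel

def r_3380_0 : chkL rootF engF2 tA tA sA_349 sA_349 4 F_3380 [(511, 0, 0)]
    0x103c6306c0f684270b44d09d32 = true := by
  decide +kernel

theorem f_3380 (h : TabsF) : FrameF repsF 349 F_3380.f :=
  frame_of rfl c_3380 (runs_of engOK r_3380_0) (by decide +kernel) h.1 h.1

def F_3381 : FrX :=
  ⟨0x80080a000804040e00002101002001000002040882010204020010008024008010180400882000480010020604040410100050022002800222105000000,
    0xa6, 1, 0x43526294a6, 5,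
    [(0xa6, 1), (0x205396a8, 4), (0x10548796, 4), (0x214396a7, 4), (0x205396a8, 4), (0x10548796, 4)],
    [(0x43526294a6, 5), (0x425360a8, 4), (0x10538792, 4), (0x536194a7, 4), (0x425360a8, 4), (0x10538792, 4)]⟩

def c_3381 : frmChk tA tA F_3381 = true := by decide +kernel

def r_3381_0 : chkL rootF engF2 tA tA sA_349 sA_349 4 F_3381 [(511, 0, 0)]
    0x44d05d45350330783503c7211c1d = true := by
  decide +kernel

theorem f_3381 (h : TabsF) : FrameF repsF 349 F_3381.f :=
  frame_of rfl c_3381 (runs_of engOK r_3381_0) (by decide +kernel) h.1 h.1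

def F_3382 : FrX :=
  ⟨0x482000044040440000c2040020009000182040002010900010024200000c02800080060002008080040804601080040284004002200622000004800208,
    0xa0, 1, 0x10305063718696a0, 8,
    [(0xa0, 1), (0x538690a2, 4), (0x548790a1, 4), (0x21437690, 4), (0x538690a2, 4), (0x548790a1, 4)],
    [(0x10305063718696a0, 8), (0x638591a2, 4), (0x104385a7, 4), (0x64728590, 4), (0x638591a2, 4), (0x104385a7, 4)]⟩

def c_3382 : frmChk tA tA F_3382 = true := by decide +kernel

def r_3382_0 : chkL rootF engF2 tA tA sA_349 sA_349 4 F_3382 [(511, 0, 0)]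
    0x103c8e2341706c39 = true := by
  decide +kernel

theorem f_3382 (h : TabsF) : FrameF repsF 349 F_3382.f :=
  frame_of rfl c_3382 (runs_of engOK r_3382_0) (by decide +kernel) h.1 h.1

def F_3383 : FrX :=
  ⟨0x482000044040440000c204002000900018204000200830010120000802400208008041008000420200080021600104008001c002201002040804210008,
    0xa0, 1, 0x103243526270a1, 7,
    [(0xa0, 1), (0x538690a2, 4), (0x548790a1, 4), (0x21437690, 4), (0x538690a2, 4), (0x548790a1, 4)],
    [(0x103243526270a1, 7), (0x31547682, 4), (0x325190a7, 4), (0x31528490, 4), (0x325190a7, 4), (0x415283a6, 4), (0x42768590, 4), (0x31528490, 4), (0x42768590, 4), (0x215384a7, 4), (0x31528490, 4), (0x415283a6, 4)]⟩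

def c_3383 : frmChk tA tB F_3383 = true := by decide +kernel

def r_3383_0 : chkL rootF engF2 tA tB sA_349 sB_349 4 F_3383 [(511, 0, 0)]
    0x19500f = true := by
  decide +kernel

theorem f_3383 (h : TabsF) : FrameF repsF 349 F_3383.f :=
  frame_of rfl c_3383 (runs_of engOK r_3383_0) (by decide +kernel) h.1 h.2

def F_3384 : FrX :=
  ⟨0x600020801080810000c004018041010100100400404082000040008412100004040280202004020801000020300840a004008222200000100c080a0040,
    0xa0, 1, 0x203152748397a5, 7,
    [(0xa0, 1), (0x637584a2, 4), (0x547690a1, 4), (0x64758390, 4), (0x547690a1, 4), (0x21647385, 4), (0x438690a2, 4), (0x64758390, 4), (0x438690a2, 4), (0x657483a1, 4), (0x64758390, 4), (0x21647385, 4)],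
    [(0x203152748397a5, 7), (0x405261a8, 4), (0x324091a7, 4), (0x40538796, 4), (0x405261a8, 4), (0x324091a7, 4)]⟩

def c_3384 : frmChk tB tA F_3384 = true := by decide +kernel

def r_3384_0 : chkL rootF engF2 tB tA sB_349 sA_349 4 F_3384 [(511, 0, 0)]
    0x447 = true := by
  decide +kernel

theorem f_3384 (h : TabsF) : FrameF repsF 349 F_3384.f :=
  frame_of rfl c_3384 (runs_of engOK r_3384_0) (by decide +kernel) h.2 h.1

def F_3385 : FrX :=
  ⟨0x1001040012008080000e00840800410008101000040410084020302000080044004002216090010100002800020400010010002008a00809b00000222000,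
    0xa3, 1, 0x21324053718596a5, 8,
    [(0xa3, 1), (0x207584a6, 4), (0x10547693, 4), (0x647593a8, 4), (0x10547693, 4), (0x216485a7, 4), (0x208693a4, 4), (0x647593a8, 4), (0x208693a4, 4), (0x106574a8, 4), (0x647593a8, 4), (0x216485a7, 4)],
    [(0x21324053718596a5, 8), (0x438691a5, 4), (0x217486a0, 4), (0x50738692, 4), (0x438691a5, 4), (0x217486a0, 4)]⟩

def c_3385 : frmChk tB tA F_3385 = true := by decide +kernel

def r_3385_0 : chkL rootF engF2 tB tA sB_349 sA_349 4 F_3385 [(511, 0, 0)]
    0x1 = true := by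
  decide +kernel

theorem f_3385 (h : TabsF) : FrameF repsF 349 F_3385.f :=
  frame_of rfl c_3385 (runs_of engOK r_3385_0) (by decide +kernel) h.2 h.1

def F_3386 : FrX :=
  ⟨0x1001040012008080000e008408004100081010000420080240102000042a0008008002201200008820001012000410004040205010100400a90101010080,
    0xa3, 1, 0x30405463758194a5, 8,
    [(0xa3, 1), (0x207584a6, 4), (0x10547693, 4), (0x647593a8, 4), (0x10547693, 4), (0x216485a7, 4), (0x208693a4, 4), (0x647593a8, 4), (0x208693a4, 4), (0x106574a8, 4), (0x647593a8, 4), (0x216485a7, 4)],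
    [(0x30405463758194a5, 8), (0x104275a6, 4), (0x317584a9, 4), (0x30758296, 4), (0x104275a6, 4), (0x317584a9, 4)]⟩

def c_3386 : frmChk tB tA F_3386 = true := by decide +kernel

def r_3386_0 : chkL rootF engF2 tB tA sB_349 sA_349 4 F_3386 [(511, 0, 0)]
    0x43a = true := by
  decide +kernel

theorem f_3386 (h : TabsF) : FrameF repsF 349 F_3386.f :=
  frame_of rfl c_3386 (runs_of engOK r_3386_0) (by decide +kernel) h.2 h.1

def F_3387 : FrX :=
  ⟨0x1001040012008080000e00840800410008101000042010041010200004102010810100108020010880042402400420202000808808004004a40004010010,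
    0xa3, 1, 0x3251738094a6, 6,
    [(0xa3, 1), (0x207584a6, 4), (0x10547693, 4), (0x647593a8, 4), (0x10547693, 4), (0x216485a7, 4), (0x208693a4, 4), (0x647593a8, 4), (0x208693a4, 4), (0x106574a8, 4), (0x647593a8, 4), (0x216485a7, 4)],
    [(0x3251738094a6, 6), (0x647183a0, 4), (0x20648591, 4), (0x536497a2, 4), (0x647183a0, 4), (0x20648591, 4)]⟩

def c_3387 : frmChk tB tA F_3387 = true := by decide +kernel

def r_3387_0 : chkL rootF engF2 tB tA sB_349 sA_349 4 F_3387 [(511, 0, 0)]
    0x1 = true := by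
  decide +kernel

theorem f_3387 (h : TabsF) : FrameF repsF 349 F_3387.f :=
  frame_of rfl c_3387 (runs_of engOK r_3387_0) (by decide +kernel) h.2 h.1

def F_3388 : FrX :=
  ⟨0x1c4044000008081000000840080410000101084060002080000082020180080040028400408404208400008942008210008204003200040011042200000,
    0x0, 0, 0x21537586, 4,
    [(0x0, 0), (0x20637584, 4), (0x105476a9, 4), (0x647583a9, 4), (0x105476a9, 4), (0x21647385, 4), (0x204386a9, 4), (0x647583a9, 4), (0x204386a9, 4), (0x10657483, 4), (0x647583a9, 4), (0x21647385, 4)],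
    [(0x21537586, 4), (0x107586a9, 4), (0x206374a9, 4), (0x215483a9, 4), (0x107586a9, 4), (0x206374a9, 4)]⟩

def c_3388 : frmChk tB tA F_3388 = true := by decide +kernel

def r_3388_0 : chkL rootF engF2 tB tA sB_349 sA_349 4 F_3388 [(255, 0, 0), (256, 0, 11)]
    0x4b41645314d1a4642e05c53c44aa = true := by
  decide +kernel

def r_3388_1 : chkL rootF engF2 tB tA sB_349 sA_349 4 F_3388 [(256, 11, 0)]
    0x11c84e = true := by
  decide +kernel

theorem f_3388 (h : TabsF) : FrameF repsF 349 F_3388.f :=
  frame_of rfl c_3388 ((runs_of engOK r_3388_0).append (runs_of engOK r_3388_1)) (by decide +kernel) h.2 h.1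

def F_3389 : FrX :=
  ⟨0x600020801080810000c0040180410101001004004014000800102008124000600400082020040808000810a0a0104002400208102040000140200a0020,
    0xa0, 1, 0x2042658695a2, 6,
    [(0xa0, 1), (0x637584a2, 4), (0x547690a1, 4), (0x64758390, 4), (0x547690a1, 4), (0x21647385, 4), (0x438690a2, 4), (0x64758390, 4), (0x438690a2, 4), (0x657483a1, 4), (0x64758390, 4), (0x21647385, 4)],
    [(0x2042658695a2, 6), (0x508397a2, 4), (0x21648790, 4), (0x53648097, 4), (0x21648790, 4), (0x738095a1, 4), (0x306485a2, 4), (0x53648097, 4), (0x306485a2, 4), (0x21537098, 4), (0x53648097, 4), (0x738095a1, 4)]⟩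

def c_3389 : frmChk tB tB F_3389 = true := by decide +kernel

def r_3389_0 : chkL rootF engF2 tB tB sB_349 sB_349 4 F_3389 [(511, 0, 0)]
    0x10e83a0e85916459164591643a0e83a0e83a0e85916459 = true := by
  decide +kernel

theorem f_3389 (h : TabsF) : FrameF repsF 349 F_3389.f :=
  frame_of rfl c_3389 (runs_of engOK r_3389_0) (by decide +kernel) h.2 h.2

def F_3390 : FrX :=
  ⟨0x80080a000804040e00002101002001000002040882200004050080100004084048880008024200010048820400202001100001080403021001002200084,
    0xa6, 1, 0x51758296a8, 5,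
    [(0xa6, 1), (0x205396a8, 4), (0x10548796, 4), (0x214396a7, 4), (0x205396a8, 4), (0x10548796, 4)],
    [(0x51758296a8, 5), (0x627380a9, 4), (0x506274a1, 4), (0x43628591, 4), (0x627380a9, 4), (0x506274a1, 4)]⟩

def c_3390 : frmChk tA tA F_3390 = true := by decide +kernel

def r_3390_0 : chkL rootF engF2 tA tA sA_349 sA_349 4 F_3390 [(511, 0, 0)]
    0x114c5354ad0326d0d401714c3c = true := by
  decide +kernel

theorem f_3390 (h : TabsF) : FrameF repsF 349 F_3390.f :=
  frame_of rfl c_3390 (runs_of engOK r_3390_0) (by decide +kernel) h.1 h.1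

def F_3391 : FrX :=
  ⟨0x2002000900044004000e02041000141000800040800402080120004200020a0202002800402200820a000082200400800284000022090000802080808840,
    0xa3, 1, 0x213165728193a6, 7,
    [(0xa3, 1), (0x208693a5, 4), (0x10548793, 4), (0x217693a4, 4), (0x208693a5, 4), (0x10548793, 4)],
    [(0x213165728193a6, 7), (0x527096a3, 4), (0x31526480, 4), (0x528794a1, 4), (0x527096a3, 4), (0x31526480, 4)]⟩

def c_3391 : frmChk tA tA F_3391 = true := by decide +kernel

def r_3391_0 : chkL rootF engF2 tA tA sA_349 sA_349 4 F_3391 [(511, 0, 0)]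
    0x12a86a078361e02e0b8270b82e0782d0cf2821d85 = true := by
  decide +kernel

theorem f_3391 (h : TabsF) : FrameF repsF 349 F_3391.f :=
  frame_of rfl c_3391 (runs_of engOK r_3391_0) (by decide +kernel) h.1 h.1

def F_3392 : FrX :=
  ⟨0x482000044040440000c2040020009000182040002080440000880104040081800800110020010800420400494010002080008280040120040108010102,
    0xa0, 1, 0x324260708494a6, 7,
    [(0xa0, 1), (0x538690a2, 4), (0x548790a1, 4), (0x21437690, 4), (0x538690a2, 4), (0x548790a1, 4)],
    [(0x324260708494a6, 7), (0x527480a3, 4), (0x63718095, 4), (0x418092a6, 4), (0x527480a3, 4), (0x63718095, 4)]⟩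

def c_3392 : frmChk tA tA F_3392 = true := by decide +kernel

def r_3392_0 : chkL rootF engF2 tA tA sA_349 sA_349 4 F_3392 [(511, 0, 0)]
    0x42b = true := by
  decide +kernel

theorem f_3392 (h : TabsF) : FrameF repsF 349 F_3392.f :=
  frame_of rfl c_3392 (runs_of engOK r_3392_0) (by decide +kernel) h.1 h.1

def F_3393 : FrX :=
  ⟨0x80080a000804040e0000210100200100000204088041080800440040102000022050006000202800a01c000000600800201102040000904840003000880,
    0xa6, 1, 0x21305061708594a1, 8,
    [(0xa6, 1), (0x205396a8, 4), (0x10548796, 4), (0x214396a7, 4), (0x205396a8, 4), (0x10548796, 4)],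
    [(0x21305061708594a1, 8), (0x32647180, 4), (0x536498a7, 4), (0x526490a1, 4), (0x32647180, 4), (0x536498a7, 4)]⟩

def c_3393 : frmChk tA tA F_3393 = true := by decide +kernel

def r_3393_0 : chkL rootF engF2 tA tA sA_349 sA_349 4 F_3393 [(511, 0, 0)]
    0x42771074 = true := by
  decide +kernel

theorem f_3393 (h : TabsF) : FrameF repsF 349 F_3393.f :=
  frame_of rfl c_3393 (runs_of engOK r_3393_0) (by decide +kernel) h.1 h.1

def F_3394 : FrX :=
  ⟨0x482000044040440000c2040020009000182040002024002001020400040800811010100c00011010000048602808800004001284080080101910000010,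
    0xa0, 1, 0x415065758298a1, 7,
    [(0xa0, 1), (0x538690a2, 4), (0x548790a1, 4), (0x21437690, 4), (0x538690a2, 4), (0x548790a1, 4)],
    [(0x415065758298a1, 7), (0x30768591, 4), (0x426071a5, 4), (0x10427693, 4), (0x426071a5, 4), (0x106397a8, 4), (0x31428590, 4), (0x10427693, 4), (0x31428590, 4), (0x617093a5, 4), (0x10427693, 4), (0x106397a8, 4)]⟩

def c_3394 : frmChk tA tB F_3394 = true := by decide +kernel

def r_3394_0 : chkL rootF engF2 tA tB sA_349 sB_349 4 F_3394 [(511, 0, 0)]
    0x40f09d2c = true := by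
  decide +kernel

theorem f_3394 (h : TabsF) : FrameF repsF 349 F_3394.f :=
  frame_of rfl c_3394 (runs_of engOK r_3394_0) (by decide +kernel) h.1 h.2

def F_3395 : FrX :=
  ⟨0x482000044040440000c2040020009000182040020000900400200084040882020024000101010112000200202001802040001048090080002210018210,
    0xa0, 1, 0x1020304192a0, 6,
    [(0xa0, 1), (0x538690a2, 4), (0x548790a1, 4), (0x21437690, 4), (0x538690a2, 4), (0x548790a1, 4)],
    [(0x1020304192a0, 6), (0x315286a9, 4), (0x315087a4, 4), (0x20317694, 4), (0x315286a9, 4), (0x315087a4, 4)]⟩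

def c_3395 : frmChk tA tA F_3395 = true := by decide +kernel

def r_3395_0 : chkL rootF engF2 tA tA sA_349 sA_349 4 F_3395 [(511, 0, 0)]
    0x131417 = true := by
  decide +kernel

theorem f_3395 (h : TabsF) : FrameF repsF 349 F_3395.f :=
  frame_of rfl c_3395 (runs_of engOK r_3395_0) (by decide +kernel) h.1 h.1

def F_3396 : FrX :=
  ⟨0x1c2102000004044000002041000101000082040888200008008020010000424040880820000048482880220210000101084010084050002400080008018,
    0x0, 0, 0x207583, 3,
    [(0x0, 0), (0x205386a9, 4), (0x105487a9, 4), (0x214376a9, 4), (0x205386a9, 4), (0x105487a9, 4)],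
    [(0x207583, 3), (0x206387a9, 4), (0x215374a9, 4), (0x106584a9, 4), (0x206387a9, 4), (0x215374a9, 4)]⟩

def c_3396 : frmChk tA tA F_3396 = true := by decide +kernel

def r_3396_0 : chkL rootF engF2 tA tA sA_349 sA_349 4 F_3396 [(511, 0, 0)]
    0x4390e84b = true := by
  decide +kernel

theorem f_3396 (h : TabsF) : FrameF repsF 349 F_3396.f :=
  frame_of rfl c_3396 (runs_of engOK r_3396_0) (by decide +kernel) h.1 h.1

def F_3397 : FrX :=
  ⟨0x482000044040440000c20400200090001820400008211000082008080101010102004100200802008004000c4001002080084310090024000900010108,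
    0xa0, 1, 0x1021325360718394a3, 9,
    [(0xa0, 1), (0x538690a2, 4), (0x548790a1, 4), (0x21437690, 4), (0x538690a2, 4), (0x548790a1, 4)],
    [(0x1021325360718394a3, 9), (0x516384a0, 4), (0x52768490, 4), (0x217384a9, 4), (0x516384a0, 4), (0x52768490, 4)]⟩

def c_3397 : frmChk tA tA F_3397 = true := by decide +kernel

def r_3397_0 : chkL rootF engF2 tA tA sA_349 sA_349 4 F_3397 [(511, 0, 0)]
    0x1 = true := by
  decide +kernel

theorem f_3397 (h : TabsF) : FrameF repsF 349 F_3397.f :=
  frame_of rfl c_3397 (runs_of engOK r_3397_0) (by decide +kernel) h.1 h.1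

def F_3398 : FrX :=
  ⟨0x80080a000804040e0000210100200100000204088108100006000810002020200840302000202000809000020480180204200008041a082002010040600,
    0xa6, 1, 0x2130518294a3, 6,
    [(0xa6, 1), (0x205396a8, 4), (0x10548796, 4), (0x214396a7, 4), (0x205396a8, 4), (0x10548796, 4)],
    [(0x2130518294a3, 6), (0x728391a6, 4), (0x40537692, 4), (0x407296a1, 4), (0x40537692, 4), (0x218596a7, 4), (0x406183a9, 4), (0x407296a1, 4), (0x406183a9, 4), (0x536297a1, 4), (0x407296a1, 4), (0x218596a7, 4)]⟩

def c_3398 : frmChk tA tB F_3398 = true := by decide +kernel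

def r_3398_0 : chkL rootF engF2 tA tB sA_349 sB_349 4 F_3398 [(511, 0, 0)]
    0x474439e0 = true := by
  decide +kernel

theorem f_3398 (h : TabsF) : FrameF repsF 349 F_3398.f :=
  frame_of rfl c_3398 (runs_of engOK r_3398_0) (by decide +kernel) h.1 h.2

def F_3399 : FrX :=
  ⟨0x482000044040440000c2040020009000182040010020082008000084010101811000801004900180000424010210408080085010080800100900000084,
    0xa0, 1, 0x5163768594a2, 6,
    [(0xa0, 1), (0x538690a2, 4), (0x548790a1, 4), (0x21437690, 4), (0x538690a2, 4), (0x548790a1, 4)],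
    [(0x5163768594a2, 6), (0x427186a0, 4), (0x31425098, 4), (0x427396a5, 4), (0x427186a0, 4), (0x31425098, 4)]⟩

def c_3399 : frmChk tA tA F_3399 = true := by decide +kernel

def r_3399_0 : chkL rootF engF2 tA tA sA_349 sA_349 4 F_3399 [(511, 0, 0)]
    0x103c0f = true := by
  decide +kernel

theorem f_3399 (h : TabsF) : FrameF repsF 349 F_3399.f :=
  frame_of rfl c_3399 (runs_of engOK r_3399_0) (by decide +kernel) h.1 h.1

def F_3400 : FrX :=
  ⟨0x2002000900044004000e020410001410008000408080004042012000090084081000440040200104141180000204200080c0008080800820000802221100,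
    0xa3, 1, 0x203140718098a6, 7,
    [(0xa3, 1), (0x208693a5, 4), (0x10548793, 4), (0x217693a4, 4), (0x208693a5, 4), (0x10548793, 4)],
    [(0x203140718098a6, 7), (0x516480a9, 4), (0x52648793, 4), (0x216470a3, 4), (0x516480a9, 4), (0x52648793, 4)]⟩

def c_3400 : frmChk tA tA F_3400 = true := by decide +kernel

def r_3400_0 : chkL rootF engF2 tA tA sA_349 sA_349 4 F_3400 [(511, 0, 0)]
    0x4e10ac0f05c474386a06ec2 = true := by
  decide +kernel

theorem f_3400 (h : TabsF) : FrameF repsF 349 F_3400.f :=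
  frame_of rfl c_3400 (runs_of engOK r_3400_0) (by decide +kernel) h.1 h.1

def F_3401 : FrX :=
  ⟨0x80080a000804040e0000210100200100000204089002120201000042020400400050005000004a0800201000c8001140100102004108000444002820800,
    0xa6, 1, 0x3243537481a6, 6,
    [(0xa6, 1), (0x205396a8, 4), (0x10548796, 4), (0x214396a7, 4), (0x205396a8, 4), (0x10548796, 4)],
    [(0x3243537481a6, 6), (0x304271a5, 4), (0x748096a2, 4), (0x425196a7, 4), (0x748096a2, 4), (0x415283a7, 4), (0x307596a1, 4), (0x425196a7, 4), (0x307596a1, 4), (0x517280a4, 4), (0x425196a7, 4), (0x415283a7, 4)]⟩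

def c_3401 : frmChk tA tB F_3401 = true := by decide +kernel

def r_3401_0 : chkL rootF engF2 tA tB sA_349 sB_349 4 F_3401 [(511, 0, 0)]
    0x1856a11986619a640d4743148b0cc8d03c0f = true := by
  decide +kernel

theorem f_3401 (h : TabsF) : FrameF repsF 349 F_3401.f :=
  frame_of rfl c_3401 (runs_of engOK r_3401_0) (by decide +kernel) h.1 h.2

def F_3402 : FrX :=
  ⟨0x482000044040440000c2040020009000182040000902000804100808000884004880000888000204400020701010100010010006100120001208800028,
    0xa0, 1, 0x415060728493a4, 7,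
    [(0xa0, 1), (0x538690a2, 4), (0x548790a1, 4), (0x21437690, 4), (0x538690a2, 4), (0x548790a1, 4)],
    [(0x415060728493a4, 7), (0x51768390, 4), (0x216483a0, 4), (0x527483a9, 4), (0x51768390, 4), (0x216483a0, 4)]⟩

def c_3402 : frmChk tA tA F_3402 = true := by decide +kernel

def r_3402_0 : chkL rootF engF2 tA tA sA_349 sA_349 4 F_3402 [(511, 0, 0)]
    0x1 = true := by
  decide +kernel

theorem f_3402 (h : TabsF) : FrameF repsF 349 F_3402.f :=
  frame_of rfl c_3402 (runs_of engOK r_3402_0) (by decide +kernel) h.1 h.1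

def F_3403 : FrX :=
  ⟨0x2002000900044004000e0204100014100080004080100028202000210001210280002021010000420404040044000000a041020011201000a0001080e004,
    0xa3, 1, 0x21324161708295a3, 8,
    [(0xa3, 1), (0x208693a5, 4), (0x10548793, 4), (0x217693a4, 4), (0x208693a5, 4), (0x10548793, 4)],
    [(0x21324161708295a3, 8), (0x328790a4, 4), (0x40517692, 4), (0x425190a3, 4), (0x40517692, 4), (0x428693a0, 4), (0x435187a2, 4), (0x425190a3, 4), (0x435187a2, 4), (0x207694a3, 4), (0x425190a3, 4), (0x428693a0, 4)]⟩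

def c_3403 : frmChk tA tB F_3403 = true := by decide +kernel

def r_3403_0 : chkL rootF engF2 tA tB sA_349 sB_349 4 F_3403 [(511, 0, 0)]
    0x40f03c3c = true := by
  decide +kernel

theorem f_3403 (h : TabsF) : FrameF repsF 349 F_3403.f :=
  frame_of rfl c_3403 (runs_of engOK r_3403_0) (by decide +kernel) h.1 h.2

def F_3404 : FrX :=
  ⟨0x482000044040440000c20400200090001820400100800801040c0100020021800800100804040410000220408032000000220111000440014220008084,
    0xa0, 1, 0x102061738691a6, 7,
    [(0xa0, 1), (0x538690a2, 4), (0x548790a1, 4), (0x21437690, 4), (0x538690a2, 4), (0x548790a1, 4)],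
    [(0x102061738691a6, 7), (0x214053a7, 4), (0x548692a3, 4), (0x537086a4, 4), (0x548692a3, 4), (0x507391a4, 4), (0x217486a0, 4), (0x537086a4, 4), (0x217486a0, 4), (0x437092a5, 4), (0x537086a4, 4), (0x507391a4, 4)]⟩

def c_3404 : frmChk tA tB F_3404 = true := by decide +kernel

def r_3404_0 : chkL rootF engF2 tA tB sA_349 sB_349 4 F_3404 [(511, 0, 0)]
    0x44b0742b = true := by
  decide +kernel

theorem f_3404 (h : TabsF) : FrameF repsF 349 F_3404.f :=
  frame_of rfl c_3404 (runs_of engOK r_3404_0) (by decide +kernel) h.1 h.2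

theorem cl_349 (h : TabsF) : ∀ f ∈ fr_349, FrameF repsF 349 f :=
  List.forall_mem_cons.2 ⟨f_3377 h, List.forall_mem_cons.2 ⟨f_3378 h, List.forall_mem_cons.2 ⟨f_3379 h, List.forall_mem_cons.2 ⟨f_3380 h, List.forall_mem_cons.2 ⟨f_3381 h, List.forall_mem_cons.2 ⟨f_3382 h, List.forall_mem_cons.2 ⟨f_3383 h, List.forall_mem_cons.2 ⟨f_3384 h, List.forall_mem_cons.2 ⟨f_3385 h, List.forall_mem_cons.2 ⟨f_3386 h, List.forall_mem_cons.2 ⟨f_3387 h, List.forall_mem_cons.2 ⟨f_3388 h, List.forall_mem_cons.2 ⟨f_3389 h, List.forall_mem_cons.2 ⟨f_3390 h, List.forall_mem_cons.2 ⟨f_3391 h, List.forall_mem_cons.2 ⟨f_3392 h, List.forall_mem_cons.2 ⟨f_3393 h, List.forall_mem_cons.2 ⟨f_3394 h, List.forall_mem_cons.2 ⟨f_3395 h, List.forall_mem_cons.2 ⟨f_3396 h, List.forall_mem_cons.2 ⟨f_3397 h, List.forall_mem_cons.2 ⟨f_3398 h, List.forall_mem_cons.2 ⟨f_3399 h, List.forall_mem_cons.2 ⟨f_3400 h, List.forall_mem_cons.2 ⟨f_3401 h, List.forall_mem_cons.2 ⟨f_3402 h, List.forall_mem_cons.2 ⟨f_3403 h, List.forall_mem_cons.2 ⟨f_3404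 h,
    fun _ h0 => absurd h0 List.not_mem_nil⟩⟩⟩⟩⟩⟩⟩⟩⟩⟩⟩⟩⟩⟩⟩⟩⟩⟩⟩⟩⟩⟩⟩⟩⟩⟩⟩⟩

def F_3405 : FrX :=
  ⟨0x80080a000804040e000021010020010000020408810810000440300004100080400230204400200100402005480001080040020404100a1004088020200,
    0xa6, 1, 0x103152657491a5, 7,
    [(0xa6, 1), (0x205396a8, 4), (0x10548796, 4), (0x214396a7, 4), (0x205396a8, 4), (0x10548796, 4)],
    [(0x103152657491a5, 7), (0x516382a0, 4), (0x638491a7, 4), (0x42637095, 4), (0x516382a0, 4), (0x638491a7, 4)]⟩

def c_3405 : frmChk tA tA F_3405 = true := by decide +kernel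

def r_3405_0 : chkL rootF engF2 tA tA sA_350 sA_350 4 F_3405 [(511, 0, 0)]
    0x45c = true := by
  decide +kernel

theorem f_3405 (h : TabsF) : FrameF repsF 350 F_3405.f :=
  frame_of rfl c_3405 (runs_of engOK r_3405_0) (by decide +kernel) h.1 h.1

def F_3406 : FrX :=
  ⟨0x80080a000804040e00002101002001000002040890010008088004020820004004501000c800410820000800c0402400001008080400100244218800080,
    0xa6, 1, 0x4362708195a6, 6,
    [(0xa6, 1), (0x205396a8, 4), (0x10548796, 4), (0x214396a7, 4), (0x205396a8, 4), (0x10548796, 4)],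
    [(0x4362708195a6, 6), (0x527694a1, 4), (0x10528793, 4), (0x435286a0, 4), (0x527694a1, 4), (0x10528793, 4)]⟩

def c_3406 : frmChk tA tA F_3406 = true := by decide +kernel

def r_3406_0 : chkL rootF engF2 tA tA sA_350 sA_350 4 F_3406 [(511, 0, 0)]
    0x10b827 = true := by
  decide +kernel

theorem f_3406 (h : TabsF) : FrameF repsF 350 F_3406.f :=
  frame_of rfl c_3406 (runs_of engOK r_3406_0) (by decide +kernel) h.1 h.1

def F_3407 : FrX :=
  ⟨0x80080a000804040e00002101002001000002040890011204008004020440002000404050000031000041000a02082001100081084012020204040210080,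
    0xa6, 1, 0x3143537482a6, 6,
    [(0xa6, 1), (0x205396a8, 4), (0x10548796, 4), (0x214396a7, 4), (0x205396a8, 4), (0x10548796, 4)],
    [(0x3143537482a6, 6), (0x417280a5, 4), (0x307496a1, 4), (0x415296a7, 4), (0x307496a1, 4), (0x425183a7, 4), (0x758096a2, 4), (0x415296a7, 4), (0x758096a2, 4), (0x305271a4, 4), (0x415296a7, 4), (0x425183a7, 4)]⟩

def c_3407 : frmChk tA tB F_3407 = true := by decide +kernel

def r_3407_0 : chkL rootF engF2 tA tB sA_350 sB_350 4 F_3407 [(511, 0, 0)]
    0x44d134743252ca250b42e1a235a2c890750f420e80f1344d21cd21d20d254d4078a921cc5 = true := by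
  decide +kernel

theorem f_3407 (h : TabsF) : FrameF repsF 350 F_3407.f :=
  frame_of rfl c_3407 (runs_of engOK r_3407_0) (by decide +kernel) h.1 h.2

def F_3408 : FrX :=
  ⟨0x482000044040440000c2040020009000182040002020500008020010040024800c00100881005010000020148408100100002048040120044010210020,
    0xa0, 1, 0x52657392a4, 5,
    [(0xa0, 1), (0x538690a2, 4), (0x548790a1, 4), (0x21437690, 4), (0x538690a2, 4), (0x548790a1, 4)],
    [(0x52657392a4, 5), (0x54768290, 4), (0x105483a6, 4), (0x325491a7, 4), (0x54768290, 4), (0x105483a6, 4)]⟩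

def c_3408 : frmChk tA tA F_3408 = true := by decide +kernel

def r_3408_0 : chkL rootF engF2 tA tA sA_350 sA_350 4 F_3408 [(511, 0, 0)]
    0x1 = true := by
  decide +kernel

theorem f_3408 (h : TabsF) : FrameF repsF 350 F_3408.f :=
  frame_of rfl c_3408 (runs_of engOK r_3408_0) (by decide +kernel) h.1 h.1

def F_3409 : FrX :=
  ⟨0x2002000900044004000e020410001410008000408008020108100204008008820000a40009080802860000080404100020400080204800002020c0214100,
    0xa3, 1, 0x3150758590a7, 6,
    [(0xa3, 1), (0x208693a5, 4), (0x10548793, 4), (0x217693a4, 4), (0x208693a5, 4), (0x10548793, 4)],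
    [(0x3150758590a7, 6), (0x617492a8, 4), (0x508493a6, 4), (0x506471a8, 4), (0x508493a6, 4), (0x326487a1, 4), (0x41507692, 4), (0x506471a8, 4), (0x41507692, 4), (0x718693a4, 4), (0x506471a8, 4), (0x326487a1, 4)]⟩

def c_3409 : frmChk tA tB F_3409 = true := by decide +kernel

def r_3409_0 : chkL rootF engF2 tA tB sA_350 sB_350 4 F_3409 [(511, 0, 0)]
    0x111c6506d0b = true := by
  decide +kernel

theorem f_3409 (h : TabsF) : FrameF repsF 350 F_3409.f :=
  frame_of rfl c_3409 (runs_of engOK r_3409_0) (by decide +kernel) h.1 h.2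

def F_3410 : FrX :=
  ⟨0x2002000900044004000e0204100014100080004080040102402000420000c088140000104088041010040004444000108100200080441020001004201300,
    0xa3, 1, 0x2032508392a6, 6,
    [(0xa3, 1), (0x208693a5, 4), (0x10548793, 4), (0x217693a4, 4), (0x208693a5, 4), (0x10548793, 4)],
    [(0x2032508392a6, 6), (0x407295a8, 4), (0x425163a7, 4), (0x637280a4, 4), (0x425163a7, 4), (0x208791a4, 4), (0x638495a0, 4), (0x637280a4, 4), (0x638495a0, 4), (0x517480a2, 4), (0x637280a4, 4), (0x208791a4, 4)]⟩

def c_3410 : frmChk tA tB F_3410 = true := by decide +kernel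

def r_3410_0 : chkL rootF engF2 tA tB sA_350 sB_350 4 F_3410 [(511, 0, 0)]
    0x436a0c36a0c270d93209c364c8270cc8e0ac1e = true := by
  decide +kernel

theorem f_3410 (h : TabsF) : FrameF repsF 350 F_3410.f :=
  frame_of rfl c_3410 (runs_of engOK r_3410_0) (by decide +kernel) h.1 h.2

def F_3411 : FrX :=
  ⟨0x482000044040440000c2040020009000182040020000484000020280080184800010800101010110840401004120040204005200008804000110008014,
    0xa0, 1, 0x3141537691a2, 6,
    [(0xa0, 1), (0x538690a2, 4), (0x548790a1, 4), (0x21437690, 4), (0x538690a2, 4), (0x548790a1, 4)],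
    [(0x3141537691a2, 6), (0x617583a0, 4), (0x31427690, 4), (0x42617385, 4), (0x31427690, 4), (0x657381a9, 4), (0x425387a0, 4), (0x42617385, 4), (0x425387a0, 4), (0x63718590, 4), (0x42617385, 4), (0x657381a9, 4)]⟩

def c_3411 : frmChk tA tB F_3411 = true := by decide +kernel

def r_3411_0 : chkL rootF engF2 tA tB sA_350 sB_350 4 F_3411 [(511, 0, 0)]
    0x181e83 = true := by
  decide +kernel

theorem f_3411 (h : TabsF) : FrameF repsF 350 F_3411.f :=
  frame_of rfl c_3411 (runs_of engOK r_3411_0) (by decide +kernel) h.1 h.2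

def F_3412 : FrX :=
  ⟨0x80080a000804040e0000210100200100000204088101100102001002004200100c044000c00041020000000888040140002082014000608004a20420020,
    0xa6, 1, 0x50758697a8, 5,
    [(0xa6, 1), (0x205396a8, 4), (0x10548796, 4), (0x214396a7, 4), (0x205396a8, 4), (0x10548796, 4)],
    [(0x50758697a8, 5), (0x528397a4, 4), (0x51607498, 4), (0x608497a3, 4), (0x51607498, 4), (0x218493a7, 4), (0x435260a8, 4), (0x608497a3, 4), (0x435260a8, 4), (0x518794a3, 4), (0x608497a3, 4), (0x218493a7, 4)]⟩

def c_3412 : frmChk tA tB F_3412 = true := by decide +kernel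

def r_3412_0 : chkL rootF engF2 tA tB sA_350 sB_350 4 F_3412 [(511, 0, 0)]
    0x42d14c7215417 = true := by
  decide +kernel

theorem f_3412 (h : TabsF) : FrameF repsF 350 F_3412.f :=
  frame_of rfl c_3412 (runs_of engOK r_3412_0) (by decide +kernel) h.1 h.2

def F_3413 : FrX :=
  ⟨0x2002000900044004000e0204100014100080004080100102101020001820210100020402000800400c06011100040000a040208080201000800020209021,
    0xa3, 1, 0x3262768292a3, 6,
    [(0xa3, 1), (0x208693a5, 4), (0x10548793, 4), (0x217693a4, 4), (0x208693a5, 4), (0x10548793, 4)],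
    [(0x3262768292a3, 6), (0x768290a5, 4), (0x10546382, 4), (0x738291a4, 4), (0x768290a5, 4), (0x10546382, 4)]⟩

def c_3413 : frmChk tA tA F_3413 = true := by decide +kernel

def r_3413_0 : chkL rootF engF2 tA tA sA_350 sA_350 4 F_3413 [(511, 0, 0)]
    0x106c2e1982d0b82e = true := by
  decide +kernel

theorem f_3413 (h : TabsF) : FrameF repsF 350 F_3413.f :=
  frame_of rfl c_3413 (runs_of engOK r_3413_0) (by decide +kernel) h.1 h.1

def F_3414 : FrX :=
  ⟨0x80080a000804040e000021010020010000020408a00010020800248004802020000814004000990200200011220024080040080008004003008c0808001,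
    0xa6, 1, 0x21768792a4, 5,
    [(0xa6, 1), (0x205396a8, 4), (0x10548796, 4), (0x214396a7, 4), (0x205396a8, 4), (0x10548796, 4)],
    [(0x21768792a4, 5), (0x738590a6, 4), (0x204187a5, 4), (0x416385a7, 4), (0x204187a5, 4), (0x658392a7, 4), (0x417690a3, 4), (0x416385a7, 4), (0x417690a3, 4), (0x206375a8, 4), (0x416385a7, 4), (0x658392a7, 4)]⟩

def c_3414 : frmChk tA tB F_3414 = true := by decide +kernel

def r_3414_0 : chkL rootF engF2 tA tB sA_350 sB_350 4 F_3414 [(511, 0, 0)]
    0x13151c = true := by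
  decide +kernel

theorem f_3414 (h : TabsF) : FrameF repsF 350 F_3414.f :=
  frame_of rfl c_3414 (runs_of engOK r_3414_0) (by decide +kernel) h.1 h.2

def F_3415 : FrX :=
  ⟨0x1c2102000004044000002041000101000082040888081000001020400400102000604060000084008060111102400408048008003200800900010208020,
    0x0, 0, 0x4376, 2,
    [(0x0, 0), (0x205386a9, 4), (0x105487a9, 4), (0x214376a9, 4), (0x205386a9, 4), (0x105487a9, 4)],
    [(0x4376, 2), (0x20657483, 4), (0x105376a9, 4), (0x657384a9, 4), (0x105376a9, 4), (0x21647385, 4), (0x204387a9, 4), (0x657384a9, 4), (0x204387a9, 4), (0x10637584, 4), (0x657384a9, 4), (0x21647385, 4)]⟩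

def c_3415 : frmChk tA tB F_3415 = true := by decide +kernel

def r_3415_0 : chkL rootF engF2 tA tB sA_350 sB_350 4 F_3415 [(511, 0, 0)]
    0x42b138368982d = true := by
  decide +kernel

theorem f_3415 (h : TabsF) : FrameF repsF 350 F_3415.f :=
  frame_of rfl c_3415 (runs_of engOK r_3415_0) (by decide +kernel) h.1 h.2

def F_3416 : FrX :=
  ⟨0x80080a000804040e000021010020010000020408a00010011000248004802020000810404000850080600011024024080040080030004009000c0808020,
    0xa6, 1, 0x10407392a4, 5,
    [(0xa6, 1), (0x205396a8, 4), (0x10548796, 4), (0x214396a7, 4), (0x205396a8, 4), (0x10548796, 4)],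
    [(0x10407392a4, 5), (0x537694a8, 4), (0x214063a5, 4), (0x215387a6, 4), (0x214063a5, 4), (0x738590a6, 4), (0x218694a7, 4), (0x215387a6, 4), (0x218694a7, 4), (0x406587a3, 4), (0x215387a6, 4), (0x738590a6, 4)]⟩

def c_3416 : frmChk tA tB F_3416 = true := by decide +kernel

def r_3416_0 : chkL rootF engF2 tA tB sA_350 sB_350 4 F_3416 [(511, 0, 0)]
    0x40f0ba89aa0cc2b00f2b04d = true := by
  decide +kernel

theorem f_3416 (h : TabsF) : FrameF repsF 350 F_3416.f :=
  frame_of rfl c_3416 (runs_of engOK r_3416_0) (by decide +kernel) h.1 h.2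

def F_3417 : FrX :=
  ⟨0x1001040012008080000e00840800410008101000040500004420010024000882808200004200010800244006c00000210010801008200081100000210025,
    0xa3, 1, 0x2131638590a5, 6,
    [(0xa3, 1), (0x207584a6, 4), (0x10547693, 4), (0x647593a8, 4), (0x10547693, 4), (0x216485a7, 4), (0x208693a4, 4), (0x647593a8, 4), (0x208693a4, 4), (0x106574a8, 4), (0x647593a8, 4), (0x216485a7, 4)],
    [(0x2131638590a5, 6), (0x546291a7, 4), (0x728093a4, 4), (0x426580a7, 4), (0x728093a4, 4), (0x314276a5, 4), (0x52648091, 4), (0x426580a7, 4), (0x52648091, 4), (0x657493a2, 4), (0x426580a7, 4), (0x314276a5, 4)]⟩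

def c_3417 : frmChk tB tB F_3417 = true := by decide +kernel

def r_3417_0 : chkL rootF engF2 tB tB sB_350 sB_350 4 F_3417 [(511, 0, 0)]
    0x1 = true := by
  decide +kernel

theorem f_3417 (h : TabsF) : FrameF repsF 350 F_3417.f :=
  frame_of rfl c_3417 (runs_of engOK r_3417_0) (by decide +kernel) h.2 h.2

def F_3418 : FrX :=
  ⟨0x1001040012008080000e0084080041000810100004400808011010000420201000830200402001082020240040405000084000880a02004000a001210020,
    0xa3, 1, 0x2130548390a4, 6,
    [(0xa3, 1), (0x207584a6, 4), (0x10547693, 4), (0x647593a8, 4), (0x10547693, 4), (0x216485a7, 4), (0x208693a4, 4), (0x647593a8, 4), (0x208693a4, 4), (0x106574a8, 4), (0x647593a8, 4), (0x216485a7, 4)],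
    [(0x2130548390a4, 6), (0x748691a0, 4), (0x537692a4, 4), (0x537480a6, 4), (0x537692a4, 4), (0x214087a6, 4), (0x536091a8, 4), (0x537480a6, 4), (0x536091a8, 4), (0x648092a7, 4), (0x537480a6, 4), (0x214087a6, 4)]⟩

def c_3418 : frmChk tB tB F_3418 = true := by decide +kernel

def r_3418_0 : chkL rootF engF2 tB tB sB_350 sB_350 4 F_3418 [(511, 0, 0)]
    0x4a6898a51680f03c0f = true := by
  decide +kernel

theorem f_3418 (h : TabsF) : FrameF repsF 350 F_3418.f :=
  frame_of rfl c_3418 (runs_of engOK r_3418_0) (by decide +kernel) h.2 h.2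

def F_3419 : FrX :=
  ⟨0x1001040012008080000e0084080041000810100004400808011010000420201000804220702000200000044212041000004000880a00040c080803200001,
    0xa3, 1, 0x3150748692a3, 6,
    [(0xa3, 1), (0x207584a6, 4), (0x10547693, 4), (0x647593a8, 4), (0x10547693, 4), (0x216485a7, 4), (0x208693a4, 4), (0x647593a8, 4), (0x208693a4, 4), (0x106574a8, 4), (0x647593a8, 4), (0x216485a7, 4)],
    [(0x3150748692a3, 6), (0x407695a8, 4), (0x21537084, 4), (0x214087a6, 4), (0x21537084, 4), (0x608793a4, 4), (0x218695a7, 4), (0x214087a6, 4), (0x218695a7, 4), (0x537480a6, 4), (0x214087a6, 4), (0x608793a4, 4)]⟩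

def c_3419 : frmChk tB tB F_3419 = true := by decide +kernel

def r_3419_0 : chkL rootF engF2 tB tB sB_350 sB_350 4 F_3419 [(511, 0, 0)]
    0x109c1d09d25 = true := by
  decide +kernel

theorem f_3419 (h : TabsF) : FrameF repsF 350 F_3419.f :=
  frame_of rfl c_3419 (runs_of engOK r_3419_0) (by decide +kernel) h.2 h.2

def F_3420 : FrX :=
  ⟨0x1001040012008080000e008408004100081010000420201000480220020000c044020200108020414000280005080820010000080a00400810100402a002,
    0xa3, 1, 0x3262728792a3, 6,
    [(0xa3, 1), (0x207584a6, 4), (0x10547693, 4), (0x647593a8, 4), (0x10547693, 4), (0x216485a7, 4), (0x208693a4, 4), (0x647593a8, 4), (0x208693a4, 4), (0x106574a8, 4), (0x647593a8, 4), (0x216485a7, 4)],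
    [(0x3262728792a3, 6), (0x648590a3, 4), (0x10547283, 4), (0x437285a6, 4), (0x10547283, 4), (0x436591a8, 4), (0x637290a4, 4), (0x437285a6, 4), (0x637290a4, 4), (0x105384a6, 4), (0x437285a6, 4), (0x436591a8, 4)]⟩

def c_3420 : frmChk tB tB F_3420 = true := by decide +kernel

def r_3420_0 : chkL rootF engF2 tB tB sB_350 sB_350 4 F_3420 [(511, 0, 0)]
    0x1 = true := by
  decide +kernel

theorem f_3420 (h : TabsF) : FrameF repsF 350 F_3420.f :=
  frame_of rfl c_3420 (runs_of engOK r_3420_0) (by decide +kernel) h.2 h.2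

theorem cl_350 (h : TabsF) : ∀ f ∈ fr_350, FrameF repsF 350 f :=
  List.forall_mem_cons.2 ⟨f_3405 h, List.forall_mem_cons.2 ⟨f_3406 h, List.forall_mem_cons.2 ⟨f_3407 h, List.forall_mem_cons.2 ⟨f_3408 h, List.forall_mem_cons.2 ⟨f_3409 h, List.forall_mem_cons.2 ⟨f_3410 h, List.forall_mem_cons.2 ⟨f_3411 h, List.forall_mem_cons.2 ⟨f_3412 h, List.forall_mem_cons.2 ⟨f_3413 h, List.forall_mem_cons.2 ⟨f_3414 h, List.forall_mem_cons.2 ⟨f_3415 h, List.forall_mem_cons.2 ⟨f_3416 h, List.forall_mem_cons.2 ⟨f_3417 h, List.forall_mem_cons.2 ⟨f_3418 h, List.forall_mem_cons.2 ⟨f_3419 h, List.forall_mem_cons.2 ⟨f_3420 h,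
    fun _ h0 => absurd h0 List.not_mem_nil⟩⟩⟩⟩⟩⟩⟩⟩⟩⟩⟩⟩⟩⟩⟩⟩

def F_3421 : FrX :=
  ⟨0x2002000900044004000e02041000141000800040810000081101004409008402020004024882000012000804820000800088200006080800040880224040,
    0xa3, 1, 0x4251738594a5, 6,
    [(0xa3, 1), (0x208693a5, 4), (0x10548793, 4), (0x217693a4, 4), (0x208693a5, 4), (0x10548793, 4)],
    [(0x4251738594a5, 6), (0x406182a7, 4), (0x315082a9, 4), (0x54638297, 4), (0x406182a7, 4), (0x315082a9, 4)]⟩

def c_3421 : frmChk tA tA F_3421 = true := by decide +kernel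

def r_3421_0 : chkL rootF engF2 tA tA sA_351 sA_351 4 F_3421 [(511, 0, 0)]
    0x40f = true := by
  decide +kernel

theorem f_3421 (h : TabsF) : FrameF repsF 351 F_3421.f :=
  frame_of rfl c_3421 (runs_of engOK r_3421_0) (by decide +kernel) h.1 h.1

def F_3422 : FrX :=
  ⟨0x482000044040440000c2040020009000182040020000448000020280040890028010020982000012000100880200802011002080490080002020200404,
    0xa0, 1, 0x213052638296a3, 7,
    [(0xa0, 1), (0x538690a2, 4), (0x548790a1, 4), (0x21437690, 4), (0x538690a2, 4), (0x548790a1, 4)],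
    [(0x213052638296a3, 7), (0x547183a9, 4), (0x32416097, 4), (0x607194a5, 4), (0x32416097, 4), (0x518294a7, 4), (0x608395a4, 4), (0x607194a5, 4), (0x608395a4, 4), (0x327491a5, 4), (0x607194a5, 4), (0x518294a7, 4)]⟩

def c_3422 : frmChk tA tB F_3422 = true := by decide +kernel

def r_3422_0 : chkL rootF engF2 tA tB sA_351 sB_351 4 F_3422 [(511, 0, 0)]
    0x515 = true := by
  decide +kernel

theorem f_3422 (h : TabsF) : FrameF repsF 351 F_3422.f :=
  frame_of rfl c_3422 (runs_of engOK r_3422_0) (by decide +kernel) h.1 h.2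

def F_3423 : FrX :=
  ⟨0x482000044040440000c20400200090001820400200010420002000840d0041010002030000030302000400508000009280090140090000004100010082,
    0xa0, 1, 0x3240738793a5, 6,
    [(0xa0, 1), (0x538690a2, 4), (0x548790a1, 4), (0x21437690, 4), (0x538690a2, 4), (0x548790a1, 4)],
    [(0x3240738793a5, 6), (0x436275a9, 4), (0x417582a0, 4), (0x31758690, 4), (0x436275a9, 4), (0x417582a0, 4)]⟩

def c_3423 : frmChk tA tA F_3423 = true := by decide +kernel

def r_3423_0 : chkL rootF engF2 tA tA sA_351 sA_351 4 F_3423 [(511, 0, 0)]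
    0x49c0cc9c6850d4a5253609c = true := by
  decide +kernel

theorem f_3423 (h : TabsF) : FrameF repsF 351 F_3423.f :=
  frame_of rfl c_3423 (runs_of engOK r_3423_0) (by decide +kernel) h.1 h.1

def F_3424 : FrX :=
  ⟨0x482000044040440000c2040020009000182040010020082004000110010804804400100802083200001051002001800284000240000504104100000042,
    0xa0, 1, 0x204351728097a3, 7,
    [(0xa0, 1), (0x538690a2, 4), (0x548790a1, 4), (0x21437690, 4), (0x538690a2, 4), (0x548790a1, 4)],
    [(0x204351728097a3, 7), (0x406287a1, 4), (0x31408592, 4), (0x407596a3, 4), (0x406287a1, 4), (0x31408592, 4)]⟩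

def c_3424 : frmChk tA tA F_3424 = true := by decide +kernel

def r_3424_0 : chkL rootF engF2 tA tA sA_351 sA_351 4 F_3424 [(511, 0, 0)]
    0x43607856 = true := by
  decide +kernel

theorem f_3424 (h : TabsF) : FrameF repsF 351 F_3424.f :=
  frame_of rfl c_3424 (runs_of engOK r_3424_0) (by decide +kernel) h.1 h.1

def F_3425 : FrX :=
  ⟨0x80080a000804040e00002101002001000002040890020002220028400014004040400054800010800830000128012000040008045000121004042600000,
    0xa6, 1, 0x5264728191a4, 6,
    [(0xa6, 1), (0x205396a8, 4), (0x10548796, 4), (0x214396a7, 4), (0x205396a8, 4), (0x10548796, 4)],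
    [(0x5264728191a4, 6), (0x32417086, 4), (0x518690a2, 4), (0x548697a3, 4), (0x32417086, 4), (0x518690a2, 4)]⟩

def c_3425 : frmChk tA tA F_3425 = true := by decide +kernel

def r_3425_0 : chkL rootF engF2 tA tA sA_351 sA_351 4 F_3425 [(511, 0, 0)]
    0x184d16c4916078362704764427 = true := by
  decide +kernel

theorem f_3425 (h : TabsF) : FrameF repsF 351 F_3425.f :=
  frame_of rfl c_3425 (runs_of engOK r_3425_0) (by decide +kernel) h.1 h.1

def F_3426 : FrX :=
  ⟨0x2002000900044004000e02041000141000800040800400218101400400820800200100120182001240040001000400801001002040501000304104211000,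
    0xa3, 1, 0x10213251608293a3, 8,
    [(0xa3, 1), (0x208693a5, 4), (0x10548793, 4), (0x217693a4, 4), (0x208693a5, 4), (0x10548793, 4)],
    [(0x10213251608293a3, 8), (0x437286a1, 4), (0x42657190, 4), (0x417290a3, 4), (0x42657190, 4), (0x324185a7, 4), (0x318690a4, 4), (0x417290a3, 4), (0x318690a4, 4), (0x216574a3, 4), (0x417290a3, 4), (0x324185a7, 4)]⟩

def c_3426 : frmChk tA tB F_3426 = true := by decide +kernel

def r_3426_0 : chkL rootF engF2 tA tB sA_351 sB_351 4 F_3426 [(511, 0, 0)]
    0x13502e = true := by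
  decide +kernel

theorem f_3426 (h : TabsF) : FrameF repsF 351 F_3426.f :=
  frame_of rfl c_3426 (runs_of engOK r_3426_0) (by decide +kernel) h.1 h.2

def F_3427 : FrX :=
  ⟨0x2002000900044004000e0204100014100080004082004022400040020900808004020201090001040082020202000804200420a0040400200020c0008050,
    0xa3, 1, 0x3041517182a1, 6,
    [(0xa3, 1), (0x208693a5, 4), (0x10548793, 4), (0x217693a4, 4), (0x208693a5, 4), (0x10548793, 4)],
    [(0x3041517182a1, 6), (0x21546083, 4), (0x416597a3, 4), (0x20546197, 4), (0x416597a3, 4), (0x425061a8, 4), (0x10628397, 4), (0x20546197, 4), (0x10628397, 4), (0x205164a3, 4), (0x20546197, 4), (0x425061a8, 4)]⟩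

def c_3427 : frmChk tA tB F_3427 = true := by decide +kernel

def r_3427_0 : chkL rootF engF2 tA tB sA_351 sB_351 4 F_3427 [(511, 0, 0)]
    0x113a321381b2a82d = true := by
  decide +kernel

theorem f_3427 (h : TabsF) : FrameF repsF 351 F_3427.f :=
  frame_of rfl c_3427 (runs_of engOK r_3427_0) (by decide +kernel) h.1 h.2

def F_3428 : FrX :=
  ⟨0x482000044040440000c2040020009000182040000a00048004080100180088200010110020080604100800501010000280008282040804010210008004,
    0xa0, 1, 0x215162718691a2, 7,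
    [(0xa0, 1), (0x538690a2, 4), (0x548790a1, 4), (0x21437690, 4), (0x538690a2, 4), (0x548790a1, 4)],
    [(0x215162718691a2, 7), (0x415283a0, 4), (0x42768590, 4), (0x31527684, 4), (0x42768590, 4), (0x215384a9, 4), (0x437681a0, 4), (0x31527684, 4), (0x437681a0, 4), (0x31548290, 4), (0x31527684, 4), (0x215384a9, 4)]⟩

def c_3428 : frmChk tA tB F_3428 = true := by decide +kernel

def r_3428_0 : chkL rootF engF2 tA tB sA_351 sB_351 4 F_3428 [(511, 0, 0)]
    0x453 = true := by
  decide +kernel

theorem f_3428 (h : TabsF) : FrameF repsF 351 F_3428.f :=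
  frame_of rfl c_3428 (runs_of engOK r_3428_0) (by decide +kernel) h.1 h.2

def F_3429 : FrX :=
  ⟨0x1c210200000404400000204100010100008204089004010000100410010200801001411000008470400080012301000108008808204080c000a10080000,
    0x0, 0, 0x102064, 3,
    [(0x0, 0), (0x205386a9, 4), (0x105487a9, 4), (0x214376a9, 4), (0x205386a9, 4), (0x105487a9, 4)],
    [(0x102064, 3), (0x215384a9, 4), (0x206587a9, 4), (0x106374a9, 4), (0x215384a9, 4), (0x206587a9, 4)]⟩

def c_3429 : frmChk tA tA F_3429 = true := by decide +kernel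

def r_3429_0 : chkL rootF engF2 tA tA sA_351 sA_351 4 F_3429 [(511, 0, 0)]
    0x48b = true := by
  decide +kernel

theorem f_3429 (h : TabsF) : FrameF repsF 351 F_3429.f :=
  frame_of rfl c_3429 (runs_of engOK r_3429_0) (by decide +kernel) h.1 h.1

def F_3430 : FrX :=
  ⟨0x80080a000804040e00002101002001000002040882200002090020400004084040880403a10000080008001012204009020002040410082500080220000,
    0xa6, 1, 0x10325290a4, 5,
    [(0xa6, 1), (0x205396a8, 4), (0x10548796, 4), (0x214396a7, 4), (0x205396a8, 4), (0x10548796, 4)],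
    [(0x10325290a4, 5), (0x32418695, 4), (0x418790a3, 4), (0x415076a2, 4), (0x32418695, 4), (0x418790a3, 4)]⟩

def c_3430 : frmChk tA tA F_3430 = true := by decide +kernel

def r_3430_0 : chkL rootF engF2 tA tA sA_351 sA_351 4 F_3430 [(511, 0, 0)]
    0x439 = true := by
  decide +kernel

theorem f_3430 (h : TabsF) : FrameF repsF 351 F_3430.f :=
  frame_of rfl c_3430 (runs_of engOK r_3430_0) (by decide +kernel) h.1 h.1

def F_3431 : FrX :=
  ⟨0x2002000900044004000e02041000141000800040800400484020004200014041800002204082000180080800020400800281000051089c0800010000c040,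
    0xa3, 1, 0x32425462718598a6, 8,
    [(0xa3, 1), (0x208693a5, 4), (0x10548793, 4), (0x217693a4, 4), (0x208693a5, 4), (0x10548793, 4)],
    [(0x32425462718598a6, 8), (0x436082a9, 4), (0x43708591, 4), (0x435276a1, 4), (0x436082a9, 4), (0x43708591, 4)]⟩

def c_3431 : frmChk tA tA F_3431 = true := by decide +kernel

def r_3431_0 : chkL rootF engF2 tA tA sA_351 sA_351 4 F_3431 [(511, 0, 0)]
    0x109c553145914c551a49c1e02d = true := by
  decide +kernel

theorem f_3431 (h : TabsF) : FrameF repsF 351 F_3431.f :=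
  frame_of rfl c_3431 (runs_of engOK r_3431_0) (by decide +kernel) h.1 h.1

def F_3432 : FrX :=
  ⟨0x482000044040440000c20400200090001820400101000028010008080608100300100008c800100008900110200880004404c002040100101000800082,
    0xa0, 1, 0x1030718691a5, 6,
    [(0xa0, 1), (0x538690a2, 4), (0x548790a1, 4), (0x21437690, 4), (0x538690a2, 4), (0x548790a1, 4)],
    [(0x1030718691a5, 6), (0x326481a0, 4), (0x758093a4, 4), (0x617584a0, 4), (0x758093a4, 4), (0x108492a6, 4), (0x32417586, 4), (0x617584a0, 4), (0x32417586, 4), (0x406193a8, 4), (0x617584a0, 4), (0x108492a6, 4)]⟩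

def c_3432 : frmChk tA tB F_3432 = true := by decide +kernel

def r_3432_0 : chkL rootF engF2 tA tB sA_351 sB_351 4 F_3432 [(511, 0, 0)]
    0x45515455 = true := by
  decide +kernel

theorem f_3432 (h : TabsF) : FrameF repsF 351 F_3432.f :=
  frame_of rfl c_3432 (runs_of engOK r_3432_0) (by decide +kernel) h.1 h.2

def F_3433 : FrX :=
  ⟨0x482000044040440000c204002000900018204002000088200032001008042200002200004402011200080040022000a0000c8880010204002210800042,
    0xa0, 1, 0x21314265768395a3, 8,
    [(0xa0, 1), (0x538690a2, 4), (0x548790a1, 4), (0x21437690, 4), (0x538690a2, 4), (0x548790a1, 4)],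
    [(0x21314265768395a3, 8), (0x214095a7, 4), (0x30758691, 4), (0x718695a2, 4), (0x30758691, 4), (0x437192a5, 4), (0x407286a1, 4), (0x718695a2, 4), (0x407286a1, 4), (0x305197a2, 4), (0x718695a2, 4), (0x437192a5, 4)]⟩

def c_3433 : frmChk tA tB F_3433 = true := by decide +kernel

def r_3433_0 : chkL rootF engF2 tA tB sA_351 sB_351 4 F_3433 [(511, 0, 0)]
    0x103c1e0d4470cc0f14c53 = true := by
  decide +kernel

theorem f_3433 (h : TabsF) : FrameF repsF 351 F_3433.f :=
  frame_of rfl c_3433 (runs_of engOK r_3433_0) (by decide +kernel) h.1 h.2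

def F_3434 : FrX :=
  ⟨0x600020801080810000c00401804101010010040080408020001004041800820000222020500220000201000c80900d0040041000400804010400220200,
    0xa0, 1, 0x213160708493a2, 7,
    [(0xa0, 1), (0x637584a2, 4), (0x547690a1, 4), (0x64758390, 4), (0x547690a1, 4), (0x21647385, 4), (0x438690a2, 4), (0x64758390, 4), (0x438690a2, 4), (0x657483a1, 4), (0x64758390, 4), (0x21647385, 4)],
    [(0x213160708493a2, 7), (0x214095a7, 4), (0x21647385, 4), (0x216098a3, 4), (0x214095a7, 4), (0x21647385, 4)]⟩

def c_3434 : frmChk tB tA F_3434 = true := by decide +kernel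

def r_3434_0 : chkL rootF engF2 tB tA sB_351 sA_351 4 F_3434 [(511, 0, 0)]
    0x41d = true := by
  decide +kernel

theorem f_3434 (h : TabsF) : FrameF repsF 351 F_3434.f :=
  frame_of rfl c_3434 (runs_of engOK r_3434_0) (by decide +kernel) h.2 h.1

def F_3435 : FrX :=
  ⟨0x1001040012008080000e008408004100081010000420800200a0010006100080440202000a00010242004022080400211010801008010008003100008030,
    0xa3, 1, 0x32415163738297a3, 8,
    [(0xa3, 1), (0x207584a6, 4), (0x10547693, 4), (0x647593a8, 4), (0x10547693, 4), (0x216485a7, 4), (0x208693a4, 4), (0x647593a8, 4), (0x208693a4, 4), (0x106574a8, 4), (0x647593a8, 4), (0x216485a7, 4)],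
    [(0x32415163738297a3, 8), (0x327680a4, 4), (0x41507693, 4), (0x768592a1, 4), (0x327680a4, 4), (0x41507693, 4)]⟩

def c_3435 : frmChk tB tA F_3435 = true := by decide +kernel

def r_3435_0 : chkL rootF engF2 tB tA sB_351 sA_351 4 F_3435 [(511, 0, 0)]
    0x42b = true := by
  decide +kernel

theorem f_3435 (h : TabsF) : FrameF repsF 351 F_3435.f :=
  frame_of rfl c_3435 (runs_of engOK r_3435_0) (by decide +kernel) h.2 h.1

def F_3436 : FrX :=
  ⟨0x1001040012008080000e00840800410008101000042010014020010004020802808080202020200840110010032000802084004401024000100840012002,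
    0xa3, 1, 0x2031435064738592a0, 9,
    [(0xa3, 1), (0x207584a6, 4), (0x10547693, 4), (0x647593a8, 4), (0x10547693, 4), (0x216485a7, 4), (0x208693a4, 4), (0x647593a8, 4), (0x208693a4, 4), (0x106574a8, 4), (0x647593a8, 4), (0x216485a7, 4)],
    [(0x2031435064738592a0, 9), (0x215087a9, 4), (0x425086a3, 4), (0x41507693, 4), (0x215087a9, 4), (0x425086a3, 4)]⟩

def c_3436 : frmChk tB tA F_3436 = true := by decide +kernel

def r_3436_0 : chkL rootF engF2 tB tA sB_351 sA_351 4 F_3436 [(511, 0, 0)]
    0x111c8b22c2e = true := by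
  decide +kernel

theorem f_3436 (h : TabsF) : FrameF repsF 351 F_3436.f :=
  frame_of rfl c_3436 (runs_of engOK r_3436_0) (by decide +kernel) h.2 h.1

def F_3437 : FrX :=
  ⟨0x1001040012008080000e0084080041000810100004400802080102800108200404000204210000424000188100182004000400444100040040c10000c040,
    0xa3, 1, 0x315160768794a6, 7,
    [(0xa3, 1), (0x207584a6, 4), (0x10547693, 4), (0x647593a8, 4), (0x10547693, 4), (0x216485a7, 4), (0x208693a4, 4), (0x647593a8, 4), (0x208693a4, 4), (0x106574a8, 4), (0x647593a8, 4), (0x216485a7, 4)],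
    [(0x315160768794a6, 7), (0x628390a1, 4), (0x657493a8, 4), (0x107483a9, 4), (0x657493a8, 4), (0x305281a9, 4), (0x627491a0, 4), (0x107483a9, 4), (0x627491a0, 4), (0x106598a3, 4), (0x107483a9, 4), (0x305281a9, 4)]⟩

def c_3437 : frmChk tB tB F_3437 = true := by decide +kernel

def r_3437_0 : chkL rootF engF2 tB tB sB_351 sB_351 4 F_3437 [(511, 0, 0)]
    0x1 = true := by
  decide +kernel

theorem f_3437 (h : TabsF) : FrameF repsF 351 F_3437.f :=
  frame_of rfl c_3437 (runs_of engOK r_3437_0) (by decide +kernel) h.2 h.2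

def F_3438 : FrX :=
  ⟨0x1001040012008080000e00840800410008101000042020028201400100180000440200040a0000c24000402040102002101082044001000040c100008048,
    0xa3, 1, 0x20405181a3, 5,
    [(0xa3, 1), (0x207584a6, 4), (0x10547693, 4), (0x647593a8, 4), (0x10547693, 4), (0x216485a7, 4), (0x208693a4, 4), (0x647593a8, 4), (0x208693a4, 4), (0x106574a8, 4), (0x647593a8, 4), (0x216485a7, 4)],
    [(0x20405181a3, 5), (0x405271a6, 4), (0x21768493, 4), (0x627193a5, 4), (0x21768493, 4), (0x516280a7, 4), (0x406593a2, 4), (0x627193a5, 4), (0x406593a2, 4), (0x617284a5, 4), (0x627193a5, 4), (0x516280a7, 4)]⟩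

def c_3438 : frmChk tB tB F_3438 = true := by decide +kernel

def r_3438_0 : chkL rootF engF2 tB tB sB_351 sB_351 4 F_3438 [(511, 0, 0)]
    0x45612c0f25471 = true := by
  decide +kernel

theorem f_3438 (h : TabsF) : FrameF repsF 351 F_3438.f :=
  frame_of rfl c_3438 (runs_of engOK r_3438_0) (by decide +kernel) h.2 h.2

def F_3439 : FrX :=
  ⟨0x80080a000804040e000021010020010000020408822000040500801000022020220210082070000808880000041020010100090804101042002000c1000,
    0xa6, 1, 0x203252647290a6, 7,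
    [(0xa6, 1), (0x205396a8, 4), (0x10548796, 4), (0x214396a7, 4), (0x205396a8, 4), (0x10548796, 4)],
    [(0x203252647290a6, 7), (0x304297a8, 4), (0x42638591, 4), (0x426071a5, 4), (0x304297a8, 4), (0x42638591, 4)]⟩

def c_3439 : frmChk tA tA F_3439 = true := by decide +kernel

def r_3439_0 : chkL rootF engF2 tA tA sA_351 sA_351 4 F_3439 [(511, 0, 0)]
    0x106c56 = true := by
  decide +kernel

theorem f_3439 (h : TabsF) : FrameF repsF 351 F_3439.f :=
  frame_of rfl c_3439 (runs_of engOK r_3439_0) (by decide +kernel) h.1 h.1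

def F_3440 : FrX :=
  ⟨0x80080a000804040e00002101002001000002040881200008050100100002208030820001101000020810000101110001070012040400940204001081000,
    0xa6, 1, 0x3251758296a8, 6,
    [(0xa6, 1), (0x205396a8, 4), (0x10548796, 4), (0x214396a7, 4), (0x205396a8, 4), (0x10548796, 4)],
    [(0x3251758296a8, 6), (0x637280a9, 4), (0x506374a1, 4), (0x42638591, 4), (0x637280a9, 4), (0x506374a1, 4)]⟩

def c_3440 : frmChk tA tA F_3440 = true := by decide +kernel

def r_3440_0 : chkL rootF engF2 tA tA sA_351 sA_351 4 F_3440 [(511, 0, 0)]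
    0x52a06d49 = true := by
  decide +kernel

theorem f_3440 (h : TabsF) : FrameF repsF 351 F_3440.f :=
  frame_of rfl c_3440 (runs_of engOK r_3440_0) (by decide +kernel) h.1 h.1

def F_3441 : FrX :=
  ⟨0x482000044040440000c2040020009000182040002080820000900280040090004022010020010803100840600010002040020108040120108010202001,
    0xa0, 1, 0x10215060758292a3, 8,
    [(0xa0, 1), (0x538690a2, 4), (0x548790a1, 4), (0x21437690, 4), (0x538690a2, 4), (0x548790a1, 4)],
    [(0x10215060758292a3, 8), (0x407196a5, 4), (0x51627483, 4), (0x547183a0, 4), (0x51627483, 4), (0x547092a1, 4), (0x508396a4, 4), (0x547183a0, 4), (0x508396a4, 4), (0x416275a0, 4), (0x547183a0, 4), (0x547092a1, 4)]⟩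

def c_3441 : frmChk tA tB F_3441 = true := by decide +kernel

def r_3441_0 : chkL rootF engF2 tA tB sA_351 sB_351 4 F_3441 [(511, 0, 0)]
    0x1 = true := by
  decide +kernel

theorem f_3441 (h : TabsF) : FrameF repsF 351 F_3441.f :=
  frame_of rfl c_3441 (runs_of engOK r_3441_0) (by decide +kernel) h.1 h.2

def F_3442 : FrX :=
  ⟨0x482000044040440000c2040020009000182040020002020800100208084884004080000028010409000041002010082040004180040404018404202001,
    0xa0, 1, 0x3143527595a3, 6,
    [(0xa0, 1), (0x538690a2, 4), (0x548790a1, 4), (0x21437690, 4), (0x538690a2, 4), (0x548790a1, 4)],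
    [(0x3143527595a3, 6), (0x508192a6, 4), (0x30627491, 4), (0x617492a8, 4), (0x30627491, 4), (0x536198a2, 4), (0x507486a1, 4), (0x617492a8, 4), (0x507486a1, 4), (0x213096a8, 4), (0x617492a8, 4), (0x536198a2, 4)]⟩

def c_3442 : frmChk tA tB F_3442 = true := by decide +kernel

def r_3442_0 : chkL rootF engF2 tA tB sA_351 sB_351 4 F_3442 [(511, 0, 0)]
    0x42b = true := by
  decide +kernel

theorem f_3442 (h : TabsF) : FrameF repsF 351 F_3442.f :=
  frame_of rfl c_3442 (runs_of engOK r_3442_0) (by decide +kernel) h.1 h.2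

def F_3443 : FrX :=
  ⟨0x482000044040440000c2040020009000182040020002080100100208080424004012000081040220800020808020040201011002148300001080800082,
    0xa0, 1, 0x213150617297a5, 7,
    [(0xa0, 1), (0x538690a2, 4), (0x548790a1, 4), (0x21437690, 4), (0x538690a2, 4), (0x548790a1, 4)],
    [(0x213150617297a5, 7), (0x107583a2, 4), (0x106598a4, 4), (0x10427693, 4), (0x107583a2, 4), (0x106598a4, 4)]⟩

def c_3443 : frmChk tA tA F_3443 = true := by decide +kernel

def r_3443_0 : chkL rootF engF2 tA tA sA_351 sA_351 4 F_3443 [(511, 0, 0)]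
    0x46a25487299a168a43b041d90c1d06c870ac0f = true := by
  decide +kernel

theorem f_3443 (h : TabsF) : FrameF repsF 351 F_3443.f :=
  frame_of rfl c_3443 (runs_of engOK r_3443_0) (by decide +kernel) h.1 h.1

def F_3444 : FrX :=
  ⟨0x1c2102000004044000002041000101000082040888081000001020400400102000604040880026000090004128410400049088002000820242010200000,
    0x0, 0, 0x4376, 2,
    [(0x0, 0), (0x205386a9, 4), (0x105487a9, 4), (0x214376a9, 4), (0x205386a9, 4), (0x105487a9, 4)],
    [(0x4376, 2), (0x20657483, 4), (0x105376a9, 4), (0x657384a9, 4), (0x105376a9, 4), (0x21647385, 4), (0x204387a9, 4), (0x657384a9, 4), (0x204387a9, 4), (0x10637584, 4), (0x657384a9, 4), (0x21647385, 4)]⟩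

def c_3444 : frmChk tA tB F_3444 = true := by decide +kernel

def r_3444_0 : chkL rootF engF2 tA tB sA_351 sB_351 4 F_3444 [(511, 0, 0)]
    0x1 = true := by
  decide +kernel

theorem f_3444 (h : TabsF) : FrameF repsF 351 F_3444.f :=
  frame_of rfl c_3444 (runs_of engOK r_3444_0) (by decide +kernel) h.1 h.2

def F_3445 : FrX :=
  ⟨0x482000044040440000c2040020009000182040020000882009020080020102800400040201810210880021000208402240008008200100100022200084,
    0xa0, 1, 0x214150708390a3, 7,
    [(0xa0, 1), (0x538690a2, 4), (0x548790a1, 4), (0x21437690, 4), (0x538690a2, 4), (0x548790a1, 4)],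
    [(0x214150708390a3, 7), (0x325091a6, 4), (0x20658794, 4), (0x506287a3, 4), (0x20658794, 4), (0x304162a5, 4), (0x638791a2, 4), (0x506287a3, 4), (0x638791a2, 4), (0x526094a3, 4), (0x506287a3, 4), (0x304162a5, 4)]⟩

def c_3445 : frmChk tA tB F_3445 = true := by decide +kernel

def r_3445_0 : chkL rootF engF2 tA tB sA_351 sB_351 4 F_3445 [(511, 0, 0)]
    0x103e83a0f81a8781c87a025907 = true := by
  decide +kernel

theorem f_3445 (h : TabsF) : FrameF repsF 351 F_3445.f :=
  frame_of rfl c_3445 (runs_of engOK r_3445_0) (by decide +kernel) h.1 h.2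

def F_3446 : FrX :=
  ⟨0x80080a000804040e000021010020010000020408804241004200084000140000300204100400802008008002111110020400080204010210008a0208010,
    0xa6, 1, 0x4052617587a2, 6,
    [(0xa6, 1), (0x205396a8, 4), (0x10548796, 4), (0x214396a7, 4), (0x205396a8, 4), (0x10548796, 4)],
    [(0x4052617587a2, 6), (0x203187a4, 4), (0x64708195, 4), (0x10328795, 4), (0x64708195, 4), (0x107283a6, 4), (0x213095a4, 4), (0x10328795, 4), (0x213095a4, 4), (0x32647180, 4), (0x10328795, 4), (0x107283a6, 4)]⟩

def c_3446 : frmChk tA tB F_3446 = true := by decide +kernel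

def r_3446_0 : chkL rootF engF2 tA tB sA_351 sB_351 4 F_3446 [(511, 0, 0)]
    0x1 = true := by
  decide +kernel

theorem f_3446 (h : TabsF) : FrameF repsF 351 F_3446.f :=
  frame_of rfl c_3446 (runs_of engOK r_3446_0) (by decide +kernel) h.1 h.2

def F_3447 : FrX :=
  ⟨0x2002000900044004000e0204100014100080004081000001810100410104004202000122002208004088028100004080108400004048080030008000a084,
    0xa3, 1, 0x3042738691a4, 6,
    [(0xa3, 1), (0x208693a5, 4), (0x10548793, 4), (0x217693a4, 4), (0x208693a5, 4), (0x10548793, 4)],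
    [(0x3042738691a4, 6), (0x435087a6, 4), (0x218093a5, 4), (0x215076a8, 4), (0x218093a5, 4), (0x657094a8, 4), (0x214386a7, 4), (0x215076a8, 4), (0x214386a7, 4), (0x768593a0, 4), (0x215076a8, 4), (0x657094a8, 4)]⟩

def c_3447 : frmChk tA tB F_3447 = true := by decide +kernel

def r_3447_0 : chkL rootF engF2 tA tB sA_351 sB_351 4 F_3447 [(511, 0, 0)]
    0x40f03e3203c170ac1d03c17 = true := by
  decide +kernel

theorem f_3447 (h : TabsF) : FrameF repsF 351 F_3447.f :=
  frame_of rfl c_3447 (runs_of engOK r_3447_0) (by decide +kernel) h.1 h.2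

def F_3448 : FrX :=
  ⟨0x600020801080810000c0040180410101001004010020100400141400114004000000504000830208002110201010200302081000100010014001011020,
    0xa0, 1, 0x3054738292a6, 6,
    [(0xa0, 1), (0x637584a2, 4), (0x547690a1, 4), (0x64758390, 4), (0x547690a1, 4), (0x21647385, 4), (0x438690a2, 4), (0x64758390, 4), (0x438690a2, 4), (0x657483a1, 4), (0x64758390, 4), (0x21647385, 4)],
    [(0x3054738292a6, 6), (0x405293a7, 4), (0x315486a0, 4), (0x407286a5, 4), (0x315486a0, 4), (0x427091a5, 4), (0x758693a2, 4), (0x407286a5, 4), (0x758693a2, 4), (0x315072a4, 4), (0x407286a5, 4), (0x427091a5, 4)]⟩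

def c_3448 : frmChk tB tB F_3448 = true := by decide +kernel

def r_3448_0 : chkL rootF engF2 tB tB sB_351 sB_351 4 F_3448 [(511, 0, 0)]
    0x45655017 = true := by
  decide +kernel

theorem f_3448 (h : TabsF) : FrameF repsF 351 F_3448.f :=
  frame_of rfl c_3448 (runs_of engOK r_3448_0) (by decide +kernel) h.2 h.2

theorem cl_351 (h : TabsF) : ∀ f ∈ fr_351, FrameF repsF 351 f :=
  List.forall_mem_cons.2 ⟨f_3421 h, List.forall_mem_cons.2 ⟨f_3422 h, List.forall_mem_cons.2 ⟨f_3423 h, List.forall_mem_cons.2 ⟨f_3424 h, List.forall_mem_cons.2 ⟨f_3425 h, List.forall_mem_cons.2 ⟨f_3426 h, List.forall_mem_cons.2 ⟨f_3427 h, List.forall_mem_cons.2 ⟨f_3428 h, List.forall_mem_cons.2 ⟨f_3429 h, List.forall_mem_cons.2 ⟨f_3430 h, List.forall_mem_cons.2 ⟨f_3431 h, List.forall_mem_cons.2 ⟨f_3432 h, List.forall_mem_cons.2 ⟨f_3433 h, List.forall_mem_cons.2 ⟨f_3434 h, List.forall_mem_cons.2 ⟨f_3435 h, List.forall_mem_cons.2 ⟨f_3436 h, List.forall_mem_cons.2 ⟨f_3437 h, List.forall_mem_cons.2 ⟨f_3438 h, List.forall_mem_cons.2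 ⟨f_3439 h, List.forall_mem_cons.2 ⟨f_3440 h, List.forall_mem_cons.2 ⟨f_3441 h, List.forall_mem_cons.2 ⟨f_3442 h, List.forall_mem_cons.2 ⟨f_3443 h, List.forall_mem_cons.2 ⟨f_3444 h, List.forall_mem_cons.2 ⟨f_3445 h, List.forall_mem_cons.2 ⟨f_3446 h, List.forall_mem_cons.2 ⟨f_3447 h, List.forall_mem_cons.2 ⟨f_3448 h,
    fun _ h0 => absurd h0 List.not_mem_nil⟩⟩⟩⟩⟩⟩⟩⟩⟩⟩⟩⟩⟩⟩⟩⟩⟩⟩⟩⟩⟩⟩⟩⟩⟩⟩⟩⟩

def F_3449 : FrX :=
  ⟨0x2002000900044004000e0204100014100080004081000008110080240101040202002402508400800a000804800000800088200006080800040880224040,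
    0xa3, 1, 0x203262708195a8, 7,
    [(0xa3, 1), (0x208693a5, 4), (0x10548793, 4), (0x217693a4, 4), (0x208693a5, 4), (0x10548793, 4)],
    [(0x203262708195a8, 7), (0x517690a3, 4), (0x518794a2, 4), (0x32405186, 4), (0x517690a3, 4), (0x518794a2, 4)]⟩

def c_3449 : frmChk tA tA F_3449 = true := by decide +kernel

def r_3449_0 : chkL rootF engF2 tA tA sA_352 sA_352 4 F_3449 [(511, 0, 0)]
    0x10cc33 = true := by
  decide +kernel

theorem f_3449 (h : TabsF) : FrameF repsF 352 F_3449.f :=
  frame_of rfl c_3449 (runs_of engOK r_3449_0) (by decide +kernel) h.1 h.1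

def F_3450 : FrX :=
  ⟨0x482000044040440000c2040020009000182040001100408004020200000890028210021984000002000100880200800011001080490082002020200404,
    0xa0, 1, 0x21304253748295a6, 8,
    [(0xa0, 1), (0x538690a2, 4), (0x548790a1, 4), (0x21437690, 4), (0x538690a2, 4), (0x548790a1, 4)],
    [(0x21304253748295a6, 8), (0x608395a4, 4), (0x32416097, 4), (0x607582a1, 4), (0x608395a4, 4), (0x32416097, 4)]⟩

def c_3450 : frmChk tA tA F_3450 = true := by decide +kernel

def r_3450_0 : chkL rootF engF2 tA tA sA_352 sA_352 4 F_3450 [(511, 0, 0)]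
    0x10741d1941d0741d0d8a5 = true := by
  decide +kernel

theorem f_3450 (h : TabsF) : FrameF repsF 352 F_3450.f :=
  frame_of rfl c_3450 (runs_of engOK r_3450_0) (by decide +kernel) h.1 h.1

def F_3451 : FrX :=
  ⟨0x482000044040440000c2040020009000182040020091040000200084040041010802030000030500000200508000009280090140050020004200010082,
    0xa0, 1, 0x10415365768296a6, 8,
    [(0xa0, 1), (0x538690a2, 4), (0x548790a1, 4), (0x21437690, 4), (0x538690a2, 4), (0x548790a1, 4)],
    [(0x10415365768296a6, 8), (0x658197a2, 4), (0x32416097, 4), (0x508497a3, 4), (0x658197a2, 4), (0x32416097, 4)]⟩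

def c_3451 : frmChk tA tA F_3451 = true := by decide +kernel

def r_3451_0 : chkL rootF engF2 tA tA sA_352 sA_352 4 F_3451 [(511, 0, 0)]
    0x1c0d0b2649c0cc0f = true := by
  decide +kernel

theorem f_3451 (h : TabsF) : FrameF repsF 352 F_3451.f :=
  frame_of rfl c_3451 (runs_of engOK r_3451_0) (by decide +kernel) h.1 h.1

def F_3452 : FrX :=
  ⟨0x482000044040440000c2040020009000182040010020082000800810014004804400100802083200001051002001802084000204000504010900000050,
    0xa0, 1, 0x215060718294a3, 7,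
    [(0xa0, 1), (0x538690a2, 4), (0x548790a1, 4), (0x21437690, 4), (0x538690a2, 4), (0x548790a1, 4)],
    [(0x215060718294a3, 7), (0x435186a0, 4), (0x21437690, 4), (0x435287a9, 4), (0x435186a0, 4), (0x21437690, 4)]⟩

def c_3452 : frmChk tA tA F_3452 = true := by decide +kernel

def r_3452_0 : chkL rootF engF2 tA tA sA_352 sA_352 4 F_3452 [(511, 0, 0)]
    0x128c53 = true := by
  decide +kernel

theorem f_3452 (h : TabsF) : FrameF repsF 352 F_3452.f :=
  frame_of rfl c_3452 (runs_of engOK r_3452_0) (by decide +kernel) h.1 h.1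

def F_3453 : FrX :=
  ⟨0x80080a000804040e00002101002001000002040890020002220088100014001041000054800010800830000128012000020050041000121004040600200,
    0xa6, 1, 0x3154718090a6, 6,
    [(0xa6, 1), (0x205396a8, 4), (0x10548796, 4), (0x214396a7, 4), (0x205396a8, 4), (0x10548796, 4)],
    [(0x3154718090a6, 6), (0x435092a1, 4), (0x548697a3, 4), (0x104386a5, 4), (0x548697a3, 4), (0x314072a5, 4), (0x518692a0, 4), (0x104386a5, 4), (0x518692a0, 4), (0x105397a4, 4), (0x104386a5, 4), (0x314072a5, 4)]⟩

def c_3453 : frmChk tA tB F_3453 = true := by decide +kernel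

def r_3453_0 : chkL rootF engF2 tA tB sA_352 sB_352 4 F_3453 [(511, 0, 0)]
    0x10d417438aa31836 = true := by
  decide +kernel

theorem f_3453 (h : TabsF) : FrameF repsF 352 F_3453.f :=
  frame_of rfl c_3453 (runs_of engOK r_3453_0) (by decide +kernel) h.1 h.2

def F_3454 : FrX :=
  ⟨0x2002000900044004000e02041000141000800040801000418001400100820800100101120122001240040011000400801004002040501000304104011000,
    0xa3, 1, 0x104061708297a6, 7,
    [(0xa3, 1), (0x208693a5, 4), (0x10548793, 4), (0x217693a4, 4), (0x208693a5, 4), (0x10548793, 4)],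
    [(0x104061708297a6, 7), (0x405387a2, 4), (0x40517692, 4), (0x314086a9, 4), (0x405387a2, 4), (0x40517692, 4)]⟩

def c_3454 : frmChk tA tA F_3454 = true := by decide +kernel

def r_3454_0 : chkL rootF engF2 tA tA sA_352 sA_352 4 F_3454 [(511, 0, 0)]
    0x10f047 = true := by
  decide +kernel

theorem f_3454 (h : TabsF) : FrameF repsF 352 F_3454.f :=
  frame_of rfl c_3454 (runs_of engOK r_3454_0) (by decide +kernel) h.1 h.1

def F_3455 : FrX :=
  ⟨0x2002000900044004000e02041000141000800040820040224000400209008080040202010900010400820202020008042001811000840020002210008210,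
    0xa3, 1, 0x3041517182a1, 6,
    [(0xa3, 1), (0x208693a5, 4), (0x10548793, 4), (0x217693a4, 4), (0x208693a5, 4), (0x10548793, 4)],
    [(0x3041517182a1, 6), (0x21546083, 4), (0x416597a3, 4), (0x20546197, 4), (0x416597a3, 4), (0x425061a8, 4), (0x10628397, 4), (0x20546197, 4), (0x10628397, 4), (0x205164a3, 4), (0x20546197, 4), (0x425061a8, 4)]⟩

def c_3455 : frmChk tA tB F_3455 = true := by decide +kernel

def r_3455_0 : chkL rootF engF2 tA tB sA_352 sB_352 4 F_3455 [(511, 0, 0)]
    0x42714c53e098c = true := by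
  decide +kernel

theorem f_3455 (h : TabsF) : FrameF repsF 352 F_3455.f :=
  frame_of rfl c_3455 (runs_of engOK r_3455_0) (by decide +kernel) h.1 h.2

def F_3456 : FrX :=
  ⟨0x2002000900044004000e0204100014100080004080080101401008010100018200820400402400101004001200041000028000802a0808081002040a0042,
    0xa3, 1, 0x104350608098a2, 7,
    [(0xa3, 1), (0x208693a5, 4), (0x10548793, 4), (0x217693a4, 4), (0x208693a5, 4), (0x10548793, 4)],
    [(0x104350608098a2, 7), (0x416295a8, 4), (0x31628097, 4), (0x436275a0, 4), (0x416295a8, 4), (0x31628097, 4)]⟩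

def c_3456 : frmChk tA tA F_3456 = true := by decide +kernel

def r_3456_0 : chkL rootF engF2 tA tA sA_352 sA_352 4 F_3456 [(511, 0, 0)]
    0x40f = true := by
  decide +kernel

theorem f_3456 (h : TabsF) : FrameF repsF 352 F_3456.f :=
  frame_of rfl c_3456 (runs_of engOK r_3456_0) (by decide +kernel) h.1 h.1

def F_3457 : FrX :=
  ⟨0x80080a000804040e000021010020010000020408900200014100008088010040050c0010000031000028000828001802024002004000202464080820020,
    0xa6, 1, 0x103241627397a5, 7,
    [(0xa6, 1), (0x205396a8, 4), (0x10548796, 4), (0x214396a7, 4), (0x205396a8, 4), (0x10548796, 4)],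
    [(0x103241627397a5, 7), (0x526183a7, 4), (0x415298a0, 4), (0x52647093, 4), (0x526183a7, 4), (0x415298a0, 4)]⟩

def c_3457 : frmChk tA tA F_3457 = true := by decide +kernel

def r_3457_0 : chkL rootF engF2 tA tA sA_352 sA_352 4 F_3457 [(511, 0, 0)]
    0x118ca6 = true := by
  decide +kernel

theorem f_3457 (h : TabsF) : FrameF repsF 352 F_3457.f :=
  frame_of rfl c_3457 (runs_of engOK r_3457_0) (by decide +kernel) h.1 h.1

def F_3458 : FrX :=
  ⟨0x1c210200000404400000204100010100008204089008008000080240080008400440411000003040002014082800801010008202085002220a010200001,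
    0x0, 0, 0x216475, 3,
    [(0x0, 0), (0x205386a9, 4), (0x105487a9, 4), (0x214376a9, 4), (0x205386a9, 4), (0x105487a9, 4)],
    [(0x216475, 3), (0x107384a9, 4), (0x207685a9, 4), (0x215463a9, 4), (0x107384a9, 4), (0x207685a9, 4)]⟩

def c_3458 : frmChk tA tA F_3458 = true := by decide +kernel

def r_3458_0 : chkL rootF engF2 tA tA sA_352 sA_352 4 F_3458 [(511, 0, 0)]
    0x417 = true := by
  decide +kernel

theorem f_3458 (h : TabsF) : FrameF repsF 352 F_3458.f :=
  frame_of rfl c_3458 (runs_of engOK r_3458_0) (by decide +kernel) h.1 h.1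

def F_3459 : FrX :=
  ⟨0x482000044040440000c2040020009000182040010020082001000180080102808050000804041010000030408020040094008000401082810200240084,
    0xa0, 1, 0x315361748795a3, 7,
    [(0xa0, 1), (0x538690a2, 4), (0x548790a1, 4), (0x21437690, 4), (0x538690a2, 4), (0x548790a1, 4)],
    [(0x315361748795a3, 7), (0x207498a3, 4), (0x51608397, 4), (0x517398a4, 4), (0x51608397, 4), (0x627394a8, 4), (0x204351a7, 4), (0x517398a4, 4), (0x204351a7, 4), (0x608793a4, 4), (0x517398a4, 4), (0x627394a8, 4)]⟩

def c_3459 : frmChk tA tB F_3459 = true := by decide +kernel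

def r_3459_0 : chkL rootF engF2 tA tB sA_352 sB_352 4 F_3459 [(511, 0, 0)]
    0x40f = true := by
  decide +kernel

theorem f_3459 (h : TabsF) : FrameF repsF 352 F_3459.f :=
  frame_of rfl c_3459 (runs_of engOK r_3459_0) (by decide +kernel) h.1 h.2

def F_3460 : FrX :=
  ⟨0x1c21020000040440000020410001010000820408a00011000004001102021000082140000240410100400100884104002008080280900080042240a0002,
    0x0, 0, 0x206483, 3,
    [(0x0, 0), (0x205386a9, 4), (0x105487a9, 4), (0x214376a9, 4), (0x205386a9, 4), (0x105487a9, 4)],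
    [(0x206483, 3), (0x204385a9, 4), (0x216573a9, 4), (0x107486a9, 4), (0x204385a9, 4), (0x216573a9, 4)]⟩

def c_3460 : frmChk tA tA F_3460 = true := by decide +kernel

def r_3460_0 : chkL rootF engF2 tA tA sA_352 sA_352 4 F_3460 [(511, 0, 0)]
    0x1 = true := by
  decide +kernel

theorem f_3460 (h : TabsF) : FrameF repsF 352 F_3460.f :=
  frame_of rfl c_3460 (runs_of engOK r_3460_0) (by decide +kernel) h.1 h.1

def F_3461 : FrX :=
  ⟨0x2002000900044004000e02041000141000800040800400484001204000810881000004110100010404020100820020801000081084004000424248011020,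
    0xa3, 1, 0x214252638097a4, 7,
    [(0xa3, 1), (0x208693a5, 4), (0x10548793, 4), (0x217693a4, 4), (0x208693a5, 4), (0x10548793, 4)],
    [(0x214252638097a4, 7), (0x638594a0, 4), (0x718293a4, 4), (0x607194a3, 4), (0x718293a4, 4), (0x405296a3, 4), (0x307185a6, 4), (0x607194a3, 4), (0x307185a6, 4), (0x436082a9, 4), (0x607194a3, 4), (0x405296a3, 4)]⟩

def c_3461 : frmChk tA tB F_3461 = true := by decide +kernel

def r_3461_0 : chkL rootF engF2 tA tB sA_352 sB_352 4 F_3461 [(511, 0, 0)]
    0x45a4350e298538e071 = true := by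
  decide +kernel

theorem f_3461 (h : TabsF) : FrameF repsF 352 F_3461.f :=
  frame_of rfl c_3461 (runs_of engOK r_3461_0) (by decide +kernel) h.1 h.2

def F_3462 : FrX :=
  ⟨0x482000044040440000c2040020009000182040000842040008020080010048010404084081000180080024108420000208011018008804040104000041,
    0xa0, 1, 0x104293a0, 4,
    [(0xa0, 1), (0x538690a2, 4), (0x548790a1, 4), (0x21437690, 4), (0x538690a2, 4), (0x548790a1, 4)],
    [(0x104293a0, 4), (0x318695a4, 4), (0x315287a0, 4), (0x31407692, 4), (0x318695a4, 4), (0x315287a0, 4)]⟩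

def c_3462 : frmChk tA tA F_3462 = true := by decide +kernel

def r_3462_0 : chkL rootF engF2 tA tA sA_352 sA_352 4 F_3462 [(511, 0, 0)]
    0x41d0e4330d42b = true := by
  decide +kernel

theorem f_3462 (h : TabsF) : FrameF repsF 352 F_3462.f :=
  frame_of rfl c_3462 (runs_of engOK r_3462_0) (by decide +kernel) h.1 h.1

def F_3463 : FrX :=
  ⟨0x80080a000804040e00002101002001000002040884011000084024000480002000113020008405120001000802200108100100041000801100840580400,
    0xa6, 1, 0x213143628495a6, 7,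
    [(0xa6, 1), (0x205396a8, 4), (0x10548796, 4), (0x214396a7, 4), (0x205396a8, 4), (0x10548796, 4)],
    [(0x213143628495a6, 7), (0x516094a2, 4), (0x30517298, 4), (0x516384a7, 4), (0x516094a2, 4), (0x30517298, 4)]⟩

def c_3463 : frmChk tA tA F_3463 = true := by decide +kernel

def r_3463_0 : chkL rootF engF2 tA tA sA_352 sA_352 4 F_3463 [(511, 0, 0)]
    0x40f0b82e03c4711c17 = true := by
  decide +kernel

theorem f_3463 (h : TabsF) : FrameF repsF 352 F_3463.f :=
  frame_of rfl c_3463 (runs_of engOK r_3463_0) (by decide +kernel) h.1 h.1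

def F_3464 : FrX :=
  ⟨0x2002000900044004000e0204100014100080004080800100112000020800a20210020200420040422410000888000010804022000220100000082220040c,
    0xa3, 1, 0x3142536092a6, 6,
    [(0xa3, 1), (0x208693a5, 4), (0x10548793, 4), (0x217693a4, 4), (0x208693a5, 4), (0x10548793, 4)],
    [(0x3142536092a6, 6), (0x718296a5, 4), (0x214063a7, 4), (0x407185a2, 4), (0x214063a7, 4), (0x758193a2, 4), (0x405296a8, 4), (0x407185a2, 4), (0x405296a8, 4), (0x637285a1, 4), (0x407185a2, 4), (0x758193a2, 4)]⟩

def c_3464 : frmChk tA tB F_3464 = true := by decide +kernel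

def r_3464_0 : chkL rootF engF2 tA tB sA_352 sB_352 4 F_3464 [(511, 0, 0)]
    0x40f8a81e05c0f = true := by
  decide +kernel

theorem f_3464 (h : TabsF) : FrameF repsF 352 F_3464.f :=
  frame_of rfl c_3464 (runs_of engOK r_3464_0) (by decide +kernel) h.1 h.2

def F_3465 : FrX :=
  ⟨0x2002000900044004000e02041000141000800040800802010810020400200948000044000908082004082009000410002040008020401020200080214180,
    0xa3, 1, 0x213042758593a8, 7,
    [(0xa3, 1), (0x208693a5, 4), (0x10548793, 4), (0x217693a4, 4), (0x208693a5, 4), (0x10548793, 4)],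
    [(0x213042758593a8, 7), (0x437098a6, 4), (0x327081a5, 4), (0x42657091, 4), (0x437098a6, 4), (0x327081a5, 4)]⟩

def c_3465 : frmChk tA tA F_3465 = true := by decide +kernel

def r_3465_0 : chkL rootF engF2 tA tA sA_352 sA_352 4 F_3465 [(511, 0, 0)]
    0x11b02703c1e = true := by
  decide +kernel

theorem f_3465 (h : TabsF) : FrameF repsF 352 F_3465.f :=
  frame_of rfl c_3465 (runs_of engOK r_3465_0) (by decide +kernel) h.1 h.1

def F_3466 : FrX :=
  ⟨0x80080a000804040e000021010020010000020408900112040080040204400020004040408080110200010008021881001004800840000a0444040600040,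
    0xa6, 1, 0x3243748196a6, 6,
    [(0xa6, 1), (0x205396a8, 4), (0x10548796, 4), (0x214396a7, 4), (0x205396a8, 4), (0x10548796, 4)],
    [(0x3243748196a6, 6), (0x305271a4, 4), (0x758096a2, 4), (0x415296a7, 4), (0x758096a2, 4), (0x425183a7, 4), (0x307496a1, 4), (0x415296a7, 4), (0x307496a1, 4), (0x417280a5, 4), (0x415296a7, 4), (0x425183a7, 4)]⟩

def c_3466 : frmChk tA tB F_3466 = true := by decide +kernel

def r_3466_0 : chkL rootF engF2 tA tB sA_352 sB_352 4 F_3466 [(511, 0, 0)]
    0x41e5440f5440f14c2d14c2e5615103d585448b14c2e3850e14d515444b5448d0b41d0741b12c0f03c5314c1e3840f = true := by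
  decide +kernel

theorem f_3466 (h : TabsF) : FrameF repsF 352 F_3466.f :=
  frame_of rfl c_3466 (runs_of engOK r_3466_0) (by decide +kernel) h.1 h.2

def F_3467 : FrX :=
  ⟨0x80080a000804040e00002101002001000002040881011001004030002002000010122420002020080048240058000108024002040490081004080020800,
    0xa6, 1, 0x213163748790a8, 7,
    [(0xa6, 1), (0x205396a8, 4), (0x10548796, 4), (0x214396a7, 4), (0x205396a8, 4), (0x10548796, 4)],
    [(0x213163748790a8, 7), (0x406591a2, 4), (0x407593a8, 4), (0x31407682, 4), (0x406591a2, 4), (0x407593a8, 4)]⟩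

def c_3467 : frmChk tA tA F_3467 = true := by decide +kernel

def r_3467_0 : chkL rootF engF2 tA tA sA_352 sA_352 4 F_3467 [(511, 0, 0)]
    0x103cc9 = true := by
  decide +kernel

theorem f_3467 (h : TabsF) : FrameF repsF 352 F_3467.f :=
  frame_of rfl c_3467 (runs_of engOK r_3467_0) (by decide +kernel) h.1 h.1

def F_3468 : FrX :=
  ⟨0x2002000900044004000e0204100014100080004080040108442000420000c0821000001040820002800401000540001081002010805080040010040c1800,
    0xa3, 1, 0x4050627687a3, 6,
    [(0xa3, 1), (0x208693a5, 4), (0x10548793, 4), (0x217693a4, 4), (0x208693a5, 4), (0x10548793, 4)],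
    [(0x4050627687a3, 6), (0x206584a7, 4), (0x40518793, 4), (0x708493a2, 4), (0x40518793, 4), (0x426170a8, 4), (0x657293a0, 4), (0x708493a2, 4), (0x657293a0, 4), (0x517480a2, 4), (0x708493a2, 4), (0x426170a8, 4)]⟩

def c_3468 : frmChk tA tB F_3468 = true := by decide +kernel

def r_3468_0 : chkL rootF engF2 tA tB sA_352 sB_352 4 F_3468 [(511, 0, 0)]
    0x4271582e1984718e83 = true := by
  decide +kernel

theorem f_3468 (h : TabsF) : FrameF repsF 352 F_3468.f :=
  frame_of rfl c_3468 (runs_of engOK r_3468_0) (by decide +kernel) h.1 h.2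

def F_3469 : FrX :=
  ⟨0x482000044040440000c2040020009000182040020000882000100110014510004020000024042000882800400910400240008280000920000010200124,
    0xa0, 1, 0x214253748498a5, 7,
    [(0xa0, 1), (0x538690a2, 4), (0x548790a1, 4), (0x21437690, 4), (0x538690a2, 4), (0x548790a1, 4)],
    [(0x214253748498a5, 7), (0x407396a5, 4), (0x207391a8, 4), (0x42617385, 4), (0x407396a5, 4), (0x207391a8, 4)]⟩

def c_3469 : frmChk tA tA F_3469 = true := by decide +kernel

def r_3469_0 : chkL rootF engF2 tA tA sA_352 sA_352 4 F_3469 [(511, 0, 0)]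
    0x114c390ce23 = true := by
  decide +kernel

theorem f_3469 (h : TabsF) : FrameF repsF 352 F_3469.f :=
  frame_of rfl c_3469 (runs_of engOK r_3469_0) (by decide +kernel) h.1 h.1

def F_3470 : FrX :=
  ⟨0x80080a000804040e0000210100200100000204088120000141002080000220404088004440000408018a200028002008004011011010104200080050004,
    0xa6, 1, 0x3050627091a5, 6,
    [(0xa6, 1), (0x205396a8, 4), (0x10548796, 4), (0x214396a7, 4), (0x205396a8, 4), (0x10548796, 4)],
    [(0x3050627091a5, 6), (0x207684a5, 4), (0x315297a4, 4), (0x314280a5, 4), (0x315297a4, 4), (0x425096a8, 4), (0x31407682, 4), (0x314280a5, 4), (0x31407682, 4), (0x548097a2, 4), (0x314280a5, 4), (0x425096a8, 4)]⟩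

def c_3470 : frmChk tA tB F_3470 = true := by decide +kernel

def r_3470_0 : chkL rootF engF2 tA tB sA_352 sB_352 4 F_3470 [(511, 0, 0)]
    0x42ba483c0f0351340f1940f05c1715847 = true := by
  decide +kernel

theorem f_3470 (h : TabsF) : FrameF repsF 352 F_3470.f :=
  frame_of rfl c_3470 (runs_of engOK r_3470_0) (by decide +kernel) h.1 h.2

def F_3471 : FrX :=
  ⟨0x482000044040440000c2040020009000182040001080480004200004010044020404201101000120000400802220008000091090008840005402200082,
    0xa0, 1, 0x40657593a1, 5,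
    [(0xa0, 1), (0x538690a2, 4), (0x548790a1, 4), (0x21437690, 4), (0x538690a2, 4), (0x548790a1, 4)],
    [(0x40657593a1, 5), (0x42768095, 4), (0x316570a4, 4), (0x31507698, 4), (0x316570a4, 4), (0x508796a2, 4), (0x31428590, 4), (0x31507698, 4), (0x31428590, 4), (0x607598a4, 4), (0x31507698, 4), (0x508796a2, 4)]⟩

def c_3471 : frmChk tA tB F_3471 = true := by decide +kernel

def r_3471_0 : chkL rootF engF2 tA tB sA_352 sB_352 4 F_3471 [(511, 0, 0)]
    0x1 = true := by
  decide +kernel

theorem f_3471 (h : TabsF) : FrameF repsF 352 F_3471.f :=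
  frame_of rfl c_3471 (runs_of engOK r_3471_0) (by decide +kernel) h.1 h.2

def F_3472 : FrX :=
  ⟨0x1c21020000040440000020410001010000820408a0001100000400110202100008214000024041010040010088408108004020005080040204122400402,
    0x0, 0, 0x206483, 3,
    [(0x0, 0), (0x205386a9, 4), (0x105487a9, 4), (0x214376a9, 4), (0x205386a9, 4), (0x105487a9, 4)],
    [(0x206483, 3), (0x204385a9, 4), (0x216573a9, 4), (0x107486a9, 4), (0x204385a9, 4), (0x216573a9, 4)]⟩

def c_3472 : frmChk tA tA F_3472 = true := by decide +kernel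

def r_3472_0 : chkL rootF engF2 tA tA sA_352 sA_352 4 F_3472 [(511, 0, 0)]
    0x106c1b03c0f = true := by
  decide +kernel

theorem f_3472 (h : TabsF) : FrameF repsF 352 F_3472.f :=
  frame_of rfl c_3472 (runs_of engOK r_3472_0) (by decide +kernel) h.1 h.1

def F_3473 : FrX :=
  ⟨0x80080a000804040e00002101002001000002040880481000104400400220000008912020004040010050000088400108001120005008440204042800402,
    0xa6, 1, 0x213142657697a4, 7,
    [(0xa6, 1), (0x205396a8, 4), (0x10548796, 4), (0x214396a7, 4), (0x205396a8, 4), (0x10548796, 4)],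
    [(0x213142657697a4, 7), (0x407296a8, 4), (0x305197a6, 4), (0x518296a7, 4), (0x305197a6, 4), (0x438692a7, 4), (0x405187a2, 4), (0x518296a7, 4), (0x405187a2, 4), (0x307682a9, 4), (0x518296a7, 4), (0x438692a7, 4)]⟩

def c_3473 : frmChk tA tB F_3473 = true := by decide +kernel

def r_3473_0 : chkL rootF engF2 tA tB sA_352 sB_352 4 F_3473 [(511, 0, 0)]
    0x11941d0746a07847 = true := by
  decide +kernel

theorem f_3473 (h : TabsF) : FrameF repsF 352 F_3473.f :=
  frame_of rfl c_3473 (runs_of engOK r_3473_0) (by decide +kernel) h.1 h.2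

def F_3474 : FrX :=
  ⟨0x1001040012008080000e0084080041000810100004080804801010010020201000809020408040a00008080450401000081000a00080044040c008240008,
    0xa3, 1, 0x102031507397a0, 7,
    [(0xa3, 1), (0x207584a6, 4), (0x10547693, 4), (0x647593a8, 4), (0x10547693, 4), (0x216485a7, 4), (0x208693a4, 4), (0x647593a8, 4), (0x208693a4, 4), (0x106574a8, 4), (0x647593a8, 4), (0x216485a7, 4)],
    [(0x102031507397a0, 7), (0x507286a1, 4), (0x425098a3, 4), (0x31507496, 4), (0x507286a1, 4), (0x425098a3, 4)]⟩

def c_3474 : frmChk tB tA F_3474 = true := by decide +kernel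

def r_3474_0 : chkL rootF engF2 tB tA sB_352 sA_352 4 F_3474 [(511, 0, 0)]
    0x42d06c8d05c17 = true := by
  decide +kernel

theorem f_3474 (h : TabsF) : FrameF repsF 352 F_3474.f :=
  frame_of rfl c_3474 (runs_of engOK r_3474_0) (by decide +kernel) h.2 h.1

def F_3475 : FrX :=
  ⟨0x1001040012008080000e0084080041000810100004400808011010000420201000804220102008082000288081081000144000501002004000c000210090,
    0xa3, 1, 0x3150748692a3, 6,
    [(0xa3, 1), (0x207584a6, 4), (0x10547693, 4), (0x647593a8, 4), (0x10547693, 4), (0x216485a7, 4), (0x208693a4, 4), (0x647593a8, 4), (0x208693a4, 4), (0x106574a8, 4), (0x647593a8, 4), (0x216485a7, 4)],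
    [(0x3150748692a3, 6), (0x407695a8, 4), (0x21537084, 4), (0x214087a6, 4), (0x21537084, 4), (0x608793a4, 4), (0x218695a7, 4), (0x214087a6, 4), (0x218695a7, 4), (0x537480a6, 4), (0x214087a6, 4), (0x608793a4, 4)]⟩

def c_3475 : frmChk tB tB F_3475 = true := by decide +kernel

def r_3475_0 : chkL rootF engF2 tB tB sB_352 sB_352 4 F_3475 [(511, 0, 0)]
    0x42b03e4ab082b0f02b = true := by
  decide +kernel

theorem f_3475 (h : TabsF) : FrameF repsF 352 F_3475.f :=
  frame_of rfl c_3475 (runs_of engOK r_3475_0) (by decide +kernel) h.2 h.2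

def F_3476 : FrX :=
  ⟨0x2002000900044004000e02041000141000800040810000018100802402002200220200801008008820800404800010840010800204c00200202220101010,
    0xa3, 1, 0x214352728198a3, 7,
    [(0xa3, 1), (0x208693a5, 4), (0x10548793, 4), (0x217693a4, 4), (0x208693a5, 4), (0x10548793, 4)],
    [(0x214352728198a3, 7), (0x517093a6, 4), (0x31426580, 4), (0x425163a9, 4), (0x31426580, 4), (0x638791a5, 4), (0x427096a3, 4), (0x425163a9, 4), (0x427096a3, 4), (0x536180a9, 4), (0x425163a9, 4), (0x638791a5, 4)]⟩

def c_3476 : frmChk tA tB F_3476 = true := by decide +kernel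

def r_3476_0 : chkL rootF engF2 tA tB sA_352 sB_352 4 F_3476 [(511, 0, 0)]
    0x1 = true := by
  decide +kernel

theorem f_3476 (h : TabsF) : FrameF repsF 352 F_3476.f :=
  frame_of rfl c_3476 (runs_of engOK r_3476_0) (by decide +kernel) h.1 h.2

theorem cl_352 (h : TabsF) : ∀ f ∈ fr_352, FrameF repsF 352 f :=
  List.forall_mem_cons.2 ⟨f_3449 h, List.forall_mem_cons.2 ⟨f_3450 h, List.forall_mem_cons.2 ⟨f_3451 h, List.forall_mem_cons.2 ⟨f_3452 h, List.forall_mem_cons.2 ⟨f_3453 h, List.forall_mem_cons.2 ⟨f_3454 h, List.forall_mem_cons.2 ⟨f_3455 h, List.forall_mem_cons.2 ⟨f_3456 h, List.forall_mem_cons.2 ⟨f_3457 h, List.forall_mem_cons.2 ⟨f_3458 h, List.forall_mem_cons.2 ⟨f_3459 h, List.forall_mem_cons.2 ⟨f_3460 h, List.forall_mem_cons.2 ⟨f_3461 h, List.forall_mem_cons.2 ⟨f_3462 h, List.forall_mem_cons.2 ⟨f_3463 h, List.forall_mem_cons.2 ⟨f_3464 h, List.forall_mem_cons.2 ⟨f_3465 h, List.forall_mem_cons.2 ⟨f_3466 h, List.forall_mem_cons.2 ⟨f_3467 h, List.forall_mem_cons.2 ⟨f_3468 h, List.forall_mem_cons.2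 ⟨f_3469 h, List.forall_mem_cons.2 ⟨f_3470 h, List.forall_mem_cons.2 ⟨f_3471 h, List.forall_mem_cons.2 ⟨f_3472 h, List.forall_mem_cons.2 ⟨f_3473 h, List.forall_mem_cons.2 ⟨f_3474 h, List.forall_mem_cons.2 ⟨f_3475 h, List.forall_mem_cons.2 ⟨f_3476 h,
    fun _ h0 => absurd h0 List.not_mem_nil⟩⟩⟩⟩⟩⟩⟩⟩⟩⟩⟩⟩⟩⟩⟩⟩⟩⟩⟩⟩⟩⟩⟩⟩⟩⟩⟩⟩

def F_3477 : FrX :=
  ⟨0x80080a000804040e000021010020010000020408810110010040300004440020000210a000800400a010000044100120442000022002820005011008300,
    0xa6, 1, 0x324250768194a6, 7,
    [(0xa6, 1), (0x205396a8, 4), (0x10548796, 4), (0x214396a7, 4), (0x205396a8, 4), (0x10548796, 4)],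
    [(0x324250768194a6, 7), (0x546091a2, 4), (0x738590a6, 4), (0x216073a9, 4), (0x738590a6, 4), (0x106284a9, 4), (0x547392a1, 4), (0x216073a9, 4), (0x547392a1, 4), (0x218596a0, 4), (0x216073a9, 4), (0x106284a9, 4)]⟩

def c_3477 : frmChk tA tB F_3477 = true := by decide +kernel

def r_3477_0 : chkL rootF engF2 tA tB sA_353 sB_353 4 F_3477 [(511, 0, 0)]
    0x1 = true := by
  decide +kernel

theorem f_3477 (h : TabsF) : FrameF repsF 353 F_3477.f :=
  frame_of rfl c_3477 (runs_of engOK r_3477_0) (by decide +kernel) h.1 h.2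

def F_3478 : FrX :=
  ⟨0x80080a000804040e00002101002001000002040881200002210020800000a48011010000c00040012000800600042c00004000405003000a40104010050,
    0xa6, 1, 0x214264768698a0, 7,
    [(0xa6, 1), (0x205396a8, 4), (0x10548796, 4), (0x214396a7, 4), (0x205396a8, 4), (0x10548796, 4)],
    [(0x214264768698a0, 7), (0x537098a4, 4), (0x657091a2, 4), (0x42637081, 4), (0x537098a4, 4), (0x657091a2, 4)]⟩

def c_3478 : frmChk tA tA F_3478 = true := by decide +kernel

def r_3478_0 : chkL rootF engF2 tA tA sA_353 sA_353 4 F_3478 [(511, 0, 0)]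
    0x41d03c0f = true := by
  decide +kernel

theorem f_3478 (h : TabsF) : FrameF repsF 353 F_3478.f :=
  frame_of rfl c_3478 (runs_of engOK r_3478_0) (by decide +kernel) h.1 h.1

def F_3479 : FrX :=
  ⟨0x2002000900044004000e02041000141000800040800800248010200008200c08000011080888000812000200400060802000200484002100a40202042080,
    0xa3, 1, 0x10324351658496a0, 8,
    [(0xa3, 1), (0x208693a5, 4), (0x10548793, 4), (0x217693a4, 4), (0x208693a5, 4), (0x10548793, 4)],
    [(0x10324351658496a0, 8), (0x106492a3, 4), (0x107286a5, 4), (0x10538497, 4), (0x106492a3, 4), (0x107286a5, 4)]⟩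

def c_3479 : frmChk tA tA F_3479 = true := by decide +kernel

def r_3479_0 : chkL rootF engF2 tA tA sA_353 sA_353 4 F_3479 [(511, 0, 0)]
    0x41b = true := by
  decide +kernel

theorem f_3479 (h : TabsF) : FrameF repsF 353 F_3479.f :=
  frame_of rfl c_3479 (runs_of engOK r_3479_0) (by decide +kernel) h.1 h.1

def F_3480 : FrX :=
  ⟨0x1c2102000004044000002041000101000082040888200008001020400000c08010820080880040012000220600060c00008000405002900a40202000050,
    0x0, 0, 0x546576, 3,
    [(0x0, 0), (0x205386a9, 4), (0x105487a9, 4), (0x214376a9, 4), (0x205386a9, 4), (0x105487a9, 4)],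
    [(0x546576, 3), (0x206387a9, 4), (0x106584a9, 4), (0x215374a9, 4), (0x206387a9, 4), (0x106584a9, 4)]⟩

def c_3480 : frmChk tA tA F_3480 = true := by decide +kernel

def r_3480_0 : chkL rootF engF2 tA tA sA_353 sA_353 4 F_3480 [(255, 0, 0), (256, 0, 10)]
    0x1 = true := by
  decide +kernel

def r_3480_1 : chkL rootF engF2 tA tA sA_353 sA_353 4 F_3480 [(256, 10, 0)]
    0x1 = true := by
  decide +kernel

theorem f_3480 (h : TabsF) : FrameF repsF 353 F_3480.f :=
  frame_of rfl c_3480 ((runs_of engOK r_3480_0).append (runs_of engOK r_3480_1)) (by decide +kernel) h.1 h.1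

def F_3481 : FrX :=
  ⟨0x2002000900044004000e0204100014100080004080080024800840000811040014008100088800088008020001082000210020048400808044004c002401,
    0xa3, 1, 0x10425363708491a3, 8,
    [(0xa3, 1), (0x208693a5, 4), (0x10548793, 4), (0x217693a4, 4), (0x208693a5, 4), (0x10548793, 4)],
    [(0x10425363708491a3, 8), (0x526074a3, 4), (0x21608397, 4), (0x516094a8, 4), (0x526074a3, 4), (0x21608397, 4)]⟩

def c_3481 : frmChk tA tA F_3481 = true := by decide +kernel

def r_3481_0 : chkL rootF engF2 tA tA sA_353 sA_353 4 F_3481 [(511, 0, 0)]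
    0x44b09c8d0b42b41f03 = true := by
  decide +kernel

theorem f_3481 (h : TabsF) : FrameF repsF 353 F_3481.f :=
  frame_of rfl c_3481 (runs_of engOK r_3481_0) (by decide +kernel) h.1 h.1

def F_3482 : FrX :=
  ⟨0x1c2102000004044000002041000101000082040888200008001020400000c0404088004088004008008022021082004018000040500848240000c400410,
    0x0, 0, 0x21536486, 4,
    [(0x0, 0), (0x205386a9, 4), (0x105487a9, 4), (0x214376a9, 4), (0x205386a9, 4), (0x105487a9, 4)],
    [(0x21536486, 4), (0x10647385, 4), (0x206387a9, 4), (0x547386a9, 4), (0x206387a9, 4), (0x21437586, 4), (0x106584a9, 4), (0x547386a9, 4), (0x106584a9, 4), (0x20547683, 4), (0x547386a9, 4), (0x21437586, 4)]⟩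

def c_3482 : frmChk tA tB F_3482 = true := by decide +kernel

def r_3482_0 : chkL rootF engF2 tA tB sA_353 sB_353 4 F_3482 [(255, 0, 0), (256, 0, 10)]
    0x1 = true := by
  decide +kernel

def r_3482_1 : chkL rootF engF2 tA tB sA_353 sB_353 4 F_3482 [(256, 10, 9)]
    0x10742709c17 = true := by
  decide +kernel

def r_3482_2 : chkL rootF engF2 tA tB sA_353 sB_353 4 F_3482 [(256, 19, 0)]
    0x1 = true := by
  decide +kernel

theorem f_3482 (h : TabsF) : FrameF repsF 353 F_3482.f :=
  frame_of rfl c_3482 ((runs_of engOK r_3482_0).append ((runs_of engOK r_3482_1).append (runs_of engOK r_3482_2))) (by decide +kernel) h.1 h.2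

def F_3483 : FrX :=
  ⟨0x482000044040440000c2040020009000182040020001100100040808012101400200400022080220800400084010400240404010210100004020210828,
    0xa0, 1, 0x5061708694a2, 6,
    [(0xa0, 1), (0x538690a2, 4), (0x548790a1, 4), (0x21437690, 4), (0x538690a2, 4), (0x548790a1, 4)],
    [(0x5061708694a2, 6), (0x508391a7, 4), (0x42768590, 4), (0x31425098, 4), (0x42768590, 4), (0x105398a6, 4), (0x428193a7, 4), (0x31425098, 4), (0x428193a7, 4), (0x31768095, 4), (0x31425098, 4), (0x105398a6, 4)]⟩

def c_3483 : frmChk tA tB F_3483 = true := by decide +kernel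

def r_3483_0 : chkL rootF engF2 tA tB sA_353 sB_353 4 F_3483 [(511, 0, 0)]
    0x1 = true := by
  decide +kernel

theorem f_3483 (h : TabsF) : FrameF repsF 353 F_3483.f :=
  frame_of rfl c_3483 (runs_of engOK r_3483_0) (by decide +kernel) h.1 h.2

def F_3484 : FrX :=
  ⟨0x600020801080810000c0040180410101001004000844008800090020121000040010802020120208000400a0022000a008001210b000001008080a1000,
    0xa0, 1, 0x3140617196a6, 6,
    [(0xa0, 1), (0x637584a2, 4), (0x547690a1, 4), (0x64758390, 4), (0x547690a1, 4), (0x21647385, 4), (0x438690a2, 4), (0x64758390, 4), (0x438690a2, 4), (0x657483a1, 4), (0x64758390, 4), (0x21647385, 4)],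
    [(0x3140617196a6, 6), (0x425193a8, 4), (0x50748693, 4), (0x107293a6, 4), (0x425193a8, 4), (0x50748693, 4)]⟩

def c_3484 : frmChk tB tA F_3484 = true := by decide +kernel

def r_3484_0 : chkL rootF engF2 tB tA sB_353 sA_353 4 F_3484 [(511, 0, 0)]
    0x1 = true := by
  decide +kernel

theorem f_3484 (h : TabsF) : FrameF repsF 353 F_3484.f :=
  frame_of rfl c_3484 (runs_of engOK r_3484_0) (by decide +kernel) h.2 h.1

def F_3485 : FrX :=
  ⟨0x600020801080810000c0040180410101001004002100802000104804102202000400100c01460200400102040010400800088000210000408040210049,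
    0xa0, 1, 0x214152608292a3, 7,
    [(0xa0, 1), (0x637584a2, 4), (0x547690a1, 4), (0x64758390, 4), (0x547690a1, 4), (0x21647385, 4), (0x438690a2, 4), (0x64758390, 4), (0x438690a2, 4), (0x657483a1, 4), (0x64758390, 4), (0x21647385, 4)],
    [(0x214152608292a3, 7), (0x508396a1, 4), (0x21647583, 4), (0x708394a2, 4), (0x508396a1, 4), (0x21647583, 4)]⟩

def c_3485 : frmChk tB tA F_3485 = true := by decide +kernel

def r_3485_0 : chkL rootF engF2 tB tA sB_353 sA_353 4 F_3485 [(511, 0, 0)]
    0x109c27 = true := by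
  decide +kernel

theorem f_3485 (h : TabsF) : FrameF repsF 353 F_3485.f :=
  frame_of rfl c_3485 (runs_of engOK r_3485_0) (by decide +kernel) h.2 h.1

def F_3486 : FrX :=
  ⟨0x1001040012008080000e008408004100081010000420101000a060000402080003010800802001086c002400000400202000808808200080022004801140,
    0xa3, 1, 0x304052718494a6, 7,
    [(0xa3, 1), (0x207584a6, 4), (0x10547693, 4), (0x647593a8, 4), (0x10547693, 4), (0x216485a7, 4), (0x208693a4, 4), (0x647593a8, 4), (0x208693a4, 4), (0x106574a8, 4), (0x647593a8, 4), (0x216485a7, 4)],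
    [(0x304052718494a6, 7), (0x205486a3, 4), (0x31748692, 4), (0x758690a1, 4), (0x205486a3, 4), (0x31748692, 4)]⟩

def c_3486 : frmChk tB tA F_3486 = true := by decide +kernel

def r_3486_0 : chkL rootF engF2 tB tA sB_353 sA_353 4 F_3486 [(511, 0, 0)]
    0x41e = true := by
  decide +kernel

theorem f_3486 (h : TabsF) : FrameF repsF 353 F_3486.f :=
  frame_of rfl c_3486 (runs_of engOK r_3486_0) (by decide +kernel) h.2 h.1

def F_3487 : FrX :=
  ⟨0x600020801080810000c004018041010100100401010000e000010048200c04020010002000220100201110a00008440214000400200000420021181001,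
    0xa0, 1, 0x213054738495a5, 7,
    [(0xa0, 1), (0x637584a2, 4), (0x547690a1, 4), (0x64758390, 4), (0x547690a1, 4), (0x21647385, 4), (0x438690a2, 4), (0x64758390, 4), (0x438690a2, 4), (0x657483a1, 4), (0x64758390, 4), (0x21647385, 4)],
    [(0x213054738495a5, 7), (0x316594a7, 4), (0x325094a8, 4), (0x21608794, 4), (0x316594a7, 4), (0x325094a8, 4)]⟩

def c_3487 : frmChk tB tA F_3487 = true := by decide +kernel

def r_3487_0 : chkL rootF engF2 tB tA sB_353 sA_353 4 F_3487 [(511, 0, 0)]
    0x115827 = true := by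
  decide +kernel

theorem f_3487 (h : TabsF) : FrameF repsF 353 F_3487.f :=
  frame_of rfl c_3487 (runs_of engOK r_3487_0) (by decide +kernel) h.2 h.1

def F_3488 : FrX :=
  ⟨0x1001040012008080000e00840800410008101000040410084010200041000050084042020018010068002808000400014040200108020808105000202080,
    0xa3, 1, 0x5160728094a8, 6,
    [(0xa3, 1), (0x207584a6, 4), (0x10547693, 4), (0x647593a8, 4), (0x10547693, 4), (0x216485a7, 4), (0x208693a4, 4), (0x647593a8, 4), (0x208693a4, 4), (0x106574a8, 4), (0x647593a8, 4), (0x216485a7, 4)],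
    [(0x5160728094a8, 6), (0x213087a9, 4), (0x20648591, 4), (0x216490a3, 4), (0x20648591, 4), (0x327590a1, 4), (0x648793a0, 4), (0x216490a3, 4), (0x648793a0, 4), (0x108592a3, 4), (0x216490a3, 4), (0x327590a1, 4)]⟩

def c_3488 : frmChk tB tB F_3488 = true := by decide +kernel

def r_3488_0 : chkL rootF engF2 tB tB sB_353 sB_353 4 F_3488 [(511, 0, 0)]
    0x1 = true := by
  decide +kernel

theorem f_3488 (h : TabsF) : FrameF repsF 353 F_3488.f :=
  frame_of rfl c_3488 (runs_of engOK r_3488_0) (by decide +kernel) h.2 h.2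

def F_3489 : FrX :=
  ⟨0x1001040012008080000e0084080041000810100004084004101020002080202200a00020402040024004480085001000090080120402000d080000210008,
    0xa3, 1, 0x203162708590a1, 7,
    [(0xa3, 1), (0x207584a6, 4), (0x10547693, 4), (0x647593a8, 4), (0x10547693, 4), (0x216485a7, 4), (0x208693a4, 4), (0x647593a8, 4), (0x208693a4, 4), (0x106574a8, 4), (0x647593a8, 4), (0x216485a7, 4)],
    [(0x203162708590a1, 7), (0x10548296, 4), (0x207384a9, 4), (0x40517382, 4), (0x207384a9, 4), (0x214085a6, 4), (0x41507396, 4), (0x40517382, 4), (0x41507396, 4), (0x425180a9, 4), (0x40517382, 4), (0x214085a6, 4)]⟩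

def c_3489 : frmChk tB tB F_3489 = true := by decide +kernel

def r_3489_0 : chkL rootF engF2 tB tB sB_353 sB_353 4 F_3489 [(511, 0, 0)]
    0x1 = true := by
  decide +kernel

theorem f_3489 (h : TabsF) : FrameF repsF 353 F_3489.f :=
  frame_of rfl c_3489 (runs_of engOK r_3489_0) (by decide +kernel) h.2 h.2

def F_3490 : FrX :=
  ⟨0x2002000900044004000e0204100014100080004080040400282000240004418014002001010001105004400440800000a100082024041020200010202001,
    0xa3, 1, 0x102140516497a3, 7,
    [(0xa3, 1), (0x208693a5, 4), (0x10548793, 4), (0x217693a4, 4), (0x208693a5, 4), (0x10548793, 4)],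
    [(0x102140516497a3, 7), (0x407381a2, 4), (0x54627398, 4), (0x507391a6, 4), (0x407381a2, 4), (0x54627398, 4)]⟩

def c_3490 : frmChk tA tA F_3490 = true := by decide +kernel

def r_3490_0 : chkL rootF engF2 tA tA sA_353 sA_353 4 F_3490 [(511, 0, 0)]
    0x41d0741718c6306c63 = true := by
  decide +kernel

theorem f_3490 (h : TabsF) : FrameF repsF 353 F_3490.f :=
  frame_of rfl c_3490 (runs_of engOK r_3490_0) (by decide +kernel) h.1 h.1

def F_3491 : FrX :=
  ⟨0x2002000900044004000e0204100014100080004080040204041002020880088200008800408200020a018100004050000280010022080042002044210200,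
    0xa3, 1, 0x205461768392a3, 7,
    [(0xa3, 1), (0x208693a5, 4), (0x10548793, 4), (0x217693a4, 4), (0x208693a5, 4), (0x10548793, 4)],
    [(0x205461768392a3, 7), (0x738092a4, 4), (0x31546280, 4), (0x718096a5, 4), (0x738092a4, 4), (0x31546280, 4)]⟩

def c_3491 : frmChk tA tA F_3491 = true := by decide +kernel

def r_3491_0 : chkL rootF engF2 tA tA sA_353 sA_353 4 F_3491 [(511, 0, 0)]
    0x52a03c270b84e = true := by
  decide +kernel

theorem f_3491 (h : TabsF) : FrameF repsF 353 F_3491.f :=
  frame_of rfl c_3491 (runs_of engOK r_3491_0) (by decide +kernel) h.1 h.1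

def F_3492 : FrX :=
  ⟨0x482000044040440000c2040020009000182040004020410201020080040804800800040910011010000500204020040004001204000920005092200008,
    0xa0, 1, 0x324151637583a0, 7,
    [(0xa0, 1), (0x538690a2, 4), (0x548790a1, 4), (0x21437690, 4), (0x538690a2, 4), (0x548790a1, 4)],
    [(0x324151637583a0, 7), (0x628790a3, 4), (0x647190a5, 4), (0x42538190, 4), (0x628790a3, 4), (0x647190a5, 4)]⟩

def c_3492 : frmChk tA tA F_3492 = true := by decide +kernel

def r_3492_0 : chkL rootF engF2 tA tA sA_353 sA_353 4 F_3492 [(511, 0, 0)]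
    0x11d0330d435 = true := by
  decide +kernel

theorem f_3492 (h : TabsF) : FrameF repsF 353 F_3492.f :=
  frame_of rfl c_3492 (runs_of engOK r_3492_0) (by decide +kernel) h.1 h.1

def F_3493 : FrX :=
  ⟨0x80080a000804040e0000210100200100000204088220000404802400004008404082201010003000424220060000200110c001005003020200010008010,
    0xa6, 1, 0x3141618295a8, 6,
    [(0xa6, 1), (0x205396a8, 4), (0x10548796, 4), (0x214396a7, 4), (0x205396a8, 4), (0x10548796, 4)],
    [(0x3141618295a8, 6), (0x418097a3, 4), (0x52607493, 4), (0x435297a1, 4), (0x52607493, 4), (0x437186a9, 4), (0x315280a4, 4), (0x435297a1, 4), (0x315280a4, 4), (0x607394a1, 4), (0x435297a1, 4), (0x437186a9, 4)]⟩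

def c_3493 : frmChk tA tB F_3493 = true := by decide +kernel

def r_3493_0 : chkL rootF engF2 tA tB sA_353 sB_353 4 F_3493 [(511, 0, 0)]
    0x4d21344e = true := by
  decide +kernel

theorem f_3493 (h : TabsF) : FrameF repsF 353 F_3493.f :=
  frame_of rfl c_3493 (runs_of engOK r_3493_0) (by decide +kernel) h.1 h.2

def F_3494 : FrX :=
  ⟨0x482000044040440000c2040020009000182040020001100100200380014044004080000088940112000200020108108010010000600204001020500210,
    0xa0, 1, 0x435262758595a3, 7,
    [(0xa0, 1), (0x538690a2, 4), (0x548790a1, 4), (0x21437690, 4), (0x538690a2, 4), (0x548790a1, 4)],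
    [(0x435262758595a3, 7), (0x607392a5, 4), (0x10528493, 4), (0x538492a7, 4), (0x10528493, 4), (0x536197a2, 4), (0x607584a3, 4), (0x538492a7, 4), (0x607584a3, 4), (0x103295a7, 4), (0x538492a7, 4), (0x536197a2, 4)]⟩

def c_3494 : frmChk tA tB F_3494 = true := by decide +kernel

def r_3494_0 : chkL rootF engF2 tA tB sA_353 sB_353 4 F_3494 [(511, 0, 0)]
    0x44e17056 = true := by
  decide +kernel

theorem f_3494 (h : TabsF) : FrameF repsF 353 F_3494.f :=
  frame_of rfl c_3494 (runs_of engOK r_3494_0) (by decide +kernel) h.1 h.2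

def F_3495 : FrX :=
  ⟨0x482000044040440000c2040020009000182040000824008001200084040800030820000904001010010208080a20040000085010000920002843000004,
    0xa0, 1, 0x3253728391a3, 6,
    [(0xa0, 1), (0x538690a2, 4), (0x548790a1, 4), (0x21437690, 4), (0x538690a2, 4), (0x548790a1, 4)],
    [(0x3253728391a3, 6), (0x657081a2, 4), (0x42538190, 4), (0x638197a4, 4), (0x657081a2, 4), (0x42538190, 4)]⟩

def c_3495 : frmChk tA tA F_3495 = true := by decide +kernel

def r_3495_0 : chkL rootF engF2 tA tA sA_353 sA_353 4 F_3495 [(511, 0, 0)]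
    0x4271942b0742b = true := by
  decide +kernel

theorem f_3495 (h : TabsF) : FrameF repsF 353 F_3495.f :=
  frame_of rfl c_3495 (runs_of engOK r_3495_0) (by decide +kernel) h.1 h.1

def F_3496 : FrX :=
  ⟨0x2002000900044004000e0204100014100080004080052040802000240000110810002021010001100820000910040000a100082040880810100802221000,
    0xa3, 1, 0x2042526371a1, 6,
    [(0xa3, 1), (0x208693a5, 4), (0x10548793, 4), (0x217693a4, 4), (0x208693a5, 4), (0x10548793, 4)],
    [(0x2042526371a1, 6), (0x52648397, 4), (0x408197a2, 4), (0x316097a5, 4), (0x52648397, 4), (0x408197a2, 4)]⟩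

def c_3496 : frmChk tA tA F_3496 = true := by decide +kernel

def r_3496_0 : chkL rootF engF2 tA tA sA_353 sA_353 4 F_3496 [(511, 0, 0)]
    0x10cd4a = true := by
  decide +kernel

theorem f_3496 (h : TabsF) : FrameF repsF 353 F_3496.f :=
  frame_of rfl c_3496 (runs_of engOK r_3496_0) (by decide +kernel) h.1 h.1

def F_3497 : FrX :=
  ⟨0x80080a000804040e00002101002001000002040890080000484010008220008008013010000030248402801000402008042041080008410080880040080,
    0xa6, 1, 0x213161768290a3, 7,
    [(0xa6, 1), (0x205396a8, 4), (0x10548796, 4), (0x214396a7, 4), (0x205396a8, 4), (0x10548796, 4)],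
    [(0x213161768290a3, 7), (0x415398a7, 4), (0x20547396, 4), (0x205374a1, 4), (0x20547396, 4), (0x517486a3, 4), (0x207198a4, 4), (0x205374a1, 4), (0x207198a4, 4), (0x437596a1, 4), (0x205374a1, 4), (0x517486a3, 4)]⟩

def c_3497 : frmChk tA tB F_3497 = true := by decide +kernel

def r_3497_0 : chkL rootF engF2 tA tB sA_353 sB_353 4 F_3497 [(511, 0, 0)]
    0x1 = true := by
  decide +kernel

theorem f_3497 (h : TabsF) : FrameF repsF 353 F_3497.f :=
  frame_of rfl c_3497 (runs_of engOK r_3497_0) (by decide +kernel) h.1 h.2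

def F_3498 : FrX :=
  ⟨0x80080a000804040e00002101002001000002040882200004048024000040081048802010020a80000890020120001002024004800410220202040080010,
    0xa6, 1, 0x10203151648294a3, 8,
    [(0xa6, 1), (0x205396a8, 4), (0x10548796, 4), (0x214396a7, 4), (0x205396a8, 4), (0x10548796, 4)],
    [(0x10203151648294a3, 8), (0x738291a4, 4), (0x52607493, 4), (0x607394a1, 4), (0x52607493, 4), (0x318594a7, 4), (0x416082a9, 4), (0x607394a1, 4), (0x416082a9, 4), (0x435297a1, 4), (0x607394a1, 4), (0x318594a7, 4)]⟩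

def c_3498 : frmChk tA tB F_3498 = true := by decide +kernel

def r_3498_0 : chkL rootF engF2 tA tB sA_353 sB_353 4 F_3498 [(511, 0, 0)]
    0x10e42703c0f8c41d = true := by
  decide +kernel

theorem f_3498 (h : TabsF) : FrameF repsF 353 F_3498.f :=
  frame_of rfl c_3498 (runs_of engOK r_3498_0) (by decide +kernel) h.1 h.2

def F_3499 : FrX :=
  ⟨0x80080a000804040e00002101002001000002040890020008044010008208804020101001004021008008000800a01440024000006001020206080808088,
    0xa6, 1, 0x32425164738593a0, 8,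
    [(0xa6, 1), (0x205396a8, 4), (0x10548796, 4), (0x214396a7, 4), (0x205396a8, 4), (0x10548796, 4)],
    [(0x32425164738593a0, 8), (0x317098a4, 4), (0x217086a5, 4), (0x32547096, 4), (0x317098a4, 4), (0x217086a5, 4)]⟩

def c_3499 : frmChk tA tA F_3499 = true := by decide +kernel

def r_3499_0 : chkL rootF engF2 tA tA sA_353 sA_353 4 F_3499 [(511, 0, 0)]
    0x103c2b = true := by
  decide +kernel

theorem f_3499 (h : TabsF) : FrameF repsF 353 F_3499.f :=
  frame_of rfl c_3499 (runs_of engOK r_3499_0) (by decide +kernel) h.1 h.1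

def F_3500 : FrX :=
  ⟨0x1c2102000004044000002041000101000082040890080080000802400200404020404041004020408000804800a08440100080006022020206020200088,
    0x0, 0, 0x21437684, 4,
    [(0x0, 0), (0x205386a9, 4), (0x105487a9, 4), (0x214376a9, 4), (0x205386a9, 4), (0x105487a9, 4)],
    [(0x21437684, 4), (0x10657483, 4), (0x207685a9, 4), (0x436587a9, 4), (0x207685a9, 4), (0x21536487, 4), (0x107384a9, 4), (0x436587a9, 4), (0x107384a9, 4), (0x20437586, 4), (0x436587a9, 4), (0x21536487, 4)]⟩

def c_3500 : frmChk tA tB F_3500 = true := by decide +kernel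

def r_3500_0 : chkL rootF engF2 tA tB sA_353 sB_353 4 F_3500 [(255, 0, 0), (256, 0, 6)]
    0x1 = true := by
  decide +kernel

def r_3500_1 : chkL rootF engF2 tA tB sA_353 sB_353 4 F_3500 [(256, 6, 0)]
    0x40f = true := by
  decide +kernel

theorem f_3500 (h : TabsF) : FrameF repsF 353 F_3500.f :=
  frame_of rfl c_3500 ((runs_of engOK r_3500_0).append (runs_of engOK r_3500_1)) (by decide +kernel) h.1 h.2

def F_3501 : FrX :=
  ⟨0x482000044040440000c2040020009000182040010080080100800280010404804400101001080120000440802008440022090006200200011010000130,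
    0xa0, 1, 0x3143728198a7, 6,
    [(0xa0, 1), (0x538690a2, 4), (0x548790a1, 4), (0x21437690, 4), (0x538690a2, 4), (0x548790a1, 4)],
    [(0x3143728198a7, 6), (0x647091a5, 4), (0x325180a6, 4), (0x326194a5, 4), (0x325180a6, 4), (0x618795a4, 4), (0x32417096, 4), (0x326194a5, 4), (0x32417096, 4), (0x658094a1, 4), (0x326194a5, 4), (0x618795a4, 4)]⟩

def c_3501 : frmChk tA tB F_3501 = true := by decide +kernel

def r_3501_0 : chkL rootF engF2 tA tB sA_353 sB_353 4 F_3501 [(511, 0, 0)]
    0x455 = true := by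
  decide +kernel

theorem f_3501 (h : TabsF) : FrameF repsF 353 F_3501.f :=
  frame_of rfl c_3501 (runs_of engOK r_3501_0) (by decide +kernel) h.1 h.2

def F_3502 : FrX :=
  ⟨0x2002000900044004000e02041000141000800040810000018100804200812002100100120102500080420208200030002000a20000400200440210010210,
    0xa3, 1, 0x213051617296a7, 7,
    [(0xa3, 1), (0x208693a5, 4), (0x10548793, 4), (0x217693a4, 4), (0x208693a5, 4), (0x10548793, 4)],
    [(0x213051617296a7, 7), (0x738490a2, 4), (0x425163a9, 4), (0x518094a2, 4), (0x425163a9, 4), (0x768294a0, 4), (0x40517398, 4), (0x518094a2, 4), (0x40517398, 4), (0x638092a4, 4), (0x518094a2, 4), (0x768294a0, 4)]⟩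

def c_3502 : frmChk tA tB F_3502 = true := by decide +kernel

def r_3502_0 : chkL rootF engF2 tA tB sA_353 sB_353 4 F_3502 [(511, 0, 0)]
    0x41b = true := by
  decide +kernel

theorem f_3502 (h : TabsF) : FrameF repsF 353 F_3502.f :=
  frame_of rfl c_3502 (runs_of engOK r_3502_0) (by decide +kernel) h.1 h.2

def F_3503 : FrX :=
  ⟨0x80080a000804040e000021010020010000020408a000020810c40000841000004108043000008400230810082000300000211102001000c000a02020010,
    0xa6, 1, 0x10314260738090a3, 8,
    [(0xa6, 1), (0x205396a8, 4), (0x10548796, 4), (0x214396a7, 4), (0x205396a8, 4), (0x10548796, 4)],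
    [(0x10314260738090a3, 8), (0x506294a1, 4), (0x10528793, 4), (0x215087a6, 4), (0x10528793, 4), (0x214365a0, 4), (0x618794a2, 4), (0x215087a6, 4), (0x618794a2, 4), (0x205193a6, 4), (0x215087a6, 4), (0x214365a0, 4)]⟩

def c_3503 : frmChk tA tB F_3503 = true := by decide +kernel

def r_3503_0 : chkL rootF engF2 tA tB sA_353 sB_353 4 F_3503 [(511, 0, 0)]
    0x43c = true := by
  decide +kernel

theorem f_3503 (h : TabsF) : FrameF repsF 353 F_3503.f :=
  frame_of rfl c_3503 (runs_of engOK r_3503_0) (by decide +kernel) h.1 h.2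

def F_3504 : FrX :=
  ⟨0x600020801080810000c0040180410101001004000900808000101400400a040048001022000201002020006010200122000a0400300200500000640042,
    0xa0, 1, 0x103040507192a6, 7,
    [(0xa0, 1), (0x637584a2, 4), (0x547690a1, 4), (0x64758390, 4), (0x547690a1, 4), (0x21647385, 4), (0x438690a2, 4), (0x64758390, 4), (0x438690a2, 4), (0x657483a1, 4), (0x64758390, 4), (0x21647385, 4)],
    [(0x103040507192a6, 7), (0x408395a1, 4), (0x436275a0, 4), (0x406281a3, 4), (0x436275a0, 4), (0x108497a3, 4), (0x316295a8, 4), (0x406281a3, 4), (0x316295a8, 4), (0x307581a4, 4), (0x406281a3, 4), (0x108497a3, 4)]⟩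

def c_3504 : frmChk tB tB F_3504 = true := by decide +kernel

def r_3504_0 : chkL rootF engF2 tB tB sB_353 sB_353 4 F_3504 [(511, 0, 0)]
    0x46a3481b = true := by
  decide +kernel

theorem f_3504 (h : TabsF) : FrameF repsF 353 F_3504.f :=
  frame_of rfl c_3504 (runs_of engOK r_3504_0) (by decide +kernel) h.2 h.2

theorem cl_353 (h : TabsF) : ∀ f ∈ fr_353, FrameF repsF 353 f :=
  List.forall_mem_cons.2 ⟨f_3477 h, List.forall_mem_cons.2 ⟨f_3478 h, List.forall_mem_cons.2 ⟨f_3479 h, List.forall_mem_cons.2 ⟨f_3480 h, List.forall_mem_cons.2 ⟨f_3481 h, List.forall_mem_cons.2 ⟨f_3482 h, List.forall_mem_cons.2 ⟨f_3483 h, List.forall_mem_cons.2 ⟨f_3484 h, List.forall_mem_cons.2 ⟨f_3485 h, List.forall_mem_cons.2 ⟨f_3486 h, List.forall_mem_cons.2 ⟨f_3487 h, List.forall_mem_cons.2 ⟨f_3488 h, List.forall_mem_cons.2 ⟨f_3489 h, List.forall_mem_cons.2 ⟨f_3490 h, List.forall_mem_cons.2 ⟨f_3491 h, List.forall_mem_cons.2 ⟨f_3492 h, List.forall_mem_cons.2 ⟨f_3493 h, List.forall_mem_cons.2 ⟨f_3494 h, List.forall_mem_cons.2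 ⟨f_3495 h, List.forall_mem_cons.2 ⟨f_3496 h, List.forall_mem_cons.2 ⟨f_3497 h, List.forall_mem_cons.2 ⟨f_3498 h, List.forall_mem_cons.2 ⟨f_3499 h, List.forall_mem_cons.2 ⟨f_3500 h, List.forall_mem_cons.2 ⟨f_3501 h, List.forall_mem_cons.2 ⟨f_3502 h, List.forall_mem_cons.2 ⟨f_3503 h, List.forall_mem_cons.2 ⟨f_3504 h,
    fun _ h0 => absurd h0 List.not_mem_nil⟩⟩⟩⟩⟩⟩⟩⟩⟩⟩⟩⟩⟩⟩⟩⟩⟩⟩⟩⟩⟩⟩⟩⟩⟩⟩⟩⟩

def F_3505 : FrX :=
  ⟨0x482000044040440000c2040020009000182040002022020000a00010041004804400101081000180000040203020040000891004005000811110200030,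
    0xa0, 1, 0x31608290a4, 5,
    [(0xa0, 1), (0x538690a2, 4), (0x548790a1, 4), (0x21437690, 4), (0x538690a2, 4), (0x548790a1, 4)],
    [(0x31608290a4, 5), (0x107598a2, 4), (0x647093a5, 4), (0x216475a0, 4), (0x647093a5, 4), (0x527183a0, 4), (0x206498a1, 4), (0x216475a0, 4), (0x206498a1, 4), (0x215093a7, 4), (0x216475a0, 4), (0x527183a0, 4)]⟩

def c_3505 : frmChk tA tB F_3505 = true := by decide +kernel

def r_3505_0 : chkL rootF engF2 tA tB sA_354 sB_354 4 F_3505 [(511, 0, 0)]
    0x1328ca11c33 = true := by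
  decide +kernel

theorem f_3505 (h : TabsF) : FrameF repsF 354 F_3505.f :=
  frame_of rfl c_3505 (runs_of engOK r_3505_0) (by decide +kernel) h.1 h.2

def F_3506 : FrX :=
  ⟨0x2002000900044004000e02041000141000800040800400448008082000408208100001101088000880040100011020001001810040404000908104211100,
    0xa3, 1, 0x435262718095a2, 7,
    [(0xa3, 1), (0x208693a5, 4), (0x10548793, 4), (0x217693a4, 4), (0x208693a5, 4), (0x10548793, 4)],
    [(0x435262718095a2, 7), (0x506294a8, 4), (0x10628793, 4), (0x435162a7, 4), (0x506294a8, 4), (0x10628793, 4)]⟩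

def c_3506 : frmChk tA tA F_3506 = true := by decide +kernel

def r_3506_0 : chkL rootF engF2 tA tA sA_354 sA_354 4 F_3506 [(511, 0, 0)]
    0x106c632945c0b42d = true := by
  decide +kernel

theorem f_3506 (h : TabsF) : FrameF repsF 354 F_3506.f :=
  frame_of rfl c_3506 (runs_of engOK r_3506_0) (by decide +kernel) h.1 h.1

def F_3507 : FrX :=
  ⟨0x1c21020000040440000020410001010000820408882000080010801000021080048202010200800800404400c0420011008011000405004244088020010,
    0x0, 0, 0x21536487, 4,
    [(0x0, 0), (0x205386a9, 4), (0x105487a9, 4), (0x214376a9, 4), (0x205386a9, 4), (0x105487a9, 4)],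
    [(0x21536487, 4), (0x105374a9, 4), (0x206387a9, 4), (0x216584a9, 4), (0x105374a9, 4), (0x206387a9, 4)]⟩

def c_3507 : frmChk tA tA F_3507 = true := by decide +kernel

def r_3507_0 : chkL rootF engF2 tA tA sA_354 sA_354 4 F_3507 [(255, 0, 0), (256, 0, 10)]
    0x10d41d0d8350e49a1d09a2681d0d83a2689a = true := by
  decide +kernel

def r_3507_1 : chkL rootF engF2 tA tA sA_354 sA_354 4 F_3507 [(256, 10, 5)]
    0x122c3622c360e83a0748b268360e89a0e83a = true := by
  decide +kernel

def r_3507_2 : chkL rootF engF2 tA tA sA_354 sA_354 4 F_3507 [(256, 15, 0)]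
    0x42e = true := by
  decide +kernel

theorem f_3507 (h : TabsF) : FrameF repsF 354 F_3507.f :=
  frame_of rfl c_3507 ((runs_of engOK r_3507_0).append ((runs_of engOK r_3507_1).append (runs_of engOK r_3507_2))) (by decide +kernel) h.1 h.1

def F_3508 : FrX :=
  ⟨0x1c2102000004044000002041000101000082040888200008000880200002208004440101080020080040140211020040001811000405001808104600010,
    0x0, 0, 0x436386, 3,
    [(0x0, 0), (0x205386a9, 4), (0x105487a9, 4), (0x214376a9, 4), (0x205386a9, 4), (0x105487a9, 4)],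
    [(0x436386, 3), (0x206584a9, 4), (0x105374a9, 4), (0x216387a9, 4), (0x206584a9, 4), (0x105374a9, 4)]⟩

def c_3508 : frmChk tA tA F_3508 = true := by decide +kernel

def r_3508_0 : chkL rootF engF2 tA tA sA_354 sA_354 4 F_3508 [(255, 0, 0), (256, 0, 9)]
    0x1 = true := by
  decide +kernel

def r_3508_1 : chkL rootF engF2 tA tA sA_354 sA_354 4 F_3508 [(256, 9, 11)]
    0x45a = true := by
  decide +kernel

def r_3508_2 : chkL rootF engF2 tA tA sA_354 sA_354 4 F_3508 [(256, 20, 0)]
    0x1 = true := by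
  decide +kernel

theorem f_3508 (h : TabsF) : FrameF repsF 354 F_3508.f :=
  frame_of rfl c_3508 ((runs_of engOK r_3508_0).append ((runs_of engOK r_3508_1).append (runs_of engOK r_3508_2))) (by decide +kernel) h.1 h.1

def F_3509 : FrX :=
  ⟨0x80080a000804040e00002101002001000002040880411004004090000221001000102060008010020810000014100090021000280810121204040210200,
    0xa6, 1, 0x4254607491a4, 6,
    [(0xa6, 1), (0x205396a8, 4), (0x10548796, 4), (0x214396a7, 4), (0x205396a8, 4), (0x10548796, 4)],
    [(0x4254607491a4, 6), (0x32647180, 4), (0x718596a2, 4), (0x507194a3, 4), (0x32647180, 4), (0x718596a2, 4)]⟩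

def c_3509 : frmChk tA tA F_3509 = true := by decide +kernel

def r_3509_0 : chkL rootF engF2 tA tA sA_354 sA_354 4 F_3509 [(511, 0, 0)]
    0x18721683887234ca = true := by
  decide +kernel

theorem f_3509 (h : TabsF) : FrameF repsF 354 F_3509.f :=
  frame_of rfl c_3509 (runs_of engOK r_3509_0) (by decide +kernel) h.1 h.1

def F_3510 : FrX :=
  ⟨0x2002000900044004000e020410001410008000408080010020a000040400c082100200084020010220800402010000090100801220084820202010008210,
    0xa3, 1, 0x213143538298a0, 7,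
    [(0xa3, 1), (0x208693a5, 4), (0x10548793, 4), (0x217693a4, 4), (0x208693a5, 4), (0x10548793, 4)],
    [(0x213143538298a0, 7), (0x657492a8, 4), (0x104276a3, 4), (0x10627495, 4), (0x104276a3, 4), (0x62758394, 4), (0x105296a8, 4), (0x10627495, 4), (0x105296a8, 4), (0x647295a3, 4), (0x10627495, 4), (0x62758394, 4)]⟩

def c_3510 : frmChk tA tB F_3510 = true := by decide +kernel

def r_3510_0 : chkL rootF engF2 tA tB sA_354 sB_354 4 F_3510 [(511, 0, 0)]
    0x1 = true := by
  decide +kernel

theorem f_3510 (h : TabsF) : FrameF repsF 354 F_3510.f :=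
  frame_of rfl c_3510 (runs_of engOK r_3510_0) (by decide +kernel) h.1 h.2

def F_3511 : FrX :=
  ⟨0x80080a000804040e000021010020010000020408806000044100808000014080044401014000800800408000c0402011001011000408404244104040010,
    0xa6, 1, 0x2132657197a2, 6,
    [(0xa6, 1), (0x205396a8, 4), (0x10548796, 4), (0x214396a7, 4), (0x205396a8, 4), (0x10548796, 4)],
    [(0x2132657197a2, 6), (0x518496a0, 4), (0x32647095, 4), (0x32548196, 4), (0x32647095, 4), (0x548691a7, 4), (0x324185a0, 4), (0x32548196, 4), (0x324185a0, 4), (0x65708194, 4), (0x32548196, 4), (0x548691a7, 4)]⟩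

def c_3511 : frmChk tA tB F_3511 = true := by decide +kernel

def r_3511_0 : chkL rootF engF2 tA tB sA_354 sB_354 4 F_3511 [(511, 0, 0)]
    0x10cc1b = true := by
  decide +kernel

theorem f_3511 (h : TabsF) : FrameF repsF 354 F_3511.f :=
  frame_of rfl c_3511 (runs_of engOK r_3511_0) (by decide +kernel) h.1 h.2

def F_3512 : FrX :=
  ⟨0x600020801080810000c0040180410101001004000844008800090020121000040010802020120208000400a00208108088000210a000021008080a1000,
    0xa0, 1, 0x3140617196a6, 6,
    [(0xa0, 1), (0x637584a2, 4), (0x547690a1, 4), (0x64758390, 4), (0x547690a1, 4), (0x21647385, 4), (0x438690a2, 4), (0x64758390, 4), (0x438690a2, 4), (0x657483a1, 4), (0x64758390, 4), (0x21647385, 4)],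
    [(0x3140617196a6, 6), (0x425193a8, 4), (0x50748693, 4), (0x107293a6, 4), (0x425193a8, 4), (0x50748693, 4)]⟩

def c_3512 : frmChk tB tA F_3512 = true := by decide +kernel

def r_3512_0 : chkL rootF engF2 tB tA sB_354 sA_354 4 F_3512 [(511, 0, 0)]
    0x40f = true := by
  decide +kernel

theorem f_3512 (h : TabsF) : FrameF repsF 354 F_3512.f :=
  frame_of rfl c_3512 (runs_of engOK r_3512_0) (by decide +kernel) h.2 h.1

def F_3513 : FrX :=
  ⟨0x600020801080810000c0040180410101001004002100802000204004102202800400100c01460200400102040008440800088000200000408040210049,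
    0xa0, 1, 0x20314362748093a2, 8,
    [(0xa0, 1), (0x637584a2, 4), (0x547690a1, 4), (0x64758390, 4), (0x547690a1, 4), (0x21647385, 4), (0x438690a2, 4), (0x64758390, 4), (0x438690a2, 4), (0x657483a1, 4), (0x64758390, 4), (0x21647385, 4)],
    [(0x20314362748093a2, 8), (0x206495a8, 4), (0x21647583, 4), (0x106497a3, 4), (0x206495a8, 4), (0x21647583, 4)]⟩

def c_3513 : frmChk tB tA F_3513 = true := by decide +kernel

def r_3513_0 : chkL rootF engF2 tB tA sB_354 sA_354 4 F_3513 [(511, 0, 0)]
    0x58c079076330518d07 = true := by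
  decide +kernel

theorem f_3513 (h : TabsF) : FrameF repsF 354 F_3513.f :=
  frame_of rfl c_3513 (runs_of engOK r_3513_0) (by decide +kernel) h.2 h.1

def F_3514 : FrX :=
  ⟨0x1001040012008080000e0084080041000810100004201010008220400600080003010800802001086c002400000420002000808808200080022004801140,
    0xa3, 1, 0x305064728197a1, 7,
    [(0xa3, 1), (0x207584a6, 4), (0x10547693, 4), (0x647593a8, 4), (0x10547693, 4), (0x216485a7, 4), (0x208693a4, 4), (0x647593a8, 4), (0x208693a4, 4), (0x106574a8, 4), (0x647593a8, 4), (0x216485a7, 4)],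
    [(0x305064728197a1, 7), (0x30417582, 4), (0x638291a5, 4), (0x608294a7, 4), (0x30417582, 4), (0x638291a5, 4)]⟩

def c_3514 : frmChk tB tA F_3514 = true := by decide +kernel

def r_3514_0 : chkL rootF engF2 tB tA sB_354 sA_354 4 F_3514 [(511, 0, 0)]
    0x122cd822cd8 = true := by
  decide +kernel

theorem f_3514 (h : TabsF) : FrameF repsF 354 F_3514.f :=
  frame_of rfl c_3514 (runs_of engOK r_3514_0) (by decide +kernel) h.2 h.1

def F_3515 : FrX :=
  ⟨0x600020801080810000c004018041010100100401010000e000010048200c04020010002000220100201110a00010400210800480210000420020181001,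
    0xa0, 1, 0x213054738495a5, 7,
    [(0xa0, 1), (0x637584a2, 4), (0x547690a1, 4), (0x64758390, 4), (0x547690a1, 4), (0x21647385, 4), (0x438690a2, 4), (0x64758390, 4), (0x438690a2, 4), (0x657483a1, 4), (0x64758390, 4), (0x21647385, 4)],
    [(0x213054738495a5, 7), (0x316594a7, 4), (0x325094a8, 4), (0x21608794, 4), (0x316594a7, 4), (0x325094a8, 4)]⟩

def c_3515 : frmChk tB tA F_3515 = true := by decide +kernel

def r_3515_0 : chkL rootF engF2 tB tA sB_354 sA_354 4 F_3515 [(511, 0, 0)]
    0x436 = true := by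
  decide +kernel

theorem f_3515 (h : TabsF) : FrameF repsF 354 F_3515.f :=
  frame_of rfl c_3515 (runs_of engOK r_3515_0) (by decide +kernel) h.2 h.1

def F_3516 : FrX :=
  ⟨0x1001040012008080000e00840800410008101000040410084010200042080040084042020018010068002808000400014040200108002800105080202080,
    0xa3, 1, 0x30425360758195a3, 8,
    [(0xa3, 1), (0x207584a6, 4), (0x10547693, 4), (0x647593a8, 4), (0x10547693, 4), (0x216485a7, 4), (0x208693a4, 4), (0x647593a8, 4), (0x208693a4, 4), (0x106574a8, 4), (0x647593a8, 4), (0x216485a7, 4)],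
    [(0x30425360758195a3, 8), (0x216490a3, 4), (0x30758692, 4), (0x327590a1, 4), (0x30758692, 4), (0x328491a0, 4), (0x316475a2, 4), (0x327590a1, 4), (0x316475a2, 4), (0x208693a1, 4), (0x327590a1, 4), (0x328491a0, 4)]⟩

def c_3516 : frmChk tB tB F_3516 = true := by decide +kernel

def r_3516_0 : chkL rootF engF2 tB tB sB_354 sB_354 4 F_3516 [(511, 0, 0)]
    0x436 = true := by
  decide +kernel

theorem f_3516 (h : TabsF) : FrameF repsF 354 F_3516.f :=
  frame_of rfl c_3516 (runs_of engOK r_3516_0) (by decide +kernel) h.2 h.2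

def F_3517 : FrX :=
  ⟨0x1001040012008080000e0084080041000810100004084004101020002080202200a000204020400240044800850020800800801204002005080080210008,
    0xa3, 1, 0x203162708590a1, 7,
    [(0xa3, 1), (0x207584a6, 4), (0x10547693, 4), (0x647593a8, 4), (0x10547693, 4), (0x216485a7, 4), (0x208693a4, 4), (0x647593a8, 4), (0x208693a4, 4), (0x106574a8, 4), (0x647593a8, 4), (0x216485a7, 4)],
    [(0x203162708590a1, 7), (0x10548296, 4), (0x207384a9, 4), (0x40517382, 4), (0x207384a9, 4), (0x214085a6, 4), (0x41507396, 4), (0x40517382, 4), (0x41507396, 4), (0x425180a9, 4), (0x40517382, 4), (0x214085a6, 4)]⟩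

def c_3517 : frmChk tB tB F_3517 = true := by decide +kernel

def r_3517_0 : chkL rootF engF2 tB tB sB_354 sB_354 4 F_3517 [(511, 0, 0)]
    0x1 = true := by
  decide +kernel

theorem f_3517 (h : TabsF) : FrameF repsF 354 F_3517.f :=
  frame_of rfl c_3517 (runs_of engOK r_3517_0) (by decide +kernel) h.2 h.2

def F_3518 : FrX :=
  ⟨0x2002000900044004000e02041000141000800040800404002820002400040880140022010100011050044004408000043100082004041020200010202001,
    0xa3, 1, 0x21324360718398a6, 8,
    [(0xa3, 1), (0x208693a5, 4), (0x10548793, 4), (0x217693a4, 4), (0x208693a5, 4), (0x10548793, 4)],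
    [(0x21324360718398a6, 8), (0x406385a9, 4), (0x40517692, 4), (0x407381a2, 4), (0x406385a9, 4), (0x40517692, 4)]⟩

def c_3518 : frmChk tA tA F_3518 = true := by decide +kernel

def r_3518_0 : chkL rootF engF2 tA tA sA_354 sA_354 4 F_3518 [(511, 0, 0)]
    0x41e2b0ac1b0ac0e4ac12caa2a83c = true := by
  decide +kernel

theorem f_3518 (h : TabsF) : FrameF repsF 354 F_3518.f :=
  frame_of rfl c_3518 (runs_of engOK r_3518_0) (by decide +kernel) h.1 h.1

def F_3519 : FrX :=
  ⟨0x2002000900044004000e020410001410008000408100000414100002088008821000880040a200020a018000004050000280010022080042002044210200,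
    0xa3, 1, 0x104362708591a3, 7,
    [(0xa3, 1), (0x208693a5, 4), (0x10548793, 4), (0x217693a4, 4), (0x208693a5, 4), (0x10548793, 4)],
    [(0x104362708591a3, 7), (0x405276a8, 4), (0x40518397, 4), (0x214096a3, 4), (0x405276a8, 4), (0x40518397, 4)]⟩

def c_3519 : frmChk tA tA F_3519 = true := by decide +kernel

def r_3519_0 : chkL rootF engF2 tA tA sA_354 sA_354 4 F_3519 [(511, 0, 0)]
    0x4470e7602986a0786a0b84e = true := by
  decide +kernel

theorem f_3519 (h : TabsF) : FrameF repsF 354 F_3519.f :=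
  frame_of rfl c_3519 (runs_of engOK r_3519_0) (by decide +kernel) h.1 h.1

def F_3520 : FrX :=
  ⟨0x482000044040440000c20400200090001820400040204102010200800408048008000409100110100005002040200400040012040005a00040a0200048,
    0xa0, 1, 0x324151637583a0, 7,
    [(0xa0, 1), (0x538690a2, 4), (0x548790a1, 4), (0x21437690, 4), (0x538690a2, 4), (0x548790a1, 4)],
    [(0x324151637583a0, 7), (0x628790a3, 4), (0x647190a5, 4), (0x42538190, 4), (0x628790a3, 4), (0x647190a5, 4)]⟩

def c_3520 : frmChk tA tA F_3520 = true := by decide +kernel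

def r_3520_0 : chkL rootF engF2 tA tA sA_354 sA_354 4 F_3520 [(511, 0, 0)]
    0x47411c669601711d85 = true := by
  decide +kernel

theorem f_3520 (h : TabsF) : FrameF repsF 354 F_3520.f :=
  frame_of rfl c_3520 (runs_of engOK r_3520_0) (by decide +kernel) h.1 h.1

def F_3521 : FrX :=
  ⟨0x80080a000804040e000021010020010000020408822000040484a0000040080040822010100030004242200600002001008011005003020200210008010,
    0xa6, 1, 0x3151658795a7, 6,
    [(0xa6, 1), (0x205396a8, 4), (0x10548796, 4), (0x214396a7, 4), (0x205396a8, 4), (0x10548796, 4)],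
    [(0x3151658795a7, 6), (0x203174a9, 4), (0x508694a3, 4), (0x437186a9, 4), (0x508694a3, 4), (0x435297a1, 4), (0x20417386, 4), (0x437186a9, 4), (0x20417386, 4), (0x507193a4, 4), (0x437186a9, 4), (0x435297a1, 4)]⟩

def c_3521 : frmChk tA tB F_3521 = true := by decide +kernel

def r_3521_0 : chkL rootF engF2 tA tB sA_354 sB_354 4 F_3521 [(511, 0, 0)]
    0x1 = true := by
  decide +kernel

theorem f_3521 (h : TabsF) : FrameF repsF 354 F_3521.f :=
  frame_of rfl c_3521 (runs_of engOK r_3521_0) (by decide +kernel) h.1 h.2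

def F_3522 : FrX :=
  ⟨0x482000044040440000c2040020009000182040020001100100200380014044004080011080900102000200120108008010011000600204001020500210,
    0xa0, 1, 0x435262758595a3, 7,
    [(0xa0, 1), (0x538690a2, 4), (0x548790a1, 4), (0x21437690, 4), (0x538690a2, 4), (0x548790a1, 4)],
    [(0x435262758595a3, 7), (0x607392a5, 4), (0x10528493, 4), (0x538492a7, 4), (0x10528493, 4), (0x536197a2, 4), (0x607584a3, 4), (0x538492a7, 4), (0x607584a3, 4), (0x103295a7, 4), (0x538492a7, 4), (0x536197a2, 4)]⟩

def c_3522 : frmChk tA tB F_3522 = true := by decide +kernel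

def r_3522_0 : chkL rootF engF2 tA tB sA_354 sB_354 4 F_3522 [(511, 0, 0)]
    0x44e0b42d0b45605c17 = true := by
  decide +kernel

theorem f_3522 (h : TabsF) : FrameF repsF 354 F_3522.f :=
  frame_of rfl c_3522 (runs_of engOK r_3522_0) (by decide +kernel) h.1 h.2

def F_3523 : FrX :=
  ⟨0x1c2102000004044000002041000101000082040888200008008040008000424020501001080020080040140211002082018012404108000840100008090,
    0x0, 0, 0x54637384, 4,
    [(0x0, 0), (0x205386a9, 4), (0x105487a9, 4), (0x214376a9, 4), (0x205386a9, 4), (0x105487a9, 4)],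
    [(0x54637384, 4), (0x205374a9, 4), (0x106584a9, 4), (0x216387a9, 4), (0x205374a9, 4), (0x106584a9, 4)]⟩

def c_3523 : frmChk tA tA F_3523 = true := by decide +kernel

def r_3523_0 : chkL rootF engF2 tA tA sA_354 sA_354 4 F_3523 [(255, 0, 0), (256, 0, 8)]
    0x436 = true := by
  decide +kernel

def r_3523_1 : chkL rootF engF2 tA tA sA_354 sA_354 4 F_3523 [(256, 8, 2)]
    0x10b83603c1d = true := by
  decide +kernel

def r_3523_2 : chkL rootF engF2 tA tA sA_354 sA_354 4 F_3523 [(256, 10, 6)]
    0x10741d0d84b = true := by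
  decide +kernel

def r_3523_3 : chkL rootF engF2 tA tA sA_354 sA_354 4 F_3523 [(256, 16, 0)]
    0x1 = true := by
  decide +kernel

theorem f_3523 (h : TabsF) : FrameF repsF 354 F_3523.f :=
  frame_of rfl c_3523 ((runs_of engOK r_3523_0).append ((runs_of engOK r_3523_1).append ((runs_of engOK r_3523_2).append (runs_of engOK r_3523_3)))) (by decide +kernel) h.1 h.1

def F_3524 : FrX :=
  ⟨0x80080a000804040e000021010020010000020408812000014010418000420040208000414000200800408002110100820000924040010808400a0200090,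
    0xa6, 1, 0x215060718393a2, 7,
    [(0xa6, 1), (0x205396a8, 4), (0x10548796, 4), (0x214396a7, 4), (0x205396a8, 4), (0x10548796, 4)],
    [(0x215060718393a2, 7), (0x538190a6, 4), (0x32407681, 4), (0x528194a7, 4), (0x538190a6, 4), (0x32407681, 4)]⟩

def c_3524 : frmChk tA tA F_3524 = true := by decide +kernel

def r_3524_0 : chkL rootF engF2 tA tA sA_354 sA_354 4 F_3524 [(511, 0, 0)]
    0x107459 = true := by
  decide +kernel

theorem f_3524 (h : TabsF) : FrameF repsF 354 F_3524.f :=
  frame_of rfl c_3524 (runs_of engOK r_3524_0) (by decide +kernel) h.1 h.1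

def F_3525 : FrX :=
  ⟨0x2002000900044004000e02041000141000800040810000018108002008220108100001202008004810800209000004082014808420200000100808012280,
    0xa3, 1, 0x3140546392a6, 6,
    [(0xa3, 1), (0x208693a5, 4), (0x10548793, 4), (0x217693a4, 4), (0x208693a5, 4), (0x10548793, 4)],
    [(0x3140546392a6, 6), (0x708594a6, 4), (0x214350a7, 4), (0x217086a5, 4), (0x214350a7, 4), (0x768093a5, 4), (0x216594a8, 4), (0x217086a5, 4), (0x216594a8, 4), (0x437586a0, 4), (0x217086a5, 4), (0x768093a5, 4)]⟩

def c_3525 : frmChk tA tB F_3525 = true := by decide +kernel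

def r_3525_0 : chkL rootF engF2 tA tB sA_354 sB_354 4 F_3525 [(511, 0, 0)]
    0x417 = true := by
  decide +kernel

theorem f_3525 (h : TabsF) : FrameF repsF 354 F_3525.f :=
  frame_of rfl c_3525 (runs_of engOK r_3525_0) (by decide +kernel) h.1 h.2

def F_3526 : FrX :=
  ⟨0x2002000900044004000e02041000141000800040800400448001204002000c000201210010880008800401000110020c0010410405008000801140009010,
    0xa3, 1, 0x104353638092a6, 7,
    [(0xa3, 1), (0x208693a5, 4), (0x10548793, 4), (0x217693a4, 4), (0x208693a5, 4), (0x10548793, 4)],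
    [(0x104353638092a6, 7), (0x317498a6, 4), (0x435280a7, 4), (0x526174a3, 4), (0x435280a7, 4), (0x417690a3, 4), (0x526398a1, 4), (0x526174a3, 4), (0x526398a1, 4), (0x617380a4, 4), (0x526174a3, 4), (0x417690a3, 4)]⟩

def c_3526 : frmChk tA tB F_3526 = true := by decide +kernel

def r_3526_0 : chkL rootF engF2 tA tB sA_354 sB_354 4 F_3526 [(511, 0, 0)]
    0x109c2e0b82e0d83609c3a1584e = true := by
  decide +kernel

theorem f_3526 (h : TabsF) : FrameF repsF 354 F_3526.f :=
  frame_of rfl c_3526 (runs_of engOK r_3526_0) (by decide +kernel) h.1 h.2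

def F_3527 : FrX :=
  ⟨0x80080a000804040e00002101002001000002040890010001808004020440001040808050000031000048001014002002300081032000408900009080080,
    0xa6, 1, 0x3140638692a1, 6,
    [(0xa6, 1), (0x205396a8, 4), (0x10548796, 4), (0x214396a7, 4), (0x205396a8, 4), (0x10548796, 4)],
    [(0x3140638692a1, 6), (0x32658194, 4), (0x325071a4, 4), (0x326087a9, 4), (0x32658194, 4), (0x325071a4, 4)]⟩

def c_3527 : frmChk tA tA F_3527 = true := by decide +kernel

def r_3527_0 : chkL rootF engF2 tA tA sA_354 sA_354 4 F_3527 [(511, 0, 0)]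
    0x46303c5a = true := by
  decide +kernel

theorem f_3527 (h : TabsF) : FrameF repsF 354 F_3527.f :=
  frame_of rfl c_3527 (runs_of engOK r_3527_0) (by decide +kernel) h.1 h.1

def F_3528 : FrX :=
  ⟨0x2002000900044004000e02041000141000800040801002080050020200802022000022200902000224000008401010002040004880440208002242092000,
    0xa3, 1, 0x325363728791a0, 7,
    [(0xa3, 1), (0x208693a5, 4), (0x10548793, 4), (0x217693a4, 4), (0x208693a5, 4), (0x10548793, 4)],
    [(0x325363728791a0, 7), (0x436582a7, 4), (0x104285a9, 4), (0x10546382, 4), (0x104285a9, 4), (0x32548697, 4), (0x105364a7, 4), (0x10546382, 4), (0x105364a7, 4), (0x526384a9, 4), (0x10546382, 4), (0x32548697, 4)]⟩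

def c_3528 : frmChk tA tB F_3528 = true := by decide +kernel

def r_3528_0 : chkL rootF engF2 tA tB sA_354 sB_354 4 F_3528 [(511, 0, 0)]
    0x45a = true := by
  decide +kernel

theorem f_3528 (h : TabsF) : FrameF repsF 354 F_3528.f :=
  frame_of rfl c_3528 (runs_of engOK r_3528_0) (by decide +kernel) h.1 h.2

def F_3529 : FrX :=
  ⟨0x80080a000804040e000021010020010000020408810110010044004084800000040c402000800400a010000044100108001110032004404080825000200,
    0xa6, 1, 0x1040738492a4, 6,
    [(0xa6, 1), (0x205396a8, 4), (0x10548796, 4), (0x214396a7, 4), (0x205396a8, 4), (0x10548796, 4)],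
    [(0x1040738492a4, 6), (0x537694a1, 4), (0x406382a5, 4), (0x537182a6, 4), (0x406382a5, 4), (0x517390a6, 4), (0x618294a7, 4), (0x537182a6, 4), (0x618294a7, 4), (0x406571a3, 4), (0x537182a6, 4), (0x517390a6, 4)]⟩

def c_3529 : frmChk tA tB F_3529 = true := by decide +kernel

def r_3529_0 : chkL rootF engF2 tA tB sA_354 sB_354 4 F_3529 [(511, 0, 0)]
    0x103c0f = true := by
  decide +kernel

theorem f_3529 (h : TabsF) : FrameF repsF 354 F_3529.f :=
  frame_of rfl c_3529 (runs_of engOK r_3529_0) (by decide +kernel) h.1 h.2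

def F_3530 : FrX :=
  ⟨0x2002000900044004000e02041000141000800040810000018100804200812008140000120102500080420208200030002000a20000400200440202000250,
    0xa3, 1, 0x203250728397a6, 7,
    [(0xa3, 1), (0x208693a5, 4), (0x10548793, 4), (0x217693a4, 4), (0x208693a5, 4), (0x10548793, 4)],
    [(0x203250728397a6, 7), (0x407592a8, 4), (0x425163a9, 4), (0x638092a4, 4), (0x425163a9, 4), (0x207198a4, 4), (0x637584a0, 4), (0x638092a4, 4), (0x637584a0, 4), (0x518094a2, 4), (0x638092a4, 4), (0x207198a4, 4)]⟩

def c_3530 : frmChk tA tB F_3530 = true := by decide +kernel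

def r_3530_0 : chkL rootF engF2 tA tB sA_354 sB_354 4 F_3530 [(511, 0, 0)]
    0x4177206505dc81941705c39 = true := by
  decide +kernel

theorem f_3530 (h : TabsF) : FrameF repsF 354 F_3530.f :=
  frame_of rfl c_3530 (runs_of engOK r_3530_0) (by decide +kernel) h.1 h.2

def F_3531 : FrX :=
  ⟨0x80080a000804040e000021010020010000020408a000020810c40000841000004108043000008400230810082000300014000103001000c000802220010,
    0xa6, 1, 0x10314260738090a3, 8,
    [(0xa6, 1), (0x205396a8, 4), (0x10548796, 4), (0x214396a7, 4), (0x205396a8, 4), (0x10548796, 4)],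
    [(0x10314260738090a3, 8), (0x506294a1, 4), (0x10528793, 4), (0x215087a6, 4), (0x10528793, 4), (0x214365a0, 4), (0x618794a2, 4), (0x215087a6, 4), (0x618794a2, 4), (0x205193a6, 4), (0x215087a6, 4), (0x214365a0, 4)]⟩

def c_3531 : frmChk tA tB F_3531 = true := by decide +kernel

def r_3531_0 : chkL rootF engF2 tA tB sA_354 sB_354 4 F_3531 [(511, 0, 0)]
    0x46c15417154171541709c71 = true := by
  decide +kernel

theorem f_3531 (h : TabsF) : FrameF repsF 354 F_3531.f :=
  frame_of rfl c_3531 (runs_of engOK r_3531_0) (by decide +kernel) h.1 h.2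

def F_3532 : FrX :=
  ⟨0x600020801080810000c0040180410101001004002014004000082100124000040400526000140008000110a02000800300220210104000014009008040,
    0xa0, 1, 0x304252758097a3, 7,
    [(0xa0, 1), (0x637584a2, 4), (0x547690a1, 4), (0x64758390, 4), (0x547690a1, 4), (0x21647385, 4), (0x438690a2, 4), (0x64758390, 4), (0x438690a2, 4), (0x657483a1, 4), (0x64758390, 4), (0x21647385, 4)],
    [(0x304252758097a3, 7), (0x328597a6, 4), (0x40728196, 4), (0x406297a3, 4), (0x40728196, 4), (0x516273a9, 4), (0x406385a2, 4), (0x406297a3, 4), (0x406385a2, 4), (0x768192a3, 4), (0x406297a3, 4), (0x516273a9, 4)]⟩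

def c_3532 : frmChk tB tB F_3532 = true := by decide +kernel

def r_3532_0 : chkL rootF engF2 tB tB sB_354 sB_354 4 F_3532 [(511, 0, 0)]
    0x1 = true := by
  decide +kernel

theorem f_3532 (h : TabsF) : FrameF repsF 354 F_3532.f :=
  frame_of rfl c_3532 (runs_of engOK r_3532_0) (by decide +kernel) h.2 h.2

theorem cl_354 (h : TabsF) : ∀ f ∈ fr_354, FrameF repsF 354 f :=
  List.forall_mem_cons.2 ⟨f_3505 h, List.forall_mem_cons.2 ⟨f_3506 h, List.forall_mem_cons.2 ⟨f_3507 h, List.forall_mem_cons.2 ⟨f_3508 h, List.forall_mem_cons.2 ⟨f_3509 h, List.forall_mem_cons.2 ⟨f_3510 h, List.forall_mem_cons.2 ⟨f_3511 h, List.forall_mem_cons.2 ⟨f_3512 h, List.forall_mem_cons.2 ⟨f_3513 h, List.forall_mem_cons.2 ⟨f_3514 h, List.forall_mem_cons.2 ⟨f_3515 h, List.forall_mem_cons.2 ⟨f_3516 h, List.forall_mem_cons.2 ⟨f_3517 h, List.forall_mem_cons.2 ⟨f_3518 h, List.forall_mem_cons.2 ⟨f_3519 h, List.forall_mem_cons.2 ⟨f_3520 h, List.forall_mem_cons.2 ⟨f_3521 h, List.forall_mem_cons.2 ⟨f_3522 h, List.forall_mem_cons.2 ⟨f_3523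 h, List.forall_mem_cons.2 ⟨f_3524 h, List.forall_mem_cons.2 ⟨f_3525 h, List.forall_mem_cons.2 ⟨f_3526 h, List.forall_mem_cons.2 ⟨f_3527 h, List.forall_mem_cons.2 ⟨f_3528 h, List.forall_mem_cons.2 ⟨f_3529 h, List.forall_mem_cons.2 ⟨f_3530 h, List.forall_mem_cons.2 ⟨f_3531 h, List.forall_mem_cons.2 ⟨f_3532 h,
    fun _ h0 => absurd h0 List.not_mem_nil⟩⟩⟩⟩⟩⟩⟩⟩⟩⟩⟩⟩⟩⟩⟩⟩⟩⟩⟩⟩⟩⟩⟩⟩⟩⟩⟩⟩

def F_3533 : FrX :=
  ⟨0x2002000900044004000e02041000141000800040800802010820004100014048060001008028400220100080802068000320100041008008004004084040,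
    0xa3, 1, 0x435263758794a3, 7,
    [(0xa3, 1), (0x208693a5, 4), (0x10548793, 4), (0x217693a4, 4), (0x208693a5, 4), (0x10548793, 4)],
    [(0x435263758794a3, 7), (0x425063a7, 4), (0x10638297, 4), (0x516384a9, 4), (0x425063a7, 4), (0x10638297, 4)]⟩

def c_3533 : frmChk tA tA F_3533 = true := by decide +kernel

def r_3533_0 : chkL rootF engF2 tA tA sA_355 sA_355 4 F_3533 [(511, 0, 0)]
    0x106c1b0b42d0cd4370855 = true := by
  decide +kernel

theorem f_3533 (h : TabsF) : FrameF repsF 355 F_3533.f :=
  frame_of rfl c_3533 (runs_of engOK r_3533_0) (by decide +kernel) h.1 h.1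

def F_3534 : FrX :=
  ⟨0x2002000900044004000e02041000141000800040801002020210100140204041000201020008004082a00030024030201800088080001000200220081001,
    0xa3, 1, 0x304252627598a0, 7,
    [(0xa3, 1), (0x208693a5, 4), (0x10548793, 4), (0x217693a4, 4), (0x208693a5, 4), (0x10548793, 4)],
    [(0x304252627598a0, 7), (0x708395a6, 4), (0x728394a1, 4), (0x20546183, 4), (0x708395a6, 4), (0x728394a1, 4)]⟩

def c_3534 : frmChk tA tA F_3534 = true := by decide +kernel

def r_3534_0 : chkL rootF engF2 tA tA sA_355 sA_355 4 F_3534 [(511, 0, 0)]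
    0x12d03509d346324a0b47282c59 = true := by
  decide +kernel

theorem f_3534 (h : TabsF) : FrameF repsF 355 F_3534.f :=
  frame_of rfl c_3534 (runs_of engOK r_3534_0) (by decide +kernel) h.1 h.1

def F_3535 : FrX :=
  ⟨0x80080a000804040e000021010020010000020408a00002081181000084002020010804004000842828002201200016008044080200100002020c0008010,
    0xa6, 1, 0x21324251708390a3, 8,
    [(0xa6, 1), (0x205396a8, 4), (0x10548796, 4), (0x214396a7, 4), (0x205396a8, 4), (0x10548796, 4)],
    [(0x21324251708390a3, 8), (0x618794a2, 4), (0x10328795, 4), (0x546087a3, 4), (0x618794a2, 4), (0x10328795, 4)]⟩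

def c_3535 : frmChk tA tA F_3535 = true := by decide +kernel

def r_3535_0 : chkL rootF engF2 tA tA sA_355 sA_355 4 F_3535 [(511, 0, 0)]
    0x18344d9301d12c721d0177804d50dc2 = true := by
  decide +kernel

theorem f_3535 (h : TabsF) : FrameF repsF 355 F_3535.f :=
  frame_of rfl c_3535 (runs_of engOK r_3535_0) (by decide +kernel) h.1 h.1

def F_3536 : FrX :=
  ⟨0x482000044040440000c2040020009000182040010008081101000808080404220010008001440220000808800129000120102004008002040810010410,
    0xa0, 1, 0x2131416472a0, 6,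
    [(0xa0, 1), (0x538690a2, 4), (0x548790a1, 4), (0x21437690, 4), (0x538690a2, 4), (0x548790a1, 4)],
    [(0x2131416472a0, 6), (0x528390a7, 4), (0x658190a4, 4), (0x31627490, 4), (0x528390a7, 4), (0x658190a4, 4)]⟩

def c_3536 : frmChk tA tA F_3536 = true := by decide +kernel

def r_3536_0 : chkL rootF engF2 tA tA sA_355 sA_355 4 F_3536 [(511, 0, 0)]
    0x4360b83a05c2d = true := by
  decide +kernel

theorem f_3536 (h : TabsF) : FrameF repsF 355 F_3536.f :=
  frame_of rfl c_3536 (runs_of engOK r_3536_0) (by decide +kernel) h.1 h.1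

def F_3537 : FrX :=
  ⟨0x2002000900044004000e02041000141000800040800801014020004102104080200100100c000804802021002040581000000a0010800080540210040200,
    0xa3, 1, 0x10324352758095a6, 8,
    [(0xa3, 1), (0x208693a5, 4), (0x10548793, 4), (0x217693a4, 4), (0x208693a5, 4), (0x10548793, 4)],
    [(0x10324352758095a6, 8), (0x768594a1, 4), (0x31768092, 4), (0x425076a3, 4), (0x768594a1, 4), (0x31768092, 4)]⟩

def c_3537 : frmChk tA tA F_3537 = true := by decide +kernel

def r_3537_0 : chkL rootF engF2 tA tA sA_355 sA_355 4 F_3537 [(511, 0, 0)]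
    0x46514c1e = true := by
  decide +kernel

theorem f_3537 (h : TabsF) : FrameF repsF 355 F_3537.f :=
  frame_of rfl c_3537 (runs_of engOK r_3537_0) (by decide +kernel) h.1 h.1

def F_3538 : FrX :=
  ⟨0x482000044040440000c204002000900018204000110100200102080140010200060006000800400088084901011808004000800a200082500010200004,
    0xa0, 1, 0x4150637093a0, 6,
    [(0xa0, 1), (0x538690a2, 4), (0x548790a1, 4), (0x21437690, 4), (0x538690a2, 4), (0x548790a1, 4)],
    [(0x4150637093a0, 6), (0x508193a2, 4), (0x105376a4, 4), (0x31507698, 4), (0x105376a4, 4), (0x31428095, 4), (0x768391a2, 4), (0x31507698, 4), (0x768391a2, 4), (0x305198a4, 4), (0x31507698, 4), (0x31428095, 4)]⟩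

def c_3538 : frmChk tA tB F_3538 = true := by decide +kernel

def r_3538_0 : chkL rootF engF2 tA tB sA_355 sB_355 4 F_3538 [(511, 0, 0)]
    0x61614c1d03c2d = true := by
  decide +kernel

theorem f_3538 (h : TabsF) : FrameF repsF 355 F_3538.f :=
  frame_of rfl c_3538 (runs_of engOK r_3538_0) (by decide +kernel) h.1 h.2

def F_3539 : FrX :=
  ⟨0x482000044040440000c20400200090001820400004420101021002000800220082020010880008208000048080b1060000004302000202002210800002,
    0xa0, 1, 0x2152647681a0, 6,
    [(0xa0, 1), (0x538690a2, 4), (0x548790a1, 4), (0x21437690, 4), (0x538690a2, 4), (0x548790a1, 4)],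
    [(0x2152647681a0, 6), (0x416273a5, 4), (0x617490a8, 4), (0x32417690, 4), (0x617490a8, 4), (0x21437685, 4), (0x637290a5, 4), (0x32417690, 4), (0x637290a5, 4), (0x326471a8, 4), (0x32417690, 4), (0x21437685, 4)]⟩

def c_3539 : frmChk tA tB F_3539 = true := by decide +kernel

def r_3539_0 : chkL rootF engF2 tA tB sA_355 sB_355 4 F_3539 [(511, 0, 0)]
    0x12541e0f2164c83c = true := by
  decide +kernel

theorem f_3539 (h : TabsF) : FrameF repsF 355 F_3539.f :=
  frame_of rfl c_3539 (runs_of engOK r_3539_0) (by decide +kernel) h.1 h.2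

def F_3540 : FrX :=
  ⟨0x80080a000804040e00002101002001000002040881011001008400020484000004121000a02802002000000606042400000090006082a00202111000000,
    0xa6, 1, 0x3150648297a6, 6,
    [(0xa6, 1), (0x205396a8, 4), (0x10548796, 4), (0x214396a7, 4), (0x205396a8, 4), (0x10548796, 4)],
    [(0x3150648297a6, 6), (0x107485a2, 4), (0x53607492, 4), (0x617483a9, 4), (0x107485a2, 4), (0x53607492, 4)]⟩

def c_3540 : frmChk tA tA F_3540 = true := by decide +kernel

def r_3540_0 : chkL rootF engF2 tA tA sA_355 sA_355 4 F_3540 [(511, 0, 0)]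
    0x106c1b0b954ca01b = true := by
  decide +kernel

theorem f_3540 (h : TabsF) : FrameF repsF 355 F_3540.f :=
  frame_of rfl c_3540 (runs_of engOK r_3540_0) (by decide +kernel) h.1 h.1

def F_3541 : FrX :=
  ⟨0x2002000900044004000e0204100014100080004081004804200800200a000080140088000808010212020808400010802040200084001000440402206001,
    0xa3, 1, 0x203143607083a0, 7,
    [(0xa3, 1), (0x208693a5, 4), (0x10548793, 4), (0x217693a4, 4), (0x208693a5, 4), (0x10548793, 4)],
    [(0x203143607083a0, 7), (0x428597a0, 4), (0x516497a3, 4), (0x30628197, 4), (0x428597a0, 4), (0x516497a3, 4)]⟩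

def c_3541 : frmChk tA tA F_3541 = true := by decide +kernel

def r_3541_0 : chkL rootF engF2 tA tA sA_355 sA_355 4 F_3541 [(511, 0, 0)]
    0x13182d12c390cc1d = true := by
  decide +kernel

theorem f_3541 (h : TabsF) : FrameF repsF 355 F_3541.f :=
  frame_of rfl c_3541 (runs_of engOK r_3541_0) (by decide +kernel) h.1 h.1

def F_3542 : FrX :=
  ⟨0x482000044040440000c2040020009000182040000821100008020080010104200082050080020200803410204008000300001230110120004000010208,
    0xa0, 1, 0x415062728593a8, 7,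
    [(0xa0, 1), (0x538690a2, 4), (0x548790a1, 4), (0x21437690, 4), (0x538690a2, 4), (0x548790a1, 4)],
    [(0x415062728593a8, 7), (0x307598a2, 4), (0x305481a6, 4), (0x30627491, 4), (0x307598a2, 4), (0x305481a6, 4)]⟩

def c_3542 : frmChk tA tA F_3542 = true := by decide +kernel

def r_3542_0 : chkL rootF engF2 tA tA sA_355 sA_355 4 F_3542 [(511, 0, 0)]
    0x44718c1703c4790e5211c639140f704933465130c2b1b059 = true := by
  decide +kernel

theorem f_3542 (h : TabsF) : FrameF repsF 355 F_3542.f :=
  frame_of rfl c_3542 (runs_of engOK r_3542_0) (by decide +kernel) h.1 h.1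

def F_3543 : FrX :=
  ⟨0x482000044040440000c2040020009000182040020001100100020280024022108080000081040242100100304008108088010000600100004004210208,
    0xa0, 1, 0x214250768097a5, 7,
    [(0xa0, 1), (0x538690a2, 4), (0x548790a1, 4), (0x21437690, 4), (0x538690a2, 4), (0x548790a1, 4)],
    [(0x214250768097a5, 7), (0x607584a3, 4), (0x608295a1, 4), (0x31426097, 4), (0x607584a3, 4), (0x608295a1, 4)]⟩

def c_3543 : frmChk tA tA F_3543 = true := by decide +kernel

def r_3543_0 : chkL rootF engF2 tA tA sA_355 sA_355 4 F_3543 [(511, 0, 0)]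
    0x40f11c479140f03c0f11c0f03c17 = true := by
  decide +kernel

theorem f_3543 (h : TabsF) : FrameF repsF 355 F_3543.f :=
  frame_of rfl c_3543 (runs_of engOK r_3543_0) (by decide +kernel) h.1 h.1

def F_3544 : FrX :=
  ⟨0x482000044040440000c2040020009000182040023000500000020200010c04800080040082501008080020204020040380000202000921000002200248,
    0xa0, 1, 0x304153718696a6, 7,
    [(0xa0, 1), (0x538690a2, 4), (0x548790a1, 4), (0x21437690, 4), (0x538690a2, 4), (0x548790a1, 4)],
    [(0x304153718696a6, 7), (0x324061a5, 4), (0x107398a4, 4), (0x406598a1, 4), (0x107398a4, 4), (0x546072a1, 4), (0x325198a6, 4), (0x406598a1, 4), (0x325198a6, 4), (0x416573a0, 4), (0x406598a1, 4), (0x546072a1, 4)]⟩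

def c_3544 : frmChk tA tB F_3544 = true := by decide +kernel

def r_3544_0 : chkL rootF engF2 tA tB sA_355 sB_355 4 F_3544 [(511, 0, 0)]
    0x436 = true := by
  decide +kernel

theorem f_3544 (h : TabsF) : FrameF repsF 355 F_3544.f :=
  frame_of rfl c_3544 (runs_of engOK r_3544_0) (by decide +kernel) h.1 h.2

def F_3545 : FrX :=
  ⟨0x80080a000804040e00002101002001000002040882012000088024000440010040013000c00010812120000604002840004001005002000404311008000,
    0xa6, 1, 0x314051627590a2, 7,
    [(0xa6, 1), (0x205396a8, 4), (0x10548796, 4), (0x214396a7, 4), (0x205396a8, 4), (0x10548796, 4)],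
    [(0x314051627590a2, 7), (0x217380a9, 4), (0x32647095, 4), (0x20647381, 4), (0x32647095, 4), (0x203187a5, 4), (0x106482a9, 4), (0x20647381, 4), (0x106482a9, 4), (0x30728195, 4), (0x20647381, 4), (0x203187a5, 4)]⟩

def c_3545 : frmChk tA tB F_3545 = true := by decide +kernel

def r_3545_0 : chkL rootF engF2 tA tB sA_355 sB_355 4 F_3545 [(511, 0, 0)]
    0x44d = true := by
  decide +kernel

theorem f_3545 (h : TabsF) : FrameF repsF 355 F_3545.f :=
  frame_of rfl c_3545 (runs_of engOK r_3545_0) (by decide +kernel) h.1 h.2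

def F_3546 : FrX :=
  ⟨0x482000044040440000c204002000900018204000408208010110000800840400480200088280022000002040c010400010010006210100211820200080,
    0xa0, 1, 0x314351617082a3, 7,
    [(0xa0, 1), (0x538690a2, 4), (0x548790a1, 4), (0x21437690, 4), (0x538690a2, 4), (0x548790a1, 4)],
    [(0x314351617082a3, 7), (0x528794a3, 4), (0x20317694, 4), (0x508694a1, 4), (0x528794a3, 4), (0x20317694, 4)]⟩

def c_3546 : frmChk tA tA F_3546 = true := by decide +kernel

def r_3546_0 : chkL rootF engF2 tA tA sA_355 sA_355 4 F_3546 [(511, 0, 0)]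
    0x103da11981b0741b = true := by
  decide +kernel

theorem f_3546 (h : TabsF) : FrameF repsF 355 F_3546.f :=
  frame_of rfl c_3546 (runs_of engOK r_3546_0) (by decide +kernel) h.1 h.1

def F_3547 : FrX :=
  ⟨0x2002000900044004000e020410001410008000408008002840102000a0800882000024000904000224014000c000608020000810308080002020100c4000,
    0xa3, 1, 0x103064768797a0, 7,
    [(0xa3, 1), (0x208693a5, 4), (0x10548793, 4), (0x217693a4, 4), (0x208693a5, 4), (0x10548793, 4)],
    [(0x103064768797a0, 7), (0x517483a2, 4), (0x658394a0, 4), (0x20618397, 4), (0x517483a2, 4), (0x658394a0, 4)]⟩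

def c_3547 : frmChk tA tA F_3547 = true := by decide +kernel

def r_3547_0 : chkL rootF engF2 tA tA sA_355 sA_355 4 F_3547 [(511, 0, 0)]
    0x4394362698827 = true := by
  decide +kernel

theorem f_3547 (h : TabsF) : FrameF repsF 355 F_3547.f :=
  frame_of rfl c_3547 (runs_of engOK r_3547_0) (by decide +kernel) h.1 h.1

def F_3548 : FrX :=
  ⟨0x80080a000804040e00002101002001000002040890010140210000808802001010100400804041020008000c08042c00021a40010000100244200800080,
    0xa6, 1, 0x213240526473a2, 7,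
    [(0xa6, 1), (0x205396a8, 4), (0x10548796, 4), (0x214396a7, 4), (0x205396a8, 4), (0x10548796, 4)],
    [(0x213240526473a2, 7), (0x738095a4, 4), (0x42638195, 4), (0x107695a2, 4), (0x738095a4, 4), (0x42638195, 4)]⟩

def c_3548 : frmChk tA tA F_3548 = true := by decide +kernel

def r_3548_0 : chkL rootF engF2 tA tA sA_355 sA_355 4 F_3548 [(511, 0, 0)]
    0x42e05c1e0741d2b01d15546360710db90390560e82b = true := by
  decide +kernel

theorem f_3548 (h : TabsF) : FrameF repsF 355 F_3548.f :=
  frame_of rfl c_3548 (runs_of engOK r_3548_0) (by decide +kernel) h.1 h.1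

def F_3549 : FrX :=
  ⟨0x2002000900044004000e02041000141000800040800401024008400010240040100284004084309008080006000020000300201080001022040024200201,
    0xa3, 1, 0x31718395a7, 5,
    [(0xa3, 1), (0x208693a5, 4), (0x10548793, 4), (0x217693a4, 4), (0x208693a5, 4), (0x10548793, 4)],
    [(0x31718395a7, 5), (0x204186a9, 4), (0x537094a6, 4), (0x536481a9, 4), (0x537094a6, 4), (0x647291a8, 4), (0x20536184, 4), (0x536481a9, 4), (0x20536184, 4), (0x708196a4, 4), (0x536481a9, 4), (0x647291a8, 4)]⟩

def c_3549 : frmChk tA tB F_3549 = true := by decide +kernel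

def r_3549_0 : chkL rootF engF2 tA tB sA_355 sB_355 4 F_3549 [(511, 0, 0)]
    0x43c = true := by
  decide +kernel

theorem f_3549 (h : TabsF) : FrameF repsF 355 F_3549.f :=
  frame_of rfl c_3549 (runs_of engOK r_3549_0) (by decide +kernel) h.1 h.2

def F_3550 : FrX :=
  ⟨0x482000044040440000c2040020009000182040020090880000020280020102800400040101010110600201002010840240001008100200010080110290,
    0xa0, 1, 0x204250607480a4, 7,
    [(0xa0, 1), (0x538690a2, 4), (0x548790a1, 4), (0x21437690, 4), (0x538690a2, 4), (0x548790a1, 4)],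
    [(0x204250607480a4, 7), (0x205384a6, 4), (0x508197a2, 4), (0x206397a5, 4), (0x508197a2, 4), (0x304162a5, 4), (0x658497a3, 4), (0x206397a5, 4), (0x658497a3, 4), (0x526381a0, 4), (0x206397a5, 4), (0x304162a5, 4)]⟩

def c_3550 : frmChk tA tB F_3550 = true := by decide +kernel

def r_3550_0 : chkL rootF engF2 tA tB sA_355 sB_355 4 F_3550 [(511, 0, 0)]
    0x4b103c0f03c0f854b10744716525b82a403c0f03c3903c1703c170e4352c40f03c0f5441b0e439464996455106c390e417 = true := by
  decide +kernel

theorem f_3550 (h : TabsF) : FrameF repsF 355 F_3550.f :=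
  frame_of rfl c_3550 (runs_of engOK r_3550_0) (by decide +kernel) h.1 h.2

def F_3551 : FrX :=
  ⟨0x80080a000804040e00002101002001000002040890020008048002048240004020401001004021008010480100448100281108080000120044002800080,
    0xa6, 1, 0x30425163738295a2, 8,
    [(0xa6, 1), (0x205396a8, 4), (0x10548796, 4), (0x214396a7, 4), (0x205396a8, 4), (0x10548796, 4)],
    [(0x30425163738295a2, 8), (0x408197a3, 4), (0x53648192, 4), (0x607281a5, 4), (0x408197a3, 4), (0x53648192, 4)]⟩

def c_3551 : frmChk tA tA F_3551 = true := by decide +kernel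

def r_3551_0 : chkL rootF engF2 tA tA sA_355 sA_355 4 F_3551 [(511, 0, 0)]
    0x42e14c170782b = true := by
  decide +kernel

theorem f_3551 (h : TabsF) : FrameF repsF 355 F_3551.f :=
  frame_of rfl c_3551 (runs_of engOK r_3551_0) (by decide +kernel) h.1 h.1

def F_3552 : FrX :=
  ⟨0x482000044040440000c2040020009000182040010080010301000180040044804800000808010410000221002208220100080140028208101020000082,
    0xa0, 1, 0x3152647584a0, 6,
    [(0xa0, 1), (0x538690a2, 4), (0x548790a1, 4), (0x21437690, 4), (0x538690a2, 4), (0x548790a1, 4)],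
    [(0x3152647584a0, 6), (0x647190a5, 4), (0x628790a3, 4), (0x42538190, 4), (0x647190a5, 4), (0x628790a3, 4)]⟩

def c_3552 : frmChk tA tA F_3552 = true := by decide +kernel

def r_3552_0 : chkL rootF engF2 tA tA sA_355 sA_355 4 F_3552 [(511, 0, 0)]
    0x41e0b81e8c4960b82e = true := by
  decide +kernel

theorem f_3552 (h : TabsF) : FrameF repsF 355 F_3552.f :=
  frame_of rfl c_3552 (runs_of engOK r_3552_0) (by decide +kernel) h.1 h.1

def F_3553 : FrX :=
  ⟨0x2002000900044004000e0204100014100080004080040108442000420000c082100000104210010410800004024000220240881020200800002010204201,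
    0xa3, 1, 0x4050627687a3, 6,
    [(0xa3, 1), (0x208693a5, 4), (0x10548793, 4), (0x217693a4, 4), (0x208693a5, 4), (0x10548793, 4)],
    [(0x4050627687a3, 6), (0x206584a7, 4), (0x40518793, 4), (0x708493a2, 4), (0x40518793, 4), (0x426170a8, 4), (0x657293a0, 4), (0x708493a2, 4), (0x657293a0, 4), (0x517480a2, 4), (0x708493a2, 4), (0x426170a8, 4)]⟩

def c_3553 : frmChk tA tB F_3553 = true := by decide +kernel

def r_3553_0 : chkL rootF engF2 tA tB sA_355 sB_355 4 F_3553 [(511, 0, 0)]
    0x11344b = true := by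
  decide +kernel

theorem f_3553 (h : TabsF) : FrameF repsF 355 F_3553.f :=
  frame_of rfl c_3553 (runs_of engOK r_3553_0) (by decide +kernel) h.1 h.2

def F_3554 : FrX :=
  ⟨0x80080a000804040e00002101002001000002040884021000044084008280001000103020010030010808240028000220221002040010101004200028200,
    0xa6, 1, 0x10324252607498a3, 8,
    [(0xa6, 1), (0x205396a8, 4), (0x10548796, 4), (0x214396a7, 4), (0x205396a8, 4), (0x10548796, 4)],
    [(0x10324252607498a3, 8), (0x436597a1, 4), (0x31607482, 4), (0x437182a9, 4), (0x31607482, 4), (0x507194a3, 4), (0x658291a7, 4), (0x437182a9, 4), (0x658291a7, 4), (0x416073a9, 4), (0x437182a9, 4), (0x507194a3, 4)]⟩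

def c_3554 : frmChk tA tB F_3554 = true := by decide +kernel

def r_3554_0 : chkL rootF engF2 tA tB sA_355 sB_355 4 F_3554 [(511, 0, 0)]
    0x453a14cc926c8155a1348d12564514c531544b09c170d42d0ac170ac651a85a = true := by
  decide +kernel

theorem f_3554 (h : TabsF) : FrameF repsF 355 F_3554.f :=
  frame_of rfl c_3554 (runs_of engOK r_3554_0) (by decide +kernel) h.1 h.2

def F_3555 : FrX :=
  ⟨0x2002000900044004000e0204100014100080004080040104200140040104004300000222000208000c08010e008000408140200040441020001020200280,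
    0xa3, 1, 0x5463758294a3, 6,
    [(0xa3, 1), (0x208693a5, 4), (0x10548793, 4), (0x217693a4, 4), (0x208693a5, 4), (0x10548793, 4)],
    [(0x5463758294a3, 6), (0x326580a7, 4), (0x10426597, 4), (0x436581a9, 4), (0x326580a7, 4), (0x10426597, 4)]⟩

def c_3555 : frmChk tA tA F_3555 = true := by decide +kernel

def r_3555_0 : chkL rootF engF2 tA tA sA_355 sA_355 4 F_3555 [(511, 0, 0)]
    0x105c1b198630ac390f00f09c630e84712c1d0ac1e = true := by
  decide +kernel

theorem f_3555 (h : TabsF) : FrameF repsF 355 F_3555.f :=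
  frame_of rfl c_3555 (runs_of engOK r_3555_0) (by decide +kernel) h.1 h.1

def F_3556 : FrX :=
  ⟨0x80080a000804040e00002101002001000002040881040202020008820012004040400040c00041040080901010100802004183004001080440110000010,
    0xa6, 1, 0x21314152748697a6, 8,
    [(0xa6, 1), (0x205396a8, 4), (0x10548796, 4), (0x214396a7, 4), (0x205396a8, 4), (0x10548796, 4)],
    [(0x21314152748697a6, 8), (0x507691a2, 4), (0x407183a9, 4), (0x628391a7, 4), (0x407183a9, 4), (0x546192a7, 4), (0x507283a6, 4), (0x628391a7, 4), (0x507283a6, 4), (0x406297a1, 4), (0x628391a7, 4), (0x546192a7, 4)]⟩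

def c_3556 : frmChk tA tB F_3556 = true := by decide +kernel

def r_3556_0 : chkL rootF engF2 tA tB sA_355 sB_355 4 F_3556 [(511, 0, 0)]
    0x11b05c03c0f = true := by
  decide +kernel

theorem f_3556 (h : TabsF) : FrameF repsF 355 F_3556.f :=
  frame_of rfl c_3556 (runs_of engOK r_3556_0) (by decide +kernel) h.1 h.2

def F_3557 : FrX :=
  ⟨0x2002000900044004000e0204100014100080004080080104820840000820840010010102000801401210020840000080a004218080090000000c02040084,
    0xa3, 1, 0x4251618693a3, 6,
    [(0xa3, 1), (0x208693a5, 4), (0x10548793, 4), (0x217693a4, 4), (0x208693a5, 4), (0x10548793, 4)],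
    [(0x4251618693a3, 6), (0x405271a8, 4), (0x21608793, 4), (0x718293a5, 4), (0x21608793, 4), (0x516482a7, 4), (0x408593a2, 4), (0x718293a5, 4), (0x408593a2, 4), (0x607281a5, 4), (0x718293a5, 4), (0x516482a7, 4)]⟩

def c_3557 : frmChk tA tB F_3557 = true := by decide +kernel

def r_3557_0 : chkL rootF engF2 tA tB sA_355 sB_355 4 F_3557 [(511, 0, 0)]
    0x11695114c270e49c2e123 = true := by
  decide +kernel

theorem f_3557 (h : TabsF) : FrameF repsF 355 F_3557.f :=
  frame_of rfl c_3557 (runs_of engOK r_3557_0) (by decide +kernel) h.1 h.2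

def F_3558 : FrX :=
  ⟨0x482000044040440000c2040020009000182040004008220804080004080088200022001110009020000010084808408018003010040100101200010201,
    0xa0, 1, 0x2041607184a2, 6,
    [(0xa0, 1), (0x538690a2, 4), (0x548790a1, 4), (0x21437690, 4), (0x538690a2, 4), (0x548790a1, 4)],
    [(0x2041607184a2, 6), (0x325481a6, 4), (0x42768590, 4), (0x31548290, 4), (0x42768590, 4), (0x435182a7, 4), (0x218390a6, 4), (0x31548290, 4), (0x218390a6, 4), (0x31527684, 4), (0x31548290, 4), (0x435182a7, 4)]⟩

def c_3558 : frmChk tA tB F_3558 = true := by decide +kernel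

def r_3558_0 : chkL rootF engF2 tA tB sA_355 sB_355 4 F_3558 [(511, 0, 0)]
    0x4174a42d2983a = true := by
  decide +kernel

theorem f_3558 (h : TabsF) : FrameF repsF 355 F_3558.f :=
  frame_of rfl c_3558 (runs_of engOK r_3558_0) (by decide +kernel) h.1 h.2

def F_3559 : FrX :=
  ⟨0x80080a000804040e0000210100200100000204088108040020440010084008000901401004002040002480050110104200400a0006400005400100c0000,
    0xa6, 1, 0x3052608197a6, 6,
    [(0xa6, 1), (0x205396a8, 4), (0x10548796, 4), (0x214396a7, 4), (0x205396a8, 4), (0x10548796, 4)],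
    [(0x3052608197a6, 6), (0x416592a0, 4), (0x427386a9, 4), (0x107392a4, 4), (0x427386a9, 4), (0x218590a4, 4), (0x406573a1, 4), (0x107392a4, 4), (0x406573a1, 4), (0x108694a2, 4), (0x107392a4, 4), (0x218590a4, 4)]⟩

def c_3559 : frmChk tA tB F_3559 = true := by decide +kernel

def r_3559_0 : chkL rootF engF2 tA tB sA_355 sB_355 4 F_3559 [(511, 0, 0)]
    0x10b4e10ac2b = true := by
  decide +kernel

theorem f_3559 (h : TabsF) : FrameF repsF 355 F_3559.f :=
  frame_of rfl c_3559 (runs_of engOK r_3559_0) (by decide +kernel) h.1 h.2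

def F_3560 : FrX :=
  ⟨0x600020801080810000c0040180410101001004010010048000002422004040084404004000208182002108080210080840220000800804008400202028,
    0xa0, 1, 0x1041527291a3, 6,
    [(0xa0, 1), (0x637584a2, 4), (0x547690a1, 4), (0x64758390, 4), (0x547690a1, 4), (0x21647385, 4), (0x438690a2, 4), (0x64758390, 4), (0x438690a2, 4), (0x657483a1, 4), (0x64758390, 4), (0x21647385, 4)],
    [(0x1041527291a3, 6), (0x527180a6, 4), (0x20436591, 4), (0x435260a8, 4), (0x20436591, 4), (0x608297a5, 4), (0x437186a0, 4), (0x435260a8, 4), (0x437186a0, 4), (0x506291a8, 4), (0x435260a8, 4), (0x608297a5, 4)]⟩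

def c_3560 : frmChk tB tB F_3560 = true := by decide +kernel

def r_3560_0 : chkL rootF engF2 tB tB sB_355 sB_355 4 F_3560 [(511, 0, 0)]
    0x10b88b = true := by
  decide +kernel

theorem f_3560 (h : TabsF) : FrameF repsF 355 F_3560.f :=
  frame_of rfl c_3560 (runs_of engOK r_3560_0) (by decide +kernel) h.2 h.2

theorem cl_355 (h : TabsF) : ∀ f ∈ fr_355, FrameF repsF 355 f :=
  List.forall_mem_cons.2 ⟨f_3533 h, List.forall_mem_cons.2 ⟨f_3534 h, List.forall_mem_cons.2 ⟨f_3535 h, List.forall_mem_cons.2 ⟨f_3536 h, List.forall_mem_cons.2 ⟨f_3537 h, List.forall_mem_cons.2 ⟨f_3538 h, List.forall_mem_cons.2 ⟨f_3539 h, List.forall_mem_cons.2 ⟨f_3540 h, List.forall_mem_cons.2 ⟨f_3541 h, List.forall_mem_cons.2 ⟨f_3542 h, List.forall_mem_cons.2 ⟨f_3543 h, List.forall_mem_cons.2 ⟨f_3544 h, List.forall_mem_cons.2 ⟨f_3545 h, List.forall_mem_cons.2 ⟨f_3546 h, List.forall_mem_cons.2 ⟨f_3547 h, List.forall_mem_cons.2 ⟨f_3548 h, List.forall_mem_cons.2 ⟨f_3549 h, List.forall_mem_cons.2 ⟨f_3550 h, List.forall_mem_cons.2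 ⟨f_3551 h, List.forall_mem_cons.2 ⟨f_3552 h, List.forall_mem_cons.2 ⟨f_3553 h, List.forall_mem_cons.2 ⟨f_3554 h, List.forall_mem_cons.2 ⟨f_3555 h, List.forall_mem_cons.2 ⟨f_3556 h, List.forall_mem_cons.2 ⟨f_3557 h, List.forall_mem_cons.2 ⟨f_3558 h, List.forall_mem_cons.2 ⟨f_3559 h, List.forall_mem_cons.2 ⟨f_3560 h,
    fun _ h0 => absurd h0 List.not_mem_nil⟩⟩⟩⟩⟩⟩⟩⟩⟩⟩⟩⟩⟩⟩⟩⟩⟩⟩⟩⟩⟩⟩⟩⟩⟩⟩⟩⟩

def F_3561 : FrX :=
  ⟨0x80080a000804040e00002101002001000002040880410808020010050042002020020408400440120000180880040102202082020010208002222000010,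
    0xa6, 1, 0x3043738797a1, 6,
    [(0xa6, 1), (0x205396a8, 4), (0x10548796, 4), (0x214396a7, 4), (0x205396a8, 4), (0x10548796, 4)],
    [(0x3043738797a1, 6), (0x32407695, 4), (0x508196a3, 4), (0x60748195, 4), (0x508196a3, 4), (0x546097a2, 4), (0x32647081, 4), (0x60748195, 4), (0x32647081, 4), (0x657490a3, 4), (0x60748195, 4), (0x546097a2, 4)]⟩

def c_3561 : frmChk tA tB F_3561 = true := by decide +kernel

def r_3561_0 : chkL rootF engF2 tA tB sA_356 sB_356 4 F_3561 [(511, 0, 0)]
    0x60d61a0d0b41d = true := by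
  decide +kernel

theorem f_3561 (h : TabsF) : FrameF repsF 356 F_3561.f :=
  frame_of rfl c_3561 (runs_of engOK r_3561_0) (by decide +kernel) h.1 h.2

def F_3562 : FrX :=
  ⟨0x2002000900044004000e02041000141000800040800802010801044102004040020101008028400220100080802048100300100041008008004024084040,
    0xa3, 1, 0x3162718090a3, 6,
    [(0xa3, 1), (0x208693a5, 4), (0x10548793, 4), (0x217693a4, 4), (0x208693a5, 4), (0x10548793, 4)],
    [(0x3162718090a3, 6), (0x208196a5, 4), (0x30548197, 4), (0x327681a4, 4), (0x208196a5, 4), (0x30548197, 4)]⟩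

def c_3562 : frmChk tA tA F_3562 = true := by decide +kernel

def r_3562_0 : chkL rootF engF2 tA tA sA_356 sA_356 4 F_3562 [(511, 0, 0)]
    0x10e40f = true := by
  decide +kernel

theorem f_3562 (h : TabsF) : FrameF repsF 356 F_3562.f :=
  frame_of rfl c_3562 (runs_of engOK r_3562_0) (by decide +kernel) h.1 h.1

def F_3563 : FrX :=
  ⟨0x2002000900044004000e02041000141000800040801002020210100140204041000201020008004020a00031024000021844088080201000200020081001,
    0xa3, 1, 0x304252627598a0, 7,
    [(0xa3, 1), (0x208693a5, 4), (0x10548793, 4), (0x217693a4, 4), (0x208693a5, 4), (0x10548793, 4)],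
    [(0x304252627598a0, 7), (0x708395a6, 4), (0x728394a1, 4), (0x20546183, 4), (0x708395a6, 4), (0x728394a1, 4)]⟩

def c_3563 : frmChk tA tA F_3563 = true := by decide +kernel

def r_3563_0 : chkL rootF engF2 tA tA sA_356 sA_356 4 F_3563 [(511, 0, 0)]
    0x10e455 = true := by
  decide +kernel

theorem f_3563 (h : TabsF) : FrameF repsF 356 F_3563.f :=
  frame_of rfl c_3563 (runs_of engOK r_3563_0) (by decide +kernel) h.1 h.1

def F_3564 : FrX :=
  ⟨0x80080a000804040e000021010020010000020408a00002081001044084802020000804004000842208002211200014208044080200100002020c0008010,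
    0xa6, 1, 0x3141527597a8, 6,
    [(0xa6, 1), (0x205396a8, 4), (0x10548796, 4), (0x214396a7, 4), (0x205396a8, 4), (0x10548796, 4)],
    [(0x3141527597a8, 6), (0x507182a6, 4), (0x407382a9, 4), (0x31548296, 4), (0x507182a6, 4), (0x407382a9, 4)]⟩

def c_3564 : frmChk tA tA F_3564 = true := by decide +kernel

def r_3564_0 : chkL rootF engF2 tA tA sA_356 sA_356 4 F_3564 [(511, 0, 0)]
    0x11642712e07 = true := by
  decide +kernel

theorem f_3564 (h : TabsF) : FrameF repsF 356 F_3564.f :=
  frame_of rfl c_3564 (runs_of engOK r_3564_0) (by decide +kernel) h.1 h.1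

def F_3565 : FrX :=
  ⟨0x482000044040440000c2040020009000182040010008081101000808080404220010008001440220000808800101102100502004108000040802000450,
    0xa0, 1, 0x2131416472a0, 6,
    [(0xa0, 1), (0x538690a2, 4), (0x548790a1, 4), (0x21437690, 4), (0x538690a2, 4), (0x548790a1, 4)],
    [(0x2131416472a0, 6), (0x528390a7, 4), (0x658190a4, 4), (0x31627490, 4), (0x528390a7, 4), (0x658190a4, 4)]⟩

def c_3565 : frmChk tA tA F_3565 = true := by decide +kernel

def r_3565_0 : chkL rootF engF2 tA tA sA_356 sA_356 4 F_3565 [(511, 0, 0)]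
    0x16480f22c3a0e8724683681c179261611cf003c6a = true := by
  decide +kernel

theorem f_3565 (h : TabsF) : FrameF repsF 356 F_3565.f :=
  frame_of rfl c_3565 (runs_of engOK r_3565_0) (by decide +kernel) h.1 h.1

def F_3566 : FrX :=
  ⟨0x2002000900044004000e02041000141000800040800801014008024002000180200102100c000804802021002040481000010a0010802080500210040200,
    0xa3, 1, 0x415060708395a8, 7,
    [(0xa3, 1), (0x208693a5, 4), (0x10548793, 4), (0x217693a4, 4), (0x208693a5, 4), (0x10548793, 4)],
    [(0x415060708395a8, 7), (0x307298a5, 4), (0x307491a6, 4), (0x30426581, 4), (0x307298a5, 4), (0x307491a6, 4)]⟩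

def c_3566 : frmChk tA tA F_3566 = true := by decide +kernel

def r_3566_0 : chkL rootF engF2 tA tA sA_356 sA_356 4 F_3566 [(511, 0, 0)]
    0x4c506c55 = true := by
  decide +kernel

theorem f_3566 (h : TabsF) : FrameF repsF 356 F_3566.f :=
  frame_of rfl c_3566 (runs_of engOK r_3566_0) (by decide +kernel) h.1 h.1

def F_3567 : FrX :=
  ⟨0x482000044040440000c204002000900018204000044201010210020008002200820200108800082080000480808124010000010a088202002010800402,
    0xa0, 1, 0x2152647681a0, 6,
    [(0xa0, 1), (0x538690a2, 4), (0x548790a1, 4), (0x21437690, 4), (0x538690a2, 4), (0x548790a1, 4)],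
    [(0x2152647681a0, 6), (0x416273a5, 4), (0x617490a8, 4), (0x32417690, 4), (0x617490a8, 4), (0x21437685, 4), (0x637290a5, 4), (0x32417690, 4), (0x637290a5, 4), (0x326471a8, 4), (0x32417690, 4), (0x21437685, 4)]⟩

def c_3567 : frmChk tA tB F_3567 = true := by decide +kernel

def r_3567_0 : chkL rootF engF2 tA tB sA_356 sB_356 4 F_3567 [(511, 0, 0)]
    0x106c2d = true := by
  decide +kernel

theorem f_3567 (h : TabsF) : FrameF repsF 356 F_3567.f :=
  frame_of rfl c_3567 (runs_of engOK r_3567_0) (by decide +kernel) h.1 h.2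

def F_3568 : FrX :=
  ⟨0x1001040012008080000e00840800410008101000044010085020002020080044804000204100048120010010014000800814002004104008101020021c00,
    0xa3, 1, 0x10607580a4, 5,
    [(0xa3, 1), (0x207584a6, 4), (0x10547693, 4), (0x647593a8, 4), (0x10547693, 4), (0x216485a7, 4), (0x208693a4, 4), (0x647593a8, 4), (0x208693a4, 4), (0x106574a8, 4), (0x647593a8, 4), (0x216485a7, 4)],
    [(0x10607580a4, 5), (0x61738294, 4), (0x658094a7, 4), (0x205194a3, 4), (0x61738294, 4), (0x658094a7, 4)]⟩

def c_3568 : frmChk tB tA F_3568 = true := by decide +kernel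

def r_3568_0 : chkL rootF engF2 tB tA sB_356 sA_356 4 F_3568 [(511, 0, 0)]
    0x41b0ac2d0cc3c = true := by
  decide +kernel

theorem f_3568 (h : TabsF) : FrameF repsF 356 F_3568.f :=
  frame_of rfl c_3568 (runs_of engOK r_3568_0) (by decide +kernel) h.2 h.1

def F_3569 : FrX :=
  ⟨0x1001040012008080000e00840800410008101000040420088401110002000800404040104200010181004040010820020000a01204030304001100001010,
    0xa3, 1, 0x2030425084a5, 6,
    [(0xa3, 1), (0x207584a6, 4), (0x10547693, 4), (0x647593a8, 4), (0x10547693, 4), (0x216485a7, 4), (0x208693a4, 4), (0x647593a8, 4), (0x208693a4, 4), (0x106574a8, 4), (0x647593a8, 4), (0x216485a7, 4)],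
    [(0x2030425084a5, 6), (0x546093a2, 4), (0x517093a8, 4), (0x41768293, 4), (0x546093a2, 4), (0x517093a8, 4)]⟩

def c_3569 : frmChk tB tA F_3569 = true := by decide +kernel

def r_3569_0 : chkL rootF engF2 tB tA sB_356 sA_356 4 F_3569 [(511, 0, 0)]
    0x12c4273904e2a84e24c332c436 = true := by
  decide +kernel

theorem f_3569 (h : TabsF) : FrameF repsF 356 F_3569.f :=
  frame_of rfl c_3569 (runs_of engOK r_3569_0) (by decide +kernel) h.2 h.1

def F_3570 : FrX :=
  ⟨0x1001040012008080000e0084080041000810100004082008102042080008002044004010420000a300000082211000210000345080010001014104000004,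
    0xa3, 1, 0x4151637298a3, 6,
    [(0xa3, 1), (0x207584a6, 4), (0x10547693, 4), (0x647593a8, 4), (0x10547693, 4), (0x216485a7, 4), (0x208693a4, 4), (0x647593a8, 4), (0x208693a4, 4), (0x106574a8, 4), (0x647593a8, 4), (0x216485a7, 4)],
    [(0x4151637298a3, 6), (0x708693a4, 4), (0x41508692, 4), (0x327586a1, 4), (0x708693a4, 4), (0x41508692, 4)]⟩

def c_3570 : frmChk tB tA F_3570 = true := by decide +kernel

def r_3570_0 : chkL rootF engF2 tB tA sB_356 sA_356 4 F_3570 [(511, 0, 0)]
    0x10790d05c4d1380f344ca93258b2069 = true := by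
  decide +kernel

theorem f_3570 (h : TabsF) : FrameF repsF 356 F_3570.f :=
  frame_of rfl c_3570 (runs_of engOK r_3570_0) (by decide +kernel) h.2 h.1

def F_3571 : FrX :=
  ⟨0x1001040012008080000e00840800410008101000060002280100102100280044000008080080220820022002080810406104140200020000060000820300,
    0xa3, 1, 0x41546283a2, 5,
    [(0xa3, 1), (0x207584a6, 4), (0x10547693, 4), (0x647593a8, 4), (0x10547693, 4), (0x216485a7, 4), (0x208693a4, 4), (0x647593a8, 4), (0x208693a4, 4), (0x106574a8, 4), (0x647593a8, 4), (0x216485a7, 4)],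
    [(0x41546283a2, 5), (0x328196a0, 4), (0x40517396, 4), (0x728596a4, 4), (0x328196a0, 4), (0x40517396, 4)]⟩

def c_3571 : frmChk tB tA F_3571 = true := by decide +kernel

def r_3571_0 : chkL rootF engF2 tB tA sB_356 sA_356 4 F_3571 [(511, 0, 0)]
    0x1138a61581705c4e = true := by
  decide +kernel

theorem f_3571 (h : TabsF) : FrameF repsF 356 F_3571.f :=
  frame_of rfl c_3571 (runs_of engOK r_3571_0) (by decide +kernel) h.2 h.1

def F_3572 : FrX :=
  ⟨0x600020801080810000c0040180410101001004002020500000081202004020020300801020400140010008822210201080021000400808022009080040,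
    0xa0, 1, 0x2150748693a0, 6,
    [(0xa0, 1), (0x637584a2, 4), (0x547690a1, 4), (0x64758390, 4), (0x547690a1, 4), (0x21647385, 4), (0x438690a2, 4), (0x64758390, 4), (0x438690a2, 4), (0x657483a1, 4), (0x64758390, 4), (0x21647385, 4)],
    [(0x2150748693a0, 6), (0x407698a1, 4), (0x537084a2, 4), (0x40538796, 4), (0x537084a2, 4), (0x21608794, 4), (0x538697a1, 4), (0x40538796, 4), (0x538697a1, 4), (0x748096a2, 4), (0x40538796, 4), (0x21608794, 4)]⟩

def c_3572 : frmChk tB tB F_3572 = true := by decide +kernel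

def r_3572_0 : chkL rootF engF2 tB tB sB_356 sB_356 4 F_3572 [(511, 0, 0)]
    0x1 = true := by
  decide +kernel

theorem f_3572 (h : TabsF) : FrameF repsF 356 F_3572.f :=
  frame_of rfl c_3572 (runs_of engOK r_3572_0) (by decide +kernel) h.2 h.2

def F_3573 : FrX :=
  ⟨0x482000044040440000c204002000900018204000208108010120000800840400480200088200022000082040c008440010010006200100211820200080,
    0xa0, 1, 0x43526180a4, 5,
    [(0xa0, 1), (0x538690a2, 4), (0x548790a1, 4), (0x21437690, 4), (0x538690a2, 4), (0x548790a1, 4)],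
    [(0x43526180a4, 5), (0x10428593, 4), (0x708693a2, 4), (0x657193a4, 4), (0x10428593, 4), (0x708693a2, 4)]⟩

def c_3573 : frmChk tA tA F_3573 = true := by decide +kernel

def r_3573_0 : chkL rootF engF2 tA tA sA_356 sA_356 4 F_3573 [(511, 0, 0)]
    0x1074170b8170ac1706c0f = true := by
  decide +kernel

theorem f_3573 (h : TabsF) : FrameF repsF 356 F_3573.f :=
  frame_of rfl c_3573 (runs_of engOK r_3573_0) (by decide +kernel) h.1 h.1

def F_3574 : FrX :=
  ⟨0x2002000900044004000e020410001410008000408008002840102000a0800882000024000904000286000400c000500021000810308800002020100c4000,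
    0xa3, 1, 0x103064768797a0, 7,
    [(0xa3, 1), (0x208693a5, 4), (0x10548793, 4), (0x217693a4, 4), (0x208693a5, 4), (0x10548793, 4)],
    [(0x103064768797a0, 7), (0x517483a2, 4), (0x658394a0, 4), (0x20618397, 4), (0x517483a2, 4), (0x658394a0, 4)]⟩

def c_3574 : frmChk tA tA F_3574 = true := by decide +kernel

def r_3574_0 : chkL rootF engF2 tA tA sA_356 sA_356 4 F_3574 [(511, 0, 0)]
    0x1 = true := by
  decide +kernel

theorem f_3574 (h : TabsF) : FrameF repsF 356 F_3574.f :=
  frame_of rfl c_3574 (runs_of engOK r_3574_0) (by decide +kernel) h.1 h.1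

def F_3575 : FrX :=
  ⟨0x80080a000804040e00002101002001000002040890010004208010808820001010100400804041082008000c08042400021a40010000100244200800080,
    0xa6, 1, 0x3251647098a6, 6,
    [(0xa6, 1), (0x205396a8, 4), (0x10548796, 4), (0x214396a7, 4), (0x205396a8, 4), (0x10548796, 4)],
    [(0x3251647098a6, 6), (0x217384a9, 4), (0x61758490, 4), (0x536284a0, 4), (0x217384a9, 4), (0x61758490, 4)]⟩

def c_3575 : frmChk tA tA F_3575 = true := by decide +kernel

def r_3575_0 : chkL rootF engF2 tA tA sA_356 sA_356 4 F_3575 [(511, 0, 0)]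
    0x109c1b1c871438c3 = true := by
  decide +kernel

theorem f_3575 (h : TabsF) : FrameF repsF 356 F_3575.f :=
  frame_of rfl c_3575 (runs_of engOK r_3575_0) (by decide +kernel) h.1 h.1

def F_3576 : FrX :=
  ⟨0x482000044040440000c2040020009000182040000821100020000809010101010200420001080020880404094008800241001010100900100100400401,
    0xa0, 1, 0x4253708196a0, 6,
    [(0xa0, 1), (0x538690a2, 4), (0x548790a1, 4), (0x21437690, 4), (0x538690a2, 4), (0x548790a1, 4)],
    [(0x4253708196a0, 6), (0x537691a4, 4), (0x103276a8, 4), (0x52768490, 4), (0x537691a4, 4), (0x103276a8, 4)]⟩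

def c_3576 : frmChk tA tA F_3576 = true := by decide +kernel

def r_3576_0 : chkL rootF engF2 tA tA sA_356 sA_356 4 F_3576 [(511, 0, 0)]
    0x1 = true := by
  decide +kernel

theorem f_3576 (h : TabsF) : FrameF repsF 356 F_3576.f :=
  frame_of rfl c_3576 (runs_of engOK r_3576_0) (by decide +kernel) h.1 h.1

theorem cl_356 (h : TabsF) : ∀ f ∈ fr_356, FrameF repsF 356 f :=
  List.forall_mem_cons.2 ⟨f_3561 h, List.forall_mem_cons.2 ⟨f_3562 h, List.forall_mem_cons.2 ⟨f_3563 h, List.forall_mem_cons.2 ⟨f_3564 h, List.forall_mem_cons.2 ⟨f_3565 h, List.forall_mem_cons.2 ⟨f_3566 h, List.forall_mem_cons.2 ⟨f_3567 h, List.forall_mem_cons.2 ⟨f_3568 h, List.forall_mem_cons.2 ⟨f_3569 h, List.forall_mem_cons.2 ⟨f_3570 h, List.forall_mem_cons.2 ⟨f_3571 h, List.forall_mem_cons.2 ⟨f_3572 h, List.forall_mem_cons.2 ⟨f_3573 h, List.forall_mem_cons.2 ⟨f_3574 h, List.forall_mem_cons.2 ⟨f_3575 h, List.forall_mem_cons.2 ⟨f_3576 h,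
    fun _ h0 => absurd h0 List.not_mem_nil⟩⟩⟩⟩⟩⟩⟩⟩⟩⟩⟩⟩⟩⟩⟩⟩

def F_3577 : FrX :=
  ⟨0x80080a000804040e000021010020010000020408810810000440300004100080400230310000200000411009480000080240020404100a1004108020200,
    0xa6, 1, 0x103152657491a5, 7,
    [(0xa6, 1), (0x205396a8, 4), (0x10548796, 4), (0x214396a7, 4), (0x205396a8, 4), (0x10548796, 4)],
    [(0x103152657491a5, 7), (0x516382a0, 4), (0x638491a7, 4), (0x42637095, 4), (0x516382a0, 4), (0x638491a7, 4)]⟩

def c_3577 : frmChk tA tA F_3577 = true := by decide +kernel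

def r_3577_0 : chkL rootF engF2 tA tA sA_357 sA_357 4 F_3577 [(511, 0, 0)]
    0x109c53 = true := by
  decide +kernel

theorem f_3577 (h : TabsF) : FrameF repsF 357 F_3577.f :=
  frame_of rfl c_3577 (runs_of engOK r_3577_0) (by decide +kernel) h.1 h.1

def F_3578 : FrX :=
  ⟨0x80080a000804040e00002101002001000002040890010008088480020820000004501000804041082001020240402400001008080400100244248800080,
    0xa6, 1, 0x415063748191a3, 7,
    [(0xa6, 1), (0x205396a8, 4), (0x10548796, 4), (0x214396a7, 4), (0x205396a8, 4), (0x10548796, 4)],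
    [(0x415063748191a3, 7), (0x435286a0, 4), (0x41708695, 4), (0x318692a7, 4), (0x435286a0, 4), (0x41708695, 4)]⟩

def c_3578 : frmChk tA tA F_3578 = true := by decide +kernel

def r_3578_0 : chkL rootF engF2 tA tA sA_357 sA_357 4 F_3578 [(511, 0, 0)]
    0x106c35 = true := by
  decide +kernel

theorem f_3578 (h : TabsF) : FrameF repsF 357 F_3578.f :=
  frame_of rfl c_3578 (runs_of engOK r_3578_0) (by decide +kernel) h.1 h.1

def F_3579 : FrX :=
  ⟨0x80080a000804040e00002101002001000002040892410004008004000440002020404050000011000044080882082001100081084012020204010210080,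
    0xa6, 1, 0x314362a8, 4,
    [(0xa6, 1), (0x205396a8, 4), (0x10548796, 4), (0x214396a7, 4), (0x205396a8, 4), (0x10548796, 4)],
    [(0x314362a8, 4), (0x426075a1, 4), (0x30517298, 4), (0x217598a4, 4), (0x30517298, 4), (0x216374a5, 4), (0x416098a2, 4), (0x217598a4, 4), (0x416098a2, 4), (0x305271a4, 4), (0x217598a4, 4), (0x216374a5, 4)]⟩

def c_3579 : frmChk tA tB F_3579 = true := by decide +kernel

def r_3579_0 : chkL rootF engF2 tA tB sA_357 sB_357 4 F_3579 [(511, 0, 0)]
    0x634 = true := by
  decide +kernel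

theorem f_3579 (h : TabsF) : FrameF repsF 357 F_3579.f :=
  frame_of rfl c_3579 (runs_of engOK r_3579_0) (by decide +kernel) h.1 h.2

def F_3580 : FrX :=
  ⟨0x482000044040440000c2040020009000182040002020411008020010040024800800111880001000000020948008000100002148040120044010210220,
    0xa0, 1, 0x2131415284a0, 6,
    [(0xa0, 1), (0x538690a2, 4), (0x548790a1, 4), (0x21437690, 4), (0x538690a2, 4), (0x548790a1, 4)],
    [(0x2131415284a0, 6), (0x216390a5, 4), (0x738190a4, 4), (0x54768290, 4), (0x216390a5, 4), (0x738190a4, 4)]⟩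

def c_3580 : frmChk tA tA F_3580 = true := by decide +kernel

def r_3580_0 : chkL rootF engF2 tA tA sA_357 sA_357 4 F_3580 [(511, 0, 0)]
    0x105c2e168470b835 = true := by
  decide +kernel

theorem f_3580 (h : TabsF) : FrameF repsF 357 F_3580.f :=
  frame_of rfl c_3580 (runs_of engOK r_3580_0) (by decide +kernel) h.1 h.1

def F_3581 : FrX :=
  ⟨0x2002000900044004000e020410001410008000408008020402100204008008820002240009040002860000080c0410002080808020480000202080214100,
    0xa3, 1, 0x3153748492a3, 6,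
    [(0xa3, 1), (0x208693a5, 4), (0x10548793, 4), (0x217693a4, 4), (0x208693a5, 4), (0x10548793, 4)],
    [(0x3153748492a3, 6), (0x418790a6, 4), (0x30526481, 4), (0x415286a7, 4), (0x30526481, 4), (0x718693a4, 4), (0x527690a8, 4), (0x415286a7, 4), (0x527690a8, 4), (0x306184a7, 4), (0x415286a7, 4), (0x718693a4, 4)]⟩

def c_3581 : frmChk tA tB F_3581 = true := by decide +kernel

def r_3581_0 : chkL rootF engF2 tA tB sA_357 sB_357 4 F_3581 [(511, 0, 0)]
    0x106c3a4e02b = true := by
  decide +kernel

theorem f_3581 (h : TabsF) : FrameF repsF 357 F_3581.f :=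
  frame_of rfl c_3581 (runs_of engOK r_3581_0) (by decide +kernel) h.1 h.2

def F_3582 : FrX :=
  ⟨0x2002000900044004000e0204100014100080004080040102402000420000c0881400001150800010000400048c2000008100201080441020001004202300,
    0xa3, 1, 0x2032508392a6, 6,
    [(0xa3, 1), (0x208693a5, 4), (0x10548793, 4), (0x217693a4, 4), (0x208693a5, 4), (0x10548793, 4)],
    [(0x2032508392a6, 6), (0x407295a8, 4), (0x425163a7, 4), (0x637280a4, 4), (0x425163a7, 4), (0x208791a4, 4), (0x638495a0, 4), (0x637280a4, 4), (0x638495a0, 4), (0x517480a2, 4), (0x637280a4, 4), (0x208791a4, 4)]⟩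

def c_3582 : frmChk tA tB F_3582 = true := by decide +kernel

def r_3582_0 : chkL rootF engF2 tA tB sA_357 sB_357 4 F_3582 [(511, 0, 0)]
    0x40f = true := by
  decide +kernel

theorem f_3582 (h : TabsF) : FrameF repsF 357 F_3582.f :=
  frame_of rfl c_3582 (runs_of engOK r_3582_0) (by decide +kernel) h.1 h.2

def F_3583 : FrX :=
  ⟨0x482000044040440000c20400200090001820400200004840000202800801848000108001010115100000010084a0040204005200000804010110008018,
    0xa0, 1, 0x3141537691a2, 6,
    [(0xa0, 1), (0x538690a2, 4), (0x548790a1, 4), (0x21437690, 4), (0x538690a2, 4), (0x548790a1, 4)],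
    [(0x3141537691a2, 6), (0x617583a0, 4), (0x31427690, 4), (0x42617385, 4), (0x31427690, 4), (0x657381a9, 4), (0x425387a0, 4), (0x42617385, 4), (0x425387a0, 4), (0x63718590, 4), (0x42617385, 4), (0x657381a9, 4)]⟩

def c_3583 : frmChk tA tB F_3583 = true := by decide +kernel

def r_3583_0 : chkL rootF engF2 tA tB sA_357 sB_357 4 F_3583 [(511, 0, 0)]
    0x10d8e103d1c03c0f = true := by
  decide +kernel

theorem f_3583 (h : TabsF) : FrameF repsF 357 F_3583.f :=
  frame_of rfl c_3583 (runs_of engOK r_3583_0) (by decide +kernel) h.1 h.2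

def F_3584 : FrX :=
  ⟨0x2002000900044004000e0204100014100080004080100102101020001820210100020402000800402402040502100000a040208080201000200820089001,
    0xa3, 1, 0x1054768392a3, 6,
    [(0xa3, 1), (0x208693a5, 4), (0x10548793, 4), (0x217693a4, 4), (0x208693a5, 4), (0x10548793, 4)],
    [(0x1054768392a3, 6), (0x738291a4, 4), (0x10546382, 4), (0x768290a5, 4), (0x738291a4, 4), (0x10546382, 4)]⟩

def c_3584 : frmChk tA tA F_3584 = true := by decide +kernel

def r_3584_0 : chkL rootF engF2 tA tA sA_357 sA_357 4 F_3584 [(511, 0, 0)]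
    0x122cc306e130ac330782706c27 = true := by
  decide +kernel

theorem f_3584 (h : TabsF) : FrameF repsF 357 F_3584.f :=
  frame_of rfl c_3584 (runs_of engOK r_3584_0) (by decide +kernel) h.1 h.1

def F_3585 : FrX :=
  ⟨0x80080a000804040e00002101002001000002040881011001020010020042001010034000c00041020000000888040140001102010400608004a204a0000,
    0xa6, 1, 0x43608796a5, 5,
    [(0xa6, 1), (0x205396a8, 4), (0x10548796, 4), (0x214396a7, 4), (0x205396a8, 4), (0x10548796, 4)],
    [(0x43608796a5, 5), (0x627394a8, 4), (0x506198a3, 4), (0x507493a8, 4), (0x506198a3, 4), (0x218493a7, 4), (0x43506297, 4), (0x507493a8, 4), (0x43506297, 4), (0x617483a9, 4), (0x507493a8, 4), (0x218493a7, 4)]⟩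

def c_3585 : frmChk tA tB F_3585 = true := by decide +kernel

def r_3585_0 : chkL rootF engF2 tA tB sA_357 sB_357 4 F_3585 [(511, 0, 0)]
    0x1 = true := by
  decide +kernel

theorem f_3585 (h : TabsF) : FrameF repsF 357 F_3585.f :=
  frame_of rfl c_3585 (runs_of engOK r_3585_0) (by decide +kernel) h.1 h.2

def F_3586 : FrX :=
  ⟨0x80080a000804040e000021010020010000020408a00010040400248004802020000804404000850200200011230024080040080030004003008c0808000,
    0xa6, 1, 0x21426590a4, 5,
    [(0xa6, 1), (0x205396a8, 4), (0x10548796, 4), (0x214396a7, 4), (0x205396a8, 4), (0x10548796, 4)],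
    [(0x21426590a4, 5), (0x537694a8, 4), (0x107592a6, 4), (0x107683a5, 4), (0x107592a6, 4), (0x427386a5, 4), (0x108594a3, 4), (0x107683a5, 4), (0x108594a3, 4), (0x658392a7, 4), (0x107683a5, 4), (0x427386a5, 4)]⟩

def c_3586 : frmChk tA tB F_3586 = true := by decide +kernel

def r_3586_0 : chkL rootF engF2 tA tB sA_357 sB_357 4 F_3586 [(511, 0, 0)]
    0x4c51342e = true := by
  decide +kernel

theorem f_3586 (h : TabsF) : FrameF repsF 357 F_3586.f :=
  frame_of rfl c_3586 (runs_of engOK r_3586_0) (by decide +kernel) h.1 h.2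

def F_3587 : FrX :=
  ⟨0x1c2102000004044000002041000101000082040888081000001020400400102000604060000030008080111102500408048008002600800700010208000,
    0x0, 0, 0x4376, 2,
    [(0x0, 0), (0x205386a9, 4), (0x105487a9, 4), (0x214376a9, 4), (0x205386a9, 4), (0x105487a9, 4)],
    [(0x4376, 2), (0x20657483, 4), (0x105376a9, 4), (0x657384a9, 4), (0x105376a9, 4), (0x21647385, 4), (0x204387a9, 4), (0x657384a9, 4), (0x204387a9, 4), (0x10637584, 4), (0x657384a9, 4), (0x21647385, 4)]⟩

def c_3587 : frmChk tA tB F_3587 = true := by decide +kernel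

def r_3587_0 : chkL rootF engF2 tA tB sA_357 sB_357 4 F_3587 [(511, 0, 0)]
    0x113472 = true := by
  decide +kernel

theorem f_3587 (h : TabsF) : FrameF repsF 357 F_3587.f :=
  frame_of rfl c_3587 (runs_of engOK r_3587_0) (by decide +kernel) h.1 h.2

def F_3588 : FrX :=
  ⟨0x80080a000804040e000021010020010000020408a00010011000248004802020000810404000310080800011025024080040080024004007000c0808000,
    0xa6, 1, 0x10407392a4, 5,
    [(0xa6, 1), (0x205396a8, 4), (0x10548796, 4), (0x214396a7, 4), (0x205396a8, 4), (0x10548796, 4)],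
    [(0x10407392a4, 5), (0x537694a8, 4), (0x214063a5, 4), (0x215387a6, 4), (0x214063a5, 4), (0x738590a6, 4), (0x218694a7, 4), (0x215387a6, 4), (0x218694a7, 4), (0x406587a3, 4), (0x215387a6, 4), (0x738590a6, 4)]⟩

def c_3588 : frmChk tA tB F_3588 = true := by decide +kernel

def r_3588_0 : chkL rootF engF2 tA tB sA_357 sB_357 4 F_3588 [(511, 0, 0)]
    0x1 = true := by
  decide +kernel

theorem f_3588 (h : TabsF) : FrameF repsF 357 F_3588.f :=
  frame_of rfl c_3588 (runs_of engOK r_3588_0) (by decide +kernel) h.1 h.2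

def F_3589 : FrX :=
  ⟨0x1001040012008080000e0084080041000810100004200810010802200200008044020204108010014004180404100820010000080e004008101008022020,
    0xa3, 1, 0x2040637091a4, 6,
    [(0xa3, 1), (0x207584a6, 4), (0x10547693, 4), (0x647593a8, 4), (0x10547693, 4), (0x216485a7, 4), (0x208693a4, 4), (0x647593a8, 4), (0x208693a4, 4), (0x106574a8, 4), (0x647593a8, 4), (0x216485a7, 4)],
    [(0x2040637091a4, 6), (0x546370a8, 4), (0x214397a5, 4), (0x215486a3, 4), (0x214397a5, 4), (0x648590a3, 4), (0x217083a6, 4), (0x215486a3, 4), (0x217083a6, 4), (0x538697a4, 4), (0x215486a3, 4), (0x648590a3, 4)]⟩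

def c_3589 : frmChk tB tB F_3589 = true := by decide +kernel

def r_3589_0 : chkL rootF engF2 tB tB sB_357 sB_357 4 F_3589 [(511, 0, 0)]
    0x42e = true := by
  decide +kernel

theorem f_3589 (h : TabsF) : FrameF repsF 357 F_3589.f :=
  frame_of rfl c_3589 (runs_of engOK r_3589_0) (by decide +kernel) h.2 h.2

def F_3590 : FrX :=
  ⟨0x1001040012008080000e0084080041000810100004200802400140010102000009a0000a000020804008480440000080400420210202080010a100000066,
    0xa3, 1, 0x3263768697a3, 6,
    [(0xa3, 1), (0x207584a6, 4), (0x10547693, 4), (0x647593a8, 4), (0x10547693, 4), (0x216485a7, 4), (0x208693a4, 4), (0x647593a8, 4), (0x208693a4, 4), (0x106574a8, 4), (0x647593a8, 4), (0x216485a7, 4)],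
    [(0x3263768697a3, 6), (0x307495a8, 4), (0x10546298, 4), (0x628495a7, 4), (0x10546298, 4), (0x317584a9, 4), (0x306287a4, 4), (0x628495a7, 4), (0x306287a4, 4), (0x108594a7, 4), (0x628495a7, 4), (0x317584a9, 4)]⟩

def c_3590 : frmChk tB tB F_3590 = true := by decide +kernel

def r_3590_0 : chkL rootF engF2 tB tB sB_357 sB_357 4 F_3590 [(511, 0, 0)]
    0x1 = true := by
  decide +kernel

theorem f_3590 (h : TabsF) : FrameF repsF 357 F_3590.f :=
  frame_of rfl c_3590 (runs_of engOK r_3590_0) (by decide +kernel) h.2 h.2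

def F_3591 : FrX :=
  ⟨0x1001040012008080000e00840800410008101000042008024001400101020000032000260000208040084804400000804004200c00820800058100020130,
    0xa3, 1, 0x3254618398a6, 6,
    [(0xa3, 1), (0x207584a6, 4), (0x10547693, 4), (0x647593a8, 4), (0x10547693, 4), (0x216485a7, 4), (0x208693a4, 4), (0x647593a8, 4), (0x208693a4, 4), (0x106574a8, 4), (0x647593a8, 4), (0x216485a7, 4)],
    [(0x3254618398a6, 6), (0x307495a8, 4), (0x215460a7, 4), (0x217498a5, 4), (0x215460a7, 4), (0x638794a5, 4), (0x213085a9, 4), (0x217498a5, 4), (0x213085a9, 4), (0x607598a4, 4), (0x217498a5, 4), (0x638794a5, 4)]⟩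

def c_3591 : frmChk tB tB F_3591 = true := by decide +kernel

def r_3591_0 : chkL rootF engF2 tB tB sB_357 sB_357 4 F_3591 [(511, 0, 0)]
    0x40f16961 = true := by
  decide +kernel

theorem f_3591 (h : TabsF) : FrameF repsF 357 F_3591.f :=
  frame_of rfl c_3591 (runs_of engOK r_3591_0) (by decide +kernel) h.2 h.2

def F_3592 : FrX :=
  ⟨0x1001040012008080000e00840800410008101000060000028a00208004180084040000800020280820030010080820022000284400004004440003002003,
    0xa3, 1, 0x2041768593a3, 6,
    [(0xa3, 1), (0x207584a6, 4), (0x10547693, 4), (0x647593a8, 4), (0x10547693, 4), (0x216485a7, 4), (0x208693a4, 4), (0x647593a8, 4), (0x208693a4, 4), (0x106574a8, 4), (0x647593a8, 4), (0x216485a7, 4)],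
    [(0x2041768593a3, 6), (0x205186a7, 4), (0x42768193, 4), (0x718693a5, 4), (0x42768193, 4), (0x407185a6, 4), (0x207593a1, 4), (0x718693a5, 4), (0x207593a1, 4), (0x426187a5, 4), (0x718693a5, 4), (0x407185a6, 4)]⟩

def c_3592 : frmChk tB tB F_3592 = true := by decide +kernel

def r_3592_0 : chkL rootF engF2 tB tB sB_357 sB_357 4 F_3592 [(511, 0, 0)]
    0x10765411c8b = true := by
  decide +kernel

theorem f_3592 (h : TabsF) : FrameF repsF 357 F_3592.f :=
  frame_of rfl c_3592 (runs_of engOK r_3592_0) (by decide +kernel) h.2 h.2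

theorem cl_357 (h : TabsF) : ∀ f ∈ fr_357, FrameF repsF 357 f :=
  List.forall_mem_cons.2 ⟨f_3577 h, List.forall_mem_cons.2 ⟨f_3578 h, List.forall_mem_cons.2 ⟨f_3579 h, List.forall_mem_cons.2 ⟨f_3580 h, List.forall_mem_cons.2 ⟨f_3581 h, List.forall_mem_cons.2 ⟨f_3582 h, List.forall_mem_cons.2 ⟨f_3583 h, List.forall_mem_cons.2 ⟨f_3584 h, List.forall_mem_cons.2 ⟨f_3585 h, List.forall_mem_cons.2 ⟨f_3586 h, List.forall_mem_cons.2 ⟨f_3587 h, List.forall_mem_cons.2 ⟨f_3588 h, List.forall_mem_cons.2 ⟨f_3589 h, List.forall_mem_cons.2 ⟨f_3590 h, List.forall_mem_cons.2 ⟨f_3591 h, List.forall_mem_cons.2 ⟨f_3592 h,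
    fun _ h0 => absurd h0 List.not_mem_nil⟩⟩⟩⟩⟩⟩⟩⟩⟩⟩⟩⟩⟩⟩⟩⟩

def F_3593 : FrX :=
  ⟨0x80080a000804040e000021010020010000020408810810000440300004100080400230310000200000411012440000080420010804100a1004208020200,
    0xa6, 1, 0x103152657491a5, 7,
    [(0xa6, 1), (0x205396a8, 4), (0x10548796, 4), (0x214396a7, 4), (0x205396a8, 4), (0x10548796, 4)],
    [(0x103152657491a5, 7), (0x516382a0, 4), (0x638491a7, 4), (0x42637095, 4), (0x516382a0, 4), (0x638491a7, 4)]⟩

def c_3593 : frmChk tA tA F_3593 = true := by decide +kernel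

def r_3593_0 : chkL rootF engF2 tA tA sA_358 sA_358 4 F_3593 [(511, 0, 0)]
    0x487 = true := by
  decide +kernel

theorem f_3593 (h : TabsF) : FrameF repsF 358 F_3593.f :=
  frame_of rfl c_3593 (runs_of engOK r_3593_0) (by decide +kernel) h.1 h.1

def F_3594 : FrX :=
  ⟨0x482000044040440000c2040020009000182040020000812200100110014050004200000022080282800800140010400210090040080400004020200268,
    0xa0, 1, 0x2132435183a0, 6,
    [(0xa0, 1), (0x538690a2, 4), (0x548790a1, 4), (0x21437690, 4), (0x538690a2, 4), (0x548790a1, 4)],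
    [(0x2132435183a0, 6), (0x648290a3, 4), (0x217490a5, 4), (0x53768190, 4), (0x648290a3, 4), (0x217490a5, 4)]⟩

def c_3594 : frmChk tA tA F_3594 = true := by decide +kernel

def r_3594_0 : chkL rootF engF2 tA tA sA_358 sA_358 4 F_3594 [(511, 0, 0)]
    0x1b40b1 = true := by
  decide +kernel

theorem f_3594 (h : TabsF) : FrameF repsF 358 F_3594.f :=
  frame_of rfl c_3594 (runs_of engOK r_3594_0) (by decide +kernel) h.1 h.1

def F_3595 : FrX :=
  ⟨0x2002000900044004000e0204100014100080004080040104202000240000c0881400001150800010000400050c2000008100202040441020001004204300,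
    0xa3, 1, 0x203043528590a6, 7,
    [(0xa3, 1), (0x208693a5, 4), (0x10548793, 4), (0x217693a4, 4), (0x208693a5, 4), (0x10548793, 4)],
    [(0x203043528590a6, 7), (0x638495a0, 4), (0x63708291, 4), (0x425163a7, 4), (0x638495a0, 4), (0x63708291, 4)]⟩

def c_3595 : frmChk tA tA F_3595 = true := by decide +kernel

def r_3595_0 : chkL rootF engF2 tA tA sA_358 sA_358 4 F_3595 [(511, 0, 0)]
    0x4470d43507417 = true := by
  decide +kernel

theorem f_3595 (h : TabsF) : FrameF repsF 358 F_3595.f :=
  frame_of rfl c_3595 (runs_of engOK r_3595_0) (by decide +kernel) h.1 h.1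

def F_3596 : FrX :=
  ⟨0x80080a000804040e00002101002001000002040890010008088480020820000004501000802081082001020140402400001010040400100244129000080,
    0xa6, 1, 0x415063748191a3, 7,
    [(0xa6, 1), (0x205396a8, 4), (0x10548796, 4), (0x214396a7, 4), (0x205396a8, 4), (0x10548796, 4)],
    [(0x415063748191a3, 7), (0x435286a0, 4), (0x41708695, 4), (0x318692a7, 4), (0x435286a0, 4), (0x41708695, 4)]⟩

def c_3596 : frmChk tA tA F_3596 = true := by decide +kernel

def r_3596_0 : chkL rootF engF2 tA tA sA_358 sA_358 4 F_3596 [(511, 0, 0)]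
    0x447 = true := by
  decide +kernel

theorem f_3596 (h : TabsF) : FrameF repsF 358 F_3596.f :=
  frame_of rfl c_3596 (runs_of engOK r_3596_0) (by decide +kernel) h.1 h.1

def F_3597 : FrX :=
  ⟨0x2002000900044004000e020410001410008000408010020202100202008008820001280009020002860000080c0410002080810020480000202080212100,
    0xa3, 1, 0x213150607392a6, 7,
    [(0xa3, 1), (0x208693a5, 4), (0x10548793, 4), (0x217693a4, 4), (0x208693a5, 4), (0x10548793, 4)],
    [(0x213150607392a6, 7), (0x517096a8, 4), (0x40516382, 4), (0x517493a2, 4), (0x517096a8, 4), (0x40516382, 4)]⟩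

def c_3597 : frmChk tA tA F_3597 = true := by decide +kernel

def r_3597_0 : chkL rootF engF2 tA tA sA_358 sA_358 4 F_3597 [(511, 0, 0)]
    0x14c5381a41b = true := by
  decide +kernel

theorem f_3597 (h : TabsF) : FrameF repsF 358 F_3597.f :=
  frame_of rfl c_3597 (runs_of engOK r_3597_0) (by decide +kernel) h.1 h.1

def F_3598 : FrX :=
  ⟨0x80080a000804040e00002101002001000002040881200002210020800a02004000500040c0a000080080480022090002000110005000104240110410010,
    0xa6, 1, 0x304353627692a6, 7,
    [(0xa6, 1), (0x205396a8, 4), (0x10548796, 4), (0x214396a7, 4), (0x205396a8, 4), (0x10548796, 4)],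
    [(0x304353627692a6, 7), (0x547693a8, 4), (0x31407682, 4), (0x507691a2, 4), (0x547693a8, 4), (0x31407682, 4)]⟩

def c_3598 : frmChk tA tA F_3598 = true := by decide +kernel

def r_3598_0 : chkL rootF engF2 tA tA sA_358 sA_358 4 F_3598 [(511, 0, 0)]
    0x433135c4 = true := by
  decide +kernel

theorem f_3598 (h : TabsF) : FrameF repsF 358 F_3598.f :=
  frame_of rfl c_3598 (runs_of engOK r_3598_0) (by decide +kernel) h.1 h.1

def F_3599 : FrX :=
  ⟨0x482000044040440000c2040020009000182040000901004000a00080004084004880800888000202000821010608108010010040600104001020200408,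
    0xa0, 1, 0x2132426592a1, 6,
    [(0xa0, 1), (0x538690a2, 4), (0x548790a1, 4), (0x21437690, 4), (0x538690a2, 4), (0x548790a1, 4)],
    [(0x2132426592a1, 6), (0x51768390, 4), (0x426375a0, 4), (0x42537681, 4), (0x426375a0, 4), (0x537186a9, 4), (0x31428590, 4), (0x42537681, 4), (0x31428590, 4), (0x657381a0, 4), (0x42537681, 4), (0x537186a9, 4)]⟩

def c_3599 : frmChk tA tB F_3599 = true := by decide +kernel

def r_3599_0 : chkL rootF engF2 tA tB sA_358 sB_358 4 F_3599 [(511, 0, 0)]
    0x41b = true := by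
  decide +kernel

theorem f_3599 (h : TabsF) : FrameF repsF 358 F_3599.f :=
  frame_of rfl c_3599 (runs_of engOK r_3599_0) (by decide +kernel) h.1 h.2

def F_3600 : FrX :=
  ⟨0x2002000900044004000e0204100014100080004080040102109020001020210100020400108800040c000111000408008040088080a00000604020229000,
    0xa3, 1, 0x204165738298a8, 7,
    [(0xa3, 1), (0x208693a5, 4), (0x10548793, 4), (0x217693a4, 4), (0x208693a5, 4), (0x10548793, 4)],
    [(0x204165738298a8, 7), (0x768290a5, 4), (0x426190a3, 4), (0x53718490, 4), (0x768290a5, 4), (0x426190a3, 4)]⟩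

def c_3600 : frmChk tA tA F_3600 = true := by decide +kernel

def r_3600_0 : chkL rootF engF2 tA tA sA_358 sA_358 4 F_3600 [(511, 0, 0)]
    0x42d = true := by
  decide +kernel

theorem f_3600 (h : TabsF) : FrameF repsF 358 F_3600.f :=
  frame_of rfl c_3600 (runs_of engOK r_3600_0) (by decide +kernel) h.1 h.1

def F_3601 : FrX :=
  ⟨0x1c2102000004044000002041000101000082040888081000020000404000182008604001080020408000111102500408048088002200800700010208000,
    0x0, 0, 0x647583, 3,
    [(0x0, 0), (0x205386a9, 4), (0x105487a9, 4), (0x214376a9, 4), (0x205386a9, 4), (0x105487a9, 4)],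
    [(0x647583, 3), (0x204387a9, 4), (0x105376a9, 4), (0x215486a9, 4), (0x204387a9, 4), (0x105376a9, 4)]⟩

def c_3601 : frmChk tA tA F_3601 = true := by decide +kernel

def r_3601_0 : chkL rootF engF2 tA tA sA_358 sA_358 4 F_3601 [(511, 0, 0)]
    0x118c4d = true := by
  decide +kernel

theorem f_3601 (h : TabsF) : FrameF repsF 358 F_3601.f :=
  frame_of rfl c_3601 (runs_of engOK r_3601_0) (by decide +kernel) h.1 h.1

def F_3602 : FrX :=
  ⟨0x2002000900044004000e02041000141000800040801001021010200018202101000204001028000224020401021008008040008080a002002048200a1000,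
    0xa3, 1, 0x1054768392a3, 6,
    [(0xa3, 1), (0x208693a5, 4), (0x10548793, 4), (0x217693a4, 4), (0x208693a5, 4), (0x10548793, 4)],
    [(0x1054768392a3, 6), (0x738291a4, 4), (0x10546382, 4), (0x768290a5, 4), (0x738291a4, 4), (0x10546382, 4)]⟩

def c_3602 : frmChk tA tA F_3602 = true := by decide +kernel

def r_3602_0 : chkL rootF engF2 tA tA sA_358 sA_358 4 F_3602 [(511, 0, 0)]
    0x105c0f0780f0cc33 = true := by
  decide +kernel

theorem f_3602 (h : TabsF) : FrameF repsF 358 F_3602.f :=
  frame_of rfl c_3602 (runs_of engOK r_3602_0) (by decide +kernel) h.1 h.1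

def F_3603 : FrX :=
  ⟨0x80080a000804040e000021010020010000020408804110040200048000802820080804014000810200200011230004080040480030006003008c0800000,
    0xa6, 1, 0x3054637491a4, 6,
    [(0xa6, 1), (0x205396a8, 4), (0x10548796, 4), (0x214396a7, 4), (0x205396a8, 4), (0x10548796, 4)],
    [(0x3054637491a4, 6), (0x32647180, 4), (0x718593a4, 4), (0x507192a6, 4), (0x32647180, 4), (0x718593a4, 4)]⟩

def c_3603 : frmChk tA tA F_3603 = true := by decide +kernel

def r_3603_0 : chkL rootF engF2 tA tA sA_358 sA_358 4 F_3603 [(511, 0, 0)]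
    0x41d = true := by
  decide +kernel

theorem f_3603 (h : TabsF) : FrameF repsF 358 F_3603.f :=
  frame_of rfl c_3603 (runs_of engOK r_3603_0) (by decide +kernel) h.1 h.1

def F_3604 : FrX :=
  ⟨0x80080a000804040e000021010020010000020408a0001001100090020242001000034000400049020020000888002140201002010000608004a204a0000,
    0xa6, 1, 0x2160748395a6, 6,
    [(0xa6, 1), (0x205396a8, 4), (0x10548796, 4), (0x214396a7, 4), (0x205396a8, 4), (0x10548796, 4)],
    [(0x2160748395a6, 6), (0x506198a3, 4), (0x43506297, 4), (0x215087a4, 4), (0x506198a3, 4), (0x43506297, 4)]⟩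

def c_3604 : frmChk tA tA F_3604 = true := by decide +kernel

def r_3604_0 : chkL rootF engF2 tA tA sA_358 sA_358 4 F_3604 [(511, 0, 0)]
    0x11541d138ca = true := by
  decide +kernel

theorem f_3604 (h : TabsF) : FrameF repsF 358 F_3604.f :=
  frame_of rfl c_3604 (runs_of engOK r_3604_0) (by decide +kernel) h.1 h.1

def F_3605 : FrX :=
  ⟨0x482000044040440000c2040020009000182040001012080000900200080404018012020001040020800030808000140100082014108300001002800441,
    0xa0, 1, 0x43526395a3, 5,
    [(0xa0, 1), (0x538690a2, 4), (0x548790a1, 4), (0x21437690, 4), (0x538690a2, 4), (0x548790a1, 4)],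
    [(0x43526395a3, 5), (0x508397a4, 4), (0x10627493, 4), (0x436297a8, 4), (0x10627493, 4), (0x435198a7, 4), (0x506284a3, 4), (0x436297a8, 4), (0x506284a3, 4), (0x107394a8, 4), (0x436297a8, 4), (0x435198a7, 4)]⟩

def c_3605 : frmChk tA tB F_3605 = true := by decide +kernel

def r_3605_0 : chkL rootF engF2 tA tB sA_358 sB_358 4 F_3605 [(511, 0, 0)]
    0x190c2732b41 = true := by
  decide +kernel

theorem f_3605 (h : TabsF) : FrameF repsF 358 F_3605.f :=
  frame_of rfl c_3605 (runs_of engOK r_3605_0) (by decide +kernel) h.1 h.2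

def F_3606 : FrX :=
  ⟨0x80080a000804040e00002101002001000002040892410004008004000440001040802050000011000044080494002001100081084012020204012200080,
    0xa6, 1, 0x20315460a8, 5,
    [(0xa6, 1), (0x205396a8, 4), (0x10548796, 4), (0x214396a7, 4), (0x205396a8, 4), (0x10548796, 4)],
    [(0x20315460a8, 5), (0x416098a2, 4), (0x546398a7, 4), (0x30517298, 4), (0x416098a2, 4), (0x546398a7, 4)]⟩

def c_3606 : frmChk tA tA F_3606 = true := by decide +kernel

def r_3606_0 : chkL rootF engF2 tA tA sA_358 sA_358 4 F_3606 [(511, 0, 0)]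
    0x1 = true := by
  decide +kernel

theorem f_3606 (h : TabsF) : FrameF repsF 358 F_3606.f :=
  frame_of rfl c_3606 (runs_of engOK r_3606_0) (by decide +kernel) h.1 h.1

def F_3607 : FrX :=
  ⟨0x80080a000804040e00002101002001000002040881081000044030000410008040023031000020000041100a050000080420010804100a1004100220200,
    0xa6, 1, 0x103152657491a5, 7,
    [(0xa6, 1), (0x205396a8, 4), (0x10548796, 4), (0x214396a7, 4), (0x205396a8, 4), (0x10548796, 4)],
    [(0x103152657491a5, 7), (0x516382a0, 4), (0x638491a7, 4), (0x42637095, 4), (0x516382a0, 4), (0x638491a7, 4)]⟩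

def c_3607 : frmChk tA tA F_3607 = true := by decide +kernel

def r_3607_0 : chkL rootF engF2 tA tA sA_358 sA_358 4 F_3607 [(511, 0, 0)]
    0x1 = true := by
  decide +kernel

theorem f_3607 (h : TabsF) : FrameF repsF 358 F_3607.f :=
  frame_of rfl c_3607 (runs_of engOK r_3607_0) (by decide +kernel) h.1 h.1

def F_3608 : FrX :=
  ⟨0x482000044040440000c20400200090001820400200005008000202800408848000101001010115100000002084a0040204005200000820002110008018,
    0xa0, 1, 0x102065748290a3, 7,
    [(0xa0, 1), (0x538690a2, 4), (0x548790a1, 4), (0x21437690, 4), (0x538690a2, 4), (0x548790a1, 4)],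
    [(0x102065748290a3, 7), (0x325198a6, 4), (0x32417690, 4), (0x325480a7, 4), (0x325198a6, 4), (0x32417690, 4)]⟩

def c_3608 : frmChk tA tA F_3608 = true := by decide +kernel

def r_3608_0 : chkL rootF engF2 tA tA sA_358 sA_358 4 F_3608 [(511, 0, 0)]
    0x43a03c0f0d43c = true := by
  decide +kernel

theorem f_3608 (h : TabsF) : FrameF repsF 358 F_3608.f :=
  frame_of rfl c_3608 (runs_of engOK r_3608_0) (by decide +kernel) h.1 h.1

def F_3609 : FrX :=
  ⟨0x2002000900044004000e0204100014100080004080040104202000240000c088140000115080001000040004883000008100202040441020001004202210,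
    0xa3, 1, 0x203043528590a6, 7,
    [(0xa3, 1), (0x208693a5, 4), (0x10548793, 4), (0x217693a4, 4), (0x208693a5, 4), (0x10548793, 4)],
    [(0x203043528590a6, 7), (0x638495a0, 4), (0x63708291, 4), (0x425163a7, 4), (0x638495a0, 4), (0x63708291, 4)]⟩

def c_3609 : frmChk tA tA F_3609 = true := by decide +kernel

def r_3609_0 : chkL rootF engF2 tA tA sA_358 sA_358 4 F_3609 [(511, 0, 0)]
    0x42b06c17 = true := by
  decide +kernel

theorem f_3609 (h : TabsF) : FrameF repsF 358 F_3609.f :=
  frame_of rfl c_3609 (runs_of engOK r_3609_0) (by decide +kernel) h.1 h.1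

def F_3610 : FrX :=
  ⟨0x2002000900044004000e020410001410008000408100000128008024020040801400a0010120010204040400610010002040020005001020240110008050,
    0xa3, 1, 0x1030437591a7, 6,
    [(0xa3, 1), (0x208693a5, 4), (0x10548793, 4), (0x217693a4, 4), (0x208693a5, 4), (0x10548793, 4)],
    [(0x1030437591a7, 6), (0x326481a7, 4), (0x507193a6, 4), (0x506184a7, 4), (0x507193a6, 4), (0x618792a4, 4), (0x32415086, 4), (0x506184a7, 4), (0x32415086, 4), (0x768493a1, 4), (0x506184a7, 4), (0x618792a4, 4)]⟩

def c_3610 : frmChk tA tB F_3610 = true := by decide +kernel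

def r_3610_0 : chkL rootF engF2 tA tB sA_358 sB_358 4 F_3610 [(511, 0, 0)]
    0x41d074630e44d = true := by
  decide +kernel

theorem f_3610 (h : TabsF) : FrameF repsF 358 F_3610.f :=
  frame_of rfl c_3610 (runs_of engOK r_3610_0) (by decide +kernel) h.1 h.2

def F_3611 : FrX :=
  ⟨0x80080a000804040e000021010020010000020408a0001001100090020242001000034000400049020020000888001140001042010000508004220840005,
    0xa6, 1, 0x2160748395a6, 6,
    [(0xa6, 1), (0x205396a8, 4), (0x10548796, 4), (0x214396a7, 4), (0x205396a8, 4), (0x10548796, 4)],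
    [(0x2160748395a6, 6), (0x506198a3, 4), (0x43506297, 4), (0x215087a4, 4), (0x506198a3, 4), (0x43506297, 4)]⟩

def c_3611 : frmChk tA tA F_3611 = true := by decide +kernel

def r_3611_0 : chkL rootF engF2 tA tA sA_358 sA_358 4 F_3611 [(511, 0, 0)]
    0x10ac2e0781d0ac6907855348d11344b = true := by
  decide +kernel

theorem f_3611 (h : TabsF) : FrameF repsF 358 F_3611.f :=
  frame_of rfl c_3611 (runs_of engOK r_3611_0) (by decide +kernel) h.1 h.1

def F_3612 : FrX :=
  ⟨0x2002000900044004000e0204100014100080004080040102401020001020210100020480102800840c000105001008008040008080a00000604020221002,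
    0xa3, 1, 0x4151718492a5, 6,
    [(0xa3, 1), (0x208693a5, 4), (0x10548793, 4), (0x217693a4, 4), (0x208693a5, 4), (0x10548793, 4)],
    [(0x4151718492a5, 6), (0x426190a3, 4), (0x425170a8, 4), (0x42658397, 4), (0x426190a3, 4), (0x425170a8, 4)]⟩

def c_3612 : frmChk tA tA F_3612 = true := by decide +kernel

def r_3612_0 : chkL rootF engF2 tA tA sA_358 sA_358 4 F_3612 [(511, 0, 0)]
    0x12541d24e92 = true := by
  decide +kernel

theorem f_3612 (h : TabsF) : FrameF repsF 358 F_3612.f :=
  frame_of rfl c_3612 (runs_of engOK r_3612_0) (by decide +kernel) h.1 h.1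

def F_3613 : FrX :=
  ⟨0x2002000900044004000e02041000141000800040801001021010200018202101000204001028000424040410810008008040008080a000002040200a1820,
    0xa3, 1, 0x1054768392a3, 6,
    [(0xa3, 1), (0x208693a5, 4), (0x10548793, 4), (0x217693a4, 4), (0x208693a5, 4), (0x10548793, 4)],
    [(0x1054768392a3, 6), (0x738291a4, 4), (0x10546382, 4), (0x768290a5, 4), (0x738291a4, 4), (0x10546382, 4)]⟩

def c_3613 : frmChk tA tA F_3613 = true := by decide +kernel

def r_3613_0 : chkL rootF engF2 tA tA sA_358 sA_358 4 F_3613 [(511, 0, 0)]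
    0x10cc2d = true := by
  decide +kernel

theorem f_3613 (h : TabsF) : FrameF repsF 358 F_3613.f :=
  frame_of rfl c_3613 (runs_of engOK r_3613_0) (by decide +kernel) h.1 h.1

def F_3614 : FrX :=
  ⟨0x482000044040440000c2040020009000182040001012080000900200080404004062020001040020800030808000140100082014108080001802800580,
    0xa0, 1, 0x213161748695a3, 7,
    [(0xa0, 1), (0x538690a2, 4), (0x548790a1, 4), (0x21437690, 4), (0x538690a2, 4), (0x548790a1, 4)],
    [(0x213161748695a3, 7), (0x107394a8, 4), (0x52608497, 4), (0x528794a3, 4), (0x52608497, 4), (0x618793a4, 4), (0x105283a7, 4), (0x528794a3, 4), (0x105283a7, 4), (0x607498a3, 4), (0x528794a3, 4), (0x618793a4, 4)]⟩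

def c_3614 : frmChk tA tB F_3614 = true := by decide +kernel

def r_3614_0 : chkL rootF engF2 tA tB sA_358 sB_358 4 F_3614 [(511, 0, 0)]
    0x1 = true := by
  decide +kernel

theorem f_3614 (h : TabsF) : FrameF repsF 358 F_3614.f :=
  frame_of rfl c_3614 (runs_of engOK r_3614_0) (by decide +kernel) h.1 h.2

def F_3615 : FrX :=
  ⟨0x80080a000804040e000021010020010000020408808210010200048040802020080810014000310080000011025004080040480024006007000c0800000,
    0xa6, 1, 0x3263738292a1, 6,
    [(0xa6, 1), (0x205396a8, 4), (0x10548796, 4), (0x214396a7, 4), (0x205396a8, 4), (0x10548796, 4)],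
    [(0x3263738292a1, 6), (0x32758190, 4), (0x546381a0, 4), (0x627481a9, 4), (0x32758190, 4), (0x546381a0, 4)]⟩

def c_3615 : frmChk tA tA F_3615 = true := by decide +kernel

def r_3615_0 : chkL rootF engF2 tA tA sA_358 sA_358 4 F_3615 [(511, 0, 0)]
    0x562154d1348561345c1342b = true := by
  decide +kernel

theorem f_3615 (h : TabsF) : FrameF repsF 358 F_3615.f :=
  frame_of rfl c_3615 (runs_of engOK r_3615_0) (by decide +kernel) h.1 h.1

def F_3616 : FrX :=
  ⟨0x1c2102000004044000002041000101000082040888081000020000404000182008604001040030408000101102500408048048002600800700010200000,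
    0x0, 0, 0x647583, 3,
    [(0x0, 0), (0x205386a9, 4), (0x105487a9, 4), (0x214376a9, 4), (0x205386a9, 4), (0x105487a9, 4)],
    [(0x647583, 3), (0x204387a9, 4), (0x105376a9, 4), (0x215486a9, 4), (0x204387a9, 4), (0x105376a9, 4)]⟩

def c_3616 : frmChk tA tA F_3616 = true := by decide +kernel

def r_3616_0 : chkL rootF engF2 tA tA sA_358 sA_358 4 F_3616 [(511, 0, 0)]
    0x112c47 = true := by
  decide +kernel

theorem f_3616 (h : TabsF) : FrameF repsF 358 F_3616.f :=
  frame_of rfl c_3616 (runs_of engOK r_3616_0) (by decide +kernel) h.1 h.1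

def F_3617 : FrX :=
  ⟨0x482000044040440000c2040020009000182040010020028008000084020188208400002001040410800221100201400848008008200800100802200084,
    0xa0, 1, 0x30506392a7, 5,
    [(0xa0, 1), (0x538690a2, 4), (0x548790a1, 4), (0x21437690, 4), (0x538690a2, 4), (0x548790a1, 4)],
    [(0x30506392a7, 5), (0x608495a3, 4), (0x435172a0, 4), (0x407286a3, 4), (0x435172a0, 4), (0x408391a6, 4), (0x64728095, 4), (0x407286a3, 4), (0x64728095, 4), (0x305186a4, 4), (0x407286a3, 4), (0x408391a6, 4)]⟩

def c_3617 : frmChk tA tB F_3617 = true := by decide +kernel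

def r_3617_0 : chkL rootF engF2 tA tB sA_358 sB_358 4 F_3617 [(511, 0, 0)]
    0x103c8e = true := by
  decide +kernel

theorem f_3617 (h : TabsF) : FrameF repsF 358 F_3617.f :=
  frame_of rfl c_3617 (runs_of engOK r_3617_0) (by decide +kernel) h.1 h.2

def F_3618 : FrX :=
  ⟨0x80080a000804040e0000210100200100000204088208020011008010080008200108406000200832000820040808004030004201080800a002004440200,
    0xa6, 1, 0x3154647192a3, 6,
    [(0xa6, 1), (0x205396a8, 4), (0x10548796, 4), (0x214396a7, 4), (0x205396a8, 4), (0x10548796, 4)],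
    [(0x3154647192a3, 6), (0x218590a4, 4), (0x21647083, 4), (0x215397a6, 4), (0x218590a4, 4), (0x21647083, 4)]⟩

def c_3618 : frmChk tA tA F_3618 = true := by decide +kernel

def r_3618_0 : chkL rootF engF2 tA tA sA_358 sA_358 4 F_3618 [(511, 0, 0)]
    0x4551d01b06c1b = true := by
  decide +kernel

theorem f_3618 (h : TabsF) : FrameF repsF 358 F_3618.f :=
  frame_of rfl c_3618 (runs_of engOK r_3618_0) (by decide +kernel) h.1 h.1

def F_3619 : FrX :=
  ⟨0x80080a000804040e00002101002001000002040890080a0041000080880008200108040100800812001008001301000104004800a00020a100810900080,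
    0xa6, 1, 0x6181a8, 3,
    [(0xa6, 1), (0x205396a8, 4), (0x10548796, 4), (0x214396a7, 4), (0x205396a8, 4), (0x10548796, 4)],
    [(0x6181a8, 3), (0x203175a4, 4), (0x54718096, 4), (0x417596a3, 4), (0x54718096, 4), (0x417382a5, 4), (0x204396a1, 4), (0x417596a3, 4), (0x204396a1, 4), (0x517480a3, 4), (0x417596a3, 4), (0x417382a5, 4)]⟩

def c_3619 : frmChk tA tB F_3619 = true := by decide +kernel

def r_3619_0 : chkL rootF engF2 tA tB sA_358 sB_358 4 F_3619 [(511, 0, 0)]
    0x106c0f = true := by
  decide +kernel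

theorem f_3619 (h : TabsF) : FrameF repsF 358 F_3619.f :=
  frame_of rfl c_3619 (runs_of engOK r_3619_0) (by decide +kernel) h.1 h.2

def F_3620 : FrX :=
  ⟨0x482000044040440000c2040020009000182040010010048008000084020108208440001001050410800221200001400048008008200800100802200184,
    0xa0, 1, 0x435464708592a6, 7,
    [(0xa0, 1), (0x538690a2, 4), (0x548790a1, 4), (0x21437690, 4), (0x538690a2, 4), (0x548790a1, 4)],
    [(0x435464708592a6, 7), (0x638097a4, 4), (0x527186a0, 4), (0x435280a6, 4), (0x527186a0, 4), (0x408391a6, 4), (0x526497a3, 4), (0x435280a6, 4), (0x526497a3, 4), (0x436071a8, 4), (0x435280a6, 4), (0x408391a6, 4)]⟩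

def c_3620 : frmChk tA tB F_3620 = true := by decide +kernel

def r_3620_0 : chkL rootF engF2 tA tB sA_358 sB_358 4 F_3620 [(511, 0, 0)]
    0x41707847 = true := by
  decide +kernel

theorem f_3620 (h : TabsF) : FrameF repsF 358 F_3620.f :=
  frame_of rfl c_3620 (runs_of engOK r_3620_0) (by decide +kernel) h.1 h.2

theorem cl_358 (h : TabsF) : ∀ f ∈ fr_358, FrameF repsF 358 f :=
  List.forall_mem_cons.2 ⟨f_3593 h, List.forall_mem_cons.2 ⟨f_3594 h, List.forall_mem_cons.2 ⟨f_3595 h, List.forall_mem_cons.2 ⟨f_3596 h, List.forall_mem_cons.2 ⟨f_3597 h, List.forall_mem_cons.2 ⟨f_3598 h, List.forall_mem_cons.2 ⟨f_3599 h, List.forall_mem_cons.2 ⟨f_3600 h, List.forall_mem_cons.2 ⟨f_3601 h, List.forall_mem_cons.2 ⟨f_3602 h, List.forall_mem_cons.2 ⟨f_3603 h, List.forall_mem_cons.2 ⟨f_3604 h, List.forall_mem_cons.2 ⟨f_3605 h, List.forall_mem_cons.2 ⟨f_3606 h, List.forall_mem_cons.2 ⟨f_3607 h, List.forall_mem_cons.2 ⟨f_3608 h, List.forall_mem_cons.2 ⟨f_3609 h, List.forall_mem_cons.2 ⟨f_3610 h, List.forall_mem_cons.2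 ⟨f_3611 h, List.forall_mem_cons.2 ⟨f_3612 h, List.forall_mem_cons.2 ⟨f_3613 h, List.forall_mem_cons.2 ⟨f_3614 h, List.forall_mem_cons.2 ⟨f_3615 h, List.forall_mem_cons.2 ⟨f_3616 h, List.forall_mem_cons.2 ⟨f_3617 h, List.forall_mem_cons.2 ⟨f_3618 h, List.forall_mem_cons.2 ⟨f_3619 h, List.forall_mem_cons.2 ⟨f_3620 h,
    fun _ h0 => absurd h0 List.not_mem_nil⟩⟩⟩⟩⟩⟩⟩⟩⟩⟩⟩⟩⟩⟩⟩⟩⟩⟩⟩⟩⟩⟩⟩⟩⟩⟩⟩⟩

def F_3621 : FrX :=
  ⟨0x2002000900044004000e0204100014100080004080040208012000210802110104000801008004080104030101400004030020201004800800404000a084,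
    0xa3, 1, 0x20416592a8, 5,
    [(0xa3, 1), (0x208693a5, 4), (0x10548793, 4), (0x217693a4, 4), (0x208693a5, 4), (0x10548793, 4)],
    [(0x20416592a8, 5), (0x638092a5, 4), (0x426180a7, 4), (0x31758094, 4), (0x638092a5, 4), (0x426180a7, 4)]⟩

def c_3621 : frmChk tA tA F_3621 = true := by decide +kernel

def r_3621_0 : chkL rootF engF2 tA tA sA_359 sA_359 4 F_3621 [(511, 0, 0)]
    0x40f = true := by
  decide +kernel

theorem f_3621 (h : TabsF) : FrameF repsF 359 F_3621.f :=
  frame_of rfl c_3621 (runs_of engOK r_3621_0) (by decide +kernel) h.1 h.1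

def F_3622 : FrX :=
  ⟨0x80080a000804040e0000210100200100000204088108040021002080080008400112042000202002002820040510000a106002000404111100002440000,
    0xa6, 1, 0x31415262748496a5, 8,
    [(0xa6, 1), (0x205396a8, 4), (0x10548796, 4), (0x214396a7, 4), (0x205396a8, 4), (0x10548796, 4)],
    [(0x31415262748496a5, 8), (0x526097a1, 4), (0x405273a8, 4), (0x52648193, 4), (0x526097a1, 4), (0x405273a8, 4)]⟩

def c_3622 : frmChk tA tA F_3622 = true := by decide +kernel

def r_3622_0 : chkL rootF engF2 tA tA sA_359 sA_359 4 F_3622 [(511, 0, 0)]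
    0x109c35 = true := by
  decide +kernel

theorem f_3622 (h : TabsF) : FrameF repsF 359 F_3622.f :=
  frame_of rfl c_3622 (runs_of engOK r_3622_0) (by decide +kernel) h.1 h.1

def F_3623 : FrX :=
  ⟨0x482000044040440000c2040020009000182040020000448000100110010c100080804000280c1010040080401120040204008200000622000042800009,
    0xa0, 1, 0x325360708294a6, 7,
    [(0xa0, 1), (0x538690a2, 4), (0x548790a1, 4), (0x21437690, 4), (0x538690a2, 4), (0x548790a1, 4)],
    [(0x325360708294a6, 7), (0x405287a3, 4), (0x40637192, 4), (0x408195a6, 4), (0x405287a3, 4), (0x40637192, 4)]⟩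

def c_3623 : frmChk tA tA F_3623 = true := by decide +kernel

def r_3623_0 : chkL rootF engF2 tA tA sA_359 sA_359 4 F_3623 [(511, 0, 0)]
    0x11582e = true := by
  decide +kernel

theorem f_3623 (h : TabsF) : FrameF repsF 359 F_3623.f :=
  frame_of rfl c_3623 (runs_of engOK r_3623_0) (by decide +kernel) h.1 h.1

def F_3624 : FrX :=
  ⟨0x2002000900044004000e0204100014100080004080040028208120400080a0020000022040820010200200404050200080002200c0400210082244080040,
    0xa3, 1, 0x21306082a3, 5,
    [(0xa3, 1), (0x208693a5, 4), (0x10548793, 4), (0x217693a4, 4), (0x208693a5, 4), (0x10548793, 4)],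
    [(0x21306082a3, 5), (0x318690a5, 4), (0x54627190, 4), (0x738290a4, 4), (0x318690a5, 4), (0x54627190, 4)]⟩

def c_3624 : frmChk tA tA F_3624 = true := by decide +kernel

def r_3624_0 : chkL rootF engF2 tA tA sA_359 sA_359 4 F_3624 [(511, 0, 0)]
    0x103c3615827 = true := by
  decide +kernel

theorem f_3624 (h : TabsF) : FrameF repsF 359 F_3624.f :=
  frame_of rfl c_3624 (runs_of engOK r_3624_0) (by decide +kernel) h.1 h.1

def F_3625 : FrX :=
  ⟨0x482000044040440000c2040020009000182040020002020800080b00080188004020000102008112000010604110400210010002080800042101020042,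
    0xa0, 1, 0x324353637498a5, 7,
    [(0xa0, 1), (0x538690a2, 4), (0x548790a1, 4), (0x21437690, 4), (0x538690a2, 4), (0x548790a1, 4)],
    [(0x324353637498a5, 7), (0x308495a6, 4), (0x108492a7, 4), (0x31527684, 4), (0x308495a6, 4), (0x108492a7, 4)]⟩

def c_3625 : frmChk tA tA F_3625 = true := by decide +kernel

def r_3625_0 : chkL rootF engF2 tA tA sA_359 sA_359 4 F_3625 [(511, 0, 0)]
    0x4360d91303c1d = true := by
  decide +kernel

theorem f_3625 (h : TabsF) : FrameF repsF 359 F_3625.f :=
  frame_of rfl c_3625 (runs_of engOK r_3625_0) (by decide +kernel) h.1 h.1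

def F_3626 : FrX :=
  ⟨0x80080a000804040e0000210100200100000204088120000b00403000001200404008005004002000104820101021000024000103100060c080105080000,
    0xa6, 1, 0x10326487a6, 5,
    [(0xa6, 1), (0x205396a8, 4), (0x10548796, 4), (0x214396a7, 4), (0x205396a8, 4), (0x10548796, 4)],
    [(0x10326487a6, 5), (0x315294a7, 4), (0x10658794, 4), (0x306294a8, 4), (0x315294a7, 4), (0x10658794, 4)]⟩

def c_3626 : frmChk tA tA F_3626 = true := by decide +kernel

def r_3626_0 : chkL rootF engF2 tA tA sA_359 sA_359 4 F_3626 [(511, 0, 0)]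
    0x1834990781e03c0f0cc56158471582d13456 = true := by
  decide +kernel

theorem f_3626 (h : TabsF) : FrameF repsF 359 F_3626.f :=
  frame_of rfl c_3626 (runs_of engOK r_3626_0) (by decide +kernel) h.1 h.1

def F_3627 : FrX :=
  ⟨0x80080a000804040e000021010020010000020408900800008500004208000820086040008080c04100100800230020400410080004020222020110c0000,
    0xa6, 1, 0x2031527391a0, 6,
    [(0xa6, 1), (0x205396a8, 4), (0x10548796, 4), (0x214396a7, 4), (0x205396a8, 4), (0x10548796, 4)],
    [(0x2031527391a0, 6), (0x107684a5, 4), (0x324061a9, 4), (0x10326487, 4), (0x324061a9, 4), (0x64718095, 4), (0x327486a5, 4), (0x10326487, 4), (0x327486a5, 4), (0x416087a9, 4), (0x10326487, 4), (0x64718095, 4)]⟩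

def c_3627 : frmChk tA tB F_3627 = true := by decide +kernel

def r_3627_0 : chkL rootF engF2 tA tB sA_359 sB_359 4 F_3627 [(511, 0, 0)]
    0x4172641b07833 = true := by
  decide +kernel

theorem f_3627 (h : TabsF) : FrameF repsF 359 F_3627.f :=
  frame_of rfl c_3627 (runs_of engOK r_3627_0) (by decide +kernel) h.1 h.2

def F_3628 : FrX :=
  ⟨0x1c21020000040440000020410001010000820408a000110000002240020404400008060008202100808000420482000a00800a0004010212000a0220088,
    0x0, 0, 0x21537387, 4,
    [(0x0, 0), (0x205386a9, 4), (0x105487a9, 4), (0x214376a9, 4), (0x205386a9, 4), (0x105487a9, 4)],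
    [(0x21537387, 4), (0x106573a9, 4), (0x204385a9, 4), (0x217486a9, 4), (0x106573a9, 4), (0x204385a9, 4)]⟩

def c_3628 : frmChk tA tA F_3628 = true := by decide +kernel

def r_3628_0 : chkL rootF engF2 tA tA sA_359 sA_359 4 F_3628 [(255, 0, 0), (256, 0, 3)]
    0x1 = true := by
  decide +kernel

def r_3628_1 : chkL rootF engF2 tA tA sA_359 sA_359 4 F_3628 [(256, 3, 14)]
    0x417 = true := by
  decide +kernel

def r_3628_2 : chkL rootF engF2 tA tA sA_359 sA_359 4 F_3628 [(256, 17, 0)]
    0x1 = true := by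
  decide +kernel

theorem f_3628 (h : TabsF) : FrameF repsF 359 F_3628.f :=
  frame_of rfl c_3628 ((runs_of engOK r_3628_0).append ((runs_of engOK r_3628_1).append (runs_of engOK r_3628_2))) (by decide +kernel) h.1 h.1

def F_3629 : FrX :=
  ⟨0x482000044040440000c2040020009000182040010080020804000208080884804080000808010220000420404010100010810044100100101100040138,
    0xa0, 1, 0x5162728792a4, 6,
    [(0xa0, 1), (0x538690a2, 4), (0x548790a1, 4), (0x21437690, 4), (0x538690a2, 4), (0x548790a1, 4)],
    [(0x5162728792a4, 6), (0x31627490, 4), (0x507486a1, 4), (0x748295a3, 4), (0x31627490, 4), (0x507486a1, 4)]⟩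

def c_3629 : frmChk tA tA F_3629 = true := by decide +kernel

def r_3629_0 : chkL rootF engF2 tA tA sA_359 sA_359 4 F_3629 [(511, 0, 0)]
    0x105c17 = true := by
  decide +kernel

theorem f_3629 (h : TabsF) : FrameF repsF 359 F_3629.f :=
  frame_of rfl c_3629 (runs_of engOK r_3629_0) (by decide +kernel) h.1 h.1

def F_3630 : FrX :=
  ⟨0x80080a000804040e00002101002001000002040881200001404030000012004040084041400020080040800211010080000101284001084044110100480,
    0xa6, 1, 0x21405161758792a3, 8,
    [(0xa6, 1), (0x205396a8, 4), (0x10548796, 4), (0x214396a7, 4), (0x205396a8, 4), (0x10548796, 4)],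
    [(0x21405161758792a3, 8), (0x315294a7, 4), (0x31647082, 4), (0x318596a0, 4), (0x315294a7, 4), (0x31647082, 4)]⟩

def c_3630 : frmChk tA tA F_3630 = true := by decide +kernel

def r_3630_0 : chkL rootF engF2 tA tA sA_359 sA_359 4 F_3630 [(511, 0, 0)]
    0x1 = true := by
  decide +kernel

theorem f_3630 (h : TabsF) : FrameF repsF 359 F_3630.f :=
  frame_of rfl c_3630 (runs_of engOK r_3630_0) (by decide +kernel) h.1 h.1

def F_3631 : FrX :=
  ⟨0x1c210200000404400000204100010100008204089008008000100410080004101080808080404041000080440112004000420a00040402100c0a4000204,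
    0x0, 0, 0x106475, 3,
    [(0x0, 0), (0x205386a9, 4), (0x105487a9, 4), (0x214376a9, 4), (0x205386a9, 4), (0x105487a9, 4)],
    [(0x106475, 3), (0x217384a9, 4), (0x107685a9, 4), (0x205463a9, 4), (0x217384a9, 4), (0x107685a9, 4)]⟩

def c_3631 : frmChk tA tA F_3631 = true := by decide +kernel

def r_3631_0 : chkL rootF engF2 tA tA sA_359 sA_359 4 F_3631 [(511, 0, 0)]
    0x1 = true := by
  decide +kernel

theorem f_3631 (h : TabsF) : FrameF repsF 359 F_3631.f :=
  frame_of rfl c_3631 (runs_of engOK r_3631_0) (by decide +kernel) h.1 h.1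

def F_3632 : FrX :=
  ⟨0x2002000900044004000e0204100014100080004080080208008802400080808200000848090400041400000440102000200400a02040402000a094042200,
    0xa3, 1, 0x2030418498a2, 6,
    [(0xa3, 1), (0x208693a5, 4), (0x10548793, 4), (0x217693a4, 4), (0x208693a5, 4), (0x10548793, 4)],
    [(0x2030418498a2, 6), (0x105296a3, 4), (0x10438597, 4), (0x107682a4, 4), (0x105296a3, 4), (0x10438597, 4)]⟩

def c_3632 : frmChk tA tA F_3632 = true := by decide +kernel

def r_3632_0 : chkL rootF engF2 tA tA sA_359 sA_359 4 F_3632 [(511, 0, 0)]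
    0x41719827 = true := by
  decide +kernel

theorem f_3632 (h : TabsF) : FrameF repsF 359 F_3632.f :=
  frame_of rfl c_3632 (runs_of engOK r_3632_0) (by decide +kernel) h.1 h.1

def F_3633 : FrX :=
  ⟨0x80080a000804040e0000210100200100000204088108100005002080020040400050112000202000809000020480000a02400a0004101212000100c0088,
    0xa6, 1, 0x20718793a0, 5,
    [(0xa6, 1), (0x205396a8, 4), (0x10548796, 4), (0x214396a7, 4), (0x205396a8, 4), (0x10548796, 4)],
    [(0x20718793a0, 5), (0x418596a0, 4), (0x325486a7, 4), (0x32648591, 4), (0x325486a7, 4), (0x51647098, 4), (0x326194a0, 4), (0x32648591, 4), (0x326194a0, 4), (0x658491a7, 4), (0x32648591, 4), (0x51647098, 4)]⟩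

def c_3633 : frmChk tA tB F_3633 = true := by decide +kernel

def r_3633_0 : chkL rootF engF2 tA tB sA_359 sB_359 4 F_3633 [(511, 0, 0)]
    0x10e80f = true := by
  decide +kernel

theorem f_3633 (h : TabsF) : FrameF repsF 359 F_3633.f :=
  frame_of rfl c_3633 (runs_of engOK r_3633_0) (by decide +kernel) h.1 h.2

def F_3634 : FrX :=
  ⟨0x482000044040440000c2040020009000182040000a00048008020080810050010080400888000012000220400220002008010118008094060024000011,
    0xa0, 1, 0x203251617090a1, 7,
    [(0xa0, 1), (0x538690a2, 4), (0x548790a1, 4), (0x21437690, 4), (0x538690a2, 4), (0x548790a1, 4)],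
    [(0x203251617090a1, 7), (0x10768593, 4), (0x417682a9, 4), (0x405276a3, 4), (0x10768593, 4), (0x417682a9, 4)]⟩

def c_3634 : frmChk tA tA F_3634 = true := by decide +kernel

def r_3634_0 : chkL rootF engF2 tA tA sA_359 sA_359 4 F_3634 [(511, 0, 0)]
    0x1 = true := by
  decide +kernel

theorem f_3634 (h : TabsF) : FrameF repsF 359 F_3634.f :=
  frame_of rfl c_3634 (runs_of engOK r_3634_0) (by decide +kernel) h.1 h.1

def F_3635 : FrX :=
  ⟨0x80080a000804040e000021010020010000020408804110040080440404400010008020600080100208100000141001010410042840100a0404020220080,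
    0xa6, 1, 0x103243618595a0, 7,
    [(0xa6, 1), (0x205396a8, 4), (0x10548796, 4), (0x214396a7, 4), (0x205396a8, 4), (0x10548796, 4)],
    [(0x103243618595a0, 7), (0x508194a3, 4), (0x758192a6, 4), (0x42637081, 4), (0x508194a3, 4), (0x758192a6, 4)]⟩

def c_3635 : frmChk tA tA F_3635 = true := by decide +kernel

def r_3635_0 : chkL rootF engF2 tA tA sA_359 sA_359 4 F_3635 [(511, 0, 0)]
    0x427 = true := by
  decide +kernel

theorem f_3635 (h : TabsF) : FrameF repsF 359 F_3635.f :=
  frame_of rfl c_3635 (runs_of engOK r_3635_0) (by decide +kernel) h.1 h.1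

def F_3636 : FrX :=
  ⟨0x1c21020000040440000020410001010000820408a0001100000044100404021000101100028010220800400014110101040404284100020404100408080,
    0x0, 0, 0x21546474, 4,
    [(0x0, 0), (0x205386a9, 4), (0x105487a9, 4), (0x214376a9, 4), (0x205386a9, 4), (0x105487a9, 4)],
    [(0x21546474, 4), (0x104385a9, 4), (0x207486a9, 4), (0x216573a9, 4), (0x104385a9, 4), (0x207486a9, 4)]⟩

def c_3636 : frmChk tA tA F_3636 = true := by decide +kernel

def r_3636_0 : chkL rootF engF2 tA tA sA_359 sA_359 4 F_3636 [(255, 0, 0), (256, 0, 3)]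
    0x1 = true := by
  decide +kernel

def r_3636_1 : chkL rootF engF2 tA tA sA_359 sA_359 4 F_3636 [(256, 3, 13)]
    0x4a9139a42984e298a6498a62992c498a63c1a4299a4 = true := by
  decide +kernel

def r_3636_2 : chkL rootF engF2 tA tA sA_359 sA_359 4 F_3636 [(256, 16, 0)]
    0x1 = true := by
  decide +kernel

theorem f_3636 (h : TabsF) : FrameF repsF 359 F_3636.f :=
  frame_of rfl c_3636 ((runs_of engOK r_3636_0).append ((runs_of engOK r_3636_1).append (runs_of engOK r_3636_2))) (by decide +kernel) h.1 h.1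

def F_3637 : FrX :=
  ⟨0x2002000900044004000e02041000141000800040808001002080840402004080100120104020010220800402010010100040406224001020401110008010,
    0xa3, 1, 0x324351648390a6, 7,
    [(0xa3, 1), (0x208693a5, 4), (0x10548793, 4), (0x217693a4, 4), (0x208693a5, 4), (0x10548793, 4)],
    [(0x324351648390a6, 7), (0x208193a4, 4), (0x20617495, 4), (0x205386a7, 4), (0x208193a4, 4), (0x20617495, 4)]⟩

def c_3637 : frmChk tA tA F_3637 = true := by decide +kernel

def r_3637_0 : chkL rootF engF2 tA tA sA_359 sA_359 4 F_3637 [(511, 0, 0)]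
    0x40fe044d = true := by
  decide +kernel

theorem f_3637 (h : TabsF) : FrameF repsF 359 F_3637.f :=
  frame_of rfl c_3637 (runs_of engOK r_3637_0) (by decide +kernel) h.1 h.1

def F_3638 : FrX :=
  ⟨0x80080a000804040e00002101002001000002040890010008084004100480002020111002002021008008001000601120100100941000804040805080200,
    0xa6, 1, 0x3243617396a5, 6,
    [(0xa6, 1), (0x205396a8, 4), (0x10548796, 4), (0x214396a7, 4), (0x205396a8, 4), (0x10548796, 4)],
    [(0x3243617396a5, 6), (0x308297a4, 4), (0x516094a2, 4), (0x518792a4, 4), (0x516094a2, 4), (0x637492a8, 4), (0x30517298, 4), (0x518792a4, 4), (0x30517298, 4), (0x426087a9, 4), (0x518792a4, 4), (0x637492a8, 4)]⟩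

def c_3638 : frmChk tA tB F_3638 = true := by decide +kernel

def r_3638_0 : chkL rootF engF2 tA tB sA_359 sB_359 4 F_3638 [(511, 0, 0)]
    0x1 = true := by
  decide +kernel

theorem f_3638 (h : TabsF) : FrameF repsF 359 F_3638.f :=
  frame_of rfl c_3638 (runs_of engOK r_3638_0) (by decide +kernel) h.1 h.2

def F_3639 : FrX :=
  ⟨0x1c210200000404400000204100010100008204088820000800808000400024202060100102c000040c0044088006000118000104a010220200004080008,
    0x0, 0, 0x107583, 3,
    [(0x0, 0), (0x205386a9, 4), (0x105487a9, 4), (0x214376a9, 4), (0x205386a9, 4), (0x105487a9, 4)],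
    [(0x107583, 3), (0x216387a9, 4), (0x105374a9, 4), (0x206584a9, 4), (0x216387a9, 4), (0x105374a9, 4)]⟩

def c_3639 : frmChk tA tA F_3639 = true := by decide +kernel

def r_3639_0 : chkL rootF engF2 tA tA sA_359 sA_359 4 F_3639 [(511, 0, 0)]
    0x119a0d = true := by
  decide +kernel

theorem f_3639 (h : TabsF) : FrameF repsF 359 F_3639.f :=
  frame_of rfl c_3639 (runs_of engOK r_3639_0) (by decide +kernel) h.1 h.1

def F_3640 : FrX :=
  ⟨0x482000044040440000c204002000900018204000208400010088020002020080450010102400048081004088801084008000010a040424000804200004,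
    0xa0, 1, 0x10325164708597a2, 8,
    [(0xa0, 1), (0x538690a2, 4), (0x548790a1, 4), (0x21437690, 4), (0x538690a2, 4), (0x548790a1, 4)],
    [(0x10325164708597a2, 8), (0x314082a7, 4), (0x31758690, 4), (0x316294a5, 4), (0x314082a7, 4), (0x31758690, 4)]⟩

def c_3640 : frmChk tA tA F_3640 = true := by decide +kernel

def r_3640_0 : chkL rootF engF2 tA tA sA_359 sA_359 4 F_3640 [(511, 0, 0)]
    0x1 = true := by
  decide +kernel

theorem f_3640 (h : TabsF) : FrameF repsF 359 F_3640.f :=
  frame_of rfl c_3640 (runs_of engOK r_3640_0) (by decide +kernel) h.1 h.1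

def F_3641 : FrX :=
  ⟨0x482000044040440000c2040020009000182040002012040000880200044402020400050020010400800040888010002080010121210080850004200104,
    0xa0, 1, 0x21324052738695a3, 8,
    [(0xa0, 1), (0x538690a2, 4), (0x548790a1, 4), (0x21437690, 4), (0x538690a2, 4), (0x548790a1, 4)],
    [(0x21324052738695a3, 8), (0x547386a9, 4), (0x42617390, 4), (0x527381a0, 4), (0x547386a9, 4), (0x42617390, 4)]⟩

def c_3641 : frmChk tA tA F_3641 = true := by decide +kernel

def r_3641_0 : chkL rootF engF2 tA tA sA_359 sA_359 4 F_3641 [(511, 0, 0)]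
    0x40f05e8a1a561 = true := by
  decide +kernel

theorem f_3641 (h : TabsF) : FrameF repsF 359 F_3641.f :=
  frame_of rfl c_3641 (runs_of engOK r_3641_0) (by decide +kernel) h.1 h.1

def F_3642 : FrX :=
  ⟨0x80080a000804040e0000210100200100000204088060000441009800000408202002040140c000040c0080088005000100004104a0009202000c0200008,
    0xa6, 1, 0x103240617195a8, 7,
    [(0xa6, 1), (0x205396a8, 4), (0x10548796, 4), (0x214396a7, 4), (0x205396a8, 4), (0x10548796, 4)],
    [(0x103240617195a8, 7), (0x204396a1, 4), (0x60748591, 4), (0x108596a2, 4), (0x60748591, 4), (0x106273a9, 4), (0x214385a0, 4), (0x108596a2, 4), (0x214385a0, 4), (0x617490a2, 4), (0x108596a2, 4), (0x106273a9, 4)]⟩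

def c_3642 : frmChk tA tB F_3642 = true := by decide +kernel

def r_3642_0 : chkL rootF engF2 tA tB sA_359 sB_359 4 F_3642 [(511, 0, 0)]
    0x40f = true := by
  decide +kernel

theorem f_3642 (h : TabsF) : FrameF repsF 359 F_3642.f :=
  frame_of rfl c_3642 (runs_of engOK r_3642_0) (by decide +kernel) h.1 h.2

def F_3643 : FrX :=
  ⟨0x482000044040440000c204002000900018204001002008200100018000c004220800040804041010000030408020c000080801100a0480014220000084,
    0xa0, 1, 0x20324052608391a6, 8,
    [(0xa0, 1), (0x538690a2, 4), (0x548790a1, 4), (0x21437690, 4), (0x538690a2, 4), (0x548790a1, 4)],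
    [(0x20324052608391a6, 8), (0x416583a0, 4), (0x32417096, 4), (0x418295a7, 4), (0x416583a0, 4), (0x32417096, 4)]⟩

def c_3643 : frmChk tA tA F_3643 = true := by decide +kernel

def r_3643_0 : chkL rootF engF2 tA tA sA_359 sA_359 4 F_3643 [(511, 0, 0)]
    0x1 = true := by
  decide +kernel

theorem f_3643 (h : TabsF) : FrameF repsF 359 F_3643.f :=
  frame_of rfl c_3643 (runs_of engOK r_3643_0) (by decide +kernel) h.1 h.1

def F_3644 : FrX :=
  ⟨0x482000044040440000c2040020009000182040010080080104000884010044220400015005000100400440802008008100081010110220001002000092,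
    0xa0, 1, 0x21304053728394a3, 8,
    [(0xa0, 1), (0x538690a2, 4), (0x548790a1, 4), (0x21437690, 4), (0x538690a2, 4), (0x548790a1, 4)],
    [(0x21304053728394a3, 8), (0x657483a0, 4), (0x42518390, 4), (0x617283a9, 4), (0x657483a0, 4), (0x42518390, 4)]⟩

def c_3644 : frmChk tA tA F_3644 = true := by decide +kernel

def r_3644_0 : chkL rootF engF2 tA tA sA_359 sA_359 4 F_3644 [(511, 0, 0)]
    0x12643606c4b = true := by
  decide +kernel

theorem f_3644 (h : TabsF) : FrameF repsF 359 F_3644.f :=
  frame_of rfl c_3644 (runs_of engOK r_3644_0) (by decide +kernel) h.1 h.1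

def F_3645 : FrX :=
  ⟨0x80080a000804040e00002101002001000002040890020001404008808280004020011010000031000028000828019002020810004008002444080808080,
    0xa6, 1, 0x324150657298a7, 7,
    [(0xa6, 1), (0x205396a8, 4), (0x10548796, 4), (0x214396a7, 4), (0x205396a8, 4), (0x10548796, 4)],
    [(0x324150657298a7, 7), (0x207591a6, 4), (0x546183a0, 4), (0x108392a6, 4), (0x546183a0, 4), (0x107496a2, 4), (0x21758390, 4), (0x108392a6, 4), (0x21758390, 4), (0x546092a1, 4), (0x108392a6, 4), (0x107496a2, 4)]⟩

def c_3645 : frmChk tA tB F_3645 = true := by decide +kernel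

def r_3645_0 : chkL rootF engF2 tA tB sA_359 sB_359 4 F_3645 [(511, 0, 0)]
    0x45c = true := by
  decide +kernel

theorem f_3645 (h : TabsF) : FrameF repsF 359 F_3645.f :=
  frame_of rfl c_3645 (runs_of engOK r_3645_0) (by decide +kernel) h.1 h.2

def F_3646 : FrX :=
  ⟨0x2002000900044004000e020410001410008000408100000480420021010082080040011008080108120002084000028040142402400800000409000c4040,
    0xa3, 1, 0x10425362738591a0, 8,
    [(0xa3, 1), (0x208693a5, 4), (0x10548793, 4), (0x217693a4, 4), (0x208693a5, 4), (0x10548793, 4)],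
    [(0x10425362738591a0, 8), (0x104387a6, 4), (0x105382a9, 4), (0x10547296, 4), (0x104387a6, 4), (0x105382a9, 4)]⟩

def c_3646 : frmChk tA tA F_3646 = true := by decide +kernel

def r_3646_0 : chkL rootF engF2 tA tA sA_359 sA_359 4 F_3646 [(511, 0, 0)]
    0x4174c82d = true := by
  decide +kernel

theorem f_3646 (h : TabsF) : FrameF repsF 359 F_3646.f :=
  frame_of rfl c_3646 (runs_of engOK r_3646_0) (by decide +kernel) h.1 h.1

def F_3647 : FrX :=
  ⟨0x2002000900044004000e020410001410008000408010002280014001010204400400810008480008800804000204040c04022101020400000110c000a008,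
    0xa3, 1, 0x314352637695a6, 7,
    [(0xa3, 1), (0x208693a5, 4), (0x10548793, 4), (0x217693a4, 4), (0x208693a5, 4), (0x10548793, 4)],
    [(0x314352637695a6, 7), (0x508194a6, 4), (0x307291a4, 4), (0x728694a1, 4), (0x307291a4, 4), (0x536498a1, 4), (0x506172a8, 4), (0x728694a1, 4), (0x506172a8, 4), (0x304186a9, 4), (0x728694a1, 4), (0x536498a1, 4)]⟩

def c_3647 : frmChk tA tB F_3647 = true := by decide +kernel

def r_3647_0 : chkL rootF engF2 tA tB sA_359 sB_359 4 F_3647 [(511, 0, 0)]
    0x105c2b98ae0 = true := by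
  decide +kernel

theorem f_3647 (h : TabsF) : FrameF repsF 359 F_3647.f :=
  frame_of rfl c_3647 (runs_of engOK r_3647_0) (by decide +kernel) h.1 h.2

def F_3648 : FrX :=
  ⟨0x80080a000804040e0000210100200100000204088108080049002080080008200108042000202002002840040900000a1060020004080c0202004442000,
    0xa6, 1, 0x53627481a6, 5,
    [(0xa6, 1), (0x205396a8, 4), (0x10548796, 4), (0x214396a7, 4), (0x205396a8, 4), (0x10548796, 4)],
    [(0x53627481a6, 5), (0x436071a5, 4), (0x738092a4, 4), (0x435192a7, 4), (0x738092a4, 4), (0x315486a7, 4), (0x607592a1, 4), (0x435192a7, 4), (0x607592a1, 4), (0x517480a3, 4), (0x435192a7, 4), (0x315486a7, 4)]⟩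

def c_3648 : frmChk tA tB F_3648 = true := by decide +kernel

def r_3648_0 : chkL rootF engF2 tA tB sA_359 sB_359 4 F_3648 [(511, 0, 0)]
    0x11b099 = true := by
  decide +kernel

theorem f_3648 (h : TabsF) : FrameF repsF 359 F_3648.f :=
  frame_of rfl c_3648 (runs_of engOK r_3648_0) (by decide +kernel) h.1 h.2

theorem cl_359 (h : TabsF) : ∀ f ∈ fr_359, FrameF repsF 359 f :=
  List.forall_mem_cons.2 ⟨f_3621 h, List.forall_mem_cons.2 ⟨f_3622 h, List.forall_mem_cons.2 ⟨f_3623 h, List.forall_mem_cons.2 ⟨f_3624 h, List.forall_mem_cons.2 ⟨f_3625 h, List.forall_mem_cons.2 ⟨f_3626 h, List.forall_mem_cons.2 ⟨f_3627 h, List.forall_mem_cons.2 ⟨f_3628 h, List.forall_mem_cons.2 ⟨f_3629 h, List.forall_mem_cons.2 ⟨f_3630 h, List.forall_mem_cons.2 ⟨f_3631 h, List.forall_mem_cons.2 ⟨f_3632 h, List.forall_mem_cons.2 ⟨f_3633 h, List.forall_mem_cons.2 ⟨f_3634 h, List.forall_mem_cons.2 ⟨f_3635 h, List.forall_mem_cons.2 ⟨f_3636 h, List.forall_mem_cons.2 ⟨f_3637 h, List.forall_mem_cons.2 ⟨f_3638 h, List.forall_mem_cons.2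 ⟨f_3639 h, List.forall_mem_cons.2 ⟨f_3640 h, List.forall_mem_cons.2 ⟨f_3641 h, List.forall_mem_cons.2 ⟨f_3642 h, List.forall_mem_cons.2 ⟨f_3643 h, List.forall_mem_cons.2 ⟨f_3644 h, List.forall_mem_cons.2 ⟨f_3645 h, List.forall_mem_cons.2 ⟨f_3646 h, List.forall_mem_cons.2 ⟨f_3647 h, List.forall_mem_cons.2 ⟨f_3648 h,
    fun _ h0 => absurd h0 List.not_mem_nil⟩⟩⟩⟩⟩⟩⟩⟩⟩⟩⟩⟩⟩⟩⟩⟩⟩⟩⟩⟩⟩⟩⟩⟩⟩⟩⟩⟩

def F_3649 : FrX :=
  ⟨0x2002000900044004000e0204100014100080004080400028012000200802110114000801008014080104020101400004030020201004800800404000a084,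
    0xa3, 1, 0x104250648591a4, 7,
    [(0xa3, 1), (0x208693a5, 4), (0x10548793, 4), (0x217693a4, 4), (0x208693a5, 4), (0x10548793, 4)],
    [(0x104250648591a4, 7), (0x21546083, 4), (0x607195a8, 4), (0x607294a3, 4), (0x21546083, 4), (0x607195a8, 4)]⟩

def c_3649 : frmChk tA tA F_3649 = true := by decide +kernel

def r_3649_0 : chkL rootF engF2 tA tA sA_360 sA_360 4 F_3649 [(511, 0, 0)]
    0x40f22d611680f03c0f = true := by
  decide +kernel

theorem f_3649 (h : TabsF) : FrameF repsF 360 F_3649.f :=
  frame_of rfl c_3649 (runs_of engOK r_3649_0) (by decide +kernel) h.1 h.1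

def F_3650 : FrX :=
  ⟨0x80080a000804040e0000210100200100000204088108040021002080080009040012042000202002002820040510000a042012000404111100002440000,
    0xa6, 1, 0x102041526595a1, 7,
    [(0xa6, 1), (0x205396a8, 4), (0x10548796, 4), (0x214396a7, 4), (0x205396a8, 4), (0x10548796, 4)],
    [(0x102041526595a1, 7), (0x52648193, 4), (0x648790a2, 4), (0x306471a5, 4), (0x52648193, 4), (0x648790a2, 4)]⟩

def c_3650 : frmChk tA tA F_3650 = true := by decide +kernel

def r_3650_0 : chkL rootF engF2 tA tA sA_360 sA_360 4 F_3650 [(511, 0, 0)]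
    0x40f07469 = true := by
  decide +kernel

theorem f_3650 (h : TabsF) : FrameF repsF 360 F_3650.f :=
  frame_of rfl c_3650 (runs_of engOK r_3650_0) (by decide +kernel) h.1 h.1

def F_3651 : FrX :=
  ⟨0x482000044040440000c2040020009000182040020000448000100110010c10008080400022081040240080401120040204009200000620000042800009,
    0xa0, 1, 0x325360708294a6, 7,
    [(0xa0, 1), (0x538690a2, 4), (0x548790a1, 4), (0x21437690, 4), (0x538690a2, 4), (0x548790a1, 4)],
    [(0x325360708294a6, 7), (0x405287a3, 4), (0x40637192, 4), (0x408195a6, 4), (0x405287a3, 4), (0x40637192, 4)]⟩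

def c_3651 : frmChk tA tA F_3651 = true := by decide +kernel

def r_3651_0 : chkL rootF engF2 tA tA sA_360 sA_360 4 F_3651 [(511, 0, 0)]
    0x10f01e = true := by
  decide +kernel

theorem f_3651 (h : TabsF) : FrameF repsF 360 F_3651.f :=
  frame_of rfl c_3651 (runs_of engOK r_3651_0) (by decide +kernel) h.1 h.1

def F_3652 : FrX :=
  ⟨0x2002000900044004000e0204100014100080004080040028208120400080a002000002204082001020020040405020008000212040400210082405080040,
    0xa3, 1, 0x21306082a3, 5,
    [(0xa3, 1), (0x208693a5, 4), (0x10548793, 4), (0x217693a4, 4), (0x208693a5, 4), (0x10548793, 4)],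
    [(0x21306082a3, 5), (0x318690a5, 4), (0x54627190, 4), (0x738290a4, 4), (0x318690a5, 4), (0x54627190, 4)]⟩

def c_3652 : frmChk tA tA F_3652 = true := by decide +kernel

def r_3652_0 : chkL rootF engF2 tA tA sA_360 sA_360 4 F_3652 [(511, 0, 0)]
    0x519530a6390270e82709c360cc0f = true := by
  decide +kernel

theorem f_3652 (h : TabsF) : FrameF repsF 360 F_3652.f :=
  frame_of rfl c_3652 (runs_of engOK r_3652_0) (by decide +kernel) h.1 h.1

def F_3653 : FrX :=
  ⟨0x482000044040440000c2040020009000182040020002020800080220084888004020000102008112000010604110400210010022080800002101020042,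
    0xa0, 1, 0x314252658397a6, 7,
    [(0xa0, 1), (0x538690a2, 4), (0x548790a1, 4), (0x21437690, 4), (0x538690a2, 4), (0x548790a1, 4)],
    [(0x314252658397a6, 7), (0x507486a1, 4), (0x30627491, 4), (0x537482a9, 4), (0x507486a1, 4), (0x30627491, 4)]⟩

def c_3653 : frmChk tA tA F_3653 = true := by decide +kernel

def r_3653_0 : chkL rootF engF2 tA tA sA_360 sA_360 4 F_3653 [(511, 0, 0)]
    0x103c4e9308b8641d = true := by
  decide +kernel

theorem f_3653 (h : TabsF) : FrameF repsF 360 F_3653.f :=
  frame_of rfl c_3653 (runs_of engOK r_3653_0) (by decide +kernel) h.1 h.1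

def F_3654 : FrX :=
  ⟨0x80080a000804040e0000210100200100000204088120000220403000001200404008205004090000104820101021000024000101100060c080105080000,
    0xa6, 1, 0x2142518590a3, 6,
    [(0xa6, 1), (0x205396a8, 4), (0x10548796, 4), (0x214396a7, 4), (0x205396a8, 4), (0x10548796, 4)],
    [(0x2142518590a3, 6), (0x306294a8, 4), (0x30728195, 4), (0x305476a1, 4), (0x306294a8, 4), (0x30728195, 4)]⟩

def c_3654 : frmChk tA tA F_3654 = true := by decide +kernel

def r_3654_0 : chkL rootF engF2 tA tA sA_360 sA_360 4 F_3654 [(511, 0, 0)]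
    0x41b0f03a = true := by
  decide +kernel

theorem f_3654 (h : TabsF) : FrameF repsF 360 F_3654.f :=
  frame_of rfl c_3654 (runs_of engOK r_3654_0) (by decide +kernel) h.1 h.1

def F_3655 : FrX :=
  ⟨0x80080a000804040e000021010020010000020408900800008500004208000820086040008020804402100800230020400410090004020202020110c0000,
    0xa6, 1, 0x2031527391a0, 6,
    [(0xa6, 1), (0x205396a8, 4), (0x10548796, 4), (0x214396a7, 4), (0x205396a8, 4), (0x10548796, 4)],
    [(0x2031527391a0, 6), (0x107684a5, 4), (0x324061a9, 4), (0x10326487, 4), (0x324061a9, 4), (0x64718095, 4), (0x327486a5, 4), (0x10326487, 4), (0x327486a5, 4), (0x416087a9, 4), (0x10326487, 4), (0x64718095, 4)]⟩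

def c_3655 : frmChk tA tB F_3655 = true := by decide +kernel

def r_3655_0 : chkL rootF engF2 tA tB sA_360 sB_360 4 F_3655 [(511, 0, 0)]
    0x105c17 = true := by
  decide +kernel

theorem f_3655 (h : TabsF) : FrameF repsF 360 F_3655.f :=
  frame_of rfl c_3655 (runs_of engOK r_3655_0) (by decide +kernel) h.1 h.2

def F_3656 : FrX :=
  ⟨0x2002000900044004000e02041000141000800040810000048050000208202108100010200808010812000208400010002020850020080008100880292080,
    0xa3, 1, 0x2030507591a2, 6,
    [(0xa3, 1), (0x208693a5, 4), (0x10548793, 4), (0x217693a4, 4), (0x208693a5, 4), (0x10548793, 4)],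
    [(0x2030507591a2, 6), (0x107286a5, 4), (0x10748395, 4), (0x104263a9, 4), (0x107286a5, 4), (0x10748395, 4)]⟩

def c_3656 : frmChk tA tA F_3656 = true := by decide +kernel

def r_3656_0 : chkL rootF engF2 tA tA sA_360 sA_360 4 F_3656 [(511, 0, 0)]
    0x455 = true := by
  decide +kernel

theorem f_3656 (h : TabsF) : FrameF repsF 360 F_3656.f :=
  frame_of rfl c_3656 (runs_of engOK r_3656_0) (by decide +kernel) h.1 h.1

def F_3657 : FrX :=
  ⟨0x80080a000804040e00002101002001000002040881200001404030000012004040084041400020080040800211010200400101084001081046110100400,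
    0xa6, 1, 0x21405161758792a3, 8,
    [(0xa6, 1), (0x205396a8, 4), (0x10548796, 4), (0x214396a7, 4), (0x205396a8, 4), (0x10548796, 4)],
    [(0x21405161758792a3, 8), (0x315294a7, 4), (0x31647082, 4), (0x318596a0, 4), (0x315294a7, 4), (0x31647082, 4)]⟩

def c_3657 : frmChk tA tA F_3657 = true := by decide +kernel

def r_3657_0 : chkL rootF engF2 tA tA sA_360 sA_360 4 F_3657 [(511, 0, 0)]
    0x41b06c1b0b81b = true := by
  decide +kernel

theorem f_3657 (h : TabsF) : FrameF repsF 360 F_3657.f :=
  frame_of rfl c_3657 (runs_of engOK r_3657_0) (by decide +kernel) h.1 h.1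

def F_3658 : FrX :=
  ⟨0x482000044040440000c2040020009000182040000821100000a000800140080300204100200802008004000c4008020840005042600104001002800808,
    0xa0, 1, 0x4252618691a3, 6,
    [(0xa0, 1), (0x538690a2, 4), (0x548790a1, 4), (0x21437690, 4), (0x538690a2, 4), (0x548790a1, 4)],
    [(0x4252618691a3, 6), (0x506381a4, 4), (0x42637190, 4), (0x638795a2, 4), (0x506381a4, 4), (0x42637190, 4)]⟩

def c_3658 : frmChk tA tA F_3658 = true := by decide +kernel

def r_3658_0 : chkL rootF engF2 tA tA sA_360 sA_360 4 F_3658 [(511, 0, 0)]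
    0x40f = true := by
  decide +kernel

theorem f_3658 (h : TabsF) : FrameF repsF 360 F_3658.f :=
  frame_of rfl c_3658 (runs_of engOK r_3658_0) (by decide +kernel) h.1 h.1

def F_3659 : FrX :=
  ⟨0x1c2102000004044000002041000101000082040888200008008020010000424040880801080020080040140211008200500001084048001046010808400,
    0x0, 0, 0x207583, 3,
    [(0x0, 0), (0x205386a9, 4), (0x105487a9, 4), (0x214376a9, 4), (0x205386a9, 4), (0x105487a9, 4)],
    [(0x207583, 3), (0x206387a9, 4), (0x215374a9, 4), (0x106584a9, 4), (0x206387a9, 4), (0x215374a9, 4)]⟩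

def c_3659 : frmChk tA tA F_3659 = true := by decide +kernel

def r_3659_0 : chkL rootF engF2 tA tA sA_360 sA_360 4 F_3659 [(511, 0, 0)]
    0x40f = true := by
  decide +kernel

theorem f_3659 (h : TabsF) : FrameF repsF 360 F_3659.f :=
  frame_of rfl c_3659 (runs_of engOK r_3659_0) (by decide +kernel) h.1 h.1

def F_3660 : FrX :=
  ⟨0x1c2102000004044000002041000101000082040888200008001080100002108004820200900010012000208600090400020050041080808100880680040,
    0x0, 0, 0x21536487, 4,
    [(0x0, 0), (0x205386a9, 4), (0x105487a9, 4), (0x214376a9, 4), (0x205386a9, 4), (0x105487a9, 4)],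
    [(0x21536487, 4), (0x105374a9, 4), (0x206387a9, 4), (0x216584a9, 4), (0x105374a9, 4), (0x206387a9, 4)]⟩

def c_3660 : frmChk tA tA F_3660 = true := by decide +kernel

def r_3660_0 : chkL rootF engF2 tA tA sA_360 sA_360 4 F_3660 [(255, 0, 0), (256, 0, 10)]
    0x144d52549521544b548551545528c4b11d4c = true := by
  decide +kernel

def r_3660_1 : chkL rootF engF2 tA tA sA_360 sA_360 4 F_3660 [(256, 10, 6)]
    0x1 = true := by
  decide +kernel

def r_3660_2 : chkL rootF engF2 tA tA sA_360 sA_360 4 F_3660 [(256, 16, 0)]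
    0x1 = true := by
  decide +kernel

theorem f_3660 (h : TabsF) : FrameF repsF 360 F_3660.f :=
  frame_of rfl c_3660 ((runs_of engOK r_3660_0).append ((runs_of engOK r_3660_1).append (runs_of engOK r_3660_2))) (by decide +kernel) h.1 h.1

def F_3661 : FrX :=
  ⟨0x80080a000804040e0000210100200100000204088108100005002080020014400050102000202000809000020480000a02400a0004101246000100c0008,
    0xa6, 1, 0x21328597a0, 5,
    [(0xa6, 1), (0x205396a8, 4), (0x10548796, 4), (0x214396a7, 4), (0x205396a8, 4), (0x10548796, 4)],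
    [(0x21328597a0, 5), (0x546198a3, 4), (0x708496a2, 4), (0x51647098, 4), (0x708496a2, 4), (0x32648591, 4), (0x416570a3, 4), (0x51647098, 4), (0x416570a3, 4), (0x518694a2, 4), (0x51647098, 4), (0x32648591, 4)]⟩

def c_3661 : frmChk tA tB F_3661 = true := by decide +kernel

def r_3661_0 : chkL rootF engF2 tA tB sA_360 sB_360 4 F_3661 [(511, 0, 0)]
    0x1839310b855 = true := by
  decide +kernel

theorem f_3661 (h : TabsF) : FrameF repsF 360 F_3661.f :=
  frame_of rfl c_3661 (runs_of engOK r_3661_0) (by decide +kernel) h.1 h.2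

def F_3662 : FrX :=
  ⟨0x2002000900044004000e02041000141000800040800400484001204000880041000802204102c01020020008401020008000a20040400200301220080080,
    0xa3, 1, 0x30405462728594a0, 8,
    [(0xa3, 1), (0x208693a5, 4), (0x10548793, 4), (0x217693a4, 4), (0x208693a5, 4), (0x10548793, 4)],
    [(0x30405462728594a0, 8), (0x325480a7, 4), (0x546398a1, 4), (0x54627190, 4), (0x325480a7, 4), (0x546398a1, 4)]⟩

def c_3662 : frmChk tA tA F_3662 = true := by decide +kernel

def r_3662_0 : chkL rootF engF2 tA tA sA_360 sA_360 4 F_3662 [(511, 0, 0)]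
    0x106c3507a34 = true := by
  decide +kernel

theorem f_3662 (h : TabsF) : FrameF repsF 360 F_3662.f :=
  frame_of rfl c_3662 (runs_of engOK r_3662_0) (by decide +kernel) h.1 h.1

def F_3663 : FrX :=
  ⟨0x2002000900044004000e020410001410008000408008020800a00041000801810408080101a0000800880a01010000040300001011048000404040409004,
    0xa3, 1, 0x21314053718693a0, 8,
    [(0xa3, 1), (0x208693a5, 4), (0x10548793, 4), (0x217693a4, 4), (0x208693a5, 4), (0x10548793, 4)],
    [(0x21314053718693a0, 8), (0x548692a1, 4), (0x205463a7, 4), (0x54718390, 4), (0x548692a1, 4), (0x205463a7, 4)]⟩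

def c_3663 : frmChk tA tA F_3663 = true := by decide +kernel

def r_3663_0 : chkL rootF engF2 tA tA sA_360 sA_360 4 F_3663 [(511, 0, 0)]
    0x41e0781b4392c = true := by
  decide +kernel

theorem f_3663 (h : TabsF) : FrameF repsF 360 F_3663.f :=
  frame_of rfl c_3663 (runs_of engOK r_3663_0) (by decide +kernel) h.1 h.1

def F_3664 : FrX :=
  ⟨0x482000044040440000c2040020009000182040001081020001200088020101012000410020040100083400a02008008040020110200182100010800401,
    0xa0, 1, 0x10324064758090a3, 8,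
    [(0xa0, 1), (0x538690a2, 4), (0x548790a1, 4), (0x21437690, 4), (0x538690a2, 4), (0x548790a1, 4)],
    [(0x10324064758090a3, 8), (0x418293a7, 4), (0x54768290, 4), (0x305182a6, 4), (0x418293a7, 4), (0x54768290, 4)]⟩

def c_3664 : frmChk tA tA F_3664 = true := by decide +kernel

def r_3664_0 : chkL rootF engF2 tA tA sA_360 sA_360 4 F_3664 [(511, 0, 0)]
    0x1078e2 = true := by
  decide +kernel

theorem f_3664 (h : TabsF) : FrameF repsF 360 F_3664.f :=
  frame_of rfl c_3664 (runs_of engOK r_3664_0) (by decide +kernel) h.1 h.1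

def F_3665 : FrX :=
  ⟨0x80080a000804040e00002101002001000002040882200001108400008020200032011020004004812110000084103400004008022011008000824084000,
    0xa6, 1, 0x314051617592a3, 7,
    [(0xa6, 1), (0x205396a8, 4), (0x10548796, 4), (0x214396a7, 4), (0x205396a8, 4), (0x10548796, 4)],
    [(0x314051617592a3, 7), (0x218594a7, 4), (0x21647083, 4), (0x215396a0, 4), (0x218594a7, 4), (0x21647083, 4)]⟩

def c_3665 : frmChk tA tA F_3665 = true := by decide +kernel

def r_3665_0 : chkL rootF engF2 tA tA sA_360 sA_360 4 F_3665 [(511, 0, 0)]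
    0x103c39 = true := by
  decide +kernel

theorem f_3665 (h : TabsF) : FrameF repsF 360 F_3665.f :=
  frame_of rfl c_3665 (runs_of engOK r_3665_0) (by decide +kernel) h.1 h.1

def F_3666 : FrX :=
  ⟨0x80080a000804040e000021010020010000020408900800004900a080080008200108042020242002002800040900000a1020020004080c0202004442000,
    0xa6, 1, 0x213254748292a6, 7,
    [(0xa6, 1), (0x205396a8, 4), (0x10548796, 4), (0x214396a7, 4), (0x205396a8, 4), (0x10548796, 4)],
    [(0x213254748292a6, 7), (0x547390a1, 4), (0x207486a5, 4), (0x315486a7, 4), (0x207486a5, 4), (0x435192a7, 4), (0x718690a3, 4), (0x315486a7, 4), (0x718690a3, 4), (0x203175a4, 4), (0x315486a7, 4), (0x435192a7, 4)]⟩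

def c_3666 : frmChk tA tB F_3666 = true := by decide +kernel

def r_3666_0 : chkL rootF engF2 tA tB sA_360 sB_360 4 F_3666 [(511, 0, 0)]
    0x1 = true := by
  decide +kernel

theorem f_3666 (h : TabsF) : FrameF repsF 360 F_3666.f :=
  frame_of rfl c_3666 (runs_of engOK r_3666_0) (by decide +kernel) h.1 h.2

def F_3667 : FrX :=
  ⟨0x1c210200000404400000204100010100008204088820000800808000400024202060100102c000040c00440880060001180001031010220200004080010,
    0x0, 0, 0x107583, 3,
    [(0x0, 0), (0x205386a9, 4), (0x105487a9, 4), (0x214376a9, 4), (0x205386a9, 4), (0x105487a9, 4)],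
    [(0x107583, 3), (0x216387a9, 4), (0x105374a9, 4), (0x206584a9, 4), (0x216387a9, 4), (0x105374a9, 4)]⟩

def c_3667 : frmChk tA tA F_3667 = true := by decide +kernel

def r_3667_0 : chkL rootF engF2 tA tA sA_360 sA_360 4 F_3667 [(511, 0, 0)]
    0x103e13 = true := by
  decide +kernel

theorem f_3667 (h : TabsF) : FrameF repsF 360 F_3667.f :=
  frame_of rfl c_3667 (runs_of engOK r_3667_0) (by decide +kernel) h.1 h.1

def F_3668 : FrX :=
  ⟨0x482000044040440000c204002000900018204000208400010088020001040080460010102400048081004088801084008000010a040422000804200004,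
    0xa0, 1, 0x21315263718397a6, 8,
    [(0xa0, 1), (0x538690a2, 4), (0x548790a1, 4), (0x21437690, 4), (0x538690a2, 4), (0x548790a1, 4)],
    [(0x21315263718397a6, 8), (0x325081a6, 4), (0x32417096, 4), (0x327584a9, 4), (0x325081a6, 4), (0x32417096, 4)]⟩

def c_3668 : frmChk tA tA F_3668 = true := by decide +kernel

def r_3668_0 : chkL rootF engF2 tA tA sA_360 sA_360 4 F_3668 [(511, 0, 0)]
    0x10b80f = true := by
  decide +kernel

theorem f_3668 (h : TabsF) : FrameF repsF 360 F_3668.f :=
  frame_of rfl c_3668 (runs_of engOK r_3668_0) (by decide +kernel) h.1 h.1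

def F_3669 : FrX :=
  ⟨0x482000044040440000c2040020009000182040002012040000880200024002020600050020010400800040888010002080010121210082054004200004,
    0xa0, 1, 0x314350708592a7, 7,
    [(0xa0, 1), (0x538690a2, 4), (0x548790a1, 4), (0x21437690, 4), (0x538690a2, 4), (0x548790a1, 4)],
    [(0x314350708592a7, 7), (0x52608497, 4), (0x527381a0, 4), (0x415293a6, 4), (0x52608497, 4), (0x527381a0, 4)]⟩

def c_3669 : frmChk tA tA F_3669 = true := by decide +kernel

def r_3669_0 : chkL rootF engF2 tA tA sA_360 sA_360 4 F_3669 [(511, 0, 0)]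
    0x1 = true := by
  decide +kernel

theorem f_3669 (h : TabsF) : FrameF repsF 360 F_3669.f :=
  frame_of rfl c_3669 (runs_of engOK r_3669_0) (by decide +kernel) h.1 h.1

def F_3670 : FrX :=
  ⟨0x80080a000804040e0000210100200100000204088060000441009800000408202002040140c000040c008008800500010000410310009202000c0200010,
    0xa6, 1, 0x103240617195a8, 7,
    [(0xa6, 1), (0x205396a8, 4), (0x10548796, 4), (0x214396a7, 4), (0x205396a8, 4), (0x10548796, 4)],
    [(0x103240617195a8, 7), (0x204396a1, 4), (0x60748591, 4), (0x108596a2, 4), (0x60748591, 4), (0x106273a9, 4), (0x214385a0, 4), (0x108596a2, 4), (0x214385a0, 4), (0x617490a2, 4), (0x108596a2, 4), (0x106273a9, 4)]⟩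

def c_3670 : frmChk tA tB F_3670 = true := by decide +kernel

def r_3670_0 : chkL rootF engF2 tA tB sA_360 sB_360 4 F_3670 [(511, 0, 0)]
    0x1 = true := by
  decide +kernel

theorem f_3670 (h : TabsF) : FrameF repsF 360 F_3670.f :=
  frame_of rfl c_3670 (runs_of engOK r_3670_0) (by decide +kernel) h.1 h.2

def F_3671 : FrX :=
  ⟨0x482000044040440000c204002000900018204001002008200100018000c002421000040804041010000030408020c000080801100a0480014120000084,
    0xa0, 1, 0x31405061758497a2, 8,
    [(0xa0, 1), (0x538690a2, 4), (0x548790a1, 4), (0x21437690, 4), (0x538690a2, 4), (0x548790a1, 4)],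
    [(0x31405061758497a2, 8), (0x304271a5, 4), (0x42658790, 4), (0x428193a6, 4), (0x304271a5, 4), (0x42658790, 4)]⟩

def c_3671 : frmChk tA tA F_3671 = true := by decide +kernel

def r_3671_0 : chkL rootF engF2 tA tA sA_360 sA_360 4 F_3671 [(511, 0, 0)]
    0x109c9a = true := by
  decide +kernel

theorem f_3671 (h : TabsF) : FrameF repsF 360 F_3671.f :=
  frame_of rfl c_3671 (runs_of engOK r_3671_0) (by decide +kernel) h.1 h.1

def F_3672 : FrX :=
  ⟨0x482000044040440000c2040020009000182040010080080104000404010044220408015005000100400440802008008100081042110220001002000082,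
    0xa0, 1, 0x213042738198a2, 7,
    [(0xa0, 1), (0x538690a2, 4), (0x548790a1, 4), (0x21437690, 4), (0x538690a2, 4), (0x548790a1, 4)],
    [(0x213042738198a2, 7), (0x427596a3, 4), (0x42518390, 4), (0x426071a8, 4), (0x427596a3, 4), (0x42518390, 4)]⟩

def c_3672 : frmChk tA tA F_3672 = true := by decide +kernel

def r_3672_0 : chkL rootF engF2 tA tA sA_360 sA_360 4 F_3672 [(511, 0, 0)]
    0x1 = true := by
  decide +kernel

theorem f_3672 (h : TabsF) : FrameF repsF 360 F_3672.f :=
  frame_of rfl c_3672 (runs_of engOK r_3672_0) (by decide +kernel) h.1 h.1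

def F_3673 : FrX :=
  ⟨0x80080a000804040e00002101002001000002040890020001404008808280004020011010000031000028000828019002020810004008001842080808100,
    0xa6, 1, 0x324150657298a7, 7,
    [(0xa6, 1), (0x205396a8, 4), (0x10548796, 4), (0x214396a7, 4), (0x205396a8, 4), (0x10548796, 4)],
    [(0x324150657298a7, 7), (0x207591a6, 4), (0x546183a0, 4), (0x108392a6, 4), (0x546183a0, 4), (0x107496a2, 4), (0x21758390, 4), (0x108392a6, 4), (0x21758390, 4), (0x546092a1, 4), (0x108392a6, 4), (0x107496a2, 4)]⟩

def c_3673 : frmChk tA tB F_3673 = true := by decide +kernel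

def r_3673_0 : chkL rootF engF2 tA tB sA_360 sB_360 4 F_3673 [(511, 0, 0)]
    0x453 = true := by
  decide +kernel

theorem f_3673 (h : TabsF) : FrameF repsF 360 F_3673.f :=
  frame_of rfl c_3673 (runs_of engOK r_3673_0) (by decide +kernel) h.1 h.2

def F_3674 : FrX :=
  ⟨0x1c21020000040440000020410001010000820408a0001100000044100404021000101100082021008080004204801802082000080440404010200460280,
    0x0, 0, 0x21546474, 4,
    [(0x0, 0), (0x205386a9, 4), (0x105487a9, 4), (0x214376a9, 4), (0x205386a9, 4), (0x105487a9, 4)],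
    [(0x21546474, 4), (0x104385a9, 4), (0x207486a9, 4), (0x216573a9, 4), (0x104385a9, 4), (0x207486a9, 4)]⟩

def c_3674 : frmChk tA tA F_3674 = true := by decide +kernel

def r_3674_0 : chkL rootF engF2 tA tA sA_360 sA_360 4 F_3674 [(255, 0, 0), (256, 0, 3)]
    0x1 = true := by
  decide +kernel

def r_3674_1 : chkL rootF engF2 tA tA sA_360 sA_360 4 F_3674 [(256, 3, 13)]
    0x114c6c1345318c53 = true := by
  decide +kernel

def r_3674_2 : chkL rootF engF2 tA tA sA_360 sA_360 4 F_3674 [(256, 16, 0)]
    0x4170785a = true := by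
  decide +kernel

theorem f_3674 (h : TabsF) : FrameF repsF 360 F_3674.f :=
  frame_of rfl c_3674 ((runs_of engOK r_3674_0).append ((runs_of engOK r_3674_1).append (runs_of engOK r_3674_2))) (by decide +kernel) h.1 h.1

def F_3675 : FrX :=
  ⟨0x2002000900044004000e02041000141000800040801000282000c00201010400040023010100004204040400440004022001020401020420028140008050,
    0xa3, 1, 0x435460748091a3, 7,
    [(0xa3, 1), (0x208693a5, 4), (0x10548793, 4), (0x217693a4, 4), (0x208693a5, 4), (0x10548793, 4)],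
    [(0x435460748091a3, 7), (0x537682a0, 4), (0x41507398, 4), (0x415370a6, 4), (0x41507398, 4), (0x637092a5, 4), (0x416082a7, 4), (0x415370a6, 4), (0x416082a7, 4), (0x307598a6, 4), (0x415370a6, 4), (0x637092a5, 4)]⟩

def c_3675 : frmChk tA tB F_3675 = true := by decide +kernel

def r_3675_0 : chkL rootF engF2 tA tB sA_360 sB_360 4 F_3675 [(511, 0, 0)]
    0x495 = true := by
  decide +kernel

theorem f_3675 (h : TabsF) : FrameF repsF 360 F_3675.f :=
  frame_of rfl c_3675 (runs_of engOK r_3675_0) (by decide +kernel) h.1 h.2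

def F_3676 : FrX :=
  ⟨0x80080a000804040e00002101002001000002040881200001404030000012008010024081400020080040800211004208002001080402801045202020200,
    0xa6, 1, 0x3242748491a7, 6,
    [(0xa6, 1), (0x205396a8, 4), (0x10548796, 4), (0x214396a7, 4), (0x205396a8, 4), (0x10548796, 4)],
    [(0x3242748491a7, 6), (0x406287a5, 4), (0x318590a6, 4), (0x317286a5, 4), (0x318590a6, 4), (0x758694a2, 4), (0x31407682, 4), (0x317286a5, 4), (0x31407682, 4), (0x657290a8, 4), (0x317286a5, 4), (0x758694a2, 4)]⟩

def c_3676 : frmChk tA tB F_3676 = true := by decide +kernel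

def r_3676_0 : chkL rootF engF2 tA tB sA_360 sB_360 4 F_3676 [(511, 0, 0)]
    0x42b = true := by
  decide +kernel

theorem f_3676 (h : TabsF) : FrameF repsF 360 F_3676.f :=
  frame_of rfl c_3676 (runs_of engOK r_3676_0) (by decide +kernel) h.1 h.2

theorem cl_360 (h : TabsF) : ∀ f ∈ fr_360, FrameF repsF 360 f :=
  List.forall_mem_cons.2 ⟨f_3649 h, List.forall_mem_cons.2 ⟨f_3650 h, List.forall_mem_cons.2 ⟨f_3651 h, List.forall_mem_cons.2 ⟨f_3652 h, List.forall_mem_cons.2 ⟨f_3653 h, List.forall_mem_cons.2 ⟨f_3654 h, List.forall_mem_cons.2 ⟨f_3655 h, List.forall_mem_cons.2 ⟨f_3656 h, List.forall_mem_cons.2 ⟨f_3657 h, List.forall_mem_cons.2 ⟨f_3658 h, List.forall_mem_cons.2 ⟨f_3659 h, List.forall_mem_cons.2 ⟨f_3660 h, List.forall_mem_cons.2 ⟨f_3661 h, List.forall_mem_cons.2 ⟨f_3662 h, List.forall_mem_cons.2 ⟨f_3663 h, List.forall_mem_cons.2 ⟨f_3664 h, List.forall_mem_cons.2 ⟨f_3665 h, List.forall_mem_cons.2 ⟨f_3666 h, List.forall_mem_cons.2 ⟨f_3667 h, List.forall_mem_cons.2 ⟨f_3668 h, List.forall_mem_cons.2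 ⟨f_3669 h, List.forall_mem_cons.2 ⟨f_3670 h, List.forall_mem_cons.2 ⟨f_3671 h, List.forall_mem_cons.2 ⟨f_3672 h, List.forall_mem_cons.2 ⟨f_3673 h, List.forall_mem_cons.2 ⟨f_3674 h, List.forall_mem_cons.2 ⟨f_3675 h, List.forall_mem_cons.2 ⟨f_3676 h,
    fun _ h0 => absurd h0 List.not_mem_nil⟩⟩⟩⟩⟩⟩⟩⟩⟩⟩⟩⟩⟩⟩⟩⟩⟩⟩⟩⟩⟩⟩⟩⟩⟩⟩⟩⟩

def F_3677 : FrX :=
  ⟨0x1001040012008080000e008408004100081010000404200280011100001800100102008842c0000840024008401020020000600c05004000444003002000,
    0xa3, 1, 0x415061728098a6, 7,
    [(0xa3, 1), (0x207584a6, 4), (0x10547693, 4), (0x647593a8, 4), (0x10547693, 4), (0x216485a7, 4), (0x208693a4, 4), (0x647593a8, 4), (0x208693a4, 4), (0x106574a8, 4), (0x647593a8, 4), (0x216485a7, 4)],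
    [(0x415061728098a6, 7), (0x305487a9, 4), (0x10548692, 4), (0x315476a2, 4), (0x305487a9, 4), (0x10548692, 4)]⟩

def c_3677 : frmChk tB tA F_3677 = true := by decide +kernel

def r_3677_0 : chkL rootF engF2 tB tA sB_361 sA_361 4 F_3677 [(511, 0, 0)]
    0x1 = true := by
  decide +kernel

theorem f_3677 (h : TabsF) : FrameF repsF 361 F_3677.f :=
  frame_of rfl c_3677 (runs_of engOK r_3677_0) (by decide +kernel) h.2 h.1

def F_3678 : FrX :=
  ⟨0x1001040012008080000e00840800410008101000042008024020010004080090048202004100112500020202020000210014001001011801010008010210,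
    0xa3, 1, 0x1062718095a4, 6,
    [(0xa3, 1), (0x207584a6, 4), (0x10547693, 4), (0x647593a8, 4), (0x10547693, 4), (0x216485a7, 4), (0x208693a4, 4), (0x647593a8, 4), (0x208693a4, 4), (0x106574a8, 4), (0x647593a8, 4), (0x216485a7, 4)],
    [(0x1062718095a4, 6), (0x328690a1, 4), (0x205487a9, 4), (0x315490a2, 4), (0x205487a9, 4), (0x307691a2, 4), (0x215486a3, 4), (0x315490a2, 4), (0x215486a3, 4), (0x318792a0, 4), (0x315490a2, 4), (0x307691a2, 4)]⟩

def c_3678 : frmChk tB tB F_3678 = true := by decide +kernel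

def r_3678_0 : chkL rootF engF2 tB tB sB_361 sB_361 4 F_3678 [(511, 0, 0)]
    0x1 = true := by
  decide +kernel

theorem f_3678 (h : TabsF) : FrameF repsF 361 F_3678.f :=
  frame_of rfl c_3678 (runs_of engOK r_3678_0) (by decide +kernel) h.2 h.2

def F_3679 : FrX :=
  ⟨0x1001040012008080000e008408004100081010000420100880a0010004020802420000202020200808010011800430002000800c080000c0022004805040,
    0xa3, 1, 0x415082a3, 4,
    [(0xa3, 1), (0x207584a6, 4), (0x10547693, 4), (0x647593a8, 4), (0x10547693, 4), (0x216485a7, 4), (0x208693a4, 4), (0x647593a8, 4), (0x208693a4, 4), (0x106574a8, 4), (0x647593a8, 4), (0x216485a7, 4)],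
    [(0x415082a3, 4), (0x217085a6, 4), (0x10547693, 4), (0x617093a2, 4), (0x10547693, 4), (0x206184a7, 4), (0x628593a1, 4), (0x617093a2, 4), (0x628593a1, 4), (0x546071a2, 4), (0x617093a2, 4), (0x206184a7, 4)]⟩

def c_3679 : frmChk tB tB F_3679 = true := by decide +kernel

def r_3679_0 : chkL rootF engF2 tB tB sB_361 sB_361 4 F_3679 [(511, 0, 0)]
    0x1 = true := by
  decide +kernel

theorem f_3679 (h : TabsF) : FrameF repsF 361 F_3679.f :=
  frame_of rfl c_3679 (runs_of engOK r_3679_0) (by decide +kernel) h.2 h.2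

def F_3680 : FrX :=
  ⟨0x600020801080810000c004018041010100100400425004000040004800a0000848020008200324000002005080082100040201000021c0004408010082,
    0xa0, 1, 0x2032406085a7, 6,
    [(0xa0, 1), (0x637584a2, 4), (0x547690a1, 4), (0x64758390, 4), (0x547690a1, 4), (0x21647385, 4), (0x438690a2, 4), (0x64758390, 4), (0x438690a2, 4), (0x657483a1, 4), (0x64758390, 4), (0x21647385, 4)],
    [(0x2032406085a7, 6), (0x54638097, 4), (0x618297a5, 4), (0x203197a4, 4), (0x54638097, 4), (0x618297a5, 4)]⟩

def c_3680 : frmChk tB tA F_3680 = true := by decide +kernel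

def r_3680_0 : chkL rootF engF2 tB tA sB_361 sA_361 4 F_3680 [(511, 0, 0)]
    0x1 = true := by
  decide +kernel

theorem f_3680 (h : TabsF) : FrameF repsF 361 F_3680.f :=
  frame_of rfl c_3680 (runs_of engOK r_3680_0) (by decide +kernel) h.2 h.1

def F_3681 : FrX :=
  ⟨0x600020801080810000c0040180410101001004020000900400902402001400004022005020210120002100088010080440020000800840010c00220300,
    0xa0, 1, 0x2053718091a0, 6,
    [(0xa0, 1), (0x637584a2, 4), (0x547690a1, 4), (0x64758390, 4), (0x547690a1, 4), (0x21647385, 4), (0x438690a2, 4), (0x64758390, 4), (0x438690a2, 4), (0x657483a1, 4), (0x64758390, 4), (0x21647385, 4)],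
    [(0x2053718091a0, 6), (0x314265a0, 4), (0x436187a9, 4), (0x31526487, 4), (0x436187a9, 4), (0x32516490, 4), (0x546287a0, 4), (0x31526487, 4), (0x546287a0, 4), (0x415263a9, 4), (0x31526487, 4), (0x32516490, 4)]⟩

def c_3681 : frmChk tB tB F_3681 = true := by decide +kernel

def r_3681_0 : chkL rootF engF2 tB tB sB_361 sB_361 4 F_3681 [(511, 0, 0)]
    0x1 = true := by
  decide +kernel

theorem f_3681 (h : TabsF) : FrameF repsF 361 F_3681.f :=
  frame_of rfl c_3681 (runs_of engOK r_3681_0) (by decide +kernel) h.2 h.2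

def F_3682 : FrX :=
  ⟨0x1c21020000040440000020410001010000820408a0001100000082100202101000204040024041010040010088420040380000011000a0c000006600900,
    0x0, 0, 0x21537386, 4,
    [(0x0, 0), (0x205386a9, 4), (0x105487a9, 4), (0x214376a9, 4), (0x205386a9, 4), (0x105487a9, 4)],
    [(0x21537386, 4), (0x10536487, 4), (0x204385a9, 4), (0x537684a9, 4), (0x204385a9, 4), (0x21637584, 4), (0x107486a9, 4), (0x537684a9, 4), (0x107486a9, 4), (0x20547683, 4), (0x537684a9, 4), (0x21637584, 4)]⟩

def c_3682 : frmChk tA tB F_3682 = true := by decide +kernel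

def r_3682_0 : chkL rootF engF2 tA tB sA_361 sB_361 4 F_3682 [(511, 0, 0)]
    0x1 = true := by
  decide +kernel

theorem f_3682 (h : TabsF) : FrameF repsF 361 F_3682.f :=
  frame_of rfl c_3682 (runs_of engOK r_3682_0) (by decide +kernel) h.1 h.2

def F_3683 : FrX :=
  ⟨0x1c2102000004044000002041000101000082040890080080000802400800084004404101004020408000140808060c00008080006008200644110000900,
    0x0, 0, 0x216475, 3,
    [(0x0, 0), (0x205386a9, 4), (0x105487a9, 4), (0x214376a9, 4), (0x205386a9, 4), (0x105487a9, 4)],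
    [(0x216475, 3), (0x107384a9, 4), (0x207685a9, 4), (0x215463a9, 4), (0x107384a9, 4), (0x207685a9, 4)]⟩

def c_3683 : frmChk tA tA F_3683 = true := by decide +kernel

def r_3683_0 : chkL rootF engF2 tA tA sA_361 sA_361 4 F_3683 [(511, 0, 0)]
    0x1 = true := by
  decide +kernel

theorem f_3683 (h : TabsF) : FrameF repsF 361 F_3683.f :=
  frame_of rfl c_3683 (runs_of engOK r_3683_0) (by decide +kernel) h.1 h.1

def F_3684 : FrX :=
  ⟨0x482000044040440000c2040020009000182040002102000100880200034008004400101024000400800040888020c0000800010a008600004904000904,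
    0xa0, 1, 0x435063738690a3, 7,
    [(0xa0, 1), (0x538690a2, 4), (0x548790a1, 4), (0x21437690, 4), (0x538690a2, 4), (0x548790a1, 4)],
    [(0x435063738690a3, 7), (0x436092a8, 4), (0x30758691, 4), (0x607583a4, 4), (0x30758691, 4), (0x214083a6, 4), (0x758492a3, 4), (0x607583a4, 4), (0x758492a3, 4), (0x638091a4, 4), (0x607583a4, 4), (0x214083a6, 4)]⟩

def c_3684 : frmChk tA tB F_3684 = true := by decide +kernel

def r_3684_0 : chkL rootF engF2 tA tB sA_361 sB_361 4 F_3684 [(511, 0, 0)]
    0x1 = true := by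
  decide +kernel

theorem f_3684 (h : TabsF) : FrameF repsF 361 F_3684.f :=
  frame_of rfl c_3684 (runs_of engOK r_3684_0) (by decide +kernel) h.1 h.2

def F_3685 : FrX :=
  ⟨0x80080a000804040e00002101002001000002040890020001410000808802084004880001004021008008000808041c00024000006000200644080820900,
    0xa6, 1, 0x40537692a6, 5,
    [(0xa6, 1), (0x205396a8, 4), (0x10548796, 4), (0x214396a7, 4), (0x205396a8, 4), (0x10548796, 4)],
    [(0x40537692a6, 5), (0x537294a8, 4), (0x30417286, 4), (0x507291a6, 4), (0x537294a8, 4), (0x30417286, 4)]⟩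

def c_3685 : frmChk tA tA F_3685 = true := by decide +kernel

def r_3685_0 : chkL rootF engF2 tA tA sA_361 sA_361 4 F_3685 [(511, 0, 0)]
    0x44e15a0788e0e = true := by
  decide +kernel

theorem f_3685 (h : TabsF) : FrameF repsF 361 F_3685.f :=
  frame_of rfl c_3685 (runs_of engOK r_3685_0) (by decide +kernel) h.1 h.1

def F_3686 : FrX :=
  ⟨0x2002000900044004000e02041000141000800040800801014008400008220100100244004024001010040012000420000300801030000a08100016200801,
    0xa3, 1, 0x213065718798a6, 7,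
    [(0xa3, 1), (0x208693a5, 4), (0x10548793, 4), (0x217693a4, 4), (0x208693a5, 4), (0x10548793, 4)],
    [(0x213065718798a6, 7), (0x315260a9, 4), (0x52647398, 4), (0x405271a8, 4), (0x315260a9, 4), (0x52647398, 4)]⟩

def c_3686 : frmChk tA tA F_3686 = true := by decide +kernel

def r_3686_0 : chkL rootF engF2 tA tA sA_361 sA_361 4 F_3686 [(511, 0, 0)]
    0x107907 = true := by
  decide +kernel

theorem f_3686 (h : TabsF) : FrameF repsF 361 F_3686.f :=
  frame_of rfl c_3686 (runs_of engOK r_3686_0) (by decide +kernel) h.1 h.1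

def F_3687 : FrX :=
  ⟨0x2002000900044004000e0204100014100080004080040048401020001080088100004410110400040c000100800060801000081084008200604140011800,
    0xa3, 1, 0x315063728197a6, 7,
    [(0xa3, 1), (0x208693a5, 4), (0x10548793, 4), (0x217693a4, 4), (0x208693a5, 4), (0x10548793, 4)],
    [(0x315063728197a6, 7), (0x437590a6, 4), (0x214085a9, 4), (0x216390a4, 4), (0x214085a9, 4), (0x308796a4, 4), (0x216475a3, 4), (0x216390a4, 4), (0x216475a3, 4), (0x638594a0, 4), (0x216390a4, 4), (0x308796a4, 4)]⟩

def c_3687 : frmChk tA tB F_3687 = true := by decide +kernel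

def r_3687_0 : chkL rootF engF2 tA tB sA_361 sB_361 4 F_3687 [(511, 0, 0)]
    0x184c3545934234aa = true := by
  decide +kernel

theorem f_3687 (h : TabsF) : FrameF repsF 361 F_3687.f :=
  frame_of rfl c_3687 (runs_of engOK r_3687_0) (by decide +kernel) h.1 h.2

def F_3688 : FrX :=
  ⟨0x600020801080810000c00401804101010010040020205000004004048090000083020008802020002001000c80101040002202020000c0810408240201,
    0xa0, 1, 0x3050738598a0, 6,
    [(0xa0, 1), (0x637584a2, 4), (0x547690a1, 4), (0x64758390, 4), (0x547690a1, 4), (0x21647385, 4), (0x438690a2, 4), (0x64758390, 4), (0x438690a2, 4), (0x657483a1, 4), (0x64758390, 4), (0x21647385, 4)],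
    [(0x3050738598a0, 6), (0x768094a2, 4), (0x536084a1, 4), (0x53648097, 4), (0x536084a1, 4), (0x21647098, 4), (0x537496a2, 4), (0x53648097, 4), (0x537496a2, 4), (0x408697a1, 4), (0x53648097, 4), (0x21647098, 4)]⟩

def c_3688 : frmChk tB tB F_3688 = true := by decide +kernel

def r_3688_0 : chkL rootF engF2 tB tB sB_361 sB_361 4 F_3688 [(511, 0, 0)]
    0x11a86a1a81705c171a86a1a86a1a86a05c1705c1705c17 = true := by
  decide +kernel

theorem f_3688 (h : TabsF) : FrameF repsF 361 F_3688.f :=
  frame_of rfl c_3688 (runs_of engOK r_3688_0) (by decide +kernel) h.2 h.2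

def F_3689 : FrX :=
  ⟨0x1001040012008080000e00840800410008101000044020080060004030010810048008004020010208004800800830000600805010000440824002200084,
    0xa3, 1, 0x1051637398a2, 6,
    [(0xa3, 1), (0x207584a6, 4), (0x10547693, 4), (0x647593a8, 4), (0x10547693, 4), (0x216485a7, 4), (0x208693a4, 4), (0x647593a8, 4), (0x208693a4, 4), (0x106574a8, 4), (0x647593a8, 4), (0x216485a7, 4)],
    [(0x1051637398a2, 6), (0x708293a1, 4), (0x40518296, 4), (0x637482a5, 4), (0x708293a1, 4), (0x40518296, 4)]⟩

def c_3689 : frmChk tB tA F_3689 = true := by decide +kernel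

def r_3689_0 : chkL rootF engF2 tB tA sB_361 sA_361 4 F_3689 [(511, 0, 0)]
    0x1 = true := by
  decide +kernel

theorem f_3689 (h : TabsF) : FrameF repsF 361 F_3689.f :=
  frame_of rfl c_3689 (runs_of engOK r_3689_0) (by decide +kernel) h.2 h.1

def F_3690 : FrX :=
  ⟨0x1001040012008080000e00840800410008101000042100001120010004002024804100102020200800022402020030002000800c08000314240080090010,
    0xa3, 1, 0x31405161708294a3, 8,
    [(0xa3, 1), (0x207584a6, 4), (0x10547693, 4), (0x647593a8, 4), (0x10547693, 4), (0x216485a7, 4), (0x208693a4, 4), (0x647593a8, 4), (0x208693a4, 4), (0x106574a8, 4), (0x647593a8, 4), (0x216485a7, 4)],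
    [(0x31405161708294a3, 8), (0x438792a5, 4), (0x10547693, 4), (0x104395a2, 4), (0x10547693, 4), (0x328695a4, 4), (0x105287a9, 4), (0x104395a2, 4), (0x105287a9, 4), (0x537694a2, 4), (0x104395a2, 4), (0x328695a4, 4)]⟩

def c_3690 : frmChk tB tB F_3690 = true := by decide +kernel

def r_3690_0 : chkL rootF engF2 tB tB sB_361 sB_361 4 F_3690 [(511, 0, 0)]
    0x10b41b = true := by
  decide +kernel

theorem f_3690 (h : TabsF) : FrameF repsF 361 F_3690.f :=
  frame_of rfl c_3690 (runs_of engOK r_3690_0) (by decide +kernel) h.2 h.2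

def F_3691 : FrX :=
  ⟨0x1001040012008080000e0084080041000810100004080804801010010020201000810028402040200008081206041000064000880200040c080002240008,
    0xa3, 1, 0x5164768695a3, 6,
    [(0xa3, 1), (0x207584a6, 4), (0x10547693, 4), (0x647593a8, 4), (0x10547693, 4), (0x216485a7, 4), (0x208693a4, 4), (0x647593a8, 4), (0x208693a4, 4), (0x106574a8, 4), (0x647593a8, 4), (0x216485a7, 4)],
    [(0x5164768695a3, 6), (0x203187a9, 4), (0x31507496, 4), (0x315284a6, 4), (0x203187a9, 4), (0x31507496, 4)]⟩

def c_3691 : frmChk tB tA F_3691 = true := by decide +kernel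

def r_3691_0 : chkL rootF engF2 tB tA sB_361 sA_361 4 F_3691 [(511, 0, 0)]
    0x107a1a8d21606c1b = true := by
  decide +kernel

theorem f_3691 (h : TabsF) : FrameF repsF 361 F_3691.f :=
  frame_of rfl c_3691 (runs_of engOK r_3691_0) (by decide +kernel) h.2 h.1

def F_3692 : FrX :=
  ⟨0x1001040012008080000e00840800410008101000042100004060010004000882808200084100110100064202010000210014001001200801100000050c04,
    0xa3, 1, 0x3064758291a3, 6,
    [(0xa3, 1), (0x207584a6, 4), (0x10547693, 4), (0x647593a8, 4), (0x10547693, 4), (0x216485a7, 4), (0x208693a4, 4), (0x647593a8, 4), (0x208693a4, 4), (0x106574a8, 4), (0x647593a8, 4), (0x216485a7, 4)],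
    [(0x3064758291a3, 6), (0x627583a4, 4), (0x10547693, 4), (0x106475a2, 4), (0x10547693, 4), (0x647298a5, 4), (0x104283a6, 4), (0x106475a2, 4), (0x104283a6, 4), (0x657493a2, 4), (0x106475a2, 4), (0x647298a5, 4)]⟩

def c_3692 : frmChk tB tB F_3692 = true := by decide +kernel

def r_3692_0 : chkL rootF engF2 tB tB sB_361 sB_361 4 F_3692 [(511, 0, 0)]
    0x1 = true := by
  decide +kernel

theorem f_3692 (h : TabsF) : FrameF repsF 361 F_3692.f :=
  frame_of rfl c_3692 (runs_of engOK r_3692_0) (by decide +kernel) h.2 h.2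

def F_3693 : FrX :=
  ⟨0x482000044040440000c204002000900018204000402048000102008008010480001180091001101000000802e020040004001204000a84010110000401,
    0xa0, 1, 0x207694a0, 4,
    [(0xa0, 1), (0x538690a2, 4), (0x548790a1, 4), (0x21437690, 4), (0x538690a2, 4), (0x548790a1, 4)],
    [(0x207694a0, 4), (0x425387a0, 4), (0x428695a1, 4), (0x10427693, 4), (0x425387a0, 4), (0x428695a1, 4)]⟩

def c_3693 : frmChk tA tA F_3693 = true := by decide +kernel

def r_3693_0 : chkL rootF engF2 tA tA sA_361 sA_361 4 F_3693 [(511, 0, 0)]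
    0x10b42d05c1e09c170d82b0ac2781e2305c2e = true := by
  decide +kernel

theorem f_3693 (h : TabsF) : FrameF repsF 361 F_3693.f :=
  frame_of rfl c_3693 (runs_of engOK r_3693_0) (by decide +kernel) h.1 h.1

def F_3694 : FrX :=
  ⟨0x2002000900044004000e0204100014100080004080040400442000420000c080140100110100011000244006c00000009300081080041020000010200124,
    0xa3, 1, 0x2151608792a3, 6,
    [(0xa3, 1), (0x208693a5, 4), (0x10548793, 4), (0x217693a4, 4), (0x208693a5, 4), (0x10548793, 4)],
    [(0x2151608792a3, 6), (0x748296a0, 4), (0x31426580, 4), (0x314082a7, 4), (0x31426580, 4), (0x407295a8, 4), (0x317096a4, 4), (0x314082a7, 4), (0x317096a4, 4), (0x206584a7, 4), (0x314082a7, 4), (0x407295a8, 4)]⟩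

def c_3694 : frmChk tA tB F_3694 = true := by decide +kernel

def r_3694_0 : chkL rootF engF2 tA tB sA_361 sB_361 4 F_3694 [(511, 0, 0)]
    0x103c3505c3605c39 = true := by
  decide +kernel

theorem f_3694 (h : TabsF) : FrameF repsF 361 F_3694.f :=
  frame_of rfl c_3694 (runs_of engOK r_3694_0) (by decide +kernel) h.1 h.2

theorem cl_361 (h : TabsF) : ∀ f ∈ fr_361, FrameF repsF 361 f :=
  List.forall_mem_cons.2 ⟨f_3677 h, List.forall_mem_cons.2 ⟨f_3678 h, List.forall_mem_cons.2 ⟨f_3679 h, List.forall_mem_cons.2 ⟨f_3680 h, List.forall_mem_cons.2 ⟨f_3681 h, List.forall_mem_cons.2 ⟨f_3682 h, List.forall_mem_cons.2 ⟨f_3683 h, List.forall_mem_cons.2 ⟨f_3684 h, List.forall_mem_cons.2 ⟨f_3685 h, List.forall_mem_cons.2 ⟨f_3686 h, List.forall_mem_cons.2 ⟨f_3687 h, List.forall_mem_cons.2 ⟨f_3688 h, List.forall_mem_cons.2 ⟨f_3689 h, List.forall_mem_cons.2 ⟨f_3690 h, List.forall_mem_cons.2 ⟨f_3691 h, List.forall_mem_cons.2 ⟨f_3692 h, List.forall_mem_cons.2 ⟨f_3693 h, List.forall_mem_cons.2 ⟨f_3694 h,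
    fun _ h0 => absurd h0 List.not_mem_nil⟩⟩⟩⟩⟩⟩⟩⟩⟩⟩⟩⟩⟩⟩⟩⟩⟩⟩

def F_3695 : FrX :=
  ⟨0x80080a000804040e00002101002001000002040881081600004400100410000001084050040020100090000128410660200088002000808002042600000,
    0xa6, 1, 0x325496a6, 4,
    [(0xa6, 1), (0x205396a8, 4), (0x10548796, 4), (0x214396a7, 4), (0x205396a8, 4), (0x10548796, 4)],
    [(0x325496a6, 4), (0x304296a8, 4), (0x10548796, 4), (0x315296a7, 4), (0x304296a8, 4), (0x10548796, 4)]⟩

def c_3695 : frmChk tA tA F_3695 = true := by decide +kernel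

def r_3695_0 : chkL rootF engF2 tA tA sA_362 sA_362 4 F_3695 [(511, 0, 0)]
    0x1 = true := by
  decide +kernel

theorem f_3695 (h : TabsF) : FrameF repsF 362 F_3695.f :=
  frame_of rfl c_3695 (runs_of engOK r_3695_0) (by decide +kernel) h.1 h.1

def F_3696 : FrX :=
  ⟨0x2002000900044004000e02041000141000800040810000081100a440008120010000041100000842045004208200100021a00800300800080008000c4040,
    0xa3, 1, 0x213041508090a6, 7,
    [(0xa3, 1), (0x208693a5, 4), (0x10548793, 4), (0x217693a4, 4), (0x208693a5, 4), (0x10548793, 4)],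
    [(0x213041508090a6, 7), (0x308691a5, 4), (0x32758694, 4), (0x204186a7, 4), (0x308691a5, 4), (0x32758694, 4)]⟩

def c_3696 : frmChk tA tA F_3696 = true := by decide +kernel

def r_3696_0 : chkL rootF engF2 tA tA sA_362 sA_362 4 F_3696 [(511, 0, 0)]
    0x142d0741d0b09c390ccc3 = true := by
  decide +kernel

theorem f_3696 (h : TabsF) : FrameF repsF 362 F_3696.f :=
  frame_of rfl c_3696 (runs_of engOK r_3696_0) (by decide +kernel) h.1 h.1

def F_3697 : FrX :=
  ⟨0x482000044040440000c2040020009000182040002008242001200008080408010012010080005000080024508008668010008002040100001200800082,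
    0xa0, 1, 0x53627185a0, 5,
    [(0xa0, 1), (0x538690a2, 4), (0x548790a1, 4), (0x21437690, 4), (0x538690a2, 4), (0x548790a1, 4)],
    [(0x53627185a0, 5), (0x435281a6, 4), (0x218490a7, 4), (0x42538190, 4), (0x218490a7, 4), (0x42517683, 4), (0x325490a6, 4), (0x42538190, 4), (0x325490a6, 4), (0x415382a7, 4), (0x42538190, 4), (0x42517683, 4)]⟩

def c_3697 : frmChk tA tB F_3697 = true := by decide +kernel

def r_3697_0 : chkL rootF engF2 tA tB sA_362 sB_362 4 F_3697 [(511, 0, 0)]
    0x142c0f03c1b = true := by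
  decide +kernel

theorem f_3697 (h : TabsF) : FrameF repsF 362 F_3697.f :=
  frame_of rfl c_3697 (runs_of engOK r_3697_0) (by decide +kernel) h.1 h.2

def F_3698 : FrX :=
  ⟨0x482000044040440000c204002000900018204002000088200002081182002200040010010100d01004000500222000a00400a000300600100004800042,
    0xa0, 1, 0x314260768596a0, 7,
    [(0xa0, 1), (0x538690a2, 4), (0x548790a1, 4), (0x21437690, 4), (0x538690a2, 4), (0x548790a1, 4)],
    [(0x314260768596a0, 7), (0x768195a4, 4), (0x507682a3, 4), (0x21437690, 4), (0x768195a4, 4), (0x507682a3, 4)]⟩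

def c_3698 : frmChk tA tA F_3698 = true := by decide +kernel

def r_3698_0 : chkL rootF engF2 tA tA sA_362 sA_362 4 F_3698 [(511, 0, 0)]
    0x1 = true := by
  decide +kernel

theorem f_3698 (h : TabsF) : FrameF repsF 362 F_3698.f :=
  frame_of rfl c_3698 (runs_of engOK r_3698_0) (by decide +kernel) h.1 h.1

def F_3699 : FrX :=
  ⟨0x2002000900044004000e02041000141000800040800401024038000010000241200202010080041000180062020400260281008001041008000200008050,
    0xa3, 1, 0x104150627398a3, 7,
    [(0xa3, 1), (0x208693a5, 4), (0x10548793, 4), (0x217693a4, 4), (0x208693a5, 4), (0x10548793, 4)],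
    [(0x104150627398a3, 7), (0x658792a1, 4), (0x10548793, 4), (0x326487a0, 4), (0x658792a1, 4), (0x10548793, 4)]⟩

def c_3699 : frmChk tA tA F_3699 = true := by decide +kernel

def r_3699_0 : chkL rootF engF2 tA tA sA_362 sA_362 4 F_3699 [(511, 0, 0)]
    0x1 = true := by
  decide +kernel

theorem f_3699 (h : TabsF) : FrameF repsF 362 F_3699.f :=
  frame_of rfl c_3699 (runs_of engOK r_3699_0) (by decide +kernel) h.1 h.1

def F_3700 : FrX :=
  ⟨0x80080a000804040e0000210100200100000204088108160000440010041000000108405002004020005000021301000020010a08100040c104025080000,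
    0xa6, 1, 0x325496a6, 4,
    [(0xa6, 1), (0x205396a8, 4), (0x10548796, 4), (0x214396a7, 4), (0x205396a8, 4), (0x10548796, 4)],
    [(0x325496a6, 4), (0x304296a8, 4), (0x10548796, 4), (0x315296a7, 4), (0x304296a8, 4), (0x10548796, 4)]⟩

def c_3700 : frmChk tA tA F_3700 = true := by decide +kernel

def r_3700_0 : chkL rootF engF2 tA tA sA_362 sA_362 4 F_3700 [(511, 0, 0)]
    0x198a381e0c3386618d1431d162 = true := by
  decide +kernel

theorem f_3700 (h : TabsF) : FrameF repsF 362 F_3700.f :=
  frame_of rfl c_3700 (runs_of engOK r_3700_0) (by decide +kernel) h.1 h.1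

def F_3701 : FrX :=
  ⟨0x2002000900044004000e0204100014100080004081000002808100410080a0012000802008080c10202000844010200400042080004002082020a4004004,
    0xa3, 1, 0x20314050607297a6, 8,
    [(0xa3, 1), (0x208693a5, 4), (0x10548793, 4), (0x217693a4, 4), (0x208693a5, 4), (0x10548793, 4)],
    [(0x20314050607297a6, 8), (0x768294a1, 4), (0x425063a9, 4), (0x508194a2, 4), (0x425063a9, 4), (0x738491a2, 4), (0x215076a8, 4), (0x508194a2, 4), (0x215076a8, 4), (0x638192a4, 4), (0x508194a2, 4), (0x738491a2, 4)]⟩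

def c_3701 : frmChk tA tB F_3701 = true := by decide +kernel

def r_3701_0 : chkL rootF engF2 tA tB sA_362 sB_362 4 F_3701 [(511, 0, 0)]
    0x439 = true := by
  decide +kernel

theorem f_3701 (h : TabsF) : FrameF repsF 362 F_3701.f :=
  frame_of rfl c_3701 (runs_of engOK r_3701_0) (by decide +kernel) h.1 h.2

def F_3702 : FrX :=
  ⟨0x482000044040440000c204002000900018204000040a02080408020008008800402201010001020084000908401000021000a048080402100100a00201,
    0xa0, 1, 0x5364728190a0, 6,
    [(0xa0, 1), (0x538690a2, 4), (0x548790a1, 4), (0x21437690, 4), (0x538690a2, 4), (0x548790a1, 4)],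
    [(0x5364728190a0, 6), (0x415390a7, 4), (0x216390a8, 4), (0x42658790, 4), (0x415390a7, 4), (0x216390a8, 4)]⟩

def c_3702 : frmChk tA tA F_3702 = true := by decide +kernel

def r_3702_0 : chkL rootF engF2 tA tA sA_362 sA_362 4 F_3702 [(511, 0, 0)]
    0x10e817074d4 = true := by
  decide +kernel

theorem f_3702 (h : TabsF) : FrameF repsF 362 F_3702.f :=
  frame_of rfl c_3702 (runs_of engOK r_3702_0) (by decide +kernel) h.1 h.1

def F_3703 : FrX :=
  ⟨0x1001040012008080000e00840800410008101000044008020801028000280084800000882100004240010008283020012004004401004400508002042000,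
    0xa3, 1, 0x3041618097a4, 6,
    [(0xa3, 1), (0x207584a6, 4), (0x10547693, 4), (0x647593a8, 4), (0x10547693, 4), (0x216485a7, 4), (0x208693a4, 4), (0x647593a8, 4), (0x208693a4, 4), (0x106574a8, 4), (0x647593a8, 4), (0x216485a7, 4)],
    [(0x3041618097a4, 6), (0x43507182, 4), (0x718693a5, 4), (0x627194a0, 4), (0x43507182, 4), (0x718693a5, 4)]⟩

def c_3703 : frmChk tB tA F_3703 = true := by decide +kernel

def r_3703_0 : chkL rootF engF2 tB tA sB_362 sA_362 4 F_3703 [(511, 0, 0)]
    0x43984c17 = true := by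
  decide +kernel

theorem f_3703 (h : TabsF) : FrameF repsF 362 F_3703.f :=
  frame_of rfl c_3703 (runs_of engOK r_3703_0) (by decide +kernel) h.2 h.1

def F_3704 : FrX :=
  ⟨0x1001040012008080000e00840800410008101000042100004620010004000882808200002020200800030010122000222044800c08024040002000010210,
    0xa3, 1, 0x768293a3, 4,
    [(0xa3, 1), (0x207584a6, 4), (0x10547693, 4), (0x647593a8, 4), (0x10547693, 4), (0x216485a7, 4), (0x208693a4, 4), (0x647593a8, 4), (0x208693a4, 4), (0x106574a8, 4), (0x647593a8, 4), (0x216485a7, 4)],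
    [(0x768293a3, 4), (0x426580a7, 4), (0x10547693, 4), (0x657493a2, 4), (0x10547693, 4), (0x527481a6, 4), (0x728093a4, 4), (0x657493a2, 4), (0x728093a4, 4), (0x106475a2, 4), (0x657493a2, 4), (0x527481a6, 4)]⟩

def c_3704 : frmChk tB tB F_3704 = true := by decide +kernel

def r_3704_0 : chkL rootF engF2 tB tB sB_362 sB_362 4 F_3704 [(511, 0, 0)]
    0x1 = true := by
  decide +kernel

theorem f_3704 (h : TabsF) : FrameF repsF 362 F_3704.f :=
  frame_of rfl c_3704 (runs_of engOK r_3704_0) (by decide +kernel) h.2 h.2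

def F_3705 : FrX :=
  ⟨0x80080a000804040e00002101002001000002040881081600004400100410000001084050020040200050000213010660200108001000408004025080000,
    0xa6, 1, 0x103287a6, 4,
    [(0xa6, 1), (0x205396a8, 4), (0x10548796, 4), (0x214396a7, 4), (0x205396a8, 4), (0x10548796, 4)],
    [(0x103287a6, 4), (0x315296a7, 4), (0x10548796, 4), (0x304296a8, 4), (0x315296a7, 4), (0x10548796, 4)]⟩

def c_3705 : frmChk tA tA F_3705 = true := by decide +kernel

def r_3705_0 : chkL rootF engF2 tA tA sA_362 sA_362 4 F_3705 [(511, 0, 0)]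
    0x186a5285651 = true := by
  decide +kernel

theorem f_3705 (h : TabsF) : FrameF repsF 362 F_3705.f :=
  frame_of rfl c_3705 (runs_of engOK r_3705_0) (by decide +kernel) h.1 h.1

theorem cl_362 (h : TabsF) : ∀ f ∈ fr_362, FrameF repsF 362 f :=
  List.forall_mem_cons.2 ⟨f_3695 h, List.forall_mem_cons.2 ⟨f_3696 h, List.forall_mem_cons.2 ⟨f_3697 h, List.forall_mem_cons.2 ⟨f_3698 h, List.forall_mem_cons.2 ⟨f_3699 h, List.forall_mem_cons.2 ⟨f_3700 h, List.forall_mem_cons.2 ⟨f_3701 h, List.forall_mem_cons.2 ⟨f_3702 h, List.forall_mem_cons.2 ⟨f_3703 h, List.forall_mem_cons.2 ⟨f_3704 h, List.forall_mem_cons.2 ⟨f_3705 h,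
    fun _ h0 => absurd h0 List.not_mem_nil⟩⟩⟩⟩⟩⟩⟩⟩⟩⟩⟩

def F_3706 : FrX :=
  ⟨0x1001040012008080000e00840800410008101000044008020820068000080084800000882100004240010008283030002006004401000400508002042000,
    0xa3, 1, 0x52728494a6, 5,
    [(0xa3, 1), (0x207584a6, 4), (0x10547693, 4), (0x647593a8, 4), (0x10547693, 4), (0x216485a7, 4), (0x208693a4, 4), (0x647593a8, 4), (0x208693a4, 4), (0x106574a8, 4), (0x647593a8, 4), (0x216485a7, 4)],
    [(0x52728494a6, 5), (0x327086a4, 4), (0x10548692, 4), (0x718693a5, 4), (0x327086a4, 4), (0x10548692, 4)]⟩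

def c_3706 : frmChk tB tA F_3706 = true := by decide +kernel

def r_3706_0 : chkL rootF engF2 tB tA sB_363 sA_363 4 F_3706 [(511, 0, 0)]
    0x427 = true := by
  decide +kernel

theorem f_3706 (h : TabsF) : FrameF repsF 363 F_3706.f :=
  frame_of rfl c_3706 (runs_of engOK r_3706_0) (by decide +kernel) h.2 h.1

def F_3707 : FrX :=
  ⟨0x1001040012008080000e00840800410008101000042100004620010004000882808200002020200800030010122030002000800c080ac040002000010210,
    0xa3, 1, 0x768293a3, 4,
    [(0xa3, 1), (0x207584a6, 4), (0x10547693, 4), (0x647593a8, 4), (0x10547693, 4), (0x216485a7, 4), (0x208693a4, 4), (0x647593a8, 4), (0x208693a4, 4), (0x106574a8, 4), (0x647593a8, 4), (0x216485a7, 4)],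
    [(0x768293a3, 4), (0x426580a7, 4), (0x10547693, 4), (0x657493a2, 4), (0x10547693, 4), (0x527481a6, 4), (0x728093a4, 4), (0x657493a2, 4), (0x728093a4, 4), (0x106475a2, 4), (0x657493a2, 4), (0x527481a6, 4)]⟩

def c_3707 : frmChk tB tB F_3707 = true := by decide +kernel

def r_3707_0 : chkL rootF engF2 tB tB sB_363 sB_363 4 F_3707 [(511, 0, 0)]
    0x1 = true := by
  decide +kernel

theorem f_3707 (h : TabsF) : FrameF repsF 363 F_3707.f :=
  frame_of rfl c_3707 (runs_of engOK r_3707_0) (by decide +kernel) h.2 h.2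

def F_3708 : FrX :=
  ⟨0x1001040012008080000e008408004100081010000420080240200100040800900482020022000620002000320204004100108004080100a8002300000050,
    0xa3, 1, 0x1062718095a4, 6,
    [(0xa3, 1), (0x207584a6, 4), (0x10547693, 4), (0x647593a8, 4), (0x10547693, 4), (0x216485a7, 4), (0x208693a4, 4), (0x647593a8, 4), (0x208693a4, 4), (0x106574a8, 4), (0x647593a8, 4), (0x216485a7, 4)],
    [(0x1062718095a4, 6), (0x328690a1, 4), (0x205487a9, 4), (0x315490a2, 4), (0x205487a9, 4), (0x307691a2, 4), (0x215486a3, 4), (0x315490a2, 4), (0x215486a3, 4), (0x318792a0, 4), (0x315490a2, 4), (0x307691a2, 4)]⟩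

def c_3708 : frmChk tB tB F_3708 = true := by decide +kernel

def r_3708_0 : chkL rootF engF2 tB tB sB_363 sB_363 4 F_3708 [(511, 0, 0)]
    0x1 = true := by
  decide +kernel

theorem f_3708 (h : TabsF) : FrameF repsF 363 F_3708.f :=
  frame_of rfl c_3708 (runs_of engOK r_3708_0) (by decide +kernel) h.2 h.2

def F_3709 : FrX :=
  ⟨0x600020801080810000c00401804101010010040004402420004004402800400800120022000260000200105080080900000a0400002060004700010082,
    0xa0, 1, 0x213243617482a0, 7,
    [(0xa0, 1), (0x637584a2, 4), (0x547690a1, 4), (0x64758390, 4), (0x547690a1, 4), (0x21647385, 4), (0x438690a2, 4), (0x64758390, 4), (0x438690a2, 4), (0x657483a1, 4), (0x64758390, 4), (0x21647385, 4)],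
    [(0x213243617482a0, 7), (0x325490a8, 4), (0x317590a6, 4), (0x21748690, 4), (0x325490a8, 4), (0x317590a6, 4)]⟩

def c_3709 : frmChk tB tA F_3709 = true := by decide +kernel

def r_3709_0 : chkL rootF engF2 tB tA sB_363 sA_363 4 F_3709 [(511, 0, 0)]
    0x62c = true := by
  decide +kernel

theorem f_3709 (h : TabsF) : FrameF repsF 363 F_3709.f :=
  frame_of rfl c_3709 (runs_of engOK r_3709_0) (by decide +kernel) h.2 h.1

def F_3710 : FrX :=
  ⟨0x600020801080810000c004018041010100100401002010040000840414100208002200400020a00002010c0c8010080840221000000844010400200201,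
    0xa0, 1, 0x21305364728193a0, 8,
    [(0xa0, 1), (0x637584a2, 4), (0x547690a1, 4), (0x64758390, 4), (0x547690a1, 4), (0x21647385, 4), (0x438690a2, 4), (0x64758390, 4), (0x438690a2, 4), (0x657483a1, 4), (0x64758390, 4), (0x21647385, 4)],
    [(0x21305364728193a0, 8), (0x106294a7, 4), (0x415360a8, 4), (0x10536492, 4), (0x415360a8, 4), (0x20648791, 4), (0x425396a7, 4), (0x10536492, 4), (0x425396a7, 4), (0x406192a8, 4), (0x10536492, 4), (0x20648791, 4)]⟩

def c_3710 : frmChk tB tB F_3710 = true := by decide +kernel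

def r_3710_0 : chkL rootF engF2 tB tB sB_363 sB_363 4 F_3710 [(511, 0, 0)]
    0x1 = true := by
  decide +kernel

theorem f_3710 (h : TabsF) : FrameF repsF 363 F_3710.f :=
  frame_of rfl c_3710 (runs_of engOK r_3710_0) (by decide +kernel) h.2 h.2

def F_3711 : FrX :=
  ⟨0x80080a000804040e000021010020010000020408810816000044001004100000010840500400201000900001284100002000b8002000868002042600000,
    0xa6, 1, 0x325496a6, 4,
    [(0xa6, 1), (0x205396a8, 4), (0x10548796, 4), (0x214396a7, 4), (0x205396a8, 4), (0x10548796, 4)],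
    [(0x325496a6, 4), (0x304296a8, 4), (0x10548796, 4), (0x315296a7, 4), (0x304296a8, 4), (0x10548796, 4)]⟩

def c_3711 : frmChk tA tA F_3711 = true := by decide +kernel

def r_3711_0 : chkL rootF engF2 tA tA sA_363 sA_363 4 F_3711 [(511, 0, 0)]
    0x11685ca50e80ac5505d64c601b17027 = true := by
  decide +kernel

theorem f_3711 (h : TabsF) : FrameF repsF 363 F_3711.f :=
  frame_of rfl c_3711 (runs_of engOK r_3711_0) (by decide +kernel) h.1 h.1

def F_3712 : FrX :=
  ⟨0x482000044040440000c204002000900018204002000088200002081002402280040010010100d01004000500222000a00400a000000640100404800042,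
    0xa0, 1, 0x5062708193a4, 6,
    [(0xa0, 1), (0x538690a2, 4), (0x548790a1, 4), (0x21437690, 4), (0x538690a2, 4), (0x548790a1, 4)],
    [(0x5062708193a4, 6), (0x21437690, 4), (0x435187a0, 4), (0x435286a9, 4), (0x21437690, 4), (0x435187a0, 4)]⟩

def c_3712 : frmChk tA tA F_3712 = true := by decide +kernel

def r_3712_0 : chkL rootF engF2 tA tA sA_363 sA_363 4 F_3712 [(511, 0, 0)]
    0x114c6a11c1b = true := by
  decide +kernel

theorem f_3712 (h : TabsF) : FrameF repsF 363 F_3712.f :=
  frame_of rfl c_3712 (runs_of engOK r_3712_0) (by decide +kernel) h.1 h.1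

theorem cl_363 (h : TabsF) : ∀ f ∈ fr_363, FrameF repsF 363 f :=
  List.forall_mem_cons.2 ⟨f_3706 h, List.forall_mem_cons.2 ⟨f_3707 h, List.forall_mem_cons.2 ⟨f_3708 h, List.forall_mem_cons.2 ⟨f_3709 h, List.forall_mem_cons.2 ⟨f_3710 h, List.forall_mem_cons.2 ⟨f_3711 h, List.forall_mem_cons.2 ⟨f_3712 h,
    fun _ h0 => absurd h0 List.not_mem_nil⟩⟩⟩⟩⟩⟩⟩

def F_3713 : FrX :=
  ⟨0x1001040012008080000e00840800410008101000060000028080540100180080400200080200084240504020401020022102080c00010000408002042008,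
    0xa3, 1, 0x103152748494a6, 7,
    [(0xa3, 1), (0x207584a6, 4), (0x10547693, 4), (0x647593a8, 4), (0x10547693, 4), (0x216485a7, 4), (0x208693a4, 4), (0x647593a8, 4), (0x208693a4, 4), (0x106574a8, 4), (0x647593a8, 4), (0x216485a7, 4)],
    [(0x103152748494a6, 7), (0x205186a7, 4), (0x31748692, 4), (0x538690a4, 4), (0x205186a7, 4), (0x31748692, 4)]⟩

def c_3713 : frmChk tB tA F_3713 = true := by decide +kernel

def r_3713_0 : chkL rootF engF2 tB tA sB_364 sA_364 4 F_3713 [(511, 0, 0)]
    0x42b = true := by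
  decide +kernel

theorem f_3713 (h : TabsF) : FrameF repsF 364 F_3713.f :=
  frame_of rfl c_3713 (runs_of engOK r_3713_0) (by decide +kernel) h.2 h.1

def F_3714 : FrX :=
  ⟨0x600020801080810000c00401804101010010040100100412000014420040400848000020002201400100100180888003000a0400004028004220400082,
    0xa0, 1, 0x213142536475a0, 7,
    [(0xa0, 1), (0x637584a2, 4), (0x547690a1, 4), (0x64758390, 4), (0x547690a1, 4), (0x21647385, 4), (0x438690a2, 4), (0x64758390, 4), (0x438690a2, 4), (0x657483a1, 4), (0x64758390, 4), (0x21647385, 4)],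
    [(0x213142536475a0, 7), (0x758190a4, 4), (0x768290a3, 4), (0x21436590, 4), (0x758190a4, 4), (0x768290a3, 4)]⟩

def c_3714 : frmChk tB tA F_3714 = true := by decide +kernel

def r_3714_0 : chkL rootF engF2 tB tA sB_364 sA_364 4 F_3714 [(511, 0, 0)]
    0x103c1b03c390ae4903c2b = true := by
  decide +kernel

theorem f_3714 (h : TabsF) : FrameF repsF 364 F_3714.f :=
  frame_of rfl c_3714 (runs_of engOK r_3714_0) (by decide +kernel) h.2 h.1

def F_3715 : FrX :=
  ⟨0x1001040012008080000e00840800410008101000042100004620010004000882808200002020200800030010122000802100800c08024060002200010210,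
    0xa3, 1, 0x768293a3, 4,
    [(0xa3, 1), (0x207584a6, 4), (0x10547693, 4), (0x647593a8, 4), (0x10547693, 4), (0x216485a7, 4), (0x208693a4, 4), (0x647593a8, 4), (0x208693a4, 4), (0x106574a8, 4), (0x647593a8, 4), (0x216485a7, 4)],
    [(0x768293a3, 4), (0x426580a7, 4), (0x10547693, 4), (0x657493a2, 4), (0x10547693, 4), (0x527481a6, 4), (0x728093a4, 4), (0x657493a2, 4), (0x728093a4, 4), (0x106475a2, 4), (0x657493a2, 4), (0x527481a6, 4)]⟩

def c_3715 : frmChk tB tB F_3715 = true := by decide +kernel

def r_3715_0 : chkL rootF engF2 tB tB sB_364 sB_364 4 F_3715 [(511, 0, 0)]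
    0x1 = true := by
  decide +kernel

theorem f_3715 (h : TabsF) : FrameF repsF 364 F_3715.f :=
  frame_of rfl c_3715 (runs_of engOK r_3715_0) (by decide +kernel) h.2 h.2

def F_3716 : FrX :=
  ⟨0x1001040012008080000e00840800410008101000042008024020010007000080048202002200062000200032020400410010800408098088002100000050,
    0xa3, 1, 0x4051638297a3, 6,
    [(0xa3, 1), (0x207584a6, 4), (0x10547693, 4), (0x647593a8, 4), (0x10547693, 4), (0x216485a7, 4), (0x208693a4, 4), (0x647593a8, 4), (0x208693a4, 4), (0x106574a8, 4), (0x647593a8, 4), (0x216485a7, 4)],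
    [(0x4051638297a3, 6), (0x208491a3, 4), (0x10547693, 4), (0x307691a2, 4), (0x10547693, 4), (0x213085a9, 4), (0x327684a0, 4), (0x307691a2, 4), (0x327684a0, 4), (0x315490a2, 4), (0x307691a2, 4), (0x213085a9, 4)]⟩

def c_3716 : frmChk tB tB F_3716 = true := by decide +kernel

def r_3716_0 : chkL rootF engF2 tB tB sB_364 sB_364 4 F_3716 [(511, 0, 0)]
    0x11540f468742584e1361c = true := by
  decide +kernel

theorem f_3716 (h : TabsF) : FrameF repsF 364 F_3716.f :=
  frame_of rfl c_3716 (runs_of engOK r_3716_0) (by decide +kernel) h.2 h.2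

def F_3717 : FrX :=
  ⟨0x600020801080810000c0040180410101001004010020100400008404141002080022000800810240004100010d10202080088800100008100c00210100,
    0xa0, 1, 0x10213051718297a0, 8,
    [(0xa0, 1), (0x637584a2, 4), (0x547690a1, 4), (0x64758390, 4), (0x547690a1, 4), (0x21647385, 4), (0x438690a2, 4), (0x64758390, 4), (0x438690a2, 4), (0x657483a1, 4), (0x64758390, 4), (0x21647385, 4)],
    [(0x10213051718297a0, 8), (0x406192a8, 4), (0x425396a7, 4), (0x10536492, 4), (0x425396a7, 4), (0x20648791, 4), (0x415360a8, 4), (0x10536492, 4), (0x415360a8, 4), (0x106294a7, 4), (0x10536492, 4), (0x20648791, 4)]⟩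

def c_3717 : frmChk tB tB F_3717 = true := by decide +kernel

def r_3717_0 : chkL rootF engF2 tB tB sB_364 sB_364 4 F_3717 [(511, 0, 0)]
    0x1 = true := by
  decide +kernel

theorem f_3717 (h : TabsF) : FrameF repsF 364 F_3717.f :=
  frame_of rfl c_3717 (runs_of engOK r_3717_0) (by decide +kernel) h.2 h.2

def F_3718 : FrX :=
  ⟨0x80080a000804040e0000210100200100000204088108160000440010041000000108405004002010009000012841000020008a08200080c102042600000,
    0xa6, 1, 0x325496a6, 4,
    [(0xa6, 1), (0x205396a8, 4), (0x10548796, 4), (0x214396a7, 4), (0x205396a8, 4), (0x10548796, 4)],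
    [(0x325496a6, 4), (0x304296a8, 4), (0x10548796, 4), (0x315296a7, 4), (0x304296a8, 4), (0x10548796, 4)]⟩

def c_3718 : frmChk tA tA F_3718 = true := by decide +kernel

def r_3718_0 : chkL rootF engF2 tA tA sA_364 sA_364 4 F_3718 [(511, 0, 0)]
    0x10782e0b41d = true := by
  decide +kernel

theorem f_3718 (h : TabsF) : FrameF repsF 364 F_3718.f :=
  frame_of rfl c_3718 (runs_of engOK r_3718_0) (by decide +kernel) h.1 h.1

def F_3719 : FrX :=
  ⟨0x2002000900044004000e020410001410008000408100000811008042008120012000041100000842045004208200100020800880300800080009000c4040,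
    0xa3, 1, 0x3162758094a3, 6,
    [(0xa3, 1), (0x208693a5, 4), (0x10548793, 4), (0x217693a4, 4), (0x208693a5, 4), (0x10548793, 4)],
    [(0x3162758094a3, 6), (0x204186a7, 4), (0x41508397, 4), (0x415263a9, 4), (0x204186a7, 4), (0x41508397, 4)]⟩

def c_3719 : frmChk tA tA F_3719 = true := by decide +kernel

def r_3719_0 : chkL rootF engF2 tA tA sA_364 sA_364 4 F_3719 [(511, 0, 0)]
    0x105c1e12ccc3299866381e200f03c1e12c5a198360b81b84e2309c0f12c560cf82c3388 = true := by
  decide +kernel

theorem f_3719 (h : TabsF) : FrameF repsF 364 F_3719.f :=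
  frame_of rfl c_3719 (runs_of engOK r_3719_0) (by decide +kernel) h.1 h.1

theorem cl_364 (h : TabsF) : ∀ f ∈ fr_364, FrameF repsF 364 f :=
  List.forall_mem_cons.2 ⟨f_3713 h, List.forall_mem_cons.2 ⟨f_3714 h, List.forall_mem_cons.2 ⟨f_3715 h, List.forall_mem_cons.2 ⟨f_3716 h, List.forall_mem_cons.2 ⟨f_3717 h, List.forall_mem_cons.2 ⟨f_3718 h, List.forall_mem_cons.2 ⟨f_3719 h,
    fun _ h0 => absurd h0 List.not_mem_nil⟩⟩⟩⟩⟩⟩⟩

def F_3720 : FrX :=
  ⟨0x482000044040440000c2040020009000182040020000882000200084a80041000042000081042000896020008001140080010018008004001000808380,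
    0xa0, 1, 0x102031607595a0, 7,
    [(0xa0, 1), (0x538690a2, 4), (0x548790a1, 4), (0x21437690, 4), (0x538690a2, 4), (0x548790a1, 4)],
    [(0x102031607595a0, 7), (0x208495a1, 4), (0x527694a3, 4), (0x42768095, 4), (0x527694a3, 4), (0x31425098, 4), (0x407682a1, 4), (0x42768095, 4), (0x407682a1, 4), (0x548092a3, 4), (0x42768095, 4), (0x31425098, 4)]⟩

def c_3720 : frmChk tA tB F_3720 = true := by decide +kernel

def r_3720_0 : chkL rootF engF2 tA tB sA_365 sB_365 4 F_3720 [(511, 0, 0)]
    0x463 = true := by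
  decide +kernel

theorem f_3720 (h : TabsF) : FrameF repsF 365 F_3720.f :=
  frame_of rfl c_3720 (runs_of engOK r_3720_0) (by decide +kernel) h.1 h.2

def F_3721 : FrX :=
  ⟨0x2002000900044004000e02041000141000800040800801014008400008120200200242000888002004096008000408100001010090808088002010042020,
    0xa3, 1, 0x3264708493a5, 6,
    [(0xa3, 1), (0x208693a5, 4), (0x10548793, 4), (0x217693a4, 4), (0x208693a5, 4), (0x10548793, 4)],
    [(0x3264708493a5, 6), (0x738694a0, 4), (0x405271a8, 4), (0x528496a0, 4), (0x405271a8, 4), (0x318490a6, 4), (0x52647398, 4), (0x528496a0, 4), (0x52647398, 4), (0x718096a4, 4), (0x528496a0, 4), (0x318490a6, 4)]⟩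

def c_3721 : frmChk tA tB F_3721 = true := by decide +kernel

def r_3721_0 : chkL rootF engF2 tA tB sA_365 sB_365 4 F_3721 [(511, 0, 0)]
    0x417 = true := by
  decide +kernel

theorem f_3721 (h : TabsF) : FrameF repsF 365 F_3721.f :=
  frame_of rfl c_3721 (runs_of engOK r_3721_0) (by decide +kernel) h.1 h.2

def F_3722 : FrX :=
  ⟨0x80080a000804040e000021010020010000020408a0001004040024802000a40010880000400049008080000a020028010040010061c0080100080820820,
    0xa6, 1, 0x31415063708795a0, 8,
    [(0xa6, 1), (0x205396a8, 4), (0x10548796, 4), (0x214396a7, 4), (0x205396a8, 4), (0x10548796, 4)],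
    [(0x31415063708795a0, 8), (0x517096a2, 4), (0x708593a4, 4), (0x42637081, 4), (0x517096a2, 4), (0x708593a4, 4)]⟩

def c_3722 : frmChk tA tA F_3722 = true := by decide +kernel

def r_3722_0 : chkL rootF engF2 tA tA sA_365 sA_365 4 F_3722 [(511, 0, 0)]
    0x13502e = true := by
  decide +kernel

theorem f_3722 (h : TabsF) : FrameF repsF 365 F_3722.f :=
  frame_of rfl c_3722 (runs_of engOK r_3722_0) (by decide +kernel) h.1 h.1

def F_3723 : FrX :=
  ⟨0x2002000900044004000e02041000141000800040800801041000a0201024200100000412000800800c080404800000802040200084102106001100041820,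
    0xa3, 1, 0x4350637691a8, 6,
    [(0xa3, 1), (0x208693a5, 4), (0x10548793, 4), (0x217693a4, 4), (0x208693a5, 4), (0x10548793, 4)],
    [(0x4350637691a8, 6), (0x405276a3, 4), (0x30748195, 4), (0x407381a6, 4), (0x30748195, 4), (0x647392a0, 4), (0x526381a7, 4), (0x407381a6, 4), (0x526381a7, 4), (0x437095a6, 4), (0x407381a6, 4), (0x647392a0, 4)]⟩

def c_3723 : frmChk tA tB F_3723 = true := by decide +kernel

def r_3723_0 : chkL rootF engF2 tA tB sA_365 sB_365 4 F_3723 [(511, 0, 0)]
    0x105c0f = true := by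
  decide +kernel

theorem f_3723 (h : TabsF) : FrameF repsF 365 F_3723.f :=
  frame_of rfl c_3723 (runs_of engOK r_3723_0) (by decide +kernel) h.1 h.2

def F_3724 : FrX :=
  ⟨0x80080a000804040e00002101002001000002040881011001020010020024002008111004400005040380000828000120401102040001088000210800005,
    0xa6, 1, 0x32618495a6, 5,
    [(0xa6, 1), (0x205396a8, 4), (0x10548796, 4), (0x214396a7, 4), (0x205396a8, 4), (0x10548796, 4)],
    [(0x32618495a6, 5), (0x305192a4, 4), (0x51607498, 4), (0x516382a7, 4), (0x305192a4, 4), (0x51607498, 4)]⟩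

def c_3724 : frmChk tA tA F_3724 = true := by decide +kernel

def r_3724_0 : chkL rootF engF2 tA tA sA_365 sA_365 4 F_3724 [(511, 0, 0)]
    0x1314c615417 = true := by
  decide +kernel

theorem f_3724 (h : TabsF) : FrameF repsF 365 F_3724.f :=
  frame_of rfl c_3724 (runs_of engOK r_3724_0) (by decide +kernel) h.1 h.1

def F_3725 : FrX :=
  ⟨0x1c2102000004044000002041000101000082040888081000020000404000241010a0200088004200009600808840014008101001100848c000000800120,
    0x0, 0, 0x10647583, 4,
    [(0x0, 0), (0x205386a9, 4), (0x105487a9, 4), (0x214376a9, 4), (0x205386a9, 4), (0x105487a9, 4)],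
    [(0x10647583, 4), (0x214387a9, 4), (0x105376a9, 4), (0x205486a9, 4), (0x214387a9, 4), (0x105376a9, 4)]⟩

def c_3725 : frmChk tA tA F_3725 = true := by decide +kernel

def r_3725_0 : chkL rootF engF2 tA tA sA_365 sA_365 4 F_3725 [(511, 0, 0)]
    0x1 = true := by
  decide +kernel

theorem f_3725 (h : TabsF) : FrameF repsF 365 F_3725.f :=
  frame_of rfl c_3725 (runs_of engOK r_3725_0) (by decide +kernel) h.1 h.1

def F_3726 : FrX :=
  ⟨0x482000044040440000c2040020009000182040002010900008040008020108100019020001010020800220108000400241408080050120004080108084,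
    0xa0, 1, 0x3053738694a2, 6,
    [(0xa0, 1), (0x538690a2, 4), (0x548790a1, 4), (0x21437690, 4), (0x538690a2, 4), (0x548790a1, 4)],
    [(0x3053738694a2, 6), (0x508796a3, 4), (0x31428590, 4), (0x42507698, 4), (0x31428590, 4), (0x607598a1, 4), (0x428697a3, 4), (0x42507698, 4), (0x428697a3, 4), (0x31768095, 4), (0x42507698, 4), (0x607598a1, 4)]⟩

def c_3726 : frmChk tA tB F_3726 = true := by decide +kernel

def r_3726_0 : chkL rootF engF2 tA tB sA_365 sB_365 4 F_3726 [(511, 0, 0)]
    0x42b = true := by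
  decide +kernel

theorem f_3726 (h : TabsF) : FrameF repsF 365 F_3726.f :=
  frame_of rfl c_3726 (runs_of engOK r_3726_0) (by decide +kernel) h.1 h.2

def F_3727 : FrX :=
  ⟨0x600020801080810000c0040180410101001004010010048000001440d80002000000508000031008410700100020600208088000000200090040011030,
    0xa0, 1, 0x315463758695a3, 7,
    [(0xa0, 1), (0x637584a2, 4), (0x547690a1, 4), (0x64758390, 4), (0x547690a1, 4), (0x21647385, 4), (0x438690a2, 4), (0x64758390, 4), (0x438690a2, 4), (0x657483a1, 4), (0x64758390, 4), (0x21647385, 4)],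
    [(0x315463758695a3, 7), (0x205194a8, 4), (0x30768495, 4), (0x768594a1, 4), (0x30768495, 4), (0x328591a4, 4), (0x207681a5, 4), (0x768594a1, 4), (0x207681a5, 4), (0x305498a1, 4), (0x768594a1, 4), (0x328591a4, 4)]⟩

def c_3727 : frmChk tB tB F_3727 = true := by decide +kernel

def r_3727_0 : chkL rootF engF2 tB tB sB_365 sB_365 4 F_3727 [(511, 0, 0)]
    0x1 = true := by
  decide +kernel

theorem f_3727 (h : TabsF) : FrameF repsF 365 F_3727.f :=
  frame_of rfl c_3727 (runs_of engOK r_3727_0) (by decide +kernel) h.2 h.2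

def F_3728 : FrX :=
  ⟨0x1c4044000008081000000840080410000101084042102000020001010002020048a020010204020ac000010100500408448008000804400004403000c00,
    0x0, 0, 0x21637485, 4,
    [(0x0, 0), (0x20637584, 4), (0x105476a9, 4), (0x647583a9, 4), (0x105476a9, 4), (0x21647385, 4), (0x204386a9, 4), (0x647583a9, 4), (0x204386a9, 4), (0x10657483, 4), (0x647583a9, 4), (0x21647385, 4)],
    [(0x21637485, 4), (0x105386a9, 4), (0x205487a9, 4), (0x214376a9, 4), (0x105386a9, 4), (0x205487a9, 4)]⟩

def c_3728 : frmChk tB tA F_3728 = true := by decide +kernel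

def r_3728_0 : chkL rootF engF2 tB tA sB_365 sA_365 4 F_3728 [(511, 0, 0)]
    0x61682ce2b0a921b053 = true := by
  decide +kernel

theorem f_3728 (h : TabsF) : FrameF repsF 365 F_3728.f :=
  frame_of rfl c_3728 (runs_of engOK r_3728_0) (by decide +kernel) h.2 h.1

def F_3729 : FrX :=
  ⟨0x1001040012008080000e0084080041000810100004200810013100010000200280820008202020024000480001080004001815100120040040c001801800,
    0xa3, 1, 0x305260758395a3, 7,
    [(0xa3, 1), (0x207584a6, 4), (0x10547693, 4), (0x647593a8, 4), (0x10547693, 4), (0x216485a7, 4), (0x208693a4, 4), (0x647593a8, 4), (0x208693a4, 4), (0x106574a8, 4), (0x647593a8, 4), (0x216485a7, 4)],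
    [(0x305260758395a3, 7), (0x406592a3, 4), (0x32618794, 4), (0x438792a0, 4), (0x32618794, 4), (0x435190a2, 4), (0x306587a4, 4), (0x438792a0, 4), (0x306587a4, 4), (0x426193a0, 4), (0x438792a0, 4), (0x435190a2, 4)]⟩

def c_3729 : frmChk tB tB F_3729 = true := by decide +kernel

def r_3729_0 : chkL rootF engF2 tB tB sB_365 sB_365 4 F_3729 [(511, 0, 0)]
    0x427 = true := by
  decide +kernel

theorem f_3729 (h : TabsF) : FrameF repsF 365 F_3729.f :=
  frame_of rfl c_3729 (runs_of engOK r_3729_0) (by decide +kernel) h.2 h.2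

def F_3730 : FrX :=
  ⟨0x1001040012008080000e008408004100081010000420800200902000041000904402020010204020e8000810000408008440008802004000101002022c00,
    0xa3, 1, 0x10214050748296a5, 8,
    [(0xa3, 1), (0x207584a6, 4), (0x10547693, 4), (0x647593a8, 4), (0x10547693, 4), (0x216485a7, 4), (0x208693a4, 4), (0x647593a8, 4), (0x208693a4, 4), (0x106574a8, 4), (0x647593a8, 4), (0x216485a7, 4)],
    [(0x10214050748296a5, 8), (0x648590a3, 4), (0x105264a7, 4), (0x64738291, 4), (0x648590a3, 4), (0x105264a7, 4)]⟩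

def c_3730 : frmChk tB tA F_3730 = true := by decide +kernel

def r_3730_0 : chkL rootF engF2 tB tA sB_365 sA_365 4 F_3730 [(511, 0, 0)]
    0x1 = true := by
  decide +kernel

theorem f_3730 (h : TabsF) : FrameF repsF 365 F_3730.f :=
  frame_of rfl c_3730 (runs_of engOK r_3730_0) (by decide +kernel) h.2 h.1

def F_3731 : FrX :=
  ⟨0x1001040012008080000e00840800410008101000042008100110200004202001080122002020200240004800010810002084004401100345008100010010,
    0xa3, 1, 0x5361748493a0, 6,
    [(0xa3, 1), (0x207584a6, 4), (0x10547693, 4), (0x647593a8, 4), (0x10547693, 4), (0x216485a7, 4), (0x208693a4, 4), (0x647593a8, 4), (0x208693a4, 4), (0x106574a8, 4), (0x647593a8, 4), (0x216485a7, 4)],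
    [(0x5361748493a0, 6), (0x507193a2, 4), (0x507483a6, 4), (0x41506298, 4), (0x507193a2, 4), (0x507483a6, 4)]⟩

def c_3731 : frmChk tB tA F_3731 = true := by decide +kernel

def r_3731_0 : chkL rootF engF2 tB tA sB_365 sA_365 4 F_3731 [(511, 0, 0)]
    0x1 = true := by
  decide +kernel

theorem f_3731 (h : TabsF) : FrameF repsF 365 F_3731.f :=
  frame_of rfl c_3731 (runs_of engOK r_3731_0) (by decide +kernel) h.2 h.1

def F_3732 : FrX :=
  ⟨0x600020801080810000c0040180410101001004010040024003010022000800084024002000220208004102000220021008080c00a00404080820200208,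
    0xa0, 1, 0x43657098a0, 5,
    [(0xa0, 1), (0x637584a2, 4), (0x547690a1, 4), (0x64758390, 4), (0x547690a1, 4), (0x21647385, 4), (0x438690a2, 4), (0x64758390, 4), (0x438690a2, 4), (0x657483a1, 4), (0x64758390, 4), (0x21647385, 4)],
    [(0x43657098a0, 5), (0x546093a2, 4), (0x506387a1, 4), (0x53608794, 4), (0x506387a1, 4), (0x21405396, 4), (0x438795a2, 4), (0x53608794, 4), (0x438795a2, 4), (0x306594a1, 4), (0x53608794, 4), (0x21405396, 4)]⟩

def c_3732 : frmChk tB tB F_3732 = true := by decide +kernel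

def r_3732_0 : chkL rootF engF2 tB tB sB_365 sB_365 4 F_3732 [(511, 0, 0)]
    0x48e = true := by
  decide +kernel

theorem f_3732 (h : TabsF) : FrameF repsF 365 F_3732.f :=
  frame_of rfl c_3732 (runs_of engOK r_3732_0) (by decide +kernel) h.2 h.2

def F_3733 : FrX :=
  ⟨0x600020801080810000c004018041010100100401010000440601000410100208002200100080a068000110800110080040201010000808100c00180140,
    0xa0, 1, 0x10314053658097a0, 8,
    [(0xa0, 1), (0x637584a2, 4), (0x547690a1, 4), (0x64758390, 4), (0x547690a1, 4), (0x21647385, 4), (0x438690a2, 4), (0x64758390, 4), (0x438690a2, 4), (0x657483a1, 4), (0x64758390, 4), (0x21647385, 4)],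
    [(0x10314053658097a0, 8), (0x406587a2, 4), (0x618794a3, 4), (0x32518790, 4), (0x406587a2, 4), (0x618794a3, 4)]⟩

def c_3733 : frmChk tB tA F_3733 = true := by decide +kernel

def r_3733_0 : chkL rootF engF2 tB tA sB_365 sA_365 4 F_3733 [(511, 0, 0)]
    0x1 = true := by
  decide +kernel

theorem f_3733 (h : TabsF) : FrameF repsF 365 F_3733.f :=
  frame_of rfl c_3733 (runs_of engOK r_3733_0) (by decide +kernel) h.2 h.1

def F_3734 : FrX :=
  ⟨0x1001040012008080000e00840800410008101000042d0000402001000000088280820008220000010021081012040041004020010a0300a0002001801800,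
    0xa3, 1, 0x2030537583a3, 6,
    [(0xa3, 1), (0x207584a6, 4), (0x10547693, 4), (0x647593a8, 4), (0x10547693, 4), (0x216485a7, 4), (0x208693a4, 4), (0x647593a8, 4), (0x208693a4, 4), (0x106574a8, 4), (0x647593a8, 4), (0x216485a7, 4)],
    [(0x2030537583a3, 6), (0x305472a6, 4), (0x31627498, 4), (0x647298a5, 4), (0x31627498, 4), (0x106475a2, 4), (0x306598a4, 4), (0x647298a5, 4), (0x306598a4, 4), (0x314276a5, 4), (0x647298a5, 4), (0x106475a2, 4)]⟩

def c_3734 : frmChk tB tB F_3734 = true := by decide +kernel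

def r_3734_0 : chkL rootF engF2 tB tB sB_365 sB_365 4 F_3734 [(511, 0, 0)]
    0x1 = true := by
  decide +kernel

theorem f_3734 (h : TabsF) : FrameF repsF 365 F_3734.f :=
  frame_of rfl c_3734 (runs_of engOK r_3734_0) (by decide +kernel) h.2 h.2

def F_3735 : FrX :=
  ⟨0x1001040012008080000e00840800410008101000042100001120010060002022808200002200004100210e00120000410010800408090208002000011210,
    0xa3, 1, 0x102131547491a8, 7,
    [(0xa3, 1), (0x207584a6, 4), (0x10547693, 4), (0x647593a8, 4), (0x10547693, 4), (0x216485a7, 4), (0x208693a4, 4), (0x647593a8, 4), (0x208693a4, 4), (0x106574a8, 4), (0x647593a8, 4), (0x216485a7, 4)],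
    [(0x102131547491a8, 7), (0x104283a6, 4), (0x748391a5, 4), (0x65728390, 4), (0x104283a6, 4), (0x748391a5, 4)]⟩

def c_3735 : frmChk tB tA F_3735 = true := by decide +kernel

def r_3735_0 : chkL rootF engF2 tB tA sB_365 sA_365 4 F_3735 [(511, 0, 0)]
    0x1 = true := by
  decide +kernel

theorem f_3735 (h : TabsF) : FrameF repsF 365 F_3735.f :=
  frame_of rfl c_3735 (runs_of engOK r_3735_0) (by decide +kernel) h.2 h.1

def F_3736 : FrX :=
  ⟨0x600020801080810000c0040180410101001004000900808000024800801042000408084200008228010100101120020200508800002040004040580020,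
    0xa0, 1, 0x314154658091a6, 7,
    [(0xa0, 1), (0x637584a2, 4), (0x547690a1, 4), (0x64758390, 4), (0x547690a1, 4), (0x21647385, 4), (0x438690a2, 4), (0x64758390, 4), (0x438690a2, 4), (0x657483a1, 4), (0x64758390, 4), (0x21647385, 4)],
    [(0x314154658091a6, 7), (0x436182a0, 4), (0x43657098, 4), (0x435192a7, 4), (0x436182a0, 4), (0x43657098, 4)]⟩

def c_3736 : frmChk tB tA F_3736 = true := by decide +kernel

def r_3736_0 : chkL rootF engF2 tB tA sB_365 sA_365 4 F_3736 [(511, 0, 0)]
    0x105c1707866 = true := by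
  decide +kernel

theorem f_3736 (h : TabsF) : FrameF repsF 365 F_3736.f :=
  frame_of rfl c_3736 (runs_of engOK r_3736_0) (by decide +kernel) h.2 h.1

def F_3737 : FrX :=
  ⟨0x600020801080810000c0040180410101001004002020221000050008809004000008084080860208010000201020020202200c00002040404021008208,
    0xa0, 1, 0x425361a0, 4,
    [(0xa0, 1), (0x637584a2, 4), (0x547690a1, 4), (0x64758390, 4), (0x547690a1, 4), (0x21647385, 4), (0x438690a2, 4), (0x64758390, 4), (0x438690a2, 4), (0x657483a1, 4), (0x64758390, 4), (0x21647385, 4)],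
    [(0x425361a0, 4), (0x517382a4, 4), (0x327190a6, 4), (0x21738590, 4), (0x327190a6, 4), (0x21647583, 4), (0x528190a4, 4), (0x21738590, 4), (0x528190a4, 4), (0x317285a6, 4), (0x21738590, 4), (0x21647583, 4)]⟩

def c_3737 : frmChk tB tB F_3737 = true := by decide +kernel

def r_3737_0 : chkL rootF engF2 tB tB sB_365 sB_365 4 F_3737 [(511, 0, 0)]
    0x124c2d = true := by
  decide +kernel

theorem f_3737 (h : TabsF) : FrameF repsF 365 F_3737.f :=
  frame_of rfl c_3737 (runs_of engOK r_3737_0) (by decide +kernel) h.2 h.2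

def F_3738 : FrX :=
  ⟨0x2002000900044004000e0204100014100080004080400101012000200a202100100204008088301014040005000000202b00200080001008000024201201,
    0xa3, 1, 0x2052758096a5, 6,
    [(0xa3, 1), (0x208693a5, 4), (0x10548793, 4), (0x217693a4, 4), (0x208693a5, 4), (0x10548793, 4)],
    [(0x2052758096a5, 6), (0x428593a0, 4), (0x768190a4, 4), (0x327694a0, 4), (0x768190a4, 4), (0x305194a2, 4), (0x43768592, 4), (0x327694a0, 4), (0x43768592, 4), (0x324081a9, 4), (0x327694a0, 4), (0x305194a2, 4)]⟩

def c_3738 : frmChk tA tB F_3738 = true := by decide +kernel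

def r_3738_0 : chkL rootF engF2 tA tB sA_365 sB_365 4 F_3738 [(511, 0, 0)]
    0x1 = true := by
  decide +kernel

theorem f_3738 (h : TabsF) : FrameF repsF 365 F_3738.f :=
  frame_of rfl c_3738 (runs_of engOK r_3738_0) (by decide +kernel) h.1 h.2

def F_3739 : FrX :=
  ⟨0x80080a000804040e00002101002001000002040881081000044030000440202000023008400b01010040001080202200a040010010004081000c0808200,
    0xa6, 1, 0x325265738096a3, 7,
    [(0xa6, 1), (0x205396a8, 4), (0x10548796, 4), (0x214396a7, 4), (0x205396a8, 4), (0x10548796, 4)],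
    [(0x325265738096a3, 7), (0x738590a6, 4), (0x20647381, 4), (0x517392a4, 4), (0x738590a6, 4), (0x20647381, 4)]⟩

def c_3739 : frmChk tA tA F_3739 = true := by decide +kernel

def r_3739_0 : chkL rootF engF2 tA tA sA_365 sA_365 4 F_3739 [(511, 0, 0)]
    0x41b2640f = true := by
  decide +kernel

theorem f_3739 (h : TabsF) : FrameF repsF 365 F_3739.f :=
  frame_of rfl c_3739 (runs_of engOK r_3739_0) (by decide +kernel) h.1 h.1

def F_3740 : FrX :=
  ⟨0x2002000900044004000e02041000141000800040800801014010200008102202000203000888000224000100800060140000210006010288002405800040,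
    0xa3, 1, 0x42708592a4, 5,
    [(0xa3, 1), (0x208693a5, 4), (0x10548793, 4), (0x217693a4, 4), (0x208693a5, 4), (0x10548793, 4)],
    [(0x42708592a4, 5), (0x42658397, 4), (0x425071a8, 4), (0x426091a3, 4), (0x42658397, 4), (0x425071a8, 4)]⟩

def c_3740 : frmChk tA tA F_3740 = true := by decide +kernel

def r_3740_0 : chkL rootF engF2 tA tA sA_365 sA_365 4 F_3740 [(511, 0, 0)]
    0x42d2b09a = true := by
  decide +kernel

theorem f_3740 (h : TabsF) : FrameF repsF 365 F_3740.f :=
  frame_of rfl c_3740 (runs_of engOK r_3740_0) (by decide +kernel) h.1 h.1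

def F_3741 : FrX :=
  ⟨0x482000044040440000c204002000900018204002000208010310010000c0040048001000810402208000208080080a001800a000600101204020200404,
    0xa0, 1, 0x2154638090a7, 6,
    [(0xa0, 1), (0x538690a2, 4), (0x548790a1, 4), (0x21437690, 4), (0x538690a2, 4), (0x548790a1, 4)],
    [(0x2154638090a7, 6), (0x506391a4, 4), (0x548792a3, 4), (0x536087a4, 4), (0x548792a3, 4), (0x214053a6, 4), (0x30658791, 4), (0x536087a4, 4), (0x30658791, 4), (0x436092a5, 4), (0x536087a4, 4), (0x214053a6, 4)]⟩

def c_3741 : frmChk tA tB F_3741 = true := by decide +kernel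

def r_3741_0 : chkL rootF engF2 tA tB sA_365 sB_365 4 F_3741 [(511, 0, 0)]
    0x417 = true := by
  decide +kernel

theorem f_3741 (h : TabsF) : FrameF repsF 365 F_3741.f :=
  frame_of rfl c_3741 (runs_of engOK r_3741_0) (by decide +kernel) h.1 h.2

def F_3742 : FrX :=
  ⟨0x1c4044000008081000000840080410000101084042102000020001010002020048a020020202020101000120216001401c000000880440a802003000000,
    0x0, 0, 0x21637485, 4,
    [(0x0, 0), (0x20637584, 4), (0x105476a9, 4), (0x647583a9, 4), (0x105476a9, 4), (0x21647385, 4), (0x204386a9, 4), (0x647583a9, 4), (0x204386a9, 4), (0x10657483, 4), (0x647583a9, 4), (0x21647385, 4)],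
    [(0x21637485, 4), (0x105386a9, 4), (0x205487a9, 4), (0x214376a9, 4), (0x105386a9, 4), (0x205487a9, 4)]⟩

def c_3742 : frmChk tB tA F_3742 = true := by decide +kernel

def r_3742_0 : chkL rootF engF2 tB tA sB_365 sA_365 4 F_3742 [(511, 0, 0)]
    0x1 = true := by
  decide +kernel

theorem f_3742 (h : TabsF) : FrameF repsF 365 F_3742.f :=
  frame_of rfl c_3742 (runs_of engOK r_3742_0) (by decide +kernel) h.2 h.1

def F_3743 : FrX :=
  ⟨0x600020801080810000c004018041010100100401004002400001504200104008400200200022020800410200020114008400000041000ab00100018082,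
    0xa0, 1, 0x41748595a8, 5,
    [(0xa0, 1), (0x637584a2, 4), (0x547690a1, 4), (0x64758390, 4), (0x547690a1, 4), (0x21647385, 4), (0x438690a2, 4), (0x64758390, 4), (0x438690a2, 4), (0x657483a1, 4), (0x64758390, 4), (0x21647385, 4)],
    [(0x41748595a8, 5), (0x208593a6, 4), (0x408597a1, 4), (0x42617385, 4), (0x208593a6, 4), (0x408597a1, 4)]⟩

def c_3743 : frmChk tB tA F_3743 = true := by decide +kernel

def r_3743_0 : chkL rootF engF2 tB tA sB_365 sA_365 4 F_3743 [(511, 0, 0)]
    0x1 = true := by
  decide +kernel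

theorem f_3743 (h : TabsF) : FrameF repsF 365 F_3743.f :=
  frame_of rfl c_3743 (runs_of engOK r_3743_0) (by decide +kernel) h.2 h.1

def F_3744 : FrX :=
  ⟨0x600020801080810000c0040180410101001004010040024000010086001040048022002000220208004102000201802100800c81010004010820210200,
    0xa0, 1, 0x32425260718496a3, 8,
    [(0xa0, 1), (0x637584a2, 4), (0x547690a1, 4), (0x64758390, 4), (0x547690a1, 4), (0x21647385, 4), (0x438690a2, 4), (0x64758390, 4), (0x438690a2, 4), (0x657483a1, 4), (0x64758390, 4), (0x21647385, 4)],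
    [(0x32425260718496a3, 8), (0x416583a9, 4), (0x20768491, 4), (0x204198a3, 4), (0x20768491, 4), (0x437598a1, 4), (0x206593a8, 4), (0x204198a3, 4), (0x206593a8, 4), (0x768194a3, 4), (0x204198a3, 4), (0x437598a1, 4)]⟩

def c_3744 : frmChk tB tB F_3744 = true := by decide +kernel

def r_3744_0 : chkL rootF engF2 tB tB sB_365 sB_365 4 F_3744 [(511, 0, 0)]
    0x1 = true := by
  decide +kernel

theorem f_3744 (h : TabsF) : FrameF repsF 365 F_3744.f :=
  frame_of rfl c_3744 (runs_of engOK r_3744_0) (by decide +kernel) h.2 h.2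

def F_3745 : FrX :=
  ⟨0x482000044040440000c2040020009000182040020002080100100208014504004400000081040220800020808001802100011022908000000802808082,
    0xa0, 1, 0x4153748498a5, 6,
    [(0xa0, 1), (0x538690a2, 4), (0x548790a1, 4), (0x21437690, 4), (0x538690a2, 4), (0x548790a1, 4)],
    [(0x4153748498a5, 6), (0x207396a5, 4), (0x407391a8, 4), (0x42617385, 4), (0x207396a5, 4), (0x407391a8, 4)]⟩

def c_3745 : frmChk tA tA F_3745 = true := by decide +kernel

def r_3745_0 : chkL rootF engF2 tA tA sA_365 sA_365 4 F_3745 [(511, 0, 0)]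
    0x56158760328360780f = true := by
  decide +kernel

theorem f_3745 (h : TabsF) : FrameF repsF 365 F_3745.f :=
  frame_of rfl c_3745 (runs_of engOK r_3745_0) (by decide +kernel) h.1 h.1

def F_3746 : FrX :=
  ⟨0x482000044040440000c2040020009000182040020002080100100208024022008400100081040220800020808001140100002008490021404022200004,
    0xa0, 1, 0x314260768297a4, 7,
    [(0xa0, 1), (0x538690a2, 4), (0x548790a1, 4), (0x21437690, 4), (0x538690a2, 4), (0x548790a1, 4)],
    [(0x314260768297a4, 7), (0x718695a4, 4), (0x206397a5, 4), (0x204195a7, 4), (0x206397a5, 4), (0x548391a7, 4), (0x207486a1, 4), (0x204195a7, 4), (0x207486a1, 4), (0x416375a9, 4), (0x204195a7, 4), (0x548391a7, 4)]⟩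

def c_3746 : frmChk tA tB F_3746 = true := by decide +kernel

def r_3746_0 : chkL rootF engF2 tA tB sA_365 sB_365 4 F_3746 [(511, 0, 0)]
    0x41707896 = true := by
  decide +kernel

theorem f_3746 (h : TabsF) : FrameF repsF 365 F_3746.f :=
  frame_of rfl c_3746 (runs_of engOK r_3746_0) (by decide +kernel) h.1 h.2

def F_3747 : FrX :=
  ⟨0x482000044040440000c20400200090001820400020804400022000040400c108080200108100108280002010900124008000800a041000001200808280,
    0xa0, 1, 0x21638198a7, 5,
    [(0xa0, 1), (0x538690a2, 4), (0x548790a1, 4), (0x21437690, 4), (0x538690a2, 4), (0x548790a1, 4)],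
    [(0x21638198a7, 5), (0x106394a5, 4), (0x547280a3, 4), (0x437296a5, 4), (0x547280a3, 4), (0x438195a6, 4), (0x10647293, 4), (0x437296a5, 4), (0x10647293, 4), (0x538096a4, 4), (0x437296a5, 4), (0x438195a6, 4)]⟩

def c_3747 : frmChk tA tB F_3747 = true := by decide +kernel

def r_3747_0 : chkL rootF engF2 tA tB sA_365 sB_365 4 F_3747 [(511, 0, 0)]
    0x105c560aea2 = true := by
  decide +kernel

theorem f_3747 (h : TabsF) : FrameF repsF 365 F_3747.f :=
  frame_of rfl c_3747 (runs_of engOK r_3747_0) (by decide +kernel) h.1 h.2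

theorem cl_365 (h : TabsF) : ∀ f ∈ fr_365, FrameF repsF 365 f :=
  List.forall_mem_cons.2 ⟨f_3720 h, List.forall_mem_cons.2 ⟨f_3721 h, List.forall_mem_cons.2 ⟨f_3722 h, List.forall_mem_cons.2 ⟨f_3723 h, List.forall_mem_cons.2 ⟨f_3724 h, List.forall_mem_cons.2 ⟨f_3725 h, List.forall_mem_cons.2 ⟨f_3726 h, List.forall_mem_cons.2 ⟨f_3727 h, List.forall_mem_cons.2 ⟨f_3728 h, List.forall_mem_cons.2 ⟨f_3729 h, List.forall_mem_cons.2 ⟨f_3730 h, List.forall_mem_cons.2 ⟨f_3731 h, List.forall_mem_cons.2 ⟨f_3732 h, List.forall_mem_cons.2 ⟨f_3733 h, List.forall_mem_cons.2 ⟨f_3734 h, List.forall_mem_cons.2 ⟨f_3735 h, List.forall_mem_cons.2 ⟨f_3736 h, List.forall_mem_cons.2 ⟨f_3737 h, List.forall_mem_cons.2 ⟨f_3738 h, List.forall_mem_cons.2 ⟨f_3739 h, List.forall_mem_cons.2 ⟨f_3740 h, List.forall_mem_cons.2 ⟨f_3741 h, List.forall_mem_cons.2 ⟨f_3742 h, List.forall_mem_cons.2 ⟨f_3743 h, List.forall_mem_cons.2 ⟨f_3744 h, List.forall_mem_cons.2 ⟨f_3745 h, List.forall_mem_cons.2 ⟨f_3746 h, List.forall_mem_cons.2 ⟨f_3747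 h,
    fun _ h0 => absurd h0 List.not_mem_nil⟩⟩⟩⟩⟩⟩⟩⟩⟩⟩⟩⟩⟩⟩⟩⟩⟩⟩⟩⟩⟩⟩⟩⟩⟩⟩⟩⟩

def F_3748 : FrX :=
  ⟨0x2002000900044004000e02041000141000800040800801014008028082000240200042000888000224000100800048100100000a5400800800502a024000,
    0xa3, 1, 0x304351648696a0, 7,
    [(0xa3, 1), (0x208693a5, 4), (0x10548793, 4), (0x217693a4, 4), (0x208693a5, 4), (0x10548793, 4)],
    [(0x304351648696a0, 7), (0x418390a2, 4), (0x617083a5, 4), (0x52648397, 4), (0x418390a2, 4), (0x617083a5, 4)]⟩

def c_3748 : frmChk tA tA F_3748 = true := by decide +kernel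

def r_3748_0 : chkL rootF engF2 tA tA sA_366 sA_366 4 F_3748 [(511, 0, 0)]
    0x5856298a618364c81b03c4e = true := by
  decide +kernel

theorem f_3748 (h : TabsF) : FrameF repsF 366 F_3748.f :=
  frame_of rfl c_3748 (runs_of engOK r_3748_0) (by decide +kernel) h.1 h.1

def F_3749 : FrX :=
  ⟨0x80080a000804040e00002101002001000002040881011001020010020042002008054000c00041020000000888040140092800214000a88002200400100,
    0xa6, 1, 0x21627396a5, 5,
    [(0xa6, 1), (0x205396a8, 4), (0x10548796, 4), (0x214396a7, 4), (0x205396a8, 4), (0x10548796, 4)],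
    [(0x21627396a5, 5), (0x608497a3, 4), (0x205193a4, 4), (0x518794a3, 4), (0x205193a4, 4), (0x627394a8, 4), (0x51607498, 4), (0x518794a3, 4), (0x51607498, 4), (0x204387a9, 4), (0x518794a3, 4), (0x627394a8, 4)]⟩

def c_3749 : frmChk tA tB F_3749 = true := by decide +kernel

def r_3749_0 : chkL rootF engF2 tA tB sA_366 sB_366 4 F_3749 [(511, 0, 0)]
    0x562 = true := by
  decide +kernel

theorem f_3749 (h : TabsF) : FrameF repsF 366 F_3749.f :=
  frame_of rfl c_3749 (runs_of engOK r_3749_0) (by decide +kernel) h.1 h.2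

def F_3750 : FrX :=
  ⟨0x482000044040440000c204002000900018204002000208010010520008042200800200008104022080002080800114010000081510800000180a800500,
    0xa0, 1, 0x4151648393a1, 6,
    [(0xa0, 1), (0x538690a2, 4), (0x548790a1, 4), (0x21437690, 4), (0x538690a2, 4), (0x548790a1, 4)],
    [(0x4151648393a1, 6), (0x20318594, 4), (0x647385a0, 4), (0x718596a2, 4), (0x20318594, 4), (0x647385a0, 4)]⟩

def c_3750 : frmChk tA tA F_3750 = true := by decide +kernel

def r_3750_0 : chkL rootF engF2 tA tA sA_366 sA_366 4 F_3750 [(511, 0, 0)]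
    0x42d03c0f09c0f2941e1944711ce1 = true := by
  decide +kernel

theorem f_3750 (h : TabsF) : FrameF repsF 366 F_3750.f :=
  frame_of rfl c_3750 (runs_of engOK r_3750_0) (by decide +kernel) h.1 h.1

def F_3751 : FrX :=
  ⟨0x80080a000804040e000021010020010000020408a0001004180024800480202000080400411281020020000102002408004000103000400d000c0808800,
    0xa6, 1, 0x42647496a6, 5,
    [(0xa6, 1), (0x205396a8, 4), (0x10548796, 4), (0x214396a7, 4), (0x205396a8, 4), (0x10548796, 4)],
    [(0x42647496a6, 5), (0x406587a3, 4), (0x107592a6, 4), (0x658392a7, 4), (0x107592a6, 4), (0x416385a7, 4), (0x407392a8, 4), (0x658392a7, 4), (0x407392a8, 4), (0x107683a5, 4), (0x658392a7, 4), (0x416385a7, 4)]⟩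

def c_3751 : frmChk tA tB F_3751 = true := by decide +kernel

def r_3751_0 : chkL rootF engF2 tA tB sA_366 sB_366 4 F_3751 [(511, 0, 0)]
    0x109c0f = true := by
  decide +kernel

theorem f_3751 (h : TabsF) : FrameF repsF 366 F_3751.f :=
  frame_of rfl c_3751 (runs_of engOK r_3751_0) (by decide +kernel) h.1 h.2

def F_3752 : FrX :=
  ⟨0x2002000900044004000e0204100014100080004080100102101020001820210100020402001920002402041800000000a040200180201000c00020081801,
    0xa3, 1, 0x3262768292a3, 6,
    [(0xa3, 1), (0x208693a5, 4), (0x10548793, 4), (0x217693a4, 4), (0x208693a5, 4), (0x10548793, 4)],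
    [(0x3262768292a3, 6), (0x768290a5, 4), (0x10546382, 4), (0x738291a4, 4), (0x768290a5, 4), (0x10546382, 4)]⟩

def c_3752 : frmChk tA tA F_3752 = true := by decide +kernel

def r_3752_0 : chkL rootF engF2 tA tA sA_366 sA_366 4 F_3752 [(511, 0, 0)]
    0x5075174409c1b06ce4 = true := by
  decide +kernel

theorem f_3752 (h : TabsF) : FrameF repsF 366 F_3752.f :=
  frame_of rfl c_3752 (runs_of engOK r_3752_0) (by decide +kernel) h.1 h.1

def F_3753 : FrX :=
  ⟨0x1c2102000004044000002041000101000082040888081000001020400400102000604060011280020020418102000408048000103200800d00010080800,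
    0x0, 0, 0x4376, 2,
    [(0x0, 0), (0x205386a9, 4), (0x105487a9, 4), (0x214376a9, 4), (0x205386a9, 4), (0x105487a9, 4)],
    [(0x4376, 2), (0x20657483, 4), (0x105376a9, 4), (0x657384a9, 4), (0x105376a9, 4), (0x21647385, 4), (0x204387a9, 4), (0x657384a9, 4), (0x204387a9, 4), (0x10637584, 4), (0x657384a9, 4), (0x21647385, 4)]⟩

def c_3753 : frmChk tA tB F_3753 = true := by decide +kernel

def r_3753_0 : chkL rootF engF2 tA tB sA_366 sB_366 4 F_3753 [(511, 0, 0)]
    0x1 = true := by
  decide +kernel

theorem f_3753 (h : TabsF) : FrameF repsF 366 F_3753.f :=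
  frame_of rfl c_3753 (runs_of engOK r_3753_0) (by decide +kernel) h.1 h.2

def F_3754 : FrX :=
  ⟨0x482000044040440000c204002000900018204002000208010010040400940200900200008104022080002080800114010000201810800800e004808040,
    0xa0, 1, 0x20315164768297a0, 8,
    [(0xa0, 1), (0x538690a2, 4), (0x548790a1, 4), (0x21437690, 4), (0x538690a2, 4), (0x548790a1, 4)],
    [(0x20315164768297a0, 8), (0x607193a8, 4), (0x426397a5, 4), (0x10427693, 4), (0x426397a5, 4), (0x30768591, 4), (0x426170a8, 4), (0x10427693, 4), (0x426170a8, 4), (0x107396a5, 4), (0x10427693, 4), (0x30768591, 4)]⟩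

def c_3754 : frmChk tA tB F_3754 = true := by decide +kernel

def r_3754_0 : chkL rootF engF2 tA tB sA_366 sB_366 4 F_3754 [(511, 0, 0)]
    0x1 = true := by
  decide +kernel

theorem f_3754 (h : TabsF) : FrameF repsF 366 F_3754.f :=
  frame_of rfl c_3754 (runs_of engOK r_3754_0) (by decide +kernel) h.1 h.2

def F_3755 : FrX :=
  ⟨0x2002000900044004000e020410001410008000408008010410080240020002402000c8000c0008100842200a0010081000040200070002200400c0012020,
    0xa3, 1, 0x4060748092a5, 6,
    [(0xa3, 1), (0x208693a5, 4), (0x10548793, 4), (0x217693a4, 4), (0x208693a5, 4), (0x10548793, 4)],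
    [(0x4060748092a5, 6), (0x437698a0, 4), (0x405281a7, 4), (0x526374a0, 4), (0x405281a7, 4), (0x307491a6, 4), (0x52647398, 4), (0x526374a0, 4), (0x52647398, 4), (0x637081a4, 4), (0x526374a0, 4), (0x307491a6, 4)]⟩

def c_3755 : frmChk tA tB F_3755 = true := by decide +kernel

def r_3755_0 : chkL rootF engF2 tA tB sA_366 sB_366 4 F_3755 [(511, 0, 0)]
    0x1 = true := by
  decide +kernel

theorem f_3755 (h : TabsF) : FrameF repsF 366 F_3755.f :=
  frame_of rfl c_3755 (runs_of engOK r_3755_0) (by decide +kernel) h.1 h.2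

def F_3756 : FrX :=
  ⟨0x80080a000804040e000021010020010000020408a00002080c0104100480202000081000400030112000800604010400200488080001200440210080041,
    0xa6, 1, 0x20436274a6, 5,
    [(0xa6, 1), (0x205396a8, 4), (0x10548796, 4), (0x214396a7, 4), (0x205396a8, 4), (0x10548796, 4)],
    [(0x20436274a6, 5), (0x546290a8, 4), (0x21758390, 4), (0x617490a3, 4), (0x546290a8, 4), (0x21758390, 4)]⟩

def c_3756 : frmChk tA tA F_3756 = true := by decide +kernel

def r_3756_0 : chkL rootF engF2 tA tA sA_366 sA_366 4 F_3756 [(511, 0, 0)]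
    0x10f01b12e2ab82290b6510781d854d1a447153245d105c12c8b12c47 = true := by
  decide +kernel

theorem f_3756 (h : TabsF) : FrameF repsF 366 F_3756.f :=
  frame_of rfl c_3756 (runs_of engOK r_3756_0) (by decide +kernel) h.1 h.1

def F_3757 : FrX :=
  ⟨0x80080a000804040e000021010020010000020408880810200a0000420040084004404000880040408030000203000140100182004002820002111000120,
    0xa6, 1, 0x205082a0, 4,
    [(0xa6, 1), (0x205396a8, 4), (0x10548796, 4), (0x214396a7, 4), (0x205396a8, 4), (0x10548796, 4)],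
    [(0x205082a0, 4), (0x406372a8, 4), (0x427695a1, 4), (0x30647295, 4), (0x427695a1, 4), (0x20647381, 4), (0x436095a8, 4), (0x30647295, 4), (0x436095a8, 4), (0x306274a1, 4), (0x30647295, 4), (0x20647381, 4)]⟩

def c_3757 : frmChk tA tB F_3757 = true := by decide +kernel

def r_3757_0 : chkL rootF engF2 tA tB sA_366 sB_366 4 F_3757 [(511, 0, 0)]
    0x1 = true := by
  decide +kernel

theorem f_3757 (h : TabsF) : FrameF repsF 366 F_3757.f :=
  frame_of rfl c_3757 (runs_of engOK r_3757_0) (by decide +kernel) h.1 h.2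

def F_3758 : FrX :=
  ⟨0x2002000900044004000e020410001410008000408080002c200120000880a0020000022200000540140404404000004080402080802002040010100a2820,
    0xa3, 1, 0x30415381a3, 5,
    [(0xa3, 1), (0x208693a5, 4), (0x10548793, 4), (0x217693a4, 4), (0x208693a5, 4), (0x10548793, 4)],
    [(0x30415381a3, 5), (0x326495a0, 4), (0x10748395, 4), (0x768295a1, 4), (0x326495a0, 4), (0x10748395, 4)]⟩

def c_3758 : frmChk tA tA F_3758 = true := by decide +kernel

def r_3758_0 : chkL rootF engF2 tA tA sA_366 sA_366 4 F_3758 [(511, 0, 0)]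
    0x4599268a05c5a0e42b = true := by
  decide +kernel

theorem f_3758 (h : TabsF) : FrameF repsF 366 F_3758.f :=
  frame_of rfl c_3758 (runs_of engOK r_3758_0) (by decide +kernel) h.1 h.1

def F_3759 : FrX :=
  ⟨0x80080a000804040e000021010020010000020408a000040420002480088008100810040004801501004800060402000a004008001080081100100440820,
    0xa6, 1, 0x4050738194a6, 6,
    [(0xa6, 1), (0x205396a8, 4), (0x10548796, 4), (0x214396a7, 4), (0x205396a8, 4), (0x10548796, 4)],
    [(0x4050738194a6, 6), (0x435291a7, 4), (0x608594a3, 4), (0x436071a9, 4), (0x608594a3, 4), (0x417382a9, 4), (0x526097a1, 4), (0x436071a9, 4), (0x526097a1, 4), (0x718593a4, 4), (0x436071a9, 4), (0x417382a9, 4)]⟩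

def c_3759 : frmChk tA tB F_3759 = true := by decide +kernel

def r_3759_0 : chkL rootF engF2 tA tB sA_366 sB_366 4 F_3759 [(511, 0, 0)]
    0x51a4691a03e32 = true := by
  decide +kernel

theorem f_3759 (h : TabsF) : FrameF repsF 366 F_3759.f :=
  frame_of rfl c_3759 (runs_of engOK r_3759_0) (by decide +kernel) h.1 h.2

def F_3760 : FrX :=
  ⟨0x482000044040440000c20400200090001820400020205000080800040101081000290200020080800c0420604000400218010006082800100100008048,
    0xa0, 1, 0x304353768395a2, 7,
    [(0xa0, 1), (0x538690a2, 4), (0x548790a1, 4), (0x21437690, 4), (0x538690a2, 4), (0x548790a1, 4)],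
    [(0x304353768395a2, 7), (0x508796a3, 4), (0x31427690, 4), (0x42708596, 4), (0x31427690, 4), (0x708695a1, 4), (0x427580a3, 4), (0x42708596, 4), (0x427580a3, 4), (0x31608597, 4), (0x42708596, 4), (0x708695a1, 4)]⟩

def c_3760 : frmChk tA tB F_3760 = true := by decide +kernel

def r_3760_0 : chkL rootF engF2 tA tB sA_366 sB_366 4 F_3760 [(511, 0, 0)]
    0x41e = true := by
  decide +kernel

theorem f_3760 (h : TabsF) : FrameF repsF 366 F_3760.f :=
  frame_of rfl c_3760 (runs_of engOK r_3760_0) (by decide +kernel) h.1 h.2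

def F_3761 : FrX :=
  ⟨0x600020801080810000c0040180410101001004010070100000004222000800048018001000808208004100101101802884000100010004018100051020,
    0xa0, 1, 0x30637587a5, 5,
    [(0xa0, 1), (0x637584a2, 4), (0x547690a1, 4), (0x64758390, 4), (0x547690a1, 4), (0x21647385, 4), (0x438690a2, 4), (0x64758390, 4), (0x438690a2, 4), (0x657483a1, 4), (0x64758390, 4), (0x21647385, 4)],
    [(0x30637587a5, 5), (0x325097a6, 4), (0x318597a4, 4), (0x21648097, 4), (0x325097a6, 4), (0x318597a4, 4)]⟩

def c_3761 : frmChk tB tA F_3761 = true := by decide +kernel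

def r_3761_0 : chkL rootF engF2 tB tA sB_366 sA_366 4 F_3761 [(511, 0, 0)]
    0x1 = true := by
  decide +kernel

theorem f_3761 (h : TabsF) : FrameF repsF 366 F_3761.f :=
  frame_of rfl c_3761 (runs_of engOK r_3761_0) (by decide +kernel) h.2 h.1

def F_3762 : FrX :=
  ⟨0x1001040012008080000e0084080041000810100004202010018802200200002044020202000070000820480410000020490080080180444001000c000210,
    0xa3, 1, 0x3243526272a4, 6,
    [(0xa3, 1), (0x207584a6, 4), (0x10547693, 4), (0x647593a8, 4), (0x10547693, 4), (0x216485a7, 4), (0x208693a4, 4), (0x647593a8, 4), (0x208693a4, 4), (0x106574a8, 4), (0x647593a8, 4), (0x216485a7, 4)],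
    [(0x3243526272a4, 6), (0x546370a8, 4), (0x106592a3, 4), (0x638492a5, 4), (0x106592a3, 4), (0x647183a5, 4), (0x708592a4, 4), (0x638492a5, 4), (0x708592a4, 4), (0x105384a6, 4), (0x638492a5, 4), (0x647183a5, 4)]⟩

def c_3762 : frmChk tB tB F_3762 = true := by decide +kernel

def r_3762_0 : chkL rootF engF2 tB tB sB_366 sB_366 4 F_3762 [(511, 0, 0)]
    0x106c0f03c0f = true := by
  decide +kernel

theorem f_3762 (h : TabsF) : FrameF repsF 366 F_3762.f :=
  frame_of rfl c_3762 (runs_of engOK r_3762_0) (by decide +kernel) h.2 h.2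

def F_3763 : FrX :=
  ⟨0x1001040012008080000e008408004100081010000421000040414001010000400e2040002020200100204818500008800004000b0202008406010000000c,
    0xa3, 1, 0x64748793a8, 5,
    [(0xa3, 1), (0x207584a6, 4), (0x10547693, 4), (0x647593a8, 4), (0x10547693, 4), (0x216485a7, 4), (0x208693a4, 4), (0x647593a8, 4), (0x208693a4, 4), (0x106574a8, 4), (0x647593a8, 4), (0x216485a7, 4)],
    [(0x64748793a8, 5), (0x206395a4, 4), (0x106375a8, 4), (0x21638497, 4), (0x206395a4, 4), (0x106375a8, 4)]⟩

def c_3763 : frmChk tB tA F_3763 = true := by decide +kernel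

def r_3763_0 : chkL rootF engF2 tB tA sB_366 sA_366 4 F_3763 [(511, 0, 0)]
    0x1 = true := by
  decide +kernel

theorem f_3763 (h : TabsF) : FrameF repsF 366 F_3763.f :=
  frame_of rfl c_3763 (runs_of engOK r_3763_0) (by decide +kernel) h.2 h.1

def F_3764 : FrX :=
  ⟨0x1001040012008080000e0084080041000810100004200810010802200200006044020202000070002020180c100000400900800200804408100008001218,
    0xa3, 1, 0x657390a3, 4,
    [(0xa3, 1), (0x207584a6, 4), (0x10547693, 4), (0x647593a8, 4), (0x10547693, 4), (0x216485a7, 4), (0x208693a4, 4), (0x647593a8, 4), (0x208693a4, 4), (0x106574a8, 4), (0x647593a8, 4), (0x216485a7, 4)],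
    [(0x657390a3, 4), (0x638492a5, 4), (0x53647091, 4), (0x546370a8, 4), (0x53647091, 4), (0x215486a3, 4), (0x708592a4, 4), (0x546370a8, 4), (0x708592a4, 4), (0x436591a8, 4), (0x546370a8, 4), (0x215486a3, 4)]⟩

def c_3764 : frmChk tB tB F_3764 = true := by decide +kernel

def r_3764_0 : chkL rootF engF2 tB tB sB_366 sB_366 4 F_3764 [(511, 0, 0)]
    0x41b = true := by
  decide +kernel

theorem f_3764 (h : TabsF) : FrameF repsF 366 F_3764.f :=
  frame_of rfl c_3764 (runs_of engOK r_3764_0) (by decide +kernel) h.2 h.2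

def F_3765 : FrX :=
  ⟨0x600020801080810000c00401804101010010040008402410000818020020200408001020802302080100001080018020840003000100040300080a1001,
    0xa0, 1, 0x41536287a0, 5,
    [(0xa0, 1), (0x637584a2, 4), (0x547690a1, 4), (0x64758390, 4), (0x547690a1, 4), (0x21647385, 4), (0x438690a2, 4), (0x64758390, 4), (0x438690a2, 4), (0x657483a1, 4), (0x64758390, 4), (0x21647385, 4)],
    [(0x41536287a0, 5), (0x527183a6, 4), (0x318290a4, 4), (0x21758390, 4), (0x318290a4, 4), (0x21647385, 4), (0x517290a6, 4), (0x21758390, 4), (0x517290a6, 4), (0x327581a4, 4), (0x21758390, 4), (0x21647385, 4)]⟩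

def c_3765 : frmChk tB tB F_3765 = true := by decide +kernel

def r_3765_0 : chkL rootF engF2 tB tB sB_366 sB_366 4 F_3765 [(511, 0, 0)]
    0x41d = true := by
  decide +kernel

theorem f_3765 (h : TabsF) : FrameF repsF 366 F_3765.f :=
  frame_of rfl c_3765 (runs_of engOK r_3765_0) (by decide +kernel) h.2 h.2

def F_3766 : FrX :=
  ⟨0x80080a000804040e000021010020010000020408900800004810084048200010108020100003802000a280108000104010068040000800a002040080030,
    0xa6, 1, 0x215464718797a2, 7,
    [(0xa6, 1), (0x205396a8, 4), (0x10548796, 4), (0x214396a7, 4), (0x205396a8, 4), (0x10548796, 4)],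
    [(0x215464718797a2, 7), (0x536294a0, 4), (0x64708195, 4), (0x32658194, 4), (0x64708195, 4), (0x426593a7, 4), (0x526381a0, 4), (0x32658194, 4), (0x526381a0, 4), (0x32547096, 4), (0x32658194, 4), (0x426593a7, 4)]⟩

def c_3766 : frmChk tA tB F_3766 = true := by decide +kernel

def r_3766_0 : chkL rootF engF2 tA tB sA_366 sB_366 4 F_3766 [(511, 0, 0)]
    0x447 = true := by
  decide +kernel

theorem f_3766 (h : TabsF) : FrameF repsF 366 F_3766.f :=
  frame_of rfl c_3766 (runs_of engOK r_3766_0) (by decide +kernel) h.1 h.2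

def F_3767 : FrX :=
  ⟨0x2002000900044004000e02041000141000800040810030081000802402004000220020204004005008000098808004800881000041000806011202001002,
    0xa3, 1, 0x3040546470a0, 6,
    [(0xa3, 1), (0x208693a5, 4), (0x10548793, 4), (0x217693a4, 4), (0x208693a5, 4), (0x10548793, 4)],
    [(0x3040546470a0, 6), (0x308597a2, 4), (0x638497a1, 4), (0x21546097, 4), (0x308597a2, 4), (0x638497a1, 4)]⟩

def c_3767 : frmChk tA tA F_3767 = true := by decide +kernel

def r_3767_0 : chkL rootF engF2 tA tA sA_366 sA_366 4 F_3767 [(511, 0, 0)]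
    0x48e0741d0f0360d41d = true := by
  decide +kernel

theorem f_3767 (h : TabsF) : FrameF repsF 366 F_3767.f :=
  frame_of rfl c_3767 (runs_of engOK r_3767_0) (by decide +kernel) h.1 h.1

def F_3768 : FrX :=
  ⟨0x2002000900044004000e02041000141000800040801002010400c00200812000004202050100004400a0600a001002040001111001200000405011800200,
    0xa3, 1, 0x103151617593a0, 7,
    [(0xa3, 1), (0x208693a5, 4), (0x10548793, 4), (0x217693a4, 4), (0x208693a5, 4), (0x10548793, 4)],
    [(0x103151617593a0, 7), (0x738495a2, 4), (0x105374a6, 4), (0x10547398, 4), (0x105374a6, 4), (0x54628793, 4), (0x108594a2, 4), (0x10547398, 4), (0x108594a2, 4), (0x437598a6, 4), (0x10547398, 4), (0x54628793, 4)]⟩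

def c_3768 : frmChk tA tB F_3768 = true := by decide +kernel

def r_3768_0 : chkL rootF engF2 tA tB sA_366 sB_366 4 F_3768 [(511, 0, 0)]
    0x1 = true := by
  decide +kernel

theorem f_3768 (h : TabsF) : FrameF repsF 366 F_3768.f :=
  frame_of rfl c_3768 (runs_of engOK r_3768_0) (by decide +kernel) h.1 h.2

def F_3769 : FrX :=
  ⟨0x482000044040440000c2040020009000182040014900000802000020004028208440000808401000080048822004802018000405040404010200008050,
    0xa0, 1, 0x4054627584a4, 6,
    [(0xa0, 1), (0x538690a2, 4), (0x548790a1, 4), (0x21437690, 4), (0x538690a2, 4), (0x548790a1, 4)],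
    [(0x4054627584a4, 6), (0x326470a5, 4), (0x204198a7, 4), (0x537098a2, 4), (0x204198a7, 4), (0x306175a2, 4), (0x526498a3, 4), (0x537098a2, 4), (0x526498a3, 4), (0x415372a0, 4), (0x537098a2, 4), (0x306175a2, 4)]⟩

def c_3769 : frmChk tA tB F_3769 = true := by decide +kernel

def r_3769_0 : chkL rootF engF2 tA tB sA_366 sB_366 4 F_3769 [(511, 0, 0)]
    0x11c80f = true := by
  decide +kernel

theorem f_3769 (h : TabsF) : FrameF repsF 366 F_3769.f :=
  frame_of rfl c_3769 (runs_of engOK r_3769_0) (by decide +kernel) h.1 h.2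

def F_3770 : FrX :=
  ⟨0x1001040012008080000e00840800410008101000042d0000402001000000088480410010220000080002200ac4000041001080290a200c00500000200004,
    0xa3, 1, 0x21316476a8, 5,
    [(0xa3, 1), (0x207584a6, 4), (0x10547693, 4), (0x647593a8, 4), (0x10547693, 4), (0x216485a7, 4), (0x208693a4, 4), (0x647593a8, 4), (0x208693a4, 4), (0x106574a8, 4), (0x647593a8, 4), (0x216485a7, 4)],
    [(0x21316476a8, 5), (0x105298a7, 4), (0x306598a4, 4), (0x31627498, 4), (0x105298a7, 4), (0x306598a4, 4)]⟩

def c_3770 : frmChk tB tA F_3770 = true := by decide +kernel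

def r_3770_0 : chkL rootF engF2 tB tA sB_366 sA_366 4 F_3770 [(511, 0, 0)]
    0x10f0390e48e = true := by
  decide +kernel

theorem f_3770 (h : TabsF) : FrameF repsF 366 F_3770.f :=
  frame_of rfl c_3770 (runs_of engOK r_3770_0) (by decide +kernel) h.2 h.1

def F_3771 : FrX :=
  ⟨0x1001040012008080000e008408004100081010000440080e001010000420201000800220408030200008080440081000601000a011000440408009800040,
    0xa3, 1, 0x1031435374a3, 6,
    [(0xa3, 1), (0x207584a6, 4), (0x10547693, 4), (0x647593a8, 4), (0x10547693, 4), (0x216485a7, 4), (0x208693a4, 4), (0x647593a8, 4), (0x208693a4, 4), (0x106574a8, 4), (0x647593a8, 4), (0x216485a7, 4)],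
    [(0x1031435374a3, 6), (0x214087a6, 4), (0x31607495, 4), (0x407695a8, 4), (0x31607495, 4), (0x327684a0, 4), (0x218695a7, 4), (0x407695a8, 4), (0x218695a7, 4), (0x316470a8, 4), (0x407695a8, 4), (0x327684a0, 4)]⟩

def c_3771 : frmChk tB tB F_3771 = true := by decide +kernel

def r_3771_0 : chkL rootF engF2 tB tB sB_366 sB_366 4 F_3771 [(511, 0, 0)]
    0x1 = true := by
  decide +kernel

theorem f_3771 (h : TabsF) : FrameF repsF 366 F_3771.f :=
  frame_of rfl c_3771 (runs_of engOK r_3771_0) (by decide +kernel) h.2 h.2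

def F_3772 : FrX :=
  ⟨0x600020801080810000c004018041010100100400120002800003004000940402400080402020000809600010a020020208080c00002840400040200201,
    0xa0, 1, 0x30548293a6, 5,
    [(0xa0, 1), (0x637584a2, 4), (0x547690a1, 4), (0x64758390, 4), (0x547690a1, 4), (0x21647385, 4), (0x438690a2, 4), (0x64758390, 4), (0x438690a2, 4), (0x657483a1, 4), (0x64758390, 4), (0x21647385, 4)],
    [(0x30548293a6, 5), (0x527483a9, 4), (0x315460a7, 4), (0x607492a5, 4), (0x315460a7, 4), (0x428197a5, 4), (0x608395a2, 4), (0x607492a5, 4), (0x608395a2, 4), (0x317592a4, 4), (0x607492a5, 4), (0x428197a5, 4)]⟩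

def c_3772 : frmChk tB tB F_3772 = true := by decide +kernel

def r_3772_0 : chkL rootF engF2 tB tB sB_366 sB_366 4 F_3772 [(511, 0, 0)]
    0x1 = true := by
  decide +kernel

theorem f_3772 (h : TabsF) : FrameF repsF 366 F_3772.f :=
  frame_of rfl c_3772 (runs_of engOK r_3772_0) (by decide +kernel) h.2 h.2

def F_3773 : FrX :=
  ⟨0x80080a000804040e000021010020010000020408a00010020800248004802020000814004000550380000012020024080040080010004001008a6840000,
    0xa6, 1, 0x41537691a4, 5,
    [(0xa6, 1), (0x205396a8, 4), (0x10548796, 4), (0x214396a7, 4), (0x205396a8, 4), (0x10548796, 4)],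
    [(0x41537691a4, 5), (0x206375a8, 4), (0x417690a3, 4), (0x416385a7, 4), (0x417690a3, 4), (0x658392a7, 4), (0x204187a5, 4), (0x416385a7, 4), (0x204187a5, 4), (0x738590a6, 4), (0x416385a7, 4), (0x658392a7, 4)]⟩

def c_3773 : frmChk tA tB F_3773 = true := by decide +kernel

def r_3773_0 : chkL rootF engF2 tA tB sA_366 sB_366 4 F_3773 [(511, 0, 0)]
    0x141c59 = true := by
  decide +kernel

theorem f_3773 (h : TabsF) : FrameF repsF 366 F_3773.f :=
  frame_of rfl c_3773 (runs_of engOK r_3773_0) (by decide +kernel) h.1 h.2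

def F_3774 : FrX :=
  ⟨0x482000044040440000c204002000900018204000082210800802008001010801002042000108002088062010000040024800800a200900100002000486,
    0xa0, 1, 0x3150627586a4, 6,
    [(0xa0, 1), (0x538690a2, 4), (0x548790a1, 4), (0x21437690, 4), (0x538690a2, 4), (0x548790a1, 4)],
    [(0x3150627586a4, 6), (0x657081a2, 4), (0x538094a7, 4), (0x217094a8, 4), (0x538094a7, 4), (0x106372a8, 4), (0x658294a1, 4), (0x217094a8, 4), (0x658294a1, 4), (0x215387a0, 4), (0x217094a8, 4), (0x106372a8, 4)]⟩

def c_3774 : frmChk tA tB F_3774 = true := by decide +kernel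

def r_3774_0 : chkL rootF engF2 tA tB sA_366 sB_366 4 F_3774 [(511, 0, 0)]
    0x10b82e0b836 = true := by
  decide +kernel

theorem f_3774 (h : TabsF) : FrameF repsF 366 F_3774.f :=
  frame_of rfl c_3774 (runs_of engOK r_3774_0) (by decide +kernel) h.1 h.2

def F_3775 : FrX :=
  ⟨0x600020801080810000c0040180410101001004010040024000004222002020048408002000220208004102000201802084000624010004030100028040,
    0xa0, 1, 0x324054718490a3, 7,
    [(0xa0, 1), (0x637584a2, 4), (0x547690a1, 4), (0x64758390, 4), (0x547690a1, 4), (0x21647385, 4), (0x438690a2, 4), (0x64758390, 4), (0x438690a2, 4), (0x657483a1, 4), (0x64758390, 4), (0x21647385, 4)],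
    [(0x324054718490a3, 7), (0x108593a6, 4), (0x42618097, 4), (0x104286a5, 4), (0x42618097, 4), (0x507386a1, 4), (0x426593a8, 4), (0x104286a5, 4), (0x426593a8, 4), (0x608197a5, 4), (0x104286a5, 4), (0x507386a1, 4)]⟩

def c_3775 : frmChk tB tB F_3775 = true := by decide +kernel

def r_3775_0 : chkL rootF engF2 tB tB sB_366 sB_366 4 F_3775 [(511, 0, 0)]
    0x1 = true := by
  decide +kernel

theorem f_3775 (h : TabsF) : FrameF repsF 366 F_3775.f :=
  frame_of rfl c_3775 (runs_of engOK r_3775_0) (by decide +kernel) h.2 h.2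

theorem cl_366 (h : TabsF) : ∀ f ∈ fr_366, FrameF repsF 366 f :=
  List.forall_mem_cons.2 ⟨f_3748 h, List.forall_mem_cons.2 ⟨f_3749 h, List.forall_mem_cons.2 ⟨f_3750 h, List.forall_mem_cons.2 ⟨f_3751 h, List.forall_mem_cons.2 ⟨f_3752 h, List.forall_mem_cons.2 ⟨f_3753 h, List.forall_mem_cons.2 ⟨f_3754 h, List.forall_mem_cons.2 ⟨f_3755 h, List.forall_mem_cons.2 ⟨f_3756 h, List.forall_mem_cons.2 ⟨f_3757 h, List.forall_mem_cons.2 ⟨f_3758 h, List.forall_mem_cons.2 ⟨f_3759 h, List.forall_mem_cons.2 ⟨f_3760 h, List.forall_mem_cons.2 ⟨f_3761 h, List.forall_mem_cons.2 ⟨f_3762 h, List.forall_mem_cons.2 ⟨f_3763 h, List.forall_mem_cons.2 ⟨f_3764 h, List.forall_mem_cons.2 ⟨f_3765 h, List.forall_mem_cons.2 ⟨f_3766 h, List.forall_mem_cons.2 ⟨f_3767 h, List.forall_mem_cons.2 ⟨f_3768 h, List.forall_mem_cons.2 ⟨f_3769 h, List.forall_mem_cons.2 ⟨f_3770 h, List.forall_mem_cons.2 ⟨f_3771 h, List.forall_mem_cons.2 ⟨f_3772 h, List.forall_mem_cons.2 ⟨f_3773 h, List.forall_mem_cons.2 ⟨f_3774 h, List.forall_mem_cons.2 ⟨f_3775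 h,
    fun _ h0 => absurd h0 List.not_mem_nil⟩⟩⟩⟩⟩⟩⟩⟩⟩⟩⟩⟩⟩⟩⟩⟩⟩⟩⟩⟩⟩⟩⟩⟩⟩⟩⟩⟩

def F_3776 : FrX :=
  ⟨0x2002000900044004000e02041000141000800040801140401000c00201000080020128020001040002038008044000140001810800480808002002202104,
    0xa3, 1, 0x102031527083a0, 7,
    [(0xa3, 1), (0x208693a5, 4), (0x10548793, 4), (0x217693a4, 4), (0x208693a5, 4), (0x10548793, 4)],
    [(0x102031527083a0, 7), (0x608197a5, 4), (0x204197a3, 4), (0x53628497, 4), (0x608197a5, 4), (0x204197a3, 4)]⟩

def c_3776 : frmChk tA tA F_3776 = true := by decide +kernel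

def r_3776_0 : chkL rootF engF2 tA tA sA_367 sA_367 4 F_3776 [(511, 0, 0)]
    0x1 = true := by
  decide +kernel

theorem f_3776 (h : TabsF) : FrameF repsF 367 F_3776.f :=
  frame_of rfl c_3776 (runs_of engOK r_3776_0) (by decide +kernel) h.1 h.1

def F_3777 : FrX :=
  ⟨0x80080a000804040e000021010020010000020408a0004100480088100224000020011000041080842020200042010101010010040400108004129080080,
    0xa6, 1, 0x10213242506175a0, 8,
    [(0xa6, 1), (0x205396a8, 4), (0x10548796, 4), (0x214396a7, 4), (0x205396a8, 4), (0x10548796, 4)],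
    [(0x10213242506175a0, 8), (0x207183a4, 4), (0x217395a6, 4), (0x32718095, 4), (0x217395a6, 4), (0x10326487, 4), (0x308295a4, 4), (0x32718095, 4), (0x308295a4, 4), (0x317280a6, 4), (0x32718095, 4), (0x10326487, 4)]⟩

def c_3777 : frmChk tA tB F_3777 = true := by decide +kernel

def r_3777_0 : chkL rootF engF2 tA tB sA_367 sB_367 4 F_3777 [(511, 0, 0)]
    0x427 = true := by
  decide +kernel

theorem f_3777 (h : TabsF) : FrameF repsF 367 F_3777.f :=
  frame_of rfl c_3777 (runs_of engOK r_3777_0) (by decide +kernel) h.1 h.2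

def F_3778 : FrX :=
  ⟨0x80080a000804040e000021010020010000020408a0000202800400420224000080500040202808840881001000081802000102004008000202114410010,
    0xa6, 1, 0x102132607691a2, 7,
    [(0xa6, 1), (0x205396a8, 4), (0x10548796, 4), (0x214396a7, 4), (0x205396a8, 4), (0x10548796, 4)],
    [(0x102132607691a2, 7), (0x325087a6, 4), (0x32548196, 4), (0x324071a9, 4), (0x325087a6, 4), (0x32548196, 4)]⟩

def c_3778 : frmChk tA tA F_3778 = true := by decide +kernel

def r_3778_0 : chkL rootF engF2 tA tA sA_367 sA_367 4 F_3778 [(511, 0, 0)]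
    0x115863c2a8a4645555388 = true := by
  decide +kernel

theorem f_3778 (h : TabsF) : FrameF repsF 367 F_3778.f :=
  frame_of rfl c_3778 (runs_of engOK r_3778_0) (by decide +kernel) h.1 h.1

def F_3779 : FrX :=
  ⟨0x482000044040440000c2040020009000182040008010808004201010080042020200420000084042111040040400108080090040090080004000200268,
    0xa0, 1, 0x2051608091a0, 6,
    [(0xa0, 1), (0x538690a2, 4), (0x548790a1, 4), (0x21437690, 4), (0x538690a2, 4), (0x548790a1, 4)],
    [(0x2051608091a0, 6), (0x326471a0, 4), (0x417285a9, 4), (0x42637185, 4), (0x417285a9, 4), (0x42617390, 4), (0x436285a0, 4), (0x42637185, 4), (0x436285a0, 4), (0x216374a9, 4), (0x42637185, 4), (0x42617390, 4)]⟩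

def c_3779 : frmChk tA tB F_3779 = true := by decide +kernel

def r_3779_0 : chkL rootF engF2 tA tB sA_367 sB_367 4 F_3779 [(511, 0, 0)]
    0x1 = true := by
  decide +kernel

theorem f_3779 (h : TabsF) : FrameF repsF 367 F_3779.f :=
  frame_of rfl c_3779 (runs_of engOK r_3779_0) (by decide +kernel) h.1 h.2

def F_3780 : FrX :=
  ⟨0x80080a000804040e00002101002001000002040882022000060004100014010048081001081002000800081244100801012001080508080404008400200,
    0xa6, 1, 0x4052618491a0, 6,
    [(0xa6, 1), (0x205396a8, 4), (0x10548796, 4), (0x214396a7, 4), (0x205396a8, 4), (0x10548796, 4)],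
    [(0x4052618491a0, 6), (0x317280a5, 4), (0x647182a9, 4), (0x30647281, 4), (0x647182a9, 4), (0x20738195, 4), (0x106483a5, 4), (0x30647281, 4), (0x106483a5, 4), (0x213087a9, 4), (0x30647281, 4), (0x20738195, 4)]⟩

def c_3780 : frmChk tA tB F_3780 = true := by decide +kernel

def r_3780_0 : chkL rootF engF2 tA tB sA_367 sB_367 4 F_3780 [(511, 0, 0)]
    0x122ca9 = true := by
  decide +kernel

theorem f_3780 (h : TabsF) : FrameF repsF 367 F_3780.f :=
  frame_of rfl c_3780 (runs_of engOK r_3780_0) (by decide +kernel) h.1 h.2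

def F_3781 : FrX :=
  ⟨0x2002000900044004000e02041000141000800040810000042880802401040081040002001001080440800805040008800041000840440000501400220300,
    0xa3, 1, 0x213143526475a6, 7,
    [(0xa3, 1), (0x208693a5, 4), (0x10548793, 4), (0x217693a4, 4), (0x208693a5, 4), (0x10548793, 4)],
    [(0x213143526475a6, 7), (0x507492a8, 4), (0x30768192, 4), (0x536492a1, 4), (0x507492a8, 4), (0x30768192, 4)]⟩

def c_3781 : frmChk tA tA F_3781 = true := by decide +kernel

def r_3781_0 : chkL rootF engF2 tA tA sA_367 sA_367 4 F_3781 [(511, 0, 0)]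
    0x109c351389a6603532ac803c0f1982b = true := by
  decide +kernel

theorem f_3781 (h : TabsF) : FrameF repsF 367 F_3781.f :=
  frame_of rfl c_3781 (runs_of engOK r_3781_0) (by decide +kernel) h.1 h.1

def F_3782 : FrX :=
  ⟨0x482000044040440000c2040020009000182040000901004000a00080004084004880820004900001051010100100802080080110048404008000800409,
    0xa0, 1, 0x2132426592a1, 6,
    [(0xa0, 1), (0x538690a2, 4), (0x548790a1, 4), (0x21437690, 4), (0x538690a2, 4), (0x548790a1, 4)],
    [(0x2132426592a1, 6), (0x51768390, 4), (0x426375a0, 4), (0x42537681, 4), (0x426375a0, 4), (0x537186a9, 4), (0x31428590, 4), (0x42537681, 4), (0x31428590, 4), (0x657381a0, 4), (0x42537681, 4), (0x537186a9, 4)]⟩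

def c_3782 : frmChk tA tB F_3782 = true := by decide +kernel

def r_3782_0 : chkL rootF engF2 tA tB sA_367 sB_367 4 F_3782 [(511, 0, 0)]
    0x111c1e = true := by
  decide +kernel

theorem f_3782 (h : TabsF) : FrameF repsF 367 F_3782.f :=
  frame_of rfl c_3782 (runs_of engOK r_3782_0) (by decide +kernel) h.1 h.2

def F_3783 : FrX :=
  ⟨0x80080a000804040e000021010020010000020408a0001004180024800480202000080400400085020020000912002408004008003000400d000c0808800,
    0xa6, 1, 0x42647496a6, 5,
    [(0xa6, 1), (0x205396a8, 4), (0x10548796, 4), (0x214396a7, 4), (0x205396a8, 4), (0x10548796, 4)],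
    [(0x42647496a6, 5), (0x406587a3, 4), (0x107592a6, 4), (0x658392a7, 4), (0x107592a6, 4), (0x416385a7, 4), (0x407392a8, 4), (0x658392a7, 4), (0x407392a8, 4), (0x107683a5, 4), (0x658392a7, 4), (0x416385a7, 4)]⟩

def c_3783 : frmChk tA tB F_3783 = true := by decide +kernel

def r_3783_0 : chkL rootF engF2 tA tB sA_367 sB_367 4 F_3783 [(511, 0, 0)]
    0x1 = true := by
  decide +kernel

theorem f_3783 (h : TabsF) : FrameF repsF 367 F_3783.f :=
  frame_of rfl c_3783 (runs_of engOK r_3783_0) (by decide +kernel) h.1 h.2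

def F_3784 : FrX :=
  ⟨0x2002000900044004000e0204100014100080004080100102101020001820210100020402000800402402041881000000a040208080201000c00020081801,
    0xa3, 1, 0x3262768292a3, 6,
    [(0xa3, 1), (0x208693a5, 4), (0x10548793, 4), (0x217693a4, 4), (0x208693a5, 4), (0x10548793, 4)],
    [(0x3262768292a3, 6), (0x768290a5, 4), (0x10546382, 4), (0x738291a4, 4), (0x768290a5, 4), (0x10546382, 4)]⟩

def c_3784 : frmChk tA tA F_3784 = true := by decide +kernel

def r_3784_0 : chkL rootF engF2 tA tA sA_367 sA_367 4 F_3784 [(511, 0, 0)]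
    0x4650f05a = true := by
  decide +kernel

theorem f_3784 (h : TabsF) : FrameF repsF 367 F_3784.f :=
  frame_of rfl c_3784 (runs_of engOK r_3784_0) (by decide +kernel) h.1 h.1

def F_3785 : FrX :=
  ⟨0x80080a000804040e000021010020010000020408a00010020800248004802020000814004000490100a00010821024080040080028004005000c0808040,
    0xa6, 1, 0x41537691a4, 5,
    [(0xa6, 1), (0x205396a8, 4), (0x10548796, 4), (0x214396a7, 4), (0x205396a8, 4), (0x10548796, 4)],
    [(0x41537691a4, 5), (0x206375a8, 4), (0x417690a3, 4), (0x416385a7, 4), (0x417690a3, 4), (0x658392a7, 4), (0x204187a5, 4), (0x416385a7, 4), (0x204187a5, 4), (0x738590a6, 4), (0x416385a7, 4), (0x658392a7, 4)]⟩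

def c_3785 : frmChk tA tB F_3785 = true := by decide +kernel

def r_3785_0 : chkL rootF engF2 tA tB sA_367 sB_367 4 F_3785 [(511, 0, 0)]
    0x459 = true := by
  decide +kernel

theorem f_3785 (h : TabsF) : FrameF repsF 367 F_3785.f :=
  frame_of rfl c_3785 (runs_of engOK r_3785_0) (by decide +kernel) h.1 h.2

def F_3786 : FrX :=
  ⟨0x1c2102000004044000002041000101000082040888081000001020400400102000604060000084020020418912000408048008003200800d00010080800,
    0x0, 0, 0x4376, 2,
    [(0x0, 0), (0x205386a9, 4), (0x105487a9, 4), (0x214376a9, 4), (0x205386a9, 4), (0x105487a9, 4)],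
    [(0x4376, 2), (0x20657483, 4), (0x105376a9, 4), (0x657384a9, 4), (0x105376a9, 4), (0x21647385, 4), (0x204387a9, 4), (0x657384a9, 4), (0x204387a9, 4), (0x10637584, 4), (0x657384a9, 4), (0x21647385, 4)]⟩

def c_3786 : frmChk tA tB F_3786 = true := by decide +kernel

def r_3786_0 : chkL rootF engF2 tA tB sA_367 sB_367 4 F_3786 [(511, 0, 0)]
    0x1 = true := by
  decide +kernel

theorem f_3786 (h : TabsF) : FrameF repsF 367 F_3786.f :=
  frame_of rfl c_3786 (runs_of engOK r_3786_0) (by decide +kernel) h.1 h.2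

def F_3787 : FrX :=
  ⟨0x2002000900044004000e0204100014100080004080080101400802400200024020024200088800022400010080004810010000005500800800502a024080,
    0xa3, 1, 0x1032748193a5, 6,
    [(0xa3, 1), (0x208693a5, 4), (0x10548793, 4), (0x217693a4, 4), (0x208693a5, 4), (0x10548793, 4)],
    [(0x1032748193a5, 6), (0x315260a9, 4), (0x405281a7, 4), (0x52648397, 4), (0x315260a9, 4), (0x405281a7, 4)]⟩

def c_3787 : frmChk tA tA F_3787 = true := by decide +kernel

def r_3787_0 : chkL rootF engF2 tA tA sA_367 sA_367 4 F_3787 [(511, 0, 0)]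
    0x40f0ac4e630a96a0cc0741b09c27 = true := by
  decide +kernel

theorem f_3787 (h : TabsF) : FrameF repsF 367 F_3787.f :=
  frame_of rfl c_3787 (runs_of engOK r_3787_0) (by decide +kernel) h.1 h.1

def F_3788 : FrX :=
  ⟨0x80080a000804040e00002101002001000002040881011001020010020042002008054000c00041020000000888040140002082014000a88002244400100,
    0xa6, 1, 0x41618594a8, 5,
    [(0xa6, 1), (0x205396a8, 4), (0x10548796, 4), (0x214396a7, 4), (0x205396a8, 4), (0x10548796, 4)],
    [(0x41618594a8, 5), (0x204387a9, 4), (0x51607498, 4), (0x518794a3, 4), (0x51607498, 4), (0x627394a8, 4), (0x205193a4, 4), (0x518794a3, 4), (0x205193a4, 4), (0x608497a3, 4), (0x518794a3, 4), (0x627394a8, 4)]⟩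

def c_3788 : frmChk tA tB F_3788 = true := by decide +kernel

def r_3788_0 : chkL rootF engF2 tA tB sA_367 sB_367 4 F_3788 [(511, 0, 0)]
    0x1 = true := by
  decide +kernel

theorem f_3788 (h : TabsF) : FrameF repsF 367 F_3788.f :=
  frame_of rfl c_3788 (runs_of engOK r_3788_0) (by decide +kernel) h.1 h.2

def F_3789 : FrX :=
  ⟨0x1001040012008080000e00840800410008101000042d0000402001000000088480410010220000080002200ac40000410010800408a00c00500000200144,
    0xa3, 1, 0x32436398a8, 5,
    [(0xa3, 1), (0x207584a6, 4), (0x10547693, 4), (0x647593a8, 4), (0x10547693, 4), (0x216485a7, 4), (0x208693a4, 4), (0x647593a8, 4), (0x208693a4, 4), (0x106574a8, 4), (0x647593a8, 4), (0x216485a7, 4)],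
    [(0x32436398a8, 5), (0x306598a4, 4), (0x105298a7, 4), (0x31627498, 4), (0x306598a4, 4), (0x105298a7, 4)]⟩

def c_3789 : frmChk tB tA F_3789 = true := by decide +kernel

def r_3789_0 : chkL rootF engF2 tB tA sB_367 sA_367 4 F_3789 [(511, 0, 0)]
    0x1 = true := by
  decide +kernel

theorem f_3789 (h : TabsF) : FrameF repsF 367 F_3789.f :=
  frame_of rfl c_3789 (runs_of engOK r_3789_0) (by decide +kernel) h.2 h.1

def F_3790 : FrX :=
  ⟨0x1001040012008080000e008408004100081010000421000040600100600008828082000012000088000a4006c00000420010800404200c00484000200048,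
    0xa3, 1, 0x4252738292a7, 6,
    [(0xa3, 1), (0x207584a6, 4), (0x10547693, 4), (0x647593a8, 4), (0x10547693, 4), (0x216485a7, 4), (0x208693a4, 4), (0x647593a8, 4), (0x208693a4, 4), (0x106574a8, 4), (0x647593a8, 4), (0x216485a7, 4)],
    [(0x4252738292a7, 6), (0x527690a4, 4), (0x104283a6, 4), (0x627583a4, 4), (0x104283a6, 4), (0x546291a7, 4), (0x65728390, 4), (0x627583a4, 4), (0x65728390, 4), (0x106475a2, 4), (0x627583a4, 4), (0x546291a7, 4)]⟩

def c_3790 : frmChk tB tB F_3790 = true := by decide +kernel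

def r_3790_0 : chkL rootF engF2 tB tB sB_367 sB_367 4 F_3790 [(511, 0, 0)]
    0x1 = true := by
  decide +kernel

theorem f_3790 (h : TabsF) : FrameF repsF 367 F_3790.f :=
  frame_of rfl c_3790 (runs_of engOK r_3790_0) (by decide +kernel) h.2 h.2

def F_3791 : FrX :=
  ⟨0x1001040012008080000e0084080041000810100006000002808020800418008404000a0001a0410268010000000420014000004403010000011002222080,
    0xa3, 1, 0x3143647691a3, 6,
    [(0xa3, 1), (0x207584a6, 4), (0x10547693, 4), (0x647593a8, 4), (0x10547693, 4), (0x216485a7, 4), (0x208693a4, 4), (0x647593a8, 4), (0x208693a4, 4), (0x106574a8, 4), (0x647593a8, 4), (0x216485a7, 4)],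
    [(0x3143647691a3, 6), (0x205186a7, 4), (0x43657190, 4), (0x435176a8, 4), (0x43657190, 4), (0x768592a1, 4), (0x204387a6, 4), (0x435176a8, 4), (0x204387a6, 4), (0x617590a8, 4), (0x435176a8, 4), (0x768592a1, 4)]⟩

def c_3791 : frmChk tB tB F_3791 = true := by decide +kernel

def r_3791_0 : chkL rootF engF2 tB tB sB_367 sB_367 4 F_3791 [(511, 0, 0)]
    0x1 = true := by
  decide +kernel

theorem f_3791 (h : TabsF) : FrameF repsF 367 F_3791.f :=
  frame_of rfl c_3791 (runs_of engOK r_3791_0) (by decide +kernel) h.2 h.2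

def F_3792 : FrX :=
  ⟨0x600020801080810000c0040180410101001004001040500000400448121000080012000880812000080100381010400600208200000808100408180001,
    0xa0, 1, 0x32428191a3, 5,
    [(0xa0, 1), (0x637584a2, 4), (0x547690a1, 4), (0x64758390, 4), (0x547690a1, 4), (0x21647385, 4), (0x438690a2, 4), (0x64758390, 4), (0x438690a2, 4), (0x657483a1, 4), (0x64758390, 4), (0x21647385, 4)],
    [(0x32428191a3, 5), (0x406182a5, 4), (0x53718290, 4), (0x768294a3, 4), (0x406182a5, 4), (0x53718290, 4)]⟩

def c_3792 : frmChk tB tA F_3792 = true := by decide +kernel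

def r_3792_0 : chkL rootF engF2 tB tA sB_367 sA_367 4 F_3792 [(511, 0, 0)]
    0x42e1c60e0ac1e0ac2b = true := by
  decide +kernel

theorem f_3792 (h : TabsF) : FrameF repsF 367 F_3792.f :=
  frame_of rfl c_3792 (runs_of engOK r_3792_0) (by decide +kernel) h.2 h.1

def F_3793 : FrX :=
  ⟨0x1001040012008080000e0084080041000810100006000002d000208004180084040000100100110268010008000420022000a0820001000000a00220110c,
    0xa3, 1, 0x1021307683a4, 6,
    [(0xa3, 1), (0x207584a6, 4), (0x10547693, 4), (0x647593a8, 4), (0x10547693, 4), (0x216485a7, 4), (0x208693a4, 4), (0x647593a8, 4), (0x208693a4, 4), (0x106574a8, 4), (0x647593a8, 4), (0x216485a7, 4)],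
    [(0x1021307683a4, 6), (0x306587a1, 4), (0x327694a5, 4), (0x658194a7, 4), (0x327694a5, 4), (0x205186a7, 4), (0x307194a8, 4), (0x658194a7, 4), (0x307194a8, 4), (0x327581a6, 4), (0x658194a7, 4), (0x205186a7, 4)]⟩

def c_3793 : frmChk tB tB F_3793 = true := by decide +kernel

def r_3793_0 : chkL rootF engF2 tB tB sB_367 sB_367 4 F_3793 [(511, 0, 0)]
    0x5154c45c45531171154c45c0d436 = true := by
  decide +kernel

theorem f_3793 (h : TabsF) : FrameF repsF 367 F_3793.f :=
  frame_of rfl c_3793 (runs_of engOK r_3793_0) (by decide +kernel) h.2 h.2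

def F_3794 : FrX :=
  ⟨0x1c21020000040440000020410001010000820408880810000010204004001020006040600000e000808010d104000408048008000600800700010200005,
    0x0, 0, 0x4376, 2,
    [(0x0, 0), (0x205386a9, 4), (0x105487a9, 4), (0x214376a9, 4), (0x205386a9, 4), (0x105487a9, 4)],
    [(0x4376, 2), (0x20657483, 4), (0x105376a9, 4), (0x657384a9, 4), (0x105376a9, 4), (0x21647385, 4), (0x204387a9, 4), (0x657384a9, 4), (0x204387a9, 4), (0x10637584, 4), (0x657384a9, 4), (0x21647385, 4)]⟩

def c_3794 : frmChk tA tB F_3794 = true := by decide +kernel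

def r_3794_0 : chkL rootF engF2 tA tB sA_367 sB_367 4 F_3794 [(511, 0, 0)]
    0x41d8341e0741d0743a0e827 = true := by
  decide +kernel

theorem f_3794 (h : TabsF) : FrameF repsF 367 F_3794.f :=
  frame_of rfl c_3794 (runs_of engOK r_3794_0) (by decide +kernel) h.1 h.2

def F_3795 : FrX :=
  ⟨0x80080a000804040e00002101002001000002040881011001020010020042001010034000c0004102000000088804014000700200040058800422100000a,
    0xa6, 1, 0x43608796a5, 5,
    [(0xa6, 1), (0x205396a8, 4), (0x10548796, 4), (0x214396a7, 4), (0x205396a8, 4), (0x10548796, 4)],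
    [(0x43608796a5, 5), (0x627394a8, 4), (0x506198a3, 4), (0x507493a8, 4), (0x506198a3, 4), (0x218493a7, 4), (0x43506297, 4), (0x507493a8, 4), (0x43506297, 4), (0x617483a9, 4), (0x507493a8, 4), (0x218493a7, 4)]⟩

def c_3795 : frmChk tA tB F_3795 = true := by decide +kernel

def r_3795_0 : chkL rootF engF2 tA tB sA_367 sB_367 4 F_3795 [(511, 0, 0)]
    0x1 = true := by
  decide +kernel

theorem f_3795 (h : TabsF) : FrameF repsF 367 F_3795.f :=
  frame_of rfl c_3795 (runs_of engOK r_3795_0) (by decide +kernel) h.1 h.2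

def F_3796 : FrX :=
  ⟨0x2002000900044004000e020410001410008000408008010140080240020001802001088008880002240001008000481001000000e0408008003016044002,
    0xa3, 1, 0x3154657392a6, 6,
    [(0xa3, 1), (0x208693a5, 4), (0x10548793, 4), (0x217693a4, 4), (0x208693a5, 4), (0x10548793, 4)],
    [(0x3154657392a6, 6), (0x427690a8, 4), (0x30426581, 4), (0x427593a1, 4), (0x427690a8, 4), (0x30426581, 4)]⟩

def c_3796 : frmChk tA tA F_3796 = true := by decide +kernel

def r_3796_0 : chkL rootF engF2 tA tA sA_367 sA_367 4 F_3796 [(511, 0, 0)]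
    0x112ea1 = true := by
  decide +kernel

theorem f_3796 (h : TabsF) : FrameF repsF 367 F_3796.f :=
  frame_of rfl c_3796 (runs_of engOK r_3796_0) (by decide +kernel) h.1 h.1

def F_3797 : FrX :=
  ⟨0x80080a000804040e00002101002001000002040881011001020010020042007000004040c00041020000000888040140004182004001088006120400820,
    0xa6, 1, 0x43537493a6, 5,
    [(0xa6, 1), (0x205396a8, 4), (0x10548796, 4), (0x214396a7, 4), (0x205396a8, 4), (0x10548796, 4)],
    [(0x43537493a6, 5), (0x204387a9, 4), (0x106574a3, 4), (0x436598a7, 4), (0x106574a3, 4), (0x218493a7, 4), (0x206597a8, 4), (0x436598a7, 4), (0x206597a8, 4), (0x107398a4, 4), (0x436598a7, 4), (0x218493a7, 4)]⟩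

def c_3797 : frmChk tA tB F_3797 = true := by decide +kernel

def r_3797_0 : chkL rootF engF2 tA tB sA_367 sB_367 4 F_3797 [(511, 0, 0)]
    0x439 = true := by
  decide +kernel

theorem f_3797 (h : TabsF) : FrameF repsF 367 F_3797.f :=
  frame_of rfl c_3797 (runs_of engOK r_3797_0) (by decide +kernel) h.1 h.2

def F_3798 : FrX :=
  ⟨0x1001040012008080000e008408004100081010000420201000480220020000c0440202001040700140004800060008200100100802404008101002022002,
    0xa3, 1, 0x3262728792a3, 6,
    [(0xa3, 1), (0x207584a6, 4), (0x10547693, 4), (0x647593a8, 4), (0x10547693, 4), (0x216485a7, 4), (0x208693a4, 4), (0x647593a8, 4), (0x208693a4, 4), (0x106574a8, 4), (0x647593a8, 4), (0x216485a7, 4)],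
    [(0x3262728792a3, 6), (0x648590a3, 4), (0x10547283, 4), (0x437285a6, 4), (0x10547283, 4), (0x436591a8, 4), (0x637290a4, 4), (0x437285a6, 4), (0x637290a4, 4), (0x105384a6, 4), (0x437285a6, 4), (0x436591a8, 4)]⟩

def c_3798 : frmChk tB tB F_3798 = true := by decide +kernel

def r_3798_0 : chkL rootF engF2 tB tB sB_367 sB_367 4 F_3798 [(511, 0, 0)]
    0x1 = true := by
  decide +kernel

theorem f_3798 (h : TabsF) : FrameF repsF 367 F_3798.f :=
  frame_of rfl c_3798 (runs_of engOK r_3798_0) (by decide +kernel) h.2 h.2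

def F_3799 : FrX :=
  ⟨0x1001040012008080000e00840800410008101000042008042008022002000080442000520000700040061810800000202100800800404408100006000106,
    0xa3, 1, 0x324253657492a1, 7,
    [(0xa3, 1), (0x207584a6, 4), (0x10547693, 4), (0x647593a8, 4), (0x10547693, 4), (0x216485a7, 4), (0x208693a4, 4), (0x647593a8, 4), (0x208693a4, 4), (0x106574a8, 4), (0x647593a8, 4), (0x216485a7, 4)],
    [(0x324253657492a1, 7), (0x41658290, 4), (0x417683a0, 4), (0x324175a9, 4), (0x41658290, 4), (0x417683a0, 4)]⟩

def c_3799 : frmChk tB tA F_3799 = true := by decide +kernel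

def r_3799_0 : chkL rootF engF2 tB tA sB_367 sA_367 4 F_3799 [(511, 0, 0)]
    0x1 = true := by
  decide +kernel

theorem f_3799 (h : TabsF) : FrameF repsF 367 F_3799.f :=
  frame_of rfl c_3799 (runs_of engOK r_3799_0) (by decide +kernel) h.2 h.1

def F_3800 : FrX :=
  ⟨0x1001040012008080000e008408004100081010000420080240014001010200000e2000060000208040084804400000804004440c000208000581000080d0,
    0xa3, 1, 0x208596a3, 4,
    [(0xa3, 1), (0x207584a6, 4), (0x10547693, 4), (0x647593a8, 4), (0x10547693, 4), (0x216485a7, 4), (0x208693a4, 4), (0x647593a8, 4), (0x208693a4, 4), (0x106574a8, 4), (0x647593a8, 4), (0x216485a7, 4)],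
    [(0x208596a3, 4), (0x205487a9, 4), (0x21638497, 4), (0x638794a5, 4), (0x21638497, 4), (0x108594a7, 4), (0x206395a4, 4), (0x638794a5, 4), (0x206395a4, 4), (0x217498a5, 4), (0x638794a5, 4), (0x108594a7, 4)]⟩

def c_3800 : frmChk tB tB F_3800 = true := by decide +kernel

def r_3800_0 : chkL rootF engF2 tB tB sB_367 sB_367 4 F_3800 [(511, 0, 0)]
    0x10b80f = true := by
  decide +kernel

theorem f_3800 (h : TabsF) : FrameF repsF 367 F_3800.f :=
  frame_of rfl c_3800 (runs_of engOK r_3800_0) (by decide +kernel) h.2 h.2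

def F_3801 : FrX :=
  ⟨0x1001040012008080000e008408004100081010000420200210080220020000204420401200004040400c480481000020210080081800440810000c000104,
    0xa3, 1, 0x102053748192a3, 7,
    [(0xa3, 1), (0x207584a6, 4), (0x10547693, 4), (0x647593a8, 4), (0x10547693, 4), (0x216485a7, 4), (0x208693a4, 4), (0x647593a8, 4), (0x208693a4, 4), (0x106574a8, 4), (0x647593a8, 4), (0x216485a7, 4)],
    [(0x102053748192a3, 7), (0x516092a3, 4), (0x40517382, 4), (0x516498a7, 4), (0x516092a3, 4), (0x40517382, 4)]⟩

def c_3801 : frmChk tB tA F_3801 = true := by decide +kernel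

def r_3801_0 : chkL rootF engF2 tB tA sB_367 sA_367 4 F_3801 [(511, 0, 0)]
    0x106ec209e26 = true := by
  decide +kernel

theorem f_3801 (h : TabsF) : FrameF repsF 367 F_3801.f :=
  frame_of rfl c_3801 (runs_of engOK r_3801_0) (by decide +kernel) h.2 h.1

def F_3802 : FrX :=
  ⟨0x1001040012008080000e00840800410008101000042008024001400101020000056000120000208040084804400000804004201500020480090100020094,
    0xa3, 1, 0x317496a3, 4,
    [(0xa3, 1), (0x207584a6, 4), (0x10547693, 4), (0x647593a8, 4), (0x10547693, 4), (0x216485a7, 4), (0x208693a4, 4), (0x647593a8, 4), (0x208693a4, 4), (0x106574a8, 4), (0x647593a8, 4), (0x216485a7, 4)],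
    [(0x317496a3, 4), (0x205487a9, 4), (0x30617594, 4), (0x546197a8, 4), (0x30617594, 4), (0x328597a4, 4), (0x206198a7, 4), (0x546197a8, 4), (0x206198a7, 4), (0x307495a8, 4), (0x546197a8, 4), (0x328597a4, 4)]⟩

def c_3802 : frmChk tB tB F_3802 = true := by decide +kernel

def r_3802_0 : chkL rootF engF2 tB tB sB_367 sB_367 4 F_3802 [(511, 0, 0)]
    0x1 = true := by
  decide +kernel

theorem f_3802 (h : TabsF) : FrameF repsF 367 F_3802.f :=
  frame_of rfl c_3802 (runs_of engOK r_3802_0) (by decide +kernel) h.2 h.2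

def F_3803 : FrX :=
  ⟨0x80080a000804040e00002101002001000002040881080200404030000220008008013010080030400021800a0081000022000204800040a100a000c0080,
    0xa6, 1, 0x435460758190a6, 7,
    [(0xa6, 1), (0x205396a8, 4), (0x10548796, 4), (0x214396a7, 4), (0x205396a8, 4), (0x10548796, 4)],
    [(0x435460758190a6, 7), (0x517392a4, 4), (0x607598a3, 4), (0x416073a5, 4), (0x607598a3, 4), (0x437182a5, 4), (0x546092a1, 4), (0x416073a5, 4), (0x546092a1, 4), (0x415398a7, 4), (0x416073a5, 4), (0x437182a5, 4)]⟩

def c_3803 : frmChk tA tB F_3803 = true := by decide +kernel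

def r_3803_0 : chkL rootF engF2 tA tB sA_367 sB_367 4 F_3803 [(511, 0, 0)]
    0x103c1e = true := by
  decide +kernel

theorem f_3803 (h : TabsF) : FrameF repsF 367 F_3803.f :=
  frame_of rfl c_3803 (runs_of engOK r_3803_0) (by decide +kernel) h.1 h.2

theorem cl_367 (h : TabsF) : ∀ f ∈ fr_367, FrameF repsF 367 f :=
  List.forall_mem_cons.2 ⟨f_3776 h, List.forall_mem_cons.2 ⟨f_3777 h, List.forall_mem_cons.2 ⟨f_3778 h, List.forall_mem_cons.2 ⟨f_3779 h, List.forall_mem_cons.2 ⟨f_3780 h, List.forall_mem_cons.2 ⟨f_3781 h, List.forall_mem_cons.2 ⟨f_3782 h, List.forall_mem_cons.2 ⟨f_3783 h, List.forall_mem_cons.2 ⟨f_3784 h, List.forall_mem_cons.2 ⟨f_3785 h, List.forall_mem_cons.2 ⟨f_3786 h, List.forall_mem_cons.2 ⟨f_3787 h, List.forall_mem_cons.2 ⟨f_3788 h, List.forall_mem_cons.2 ⟨f_3789 h, List.forall_mem_cons.2 ⟨f_3790 h, List.forall_mem_cons.2 ⟨f_3791 h, List.forall_mem_cons.2 ⟨f_3792 h, List.forall_mem_cons.2 ⟨f_3793 h, List.forall_mem_cons.2 ⟨f_3794 h, List.forall_mem_cons.2 ⟨f_3795 h, List.forall_mem_cons.2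 ⟨f_3796 h, List.forall_mem_cons.2 ⟨f_3797 h, List.forall_mem_cons.2 ⟨f_3798 h, List.forall_mem_cons.2 ⟨f_3799 h, List.forall_mem_cons.2 ⟨f_3800 h, List.forall_mem_cons.2 ⟨f_3801 h, List.forall_mem_cons.2 ⟨f_3802 h, List.forall_mem_cons.2 ⟨f_3803 h,
    fun _ h0 => absurd h0 List.not_mem_nil⟩⟩⟩⟩⟩⟩⟩⟩⟩⟩⟩⟩⟩⟩⟩⟩⟩⟩⟩⟩⟩⟩⟩⟩⟩⟩⟩⟩

def F_3804 : FrX :=
  ⟨0x482000044040440000c2040020009000182040020001100100080220014041200200400022080220800400084004420248004000e00400004020008828,
    0xa0, 1, 0x1042628096a8, 6,
    [(0xa0, 1), (0x538690a2, 4), (0x548790a1, 4), (0x21437690, 4), (0x538690a2, 4), (0x548790a1, 4)],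
    [(0x1042628096a8, 6), (0x415386a9, 4), (0x415280a7, 4), (0x32416097, 4), (0x415386a9, 4), (0x415280a7, 4)]⟩

def c_3804 : frmChk tA tA F_3804 = true := by decide +kernel

def r_3804_0 : chkL rootF engF2 tA tA sA_368 sA_368 4 F_3804 [(511, 0, 0)]
    0x10781b03c4b = true := by
  decide +kernel

theorem f_3804 (h : TabsF) : FrameF repsF 368 F_3804.f :=
  frame_of rfl c_3804 (runs_of engOK r_3804_0) (by decide +kernel) h.1 h.1

def F_3805 : FrX :=
  ⟨0x2002000900044004000e02041000141000800040800800248010200008200c08000011080888000812000200400042040020210006200200401005412080,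
    0xa3, 1, 0x10324351658496a0, 8,
    [(0xa3, 1), (0x208693a5, 4), (0x10548793, 4), (0x217693a4, 4), (0x208693a5, 4), (0x10548793, 4)],
    [(0x10324351658496a0, 8), (0x106492a3, 4), (0x107286a5, 4), (0x10538497, 4), (0x106492a3, 4), (0x107286a5, 4)]⟩

def c_3805 : frmChk tA tA F_3805 = true := by decide +kernel

def r_3805_0 : chkL rootF engF2 tA tA sA_368 sA_368 4 F_3805 [(511, 0, 0)]
    0x42b05c0f03c39 = true := by
  decide +kernel

theorem f_3805 (h : TabsF) : FrameF repsF 368 F_3805.f :=
  frame_of rfl c_3805 (runs_of engOK r_3805_0) (by decide +kernel) h.1 h.1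

def F_3806 : FrX :=
  ⟨0x80080a000804040e00002101002001000002040890010004202004808880001010100400802081020008000404042420100700004000100244009080880,
    0xa6, 1, 0x31425264718396a3, 8,
    [(0xa6, 1), (0x205396a8, 4), (0x10548796, 4), (0x214396a7, 4), (0x205396a8, 4), (0x10548796, 4)],
    [(0x31425264718396a3, 8), (0x508291a4, 4), (0x31647082, 4), (0x758293a6, 4), (0x508291a4, 4), (0x31647082, 4)]⟩

def c_3806 : frmChk tA tA F_3806 = true := by decide +kernel

def r_3806_0 : chkL rootF engF2 tA tA sA_368 sA_368 4 F_3806 [(511, 0, 0)]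
    0x103c1d = true := by
  decide +kernel

theorem f_3806 (h : TabsF) : FrameF repsF 368 F_3806.f :=
  frame_of rfl c_3806 (runs_of engOK r_3806_0) (by decide +kernel) h.1 h.1

def F_3807 : FrX :=
  ⟨0x2002000900044004000e0204100014100080004080800100208804000a0002401000c8004080511008080006040002100300202040001020040024200201,
    0xa3, 1, 0x103262708291a3, 7,
    [(0xa3, 1), (0x208693a5, 4), (0x10548793, 4), (0x217693a4, 4), (0x208693a5, 4), (0x10548793, 4)],
    [(0x103262708291a3, 7), (0x206387a5, 4), (0x20546197, 4), (0x203198a4, 4), (0x206387a5, 4), (0x20546197, 4)]⟩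

def c_3807 : frmChk tA tA F_3807 = true := by decide +kernel

def r_3807_0 : chkL rootF engF2 tA tA sA_368 sA_368 4 F_3807 [(511, 0, 0)]
    0x472 = true := by
  decide +kernel

theorem f_3807 (h : TabsF) : FrameF repsF 368 F_3807.f :=
  frame_of rfl c_3807 (runs_of engOK r_3807_0) (by decide +kernel) h.1 h.1

def F_3808 : FrX :=
  ⟨0x1c21020000040440000020410001010000820408a0001100000024200400a02000088040088511008080004044102140300400001100020002004600300,
    0x0, 0, 0x21436575, 4,
    [(0x0, 0), (0x205386a9, 4), (0x105487a9, 4), (0x214376a9, 4), (0x205386a9, 4), (0x105487a9, 4)],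
    [(0x21436575, 4), (0x10547683, 4), (0x206573a9, 4), (0x537684a9, 4), (0x206573a9, 4), (0x21536487, 4), (0x104385a9, 4), (0x537684a9, 4), (0x104385a9, 4), (0x20637584, 4), (0x537684a9, 4), (0x21536487, 4)]⟩

def c_3808 : frmChk tA tB F_3808 = true := by decide +kernel

def r_3808_0 : chkL rootF engF2 tA tB sA_368 sB_368 4 F_3808 [(511, 0, 0)]
    0x10db090d417 = true := by
  decide +kernel

theorem f_3808 (h : TabsF) : FrameF repsF 368 F_3808.f :=
  frame_of rfl c_3808 (runs_of engOK r_3808_0) (by decide +kernel) h.1 h.2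

def F_3809 : FrX :=
  ⟨0x80080a000804040e00002101002001000002040881081000041030040440002000023020008510008090000044100140242000001002820002011008300,
    0xa6, 1, 0x10213142728098a0, 8,
    [(0xa6, 1), (0x205396a8, 4), (0x10548796, 4), (0x214396a7, 4), (0x205396a8, 4), (0x10548796, 4)],
    [(0x10213142728098a0, 8), (0x528196a7, 4), (0x508194a3, 4), (0x20647381, 4), (0x528196a7, 4), (0x508194a3, 4)]⟩

def c_3809 : frmChk tA tA F_3809 = true := by decide +kernel

def r_3809_0 : chkL rootF engF2 tA tA sA_368 sA_368 4 F_3809 [(511, 0, 0)]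
    0x12b04d09c0f0ac2d05c2d = true := by
  decide +kernel

theorem f_3809 (h : TabsF) : FrameF repsF 368 F_3809.f :=
  frame_of rfl c_3809 (runs_of engOK r_3809_0) (by decide +kernel) h.1 h.1

def F_3810 : FrX :=
  ⟨0x2002000900044004000e020410001410008000408010002820102000608008820000280009020002240004004000440220400a00062000002020100c0904,
    0xa3, 1, 0x324354758494a2, 7,
    [(0xa3, 1), (0x208693a5, 4), (0x10548793, 4), (0x217693a4, 4), (0x208693a5, 4), (0x10548793, 4)],
    [(0x324354758494a2, 7), (0x647295a0, 4), (0x10628397, 4), (0x54728396, 4), (0x10628397, 4), (0x427596a1, 4), (0x658394a0, 4), (0x54728396, 4), (0x658394a0, 4), (0x10547692, 4), (0x54728396, 4), (0x427596a1, 4)]⟩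

def c_3810 : frmChk tA tB F_3810 = true := by decide +kernel

def r_3810_0 : chkL rootF engF2 tA tB sA_368 sB_368 4 F_3810 [(511, 0, 0)]
    0x1 = true := by
  decide +kernel

theorem f_3810 (h : TabsF) : FrameF repsF 368 F_3810.f :=
  frame_of rfl c_3810 (runs_of engOK r_3810_0) (by decide +kernel) h.1 h.2

def F_3811 : FrX :=
  ⟨0x2002000900044004000e0204100014100080004080100201a008022000220108000000a00848000880080008041420002002810020408000310088012080,
    0xa3, 1, 0x1032436173a7, 6,
    [(0xa3, 1), (0x208693a5, 4), (0x10548793, 4), (0x217693a4, 4), (0x208693a5, 4), (0x10548793, 4)],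
    [(0x1032436173a7, 6), (0x31758094, 4), (0x526194a8, 4), (0x637294a0, 4), (0x31758094, 4), (0x526194a8, 4)]⟩

def c_3811 : frmChk tA tA F_3811 = true := by decide +kernel

def r_3811_0 : chkL rootF engF2 tA tA sA_368 sA_368 4 F_3811 [(511, 0, 0)]
    0x10e4998568551427a443558531 = true := by
  decide +kernel

theorem f_3811 (h : TabsF) : FrameF repsF 368 F_3811.f :=
  frame_of rfl c_3811 (runs_of engOK r_3811_0) (by decide +kernel) h.1 h.1

def F_3812 : FrX :=
  ⟨0x482000044040440000c2040020009000182040020000882000100110012110004028000041080180080800047020040202091000008804010018000201,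
    0xa0, 1, 0x21304251657196a2, 8,
    [(0xa0, 1), (0x538690a2, 4), (0x548790a1, 4), (0x21437690, 4), (0x538690a2, 4), (0x548790a1, 4)],
    [(0x21304251657196a2, 8), (0x426098a3, 4), (0x42617385, 4), (0x104295a7, 4), (0x426098a3, 4), (0x42617385, 4)]⟩

def c_3812 : frmChk tA tA F_3812 = true := by decide +kernel

def r_3812_0 : chkL rootF engF2 tA tA sA_368 sA_368 4 F_3812 [(511, 0, 0)]
    0x40f0ac4711c1e0b81716417 = true := by
  decide +kernel

theorem f_3812 (h : TabsF) : FrameF repsF 368 F_3812.f :=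
  frame_of rfl c_3812 (runs_of engOK r_3812_0) (by decide +kernel) h.1 h.1

def F_3813 : FrX :=
  ⟨0x1c21020000040440000020410001010000820408882000080010801000021080048202008400800800808080c5420040002211000408804210088000008,
    0x0, 0, 0x21536487, 4,
    [(0x0, 0), (0x205386a9, 4), (0x105487a9, 4), (0x214376a9, 4), (0x205386a9, 4), (0x105487a9, 4)],
    [(0x21536487, 4), (0x105374a9, 4), (0x206387a9, 4), (0x216584a9, 4), (0x105374a9, 4), (0x206387a9, 4)]⟩

def c_3813 : frmChk tA tA F_3813 = true := by decide +kernel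

def r_3813_0 : chkL rootF engF2 tA tA sA_368 sA_368 4 F_3813 [(255, 0, 0), (256, 0, 9)]
    0x105c4b0d435b40360d6d0 = true := by
  decide +kernel

def r_3813_1 : chkL rootF engF2 tA tA sA_368 sA_368 4 F_3813 [(256, 9, 0)]
    0x13486c = true := by
  decide +kernel

theorem f_3813 (h : TabsF) : FrameF repsF 368 F_3813.f :=
  frame_of rfl c_3813 ((runs_of engOK r_3813_0).append (runs_of engOK r_3813_1)) (by decide +kernel) h.1 h.1

def F_3814 : FrX :=
  ⟨0x80080a000804040e0000210100200100000204088100900200403000020a0040001020600080040800900004380801080240004410101040010100c0800,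
    0xa6, 1, 0x213252718591a0, 7,
    [(0xa6, 1), (0x205396a8, 4), (0x10548796, 4), (0x214396a7, 4), (0x205396a8, 4), (0x10548796, 4)],
    [(0x213252718591a0, 7), (0x436182a5, 4), (0x627084a9, 4), (0x31647082, 4), (0x627084a9, 4), (0x21648395, 4), (0x416370a5, 4), (0x31647082, 4), (0x416370a5, 4), (0x314286a9, 4), (0x31647082, 4), (0x21648395, 4)]⟩

def c_3814 : frmChk tA tB F_3814 = true := by decide +kernel

def r_3814_0 : chkL rootF engF2 tA tB sA_368 sB_368 4 F_3814 [(511, 0, 0)]
    0x41e0ac2e = true := by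
  decide +kernel

theorem f_3814 (h : TabsF) : FrameF repsF 368 F_3814.f :=
  frame_of rfl c_3814 (runs_of engOK r_3814_0) (by decide +kernel) h.1 h.2

def F_3815 : FrX :=
  ⟨0x80080a000804040e0000210100200100000204088120000141002080000220801082008140002008004080021100400c002011000410081800089060004,
    0xa6, 1, 0x2132657192a3, 6,
    [(0xa6, 1), (0x205396a8, 4), (0x10548796, 4), (0x214396a7, 4), (0x205396a8, 4), (0x10548796, 4)],
    [(0x2132657192a3, 6), (0x318590a6, 4), (0x31647082, 4), (0x315297a4, 4), (0x318590a6, 4), (0x31647082, 4)]⟩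

def c_3815 : frmChk tA tA F_3815 = true := by decide +kernel

def r_3815_0 : chkL rootF engF2 tA tA sA_368 sA_368 4 F_3815 [(511, 0, 0)]
    0x433a28591a86a0741d = true := by
  decide +kernel

theorem f_3815 (h : TabsF) : FrameF repsF 368 F_3815.f :=
  frame_of rfl c_3815 (runs_of engOK r_3815_0) (by decide +kernel) h.1 h.1

def F_3816 : FrX :=
  ⟨0x2002000900044004000e02041000141000800040808001004060000208024022100080204080004180080202430000108100201480028800002040008804,
    0xa3, 1, 0x65728490a1, 5,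
    [(0xa3, 1), (0x208693a5, 4), (0x10548793, 4), (0x217693a4, 4), (0x208693a5, 4), (0x10548793, 4)],
    [(0x65728490a1, 5), (0x53628497, 4), (0x105286a9, 4), (0x10436285, 4), (0x105286a9, 4), (0x326485a7, 4), (0x10548397, 4), (0x10436285, 4), (0x10548397, 4), (0x436582a9, 4), (0x10436285, 4), (0x326485a7, 4)]⟩

def c_3816 : frmChk tA tB F_3816 = true := by decide +kernel

def r_3816_0 : chkL rootF engF2 tA tB sA_368 sB_368 4 F_3816 [(511, 0, 0)]
    0x6070f03a = true := by
  decide +kernel

theorem f_3816 (h : TabsF) : FrameF repsF 368 F_3816.f :=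
  frame_of rfl c_3816 (runs_of engOK r_3816_0) (by decide +kernel) h.1 h.2

def F_3817 : FrX :=
  ⟨0x80080a000804040e00002101002001000002040888020481008080020810001001004060000048080022800281000400241108080008080444120020200,
    0xa6, 1, 0x2030425182a1, 6,
    [(0xa6, 1), (0x205396a8, 4), (0x10548796, 4), (0x214396a7, 4), (0x205396a8, 4), (0x10548796, 4)],
    [(0x2030425182a1, 6), (0x21648395, 4), (0x107495a3, 4), (0x207695a8, 4), (0x21648395, 4), (0x107495a3, 4)]⟩

def c_3817 : frmChk tA tA F_3817 = true := by decide +kernel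

def r_3817_0 : chkL rootF engF2 tA tA sA_368 sA_368 4 F_3817 [(511, 0, 0)]
    0x453 = true := by
  decide +kernel

theorem f_3817 (h : TabsF) : FrameF repsF 368 F_3817.f :=
  frame_of rfl c_3817 (runs_of engOK r_3817_0) (by decide +kernel) h.1 h.1

def F_3818 : FrX :=
  ⟨0x482000044040440000c2040020009000182040010010100800800810040844220010008010048120000810880808100014002004200200101020008418,
    0xa0, 1, 0x415065758096a5, 7,
    [(0xa0, 1), (0x538690a2, 4), (0x548790a1, 4), (0x21437690, 4), (0x538690a2, 4), (0x548790a1, 4)],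
    [(0x415065758096a5, 7), (0x708295a3, 4), (0x657084a1, 4), (0x31427096, 4), (0x708295a3, 4), (0x657084a1, 4)]⟩

def c_3818 : frmChk tA tA F_3818 = true := by decide +kernel

def r_3818_0 : chkL rootF engF2 tA tA sA_368 sA_368 4 F_3818 [(511, 0, 0)]
    0x40f05e13 = true := by
  decide +kernel

theorem f_3818 (h : TabsF) : FrameF repsF 368 F_3818.f :=
  frame_of rfl c_3818 (runs_of engOK r_3818_0) (by decide +kernel) h.1 h.1

def F_3819 : FrX :=
  ⟨0x80080a000804040e00002101002001000002040890080000484010008220008008013001002030408004801200420008004042040200402100980040080,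
    0xa6, 1, 0x213161768290a3, 7,
    [(0xa6, 1), (0x205396a8, 4), (0x10548796, 4), (0x214396a7, 4), (0x205396a8, 4), (0x10548796, 4)],
    [(0x213161768290a3, 7), (0x415398a7, 4), (0x20547396, 4), (0x205374a1, 4), (0x20547396, 4), (0x517486a3, 4), (0x207198a4, 4), (0x205374a1, 4), (0x207198a4, 4), (0x437596a1, 4), (0x205374a1, 4), (0x517486a3, 4)]⟩

def c_3819 : frmChk tA tB F_3819 = true := by decide +kernel

def r_3819_0 : chkL rootF engF2 tA tB sA_368 sB_368 4 F_3819 [(511, 0, 0)]
    0x130c59168c398670a160e = true := by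
  decide +kernel

theorem f_3819 (h : TabsF) : FrameF repsF 368 F_3819.f :=
  frame_of rfl c_3819 (runs_of engOK r_3819_0) (by decide +kernel) h.1 h.2

def F_3820 : FrX :=
  ⟨0x2002000900044004000e0204100014100080004080080405801002040080088020010010440000848002014010101000020080a02204000050121000a200,
    0xa3, 1, 0x2043536185a3, 6,
    [(0xa3, 1), (0x208693a5, 4), (0x10548793, 4), (0x217693a4, 4), (0x208693a5, 4), (0x10548793, 4)],
    [(0x2043536185a3, 6), (0x204195a8, 4), (0x62748395, 4), (0x607195a3, 4), (0x204195a8, 4), (0x62748395, 4)]⟩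

def c_3820 : frmChk tA tA F_3820 = true := by decide +kernel

def r_3820_0 : chkL rootF engF2 tA tA sA_368 sA_368 4 F_3820 [(511, 0, 0)]
    0x11a82b8542e0782709c2d = true := by
  decide +kernel

theorem f_3820 (h : TabsF) : FrameF repsF 368 F_3820.f :=
  frame_of rfl c_3820 (runs_of engOK r_3820_0) (by decide +kernel) h.1 h.1

def F_3821 : FrX :=
  ⟨0x2002000900044004000e02041000141000800040800400448020004200012108100020201102011008400009200400408100080080880840000802223000,
    0xa3, 1, 0x102153748091a3, 7,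
    [(0xa3, 1), (0x208693a5, 4), (0x10548793, 4), (0x217693a4, 4), (0x208693a5, 4), (0x10548793, 4)],
    [(0x102153748091a3, 7), (0x437180a6, 4), (0x52647398, 4), (0x435276a1, 4), (0x52647398, 4), (0x317690a4, 4), (0x526180a7, 4), (0x435276a1, 4), (0x526180a7, 4), (0x637498a1, 4), (0x435276a1, 4), (0x317690a4, 4)]⟩

def c_3821 : frmChk tA tB F_3821 = true := by decide +kernel

def r_3821_0 : chkL rootF engF2 tA tB sA_368 sB_368 4 F_3821 [(511, 0, 0)]
    0x18580f03c0f85a85 = true := by
  decide +kernel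

theorem f_3821 (h : TabsF) : FrameF repsF 368 F_3821.f :=
  frame_of rfl c_3821 (runs_of engOK r_3821_0) (by decide +kernel) h.1 h.2

def F_3822 : FrX :=
  ⟨0x2002000900044004000e0204100014100080004080800040422000020800c08418010000402001048002a200022000108084022000a00820002010008210,
    0xa3, 1, 0x203150628598a2, 7,
    [(0xa3, 1), (0x208693a5, 4), (0x10548793, 4), (0x217693a4, 4), (0x208693a5, 4), (0x10548793, 4)],
    [(0x203150628598a2, 7), (0x628190a5, 4), (0x53628497, 4), (0x416270a3, 4), (0x628190a5, 4), (0x53628497, 4)]⟩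

def c_3822 : frmChk tA tA F_3822 = true := by decide +kernel

def r_3822_0 : chkL rootF engF2 tA tA sA_368 sA_368 4 F_3822 [(511, 0, 0)]
    0x116459164390b4650d5614c436 = true := by
  decide +kernel

theorem f_3822 (h : TabsF) : FrameF repsF 368 F_3822.f :=
  frame_of rfl c_3822 (runs_of engOK r_3822_0) (by decide +kernel) h.1 h.1

def F_3823 : FrX :=
  ⟨0x80080a000804040e00002101002001000002040880600008110080800002208004822001204480080042040080410001012005000412204200200020010,
    0xa6, 1, 0x103260738092a4, 7,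
    [(0xa6, 1), (0x205396a8, 4), (0x10548796, 4), (0x214396a7, 4), (0x205396a8, 4), (0x10548796, 4)],
    [(0x103260738092a4, 7), (0x527198a6, 4), (0x214380a5, 4), (0x435276a1, 4), (0x214380a5, 4), (0x657290a1, 4), (0x436198a7, 4), (0x435276a1, 4), (0x436198a7, 4), (0x517680a2, 4), (0x435276a1, 4), (0x657290a1, 4)]⟩

def c_3823 : frmChk tA tB F_3823 = true := by decide +kernel

def r_3823_0 : chkL rootF engF2 tA tB sA_368 sB_368 4 F_3823 [(511, 0, 0)]
    0x44e = true := by
  decide +kernel

theorem f_3823 (h : TabsF) : FrameF repsF 368 F_3823.f :=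
  frame_of rfl c_3823 (runs_of engOK r_3823_0) (by decide +kernel) h.1 h.2

def F_3824 : FrX :=
  ⟨0x482000044040440000c204002000900018204000110040120090020000409000821001002a000409000801000210002040004080500090412030200004,
    0xa0, 1, 0x3142758690a0, 6,
    [(0xa0, 1), (0x538690a2, 4), (0x548790a1, 4), (0x21437690, 4), (0x538690a2, 4), (0x548790a1, 4)],
    [(0x3142758690a0, 6), (0x718690a4, 4), (0x657290a3, 4), (0x21438590, 4), (0x718690a4, 4), (0x657290a3, 4)]⟩

def c_3824 : frmChk tA tA F_3824 = true := by decide +kernel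

def r_3824_0 : chkL rootF engF2 tA tA sA_368 sA_368 4 F_3824 [(511, 0, 0)]
    0x109c270d80f = true := by
  decide +kernel

theorem f_3824 (h : TabsF) : FrameF repsF 368 F_3824.f :=
  frame_of rfl c_3824 (runs_of engOK r_3824_0) (by decide +kernel) h.1 h.1

def F_3825 : FrX :=
  ⟨0x80080a000804040e00002101002001000002040882200008310080100002208004820001101080080044400100401040022410800410204240080020010,
    0xa6, 1, 0x102140657181a3, 7,
    [(0xa6, 1), (0x205396a8, 4), (0x10548796, 4), (0x214396a7, 4), (0x205396a8, 4), (0x10548796, 4)],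
    [(0x102140657181a3, 7), (0x406271a5, 4), (0x52618493, 4), (0x516293a7, 4), (0x52618493, 4), (0x517680a2, 4), (0x407593a1, 4), (0x516293a7, 4), (0x407593a1, 4), (0x216584a7, 4), (0x516293a7, 4), (0x517680a2, 4)]⟩

def c_3825 : frmChk tA tB F_3825 = true := by decide +kernel

def r_3825_0 : chkL rootF engF2 tA tB sA_368 sB_368 4 F_3825 [(511, 0, 0)]
    0x10b439 = true := by
  decide +kernel

theorem f_3825 (h : TabsF) : FrameF repsF 368 F_3825.f :=
  frame_of rfl c_3825 (runs_of engOK r_3825_0) (by decide +kernel) h.1 h.2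

def F_3826 : FrX :=
  ⟨0x80080a000804040e00002101002001000002040881200001410020800002204040880041400020080040800211010004400111004140280440080220010,
    0xa6, 1, 0x3050627091a5, 6,
    [(0xa6, 1), (0x205396a8, 4), (0x10548796, 4), (0x214396a7, 4), (0x205396a8, 4), (0x10548796, 4)],
    [(0x3050627091a5, 6), (0x207684a5, 4), (0x315297a4, 4), (0x314280a5, 4), (0x315297a4, 4), (0x425096a8, 4), (0x31407682, 4), (0x314280a5, 4), (0x31407682, 4), (0x548097a2, 4), (0x314280a5, 4), (0x425096a8, 4)]⟩

def c_3826 : frmChk tA tB F_3826 = true := by decide +kernel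

def r_3826_0 : chkL rootF engF2 tA tB sA_368 sB_368 4 F_3826 [(511, 0, 0)]
    0x1948d4348d43484794847 = true := by
  decide +kernel

theorem f_3826 (h : TabsF) : FrameF repsF 368 F_3826.f :=
  frame_of rfl c_3826 (runs_of engOK r_3826_0) (by decide +kernel) h.1 h.2

def F_3827 : FrX :=
  ⟨0x80080a000804040e000021010020010000020408804110040044002104800000041220200080100208100000141001080082d0002002801100842200200,
    0xa6, 1, 0x405363768494a1, 7,
    [(0xa6, 1), (0x205396a8, 4), (0x10548796, 4), (0x214396a7, 4), (0x205396a8, 4), (0x10548796, 4)],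
    [(0x405363768494a1, 7), (0x42637081, 4), (0x508193a4, 4), (0x758196a2, 4), (0x42637081, 4), (0x508193a4, 4)]⟩

def c_3827 : frmChk tA tA F_3827 = true := by decide +kernel

def r_3827_0 : chkL rootF engF2 tA tA sA_368 sA_368 4 F_3827 [(511, 0, 0)]
    0x1 = true := by
  decide +kernel

theorem f_3827 (h : TabsF) : FrameF repsF 368 F_3827.f :=
  frame_of rfl c_3827 (runs_of engOK r_3827_0) (by decide +kernel) h.1 h.1

def F_3828 : FrX :=
  ⟨0x2002000900044004000e02041000141000800040810000018108002008220108100001200808010812014018000420002002850020008008100802012080,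
    0xa3, 1, 0x3140546392a6, 6,
    [(0xa3, 1), (0x208693a5, 4), (0x10548793, 4), (0x217693a4, 4), (0x208693a5, 4), (0x10548793, 4)],
    [(0x3140546392a6, 6), (0x708594a6, 4), (0x214350a7, 4), (0x217086a5, 4), (0x214350a7, 4), (0x768093a5, 4), (0x216594a8, 4), (0x217086a5, 4), (0x216594a8, 4), (0x437586a0, 4), (0x217086a5, 4), (0x768093a5, 4)]⟩

def c_3828 : frmChk tA tB F_3828 = true := by decide +kernel

def r_3828_0 : chkL rootF engF2 tA tB sA_368 sB_368 4 F_3828 [(511, 0, 0)]
    0x103c2e03c1b = true := by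
  decide +kernel

theorem f_3828 (h : TabsF) : FrameF repsF 368 F_3828.f :=
  frame_of rfl c_3828 (runs_of engOK r_3828_0) (by decide +kernel) h.1 h.2

def F_3829 : FrX :=
  ⟨0x1001040012008080000e0084080041000810100006000004804020202018008208010080010011026801000804102002200008a10001000000a004211010,
    0xa3, 1, 0x1020304151618298a6, 9,
    [(0xa3, 1), (0x207584a6, 4), (0x10547693, 4), (0x647593a8, 4), (0x10547693, 4), (0x216485a7, 4), (0x208693a4, 4), (0x647593a8, 4), (0x208693a4, 4), (0x106574a8, 4), (0x647593a8, 4), (0x216485a7, 4)],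
    [(0x1020304151618298a6, 9), (0x425183a9, 4), (0x40516397, 4), (0x205186a7, 4), (0x425183a9, 4), (0x40516397, 4)]⟩

def c_3829 : frmChk tB tA F_3829 = true := by decide +kernel

def r_3829_0 : chkL rootF engF2 tB tA sB_368 sA_368 4 F_3829 [(511, 0, 0)]
    0x105c1705c1b = true := by
  decide +kernel

theorem f_3829 (h : TabsF) : FrameF repsF 368 F_3829.f :=
  frame_of rfl c_3829 (runs_of engOK r_3829_0) (by decide +kernel) h.2 h.1

def F_3830 : FrX :=
  ⟨0x1001040012008080000e00840800410008101000042d00004020010000000882808200081200010800041012040400224040201204200081080000240208,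
    0xa3, 1, 0x2030537583a3, 6,
    [(0xa3, 1), (0x207584a6, 4), (0x10547693, 4), (0x647593a8, 4), (0x10547693, 4), (0x216485a7, 4), (0x208693a4, 4), (0x647593a8, 4), (0x208693a4, 4), (0x106574a8, 4), (0x647593a8, 4), (0x216485a7, 4)],
    [(0x2030537583a3, 6), (0x305472a6, 4), (0x31627498, 4), (0x647298a5, 4), (0x31627498, 4), (0x106475a2, 4), (0x306598a4, 4), (0x647298a5, 4), (0x306598a4, 4), (0x314276a5, 4), (0x647298a5, 4), (0x106475a2, 4)]⟩

def c_3830 : frmChk tB tB F_3830 = true := by decide +kernel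

def r_3830_0 : chkL rootF engF2 tB tB sB_368 sB_368 4 F_3830 [(511, 0, 0)]
    0x118c660781e03c0f = true := by
  decide +kernel

theorem f_3830 (h : TabsF) : FrameF repsF 368 F_3830.f :=
  frame_of rfl c_3830 (runs_of engOK r_3830_0) (by decide +kernel) h.2 h.2

def F_3831 : FrX :=
  ⟨0x80080a000804040e00002101002001000002040886600000110080000002208004822001204000080042040088401009102001080410204200280020010,
    0xa6, 1, 0x314253637583a3, 7,
    [(0xa6, 1), (0x205396a8, 4), (0x10548796, 4), (0x214396a7, 4), (0x205396a8, 4), (0x10548796, 4)],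
    [(0x314253637583a3, 7), (0x406271a5, 4), (0x30517298, 4), (0x527198a6, 4), (0x30517298, 4), (0x435276a1, 4), (0x406598a2, 4), (0x527198a6, 4), (0x406598a2, 4), (0x213075a6, 4), (0x527198a6, 4), (0x435276a1, 4)]⟩

def c_3831 : frmChk tA tB F_3831 = true := by decide +kernel

def r_3831_0 : chkL rootF engF2 tA tB sA_368 sB_368 4 F_3831 [(511, 0, 0)]
    0x1 = true := by
  decide +kernel

theorem f_3831 (h : TabsF) : FrameF repsF 368 F_3831.f :=
  frame_of rfl c_3831 (runs_of engOK r_3831_0) (by decide +kernel) h.1 h.2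

theorem cl_368 (h : TabsF) : ∀ f ∈ fr_368, FrameF repsF 368 f :=
  List.forall_mem_cons.2 ⟨f_3804 h, List.forall_mem_cons.2 ⟨f_3805 h, List.forall_mem_cons.2 ⟨f_3806 h, List.forall_mem_cons.2 ⟨f_3807 h, List.forall_mem_cons.2 ⟨f_3808 h, List.forall_mem_cons.2 ⟨f_3809 h, List.forall_mem_cons.2 ⟨f_3810 h, List.forall_mem_cons.2 ⟨f_3811 h, List.forall_mem_cons.2 ⟨f_3812 h, List.forall_mem_cons.2 ⟨f_3813 h, List.forall_mem_cons.2 ⟨f_3814 h, List.forall_mem_cons.2 ⟨f_3815 h, List.forall_mem_cons.2 ⟨f_3816 h, List.forall_mem_cons.2 ⟨f_3817 h, List.forall_mem_cons.2 ⟨f_3818 h, List.forall_mem_cons.2 ⟨f_3819 h, List.forall_mem_cons.2 ⟨f_3820 h, List.forall_mem_cons.2 ⟨f_3821 h, List.forall_mem_cons.2 ⟨f_3822 h, List.forall_mem_cons.2 ⟨f_3823 h, List.forall_mem_cons.2 ⟨f_3824 h, List.forall_mem_cons.2 ⟨f_3825 h, List.forall_mem_cons.2 ⟨f_3826 h, List.forall_mem_cons.2 ⟨f_3827 h, List.forall_mem_cons.2 ⟨f_3828 h, List.forall_mem_cons.2 ⟨f_3829 h, List.forall_mem_cons.2 ⟨f_3830 h, List.forall_mem_cons.2 ⟨f_3831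 h,
    fun _ h0 => absurd h0 List.not_mem_nil⟩⟩⟩⟩⟩⟩⟩⟩⟩⟩⟩⟩⟩⟩⟩⟩⟩⟩⟩⟩⟩⟩⟩⟩⟩⟩⟩⟩

def F_3832 : FrX :=
  ⟨0x80080a000804040e00002101002001000002040890020008048004022000200030880800804041010008000401102400100080484021020040806900100,
    0xa6, 1, 0x5260748193a6, 6,
    [(0xa6, 1), (0x205396a8, 4), (0x10548796, 4), (0x214396a7, 4), (0x205396a8, 4), (0x10548796, 4)],
    [(0x5260748193a6, 6), (0x306592a1, 4), (0x30417286, 4), (0x308597a4, 4), (0x306592a1, 4), (0x30417286, 4)]⟩

def c_3832 : frmChk tA tA F_3832 = true := by decide +kernel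

def r_3832_0 : chkL rootF engF2 tA tA sA_369 sA_369 4 F_3832 [(511, 0, 0)]
    0x11c43a11c0f = true := by
  decide +kernel

theorem f_3832 (h : TabsF) : FrameF repsF 369 F_3832.f :=
  frame_of rfl c_3832 (runs_of engOK r_3832_0) (by decide +kernel) h.1 h.1

def F_3833 : FrX :=
  ⟨0x1c21020000040440000020410001010000820408a000110000002240020404400008060008800600088120003808810810000044100800c001020408800,
    0x0, 0, 0x21537387, 4,
    [(0x0, 0), (0x205386a9, 4), (0x105487a9, 4), (0x214376a9, 4), (0x205386a9, 4), (0x105487a9, 4)],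
    [(0x21537387, 4), (0x106573a9, 4), (0x204385a9, 4), (0x217486a9, 4), (0x106573a9, 4), (0x204385a9, 4)]⟩

def c_3833 : frmChk tA tA F_3833 = true := by decide +kernel

def r_3833_0 : chkL rootF engF2 tA tA sA_369 sA_369 4 F_3833 [(255, 0, 0), (256, 0, 13)]
    0x4336c3a00ac35 = true := by
  decide +kernel

def r_3833_1 : chkL rootF engF2 tA tA sA_369 sA_369 4 F_3833 [(256, 13, 0)]
    0x109c55 = true := by
  decide +kernel

theorem f_3833 (h : TabsF) : FrameF repsF 369 F_3833.f :=
  frame_of rfl c_3833 ((runs_of engOK r_3833_0).append (runs_of engOK r_3833_1)) (by decide +kernel) h.1 h.1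

def F_3834 : FrX :=
  ⟨0x80080a000804040e00002101002001000002040881200001410020800002208010820081400020080040800211008008002811000408081900088060004,
    0xa6, 1, 0x2132657192a3, 6,
    [(0xa6, 1), (0x205396a8, 4), (0x10548796, 4), (0x214396a7, 4), (0x205396a8, 4), (0x10548796, 4)],
    [(0x2132657192a3, 6), (0x318590a6, 4), (0x31647082, 4), (0x315297a4, 4), (0x318590a6, 4), (0x31647082, 4)]⟩

def c_3834 : frmChk tA tA F_3834 = true := by decide +kernel

def r_3834_0 : chkL rootF engF2 tA tA sA_369 sA_369 4 F_3834 [(511, 0, 0)]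
    0x47409c0f14d0b0d41d = true := by
  decide +kernel

theorem f_3834 (h : TabsF) : FrameF repsF 369 F_3834.f :=
  frame_of rfl c_3834 (runs_of engOK r_3834_0) (by decide +kernel) h.1 h.1

def F_3835 : FrX :=
  ⟨0x2002000900044004000e02041000141000800040800802080090020400200c010200440009040004140000044010100020400204051000210009001400c8,
    0xa3, 1, 0x1031425265748095a3, 9,
    [(0xa3, 1), (0x208693a5, 4), (0x10548793, 4), (0x217693a4, 4), (0x208693a5, 4), (0x10548793, 4)],
    [(0x1031425265748095a3, 9), (0x416085a9, 4), (0x21608397, 4), (0x425360a7, 4), (0x416085a9, 4), (0x21608397, 4)]⟩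

def c_3835 : frmChk tA tA F_3835 = true := by decide +kernel

def r_3835_0 : chkL rootF engF2 tA tA sA_369 sA_369 4 F_3835 [(511, 0, 0)]
    0x105d294a82e03e1c0cc1e06c17 = true := by
  decide +kernel

theorem f_3835 (h : TabsF) : FrameF repsF 369 F_3835.f :=
  frame_of rfl c_3835 (runs_of engOK r_3835_0) (by decide +kernel) h.1 h.1

def F_3836 : FrX :=
  ⟨0x2002000900044004000e02041000141000800040808001004060000208024022100080204080006000881202030000108100201480008808002040008804,
    0xa3, 1, 0x65728490a1, 5,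
    [(0xa3, 1), (0x208693a5, 4), (0x10548793, 4), (0x217693a4, 4), (0x208693a5, 4), (0x10548793, 4)],
    [(0x65728490a1, 5), (0x53628497, 4), (0x105286a9, 4), (0x10436285, 4), (0x105286a9, 4), (0x326485a7, 4), (0x10548397, 4), (0x10436285, 4), (0x10548397, 4), (0x436582a9, 4), (0x10436285, 4), (0x326485a7, 4)]⟩

def c_3836 : frmChk tA tB F_3836 = true := by decide +kernel

def r_3836_0 : chkL rootF engF2 tA tB sA_369 sB_369 4 F_3836 [(511, 0, 0)]
    0x40f0d42d = true := by
  decide +kernel

theorem f_3836 (h : TabsF) : FrameF repsF 369 F_3836.f :=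
  frame_of rfl c_3836 (runs_of engOK r_3836_0) (by decide +kernel) h.1 h.2

def F_3837 : FrX :=
  ⟨0x482000044040440000c2040020009000182040020000882000100110012110004028000201280180080040043020040200091000008804010018800201,
    0xa0, 1, 0x31405464728798a0, 8,
    [(0xa0, 1), (0x538690a2, 4), (0x548790a1, 4), (0x21437690, 4), (0x538690a2, 4), (0x548790a1, 4)],
    [(0x31405464728798a0, 8), (0x104295a7, 4), (0x426098a3, 4), (0x42617385, 4), (0x104295a7, 4), (0x426098a3, 4)]⟩

def c_3837 : frmChk tA tA F_3837 = true := by decide +kernel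

def r_3837_0 : chkL rootF engF2 tA tA sA_369 sA_369 4 F_3837 [(511, 0, 0)]
    0x103c1706c2e06c2b = true := by
  decide +kernel

theorem f_3837 (h : TabsF) : FrameF repsF 369 F_3837.f :=
  frame_of rfl c_3837 (runs_of engOK r_3837_0) (by decide +kernel) h.1 h.1

def F_3838 : FrX :=
  ⟨0x80080a000804040e0000210100200100000204088110101200403000020200400010206000800400089000003808010802400044101010c0010100c0800,
    0xa6, 1, 0x10205072a0, 5,
    [(0xa6, 1), (0x205396a8, 4), (0x10548796, 4), (0x214396a7, 4), (0x205396a8, 4), (0x10548796, 4)],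
    [(0x10205072a0, 5), (0x216384a7, 4), (0x426195a0, 4), (0x21648395, 4), (0x426195a0, 4), (0x31647082, 4), (0x438695a7, 4), (0x21648395, 4), (0x438695a7, 4), (0x416283a0, 4), (0x21648395, 4), (0x31647082, 4)]⟩

def c_3838 : frmChk tA tB F_3838 = true := by decide +kernel

def r_3838_0 : chkL rootF engF2 tA tB sA_369 sB_369 4 F_3838 [(511, 0, 0)]
    0x1 = true := by
  decide +kernel

theorem f_3838 (h : TabsF) : FrameF repsF 369 F_3838.f :=
  frame_of rfl c_3838 (runs_of engOK r_3838_0) (by decide +kernel) h.1 h.2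

def F_3839 : FrX :=
  ⟨0x80080a000804040e000021010020010000020408804110040044002104800000041220200080100208100000141111000000d0022000801100842600200,
    0xa6, 1, 0x405363768494a1, 7,
    [(0xa6, 1), (0x205396a8, 4), (0x10548796, 4), (0x214396a7, 4), (0x205396a8, 4), (0x10548796, 4)],
    [(0x405363768494a1, 7), (0x42637081, 4), (0x508193a4, 4), (0x758196a2, 4), (0x42637081, 4), (0x508193a4, 4)]⟩

def c_3839 : frmChk tA tA F_3839 = true := by decide +kernel

def r_3839_0 : chkL rootF engF2 tA tA sA_369 sA_369 4 F_3839 [(511, 0, 0)]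
    0x11684b = true := by
  decide +kernel

theorem f_3839 (h : TabsF) : FrameF repsF 369 F_3839.f :=
  frame_of rfl c_3839 (runs_of engOK r_3839_0) (by decide +kernel) h.1 h.1

def F_3840 : FrX :=
  ⟨0x2002000900044004000e020410001410008000408080010020a000011000a202100202004020010220800402010000141082110001a01000000804010250,
    0xa3, 1, 0x3062758194a3, 6,
    [(0xa3, 1), (0x208693a5, 4), (0x10548793, 4), (0x217693a4, 4), (0x208693a5, 4), (0x10548793, 4)],
    [(0x3062758194a3, 6), (0x214063a7, 4), (0x40518397, 4), (0x405286a9, 4), (0x214063a7, 4), (0x40518397, 4)]⟩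

def c_3840 : frmChk tA tA F_3840 = true := by decide +kernel

def r_3840_0 : chkL rootF engF2 tA tA sA_369 sA_369 4 F_3840 [(511, 0, 0)]
    0x111c27 = true := by
  decide +kernel

theorem f_3840 (h : TabsF) : FrameF repsF 369 F_3840.f :=
  frame_of rfl c_3840 (runs_of engOK r_3840_0) (by decide +kernel) h.1 h.1

def F_3841 : FrX :=
  ⟨0x2002000900044004000e020410001410008000408008020800900204008008820000241009040004140000044010100020808080204200a00022000e4040,
    0xa3, 1, 0x2031506592a6, 6,
    [(0xa3, 1), (0x208693a5, 4), (0x10548793, 4), (0x217693a4, 4), (0x208693a5, 4), (0x10548793, 4)],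
    [(0x2031506592a6, 6), (0x768495a1, 4), (0x205364a7, 4), (0x207681a4, 4), (0x205364a7, 4), (0x718693a4, 4), (0x204195a8, 4), (0x207681a4, 4), (0x204195a8, 4), (0x537481a6, 4), (0x207681a4, 4), (0x718693a4, 4)]⟩

def c_3841 : frmChk tA tB F_3841 = true := by decide +kernel

def r_3841_0 : chkL rootF engF2 tA tB sA_369 sB_369 4 F_3841 [(511, 0, 0)]
    0x1 = true := by
  decide +kernel

theorem f_3841 (h : TabsF) : FrameF repsF 369 F_3841.f :=
  frame_of rfl c_3841 (runs_of engOK r_3841_0) (by decide +kernel) h.1 h.2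

def F_3842 : FrX :=
  ⟨0x482000044040440000c204002000900018204000202202000202020002402801040010108100018000004020302000c008011000408482000904000052,
    0xa0, 1, 0x104052708190a5, 7,
    [(0xa0, 1), (0x538690a2, 4), (0x548790a1, 4), (0x21437690, 4), (0x538690a2, 4), (0x548790a1, 4)],
    [(0x104052708190a5, 7), (0x607295a3, 4), (0x407298a1, 4), (0x31647285, 4), (0x607295a3, 4), (0x407298a1, 4)]⟩

def c_3842 : frmChk tA tA F_3842 = true := by decide +kernel

def r_3842_0 : chkL rootF engF2 tA tA sA_369 sA_369 4 F_3842 [(511, 0, 0)]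
    0x1926c10b81d05c272689c3140f09c3305c17 = true := by
  decide +kernel

theorem f_3842 (h : TabsF) : FrameF repsF 369 F_3842.f :=
  frame_of rfl c_3842 (runs_of engOK r_3842_0) (by decide +kernel) h.1 h.1

def F_3843 : FrX :=
  ⟨0x80080a000804040e0000210100200100000204089241000400800400044000202040405000000d000048000822201004900101030000820240005080080,
    0xa6, 1, 0x314362a8, 4,
    [(0xa6, 1), (0x205396a8, 4), (0x10548796, 4), (0x214396a7, 4), (0x205396a8, 4), (0x10548796, 4)],
    [(0x314362a8, 4), (0x426075a1, 4), (0x30517298, 4), (0x217598a4, 4), (0x30517298, 4), (0x216374a5, 4), (0x416098a2, 4), (0x217598a4, 4), (0x416098a2, 4), (0x305271a4, 4), (0x217598a4, 4), (0x216374a5, 4)]⟩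

def c_3843 : frmChk tA tB F_3843 = true := by decide +kernel

def r_3843_0 : chkL rootF engF2 tA tB sA_369 sB_369 4 F_3843 [(511, 0, 0)]
    0x1 = true := by
  decide +kernel

theorem f_3843 (h : TabsF) : FrameF repsF 369 F_3843.f :=
  frame_of rfl c_3843 (runs_of engOK r_3843_0) (by decide +kernel) h.1 h.2

def F_3844 : FrX :=
  ⟨0x80080a000804040e00002101002001000002040886600000110080000002208004822001204000080042040088410001012005080412204200200020010,
    0xa6, 1, 0x203140536486a6, 7,
    [(0xa6, 1), (0x205396a8, 4), (0x10548796, 4), (0x214396a7, 4), (0x205396a8, 4), (0x10548796, 4)],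
    [(0x203140536486a6, 7), (0x406271a5, 4), (0x436198a7, 4), (0x527198a6, 4), (0x436198a7, 4), (0x213075a6, 4), (0x406598a2, 4), (0x527198a6, 4), (0x406598a2, 4), (0x435276a1, 4), (0x527198a6, 4), (0x213075a6, 4)]⟩

def c_3844 : frmChk tA tB F_3844 = true := by decide +kernel

def r_3844_0 : chkL rootF engF2 tA tB sA_369 sB_369 4 F_3844 [(511, 0, 0)]
    0x1 = true := by
  decide +kernel

theorem f_3844 (h : TabsF) : FrameF repsF 369 F_3844.f :=
  frame_of rfl c_3844 (runs_of engOK r_3844_0) (by decide +kernel) h.1 h.2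

def F_3845 : FrX :=
  ⟨0x482000044040440000c204002000900018204000110040120090020000409000821001002a000409000801000210002040004080420494010020200084,
    0xa0, 1, 0x3142758690a0, 6,
    [(0xa0, 1), (0x538690a2, 4), (0x548790a1, 4), (0x21437690, 4), (0x538690a2, 4), (0x548790a1, 4)],
    [(0x3142758690a0, 6), (0x718690a4, 4), (0x657290a3, 4), (0x21438590, 4), (0x718690a4, 4), (0x657290a3, 4)]⟩

def c_3845 : frmChk tA tA F_3845 = true := by decide +kernel

def r_3845_0 : chkL rootF engF2 tA tA sA_369 sA_369 4 F_3845 [(511, 0, 0)]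
    0x10740f = true := by
  decide +kernel

theorem f_3845 (h : TabsF) : FrameF repsF 369 F_3845.f :=
  frame_of rfl c_3845 (runs_of engOK r_3845_0) (by decide +kernel) h.1 h.1

def F_3846 : FrX :=
  ⟨0x80080a000804040e00002101002001000002040882200008310080100002208004820001101080080044400100419000020010840400204240080820010,
    0xa6, 1, 0x102140657181a3, 7,
    [(0xa6, 1), (0x205396a8, 4), (0x10548796, 4), (0x214396a7, 4), (0x205396a8, 4), (0x10548796, 4)],
    [(0x102140657181a3, 7), (0x406271a5, 4), (0x52618493, 4), (0x516293a7, 4), (0x52618493, 4), (0x517680a2, 4), (0x407593a1, 4), (0x516293a7, 4), (0x407593a1, 4), (0x216584a7, 4), (0x516293a7, 4), (0x517680a2, 4)]⟩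

def c_3846 : frmChk tA tB F_3846 = true := by decide +kernel

def r_3846_0 : chkL rootF engF2 tA tB sA_369 sB_369 4 F_3846 [(511, 0, 0)]
    0x472 = true := by
  decide +kernel

theorem f_3846 (h : TabsF) : FrameF repsF 369 F_3846.f :=
  frame_of rfl c_3846 (runs_of engOK r_3846_0) (by decide +kernel) h.1 h.2

def F_3847 : FrX :=
  ⟨0x1001040012008080000e008408004100081010000420101000880220020000a0440202001080100120201804101008404100000210804041010008020210,
    0xa3, 1, 0x102092a7, 4,
    [(0xa3, 1), (0x207584a6, 4), (0x10547693, 4), (0x647593a8, 4), (0x10547693, 4), (0x216485a7, 4), (0x208693a4, 4), (0x647593a8, 4), (0x208693a4, 4), (0x106574a8, 4), (0x647593a8, 4), (0x216485a7, 4)],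
    [(0x102092a7, 4), (0x638492a5, 4), (0x205471a6, 4), (0x647183a5, 4), (0x205471a6, 4), (0x648590a3, 4), (0x43718692, 4), (0x647183a5, 4), (0x43718692, 4), (0x206583a4, 4), (0x647183a5, 4), (0x648590a3, 4)]⟩

def c_3847 : frmChk tB tB F_3847 = true := by decide +kernel

def r_3847_0 : chkL rootF engF2 tB tB sB_369 sB_369 4 F_3847 [(511, 0, 0)]
    0x109c2e = true := by
  decide +kernel

theorem f_3847 (h : TabsF) : FrameF repsF 369 F_3847.f :=
  frame_of rfl c_3847 (runs_of engOK r_3847_0) (by decide +kernel) h.2 h.2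

theorem cl_369 (h : TabsF) : ∀ f ∈ fr_369, FrameF repsF 369 f :=
  List.forall_mem_cons.2 ⟨f_3832 h, List.forall_mem_cons.2 ⟨f_3833 h, List.forall_mem_cons.2 ⟨f_3834 h, List.forall_mem_cons.2 ⟨f_3835 h, List.forall_mem_cons.2 ⟨f_3836 h, List.forall_mem_cons.2 ⟨f_3837 h, List.forall_mem_cons.2 ⟨f_3838 h, List.forall_mem_cons.2 ⟨f_3839 h, List.forall_mem_cons.2 ⟨f_3840 h, List.forall_mem_cons.2 ⟨f_3841 h, List.forall_mem_cons.2 ⟨f_3842 h, List.forall_mem_cons.2 ⟨f_3843 h, List.forall_mem_cons.2 ⟨f_3844 h, List.forall_mem_cons.2 ⟨f_3845 h, List.forall_mem_cons.2 ⟨f_3846 h, List.forall_mem_cons.2 ⟨f_3847 h,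
    fun _ h0 => absurd h0 List.not_mem_nil⟩⟩⟩⟩⟩⟩⟩⟩⟩⟩⟩⟩⟩⟩⟩⟩

/-- the classes finished in this module -/
theorem all_L22 (h : TabsF) : ∀ p ∈ ([(347, fr_347), (348, fr_348), (349, fr_349), (350, fr_350), (351, fr_351), (352, fr_352), (353, fr_353), (354, fr_354), (355, fr_355), (356, fr_356), (357, fr_357), (358, fr_358), (359, fr_359), (360, fr_360), (361, fr_361), (362, fr_362), (363, fr_363), (364, fr_364), (365, fr_365), (366, fr_366), (367, fr_367), (368, fr_368), (369, fr_369)] : List (ℕ × List ℕ)),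
    ∀ f ∈ p.2, FrameF repsF p.1 f :=
  List.forall_mem_cons.2 ⟨cl_347 h, List.forall_mem_cons.2 ⟨cl_348 h, List.forall_mem_cons.2 ⟨cl_349 h, List.forall_mem_cons.2 ⟨cl_350 h, List.forall_mem_cons.2 ⟨cl_351 h, List.forall_mem_cons.2 ⟨cl_352 h, List.forall_mem_cons.2 ⟨cl_353 h, List.forall_mem_cons.2 ⟨cl_354 h, List.forall_mem_cons.2 ⟨cl_355 h, List.forall_mem_cons.2 ⟨cl_356 h, List.forall_mem_cons.2 ⟨cl_357 h, List.forall_mem_cons.2 ⟨cl_358 h, List.forall_mem_cons.2 ⟨cl_359 h, List.forall_mem_cons.2 ⟨cl_360 h, List.forall_mem_cons.2 ⟨cl_361 h, List.forall_mem_cons.2 ⟨cl_362 h, List.forall_mem_cons.2 ⟨cl_363 h, List.forall_mem_cons.2 ⟨cl_364 h, List.forall_mem_cons.2 ⟨cl_365 h, List.forall_mem_cons.2 ⟨cl_366 h, List.forall_mem_cons.2 ⟨cl_367 h, List.forall_mem_cons.2 ⟨cl_368 h, List.forall_mem_cons.2 ⟨cl_369 h, fun _ h0 => absurd h0 List.not_mem_nil⟩⟩⟩⟩⟩⟩⟩⟩⟩⟩⟩⟩⟩⟩⟩⟩⟩⟩⟩⟩⟩⟩⟩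

end Pool.Agent.Gen.TY.F
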