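import Pool.Agent.Helper20.TY.EngF
import Pool.Agent.Helper20.TY.TabG
import Pool.Agent.Gen.TY.FS.SufA
import Pool.Agent.Gen.TY.FS.SufB
import Pool.Agent.Gen.TY.FR.Dat

/-!
MP_8ee768_co, project TH-Y', stage F: frames.
-/

set_option autoImplicit false

namespace Pool.Agent.Gen.TY.F

open Pool.Agent.Helper79.CV
open Pool.Agent.Helper20.TY
open Pool.Agent.Helper20.TY.EngF
open Pool.Agent.Gen.TY.FS
open Pool.Agent.Gen.TY.FR

def F_4601 : FrX :=
  ⟨0x482000044040440000c2040020009000182040010080080101000808008404804802000804040410000220408010400101800110020820040820140084,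
    0xa0, 1, 0x324152628195a8, 7,
    [(0xa0, 1), (0x538690a2, 4), (0x548790a1, 4), (0x21437690, 4), (0x538690a2, 4), (0x548790a1, 4)],
    [(0x324152628195a8, 7), (0x436092a5, 4), (0x438091a7, 4), (0x21437586, 4), (0x436092a5, 4), (0x438091a7, 4)]⟩

def c_4601 : frmChk tA tA F_4601 = true := by decide +kernel

def r_4601_0 : chkL rootF engF2 tA tA sA_416 sA_416 4 F_4601 [(511, 0, 0)]
    0x1074d18642e = true := by
  decide +kernel

theorem f_4601 (h : TabsF) : FrameF repsF 416 F_4601.f :=
  frame_of rfl c_4601 (runs_of engOK r_4601_0) (by decide +kernel) h.1 h.1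

def F_4602 : FrX :=
  ⟨0x1c210200000404400000204100010100008204089008008000080240020040402040404400400600024181080a008410100080022008020260020080080,
    0x0, 0, 0x53637486, 4,
    [(0x0, 0), (0x205386a9, 4), (0x105487a9, 4), (0x214376a9, 4), (0x205386a9, 4), (0x105487a9, 4)],
    [(0x53637486, 4), (0x20437586, 4), (0x107384a9, 4), (0x436587a9, 4), (0x107384a9, 4), (0x21536487, 4), (0x207685a9, 4), (0x436587a9, 4), (0x207685a9, 4), (0x10657483, 4), (0x436587a9, 4), (0x21536487, 4)]⟩

def c_4602 : frmChk tA tB F_4602 = true := by decide +kernel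

def r_4602_0 : chkL rootF engF2 tA tB sA_416 sB_416 4 F_4602 [(511, 0, 0)]
    0x1435298587216a52 = true := by
  decide +kernel

theorem f_4602 (h : TabsF) : FrameF repsF 416 F_4602.f :=
  frame_of rfl c_4602 (runs_of engOK r_4602_0) (by decide +kernel) h.1 h.2

def F_4603 : FrX :=
  ⟨0x482000044040440000c20400200090001820400100800801100042200004228084000010010801200004408020080410410110006002020100100800d0,
    0xa0, 1, 0x305063718797a0, 7,
    [(0xa0, 1), (0x538690a2, 4), (0x548790a1, 4), (0x21437690, 4), (0x538690a2, 4), (0x548790a1, 4)],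
    [(0x305063718797a0, 7), (0x106385a2, 4), (0x438591a7, 4), (0x64728590, 4), (0x106385a2, 4), (0x438591a7, 4)]⟩

def c_4603 : frmChk tA tA F_4603 = true := by decide +kernel

def r_4603_0 : chkL rootF engF2 tA tA sA_416 sA_416 4 F_4603 [(511, 0, 0)]
    0x1 = true := by
  decide +kernel

theorem f_4603 (h : TabsF) : FrameF repsF 416 F_4603.f :=
  frame_of rfl c_4603 (runs_of engOK r_4603_0) (by decide +kernel) h.1 h.1

def F_4604 : FrX :=
  ⟨0x482000044040440000c2040020009000182040001080480001100100020101880800040a08202000084020508020040000090102201082010020200084,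
    0xa0, 1, 0x10204154648294a3, 8,
    [(0xa0, 1), (0x538690a2, 4), (0x548790a1, 4), (0x21437690, 4), (0x538690a2, 4), (0x548790a1, 4)],
    [(0x10204154648294a3, 8), (0x516382a0, 4), (0x42637190, 4), (0x637584a9, 4), (0x516382a0, 4), (0x42637190, 4)]⟩

def c_4604 : frmChk tA tA F_4604 = true := by decide +kernel

def r_4604_0 : chkL rootF engF2 tA tA sA_416 sA_416 4 F_4604 [(511, 0, 0)]
    0x40f = true := by
  decide +kernel

theorem f_4604 (h : TabsF) : FrameF repsF 416 F_4604.f :=
  frame_of rfl c_4604 (runs_of engOK r_4604_0) (by decide +kernel) h.1 h.1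

def F_4605 : FrX :=
  ⟨0x80080a000804040e0000210100200100000204089002000141000080a04100003101000100402100800800080804800810084101004012004c280800080,
    0xa6, 1, 0x304362768195a6, 7,
    [(0xa6, 1), (0x205396a8, 4), (0x10548796, 4), (0x214396a7, 4), (0x205396a8, 4), (0x10548796, 4)],
    [(0x304362768195a6, 7), (0x637594a1, 4), (0x21758390, 4), (0x407586a2, 4), (0x637594a1, 4), (0x21758390, 4)]⟩

def c_4605 : frmChk tA tA F_4605 = true := by decide +kernel

def r_4605_0 : chkL rootF engF2 tA tA sA_416 sA_416 4 F_4605 [(511, 0, 0)]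
    0x1 = true := by
  decide +kernel

theorem f_4605 (h : TabsF) : FrameF repsF 416 F_4605.f :=
  frame_of rfl c_4605 (runs_of engOK r_4605_0) (by decide +kernel) h.1 h.1

def F_4606 : FrX :=
  ⟨0x2002000900044004000e0204100014100080004080040048400420208200088002002400110400040c0001008000600080000a001090402200a202045000,
    0xa3, 1, 0x5164718093a0, 6,
    [(0xa3, 1), (0x208693a5, 4), (0x10548793, 4), (0x217693a4, 4), (0x208693a5, 4), (0x10548793, 4)],
    [(0x5164718093a0, 6), (0x408391a2, 4), (0x506183a7, 4), (0x54728396, 4), (0x408391a2, 4), (0x506183a7, 4)]⟩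

def c_4606 : frmChk tA tA F_4606 = true := by decide +kernel

def r_4606_0 : chkL rootF engF2 tA tA sA_416 sA_416 4 F_4606 [(511, 0, 0)]
    0x43a30c2d = true := by
  decide +kernel

theorem f_4606 (h : TabsF) : FrameF repsF 416 F_4606.f :=
  frame_of rfl c_4606 (runs_of engOK r_4606_0) (by decide +kernel) h.1 h.1

def F_4607 : FrX :=
  ⟨0x80080a000804040e0000210100200100000204089010001810401000820200402010040400400500024800080a001410024000022001020260080808080,
    0xa6, 1, 0x3141527183a2, 6,
    [(0xa6, 1), (0x205396a8, 4), (0x10548796, 4), (0x214396a7, 4), (0x205396a8, 4), (0x10548796, 4)],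
    [(0x3141527183a2, 6), (0x314286a0, 4), (0x32647095, 4), (0x42638195, 4), (0x32647095, 4), (0x216384a7, 4), (0x618395a0, 4), (0x42638195, 4), (0x618395a0, 4), (0x43627081, 4), (0x42638195, 4), (0x216384a7, 4)]⟩

def c_4607 : frmChk tA tB F_4607 = true := by decide +kernel

def r_4607_0 : chkL rootF engF2 tA tB sA_416 sB_416 4 F_4607 [(511, 0, 0)]
    0x1 = true := by
  decide +kernel

theorem f_4607 (h : TabsF) : FrameF repsF 416 F_4607.f :=
  frame_of rfl c_4607 (runs_of engOK r_4607_0) (by decide +kernel) h.1 h.2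

def F_4608 : FrX :=
  ⟨0x2002000900044004000e020410001410008000408010004810080220008080844000041101000050004200088280440025000020300400200400100c1040,
    0xa3, 1, 0x3141508596a2, 6,
    [(0xa3, 1), (0x208693a5, 4), (0x10548793, 4), (0x217693a4, 4), (0x208693a5, 4), (0x10548793, 4)],
    [(0x3141508596a2, 6), (0x308791a5, 4), (0x54628397, 4), (0x10628793, 4), (0x54628397, 4), (0x718093a4, 4), (0x316290a5, 4), (0x10628793, 4), (0x316290a5, 4), (0x10547398, 4), (0x10628793, 4), (0x718093a4, 4)]⟩

def c_4608 : frmChk tA tB F_4608 = true := by decide +kernel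

def r_4608_0 : chkL rootF engF2 tA tB sA_416 sB_416 4 F_4608 [(511, 0, 0)]
    0x1 = true := by
  decide +kernel

theorem f_4608 (h : TabsF) : FrameF repsF 416 F_4608.f :=
  frame_of rfl c_4608 (runs_of engOK r_4608_0) (by decide +kernel) h.1 h.2

def F_4609 : FrX :=
  ⟨0x2002000900044004000e020410001410008000408010002841012010008208020000041101000042021004008220010400400050112001002040100c4001,
    0xa3, 1, 0x2040647582a6, 6,
    [(0xa3, 1), (0x208693a5, 4), (0x10548793, 4), (0x217693a4, 4), (0x208693a5, 4), (0x10548793, 4)],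
    [(0x2040647582a6, 6), (0x738492a0, 4), (0x41507692, 4), (0x638192a5, 4), (0x738492a0, 4), (0x41507692, 4)]⟩

def c_4609 : frmChk tA tA F_4609 = true := by decide +kernel

def r_4609_0 : chkL rootF engF2 tA tA sA_416 sA_416 4 F_4609 [(511, 0, 0)]
    0x10781d21d0743b06 = true := by
  decide +kernel

theorem f_4609 (h : TabsF) : FrameF repsF 416 F_4609.f :=
  frame_of rfl c_4609 (runs_of engOK r_4609_0) (by decide +kernel) h.1 h.1

def F_4610 : FrX :=
  ⟨0x2002000900044004000e02041000141000800040800400214410200010801042000202004082001008080042020402008080050041080010101080220041,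
    0xa3, 1, 0x314352607581a6, 7,
    [(0xa3, 1), (0x208693a5, 4), (0x10548793, 4), (0x217693a4, 4), (0x208693a5, 4), (0x10548793, 4)],
    [(0x314352607581a6, 7), (0x657490a3, 4), (0x32718690, 4), (0x418590a2, 4), (0x657490a3, 4), (0x32718690, 4)]⟩

def c_4610 : frmChk tA tA F_4610 = true := by decide +kernel

def r_4610_0 : chkL rootF engF2 tA tA sA_416 sA_416 4 F_4610 [(511, 0, 0)]
    0x436 = true := by
  decide +kernel

theorem f_4610 (h : TabsF) : FrameF repsF 416 F_4610.f :=
  frame_of rfl c_4610 (runs_of engOK r_4610_0) (by decide +kernel) h.1 h.1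

def F_4611 : FrX :=
  ⟨0x482000044040440000c2040020009000182040020000882000200084024022020400040102008112000200822204408810010040200800002041008042,
    0xa0, 1, 0x3141718093a8, 6,
    [(0xa0, 1), (0x538690a2, 4), (0x548790a1, 4), (0x21437690, 4), (0x538690a2, 4), (0x548790a1, 4)],
    [(0x3141718093a8, 6), (0x108295a6, 4), (0x105387a4, 4), (0x10647293, 4), (0x108295a6, 4), (0x105387a4, 4)]⟩

def c_4611 : frmChk tA tA F_4611 = true := by decide +kernel

def r_4611_0 : chkL rootF engF2 tA tA sA_416 sA_416 4 F_4611 [(511, 0, 0)]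
    0x10d435 = true := by
  decide +kernel

theorem f_4611 (h : TabsF) : FrameF repsF 416 F_4611.f :=
  frame_of rfl c_4611 (runs_of engOK r_4611_0) (by decide +kernel) h.1 h.1

def F_4612 : FrX :=
  ⟨0x80080a000804040e00002101002001000002040890010004200804800880041010100410000084102008100828210002020084810000204240200828000,
    0xa6, 1, 0x214262728298a0, 7,
    [(0xa6, 1), (0x205396a8, 4), (0x10548796, 4), (0x214396a7, 4), (0x205396a8, 4), (0x10548796, 4)],
    [(0x214262728298a0, 7), (0x537094a8, 4), (0x517096a2, 4), (0x31647082, 4), (0x537094a8, 4), (0x517096a2, 4)]⟩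

def c_4612 : frmChk tA tA F_4612 = true := by decide +kernel

def r_4612_0 : chkL rootF engF2 tA tA sA_416 sA_416 4 F_4612 [(511, 0, 0)]
    0x44b = true := by
  decide +kernel

theorem f_4612 (h : TabsF) : FrameF repsF 416 F_4612.f :=
  frame_of rfl c_4612 (runs_of engOK r_4612_0) (by decide +kernel) h.1 h.1

def F_4613 : FrX :=
  ⟨0x80080a000804040e000021010020010000020408810804002014008048200000085010200020200080900400a8400408002090002008090082042408000,
    0xa6, 1, 0x103253728595a0, 7,
    [(0xa6, 1), (0x205396a8, 4), (0x10548796, 4), (0x214396a7, 4), (0x205396a8, 4), (0x10548796, 4)],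
    [(0x103253728595a0, 7), (0x426593a7, 4), (0x638194a0, 4), (0x52648193, 4), (0x638194a0, 4), (0x53647092, 4), (0x546281a7, 4), (0x52648193, 4), (0x546281a7, 4), (0x435296a0, 4), (0x52648193, 4), (0x53647092, 4)]⟩

def c_4613 : frmChk tA tB F_4613 = true := by decide +kernel

def r_4613_0 : chkL rootF engF2 tA tB sA_416 sB_416 4 F_4613 [(511, 0, 0)]
    0x4a3 = true := by
  decide +kernel

theorem f_4613 (h : TabsF) : FrameF repsF 416 F_4613.f :=
  frame_of rfl c_4613 (runs_of engOK r_4613_0) (by decide +kernel) h.1 h.2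

def F_4614 : FrX :=
  ⟨0x600020801080810000c0040180410101001004001200028000101200082a040040001042000621000806006000200202000a0400104000500100440042,
    0xa0, 1, 0x21425265768497a6, 8,
    [(0xa0, 1), (0x637584a2, 4), (0x547690a1, 4), (0x64758390, 4), (0x547690a1, 4), (0x21647385, 4), (0x438690a2, 4), (0x64758390, 4), (0x438690a2, 4), (0x657483a1, 4), (0x64758390, 4), (0x21647385, 4)],
    [(0x21425265768497a6, 8), (0x506374a1, 4), (0x20748691, 4), (0x527483a9, 4), (0x506374a1, 4), (0x20748691, 4)]⟩

def c_4614 : frmChk tB tA F_4614 = true := by decide +kernel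

def r_4614_0 : chkL rootF engF2 tB tA sB_416 sA_416 4 F_4614 [(511, 0, 0)]
    0x70cc930cc930cc9053 = true := by
  decide +kernel

theorem f_4614 (h : TabsF) : FrameF repsF 416 F_4614.f :=
  frame_of rfl c_4614 (runs_of engOK r_4614_0) (by decide +kernel) h.2 h.1

def F_4615 : FrX :=
  ⟨0x600020801080810000c00401804101010010040101000044000042208044220084000008008102004041008800208824042010008020040204000c0028,
    0xa0, 1, 0x405461748794a3, 7,
    [(0xa0, 1), (0x637584a2, 4), (0x547690a1, 4), (0x64758390, 4), (0x547690a1, 4), (0x21647385, 4), (0x438690a2, 4), (0x64758390, 4), (0x438690a2, 4), (0x657483a1, 4), (0x64758390, 4), (0x21647385, 4)],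
    [(0x405461748794a3, 7), (0x425173a0, 4), (0x64738590, 4), (0x627381a9, 4), (0x425173a0, 4), (0x64738590, 4)]⟩

def c_4615 : frmChk tB tA F_4615 = true := by decide +kernel

def r_4615_0 : chkL rootF engF2 tB tA sB_416 sA_416 4 F_4615 [(511, 0, 0)]
    0x42b = true := by
  decide +kernel

theorem f_4615 (h : TabsF) : FrameF repsF 416 F_4615.f :=
  frame_of rfl c_4615 (runs_of engOK r_4615_0) (by decide +kernel) h.2 h.1

def F_4616 : FrX :=
  ⟨0x1001040012008080000e00840800410008101000040808048020500100080080404100102100100240010008011000410004208206030004011009801000,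
    0xa3, 1, 0x21304252637198a3, 8,
    [(0xa3, 1), (0x207584a6, 4), (0x10547693, 4), (0x647593a8, 4), (0x10547693, 4), (0x216485a7, 4), (0x208693a4, 4), (0x647593a8, 4), (0x208693a4, 4), (0x106574a8, 4), (0x647593a8, 4), (0x216485a7, 4)],
    [(0x21304252637198a3, 8), (0x538690a4, 4), (0x41738692, 4), (0x207586a1, 4), (0x538690a4, 4), (0x41738692, 4)]⟩

def c_4616 : frmChk tB tA F_4616 = true := by decide +kernel

def r_4616_0 : chkL rootF engF2 tB tA sB_416 sA_416 4 F_4616 [(511, 0, 0)]
    0x44d = true := by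
  decide +kernel

theorem f_4616 (h : TabsF) : FrameF repsF 416 F_4616.f :=
  frame_of rfl c_4616 (runs_of engOK r_4616_0) (by decide +kernel) h.2 h.1

def F_4617 : FrX :=
  ⟨0x1001040012008080000e0084080041000810100004210000110111002100004400410800202020080002240202001040004000010a03080d020108020004,
    0xa3, 1, 0x314362768591a5, 7,
    [(0xa3, 1), (0x207584a6, 4), (0x10547693, 4), (0x647593a8, 4), (0x10547693, 4), (0x216485a7, 4), (0x208693a4, 4), (0x647593a8, 4), (0x208693a4, 4), (0x106574a8, 4), (0x647593a8, 4), (0x216485a7, 4)],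
    [(0x314362768591a5, 7), (0x607583a4, 4), (0x528390a1, 4), (0x41728396, 4), (0x607583a4, 4), (0x528390a1, 4)]⟩

def c_4617 : frmChk tB tA F_4617 = true := by decide +kernel

def r_4617_0 : chkL rootF engF2 tB tA sB_416 sA_416 4 F_4617 [(511, 0, 0)]
    0x40f = true := by
  decide +kernel

theorem f_4617 (h : TabsF) : FrameF repsF 416 F_4617.f :=
  frame_of rfl c_4617 (runs_of engOK r_4617_0) (by decide +kernel) h.2 h.1

def F_4618 : FrX :=
  ⟨0x1001040012008080000e008408004100081010000465000001200020000020300482020010800008280100068008004201002002060240080a2009000040,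
    0xa3, 1, 0x213241546386a6, 7,
    [(0xa3, 1), (0x207584a6, 4), (0x10547693, 4), (0x647593a8, 4), (0x10547693, 4), (0x216485a7, 4), (0x208693a4, 4), (0x647593a8, 4), (0x208693a4, 4), (0x106574a8, 4), (0x647593a8, 4), (0x216485a7, 4)],
    [(0x213241546386a6, 7), (0x305172a6, 4), (0x405298a7, 4), (0x617298a5, 4), (0x405298a7, 4), (0x214376a5, 4), (0x306598a1, 4), (0x617298a5, 4), (0x306598a1, 4), (0x406175a2, 4), (0x617298a5, 4), (0x214376a5, 4)]⟩

def c_4618 : frmChk tB tB F_4618 = true := by decide +kernel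

def r_4618_0 : chkL rootF engF2 tB tB sB_416 sB_416 4 F_4618 [(511, 0, 0)]
    0x1 = true := by
  decide +kernel

theorem f_4618 (h : TabsF) : FrameF repsF 416 F_4618.f :=
  frame_of rfl c_4618 (runs_of engOK r_4618_0) (by decide +kernel) h.2 h.2

def F_4619 : FrX :=
  ⟨0x482000044040440000c2040020009000182040020002010300040180024028008800000028600410800041008002408048005000600400014002200084,
    0xa0, 1, 0x314252657484a0, 7,
    [(0xa0, 1), (0x538690a2, 4), (0x548790a1, 4), (0x21437690, 4), (0x538690a2, 4), (0x548790a1, 4)],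
    [(0x314252657484a0, 7), (0x617490a5, 4), (0x728690a3, 4), (0x42538190, 4), (0x617490a5, 4), (0x728690a3, 4)]⟩

def c_4619 : frmChk tA tA F_4619 = true := by decide +kernel

def r_4619_0 : chkL rootF engF2 tA tA sA_416 sA_416 4 F_4619 [(511, 0, 0)]
    0x1b40350b827 = true := by
  decide +kernel

theorem f_4619 (h : TabsF) : FrameF repsF 416 F_4619.f :=
  frame_of rfl c_4619 (runs_of engOK r_4619_0) (by decide +kernel) h.1 h.1

def F_4620 : FrX :=
  ⟨0x482000044040440000c2040020009000182040001080480000900200010404100402050020041000880c00820102040100102108100120001030080010,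
    0xa0, 1, 0x20314052608395a6, 8,
    [(0xa0, 1), (0x538690a2, 4), (0x548790a1, 4), (0x21437690, 4), (0x538690a2, 4), (0x548790a1, 4)],
    [(0x20314052608395a6, 8), (0x406598a1, 4), (0x40637192, 4), (0x405382a7, 4), (0x406598a1, 4), (0x40637192, 4)]⟩

def c_4620 : frmChk tA tA F_4620 = true := by decide +kernel

def r_4620_0 : chkL rootF engF2 tA tA sA_416 sA_416 4 F_4620 [(511, 0, 0)]
    0x1 = true := by
  decide +kernel

theorem f_4620 (h : TabsF) : FrameF repsF 416 F_4620.f :=
  frame_of rfl c_4620 (runs_of engOK r_4620_0) (by decide +kernel) h.1 h.1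

def F_4621 : FrX :=
  ⟨0x2002000900044004000e0204100014100080004081000001440800200a00488022020001000c004890040110004001002100800030008085000024004201,
    0xa3, 1, 0x325464758197a5, 7,
    [(0xa3, 1), (0x208693a5, 4), (0x10548793, 4), (0x217693a4, 4), (0x208693a5, 4), (0x10548793, 4)],
    [(0x325464758197a5, 7), (0x305174a2, 4), (0x748091a6, 4), (0x62748395, 4), (0x305174a2, 4), (0x748091a6, 4)]⟩

def c_4621 : frmChk tA tA F_4621 = true := by decide +kernel

def r_4621_0 : chkL rootF engF2 tA tA sA_416 sA_416 4 F_4621 [(511, 0, 0)]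
    0x41e = true := by
  decide +kernel

theorem f_4621 (h : TabsF) : FrameF repsF 416 F_4621.f :=
  frame_of rfl c_4621 (runs_of engOK r_4621_0) (by decide +kernel) h.1 h.1

def F_4622 : FrX :=
  ⟨0x2002000900044004000e02041000141000800040800402020810200010202108100024001088000820803000808041040080011005200100204040211000,
    0xa3, 1, 0x204360758190a3, 7,
    [(0xa3, 1), (0x208693a5, 4), (0x10548793, 4), (0x217693a4, 4), (0x208693a5, 4), (0x10548793, 4)],
    [(0x204360758190a3, 7), (0x317590a2, 4), (0x52647398, 4), (0x326475a1, 4), (0x52647398, 4), (0x327180a5, 4), (0x216490a3, 4), (0x326475a1, 4), (0x216490a3, 4), (0x537298a1, 4), (0x326475a1, 4), (0x327180a5, 4)]⟩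

def c_4622 : frmChk tA tB F_4622 = true := by decide +kernel

def r_4622_0 : chkL rootF engF2 tA tB sA_416 sB_416 4 F_4622 [(511, 0, 0)]
    0x10f01d = true := by
  decide +kernel

theorem f_4622 (h : TabsF) : FrameF repsF 416 F_4622.f :=
  frame_of rfl c_4622 (runs_of engOK r_4622_0) (by decide +kernel) h.1 h.2

def F_4623 : FrX :=
  ⟨0x80080a000804040e000021010020010000020408a0000208100400420e8000000012042400400400a2081008001001080020a0002010404000a02041010,
    0xa6, 1, 0x103153657494a5, 7,
    [(0xa6, 1), (0x205396a8, 4), (0x10548796, 4), (0x214396a7, 4), (0x205396a8, 4), (0x10548796, 4)],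
    [(0x103153657494a5, 7), (0x217680a5, 4), (0x317684a9, 4), (0x32407695, 4), (0x217680a5, 4), (0x317684a9, 4)]⟩

def c_4623 : frmChk tA tA F_4623 = true := by decide +kernel

def r_4623_0 : chkL rootF engF2 tA tA sA_416 sA_416 4 F_4623 [(511, 0, 0)]
    0x1 = true := by
  decide +kernel

theorem f_4623 (h : TabsF) : FrameF repsF 416 F_4623.f :=
  frame_of rfl c_4623 (runs_of engOK r_4623_0) (by decide +kernel) h.1 h.1

def F_4624 : FrX :=
  ⟨0x482000044040440000c2040020009000182040001081020004020200020030010222020008006100084200408080108018090002008840002012002002,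
    0xa0, 1, 0x21325165718597a6, 8,
    [(0xa0, 1), (0x538690a2, 4), (0x548790a1, 4), (0x21437690, 4), (0x538690a2, 4), (0x548790a1, 4)],
    [(0x21325165718597a6, 8), (0x305281a6, 4), (0x52708496, 4), (0x415273a9, 4), (0x305281a6, 4), (0x52708496, 4)]⟩

def c_4624 : frmChk tA tA F_4624 = true := by decide +kernel

def r_4624_0 : chkL rootF engF2 tA tA sA_416 sA_416 4 F_4624 [(511, 0, 0)]
    0x1 = true := by
  decide +kernel

theorem f_4624 (h : TabsF) : FrameF repsF 416 F_4624.f :=
  frame_of rfl c_4624 (runs_of engOK r_4624_0) (by decide +kernel) h.1 h.1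

def F_4625 : FrX :=
  ⟨0x482000044040440000c2040020009000182040010100002808000030000422808600000988041000080005012001101100000284080840010010202001,
    0xa0, 1, 0x3143507291a7, 6,
    [(0xa0, 1), (0x538690a2, 4), (0x548790a1, 4), (0x21437690, 4), (0x538690a2, 4), (0x548790a1, 4)],
    [(0x3143507291a7, 6), (0x647581a0, 4), (0x103295a6, 4), (0x326184a0, 4), (0x103295a6, 4), (0x618097a4, 4), (0x32417586, 4), (0x326184a0, 4), (0x32417586, 4), (0x608495a1, 4), (0x326184a0, 4), (0x618097a4, 4)]⟩

def c_4625 : frmChk tA tB F_4625 = true := by decide +kernel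

def r_4625_0 : chkL rootF engF2 tA tB sA_416 sB_416 4 F_4625 [(511, 0, 0)]
    0x1 = true := by
  decide +kernel

theorem f_4625 (h : TabsF) : FrameF repsF 416 F_4625.f :=
  frame_of rfl c_4625 (runs_of engOK r_4625_0) (by decide +kernel) h.1 h.2

def F_4626 : FrX :=
  ⟨0x482000044040440000c2040020009000182040010100008104000208000890030210008004804400020140888001100084004002050022002004080006,
    0xa0, 1, 0x213160718492a3, 7,
    [(0xa0, 1), (0x538690a2, 4), (0x548790a1, 4), (0x21437690, 4), (0x538690a2, 4), (0x548790a1, 4)],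
    [(0x213160718492a3, 7), (0x214096a5, 4), (0x21437685, 4), (0x213097a8, 4), (0x214096a5, 4), (0x21437685, 4)]⟩

def c_4626 : frmChk tA tA F_4626 = true := by decide +kernel

def r_4626_0 : chkL rootF engF2 tA tA sA_416 sA_416 4 F_4626 [(511, 0, 0)]
    0x41d = true := by
  decide +kernel

theorem f_4626 (h : TabsF) : FrameF repsF 416 F_4626.f :=
  frame_of rfl c_4626 (runs_of engOK r_4626_0) (by decide +kernel) h.1 h.1

def F_4627 : FrX :=
  ⟨0x482000044040440000c2040020009000182040010080080104000110020021810800101004020840040208508001800084000141048000044200010082,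
    0xa0, 1, 0x304260768291a4, 7,
    [(0xa0, 1), (0x538690a2, 4), (0x548790a1, 4), (0x21437690, 4), (0x538690a2, 4), (0x548790a1, 4)],
    [(0x304260768291a4, 7), (0x537086a4, 4), (0x217396a5, 4), (0x214053a7, 4), (0x217396a5, 4), (0x305498a7, 4), (0x217486a0, 4), (0x214053a7, 4), (0x217486a0, 4), (0x407596a3, 4), (0x214053a7, 4), (0x305498a7, 4)]⟩

def c_4627 : frmChk tA tB F_4627 = true := by decide +kernel

def r_4627_0 : chkL rootF engF2 tA tB sA_416 sB_416 4 F_4627 [(511, 0, 0)]
    0x1 = true := by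
  decide +kernel

theorem f_4627 (h : TabsF) : FrameF repsF 416 F_4627.f :=
  frame_of rfl c_4627 (runs_of engOK r_4627_0) (by decide +kernel) h.1 h.2

def F_4628 : FrX :=
  ⟨0x1c21020000040440000020410001010000820408a0001100000081200102202000202061001028020800404109000140281010002200601002004800200,
    0x0, 0, 0x547487, 3,
    [(0x0, 0), (0x205386a9, 4), (0x105487a9, 4), (0x214376a9, 4), (0x205386a9, 4), (0x105487a9, 4)],
    [(0x547487, 3), (0x20637584, 4), (0x107486a9, 4), (0x537684a9, 4), (0x107486a9, 4), (0x21547683, 4), (0x206573a9, 4), (0x537684a9, 4), (0x206573a9, 4), (0x10536487, 4), (0x537684a9, 4), (0x21547683, 4)]⟩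

def c_4628 : frmChk tA tB F_4628 = true := by decide +kernel

def r_4628_0 : chkL rootF engF2 tA tB sA_416 sB_416 4 F_4628 [(511, 0, 0)]
    0x1 = true := by
  decide +kernel

theorem f_4628 (h : TabsF) : FrameF repsF 416 F_4628.f :=
  frame_of rfl c_4628 (runs_of engOK r_4628_0) (by decide +kernel) h.1 h.2

theorem cl_416 (h : TabsF) : ∀ f ∈ fr_416, FrameF repsF 416 f :=
  List.forall_mem_cons.2 ⟨f_4601 h, List.forall_mem_cons.2 ⟨f_4602 h, List.forall_mem_cons.2 ⟨f_4603 h, List.forall_mem_cons.2 ⟨f_4604 h, List.forall_mem_cons.2 ⟨f_4605 h, List.forall_mem_cons.2 ⟨f_4606 h, List.forall_mem_cons.2 ⟨f_4607 h, List.forall_mem_cons.2 ⟨f_4608 h, List.forall_mem_cons.2 ⟨f_4609 h, List.forall_mem_cons.2 ⟨f_4610 h, List.forall_mem_cons.2 ⟨f_4611 h, List.forall_mem_cons.2 ⟨f_4612 h, List.forall_mem_cons.2 ⟨f_4613 h, List.forall_mem_cons.2 ⟨f_4614 h, List.forall_mem_cons.2 ⟨f_4615 h, List.forall_mem_cons.2 ⟨f_4616 h, List.forall_mem_cons.2 ⟨f_4617 h, List.forall_mem_cons.2 ⟨f_4618 h, List.forall_mem_cons.2 ⟨f_4619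 h, List.forall_mem_cons.2 ⟨f_4620 h, List.forall_mem_cons.2 ⟨f_4621 h, List.forall_mem_cons.2 ⟨f_4622 h, List.forall_mem_cons.2 ⟨f_4623 h, List.forall_mem_cons.2 ⟨f_4624 h, List.forall_mem_cons.2 ⟨f_4625 h, List.forall_mem_cons.2 ⟨f_4626 h, List.forall_mem_cons.2 ⟨f_4627 h, List.forall_mem_cons.2 ⟨f_4628 h,
    fun _ h0 => absurd h0 List.not_mem_nil⟩⟩⟩⟩⟩⟩⟩⟩⟩⟩⟩⟩⟩⟩⟩⟩⟩⟩⟩⟩⟩⟩⟩⟩⟩⟩⟩⟩

def F_4629 : FrX :=
  ⟨0x1001040012008080000e0084080041000810100004803800802000014008000840404010810400504000101080080010410008081004040050c040801040,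
    0xa3, 1, 0x43638798a8, 5,
    [(0xa3, 1), (0x207584a6, 4), (0x10547693, 4), (0x647593a8, 4), (0x10547693, 4), (0x216485a7, 4), (0x208693a4, 4), (0x647593a8, 4), (0x208693a4, 4), (0x106574a8, 4), (0x647593a8, 4), (0x216485a7, 4)],
    [(0x43638798a8, 5), (0x206597a4, 4), (0x105397a8, 4), (0x21638497, 4), (0x206597a4, 4), (0x105397a8, 4)]⟩

def c_4629 : frmChk tB tA F_4629 = true := by decide +kernel

def r_4629_0 : chkL rootF engF2 tB tA sB_417 sA_417 4 F_4629 [(511, 0, 0)]
    0x1 = true := by
  decide +kernel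

theorem f_4629 (h : TabsF) : FrameF repsF 417 F_4629.f :=
  frame_of rfl c_4629 (runs_of engOK r_4629_0) (by decide +kernel) h.2 h.1

def F_4630 : FrX :=
  ⟨0x600020801080810000c0040180410101001004008040408800080142002020020820001400230120000400500008800401002180004001044408030002,
    0xa0, 1, 0x415464708593a3, 7,
    [(0xa0, 1), (0x637584a2, 4), (0x547690a1, 4), (0x64758390, 4), (0x547690a1, 4), (0x21647385, 4), (0x438690a2, 4), (0x64758390, 4), (0x438690a2, 4), (0x657483a1, 4), (0x64758390, 4), (0x21647385, 4)],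
    [(0x415464708593a3, 7), (0x617280a5, 4), (0x50748693, 4), (0x658093a1, 4), (0x50748693, 4), (0x426581a0, 4), (0x517293a6, 4), (0x658093a1, 4), (0x517293a6, 4), (0x607485a1, 4), (0x658093a1, 4), (0x426581a0, 4)]⟩

def c_4630 : frmChk tB tB F_4630 = true := by decide +kernel

def r_4630_0 : chkL rootF engF2 tB tB sB_417 sB_417 4 F_4630 [(511, 0, 0)]
    0x1 = true := by
  decide +kernel

theorem f_4630 (h : TabsF) : FrameF repsF 417 F_4630.f :=
  frame_of rfl c_4630 (runs_of engOK r_4630_0) (by decide +kernel) h.2 h.2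

def F_4631 : FrX :=
  ⟨0x1001040012008080000e00840800410008101000048020008048020040810110010200801110009040807000001020004004000c04000090504000821040,
    0xa3, 1, 0x20405461708593a0, 8,
    [(0xa3, 1), (0x207584a6, 4), (0x10547693, 4), (0x647593a8, 4), (0x10547693, 4), (0x216485a7, 4), (0x208693a4, 4), (0x647593a8, 4), (0x208693a4, 4), (0x106574a8, 4), (0x647593a8, 4), (0x216485a7, 4)],
    [(0x20405461708593a0, 8), (0x217398a0, 4), (0x427385a6, 4), (0x41607395, 4), (0x217398a0, 4), (0x427385a6, 4)]⟩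

def c_4631 : frmChk tB tA F_4631 = true := by decide +kernel

def r_4631_0 : chkL rootF engF2 tB tA sB_417 sA_417 4 F_4631 [(511, 0, 0)]
    0x1 = true := by
  decide +kernel

theorem f_4631 (h : TabsF) : FrameF repsF 417 F_4631.f :=
  frame_of rfl c_4631 (runs_of engOK r_4631_0) (by decide +kernel) h.2 h.1

def F_4632 : FrX :=
  ⟨0x600020801080810000c004018041010100100400404044000002104a002020080802010082020100608800401008008900002084004040400008110041,
    0xa0, 1, 0x10205261758494a6, 8,
    [(0xa0, 1), (0x637584a2, 4), (0x547690a1, 4), (0x64758390, 4), (0x547690a1, 4), (0x21647385, 4), (0x438690a2, 4), (0x64758390, 4), (0x438690a2, 4), (0x657483a1, 4), (0x64758390, 4), (0x21647385, 4)],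
    [(0x10205261758494a6, 8), (0x527380a4, 4), (0x41628097, 4), (0x658093a1, 4), (0x527380a4, 4), (0x41628097, 4)]⟩

def c_4632 : frmChk tB tA F_4632 = true := by decide +kernel

def r_4632_0 : chkL rootF engF2 tB tA sB_417 sA_417 4 F_4632 [(511, 0, 0)]
    0x531464740f0714e02e164710d4741a4591706c1c81d1a41d16472164351c4741c45c074692a7822b06c3245c0b4784c5191d03c1c5380b8591c4351d0691645c1b07207469074591c8590d4711d0711701d1a4a9e08ac1b0c91702d1e131464740f0714e02e164710d4741a4591706c1c81d1a41d16472164351c4741c45c074692a7822b06c3245c0b478 = true := by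
  decide +kernel

theorem f_4632 (h : TabsF) : FrameF repsF 417 F_4632.f :=
  frame_of rfl c_4632 (runs_of engOK r_4632_0) (by decide +kernel) h.2 h.1

def F_4633 : FrX :=
  ⟨0x600020801080810000c0040180410101001004002100802000022400200c10800020080880200800084140888010202080004020420040018002220100,
    0xa0, 1, 0x3140526096a0, 6,
    [(0xa0, 1), (0x637584a2, 4), (0x547690a1, 4), (0x64758390, 4), (0x547690a1, 4), (0x21647385, 4), (0x438690a2, 4), (0x64758390, 4), (0x438690a2, 4), (0x657483a1, 4), (0x64758390, 4), (0x21647385, 4)],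
    [(0x3140526096a0, 6), (0x728091a5, 4), (0x206497a3, 4), (0x64728190, 4), (0x206497a3, 4), (0x53718290, 4), (0x106498a5, 4), (0x64728190, 4), (0x106498a5, 4), (0x708192a3, 4), (0x64728190, 4), (0x53718290, 4)]⟩

def c_4633 : frmChk tB tB F_4633 = true := by decide +kernel

def r_4633_0 : chkL rootF engF2 tB tB sB_417 sB_417 4 F_4633 [(511, 0, 0)]
    0x1 = true := by
  decide +kernel

theorem f_4633 (h : TabsF) : FrameF repsF 417 F_4633.f :=
  frame_of rfl c_4633 (runs_of engOK r_4633_0) (by decide +kernel) h.2 h.2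

def F_4634 : FrX :=
  ⟨0x1001040012008080000e008408004100081010000408080480044001008800804041001021110001400242000408101000000820108400005c0410040200,
    0xa3, 1, 0x204061708293a0, 7,
    [(0xa3, 1), (0x207584a6, 4), (0x10547693, 4), (0x647593a8, 4), (0x10547693, 4), (0x216485a7, 4), (0x208693a4, 4), (0x647593a8, 4), (0x208693a4, 4), (0x106574a8, 4), (0x647593a8, 4), (0x216485a7, 4)],
    [(0x204061708293a0, 7), (0x107395a8, 4), (0x405273a6, 4), (0x41738692, 4), (0x107395a8, 4), (0x405273a6, 4)]⟩

def c_4634 : frmChk tB tA F_4634 = true := by decide +kernel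

def r_4634_0 : chkL rootF engF2 tB tA sB_417 sA_417 4 F_4634 [(511, 0, 0)]
    0x1 = true := by
  decide +kernel

theorem f_4634 (h : TabsF) : FrameF repsF 417 F_4634.f :=
  frame_of rfl c_4634 (runs_of engOK r_4634_0) (by decide +kernel) h.2 h.1

def F_4635 : FrX :=
  ⟨0x2002000900044004000e020410001410008000408010010210010300020040402010802009020008120004060210104000400000e040020c0010a0020200,
    0xa3, 1, 0x51658094a1, 5,
    [(0xa3, 1), (0x208693a5, 4), (0x10548793, 4), (0x217693a4, 4), (0x208693a5, 4), (0x10548793, 4)],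
    [(0x51658094a1, 5), (0x10546382, 4), (0x547096a8, 4), (0x547193a2, 4), (0x10546382, 4), (0x547096a8, 4)]⟩

def c_4635 : frmChk tA tA F_4635 = true := by decide +kernel

def r_4635_0 : chkL rootF engF2 tA tA sA_417 sA_417 4 F_4635 [(511, 0, 0)]
    0x417 = true := by
  decide +kernel

theorem f_4635 (h : TabsF) : FrameF repsF 417 F_4635.f :=
  frame_of rfl c_4635 (runs_of engOK r_4635_0) (by decide +kernel) h.1 h.1

def F_4636 : FrX :=
  ⟨0x80080a000804040e00002101002001000002040890201004048004020040082008404000802080012010000123020002007020000490088002010044200,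
    0xa6, 1, 0x1020317280a6, 6,
    [(0xa6, 1), (0x205396a8, 4), (0x10548796, 4), (0x214396a7, 4), (0x205396a8, 4), (0x10548796, 4)],
    [(0x1020317280a6, 6), (0x508796a2, 4), (0x21548396, 4), (0x407396a1, 4), (0x508796a2, 4), (0x21548396, 4)]⟩

def c_4636 : frmChk tA tA F_4636 = true := by decide +kernel

def r_4636_0 : chkL rootF engF2 tA tA sA_417 sA_417 4 F_4636 [(511, 0, 0)]
    0x1 = true := by
  decide +kernel

theorem f_4636 (h : TabsF) : FrameF repsF 417 F_4636.f :=
  frame_of rfl c_4636 (runs_of engOK r_4636_0) (by decide +kernel) h.1 h.1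

theorem cl_417 (h : TabsF) : ∀ f ∈ fr_417, FrameF repsF 417 f :=
  List.forall_mem_cons.2 ⟨f_4629 h, List.forall_mem_cons.2 ⟨f_4630 h, List.forall_mem_cons.2 ⟨f_4631 h, List.forall_mem_cons.2 ⟨f_4632 h, List.forall_mem_cons.2 ⟨f_4633 h, List.forall_mem_cons.2 ⟨f_4634 h, List.forall_mem_cons.2 ⟨f_4635 h, List.forall_mem_cons.2 ⟨f_4636 h,
    fun _ h0 => absurd h0 List.not_mem_nil⟩⟩⟩⟩⟩⟩⟩⟩

def F_4637 : FrX :=
  ⟨0x1001040012008080000e0084080041000810100004201004102022200008004801000808220000480800200a00100041010080020b088080044010800300,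
    0xa3, 1, 0x3242647194a8, 6,
    [(0xa3, 1), (0x207584a6, 4), (0x10547693, 4), (0x647593a8, 4), (0x10547693, 4), (0x216485a7, 4), (0x208693a4, 4), (0x647593a8, 4), (0x208693a4, 4), (0x106574a8, 4), (0x647593a8, 4), (0x216485a7, 4)],
    [(0x3242647194a8, 6), (0x405286a3, 4), (0x708695a1, 4), (0x31748692, 4), (0x405286a3, 4), (0x708695a1, 4)]⟩

def c_4637 : frmChk tB tA F_4637 = true := by decide +kernel

def r_4637_0 : chkL rootF engF2 tB tA sB_418 sA_418 4 F_4637 [(511, 0, 0)]
    0x1 = true := by
  decide +kernel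

theorem f_4637 (h : TabsF) : FrameF repsF 418 F_4637.f :=
  frame_of rfl c_4637 (runs_of engOK r_4637_0) (by decide +kernel) h.2 h.1

def F_4638 : FrX :=
  ⟨0x600020801080810000c0040180410101001004000900808000104408200c010008000822000201002020006010080901080810004880400008100c0028,
    0xa0, 1, 0x425163748697a6, 7,
    [(0xa0, 1), (0x637584a2, 4), (0x547690a1, 4), (0x64758390, 4), (0x547690a1, 4), (0x21647385, 4), (0x438690a2, 4), (0x64758390, 4), (0x438690a2, 4), (0x657483a1, 4), (0x64758390, 4), (0x21647385, 4)],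
    [(0x425163748697a6, 7), (0x406182a3, 4), (0x50718293, 4), (0x547682a9, 4), (0x406182a3, 4), (0x50718293, 4)]⟩

def c_4638 : frmChk tB tA F_4638 = true := by decide +kernel

def r_4638_0 : chkL rootF engF2 tB tA sB_418 sA_418 4 F_4638 [(511, 0, 0)]
    0x1 = true := by
  decide +kernel

theorem f_4638 (h : TabsF) : FrameF repsF 418 F_4638.f :=
  frame_of rfl c_4638 (runs_of engOK r_4638_0) (by decide +kernel) h.2 h.1

def F_4639 : FrX :=
  ⟨0x1001040012008080000e00840800410008101000040420028020008200080024220000a01100400140010010020400240100080122200808022003002140,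
    0xa3, 1, 0x435260748293a1, 7,
    [(0xa3, 1), (0x207584a6, 4), (0x10547693, 4), (0x647593a8, 4), (0x10547693, 4), (0x216485a7, 4), (0x208693a4, 4), (0x647593a8, 4), (0x208693a4, 4), (0x106574a8, 4), (0x647593a8, 4), (0x216485a7, 4)],
    [(0x435260748293a1, 7), (0x41508692, 4), (0x415372a6, 4), (0x304197a8, 4), (0x41508692, 4), (0x415372a6, 4)]⟩

def c_4639 : frmChk tB tA F_4639 = true := by decide +kernel

def r_4639_0 : chkL rootF engF2 tB tA sB_418 sA_418 4 F_4639 [(511, 0, 0)]
    0x12d036 = true := by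
  decide +kernel

theorem f_4639 (h : TabsF) : FrameF repsF 418 F_4639.f :=
  frame_of rfl c_4639 (runs_of engOK r_4639_0) (by decide +kernel) h.2 h.1

def F_4640 : FrX :=
  ⟨0x1001040012008080000e008408004100081010000600000480580400201000900801008001001102400414008000202020020a0180010008025008010084,
    0xa3, 1, 0x21415265708090a8, 8,
    [(0xa3, 1), (0x207584a6, 4), (0x10547693, 4), (0x647593a8, 4), (0x10547693, 4), (0x216485a7, 4), (0x208693a4, 4), (0x647593a8, 4), (0x208693a4, 4), (0x106574a8, 4), (0x647593a8, 4), (0x216485a7, 4)],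
    [(0x21415265708090a8, 8), (0x638795a1, 4), (0x628794a0, 4), (0x10325487, 4), (0x638795a1, 4), (0x628794a0, 4)]⟩

def c_4640 : frmChk tB tA F_4640 = true := by decide +kernel

def r_4640_0 : chkL rootF engF2 tB tA sB_418 sA_418 4 F_4640 [(511, 0, 0)]
    0x14a5a8 = true := by
  decide +kernel

theorem f_4640 (h : TabsF) : FrameF repsF 418 F_4640.f :=
  frame_of rfl c_4640 (runs_of engOK r_4640_0) (by decide +kernel) h.2 h.1

def F_4641 : FrX :=
  ⟨0x600020801080810000c0040180410101001004001100804400400804200c00020820002200030105002000600008c82000080410088000000c000c0048,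
    0xa0, 1, 0x2040628194a4, 6,
    [(0xa0, 1), (0x637584a2, 4), (0x547690a1, 4), (0x64758390, 4), (0x547690a1, 4), (0x21647385, 4), (0x438690a2, 4), (0x64758390, 4), (0x438690a2, 4), (0x657483a1, 4), (0x64758390, 4), (0x21647385, 4)],
    [(0x2040628194a4, 6), (0x10536492, 4), (0x718492a5, 4), (0x708692a3, 4), (0x10536492, 4), (0x718492a5, 4)]⟩

def c_4641 : frmChk tB tA F_4641 = true := by decide +kernel

def r_4641_0 : chkL rootF engF2 tB tA sB_418 sA_418 4 F_4641 [(511, 0, 0)]
    0x1 = true := by
  decide +kernel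

theorem f_4641 (h : TabsF) : FrameF repsF 418 F_4641.f :=
  frame_of rfl c_4641 (runs_of engOK r_4641_0) (by decide +kernel) h.2 h.1

def F_4642 : FrX :=
  ⟨0x1c40440000080810000008400804100001010840422001000020220000090008102008880800040408812000483200020080202300100a0002220020200,
    0x0, 0, 0x65a9, 2,
    [(0x0, 0), (0x20637584, 4), (0x105476a9, 4), (0x647583a9, 4), (0x105476a9, 4), (0x21647385, 4), (0x204386a9, 4), (0x647583a9, 4), (0x204386a9, 4), (0x10657483, 4), (0x647583a9, 4), (0x21647385, 4)],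
    [(0x65a9, 2), (0x206385a9, 4), (0x106487a9, 4), (0x214375a9, 4), (0x206385a9, 4), (0x106487a9, 4)]⟩

def c_4642 : frmChk tB tA F_4642 = true := by decide +kernel

def r_4642_0 : chkL rootF engF2 tB tA sB_418 sA_418 4 F_4642 [(511, 0, 0)]
    0x1 = true := by
  decide +kernel

theorem f_4642 (h : TabsF) : FrameF repsF 418 F_4642.f :=
  frame_of rfl c_4642 (runs_of engOK r_4642_0) (by decide +kernel) h.2 h.1

def F_4643 : FrX :=
  ⟨0x1001040012008080000e008408004100081010000600042081000500210200200801008001001102400a040082002002200208210023000000a008011010,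
    0xa3, 1, 0x102151608390a0, 7,
    [(0xa3, 1), (0x207584a6, 4), (0x10547693, 4), (0x647593a8, 4), (0x10547693, 4), (0x216485a7, 4), (0x208693a4, 4), (0x647593a8, 4), (0x208693a4, 4), (0x106574a8, 4), (0x647593a8, 4), (0x216485a7, 4)],
    [(0x102151608390a0, 7), (0x437281a0, 4), (0x427196a5, 4), (0x41728396, 4), (0x427196a5, 4), (0x32415087, 4), (0x318496a0, 4), (0x41728396, 4), (0x318496a0, 4), (0x217483a5, 4), (0x41728396, 4), (0x32415087, 4)]⟩

def c_4643 : frmChk tB tB F_4643 = true := by decide +kernel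

def r_4643_0 : chkL rootF engF2 tB tB sB_418 sB_418 4 F_4643 [(511, 0, 0)]
    0x1 = true := by
  decide +kernel

theorem f_4643 (h : TabsF) : FrameF repsF 418 F_4643.f :=
  frame_of rfl c_4643 (runs_of engOK r_4643_0) (by decide +kernel) h.2 h.2

def F_4644 : FrX :=
  ⟨0x482000044040440000c20400200090001820400010811020042000040080820082020010280010208000100180880c004000800a208082002010800402,
    0xa0, 1, 0x103243516372a6, 7,
    [(0xa0, 1), (0x538690a2, 4), (0x548790a1, 4), (0x21437690, 4), (0x538690a2, 4), (0x548790a1, 4)],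
    [(0x103243516372a6, 7), (0x607194a8, 4), (0x20518394, 4), (0x627594a3, 4), (0x607194a8, 4), (0x20518394, 4)]⟩

def c_4644 : frmChk tA tA F_4644 = true := by decide +kernel

def r_4644_0 : chkL rootF engF2 tA tA sA_418 sA_418 4 F_4644 [(511, 0, 0)]
    0x1 = true := by
  decide +kernel

theorem f_4644 (h : TabsF) : FrameF repsF 418 F_4644.f :=
  frame_of rfl c_4644 (runs_of engOK r_4644_0) (by decide +kernel) h.1 h.1

def F_4645 : FrX :=
  ⟨0x482000044040440000c2040020009000182040001012080008100004020101010802100902000480000060024a20002008086010142000100a00080040,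
    0xa0, 1, 0x102140728497a3, 7,
    [(0xa0, 1), (0x538690a2, 4), (0x548790a1, 4), (0x21437690, 4), (0x538690a2, 4), (0x548790a1, 4)],
    [(0x102140728497a3, 7), (0x306174a5, 4), (0x30428591, 4), (0x307296a8, 4), (0x306174a5, 4), (0x30428591, 4)]⟩

def c_4645 : frmChk tA tA F_4645 = true := by decide +kernel

def r_4645_0 : chkL rootF engF2 tA tA sA_418 sA_418 4 F_4645 [(511, 0, 0)]
    0x1 = true := by
  decide +kernel

theorem f_4645 (h : TabsF) : FrameF repsF 418 F_4645.f :=
  frame_of rfl c_4645 (runs_of engOK r_4645_0) (by decide +kernel) h.1 h.1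

def F_4646 : FrX :=
  ⟨0x482000044040440000c2040020009000182040010010041200800810080408208010008001280120000811100008402150000108048000040800010290,
    0xa0, 1, 0x314285a0, 4,
    [(0xa0, 1), (0x538690a2, 4), (0x548790a1, 4), (0x21437690, 4), (0x538690a2, 4), (0x548790a1, 4)],
    [(0x314285a0, 4), (0x658190a4, 4), (0x758290a3, 4), (0x21437690, 4), (0x658190a4, 4), (0x758290a3, 4)]⟩

def c_4646 : frmChk tA tA F_4646 = true := by decide +kernel

def r_4646_0 : chkL rootF engF2 tA tA sA_418 sA_418 4 F_4646 [(511, 0, 0)]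
    0x41b0743c = true := by
  decide +kernel

theorem f_4646 (h : TabsF) : FrameF repsF 418 F_4646.f :=
  frame_of rfl c_4646 (runs_of engOK r_4646_0) (by decide +kernel) h.1 h.1

def F_4647 : FrX :=
  ⟨0x80080a000804040e00002101002001000002040890080000304004100282008008014001008009020802040408420041004048002021002000a00600080,
    0xa6, 1, 0x10415063738491a3, 8,
    [(0xa6, 1), (0x205396a8, 4), (0x10548796, 4), (0x214396a7, 4), (0x205396a8, 4), (0x10548796, 4)],
    [(0x10415063738491a3, 8), (0x305274a1, 4), (0x60748195, 4), (0x637492a8, 4), (0x305274a1, 4), (0x60748195, 4)]⟩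

def c_4647 : frmChk tA tA F_4647 = true := by decide +kernel

def r_4647_0 : chkL rootF engF2 tA tA sA_418 sA_418 4 F_4647 [(511, 0, 0)]
    0x106c1b1381d = true := by
  decide +kernel

theorem f_4647 (h : TabsF) : FrameF repsF 418 F_4647.f :=
  frame_of rfl c_4647 (runs_of engOK r_4647_0) (by decide +kernel) h.1 h.1

def F_4648 : FrX :=
  ⟨0x2002000900044004000e02041000141000800040808000204428800010010408200022001100009024800010500400400041008080a08801000802024010,
    0xa3, 1, 0x214152627494a8, 7,
    [(0xa3, 1), (0x208693a5, 4), (0x10548793, 4), (0x217693a4, 4), (0x208693a5, 4), (0x10548793, 4)],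
    [(0x214152627494a8, 7), (0x316087a5, 4), (0x408791a2, 4), (0x52648793, 4), (0x316087a5, 4), (0x408791a2, 4)]⟩

def c_4648 : frmChk tA tA F_4648 = true := by decide +kernel

def r_4648_0 : chkL rootF engF2 tA tA sA_418 sA_418 4 F_4648 [(511, 0, 0)]
    0x1 = true := by
  decide +kernel

theorem f_4648 (h : TabsF) : FrameF repsF 418 F_4648.f :=
  frame_of rfl c_4648 (runs_of engOK r_4648_0) (by decide +kernel) h.1 h.1

def F_4649 : FrX :=
  ⟨0x2002000900044004000e0204100014100080004080080204021010018020404100010101002c0008020200108220101011040000404800080040200a4040,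
    0xa3, 1, 0x203261738393a2, 7,
    [(0xa3, 1), (0x208693a5, 4), (0x10548793, 4), (0x217693a4, 4), (0x208693a5, 4), (0x10548793, 4)],
    [(0x203261738393a2, 7), (0x507491a2, 4), (0x10546283, 4), (0x41508397, 4), (0x10546283, 4), (0x417590a6, 4), (0x718394a2, 4), (0x41508397, 4), (0x718394a2, 4), (0x40516297, 4), (0x41508397, 4), (0x417590a6, 4)]⟩

def c_4649 : frmChk tA tB F_4649 = true := by decide +kernel

def r_4649_0 : chkL rootF engF2 tA tB sA_418 sB_418 4 F_4649 [(511, 0, 0)]
    0x1 = true := by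
  decide +kernel

theorem f_4649 (h : TabsF) : FrameF repsF 418 F_4649.f :=
  frame_of rfl c_4649 (runs_of engOK r_4649_0) (by decide +kernel) h.1 h.2

def F_4650 : FrX :=
  ⟨0x2002000900044004000e02041000141000800040808001052001020401040042000002204040008480020100105020008002820400800801900210008280,
    0xa3, 1, 0x1053637580a6, 6,
    [(0xa3, 1), (0x208693a5, 4), (0x10548793, 4), (0x217693a4, 4), (0x208693a5, 4), (0x10548793, 4)],
    [(0x1053637580a6, 6), (0x768295a1, 4), (0x31748095, 4), (0x206495a3, 4), (0x768295a1, 4), (0x31748095, 4)]⟩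

def c_4650 : frmChk tA tA F_4650 = true := by decide +kernel

def r_4650_0 : chkL rootF engF2 tA tA sA_418 sA_418 4 F_4650 [(511, 0, 0)]
    0x40f0764a = true := by
  decide +kernel

theorem f_4650 (h : TabsF) : FrameF repsF 418 F_4650.f :=
  frame_of rfl c_4650 (runs_of engOK r_4650_0) (by decide +kernel) h.1 h.1

def F_4651 : FrX :=
  ⟨0x482000044040440000c2040020009000182040001012080008100004008401010822000848000480000020215420002002084480010081810220000001,
    0xa0, 1, 0x104053607197a3, 7,
    [(0xa0, 1), (0x538690a2, 4), (0x548790a1, 4), (0x21437690, 4), (0x538690a2, 4), (0x548790a1, 4)],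
    [(0x104053607197a3, 7), (0x506284a3, 4), (0x31507698, 4), (0x507294a1, 4), (0x506284a3, 4), (0x31507698, 4)]⟩

def c_4651 : frmChk tA tA F_4651 = true := by decide +kernel

def r_4651_0 : chkL rootF engF2 tA tA sA_418 sA_418 4 F_4651 [(511, 0, 0)]
    0x42b06d1519a2a = true := by
  decide +kernel

theorem f_4651 (h : TabsF) : FrameF repsF 418 F_4651.f :=
  frame_of rfl c_4651 (runs_of engOK r_4651_0) (by decide +kernel) h.1 h.1

def F_4652 : FrX :=
  ⟨0x2002000900044004000e0204100014100080004080800040180202020101010800002820110000840c01100021102000c0040204008008200008080a3000,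
    0xa3, 1, 0x104154648392a8, 7,
    [(0xa3, 1), (0x208693a5, 4), (0x10548793, 4), (0x217693a4, 4), (0x208693a5, 4), (0x10548793, 4)],
    [(0x104154648392a8, 7), (0x328091a5, 4), (0x324160a7, 4), (0x32758694, 4), (0x328091a5, 4), (0x324160a7, 4)]⟩

def c_4652 : frmChk tA tA F_4652 = true := by decide +kernel

def r_4652_0 : chkL rootF engF2 tA tA sA_418 sA_418 4 F_4652 [(511, 0, 0)]
    0x447 = true := by
  decide +kernel

theorem f_4652 (h : TabsF) : FrameF repsF 418 F_4652.f :=
  frame_of rfl c_4652 (runs_of engOK r_4652_0) (by decide +kernel) h.1 h.1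

def F_4653 : FrX :=
  ⟨0x80080a000804040e0000210100200100000204088082100101008022020400100110006000800808002220028500000a100040480128000802004440200,
    0xa6, 1, 0x2140638192a1, 6,
    [(0xa6, 1), (0x205396a8, 4), (0x10548796, 4), (0x214396a7, 4), (0x205396a8, 4), (0x10548796, 4)],
    [(0x2140638192a1, 6), (0x32658194, 4), (0x507281a4, 4), (0x607381a9, 4), (0x32658194, 4), (0x507281a4, 4)]⟩

def c_4653 : frmChk tA tA F_4653 = true := by decide +kernel

def r_4653_0 : chkL rootF engF2 tA tA sA_418 sA_418 4 F_4653 [(511, 0, 0)]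
    0x427 = true := by
  decide +kernel

theorem f_4653 (h : TabsF) : FrameF repsF 418 F_4653.f :=
  frame_of rfl c_4653 (runs_of engOK r_4653_0) (by decide +kernel) h.1 h.1

def F_4654 : FrX :=
  ⟨0x482000044040440000c2040020009000182040010010100800800810042002420020402001040180000810a00910104080090004080800040880080050,
    0xa0, 1, 0x4162708796a1, 6,
    [(0xa0, 1), (0x538690a2, 4), (0x548790a1, 4), (0x21437690, 4), (0x538690a2, 4), (0x548790a1, 4)],
    [(0x4162708796a1, 6), (0x10768593, 4), (0x425198a7, 4), (0x30428591, 4), (0x425198a7, 4), (0x508391a6, 4), (0x31427690, 4), (0x30428591, 4), (0x31427690, 4), (0x308195a7, 4), (0x30428591, 4), (0x508391a6, 4)]⟩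

def c_4654 : frmChk tA tB F_4654 = true := by decide +kernel

def r_4654_0 : chkL rootF engF2 tA tB sA_418 sB_418 4 F_4654 [(511, 0, 0)]
    0x42e0b82e = true := by
  decide +kernel

theorem f_4654 (h : TabsF) : FrameF repsF 418 F_4654.f :=
  frame_of rfl c_4654 (runs_of engOK r_4654_0) (by decide +kernel) h.1 h.2

def F_4655 : FrX :=
  ⟨0x482000044040440000c2040020009000182040007100400001020000000c04800880040a020004020800206040010c0080090006200802401002200008,
    0xa0, 1, 0x314053637584a4, 7,
    [(0xa0, 1), (0x538690a2, 4), (0x548790a1, 4), (0x21437690, 4), (0x538690a2, 4), (0x548790a1, 4)],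
    [(0x314053637584a4, 7), (0x42507698, 4), (0x104398a7, 4), (0x325198a6, 4), (0x42507698, 4), (0x104398a7, 4)]⟩

def c_4655 : frmChk tA tA F_4655 = true := by decide +kernel

def r_4655_0 : chkL rootF engF2 tA tA sA_418 sA_418 4 F_4655 [(511, 0, 0)]
    0x44e = true := by
  decide +kernel

theorem f_4655 (h : TabsF) : FrameF repsF 418 F_4655.f :=
  frame_of rfl c_4655 (runs_of engOK r_4655_0) (by decide +kernel) h.1 h.1

def F_4656 : FrX :=
  ⟨0x2002000900044004000e02041000141000800040801000282010100141000182000028001102006004044410400008008100082030001820200010082001,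
    0xa3, 1, 0x203240628096a0, 7,
    [(0xa3, 1), (0x208693a5, 4), (0x10548793, 4), (0x217693a4, 4), (0x208693a5, 4), (0x10548793, 4)],
    [(0x203240628096a0, 7), (0x508394a6, 4), (0x527483a1, 4), (0x20618397, 4), (0x508394a6, 4), (0x527483a1, 4)]⟩

def c_4656 : frmChk tA tA F_4656 = true := by decide +kernel

def r_4656_0 : chkL rootF engF2 tA tA sA_418 sA_418 4 F_4656 [(511, 0, 0)]
    0x1 = true := by
  decide +kernel

theorem f_4656 (h : TabsF) : FrameF repsF 418 F_4656.f :=
  frame_of rfl c_4656 (runs_of engOK r_4656_0) (by decide +kernel) h.1 h.1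

def F_4657 : FrX :=
  ⟨0x2002000900044004000e0204100014100080004080040104201002011100024200008802c002400608000102000040000300802041100022044004210200,
    0xa3, 1, 0x2142617590a8, 6,
    [(0xa3, 1), (0x208693a5, 4), (0x10548793, 4), (0x217693a4, 4), (0x208693a5, 4), (0x10548793, 4)],
    [(0x2142617590a8, 6), (0x738094a2, 4), (0x718096a5, 4), (0x31526480, 4), (0x738094a2, 4), (0x718096a5, 4)]⟩

def c_4657 : frmChk tA tA F_4657 = true := by decide +kernel

def r_4657_0 : chkL rootF engF2 tA tA sA_418 sA_418 4 F_4657 [(511, 0, 0)]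
    0x1 = true := by
  decide +kernel

theorem f_4657 (h : TabsF) : FrameF repsF 418 F_4657.f :=
  frame_of rfl c_4657 (runs_of engOK r_4657_0) (by decide +kernel) h.1 h.1

def F_4658 : FrX :=
  ⟨0x482000044040440000c2040020009000182040010040100100800280020822808080020081040912000200202000140081010000600202002004110210,
    0xa0, 1, 0x3040528297a3, 6,
    [(0xa0, 1), (0x538690a2, 4), (0x548790a1, 4), (0x21437690, 4), (0x538690a2, 4), (0x548790a1, 4)],
    [(0x3040528297a3, 6), (0x538492a6, 4), (0x32417096, 4), (0x637092a5, 4), (0x32417096, 4), (0x526381a9, 4), (0x657084a3, 4), (0x637092a5, 4), (0x657084a3, 4), (0x416293a5, 4), (0x637092a5, 4), (0x526381a9, 4)]⟩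

def c_4658 : frmChk tA tB F_4658 = true := by decide +kernel

def r_4658_0 : chkL rootF engF2 tA tB sA_418 sB_418 4 F_4658 [(511, 0, 0)]
    0x111c0f = true := by
  decide +kernel

theorem f_4658 (h : TabsF) : FrameF repsF 418 F_4658.f :=
  frame_of rfl c_4658 (runs_of engOK r_4658_0) (by decide +kernel) h.1 h.2

def F_4659 : FrX :=
  ⟨0x80080a000804040e00002101002001000002040880600008104414000012000048080408400440020020120a2000110008280002041020a002202000010,
    0xa6, 1, 0x31405461748397a3, 8,
    [(0xa6, 1), (0x205396a8, 4), (0x10548796, 4), (0x214396a7, 4), (0x205396a8, 4), (0x10548796, 4)],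
    [(0x31405461748397a3, 8), (0x314285a0, 4), (0x64708591, 4), (0x628593a7, 4), (0x314285a0, 4), (0x64708591, 4)]⟩

def c_4659 : frmChk tA tA F_4659 = true := by decide +kernel

def r_4659_0 : chkL rootF engF2 tA tA sA_418 sA_418 4 F_4659 [(511, 0, 0)]
    0x13282b = true := by
  decide +kernel

theorem f_4659 (h : TabsF) : FrameF repsF 418 F_4659.f :=
  frame_of rfl c_4659 (runs_of engOK r_4659_0) (by decide +kernel) h.1 h.1

def F_4660 : FrX :=
  ⟨0x482000044040440000c2040020009000182040001101002008200804000182008600001028001004c0001101008808004000800a20808240001080000a,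
    0xa0, 1, 0x305162718594a5, 7,
    [(0xa0, 1), (0x538690a2, 4), (0x548790a1, 4), (0x21437690, 4), (0x538690a2, 4), (0x548790a1, 4)],
    [(0x305162718594a5, 7), (0x216384a0, 4), (0x517384a9, 4), (0x52768490, 4), (0x216384a0, 4), (0x517384a9, 4)]⟩

def c_4660 : frmChk tA tA F_4660 = true := by decide +kernel

def r_4660_0 : chkL rootF engF2 tA tA sA_418 sA_418 4 F_4660 [(511, 0, 0)]
    0x103c93 = true := by
  decide +kernel

theorem f_4660 (h : TabsF) : FrameF repsF 418 F_4660.f :=
  frame_of rfl c_4660 (runs_of engOK r_4660_0) (by decide +kernel) h.1 h.1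

def F_4661 : FrX :=
  ⟨0x482000044040440000c20400200090001820400010421020081000040080820082020010280008208000100180a004800400820200808a002210800002,
    0xa0, 1, 0x52607685a4, 5,
    [(0xa0, 1), (0x538690a2, 4), (0x548790a1, 4), (0x21437690, 4), (0x538690a2, 4), (0x548790a1, 4)],
    [(0x52607685a4, 5), (0x657380a2, 4), (0x617094a8, 4), (0x328094a7, 4), (0x617094a8, 4), (0x305182a7, 4), (0x657294a3, 4), (0x328094a7, 4), (0x657294a3, 4), (0x326187a0, 4), (0x328094a7, 4), (0x305182a7, 4)]⟩

def c_4661 : frmChk tA tB F_4661 = true := by decide +kernel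

def r_4661_0 : chkL rootF engF2 tA tB sA_418 sB_418 4 F_4661 [(511, 0, 0)]
    0x1 = true := by
  decide +kernel

theorem f_4661 (h : TabsF) : FrameF repsF 418 F_4661.f :=
  frame_of rfl c_4661 (runs_of engOK r_4661_0) (by decide +kernel) h.1 h.2

def F_4662 : FrX :=
  ⟨0x80080a000804040e000021010020010000020408a0002000300208008414001041000400042084222048000404001802040000030002402204101008080,
    0xa6, 1, 0x1030405462758192a0, 9,
    [(0xa6, 1), (0x205396a8, 4), (0x10548796, 4), (0x214396a7, 4), (0x205396a8, 4), (0x10548796, 4)],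
    [(0x1030405462758192a0, 9), (0x206471a9, 4), (0x306475a8, 4), (0x32516498, 4), (0x206471a9, 4), (0x306475a8, 4)]⟩

def c_4662 : frmChk tA tA F_4662 = true := by decide +kernel

def r_4662_0 : chkL rootF engF2 tA tA sA_418 sA_418 4 F_4662 [(511, 0, 0)]
    0x11c4e1 = true := by
  decide +kernel

theorem f_4662 (h : TabsF) : FrameF repsF 418 F_4662.f :=
  frame_of rfl c_4662 (runs_of engOK r_4662_0) (by decide +kernel) h.1 h.1

def F_4663 : FrX :=
  ⟨0x482000044040440000c2040020009000182040010103000101000808000c04004880004002008202100008604001800084000206090002000a02210008,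
    0xa0, 1, 0x213042546381a3, 7,
    [(0xa0, 1), (0x538690a2, 4), (0x548790a1, 4), (0x21437690, 4), (0x538690a2, 4), (0x548790a1, 4)],
    [(0x213042546381a3, 7), (0x435271a0, 4), (0x51708396, 4), (0x507196a2, 4), (0x51708396, 4), (0x215084a7, 4), (0x204396a5, 4), (0x507196a2, 4), (0x204396a5, 4), (0x107583a2, 4), (0x507196a2, 4), (0x215084a7, 4)]⟩

def c_4663 : frmChk tA tB F_4663 = true := by decide +kernel

def r_4663_0 : chkL rootF engF2 tA tB sA_418 sB_418 4 F_4663 [(511, 0, 0)]
    0x10e447 = true := by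
  decide +kernel

theorem f_4663 (h : TabsF) : FrameF repsF 418 F_4663.f :=
  frame_of rfl c_4663 (runs_of engOK r_4663_0) (by decide +kernel) h.1 h.2

def F_4664 : FrX :=
  ⟨0x80080a000804040e00002101002001000002040882081000310020400400202002020420002008008090000205400040242020022002822002011008200,
    0xa6, 1, 0x3253627481a6, 6,
    [(0xa6, 1), (0x205396a8, 4), (0x10548796, 4), (0x214396a7, 4), (0x205396a8, 4), (0x10548796, 4)],
    [(0x3253627481a6, 6), (0x426071a5, 4), (0x728093a4, 4), (0x425193a7, 4), (0x728093a4, 4), (0x215486a7, 4), (0x607593a1, 4), (0x425193a7, 4), (0x607593a1, 4), (0x517480a2, 4), (0x425193a7, 4), (0x215486a7, 4)]⟩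

def c_4664 : frmChk tA tB F_4664 = true := by decide +kernel

def r_4664_0 : chkL rootF engF2 tA tB sA_418 sB_418 4 F_4664 [(511, 0, 0)]
    0x42e = true := by
  decide +kernel

theorem f_4664 (h : TabsF) : FrameF repsF 418 F_4664.f :=
  frame_of rfl c_4664 (runs_of engOK r_4664_0) (by decide +kernel) h.1 h.2

theorem cl_418 (h : TabsF) : ∀ f ∈ fr_418, FrameF repsF 418 f :=
  List.forall_mem_cons.2 ⟨f_4637 h, List.forall_mem_cons.2 ⟨f_4638 h, List.forall_mem_cons.2 ⟨f_4639 h, List.forall_mem_cons.2 ⟨f_4640 h, List.forall_mem_cons.2 ⟨f_4641 h, List.forall_mem_cons.2 ⟨f_4642 h, List.forall_mem_cons.2 ⟨f_4643 h, List.forall_mem_cons.2 ⟨f_4644 h, List.forall_mem_cons.2 ⟨f_4645 h, List.forall_mem_cons.2 ⟨f_4646 h, List.forall_mem_cons.2 ⟨f_4647 h, List.forall_mem_cons.2 ⟨f_4648 h, List.forall_mem_cons.2 ⟨f_4649 h, List.forall_mem_cons.2 ⟨f_4650 h, List.forall_mem_cons.2 ⟨f_4651 h, List.forall_mem_cons.2 ⟨f_4652 h, List.forall_mem_cons.2 ⟨f_4653 h, List.forall_mem_cons.2 ⟨f_4654 h, List.forall_mem_cons.2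 ⟨f_4655 h, List.forall_mem_cons.2 ⟨f_4656 h, List.forall_mem_cons.2 ⟨f_4657 h, List.forall_mem_cons.2 ⟨f_4658 h, List.forall_mem_cons.2 ⟨f_4659 h, List.forall_mem_cons.2 ⟨f_4660 h, List.forall_mem_cons.2 ⟨f_4661 h, List.forall_mem_cons.2 ⟨f_4662 h, List.forall_mem_cons.2 ⟨f_4663 h, List.forall_mem_cons.2 ⟨f_4664 h,
    fun _ h0 => absurd h0 List.not_mem_nil⟩⟩⟩⟩⟩⟩⟩⟩⟩⟩⟩⟩⟩⟩⟩⟩⟩⟩⟩⟩⟩⟩⟩⟩⟩⟩⟩⟩

def F_4665 : FrX :=
  ⟨0x1c210200000404400000204100010100008204089008008000100410040010104080805000002c200040488444001040100801010102020204008480080,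
    0x0, 0, 0x54647587, 4,
    [(0x0, 0), (0x205386a9, 4), (0x105487a9, 4), (0x214376a9, 4), (0x205386a9, 4), (0x105487a9, 4)],
    [(0x54647587, 4), (0x20536487, 4), (0x107685a9, 4), (0x436587a9, 4), (0x107685a9, 4), (0x21657483, 4), (0x205463a9, 4), (0x436587a9, 4), (0x205463a9, 4), (0x10437586, 4), (0x436587a9, 4), (0x21657483, 4)]⟩

def c_4665 : frmChk tA tB F_4665 = true := by decide +kernel

def r_4665_0 : chkL rootF engF2 tA tB sA_419 sB_419 4 F_4665 [(511, 0, 0)]
    0x11384e = true := by
  decide +kernel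

theorem f_4665 (h : TabsF) : FrameF repsF 419 F_4665.f :=
  frame_of rfl c_4665 (runs_of engOK r_4665_0) (by decide +kernel) h.1 h.2

def F_4666 : FrX :=
  ⟨0x2002000900044004000e0204100014100080004080040088200808200200018014002801010000c204040408440001002100002030003020200018082001,
    0xa3, 1, 0x5060748192a0, 6,
    [(0xa3, 1), (0x208693a5, 4), (0x10548793, 4), (0x217693a4, 4), (0x208693a5, 4), (0x10548793, 4)],
    [(0x5060748192a0, 6), (0x305162a9, 4), (0x416270a8, 4), (0x54627398, 4), (0x305162a9, 4), (0x416270a8, 4)]⟩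

def c_4666 : frmChk tA tA F_4666 = true := by decide +kernel

def r_4666_0 : chkL rootF engF2 tA tA sA_419 sA_419 4 F_4666 [(511, 0, 0)]
    0x4390b82e = true := by
  decide +kernel

theorem f_4666 (h : TabsF) : FrameF repsF 419 F_4666.f :=
  frame_of rfl c_4666 (runs_of engOK r_4666_0) (by decide +kernel) h.1 h.1

def F_4667 : FrX :=
  ⟨0x80080a000804040e00002101002001000002040881011001000c0080048010000412102000202000a0100002040404100010d0002004880842019000200,
    0xa6, 1, 0x21324151618197a0, 8,
    [(0xa6, 1), (0x205396a8, 4), (0x10548796, 4), (0x214396a7, 4), (0x205396a8, 4), (0x10548796, 4)],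
    [(0x21324151618197a0, 8), (0x416570a3, 4), (0x427096a8, 4), (0x21708395, 4), (0x416570a3, 4), (0x427096a8, 4)]⟩

def c_4667 : frmChk tA tA F_4667 = true := by decide +kernel

def r_4667_0 : chkL rootF engF2 tA tA sA_419 sA_419 4 F_4667 [(511, 0, 0)]
    0x46ac0f411c41b0d41b03c27 = true := by
  decide +kernel

theorem f_4667 (h : TabsF) : FrameF repsF 419 F_4667.f :=
  frame_of rfl c_4667 (runs_of engOK r_4667_0) (by decide +kernel) h.1 h.1

def F_4668 : FrX :=
  ⟨0x2002000900044004000e02041000141000800040800401042010200010100a4200008800408200020a000102000041010080010021a01000881004210300,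
    0xa3, 1, 0x20324251618597a3, 8,
    [(0xa3, 1), (0x208693a5, 4), (0x10548793, 4), (0x217693a4, 4), (0x208693a5, 4), (0x10548793, 4)],
    [(0x20324251618597a3, 8), (0x425170a8, 4), (0x62708391, 4), (0x647095a3, 4), (0x425170a8, 4), (0x62708391, 4)]⟩

def c_4668 : frmChk tA tA F_4668 = true := by decide +kernel

def r_4668_0 : chkL rootF engF2 tA tA sA_419 sA_419 4 F_4668 [(511, 0, 0)]
    0x48e30cca06c1b03c0f = true := by
  decide +kernel

theorem f_4668 (h : TabsF) : FrameF repsF 419 F_4668.f :=
  frame_of rfl c_4668 (runs_of engOK r_4668_0) (by decide +kernel) h.1 h.1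

def F_4669 : FrX :=
  ⟨0x80080a000804040e00002101002001000002040882200004182030000041004040012000c00010011080800600082240004001005003020401110008010,
    0xa6, 1, 0x2030406373a6, 6,
    [(0xa6, 1), (0x205396a8, 4), (0x10548796, 4), (0x214396a7, 4), (0x205396a8, 4), (0x10548796, 4)],
    [(0x2030406373a6, 6), (0x407592a8, 4), (0x41538692, 4), (0x107392a6, 4), (0x407592a8, 4), (0x41538692, 4)]⟩

def c_4669 : frmChk tA tA F_4669 = true := by decide +kernel

def r_4669_0 : chkL rootF engF2 tA tA sA_419 sA_419 4 F_4669 [(511, 0, 0)]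
    0x149724 = true := by
  decide +kernel

theorem f_4669 (h : TabsF) : FrameF repsF 419 F_4669.f :=
  frame_of rfl c_4669 (runs_of engOK r_4669_0) (by decide +kernel) h.1 h.1

def F_4670 : FrX :=
  ⟨0x482000044040440000c2040020009000182040020001100100020280024022400080800081040112000200202002408028010000601000001824028210,
    0xa0, 1, 0x2061738594a0, 6,
    [(0xa0, 1), (0x538690a2, 4), (0x548790a1, 4), (0x21437690, 4), (0x538690a2, 4), (0x548790a1, 4)],
    [(0x2061738594a0, 6), (0x425187a0, 4), (0x425398a6, 4), (0x31426097, 4), (0x425187a0, 4), (0x425398a6, 4)]⟩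

def c_4670 : frmChk tA tA F_4670 = true := by decide +kernel

def r_4670_0 : chkL rootF engF2 tA tA sA_419 sA_419 4 F_4670 [(511, 0, 0)]
    0x10f00f = true := by
  decide +kernel

theorem f_4670 (h : TabsF) : FrameF repsF 419 F_4670.f :=
  frame_of rfl c_4670 (runs_of engOK r_4670_0) (by decide +kernel) h.1 h.1

def F_4671 : FrX :=
  ⟨0x2002000900044004000e0204100014100080004081000004804800200a000420140081000808010811080418400004202100200084004020440042002001,
    0xa3, 1, 0x105262728591a0, 7,
    [(0xa3, 1), (0x208693a5, 4), (0x10548793, 4), (0x217693a4, 4), (0x208693a5, 4), (0x10548793, 4)],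
    [(0x105262728591a0, 7), (0x425386a7, 4), (0x106584a9, 4), (0x10325486, 4), (0x106584a9, 4), (0x54638297, 4), (0x104352a7, 4), (0x10325486, 4), (0x104352a7, 4), (0x326485a9, 4), (0x10325486, 4), (0x54638297, 4)]⟩

def c_4671 : frmChk tA tB F_4671 = true := by decide +kernel

def r_4671_0 : chkL rootF engF2 tA tB sA_419 sB_419 4 F_4671 [(511, 0, 0)]
    0x1 = true := by
  decide +kernel

theorem f_4671 (h : TabsF) : FrameF repsF 419 F_4671.f :=
  frame_of rfl c_4671 (runs_of engOK r_4671_0) (by decide +kernel) h.1 h.2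

def F_4672 : FrX :=
  ⟨0x1001040012008080000e0084080041000810100004080808401010010020201000804808402040200006081082081000084000500500040c080002241000,
    0xa3, 1, 0x304354718792a3, 7,
    [(0xa3, 1), (0x207584a6, 4), (0x10547693, 4), (0x647593a8, 4), (0x10547693, 4), (0x216485a7, 4), (0x208693a4, 4), (0x647593a8, 4), (0x208693a4, 4), (0x106574a8, 4), (0x647593a8, 4), (0x216485a7, 4)],
    [(0x304354718792a3, 7), (0x426193a0, 4), (0x42507381, 4), (0x428697a5, 4), (0x426193a0, 4), (0x42507381, 4)]⟩

def c_4672 : frmChk tB tA F_4672 = true := by decide +kernel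

def r_4672_0 : chkL rootF engF2 tB tA sB_419 sA_419 4 F_4672 [(511, 0, 0)]
    0x109c65c1b12 = true := by
  decide +kernel

theorem f_4672 (h : TabsF) : FrameF repsF 419 F_4672.f :=
  frame_of rfl c_4672 (runs_of engOK r_4672_0) (by decide +kernel) h.2 h.1

def F_4673 : FrX :=
  ⟨0x1001040012008080000e0084080041000810100004082008101010010020081000804808402040200002081082001000084000880180040c090002242004,
    0xa3, 1, 0x324161718290a6, 7,
    [(0xa3, 1), (0x207584a6, 4), (0x10547693, 4), (0x647593a8, 4), (0x10547693, 4), (0x216485a7, 4), (0x208693a4, 4), (0x647593a8, 4), (0x208693a4, 4), (0x106574a8, 4), (0x647593a8, 4), (0x216485a7, 4)],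
    [(0x324161718290a6, 7), (0x405298a3, 4), (0x40516397, 4), (0x214087a6, 4), (0x405298a3, 4), (0x40516397, 4)]⟩

def c_4673 : frmChk tB tA F_4673 = true := by decide +kernel

def r_4673_0 : chkL rootF engF2 tB tA sB_419 sA_419 4 F_4673 [(511, 0, 0)]
    0x1 = true := by
  decide +kernel

theorem f_4673 (h : TabsF) : FrameF repsF 419 F_4673.f :=
  frame_of rfl c_4673 (runs_of engOK r_4673_0) (by decide +kernel) h.2 h.1

def F_4674 : FrX :=
  ⟨0x1001040012008080000e0084080041000810100004401008009002004010201008404200408000412000280040101000084080880802084000a0002200d0,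
    0xa3, 1, 0x405465728095a6, 7,
    [(0xa3, 1), (0x207584a6, 4), (0x10547693, 4), (0x647593a8, 4), (0x10547693, 4), (0x216485a7, 4), (0x208693a4, 4), (0x647593a8, 4), (0x208693a4, 4), (0x106574a8, 4), (0x647593a8, 4), (0x216485a7, 4)],
    [(0x405465728095a6, 7), (0x608793a4, 4), (0x42608195, 4), (0x536071a2, 4), (0x608793a4, 4), (0x42608195, 4)]⟩

def c_4674 : frmChk tB tA F_4674 = true := by decide +kernel

def r_4674_0 : chkL rootF engF2 tB tA sB_419 sA_419 4 F_4674 [(511, 0, 0)]
    0x4394986348c2e = true := by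
  decide +kernel

theorem f_4674 (h : TabsF) : FrameF repsF 419 F_4674.f :=
  frame_of rfl c_4674 (runs_of engOK r_4674_0) (by decide +kernel) h.2 h.1

def F_4675 : FrX :=
  ⟨0x1001040012008080000e008408004100081010000440080800d002004020201008004200408000422000280440101000081020a00802084000a004200050,
    0xa3, 1, 0x6370a7, 3,
    [(0xa3, 1), (0x207584a6, 4), (0x10547693, 4), (0x647593a8, 4), (0x10547693, 4), (0x216485a7, 4), (0x208693a4, 4), (0x647593a8, 4), (0x208693a4, 4), (0x106574a8, 4), (0x647593a8, 4), (0x216485a7, 4)],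
    [(0x6370a7, 3), (0x65728390, 4), (0x547190a8, 4), (0x216490a3, 4), (0x65728390, 4), (0x547190a8, 4)]⟩

def c_4675 : frmChk tB tA F_4675 = true := by decide +kernel

def r_4675_0 : chkL rootF engF2 tB tA sB_419 sA_419 4 F_4675 [(511, 0, 0)]
    0x1 = true := by
  decide +kernel

theorem f_4675 (h : TabsF) : FrameF repsF 419 F_4675.f :=
  frame_of rfl c_4675 (runs_of engOK r_4675_0) (by decide +kernel) h.2 h.1

def F_4676 : FrX :=
  ⟨0x1001040012008080000e00840800410008101000042100004060010004000882808200081080100800041202040000212044201202200081100000040218,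
    0xa3, 1, 0x3165748290a3, 6,
    [(0xa3, 1), (0x207584a6, 4), (0x10547693, 4), (0x647593a8, 4), (0x10547693, 4), (0x216485a7, 4), (0x208693a4, 4), (0x647593a8, 4), (0x208693a4, 4), (0x106574a8, 4), (0x647593a8, 4), (0x216485a7, 4)],
    [(0x3165748290a3, 6), (0x647298a5, 4), (0x10547693, 4), (0x106475a2, 4), (0x10547693, 4), (0x627583a4, 4), (0x105298a7, 4), (0x106475a2, 4), (0x105298a7, 4), (0x657493a2, 4), (0x106475a2, 4), (0x627583a4, 4)]⟩

def c_4676 : frmChk tB tB F_4676 = true := by decide +kernel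

def r_4676_0 : chkL rootF engF2 tB tB sB_419 sB_419 4 F_4676 [(511, 0, 0)]
    0x1 = true := by
  decide +kernel

theorem f_4676 (h : TabsF) : FrameF repsF 419 F_4676.f :=
  frame_of rfl c_4676 (runs_of engOK r_4676_0) (by decide +kernel) h.2 h.2

def F_4677 : FrX :=
  ⟨0x2002000900044004000e02041000141000800040800804058010020400800880200100104400008480020140101010003000820404040000500210008304,
    0xa3, 1, 0x2043536185a3, 6,
    [(0xa3, 1), (0x208693a5, 4), (0x10548793, 4), (0x217693a4, 4), (0x208693a5, 4), (0x10548793, 4)],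
    [(0x2043536185a3, 6), (0x204195a8, 4), (0x62748395, 4), (0x607195a3, 4), (0x204195a8, 4), (0x62748395, 4)]⟩

def c_4677 : frmChk tA tA F_4677 = true := by decide +kernel

def r_4677_0 : chkL rootF engF2 tA tA sA_419 sA_419 4 F_4677 [(511, 0, 0)]
    0x427 = true := by
  decide +kernel

theorem f_4677 (h : TabsF) : FrameF repsF 419 F_4677.f :=
  frame_of rfl c_4677 (runs_of engOK r_4677_0) (by decide +kernel) h.1 h.1

def F_4678 : FrX :=
  ⟨0x80080a000804040e000021010020010000020408880204810080800208100010010040600000480800228002810034001000004840080004440280a0200,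
    0xa6, 1, 0x2030425182a1, 6,
    [(0xa6, 1), (0x205396a8, 4), (0x10548796, 4), (0x214396a7, 4), (0x205396a8, 4), (0x10548796, 4)],
    [(0x2030425182a1, 6), (0x21648395, 4), (0x107495a3, 4), (0x207695a8, 4), (0x21648395, 4), (0x107495a3, 4)]⟩

def c_4678 : frmChk tA tA F_4678 = true := by decide +kernel

def r_4678_0 : chkL rootF engF2 tA tA sA_419 sA_419 4 F_4678 [(511, 0, 0)]
    0x1 = true := by
  decide +kernel

theorem f_4678 (h : TabsF) : FrameF repsF 419 F_4678.f :=
  frame_of rfl c_4678 (runs_of engOK r_4678_0) (by decide +kernel) h.1 h.1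

def F_4679 : FrX :=
  ⟨0x482000044040440000c2040020009000182040010010100800800810042004220010808010048120000810880808100014002004200180044020000411,
    0xa0, 1, 0x4265718394a2, 6,
    [(0xa0, 1), (0x538690a2, 4), (0x548790a1, 4), (0x21437690, 4), (0x538690a2, 4), (0x548790a1, 4)],
    [(0x4265718394a2, 6), (0x425386a0, 4), (0x31427096, 4), (0x425198a7, 4), (0x425386a0, 4), (0x31427096, 4)]⟩

def c_4679 : frmChk tA tA F_4679 = true := by decide +kernel

def r_4679_0 : chkL rootF engF2 tA tA sA_419 sA_419 4 F_4679 [(511, 0, 0)]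
    0x18385c3444b = true := by
  decide +kernel

theorem f_4679 (h : TabsF) : FrameF repsF 419 F_4679.f :=
  frame_of rfl c_4679 (runs_of engOK r_4679_0) (by decide +kernel) h.1 h.1

def F_4680 : FrX :=
  ⟨0x482000044040440000c2040020009000182040001100401200900200004090008210001028000488000801800210400040005080440880412010200004,
    0xa0, 1, 0x3241657587a0, 6,
    [(0xa0, 1), (0x538690a2, 4), (0x548790a1, 4), (0x21437690, 4), (0x538690a2, 4), (0x548790a1, 4)],
    [(0x3241657587a0, 6), (0x657290a3, 4), (0x718690a4, 4), (0x21438590, 4), (0x657290a3, 4), (0x718690a4, 4)]⟩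

def c_4680 : frmChk tA tA F_4680 = true := by decide +kernel

def r_4680_0 : chkL rootF engF2 tA tA sA_419 sA_419 4 F_4680 [(511, 0, 0)]
    0x125427 = true := by
  decide +kernel

theorem f_4680 (h : TabsF) : FrameF repsF 419 F_4680.f :=
  frame_of rfl c_4680 (runs_of engOK r_4680_0) (by decide +kernel) h.1 h.1

theorem cl_419 (h : TabsF) : ∀ f ∈ fr_419, FrameF repsF 419 f :=
  List.forall_mem_cons.2 ⟨f_4665 h, List.forall_mem_cons.2 ⟨f_4666 h, List.forall_mem_cons.2 ⟨f_4667 h, List.forall_mem_cons.2 ⟨f_4668 h, List.forall_mem_cons.2 ⟨f_4669 h, List.forall_mem_cons.2 ⟨f_4670 h, List.forall_mem_cons.2 ⟨f_4671 h, List.forall_mem_cons.2 ⟨f_4672 h, List.forall_mem_cons.2 ⟨f_4673 h, List.forall_mem_cons.2 ⟨f_4674 h, List.forall_mem_cons.2 ⟨f_4675 h, List.forall_mem_cons.2 ⟨f_4676 h, List.forall_mem_cons.2 ⟨f_4677 h, List.forall_mem_cons.2 ⟨f_4678 h, List.forall_mem_cons.2 ⟨f_4679 h, List.forall_mem_cons.2 ⟨f_4680 h,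
    fun _ h0 => absurd h0 List.not_mem_nil⟩⟩⟩⟩⟩⟩⟩⟩⟩⟩⟩⟩⟩⟩⟩⟩

def F_4681 : FrX :=
  ⟨0x80080a000804040e00002101002001000002040884200005404081000021002022000040c0c2000800808000101101000000502220009011080c0202000,
    0xa6, 1, 0x213254658296a6, 7,
    [(0xa6, 1), (0x205396a8, 4), (0x10548796, 4), (0x214396a7, 4), (0x205396a8, 4), (0x10548796, 4)],
    [(0x213254658296a6, 7), (0x618094a3, 4), (0x20657394, 4), (0x518294a7, 4), (0x618094a3, 4), (0x20657394, 4)]⟩

def c_4681 : frmChk tA tA F_4681 = true := by decide +kernel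

def r_4681_0 : chkL rootF engF2 tA tA sA_420 sA_420 4 F_4681 [(511, 0, 0)]
    0x1 = true := by
  decide +kernel

theorem f_4681 (h : TabsF) : FrameF repsF 420 F_4681.f :=
  frame_of rfl c_4681 (runs_of engOK r_4681_0) (by decide +kernel) h.1 h.1

def F_4682 : FrX :=
  ⟨0x482000044040440000c204002000900018204002000202080040480404104003040000020d200180080440002008108000090002084000101402002082,
    0xa0, 1, 0x105061738797a0, 7,
    [(0xa0, 1), (0x538690a2, 4), (0x548790a1, 4), (0x21437690, 4), (0x538690a2, 4), (0x548790a1, 4)],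
    [(0x105061738797a0, 7), (0x307185a2, 4), (0x418593a6, 4), (0x62748590, 4), (0x307185a2, 4), (0x418593a6, 4)]⟩

def c_4682 : frmChk tA tA F_4682 = true := by decide +kernel

def r_4682_0 : chkL rootF engF2 tA tA sA_420 sA_420 4 F_4682 [(511, 0, 0)]
    0x40f03ec203e49 = true := by
  decide +kernel

theorem f_4682 (h : TabsF) : FrameF repsF 420 F_4682.f :=
  frame_of rfl c_4682 (runs_of engOK r_4682_0) (by decide +kernel) h.1 h.1

def F_4683 : FrX :=
  ⟨0x2002000900044004000e020410001410008000408080004080a000011000a210020a00000a0c20088008050001000014001081020088400000a020009010,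
    0xa3, 1, 0x21314061768695a0, 8,
    [(0xa3, 1), (0x208693a5, 4), (0x10548793, 4), (0x217693a4, 4), (0x208693a5, 4), (0x10548793, 4)],
    [(0x21314061768695a0, 8), (0x548792a1, 4), (0x547390a6, 4), (0x20546183, 4), (0x548792a1, 4), (0x547390a6, 4)]⟩

def c_4683 : frmChk tA tA F_4683 = true := by decide +kernel

def r_4683_0 : chkL rootF engF2 tA tA sA_420 sA_420 4 F_4683 [(511, 0, 0)]
    0x427 = true := by
  decide +kernel

theorem f_4683 (h : TabsF) : FrameF repsF 420 F_4683.f :=
  frame_of rfl c_4683 (runs_of engOK r_4683_0) (by decide +kernel) h.1 h.1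

def F_4684 : FrX :=
  ⟨0x482000044040440000c2040020009000182040002080820000a00010025008004400104024040280c00800081020010000820108008402000904044004,
    0xa0, 1, 0x20324353708490a5, 8,
    [(0xa0, 1), (0x538690a2, 4), (0x548790a1, 4), (0x21437690, 4), (0x538690a2, 4), (0x548790a1, 4)],
    [(0x20324353708490a5, 8), (0x607493a5, 4), (0x207491a8, 4), (0x31627485, 4), (0x607493a5, 4), (0x207491a8, 4)]⟩

def c_4684 : frmChk tA tA F_4684 = true := by decide +kernel

def r_4684_0 : chkL rootF engF2 tA tA sA_420 sA_420 4 F_4684 [(511, 0, 0)]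
    0x1 = true := by
  decide +kernel

theorem f_4684 (h : TabsF) : FrameF repsF 420 F_4684.f :=
  frame_of rfl c_4684 (runs_of engOK r_4684_0) (by decide +kernel) h.1 h.1

def F_4685 : FrX :=
  ⟨0x1c2102000004044000002041000101000082040888200008008080004000242020601000a0c20008008054001010810001001022208400110840000a000,
    0x0, 0, 0x107583, 3,
    [(0x0, 0), (0x205386a9, 4), (0x105487a9, 4), (0x214376a9, 4), (0x205386a9, 4), (0x105487a9, 4)],
    [(0x107583, 3), (0x216387a9, 4), (0x105374a9, 4), (0x206584a9, 4), (0x216387a9, 4), (0x105374a9, 4)]⟩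

def c_4685 : frmChk tA tA F_4685 = true := by decide +kernel

def r_4685_0 : chkL rootF engF2 tA tA sA_420 sA_420 4 F_4685 [(511, 0, 0)]
    0x14c8392654316a0784d320d8724c453 = true := by
  decide +kernel

theorem f_4685 (h : TabsF) : FrameF repsF 420 F_4685.f :=
  frame_of rfl c_4685 (runs_of engOK r_4685_0) (by decide +kernel) h.1 h.1

def F_4686 : FrX :=
  ⟨0x482000044040440000c2040020009000182040002012040008402008008400032000410020010400800040888008000204006040024022070406000001,
    0xa0, 1, 0x205062748797a0, 7,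
    [(0xa0, 1), (0x538690a2, 4), (0x548790a1, 4), (0x21437690, 4), (0x538690a2, 4), (0x548790a1, 4)],
    [(0x205062748797a0, 7), (0x324085a6, 4), (0x728594a1, 4), (0x61738590, 4), (0x324085a6, 4), (0x728594a1, 4)]⟩

def c_4686 : frmChk tA tA F_4686 = true := by decide +kernel

def r_4686_0 : chkL rootF engF2 tA tA sA_420 sA_420 4 F_4686 [(511, 0, 0)]
    0x106c2b0ac1b1a43924c93 = true := by
  decide +kernel

theorem f_4686 (h : TabsF) : FrameF repsF 420 F_4686.f :=
  frame_of rfl c_4686 (runs_of engOK r_4686_0) (by decide +kernel) h.1 h.1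

def F_4687 : FrX :=
  ⟨0x80080a000804040e00002101002001000002040882200004048024000010408010404101400008020800800880208080120801130008c40000804084000,
    0xa6, 1, 0x314154617195a2, 7,
    [(0xa6, 1), (0x205396a8, 4), (0x10548796, 4), (0x214396a7, 4), (0x205396a8, 4), (0x10548796, 4)],
    [(0x314154617195a2, 7), (0x418596a0, 4), (0x32647095, 4), (0x32548196, 4), (0x32647095, 4), (0x546198a7, 4), (0x325184a0, 4), (0x32548196, 4), (0x325184a0, 4), (0x65708194, 4), (0x32548196, 4), (0x546198a7, 4)]⟩

def c_4687 : frmChk tA tB F_4687 = true := by decide +kernel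

def r_4687_0 : chkL rootF engF2 tA tB sA_420 sB_420 4 F_4687 [(511, 0, 0)]
    0x1 = true := by
  decide +kernel

theorem f_4687 (h : TabsF) : FrameF repsF 420 F_4687.f :=
  frame_of rfl c_4687 (runs_of engOK r_4687_0) (by decide +kernel) h.1 h.2

def F_4688 : FrX :=
  ⟨0x482000044040440000c20400200090001820400011004080081000040002441008802200010400a0020420100600101100082030102200100002800401,
    0xa0, 1, 0x10315363718798a0, 8,
    [(0xa0, 1), (0x538690a2, 4), (0x548790a1, 4), (0x21437690, 4), (0x538690a2, 4), (0x548790a1, 4)],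
    [(0x10315363718798a0, 8), (0x316095a2, 4), (0x314098a7, 4), (0x31647285, 4), (0x316095a2, 4), (0x314098a7, 4)]⟩

def c_4688 : frmChk tA tA F_4688 = true := by decide +kernel

def r_4688_0 : chkL rootF engF2 tA tA sA_420 sA_420 4 F_4688 [(511, 0, 0)]
    0x18342d0790e434c9 = true := by
  decide +kernel

theorem f_4688 (h : TabsF) : FrameF repsF 420 F_4688.f :=
  frame_of rfl c_4688 (runs_of engOK r_4688_0) (by decide +kernel) h.1 h.1

def F_4689 : FrX :=
  ⟨0x80080a000804040e000021010020010000020408a00010011002040202420100080140000280c1010041001002420040200108008080408004021080082,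
    0xa6, 1, 0x314052648194a0, 7,
    [(0xa6, 1), (0x205396a8, 4), (0x10548796, 4), (0x214396a7, 4), (0x205396a8, 4), (0x10548796, 4)],
    [(0x314052648194a0, 7), (0x213064a5, 4), (0x647392a8, 4), (0x64708591, 4), (0x213064a5, 4), (0x647392a8, 4)]⟩

def c_4689 : frmChk tA tA F_4689 = true := by decide +kernel

def r_4689_0 : chkL rootF engF2 tA tA sA_420 sA_420 4 F_4689 [(511, 0, 0)]
    0x11541b0d43507b28d801d = true := by
  decide +kernel

theorem f_4689 (h : TabsF) : FrameF repsF 420 F_4689.f :=
  frame_of rfl c_4689 (runs_of engOK r_4689_0) (by decide +kernel) h.1 h.1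

def F_4690 : FrX :=
  ⟨0x482000044040440000c2040020009000182040002012040000880200080408004062020001010020800a09100100140100202008828801000808000210,
    0xa0, 1, 0x214353647591a3, 7,
    [(0xa0, 1), (0x538690a2, 4), (0x548790a1, 4), (0x21437690, 4), (0x538690a2, 4), (0x548790a1, 4)],
    [(0x214353647591a3, 7), (0x105283a7, 4), (0x52768490, 4), (0x435291a6, 4), (0x105283a7, 4), (0x52768490, 4)]⟩

def c_4690 : frmChk tA tA F_4690 = true := by decide +kernel

def r_4690_0 : chkL rootF engF2 tA tA sA_420 sA_420 4 F_4690 [(511, 0, 0)]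
    0x40f0ac17 = true := by
  decide +kernel

theorem f_4690 (h : TabsF) : FrameF repsF 420 F_4690.f :=
  frame_of rfl c_4690 (runs_of engOK r_4690_0) (by decide +kernel) h.1 h.1

def F_4691 : FrX :=
  ⟨0x2002000900044004000e0204100014100080004080980100100802000200018020012802000002001404011108040040024800800a00880c000402020006,
    0xa3, 1, 0x10516474a8, 5,
    [(0xa3, 1), (0x208693a5, 4), (0x10548793, 4), (0x217693a4, 4), (0x208693a5, 4), (0x10548793, 4)],
    [(0x10516474a8, 5), (0x213098a4, 4), (0x517098a6, 4), (0x52647398, 4), (0x213098a4, 4), (0x517098a6, 4)]⟩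

def c_4691 : frmChk tA tA F_4691 = true := by decide +kernel

def r_4691_0 : chkL rootF engF2 tA tA sA_420 sA_420 4 F_4691 [(511, 0, 0)]
    0x10cd54 = true := by
  decide +kernel

theorem f_4691 (h : TabsF) : FrameF repsF 420 F_4691.f :=
  frame_of rfl c_4691 (runs_of engOK r_4691_0) (by decide +kernel) h.1 h.1

def F_4692 : FrX :=
  ⟨0x2002000900044004000e02041000141000800040804208020810020010002208200022001208008024000084401008008040008080a00200202030104012,
    0xa3, 1, 0x21314253617283a2, 8,
    [(0xa3, 1), (0x208693a5, 4), (0x10548793, 4), (0x217693a4, 4), (0x208693a5, 4), (0x10548793, 4)],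
    [(0x21314253617283a2, 8), (0x538297a0, 4), (0x21546097, 4), (0x438197a6, 4), (0x538297a0, 4), (0x21546097, 4)]⟩

def c_4692 : frmChk tA tA F_4692 = true := by decide +kernel

def r_4692_0 : chkL rootF engF2 tA tA sA_420 sA_420 4 F_4692 [(511, 0, 0)]
    0x103c0f = true := by
  decide +kernel

theorem f_4692 (h : TabsF) : FrameF repsF 420 F_4692.f :=
  frame_of rfl c_4692 (runs_of engOK r_4692_0) (by decide +kernel) h.1 h.1

def F_4693 : FrX :=
  ⟨0x80080a000804040e000021010020010000020408a00010040400900210400821000240004000482a8000200102208108008042010000100101210040201,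
    0xa6, 1, 0x2040617097a1, 6,
    [(0xa6, 1), (0x205396a8, 4), (0x10548796, 4), (0x214396a7, 4), (0x205396a8, 4), (0x10548796, 4)],
    [(0x2040617097a1, 6), (0x31708295, 4), (0x526491a7, 4), (0x21648395, 4), (0x526491a7, 4), (0x218593a0, 4), (0x32647081, 4), (0x21648395, 4), (0x32647081, 4), (0x518392a7, 4), (0x21648395, 4), (0x218593a0, 4)]⟩

def c_4693 : frmChk tA tB F_4693 = true := by decide +kernel

def r_4693_0 : chkL rootF engF2 tA tB sA_420 sB_420 4 F_4693 [(511, 0, 0)]
    0x42b = true := by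
  decide +kernel

theorem f_4693 (h : TabsF) : FrameF repsF 420 F_4693.f :=
  frame_of rfl c_4693 (runs_of engOK r_4693_0) (by decide +kernel) h.1 h.2

def F_4694 : FrX :=
  ⟨0x80080a000804040e0000210100200100000204089002000141000042020400d00080006004d00008002280000110000c9000801400084024000000c5000,
    0xa6, 1, 0x314363738397a5, 7,
    [(0xa6, 1), (0x205396a8, 4), (0x10548796, 4), (0x214396a7, 4), (0x205396a8, 4), (0x10548796, 4)],
    [(0x314363738397a5, 7), (0x206574a8, 4), (0x306597a1, 4), (0x32658194, 4), (0x206574a8, 4), (0x306597a1, 4)]⟩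

def c_4694 : frmChk tA tA F_4694 = true := by decide +kernel

def r_4694_0 : chkL rootF engF2 tA tA sA_420 sA_420 4 F_4694 [(511, 0, 0)]
    0x1528275515485427c5099155541344d = true := by
  decide +kernel

theorem f_4694 (h : TabsF) : FrameF repsF 420 F_4694.f :=
  frame_of rfl c_4694 (runs_of engOK r_4694_0) (by decide +kernel) h.1 h.1

def F_4695 : FrX :=
  ⟨0x482000044040440000c20400200090001820400010802202008408000400900800204010280001200008c040100880004200010a04800004301000e000,
    0xa0, 1, 0x314254627486a0, 7,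
    [(0xa0, 1), (0x538690a2, 4), (0x548790a1, 4), (0x21437690, 4), (0x538690a2, 4), (0x548790a1, 4)],
    [(0x314254627486a0, 7), (0x218490a6, 4), (0x547290a3, 4), (0x63718590, 4), (0x218490a6, 4), (0x547290a3, 4)]⟩

def c_4695 : frmChk tA tA F_4695 = true := by decide +kernel

def r_4695_0 : chkL rootF engF2 tA tA sA_420 sA_420 4 F_4695 [(511, 0, 0)]
    0x1 = true := by
  decide +kernel

theorem f_4695 (h : TabsF) : FrameF repsF 420 F_4695.f :=
  frame_of rfl c_4695 (runs_of engOK r_4695_0) (by decide +kernel) h.1 h.1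

def F_4696 : FrX :=
  ⟨0x80080a000804040e00002101002001000002040880600008108088000008242021000420004040481808400010100101103000080410084020004043000,
    0xa6, 1, 0x204351758795a2, 7,
    [(0xa6, 1), (0x205396a8, 4), (0x10548796, 4), (0x214396a7, 4), (0x205396a8, 4), (0x10548796, 4)],
    [(0x204351758795a2, 7), (0x617094a2, 4), (0x52708193, 4), (0x437086a5, 4), (0x617094a2, 4), (0x52708193, 4)]⟩

def c_4696 : frmChk tA tA F_4696 = true := by decide +kernel

def r_4696_0 : chkL rootF engF2 tA tA sA_420 sA_420 4 F_4696 [(511, 0, 0)]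
    0x19302e = true := by
  decide +kernel

theorem f_4696 (h : TabsF) : FrameF repsF 420 F_4696.f :=
  frame_of rfl c_4696 (runs_of engOK r_4696_0) (by decide +kernel) h.1 h.1

def F_4697 : FrX :=
  ⟨0x2002000900044004000e02041000141000800040808000408082020201010108001400204105040480020100101020008804020101000800500150008004,
    0xa3, 1, 0x3141546594a1, 6,
    [(0xa3, 1), (0x208693a5, 4), (0x10548793, 4), (0x217693a4, 4), (0x208693a5, 4), (0x10548793, 4)],
    [(0x3141546594a1, 6), (0x20546183, 4), (0x548796a0, 4), (0x547391a2, 4), (0x20546183, 4), (0x548796a0, 4)]⟩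

def c_4697 : frmChk tA tA F_4697 = true := by decide +kernel

def r_4697_0 : chkL rootF engF2 tA tA sA_420 sA_420 4 F_4697 [(511, 0, 0)]
    0x4554550b03c87 = true := by
  decide +kernel

theorem f_4697 (h : TabsF) : FrameF repsF 420 F_4697.f :=
  frame_of rfl c_4697 (runs_of engOK r_4697_0) (by decide +kernel) h.1 h.1

def F_4698 : FrX :=
  ⟨0x2002000900044004000e02041000141000800040800802080080c00400224000020c00204024000881c00010018010100000820060420100021220080080,
    0xa3, 1, 0x426596a2, 4,
    [(0xa3, 1), (0x208693a5, 4), (0x10548793, 4), (0x217693a4, 4), (0x208693a5, 4), (0x10548793, 4)],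
    [(0x426596a2, 4), (0x768293a0, 4), (0x10546297, 4), (0x54768392, 4), (0x10546297, 4), (0x738692a1, 4), (0x325498a0, 4), (0x54768392, 4), (0x325498a0, 4), (0x10728396, 4), (0x54768392, 4), (0x738692a1, 4)]⟩

def c_4698 : frmChk tA tB F_4698 = true := by decide +kernel

def r_4698_0 : chkL rootF engF2 tA tB sA_420 sB_420 4 F_4698 [(511, 0, 0)]
    0x1 = true := by
  decide +kernel

theorem f_4698 (h : TabsF) : FrameF repsF 420 F_4698.f :=
  frame_of rfl c_4698 (runs_of engOK r_4698_0) (by decide +kernel) h.1 h.2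

def F_4699 : FrX :=
  ⟨0x2002000900044004000e0204100014100080004080080700008802400020840000010300088800200408030101000810010000008700800840107000a000,
    0xa3, 1, 0x3240516386a3, 6,
    [(0xa3, 1), (0x208693a5, 4), (0x10548793, 4), (0x217693a4, 4), (0x208693a5, 4), (0x10548793, 4)],
    [(0x3240516386a3, 6), (0x438296a1, 4), (0x10547296, 4), (0x538796a0, 4), (0x438296a1, 4), (0x10547296, 4)]⟩

def c_4699 : frmChk tA tA F_4699 = true := by decide +kernel

def r_4699_0 : chkL rootF engF2 tA tA sA_420 sA_420 4 F_4699 [(511, 0, 0)]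
    0x42e = true := by
  decide +kernel

theorem f_4699 (h : TabsF) : FrameF repsF 420 F_4699.f :=
  frame_of rfl c_4699 (runs_of engOK r_4699_0) (by decide +kernel) h.1 h.1

def F_4700 : FrX :=
  ⟨0x80080a000804040e000021010020010000020408a0001002080024802002200010490000400055038000001202002408004008001211400000824080010,
    0xa6, 1, 0x21304163748395a6, 8,
    [(0xa6, 1), (0x205396a8, 4), (0x10548796, 4), (0x214396a7, 4), (0x205396a8, 4), (0x10548796, 4)],
    [(0x21304163748395a6, 8), (0x315098a6, 4), (0x43506297, 4), (0x415087a2, 4), (0x315098a6, 4), (0x43506297, 4)]⟩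

def c_4700 : frmChk tA tA F_4700 = true := by decide +kernel

def r_4700_0 : chkL rootF engF2 tA tA sA_420 sA_420 4 F_4700 [(511, 0, 0)]
    0x44703c691540f = true := by
  decide +kernel

theorem f_4700 (h : TabsF) : FrameF repsF 420 F_4700.f :=
  frame_of rfl c_4700 (runs_of engOK r_4700_0) (by decide +kernel) h.1 h.1

def F_4701 : FrX :=
  ⟨0x482000044040440000c20400200090001820400200008280001001100801612002000002190c022080002000100114004000000c108000004100808448,
    0xa0, 1, 0x103164748498a3, 7,
    [(0xa0, 1), (0x538690a2, 4), (0x548790a1, 4), (0x21437690, 4), (0x538690a2, 4), (0x548790a1, 4)],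
    [(0x103164748498a3, 7), (0x217094a5, 4), (0x31708596, 4), (0x326470a8, 4), (0x217094a5, 4), (0x31708596, 4)]⟩

def c_4701 : frmChk tA tA F_4701 = true := by decide +kernel

def r_4701_0 : chkL rootF engF2 tA tA sA_420 sA_420 4 F_4701 [(511, 0, 0)]
    0x1 = true := by
  decide +kernel

theorem f_4701 (h : TabsF) : FrameF repsF 420 F_4701.f :=
  frame_of rfl c_4701 (runs_of engOK r_4701_0) (by decide +kernel) h.1 h.1

def F_4702 : FrX :=
  ⟨0x80080a000804040e000021010020010000020408810110010200100200420020140240044000050ac000000101100108002082082001c00000a10400200,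
    0xa6, 1, 0x102140508394a6, 7,
    [(0xa6, 1), (0x205396a8, 4), (0x10548796, 4), (0x214396a7, 4), (0x205396a8, 4), (0x10548796, 4)],
    [(0x102140508394a6, 7), (0x507493a8, 4), (0x526194a7, 4), (0x617483a9, 4), (0x526194a7, 4), (0x204387a9, 4), (0x506198a3, 4), (0x617483a9, 4), (0x506198a3, 4), (0x528397a4, 4), (0x617483a9, 4), (0x204387a9, 4)]⟩

def c_4702 : frmChk tA tB F_4702 = true := by decide +kernel

def r_4702_0 : chkL rootF engF2 tA tB sA_420 sB_420 4 F_4702 [(511, 0, 0)]
    0x44d = true := by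
  decide +kernel

theorem f_4702 (h : TabsF) : FrameF repsF 420 F_4702.f :=
  frame_of rfl c_4702 (runs_of engOK r_4702_0) (by decide +kernel) h.1 h.2

def F_4703 : FrX :=
  ⟨0x80080a000804040e00002101002001000002040880410808008400080820000004501120008010080041420040600102202090020002201100140800020,
    0xa6, 1, 0x5161748193a2, 6,
    [(0xa6, 1), (0x205396a8, 4), (0x10548796, 4), (0x214396a7, 4), (0x205396a8, 4), (0x10548796, 4)],
    [(0x5161748193a2, 6), (0x326591a0, 4), (0x32647180, 4), (0x325497a8, 4), (0x326591a0, 4), (0x32647180, 4)]⟩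

def c_4703 : frmChk tA tA F_4703 = true := by decide +kernel

def r_4703_0 : chkL rootF engF2 tA tA sA_420 sA_420 4 F_4703 [(511, 0, 0)]
    0x119465 = true := by
  decide +kernel

theorem f_4703 (h : TabsF) : FrameF repsF 420 F_4703.f :=
  frame_of rfl c_4703 (runs_of engOK r_4703_0) (by decide +kernel) h.1 h.1

def F_4704 : FrX :=
  ⟨0x80080a000804040e00002101002001000002040890020008050000128801001011100000808010280002480020490002040048080000104260090800001,
    0xa6, 1, 0x102130428394a3, 7,
    [(0xa6, 1), (0x205396a8, 4), (0x10548796, 4), (0x214396a7, 4), (0x205396a8, 4), (0x10548796, 4)],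
    [(0x102130428394a3, 7), (0x436180a5, 4), (0x32718095, 4), (0x427680a9, 4), (0x436180a5, 4), (0x32718095, 4)]⟩

def c_4704 : frmChk tA tA F_4704 = true := by decide +kernel

def r_4704_0 : chkL rootF engF2 tA tA sA_420 sA_420 4 F_4704 [(511, 0, 0)]
    0x4390e42b = true := by
  decide +kernel

theorem f_4704 (h : TabsF) : FrameF repsF 420 F_4704.f :=
  frame_of rfl c_4704 (runs_of engOK r_4704_0) (by decide +kernel) h.1 h.1

def F_4705 : FrX :=
  ⟨0x80080a000804040e00002101002001000002040890080000304004408410008004404010000084200041140a0800101010010102001002100c008220020,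
    0xa6, 1, 0x204051648698a6, 7,
    [(0xa6, 1), (0x205396a8, 4), (0x10548796, 4), (0x214396a7, 4), (0x205396a8, 4), (0x10548796, 4)],
    [(0x204051648698a6, 7), (0x407196a3, 4), (0x546182a7, 4), (0x718293a6, 4), (0x546182a7, 4), (0x507391a6, 4), (0x406382a9, 4), (0x718293a6, 4), (0x406382a9, 4), (0x547693a1, 4), (0x718293a6, 4), (0x507391a6, 4)]⟩

def c_4705 : frmChk tA tB F_4705 = true := by decide +kernel

def r_4705_0 : chkL rootF engF2 tA tB sA_420 sB_420 4 F_4705 [(511, 0, 0)]
    0x1 = true := by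
  decide +kernel

theorem f_4705 (h : TabsF) : FrameF repsF 420 F_4705.f :=
  frame_of rfl c_4705 (runs_of engOK r_4705_0) (by decide +kernel) h.1 h.2

def F_4706 : FrX :=
  ⟨0x482000044040440000c2040020009000182040010010048008000084040050030c00004001010180400e00102010108080090040080800105002000082,
    0xa0, 1, 0x215161748497a6, 7,
    [(0xa0, 1), (0x538690a2, 4), (0x548790a1, 4), (0x21437690, 4), (0x538690a2, 4), (0x548790a1, 4)],
    [(0x215161748497a6, 7), (0x103254a7, 4), (0x54608297, 4), (0x546183a9, 4), (0x103254a7, 4), (0x54608297, 4)]⟩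

def c_4706 : frmChk tA tA F_4706 = true := by decide +kernel

def r_4706_0 : chkL rootF engF2 tA tA sA_420 sA_420 4 F_4706 [(511, 0, 0)]
    0x1 = true := by
  decide +kernel

theorem f_4706 (h : TabsF) : FrameF repsF 420 F_4706.f :=
  frame_of rfl c_4706 (runs_of engOK r_4706_0) (by decide +kernel) h.1 h.1

def F_4707 : FrX :=
  ⟨0x2002000900044004000e020410001410008000408080010011010204010201020002240042002084980000070000200080c0008026000800100880220040,
    0xa3, 1, 0x314253728498a3, 7,
    [(0xa3, 1), (0x208693a5, 4), (0x10548793, 4), (0x217693a4, 4), (0x208693a5, 4), (0x10548793, 4)],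
    [(0x314253728498a3, 7), (0x417098a6, 4), (0x30526481, 4), (0x415286a9, 4), (0x30526481, 4), (0x738691a4, 4), (0x527096a8, 4), (0x415286a9, 4), (0x527096a8, 4), (0x306184a9, 4), (0x415286a9, 4), (0x738691a4, 4)]⟩

def c_4707 : frmChk tA tB F_4707 = true := by decide +kernel

def r_4707_0 : chkL rootF engF2 tA tB sA_420 sB_420 4 F_4707 [(511, 0, 0)]
    0x1 = true := by
  decide +kernel

theorem f_4707 (h : TabsF) : FrameF repsF 420 F_4707.f :=
  frame_of rfl c_4707 (runs_of engOK r_4707_0) (by decide +kernel) h.1 h.2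

def F_4708 : FrX :=
  ⟨0x1c21020000040440000020410001010000820408a0001100000022400200c04000084040088301010380004028008440300002003020120000020600200,
    0x0, 0, 0x436575, 3,
    [(0x0, 0), (0x205386a9, 4), (0x105487a9, 4), (0x214376a9, 4), (0x205386a9, 4), (0x105487a9, 4)],
    [(0x436575, 3), (0x20547683, 4), (0x106573a9, 4), (0x537684a9, 4), (0x106573a9, 4), (0x21536487, 4), (0x204385a9, 4), (0x537684a9, 4), (0x204385a9, 4), (0x10637584, 4), (0x537684a9, 4), (0x21536487, 4)]⟩

def c_4708 : frmChk tA tB F_4708 = true := by decide +kernel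

def r_4708_0 : chkL rootF engF2 tA tB sA_420 sB_420 4 F_4708 [(511, 0, 0)]
    0x1 = true := by
  decide +kernel

theorem f_4708 (h : TabsF) : FrameF repsF 420 F_4708.f :=
  frame_of rfl c_4708 (runs_of engOK r_4708_0) (by decide +kernel) h.1 h.2

theorem cl_420 (h : TabsF) : ∀ f ∈ fr_420, FrameF repsF 420 f :=
  List.forall_mem_cons.2 ⟨f_4681 h, List.forall_mem_cons.2 ⟨f_4682 h, List.forall_mem_cons.2 ⟨f_4683 h, List.forall_mem_cons.2 ⟨f_4684 h, List.forall_mem_cons.2 ⟨f_4685 h, List.forall_mem_cons.2 ⟨f_4686 h, List.forall_mem_cons.2 ⟨f_4687 h, List.forall_mem_cons.2 ⟨f_4688 h, List.forall_mem_cons.2 ⟨f_4689 h, List.forall_mem_cons.2 ⟨f_4690 h, List.forall_mem_cons.2 ⟨f_4691 h, List.forall_mem_cons.2 ⟨f_4692 h, List.forall_mem_cons.2 ⟨f_4693 h, List.forall_mem_cons.2 ⟨f_4694 h, List.forall_mem_cons.2 ⟨f_4695 h, List.forall_mem_cons.2 ⟨f_4696 h, List.forall_mem_cons.2 ⟨f_4697 h, List.forall_mem_cons.2 ⟨f_4698 h, List.forall_mem_cons.2 ⟨f_4699 h, List.forall_mem_cons.2 ⟨f_4700 h, List.forall_mem_cons.2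 ⟨f_4701 h, List.forall_mem_cons.2 ⟨f_4702 h, List.forall_mem_cons.2 ⟨f_4703 h, List.forall_mem_cons.2 ⟨f_4704 h, List.forall_mem_cons.2 ⟨f_4705 h, List.forall_mem_cons.2 ⟨f_4706 h, List.forall_mem_cons.2 ⟨f_4707 h, List.forall_mem_cons.2 ⟨f_4708 h,
    fun _ h0 => absurd h0 List.not_mem_nil⟩⟩⟩⟩⟩⟩⟩⟩⟩⟩⟩⟩⟩⟩⟩⟩⟩⟩⟩⟩⟩⟩⟩⟩⟩⟩⟩⟩

def F_4709 : FrX :=
  ⟨0x80080a000804040e00002101002001000002040881200001404081400021002022000040c182000800808010101101000000402220009011080c0202000,
    0xa6, 1, 0x32415060748292a3, 8,
    [(0xa6, 1), (0x205396a8, 4), (0x10548796, 4), (0x214396a7, 4), (0x205396a8, 4), (0x10548796, 4)],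
    [(0x32415060748292a3, 8), (0x538296a0, 4), (0x31647082, 4), (0x518294a7, 4), (0x538296a0, 4), (0x31647082, 4)]⟩

def c_4709 : frmChk tA tA F_4709 = true := by decide +kernel

def r_4709_0 : chkL rootF engF2 tA tA sA_421 sA_421 4 F_4709 [(511, 0, 0)]
    0x42e = true := by
  decide +kernel

theorem f_4709 (h : TabsF) : FrameF repsF 421 F_4709.f :=
  frame_of rfl c_4709 (runs_of engOK r_4709_0) (by decide +kernel) h.1 h.1

def F_4710 : FrX :=
  ⟨0x482000044040440000c2040020009000182040020002020800404804041040030400000099200180080041002008108004080002084000101402002082,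
    0xa0, 1, 0x105061738797a0, 7,
    [(0xa0, 1), (0x538690a2, 4), (0x548790a1, 4), (0x21437690, 4), (0x538690a2, 4), (0x548790a1, 4)],
    [(0x105061738797a0, 7), (0x307185a2, 4), (0x418593a6, 4), (0x62748590, 4), (0x307185a2, 4), (0x418593a6, 4)]⟩

def c_4710 : frmChk tA tA F_4710 = true := by decide +kernel

def r_4710_0 : chkL rootF engF2 tA tA sA_421 sA_421 4 F_4710 [(511, 0, 0)]
    0x13c00f254d47040f25893 = true := by
  decide +kernel

theorem f_4710 (h : TabsF) : FrameF repsF 421 F_4710.f :=
  frame_of rfl c_4710 (runs_of engOK r_4710_0) (by decide +kernel) h.1 h.1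

def F_4711 : FrX :=
  ⟨0x2002000900044004000e020410001410008000408080004080a000011000a210020a0000089820088008010101000014001480020088400000a020009010,
    0xa3, 1, 0x21314061768695a0, 8,
    [(0xa3, 1), (0x208693a5, 4), (0x10548793, 4), (0x217693a4, 4), (0x208693a5, 4), (0x10548793, 4)],
    [(0x21314061768695a0, 8), (0x548792a1, 4), (0x547390a6, 4), (0x20546183, 4), (0x548792a1, 4), (0x547390a6, 4)]⟩

def c_4711 : frmChk tA tA F_4711 = true := by decide +kernel

def r_4711_0 : chkL rootF engF2 tA tA sA_421 sA_421 4 F_4711 [(511, 0, 0)]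
    0x109c33 = true := by
  decide +kernel

theorem f_4711 (h : TabsF) : FrameF repsF 421 F_4711.f :=
  frame_of rfl c_4711 (runs_of engOK r_4711_0) (by decide +kernel) h.1 h.1

def F_4712 : FrX :=
  ⟨0x482000044040440000c2040020009000182040020000828004a00010021008004400100024040284c00800081020010000820108008402000904044004,
    0xa0, 1, 0x10325360738090a3, 8,
    [(0xa0, 1), (0x538690a2, 4), (0x548790a1, 4), (0x21437690, 4), (0x538690a2, 4), (0x548790a1, 4)],
    [(0x10325360738090a3, 8), (0x618793a2, 4), (0x42658790, 4), (0x305187a4, 4), (0x618793a2, 4), (0x42658790, 4)]⟩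

def c_4712 : frmChk tA tA F_4712 = true := by decide +kernel

def r_4712_0 : chkL rootF engF2 tA tA sA_421 sA_421 4 F_4712 [(511, 0, 0)]
    0x459 = true := by
  decide +kernel

theorem f_4712 (h : TabsF) : FrameF repsF 421 F_4712.f :=
  frame_of rfl c_4712 (runs_of engOK r_4712_0) (by decide +kernel) h.1 h.1

def F_4713 : FrX :=
  ⟨0x1c210200000404400000204100010100008204088820000800808000400024202060100089820008008014101010810001400022208400110840000a000,
    0x0, 0, 0x107583, 3,
    [(0x0, 0), (0x205386a9, 4), (0x105487a9, 4), (0x214376a9, 4), (0x205386a9, 4), (0x105487a9, 4)],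
    [(0x107583, 3), (0x216387a9, 4), (0x105374a9, 4), (0x206584a9, 4), (0x216387a9, 4), (0x105374a9, 4)]⟩

def c_4713 : frmChk tA tA F_4713 = true := by decide +kernel

def r_4713_0 : chkL rootF engF2 tA tA sA_421 sA_421 4 F_4713 [(511, 0, 0)]
    0x654 = true := by
  decide +kernel

theorem f_4713 (h : TabsF) : FrameF repsF 421 F_4713.f :=
  frame_of rfl c_4713 (runs_of engOK r_4713_0) (by decide +kernel) h.1 h.1

def F_4714 : FrX :=
  ⟨0x482000044040440000c204002000900018204000201204000840200800840003200041002001040080004088800800020400604008410a060402000401,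
    0xa0, 1, 0x205062748797a0, 7,
    [(0xa0, 1), (0x538690a2, 4), (0x548790a1, 4), (0x21437690, 4), (0x538690a2, 4), (0x548790a1, 4)],
    [(0x205062748797a0, 7), (0x324085a6, 4), (0x728594a1, 4), (0x61738590, 4), (0x324085a6, 4), (0x728594a1, 4)]⟩

def c_4714 : frmChk tA tA F_4714 = true := by decide +kernel

def r_4714_0 : chkL rootF engF2 tA tA sA_421 sA_421 4 F_4714 [(511, 0, 0)]
    0x42d0aca51b035 = true := by
  decide +kernel

theorem f_4714 (h : TabsF) : FrameF repsF 421 F_4714.f :=
  frame_of rfl c_4714 (runs_of engOK r_4714_0) (by decide +kernel) h.1 h.1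

def F_4715 : FrX :=
  ⟨0x80080a000804040e00002101002001000002040882200004048024000010408010404101400008020800800880202082180800130008440000824084000,
    0xa6, 1, 0x314154617195a2, 7,
    [(0xa6, 1), (0x205396a8, 4), (0x10548796, 4), (0x214396a7, 4), (0x205396a8, 4), (0x10548796, 4)],
    [(0x314154617195a2, 7), (0x418596a0, 4), (0x32647095, 4), (0x32548196, 4), (0x32647095, 4), (0x546198a7, 4), (0x325184a0, 4), (0x32548196, 4), (0x325184a0, 4), (0x65708194, 4), (0x32548196, 4), (0x546198a7, 4)]⟩

def c_4715 : frmChk tA tB F_4715 = true := by decide +kernel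

def r_4715_0 : chkL rootF engF2 tA tB sA_421 sB_421 4 F_4715 [(511, 0, 0)]
    0x1 = true := by
  decide +kernel

theorem f_4715 (h : TabsF) : FrameF repsF 421 F_4715.f :=
  frame_of rfl c_4715 (runs_of engOK r_4715_0) (by decide +kernel) h.1 h.2

def F_4716 : FrX :=
  ⟨0x2002000900044004000e02041000141000800040802000224000a080120014000400220100800048008802020200020400202100058080104010c0008050,
    0xa3, 1, 0x213152738091a0, 7,
    [(0xa3, 1), (0x208693a5, 4), (0x10548793, 4), (0x217693a4, 4), (0x208693a5, 4), (0x10548793, 4)],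
    [(0x213152738091a0, 7), (0x607183a5, 4), (0x204183a9, 4), (0x62748395, 4), (0x607183a5, 4), (0x204183a9, 4)]⟩

def c_4716 : frmChk tA tA F_4716 = true := by decide +kernel

def r_4716_0 : chkL rootF engF2 tA tA sA_421 sA_421 4 F_4716 [(511, 0, 0)]
    0x1 = true := by
  decide +kernel

theorem f_4716 (h : TabsF) : FrameF repsF 421 F_4716.f :=
  frame_of rfl c_4716 (runs_of engOK r_4716_0) (by decide +kernel) h.1 h.1

def F_4717 : FrX :=
  ⟨0x80080a000804040e000021010020010000020408812000022010228000420040404000501000040008900001280100010800d0006001090480002600080,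
    0xa6, 1, 0x4350728393a1, 6,
    [(0xa6, 1), (0x205396a8, 4), (0x10548796, 4), (0x214396a7, 4), (0x205396a8, 4), (0x10548796, 4)],
    [(0x4350728393a1, 6), (0x64758190, 4), (0x304281a5, 4), (0x628193a7, 4), (0x64758190, 4), (0x304281a5, 4)]⟩

def c_4717 : frmChk tA tA F_4717 = true := by decide +kernel

def r_4717_0 : chkL rootF engF2 tA tA sA_421 sA_421 4 F_4717 [(511, 0, 0)]
    0x1c914651952 = true := by
  decide +kernel

theorem f_4717 (h : TabsF) : FrameF repsF 421 F_4717.f :=
  frame_of rfl c_4717 (runs_of engOK r_4717_0) (by decide +kernel) h.1 h.1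

def F_4718 : FrX :=
  ⟨0x1c2102000004044000002041000101000082040884200080001400008000c0003101400091000c012000208022204240001001011200801000843000200,
    0x0, 0, 0x206384, 3,
    [(0x0, 0), (0x205386a9, 4), (0x105487a9, 4), (0x214376a9, 4), (0x205386a9, 4), (0x105487a9, 4)],
    [(0x206384, 3), (0x204365a9, 4), (0x217485a9, 4), (0x107386a9, 4), (0x204365a9, 4), (0x217485a9, 4)]⟩

def c_4718 : frmChk tA tA F_4718 = true := by decide +kernel

def r_4718_0 : chkL rootF engF2 tA tA sA_421 sA_421 4 F_4718 [(511, 0, 0)]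
    0x1 = true := by
  decide +kernel

theorem f_4718 (h : TabsF) : FrameF repsF 421 F_4718.f :=
  frame_of rfl c_4718 (runs_of engOK r_4718_0) (by decide +kernel) h.1 h.1

def F_4719 : FrX :=
  ⟨0x482000044040440000c2040020009000182040020000882000100110024021200800100022081008080041002004420300000240040408004841008042,
    0xa0, 1, 0x20324250618792a6, 8,
    [(0xa0, 1), (0x538690a2, 4), (0x548790a1, 4), (0x21437690, 4), (0x538690a2, 4), (0x548790a1, 4)],
    [(0x20324250618792a6, 8), (0x204195a7, 4), (0x32416587, 4), (0x304196a8, 4), (0x204195a7, 4), (0x32416587, 4)]⟩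

def c_4719 : frmChk tA tA F_4719 = true := by decide +kernel

def r_4719_0 : chkL rootF engF2 tA tA sA_421 sA_421 4 F_4719 [(511, 0, 0)]
    0x1 = true := by
  decide +kernel

theorem f_4719 (h : TabsF) : FrameF repsF 421 F_4719.f :=
  frame_of rfl c_4719 (runs_of engOK r_4719_0) (by decide +kernel) h.1 h.1

def F_4720 : FrX :=
  ⟨0x80080a000804040e00002101002001000002040882200002082400100080200030218000a1000c012008000022202240000081011003001000a02800200,
    0xa6, 1, 0x314150657394a2, 7,
    [(0xa6, 1), (0x205396a8, 4), (0x10548796, 4), (0x214396a7, 4), (0x205396a8, 4), (0x10548796, 4)],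
    [(0x314150657394a2, 7), (0x327680a5, 4), (0x32548196, 4), (0x103297a4, 4), (0x327680a5, 4), (0x32548196, 4)]⟩

def c_4720 : frmChk tA tA F_4720 = true := by decide +kernel

def r_4720_0 : chkL rootF engF2 tA tA sA_421 sA_421 4 F_4720 [(511, 0, 0)]
    0x1 = true := by
  decide +kernel

theorem f_4720 (h : TabsF) : FrameF repsF 421 F_4720.f :=
  frame_of rfl c_4720 (runs_of engOK r_4720_0) (by decide +kernel) h.1 h.1

def F_4721 : FrX :=
  ⟨0x2002000900044004000e0204100014100080004081000008110800200820840442000400081080c812000208020004202081000011200000040802044240,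
    0xa3, 1, 0x204251657395a0, 7,
    [(0xa3, 1), (0x208693a5, 4), (0x10548793, 4), (0x217693a4, 4), (0x208693a5, 4), (0x10548793, 4)],
    [(0x204251657395a0, 7), (0x718093a4, 4), (0x316290a5, 4), (0x10628793, 4), (0x316290a5, 4), (0x10547398, 4), (0x627081a4, 4), (0x10628793, 4), (0x627081a4, 4), (0x308791a5, 4), (0x10628793, 4), (0x10547398, 4)]⟩

def c_4721 : frmChk tA tB F_4721 = true := by decide +kernel

def r_4721_0 : chkL rootF engF2 tA tB sA_421 sB_421 4 F_4721 [(511, 0, 0)]
    0x42d = true := by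
  decide +kernel

theorem f_4721 (h : TabsF) : FrameF repsF 421 F_4721.f :=
  frame_of rfl c_4721 (runs_of engOK r_4721_0) (by decide +kernel) h.1 h.2

def F_4722 : FrX :=
  ⟨0x80080a000804040e0000210100200100000204089002000141000042020400d00080006040c00408002080001110000c9200800400084024000000c5000,
    0xa6, 1, 0x314363738397a5, 7,
    [(0xa6, 1), (0x205396a8, 4), (0x10548796, 4), (0x214396a7, 4), (0x205396a8, 4), (0x10548796, 4)],
    [(0x314363738397a5, 7), (0x206574a8, 4), (0x306597a1, 4), (0x32658194, 4), (0x206574a8, 4), (0x306597a1, 4)]⟩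

def c_4722 : frmChk tA tA F_4722 = true := by decide +kernel

def r_4722_0 : chkL rootF engF2 tA tA sA_421 sA_421 4 F_4722 [(511, 0, 0)]
    0x116760549640af60075231342b = true := by
  decide +kernel

theorem f_4722 (h : TabsF) : FrameF repsF 421 F_4722.f :=
  frame_of rfl c_4722 (runs_of engOK r_4722_0) (by decide +kernel) h.1 h.1

def F_4723 : FrX :=
  ⟨0x482000044040440000c204002000900018204000108082080084080004009002002040102800012000086040100880004200010a04800004301000e000,
    0xa0, 1, 0x213043526281a8, 7,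
    [(0xa0, 1), (0x538690a2, 4), (0x548790a1, 4), (0x21437690, 4), (0x538690a2, 4), (0x548790a1, 4)],
    [(0x213043526281a8, 7), (0x416392a5, 4), (0x108392a7, 4), (0x40758692, 4), (0x416392a5, 4), (0x108392a7, 4)]⟩

def c_4723 : frmChk tA tA F_4723 = true := by decide +kernel

def r_4723_0 : chkL rootF engF2 tA tA sA_421 sA_421 4 F_4723 [(511, 0, 0)]
    0x10e44e = true := by
  decide +kernel

theorem f_4723 (h : TabsF) : FrameF repsF 421 F_4723.f :=
  frame_of rfl c_4723 (runs_of engOK r_4723_0) (by decide +kernel) h.1 h.1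

def F_4724 : FrX :=
  ⟨0x80080a000804040e00002101002001000002040880600008108088000008242021000420004041080888000011100101103000080418084000004043000,
    0xa6, 1, 0x204351758795a2, 7,
    [(0xa6, 1), (0x205396a8, 4), (0x10548796, 4), (0x214396a7, 4), (0x205396a8, 4), (0x10548796, 4)],
    [(0x204351758795a2, 7), (0x617094a2, 4), (0x52708193, 4), (0x437086a5, 4), (0x617094a2, 4), (0x52708193, 4)]⟩

def c_4724 : frmChk tA tA F_4724 = true := by decide +kernel

def r_4724_0 : chkL rootF engF2 tA tA sA_421 sA_421 4 F_4724 [(511, 0, 0)]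
    0x41d = true := by
  decide +kernel

theorem f_4724 (h : TabsF) : FrameF repsF 421 F_4724.f :=
  frame_of rfl c_4724 (runs_of engOK r_4724_0) (by decide +kernel) h.1 h.1

def F_4725 : FrX :=
  ⟨0x2002000900044004000e0204100014100080004080800040808202020101010800140020410c004480020100011020008804021001000800500150008004,
    0xa3, 1, 0x3141546594a1, 6,
    [(0xa3, 1), (0x208693a5, 4), (0x10548793, 4), (0x217693a4, 4), (0x208693a5, 4), (0x10548793, 4)],
    [(0x3141546594a1, 6), (0x20546183, 4), (0x548796a0, 4), (0x547391a2, 4), (0x20546183, 4), (0x548796a0, 4)]⟩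

def c_4725 : frmChk tA tA F_4725 = true := by decide +kernel

def r_4725_0 : chkL rootF engF2 tA tA sA_421 sA_421 4 F_4725 [(511, 0, 0)]
    0x44e0cd4303c87 = true := by
  decide +kernel

theorem f_4725 (h : TabsF) : FrameF repsF 421 F_4725.f :=
  frame_of rfl c_4725 (runs_of engOK r_4725_0) (by decide +kernel) h.1 h.1

def F_4726 : FrX :=
  ⟨0x2002000900044004000e02041000141000800040800802080080c00400224000020c00204024000884880010011010100000820060420100101220080080,
    0xa3, 1, 0x426596a2, 4,
    [(0xa3, 1), (0x208693a5, 4), (0x10548793, 4), (0x217693a4, 4), (0x208693a5, 4), (0x10548793, 4)],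
    [(0x426596a2, 4), (0x768293a0, 4), (0x10546297, 4), (0x54768392, 4), (0x10546297, 4), (0x738692a1, 4), (0x325498a0, 4), (0x54768392, 4), (0x325498a0, 4), (0x10728396, 4), (0x54768392, 4), (0x738692a1, 4)]⟩

def c_4726 : frmChk tA tB F_4726 = true := by decide +kernel

def r_4726_0 : chkL rootF engF2 tA tB sA_421 sB_421 4 F_4726 [(511, 0, 0)]
    0x41b = true := by
  decide +kernel

theorem f_4726 (h : TabsF) : FrameF repsF 421 F_4726.f :=
  frame_of rfl c_4726 (runs_of engOK r_4726_0) (by decide +kernel) h.1 h.2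

def F_4727 : FrX :=
  ⟨0x2002000900044004000e0204100014100080004080080208008802400020840204000300088800200408830101000810010000008700800840105000a000,
    0xa3, 1, 0x20314250637293a6, 8,
    [(0xa3, 1), (0x208693a5, 4), (0x10548793, 4), (0x217693a4, 4), (0x208693a5, 4), (0x10548793, 4)],
    [(0x20314250637293a6, 8), (0x617592a8, 4), (0x20536184, 4), (0x617390a4, 4), (0x617592a8, 4), (0x20536184, 4)]⟩

def c_4727 : frmChk tA tA F_4727 = true := by decide +kernel

def r_4727_0 : chkL rootF engF2 tA tA sA_421 sA_421 4 F_4727 [(511, 0, 0)]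
    0x190f42e23884a9d00adc468561780b834919625d0 = true := by
  decide +kernel

theorem f_4727 (h : TabsF) : FrameF repsF 421 F_4727.f :=
  frame_of rfl c_4727 (runs_of engOK r_4727_0) (by decide +kernel) h.1 h.1

def F_4728 : FrX :=
  ⟨0x80080a000804040e000021010020010000020408a000100208002480200220001049000040005601a010000202002408004008001011420000824080010,
    0xa6, 1, 0x21304163748395a6, 8,
    [(0xa6, 1), (0x205396a8, 4), (0x10548796, 4), (0x214396a7, 4), (0x205396a8, 4), (0x10548796, 4)],
    [(0x21304163748395a6, 8), (0x315098a6, 4), (0x43506297, 4), (0x415087a2, 4), (0x315098a6, 4), (0x43506297, 4)]⟩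

def c_4728 : frmChk tA tA F_4728 = true := by decide +kernel

def r_4728_0 : chkL rootF engF2 tA tA sA_421 sA_421 4 F_4728 [(511, 0, 0)]
    0x54c = true := by
  decide +kernel

theorem f_4728 (h : TabsF) : FrameF repsF 421 F_4728.f :=
  frame_of rfl c_4728 (runs_of engOK r_4728_0) (by decide +kernel) h.1 h.1

def F_4729 : FrX :=
  ⟨0x482000044040440000c20400200090001820400200008280001001100801612002000002081c0220800020401001140040010204108000004100808048,
    0xa0, 1, 0x103164748498a3, 7,
    [(0xa0, 1), (0x538690a2, 4), (0x548790a1, 4), (0x21437690, 4), (0x538690a2, 4), (0x548790a1, 4)],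
    [(0x103164748498a3, 7), (0x217094a5, 4), (0x31708596, 4), (0x326470a8, 4), (0x217094a5, 4), (0x31708596, 4)]⟩

def c_4729 : frmChk tA tA F_4729 = true := by decide +kernel

def r_4729_0 : chkL rootF engF2 tA tA sA_421 sA_421 4 F_4729 [(511, 0, 0)]
    0x1 = true := by
  decide +kernel

theorem f_4729 (h : TabsF) : FrameF repsF 421 F_4729.f :=
  frame_of rfl c_4729 (runs_of engOK r_4729_0) (by decide +kernel) h.1 h.1

def F_4730 : FrX :=
  ⟨0x80080a000804040e000021010020010000020408810110010200100200420020140240044000048a8000800101100108002082082003800040a10000200,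
    0xa6, 1, 0x102140508394a6, 7,
    [(0xa6, 1), (0x205396a8, 4), (0x10548796, 4), (0x214396a7, 4), (0x205396a8, 4), (0x10548796, 4)],
    [(0x102140508394a6, 7), (0x507493a8, 4), (0x526194a7, 4), (0x617483a9, 4), (0x526194a7, 4), (0x204387a9, 4), (0x506198a3, 4), (0x617483a9, 4), (0x506198a3, 4), (0x528397a4, 4), (0x617483a9, 4), (0x204387a9, 4)]⟩

def c_4730 : frmChk tA tB F_4730 = true := by decide +kernel

def r_4730_0 : chkL rootF engF2 tA tB sA_421 sB_421 4 F_4730 [(511, 0, 0)]
    0x45c = true := by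
  decide +kernel

theorem f_4730 (h : TabsF) : FrameF repsF 421 F_4730.f :=
  frame_of rfl c_4730 (runs_of engOK r_4730_0) (by decide +kernel) h.1 h.2

def F_4731 : FrX :=
  ⟨0x482000044040440000c2040020009000182040002022020008020010040024040404100882000280009000043220002008012204008400910100008040,
    0xa0, 1, 0x10425361738695a0, 8,
    [(0xa0, 1), (0x538690a2, 4), (0x548790a1, 4), (0x21437690, 4), (0x538690a2, 4), (0x548790a1, 4)],
    [(0x10425361738695a0, 8), (0x318097a4, 4), (0x315092a6, 4), (0x31647285, 4), (0x318097a4, 4), (0x315092a6, 4)]⟩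

def c_4731 : frmChk tA tA F_4731 = true := by decide +kernel

def r_4731_0 : chkL rootF engF2 tA tA sA_421 sA_421 4 F_4731 [(511, 0, 0)]
    0x40f03cc503c711640f03c59 = true := by
  decide +kernel

theorem f_4731 (h : TabsF) : FrameF repsF 421 F_4731.f :=
  frame_of rfl c_4731 (runs_of engOK r_4731_0) (by decide +kernel) h.1 h.1

def F_4732 : FrX :=
  ⟨0x2002000900044004000e02041000141000800040801000418008022000220108200000a0090200104008000900042000200400a020401040210088010190,
    0xa3, 1, 0x405465728491a5, 7,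
    [(0xa3, 1), (0x208693a5, 4), (0x10548793, 4), (0x217693a4, 4), (0x208693a5, 4), (0x10548793, 4)],
    [(0x405465728491a5, 7), (0x506174a3, 4), (0x526194a8, 4), (0x20618397, 4), (0x506174a3, 4), (0x526194a8, 4)]⟩

def c_4732 : frmChk tA tA F_4732 = true := by decide +kernel

def r_4732_0 : chkL rootF engF2 tA tA sA_421 sA_421 4 F_4732 [(511, 0, 0)]
    0x42705c170cc39 = true := by
  decide +kernel

theorem f_4732 (h : TabsF) : FrameF repsF 421 F_4732.f :=
  frame_of rfl c_4732 (runs_of engOK r_4732_0) (by decide +kernel) h.1 h.1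

def F_4733 : FrX :=
  ⟨0x80080a000804040e0000210100200100000204089008000049000042040020800444400080208200008080108040204004100900060040421000c240008,
    0xa6, 1, 0x103140537291a4, 7,
    [(0xa6, 1), (0x205396a8, 4), (0x10548796, 4), (0x214396a7, 4), (0x205396a8, 4), (0x10548796, 4)],
    [(0x103140537291a4, 7), (0x206574a8, 4), (0x316294a0, 4), (0x203185a6, 4), (0x316294a0, 4), (0x528097a6, 4), (0x317486a5, 4), (0x203185a6, 4), (0x317486a5, 4), (0x608594a2, 4), (0x203185a6, 4), (0x528097a6, 4)]⟩

def c_4733 : frmChk tA tB F_4733 = true := by decide +kernel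

def r_4733_0 : chkL rootF engF2 tA tB sA_421 sB_421 4 F_4733 [(511, 0, 0)]
    0x43c = true := by
  decide +kernel

theorem f_4733 (h : TabsF) : FrameF repsF 421 F_4733.f :=
  frame_of rfl c_4733 (runs_of engOK r_4733_0) (by decide +kernel) h.1 h.2

def F_4734 : FrX :=
  ⟨0x482000044040440000c2040020009000182040010010048008000084040050030c00004001010186000280102010108080090040080800005003000082,
    0xa0, 1, 0x215161748497a6, 7,
    [(0xa0, 1), (0x538690a2, 4), (0x548790a1, 4), (0x21437690, 4), (0x538690a2, 4), (0x548790a1, 4)],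
    [(0x215161748497a6, 7), (0x103254a7, 4), (0x54608297, 4), (0x546183a9, 4), (0x103254a7, 4), (0x54608297, 4)]⟩

def c_4734 : frmChk tA tA F_4734 = true := by decide +kernel

def r_4734_0 : chkL rootF engF2 tA tA sA_421 sA_421 4 F_4734 [(511, 0, 0)]
    0x1 = true := by
  decide +kernel

theorem f_4734 (h : TabsF) : FrameF repsF 421 F_4734.f :=
  frame_of rfl c_4734 (runs_of engOK r_4734_0) (by decide +kernel) h.1 h.1

def F_4735 : FrX :=
  ⟨0x2002000900044004000e020410001410008000408080010011010204010201020002240042120084090000070000200080c0000026000810100880220040,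
    0xa3, 1, 0x314253728498a3, 7,
    [(0xa3, 1), (0x208693a5, 4), (0x10548793, 4), (0x217693a4, 4), (0x208693a5, 4), (0x10548793, 4)],
    [(0x314253728498a3, 7), (0x417098a6, 4), (0x30526481, 4), (0x415286a9, 4), (0x30526481, 4), (0x738691a4, 4), (0x527096a8, 4), (0x415286a9, 4), (0x527096a8, 4), (0x306184a9, 4), (0x415286a9, 4), (0x738691a4, 4)]⟩

def c_4735 : frmChk tA tB F_4735 = true := by decide +kernel

def r_4735_0 : chkL rootF engF2 tA tB sA_421 sB_421 4 F_4735 [(511, 0, 0)]
    0x433 = true := by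
  decide +kernel

theorem f_4735 (h : TabsF) : FrameF repsF 421 F_4735.f :=
  frame_of rfl c_4735 (runs_of engOK r_4735_0) (by decide +kernel) h.1 h.2

def F_4736 : FrX :=
  ⟨0x1c21020000040440000020410001010000820408a0001100000022400200c04000084054080301000180004128008040300002003020122000020600200,
    0x0, 0, 0x436575, 3,
    [(0x0, 0), (0x205386a9, 4), (0x105487a9, 4), (0x214376a9, 4), (0x205386a9, 4), (0x105487a9, 4)],
    [(0x436575, 3), (0x20547683, 4), (0x106573a9, 4), (0x537684a9, 4), (0x106573a9, 4), (0x21536487, 4), (0x204385a9, 4), (0x537684a9, 4), (0x204385a9, 4), (0x10637584, 4), (0x537684a9, 4), (0x21536487, 4)]⟩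

def c_4736 : frmChk tA tB F_4736 = true := by decide +kernel

def r_4736_0 : chkL rootF engF2 tA tB sA_421 sB_421 4 F_4736 [(511, 0, 0)]
    0x1 = true := by
  decide +kernel

theorem f_4736 (h : TabsF) : FrameF repsF 421 F_4736.f :=
  frame_of rfl c_4736 (runs_of engOK r_4736_0) (by decide +kernel) h.1 h.2

theorem cl_421 (h : TabsF) : ∀ f ∈ fr_421, FrameF repsF 421 f :=
  List.forall_mem_cons.2 ⟨f_4709 h, List.forall_mem_cons.2 ⟨f_4710 h, List.forall_mem_cons.2 ⟨f_4711 h, List.forall_mem_cons.2 ⟨f_4712 h, List.forall_mem_cons.2 ⟨f_4713 h, List.forall_mem_cons.2 ⟨f_4714 h, List.forall_mem_cons.2 ⟨f_4715 h, List.forall_mem_cons.2 ⟨f_4716 h, List.forall_mem_cons.2 ⟨f_4717 h, List.forall_mem_cons.2 ⟨f_4718 h, List.forall_mem_cons.2 ⟨f_4719 h, List.forall_mem_cons.2 ⟨f_4720 h, List.forall_mem_cons.2 ⟨f_4721 h, List.forall_mem_cons.2 ⟨f_4722 h, List.forall_mem_cons.2 ⟨f_4723 h, List.forall_mem_cons.2 ⟨f_4724 h, List.forall_mem_cons.2 ⟨f_4725 h, List.forall_mem_cons.2 ⟨f_4726 h, List.forall_mem_cons.2 ⟨f_4727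 h, List.forall_mem_cons.2 ⟨f_4728 h, List.forall_mem_cons.2 ⟨f_4729 h, List.forall_mem_cons.2 ⟨f_4730 h, List.forall_mem_cons.2 ⟨f_4731 h, List.forall_mem_cons.2 ⟨f_4732 h, List.forall_mem_cons.2 ⟨f_4733 h, List.forall_mem_cons.2 ⟨f_4734 h, List.forall_mem_cons.2 ⟨f_4735 h, List.forall_mem_cons.2 ⟨f_4736 h,
    fun _ h0 => absurd h0 List.not_mem_nil⟩⟩⟩⟩⟩⟩⟩⟩⟩⟩⟩⟩⟩⟩⟩⟩⟩⟩⟩⟩⟩⟩⟩⟩⟩⟩⟩⟩

def F_4737 : FrX :=
  ⟨0x482000044040440000c2040020009000182040001042020000900200080084004222020008004020a00030818000140100094002108080002002800042,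
    0xa0, 1, 0x213261758597a6, 7,
    [(0xa0, 1), (0x538690a2, 4), (0x548790a1, 4), (0x21437690, 4), (0x538690a2, 4), (0x548790a1, 4)],
    [(0x213261758597a6, 7), (0x305281a7, 4), (0x52608497, 4), (0x415263a9, 4), (0x305281a7, 4), (0x52608497, 4)]⟩

def c_4737 : frmChk tA tA F_4737 = true := by decide +kernel

def r_4737_0 : chkL rootF engF2 tA tA sA_422 sA_422 4 F_4737 [(511, 0, 0)]
    0x456 = true := by
  decide +kernel

theorem f_4737 (h : TabsF) : FrameF repsF 422 F_4737.f :=
  frame_of rfl c_4737 (runs_of engOK r_4737_0) (by decide +kernel) h.1 h.1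

def F_4738 : FrX :=
  ⟨0x482000044040440000c2040020009000182040010100002808000084000182808600001001050400800805100081400048008008200800700010200005,
    0xa0, 1, 0x5065748192a3, 6,
    [(0xa0, 1), (0x538690a2, 4), (0x548790a1, 4), (0x21437690, 4), (0x538690a2, 4), (0x548790a1, 4)],
    [(0x5065748192a3, 6), (0x103295a6, 4), (0x32417685, 4), (0x324098a7, 4), (0x103295a6, 4), (0x32417685, 4)]⟩

def c_4738 : frmChk tA tA F_4738 = true := by decide +kernel

def r_4738_0 : chkL rootF engF2 tA tA sA_422 sA_422 4 F_4738 [(511, 0, 0)]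
    0x60b0ae5182e0b0ae490ac2b82c2b0ac47 = true := by
  decide +kernel

theorem f_4738 (h : TabsF) : FrameF repsF 422 F_4738.f :=
  frame_of rfl c_4738 (runs_of engOK r_4738_0) (by decide +kernel) h.1 h.1

def F_4739 : FrX :=
  ⟨0x80080a000804040e000021010020010000020408a0000208100090020242008000120400400541020020020880101140002002000400508004202440010,
    0xa6, 1, 0x213053617097a3, 7,
    [(0xa6, 1), (0x205396a8, 4), (0x10548796, 4), (0x214396a7, 4), (0x205396a8, 4), (0x10548796, 4)],
    [(0x213053617097a3, 7), (0x718490a2, 4), (0x40537692, 4), (0x425390a8, 4), (0x40537692, 4), (0x426180a9, 4), (0x537182a4, 4), (0x425390a8, 4), (0x537182a4, 4), (0x207694a8, 4), (0x425390a8, 4), (0x426180a9, 4)]⟩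

def c_4739 : frmChk tA tB F_4739 = true := by decide +kernel

def r_4739_0 : chkL rootF engF2 tA tB sA_422 sB_422 4 F_4739 [(511, 0, 0)]
    0x44b = true := by
  decide +kernel

theorem f_4739 (h : TabsF) : FrameF repsF 422 F_4739.f :=
  frame_of rfl c_4739 (runs_of engOK r_4739_0) (by decide +kernel) h.1 h.2

def F_4740 : FrX :=
  ⟨0x80080a000804040e000021010020010000020408804210010600048000802020080810014000801800001001230004080046080004102202020c0080010,
    0xa6, 1, 0x103142517181a3, 7,
    [(0xa6, 1), (0x205396a8, 4), (0x10548796, 4), (0x214396a7, 4), (0x205396a8, 4), (0x10548796, 4)],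
    [(0x103142517181a3, 7), (0x417690a3, 4), (0x32758190, 4), (0x658490a2, 4), (0x417690a3, 4), (0x32758190, 4)]⟩

def c_4740 : frmChk tA tA F_4740 = true := by decide +kernel

def r_4740_0 : chkL rootF engF2 tA tA sA_422 sA_422 4 F_4740 [(511, 0, 0)]
    0x455 = true := by
  decide +kernel

theorem f_4740 (h : TabsF) : FrameF repsF 422 F_4740.f :=
  frame_of rfl c_4740 (runs_of engOK r_4740_0) (by decide +kernel) h.1 h.1

def F_4741 : FrX :=
  ⟨0x2002000900044004000e02041000141000800040808001001110202008202101000204001020080424040201210008008040020010a00000204021408280,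
    0xa3, 1, 0x5263708492a4, 6,
    [(0xa3, 1), (0x208693a5, 4), (0x10548793, 4), (0x217693a4, 4), (0x208693a5, 4), (0x10548793, 4)],
    [(0x5263708492a4, 6), (0x43628597, 4), (0x407185a2, 4), (0x308591a6, 4), (0x43628597, 4), (0x407185a2, 4)]⟩

def c_4741 : frmChk tA tA F_4741 = true := by decide +kernel

def r_4741_0 : chkL rootF engF2 tA tA sA_422 sA_422 4 F_4741 [(511, 0, 0)]
    0x10e439 = true := by
  decide +kernel

theorem f_4741 (h : TabsF) : FrameF repsF 422 F_4741.f :=
  frame_of rfl c_4741 (runs_of engOK r_4741_0) (by decide +kernel) h.1 h.1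

def F_4742 : FrX :=
  ⟨0x80080a000804040e00002101002001000002040880421002020004800080202500080041088001020044001012200408100041011000600300044800200,
    0xa6, 1, 0x4153738796a1, 6,
    [(0xa6, 1), (0x205396a8, 4), (0x10548796, 4), (0x214396a7, 4), (0x205396a8, 4), (0x10548796, 4)],
    [(0x4153738796a1, 6), (0x20647395, 4), (0x316485a0, 4), (0x647198a2, 4), (0x20647395, 4), (0x316485a0, 4)]⟩

def c_4742 : frmChk tA tA F_4742 = true := by decide +kernel

def r_4742_0 : chkL rootF engF2 tA tA sA_422 sA_422 4 F_4742 [(511, 0, 0)]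
    0x41e = true := by
  decide +kernel

theorem f_4742 (h : TabsF) : FrameF repsF 422 F_4742.f :=
  frame_of rfl c_4742 (runs_of engOK r_4742_0) (by decide +kernel) h.1 h.1

def F_4743 : FrX :=
  ⟨0x2002000900044004000e02041000141000800040801001021010200060204041000201001028000480100104023008008040008080600020204020221004,
    0xa3, 1, 0x54728293a2, 5,
    [(0xa3, 1), (0x208693a5, 4), (0x10548793, 4), (0x217693a4, 4), (0x208693a5, 4), (0x10548793, 4)],
    [(0x54728293a2, 5), (0x427596a0, 4), (0x10546283, 4), (0x42658397, 4), (0x10546283, 4), (0x657492a1, 4), (0x768395a0, 4), (0x42658397, 4), (0x768395a0, 4), (0x10526497, 4), (0x42658397, 4), (0x657492a1, 4)]⟩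

def c_4743 : frmChk tA tB F_4743 = true := by decide +kernel

def r_4743_0 : chkL rootF engF2 tA tB sA_422 sB_422 4 F_4743 [(511, 0, 0)]
    0x40f = true := by
  decide +kernel

theorem f_4743 (h : TabsF) : FrameF repsF 422 F_4743.f :=
  frame_of rfl c_4743 (runs_of engOK r_4743_0) (by decide +kernel) h.1 h.2

def F_4744 : FrX :=
  ⟨0x1c2102000004044000002041000101000082040890080080002002100800021011004100810440410000804281802420042200080600000444020100200,
    0x0, 0, 0x43657386, 4,
    [(0x0, 0), (0x205386a9, 4), (0x105487a9, 4), (0x214376a9, 4), (0x205386a9, 4), (0x105487a9, 4)],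
    [(0x43657386, 4), (0x207685a9, 4), (0x105463a9, 4), (0x217384a9, 4), (0x207685a9, 4), (0x105463a9, 4)]⟩

def c_4744 : frmChk tA tA F_4744 = true := by decide +kernel

def r_4744_0 : chkL rootF engF2 tA tA sA_422 sA_422 4 F_4744 [(255, 0, 0), (256, 0, 2)]
    0x105d0e05c170f017 = true := by
  decide +kernel

def r_4744_1 : chkL rootF engF2 tA tA sA_422 sA_422 4 F_4744 [(256, 2, 0)]
    0x43c05c5605c0f = true := by
  decide +kernel

theorem f_4744 (h : TabsF) : FrameF repsF 422 F_4744.f :=
  frame_of rfl c_4744 ((runs_of engOK r_4744_0).append (runs_of engOK r_4744_1)) (by decide +kernel) h.1 h.1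

def F_4745 : FrX :=
  ⟨0x2002000900044004000e020410001410008000408008020d0010020400800882000004100910400414000004001802024042001020600000401010144200,
    0xa3, 1, 0x3143657596a6, 6,
    [(0xa3, 1), (0x208693a5, 4), (0x10548793, 4), (0x217693a4, 4), (0x208693a5, 4), (0x10548793, 4)],
    [(0x3143657596a6, 6), (0x207681a4, 4), (0x307195a6, 4), (0x768495a1, 4), (0x307195a6, 4), (0x326487a1, 4), (0x204195a8, 4), (0x768495a1, 4), (0x204195a8, 4), (0x306184a7, 4), (0x768495a1, 4), (0x326487a1, 4)]⟩

def c_4745 : frmChk tA tB F_4745 = true := by decide +kernel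

def r_4745_0 : chkL rootF engF2 tA tB sA_422 sB_422 4 F_4745 [(511, 0, 0)]
    0x1 = true := by
  decide +kernel

theorem f_4745 (h : TabsF) : FrameF repsF 422 F_4745.f :=
  frame_of rfl c_4745 (runs_of engOK r_4745_0) (by decide +kernel) h.1 h.2

def F_4746 : FrX :=
  ⟨0x482000044040440000c20400200090001820400021008020080200100002428006000808440010000800205080041041004008489000a0040004200201,
    0xa0, 1, 0x3142657293a1, 6,
    [(0xa0, 1), (0x538690a2, 4), (0x548790a1, 4), (0x21437690, 4), (0x538690a2, 4), (0x548790a1, 4)],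
    [(0x3142657293a1, 6), (0x31708596, 4), (0x316284a0, 4), (0x315492a7, 4), (0x31708596, 4), (0x316284a0, 4)]⟩

def c_4746 : frmChk tA tA F_4746 = true := by decide +kernel

def r_4746_0 : chkL rootF engF2 tA tA sA_422 sA_422 4 F_4746 [(511, 0, 0)]
    0x1 = true := by
  decide +kernel

theorem f_4746 (h : TabsF) : FrameF repsF 422 F_4746.f :=
  frame_of rfl c_4746 (runs_of engOK r_4746_0) (by decide +kernel) h.1 h.1

def F_4747 : FrX :=
  ⟨0x2002000900044004000e0204100014100080004080100048100802200200024080028101010000410408040082000200104202000a0030202000a040800c,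
    0xa3, 1, 0x102150758390a8, 7,
    [(0xa3, 1), (0x208693a5, 4), (0x10548793, 4), (0x217693a4, 4), (0x208693a5, 4), (0x10548793, 4)],
    [(0x102150758390a8, 7), (0x538790a6, 4), (0x537492a1, 4), (0x20536184, 4), (0x538790a6, 4), (0x537492a1, 4)]⟩

def c_4747 : frmChk tA tA F_4747 = true := by decide +kernel

def r_4747_0 : chkL rootF engF2 tA tA sA_422 sA_422 4 F_4747 [(511, 0, 0)]
    0x1 = true := by
  decide +kernel

theorem f_4747 (h : TabsF) : FrameF repsF 422 F_4747.f :=
  frame_of rfl c_4747 (runs_of engOK r_4747_0) (by decide +kernel) h.1 h.1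

def F_4748 : FrX :=
  ⟨0x80080a000804040e00002101002001000002040890020008041004220880001010100800810441010008000281804420021000080400080444200820200,
    0xa6, 1, 0x103142647198a0, 7,
    [(0xa6, 1), (0x205396a8, 4), (0x10548796, 4), (0x214396a7, 4), (0x205396a8, 4), (0x10548796, 4)],
    [(0x103142647198a0, 7), (0x508192a4, 4), (0x658193a7, 4), (0x32607481, 4), (0x508192a4, 4), (0x658193a7, 4)]⟩

def c_4748 : frmChk tA tA F_4748 = true := by decide +kernel

def r_4748_0 : chkL rootF engF2 tA tA sA_422 sA_422 4 F_4748 [(511, 0, 0)]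
    0x1 = true := by
  decide +kernel

theorem f_4748 (h : TabsF) : FrameF repsF 422 F_4748.f :=
  frame_of rfl c_4748 (runs_of engOK r_4748_0) (by decide +kernel) h.1 h.1

def F_4749 : FrX :=
  ⟨0x482000044040440000c204002000900018204000088088002000018200018080482000210100011000020100220024030008101000880c40001800002c,
    0xa0, 1, 0x3250618297a1, 6,
    [(0xa0, 1), (0x538690a2, 4), (0x548790a1, 4), (0x21437690, 4), (0x538690a2, 4), (0x548790a1, 4)],
    [(0x3250618297a1, 6), (0x21438590, 4), (0x407691a5, 4), (0x32417690, 4), (0x407691a5, 4), (0x304192a8, 4), (0x31427685, 4), (0x32417690, 4), (0x31427685, 4), (0x103294a5, 4), (0x32417690, 4), (0x304192a8, 4)]⟩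

def c_4749 : frmChk tA tB F_4749 = true := by decide +kernel

def r_4749_0 : chkL rootF engF2 tA tB sA_422 sB_422 4 F_4749 [(511, 0, 0)]
    0x1 = true := by
  decide +kernel

theorem f_4749 (h : TabsF) : FrameF repsF 422 F_4749.f :=
  frame_of rfl c_4749 (runs_of engOK r_4749_0) (by decide +kernel) h.1 h.2

def F_4750 : FrX :=
  ⟨0x2002000900044004000e02041000141000800040810000028088004060208408100001000808010821000404400008100100080084084820040802052080,
    0xa3, 1, 0x20306598a0, 5,
    [(0xa3, 1), (0x208693a5, 4), (0x10548793, 4), (0x217693a4, 4), (0x208693a5, 4), (0x10548793, 4)],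
    [(0x20306598a0, 5), (0x527694a0, 4), (0x647583a1, 4), (0x54768392, 4), (0x647583a1, 4), (0x10547296, 4), (0x428395a0, 4), (0x54768392, 4), (0x428395a0, 4), (0x657492a1, 4), (0x54768392, 4), (0x10547296, 4)]⟩

def c_4750 : frmChk tA tB F_4750 = true := by decide +kernel

def r_4750_0 : chkL rootF engF2 tA tB sA_422 sB_422 4 F_4750 [(511, 0, 0)]
    0x1 = true := by
  decide +kernel

theorem f_4750 (h : TabsF) : FrameF repsF 422 F_4750.f :=
  frame_of rfl c_4750 (runs_of engOK r_4750_0) (by decide +kernel) h.1 h.2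

def F_4751 : FrX :=
  ⟨0x482000044040440000c20400200090001820400200005008000802200408828040200001010101210004001020011401000020088848a0002010008210,
    0xa0, 1, 0x103052608690a3, 7,
    [(0xa0, 1), (0x538690a2, 4), (0x548790a1, 4), (0x21437690, 4), (0x538690a2, 4), (0x548790a1, 4)],
    [(0x103052608690a3, 7), (0x618395a2, 4), (0x42617390, 4), (0x506187a4, 4), (0x618395a2, 4), (0x42617390, 4)]⟩

def c_4751 : frmChk tA tA F_4751 = true := by decide +kernel

def r_4751_0 : chkL rootF engF2 tA tA sA_422 sA_422 4 F_4751 [(511, 0, 0)]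
    0x44b06d0703c8b = true := by
  decide +kernel

theorem f_4751 (h : TabsF) : FrameF repsF 422 F_4751.f :=
  frame_of rfl c_4751 (runs_of engOK r_4751_0) (by decide +kernel) h.1 h.1

def F_4752 : FrX :=
  ⟨0x80080a000804040e0000210100200100000204088108100006001002004008250002402000104001005000020300108a0420010804101a0002010040200,
    0xa6, 1, 0x2142537496a2, 6,
    [(0xa6, 1), (0x205396a8, 4), (0x10548796, 4), (0x214396a7, 4), (0x205396a8, 4), (0x10548796, 4)],
    [(0x2142537496a2, 6), (0x536498a0, 4), (0x20647381, 4), (0x647591a2, 4), (0x536498a0, 4), (0x20647381, 4)]⟩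

def c_4752 : frmChk tA tA F_4752 = true := by decide +kernel

def r_4752_0 : chkL rootF engF2 tA tA sA_422 sA_422 4 F_4752 [(511, 0, 0)]
    0x143417 = true := by
  decide +kernel

theorem f_4752 (h : TabsF) : FrameF repsF 422 F_4752.f :=
  frame_of rfl c_4752 (runs_of engOK r_4752_0) (by decide +kernel) h.1 h.1

def F_4753 : FrX :=
  ⟨0x2002000900044004000e02041000141000800040800801041001022402004040200080204081001010040006001008089100002040400220003025400200,
    0xa3, 1, 0x10305264708191a3, 8,
    [(0xa3, 1), (0x208693a5, 4), (0x10548793, 4), (0x217693a4, 4), (0x208693a5, 4), (0x10548793, 4)],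
    [(0x10305264708191a3, 8), (0x407581a2, 4), (0x30628197, 4), (0x438195a6, 4), (0x407581a2, 4), (0x30628197, 4)]⟩

def c_4753 : frmChk tA tA F_4753 = true := by decide +kernel

def r_4753_0 : chkL rootF engF2 tA tA sA_422 sA_422 4 F_4753 [(511, 0, 0)]
    0x1 = true := by
  decide +kernel

theorem f_4753 (h : TabsF) : FrameF repsF 422 F_4753.f :=
  frame_of rfl c_4753 (runs_of engOK r_4753_0) (by decide +kernel) h.1 h.1

def F_4754 : FrX :=
  ⟨0x482000044040440000c2040020009000182040002022020001200008080101810200410020010200800081084001040040885010508000604100010008,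
    0xa0, 1, 0x324051758190a6, 7,
    [(0xa0, 1), (0x538690a2, 4), (0x548790a1, 4), (0x21437690, 4), (0x538690a2, 4), (0x548790a1, 4)],
    [(0x324051758190a6, 7), (0x507193a2, 4), (0x647098a1, 4), (0x526471a0, 4), (0x647098a1, 4), (0x217583a0, 4), (0x206493a5, 4), (0x526471a0, 4), (0x206493a5, 4), (0x105298a7, 4), (0x526471a0, 4), (0x217583a0, 4)]⟩

def c_4754 : frmChk tA tB F_4754 = true := by decide +kernel

def r_4754_0 : chkL rootF engF2 tA tB sA_422 sB_422 4 F_4754 [(511, 0, 0)]
    0x1 = true := by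
  decide +kernel

theorem f_4754 (h : TabsF) : FrameF repsF 422 F_4754.f :=
  frame_of rfl c_4754 (runs_of engOK r_4754_0) (by decide +kernel) h.1 h.2

def F_4755 : FrX :=
  ⟨0x600020801080810000c00401804101010010040010440020000244402800400800120010808a012000020050101008408000800050000010c408110080,
    0xa0, 1, 0x10314051657392a8, 8,
    [(0xa0, 1), (0x637584a2, 4), (0x547690a1, 4), (0x64758390, 4), (0x547690a1, 4), (0x21647385, 4), (0x438690a2, 4), (0x64758390, 4), (0x438690a2, 4), (0x657483a1, 4), (0x64758390, 4), (0x21647385, 4)],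
    [(0x10314051657392a8, 8), (0x768294a3, 4), (0x546182a0, 4), (0x30718295, 4), (0x768294a3, 4), (0x546182a0, 4)]⟩

def c_4755 : frmChk tB tA F_4755 = true := by decide +kernel

def r_4755_0 : chkL rootF engF2 tB tA sB_422 sA_422 4 F_4755 [(511, 0, 0)]
    0x10bb06 = true := by
  decide +kernel

theorem f_4755 (h : TabsF) : FrameF repsF 422 F_4755.f :=
  frame_of rfl c_4755 (runs_of engOK r_4755_0) (by decide +kernel) h.2 h.1

def F_4756 : FrX :=
  ⟨0x1c4044000008081000000840080410000101084042200100001081000020800804101104020280008062400202220020180000488804440004004040200,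
    0x0, 0, 0x21546487, 4,
    [(0x0, 0), (0x20637584, 4), (0x105476a9, 4), (0x647583a9, 4), (0x105476a9, 4), (0x21647385, 4), (0x204386a9, 4), (0x647583a9, 4), (0x204386a9, 4), (0x10657483, 4), (0x647583a9, 4), (0x21647385, 4)],
    [(0x21546487, 4), (0x104375a9, 4), (0x206487a9, 4), (0x216385a9, 4), (0x104375a9, 4), (0x206487a9, 4)]⟩

def c_4756 : frmChk tB tA F_4756 = true := by decide +kernel

def r_4756_0 : chkL rootF engF2 tB tA sB_422 sA_422 4 F_4756 [(511, 0, 0)]
    0x493 = true := by
  decide +kernel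

theorem f_4756 (h : TabsF) : FrameF repsF 422 F_4756.f :=
  frame_of rfl c_4756 (runs_of engOK r_4756_0) (by decide +kernel) h.2 h.1

def F_4757 : FrX :=
  ⟨0x1001040012008080000e00840800410008101000060000028080400142002030030200000100404140084200400010104000088c00000842409003000018,
    0xa3, 1, 0x324065718295a6, 7,
    [(0xa3, 1), (0x207584a6, 4), (0x10547693, 4), (0x647593a8, 4), (0x10547693, 4), (0x216485a7, 4), (0x208693a4, 4), (0x647593a8, 4), (0x208693a4, 4), (0x106574a8, 4), (0x647593a8, 4), (0x216485a7, 4)],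
    [(0x324065718295a6, 7), (0x658492a3, 4), (0x31657490, 4), (0x206587a1, 4), (0x658492a3, 4), (0x31657490, 4)]⟩

def c_4757 : frmChk tB tA F_4757 = true := by decide +kernel

def r_4757_0 : chkL rootF engF2 tB tA sB_422 sA_422 4 F_4757 [(511, 0, 0)]
    0x1 = true := by
  decide +kernel

theorem f_4757 (h : TabsF) : FrameF repsF 422 F_4757.f :=
  frame_of rfl c_4757 (runs_of engOK r_4757_0) (by decide +kernel) h.2 h.1

def F_4758 : FrX :=
  ⟨0x1001040012008080000e00840800410008101000040808048020010023000080084100802100100240010008011000410014000401800412508008801100,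
    0xa3, 1, 0x4250738196a3, 6,
    [(0xa3, 1), (0x207584a6, 4), (0x10547693, 4), (0x647593a8, 4), (0x10547693, 4), (0x216485a7, 4), (0x208693a4, 4), (0x647593a8, 4), (0x208693a4, 4), (0x106574a8, 4), (0x647593a8, 4), (0x216485a7, 4)],
    [(0x4250738196a3, 6), (0x213054a9, 4), (0x20768593, 4), (0x307692a1, 4), (0x20768593, 4), (0x108492a3, 4), (0x547691a2, 4), (0x307692a1, 4), (0x547691a2, 4), (0x328590a1, 4), (0x307692a1, 4), (0x108492a3, 4)]⟩

def c_4758 : frmChk tB tB F_4758 = true := by decide +kernel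

def r_4758_0 : chkL rootF engF2 tB tB sB_422 sB_422 4 F_4758 [(511, 0, 0)]
    0x1 = true := by
  decide +kernel

theorem f_4758 (h : TabsF) : FrameF repsF 422 F_4758.f :=
  frame_of rfl c_4758 (runs_of engOK r_4758_0) (by decide +kernel) h.2 h.2

def F_4759 : FrX :=
  ⟨0x80080a000804040e00002101002001000002040880411004008044040440001000802060008011220022000404100101100080084012020404040210040,
    0xa6, 1, 0x103243618595a0, 7,
    [(0xa6, 1), (0x205396a8, 4), (0x10548796, 4), (0x214396a7, 4), (0x205396a8, 4), (0x10548796, 4)],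
    [(0x103243618595a0, 7), (0x508194a3, 4), (0x758192a6, 4), (0x42637081, 4), (0x508194a3, 4), (0x758192a6, 4)]⟩

def c_4759 : frmChk tA tA F_4759 = true := by decide +kernel

def r_4759_0 : chkL rootF engF2 tA tA sA_422 sA_422 4 F_4759 [(511, 0, 0)]
    0x45a = true := by
  decide +kernel

theorem f_4759 (h : TabsF) : FrameF repsF 422 F_4759.f :=
  frame_of rfl c_4759 (runs_of engOK r_4759_0) (by decide +kernel) h.1 h.1

def F_4760 : FrX :=
  ⟨0x482000044040440000c2040020009000182040002022020008020010040024a00400101081000180000038204808200500001084048000044010010820,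
    0xa0, 1, 0x304263748492a3, 7,
    [(0xa0, 1), (0x538690a2, 4), (0x548790a1, 4), (0x21437690, 4), (0x538690a2, 4), (0x548790a1, 4)],
    [(0x304263748492a3, 7), (0x647093a5, 4), (0x31647285, 4), (0x206491a8, 4), (0x647093a5, 4), (0x31647285, 4)]⟩

def c_4760 : frmChk tA tA F_4760 = true := by decide +kernel

def r_4760_0 : chkL rootF engF2 tA tA sA_422 sA_422 4 F_4760 [(511, 0, 0)]
    0x43a = true := by
  decide +kernel

theorem f_4760 (h : TabsF) : FrameF repsF 422 F_4760.f :=
  frame_of rfl c_4760 (runs_of engOK r_4760_0) (by decide +kernel) h.1 h.1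

def F_4761 : FrX :=
  ⟨0x2002000900044004000e02041000141000800040800802040208022010208408000004800908028414000004401020002004022004002420000904040048,
    0xa3, 1, 0x4350648591a5, 6,
    [(0xa3, 1), (0x208693a5, 4), (0x10548793, 4), (0x217693a4, 4), (0x208693a5, 4), (0x10548793, 4)],
    [(0x4350648591a5, 6), (0x435260a7, 4), (0x738195a6, 4), (0x406381a7, 4), (0x738195a6, 4), (0x637492a0, 4), (0x30526481, 4), (0x406381a7, 4), (0x30526481, 4), (0x407695a3, 4), (0x406381a7, 4), (0x637492a0, 4)]⟩

def c_4761 : frmChk tA tB F_4761 = true := by decide +kernel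

def r_4761_0 : chkL rootF engF2 tA tB sA_422 sB_422 4 F_4761 [(511, 0, 0)]
    0x1 = true := by
  decide +kernel

theorem f_4761 (h : TabsF) : FrameF repsF 422 F_4761.f :=
  frame_of rfl c_4761 (runs_of engOK r_4761_0) (by decide +kernel) h.1 h.2

def F_4762 : FrX :=
  ⟨0x2002000900044004000e02041000141000800040801000418020002103000240020201001028000820800400800040801048000011800200300225081010,
    0xa3, 1, 0x4051638297a3, 6,
    [(0xa3, 1), (0x208693a5, 4), (0x10548793, 4), (0x217693a4, 4), (0x208693a5, 4), (0x10548793, 4)],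
    [(0x4051638297a3, 6), (0x327684a1, 4), (0x10547692, 4), (0x768593a0, 4), (0x327684a1, 4), (0x10547692, 4)]⟩

def c_4762 : frmChk tA tA F_4762 = true := by decide +kernel

def r_4762_0 : chkL rootF engF2 tA tA sA_422 sA_422 4 F_4762 [(511, 0, 0)]
    0x1 = true := by
  decide +kernel

theorem f_4762 (h : TabsF) : FrameF repsF 422 F_4762.f :=
  frame_of rfl c_4762 (runs_of engOK r_4762_0) (by decide +kernel) h.1 h.1

def F_4763 : FrX :=
  ⟨0x80080a000804040e0000210100200100000204088060000440808800008408202002040440000c020a008008802011000020100220088022020c0008010,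
    0xa6, 1, 0x315260758094a5, 7,
    [(0xa6, 1), (0x205396a8, 4), (0x10548796, 4), (0x214396a7, 4), (0x205396a8, 4), (0x10548796, 4)],
    [(0x315260758094a5, 7), (0x108596a2, 4), (0x207483a9, 4), (0x617490a2, 4), (0x207483a9, 4), (0x215390a6, 4), (0x60748591, 4), (0x617490a2, 4), (0x60748591, 4), (0x618392a0, 4), (0x617490a2, 4), (0x215390a6, 4)]⟩

def c_4763 : frmChk tA tB F_4763 = true := by decide +kernel

def r_4763_0 : chkL rootF engF2 tA tB sA_422 sB_422 4 F_4763 [(511, 0, 0)]
    0x1 = true := by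
  decide +kernel

theorem f_4763 (h : TabsF) : FrameF repsF 422 F_4763.f :=
  frame_of rfl c_4763 (runs_of engOK r_4763_0) (by decide +kernel) h.1 h.2

def F_4764 : FrX :=
  ⟨0x1c2102000004044000002041000101000082040890080080000802400200404020404041004020208060150808008800088080006084002060202000080,
    0x0, 0, 0x53637486, 4,
    [(0x0, 0), (0x205386a9, 4), (0x105487a9, 4), (0x214376a9, 4), (0x205386a9, 4), (0x105487a9, 4)],
    [(0x53637486, 4), (0x20437586, 4), (0x107384a9, 4), (0x436587a9, 4), (0x107384a9, 4), (0x21536487, 4), (0x207685a9, 4), (0x436587a9, 4), (0x207685a9, 4), (0x10657483, 4), (0x436587a9, 4), (0x21536487, 4)]⟩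

def c_4764 : frmChk tA tB F_4764 = true := by decide +kernel

def r_4764_0 : chkL rootF engF2 tA tB sA_422 sB_422 4 F_4764 [(511, 0, 0)]
    0x493 = true := by
  decide +kernel

theorem f_4764 (h : TabsF) : FrameF repsF 422 F_4764.f :=
  frame_of rfl c_4764 (runs_of engOK r_4764_0) (by decide +kernel) h.1 h.2

theorem cl_422 (h : TabsF) : ∀ f ∈ fr_422, FrameF repsF 422 f :=
  List.forall_mem_cons.2 ⟨f_4737 h, List.forall_mem_cons.2 ⟨f_4738 h, List.forall_mem_cons.2 ⟨f_4739 h, List.forall_mem_cons.2 ⟨f_4740 h, List.forall_mem_cons.2 ⟨f_4741 h, List.forall_mem_cons.2 ⟨f_4742 h, List.forall_mem_cons.2 ⟨f_4743 h, List.forall_mem_cons.2 ⟨f_4744 h, List.forall_mem_cons.2 ⟨f_4745 h, List.forall_mem_cons.2 ⟨f_4746 h, List.forall_mem_cons.2 ⟨f_4747 h, List.forall_mem_cons.2 ⟨f_4748 h, List.forall_mem_cons.2 ⟨f_4749 h, List.forall_mem_cons.2 ⟨f_4750 h, List.forall_mem_cons.2 ⟨f_4751 h, List.forall_mem_cons.2 ⟨f_4752 h, List.forall_mem_cons.2 ⟨f_4753 h, List.forall_mem_cons.2 ⟨f_4754 h, List.forall_mem_cons.2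 ⟨f_4755 h, List.forall_mem_cons.2 ⟨f_4756 h, List.forall_mem_cons.2 ⟨f_4757 h, List.forall_mem_cons.2 ⟨f_4758 h, List.forall_mem_cons.2 ⟨f_4759 h, List.forall_mem_cons.2 ⟨f_4760 h, List.forall_mem_cons.2 ⟨f_4761 h, List.forall_mem_cons.2 ⟨f_4762 h, List.forall_mem_cons.2 ⟨f_4763 h, List.forall_mem_cons.2 ⟨f_4764 h,
    fun _ h0 => absurd h0 List.not_mem_nil⟩⟩⟩⟩⟩⟩⟩⟩⟩⟩⟩⟩⟩⟩⟩⟩⟩⟩⟩⟩⟩⟩⟩⟩⟩⟩⟩⟩

def F_4765 : FrX :=
  ⟨0x482000044040440000c2040020009000182040002011100800880200024002100080070800010002000208122000902218002008102200002200010210,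
    0xa0, 1, 0x1040617480a3, 6,
    [(0xa0, 1), (0x538690a2, 4), (0x548790a1, 4), (0x21437690, 4), (0x538690a2, 4), (0x548790a1, 4)],
    [(0x1040617480a3, 6), (0x517482a0, 4), (0x10758693, 4), (0x517093a4, 4), (0x10758693, 4), (0x546270a1, 4), (0x408293a7, 4), (0x517093a4, 4), (0x408293a7, 4), (0x507186a4, 4), (0x517093a4, 4), (0x546270a1, 4)]⟩

def c_4765 : frmChk tA tB F_4765 = true := by decide +kernel

def r_4765_0 : chkL rootF engF2 tA tB sA_423 sB_423 4 F_4765 [(511, 0, 0)]
    0x42709c2709c2709cd4350d4 = true := by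
  decide +kernel

theorem f_4765 (h : TabsF) : FrameF repsF 423 F_4765.f :=
  frame_of rfl c_4765 (runs_of engOK r_4765_0) (by decide +kernel) h.1 h.2

def F_4766 : FrX :=
  ⟨0x2002000900044004000e0204100014100080004081000004140842001081004020008802010200800a200406001000400201a10040200204040024000201,
    0xa3, 1, 0x103243528090a6, 7,
    [(0xa3, 1), (0x208693a5, 4), (0x10548793, 4), (0x217693a4, 4), (0x208693a5, 4), (0x10548793, 4)],
    [(0x103243528090a6, 7), (0x438695a1, 4), (0x32718690, 4), (0x425086a7, 4), (0x438695a1, 4), (0x32718690, 4)]⟩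

def c_4766 : frmChk tA tA F_4766 = true := by decide +kernel

def r_4766_0 : chkL rootF engF2 tA tA sA_423 sA_423 4 F_4766 [(511, 0, 0)]
    0x1 = true := by
  decide +kernel

theorem f_4766 (h : TabsF) : FrameF repsF 423 F_4766.f :=
  frame_of rfl c_4766 (runs_of engOK r_4766_0) (by decide +kernel) h.1 h.1

def F_4767 : FrX :=
  ⟨0x2002000900044004000e02041000141000800040800400228081204002000c00040081034000010002020280600000903080080084010200400202402001,
    0xa3, 1, 0x102031546182a3, 7,
    [(0xa3, 1), (0x208693a5, 4), (0x10548793, 4), (0x217693a4, 4), (0x208693a5, 4), (0x10548793, 4)],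
    [(0x102031546182a3, 7), (0x318290a4, 4), (0x54627190, 4), (0x738690a5, 4), (0x318290a4, 4), (0x54627190, 4)]⟩

def c_4767 : frmChk tA tA F_4767 = true := by decide +kernel

def r_4767_0 : chkL rootF engF2 tA tA sA_423 sA_423 4 F_4767 [(511, 0, 0)]
    0x594 = true := by
  decide +kernel

theorem f_4767 (h : TabsF) : FrameF repsF 423 F_4767.f :=
  frame_of rfl c_4767 (runs_of engOK r_4767_0) (by decide +kernel) h.1 h.1

def F_4768 : FrX :=
  ⟨0x482000044040440000c2040020009000182040000421021001080800080101200200060002081110000011084000408100200210898180004020000208,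
    0xa0, 1, 0x2131415482a0, 6,
    [(0xa0, 1), (0x538690a2, 4), (0x548790a1, 4), (0x21437690, 4), (0x538690a2, 4), (0x548790a1, 4)],
    [(0x2131415482a0, 6), (0x326190a8, 4), (0x537190a4, 4), (0x52768490, 4), (0x326190a8, 4), (0x537190a4, 4)]⟩

def c_4768 : frmChk tA tA F_4768 = true := by decide +kernel

def r_4768_0 : chkL rootF engF2 tA tA sA_423 sA_423 4 F_4768 [(511, 0, 0)]
    0x11580f06c47 = true := by
  decide +kernel

theorem f_4768 (h : TabsF) : FrameF repsF 423 F_4768.f :=
  frame_of rfl c_4768 (runs_of engOK r_4768_0) (by decide +kernel) h.1 h.1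

def F_4769 : FrX :=
  ⟨0x482000044040440000c204002000900018204002000110010c080004010041200202001c00081020002008084801808008001210100200101200010201,
    0xa0, 1, 0x304164768292a6, 7,
    [(0xa0, 1), (0x538690a2, 4), (0x548790a1, 4), (0x21437690, 4), (0x538690a2, 4), (0x548790a1, 4)],
    [(0x304164768292a6, 7), (0x508793a2, 4), (0x21436587, 4), (0x608794a1, 4), (0x508793a2, 4), (0x21436587, 4)]⟩

def c_4769 : frmChk tA tA F_4769 = true := by decide +kernel

def r_4769_0 : chkL rootF engF2 tA tA sA_423 sA_423 4 F_4769 [(511, 0, 0)]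
    0x10d8ca = true := by
  decide +kernel

theorem f_4769 (h : TabsF) : FrameF repsF 423 F_4769.f :=
  frame_of rfl c_4769 (runs_of engOK r_4769_0) (by decide +kernel) h.1 h.1

def F_4770 : FrX :=
  ⟨0x2002000900044004000e02041000141000800040800a080480084000080104001400810101a00000022002005000480002c4008022200200440002024004,
    0xa3, 1, 0x203051607186a1, 7,
    [(0xa3, 1), (0x208693a5, 4), (0x10548793, 4), (0x217693a4, 4), (0x208693a5, 4), (0x10548793, 4)],
    [(0x203051607186a1, 7), (0x21608397, 4), (0x415397a6, 4), (0x428597a0, 4), (0x21608397, 4), (0x415397a6, 4)]⟩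

def c_4770 : frmChk tA tA F_4770 = true := by decide +kernel

def r_4770_0 : chkL rootF engF2 tA tA sA_423 sA_423 4 F_4770 [(511, 0, 0)]
    0x1 = true := by
  decide +kernel

theorem f_4770 (h : TabsF) : FrameF repsF 423 F_4770.f :=
  frame_of rfl c_4770 (runs_of engOK r_4770_0) (by decide +kernel) h.1 h.1

def F_4771 : FrX :=
  ⟨0x80080a000804040e000021010020010000020408a0000802200400809040080141010030000030002024800500103902004002004001000440110008010,
    0xa6, 1, 0x4354617293a1, 6,
    [(0xa6, 1), (0x205396a8, 4), (0x10548796, 4), (0x214396a7, 4), (0x205396a8, 4), (0x10548796, 4)],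
    [(0x4354617293a1, 6), (0x32708591, 4), (0x215364a0, 4), (0x32516498, 4), (0x215364a0, 4), (0x518392a7, 4), (0x64708195, 4), (0x32516498, 4), (0x64708195, 4), (0x315298a0, 4), (0x32516498, 4), (0x518392a7, 4)]⟩

def c_4771 : frmChk tA tB F_4771 = true := by decide +kernel

def r_4771_0 : chkL rootF engF2 tA tB sA_423 sB_423 4 F_4771 [(511, 0, 0)]
    0x417 = true := by
  decide +kernel

theorem f_4771 (h : TabsF) : FrameF repsF 423 F_4771.f :=
  frame_of rfl c_4771 (runs_of engOK r_4771_0) (by decide +kernel) h.1 h.2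

def F_4772 : FrX :=
  ⟨0x1001040012008080000e00840800410008101000042008024020002100080082808200088080004810841202040000104100201210088081080000040208,
    0xa3, 1, 0x204262748091a5, 7,
    [(0xa3, 1), (0x207584a6, 4), (0x10547693, 4), (0x647593a8, 4), (0x10547693, 4), (0x216485a7, 4), (0x208693a4, 4), (0x647593a8, 4), (0x208693a4, 4), (0x106574a8, 4), (0x647593a8, 4), (0x216485a7, 4)],
    [(0x204262748091a5, 7), (0x425186a3, 4), (0x205198a7, 4), (0x40517396, 4), (0x425186a3, 4), (0x205198a7, 4)]⟩

def c_4772 : frmChk tB tA F_4772 = true := by decide +kernel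

def r_4772_0 : chkL rootF engF2 tB tA sB_423 sA_423 4 F_4772 [(511, 0, 0)]
    0x1 = true := by
  decide +kernel

theorem f_4772 (h : TabsF) : FrameF repsF 423 F_4772.f :=
  frame_of rfl c_4772 (runs_of engOK r_4772_0) (by decide +kernel) h.2 h.1

def F_4773 : FrX :=
  ⟨0x1c40440000080810000008400804100001010840422001000020220000090008102008880800040109412001480081001000012300880c0004020020200,
    0x0, 0, 0x65a9, 2,
    [(0x0, 0), (0x20637584, 4), (0x105476a9, 4), (0x647583a9, 4), (0x105476a9, 4), (0x21647385, 4), (0x204386a9, 4), (0x647583a9, 4), (0x204386a9, 4), (0x10657483, 4), (0x647583a9, 4), (0x21647385, 4)],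
    [(0x65a9, 2), (0x206385a9, 4), (0x106487a9, 4), (0x214375a9, 4), (0x206385a9, 4), (0x106487a9, 4)]⟩

def c_4773 : frmChk tB tA F_4773 = true := by decide +kernel

def r_4773_0 : chkL rootF engF2 tB tA sB_423 sA_423 4 F_4773 [(511, 0, 0)]
    0x1 = true := by
  decide +kernel

theorem f_4773 (h : TabsF) : FrameF repsF 423 F_4773.f :=
  frame_of rfl c_4773 (runs_of engOK r_4773_0) (by decide +kernel) h.2 h.1

def F_4774 : FrX :=
  ⟨0x1001040012008080000e0084080041000810100004201004100103000101004801000808220000480800200a001020012000800c080000a2044210800280,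
    0xa3, 1, 0x52708091a8, 5,
    [(0xa3, 1), (0x207584a6, 4), (0x10547693, 4), (0x647593a8, 4), (0x10547693, 4), (0x216485a7, 4), (0x208693a4, 4), (0x647593a8, 4), (0x208693a4, 4), (0x106574a8, 4), (0x647593a8, 4), (0x216485a7, 4)],
    [(0x52708091a8, 5), (0x327185a6, 4), (0x427198a0, 4), (0x43607195, 4), (0x327185a6, 4), (0x427198a0, 4)]⟩

def c_4774 : frmChk tB tA F_4774 = true := by decide +kernel

def r_4774_0 : chkL rootF engF2 tB tA sB_423 sA_423 4 F_4774 [(511, 0, 0)]
    0x1 = true := by
  decide +kernel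

theorem f_4774 (h : TabsF) : FrameF repsF 423 F_4774.f :=
  frame_of rfl c_4774 (runs_of engOK r_4774_0) (by decide +kernel) h.2 h.1

def F_4775 : FrX :=
  ⟨0x1001040012008080000e008408004100081010000600000480404002201800802801008001001102400414008000102020000a0180020400108088410090,
    0xa3, 1, 0x103240628194a0, 7,
    [(0xa3, 1), (0x207584a6, 4), (0x10547693, 4), (0x647593a8, 4), (0x10547693, 4), (0x216485a7, 4), (0x208693a4, 4), (0x647593a8, 4), (0x208693a4, 4), (0x106574a8, 4), (0x647593a8, 4), (0x216485a7, 4)],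
    [(0x103240628194a0, 7), (0x304152a6, 4), (0x417095a8, 4), (0x41738692, 4), (0x304152a6, 4), (0x417095a8, 4)]⟩

def c_4775 : frmChk tB tA F_4775 = true := by decide +kernel

def r_4775_0 : chkL rootF engF2 tB tA sB_423 sA_423 4 F_4775 [(511, 0, 0)]
    0x1 = true := by
  decide +kernel

theorem f_4775 (h : TabsF) : FrameF repsF 423 F_4775.f :=
  frame_of rfl c_4775 (runs_of engOK r_4775_0) (by decide +kernel) h.2 h.1

def F_4776 : FrX :=
  ⟨0x600020801080810000c0040180410101001004010010048000008208142002080400080800442000400110880008800844080181004000441400010102,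
    0xa0, 1, 0x3064718295a0, 6,
    [(0xa0, 1), (0x637584a2, 4), (0x547690a1, 4), (0x64758390, 4), (0x547690a1, 4), (0x21647385, 4), (0x438690a2, 4), (0x64758390, 4), (0x438690a2, 4), (0x657483a1, 4), (0x64758390, 4), (0x21647385, 4)],
    [(0x3064718295a0, 6), (0x406291a8, 4), (0x415396a7, 4), (0x20536491, 4), (0x415396a7, 4), (0x10648792, 4), (0x425360a8, 4), (0x20536491, 4), (0x425360a8, 4), (0x206194a7, 4), (0x20536491, 4), (0x10648792, 4)]⟩

def c_4776 : frmChk tB tB F_4776 = true := by decide +kernel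

def r_4776_0 : chkL rootF engF2 tB tB sB_423 sB_423 4 F_4776 [(511, 0, 0)]
    0x107827 = true := by
  decide +kernel

theorem f_4776 (h : TabsF) : FrameF repsF 423 F_4776.f :=
  frame_of rfl c_4776 (runs_of engOK r_4776_0) (by decide +kernel) h.2 h.2

def F_4777 : FrX :=
  ⟨0x2002000900044004000e02041000141000800040808000204420000110010c082000220011000090201000121804000c001400a000880820000882020010,
    0xa3, 1, 0x10315264728096a3, 8,
    [(0xa3, 1), (0x208693a5, 4), (0x10548793, 4), (0x217693a4, 4), (0x208693a5, 4), (0x10548793, 4)],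
    [(0x10315264728096a3, 8), (0x408791a2, 4), (0x40516283, 4), (0x407395a6, 4), (0x408791a2, 4), (0x40516283, 4)]⟩

def c_4777 : frmChk tA tA F_4777 = true := by decide +kernel

def r_4777_0 : chkL rootF engF2 tA tA sA_423 sA_423 4 F_4777 [(511, 0, 0)]
    0x1 = true := by
  decide +kernel

theorem f_4777 (h : TabsF) : FrameF repsF 423 F_4777.f :=
  frame_of rfl c_4777 (runs_of engOK r_4777_0) (by decide +kernel) h.1 h.1

def F_4778 : FrX :=
  ⟨0x482000044040440000c2040020009000182040010010041200800810080408208010010000084102000810500408010014011008084002040900010090,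
    0xa0, 1, 0x314285a0, 4,
    [(0xa0, 1), (0x538690a2, 4), (0x548790a1, 4), (0x21437690, 4), (0x538690a2, 4), (0x548790a1, 4)],
    [(0x314285a0, 4), (0x658190a4, 4), (0x758290a3, 4), (0x21437690, 4), (0x658190a4, 4), (0x758290a3, 4)]⟩

def c_4778 : frmChk tA tA F_4778 = true := by decide +kernel

def r_4778_0 : chkL rootF engF2 tA tA sA_423 sA_423 4 F_4778 [(511, 0, 0)]
    0x135093 = true := by
  decide +kernel

theorem f_4778 (h : TabsF) : FrameF repsF 423 F_4778.f :=
  frame_of rfl c_4778 (runs_of engOK r_4778_0) (by decide +kernel) h.1 h.1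

def F_4779 : FrX :=
  ⟨0x482000044040440000c2040020009000182040001012080004200004020801810800100902000480000004022e20010000086050004402100a20000040,
    0xa0, 1, 0x20304153748291a6, 8,
    [(0xa0, 1), (0x538690a2, 4), (0x548790a1, 4), (0x21437690, 4), (0x538690a2, 4), (0x548790a1, 4)],
    [(0x20304153748291a6, 8), (0x526483a0, 4), (0x10647293, 4), (0x647598a1, 4), (0x526483a0, 4), (0x10647293, 4)]⟩

def c_4779 : frmChk tA tA F_4779 = true := by decide +kernel

def r_4779_0 : chkL rootF engF2 tA tA sA_423 sA_423 4 F_4779 [(511, 0, 0)]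
    0x1 = true := by
  decide +kernel

theorem f_4779 (h : TabsF) : FrameF repsF 423 F_4779.f :=
  frame_of rfl c_4779 (runs_of engOK r_4779_0) (by decide +kernel) h.1 h.1

def F_4780 : FrX :=
  ⟨0x2002000900044004000e0204100014100080004080080024800120200a000c00040081000888000812000200400041801080002086002200441202022000,
    0xa3, 1, 0x5264708391a3, 6,
    [(0xa3, 1), (0x208693a5, 4), (0x10548793, 4), (0x217693a4, 4), (0x208693a5, 4), (0x10548793, 4)],
    [(0x5264708391a3, 6), (0x437581a2, 4), (0x30628197, 4), (0x408195a6, 4), (0x437581a2, 4), (0x30628197, 4)]⟩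

def c_4780 : frmChk tA tA F_4780 = true := by decide +kernel

def r_4780_0 : chkL rootF engF2 tA tA sA_423 sA_423 4 F_4780 [(511, 0, 0)]
    0x1 = true := by
  decide +kernel

theorem f_4780 (h : TabsF) : FrameF repsF 423 F_4780.f :=
  frame_of rfl c_4780 (runs_of engOK r_4780_0) (by decide +kernel) h.1 h.1

theorem cl_423 (h : TabsF) : ∀ f ∈ fr_423, FrameF repsF 423 f :=
  List.forall_mem_cons.2 ⟨f_4765 h, List.forall_mem_cons.2 ⟨f_4766 h, List.forall_mem_cons.2 ⟨f_4767 h, List.forall_mem_cons.2 ⟨f_4768 h, List.forall_mem_cons.2 ⟨f_4769 h, List.forall_mem_cons.2 ⟨f_4770 h, List.forall_mem_cons.2 ⟨f_4771 h, List.forall_mem_cons.2 ⟨f_4772 h, List.forall_mem_cons.2 ⟨f_4773 h, List.forall_mem_cons.2 ⟨f_4774 h, List.forall_mem_cons.2 ⟨f_4775 h, List.forall_mem_cons.2 ⟨f_4776 h, List.forall_mem_cons.2 ⟨f_4777 h, List.forall_mem_cons.2 ⟨f_4778 h, List.forall_mem_cons.2 ⟨f_4779 h, List.forall_mem_cons.2 ⟨f_4780 h,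
    fun _ h0 => absurd h0 List.not_mem_nil⟩⟩⟩⟩⟩⟩⟩⟩⟩⟩⟩⟩⟩⟩⟩⟩

def F_4781 : FrX :=
  ⟨0x482000044040440000c2040020009000182040010080080101300008008404004802020024040010040228408000408104000142030220001020000082,
    0xa0, 1, 0x10203140748292a6, 8,
    [(0xa0, 1), (0x538690a2, 4), (0x548790a1, 4), (0x21437690, 4), (0x538690a2, 4), (0x548790a1, 4)],
    [(0x10203140748292a6, 8), (0x508694a1, 4), (0x21437586, 4), (0x708693a2, 4), (0x508694a1, 4), (0x21437586, 4)]⟩

def c_4781 : frmChk tA tA F_4781 = true := by decide +kernel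

def r_4781_0 : chkL rootF engF2 tA tA sA_424 sA_424 4 F_4781 [(511, 0, 0)]
    0x1 = true := by
  decide +kernel

theorem f_4781 (h : TabsF) : FrameF repsF 424 F_4781.f :=
  frame_of rfl c_4781 (runs_of engOK r_4781_0) (by decide +kernel) h.1 h.1

def F_4782 : FrX :=
  ⟨0x482000044040440000c2040020009000182040000480280104080200020022800400121801080020000440802000142081010000600604010004080050,
    0xa0, 1, 0x21314153627481a0, 8,
    [(0xa0, 1), (0x538690a2, 4), (0x548790a1, 4), (0x21437690, 4), (0x538690a2, 4), (0x548790a1, 4)],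
    [(0x21314153627481a0, 8), (0x415290a6, 4), (0x437290a8, 4), (0x31758690, 4), (0x415290a6, 4), (0x437290a8, 4)]⟩

def c_4782 : frmChk tA tA F_4782 = true := by decide +kernel

def r_4782_0 : chkL rootF engF2 tA tA sA_424 sA_424 4 F_4782 [(511, 0, 0)]
    0x1 = true := by
  decide +kernel

theorem f_4782 (h : TabsF) : FrameF repsF 424 F_4782.f :=
  frame_of rfl c_4782 (runs_of engOK r_4782_0) (by decide +kernel) h.1 h.1

def F_4783 : FrX :=
  ⟨0x482000044040440000c20400200090001820400020804400010801000405018008000502002081000800285080010400800101022c0880010000200084,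
    0xa0, 1, 0x20314351657393a6, 8,
    [(0xa0, 1), (0x538690a2, 4), (0x548790a1, 4), (0x21437690, 4), (0x538690a2, 4), (0x548790a1, 4)],
    [(0x20314351657393a6, 8), (0x207396a8, 4), (0x52617384, 4), (0x507391a4, 4), (0x207396a8, 4), (0x52617384, 4)]⟩

def c_4783 : frmChk tA tA F_4783 = true := by decide +kernel

def r_4783_0 : chkL rootF engF2 tA tA sA_424 sA_424 4 F_4783 [(511, 0, 0)]
    0x48e = true := by
  decide +kernel

theorem f_4783 (h : TabsF) : FrameF repsF 424 F_4783.f :=
  frame_of rfl c_4783 (runs_of engOK r_4783_0) (by decide +kernel) h.1 h.1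

def F_4784 : FrX :=
  ⟨0x2002000900044004000e02041000141000800040810000081111800401000402020024004004006004241440800008009100081090000220200040081001,
    0xa3, 1, 0x4252658397a3, 6,
    [(0xa3, 1), (0x208693a5, 4), (0x10548793, 4), (0x217693a4, 4), (0x208693a5, 4), (0x10548793, 4)],
    [(0x4252658397a3, 6), (0x435087a6, 4), (0x10628793, 4), (0x518794a2, 4), (0x435087a6, 4), (0x10628793, 4)]⟩

def c_4784 : frmChk tA tA F_4784 = true := by decide +kernel

def r_4784_0 : chkL rootF engF2 tA tA sA_424 sA_424 4 F_4784 [(511, 0, 0)]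
    0x1 = true := by
  decide +kernel

theorem f_4784 (h : TabsF) : FrameF repsF 424 F_4784.f :=
  frame_of rfl c_4784 (runs_of engOK r_4784_0) (by decide +kernel) h.1 h.1

def F_4785 : FrX :=
  ⟨0x2002000900044004000e02041000141000800040800801014010020211000242000202020124000010c00282000040040305001001100221000004010210,
    0xa3, 1, 0x304054768691a6, 7,
    [(0xa3, 1), (0x208693a5, 4), (0x10548793, 4), (0x217693a4, 4), (0x208693a5, 4), (0x10548793, 4)],
    [(0x304054768691a6, 7), (0x426375a0, 4), (0x538194a6, 4), (0x637081a5, 4), (0x538194a6, 4), (0x607392a5, 4), (0x425081a7, 4), (0x637081a5, 4), (0x425081a7, 4), (0x657094a3, 4), (0x637081a5, 4), (0x607392a5, 4)]⟩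

def c_4785 : frmChk tA tB F_4785 = true := by decide +kernel

def r_4785_0 : chkL rootF engF2 tA tB sA_424 sB_424 4 F_4785 [(511, 0, 0)]
    0x1 = true := by
  decide +kernel

theorem f_4785 (h : TabsF) : FrameF repsF 424 F_4785.f :=
  frame_of rfl c_4785 (runs_of engOK r_4785_0) (by decide +kernel) h.1 h.2

def F_4786 : FrX :=
  ⟨0x2002000900044004000e02041000141000800040800400484004202082000880020024020004040c0c2001008000408002800800300c80000020800c4040,
    0xa3, 1, 0x5164718093a0, 6,
    [(0xa3, 1), (0x208693a5, 4), (0x10548793, 4), (0x217693a4, 4), (0x208693a5, 4), (0x10548793, 4)],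
    [(0x5164718093a0, 6), (0x408391a2, 4), (0x506183a7, 4), (0x54728396, 4), (0x408391a2, 4), (0x506183a7, 4)]⟩

def c_4786 : frmChk tA tA F_4786 = true := by decide +kernel

def r_4786_0 : chkL rootF engF2 tA tA sA_424 sA_424 4 F_4786 [(511, 0, 0)]
    0x40f = true := by
  decide +kernel

theorem f_4786 (h : TabsF) : FrameF repsF 424 F_4786.f :=
  frame_of rfl c_4786 (runs_of engOK r_4786_0) (by decide +kernel) h.1 h.1

def F_4787 : FrX :=
  ⟨0x80080a000804040e0000210100200100000204088210041402001000800408402010042000400520004800080220140b024000090001020200080808080,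
    0xa6, 1, 0x31516372a1, 5,
    [(0xa6, 1), (0x205396a8, 4), (0x10548796, 4), (0x214396a7, 4), (0x205396a8, 4), (0x10548796, 4)],
    [(0x31516372a1, 5), (0x32617084, 4), (0x214395a0, 4), (0x32418695, 4), (0x214395a0, 4), (0x416283a7, 4), (0x64708195, 4), (0x32418695, 4), (0x64708195, 4), (0x314286a0, 4), (0x32418695, 4), (0x416283a7, 4)]⟩

def c_4787 : frmChk tA tB F_4787 = true := by decide +kernel

def r_4787_0 : chkL rootF engF2 tA tB sA_424 sB_424 4 F_4787 [(511, 0, 0)]
    0x1 = true := by
  decide +kernel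

theorem f_4787 (h : TabsF) : FrameF repsF 424 F_4787.f :=
  frame_of rfl c_4787 (runs_of engOK r_4787_0) (by decide +kernel) h.1 h.2

def F_4788 : FrX :=
  ⟨0x80080a000804040e000021010020010000020408820202020100801008010020010840600040040108012420011000111001810800080c0404040400200,
    0xa6, 1, 0x3264708591a6, 6,
    [(0xa6, 1), (0x205396a8, 4), (0x10548796, 4), (0x214396a7, 4), (0x205396a8, 4), (0x10548796, 4)],
    [(0x3264708591a6, 6), (0x417382a5, 4), (0x41508697, 4), (0x416293a0, 4), (0x417382a5, 4), (0x41508697, 4)]⟩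

def c_4788 : frmChk tA tA F_4788 = true := by decide +kernel

def r_4788_0 : chkL rootF engF2 tA tA sA_424 sA_424 4 F_4788 [(511, 0, 0)]
    0x1 = true := by
  decide +kernel

theorem f_4788 (h : TabsF) : FrameF repsF 424 F_4788.f :=
  frame_of rfl c_4788 (runs_of engOK r_4788_0) (by decide +kernel) h.1 h.1

def F_4789 : FrX :=
  ⟨0x80080a000804040e000021010020010000020408900800004840014002200080148020010040204080011820110100800200a000600040a100a00800080,
    0xa6, 1, 0x3141647194a3, 6,
    [(0xa6, 1), (0x205396a8, 4), (0x10548796, 4), (0x214396a7, 4), (0x205396a8, 4), (0x10548796, 4)],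
    [(0x3141647194a3, 6), (0x206183a5, 4), (0x61708495, 4), (0x436172a9, 4), (0x206183a5, 4), (0x61708495, 4)]⟩

def c_4789 : frmChk tA tA F_4789 = true := by decide +kernel

def r_4789_0 : chkL rootF engF2 tA tA sA_424 sA_424 4 F_4789 [(511, 0, 0)]
    0x42e03e861348b2a44dc0f810cc0f03ca5 = true := by
  decide +kernel

theorem f_4789 (h : TabsF) : FrameF repsF 424 F_4789.f :=
  frame_of rfl c_4789 (runs_of engOK r_4789_0) (by decide +kernel) h.1 h.1

def F_4790 : FrX :=
  ⟨0x482000044040440000c204002000900018204001008002080080081004006422040001000008410008044202051000201080a008041020040400008050,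
    0xa0, 1, 0x10758198a5, 5,
    [(0xa0, 1), (0x538690a2, 4), (0x548790a1, 4), (0x21437690, 4), (0x538690a2, 4), (0x548790a1, 4)],
    [(0x10758198a5, 5), (0x216394a5, 4), (0x657081a4, 4), (0x647093a5, 4), (0x657081a4, 4), (0x536482a9, 4), (0x21437096, 4), (0x647093a5, 4), (0x21437096, 4), (0x548193a6, 4), (0x647093a5, 4), (0x536482a9, 4)]⟩

def c_4790 : frmChk tA tB F_4790 = true := by decide +kernel

def r_4790_0 : chkL rootF engF2 tA tB sA_424 sB_424 4 F_4790 [(511, 0, 0)]
    0x42e = true := by
  decide +kernel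

theorem f_4790 (h : TabsF) : FrameF repsF 424 F_4790.f :=
  frame_of rfl c_4790 (runs_of engOK r_4790_0) (by decide +kernel) h.1 h.2

def F_4791 : FrX :=
  ⟨0x2002000900044004000e020410001410008000408004005008200100100121081000240011040010084000080930000c0014001005080808000900054000,
    0xa3, 1, 0x20405264748192a0, 8,
    [(0xa3, 1), (0x208693a5, 4), (0x10548793, 4), (0x217693a4, 4), (0x208693a5, 4), (0x10548793, 4)],
    [(0x20405264748192a0, 8), (0x213054a9, 4), (0x546170a8, 4), (0x54627398, 4), (0x213054a9, 4), (0x546170a8, 4)]⟩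

def c_4791 : frmChk tA tA F_4791 = true := by decide +kernel

def r_4791_0 : chkL rootF engF2 tA tA sA_424 sA_424 4 F_4791 [(511, 0, 0)]
    0x1 = true := by
  decide +kernel

theorem f_4791 (h : TabsF) : FrameF repsF 424 F_4791.f :=
  frame_of rfl c_4791 (runs_of engOK r_4791_0) (by decide +kernel) h.1 h.1

def F_4792 : FrX :=
  ⟨0x2002000900044004000e02041000141000800040810000100480802400880081200202004004004410800220085020010001820003004000501220008200,
    0xa3, 1, 0x203240517291a0, 7,
    [(0xa3, 1), (0x208693a5, 4), (0x10548793, 4), (0x217693a4, 4), (0x208693a5, 4), (0x10548793, 4)],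
    [(0x203240517291a0, 7), (0x316082a7, 4), (0x215463a9, 4), (0x31546280, 4), (0x215463a9, 4), (0x30628197, 4), (0x205486a7, 4), (0x31546280, 4), (0x205486a7, 4), (0x326180a9, 4), (0x31546280, 4), (0x30628197, 4)]⟩

def c_4792 : frmChk tA tB F_4792 = true := by decide +kernel

def r_4792_0 : chkL rootF engF2 tA tB sA_424 sB_424 4 F_4792 [(511, 0, 0)]
    0x115827 = true := by
  decide +kernel

theorem f_4792 (h : TabsF) : FrameF repsF 424 F_4792.f :=
  frame_of rfl c_4792 (runs_of engOK r_4792_0) (by decide +kernel) h.1 h.2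

def F_4793 : FrX :=
  ⟨0x1c21020000040440000020410001010000820408a0001100000082100202101000204040024041010040011a120084403000000110800080040210a0080,
    0x0, 0, 0x43536584, 4,
    [(0x0, 0), (0x205386a9, 4), (0x105487a9, 4), (0x214376a9, 4), (0x205386a9, 4), (0x105487a9, 4)],
    [(0x43536584, 4), (0x20547683, 4), (0x107486a9, 4), (0x537684a9, 4), (0x107486a9, 4), (0x21637584, 4), (0x204385a9, 4), (0x537684a9, 4), (0x204385a9, 4), (0x10536487, 4), (0x537684a9, 4), (0x21637584, 4)]⟩

def c_4793 : frmChk tA tB F_4793 = true := by decide +kernel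

def r_4793_0 : chkL rootF engF2 tA tB sA_424 sB_424 4 F_4793 [(511, 0, 0)]
    0x44e = true := by
  decide +kernel

theorem f_4793 (h : TabsF) : FrameF repsF 424 F_4793.f :=
  frame_of rfl c_4793 (runs_of engOK r_4793_0) (by decide +kernel) h.1 h.2

def F_4794 : FrX :=
  ⟨0x80080a000804040e0000210100200100000204089002000140801080881000400408100100402100800800080804140002400000600022008a164400200,
    0xa6, 1, 0x3051647298a6, 6,
    [(0xa6, 1), (0x205396a8, 4), (0x10548796, 4), (0x214396a7, 4), (0x205396a8, 4), (0x10548796, 4)],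
    [(0x3051647298a6, 6), (0x107384a9, 4), (0x53618492, 4), (0x607584a2, 4), (0x107384a9, 4), (0x53618492, 4)]⟩

def c_4794 : frmChk tA tA F_4794 = true := by decide +kernel

def r_4794_0 : chkL rootF engF2 tA tA sA_424 sA_424 4 F_4794 [(511, 0, 0)]
    0x1 = true := by
  decide +kernel

theorem f_4794 (h : TabsF) : FrameF repsF 424 F_4794.f :=
  frame_of rfl c_4794 (runs_of engOK r_4794_0) (by decide +kernel) h.1 h.1

def F_4795 : FrX :=
  ⟨0x80080a000804040e00002101002001000002040890020001408010808240004020011010000031000028001184101002024002004001010460080808010,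
    0xa6, 1, 0x304151657296a8, 7,
    [(0xa6, 1), (0x205396a8, 4), (0x10548796, 4), (0x214396a7, 4), (0x205396a8, 4), (0x10548796, 4)],
    [(0x304151657296a8, 7), (0x627390a1, 4), (0x53618492, 4), (0x628491a0, 4), (0x53618492, 4), (0x207591a6, 4), (0x107384a9, 4), (0x628491a0, 4), (0x107384a9, 4), (0x215396a0, 4), (0x628491a0, 4), (0x207591a6, 4)]⟩

def c_4795 : frmChk tA tB F_4795 = true := by decide +kernel

def r_4795_0 : chkL rootF engF2 tA tB sA_424 sB_424 4 F_4795 [(511, 0, 0)]
    0x1 = true := by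
  decide +kernel

theorem f_4795 (h : TabsF) : FrameF repsF 424 F_4795.f :=
  frame_of rfl c_4795 (runs_of engOK r_4795_0) (by decide +kernel) h.1 h.2

def F_4796 : FrX :=
  ⟨0x1001040012008080000e0084080041000810100004200802402001000700008004820200220300081000101202040041004020000a0000888a2101000040,
    0xa3, 1, 0x4051638297a3, 6,
    [(0xa3, 1), (0x207584a6, 4), (0x10547693, 4), (0x647593a8, 4), (0x10547693, 4), (0x216485a7, 4), (0x208693a4, 4), (0x647593a8, 4), (0x208693a4, 4), (0x106574a8, 4), (0x647593a8, 4), (0x216485a7, 4)],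
    [(0x4051638297a3, 6), (0x208491a3, 4), (0x10547693, 4), (0x307691a2, 4), (0x10547693, 4), (0x213085a9, 4), (0x327684a0, 4), (0x307691a2, 4), (0x327684a0, 4), (0x315490a2, 4), (0x307691a2, 4), (0x213085a9, 4)]⟩

def c_4796 : frmChk tB tB F_4796 = true := by decide +kernel

def r_4796_0 : chkL rootF engF2 tB tB sB_424 sB_424 4 F_4796 [(511, 0, 0)]
    0x1 = true := by
  decide +kernel

theorem f_4796 (h : TabsF) : FrameF repsF 424 F_4796.f :=
  frame_of rfl c_4796 (runs_of engOK r_4796_0) (by decide +kernel) h.2 h.2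

theorem cl_424 (h : TabsF) : ∀ f ∈ fr_424, FrameF repsF 424 f :=
  List.forall_mem_cons.2 ⟨f_4781 h, List.forall_mem_cons.2 ⟨f_4782 h, List.forall_mem_cons.2 ⟨f_4783 h, List.forall_mem_cons.2 ⟨f_4784 h, List.forall_mem_cons.2 ⟨f_4785 h, List.forall_mem_cons.2 ⟨f_4786 h, List.forall_mem_cons.2 ⟨f_4787 h, List.forall_mem_cons.2 ⟨f_4788 h, List.forall_mem_cons.2 ⟨f_4789 h, List.forall_mem_cons.2 ⟨f_4790 h, List.forall_mem_cons.2 ⟨f_4791 h, List.forall_mem_cons.2 ⟨f_4792 h, List.forall_mem_cons.2 ⟨f_4793 h, List.forall_mem_cons.2 ⟨f_4794 h, List.forall_mem_cons.2 ⟨f_4795 h, List.forall_mem_cons.2 ⟨f_4796 h,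
    fun _ h0 => absurd h0 List.not_mem_nil⟩⟩⟩⟩⟩⟩⟩⟩⟩⟩⟩⟩⟩⟩⟩⟩

def F_4797 : FrX :=
  ⟨0x80080a000804040e0000210100200100000204088042200041008080080100210108004140c00018000002001311000100004800a0002025080c0900000,
    0xa6, 1, 0x4261748391a2, 6,
    [(0xa6, 1), (0x205396a8, 4), (0x10548796, 4), (0x214396a7, 4), (0x205396a8, 4), (0x10548796, 4)],
    [(0x4261748391a2, 6), (0x316485a0, 4), (0x32647590, 4), (0x216487a9, 4), (0x316485a0, 4), (0x32647590, 4)]⟩

def c_4797 : frmChk tA tA F_4797 = true := by decide +kernel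

def r_4797_0 : chkL rootF engF2 tA tA sA_425 sA_425 4 F_4797 [(511, 0, 0)]
    0x18a44d15615156154688d6508e6288d62a89e2069 = true := by
  decide +kernel

theorem f_4797 (h : TabsF) : FrameF repsF 425 F_4797.f :=
  frame_of rfl c_4797 (runs_of engOK r_4797_0) (by decide +kernel) h.1 h.1

def F_4798 : FrX :=
  ⟨0x482000044040440000c2040020009000182040010080020800800810020208208400081004020480800804111010400010808008840400100a00040084,
    0xa0, 1, 0x1064728593a0, 6,
    [(0xa0, 1), (0x538690a2, 4), (0x548790a1, 4), (0x21437690, 4), (0x538690a2, 4), (0x548790a1, 4)],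
    [(0x1064728593a0, 6), (0x315498a7, 4), (0x315286a0, 4), (0x31427096, 4), (0x315498a7, 4), (0x315286a0, 4)]⟩

def c_4798 : frmChk tA tA F_4798 = true := by decide +kernel

def r_4798_0 : chkL rootF engF2 tA tA sA_425 sA_425 4 F_4798 [(511, 0, 0)]
    0x10780f = true := by
  decide +kernel

theorem f_4798 (h : TabsF) : FrameF repsF 425 F_4798.f :=
  frame_of rfl c_4798 (runs_of engOK r_4798_0) (by decide +kernel) h.1 h.1

def F_4799 : FrX :=
  ⟨0x2002000900044004000e02041000141000800040800801014020004100014048220000210020c01000420010a00800011100801000480808020002104084,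
    0xa3, 1, 0x215261748791a3, 7,
    [(0xa3, 1), (0x208693a5, 4), (0x10548793, 4), (0x217693a4, 4), (0x208693a5, 4), (0x10548793, 4)],
    [(0x215261748791a3, 7), (0x507481a2, 4), (0x63718290, 4), (0x637281a4, 4), (0x63718290, 4), (0x417295a8, 4), (0x425063a7, 4), (0x637281a4, 4), (0x425063a7, 4), (0x218790a4, 4), (0x637281a4, 4), (0x417295a8, 4)]⟩

def c_4799 : frmChk tA tB F_4799 = true := by decide +kernel

def r_4799_0 : chkL rootF engF2 tA tB sA_425 sB_425 4 F_4799 [(511, 0, 0)]
    0x1 = true := by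
  decide +kernel

theorem f_4799 (h : TabsF) : FrameF repsF 425 F_4799.f :=
  frame_of rfl c_4799 (runs_of engOK r_4799_0) (by decide +kernel) h.1 h.2

def F_4800 : FrX :=
  ⟨0x80080a000804040e0000210100200100000204088048100010409000022000802001481020044040002400088880101002000202041000a0222040c0000,
    0xa6, 1, 0x32415261738391a5, 8,
    [(0xa6, 1), (0x205396a8, 4), (0x10548796, 4), (0x214396a7, 4), (0x205396a8, 4), (0x10548796, 4)],
    [(0x32415261738391a5, 8), (0x506374a8, 4), (0x637290a1, 4), (0x42638195, 4), (0x506374a8, 4), (0x637290a1, 4)]⟩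

def c_4800 : frmChk tA tA F_4800 = true := by decide +kernel

def r_4800_0 : chkL rootF engF2 tA tA sA_425 sA_425 4 F_4800 [(511, 0, 0)]
    0x103cd8b4116 = true := by
  decide +kernel

theorem f_4800 (h : TabsF) : FrameF repsF 425 F_4800.f :=
  frame_of rfl c_4800 (runs_of engOK r_4800_0) (by decide +kernel) h.1 h.1

def F_4801 : FrX :=
  ⟨0x2002000900044004000e02041000141000800040808000401280a0001081200100020400102c00048010080001102004000080800880400040c220409008,
    0xa3, 1, 0x3140647486a8, 6,
    [(0xa3, 1), (0x208693a5, 4), (0x10548793, 4), (0x217693a4, 4), (0x208693a5, 4), (0x10548793, 4)],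
    [(0x3140647486a8, 6), (0x425190a8, 4), (0x437590a6, 4), (0x32718690, 4), (0x425190a8, 4), (0x437590a6, 4)]⟩

def c_4801 : frmChk tA tA F_4801 = true := by decide +kernel

def r_4801_0 : chkL rootF engF2 tA tA sA_425 sA_425 4 F_4801 [(511, 0, 0)]
    0x41703c17 = true := by
  decide +kernel

theorem f_4801 (h : TabsF) : FrameF repsF 425 F_4801.f :=
  frame_of rfl c_4801 (runs_of engOK r_4801_0) (by decide +kernel) h.1 h.1

def F_4802 : FrX :=
  ⟨0x482000044040440000c2040020009000182040001012080000c02800080400030020410100004400803000848090002000086010100080850200800041,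
    0xa0, 1, 0x20405462748097a0, 8,
    [(0xa0, 1), (0x538690a2, 4), (0x548790a1, 4), (0x21437690, 4), (0x538690a2, 4), (0x548790a1, 4)],
    [(0x20405462748097a0, 8), (0x324085a6, 4), (0x728594a1, 4), (0x61738590, 4), (0x324085a6, 4), (0x728594a1, 4)]⟩

def c_4802 : frmChk tA tA F_4802 = true := by decide +kernel

def r_4802_0 : chkL rootF engF2 tA tA sA_425 sA_425 4 F_4802 [(511, 0, 0)]
    0x41b06c8722c1706c1b06e4609c2799246 = true := by
  decide +kernel

theorem f_4802 (h : TabsF) : FrameF repsF 425 F_4802.f :=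
  frame_of rfl c_4802 (runs_of engOK r_4802_0) (by decide +kernel) h.1 h.1

def F_4803 : FrX :=
  ⟨0x80080a000804040e0000210100200100000204088208020011008010020040800101410140000882010010088808104012000201080800a0008044c0000,
    0xa6, 1, 0x65718693a2, 5,
    [(0xa6, 1), (0x205396a8, 4), (0x10548796, 4), (0x214396a7, 4), (0x205396a8, 4), (0x10548796, 4)],
    [(0x65718693a2, 5), (0x546198a0, 4), (0x32647081, 4), (0x32618495, 4), (0x32647081, 4), (0x658491a7, 4), (0x328594a0, 4), (0x32618495, 4), (0x328594a0, 4), (0x41708695, 4), (0x32618495, 4), (0x658491a7, 4)]⟩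

def c_4803 : frmChk tA tB F_4803 = true := by decide +kernel

def r_4803_0 : chkL rootF engF2 tA tB sA_425 sB_425 4 F_4803 [(511, 0, 0)]
    0x1 = true := by
  decide +kernel

theorem f_4803 (h : TabsF) : FrameF repsF 425 F_4803.f :=
  frame_of rfl c_4803 (runs_of engOK r_4803_0) (by decide +kernel) h.1 h.2

def F_4804 : FrX :=
  ⟨0x2002000900044004000e02041000141000800040808000202800a0001081200200012200110050102044001201002004000008a0008002080012100c0011,
    0xa3, 1, 0x213241617095a3, 7,
    [(0xa3, 1), (0x208693a5, 4), (0x10548793, 4), (0x217693a4, 4), (0x208693a5, 4), (0x10548793, 4)],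
    [(0x213241617095a3, 7), (0x738290a4, 4), (0x40517692, 4), (0x425190a8, 4), (0x40517692, 4), (0x426398a0, 4), (0x517384a2, 4), (0x425190a8, 4), (0x517384a2, 4), (0x207694a8, 4), (0x425190a8, 4), (0x426398a0, 4)]⟩

def c_4804 : frmChk tA tB F_4804 = true := by decide +kernel

def r_4804_0 : chkL rootF engF2 tA tB sA_425 sB_425 4 F_4804 [(511, 0, 0)]
    0x10e81d = true := by
  decide +kernel

theorem f_4804 (h : TabsF) : FrameF repsF 425 F_4804.f :=
  frame_of rfl c_4804 (runs_of engOK r_4804_0) (by decide +kernel) h.1 h.2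

def F_4805 : FrX :=
  ⟨0x2002000900044004000e02041000141000800040801000228020002100012108200020210100005000180011080440040300082010880808002003402000,
    0xa3, 1, 0x32425364708291a3, 8,
    [(0xa3, 1), (0x208693a5, 4), (0x10548793, 4), (0x217693a4, 4), (0x208693a5, 4), (0x10548793, 4)],
    [(0x32425364708291a3, 8), (0x435187a2, 4), (0x40516297, 4), (0x305198a6, 4), (0x435187a2, 4), (0x40516297, 4)]⟩

def c_4805 : frmChk tA tA F_4805 = true := by decide +kernel

def r_4805_0 : chkL rootF engF2 tA tA sA_425 sA_425 4 F_4805 [(511, 0, 0)]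
    0x692e080f06c8b13a4a = true := by
  decide +kernel

theorem f_4805 (h : TabsF) : FrameF repsF 425 F_4805.f :=
  frame_of rfl c_4805 (runs_of engOK r_4805_0) (by decide +kernel) h.1 h.1

def F_4806 : FrX :=
  ⟨0x80080a000804040e0000210100200100000204089008000031000080880008101110040100850042005008001401000104004800200008a100020608080,
    0xa6, 1, 0x4362708591a6, 6,
    [(0xa6, 1), (0x205396a8, 4), (0x10548796, 4), (0x214396a7, 4), (0x205396a8, 4), (0x10548796, 4)],
    [(0x4362708591a6, 6), (0x217684a5, 4), (0x21508397, 4), (0x214396a0, 4), (0x217684a5, 4), (0x21508397, 4)]⟩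

def c_4806 : frmChk tA tA F_4806 = true := by decide +kernel

def r_4806_0 : chkL rootF engF2 tA tA sA_425 sA_425 4 F_4806 [(511, 0, 0)]
    0x1 = true := by
  decide +kernel

theorem f_4806 (h : TabsF) : FrameF repsF 425 F_4806.f :=
  frame_of rfl c_4806 (runs_of engOK r_4806_0) (by decide +kernel) h.1 h.1

def F_4807 : FrX :=
  ⟨0x80080a000804040e0000210100200100000204089008000030401000822000850001401000008410008180110045000024004103000050a100100040080,
    0xa6, 1, 0x10214054748596a0, 8,
    [(0xa6, 1), (0x205396a8, 4), (0x10548796, 4), (0x214396a7, 4), (0x205396a8, 4), (0x10548796, 4)],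
    [(0x10214054748596a0, 8), (0x648391a0, 4), (0x516487a2, 4), (0x20647395, 4), (0x648391a0, 4), (0x516487a2, 4)]⟩

def c_4807 : frmChk tA tA F_4807 = true := by decide +kernel

def r_4807_0 : chkL rootF engF2 tA tA sA_425 sA_425 4 F_4807 [(511, 0, 0)]
    0x111c2b03e1a0ae2678342a8463386a1e0a85e1123 = true := by
  decide +kernel

theorem f_4807 (h : TabsF) : FrameF repsF 425 F_4807.f :=
  frame_of rfl c_4807 (runs_of engOK r_4807_0) (by decide +kernel) h.1 h.1

def F_4808 : FrX :=
  ⟨0x2002000900044004000e02041000141000800040810000081108004060810041200008004002009008080049004060000201820010000220044220010280,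
    0xa3, 1, 0x32638696a2, 5,
    [(0xa3, 1), (0x208693a5, 4), (0x10548793, 4), (0x217693a4, 4), (0x208693a5, 4), (0x10548793, 4)],
    [(0x32638696a2, 5), (0x427596a0, 4), (0x10548397, 4), (0x62758394, 4), (0x10548397, 4), (0x527694a1, 4), (0x648392a0, 4), (0x62758394, 4), (0x648392a0, 4), (0x10627495, 4), (0x62758394, 4), (0x527694a1, 4)]⟩

def c_4808 : frmChk tA tB F_4808 = true := by decide +kernel

def r_4808_0 : chkL rootF engF2 tA tB sA_425 sB_425 4 F_4808 [(511, 0, 0)]
    0x1 = true := by
  decide +kernel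

theorem f_4808 (h : TabsF) : FrameF repsF 425 F_4808.f :=
  frame_of rfl c_4808 (runs_of engOK r_4808_0) (by decide +kernel) h.1 h.2

def F_4809 : FrX :=
  ⟨0x1c4044000008081000000840080410000101084042200100010020010001040440212001080204020101200109808020100001220110088004008022004,
    0x0, 0, 0x53657485, 4,
    [(0x0, 0), (0x20637584, 4), (0x105476a9, 4), (0x647583a9, 4), (0x105476a9, 4), (0x21647385, 4), (0x204386a9, 4), (0x647583a9, 4), (0x204386a9, 4), (0x10657483, 4), (0x647583a9, 4), (0x21647385, 4)],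
    [(0x53657485, 4), (0x206385a9, 4), (0x106487a9, 4), (0x214375a9, 4), (0x206385a9, 4), (0x106487a9, 4)]⟩

def c_4809 : frmChk tB tA F_4809 = true := by decide +kernel

def r_4809_0 : chkL rootF engF2 tB tA sB_425 sA_425 4 F_4809 [(511, 0, 0)]
    0x10ac1e24caa = true := by
  decide +kernel

theorem f_4809 (h : TabsF) : FrameF repsF 425 F_4809.f :=
  frame_of rfl c_4809 (runs_of engOK r_4809_0) (by decide +kernel) h.2 h.1

def F_4810 : FrX :=
  ⟨0x1001040012008080000e00840800410008101000040808048008028001080082080000882100100240004414820004202100000111020500108000801100,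
    0xa3, 1, 0x415062718197a8, 7,
    [(0xa3, 1), (0x207584a6, 4), (0x10547693, 4), (0x647593a8, 4), (0x10547693, 4), (0x216485a7, 4), (0x208693a4, 4), (0x647593a8, 4), (0x208693a4, 4), (0x106574a8, 4), (0x647593a8, 4), (0x216485a7, 4)],
    [(0x415062718197a8, 7), (0x306574a2, 4), (0x107485a9, 4), (0x31748692, 4), (0x306574a2, 4), (0x107485a9, 4)]⟩

def c_4810 : frmChk tB tA F_4810 = true := by decide +kernel

def r_4810_0 : chkL rootF engF2 tB tA sB_425 sA_425 4 F_4810 [(511, 0, 0)]
    0x1 = true := by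
  decide +kernel

theorem f_4810 (h : TabsF) : FrameF repsF 425 F_4810.f :=
  frame_of rfl c_4810 (runs_of engOK r_4810_0) (by decide +kernel) h.2 h.1

def F_4811 : FrX :=
  ⟨0x1001040012008080000e00840800410008101000040808048008400021080080084100802100100240010008011001202404008802820400108008801080,
    0xa3, 1, 0x5261738094a3, 6,
    [(0xa3, 1), (0x207584a6, 4), (0x10547693, 4), (0x647593a8, 4), (0x10547693, 4), (0x216485a7, 4), (0x208693a4, 4), (0x647593a8, 4), (0x208693a4, 4), (0x106574a8, 4), (0x647593a8, 4), (0x216485a7, 4)],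
    [(0x5261738094a3, 6), (0x328590a1, 4), (0x31748692, 4), (0x327491a0, 4), (0x31748692, 4), (0x206591a3, 4), (0x107485a9, 4), (0x327491a0, 4), (0x107485a9, 4), (0x218693a0, 4), (0x327491a0, 4), (0x206591a3, 4)]⟩

def c_4811 : frmChk tB tB F_4811 = true := by decide +kernel

def r_4811_0 : chkL rootF engF2 tB tB sB_425 sB_425 4 F_4811 [(511, 0, 0)]
    0x1 = true := by
  decide +kernel

theorem f_4811 (h : TabsF) : FrameF repsF 425 F_4811.f :=
  frame_of rfl c_4811 (runs_of engOK r_4811_0) (by decide +kernel) h.2 h.2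

def F_4812 : FrX :=
  ⟨0x2002000900044004000e02041000141000800040800801014038000008000182100204004024000410800202000040000300801030028920100040050280,
    0xa3, 1, 0x4150627398a3, 6,
    [(0xa3, 1), (0x208693a5, 4), (0x10548793, 4), (0x217693a4, 4), (0x208693a5, 4), (0x10548793, 4)],
    [(0x4150627398a3, 6), (0x658792a0, 4), (0x10548793, 4), (0x326487a1, 4), (0x658792a0, 4), (0x10548793, 4)]⟩

def c_4812 : frmChk tA tA F_4812 = true := by decide +kernel

def r_4812_0 : chkL rootF engF2 tA tA sA_425 sA_425 4 F_4812 [(511, 0, 0)]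
    0x1 = true := by
  decide +kernel

theorem f_4812 (h : TabsF) : FrameF repsF 425 F_4812.f :=
  frame_of rfl c_4812 (runs_of engOK r_4812_0) (by decide +kernel) h.1 h.1

theorem cl_425 (h : TabsF) : ∀ f ∈ fr_425, FrameF repsF 425 f :=
  List.forall_mem_cons.2 ⟨f_4797 h, List.forall_mem_cons.2 ⟨f_4798 h, List.forall_mem_cons.2 ⟨f_4799 h, List.forall_mem_cons.2 ⟨f_4800 h, List.forall_mem_cons.2 ⟨f_4801 h, List.forall_mem_cons.2 ⟨f_4802 h, List.forall_mem_cons.2 ⟨f_4803 h, List.forall_mem_cons.2 ⟨f_4804 h, List.forall_mem_cons.2 ⟨f_4805 h, List.forall_mem_cons.2 ⟨f_4806 h, List.forall_mem_cons.2 ⟨f_4807 h, List.forall_mem_cons.2 ⟨f_4808 h, List.forall_mem_cons.2 ⟨f_4809 h, List.forall_mem_cons.2 ⟨f_4810 h, List.forall_mem_cons.2 ⟨f_4811 h, List.forall_mem_cons.2 ⟨f_4812 h,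
    fun _ h0 => absurd h0 List.not_mem_nil⟩⟩⟩⟩⟩⟩⟩⟩⟩⟩⟩⟩⟩⟩⟩⟩

def F_4813 : FrX :=
  ⟨0x482000044040440000c2040020009000182040010020028008000030020428208400001001081010020031100401400048008008a08800040802000090,
    0xa0, 1, 0x213251657090a6, 7,
    [(0xa0, 1), (0x538690a2, 4), (0x548790a1, 4), (0x21437690, 4), (0x538690a2, 4), (0x548790a1, 4)],
    [(0x213251657090a6, 7), (0x617293a8, 4), (0x64728095, 4), (0x415372a0, 4), (0x617293a8, 4), (0x64728095, 4)]⟩

def c_4813 : frmChk tA tA F_4813 = true := by decide +kernel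

def r_4813_0 : chkL rootF engF2 tA tA sA_426 sA_426 4 F_4813 [(511, 0, 0)]
    0x1 = true := by
  decide +kernel

theorem f_4813 (h : TabsF) : FrameF repsF 426 F_4813.f :=
  frame_of rfl c_4813 (runs_of engOK r_4813_0) (by decide +kernel) h.1 h.1

def F_4814 : FrX :=
  ⟨0x482000044040440000c204002000900018204000110040800810000400018220860000110100040080040910110140004800800a200800700010008004,
    0xa0, 1, 0x4052657591a7, 6,
    [(0xa0, 1), (0x538690a2, 4), (0x548790a1, 4), (0x21437690, 4), (0x538690a2, 4), (0x548790a1, 4)],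
    [(0x4052657591a7, 6), (0x54617382, 4), (0x617094a8, 4), (0x306195a2, 4), (0x54617382, 4), (0x617094a8, 4)]⟩

def c_4814 : frmChk tA tA F_4814 = true := by decide +kernel

def r_4814_0 : chkL rootF engF2 tA tA sA_426 sA_426 4 F_4814 [(511, 0, 0)]
    0x1 = true := by
  decide +kernel

theorem f_4814 (h : TabsF) : FrameF repsF 426 F_4814.f :=
  frame_of rfl c_4814 (runs_of engOK r_4814_0) (by decide +kernel) h.1 h.1

def F_4815 : FrX :=
  ⟨0x80080a000804040e000021010020010000020408804810001200048000822020080804014000802100402011120004080046080004102804020c0000010,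
    0xa6, 1, 0x10435064718491a3, 8,
    [(0xa6, 1), (0x205396a8, 4), (0x10548796, 4), (0x214396a7, 4), (0x205396a8, 4), (0x10548796, 4)],
    [(0x10435064718491a3, 8), (0x526374a1, 4), (0x60748195, 4), (0x307492a8, 4), (0x526374a1, 4), (0x60748195, 4)]⟩

def c_4815 : frmChk tA tA F_4815 = true := by decide +kernel

def r_4815_0 : chkL rootF engF2 tA tA sA_426 sA_426 4 F_4815 [(511, 0, 0)]
    0x439 = true := by
  decide +kernel

theorem f_4815 (h : TabsF) : FrameF repsF 426 F_4815.f :=
  frame_of rfl c_4815 (runs_of engOK r_4815_0) (by decide +kernel) h.1 h.1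

def F_4816 : FrX :=
  ⟨0x2002000900044004000e02041000141000800040800401021090200010202101000204010020030404020201080008108040020011a00000404021408200,
    0xa3, 1, 0x204165738298a8, 7,
    [(0xa3, 1), (0x208693a5, 4), (0x10548793, 4), (0x217693a4, 4), (0x208693a5, 4), (0x10548793, 4)],
    [(0x204165738298a8, 7), (0x768290a5, 4), (0x426190a3, 4), (0x53718490, 4), (0x768290a5, 4), (0x426190a3, 4)]⟩

def c_4816 : frmChk tA tA F_4816 = true := by decide +kernel

def r_4816_0 : chkL rootF engF2 tA tA sA_426 sA_426 4 F_4816 [(511, 0, 0)]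
    0x41b = true := by
  decide +kernel

theorem f_4816 (h : TabsF) : FrameF repsF 426 F_4816.f :=
  frame_of rfl c_4816 (runs_of engOK r_4816_0) (by decide +kernel) h.1 h.1

def F_4817 : FrX :=
  ⟨0x2002000900044004000e02041000141000800040800802010808024002a00040000103020008500024020098800000101100800040408008004042094080,
    0xa3, 1, 0x103251637397a3, 7,
    [(0xa3, 1), (0x208693a5, 4), (0x10548793, 4), (0x217693a4, 4), (0x208693a5, 4), (0x10548793, 4)],
    [(0x103251637397a3, 7), (0x318490a2, 4), (0x40517692, 4), (0x427690a8, 4), (0x40517692, 4), (0x425380a9, 4), (0x317682a4, 4), (0x427690a8, 4), (0x317682a4, 4), (0x205194a8, 4), (0x427690a8, 4), (0x425380a9, 4)]⟩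

def c_4817 : frmChk tA tB F_4817 = true := by decide +kernel

def r_4817_0 : chkL rootF engF2 tA tB sA_426 sB_426 4 F_4817 [(511, 0, 0)]
    0x1 = true := by
  decide +kernel

theorem f_4817 (h : TabsF) : FrameF repsF 426 F_4817.f :=
  frame_of rfl c_4817 (runs_of engOK r_4817_0) (by decide +kernel) h.1 h.2

def F_4818 : FrX :=
  ⟨0x80080a000804040e000021010020010000020408804210020200048000802025000800500200310000210011021005081000c0012000600500040800200,
    0xa6, 1, 0x4153738796a1, 6,
    [(0xa6, 1), (0x205396a8, 4), (0x10548796, 4), (0x214396a7, 4), (0x205396a8, 4), (0x10548796, 4)],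
    [(0x4153738796a1, 6), (0x20647395, 4), (0x316485a0, 4), (0x647198a2, 4), (0x20647395, 4), (0x316485a0, 4)]⟩

def c_4818 : frmChk tA tA F_4818 = true := by decide +kernel

def r_4818_0 : chkL rootF engF2 tA tA sA_426 sA_426 4 F_4818 [(511, 0, 0)]
    0x109c0f03c47 = true := by
  decide +kernel

theorem f_4818 (h : TabsF) : FrameF repsF 426 F_4818.f :=
  frame_of rfl c_4818 (runs_of engOK r_4818_0) (by decide +kernel) h.1 h.1

def F_4819 : FrX :=
  ⟨0x2002000900044004000e020410001410008000408010010210102000602040410002010010280010102400110140080080400080806080004050200a1000,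
    0xa3, 1, 0x54728293a2, 5,
    [(0xa3, 1), (0x208693a5, 4), (0x10548793, 4), (0x217693a4, 4), (0x208693a5, 4), (0x10548793, 4)],
    [(0x54728293a2, 5), (0x427596a0, 4), (0x10546283, 4), (0x42658397, 4), (0x10546283, 4), (0x657492a1, 4), (0x768395a0, 4), (0x42658397, 4), (0x768395a0, 4), (0x10526497, 4), (0x42658397, 4), (0x657492a1, 4)]⟩

def c_4819 : frmChk tA tB F_4819 = true := by decide +kernel

def r_4819_0 : chkL rootF engF2 tA tB sA_426 sB_426 4 F_4819 [(511, 0, 0)]
    0x1 = true := by
  decide +kernel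

theorem f_4819 (h : TabsF) : FrameF repsF 426 F_4819.f :=
  frame_of rfl c_4819 (runs_of engOK r_4819_0) (by decide +kernel) h.1 h.2

def F_4820 : FrX :=
  ⟨0x1c2102000004044000002041000101000082040890040100008002008100084040088410000030202100808e00084004281010040200402440002200001,
    0x0, 0, 0x43647584, 4,
    [(0x0, 0), (0x205386a9, 4), (0x105487a9, 4), (0x214376a9, 4), (0x205386a9, 4), (0x105487a9, 4)],
    [(0x43647584, 4), (0x206374a9, 4), (0x106587a9, 4), (0x215384a9, 4), (0x206374a9, 4), (0x106587a9, 4)]⟩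

def c_4820 : frmChk tA tA F_4820 = true := by decide +kernel

def r_4820_0 : chkL rootF engF2 tA tA sA_426 sA_426 4 F_4820 [(511, 0, 0)]
    0x1 = true := by
  decide +kernel

theorem f_4820 (h : TabsF) : FrameF repsF 426 F_4820.f :=
  frame_of rfl c_4820 (runs_of engOK r_4820_0) (by decide +kernel) h.1 h.1

def F_4821 : FrX :=
  ⟨0x2002000900044004000e0204100014100080004080040044800840001081004010008c002102001040020008401001202004020005020224040140010120,
    0xa3, 1, 0x304354638590a6, 7,
    [(0xa3, 1), (0x208693a5, 4), (0x10548793, 4), (0x217693a4, 4), (0x208693a5, 4), (0x10548793, 4)],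
    [(0x304354638590a6, 7), (0x438692a0, 4), (0x43708591, 4), (0x214365a7, 4), (0x438692a0, 4), (0x43708591, 4)]⟩

def c_4821 : frmChk tA tA F_4821 = true := by decide +kernel

def r_4821_0 : chkL rootF engF2 tA tA sA_426 sA_426 4 F_4821 [(511, 0, 0)]
    0x1 = true := by
  decide +kernel

theorem f_4821 (h : TabsF) : FrameF repsF 426 F_4821.f :=
  frame_of rfl c_4821 (runs_of engOK r_4821_0) (by decide +kernel) h.1 h.1

def F_4822 : FrX :=
  ⟨0x482000044040440000c204002000900018204000108102000102080004004420040029004002010008040060400400c100401210850020001010008208,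
    0xa0, 1, 0x5464748693a1, 6,
    [(0xa0, 1), (0x538690a2, 4), (0x548790a1, 4), (0x21437690, 4), (0x538690a2, 4), (0x548790a1, 4)],
    [(0x5464748693a1, 6), (0x20318594, 4), (0x316574a0, 4), (0x318697a2, 4), (0x20318594, 4), (0x316574a0, 4)]⟩

def c_4822 : frmChk tA tA F_4822 = true := by decide +kernel

def r_4822_0 : chkL rootF engF2 tA tA sA_426 sA_426 4 F_4822 [(511, 0, 0)]
    0x1 = true := by
  decide +kernel

theorem f_4822 (h : TabsF) : FrameF repsF 426 F_4822.f :=
  frame_of rfl c_4822 (runs_of engOK r_4822_0) (by decide +kernel) h.1 h.1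

def F_4823 : FrX :=
  ⟨0x2002000900044004000e0204100014100080004081000008208080240200408014028000400400411200081040000280008208002200300040120240200a,
    0xa3, 1, 0x2043517391a4, 6,
    [(0xa3, 1), (0x208693a5, 4), (0x10548793, 4), (0x217693a4, 4), (0x208693a5, 4), (0x10548793, 4)],
    [(0x2043517391a4, 6), (0x204176a8, 4), (0x536492a1, 4), (0x415387a6, 4), (0x536492a1, 4), (0x748190a6, 4), (0x205386a7, 4), (0x415387a6, 4), (0x205386a7, 4), (0x618792a4, 4), (0x415387a6, 4), (0x748190a6, 4)]⟩

def c_4823 : frmChk tA tB F_4823 = true := by decide +kernel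

def r_4823_0 : chkL rootF engF2 tA tB sA_426 sB_426 4 F_4823 [(511, 0, 0)]
    0x41b = true := by
  decide +kernel

theorem f_4823 (h : TabsF) : FrameF repsF 426 F_4823.f :=
  frame_of rfl c_4823 (runs_of engOK r_4823_0) (by decide +kernel) h.1 h.2

def F_4824 : FrX :=
  ⟨0x80080a000804040e00002101002001000002040890080000480808400808084004802002002022000020800601002240100080006082022002019800020,
    0xa6, 1, 0x314351738293a0, 7,
    [(0xa6, 1), (0x205396a8, 4), (0x10548796, 4), (0x214396a7, 4), (0x205396a8, 4), (0x10548796, 4)],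
    [(0x314351738293a0, 7), (0x627093a8, 4), (0x314270a5, 4), (0x64708591, 4), (0x627093a8, 4), (0x314270a5, 4)]⟩

def c_4824 : frmChk tA tA F_4824 = true := by decide +kernel

def r_4824_0 : chkL rootF engF2 tA tA sA_426 sA_426 4 F_4824 [(511, 0, 0)]
    0x1 = true := by
  decide +kernel

theorem f_4824 (h : TabsF) : FrameF repsF 426 F_4824.f :=
  frame_of rfl c_4824 (runs_of engOK r_4824_0) (by decide +kernel) h.1 h.1

def F_4825 : FrX :=
  ⟨0x482000044040440000c20400200090001820400008211000200001820040202080c000088800101000300004e000802028040210000604010220000201,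
    0xa0, 1, 0x4152718096a1, 6,
    [(0xa0, 1), (0x538690a2, 4), (0x548790a1, 4), (0x21437690, 4), (0x538690a2, 4), (0x548790a1, 4)],
    [(0x4152718096a1, 6), (0x10428593, 4), (0x217694a8, 4), (0x30427691, 4), (0x217694a8, 4), (0x204391a5, 4), (0x31768590, 4), (0x30427691, 4), (0x31768590, 4), (0x304192a8, 4), (0x30427691, 4), (0x204391a5, 4)]⟩

def c_4825 : frmChk tA tB F_4825 = true := by decide +kernel

def r_4825_0 : chkL rootF engF2 tA tB sA_426 sB_426 4 F_4825 [(511, 0, 0)]
    0x1 = true := by
  decide +kernel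

theorem f_4825 (h : TabsF) : FrameF repsF 426 F_4825.f :=
  frame_of rfl c_4825 (runs_of engOK r_4825_0) (by decide +kernel) h.1 h.2

def F_4826 : FrX :=
  ⟨0x80080a000804040e0000210100200100000204089008000030401000822000850001400100108200004080110041008004004103002050a100900040080,
    0xa6, 1, 0x10214054748596a0, 8,
    [(0xa6, 1), (0x205396a8, 4), (0x10548796, 4), (0x214396a7, 4), (0x205396a8, 4), (0x10548796, 4)],
    [(0x10214054748596a0, 8), (0x648391a0, 4), (0x516487a2, 4), (0x20647395, 4), (0x648391a0, 4), (0x516487a2, 4)]⟩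

def c_4826 : frmChk tA tA F_4826 = true := by decide +kernel

def r_4826_0 : chkL rootF engF2 tA tA sA_426 sA_426 4 F_4826 [(511, 0, 0)]
    0x114c530ac6c = true := by
  decide +kernel

theorem f_4826 (h : TabsF) : FrameF repsF 426 F_4826.f :=
  frame_of rfl c_4826 (runs_of engOK r_4826_0) (by decide +kernel) h.1 h.1

def F_4827 : FrX :=
  ⟨0x482000044040440000c2040020009000182040001100408001200020000c08014820000902000401000101080220040000086010804422000a02880008,
    0xa0, 1, 0x104363748490a3, 7,
    [(0xa0, 1), (0x538690a2, 4), (0x548790a1, 4), (0x21437690, 4), (0x538690a2, 4), (0x548790a1, 4)],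
    [(0x104363748490a3, 7), (0x617492a5, 4), (0x61738590, 4), (0x204361a8, 4), (0x617492a5, 4), (0x61738590, 4)]⟩

def c_4827 : frmChk tA tA F_4827 = true := by decide +kernel

def r_4827_0 : chkL rootF engF2 tA tA sA_426 sA_426 4 F_4827 [(511, 0, 0)]
    0x1 = true := by
  decide +kernel

theorem f_4827 (h : TabsF) : FrameF repsF 426 F_4827.f :=
  frame_of rfl c_4827 (runs_of engOK r_4827_0) (by decide +kernel) h.1 h.1

def F_4828 : FrX :=
  ⟨0x2002000900044004000e0204100014100080004081001804801000011080200120010010400200848000910400101000021081084004000044420001c200,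
    0xa3, 1, 0x32637286a2, 5,
    [(0xa3, 1), (0x208693a5, 4), (0x10548793, 4), (0x217693a4, 4), (0x208693a5, 4), (0x10548793, 4)],
    [(0x32637286a2, 5), (0x425386a0, 4), (0x10548397, 4), (0x53628497, 4), (0x10548397, 4), (0x526384a1, 4), (0x648297a0, 4), (0x53628497, 4), (0x648297a0, 4), (0x10436285, 4), (0x53628497, 4), (0x526384a1, 4)]⟩

def c_4828 : frmChk tA tB F_4828 = true := by decide +kernel

def r_4828_0 : chkL rootF engF2 tA tB sA_426 sB_426 4 F_4828 [(511, 0, 0)]
    0x1 = true := by
  decide +kernel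

theorem f_4828 (h : TabsF) : FrameF repsF 426 F_4828.f :=
  frame_of rfl c_4828 (runs_of engOK r_4828_0) (by decide +kernel) h.1 h.2

def F_4829 : FrX :=
  ⟨0x2002000900044004000e020410001410008000408010002280200021000121082000202011010010400400110004000c0100082010880809002803402000,
    0xa3, 1, 0x21304163718092a5, 8,
    [(0xa3, 1), (0x208693a5, 4), (0x10548793, 4), (0x217693a4, 4), (0x208693a5, 4), (0x10548793, 4)],
    [(0x21304163718092a5, 8), (0x305198a6, 4), (0x435187a2, 4), (0x40516297, 4), (0x305198a6, 4), (0x435187a2, 4)]⟩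

def c_4829 : frmChk tA tA F_4829 = true := by decide +kernel

def r_4829_0 : chkL rootF engF2 tA tA sA_426 sA_426 4 F_4829 [(511, 0, 0)]
    0x105c4e = true := by
  decide +kernel

theorem f_4829 (h : TabsF) : FrameF repsF 426 F_4829.f :=
  frame_of rfl c_4829 (runs_of engOK r_4829_0) (by decide +kernel) h.1 h.1

def F_4830 : FrX :=
  ⟨0x482000044040440000c204002000900018204001001010080080081002400820801201000035010200680008000801001400a00060020200a000010410,
    0xa0, 1, 0x205363718095a4, 7,
    [(0xa0, 1), (0x538690a2, 4), (0x548790a1, 4), (0x21437690, 4), (0x538690a2, 4), (0x548790a1, 4)],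
    [(0x205363718095a4, 7), (0x658091a2, 4), (0x435187a9, 4), (0x436291a5, 4), (0x435187a9, 4), (0x617092a5, 4), (0x435280a6, 4), (0x436291a5, 4), (0x435280a6, 4), (0x628795a1, 4), (0x436291a5, 4), (0x617092a5, 4)]⟩

def c_4830 : frmChk tA tB F_4830 = true := by decide +kernel

def r_4830_0 : chkL rootF engF2 tA tB sA_426 sB_426 4 F_4830 [(511, 0, 0)]
    0x436 = true := by
  decide +kernel

theorem f_4830 (h : TabsF) : FrameF repsF 426 F_4830.f :=
  frame_of rfl c_4830 (runs_of engOK r_4830_0) (by decide +kernel) h.1 h.2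

def F_4831 : FrX :=
  ⟨0x482000044040440000c2040020009000182040010080080101000180020104804820000804040410000220408008440014010310200080014020008084,
    0xa0, 1, 0x214262718798a5, 7,
    [(0xa0, 1), (0x538690a2, 4), (0x548790a1, 4), (0x21437690, 4), (0x538690a2, 4), (0x548790a1, 4)],
    [(0x214262718798a5, 7), (0x526094a3, 4), (0x527098a1, 4), (0x31527684, 4), (0x526094a3, 4), (0x527098a1, 4)]⟩

def c_4831 : frmChk tA tA F_4831 = true := by decide +kernel

def r_4831_0 : chkL rootF engF2 tA tA sA_426 sA_426 4 F_4831 [(511, 0, 0)]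
    0x105c35 = true := by
  decide +kernel

theorem f_4831 (h : TabsF) : FrameF repsF 426 F_4831.f :=
  frame_of rfl c_4831 (runs_of engOK r_4831_0) (by decide +kernel) h.1 h.1

def F_4832 : FrX :=
  ⟨0x1c21020000040440000020410001010000820408a000110000008210020210100020404002404101280000c089008440300000011080020404020600200,
    0x0, 0, 0x21537386, 4,
    [(0x0, 0), (0x205386a9, 4), (0x105487a9, 4), (0x214376a9, 4), (0x205386a9, 4), (0x105487a9, 4)],
    [(0x21537386, 4), (0x10536487, 4), (0x204385a9, 4), (0x537684a9, 4), (0x204385a9, 4), (0x21637584, 4), (0x107486a9, 4), (0x537684a9, 4), (0x107486a9, 4), (0x20547683, 4), (0x537684a9, 4), (0x21637584, 4)]⟩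

def c_4832 : frmChk tA tB F_4832 = true := by decide +kernel

def r_4832_0 : chkL rootF engF2 tA tB sA_426 sB_426 4 F_4832 [(511, 0, 0)]
    0x44e0d634134ac = true := by
  decide +kernel

theorem f_4832 (h : TabsF) : FrameF repsF 426 F_4832.f :=
  frame_of rfl c_4832 (runs_of engOK r_4832_0) (by decide +kernel) h.1 h.2

def F_4833 : FrX :=
  ⟨0x2002000900044004000e0204100014100080004080080101403800000800018210020400402400101280000e001000000300801030080820500010200201,
    0xa3, 1, 0x4150627398a3, 6,
    [(0xa3, 1), (0x208693a5, 4), (0x10548793, 4), (0x217693a4, 4), (0x208693a5, 4), (0x10548793, 4)],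
    [(0x4150627398a3, 6), (0x658792a0, 4), (0x10548793, 4), (0x326487a1, 4), (0x658792a0, 4), (0x10548793, 4)]⟩

def c_4833 : frmChk tA tA F_4833 = true := by decide +kernel

def r_4833_0 : chkL rootF engF2 tA tA sA_426 sA_426 4 F_4833 [(511, 0, 0)]
    0x125496 = true := by
  decide +kernel

theorem f_4833 (h : TabsF) : FrameF repsF 426 F_4833.f :=
  frame_of rfl c_4833 (runs_of engOK r_4833_0) (by decide +kernel) h.1 h.1

def F_4834 : FrX :=
  ⟨0x80080a000804040e000021010020010000020408900200014080108082400040200110100060210000c8000818001002024001006001020240080808080,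
    0xa6, 1, 0x304151657296a8, 7,
    [(0xa6, 1), (0x205396a8, 4), (0x10548796, 4), (0x214396a7, 4), (0x205396a8, 4), (0x10548796, 4)],
    [(0x304151657296a8, 7), (0x627390a1, 4), (0x53618492, 4), (0x628491a0, 4), (0x53618492, 4), (0x207591a6, 4), (0x107384a9, 4), (0x628491a0, 4), (0x107384a9, 4), (0x215396a0, 4), (0x628491a0, 4), (0x207591a6, 4)]⟩

def c_4834 : frmChk tA tB F_4834 = true := by decide +kernel

def r_4834_0 : chkL rootF engF2 tA tB sA_426 sB_426 4 F_4834 [(511, 0, 0)]
    0x1 = true := by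
  decide +kernel

theorem f_4834 (h : TabsF) : FrameF repsF 426 F_4834.f :=
  frame_of rfl c_4834 (runs_of engOK r_4834_0) (by decide +kernel) h.1 h.2

def F_4835 : FrX :=
  ⟨0x80080a000804040e00002101002001000002040881200002204400100080080084128020008004412044800400211100000110041000804240110100002,
    0xa6, 1, 0x20304153627495a0, 8,
    [(0xa6, 1), (0x205396a8, 4), (0x10548796, 4), (0x214396a7, 4), (0x205396a8, 4), (0x10548796, 4)],
    [(0x20304153627495a0, 8), (0x508791a6, 4), (0x103297a4, 4), (0x32708591, 4), (0x103297a4, 4), (0x51647098, 4), (0x327580a6, 4), (0x32708591, 4), (0x327580a6, 4), (0x718590a4, 4), (0x32708591, 4), (0x51647098, 4)]⟩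

def c_4835 : frmChk tA tB F_4835 = true := by decide +kernel

def r_4835_0 : chkL rootF engF2 tA tB sA_426 sB_426 4 F_4835 [(511, 0, 0)]
    0x1 = true := by
  decide +kernel

theorem f_4835 (h : TabsF) : FrameF repsF 426 F_4835.f :=
  frame_of rfl c_4835 (runs_of engOK r_4835_0) (by decide +kernel) h.1 h.2

def F_4836 : FrX :=
  ⟨0x2002000900044004000e0204100014100080004080040204041002020880088200008800410205020a00000a000410000280810020080010082080210120,
    0xa3, 1, 0x213060768292a3, 7,
    [(0xa3, 1), (0x208693a5, 4), (0x10548793, 4), (0x217693a4, 4), (0x208693a5, 4), (0x10548793, 4)],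
    [(0x213060768292a3, 7), (0x718096a5, 4), (0x31546280, 4), (0x738092a4, 4), (0x718096a5, 4), (0x31546280, 4)]⟩

def c_4836 : frmChk tA tA F_4836 = true := by decide +kernel

def r_4836_0 : chkL rootF engF2 tA tA sA_426 sA_426 4 F_4836 [(511, 0, 0)]
    0x13c0f0 = true := by
  decide +kernel

theorem f_4836 (h : TabsF) : FrameF repsF 426 F_4836.f :=
  frame_of rfl c_4836 (runs_of engOK r_4836_0) (by decide +kernel) h.1 h.1

def F_4837 : FrX :=
  ⟨0x482000044040440000c20400200090001820400020205000080803000400218000401118200090000000800c4808000100001280440120044040210200,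
    0xa0, 1, 0x3242547298a7, 6,
    [(0xa0, 1), (0x538690a2, 4), (0x548790a1, 4), (0x21437690, 4), (0x538690a2, 4), (0x548790a1, 4)],
    [(0x3242547298a7, 6), (0x627095a3, 4), (0x105384a6, 4), (0x658492a3, 4), (0x105384a6, 4), (0x657193a2, 4), (0x52708496, 4), (0x658492a3, 4), (0x52708496, 4), (0x106392a5, 4), (0x658492a3, 4), (0x657193a2, 4)]⟩

def c_4837 : frmChk tA tB F_4837 = true := by decide +kernel

def r_4837_0 : chkL rootF engF2 tA tB sA_426 sB_426 4 F_4837 [(511, 0, 0)]
    0x1 = true := by
  decide +kernel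

theorem f_4837 (h : TabsF) : FrameF repsF 426 F_4837.f :=
  frame_of rfl c_4837 (runs_of engOK r_4837_0) (by decide +kernel) h.1 h.2

def F_4838 : FrX :=
  ⟨0x1001040012008080000e00840800410008101000044020080041400022000810048048004020010208004800800810200000811204000440023002205010,
    0xa3, 1, 0x304160708295a7, 7,
    [(0xa3, 1), (0x207584a6, 4), (0x10547693, 4), (0x647593a8, 4), (0x10547693, 4), (0x216485a7, 4), (0x208693a4, 4), (0x647593a8, 4), (0x208693a4, 4), (0x106574a8, 4), (0x647593a8, 4), (0x216485a7, 4)],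
    [(0x304160708295a7, 7), (0x32658790, 4), (0x657491a2, 4), (0x106584a3, 4), (0x32658790, 4), (0x657491a2, 4)]⟩

def c_4838 : frmChk tB tA F_4838 = true := by decide +kernel

def r_4838_0 : chkL rootF engF2 tB tA sB_426 sA_426 4 F_4838 [(511, 0, 0)]
    0x1 = true := by
  decide +kernel

theorem f_4838 (h : TabsF) : FrameF repsF 426 F_4838.f :=
  frame_of rfl c_4838 (runs_of engOK r_4838_0) (by decide +kernel) h.2 h.1

def F_4839 : FrX :=
  ⟨0x1001040012008080000e0084080041000810100004200802402001000700008004820200120000882000101200040040d040200110800088090101000180,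
    0xa3, 1, 0x4051638297a3, 6,
    [(0xa3, 1), (0x207584a6, 4), (0x10547693, 4), (0x647593a8, 4), (0x10547693, 4), (0x216485a7, 4), (0x208693a4, 4), (0x647593a8, 4), (0x208693a4, 4), (0x106574a8, 4), (0x647593a8, 4), (0x216485a7, 4)],
    [(0x4051638297a3, 6), (0x208491a3, 4), (0x10547693, 4), (0x307691a2, 4), (0x10547693, 4), (0x213085a9, 4), (0x327684a0, 4), (0x307691a2, 4), (0x327684a0, 4), (0x315490a2, 4), (0x307691a2, 4), (0x213085a9, 4)]⟩

def c_4839 : frmChk tB tB F_4839 = true := by decide +kernel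

def r_4839_0 : chkL rootF engF2 tB tB sB_426 sB_426 4 F_4839 [(511, 0, 0)]
    0x1 = true := by
  decide +kernel

theorem f_4839 (h : TabsF) : FrameF repsF 426 F_4839.f :=
  frame_of rfl c_4839 (runs_of engOK r_4839_0) (by decide +kernel) h.2 h.2

def F_4840 : FrX :=
  ⟨0x1c2102000004044000002041000101000082040890080080000802400200404020404042004030408060140808010104108081004100020044002200080,
    0x0, 0, 0x53637486, 4,
    [(0x0, 0), (0x205386a9, 4), (0x105487a9, 4), (0x214376a9, 4), (0x205386a9, 4), (0x105487a9, 4)],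
    [(0x53637486, 4), (0x20437586, 4), (0x107384a9, 4), (0x436587a9, 4), (0x107384a9, 4), (0x21536487, 4), (0x207685a9, 4), (0x436587a9, 4), (0x207685a9, 4), (0x10657483, 4), (0x436587a9, 4), (0x21536487, 4)]⟩

def c_4840 : frmChk tA tB F_4840 = true := by decide +kernel

def r_4840_0 : chkL rootF engF2 tA tB sA_426 sB_426 4 F_4840 [(511, 0, 0)]
    0x42b11c1724cc683a46 = true := by
  decide +kernel

theorem f_4840 (h : TabsF) : FrameF repsF 426 F_4840.f :=
  frame_of rfl c_4840 (runs_of engOK r_4840_0) (by decide +kernel) h.1 h.2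

theorem cl_426 (h : TabsF) : ∀ f ∈ fr_426, FrameF repsF 426 f :=
  List.forall_mem_cons.2 ⟨f_4813 h, List.forall_mem_cons.2 ⟨f_4814 h, List.forall_mem_cons.2 ⟨f_4815 h, List.forall_mem_cons.2 ⟨f_4816 h, List.forall_mem_cons.2 ⟨f_4817 h, List.forall_mem_cons.2 ⟨f_4818 h, List.forall_mem_cons.2 ⟨f_4819 h, List.forall_mem_cons.2 ⟨f_4820 h, List.forall_mem_cons.2 ⟨f_4821 h, List.forall_mem_cons.2 ⟨f_4822 h, List.forall_mem_cons.2 ⟨f_4823 h, List.forall_mem_cons.2 ⟨f_4824 h, List.forall_mem_cons.2 ⟨f_4825 h, List.forall_mem_cons.2 ⟨f_4826 h, List.forall_mem_cons.2 ⟨f_4827 h, List.forall_mem_cons.2 ⟨f_4828 h, List.forall_mem_cons.2 ⟨f_4829 h, List.forall_mem_cons.2 ⟨f_4830 h, List.forall_mem_cons.2 ⟨f_4831 h, List.forall_mem_cons.2 ⟨f_4832 h, List.forall_mem_cons.2 ⟨f_4833 h, List.forall_mem_cons.2 ⟨f_4834 h, List.forall_mem_cons.2 ⟨f_4835 h, List.forall_mem_cons.2 ⟨f_4836 h, List.forall_mem_cons.2 ⟨f_4837 h, List.forall_mem_cons.2 ⟨f_4838 h, List.forall_mem_cons.2 ⟨f_4839 h, List.forall_mem_cons.2 ⟨f_4840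 h,
    fun _ h0 => absurd h0 List.not_mem_nil⟩⟩⟩⟩⟩⟩⟩⟩⟩⟩⟩⟩⟩⟩⟩⟩⟩⟩⟩⟩⟩⟩⟩⟩⟩⟩⟩⟩

def F_4841 : FrX :=
  ⟨0x2002000900044004000e02041000141000800040808001052000840402004080100100104020010280040400092010100040420005001028001110008090,
    0xa3, 1, 0x1020657582a6, 6,
    [(0xa3, 1), (0x208693a5, 4), (0x10548793, 4), (0x217693a4, 4), (0x208693a5, 4), (0x10548793, 4)],
    [(0x1020657582a6, 6), (0x738295a1, 4), (0x20617495, 4), (0x438095a6, 4), (0x738295a1, 4), (0x20617495, 4)]⟩

def c_4841 : frmChk tA tA F_4841 = true := by decide +kernel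

def r_4841_0 : chkL rootF engF2 tA tA sA_427 sA_427 4 F_4841 [(511, 0, 0)]
    0x40f03c4e = true := by
  decide +kernel

theorem f_4841 (h : TabsF) : FrameF repsF 427 F_4841.f :=
  frame_of rfl c_4841 (runs_of engOK r_4841_0) (by decide +kernel) h.1 h.1

def F_4842 : FrX :=
  ⟨0x2002000900044004000e02041000141000800040808002000320000208020a0b00000800210000420c000009090400121041020002201000000800213080,
    0xa3, 1, 0x103263748695a3, 7,
    [(0xa3, 1), (0x208693a5, 4), (0x10548793, 4), (0x217693a4, 4), (0x208693a5, 4), (0x10548793, 4)],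
    [(0x103263748695a3, 7), (0x316582a9, 4), (0x10426597, 4), (0x306584a7, 4), (0x316582a9, 4), (0x10426597, 4)]⟩

def c_4842 : frmChk tA tA F_4842 = true := by decide +kernel

def r_4842_0 : chkL rootF engF2 tA tA sA_427 sA_427 4 F_4842 [(511, 0, 0)]
    0x1 = true := by
  decide +kernel

theorem f_4842 (h : TabsF) : FrameF repsF 427 F_4842.f :=
  frame_of rfl c_4842 (runs_of engOK r_4842_0) (by decide +kernel) h.1 h.1

def F_4843 : FrX :=
  ⟨0x482000044040440000c2040020009000182040002020500008020010040024800010501081000180000800a01488200500001084048000044010808400,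
    0xa0, 1, 0x4251708495a7, 6,
    [(0xa0, 1), (0x538690a2, 4), (0x548790a1, 4), (0x21437690, 4), (0x538690a2, 4), (0x548790a1, 4)],
    [(0x4251708495a7, 6), (0x10627493, 4), (0x107598a2, 4), (0x105483a6, 4), (0x10627493, 4), (0x107598a2, 4)]⟩

def c_4843 : frmChk tA tA F_4843 = true := by decide +kernel

def r_4843_0 : chkL rootF engF2 tA tA sA_427 sA_427 4 F_4843 [(511, 0, 0)]
    0x4781a80f = true := by
  decide +kernel

theorem f_4843 (h : TabsF) : FrameF repsF 427 F_4843.f :=
  frame_of rfl c_4843 (runs_of engOK r_4843_0) (by decide +kernel) h.1 h.1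

def F_4844 : FrX :=
  ⟨0x80080a000804040e00002101002001000002040890010008084004100480008004181002008005008001021010601120100100041000804040985000000,
    0xa6, 1, 0x3253627493a6, 6,
    [(0xa6, 1), (0x205396a8, 4), (0x10548796, 4), (0x214396a7, 4), (0x205396a8, 4), (0x10548796, 4)],
    [(0x3253627493a6, 6), (0x426087a9, 4), (0x105372a4, 4), (0x425398a7, 4), (0x105372a4, 4), (0x618294a7, 4), (0x536097a8, 4), (0x425398a7, 4), (0x536097a8, 4), (0x107498a2, 4), (0x425398a7, 4), (0x618294a7, 4)]⟩

def c_4844 : frmChk tA tB F_4844 = true := by decide +kernel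

def r_4844_0 : chkL rootF engF2 tA tB sA_427 sB_427 4 F_4844 [(511, 0, 0)]
    0x41705c17 = true := by
  decide +kernel

theorem f_4844 (h : TabsF) : FrameF repsF 427 F_4844.f :=
  frame_of rfl c_4844 (runs_of engOK r_4844_0) (by decide +kernel) h.1 h.2

def F_4845 : FrX :=
  ⟨0x80080a000804040e000021010020010000020408804110040080440404400010008020600080100800411002940001011000800840100a8004024220000,
    0xa6, 1, 0x103243618595a0, 7,
    [(0xa6, 1), (0x205396a8, 4), (0x10548796, 4), (0x214396a7, 4), (0x205396a8, 4), (0x10548796, 4)],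
    [(0x103243618595a0, 7), (0x508194a3, 4), (0x758192a6, 4), (0x42637081, 4), (0x508194a3, 4), (0x758192a6, 4)]⟩

def c_4845 : frmChk tA tA F_4845 = true := by decide +kernel

def r_4845_0 : chkL rootF engF2 tA tA sA_427 sA_427 4 F_4845 [(511, 0, 0)]
    0x459 = true := by
  decide +kernel

theorem f_4845 (h : TabsF) : FrameF repsF 427 F_4845.f :=
  frame_of rfl c_4845 (runs_of engOK r_4845_0) (by decide +kernel) h.1 h.1

def F_4846 : FrX :=
  ⟨0x482000044040440000c2040020009000182040000a0004800802008081005001008040088800008008022001162000200801c00040808404002400000c,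
    0xa0, 1, 0x203251617090a1, 7,
    [(0xa0, 1), (0x538690a2, 4), (0x548790a1, 4), (0x21437690, 4), (0x538690a2, 4), (0x548790a1, 4)],
    [(0x203251617090a1, 7), (0x10768593, 4), (0x417682a9, 4), (0x405276a3, 4), (0x10768593, 4), (0x417682a9, 4)]⟩

def c_4846 : frmChk tA tA F_4846 = true := by decide +kernel

def r_4846_0 : chkL rootF engF2 tA tA sA_427 sA_427 4 F_4846 [(511, 0, 0)]
    0x1 = true := by
  decide +kernel

theorem f_4846 (h : TabsF) : FrameF repsF 427 F_4846.f :=
  frame_of rfl c_4846 (runs_of engOK r_4846_0) (by decide +kernel) h.1 h.1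

def F_4847 : FrX :=
  ⟨0x80080a000804040e00002101002001000002040880a00008088082020020208004401000c00080080080480120502400001010040410100340150040000,
    0xa6, 1, 0x2150658191a2, 6,
    [(0xa6, 1), (0x205396a8, 4), (0x10548796, 4), (0x214396a7, 4), (0x205396a8, 4), (0x10548796, 4)],
    [(0x2150658191a2, 6), (0x304276a5, 4), (0x64708195, 4), (0x32407681, 4), (0x64708195, 4), (0x406273a9, 4), (0x204381a5, 4), (0x32407681, 4), (0x204381a5, 4), (0x32607495, 4), (0x32407681, 4), (0x406273a9, 4)]⟩

def c_4847 : frmChk tA tB F_4847 = true := by decide +kernel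

def r_4847_0 : chkL rootF engF2 tA tB sA_427 sB_427 4 F_4847 [(511, 0, 0)]
    0x107817 = true := by
  decide +kernel

theorem f_4847 (h : TabsF) : FrameF repsF 427 F_4847.f :=
  frame_of rfl c_4847 (runs_of engOK r_4847_0) (by decide +kernel) h.1 h.2

def F_4848 : FrX :=
  ⟨0x2002000900044004000e0204100014100080004080040044800840001081004010008c010106001000420008601001002004020005020220040140010120,
    0xa3, 1, 0x304354638590a6, 7,
    [(0xa3, 1), (0x208693a5, 4), (0x10548793, 4), (0x217693a4, 4), (0x208693a5, 4), (0x10548793, 4)],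
    [(0x304354638590a6, 7), (0x438692a0, 4), (0x43708591, 4), (0x214365a7, 4), (0x438692a0, 4), (0x43708591, 4)]⟩

def c_4848 : frmChk tA tA F_4848 = true := by decide +kernel

def r_4848_0 : chkL rootF engF2 tA tA sA_427 sA_427 4 F_4848 [(511, 0, 0)]
    0x1 = true := by
  decide +kernel

theorem f_4848 (h : TabsF) : FrameF repsF 427 F_4848.f :=
  frame_of rfl c_4848 (runs_of engOK r_4848_0) (by decide +kernel) h.1 h.1

def F_4849 : FrX :=
  ⟨0x482000044040440000c204002000900018204000108102000102080004004420040029010000410008044060408400c100001210050020001010008208,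
    0xa0, 1, 0x5464748693a1, 6,
    [(0xa0, 1), (0x538690a2, 4), (0x548790a1, 4), (0x21437690, 4), (0x538690a2, 4), (0x548790a1, 4)],
    [(0x5464748693a1, 6), (0x20318594, 4), (0x316574a0, 4), (0x318697a2, 4), (0x20318594, 4), (0x316574a0, 4)]⟩

def c_4849 : frmChk tA tA F_4849 = true := by decide +kernel

def r_4849_0 : chkL rootF engF2 tA tA sA_427 sA_427 4 F_4849 [(511, 0, 0)]
    0x1 = true := by
  decide +kernel

theorem f_4849 (h : TabsF) : FrameF repsF 427 F_4849.f :=
  frame_of rfl c_4849 (runs_of engOK r_4849_0) (by decide +kernel) h.1 h.1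

def F_4850 : FrX :=
  ⟨0x2002000900044004000e0204100014100080004081000008208080240200408014028000400400501280003040200280008208002200100040120200200a,
    0xa3, 1, 0x2043517391a4, 6,
    [(0xa3, 1), (0x208693a5, 4), (0x10548793, 4), (0x217693a4, 4), (0x208693a5, 4), (0x10548793, 4)],
    [(0x2043517391a4, 6), (0x204176a8, 4), (0x536492a1, 4), (0x415387a6, 4), (0x536492a1, 4), (0x748190a6, 4), (0x205386a7, 4), (0x415387a6, 4), (0x205386a7, 4), (0x618792a4, 4), (0x415387a6, 4), (0x748190a6, 4)]⟩

def c_4850 : frmChk tA tB F_4850 = true := by decide +kernel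

def r_4850_0 : chkL rootF engF2 tA tB sA_427 sB_427 4 F_4850 [(511, 0, 0)]
    0x1 = true := by
  decide +kernel

theorem f_4850 (h : TabsF) : FrameF repsF 427 F_4850.f :=
  frame_of rfl c_4850 (runs_of engOK r_4850_0) (by decide +kernel) h.1 h.2

def F_4851 : FrX :=
  ⟨0x80080a000804040e00002101002001000002040890080000480808400808084004802010006020400024800601002040100080006002022002019800020,
    0xa6, 1, 0x314351738293a0, 7,
    [(0xa6, 1), (0x205396a8, 4), (0x10548796, 4), (0x214396a7, 4), (0x205396a8, 4), (0x10548796, 4)],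
    [(0x314351738293a0, 7), (0x627093a8, 4), (0x314270a5, 4), (0x64708591, 4), (0x627093a8, 4), (0x314270a5, 4)]⟩

def c_4851 : frmChk tA tA F_4851 = true := by decide +kernel

def r_4851_0 : chkL rootF engF2 tA tA sA_427 sA_427 4 F_4851 [(511, 0, 0)]
    0x1 = true := by
  decide +kernel

theorem f_4851 (h : TabsF) : FrameF repsF 427 F_4851.f :=
  frame_of rfl c_4851 (runs_of engOK r_4851_0) (by decide +kernel) h.1 h.1

def F_4852 : FrX :=
  ⟨0x80080a000804040e00002101002001000002040882080200101400208440000041012020004004012808100404100801001101080010080404150100002,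
    0xa6, 1, 0x1021324264718595a0, 9,
    [(0xa6, 1), (0x205396a8, 4), (0x10548796, 4), (0x214396a7, 4), (0x205396a8, 4), (0x10548796, 4)],
    [(0x1021324264718595a0, 9), (0x538190a4, 4), (0x528196a7, 4), (0x32607481, 4), (0x538190a4, 4), (0x528196a7, 4)]⟩

def c_4852 : frmChk tA tA F_4852 = true := by decide +kernel

def r_4852_0 : chkL rootF engF2 tA tA sA_427 sA_427 4 F_4852 [(511, 0, 0)]
    0x1 = true := by
  decide +kernel

theorem f_4852 (h : TabsF) : FrameF repsF 427 F_4852.f :=
  frame_of rfl c_4852 (runs_of engOK r_4852_0) (by decide +kernel) h.1 h.1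

def F_4853 : FrX :=
  ⟨0x482000044040440000c20400200090001820400008211000200001820040202080c000088800101000000405e000802018000310000604010220000201,
    0xa0, 1, 0x4152718096a1, 6,
    [(0xa0, 1), (0x538690a2, 4), (0x548790a1, 4), (0x21437690, 4), (0x538690a2, 4), (0x548790a1, 4)],
    [(0x4152718096a1, 6), (0x10428593, 4), (0x217694a8, 4), (0x30427691, 4), (0x217694a8, 4), (0x204391a5, 4), (0x31768590, 4), (0x30427691, 4), (0x31768590, 4), (0x304192a8, 4), (0x30427691, 4), (0x204391a5, 4)]⟩

def c_4853 : frmChk tA tB F_4853 = true := by decide +kernel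

def r_4853_0 : chkL rootF engF2 tA tB sA_427 sB_427 4 F_4853 [(511, 0, 0)]
    0x1 = true := by
  decide +kernel

theorem f_4853 (h : TabsF) : FrameF repsF 427 F_4853.f :=
  frame_of rfl c_4853 (runs_of engOK r_4853_0) (by decide +kernel) h.1 h.2

def F_4854 : FrX :=
  ⟨0x482000044040440000c20400200090001820400100800801010001800201048048200008040404100002204080084400140080006000800140200088a4,
    0xa0, 1, 0x214262718798a5, 7,
    [(0xa0, 1), (0x538690a2, 4), (0x548790a1, 4), (0x21437690, 4), (0x538690a2, 4), (0x548790a1, 4)],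
    [(0x214262718798a5, 7), (0x526094a3, 4), (0x527098a1, 4), (0x31527684, 4), (0x526094a3, 4), (0x527098a1, 4)]⟩

def c_4854 : frmChk tA tA F_4854 = true := by decide +kernel

def r_4854_0 : chkL rootF engF2 tA tA sA_427 sA_427 4 F_4854 [(511, 0, 0)]
    0x105c170ac0f03c17 = true := by
  decide +kernel

theorem f_4854 (h : TabsF) : FrameF repsF 427 F_4854.f :=
  frame_of rfl c_4854 (runs_of engOK r_4854_0) (by decide +kernel) h.1 h.1

def F_4855 : FrX :=
  ⟨0x1c21020000040440000020410001010000820408a000110000008210020210100020404002404101004000c089808440300000011080008004020600600,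
    0x0, 0, 0x21537386, 4,
    [(0x0, 0), (0x205386a9, 4), (0x105487a9, 4), (0x214376a9, 4), (0x205386a9, 4), (0x105487a9, 4)],
    [(0x21537386, 4), (0x10536487, 4), (0x204385a9, 4), (0x537684a9, 4), (0x204385a9, 4), (0x21637584, 4), (0x107486a9, 4), (0x537684a9, 4), (0x107486a9, 4), (0x20547683, 4), (0x537684a9, 4), (0x21637584, 4)]⟩

def c_4855 : frmChk tA tB F_4855 = true := by decide +kernel

def r_4855_0 : chkL rootF engF2 tA tB sA_427 sB_427 4 F_4855 [(511, 0, 0)]
    0x44e0781e07817 = true := by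
  decide +kernel

theorem f_4855 (h : TabsF) : FrameF repsF 427 F_4855.f :=
  frame_of rfl c_4855 (runs_of engOK r_4855_0) (by decide +kernel) h.1 h.2

def F_4856 : FrX :=
  ⟨0x2002000900044004000e0204100014100080004080080101403800000800018210020400402400101004000e001800000300801030080808100010200601,
    0xa3, 1, 0x4150627398a3, 6,
    [(0xa3, 1), (0x208693a5, 4), (0x10548793, 4), (0x217693a4, 4), (0x208693a5, 4), (0x10548793, 4)],
    [(0x4150627398a3, 6), (0x658792a0, 4), (0x10548793, 4), (0x326487a1, 4), (0x658792a0, 4), (0x10548793, 4)]⟩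

def c_4856 : frmChk tA tA F_4856 = true := by decide +kernel

def r_4856_0 : chkL rootF engF2 tA tA sA_427 sA_427 4 F_4856 [(511, 0, 0)]
    0x1 = true := by
  decide +kernel

theorem f_4856 (h : TabsF) : FrameF repsF 427 F_4856.f :=
  frame_of rfl c_4856 (runs_of engOK r_4856_0) (by decide +kernel) h.1 h.1

def F_4857 : FrX :=
  ⟨0x80080a000804040e000021010020010000020408900200014080108088100040040810010040210080080008080414000240000060001a00440808500c0,
    0xa6, 1, 0x3051647298a6, 6,
    [(0xa6, 1), (0x205396a8, 4), (0x10548796, 4), (0x214396a7, 4), (0x205396a8, 4), (0x10548796, 4)],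
    [(0x3051647298a6, 6), (0x107384a9, 4), (0x53618492, 4), (0x607584a2, 4), (0x107384a9, 4), (0x53618492, 4)]⟩

def c_4857 : frmChk tA tA F_4857 = true := by decide +kernel

def r_4857_0 : chkL rootF engF2 tA tA sA_427 sA_427 4 F_4857 [(511, 0, 0)]
    0x1 = true := by
  decide +kernel

theorem f_4857 (h : TabsF) : FrameF repsF 427 F_4857.f :=
  frame_of rfl c_4857 (runs_of engOK r_4857_0) (by decide +kernel) h.1 h.1

def F_4858 : FrX :=
  ⟨0x80080a000804040e000021010020010000020408900200014080108082400040200110100000310000c8000858001002024002004001020240080808180,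
    0xa6, 1, 0x304151657296a8, 7,
    [(0xa6, 1), (0x205396a8, 4), (0x10548796, 4), (0x214396a7, 4), (0x205396a8, 4), (0x10548796, 4)],
    [(0x304151657296a8, 7), (0x627390a1, 4), (0x53618492, 4), (0x628491a0, 4), (0x53618492, 4), (0x207591a6, 4), (0x107384a9, 4), (0x628491a0, 4), (0x107384a9, 4), (0x215396a0, 4), (0x628491a0, 4), (0x207591a6, 4)]⟩

def c_4858 : frmChk tA tB F_4858 = true := by decide +kernel

def r_4858_0 : chkL rootF engF2 tA tB sA_427 sB_427 4 F_4858 [(511, 0, 0)]
    0x1 = true := by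
  decide +kernel

theorem f_4858 (h : TabsF) : FrameF repsF 427 F_4858.f :=
  frame_of rfl c_4858 (runs_of engOK r_4858_0) (by decide +kernel) h.1 h.2

def F_4859 : FrX :=
  ⟨0x80080a000804040e00002101002001000002040881200002204400100080080084128008208004010044c00400201100000110041008804240110100002,
    0xa6, 1, 0x20304153627495a0, 8,
    [(0xa6, 1), (0x205396a8, 4), (0x10548796, 4), (0x214396a7, 4), (0x205396a8, 4), (0x10548796, 4)],
    [(0x20304153627495a0, 8), (0x508791a6, 4), (0x103297a4, 4), (0x32708591, 4), (0x103297a4, 4), (0x51647098, 4), (0x327580a6, 4), (0x32708591, 4), (0x327580a6, 4), (0x718590a4, 4), (0x32708591, 4), (0x51647098, 4)]⟩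

def c_4859 : frmChk tA tB F_4859 = true := by decide +kernel

def r_4859_0 : chkL rootF engF2 tA tB sA_427 sB_427 4 F_4859 [(511, 0, 0)]
    0x41d = true := by
  decide +kernel

theorem f_4859 (h : TabsF) : FrameF repsF 427 F_4859.f :=
  frame_of rfl c_4859 (runs_of engOK r_4859_0) (by decide +kernel) h.1 h.2

def F_4860 : FrX :=
  ⟨0x2002000900044004000e0204100014100080004080040204041002020880088200008800440001020a00800a100410000200811020080010082080210120,
    0xa3, 1, 0x213060768292a3, 7,
    [(0xa3, 1), (0x208693a5, 4), (0x10548793, 4), (0x217693a4, 4), (0x208693a5, 4), (0x10548793, 4)],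
    [(0x213060768292a3, 7), (0x718096a5, 4), (0x31546280, 4), (0x738092a4, 4), (0x718096a5, 4), (0x31546280, 4)]⟩

def c_4860 : frmChk tA tA F_4860 = true := by decide +kernel

def r_4860_0 : chkL rootF engF2 tA tA sA_427 sA_427 4 F_4860 [(511, 0, 0)]
    0x1 = true := by
  decide +kernel

theorem f_4860 (h : TabsF) : FrameF repsF 427 F_4860.f :=
  frame_of rfl c_4860 (runs_of engOK r_4860_0) (by decide +kernel) h.1 h.1

def F_4861 : FrX :=
  ⟨0x80080a000804040e00002101002001000002040880600004408104000040084004822010100010001042840600082001100081084003020280010200001,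
    0xa6, 1, 0x204154618094a8, 7,
    [(0xa6, 1), (0x205396a8, 4), (0x10548796, 4), (0x214396a7, 4), (0x205396a8, 4), (0x10548796, 4)],
    [(0x204154618094a8, 7), (0x315280a4, 4), (0x528691a7, 4), (0x52607493, 4), (0x315280a4, 4), (0x528691a7, 4)]⟩

def c_4861 : frmChk tA tA F_4861 = true := by decide +kernel

def r_4861_0 : chkL rootF engF2 tA tA sA_427 sA_427 4 F_4861 [(511, 0, 0)]
    0x1 = true := by
  decide +kernel

theorem f_4861 (h : TabsF) : FrameF repsF 427 F_4861.f :=
  frame_of rfl c_4861 (runs_of engOK r_4861_0) (by decide +kernel) h.1 h.1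

def F_4862 : FrX :=
  ⟨0x482000044040440000c20400200090001820400020205000080803000400218000401010240010080000800e4808080100001080440120044040210200,
    0xa0, 1, 0x3242547298a7, 6,
    [(0xa0, 1), (0x538690a2, 4), (0x548790a1, 4), (0x21437690, 4), (0x538690a2, 4), (0x548790a1, 4)],
    [(0x3242547298a7, 6), (0x627095a3, 4), (0x105384a6, 4), (0x658492a3, 4), (0x105384a6, 4), (0x657193a2, 4), (0x52708496, 4), (0x658492a3, 4), (0x52708496, 4), (0x106392a5, 4), (0x658492a3, 4), (0x657193a2, 4)]⟩

def c_4862 : frmChk tA tB F_4862 = true := by decide +kernel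

def r_4862_0 : chkL rootF engF2 tA tB sA_427 sB_427 4 F_4862 [(511, 0, 0)]
    0x1 = true := by
  decide +kernel

theorem f_4862 (h : TabsF) : FrameF repsF 427 F_4862.f :=
  frame_of rfl c_4862 (runs_of engOK r_4862_0) (by decide +kernel) h.1 h.2

def F_4863 : FrX :=
  ⟨0x1001040012008080000e0084080041000810100004402008004140002200081004804800402001020800480080081020000080500c000440023002200098,
    0xa3, 1, 0x304160708295a7, 7,
    [(0xa3, 1), (0x207584a6, 4), (0x10547693, 4), (0x647593a8, 4), (0x10547693, 4), (0x216485a7, 4), (0x208693a4, 4), (0x647593a8, 4), (0x208693a4, 4), (0x106574a8, 4), (0x647593a8, 4), (0x216485a7, 4)],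
    [(0x304160708295a7, 7), (0x32658790, 4), (0x657491a2, 4), (0x106584a3, 4), (0x32658790, 4), (0x657491a2, 4)]⟩

def c_4863 : frmChk tB tA F_4863 = true := by decide +kernel

def r_4863_0 : chkL rootF engF2 tB tA sB_427 sA_427 4 F_4863 [(511, 0, 0)]
    0x1 = true := by
  decide +kernel

theorem f_4863 (h : TabsF) : FrameF repsF 427 F_4863.f :=
  frame_of rfl c_4863 (runs_of engOK r_4863_0) (by decide +kernel) h.2 h.1

def F_4864 : FrX :=
  ⟨0x1001040012008080000e0084080041000810100004402008004140002200081004804800402000c20800480080141020000080501000044001c002200084,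
    0xa3, 1, 0x304160708295a7, 7,
    [(0xa3, 1), (0x207584a6, 4), (0x10547693, 4), (0x647593a8, 4), (0x10547693, 4), (0x216485a7, 4), (0x208693a4, 4), (0x647593a8, 4), (0x208693a4, 4), (0x106574a8, 4), (0x647593a8, 4), (0x216485a7, 4)],
    [(0x304160708295a7, 7), (0x32658790, 4), (0x657491a2, 4), (0x106584a3, 4), (0x32658790, 4), (0x657491a2, 4)]⟩

def c_4864 : frmChk tB tA F_4864 = true := by decide +kernel

def r_4864_0 : chkL rootF engF2 tB tA sB_427 sA_427 4 F_4864 [(511, 0, 0)]
    0x1 = true := by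
  decide +kernel

theorem f_4864 (h : TabsF) : FrameF repsF 427 F_4864.f :=
  frame_of rfl c_4864 (runs_of engOK r_4864_0) (by decide +kernel) h.2 h.1

def F_4865 : FrX :=
  ⟨0x1001040012008080000e00840800410008101000042008024020010007000080048202001200008820001012000400420040200119800088082101000180,
    0xa3, 1, 0x4051638297a3, 6,
    [(0xa3, 1), (0x207584a6, 4), (0x10547693, 4), (0x647593a8, 4), (0x10547693, 4), (0x216485a7, 4), (0x208693a4, 4), (0x647593a8, 4), (0x208693a4, 4), (0x106574a8, 4), (0x647593a8, 4), (0x216485a7, 4)],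
    [(0x4051638297a3, 6), (0x208491a3, 4), (0x10547693, 4), (0x307691a2, 4), (0x10547693, 4), (0x213085a9, 4), (0x327684a0, 4), (0x307691a2, 4), (0x327684a0, 4), (0x315490a2, 4), (0x307691a2, 4), (0x213085a9, 4)]⟩

def c_4865 : frmChk tB tB F_4865 = true := by decide +kernel

def r_4865_0 : chkL rootF engF2 tB tB sB_427 sB_427 4 F_4865 [(511, 0, 0)]
    0x1 = true := by
  decide +kernel

theorem f_4865 (h : TabsF) : FrameF repsF 427 F_4865.f :=
  frame_of rfl c_4865 (runs_of engOK r_4865_0) (by decide +kernel) h.2 h.2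

def F_4866 : FrX :=
  ⟨0x1c21020000040440000020410001010000820408a0001100000400110202100008214000024040410800200088048440262010001200000404022600200,
    0x0, 0, 0x206483, 3,
    [(0x0, 0), (0x205386a9, 4), (0x105487a9, 4), (0x214376a9, 4), (0x205386a9, 4), (0x105487a9, 4)],
    [(0x206483, 3), (0x204385a9, 4), (0x216573a9, 4), (0x107486a9, 4), (0x204385a9, 4), (0x216573a9, 4)]⟩

def c_4866 : frmChk tA tA F_4866 = true := by decide +kernel

def r_4866_0 : chkL rootF engF2 tA tA sA_427 sA_427 4 F_4866 [(511, 0, 0)]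
    0x18d225 = true := by
  decide +kernel

theorem f_4866 (h : TabsF) : FrameF repsF 427 F_4866.f :=
  frame_of rfl c_4866 (runs_of engOK r_4866_0) (by decide +kernel) h.1 h.1

def F_4867 : FrX :=
  ⟨0x1c2102000004044000002041000101000082040890080080000802400200404020404050000030400020140828010304108081004100020444002200080,
    0x0, 0, 0x53637486, 4,
    [(0x0, 0), (0x205386a9, 4), (0x105487a9, 4), (0x214376a9, 4), (0x205386a9, 4), (0x105487a9, 4)],
    [(0x53637486, 4), (0x20437586, 4), (0x107384a9, 4), (0x436587a9, 4), (0x107384a9, 4), (0x21536487, 4), (0x207685a9, 4), (0x436587a9, 4), (0x207685a9, 4), (0x10657483, 4), (0x436587a9, 4), (0x21536487, 4)]⟩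

def c_4867 : frmChk tA tB F_4867 = true := by decide +kernel

def r_4867_0 : chkL rootF engF2 tA tB sA_427 sB_427 4 F_4867 [(511, 0, 0)]
    0x49378246 = true := by
  decide +kernel

theorem f_4867 (h : TabsF) : FrameF repsF 427 F_4867.f :=
  frame_of rfl c_4867 (runs_of engOK r_4867_0) (by decide +kernel) h.1 h.2

def F_4868 : FrX :=
  ⟨0x1c210200000404400000204100010100008204088820000800088020000220202060004110000802080040488022004000100a010b00200202004806004,
    0x0, 0, 0x21546587, 4,
    [(0x0, 0), (0x205386a9, 4), (0x105487a9, 4), (0x214376a9, 4), (0x205386a9, 4), (0x105487a9, 4)],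
    [(0x21546587, 4), (0x10437586, 4), (0x206584a9, 4), (0x547386a9, 4), (0x206584a9, 4), (0x21547683, 4), (0x105374a9, 4), (0x547386a9, 4), (0x105374a9, 4), (0x20647385, 4), (0x547386a9, 4), (0x21547683, 4)]⟩

def c_4868 : frmChk tA tB F_4868 = true := by decide +kernel

def r_4868_0 : chkL rootF engF2 tA tB sA_427 sB_427 4 F_4868 [(511, 0, 0)]
    0x1 = true := by
  decide +kernel

theorem f_4868 (h : TabsF) : FrameF repsF 427 F_4868.f :=
  frame_of rfl c_4868 (runs_of engOK r_4868_0) (by decide +kernel) h.1 h.2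

theorem cl_427 (h : TabsF) : ∀ f ∈ fr_427, FrameF repsF 427 f :=
  List.forall_mem_cons.2 ⟨f_4841 h, List.forall_mem_cons.2 ⟨f_4842 h, List.forall_mem_cons.2 ⟨f_4843 h, List.forall_mem_cons.2 ⟨f_4844 h, List.forall_mem_cons.2 ⟨f_4845 h, List.forall_mem_cons.2 ⟨f_4846 h, List.forall_mem_cons.2 ⟨f_4847 h, List.forall_mem_cons.2 ⟨f_4848 h, List.forall_mem_cons.2 ⟨f_4849 h, List.forall_mem_cons.2 ⟨f_4850 h, List.forall_mem_cons.2 ⟨f_4851 h, List.forall_mem_cons.2 ⟨f_4852 h, List.forall_mem_cons.2 ⟨f_4853 h, List.forall_mem_cons.2 ⟨f_4854 h, List.forall_mem_cons.2 ⟨f_4855 h, List.forall_mem_cons.2 ⟨f_4856 h, List.forall_mem_cons.2 ⟨f_4857 h, List.forall_mem_cons.2 ⟨f_4858 h, List.forall_mem_cons.2 ⟨f_4859 h, List.forall_mem_cons.2 ⟨f_4860 h, List.forall_mem_cons.2 ⟨f_4861 h, List.forall_mem_cons.2 ⟨f_4862 h, List.forall_mem_cons.2 ⟨f_4863 h, List.forall_mem_cons.2 ⟨f_4864 h, List.forall_mem_cons.2 ⟨f_4865 h, List.forall_mem_cons.2 ⟨f_4866 h, List.forall_mem_cons.2 ⟨f_4867 h, List.forall_mem_cons.2 ⟨f_4868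 h,
    fun _ h0 => absurd h0 List.not_mem_nil⟩⟩⟩⟩⟩⟩⟩⟩⟩⟩⟩⟩⟩⟩⟩⟩⟩⟩⟩⟩⟩⟩⟩⟩⟩⟩⟩⟩

def F_4869 : FrX :=
  ⟨0x2002000900044004000e020410001410008000408080010020808404020040801003800040200102800404000b2010100040420005001028001110008010,
    0xa3, 1, 0x547594a3, 4,
    [(0xa3, 1), (0x208693a5, 4), (0x10548793, 4), (0x217693a4, 4), (0x208693a5, 4), (0x10548793, 4)],
    [(0x547594a3, 4), (0x205386a7, 4), (0x10538497, 4), (0x215364a9, 4), (0x205386a7, 4), (0x10538497, 4)]⟩

def c_4869 : frmChk tA tA F_4869 = true := by decide +kernel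

def r_4869_0 : chkL rootF engF2 tA tA sA_428 sA_428 4 F_4869 [(511, 0, 0)]
    0x44b = true := by
  decide +kernel

theorem f_4869 (h : TabsF) : FrameF repsF 428 F_4869.f :=
  frame_of rfl c_4869 (runs_of engOK r_4869_0) (by decide +kernel) h.1 h.1

def F_4870 : FrX :=
  ⟨0x2002000900044004000e02041000141000800040808002000320000208020a0b00000800210000420c000009c800001210410200022010000008002100c4,
    0xa3, 1, 0x103263748695a3, 7,
    [(0xa3, 1), (0x208693a5, 4), (0x10548793, 4), (0x217693a4, 4), (0x208693a5, 4), (0x10548793, 4)],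
    [(0x103263748695a3, 7), (0x316582a9, 4), (0x10426597, 4), (0x306584a7, 4), (0x316582a9, 4), (0x10426597, 4)]⟩

def c_4870 : frmChk tA tA F_4870 = true := by decide +kernel

def r_4870_0 : chkL rootF engF2 tA tA sA_428 sA_428 4 F_4870 [(511, 0, 0)]
    0x4d1 = true := by
  decide +kernel

theorem f_4870 (h : TabsF) : FrameF repsF 428 F_4870.f :=
  frame_of rfl c_4870 (runs_of engOK r_4870_0) (by decide +kernel) h.1 h.1

def F_4871 : FrX :=
  ⟨0x482000044040440000c2040020009000182040002020422008020010040024800400101081000180000800201488200500001084048000044010808600,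
    0xa0, 1, 0x4052617687a8, 6,
    [(0xa0, 1), (0x538690a2, 4), (0x548790a1, 4), (0x21437690, 4), (0x538690a2, 4), (0x548790a1, 4)],
    [(0x4052617687a8, 6), (0x325491a7, 4), (0x206491a8, 4), (0x30658791, 4), (0x325491a7, 4), (0x206491a8, 4)]⟩

def c_4871 : frmChk tA tA F_4871 = true := by decide +kernel

def r_4871_0 : chkL rootF engF2 tA tA sA_428 sA_428 4 F_4871 [(511, 0, 0)]
    0x1 = true := by
  decide +kernel

theorem f_4871 (h : TabsF) : FrameF repsF 428 F_4871.f :=
  frame_of rfl c_4871 (runs_of engOK r_4871_0) (by decide +kernel) h.1 h.1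

def F_4872 : FrX :=
  ⟨0x80080a000804040e00002101002001000002040890010008084004100480008004181002008005008001021c00201120100100041000804040807080000,
    0xa6, 1, 0x3253627493a6, 6,
    [(0xa6, 1), (0x205396a8, 4), (0x10548796, 4), (0x214396a7, 4), (0x205396a8, 4), (0x10548796, 4)],
    [(0x3253627493a6, 6), (0x426087a9, 4), (0x105372a4, 4), (0x425398a7, 4), (0x105372a4, 4), (0x618294a7, 4), (0x536097a8, 4), (0x425398a7, 4), (0x536097a8, 4), (0x107498a2, 4), (0x425398a7, 4), (0x618294a7, 4)]⟩

def c_4872 : frmChk tA tB F_4872 = true := by decide +kernel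

def r_4872_0 : chkL rootF engF2 tA tB sA_428 sB_428 4 F_4872 [(511, 0, 0)]
    0x1 = true := by
  decide +kernel

theorem f_4872 (h : TabsF) : FrameF repsF 428 F_4872.f :=
  frame_of rfl c_4872 (runs_of engOK r_4872_0) (by decide +kernel) h.1 h.2

def F_4873 : FrX :=
  ⟨0x80080a000804040e000021010020010000020408804110040080440404400010008020600080100800411000341001011000800840100a8004070200000,
    0xa6, 1, 0x103243618595a0, 7,
    [(0xa6, 1), (0x205396a8, 4), (0x10548796, 4), (0x214396a7, 4), (0x205396a8, 4), (0x10548796, 4)],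
    [(0x103243618595a0, 7), (0x508194a3, 4), (0x758192a6, 4), (0x42637081, 4), (0x508194a3, 4), (0x758192a6, 4)]⟩

def c_4873 : frmChk tA tA F_4873 = true := by decide +kernel

def r_4873_0 : chkL rootF engF2 tA tA sA_428 sA_428 4 F_4873 [(511, 0, 0)]
    0x459 = true := by
  decide +kernel

theorem f_4873 (h : TabsF) : FrameF repsF 428 F_4873.f :=
  frame_of rfl c_4873 (runs_of engOK r_4873_0) (by decide +kernel) h.1 h.1

def F_4874 : FrX :=
  ⟨0x482000044040440000c2040020009000182040000a0004800802008081005001008040088800008008022001c42000200801c000408084040024000003,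
    0xa0, 1, 0x203251617090a1, 7,
    [(0xa0, 1), (0x538690a2, 4), (0x548790a1, 4), (0x21437690, 4), (0x538690a2, 4), (0x548790a1, 4)],
    [(0x203251617090a1, 7), (0x10768593, 4), (0x417682a9, 4), (0x405276a3, 4), (0x10768593, 4), (0x417682a9, 4)]⟩

def c_4874 : frmChk tA tA F_4874 = true := by decide +kernel

def r_4874_0 : chkL rootF engF2 tA tA sA_428 sA_428 4 F_4874 [(511, 0, 0)]
    0x4960ac2b06c1b = true := by
  decide +kernel

theorem f_4874 (h : TabsF) : FrameF repsF 428 F_4874.f :=
  frame_of rfl c_4874 (runs_of engOK r_4874_0) (by decide +kernel) h.1 h.1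

def F_4875 : FrX :=
  ⟨0x80080a000804040e00002101002001000002040880a00008088082020020208004401000c00080080080480380402400001010040410100340104060000,
    0xa6, 1, 0x2150658191a2, 6,
    [(0xa6, 1), (0x205396a8, 4), (0x10548796, 4), (0x214396a7, 4), (0x205396a8, 4), (0x10548796, 4)],
    [(0x2150658191a2, 6), (0x304276a5, 4), (0x64708195, 4), (0x32407681, 4), (0x64708195, 4), (0x406273a9, 4), (0x204381a5, 4), (0x32407681, 4), (0x204381a5, 4), (0x32607495, 4), (0x32407681, 4), (0x406273a9, 4)]⟩

def c_4875 : frmChk tA tB F_4875 = true := by decide +kernel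

def r_4875_0 : chkL rootF engF2 tA tB sA_428 sB_428 4 F_4875 [(511, 0, 0)]
    0x1 = true := by
  decide +kernel

theorem f_4875 (h : TabsF) : FrameF repsF 428 F_4875.f :=
  frame_of rfl c_4875 (runs_of engOK r_4875_0) (by decide +kernel) h.1 h.2

def F_4876 : FrX :=
  ⟨0x80080a000804040e0000210100200100000204089008000031000080840020b00100040200800411001002002e00202104100800201000c000800230040,
    0xa6, 1, 0x203054647394a6, 7,
    [(0xa6, 1), (0x205396a8, 4), (0x10548796, 4), (0x214396a7, 4), (0x205396a8, 4), (0x10548796, 4)],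
    [(0x203054647394a6, 7), (0x306574a8, 4), (0x31658294, 4), (0x106597a2, 4), (0x306574a8, 4), (0x31658294, 4)]⟩

def c_4876 : frmChk tA tA F_4876 = true := by decide +kernel

def r_4876_0 : chkL rootF engF2 tA tA sA_428 sA_428 4 F_4876 [(511, 0, 0)]
    0x14699811e431b01e168638a86c32a231b0478a81b = true := by
  decide +kernel

theorem f_4876 (h : TabsF) : FrameF repsF 428 F_4876.f :=
  frame_of rfl c_4876 (runs_of engOK r_4876_0) (by decide +kernel) h.1 h.1

def F_4877 : FrX :=
  ⟨0x482000044040440000c2040020009000182040020002040400100110080422008084000088004112000a004002902024100080801002000402000100c2,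
    0xa0, 1, 0x3240546492a1, 6,
    [(0xa0, 1), (0x538690a2, 4), (0x548790a1, 4), (0x21437690, 4), (0x538690a2, 4), (0x548790a1, 4)],
    [(0x3240546492a1, 6), (0x20318594, 4), (0x316087a4, 4), (0x316275a9, 4), (0x20318594, 4), (0x316087a4, 4)]⟩

def c_4877 : frmChk tA tA F_4877 = true := by decide +kernel

def r_4877_0 : chkL rootF engF2 tA tA sA_428 sA_428 4 F_4877 [(511, 0, 0)]
    0x1 = true := by
  decide +kernel

theorem f_4877 (h : TabsF) : FrameF repsF 428 F_4877.f :=
  frame_of rfl c_4877 (runs_of engOK r_4877_0) (by decide +kernel) h.1 h.1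

def F_4878 : FrX :=
  ⟨0x2002000900044004000e02041000141000800040800402080120004200014501040000810040080802020009c0800000a024220000600200400040080058,
    0xa3, 1, 0x4153768395a6, 6,
    [(0xa3, 1), (0x208693a5, 4), (0x10548793, 4), (0x217693a4, 4), (0x208693a5, 4), (0x10548793, 4)],
    [(0x4153768395a6, 6), (0x205196a8, 4), (0x407391a6, 4), (0x738596a1, 4), (0x407391a6, 4), (0x428695a1, 4), (0x207381a5, 4), (0x738596a1, 4), (0x207381a5, 4), (0x406185a9, 4), (0x738596a1, 4), (0x428695a1, 4)]⟩

def c_4878 : frmChk tA tB F_4878 = true := by decide +kernel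

def r_4878_0 : chkL rootF engF2 tA tB sA_428 sB_428 4 F_4878 [(511, 0, 0)]
    0x1 = true := by
  decide +kernel

theorem f_4878 (h : TabsF) : FrameF repsF 428 F_4878.f :=
  frame_of rfl c_4878 (runs_of engOK r_4878_0) (by decide +kernel) h.1 h.2

def F_4879 : FrX :=
  ⟨0x80080a000804040e000021010020010000020408810102080100401408020040008800600020200a8008100000e00040300082010002202002003c00400,
    0xa6, 1, 0x315260738297a2, 7,
    [(0xa6, 1), (0x205396a8, 4), (0x10548796, 4), (0x214396a7, 4), (0x205396a8, 4), (0x10548796, 4)],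
    [(0x315260738297a2, 7), (0x507281a6, 4), (0x42638195, 4), (0x748190a3, 4), (0x507281a6, 4), (0x42638195, 4)]⟩

def c_4879 : frmChk tA tA F_4879 = true := by decide +kernel

def r_4879_0 : chkL rootF engF2 tA tA sA_428 sA_428 4 F_4879 [(511, 0, 0)]
    0x1 = true := by
  decide +kernel

theorem f_4879 (h : TabsF) : FrameF repsF 428 F_4879.f :=
  frame_of rfl c_4879 (runs_of engOK r_4879_0) (by decide +kernel) h.1 h.1

def F_4880 : FrX :=
  ⟨0x482000044040440000c204002000900018204000120008200102080082081001001010090200008008040431201040004000400e040100101010800820,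
    0xa0, 1, 0x203142627092a0, 7,
    [(0xa0, 1), (0x538690a2, 4), (0x548790a1, 4), (0x21437690, 4), (0x538690a2, 4), (0x548790a1, 4)],
    [(0x203142627092a0, 7), (0x517684a9, 4), (0x507682a3, 4), (0x10427693, 4), (0x517684a9, 4), (0x507682a3, 4)]⟩

def c_4880 : frmChk tA tA F_4880 = true := by decide +kernel

def r_4880_0 : chkL rootF engF2 tA tA sA_428 sA_428 4 F_4880 [(511, 0, 0)]
    0x433 = true := by
  decide +kernel

theorem f_4880 (h : TabsF) : FrameF repsF 428 F_4880.f :=
  frame_of rfl c_4880 (runs_of engOK r_4880_0) (by decide +kernel) h.1 h.1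

def F_4881 : FrX :=
  ⟨0x80080a000804040e00002101002001000002040880a00008084022400080084040080410080020002028401c00202008100002040411402400002300008,
    0xa6, 1, 0x2141508192a1, 6,
    [(0xa6, 1), (0x205396a8, 4), (0x10548796, 4), (0x214396a7, 4), (0x205396a8, 4), (0x10548796, 4)],
    [(0x2141508192a1, 6), (0x42637095, 4), (0x207681a5, 4), (0x43627081, 4), (0x207681a5, 4), (0x406273a9, 4), (0x32648195, 4), (0x43627081, 4), (0x32648195, 4), (0x436072a5, 4), (0x43627081, 4), (0x406273a9, 4)]⟩

def c_4881 : frmChk tA tB F_4881 = true := by decide +kernel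

def r_4881_0 : chkL rootF engF2 tA tB sA_428 sB_428 4 F_4881 [(511, 0, 0)]
    0x40f = true := by
  decide +kernel

theorem f_4881 (h : TabsF) : FrameF repsF 428 F_4881.f :=
  frame_of rfl c_4881 (runs_of engOK r_4881_0) (by decide +kernel) h.1 h.2

def F_4882 : FrX :=
  ⟨0x482000044040440000c20400200090001820400100800801010001800201018108000408040404100002204080084400140080006000800140240008a4,
    0xa0, 1, 0x325462768591a3, 7,
    [(0xa0, 1), (0x538690a2, 4), (0x548790a1, 4), (0x21437690, 4), (0x538690a2, 4), (0x548790a1, 4)],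
    [(0x325462768591a3, 7), (0x216074a8, 4), (0x21438590, 4), (0x217396a5, 4), (0x216074a8, 4), (0x21438590, 4)]⟩

def c_4882 : frmChk tA tA F_4882 = true := by decide +kernel

def r_4882_0 : chkL rootF engF2 tA tA sA_428 sA_428 4 F_4882 [(511, 0, 0)]
    0x435 = true := by
  decide +kernel

theorem f_4882 (h : TabsF) : FrameF repsF 428 F_4882.f :=
  frame_of rfl c_4882 (runs_of engOK r_4882_0) (by decide +kernel) h.1 h.1

def F_4883 : FrX :=
  ⟨0x1c21020000040440000020410001010000820408a0001100000082100202101000204040024041010040600088848440300000011080008004020408600,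
    0x0, 0, 0x21537386, 4,
    [(0x0, 0), (0x205386a9, 4), (0x105487a9, 4), (0x214376a9, 4), (0x205386a9, 4), (0x105487a9, 4)],
    [(0x21537386, 4), (0x10536487, 4), (0x204385a9, 4), (0x537684a9, 4), (0x204385a9, 4), (0x21637584, 4), (0x107486a9, 4), (0x537684a9, 4), (0x107486a9, 4), (0x20547683, 4), (0x537684a9, 4), (0x21637584, 4)]⟩

def c_4883 : frmChk tA tB F_4883 = true := by decide +kernel

def r_4883_0 : chkL rootF engF2 tA tB sA_428 sB_428 4 F_4883 [(511, 0, 0)]
    0x439 = true := by
  decide +kernel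

theorem f_4883 (h : TabsF) : FrameF repsF 428 F_4883.f :=
  frame_of rfl c_4883 (runs_of engOK r_4883_0) (by decide +kernel) h.1 h.2

def F_4884 : FrX :=
  ⟨0x2002000900044004000e02041000141000800040800801014038000008000182100204004024001010040602000840000300801030080808100010008601,
    0xa3, 1, 0x4150627398a3, 6,
    [(0xa3, 1), (0x208693a5, 4), (0x10548793, 4), (0x217693a4, 4), (0x208693a5, 4), (0x10548793, 4)],
    [(0x4150627398a3, 6), (0x658792a0, 4), (0x10548793, 4), (0x326487a1, 4), (0x658792a0, 4), (0x10548793, 4)]⟩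

def c_4884 : frmChk tA tA F_4884 = true := by decide +kernel

def r_4884_0 : chkL rootF engF2 tA tA sA_428 sA_428 4 F_4884 [(511, 0, 0)]
    0x1 = true := by
  decide +kernel

theorem f_4884 (h : TabsF) : FrameF repsF 428 F_4884.f :=
  frame_of rfl c_4884 (runs_of engOK r_4884_0) (by decide +kernel) h.1 h.1

def F_4885 : FrX :=
  ⟨0x80080a000804040e000021010020010000020408900200014080108088100040040810010040210080080008080414000240000060018200408808180c0,
    0xa6, 1, 0x3051647298a6, 6,
    [(0xa6, 1), (0x205396a8, 4), (0x10548796, 4), (0x214396a7, 4), (0x205396a8, 4), (0x10548796, 4)],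
    [(0x3051647298a6, 6), (0x107384a9, 4), (0x53618492, 4), (0x607584a2, 4), (0x107384a9, 4), (0x53618492, 4)]⟩

def c_4885 : frmChk tA tA F_4885 = true := by decide +kernel

def r_4885_0 : chkL rootF engF2 tA tA sA_428 sA_428 4 F_4885 [(511, 0, 0)]
    0x1 = true := by
  decide +kernel

theorem f_4885 (h : TabsF) : FrameF repsF 428 F_4885.f :=
  frame_of rfl c_4885 (runs_of engOK r_4885_0) (by decide +kernel) h.1 h.1

def F_4886 : FrX :=
  ⟨0x80080a000804040e00002101002001000002040890020001408010808240004020011010000031018008000848041002024002004001020040880808180,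
    0xa6, 1, 0x304151657296a8, 7,
    [(0xa6, 1), (0x205396a8, 4), (0x10548796, 4), (0x214396a7, 4), (0x205396a8, 4), (0x10548796, 4)],
    [(0x304151657296a8, 7), (0x627390a1, 4), (0x53618492, 4), (0x628491a0, 4), (0x53618492, 4), (0x207591a6, 4), (0x107384a9, 4), (0x628491a0, 4), (0x107384a9, 4), (0x215396a0, 4), (0x628491a0, 4), (0x207591a6, 4)]⟩

def c_4886 : frmChk tA tB F_4886 = true := by decide +kernel

def r_4886_0 : chkL rootF engF2 tA tB sA_428 sB_428 4 F_4886 [(511, 0, 0)]
    0x1 = true := by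
  decide +kernel

theorem f_4886 (h : TabsF) : FrameF repsF 428 F_4886.f :=
  frame_of rfl c_4886 (runs_of engOK r_4886_0) (by decide +kernel) h.1 h.2

def F_4887 : FrX :=
  ⟨0x482000044040440000c2040020009000182040002100404008020010000424800880800882001000089000424108402100000284040120040000210120,
    0xa0, 1, 0x418491a2, 4,
    [(0xa0, 1), (0x538690a2, 4), (0x548790a1, 4), (0x21437690, 4), (0x538690a2, 4), (0x548790a1, 4)],
    [(0x418491a2, 4), (0x637581a0, 4), (0x42768590, 4), (0x31427586, 4), (0x42768590, 4), (0x517386a9, 4), (0x426183a0, 4), (0x31427586, 4), (0x426183a0, 4), (0x31658790, 4), (0x31427586, 4), (0x517386a9, 4)]⟩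

def c_4887 : frmChk tA tB F_4887 = true := by decide +kernel

def r_4887_0 : chkL rootF engF2 tA tB sA_428 sB_428 4 F_4887 [(511, 0, 0)]
    0x1 = true := by
  decide +kernel

theorem f_4887 (h : TabsF) : FrameF repsF 428 F_4887.f :=
  frame_of rfl c_4887 (runs_of engOK r_4887_0) (by decide +kernel) h.1 h.2

def F_4888 : FrX :=
  ⟨0x80080a000804040e00002101002001000002040890010004208004900440001040800050000084804048240440002001100081010002020204009010084,
    0xa6, 1, 0x203053718594a5, 7,
    [(0xa6, 1), (0x205396a8, 4), (0x10548796, 4), (0x214396a7, 4), (0x205396a8, 4), (0x10548796, 4)],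
    [(0x203053718594a5, 7), (0x306284a5, 4), (0x217384a9, 4), (0x61708495, 4), (0x306284a5, 4), (0x217384a9, 4)]⟩

def c_4888 : frmChk tA tA F_4888 = true := by decide +kernel

def r_4888_0 : chkL rootF engF2 tA tA sA_428 sA_428 4 F_4888 [(511, 0, 0)]
    0x1 = true := by
  decide +kernel

theorem f_4888 (h : TabsF) : FrameF repsF 428 F_4888.f :=
  frame_of rfl c_4888 (runs_of engOK r_4888_0) (by decide +kernel) h.1 h.1

def F_4889 : FrX :=
  ⟨0x2002000900044004000e0204100014100080004080800020282880001002020280008080408000420a000802048800100081010041201000040804210300,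
    0xa3, 1, 0x204150607494a8, 7,
    [(0xa3, 1), (0x208693a5, 4), (0x10548793, 4), (0x217693a4, 4), (0x208693a5, 4), (0x10548793, 4)],
    [(0x204150607494a8, 7), (0x326087a5, 4), (0x648792a1, 4), (0x40518793, 4), (0x326087a5, 4), (0x648792a1, 4)]⟩

def c_4889 : frmChk tA tA F_4889 = true := by decide +kernel

def r_4889_0 : chkL rootF engF2 tA tA sA_428 sA_428 4 F_4889 [(511, 0, 0)]
    0x1 = true := by
  decide +kernel

theorem f_4889 (h : TabsF) : FrameF repsF 428 F_4889.f :=
  frame_of rfl c_4889 (runs_of engOK r_4889_0) (by decide +kernel) h.1 h.1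

def F_4890 : FrX :=
  ⟨0x80080a000804040e000021010020010000020408822000020900204000a0208010012000a10010012001900200082040040001005003001000900110410,
    0xa6, 1, 0x1041708095a8, 6,
    [(0xa6, 1), (0x205396a8, 4), (0x10548796, 4), (0x214396a7, 4), (0x205396a8, 4), (0x10548796, 4)],
    [(0x1041708095a8, 6), (0x638291a0, 4), (0x61758490, 4), (0x607591a3, 4), (0x61758490, 4), (0x314260a9, 4), (0x307582a6, 4), (0x607591a3, 4), (0x307582a6, 4), (0x108496a3, 4), (0x607591a3, 4), (0x314260a9, 4)]⟩

def c_4890 : frmChk tA tB F_4890 = true := by decide +kernel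

def r_4890_0 : chkL rootF engF2 tA tB sA_428 sB_428 4 F_4890 [(511, 0, 0)]
    0x42b0ac2b = true := by
  decide +kernel

theorem f_4890 (h : TabsF) : FrameF repsF 428 F_4890.f :=
  frame_of rfl c_4890 (runs_of engOK r_4890_0) (by decide +kernel) h.1 h.2

def F_4891 : FrX :=
  ⟨0x1001040012008080000e0084080041000810100004402008004140002200081004804800402001020800480080081020000080500c000440180802200089,
    0xa3, 1, 0x304160708295a7, 7,
    [(0xa3, 1), (0x207584a6, 4), (0x10547693, 4), (0x647593a8, 4), (0x10547693, 4), (0x216485a7, 4), (0x208693a4, 4), (0x647593a8, 4), (0x208693a4, 4), (0x106574a8, 4), (0x647593a8, 4), (0x216485a7, 4)],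
    [(0x304160708295a7, 7), (0x32658790, 4), (0x657491a2, 4), (0x106584a3, 4), (0x32658790, 4), (0x657491a2, 4)]⟩

def c_4891 : frmChk tB tA F_4891 = true := by decide +kernel

def r_4891_0 : chkL rootF engF2 tB tA sB_428 sA_428 4 F_4891 [(511, 0, 0)]
    0x1 = true := by
  decide +kernel

theorem f_4891 (h : TabsF) : FrameF repsF 428 F_4891.f :=
  frame_of rfl c_4891 (runs_of engOK r_4891_0) (by decide +kernel) h.2 h.1

def F_4892 : FrX :=
  ⟨0x1001040012008080000e0084080041000810100004402008004140002200081004804800402060020800480080045020000080500040044001c002200084,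
    0xa3, 1, 0x304160708295a7, 7,
    [(0xa3, 1), (0x207584a6, 4), (0x10547693, 4), (0x647593a8, 4), (0x10547693, 4), (0x216485a7, 4), (0x208693a4, 4), (0x647593a8, 4), (0x208693a4, 4), (0x106574a8, 4), (0x647593a8, 4), (0x216485a7, 4)],
    [(0x304160708295a7, 7), (0x32658790, 4), (0x657491a2, 4), (0x106584a3, 4), (0x32658790, 4), (0x657491a2, 4)]⟩

def c_4892 : frmChk tB tA F_4892 = true := by decide +kernel

def r_4892_0 : chkL rootF engF2 tB tA sB_428 sA_428 4 F_4892 [(511, 0, 0)]
    0x1 = true := by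
  decide +kernel

theorem f_4892 (h : TabsF) : FrameF repsF 428 F_4892.f :=
  frame_of rfl c_4892 (runs_of engOK r_4892_0) (by decide +kernel) h.2 h.1

def F_4893 : FrX :=
  ⟨0x1001040012008080000e00840800410008101000042008024020010007000080048202001200008820001012000400420040201819000088082101000021,
    0xa3, 1, 0x4051638297a3, 6,
    [(0xa3, 1), (0x207584a6, 4), (0x10547693, 4), (0x647593a8, 4), (0x10547693, 4), (0x216485a7, 4), (0x208693a4, 4), (0x647593a8, 4), (0x208693a4, 4), (0x106574a8, 4), (0x647593a8, 4), (0x216485a7, 4)],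
    [(0x4051638297a3, 6), (0x208491a3, 4), (0x10547693, 4), (0x307691a2, 4), (0x10547693, 4), (0x213085a9, 4), (0x327684a0, 4), (0x307691a2, 4), (0x327684a0, 4), (0x315490a2, 4), (0x307691a2, 4), (0x213085a9, 4)]⟩

def c_4893 : frmChk tB tB F_4893 = true := by decide +kernel

def r_4893_0 : chkL rootF engF2 tB tB sB_428 sB_428 4 F_4893 [(511, 0, 0)]
    0x1 = true := by
  decide +kernel

theorem f_4893 (h : TabsF) : FrameF repsF 428 F_4893.f :=
  frame_of rfl c_4893 (runs_of engOK r_4893_0) (by decide +kernel) h.2 h.2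

def F_4894 : FrX :=
  ⟨0x1c21020000040440000020410001010000820408a0001100000400110202100008214000024040410800200088048440320100011200000404222400200,
    0x0, 0, 0x206483, 3,
    [(0x0, 0), (0x205386a9, 4), (0x105487a9, 4), (0x214376a9, 4), (0x205386a9, 4), (0x105487a9, 4)],
    [(0x206483, 3), (0x204385a9, 4), (0x216573a9, 4), (0x107486a9, 4), (0x204385a9, 4), (0x216573a9, 4)]⟩

def c_4894 : frmChk tA tA F_4894 = true := by decide +kernel

def r_4894_0 : chkL rootF engF2 tA tA sA_428 sA_428 4 F_4894 [(511, 0, 0)]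
    0x1a14a5a1607a142b0b625 = true := by
  decide +kernel

theorem f_4894 (h : TabsF) : FrameF repsF 428 F_4894.f :=
  frame_of rfl c_4894 (runs_of engOK r_4894_0) (by decide +kernel) h.1 h.1

def F_4895 : FrX :=
  ⟨0x1c2102000004044000002041000101000082040890080080000802400200404020404050000030400020140828010600908080006100022440002200080,
    0x0, 0, 0x53637486, 4,
    [(0x0, 0), (0x205386a9, 4), (0x105487a9, 4), (0x214376a9, 4), (0x205386a9, 4), (0x105487a9, 4)],
    [(0x53637486, 4), (0x20437586, 4), (0x107384a9, 4), (0x436587a9, 4), (0x107384a9, 4), (0x21536487, 4), (0x207685a9, 4), (0x436587a9, 4), (0x207685a9, 4), (0x10657483, 4), (0x436587a9, 4), (0x21536487, 4)]⟩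

def c_4895 : frmChk tA tB F_4895 = true := by decide +kernel

def r_4895_0 : chkL rootF engF2 tA tB sA_428 sB_428 4 F_4895 [(511, 0, 0)]
    0x48b = true := by
  decide +kernel

theorem f_4895 (h : TabsF) : FrameF repsF 428 F_4895.f :=
  frame_of rfl c_4895 (runs_of engOK r_4895_0) (by decide +kernel) h.1 h.2

def F_4896 : FrX :=
  ⟨0x1c2102000004044000002041000101000082040888200008000880200002202020600041100008020800404880220040001020480b00200202004802804,
    0x0, 0, 0x21546587, 4,
    [(0x0, 0), (0x205386a9, 4), (0x105487a9, 4), (0x214376a9, 4), (0x205386a9, 4), (0x105487a9, 4)],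
    [(0x21546587, 4), (0x10437586, 4), (0x206584a9, 4), (0x547386a9, 4), (0x206584a9, 4), (0x21547683, 4), (0x105374a9, 4), (0x547386a9, 4), (0x105374a9, 4), (0x20647385, 4), (0x547386a9, 4), (0x21547683, 4)]⟩

def c_4896 : frmChk tA tB F_4896 = true := by decide +kernel

def r_4896_0 : chkL rootF engF2 tA tB sA_428 sB_428 4 F_4896 [(511, 0, 0)]
    0x1 = true := by
  decide +kernel

theorem f_4896 (h : TabsF) : FrameF repsF 428 F_4896.f :=
  frame_of rfl c_4896 (runs_of engOK r_4896_0) (by decide +kernel) h.1 h.2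

theorem cl_428 (h : TabsF) : ∀ f ∈ fr_428, FrameF repsF 428 f :=
  List.forall_mem_cons.2 ⟨f_4869 h, List.forall_mem_cons.2 ⟨f_4870 h, List.forall_mem_cons.2 ⟨f_4871 h, List.forall_mem_cons.2 ⟨f_4872 h, List.forall_mem_cons.2 ⟨f_4873 h, List.forall_mem_cons.2 ⟨f_4874 h, List.forall_mem_cons.2 ⟨f_4875 h, List.forall_mem_cons.2 ⟨f_4876 h, List.forall_mem_cons.2 ⟨f_4877 h, List.forall_mem_cons.2 ⟨f_4878 h, List.forall_mem_cons.2 ⟨f_4879 h, List.forall_mem_cons.2 ⟨f_4880 h, List.forall_mem_cons.2 ⟨f_4881 h, List.forall_mem_cons.2 ⟨f_4882 h, List.forall_mem_cons.2 ⟨f_4883 h, List.forall_mem_cons.2 ⟨f_4884 h, List.forall_mem_cons.2 ⟨f_4885 h, List.forall_mem_cons.2 ⟨f_4886 h, List.forall_mem_cons.2 ⟨f_4887 h, List.forall_mem_cons.2 ⟨f_4888 h, List.forall_mem_cons.2 ⟨f_4889 h, List.forall_mem_cons.2 ⟨f_4890 h, List.forall_mem_cons.2 ⟨f_4891 h, List.forall_mem_cons.2 ⟨f_4892 h, List.forall_mem_cons.2 ⟨f_4893 h, List.forall_mem_cons.2 ⟨f_4894 h, List.forall_mem_cons.2 ⟨f_4895 h, List.forall_mem_cons.2 ⟨f_4896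 h,
    fun _ h0 => absurd h0 List.not_mem_nil⟩⟩⟩⟩⟩⟩⟩⟩⟩⟩⟩⟩⟩⟩⟩⟩⟩⟩⟩⟩⟩⟩⟩⟩⟩⟩⟩⟩

def F_4897 : FrX :=
  ⟨0x2002000900044004000e02041000141000800040808002003800840402004080020120004020010280040c00210010100040420005001028001110408010,
    0xa3, 1, 0x4362758593a3, 6,
    [(0xa3, 1), (0x208693a5, 4), (0x10548793, 4), (0x217693a4, 4), (0x208693a5, 4), (0x10548793, 4)],
    [(0x4362758593a3, 6), (0x607294a8, 4), (0x10758394, 4), (0x526194a3, 4), (0x607294a8, 4), (0x10758394, 4)]⟩

def c_4897 : frmChk tA tA F_4897 = true := by decide +kernel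

def r_4897_0 : chkL rootF engF2 tA tA sA_429 sA_429 4 F_4897 [(511, 0, 0)]
    0x4390ae290e6a8 = true := by
  decide +kernel

theorem f_4897 (h : TabsF) : FrameF repsF 429 F_4897.f :=
  frame_of rfl c_4897 (runs_of engOK r_4897_0) (by decide +kernel) h.1 h.1

def F_4898 : FrX :=
  ⟨0x2002000900044004000e02041000141000800040801002020210020200206808000020200844c00880080008080410002020820020480000202080216000,
    0xa3, 1, 0x102130768794a6, 7,
    [(0xa3, 1), (0x208693a5, 4), (0x10548793, 4), (0x217693a4, 4), (0x208693a5, 4), (0x10548793, 4)],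
    [(0x102130768794a6, 7), (0x305174a6, 4), (0x32748695, 4), (0x207491a8, 4), (0x305174a6, 4), (0x32748695, 4)]⟩

def c_4898 : frmChk tA tA F_4898 = true := by decide +kernel

def r_4898_0 : chkL rootF engF2 tA tA sA_429 sA_429 4 F_4898 [(511, 0, 0)]
    0x10ac2b = true := by
  decide +kernel

theorem f_4898 (h : TabsF) : FrameF repsF 429 F_4898.f :=
  frame_of rfl c_4898 (runs_of engOK r_4898_0) (by decide +kernel) h.1 h.1

def F_4899 : FrX :=
  ⟨0x482000044040440000c20400200090001820400009c0800000a00080000088004822002028000200100801010608120040004040600104041030200008,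
    0xa0, 1, 0x1031405265a7, 6,
    [(0xa0, 1), (0x538690a2, 4), (0x548790a1, 4), (0x21437690, 4), (0x538690a2, 4), (0x548790a1, 4)],
    [(0x1031405265a7, 6), (0x54608297, 4), (0x436197a8, 4), (0x105397a2, 4), (0x54608297, 4), (0x436197a8, 4)]⟩

def c_4899 : frmChk tA tA F_4899 = true := by decide +kernel

def r_4899_0 : chkL rootF engF2 tA tA sA_429 sA_429 4 F_4899 [(511, 0, 0)]
    0x106c4e = true := by
  decide +kernel

theorem f_4899 (h : TabsF) : FrameF repsF 429 F_4899.f :=
  frame_of rfl c_4899 (runs_of engOK r_4899_0) (by decide +kernel) h.1 h.1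

def F_4900 : FrX :=
  ⟨0x482000044040440000c2040020009000182040002020411008020010040024800800101088020180000800301008200500000184848000044010808400,
    0xa0, 1, 0x4251768390a0, 6,
    [(0xa0, 1), (0x538690a2, 4), (0x548790a1, 4), (0x21437690, 4), (0x538690a2, 4), (0x548790a1, 4)],
    [(0x4251768390a0, 6), (0x738190a4, 4), (0x216390a5, 4), (0x54768290, 4), (0x738190a4, 4), (0x216390a5, 4)]⟩

def c_4900 : frmChk tA tA F_4900 = true := by decide +kernel

def r_4900_0 : chkL rootF engF2 tA tA sA_429 sA_429 4 F_4900 [(511, 0, 0)]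
    0x1b2289a1859d0471 = true := by
  decide +kernel

theorem f_4900 (h : TabsF) : FrameF repsF 429 F_4900.f :=
  frame_of rfl c_4900 (runs_of engOK r_4900_0) (by decide +kernel) h.1 h.1

def F_4901 : FrX :=
  ⟨0x80080a000804040e00002101002001000002040890010008084004100480008004181002008004808902201000201120100100041010804000805400200,
    0xa6, 1, 0x3253627493a6, 6,
    [(0xa6, 1), (0x205396a8, 4), (0x10548796, 4), (0x214396a7, 4), (0x205396a8, 4), (0x10548796, 4)],
    [(0x3253627493a6, 6), (0x426087a9, 4), (0x105372a4, 4), (0x425398a7, 4), (0x105372a4, 4), (0x618294a7, 4), (0x536097a8, 4), (0x425398a7, 4), (0x536097a8, 4), (0x107498a2, 4), (0x425398a7, 4), (0x618294a7, 4)]⟩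

def c_4901 : frmChk tA tB F_4901 = true := by decide +kernel

def r_4901_0 : chkL rootF engF2 tA tB sA_429 sB_429 4 F_4901 [(511, 0, 0)]
    0x44d1344d = true := by
  decide +kernel

theorem f_4901 (h : TabsF) : FrameF repsF 429 F_4901.f :=
  frame_of rfl c_4901 (runs_of engOK r_4901_0) (by decide +kernel) h.1 h.2

def F_4902 : FrX :=
  ⟨0x482000044040440000c2040020009000182040000a0004800802008081005001008040088800008008324000092000200801c000408084040014000050,
    0xa0, 1, 0x203251617090a1, 7,
    [(0xa0, 1), (0x538690a2, 4), (0x548790a1, 4), (0x21437690, 4), (0x538690a2, 4), (0x548790a1, 4)],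
    [(0x203251617090a1, 7), (0x10768593, 4), (0x417682a9, 4), (0x405276a3, 4), (0x10768593, 4), (0x417682a9, 4)]⟩

def c_4902 : frmChk tA tA F_4902 = true := by decide +kernel

def r_4902_0 : chkL rootF engF2 tA tA sA_429 sA_429 4 F_4902 [(511, 0, 0)]
    0x40f03d1331a9806c1b = true := by
  decide +kernel

theorem f_4902 (h : TabsF) : FrameF repsF 429 F_4902.f :=
  frame_of rfl c_4902 (runs_of engOK r_4902_0) (by decide +kernel) h.1 h.1

def F_4903 : FrX :=
  ⟨0x80080a000804040e00002101002001000002040880a00008088082020020208004401000a04480080081020100402400101000040410100340300040080,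
    0xa6, 1, 0x2150658191a2, 6,
    [(0xa6, 1), (0x205396a8, 4), (0x10548796, 4), (0x214396a7, 4), (0x205396a8, 4), (0x10548796, 4)],
    [(0x2150658191a2, 6), (0x304276a5, 4), (0x64708195, 4), (0x32407681, 4), (0x64708195, 4), (0x406273a9, 4), (0x204381a5, 4), (0x32407681, 4), (0x204381a5, 4), (0x32607495, 4), (0x32407681, 4), (0x406273a9, 4)]⟩

def c_4903 : frmChk tA tB F_4903 = true := by decide +kernel

def r_4903_0 : chkL rootF engF2 tA tB sA_429 sB_429 4 F_4903 [(511, 0, 0)]
    0x1 = true := by
  decide +kernel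

theorem f_4903 (h : TabsF) : FrameF repsF 429 F_4903.f :=
  frame_of rfl c_4903 (runs_of engOK r_4903_0) (by decide +kernel) h.1 h.2

def F_4904 : FrX :=
  ⟨0x80080a000804040e000021010020010000020408900400020a002480001200801040008080801022401004001a000802024000005003001000804810900,
    0xa6, 1, 0x205061708491a4, 7,
    [(0xa6, 1), (0x205396a8, 4), (0x10548796, 4), (0x214396a7, 4), (0x205396a8, 4), (0x10548796, 4)],
    [(0x205061708491a4, 7), (0x32417086, 4), (0x548697a2, 4), (0x518690a3, 4), (0x32417086, 4), (0x548697a2, 4)]⟩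

def c_4904 : frmChk tA tA F_4904 = true := by decide +kernel

def r_4904_0 : chkL rootF engF2 tA tA sA_429 sA_429 4 F_4904 [(511, 0, 0)]
    0x1 = true := by
  decide +kernel

theorem f_4904 (h : TabsF) : FrameF repsF 429 F_4904.f :=
  frame_of rfl c_4904 (runs_of engOK r_4904_0) (by decide +kernel) h.1 h.1

def F_4905 : FrX :=
  ⟨0x482000044040440000c2040020009000182040020000828000020280040890040020080028010824020200408081802048000108048000002010008904,
    0xa0, 1, 0x1062748593a0, 6,
    [(0xa0, 1), (0x538690a2, 4), (0x548790a1, 4), (0x21437690, 4), (0x538690a2, 4), (0x548790a1, 4)],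
    [(0x1062748593a0, 6), (0x315298a6, 4), (0x315487a0, 4), (0x31426097, 4), (0x315298a6, 4), (0x315487a0, 4)]⟩

def c_4905 : frmChk tA tA F_4905 = true := by decide +kernel

def r_4905_0 : chkL rootF engF2 tA tA sA_429 sA_429 4 F_4905 [(511, 0, 0)]
    0x1 = true := by
  decide +kernel

theorem f_4905 (h : TabsF) : FrameF repsF 429 F_4905.f :=
  frame_of rfl c_4905 (runs_of engOK r_4905_0) (by decide +kernel) h.1 h.1

def F_4906 : FrX :=
  ⟨0x80080a000804040e00002101002001000002040881200008060008100480202020021008030040008088101800100101042000080410084010080140044,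
    0xa6, 1, 0x5361748091a4, 6,
    [(0xa6, 1), (0x205396a8, 4), (0x10548796, 4), (0x214396a7, 4), (0x205396a8, 4), (0x10548796, 4)],
    [(0x5361748091a4, 6), (0x435182a0, 4), (0x417698a3, 4), (0x435076a1, 4), (0x417698a3, 4), (0x305492a1, 4), (0x107682a5, 4), (0x435076a1, 4), (0x107682a5, 4), (0x315098a4, 4), (0x435076a1, 4), (0x305492a1, 4)]⟩

def c_4906 : frmChk tA tB F_4906 = true := by decide +kernel

def r_4906_0 : chkL rootF engF2 tA tB sA_429 sB_429 4 F_4906 [(511, 0, 0)]
    0x41713417 = true := by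
  decide +kernel

theorem f_4906 (h : TabsF) : FrameF repsF 429 F_4906.f :=
  frame_of rfl c_4906 (runs_of engOK r_4906_0) (by decide +kernel) h.1 h.2

def F_4907 : FrX :=
  ⟨0x482000044040440000c2040020009000182040000822080008100008010101011008400c000802800080081230014002040044400900000141000100a0,
    0xa0, 1, 0x314052768495a0, 7,
    [(0xa0, 1), (0x538690a2, 4), (0x548790a1, 4), (0x21437690, 4), (0x538690a2, 4), (0x548790a1, 4)],
    [(0x314052768495a0, 7), (0x427091a5, 4), (0x426098a3, 4), (0x42537681, 4), (0x427091a5, 4), (0x426098a3, 4)]⟩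

def c_4907 : frmChk tA tA F_4907 = true := by decide +kernel

def r_4907_0 : chkL rootF engF2 tA tA sA_429 sA_429 4 F_4907 [(511, 0, 0)]
    0x10d4351706c154171586c = true := by
  decide +kernel

theorem f_4907 (h : TabsF) : FrameF repsF 429 F_4907.f :=
  frame_of rfl c_4907 (runs_of engOK r_4907_0) (by decide +kernel) h.1 h.1

def F_4908 : FrX :=
  ⟨0x2002000900044004000e02041000141000800040800802080080c00400224000020010608090020808080005802008100001002040601000011024201008,
    0xa3, 1, 0x2140517594a2, 6,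
    [(0xa3, 1), (0x208693a5, 4), (0x10548793, 4), (0x217693a4, 4), (0x208693a5, 4), (0x10548793, 4)],
    [(0x2140517594a2, 6), (0x637298a4, 4), (0x10546297, 4), (0x10728396, 4), (0x10546297, 4), (0x328796a5, 4), (0x108693a4, 4), (0x10728396, 4), (0x108693a4, 4), (0x54768392, 4), (0x10728396, 4), (0x328796a5, 4)]⟩

def c_4908 : frmChk tA tB F_4908 = true := by decide +kernel

def r_4908_0 : chkL rootF engF2 tA tB sA_429 sB_429 4 F_4908 [(511, 0, 0)]
    0x1 = true := by
  decide +kernel

theorem f_4908 (h : TabsF) : FrameF repsF 429 F_4908.f :=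
  frame_of rfl c_4908 (runs_of engOK r_4908_0) (by decide +kernel) h.1 h.2

def F_4909 : FrX :=
  ⟨0x1c21020000040440000020410001010000820408a0001100000082100202101000204040024041009840010098008440300000011080010004020580400,
    0x0, 0, 0x43536584, 4,
    [(0x0, 0), (0x205386a9, 4), (0x105487a9, 4), (0x214376a9, 4), (0x205386a9, 4), (0x105487a9, 4)],
    [(0x43536584, 4), (0x20547683, 4), (0x107486a9, 4), (0x537684a9, 4), (0x107486a9, 4), (0x21637584, 4), (0x204385a9, 4), (0x537684a9, 4), (0x204385a9, 4), (0x10536487, 4), (0x537684a9, 4), (0x21637584, 4)]⟩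

def c_4909 : frmChk tA tB F_4909 = true := by decide +kernel

def r_4909_0 : chkL rootF engF2 tA tB sA_429 sB_429 4 F_4909 [(511, 0, 0)]
    0x4591c4711705a = true := by
  decide +kernel

theorem f_4909 (h : TabsF) : FrameF repsF 429 F_4909.f :=
  frame_of rfl c_4909 (runs_of engOK r_4909_0) (by decide +kernel) h.1 h.2

def F_4910 : FrX :=
  ⟨0x2002000900044004000e02041000141000800040800801014038000008000182100204004024001009840012010000000300801030080810100010180401,
    0xa3, 1, 0x4051628397a3, 6,
    [(0xa3, 1), (0x208693a5, 4), (0x10548793, 4), (0x217693a4, 4), (0x208693a5, 4), (0x10548793, 4)],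
    [(0x4051628397a3, 6), (0x326487a1, 4), (0x10548793, 4), (0x658792a0, 4), (0x326487a1, 4), (0x10548793, 4)]⟩

def c_4910 : frmChk tA tA F_4910 = true := by decide +kernel

def r_4910_0 : chkL rootF engF2 tA tA sA_429 sA_429 4 F_4910 [(511, 0, 0)]
    0x186619a601e61585e0417 = true := by
  decide +kernel

theorem f_4910 (h : TabsF) : FrameF repsF 429 F_4910.f :=
  frame_of rfl c_4910 (runs_of engOK r_4910_0) (by decide +kernel) h.1 h.1

def F_4911 : FrX :=
  ⟨0x80080a000804040e00002101002001000002040890020001408010808240004020011010005091000028000808101002024000804001020c40080808100,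
    0xa6, 1, 0x304151657296a8, 7,
    [(0xa6, 1), (0x205396a8, 4), (0x10548796, 4), (0x214396a7, 4), (0x205396a8, 4), (0x10548796, 4)],
    [(0x304151657296a8, 7), (0x627390a1, 4), (0x53618492, 4), (0x628491a0, 4), (0x53618492, 4), (0x207591a6, 4), (0x107384a9, 4), (0x628491a0, 4), (0x107384a9, 4), (0x215396a0, 4), (0x628491a0, 4), (0x207591a6, 4)]⟩

def c_4911 : frmChk tA tB F_4911 = true := by decide +kernel

def r_4911_0 : chkL rootF engF2 tA tB sA_429 sB_429 4 F_4911 [(511, 0, 0)]
    0x1 = true := by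
  decide +kernel

theorem f_4911 (h : TabsF) : FrameF repsF 429 F_4911.f :=
  frame_of rfl c_4911 (runs_of engOK r_4911_0) (by decide +kernel) h.1 h.2

def F_4912 : FrX :=
  ⟨0x1001040012008080000e008408004100081010000420080240200100070000800482020012a000082000401202040042001020041a000088082101000040,
    0xa3, 1, 0x4051638297a3, 6,
    [(0xa3, 1), (0x207584a6, 4), (0x10547693, 4), (0x647593a8, 4), (0x10547693, 4), (0x216485a7, 4), (0x208693a4, 4), (0x647593a8, 4), (0x208693a4, 4), (0x106574a8, 4), (0x647593a8, 4), (0x216485a7, 4)],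
    [(0x4051638297a3, 6), (0x208491a3, 4), (0x10547693, 4), (0x307691a2, 4), (0x10547693, 4), (0x213085a9, 4), (0x327684a0, 4), (0x307691a2, 4), (0x327684a0, 4), (0x315490a2, 4), (0x307691a2, 4), (0x213085a9, 4)]⟩

def c_4912 : frmChk tB tB F_4912 = true := by decide +kernel

def r_4912_0 : chkL rootF engF2 tB tB sB_429 sB_429 4 F_4912 [(511, 0, 0)]
    0x1 = true := by
  decide +kernel

theorem f_4912 (h : TabsF) : FrameF repsF 429 F_4912.f :=
  frame_of rfl c_4912 (runs_of engOK r_4912_0) (by decide +kernel) h.2 h.2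

theorem cl_429 (h : TabsF) : ∀ f ∈ fr_429, FrameF repsF 429 f :=
  List.forall_mem_cons.2 ⟨f_4897 h, List.forall_mem_cons.2 ⟨f_4898 h, List.forall_mem_cons.2 ⟨f_4899 h, List.forall_mem_cons.2 ⟨f_4900 h, List.forall_mem_cons.2 ⟨f_4901 h, List.forall_mem_cons.2 ⟨f_4902 h, List.forall_mem_cons.2 ⟨f_4903 h, List.forall_mem_cons.2 ⟨f_4904 h, List.forall_mem_cons.2 ⟨f_4905 h, List.forall_mem_cons.2 ⟨f_4906 h, List.forall_mem_cons.2 ⟨f_4907 h, List.forall_mem_cons.2 ⟨f_4908 h, List.forall_mem_cons.2 ⟨f_4909 h, List.forall_mem_cons.2 ⟨f_4910 h, List.forall_mem_cons.2 ⟨f_4911 h, List.forall_mem_cons.2 ⟨f_4912 h,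
    fun _ h0 => absurd h0 List.not_mem_nil⟩⟩⟩⟩⟩⟩⟩⟩⟩⟩⟩⟩⟩⟩⟩⟩

def F_4913 : FrX :=
  ⟨0x2002000900044004000e02041000141000800040808000202800840402004080800122004020010280040d00210010100040420005001028001110008010,
    0xa3, 1, 0x21314361728493a6, 8,
    [(0xa3, 1), (0x208693a5, 4), (0x10548793, 4), (0x217693a4, 4), (0x208693a5, 4), (0x10548793, 4)],
    [(0x21314361728493a6, 8), (0x437095a2, 4), (0x21436085, 4), (0x437698a1, 4), (0x437095a2, 4), (0x21436085, 4)]⟩

def c_4913 : frmChk tA tA F_4913 = true := by decide +kernel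

def r_4913_0 : chkL rootF engF2 tA tA sA_430 sA_430 4 F_4913 [(511, 0, 0)]
    0x10e91a = true := by
  decide +kernel

theorem f_4913 (h : TabsF) : FrameF repsF 430 F_4913.f :=
  frame_of rfl c_4913 (runs_of engOK r_4913_0) (by decide +kernel) h.1 h.1

def F_4914 : FrX :=
  ⟨0x2002000900044004000e020410001410008000408010020202100202002068080000202008508008800800090804100020208020a0480000202080212000,
    0xa3, 1, 0x102130768794a6, 7,
    [(0xa3, 1), (0x208693a5, 4), (0x10548793, 4), (0x217693a4, 4), (0x208693a5, 4), (0x10548793, 4)],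
    [(0x102130768794a6, 7), (0x305174a6, 4), (0x32748695, 4), (0x207491a8, 4), (0x305174a6, 4), (0x32748695, 4)]⟩

def c_4914 : frmChk tA tA F_4914 = true := by decide +kernel

def r_4914_0 : chkL rootF engF2 tA tA sA_430 sA_430 4 F_4914 [(511, 0, 0)]
    0x1 = true := by
  decide +kernel

theorem f_4914 (h : TabsF) : FrameF repsF 430 F_4914.f :=
  frame_of rfl c_4914 (runs_of engOK r_4914_0) (by decide +kernel) h.1 h.1

def F_4915 : FrX :=
  ⟨0x482000044040440000c2040020009000182040000900808000a00080000988004820002028000204100801010608120040004040600104001030200008,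
    0xa0, 1, 0x32405363718194a8, 8,
    [(0xa0, 1), (0x538690a2, 4), (0x548790a1, 4), (0x21437690, 4), (0x538690a2, 4), (0x548790a1, 4)],
    [(0x32405363718194a8, 8), (0x436270a5, 4), (0x708492a1, 4), (0x51708396, 4), (0x436270a5, 4), (0x708492a1, 4)]⟩

def c_4915 : frmChk tA tA F_4915 = true := by decide +kernel

def r_4915_0 : chkL rootF engF2 tA tA sA_430 sA_430 4 F_4915 [(511, 0, 0)]
    0x1 = true := by
  decide +kernel

theorem f_4915 (h : TabsF) : FrameF repsF 430 F_4915.f :=
  frame_of rfl c_4915 (runs_of engOK r_4915_0) (by decide +kernel) h.1 h.1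

def F_4916 : FrX :=
  ⟨0x482000044040440000c2040020009000182040002020411008020010040024800800101082060180000800201008200500000884048000044010808440,
    0xa0, 1, 0x4251768390a0, 6,
    [(0xa0, 1), (0x538690a2, 4), (0x548790a1, 4), (0x21437690, 4), (0x538690a2, 4), (0x548790a1, 4)],
    [(0x4251768390a0, 6), (0x738190a4, 4), (0x216390a5, 4), (0x54768290, 4), (0x738190a4, 4), (0x216390a5, 4)]⟩

def c_4916 : frmChk tA tA F_4916 = true := by decide +kernel

def r_4916_0 : chkL rootF engF2 tA tA sA_430 sA_430 4 F_4916 [(511, 0, 0)]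
    0x1 = true := by
  decide +kernel

theorem f_4916 (h : TabsF) : FrameF repsF 430 F_4916.f :=
  frame_of rfl c_4916 (runs_of engOK r_4916_0) (by decide +kernel) h.1 h.1

def F_4917 : FrX :=
  ⟨0x80080a000804040e0000210100200100000204089001000808400410048000800418100200800480c002201002201120100100041002c04000805000200,
    0xa6, 1, 0x3253627493a6, 6,
    [(0xa6, 1), (0x205396a8, 4), (0x10548796, 4), (0x214396a7, 4), (0x205396a8, 4), (0x10548796, 4)],
    [(0x3253627493a6, 6), (0x426087a9, 4), (0x105372a4, 4), (0x425398a7, 4), (0x105372a4, 4), (0x618294a7, 4), (0x536097a8, 4), (0x425398a7, 4), (0x536097a8, 4), (0x107498a2, 4), (0x425398a7, 4), (0x618294a7, 4)]⟩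

def c_4917 : frmChk tA tB F_4917 = true := by decide +kernel

def r_4917_0 : chkL rootF engF2 tA tB sA_430 sB_430 4 F_4917 [(511, 0, 0)]
    0x45916459 = true := by
  decide +kernel

theorem f_4917 (h : TabsF) : FrameF repsF 430 F_4917.f :=
  frame_of rfl c_4917 (runs_of engOK r_4917_0) (by decide +kernel) h.1 h.2

def F_4918 : FrX :=
  ⟨0x482000044040440000c2040020009000182040000a0004800802008081005001008040088800008008920010092000200801c000408084040006010010,
    0xa0, 1, 0x203251617090a1, 7,
    [(0xa0, 1), (0x538690a2, 4), (0x548790a1, 4), (0x21437690, 4), (0x538690a2, 4), (0x548790a1, 4)],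
    [(0x203251617090a1, 7), (0x10768593, 4), (0x417682a9, 4), (0x405276a3, 4), (0x10768593, 4), (0x417682a9, 4)]⟩

def c_4918 : frmChk tA tA F_4918 = true := by decide +kernel

def r_4918_0 : chkL rootF engF2 tA tA sA_430 sA_430 4 F_4918 [(511, 0, 0)]
    0x11384744c5c = true := by
  decide +kernel

theorem f_4918 (h : TabsF) : FrameF repsF 430 F_4918.f :=
  frame_of rfl c_4918 (runs_of engOK r_4918_0) (by decide +kernel) h.1 h.1

def F_4919 : FrX :=
  ⟨0x80080a000804040e00002101002001000002040880a00008088082020020208004401000a10080080081021100402400045000040410100340100040080,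
    0xa6, 1, 0x2150658191a2, 6,
    [(0xa6, 1), (0x205396a8, 4), (0x10548796, 4), (0x214396a7, 4), (0x205396a8, 4), (0x10548796, 4)],
    [(0x2150658191a2, 6), (0x304276a5, 4), (0x64708195, 4), (0x32407681, 4), (0x64708195, 4), (0x406273a9, 4), (0x204381a5, 4), (0x32407681, 4), (0x204381a5, 4), (0x32607495, 4), (0x32407681, 4), (0x406273a9, 4)]⟩

def c_4919 : frmChk tA tB F_4919 = true := by decide +kernel

def r_4919_0 : chkL rootF engF2 tA tB sA_430 sB_430 4 F_4919 [(511, 0, 0)]
    0x1 = true := by
  decide +kernel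

theorem f_4919 (h : TabsF) : FrameF repsF 430 F_4919.f :=
  frame_of rfl c_4919 (runs_of engOK r_4919_0) (by decide +kernel) h.1 h.2

def F_4920 : FrX :=
  ⟨0x2002000900044004000e02041000141000800040800404008120002400020a00220080110404040801040404500000011001820000600200300024000904,
    0xa3, 1, 0x305061748793a5, 7,
    [(0xa3, 1), (0x208693a5, 4), (0x10548793, 4), (0x217693a4, 4), (0x208693a5, 4), (0x10548793, 4)],
    [(0x305061748793a5, 7), (0x304152a9, 4), (0x306584a7, 4), (0x30628197, 4), (0x304152a9, 4), (0x306584a7, 4)]⟩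

def c_4920 : frmChk tA tA F_4920 = true := by decide +kernel

def r_4920_0 : chkL rootF engF2 tA tA sA_430 sA_430 4 F_4920 [(511, 0, 0)]
    0x1 = true := by
  decide +kernel

theorem f_4920 (h : TabsF) : FrameF repsF 430 F_4920.f :=
  frame_of rfl c_4920 (runs_of engOK r_4920_0) (by decide +kernel) h.1 h.1

def F_4921 : FrX :=
  ⟨0x482000044040440000c20400200090001820400020804400008802000400900200188080300110100400800848200020080021080010a0040024200201,
    0xa0, 1, 0x2031658794a0, 6,
    [(0xa0, 1), (0x538690a2, 4), (0x548790a1, 4), (0x21437690, 4), (0x538690a2, 4), (0x548790a1, 4)],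
    [(0x2031658794a0, 6), (0x426175a0, 4), (0x428796a3, 4), (0x30428591, 4), (0x426175a0, 4), (0x428796a3, 4)]⟩

def c_4921 : frmChk tA tA F_4921 = true := by decide +kernel

def r_4921_0 : chkL rootF engF2 tA tA sA_430 sA_430 4 F_4921 [(511, 0, 0)]
    0x10ac2d = true := by
  decide +kernel

theorem f_4921 (h : TabsF) : FrameF repsF 430 F_4921.f :=
  frame_of rfl c_4921 (runs_of engOK r_4921_0) (by decide +kernel) h.1 h.1

def F_4922 : FrX :=
  ⟨0x482000044040440000c2040020009000182040010080102804000110010044804080001008008120000440062010080010810140100208101100020102,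
    0xa0, 1, 0x4350657285a3, 6,
    [(0xa0, 1), (0x538690a2, 4), (0x548790a1, 4), (0x21437690, 4), (0x538690a2, 4), (0x548790a1, 4)],
    [(0x4350657285a3, 6), (0x637582a0, 4), (0x20518394, 4), (0x308294a6, 4), (0x20518394, 4), (0x307186a2, 4), (0x607594a3, 4), (0x308294a6, 4), (0x607594a3, 4), (0x325180a6, 4), (0x308294a6, 4), (0x307186a2, 4)]⟩

def c_4922 : frmChk tA tB F_4922 = true := by decide +kernel

def r_4922_0 : chkL rootF engF2 tA tB sA_430 sB_430 4 F_4922 [(511, 0, 0)]
    0x1 = true := by
  decide +kernel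

theorem f_4922 (h : TabsF) : FrameF repsF 430 F_4922.f :=
  frame_of rfl c_4922 (runs_of engOK r_4922_0) (by decide +kernel) h.1 h.2

def F_4923 : FrX :=
  ⟨0x80080a000804040e00002101002001000002040890080000850000808200404020501008010030410808400024001002024002004010021000902140008,
    0xa6, 1, 0x305461718792a0, 7,
    [(0xa6, 1), (0x205396a8, 4), (0x10548796, 4), (0x214396a7, 4), (0x205396a8, 4), (0x10548796, 4)],
    [(0x305461718792a0, 7), (0x324061a9, 4), (0x325486a7, 4), (0x32508197, 4), (0x324061a9, 4), (0x325486a7, 4)]⟩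

def c_4923 : frmChk tA tA F_4923 = true := by decide +kernel

def r_4923_0 : chkL rootF engF2 tA tA sA_430 sA_430 4 F_4923 [(511, 0, 0)]
    0x56270847 = true := by
  decide +kernel

theorem f_4923 (h : TabsF) : FrameF repsF 430 F_4923.f :=
  frame_of rfl c_4923 (runs_of engOK r_4923_0) (by decide +kernel) h.1 h.1

def F_4924 : FrX :=
  ⟨0x2002000900044004000e0204100014100080004080040088200120400040c002020000a08110011010c000040280200010000810840008200008c0202048,
    0xa3, 1, 0x1020627190a2, 6,
    [(0xa3, 1), (0x208693a5, 4), (0x10548793, 4), (0x217693a4, 4), (0x208693a5, 4), (0x10548793, 4)],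
    [(0x1020627190a2, 6), (0x315084a9, 4), (0x10546297, 4), (0x41506283, 4), (0x10546297, 4), (0x304185a7, 4), (0x436281a9, 4), (0x41506283, 4), (0x436281a9, 4), (0x40518397, 4), (0x41506283, 4), (0x304185a7, 4)]⟩

def c_4924 : frmChk tA tB F_4924 = true := by decide +kernel

def r_4924_0 : chkL rootF engF2 tA tB sA_430 sB_430 4 F_4924 [(511, 0, 0)]
    0x10f00f = true := by
  decide +kernel

theorem f_4924 (h : TabsF) : FrameF repsF 430 F_4924.f :=
  frame_of rfl c_4924 (runs_of engOK r_4924_0) (by decide +kernel) h.1 h.2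

def F_4925 : FrX :=
  ⟨0x1c21020000040440000020410001010000820408a0001100000082100202101000204040024041080860010888008440300000011080000204020580400,
    0x0, 0, 0x43536584, 4,
    [(0x0, 0), (0x205386a9, 4), (0x105487a9, 4), (0x214376a9, 4), (0x205386a9, 4), (0x105487a9, 4)],
    [(0x43536584, 4), (0x20547683, 4), (0x107486a9, 4), (0x537684a9, 4), (0x107486a9, 4), (0x21637584, 4), (0x204385a9, 4), (0x537684a9, 4), (0x204385a9, 4), (0x10536487, 4), (0x537684a9, 4), (0x21637584, 4)]⟩

def c_4925 : frmChk tA tB F_4925 = true := by decide +kernel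

def r_4925_0 : chkL rootF engF2 tA tB sA_430 sB_430 4 F_4925 [(511, 0, 0)]
    0x44e4710e52546499435154a0da0b82e0b = true := by
  decide +kernel

theorem f_4925 (h : TabsF) : FrameF repsF 430 F_4925.f :=
  frame_of rfl c_4925 (runs_of engOK r_4925_0) (by decide +kernel) h.1 h.2

def F_4926 : FrX :=
  ⟨0x2002000900044004000e02041000141000800040800801014038000008000182100204004024001080860012800000000300801030080800300010180401,
    0xa3, 1, 0x4051628397a3, 6,
    [(0xa3, 1), (0x208693a5, 4), (0x10548793, 4), (0x217693a4, 4), (0x208693a5, 4), (0x10548793, 4)],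
    [(0x4051628397a3, 6), (0x326487a1, 4), (0x10548793, 4), (0x658792a0, 4), (0x326487a1, 4), (0x10548793, 4)]⟩

def c_4926 : frmChk tA tA F_4926 = true := by decide +kernel

def r_4926_0 : chkL rootF engF2 tA tA sA_430 sA_430 4 F_4926 [(511, 0, 0)]
    0x105c170741b = true := by
  decide +kernel

theorem f_4926 (h : TabsF) : FrameF repsF 430 F_4926.f :=
  frame_of rfl c_4926 (runs_of engOK r_4926_0) (by decide +kernel) h.1 h.1

def F_4927 : FrX :=
  ⟨0x80080a000804040e0000210100200100000204089002000140801080824000402001101000c019000028000888001002024000005001020c40080808100,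
    0xa6, 1, 0x304151657296a8, 7,
    [(0xa6, 1), (0x205396a8, 4), (0x10548796, 4), (0x214396a7, 4), (0x205396a8, 4), (0x10548796, 4)],
    [(0x304151657296a8, 7), (0x627390a1, 4), (0x53618492, 4), (0x628491a0, 4), (0x53618492, 4), (0x207591a6, 4), (0x107384a9, 4), (0x628491a0, 4), (0x107384a9, 4), (0x215396a0, 4), (0x628491a0, 4), (0x207591a6, 4)]⟩

def c_4927 : frmChk tA tB F_4927 = true := by decide +kernel

def r_4927_0 : chkL rootF engF2 tA tB sA_430 sB_430 4 F_4927 [(511, 0, 0)]
    0x1 = true := by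
  decide +kernel

theorem f_4927 (h : TabsF) : FrameF repsF 430 F_4927.f :=
  frame_of rfl c_4927 (runs_of engOK r_4927_0) (by decide +kernel) h.1 h.2

def F_4928 : FrX :=
  ⟨0x1001040012008080000e0084080041000810100004200802402001000700008004820200168100082000001a00040042000020041a000088082105000040,
    0xa3, 1, 0x4051638297a3, 6,
    [(0xa3, 1), (0x207584a6, 4), (0x10547693, 4), (0x647593a8, 4), (0x10547693, 4), (0x216485a7, 4), (0x208693a4, 4), (0x647593a8, 4), (0x208693a4, 4), (0x106574a8, 4), (0x647593a8, 4), (0x216485a7, 4)],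
    [(0x4051638297a3, 6), (0x208491a3, 4), (0x10547693, 4), (0x307691a2, 4), (0x10547693, 4), (0x213085a9, 4), (0x327684a0, 4), (0x307691a2, 4), (0x327684a0, 4), (0x315490a2, 4), (0x307691a2, 4), (0x213085a9, 4)]⟩

def c_4928 : frmChk tB tB F_4928 = true := by decide +kernel

def r_4928_0 : chkL rootF engF2 tB tB sB_430 sB_430 4 F_4928 [(511, 0, 0)]
    0x1 = true := by
  decide +kernel

theorem f_4928 (h : TabsF) : FrameF repsF 430 F_4928.f :=
  frame_of rfl c_4928 (runs_of engOK r_4928_0) (by decide +kernel) h.2 h.2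

theorem cl_430 (h : TabsF) : ∀ f ∈ fr_430, FrameF repsF 430 f :=
  List.forall_mem_cons.2 ⟨f_4913 h, List.forall_mem_cons.2 ⟨f_4914 h, List.forall_mem_cons.2 ⟨f_4915 h, List.forall_mem_cons.2 ⟨f_4916 h, List.forall_mem_cons.2 ⟨f_4917 h, List.forall_mem_cons.2 ⟨f_4918 h, List.forall_mem_cons.2 ⟨f_4919 h, List.forall_mem_cons.2 ⟨f_4920 h, List.forall_mem_cons.2 ⟨f_4921 h, List.forall_mem_cons.2 ⟨f_4922 h, List.forall_mem_cons.2 ⟨f_4923 h, List.forall_mem_cons.2 ⟨f_4924 h, List.forall_mem_cons.2 ⟨f_4925 h, List.forall_mem_cons.2 ⟨f_4926 h, List.forall_mem_cons.2 ⟨f_4927 h, List.forall_mem_cons.2 ⟨f_4928 h,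
    fun _ h0 => absurd h0 List.not_mem_nil⟩⟩⟩⟩⟩⟩⟩⟩⟩⟩⟩⟩⟩⟩⟩⟩

def F_4929 : FrX :=
  ⟨0x80080a000804040e00002101002001000002040881012000204400100480000804121020001040020808000808040120401106024010081004202820000,
    0xa6, 1, 0x3240536190a1, 6,
    [(0xa6, 1), (0x205396a8, 4), (0x10548796, 4), (0x214396a7, 4), (0x205396a8, 4), (0x10548796, 4)],
    [(0x3240536190a1, 6), (0x52648193, 4), (0x206487a9, 4), (0x506471a3, 4), (0x52648193, 4), (0x206487a9, 4)]⟩

def c_4929 : frmChk tA tA F_4929 = true := by decide +kernel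

def r_4929_0 : chkL rootF engF2 tA tA sA_431 sA_431 4 F_4929 [(511, 0, 0)]
    0x46c2b04b = true := by
  decide +kernel

theorem f_4929 (h : TabsF) : FrameF repsF 431 F_4929.f :=
  frame_of rfl c_4929 (runs_of engOK r_4929_0) (by decide +kernel) h.1 h.1

def F_4930 : FrX :=
  ⟨0x482000044040440000c2040020009000182040000820482008020080010104800400040888001010009001002208200900000148040112108000210080,
    0xa0, 1, 0x102041607582a8, 7,
    [(0xa0, 1), (0x538690a2, 4), (0x548790a1, 4), (0x21437690, 4), (0x538690a2, 4), (0x548790a1, 4)],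
    [(0x102041607582a8, 7), (0x738691a2, 4), (0x647091a5, 4), (0x30528491, 4), (0x738691a2, 4), (0x647091a5, 4)]⟩

def c_4930 : frmChk tA tA F_4930 = true := by decide +kernel

def r_4930_0 : chkL rootF engF2 tA tA sA_431 sA_431 4 F_4930 [(511, 0, 0)]
    0x623 = true := by
  decide +kernel

theorem f_4930 (h : TabsF) : FrameF repsF 431 F_4930.f :=
  frame_of rfl c_4930 (runs_of engOK r_4930_0) (by decide +kernel) h.1 h.1

def F_4931 : FrX :=
  ⟨0x2002000900044004000e02041000141000800040800800818010020400800884200100100904000242000100800050002020120005080040202244011010,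
    0xa3, 1, 0x213050627591a2, 7,
    [(0xa3, 1), (0x208693a5, 4), (0x10548793, 4), (0x217693a4, 4), (0x208693a5, 4), (0x10548793, 4)],
    [(0x213050627591a2, 7), (0x627081a5, 4), (0x62748395, 4), (0x314062a9, 4), (0x627081a5, 4), (0x62748395, 4)]⟩

def c_4931 : frmChk tA tA F_4931 = true := by decide +kernel

def r_4931_0 : chkL rootF engF2 tA tA sA_431 sA_431 4 F_4931 [(511, 0, 0)]
    0x1199a294ad0e803a = true := by
  decide +kernel

theorem f_4931 (h : TabsF) : FrameF repsF 431 F_4931.f :=
  frame_of rfl c_4931 (runs_of engOK r_4931_0) (by decide +kernel) h.1 h.1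

def F_4932 : FrX :=
  ⟨0x1c2102000004044000002041000101000082040890040100001001400400802020204050000030204040808128410001040448821100020204080200000,
    0x0, 0, 0x2143657584, 5,
    [(0x0, 0), (0x205386a9, 4), (0x105487a9, 4), (0x214376a9, 4), (0x205386a9, 4), (0x105487a9, 4)],
    [(0x2143657584, 5), (0x10547683, 4), (0x206587a9, 4), (0x437685a9, 4), (0x206587a9, 4), (0x21647385, 4), (0x105384a9, 4), (0x437685a9, 4), (0x105384a9, 4), (0x20437586, 4), (0x437685a9, 4), (0x21647385, 4)]⟩

def c_4932 : frmChk tA tB F_4932 = true := by decide +kernel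

def r_4932_0 : chkL rootF engF2 tA tB sA_431 sB_431 4 F_4932 [(511, 0, 0)]
    0x1 = true := by
  decide +kernel

theorem f_4932 (h : TabsF) : FrameF repsF 431 F_4932.f :=
  frame_of rfl c_4932 (runs_of engOK r_4932_0) (by decide +kernel) h.1 h.2

def F_4933 : FrX :=
  ⟨0x2002000900044004000e0204100014100080004080080028402000410000c082800004104081000220800800800040120481004026201000001004214040,
    0xa3, 1, 0x324062708497a6, 7,
    [(0xa3, 1), (0x208693a5, 4), (0x10548793, 4), (0x217693a4, 4), (0x208693a5, 4), (0x10548793, 4)],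
    [(0x324062708497a6, 7), (0x435276a0, 4), (0x43718590, 4), (0x436182a9, 4), (0x435276a0, 4), (0x43718590, 4)]⟩

def c_4933 : frmChk tA tA F_4933 = true := by decide +kernel

def r_4933_0 : chkL rootF engF2 tA tA sA_431 sA_431 4 F_4933 [(511, 0, 0)]
    0x11347805c590e41b1b04d0e41b = true := by
  decide +kernel

theorem f_4933 (h : TabsF) : FrameF repsF 431 F_4933.f :=
  frame_of rfl c_4933 (runs_of engOK r_4933_0) (by decide +kernel) h.1 h.1

def F_4934 : FrX :=
  ⟨0x80080a000804040e00002101002001000002040890010008088004044440002020401010000030804050000128402001014008821002020204040808000,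
    0xa6, 1, 0x324354647398a1, 7,
    [(0xa6, 1), (0x205396a8, 4), (0x10548796, 4), (0x214396a7, 4), (0x205396a8, 4), (0x10548796, 4)],
    [(0x324354647398a1, 7), (0x30728195, 4), (0x628194a0, 4), (0x547681a3, 4), (0x30728195, 4), (0x628194a0, 4)]⟩

def c_4934 : frmChk tA tA F_4934 = true := by decide +kernel

def r_4934_0 : chkL rootF engF2 tA tA sA_431 sA_431 4 F_4934 [(511, 0, 0)]
    0x439 = true := by
  decide +kernel

theorem f_4934 (h : TabsF) : FrameF repsF 431 F_4934.f :=
  frame_of rfl c_4934 (runs_of engOK r_4934_0) (by decide +kernel) h.1 h.1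

def F_4935 : FrX :=
  ⟨0x482000044040440000c2040020009000182040020002080100020280a8004400001200008202012100004040802000a008010800408002085110008082,
    0xa0, 1, 0x20324350608497a0, 8,
    [(0xa0, 1), (0x538690a2, 4), (0x548790a1, 4), (0x21437690, 4), (0x538690a2, 4), (0x548790a1, 4)],
    [(0x20324350608497a0, 8), (0x548092a3, 4), (0x768295a1, 4), (0x40768592, 4), (0x768295a1, 4), (0x20318594, 4), (0x507684a3, 4), (0x40768592, 4), (0x507684a3, 4), (0x405298a1, 4), (0x40768592, 4), (0x20318594, 4)]⟩

def c_4935 : frmChk tA tB F_4935 = true := by decide +kernel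

def r_4935_0 : chkL rootF engF2 tA tB sA_431 sB_431 4 F_4935 [(511, 0, 0)]
    0x427 = true := by
  decide +kernel

theorem f_4935 (h : TabsF) : FrameF repsF 431 F_4935.f :=
  frame_of rfl c_4935 (runs_of engOK r_4935_0) (by decide +kernel) h.1 h.2

def F_4936 : FrX :=
  ⟨0x80080a000804040e00002101002001000002040888080880044020402000080040822001080022000040801010610808020002040580083100080220000,
    0xa6, 1, 0x213240517480a1, 7,
    [(0xa6, 1), (0x205396a8, 4), (0x10548796, 4), (0x214396a7, 4), (0x205396a8, 4), (0x10548796, 4)],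
    [(0x213240517480a1, 7), (0x21648395, 4), (0x407295a8, 4), (0x607195a3, 4), (0x21648395, 4), (0x407295a8, 4)]⟩

def c_4936 : frmChk tA tA F_4936 = true := by decide +kernel

def r_4936_0 : chkL rootF engF2 tA tA sA_431 sA_431 4 F_4936 [(511, 0, 0)]
    0x4f05c0e1 = true := by
  decide +kernel

theorem f_4936 (h : TabsF) : FrameF repsF 431 F_4936.f :=
  frame_of rfl c_4936 (runs_of engOK r_4936_0) (by decide +kernel) h.1 h.1

def F_4937 : FrX :=
  ⟨0x2002000900044004000e0204100014100080004080040400812000420005a000140000101400081040040085010400848004201000500204001104001010,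
    0xa3, 1, 0x102030647696a5, 7,
    [(0xa3, 1), (0x208693a5, 4), (0x10548793, 4), (0x217693a4, 4), (0x208693a5, 4), (0x10548793, 4)],
    [(0x102030647696a5, 7), (0x317598a2, 4), (0x307584a6, 4), (0x10627594, 4), (0x317598a2, 4), (0x307584a6, 4)]⟩

def c_4937 : frmChk tA tA F_4937 = true := by decide +kernel

def r_4937_0 : chkL rootF engF2 tA tA sA_431 sA_431 4 F_4937 [(511, 0, 0)]
    0x103d385a017 = true := by
  decide +kernel

theorem f_4937 (h : TabsF) : FrameF repsF 431 F_4937.f :=
  frame_of rfl c_4937 (runs_of engOK r_4937_0) (by decide +kernel) h.1 h.1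

def F_4938 : FrX :=
  ⟨0x482000044040440000c2040020009000182040000881040000880800040090004010510200d00200040008880208900010002040482000101020600400,
    0xa0, 1, 0x4251607495a6, 6,
    [(0xa0, 1), (0x538690a2, 4), (0x548790a1, 4), (0x21437690, 4), (0x538690a2, 4), (0x548790a1, 4)],
    [(0x4251607495a6, 6), (0x648792a3, 4), (0x106597a2, 4), (0x108392a7, 4), (0x106597a2, 4), (0x325498a7, 4), (0x106473a8, 4), (0x108392a7, 4), (0x106473a8, 4), (0x657283a9, 4), (0x108392a7, 4), (0x325498a7, 4)]⟩

def c_4938 : frmChk tA tB F_4938 = true := by decide +kernel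

def r_4938_0 : chkL rootF engF2 tA tB sA_431 sB_431 4 F_4938 [(511, 0, 0)]
    0x453386c1 = true := by
  decide +kernel

theorem f_4938 (h : TabsF) : FrameF repsF 431 F_4938.f :=
  frame_of rfl c_4938 (runs_of engOK r_4938_0) (by decide +kernel) h.1 h.2

def F_4939 : FrX :=
  ⟨0x482000044040440000c2040020009000182040000408448004080200080088100010108110010410000100081220000201001280010c04010380008004,
    0xa0, 1, 0x53647281a0, 5,
    [(0xa0, 1), (0x538690a2, 4), (0x548790a1, 4), (0x21437690, 4), (0x538690a2, 4), (0x548790a1, 4)],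
    [(0x53647281a0, 5), (0x415390a7, 4), (0x216390a8, 4), (0x42658790, 4), (0x415390a7, 4), (0x216390a8, 4)]⟩

def c_4939 : frmChk tA tA F_4939 = true := by decide +kernel

def r_4939_0 : chkL rootF engF2 tA tA sA_431 sA_431 4 F_4939 [(511, 0, 0)]
    0x1 = true := by
  decide +kernel

theorem f_4939 (h : TabsF) : FrameF repsF 431 F_4939.f :=
  frame_of rfl c_4939 (runs_of engOK r_4939_0) (by decide +kernel) h.1 h.1

def F_4940 : FrX :=
  ⟨0x80080a000804040e0000210100200100000204088108020041010010020600400088004402200084019000002841000028011004100010e000002640000,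
    0xa6, 1, 0x315460708490a5, 7,
    [(0xa6, 1), (0x205396a8, 4), (0x10548796, 4), (0x214396a7, 4), (0x205396a8, 4), (0x10548796, 4)],
    [(0x315460708490a5, 7), (0x507492a1, 4), (0x657493a8, 4), (0x32607481, 4), (0x507492a1, 4), (0x657493a8, 4)]⟩

def c_4940 : frmChk tA tA F_4940 = true := by decide +kernel

def r_4940_0 : chkL rootF engF2 tA tA sA_431 sA_431 4 F_4940 [(511, 0, 0)]
    0x4650f017a3036 = true := by
  decide +kernel

theorem f_4940 (h : TabsF) : FrameF repsF 431 F_4940.f :=
  frame_of rfl c_4940 (runs_of engOK r_4940_0) (by decide +kernel) h.1 h.1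

def F_4941 : FrX :=
  ⟨0x2002000900044004000e0204100014100080004081000001810142040082080020010010080404200221a008000410400000808020400240202280010090,
    0xa3, 1, 0x2142518292a6, 6,
    [(0xa3, 1), (0x208693a5, 4), (0x10548793, 4), (0x217693a4, 4), (0x208693a5, 4), (0x10548793, 4)],
    [(0x2142518292a6, 6), (0x417290a3, 4), (0x215086a7, 4), (0x437286a1, 4), (0x215086a7, 4), (0x427395a1, 4), (0x318690a4, 4), (0x437286a1, 4), (0x318690a4, 4), (0x435071a2, 4), (0x437286a1, 4), (0x427395a1, 4)]⟩

def c_4941 : frmChk tA tB F_4941 = true := by decide +kernel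

def r_4941_0 : chkL rootF engF2 tA tB sA_431 sB_431 4 F_4941 [(511, 0, 0)]
    0x10e40f = true := by
  decide +kernel

theorem f_4941 (h : TabsF) : FrameF repsF 431 F_4941.f :=
  frame_of rfl c_4941 (runs_of engOK r_4941_0) (by decide +kernel) h.1 h.2

def F_4942 : FrX :=
  ⟨0x482000044040440000c2040020009000182040004080500804020010010044800080420004b00008080420100000800284000101828804040100008410,
    0xa0, 1, 0x2043517280a3, 6,
    [(0xa0, 1), (0x538690a2, 4), (0x548790a1, 4), (0x21437690, 4), (0x538690a2, 4), (0x548790a1, 4)],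
    [(0x2043517280a3, 6), (0x628794a1, 4), (0x20318594, 4), (0x607594a3, 4), (0x628794a1, 4), (0x20318594, 4)]⟩

def c_4942 : frmChk tA tA F_4942 = true := by decide +kernel

def r_4942_0 : chkL rootF engF2 tA tA sA_431 sA_431 4 F_4942 [(511, 0, 0)]
    0x19c350 = true := by
  decide +kernel

theorem f_4942 (h : TabsF) : FrameF repsF 431 F_4942.f :=
  frame_of rfl c_4942 (runs_of engOK r_4942_0) (by decide +kernel) h.1 h.1

def F_4943 : FrX :=
  ⟨0x2002000900044004000e0204100014100080004080200044100440020900808002010802000400401405d000001000108004220002041020001000c08280,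
    0xa3, 1, 0x102031708291a2, 7,
    [(0xa3, 1), (0x208693a5, 4), (0x10548793, 4), (0x217693a4, 4), (0x208693a5, 4), (0x10548793, 4)],
    [(0x102031708291a2, 7), (0x415260a7, 4), (0x54628397, 4), (0x10526483, 4), (0x54628397, 4), (0x205164a9, 4), (0x406183a7, 4), (0x10526483, 4), (0x406183a7, 4), (0x10426597, 4), (0x10526483, 4), (0x205164a9, 4)]⟩

def c_4943 : frmChk tA tB F_4943 = true := by decide +kernel

def r_4943_0 : chkL rootF engF2 tA tB sA_431 sB_431 4 F_4943 [(511, 0, 0)]
    0x1 = true := by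
  decide +kernel

theorem f_4943 (h : TabsF) : FrameF repsF 431 F_4943.f :=
  frame_of rfl c_4943 (runs_of engOK r_4943_0) (by decide +kernel) h.1 h.2

def F_4944 : FrX :=
  ⟨0x2002000900044004000e02041000141000800040808029002001020401040002000022200a008102408000090100088000400010050800031008c0212000,
    0xa3, 1, 0x3141546571a1, 6,
    [(0xa3, 1), (0x208693a5, 4), (0x10548793, 4), (0x217693a4, 4), (0x208693a5, 4), (0x10548793, 4)],
    [(0x3141546571a1, 6), (0x20618397, 4), (0x658497a0, 4), (0x435197a2, 4), (0x20618397, 4), (0x658497a0, 4)]⟩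

def c_4944 : frmChk tA tA F_4944 = true := by decide +kernel

def r_4944_0 : chkL rootF engF2 tA tA sA_431 sA_431 4 F_4944 [(511, 0, 0)]
    0x10788b0781e = true := by
  decide +kernel

theorem f_4944 (h : TabsF) : FrameF repsF 431 F_4944.f :=
  frame_of rfl c_4944 (runs_of engOK r_4944_0) (by decide +kernel) h.1 h.1

def F_4945 : FrX :=
  ⟨0x482000044040440000c2040020009000182040000824008008200180040020030820004081000280102140201001100080010040490000014080180048,
    0xa0, 1, 0x4151617298a5, 6,
    [(0xa0, 1), (0x538690a2, 4), (0x548790a1, 4), (0x21437690, 4), (0x538690a2, 4), (0x548790a1, 4)],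
    [(0x4151617298a5, 6), (0x708495a3, 4), (0x608492a1, 4), (0x31527684, 4), (0x708495a3, 4), (0x608492a1, 4)]⟩

def c_4945 : frmChk tA tA F_4945 = true := by decide +kernel

def r_4945_0 : chkL rootF engF2 tA tA sA_431 sA_431 4 F_4945 [(511, 0, 0)]
    0x1 = true := by
  decide +kernel

theorem f_4945 (h : TabsF) : FrameF repsF 431 F_4945.f :=
  frame_of rfl c_4945 (runs_of engOK r_4945_0) (by decide +kernel) h.1 h.1

def F_4946 : FrX :=
  ⟨0x80080a000804040e000021010020010000020408840110000a0004020024004004501000a08012000d00001014000802020080084168000000900440080,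
    0xa6, 1, 0x205360728193a6, 7,
    [(0xa6, 1), (0x205396a8, 4), (0x10548796, 4), (0x214396a7, 4), (0x205396a8, 4), (0x10548796, 4)],
    [(0x205360728193a6, 7), (0x304176a9, 4), (0x435286a0, 4), (0x305291a4, 4), (0x435286a0, 4), (0x318790a4, 4), (0x527694a1, 4), (0x305291a4, 4), (0x527694a1, 4), (0x408691a3, 4), (0x305291a4, 4), (0x318790a4, 4)]⟩

def c_4946 : frmChk tA tB F_4946 = true := by decide +kernel

def r_4946_0 : chkL rootF engF2 tA tB sA_431 sB_431 4 F_4946 [(511, 0, 0)]
    0x1 = true := by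
  decide +kernel

theorem f_4946 (h : TabsF) : FrameF repsF 431 F_4946.f :=
  frame_of rfl c_4946 (runs_of engOK r_4946_0) (by decide +kernel) h.1 h.2

def F_4947 : FrX :=
  ⟨0x482000044040440000c2040020009000182040020002080100080288024022020400000104004780000000018490101010009030100000014200808080,
    0xa0, 1, 0x324361768694a6, 7,
    [(0xa0, 1), (0x538690a2, 4), (0x548790a1, 4), (0x21437690, 4), (0x538690a2, 4), (0x548790a1, 4)],
    [(0x324361768694a6, 7), (0x305197a4, 4), (0x608295a1, 4), (0x517482a9, 4), (0x608295a1, 4), (0x416375a9, 4), (0x308294a7, 4), (0x517482a9, 4), (0x308294a7, 4), (0x607491a5, 4), (0x517482a9, 4), (0x416375a9, 4)]⟩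

def c_4947 : frmChk tA tB F_4947 = true := by decide +kernel

def r_4947_0 : chkL rootF engF2 tA tB sA_431 sB_431 4 F_4947 [(511, 0, 0)]
    0x1 = true := by
  decide +kernel

theorem f_4947 (h : TabsF) : FrameF repsF 431 F_4947.f :=
  frame_of rfl c_4947 (runs_of engOK r_4947_0) (by decide +kernel) h.1 h.2

def F_4948 : FrX :=
  ⟨0x2002000900044004000e02041000141000800040808000404208020010810041100204005880001020000020882060000008011005000208101406240000,
    0xa3, 1, 0x10405163748295a3, 8,
    [(0xa3, 1), (0x208693a5, 4), (0x10548793, 4), (0x217693a4, 4), (0x208693a5, 4), (0x10548793, 4)],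
    [(0x10405163748295a3, 8), (0x326084a9, 4), (0x21546097, 4), (0x316085a7, 4), (0x326084a9, 4), (0x21546097, 4)]⟩

def c_4948 : frmChk tA tA F_4948 = true := by decide +kernel

def r_4948_0 : chkL rootF engF2 tA tA sA_431 sA_431 4 F_4948 [(511, 0, 0)]
    0x1 = true := by
  decide +kernel

theorem f_4948 (h : TabsF) : FrameF repsF 431 F_4948.f :=
  frame_of rfl c_4948 (runs_of engOK r_4948_0) (by decide +kernel) h.1 h.1

def F_4949 : FrX :=
  ⟨0x80080a000804040e00002101002001000002040884200000484024000680008000013010080804000884480880010000220012007000402500080808000,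
    0xa6, 1, 0x4050607690a6, 6,
    [(0xa6, 1), (0x205396a8, 4), (0x10548796, 4), (0x214396a7, 4), (0x205396a8, 4), (0x10548796, 4)],
    [(0x4050607690a6, 6), (0x437692a8, 4), (0x40768591, 4), (0x213076a5, 4), (0x437692a8, 4), (0x40768591, 4)]⟩

def c_4949 : frmChk tA tA F_4949 = true := by decide +kernel

def r_4949_0 : chkL rootF engF2 tA tA sA_431 sA_431 4 F_4949 [(511, 0, 0)]
    0x1 = true := by
  decide +kernel

theorem f_4949 (h : TabsF) : FrameF repsF 431 F_4949.f :=
  frame_of rfl c_4949 (runs_of engOK r_4949_0) (by decide +kernel) h.1 h.1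

def F_4950 : FrX :=
  ⟨0x80080a000804040e000021010020010000020408900800004900a0800800082001080404004004140081120808002008100001011008008644040808000,
    0xa6, 1, 0x213254748292a6, 7,
    [(0xa6, 1), (0x205396a8, 4), (0x10548796, 4), (0x214396a7, 4), (0x205396a8, 4), (0x10548796, 4)],
    [(0x213254748292a6, 7), (0x547390a1, 4), (0x207486a5, 4), (0x315486a7, 4), (0x207486a5, 4), (0x435192a7, 4), (0x718690a3, 4), (0x315486a7, 4), (0x718690a3, 4), (0x203175a4, 4), (0x315486a7, 4), (0x435192a7, 4)]⟩

def c_4950 : frmChk tA tB F_4950 = true := by decide +kernel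

def r_4950_0 : chkL rootF engF2 tA tB sA_431 sB_431 4 F_4950 [(511, 0, 0)]
    0x1 = true := by
  decide +kernel

theorem f_4950 (h : TabsF) : FrameF repsF 431 F_4950.f :=
  frame_of rfl c_4950 (runs_of engOK r_4950_0) (by decide +kernel) h.1 h.2

def F_4951 : FrX :=
  ⟨0x1001040012008080000e00840800410008101000068800008080100100180082400200080088100820030004011020022001004405004001110004442000,
    0xa3, 1, 0x103242526471a8, 7,
    [(0xa3, 1), (0x207584a6, 4), (0x10547693, 4), (0x647593a8, 4), (0x10547693, 4), (0x216485a7, 4), (0x208693a4, 4), (0x647593a8, 4), (0x208693a4, 4), (0x106574a8, 4), (0x647593a8, 4), (0x216485a7, 4)],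
    [(0x103242526471a8, 7), (0x425198a3, 4), (0x647198a0, 4), (0x30627598, 4), (0x425198a3, 4), (0x647198a0, 4)]⟩

def c_4951 : frmChk tB tA F_4951 = true := by decide +kernel

def r_4951_0 : chkL rootF engF2 tB tA sB_431 sA_431 4 F_4951 [(511, 0, 0)]
    0x43c0e471 = true := by
  decide +kernel

theorem f_4951 (h : TabsF) : FrameF repsF 431 F_4951.f :=
  frame_of rfl c_4951 (runs_of engOK r_4951_0) (by decide +kernel) h.2 h.1

def F_4952 : FrX :=
  ⟨0x1001040012008080000e008408004100081010000409000080a0010020000882444200010208008820021010800800022010800404024040002084400050,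
    0xa3, 1, 0x203051748496a5, 7,
    [(0xa3, 1), (0x207584a6, 4), (0x10547693, 4), (0x647593a8, 4), (0x10547693, 4), (0x216485a7, 4), (0x208693a4, 4), (0x647593a8, 4), (0x208693a4, 4), (0x106574a8, 4), (0x647593a8, 4), (0x216485a7, 4)],
    [(0x203051748496a5, 7), (0x306197a2, 4), (0x536174a8, 4), (0x50618294, 4), (0x306197a2, 4), (0x536174a8, 4)]⟩

def c_4952 : frmChk tB tA F_4952 = true := by decide +kernel

def r_4952_0 : chkL rootF engF2 tB tA sB_431 sA_431 4 F_4952 [(511, 0, 0)]
    0x48b = true := by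
  decide +kernel

theorem f_4952 (h : TabsF) : FrameF repsF 431 F_4952.f :=
  frame_of rfl c_4952 (runs_of engOK r_4952_0) (by decide +kernel) h.2 h.1

def F_4953 : FrX :=
  ⟨0x600020801080810000c0040180410101001004010040042000002422004240084400002000140110010010088008090041020000404014028020500021,
    0xa0, 1, 0x4053637292a5, 6,
    [(0xa0, 1), (0x637584a2, 4), (0x547690a1, 4), (0x64758390, 4), (0x547690a1, 4), (0x21647385, 4), (0x438690a2, 4), (0x64758390, 4), (0x438690a2, 4), (0x657483a1, 4), (0x64758390, 4), (0x21647385, 4)],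
    [(0x4053637292a5, 6), (0x658094a2, 4), (0x415273a0, 4), (0x507386a2, 4), (0x415273a0, 4), (0x506291a8, 4), (0x60738594, 4), (0x507386a2, 4), (0x60738594, 4), (0x204186a5, 4), (0x507386a2, 4), (0x506291a8, 4)]⟩

def c_4953 : frmChk tB tB F_4953 = true := by decide +kernel

def r_4953_0 : chkL rootF engF2 tB tB sB_431 sB_431 4 F_4953 [(511, 0, 0)]
    0x1 = true := by
  decide +kernel

theorem f_4953 (h : TabsF) : FrameF repsF 431 F_4953.f :=
  frame_of rfl c_4953 (runs_of engOK r_4953_0) (by decide +kernel) h.2 h.2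

def F_4954 : FrX :=
  ⟨0x482000044040440000c2040020009000182040001101002001020800004050010212020004031400020004508000408084008801840420004004800002,
    0xa0, 1, 0x10405263728098a6, 8,
    [(0xa0, 1), (0x538690a2, 4), (0x548790a1, 4), (0x21437690, 4), (0x538690a2, 4), (0x548790a1, 4)],
    [(0x10405263728098a6, 8), (0x436287a9, 4), (0x21438095, 4), (0x436170a5, 4), (0x436287a9, 4), (0x21438095, 4)]⟩

def c_4954 : frmChk tA tA F_4954 = true := by decide +kernel

def r_4954_0 : chkL rootF engF2 tA tA sA_431 sA_431 4 F_4954 [(511, 0, 0)]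
    0x1 = true := by
  decide +kernel

theorem f_4954 (h : TabsF) : FrameF repsF 431 F_4954.f :=
  frame_of rfl c_4954 (runs_of engOK r_4954_0) (by decide +kernel) h.1 h.1

def F_4955 : FrX :=
  ⟨0x2002000900044004000e0204100014100080004081000008110100410080a002100004100810e01010400084020008800100081002880800040810204200,
    0xa3, 1, 0x314253608192a6, 7,
    [(0xa3, 1), (0x208693a5, 4), (0x10548793, 4), (0x217693a4, 4), (0x208693a5, 4), (0x10548793, 4)],
    [(0x314253608192a6, 7), (0x327196a5, 4), (0x214086a7, 4), (0x405371a2, 4), (0x214086a7, 4), (0x317598a2, 4), (0x405296a3, 4), (0x405371a2, 4), (0x405296a3, 4), (0x537286a1, 4), (0x405371a2, 4), (0x317598a2, 4)]⟩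

def c_4955 : frmChk tA tB F_4955 = true := by decide +kernel

def r_4955_0 : chkL rootF engF2 tA tB sA_431 sB_431 4 F_4955 [(511, 0, 0)]
    0x1 = true := by
  decide +kernel

theorem f_4955 (h : TabsF) : FrameF repsF 431 F_4955.f :=
  frame_of rfl c_4955 (runs_of engOK r_4955_0) (by decide +kernel) h.1 h.2

def F_4956 : FrX :=
  ⟨0x1c210200000404400000204100010100008204088820000800088020000220202060004110000808004010c121110204010008886100200240200800000,
    0x0, 0, 0x21546587, 4,
    [(0x0, 0), (0x205386a9, 4), (0x105487a9, 4), (0x214376a9, 4), (0x205386a9, 4), (0x105487a9, 4)],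
    [(0x21546587, 4), (0x10437586, 4), (0x206584a9, 4), (0x547386a9, 4), (0x206584a9, 4), (0x21547683, 4), (0x105374a9, 4), (0x547386a9, 4), (0x105374a9, 4), (0x20647385, 4), (0x547386a9, 4), (0x21547683, 4)]⟩

def c_4956 : frmChk tA tB F_4956 = true := by decide +kernel

def r_4956_0 : chkL rootF engF2 tA tB sA_431 sB_431 4 F_4956 [(511, 0, 0)]
    0x1 = true := by
  decide +kernel

theorem f_4956 (h : TabsF) : FrameF repsF 431 F_4956.f :=
  frame_of rfl c_4956 (runs_of engOK r_4956_0) (by decide +kernel) h.1 h.2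

theorem cl_431 (h : TabsF) : ∀ f ∈ fr_431, FrameF repsF 431 f :=
  List.forall_mem_cons.2 ⟨f_4929 h, List.forall_mem_cons.2 ⟨f_4930 h, List.forall_mem_cons.2 ⟨f_4931 h, List.forall_mem_cons.2 ⟨f_4932 h, List.forall_mem_cons.2 ⟨f_4933 h, List.forall_mem_cons.2 ⟨f_4934 h, List.forall_mem_cons.2 ⟨f_4935 h, List.forall_mem_cons.2 ⟨f_4936 h, List.forall_mem_cons.2 ⟨f_4937 h, List.forall_mem_cons.2 ⟨f_4938 h, List.forall_mem_cons.2 ⟨f_4939 h, List.forall_mem_cons.2 ⟨f_4940 h, List.forall_mem_cons.2 ⟨f_4941 h, List.forall_mem_cons.2 ⟨f_4942 h, List.forall_mem_cons.2 ⟨f_4943 h, List.forall_mem_cons.2 ⟨f_4944 h, List.forall_mem_cons.2 ⟨f_4945 h, List.forall_mem_cons.2 ⟨f_4946 h, List.forall_mem_cons.2 ⟨f_4947 h, List.forall_mem_cons.2 ⟨f_4948 h, List.forall_mem_cons.2 ⟨f_4949 h, List.forall_mem_cons.2 ⟨f_4950 h, List.forall_mem_cons.2 ⟨f_4951 h, List.forall_mem_cons.2 ⟨f_4952 h, List.forall_mem_cons.2 ⟨f_4953 h, List.forall_mem_cons.2 ⟨f_4954 h, List.forall_mem_cons.2 ⟨f_4955 h, List.forall_mem_cons.2 ⟨f_4956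 h,
    fun _ h0 => absurd h0 List.not_mem_nil⟩⟩⟩⟩⟩⟩⟩⟩⟩⟩⟩⟩⟩⟩⟩⟩⟩⟩⟩⟩⟩⟩⟩⟩⟩⟩⟩⟩

def F_4957 : FrX :=
  ⟨0x1001040012008080000e00840800410008101000060000028080050021020028500000200100404140084200400020014001101200000841010402024804,
    0xa3, 1, 0x203153718794a6, 7,
    [(0xa3, 1), (0x207584a6, 4), (0x10547693, 4), (0x647593a8, 4), (0x10547693, 4), (0x216485a7, 4), (0x208693a4, 4), (0x647593a8, 4), (0x208693a4, 4), (0x106574a8, 4), (0x647593a8, 4), (0x216485a7, 4)],
    [(0x203153718794a6, 7), (0x205164a3, 4), (0x64728391, 4), (0x647095a8, 4), (0x205164a3, 4), (0x64728391, 4)]⟩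

def c_4957 : frmChk tB tA F_4957 = true := by decide +kernel

def r_4957_0 : chkL rootF engF2 tB tA sB_432 sA_432 4 F_4957 [(511, 0, 0)]
    0x1 = true := by
  decide +kernel

theorem f_4957 (h : TabsF) : FrameF repsF 432 F_4957.f :=
  frame_of rfl c_4957 (runs_of engOK r_4957_0) (by decide +kernel) h.2 h.1

def F_4958 : FrX :=
  ⟨0x600020801080810000c0040180410101001004020000828002101202000a000050001144004601000802006000100002000a0400140010500200440042,
    0xa0, 1, 0x21324065728092a0, 8,
    [(0xa0, 1), (0x637584a2, 4), (0x547690a1, 4), (0x64758390, 4), (0x547690a1, 4), (0x21647385, 4), (0x438690a2, 4), (0x64758390, 4), (0x438690a2, 4), (0x657483a1, 4), (0x64758390, 4), (0x21647385, 4)],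
    [(0x21324065728092a0, 8), (0x546187a9, 4), (0x436087a2, 4), (0x10538792, 4), (0x546187a9, 4), (0x436087a2, 4)]⟩

def c_4958 : frmChk tB tA F_4958 = true := by decide +kernel

def r_4958_0 : chkL rootF engF2 tB tA sB_432 sA_432 4 F_4958 [(511, 0, 0)]
    0x1 = true := by
  decide +kernel

theorem f_4958 (h : TabsF) : FrameF repsF 432 F_4958.f :=
  frame_of rfl c_4958 (runs_of engOK r_4958_0) (by decide +kernel) h.2 h.1

def F_4959 : FrX :=
  ⟨0x600020801080810000c004018041010100100401001004800000242100841004800040200022014000240040022000a001360200014020000840000848,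
    0xa0, 1, 0x1020405164728498a0, 9,
    [(0xa0, 1), (0x637584a2, 4), (0x547690a1, 4), (0x64758390, 4), (0x547690a1, 4), (0x21647385, 4), (0x438690a2, 4), (0x64758390, 4), (0x438690a2, 4), (0x657483a1, 4), (0x64758390, 4), (0x21647385, 4)],
    [(0x1020405164728498a0, 9), (0x306492a7, 4), (0x648091a5, 4), (0x21647583, 4), (0x306492a7, 4), (0x648091a5, 4)]⟩

def c_4959 : frmChk tB tA F_4959 = true := by decide +kernel

def r_4959_0 : chkL rootF engF2 tB tA sB_432 sA_432 4 F_4959 [(511, 0, 0)]
    0x1 = true := by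
  decide +kernel

theorem f_4959 (h : TabsF) : FrameF repsF 432 F_4959.f :=
  frame_of rfl c_4959 (runs_of engOK r_4959_0) (by decide +kernel) h.2 h.1

def F_4960 : FrX :=
  ⟨0x1001040012008080000e00840800410008101000062800041000030002002020810100110c0040080008020a010010002400800c04060014040200010410,
    0xa3, 1, 0x103143537285a5, 7,
    [(0xa3, 1), (0x207584a6, 4), (0x10547693, 4), (0x647593a8, 4), (0x10547693, 4), (0x216485a7, 4), (0x208693a4, 4), (0x647593a8, 4), (0x208693a4, 4), (0x106574a8, 4), (0x647593a8, 4), (0x216485a7, 4)],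
    [(0x103143537285a5, 7), (0x647198a5, 4), (0x314298a0, 4), (0x50627398, 4), (0x647198a5, 4), (0x314298a0, 4)]⟩

def c_4960 : frmChk tB tA F_4960 = true := by decide +kernel

def r_4960_0 : chkL rootF engF2 tB tA sB_432 sA_432 4 F_4960 [(511, 0, 0)]
    0x1 = true := by
  decide +kernel

theorem f_4960 (h : TabsF) : FrameF repsF 432 F_4960.f :=
  frame_of rfl c_4960 (runs_of engOK r_4960_0) (by decide +kernel) h.2 h.1

def F_4961 : FrX :=
  ⟨0x1c4044000008081000000840080410000101084042200100001081000020800804101114c00440000080208212010000400220404160010101200040400,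
    0x0, 0, 0x21546487, 4,
    [(0x0, 0), (0x20637584, 4), (0x105476a9, 4), (0x647583a9, 4), (0x105476a9, 4), (0x21647385, 4), (0x204386a9, 4), (0x647583a9, 4), (0x204386a9, 4), (0x10657483, 4), (0x647583a9, 4), (0x21647385, 4)],
    [(0x21546487, 4), (0x104375a9, 4), (0x206487a9, 4), (0x216385a9, 4), (0x104375a9, 4), (0x206487a9, 4)]⟩

def c_4961 : frmChk tB tA F_4961 = true := by decide +kernel

def r_4961_0 : chkL rootF engF2 tB tA sB_432 sA_432 4 F_4961 [(511, 0, 0)]
    0x1269191349a83519 = true := by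
  decide +kernel

theorem f_4961 (h : TabsF) : FrameF repsF 432 F_4961.f :=
  frame_of rfl c_4961 (runs_of engOK r_4961_0) (by decide +kernel) h.2 h.1

def F_4962 : FrX :=
  ⟨0x600020801080810000c0040180410101001004001014008000050020142000080120400b40000820000500880220046000082110004008000c08010008,
    0xa0, 1, 0x325360708493a2, 7,
    [(0xa0, 1), (0x637584a2, 4), (0x547690a1, 4), (0x64758390, 4), (0x547690a1, 4), (0x21647385, 4), (0x438690a2, 4), (0x64758390, 4), (0x438690a2, 4), (0x657483a1, 4), (0x64758390, 4), (0x21647385, 4)],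
    [(0x325360708493a2, 7), (0x405392a7, 4), (0x53647182, 4), (0x536098a1, 4), (0x405392a7, 4), (0x53647182, 4)]⟩

def c_4962 : frmChk tB tA F_4962 = true := by decide +kernel

def r_4962_0 : chkL rootF engF2 tB tA sB_432 sA_432 4 F_4962 [(511, 0, 0)]
    0x1 = true := by
  decide +kernel

theorem f_4962 (h : TabsF) : FrameF repsF 432 F_4962.f :=
  frame_of rfl c_4962 (runs_of engOK r_4962_0) (by decide +kernel) h.2 h.1

def F_4963 : FrX :=
  ⟨0x1001040012008080000e00840800410008101000040410048020008200080042180001088100013448000004800800202105000101000600108004801100,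
    0xa3, 1, 0x1031718194a0, 6,
    [(0xa3, 1), (0x207584a6, 4), (0x10547693, 4), (0x647593a8, 4), (0x10547693, 4), (0x216485a7, 4), (0x208693a4, 4), (0x647593a8, 4), (0x208693a4, 4), (0x106574a8, 4), (0x647593a8, 4), (0x216485a7, 4)],
    [(0x1031718194a0, 6), (0x536097a2, 4), (0x416395a8, 4), (0x41537096, 4), (0x416395a8, 4), (0x30758296, 4), (0x417690a2, 4), (0x41537096, 4), (0x417690a2, 4), (0x657093a8, 4), (0x41537096, 4), (0x30758296, 4)]⟩

def c_4963 : frmChk tB tB F_4963 = true := by decide +kernel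

def r_4963_0 : chkL rootF engF2 tB tB sB_432 sB_432 4 F_4963 [(511, 0, 0)]
    0x1 = true := by
  decide +kernel

theorem f_4963 (h : TabsF) : FrameF repsF 432 F_4963.f :=
  frame_of rfl c_4963 (runs_of engOK r_4963_0) (by decide +kernel) h.2 h.2

def F_4964 : FrX :=
  ⟨0x482000044040440000c2040020009000182040002081080101200008008404004802020004060010040208408000408104200142030220001020000082,
    0xa0, 1, 0x43526180a4, 5,
    [(0xa0, 1), (0x538690a2, 4), (0x548790a1, 4), (0x21437690, 4), (0x538690a2, 4), (0x548790a1, 4)],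
    [(0x43526180a4, 5), (0x10428593, 4), (0x708693a2, 4), (0x657193a4, 4), (0x10428593, 4), (0x708693a2, 4)]⟩

def c_4964 : frmChk tA tA F_4964 = true := by decide +kernel

def r_4964_0 : chkL rootF engF2 tA tA sA_432 sA_432 4 F_4964 [(511, 0, 0)]
    0x1 = true := by
  decide +kernel

theorem f_4964 (h : TabsF) : FrameF repsF 432 F_4964.f :=
  frame_of rfl c_4964 (runs_of engOK r_4964_0) (by decide +kernel) h.1 h.1

def F_4965 : FrX :=
  ⟨0x482000044040440000c20400200090001820400004802801040802000200228004001200020800380004408020000c2081010000600604010004080050,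
    0xa0, 1, 0x21314153627481a0, 8,
    [(0xa0, 1), (0x538690a2, 4), (0x548790a1, 4), (0x21437690, 4), (0x538690a2, 4), (0x548790a1, 4)],
    [(0x21314153627481a0, 8), (0x415290a6, 4), (0x437290a8, 4), (0x31758690, 4), (0x415290a6, 4), (0x437290a8, 4)]⟩

def c_4965 : frmChk tA tA F_4965 = true := by decide +kernel

def r_4965_0 : chkL rootF engF2 tA tA sA_432 sA_432 4 F_4965 [(511, 0, 0)]
    0x1 = true := by
  decide +kernel

theorem f_4965 (h : TabsF) : FrameF repsF 432 F_4965.f :=
  frame_of rfl c_4965 (runs_of engOK r_4965_0) (by decide +kernel) h.1 h.1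

def F_4966 : FrX :=
  ⟨0x482000044040440000c20400200090001820400020804400010801000405018008000502002088001800085080010400800101022c0000011000210084,
    0xa0, 1, 0x20314351657393a6, 8,
    [(0xa0, 1), (0x538690a2, 4), (0x548790a1, 4), (0x21437690, 4), (0x538690a2, 4), (0x548790a1, 4)],
    [(0x20314351657393a6, 8), (0x207396a8, 4), (0x52617384, 4), (0x507391a4, 4), (0x207396a8, 4), (0x52617384, 4)]⟩

def c_4966 : frmChk tA tA F_4966 = true := by decide +kernel

def r_4966_0 : chkL rootF engF2 tA tA sA_432 sA_432 4 F_4966 [(511, 0, 0)]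
    0x730 = true := by
  decide +kernel

theorem f_4966 (h : TabsF) : FrameF repsF 432 F_4966.f :=
  frame_of rfl c_4966 (runs_of engOK r_4966_0) (by decide +kernel) h.1 h.1

def F_4967 : FrX :=
  ⟨0x2002000900044004000e020410001410008000408100000811118004010004020200240080048060002414408000080001000810b0000220240040081001,
    0xa3, 1, 0x4252658397a3, 6,
    [(0xa3, 1), (0x208693a5, 4), (0x10548793, 4), (0x217693a4, 4), (0x208693a5, 4), (0x10548793, 4)],
    [(0x4252658397a3, 6), (0x435087a6, 4), (0x10628793, 4), (0x518794a2, 4), (0x435087a6, 4), (0x10628793, 4)]⟩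

def c_4967 : frmChk tA tA F_4967 = true := by decide +kernel

def r_4967_0 : chkL rootF engF2 tA tA sA_432 sA_432 4 F_4967 [(511, 0, 0)]
    0x1 = true := by
  decide +kernel

theorem f_4967 (h : TabsF) : FrameF repsF 432 F_4967.f :=
  frame_of rfl c_4967 (runs_of engOK r_4967_0) (by decide +kernel) h.1 h.1

def F_4968 : FrX :=
  ⟨0x2002000900044004000e0204100014100080004080040048400420208200088002002402000404000a200d008000408002800800300d00000020800c4040,
    0xa3, 1, 0x5164718093a0, 6,
    [(0xa3, 1), (0x208693a5, 4), (0x10548793, 4), (0x217693a4, 4), (0x208693a5, 4), (0x10548793, 4)],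
    [(0x5164718093a0, 6), (0x408391a2, 4), (0x506183a7, 4), (0x54728396, 4), (0x408391a2, 4), (0x506183a7, 4)]⟩

def c_4968 : frmChk tA tA F_4968 = true := by decide +kernel

def r_4968_0 : chkL rootF engF2 tA tA sA_432 sA_432 4 F_4968 [(511, 0, 0)]
    0x40f = true := by
  decide +kernel

theorem f_4968 (h : TabsF) : FrameF repsF 432 F_4968.f :=
  frame_of rfl c_4968 (runs_of engOK r_4968_0) (by decide +kernel) h.1 h.1

def F_4969 : FrX :=
  ⟨0x80080a000804040e00002101002001000002040882100414020010008004084020100408204004200048000802200403025000090003020200080808080,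
    0xa6, 1, 0x31516372a1, 5,
    [(0xa6, 1), (0x205396a8, 4), (0x10548796, 4), (0x214396a7, 4), (0x205396a8, 4), (0x10548796, 4)],
    [(0x31516372a1, 5), (0x32617084, 4), (0x214395a0, 4), (0x32418695, 4), (0x214395a0, 4), (0x416283a7, 4), (0x64708195, 4), (0x32418695, 4), (0x64708195, 4), (0x314286a0, 4), (0x32418695, 4), (0x416283a7, 4)]⟩

def c_4969 : frmChk tA tB F_4969 = true := by decide +kernel

def r_4969_0 : chkL rootF engF2 tA tB sA_432 sB_432 4 F_4969 [(511, 0, 0)]
    0x1 = true := by
  decide +kernel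

theorem f_4969 (h : TabsF) : FrameF repsF 432 F_4969.f :=
  frame_of rfl c_4969 (runs_of engOK r_4969_0) (by decide +kernel) h.1 h.2

def F_4970 : FrX :=
  ⟨0x2002000900044004000e0204100014100080004081000420810080420101040004008080100800a000c002810100088000240400220002005010c0022002,
    0xa3, 1, 0x214251748296a6, 7,
    [(0xa3, 1), (0x208693a5, 4), (0x10548793, 4), (0x217693a4, 4), (0x208693a5, 4), (0x10548793, 4)],
    [(0x214251748296a6, 7), (0x328096a4, 4), (0x41507296, 4), (0x738596a1, 4), (0x328096a4, 4), (0x41507296, 4)]⟩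

def c_4970 : frmChk tA tA F_4970 = true := by decide +kernel

def r_4970_0 : chkL rootF engF2 tA tA sA_432 sA_432 4 F_4970 [(511, 0, 0)]
    0x10d83603c5c352d0 = true := by
  decide +kernel

theorem f_4970 (h : TabsF) : FrameF repsF 432 F_4970.f :=
  frame_of rfl c_4970 (runs_of engOK r_4970_0) (by decide +kernel) h.1 h.1

def F_4971 : FrX :=
  ⟨0x80080a000804040e000021010020010000020408a0000402480088102004080021010000400030212020800600010202400048080203001000024200005,
    0xa6, 1, 0x213240546174a3, 7,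
    [(0xa6, 1), (0x205396a8, 4), (0x10548796, 4), (0x214396a7, 4), (0x205396a8, 4), (0x10548796, 4)],
    [(0x213240546174a3, 7), (0x438291a0, 4), (0x64708591, 4), (0x526391a7, 4), (0x438291a0, 4), (0x64708591, 4)]⟩

def c_4971 : frmChk tA tA F_4971 = true := by decide +kernel

def r_4971_0 : chkL rootF engF2 tA tA sA_432 sA_432 4 F_4971 [(511, 0, 0)]
    0x41e = true := by
  decide +kernel

theorem f_4971 (h : TabsF) : FrameF repsF 432 F_4971.f :=
  frame_of rfl c_4971 (runs_of engOK r_4971_0) (by decide +kernel) h.1 h.1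

def F_4972 : FrX :=
  ⟨0x2002000900044004000e02041000141000800040800400448001400401008400020100460008010012220248400000240401808000900240040202000090,
    0xa3, 1, 0x104153648596a0, 7,
    [(0xa3, 1), (0x208693a5, 4), (0x10548793, 4), (0x217693a4, 4), (0x208693a5, 4), (0x10548793, 4)],
    [(0x104153648596a0, 7), (0x108593a2, 4), (0x107386a4, 4), (0x10426597, 4), (0x108593a2, 4), (0x107386a4, 4)]⟩

def c_4972 : frmChk tA tA F_4972 = true := by decide +kernel

def r_4972_0 : chkL rootF engF2 tA tA sA_432 sA_432 4 F_4972 [(511, 0, 0)]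
    0x51662986 = true := by
  decide +kernel

theorem f_4972 (h : TabsF) : FrameF repsF 432 F_4972.f :=
  frame_of rfl c_4972 (runs_of engOK r_4972_0) (by decide +kernel) h.1 h.1

def F_4973 : FrX :=
  ⟨0x482000044040440000c2040020009000182040000821100000880801240001000040520004088010800418084000802081000110080400100900410500,
    0xa0, 1, 0x425060768698a0, 7,
    [(0xa0, 1), (0x538690a2, 4), (0x548790a1, 4), (0x21437690, 4), (0x538690a2, 4), (0x548790a1, 4)],
    [(0x425060768698a0, 7), (0x307698a4, 4), (0x207695a1, 4), (0x32417685, 4), (0x307698a4, 4), (0x207695a1, 4)]⟩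

def c_4973 : frmChk tA tA F_4973 = true := by decide +kernel

def r_4973_0 : chkL rootF engF2 tA tA sA_432 sA_432 4 F_4973 [(511, 0, 0)]
    0x1 = true := by
  decide +kernel

theorem f_4973 (h : TabsF) : FrameF repsF 432 F_4973.f :=
  frame_of rfl c_4973 (runs_of engOK r_4973_0) (by decide +kernel) h.1 h.1

def F_4974 : FrX :=
  ⟨0x80080a000804040e0000210100200100000204088048100012000840001014400440400404400020e010000100500800222080022002a04000011000820,
    0xa6, 1, 0x2132538397a0, 6,
    [(0xa6, 1), (0x205396a8, 4), (0x10548796, 4), (0x214396a7, 4), (0x205396a8, 4), (0x10548796, 4)],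
    [(0x2132538397a0, 6), (0x548691a3, 4), (0x417096a2, 4), (0x64708591, 4), (0x417096a2, 4), (0x32516498, 4), (0x657084a3, 4), (0x64708591, 4), (0x657084a3, 4), (0x618594a2, 4), (0x64708591, 4), (0x32516498, 4)]⟩

def c_4974 : frmChk tA tB F_4974 = true := by decide +kernel

def r_4974_0 : chkL rootF engF2 tA tB sA_432 sB_432 4 F_4974 [(511, 0, 0)]
    0x1 = true := by
  decide +kernel

theorem f_4974 (h : TabsF) : FrameF repsF 432 F_4974.f :=
  frame_of rfl c_4974 (runs_of engOK r_4974_0) (by decide +kernel) h.1 h.2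

def F_4975 : FrX :=
  ⟨0x2002000900044004000e02041000141000800040800400500820010010012108100024001104001080c0000a0110000c0014001005080800000900055000,
    0xa3, 1, 0x20405264748192a0, 8,
    [(0xa3, 1), (0x208693a5, 4), (0x10548793, 4), (0x217693a4, 4), (0x208693a5, 4), (0x10548793, 4)],
    [(0x20405264748192a0, 8), (0x213054a9, 4), (0x546170a8, 4), (0x54627398, 4), (0x213054a9, 4), (0x546170a8, 4)]⟩

def c_4975 : frmChk tA tA F_4975 = true := by decide +kernel

def r_4975_0 : chkL rootF engF2 tA tA sA_432 sA_432 4 F_4975 [(511, 0, 0)]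
    0x1 = true := by
  decide +kernel

theorem f_4975 (h : TabsF) : FrameF repsF 432 F_4975.f :=
  frame_of rfl c_4975 (runs_of engOK r_4975_0) (by decide +kernel) h.1 h.1

def F_4976 : FrX :=
  ⟨0x80080a000804040e0000210100200100000204088060000440840008001040003202041004c0000008882020101010020040080204101a10000e0000010,
    0xa6, 1, 0x20324351708197a2, 8,
    [(0xa6, 1), (0x205396a8, 4), (0x10548796, 4), (0x214396a7, 4), (0x205396a8, 4), (0x10548796, 4)],
    [(0x20324351708197a2, 8), (0x324165a7, 4), (0x10328795, 4), (0x324096a8, 4), (0x324165a7, 4), (0x10328795, 4)]⟩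

def c_4976 : frmChk tA tA F_4976 = true := by decide +kernel

def r_4976_0 : chkL rootF engF2 tA tA sA_432 sA_432 4 F_4976 [(511, 0, 0)]
    0x19143a = true := by
  decide +kernel

theorem f_4976 (h : TabsF) : FrameF repsF 432 F_4976.f :=
  frame_of rfl c_4976 (runs_of engOK r_4976_0) (by decide +kernel) h.1 h.1

def F_4977 : FrX :=
  ⟨0x80080a000804040e000021010020010000020408900800004840014002200080148020010040204808100820110100800200a0006000402100a80800080,
    0xa6, 1, 0x3141647194a3, 6,
    [(0xa6, 1), (0x205396a8, 4), (0x10548796, 4), (0x214396a7, 4), (0x205396a8, 4), (0x10548796, 4)],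
    [(0x3141647194a3, 6), (0x206183a5, 4), (0x61708495, 4), (0x436172a9, 4), (0x206183a5, 4), (0x61708495, 4)]⟩

def c_4977 : frmChk tA tA F_4977 = true := by decide +kernel

def r_4977_0 : chkL rootF engF2 tA tA sA_432 sA_432 4 F_4977 [(511, 0, 0)]
    0x44b0b8a9916c1 = true := by
  decide +kernel

theorem f_4977 (h : TabsF) : FrameF repsF 432 F_4977.f :=
  frame_of rfl c_4977 (runs_of engOK r_4977_0) (by decide +kernel) h.1 h.1

def F_4978 : FrX :=
  ⟨0x482000044040440000c2040020009000182040010080c80000800810010410020020410000048100080801c00108010014006100084040011020009010,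
    0xa0, 1, 0x54647080a4, 5,
    [(0xa0, 1), (0x538690a2, 4), (0x548790a1, 4), (0x21437690, 4), (0x538690a2, 4), (0x548790a1, 4)],
    [(0x54647080a4, 5), (0x405382a7, 4), (0x508196a4, 4), (0x407396a5, 4), (0x508196a4, 4), (0x213074a5, 4), (0x758296a3, 4), (0x407396a5, 4), (0x758296a3, 4), (0x547381a0, 4), (0x407396a5, 4), (0x213074a5, 4)]⟩

def c_4978 : frmChk tA tB F_4978 = true := by decide +kernel

def r_4978_0 : chkL rootF engF2 tA tB sA_432 sB_432 4 F_4978 [(511, 0, 0)]
    0x1 = true := by
  decide +kernel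

theorem f_4978 (h : TabsF) : FrameF repsF 432 F_4978.f :=
  frame_of rfl c_4978 (runs_of engOK r_4978_0) (by decide +kernel) h.1 h.2

def F_4979 : FrX :=
  ⟨0x482000044040440000c2040020009000182040010080080101000180020102808400400804040410000221022108440014008000600080014040040050,
    0xa0, 1, 0x5265738098a4, 6,
    [(0xa0, 1), (0x538690a2, 4), (0x548790a1, 4), (0x21437690, 4), (0x538690a2, 4), (0x548790a1, 4)],
    [(0x5265738098a4, 6), (0x40768592, 4), (0x408193a6, 4), (0x324051a7, 4), (0x40768592, 4), (0x408193a6, 4)]⟩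

def c_4979 : frmChk tA tA F_4979 = true := by decide +kernel

def r_4979_0 : chkL rootF engF2 tA tA sA_432 sA_432 4 F_4979 [(511, 0, 0)]
    0x181dc2c0c1b = true := by
  decide +kernel

theorem f_4979 (h : TabsF) : FrameF repsF 432 F_4979.f :=
  frame_of rfl c_4979 (runs_of engOK r_4979_0) (by decide +kernel) h.1 h.1

def F_4980 : FrX :=
  ⟨0x80080a000804040e0000210100200100000204089002000140801080881000400408100100402100801024010804140002400000600022008a044400200,
    0xa6, 1, 0x3051647298a6, 6,
    [(0xa6, 1), (0x205396a8, 4), (0x10548796, 4), (0x214396a7, 4), (0x205396a8, 4), (0x10548796, 4)],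
    [(0x3051647298a6, 6), (0x107384a9, 4), (0x53618492, 4), (0x607584a2, 4), (0x107384a9, 4), (0x53618492, 4)]⟩

def c_4980 : frmChk tA tA F_4980 = true := by decide +kernel

def r_4980_0 : chkL rootF engF2 tA tA sA_432 sA_432 4 F_4980 [(511, 0, 0)]
    0x1 = true := by
  decide +kernel

theorem f_4980 (h : TabsF) : FrameF repsF 432 F_4980.f :=
  frame_of rfl c_4980 (runs_of engOK r_4980_0) (by decide +kernel) h.1 h.1

def F_4981 : FrX :=
  ⟨0x80080a000804040e00002101002001000002040890020001408010808240004020011010000031000022a010801010020240020040010104600a0008010,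
    0xa6, 1, 0x304151657296a8, 7,
    [(0xa6, 1), (0x205396a8, 4), (0x10548796, 4), (0x214396a7, 4), (0x205396a8, 4), (0x10548796, 4)],
    [(0x304151657296a8, 7), (0x627390a1, 4), (0x53618492, 4), (0x628491a0, 4), (0x53618492, 4), (0x207591a6, 4), (0x107384a9, 4), (0x628491a0, 4), (0x107384a9, 4), (0x215396a0, 4), (0x628491a0, 4), (0x207591a6, 4)]⟩

def c_4981 : frmChk tA tB F_4981 = true := by decide +kernel

def r_4981_0 : chkL rootF engF2 tA tB sA_432 sB_432 4 F_4981 [(511, 0, 0)]
    0x1 = true := by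
  decide +kernel

theorem f_4981 (h : TabsF) : FrameF repsF 432 F_4981.f :=
  frame_of rfl c_4981 (runs_of engOK r_4981_0) (by decide +kernel) h.1 h.2

def F_4982 : FrX :=
  ⟨0x482000044040440000c20400200090001820400021020001010801000040502202100010240004008000408880018012180010111c8000004000008404,
    0xa0, 1, 0x10314251627592a6, 8,
    [(0xa0, 1), (0x538690a2, 4), (0x548790a1, 4), (0x21437690, 4), (0x538690a2, 4), (0x548790a1, 4)],
    [(0x10314251627592a6, 8), (0x647091a8, 4), (0x51647283, 4), (0x206495a3, 4), (0x647091a8, 4), (0x51647283, 4)]⟩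

def c_4982 : frmChk tA tA F_4982 = true := by decide +kernel

def r_4982_0 : chkL rootF engF2 tA tA sA_432 sA_432 4 F_4982 [(511, 0, 0)]
    0x1 = true := by
  decide +kernel

theorem f_4982 (h : TabsF) : FrameF repsF 432 F_4982.f :=
  frame_of rfl c_4982 (runs_of engOK r_4982_0) (by decide +kernel) h.1 h.1

def F_4983 : FrX :=
  ⟨0x2002000900044004000e02041000141000800040800801014010020211000242000202004024000410800202000048040305001001101221000004010210,
    0xa3, 1, 0x214054628292a6, 7,
    [(0xa3, 1), (0x208693a5, 4), (0x10548793, 4), (0x217693a4, 4), (0x208693a5, 4), (0x10548793, 4)],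
    [(0x214054628292a6, 7), (0x657094a3, 4), (0x425081a7, 4), (0x637081a5, 4), (0x425081a7, 4), (0x607392a5, 4), (0x538194a6, 4), (0x637081a5, 4), (0x538194a6, 4), (0x426375a0, 4), (0x637081a5, 4), (0x607392a5, 4)]⟩

def c_4983 : frmChk tA tB F_4983 = true := by decide +kernel

def r_4983_0 : chkL rootF engF2 tA tB sA_432 sB_432 4 F_4983 [(511, 0, 0)]
    0x1 = true := by
  decide +kernel

theorem f_4983 (h : TabsF) : FrameF repsF 432 F_4983.f :=
  frame_of rfl c_4983 (runs_of engOK r_4983_0) (by decide +kernel) h.1 h.2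

def F_4984 : FrX :=
  ⟨0x1c21020000040440000020410001010000820408882000080008802000022020206000411000080a800040410b02004000101090230021000a004800000,
    0x0, 0, 0x21546587, 4,
    [(0x0, 0), (0x205386a9, 4), (0x105487a9, 4), (0x214376a9, 4), (0x205386a9, 4), (0x105487a9, 4)],
    [(0x21546587, 4), (0x10437586, 4), (0x206584a9, 4), (0x547386a9, 4), (0x206584a9, 4), (0x21547683, 4), (0x105374a9, 4), (0x547386a9, 4), (0x105374a9, 4), (0x20647385, 4), (0x547386a9, 4), (0x21547683, 4)]⟩

def c_4984 : frmChk tA tB F_4984 = true := by decide +kernel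

def r_4984_0 : chkL rootF engF2 tA tB sA_432 sB_432 4 F_4984 [(511, 0, 0)]
    0x4cc = true := by
  decide +kernel

theorem f_4984 (h : TabsF) : FrameF repsF 432 F_4984.f :=
  frame_of rfl c_4984 (runs_of engOK r_4984_0) (by decide +kernel) h.1 h.2

theorem cl_432 (h : TabsF) : ∀ f ∈ fr_432, FrameF repsF 432 f :=
  List.forall_mem_cons.2 ⟨f_4957 h, List.forall_mem_cons.2 ⟨f_4958 h, List.forall_mem_cons.2 ⟨f_4959 h, List.forall_mem_cons.2 ⟨f_4960 h, List.forall_mem_cons.2 ⟨f_4961 h, List.forall_mem_cons.2 ⟨f_4962 h, List.forall_mem_cons.2 ⟨f_4963 h, List.forall_mem_cons.2 ⟨f_4964 h, List.forall_mem_cons.2 ⟨f_4965 h, List.forall_mem_cons.2 ⟨f_4966 h, List.forall_mem_cons.2 ⟨f_4967 h, List.forall_mem_cons.2 ⟨f_4968 h, List.forall_mem_cons.2 ⟨f_4969 h, List.forall_mem_cons.2 ⟨f_4970 h, List.forall_mem_cons.2 ⟨f_4971 h, List.forall_mem_cons.2 ⟨f_4972 h, List.forall_mem_cons.2 ⟨f_4973 h, List.forall_mem_cons.2 ⟨f_4974 h, List.forall_mem_cons.2 ⟨f_4975 h, List.forall_mem_cons.2 ⟨f_4976 h, List.forall_mem_cons.2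 ⟨f_4977 h, List.forall_mem_cons.2 ⟨f_4978 h, List.forall_mem_cons.2 ⟨f_4979 h, List.forall_mem_cons.2 ⟨f_4980 h, List.forall_mem_cons.2 ⟨f_4981 h, List.forall_mem_cons.2 ⟨f_4982 h, List.forall_mem_cons.2 ⟨f_4983 h, List.forall_mem_cons.2 ⟨f_4984 h,
    fun _ h0 => absurd h0 List.not_mem_nil⟩⟩⟩⟩⟩⟩⟩⟩⟩⟩⟩⟩⟩⟩⟩⟩⟩⟩⟩⟩⟩⟩⟩⟩⟩⟩⟩⟩

def F_4985 : FrX :=
  ⟨0x80080a000804040e000021010020010000020408804210020101004002040080084400a000801001081000002808000a048048001003021000802210104,
    0xa6, 1, 0x10415160758290a3, 8,
    [(0xa6, 1), (0x205396a8, 4), (0x10548796, 4), (0x214396a7, 4), (0x205396a8, 4), (0x10548796, 4)],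
    [(0x10415160758290a3, 8), (0x216398a7, 4), (0x42637095, 4), (0x416385a0, 4), (0x216398a7, 4), (0x42637095, 4)]⟩

def c_4985 : frmChk tA tA F_4985 = true := by decide +kernel

def r_4985_0 : chkL rootF engF2 tA tA sA_433 sA_433 4 F_4985 [(511, 0, 0)]
    0x40f = true := by
  decide +kernel

theorem f_4985 (h : TabsF) : FrameF repsF 433 F_4985.f :=
  frame_of rfl c_4985 (runs_of engOK r_4985_0) (by decide +kernel) h.1 h.1

def F_4986 : FrX :=
  ⟨0x1c2102000004044000002041000101000082040890080080000810010200404020014808002808480020220020a200020042020040100018100a0008808,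
    0x0, 0, 0x537585, 3,
    [(0x0, 0), (0x205386a9, 4), (0x105487a9, 4), (0x214376a9, 4), (0x205386a9, 4), (0x105487a9, 4)],
    [(0x537585, 3), (0x207685a9, 4), (0x107384a9, 4), (0x215463a9, 4), (0x207685a9, 4), (0x107384a9, 4)]⟩

def c_4986 : frmChk tA tA F_4986 = true := by decide +kernel

def r_4986_0 : chkL rootF engF2 tA tA sA_433 sA_433 4 F_4986 [(511, 0, 0)]
    0x1 = true := by
  decide +kernel

theorem f_4986 (h : TabsF) : FrameF repsF 433 F_4986.f :=
  frame_of rfl c_4986 (runs_of engOK r_4986_0) (by decide +kernel) h.1 h.1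

def F_4987 : FrX :=
  ⟨0x80080a000804040e00002101002001000002040890020002210000420204004020500048002809080028000020a01002100102004001001810002900808,
    0xa6, 1, 0x4351618290a4, 6,
    [(0xa6, 1), (0x205396a8, 4), (0x10548796, 4), (0x214396a7, 4), (0x205396a8, 4), (0x10548796, 4)],
    [(0x4351618290a4, 6), (0x547198a2, 4), (0x307596a1, 4), (0x304271a5, 4), (0x307596a1, 4), (0x217486a5, 4), (0x305298a4, 4), (0x304271a5, 4), (0x305298a4, 4), (0x425196a7, 4), (0x304271a5, 4), (0x217486a5, 4)]⟩

def c_4987 : frmChk tA tB F_4987 = true := by decide +kernel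

def r_4987_0 : chkL rootF engF2 tA tB sA_433 sB_433 4 F_4987 [(511, 0, 0)]
    0x1 = true := by
  decide +kernel

theorem f_4987 (h : TabsF) : FrameF repsF 433 F_4987.f :=
  frame_of rfl c_4987 (runs_of engOK r_4987_0) (by decide +kernel) h.1 h.2

def F_4988 : FrX :=
  ⟨0x2002000900044004000e020410001410008000408040002801010240010084020200048081020084840202000208200010040200060008008100c0008848,
    0xa3, 1, 0x305462768192a3, 7,
    [(0xa3, 1), (0x208693a5, 4), (0x10548793, 4), (0x217693a4, 4), (0x208693a5, 4), (0x10548793, 4)],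
    [(0x305462768192a3, 7), (0x607193a4, 4), (0x21546083, 4), (0x607298a5, 4), (0x607193a4, 4), (0x21546083, 4)]⟩

def c_4988 : frmChk tA tA F_4988 = true := by decide +kernel

def r_4988_0 : chkL rootF engF2 tA tA sA_433 sA_433 4 F_4988 [(511, 0, 0)]
    0x1 = true := by
  decide +kernel

theorem f_4988 (h : TabsF) : FrameF repsF 433 F_4988.f :=
  frame_of rfl c_4988 (runs_of engOK r_4988_0) (by decide +kernel) h.1 h.1

def F_4989 : FrX :=
  ⟨0x80080a000804040e0000210100200100000204088820010030408010001200800402400140800800a000800040601800002000480808804040888020840,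
    0xa6, 1, 0x3240516382a1, 6,
    [(0xa6, 1), (0x205396a8, 4), (0x10548796, 4), (0x214396a7, 4), (0x205396a8, 4), (0x10548796, 4)],
    [(0x3240516382a1, 6), (0x32618495, 4), (0x107395a4, 4), (0x607295a8, 4), (0x32618495, 4), (0x107395a4, 4)]⟩

def c_4989 : frmChk tA tA F_4989 = true := by decide +kernel

def r_4989_0 : chkL rootF engF2 tA tA sA_433 sA_433 4 F_4989 [(511, 0, 0)]
    0x1 = true := by
  decide +kernel

theorem f_4989 (h : TabsF) : FrameF repsF 433 F_4989.f :=
  frame_of rfl c_4989 (runs_of engOK r_4989_0) (by decide +kernel) h.1 h.1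

def F_4990 : FrX :=
  ⟨0x2002000900044004000e02041000141000800040808000208120000404020a0820001010140800880a010010040400801001800440048000100804011900,
    0xa3, 1, 0x435162728295a0, 7,
    [(0xa3, 1), (0x208693a5, 4), (0x10548793, 4), (0x217693a4, 4), (0x208693a5, 4), (0x10548793, 4)],
    [(0x435162728295a0, 7), (0x107294a8, 4), (0x107693a5, 4), (0x10436285, 4), (0x107294a8, 4), (0x107693a5, 4)]⟩

def c_4990 : frmChk tA tA F_4990 = true := by decide +kernel

def r_4990_0 : chkL rootF engF2 tA tA sA_433 sA_433 4 F_4990 [(511, 0, 0)]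
    0x1 = true := by
  decide +kernel

theorem f_4990 (h : TabsF) : FrameF repsF 433 F_4990.f :=
  frame_of rfl c_4990 (runs_of engOK r_4990_0) (by decide +kernel) h.1 h.1

def F_4991 : FrX :=
  ⟨0x482000044040440000c2040020009000182040010020082004000404010801811000101001080180000440042010080080084440080801100900010122,
    0xa0, 1, 0x5063718194a2, 6,
    [(0xa0, 1), (0x538690a2, 4), (0x548790a1, 4), (0x21437690, 4), (0x538690a2, 4), (0x548790a1, 4)],
    [(0x5063718194a2, 6), (0x106397a5, 4), (0x31428590, 4), (0x10427693, 4), (0x31428590, 4), (0x617093a8, 4), (0x427396a5, 4), (0x10427693, 4), (0x427396a5, 4), (0x30768591, 4), (0x10427693, 4), (0x617093a8, 4)]⟩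

def c_4991 : frmChk tA tB F_4991 = true := by decide +kernel

def r_4991_0 : chkL rootF engF2 tA tB sA_433 sB_433 4 F_4991 [(511, 0, 0)]
    0x1 = true := by
  decide +kernel

theorem f_4991 (h : TabsF) : FrameF repsF 433 F_4991.f :=
  frame_of rfl c_4991 (runs_of engOK r_4991_0) (by decide +kernel) h.1 h.2

def F_4992 : FrX :=
  ⟨0x482000044040440000c2040020009000182040010040100101000180020808208012002001040814100404200401420048008000600200003030000410,
    0xa0, 1, 0x21325160708194a6, 8,
    [(0xa0, 1), (0x538690a2, 4), (0x548790a1, 4), (0x21437690, 4), (0x538690a2, 4), (0x548790a1, 4)],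
    [(0x21325160708194a6, 8), (0x214073a5, 4), (0x40658792, 4), (0x408391a6, 4), (0x214073a5, 4), (0x40658792, 4)]⟩

def c_4992 : frmChk tA tA F_4992 = true := by decide +kernel

def r_4992_0 : chkL rootF engF2 tA tA sA_433 sA_433 4 F_4992 [(511, 0, 0)]
    0x52c = true := by
  decide +kernel

theorem f_4992 (h : TabsF) : FrameF repsF 433 F_4992.f :=
  frame_of rfl c_4992 (runs_of engOK r_4992_0) (by decide +kernel) h.1 h.1

def F_4993 : FrX :=
  ⟨0x2002000900044004000e02041000141000800040800401042010200010206801000100108050c00410100100080048000220082060200000404040214200,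
    0xa3, 1, 0x2031647393a6, 6,
    [(0xa3, 1), (0x208693a5, 4), (0x10548793, 4), (0x217693a4, 4), (0x208693a5, 4), (0x10548793, 4)],
    [(0x2031647393a6, 6), (0x205186a9, 4), (0x326574a1, 4), (0x517498a6, 4), (0x326574a1, 4), (0x308591a6, 4), (0x207496a8, 4), (0x517498a6, 4), (0x207496a8, 4), (0x326198a5, 4), (0x517498a6, 4), (0x308591a6, 4)]⟩

def c_4993 : frmChk tA tB F_4993 = true := by decide +kernel

def r_4993_0 : chkL rootF engF2 tA tB sA_433 sB_433 4 F_4993 [(511, 0, 0)]
    0x1 = true := by
  decide +kernel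

theorem f_4993 (h : TabsF) : FrameF repsF 433 F_4993.f :=
  frame_of rfl c_4993 (runs_of engOK r_4993_0) (by decide +kernel) h.1 h.2

def F_4994 : FrX :=
  ⟨0x80080a000804040e00002101002001000002040880440404020004800080088008180402400040814100200600040420201108001003800400202400010,
    0xa6, 1, 0x32436295a6, 5,
    [(0xa6, 1), (0x205396a8, 4), (0x10548796, 4), (0x214396a7, 4), (0x205396a8, 4), (0x10548796, 4)],
    [(0x32436295a6, 5), (0x536094a8, 4), (0x10538792, 4), (0x425361a7, 4), (0x536094a8, 4), (0x10538792, 4)]⟩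

def c_4994 : frmChk tA tA F_4994 = true := by decide +kernel

def r_4994_0 : chkL rootF engF2 tA tA sA_433 sA_433 4 F_4994 [(511, 0, 0)]
    0x1 = true := by
  decide +kernel

theorem f_4994 (h : TabsF) : FrameF repsF 433 F_4994.f :=
  frame_of rfl c_4994 (runs_of engOK r_4994_0) (by decide +kernel) h.1 h.1

def F_4995 : FrX :=
  ⟨0x482000044040440000c20400200090001820400020202120010801000801028002000600020a0010800811100000240500200810908080004004800208,
    0xa0, 1, 0x5162748390a0, 6,
    [(0xa0, 1), (0x538690a2, 4), (0x548790a1, 4), (0x21437690, 4), (0x538690a2, 4), (0x548790a1, 4)],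
    [(0x5162748390a0, 6), (0x328190a6, 4), (0x437190a5, 4), (0x42658790, 4), (0x328190a6, 4), (0x437190a5, 4)]⟩

def c_4995 : frmChk tA tA F_4995 = true := by decide +kernel

def r_4995_0 : chkL rootF engF2 tA tA sA_433 sA_433 4 F_4995 [(511, 0, 0)]
    0x1 = true := by
  decide +kernel

theorem f_4995 (h : TabsF) : FrameF repsF 433 F_4995.f :=
  frame_of rfl c_4995 (runs_of engOK r_4995_0) (by decide +kernel) h.1 h.1

def F_4996 : FrX :=
  ⟨0x482000044040440000c204002000900018204000220010010808000481004120020200140000802080b40000410140000801c002200200101004010042,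
    0xa0, 1, 0x314062708592a0, 7,
    [(0xa0, 1), (0x538690a2, 4), (0x548790a1, 4), (0x21437690, 4), (0x538690a2, 4), (0x548790a1, 4)],
    [(0x314062708592a0, 7), (0x527681a9, 4), (0x547680a3, 4), (0x10427693, 4), (0x527681a9, 4), (0x547680a3, 4)]⟩

def c_4996 : frmChk tA tA F_4996 = true := by decide +kernel

def r_4996_0 : chkL rootF engF2 tA tA sA_433 sA_433 4 F_4996 [(511, 0, 0)]
    0x1 = true := by
  decide +kernel

theorem f_4996 (h : TabsF) : FrameF repsF 433 F_4996.f :=
  frame_of rfl c_4996 (runs_of engOK r_4996_0) (by decide +kernel) h.1 h.1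

def F_4997 : FrX :=
  ⟨0x80080a000804040e00002101002001000002040880821001020002808080204004081008210420110001000204040400243000002010200540220020200,
    0xa6, 1, 0x1052648191a0, 6,
    [(0xa6, 1), (0x205396a8, 4), (0x10548796, 4), (0x214396a7, 4), (0x205396a8, 4), (0x10548796, 4)],
    [(0x1052648191a0, 6), (0x436072a5, 4), (0x627481a9, 4), (0x30647281, 4), (0x627481a9, 4), (0x20647395, 4), (0x406381a5, 4), (0x30647281, 4), (0x406381a5, 4), (0x304276a9, 4), (0x30647281, 4), (0x20647395, 4)]⟩

def c_4997 : frmChk tA tB F_4997 = true := by decide +kernel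

def r_4997_0 : chkL rootF engF2 tA tB sA_433 sB_433 4 F_4997 [(511, 0, 0)]
    0x1 = true := by
  decide +kernel

theorem f_4997 (h : TabsF) : FrameF repsF 433 F_4997.f :=
  frame_of rfl c_4997 (runs_of engOK r_4997_0) (by decide +kernel) h.1 h.2

def F_4998 : FrX :=
  ⟨0x80080a000804040e0000210100200100000204088100900200802800040820200100206001080408009000012090010104200000a010084010010140210,
    0xa6, 1, 0x10325260708491a0, 8,
    [(0xa6, 1), (0x205396a8, 4), (0x10548796, 4), (0x214396a7, 4), (0x205396a8, 4), (0x10548796, 4)],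
    [(0x10325260708491a0, 8), (0x216384a5, 4), (0x617083a9, 4), (0x42637081, 4), (0x617083a9, 4), (0x43628195, 4), (0x417082a5, 4), (0x42637081, 4), (0x417082a5, 4), (0x314286a9, 4), (0x42637081, 4), (0x43628195, 4)]⟩

def c_4998 : frmChk tA tB F_4998 = true := by decide +kernel

def r_4998_0 : chkL rootF engF2 tA tB sA_433 sB_433 4 F_4998 [(511, 0, 0)]
    0x1 = true := by
  decide +kernel

theorem f_4998 (h : TabsF) : FrameF repsF 433 F_4998.f :=
  frame_of rfl c_4998 (runs_of engOK r_4998_0) (by decide +kernel) h.1 h.2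

def F_4999 : FrX :=
  ⟨0x80080a000804040e0000210100200100000204089001000808400410010a008010800080802081020008000401082800088080010801002040a02090090,
    0xa6, 1, 0x104352607595a1, 7,
    [(0xa6, 1), (0x205396a8, 4), (0x10548796, 4), (0x214396a7, 4), (0x205396a8, 4), (0x10548796, 4)],
    [(0x104352607595a1, 7), (0x65708194, 4), (0x708293a6, 4), (0x214370a5, 4), (0x65708194, 4), (0x708293a6, 4)]⟩

def c_4999 : frmChk tA tA F_4999 = true := by decide +kernel

def r_4999_0 : chkL rootF engF2 tA tA sA_433 sA_433 4 F_4999 [(511, 0, 0)]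
    0x10741d270a3 = true := by
  decide +kernel

theorem f_4999 (h : TabsF) : FrameF repsF 433 F_4999.f :=
  frame_of rfl c_4999 (runs_of engOK r_4999_0) (by decide +kernel) h.1 h.1

def F_5000 : FrX :=
  ⟨0x2002000900044004000e0204100014100080004080080024800240010020c000800101100888000880080200010810104000210040480000011402140288,
    0xa3, 1, 0x4051627190a3, 6,
    [(0xa3, 1), (0x208693a5, 4), (0x10548793, 4), (0x217693a4, 4), (0x208693a5, 4), (0x10548793, 4)],
    [(0x4051627190a3, 6), (0x438296a1, 4), (0x10438597, 4), (0x435276a0, 4), (0x438296a1, 4), (0x10438597, 4)]⟩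

def c_5000 : frmChk tA tA F_5000 = true := by decide +kernel

def r_5000_0 : chkL rootF engF2 tA tA sA_433 sA_433 4 F_5000 [(511, 0, 0)]
    0x1 = true := by
  decide +kernel

theorem f_5000 (h : TabsF) : FrameF repsF 433 F_5000.f :=
  frame_of rfl c_5000 (runs_of engOK r_5000_0) (by decide +kernel) h.1 h.1

def F_5001 : FrX :=
  ⟨0x2002000900044004000e02041000141000800040804001020080c00010224000100081204090004180080202020810100000202048021000011220008208,
    0xa3, 1, 0x314265758094a3, 7,
    [(0xa3, 1), (0x208693a5, 4), (0x10548793, 4), (0x217693a4, 4), (0x208693a5, 4), (0x10548793, 4)],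
    [(0x314265758094a3, 7), (0x215084a7, 4), (0x21608397, 4), (0x214365a9, 4), (0x215084a7, 4), (0x21608397, 4)]⟩

def c_5001 : frmChk tA tA F_5001 = true := by decide +kernel

def r_5001_0 : chkL rootF engF2 tA tA sA_433 sA_433 4 F_5001 [(511, 0, 0)]
    0x1 = true := by
  decide +kernel

theorem f_5001 (h : TabsF) : FrameF repsF 433 F_5001.f :=
  frame_of rfl c_5001 (runs_of engOK r_5001_0) (by decide +kernel) h.1 h.1

def F_5002 : FrX :=
  ⟨0x482000044040440000c2040020009000182040000902000808100008000421010a02000888000202000020444020002002044480010109800220000023,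
    0xa0, 1, 0x2052647190a3, 6,
    [(0xa0, 1), (0x538690a2, 4), (0x548790a1, 4), (0x21437690, 4), (0x538690a2, 4), (0x548790a1, 4)],
    [(0x2052647190a3, 6), (0x108695a4, 4), (0x32416097, 4), (0x103264a8, 4), (0x32416097, 4), (0x647580a1, 4), (0x328495a6, 4), (0x103264a8, 4), (0x328495a6, 4), (0x406197a8, 4), (0x103264a8, 4), (0x647580a1, 4)]⟩

def c_5002 : frmChk tA tB F_5002 = true := by decide +kernel

def r_5002_0 : chkL rootF engF2 tA tB sA_433 sB_433 4 F_5002 [(511, 0, 0)]
    0x10742d = true := by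
  decide +kernel

theorem f_5002 (h : TabsF) : FrameF repsF 433 F_5002.f :=
  frame_of rfl c_5002 (runs_of engOK r_5002_0) (by decide +kernel) h.1 h.2

def F_5003 : FrX :=
  ⟨0x1c4044000008081000000840080410000101084042200100001081000020800804101104020868008082400200420020180000404004440003004040208,
    0x0, 0, 0x21546487, 4,
    [(0x0, 0), (0x20637584, 4), (0x105476a9, 4), (0x647583a9, 4), (0x105476a9, 4), (0x21647385, 4), (0x204386a9, 4), (0x647583a9, 4), (0x204386a9, 4), (0x10657483, 4), (0x647583a9, 4), (0x21647385, 4)],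
    [(0x21546487, 4), (0x104375a9, 4), (0x206487a9, 4), (0x216385a9, 4), (0x104375a9, 4), (0x206487a9, 4)]⟩

def c_5003 : frmChk tB tA F_5003 = true := by decide +kernel

def r_5003_0 : chkL rootF engF2 tB tA sB_433 sA_433 4 F_5003 [(511, 0, 0)]
    0x1 = true := by
  decide +kernel

theorem f_5003 (h : TabsF) : FrameF repsF 433 F_5003.f :=
  frame_of rfl c_5003 (runs_of engOK r_5003_0) (by decide +kernel) h.2 h.1

def F_5004 : FrX :=
  ⟨0x600020801080810000c004018041010100100400202050000002240020c0040400005008802020002001000c80088009000202008020040208205c0200,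
    0xa0, 1, 0x3052728391a6, 6,
    [(0xa0, 1), (0x637584a2, 4), (0x547690a1, 4), (0x64758390, 4), (0x547690a1, 4), (0x21647385, 4), (0x438690a2, 4), (0x64758390, 4), (0x438690a2, 4), (0x657483a1, 4), (0x64758390, 4), (0x21647385, 4)],
    [(0x3052728391a6, 6), (0x617382a0, 4), (0x42506193, 4), (0x618497a5, 4), (0x617382a0, 4), (0x42506193, 4)]⟩

def c_5004 : frmChk tB tA F_5004 = true := by decide +kernel

def r_5004_0 : chkL rootF engF2 tB tA sB_433 sA_433 4 F_5004 [(511, 0, 0)]
    0x1 = true := by
  decide +kernel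

theorem f_5004 (h : TabsF) : FrameF repsF 433 F_5004.f :=
  frame_of rfl c_5004 (runs_of engOK r_5004_0) (by decide +kernel) h.2 h.1

def F_5005 : FrX :=
  ⟨0x1001040012008080000e00840800410008101000060000028080400142002030030200000100404140084200400010400800088201000845030003000104,
    0xa3, 1, 0x324065718295a6, 7,
    [(0xa3, 1), (0x207584a6, 4), (0x10547693, 4), (0x647593a8, 4), (0x10547693, 4), (0x216485a7, 4), (0x208693a4, 4), (0x647593a8, 4), (0x208693a4, 4), (0x106574a8, 4), (0x647593a8, 4), (0x216485a7, 4)],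
    [(0x324065718295a6, 7), (0x658492a3, 4), (0x31657490, 4), (0x206587a1, 4), (0x658492a3, 4), (0x31657490, 4)]⟩

def c_5005 : frmChk tB tA F_5005 = true := by decide +kernel

def r_5005_0 : chkL rootF engF2 tB tA sB_433 sA_433 4 F_5005 [(511, 0, 0)]
    0x1 = true := by
  decide +kernel

theorem f_5005 (h : TabsF) : FrameF repsF 433 F_5005.f :=
  frame_of rfl c_5005 (runs_of engOK r_5005_0) (by decide +kernel) h.2 h.1

def F_5006 : FrX :=
  ⟨0x1001040012008080000e00840800410008101000040808048020010023000080084100802100100240010008011000410014000302000445011008800208,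
    0xa3, 1, 0x4250738196a3, 6,
    [(0xa3, 1), (0x207584a6, 4), (0x10547693, 4), (0x647593a8, 4), (0x10547693, 4), (0x216485a7, 4), (0x208693a4, 4), (0x647593a8, 4), (0x208693a4, 4), (0x106574a8, 4), (0x647593a8, 4), (0x216485a7, 4)],
    [(0x4250738196a3, 6), (0x213054a9, 4), (0x20768593, 4), (0x307692a1, 4), (0x20768593, 4), (0x108492a3, 4), (0x547691a2, 4), (0x307692a1, 4), (0x547691a2, 4), (0x328590a1, 4), (0x307692a1, 4), (0x108492a3, 4)]⟩

def c_5006 : frmChk tB tB F_5006 = true := by decide +kernel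

def r_5006_0 : chkL rootF engF2 tB tB sB_433 sB_433 4 F_5006 [(511, 0, 0)]
    0x1 = true := by
  decide +kernel

theorem f_5006 (h : TabsF) : FrameF repsF 433 F_5006.f :=
  frame_of rfl c_5006 (runs_of engOK r_5006_0) (by decide +kernel) h.2 h.2

def F_5007 : FrX :=
  ⟨0x482000044040440000c20400200090001820400021020001080800040002420206040010240004008000408880200011800001318100a2004004200002,
    0xa0, 1, 0x104263718596a0, 7,
    [(0xa0, 1), (0x538690a2, 4), (0x548790a1, 4), (0x21437690, 4), (0x538690a2, 4), (0x548790a1, 4)],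
    [(0x104263718596a0, 7), (0x318695a4, 4), (0x315082a7, 4), (0x31627490, 4), (0x318695a4, 4), (0x315082a7, 4)]⟩

def c_5007 : frmChk tA tA F_5007 = true := by decide +kernel

def r_5007_0 : chkL rootF engF2 tA tA sA_433 sA_433 4 F_5007 [(511, 0, 0)]
    0x1 = true := by
  decide +kernel

theorem f_5007 (h : TabsF) : FrameF repsF 433 F_5007.f :=
  frame_of rfl c_5007 (runs_of engOK r_5007_0) (by decide +kernel) h.1 h.1

def F_5008 : FrX :=
  ⟨0x2002000900044004000e0204100014100080004080100041802000210300024002020100102800082080040080004080104800000e000200300402c20440,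
    0xa3, 1, 0x4051638297a3, 6,
    [(0xa3, 1), (0x208693a5, 4), (0x10548793, 4), (0x217693a4, 4), (0x208693a5, 4), (0x10548793, 4)],
    [(0x4051638297a3, 6), (0x327684a1, 4), (0x10547692, 4), (0x768593a0, 4), (0x327684a1, 4), (0x10547692, 4)]⟩

def c_5008 : frmChk tA tA F_5008 = true := by decide +kernel

def r_5008_0 : chkL rootF engF2 tA tA sA_433 sA_433 4 F_5008 [(511, 0, 0)]
    0x1 = true := by
  decide +kernel

theorem f_5008 (h : TabsF) : FrameF repsF 433 F_5008.f :=
  frame_of rfl c_5008 (runs_of engOK r_5008_0) (by decide +kernel) h.1 h.1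

def F_5009 : FrX :=
  ⟨0x80080a000804040e00002101002001000002040880600004408088000084082020020404400010040d208008200011000020100218088004000c0008050,
    0xa6, 1, 0x315260758094a5, 7,
    [(0xa6, 1), (0x205396a8, 4), (0x10548796, 4), (0x214396a7, 4), (0x205396a8, 4), (0x10548796, 4)],
    [(0x315260758094a5, 7), (0x108596a2, 4), (0x207483a9, 4), (0x617490a2, 4), (0x207483a9, 4), (0x215390a6, 4), (0x60748591, 4), (0x617490a2, 4), (0x60748591, 4), (0x618392a0, 4), (0x617490a2, 4), (0x215390a6, 4)]⟩

def c_5009 : frmChk tA tB F_5009 = true := by decide +kernel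

def r_5009_0 : chkL rootF engF2 tA tB sA_433 sB_433 4 F_5009 [(511, 0, 0)]
    0x1 = true := by
  decide +kernel

theorem f_5009 (h : TabsF) : FrameF repsF 433 F_5009.f :=
  frame_of rfl c_5009 (runs_of engOK r_5009_0) (by decide +kernel) h.1 h.2

def F_5010 : FrX :=
  ⟨0x80080a000804040e00002101002001000002040880440404020004800080088008180402400040810800200602040420201108001011c00400202000010,
    0xa6, 1, 0x32436295a6, 5,
    [(0xa6, 1), (0x205396a8, 4), (0x10548796, 4), (0x214396a7, 4), (0x205396a8, 4), (0x10548796, 4)],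
    [(0x32436295a6, 5), (0x536094a8, 4), (0x10538792, 4), (0x425361a7, 4), (0x536094a8, 4), (0x10538792, 4)]⟩

def c_5010 : frmChk tA tA F_5010 = true := by decide +kernel

def r_5010_0 : chkL rootF engF2 tA tA sA_433 sA_433 4 F_5010 [(511, 0, 0)]
    0x1 = true := by
  decide +kernel

theorem f_5010 (h : TabsF) : FrameF repsF 433 F_5010.f :=
  frame_of rfl c_5010 (runs_of engOK r_5010_0) (by decide +kernel) h.1 h.1

def F_5011 : FrX :=
  ⟨0x2002000900044004000e020410001410008000408080010011080260020002402000880200000480f8000404004000400300800030002600100024004201,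
    0xa3, 1, 0x2150658790a7, 6,
    [(0xa3, 1), (0x208693a5, 4), (0x10548793, 4), (0x217693a4, 4), (0x208693a5, 4), (0x10548793, 4)],
    [(0x2150658790a7, 6), (0x307491a6, 4), (0x648592a0, 4), (0x407385a6, 4), (0x648592a0, 4), (0x214076a3, 4), (0x43708591, 4), (0x407385a6, 4), (0x43708591, 4), (0x607392a4, 4), (0x407385a6, 4), (0x214076a3, 4)]⟩

def c_5011 : frmChk tA tB F_5011 = true := by decide +kernel

def r_5011_0 : chkL rootF engF2 tA tB sA_433 sB_433 4 F_5011 [(511, 0, 0)]
    0x1 = true := by
  decide +kernel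

theorem f_5011 (h : TabsF) : FrameF repsF 433 F_5011.f :=
  frame_of rfl c_5011 (runs_of engOK r_5011_0) (by decide +kernel) h.1 h.2

def F_5012 : FrX :=
  ⟨0x1c2102000004044000002041000101000082040888200008000880200002202020600044020010008960440a00010100080010021a10204000004080050,
    0x0, 0, 0x21546587, 4,
    [(0x0, 0), (0x205386a9, 4), (0x105487a9, 4), (0x214376a9, 4), (0x205386a9, 4), (0x105487a9, 4)],
    [(0x21546587, 4), (0x10437586, 4), (0x206584a9, 4), (0x547386a9, 4), (0x206584a9, 4), (0x21547683, 4), (0x105374a9, 4), (0x547386a9, 4), (0x105374a9, 4), (0x20647385, 4), (0x547386a9, 4), (0x21547683, 4)]⟩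

def c_5012 : frmChk tA tB F_5012 = true := by decide +kernel

def r_5012_0 : chkL rootF engF2 tA tB sA_433 sB_433 4 F_5012 [(511, 0, 0)]
    0x145515 = true := by
  decide +kernel

theorem f_5012 (h : TabsF) : FrameF repsF 433 F_5012.f :=
  frame_of rfl c_5012 (runs_of engOK r_5012_0) (by decide +kernel) h.1 h.2

theorem cl_433 (h : TabsF) : ∀ f ∈ fr_433, FrameF repsF 433 f :=
  List.forall_mem_cons.2 ⟨f_4985 h, List.forall_mem_cons.2 ⟨f_4986 h, List.forall_mem_cons.2 ⟨f_4987 h, List.forall_mem_cons.2 ⟨f_4988 h, List.forall_mem_cons.2 ⟨f_4989 h, List.forall_mem_cons.2 ⟨f_4990 h, List.forall_mem_cons.2 ⟨f_4991 h, List.forall_mem_cons.2 ⟨f_4992 h, List.forall_mem_cons.2 ⟨f_4993 h, List.forall_mem_cons.2 ⟨f_4994 h, List.forall_mem_cons.2 ⟨f_4995 h, List.forall_mem_cons.2 ⟨f_4996 h, List.forall_mem_cons.2 ⟨f_4997 h, List.forall_mem_cons.2 ⟨f_4998 h, List.forall_mem_cons.2 ⟨f_4999 h, List.forall_mem_cons.2 ⟨f_5000 h, List.forall_mem_cons.2 ⟨f_5001 h, List.forall_mem_cons.2 ⟨f_5002 h, List.forall_mem_cons.2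 ⟨f_5003 h, List.forall_mem_cons.2 ⟨f_5004 h, List.forall_mem_cons.2 ⟨f_5005 h, List.forall_mem_cons.2 ⟨f_5006 h, List.forall_mem_cons.2 ⟨f_5007 h, List.forall_mem_cons.2 ⟨f_5008 h, List.forall_mem_cons.2 ⟨f_5009 h, List.forall_mem_cons.2 ⟨f_5010 h, List.forall_mem_cons.2 ⟨f_5011 h, List.forall_mem_cons.2 ⟨f_5012 h,
    fun _ h0 => absurd h0 List.not_mem_nil⟩⟩⟩⟩⟩⟩⟩⟩⟩⟩⟩⟩⟩⟩⟩⟩⟩⟩⟩⟩⟩⟩⟩⟩⟩⟩⟩⟩

def F_5013 : FrX :=
  ⟨0x80080a000804040e000021010020010000020408a0000802200110008224001000100840024040498008100008050400220800030000400014200808280,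
    0xa6, 1, 0x102131428194a3, 7,
    [(0xa6, 1), (0x205396a8, 4), (0x10548796, 4), (0x214396a7, 4), (0x205396a8, 4), (0x10548796, 4)],
    [(0x102131428194a3, 7), (0x204163a5, 4), (0x20738195, 4), (0x207684a9, 4), (0x204163a5, 4), (0x20738195, 4)]⟩

def c_5013 : frmChk tA tA F_5013 = true := by decide +kernel

def r_5013_0 : chkL rootF engF2 tA tA sA_434 sA_434 4 F_5013 [(511, 0, 0)]
    0x1 = true := by
  decide +kernel

theorem f_5013 (h : TabsF) : FrameF repsF 434 F_5013.f :=
  frame_of rfl c_5013 (runs_of engOK r_5013_0) (by decide +kernel) h.1 h.1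

def F_5014 : FrX :=
  ⟨0x482000044040440000c2040020009000182040002102000100880200004082020600060008084002020048822000802018000408102200802200080050,
    0xa0, 1, 0x32728491a3, 5,
    [(0xa0, 1), (0x538690a2, 4), (0x548790a1, 4), (0x21437690, 4), (0x538690a2, 4), (0x548790a1, 4)],
    [(0x32728491a3, 5), (0x216470a5, 4), (0x21438590, 4), (0x216397a8, 4), (0x216470a5, 4), (0x21438590, 4)]⟩

def c_5014 : frmChk tA tA F_5014 = true := by decide +kernel

def r_5014_0 : chkL rootF engF2 tA tA sA_434 sA_434 4 F_5014 [(511, 0, 0)]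
    0x1 = true := by
  decide +kernel

theorem f_5014 (h : TabsF) : FrameF repsF 434 F_5014.f :=
  frame_of rfl c_5014 (runs_of engOK r_5014_0) (by decide +kernel) h.1 h.1

def F_5015 : FrX :=
  ⟨0x2002000900044004000e02041000141000800040801000481000a02002004600020021001400021020101080808048800000082048400200210220081001,
    0xa3, 1, 0x40768796a3, 5,
    [(0xa3, 1), (0x208693a5, 4), (0x10548793, 4), (0x217693a4, 4), (0x208693a5, 4), (0x10548793, 4)],
    [(0x40768796a3, 5), (0x426085a9, 4), (0x41507398, 4), (0x738590a6, 4), (0x41507398, 4), (0x216590a8, 4), (0x427396a0, 4), (0x738590a6, 4), (0x427396a0, 4), (0x418095a6, 4), (0x738590a6, 4), (0x216590a8, 4)]⟩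

def c_5015 : frmChk tA tB F_5015 = true := by decide +kernel

def r_5015_0 : chkL rootF engF2 tA tB sA_434 sB_434 4 F_5015 [(511, 0, 0)]
    0x1 = true := by
  decide +kernel

theorem f_5015 (h : TabsF) : FrameF repsF 434 F_5015.f :=
  frame_of rfl c_5015 (runs_of engOK r_5015_0) (by decide +kernel) h.1 h.2

def F_5016 : FrX :=
  ⟨0x80080a000804040e000021010020010000020408a000020e000088100880082000020080022080220810040080060040202010000c28002002040408210,
    0xa6, 1, 0x1031546474a5, 6,
    [(0xa6, 1), (0x205396a8, 4), (0x10548796, 4), (0x214396a7, 4), (0x205396a8, 4), (0x10548796, 4)],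
    [(0x1031546474a5, 6), (0x218594a0, 4), (0x318694a7, 4), (0x32657094, 4), (0x218594a0, 4), (0x318694a7, 4)]⟩

def c_5016 : frmChk tA tA F_5016 = true := by decide +kernel

def r_5016_0 : chkL rootF engF2 tA tA sA_434 sA_434 4 F_5016 [(511, 0, 0)]
    0x1 = true := by
  decide +kernel

theorem f_5016 (h : TabsF) : FrameF repsF 434 F_5016.f :=
  frame_of rfl c_5016 (runs_of engOK r_5016_0) (by decide +kernel) h.1 h.1

def F_5017 : FrX :=
  ⟨0x2002000900044004000e02041000141000800040801002010408400004810040004203020002020020a00622000040400201810040600201100024000201,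
    0xa3, 1, 0x103242618296a0, 7,
    [(0xa3, 1), (0x208693a5, 4), (0x10548793, 4), (0x217693a4, 4), (0x208693a5, 4), (0x10548793, 4)],
    [(0x103242618296a0, 7), (0x105294a8, 4), (0x105374a6, 4), (0x10328697, 4), (0x105294a8, 4), (0x105374a6, 4)]⟩

def c_5017 : frmChk tA tA F_5017 = true := by decide +kernel

def r_5017_0 : chkL rootF engF2 tA tA sA_434 sA_434 4 F_5017 [(511, 0, 0)]
    0x1 = true := by
  decide +kernel

theorem f_5017 (h : TabsF) : FrameF repsF 434 F_5017.f :=
  frame_of rfl c_5017 (runs_of engOK r_5017_0) (by decide +kernel) h.1 h.1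

def F_5018 : FrX :=
  ⟨0x80080a000804040e00002101002001000002040888080810420000808040082021000401020080120008400802040801042001008411800210080008090,
    0xa6, 1, 0x4251738291a1, 6,
    [(0xa6, 1), (0x205396a8, 4), (0x10548796, 4), (0x214396a7, 4), (0x205396a8, 4), (0x10548796, 4)],
    [(0x4251738291a1, 6), (0x64718095, 4), (0x214395a0, 4), (0x637295a8, 4), (0x64718095, 4), (0x214395a0, 4)]⟩

def c_5018 : frmChk tA tA F_5018 = true := by decide +kernel

def r_5018_0 : chkL rootF engF2 tA tA sA_434 sA_434 4 F_5018 [(511, 0, 0)]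
    0x1 = true := by
  decide +kernel

theorem f_5018 (h : TabsF) : FrameF repsF 434 F_5018.f :=
  frame_of rfl c_5018 (runs_of engOK r_5018_0) (by decide +kernel) h.1 h.1

def F_5019 : FrX :=
  ⟨0x2002000900044004000e0204100014100080004080080028401010018100018200002402000402009840028000204004030008101008080001001010c201,
    0xa3, 1, 0x213042546298a0, 7,
    [(0xa3, 1), (0x208693a5, 4), (0x10548793, 4), (0x217693a4, 4), (0x208693a5, 4), (0x10548793, 4)],
    [(0x213042546298a0, 7), (0x407195a6, 4), (0x517483a2, 4), (0x54718390, 4), (0x517483a2, 4), (0x54627091, 4), (0x508394a6, 4), (0x54718390, 4), (0x508394a6, 4), (0x417590a2, 4), (0x54718390, 4), (0x54627091, 4)]⟩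

def c_5019 : frmChk tA tB F_5019 = true := by decide +kernel

def r_5019_0 : chkL rootF engF2 tA tB sA_434 sB_434 4 F_5019 [(511, 0, 0)]
    0x1 = true := by
  decide +kernel

theorem f_5019 (h : TabsF) : FrameF repsF 434 F_5019.f :=
  frame_of rfl c_5019 (runs_of engOK r_5019_0) (by decide +kernel) h.1 h.2

def F_5020 : FrX :=
  ⟨0x482000044040440000c2040020009000182040010008100301000180024008208010002001040814000404200401420048008000600200043030000410,
    0xa0, 1, 0x1030657286a1, 6,
    [(0xa0, 1), (0x538690a2, 4), (0x548790a1, 4), (0x21437690, 4), (0x538690a2, 4), (0x548790a1, 4)],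
    [(0x1030657286a1, 6), (0x61738590, 4), (0x526490a3, 4), (0x418290a7, 4), (0x61738590, 4), (0x526490a3, 4)]⟩

def c_5020 : frmChk tA tA F_5020 = true := by decide +kernel

def r_5020_0 : chkL rootF engF2 tA tA sA_434 sA_434 4 F_5020 [(511, 0, 0)]
    0x1 = true := by
  decide +kernel

theorem f_5020 (h : TabsF) : FrameF repsF 434 F_5020.f :=
  frame_of rfl c_5020 (runs_of engOK r_5020_0) (by decide +kernel) h.1 h.1

def F_5021 : FrX :=
  ⟨0x2002000900044004000e020410001410008000408004010420102000102068010001001080500804101001000880480002200b0060200000404040210200,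
    0xa3, 1, 0x2031647393a6, 6,
    [(0xa3, 1), (0x208693a5, 4), (0x10548793, 4), (0x217693a4, 4), (0x208693a5, 4), (0x10548793, 4)],
    [(0x2031647393a6, 6), (0x205186a9, 4), (0x326574a1, 4), (0x517498a6, 4), (0x326574a1, 4), (0x308591a6, 4), (0x207496a8, 4), (0x517498a6, 4), (0x207496a8, 4), (0x326198a5, 4), (0x517498a6, 4), (0x308591a6, 4)]⟩

def c_5021 : frmChk tA tB F_5021 = true := by decide +kernel

def r_5021_0 : chkL rootF engF2 tA tB sA_434 sB_434 4 F_5021 [(511, 0, 0)]
    0x1 = true := by
  decide +kernel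

theorem f_5021 (h : TabsF) : FrameF repsF 434 F_5021.f :=
  frame_of rfl c_5021 (runs_of engOK r_5021_0) (by decide +kernel) h.1 h.2

def F_5022 : FrX :=
  ⟨0x80080a000804040e00002101002001000002040880440404020004800080088008180402400040114000220600040420201108001011800440202000010,
    0xa6, 1, 0x32436295a6, 5,
    [(0xa6, 1), (0x205396a8, 4), (0x10548796, 4), (0x214396a7, 4), (0x205396a8, 4), (0x10548796, 4)],
    [(0x32436295a6, 5), (0x536094a8, 4), (0x10538792, 4), (0x425361a7, 4), (0x536094a8, 4), (0x10538792, 4)]⟩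

def c_5022 : frmChk tA tA F_5022 = true := by decide +kernel

def r_5022_0 : chkL rootF engF2 tA tA sA_434 sA_434 4 F_5022 [(511, 0, 0)]
    0x1 = true := by
  decide +kernel

theorem f_5022 (h : TabsF) : FrameF repsF 434 F_5022.f :=
  frame_of rfl c_5022 (runs_of engOK r_5022_0) (by decide +kernel) h.1 h.1

def F_5023 : FrX :=
  ⟨0x482000044040440000c2040020009000182040002020212001080100080102800200060008084010800811000080240500201810108080004004800208,
    0xa0, 1, 0x5162748390a0, 6,
    [(0xa0, 1), (0x538690a2, 4), (0x548790a1, 4), (0x21437690, 4), (0x538690a2, 4), (0x548790a1, 4)],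
    [(0x5162748390a0, 6), (0x328190a6, 4), (0x437190a5, 4), (0x42658790, 4), (0x328190a6, 4), (0x437190a5, 4)]⟩

def c_5023 : frmChk tA tA F_5023 = true := by decide +kernel

def r_5023_0 : chkL rootF engF2 tA tA sA_434 sA_434 4 F_5023 [(511, 0, 0)]
    0x1 = true := by
  decide +kernel

theorem f_5023 (h : TabsF) : FrameF repsF 434 F_5023.f :=
  frame_of rfl c_5023 (runs_of engOK r_5023_0) (by decide +kernel) h.1 h.1

def F_5024 : FrX :=
  ⟨0x482000044040440000c204002000900018204000220010010808000481004120020200140000802080840401410140000801c002200200101034000002,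
    0xa0, 1, 0x314062708592a0, 7,
    [(0xa0, 1), (0x538690a2, 4), (0x548790a1, 4), (0x21437690, 4), (0x538690a2, 4), (0x548790a1, 4)],
    [(0x314062708592a0, 7), (0x527681a9, 4), (0x547680a3, 4), (0x10427693, 4), (0x527681a9, 4), (0x547680a3, 4)]⟩

def c_5024 : frmChk tA tA F_5024 = true := by decide +kernel

def r_5024_0 : chkL rootF engF2 tA tA sA_434 sA_434 4 F_5024 [(511, 0, 0)]
    0x1 = true := by
  decide +kernel

theorem f_5024 (h : TabsF) : FrameF repsF 434 F_5024.f :=
  frame_of rfl c_5024 (runs_of engOK r_5024_0) (by decide +kernel) h.1 h.1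

def F_5025 : FrX :=
  ⟨0x80080a000804040e00002101002001000002040880821001020002808080204004081008090020110001400204040400303010002010200540020020200,
    0xa6, 1, 0x1052648191a0, 6,
    [(0xa6, 1), (0x205396a8, 4), (0x10548796, 4), (0x214396a7, 4), (0x205396a8, 4), (0x10548796, 4)],
    [(0x1052648191a0, 6), (0x436072a5, 4), (0x627481a9, 4), (0x30647281, 4), (0x627481a9, 4), (0x20647395, 4), (0x406381a5, 4), (0x30647281, 4), (0x406381a5, 4), (0x304276a9, 4), (0x30647281, 4), (0x20647395, 4)]⟩

def c_5025 : frmChk tA tB F_5025 = true := by decide +kernel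

def r_5025_0 : chkL rootF engF2 tA tB sA_434 sB_434 4 F_5025 [(511, 0, 0)]
    0x1 = true := by
  decide +kernel

theorem f_5025 (h : TabsF) : FrameF repsF 434 F_5025.f :=
  frame_of rfl c_5025 (runs_of engOK r_5025_0) (by decide +kernel) h.1 h.2

def F_5026 : FrX :=
  ⟨0x80080a000804040e0000210100200100000204088120000220440010008008008412800102800000a010900040250100200110041000904040018200200,
    0xa6, 1, 0x20324061738794a2, 8,
    [(0xa6, 1), (0x205396a8, 4), (0x10548796, 4), (0x214396a7, 4), (0x205396a8, 4), (0x10548796, 4)],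
    [(0x20324061738794a2, 8), (0x718590a4, 4), (0x32648195, 4), (0x32708591, 4), (0x32648195, 4), (0x508791a6, 4), (0x103297a4, 4), (0x32708591, 4), (0x103297a4, 4), (0x51647098, 4), (0x32708591, 4), (0x508791a6, 4)]⟩

def c_5026 : frmChk tA tB F_5026 = true := by decide +kernel

def r_5026_0 : chkL rootF engF2 tA tB sA_434 sB_434 4 F_5026 [(511, 0, 0)]
    0x1 = true := by
  decide +kernel

theorem f_5026 (h : TabsF) : FrameF repsF 434 F_5026.f :=
  frame_of rfl c_5026 (runs_of engOK r_5026_0) (by decide +kernel) h.1 h.2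

def F_5027 : FrX :=
  ⟨0x2002000900044004000e02041000141000800040808000208120000208020a0248008000108002080a000202042040140281010002200200002004010310,
    0xa3, 1, 0x213042648394a1, 7,
    [(0xa3, 1), (0x208693a5, 4), (0x10548793, 4), (0x217693a4, 4), (0x208693a5, 4), (0x10548793, 4)],
    [(0x213042648394a1, 7), (0x10436285, 4), (0x627095a3, 4), (0x627198a4, 4), (0x10436285, 4), (0x627095a3, 4)]⟩

def c_5027 : frmChk tA tA F_5027 = true := by decide +kernel

def r_5027_0 : chkL rootF engF2 tA tA sA_434 sA_434 4 F_5027 [(511, 0, 0)]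
    0x1 = true := by
  decide +kernel

theorem f_5027 (h : TabsF) : FrameF repsF 434 F_5027.f :=
  frame_of rfl c_5027 (runs_of engOK r_5027_0) (by decide +kernel) h.1 h.1

def F_5028 : FrX :=
  ⟨0x2002000900044004000e020410001410008000408100000883008024020014001400200100000308010404044400100020408a0004000220240110000111,
    0xa3, 1, 0x1021405164a3, 6,
    [(0xa3, 1), (0x208693a5, 4), (0x10548793, 4), (0x217693a4, 4), (0x208693a5, 4), (0x10548793, 4)],
    [(0x1021405164a3, 6), (0x408193a2, 4), (0x54628793, 4), (0x507193a6, 4), (0x408193a2, 4), (0x54628793, 4)]⟩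

def c_5028 : frmChk tA tA F_5028 = true := by decide +kernel

def r_5028_0 : chkL rootF engF2 tA tA sA_434 sA_434 4 F_5028 [(511, 0, 0)]
    0x487 = true := by
  decide +kernel

theorem f_5028 (h : TabsF) : FrameF repsF 434 F_5028.f :=
  frame_of rfl c_5028 (runs_of engOK r_5028_0) (by decide +kernel) h.1 h.1

def F_5029 : FrX :=
  ⟨0x80080a000804040e0000210100200100000204088041080800840002882000000450102000208000a01c0000004c0400201110040004110044003010080,
    0xa6, 1, 0x203154648392a3, 7,
    [(0xa6, 1), (0x205396a8, 4), (0x10548796, 4), (0x214396a7, 4), (0x205396a8, 4), (0x10548796, 4)],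
    [(0x203154648392a3, 7), (0x518092a4, 4), (0x32647180, 4), (0x758093a6, 4), (0x518092a4, 4), (0x32647180, 4)]⟩

def c_5029 : frmChk tA tA F_5029 = true := by decide +kernel

def r_5029_0 : chkL rootF engF2 tA tA sA_434 sA_434 4 F_5029 [(511, 0, 0)]
    0x1 = true := by
  decide +kernel

theorem f_5029 (h : TabsF) : FrameF repsF 434 F_5029.f :=
  frame_of rfl c_5029 (runs_of engOK r_5029_0) (by decide +kernel) h.1 h.1

def F_5030 : FrX :=
  ⟨0x80080a000804040e00002101002001000002040882200004048084008040081040802010020010001048820440202001100001084003020280008208080,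
    0xa6, 1, 0x2031516098a6, 6,
    [(0xa6, 1), (0x205396a8, 4), (0x10548796, 4), (0x214396a7, 4), (0x205396a8, 4), (0x10548796, 4)],
    [(0x2031516098a6, 6), (0x607394a1, 4), (0x436582a7, 4), (0x738291a4, 4), (0x436582a7, 4), (0x507193a4, 4), (0x416082a9, 4), (0x738291a4, 4), (0x416082a9, 4), (0x657491a3, 4), (0x738291a4, 4), (0x507193a4, 4)]⟩

def c_5030 : frmChk tA tB F_5030 = true := by decide +kernel

def r_5030_0 : chkL rootF engF2 tA tB sA_434 sB_434 4 F_5030 [(511, 0, 0)]
    0x1 = true := by
  decide +kernel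

theorem f_5030 (h : TabsF) : FrameF repsF 434 F_5030.f :=
  frame_of rfl c_5030 (runs_of engOK r_5030_0) (by decide +kernel) h.1 h.2

def F_5031 : FrX :=
  ⟨0x1c4044000008081000000840080410000101084042200100001081000020800804101104020b080080824002000a0020180000400804440003004040208,
    0x0, 0, 0x21546487, 4,
    [(0x0, 0), (0x20637584, 4), (0x105476a9, 4), (0x647583a9, 4), (0x105476a9, 4), (0x21647385, 4), (0x204386a9, 4), (0x647583a9, 4), (0x204386a9, 4), (0x10657483, 4), (0x647583a9, 4), (0x21647385, 4)],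
    [(0x21546487, 4), (0x104375a9, 4), (0x206487a9, 4), (0x216385a9, 4), (0x104375a9, 4), (0x206487a9, 4)]⟩

def c_5031 : frmChk tB tA F_5031 = true := by decide +kernel

def r_5031_0 : chkL rootF engF2 tB tA sB_434 sA_434 4 F_5031 [(511, 0, 0)]
    0x1 = true := by
  decide +kernel

theorem f_5031 (h : TabsF) : FrameF repsF 434 F_5031.f :=
  frame_of rfl c_5031 (runs_of engOK r_5031_0) (by decide +kernel) h.2 h.1

def F_5032 : FrX :=
  ⟨0x600020801080810000c004018041010100100400202050000002240020c0040400005008802020002001000c8008800900020200802004018020648200,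
    0xa0, 1, 0x3052728391a6, 6,
    [(0xa0, 1), (0x637584a2, 4), (0x547690a1, 4), (0x64758390, 4), (0x547690a1, 4), (0x21647385, 4), (0x438690a2, 4), (0x64758390, 4), (0x438690a2, 4), (0x657483a1, 4), (0x64758390, 4), (0x21647385, 4)],
    [(0x3052728391a6, 6), (0x617382a0, 4), (0x42506193, 4), (0x618497a5, 4), (0x617382a0, 4), (0x42506193, 4)]⟩

def c_5032 : frmChk tB tA F_5032 = true := by decide +kernel

def r_5032_0 : chkL rootF engF2 tB tA sB_434 sA_434 4 F_5032 [(511, 0, 0)]
    0x1 = true := by
  decide +kernel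

theorem f_5032 (h : TabsF) : FrameF repsF 434 F_5032.f :=
  frame_of rfl c_5032 (runs_of engOK r_5032_0) (by decide +kernel) h.2 h.1

def F_5033 : FrX :=
  ⟨0x1001040012008080000e0084080041000810100006000002808040014200203003020000010040414008420040001040080008a800000840432003000104,
    0xa3, 1, 0x324065718295a6, 7,
    [(0xa3, 1), (0x207584a6, 4), (0x10547693, 4), (0x647593a8, 4), (0x10547693, 4), (0x216485a7, 4), (0x208693a4, 4), (0x647593a8, 4), (0x208693a4, 4), (0x106574a8, 4), (0x647593a8, 4), (0x216485a7, 4)],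
    [(0x324065718295a6, 7), (0x658492a3, 4), (0x31657490, 4), (0x206587a1, 4), (0x658492a3, 4), (0x31657490, 4)]⟩

def c_5033 : frmChk tB tA F_5033 = true := by decide +kernel

def r_5033_0 : chkL rootF engF2 tB tA sB_434 sA_434 4 F_5033 [(511, 0, 0)]
    0x1 = true := by
  decide +kernel

theorem f_5033 (h : TabsF) : FrameF repsF 434 F_5033.f :=
  frame_of rfl c_5033 (runs_of engOK r_5033_0) (by decide +kernel) h.2 h.1

def F_5034 : FrX :=
  ⟨0x1001040012008080000e00840800410008101000040808048020010023000080084100802100100240010008011000410014000302000440541008800280,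
    0xa3, 1, 0x4250738196a3, 6,
    [(0xa3, 1), (0x207584a6, 4), (0x10547693, 4), (0x647593a8, 4), (0x10547693, 4), (0x216485a7, 4), (0x208693a4, 4), (0x647593a8, 4), (0x208693a4, 4), (0x106574a8, 4), (0x647593a8, 4), (0x216485a7, 4)],
    [(0x4250738196a3, 6), (0x213054a9, 4), (0x20768593, 4), (0x307692a1, 4), (0x20768593, 4), (0x108492a3, 4), (0x547691a2, 4), (0x307692a1, 4), (0x547691a2, 4), (0x328590a1, 4), (0x307692a1, 4), (0x108492a3, 4)]⟩

def c_5034 : frmChk tB tB F_5034 = true := by decide +kernel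

def r_5034_0 : chkL rootF engF2 tB tB sB_434 sB_434 4 F_5034 [(511, 0, 0)]
    0x1 = true := by
  decide +kernel

theorem f_5034 (h : TabsF) : FrameF repsF 434 F_5034.f :=
  frame_of rfl c_5034 (runs_of engOK r_5034_0) (by decide +kernel) h.2 h.2

def F_5035 : FrX :=
  ⟨0x482000044040440000c204002000900018204000210200010808000400024202060400102400040080004088802000118000012e0100a2004004200001,
    0xa0, 1, 0x104263718596a0, 7,
    [(0xa0, 1), (0x538690a2, 4), (0x548790a1, 4), (0x21437690, 4), (0x538690a2, 4), (0x548790a1, 4)],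
    [(0x104263718596a0, 7), (0x318695a4, 4), (0x315082a7, 4), (0x31627490, 4), (0x318695a4, 4), (0x315082a7, 4)]⟩

def c_5035 : frmChk tA tA F_5035 = true := by decide +kernel

def r_5035_0 : chkL rootF engF2 tA tA sA_434 sA_434 4 F_5035 [(511, 0, 0)]
    0x1 = true := by
  decide +kernel

theorem f_5035 (h : TabsF) : FrameF repsF 434 F_5035.f :=
  frame_of rfl c_5035 (runs_of engOK r_5035_0) (by decide +kernel) h.1 h.1

def F_5036 : FrX :=
  ⟨0x2002000900044004000e0204100014100080004080100041802000210300024002020100102800082080040080004080104800000e0002003004300a0404,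
    0xa3, 1, 0x4051638297a3, 6,
    [(0xa3, 1), (0x208693a5, 4), (0x10548793, 4), (0x217693a4, 4), (0x208693a5, 4), (0x10548793, 4)],
    [(0x4051638297a3, 6), (0x327684a1, 4), (0x10547692, 4), (0x768593a0, 4), (0x327684a1, 4), (0x10547692, 4)]⟩

def c_5036 : frmChk tA tA F_5036 = true := by decide +kernel

def r_5036_0 : chkL rootF engF2 tA tA sA_434 sA_434 4 F_5036 [(511, 0, 0)]
    0x1 = true := by
  decide +kernel

theorem f_5036 (h : TabsF) : FrameF repsF 434 F_5036.f :=
  frame_of rfl c_5036 (runs_of engOK r_5036_0) (by decide +kernel) h.1 h.1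

def F_5037 : FrX :=
  ⟨0x80080a000804040e000021010020010000020408806000044080880000840820200204044000100688208008001011000020100218088000020c0008050,
    0xa6, 1, 0x315260758094a5, 7,
    [(0xa6, 1), (0x205396a8, 4), (0x10548796, 4), (0x214396a7, 4), (0x205396a8, 4), (0x10548796, 4)],
    [(0x315260758094a5, 7), (0x108596a2, 4), (0x207483a9, 4), (0x617490a2, 4), (0x207483a9, 4), (0x215390a6, 4), (0x60748591, 4), (0x617490a2, 4), (0x60748591, 4), (0x618392a0, 4), (0x617490a2, 4), (0x215390a6, 4)]⟩

def c_5037 : frmChk tA tB F_5037 = true := by decide +kernel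

def r_5037_0 : chkL rootF engF2 tA tB sA_434 sB_434 4 F_5037 [(511, 0, 0)]
    0x1 = true := by
  decide +kernel

theorem f_5037 (h : TabsF) : FrameF repsF 434 F_5037.f :=
  frame_of rfl c_5037 (runs_of engOK r_5037_0) (by decide +kernel) h.1 h.2

def F_5038 : FrX :=
  ⟨0x80080a000804040e00002101002001000002040880440404020004800080088008180402400041010100a00600040420201108001001c00440202000010,
    0xa6, 1, 0x32436295a6, 5,
    [(0xa6, 1), (0x205396a8, 4), (0x10548796, 4), (0x214396a7, 4), (0x205396a8, 4), (0x10548796, 4)],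
    [(0x32436295a6, 5), (0x536094a8, 4), (0x10538792, 4), (0x425361a7, 4), (0x536094a8, 4), (0x10538792, 4)]⟩

def c_5038 : frmChk tA tA F_5038 = true := by decide +kernel

def r_5038_0 : chkL rootF engF2 tA tA sA_434 sA_434 4 F_5038 [(511, 0, 0)]
    0x1 = true := by
  decide +kernel

theorem f_5038 (h : TabsF) : FrameF repsF 434 F_5038.f :=
  frame_of rfl c_5038 (runs_of engOK r_5038_0) (by decide +kernel) h.1 h.1

def F_5039 : FrX :=
  ⟨0x2002000900044004000e0204100014100080004080800100110802600200024020008802000004803c000406004000400300800030002624000024000201,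
    0xa3, 1, 0x2150658790a7, 6,
    [(0xa3, 1), (0x208693a5, 4), (0x10548793, 4), (0x217693a4, 4), (0x208693a5, 4), (0x10548793, 4)],
    [(0x2150658790a7, 6), (0x307491a6, 4), (0x648592a0, 4), (0x407385a6, 4), (0x648592a0, 4), (0x214076a3, 4), (0x43708591, 4), (0x407385a6, 4), (0x43708591, 4), (0x607392a4, 4), (0x407385a6, 4), (0x214076a3, 4)]⟩

def c_5039 : frmChk tA tB F_5039 = true := by decide +kernel

def r_5039_0 : chkL rootF engF2 tA tB sA_434 sB_434 4 F_5039 [(511, 0, 0)]
    0x1 = true := by
  decide +kernel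

theorem f_5039 (h : TabsF) : FrameF repsF 434 F_5039.f :=
  frame_of rfl c_5039 (runs_of engOK r_5039_0) (by decide +kernel) h.1 h.2

def F_5040 : FrX :=
  ⟨0x1c2102000004044000002041000101000082040888200008000880200002202020600044020010020c60440880010100080010021a10201000004080050,
    0x0, 0, 0x21546587, 4,
    [(0x0, 0), (0x205386a9, 4), (0x105487a9, 4), (0x214376a9, 4), (0x205386a9, 4), (0x105487a9, 4)],
    [(0x21546587, 4), (0x10437586, 4), (0x206584a9, 4), (0x547386a9, 4), (0x206584a9, 4), (0x21547683, 4), (0x105374a9, 4), (0x547386a9, 4), (0x105374a9, 4), (0x20647385, 4), (0x547386a9, 4), (0x21547683, 4)]⟩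

def c_5040 : frmChk tA tB F_5040 = true := by decide +kernel

def r_5040_0 : chkL rootF engF2 tA tB sA_434 sB_434 4 F_5040 [(511, 0, 0)]
    0x1 = true := by
  decide +kernel

theorem f_5040 (h : TabsF) : FrameF repsF 434 F_5040.f :=
  frame_of rfl c_5040 (runs_of engOK r_5040_0) (by decide +kernel) h.1 h.2

theorem cl_434 (h : TabsF) : ∀ f ∈ fr_434, FrameF repsF 434 f :=
  List.forall_mem_cons.2 ⟨f_5013 h, List.forall_mem_cons.2 ⟨f_5014 h, List.forall_mem_cons.2 ⟨f_5015 h, List.forall_mem_cons.2 ⟨f_5016 h, List.forall_mem_cons.2 ⟨f_5017 h, List.forall_mem_cons.2 ⟨f_5018 h, List.forall_mem_cons.2 ⟨f_5019 h, List.forall_mem_cons.2 ⟨f_5020 h, List.forall_mem_cons.2 ⟨f_5021 h, List.forall_mem_cons.2 ⟨f_5022 h, List.forall_mem_cons.2 ⟨f_5023 h, List.forall_mem_cons.2 ⟨f_5024 h, List.forall_mem_cons.2 ⟨f_5025 h, List.forall_mem_cons.2 ⟨f_5026 h, List.forall_mem_cons.2 ⟨f_5027 h, List.forall_mem_cons.2 ⟨f_5028 h, List.forall_mem_cons.2 ⟨f_5029 h, List.forall_mem_cons.2 ⟨f_5030 h, List.forall_mem_cons.2 ⟨f_5031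 h, List.forall_mem_cons.2 ⟨f_5032 h, List.forall_mem_cons.2 ⟨f_5033 h, List.forall_mem_cons.2 ⟨f_5034 h, List.forall_mem_cons.2 ⟨f_5035 h, List.forall_mem_cons.2 ⟨f_5036 h, List.forall_mem_cons.2 ⟨f_5037 h, List.forall_mem_cons.2 ⟨f_5038 h, List.forall_mem_cons.2 ⟨f_5039 h, List.forall_mem_cons.2 ⟨f_5040 h,
    fun _ h0 => absurd h0 List.not_mem_nil⟩⟩⟩⟩⟩⟩⟩⟩⟩⟩⟩⟩⟩⟩⟩⟩⟩⟩⟩⟩⟩⟩⟩⟩⟩⟩⟩⟩

def F_5041 : FrX :=
  ⟨0x482000044040440000c2040020009000182040000840900008100014010041200202020001080020a00804091000400244088044200600100020000401,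
    0xa0, 1, 0x435365748391a3, 7,
    [(0xa0, 1), (0x538690a2, 4), (0x548790a1, 4), (0x21437690, 4), (0x538690a2, 4), (0x548790a1, 4)],
    [(0x435365748391a3, 7), (0x205481a6, 4), (0x53768190, 4), (0x438192a7, 4), (0x205481a6, 4), (0x53768190, 4)]⟩

def c_5041 : frmChk tA tA F_5041 = true := by decide +kernel

def r_5041_0 : chkL rootF engF2 tA tA sA_435 sA_435 4 F_5041 [(511, 0, 0)]
    0x111c17 = true := by
  decide +kernel

theorem f_5041 (h : TabsF) : FrameF repsF 435 F_5041.f :=
  frame_of rfl c_5041 (runs_of engOK r_5041_0) (by decide +kernel) h.1 h.1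

def F_5042 : FrX :=
  ⟨0x80080a000804040e00002101002001000002040882020202020010008022208010012000c00011008020901100100140004602004001089000904000010,
    0xa6, 1, 0x10214250738491a3, 8,
    [(0xa6, 1), (0x205396a8, 4), (0x10548796, 4), (0x214396a7, 4), (0x205396a8, 4), (0x10548796, 4)],
    [(0x10214250738491a3, 8), (0x546072a1, 4), (0x30728195, 4), (0x637294a8, 4), (0x546072a1, 4), (0x30728195, 4)]⟩

def c_5042 : frmChk tA tA F_5042 = true := by decide +kernel

def r_5042_0 : chkL rootF engF2 tA tA sA_435 sA_435 4 F_5042 [(511, 0, 0)]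
    0x427 = true := by
  decide +kernel

theorem f_5042 (h : TabsF) : FrameF repsF 435 F_5042.f :=
  frame_of rfl c_5042 (runs_of engOK r_5042_0) (by decide +kernel) h.1 h.1

def F_5043 : FrX :=
  ⟨0x2002000900044004000e02041000141000800040800801048210200008200c0100010102000850008018020801000004024020800204880040009002c004,
    0xa3, 1, 0x102140617483a8, 7,
    [(0xa3, 1), (0x208693a5, 4), (0x10548793, 4), (0x217693a4, 4), (0x208693a5, 4), (0x10548793, 4)],
    [(0x102140617483a8, 7), (0x408593a2, 4), (0x647593a1, 4), (0x21608793, 4), (0x408593a2, 4), (0x647593a1, 4)]⟩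

def c_5043 : frmChk tA tA F_5043 = true := by decide +kernel

def r_5043_0 : chkL rootF engF2 tA tA sA_435 sA_435 4 F_5043 [(511, 0, 0)]
    0x439 = true := by
  decide +kernel

theorem f_5043 (h : TabsF) : FrameF repsF 435 F_5043.f :=
  frame_of rfl c_5043 (runs_of engOK r_5043_0) (by decide +kernel) h.1 h.1

def F_5044 : FrX :=
  ⟨0x482000044040440000c2040020009000182040010020028001300008080101010200410000084200800231080081040040005010108000604100808008,
    0xa0, 1, 0x314054628492a4, 7,
    [(0xa0, 1), (0x538690a2, 4), (0x548790a1, 4), (0x21437690, 4), (0x538690a2, 4), (0x548790a1, 4)],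
    [(0x314054628492a4, 7), (0x217094a5, 4), (0x437286a0, 4), (0x517086a2, 4), (0x437286a0, 4), (0x507193a2, 4), (0x528694a1, 4), (0x517086a2, 4), (0x528694a1, 4), (0x204351a7, 4), (0x517086a2, 4), (0x507193a2, 4)]⟩

def c_5044 : frmChk tA tB F_5044 = true := by decide +kernel

def r_5044_0 : chkL rootF engF2 tA tB sA_435 sB_435 4 F_5044 [(511, 0, 0)]
    0x1 = true := by
  decide +kernel

theorem f_5044 (h : TabsF) : FrameF repsF 435 F_5044.f :=
  frame_of rfl c_5044 (runs_of engOK r_5044_0) (by decide +kernel) h.1 h.2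

def F_5045 : FrX :=
  ⟨0x2002000900044004000e02041000141000800040801001021001024402004040200080201088009008400006201008108100000041400220001025400200,
    0xa3, 1, 0x4150768392a3, 6,
    [(0xa3, 1), (0x208693a5, 4), (0x10548793, 4), (0x217693a4, 4), (0x208693a5, 4), (0x10548793, 4)],
    [(0x4150768392a3, 6), (0x738295a0, 4), (0x10546382, 4), (0x768294a1, 4), (0x738295a0, 4), (0x10546382, 4)]⟩

def c_5045 : frmChk tA tA F_5045 = true := by decide +kernel

def r_5045_0 : chkL rootF engF2 tA tA sA_435 sA_435 4 F_5045 [(511, 0, 0)]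
    0x1 = true := by
  decide +kernel

theorem f_5045 (h : TabsF) : FrameF repsF 435 F_5045.f :=
  frame_of rfl c_5045 (runs_of engOK r_5045_0) (by decide +kernel) h.1 h.1

def F_5046 : FrX :=
  ⟨0x80080a000804040e0000210100200100000204088108100006001002004008250002400140008840801400010300010a0020820804100a0002010040200,
    0xa6, 1, 0x4354617397a1, 6,
    [(0xa6, 1), (0x205396a8, 4), (0x10548796, 4), (0x214396a7, 4), (0x205396a8, 4), (0x10548796, 4)],
    [(0x4354617397a1, 6), (0x20647381, 4), (0x536498a0, 4), (0x647591a2, 4), (0x20647381, 4), (0x536498a0, 4)]⟩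

def c_5046 : frmChk tA tA F_5046 = true := by decide +kernel

def r_5046_0 : chkL rootF engF2 tA tA sA_435 sA_435 4 F_5046 [(511, 0, 0)]
    0x1 = true := by
  decide +kernel

theorem f_5046 (h : TabsF) : FrameF repsF 435 F_5046.f :=
  frame_of rfl c_5046 (runs_of engOK r_5046_0) (by decide +kernel) h.1 h.1

def F_5047 : FrX :=
  ⟨0x2002000900044004000e0204100014100080004081000002808800406020840810000100080801040c020221002008100100080084088008001802042080,
    0xa3, 1, 0x20306598a0, 5,
    [(0xa3, 1), (0x208693a5, 4), (0x10548793, 4), (0x217693a4, 4), (0x208693a5, 4), (0x10548793, 4)],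
    [(0x20306598a0, 5), (0x527694a0, 4), (0x647583a1, 4), (0x54768392, 4), (0x647583a1, 4), (0x10547296, 4), (0x428395a0, 4), (0x54768392, 4), (0x428395a0, 4), (0x657492a1, 4), (0x54768392, 4), (0x10547296, 4)]⟩

def c_5047 : frmChk tA tB F_5047 = true := by decide +kernel

def r_5047_0 : chkL rootF engF2 tA tB sA_435 sB_435 4 F_5047 [(511, 0, 0)]
    0x1 = true := by
  decide +kernel

theorem f_5047 (h : TabsF) : FrameF repsF 435 F_5047.f :=
  frame_of rfl c_5047 (runs_of engOK r_5047_0) (by decide +kernel) h.1 h.2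

def F_5048 : FrX :=
  ⟨0x2002000900044004000e0204100014100080004080040028208120400080a0020000022041020810200200104080200080000a00108002100822100c0120,
    0xa3, 1, 0x21306082a3, 5,
    [(0xa3, 1), (0x208693a5, 4), (0x10548793, 4), (0x217693a4, 4), (0x208693a5, 4), (0x10548793, 4)],
    [(0x21306082a3, 5), (0x318690a5, 4), (0x54627190, 4), (0x738290a4, 4), (0x318690a5, 4), (0x54627190, 4)]⟩

def c_5048 : frmChk tA tA F_5048 = true := by decide +kernel

def r_5048_0 : chkL rootF engF2 tA tA sA_435 sA_435 4 F_5048 [(511, 0, 0)]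
    0x1 = true := by
  decide +kernel

theorem f_5048 (h : TabsF) : FrameF repsF 435 F_5048.f :=
  frame_of rfl c_5048 (runs_of engOK r_5048_0) (by decide +kernel) h.1 h.1

def F_5049 : FrX :=
  ⟨0x80080a000804040e0000210100200100000204089008000031000080880008101110042008202002002840040410000a100042010004111100008440020,
    0xa6, 1, 0x4362708591a6, 6,
    [(0xa6, 1), (0x205396a8, 4), (0x10548796, 4), (0x214396a7, 4), (0x205396a8, 4), (0x10548796, 4)],
    [(0x4362708591a6, 6), (0x217684a5, 4), (0x21508397, 4), (0x214396a0, 4), (0x217684a5, 4), (0x21508397, 4)]⟩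

def c_5049 : frmChk tA tA F_5049 = true := by decide +kernel

def r_5049_0 : chkL rootF engF2 tA tA sA_435 sA_435 4 F_5049 [(511, 0, 0)]
    0x1 = true := by
  decide +kernel

theorem f_5049 (h : TabsF) : FrameF repsF 435 F_5049.f :=
  frame_of rfl c_5049 (runs_of engOK r_5049_0) (by decide +kernel) h.1 h.1

def F_5050 : FrX :=
  ⟨0x482000044040440000c2040020009000182040001100408001100100000c100080c04008280050000800804410a0040004008202000622000842800008,
    0xa0, 1, 0x2065728097a4, 6,
    [(0xa0, 1), (0x538690a2, 4), (0x548790a1, 4), (0x21437690, 4), (0x538690a2, 4), (0x548790a1, 4)],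
    [(0x2065728097a4, 6), (0x538796a2, 4), (0x408195a6, 4), (0x324096a5, 4), (0x408195a6, 4), (0x627193a5, 4), (0x405287a3, 4), (0x324096a5, 4), (0x405287a3, 4), (0x326581a9, 4), (0x324096a5, 4), (0x627193a5, 4)]⟩

def c_5050 : frmChk tA tB F_5050 = true := by decide +kernel

def r_5050_0 : chkL rootF engF2 tA tB sA_435 sB_435 4 F_5050 [(511, 0, 0)]
    0x11384e = true := by
  decide +kernel

theorem f_5050 (h : TabsF) : FrameF repsF 435 F_5050.f :=
  frame_of rfl c_5050 (runs_of engOK r_5050_0) (by decide +kernel) h.1 h.2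

def F_5051 : FrX :=
  ⟨0x2002000900044004000e0204100014100080004080800080140802001081004420008800410004900808000604102000020400a0200002200440a0020024,
    0xa3, 1, 0x315061758391a2, 7,
    [(0xa3, 1), (0x208693a5, 4), (0x10548793, 4), (0x217693a4, 4), (0x208693a5, 4), (0x10548793, 4)],
    [(0x315061758391a2, 7), (0x316287a5, 4), (0x10627495, 4), (0x306284a9, 4), (0x316287a5, 4), (0x10627495, 4)]⟩

def c_5051 : frmChk tA tA F_5051 = true := by decide +kernel

def r_5051_0 : chkL rootF engF2 tA tA sA_435 sA_435 4 F_5051 [(511, 0, 0)]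
    0x1 = true := by
  decide +kernel

theorem f_5051 (h : TabsF) : FrameF repsF 435 F_5051.f :=
  frame_of rfl c_5051 (runs_of engOK r_5051_0) (by decide +kernel) h.1 h.1

def F_5052 : FrX :=
  ⟨0x80080a000804040e00002101002001000002040890080000850000420800082008604020048008008090040043000040241008002002222002011080020,
    0xa6, 1, 0x3051758792a0, 6,
    [(0xa6, 1), (0x205396a8, 4), (0x10548796, 4), (0x214396a7, 4), (0x205396a8, 4), (0x10548796, 4)],
    [(0x3051758792a0, 6), (0x416087a9, 4), (0x327486a5, 4), (0x10326487, 4), (0x327486a5, 4), (0x64718095, 4), (0x324061a9, 4), (0x10326487, 4), (0x324061a9, 4), (0x107684a5, 4), (0x10326487, 4), (0x64718095, 4)]⟩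

def c_5052 : frmChk tA tB F_5052 = true := by decide +kernel

def r_5052_0 : chkL rootF engF2 tA tB sA_435 sB_435 4 F_5052 [(511, 0, 0)]
    0x1 = true := by
  decide +kernel

theorem f_5052 (h : TabsF) : FrameF repsF 435 F_5052.f :=
  frame_of rfl c_5052 (runs_of engOK r_5052_0) (by decide +kernel) h.1 h.2

def F_5053 : FrX :=
  ⟨0x1c21020000040440000020410001010000820408a0001100000082100202101000204040104004410800258088010840220041011100000404200400200,
    0x0, 0, 0x21537386, 4,
    [(0x0, 0), (0x205386a9, 4), (0x105487a9, 4), (0x214376a9, 4), (0x205386a9, 4), (0x105487a9, 4)],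
    [(0x21537386, 4), (0x10536487, 4), (0x204385a9, 4), (0x537684a9, 4), (0x204385a9, 4), (0x21637584, 4), (0x107486a9, 4), (0x537684a9, 4), (0x107486a9, 4), (0x20547683, 4), (0x537684a9, 4), (0x21637584, 4)]⟩

def c_5053 : frmChk tA tB F_5053 = true := by decide +kernel

def r_5053_0 : chkL rootF engF2 tA tB sA_435 sB_435 4 F_5053 [(511, 0, 0)]
    0x111d0749943a91460d616a185a = true := by
  decide +kernel

theorem f_5053 (h : TabsF) : FrameF repsF 435 F_5053.f :=
  frame_of rfl c_5053 (runs_of engOK r_5053_0) (by decide +kernel) h.1 h.2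

def F_5054 : FrX :=
  ⟨0x2002000900044004000e02041000141000800040800400484020600010010c0002002400110400040c000100800040240400091005200800105042201000,
    0xa3, 1, 0x4051728396a3, 6,
    [(0xa3, 1), (0x208693a5, 4), (0x10548793, 4), (0x217693a4, 4), (0x208693a5, 4), (0x10548793, 4)],
    [(0x4051728396a3, 6), (0x748693a1, 4), (0x10325486, 4), (0x758692a0, 4), (0x748693a1, 4), (0x10325486, 4)]⟩

def c_5054 : frmChk tA tA F_5054 = true := by decide +kernel

def r_5054_0 : chkL rootF engF2 tA tA sA_435 sA_435 4 F_5054 [(511, 0, 0)]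
    0x1 = true := by
  decide +kernel

theorem f_5054 (h : TabsF) : FrameF repsF 435 F_5054.f :=
  frame_of rfl c_5054 (runs_of engOK r_5054_0) (by decide +kernel) h.1 h.1

def F_5055 : FrX :=
  ⟨0x80080a000804040e00002101002001000002040890020001404008808280004020011001004021008008000808050200420090006009282040080800080,
    0xa6, 1, 0x425163708696a8, 7,
    [(0xa6, 1), (0x205396a8, 4), (0x10548796, 4), (0x214396a7, 4), (0x205396a8, 4), (0x10548796, 4)],
    [(0x425163708696a8, 7), (0x107496a2, 4), (0x21758390, 4), (0x108392a6, 4), (0x21758390, 4), (0x546092a1, 4), (0x627483a9, 4), (0x108392a6, 4), (0x627483a9, 4), (0x207591a6, 4), (0x108392a6, 4), (0x546092a1, 4)]⟩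

def c_5055 : frmChk tA tB F_5055 = true := by decide +kernel

def r_5055_0 : chkL rootF engF2 tA tB sA_435 sB_435 4 F_5055 [(511, 0, 0)]
    0x1 = true := by
  decide +kernel

theorem f_5055 (h : TabsF) : FrameF repsF 435 F_5055.f :=
  frame_of rfl c_5055 (runs_of engOK r_5055_0) (by decide +kernel) h.1 h.2

def F_5056 : FrX :=
  ⟨0x1001040012008080000e00840800410008101000040820081010200021000030048048004404414208000808800004010000885000080440014002200084,
    0xa3, 1, 0x4350718296a3, 6,
    [(0xa3, 1), (0x207584a6, 4), (0x10547693, 4), (0x647593a8, 4), (0x10547693, 4), (0x216485a7, 4), (0x208693a4, 4), (0x647593a8, 4), (0x208693a4, 4), (0x106574a8, 4), (0x647593a8, 4), (0x216485a7, 4)],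
    [(0x4350718296a3, 6), (0x103285a9, 4), (0x30647591, 4), (0x106493a2, 4), (0x30647591, 4), (0x208793a1, 4), (0x648592a3, 4), (0x106493a2, 4), (0x648592a3, 4), (0x317590a2, 4), (0x106493a2, 4), (0x208793a1, 4)]⟩

def c_5056 : frmChk tB tB F_5056 = true := by decide +kernel

def r_5056_0 : chkL rootF engF2 tB tB sB_435 sB_435 4 F_5056 [(511, 0, 0)]
    0x1 = true := by
  decide +kernel

theorem f_5056 (h : TabsF) : FrameF repsF 435 F_5056.f :=
  frame_of rfl c_5056 (runs_of engOK r_5056_0) (by decide +kernel) h.2 h.2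

theorem cl_435 (h : TabsF) : ∀ f ∈ fr_435, FrameF repsF 435 f :=
  List.forall_mem_cons.2 ⟨f_5041 h, List.forall_mem_cons.2 ⟨f_5042 h, List.forall_mem_cons.2 ⟨f_5043 h, List.forall_mem_cons.2 ⟨f_5044 h, List.forall_mem_cons.2 ⟨f_5045 h, List.forall_mem_cons.2 ⟨f_5046 h, List.forall_mem_cons.2 ⟨f_5047 h, List.forall_mem_cons.2 ⟨f_5048 h, List.forall_mem_cons.2 ⟨f_5049 h, List.forall_mem_cons.2 ⟨f_5050 h, List.forall_mem_cons.2 ⟨f_5051 h, List.forall_mem_cons.2 ⟨f_5052 h, List.forall_mem_cons.2 ⟨f_5053 h, List.forall_mem_cons.2 ⟨f_5054 h, List.forall_mem_cons.2 ⟨f_5055 h, List.forall_mem_cons.2 ⟨f_5056 h,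
    fun _ h0 => absurd h0 List.not_mem_nil⟩⟩⟩⟩⟩⟩⟩⟩⟩⟩⟩⟩⟩⟩⟩⟩

def F_5057 : FrX :=
  ⟨0x80080a000804040e000021010020010000020408804210020101004002040080084400a0008010010810000028091002040408045001021000802600100,
    0xa6, 1, 0x10415160758290a3, 8,
    [(0xa6, 1), (0x205396a8, 4), (0x10548796, 4), (0x214396a7, 4), (0x205396a8, 4), (0x10548796, 4)],
    [(0x10415160758290a3, 8), (0x216398a7, 4), (0x42637095, 4), (0x416385a0, 4), (0x216398a7, 4), (0x42637095, 4)]⟩

def c_5057 : frmChk tA tA F_5057 = true := by decide +kernel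

def r_5057_0 : chkL rootF engF2 tA tA sA_436 sA_436 4 F_5057 [(511, 0, 0)]
    0x1 = true := by
  decide +kernel

theorem f_5057 (h : TabsF) : FrameF repsF 436 F_5057.f :=
  frame_of rfl c_5057 (runs_of engOK r_5057_0) (by decide +kernel) h.1 h.1

def F_5058 : FrX :=
  ⟨0x1c21020000040440000020410001010000820408900800800008100102004040200148081224004800202000222200020040020850100018100a0008800,
    0x0, 0, 0x537585, 3,
    [(0x0, 0), (0x205386a9, 4), (0x105487a9, 4), (0x214376a9, 4), (0x205386a9, 4), (0x105487a9, 4)],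
    [(0x537585, 3), (0x207685a9, 4), (0x107384a9, 4), (0x215463a9, 4), (0x207685a9, 4), (0x107384a9, 4)]⟩

def c_5058 : frmChk tA tA F_5058 = true := by decide +kernel

def r_5058_0 : chkL rootF engF2 tA tA sA_436 sA_436 4 F_5058 [(511, 0, 0)]
    0x1 = true := by
  decide +kernel

theorem f_5058 (h : TabsF) : FrameF repsF 436 F_5058.f :=
  frame_of rfl c_5058 (runs_of engOK r_5058_0) (by decide +kernel) h.1 h.1

def F_5059 : FrX :=
  ⟨0x80080a000804040e00002101002001000002040892420002010000400204004020500048002401080028000022201002100102085001001810002900800,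
    0xa6, 1, 0x3142546287a7, 6,
    [(0xa6, 1), (0x205396a8, 4), (0x10548796, 4), (0x214396a7, 4), (0x205396a8, 4), (0x10548796, 4)],
    [(0x3142546287a7, 6), (0x416075a2, 4), (0x305298a4, 4), (0x547198a2, 4), (0x305298a4, 4), (0x546372a1, 4), (0x51607498, 4), (0x547198a2, 4), (0x51607498, 4), (0x304271a5, 4), (0x547198a2, 4), (0x546372a1, 4)]⟩

def c_5059 : frmChk tA tB F_5059 = true := by decide +kernel

def r_5059_0 : chkL rootF engF2 tA tB sA_436 sB_436 4 F_5059 [(511, 0, 0)]
    0x1 = true := by
  decide +kernel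

theorem f_5059 (h : TabsF) : FrameF repsF 436 F_5059.f :=
  frame_of rfl c_5059 (runs_of engOK r_5059_0) (by decide +kernel) h.1 h.2

def F_5060 : FrX :=
  ⟨0x2002000900044004000e020410001410008000408100000811010044090084020200040081224004840202000200200010040200060008008100c0008848,
    0xa3, 1, 0x4251738594a5, 6,
    [(0xa3, 1), (0x208693a5, 4), (0x10548793, 4), (0x217693a4, 4), (0x208693a5, 4), (0x10548793, 4)],
    [(0x4251738594a5, 6), (0x406182a7, 4), (0x315082a9, 4), (0x54638297, 4), (0x406182a7, 4), (0x315082a9, 4)]⟩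

def c_5060 : frmChk tA tA F_5060 = true := by decide +kernel

def r_5060_0 : chkL rootF engF2 tA tA sA_436 sA_436 4 F_5060 [(511, 0, 0)]
    0x1 = true := by
  decide +kernel

theorem f_5060 (h : TabsF) : FrameF repsF 436 F_5060.f :=
  frame_of rfl c_5060 (runs_of engOK r_5060_0) (by decide +kernel) h.1 h.1

def F_5061 : FrX :=
  ⟨0x482000044040440000c2040020009000182040010010048000800280042010030010808122400480800200080220002004006080410080802024000804,
    0xa0, 1, 0x65718394a2, 5,
    [(0xa0, 1), (0x538690a2, 4), (0x548790a1, 4), (0x21437690, 4), (0x538690a2, 4), (0x548790a1, 4)],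
    [(0x65718394a2, 5), (0x425386a0, 4), (0x31427096, 4), (0x425198a7, 4), (0x425386a0, 4), (0x31427096, 4)]⟩

def c_5061 : frmChk tA tA F_5061 = true := by decide +kernel

def r_5061_0 : chkL rootF engF2 tA tA sA_436 sA_436 4 F_5061 [(511, 0, 0)]
    0x1 = true := by
  decide +kernel

theorem f_5061 (h : TabsF) : FrameF repsF 436 F_5061.f :=
  frame_of rfl c_5061 (runs_of engOK r_5061_0) (by decide +kernel) h.1 h.1

def F_5062 : FrX :=
  ⟨0x2002000900044004000e02041000141000800040808000208120000404020a08200010101408009c08002001000400801001800440040000100904211100,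
    0xa3, 1, 0x435162728295a0, 7,
    [(0xa3, 1), (0x208693a5, 4), (0x10548793, 4), (0x217693a4, 4), (0x208693a5, 4), (0x10548793, 4)],
    [(0x435162728295a0, 7), (0x107294a8, 4), (0x107693a5, 4), (0x10436285, 4), (0x107294a8, 4), (0x107693a5, 4)]⟩

def c_5062 : frmChk tA tA F_5062 = true := by decide +kernel

def r_5062_0 : chkL rootF engF2 tA tA sA_436 sA_436 4 F_5062 [(511, 0, 0)]
    0x447 = true := by
  decide +kernel

theorem f_5062 (h : TabsF) : FrameF repsF 436 F_5062.f :=
  frame_of rfl c_5062 (runs_of engOK r_5062_0) (by decide +kernel) h.1 h.1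

def F_5063 : FrX :=
  ⟨0x482000044040440000c2040020009000182040010020082004000404010801811000101001080180000440042010080080084440080484504100000042,
    0xa0, 1, 0x5063718194a2, 6,
    [(0xa0, 1), (0x538690a2, 4), (0x548790a1, 4), (0x21437690, 4), (0x538690a2, 4), (0x548790a1, 4)],
    [(0x5063718194a2, 6), (0x106397a5, 4), (0x31428590, 4), (0x10427693, 4), (0x31428590, 4), (0x617093a8, 4), (0x427396a5, 4), (0x10427693, 4), (0x427396a5, 4), (0x30768591, 4), (0x10427693, 4), (0x617093a8, 4)]⟩

def c_5063 : frmChk tA tB F_5063 = true := by decide +kernel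

def r_5063_0 : chkL rootF engF2 tA tB sA_436 sB_436 4 F_5063 [(511, 0, 0)]
    0x1 = true := by
  decide +kernel

theorem f_5063 (h : TabsF) : FrameF repsF 436 F_5063.f :=
  frame_of rfl c_5063 (runs_of engOK r_5063_0) (by decide +kernel) h.1 h.2

def F_5064 : FrX :=
  ⟨0x482000044040440000c2040020009000182040010040100101000180020808208012002001040214020420200401420048008000600a00002002000450,
    0xa0, 1, 0x21325160708194a6, 8,
    [(0xa0, 1), (0x538690a2, 4), (0x548790a1, 4), (0x21437690, 4), (0x538690a2, 4), (0x548790a1, 4)],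
    [(0x21325160708194a6, 8), (0x214073a5, 4), (0x40658792, 4), (0x408391a6, 4), (0x214073a5, 4), (0x40658792, 4)]⟩

def c_5064 : frmChk tA tA F_5064 = true := by decide +kernel

def r_5064_0 : chkL rootF engF2 tA tA sA_436 sA_436 4 F_5064 [(511, 0, 0)]
    0x1 = true := by
  decide +kernel

theorem f_5064 (h : TabsF) : FrameF repsF 436 F_5064.f :=
  frame_of rfl c_5064 (runs_of engOK r_5064_0) (by decide +kernel) h.1 h.1

def F_5065 : FrX :=
  ⟨0x2002000900044004000e02041000141000800040800401042010200010202101000102100850420414000100080048008220082040200000404040214200,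
    0xa3, 1, 0x2042718793a4, 6,
    [(0xa3, 1), (0x208693a5, 4), (0x10548793, 4), (0x217693a4, 4), (0x208693a5, 4), (0x10548793, 4)],
    [(0x2042718793a4, 6), (0x428596a1, 4), (0x307286a5, 4), (0x308591a6, 4), (0x307286a5, 4), (0x517498a6, 4), (0x304261a9, 4), (0x308591a6, 4), (0x304261a9, 4), (0x657291a8, 4), (0x308591a6, 4), (0x517498a6, 4)]⟩

def c_5065 : frmChk tA tB F_5065 = true := by decide +kernel

def r_5065_0 : chkL rootF engF2 tA tB sA_436 sB_436 4 F_5065 [(511, 0, 0)]
    0x1 = true := by
  decide +kernel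

theorem f_5065 (h : TabsF) : FrameF repsF 436 F_5065.f :=
  frame_of rfl c_5065 (runs_of engOK r_5065_0) (by decide +kernel) h.1 h.2

def F_5066 : FrX :=
  ⟨0x80080a000804040e00002101002001000002040880411004020004800080282008080402400040214100200600040420201108001003000400222400010,
    0xa6, 1, 0x3054637491a4, 6,
    [(0xa6, 1), (0x205396a8, 4), (0x10548796, 4), (0x214396a7, 4), (0x205396a8, 4), (0x10548796, 4)],
    [(0x3054637491a4, 6), (0x32647180, 4), (0x718593a4, 4), (0x507192a6, 4), (0x32647180, 4), (0x718593a4, 4)]⟩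

def c_5066 : frmChk tA tA F_5066 = true := by decide +kernel

def r_5066_0 : chkL rootF engF2 tA tA sA_436 sA_436 4 F_5066 [(511, 0, 0)]
    0x1 = true := by
  decide +kernel

theorem f_5066 (h : TabsF) : FrameF repsF 436 F_5066.f :=
  frame_of rfl c_5066 (runs_of engOK r_5066_0) (by decide +kernel) h.1 h.1

def F_5067 : FrX :=
  ⟨0x2002000900044004000e020410001410008000408008890400102000082004010001030020280002102004004040480202400080222002004400200a4040,
    0xa3, 1, 0x20415370a0, 5,
    [(0xa3, 1), (0x208693a5, 4), (0x10548793, 4), (0x217693a4, 4), (0x208693a5, 4), (0x10548793, 4)],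
    [(0x20415370a0, 5), (0x538697a0, 4), (0x318297a4, 4), (0x40516297, 4), (0x538697a0, 4), (0x318297a4, 4)]⟩

def c_5067 : frmChk tA tA F_5067 = true := by decide +kernel

def r_5067_0 : chkL rootF engF2 tA tA sA_436 sA_436 4 F_5067 [(511, 0, 0)]
    0x1 = true := by
  decide +kernel

theorem f_5067 (h : TabsF) : FrameF repsF 436 F_5067.f :=
  frame_of rfl c_5067 (runs_of engOK r_5067_0) (by decide +kernel) h.1 h.1

def F_5068 : FrX :=
  ⟨0x482000044040440000c204002000900018204000220010010808000481004120020200108100002080a40800410140004800800a200200101000010442,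
    0xa0, 1, 0x314062708592a0, 7,
    [(0xa0, 1), (0x538690a2, 4), (0x548790a1, 4), (0x21437690, 4), (0x538690a2, 4), (0x548790a1, 4)],
    [(0x314062708592a0, 7), (0x527681a9, 4), (0x547680a3, 4), (0x10427693, 4), (0x527681a9, 4), (0x547680a3, 4)]⟩

def c_5068 : frmChk tA tA F_5068 = true := by decide +kernel

def r_5068_0 : chkL rootF engF2 tA tA sA_436 sA_436 4 F_5068 [(511, 0, 0)]
    0x1 = true := by
  decide +kernel

theorem f_5068 (h : TabsF) : FrameF repsF 436 F_5068.f :=
  frame_of rfl c_5068 (runs_of engOK r_5068_0) (by decide +kernel) h.1 h.1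

def F_5069 : FrX :=
  ⟨0x80080a000804040e00002101002001000002040880821001020002808080204004081000830421010001000204040408242000002000600500220420200,
    0xa6, 1, 0x1052648191a0, 6,
    [(0xa6, 1), (0x205396a8, 4), (0x10548796, 4), (0x214396a7, 4), (0x205396a8, 4), (0x10548796, 4)],
    [(0x1052648191a0, 6), (0x436072a5, 4), (0x627481a9, 4), (0x30647281, 4), (0x627481a9, 4), (0x20647395, 4), (0x406381a5, 4), (0x30647281, 4), (0x406381a5, 4), (0x304276a9, 4), (0x30647281, 4), (0x20647395, 4)]⟩

def c_5069 : frmChk tA tB F_5069 = true := by decide +kernel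

def r_5069_0 : chkL rootF engF2 tA tB sA_436 sB_436 4 F_5069 [(511, 0, 0)]
    0x1 = true := by
  decide +kernel

theorem f_5069 (h : TabsF) : FrameF repsF 436 F_5069.f :=
  frame_of rfl c_5069 (runs_of engOK r_5069_0) (by decide +kernel) h.1 h.2

def F_5070 : FrX :=
  ⟨0x80080a000804040e0000210100200100000204088110101200802800040020200100206001080400089000110010010104200000a0100a4400010140210,
    0xa6, 1, 0x3141526171a2, 6,
    [(0xa6, 1), (0x205396a8, 4), (0x10548796, 4), (0x214396a7, 4), (0x205396a8, 4), (0x10548796, 4)],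
    [(0x3141526171a2, 6), (0x416283a0, 4), (0x32647095, 4), (0x43628195, 4), (0x32647095, 4), (0x436182a7, 4), (0x318495a0, 4), (0x43628195, 4), (0x318495a0, 4), (0x42637081, 4), (0x43628195, 4), (0x436182a7, 4)]⟩

def c_5070 : frmChk tA tB F_5070 = true := by decide +kernel

def r_5070_0 : chkL rootF engF2 tA tB sA_436 sB_436 4 F_5070 [(511, 0, 0)]
    0x44711c47 = true := by
  decide +kernel

theorem f_5070 (h : TabsF) : FrameF repsF 436 F_5070.f :=
  frame_of rfl c_5070 (runs_of engOK r_5070_0) (by decide +kernel) h.1 h.2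

def F_5071 : FrX :=
  ⟨0x80080a000804040e00002101002001000002040890010008084004102002000030910000802081020008000401082800088080010821002040a20080090,
    0xa6, 1, 0x3142638495a6, 6,
    [(0xa6, 1), (0x205396a8, 4), (0x10548796, 4), (0x214396a7, 4), (0x205396a8, 4), (0x10548796, 4)],
    [(0x3142638495a6, 6), (0x405196a2, 4), (0x30517298, 4), (0x435186a7, 4), (0x405196a2, 4), (0x30517298, 4)]⟩

def c_5071 : frmChk tA tA F_5071 = true := by decide +kernel

def r_5071_0 : chkL rootF engF2 tA tA sA_436 sA_436 4 F_5071 [(511, 0, 0)]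
    0x417 = true := by
  decide +kernel

theorem f_5071 (h : TabsF) : FrameF repsF 436 F_5071.f :=
  frame_of rfl c_5071 (runs_of engOK r_5071_0) (by decide +kernel) h.1 h.1

def F_5072 : FrX :=
  ⟨0x482000044040440000c204002000900018204002000090040020004800c082020200400022080220800800081008800240000830028002002120008450,
    0xa0, 1, 0x305462758291a0, 7,
    [(0xa0, 1), (0x538690a2, 4), (0x548790a1, 4), (0x21437690, 4), (0x538690a2, 4), (0x548790a1, 4)],
    [(0x305462758291a0, 7), (0x316270a8, 4), (0x316475a9, 4), (0x31425098, 4), (0x316270a8, 4), (0x316475a9, 4)]⟩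

def c_5072 : frmChk tA tA F_5072 = true := by decide +kernel

def r_5072_0 : chkL rootF engF2 tA tA sA_436 sA_436 4 F_5072 [(511, 0, 0)]
    0x469 = true := by
  decide +kernel

theorem f_5072 (h : TabsF) : FrameF repsF 436 F_5072.f :=
  frame_of rfl c_5072 (runs_of engOK r_5072_0) (by decide +kernel) h.1 h.1

def F_5073 : FrX :=
  ⟨0x2002000900044004000e02041000141000800040804001020080c00010224000100081204090006000881203000010100000202048001020401220008208,
    0xa3, 1, 0x314265758094a3, 7,
    [(0xa3, 1), (0x208693a5, 4), (0x10548793, 4), (0x217693a4, 4), (0x208693a5, 4), (0x10548793, 4)],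
    [(0x314265758094a3, 7), (0x215084a7, 4), (0x21608397, 4), (0x214365a9, 4), (0x215084a7, 4), (0x21608397, 4)]⟩

def c_5073 : frmChk tA tA F_5073 = true := by decide +kernel

def r_5073_0 : chkL rootF engF2 tA tA sA_436 sA_436 4 F_5073 [(511, 0, 0)]
    0x1 = true := by
  decide +kernel

theorem f_5073 (h : TabsF) : FrameF repsF 436 F_5073.f :=
  frame_of rfl c_5073 (runs_of engOK r_5073_0) (by decide +kernel) h.1 h.1

def F_5074 : FrX :=
  ⟨0x482000044040440000c2040020009000182040000902000808100008000421010a02000888000202000020444020002001010190010109800220080401,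
    0xa0, 1, 0x2052647190a3, 6,
    [(0xa0, 1), (0x538690a2, 4), (0x548790a1, 4), (0x21437690, 4), (0x538690a2, 4), (0x548790a1, 4)],
    [(0x2052647190a3, 6), (0x108695a4, 4), (0x32416097, 4), (0x103264a8, 4), (0x32416097, 4), (0x647580a1, 4), (0x328495a6, 4), (0x103264a8, 4), (0x328495a6, 4), (0x406197a8, 4), (0x103264a8, 4), (0x647580a1, 4)]⟩

def c_5074 : frmChk tA tB F_5074 = true := by decide +kernel

def r_5074_0 : chkL rootF engF2 tA tB sA_436 sB_436 4 F_5074 [(511, 0, 0)]
    0x1 = true := by
  decide +kernel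

theorem f_5074 (h : TabsF) : FrameF repsF 436 F_5074.f :=
  frame_of rfl c_5074 (runs_of engOK r_5074_0) (by decide +kernel) h.1 h.2

def F_5075 : FrX :=
  ⟨0x600020801080810000c00401804101010010040101018020000048041022020004001008004402004100200c20380008000888000000404080410c0042,
    0xa0, 1, 0x1021325380a6, 6,
    [(0xa0, 1), (0x637584a2, 4), (0x547690a1, 4), (0x64758390, 4), (0x547690a1, 4), (0x21647385, 4), (0x438690a2, 4), (0x64758390, 4), (0x438690a2, 4), (0x657483a1, 4), (0x64758390, 4), (0x21647385, 4)],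
    [(0x1021325380a6, 6), (0x508396a1, 4), (0x40718296, 4), (0x325496a7, 4), (0x508396a1, 4), (0x40718296, 4)]⟩

def c_5075 : frmChk tB tA F_5075 = true := by decide +kernel

def r_5075_0 : chkL rootF engF2 tB tA sB_436 sA_436 4 F_5075 [(511, 0, 0)]
    0x4350d435 = true := by
  decide +kernel

theorem f_5075 (h : TabsF) : FrameF repsF 436 F_5075.f :=
  frame_of rfl c_5075 (runs_of engOK r_5075_0) (by decide +kernel) h.2 h.1

def F_5076 : FrX :=
  ⟨0x600020801080810000c0040180410101001004010100004400010a08200c04020010002000140100210010e02038000200080c08000040420021080001,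
    0xa0, 1, 0x102132518594a5, 7,
    [(0xa0, 1), (0x637584a2, 4), (0x547690a1, 4), (0x64758390, 4), (0x547690a1, 4), (0x21647385, 4), (0x438690a2, 4), (0x64758390, 4), (0x438690a2, 4), (0x657483a1, 4), (0x64758390, 4), (0x21647385, 4)],
    [(0x102132518594a5, 7), (0x316284a0, 4), (0x517284a9, 4), (0x53768490, 4), (0x316284a0, 4), (0x517284a9, 4)]⟩

def c_5076 : frmChk tB tA F_5076 = true := by decide +kernel

def r_5076_0 : chkL rootF engF2 tB tA sB_436 sA_436 4 F_5076 [(511, 0, 0)]
    0x1 = true := by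
  decide +kernel

theorem f_5076 (h : TabsF) : FrameF repsF 436 F_5076.f :=
  frame_of rfl c_5076 (runs_of engOK r_5076_0) (by decide +kernel) h.2 h.1

def F_5077 : FrX :=
  ⟨0x1001040012008080000e0084080041000810100004042002800111000018001001020088410a402000020208440010200040200206000801062003002000,
    0xa3, 1, 0x415061728098a6, 7,
    [(0xa3, 1), (0x207584a6, 4), (0x10547693, 4), (0x647593a8, 4), (0x10547693, 4), (0x216485a7, 4), (0x208693a4, 4), (0x647593a8, 4), (0x208693a4, 4), (0x106574a8, 4), (0x647593a8, 4), (0x216485a7, 4)],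
    [(0x415061728098a6, 7), (0x305487a9, 4), (0x10548692, 4), (0x315476a2, 4), (0x305487a9, 4), (0x10548692, 4)]⟩

def c_5077 : frmChk tB tA F_5077 = true := by decide +kernel

def r_5077_0 : chkL rootF engF2 tB tA sB_436 sA_436 4 F_5077 [(511, 0, 0)]
    0x1 = true := by
  decide +kernel

theorem f_5077 (h : TabsF) : FrameF repsF 436 F_5077.f :=
  frame_of rfl c_5077 (runs_of engOK r_5077_0) (by decide +kernel) h.2 h.1

def F_5078 : FrX :=
  ⟨0x1001040012008080000e00840800410008101000040410084020010040080050084042004200010824802008400400414040200108024000021001042080,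
    0xa3, 1, 0x21325060718294a6, 8,
    [(0xa3, 1), (0x207584a6, 4), (0x10547693, 4), (0x647593a8, 4), (0x10547693, 4), (0x216485a7, 4), (0x208693a4, 4), (0x647593a8, 4), (0x208693a4, 4), (0x106574a8, 4), (0x647593a8, 4), (0x216485a7, 4)],
    [(0x21325060718294a6, 8), (0x208693a1, 4), (0x547690a2, 4), (0x203154a9, 4), (0x547690a2, 4), (0x213087a9, 4), (0x548691a3, 4), (0x203154a9, 4), (0x548691a3, 4), (0x317692a0, 4), (0x203154a9, 4), (0x213087a9, 4)]⟩

def c_5078 : frmChk tB tB F_5078 = true := by decide +kernel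

def r_5078_0 : chkL rootF engF2 tB tB sB_436 sB_436 4 F_5078 [(511, 0, 0)]
    0x1 = true := by
  decide +kernel

theorem f_5078 (h : TabsF) : FrameF repsF 436 F_5078.f :=
  frame_of rfl c_5078 (runs_of engOK r_5078_0) (by decide +kernel) h.2 h.2

def F_5079 : FrX :=
  ⟨0x482000044040440000c2040020009000182040000842040000880800080088004010510020080802020010504090002080008208440104040210800010,
    0xa0, 1, 0x2131415062738795a6, 9,
    [(0xa0, 1), (0x538690a2, 4), (0x548790a1, 4), (0x21437690, 4), (0x538690a2, 4), (0x548790a1, 4)],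
    [(0x2131415062738795a6, 9), (0x106597a2, 4), (0x10548293, 4), (0x106473a8, 4), (0x106597a2, 4), (0x10548293, 4)]⟩

def c_5079 : frmChk tA tA F_5079 = true := by decide +kernel

def r_5079_0 : chkL rootF engF2 tA tA sA_436 sA_436 4 F_5079 [(511, 0, 0)]
    0x1 = true := by
  decide +kernel

theorem f_5079 (h : TabsF) : FrameF repsF 436 F_5079.f :=
  frame_of rfl c_5079 (runs_of engOK r_5079_0) (by decide +kernel) h.1 h.1

def F_5080 : FrX :=
  ⟨0x482000044040440000c204002000900018204002000344000008080404088100080010002801048002000001321008208000a008040400500200808240,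
    0xa0, 1, 0x213140546583a5, 7,
    [(0xa0, 1), (0x538690a2, 4), (0x548790a1, 4), (0x21437690, 4), (0x538690a2, 4), (0x548790a1, 4)],
    [(0x213140546583a5, 7), (0x204196a8, 4), (0x437296a5, 4), (0x31708596, 4), (0x204196a8, 4), (0x437296a5, 4)]⟩

def c_5080 : frmChk tA tA F_5080 = true := by decide +kernel

def r_5080_0 : chkL rootF engF2 tA tA sA_436 sA_436 4 F_5080 [(511, 0, 0)]
    0x1 = true := by
  decide +kernel

theorem f_5080 (h : TabsF) : FrameF repsF 436 F_5080.f :=
  frame_of rfl c_5080 (runs_of engOK r_5080_0) (by decide +kernel) h.1 h.1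

def F_5081 : FrX :=
  ⟨0x80080a000804040e0000210100200100000204088220000209008010000408204508000802240002002810040220200110000204041010a100004220200,
    0xa6, 1, 0x21324151748398a6, 8,
    [(0xa6, 1), (0x205396a8, 4), (0x10548796, 4), (0x214396a7, 4), (0x205396a8, 4), (0x10548796, 4)],
    [(0x21324151748398a6, 8), (0x304297a8, 4), (0x506174a2, 4), (0x426198a7, 4), (0x506174a2, 4), (0x538294a7, 4), (0x306187a9, 4), (0x426198a7, 4), (0x306187a9, 4), (0x507298a4, 4), (0x426198a7, 4), (0x538294a7, 4)]⟩

def c_5081 : frmChk tA tB F_5081 = true := by decide +kernel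

def r_5081_0 : chkL rootF engF2 tA tB sA_436 sB_436 4 F_5081 [(511, 0, 0)]
    0x447 = true := by
  decide +kernel

theorem f_5081 (h : TabsF) : FrameF repsF 436 F_5081.f :=
  frame_of rfl c_5081 (runs_of engOK r_5081_0) (by decide +kernel) h.1 h.2

def F_5082 : FrX :=
  ⟨0x80080a000804040e0000210100200100000204088120000221010010060400100110004090200008008880002c410002040060011000404210100141000,
    0xa6, 1, 0x2150708390a6, 6,
    [(0xa6, 1), (0x205396a8, 4), (0x10548796, 4), (0x214396a7, 4), (0x205396a8, 4), (0x10548796, 4)],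
    [(0x2150708390a6, 6), (0x768091a3, 4), (0x40537692, 4), (0x217684a5, 4), (0x768091a3, 4), (0x40537692, 4)]⟩

def c_5082 : frmChk tA tA F_5082 = true := by decide +kernel

def r_5082_0 : chkL rootF engF2 tA tA sA_436 sA_436 4 F_5082 [(511, 0, 0)]
    0x150d461701d = true := by
  decide +kernel

theorem f_5082 (h : TabsF) : FrameF repsF 436 F_5082.f :=
  frame_of rfl c_5082 (runs_of engOK r_5082_0) (by decide +kernel) h.1 h.1

def F_5083 : FrX :=
  ⟨0x80080a000804040e000021010020010000020408900100080880a8000820002000401080802082002018000280620002002010020402240202005012000,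
    0xa6, 1, 0x51618191a8, 5,
    [(0xa6, 1), (0x205396a8, 4), (0x10548796, 4), (0x214396a7, 4), (0x205396a8, 4), (0x10548796, 4)],
    [(0x51618191a8, 5), (0x205371a4, 4), (0x41758690, 4), (0x547186a3, 4), (0x41758690, 4), (0x547392a1, 4), (0x204386a5, 4), (0x547186a3, 4), (0x204386a5, 4), (0x517490a3, 4), (0x547186a3, 4), (0x547392a1, 4)]⟩

def c_5083 : frmChk tA tB F_5083 = true := by decide +kernel

def r_5083_0 : chkL rootF engF2 tA tB sA_436 sB_436 4 F_5083 [(511, 0, 0)]
    0x1 = true := by
  decide +kernel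

theorem f_5083 (h : TabsF) : FrameF repsF 436 F_5083.f :=
  frame_of rfl c_5083 (runs_of engOK r_5083_0) (by decide +kernel) h.1 h.2

def F_5084 : FrX :=
  ⟨0x1c2102000004044000002041000101000082040888200008000880200002202020600048020130008060440a00008100088010001a00204040004080050,
    0x0, 0, 0x21546587, 4,
    [(0x0, 0), (0x205386a9, 4), (0x105487a9, 4), (0x214376a9, 4), (0x205386a9, 4), (0x105487a9, 4)],
    [(0x21546587, 4), (0x10437586, 4), (0x206584a9, 4), (0x547386a9, 4), (0x206584a9, 4), (0x21547683, 4), (0x105374a9, 4), (0x547386a9, 4), (0x105374a9, 4), (0x20647385, 4), (0x547386a9, 4), (0x21547683, 4)]⟩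

def c_5084 : frmChk tA tB F_5084 = true := by decide +kernel

def r_5084_0 : chkL rootF engF2 tA tB sA_436 sB_436 4 F_5084 [(511, 0, 0)]
    0x1 = true := by
  decide +kernel

theorem f_5084 (h : TabsF) : FrameF repsF 436 F_5084.f :=
  frame_of rfl c_5084 (runs_of engOK r_5084_0) (by decide +kernel) h.1 h.2

theorem cl_436 (h : TabsF) : ∀ f ∈ fr_436, FrameF repsF 436 f :=
  List.forall_mem_cons.2 ⟨f_5057 h, List.forall_mem_cons.2 ⟨f_5058 h, List.forall_mem_cons.2 ⟨f_5059 h, List.forall_mem_cons.2 ⟨f_5060 h, List.forall_mem_cons.2 ⟨f_5061 h, List.forall_mem_cons.2 ⟨f_5062 h, List.forall_mem_cons.2 ⟨f_5063 h, List.forall_mem_cons.2 ⟨f_5064 h, List.forall_mem_cons.2 ⟨f_5065 h, List.forall_mem_cons.2 ⟨f_5066 h, List.forall_mem_cons.2 ⟨f_5067 h, List.forall_mem_cons.2 ⟨f_5068 h, List.forall_mem_cons.2 ⟨f_5069 h, List.forall_mem_cons.2 ⟨f_5070 h, List.forall_mem_cons.2 ⟨f_5071 h, List.forall_mem_cons.2 ⟨f_5072 h, List.forall_mem_cons.2 ⟨f_5073 h, List.forall_mem_cons.2 ⟨f_5074 h, List.forall_mem_cons.2 ⟨f_5075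 h, List.forall_mem_cons.2 ⟨f_5076 h, List.forall_mem_cons.2 ⟨f_5077 h, List.forall_mem_cons.2 ⟨f_5078 h, List.forall_mem_cons.2 ⟨f_5079 h, List.forall_mem_cons.2 ⟨f_5080 h, List.forall_mem_cons.2 ⟨f_5081 h, List.forall_mem_cons.2 ⟨f_5082 h, List.forall_mem_cons.2 ⟨f_5083 h, List.forall_mem_cons.2 ⟨f_5084 h,
    fun _ h0 => absurd h0 List.not_mem_nil⟩⟩⟩⟩⟩⟩⟩⟩⟩⟩⟩⟩⟩⟩⟩⟩⟩⟩⟩⟩⟩⟩⟩⟩⟩⟩⟩⟩

def F_5085 : FrX :=
  ⟨0x80080a000804040e0000210100200100000204088042020141008080080100200108004140c00018000080001111000100004800a0002025080c0d00000,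
    0xa6, 1, 0x304052618293a3, 7,
    [(0xa6, 1), (0x205396a8, 4), (0x10548796, 4), (0x214396a7, 4), (0x205396a8, 4), (0x10548796, 4)],
    [(0x304052618293a3, 7), (0x518490a2, 4), (0x32647590, 4), (0x718690a3, 4), (0x518490a2, 4), (0x32647590, 4)]⟩

def c_5085 : frmChk tA tA F_5085 = true := by decide +kernel

def r_5085_0 : chkL rootF engF2 tA tA sA_437 sA_437 4 F_5085 [(511, 0, 0)]
    0x105c1e = true := by
  decide +kernel

theorem f_5085 (h : TabsF) : FrameF repsF 437 F_5085.f :=
  frame_of rfl c_5085 (runs_of engOK r_5085_0) (by decide +kernel) h.1 h.1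

def F_5086 : FrX :=
  ⟨0x482000044040440000c2040020009000182040010080020800800810020208208400081004044480800804081010400010808008040400100a000400c4,
    0xa0, 1, 0x1064728593a0, 6,
    [(0xa0, 1), (0x538690a2, 4), (0x548790a1, 4), (0x21437690, 4), (0x538690a2, 4), (0x548790a1, 4)],
    [(0x1064728593a0, 6), (0x315498a7, 4), (0x315286a0, 4), (0x31427096, 4), (0x315498a7, 4), (0x315286a0, 4)]⟩

def c_5086 : frmChk tA tA F_5086 = true := by decide +kernel

def r_5086_0 : chkL rootF engF2 tA tA sA_437 sA_437 4 F_5086 [(511, 0, 0)]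
    0x1 = true := by
  decide +kernel

theorem f_5086 (h : TabsF) : FrameF repsF 437 F_5086.f :=
  frame_of rfl c_5086 (runs_of engOK r_5086_0) (by decide +kernel) h.1 h.1

def F_5087 : FrX :=
  ⟨0x80080a000804040e0000210100200100000204088048100010409000022000802001481008004040003000188880101002400202041000a0220040c0000,
    0xa6, 1, 0x32415261738391a5, 8,
    [(0xa6, 1), (0x205396a8, 4), (0x10548796, 4), (0x214396a7, 4), (0x205396a8, 4), (0x10548796, 4)],
    [(0x32415261738391a5, 8), (0x506374a8, 4), (0x637290a1, 4), (0x42638195, 4), (0x506374a8, 4), (0x637290a1, 4)]⟩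

def c_5087 : frmChk tA tA F_5087 = true := by decide +kernel

def r_5087_0 : chkL rootF engF2 tA tA sA_437 sA_437 4 F_5087 [(511, 0, 0)]
    0x1 = true := by
  decide +kernel

theorem f_5087 (h : TabsF) : FrameF repsF 437 F_5087.f :=
  frame_of rfl c_5087 (runs_of engOK r_5087_0) (by decide +kernel) h.1 h.1

def F_5088 : FrX :=
  ⟨0x2002000900044004000e02041000141000800040800801014020004100014048220000210020081000420013800800011100801080480808020002100084,
    0xa3, 1, 0x215261748791a3, 7,
    [(0xa3, 1), (0x208693a5, 4), (0x10548793, 4), (0x217693a4, 4), (0x208693a5, 4), (0x10548793, 4)],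
    [(0x215261748791a3, 7), (0x507481a2, 4), (0x63718290, 4), (0x637281a4, 4), (0x63718290, 4), (0x417295a8, 4), (0x425063a7, 4), (0x637281a4, 4), (0x425063a7, 4), (0x218790a4, 4), (0x637281a4, 4), (0x417295a8, 4)]⟩

def c_5088 : frmChk tA tB F_5088 = true := by decide +kernel

def r_5088_0 : chkL rootF engF2 tA tB sA_437 sB_437 4 F_5088 [(511, 0, 0)]
    0x1 = true := by
  decide +kernel

theorem f_5088 (h : TabsF) : FrameF repsF 437 F_5088.f :=
  frame_of rfl c_5088 (runs_of engOK r_5088_0) (by decide +kernel) h.1 h.2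

def F_5089 : FrX :=
  ⟨0x2002000900044004000e02041000141000800040808000408080a0001081200100020600102c00048010012001102004000080800880400040c220009008,
    0xa3, 1, 0x324365768792a3, 7,
    [(0xa3, 1), (0x208693a5, 4), (0x10548793, 4), (0x217693a4, 4), (0x208693a5, 4), (0x10548793, 4)],
    [(0x324365768792a3, 7), (0x437590a6, 4), (0x10436285, 4), (0x438791a2, 4), (0x437590a6, 4), (0x10436285, 4)]⟩

def c_5089 : frmChk tA tA F_5089 = true := by decide +kernel

def r_5089_0 : chkL rootF engF2 tA tA sA_437 sA_437 4 F_5089 [(511, 0, 0)]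
    0x41b = true := by
  decide +kernel

theorem f_5089 (h : TabsF) : FrameF repsF 437 F_5089.f :=
  frame_of rfl c_5089 (runs_of engOK r_5089_0) (by decide +kernel) h.1 h.1

def F_5090 : FrX :=
  ⟨0x482000044040440000c2040020009000182040001012080000c028000804000300204101000044008000049c8010002000086010100080850202800001,
    0xa0, 1, 0x20405462748097a0, 8,
    [(0xa0, 1), (0x538690a2, 4), (0x548790a1, 4), (0x21437690, 4), (0x538690a2, 4), (0x548790a1, 4)],
    [(0x20405462748097a0, 8), (0x324085a6, 4), (0x728594a1, 4), (0x61738590, 4), (0x324085a6, 4), (0x728594a1, 4)]⟩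

def c_5090 : frmChk tA tA F_5090 = true := by decide +kernel

def r_5090_0 : chkL rootF engF2 tA tA sA_437 sA_437 4 F_5090 [(511, 0, 0)]
    0x48b05c2b = true := by
  decide +kernel

theorem f_5090 (h : TabsF) : FrameF repsF 437 F_5090.f :=
  frame_of rfl c_5090 (runs_of engOK r_5090_0) (by decide +kernel) h.1 h.1

def F_5091 : FrX :=
  ⟨0x80080a000804040e0000210100200100000204088208020011008010020040800101410140000812000080088a08104012000201080840a0008040c0000,
    0xa6, 1, 0x65718693a2, 5,
    [(0xa6, 1), (0x205396a8, 4), (0x10548796, 4), (0x214396a7, 4), (0x205396a8, 4), (0x10548796, 4)],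
    [(0x65718693a2, 5), (0x546198a0, 4), (0x32647081, 4), (0x32618495, 4), (0x32647081, 4), (0x658491a7, 4), (0x328594a0, 4), (0x32618495, 4), (0x328594a0, 4), (0x41708695, 4), (0x32618495, 4), (0x658491a7, 4)]⟩

def c_5091 : frmChk tA tB F_5091 = true := by decide +kernel

def r_5091_0 : chkL rootF engF2 tA tB sA_437 sB_437 4 F_5091 [(511, 0, 0)]
    0x1 = true := by
  decide +kernel

theorem f_5091 (h : TabsF) : FrameF repsF 437 F_5091.f :=
  frame_of rfl c_5091 (runs_of engOK r_5091_0) (by decide +kernel) h.1 h.2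

def F_5092 : FrX :=
  ⟨0x482000044040440000c2040020009000182040001101002001020800000950010210000848001000080008823208800024000206080082100010800401,
    0xa0, 1, 0x213042538497a5, 7,
    [(0xa0, 1), (0x538690a2, 4), (0x548790a1, 4), (0x21437690, 4), (0x538690a2, 4), (0x548790a1, 4)],
    [(0x213042538497a5, 7), (0x436170a5, 4), (0x327091a8, 4), (0x42708596, 4), (0x436170a5, 4), (0x327091a8, 4)]⟩

def c_5092 : frmChk tA tA F_5092 = true := by decide +kernel

def r_5092_0 : chkL rootF engF2 tA tA sA_437 sA_437 4 F_5092 [(511, 0, 0)]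
    0x1 = true := by
  decide +kernel

theorem f_5092 (h : TabsF) : FrameF repsF 437 F_5092.f :=
  frame_of rfl c_5092 (runs_of engOK r_5092_0) (by decide +kernel) h.1 h.1

def F_5093 : FrX :=
  ⟨0x80080a000804040e00002101002001000002040890020001248008008810001011004000802080280002800121004202100040030002001100840260200,
    0xa6, 1, 0x1020314065a3, 6,
    [(0xa6, 1), (0x205396a8, 4), (0x10548796, 4), (0x214396a7, 4), (0x205396a8, 4), (0x10548796, 4)],
    [(0x1020314065a3, 6), (0x417682a5, 4), (0x43627590, 4), (0x527690a8, 4), (0x43627590, 4), (0x315286a7, 4), (0x418590a2, 4), (0x527690a8, 4), (0x418590a2, 4), (0x436572a8, 4), (0x527690a8, 4), (0x315286a7, 4)]⟩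

def c_5093 : frmChk tA tB F_5093 = true := by decide +kernel

def r_5093_0 : chkL rootF engF2 tA tB sA_437 sB_437 4 F_5093 [(511, 0, 0)]
    0x11a4781a513 = true := by
  decide +kernel

theorem f_5093 (h : TabsF) : FrameF repsF 437 F_5093.f :=
  frame_of rfl c_5093 (runs_of engOK r_5093_0) (by decide +kernel) h.1 h.2

def F_5094 : FrX :=
  ⟨0x2002000900044004000e02041000141000800040808000208120000110012108200020204040009008080080a0140080022420204008080004208000c040,
    0xa3, 1, 0x3154768092a3, 6,
    [(0xa3, 1), (0x208693a5, 4), (0x10548793, 4), (0x217693a4, 4), (0x208693a5, 4), (0x10548793, 4)],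
    [(0x3154768092a3, 6), (0x217098a4, 4), (0x21546083, 4), (0x217693a5, 4), (0x217098a4, 4), (0x21546083, 4)]⟩

def c_5094 : frmChk tA tA F_5094 = true := by decide +kernel

def r_5094_0 : chkL rootF engF2 tA tA sA_437 sA_437 4 F_5094 [(511, 0, 0)]
    0x1 = true := by
  decide +kernel

theorem f_5094 (h : TabsF) : FrameF repsF 437 F_5094.f :=
  frame_of rfl c_5094 (runs_of engOK r_5094_0) (by decide +kernel) h.1 h.1

def F_5095 : FrX :=
  ⟨0x80080a000804040e000021010020010000020408900080081080080084101010410004100000842020100400b040100204410802001000c0008200a0010,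
    0xa6, 1, 0x324353718691a0, 7,
    [(0xa6, 1), (0x205396a8, 4), (0x10548796, 4), (0x214396a7, 4), (0x205396a8, 4), (0x10548796, 4)],
    [(0x324353718691a0, 7), (0x547086a3, 4), (0x426170a9, 4), (0x52708193, 4), (0x547086a3, 4), (0x426170a9, 4)]⟩

def c_5095 : frmChk tA tA F_5095 = true := by decide +kernel

def r_5095_0 : chkL rootF engF2 tA tA sA_437 sA_437 4 F_5095 [(511, 0, 0)]
    0x194ad0 = true := by
  decide +kernel

theorem f_5095 (h : TabsF) : FrameF repsF 437 F_5095.f :=
  frame_of rfl c_5095 (runs_of engOK r_5095_0) (by decide +kernel) h.1 h.1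

def F_5096 : FrX :=
  ⟨0x80080a000804040e00002101002001000002040880880800204022400220008000404060008008008084800801600800242000022002502100202040080,
    0xa6, 1, 0x2052738091a0, 6,
    [(0xa6, 1), (0x205396a8, 4), (0x10548796, 4), (0x214396a7, 4), (0x205396a8, 4), (0x10548796, 4)],
    [(0x2052738091a0, 6), (0x304276a5, 4), (0x406381a9, 4), (0x30647281, 4), (0x406381a9, 4), (0x20647395, 4), (0x627481a5, 4), (0x30647281, 4), (0x627481a5, 4), (0x436072a9, 4), (0x30647281, 4), (0x20647395, 4)]⟩

def c_5096 : frmChk tA tB F_5096 = true := by decide +kernel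

def r_5096_0 : chkL rootF engF2 tA tB sA_437 sB_437 4 F_5096 [(511, 0, 0)]
    0x1 = true := by
  decide +kernel

theorem f_5096 (h : TabsF) : FrameF repsF 437 F_5096.f :=
  frame_of rfl c_5096 (runs_of engOK r_5096_0) (by decide +kernel) h.1 h.2

def F_5097 : FrX :=
  ⟨0x1c21020000040440000020410001010000820408900800800008024002004040204040410040208102401108180104001080800060202a0040020200080,
    0x0, 0, 0x21437684, 4,
    [(0x0, 0), (0x205386a9, 4), (0x105487a9, 4), (0x214376a9, 4), (0x205386a9, 4), (0x105487a9, 4)],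
    [(0x21437684, 4), (0x10657483, 4), (0x207685a9, 4), (0x436587a9, 4), (0x207685a9, 4), (0x21536487, 4), (0x107384a9, 4), (0x436587a9, 4), (0x107384a9, 4), (0x20437586, 4), (0x436587a9, 4), (0x21536487, 4)]⟩

def c_5097 : frmChk tA tB F_5097 = true := by decide +kernel

def r_5097_0 : chkL rootF engF2 tA tB sA_437 sB_437 4 F_5097 [(511, 0, 0)]
    0x42e = true := by
  decide +kernel

theorem f_5097 (h : TabsF) : FrameF repsF 437 F_5097.f :=
  frame_of rfl c_5097 (runs_of engOK r_5097_0) (by decide +kernel) h.1 h.2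

def F_5098 : FrX :=
  ⟨0x2002000900044004000e02041000141000800040800801014038000008000182100204004024000410800202000040000300801030030320004041010280,
    0xa3, 1, 0x4051628397a3, 6,
    [(0xa3, 1), (0x208693a5, 4), (0x10548793, 4), (0x217693a4, 4), (0x208693a5, 4), (0x10548793, 4)],
    [(0x4051628397a3, 6), (0x326487a1, 4), (0x10548793, 4), (0x658792a0, 4), (0x326487a1, 4), (0x10548793, 4)]⟩

def c_5098 : frmChk tA tA F_5098 = true := by decide +kernel

def r_5098_0 : chkL rootF engF2 tA tA sA_437 sA_437 4 F_5098 [(511, 0, 0)]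
    0x1 = true := by
  decide +kernel

theorem f_5098 (h : TabsF) : FrameF repsF 437 F_5098.f :=
  frame_of rfl c_5098 (runs_of engOK r_5098_0) (by decide +kernel) h.1 h.1

def F_5099 : FrX :=
  ⟨0x80080a000804040e00002101002001000002040890020001408010808240004020011001004021008008000808060004a04041004040920040080840080,
    0xa6, 1, 0x304151657296a8, 7,
    [(0xa6, 1), (0x205396a8, 4), (0x10548796, 4), (0x214396a7, 4), (0x205396a8, 4), (0x10548796, 4)],
    [(0x304151657296a8, 7), (0x627390a1, 4), (0x53618492, 4), (0x628491a0, 4), (0x53618492, 4), (0x207591a6, 4), (0x107384a9, 4), (0x628491a0, 4), (0x107384a9, 4), (0x215396a0, 4), (0x628491a0, 4), (0x207591a6, 4)]⟩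

def c_5099 : frmChk tA tB F_5099 = true := by decide +kernel

def r_5099_0 : chkL rootF engF2 tA tB sA_437 sB_437 4 F_5099 [(511, 0, 0)]
    0x1 = true := by
  decide +kernel

theorem f_5099 (h : TabsF) : FrameF repsF 437 F_5099.f :=
  frame_of rfl c_5099 (runs_of engOK r_5099_0) (by decide +kernel) h.1 h.2

def F_5100 : FrX :=
  ⟨0x1001040012008080000e00840800410008101000040820081008400022000030048048025000208008004804801000200004945000004440014002000084,
    0xa3, 1, 0x4253708196a3, 6,
    [(0xa3, 1), (0x207584a6, 4), (0x10547693, 4), (0x647593a8, 4), (0x10547693, 4), (0x216485a7, 4), (0x208693a4, 4), (0x647593a8, 4), (0x208693a4, 4), (0x106574a8, 4), (0x647593a8, 4), (0x216485a7, 4)],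
    [(0x4253708196a3, 6), (0x213074a9, 4), (0x32658790, 4), (0x306592a1, 4), (0x32658790, 4), (0x318492a0, 4), (0x657491a2, 4), (0x306592a1, 4), (0x657491a2, 4), (0x208793a1, 4), (0x306592a1, 4), (0x318492a0, 4)]⟩

def c_5100 : frmChk tB tB F_5100 = true := by decide +kernel

def r_5100_0 : chkL rootF engF2 tB tB sB_437 sB_437 4 F_5100 [(511, 0, 0)]
    0x1 = true := by
  decide +kernel

theorem f_5100 (h : TabsF) : FrameF repsF 437 F_5100.f :=
  frame_of rfl c_5100 (runs_of engOK r_5100_0) (by decide +kernel) h.2 h.2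

theorem cl_437 (h : TabsF) : ∀ f ∈ fr_437, FrameF repsF 437 f :=
  List.forall_mem_cons.2 ⟨f_5085 h, List.forall_mem_cons.2 ⟨f_5086 h, List.forall_mem_cons.2 ⟨f_5087 h, List.forall_mem_cons.2 ⟨f_5088 h, List.forall_mem_cons.2 ⟨f_5089 h, List.forall_mem_cons.2 ⟨f_5090 h, List.forall_mem_cons.2 ⟨f_5091 h, List.forall_mem_cons.2 ⟨f_5092 h, List.forall_mem_cons.2 ⟨f_5093 h, List.forall_mem_cons.2 ⟨f_5094 h, List.forall_mem_cons.2 ⟨f_5095 h, List.forall_mem_cons.2 ⟨f_5096 h, List.forall_mem_cons.2 ⟨f_5097 h, List.forall_mem_cons.2 ⟨f_5098 h, List.forall_mem_cons.2 ⟨f_5099 h, List.forall_mem_cons.2 ⟨f_5100 h,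
    fun _ h0 => absurd h0 List.not_mem_nil⟩⟩⟩⟩⟩⟩⟩⟩⟩⟩⟩⟩⟩⟩⟩⟩

def F_5101 : FrX :=
  ⟨0x482000044040440000c2040020009000182040001042020000900200080081010202060008004020a0003040840014010008020a108080002008800840,
    0xa0, 1, 0x203061708496a3, 7,
    [(0xa0, 1), (0x538690a2, 4), (0x548790a1, 4), (0x21437690, 4), (0x538690a2, 4), (0x548790a1, 4)],
    [(0x203061708496a3, 7), (0x217094a5, 4), (0x21437685, 4), (0x216093a8, 4), (0x217094a5, 4), (0x21437685, 4)]⟩

def c_5101 : frmChk tA tA F_5101 = true := by decide +kernel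

def r_5101_0 : chkL rootF engF2 tA tA sA_438 sA_438 4 F_5101 [(511, 0, 0)]
    0x54a = true := by
  decide +kernel

theorem f_5101 (h : TabsF) : FrameF repsF 438 F_5101.f :=
  frame_of rfl c_5101 (runs_of engOK r_5101_0) (by decide +kernel) h.1 h.1

def F_5102 : FrX :=
  ⟨0x80080a000804040e00002101002001000002040880421002020004800080202008080841400080122011000102040408004608000410200202040080410,
    0xa6, 1, 0x103241546293a5, 7,
    [(0xa6, 1), (0x205396a8, 4), (0x10548796, 4), (0x214396a7, 4), (0x205396a8, 4), (0x10548796, 4)],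
    [(0x103241546293a5, 7), (0x206183a9, 4), (0x204187a5, 4), (0x20647395, 4), (0x206183a9, 4), (0x204187a5, 4)]⟩

def c_5102 : frmChk tA tA F_5102 = true := by decide +kernel

def r_5102_0 : chkL rootF engF2 tA tA sA_438 sA_438 4 F_5102 [(511, 0, 0)]
    0x1 = true := by
  decide +kernel

theorem f_5102 (h : TabsF) : FrameF repsF 438 F_5102.f :=
  frame_of rfl c_5102 (runs_of engOK r_5102_0) (by decide +kernel) h.1 h.1

def F_5103 : FrX :=
  ⟨0x80080a000804040e000021010020010000020408a0000208100090020242002040020400400541020029000800101140002002000401008001a00408050,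
    0xa6, 1, 0x203241507196a4, 7,
    [(0xa6, 1), (0x205396a8, 4), (0x10548796, 4), (0x214396a7, 4), (0x205396a8, 4), (0x10548796, 4)],
    [(0x203241507196a4, 7), (0x425390a8, 4), (0x617594a2, 4), (0x426180a9, 4), (0x617594a2, 4), (0x407382a9, 4), (0x536198a0, 4), (0x426180a9, 4), (0x536198a0, 4), (0x758092a4, 4), (0x426180a9, 4), (0x407382a9, 4)]⟩

def c_5103 : frmChk tA tB F_5103 = true := by decide +kernel

def r_5103_0 : chkL rootF engF2 tA tB sA_438 sB_438 4 F_5103 [(511, 0, 0)]
    0x1 = true := by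
  decide +kernel

theorem f_5103 (h : TabsF) : FrameF repsF 438 F_5103.f :=
  frame_of rfl c_5103 (runs_of engOK r_5103_0) (by decide +kernel) h.1 h.2

def F_5104 : FrX :=
  ⟨0x2002000900044004000e0204100014100080004080080108181020000820210100004400102208040c000201000048008040020010a00000804821408280,
    0xa3, 1, 0x20415261a3, 5,
    [(0xa3, 1), (0x208693a5, 4), (0x10548793, 4), (0x217693a4, 4), (0x208693a5, 4), (0x10548793, 4)],
    [(0x20415261a3, 5), (0x528493a0, 4), (0x10628793, 4), (0x657493a1, 4), (0x528493a0, 4), (0x10628793, 4)]⟩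

def c_5104 : frmChk tA tA F_5104 = true := by decide +kernel

def r_5104_0 : chkL rootF engF2 tA tA sA_438 sA_438 4 F_5104 [(511, 0, 0)]
    0x1 = true := by
  decide +kernel

theorem f_5104 (h : TabsF) : FrameF repsF 438 F_5104.f :=
  frame_of rfl c_5104 (runs_of engOK r_5104_0) (by decide +kernel) h.1 h.1

def F_5105 : FrX :=
  ⟨0x2002000900044004000e02041000141000800040800802080088024002000420040013020008500024020030880000101100800040408808000824084001,
    0xa3, 1, 0x20304151637094a2, 8,
    [(0xa3, 1), (0x208693a5, 4), (0x10548793, 4), (0x217693a4, 4), (0x208693a5, 4), (0x10548793, 4)],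
    [(0x20304151637094a2, 8), (0x106482a7, 4), (0x10758394, 4), (0x103296a5, 4), (0x106482a7, 4), (0x10758394, 4)]⟩

def c_5105 : frmChk tA tA F_5105 = true := by decide +kernel

def r_5105_0 : chkL rootF engF2 tA tA sA_438 sA_438 4 F_5105 [(511, 0, 0)]
    0x1 = true := by
  decide +kernel

theorem f_5105 (h : TabsF) : FrameF repsF 438 F_5105.f :=
  frame_of rfl c_5105 (runs_of engOK r_5105_0) (by decide +kernel) h.1 h.1

def F_5106 : FrX :=
  ⟨0x80080a000804040e00002101002001000002040880421002020004800080202500080041082041008008081002040408100040011000600900804800300,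
    0xa6, 1, 0x4153738796a1, 6,
    [(0xa6, 1), (0x205396a8, 4), (0x10548796, 4), (0x214396a7, 4), (0x205396a8, 4), (0x10548796, 4)],
    [(0x4153738796a1, 6), (0x20647395, 4), (0x316485a0, 4), (0x647198a2, 4), (0x20647395, 4), (0x316485a0, 4)]⟩

def c_5106 : frmChk tA tA F_5106 = true := by decide +kernel

def r_5106_0 : chkL rootF engF2 tA tA sA_438 sA_438 4 F_5106 [(511, 0, 0)]
    0x1 = true := by
  decide +kernel

theorem f_5106 (h : TabsF) : FrameF repsF 438 F_5106.f :=
  frame_of rfl c_5106 (runs_of engOK r_5106_0) (by decide +kernel) h.1 h.1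

def F_5107 : FrX :=
  ⟨0x2002000900044004000e02041000141000800040801001021010200060204041000201001028000422100202080048008040008080600000204020128404,
    0xa3, 1, 0x54728293a2, 5,
    [(0xa3, 1), (0x208693a5, 4), (0x10548793, 4), (0x217693a4, 4), (0x208693a5, 4), (0x10548793, 4)],
    [(0x54728293a2, 5), (0x427596a0, 4), (0x10546283, 4), (0x42658397, 4), (0x10546283, 4), (0x657492a1, 4), (0x768395a0, 4), (0x42658397, 4), (0x768395a0, 4), (0x10526497, 4), (0x42658397, 4), (0x657492a1, 4)]⟩

def c_5107 : frmChk tA tB F_5107 = true := by decide +kernel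

def r_5107_0 : chkL rootF engF2 tA tB sA_438 sB_438 4 F_5107 [(511, 0, 0)]
    0x1 = true := by
  decide +kernel

theorem f_5107 (h : TabsF) : FrameF repsF 438 F_5107.f :=
  frame_of rfl c_5107 (runs_of engOK r_5107_0) (by decide +kernel) h.1 h.2

def F_5108 : FrX :=
  ⟨0x482000044040440000c2040020009000182040010008100301000180024008208010002001040211000420202001420048008000600a0000a002000450,
    0xa0, 1, 0x1030657286a1, 6,
    [(0xa0, 1), (0x538690a2, 4), (0x548790a1, 4), (0x21437690, 4), (0x538690a2, 4), (0x548790a1, 4)],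
    [(0x1030657286a1, 6), (0x61738590, 4), (0x526490a3, 4), (0x418290a7, 4), (0x61738590, 4), (0x526490a3, 4)]⟩

def c_5108 : frmChk tA tA F_5108 = true := by decide +kernel

def r_5108_0 : chkL rootF engF2 tA tA sA_438 sA_438 4 F_5108 [(511, 0, 0)]
    0x1 = true := by
  decide +kernel

theorem f_5108 (h : TabsF) : FrameF repsF 438 F_5108.f :=
  frame_of rfl c_5108 (runs_of engOK r_5108_0) (by decide +kernel) h.1 h.1

def F_5109 : FrX :=
  ⟨0x2002000900044004000e02041000141000800040800401042010200010202101000102100841080414000102008048008220090840200000404040210200,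
    0xa3, 1, 0x2042718793a4, 6,
    [(0xa3, 1), (0x208693a5, 4), (0x10548793, 4), (0x217693a4, 4), (0x208693a5, 4), (0x10548793, 4)],
    [(0x2042718793a4, 6), (0x428596a1, 4), (0x307286a5, 4), (0x308591a6, 4), (0x307286a5, 4), (0x517498a6, 4), (0x304261a9, 4), (0x308591a6, 4), (0x304261a9, 4), (0x657291a8, 4), (0x308591a6, 4), (0x517498a6, 4)]⟩

def c_5109 : frmChk tA tB F_5109 = true := by decide +kernel

def r_5109_0 : chkL rootF engF2 tA tB sA_438 sB_438 4 F_5109 [(511, 0, 0)]
    0x1 = true := by
  decide +kernel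

theorem f_5109 (h : TabsF) : FrameF repsF 438 F_5109.f :=
  frame_of rfl c_5109 (runs_of engOK r_5109_0) (by decide +kernel) h.1 h.2

def F_5110 : FrX :=
  ⟨0x80080a000804040e00002101002001000002040880411004020004800080282008080402400040111000820600040420201108001005000440222000010,
    0xa6, 1, 0x3054637491a4, 6,
    [(0xa6, 1), (0x205396a8, 4), (0x10548796, 4), (0x214396a7, 4), (0x205396a8, 4), (0x10548796, 4)],
    [(0x3054637491a4, 6), (0x32647180, 4), (0x718593a4, 4), (0x507192a6, 4), (0x32647180, 4), (0x718593a4, 4)]⟩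

def c_5110 : frmChk tA tA F_5110 = true := by decide +kernel

def r_5110_0 : chkL rootF engF2 tA tA sA_438 sA_438 4 F_5110 [(511, 0, 0)]
    0x1 = true := by
  decide +kernel

theorem f_5110 (h : TabsF) : FrameF repsF 438 F_5110.f :=
  frame_of rfl c_5110 (runs_of engOK r_5110_0) (by decide +kernel) h.1 h.1

def F_5111 : FrX :=
  ⟨0x2002000900044004000e02041000141000800040800801048210200008200c010001010020280002111004004000480202400080222002004800200a4040,
    0xa3, 1, 0x102140617483a8, 7,
    [(0xa3, 1), (0x208693a5, 4), (0x10548793, 4), (0x217693a4, 4), (0x208693a5, 4), (0x10548793, 4)],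
    [(0x102140617483a8, 7), (0x408593a2, 4), (0x647593a1, 4), (0x21608793, 4), (0x408593a2, 4), (0x647593a1, 4)]⟩

def c_5111 : frmChk tA tA F_5111 = true := by decide +kernel

def r_5111_0 : chkL rootF engF2 tA tA sA_438 sA_438 4 F_5111 [(511, 0, 0)]
    0x1 = true := by
  decide +kernel

theorem f_5111 (h : TabsF) : FrameF repsF 438 F_5111.f :=
  frame_of rfl c_5111 (runs_of engOK r_5111_0) (by decide +kernel) h.1 h.1

def F_5112 : FrX :=
  ⟨0x482000044040440000c204002000900018204000220010010808000481004120020200108100002080048409400140004800800a200200101020020402,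
    0xa0, 1, 0x314062708592a0, 7,
    [(0xa0, 1), (0x538690a2, 4), (0x548790a1, 4), (0x21437690, 4), (0x538690a2, 4), (0x548790a1, 4)],
    [(0x314062708592a0, 7), (0x527681a9, 4), (0x547680a3, 4), (0x10427693, 4), (0x527681a9, 4), (0x547680a3, 4)]⟩

def c_5112 : frmChk tA tA F_5112 = true := by decide +kernel

def r_5112_0 : chkL rootF engF2 tA tA sA_438 sA_438 4 F_5112 [(511, 0, 0)]
    0x1 = true := by
  decide +kernel

theorem f_5112 (h : TabsF) : FrameF repsF 438 F_5112.f :=
  frame_of rfl c_5112 (runs_of engOK r_5112_0) (by decide +kernel) h.1 h.1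

def F_5113 : FrX :=
  ⟨0x80080a000804040e00002101002001000002040880821001020002808080204004081000881021010010400204040408212010002000600500020420200,
    0xa6, 1, 0x1052648191a0, 6,
    [(0xa6, 1), (0x205396a8, 4), (0x10548796, 4), (0x214396a7, 4), (0x205396a8, 4), (0x10548796, 4)],
    [(0x1052648191a0, 6), (0x436072a5, 4), (0x627481a9, 4), (0x30647281, 4), (0x627481a9, 4), (0x20647395, 4), (0x406381a5, 4), (0x30647281, 4), (0x406381a5, 4), (0x304276a9, 4), (0x30647281, 4), (0x20647395, 4)]⟩

def c_5113 : frmChk tA tB F_5113 = true := by decide +kernel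

def r_5113_0 : chkL rootF engF2 tA tB sA_438 sB_438 4 F_5113 [(511, 0, 0)]
    0x1 = true := by
  decide +kernel

theorem f_5113 (h : TabsF) : FrameF repsF 438 F_5113.f :=
  frame_of rfl c_5113 (runs_of engOK r_5113_0) (by decide +kernel) h.1 h.2

def F_5114 : FrX :=
  ⟨0x80080a000804040e00002101002001000002040881200002204400100080080c0412000102800000a004180804050100200110041000904040110000210,
    0xa6, 1, 0x3140637693a0, 6,
    [(0xa6, 1), (0x205396a8, 4), (0x10548796, 4), (0x214396a7, 4), (0x205396a8, 4), (0x10548796, 4)],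
    [(0x3140637693a0, 6), (0x518097a2, 4), (0x506471a3, 4), (0x51647098, 4), (0x506471a3, 4), (0x32708591, 4), (0x648790a2, 4), (0x51647098, 4), (0x648790a2, 4), (0x107598a3, 4), (0x51647098, 4), (0x32708591, 4)]⟩

def c_5114 : frmChk tA tB F_5114 = true := by decide +kernel

def r_5114_0 : chkL rootF engF2 tA tB sA_438 sB_438 4 F_5114 [(511, 0, 0)]
    0x1 = true := by
  decide +kernel

theorem f_5114 (h : TabsF) : FrameF repsF 438 F_5114.f :=
  frame_of rfl c_5114 (runs_of engOK r_5114_0) (by decide +kernel) h.1 h.2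

def F_5115 : FrX :=
  ⟨0x2002000900044004000e02041000141000800040808000202820000208020a0280008100108002080a000200a02040140281010002200200002005012200,
    0xa3, 1, 0x4053768091a8, 6,
    [(0xa3, 1), (0x208693a5, 4), (0x10548793, 4), (0x217693a4, 4), (0x208693a5, 4), (0x10548793, 4)],
    [(0x4053768091a8, 6), (0x415382a7, 4), (0x304198a6, 4), (0x41507692, 4), (0x415382a7, 4), (0x304198a6, 4)]⟩

def c_5115 : frmChk tA tA F_5115 = true := by decide +kernel

def r_5115_0 : chkL rootF engF2 tA tA sA_438 sA_438 4 F_5115 [(511, 0, 0)]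
    0x1 = true := by
  decide +kernel

theorem f_5115 (h : TabsF) : FrameF repsF 438 F_5115.f :=
  frame_of rfl c_5115 (runs_of engOK r_5115_0) (by decide +kernel) h.1 h.1

def F_5116 : FrX :=
  ⟨0x482000044040440000c20400200090001820400200010111000802200140500042000000220804800202002080a000a008010800408604000024000218,
    0xa0, 1, 0x324152657484a0, 7,
    [(0xa0, 1), (0x538690a2, 4), (0x548790a1, 4), (0x21437690, 4), (0x538690a2, 4), (0x548790a1, 4)],
    [(0x324152657484a0, 7), (0x627390a5, 4), (0x718690a4, 4), (0x31548290, 4), (0x627390a5, 4), (0x718690a4, 4)]⟩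

def c_5116 : frmChk tA tA F_5116 = true := by decide +kernel

def r_5116_0 : chkL rootF engF2 tA tA sA_438 sA_438 4 F_5116 [(511, 0, 0)]
    0x1 = true := by
  decide +kernel

theorem f_5116 (h : TabsF) : FrameF repsF 438 F_5116.f :=
  frame_of rfl c_5116 (runs_of engOK r_5116_0) (by decide +kernel) h.1 h.1

def F_5117 : FrX :=
  ⟨0x80080a000804040e0000210100200100000204088041080800840002882000000450102000208000a004240480040400201110040240100044011000280,
    0xa6, 1, 0x203154648392a3, 7,
    [(0xa6, 1), (0x205396a8, 4), (0x10548796, 4), (0x214396a7, 4), (0x205396a8, 4), (0x10548796, 4)],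
    [(0x203154648392a3, 7), (0x518092a4, 4), (0x32647180, 4), (0x758093a6, 4), (0x518092a4, 4), (0x32647180, 4)]⟩

def c_5117 : frmChk tA tA F_5117 = true := by decide +kernel

def r_5117_0 : chkL rootF engF2 tA tA sA_438 sA_438 4 F_5117 [(511, 0, 0)]
    0x1 = true := by
  decide +kernel

theorem f_5117 (h : TabsF) : FrameF repsF 438 F_5117.f :=
  frame_of rfl c_5117 (runs_of engOK r_5117_0) (by decide +kernel) h.1 h.1

def F_5118 : FrX :=
  ⟨0x80080a000804040e00002101002001000002040882200004048084008040081040802010020010004242220600002001100001084003020200041008090,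
    0xa6, 1, 0x2031516098a6, 6,
    [(0xa6, 1), (0x205396a8, 4), (0x10548796, 4), (0x214396a7, 4), (0x205396a8, 4), (0x10548796, 4)],
    [(0x2031516098a6, 6), (0x607394a1, 4), (0x436582a7, 4), (0x738291a4, 4), (0x436582a7, 4), (0x507193a4, 4), (0x416082a9, 4), (0x738291a4, 4), (0x416082a9, 4), (0x657491a3, 4), (0x738291a4, 4), (0x507193a4, 4)]⟩

def c_5118 : frmChk tA tB F_5118 = true := by decide +kernel

def r_5118_0 : chkL rootF engF2 tA tB sA_438 sB_438 4 F_5118 [(511, 0, 0)]
    0x1 = true := by
  decide +kernel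

theorem f_5118 (h : TabsF) : FrameF repsF 438 F_5118.f :=
  frame_of rfl c_5118 (runs_of engOK r_5118_0) (by decide +kernel) h.1 h.2

def F_5119 : FrX :=
  ⟨0x600020801080810000c00401804101010010040101018020000048041022020004001008004402004109000c0038000800088800000040408040210049,
    0xa0, 1, 0x1021325380a6, 6,
    [(0xa0, 1), (0x637584a2, 4), (0x547690a1, 4), (0x64758390, 4), (0x547690a1, 4), (0x21647385, 4), (0x438690a2, 4), (0x64758390, 4), (0x438690a2, 4), (0x657483a1, 4), (0x64758390, 4), (0x21647385, 4)],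
    [(0x1021325380a6, 6), (0x508396a1, 4), (0x40718296, 4), (0x325496a7, 4), (0x508396a1, 4), (0x40718296, 4)]⟩

def c_5119 : frmChk tB tA F_5119 = true := by decide +kernel

def r_5119_0 : chkL rootF engF2 tB tA sB_438 sA_438 4 F_5119 [(511, 0, 0)]
    0x1 = true := by
  decide +kernel

theorem f_5119 (h : TabsF) : FrameF repsF 438 F_5119.f :=
  frame_of rfl c_5119 (runs_of engOK r_5119_0) (by decide +kernel) h.2 h.1

def F_5120 : FrX :=
  ⟨0x600020801080810000c004018041010100100401010000e000010048200c04020010002000220100210010e00038000200080c28000040420021080001,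
    0xa0, 1, 0x304353647483a5, 7,
    [(0xa0, 1), (0x637584a2, 4), (0x547690a1, 4), (0x64758390, 4), (0x547690a1, 4), (0x21647385, 4), (0x438690a2, 4), (0x64758390, 4), (0x438690a2, 4), (0x657483a1, 4), (0x64758390, 4), (0x21647385, 4)],
    [(0x304353647483a5, 7), (0x325094a8, 4), (0x316594a7, 4), (0x21608794, 4), (0x325094a8, 4), (0x316594a7, 4)]⟩

def c_5120 : frmChk tB tA F_5120 = true := by decide +kernel

def r_5120_0 : chkL rootF engF2 tB tA sB_438 sA_438 4 F_5120 [(511, 0, 0)]
    0x1 = true := by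
  decide +kernel

theorem f_5120 (h : TabsF) : FrameF repsF 438 F_5120.f :=
  frame_of rfl c_5120 (runs_of engOK r_5120_0) (by decide +kernel) h.2 h.1

def F_5121 : FrX :=
  ⟨0x1001040012008080000e00840800410008101000040420028001110000180010010200890102402040020208440010004040200807000800460003002000,
    0xa3, 1, 0x415061728098a6, 7,
    [(0xa3, 1), (0x207584a6, 4), (0x10547693, 4), (0x647593a8, 4), (0x10547693, 4), (0x216485a7, 4), (0x208693a4, 4), (0x647593a8, 4), (0x208693a4, 4), (0x106574a8, 4), (0x647593a8, 4), (0x216485a7, 4)],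
    [(0x415061728098a6, 7), (0x305487a9, 4), (0x10548692, 4), (0x315476a2, 4), (0x305487a9, 4), (0x10548692, 4)]⟩

def c_5121 : frmChk tB tA F_5121 = true := by decide +kernel

def r_5121_0 : chkL rootF engF2 tB tA sB_438 sA_438 4 F_5121 [(511, 0, 0)]
    0x1 = true := by
  decide +kernel

theorem f_5121 (h : TabsF) : FrameF repsF 438 F_5121.f :=
  frame_of rfl c_5121 (runs_of engOK r_5121_0) (by decide +kernel) h.2 h.1

def F_5122 : FrX :=
  ⟨0x1001040012008080000e00840800410008101000040410084020010040080050084042004200011020802808400400414040200108020800105000202080,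
    0xa3, 1, 0x21325060718294a6, 8,
    [(0xa3, 1), (0x207584a6, 4), (0x10547693, 4), (0x647593a8, 4), (0x10547693, 4), (0x216485a7, 4), (0x208693a4, 4), (0x647593a8, 4), (0x208693a4, 4), (0x106574a8, 4), (0x647593a8, 4), (0x216485a7, 4)],
    [(0x21325060718294a6, 8), (0x208693a1, 4), (0x547690a2, 4), (0x203154a9, 4), (0x547690a2, 4), (0x213087a9, 4), (0x548691a3, 4), (0x203154a9, 4), (0x548691a3, 4), (0x317692a0, 4), (0x203154a9, 4), (0x213087a9, 4)]⟩

def c_5122 : frmChk tB tB F_5122 = true := by decide +kernel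

def r_5122_0 : chkL rootF engF2 tB tB sB_438 sB_438 4 F_5122 [(511, 0, 0)]
    0x1 = true := by
  decide +kernel

theorem f_5122 (h : TabsF) : FrameF repsF 438 F_5122.f :=
  frame_of rfl c_5122 (runs_of engOK r_5122_0) (by decide +kernel) h.2 h.2

def F_5123 : FrX :=
  ⟨0x482000044040440000c2040020009000182040000842040000880800080081040100510020080802020010494010002080008208440104040200810010,
    0xa0, 1, 0x105162748398a0, 7,
    [(0xa0, 1), (0x538690a2, 4), (0x548790a1, 4), (0x21437690, 4), (0x538690a2, 4), (0x548790a1, 4)],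
    [(0x105162748398a0, 7), (0x318092a6, 4), (0x317094a5, 4), (0x31426587, 4), (0x318092a6, 4), (0x317094a5, 4)]⟩

def c_5123 : frmChk tA tA F_5123 = true := by decide +kernel

def r_5123_0 : chkL rootF engF2 tA tA sA_438 sA_438 4 F_5123 [(511, 0, 0)]
    0x1 = true := by
  decide +kernel

theorem f_5123 (h : TabsF) : FrameF repsF 438 F_5123.f :=
  frame_of rfl c_5123 (runs_of engOK r_5123_0) (by decide +kernel) h.1 h.1

def F_5124 : FrX :=
  ⟨0x482000044040440000c2040020009000182040020003440000080804040881000800100022080480020000083090082080008408040400500200808300,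
    0xa0, 1, 0x213140546583a5, 7,
    [(0xa0, 1), (0x538690a2, 4), (0x548790a1, 4), (0x21437690, 4), (0x538690a2, 4), (0x548790a1, 4)],
    [(0x213140546583a5, 7), (0x204196a8, 4), (0x437296a5, 4), (0x31708596, 4), (0x204196a8, 4), (0x437296a5, 4)]⟩

def c_5124 : frmChk tA tA F_5124 = true := by decide +kernel

def r_5124_0 : chkL rootF engF2 tA tA sA_438 sA_438 4 F_5124 [(511, 0, 0)]
    0x1 = true := by
  decide +kernel

theorem f_5124 (h : TabsF) : FrameF repsF 438 F_5124.f :=
  frame_of rfl c_5124 (runs_of engOK r_5124_0) (by decide +kernel) h.1 h.1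

def F_5125 : FrX :=
  ⟨0x80080a000804040e0000210100200100000204088220000209008010000408204508000802240002002882040020200110000204040300a010004200208,
    0xa6, 1, 0x21324151748398a6, 8,
    [(0xa6, 1), (0x205396a8, 4), (0x10548796, 4), (0x214396a7, 4), (0x205396a8, 4), (0x10548796, 4)],
    [(0x21324151748398a6, 8), (0x304297a8, 4), (0x506174a2, 4), (0x426198a7, 4), (0x506174a2, 4), (0x538294a7, 4), (0x306187a9, 4), (0x426198a7, 4), (0x306187a9, 4), (0x507298a4, 4), (0x426198a7, 4), (0x538294a7, 4)]⟩

def c_5125 : frmChk tA tB F_5125 = true := by decide +kernel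

def r_5125_0 : chkL rootF engF2 tA tB sA_438 sB_438 4 F_5125 [(511, 0, 0)]
    0x1 = true := by
  decide +kernel

theorem f_5125 (h : TabsF) : FrameF repsF 438 F_5125.f :=
  frame_of rfl c_5125 (runs_of engOK r_5125_0) (by decide +kernel) h.1 h.2

def F_5126 : FrX :=
  ⟨0x80080a000804040e0000210100200100000204089002000805000080880100101110202008202008180840002020000a1000420100c2001100800820200,
    0xa6, 1, 0x10305264728290a6, 8,
    [(0xa6, 1), (0x205396a8, 4), (0x10548796, 4), (0x214396a7, 4), (0x205396a8, 4), (0x10548796, 4)],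
    [(0x10305264728290a6, 8), (0x214398a7, 4), (0x43627590, 4), (0x436180a5, 4), (0x214398a7, 4), (0x43627590, 4)]⟩

def c_5126 : frmChk tA tA F_5126 = true := by decide +kernel

def r_5126_0 : chkL rootF engF2 tA tA sA_438 sA_438 4 F_5126 [(511, 0, 0)]
    0x493 = true := by
  decide +kernel

theorem f_5126 (h : TabsF) : FrameF repsF 438 F_5126.f :=
  frame_of rfl c_5126 (runs_of engOK r_5126_0) (by decide +kernel) h.1 h.1

def F_5127 : FrX :=
  ⟨0x2002000900044004000e0204100014100080004080040208010120400080a0021000041041020804818000040280200080000a0010804006040a10040200,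
    0xa3, 1, 0x103242628092a6, 7,
    [(0xa3, 1), (0x208693a5, 4), (0x10548793, 4), (0x217693a4, 4), (0x208693a5, 4), (0x10548793, 4)],
    [(0x103242628092a6, 7), (0x317598a2, 4), (0x536480a7, 4), (0x216475a3, 4), (0x536480a7, 4), (0x517290a3, 4), (0x326498a1, 4), (0x216475a3, 4), (0x326498a1, 4), (0x217380a5, 4), (0x216475a3, 4), (0x517290a3, 4)]⟩

def c_5127 : frmChk tA tB F_5127 = true := by decide +kernel

def r_5127_0 : chkL rootF engF2 tA tB sA_438 sB_438 4 F_5127 [(511, 0, 0)]
    0x1 = true := by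
  decide +kernel

theorem f_5127 (h : TabsF) : FrameF repsF 438 F_5127.f :=
  frame_of rfl c_5127 (runs_of engOK r_5127_0) (by decide +kernel) h.1 h.2

def F_5128 : FrX :=
  ⟨0x1c2102000004044000002041000101000082040888200008000880200002202020600048020198020020440880008100088010000a00201042004080050,
    0x0, 0, 0x21546587, 4,
    [(0x0, 0), (0x205386a9, 4), (0x105487a9, 4), (0x214376a9, 4), (0x205386a9, 4), (0x105487a9, 4)],
    [(0x21546587, 4), (0x10437586, 4), (0x206584a9, 4), (0x547386a9, 4), (0x206584a9, 4), (0x21547683, 4), (0x105374a9, 4), (0x547386a9, 4), (0x105374a9, 4), (0x20647385, 4), (0x547386a9, 4), (0x21547683, 4)]⟩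

def c_5128 : frmChk tA tB F_5128 = true := by decide +kernel

def r_5128_0 : chkL rootF engF2 tA tB sA_438 sB_438 4 F_5128 [(511, 0, 0)]
    0x1 = true := by
  decide +kernel

theorem f_5128 (h : TabsF) : FrameF repsF 438 F_5128.f :=
  frame_of rfl c_5128 (runs_of engOK r_5128_0) (by decide +kernel) h.1 h.2

theorem cl_438 (h : TabsF) : ∀ f ∈ fr_438, FrameF repsF 438 f :=
  List.forall_mem_cons.2 ⟨f_5101 h, List.forall_mem_cons.2 ⟨f_5102 h, List.forall_mem_cons.2 ⟨f_5103 h, List.forall_mem_cons.2 ⟨f_5104 h, List.forall_mem_cons.2 ⟨f_5105 h, List.forall_mem_cons.2 ⟨f_5106 h, List.forall_mem_cons.2 ⟨f_5107 h, List.forall_mem_cons.2 ⟨f_5108 h, List.forall_mem_cons.2 ⟨f_5109 h, List.forall_mem_cons.2 ⟨f_5110 h, List.forall_mem_cons.2 ⟨f_5111 h, List.forall_mem_cons.2 ⟨f_5112 h, List.forall_mem_cons.2 ⟨f_5113 h, List.forall_mem_cons.2 ⟨f_5114 h, List.forall_mem_cons.2 ⟨f_5115 h, List.forall_mem_cons.2 ⟨f_5116 h, List.forall_mem_cons.2 ⟨f_5117 h, List.forall_mem_cons.2 ⟨f_5118 h, List.forall_mem_cons.2 ⟨f_5119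 h, List.forall_mem_cons.2 ⟨f_5120 h, List.forall_mem_cons.2 ⟨f_5121 h, List.forall_mem_cons.2 ⟨f_5122 h, List.forall_mem_cons.2 ⟨f_5123 h, List.forall_mem_cons.2 ⟨f_5124 h, List.forall_mem_cons.2 ⟨f_5125 h, List.forall_mem_cons.2 ⟨f_5126 h, List.forall_mem_cons.2 ⟨f_5127 h, List.forall_mem_cons.2 ⟨f_5128 h,
    fun _ h0 => absurd h0 List.not_mem_nil⟩⟩⟩⟩⟩⟩⟩⟩⟩⟩⟩⟩⟩⟩⟩⟩⟩⟩⟩⟩⟩⟩⟩⟩⟩⟩⟩⟩

def F_5129 : FrX :=
  ⟨0x482000044040440000c2040020009000182040001042020000900200080082008212020008004020a0003040840014015000000a108080002000800860,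
    0xa0, 1, 0x103253627690a3, 7,
    [(0xa0, 1), (0x538690a2, 4), (0x548790a1, 4), (0x21437690, 4), (0x538690a2, 4), (0x548790a1, 4)],
    [(0x103253627690a3, 7), (0x518796a2, 4), (0x42518390, 4), (0x516073a4, 4), (0x518796a2, 4), (0x42518390, 4)]⟩

def c_5129 : frmChk tA tA F_5129 = true := by decide +kernel

def r_5129_0 : chkL rootF engF2 tA tA sA_439 sA_439 4 F_5129 [(511, 0, 0)]
    0x40f = true := by
  decide +kernel

theorem f_5129 (h : TabsF) : FrameF repsF 439 F_5129.f :=
  frame_of rfl c_5129 (runs_of engOK r_5129_0) (by decide +kernel) h.1 h.1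

def F_5130 : FrX :=
  ⟨0x482000044040440000c204002000900018204000110200040810000400018200860400110100040080000510260140004800800a200800700010200001,
    0xa0, 1, 0x3042658791a0, 6,
    [(0xa0, 1), (0x538690a2, 4), (0x548790a1, 4), (0x21437690, 4), (0x538690a2, 4), (0x548790a1, 4)],
    [(0x3042658791a0, 6), (0x316075a4, 4), (0x316287a9, 4), (0x20318594, 4), (0x316075a4, 4), (0x316287a9, 4)]⟩

def c_5130 : frmChk tA tA F_5130 = true := by decide +kernel

def r_5130_0 : chkL rootF engF2 tA tA sA_439 sA_439 4 F_5130 [(511, 0, 0)]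
    0x1 = true := by
  decide +kernel

theorem f_5130 (h : TabsF) : FrameF repsF 439 F_5130.f :=
  frame_of rfl c_5130 (runs_of engOK r_5130_0) (by decide +kernel) h.1 h.1

def F_5131 : FrX :=
  ⟨0x80080a000804040e00002101002001000002040880481000120004800082202008080401400080120011000102c00408004608000410200202040080410,
    0xa6, 1, 0x10435064718491a3, 8,
    [(0xa6, 1), (0x205396a8, 4), (0x10548796, 4), (0x214396a7, 4), (0x205396a8, 4), (0x10548796, 4)],
    [(0x10435064718491a3, 8), (0x526374a1, 4), (0x60748195, 4), (0x307492a8, 4), (0x526374a1, 4), (0x60748195, 4)]⟩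

def c_5131 : frmChk tA tA F_5131 = true := by decide +kernel

def r_5131_0 : chkL rootF engF2 tA tA sA_439 sA_439 4 F_5131 [(511, 0, 0)]
    0x436 = true := by
  decide +kernel

theorem f_5131 (h : TabsF) : FrameF repsF 439 F_5131.f :=
  frame_of rfl c_5131 (runs_of engOK r_5131_0) (by decide +kernel) h.1 h.1

def F_5132 : FrX :=
  ⟨0x80080a000804040e000021010020010000020408a0000208100090020842202000020400400541020029000800101140002002000400208002200430050,
    0xa6, 1, 0x105261758598a3, 7,
    [(0xa6, 1), (0x205396a8, 4), (0x10548796, 4), (0x214396a7, 4), (0x205396a8, 4), (0x10548796, 4)],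
    [(0x105261758598a3, 7), (0x518294a0, 4), (0x20617384, 4), (0x407382a9, 4), (0x20617384, 4), (0x406598a2, 4), (0x517390a4, 4), (0x407382a9, 4), (0x517390a4, 4), (0x426180a9, 4), (0x407382a9, 4), (0x406598a2, 4)]⟩

def c_5132 : frmChk tA tB F_5132 = true := by decide +kernel

def r_5132_0 : chkL rootF engF2 tA tB sA_439 sB_439 4 F_5132 [(511, 0, 0)]
    0x1 = true := by
  decide +kernel

theorem f_5132 (h : TabsF) : FrameF repsF 439 F_5132.f :=
  frame_of rfl c_5132 (runs_of engOK r_5132_0) (by decide +kernel) h.1 h.2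

def F_5133 : FrX :=
  ⟨0x2002000900044004000e02041000141000800040800801081810200008202101000044010020080404020201060008108040020010a00000404021408280,
    0xa3, 1, 0x20415261a3, 5,
    [(0xa3, 1), (0x208693a5, 4), (0x10548793, 4), (0x217693a4, 4), (0x208693a5, 4), (0x10548793, 4)],
    [(0x20415261a3, 5), (0x528493a0, 4), (0x10628793, 4), (0x657493a1, 4), (0x528493a0, 4), (0x10628793, 4)]⟩

def c_5133 : frmChk tA tA F_5133 = true := by decide +kernel

def r_5133_0 : chkL rootF engF2 tA tA sA_439 sA_439 4 F_5133 [(511, 0, 0)]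
    0x1 = true := by
  decide +kernel

theorem f_5133 (h : TabsF) : FrameF repsF 439 F_5133.f :=
  frame_of rfl c_5133 (runs_of engOK r_5133_0) (by decide +kernel) h.1 h.1

def F_5134 : FrX :=
  ⟨0x80080a000804040e00002101002001000002040880421002020004800080202500080050080041000028081062000508100040011000600500004800300,
    0xa6, 1, 0x4153738796a1, 6,
    [(0xa6, 1), (0x205396a8, 4), (0x10548796, 4), (0x214396a7, 4), (0x205396a8, 4), (0x10548796, 4)],
    [(0x4153738796a1, 6), (0x20647395, 4), (0x316485a0, 4), (0x647198a2, 4), (0x20647395, 4), (0x316485a0, 4)]⟩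

def c_5134 : frmChk tA tA F_5134 = true := by decide +kernel

def r_5134_0 : chkL rootF engF2 tA tA sA_439 sA_439 4 F_5134 [(511, 0, 0)]
    0x1 = true := by
  decide +kernel

theorem f_5134 (h : TabsF) : FrameF repsF 439 F_5134.f :=
  frame_of rfl c_5134 (runs_of engOK r_5134_0) (by decide +kernel) h.1 h.1

def F_5135 : FrX :=
  ⟨0x2002000900044004000e02041000141000800040801001021010200060204041000201001028001020100012080c080080400080806080002040200a0404,
    0xa3, 1, 0x54728293a2, 5,
    [(0xa3, 1), (0x208693a5, 4), (0x10548793, 4), (0x217693a4, 4), (0x208693a5, 4), (0x10548793, 4)],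
    [(0x54728293a2, 5), (0x427596a0, 4), (0x10546283, 4), (0x42658397, 4), (0x10546283, 4), (0x657492a1, 4), (0x768395a0, 4), (0x42658397, 4), (0x768395a0, 4), (0x10526497, 4), (0x42658397, 4), (0x657492a1, 4)]⟩

def c_5135 : frmChk tA tB F_5135 = true := by decide +kernel

def r_5135_0 : chkL rootF engF2 tA tB sA_439 sB_439 4 F_5135 [(511, 0, 0)]
    0x1 = true := by
  decide +kernel

theorem f_5135 (h : TabsF) : FrameF repsF 439 F_5135.f :=
  frame_of rfl c_5135 (runs_of engOK r_5135_0) (by decide +kernel) h.1 h.2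

def F_5136 : FrX :=
  ⟨0x482000044040440000c2040020009000182040001101002001020800000950010210000848001000080008442a08800024000206080082100010800801,
    0xa0, 1, 0x213042538497a5, 7,
    [(0xa0, 1), (0x538690a2, 4), (0x548790a1, 4), (0x21437690, 4), (0x538690a2, 4), (0x548790a1, 4)],
    [(0x213042538497a5, 7), (0x436170a5, 4), (0x327091a8, 4), (0x42708596, 4), (0x436170a5, 4), (0x327091a8, 4)]⟩

def c_5136 : frmChk tA tA F_5136 = true := by decide +kernel

def r_5136_0 : chkL rootF engF2 tA tA sA_439 sA_439 4 F_5136 [(511, 0, 0)]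
    0x1 = true := by
  decide +kernel

theorem f_5136 (h : TabsF) : FrameF repsF 439 F_5136.f :=
  frame_of rfl c_5136 (runs_of engOK r_5136_0) (by decide +kernel) h.1 h.1

def F_5137 : FrX :=
  ⟨0x80080a000804040e00002101002001000002040890020001248008008810001011004000802080280008840021004202100040030002001100808220300,
    0xa6, 1, 0x1020314065a3, 6,
    [(0xa6, 1), (0x205396a8, 4), (0x10548796, 4), (0x214396a7, 4), (0x205396a8, 4), (0x10548796, 4)],
    [(0x1020314065a3, 6), (0x417682a5, 4), (0x43627590, 4), (0x527690a8, 4), (0x43627590, 4), (0x315286a7, 4), (0x418590a2, 4), (0x527690a8, 4), (0x418590a2, 4), (0x436572a8, 4), (0x527690a8, 4), (0x315286a7, 4)]⟩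

def c_5137 : frmChk tA tB F_5137 = true := by decide +kernel

def r_5137_0 : chkL rootF engF2 tA tB sA_439 sB_439 4 F_5137 [(511, 0, 0)]
    0x427 = true := by
  decide +kernel

theorem f_5137 (h : TabsF) : FrameF repsF 439 F_5137.f :=
  frame_of rfl c_5137 (runs_of engOK r_5137_0) (by decide +kernel) h.1 h.2

def F_5138 : FrX :=
  ⟨0x2002000900044004000e02041000141000800040808000208120000110012108200020204040009008080082048400800224202040080800042080008840,
    0xa3, 1, 0x3154768092a3, 6,
    [(0xa3, 1), (0x208693a5, 4), (0x10548793, 4), (0x217693a4, 4), (0x208693a5, 4), (0x10548793, 4)],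
    [(0x3154768092a3, 6), (0x217098a4, 4), (0x21546083, 4), (0x217693a5, 4), (0x217098a4, 4), (0x21546083, 4)]⟩

def c_5138 : frmChk tA tA F_5138 = true := by decide +kernel

def r_5138_0 : chkL rootF engF2 tA tA sA_439 sA_439 4 F_5138 [(511, 0, 0)]
    0x1 = true := by
  decide +kernel

theorem f_5138 (h : TabsF) : FrameF repsF 439 F_5138.f :=
  frame_of rfl c_5138 (runs_of engOK r_5138_0) (by decide +kernel) h.1 h.1

def F_5139 : FrX :=
  ⟨0x80080a000804040e0000210100200100000204089000800810800800841010104100041000008420201a00002048100204410802001000c0008000a0050,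
    0xa6, 1, 0x324353718691a0, 7,
    [(0xa6, 1), (0x205396a8, 4), (0x10548796, 4), (0x214396a7, 4), (0x205396a8, 4), (0x10548796, 4)],
    [(0x324353718691a0, 7), (0x547086a3, 4), (0x426170a9, 4), (0x52708193, 4), (0x547086a3, 4), (0x426170a9, 4)]⟩

def c_5139 : frmChk tA tA F_5139 = true := by decide +kernel

def r_5139_0 : chkL rootF engF2 tA tA sA_439 sA_439 4 F_5139 [(511, 0, 0)]
    0x44e = true := by
  decide +kernel

theorem f_5139 (h : TabsF) : FrameF repsF 439 F_5139.f :=
  frame_of rfl c_5139 (runs_of engOK r_5139_0) (by decide +kernel) h.1 h.1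

def F_5140 : FrX :=
  ⟨0x80080a000804040e00002101002001000002040880880800204022400220008000404060008008008090c00040600800242000022002502100002040880,
    0xa6, 1, 0x2052738091a0, 6,
    [(0xa6, 1), (0x205396a8, 4), (0x10548796, 4), (0x214396a7, 4), (0x205396a8, 4), (0x10548796, 4)],
    [(0x2052738091a0, 6), (0x304276a5, 4), (0x406381a9, 4), (0x30647281, 4), (0x406381a9, 4), (0x20647395, 4), (0x627481a5, 4), (0x30647281, 4), (0x627481a5, 4), (0x436072a9, 4), (0x30647281, 4), (0x20647395, 4)]⟩

def c_5140 : frmChk tA tB F_5140 = true := by decide +kernel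

def r_5140_0 : chkL rootF engF2 tA tB sA_439 sB_439 4 F_5140 [(511, 0, 0)]
    0x1 = true := by
  decide +kernel

theorem f_5140 (h : TabsF) : FrameF repsF 439 F_5140.f :=
  frame_of rfl c_5140 (runs_of engOK r_5140_0) (by decide +kernel) h.1 h.2

def F_5141 : FrX :=
  ⟨0x1c2102000004044000002041000101000082040890080080000802400200404020404041004020808260110808010400108080006040220040022200080,
    0x0, 0, 0x21437684, 4,
    [(0x0, 0), (0x205386a9, 4), (0x105487a9, 4), (0x214376a9, 4), (0x205386a9, 4), (0x105487a9, 4)],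
    [(0x21437684, 4), (0x10657483, 4), (0x207685a9, 4), (0x436587a9, 4), (0x207685a9, 4), (0x21536487, 4), (0x107384a9, 4), (0x436587a9, 4), (0x107384a9, 4), (0x20437586, 4), (0x436587a9, 4), (0x21536487, 4)]⟩

def c_5141 : frmChk tA tB F_5141 = true := by decide +kernel

def r_5141_0 : chkL rootF engF2 tA tB sA_439 sB_439 4 F_5141 [(511, 0, 0)]
    0x447 = true := by
  decide +kernel

theorem f_5141 (h : TabsF) : FrameF repsF 439 F_5141.f :=
  frame_of rfl c_5141 (runs_of engOK r_5141_0) (by decide +kernel) h.1 h.2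

def F_5142 : FrX :=
  ⟨0x2002000900044004000e02041000141000800040800801014038000008000182100204004024000410800202000040000300801030090220404011030200,
    0xa3, 1, 0x4051628397a3, 6,
    [(0xa3, 1), (0x208693a5, 4), (0x10548793, 4), (0x217693a4, 4), (0x208693a5, 4), (0x10548793, 4)],
    [(0x4051628397a3, 6), (0x326487a1, 4), (0x10548793, 4), (0x658792a0, 4), (0x326487a1, 4), (0x10548793, 4)]⟩

def c_5142 : frmChk tA tA F_5142 = true := by decide +kernel

def r_5142_0 : chkL rootF engF2 tA tA sA_439 sA_439 4 F_5142 [(511, 0, 0)]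
    0x1 = true := by
  decide +kernel

theorem f_5142 (h : TabsF) : FrameF repsF 439 F_5142.f :=
  frame_of rfl c_5142 (runs_of engOK r_5142_0) (by decide +kernel) h.1 h.1

def F_5143 : FrX :=
  ⟨0x80080a000804040e00002101002001000002040890020001408010808240004020011001004021008008000808060002204041006041320040080800080,
    0xa6, 1, 0x304151657296a8, 7,
    [(0xa6, 1), (0x205396a8, 4), (0x10548796, 4), (0x214396a7, 4), (0x205396a8, 4), (0x10548796, 4)],
    [(0x304151657296a8, 7), (0x627390a1, 4), (0x53618492, 4), (0x628491a0, 4), (0x53618492, 4), (0x207591a6, 4), (0x107384a9, 4), (0x628491a0, 4), (0x107384a9, 4), (0x215396a0, 4), (0x628491a0, 4), (0x207591a6, 4)]⟩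

def c_5143 : frmChk tA tB F_5143 = true := by decide +kernel

def r_5143_0 : chkL rootF engF2 tA tB sA_439 sB_439 4 F_5143 [(511, 0, 0)]
    0x1 = true := by
  decide +kernel

theorem f_5143 (h : TabsF) : FrameF repsF 439 F_5143.f :=
  frame_of rfl c_5143 (runs_of engOK r_5143_0) (by decide +kernel) h.1 h.2

def F_5144 : FrX :=
  ⟨0x1001040012008080000e00840800410008101000040820081008400022000030048048025000418008004804800000200002845000004440014002200084,
    0xa3, 1, 0x4253708196a3, 6,
    [(0xa3, 1), (0x207584a6, 4), (0x10547693, 4), (0x647593a8, 4), (0x10547693, 4), (0x216485a7, 4), (0x208693a4, 4), (0x647593a8, 4), (0x208693a4, 4), (0x106574a8, 4), (0x647593a8, 4), (0x216485a7, 4)],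
    [(0x4253708196a3, 6), (0x213074a9, 4), (0x32658790, 4), (0x306592a1, 4), (0x32658790, 4), (0x318492a0, 4), (0x657491a2, 4), (0x306592a1, 4), (0x657491a2, 4), (0x208793a1, 4), (0x306592a1, 4), (0x318492a0, 4)]⟩

def c_5144 : frmChk tB tB F_5144 = true := by decide +kernel

def r_5144_0 : chkL rootF engF2 tB tB sB_439 sB_439 4 F_5144 [(511, 0, 0)]
    0x1 = true := by
  decide +kernel

theorem f_5144 (h : TabsF) : FrameF repsF 439 F_5144.f :=
  frame_of rfl c_5144 (runs_of engOK r_5144_0) (by decide +kernel) h.2 h.2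

theorem cl_439 (h : TabsF) : ∀ f ∈ fr_439, FrameF repsF 439 f :=
  List.forall_mem_cons.2 ⟨f_5129 h, List.forall_mem_cons.2 ⟨f_5130 h, List.forall_mem_cons.2 ⟨f_5131 h, List.forall_mem_cons.2 ⟨f_5132 h, List.forall_mem_cons.2 ⟨f_5133 h, List.forall_mem_cons.2 ⟨f_5134 h, List.forall_mem_cons.2 ⟨f_5135 h, List.forall_mem_cons.2 ⟨f_5136 h, List.forall_mem_cons.2 ⟨f_5137 h, List.forall_mem_cons.2 ⟨f_5138 h, List.forall_mem_cons.2 ⟨f_5139 h, List.forall_mem_cons.2 ⟨f_5140 h, List.forall_mem_cons.2 ⟨f_5141 h, List.forall_mem_cons.2 ⟨f_5142 h, List.forall_mem_cons.2 ⟨f_5143 h, List.forall_mem_cons.2 ⟨f_5144 h,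
    fun _ h0 => absurd h0 List.not_mem_nil⟩⟩⟩⟩⟩⟩⟩⟩⟩⟩⟩⟩⟩⟩⟩⟩

def F_5145 : FrX :=
  ⟨0x2002000900044004000e0204100014100080004080800408110202020101010004002800210000420c00440880002000a004020401001020000892200104,
    0xa3, 1, 0x3140608295a5, 6,
    [(0xa3, 1), (0x208693a5, 4), (0x10548793, 4), (0x217693a4, 4), (0x208693a5, 4), (0x10548793, 4)],
    [(0x3140608295a5, 6), (0x428695a1, 4), (0x637295a0, 4), (0x10748395, 4), (0x428695a1, 4), (0x637295a0, 4)]⟩

def c_5145 : frmChk tA tA F_5145 = true := by decide +kernel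

def r_5145_0 : chkL rootF engF2 tA tA sA_440 sA_440 4 F_5145 [(511, 0, 0)]
    0x1 = true := by
  decide +kernel

theorem f_5145 (h : TabsF) : FrameF repsF 440 F_5145.f :=
  frame_of rfl c_5145 (runs_of engOK r_5145_0) (by decide +kernel) h.1 h.1

def F_5146 : FrX :=
  ⟨0x1c210200000404400000204100010100008204089008008000101000840010104004840200800420800c40880222000c004200440010022000882200080,
    0x0, 0, 0x436484, 3,
    [(0x0, 0), (0x205386a9, 4), (0x105487a9, 4), (0x214376a9, 4), (0x205386a9, 4), (0x105487a9, 4)],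
    [(0x436484, 3), (0x205463a9, 4), (0x107685a9, 4), (0x217384a9, 4), (0x205463a9, 4), (0x107685a9, 4)]⟩

def c_5146 : frmChk tA tA F_5146 = true := by decide +kernel

def r_5146_0 : chkL rootF engF2 tA tA sA_440 sA_440 4 F_5146 [(511, 0, 0)]
    0x1 = true := by
  decide +kernel

theorem f_5146 (h : TabsF) : FrameF repsF 440 F_5146.f :=
  frame_of rfl c_5146 (runs_of engOK r_5146_0) (by decide +kernel) h.1 h.1

def F_5147 : FrX :=
  ⟨0x482000044040440000c204002000900018204000090080800810000800019300020040202800020080c400880220004204004440010122000000210028,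
    0xa0, 1, 0x2040648795a4, 6,
    [(0xa0, 1), (0x538690a2, 4), (0x548790a1, 4), (0x21437690, 4), (0x538690a2, 4), (0x548790a1, 4)],
    [(0x2040648795a4, 6), (0x324098a7, 4), (0x416582a9, 4), (0x657398a2, 4), (0x416582a9, 4), (0x108397a2, 4), (0x406572a3, 4), (0x657398a2, 4), (0x406572a3, 4), (0x417392a8, 4), (0x657398a2, 4), (0x108397a2, 4)]⟩

def c_5147 : frmChk tA tB F_5147 = true := by decide +kernel

def r_5147_0 : chkL rootF engF2 tA tB sA_440 sB_440 4 F_5147 [(511, 0, 0)]
    0x1 = true := by
  decide +kernel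

theorem f_5147 (h : TabsF) : FrameF repsF 440 F_5147.f :=
  frame_of rfl c_5147 (runs_of engOK r_5147_0) (by decide +kernel) h.1 h.2

def F_5148 : FrX :=
  ⟨0x2002000900044004000e0204100014100080004080800100208102040100828200020200408000420a000102040020008002420401001042401210008210,
    0xa3, 1, 0x1030548197a3, 6,
    [(0xa3, 1), (0x208693a5, 4), (0x10548793, 4), (0x217693a4, 4), (0x208693a5, 4), (0x10548793, 4)],
    [(0x1030548197a3, 6), (0x326071a4, 4), (0x54718390, 4), (0x718296a5, 4), (0x326071a4, 4), (0x54718390, 4)]⟩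

def c_5148 : frmChk tA tA F_5148 = true := by decide +kernel

def r_5148_0 : chkL rootF engF2 tA tA sA_440 sA_440 4 F_5148 [(511, 0, 0)]
    0x1 = true := by
  decide +kernel

theorem f_5148 (h : TabsF) : FrameF repsF 440 F_5148.f :=
  frame_of rfl c_5148 (runs_of engOK r_5148_0) (by decide +kernel) h.1 h.1

def F_5149 : FrX :=
  ⟨0x482000044040440000c2040020009000182040020001024000020810042024200400100081040180080200202010104480010004080800040104508050,
    0xa0, 1, 0x204263718592a0, 7,
    [(0xa0, 1), (0x538690a2, 4), (0x548790a1, 4), (0x21437690, 4), (0x538690a2, 4), (0x548790a1, 4)],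
    [(0x204263718592a0, 7), (0x425386a9, 4), (0x425180a7, 4), (0x31426097, 4), (0x425386a9, 4), (0x425180a7, 4)]⟩

def c_5149 : frmChk tA tA F_5149 = true := by decide +kernel

def r_5149_0 : chkL rootF engF2 tA tA sA_440 sA_440 4 F_5149 [(511, 0, 0)]
    0x1 = true := by
  decide +kernel

theorem f_5149 (h : TabsF) : FrameF repsF 440 F_5149.f :=
  frame_of rfl c_5149 (runs_of engOK r_5149_0) (by decide +kernel) h.1 h.1

def F_5150 : FrX :=
  ⟨0x80080a000804040e00002101002001000002040880a00008084024200012008010400080c00080014280801080402800004001020403004202104010010,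
    0xa6, 1, 0x204253648091a0, 7,
    [(0xa6, 1), (0x205396a8, 4), (0x10548796, 4), (0x214396a7, 4), (0x205396a8, 4), (0x10548796, 4)],
    [(0x204253648091a0, 7), (0x205381a4, 4), (0x637281a9, 4), (0x65708194, 4), (0x205381a4, 4), (0x637281a9, 4)]⟩

def c_5150 : frmChk tA tA F_5150 = true := by decide +kernel

def r_5150_0 : chkL rootF engF2 tA tA sA_440 sA_440 4 F_5150 [(511, 0, 0)]
    0x103c4d3250d = true := by
  decide +kernel

theorem f_5150 (h : TabsF) : FrameF repsF 440 F_5150.f :=
  frame_of rfl c_5150 (runs_of engOK r_5150_0) (by decide +kernel) h.1 h.1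

def F_5151 : FrX :=
  ⟨0x80080a000804040e0000210100200100000204088101100101004022040400100110006000800400a01000004410000a100080480240881404040600200,
    0xa6, 1, 0x4054628393a1, 6,
    [(0xa6, 1), (0x205396a8, 4), (0x10548796, 4), (0x214396a7, 4), (0x205396a8, 4), (0x10548796, 4)],
    [(0x4054628393a1, 6), (0x53647092, 4), (0x507281a4, 4), (0x52708193, 4), (0x507281a4, 4), (0x305297a6, 4), (0x32648195, 4), (0x52708193, 4), (0x32648195, 4), (0x207593a4, 4), (0x52708193, 4), (0x305297a6, 4)]⟩

def c_5151 : frmChk tA tB F_5151 = true := by decide +kernel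

def r_5151_0 : chkL rootF engF2 tA tB sA_440 sB_440 4 F_5151 [(511, 0, 0)]
    0x1 = true := by
  decide +kernel

theorem f_5151 (h : TabsF) : FrameF repsF 440 F_5151.f :=
  frame_of rfl c_5151 (runs_of engOK r_5151_0) (by decide +kernel) h.1 h.2

def F_5152 : FrX :=
  ⟨0x482000044040440000c2040020009000182040010080108101000180020108208010002001040210020420200401420048008000600a00042002000450,
    0xa0, 1, 0x3041526471a7, 6,
    [(0xa0, 1), (0x538690a2, 4), (0x548790a1, 4), (0x21437690, 4), (0x538690a2, 4), (0x548790a1, 4)],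
    [(0x3041526471a7, 6), (0x20538194, 4), (0x627394a8, 4), (0x607594a1, 4), (0x20538194, 4), (0x627394a8, 4)]⟩

def c_5152 : frmChk tA tA F_5152 = true := by decide +kernel

def r_5152_0 : chkL rootF engF2 tA tA sA_440 sA_440 4 F_5152 [(511, 0, 0)]
    0x1 = true := by
  decide +kernel

theorem f_5152 (h : TabsF) : FrameF repsF 440 F_5152.f :=
  frame_of rfl c_5152 (runs_of engOK r_5152_0) (by decide +kernel) h.1 h.1

def F_5153 : FrX :=
  ⟨0x2002000900044004000e020410001410008000408004010420102000102021010001021008440204140001010800480082200a00c0200000404040210200,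
    0xa3, 1, 0x2042718793a4, 6,
    [(0xa3, 1), (0x208693a5, 4), (0x10548793, 4), (0x217693a4, 4), (0x208693a5, 4), (0x10548793, 4)],
    [(0x2042718793a4, 6), (0x428596a1, 4), (0x307286a5, 4), (0x308591a6, 4), (0x307286a5, 4), (0x517498a6, 4), (0x304261a9, 4), (0x308591a6, 4), (0x304261a9, 4), (0x657291a8, 4), (0x308591a6, 4), (0x517498a6, 4)]⟩

def c_5153 : frmChk tA tB F_5153 = true := by decide +kernel

def r_5153_0 : chkL rootF engF2 tA tB sA_440 sB_440 4 F_5153 [(511, 0, 0)]
    0x1 = true := by
  decide +kernel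

theorem f_5153 (h : TabsF) : FrameF repsF 440 F_5153.f :=
  frame_of rfl c_5153 (runs_of engOK r_5153_0) (by decide +kernel) h.1 h.2

def F_5154 : FrX :=
  ⟨0x80080a000804040e00002101002001000002040880411004020004800080282008080402400040210800200602040420201108001011400400222000010,
    0xa6, 1, 0x3054637491a4, 6,
    [(0xa6, 1), (0x205396a8, 4), (0x10548796, 4), (0x214396a7, 4), (0x205396a8, 4), (0x10548796, 4)],
    [(0x3054637491a4, 6), (0x32647180, 4), (0x718593a4, 4), (0x507192a6, 4), (0x32647180, 4), (0x718593a4, 4)]⟩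

def c_5154 : frmChk tA tA F_5154 = true := by decide +kernel

def r_5154_0 : chkL rootF engF2 tA tA sA_440 sA_440 4 F_5154 [(511, 0, 0)]
    0x1 = true := by
  decide +kernel

theorem f_5154 (h : TabsF) : FrameF repsF 440 F_5154.f :=
  frame_of rfl c_5154 (runs_of engOK r_5154_0) (by decide +kernel) h.1 h.1

def F_5155 : FrX :=
  ⟨0x2002000900044004000e02041000141000800040800801041010200008204501000101002028000210a004004040480202400080222002004000200a4040,
    0xa3, 1, 0x214254748394a8, 7,
    [(0xa3, 1), (0x208693a5, 4), (0x10548793, 4), (0x217693a4, 4), (0x208693a5, 4), (0x10548793, 4)],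
    [(0x214254748394a8, 7), (0x407381a6, 4), (0x207391a5, 4), (0x42657398, 4), (0x407381a6, 4), (0x207391a5, 4)]⟩

def c_5155 : frmChk tA tA F_5155 = true := by decide +kernel

def r_5155_0 : chkL rootF engF2 tA tA sA_440 sA_440 4 F_5155 [(511, 0, 0)]
    0x1 = true := by
  decide +kernel

theorem f_5155 (h : TabsF) : FrameF repsF 440 F_5155.f :=
  frame_of rfl c_5155 (runs_of engOK r_5155_0) (by decide +kernel) h.1 h.1

def F_5156 : FrX :=
  ⟨0x482000044040440000c204002000900018204000220010010808000481004120020200108100002080044810410140004800800a200200101012000402,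
    0xa0, 1, 0x314062708592a0, 7,
    [(0xa0, 1), (0x538690a2, 4), (0x548790a1, 4), (0x21437690, 4), (0x538690a2, 4), (0x548790a1, 4)],
    [(0x314062708592a0, 7), (0x527681a9, 4), (0x547680a3, 4), (0x10427693, 4), (0x527681a9, 4), (0x547680a3, 4)]⟩

def c_5156 : frmChk tA tA F_5156 = true := by decide +kernel

def r_5156_0 : chkL rootF engF2 tA tA sA_440 sA_440 4 F_5156 [(511, 0, 0)]
    0x1 = true := by
  decide +kernel

theorem f_5156 (h : TabsF) : FrameF repsF 440 F_5156.f :=
  frame_of rfl c_5156 (runs_of engOK r_5156_0) (by decide +kernel) h.1 h.1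

def F_5157 : FrX :=
  ⟨0x80080a000804040e00002101002001000002040880821001020002808080204004081000824021010001001204040408306000002000600500020420200,
    0xa6, 1, 0x1052648191a0, 6,
    [(0xa6, 1), (0x205396a8, 4), (0x10548796, 4), (0x214396a7, 4), (0x205396a8, 4), (0x10548796, 4)],
    [(0x1052648191a0, 6), (0x436072a5, 4), (0x627481a9, 4), (0x30647281, 4), (0x627481a9, 4), (0x20647395, 4), (0x406381a5, 4), (0x30647281, 4), (0x406381a5, 4), (0x304276a9, 4), (0x30647281, 4), (0x20647395, 4)]⟩

def c_5157 : frmChk tA tB F_5157 = true := by decide +kernel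

def r_5157_0 : chkL rootF engF2 tA tB sA_440 sB_440 4 F_5157 [(511, 0, 0)]
    0x1 = true := by
  decide +kernel

theorem f_5157 (h : TabsF) : FrameF repsF 440 F_5157.f :=
  frame_of rfl c_5157 (runs_of engOK r_5157_0) (by decide +kernel) h.1 h.2

def F_5158 : FrX :=
  ⟨0x482000044040440000c2040020009000182040001101002000a0a000004084004400101405080102010010102008800000080086048004011010800820,
    0xa0, 1, 0x3254748097a0, 6,
    [(0xa0, 1), (0x538690a2, 4), (0x548790a1, 4), (0x21437690, 4), (0x538690a2, 4), (0x548790a1, 4)],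
    [(0x3254748097a0, 6), (0x627094a3, 4), (0x748596a1, 4), (0x20768594, 4), (0x748596a1, 4), (0x31407692, 4), (0x607285a3, 4), (0x20768594, 4), (0x607285a3, 4), (0x206497a1, 4), (0x20768594, 4), (0x31407692, 4)]⟩

def c_5158 : frmChk tA tB F_5158 = true := by decide +kernel

def r_5158_0 : chkL rootF engF2 tA tB sA_440 sB_440 4 F_5158 [(511, 0, 0)]
    0x1 = true := by
  decide +kernel

theorem f_5158 (h : TabsF) : FrameF repsF 440 F_5158.f :=
  frame_of rfl c_5158 (runs_of engOK r_5158_0) (by decide +kernel) h.1 h.2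

def F_5159 : FrX :=
  ⟨0x2002000900044004000e02041000141000800040801000228020001410020a0820000010140c00880a010010000400801001800140048000100804011900,
    0xa3, 1, 0x3040638292a8, 6,
    [(0xa3, 1), (0x208693a5, 4), (0x10548793, 4), (0x217693a4, 4), (0x208693a5, 4), (0x10548793, 4)],
    [(0x3040638292a8, 6), (0x658294a0, 4), (0x415382a7, 4), (0x63708291, 4), (0x658294a0, 4), (0x415382a7, 4)]⟩

def c_5159 : frmChk tA tA F_5159 = true := by decide +kernel

def r_5159_0 : chkL rootF engF2 tA tA sA_440 sA_440 4 F_5159 [(511, 0, 0)]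
    0x17083311cd2 = true := by
  decide +kernel

theorem f_5159 (h : TabsF) : FrameF repsF 440 F_5159.f :=
  frame_of rfl c_5159 (runs_of engOK r_5159_0) (by decide +kernel) h.1 h.1

def F_5160 : FrX :=
  ⟨0x482000044040440000c2040020009000182040002100404000a00010001408009012001024000400800800880208800040001284042004092880210000,
    0xa0, 1, 0x214250738491a2, 7,
    [(0xa0, 1), (0x538690a2, 4), (0x548790a1, 4), (0x21437690, 4), (0x538690a2, 4), (0x548790a1, 4)],
    [(0x214250738491a2, 7), (0x426170a5, 4), (0x31428095, 4), (0x426387a9, 4), (0x426170a5, 4), (0x31428095, 4)]⟩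

def c_5160 : frmChk tA tA F_5160 = true := by decide +kernel

def r_5160_0 : chkL rootF engF2 tA tA sA_440 sA_440 4 F_5160 [(511, 0, 0)]
    0x103c2716833 = true := by
  decide +kernel

theorem f_5160 (h : TabsF) : FrameF repsF 440 F_5160.f :=
  frame_of rfl c_5160 (runs_of engOK r_5160_0) (by decide +kernel) h.1 h.1

def F_5161 : FrX :=
  ⟨0x2002000900044004000e02041000141000800040801000418000c0020024200014004010102800088004040004041040000080525088000024411000c000,
    0xa3, 1, 0x325463708691a3, 7,
    [(0xa3, 1), (0x208693a5, 4), (0x10548793, 4), (0x217693a4, 4), (0x208693a5, 4), (0x10548793, 4)],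
    [(0x325463708691a3, 7), (0x617382a4, 4), (0x20546197, 4), (0x618093a5, 4), (0x617382a4, 4), (0x20546197, 4)]⟩

def c_5161 : frmChk tA tA F_5161 = true := by decide +kernel

def r_5161_0 : chkL rootF engF2 tA tA sA_440 sA_440 4 F_5161 [(511, 0, 0)]
    0x1 = true := by
  decide +kernel

theorem f_5161 (h : TabsF) : FrameF repsF 440 F_5161.f :=
  frame_of rfl c_5161 (runs_of engOK r_5161_0) (by decide +kernel) h.1 h.1

def F_5162 : FrX :=
  ⟨0x80080a000804040e000021010020010000020408806000044080880000202010408020414000800800408000c0420001022044250102200300200020100,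
    0xa6, 1, 0x10214262718690a3, 8,
    [(0xa6, 1), (0x205396a8, 4), (0x10548796, 4), (0x214396a7, 4), (0x205396a8, 4), (0x10548796, 4)],
    [(0x10214262718690a3, 8), (0x405296a8, 4), (0x31508297, 4), (0x315280a4, 4), (0x31508297, 4), (0x547680a2, 4), (0x318496a0, 4), (0x315280a4, 4), (0x318496a0, 4), (0x208597a4, 4), (0x315280a4, 4), (0x547680a2, 4)]⟩

def c_5162 : frmChk tA tB F_5162 = true := by decide +kernel

def r_5162_0 : chkL rootF engF2 tA tB sA_440 sB_440 4 F_5162 [(511, 0, 0)]
    0x1 = true := by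
  decide +kernel

theorem f_5162 (h : TabsF) : FrameF repsF 440 F_5162.f :=
  frame_of rfl c_5162 (runs_of engOK r_5162_0) (by decide +kernel) h.1 h.2

def F_5163 : FrX :=
  ⟨0x600020801080810000c00401804101010010040101018020000048041022020004001008004402004100200c2038000800088800000040408040908050,
    0xa0, 1, 0x1021325380a6, 6,
    [(0xa0, 1), (0x637584a2, 4), (0x547690a1, 4), (0x64758390, 4), (0x547690a1, 4), (0x21647385, 4), (0x438690a2, 4), (0x64758390, 4), (0x438690a2, 4), (0x657483a1, 4), (0x64758390, 4), (0x21647385, 4)],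
    [(0x1021325380a6, 6), (0x508396a1, 4), (0x40718296, 4), (0x325496a7, 4), (0x508396a1, 4), (0x40718296, 4)]⟩

def c_5163 : frmChk tB tA F_5163 = true := by decide +kernel

def r_5163_0 : chkL rootF engF2 tB tA sB_440 sA_440 4 F_5163 [(511, 0, 0)]
    0x41d0741d = true := by
  decide +kernel

theorem f_5163 (h : TabsF) : FrameF repsF 440 F_5163.f :=
  frame_of rfl c_5163 (runs_of engOK r_5163_0) (by decide +kernel) h.2 h.1

def F_5164 : FrX :=
  ⟨0x600020801080810000c0040180410101001004012900004000010008200c04020014002000100100210010e02038000200080c48000040420021080001,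
    0xa0, 1, 0x304362758696a6, 7,
    [(0xa0, 1), (0x637584a2, 4), (0x547690a1, 4), (0x64758390, 4), (0x547690a1, 4), (0x21647385, 4), (0x438690a2, 4), (0x64758390, 4), (0x438690a2, 4), (0x657483a1, 4), (0x64758390, 4), (0x21647385, 4)],
    [(0x304362758696a6, 7), (0x637498a2, 4), (0x31527098, 4), (0x406198a5, 4), (0x637498a2, 4), (0x31527098, 4)]⟩

def c_5164 : frmChk tB tA F_5164 = true := by decide +kernel

def r_5164_0 : chkL rootF engF2 tB tA sB_440 sA_440 4 F_5164 [(511, 0, 0)]
    0x1 = true := by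
  decide +kernel

theorem f_5164 (h : TabsF) : FrameF repsF 440 F_5164.f :=
  frame_of rfl c_5164 (runs_of engOK r_5164_0) (by decide +kernel) h.2 h.1

def F_5165 : FrX :=
  ⟨0x1001040012008080000e0084080041000810100004042002800111000018001001020088410a402000020208440010080440200006000804060003002080,
    0xa3, 1, 0x415061728098a6, 7,
    [(0xa3, 1), (0x207584a6, 4), (0x10547693, 4), (0x647593a8, 4), (0x10547693, 4), (0x216485a7, 4), (0x208693a4, 4), (0x647593a8, 4), (0x208693a4, 4), (0x106574a8, 4), (0x647593a8, 4), (0x216485a7, 4)],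
    [(0x415061728098a6, 7), (0x305487a9, 4), (0x10548692, 4), (0x315476a2, 4), (0x305487a9, 4), (0x10548692, 4)]⟩

def c_5165 : frmChk tB tA F_5165 = true := by decide +kernel

def r_5165_0 : chkL rootF engF2 tB tA sB_440 sA_440 4 F_5165 [(511, 0, 0)]
    0x1 = true := by
  decide +kernel

theorem f_5165 (h : TabsF) : FrameF repsF 440 F_5165.f :=
  frame_of rfl c_5165 (runs_of engOK r_5165_0) (by decide +kernel) h.2 h.1

def F_5166 : FrX :=
  ⟨0x1001040012008080000e00840800410008101000040410084020010040080050084042004200010824802008400400414040200108028200001000802090,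
    0xa3, 1, 0x21325060718294a6, 8,
    [(0xa3, 1), (0x207584a6, 4), (0x10547693, 4), (0x647593a8, 4), (0x10547693, 4), (0x216485a7, 4), (0x208693a4, 4), (0x647593a8, 4), (0x208693a4, 4), (0x106574a8, 4), (0x647593a8, 4), (0x216485a7, 4)],
    [(0x21325060718294a6, 8), (0x208693a1, 4), (0x547690a2, 4), (0x203154a9, 4), (0x547690a2, 4), (0x213087a9, 4), (0x548691a3, 4), (0x203154a9, 4), (0x548691a3, 4), (0x317692a0, 4), (0x203154a9, 4), (0x213087a9, 4)]⟩

def c_5166 : frmChk tB tB F_5166 = true := by decide +kernel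

def r_5166_0 : chkL rootF engF2 tB tB sB_440 sB_440 4 F_5166 [(511, 0, 0)]
    0x1 = true := by
  decide +kernel

theorem f_5166 (h : TabsF) : FrameF repsF 440 F_5166.f :=
  frame_of rfl c_5166 (runs_of engOK r_5166_0) (by decide +kernel) h.2 h.2

def F_5167 : FrX :=
  ⟨0x482000044040440000c2040020009000182040000842040000880800080082020080510020080802020010504090002080008208440104040202800010,
    0xa0, 1, 0x214250628593a8, 7,
    [(0xa0, 1), (0x538690a2, 4), (0x548790a1, 4), (0x21437690, 4), (0x538690a2, 4), (0x548790a1, 4)],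
    [(0x214250628593a8, 7), (0x306598a4, 4), (0x305281a7, 4), (0x30627491, 4), (0x306598a4, 4), (0x305281a7, 4)]⟩

def c_5167 : frmChk tA tA F_5167 = true := by decide +kernel

def r_5167_0 : chkL rootF engF2 tA tA sA_440 sA_440 4 F_5167 [(511, 0, 0)]
    0x1 = true := by
  decide +kernel

theorem f_5167 (h : TabsF) : FrameF repsF 440 F_5167.f :=
  frame_of rfl c_5167 (runs_of engOK r_5167_0) (by decide +kernel) h.1 h.1

def F_5168 : FrX :=
  ⟨0x482000044040440000c204002000900018204002000344000008080404088100080010002404048002000021301008208000800a040400500200808240,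
    0xa0, 1, 0x213140546583a5, 7,
    [(0xa0, 1), (0x538690a2, 4), (0x548790a1, 4), (0x21437690, 4), (0x538690a2, 4), (0x548790a1, 4)],
    [(0x213140546583a5, 7), (0x204196a8, 4), (0x437296a5, 4), (0x31708596, 4), (0x204196a8, 4), (0x437296a5, 4)]⟩

def c_5168 : frmChk tA tA F_5168 = true := by decide +kernel

def r_5168_0 : chkL rootF engF2 tA tA sA_440 sA_440 4 F_5168 [(511, 0, 0)]
    0x1 = true := by
  decide +kernel

theorem f_5168 (h : TabsF) : FrameF repsF 440 F_5168.f :=
  frame_of rfl c_5168 (runs_of engOK r_5168_0) (by decide +kernel) h.1 h.1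

def F_5169 : FrX :=
  ⟨0x80080a000804040e0000210100200100000204088220000209008010000408204508000802240002002810040220200110000204040840a002005200200,
    0xa6, 1, 0x21324151748398a6, 8,
    [(0xa6, 1), (0x205396a8, 4), (0x10548796, 4), (0x214396a7, 4), (0x205396a8, 4), (0x10548796, 4)],
    [(0x21324151748398a6, 8), (0x304297a8, 4), (0x506174a2, 4), (0x426198a7, 4), (0x506174a2, 4), (0x538294a7, 4), (0x306187a9, 4), (0x426198a7, 4), (0x306187a9, 4), (0x507298a4, 4), (0x426198a7, 4), (0x538294a7, 4)]⟩

def c_5169 : frmChk tA tB F_5169 = true := by decide +kernel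

def r_5169_0 : chkL rootF engF2 tA tB sA_440 sB_440 4 F_5169 [(511, 0, 0)]
    0x1 = true := by
  decide +kernel

theorem f_5169 (h : TabsF) : FrameF repsF 440 F_5169.f :=
  frame_of rfl c_5169 (runs_of engOK r_5169_0) (by decide +kernel) h.1 h.2

def F_5170 : FrX :=
  ⟨0x482000044040440000c20400200090001820400010421020081000040100410102020010280004408000400c80200010040044410100a0004114000042,
    0xa0, 1, 0x1042516273a6, 6,
    [(0xa0, 1), (0x538690a2, 4), (0x548790a1, 4), (0x21437690, 4), (0x538690a2, 4), (0x548790a1, 4)],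
    [(0x1042516273a6, 6), (0x617094a8, 4), (0x20518394, 4), (0x657294a3, 4), (0x617094a8, 4), (0x20518394, 4)]⟩

def c_5170 : frmChk tA tA F_5170 = true := by decide +kernel

def r_5170_0 : chkL rootF engF2 tA tA sA_440 sA_440 4 F_5170 [(511, 0, 0)]
    0x40f345294640f = true := by
  decide +kernel

theorem f_5170 (h : TabsF) : FrameF repsF 440 F_5170.f :=
  frame_of rfl c_5170 (runs_of engOK r_5170_0) (by decide +kernel) h.1 h.1

def F_5171 : FrX :=
  ⟨0x2002000900044004000e02041000141000800040808001001101020401020102000084104200208498000007000020008000820400800800100c04600300,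
    0xa3, 1, 0x435160708394a6, 7,
    [(0xa3, 1), (0x208693a5, 4), (0x10548793, 4), (0x217693a4, 4), (0x208693a5, 4), (0x10548793, 4)],
    [(0x435160708394a6, 7), (0x617294a8, 4), (0x307591a6, 4), (0x306184a9, 4), (0x307591a6, 4), (0x415286a9, 4), (0x307298a4, 4), (0x306184a9, 4), (0x307298a4, 4), (0x758496a1, 4), (0x306184a9, 4), (0x415286a9, 4)]⟩

def c_5171 : frmChk tA tB F_5171 = true := by decide +kernel

def r_5171_0 : chkL rootF engF2 tA tB sA_440 sB_440 4 F_5171 [(511, 0, 0)]
    0x1 = true := by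
  decide +kernel

theorem f_5171 (h : TabsF) : FrameF repsF 440 F_5171.f :=
  frame_of rfl c_5171 (runs_of engOK r_5171_0) (by decide +kernel) h.1 h.2

def F_5172 : FrX :=
  ⟨0x1c2102000004044000002041000101000082040888200008000880200002202020600048020130040420440820008100088010001a00200440004080050,
    0x0, 0, 0x21546587, 4,
    [(0x0, 0), (0x205386a9, 4), (0x105487a9, 4), (0x214376a9, 4), (0x205386a9, 4), (0x105487a9, 4)],
    [(0x21546587, 4), (0x10437586, 4), (0x206584a9, 4), (0x547386a9, 4), (0x206584a9, 4), (0x21547683, 4), (0x105374a9, 4), (0x547386a9, 4), (0x105374a9, 4), (0x20647385, 4), (0x547386a9, 4), (0x21547683, 4)]⟩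

def c_5172 : frmChk tA tB F_5172 = true := by decide +kernel

def r_5172_0 : chkL rootF engF2 tA tB sA_440 sB_440 4 F_5172 [(511, 0, 0)]
    0x1 = true := by
  decide +kernel

theorem f_5172 (h : TabsF) : FrameF repsF 440 F_5172.f :=
  frame_of rfl c_5172 (runs_of engOK r_5172_0) (by decide +kernel) h.1 h.2

theorem cl_440 (h : TabsF) : ∀ f ∈ fr_440, FrameF repsF 440 f :=
  List.forall_mem_cons.2 ⟨f_5145 h, List.forall_mem_cons.2 ⟨f_5146 h, List.forall_mem_cons.2 ⟨f_5147 h, List.forall_mem_cons.2 ⟨f_5148 h, List.forall_mem_cons.2 ⟨f_5149 h, List.forall_mem_cons.2 ⟨f_5150 h, List.forall_mem_cons.2 ⟨f_5151 h, List.forall_mem_cons.2 ⟨f_5152 h, List.forall_mem_cons.2 ⟨f_5153 h, List.forall_mem_cons.2 ⟨f_5154 h, List.forall_mem_cons.2 ⟨f_5155 h, List.forall_mem_cons.2 ⟨f_5156 h, List.forall_mem_cons.2 ⟨f_5157 h, List.forall_mem_cons.2 ⟨f_5158 h, List.forall_mem_cons.2 ⟨f_5159 h, List.forall_mem_cons.2 ⟨f_5160 h, List.forall_mem_cons.2 ⟨f_5161 h, List.forall_mem_cons.2 ⟨f_5162 h, List.forall_mem_cons.2 ⟨f_5163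 h, List.forall_mem_cons.2 ⟨f_5164 h, List.forall_mem_cons.2 ⟨f_5165 h, List.forall_mem_cons.2 ⟨f_5166 h, List.forall_mem_cons.2 ⟨f_5167 h, List.forall_mem_cons.2 ⟨f_5168 h, List.forall_mem_cons.2 ⟨f_5169 h, List.forall_mem_cons.2 ⟨f_5170 h, List.forall_mem_cons.2 ⟨f_5171 h, List.forall_mem_cons.2 ⟨f_5172 h,
    fun _ h0 => absurd h0 List.not_mem_nil⟩⟩⟩⟩⟩⟩⟩⟩⟩⟩⟩⟩⟩⟩⟩⟩⟩⟩⟩⟩⟩⟩⟩⟩⟩⟩⟩⟩

def F_5173 : FrX :=
  ⟨0x80080a000804040e00002101002001000002040881040202020008100080084040012810020040202102800600040040300118001003002400010180010,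
    0xa6, 1, 0x1031538094a5, 6,
    [(0xa6, 1), (0x205396a8, 4), (0x10548796, 4), (0x214396a7, 4), (0x205396a8, 4), (0x10548796, 4)],
    [(0x1031538094a5, 6), (0x406182a5, 4), (0x407183a9, 4), (0x32407695, 4), (0x406182a5, 4), (0x407183a9, 4)]⟩

def c_5173 : frmChk tA tA F_5173 = true := by decide +kernel

def r_5173_0 : chkL rootF engF2 tA tA sA_441 sA_441 4 F_5173 [(511, 0, 0)]
    0x43606c36 = true := by
  decide +kernel

theorem f_5173 (h : TabsF) : FrameF repsF 441 F_5173.f :=
  frame_of rfl c_5173 (runs_of engOK r_5173_0) (by decide +kernel) h.1 h.1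

def F_5174 : FrX :=
  ⟨0x2002000900044004000e0204100014100080004080040204040840001081004030008802000208000a200086001800400204210048200204040024000201,
    0xa3, 1, 0x204065748490a5, 7,
    [(0xa3, 1), (0x208693a5, 4), (0x10548793, 4), (0x217693a4, 4), (0x208693a5, 4), (0x10548793, 4)],
    [(0x204065748490a5, 7), (0x647590a3, 4), (0x647291a8, 4), (0x10526483, 4), (0x647590a3, 4), (0x647291a8, 4)]⟩

def c_5174 : frmChk tA tA F_5174 = true := by decide +kernel

def r_5174_0 : chkL rootF engF2 tA tA sA_441 sA_441 4 F_5174 [(511, 0, 0)]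
    0x1 = true := by
  decide +kernel

theorem f_5174 (h : TabsF) : FrameF repsF 441 F_5174.f :=
  frame_of rfl c_5174 (runs_of engOK r_5174_0) (by decide +kernel) h.1 h.1

def F_5175 : FrX :=
  ⟨0x482000044040440000c20400200090001820400004210210010808000801012002000600020800800204040c4000408100200210850120004028000208,
    0xa0, 1, 0x2131415482a0, 6,
    [(0xa0, 1), (0x538690a2, 4), (0x548790a1, 4), (0x21437690, 4), (0x538690a2, 4), (0x548790a1, 4)],
    [(0x2131415482a0, 6), (0x326190a8, 4), (0x537190a4, 4), (0x52768490, 4), (0x326190a8, 4), (0x537190a4, 4)]⟩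

def c_5175 : frmChk tA tA F_5175 = true := by decide +kernel

def r_5175_0 : chkL rootF engF2 tA tA sA_441 sA_441 4 F_5175 [(511, 0, 0)]
    0x106c56 = true := by
  decide +kernel

theorem f_5175 (h : TabsF) : FrameF repsF 441 F_5175.f :=
  frame_of rfl c_5175 (runs_of engOK r_5175_0) (by decide +kernel) h.1 h.1

def F_5176 : FrX :=
  ⟨0x80080a000804040e000021010020010000020408a000080804002840088008200002600008202020a01004020182004020201000a082002002011008200,
    0xa6, 1, 0x2040546390a6, 6,
    [(0xa6, 1), (0x205396a8, 4), (0x10548796, 4), (0x214396a7, 4), (0x205396a8, 4), (0x10548796, 4)],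
    [(0x2040546390a6, 6), (0x728590a6, 4), (0x435291a7, 4), (0x437286a5, 4), (0x435291a7, 4), (0x107682a5, 4), (0x436590a8, 4), (0x437286a5, 4), (0x436590a8, 4), (0x758691a2, 4), (0x437286a5, 4), (0x107682a5, 4)]⟩

def c_5176 : frmChk tA tB F_5176 = true := by decide +kernel

def r_5176_0 : chkL rootF engF2 tA tB sA_441 sB_441 4 F_5176 [(511, 0, 0)]
    0x1 = true := by
  decide +kernel

theorem f_5176 (h : TabsF) : FrameF repsF 441 F_5176.f :=
  frame_of rfl c_5176 (runs_of engOK r_5176_0) (by decide +kernel) h.1 h.2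

def F_5177 : FrX :=
  ⟨0x482000044040440000c2040020009000182040020001100100080140014041200200080400085020022008084801802008001210100200140200010201,
    0xa0, 1, 0x2143618194a2, 6,
    [(0xa0, 1), (0x538690a2, 4), (0x548790a1, 4), (0x21437690, 4), (0x538690a2, 4), (0x548790a1, 4)],
    [(0x2143618194a2, 6), (0x315462a0, 4), (0x31768095, 4), (0x317294a8, 4), (0x315462a0, 4), (0x31768095, 4)]⟩

def c_5177 : frmChk tA tA F_5177 = true := by decide +kernel

def r_5177_0 : chkL rootF engF2 tA tA sA_441 sA_441 4 F_5177 [(511, 0, 0)]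
    0x1 = true := by
  decide +kernel

theorem f_5177 (h : TabsF) : FrameF repsF 441 F_5177.f :=
  frame_of rfl c_5177 (runs_of engOK r_5177_0) (by decide +kernel) h.1 h.1

def F_5178 : FrX :=
  ⟨0x2002000900044004000e02041000141000800040800a0804800840000801040014008101008002000220022050004800020103800220020044004210000c,
    0xa3, 1, 0x203051607186a1, 7,
    [(0xa3, 1), (0x208693a5, 4), (0x10548793, 4), (0x217693a4, 4), (0x208693a5, 4), (0x10548793, 4)],
    [(0x203051607186a1, 7), (0x21608397, 4), (0x415397a6, 4), (0x428597a0, 4), (0x21608397, 4), (0x415397a6, 4)]⟩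

def c_5178 : frmChk tA tA F_5178 = true := by decide +kernel

def r_5178_0 : chkL rootF engF2 tA tA sA_441 sA_441 4 F_5178 [(511, 0, 0)]
    0x1 = true := by
  decide +kernel

theorem f_5178 (h : TabsF) : FrameF repsF 441 F_5178.f :=
  frame_of rfl c_5178 (runs_of engOK r_5178_0) (by decide +kernel) h.1 h.1

def F_5179 : FrX :=
  ⟨0x80080a000804040e000021010020010000020408a0000802200400809040080141010000028010112004800400182801004003004001000441110008010,
    0xa6, 1, 0x4354617293a1, 6,
    [(0xa6, 1), (0x205396a8, 4), (0x10548796, 4), (0x214396a7, 4), (0x205396a8, 4), (0x10548796, 4)],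
    [(0x4354617293a1, 6), (0x32708591, 4), (0x215364a0, 4), (0x32516498, 4), (0x215364a0, 4), (0x518392a7, 4), (0x64708195, 4), (0x32516498, 4), (0x64708195, 4), (0x315298a0, 4), (0x32516498, 4), (0x518392a7, 4)]⟩

def c_5179 : frmChk tA tB F_5179 = true := by decide +kernel

def r_5179_0 : chkL rootF engF2 tA tB sA_441 sB_441 4 F_5179 [(511, 0, 0)]
    0x1 = true := by
  decide +kernel

theorem f_5179 (h : TabsF) : FrameF repsF 441 F_5179.f :=
  frame_of rfl c_5179 (runs_of engOK r_5179_0) (by decide +kernel) h.1 h.2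

def F_5180 : FrX :=
  ⟨0x2002000900044004000e02041000141000800040800400228081204002000c00040081010100010802020280600010001100081084000210480602400001,
    0xa3, 1, 0x213060728293a3, 7,
    [(0xa3, 1), (0x208693a5, 4), (0x10548793, 4), (0x217693a4, 4), (0x208693a5, 4), (0x10548793, 4)],
    [(0x213060728293a3, 7), (0x738690a5, 4), (0x54627190, 4), (0x318290a4, 4), (0x738690a5, 4), (0x54627190, 4)]⟩

def c_5180 : frmChk tA tA F_5180 = true := by decide +kernel

def r_5180_0 : chkL rootF engF2 tA tA sA_441 sA_441 4 F_5180 [(511, 0, 0)]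
    0x1 = true := by
  decide +kernel

theorem f_5180 (h : TabsF) : FrameF repsF 441 F_5180.f :=
  frame_of rfl c_5180 (runs_of engOK r_5180_0) (by decide +kernel) h.1 h.1

def F_5181 : FrX :=
  ⟨0x80080a000804040e00002101002001000002040890020001408010808810004004081020022c00009010020200040400242000022002220082025000200,
    0xa6, 1, 0x3051647298a6, 6,
    [(0xa6, 1), (0x205396a8, 4), (0x10548796, 4), (0x214396a7, 4), (0x205396a8, 4), (0x10548796, 4)],
    [(0x3051647298a6, 6), (0x107384a9, 4), (0x53618492, 4), (0x607584a2, 4), (0x107384a9, 4), (0x53618492, 4)]⟩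

def c_5181 : frmChk tA tA F_5181 = true := by decide +kernel

def r_5181_0 : chkL rootF engF2 tA tA sA_441 sA_441 4 F_5181 [(511, 0, 0)]
    0x1 = true := by
  decide +kernel

theorem f_5181 (h : TabsF) : FrameF repsF 441 F_5181.f :=
  frame_of rfl c_5181 (runs_of engOK r_5181_0) (by decide +kernel) h.1 h.1

def F_5182 : FrX :=
  ⟨0x482000044040440000c2040020009000182040010040100101000180020802808080400804040142020280012008440014008000600202002040010410,
    0xa0, 1, 0x2151718094a8, 6,
    [(0xa0, 1), (0x538690a2, 4), (0x548790a1, 4), (0x21437690, 4), (0x538690a2, 4), (0x548790a1, 4)],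
    [(0x2151718094a8, 6), (0x526381a9, 4), (0x40658792, 4), (0x405296a3, 4), (0x40658792, 4), (0x537196a2, 4), (0x408193a6, 4), (0x405296a3, 4), (0x408193a6, 4), (0x628795a3, 4), (0x405296a3, 4), (0x537196a2, 4)]⟩

def c_5182 : frmChk tA tB F_5182 = true := by decide +kernel

def r_5182_0 : chkL rootF engF2 tA tB sA_441 sB_441 4 F_5182 [(511, 0, 0)]
    0x45c1705c = true := by
  decide +kernel

theorem f_5182 (h : TabsF) : FrameF repsF 441 F_5182.f :=
  frame_of rfl c_5182 (runs_of engOK r_5182_0) (by decide +kernel) h.1 h.2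

def F_5183 : FrX :=
  ⟨0x482000044040440000c2040020009000182040008081000104090004010041200202001020080120012008084820008008001210300200101200010201,
    0xa0, 1, 0x104152738090a2, 7,
    [(0xa0, 1), (0x538690a2, 4), (0x548790a1, 4), (0x21437690, 4), (0x538690a2, 4), (0x548790a1, 4)],
    [(0x104152738090a2, 7), (0x617285a9, 4), (0x20318594, 4), (0x637085a4, 4), (0x617285a9, 4), (0x20318594, 4)]⟩

def c_5183 : frmChk tA tA F_5183 = true := by decide +kernel

def r_5183_0 : chkL rootF engF2 tA tA sA_441 sA_441 4 F_5183 [(511, 0, 0)]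
    0x1 = true := by
  decide +kernel

theorem f_5183 (h : TabsF) : FrameF repsF 441 F_5183.f :=
  frame_of rfl c_5183 (runs_of engOK r_5183_0) (by decide +kernel) h.1 h.1

def F_5184 : FrX :=
  ⟨0x80080a000804040e00002101002001000002040880600002804400400080080048212020004040242102800400040440201108001003002400210080010,
    0xa6, 1, 0x2132508492a1, 6,
    [(0xa6, 1), (0x205396a8, 4), (0x10548796, 4), (0x214396a7, 4), (0x205396a8, 4), (0x10548796, 4)],
    [(0x2132508492a1, 6), (0x61708495, 4), (0x327680a5, 4), (0x32417086, 4), (0x327680a5, 4), (0x407186a9, 4), (0x32648195, 4), (0x32417086, 4), (0x32648195, 4), (0x416087a5, 4), (0x32417086, 4), (0x407186a9, 4)]⟩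

def c_5184 : frmChk tA tB F_5184 = true := by decide +kernel

def r_5184_0 : chkL rootF engF2 tA tB sA_441 sB_441 4 F_5184 [(511, 0, 0)]
    0x1 = true := by
  decide +kernel

theorem f_5184 (h : TabsF) : FrameF repsF 441 F_5184.f :=
  frame_of rfl c_5184 (runs_of engOK r_5184_0) (by decide +kernel) h.1 h.2

def F_5185 : FrX :=
  ⟨0x1c21020000040440000020410001010000820408900800800010041004001010408080408020810220600304040088000880800108400010442000800c0,
    0x0, 0, 0x54647587, 4,
    [(0x0, 0), (0x205386a9, 4), (0x105487a9, 4), (0x214376a9, 4), (0x205386a9, 4), (0x105487a9, 4)],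
    [(0x54647587, 4), (0x20536487, 4), (0x107685a9, 4), (0x436587a9, 4), (0x107685a9, 4), (0x21657483, 4), (0x205463a9, 4), (0x436587a9, 4), (0x205463a9, 4), (0x10437586, 4), (0x436587a9, 4), (0x21657483, 4)]⟩

def c_5185 : frmChk tA tB F_5185 = true := by decide +kernel

def r_5185_0 : chkL rootF engF2 tA tB sA_441 sB_441 4 F_5185 [(511, 0, 0)]
    0x1 = true := by
  decide +kernel

theorem f_5185 (h : TabsF) : FrameF repsF 441 F_5185.f :=
  frame_of rfl c_5185 (runs_of engOK r_5185_0) (by decide +kernel) h.1 h.2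

def F_5186 : FrX :=
  ⟨0x80080a000804040e000021010020010000020408900800003040088084100010410004008020810220680004040028000410000108004010441010080c0,
    0xa6, 1, 0x4152708693a6, 6,
    [(0xa6, 1), (0x205396a8, 4), (0x10548796, 4), (0x214396a7, 4), (0x205396a8, 4), (0x10548796, 4)],
    [(0x4152708693a6, 6), (0x758392a6, 4), (0x21607483, 4), (0x548391a0, 4), (0x758392a6, 4), (0x21607483, 4)]⟩

def c_5186 : frmChk tA tA F_5186 = true := by decide +kernel

def r_5186_0 : chkL rootF engF2 tA tA sA_441 sA_441 4 F_5186 [(511, 0, 0)]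
    0x1 = true := by
  decide +kernel

theorem f_5186 (h : TabsF) : FrameF repsF 441 F_5186.f :=
  frame_of rfl c_5186 (runs_of engOK r_5186_0) (by decide +kernel) h.1 h.1

def F_5187 : FrX :=
  ⟨0x80080a000804040e00002101002001000002040881200002208028000084084040010810402058002020800600002001004010084003002400110008018,
    0xa6, 1, 0x314250648297a8, 7,
    [(0xa6, 1), (0x205396a8, 4), (0x10548796, 4), (0x214396a7, 4), (0x205396a8, 4), (0x10548796, 4)],
    [(0x314250648297a8, 7), (0x218590a6, 4), (0x53607492, 4), (0x627490a1, 4), (0x53607492, 4), (0x628391a0, 4), (0x617485a2, 4), (0x627490a1, 4), (0x617485a2, 4), (0x205396a1, 4), (0x627490a1, 4), (0x628391a0, 4)]⟩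

def c_5187 : frmChk tA tB F_5187 = true := by decide +kernel

def r_5187_0 : chkL rootF engF2 tA tB sA_441 sB_441 4 F_5187 [(511, 0, 0)]
    0x1 = true := by
  decide +kernel

theorem f_5187 (h : TabsF) : FrameF repsF 441 F_5187.f :=
  frame_of rfl c_5187 (runs_of engOK r_5187_0) (by decide +kernel) h.1 h.2

def F_5188 : FrX :=
  ⟨0x1001040012008080000e0084080041000810100004041008402001004300004008404200440220c12000081040000008880420200000084001a104000050,
    0xa3, 1, 0x4152638097a3, 6,
    [(0xa3, 1), (0x207584a6, 4), (0x10547693, 4), (0x647593a8, 4), (0x10547693, 4), (0x216485a7, 4), (0x208693a4, 4), (0x647593a8, 4), (0x208693a4, 4), (0x106574a8, 4), (0x647593a8, 4), (0x216485a7, 4)],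
    [(0x4152638097a3, 6), (0x108592a3, 4), (0x21768493, 4), (0x317692a0, 4), (0x21768493, 4), (0x203154a9, 4), (0x307685a1, 4), (0x317692a0, 4), (0x307685a1, 4), (0x328491a0, 4), (0x317692a0, 4), (0x203154a9, 4)]⟩

def c_5188 : frmChk tB tB F_5188 = true := by decide +kernel

def r_5188_0 : chkL rootF engF2 tB tB sB_441 sB_441 4 F_5188 [(511, 0, 0)]
    0x1 = true := by
  decide +kernel

theorem f_5188 (h : TabsF) : FrameF repsF 441 F_5188.f :=
  frame_of rfl c_5188 (runs_of engOK r_5188_0) (by decide +kernel) h.2 h.2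

theorem cl_441 (h : TabsF) : ∀ f ∈ fr_441, FrameF repsF 441 f :=
  List.forall_mem_cons.2 ⟨f_5173 h, List.forall_mem_cons.2 ⟨f_5174 h, List.forall_mem_cons.2 ⟨f_5175 h, List.forall_mem_cons.2 ⟨f_5176 h, List.forall_mem_cons.2 ⟨f_5177 h, List.forall_mem_cons.2 ⟨f_5178 h, List.forall_mem_cons.2 ⟨f_5179 h, List.forall_mem_cons.2 ⟨f_5180 h, List.forall_mem_cons.2 ⟨f_5181 h, List.forall_mem_cons.2 ⟨f_5182 h, List.forall_mem_cons.2 ⟨f_5183 h, List.forall_mem_cons.2 ⟨f_5184 h, List.forall_mem_cons.2 ⟨f_5185 h, List.forall_mem_cons.2 ⟨f_5186 h, List.forall_mem_cons.2 ⟨f_5187 h, List.forall_mem_cons.2 ⟨f_5188 h,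
    fun _ h0 => absurd h0 List.not_mem_nil⟩⟩⟩⟩⟩⟩⟩⟩⟩⟩⟩⟩⟩⟩⟩⟩

def F_5189 : FrX :=
  ⟨0x482000044040440000c20400200090001820400200010111000802200140500042000000220810200206020000a000a008010800400640100024000218,
    0xa0, 1, 0x324152657484a0, 7,
    [(0xa0, 1), (0x538690a2, 4), (0x548790a1, 4), (0x21437690, 4), (0x538690a2, 4), (0x548790a1, 4)],
    [(0x324152657484a0, 7), (0x627390a5, 4), (0x718690a4, 4), (0x31548290, 4), (0x627390a5, 4), (0x718690a4, 4)]⟩

def c_5189 : frmChk tA tA F_5189 = true := by decide +kernel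

def r_5189_0 : chkL rootF engF2 tA tA sA_442 sA_442 4 F_5189 [(511, 0, 0)]
    0x1 = true := by
  decide +kernel

theorem f_5189 (h : TabsF) : FrameF repsF 442 F_5189.f :=
  frame_of rfl c_5189 (runs_of engOK r_5189_0) (by decide +kernel) h.1 h.1

def F_5190 : FrX :=
  ⟨0x2002000900044004000e02041000141000800040800800300820010008020a0280008101008002081a000200202040040281018002200200002005012200,
    0xa3, 1, 0x20304051738291a0, 8,
    [(0xa3, 1), (0x208693a5, 4), (0x10548793, 4), (0x217693a4, 4), (0x208693a5, 4), (0x10548793, 4)],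
    [(0x20304051738291a0, 8), (0x546071a8, 4), (0x203154a9, 4), (0x54627398, 4), (0x546071a8, 4), (0x203154a9, 4)]⟩

def c_5190 : frmChk tA tA F_5190 = true := by decide +kernel

def r_5190_0 : chkL rootF engF2 tA tA sA_442 sA_442 4 F_5190 [(511, 0, 0)]
    0x1 = true := by
  decide +kernel

theorem f_5190 (h : TabsF) : FrameF repsF 442 F_5190.f :=
  frame_of rfl c_5190 (runs_of engOK r_5190_0) (by decide +kernel) h.1 h.1

def F_5191 : FrX :=
  ⟨0x482000044040440000c2040020009000182040000420500204080200010801800200050100010104200400210410000210023008100220002104011010,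
    0xa0, 1, 0x1030647482a1, 6,
    [(0xa0, 1), (0x538690a2, 4), (0x548790a1, 4), (0x21437690, 4), (0x538690a2, 4), (0x548790a1, 4)],
    [(0x1030647482a1, 6), (0x42518390, 4), (0x627590a3, 4), (0x647190a8, 4), (0x42518390, 4), (0x627590a3, 4)]⟩

def c_5191 : frmChk tA tA F_5191 = true := by decide +kernel

def r_5191_0 : chkL rootF engF2 tA tA sA_442 sA_442 4 F_5191 [(511, 0, 0)]
    0x1 = true := by
  decide +kernel

theorem f_5191 (h : TabsF) : FrameF repsF 442 F_5191.f :=
  frame_of rfl c_5191 (runs_of engOK r_5191_0) (by decide +kernel) h.1 h.1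

def F_5192 : FrX :=
  ⟨0x80080a000804040e00002101002001000002040890080006210000808800084004500000802080220001142000050002080310004000140340101000090,
    0xa6, 1, 0x2043536572a6, 6,
    [(0xa6, 1), (0x205396a8, 4), (0x10548796, 4), (0x214396a7, 4), (0x205396a8, 4), (0x10548796, 4)],
    [(0x2043536572a6, 6), (0x607283a5, 4), (0x216394a0, 4), (0x608594a3, 4), (0x216394a0, 4), (0x507186a3, 4), (0x537294a8, 4), (0x608594a3, 4), (0x537294a8, 4), (0x213085a6, 4), (0x608594a3, 4), (0x507186a3, 4)]⟩

def c_5192 : frmChk tA tB F_5192 = true := by decide +kernel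

def r_5192_0 : chkL rootF engF2 tA tB sA_442 sB_442 4 F_5192 [(511, 0, 0)]
    0x103c33 = true := by
  decide +kernel

theorem f_5192 (h : TabsF) : FrameF repsF 442 F_5192.f :=
  frame_of rfl c_5192 (runs_of engOK r_5192_0) (by decide +kernel) h.1 h.2

def F_5193 : FrX :=
  ⟨0x80080a000804040e00002101002001000002040882080800050020400800082002026020010110010041420204000040242001001003821000400008210,
    0xa6, 1, 0x3243526593a6, 6,
    [(0xa6, 1), (0x205396a8, 4), (0x10548796, 4), (0x214396a7, 4), (0x205396a8, 4), (0x10548796, 4)],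
    [(0x3243526593a6, 6), (0x435096a8, 4), (0x10436287, 4), (0x435192a7, 4), (0x435096a8, 4), (0x10436287, 4)]⟩

def c_5193 : frmChk tA tA F_5193 = true := by decide +kernel

def r_5193_0 : chkL rootF engF2 tA tA sA_442 sA_442 4 F_5193 [(511, 0, 0)]
    0x1 = true := by
  decide +kernel

theorem f_5193 (h : TabsF) : FrameF repsF 442 F_5193.f :=
  frame_of rfl c_5193 (runs_of engOK r_5193_0) (by decide +kernel) h.1 h.1

def F_5194 : FrX :=
  ⟨0x482000044040440000c2040020009000182040002102000101080100004048004a8000090208020200000a020490400010010040480408204420200008,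
    0xa0, 1, 0x315461748596a7, 7,
    [(0xa0, 1), (0x538690a2, 4), (0x548790a1, 4), (0x21437690, 4), (0x538690a2, 4), (0x548790a1, 4)],
    [(0x315461748596a7, 7), (0x20538194, 4), (0x536087a4, 4), (0x536271a9, 4), (0x20538194, 4), (0x536087a4, 4)]⟩

def c_5194 : frmChk tA tA F_5194 = true := by decide +kernel

def r_5194_0 : chkL rootF engF2 tA tA sA_442 sA_442 4 F_5194 [(511, 0, 0)]
    0x48d = true := by
  decide +kernel

theorem f_5194 (h : TabsF) : FrameF repsF 442 F_5194.f :=
  frame_of rfl c_5194 (runs_of engOK r_5194_0) (by decide +kernel) h.1 h.1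

def F_5195 : FrX :=
  ⟨0x80080a000804040e00002101002001000002040881200002204400100080080c0412001002004001a004182000050000200138001000904040110000210,
    0xa6, 1, 0x3043546193a1, 6,
    [(0xa6, 1), (0x205396a8, 4), (0x10548796, 4), (0x214396a7, 4), (0x205396a8, 4), (0x10548796, 4)],
    [(0x3043546193a1, 6), (0x32708591, 4), (0x506471a3, 4), (0x51647098, 4), (0x506471a3, 4), (0x518097a2, 4), (0x32648195, 4), (0x51647098, 4), (0x32648195, 4), (0x107598a3, 4), (0x51647098, 4), (0x518097a2, 4)]⟩

def c_5195 : frmChk tA tB F_5195 = true := by decide +kernel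

def r_5195_0 : chkL rootF engF2 tA tB sA_442 sB_442 4 F_5195 [(511, 0, 0)]
    0x1 = true := by
  decide +kernel

theorem f_5195 (h : TabsF) : FrameF repsF 442 F_5195.f :=
  frame_of rfl c_5195 (runs_of engOK r_5195_0) (by decide +kernel) h.1 h.2

def F_5196 : FrX :=
  ⟨0x482000044040440000c2040020009000182040001101002002200030004022008600001028000102000405012208208040008280a00202002010800002,
    0xa0, 1, 0x103162718292a6, 7,
    [(0xa0, 1), (0x538690a2, 4), (0x548790a1, 4), (0x21437690, 4), (0x538690a2, 4), (0x548790a1, 4)],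
    [(0x103162718292a6, 7), (0x508291a6, 4), (0x54637182, 4), (0x408297a3, 4), (0x508291a6, 4), (0x54637182, 4)]⟩

def c_5196 : frmChk tA tA F_5196 = true := by decide +kernel

def r_5196_0 : chkL rootF engF2 tA tA sA_442 sA_442 4 F_5196 [(511, 0, 0)]
    0x103c0f = true := by
  decide +kernel

theorem f_5196 (h : TabsF) : FrameF repsF 442 F_5196.f :=
  frame_of rfl c_5196 (runs_of engOK r_5196_0) (by decide +kernel) h.1 h.1

def F_5197 : FrX :=
  ⟨0x80080a000804040e0000210100200100000204089020020810401000801200404008041000008400230810082000102084200102001020c000a02020010,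
    0xa6, 1, 0x102141657180a5, 7,
    [(0xa6, 1), (0x205396a8, 4), (0x10548796, 4), (0x214396a7, 4), (0x205396a8, 4), (0x10548796, 4)],
    [(0x102141657180a5, 7), (0x518096a3, 4), (0x418796a2, 4), (0x32547096, 4), (0x518096a3, 4), (0x418796a2, 4)]⟩

def c_5197 : frmChk tA tA F_5197 = true := by decide +kernel

def r_5197_0 : chkL rootF engF2 tA tA sA_442 sA_442 4 F_5197 [(511, 0, 0)]
    0x1 = true := by
  decide +kernel

theorem f_5197 (h : TabsF) : FrameF repsF 442 F_5197.f :=
  frame_of rfl c_5197 (runs_of engOK r_5197_0) (by decide +kernel) h.1 h.1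

def F_5198 : FrX :=
  ⟨0x2002000900044004000e0204100014100080004080040028110120400080a0020000041041020804800202000280200080000a0010802086040a10040200,
    0xa3, 1, 0x103241536280a4, 7,
    [(0xa3, 1), (0x208693a5, 4), (0x10548793, 4), (0x217693a4, 4), (0x208693a5, 4), (0x10548793, 4)],
    [(0x103241536280a4, 7), (0x537286a1, 4), (0x738490a2, 4), (0x517290a3, 4), (0x738490a2, 4), (0x216475a3, 4), (0x318690a5, 4), (0x517290a3, 4), (0x318690a5, 4), (0x325184a7, 4), (0x517290a3, 4), (0x216475a3, 4)]⟩

def c_5198 : frmChk tA tB F_5198 = true := by decide +kernel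

def r_5198_0 : chkL rootF engF2 tA tB sA_442 sB_442 4 F_5198 [(511, 0, 0)]
    0x1 = true := by
  decide +kernel

theorem f_5198 (h : TabsF) : FrameF repsF 442 F_5198.f :=
  frame_of rfl c_5198 (runs_of engOK r_5198_0) (by decide +kernel) h.1 h.2

def F_5199 : FrX :=
  ⟨0x2002000900044004000e02041000141000800040801002020210040100204041040201004022000812100012020410000280110041080008004101408040,
    0xa3, 1, 0x3154728096a3, 6,
    [(0xa3, 1), (0x208693a5, 4), (0x10548793, 4), (0x217693a4, 4), (0x208693a5, 4), (0x10548793, 4)],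
    [(0x3154728096a3, 6), (0x618790a4, 4), (0x20546183, 4), (0x617392a5, 4), (0x618790a4, 4), (0x20546183, 4)]⟩

def c_5199 : frmChk tA tA F_5199 = true := by decide +kernel

def r_5199_0 : chkL rootF engF2 tA tA sA_442 sA_442 4 F_5199 [(511, 0, 0)]
    0x1 = true := by
  decide +kernel

theorem f_5199 (h : TabsF) : FrameF repsF 442 F_5199.f :=
  frame_of rfl c_5199 (runs_of engOK r_5199_0) (by decide +kernel) h.1 h.1

def F_5200 : FrX :=
  ⟨0x2002000900044004000e0204100014100080004080101a080020002100024001040001110100004802000030822000021900082040048008004840084040,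
    0xa3, 1, 0x10627283a2, 5,
    [(0xa3, 1), (0x208693a5, 4), (0x10548793, 4), (0x217693a4, 4), (0x208693a5, 4), (0x10548793, 4)],
    [(0x10627283a2, 5), (0x436582a1, 4), (0x10546297, 4), (0x42658397, 4), (0x10546297, 4), (0x425386a0, 4), (0x328497a1, 4), (0x42658397, 4), (0x328497a1, 4), (0x10526483, 4), (0x42658397, 4), (0x425386a0, 4)]⟩

def c_5200 : frmChk tA tB F_5200 = true := by decide +kernel

def r_5200_0 : chkL rootF engF2 tA tB sA_442 sB_442 4 F_5200 [(511, 0, 0)]
    0x1 = true := by
  decide +kernel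

theorem f_5200 (h : TabsF) : FrameF repsF 442 F_5200.f :=
  frame_of rfl c_5200 (runs_of engOK r_5200_0) (by decide +kernel) h.1 h.2

def F_5201 : FrX :=
  ⟨0x80080a000804040e000021010020010000020408a0001001100090020242001000034000041081010048041002420040201001210080408004101008080,
    0xa6, 1, 0x2160748395a6, 6,
    [(0xa6, 1), (0x205396a8, 4), (0x10548796, 4), (0x214396a7, 4), (0x205396a8, 4), (0x10548796, 4)],
    [(0x2160748395a6, 6), (0x506198a3, 4), (0x43506297, 4), (0x215087a4, 4), (0x506198a3, 4), (0x43506297, 4)]⟩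

def c_5201 : frmChk tA tA F_5201 = true := by decide +kernel

def r_5201_0 : chkL rootF engF2 tA tA sA_442 sA_442 4 F_5201 [(511, 0, 0)]
    0x1 = true := by
  decide +kernel

theorem f_5201 (h : TabsF) : FrameF repsF 442 F_5201.f :=
  frame_of rfl c_5201 (runs_of engOK r_5201_0) (by decide +kernel) h.1 h.1

def F_5202 : FrX :=
  ⟨0x2002000900044004000e02041000141000800040800801021108024002000240200088020008008009400406200000101100800054010220008024400201,
    0xa3, 1, 0x3151607680a3, 6,
    [(0xa3, 1), (0x208693a5, 4), (0x10548793, 4), (0x217693a4, 4), (0x208693a5, 4), (0x10548793, 4)],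
    [(0x3151607680a3, 6), (0x306482a7, 4), (0x43708591, 4), (0x307491a6, 4), (0x43708591, 4), (0x526374a0, 4), (0x768291a4, 4), (0x307491a6, 4), (0x768291a4, 4), (0x407385a6, 4), (0x307491a6, 4), (0x526374a0, 4)]⟩

def c_5202 : frmChk tA tB F_5202 = true := by decide +kernel

def r_5202_0 : chkL rootF engF2 tA tB sA_442 sB_442 4 F_5202 [(511, 0, 0)]
    0x1 = true := by
  decide +kernel

theorem f_5202 (h : TabsF) : FrameF repsF 442 F_5202.f :=
  frame_of rfl c_5202 (runs_of engOK r_5202_0) (by decide +kernel) h.1 h.2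

def F_5203 : FrX :=
  ⟨0x80080a000804040e000021010020010000020408a000100404009002104008210002400040004840901400010220114000200201400082000a011008200,
    0xa6, 1, 0x2040617097a1, 6,
    [(0xa6, 1), (0x205396a8, 4), (0x10548796, 4), (0x214396a7, 4), (0x205396a8, 4), (0x10548796, 4)],
    [(0x2040617097a1, 6), (0x31708295, 4), (0x526491a7, 4), (0x21648395, 4), (0x526491a7, 4), (0x218593a0, 4), (0x32647081, 4), (0x21648395, 4), (0x32647081, 4), (0x518392a7, 4), (0x21648395, 4), (0x218593a0, 4)]⟩

def c_5203 : frmChk tA tB F_5203 = true := by decide +kernel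

def r_5203_0 : chkL rootF engF2 tA tB sA_442 sB_442 4 F_5203 [(511, 0, 0)]
    0x41b = true := by
  decide +kernel

theorem f_5203 (h : TabsF) : FrameF repsF 442 F_5203.f :=
  frame_of rfl c_5203 (runs_of engOK r_5203_0) (by decide +kernel) h.1 h.2

def F_5204 : FrX :=
  ⟨0x1001040012008080000e00840800410008101000040410084020010043000040084042004200010120013808000400414040200108000808105000202080,
    0xa3, 1, 0x4152638097a3, 6,
    [(0xa3, 1), (0x207584a6, 4), (0x10547693, 4), (0x647593a8, 4), (0x10547693, 4), (0x216485a7, 4), (0x208693a4, 4), (0x647593a8, 4), (0x208693a4, 4), (0x106574a8, 4), (0x647593a8, 4), (0x216485a7, 4)],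
    [(0x4152638097a3, 6), (0x108592a3, 4), (0x21768493, 4), (0x317692a0, 4), (0x21768493, 4), (0x203154a9, 4), (0x307685a1, 4), (0x317692a0, 4), (0x307685a1, 4), (0x328491a0, 4), (0x317692a0, 4), (0x203154a9, 4)]⟩

def c_5204 : frmChk tB tB F_5204 = true := by decide +kernel

def r_5204_0 : chkL rootF engF2 tB tB sB_442 sB_442 4 F_5204 [(511, 0, 0)]
    0x1 = true := by
  decide +kernel

theorem f_5204 (h : TabsF) : FrameF repsF 442 F_5204.f :=
  frame_of rfl c_5204 (runs_of engOK r_5204_0) (by decide +kernel) h.2 h.2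

theorem cl_442 (h : TabsF) : ∀ f ∈ fr_442, FrameF repsF 442 f :=
  List.forall_mem_cons.2 ⟨f_5189 h, List.forall_mem_cons.2 ⟨f_5190 h, List.forall_mem_cons.2 ⟨f_5191 h, List.forall_mem_cons.2 ⟨f_5192 h, List.forall_mem_cons.2 ⟨f_5193 h, List.forall_mem_cons.2 ⟨f_5194 h, List.forall_mem_cons.2 ⟨f_5195 h, List.forall_mem_cons.2 ⟨f_5196 h, List.forall_mem_cons.2 ⟨f_5197 h, List.forall_mem_cons.2 ⟨f_5198 h, List.forall_mem_cons.2 ⟨f_5199 h, List.forall_mem_cons.2 ⟨f_5200 h, List.forall_mem_cons.2 ⟨f_5201 h, List.forall_mem_cons.2 ⟨f_5202 h, List.forall_mem_cons.2 ⟨f_5203 h, List.forall_mem_cons.2 ⟨f_5204 h,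
    fun _ h0 => absurd h0 List.not_mem_nil⟩⟩⟩⟩⟩⟩⟩⟩⟩⟩⟩⟩⟩⟩⟩⟩

def F_5205 : FrX :=
  ⟨0x80080a000804040e000021010020010000020408822000040600100084410010400420100400a120004800044400004024100101000042020c101008080,
    0xa6, 1, 0x50708190a6, 5,
    [(0xa6, 1), (0x205396a8, 4), (0x10548796, 4), (0x214396a7, 4), (0x205396a8, 4), (0x10548796, 4)],
    [(0x50708190a6, 5), (0x307692a1, 4), (0x40517698, 4), (0x437682a5, 4), (0x307692a1, 4), (0x40517698, 4)]⟩

def c_5205 : frmChk tA tA F_5205 = true := by decide +kernel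

def r_5205_0 : chkL rootF engF2 tA tA sA_443 sA_443 4 F_5205 [(511, 0, 0)]
    0x1 = true := by
  decide +kernel

theorem f_5205 (h : TabsF) : FrameF repsF 443 F_5205.f :=
  frame_of rfl c_5205 (runs_of engOK r_5205_0) (by decide +kernel) h.1 h.1

def F_5206 : FrX :=
  ⟨0x482000044040440000c20400200090001820400020205000010801000111018002000501000841008204000c4001040100001210104120004008010208,
    0xa0, 1, 0x31405165758293a5, 8,
    [(0xa0, 1), (0x538690a2, 4), (0x548790a1, 4), (0x21437690, 4), (0x538690a2, 4), (0x548790a1, 4)],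
    [(0x31405165758293a5, 8), (0x327184a9, 4), (0x546271a0, 4), (0x63718590, 4), (0x327184a9, 4), (0x546271a0, 4)]⟩

def c_5206 : frmChk tA tA F_5206 = true := by decide +kernel

def r_5206_0 : chkL rootF engF2 tA tA sA_443 sA_443 4 F_5206 [(511, 0, 0)]
    0x1 = true := by
  decide +kernel

theorem f_5206 (h : TabsF) : FrameF repsF 443 F_5206.f :=
  frame_of rfl c_5206 (runs_of engOK r_5206_0) (by decide +kernel) h.1 h.1

def F_5207 : FrX :=
  ⟨0x2002000900044004000e02041000141000800040800401042010200010400a02008088020002080a0a000182000040040280090060200000802004210300,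
    0xa3, 1, 0x314352627195a2, 7,
    [(0xa3, 1), (0x208693a5, 4), (0x10548793, 4), (0x217693a4, 4), (0x208693a5, 4), (0x10548793, 4)],
    [(0x314352627195a2, 7), (0x628594a0, 4), (0x62708391, 4), (0x415362a7, 4), (0x628594a0, 4), (0x62708391, 4)]⟩

def c_5207 : frmChk tA tA F_5207 = true := by decide +kernel

def r_5207_0 : chkL rootF engF2 tA tA sA_443 sA_443 4 F_5207 [(511, 0, 0)]
    0x1 = true := by
  decide +kernel

theorem f_5207 (h : TabsF) : FrameF repsF 443 F_5207.f :=
  frame_of rfl c_5207 (runs_of engOK r_5207_0) (by decide +kernel) h.1 h.1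

def F_5208 : FrX :=
  ⟨0x80080a000804040e000021010020010000020408820802060200100080400840400120204200100100408006000820c0004001205003020001110008010,
    0xa6, 1, 0x647086a8, 4,
    [(0xa6, 1), (0x205396a8, 4), (0x10548796, 4), (0x214396a7, 4), (0x205396a8, 4), (0x10548796, 4)],
    [(0x647086a8, 4), (0x507283a6, 4), (0x65718094, 4), (0x508694a3, 4), (0x65718094, 4), (0x213086a5, 4), (0x637294a8, 4), (0x508694a3, 4), (0x637294a8, 4), (0x607185a3, 4), (0x508694a3, 4), (0x213086a5, 4)]⟩

def c_5208 : frmChk tA tB F_5208 = true := by decide +kernel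

def r_5208_0 : chkL rootF engF2 tA tB sA_443 sB_443 4 F_5208 [(511, 0, 0)]
    0x1 = true := by
  decide +kernel

theorem f_5208 (h : TabsF) : FrameF repsF 443 F_5208.f :=
  frame_of rfl c_5208 (runs_of engOK r_5208_0) (by decide +kernel) h.1 h.2

def F_5209 : FrX :=
  ⟨0x2002000900044004000e02041000141000800040811400082008002002000180140028010000040804240404440008000300082030005020208018002001,
    0xa3, 1, 0x20546183a3, 5,
    [(0xa3, 1), (0x208693a5, 4), (0x10548793, 4), (0x217693a4, 4), (0x208693a5, 4), (0x10548793, 4)],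
    [(0x20546183a3, 5), (0x203198a4, 4), (0x54627398, 4), (0x607198a5, 4), (0x203198a4, 4), (0x54627398, 4)]⟩

def c_5209 : frmChk tA tA F_5209 = true := by decide +kernel

def r_5209_0 : chkL rootF engF2 tA tA sA_443 sA_443 4 F_5209 [(511, 0, 0)]
    0x41d1702b22d85 = true := by
  decide +kernel

theorem f_5209 (h : TabsF) : FrameF repsF 443 F_5209.f :=
  frame_of rfl c_5209 (runs_of engOK r_5209_0) (by decide +kernel) h.1 h.1

def F_5210 : FrX :=
  ⟨0x482000044040440000c2040020009000182040002100404001020400000c04800880050020011010040028604001040100801204100220001002240008,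
    0xa0, 1, 0x4053768192a0, 6,
    [(0xa0, 1), (0x538690a2, 4), (0x548790a1, 4), (0x21437690, 4), (0x538690a2, 4), (0x548790a1, 4)],
    [(0x4053768192a0, 6), (0x425371a9, 4), (0x304261a8, 4), (0x42507698, 4), (0x425371a9, 4), (0x304261a8, 4)]⟩

def c_5210 : frmChk tA tA F_5210 = true := by decide +kernel

def r_5210_0 : chkL rootF engF2 tA tA sA_443 sA_443 4 F_5210 [(511, 0, 0)]
    0x1 = true := by
  decide +kernel

theorem f_5210 (h : TabsF) : FrameF repsF 443 F_5210.f :=
  frame_of rfl c_5210 (runs_of engOK r_5210_0) (by decide +kernel) h.1 h.1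

def F_5211 : FrX :=
  ⟨0x2002000900044004000e0204100014100080004081000004804800200a000420140081004008031010040620400008082100080284000220040042002001,
    0xa3, 1, 0x325465728791a0, 7,
    [(0xa3, 1), (0x208693a5, 4), (0x10548793, 4), (0x217693a4, 4), (0x208693a5, 4), (0x10548793, 4)],
    [(0x325465728791a0, 7), (0x425386a7, 4), (0x106584a9, 4), (0x10325486, 4), (0x106584a9, 4), (0x54638297, 4), (0x104352a7, 4), (0x10325486, 4), (0x104352a7, 4), (0x326485a9, 4), (0x10325486, 4), (0x54638297, 4)]⟩

def c_5211 : frmChk tA tB F_5211 = true := by decide +kernel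

def r_5211_0 : chkL rootF engF2 tA tB sA_443 sB_443 4 F_5211 [(511, 0, 0)]
    0x1 = true := by
  decide +kernel

theorem f_5211 (h : TabsF) : FrameF repsF 443 F_5211.f :=
  frame_of rfl c_5211 (runs_of engOK r_5211_0) (by decide +kernel) h.1 h.2

def F_5212 : FrX :=
  ⟨0x2002000900044004000e0204100014100080004081000420810080420101040004008080400200a002020280600002800081100080801000444202022002,
    0xa3, 1, 0x102040507582a6, 7,
    [(0xa3, 1), (0x208693a5, 4), (0x10548793, 4), (0x217693a4, 4), (0x208693a5, 4), (0x10548793, 4)],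
    [(0x102040507582a6, 7), (0x738596a1, 4), (0x41507296, 4), (0x328096a4, 4), (0x738596a1, 4), (0x41507296, 4)]⟩

def c_5212 : frmChk tA tA F_5212 = true := by decide +kernel

def r_5212_0 : chkL rootF engF2 tA tA sA_443 sA_443 4 F_5212 [(511, 0, 0)]
    0x50e09c27 = true := by
  decide +kernel

theorem f_5212 (h : TabsF) : FrameF repsF 443 F_5212.f :=
  frame_of rfl c_5212 (runs_of engOK r_5212_0) (by decide +kernel) h.1 h.1

def F_5213 : FrX :=
  ⟨0x2002000900044004000e0204100014100080004081000004220400811101004104000800080202880a020112000002800084042040080000044100020442,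
    0xa3, 1, 0x4351728094a0, 6,
    [(0xa3, 1), (0x208693a5, 4), (0x10548793, 4), (0x217693a4, 4), (0x208693a5, 4), (0x10548793, 4)],
    [(0x4351728094a0, 6), (0x416083a7, 4), (0x208391a5, 4), (0x62758394, 4), (0x416083a7, 4), (0x208391a5, 4)]⟩

def c_5213 : frmChk tA tA F_5213 = true := by decide +kernel

def r_5213_0 : chkL rootF engF2 tA tA sA_443 sA_443 4 F_5213 [(511, 0, 0)]
    0x1 = true := by
  decide +kernel

theorem f_5213 (h : TabsF) : FrameF repsF 443 F_5213.f :=
  frame_of rfl c_5213 (runs_of engOK r_5213_0) (by decide +kernel) h.1 h.1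

def F_5214 : FrX :=
  ⟨0x482000044040440000c204002000900018204000101110000420000402080200808421002004020202021021200400888000828003000a002200010002,
    0xa0, 1, 0x21408493a2, 5,
    [(0xa0, 1), (0x538690a2, 4), (0x548790a1, 4), (0x21437690, 4), (0x538690a2, 4), (0x548790a1, 4)],
    [(0x21408493a2, 5), (0x758096a4, 4), (0x31427685, 4), (0x31758690, 4), (0x31427685, 4), (0x508697a2, 4), (0x316098a4, 4), (0x31758690, 4), (0x316098a4, 4), (0x42658790, 4), (0x31758690, 4), (0x508697a2, 4)]⟩

def c_5214 : frmChk tA tB F_5214 = true := by decide +kernel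

def r_5214_0 : chkL rootF engF2 tA tB sA_443 sB_443 4 F_5214 [(511, 0, 0)]
    0x1 = true := by
  decide +kernel

theorem f_5214 (h : TabsF) : FrameF repsF 443 F_5214.f :=
  frame_of rfl c_5214 (runs_of engOK r_5214_0) (by decide +kernel) h.1 h.2

def F_5215 : FrX :=
  ⟨0x2002000900044004000e020410001410008000408010002820014001010201000400180502120208020200100220040404002020108400080042100a2000,
    0xa3, 1, 0x2150657396a2, 6,
    [(0xa3, 1), (0x208693a5, 4), (0x10548793, 4), (0x217693a4, 4), (0x208693a5, 4), (0x10548793, 4)],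
    [(0x2150657396a2, 6), (0x107698a5, 4), (0x10526483, 4), (0x107493a2, 4), (0x107698a5, 4), (0x10526483, 4)]⟩

def c_5215 : frmChk tA tA F_5215 = true := by decide +kernel

def r_5215_0 : chkL rootF engF2 tA tA sA_443 sA_443 4 F_5215 [(511, 0, 0)]
    0x46c = true := by
  decide +kernel

theorem f_5215 (h : TabsF) : FrameF repsF 443 F_5215.f :=
  frame_of rfl c_5215 (runs_of engOK r_5215_0) (by decide +kernel) h.1 h.1

def F_5216 : FrX :=
  ⟨0x482000044040440000c2040020009000182040001101002020000804200c100080c0004022001006020010600080800284000206080402000802800808,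
    0xa0, 1, 0x104161718297a1, 7,
    [(0xa0, 1), (0x538690a2, 4), (0x548790a1, 4), (0x21437690, 4), (0x538690a2, 4), (0x548790a1, 4)],
    [(0x104161718297a1, 7), (0x42537681, 4), (0x507692a1, 4), (0x307694a8, 4), (0x42537681, 4), (0x507692a1, 4)]⟩

def c_5216 : frmChk tA tA F_5216 = true := by decide +kernel

def r_5216_0 : chkL rootF engF2 tA tA sA_443 sA_443 4 F_5216 [(511, 0, 0)]
    0x1 = true := by
  decide +kernel

theorem f_5216 (h : TabsF) : FrameF repsF 443 F_5216.f :=
  frame_of rfl c_5216 (runs_of engOK r_5216_0) (by decide +kernel) h.1 h.1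

def F_5217 : FrX :=
  ⟨0x80080a000804040e0000210100200100000204088220000110140040402400004888000082200800a0300202040088000c2000022002202002003000402,
    0xa6, 1, 0x2141728197a1, 6,
    [(0xa6, 1), (0x205396a8, 4), (0x10548796, 4), (0x214396a7, 4), (0x205396a8, 4), (0x10548796, 4)],
    [(0x2141728197a1, 6), (0x42637095, 4), (0x528196a0, 4), (0x43628195, 4), (0x528196a0, 4), (0x546293a7, 4), (0x32647081, 4), (0x43628195, 4), (0x32647081, 4), (0x436592a0, 4), (0x43628195, 4), (0x546293a7, 4)]⟩

def c_5217 : frmChk tA tB F_5217 = true := by decide +kernel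

def r_5217_0 : chkL rootF engF2 tA tB sA_443 sB_443 4 F_5217 [(511, 0, 0)]
    0x1 = true := by
  decide +kernel

theorem f_5217 (h : TabsF) : FrameF repsF 443 F_5217.f :=
  frame_of rfl c_5217 (runs_of engOK r_5217_0) (by decide +kernel) h.1 h.2

def F_5218 : FrX :=
  ⟨0x482000044040440000c20400200090001820400010102180042000040208080108001009020004800008402030200100000a020a004402100a02001004,
    0xa0, 1, 0x314251627483a0, 7,
    [(0xa0, 1), (0x538690a2, 4), (0x548790a1, 4), (0x21437690, 4), (0x538690a2, 4), (0x548790a1, 4)],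
    [(0x314251627483a0, 7), (0x418390a6, 4), (0x217390a5, 4), (0x42658790, 4), (0x418390a6, 4), (0x217390a5, 4)]⟩

def c_5218 : frmChk tA tA F_5218 = true := by decide +kernel

def r_5218_0 : chkL rootF engF2 tA tA sA_443 sA_443 4 F_5218 [(511, 0, 0)]
    0x1 = true := by
  decide +kernel

theorem f_5218 (h : TabsF) : FrameF repsF 443 F_5218.f :=
  frame_of rfl c_5218 (runs_of engOK r_5218_0) (by decide +kernel) h.1 h.1

def F_5219 : FrX :=
  ⟨0x482000044040440000c2040020009000182040001012080010400804000c00030820000902000422000006080610002000086010040440000a10800048,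
    0xa0, 1, 0x3062718095a0, 6,
    [(0xa0, 1), (0x538690a2, 4), (0x548790a1, 4), (0x21437690, 4), (0x538690a2, 4), (0x548790a1, 4)],
    [(0x3062718095a0, 6), (0x204391a6, 4), (0x218594a7, 4), (0x30428591, 4), (0x218594a7, 4), (0x10427693, 4), (0x324085a6, 4), (0x30428591, 4), (0x324085a6, 4), (0x304192a7, 4), (0x30428591, 4), (0x10427693, 4)]⟩

def c_5219 : frmChk tA tB F_5219 = true := by decide +kernel

def r_5219_0 : chkL rootF engF2 tA tB sA_443 sB_443 4 F_5219 [(511, 0, 0)]
    0x1 = true := by
  decide +kernel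

theorem f_5219 (h : TabsF) : FrameF repsF 443 F_5219.f :=
  frame_of rfl c_5219 (runs_of engOK r_5219_0) (by decide +kernel) h.1 h.2

def F_5220 : FrX :=
  ⟨0x80080a000804040e0000210100200100000204089008000031000018020040800901400100204812000180200841000104006001001800a000900440080,
    0xa6, 1, 0x304161718298a0, 7,
    [(0xa6, 1), (0x205396a8, 4), (0x10548796, 4), (0x214396a7, 4), (0x205396a8, 4), (0x10548796, 4)],
    [(0x304161718298a0, 7), (0x325094a8, 4), (0x325196a7, 4), (0x10326487, 4), (0x325094a8, 4), (0x325196a7, 4)]⟩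

def c_5220 : frmChk tA tA F_5220 = true := by decide +kernel

def r_5220_0 : chkL rootF engF2 tA tA sA_443 sA_443 4 F_5220 [(511, 0, 0)]
    0x1 = true := by
  decide +kernel

theorem f_5220 (h : TabsF) : FrameF repsF 443 F_5220.f :=
  frame_of rfl c_5220 (runs_of engOK r_5220_0) (by decide +kernel) h.1 h.1

def F_5221 : FrX :=
  ⟨0x80080a000804040e0000210100200100000204089008000030400140022000204a000401008008480810081014010080040048022000402100c80200080,
    0xa6, 1, 0x3250718597a6, 6,
    [(0xa6, 1), (0x205396a8, 4), (0x10548796, 4), (0x214396a7, 4), (0x205396a8, 4), (0x10548796, 4)],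
    [(0x3250718597a6, 6), (0x536182a0, 4), (0x61758490, 4), (0x426173a9, 4), (0x536182a0, 4), (0x61758490, 4)]⟩

def c_5221 : frmChk tA tA F_5221 = true := by decide +kernel

def r_5221_0 : chkL rootF engF2 tA tA sA_443 sA_443 4 F_5221 [(511, 0, 0)]
    0x1 = true := by
  decide +kernel

theorem f_5221 (h : TabsF) : FrameF repsF 443 F_5221.f :=
  frame_of rfl c_5221 (runs_of engOK r_5221_0) (by decide +kernel) h.1 h.1

def F_5222 : FrX :=
  ⟨0x482000044040440000c204002000900018204001001010080080081002090820801001000c004102000810180410002010808008041040000a00011090,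
    0xa0, 1, 0x103140528297a3, 7,
    [(0xa0, 1), (0x538690a2, 4), (0x548790a1, 4), (0x21437690, 4), (0x538690a2, 4), (0x548790a1, 4)],
    [(0x103140528297a3, 7), (0x518492a6, 4), (0x21437096, 4), (0x617092a5, 4), (0x21437096, 4), (0x526183a9, 4), (0x657084a1, 4), (0x617092a5, 4), (0x657084a1, 4), (0x436291a5, 4), (0x617092a5, 4), (0x526183a9, 4)]⟩

def c_5222 : frmChk tA tB F_5222 = true := by decide +kernel

def r_5222_0 : chkL rootF engF2 tA tB sA_443 sB_443 4 F_5222 [(511, 0, 0)]
    0x1 = true := by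
  decide +kernel

theorem f_5222 (h : TabsF) : FrameF repsF 443 F_5222.f :=
  frame_of rfl c_5222 (runs_of engOK r_5222_0) (by decide +kernel) h.1 h.2

def F_5223 : FrX :=
  ⟨0x80080a000804040e000021010020010000020408a00008014004008088b000000408100008202080a210000204050400203010002000600042025000200,
    0xa6, 1, 0x304054647595a6, 7,
    [(0xa6, 1), (0x205396a8, 4), (0x10548796, 4), (0x214396a7, 4), (0x205396a8, 4), (0x10548796, 4)],
    [(0x304054647595a6, 7), (0x428693a0, 4), (0x417596a3, 4), (0x758093a6, 4), (0x417596a3, 4), (0x213098a6, 4), (0x426075a8, 4), (0x758093a6, 4), (0x426075a8, 4), (0x416380a9, 4), (0x758093a6, 4), (0x213098a6, 4)]⟩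

def c_5223 : frmChk tA tB F_5223 = true := by decide +kernel

def r_5223_0 : chkL rootF engF2 tA tB sA_443 sB_443 4 F_5223 [(511, 0, 0)]
    0x1 = true := by
  decide +kernel

theorem f_5223 (h : TabsF) : FrameF repsF 443 F_5223.f :=
  frame_of rfl c_5223 (runs_of engOK r_5223_0) (by decide +kernel) h.1 h.2

def F_5224 : FrX :=
  ⟨0x2002000900044004000e02041000141000800040801000282011a00000802002000022220002900020a00440400040040080090090a00200202050082000,
    0xa3, 1, 0x4252657398a3, 6,
    [(0xa3, 1), (0x208693a5, 4), (0x10548793, 4), (0x217693a4, 4), (0x208693a5, 4), (0x10548793, 4)],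
    [(0x4252657398a3, 6), (0x508794a6, 4), (0x10628793, 4), (0x435187a2, 4), (0x508794a6, 4), (0x10628793, 4)]⟩

def c_5224 : frmChk tA tA F_5224 = true := by decide +kernel

def r_5224_0 : chkL rootF engF2 tA tA sA_443 sA_443 4 F_5224 [(511, 0, 0)]
    0x1 = true := by
  decide +kernel

theorem f_5224 (h : TabsF) : FrameF repsF 443 F_5224.f :=
  frame_of rfl c_5224 (runs_of engOK r_5224_0) (by decide +kernel) h.1 h.1

def F_5225 : FrX :=
  ⟨0x2002000900044004000e020410001410008000408114000820080020020001801400280100000410002409110100080003000820300c0008100011082001,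
    0xa3, 1, 0x20546183a3, 5,
    [(0xa3, 1), (0x208693a5, 4), (0x10548793, 4), (0x217693a4, 4), (0x208693a5, 4), (0x10548793, 4)],
    [(0x20546183a3, 5), (0x203198a4, 4), (0x54627398, 4), (0x607198a5, 4), (0x203198a4, 4), (0x54627398, 4)]⟩

def c_5225 : frmChk tA tA F_5225 = true := by decide +kernel

def r_5225_0 : chkL rootF engF2 tA tA sA_443 sA_443 4 F_5225 [(511, 0, 0)]
    0x4271b027 = true := by
  decide +kernel

theorem f_5225 (h : TabsF) : FrameF repsF 443 F_5225.f :=
  frame_of rfl c_5225 (runs_of engOK r_5225_0) (by decide +kernel) h.1 h.1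

def F_5226 : FrX :=
  ⟨0x80080a000804040e000021010020010000020408a0000404200400808880085000100400202180220808000404050403004050010000100300100440080,
    0xa6, 1, 0x618195a8, 4,
    [(0xa6, 1), (0x205396a8, 4), (0x10548796, 4), (0x214396a7, 4), (0x205396a8, 4), (0x10548796, 4)],
    [(0x618195a8, 4), (0x203197a4, 4), (0x65718094, 4), (0x416597a3, 4), (0x65718094, 4), (0x417382a9, 4), (0x204365a1, 4), (0x416597a3, 4), (0x204365a1, 4), (0x748091a3, 4), (0x416597a3, 4), (0x417382a9, 4)]⟩

def c_5226 : frmChk tA tB F_5226 = true := by decide +kernel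

def r_5226_0 : chkL rootF engF2 tA tB sA_443 sB_443 4 F_5226 [(511, 0, 0)]
    0x1 = true := by
  decide +kernel

theorem f_5226 (h : TabsF) : FrameF repsF 443 F_5226.f :=
  frame_of rfl c_5226 (runs_of engOK r_5226_0) (by decide +kernel) h.1 h.2

def F_5227 : FrX :=
  ⟨0x1c404400000808100000084008041000010108404220010001008000400088022012800120000800840e900001088020010020460200084082000140200,
    0x0, 0, 0x43547583, 4,
    [(0x0, 0), (0x20637584, 4), (0x105476a9, 4), (0x647583a9, 4), (0x105476a9, 4), (0x21647385, 4), (0x204386a9, 4), (0x647583a9, 4), (0x204386a9, 4), (0x10657483, 4), (0x647583a9, 4), (0x21647385, 4)],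
    [(0x43547583, 4), (0x206487a9, 4), (0x104375a9, 4), (0x216385a9, 4), (0x206487a9, 4), (0x104375a9, 4)]⟩

def c_5227 : frmChk tB tA F_5227 = true := by decide +kernel

def r_5227_0 : chkL rootF engF2 tB tA sB_443 sA_443 4 F_5227 [(511, 0, 0)]
    0x1 = true := by
  decide +kernel

theorem f_5227 (h : TabsF) : FrameF repsF 443 F_5227.f :=
  frame_of rfl c_5227 (runs_of engOK r_5227_0) (by decide +kernel) h.2 h.1

def F_5228 : FrX :=
  ⟨0x600020801080810000c0040180410101001004004040440000400a08112000080400080880042094400100081010400800210100000800408700008108,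
    0xa0, 1, 0x30425465748692a6, 8,
    [(0xa0, 1), (0x637584a2, 4), (0x547690a1, 4), (0x64758390, 4), (0x547690a1, 4), (0x21647385, 4), (0x438690a2, 4), (0x64758390, 4), (0x438690a2, 4), (0x657483a1, 4), (0x64758390, 4), (0x21647385, 4)],
    [(0x30425465748692a6, 8), (0x608493a2, 4), (0x31527684, 4), (0x708491a5, 4), (0x608493a2, 4), (0x31527684, 4)]⟩

def c_5228 : frmChk tB tA F_5228 = true := by decide +kernel

def r_5228_0 : chkL rootF engF2 tB tA sB_443 sA_443 4 F_5228 [(511, 0, 0)]
    0x1 = true := by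
  decide +kernel

theorem f_5228 (h : TabsF) : FrameF repsF 443 F_5228.f :=
  frame_of rfl c_5228 (runs_of engOK r_5228_0) (by decide +kernel) h.2 h.1

def F_5229 : FrX :=
  ⟨0x1001040012008080000e00840800410008101000040410048001208000480022020000a081006010400501100100200040000844008a0800060001082080,
    0xa3, 1, 0x52658291a7, 5,
    [(0xa3, 1), (0x207584a6, 4), (0x10547693, 4), (0x647593a8, 4), (0x10547693, 4), (0x216485a7, 4), (0x208693a4, 4), (0x647593a8, 4), (0x208693a4, 4), (0x106574a8, 4), (0x647593a8, 4), (0x216485a7, 4)],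
    [(0x52658291a7, 5), (0x325480a6, 4), (0x647190a2, 4), (0x425371a6, 4), (0x647190a2, 4), (0x426598a3, 4), (0x43527180, 4), (0x425371a6, 4), (0x43527180, 4), (0x536290a4, 4), (0x425371a6, 4), (0x426598a3, 4)]⟩

def c_5229 : frmChk tB tB F_5229 = true := by decide +kernel

def r_5229_0 : chkL rootF engF2 tB tB sB_443 sB_443 4 F_5229 [(511, 0, 0)]
    0x1 = true := by
  decide +kernel

theorem f_5229 (h : TabsF) : FrameF repsF 443 F_5229.f :=
  frame_of rfl c_5229 (runs_of engOK r_5229_0) (by decide +kernel) h.2 h.2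

def F_5230 : FrX :=
  ⟨0x482000044040440000c2040020009000182040002022020001080100080101a002000711200800008000110840000403000012101c8100004000010208,
    0xa0, 1, 0x203043628492a3, 7,
    [(0xa0, 1), (0x538690a2, 4), (0x548790a1, 4), (0x21437690, 4), (0x538690a2, 4), (0x548790a1, 4)],
    [(0x203043628492a3, 7), (0x206493a5, 4), (0x31647285, 4), (0x647091a8, 4), (0x206493a5, 4), (0x31647285, 4)]⟩

def c_5230 : frmChk tA tA F_5230 = true := by decide +kernel

def r_5230_0 : chkL rootF engF2 tA tA sA_443 sA_443 4 F_5230 [(511, 0, 0)]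
    0x1 = true := by
  decide +kernel

theorem f_5230 (h : TabsF) : FrameF repsF 443 F_5230.f :=
  frame_of rfl c_5230 (runs_of engOK r_5230_0) (by decide +kernel) h.1 h.1

def F_5231 : FrX :=
  ⟨0x2002000900044004000e02041000141000800040800801041008022012000240200088034000009418000006001000000305202040001220040024000201,
    0xa3, 1, 0x2150628292a6, 6,
    [(0xa3, 1), (0x208693a5, 4), (0x10548793, 4), (0x217693a4, 4), (0x208693a5, 4), (0x10548793, 4)],
    [(0x2150628292a6, 6), (0x647095a3, 4), (0x405281a7, 4), (0x637081a4, 4), (0x405281a7, 4), (0x607392a4, 4), (0x438195a6, 4), (0x637081a4, 4), (0x438195a6, 4), (0x526374a0, 4), (0x637081a4, 4), (0x607392a4, 4)]⟩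

def c_5231 : frmChk tA tB F_5231 = true := by decide +kernel

def r_5231_0 : chkL rootF engF2 tA tB sA_443 sB_443 4 F_5231 [(511, 0, 0)]
    0x1 = true := by
  decide +kernel

theorem f_5231 (h : TabsF) : FrameF repsF 443 F_5231.f :=
  frame_of rfl c_5231 (runs_of engOK r_5231_0) (by decide +kernel) h.1 h.2

def F_5232 : FrX :=
  ⟨0x1c21020000040440000020410001010000820408a0001100000024200400a0200008807000003001a000404204800040300801008104020022004440200,
    0x0, 0, 0x21436575, 4,
    [(0x0, 0), (0x205386a9, 4), (0x105487a9, 4), (0x214376a9, 4), (0x205386a9, 4), (0x105487a9, 4)],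
    [(0x21436575, 4), (0x10547683, 4), (0x206573a9, 4), (0x537684a9, 4), (0x206573a9, 4), (0x21536487, 4), (0x104385a9, 4), (0x537684a9, 4), (0x104385a9, 4), (0x20637584, 4), (0x537684a9, 4), (0x21536487, 4)]⟩

def c_5232 : frmChk tA tB F_5232 = true := by decide +kernel

def r_5232_0 : chkL rootF engF2 tA tB sA_443 sB_443 4 F_5232 [(511, 0, 0)]
    0x1 = true := by
  decide +kernel

theorem f_5232 (h : TabsF) : FrameF repsF 443 F_5232.f :=
  frame_of rfl c_5232 (runs_of engOK r_5232_0) (by decide +kernel) h.1 h.2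

theorem cl_443 (h : TabsF) : ∀ f ∈ fr_443, FrameF repsF 443 f :=
  List.forall_mem_cons.2 ⟨f_5205 h, List.forall_mem_cons.2 ⟨f_5206 h, List.forall_mem_cons.2 ⟨f_5207 h, List.forall_mem_cons.2 ⟨f_5208 h, List.forall_mem_cons.2 ⟨f_5209 h, List.forall_mem_cons.2 ⟨f_5210 h, List.forall_mem_cons.2 ⟨f_5211 h, List.forall_mem_cons.2 ⟨f_5212 h, List.forall_mem_cons.2 ⟨f_5213 h, List.forall_mem_cons.2 ⟨f_5214 h, List.forall_mem_cons.2 ⟨f_5215 h, List.forall_mem_cons.2 ⟨f_5216 h, List.forall_mem_cons.2 ⟨f_5217 h, List.forall_mem_cons.2 ⟨f_5218 h, List.forall_mem_cons.2 ⟨f_5219 h, List.forall_mem_cons.2 ⟨f_5220 h, List.forall_mem_cons.2 ⟨f_5221 h, List.forall_mem_cons.2 ⟨f_5222 h, List.forall_mem_cons.2 ⟨f_5223 h, List.forall_mem_cons.2 ⟨f_5224 h, List.forall_mem_cons.2 ⟨f_5225 h, List.forall_mem_cons.2 ⟨f_5226 h, List.forall_mem_cons.2 ⟨f_5227 h, List.forall_mem_cons.2 ⟨f_5228 h, List.forall_mem_cons.2 ⟨f_5229 h, List.forall_mem_cons.2 ⟨f_5230 h, List.forall_mem_cons.2 ⟨f_5231 h, List.forall_mem_cons.2 ⟨f_5232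 h,
    fun _ h0 => absurd h0 List.not_mem_nil⟩⟩⟩⟩⟩⟩⟩⟩⟩⟩⟩⟩⟩⟩⟩⟩⟩⟩⟩⟩⟩⟩⟩⟩⟩⟩⟩⟩

def F_5233 : FrX :=
  ⟨0x482000044040440000c2040020009000182040002100402101200008000c040220100200a20000020208006000800c0080010006200901800002202028,
    0xa0, 1, 0x4154607383a5, 6,
    [(0xa0, 1), (0x538690a2, 4), (0x548790a1, 4), (0x21437690, 4), (0x538690a2, 4), (0x548790a1, 4)],
    [(0x4154607383a5, 6), (0x627091a8, 4), (0x647391a5, 4), (0x30428591, 4), (0x627091a8, 4), (0x647391a5, 4)]⟩

def c_5233 : frmChk tA tA F_5233 = true := by decide +kernel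

def r_5233_0 : chkL rootF engF2 tA tA sA_444 sA_444 4 F_5233 [(511, 0, 0)]
    0x1 = true := by
  decide +kernel

theorem f_5233 (h : TabsF) : FrameF repsF 444 F_5233.f :=
  frame_of rfl c_5233 (runs_of engOK r_5233_0) (by decide +kernel) h.1 h.1

def F_5234 : FrX :=
  ⟨0x80080a000804040e000021010020010000020408a0210004200110008024001010100400022080080048100024042408048000010808400204100035000,
    0xa6, 1, 0x324253627380a3, 7,
    [(0xa6, 1), (0x205396a8, 4), (0x10548796, 4), (0x214396a7, 4), (0x205396a8, 4), (0x10548796, 4)],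
    [(0x324253627380a3, 7), (0x408697a2, 4), (0x32508197, 4), (0x546197a3, 4), (0x408697a2, 4), (0x32508197, 4)]⟩

def c_5234 : frmChk tA tA F_5234 = true := by decide +kernel

def r_5234_0 : chkL rootF engF2 tA tA sA_444 sA_444 4 F_5234 [(511, 0, 0)]
    0x1 = true := by
  decide +kernel

theorem f_5234 (h : TabsF) : FrameF repsF 444 F_5234.f :=
  frame_of rfl c_5234 (runs_of engOK r_5234_0) (by decide +kernel) h.1 h.1

def F_5235 : FrX :=
  ⟨0x80080a000804040e0000210100200100000204088801090022000080804200104004042000008402080840006400280104100101001010020410002d000,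
    0xa6, 1, 0x4152657080a2, 6,
    [(0xa6, 1), (0x205396a8, 4), (0x10548796, 4), (0x214396a7, 4), (0x205396a8, 4), (0x10548796, 4)],
    [(0x4152657080a2, 6), (0x637295a8, 4), (0x61708495, 4), (0x203195a4, 4), (0x637295a8, 4), (0x61708495, 4)]⟩

def c_5235 : frmChk tA tA F_5235 = true := by decide +kernel

def r_5235_0 : chkL rootF engF2 tA tA sA_444 sA_444 4 F_5235 [(511, 0, 0)]
    0x1 = true := by
  decide +kernel

theorem f_5235 (h : TabsF) : FrameF repsF 444 F_5235.f :=
  frame_of rfl c_5235 (runs_of engOK r_5235_0) (by decide +kernel) h.1 h.1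

def F_5236 : FrX :=
  ⟨0x80080a000804040e000021010020010000020408b100000804000810048020202002100000202020a01004020046004020209000210200080200b003000,
    0xa6, 1, 0x3153607186a6, 6,
    [(0xa6, 1), (0x205396a8, 4), (0x10548796, 4), (0x214396a7, 4), (0x205396a8, 4), (0x10548796, 4)],
    [(0x3153607186a6, 6), (0x314062a5, 4), (0x417698a3, 4), (0x315098a4, 4), (0x417698a3, 4), (0x105372a4, 4), (0x546298a0, 4), (0x315098a4, 4), (0x546298a0, 4), (0x435076a1, 4), (0x315098a4, 4), (0x105372a4, 4)]⟩

def c_5236 : frmChk tA tB F_5236 = true := by decide +kernel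

def r_5236_0 : chkL rootF engF2 tA tB sA_444 sB_444 4 F_5236 [(511, 0, 0)]
    0x1 = true := by
  decide +kernel

theorem f_5236 (h : TabsF) : FrameF repsF 444 F_5236.f :=
  frame_of rfl c_5236 (runs_of engOK r_5236_0) (by decide +kernel) h.1 h.2

def F_5237 : FrX :=
  ⟨0x482000044040440000c2040020009000182040020001100100020280024022400080820808010012000208022200802048000108102200002080016002,
    0xa0, 1, 0x2061738594a0, 6,
    [(0xa0, 1), (0x538690a2, 4), (0x548790a1, 4), (0x21437690, 4), (0x538690a2, 4), (0x548790a1, 4)],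
    [(0x2061738594a0, 6), (0x425187a0, 4), (0x425398a6, 4), (0x31426097, 4), (0x425187a0, 4), (0x425398a6, 4)]⟩

def c_5237 : frmChk tA tA F_5237 = true := by decide +kernel

def r_5237_0 : chkL rootF engF2 tA tA sA_444 sA_444 4 F_5237 [(511, 0, 0)]
    0x1 = true := by
  decide +kernel

theorem f_5237 (h : TabsF) : FrameF repsF 444 F_5237.f :=
  frame_of rfl c_5237 (runs_of engOK r_5237_0) (by decide +kernel) h.1 h.1

def F_5238 : FrX :=
  ⟨0x2002000900044004000e02041000141000800040801000282000a02002004080041400104400004220810080068008802000082030008000202018082001,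
    0xa3, 1, 0x102140536396a0, 7,
    [(0xa3, 1), (0x208693a5, 4), (0x10548793, 4), (0x217693a4, 4), (0x208693a5, 4), (0x10548793, 4)],
    [(0x102140536396a0, 7), (0x546398a0, 4), (0x315487a2, 4), (0x20546197, 4), (0x546398a0, 4), (0x315487a2, 4)]⟩

def c_5238 : frmChk tA tA F_5238 = true := by decide +kernel

def r_5238_0 : chkL rootF engF2 tA tA sA_444 sA_444 4 F_5238 [(511, 0, 0)]
    0x1 = true := by
  decide +kernel

theorem f_5238 (h : TabsF) : FrameF repsF 444 F_5238.f :=
  frame_of rfl c_5238 (runs_of engOK r_5238_0) (by decide +kernel) h.1 h.1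

def F_5239 : FrX :=
  ⟨0x2002000900044004000e02041000141000800040800402040408400010240040020c0802018200000a200006000440400201010041201000840024200140,
    0xa3, 1, 0x2131418395a1, 6,
    [(0xa3, 1), (0x208693a5, 4), (0x10548793, 4), (0x217693a4, 4), (0x208693a5, 4), (0x10548793, 4)],
    [(0x2131418395a1, 6), (0x10328697, 4), (0x547693a0, 4), (0x54638297, 4), (0x547693a0, 4), (0x638792a1, 4), (0x10546283, 4), (0x54638297, 4), (0x10546283, 4), (0x738296a0, 4), (0x54638297, 4), (0x638792a1, 4)]⟩

def c_5239 : frmChk tA tB F_5239 = true := by decide +kernel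

def r_5239_0 : chkL rootF engF2 tA tB sA_444 sB_444 4 F_5239 [(511, 0, 0)]
    0x1 = true := by
  decide +kernel

theorem f_5239 (h : TabsF) : FrameF repsF 444 F_5239.f :=
  frame_of rfl c_5239 (runs_of engOK r_5239_0) (by decide +kernel) h.1 h.2

def F_5240 : FrX :=
  ⟨0x2002000900044004000e02041000141000800040800400228081204002000c0004008101010001080202c200400010001100081084000210480003404001,
    0xa3, 1, 0x213060728293a3, 7,
    [(0xa3, 1), (0x208693a5, 4), (0x10548793, 4), (0x217693a4, 4), (0x208693a5, 4), (0x10548793, 4)],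
    [(0x213060728293a3, 7), (0x738690a5, 4), (0x54627190, 4), (0x318290a4, 4), (0x738690a5, 4), (0x54627190, 4)]⟩

def c_5240 : frmChk tA tA F_5240 = true := by decide +kernel

def r_5240_0 : chkL rootF engF2 tA tA sA_444 sA_444 4 F_5240 [(511, 0, 0)]
    0x1 = true := by
  decide +kernel

theorem f_5240 (h : TabsF) : FrameF repsF 444 F_5240.f :=
  frame_of rfl c_5240 (runs_of engOK r_5240_0) (by decide +kernel) h.1 h.1

def F_5241 : FrX :=
  ⟨0x80080a000804040e00002101002001000002040890020001408010808810004004081020102500009010000202040400242200002002220082025000200,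
    0xa6, 1, 0x3051647298a6, 6,
    [(0xa6, 1), (0x205396a8, 4), (0x10548796, 4), (0x214396a7, 4), (0x205396a8, 4), (0x10548796, 4)],
    [(0x3051647298a6, 6), (0x107384a9, 4), (0x53618492, 4), (0x607584a2, 4), (0x107384a9, 4), (0x53618492, 4)]⟩

def c_5241 : frmChk tA tA F_5241 = true := by decide +kernel

def r_5241_0 : chkL rootF engF2 tA tA sA_444 sA_444 4 F_5241 [(511, 0, 0)]
    0x1 = true := by
  decide +kernel

theorem f_5241 (h : TabsF) : FrameF repsF 444 F_5241.f :=
  frame_of rfl c_5241 (runs_of engOK r_5241_0) (by decide +kernel) h.1 h.1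

def F_5242 : FrX :=
  ⟨0x482000044040440000c204002000900018204001004010010100018002080280808040080404010a200280102008440014008000600200202040010410,
    0xa0, 1, 0x2151718094a8, 6,
    [(0xa0, 1), (0x538690a2, 4), (0x548790a1, 4), (0x21437690, 4), (0x538690a2, 4), (0x548790a1, 4)],
    [(0x2151718094a8, 6), (0x526381a9, 4), (0x40658792, 4), (0x405296a3, 4), (0x40658792, 4), (0x537196a2, 4), (0x408193a6, 4), (0x405296a3, 4), (0x408193a6, 4), (0x628795a3, 4), (0x405296a3, 4), (0x537196a2, 4)]⟩

def c_5242 : frmChk tA tB F_5242 = true := by decide +kernel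

def r_5242_0 : chkL rootF engF2 tA tB sA_444 sB_444 4 F_5242 [(511, 0, 0)]
    0x1 = true := by
  decide +kernel

theorem f_5242 (h : TabsF) : FrameF repsF 444 F_5242.f :=
  frame_of rfl c_5242 (runs_of engOK r_5242_0) (by decide +kernel) h.1 h.2

def F_5243 : FrX :=
  ⟨0x482000044040440000c2040020009000182040008081000104090004010041200202001020080120006101084020008008001210300200101000110201,
    0xa0, 1, 0x104152738090a2, 7,
    [(0xa0, 1), (0x538690a2, 4), (0x548790a1, 4), (0x21437690, 4), (0x538690a2, 4), (0x548790a1, 4)],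
    [(0x104152738090a2, 7), (0x617285a9, 4), (0x20318594, 4), (0x637085a4, 4), (0x617285a9, 4), (0x20318594, 4)]⟩

def c_5243 : frmChk tA tA F_5243 = true := by decide +kernel

def r_5243_0 : chkL rootF engF2 tA tA sA_444 sA_444 4 F_5243 [(511, 0, 0)]
    0x1 = true := by
  decide +kernel

theorem f_5243 (h : TabsF) : FrameF repsF 444 F_5243.f :=
  frame_of rfl c_5243 (runs_of engOK r_5243_0) (by decide +kernel) h.1 h.1

def F_5244 : FrX :=
  ⟨0x80080a000804040e00002101002001000002040880600002804400400080080048212020004042002300800500040440201108001043000400210080010,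
    0xa6, 1, 0x2132508492a1, 6,
    [(0xa6, 1), (0x205396a8, 4), (0x10548796, 4), (0x214396a7, 4), (0x205396a8, 4), (0x10548796, 4)],
    [(0x2132508492a1, 6), (0x61708495, 4), (0x327680a5, 4), (0x32417086, 4), (0x327680a5, 4), (0x407186a9, 4), (0x32648195, 4), (0x32417086, 4), (0x32648195, 4), (0x416087a5, 4), (0x32417086, 4), (0x407186a9, 4)]⟩

def c_5244 : frmChk tA tB F_5244 = true := by decide +kernel

def r_5244_0 : chkL rootF engF2 tA tB sA_444 sB_444 4 F_5244 [(511, 0, 0)]
    0x1 = true := by
  decide +kernel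

theorem f_5244 (h : TabsF) : FrameF repsF 444 F_5244.f :=
  frame_of rfl c_5244 (runs_of engOK r_5244_0) (by decide +kernel) h.1 h.2

def F_5245 : FrX :=
  ⟨0x1c210200000404400000204100010100008204089008008000100410040010104080804080208100a020030424008800088080010840004046200080040,
    0x0, 0, 0x54647587, 4,
    [(0x0, 0), (0x205386a9, 4), (0x105487a9, 4), (0x214376a9, 4), (0x205386a9, 4), (0x105487a9, 4)],
    [(0x54647587, 4), (0x20536487, 4), (0x107685a9, 4), (0x436587a9, 4), (0x107685a9, 4), (0x21657483, 4), (0x205463a9, 4), (0x436587a9, 4), (0x205463a9, 4), (0x10437586, 4), (0x436587a9, 4), (0x21657483, 4)]⟩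

def c_5245 : frmChk tA tB F_5245 = true := by decide +kernel

def r_5245_0 : chkL rootF engF2 tA tB sA_444 sB_444 4 F_5245 [(511, 0, 0)]
    0x1 = true := by
  decide +kernel

theorem f_5245 (h : TabsF) : FrameF repsF 444 F_5245.f :=
  frame_of rfl c_5245 (runs_of engOK r_5245_0) (by decide +kernel) h.1 h.2

def F_5246 : FrX :=
  ⟨0x80080a000804040e0000210100200100000204089008000030400880841000104100040080208100a028000424002800041000010800404046101008040,
    0xa6, 1, 0x4152708693a6, 6,
    [(0xa6, 1), (0x205396a8, 4), (0x10548796, 4), (0x214396a7, 4), (0x205396a8, 4), (0x10548796, 4)],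
    [(0x4152708693a6, 6), (0x758392a6, 4), (0x21607483, 4), (0x548391a0, 4), (0x758392a6, 4), (0x21607483, 4)]⟩

def c_5246 : frmChk tA tA F_5246 = true := by decide +kernel

def r_5246_0 : chkL rootF engF2 tA tA sA_444 sA_444 4 F_5246 [(511, 0, 0)]
    0x1 = true := by
  decide +kernel

theorem f_5246 (h : TabsF) : FrameF repsF 444 F_5246.f :=
  frame_of rfl c_5246 (runs_of engOK r_5246_0) (by decide +kernel) h.1 h.1

def F_5247 : FrX :=
  ⟨0x80080a000804040e00002101002001000002040881200002208028000084084040010810402088002020800600202001004010054003002400110008008,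
    0xa6, 1, 0x314250648297a8, 7,
    [(0xa6, 1), (0x205396a8, 4), (0x10548796, 4), (0x214396a7, 4), (0x205396a8, 4), (0x10548796, 4)],
    [(0x314250648297a8, 7), (0x218590a6, 4), (0x53607492, 4), (0x627490a1, 4), (0x53607492, 4), (0x628391a0, 4), (0x617485a2, 4), (0x627490a1, 4), (0x617485a2, 4), (0x205396a1, 4), (0x627490a1, 4), (0x628391a0, 4)]⟩

def c_5247 : frmChk tA tB F_5247 = true := by decide +kernel

def r_5247_0 : chkL rootF engF2 tA tB sA_444 sB_444 4 F_5247 [(511, 0, 0)]
    0x1 = true := by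
  decide +kernel

theorem f_5247 (h : TabsF) : FrameF repsF 444 F_5247.f :=
  frame_of rfl c_5247 (runs_of engOK r_5247_0) (by decide +kernel) h.1 h.2

def F_5248 : FrX :=
  ⟨0x1001040012008080000e00840800410008101000040410084020010043000040084042004402108120000810400400090a04202000000840012104000050,
    0xa3, 1, 0x4152638097a3, 6,
    [(0xa3, 1), (0x207584a6, 4), (0x10547693, 4), (0x647593a8, 4), (0x10547693, 4), (0x216485a7, 4), (0x208693a4, 4), (0x647593a8, 4), (0x208693a4, 4), (0x106574a8, 4), (0x647593a8, 4), (0x216485a7, 4)],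
    [(0x4152638097a3, 6), (0x108592a3, 4), (0x21768493, 4), (0x317692a0, 4), (0x21768493, 4), (0x203154a9, 4), (0x307685a1, 4), (0x317692a0, 4), (0x307685a1, 4), (0x328491a0, 4), (0x317692a0, 4), (0x203154a9, 4)]⟩

def c_5248 : frmChk tB tB F_5248 = true := by decide +kernel

def r_5248_0 : chkL rootF engF2 tB tB sB_444 sB_444 4 F_5248 [(511, 0, 0)]
    0x1 = true := by
  decide +kernel

theorem f_5248 (h : TabsF) : FrameF repsF 444 F_5248.f :=
  frame_of rfl c_5248 (runs_of engOK r_5248_0) (by decide +kernel) h.2 h.2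

theorem cl_444 (h : TabsF) : ∀ f ∈ fr_444, FrameF repsF 444 f :=
  List.forall_mem_cons.2 ⟨f_5233 h, List.forall_mem_cons.2 ⟨f_5234 h, List.forall_mem_cons.2 ⟨f_5235 h, List.forall_mem_cons.2 ⟨f_5236 h, List.forall_mem_cons.2 ⟨f_5237 h, List.forall_mem_cons.2 ⟨f_5238 h, List.forall_mem_cons.2 ⟨f_5239 h, List.forall_mem_cons.2 ⟨f_5240 h, List.forall_mem_cons.2 ⟨f_5241 h, List.forall_mem_cons.2 ⟨f_5242 h, List.forall_mem_cons.2 ⟨f_5243 h, List.forall_mem_cons.2 ⟨f_5244 h, List.forall_mem_cons.2 ⟨f_5245 h, List.forall_mem_cons.2 ⟨f_5246 h, List.forall_mem_cons.2 ⟨f_5247 h, List.forall_mem_cons.2 ⟨f_5248 h,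
    fun _ h0 => absurd h0 List.not_mem_nil⟩⟩⟩⟩⟩⟩⟩⟩⟩⟩⟩⟩⟩⟩⟩⟩

def F_5249 : FrX :=
  ⟨0x80080a000804040e0000210100200100000204089004000111000042020200800901400100800902010204040840104004104800200100a000880600080,
    0xa6, 1, 0x20405065718294a6, 8,
    [(0xa6, 1), (0x205396a8, 4), (0x10548796, 4), (0x214396a7, 4), (0x205396a8, 4), (0x10548796, 4)],
    [(0x20405065718294a6, 8), (0x618590a3, 4), (0x427596a1, 4), (0x304261a9, 4), (0x427596a1, 4), (0x316087a9, 4), (0x428593a0, 4), (0x304261a9, 4), (0x428593a0, 4), (0x307591a6, 4), (0x304261a9, 4), (0x316087a9, 4)]⟩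

def c_5249 : frmChk tA tB F_5249 = true := by decide +kernel

def r_5249_0 : chkL rootF engF2 tA tB sA_445 sB_445 4 F_5249 [(511, 0, 0)]
    0x4d4 = true := by
  decide +kernel

theorem f_5249 (h : TabsF) : FrameF repsF 445 F_5249.f :=
  frame_of rfl c_5249 (runs_of engOK r_5249_0) (by decide +kernel) h.1 h.2

def F_5250 : FrX :=
  ⟨0x80080a000804040e00002101002001000002040890020004304004100280008008014001008009008002041008420008004048022080402100881200080,
    0xa6, 1, 0x324254637096a6, 7,
    [(0xa6, 1), (0x205396a8, 4), (0x10548796, 4), (0x214396a7, 4), (0x205396a8, 4), (0x10548796, 4)],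
    [(0x324254637096a6, 7), (0x637492a8, 4), (0x53718092, 4), (0x416592a0, 4), (0x637492a8, 4), (0x53718092, 4)]⟩

def c_5250 : frmChk tA tA F_5250 = true := by decide +kernel

def r_5250_0 : chkL rootF engF2 tA tA sA_445 sA_445 4 F_5250 [(511, 0, 0)]
    0x144c2b09c17 = true := by
  decide +kernel

theorem f_5250 (h : TabsF) : FrameF repsF 445 F_5250.f :=
  frame_of rfl c_5250 (runs_of engOK r_5250_0) (by decide +kernel) h.1 h.1

def F_5251 : FrX :=
  ⟨0x2002000900044004000e0204100014100080004080800020442000011001210820002800110000840c000411100400408041008080a00804000802021010,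
    0xa3, 1, 0x3041517192a5, 6,
    [(0xa3, 1), (0x208693a5, 4), (0x10548793, 4), (0x217693a4, 4), (0x208693a5, 4), (0x10548793, 4)],
    [(0x3041517192a5, 6), (0x428693a0, 4), (0x427385a1, 4), (0x10426597, 4), (0x428693a0, 4), (0x427385a1, 4)]⟩

def c_5251 : frmChk tA tA F_5251 = true := by decide +kernel

def r_5251_0 : chkL rootF engF2 tA tA sA_445 sA_445 4 F_5251 [(511, 0, 0)]
    0x1 = true := by
  decide +kernel

theorem f_5251 (h : TabsF) : FrameF repsF 445 F_5251.f :=
  frame_of rfl c_5251 (runs_of engOK r_5251_0) (by decide +kernel) h.1 h.1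

def F_5252 : FrX :=
  ⟨0x482000044040440000c2040020009000182040001012080004100804020801010800100c00040480002020024a10100000086010100080101a00800044,
    0xa0, 1, 0x405261728593a5, 7,
    [(0xa0, 1), (0x538690a2, 4), (0x548790a1, 4), (0x21437690, 4), (0x538690a2, 4), (0x548790a1, 4)],
    [(0x405261728593a5, 7), (0x217483a9, 4), (0x526483a0, 4), (0x51768390, 4), (0x217483a9, 4), (0x526483a0, 4)]⟩

def c_5252 : frmChk tA tA F_5252 = true := by decide +kernel

def r_5252_0 : chkL rootF engF2 tA tA sA_445 sA_445 4 F_5252 [(511, 0, 0)]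
    0x1 = true := by
  decide +kernel

theorem f_5252 (h : TabsF) : FrameF repsF 445 F_5252.f :=
  frame_of rfl c_5252 (runs_of engOK r_5252_0) (by decide +kernel) h.1 h.1

def F_5253 : FrX :=
  ⟨0x482000044040440000c2040020009000182040010010041200800810080408208010001001080112000810900010400040208008880800040a02000290,
    0xa0, 1, 0x314285a0, 4,
    [(0xa0, 1), (0x538690a2, 4), (0x548790a1, 4), (0x21437690, 4), (0x538690a2, 4), (0x548790a1, 4)],
    [(0x314285a0, 4), (0x658190a4, 4), (0x758290a3, 4), (0x21437690, 4), (0x658190a4, 4), (0x758290a3, 4)]⟩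

def c_5253 : frmChk tA tA F_5253 = true := by decide +kernel

def r_5253_0 : chkL rootF engF2 tA tA sA_445 sA_445 4 F_5253 [(511, 0, 0)]
    0x1 = true := by
  decide +kernel

theorem f_5253 (h : TabsF) : FrameF repsF 445 F_5253.f :=
  frame_of rfl c_5253 (runs_of engOK r_5253_0) (by decide +kernel) h.1 h.1

def F_5254 : FrX :=
  ⟨0x2002000900044004000e0204100014100080004080820800440802001001040820002200110000802400011050042000100400a020808808000a02021010,
    0xa3, 1, 0x314254627184a1, 7,
    [(0xa3, 1), (0x208693a5, 4), (0x10548793, 4), (0x217693a4, 4), (0x208693a5, 4), (0x10548793, 4)],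
    [(0x314254627184a1, 7), (0x21546097, 4), (0x538297a0, 4), (0x438197a6, 4), (0x21546097, 4), (0x538297a0, 4)]⟩

def c_5254 : frmChk tA tA F_5254 = true := by decide +kernel

def r_5254_0 : chkL rootF engF2 tA tA sA_445 sA_445 4 F_5254 [(511, 0, 0)]
    0x1 = true := by
  decide +kernel

theorem f_5254 (h : TabsF) : FrameF repsF 445 F_5254.f :=
  frame_of rfl c_5254 (runs_of engOK r_5254_0) (by decide +kernel) h.1 h.1

def F_5255 : FrX :=
  ⟨0x80080a000804040e0000210100200100000204088042100201008080100020210108006000202808002440008220000a100042010000602500010820200,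
    0xa6, 1, 0x10324360728493a0, 8,
    [(0xa6, 1), (0x205396a8, 4), (0x10548796, 4), (0x214396a7, 4), (0x205396a8, 4), (0x10548796, 4)],
    [(0x10324360728493a0, 8), (0x538291a7, 4), (0x316485a0, 4), (0x53648192, 4), (0x316485a0, 4), (0x52708193, 4), (0x216498a7, 4), (0x53648192, 4), (0x216498a7, 4), (0x518392a0, 4), (0x53648192, 4), (0x52708193, 4)]⟩

def c_5255 : frmChk tA tB F_5255 = true := by decide +kernel

def r_5255_0 : chkL rootF engF2 tA tB sA_445 sB_445 4 F_5255 [(511, 0, 0)]
    0x1 = true := by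
  decide +kernel

theorem f_5255 (h : TabsF) : FrameF repsF 445 F_5255.f :=
  frame_of rfl c_5255 (runs_of engOK r_5255_0) (by decide +kernel) h.1 h.2

def F_5256 : FrX :=
  ⟨0x600020801080810000c004018041010100100400402400040010400420c0000a080080108002014000020044801040041002101010002000c202418080,
    0xa0, 1, 0x31718197a6, 5,
    [(0xa0, 1), (0x637584a2, 4), (0x547690a1, 4), (0x64758390, 4), (0x547690a1, 4), (0x21647385, 4), (0x438690a2, 4), (0x64758390, 4), (0x438690a2, 4), (0x657483a1, 4), (0x64758390, 4), (0x21647385, 4)],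
    [(0x31718197a6, 5), (0x205163a7, 4), (0x54638097, 4), (0x416382a9, 4), (0x205163a7, 4), (0x54638097, 4)]⟩

def c_5256 : frmChk tB tA F_5256 = true := by decide +kernel

def r_5256_0 : chkL rootF engF2 tB tA sB_445 sA_445 4 F_5256 [(511, 0, 0)]
    0x1 = true := by
  decide +kernel

theorem f_5256 (h : TabsF) : FrameF repsF 445 F_5256.f :=
  frame_of rfl c_5256 (runs_of engOK r_5256_0) (by decide +kernel) h.2 h.1

def F_5257 : FrX :=
  ⟨0x600020801080810000c00401804101010010040008e400000002480020800008080088808002014020020044802000240802011001002000c220408080,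
    0xa0, 1, 0x3140657383a8, 6,
    [(0xa0, 1), (0x637584a2, 4), (0x547690a1, 4), (0x64758390, 4), (0x547690a1, 4), (0x21647385, 4), (0x438690a2, 4), (0x64758390, 4), (0x438690a2, 4), (0x657483a1, 4), (0x64758390, 4), (0x21647385, 4)],
    [(0x3140657383a8, 6), (0x428697a5, 4), (0x436097a1, 4), (0x32518097, 4), (0x428697a5, 4), (0x436097a1, 4)]⟩

def c_5257 : frmChk tB tA F_5257 = true := by decide +kernel

def r_5257_0 : chkL rootF engF2 tB tA sB_445 sA_445 4 F_5257 [(511, 0, 0)]
    0x1 = true := by
  decide +kernel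

theorem f_5257 (h : TabsF) : FrameF repsF 445 F_5257.f :=
  frame_of rfl c_5257 (runs_of engOK r_5257_0) (by decide +kernel) h.2 h.1

def F_5258 : FrX :=
  ⟨0x1c404400000808100000084008041000010108404220010001008000400088022012800220030000d002008201088c02010000428088080002400040200,
    0x0, 0, 0x43547583, 4,
    [(0x0, 0), (0x20637584, 4), (0x105476a9, 4), (0x647583a9, 4), (0x105476a9, 4), (0x21647385, 4), (0x204386a9, 4), (0x647583a9, 4), (0x204386a9, 4), (0x10657483, 4), (0x647583a9, 4), (0x21647385, 4)],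
    [(0x43547583, 4), (0x206487a9, 4), (0x104375a9, 4), (0x216385a9, 4), (0x206487a9, 4), (0x104375a9, 4)]⟩

def c_5258 : frmChk tB tA F_5258 = true := by decide +kernel

def r_5258_0 : chkL rootF engF2 tB tA sB_445 sA_445 4 F_5258 [(511, 0, 0)]
    0x1 = true := by
  decide +kernel

theorem f_5258 (h : TabsF) : FrameF repsF 445 F_5258.f :=
  frame_of rfl c_5258 (runs_of engOK r_5258_0) (by decide +kernel) h.2 h.1

def F_5259 : FrX :=
  ⟨0x1001040012008080000e0084080041000810100004208004007100010000005003010800220030080900200a001000c00010800408888080044000800280,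
    0xa3, 1, 0x3252608696a7, 6,
    [(0xa3, 1), (0x207584a6, 4), (0x10547693, 4), (0x647593a8, 4), (0x10547693, 4), (0x216485a7, 4), (0x208693a4, 4), (0x647593a8, 4), (0x208693a4, 4), (0x106574a8, 4), (0x647593a8, 4), (0x216485a7, 4)],
    [(0x3252608696a7, 6), (0x32658790, 4), (0x436187a0, 4), (0x425187a9, 4), (0x32658790, 4), (0x436187a0, 4)]⟩

def c_5259 : frmChk tB tA F_5259 = true := by decide +kernel

def r_5259_0 : chkL rootF engF2 tB tA sB_445 sA_445 4 F_5259 [(511, 0, 0)]
    0x1 = true := by
  decide +kernel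

theorem f_5259 (h : TabsF) : FrameF repsF 445 F_5259.f :=
  frame_of rfl c_5259 (runs_of engOK r_5259_0) (by decide +kernel) h.2 h.1

def F_5260 : FrX :=
  ⟨0x1001040012008080000e00840800410008101000040420028020008200080024220000a01100400140010010020400240100082c20a00808022003002000,
    0xa3, 1, 0x435260748293a1, 7,
    [(0xa3, 1), (0x207584a6, 4), (0x10547693, 4), (0x647593a8, 4), (0x10547693, 4), (0x216485a7, 4), (0x208693a4, 4), (0x647593a8, 4), (0x208693a4, 4), (0x106574a8, 4), (0x647593a8, 4), (0x216485a7, 4)],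
    [(0x435260748293a1, 7), (0x41508692, 4), (0x415372a6, 4), (0x304197a8, 4), (0x41508692, 4), (0x415372a6, 4)]⟩

def c_5260 : frmChk tB tA F_5260 = true := by decide +kernel

def r_5260_0 : chkL rootF engF2 tB tA sB_445 sA_445 4 F_5260 [(511, 0, 0)]
    0x1 = true := by
  decide +kernel

theorem f_5260 (h : TabsF) : FrameF repsF 445 F_5260.f :=
  frame_of rfl c_5260 (runs_of engOK r_5260_0) (by decide +kernel) h.2 h.1

def F_5261 : FrX :=
  ⟨0x600020801080810000c0040180410101001004000a0010080002840004104404001200088080002020210008102004080800820080440801a401008100,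
    0xa0, 1, 0x10203052728197a0, 8,
    [(0xa0, 1), (0x637584a2, 4), (0x547690a1, 4), (0x64758390, 4), (0x547690a1, 4), (0x21647385, 4), (0x438690a2, 4), (0x64758390, 4), (0x438690a2, 4), (0x657483a1, 4), (0x64758390, 4), (0x21647385, 4)],
    [(0x10203052728197a0, 8), (0x406291a7, 4), (0x415396a8, 4), (0x20536491, 4), (0x415396a8, 4), (0x10648792, 4), (0x425360a7, 4), (0x20536491, 4), (0x425360a7, 4), (0x206194a8, 4), (0x20536491, 4), (0x10648792, 4)]⟩

def c_5261 : frmChk tB tB F_5261 = true := by decide +kernel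

def r_5261_0 : chkL rootF engF2 tB tB sB_445 sB_445 4 F_5261 [(511, 0, 0)]
    0x1 = true := by
  decide +kernel

theorem f_5261 (h : TabsF) : FrameF repsF 445 F_5261.f :=
  frame_of rfl c_5261 (runs_of engOK r_5261_0) (by decide +kernel) h.2 h.2

def F_5262 : FrX :=
  ⟨0x2002000900044004000e0204100014100080004080100202020140010012400004008111002a000802020010822010001000810040440108004210084040,
    0xa3, 1, 0x214252758390a8, 7,
    [(0xa3, 1), (0x208693a5, 4), (0x10548793, 4), (0x217693a4, 4), (0x208693a5, 4), (0x10548793, 4)],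
    [(0x214252758390a8, 7), (0x308795a6, 4), (0x307192a4, 4), (0x30526481, 4), (0x308795a6, 4), (0x307192a4, 4)]⟩

def c_5262 : frmChk tA tA F_5262 = true := by decide +kernel

def r_5262_0 : chkL rootF engF2 tA tA sA_445 sA_445 4 F_5262 [(511, 0, 0)]
    0x40f = true := by
  decide +kernel

theorem f_5262 (h : TabsF) : FrameF repsF 445 F_5262.f :=
  frame_of rfl c_5262 (runs_of engOK r_5262_0) (by decide +kernel) h.1 h.1

def F_5263 : FrX :=
  ⟨0x80080a000804040e0000210100200100000204088060000810440040002082004888000140008000a000120520401800042001020410202002242000010,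
    0xa6, 1, 0x4264738398a0, 6,
    [(0xa6, 1), (0x205396a8, 4), (0x10548796, 4), (0x214396a7, 4), (0x205396a8, 4), (0x10548796, 4)],
    [(0x4264738398a0, 6), (0x708592a4, 4), (0x657093a1, 4), (0x32417086, 4), (0x708592a4, 4), (0x657093a1, 4)]⟩

def c_5263 : frmChk tA tA F_5263 = true := by decide +kernel

def r_5263_0 : chkL rootF engF2 tA tA sA_445 sA_445 4 F_5263 [(511, 0, 0)]
    0x417 = true := by
  decide +kernel

theorem f_5263 (h : TabsF) : FrameF repsF 445 F_5263.f :=
  frame_of rfl c_5263 (runs_of engOK r_5263_0) (by decide +kernel) h.1 h.1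

def F_5264 : FrX :=
  ⟨0x482000044040440000c20400200090001820400011010020042000040008820086020010280004008002010142a00080005082800100a2002210000002,
    0xa0, 1, 0x315260708394a6, 7,
    [(0xa0, 1), (0x538690a2, 4), (0x548790a1, 4), (0x21437690, 4), (0x538690a2, 4), (0x548790a1, 4)],
    [(0x315260708394a6, 7), (0x407582a1, 4), (0x40617392, 4), (0x405398a6, 4), (0x407582a1, 4), (0x40617392, 4)]⟩

def c_5264 : frmChk tA tA F_5264 = true := by decide +kernel

def r_5264_0 : chkL rootF engF2 tA tA sA_445 sA_445 4 F_5264 [(511, 0, 0)]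
    0x1 = true := by
  decide +kernel

theorem f_5264 (h : TabsF) : FrameF repsF 445 F_5264.f :=
  frame_of rfl c_5264 (runs_of engOK r_5264_0) (by decide +kernel) h.1 h.1

def F_5265 : FrX :=
  ⟨0x2002000900044004000e0204100014100080004080100202022000210001404104020100102800080a000010422400801084002040482080004100024040,
    0xa3, 1, 0x20304264728091a5, 8,
    [(0xa3, 1), (0x208693a5, 4), (0x10548793, 4), (0x217693a4, 4), (0x208693a5, 4), (0x10548793, 4)],
    [(0x20304264728091a5, 8), (0x305187a2, 4), (0x435198a6, 4), (0x40516297, 4), (0x305187a2, 4), (0x435198a6, 4)]⟩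

def c_5265 : frmChk tA tA F_5265 = true := by decide +kernel

def r_5265_0 : chkL rootF engF2 tA tA sA_445 sA_445 4 F_5265 [(511, 0, 0)]
    0x1 = true := by
  decide +kernel

theorem f_5265 (h : TabsF) : FrameF repsF 445 F_5265.f :=
  frame_of rfl c_5265 (runs_of engOK r_5265_0) (by decide +kernel) h.1 h.1

def F_5266 : FrX :=
  ⟨0x482000044040440000c2040020009000182040001101002000840800004090008212001028001002800011018088800024000206080082002010800202,
    0xa0, 1, 0x10708293a4, 5,
    [(0xa0, 1), (0x538690a2, 4), (0x548790a1, 4), (0x21437690, 4), (0x538690a2, 4), (0x548790a1, 4)],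
    [(0x10708293a4, 5), (0x518796a2, 4), (0x436170a5, 4), (0x435192a6, 4), (0x436170a5, 4), (0x528091a6, 4), (0x436287a9, 4), (0x435192a6, 4), (0x436287a9, 4), (0x657092a1, 4), (0x435192a6, 4), (0x528091a6, 4)]⟩

def c_5266 : frmChk tA tB F_5266 = true := by decide +kernel

def r_5266_0 : chkL rootF engF2 tA tB sA_445 sB_445 4 F_5266 [(511, 0, 0)]
    0x1 = true := by
  decide +kernel

theorem f_5266 (h : TabsF) : FrameF repsF 445 F_5266.f :=
  frame_of rfl c_5266 (runs_of engOK r_5266_0) (by decide +kernel) h.1 h.2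

def F_5267 : FrX :=
  ⟨0x2002000900044004000e02041000141000800040801000282010100141000182000028020002020080420490022000040300082010080800210010082401,
    0xa3, 1, 0x203240536098a2, 7,
    [(0xa3, 1), (0x208693a5, 4), (0x10548793, 4), (0x217693a4, 4), (0x208693a5, 4), (0x10548793, 4)],
    [(0x203240536098a2, 7), (0x508394a6, 4), (0x20618397, 4), (0x527483a1, 4), (0x508394a6, 4), (0x20618397, 4)]⟩

def c_5267 : frmChk tA tA F_5267 = true := by decide +kernel

def r_5267_0 : chkL rootF engF2 tA tA sA_445 sA_445 4 F_5267 [(511, 0, 0)]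
    0x1 = true := by
  decide +kernel

theorem f_5267 (h : TabsF) : FrameF repsF 445 F_5267.f :=
  frame_of rfl c_5267 (runs_of engOK r_5267_0) (by decide +kernel) h.1 h.1

def F_5268 : FrX :=
  ⟨0x2002000900044004000e0204100014100080004080040204040840001081004000408842000202800a200032000400400201810040200204040024200201,
    0xa3, 1, 0x2030426094a1, 6,
    [(0xa3, 1), (0x208693a5, 4), (0x10548793, 4), (0x217693a4, 4), (0x208693a5, 4), (0x10548793, 4)],
    [(0x2030426094a1, 6), (0x10526483, 4), (0x108795a6, 4), (0x107392a4, 4), (0x10526483, 4), (0x108795a6, 4)]⟩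

def c_5268 : frmChk tA tA F_5268 = true := by decide +kernel

def r_5268_0 : chkL rootF engF2 tA tA sA_445 sA_445 4 F_5268 [(511, 0, 0)]
    0x1 = true := by
  decide +kernel

theorem f_5268 (h : TabsF) : FrameF repsF 445 F_5268.f :=
  frame_of rfl c_5268 (runs_of engOK r_5268_0) (by decide +kernel) h.1 h.1

def F_5269 : FrX :=
  ⟨0x80080a000804040e000021010020010000020408a000020810008810088008200002108002202820a010040200420040202010002082002002011008204,
    0xa6, 1, 0x102141728490a8, 7,
    [(0xa6, 1), (0x205396a8, 4), (0x10548796, 4), (0x214396a7, 4), (0x205396a8, 4), (0x10548796, 4)],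
    [(0x102141728490a8, 7), (0x215397a6, 4), (0x218594a0, 4), (0x21607483, 4), (0x215397a6, 4), (0x218594a0, 4)]⟩

def c_5269 : frmChk tA tA F_5269 = true := by decide +kernel

def r_5269_0 : chkL rootF engF2 tA tA sA_445 sA_445 4 F_5269 [(511, 0, 0)]
    0x1 = true := by
  decide +kernel

theorem f_5269 (h : TabsF) : FrameF repsF 445 F_5269.f :=
  frame_of rfl c_5269 (runs_of engOK r_5269_0) (by decide +kernel) h.1 h.1

def F_5270 : FrX :=
  ⟨0x482000044040440000c2040020009000182040001011100000880280024002100080060008004012020208022200802018000408102200002200010310,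
    0xa0, 1, 0x1031546092a8, 6,
    [(0xa0, 1), (0x538690a2, 4), (0x548790a1, 4), (0x21437690, 4), (0x538690a2, 4), (0x548790a1, 4)],
    [(0x1031546092a8, 6), (0x107496a5, 4), (0x54637182, 4), (0x517482a0, 4), (0x54637182, 4), (0x517093a4, 4), (0x508296a1, 4), (0x517482a0, 4), (0x508296a1, 4), (0x416375a0, 4), (0x517482a0, 4), (0x517093a4, 4)]⟩

def c_5270 : frmChk tA tB F_5270 = true := by decide +kernel

def r_5270_0 : chkL rootF engF2 tA tB sA_445 sB_445 4 F_5270 [(511, 0, 0)]
    0x1 = true := by
  decide +kernel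

theorem f_5270 (h : TabsF) : FrameF repsF 445 F_5270.f :=
  frame_of rfl c_5270 (runs_of engOK r_5270_0) (by decide +kernel) h.1 h.2

def F_5271 : FrX :=
  ⟨0x80080a000804040e0000210100200100000204088120000220440010008008004b010000c00040012000800600050100045120005001082440110000010,
    0xa6, 1, 0x213240708497a5, 7,
    [(0xa6, 1), (0x205396a8, 4), (0x10548796, 4), (0x214396a7, 4), (0x205396a8, 4), (0x10548796, 4)],
    [(0x213240708497a5, 7), (0x546073a1, 4), (0x547290a8, 4), (0x32548196, 4), (0x546073a1, 4), (0x547290a8, 4)]⟩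

def c_5271 : frmChk tA tA F_5271 = true := by decide +kernel

def r_5271_0 : chkL rootF engF2 tA tA sA_445 sA_445 4 F_5271 [(511, 0, 0)]
    0x1 = true := by
  decide +kernel

theorem f_5271 (h : TabsF) : FrameF repsF 445 F_5271.f :=
  frame_of rfl c_5271 (runs_of engOK r_5271_0) (by decide +kernel) h.1 h.1

def F_5272 : FrX :=
  ⟨0x80080a000804040e00002101002001000002040882200002088024000040084041012010402070002020800600002001004020005003042400110008010,
    0xa6, 1, 0x32405461748297a3, 8,
    [(0xa6, 1), (0x205396a8, 4), (0x10548796, 4), (0x214396a7, 4), (0x205396a8, 4), (0x10548796, 4)],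
    [(0x32405461748297a3, 8), (0x315284a0, 4), (0x52647093, 4), (0x528691a7, 4), (0x315284a0, 4), (0x52647093, 4)]⟩

def c_5272 : frmChk tA tA F_5272 = true := by decide +kernel

def r_5272_0 : chkL rootF engF2 tA tA sA_445 sA_445 4 F_5272 [(511, 0, 0)]
    0x1 = true := by
  decide +kernel

theorem f_5272 (h : TabsF) : FrameF repsF 445 F_5272.f :=
  frame_of rfl c_5272 (runs_of engOK r_5272_0) (by decide +kernel) h.1 h.1

def F_5273 : FrX :=
  ⟨0x482000044040440000c2040020009000182040000821100008080900010101200200050020081032800010084008000300001210040140004600010208,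
    0xa0, 1, 0x213142547298a7, 7,
    [(0xa0, 1), (0x538690a2, 4), (0x548790a1, 4), (0x21437690, 4), (0x538690a2, 4), (0x548790a1, 4)],
    [(0x213142547298a7, 7), (0x627095a1, 4), (0x305184a6, 4), (0x658492a1, 4), (0x305184a6, 4), (0x657391a2, 4), (0x52708496, 4), (0x658492a1, 4), (0x52708496, 4), (0x306192a5, 4), (0x658492a1, 4), (0x657391a2, 4)]⟩

def c_5273 : frmChk tA tB F_5273 = true := by decide +kernel

def r_5273_0 : chkL rootF engF2 tA tB sA_445 sB_445 4 F_5273 [(511, 0, 0)]
    0x1 = true := by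
  decide +kernel

theorem f_5273 (h : TabsF) : FrameF repsF 445 F_5273.f :=
  frame_of rfl c_5273 (runs_of engOK r_5273_0) (by decide +kernel) h.1 h.2

def F_5274 : FrX :=
  ⟨0x482000044040440000c204002000900018204000110200a008100004000182008600001028000800c000110100a0001004008222280082102010800002,
    0xa0, 1, 0x213154607383a5, 7,
    [(0xa0, 1), (0x538690a2, 4), (0x548790a1, 4), (0x21437690, 4), (0x538690a2, 4), (0x548790a1, 4)],
    [(0x213154607383a5, 7), (0x617094a8, 4), (0x637294a5, 4), (0x20318594, 4), (0x617094a8, 4), (0x637294a5, 4)]⟩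

def c_5274 : frmChk tA tA F_5274 = true := by decide +kernel

def r_5274_0 : chkL rootF engF2 tA tA sA_445 sA_445 4 F_5274 [(511, 0, 0)]
    0x1 = true := by
  decide +kernel

theorem f_5274 (h : TabsF) : FrameF repsF 445 F_5274.f :=
  frame_of rfl c_5274 (runs_of engOK r_5274_0) (by decide +kernel) h.1 h.1

def F_5275 : FrX :=
  ⟨0x2002000900044004000e02041000141000800040804001010101024002002100200102104202008480020300208020008000820010850000404210808200,
    0xa3, 1, 0x31415360708394a6, 8,
    [(0xa3, 1), (0x208693a5, 4), (0x10548793, 4), (0x217693a4, 4), (0x208693a5, 4), (0x10548793, 4)],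
    [(0x31415360708394a6, 8), (0x617295a8, 4), (0x307491a6, 4), (0x306185a9, 4), (0x307491a6, 4), (0x425186a9, 4), (0x307298a5, 4), (0x306185a9, 4), (0x307298a5, 4), (0x748596a1, 4), (0x306185a9, 4), (0x425186a9, 4)]⟩

def c_5275 : frmChk tA tB F_5275 = true := by decide +kernel

def r_5275_0 : chkL rootF engF2 tA tB sA_445 sB_445 4 F_5275 [(511, 0, 0)]
    0x1 = true := by
  decide +kernel

theorem f_5275 (h : TabsF) : FrameF repsF 445 F_5275.f :=
  frame_of rfl c_5275 (runs_of engOK r_5275_0) (by decide +kernel) h.1 h.2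

def F_5276 : FrX :=
  ⟨0x1c21020000040440000020410001010000820408a0001100000024200400a0200008804020212840a080004204004240280010002200802002004600200,
    0x0, 0, 0x21436575, 4,
    [(0x0, 0), (0x205386a9, 4), (0x105487a9, 4), (0x214376a9, 4), (0x205386a9, 4), (0x105487a9, 4)],
    [(0x21436575, 4), (0x10547683, 4), (0x206573a9, 4), (0x537684a9, 4), (0x206573a9, 4), (0x21536487, 4), (0x104385a9, 4), (0x537684a9, 4), (0x104385a9, 4), (0x20637584, 4), (0x537684a9, 4), (0x21536487, 4)]⟩

def c_5276 : frmChk tA tB F_5276 = true := by decide +kernel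

def r_5276_0 : chkL rootF engF2 tA tB sA_445 sB_445 4 F_5276 [(511, 0, 0)]
    0x1 = true := by
  decide +kernel

theorem f_5276 (h : TabsF) : FrameF repsF 445 F_5276.f :=
  frame_of rfl c_5276 (runs_of engOK r_5276_0) (by decide +kernel) h.1 h.2

theorem cl_445 (h : TabsF) : ∀ f ∈ fr_445, FrameF repsF 445 f :=
  List.forall_mem_cons.2 ⟨f_5249 h, List.forall_mem_cons.2 ⟨f_5250 h, List.forall_mem_cons.2 ⟨f_5251 h, List.forall_mem_cons.2 ⟨f_5252 h, List.forall_mem_cons.2 ⟨f_5253 h, List.forall_mem_cons.2 ⟨f_5254 h, List.forall_mem_cons.2 ⟨f_5255 h, List.forall_mem_cons.2 ⟨f_5256 h, List.forall_mem_cons.2 ⟨f_5257 h, List.forall_mem_cons.2 ⟨f_5258 h, List.forall_mem_cons.2 ⟨f_5259 h, List.forall_mem_cons.2 ⟨f_5260 h, List.forall_mem_cons.2 ⟨f_5261 h, List.forall_mem_cons.2 ⟨f_5262 h, List.forall_mem_cons.2 ⟨f_5263 h, List.forall_mem_cons.2 ⟨f_5264 h, List.forall_mem_cons.2 ⟨f_5265 h, List.forall_mem_cons.2 ⟨f_5266 h, List.forall_mem_cons.2 ⟨f_5267 h, List.forall_mem_cons.2 ⟨f_5268 h, List.forall_mem_cons.2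 ⟨f_5269 h, List.forall_mem_cons.2 ⟨f_5270 h, List.forall_mem_cons.2 ⟨f_5271 h, List.forall_mem_cons.2 ⟨f_5272 h, List.forall_mem_cons.2 ⟨f_5273 h, List.forall_mem_cons.2 ⟨f_5274 h, List.forall_mem_cons.2 ⟨f_5275 h, List.forall_mem_cons.2 ⟨f_5276 h,
    fun _ h0 => absurd h0 List.not_mem_nil⟩⟩⟩⟩⟩⟩⟩⟩⟩⟩⟩⟩⟩⟩⟩⟩⟩⟩⟩⟩⟩⟩⟩⟩⟩⟩⟩⟩

def F_5277 : FrX :=
  ⟨0x1c2102000004044000002041000101000082040884044000020004004000880048888000882802002200220600040802081000011010202405202000004,
    0x0, 0, 0x21637584, 4,
    [(0x0, 0), (0x205386a9, 4), (0x105487a9, 4), (0x214376a9, 4), (0x205386a9, 4), (0x105487a9, 4)],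
    [(0x21637584, 4), (0x104376a9, 4), (0x205487a9, 4), (0x215386a9, 4), (0x104376a9, 4), (0x205487a9, 4)]⟩

def c_5277 : frmChk tA tA F_5277 = true := by decide +kernel

def r_5277_0 : chkL rootF engF2 tA tA sA_446 sA_446 4 F_5277 [(511, 0, 0)]
    0x1 = true := by
  decide +kernel

theorem f_5277 (h : TabsF) : FrameF repsF 446 F_5277.f :=
  frame_of rfl c_5277 (runs_of engOK r_5277_0) (by decide +kernel) h.1 h.1

def F_5278 : FrX :=
  ⟨0x482000044040440000c204002000900018204000101110000402020002080240008806000202000a000110204000800284000222030202002200310200,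
    0xa0, 1, 0x103043617593a2, 7,
    [(0xa0, 1), (0x538690a2, 4), (0x548790a1, 4), (0x21437690, 4), (0x538690a2, 4), (0x548790a1, 4)],
    [(0x103043617593a2, 7), (0x428097a3, 4), (0x42637185, 4), (0x425091a6, 4), (0x428097a3, 4), (0x42637185, 4)]⟩

def c_5278 : frmChk tA tA F_5278 = true := by decide +kernel

def r_5278_0 : chkL rootF engF2 tA tA sA_446 sA_446 4 F_5278 [(511, 0, 0)]
    0x1 = true := by
  decide +kernel

theorem f_5278 (h : TabsF) : FrameF repsF 446 F_5278.f :=
  frame_of rfl c_5278 (runs_of engOK r_5278_0) (by decide +kernel) h.1 h.1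

def F_5279 : FrX :=
  ⟨0x80080a000804040e000021010020010000020408a000200030002840041401004002040010200a002020000604008800242000022042002a02011008800,
    0xa6, 1, 0x104152607691a0, 7,
    [(0xa6, 1), (0x205396a8, 4), (0x10548796, 4), (0x214396a7, 4), (0x205396a8, 4), (0x10548796, 4)],
    [(0x104152607691a0, 7), (0x217380a5, 4), (0x206471a9, 4), (0x21647083, 4), (0x206471a9, 4), (0x31708295, 4), (0x306487a5, 4), (0x21647083, 4), (0x306487a5, 4), (0x107283a9, 4), (0x21647083, 4), (0x31708295, 4)]⟩

def c_5279 : frmChk tA tB F_5279 = true := by decide +kernel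

def r_5279_0 : chkL rootF engF2 tA tB sA_446 sB_446 4 F_5279 [(511, 0, 0)]
    0x1 = true := by
  decide +kernel

theorem f_5279 (h : TabsF) : FrameF repsF 446 F_5279.f :=
  frame_of rfl c_5279 (runs_of engOK r_5279_0) (by decide +kernel) h.1 h.2

def F_5280 : FrX :=
  ⟨0x482000044040440000c2040020009000182040020001100100080804010c04208080000202180242105000004001802080000210090000000a08010308,
    0xa0, 1, 0x4151658298a5, 6,
    [(0xa0, 1), (0x538690a2, 4), (0x548790a1, 4), (0x21437690, 4), (0x538690a2, 4), (0x548790a1, 4)],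
    [(0x4151658298a5, 6), (0x628094a3, 4), (0x506297a1, 4), (0x31627485, 4), (0x628094a3, 4), (0x506297a1, 4)]⟩

def c_5280 : frmChk tA tA F_5280 = true := by decide +kernel

def r_5280_0 : chkL rootF engF2 tA tA sA_446 sA_446 4 F_5280 [(511, 0, 0)]
    0x1 = true := by
  decide +kernel

theorem f_5280 (h : TabsF) : FrameF repsF 446 F_5280.f :=
  frame_of rfl c_5280 (runs_of engOK r_5280_0) (by decide +kernel) h.1 h.1

def F_5281 : FrX :=
  ⟨0x2002000900044004000e02041000141000800040802000242000c00811010400040080820002008042020810400000802004202004100200440203302001,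
    0xa3, 1, 0x10304164748290a2, 8,
    [(0xa3, 1), (0x208693a5, 4), (0x10548793, 4), (0x217693a4, 4), (0x208693a5, 4), (0x10548793, 4)],
    [(0x10304164748290a2, 8), (0x205183a9, 4), (0x62758394, 4), (0x607183a4, 4), (0x205183a9, 4), (0x62758394, 4)]⟩

def c_5281 : frmChk tA tA F_5281 = true := by decide +kernel

def r_5281_0 : chkL rootF engF2 tA tA sA_446 sA_446 4 F_5281 [(511, 0, 0)]
    0x1 = true := by
  decide +kernel

theorem f_5281 (h : TabsF) : FrameF repsF 446 F_5281.f :=
  frame_of rfl c_5281 (runs_of engOK r_5281_0) (by decide +kernel) h.1 h.1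

def F_5282 : FrX :=
  ⟨0x80080a000804040e00002101002001000002040881104002220008100004080049010000a02800802200000600040802040040011002202405111000004,
    0xa6, 1, 0x103150627185a0, 7,
    [(0xa6, 1), (0x205396a8, 4), (0x10548796, 4), (0x214396a7, 4), (0x205396a8, 4), (0x10548796, 4)],
    [(0x103150627185a0, 7), (0x218095a6, 4), (0x318495a7, 4), (0x32407695, 4), (0x218095a6, 4), (0x318495a7, 4)]⟩

def c_5282 : frmChk tA tA F_5282 = true := by decide +kernel

def r_5282_0 : chkL rootF engF2 tA tA sA_446 sA_446 4 F_5282 [(511, 0, 0)]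
    0x1 = true := by
  decide +kernel

theorem f_5282 (h : TabsF) : FrameF repsF 446 F_5282.f :=
  frame_of rfl c_5282 (runs_of engOK r_5282_0) (by decide +kernel) h.1 h.1

def F_5283 : FrX :=
  ⟨0x2002000900044004000e02041000141000800040802000242004400111010040040088020002008042020810400000800204202040041002a40404080801,
    0xa3, 1, 0x2031708291a2, 6,
    [(0xa3, 1), (0x208693a5, 4), (0x10548793, 4), (0x217693a4, 4), (0x208693a5, 4), (0x10548793, 4)],
    [(0x2031708291a2, 6), (0x405261a7, 4), (0x54628397, 4), (0x10526483, 4), (0x54628397, 4), (0x215064a9, 4), (0x416083a7, 4), (0x10526483, 4), (0x416083a7, 4), (0x10426597, 4), (0x10526483, 4), (0x215064a9, 4)]⟩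

def c_5283 : frmChk tA tB F_5283 = true := by decide +kernel

def r_5283_0 : chkL rootF engF2 tA tB sA_446 sB_446 4 F_5283 [(511, 0, 0)]
    0x1 = true := by
  decide +kernel

theorem f_5283 (h : TabsF) : FrameF repsF 446 F_5283.f :=
  frame_of rfl c_5283 (runs_of engOK r_5283_0) (by decide +kernel) h.1 h.2

def F_5284 : FrX :=
  ⟨0x80080a000804040e00002101002001000002040882020202020010008042084040012010020010100821801100100043024002004005010400090008010,
    0xa6, 1, 0x4054647692a6, 6,
    [(0xa6, 1), (0x205396a8, 4), (0x10548796, 4), (0x214396a7, 4), (0x205396a8, 4), (0x10548796, 4)],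
    [(0x4054647692a6, 6), (0x508694a3, 4), (0x416072a5, 4), (0x507283a6, 4), (0x416072a5, 4), (0x538091a6, 4), (0x637294a8, 4), (0x507283a6, 4), (0x637294a8, 4), (0x416583a0, 4), (0x507283a6, 4), (0x538091a6, 4)]⟩

def c_5284 : frmChk tA tB F_5284 = true := by decide +kernel

def r_5284_0 : chkL rootF engF2 tA tB sA_446 sB_446 4 F_5284 [(511, 0, 0)]
    0x1 = true := by
  decide +kernel

theorem f_5284 (h : TabsF) : FrameF repsF 446 F_5284.f :=
  frame_of rfl c_5284 (runs_of engOK r_5284_0) (by decide +kernel) h.1 h.2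

def F_5285 : FrX :=
  ⟨0x2002000900044004000e020410001410008000408004004448102000108010410001020200020800094001820000400092800900402c0000104000210280,
    0xa3, 1, 0x30415295a5, 5,
    [(0xa3, 1), (0x208693a5, 4), (0x10548793, 4), (0x217693a4, 4), (0x208693a5, 4), (0x10548793, 4)],
    [(0x30415295a5, 5), (0x538692a0, 4), (0x438792a1, 4), (0x10547692, 4), (0x538692a0, 4), (0x438792a1, 4)]⟩

def c_5285 : frmChk tA tA F_5285 = true := by decide +kernel

def r_5285_0 : chkL rootF engF2 tA tA sA_446 sA_446 4 F_5285 [(511, 0, 0)]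
    0x1 = true := by
  decide +kernel

theorem f_5285 (h : TabsF) : FrameF repsF 446 F_5285.f :=
  frame_of rfl c_5285 (runs_of engOK r_5285_0) (by decide +kernel) h.1 h.1

def F_5286 : FrX :=
  ⟨0x482000044040440000c20400200090001820400100200280011801000801012002000500000850000200550804010401000012101c0000014001020204,
    0xa0, 1, 0x103143748090a6, 7,
    [(0xa0, 1), (0x538690a2, 4), (0x548790a1, 4), (0x21437690, 4), (0x538690a2, 4), (0x548790a1, 4)],
    [(0x103143748090a6, 7), (0x548692a1, 4), (0x10758693, 4), (0x327486a0, 4), (0x548692a1, 4), (0x10758693, 4)]⟩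

def c_5286 : frmChk tA tA F_5286 = true := by decide +kernel

def r_5286_0 : chkL rootF engF2 tA tA sA_446 sA_446 4 F_5286 [(511, 0, 0)]
    0x116531 = true := by
  decide +kernel

theorem f_5286 (h : TabsF) : FrameF repsF 446 F_5286.f :=
  frame_of rfl c_5286 (runs_of engOK r_5286_0) (by decide +kernel) h.1 h.1

def F_5287 : FrX :=
  ⟨0x2002000900044004000e02041000141000800040810000028089804002000400140081010000030400920221080008000100081084008210480042001001,
    0xa3, 1, 0x4254647398a3, 6,
    [(0xa3, 1), (0x208693a5, 4), (0x10548793, 4), (0x217693a4, 4), (0x208693a5, 4), (0x10548793, 4)],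
    [(0x4254647398a3, 6), (0x408795a2, 4), (0x10628793, 4), (0x415387a6, 4), (0x408795a2, 4), (0x10628793, 4)]⟩

def c_5287 : frmChk tA tA F_5287 = true := by decide +kernel

def r_5287_0 : chkL rootF engF2 tA tA sA_446 sA_446 4 F_5287 [(511, 0, 0)]
    0x1 = true := by
  decide +kernel

theorem f_5287 (h : TabsF) : FrameF repsF 446 F_5287.f :=
  frame_of rfl c_5287 (runs_of engOK r_5287_0) (by decide +kernel) h.1 h.1

def F_5288 : FrX :=
  ⟨0x80080a000804040e000021010020010000020408a00008014004008088b0000004081000082020409010080208041408202010002008200082024400200,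
    0xa6, 1, 0x204253648497a3, 7,
    [(0xa6, 1), (0x205396a8, 4), (0x10548796, 4), (0x214396a7, 4), (0x205396a8, 4), (0x10548796, 4)],
    [(0x204253648497a3, 7), (0x428693a0, 4), (0x21758390, 4), (0x758093a6, 4), (0x21758390, 4), (0x416380a9, 4), (0x426075a8, 4), (0x758093a6, 4), (0x426075a8, 4), (0x213098a6, 4), (0x758093a6, 4), (0x416380a9, 4)]⟩

def c_5288 : frmChk tA tB F_5288 = true := by decide +kernel

def r_5288_0 : chkL rootF engF2 tA tB sA_446 sB_446 4 F_5288 [(511, 0, 0)]
    0x44e = true := by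
  decide +kernel

theorem f_5288 (h : TabsF) : FrameF repsF 446 F_5288.f :=
  frame_of rfl c_5288 (runs_of engOK r_5288_0) (by decide +kernel) h.1 h.2

def F_5289 : FrX :=
  ⟨0x1c4044000008081000000840080410000101084060002080000102008121000010408080080862000420005011810400810010004000820440700020100,
    0x0, 0, 0x54657484, 4,
    [(0x0, 0), (0x20637584, 4), (0x105476a9, 4), (0x647583a9, 4), (0x105476a9, 4), (0x21647385, 4), (0x204386a9, 4), (0x647583a9, 4), (0x204386a9, 4), (0x10657483, 4), (0x647583a9, 4), (0x21647385, 4)],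
    [(0x54657484, 4), (0x206374a9, 4), (0x107586a9, 4), (0x215483a9, 4), (0x206374a9, 4), (0x107586a9, 4)]⟩

def c_5289 : frmChk tB tA F_5289 = true := by decide +kernel

def r_5289_0 : chkL rootF engF2 tB tA sB_446 sA_446 4 F_5289 [(511, 0, 0)]
    0x1 = true := by
  decide +kernel

theorem f_5289 (h : TabsF) : FrameF repsF 446 F_5289.f :=
  frame_of rfl c_5289 (runs_of engOK r_5289_0) (by decide +kernel) h.2 h.1

def F_5290 : FrX :=
  ⟨0x1001040012008080000e00840800410008101000044c20080010100000200810008048084080002000020805011810000810011005000424480300041000,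
    0xa3, 1, 0x4264748595a5, 6,
    [(0xa3, 1), (0x207584a6, 4), (0x10547693, 4), (0x647593a8, 4), (0x10547693, 4), (0x216485a7, 4), (0x208693a4, 4), (0x647593a8, 4), (0x208693a4, 4), (0x106574a8, 4), (0x647593a8, 4), (0x216485a7, 4)],
    [(0x4264748595a5, 6), (0x405298a3, 4), (0x106598a7, 4), (0x41627398, 4), (0x405298a3, 4), (0x106598a7, 4)]⟩

def c_5290 : frmChk tB tA F_5290 = true := by decide +kernel

def r_5290_0 : chkL rootF engF2 tB tA sB_446 sA_446 4 F_5290 [(511, 0, 0)]
    0x1 = true := by
  decide +kernel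

theorem f_5290 (h : TabsF) : FrameF repsF 446 F_5290.f :=
  frame_of rfl c_5290 (runs_of engOK r_5290_0) (by decide +kernel) h.2 h.1

def F_5291 : FrX :=
  ⟨0x1001040012008080000e0084080041000810100004401008009010006040081000404800408000412000280040101000081000a00808d040401000060044,
    0xa3, 1, 0x62768398a3, 5,
    [(0xa3, 1), (0x207584a6, 4), (0x10547693, 4), (0x647593a8, 4), (0x10547693, 4), (0x216485a7, 4), (0x208693a4, 4), (0x647593a8, 4), (0x208693a4, 4), (0x106574a8, 4), (0x647593a8, 4), (0x216485a7, 4)],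
    [(0x62768398a3, 5), (0x526094a7, 4), (0x10547283, 4), (0x527483a9, 4), (0x10547283, 4), (0x617495a2, 4), (0x608397a4, 4), (0x527483a9, 4), (0x608397a4, 4), (0x104275a9, 4), (0x527483a9, 4), (0x617495a2, 4)]⟩

def c_5291 : frmChk tB tB F_5291 = true := by decide +kernel

def r_5291_0 : chkL rootF engF2 tB tB sB_446 sB_446 4 F_5291 [(511, 0, 0)]
    0x50e43516 = true := by
  decide +kernel

theorem f_5291 (h : TabsF) : FrameF repsF 446 F_5291.f :=
  frame_of rfl c_5291 (runs_of engOK r_5291_0) (by decide +kernel) h.2 h.2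

def F_5292 : FrX :=
  ⟨0x2002000900044004000e020410001410008000408010020830080220020001800400280101000044040200190100040025000020300c9008000010082001,
    0xa3, 1, 0x10436285a3, 5,
    [(0xa3, 1), (0x208693a5, 4), (0x10548793, 4), (0x217693a4, 4), (0x208693a5, 4), (0x10548793, 4)],
    [(0x10436285a3, 5), (0x526194a8, 4), (0x10758394, 4), (0x607294a3, 4), (0x526194a8, 4), (0x10758394, 4)]⟩

def c_5292 : frmChk tA tA F_5292 = true := by decide +kernel

def r_5292_0 : chkL rootF engF2 tA tA sA_446 sA_446 4 F_5292 [(511, 0, 0)]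
    0x1 = true := by
  decide +kernel

theorem f_5292 (h : TabsF) : FrameF repsF 446 F_5292.f :=
  frame_of rfl c_5292 (runs_of engOK r_5292_0) (by decide +kernel) h.1 h.1

theorem cl_446 (h : TabsF) : ∀ f ∈ fr_446, FrameF repsF 446 f :=
  List.forall_mem_cons.2 ⟨f_5277 h, List.forall_mem_cons.2 ⟨f_5278 h, List.forall_mem_cons.2 ⟨f_5279 h, List.forall_mem_cons.2 ⟨f_5280 h, List.forall_mem_cons.2 ⟨f_5281 h, List.forall_mem_cons.2 ⟨f_5282 h, List.forall_mem_cons.2 ⟨f_5283 h, List.forall_mem_cons.2 ⟨f_5284 h, List.forall_mem_cons.2 ⟨f_5285 h, List.forall_mem_cons.2 ⟨f_5286 h, List.forall_mem_cons.2 ⟨f_5287 h, List.forall_mem_cons.2 ⟨f_5288 h, List.forall_mem_cons.2 ⟨f_5289 h, List.forall_mem_cons.2 ⟨f_5290 h, List.forall_mem_cons.2 ⟨f_5291 h, List.forall_mem_cons.2 ⟨f_5292 h,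
    fun _ h0 => absurd h0 List.not_mem_nil⟩⟩⟩⟩⟩⟩⟩⟩⟩⟩⟩⟩⟩⟩⟩⟩

def F_5293 : FrX :=
  ⟨0x80080a000804040e0000210100200100000204088042200041008080080100210108006000e00008002102000310001110004000a002202500040900200,
    0xa6, 1, 0x4261748391a2, 6,
    [(0xa6, 1), (0x205396a8, 4), (0x10548796, 4), (0x214396a7, 4), (0x205396a8, 4), (0x10548796, 4)],
    [(0x4261748391a2, 6), (0x316485a0, 4), (0x32647590, 4), (0x216487a9, 4), (0x316485a0, 4), (0x32647590, 4)]⟩

def c_5293 : frmChk tA tA F_5293 = true := by decide +kernel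

def r_5293_0 : chkL rootF engF2 tA tA sA_447 sA_447 4 F_5293 [(511, 0, 0)]
    0x427 = true := by
  decide +kernel

theorem f_5293 (h : TabsF) : FrameF repsF 447 F_5293.f :=
  frame_of rfl c_5293 (runs_of engOK r_5293_0) (by decide +kernel) h.1 h.1

def F_5294 : FrX :=
  ⟨0x80080a000804040e0000210100200100000204089002000860400140028000800804040100800a000800481011010080040048022080402100888800080,
    0xa6, 1, 0x214183a8, 4,
    [(0xa6, 1), (0x205396a8, 4), (0x10548796, 4), (0x214396a7, 4), (0x205396a8, 4), (0x10548796, 4)],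
    [(0x214183a8, 4), (0x107586a2, 4), (0x40527693, 4), (0x627593a8, 4), (0x40527693, 4), (0x416287a5, 4), (0x108293a6, 4), (0x627593a8, 4), (0x108293a6, 4), (0x406572a8, 4), (0x627593a8, 4), (0x416287a5, 4)]⟩

def c_5294 : frmChk tA tB F_5294 = true := by decide +kernel

def r_5294_0 : chkL rootF engF2 tA tB sA_447 sB_447 4 F_5294 [(511, 0, 0)]
    0x1 = true := by
  decide +kernel

theorem f_5294 (h : TabsF) : FrameF repsF 447 F_5294.f :=
  frame_of rfl c_5294 (runs_of engOK r_5294_0) (by decide +kernel) h.1 h.2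

def F_5295 : FrX :=
  ⟨0x482000044040440000c2040020009000182040010080020800800810020208208400081004020182000810110410400010808008841000040a00010090,
    0xa0, 1, 0x1064728593a0, 6,
    [(0xa0, 1), (0x538690a2, 4), (0x548790a1, 4), (0x21437690, 4), (0x538690a2, 4), (0x548790a1, 4)],
    [(0x1064728593a0, 6), (0x315498a7, 4), (0x315286a0, 4), (0x31427096, 4), (0x315498a7, 4), (0x315286a0, 4)]⟩

def c_5295 : frmChk tA tA F_5295 = true := by decide +kernel

def r_5295_0 : chkL rootF engF2 tA tA sA_447 sA_447 4 F_5295 [(511, 0, 0)]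
    0x1 = true := by
  decide +kernel

theorem f_5295 (h : TabsF) : FrameF repsF 447 F_5295.f :=
  frame_of rfl c_5295 (runs_of engOK r_5295_0) (by decide +kernel) h.1 h.1

def F_5296 : FrX :=
  ⟨0x2002000900044004000e02041000141000800040808000401280a00010812001000204004026000480020800081020010000820008804000444220408208,
    0xa3, 1, 0x3140647486a8, 6,
    [(0xa3, 1), (0x208693a5, 4), (0x10548793, 4), (0x217693a4, 4), (0x208693a5, 4), (0x10548793, 4)],
    [(0x3140647486a8, 6), (0x425190a8, 4), (0x437590a6, 4), (0x32718690, 4), (0x425190a8, 4), (0x437590a6, 4)]⟩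

def c_5296 : frmChk tA tA F_5296 = true := by decide +kernel

def r_5296_0 : chkL rootF engF2 tA tA sA_447 sA_447 4 F_5296 [(511, 0, 0)]
    0x1 = true := by
  decide +kernel

theorem f_5296 (h : TabsF) : FrameF repsF 447 F_5296.f :=
  frame_of rfl c_5296 (runs_of engOK r_5296_0) (by decide +kernel) h.1 h.1

def F_5297 : FrX :=
  ⟨0x2002000900044004000e020410001410008000408080026008200001100121080000240011000084408000010190000c001400a000a008040008080a1100,
    0xa3, 1, 0x103242536385a3, 7,
    [(0xa3, 1), (0x208693a5, 4), (0x10548793, 4), (0x217693a4, 4), (0x208693a5, 4), (0x10548793, 4)],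
    [(0x103242536385a3, 7), (0x415296a8, 4), (0x10728396, 4), (0x407596a3, 4), (0x415296a8, 4), (0x10728396, 4)]⟩

def c_5297 : frmChk tA tA F_5297 = true := by decide +kernel

def r_5297_0 : chkL rootF engF2 tA tA sA_447 sA_447 4 F_5297 [(511, 0, 0)]
    0x1 = true := by
  decide +kernel

theorem f_5297 (h : TabsF) : FrameF repsF 447 F_5297.f :=
  frame_of rfl c_5297 (runs_of engOK r_5297_0) (by decide +kernel) h.1 h.1

def F_5298 : FrX :=
  ⟨0x80080a000804040e0000210100200100000204089008000031000018020040800901400100800882010110080808104016000001080800a0008004c0080,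
    0xa6, 1, 0x203142728198a0, 7,
    [(0xa6, 1), (0x205396a8, 4), (0x10548796, 4), (0x214396a7, 4), (0x205396a8, 4), (0x10548796, 4)],
    [(0x203142728198a0, 7), (0x325196a7, 4), (0x325094a8, 4), (0x10326487, 4), (0x325196a7, 4), (0x325094a8, 4)]⟩

def c_5298 : frmChk tA tA F_5298 = true := by decide +kernel

def r_5298_0 : chkL rootF engF2 tA tA sA_447 sA_447 4 F_5298 [(511, 0, 0)]
    0x1 = true := by
  decide +kernel

theorem f_5298 (h : TabsF) : FrameF repsF 447 F_5298.f :=
  frame_of rfl c_5298 (runs_of engOK r_5298_0) (by decide +kernel) h.1 h.1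

def F_5299 : FrX :=
  ⟨0x482000044040440000c2040020009000182040001012080010400804000c00030820000902000480003000048490002000086010100080850200800041,
    0xa0, 1, 0x3062718095a0, 6,
    [(0xa0, 1), (0x538690a2, 4), (0x548790a1, 4), (0x21437690, 4), (0x538690a2, 4), (0x548790a1, 4)],
    [(0x3062718095a0, 6), (0x204391a6, 4), (0x218594a7, 4), (0x30428591, 4), (0x218594a7, 4), (0x10427693, 4), (0x324085a6, 4), (0x30428591, 4), (0x324085a6, 4), (0x304192a7, 4), (0x30428591, 4), (0x10427693, 4)]⟩

def c_5299 : frmChk tA tB F_5299 = true := by decide +kernel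

def r_5299_0 : chkL rootF engF2 tA tB sA_447 sB_447 4 F_5299 [(511, 0, 0)]
    0x1 = true := by
  decide +kernel

theorem f_5299 (h : TabsF) : FrameF repsF 447 F_5299.f :=
  frame_of rfl c_5299 (runs_of engOK r_5299_0) (by decide +kernel) h.1 h.2

def F_5300 : FrX :=
  ⟨0x2002000900044004000e02041000141000800040801000282020002100012102800020210100005000180011012040040300082010880808002011082000,
    0xa3, 1, 0x21324161708295a3, 8,
    [(0xa3, 1), (0x208693a5, 4), (0x10548793, 4), (0x217693a4, 4), (0x208693a5, 4), (0x10548793, 4)],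
    [(0x21324161708295a3, 8), (0x328790a4, 4), (0x40517692, 4), (0x425190a3, 4), (0x40517692, 4), (0x428693a0, 4), (0x435187a2, 4), (0x425190a3, 4), (0x435187a2, 4), (0x207694a3, 4), (0x425190a3, 4), (0x428693a0, 4)]⟩

def c_5300 : frmChk tA tB F_5300 = true := by decide +kernel

def r_5300_0 : chkL rootF engF2 tA tB sA_447 sB_447 4 F_5300 [(511, 0, 0)]
    0x1 = true := by
  decide +kernel

theorem f_5300 (h : TabsF) : FrameF repsF 447 F_5300.f :=
  frame_of rfl c_5300 (runs_of engOK r_5300_0) (by decide +kernel) h.1 h.2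

def F_5301 : FrX :=
  ⟨0x80080a000804040e0000210100200100000204089008000031000080880008101110040101018042004840001401000104004101000008a100100448080,
    0xa6, 1, 0x4362708591a6, 6,
    [(0xa6, 1), (0x205396a8, 4), (0x10548796, 4), (0x214396a7, 4), (0x205396a8, 4), (0x10548796, 4)],
    [(0x4362708591a6, 6), (0x217684a5, 4), (0x21508397, 4), (0x214396a0, 4), (0x217684a5, 4), (0x21508397, 4)]⟩

def c_5301 : frmChk tA tA F_5301 = true := by decide +kernel

def r_5301_0 : chkL rootF engF2 tA tA sA_447 sA_447 4 F_5301 [(511, 0, 0)]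
    0x1 = true := by
  decide +kernel

theorem f_5301 (h : TabsF) : FrameF repsF 447 F_5301.f :=
  frame_of rfl c_5301 (runs_of engOK r_5301_0) (by decide +kernel) h.1 h.1

def F_5302 : FrX :=
  ⟨0x2002000900044004000e02041000141000800040801000282000a020008120020000222011101010204400100180200400000820108002080012100c2001,
    0xa3, 1, 0x405061708297a6, 7,
    [(0xa3, 1), (0x208693a5, 4), (0x10548793, 4), (0x217693a4, 4), (0x208693a5, 4), (0x10548793, 4)],
    [(0x405061708297a6, 7), (0x435187a2, 4), (0x40517692, 4), (0x305186a9, 4), (0x435187a2, 4), (0x40517692, 4)]⟩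

def c_5302 : frmChk tA tA F_5302 = true := by decide +kernel

def r_5302_0 : chkL rootF engF2 tA tA sA_447 sA_447 4 F_5302 [(511, 0, 0)]
    0x1 = true := by
  decide +kernel

theorem f_5302 (h : TabsF) : FrameF repsF 447 F_5302.f :=
  frame_of rfl c_5302 (runs_of engOK r_5302_0) (by decide +kernel) h.1 h.1

def F_5303 : FrX :=
  ⟨0x2002000900044004000e0204100014100080004081000004140800803081004120000800400200900808004a001060000201810040000220044220010280,
    0xa3, 1, 0x103250638797a2, 7,
    [(0xa3, 1), (0x208693a5, 4), (0x10548793, 4), (0x217693a4, 4), (0x208693a5, 4), (0x10548793, 4)],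
    [(0x103250638797a2, 7), (0x617283a5, 4), (0x41508397, 4), (0x648392a0, 4), (0x617283a5, 4), (0x41508397, 4)]⟩

def c_5303 : frmChk tA tA F_5303 = true := by decide +kernel

def r_5303_0 : chkL rootF engF2 tA tA sA_447 sA_447 4 F_5303 [(511, 0, 0)]
    0x1 = true := by
  decide +kernel

theorem f_5303 (h : TabsF) : FrameF repsF 447 F_5303.f :=
  frame_of rfl c_5303 (runs_of engOK r_5303_0) (by decide +kernel) h.1 h.1

def F_5304 : FrX :=
  ⟨0x80080a000804040e00002101002001000002040890080000304010008220001c0010041000008410008810101405000024004103000050a100100040080,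
    0xa6, 1, 0x1021306294a2, 6,
    [(0xa6, 1), (0x205396a8, 4), (0x10548796, 4), (0x214396a7, 4), (0x205396a8, 4), (0x10548796, 4)],
    [(0x1021306294a2, 6), (0x107598a3, 4), (0x32647095, 4), (0x64758190, 4), (0x32647095, 4), (0x718590a2, 4), (0x648091a3, 4), (0x64758190, 4), (0x648091a3, 4), (0x32508197, 4), (0x64758190, 4), (0x718590a2, 4)]⟩

def c_5304 : frmChk tA tB F_5304 = true := by decide +kernel

def r_5304_0 : chkL rootF engF2 tA tB sA_447 sB_447 4 F_5304 [(511, 0, 0)]
    0x1 = true := by
  decide +kernel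

theorem f_5304 (h : TabsF) : FrameF repsF 447 F_5304.f :=
  frame_of rfl c_5304 (runs_of engOK r_5304_0) (by decide +kernel) h.1 h.2

def F_5305 : FrX :=
  ⟨0x1c404400000808100000084008041000010108404220010000202200000900081020088108084404004120004a0084091000002100880c0004020020200,
    0x0, 0, 0x65a9, 2,
    [(0x0, 0), (0x20637584, 4), (0x105476a9, 4), (0x647583a9, 4), (0x105476a9, 4), (0x21647385, 4), (0x204386a9, 4), (0x647583a9, 4), (0x204386a9, 4), (0x10657483, 4), (0x647583a9, 4), (0x21647385, 4)],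
    [(0x65a9, 2), (0x206385a9, 4), (0x106487a9, 4), (0x214375a9, 4), (0x206385a9, 4), (0x106487a9, 4)]⟩

def c_5305 : frmChk tB tA F_5305 = true := by decide +kernel

def r_5305_0 : chkL rootF engF2 tB tA sB_447 sA_447 4 F_5305 [(511, 0, 0)]
    0x1 = true := by
  decide +kernel

theorem f_5305 (h : TabsF) : FrameF repsF 447 F_5305.f :=
  frame_of rfl c_5305 (runs_of engOK r_5305_0) (by decide +kernel) h.2 h.1

def F_5306 : FrX :=
  ⟨0x1001040012008080000e00840800410008101000060000048040400220180080280100800100110240041400800010406000090100210021008008011090,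
    0xa3, 1, 0x103240628194a0, 7,
    [(0xa3, 1), (0x207584a6, 4), (0x10547693, 4), (0x647593a8, 4), (0x10547693, 4), (0x216485a7, 4), (0x208693a4, 4), (0x647593a8, 4), (0x208693a4, 4), (0x106574a8, 4), (0x647593a8, 4), (0x216485a7, 4)],
    [(0x103240628194a0, 7), (0x304152a6, 4), (0x417095a8, 4), (0x41738692, 4), (0x304152a6, 4), (0x417095a8, 4)]⟩

def c_5306 : frmChk tB tA F_5306 = true := by decide +kernel

def r_5306_0 : chkL rootF engF2 tB tA sB_447 sA_447 4 F_5306 [(511, 0, 0)]
    0x1 = true := by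
  decide +kernel

theorem f_5306 (h : TabsF) : FrameF repsF 447 F_5306.f :=
  frame_of rfl c_5306 (runs_of engOK r_5306_0) (by decide +kernel) h.2 h.1

def F_5307 : FrX :=
  ⟨0x600020801080810000c004018041010100100401001004800000820814200208040008080044200040011088000880084820010000208048040090010a,
    0xa0, 1, 0x5064728193a0, 6,
    [(0xa0, 1), (0x637584a2, 4), (0x547690a1, 4), (0x64758390, 4), (0x547690a1, 4), (0x21647385, 4), (0x438690a2, 4), (0x64758390, 4), (0x438690a2, 4), (0x657483a1, 4), (0x64758390, 4), (0x21647385, 4)],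
    [(0x5064728193a0, 6), (0x206194a7, 4), (0x425360a8, 4), (0x20536491, 4), (0x425360a8, 4), (0x10648792, 4), (0x415396a7, 4), (0x20536491, 4), (0x415396a7, 4), (0x406291a8, 4), (0x20536491, 4), (0x10648792, 4)]⟩

def c_5307 : frmChk tB tB F_5307 = true := by decide +kernel

def r_5307_0 : chkL rootF engF2 tB tB sB_447 sB_447 4 F_5307 [(511, 0, 0)]
    0x1 = true := by
  decide +kernel

theorem f_5307 (h : TabsF) : FrameF repsF 447 F_5307.f :=
  frame_of rfl c_5307 (runs_of engOK r_5307_0) (by decide +kernel) h.2 h.2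

def F_5308 : FrX :=
  ⟨0x2002000900044004000e0204100014100080004080080024800120200a000c00040081000888000812000200400050840044200006000200401402426000,
    0xa3, 1, 0x5264708391a3, 6,
    [(0xa3, 1), (0x208693a5, 4), (0x10548793, 4), (0x217693a4, 4), (0x208693a5, 4), (0x10548793, 4)],
    [(0x5264708391a3, 6), (0x437581a2, 4), (0x30628197, 4), (0x408195a6, 4), (0x437581a2, 4), (0x30628197, 4)]⟩

def c_5308 : frmChk tA tA F_5308 = true := by decide +kernel

def r_5308_0 : chkL rootF engF2 tA tA sA_447 sA_447 4 F_5308 [(511, 0, 0)]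
    0x1 = true := by
  decide +kernel

theorem f_5308 (h : TabsF) : FrameF repsF 447 F_5308.f :=
  frame_of rfl c_5308 (runs_of engOK r_5308_0) (by decide +kernel) h.1 h.1

theorem cl_447 (h : TabsF) : ∀ f ∈ fr_447, FrameF repsF 447 f :=
  List.forall_mem_cons.2 ⟨f_5293 h, List.forall_mem_cons.2 ⟨f_5294 h, List.forall_mem_cons.2 ⟨f_5295 h, List.forall_mem_cons.2 ⟨f_5296 h, List.forall_mem_cons.2 ⟨f_5297 h, List.forall_mem_cons.2 ⟨f_5298 h, List.forall_mem_cons.2 ⟨f_5299 h, List.forall_mem_cons.2 ⟨f_5300 h, List.forall_mem_cons.2 ⟨f_5301 h, List.forall_mem_cons.2 ⟨f_5302 h, List.forall_mem_cons.2 ⟨f_5303 h, List.forall_mem_cons.2 ⟨f_5304 h, List.forall_mem_cons.2 ⟨f_5305 h, List.forall_mem_cons.2 ⟨f_5306 h, List.forall_mem_cons.2 ⟨f_5307 h, List.forall_mem_cons.2 ⟨f_5308 h,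
    fun _ h0 => absurd h0 List.not_mem_nil⟩⟩⟩⟩⟩⟩⟩⟩⟩⟩⟩⟩⟩⟩⟩⟩

def F_5309 : FrX :=
  ⟨0x80080a000804040e0000210100200100000204088042200041008080080100210108006000208008002800002300001110004200a002202500004920200,
    0xa6, 1, 0x4261748391a2, 6,
    [(0xa6, 1), (0x205396a8, 4), (0x10548796, 4), (0x214396a7, 4), (0x205396a8, 4), (0x10548796, 4)],
    [(0x4261748391a2, 6), (0x316485a0, 4), (0x32647590, 4), (0x216487a9, 4), (0x316485a0, 4), (0x32647590, 4)]⟩

def c_5309 : frmChk tA tA F_5309 = true := by decide +kernel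

def r_5309_0 : chkL rootF engF2 tA tA sA_448 sA_448 4 F_5309 [(511, 0, 0)]
    0x1 = true := by
  decide +kernel

theorem f_5309 (h : TabsF) : FrameF repsF 448 F_5309.f :=
  frame_of rfl c_5309 (runs_of engOK r_5309_0) (by decide +kernel) h.1 h.1

def F_5310 : FrX :=
  ⟨0x80080a000804040e0000210100200100000204089002000220400140028000800804440100800a000800801010210080040048022080402100888240080,
    0xa6, 1, 0x3142758792a3, 6,
    [(0xa6, 1), (0x205396a8, 4), (0x10548796, 4), (0x214396a7, 4), (0x205396a8, 4), (0x10548796, 4)],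
    [(0x3142758792a3, 6), (0x528790a6, 4), (0x30417286, 4), (0x416287a5, 4), (0x30417286, 4), (0x627593a8, 4), (0x416590a2, 4), (0x416287a5, 4), (0x416590a2, 4), (0x307682a5, 4), (0x416287a5, 4), (0x627593a8, 4)]⟩

def c_5310 : frmChk tA tB F_5310 = true := by decide +kernel

def r_5310_0 : chkL rootF engF2 tA tB sA_448 sB_448 4 F_5310 [(511, 0, 0)]
    0x1 = true := by
  decide +kernel

theorem f_5310 (h : TabsF) : FrameF repsF 448 F_5310.f :=
  frame_of rfl c_5310 (runs_of engOK r_5310_0) (by decide +kernel) h.1 h.2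

def F_5311 : FrX :=
  ⟨0x2002000900044004000e02041000141000800040801000481000a04010812001000004104022000480020800021020010000820008804000444220408288,
    0xa3, 1, 0x435065738692a6, 7,
    [(0xa3, 1), (0x208693a5, 4), (0x10548793, 4), (0x217693a4, 4), (0x208693a5, 4), (0x10548793, 4)],
    [(0x435065738692a6, 7), (0x768295a0, 4), (0x40516382, 4), (0x738291a4, 4), (0x768295a0, 4), (0x40516382, 4)]⟩

def c_5311 : frmChk tA tA F_5311 = true := by decide +kernel

def r_5311_0 : chkL rootF engF2 tA tA sA_448 sA_448 4 F_5311 [(511, 0, 0)]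
    0x1 = true := by
  decide +kernel

theorem f_5311 (h : TabsF) : FrameF repsF 448 F_5311.f :=
  frame_of rfl c_5311 (runs_of engOK r_5311_0) (by decide +kernel) h.1 h.1

def F_5312 : FrX :=
  ⟨0x2002000900044004000e020410001410008000408080002081200001100121082000202011000084408002010100000c001400a000a008040008080a1110,
    0xa3, 1, 0x3154768092a3, 6,
    [(0xa3, 1), (0x208693a5, 4), (0x10548793, 4), (0x217693a4, 4), (0x208693a5, 4), (0x10548793, 4)],
    [(0x3154768092a3, 6), (0x217098a4, 4), (0x21546083, 4), (0x217693a5, 4), (0x217098a4, 4), (0x21546083, 4)]⟩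

def c_5312 : frmChk tA tA F_5312 = true := by decide +kernel

def r_5312_0 : chkL rootF engF2 tA tA sA_448 sA_448 4 F_5312 [(511, 0, 0)]
    0x1 = true := by
  decide +kernel

theorem f_5312 (h : TabsF) : FrameF repsF 448 F_5312.f :=
  frame_of rfl c_5312 (runs_of engOK r_5312_0) (by decide +kernel) h.1 h.1

def F_5313 : FrX :=
  ⟨0x1c21020000040440000020410001010000820408900401000008042002020080080122010080090201000300184a004000180801080100a000a02800080,
    0x0, 0, 0x2064, 2,
    [(0x0, 0), (0x205386a9, 4), (0x105487a9, 4), (0x214376a9, 4), (0x205386a9, 4), (0x105487a9, 4)],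
    [(0x2064, 2), (0x205384a9, 4), (0x216587a9, 4), (0x106374a9, 4), (0x205384a9, 4), (0x216587a9, 4)]⟩

def c_5313 : frmChk tA tA F_5313 = true := by decide +kernel

def r_5313_0 : chkL rootF engF2 tA tA sA_448 sA_448 4 F_5313 [(511, 0, 0)]
    0x1 = true := by
  decide +kernel

theorem f_5313 (h : TabsF) : FrameF repsF 448 F_5313.f :=
  frame_of rfl c_5313 (runs_of engOK r_5313_0) (by decide +kernel) h.1 h.1

def F_5314 : FrX :=
  ⟨0x80080a000804040e0000210100200100000204089008000031000018020040800901400100800882011000001848104004200801080800a000802440080,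
    0xa6, 1, 0x203142728198a0, 7,
    [(0xa6, 1), (0x205396a8, 4), (0x10548796, 4), (0x214396a7, 4), (0x205396a8, 4), (0x10548796, 4)],
    [(0x203142728198a0, 7), (0x325196a7, 4), (0x325094a8, 4), (0x10326487, 4), (0x325196a7, 4), (0x325094a8, 4)]⟩

def c_5314 : frmChk tA tA F_5314 = true := by decide +kernel

def r_5314_0 : chkL rootF engF2 tA tA sA_448 sA_448 4 F_5314 [(511, 0, 0)]
    0x1 = true := by
  decide +kernel

theorem f_5314 (h : TabsF) : FrameF repsF 448 F_5314.f :=
  frame_of rfl c_5314 (runs_of engOK r_5314_0) (by decide +kernel) h.1 h.1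

def F_5315 : FrX :=
  ⟨0x482000044040440000c2040020009000182040001012080010400804000c00030820000902000480003000043210002000086010100080902200800042,
    0xa0, 1, 0x3062718095a0, 6,
    [(0xa0, 1), (0x538690a2, 4), (0x548790a1, 4), (0x21437690, 4), (0x538690a2, 4), (0x548790a1, 4)],
    [(0x3062718095a0, 6), (0x204391a6, 4), (0x218594a7, 4), (0x30428591, 4), (0x218594a7, 4), (0x10427693, 4), (0x324085a6, 4), (0x30428591, 4), (0x324085a6, 4), (0x304192a7, 4), (0x30428591, 4), (0x10427693, 4)]⟩

def c_5315 : frmChk tA tB F_5315 = true := by decide +kernel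

def r_5315_0 : chkL rootF engF2 tA tB sA_448 sB_448 4 F_5315 [(511, 0, 0)]
    0x1 = true := by
  decide +kernel

theorem f_5315 (h : TabsF) : FrameF repsF 448 F_5315.f :=
  frame_of rfl c_5315 (runs_of engOK r_5315_0) (by decide +kernel) h.1 h.2

def F_5316 : FrX :=
  ⟨0x2002000900044004000e02041000141000800040801000282031000100002102800020200902001008180011002040040100082010880808202011082000,
    0xa3, 1, 0x10205061768595a6, 8,
    [(0xa3, 1), (0x208693a5, 4), (0x10548793, 4), (0x217693a4, 4), (0x208693a5, 4), (0x10548793, 4)],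
    [(0x10205061768595a6, 8), (0x425190a3, 4), (0x658794a0, 4), (0x328790a4, 4), (0x658794a0, 4), (0x306192a4, 4), (0x435187a2, 4), (0x328790a4, 4), (0x435187a2, 4), (0x324065a9, 4), (0x328790a4, 4), (0x306192a4, 4)]⟩

def c_5316 : frmChk tA tB F_5316 = true := by decide +kernel

def r_5316_0 : chkL rootF engF2 tA tB sA_448 sB_448 4 F_5316 [(511, 0, 0)]
    0x1 = true := by
  decide +kernel

theorem f_5316 (h : TabsF) : FrameF repsF 448 F_5316.f :=
  frame_of rfl c_5316 (runs_of engOK r_5316_0) (by decide +kernel) h.1 h.2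

def F_5317 : FrX :=
  ⟨0x80080a000804040e00002101002001000002040890080000310000808450001041000401010180420048400014010001040041010001088104100408080,
    0xa6, 1, 0x213043648197a5, 7,
    [(0xa6, 1), (0x205396a8, 4), (0x10548796, 4), (0x214396a7, 4), (0x205396a8, 4), (0x10548796, 4)],
    [(0x213043648197a5, 7), (0x203175a4, 4), (0x758392a6, 4), (0x64758190, 4), (0x203175a4, 4), (0x758392a6, 4)]⟩

def c_5317 : frmChk tA tA F_5317 = true := by decide +kernel

def r_5317_0 : chkL rootF engF2 tA tA sA_448 sA_448 4 F_5317 [(511, 0, 0)]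
    0x1 = true := by
  decide +kernel

theorem f_5317 (h : TabsF) : FrameF repsF 448 F_5317.f :=
  frame_of rfl c_5317 (runs_of engOK r_5317_0) (by decide +kernel) h.1 h.1

def F_5318 : FrX :=
  ⟨0x2002000900044004000e02041000141000800040801000282000a02002002480040022001110101020440010018020040000082010841008001210082001,
    0xa3, 1, 0x3240657393a7, 6,
    [(0xa3, 1), (0x208693a5, 4), (0x10548793, 4), (0x217693a4, 4), (0x208693a5, 4), (0x10548793, 4)],
    [(0x3240657393a7, 6), (0x43728596, 4), (0x416072a8, 4), (0x317290a5, 4), (0x43728596, 4), (0x416072a8, 4)]⟩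

def c_5318 : frmChk tA tA F_5318 = true := by decide +kernel

def r_5318_0 : chkL rootF engF2 tA tA sA_448 sA_448 4 F_5318 [(511, 0, 0)]
    0x1 = true := by
  decide +kernel

theorem f_5318 (h : TabsF) : FrameF repsF 448 F_5318.f :=
  frame_of rfl c_5318 (runs_of engOK r_5318_0) (by decide +kernel) h.1 h.1

def F_5319 : FrX :=
  ⟨0x482000044040440000c2040020009000182040000811100100a0008002400200808041008008810200020012201000201800a008500208202200010010,
    0xa0, 1, 0x103141718098a8, 7,
    [(0xa0, 1), (0x538690a2, 4), (0x548790a1, 4), (0x21437690, 4), (0x538690a2, 4), (0x548790a1, 4)],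
    [(0x103141718098a8, 7), (0x508291a6, 4), (0x538791a4, 4), (0x30647291, 4), (0x508291a6, 4), (0x538791a4, 4)]⟩

def c_5319 : frmChk tA tA F_5319 = true := by decide +kernel

def r_5319_0 : chkL rootF engF2 tA tA sA_448 sA_448 4 F_5319 [(511, 0, 0)]
    0x1 = true := by
  decide +kernel

theorem f_5319 (h : TabsF) : FrameF repsF 448 F_5319.f :=
  frame_of rfl c_5319 (runs_of engOK r_5319_0) (by decide +kernel) h.1 h.1

def F_5320 : FrX :=
  ⟨0x2002000900044004000e0204100014100080004081000004140800803081004120000800400200820a00024a000060000201810040280000044020210280,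
    0xa3, 1, 0x103250638797a2, 7,
    [(0xa3, 1), (0x208693a5, 4), (0x10548793, 4), (0x217693a4, 4), (0x208693a5, 4), (0x10548793, 4)],
    [(0x103250638797a2, 7), (0x617283a5, 4), (0x41508397, 4), (0x648392a0, 4), (0x617283a5, 4), (0x41508397, 4)]⟩

def c_5320 : frmChk tA tA F_5320 = true := by decide +kernel

def r_5320_0 : chkL rootF engF2 tA tA sA_448 sA_448 4 F_5320 [(511, 0, 0)]
    0x1 = true := by
  decide +kernel

theorem f_5320 (h : TabsF) : FrameF repsF 448 F_5320.f :=
  frame_of rfl c_5320 (runs_of engOK r_5320_0) (by decide +kernel) h.1 h.1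

def F_5321 : FrX :=
  ⟨0x80080a000804040e00002101002001000002040890080000304010008220001c00100400802080108088101004050402040040030000508300100040080,
    0xa6, 1, 0x1021306294a2, 6,
    [(0xa6, 1), (0x205396a8, 4), (0x10548796, 4), (0x214396a7, 4), (0x205396a8, 4), (0x10548796, 4)],
    [(0x1021306294a2, 6), (0x107598a3, 4), (0x32647095, 4), (0x64758190, 4), (0x32647095, 4), (0x718590a2, 4), (0x648091a3, 4), (0x64758190, 4), (0x648091a3, 4), (0x32508197, 4), (0x64758190, 4), (0x718590a2, 4)]⟩

def c_5321 : frmChk tA tB F_5321 = true := by decide +kernel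

def r_5321_0 : chkL rootF engF2 tA tB sA_448 sB_448 4 F_5321 [(511, 0, 0)]
    0x463 = true := by
  decide +kernel

theorem f_5321 (h : TabsF) : FrameF repsF 448 F_5321.f :=
  frame_of rfl c_5321 (runs_of engOK r_5321_0) (by decide +kernel) h.1 h.2

def F_5322 : FrX :=
  ⟨0x1c40440000080810000008400804100001010840422001000020220000090008102008900881240002412000480100020800202101000a0044220020200,
    0x0, 0, 0x65a9, 2,
    [(0x0, 0), (0x20637584, 4), (0x105476a9, 4), (0x647583a9, 4), (0x105476a9, 4), (0x21647385, 4), (0x204386a9, 4), (0x647583a9, 4), (0x204386a9, 4), (0x10657483, 4), (0x647583a9, 4), (0x21647385, 4)],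
    [(0x65a9, 2), (0x206385a9, 4), (0x106487a9, 4), (0x214375a9, 4), (0x206385a9, 4), (0x106487a9, 4)]⟩

def c_5322 : frmChk tB tA F_5322 = true := by decide +kernel

def r_5322_0 : chkL rootF engF2 tB tA sB_448 sA_448 4 F_5322 [(511, 0, 0)]
    0x1 = true := by
  decide +kernel

theorem f_5322 (h : TabsF) : FrameF repsF 448 F_5322.f :=
  frame_of rfl c_5322 (runs_of engOK r_5322_0) (by decide +kernel) h.2 h.1

def F_5323 : FrX :=
  ⟨0x600020801080810000c004018041010100100400682400000002400020c00008080089008802010020020044801000248002011010002000c220408080,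
    0xa0, 1, 0x1020304173a8, 6,
    [(0xa0, 1), (0x637584a2, 4), (0x547690a1, 4), (0x64758390, 4), (0x547690a1, 4), (0x21647385, 4), (0x438690a2, 4), (0x64758390, 4), (0x438690a2, 4), (0x657483a1, 4), (0x64758390, 4), (0x21647385, 4)],
    [(0x1020304173a8, 6), (0x317598a6, 4), (0x435098a2, 4), (0x41627098, 4), (0x317598a6, 4), (0x435098a2, 4)]⟩

def c_5323 : frmChk tB tA F_5323 = true := by decide +kernel

def r_5323_0 : chkL rootF engF2 tB tA sB_448 sA_448 4 F_5323 [(511, 0, 0)]
    0x1 = true := by
  decide +kernel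

theorem f_5323 (h : TabsF) : FrameF repsF 448 F_5323.f :=
  frame_of rfl c_5323 (runs_of engOK r_5323_0) (by decide +kernel) h.2 h.1

def F_5324 : FrX :=
  ⟨0x600020801080810000c004018041010100100400402400040010400420c0000a080080108002014000020044802004040102013081002000c220008080,
    0xa0, 1, 0x31718197a6, 5,
    [(0xa0, 1), (0x637584a2, 4), (0x547690a1, 4), (0x64758390, 4), (0x547690a1, 4), (0x21647385, 4), (0x438690a2, 4), (0x64758390, 4), (0x438690a2, 4), (0x657483a1, 4), (0x64758390, 4), (0x21647385, 4)],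
    [(0x31718197a6, 5), (0x205163a7, 4), (0x54638097, 4), (0x416382a9, 4), (0x205163a7, 4), (0x54638097, 4)]⟩

def c_5324 : frmChk tB tA F_5324 = true := by decide +kernel

def r_5324_0 : chkL rootF engF2 tB tA sB_448 sA_448 4 F_5324 [(511, 0, 0)]
    0x1 = true := by
  decide +kernel

theorem f_5324 (h : TabsF) : FrameF repsF 448 F_5324.f :=
  frame_of rfl c_5324 (runs_of engOK r_5324_0) (by decide +kernel) h.2 h.1

def F_5325 : FrX :=
  ⟨0x1001040012008080000e00840800410008101000040420028020008200080024220000a011004010e0041010000400804100084400820800060003002080,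
    0xa3, 1, 0x435260748293a1, 7,
    [(0xa3, 1), (0x207584a6, 4), (0x10547693, 4), (0x647593a8, 4), (0x10547693, 4), (0x216485a7, 4), (0x208693a4, 4), (0x647593a8, 4), (0x208693a4, 4), (0x106574a8, 4), (0x647593a8, 4), (0x216485a7, 4)],
    [(0x435260748293a1, 7), (0x41508692, 4), (0x415372a6, 4), (0x304197a8, 4), (0x41508692, 4), (0x415372a6, 4)]⟩

def c_5325 : frmChk tB tA F_5325 = true := by decide +kernel

def r_5325_0 : chkL rootF engF2 tB tA sB_448 sA_448 4 F_5325 [(511, 0, 0)]
    0x1 = true := by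
  decide +kernel

theorem f_5325 (h : TabsF) : FrameF repsF 448 F_5325.f :=
  frame_of rfl c_5325 (runs_of engOK r_5325_0) (by decide +kernel) h.2 h.1

def F_5326 : FrX :=
  ⟨0x600020801080810000c0040180410101001004000a00100800028400041044040012000900400020202b10080020040804008200810088100400020102,
    0xa0, 1, 0x21305064728195a0, 8,
    [(0xa0, 1), (0x637584a2, 4), (0x547690a1, 4), (0x64758390, 4), (0x547690a1, 4), (0x21647385, 4), (0x438690a2, 4), (0x64758390, 4), (0x438690a2, 4), (0x657483a1, 4), (0x64758390, 4), (0x21647385, 4)],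
    [(0x21305064728195a0, 8), (0x406291a7, 4), (0x415396a8, 4), (0x20536491, 4), (0x415396a8, 4), (0x10648792, 4), (0x425360a7, 4), (0x20536491, 4), (0x425360a7, 4), (0x206194a8, 4), (0x20536491, 4), (0x10648792, 4)]⟩

def c_5326 : frmChk tB tB F_5326 = true := by decide +kernel

def r_5326_0 : chkL rootF engF2 tB tB sB_448 sB_448 4 F_5326 [(511, 0, 0)]
    0x1 = true := by
  decide +kernel

theorem f_5326 (h : TabsF) : FrameF repsF 448 F_5326.f :=
  frame_of rfl c_5326 (runs_of engOK r_5326_0) (by decide +kernel) h.2 h.2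

def F_5327 : FrX :=
  ⟨0x482000044040440000c2040020009000182040020001100100080124014041200200000022080220800400084001802088200210108000005220008208,
    0xa0, 1, 0x304254657498a3, 7,
    [(0xa0, 1), (0x538690a2, 4), (0x548790a1, 4), (0x21437690, 4), (0x538690a2, 4), (0x548790a1, 4)],
    [(0x304254657498a3, 7), (0x438092a6, 4), (0x31768095, 4), (0x415280a7, 4), (0x438092a6, 4), (0x31768095, 4)]⟩

def c_5327 : frmChk tA tA F_5327 = true := by decide +kernel

def r_5327_0 : chkL rootF engF2 tA tA sA_448 sA_448 4 F_5327 [(511, 0, 0)]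
    0x1 = true := by
  decide +kernel

theorem f_5327 (h : TabsF) : FrameF repsF 448 F_5327.f :=
  frame_of rfl c_5327 (runs_of engOK r_5327_0) (by decide +kernel) h.1 h.1

def F_5328 : FrX :=
  ⟨0x482000044040440000c2040020009000182040002010900004020280020802800080060001010912200200202000800248001008110200002204010210,
    0xa0, 1, 0x10214063728090a6, 8,
    [(0xa0, 1), (0x538690a2, 4), (0x548790a1, 4), (0x21437690, 4), (0x538690a2, 4), (0x548790a1, 4)],
    [(0x10214063728090a6, 8), (0x658397a4, 4), (0x40518392, 4), (0x617283a0, 4), (0x658397a4, 4), (0x40518392, 4)]⟩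

def c_5328 : frmChk tA tA F_5328 = true := by decide +kernel

def r_5328_0 : chkL rootF engF2 tA tA sA_448 sA_448 4 F_5328 [(511, 0, 0)]
    0x1 = true := by
  decide +kernel

theorem f_5328 (h : TabsF) : FrameF repsF 448 F_5328.f :=
  frame_of rfl c_5328 (runs_of engOK r_5328_0) (by decide +kernel) h.1 h.1

def F_5329 : FrX :=
  ⟨0x2002000900044004000e0204100014100080004080040104200840001021024010008802c002108008080406000000800204202040201020040024200201,
    0xa3, 1, 0x30425162748594a8, 8,
    [(0xa3, 1), (0x208693a5, 4), (0x10548793, 4), (0x217693a4, 4), (0x208693a5, 4), (0x10548793, 4)],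
    [(0x30425162748594a8, 8), (0x637180a4, 4), (0x537198a2, 4), (0x42657190, 4), (0x637180a4, 4), (0x537198a2, 4)]⟩

def c_5329 : frmChk tA tA F_5329 = true := by decide +kernel

def r_5329_0 : chkL rootF engF2 tA tA sA_448 sA_448 4 F_5329 [(511, 0, 0)]
    0x1 = true := by
  decide +kernel

theorem f_5329 (h : TabsF) : FrameF repsF 448 F_5329.f :=
  frame_of rfl c_5329 (runs_of engOK r_5329_0) (by decide +kernel) h.1 h.1

def F_5330 : FrX :=
  ⟨0x482000044040440000c2040020009000182040002102000101100808000c04004880000882000202000020604001c80100010006090000201824200008,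
    0xa0, 1, 0x203140628691a6, 7,
    [(0xa0, 1), (0x538690a2, 4), (0x548790a1, 4), (0x21437690, 4), (0x538690a2, 4), (0x548790a1, 4)],
    [(0x203140628691a6, 7), (0x206475a1, 4), (0x528394a7, 4), (0x107583a2, 4), (0x528394a7, 4), (0x507196a2, 4), (0x216483a0, 4), (0x107583a2, 4), (0x216483a0, 4), (0x107294a5, 4), (0x107583a2, 4), (0x507196a2, 4)]⟩

def c_5330 : frmChk tA tB F_5330 = true := by decide +kernel

def r_5330_0 : chkL rootF engF2 tA tB sA_448 sB_448 4 F_5330 [(511, 0, 0)]
    0x1 = true := by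
  decide +kernel

theorem f_5330 (h : TabsF) : FrameF repsF 448 F_5330.f :=
  frame_of rfl c_5330 (runs_of engOK r_5330_0) (by decide +kernel) h.1 h.2

def F_5331 : FrX :=
  ⟨0x482000044040440000c2040020009000182040010010048008000084020108110820000802080480000220080b20002008086010002802100a02000004,
    0xa0, 1, 0x104060708792a5, 7,
    [(0xa0, 1), (0x538690a2, 4), (0x548790a1, 4), (0x21437690, 4), (0x538690a2, 4), (0x548790a1, 4)],
    [(0x104060708792a5, 7), (0x526497a3, 4), (0x527086a1, 4), (0x31528490, 4), (0x526497a3, 4), (0x527086a1, 4)]⟩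

def c_5331 : frmChk tA tA F_5331 = true := by decide +kernel

def r_5331_0 : chkL rootF engF2 tA tA sA_448 sA_448 4 F_5331 [(511, 0, 0)]
    0x42e = true := by
  decide +kernel

theorem f_5331 (h : TabsF) : FrameF repsF 448 F_5331.f :=
  frame_of rfl c_5331 (runs_of engOK r_5331_0) (by decide +kernel) h.1 h.1

def F_5332 : FrX :=
  ⟨0x482000044040440000c2040020009000182040001012080004100804020801010800100c00040480002020023110100000086010100080106200800042,
    0xa0, 1, 0x405261728593a5, 7,
    [(0xa0, 1), (0x538690a2, 4), (0x548790a1, 4), (0x21437690, 4), (0x538690a2, 4), (0x548790a1, 4)],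
    [(0x405261728593a5, 7), (0x217483a9, 4), (0x526483a0, 4), (0x51768390, 4), (0x217483a9, 4), (0x526483a0, 4)]⟩

def c_5332 : frmChk tA tA F_5332 = true := by decide +kernel

def r_5332_0 : chkL rootF engF2 tA tA sA_448 sA_448 4 F_5332 [(511, 0, 0)]
    0x1 = true := by
  decide +kernel

theorem f_5332 (h : TabsF) : FrameF repsF 448 F_5332.f :=
  frame_of rfl c_5332 (runs_of engOK r_5332_0) (by decide +kernel) h.1 h.1

def F_5333 : FrX :=
  ⟨0x80080a000804040e0000210100200100000204089004000111000042020200800901400100800902011024001800104004200800600100a000802600080,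
    0xa6, 1, 0x20405065718294a6, 8,
    [(0xa6, 1), (0x205396a8, 4), (0x10548796, 4), (0x214396a7, 4), (0x205396a8, 4), (0x10548796, 4)],
    [(0x20405065718294a6, 8), (0x618590a3, 4), (0x427596a1, 4), (0x304261a9, 4), (0x427596a1, 4), (0x316087a9, 4), (0x428593a0, 4), (0x304261a9, 4), (0x428593a0, 4), (0x307591a6, 4), (0x304261a9, 4), (0x316087a9, 4)]⟩

def c_5333 : frmChk tA tB F_5333 = true := by decide +kernel

def r_5333_0 : chkL rootF engF2 tA tB sA_448 sB_448 4 F_5333 [(511, 0, 0)]
    0x1 = true := by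
  decide +kernel

theorem f_5333 (h : TabsF) : FrameF repsF 448 F_5333.f :=
  frame_of rfl c_5333 (runs_of engOK r_5333_0) (by decide +kernel) h.1 h.2

def F_5334 : FrX :=
  ⟨0x2002000900044004000e02041000141000800040810000018100804201010402020100804002008480029200020820020801820000800800440200008290,
    0xa3, 1, 0x10315260728697a8, 8,
    [(0xa3, 1), (0x208693a5, 4), (0x10548793, 4), (0x217693a4, 4), (0x208693a5, 4), (0x10548793, 4)],
    [(0x10315260728697a8, 8), (0x205176a8, 4), (0x425163a9, 4), (0x40517398, 4), (0x205176a8, 4), (0x425163a9, 4)]⟩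

def c_5334 : frmChk tA tA F_5334 = true := by decide +kernel

def r_5334_0 : chkL rootF engF2 tA tA sA_448 sA_448 4 F_5334 [(511, 0, 0)]
    0x1 = true := by
  decide +kernel

theorem f_5334 (h : TabsF) : FrameF repsF 448 F_5334.f :=
  frame_of rfl c_5334 (runs_of engOK r_5334_0) (by decide +kernel) h.1 h.1

def F_5335 : FrX :=
  ⟨0x482000044040440000c2040020009000182040010010048002000804040801810800100802080480000140081010202080084010040400100a00080126,
    0xa0, 1, 0x405462718190a3, 7,
    [(0xa0, 1), (0x538690a2, 4), (0x548790a1, 4), (0x21437690, 4), (0x538690a2, 4), (0x548790a1, 4)],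
    [(0x405462718190a3, 7), (0x107596a2, 4), (0x21435098, 4), (0x104352a7, 4), (0x21435098, 4), (0x527086a1, 4), (0x437296a5, 4), (0x104352a7, 4), (0x437296a5, 4), (0x205198a7, 4), (0x104352a7, 4), (0x527086a1, 4)]⟩

def c_5335 : frmChk tA tB F_5335 = true := by decide +kernel

def r_5335_0 : chkL rootF engF2 tA tB sA_448 sB_448 4 F_5335 [(511, 0, 0)]
    0x1 = true := by
  decide +kernel

theorem f_5335 (h : TabsF) : FrameF repsF 448 F_5335.f :=
  frame_of rfl c_5335 (runs_of engOK r_5335_0) (by decide +kernel) h.1 h.2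

def F_5336 : FrX :=
  ⟨0x1c21020000040440000020410001010000820408a0001100000024200400a02000088040082c09008080004206020040201220002000822002404200200,
    0x0, 0, 0x21436575, 4,
    [(0x0, 0), (0x205386a9, 4), (0x105487a9, 4), (0x214376a9, 4), (0x205386a9, 4), (0x105487a9, 4)],
    [(0x21436575, 4), (0x10547683, 4), (0x206573a9, 4), (0x537684a9, 4), (0x206573a9, 4), (0x21536487, 4), (0x104385a9, 4), (0x537684a9, 4), (0x104385a9, 4), (0x20637584, 4), (0x537684a9, 4), (0x21536487, 4)]⟩

def c_5336 : frmChk tA tB F_5336 = true := by decide +kernel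

def r_5336_0 : chkL rootF engF2 tA tB sA_448 sB_448 4 F_5336 [(511, 0, 0)]
    0x1 = true := by
  decide +kernel

theorem f_5336 (h : TabsF) : FrameF repsF 448 F_5336.f :=
  frame_of rfl c_5336 (runs_of engOK r_5336_0) (by decide +kernel) h.1 h.2

theorem cl_448 (h : TabsF) : ∀ f ∈ fr_448, FrameF repsF 448 f :=
  List.forall_mem_cons.2 ⟨f_5309 h, List.forall_mem_cons.2 ⟨f_5310 h, List.forall_mem_cons.2 ⟨f_5311 h, List.forall_mem_cons.2 ⟨f_5312 h, List.forall_mem_cons.2 ⟨f_5313 h, List.forall_mem_cons.2 ⟨f_5314 h, List.forall_mem_cons.2 ⟨f_5315 h, List.forall_mem_cons.2 ⟨f_5316 h, List.forall_mem_cons.2 ⟨f_5317 h, List.forall_mem_cons.2 ⟨f_5318 h, List.forall_mem_cons.2 ⟨f_5319 h, List.forall_mem_cons.2 ⟨f_5320 h, List.forall_mem_cons.2 ⟨f_5321 h, List.forall_mem_cons.2 ⟨f_5322 h, List.forall_mem_cons.2 ⟨f_5323 h, List.forall_mem_cons.2 ⟨f_5324 h, List.forall_mem_cons.2 ⟨f_5325 h, List.forall_mem_cons.2 ⟨f_5326 h, List.forall_mem_cons.2 ⟨f_5327 h, List.forall_mem_cons.2 ⟨f_5328 h, List.forall_mem_cons.2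 ⟨f_5329 h, List.forall_mem_cons.2 ⟨f_5330 h, List.forall_mem_cons.2 ⟨f_5331 h, List.forall_mem_cons.2 ⟨f_5332 h, List.forall_mem_cons.2 ⟨f_5333 h, List.forall_mem_cons.2 ⟨f_5334 h, List.forall_mem_cons.2 ⟨f_5335 h, List.forall_mem_cons.2 ⟨f_5336 h,
    fun _ h0 => absurd h0 List.not_mem_nil⟩⟩⟩⟩⟩⟩⟩⟩⟩⟩⟩⟩⟩⟩⟩⟩⟩⟩⟩⟩⟩⟩⟩⟩⟩⟩⟩⟩

def F_5337 : FrX :=
  ⟨0x482000044040440000c2040020009000182040001101120001020800000c04200080060002020002020110214000801084000206050102800080010808,
    0xa0, 1, 0x204253657083a8, 7,
    [(0xa0, 1), (0x538690a2, 4), (0x548790a1, 4), (0x21437690, 4), (0x538690a2, 4), (0x548790a1, 4)],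
    [(0x204253657083a8, 7), (0x748695a3, 4), (0x607195a2, 4), (0x32418095, 4), (0x748695a3, 4), (0x607195a2, 4)]⟩

def c_5337 : frmChk tA tA F_5337 = true := by decide +kernel

def r_5337_0 : chkL rootF engF2 tA tA sA_449 sA_449 4 F_5337 [(511, 0, 0)]
    0x1 = true := by
  decide +kernel

theorem f_5337 (h : TabsF) : FrameF repsF 449 F_5337.f :=
  frame_of rfl c_5337 (runs_of engOK r_5337_0) (by decide +kernel) h.1 h.1

def F_5338 : FrX :=
  ⟨0x2002000900044004000e0204100014100080004080200024200440011101004004008802000200800a200810510000800204202040041000840404080801,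
    0xa3, 1, 0x2031708291a2, 6,
    [(0xa3, 1), (0x208693a5, 4), (0x10548793, 4), (0x217693a4, 4), (0x208693a5, 4), (0x10548793, 4)],
    [(0x2031708291a2, 6), (0x405261a7, 4), (0x54628397, 4), (0x10526483, 4), (0x54628397, 4), (0x215064a9, 4), (0x416083a7, 4), (0x10526483, 4), (0x416083a7, 4), (0x10426597, 4), (0x10526483, 4), (0x215064a9, 4)]⟩

def c_5338 : frmChk tA tB F_5338 = true := by decide +kernel

def r_5338_0 : chkL rootF engF2 tA tB sA_449 sB_449 4 F_5338 [(511, 0, 0)]
    0x1 = true := by
  decide +kernel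

theorem f_5338 (h : TabsF) : FrameF repsF 449 F_5338.f :=
  frame_of rfl c_5338 (runs_of engOK r_5338_0) (by decide +kernel) h.1 h.2

def F_5339 : FrX :=
  ⟨0x482000044040440000c204002000900018204000101110000402020002080240008806000202000a000208205800800284000222030202002200010200,
    0xa0, 1, 0x103043617593a2, 7,
    [(0xa0, 1), (0x538690a2, 4), (0x548790a1, 4), (0x21437690, 4), (0x538690a2, 4), (0x548790a1, 4)],
    [(0x103043617593a2, 7), (0x428097a3, 4), (0x42637185, 4), (0x425091a6, 4), (0x428097a3, 4), (0x42637185, 4)]⟩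

def c_5339 : frmChk tA tA F_5339 = true := by decide +kernel

def r_5339_0 : chkL rootF engF2 tA tA sA_449 sA_449 4 F_5339 [(511, 0, 0)]
    0x1 = true := by
  decide +kernel

theorem f_5339 (h : TabsF) : FrameF repsF 449 F_5339.f :=
  frame_of rfl c_5339 (runs_of engOK r_5339_0) (by decide +kernel) h.1 h.1

def F_5340 : FrX :=
  ⟨0x80080a000804040e000021010020010000020408a0002000300208008414001041000400022082002020020604102801040000030902000404101008040,
    0xa6, 1, 0x2030415360758291a0, 9,
    [(0xa6, 1), (0x205396a8, 4), (0x10548796, 4), (0x214396a7, 4), (0x205396a8, 4), (0x10548796, 4)],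
    [(0x2030415360758291a0, 9), (0x306475a8, 4), (0x206471a9, 4), (0x32516498, 4), (0x306475a8, 4), (0x206471a9, 4)]⟩

def c_5340 : frmChk tA tA F_5340 = true := by decide +kernel

def r_5340_0 : chkL rootF engF2 tA tA sA_449 sA_449 4 F_5340 [(511, 0, 0)]
    0x1 = true := by
  decide +kernel

theorem f_5340 (h : TabsF) : FrameF repsF 449 F_5340.f :=
  frame_of rfl c_5340 (runs_of engOK r_5340_0) (by decide +kernel) h.1 h.1

def F_5341 : FrX :=
  ⟨0x80080a000804040e00002101002001000002040884010800220008008024001041040400a02080842004000404040802040040030002200202115000100,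
    0xa6, 1, 0x3040627295a6, 6,
    [(0xa6, 1), (0x205396a8, 4), (0x10548796, 4), (0x214396a7, 4), (0x205396a8, 4), (0x10548796, 4)],
    [(0x3040627295a6, 6), (0x527490a8, 4), (0x41528693, 4), (0x305271a6, 4), (0x527490a8, 4), (0x41528693, 4)]⟩

def c_5341 : frmChk tA tA F_5341 = true := by decide +kernel

def r_5341_0 : chkL rootF engF2 tA tA sA_449 sA_449 4 F_5341 [(511, 0, 0)]
    0x1 = true := by
  decide +kernel

theorem f_5341 (h : TabsF) : FrameF repsF 449 F_5341.f :=
  frame_of rfl c_5341 (runs_of engOK r_5341_0) (by decide +kernel) h.1 h.1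

def F_5342 : FrX :=
  ⟨0x2002000900044004000e020410001410008000408011402020014001010000400400c8000a02800202000080600048800000082010880000244218082080,
    0xa3, 1, 0x2031527083a0, 6,
    [(0xa3, 1), (0x208693a5, 4), (0x10548793, 4), (0x217693a4, 4), (0x208693a5, 4), (0x10548793, 4)],
    [(0x2031527083a0, 6), (0x618097a5, 4), (0x214097a3, 4), (0x53628497, 4), (0x618097a5, 4), (0x214097a3, 4)]⟩

def c_5342 : frmChk tA tA F_5342 = true := by decide +kernel

def r_5342_0 : chkL rootF engF2 tA tA sA_449 sA_449 4 F_5342 [(511, 0, 0)]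
    0x1 = true := by
  decide +kernel

theorem f_5342 (h : TabsF) : FrameF repsF 449 F_5342.f :=
  frame_of rfl c_5342 (runs_of engOK r_5342_0) (by decide +kernel) h.1 h.1

def F_5343 : FrX :=
  ⟨0x80080a000804040e000021010020010000020408a000200030002840041401004002040010200820a002000614008800242000022002002802011008800,
    0xa6, 1, 0x102141526090a1, 7,
    [(0xa6, 1), (0x205396a8, 4), (0x10548796, 4), (0x214396a7, 4), (0x205396a8, 4), (0x10548796, 4)],
    [(0x102141526090a1, 7), (0x31708295, 4), (0x206471a9, 4), (0x21647083, 4), (0x206471a9, 4), (0x217380a5, 4), (0x32648195, 4), (0x21647083, 4), (0x32648195, 4), (0x107283a9, 4), (0x21647083, 4), (0x217380a5, 4)]⟩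

def c_5343 : frmChk tA tB F_5343 = true := by decide +kernel

def r_5343_0 : chkL rootF engF2 tA tB sA_449 sB_449 4 F_5343 [(511, 0, 0)]
    0x1 = true := by
  decide +kernel

theorem f_5343 (h : TabsF) : FrameF repsF 449 F_5343.f :=
  frame_of rfl c_5343 (runs_of engOK r_5343_0) (by decide +kernel) h.1 h.2

def F_5344 : FrX :=
  ⟨0x80080a000804040e0000210100200100000204089002000804800402024000800850100080800d010001021000620002001108080021020040a02800080,
    0xa6, 1, 0x405060728496a3, 7,
    [(0xa6, 1), (0x205396a8, 4), (0x10548796, 4), (0x214396a7, 4), (0x205396a8, 4), (0x10548796, 4)],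
    [(0x405060728496a3, 7), (0x427680a9, 4), (0x53618492, 4), (0x425398a0, 4), (0x53618492, 4), (0x407198a2, 4), (0x537690a8, 4), (0x425398a0, 4), (0x537690a8, 4), (0x618294a0, 4), (0x425398a0, 4), (0x407198a2, 4)]⟩

def c_5344 : frmChk tA tB F_5344 = true := by decide +kernel

def r_5344_0 : chkL rootF engF2 tA tB sA_449 sB_449 4 F_5344 [(511, 0, 0)]
    0x1 = true := by
  decide +kernel

theorem f_5344 (h : TabsF) : FrameF repsF 449 F_5344.f :=
  frame_of rfl c_5344 (runs_of engOK r_5344_0) (by decide +kernel) h.1 h.2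

def F_5345 : FrX :=
  ⟨0x80080a000804040e000021010020010000020408812000081901001000022040048800014000200800404801204010400028110004102042400a0020010,
    0xa6, 1, 0x2030657680a3, 6,
    [(0xa6, 1), (0x205396a8, 4), (0x10548796, 4), (0x214396a7, 4), (0x205396a8, 4), (0x10548796, 4)],
    [(0x2030657680a3, 6), (0x738092a6, 4), (0x53648192, 4), (0x107592a4, 4), (0x738092a6, 4), (0x53648192, 4)]⟩

def c_5345 : frmChk tA tA F_5345 = true := by decide +kernel

def r_5345_0 : chkL rootF engF2 tA tA sA_449 sA_449 4 F_5345 [(511, 0, 0)]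
    0x1 = true := by
  decide +kernel

theorem f_5345 (h : TabsF) : FrameF repsF 449 F_5345.f :=
  frame_of rfl c_5345 (runs_of engOK r_5345_0) (by decide +kernel) h.1 h.1

def F_5346 : FrX :=
  ⟨0x2002000900044004000e02041000141000800040808002000301020402000c0a00002400090000c414000005080410400040008022000821000880224040,
    0xa3, 1, 0x10325363718398a6, 8,
    [(0xa3, 1), (0x208693a5, 4), (0x10548793, 4), (0x217693a4, 4), (0x208693a5, 4), (0x10548793, 4)],
    [(0x10325363718398a6, 8), (0x316582a9, 4), (0x42657190, 4), (0x657384a0, 4), (0x316582a9, 4), (0x42657190, 4)]⟩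

def c_5346 : frmChk tA tA F_5346 = true := by decide +kernel

def r_5346_0 : chkL rootF engF2 tA tA sA_449 sA_449 4 F_5346 [(511, 0, 0)]
    0x1 = true := by
  decide +kernel

theorem f_5346 (h : TabsF) : FrameF repsF 449 F_5346.f :=
  frame_of rfl c_5346 (runs_of engOK r_5346_0) (by decide +kernel) h.1 h.1

def F_5347 : FrX :=
  ⟨0x482000044040440000c20400200090001820400100200820040001100800248040101080012801100008110004a0000208091000008804040910000410,
    0xa0, 1, 0x324350627197a5, 7,
    [(0xa0, 1), (0x538690a2, 4), (0x548790a1, 4), (0x21437690, 4), (0x538690a2, 4), (0x548790a1, 4)],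
    [(0x324350627197a5, 7), (0x106583a4, 4), (0x107598a2, 4), (0x10427693, 4), (0x106583a4, 4), (0x107598a2, 4)]⟩

def c_5347 : frmChk tA tA F_5347 = true := by decide +kernel

def r_5347_0 : chkL rootF engF2 tA tA sA_449 sA_449 4 F_5347 [(511, 0, 0)]
    0x10f03c = true := by
  decide +kernel

theorem f_5347 (h : TabsF) : FrameF repsF 449 F_5347.f :=
  frame_of rfl c_5347 (runs_of engOK r_5347_0) (by decide +kernel) h.1 h.1

def F_5348 : FrX :=
  ⟨0x482000044040440000c2040020009000182040010010048008000084040041810802000808010280080420010608100100094040082000101020080082,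
    0xa0, 1, 0x415462768591a3, 7,
    [(0xa0, 1), (0x538690a2, 4), (0x548790a1, 4), (0x21437690, 4), (0x538690a2, 4), (0x548790a1, 4)],
    [(0x415462768591a3, 7), (0x436071a8, 4), (0x21438590, 4), (0x437296a5, 4), (0x436071a8, 4), (0x21438590, 4)]⟩

def c_5348 : frmChk tA tA F_5348 = true := by decide +kernel

def r_5348_0 : chkL rootF engF2 tA tA sA_449 sA_449 4 F_5348 [(511, 0, 0)]
    0x13a03c = true := by
  decide +kernel

theorem f_5348 (h : TabsF) : FrameF repsF 449 F_5348.f :=
  frame_of rfl c_5348 (runs_of engOK r_5348_0) (by decide +kernel) h.1 h.1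

def F_5349 : FrX :=
  ⟨0x2002000900044004000e0204100014100080004080040102402000420000c0821001001044000104800212000a2000108004220001a00820002040008210,
    0xa3, 1, 0x3052617692a7, 6,
    [(0xa3, 1), (0x208693a5, 4), (0x10548793, 4), (0x217693a4, 4), (0x208693a5, 4), (0x10548793, 4)],
    [(0x3052617692a7, 6), (0x708493a2, 4), (0x425163a7, 4), (0x517480a2, 4), (0x425163a7, 4), (0x748296a0, 4), (0x40518793, 4), (0x517480a2, 4), (0x40518793, 4), (0x637280a4, 4), (0x517480a2, 4), (0x748296a0, 4)]⟩

def c_5349 : frmChk tA tB F_5349 = true := by decide +kernel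

def r_5349_0 : chkL rootF engF2 tA tB sA_449 sB_449 4 F_5349 [(511, 0, 0)]
    0x1 = true := by
  decide +kernel

theorem f_5349 (h : TabsF) : FrameF repsF 449 F_5349.f :=
  frame_of rfl c_5349 (runs_of engOK r_5349_0) (by decide +kernel) h.1 h.2

def F_5350 : FrX :=
  ⟨0x1001040012008080000e00840800410008101000042100004060070000000884800100101080100800041202040000420024800210a00085080000060208,
    0xa3, 1, 0x214351718494a6, 7,
    [(0xa3, 1), (0x207584a6, 4), (0x10547693, 4), (0x647593a8, 4), (0x10547693, 4), (0x216485a7, 4), (0x208693a4, 4), (0x647593a8, 4), (0x208693a4, 4), (0x106574a8, 4), (0x647593a8, 4), (0x216485a7, 4)],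
    [(0x214351718494a6, 7), (0x104286a3, 4), (0x53708692, 4), (0x718694a5, 4), (0x104286a3, 4), (0x53708692, 4)]⟩

def c_5350 : frmChk tB tA F_5350 = true := by decide +kernel

def r_5350_0 : chkL rootF engF2 tB tA sB_449 sA_449 4 F_5350 [(511, 0, 0)]
    0x1 = true := by
  decide +kernel

theorem f_5350 (h : TabsF) : FrameF repsF 449 F_5350.f :=
  frame_of rfl c_5350 (runs_of engOK r_5350_0) (by decide +kernel) h.2 h.1

def F_5351 : FrX :=
  ⟨0x1c4044000008081000000840080410000101084060002080000102008121000010408080080862000420004431010400810010004000808050700020100,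
    0x0, 0, 0x54657484, 4,
    [(0x0, 0), (0x20637584, 4), (0x105476a9, 4), (0x647583a9, 4), (0x105476a9, 4), (0x21647385, 4), (0x204386a9, 4), (0x647583a9, 4), (0x204386a9, 4), (0x10657483, 4), (0x647583a9, 4), (0x21647385, 4)],
    [(0x54657484, 4), (0x206374a9, 4), (0x107586a9, 4), (0x215483a9, 4), (0x206374a9, 4), (0x107586a9, 4)]⟩

def c_5351 : frmChk tB tA F_5351 = true := by decide +kernel

def r_5351_0 : chkL rootF engF2 tB tA sB_449 sA_449 4 F_5351 [(511, 0, 0)]
    0x1 = true := by
  decide +kernel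

theorem f_5351 (h : TabsF) : FrameF repsF 449 F_5351.f :=
  frame_of rfl c_5351 (runs_of engOK r_5351_0) (by decide +kernel) h.2 h.1

def F_5352 : FrX :=
  ⟨0x600020801080810000c0040180410101001004002200042018080004000242020408001020400008410010102020202208008800402840020040180021,
    0xa0, 1, 0x10425164708098a0, 8,
    [(0xa0, 1), (0x637584a2, 4), (0x547690a1, 4), (0x64758390, 4), (0x547690a1, 4), (0x21647385, 4), (0x438690a2, 4), (0x64758390, 4), (0x438690a2, 4), (0x657483a1, 4), (0x64758390, 4), (0x21647385, 4)],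
    [(0x10425164708098a0, 8), (0x308792a4, 4), (0x608791a5, 4), (0x21546387, 4), (0x308792a4, 4), (0x608791a5, 4)]⟩

def c_5352 : frmChk tB tA F_5352 = true := by decide +kernel

def r_5352_0 : chkL rootF engF2 tB tA sB_449 sA_449 4 F_5352 [(511, 0, 0)]
    0x1 = true := by
  decide +kernel

theorem f_5352 (h : TabsF) : FrameF repsF 449 F_5352.f :=
  frame_of rfl c_5352 (runs_of engOK r_5352_0) (by decide +kernel) h.2 h.1

def F_5353 : FrX :=
  ⟨0x1001040012008080000e00840800410008101000044c2008001010000020081000804808408000200002080443101000081001100500040c090300041000,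
    0xa3, 1, 0x4264748595a5, 6,
    [(0xa3, 1), (0x207584a6, 4), (0x10547693, 4), (0x647593a8, 4), (0x10547693, 4), (0x216485a7, 4), (0x208693a4, 4), (0x647593a8, 4), (0x208693a4, 4), (0x106574a8, 4), (0x647593a8, 4), (0x216485a7, 4)],
    [(0x4264748595a5, 6), (0x405298a3, 4), (0x106598a7, 4), (0x41627398, 4), (0x405298a3, 4), (0x106598a7, 4)]⟩

def c_5353 : frmChk tB tA F_5353 = true := by decide +kernel

def r_5353_0 : chkL rootF engF2 tB tA sB_449 sA_449 4 F_5353 [(511, 0, 0)]
    0x1 = true := by
  decide +kernel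

theorem f_5353 (h : TabsF) : FrameF repsF 449 F_5353.f :=
  frame_of rfl c_5353 (runs_of engOK r_5353_0) (by decide +kernel) h.2 h.1

def F_5354 : FrX :=
  ⟨0x1001040012008080000e0084080041000810100004401008009010006040081000404800408000412000280040101000081000a00802c440003004040044,
    0xa3, 1, 0x62768398a3, 5,
    [(0xa3, 1), (0x207584a6, 4), (0x10547693, 4), (0x647593a8, 4), (0x10547693, 4), (0x216485a7, 4), (0x208693a4, 4), (0x647593a8, 4), (0x208693a4, 4), (0x106574a8, 4), (0x647593a8, 4), (0x216485a7, 4)],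
    [(0x62768398a3, 5), (0x526094a7, 4), (0x10547283, 4), (0x527483a9, 4), (0x10547283, 4), (0x617495a2, 4), (0x608397a4, 4), (0x527483a9, 4), (0x608397a4, 4), (0x104275a9, 4), (0x527483a9, 4), (0x617495a2, 4)]⟩

def c_5354 : frmChk tB tB F_5354 = true := by decide +kernel

def r_5354_0 : chkL rootF engF2 tB tB sB_449 sB_449 4 F_5354 [(511, 0, 0)]
    0x1 = true := by
  decide +kernel

theorem f_5354 (h : TabsF) : FrameF repsF 449 F_5354.f :=
  frame_of rfl c_5354 (runs_of engOK r_5354_0) (by decide +kernel) h.2 h.2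

def F_5355 : FrX :=
  ⟨0x2002000900044004000e02041000141000800040801000282011a0000080200200002222000b000020a00442000040040040884010a00200202010086000,
    0xa3, 1, 0x1052648397a3, 6,
    [(0xa3, 1), (0x208693a5, 4), (0x10548793, 4), (0x217693a4, 4), (0x208693a5, 4), (0x10548793, 4)],
    [(0x1052648397a3, 6), (0x435187a2, 4), (0x10628793, 4), (0x508794a6, 4), (0x435187a2, 4), (0x10628793, 4)]⟩

def c_5355 : frmChk tA tA F_5355 = true := by decide +kernel

def r_5355_0 : chkL rootF engF2 tA tA sA_449 sA_449 4 F_5355 [(511, 0, 0)]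
    0x1 = true := by
  decide +kernel

theorem f_5355 (h : TabsF) : FrameF repsF 449 F_5355.f :=
  frame_of rfl c_5355 (runs_of engOK r_5355_0) (by decide +kernel) h.1 h.1

def F_5356 : FrX :=
  ⟨0x482000044040440000c204002000900018204000041030080408020002080280008005010001040080020150200104210000210810821000a004010010,
    0xa0, 1, 0x203040607481a2, 7,
    [(0xa0, 1), (0x538690a2, 4), (0x548790a1, 4), (0x21437690, 4), (0x538690a2, 4), (0x548790a1, 4)],
    [(0x203040607481a2, 7), (0x415290a6, 4), (0x31758690, 4), (0x437290a8, 4), (0x415290a6, 4), (0x31758690, 4)]⟩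

def c_5356 : frmChk tA tA F_5356 = true := by decide +kernel

def r_5356_0 : chkL rootF engF2 tA tA sA_449 sA_449 4 F_5356 [(511, 0, 0)]
    0x1 = true := by
  decide +kernel

theorem f_5356 (h : TabsF) : FrameF repsF 449 F_5356.f :=
  frame_of rfl c_5356 (runs_of engOK r_5356_0) (by decide +kernel) h.1 h.1

def F_5357 : FrX :=
  ⟨0x482000044040440000c20400200090001820400021020001098800000004080048220200020080038000486020004000180100062c0400080800200048,
    0xa0, 1, 0x214164768797a6, 7,
    [(0xa0, 1), (0x538690a2, 4), (0x548790a1, 4), (0x21437690, 4), (0x538690a2, 4), (0x548790a1, 4)],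
    [(0x214164768797a6, 7), (0x105387a2, 4), (0x40658792, 4), (0x416387a9, 4), (0x105387a2, 4), (0x40658792, 4)]⟩

def c_5357 : frmChk tA tA F_5357 = true := by decide +kernel

def r_5357_0 : chkL rootF engF2 tA tA sA_449 sA_449 4 F_5357 [(511, 0, 0)]
    0x1 = true := by
  decide +kernel

theorem f_5357 (h : TabsF) : FrameF repsF 449 F_5357.f :=
  frame_of rfl c_5357 (runs_of engOK r_5357_0) (by decide +kernel) h.1 h.1

def F_5358 : FrX :=
  ⟨0x80080a000804040e000021010020010000020408a0000404200084808880081000100400403080220818000004050403000044010000100300300440080,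
    0xa6, 1, 0x3241526193a8, 6,
    [(0xa6, 1), (0x205396a8, 4), (0x10548796, 4), (0x214396a7, 4), (0x205396a8, 4), (0x10548796, 4)],
    [(0x3241526193a8, 6), (0x507394a1, 4), (0x31607482, 4), (0x417382a9, 4), (0x31607482, 4), (0x416597a3, 4), (0x508291a4, 4), (0x417382a9, 4), (0x508291a4, 4), (0x436071a9, 4), (0x417382a9, 4), (0x416597a3, 4)]⟩

def c_5358 : frmChk tA tB F_5358 = true := by decide +kernel

def r_5358_0 : chkL rootF engF2 tA tB sA_449 sB_449 4 F_5358 [(511, 0, 0)]
    0x1 = true := by
  decide +kernel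

theorem f_5358 (h : TabsF) : FrameF repsF 449 F_5358.f :=
  frame_of rfl c_5358 (runs_of engOK r_5358_0) (by decide +kernel) h.1 h.2

def F_5359 : FrX :=
  ⟨0x482000044040440000c2040020009000182040001100408001320000000c04000880040848001000080030701002140104000206100120001002800008,
    0xa0, 1, 0x203140748393a6, 7,
    [(0xa0, 1), (0x538690a2, 4), (0x548790a1, 4), (0x21437690, 4), (0x538690a2, 4), (0x548790a1, 4)],
    [(0x203140748393a6, 7), (0x408695a1, 4), (0x21437586, 4), (0x308697a2, 4), (0x408695a1, 4), (0x21437586, 4)]⟩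

def c_5359 : frmChk tA tA F_5359 = true := by decide +kernel

def r_5359_0 : chkL rootF engF2 tA tA sA_449 sA_449 4 F_5359 [(511, 0, 0)]
    0x1 = true := by
  decide +kernel

theorem f_5359 (h : TabsF) : FrameF repsF 449 F_5359.f :=
  frame_of rfl c_5359 (runs_of engOK r_5359_0) (by decide +kernel) h.1 h.1

def F_5360 : FrX :=
  ⟨0x2002000900044004000e020410001410008000408010020830080220020001800400280101000041040600110100010021000820300c9008000010082001,
    0xa3, 1, 0x10436285a3, 5,
    [(0xa3, 1), (0x208693a5, 4), (0x10548793, 4), (0x217693a4, 4), (0x208693a5, 4), (0x10548793, 4)],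
    [(0x10436285a3, 5), (0x526194a8, 4), (0x10758394, 4), (0x607294a3, 4), (0x526194a8, 4), (0x10758394, 4)]⟩

def c_5360 : frmChk tA tA F_5360 = true := by decide +kernel

def r_5360_0 : chkL rootF engF2 tA tA sA_449 sA_449 4 F_5360 [(511, 0, 0)]
    0x1 = true := by
  decide +kernel

theorem f_5360 (h : TabsF) : FrameF repsF 449 F_5360.f :=
  frame_of rfl c_5360 (runs_of engOK r_5360_0) (by decide +kernel) h.1 h.1

def F_5361 : FrX :=
  ⟨0x2002000900044004000e0204100014100080004080040104201020001020404100010a00408200020a0001020000410082800100412c0400004000230280,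
    0xa3, 1, 0x3154718395a7, 6,
    [(0xa3, 1), (0x208693a5, 4), (0x10548793, 4), (0x217693a4, 4), (0x208693a5, 4), (0x10548793, 4)],
    [(0x3154718395a7, 6), (0x205186a9, 4), (0x437095a6, 4), (0x436581a9, 4), (0x437095a6, 4), (0x657291a8, 4), (0x20436185, 4), (0x436581a9, 4), (0x20436185, 4), (0x708196a5, 4), (0x436581a9, 4), (0x657291a8, 4)]⟩

def c_5361 : frmChk tA tB F_5361 = true := by decide +kernel

def r_5361_0 : chkL rootF engF2 tA tB sA_449 sB_449 4 F_5361 [(511, 0, 0)]
    0x1 = true := by
  decide +kernel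

theorem f_5361 (h : TabsF) : FrameF repsF 449 F_5361.f :=
  frame_of rfl c_5361 (runs_of engOK r_5361_0) (by decide +kernel) h.1 h.2

def F_5362 : FrX :=
  ⟨0x2002000900044004000e0204100014100080004080800020282000011001210280012000110000a000c088110100000c001400a000a808000008000a1010,
    0xa3, 1, 0x32405061708397a6, 8,
    [(0xa3, 1), (0x208693a5, 4), (0x10548793, 4), (0x217693a4, 4), (0x208693a5, 4), (0x10548793, 4)],
    [(0x32405061708397a6, 8), (0x517384a2, 4), (0x40517692, 4), (0x516380a9, 4), (0x517384a2, 4), (0x40517692, 4)]⟩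

def c_5362 : frmChk tA tA F_5362 = true := by decide +kernel

def r_5362_0 : chkL rootF engF2 tA tA sA_449 sA_449 4 F_5362 [(511, 0, 0)]
    0x1 = true := by
  decide +kernel

theorem f_5362 (h : TabsF) : FrameF repsF 449 F_5362.f :=
  frame_of rfl c_5362 (runs_of engOK r_5362_0) (by decide +kernel) h.1 h.1

def F_5363 : FrX :=
  ⟨0x482000044040440000c2040020009000182040010010048000800810080402808080410000048102009110800108010105002100084002040800010410,
    0xa0, 1, 0x324154628091a6, 7,
    [(0xa0, 1), (0x538690a2, 4), (0x548790a1, 4), (0x21437690, 4), (0x538690a2, 4), (0x548790a1, 4)],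
    [(0x324154628091a6, 7), (0x507186a2, 4), (0x435198a7, 4), (0x204371a5, 4), (0x435198a7, 4), (0x107296a5, 4), (0x435286a0, 4), (0x204371a5, 4), (0x435286a0, 4), (0x207598a1, 4), (0x204371a5, 4), (0x107296a5, 4)]⟩

def c_5363 : frmChk tA tB F_5363 = true := by decide +kernel

def r_5363_0 : chkL rootF engF2 tA tB sA_449 sB_449 4 F_5363 [(511, 0, 0)]
    0x1 = true := by
  decide +kernel

theorem f_5363 (h : TabsF) : FrameF repsF 449 F_5363.f :=
  frame_of rfl c_5363 (runs_of engOK r_5363_0) (by decide +kernel) h.1 h.2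

def F_5364 : FrX :=
  ⟨0x1c21020000040440000020410001010000820408a0001100000024200400a0200008804008800500808001830300114010020000a1000a0002004900200,
    0x0, 0, 0x21436575, 4,
    [(0x0, 0), (0x205386a9, 4), (0x105487a9, 4), (0x214376a9, 4), (0x205386a9, 4), (0x105487a9, 4)],
    [(0x21436575, 4), (0x10547683, 4), (0x206573a9, 4), (0x537684a9, 4), (0x206573a9, 4), (0x21536487, 4), (0x104385a9, 4), (0x537684a9, 4), (0x104385a9, 4), (0x20637584, 4), (0x537684a9, 4), (0x21536487, 4)]⟩

def c_5364 : frmChk tA tB F_5364 = true := by decide +kernel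

def r_5364_0 : chkL rootF engF2 tA tB sA_449 sB_449 4 F_5364 [(511, 0, 0)]
    0x1 = true := by
  decide +kernel

theorem f_5364 (h : TabsF) : FrameF repsF 449 F_5364.f :=
  frame_of rfl c_5364 (runs_of engOK r_5364_0) (by decide +kernel) h.1 h.2

theorem cl_449 (h : TabsF) : ∀ f ∈ fr_449, FrameF repsF 449 f :=
  List.forall_mem_cons.2 ⟨f_5337 h, List.forall_mem_cons.2 ⟨f_5338 h, List.forall_mem_cons.2 ⟨f_5339 h, List.forall_mem_cons.2 ⟨f_5340 h, List.forall_mem_cons.2 ⟨f_5341 h, List.forall_mem_cons.2 ⟨f_5342 h, List.forall_mem_cons.2 ⟨f_5343 h, List.forall_mem_cons.2 ⟨f_5344 h, List.forall_mem_cons.2 ⟨f_5345 h, List.forall_mem_cons.2 ⟨f_5346 h, List.forall_mem_cons.2 ⟨f_5347 h, List.forall_mem_cons.2 ⟨f_5348 h, List.forall_mem_cons.2 ⟨f_5349 h, List.forall_mem_cons.2 ⟨f_5350 h, List.forall_mem_cons.2 ⟨f_5351 h, List.forall_mem_cons.2 ⟨f_5352 h, List.forall_mem_cons.2 ⟨f_5353 h, List.forall_mem_cons.2 ⟨f_5354 h, List.forall_mem_cons.2 ⟨f_5355 h, List.forall_mem_cons.2 ⟨f_5356 h, List.forall_mem_cons.2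 ⟨f_5357 h, List.forall_mem_cons.2 ⟨f_5358 h, List.forall_mem_cons.2 ⟨f_5359 h, List.forall_mem_cons.2 ⟨f_5360 h, List.forall_mem_cons.2 ⟨f_5361 h, List.forall_mem_cons.2 ⟨f_5362 h, List.forall_mem_cons.2 ⟨f_5363 h, List.forall_mem_cons.2 ⟨f_5364 h,
    fun _ h0 => absurd h0 List.not_mem_nil⟩⟩⟩⟩⟩⟩⟩⟩⟩⟩⟩⟩⟩⟩⟩⟩⟩⟩⟩⟩⟩⟩⟩⟩⟩⟩⟩⟩

def F_5365 : FrX :=
  ⟨0x80080a000804040e00002101002001000002040890010008082010021040001440040410000084400808400446002040441001010000420204101008080,
    0xa6, 1, 0x304051718596a0, 7,
    [(0xa6, 1), (0x205396a8, 4), (0x10548796, 4), (0x214396a7, 4), (0x205396a8, 4), (0x10548796, 4)],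
    [(0x304051718596a0, 7), (0x648091a2, 4), (0x516483a7, 4), (0x30647295, 4), (0x648091a2, 4), (0x516483a7, 4)]⟩

def c_5365 : frmChk tA tA F_5365 = true := by decide +kernel

def r_5365_0 : chkL rootF engF2 tA tA sA_450 sA_450 4 F_5365 [(511, 0, 0)]
    0x1 = true := by
  decide +kernel

theorem f_5365 (h : TabsF) : FrameF repsF 450 F_5365.f :=
  frame_of rfl c_5365 (runs_of engOK r_5365_0) (by decide +kernel) h.1 h.1

def F_5366 : FrX :=
  ⟨0x80080a000804040e0000210100200100000204088104040100140080448000002012102000202000a210040204040408002090002010080802019400200,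
    0xa6, 1, 0x4265728198a1, 6,
    [(0xa6, 1), (0x205396a8, 4), (0x10548796, 4), (0x214396a7, 4), (0x205396a8, 4), (0x10548796, 4)],
    [(0x4265728198a1, 6), (0x53647092, 4), (0x546281a0, 4), (0x52648193, 4), (0x546281a0, 4), (0x435296a7, 4), (0x32708195, 4), (0x52648193, 4), (0x32708195, 4), (0x426593a0, 4), (0x52648193, 4), (0x435296a7, 4)]⟩

def c_5366 : frmChk tA tB F_5366 = true := by decide +kernel

def r_5366_0 : chkL rootF engF2 tA tB sA_450 sB_450 4 F_5366 [(511, 0, 0)]
    0x1 = true := by
  decide +kernel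

theorem f_5366 (h : TabsF) : FrameF repsF 450 F_5366.f :=
  frame_of rfl c_5366 (runs_of engOK r_5366_0) (by decide +kernel) h.1 h.2

def F_5367 : FrX :=
  ⟨0x2002000900044004000e02041000141000800040801002083008022002000180040028010100004200c00008448004002500002030010020200019082001,
    0xa3, 1, 0x10436285a3, 5,
    [(0xa3, 1), (0x208693a5, 4), (0x10548793, 4), (0x217693a4, 4), (0x208693a5, 4), (0x10548793, 4)],
    [(0x10436285a3, 5), (0x526194a8, 4), (0x10758394, 4), (0x607294a3, 4), (0x526194a8, 4), (0x10758394, 4)]⟩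

def c_5367 : frmChk tA tA F_5367 = true := by decide +kernel

def r_5367_0 : chkL rootF engF2 tA tA sA_450 sA_450 4 F_5367 [(511, 0, 0)]
    0x4270781e = true := by
  decide +kernel

theorem f_5367 (h : TabsF) : FrameF repsF 450 F_5367.f :=
  frame_of rfl c_5367 (runs_of engOK r_5367_0) (by decide +kernel) h.1 h.1

def F_5368 : FrX :=
  ⟨0x80080a000804040e000021010020010000020408822000020810300100420040400120008440000800828016000a0040004001005043000401110008010,
    0xa6, 1, 0x305060708696a1, 7,
    [(0xa6, 1), (0x205396a8, 4), (0x10548796, 4), (0x214396a7, 4), (0x205396a8, 4), (0x10548796, 4)],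
    [(0x305060708696a1, 7), (0x30728195, 4), (0x436581a7, 4), (0x408196a2, 4), (0x30728195, 4), (0x436581a7, 4)]⟩

def c_5368 : frmChk tA tA F_5368 = true := by decide +kernel

def r_5368_0 : chkL rootF engF2 tA tA sA_450 sA_450 4 F_5368 [(511, 0, 0)]
    0x1 = true := by
  decide +kernel

theorem f_5368 (h : TabsF) : FrameF repsF 450 F_5368.f :=
  frame_of rfl c_5368 (runs_of engOK r_5368_0) (by decide +kernel) h.1 h.1

def F_5369 : FrX :=
  ⟨0x482000044040440000c20400200090001820400008809080021001000101012002000500200802000408000c4804040300001210102020004008110208,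
    0xa0, 1, 0x1031405270a7, 6,
    [(0xa0, 1), (0x538690a2, 4), (0x548790a1, 4), (0x21437690, 4), (0x538690a2, 4), (0x548790a1, 4)],
    [(0x1031405270a7, 6), (0x20758694, 4), (0x217394a8, 4), (0x105394a6, 4), (0x20758694, 4), (0x217394a8, 4)]⟩

def c_5369 : frmChk tA tA F_5369 = true := by decide +kernel

def r_5369_0 : chkL rootF engF2 tA tA sA_450 sA_450 4 F_5369 [(511, 0, 0)]
    0x1 = true := by
  decide +kernel

theorem f_5369 (h : TabsF) : FrameF repsF 450 F_5369.f :=
  frame_of rfl c_5369 (runs_of engOK r_5369_0) (by decide +kernel) h.1 h.1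

def F_5370 : FrX :=
  ⟨0x482000044040440000c2040020009000182040020001100100020280024022400080800400048112004200222004408808010100200800002010008250,
    0xa0, 1, 0x2061738594a0, 6,
    [(0xa0, 1), (0x538690a2, 4), (0x548790a1, 4), (0x21437690, 4), (0x538690a2, 4), (0x548790a1, 4)],
    [(0x2061738594a0, 6), (0x425187a0, 4), (0x425398a6, 4), (0x31426097, 4), (0x425187a0, 4), (0x425398a6, 4)]⟩

def c_5370 : frmChk tA tA F_5370 = true := by decide +kernel

def r_5370_0 : chkL rootF engF2 tA tA sA_450 sA_450 4 F_5370 [(511, 0, 0)]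
    0x1 = true := by
  decide +kernel

theorem f_5370 (h : TabsF) : FrameF repsF 450 F_5370.f :=
  frame_of rfl c_5370 (runs_of engOK r_5370_0) (by decide +kernel) h.1 h.1

def F_5371 : FrX :=
  ⟨0x2002000900044004000e0204100014100080004081000004804800200a000420140081000804040880080209500002400100300084008002440042002001,
    0xa3, 1, 0x105262728591a0, 7,
    [(0xa3, 1), (0x208693a5, 4), (0x10548793, 4), (0x217693a4, 4), (0x208693a5, 4), (0x10548793, 4)],
    [(0x105262728591a0, 7), (0x425386a7, 4), (0x106584a9, 4), (0x10325486, 4), (0x106584a9, 4), (0x54638297, 4), (0x104352a7, 4), (0x10325486, 4), (0x104352a7, 4), (0x326485a9, 4), (0x10325486, 4), (0x54638297, 4)]⟩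

def c_5371 : frmChk tA tB F_5371 = true := by decide +kernel

def r_5371_0 : chkL rootF engF2 tA tB sA_450 sB_450 4 F_5371 [(511, 0, 0)]
    0x1 = true := by
  decide +kernel

theorem f_5371 (h : TabsF) : FrameF repsF 450 F_5371.f :=
  frame_of rfl c_5371 (runs_of engOK r_5371_0) (by decide +kernel) h.1 h.2

def F_5372 : FrX :=
  ⟨0x482000044040440000c2040020009000182040001011100004200004020802008089000902002002008208022204800810002048010082002200018200,
    0xa0, 1, 0x30768498a2, 5,
    [(0xa0, 1), (0x538690a2, 4), (0x548790a1, 4), (0x21437690, 4), (0x538690a2, 4), (0x548790a1, 4)],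
    [(0x30768498a2, 5), (0x657098a3, 4), (0x31427685, 4), (0x42658790, 4), (0x31427685, 4), (0x608795a1, 4), (0x428097a3, 4), (0x42658790, 4), (0x428097a3, 4), (0x31758690, 4), (0x42658790, 4), (0x608795a1, 4)]⟩

def c_5372 : frmChk tA tB F_5372 = true := by decide +kernel

def r_5372_0 : chkL rootF engF2 tA tB sA_450 sB_450 4 F_5372 [(511, 0, 0)]
    0x1 = true := by
  decide +kernel

theorem f_5372 (h : TabsF) : FrameF repsF 450 F_5372.f :=
  frame_of rfl c_5372 (runs_of engOK r_5372_0) (by decide +kernel) h.1 h.2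

def F_5373 : FrX :=
  ⟨0x2002000900044004000e0204100014100080004082008024040040011081004020008800010200900a2000120004028010040420400800000450a0020820,
    0xa3, 1, 0x4053718291a1, 6,
    [(0xa3, 1), (0x208693a5, 4), (0x10548793, 4), (0x217693a4, 4), (0x208693a5, 4), (0x10548793, 4)],
    [(0x4053718291a1, 6), (0x53628497, 4), (0x213097a4, 4), (0x506197a8, 4), (0x53628497, 4), (0x213097a4, 4)]⟩

def c_5373 : frmChk tA tA F_5373 = true := by decide +kernel

def r_5373_0 : chkL rootF engF2 tA tA sA_450 sA_450 4 F_5373 [(511, 0, 0)]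
    0x1 = true := by
  decide +kernel

theorem f_5373 (h : TabsF) : FrameF repsF 450 F_5373.f :=
  frame_of rfl c_5373 (runs_of engOK r_5373_0) (by decide +kernel) h.1 h.1

def F_5374 : FrX :=
  ⟨0x2002000900044004000e02041000141000800040800800248000c004010104000400804501000084022a020050000204000110a000900040440202020010,
    0xa3, 1, 0x4153648596a0, 6,
    [(0xa3, 1), (0x208693a5, 4), (0x10548793, 4), (0x217693a4, 4), (0x208693a5, 4), (0x10548793, 4)],
    [(0x4153648596a0, 6), (0x108593a2, 4), (0x107386a4, 4), (0x10426597, 4), (0x108593a2, 4), (0x107386a4, 4)]⟩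

def c_5374 : frmChk tA tA F_5374 = true := by decide +kernel

def r_5374_0 : chkL rootF engF2 tA tA sA_450 sA_450 4 F_5374 [(511, 0, 0)]
    0x1 = true := by
  decide +kernel

theorem f_5374 (h : TabsF) : FrameF repsF 450 F_5374.f :=
  frame_of rfl c_5374 (runs_of engOK r_5374_0) (by decide +kernel) h.1 h.1

def F_5375 : FrX :=
  ⟨0x2002000900044004000e0204100014100080004080100028200140010080a000840040104022001020020098408004800408002010840000044210082020,
    0xa3, 1, 0x425065708395a8, 7,
    [(0xa3, 1), (0x208693a5, 4), (0x10548793, 4), (0x217693a4, 4), (0x208693a5, 4), (0x10548793, 4)],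
    [(0x425065708395a8, 7), (0x637498a0, 4), (0x637192a5, 4), (0x41506382, 4), (0x637498a0, 4), (0x637192a5, 4)]⟩

def c_5375 : frmChk tA tA F_5375 = true := by decide +kernel

def r_5375_0 : chkL rootF engF2 tA tA sA_450 sA_450 4 F_5375 [(511, 0, 0)]
    0x105c1705c0f = true := by
  decide +kernel

theorem f_5375 (h : TabsF) : FrameF repsF 450 F_5375.f :=
  frame_of rfl c_5375 (runs_of engOK r_5375_0) (by decide +kernel) h.1 h.1

def F_5376 : FrX :=
  ⟨0x80080a000804040e000021010020010000020408900200022010081120040000490100100000482020a2800600010001040048080203002400010200005,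
    0xa6, 1, 0x103141718595a0, 7,
    [(0xa6, 1), (0x205396a8, 4), (0x10548796, 4), (0x214396a7, 4), (0x205396a8, 4), (0x10548796, 4)],
    [(0x103141718595a0, 7), (0x658190a2, 4), (0x548193a7, 4), (0x30647281, 4), (0x658190a2, 4), (0x548193a7, 4)]⟩

def c_5376 : frmChk tA tA F_5376 = true := by decide +kernel

def r_5376_0 : chkL rootF engF2 tA tA sA_450 sA_450 4 F_5376 [(511, 0, 0)]
    0x1 = true := by
  decide +kernel

theorem f_5376 (h : TabsF) : FrameF repsF 450 F_5376.f :=
  frame_of rfl c_5376 (runs_of engOK r_5376_0) (by decide +kernel) h.1 h.1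

def F_5377 : FrX :=
  ⟨0x80080a000804040e0000210100200100000204089008000030100840482000200840400400200820e010040200401800042000022002282002011000820,
    0xa6, 1, 0x2040657098a1, 6,
    [(0xa6, 1), (0x205396a8, 4), (0x10548796, 4), (0x214396a7, 4), (0x205396a8, 4), (0x10548796, 4)],
    [(0x2040657098a1, 6), (0x53647092, 4), (0x546281a7, 4), (0x52648193, 4), (0x546281a7, 4), (0x435296a0, 4), (0x32708195, 4), (0x52648193, 4), (0x32708195, 4), (0x426593a7, 4), (0x52648193, 4), (0x435296a0, 4)]⟩

def c_5377 : frmChk tA tB F_5377 = true := by decide +kernel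

def r_5377_0 : chkL rootF engF2 tA tB sA_450 sB_450 4 F_5377 [(511, 0, 0)]
    0x1 = true := by
  decide +kernel

theorem f_5377 (h : TabsF) : FrameF repsF 450 F_5377.f :=
  frame_of rfl c_5377 (runs_of engOK r_5377_0) (by decide +kernel) h.1 h.2

def F_5378 : FrX :=
  ⟨0x1001040012008080000e00840800410008101000042100004060070000000884800100101080100800041202040000420028000290a00085080000540200,
    0xa3, 1, 0x214351718494a6, 7,
    [(0xa3, 1), (0x207584a6, 4), (0x10547693, 4), (0x647593a8, 4), (0x10547693, 4), (0x216485a7, 4), (0x208693a4, 4), (0x647593a8, 4), (0x208693a4, 4), (0x106574a8, 4), (0x647593a8, 4), (0x216485a7, 4)],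
    [(0x214351718494a6, 7), (0x104286a3, 4), (0x53708692, 4), (0x718694a5, 4), (0x104286a3, 4), (0x53708692, 4)]⟩

def c_5378 : frmChk tB tA F_5378 = true := by decide +kernel

def r_5378_0 : chkL rootF engF2 tB tA sB_450 sA_450 4 F_5378 [(511, 0, 0)]
    0x1 = true := by
  decide +kernel

theorem f_5378 (h : TabsF) : FrameF repsF 450 F_5378.f :=
  frame_of rfl c_5378 (runs_of engOK r_5378_0) (by decide +kernel) h.2 h.1

def F_5379 : FrX :=
  ⟨0x1c4044000008081000000840080410000101084060002080000102008121000010408080080862090c00004021010400810010004000800250700020100,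
    0x0, 0, 0x54657484, 4,
    [(0x0, 0), (0x20637584, 4), (0x105476a9, 4), (0x647583a9, 4), (0x105476a9, 4), (0x21647385, 4), (0x204386a9, 4), (0x647583a9, 4), (0x204386a9, 4), (0x10657483, 4), (0x647583a9, 4), (0x21647385, 4)],
    [(0x54657484, 4), (0x206374a9, 4), (0x107586a9, 4), (0x215483a9, 4), (0x206374a9, 4), (0x107586a9, 4)]⟩

def c_5379 : frmChk tB tA F_5379 = true := by decide +kernel

def r_5379_0 : chkL rootF engF2 tB tA sB_450 sA_450 4 F_5379 [(511, 0, 0)]
    0x1 = true := by
  decide +kernel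

theorem f_5379 (h : TabsF) : FrameF repsF 450 F_5379.f :=
  frame_of rfl c_5379 (runs_of engOK r_5379_0) (by decide +kernel) h.2 h.1

def F_5380 : FrX :=
  ⟨0x600020801080810000c0040180410101001004002200042018080004000242020408001020400008410010102020201008008803002840021040180020,
    0xa0, 1, 0x10425164708098a0, 8,
    [(0xa0, 1), (0x637584a2, 4), (0x547690a1, 4), (0x64758390, 4), (0x547690a1, 4), (0x21647385, 4), (0x438690a2, 4), (0x64758390, 4), (0x438690a2, 4), (0x657483a1, 4), (0x64758390, 4), (0x21647385, 4)],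
    [(0x10425164708098a0, 8), (0x308792a4, 4), (0x608791a5, 4), (0x21546387, 4), (0x308792a4, 4), (0x608791a5, 4)]⟩

def c_5380 : frmChk tB tA F_5380 = true := by decide +kernel

def r_5380_0 : chkL rootF engF2 tB tA sB_450 sA_450 4 F_5380 [(511, 0, 0)]
    0x1 = true := by
  decide +kernel

theorem f_5380 (h : TabsF) : FrameF repsF 450 F_5380.f :=
  frame_of rfl c_5380 (runs_of engOK r_5380_0) (by decide +kernel) h.2 h.1

def F_5381 : FrX :=
  ⟨0x1001040012008080000e00840800410008101000044c20080010100000200810008048084080002090800804021010000810011005000404290300041000,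
    0xa3, 1, 0x4264748595a5, 6,
    [(0xa3, 1), (0x207584a6, 4), (0x10547693, 4), (0x647593a8, 4), (0x10547693, 4), (0x216485a7, 4), (0x208693a4, 4), (0x647593a8, 4), (0x208693a4, 4), (0x106574a8, 4), (0x647593a8, 4), (0x216485a7, 4)],
    [(0x4264748595a5, 6), (0x405298a3, 4), (0x106598a7, 4), (0x41627398, 4), (0x405298a3, 4), (0x106598a7, 4)]⟩

def c_5381 : frmChk tB tA F_5381 = true := by decide +kernel

def r_5381_0 : chkL rootF engF2 tB tA sB_450 sA_450 4 F_5381 [(511, 0, 0)]
    0x1 = true := by
  decide +kernel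

theorem f_5381 (h : TabsF) : FrameF repsF 450 F_5381.f :=
  frame_of rfl c_5381 (runs_of engOK r_5381_0) (by decide +kernel) h.2 h.1

def F_5382 : FrX :=
  ⟨0x1001040012008080000e0084080041000810100004401008009010006040081000404800408000412000280040101000081000a00810c042202014040004,
    0xa3, 1, 0x62768398a3, 5,
    [(0xa3, 1), (0x207584a6, 4), (0x10547693, 4), (0x647593a8, 4), (0x10547693, 4), (0x216485a7, 4), (0x208693a4, 4), (0x647593a8, 4), (0x208693a4, 4), (0x106574a8, 4), (0x647593a8, 4), (0x216485a7, 4)],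
    [(0x62768398a3, 5), (0x526094a7, 4), (0x10547283, 4), (0x527483a9, 4), (0x10547283, 4), (0x617495a2, 4), (0x608397a4, 4), (0x527483a9, 4), (0x608397a4, 4), (0x104275a9, 4), (0x527483a9, 4), (0x617495a2, 4)]⟩

def c_5382 : frmChk tB tB F_5382 = true := by decide +kernel

def r_5382_0 : chkL rootF engF2 tB tB sB_450 sB_450 4 F_5382 [(511, 0, 0)]
    0x1 = true := by
  decide +kernel

theorem f_5382 (h : TabsF) : FrameF repsF 450 F_5382.f :=
  frame_of rfl c_5382 (runs_of engOK r_5382_0) (by decide +kernel) h.2 h.2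

def F_5383 : FrX :=
  ⟨0x2002000900044004000e02041000141000800040801000282011a00000802002000022220002900020a004404000400400408a0010a00200202010086000,
    0xa3, 1, 0x1052648397a3, 6,
    [(0xa3, 1), (0x208693a5, 4), (0x10548793, 4), (0x217693a4, 4), (0x208693a5, 4), (0x10548793, 4)],
    [(0x1052648397a3, 6), (0x435187a2, 4), (0x10628793, 4), (0x508794a6, 4), (0x435187a2, 4), (0x10628793, 4)]⟩

def c_5383 : frmChk tA tA F_5383 = true := by decide +kernel

def r_5383_0 : chkL rootF engF2 tA tA sA_450 sA_450 4 F_5383 [(511, 0, 0)]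
    0x1 = true := by
  decide +kernel

theorem f_5383 (h : TabsF) : FrameF repsF 450 F_5383.f :=
  frame_of rfl c_5383 (runs_of engOK r_5383_0) (by decide +kernel) h.1 h.1

def F_5384 : FrX :=
  ⟨0x482000044040440000c2040020009000182040000410300804080200020802800080050100010488000201102001042100002108108200202004010210,
    0xa0, 1, 0x203040607481a2, 7,
    [(0xa0, 1), (0x538690a2, 4), (0x548790a1, 4), (0x21437690, 4), (0x538690a2, 4), (0x548790a1, 4)],
    [(0x203040607481a2, 7), (0x415290a6, 4), (0x31758690, 4), (0x437290a8, 4), (0x415290a6, 4), (0x31758690, 4)]⟩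

def c_5384 : frmChk tA tA F_5384 = true := by decide +kernel

def r_5384_0 : chkL rootF engF2 tA tA sA_450 sA_450 4 F_5384 [(511, 0, 0)]
    0x1 = true := by
  decide +kernel

theorem f_5384 (h : TabsF) : FrameF repsF 450 F_5384.f :=
  frame_of rfl c_5384 (runs_of engOK r_5384_0) (by decide +kernel) h.1 h.1

def F_5385 : FrX :=
  ⟨0x482000044040440000c20400200090001820400021020001098800000004080048220200020080023000486040004000180100062c0400040800200048,
    0xa0, 1, 0x214164768797a6, 7,
    [(0xa0, 1), (0x538690a2, 4), (0x548790a1, 4), (0x21437690, 4), (0x538690a2, 4), (0x548790a1, 4)],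
    [(0x214164768797a6, 7), (0x105387a2, 4), (0x40658792, 4), (0x416387a9, 4), (0x105387a2, 4), (0x40658792, 4)]⟩

def c_5385 : frmChk tA tA F_5385 = true := by decide +kernel

def r_5385_0 : chkL rootF engF2 tA tA sA_450 sA_450 4 F_5385 [(511, 0, 0)]
    0x1 = true := by
  decide +kernel

theorem f_5385 (h : TabsF) : FrameF repsF 450 F_5385.f :=
  frame_of rfl c_5385 (runs_of engOK r_5385_0) (by decide +kernel) h.1 h.1

def F_5386 : FrX :=
  ⟨0x80080a000804040e000021010020010000020408a0000404200084808880081000100400202180220808000404050403100040010000100300300440080,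
    0xa6, 1, 0x3241526193a8, 6,
    [(0xa6, 1), (0x205396a8, 4), (0x10548796, 4), (0x214396a7, 4), (0x205396a8, 4), (0x10548796, 4)],
    [(0x3241526193a8, 6), (0x507394a1, 4), (0x31607482, 4), (0x417382a9, 4), (0x31607482, 4), (0x416597a3, 4), (0x508291a4, 4), (0x417382a9, 4), (0x508291a4, 4), (0x436071a9, 4), (0x417382a9, 4), (0x416597a3, 4)]⟩

def c_5386 : frmChk tA tB F_5386 = true := by decide +kernel

def r_5386_0 : chkL rootF engF2 tA tB sA_450 sB_450 4 F_5386 [(511, 0, 0)]
    0x1 = true := by
  decide +kernel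

theorem f_5386 (h : TabsF) : FrameF repsF 450 F_5386.f :=
  frame_of rfl c_5386 (runs_of engOK r_5386_0) (by decide +kernel) h.1 h.2

def F_5387 : FrX :=
  ⟨0x482000044040440000c2040020009000182040001100408001320000000c04000880061808001400000020701000140104000206100320001002800008,
    0xa0, 1, 0x203140748393a6, 7,
    [(0xa0, 1), (0x538690a2, 4), (0x548790a1, 4), (0x21437690, 4), (0x538690a2, 4), (0x548790a1, 4)],
    [(0x203140748393a6, 7), (0x408695a1, 4), (0x21437586, 4), (0x308697a2, 4), (0x408695a1, 4), (0x21437586, 4)]⟩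

def c_5387 : frmChk tA tA F_5387 = true := by decide +kernel

def r_5387_0 : chkL rootF engF2 tA tA sA_450 sA_450 4 F_5387 [(511, 0, 0)]
    0x1 = true := by
  decide +kernel

theorem f_5387 (h : TabsF) : FrameF repsF 450 F_5387.f :=
  frame_of rfl c_5387 (runs_of engOK r_5387_0) (by decide +kernel) h.1 h.1

def F_5388 : FrX :=
  ⟨0x2002000900044004000e020410001410008000408010020830080220020001800400280311200000040400110100000023000820300c9008000010082001,
    0xa3, 1, 0x10436285a3, 5,
    [(0xa3, 1), (0x208693a5, 4), (0x10548793, 4), (0x217693a4, 4), (0x208693a5, 4), (0x10548793, 4)],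
    [(0x10436285a3, 5), (0x526194a8, 4), (0x10758394, 4), (0x607294a3, 4), (0x526194a8, 4), (0x10758394, 4)]⟩

def c_5388 : frmChk tA tA F_5388 = true := by decide +kernel

def r_5388_0 : chkL rootF engF2 tA tA sA_450 sA_450 4 F_5388 [(511, 0, 0)]
    0x46c = true := by
  decide +kernel

theorem f_5388 (h : TabsF) : FrameF repsF 450 F_5388.f :=
  frame_of rfl c_5388 (runs_of engOK r_5388_0) (by decide +kernel) h.1 h.1

def F_5389 : FrX :=
  ⟨0x2002000900044004000e0204100014100080004080040104201020001020404100010a00408200020a0001020000480092808900402c0000004000210280,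
    0xa3, 1, 0x3154718395a7, 6,
    [(0xa3, 1), (0x208693a5, 4), (0x10548793, 4), (0x217693a4, 4), (0x208693a5, 4), (0x10548793, 4)],
    [(0x3154718395a7, 6), (0x205186a9, 4), (0x437095a6, 4), (0x436581a9, 4), (0x437095a6, 4), (0x657291a8, 4), (0x20436185, 4), (0x436581a9, 4), (0x20436185, 4), (0x708196a5, 4), (0x436581a9, 4), (0x657291a8, 4)]⟩

def c_5389 : frmChk tA tB F_5389 = true := by decide +kernel

def r_5389_0 : chkL rootF engF2 tA tB sA_450 sB_450 4 F_5389 [(511, 0, 0)]
    0x1 = true := by
  decide +kernel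

theorem f_5389 (h : TabsF) : FrameF repsF 450 F_5389.f :=
  frame_of rfl c_5389 (runs_of engOK r_5389_0) (by decide +kernel) h.1 h.2

def F_5390 : FrX :=
  ⟨0x2002000900044004000e02041000141000800040808000202820000110012102800120001100009080c000130100000c001400a000880800000c000a1010,
    0xa3, 1, 0x32405061708397a6, 8,
    [(0xa3, 1), (0x208693a5, 4), (0x10548793, 4), (0x217693a4, 4), (0x208693a5, 4), (0x10548793, 4)],
    [(0x32405061708397a6, 8), (0x517384a2, 4), (0x40517692, 4), (0x516380a9, 4), (0x517384a2, 4), (0x40517692, 4)]⟩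

def c_5390 : frmChk tA tA F_5390 = true := by decide +kernel

def r_5390_0 : chkL rootF engF2 tA tA sA_450 sA_450 4 F_5390 [(511, 0, 0)]
    0x1 = true := by
  decide +kernel

theorem f_5390 (h : TabsF) : FrameF repsF 450 F_5390.f :=
  frame_of rfl c_5390 (runs_of engOK r_5390_0) (by decide +kernel) h.1 h.1

def F_5391 : FrX :=
  ⟨0x482000044040440000c2040020009000182040010010048000800810080402808080410000048102018010c00108010014006100084002040800010410,
    0xa0, 1, 0x324154628091a6, 7,
    [(0xa0, 1), (0x538690a2, 4), (0x548790a1, 4), (0x21437690, 4), (0x538690a2, 4), (0x548790a1, 4)],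
    [(0x324154628091a6, 7), (0x507186a2, 4), (0x435198a7, 4), (0x204371a5, 4), (0x435198a7, 4), (0x107296a5, 4), (0x435286a0, 4), (0x204371a5, 4), (0x435286a0, 4), (0x207598a1, 4), (0x204371a5, 4), (0x107296a5, 4)]⟩

def c_5391 : frmChk tA tB F_5391 = true := by decide +kernel

def r_5391_0 : chkL rootF engF2 tA tB sA_450 sB_450 4 F_5391 [(511, 0, 0)]
    0x1 = true := by
  decide +kernel

theorem f_5391 (h : TabsF) : FrameF repsF 450 F_5391.f :=
  frame_of rfl c_5391 (runs_of engOK r_5391_0) (by decide +kernel) h.1 h.2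

def F_5392 : FrX :=
  ⟨0x1c21020000040440000020410001010000820408a0001100000024200400a0200008804008800500808030030280114010020000a1000a0002004a00200,
    0x0, 0, 0x21436575, 4,
    [(0x0, 0), (0x205386a9, 4), (0x105487a9, 4), (0x214376a9, 4), (0x205386a9, 4), (0x105487a9, 4)],
    [(0x21436575, 4), (0x10547683, 4), (0x206573a9, 4), (0x537684a9, 4), (0x206573a9, 4), (0x21536487, 4), (0x104385a9, 4), (0x537684a9, 4), (0x104385a9, 4), (0x20637584, 4), (0x537684a9, 4), (0x21536487, 4)]⟩

def c_5392 : frmChk tA tB F_5392 = true := by decide +kernel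

def r_5392_0 : chkL rootF engF2 tA tB sA_450 sB_450 4 F_5392 [(511, 0, 0)]
    0x1 = true := by
  decide +kernel

theorem f_5392 (h : TabsF) : FrameF repsF 450 F_5392.f :=
  frame_of rfl c_5392 (runs_of engOK r_5392_0) (by decide +kernel) h.1 h.2

theorem cl_450 (h : TabsF) : ∀ f ∈ fr_450, FrameF repsF 450 f :=
  List.forall_mem_cons.2 ⟨f_5365 h, List.forall_mem_cons.2 ⟨f_5366 h, List.forall_mem_cons.2 ⟨f_5367 h, List.forall_mem_cons.2 ⟨f_5368 h, List.forall_mem_cons.2 ⟨f_5369 h, List.forall_mem_cons.2 ⟨f_5370 h, List.forall_mem_cons.2 ⟨f_5371 h, List.forall_mem_cons.2 ⟨f_5372 h, List.forall_mem_cons.2 ⟨f_5373 h, List.forall_mem_cons.2 ⟨f_5374 h, List.forall_mem_cons.2 ⟨f_5375 h, List.forall_mem_cons.2 ⟨f_5376 h, List.forall_mem_cons.2 ⟨f_5377 h, List.forall_mem_cons.2 ⟨f_5378 h, List.forall_mem_cons.2 ⟨f_5379 h, List.forall_mem_cons.2 ⟨f_5380 h, List.forall_mem_cons.2 ⟨f_5381 h, List.forall_mem_cons.2 ⟨f_5382 h, List.forall_mem_cons.2 ⟨f_5383 h, List.forall_mem_cons.2 ⟨f_5384 h, List.forall_mem_cons.2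 ⟨f_5385 h, List.forall_mem_cons.2 ⟨f_5386 h, List.forall_mem_cons.2 ⟨f_5387 h, List.forall_mem_cons.2 ⟨f_5388 h, List.forall_mem_cons.2 ⟨f_5389 h, List.forall_mem_cons.2 ⟨f_5390 h, List.forall_mem_cons.2 ⟨f_5391 h, List.forall_mem_cons.2 ⟨f_5392 h,
    fun _ h0 => absurd h0 List.not_mem_nil⟩⟩⟩⟩⟩⟩⟩⟩⟩⟩⟩⟩⟩⟩⟩⟩⟩⟩⟩⟩⟩⟩⟩⟩⟩⟩⟩⟩

def F_5393 : FrX :=
  ⟨0x80080a000804040e00002101002001000002040890010008082010020442001040040410000085002808000446002040441001010000420204101008080,
    0xa6, 1, 0x10214160738294a3, 8,
    [(0xa6, 1), (0x205396a8, 4), (0x10548796, 4), (0x214396a7, 4), (0x205396a8, 4), (0x10548796, 4)],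
    [(0x10214160738294a3, 8), (0x107286a5, 4), (0x30647295, 4), (0x317284a9, 4), (0x107286a5, 4), (0x30647295, 4)]⟩

def c_5393 : frmChk tA tA F_5393 = true := by decide +kernel

def r_5393_0 : chkL rootF engF2 tA tA sA_451 sA_451 4 F_5393 [(511, 0, 0)]
    0x1 = true := by
  decide +kernel

theorem f_5393 (h : TabsF) : FrameF repsF 451 F_5393.f :=
  frame_of rfl c_5393 (runs_of engOK r_5393_0) (by decide +kernel) h.1 h.1

def F_5394 : FrX :=
  ⟨0x1c2102000004044000002041000101000082040890080080001004100400101040808050000084202800808446004040500201010108020204008080080,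
    0x0, 0, 0x21547383, 4,
    [(0x0, 0), (0x205386a9, 4), (0x105487a9, 4), (0x214376a9, 4), (0x205386a9, 4), (0x105487a9, 4)],
    [(0x21547383, 4), (0x10437586, 4), (0x205463a9, 4), (0x436587a9, 4), (0x205463a9, 4), (0x21657483, 4), (0x107685a9, 4), (0x436587a9, 4), (0x107685a9, 4), (0x20536487, 4), (0x436587a9, 4), (0x21657483, 4)]⟩

def c_5394 : frmChk tA tB F_5394 = true := by decide +kernel

def r_5394_0 : chkL rootF engF2 tA tB sA_451 sB_451 4 F_5394 [(511, 0, 0)]
    0x1 = true := by
  decide +kernel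

theorem f_5394 (h : TabsF) : FrameF repsF 451 F_5394.f :=
  frame_of rfl c_5394 (runs_of engOK r_5394_0) (by decide +kernel) h.1 h.2

def F_5395 : FrX :=
  ⟨0x2002000900044004000e02041000141000800040801002083008022002000180040028010100004206800008440004002500002030009020200018082001,
    0xa3, 1, 0x10436285a3, 5,
    [(0xa3, 1), (0x208693a5, 4), (0x10548793, 4), (0x217693a4, 4), (0x208693a5, 4), (0x10548793, 4)],
    [(0x10436285a3, 5), (0x526194a8, 4), (0x10758394, 4), (0x607294a3, 4), (0x526194a8, 4), (0x10758394, 4)]⟩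

def c_5395 : frmChk tA tA F_5395 = true := by decide +kernel

def r_5395_0 : chkL rootF engF2 tA tA sA_451 sA_451 4 F_5395 [(511, 0, 0)]
    0x1 = true := by
  decide +kernel

theorem f_5395 (h : TabsF) : FrameF repsF 451 F_5395.f :=
  frame_of rfl c_5395 (runs_of engOK r_5395_0) (by decide +kernel) h.1 h.1

def F_5396 : FrX :=
  ⟨0x80080a000804040e00002101002001000002040882200002081030010042004040012000c06000080080801600082140004001005003000401110008010,
    0xa6, 1, 0x305060708696a1, 7,
    [(0xa6, 1), (0x205396a8, 4), (0x10548796, 4), (0x214396a7, 4), (0x205396a8, 4), (0x10548796, 4)],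
    [(0x305060708696a1, 7), (0x30728195, 4), (0x436581a7, 4), (0x408196a2, 4), (0x30728195, 4), (0x436581a7, 4)]⟩

def c_5396 : frmChk tA tA F_5396 = true := by decide +kernel

def r_5396_0 : chkL rootF engF2 tA tA sA_451 sA_451 4 F_5396 [(511, 0, 0)]
    0x1 = true := by
  decide +kernel

theorem f_5396 (h : TabsF) : FrameF repsF 451 F_5396.f :=
  frame_of rfl c_5396 (runs_of engOK r_5396_0) (by decide +kernel) h.1 h.1

def F_5397 : FrX :=
  ⟨0x482000044040440000c20400200090001820400008809080021001000101012002000500200802028008000c4004040300001210108120004008010208,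
    0xa0, 1, 0x1031405270a7, 6,
    [(0xa0, 1), (0x538690a2, 4), (0x548790a1, 4), (0x21437690, 4), (0x538690a2, 4), (0x548790a1, 4)],
    [(0x1031405270a7, 6), (0x20758694, 4), (0x217394a8, 4), (0x105394a6, 4), (0x20758694, 4), (0x217394a8, 4)]⟩

def c_5397 : frmChk tA tA F_5397 = true := by decide +kernel

def r_5397_0 : chkL rootF engF2 tA tA sA_451 sA_451 4 F_5397 [(511, 0, 0)]
    0x1 = true := by
  decide +kernel

theorem f_5397 (h : TabsF) : FrameF repsF 451 F_5397.f :=
  frame_of rfl c_5397 (runs_of engOK r_5397_0) (by decide +kernel) h.1 h.1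

def F_5398 : FrX :=
  ⟨0x482000044040440000c2040020009000182040020001100100020280024022400080800081040112000200202004408848010300200800002010008250,
    0xa0, 1, 0x2061738594a0, 6,
    [(0xa0, 1), (0x538690a2, 4), (0x548790a1, 4), (0x21437690, 4), (0x538690a2, 4), (0x548790a1, 4)],
    [(0x2061738594a0, 6), (0x425187a0, 4), (0x425398a6, 4), (0x31426097, 4), (0x425187a0, 4), (0x425398a6, 4)]⟩

def c_5398 : frmChk tA tA F_5398 = true := by decide +kernel

def r_5398_0 : chkL rootF engF2 tA tA sA_451 sA_451 4 F_5398 [(511, 0, 0)]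
    0x1 = true := by
  decide +kernel

theorem f_5398 (h : TabsF) : FrameF repsF 451 F_5398.f :=
  frame_of rfl c_5398 (runs_of engOK r_5398_0) (by decide +kernel) h.1 h.1

def F_5399 : FrX :=
  ⟨0x2002000900044004000e0204100014100080004081000004804800200a00042014008100080e000880080209400002102100300084008000440042002001,
    0xa3, 1, 0x105262728591a0, 7,
    [(0xa3, 1), (0x208693a5, 4), (0x10548793, 4), (0x217693a4, 4), (0x208693a5, 4), (0x10548793, 4)],
    [(0x105262728591a0, 7), (0x425386a7, 4), (0x106584a9, 4), (0x10325486, 4), (0x106584a9, 4), (0x54638297, 4), (0x104352a7, 4), (0x10325486, 4), (0x104352a7, 4), (0x326485a9, 4), (0x10325486, 4), (0x54638297, 4)]⟩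

def c_5399 : frmChk tA tB F_5399 = true := by decide +kernel

def r_5399_0 : chkL rootF engF2 tA tB sA_451 sB_451 4 F_5399 [(511, 0, 0)]
    0x1 = true := by
  decide +kernel

theorem f_5399 (h : TabsF) : FrameF repsF 451 F_5399.f :=
  frame_of rfl c_5399 (runs_of engOK r_5399_0) (by decide +kernel) h.1 h.2

def F_5400 : FrX :=
  ⟨0x482000044040440000c204002000900018204001001010080080081002400820801201000008410200081012051000201080a008041009000a00010010,
    0xa0, 1, 0x425264718295a3, 7,
    [(0xa0, 1), (0x538690a2, 4), (0x548790a1, 4), (0x21437690, 4), (0x538690a2, 4), (0x548790a1, 4)],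
    [(0x425264718295a3, 7), (0x658091a2, 4), (0x21437096, 4), (0x436291a5, 4), (0x21437096, 4), (0x628795a1, 4), (0x435280a6, 4), (0x436291a5, 4), (0x435280a6, 4), (0x617092a5, 4), (0x436291a5, 4), (0x628795a1, 4)]⟩

def c_5400 : frmChk tA tB F_5400 = true := by decide +kernel

def r_5400_0 : chkL rootF engF2 tA tB sA_451 sB_451 4 F_5400 [(511, 0, 0)]
    0x1 = true := by
  decide +kernel

theorem f_5400 (h : TabsF) : FrameF repsF 451 F_5400.f :=
  frame_of rfl c_5400 (runs_of engOK r_5400_0) (by decide +kernel) h.1 h.2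

def F_5401 : FrX :=
  ⟨0x80080a000804040e0000210100200100000204088060000810840008001040004908041004008000202428050010100200400a020700200440002400010,
    0xa6, 1, 0x304351708197a2, 7,
    [(0xa6, 1), (0x205396a8, 4), (0x10548796, 4), (0x214396a7, 4), (0x205396a8, 4), (0x10548796, 4)],
    [(0x304351708197a2, 7), (0x324165a7, 4), (0x10328795, 4), (0x324096a8, 4), (0x324165a7, 4), (0x10328795, 4)]⟩

def c_5401 : frmChk tA tA F_5401 = true := by decide +kernel

def r_5401_0 : chkL rootF engF2 tA tA sA_451 sA_451 4 F_5401 [(511, 0, 0)]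
    0x1 = true := by
  decide +kernel

theorem f_5401 (h : TabsF) : FrameF repsF 451 F_5401.f :=
  frame_of rfl c_5401 (runs_of engOK r_5401_0) (by decide +kernel) h.1 h.1

def F_5402 : FrX :=
  ⟨0x482000044040440000c2040020009000182040001009012004200004080082008202001030801020000010100920008000801210001082102210800201,
    0xa0, 1, 0x103050657283a1, 7,
    [(0xa0, 1), (0x538690a2, 4), (0x548790a1, 4), (0x21437690, 4), (0x538690a2, 4), (0x548790a1, 4)],
    [(0x103050657283a1, 7), (0x31758690, 4), (0x216490a5, 4), (0x328490a7, 4), (0x31758690, 4), (0x216490a5, 4)]⟩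

def c_5402 : frmChk tA tA F_5402 = true := by decide +kernel

def r_5402_0 : chkL rootF engF2 tA tA sA_451 sA_451 4 F_5402 [(511, 0, 0)]
    0x1 = true := by
  decide +kernel

theorem f_5402 (h : TabsF) : FrameF repsF 451 F_5402.f :=
  frame_of rfl c_5402 (runs_of engOK r_5402_0) (by decide +kernel) h.1 h.1

def F_5403 : FrX :=
  ⟨0x80080a000804040e00002101002001000002040882020202010080100801002001084060002008080021240203000011088050002002202500200020200,
    0xa6, 1, 0x3264708591a6, 6,
    [(0xa6, 1), (0x205396a8, 4), (0x10548796, 4), (0x214396a7, 4), (0x205396a8, 4), (0x10548796, 4)],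
    [(0x3264708591a6, 6), (0x417382a5, 4), (0x41508697, 4), (0x416293a0, 4), (0x417382a5, 4), (0x41508697, 4)]⟩

def c_5403 : frmChk tA tA F_5403 = true := by decide +kernel

def r_5403_0 : chkL rootF engF2 tA tA sA_451 sA_451 4 F_5403 [(511, 0, 0)]
    0x109c59 = true := by
  decide +kernel

theorem f_5403 (h : TabsF) : FrameF repsF 451 F_5403.f :=
  frame_of rfl c_5403 (runs_of engOK r_5403_0) (by decide +kernel) h.1 h.1

def F_5404 : FrX :=
  ⟨0x2002000900044004000e0204100014100080004081000004140080881081200120000010400200848002022008502001000181000080400044422000c200,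
    0xa3, 1, 0x415063768297a2, 7,
    [(0xa3, 1), (0x208693a5, 4), (0x10548793, 4), (0x217693a4, 4), (0x208693a5, 4), (0x10548793, 4)],
    [(0x415063768297a2, 7), (0x217690a5, 4), (0x10548397, 4), (0x62718390, 4), (0x10548397, 4), (0x207196a4, 4), (0x617283a5, 4), (0x62718390, 4), (0x617283a5, 4), (0x54627091, 4), (0x62718390, 4), (0x207196a4, 4)]⟩

def c_5404 : frmChk tA tB F_5404 = true := by decide +kernel

def r_5404_0 : chkL rootF engF2 tA tB sA_451 sB_451 4 F_5404 [(511, 0, 0)]
    0x1 = true := by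
  decide +kernel

theorem f_5404 (h : TabsF) : FrameF repsF 451 F_5404.f :=
  frame_of rfl c_5404 (runs_of engOK r_5404_0) (by decide +kernel) h.1 h.2

def F_5405 : FrX :=
  ⟨0x1001040012008080000e00840800410008101000044c20080010100000200810008048084025002000020810800810000840011005000424480002241000,
    0xa3, 1, 0x4264748595a5, 6,
    [(0xa3, 1), (0x207584a6, 4), (0x10547693, 4), (0x647593a8, 4), (0x10547693, 4), (0x216485a7, 4), (0x208693a4, 4), (0x647593a8, 4), (0x208693a4, 4), (0x106574a8, 4), (0x647593a8, 4), (0x216485a7, 4)],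
    [(0x4264748595a5, 6), (0x405298a3, 4), (0x106598a7, 4), (0x41627398, 4), (0x405298a3, 4), (0x106598a7, 4)]⟩

def c_5405 : frmChk tB tA F_5405 = true := by decide +kernel

def r_5405_0 : chkL rootF engF2 tB tA sB_451 sA_451 4 F_5405 [(511, 0, 0)]
    0x1 = true := by
  decide +kernel

theorem f_5405 (h : TabsF) : FrameF repsF 451 F_5405.f :=
  frame_of rfl c_5405 (runs_of engOK r_5405_0) (by decide +kernel) h.2 h.1

def F_5406 : FrX :=
  ⟨0x1001040012008080000e0084080041000810100004401008009004004410201008004200408300202800080440101000082020a00800084000a004200050,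
    0xa3, 1, 0x3253617398a6, 6,
    [(0xa3, 1), (0x207584a6, 4), (0x10547693, 4), (0x647593a8, 4), (0x10547693, 4), (0x216485a7, 4), (0x208693a4, 4), (0x647593a8, 4), (0x208693a4, 4), (0x106574a8, 4), (0x647593a8, 4), (0x216485a7, 4)],
    [(0x3253617398a6, 6), (0x307281a9, 4), (0x42608195, 4), (0x637481a5, 4), (0x307281a9, 4), (0x42608195, 4)]⟩

def c_5406 : frmChk tB tA F_5406 = true := by decide +kernel

def r_5406_0 : chkL rootF engF2 tB tA sB_451 sA_451 4 F_5406 [(511, 0, 0)]
    0x1 = true := by
  decide +kernel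

theorem f_5406 (h : TabsF) : FrameF repsF 451 F_5406.f :=
  frame_of rfl c_5406 (runs_of engOK r_5406_0) (by decide +kernel) h.2 h.1

def F_5407 : FrX :=
  ⟨0x1001040012008080000e0084080041000810100004210000406001000400088280820008120000880280160204000008c040201010200081480000040208,
    0xa3, 1, 0x3165748290a3, 6,
    [(0xa3, 1), (0x207584a6, 4), (0x10547693, 4), (0x647593a8, 4), (0x10547693, 4), (0x216485a7, 4), (0x208693a4, 4), (0x647593a8, 4), (0x208693a4, 4), (0x106574a8, 4), (0x647593a8, 4), (0x216485a7, 4)],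
    [(0x3165748290a3, 6), (0x647298a5, 4), (0x10547693, 4), (0x106475a2, 4), (0x10547693, 4), (0x627583a4, 4), (0x105298a7, 4), (0x106475a2, 4), (0x105298a7, 4), (0x657493a2, 4), (0x106475a2, 4), (0x627583a4, 4)]⟩

def c_5407 : frmChk tB tB F_5407 = true := by decide +kernel

def r_5407_0 : chkL rootF engF2 tB tB sB_451 sB_451 4 F_5407 [(511, 0, 0)]
    0x1 = true := by
  decide +kernel

theorem f_5407 (h : TabsF) : FrameF repsF 451 F_5407.f :=
  frame_of rfl c_5407 (runs_of engOK r_5407_0) (by decide +kernel) h.2 h.2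

def F_5408 : FrX :=
  ⟨0x2002000900044004000e02041000141000800040801000282011a000008020020000222248020000242004404000400080408a0010a00200202010086000,
    0xa3, 1, 0x1052648397a3, 6,
    [(0xa3, 1), (0x208693a5, 4), (0x10548793, 4), (0x217693a4, 4), (0x208693a5, 4), (0x10548793, 4)],
    [(0x1052648397a3, 6), (0x435187a2, 4), (0x10628793, 4), (0x508794a6, 4), (0x435187a2, 4), (0x10628793, 4)]⟩

def c_5408 : frmChk tA tA F_5408 = true := by decide +kernel

def r_5408_0 : chkL rootF engF2 tA tA sA_451 sA_451 4 F_5408 [(511, 0, 0)]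
    0x1 = true := by
  decide +kernel

theorem f_5408 (h : TabsF) : FrameF repsF 451 F_5408.f :=
  frame_of rfl c_5408 (runs_of engOK r_5408_0) (by decide +kernel) h.1 h.1

theorem cl_451 (h : TabsF) : ∀ f ∈ fr_451, FrameF repsF 451 f :=
  List.forall_mem_cons.2 ⟨f_5393 h, List.forall_mem_cons.2 ⟨f_5394 h, List.forall_mem_cons.2 ⟨f_5395 h, List.forall_mem_cons.2 ⟨f_5396 h, List.forall_mem_cons.2 ⟨f_5397 h, List.forall_mem_cons.2 ⟨f_5398 h, List.forall_mem_cons.2 ⟨f_5399 h, List.forall_mem_cons.2 ⟨f_5400 h, List.forall_mem_cons.2 ⟨f_5401 h, List.forall_mem_cons.2 ⟨f_5402 h, List.forall_mem_cons.2 ⟨f_5403 h, List.forall_mem_cons.2 ⟨f_5404 h, List.forall_mem_cons.2 ⟨f_5405 h, List.forall_mem_cons.2 ⟨f_5406 h, List.forall_mem_cons.2 ⟨f_5407 h, List.forall_mem_cons.2 ⟨f_5408 h,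
    fun _ h0 => absurd h0 List.not_mem_nil⟩⟩⟩⟩⟩⟩⟩⟩⟩⟩⟩⟩⟩⟩⟩⟩

def F_5409 : FrX :=
  ⟨0x1c2102000004044000002041000101000082040890080080001004100400101040808050000084200040e04440081040100281010102020204008000084,
    0x0, 0, 0x54647587, 4,
    [(0x0, 0), (0x205386a9, 4), (0x105487a9, 4), (0x214376a9, 4), (0x205386a9, 4), (0x105487a9, 4)],
    [(0x54647587, 4), (0x20536487, 4), (0x107685a9, 4), (0x436587a9, 4), (0x107685a9, 4), (0x21657483, 4), (0x205463a9, 4), (0x436587a9, 4), (0x205463a9, 4), (0x10437586, 4), (0x436587a9, 4), (0x21657483, 4)]⟩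

def c_5409 : frmChk tA tB F_5409 = true := by decide +kernel

def r_5409_0 : chkL rootF engF2 tA tB sA_452 sB_452 4 F_5409 [(511, 0, 0)]
    0x1 = true := by
  decide +kernel

theorem f_5409 (h : TabsF) : FrameF repsF 452 F_5409.f :=
  frame_of rfl c_5409 (runs_of engOK r_5409_0) (by decide +kernel) h.1 h.2

def F_5410 : FrX :=
  ⟨0x2002000900044004000e02041000141000800040801002080048022002000180040028410100004204040604440001002100082030003020200018002001,
    0xa3, 1, 0x10425465738691a0, 8,
    [(0xa3, 1), (0x208693a5, 4), (0x10548793, 4), (0x217693a4, 4), (0x208693a5, 4), (0x10548793, 4)],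
    [(0x10425465738691a0, 8), (0x107682a4, 4), (0x103265a9, 4), (0x10758394, 4), (0x107682a4, 4), (0x103265a9, 4)]⟩

def c_5410 : frmChk tA tA F_5410 = true := by decide +kernel

def r_5410_0 : chkL rootF engF2 tA tA sA_452 sA_452 4 F_5410 [(511, 0, 0)]
    0x1 = true := by
  decide +kernel

theorem f_5410 (h : TabsF) : FrameF repsF 452 F_5410.f :=
  frame_of rfl c_5410 (runs_of engOK r_5410_0) (by decide +kernel) h.1 h.1

def F_5411 : FrX :=
  ⟨0x80080a000804040e00002101002001000002040881011001000c0080048010000412102000202000a010000204040408202090002011900800018100208,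
    0xa6, 1, 0x21324151618197a0, 8,
    [(0xa6, 1), (0x205396a8, 4), (0x10548796, 4), (0x214396a7, 4), (0x205396a8, 4), (0x10548796, 4)],
    [(0x21324151618197a0, 8), (0x416570a3, 4), (0x427096a8, 4), (0x21708395, 4), (0x416570a3, 4), (0x427096a8, 4)]⟩

def c_5411 : frmChk tA tA F_5411 = true := by decide +kernel

def r_5411_0 : chkL rootF engF2 tA tA sA_452 sA_452 4 F_5411 [(511, 0, 0)]
    0x1 = true := by
  decide +kernel

theorem f_5411 (h : TabsF) : FrameF repsF 452 F_5411.f :=
  frame_of rfl c_5411 (runs_of engOK r_5411_0) (by decide +kernel) h.1 h.1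

def F_5412 : FrX :=
  ⟨0x2002000900044004000e0204100014100080004080040104201020001010460200008080408200020a000102000041008280010041201000802004210308,
    0xa3, 1, 0x2042538395a7, 6,
    [(0xa3, 1), (0x208693a5, 4), (0x10548793, 4), (0x217693a4, 4), (0x208693a5, 4), (0x10548793, 4)],
    [(0x2042538395a7, 6), (0x42657398, 4), (0x217390a5, 4), (0x417380a6, 4), (0x42657398, 4), (0x217390a5, 4)]⟩

def c_5412 : frmChk tA tA F_5412 = true := by decide +kernel

def r_5412_0 : chkL rootF engF2 tA tA sA_452 sA_452 4 F_5412 [(511, 0, 0)]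
    0x1 = true := by
  decide +kernel

theorem f_5412 (h : TabsF) : FrameF repsF 452 F_5412.f :=
  frame_of rfl c_5412 (runs_of engOK r_5412_0) (by decide +kernel) h.1 h.1

def F_5413 : FrX :=
  ⟨0x80080a000804040e00002101002001000002040882200002082030000042084040012000c00010098040800200882240004001005003000001110008410,
    0xa6, 1, 0x1042738194a3, 6,
    [(0xa6, 1), (0x205396a8, 4), (0x10548796, 4), (0x214396a7, 4), (0x205396a8, 4), (0x10548796, 4)],
    [(0x1042738194a3, 6), (0x416072a5, 4), (0x30728195, 4), (0x637284a9, 4), (0x416072a5, 4), (0x30728195, 4)]⟩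

def c_5413 : frmChk tA tA F_5413 = true := by decide +kernel

def r_5413_0 : chkL rootF engF2 tA tA sA_452 sA_452 4 F_5413 [(511, 0, 0)]
    0x1 = true := by
  decide +kernel

theorem f_5413 (h : TabsF) : FrameF repsF 452 F_5413.f :=
  frame_of rfl c_5413 (runs_of engOK r_5413_0) (by decide +kernel) h.1 h.1

def F_5414 : FrX :=
  ⟨0x482000044040440000c2040020009000182040002100404001020400000c04800880040888091000080020444002140100400204100120001002200108,
    0xa0, 1, 0x4053768192a0, 6,
    [(0xa0, 1), (0x538690a2, 4), (0x548790a1, 4), (0x21437690, 4), (0x538690a2, 4), (0x548790a1, 4)],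
    [(0x4053768192a0, 6), (0x425371a9, 4), (0x304261a8, 4), (0x42507698, 4), (0x425371a9, 4), (0x304261a8, 4)]⟩

def c_5414 : frmChk tA tA F_5414 = true := by decide +kernel

def r_5414_0 : chkL rootF engF2 tA tA sA_452 sA_452 4 F_5414 [(511, 0, 0)]
    0x1 = true := by
  decide +kernel

theorem f_5414 (h : TabsF) : FrameF repsF 452 F_5414.f :=
  frame_of rfl c_5414 (runs_of engOK r_5414_0) (by decide +kernel) h.1 h.1

def F_5415 : FrX :=
  ⟨0x2002000900044004000e0204100014100080004081000004804800200a000420140081000808010898040208000804202100200084008200040042002401,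
    0xa3, 1, 0x105262728591a0, 7,
    [(0xa3, 1), (0x208693a5, 4), (0x10548793, 4), (0x217693a4, 4), (0x208693a5, 4), (0x10548793, 4)],
    [(0x105262728591a0, 7), (0x425386a7, 4), (0x106584a9, 4), (0x10325486, 4), (0x106584a9, 4), (0x54638297, 4), (0x104352a7, 4), (0x10325486, 4), (0x104352a7, 4), (0x326485a9, 4), (0x10325486, 4), (0x54638297, 4)]⟩

def c_5415 : frmChk tA tB F_5415 = true := by decide +kernel

def r_5415_0 : chkL rootF engF2 tA tB sA_452 sB_452 4 F_5415 [(511, 0, 0)]
    0x1 = true := by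
  decide +kernel

theorem f_5415 (h : TabsF) : FrameF repsF 452 F_5415.f :=
  frame_of rfl c_5415 (runs_of engOK r_5415_0) (by decide +kernel) h.1 h.2

def F_5416 : FrX :=
  ⟨0x1001040012008080000e0084080041000810100004402008005010000420081000804808402060200002081082041000084000500100040c090002241000,
    0xa3, 1, 0x213054638192a6, 7,
    [(0xa3, 1), (0x207584a6, 4), (0x10547693, 4), (0x647593a8, 4), (0x10547693, 4), (0x216485a7, 4), (0x208693a4, 4), (0x647593a8, 4), (0x208693a4, 4), (0x106574a8, 4), (0x647593a8, 4), (0x216485a7, 4)],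
    [(0x213054638192a6, 7), (0x106493a2, 4), (0x10547283, 4), (0x106598a7, 4), (0x106493a2, 4), (0x10547283, 4)]⟩

def c_5416 : frmChk tB tA F_5416 = true := by decide +kernel

def r_5416_0 : chkL rootF engF2 tB tA sB_452 sA_452 4 F_5416 [(511, 0, 0)]
    0x1 = true := by
  decide +kernel

theorem f_5416 (h : TabsF) : FrameF repsF 452 F_5416.f :=
  frame_of rfl c_5416 (runs_of engOK r_5416_0) (by decide +kernel) h.2 h.1

def F_5417 : FrX :=
  ⟨0x1001040012008080000e00840800410008101000040820081010100100200810008048084020402000020810820010000840005005000440580002240088,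
    0xa3, 1, 0x324161718290a6, 7,
    [(0xa3, 1), (0x207584a6, 4), (0x10547693, 4), (0x647593a8, 4), (0x10547693, 4), (0x216485a7, 4), (0x208693a4, 4), (0x647593a8, 4), (0x208693a4, 4), (0x106574a8, 4), (0x647593a8, 4), (0x216485a7, 4)],
    [(0x324161718290a6, 7), (0x405298a3, 4), (0x40516397, 4), (0x214087a6, 4), (0x405298a3, 4), (0x40516397, 4)]⟩

def c_5417 : frmChk tB tA F_5417 = true := by decide +kernel

def r_5417_0 : chkL rootF engF2 tB tA sB_452 sA_452 4 F_5417 [(511, 0, 0)]
    0x1 = true := by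
  decide +kernel

theorem f_5417 (h : TabsF) : FrameF repsF 452 F_5417.f :=
  frame_of rfl c_5417 (runs_of engOK r_5417_0) (by decide +kernel) h.2 h.1

def F_5418 : FrX :=
  ⟨0x1001040012008080000e008408004100081010000440100800901000041020100c004200408000412000280040101000081000a00882084000a004210050,
    0xa3, 1, 0x214060708097a3, 7,
    [(0xa3, 1), (0x207584a6, 4), (0x10547693, 4), (0x647593a8, 4), (0x10547693, 4), (0x216485a7, 4), (0x208693a4, 4), (0x647593a8, 4), (0x208693a4, 4), (0x106574a8, 4), (0x647593a8, 4), (0x216485a7, 4)],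
    [(0x214060708097a3, 7), (0x637481a5, 4), (0x50638297, 4), (0x216394a0, 4), (0x637481a5, 4), (0x50638297, 4)]⟩

def c_5418 : frmChk tB tA F_5418 = true := by decide +kernel

def r_5418_0 : chkL rootF engF2 tB tA sB_452 sA_452 4 F_5418 [(511, 0, 0)]
    0x1 = true := by
  decide +kernel

theorem f_5418 (h : TabsF) : FrameF repsF 452 F_5418.f :=
  frame_of rfl c_5418 (runs_of engOK r_5418_0) (by decide +kernel) h.2 h.1

def F_5419 : FrX :=
  ⟨0x1001040012008080000e0084080041000810100004401008009002004010201008404200408000600004680840101000081020a00800084040a000200050,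
    0xa3, 1, 0x405465728095a6, 7,
    [(0xa3, 1), (0x207584a6, 4), (0x10547693, 4), (0x647593a8, 4), (0x10547693, 4), (0x216485a7, 4), (0x208693a4, 4), (0x647593a8, 4), (0x208693a4, 4), (0x106574a8, 4), (0x647593a8, 4), (0x216485a7, 4)],
    [(0x405465728095a6, 7), (0x608793a4, 4), (0x42608195, 4), (0x536071a2, 4), (0x608793a4, 4), (0x42608195, 4)]⟩

def c_5419 : frmChk tB tA F_5419 = true := by decide +kernel

def r_5419_0 : chkL rootF engF2 tB tA sB_452 sA_452 4 F_5419 [(511, 0, 0)]
    0x1 = true := by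
  decide +kernel

theorem f_5419 (h : TabsF) : FrameF repsF 452 F_5419.f :=
  frame_of rfl c_5419 (runs_of engOK r_5419_0) (by decide +kernel) h.2 h.1

def F_5420 : FrX :=
  ⟨0x1001040012008080000e00840800410008101000042100004060010004000882808200081080100800041202040000420044201811200080482000040208,
    0xa3, 1, 0x3165748290a3, 6,
    [(0xa3, 1), (0x207584a6, 4), (0x10547693, 4), (0x647593a8, 4), (0x10547693, 4), (0x216485a7, 4), (0x208693a4, 4), (0x647593a8, 4), (0x208693a4, 4), (0x106574a8, 4), (0x647593a8, 4), (0x216485a7, 4)],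
    [(0x3165748290a3, 6), (0x647298a5, 4), (0x10547693, 4), (0x106475a2, 4), (0x10547693, 4), (0x627583a4, 4), (0x105298a7, 4), (0x106475a2, 4), (0x105298a7, 4), (0x657493a2, 4), (0x106475a2, 4), (0x627583a4, 4)]⟩

def c_5420 : frmChk tB tB F_5420 = true := by decide +kernel

def r_5420_0 : chkL rootF engF2 tB tB sB_452 sB_452 4 F_5420 [(511, 0, 0)]
    0x1 = true := by
  decide +kernel

theorem f_5420 (h : TabsF) : FrameF repsF 452 F_5420.f :=
  frame_of rfl c_5420 (runs_of engOK r_5420_0) (by decide +kernel) h.2 h.2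

def F_5421 : FrX :=
  ⟨0x2002000900044004000e02041000141000800040800804058010020400800880200100104400008480020140101010000200820460040000501210008300,
    0xa3, 1, 0x2142627684a5, 6,
    [(0xa3, 1), (0x208693a5, 4), (0x10548793, 4), (0x217693a4, 4), (0x208693a5, 4), (0x10548793, 4)],
    [(0x2142627684a5, 6), (0x607195a3, 4), (0x204195a8, 4), (0x62748395, 4), (0x607195a3, 4), (0x204195a8, 4)]⟩

def c_5421 : frmChk tA tA F_5421 = true := by decide +kernel

def r_5421_0 : chkL rootF engF2 tA tA sA_452 sA_452 4 F_5421 [(511, 0, 0)]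
    0x1 = true := by
  decide +kernel

theorem f_5421 (h : TabsF) : FrameF repsF 452 F_5421.f :=
  frame_of rfl c_5421 (runs_of engOK r_5421_0) (by decide +kernel) h.1 h.1

def F_5422 : FrX :=
  ⟨0x482000044040440000c2040020009000182040010010100800800810042004220010808010048120000810880808100014002004200200043020008410,
    0xa0, 1, 0x4265718394a2, 6,
    [(0xa0, 1), (0x538690a2, 4), (0x548790a1, 4), (0x21437690, 4), (0x538690a2, 4), (0x548790a1, 4)],
    [(0x4265718394a2, 6), (0x425386a0, 4), (0x31427096, 4), (0x425198a7, 4), (0x425386a0, 4), (0x31427096, 4)]⟩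

def c_5422 : frmChk tA tA F_5422 = true := by decide +kernel

def r_5422_0 : chkL rootF engF2 tA tA sA_452 sA_452 4 F_5422 [(511, 0, 0)]
    0x1 = true := by
  decide +kernel

theorem f_5422 (h : TabsF) : FrameF repsF 452 F_5422.f :=
  frame_of rfl c_5422 (runs_of engOK r_5422_0) (by decide +kernel) h.1 h.1

def F_5423 : FrX :=
  ⟨0x80080a000804040e00002101002001000002040888020481008080020810001001004060000048080022800281000400303000480008080444028020200,
    0xa6, 1, 0x2030425182a1, 6,
    [(0xa6, 1), (0x205396a8, 4), (0x10548796, 4), (0x214396a7, 4), (0x205396a8, 4), (0x10548796, 4)],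
    [(0x2030425182a1, 6), (0x21648395, 4), (0x107495a3, 4), (0x207695a8, 4), (0x21648395, 4), (0x107495a3, 4)]⟩

def c_5423 : frmChk tA tA F_5423 = true := by decide +kernel

def r_5423_0 : chkL rootF engF2 tA tA sA_452 sA_452 4 F_5423 [(511, 0, 0)]
    0x1 = true := by
  decide +kernel

theorem f_5423 (h : TabsF) : FrameF repsF 452 F_5423.f :=
  frame_of rfl c_5423 (runs_of engOK r_5423_0) (by decide +kernel) h.1 h.1

def F_5424 : FrX :=
  ⟨0x482000044040440000c2040020009000182040001100401200900200004090008210001028000488000801800210102040004080500080412030200004,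
    0xa0, 1, 0x3241657587a0, 6,
    [(0xa0, 1), (0x538690a2, 4), (0x548790a1, 4), (0x21437690, 4), (0x538690a2, 4), (0x548790a1, 4)],
    [(0x3241657587a0, 6), (0x657290a3, 4), (0x718690a4, 4), (0x21438590, 4), (0x657290a3, 4), (0x718690a4, 4)]⟩

def c_5424 : frmChk tA tA F_5424 = true := by decide +kernel

def r_5424_0 : chkL rootF engF2 tA tA sA_452 sA_452 4 F_5424 [(511, 0, 0)]
    0x1 = true := by
  decide +kernel

theorem f_5424 (h : TabsF) : FrameF repsF 452 F_5424.f :=
  frame_of rfl c_5424 (runs_of engOK r_5424_0) (by decide +kernel) h.1 h.1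

theorem cl_452 (h : TabsF) : ∀ f ∈ fr_452, FrameF repsF 452 f :=
  List.forall_mem_cons.2 ⟨f_5409 h, List.forall_mem_cons.2 ⟨f_5410 h, List.forall_mem_cons.2 ⟨f_5411 h, List.forall_mem_cons.2 ⟨f_5412 h, List.forall_mem_cons.2 ⟨f_5413 h, List.forall_mem_cons.2 ⟨f_5414 h, List.forall_mem_cons.2 ⟨f_5415 h, List.forall_mem_cons.2 ⟨f_5416 h, List.forall_mem_cons.2 ⟨f_5417 h, List.forall_mem_cons.2 ⟨f_5418 h, List.forall_mem_cons.2 ⟨f_5419 h, List.forall_mem_cons.2 ⟨f_5420 h, List.forall_mem_cons.2 ⟨f_5421 h, List.forall_mem_cons.2 ⟨f_5422 h, List.forall_mem_cons.2 ⟨f_5423 h, List.forall_mem_cons.2 ⟨f_5424 h,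
    fun _ h0 => absurd h0 List.not_mem_nil⟩⟩⟩⟩⟩⟩⟩⟩⟩⟩⟩⟩⟩⟩⟩⟩

def F_5425 : FrX :=
  ⟨0x1c2102000004044000002041000101000082040890080080001004100400101040808050180004200040408444101040100001011102020204008480080,
    0x0, 0, 0x21547383, 4,
    [(0x0, 0), (0x205386a9, 4), (0x105487a9, 4), (0x214376a9, 4), (0x205386a9, 4), (0x105487a9, 4)],
    [(0x21547383, 4), (0x10437586, 4), (0x205463a9, 4), (0x436587a9, 4), (0x205463a9, 4), (0x21657483, 4), (0x107685a9, 4), (0x436587a9, 4), (0x107685a9, 4), (0x20536487, 4), (0x436587a9, 4), (0x21657483, 4)]⟩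

def c_5425 : frmChk tA tB F_5425 = true := by decide +kernel

def r_5425_0 : chkL rootF engF2 tA tB sA_453 sB_453 4 F_5425 [(511, 0, 0)]
    0x1 = true := by
  decide +kernel

theorem f_5425 (h : TabsF) : FrameF repsF 453 F_5425.f :=
  frame_of rfl c_5425 (runs_of engOK r_5425_0) (by decide +kernel) h.1 h.2

def F_5426 : FrX :=
  ⟨0x80080a000804040e00002101002001000002040881011001000c0080048010000412102000202000a010000204052400000090006000880842019080200,
    0xa6, 1, 0x21324151618197a0, 8,
    [(0xa6, 1), (0x205396a8, 4), (0x10548796, 4), (0x214396a7, 4), (0x205396a8, 4), (0x10548796, 4)],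
    [(0x21324151618197a0, 8), (0x416570a3, 4), (0x427096a8, 4), (0x21708395, 4), (0x416570a3, 4), (0x427096a8, 4)]⟩

def c_5426 : frmChk tA tA F_5426 = true := by decide +kernel

def r_5426_0 : chkL rootF engF2 tA tA sA_453 sA_453 4 F_5426 [(511, 0, 0)]
    0x1 = true := by
  decide +kernel

theorem f_5426 (h : TabsF) : FrameF repsF 453 F_5426.f :=
  frame_of rfl c_5426 (runs_of engOK r_5426_0) (by decide +kernel) h.1 h.1

def F_5427 : FrX :=
  ⟨0x2002000900044004000e0204100014100080004081000008208800200a000180140028010180004204040408440001002100002030003020200018082001,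
    0xa3, 1, 0x4251648290a6, 6,
    [(0xa3, 1), (0x208693a5, 4), (0x10548793, 4), (0x217693a4, 4), (0x208693a5, 4), (0x10548793, 4)],
    [(0x4251648290a6, 6), (0x203198a4, 4), (0x20617495, 4), (0x206385a7, 4), (0x203198a4, 4), (0x20617495, 4)]⟩

def c_5427 : frmChk tA tA F_5427 = true := by decide +kernel

def r_5427_0 : chkL rootF engF2 tA tA sA_453 sA_453 4 F_5427 [(511, 0, 0)]
    0x1 = true := by
  decide +kernel

theorem f_5427 (h : TabsF) : FrameF repsF 453 F_5427.f :=
  frame_of rfl c_5427 (runs_of engOK r_5427_0) (by decide +kernel) h.1 h.1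

def F_5428 : FrX :=
  ⟨0x80080a000804040e00002101002001000002040882290000082030000040004040013000c00010010080800601082240004001005003020401110008010,
    0xa6, 1, 0x1042617595a5, 6,
    [(0xa6, 1), (0x205396a8, 4), (0x10548796, 4), (0x214396a7, 4), (0x205396a8, 4), (0x10548796, 4)],
    [(0x1042617595a5, 6), (0x418097a3, 4), (0x618597a2, 4), (0x32506497, 4), (0x418097a3, 4), (0x618597a2, 4)]⟩

def c_5428 : frmChk tA tA F_5428 = true := by decide +kernel

def r_5428_0 : chkL rootF engF2 tA tA sA_453 sA_453 4 F_5428 [(511, 0, 0)]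
    0x1 = true := by
  decide +kernel

theorem f_5428 (h : TabsF) : FrameF repsF 453 F_5428.f :=
  frame_of rfl c_5428 (runs_of engOK r_5428_0) (by decide +kernel) h.1 h.1

def F_5429 : FrX :=
  ⟨0x2002000900044004000e02041000141000800040800401042010200010100a4200008800408200020a000102000041042080010005201000801004210304,
    0xa3, 1, 0x21405462768496a5, 8,
    [(0xa3, 1), (0x208693a5, 4), (0x10548793, 4), (0x217693a4, 4), (0x208693a5, 4), (0x10548793, 4)],
    [(0x21405462768496a5, 8), (0x647095a3, 4), (0x425170a8, 4), (0x62708391, 4), (0x647095a3, 4), (0x425170a8, 4)]⟩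

def c_5429 : frmChk tA tA F_5429 = true := by decide +kernel

def r_5429_0 : chkL rootF engF2 tA tA sA_453 sA_453 4 F_5429 [(511, 0, 0)]
    0x1 = true := by
  decide +kernel

theorem f_5429 (h : TabsF) : FrameF repsF 453 F_5429.f :=
  frame_of rfl c_5429 (runs_of engOK r_5429_0) (by decide +kernel) h.1 h.1

def F_5430 : FrX :=
  ⟨0x482000044040440000c2040020009000182040020001100100020280024022400080800081040112000200202002408028010000600500004024008211,
    0xa0, 1, 0x2061738594a0, 6,
    [(0xa0, 1), (0x538690a2, 4), (0x548790a1, 4), (0x21437690, 4), (0x538690a2, 4), (0x548790a1, 4)],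
    [(0x2061738594a0, 6), (0x425187a0, 4), (0x425398a6, 4), (0x31426097, 4), (0x425187a0, 4), (0x425398a6, 4)]⟩

def c_5430 : frmChk tA tA F_5430 = true := by decide +kernel

def r_5430_0 : chkL rootF engF2 tA tA sA_453 sA_453 4 F_5430 [(511, 0, 0)]
    0x1 = true := by
  decide +kernel

theorem f_5430 (h : TabsF) : FrameF repsF 453 F_5430.f :=
  frame_of rfl c_5430 (runs_of engOK r_5430_0) (by decide +kernel) h.1 h.1

def F_5431 : FrX :=
  ⟨0x2002000900044004000e0204100014100080004081000004804800200a000420140081000808011a10080008401004202100200084000020440042202001,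
    0xa3, 1, 0x105262728591a0, 7,
    [(0xa3, 1), (0x208693a5, 4), (0x10548793, 4), (0x217693a4, 4), (0x208693a5, 4), (0x10548793, 4)],
    [(0x105262728591a0, 7), (0x425386a7, 4), (0x106584a9, 4), (0x10325486, 4), (0x106584a9, 4), (0x54638297, 4), (0x104352a7, 4), (0x10325486, 4), (0x104352a7, 4), (0x326485a9, 4), (0x10325486, 4), (0x54638297, 4)]⟩

def c_5431 : frmChk tA tB F_5431 = true := by decide +kernel

def r_5431_0 : chkL rootF engF2 tA tB sA_453 sB_453 4 F_5431 [(511, 0, 0)]
    0x1 = true := by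
  decide +kernel

theorem f_5431 (h : TabsF) : FrameF repsF 453 F_5431.f :=
  frame_of rfl c_5431 (runs_of engOK r_5431_0) (by decide +kernel) h.1 h.2

def F_5432 : FrX :=
  ⟨0x1001040012008080000e0084080041000810100004082008101010010020081000804808402040200002081082001000084002014100040c090002240044,
    0xa3, 1, 0x324161718290a6, 7,
    [(0xa3, 1), (0x207584a6, 4), (0x10547693, 4), (0x647593a8, 4), (0x10547693, 4), (0x216485a7, 4), (0x208693a4, 4), (0x647593a8, 4), (0x208693a4, 4), (0x106574a8, 4), (0x647593a8, 4), (0x216485a7, 4)],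
    [(0x324161718290a6, 7), (0x405298a3, 4), (0x40516397, 4), (0x214087a6, 4), (0x405298a3, 4), (0x40516397, 4)]⟩

def c_5432 : frmChk tB tA F_5432 = true := by decide +kernel

def r_5432_0 : chkL rootF engF2 tB tA sB_453 sA_453 4 F_5432 [(511, 0, 0)]
    0x1 = true := by
  decide +kernel

theorem f_5432 (h : TabsF) : FrameF repsF 453 F_5432.f :=
  frame_of rfl c_5432 (runs_of engOK r_5432_0) (by decide +kernel) h.2 h.1

def F_5433 : FrX :=
  ⟨0x1001040012008080000e0084080041000810100004088008009010010020005000804808402040200202081082081000084000500500040c080002241000,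
    0xa3, 1, 0x213152617290a3, 7,
    [(0xa3, 1), (0x207584a6, 4), (0x10547693, 4), (0x647593a8, 4), (0x10547693, 4), (0x216485a7, 4), (0x208693a4, 4), (0x647593a8, 4), (0x208693a4, 4), (0x106574a8, 4), (0x647593a8, 4), (0x216485a7, 4)],
    [(0x213152617290a3, 7), (0x208397a1, 4), (0x20418596, 4), (0x205376a4, 4), (0x208397a1, 4), (0x20418596, 4)]⟩

def c_5433 : frmChk tB tA F_5433 = true := by decide +kernel

def r_5433_0 : chkL rootF engF2 tB tA sB_453 sA_453 4 F_5433 [(511, 0, 0)]
    0x1 = true := by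
  decide +kernel

theorem f_5433 (h : TabsF) : FrameF repsF 453 F_5433.f :=
  frame_of rfl c_5433 (runs_of engOK r_5433_0) (by decide +kernel) h.2 h.1

def F_5434 : FrX :=
  ⟨0x1001040012008080000e0084080041000810100004420048009002004000203008004200408000402002280440101000081020a00802084000a004200050,
    0xa3, 1, 0x204352607287a0, 7,
    [(0xa3, 1), (0x207584a6, 4), (0x10547693, 4), (0x647593a8, 4), (0x10547693, 4), (0x216485a7, 4), (0x208693a4, 4), (0x647593a8, 4), (0x208693a4, 4), (0x106574a8, 4), (0x647593a8, 4), (0x216485a7, 4)],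
    [(0x204352607287a0, 7), (0x405296a7, 4), (0x308596a1, 4), (0x43718296, 4), (0x405296a7, 4), (0x308596a1, 4)]⟩

def c_5434 : frmChk tB tA F_5434 = true := by decide +kernel

def r_5434_0 : chkL rootF engF2 tB tA sB_453 sA_453 4 F_5434 [(511, 0, 0)]
    0x1 = true := by
  decide +kernel

theorem f_5434 (h : TabsF) : FrameF repsF 453 F_5434.f :=
  frame_of rfl c_5434 (runs_of engOK r_5434_0) (by decide +kernel) h.2 h.1

def F_5435 : FrX :=
  ⟨0x1001040012008080000e0084080041000810100004401008009002004010201008404200408000412000280040101000088000820902084000a040220050,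
    0xa3, 1, 0x405465728095a6, 7,
    [(0xa3, 1), (0x207584a6, 4), (0x10547693, 4), (0x647593a8, 4), (0x10547693, 4), (0x216485a7, 4), (0x208693a4, 4), (0x647593a8, 4), (0x208693a4, 4), (0x106574a8, 4), (0x647593a8, 4), (0x216485a7, 4)],
    [(0x405465728095a6, 7), (0x608793a4, 4), (0x42608195, 4), (0x536071a2, 4), (0x608793a4, 4), (0x42608195, 4)]⟩

def c_5435 : frmChk tB tA F_5435 = true := by decide +kernel

def r_5435_0 : chkL rootF engF2 tB tA sB_453 sA_453 4 F_5435 [(511, 0, 0)]
    0x1 = true := by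
  decide +kernel

theorem f_5435 (h : TabsF) : FrameF repsF 453 F_5435.f :=
  frame_of rfl c_5435 (runs_of engOK r_5435_0) (by decide +kernel) h.2 h.1

def F_5436 : FrX :=
  ⟨0x1001040012008080000e0084080041000810100004210000406001000400088280820008140110880004020a040000224004201010200081080004040208,
    0xa3, 1, 0x3165748290a3, 6,
    [(0xa3, 1), (0x207584a6, 4), (0x10547693, 4), (0x647593a8, 4), (0x10547693, 4), (0x216485a7, 4), (0x208693a4, 4), (0x647593a8, 4), (0x208693a4, 4), (0x106574a8, 4), (0x647593a8, 4), (0x216485a7, 4)],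
    [(0x3165748290a3, 6), (0x647298a5, 4), (0x10547693, 4), (0x106475a2, 4), (0x10547693, 4), (0x627583a4, 4), (0x105298a7, 4), (0x106475a2, 4), (0x105298a7, 4), (0x657493a2, 4), (0x106475a2, 4), (0x627583a4, 4)]⟩

def c_5436 : frmChk tB tB F_5436 = true := by decide +kernel

def r_5436_0 : chkL rootF engF2 tB tB sB_453 sB_453 4 F_5436 [(511, 0, 0)]
    0x1 = true := by
  decide +kernel

theorem f_5436 (h : TabsF) : FrameF repsF 453 F_5436.f :=
  frame_of rfl c_5436 (runs_of engOK r_5436_0) (by decide +kernel) h.2 h.2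

def F_5437 : FrX :=
  ⟨0x2002000900044004000e0204100014100080004080800020442000020800c082800202004020010480020b00120000108044820000a00820002010008210,
    0xa3, 1, 0x10304360728493a6, 8,
    [(0xa3, 1), (0x208693a5, 4), (0x10548793, 4), (0x217693a4, 4), (0x208693a5, 4), (0x10548793, 4)],
    [(0x10304360728493a6, 8), (0x437695a1, 4), (0x21436085, 4), (0x437098a2, 4), (0x437695a1, 4), (0x21436085, 4)]⟩

def c_5437 : frmChk tA tA F_5437 = true := by decide +kernel

def r_5437_0 : chkL rootF engF2 tA tA sA_453 sA_453 4 F_5437 [(511, 0, 0)]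
    0x427 = true := by
  decide +kernel

theorem f_5437 (h : TabsF) : FrameF repsF 453 F_5437.f :=
  frame_of rfl c_5437 (runs_of engOK r_5437_0) (by decide +kernel) h.1 h.1

def F_5438 : FrX :=
  ⟨0x482000044040440000c2040020009000182040001100408000900200000990008210001028000404100800820a101020400040805000a0002030200004,
    0xa0, 1, 0x10314052658293a7, 8,
    [(0xa0, 1), (0x538690a2, 4), (0x548790a1, 4), (0x21437690, 4), (0x538690a2, 4), (0x548790a1, 4)],
    [(0x10314052658293a7, 8), (0x52708496, 4), (0x436170a5, 4), (0x708391a2, 4), (0x52708496, 4), (0x436170a5, 4)]⟩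

def c_5438 : frmChk tA tA F_5438 = true := by decide +kernel

def r_5438_0 : chkL rootF engF2 tA tA sA_453 sA_453 4 F_5438 [(511, 0, 0)]
    0x1 = true := by
  decide +kernel

theorem f_5438 (h : TabsF) : FrameF repsF 453 F_5438.f :=
  frame_of rfl c_5438 (runs_of engOK r_5438_0) (by decide +kernel) h.1 h.1

def F_5439 : FrX :=
  ⟨0x482000044040440000c204002000900018204000110040120090020000409000821000102800042a000800800210400040005080440888002010200404,
    0xa0, 1, 0x3241657587a0, 6,
    [(0xa0, 1), (0x538690a2, 4), (0x548790a1, 4), (0x21437690, 4), (0x538690a2, 4), (0x548790a1, 4)],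
    [(0x3241657587a0, 6), (0x657290a3, 4), (0x718690a4, 4), (0x21438590, 4), (0x657290a3, 4), (0x718690a4, 4)]⟩

def c_5439 : frmChk tA tA F_5439 = true := by decide +kernel

def r_5439_0 : chkL rootF engF2 tA tA sA_453 sA_453 4 F_5439 [(511, 0, 0)]
    0x1 = true := by
  decide +kernel

theorem f_5439 (h : TabsF) : FrameF repsF 453 F_5439.f :=
  frame_of rfl c_5439 (runs_of engOK r_5439_0) (by decide +kernel) h.1 h.1

def F_5440 : FrX :=
  ⟨0x482000044040440000c2040020009000182040001101002001020800000c1001012008090200080408040460009040004000810a04012000101080000a,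
    0xa0, 1, 0x1052768493a0, 6,
    [(0xa0, 1), (0x538690a2, 4), (0x548790a1, 4), (0x21437690, 4), (0x538690a2, 4), (0x548790a1, 4)],
    [(0x1052768493a0, 6), (0x317492a5, 4), (0x316482a0, 4), (0x31507698, 4), (0x317492a5, 4), (0x316482a0, 4)]⟩

def c_5440 : frmChk tA tA F_5440 = true := by decide +kernel

def r_5440_0 : chkL rootF engF2 tA tA sA_453 sA_453 4 F_5440 [(511, 0, 0)]
    0x1 = true := by
  decide +kernel

theorem f_5440 (h : TabsF) : FrameF repsF 453 F_5440.f :=
  frame_of rfl c_5440 (runs_of engOK r_5440_0) (by decide +kernel) h.1 h.1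

theorem cl_453 (h : TabsF) : ∀ f ∈ fr_453, FrameF repsF 453 f :=
  List.forall_mem_cons.2 ⟨f_5425 h, List.forall_mem_cons.2 ⟨f_5426 h, List.forall_mem_cons.2 ⟨f_5427 h, List.forall_mem_cons.2 ⟨f_5428 h, List.forall_mem_cons.2 ⟨f_5429 h, List.forall_mem_cons.2 ⟨f_5430 h, List.forall_mem_cons.2 ⟨f_5431 h, List.forall_mem_cons.2 ⟨f_5432 h, List.forall_mem_cons.2 ⟨f_5433 h, List.forall_mem_cons.2 ⟨f_5434 h, List.forall_mem_cons.2 ⟨f_5435 h, List.forall_mem_cons.2 ⟨f_5436 h, List.forall_mem_cons.2 ⟨f_5437 h, List.forall_mem_cons.2 ⟨f_5438 h, List.forall_mem_cons.2 ⟨f_5439 h, List.forall_mem_cons.2 ⟨f_5440 h,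
    fun _ h0 => absurd h0 List.not_mem_nil⟩⟩⟩⟩⟩⟩⟩⟩⟩⟩⟩⟩⟩⟩⟩⟩

def F_5441 : FrX :=
  ⟨0x80080a000804040e000021010020010000020408900400020a0028400080084040012010000054202102800600000040242008005003002400210008010,
    0xa6, 1, 0x425363718292a3, 7,
    [(0xa6, 1), (0x205396a8, 4), (0x10548796, 4), (0x214396a7, 4), (0x205396a8, 4), (0x10548796, 4)],
    [(0x425363718292a3, 7), (0x548690a3, 4), (0x32417086, 4), (0x518697a2, 4), (0x548690a3, 4), (0x32417086, 4)]⟩

def c_5441 : frmChk tA tA F_5441 = true := by decide +kernel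

def r_5441_0 : chkL rootF engF2 tA tA sA_454 sA_454 4 F_5441 [(511, 0, 0)]
    0x1 = true := by
  decide +kernel

theorem f_5441 (h : TabsF) : FrameF repsF 454 F_5441.f :=
  frame_of rfl c_5441 (runs_of engOK r_5441_0) (by decide +kernel) h.1 h.1

def F_5442 : FrX :=
  ⟨0x482000044040440000c2040020009000182040020001100100080288024022100080020802080012000208122000802018002008502200002200010210,
    0xa0, 1, 0x2131536295a8, 6,
    [(0xa0, 1), (0x538690a2, 4), (0x548790a1, 4), (0x21437690, 4), (0x538690a2, 4), (0x548790a1, 4)],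
    [(0x2131536295a8, 6), (0x608295a1, 4), (0x308294a7, 4), (0x54637182, 4), (0x608295a1, 4), (0x308294a7, 4)]⟩

def c_5442 : frmChk tA tA F_5442 = true := by decide +kernel

def r_5442_0 : chkL rootF engF2 tA tA sA_454 sA_454 4 F_5442 [(511, 0, 0)]
    0x1 = true := by
  decide +kernel

theorem f_5442 (h : TabsF) : FrameF repsF 454 F_5442.f :=
  frame_of rfl c_5442 (runs_of engOK r_5442_0) (by decide +kernel) h.1 h.1

def F_5443 : FrX :=
  ⟨0x482000044040440000c2040020009000182040000821100004080100010801200202040c00081020082008084801800208001210100200106200010200,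
    0xa0, 1, 0x314360728096a3, 7,
    [(0xa0, 1), (0x538690a2, 4), (0x548790a1, 4), (0x21437690, 4), (0x538690a2, 4), (0x548790a1, 4)],
    [(0x314360728096a3, 7), (0x526187a9, 4), (0x40518392, 4), (0x405291a6, 4), (0x40518392, 4), (0x657391a2, 4), (0x408796a1, 4), (0x405291a6, 4), (0x408796a1, 4), (0x218395a6, 4), (0x405291a6, 4), (0x657391a2, 4)]⟩

def c_5443 : frmChk tA tB F_5443 = true := by decide +kernel

def r_5443_0 : chkL rootF engF2 tA tB sA_454 sB_454 4 F_5443 [(511, 0, 0)]
    0x1 = true := by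
  decide +kernel

theorem f_5443 (h : TabsF) : FrameF repsF 454 F_5443.f :=
  frame_of rfl c_5443 (runs_of engOK r_5443_0) (by decide +kernel) h.1 h.2

def F_5444 : FrX :=
  ⟨0x2002000900044004000e0204100014100080004080100022800120400a000c00040081024802000012000280600040800080080087010200401202402000,
    0xa3, 1, 0x516492a8, 4,
    [(0xa3, 1), (0x208693a5, 4), (0x10548793, 4), (0x217693a4, 4), (0x208693a5, 4), (0x10548793, 4)],
    [(0x516492a8, 4), (0x318290a4, 4), (0x506182a7, 4), (0x63748295, 4), (0x318290a4, 4), (0x506182a7, 4)]⟩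

def c_5444 : frmChk tA tA F_5444 = true := by decide +kernel

def r_5444_0 : chkL rootF engF2 tA tA sA_454 sA_454 4 F_5444 [(511, 0, 0)]
    0x1 = true := by
  decide +kernel

theorem f_5444 (h : TabsF) : FrameF repsF 454 F_5444.f :=
  frame_of rfl c_5444 (runs_of engOK r_5444_0) (by decide +kernel) h.1 h.1

def F_5445 : FrX :=
  ⟨0x2002000900044004000e0204100014100080004080040024140840001081004020008802018200000a200202000040400201010041200204040024250200,
    0xa3, 1, 0x10213040617482a8, 8,
    [(0xa3, 1), (0x208693a5, 4), (0x10548793, 4), (0x217693a4, 4), (0x208693a5, 4), (0x10548793, 4)],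
    [(0x10213040617482a8, 8), (0x518490a2, 4), (0x647590a3, 4), (0x32718690, 4), (0x518490a2, 4), (0x647590a3, 4)]⟩

def c_5445 : frmChk tA tA F_5445 = true := by decide +kernel

def r_5445_0 : chkL rootF engF2 tA tA sA_454 sA_454 4 F_5445 [(511, 0, 0)]
    0x1 = true := by
  decide +kernel

theorem f_5445 (h : TabsF) : FrameF repsF 454 F_5445.f :=
  frame_of rfl c_5445 (runs_of engOK r_5445_0) (by decide +kernel) h.1 h.1

def F_5446 : FrX :=
  ⟨0x2002000900044004000e02041000141000800040800a0804800840000801040014008101010001400220020850000800020420a044200200440042004001,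
    0xa3, 1, 0x203051607186a1, 7,
    [(0xa3, 1), (0x208693a5, 4), (0x10548793, 4), (0x217693a4, 4), (0x208693a5, 4), (0x10548793, 4)],
    [(0x203051607186a1, 7), (0x21608397, 4), (0x415397a6, 4), (0x428597a0, 4), (0x21608397, 4), (0x415397a6, 4)]⟩

def c_5446 : frmChk tA tA F_5446 = true := by decide +kernel

def r_5446_0 : chkL rootF engF2 tA tA sA_454 sA_454 4 F_5446 [(511, 0, 0)]
    0x1 = true := by
  decide +kernel

theorem f_5446 (h : TabsF) : FrameF repsF 454 F_5446.f :=
  frame_of rfl c_5446 (runs_of engOK r_5446_0) (by decide +kernel) h.1 h.1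

def F_5447 : FrX :=
  ⟨0x80080a000804040e000021010020010000020408a0000802200400809040080141010020802080012004800500040802004182005001080440110000010,
    0xa6, 1, 0x4354617293a1, 6,
    [(0xa6, 1), (0x205396a8, 4), (0x10548796, 4), (0x214396a7, 4), (0x205396a8, 4), (0x10548796, 4)],
    [(0x4354617293a1, 6), (0x32708591, 4), (0x215364a0, 4), (0x32516498, 4), (0x215364a0, 4), (0x518392a7, 4), (0x64708195, 4), (0x32516498, 4), (0x64708195, 4), (0x315298a0, 4), (0x32516498, 4), (0x518392a7, 4)]⟩

def c_5447 : frmChk tA tB F_5447 = true := by decide +kernel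

def r_5447_0 : chkL rootF engF2 tA tB sA_454 sB_454 4 F_5447 [(511, 0, 0)]
    0x1 = true := by
  decide +kernel

theorem f_5447 (h : TabsF) : FrameF repsF 454 F_5447.f :=
  frame_of rfl c_5447 (runs_of engOK r_5447_0) (by decide +kernel) h.1 h.2

def F_5448 : FrX :=
  ⟨0x482000044040440000c2040020009000182040020031100000080804040801200040120802080022000110084000802081000210050100002a00010308,
    0xa0, 1, 0x213043637080a8, 7,
    [(0xa0, 1), (0x538690a2, 4), (0x548790a1, 4), (0x21437690, 4), (0x538690a2, 4), (0x548790a1, 4)],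
    [(0x213043637080a8, 7), (0x658197a4, 4), (0x508297a3, 4), (0x21436097, 4), (0x658197a4, 4), (0x508297a3, 4)]⟩

def c_5448 : frmChk tA tA F_5448 = true := by decide +kernel

def r_5448_0 : chkL rootF engF2 tA tA sA_454 sA_454 4 F_5448 [(511, 0, 0)]
    0x1 = true := by
  decide +kernel

theorem f_5448 (h : TabsF) : FrameF repsF 454 F_5448.f :=
  frame_of rfl c_5448 (runs_of engOK r_5448_0) (by decide +kernel) h.1 h.1

def F_5449 : FrX :=
  ⟨0x2002000900044004000e0204100014100080004082004024200040011101004004008800010200820a0002120004088002042020400800000440a0030820,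
    0xa3, 1, 0x1031547280a2, 6,
    [(0xa3, 1), (0x208693a5, 4), (0x10548793, 4), (0x217693a4, 4), (0x208693a5, 4), (0x10548793, 4)],
    [(0x1031547280a2, 6), (0x425160a8, 4), (0x54628397, 4), (0x10426597, 4), (0x54628397, 4), (0x204165a3, 4), (0x506197a8, 4), (0x10426597, 4), (0x506197a8, 4), (0x10526483, 4), (0x10426597, 4), (0x204165a3, 4)]⟩

def c_5449 : frmChk tA tB F_5449 = true := by decide +kernel

def r_5449_0 : chkL rootF engF2 tA tB sA_454 sB_454 4 F_5449 [(511, 0, 0)]
    0x1 = true := by
  decide +kernel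

theorem f_5449 (h : TabsF) : FrameF repsF 454 F_5449.f :=
  frame_of rfl c_5449 (runs_of engOK r_5449_0) (by decide +kernel) h.1 h.2

def F_5450 : FrX :=
  ⟨0x80080a000804040e000021010020010000020408b100000220000810200408004901000000205a002020800600002801042040080003002400110200005,
    0xa6, 1, 0x203241617286a6, 7,
    [(0xa6, 1), (0x205396a8, 4), (0x10548796, 4), (0x214396a7, 4), (0x205396a8, 4), (0x10548796, 4)],
    [(0x203241617286a6, 7), (0x507298a4, 4), (0x43516298, 4), (0x107698a3, 4), (0x507298a4, 4), (0x43516298, 4)]⟩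

def c_5450 : frmChk tA tA F_5450 = true := by decide +kernel

def r_5450_0 : chkL rootF engF2 tA tA sA_454 sA_454 4 F_5450 [(511, 0, 0)]
    0x1 = true := by
  decide +kernel

theorem f_5450 (h : TabsF) : FrameF repsF 454 F_5450.f :=
  frame_of rfl c_5450 (runs_of engOK r_5450_0) (by decide +kernel) h.1 h.1

def F_5451 : FrX :=
  ⟨0x80080a000804040e000021010020010000020408a0002000300208008414001041000420802080022068000404000802040040030003201000101020120,
    0xa6, 1, 0x2030415360758291a0, 9,
    [(0xa6, 1), (0x205396a8, 4), (0x10548796, 4), (0x214396a7, 4), (0x205396a8, 4), (0x10548796, 4)],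
    [(0x2030415360758291a0, 9), (0x306475a8, 4), (0x206471a9, 4), (0x32516498, 4), (0x306475a8, 4), (0x206471a9, 4)]⟩

def c_5451 : frmChk tA tA F_5451 = true := by decide +kernel

def r_5451_0 : chkL rootF engF2 tA tA sA_454 sA_454 4 F_5451 [(511, 0, 0)]
    0x1 = true := by
  decide +kernel

theorem f_5451 (h : TabsF) : FrameF repsF 454 F_5451.f :=
  frame_of rfl c_5451 (runs_of engOK r_5451_0) (by decide +kernel) h.1 h.1

def F_5452 : FrX :=
  ⟨0x2002000900044004000e02041000141000800040800800248000c00401010400040080460182018042020200400000802001002040900200440202022010,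
    0xa3, 1, 0x4153648596a0, 6,
    [(0xa3, 1), (0x208693a5, 4), (0x10548793, 4), (0x217693a4, 4), (0x208693a5, 4), (0x10548793, 4)],
    [(0x4153648596a0, 6), (0x108593a2, 4), (0x107386a4, 4), (0x10426597, 4), (0x108593a2, 4), (0x107386a4, 4)]⟩

def c_5452 : frmChk tA tA F_5452 = true := by decide +kernel

def r_5452_0 : chkL rootF engF2 tA tA sA_454 sA_454 4 F_5452 [(511, 0, 0)]
    0x1 = true := by
  decide +kernel

theorem f_5452 (h : TabsF) : FrameF repsF 454 F_5452.f :=
  frame_of rfl c_5452 (runs_of engOK r_5452_0) (by decide +kernel) h.1 h.1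

def F_5453 : FrX :=
  ⟨0x482000044040440000c2040020009000182040001011100004200004020802008089000882082002001200202201800280000248410202002200010200,
    0xa0, 1, 0x30768498a2, 5,
    [(0xa0, 1), (0x538690a2, 4), (0x548790a1, 4), (0x21437690, 4), (0x538690a2, 4), (0x548790a1, 4)],
    [(0x30768498a2, 5), (0x657098a3, 4), (0x31427685, 4), (0x42658790, 4), (0x31427685, 4), (0x608795a1, 4), (0x428097a3, 4), (0x42658790, 4), (0x428097a3, 4), (0x31758690, 4), (0x42658790, 4), (0x608795a1, 4)]⟩

def c_5453 : frmChk tA tB F_5453 = true := by decide +kernel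

def r_5453_0 : chkL rootF engF2 tA tB sA_454 sB_454 4 F_5453 [(511, 0, 0)]
    0x1 = true := by
  decide +kernel

theorem f_5453 (h : TabsF) : FrameF repsF 454 F_5453.f :=
  frame_of rfl c_5453 (runs_of engOK r_5453_0) (by decide +kernel) h.1 h.2

def F_5454 : FrX :=
  ⟨0x80080a000804040e0000210100200100000204088042040801008080080100100110206000860008002212002020000a100040401004101900040a00200,
    0xa6, 1, 0x204150638091a6, 7,
    [(0xa6, 1), (0x205396a8, 4), (0x10548796, 4), (0x214396a7, 4), (0x205396a8, 4), (0x10548796, 4)],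
    [(0x204150638091a6, 7), (0x517280a6, 4), (0x214398a7, 4), (0x436572a1, 4), (0x214398a7, 4), (0x527690a1, 4), (0x436180a5, 4), (0x436572a1, 4), (0x436180a5, 4), (0x657198a2, 4), (0x436572a1, 4), (0x527690a1, 4)]⟩

def c_5454 : frmChk tA tB F_5454 = true := by decide +kernel

def r_5454_0 : chkL rootF engF2 tA tB sA_454 sB_454 4 F_5454 [(511, 0, 0)]
    0x1 = true := by
  decide +kernel

theorem f_5454 (h : TabsF) : FrameF repsF 454 F_5454.f :=
  frame_of rfl c_5454 (runs_of engOK r_5454_0) (by decide +kernel) h.1 h.2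

def F_5455 : FrX :=
  ⟨0x482000044040440000c20400200090001820400011004012009002000040900082100010280010000400808282200400040044018010a2040018800002,
    0xa0, 1, 0x3241657587a0, 6,
    [(0xa0, 1), (0x538690a2, 4), (0x548790a1, 4), (0x21437690, 4), (0x538690a2, 4), (0x548790a1, 4)],
    [(0x3241657587a0, 6), (0x657290a3, 4), (0x718690a4, 4), (0x21438590, 4), (0x657290a3, 4), (0x718690a4, 4)]⟩

def c_5455 : frmChk tA tA F_5455 = true := by decide +kernel

def r_5455_0 : chkL rootF engF2 tA tA sA_454 sA_454 4 F_5455 [(511, 0, 0)]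
    0x1 = true := by
  decide +kernel

theorem f_5455 (h : TabsF) : FrameF repsF 454 F_5455.f :=
  frame_of rfl c_5455 (runs_of engOK r_5455_0) (by decide +kernel) h.1 h.1

def F_5456 : FrX :=
  ⟨0x2002000900044004000e0204100014100080004080800200030120000880a002100204004020600480020040122020008000820400804000882210008210,
    0xa3, 1, 0x2141728291a6, 6,
    [(0xa3, 1), (0x208693a5, 4), (0x10548793, 4), (0x217693a4, 4), (0x208693a5, 4), (0x10548793, 4)],
    [(0x2141728291a6, 6), (0x536480a7, 4), (0x52647190, 4), (0x326498a1, 4), (0x536480a7, 4), (0x52647190, 4)]⟩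

def c_5456 : frmChk tA tA F_5456 = true := by decide +kernel

def r_5456_0 : chkL rootF engF2 tA tA sA_454 sA_454 4 F_5456 [(511, 0, 0)]
    0x1 = true := by
  decide +kernel

theorem f_5456 (h : TabsF) : FrameF repsF 454 F_5456.f :=
  frame_of rfl c_5456 (runs_of engOK r_5456_0) (by decide +kernel) h.1 h.1

def F_5457 : FrX :=
  ⟨0x2002000900044004000e02041000141000800040801002010420002100024028004001110020040801040010a08400011100830000448008004004c00040,
    0xa3, 1, 0x325060728495a1, 7,
    [(0xa3, 1), (0x208693a5, 4), (0x10548793, 4), (0x217693a4, 4), (0x208693a5, 4), (0x10548793, 4)],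
    [(0x325060728495a1, 7), (0x10547692, 4), (0x104398a6, 4), (0x105382a7, 4), (0x10547692, 4), (0x104398a6, 4)]⟩

def c_5457 : frmChk tA tA F_5457 = true := by decide +kernel

def r_5457_0 : chkL rootF engF2 tA tA sA_454 sA_454 4 F_5457 [(511, 0, 0)]
    0x1 = true := by
  decide +kernel

theorem f_5457 (h : TabsF) : FrameF repsF 454 F_5457.f :=
  frame_of rfl c_5457 (runs_of engOK r_5457_0) (by decide +kernel) h.1 h.1

def F_5458 : FrX :=
  ⟨0x482000044040440000c2040020009000182040010040042000800810012008404400101008008180400810010890400010811004080800040900020090,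
    0xa0, 1, 0x4153607197a2, 6,
    [(0xa0, 1), (0x538690a2, 4), (0x548790a1, 4), (0x21437690, 4), (0x538690a2, 4), (0x548790a1, 4)],
    [(0x4153607197a2, 6), (0x508193a6, 4), (0x31427690, 4), (0x10428593, 4), (0x31427690, 4), (0x108395a7, 4), (0x425180a6, 4), (0x10428593, 4), (0x425180a6, 4), (0x30768591, 4), (0x10428593, 4), (0x108395a7, 4)]⟩

def c_5458 : frmChk tA tB F_5458 = true := by decide +kernel

def r_5458_0 : chkL rootF engF2 tA tB sA_454 sB_454 4 F_5458 [(511, 0, 0)]
    0x1 = true := by
  decide +kernel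

theorem f_5458 (h : TabsF) : FrameF repsF 454 F_5458.f :=
  frame_of rfl c_5458 (runs_of engOK r_5458_0) (by decide +kernel) h.1 h.2

def F_5459 : FrX :=
  ⟨0x600020801080810000c004018041010100100400084400400002480020a000080800890090020100080202440210002480000110100020108220408080,
    0xa0, 1, 0x53718792a4, 5,
    [(0xa0, 1), (0x637584a2, 4), (0x547690a1, 4), (0x64758390, 4), (0x547690a1, 4), (0x21647385, 4), (0x438690a2, 4), (0x64758390, 4), (0x438690a2, 4), (0x657483a1, 4), (0x64758390, 4), (0x21647385, 4)],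
    [(0x53718792a4, 5), (0x42536190, 4), (0x427081a3, 4), (0x428697a5, 4), (0x42536190, 4), (0x427081a3, 4)]⟩

def c_5459 : frmChk tB tA F_5459 = true := by decide +kernel

def r_5459_0 : chkL rootF engF2 tB tA sB_454 sA_454 4 F_5459 [(511, 0, 0)]
    0x1 = true := by
  decide +kernel

theorem f_5459 (h : TabsF) : FrameF repsF 454 F_5459.f :=
  frame_of rfl c_5459 (runs_of engOK r_5459_0) (by decide +kernel) h.2 h.1

def F_5460 : FrX :=
  ⟨0x1c4044000008081000000840080410000101084050100008002008004200800420820201000421004044006010608800100084440020004021020840008,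
    0x0, 0, 0x21536484, 4,
    [(0x0, 0), (0x20637584, 4), (0x105476a9, 4), (0x647583a9, 4), (0x105476a9, 4), (0x21647385, 4), (0x204386a9, 4), (0x647583a9, 4), (0x204386a9, 4), (0x10657483, 4), (0x647583a9, 4), (0x21647385, 4)],
    [(0x21536484, 4), (0x105364a9, 4), (0x207683a9, 4), (0x217485a9, 4), (0x105364a9, 4), (0x207683a9, 4)]⟩

def c_5460 : frmChk tB tA F_5460 = true := by decide +kernel

def r_5460_0 : chkL rootF engF2 tB tA sB_454 sA_454 4 F_5460 [(511, 0, 0)]
    0x1 = true := by
  decide +kernel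

theorem f_5460 (h : TabsF) : FrameF repsF 454 F_5460.f :=
  frame_of rfl c_5460 (runs_of engOK r_5460_0) (by decide +kernel) h.2 h.1

def F_5461 : FrX :=
  ⟨0x1001040012008080000e00840800410008101000060000048040050023100080080100800100110240041400800008210082080112000008101408010084,
    0xa3, 1, 0x10324052758496a5, 8,
    [(0xa3, 1), (0x207584a6, 4), (0x10547693, 4), (0x647593a8, 4), (0x10547693, 4), (0x216485a7, 4), (0x208693a4, 4), (0x647593a8, 4), (0x208693a4, 4), (0x106574a8, 4), (0x647593a8, 4), (0x216485a7, 4)],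
    [(0x10324052758496a5, 8), (0x547691a2, 4), (0x314076a8, 4), (0x50768293, 4), (0x547691a2, 4), (0x314076a8, 4)]⟩

def c_5461 : frmChk tB tA F_5461 = true := by decide +kernel

def r_5461_0 : chkL rootF engF2 tB tA sB_454 sA_454 4 F_5461 [(511, 0, 0)]
    0x1 = true := by
  decide +kernel

theorem f_5461 (h : TabsF) : FrameF repsF 454 F_5461.f :=
  frame_of rfl c_5461 (runs_of engOK r_5461_0) (by decide +kernel) h.2 h.1

def F_5462 : FrX :=
  ⟨0x1001040012008080000e008408004100081010000421000040480220010008840420001010801008000412020400200040080202108000a1080208020308,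
    0xa3, 1, 0x435162718193a8, 7,
    [(0xa3, 1), (0x207584a6, 4), (0x10547693, 4), (0x647593a8, 4), (0x10547693, 4), (0x216485a7, 4), (0x208693a4, 4), (0x647593a8, 4), (0x208693a4, 4), (0x106574a8, 4), (0x647593a8, 4), (0x216485a7, 4)],
    [(0x435162718193a8, 7), (0x516092a3, 4), (0x31527480, 4), (0x325174a9, 4), (0x31527480, 4), (0x328695a1, 4), (0x607493a2, 4), (0x325174a9, 4), (0x607493a2, 4), (0x215380a9, 4), (0x325174a9, 4), (0x328695a1, 4)]⟩

def c_5462 : frmChk tB tB F_5462 = true := by decide +kernel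

def r_5462_0 : chkL rootF engF2 tB tB sB_454 sB_454 4 F_5462 [(511, 0, 0)]
    0x1 = true := by
  decide +kernel

theorem f_5462 (h : TabsF) : FrameF repsF 454 F_5462.f :=
  frame_of rfl c_5462 (runs_of engOK r_5462_0) (by decide +kernel) h.2 h.2

def F_5463 : FrX :=
  ⟨0x482000044040440000c2040020009000182040010010084004000404020801810800100804090480000220012090100080084040100080106220000082,
    0xa0, 1, 0x20425365718192a0, 8,
    [(0xa0, 1), (0x538690a2, 4), (0x548790a1, 4), (0x21437690, 4), (0x538690a2, 4), (0x548790a1, 4)],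
    [(0x20425365718192a0, 8), (0x426573a9, 4), (0x426071a8, 4), (0x31425098, 4), (0x426573a9, 4), (0x426071a8, 4)]⟩

def c_5463 : frmChk tA tA F_5463 = true := by decide +kernel

def r_5463_0 : chkL rootF engF2 tA tA sA_454 sA_454 4 F_5463 [(511, 0, 0)]
    0x1 = true := by
  decide +kernel

theorem f_5463 (h : TabsF) : FrameF repsF 454 F_5463.f :=
  frame_of rfl c_5463 (runs_of engOK r_5463_0) (by decide +kernel) h.1 h.1

def F_5464 : FrX :=
  ⟨0x80080a000804040e0000210100200100000204088042100201008080020400100110206000208008002812002820000a100042011009101800008800200,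
    0xa6, 1, 0x214362718294a3, 7,
    [(0xa6, 1), (0x205396a8, 4), (0x10548796, 4), (0x214396a7, 4), (0x205396a8, 4), (0x10548796, 4)],
    [(0x214362718294a3, 7), (0x436180a5, 4), (0x43627095, 4), (0x214387a9, 4), (0x436180a5, 4), (0x43627095, 4)]⟩

def c_5464 : frmChk tA tA F_5464 = true := by decide +kernel

def r_5464_0 : chkL rootF engF2 tA tA sA_454 sA_454 4 F_5464 [(511, 0, 0)]
    0x1 = true := by
  decide +kernel

theorem f_5464 (h : TabsF) : FrameF repsF 454 F_5464.f :=
  frame_of rfl c_5464 (runs_of engOK r_5464_0) (by decide +kernel) h.1 h.1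

def F_5465 : FrX :=
  ⟨0x2002000900044004000e02041000141000800040808000404208020011010c0800002400110000840c00020604202000100400a044000820000888020050,
    0xa3, 1, 0x4354628193a7, 6,
    [(0xa3, 1), (0x208693a5, 4), (0x10548793, 4), (0x217693a4, 4), (0x208693a5, 4), (0x10548793, 4)],
    [(0x4354628193a7, 6), (0x516092a3, 4), (0x537480a2, 4), (0x527491a3, 4), (0x537480a2, 4), (0x315286a9, 4), (0x21607495, 4), (0x527491a3, 4), (0x21607495, 4), (0x328091a5, 4), (0x527491a3, 4), (0x315286a9, 4)]⟩

def c_5465 : frmChk tA tB F_5465 = true := by decide +kernel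

def r_5465_0 : chkL rootF engF2 tA tB sA_454 sB_454 4 F_5465 [(511, 0, 0)]
    0x1 = true := by
  decide +kernel

theorem f_5465 (h : TabsF) : FrameF repsF 454 F_5465.f :=
  frame_of rfl c_5465 (runs_of engOK r_5465_0) (by decide +kernel) h.1 h.2

def F_5466 : FrX :=
  ⟨0x2002000900044004000e02041000141000800040800800248008400009010c00040081000888000812000200400048100001008480900240401202020104,
    0xa3, 1, 0x213162768194a6, 7,
    [(0xa3, 1), (0x208693a5, 4), (0x10548793, 4), (0x217693a4, 4), (0x208693a5, 4), (0x10548793, 4)],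
    [(0x213162768194a6, 7), (0x526074a3, 4), (0x31748095, 4), (0x748692a1, 4), (0x526074a3, 4), (0x31748095, 4)]⟩

def c_5466 : frmChk tA tA F_5466 = true := by decide +kernel

def r_5466_0 : chkL rootF engF2 tA tA sA_454 sA_454 4 F_5466 [(511, 0, 0)]
    0x1 = true := by
  decide +kernel

theorem f_5466 (h : TabsF) : FrameF repsF 454 F_5466.f :=
  frame_of rfl c_5466 (runs_of engOK r_5466_0) (by decide +kernel) h.1 h.1

def F_5467 : FrX :=
  ⟨0x2002000900044004000e02041000141000800040800804008080a0400101040014008102000800a802020208440000802040200484000200440242002001,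
    0xa3, 1, 0x4253728196a7, 6,
    [(0xa3, 1), (0x208693a5, 4), (0x10548793, 4), (0x217693a4, 4), (0x208693a5, 4), (0x10548793, 4)],
    [(0x4253728196a7, 6), (0x217095a3, 4), (0x326480a9, 4), (0x516492a3, 4), (0x326480a9, 4), (0x318792a5, 4), (0x52647091, 4), (0x516492a3, 4), (0x52647091, 4), (0x518093a2, 4), (0x516492a3, 4), (0x318792a5, 4)]⟩

def c_5467 : frmChk tA tB F_5467 = true := by decide +kernel

def r_5467_0 : chkL rootF engF2 tA tB sA_454 sB_454 4 F_5467 [(511, 0, 0)]
    0x1 = true := by
  decide +kernel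

theorem f_5467 (h : TabsF) : FrameF repsF 454 F_5467.f :=
  frame_of rfl c_5467 (runs_of engOK r_5467_0) (by decide +kernel) h.1 h.2

def F_5468 : FrX :=
  ⟨0x1c21020000040440000020410001010000820408a0001100000024200400a0200008804010200840c200124201010400304000022100222002004800200,
    0x0, 0, 0x21436575, 4,
    [(0x0, 0), (0x205386a9, 4), (0x105487a9, 4), (0x214376a9, 4), (0x205386a9, 4), (0x105487a9, 4)],
    [(0x21436575, 4), (0x10547683, 4), (0x206573a9, 4), (0x537684a9, 4), (0x206573a9, 4), (0x21536487, 4), (0x104385a9, 4), (0x537684a9, 4), (0x104385a9, 4), (0x20637584, 4), (0x537684a9, 4), (0x21536487, 4)]⟩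

def c_5468 : frmChk tA tB F_5468 = true := by decide +kernel

def r_5468_0 : chkL rootF engF2 tA tB sA_454 sB_454 4 F_5468 [(511, 0, 0)]
    0x1 = true := by
  decide +kernel

theorem f_5468 (h : TabsF) : FrameF repsF 454 F_5468.f :=
  frame_of rfl c_5468 (runs_of engOK r_5468_0) (by decide +kernel) h.1 h.2

theorem cl_454 (h : TabsF) : ∀ f ∈ fr_454, FrameF repsF 454 f :=
  List.forall_mem_cons.2 ⟨f_5441 h, List.forall_mem_cons.2 ⟨f_5442 h, List.forall_mem_cons.2 ⟨f_5443 h, List.forall_mem_cons.2 ⟨f_5444 h, List.forall_mem_cons.2 ⟨f_5445 h, List.forall_mem_cons.2 ⟨f_5446 h, List.forall_mem_cons.2 ⟨f_5447 h, List.forall_mem_cons.2 ⟨f_5448 h, List.forall_mem_cons.2 ⟨f_5449 h, List.forall_mem_cons.2 ⟨f_5450 h, List.forall_mem_cons.2 ⟨f_5451 h, List.forall_mem_cons.2 ⟨f_5452 h, List.forall_mem_cons.2 ⟨f_5453 h, List.forall_mem_cons.2 ⟨f_5454 h, List.forall_mem_cons.2 ⟨f_5455 h, List.forall_mem_cons.2 ⟨f_5456 h, List.forall_mem_cons.2 ⟨f_5457 h, List.forall_mem_cons.2 ⟨f_5458 h, List.forall_mem_cons.2 ⟨f_5459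 h, List.forall_mem_cons.2 ⟨f_5460 h, List.forall_mem_cons.2 ⟨f_5461 h, List.forall_mem_cons.2 ⟨f_5462 h, List.forall_mem_cons.2 ⟨f_5463 h, List.forall_mem_cons.2 ⟨f_5464 h, List.forall_mem_cons.2 ⟨f_5465 h, List.forall_mem_cons.2 ⟨f_5466 h, List.forall_mem_cons.2 ⟨f_5467 h, List.forall_mem_cons.2 ⟨f_5468 h,
    fun _ h0 => absurd h0 List.not_mem_nil⟩⟩⟩⟩⟩⟩⟩⟩⟩⟩⟩⟩⟩⟩⟩⟩⟩⟩⟩⟩⟩⟩⟩⟩⟩⟩⟩⟩

def F_5469 : FrX :=
  ⟨0x80080a000804040e000021010020010000020408900400020a0028400080084040012010000054202102800600000040224010005003002400110008010,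
    0xa6, 1, 0x425363718292a3, 7,
    [(0xa6, 1), (0x205396a8, 4), (0x10548796, 4), (0x214396a7, 4), (0x205396a8, 4), (0x10548796, 4)],
    [(0x425363718292a3, 7), (0x548690a3, 4), (0x32417086, 4), (0x518697a2, 4), (0x548690a3, 4), (0x32417086, 4)]⟩

def c_5469 : frmChk tA tA F_5469 = true := by decide +kernel

def r_5469_0 : chkL rootF engF2 tA tA sA_455 sA_455 4 F_5469 [(511, 0, 0)]
    0x1 = true := by
  decide +kernel

theorem f_5469 (h : TabsF) : FrameF repsF 455 F_5469.f :=
  frame_of rfl c_5469 (runs_of engOK r_5469_0) (by decide +kernel) h.1 h.1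

def F_5470 : FrX :=
  ⟨0x482000044040440000c2040020009000182040020001100100080288024022100080020804040012000208222000802018001008502200002200010210,
    0xa0, 1, 0x2131536295a8, 6,
    [(0xa0, 1), (0x538690a2, 4), (0x548790a1, 4), (0x21437690, 4), (0x538690a2, 4), (0x548790a1, 4)],
    [(0x2131536295a8, 6), (0x608295a1, 4), (0x308294a7, 4), (0x54637182, 4), (0x608295a1, 4), (0x308294a7, 4)]⟩

def c_5470 : frmChk tA tA F_5470 = true := by decide +kernel

def r_5470_0 : chkL rootF engF2 tA tA sA_455 sA_455 4 F_5470 [(511, 0, 0)]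
    0x1 = true := by
  decide +kernel

theorem f_5470 (h : TabsF) : FrameF repsF 455 F_5470.f :=
  frame_of rfl c_5470 (runs_of engOK r_5470_0) (by decide +kernel) h.1 h.1

def F_5471 : FrX :=
  ⟨0x482000044040440000c2040020009000182040000821100004080100014101200200040c00081020082008084801800208001210100200014200010208,
    0xa0, 1, 0x204051638197a6, 7,
    [(0xa0, 1), (0x538690a2, 4), (0x548790a1, 4), (0x21437690, 4), (0x538690a2, 4), (0x548790a1, 4)],
    [(0x204051638197a6, 7), (0x405291a6, 4), (0x217384a9, 4), (0x657391a2, 4), (0x217384a9, 4), (0x518096a2, 4), (0x406273a5, 4), (0x657391a2, 4), (0x406273a5, 4), (0x658492a1, 4), (0x657391a2, 4), (0x518096a2, 4)]⟩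

def c_5471 : frmChk tA tB F_5471 = true := by decide +kernel

def r_5471_0 : chkL rootF engF2 tA tB sA_455 sB_455 4 F_5471 [(511, 0, 0)]
    0x1 = true := by
  decide +kernel

theorem f_5471 (h : TabsF) : FrameF repsF 455 F_5471.f :=
  frame_of rfl c_5471 (runs_of engOK r_5471_0) (by decide +kernel) h.1 h.2

def F_5472 : FrX :=
  ⟨0x2002000900044004000e0204100014100080004080080024800120200a000c00040081024804000012000280600040800080080087010200401202402000,
    0xa3, 1, 0x5264708391a3, 6,
    [(0xa3, 1), (0x208693a5, 4), (0x10548793, 4), (0x217693a4, 4), (0x208693a5, 4), (0x10548793, 4)],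
    [(0x5264708391a3, 6), (0x437581a2, 4), (0x30628197, 4), (0x408195a6, 4), (0x437581a2, 4), (0x30628197, 4)]⟩

def c_5472 : frmChk tA tA F_5472 = true := by decide +kernel

def r_5472_0 : chkL rootF engF2 tA tA sA_455 sA_455 4 F_5472 [(511, 0, 0)]
    0x1 = true := by
  decide +kernel

theorem f_5472 (h : TabsF) : FrameF repsF 455 F_5472.f :=
  frame_of rfl c_5472 (runs_of engOK r_5472_0) (by decide +kernel) h.1 h.1

def F_5473 : FrX :=
  ⟨0x2002000900044004000e0204100014100080004080040044240840001081004010008802018200000a200102000040400201010041200204040024250200,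
    0xa3, 1, 0x2131406275a6, 6,
    [(0xa3, 1), (0x208693a5, 4), (0x10548793, 4), (0x217693a4, 4), (0x208693a5, 4), (0x10548793, 4)],
    [(0x2131406275a6, 6), (0x647291a8, 4), (0x43708591, 4), (0x206391a5, 4), (0x647291a8, 4), (0x43708591, 4)]⟩

def c_5473 : frmChk tA tA F_5473 = true := by decide +kernel

def r_5473_0 : chkL rootF engF2 tA tA sA_455 sA_455 4 F_5473 [(511, 0, 0)]
    0x1 = true := by
  decide +kernel

theorem f_5473 (h : TabsF) : FrameF repsF 455 F_5473.f :=
  frame_of rfl c_5473 (runs_of engOK r_5473_0) (by decide +kernel) h.1 h.1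

def F_5474 : FrX :=
  ⟨0x2002000900044004000e02041000141000800040800a08048008400008010400140081010100014002200208500008000204211084200200440042002001,
    0xa3, 1, 0x203051607186a1, 7,
    [(0xa3, 1), (0x208693a5, 4), (0x10548793, 4), (0x217693a4, 4), (0x208693a5, 4), (0x10548793, 4)],
    [(0x203051607186a1, 7), (0x21608397, 4), (0x415397a6, 4), (0x428597a0, 4), (0x21608397, 4), (0x415397a6, 4)]⟩

def c_5474 : frmChk tA tA F_5474 = true := by decide +kernel

def r_5474_0 : chkL rootF engF2 tA tA sA_455 sA_455 4 F_5474 [(511, 0, 0)]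
    0x1 = true := by
  decide +kernel

theorem f_5474 (h : TabsF) : FrameF repsF 455 F_5474.f :=
  frame_of rfl c_5474 (runs_of engOK r_5474_0) (by decide +kernel) h.1 h.1

def F_5475 : FrX :=
  ⟨0x80080a000804040e000021010020010000020408a0000802200400809040080141010020804040012004800600040802004181005001080440110000010,
    0xa6, 1, 0x4354617293a1, 6,
    [(0xa6, 1), (0x205396a8, 4), (0x10548796, 4), (0x214396a7, 4), (0x205396a8, 4), (0x10548796, 4)],
    [(0x4354617293a1, 6), (0x32708591, 4), (0x215364a0, 4), (0x32516498, 4), (0x215364a0, 4), (0x518392a7, 4), (0x64708195, 4), (0x32516498, 4), (0x64708195, 4), (0x315298a0, 4), (0x32516498, 4), (0x518392a7, 4)]⟩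

def c_5475 : frmChk tA tB F_5475 = true := by decide +kernel

def r_5475_0 : chkL rootF engF2 tA tB sA_455 sB_455 4 F_5475 [(511, 0, 0)]
    0x1 = true := by
  decide +kernel

theorem f_5475 (h : TabsF) : FrameF repsF 455 F_5475.f :=
  frame_of rfl c_5475 (runs_of engOK r_5475_0) (by decide +kernel) h.1 h.2

def F_5476 : FrX :=
  ⟨0x482000044040440000c2040020009000182040020031100000080804040801200040100202180122000010084001802080000210050100002a00010308,
    0xa0, 1, 0x213043637080a8, 7,
    [(0xa0, 1), (0x538690a2, 4), (0x548790a1, 4), (0x21437690, 4), (0x538690a2, 4), (0x548790a1, 4)],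
    [(0x213043637080a8, 7), (0x658197a4, 4), (0x508297a3, 4), (0x21436097, 4), (0x658197a4, 4), (0x508297a3, 4)]⟩

def c_5476 : frmChk tA tA F_5476 = true := by decide +kernel

def r_5476_0 : chkL rootF engF2 tA tA sA_455 sA_455 4 F_5476 [(511, 0, 0)]
    0x1 = true := by
  decide +kernel

theorem f_5476 (h : TabsF) : FrameF repsF 455 F_5476.f :=
  frame_of rfl c_5476 (runs_of engOK r_5476_0) (by decide +kernel) h.1 h.1

def F_5477 : FrX :=
  ⟨0x2002000900044004000e02041000141000800040802000242004400111010040040088020002008a0a0002120004008002042020400800000440a0030820,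
    0xa3, 1, 0x2031708291a2, 6,
    [(0xa3, 1), (0x208693a5, 4), (0x10548793, 4), (0x217693a4, 4), (0x208693a5, 4), (0x10548793, 4)],
    [(0x2031708291a2, 6), (0x405261a7, 4), (0x54628397, 4), (0x10526483, 4), (0x54628397, 4), (0x215064a9, 4), (0x416083a7, 4), (0x10526483, 4), (0x416083a7, 4), (0x10426597, 4), (0x10526483, 4), (0x215064a9, 4)]⟩

def c_5477 : frmChk tA tB F_5477 = true := by decide +kernel

def r_5477_0 : chkL rootF engF2 tA tB sA_455 sB_455 4 F_5477 [(511, 0, 0)]
    0x1 = true := by
  decide +kernel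

theorem f_5477 (h : TabsF) : FrameF repsF 455 F_5477.f :=
  frame_of rfl c_5477 (runs_of engOK r_5477_0) (by decide +kernel) h.1 h.2

def F_5478 : FrX :=
  ⟨0x80080a000804040e00002101002001000002040881104002220008100004080049010020002058002020800600002801042040080003002400110200005,
    0xa6, 1, 0x204252617083a2, 7,
    [(0xa6, 1), (0x205396a8, 4), (0x10548796, 4), (0x214396a7, 4), (0x205396a8, 4), (0x10548796, 4)],
    [(0x204252617083a2, 7), (0x318495a7, 4), (0x32407695, 4), (0x218095a6, 4), (0x318495a7, 4), (0x32407695, 4)]⟩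

def c_5478 : frmChk tA tA F_5478 = true := by decide +kernel

def r_5478_0 : chkL rootF engF2 tA tA sA_455 sA_455 4 F_5478 [(511, 0, 0)]
    0x1 = true := by
  decide +kernel

theorem f_5478 (h : TabsF) : FrameF repsF 455 F_5478.f :=
  frame_of rfl c_5478 (runs_of engOK r_5478_0) (by decide +kernel) h.1 h.1

def F_5479 : FrX :=
  ⟨0x80080a000804040e00002101002001000002040884200000320008008414001041000400a02080022068000404000802040040030003201000101020120,
    0xa6, 1, 0x213250708290a6, 7,
    [(0xa6, 1), (0x205396a8, 4), (0x10548796, 4), (0x214396a7, 4), (0x205396a8, 4), (0x10548796, 4)],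
    [(0x213250708290a6, 7), (0x107698a3, 4), (0x40537692, 4), (0x417682a5, 4), (0x107698a3, 4), (0x40537692, 4)]⟩

def c_5479 : frmChk tA tA F_5479 = true := by decide +kernel

def r_5479_0 : chkL rootF engF2 tA tA sA_455 sA_455 4 F_5479 [(511, 0, 0)]
    0x1 = true := by
  decide +kernel

theorem f_5479 (h : TabsF) : FrameF repsF 455 F_5479.f :=
  frame_of rfl c_5479 (runs_of engOK r_5479_0) (by decide +kernel) h.1 h.1

def F_5480 : FrX :=
  ⟨0x2002000900044004000e02041000141000800040800800248000c0040101040004008044408201a002028200400008802001002040800200440202022010,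
    0xa3, 1, 0x4153648596a0, 6,
    [(0xa3, 1), (0x208693a5, 4), (0x10548793, 4), (0x217693a4, 4), (0x208693a5, 4), (0x10548793, 4)],
    [(0x4153648596a0, 6), (0x108593a2, 4), (0x107386a4, 4), (0x10426597, 4), (0x108593a2, 4), (0x107386a4, 4)]⟩

def c_5480 : frmChk tA tA F_5480 = true := by decide +kernel

def r_5480_0 : chkL rootF engF2 tA tA sA_455 sA_455 4 F_5480 [(511, 0, 0)]
    0x1 = true := by
  decide +kernel

theorem f_5480 (h : TabsF) : FrameF repsF 455 F_5480.f :=
  frame_of rfl c_5480 (runs_of engOK r_5480_0) (by decide +kernel) h.1 h.1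

def F_5481 : FrX :=
  ⟨0x482000044040440000c20400200090001820400010111000042000040208020080890200a208000a000200202200800280000248430202002200010200,
    0xa0, 1, 0x30768498a2, 5,
    [(0xa0, 1), (0x538690a2, 4), (0x548790a1, 4), (0x21437690, 4), (0x538690a2, 4), (0x548790a1, 4)],
    [(0x30768498a2, 5), (0x657098a3, 4), (0x31427685, 4), (0x42658790, 4), (0x31427685, 4), (0x608795a1, 4), (0x428097a3, 4), (0x42658790, 4), (0x428097a3, 4), (0x31758690, 4), (0x42658790, 4), (0x608795a1, 4)]⟩

def c_5481 : frmChk tA tB F_5481 = true := by decide +kernel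

def r_5481_0 : chkL rootF engF2 tA tB sA_455 sB_455 4 F_5481 [(511, 0, 0)]
    0x1 = true := by
  decide +kernel

theorem f_5481 (h : TabsF) : FrameF repsF 455 F_5481.f :=
  frame_of rfl c_5481 (runs_of engOK r_5481_0) (by decide +kernel) h.1 h.2

def F_5482 : FrX :=
  ⟨0x80080a000804040e0000210100200100000204088042040121008080080100100110006000860008002280002020000a100040401004101900040e00200,
    0xa6, 1, 0x102031406582a3, 7,
    [(0xa6, 1), (0x205396a8, 4), (0x10548796, 4), (0x214396a7, 4), (0x205396a8, 4), (0x10548796, 4)],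
    [(0x102031406582a3, 7), (0x217684a5, 4), (0x43627590, 4), (0x527690a1, 4), (0x43627590, 4), (0x526183a7, 4), (0x518490a2, 4), (0x527690a1, 4), (0x518490a2, 4), (0x436572a1, 4), (0x527690a1, 4), (0x526183a7, 4)]⟩

def c_5482 : frmChk tA tB F_5482 = true := by decide +kernel

def r_5482_0 : chkL rootF engF2 tA tB sA_455 sB_455 4 F_5482 [(511, 0, 0)]
    0x1 = true := by
  decide +kernel

theorem f_5482 (h : TabsF) : FrameF repsF 455 F_5482.f :=
  frame_of rfl c_5482 (runs_of engOK r_5482_0) (by decide +kernel) h.1 h.2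

def F_5483 : FrX :=
  ⟨0x482000044040440000c204002000900018204000110040800090020000099000821000102800100004008082a2200400040044018010a2000018800002,
    0xa0, 1, 0x10314052658293a7, 8,
    [(0xa0, 1), (0x538690a2, 4), (0x548790a1, 4), (0x21437690, 4), (0x538690a2, 4), (0x548790a1, 4)],
    [(0x10314052658293a7, 8), (0x52708496, 4), (0x436170a5, 4), (0x708391a2, 4), (0x52708496, 4), (0x436170a5, 4)]⟩

def c_5483 : frmChk tA tA F_5483 = true := by decide +kernel

def r_5483_0 : chkL rootF engF2 tA tA sA_455 sA_455 4 F_5483 [(511, 0, 0)]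
    0x1 = true := by
  decide +kernel

theorem f_5483 (h : TabsF) : FrameF repsF 455 F_5483.f :=
  frame_of rfl c_5483 (runs_of engOK r_5483_0) (by decide +kernel) h.1 h.1

def F_5484 : FrX :=
  ⟨0x2002000900044004000e0204100014100080004080800020810120000880a002000206004020600480020140120020008000820400804000882210008210,
    0xa3, 1, 0x4254647692a3, 6,
    [(0xa3, 1), (0x208693a5, 4), (0x10548793, 4), (0x217693a4, 4), (0x208693a5, 4), (0x10548793, 4)],
    [(0x4254647692a3, 6), (0x438790a2, 4), (0x10436285, 4), (0x437591a6, 4), (0x438790a2, 4), (0x10436285, 4)]⟩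

def c_5484 : frmChk tA tA F_5484 = true := by decide +kernel

def r_5484_0 : chkL rootF engF2 tA tA sA_455 sA_455 4 F_5484 [(511, 0, 0)]
    0x1 = true := by
  decide +kernel

theorem f_5484 (h : TabsF) : FrameF repsF 455 F_5484.f :=
  frame_of rfl c_5484 (runs_of engOK r_5484_0) (by decide +kernel) h.1 h.1

def F_5485 : FrX :=
  ⟨0x2002000900044004000e02041000141000800040801002010420002100024028004001110020040801040013800400011100802080448008004004c00040,
    0xa3, 1, 0x325060728495a1, 7,
    [(0xa3, 1), (0x208693a5, 4), (0x10548793, 4), (0x217693a4, 4), (0x208693a5, 4), (0x10548793, 4)],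
    [(0x325060728495a1, 7), (0x10547692, 4), (0x104398a6, 4), (0x105382a7, 4), (0x10547692, 4), (0x104398a6, 4)]⟩

def c_5485 : frmChk tA tA F_5485 = true := by decide +kernel

def r_5485_0 : chkL rootF engF2 tA tA sA_455 sA_455 4 F_5485 [(511, 0, 0)]
    0x1 = true := by
  decide +kernel

theorem f_5485 (h : TabsF) : FrameF repsF 455 F_5485.f :=
  frame_of rfl c_5485 (runs_of engOK r_5485_0) (by decide +kernel) h.1 h.1

def F_5486 : FrX :=
  ⟨0x482000044040440000c20400200090001820400100400420008008100120084044001010020481804008100808104000108100040808000409000200d0,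
    0xa0, 1, 0x4153607197a2, 6,
    [(0xa0, 1), (0x538690a2, 4), (0x548790a1, 4), (0x21437690, 4), (0x538690a2, 4), (0x548790a1, 4)],
    [(0x4153607197a2, 6), (0x508193a6, 4), (0x31427690, 4), (0x10428593, 4), (0x31427690, 4), (0x108395a7, 4), (0x425180a6, 4), (0x10428593, 4), (0x425180a6, 4), (0x30768591, 4), (0x10428593, 4), (0x108395a7, 4)]⟩

def c_5486 : frmChk tA tB F_5486 = true := by decide +kernel

def r_5486_0 : chkL rootF engF2 tA tB sA_455 sB_455 4 F_5486 [(511, 0, 0)]
    0x1 = true := by
  decide +kernel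

theorem f_5486 (h : TabsF) : FrameF repsF 455 F_5486.f :=
  frame_of rfl c_5486 (runs_of engOK r_5486_0) (by decide +kernel) h.1 h.2

def F_5487 : FrX :=
  ⟨0x1c4044000008081000000840080410000101084050100008002008004200800420820201000420800044806010620040002484400220004021020040008,
    0x0, 0, 0x21536484, 4,
    [(0x0, 0), (0x20637584, 4), (0x105476a9, 4), (0x647583a9, 4), (0x105476a9, 4), (0x21647385, 4), (0x204386a9, 4), (0x647583a9, 4), (0x204386a9, 4), (0x10657483, 4), (0x647583a9, 4), (0x21647385, 4)],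
    [(0x21536484, 4), (0x105364a9, 4), (0x207683a9, 4), (0x217485a9, 4), (0x105364a9, 4), (0x207683a9, 4)]⟩

def c_5487 : frmChk tB tA F_5487 = true := by decide +kernel

def r_5487_0 : chkL rootF engF2 tB tA sB_455 sA_455 4 F_5487 [(511, 0, 0)]
    0x1 = true := by
  decide +kernel

theorem f_5487 (h : TabsF) : FrameF repsF 455 F_5487.f :=
  frame_of rfl c_5487 (runs_of engOK r_5487_0) (by decide +kernel) h.2 h.1

def F_5488 : FrX :=
  ⟨0x600020801080810000c004018041010100100400084400400002480020a000080800888080020180080202440208402500000110088000108020408080,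
    0xa0, 1, 0x53718792a4, 5,
    [(0xa0, 1), (0x637584a2, 4), (0x547690a1, 4), (0x64758390, 4), (0x547690a1, 4), (0x21647385, 4), (0x438690a2, 4), (0x64758390, 4), (0x438690a2, 4), (0x657483a1, 4), (0x64758390, 4), (0x21647385, 4)],
    [(0x53718792a4, 5), (0x42536190, 4), (0x427081a3, 4), (0x428697a5, 4), (0x42536190, 4), (0x427081a3, 4)]⟩

def c_5488 : frmChk tB tA F_5488 = true := by decide +kernel

def r_5488_0 : chkL rootF engF2 tB tA sB_455 sA_455 4 F_5488 [(511, 0, 0)]
    0x1 = true := by
  decide +kernel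

theorem f_5488 (h : TabsF) : FrameF repsF 455 F_5488.f :=
  frame_of rfl c_5488 (runs_of engOK r_5488_0) (by decide +kernel) h.2 h.1

def F_5489 : FrX :=
  ⟨0x1001040012008080000e0084080041000810100004208004004121010200004003010802000020980808200a0008004200108004008000a0064200800280,
    0xa3, 1, 0x5261758797a4, 6,
    [(0xa3, 1), (0x207584a6, 4), (0x10547693, 4), (0x647593a8, 4), (0x10547693, 4), (0x216485a7, 4), (0x208693a4, 4), (0x647593a8, 4), (0x208693a4, 4), (0x106574a8, 4), (0x647593a8, 4), (0x216485a7, 4)],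
    [(0x5261758797a4, 6), (0x21507384, 4), (0x608492a7, 4), (0x658491a3, 4), (0x21507384, 4), (0x608492a7, 4)]⟩

def c_5489 : frmChk tB tA F_5489 = true := by decide +kernel

def r_5489_0 : chkL rootF engF2 tB tA sB_455 sA_455 4 F_5489 [(511, 0, 0)]
    0x1 = true := by
  decide +kernel

theorem f_5489 (h : TabsF) : FrameF repsF 455 F_5489.f :=
  frame_of rfl c_5489 (runs_of engOK r_5489_0) (by decide +kernel) h.2 h.1

def F_5490 : FrX :=
  ⟨0x1001040012008080000e00840800410008101000042100004060222000000884042000101080100800041202040000804080000210888081080408020308,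
    0xa3, 1, 0x204061718497a4, 7,
    [(0xa3, 1), (0x207584a6, 4), (0x10547693, 4), (0x647593a8, 4), (0x10547693, 4), (0x216485a7, 4), (0x208693a4, 4), (0x647593a8, 4), (0x208693a4, 4), (0x106574a8, 4), (0x647593a8, 4), (0x216485a7, 4)],
    [(0x204061718497a4, 7), (0x314095a2, 4), (0x748691a5, 4), (0x328695a1, 4), (0x748691a5, 4), (0x527093a1, 4), (0x214086a3, 4), (0x328695a1, 4), (0x214086a3, 4), (0x325174a9, 4), (0x328695a1, 4), (0x527093a1, 4)]⟩

def c_5490 : frmChk tB tB F_5490 = true := by decide +kernel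

def r_5490_0 : chkL rootF engF2 tB tB sB_455 sB_455 4 F_5490 [(511, 0, 0)]
    0x1 = true := by
  decide +kernel

theorem f_5490 (h : TabsF) : FrameF repsF 455 F_5490.f :=
  frame_of rfl c_5490 (runs_of engOK r_5490_0) (by decide +kernel) h.2 h.2

def F_5491 : FrX :=
  ⟨0x482000044040440000c204002000900018204002000110010008080401210120020080002208022080040008400840a100000210082020100820408201,
    0xa0, 1, 0x5165718794a2, 6,
    [(0xa0, 1), (0x538690a2, 4), (0x548790a1, 4), (0x21437690, 4), (0x538690a2, 4), (0x548790a1, 4)],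
    [(0x5165718794a2, 6), (0x425163a0, 4), (0x42708596, 4), (0x428193a7, 4), (0x425163a0, 4), (0x42708596, 4)]⟩

def c_5491 : frmChk tA tA F_5491 = true := by decide +kernel

def r_5491_0 : chkL rootF engF2 tA tA sA_455 sA_455 4 F_5491 [(511, 0, 0)]
    0x1 = true := by
  decide +kernel

theorem f_5491 (h : TabsF) : FrameF repsF 455 F_5491.f :=
  frame_of rfl c_5491 (runs_of engOK r_5491_0) (by decide +kernel) h.1 h.1

def F_5492 : FrX :=
  ⟨0x80080a000804040e00002101002001000002040881200002208400900040080049010000c00040012000800600060002004049401201080440018080010,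
    0xa6, 1, 0x31728393a4, 5,
    [(0xa6, 1), (0x205396a8, 4), (0x10548796, 4), (0x214396a7, 4), (0x205396a8, 4), (0x10548796, 4)],
    [(0x31728393a4, 5), (0x61708495, 4), (0x213084a5, 4), (0x627384a9, 4), (0x61708495, 4), (0x213084a5, 4)]⟩

def c_5492 : frmChk tA tA F_5492 = true := by decide +kernel

def r_5492_0 : chkL rootF engF2 tA tA sA_455 sA_455 4 F_5492 [(511, 0, 0)]
    0x1 = true := by
  decide +kernel

theorem f_5492 (h : TabsF) : FrameF repsF 455 F_5492.f :=
  frame_of rfl c_5492 (runs_of engOK r_5492_0) (by decide +kernel) h.1 h.1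

def F_5493 : FrX :=
  ⟨0x2002000900044004000e020410001410008000408008040080a8804000010400140081010408008802020208440000002004210484200200440042002001,
    0xa3, 1, 0x4162748794a7, 6,
    [(0xa3, 1), (0x208693a5, 4), (0x10548793, 4), (0x217693a4, 4), (0x208693a5, 4), (0x10548793, 4)],
    [(0x4162748794a7, 6), (0x326091a5, 4), (0x408795a2, 4), (0x318792a5, 4), (0x408795a2, 4), (0x516492a3, 4), (0x21608793, 4), (0x318792a5, 4), (0x21608793, 4), (0x314052a9, 4), (0x318792a5, 4), (0x516492a3, 4)]⟩

def c_5493 : frmChk tA tB F_5493 = true := by decide +kernel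

def r_5493_0 : chkL rootF engF2 tA tB sA_455 sB_455 4 F_5493 [(511, 0, 0)]
    0x1 = true := by
  decide +kernel

theorem f_5493 (h : TabsF) : FrameF repsF 455 F_5493.f :=
  frame_of rfl c_5493 (runs_of engOK r_5493_0) (by decide +kernel) h.1 h.2

def F_5494 : FrX :=
  ⟨0x80080a000804040e00002101002001000002040880600008104400400012000049080401084080008848400800081800002001020410204001086020010,
    0xa6, 1, 0x1021305064718297a6, 9,
    [(0xa6, 1), (0x205396a8, 4), (0x10548796, 4), (0x214396a7, 4), (0x205396a8, 4), (0x10548796, 4)],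
    [(0x1021305064718297a6, 9), (0x314285a0, 4), (0x42637590, 4), (0x426187a9, 4), (0x314285a0, 4), (0x42637590, 4)]⟩

def c_5494 : frmChk tA tA F_5494 = true := by decide +kernel

def r_5494_0 : chkL rootF engF2 tA tA sA_455 sA_455 4 F_5494 [(511, 0, 0)]
    0x1 = true := by
  decide +kernel

theorem f_5494 (h : TabsF) : FrameF repsF 455 F_5494.f :=
  frame_of rfl c_5494 (runs_of engOK r_5494_0) (by decide +kernel) h.1 h.1

def F_5495 : FrX :=
  ⟨0x2002000900044004000e02041000141000800040801002010401400100214040020201010020040802020012030410001000811040480008004110110008,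
    0xa3, 1, 0x5061738293a6, 6,
    [(0xa3, 1), (0x208693a5, 4), (0x10548793, 4), (0x217693a4, 4), (0x208693a5, 4), (0x10548793, 4)],
    [(0x5061738293a6, 6), (0x304285a9, 4), (0x406571a3, 4), (0x307192a4, 4), (0x406571a3, 4), (0x208693a4, 4), (0x718594a2, 4), (0x307192a4, 4), (0x718594a2, 4), (0x436592a0, 4), (0x307192a4, 4), (0x208693a4, 4)]⟩

def c_5495 : frmChk tA tB F_5495 = true := by decide +kernel

def r_5495_0 : chkL rootF engF2 tA tB sA_455 sB_455 4 F_5495 [(511, 0, 0)]
    0x1 = true := by
  decide +kernel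

theorem f_5495 (h : TabsF) : FrameF repsF 455 F_5495.f :=
  frame_of rfl c_5495 (runs_of engOK r_5495_0) (by decide +kernel) h.1 h.2

def F_5496 : FrX :=
  ⟨0x1c21020000040440000020410001010000820408a0001100000024200400a0200008804010200840c200124201008800284000022200222002004800200,
    0x0, 0, 0x21436575, 4,
    [(0x0, 0), (0x205386a9, 4), (0x105487a9, 4), (0x214376a9, 4), (0x205386a9, 4), (0x105487a9, 4)],
    [(0x21436575, 4), (0x10547683, 4), (0x206573a9, 4), (0x537684a9, 4), (0x206573a9, 4), (0x21536487, 4), (0x104385a9, 4), (0x537684a9, 4), (0x104385a9, 4), (0x20637584, 4), (0x537684a9, 4), (0x21536487, 4)]⟩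

def c_5496 : frmChk tA tB F_5496 = true := by decide +kernel

def r_5496_0 : chkL rootF engF2 tA tB sA_455 sB_455 4 F_5496 [(511, 0, 0)]
    0x1 = true := by
  decide +kernel

theorem f_5496 (h : TabsF) : FrameF repsF 455 F_5496.f :=
  frame_of rfl c_5496 (runs_of engOK r_5496_0) (by decide +kernel) h.1 h.2

theorem cl_455 (h : TabsF) : ∀ f ∈ fr_455, FrameF repsF 455 f :=
  List.forall_mem_cons.2 ⟨f_5469 h, List.forall_mem_cons.2 ⟨f_5470 h, List.forall_mem_cons.2 ⟨f_5471 h, List.forall_mem_cons.2 ⟨f_5472 h, List.forall_mem_cons.2 ⟨f_5473 h, List.forall_mem_cons.2 ⟨f_5474 h, List.forall_mem_cons.2 ⟨f_5475 h, List.forall_mem_cons.2 ⟨f_5476 h, List.forall_mem_cons.2 ⟨f_5477 h, List.forall_mem_cons.2 ⟨f_5478 h, List.forall_mem_cons.2 ⟨f_5479 h, List.forall_mem_cons.2 ⟨f_5480 h, List.forall_mem_cons.2 ⟨f_5481 h, List.forall_mem_cons.2 ⟨f_5482 h, List.forall_mem_cons.2 ⟨f_5483 h, List.forall_mem_cons.2 ⟨f_5484 h, List.forall_mem_cons.2 ⟨f_5485 h, List.forall_mem_cons.2 ⟨f_5486 h, List.forall_mem_cons.2 ⟨f_5487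 h, List.forall_mem_cons.2 ⟨f_5488 h, List.forall_mem_cons.2 ⟨f_5489 h, List.forall_mem_cons.2 ⟨f_5490 h, List.forall_mem_cons.2 ⟨f_5491 h, List.forall_mem_cons.2 ⟨f_5492 h, List.forall_mem_cons.2 ⟨f_5493 h, List.forall_mem_cons.2 ⟨f_5494 h, List.forall_mem_cons.2 ⟨f_5495 h, List.forall_mem_cons.2 ⟨f_5496 h,
    fun _ h0 => absurd h0 List.not_mem_nil⟩⟩⟩⟩⟩⟩⟩⟩⟩⟩⟩⟩⟩⟩⟩⟩⟩⟩⟩⟩⟩⟩⟩⟩⟩⟩⟩⟩

def F_5497 : FrX :=
  ⟨0x2002000900044004000e0204100014100080004080800040180202020101010800002820110000840c000204a0102000c004020400800820000888020044,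
    0xa3, 1, 0x213041648590a6, 7,
    [(0xa3, 1), (0x208693a5, 4), (0x10548793, 4), (0x217693a4, 4), (0x208693a5, 4), (0x10548793, 4)],
    [(0x213041648590a6, 7), (0x328091a5, 4), (0x32758694, 4), (0x324160a7, 4), (0x328091a5, 4), (0x32758694, 4)]⟩

def c_5497 : frmChk tA tA F_5497 = true := by decide +kernel

def r_5497_0 : chkL rootF engF2 tA tA sA_456 sA_456 4 F_5497 [(511, 0, 0)]
    0x1 = true := by
  decide +kernel

theorem f_5497 (h : TabsF) : FrameF repsF 456 F_5497.f :=
  frame_of rfl c_5497 (runs_of engOK r_5497_0) (by decide +kernel) h.1 h.1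

def F_5498 : FrX :=
  ⟨0x2002000900044004000e02041000141000800040808002000320000404010c08004024001100008124000010491000801041001042028800000900024004,
    0xa3, 1, 0x425262758198a0, 7,
    [(0xa3, 1), (0x208693a5, 4), (0x10548793, 4), (0x217693a4, 4), (0x208693a5, 4), (0x10548793, 4)],
    [(0x425262758198a0, 7), (0x107395a6, 4), (0x107294a8, 4), (0x10325486, 4), (0x107395a6, 4), (0x107294a8, 4)]⟩

def c_5498 : frmChk tA tA F_5498 = true := by decide +kernel

def r_5498_0 : chkL rootF engF2 tA tA sA_456 sA_456 4 F_5498 [(511, 0, 0)]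
    0x1 = true := by
  decide +kernel

theorem f_5498 (h : TabsF) : FrameF repsF 456 F_5498.f :=
  frame_of rfl c_5498 (runs_of engOK r_5498_0) (by decide +kernel) h.1 h.1

def F_5499 : FrX :=
  ⟨0x2002000900044004000e02041000141000800040808001002081020401008402000202204040008480020100125020008002820400800800902210008200,
    0xa3, 1, 0x2130415064718598a6, 9,
    [(0xa3, 1), (0x208693a5, 4), (0x10548793, 4), (0x217693a4, 4), (0x208693a5, 4), (0x10548793, 4)],
    [(0x2130415064718598a6, 9), (0x325180a9, 4), (0x32758694, 4), (0x326071a4, 4), (0x325180a9, 4), (0x32758694, 4)]⟩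

def c_5499 : frmChk tA tA F_5499 = true := by decide +kernel

def r_5499_0 : chkL rootF engF2 tA tA sA_456 sA_456 4 F_5499 [(511, 0, 0)]
    0x1 = true := by
  decide +kernel

theorem f_5499 (h : TabsF) : FrameF repsF 456 F_5499.f :=
  frame_of rfl c_5499 (runs_of engOK r_5499_0) (by decide +kernel) h.1 h.1

def F_5500 : FrX :=
  ⟨0x482000044040440000c2040020009000182040001012040808100004040041010802000848000480000020015420002002084480010080812220000081,
    0xa0, 1, 0x3052637481a5, 6,
    [(0xa0, 1), (0x538690a2, 4), (0x548790a1, 4), (0x21437690, 4), (0x538690a2, 4), (0x548790a1, 4)],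
    [(0x3052637481a5, 6), (0x105392a6, 4), (0x418392a7, 4), (0x40768592, 4), (0x105392a6, 4), (0x418392a7, 4)]⟩

def c_5500 : frmChk tA tA F_5500 = true := by decide +kernel

def r_5500_0 : chkL rootF engF2 tA tA sA_456 sA_456 4 F_5500 [(511, 0, 0)]
    0x1 = true := by
  decide +kernel

theorem f_5500 (h : TabsF) : FrameF repsF 456 F_5500.f :=
  frame_of rfl c_5500 (runs_of engOK r_5500_0) (by decide +kernel) h.1 h.1

def F_5501 : FrX :=
  ⟨0x80080a000804040e0000210100200100000204089002000245000042020400800844000100800900800408080300400c1000404400004220008030c0080,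
    0xa6, 1, 0x203041647384a6, 7,
    [(0xa6, 1), (0x205396a8, 4), (0x10548796, 4), (0x214396a7, 4), (0x205396a8, 4), (0x10548796, 4)],
    [(0x203041647384a6, 7), (0x307591a6, 4), (0x43628591, 4), (0x408791a2, 4), (0x307591a6, 4), (0x43628591, 4)]⟩

def c_5501 : frmChk tA tA F_5501 = true := by decide +kernel

def r_5501_0 : chkL rootF engF2 tA tA sA_456 sA_456 4 F_5501 [(511, 0, 0)]
    0x1 = true := by
  decide +kernel

theorem f_5501 (h : TabsF) : FrameF repsF 456 F_5501.f :=
  frame_of rfl c_5501 (runs_of engOK r_5501_0) (by decide +kernel) h.1 h.1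

def F_5502 : FrX :=
  ⟨0x80080a000804040e0000210100200100000204088082100101008022020400100110006000800808002220002510000a100040480009101800040440200,
    0xa6, 1, 0x2140638192a1, 6,
    [(0xa6, 1), (0x205396a8, 4), (0x10548796, 4), (0x214396a7, 4), (0x205396a8, 4), (0x10548796, 4)],
    [(0x2140638192a1, 6), (0x32658194, 4), (0x507281a4, 4), (0x607381a9, 4), (0x32658194, 4), (0x507281a4, 4)]⟩

def c_5502 : frmChk tA tA F_5502 = true := by decide +kernel

def r_5502_0 : chkL rootF engF2 tA tA sA_456 sA_456 4 F_5502 [(511, 0, 0)]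
    0x1 = true := by
  decide +kernel

theorem f_5502 (h : TabsF) : FrameF repsF 456 F_5502.f :=
  frame_of rfl c_5502 (runs_of engOK r_5502_0) (by decide +kernel) h.1 h.1

def F_5503 : FrX :=
  ⟨0x80080a000804040e0000210100200100000204089000800810400410020a008008800081008009020001020411201800022100080801002040a00880080,
    0xa6, 1, 0x324251728490a2, 7,
    [(0xa6, 1), (0x205396a8, 4), (0x10548796, 4), (0x214396a7, 4), (0x205396a8, 4), (0x10548796, 4)],
    [(0x324251728490a2, 7), (0x416283a9, 4), (0x64708195, 4), (0x32417086, 4), (0x64708195, 4), (0x314286a5, 4), (0x637082a9, 4), (0x32417086, 4), (0x637082a9, 4), (0x32618495, 4), (0x32417086, 4), (0x314286a5, 4)]⟩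

def c_5503 : frmChk tA tB F_5503 = true := by decide +kernel

def r_5503_0 : chkL rootF engF2 tA tB sA_456 sB_456 4 F_5503 [(511, 0, 0)]
    0x1 = true := by
  decide +kernel

theorem f_5503 (h : TabsF) : FrameF repsF 456 F_5503.f :=
  frame_of rfl c_5503 (runs_of engOK r_5503_0) (by decide +kernel) h.1 h.2

def F_5504 : FrX :=
  ⟨0x80080a000804040e000021010020010000020408a000080220002840022400204040004010200840a090000204408800242000022002002002011008820,
    0xa6, 1, 0x3251708598a6, 6,
    [(0xa6, 1), (0x205396a8, 4), (0x10548796, 4), (0x214396a7, 4), (0x205396a8, 4), (0x10548796, 4)],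
    [(0x3251708598a6, 6), (0x617382a9, 4), (0x61758490, 4), (0x425361a0, 4), (0x617382a9, 4), (0x61758490, 4)]⟩

def c_5504 : frmChk tA tA F_5504 = true := by decide +kernel

def r_5504_0 : chkL rootF engF2 tA tA sA_456 sA_456 4 F_5504 [(511, 0, 0)]
    0x1 = true := by
  decide +kernel

theorem f_5504 (h : TabsF) : FrameF repsF 456 F_5504.f :=
  frame_of rfl c_5504 (runs_of engOK r_5504_0) (by decide +kernel) h.1 h.1

def F_5505 : FrX :=
  ⟨0x482000044040440000c2040020009000182040020001100100080804040881200040100202180422020004084001802080000210050000002200018308,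
    0xa0, 1, 0x1050718592a8, 6,
    [(0xa0, 1), (0x538690a2, 4), (0x548790a1, 4), (0x21437690, 4), (0x538690a2, 4), (0x548790a1, 4)],
    [(0x1050718592a8, 6), (0x218395a6, 4), (0x217584a0, 4), (0x21436097, 4), (0x218395a6, 4), (0x217584a0, 4)]⟩

def c_5505 : frmChk tA tA F_5505 = true := by decide +kernel

def r_5505_0 : chkL rootF engF2 tA tA sA_456 sA_456 4 F_5505 [(511, 0, 0)]
    0x1 = true := by
  decide +kernel

theorem f_5505 (h : TabsF) : FrameF repsF 456 F_5505.f :=
  frame_of rfl c_5505 (runs_of engOK r_5505_0) (by decide +kernel) h.1 h.1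

def F_5506 : FrX :=
  ⟨0x2002000900044004000e02041000141000800040801000248100c00201010400040080820002020042020228400000802001802080500200440202002003,
    0xa3, 1, 0x324352647580a6, 7,
    [(0xa3, 1), (0x208693a5, 4), (0x10548793, 4), (0x217693a4, 4), (0x208693a5, 4), (0x10548793, 4)],
    [(0x324352647580a6, 7), (0x748592a0, 4), (0x30768192, 4), (0x516492a3, 4), (0x748592a0, 4), (0x30768192, 4)]⟩

def c_5506 : frmChk tA tA F_5506 = true := by decide +kernel

def r_5506_0 : chkL rootF engF2 tA tA sA_456 sA_456 4 F_5506 [(511, 0, 0)]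
    0x1 = true := by
  decide +kernel

theorem f_5506 (h : TabsF) : FrameF repsF 456 F_5506.f :=
  frame_of rfl c_5506 (runs_of engOK r_5506_0) (by decide +kernel) h.1 h.1

def F_5507 : FrX :=
  ⟨0x2002000900044004000e02041000141000800040800800248000c00401010400040080441082022002108200400048800001002040400200441202022010,
    0xa3, 1, 0x4153648596a0, 6,
    [(0xa3, 1), (0x208693a5, 4), (0x10548793, 4), (0x217693a4, 4), (0x208693a5, 4), (0x10548793, 4)],
    [(0x4153648596a0, 6), (0x108593a2, 4), (0x107386a4, 4), (0x10426597, 4), (0x108593a2, 4), (0x107386a4, 4)]⟩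

def c_5507 : frmChk tA tA F_5507 = true := by decide +kernel

def r_5507_0 : chkL rootF engF2 tA tA sA_456 sA_456 4 F_5507 [(511, 0, 0)]
    0x1 = true := by
  decide +kernel

theorem f_5507 (h : TabsF) : FrameF repsF 456 F_5507.f :=
  frame_of rfl c_5507 (runs_of engOK r_5507_0) (by decide +kernel) h.1 h.1

def F_5508 : FrX :=
  ⟨0x80080a000804040e00002101002001000002040881104002220008100004080049010001022040102000800600040801042000080403082400110200005,
    0xa6, 1, 0x103150627185a0, 7,
    [(0xa6, 1), (0x205396a8, 4), (0x10548796, 4), (0x214396a7, 4), (0x205396a8, 4), (0x10548796, 4)],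
    [(0x103150627185a0, 7), (0x218095a6, 4), (0x318495a7, 4), (0x32407695, 4), (0x218095a6, 4), (0x318495a7, 4)]⟩

def c_5508 : frmChk tA tA F_5508 = true := by decide +kernel

def r_5508_0 : chkL rootF engF2 tA tA sA_456 sA_456 4 F_5508 [(511, 0, 0)]
    0x1 = true := by
  decide +kernel

theorem f_5508 (h : TabsF) : FrameF repsF 456 F_5508.f :=
  frame_of rfl c_5508 (runs_of engOK r_5508_0) (by decide +kernel) h.1 h.1

def F_5509 : FrX :=
  ⟨0x2002000900044004000e0204100014100080004080200024200440011101004004008802000200800a4802820004008002042020400808000400a0008821,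
    0xa3, 1, 0x2031708291a2, 6,
    [(0xa3, 1), (0x208693a5, 4), (0x10548793, 4), (0x217693a4, 4), (0x208693a5, 4), (0x10548793, 4)],
    [(0x2031708291a2, 6), (0x405261a7, 4), (0x54628397, 4), (0x10526483, 4), (0x54628397, 4), (0x215064a9, 4), (0x416083a7, 4), (0x10526483, 4), (0x416083a7, 4), (0x10426597, 4), (0x10526483, 4), (0x215064a9, 4)]⟩

def c_5509 : frmChk tA tB F_5509 = true := by decide +kernel

def r_5509_0 : chkL rootF engF2 tA tB sA_456 sB_456 4 F_5509 [(511, 0, 0)]
    0x1 = true := by
  decide +kernel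

theorem f_5509 (h : TabsF) : FrameF repsF 456 F_5509.f :=
  frame_of rfl c_5509 (runs_of engOK r_5509_0) (by decide +kernel) h.1 h.2

def F_5510 : FrX :=
  ⟨0x80080a000804040e000021010020010000020408a0002000300110008224001400100428002180010048001014000400241400030008408004101008080,
    0xa6, 1, 0x2142546092a0, 6,
    [(0xa6, 1), (0x205396a8, 4), (0x10548796, 4), (0x214396a7, 4), (0x205396a8, 4), (0x10548796, 4)],
    [(0x2142546092a0, 6), (0x316480a9, 4), (0x516487a2, 4), (0x53647092, 4), (0x316480a9, 4), (0x516487a2, 4)]⟩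

def c_5510 : frmChk tA tA F_5510 = true := by decide +kernel

def r_5510_0 : chkL rootF engF2 tA tA sA_456 sA_456 4 F_5510 [(511, 0, 0)]
    0x1 = true := by
  decide +kernel

theorem f_5510 (h : TabsF) : FrameF repsF 456 F_5510.f :=
  frame_of rfl c_5510 (runs_of engOK r_5510_0) (by decide +kernel) h.1 h.1

def F_5511 : FrX :=
  ⟨0x2002000900044004000e0204100014100080004080100028201010014100018200002802c002100010040811010000000300082030080808100011082001,
    0xa3, 1, 0x203240536098a2, 7,
    [(0xa3, 1), (0x208693a5, 4), (0x10548793, 4), (0x217693a4, 4), (0x208693a5, 4), (0x10548793, 4)],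
    [(0x203240536098a2, 7), (0x508394a6, 4), (0x20618397, 4), (0x527483a1, 4), (0x508394a6, 4), (0x20618397, 4)]⟩

def c_5511 : frmChk tA tA F_5511 = true := by decide +kernel

def r_5511_0 : chkL rootF engF2 tA tA sA_456 sA_456 4 F_5511 [(511, 0, 0)]
    0x1 = true := by
  decide +kernel

theorem f_5511 (h : TabsF) : FrameF repsF 456 F_5511.f :=
  frame_of rfl c_5511 (runs_of engOK r_5511_0) (by decide +kernel) h.1 h.1

def F_5512 : FrX :=
  ⟨0x482000044040440000c2040020009000182040001100408001200020000c040208800600020209022004006010000c0080090006200202401002800008,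
    0xa0, 1, 0x4352618098a4, 6,
    [(0xa0, 1), (0x538690a2, 4), (0x548790a1, 4), (0x21437690, 4), (0x538690a2, 4), (0x548790a1, 4)],
    [(0x4352618098a4, 6), (0x30428591, 4), (0x308697a2, 4), (0x306571a4, 4), (0x30428591, 4), (0x308697a2, 4)]⟩

def c_5512 : frmChk tA tA F_5512 = true := by decide +kernel

def r_5512_0 : chkL rootF engF2 tA tA sA_456 sA_456 4 F_5512 [(511, 0, 0)]
    0x1 = true := by
  decide +kernel

theorem f_5512 (h : TabsF) : FrameF repsF 456 F_5512.f :=
  frame_of rfl c_5512 (runs_of engOK r_5512_0) (by decide +kernel) h.1 h.1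

def F_5513 : FrX :=
  ⟨0x2002000900044004000e02041000141000800040801000282000a02002002200040022201400900820802400400048800000082010810200202211082000,
    0xa3, 1, 0x203161728796a3, 7,
    [(0xa3, 1), (0x208693a5, 4), (0x10548793, 4), (0x217693a4, 4), (0x208693a5, 4), (0x10548793, 4)],
    [(0x203161728796a3, 7), (0x317290a5, 4), (0x31546280, 4), (0x317698a4, 4), (0x317290a5, 4), (0x31546280, 4)]⟩

def c_5513 : frmChk tA tA F_5513 = true := by decide +kernel

def r_5513_0 : chkL rootF engF2 tA tA sA_456 sA_456 4 F_5513 [(511, 0, 0)]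
    0x1 = true := by
  decide +kernel

theorem f_5513 (h : TabsF) : FrameF repsF 456 F_5513.f :=
  frame_of rfl c_5513 (runs_of engOK r_5513_0) (by decide +kernel) h.1 h.1

def F_5514 : FrX :=
  ⟨0x482000044040440000c20400200090001820400100401001010001800208028080804008040408120052002020010c0084008000600202202000010410,
    0xa0, 1, 0x2151718094a8, 6,
    [(0xa0, 1), (0x538690a2, 4), (0x548790a1, 4), (0x21437690, 4), (0x538690a2, 4), (0x548790a1, 4)],
    [(0x2151718094a8, 6), (0x526381a9, 4), (0x40658792, 4), (0x405296a3, 4), (0x40658792, 4), (0x537196a2, 4), (0x408193a6, 4), (0x405296a3, 4), (0x408193a6, 4), (0x628795a3, 4), (0x405296a3, 4), (0x537196a2, 4)]⟩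

def c_5514 : frmChk tA tB F_5514 = true := by decide +kernel

def r_5514_0 : chkL rootF engF2 tA tB sA_456 sB_456 4 F_5514 [(511, 0, 0)]
    0x1 = true := by
  decide +kernel

theorem f_5514 (h : TabsF) : FrameF repsF 456 F_5514.f :=
  frame_of rfl c_5514 (runs_of engOK r_5514_0) (by decide +kernel) h.1 h.2

def F_5515 : FrX :=
  ⟨0x2002000900044004000e02041000141000800040810000041408008030810041200008002182009008200006001020004201010040000220040220020281,
    0xa3, 1, 0x103250638797a2, 7,
    [(0xa3, 1), (0x208693a5, 4), (0x10548793, 4), (0x217693a4, 4), (0x208693a5, 4), (0x10548793, 4)],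
    [(0x103250638797a2, 7), (0x617283a5, 4), (0x41508397, 4), (0x648392a0, 4), (0x617283a5, 4), (0x41508397, 4)]⟩

def c_5515 : frmChk tA tA F_5515 = true := by decide +kernel

def r_5515_0 : chkL rootF engF2 tA tA sA_456 sA_456 4 F_5515 [(511, 0, 0)]
    0x1 = true := by
  decide +kernel

theorem f_5515 (h : TabsF) : FrameF repsF 456 F_5515.f :=
  frame_of rfl c_5515 (runs_of engOK r_5515_0) (by decide +kernel) h.1 h.1

def F_5516 : FrX :=
  ⟨0x482000044040440000c2040020009000182040000502000301080800000c08004820002102000104200010601010400410010006040520000a00800048,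
    0xa0, 1, 0x2132435381a0, 6,
    [(0xa0, 1), (0x538690a2, 4), (0x548790a1, 4), (0x21437690, 4), (0x538690a2, 4), (0x548790a1, 4)],
    [(0x2132435381a0, 6), (0x546290a3, 4), (0x417290a8, 4), (0x51768390, 4), (0x546290a3, 4), (0x417290a8, 4)]⟩

def c_5516 : frmChk tA tA F_5516 = true := by decide +kernel

def r_5516_0 : chkL rootF engF2 tA tA sA_456 sA_456 4 F_5516 [(511, 0, 0)]
    0x1 = true := by
  decide +kernel

theorem f_5516 (h : TabsF) : FrameF repsF 456 F_5516.f :=
  frame_of rfl c_5516 (runs_of engOK r_5516_0) (by decide +kernel) h.1 h.1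

def F_5517 : FrX :=
  ⟨0x2002000900044004000e02041000141000800040801000282000a02000812002000022204050101020020080018060042000482010800208002210082000,
    0xa3, 1, 0x405061708297a6, 7,
    [(0xa3, 1), (0x208693a5, 4), (0x10548793, 4), (0x217693a4, 4), (0x208693a5, 4), (0x10548793, 4)],
    [(0x405061708297a6, 7), (0x435187a2, 4), (0x40517692, 4), (0x305186a9, 4), (0x435187a2, 4), (0x40517692, 4)]⟩

def c_5517 : frmChk tA tA F_5517 = true := by decide +kernel

def r_5517_0 : chkL rootF engF2 tA tA sA_456 sA_456 4 F_5517 [(511, 0, 0)]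
    0x1 = true := by
  decide +kernel

theorem f_5517 (h : TabsF) : FrameF repsF 456 F_5517.f :=
  frame_of rfl c_5517 (runs_of engOK r_5517_0) (by decide +kernel) h.1 h.1

def F_5518 : FrX :=
  ⟨0x2002000900044004000e02041000141000800040801000282020002100012102800020210040021a00040011012000040300482010080008004011082001,
    0xa3, 1, 0x21324161708295a3, 8,
    [(0xa3, 1), (0x208693a5, 4), (0x10548793, 4), (0x217693a4, 4), (0x208693a5, 4), (0x10548793, 4)],
    [(0x21324161708295a3, 8), (0x328790a4, 4), (0x40517692, 4), (0x425190a3, 4), (0x40517692, 4), (0x428693a0, 4), (0x435187a2, 4), (0x425190a3, 4), (0x435187a2, 4), (0x207694a3, 4), (0x425190a3, 4), (0x428693a0, 4)]⟩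

def c_5518 : frmChk tA tB F_5518 = true := by decide +kernel

def r_5518_0 : chkL rootF engF2 tA tB sA_456 sB_456 4 F_5518 [(511, 0, 0)]
    0x1 = true := by
  decide +kernel

theorem f_5518 (h : TabsF) : FrameF repsF 456 F_5518.f :=
  frame_of rfl c_5518 (runs_of engOK r_5518_0) (by decide +kernel) h.1 h.2

def F_5519 : FrX :=
  ⟨0x2002000900044004000e02041000141000800040801000282010100141000182000028028802800a200004004000400021000820108800202420100c2000,
    0xa3, 1, 0x203240536098a2, 7,
    [(0xa3, 1), (0x208693a5, 4), (0x10548793, 4), (0x217693a4, 4), (0x208693a5, 4), (0x10548793, 4)],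
    [(0x203240536098a2, 7), (0x508394a6, 4), (0x20618397, 4), (0x527483a1, 4), (0x508394a6, 4), (0x20618397, 4)]⟩

def c_5519 : frmChk tA tA F_5519 = true := by decide +kernel

def r_5519_0 : chkL rootF engF2 tA tA sA_456 sA_456 4 F_5519 [(511, 0, 0)]
    0x1 = true := by
  decide +kernel

theorem f_5519 (h : TabsF) : FrameF repsF 456 F_5519.f :=
  frame_of rfl c_5519 (runs_of engOK r_5519_0) (by decide +kernel) h.1 h.1

def F_5520 : FrX :=
  ⟨0x2002000900044004000e0204100014100080004080080024800120200a000c00040081024c80000012008200400040800000202086010200401202422000,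
    0xa3, 1, 0x5264708391a3, 6,
    [(0xa3, 1), (0x208693a5, 4), (0x10548793, 4), (0x217693a4, 4), (0x208693a5, 4), (0x10548793, 4)],
    [(0x5264708391a3, 6), (0x437581a2, 4), (0x30628197, 4), (0x408195a6, 4), (0x437581a2, 4), (0x30628197, 4)]⟩

def c_5520 : frmChk tA tA F_5520 = true := by decide +kernel

def r_5520_0 : chkL rootF engF2 tA tA sA_456 sA_456 4 F_5520 [(511, 0, 0)]
    0x1 = true := by
  decide +kernel

theorem f_5520 (h : TabsF) : FrameF repsF 456 F_5520.f :=
  frame_of rfl c_5520 (runs_of engOK r_5520_0) (by decide +kernel) h.1 h.1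

def F_5521 : FrX :=
  ⟨0x482000044040440000c2040020009000182040002102000101200008000c048048800200a2000a021000006040000c0080010006200102400802210008,
    0xa0, 1, 0x30618291a4, 5,
    [(0xa0, 1), (0x538690a2, 4), (0x548790a1, 4), (0x21437690, 4), (0x538690a2, 4), (0x548790a1, 4)],
    [(0x30618291a4, 5), (0x107583a2, 4), (0x647193a5, 4), (0x206475a1, 4), (0x647193a5, 4), (0x527098a1, 4), (0x216483a0, 4), (0x206475a1, 4), (0x216483a0, 4), (0x205193a7, 4), (0x206475a1, 4), (0x527098a1, 4)]⟩

def c_5521 : frmChk tA tB F_5521 = true := by decide +kernel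

def r_5521_0 : chkL rootF engF2 tA tB sA_456 sB_456 4 F_5521 [(511, 0, 0)]
    0x1 = true := by
  decide +kernel

theorem f_5521 (h : TabsF) : FrameF repsF 456 F_5521.f :=
  frame_of rfl c_5521 (runs_of engOK r_5521_0) (by decide +kernel) h.1 h.2

def F_5522 : FrX :=
  ⟨0x2002000900044004000e02041000141000800040800800248008400009010c0004008103098000000220020050004000120100a082100240400202020004,
    0xa3, 1, 0x213162768194a6, 7,
    [(0xa3, 1), (0x208693a5, 4), (0x10548793, 4), (0x217693a4, 4), (0x208693a5, 4), (0x10548793, 4)],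
    [(0x213162768194a6, 7), (0x526074a3, 4), (0x31748095, 4), (0x748692a1, 4), (0x526074a3, 4), (0x31748095, 4)]⟩

def c_5522 : frmChk tA tA F_5522 = true := by decide +kernel

def r_5522_0 : chkL rootF engF2 tA tA sA_456 sA_456 4 F_5522 [(511, 0, 0)]
    0x1 = true := by
  decide +kernel

theorem f_5522 (h : TabsF) : FrameF repsF 456 F_5522.f :=
  frame_of rfl c_5522 (runs_of engOK r_5522_0) (by decide +kernel) h.1 h.1

def F_5523 : FrX :=
  ⟨0x2002000900044004000e02041000141000800040800804008080a04001010400140081004022012002020280600008802080280084000200440202002001,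
    0xa3, 1, 0x4253728196a7, 6,
    [(0xa3, 1), (0x208693a5, 4), (0x10548793, 4), (0x217693a4, 4), (0x208693a5, 4), (0x10548793, 4)],
    [(0x4253728196a7, 6), (0x217095a3, 4), (0x326480a9, 4), (0x516492a3, 4), (0x326480a9, 4), (0x318792a5, 4), (0x52647091, 4), (0x516492a3, 4), (0x52647091, 4), (0x518093a2, 4), (0x516492a3, 4), (0x318792a5, 4)]⟩

def c_5523 : frmChk tA tB F_5523 = true := by decide +kernel

def r_5523_0 : chkL rootF engF2 tA tB sA_456 sB_456 4 F_5523 [(511, 0, 0)]
    0x1 = true := by
  decide +kernel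

theorem f_5523 (h : TabsF) : FrameF repsF 456 F_5523.f :=
  frame_of rfl c_5523 (runs_of engOK r_5523_0) (by decide +kernel) h.1 h.2

def F_5524 : FrX :=
  ⟨0x1c21020000040440000020410001010000820408a0001100000024200400a02000088040102009008080030205410400304000022050020002024080200,
    0x0, 0, 0x21436575, 4,
    [(0x0, 0), (0x205386a9, 4), (0x105487a9, 4), (0x214376a9, 4), (0x205386a9, 4), (0x105487a9, 4)],
    [(0x21436575, 4), (0x10547683, 4), (0x206573a9, 4), (0x537684a9, 4), (0x206573a9, 4), (0x21536487, 4), (0x104385a9, 4), (0x537684a9, 4), (0x104385a9, 4), (0x20637584, 4), (0x537684a9, 4), (0x21536487, 4)]⟩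

def c_5524 : frmChk tA tB F_5524 = true := by decide +kernel

def r_5524_0 : chkL rootF engF2 tA tB sA_456 sB_456 4 F_5524 [(511, 0, 0)]
    0x1 = true := by
  decide +kernel

theorem f_5524 (h : TabsF) : FrameF repsF 456 F_5524.f :=
  frame_of rfl c_5524 (runs_of engOK r_5524_0) (by decide +kernel) h.1 h.2

theorem cl_456 (h : TabsF) : ∀ f ∈ fr_456, FrameF repsF 456 f :=
  List.forall_mem_cons.2 ⟨f_5497 h, List.forall_mem_cons.2 ⟨f_5498 h, List.forall_mem_cons.2 ⟨f_5499 h, List.forall_mem_cons.2 ⟨f_5500 h, List.forall_mem_cons.2 ⟨f_5501 h, List.forall_mem_cons.2 ⟨f_5502 h, List.forall_mem_cons.2 ⟨f_5503 h, List.forall_mem_cons.2 ⟨f_5504 h, List.forall_mem_cons.2 ⟨f_5505 h, List.forall_mem_cons.2 ⟨f_5506 h, List.forall_mem_cons.2 ⟨f_5507 h, List.forall_mem_cons.2 ⟨f_5508 h, List.forall_mem_cons.2 ⟨f_5509 h, List.forall_mem_cons.2 ⟨f_5510 h, List.forall_mem_cons.2 ⟨f_5511 h, List.forall_mem_cons.2 ⟨f_5512 h, List.forall_mem_cons.2 ⟨f_5513 h, List.forall_mem_cons.2 ⟨f_5514 h, List.forall_mem_cons.2 ⟨f_5515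 h, List.forall_mem_cons.2 ⟨f_5516 h, List.forall_mem_cons.2 ⟨f_5517 h, List.forall_mem_cons.2 ⟨f_5518 h, List.forall_mem_cons.2 ⟨f_5519 h, List.forall_mem_cons.2 ⟨f_5520 h, List.forall_mem_cons.2 ⟨f_5521 h, List.forall_mem_cons.2 ⟨f_5522 h, List.forall_mem_cons.2 ⟨f_5523 h, List.forall_mem_cons.2 ⟨f_5524 h,
    fun _ h0 => absurd h0 List.not_mem_nil⟩⟩⟩⟩⟩⟩⟩⟩⟩⟩⟩⟩⟩⟩⟩⟩⟩⟩⟩⟩⟩⟩⟩⟩⟩⟩⟩⟩

def F_5525 : FrX :=
  ⟨0x80080a000804040e00002101002001000002040880440802020008400080084048012010080040202102800600040040241108001003002400210080010,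
    0xa6, 1, 0x205163768490a3, 7,
    [(0xa6, 1), (0x205396a8, 4), (0x10548796, 4), (0x214396a7, 4), (0x205396a8, 4), (0x10548796, 4)],
    [(0x205163768490a3, 7), (0x627490a1, 4), (0x43628195, 4), (0x506273a8, 4), (0x627490a1, 4), (0x43628195, 4)]⟩

def c_5525 : frmChk tA tA F_5525 = true := by decide +kernel

def r_5525_0 : chkL rootF engF2 tA tA sA_457 sA_457 4 F_5525 [(511, 0, 0)]
    0x1 = true := by
  decide +kernel

theorem f_5525 (h : TabsF) : FrameF repsF 457 F_5525.f :=
  frame_of rfl c_5525 (runs_of engOK r_5525_0) (by decide +kernel) h.1 h.1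

def F_5526 : FrX :=
  ⟨0x482000044040440000c2040020009000182040002011100800880200024002100080060002014012020208122000802018002008102200002200010210,
    0xa0, 1, 0x1040617480a3, 6,
    [(0xa0, 1), (0x538690a2, 4), (0x548790a1, 4), (0x21437690, 4), (0x538690a2, 4), (0x548790a1, 4)],
    [(0x1040617480a3, 6), (0x517482a0, 4), (0x10758693, 4), (0x517093a4, 4), (0x10758693, 4), (0x546270a1, 4), (0x408293a7, 4), (0x517093a4, 4), (0x408293a7, 4), (0x507186a4, 4), (0x517093a4, 4), (0x546270a1, 4)]⟩

def c_5526 : frmChk tA tB F_5526 = true := by decide +kernel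

def r_5526_0 : chkL rootF engF2 tA tB sA_457 sB_457 4 F_5526 [(511, 0, 0)]
    0x105c1705c721c872 = true := by
  decide +kernel

theorem f_5526 (h : TabsF) : FrameF repsF 457 F_5526.f :=
  frame_of rfl c_5526 (runs_of engOK r_5526_0) (by decide +kernel) h.1 h.2

def F_5527 : FrX :=
  ⟨0x482000044040440000c2040020009000182040000421021001080800080101200200060002080012040419084000408100200210890080004020000208,
    0xa0, 1, 0x2131415482a0, 6,
    [(0xa0, 1), (0x538690a2, 4), (0x548790a1, 4), (0x21437690, 4), (0x538690a2, 4), (0x548790a1, 4)],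
    [(0x2131415482a0, 6), (0x326190a8, 4), (0x537190a4, 4), (0x52768490, 4), (0x326190a8, 4), (0x537190a4, 4)]⟩

def c_5527 : frmChk tA tA F_5527 = true := by decide +kernel

def r_5527_0 : chkL rootF engF2 tA tA sA_457 sA_457 4 F_5527 [(511, 0, 0)]
    0x40f = true := by
  decide +kernel

theorem f_5527 (h : TabsF) : FrameF repsF 457 F_5527.f :=
  frame_of rfl c_5527 (runs_of engOK r_5527_0) (by decide +kernel) h.1 h.1

def F_5528 : FrX :=
  ⟨0x80080a000804040e000021010020010000020408a000020424008810088008200002400002202820a010040203020040202010002082002002011008200,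
    0xa6, 1, 0x2030436274a6, 6,
    [(0xa6, 1), (0x205396a8, 4), (0x10548796, 4), (0x214396a7, 4), (0x205396a8, 4), (0x10548796, 4)],
    [(0x2030436274a6, 6), (0x546390a8, 4), (0x31758290, 4), (0x617490a2, 4), (0x546390a8, 4), (0x31758290, 4)]⟩

def c_5528 : frmChk tA tA F_5528 = true := by decide +kernel

def r_5528_0 : chkL rootF engF2 tA tA sA_457 sA_457 4 F_5528 [(511, 0, 0)]
    0x1 = true := by
  decide +kernel

theorem f_5528 (h : TabsF) : FrameF repsF 457 F_5528.f :=
  frame_of rfl c_5528 (runs_of engOK r_5528_0) (by decide +kernel) h.1 h.1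

def F_5529 : FrX :=
  ⟨0x2002000900044004000e02041000141000800040800400228081204002000c00040081020002050012220280600000801080080084010200400202402001,
    0xa3, 1, 0x102031546182a3, 7,
    [(0xa3, 1), (0x208693a5, 4), (0x10548793, 4), (0x217693a4, 4), (0x208693a5, 4), (0x10548793, 4)],
    [(0x102031546182a3, 7), (0x318290a4, 4), (0x54627190, 4), (0x738690a5, 4), (0x318290a4, 4), (0x54627190, 4)]⟩

def c_5529 : frmChk tA tA F_5529 = true := by decide +kernel

def r_5529_0 : chkL rootF engF2 tA tA sA_457 sA_457 4 F_5529 [(511, 0, 0)]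
    0x1 = true := by
  decide +kernel

theorem f_5529 (h : TabsF) : FrameF repsF 457 F_5529.f :=
  frame_of rfl c_5529 (runs_of engOK r_5529_0) (by decide +kernel) h.1 h.1

def F_5530 : FrX :=
  ⟨0x2002000900044004000e0204100014100080004080040024140840001081004020008802000202800a200426001000400201810040200204040024000201,
    0xa3, 1, 0x10213040617482a8, 8,
    [(0xa3, 1), (0x208693a5, 4), (0x10548793, 4), (0x217693a4, 4), (0x208693a5, 4), (0x10548793, 4)],
    [(0x10213040617482a8, 8), (0x518490a2, 4), (0x647590a3, 4), (0x32718690, 4), (0x518490a2, 4), (0x647590a3, 4)]⟩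

def c_5530 : frmChk tA tA F_5530 = true := by decide +kernel

def r_5530_0 : chkL rootF engF2 tA tA sA_457 sA_457 4 F_5530 [(511, 0, 0)]
    0x1 = true := by
  decide +kernel

theorem f_5530 (h : TabsF) : FrameF repsF 457 F_5530.f :=
  frame_of rfl c_5530 (runs_of engOK r_5530_0) (by decide +kernel) h.1 h.1

def F_5531 : FrX :=
  ⟨0x2002000900044004000e02041000141000800040800a0804800840000801040014008101002008000220028050004800020400a022200200440042024004,
    0xa3, 1, 0x203051607186a1, 7,
    [(0xa3, 1), (0x208693a5, 4), (0x10548793, 4), (0x217693a4, 4), (0x208693a5, 4), (0x10548793, 4)],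
    [(0x203051607186a1, 7), (0x21608397, 4), (0x415397a6, 4), (0x428597a0, 4), (0x21608397, 4), (0x415397a6, 4)]⟩

def c_5531 : frmChk tA tA F_5531 = true := by decide +kernel

def r_5531_0 : chkL rootF engF2 tA tA sA_457 sA_457 4 F_5531 [(511, 0, 0)]
    0x1 = true := by
  decide +kernel

theorem f_5531 (h : TabsF) : FrameF repsF 457 F_5531.f :=
  frame_of rfl c_5531 (runs_of engOK r_5531_0) (by decide +kernel) h.1 h.1

def F_5532 : FrX :=
  ⟨0x80080a000804040e000021010020010000020408a0000802200400809040080141010000042030212024800500101802004002004001000440110008010,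
    0xa6, 1, 0x4354617293a1, 6,
    [(0xa6, 1), (0x205396a8, 4), (0x10548796, 4), (0x214396a7, 4), (0x205396a8, 4), (0x10548796, 4)],
    [(0x4354617293a1, 6), (0x32708591, 4), (0x215364a0, 4), (0x32516498, 4), (0x215364a0, 4), (0x518392a7, 4), (0x64708195, 4), (0x32516498, 4), (0x64708195, 4), (0x315298a0, 4), (0x32516498, 4), (0x518392a7, 4)]⟩

def c_5532 : frmChk tA tB F_5532 = true := by decide +kernel

def r_5532_0 : chkL rootF engF2 tA tB sA_457 sB_457 4 F_5532 [(511, 0, 0)]
    0x42b0ac2b = true := by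
  decide +kernel

theorem f_5532 (h : TabsF) : FrameF repsF 457 F_5532.f :=
  frame_of rfl c_5532 (runs_of engOK r_5532_0) (by decide +kernel) h.1 h.2

def F_5533 : FrX :=
  ⟨0x482000044040440000c2040020009000182040001101002000840800000990008210001028001000040011012188800024000206080082100010800202,
    0xa0, 1, 0x203240548197a3, 7,
    [(0xa0, 1), (0x538690a2, 4), (0x548790a1, 4), (0x21437690, 4), (0x538690a2, 4), (0x548790a1, 4)],
    [(0x203240548197a3, 7), (0x435192a6, 4), (0x52708496, 4), (0x657092a1, 4), (0x52708496, 4), (0x216583a9, 4), (0x436170a5, 4), (0x657092a1, 4), (0x436170a5, 4), (0x628495a1, 4), (0x657092a1, 4), (0x216583a9, 4)]⟩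

def c_5533 : frmChk tA tB F_5533 = true := by decide +kernel

def r_5533_0 : chkL rootF engF2 tA tB sA_457 sB_457 4 F_5533 [(511, 0, 0)]
    0x1 = true := by
  decide +kernel

theorem f_5533 (h : TabsF) : FrameF repsF 457 F_5533.f :=
  frame_of rfl c_5533 (runs_of engOK r_5533_0) (by decide +kernel) h.1 h.2

def F_5534 : FrX :=
  ⟨0x2002000900044004000e0204100014100080004080100024810140010080a00020010010402200048002014022c010200400820010840000044210008200,
    0xa3, 1, 0x204050647582a6, 7,
    [(0xa3, 1), (0x208693a5, 4), (0x10548793, 4), (0x217693a4, 4), (0x208693a5, 4), (0x10548793, 4)],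
    [(0x204050647582a6, 7), (0x738592a0, 4), (0x40517692, 4), (0x638192a4, 4), (0x738592a0, 4), (0x40517692, 4)]⟩

def c_5534 : frmChk tA tA F_5534 = true := by decide +kernel

def r_5534_0 : chkL rootF engF2 tA tA sA_457 sA_457 4 F_5534 [(511, 0, 0)]
    0x1 = true := by
  decide +kernel

theorem f_5534 (h : TabsF) : FrameF repsF 457 F_5534.f :=
  frame_of rfl c_5534 (runs_of engOK r_5534_0) (by decide +kernel) h.1 h.1

def F_5535 : FrX :=
  ⟨0x2002000900044004000e02041000141000800040808000208c20000110012108200020001100009008400011100400801024042040080800040880022050,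
    0xa3, 1, 0x405463748596a6, 7,
    [(0xa3, 1), (0x208693a5, 4), (0x10548793, 4), (0x217693a4, 4), (0x208693a5, 4), (0x10548793, 4)],
    [(0x405463748596a6, 7), (0x428693a0, 4), (0x41508793, 4), (0x217693a5, 4), (0x428693a0, 4), (0x41508793, 4)]⟩

def c_5535 : frmChk tA tA F_5535 = true := by decide +kernel

def r_5535_0 : chkL rootF engF2 tA tA sA_457 sA_457 4 F_5535 [(511, 0, 0)]
    0x1 = true := by
  decide +kernel

theorem f_5535 (h : TabsF) : FrameF repsF 457 F_5535.f :=
  frame_of rfl c_5535 (runs_of engOK r_5535_0) (by decide +kernel) h.1 h.1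

def F_5536 : FrX :=
  ⟨0x80080a000804040e00002101002001000002040880420401208088000810001001004060002080080024e00220200202500040030002201100020020200,
    0xa6, 1, 0x3241547380a8, 6,
    [(0xa6, 1), (0x205396a8, 4), (0x10548796, 4), (0x214396a7, 4), (0x205396a8, 4), (0x10548796, 4)],
    [(0x3241547380a8, 6), (0x718390a6, 4), (0x518490a2, 4), (0x43627590, 4), (0x718390a6, 4), (0x518490a2, 4)]⟩

def c_5536 : frmChk tA tA F_5536 = true := by decide +kernel

def r_5536_0 : chkL rootF engF2 tA tA sA_457 sA_457 4 F_5536 [(511, 0, 0)]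
    0x1 = true := by
  decide +kernel

theorem f_5536 (h : TabsF) : FrameF repsF 457 F_5536.f :=
  frame_of rfl c_5536 (runs_of engOK r_5536_0) (by decide +kernel) h.1 h.1

def F_5537 : FrX :=
  ⟨0x482000044040440000c20400200090001820400010102180042000040208080108001009020004800002000a0a2002080008604001008200220201000a,
    0xa0, 1, 0x314251627483a0, 7,
    [(0xa0, 1), (0x538690a2, 4), (0x548790a1, 4), (0x21437690, 4), (0x538690a2, 4), (0x548790a1, 4)],
    [(0x314251627483a0, 7), (0x418390a6, 4), (0x217390a5, 4), (0x42658790, 4), (0x418390a6, 4), (0x217390a5, 4)]⟩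

def c_5537 : frmChk tA tA F_5537 = true := by decide +kernel

def r_5537_0 : chkL rootF engF2 tA tA sA_457 sA_457 4 F_5537 [(511, 0, 0)]
    0x1 = true := by
  decide +kernel

theorem f_5537 (h : TabsF) : FrameF repsF 457 F_5537.f :=
  frame_of rfl c_5537 (runs_of engOK r_5537_0) (by decide +kernel) h.1 h.1

def F_5538 : FrX :=
  ⟨0x80080a000804040e000021010020010000020408900800003040024042200080084040010080084080028c1000401800042000022002402100902200080,
    0xa6, 1, 0x21314351748595a2, 8,
    [(0xa6, 1), (0x205396a8, 4), (0x10548796, 4), (0x214396a7, 4), (0x205396a8, 4), (0x10548796, 4)],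
    [(0x21314351748595a2, 8), (0x638194a0, 4), (0x32508197, 4), (0x627481a5, 4), (0x638194a0, 4), (0x32508197, 4)]⟩

def c_5538 : frmChk tA tA F_5538 = true := by decide +kernel

def r_5538_0 : chkL rootF engF2 tA tA sA_457 sA_457 4 F_5538 [(511, 0, 0)]
    0x1 = true := by
  decide +kernel

theorem f_5538 (h : TabsF) : FrameF repsF 457 F_5538.f :=
  frame_of rfl c_5538 (runs_of engOK r_5538_0) (by decide +kernel) h.1 h.1

def F_5539 : FrX :=
  ⟨0x80080a000804040e0000210100200100000204088060000810808800001014104100041004008000203032012000100204400802041020c000012020010,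
    0xa6, 1, 0x31738793a0, 5,
    [(0xa6, 1), (0x205396a8, 4), (0x10548796, 4), (0x214396a7, 4), (0x205396a8, 4), (0x10548796, 4)],
    [(0x31738793a0, 5), (0x418596a2, 4), (0x547086a3, 4), (0x64708591, 4), (0x547086a3, 4), (0x32516498, 4), (0x617094a2, 4), (0x64708591, 4), (0x617094a2, 4), (0x658491a3, 4), (0x64708591, 4), (0x32516498, 4)]⟩

def c_5539 : frmChk tA tB F_5539 = true := by decide +kernel

def r_5539_0 : chkL rootF engF2 tA tB sA_457 sB_457 4 F_5539 [(511, 0, 0)]
    0x1 = true := by
  decide +kernel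

theorem f_5539 (h : TabsF) : FrameF repsF 457 F_5539.f :=
  frame_of rfl c_5539 (runs_of engOK r_5539_0) (by decide +kernel) h.1 h.2

def F_5540 : FrX :=
  ⟨0x600020801080810000c0040180410101001004000900808000101400200c010008200822000201002020006010200110000a0400810021000a100c0048,
    0xa0, 1, 0x1061768095a7, 6,
    [(0xa0, 1), (0x637584a2, 4), (0x547690a1, 4), (0x64758390, 4), (0x547690a1, 4), (0x21647385, 4), (0x438690a2, 4), (0x64758390, 4), (0x438690a2, 4), (0x657483a1, 4), (0x64758390, 4), (0x21647385, 4)],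
    [(0x1061768095a7, 6), (0x50718293, 4), (0x508694a1, 4), (0x435062a7, 4), (0x50718293, 4), (0x508694a1, 4)]⟩

def c_5540 : frmChk tB tA F_5540 = true := by decide +kernel

def r_5540_0 : chkL rootF engF2 tB tA sB_457 sA_457 4 F_5540 [(511, 0, 0)]
    0x1 = true := by
  decide +kernel

theorem f_5540 (h : TabsF) : FrameF repsF 457 F_5540.f :=
  frame_of rfl c_5540 (runs_of engOK r_5540_0) (by decide +kernel) h.2 h.1

def F_5541 : FrX :=
  ⟨0x600020801080810000c0040180410101001004002100808400400404200c000208200021002201050028006010100820000a0400100020000a000c0048,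
    0xa0, 1, 0x1032415382a8, 6,
    [(0xa0, 1), (0x637584a2, 4), (0x547690a1, 4), (0x64758390, 4), (0x547690a1, 4), (0x21647385, 4), (0x438690a2, 4), (0x64758390, 4), (0x438690a2, 4), (0x657483a1, 4), (0x64758390, 4), (0x21647385, 4)],
    [(0x1032415382a8, 6), (0x528193a6, 4), (0x204193a7, 4), (0x50768493, 4), (0x528193a6, 4), (0x204193a7, 4)]⟩

def c_5541 : frmChk tB tA F_5541 = true := by decide +kernel

def r_5541_0 : chkL rootF engF2 tB tA sB_457 sA_457 4 F_5541 [(511, 0, 0)]
    0x1 = true := by
  decide +kernel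

theorem f_5541 (h : TabsF) : FrameF repsF 457 F_5541.f :=
  frame_of rfl c_5541 (runs_of engOK r_5541_0) (by decide +kernel) h.2 h.1

def F_5542 : FrX :=
  ⟨0x1c40440000080810000008400804100001010840422001000020220000090008102008990880440009412000480080001000002300880c0004020020200,
    0x0, 0, 0x65a9, 2,
    [(0x0, 0), (0x20637584, 4), (0x105476a9, 4), (0x647583a9, 4), (0x105476a9, 4), (0x21647385, 4), (0x204386a9, 4), (0x647583a9, 4), (0x204386a9, 4), (0x10657483, 4), (0x647583a9, 4), (0x21647385, 4)],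
    [(0x65a9, 2), (0x206385a9, 4), (0x106487a9, 4), (0x214375a9, 4), (0x206385a9, 4), (0x106487a9, 4)]⟩

def c_5542 : frmChk tB tA F_5542 = true := by decide +kernel

def r_5542_0 : chkL rootF engF2 tB tA sB_457 sA_457 4 F_5542 [(511, 0, 0)]
    0x1 = true := by
  decide +kernel

theorem f_5542 (h : TabsF) : FrameF repsF 457 F_5542.f :=
  frame_of rfl c_5542 (runs_of engOK r_5542_0) (by decide +kernel) h.2 h.1

def F_5543 : FrX :=
  ⟨0x1001040012008080000e0084080041000810100004a808004020000100080082808200099080004800841202040000004100201210088081080000040208,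
    0xa3, 1, 0x2131506476a8, 6,
    [(0xa3, 1), (0x207584a6, 4), (0x10547693, 4), (0x647593a8, 4), (0x10547693, 4), (0x216485a7, 4), (0x208693a4, 4), (0x647593a8, 4), (0x208693a4, 4), (0x106574a8, 4), (0x647593a8, 4), (0x216485a7, 4)],
    [(0x2131506476a8, 6), (0x205198a7, 4), (0x536098a4, 4), (0x31627498, 4), (0x205198a7, 4), (0x536098a4, 4)]⟩

def c_5543 : frmChk tB tA F_5543 = true := by decide +kernel

def r_5543_0 : chkL rootF engF2 tB tA sB_457 sA_457 4 F_5543 [(511, 0, 0)]
    0x1 = true := by
  decide +kernel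

theorem f_5543 (h : TabsF) : FrameF repsF 457 F_5543.f :=
  frame_of rfl c_5543 (runs_of engOK r_5543_0) (by decide +kernel) h.2 h.1

def F_5544 : FrX :=
  ⟨0x1001040012008080000e008408004100081010000600000480404002201800802801008001001102400414008000102020000a0180100001108408011090,
    0xa3, 1, 0x103240628194a0, 7,
    [(0xa3, 1), (0x207584a6, 4), (0x10547693, 4), (0x647593a8, 4), (0x10547693, 4), (0x216485a7, 4), (0x208693a4, 4), (0x647593a8, 4), (0x208693a4, 4), (0x106574a8, 4), (0x647593a8, 4), (0x216485a7, 4)],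
    [(0x103240628194a0, 7), (0x304152a6, 4), (0x417095a8, 4), (0x41738692, 4), (0x304152a6, 4), (0x417095a8, 4)]⟩

def c_5544 : frmChk tB tA F_5544 = true := by decide +kernel

def r_5544_0 : chkL rootF engF2 tB tA sB_457 sA_457 4 F_5544 [(511, 0, 0)]
    0x1 = true := by
  decide +kernel

theorem f_5544 (h : TabsF) : FrameF repsF 457 F_5544.f :=
  frame_of rfl c_5544 (runs_of engOK r_5544_0) (by decide +kernel) h.2 h.1

def F_5545 : FrX :=
  ⟨0x600020801080810000c004018041010100100401001004800000820814200208040008080044200040011088000880084100012000400044140011010a,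
    0xa0, 1, 0x5064728193a0, 6,
    [(0xa0, 1), (0x637584a2, 4), (0x547690a1, 4), (0x64758390, 4), (0x547690a1, 4), (0x21647385, 4), (0x438690a2, 4), (0x64758390, 4), (0x438690a2, 4), (0x657483a1, 4), (0x64758390, 4), (0x21647385, 4)],
    [(0x5064728193a0, 6), (0x206194a7, 4), (0x425360a8, 4), (0x20536491, 4), (0x425360a8, 4), (0x10648792, 4), (0x415396a7, 4), (0x20536491, 4), (0x415396a7, 4), (0x406291a8, 4), (0x20536491, 4), (0x10648792, 4)]⟩

def c_5545 : frmChk tB tB F_5545 = true := by decide +kernel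

def r_5545_0 : chkL rootF engF2 tB tB sB_457 sB_457 4 F_5545 [(511, 0, 0)]
    0x1 = true := by
  decide +kernel

theorem f_5545 (h : TabsF) : FrameF repsF 457 F_5545.f :=
  frame_of rfl c_5545 (runs_of engOK r_5545_0) (by decide +kernel) h.2 h.2

def F_5546 : FrX :=
  ⟨0x80080a000804040e000021010020010000020408a0002000300110008224001400100400022081010048101014010400240400030008408004101008080,
    0xa6, 1, 0x2142546092a0, 6,
    [(0xa6, 1), (0x205396a8, 4), (0x10548796, 4), (0x214396a7, 4), (0x205396a8, 4), (0x10548796, 4)],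
    [(0x2142546092a0, 6), (0x316480a9, 4), (0x516487a2, 4), (0x53647092, 4), (0x316480a9, 4), (0x516487a2, 4)]⟩

def c_5546 : frmChk tA tA F_5546 = true := by decide +kernel

def r_5546_0 : chkL rootF engF2 tA tA sA_457 sA_457 4 F_5546 [(511, 0, 0)]
    0x1 = true := by
  decide +kernel

theorem f_5546 (h : TabsF) : FrameF repsF 457 F_5546.f :=
  frame_of rfl c_5546 (runs_of engOK r_5546_0) (by decide +kernel) h.1 h.1

def F_5547 : FrX :=
  ⟨0x2002000900044004000e02041000141000800040801000282010100141000182000028020002020014040811012000040300082010080808100011082001,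
    0xa3, 1, 0x203240536098a2, 7,
    [(0xa3, 1), (0x208693a5, 4), (0x10548793, 4), (0x217693a4, 4), (0x208693a5, 4), (0x10548793, 4)],
    [(0x203240536098a2, 7), (0x508394a6, 4), (0x20618397, 4), (0x527483a1, 4), (0x508394a6, 4), (0x20618397, 4)]⟩

def c_5547 : frmChk tA tA F_5547 = true := by decide +kernel

def r_5547_0 : chkL rootF engF2 tA tA sA_457 sA_457 4 F_5547 [(511, 0, 0)]
    0x1 = true := by
  decide +kernel

theorem f_5547 (h : TabsF) : FrameF repsF 457 F_5547.f :=
  frame_of rfl c_5547 (runs_of engOK r_5547_0) (by decide +kernel) h.1 h.1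

def F_5548 : FrX :=
  ⟨0x482000044040440000c2040020009000182040001100408001200020000c040208800600020200020204206010800c0080090006200602400002800008,
    0xa0, 1, 0x4352618098a4, 6,
    [(0xa0, 1), (0x538690a2, 4), (0x548790a1, 4), (0x21437690, 4), (0x538690a2, 4), (0x548790a1, 4)],
    [(0x4352618098a4, 6), (0x30428591, 4), (0x308697a2, 4), (0x306571a4, 4), (0x30428591, 4), (0x308697a2, 4)]⟩

def c_5548 : frmChk tA tA F_5548 = true := by decide +kernel

def r_5548_0 : chkL rootF engF2 tA tA sA_457 sA_457 4 F_5548 [(511, 0, 0)]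
    0x1 = true := by
  decide +kernel

theorem f_5548 (h : TabsF) : FrameF repsF 457 F_5548.f :=
  frame_of rfl c_5548 (runs_of engOK r_5548_0) (by decide +kernel) h.1 h.1

def F_5549 : FrX :=
  ⟨0x2002000900044004000e02041000141000800040801000282000a02002002200040022201400901024802080408048800000082010800200202210082000,
    0xa3, 1, 0x203161728796a3, 7,
    [(0xa3, 1), (0x208693a5, 4), (0x10548793, 4), (0x217693a4, 4), (0x208693a5, 4), (0x10548793, 4)],
    [(0x203161728796a3, 7), (0x317290a5, 4), (0x31546280, 4), (0x317698a4, 4), (0x317290a5, 4), (0x31546280, 4)]⟩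

def c_5549 : frmChk tA tA F_5549 = true := by decide +kernel

def r_5549_0 : chkL rootF engF2 tA tA sA_457 sA_457 4 F_5549 [(511, 0, 0)]
    0x1 = true := by
  decide +kernel

theorem f_5549 (h : TabsF) : FrameF repsF 457 F_5549.f :=
  frame_of rfl c_5549 (runs_of engOK r_5549_0) (by decide +kernel) h.1 h.1

def F_5550 : FrX :=
  ⟨0x482000044040440000c2040020009000182040010040100101000180020802808080410005040802025200212001040084008000600202002000010410,
    0xa0, 1, 0x2151718094a8, 6,
    [(0xa0, 1), (0x538690a2, 4), (0x548790a1, 4), (0x21437690, 4), (0x538690a2, 4), (0x548790a1, 4)],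
    [(0x2151718094a8, 6), (0x526381a9, 4), (0x40658792, 4), (0x405296a3, 4), (0x40658792, 4), (0x537196a2, 4), (0x408193a6, 4), (0x405296a3, 4), (0x408193a6, 4), (0x628795a3, 4), (0x405296a3, 4), (0x537196a2, 4)]⟩

def c_5550 : frmChk tA tB F_5550 = true := by decide +kernel

def r_5550_0 : chkL rootF engF2 tA tB sA_457 sB_457 4 F_5550 [(511, 0, 0)]
    0x1 = true := by
  decide +kernel

theorem f_5550 (h : TabsF) : FrameF repsF 457 F_5550.f :=
  frame_of rfl c_5550 (runs_of engOK r_5550_0) (by decide +kernel) h.1 h.2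

def F_5551 : FrX :=
  ⟨0x2002000900044004000e02041000141000800040810000041408008030810041200008004002009008600086001020000201810040000220040220020281,
    0xa3, 1, 0x103250638797a2, 7,
    [(0xa3, 1), (0x208693a5, 4), (0x10548793, 4), (0x217693a4, 4), (0x208693a5, 4), (0x10548793, 4)],
    [(0x103250638797a2, 7), (0x617283a5, 4), (0x41508397, 4), (0x648392a0, 4), (0x617283a5, 4), (0x41508397, 4)]⟩

def c_5551 : frmChk tA tA F_5551 = true := by decide +kernel

def r_5551_0 : chkL rootF engF2 tA tA sA_457 sA_457 4 F_5551 [(511, 0, 0)]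
    0x1 = true := by
  decide +kernel

theorem f_5551 (h : TabsF) : FrameF repsF 457 F_5551.f :=
  frame_of rfl c_5551 (runs_of engOK r_5551_0) (by decide +kernel) h.1 h.1

def F_5552 : FrX :=
  ⟨0x482000044040440000c2040020009000182040000502000301080800000c08004820000902008404200018601010400010010006040420000a00800048,
    0xa0, 1, 0x2132435381a0, 6,
    [(0xa0, 1), (0x538690a2, 4), (0x548790a1, 4), (0x21437690, 4), (0x538690a2, 4), (0x548790a1, 4)],
    [(0x2132435381a0, 6), (0x546290a3, 4), (0x417290a8, 4), (0x51768390, 4), (0x546290a3, 4), (0x417290a8, 4)]⟩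

def c_5552 : frmChk tA tA F_5552 = true := by decide +kernel

def r_5552_0 : chkL rootF engF2 tA tA sA_457 sA_457 4 F_5552 [(511, 0, 0)]
    0x40f = true := by
  decide +kernel

theorem f_5552 (h : TabsF) : FrameF repsF 457 F_5552.f :=
  frame_of rfl c_5552 (runs_of engOK r_5552_0) (by decide +kernel) h.1 h.1

def F_5553 : FrX :=
  ⟨0x2002000900044004000e02041000141000800040801000282000a020008120020000222011101010202200c0018060040000082010800208002210082000,
    0xa3, 1, 0x405061708297a6, 7,
    [(0xa3, 1), (0x208693a5, 4), (0x10548793, 4), (0x217693a4, 4), (0x208693a5, 4), (0x10548793, 4)],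
    [(0x405061708297a6, 7), (0x435187a2, 4), (0x40517692, 4), (0x305186a9, 4), (0x435187a2, 4), (0x40517692, 4)]⟩

def c_5553 : frmChk tA tA F_5553 = true := by decide +kernel

def r_5553_0 : chkL rootF engF2 tA tA sA_457 sA_457 4 F_5553 [(511, 0, 0)]
    0x1 = true := by
  decide +kernel

theorem f_5553 (h : TabsF) : FrameF repsF 457 F_5553.f :=
  frame_of rfl c_5553 (runs_of engOK r_5553_0) (by decide +kernel) h.1 h.1

def F_5554 : FrX :=
  ⟨0x2002000900044004000e02041000141000800040801000282020002100012102800020210100061000240011012000040300082010080808004011082001,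
    0xa3, 1, 0x21324161708295a3, 8,
    [(0xa3, 1), (0x208693a5, 4), (0x10548793, 4), (0x217693a4, 4), (0x208693a5, 4), (0x10548793, 4)],
    [(0x21324161708295a3, 8), (0x328790a4, 4), (0x40517692, 4), (0x425190a3, 4), (0x40517692, 4), (0x428693a0, 4), (0x435187a2, 4), (0x425190a3, 4), (0x435187a2, 4), (0x207694a3, 4), (0x425190a3, 4), (0x428693a0, 4)]⟩

def c_5554 : frmChk tA tB F_5554 = true := by decide +kernel

def r_5554_0 : chkL rootF engF2 tA tB sA_457 sB_457 4 F_5554 [(511, 0, 0)]
    0x1 = true := by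
  decide +kernel

theorem f_5554 (h : TabsF) : FrameF repsF 457 F_5554.f :=
  frame_of rfl c_5554 (runs_of engOK r_5554_0) (by decide +kernel) h.1 h.2

def F_5555 : FrX :=
  ⟨0x2002000900044004000e020410001410008000408010002820101001410001820000280009020002240004004000480421000820108800202420100c2000,
    0xa3, 1, 0x203240536098a2, 7,
    [(0xa3, 1), (0x208693a5, 4), (0x10548793, 4), (0x217693a4, 4), (0x208693a5, 4), (0x10548793, 4)],
    [(0x203240536098a2, 7), (0x508394a6, 4), (0x20618397, 4), (0x527483a1, 4), (0x508394a6, 4), (0x20618397, 4)]⟩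

def c_5555 : frmChk tA tA F_5555 = true := by decide +kernel

def r_5555_0 : chkL rootF engF2 tA tA sA_457 sA_457 4 F_5555 [(511, 0, 0)]
    0x1 = true := by
  decide +kernel

theorem f_5555 (h : TabsF) : FrameF repsF 457 F_5555.f :=
  frame_of rfl c_5555 (runs_of engOK r_5555_0) (by decide +kernel) h.1 h.1

def F_5556 : FrX :=
  ⟨0x2002000900044004000e0204100014100080004080080024800120200a000c00040081000888000812000200400048800080202086010200401202422000,
    0xa3, 1, 0x5264708391a3, 6,
    [(0xa3, 1), (0x208693a5, 4), (0x10548793, 4), (0x217693a4, 4), (0x208693a5, 4), (0x10548793, 4)],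
    [(0x5264708391a3, 6), (0x437581a2, 4), (0x30628197, 4), (0x408195a6, 4), (0x437581a2, 4), (0x30628197, 4)]⟩

def c_5556 : frmChk tA tA F_5556 = true := by decide +kernel

def r_5556_0 : chkL rootF engF2 tA tA sA_457 sA_457 4 F_5556 [(511, 0, 0)]
    0x1 = true := by
  decide +kernel

theorem f_5556 (h : TabsF) : FrameF repsF 457 F_5556.f :=
  frame_of rfl c_5556 (runs_of engOK r_5556_0) (by decide +kernel) h.1 h.1

def F_5557 : FrX :=
  ⟨0x482000044040440000c2040020009000182040002102000101200008000c048048800008820002020000206040010c0080010006200502400802210008,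
    0xa0, 1, 0x30618291a4, 5,
    [(0xa0, 1), (0x538690a2, 4), (0x548790a1, 4), (0x21437690, 4), (0x538690a2, 4), (0x548790a1, 4)],
    [(0x30618291a4, 5), (0x107583a2, 4), (0x647193a5, 4), (0x206475a1, 4), (0x647193a5, 4), (0x527098a1, 4), (0x216483a0, 4), (0x206475a1, 4), (0x216483a0, 4), (0x205193a7, 4), (0x206475a1, 4), (0x527098a1, 4)]⟩

def c_5557 : frmChk tA tB F_5557 = true := by decide +kernel

def r_5557_0 : chkL rootF engF2 tA tB sA_457 sB_457 4 F_5557 [(511, 0, 0)]
    0x1 = true := by
  decide +kernel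

theorem f_5557 (h : TabsF) : FrameF repsF 457 F_5557.f :=
  frame_of rfl c_5557 (runs_of engOK r_5557_0) (by decide +kernel) h.1 h.2

def F_5558 : FrX :=
  ⟨0x2002000900044004000e02041000141000800040800800248008400009010c0004008101008002080230020050004800020100a082100240400202020004,
    0xa3, 1, 0x213162768194a6, 7,
    [(0xa3, 1), (0x208693a5, 4), (0x10548793, 4), (0x217693a4, 4), (0x208693a5, 4), (0x10548793, 4)],
    [(0x213162768194a6, 7), (0x526074a3, 4), (0x31748095, 4), (0x748692a1, 4), (0x526074a3, 4), (0x31748095, 4)]⟩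

def c_5558 : frmChk tA tA F_5558 = true := by decide +kernel

def r_5558_0 : chkL rootF engF2 tA tA sA_457 sA_457 4 F_5558 [(511, 0, 0)]
    0x1 = true := by
  decide +kernel

theorem f_5558 (h : TabsF) : FrameF repsF 457 F_5558.f :=
  frame_of rfl c_5558 (runs_of engOK r_5558_0) (by decide +kernel) h.1 h.1

def F_5559 : FrX :=
  ⟨0x2002000900044004000e02041000141000800040800804008080a040010104001400810200020328020202a0600000802080080084000200440202002001,
    0xa3, 1, 0x4253728196a7, 6,
    [(0xa3, 1), (0x208693a5, 4), (0x10548793, 4), (0x217693a4, 4), (0x208693a5, 4), (0x10548793, 4)],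
    [(0x4253728196a7, 6), (0x217095a3, 4), (0x326480a9, 4), (0x516492a3, 4), (0x326480a9, 4), (0x318792a5, 4), (0x52647091, 4), (0x516492a3, 4), (0x52647091, 4), (0x518093a2, 4), (0x516492a3, 4), (0x318792a5, 4)]⟩

def c_5559 : frmChk tA tB F_5559 = true := by decide +kernel

def r_5559_0 : chkL rootF engF2 tA tB sA_457 sB_457 4 F_5559 [(511, 0, 0)]
    0x1 = true := by
  decide +kernel

theorem f_5559 (h : TabsF) : FrameF repsF 457 F_5559.f :=
  frame_of rfl c_5559 (runs_of engOK r_5559_0) (by decide +kernel) h.1 h.2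

def F_5560 : FrX :=
  ⟨0x1c21020000040440000020410001010000820408a0001100000024200400a02000088040102009008080524204010400304000022050020002024200200,
    0x0, 0, 0x21436575, 4,
    [(0x0, 0), (0x205386a9, 4), (0x105487a9, 4), (0x214376a9, 4), (0x205386a9, 4), (0x105487a9, 4)],
    [(0x21436575, 4), (0x10547683, 4), (0x206573a9, 4), (0x537684a9, 4), (0x206573a9, 4), (0x21536487, 4), (0x104385a9, 4), (0x537684a9, 4), (0x104385a9, 4), (0x20637584, 4), (0x537684a9, 4), (0x21536487, 4)]⟩

def c_5560 : frmChk tA tB F_5560 = true := by decide +kernel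

def r_5560_0 : chkL rootF engF2 tA tB sA_457 sB_457 4 F_5560 [(511, 0, 0)]
    0x1 = true := by
  decide +kernel

theorem f_5560 (h : TabsF) : FrameF repsF 457 F_5560.f :=
  frame_of rfl c_5560 (runs_of engOK r_5560_0) (by decide +kernel) h.1 h.2

theorem cl_457 (h : TabsF) : ∀ f ∈ fr_457, FrameF repsF 457 f :=
  List.forall_mem_cons.2 ⟨f_5525 h, List.forall_mem_cons.2 ⟨f_5526 h, List.forall_mem_cons.2 ⟨f_5527 h, List.forall_mem_cons.2 ⟨f_5528 h, List.forall_mem_cons.2 ⟨f_5529 h, List.forall_mem_cons.2 ⟨f_5530 h, List.forall_mem_cons.2 ⟨f_5531 h, List.forall_mem_cons.2 ⟨f_5532 h, List.forall_mem_cons.2 ⟨f_5533 h, List.forall_mem_cons.2 ⟨f_5534 h, List.forall_mem_cons.2 ⟨f_5535 h, List.forall_mem_cons.2 ⟨f_5536 h, List.forall_mem_cons.2 ⟨f_5537 h, List.forall_mem_cons.2 ⟨f_5538 h, List.forall_mem_cons.2 ⟨f_5539 h, List.forall_mem_cons.2 ⟨f_5540 h, List.forall_mem_cons.2 ⟨f_5541 h, List.forall_mem_cons.2 ⟨f_5542 h, List.forall_mem_cons.2 ⟨f_5543 h, List.forall_mem_cons.2 ⟨f_5544 h, List.forall_mem_cons.2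 ⟨f_5545 h, List.forall_mem_cons.2 ⟨f_5546 h, List.forall_mem_cons.2 ⟨f_5547 h, List.forall_mem_cons.2 ⟨f_5548 h, List.forall_mem_cons.2 ⟨f_5549 h, List.forall_mem_cons.2 ⟨f_5550 h, List.forall_mem_cons.2 ⟨f_5551 h, List.forall_mem_cons.2 ⟨f_5552 h, List.forall_mem_cons.2 ⟨f_5553 h, List.forall_mem_cons.2 ⟨f_5554 h, List.forall_mem_cons.2 ⟨f_5555 h, List.forall_mem_cons.2 ⟨f_5556 h, List.forall_mem_cons.2 ⟨f_5557 h, List.forall_mem_cons.2 ⟨f_5558 h, List.forall_mem_cons.2 ⟨f_5559 h, List.forall_mem_cons.2 ⟨f_5560 h,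
    fun _ h0 => absurd h0 List.not_mem_nil⟩⟩⟩⟩⟩⟩⟩⟩⟩⟩⟩⟩⟩⟩⟩⟩⟩⟩⟩⟩⟩⟩⟩⟩⟩⟩⟩⟩⟩⟩⟩⟩⟩⟩⟩⟩

def F_5561 : FrX :=
  ⟨0x2002000900044004000e02041000141000800040810000048180802402001400140080010000048802020208500010002040220006000210440242000011,
    0xa3, 1, 0x1032526484a3, 6,
    [(0xa3, 1), (0x208693a5, 4), (0x10548793, 4), (0x217693a4, 4), (0x208693a5, 4), (0x10548793, 4)],
    [(0x1032526484a3, 6), (0x516492a3, 4), (0x10768392, 4), (0x507492a8, 4), (0x516492a3, 4), (0x10768392, 4)]⟩

def c_5561 : frmChk tA tA F_5561 = true := by decide +kernel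

def r_5561_0 : chkL rootF engF2 tA tA sA_458 sA_458 4 F_5561 [(511, 0, 0)]
    0x1 = true := by
  decide +kernel

theorem f_5561 (h : TabsF) : FrameF repsF 458 F_5561.f :=
  frame_of rfl c_5561 (runs_of engOK r_5561_0) (by decide +kernel) h.1 h.1

def F_5562 : FrX :=
  ⟨0x2002000900044004000e0204100014100080004080040204041002011080104200008800408200020a0000460004500002800100410800100440802200c0,
    0xa3, 1, 0x324261768490a4, 7,
    [(0xa3, 1), (0x208693a5, 4), (0x10548793, 4), (0x217693a4, 4), (0x208693a5, 4), (0x10548793, 4)],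
    [(0x324261768490a4, 7), (0x517294a3, 4), (0x718096a5, 4), (0x325180a7, 4), (0x718096a5, 4), (0x215364a7, 4), (0x738094a2, 4), (0x325180a7, 4), (0x738094a2, 4), (0x327596a1, 4), (0x325180a7, 4), (0x215364a7, 4)]⟩

def c_5562 : frmChk tA tB F_5562 = true := by decide +kernel

def r_5562_0 : chkL rootF engF2 tA tB sA_458 sB_458 4 F_5562 [(511, 0, 0)]
    0x1 = true := by
  decide +kernel

theorem f_5562 (h : TabsF) : FrameF repsF 458 F_5562.f :=
  frame_of rfl c_5562 (runs_of engOK r_5562_0) (by decide +kernel) h.1 h.2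

def F_5563 : FrX :=
  ⟨0x80080a000804040e0000210100200100000204088101040804840002082000000850102000202000a010040200440400202090022002210082017000000,
    0xa6, 1, 0x3142516271a3, 6,
    [(0xa6, 1), (0x205396a8, 4), (0x10548796, 4), (0x214396a7, 4), (0x205396a8, 4), (0x10548796, 4)],
    [(0x3142516271a3, 6), (0x608491a3, 4), (0x32708591, 4), (0x547691a2, 4), (0x608491a3, 4), (0x32708591, 4)]⟩

def c_5563 : frmChk tA tA F_5563 = true := by decide +kernel

def r_5563_0 : chkL rootF engF2 tA tA sA_458 sA_458 4 F_5563 [(511, 0, 0)]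
    0x1 = true := by
  decide +kernel

theorem f_5563 (h : TabsF) : FrameF repsF 458 F_5563.f :=
  frame_of rfl c_5563 (runs_of engOK r_5563_0) (by decide +kernel) h.1 h.1

def F_5564 : FrX :=
  ⟨0x80080a000804040e00002101002001000002040882200002088024000040084041012010040008002022800600302001100101084003010480010208000,
    0xa6, 1, 0x10415360758298a3, 8,
    [(0xa6, 1), (0x205396a8, 4), (0x10548796, 4), (0x214396a7, 4), (0x205396a8, 4), (0x10548796, 4)],
    [(0x10415360758298a3, 8), (0x528691a7, 4), (0x52647093, 4), (0x315284a0, 4), (0x528691a7, 4), (0x52647093, 4)]⟩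

def c_5564 : frmChk tA tA F_5564 = true := by decide +kernel

def r_5564_0 : chkL rootF engF2 tA tA sA_458 sA_458 4 F_5564 [(511, 0, 0)]
    0x1 = true := by
  decide +kernel

theorem f_5564 (h : TabsF) : FrameF repsF 458 F_5564.f :=
  frame_of rfl c_5564 (runs_of engOK r_5564_0) (by decide +kernel) h.1 h.1

def F_5565 : FrX :=
  ⟨0x482000044040440000c2040020009000182040020001100100200084024022008080400088018112000200022208108010010040200202002041010202,
    0xa0, 1, 0x1030405163728195a6, 9,
    [(0xa0, 1), (0x538690a2, 4), (0x548790a1, 4), (0x21437690, 4), (0x538690a2, 4), (0x548790a1, 4)],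
    [(0x1030405163728195a6, 9), (0x107496a5, 4), (0x10528493, 4), (0x106387a2, 4), (0x107496a5, 4), (0x10528493, 4)]⟩

def c_5565 : frmChk tA tA F_5565 = true := by decide +kernel

def r_5565_0 : chkL rootF engF2 tA tA sA_458 sA_458 4 F_5565 [(511, 0, 0)]
    0x1 = true := by
  decide +kernel

theorem f_5565 (h : TabsF) : FrameF repsF 458 F_5565.f :=
  frame_of rfl c_5565 (runs_of engOK r_5565_0) (by decide +kernel) h.1 h.1

def F_5566 : FrX :=
  ⟨0x80080a000804040e00002101002001000002040890080000304010008410001040208410000084400028400434002008041001030010121004100028000,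
    0xa6, 1, 0x21304152638594a0, 8,
    [(0xa6, 1), (0x205396a8, 4), (0x10548796, 4), (0x214396a7, 4), (0x205396a8, 4), (0x10548796, 4)],
    [(0x21304152638594a0, 8), (0x103286a5, 4), (0x327198a4, 4), (0x32547096, 4), (0x103286a5, 4), (0x327198a4, 4)]⟩

def c_5566 : frmChk tA tA F_5566 = true := by decide +kernel

def r_5566_0 : chkL rootF engF2 tA tA sA_458 sA_458 4 F_5566 [(511, 0, 0)]
    0x1 = true := by
  decide +kernel

theorem f_5566 (h : TabsF) : FrameF repsF 458 F_5566.f :=
  frame_of rfl c_5566 (runs_of engOK r_5566_0) (by decide +kernel) h.1 h.1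

def F_5567 : FrX :=
  ⟨0x2002000900044004000e0204100014100080004080100028202000210000c08444000011010000500042001043800000a100082030041020002010082001,
    0xa3, 1, 0x104051628396a2, 7,
    [(0xa3, 1), (0x208693a5, 4), (0x10548793, 4), (0x217693a4, 4), (0x208693a5, 4), (0x10548793, 4)],
    [(0x104051628396a2, 7), (0x317098a4, 4), (0x10546297, 4), (0x62708391, 4), (0x10546297, 4), (0x308791a5, 4), (0x628193a4, 4), (0x62708391, 4), (0x628193a4, 4), (0x54718390, 4), (0x62708391, 4), (0x308791a5, 4)]⟩

def c_5567 : frmChk tA tB F_5567 = true := by decide +kernel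

def r_5567_0 : chkL rootF engF2 tA tB sA_458 sB_458 4 F_5567 [(511, 0, 0)]
    0x1 = true := by
  decide +kernel

theorem f_5567 (h : TabsF) : FrameF repsF 458 F_5567.f :=
  frame_of rfl c_5567 (runs_of engOK r_5567_0) (by decide +kernel) h.1 h.2

def F_5568 : FrX :=
  ⟨0x482000044040440000c2040020009000182040001101002000840800000990008210001028001000040011c04108800024000206080082100010800006,
    0xa0, 1, 0x203240548197a3, 7,
    [(0xa0, 1), (0x538690a2, 4), (0x548790a1, 4), (0x21437690, 4), (0x538690a2, 4), (0x548790a1, 4)],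
    [(0x203240548197a3, 7), (0x435192a6, 4), (0x52708496, 4), (0x657092a1, 4), (0x52708496, 4), (0x216583a9, 4), (0x436170a5, 4), (0x657092a1, 4), (0x436170a5, 4), (0x628495a1, 4), (0x657092a1, 4), (0x216583a9, 4)]⟩

def c_5568 : frmChk tA tB F_5568 = true := by decide +kernel

def r_5568_0 : chkL rootF engF2 tA tB sA_458 sB_458 4 F_5568 [(511, 0, 0)]
    0x1 = true := by
  decide +kernel

theorem f_5568 (h : TabsF) : FrameF repsF 458 F_5568.f :=
  frame_of rfl c_5568 (runs_of engOK r_5568_0) (by decide +kernel) h.1 h.2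

def F_5569 : FrX :=
  ⟨0x2002000900044004000e02041000141000800040808000202820000110012108200024001100009008400013800400801024042040080800040880020050,
    0xa3, 1, 0x2131406290a6, 6,
    [(0xa3, 1), (0x208693a5, 4), (0x10548793, 4), (0x217693a4, 4), (0x208693a5, 4), (0x10548793, 4)],
    [(0x2131406290a6, 6), (0x415296a8, 4), (0x41508793, 4), (0x204163a7, 4), (0x415296a8, 4), (0x41508793, 4)]⟩

def c_5569 : frmChk tA tA F_5569 = true := by decide +kernel

def r_5569_0 : chkL rootF engF2 tA tA sA_458 sA_458 4 F_5569 [(511, 0, 0)]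
    0x1 = true := by
  decide +kernel

theorem f_5569 (h : TabsF) : FrameF repsF 458 F_5569.f :=
  frame_of rfl c_5569 (runs_of engOK r_5569_0) (by decide +kernel) h.1 h.1

def F_5570 : FrX :=
  ⟨0x80080a000804040e00002101002001000002040880420401208088000810001001004060002080080028200028200202500040030002201100061020200,
    0xa6, 1, 0x3241547380a8, 6,
    [(0xa6, 1), (0x205396a8, 4), (0x10548796, 4), (0x214396a7, 4), (0x205396a8, 4), (0x10548796, 4)],
    [(0x3241547380a8, 6), (0x718390a6, 4), (0x518490a2, 4), (0x43627590, 4), (0x718390a6, 4), (0x518490a2, 4)]⟩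

def c_5570 : frmChk tA tA F_5570 = true := by decide +kernel

def r_5570_0 : chkL rootF engF2 tA tA sA_458 sA_458 4 F_5570 [(511, 0, 0)]
    0x1 = true := by
  decide +kernel

theorem f_5570 (h : TabsF) : FrameF repsF 458 F_5570.f :=
  frame_of rfl c_5570 (runs_of engOK r_5570_0) (by decide +kernel) h.1 h.1

def F_5571 : FrX :=
  ⟨0x482000044040440000c204002000900018204000101021800420000402080801080010090200048000020020a220020800086040010082002202010082,
    0xa0, 1, 0x314251627483a0, 7,
    [(0xa0, 1), (0x538690a2, 4), (0x548790a1, 4), (0x21437690, 4), (0x538690a2, 4), (0x548790a1, 4)],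
    [(0x314251627483a0, 7), (0x418390a6, 4), (0x217390a5, 4), (0x42658790, 4), (0x418390a6, 4), (0x217390a5, 4)]⟩

def c_5571 : frmChk tA tA F_5571 = true := by decide +kernel

def r_5571_0 : chkL rootF engF2 tA tA sA_458 sA_458 4 F_5571 [(511, 0, 0)]
    0x1 = true := by
  decide +kernel

theorem f_5571 (h : TabsF) : FrameF repsF 458 F_5571.f :=
  frame_of rfl c_5571 (runs_of engOK r_5571_0) (by decide +kernel) h.1 h.1

def F_5572 : FrX :=
  ⟨0x80080a000804040e00002101002001000002040890080000304002404220008008404001008008408010081804401800042000022002402100802a00080,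
    0xa6, 1, 0x21314351748595a2, 8,
    [(0xa6, 1), (0x205396a8, 4), (0x10548796, 4), (0x214396a7, 4), (0x205396a8, 4), (0x10548796, 4)],
    [(0x21314351748595a2, 8), (0x638194a0, 4), (0x32508197, 4), (0x627481a5, 4), (0x638194a0, 4), (0x32508197, 4)]⟩

def c_5572 : frmChk tA tA F_5572 = true := by decide +kernel

def r_5572_0 : chkL rootF engF2 tA tA sA_458 sA_458 4 F_5572 [(511, 0, 0)]
    0x1 = true := by
  decide +kernel

theorem f_5572 (h : TabsF) : FrameF repsF 458 F_5572.f :=
  frame_of rfl c_5572 (runs_of engOK r_5572_0) (by decide +kernel) h.1 h.1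

def F_5573 : FrX :=
  ⟨0x80080a000804040e000021010020010000020408806000081080880000101410410004100400800020282005a000100204400802041020c000082020010,
    0xa6, 1, 0x31738793a0, 5,
    [(0xa6, 1), (0x205396a8, 4), (0x10548796, 4), (0x214396a7, 4), (0x205396a8, 4), (0x10548796, 4)],
    [(0x31738793a0, 5), (0x418596a2, 4), (0x547086a3, 4), (0x64708591, 4), (0x547086a3, 4), (0x32516498, 4), (0x617094a2, 4), (0x64708591, 4), (0x617094a2, 4), (0x658491a3, 4), (0x64708591, 4), (0x32516498, 4)]⟩

def c_5573 : frmChk tA tB F_5573 = true := by decide +kernel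

def r_5573_0 : chkL rootF engF2 tA tB sA_458 sB_458 4 F_5573 [(511, 0, 0)]
    0x1 = true := by
  decide +kernel

theorem f_5573 (h : TabsF) : FrameF repsF 458 F_5573.f :=
  frame_of rfl c_5573 (runs_of engOK r_5573_0) (by decide +kernel) h.1 h.2

def F_5574 : FrX :=
  ⟨0x600020801080810000c0040180410101001004002100802000400404200c000208240021002201002028006010100820000a0400100020080a000c0048,
    0xa0, 1, 0x203052758391a4, 7,
    [(0xa0, 1), (0x637584a2, 4), (0x547690a1, 4), (0x64758390, 4), (0x547690a1, 4), (0x21647385, 4), (0x438690a2, 4), (0x64758390, 4), (0x438690a2, 4), (0x657483a1, 4), (0x64758390, 4), (0x21647385, 4)],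
    [(0x203052758391a4, 7), (0x41536287, 4), (0x204193a7, 4), (0x416095a8, 4), (0x41536287, 4), (0x204193a7, 4)]⟩

def c_5574 : frmChk tB tA F_5574 = true := by decide +kernel

def r_5574_0 : chkL rootF engF2 tB tA sB_458 sA_458 4 F_5574 [(511, 0, 0)]
    0x1 = true := by
  decide +kernel

theorem f_5574 (h : TabsF) : FrameF repsF 458 F_5574.f :=
  frame_of rfl c_5574 (runs_of engOK r_5574_0) (by decide +kernel) h.2 h.1

def F_5575 : FrX :=
  ⟨0x1c40440000080810000008400804100001010840422001000020220000090008102008900881400001612000480080083000002300880c0004020020200,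
    0x0, 0, 0x65a9, 2,
    [(0x0, 0), (0x20637584, 4), (0x105476a9, 4), (0x647583a9, 4), (0x105476a9, 4), (0x21647385, 4), (0x204386a9, 4), (0x647583a9, 4), (0x204386a9, 4), (0x10657483, 4), (0x647583a9, 4), (0x21647385, 4)],
    [(0x65a9, 2), (0x206385a9, 4), (0x106487a9, 4), (0x214375a9, 4), (0x206385a9, 4), (0x106487a9, 4)]⟩

def c_5575 : frmChk tB tA F_5575 = true := by decide +kernel

def r_5575_0 : chkL rootF engF2 tB tA sB_458 sA_458 4 F_5575 [(511, 0, 0)]
    0x1 = true := by
  decide +kernel

theorem f_5575 (h : TabsF) : FrameF repsF 458 F_5575.f :=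
  frame_of rfl c_5575 (runs_of engOK r_5575_0) (by decide +kernel) h.2 h.1

def F_5576 : FrX :=
  ⟨0x1001040012008080000e0084080041000810100004a80800402000010008008280820009008010080006120204000000c300201210088081080000040208,
    0xa3, 1, 0x2131506476a8, 6,
    [(0xa3, 1), (0x207584a6, 4), (0x10547693, 4), (0x647593a8, 4), (0x10547693, 4), (0x216485a7, 4), (0x208693a4, 4), (0x647593a8, 4), (0x208693a4, 4), (0x106574a8, 4), (0x647593a8, 4), (0x216485a7, 4)],
    [(0x2131506476a8, 6), (0x205198a7, 4), (0x536098a4, 4), (0x31627498, 4), (0x205198a7, 4), (0x536098a4, 4)]⟩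

def c_5576 : frmChk tB tA F_5576 = true := by decide +kernel

def r_5576_0 : chkL rootF engF2 tB tA sB_458 sA_458 4 F_5576 [(511, 0, 0)]
    0x1 = true := by
  decide +kernel

theorem f_5576 (h : TabsF) : FrameF repsF 458 F_5576.f :=
  frame_of rfl c_5576 (runs_of engOK r_5576_0) (by decide +kernel) h.2 h.1

def F_5577 : FrX :=
  ⟨0x1001040012008080000e00840800410008101000060000048040400220180080280100800100110240041400800010202000092100100001108408010418,
    0xa3, 1, 0x103240628194a0, 7,
    [(0xa3, 1), (0x207584a6, 4), (0x10547693, 4), (0x647593a8, 4), (0x10547693, 4), (0x216485a7, 4), (0x208693a4, 4), (0x647593a8, 4), (0x208693a4, 4), (0x106574a8, 4), (0x647593a8, 4), (0x216485a7, 4)],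
    [(0x103240628194a0, 7), (0x304152a6, 4), (0x417095a8, 4), (0x41738692, 4), (0x304152a6, 4), (0x417095a8, 4)]⟩

def c_5577 : frmChk tB tA F_5577 = true := by decide +kernel

def r_5577_0 : chkL rootF engF2 tB tA sB_458 sA_458 4 F_5577 [(511, 0, 0)]
    0x1 = true := by
  decide +kernel

theorem f_5577 (h : TabsF) : FrameF repsF 458 F_5577.f :=
  frame_of rfl c_5577 (runs_of engOK r_5577_0) (by decide +kernel) h.2 h.1

def F_5578 : FrX :=
  ⟨0x600020801080810000c0040180410101001004010010048000008208142002080400080800442000400110880008800841000120004000488400110111,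
    0xa0, 1, 0x5064728193a0, 6,
    [(0xa0, 1), (0x637584a2, 4), (0x547690a1, 4), (0x64758390, 4), (0x547690a1, 4), (0x21647385, 4), (0x438690a2, 4), (0x64758390, 4), (0x438690a2, 4), (0x657483a1, 4), (0x64758390, 4), (0x21647385, 4)],
    [(0x5064728193a0, 6), (0x206194a7, 4), (0x425360a8, 4), (0x20536491, 4), (0x425360a8, 4), (0x10648792, 4), (0x415396a7, 4), (0x20536491, 4), (0x415396a7, 4), (0x406291a8, 4), (0x20536491, 4), (0x10648792, 4)]⟩

def c_5578 : frmChk tB tB F_5578 = true := by decide +kernel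

def r_5578_0 : chkL rootF engF2 tB tB sB_458 sB_458 4 F_5578 [(511, 0, 0)]
    0x1 = true := by
  decide +kernel

theorem f_5578 (h : TabsF) : FrameF repsF 458 F_5578.f :=
  frame_of rfl c_5578 (runs_of engOK r_5578_0) (by decide +kernel) h.2 h.2

def F_5579 : FrX :=
  ⟨0x80080a000804040e000021010020010000020408806000081084000800202000848808010820400800414202004014000020100204102002120a4000010,
    0xa6, 1, 0x2031628198a0, 6,
    [(0xa6, 1), (0x205396a8, 4), (0x10548796, 4), (0x214396a7, 4), (0x205396a8, 4), (0x10548796, 4)],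
    [(0x2031628198a0, 6), (0x325190a6, 4), (0x325497a8, 4), (0x32417086, 4), (0x325190a6, 4), (0x325497a8, 4)]⟩

def c_5579 : frmChk tA tA F_5579 = true := by decide +kernel

def r_5579_0 : chkL rootF engF2 tA tA sA_458 sA_458 4 F_5579 [(511, 0, 0)]
    0x1 = true := by
  decide +kernel

theorem f_5579 (h : TabsF) : FrameF repsF 458 F_5579.f :=
  frame_of rfl c_5579 (runs_of engOK r_5579_0) (by decide +kernel) h.1 h.1

def F_5580 : FrX :=
  ⟨0x2002000900044004000e02041000141000800040801002010420002100024028004001110020040801040011092000011100802080448008004004092000,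
    0xa3, 1, 0x325060728495a1, 7,
    [(0xa3, 1), (0x208693a5, 4), (0x10548793, 4), (0x217693a4, 4), (0x208693a5, 4), (0x10548793, 4)],
    [(0x325060728495a1, 7), (0x10547692, 4), (0x104398a6, 4), (0x105382a7, 4), (0x10547692, 4), (0x104398a6, 4)]⟩

def c_5580 : frmChk tA tA F_5580 = true := by decide +kernel

def r_5580_0 : chkL rootF engF2 tA tA sA_458 sA_458 4 F_5580 [(511, 0, 0)]
    0x1 = true := by
  decide +kernel

theorem f_5580 (h : TabsF) : FrameF repsF 458 F_5580.f :=
  frame_of rfl c_5580 (runs_of engOK r_5580_0) (by decide +kernel) h.1 h.1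

def F_5581 : FrX :=
  ⟨0x482000044040440000c20400200090001820400011004080009002000009900082100010280010000400808214a00400040044024010a2000018800008,
    0xa0, 1, 0x10314052658293a7, 8,
    [(0xa0, 1), (0x538690a2, 4), (0x548790a1, 4), (0x21437690, 4), (0x538690a2, 4), (0x548790a1, 4)],
    [(0x10314052658293a7, 8), (0x52708496, 4), (0x436170a5, 4), (0x708391a2, 4), (0x52708496, 4), (0x436170a5, 4)]⟩

def c_5581 : frmChk tA tA F_5581 = true := by decide +kernel

def r_5581_0 : chkL rootF engF2 tA tA sA_458 sA_458 4 F_5581 [(511, 0, 0)]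
    0x1 = true := by
  decide +kernel

theorem f_5581 (h : TabsF) : FrameF repsF 458 F_5581.f :=
  frame_of rfl c_5581 (runs_of engOK r_5581_0) (by decide +kernel) h.1 h.1

def F_5582 : FrX :=
  ⟨0x80080a000804040e00002101002001000002040882020202008081000240002041002060001010080024180108100101100042048010100414010200200,
    0xa6, 1, 0x325063718398a7, 7,
    [(0xa6, 1), (0x205396a8, 4), (0x10548796, 4), (0x214396a7, 4), (0x205396a8, 4), (0x10548796, 4)],
    [(0x325063718398a7, 7), (0x538294a0, 4), (0x406175a2, 4), (0x426198a0, 4), (0x406175a2, 4), (0x427390a8, 4), (0x53618492, 4), (0x426198a0, 4), (0x53618492, 4), (0x207598a4, 4), (0x426198a0, 4), (0x427390a8, 4)]⟩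

def c_5582 : frmChk tA tB F_5582 = true := by decide +kernel

def r_5582_0 : chkL rootF engF2 tA tB sA_458 sB_458 4 F_5582 [(511, 0, 0)]
    0x1 = true := by
  decide +kernel

theorem f_5582 (h : TabsF) : FrameF repsF 458 F_5582.f :=
  frame_of rfl c_5582 (runs_of engOK r_5582_0) (by decide +kernel) h.1 h.2

def F_5583 : FrX :=
  ⟨0x2002000900044004000e020410001410008000408010002820101001410001820000280009020002240004004000480083000820300800202030100c2000,
    0xa3, 1, 0x203240536098a2, 7,
    [(0xa3, 1), (0x208693a5, 4), (0x10548793, 4), (0x217693a4, 4), (0x208693a5, 4), (0x10548793, 4)],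
    [(0x203240536098a2, 7), (0x508394a6, 4), (0x20618397, 4), (0x527483a1, 4), (0x508394a6, 4), (0x20618397, 4)]⟩

def c_5583 : frmChk tA tA F_5583 = true := by decide +kernel

def r_5583_0 : chkL rootF engF2 tA tA sA_458 sA_458 4 F_5583 [(511, 0, 0)]
    0x1 = true := by
  decide +kernel

theorem f_5583 (h : TabsF) : FrameF repsF 458 F_5583.f :=
  frame_of rfl c_5583 (runs_of engOK r_5583_0) (by decide +kernel) h.1 h.1

def F_5584 : FrX :=
  ⟨0x2002000900044004000e0204100014100080004080080024800120200a000c00040081000888000812000200400048800040080087010200401242402000,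
    0xa3, 1, 0x5264708391a3, 6,
    [(0xa3, 1), (0x208693a5, 4), (0x10548793, 4), (0x217693a4, 4), (0x208693a5, 4), (0x10548793, 4)],
    [(0x5264708391a3, 6), (0x437581a2, 4), (0x30628197, 4), (0x408195a6, 4), (0x437581a2, 4), (0x30628197, 4)]⟩

def c_5584 : frmChk tA tA F_5584 = true := by decide +kernel

def r_5584_0 : chkL rootF engF2 tA tA sA_458 sA_458 4 F_5584 [(511, 0, 0)]
    0x1 = true := by
  decide +kernel

theorem f_5584 (h : TabsF) : FrameF repsF 458 F_5584.f :=
  frame_of rfl c_5584 (runs_of engOK r_5584_0) (by decide +kernel) h.1 h.1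

def F_5585 : FrX :=
  ⟨0x482000044040440000c2040020009000182040002102000101200008000c048048800008820002020000206040010c0080010006200a02401002208008,
    0xa0, 1, 0x30618291a4, 5,
    [(0xa0, 1), (0x538690a2, 4), (0x548790a1, 4), (0x21437690, 4), (0x538690a2, 4), (0x548790a1, 4)],
    [(0x30618291a4, 5), (0x107583a2, 4), (0x647193a5, 4), (0x206475a1, 4), (0x647193a5, 4), (0x527098a1, 4), (0x216483a0, 4), (0x206475a1, 4), (0x216483a0, 4), (0x205193a7, 4), (0x206475a1, 4), (0x527098a1, 4)]⟩

def c_5585 : frmChk tA tB F_5585 = true := by decide +kernel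

def r_5585_0 : chkL rootF engF2 tA tB sA_458 sB_458 4 F_5585 [(511, 0, 0)]
    0x1 = true := by
  decide +kernel

theorem f_5585 (h : TabsF) : FrameF repsF 458 F_5585.f :=
  frame_of rfl c_5585 (runs_of engOK r_5585_0) (by decide +kernel) h.1 h.2

def F_5586 : FrX :=
  ⟨0x2002000900044004000e02041000141000800040800800248008400009010c0004008101008002201210820040004800020100a082000242400202020004,
    0xa3, 1, 0x213162768194a6, 7,
    [(0xa3, 1), (0x208693a5, 4), (0x10548793, 4), (0x217693a4, 4), (0x208693a5, 4), (0x10548793, 4)],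
    [(0x213162768194a6, 7), (0x526074a3, 4), (0x31748095, 4), (0x748692a1, 4), (0x526074a3, 4), (0x31748095, 4)]⟩

def c_5586 : frmChk tA tA F_5586 = true := by decide +kernel

def r_5586_0 : chkL rootF engF2 tA tA sA_458 sA_458 4 F_5586 [(511, 0, 0)]
    0x1 = true := by
  decide +kernel

theorem f_5586 (h : TabsF) : FrameF repsF 458 F_5586.f :=
  frame_of rfl c_5586 (runs_of engOK r_5586_0) (by decide +kernel) h.1 h.1

def F_5587 : FrX :=
  ⟨0x2002000900044004000e02041000141000800040800804008080a04001010400140081020002030042024220400000802080080084100200440242002001,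
    0xa3, 1, 0x4253728196a7, 6,
    [(0xa3, 1), (0x208693a5, 4), (0x10548793, 4), (0x217693a4, 4), (0x208693a5, 4), (0x10548793, 4)],
    [(0x4253728196a7, 6), (0x217095a3, 4), (0x326480a9, 4), (0x516492a3, 4), (0x326480a9, 4), (0x318792a5, 4), (0x52647091, 4), (0x516492a3, 4), (0x52647091, 4), (0x518093a2, 4), (0x516492a3, 4), (0x318792a5, 4)]⟩

def c_5587 : frmChk tA tB F_5587 = true := by decide +kernel

def r_5587_0 : chkL rootF engF2 tA tB sA_458 sB_458 4 F_5587 [(511, 0, 0)]
    0x1 = true := by
  decide +kernel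

theorem f_5587 (h : TabsF) : FrameF repsF 458 F_5587.f :=
  frame_of rfl c_5587 (runs_of engOK r_5587_0) (by decide +kernel) h.1 h.2

def F_5588 : FrX :=
  ⟨0x1c21020000040440000020410001010000820408a0001100000024200400a0200008804010200880c080404206010400304000022040020002024600200,
    0x0, 0, 0x21436575, 4,
    [(0x0, 0), (0x205386a9, 4), (0x105487a9, 4), (0x214376a9, 4), (0x205386a9, 4), (0x105487a9, 4)],
    [(0x21436575, 4), (0x10547683, 4), (0x206573a9, 4), (0x537684a9, 4), (0x206573a9, 4), (0x21536487, 4), (0x104385a9, 4), (0x537684a9, 4), (0x104385a9, 4), (0x20637584, 4), (0x537684a9, 4), (0x21536487, 4)]⟩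

def c_5588 : frmChk tA tB F_5588 = true := by decide +kernel

def r_5588_0 : chkL rootF engF2 tA tB sA_458 sB_458 4 F_5588 [(511, 0, 0)]
    0x1 = true := by
  decide +kernel

theorem f_5588 (h : TabsF) : FrameF repsF 458 F_5588.f :=
  frame_of rfl c_5588 (runs_of engOK r_5588_0) (by decide +kernel) h.1 h.2

theorem cl_458 (h : TabsF) : ∀ f ∈ fr_458, FrameF repsF 458 f :=
  List.forall_mem_cons.2 ⟨f_5561 h, List.forall_mem_cons.2 ⟨f_5562 h, List.forall_mem_cons.2 ⟨f_5563 h, List.forall_mem_cons.2 ⟨f_5564 h, List.forall_mem_cons.2 ⟨f_5565 h, List.forall_mem_cons.2 ⟨f_5566 h, List.forall_mem_cons.2 ⟨f_5567 h, List.forall_mem_cons.2 ⟨f_5568 h, List.forall_mem_cons.2 ⟨f_5569 h, List.forall_mem_cons.2 ⟨f_5570 h, List.forall_mem_cons.2 ⟨f_5571 h, List.forall_mem_cons.2 ⟨f_5572 h, List.forall_mem_cons.2 ⟨f_5573 h, List.forall_mem_cons.2 ⟨f_5574 h, List.forall_mem_cons.2 ⟨f_5575 h, List.forall_mem_cons.2 ⟨f_5576 h, List.forall_mem_cons.2 ⟨f_5577 h, List.forall_mem_cons.2 ⟨f_5578 h, List.forall_mem_cons.2 ⟨f_5579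 h, List.forall_mem_cons.2 ⟨f_5580 h, List.forall_mem_cons.2 ⟨f_5581 h, List.forall_mem_cons.2 ⟨f_5582 h, List.forall_mem_cons.2 ⟨f_5583 h, List.forall_mem_cons.2 ⟨f_5584 h, List.forall_mem_cons.2 ⟨f_5585 h, List.forall_mem_cons.2 ⟨f_5586 h, List.forall_mem_cons.2 ⟨f_5587 h, List.forall_mem_cons.2 ⟨f_5588 h,
    fun _ h0 => absurd h0 List.not_mem_nil⟩⟩⟩⟩⟩⟩⟩⟩⟩⟩⟩⟩⟩⟩⟩⟩⟩⟩⟩⟩⟩⟩⟩⟩⟩⟩⟩⟩

def F_5589 : FrX :=
  ⟨0x482000044040440000c20400200090001820400100100480080000840201081108200008040404800002200c0920500008084010002800100a02000104,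
    0xa0, 1, 0x213242537291a3, 7,
    [(0xa0, 1), (0x538690a2, 4), (0x548790a1, 4), (0x21437690, 4), (0x538690a2, 4), (0x548790a1, 4)],
    [(0x213242537291a3, 7), (0x527086a1, 4), (0x31528490, 4), (0x526497a3, 4), (0x527086a1, 4), (0x31528490, 4)]⟩

def c_5589 : frmChk tA tA F_5589 = true := by decide +kernel

def r_5589_0 : chkL rootF engF2 tA tA sA_459 sA_459 4 F_5589 [(511, 0, 0)]
    0x1 = true := by
  decide +kernel

theorem f_5589 (h : TabsF) : FrameF repsF 459 F_5589.f :=
  frame_of rfl c_5589 (runs_of engOK r_5589_0) (by decide +kernel) h.1 h.1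

def F_5590 : FrX :=
  ⟨0x80080a000804040e0000210100200100000204089004000111001402020200800801400100800902011024001800104002400000600100a00080a400880,
    0xa6, 1, 0x417095a8, 4,
    [(0xa6, 1), (0x205396a8, 4), (0x10548796, 4), (0x214396a7, 4), (0x205396a8, 4), (0x10548796, 4)],
    [(0x417095a8, 4), (0x637290a1, 4), (0x60748591, 4), (0x618590a3, 4), (0x60748591, 4), (0x304261a9, 4), (0x317285a6, 4), (0x618590a3, 4), (0x317285a6, 4), (0x107496a3, 4), (0x618590a3, 4), (0x304261a9, 4)]⟩

def c_5590 : frmChk tA tB F_5590 = true := by decide +kernel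

def r_5590_0 : chkL rootF engF2 tA tB sA_459 sB_459 4 F_5590 [(511, 0, 0)]
    0x1 = true := by
  decide +kernel

theorem f_5590 (h : TabsF) : FrameF repsF 459 F_5590.f :=
  frame_of rfl c_5590 (runs_of engOK r_5590_0) (by decide +kernel) h.1 h.2

def F_5591 : FrX :=
  ⟨0x482000044040440000c2040020009000182040001012080008100004020101010808800c00040480002020023110140000086010100080014200800042,
    0xa0, 1, 0x3142537394a2, 6,
    [(0xa0, 1), (0x538690a2, 4), (0x548790a1, 4), (0x21437690, 4), (0x538690a2, 4), (0x548790a1, 4)],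
    [(0x3142537394a2, 6), (0x427186a0, 4), (0x30428591, 4), (0x426597a3, 4), (0x427186a0, 4), (0x30428591, 4)]⟩

def c_5591 : frmChk tA tA F_5591 = true := by decide +kernel

def r_5591_0 : chkL rootF engF2 tA tA sA_459 sA_459 4 F_5591 [(511, 0, 0)]
    0x1 = true := by
  decide +kernel

theorem f_5591 (h : TabsF) : FrameF repsF 459 F_5591.f :=
  frame_of rfl c_5591 (runs_of engOK r_5591_0) (by decide +kernel) h.1 h.1

def F_5592 : FrX :=
  ⟨0x2002000900044004000e02041000141000800040800801081810200008202101000044004024000480020200068020108000820010810000404220408280,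
    0xa3, 1, 0x20415261a3, 5,
    [(0xa3, 1), (0x208693a5, 4), (0x10548793, 4), (0x217693a4, 4), (0x208693a5, 4), (0x10548793, 4)],
    [(0x20415261a3, 5), (0x528493a0, 4), (0x10628793, 4), (0x657493a1, 4), (0x528493a0, 4), (0x10628793, 4)]⟩

def c_5592 : frmChk tA tA F_5592 = true := by decide +kernel

def r_5592_0 : chkL rootF engF2 tA tA sA_459 sA_459 4 F_5592 [(511, 0, 0)]
    0x1 = true := by
  decide +kernel

theorem f_5592 (h : TabsF) : FrameF repsF 459 F_5592.f :=
  frame_of rfl c_5592 (runs_of engOK r_5592_0) (by decide +kernel) h.1 h.1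

def F_5593 : FrX :=
  ⟨0x80080a000804040e00002101002001000002040890020001404004820280008008011001008009008002a010002a0008004048002080402100880040084,
    0xa6, 1, 0x213242718394a3, 7,
    [(0xa6, 1), (0x205396a8, 4), (0x10548796, 4), (0x214396a7, 4), (0x205396a8, 4), (0x10548796, 4)],
    [(0x213242718394a3, 7), (0x406183a5, 4), (0x21708395, 4), (0x627483a9, 4), (0x406183a5, 4), (0x21708395, 4)]⟩

def c_5593 : frmChk tA tA F_5593 = true := by decide +kernel

def r_5593_0 : chkL rootF engF2 tA tA sA_459 sA_459 4 F_5593 [(511, 0, 0)]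
    0x1 = true := by
  decide +kernel

theorem f_5593 (h : TabsF) : FrameF repsF 459 F_5593.f :=
  frame_of rfl c_5593 (runs_of engOK r_5593_0) (by decide +kernel) h.1 h.1

def F_5594 : FrX :=
  ⟨0x2002000900044004000e02041000141000800040808208004408020010010408200022001100008024000112014020001140001084008808000802020940,
    0xa3, 1, 0x314254627184a1, 7,
    [(0xa3, 1), (0x208693a5, 4), (0x10548793, 4), (0x217693a4, 4), (0x208693a5, 4), (0x10548793, 4)],
    [(0x314254627184a1, 7), (0x21546097, 4), (0x538297a0, 4), (0x438197a6, 4), (0x21546097, 4), (0x538297a0, 4)]⟩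

def c_5594 : frmChk tA tA F_5594 = true := by decide +kernel

def r_5594_0 : chkL rootF engF2 tA tA sA_459 sA_459 4 F_5594 [(511, 0, 0)]
    0x1 = true := by
  decide +kernel

theorem f_5594 (h : TabsF) : FrameF repsF 459 F_5594.f :=
  frame_of rfl c_5594 (runs_of engOK r_5594_0) (by decide +kernel) h.1 h.1

def F_5595 : FrX :=
  ⟨0x80080a000804040e00002101002001000002040880421002010080801000202101080060004040080028480062000508100040011000600500004800300,
    0xa6, 1, 0x10324052728698a0, 8,
    [(0xa6, 1), (0x205396a8, 4), (0x10548796, 4), (0x214396a7, 4), (0x205396a8, 4), (0x10548796, 4)],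
    [(0x10324052728698a0, 8), (0x538291a7, 4), (0x316485a0, 4), (0x53648192, 4), (0x316485a0, 4), (0x52708193, 4), (0x216498a7, 4), (0x53648192, 4), (0x216498a7, 4), (0x518392a0, 4), (0x53648192, 4), (0x52708193, 4)]⟩

def c_5595 : frmChk tA tB F_5595 = true := by decide +kernel

def r_5595_0 : chkL rootF engF2 tA tB sA_459 sB_459 4 F_5595 [(511, 0, 0)]
    0x1 = true := by
  decide +kernel

theorem f_5595 (h : TabsF) : FrameF repsF 459 F_5595.f :=
  frame_of rfl c_5595 (runs_of engOK r_5595_0) (by decide +kernel) h.1 h.2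

def F_5596 : FrX :=
  ⟨0x482000044040440000c2040020009000182040001101002000840800000990008210001028001000040010442a08800024000206080082100010800801,
    0xa0, 1, 0x203240548197a3, 7,
    [(0xa0, 1), (0x538690a2, 4), (0x548790a1, 4), (0x21437690, 4), (0x538690a2, 4), (0x548790a1, 4)],
    [(0x203240548197a3, 7), (0x435192a6, 4), (0x52708496, 4), (0x657092a1, 4), (0x52708496, 4), (0x216583a9, 4), (0x436170a5, 4), (0x657092a1, 4), (0x436170a5, 4), (0x628495a1, 4), (0x657092a1, 4), (0x216583a9, 4)]⟩

def c_5596 : frmChk tA tB F_5596 = true := by decide +kernel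

def r_5596_0 : chkL rootF engF2 tA tB sA_459 sB_459 4 F_5596 [(511, 0, 0)]
    0x1 = true := by
  decide +kernel

theorem f_5596 (h : TabsF) : FrameF repsF 459 F_5596.f :=
  frame_of rfl c_5596 (runs_of engOK r_5596_0) (by decide +kernel) h.1 h.2

def F_5597 : FrX :=
  ⟨0x2002000900044004000e02041000141000800040808000208120000110012108200020201100009008400012048400801024042040080800040880020840,
    0xa3, 1, 0x3154768092a3, 6,
    [(0xa3, 1), (0x208693a5, 4), (0x10548793, 4), (0x217693a4, 4), (0x208693a5, 4), (0x10548793, 4)],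
    [(0x3154768092a3, 6), (0x217098a4, 4), (0x21546083, 4), (0x217693a5, 4), (0x217098a4, 4), (0x21546083, 4)]⟩

def c_5597 : frmChk tA tA F_5597 = true := by decide +kernel

def r_5597_0 : chkL rootF engF2 tA tA sA_459 sA_459 4 F_5597 [(511, 0, 0)]
    0x1 = true := by
  decide +kernel

theorem f_5597 (h : TabsF) : FrameF repsF 459 F_5597.f :=
  frame_of rfl c_5597 (runs_of engOK r_5597_0) (by decide +kernel) h.1 h.1

def F_5598 : FrX :=
  ⟨0x80080a000804040e00002101002001000002040880420401208088000810001001004060002080080028840021000202500040030002201100008220300,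
    0xa6, 1, 0x3241547380a8, 6,
    [(0xa6, 1), (0x205396a8, 4), (0x10548796, 4), (0x214396a7, 4), (0x205396a8, 4), (0x10548796, 4)],
    [(0x3241547380a8, 6), (0x718390a6, 4), (0x518490a2, 4), (0x43627590, 4), (0x718390a6, 4), (0x518490a2, 4)]⟩

def c_5598 : frmChk tA tA F_5598 = true := by decide +kernel

def r_5598_0 : chkL rootF engF2 tA tA sA_459 sA_459 4 F_5598 [(511, 0, 0)]
    0x1 = true := by
  decide +kernel

theorem f_5598 (h : TabsF) : FrameF repsF 459 F_5598.f :=
  frame_of rfl c_5598 (runs_of engOK r_5598_0) (by decide +kernel) h.1 h.1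

def F_5599 : FrX :=
  ⟨0x80080a000804040e00002101002001000002040890080000304002404220008008404001008008408010c00040601800042000022002402100802040880,
    0xa6, 1, 0x21314351748595a2, 8,
    [(0xa6, 1), (0x205396a8, 4), (0x10548796, 4), (0x214396a7, 4), (0x205396a8, 4), (0x10548796, 4)],
    [(0x21314351748595a2, 8), (0x638194a0, 4), (0x32508197, 4), (0x627481a5, 4), (0x638194a0, 4), (0x32508197, 4)]⟩

def c_5599 : frmChk tA tA F_5599 = true := by decide +kernel

def r_5599_0 : chkL rootF engF2 tA tA sA_459 sA_459 4 F_5599 [(511, 0, 0)]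
    0x1 = true := by
  decide +kernel

theorem f_5599 (h : TabsF) : FrameF repsF 459 F_5599.f :=
  frame_of rfl c_5599 (runs_of engOK r_5599_0) (by decide +kernel) h.1 h.1

def F_5600 : FrX :=
  ⟨0x80080a000804040e0000210100200100000204088060000810808800001014104100041004008000203a00002048100204400802041020c0000000a0050,
    0xa6, 1, 0x31738793a0, 5,
    [(0xa6, 1), (0x205396a8, 4), (0x10548796, 4), (0x214396a7, 4), (0x205396a8, 4), (0x10548796, 4)],
    [(0x31738793a0, 5), (0x418596a2, 4), (0x547086a3, 4), (0x64708591, 4), (0x547086a3, 4), (0x32516498, 4), (0x617094a2, 4), (0x64708591, 4), (0x617094a2, 4), (0x658491a3, 4), (0x64708591, 4), (0x32516498, 4)]⟩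

def c_5600 : frmChk tA tB F_5600 = true := by decide +kernel

def r_5600_0 : chkL rootF engF2 tA tB sA_459 sB_459 4 F_5600 [(511, 0, 0)]
    0x1 = true := by
  decide +kernel

theorem f_5600 (h : TabsF) : FrameF repsF 459 F_5600.f :=
  frame_of rfl c_5600 (runs_of engOK r_5600_0) (by decide +kernel) h.1 h.2

def F_5601 : FrX :=
  ⟨0x1c40440000080810000008400804100001010840422001000020220000090008102008900881240002412000480080421000002100880c0044020020200,
    0x0, 0, 0x65a9, 2,
    [(0x0, 0), (0x20637584, 4), (0x105476a9, 4), (0x647583a9, 4), (0x105476a9, 4), (0x21647385, 4), (0x204386a9, 4), (0x647583a9, 4), (0x204386a9, 4), (0x10657483, 4), (0x647583a9, 4), (0x21647385, 4)],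
    [(0x65a9, 2), (0x206385a9, 4), (0x106487a9, 4), (0x214375a9, 4), (0x206385a9, 4), (0x106487a9, 4)]⟩

def c_5601 : frmChk tB tA F_5601 = true := by decide +kernel

def r_5601_0 : chkL rootF engF2 tB tA sB_459 sA_459 4 F_5601 [(511, 0, 0)]
    0x1 = true := by
  decide +kernel

theorem f_5601 (h : TabsF) : FrameF repsF 459 F_5601.f :=
  frame_of rfl c_5601 (runs_of engOK r_5601_0) (by decide +kernel) h.2 h.1

def F_5602 : FrX :=
  ⟨0x1001040012008080000e0084080041000810100006000004804040022018008028010080010011024004140080001082200008210010000c048408010090,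
    0xa3, 1, 0x103240628194a0, 7,
    [(0xa3, 1), (0x207584a6, 4), (0x10547693, 4), (0x647593a8, 4), (0x10547693, 4), (0x216485a7, 4), (0x208693a4, 4), (0x647593a8, 4), (0x208693a4, 4), (0x106574a8, 4), (0x647593a8, 4), (0x216485a7, 4)],
    [(0x103240628194a0, 7), (0x304152a6, 4), (0x417095a8, 4), (0x41738692, 4), (0x304152a6, 4), (0x417095a8, 4)]⟩

def c_5602 : frmChk tB tA F_5602 = true := by decide +kernel

def r_5602_0 : chkL rootF engF2 tB tA sB_459 sA_459 4 F_5602 [(511, 0, 0)]
    0x1 = true := by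
  decide +kernel

theorem f_5602 (h : TabsF) : FrameF repsF 459 F_5602.f :=
  frame_of rfl c_5602 (runs_of engOK r_5602_0) (by decide +kernel) h.2 h.1

def F_5603 : FrX :=
  ⟨0x600020801080810000c00401804101010010040100100480000082081420020804000808004420004001108800088008410001200108004084010a0102,
    0xa0, 1, 0x5064728193a0, 6,
    [(0xa0, 1), (0x637584a2, 4), (0x547690a1, 4), (0x64758390, 4), (0x547690a1, 4), (0x21647385, 4), (0x438690a2, 4), (0x64758390, 4), (0x438690a2, 4), (0x657483a1, 4), (0x64758390, 4), (0x21647385, 4)],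
    [(0x5064728193a0, 6), (0x206194a7, 4), (0x425360a8, 4), (0x20536491, 4), (0x425360a8, 4), (0x10648792, 4), (0x415396a7, 4), (0x20536491, 4), (0x415396a7, 4), (0x406291a8, 4), (0x20536491, 4), (0x10648792, 4)]⟩

def c_5603 : frmChk tB tB F_5603 = true := by decide +kernel

def r_5603_0 : chkL rootF engF2 tB tB sB_459 sB_459 4 F_5603 [(511, 0, 0)]
    0x1 = true := by
  decide +kernel

theorem f_5603 (h : TabsF) : FrameF repsF 459 F_5603.f :=
  frame_of rfl c_5603 (runs_of engOK r_5603_0) (by decide +kernel) h.2 h.2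

def F_5604 : FrX :=
  ⟨0x2002000900044004000e0204100014100080004080080024800120200a000c00040081000888000812000200400048800101010026010200401043022000,
    0xa3, 1, 0x5264708391a3, 6,
    [(0xa3, 1), (0x208693a5, 4), (0x10548793, 4), (0x217693a4, 4), (0x208693a5, 4), (0x10548793, 4)],
    [(0x5264708391a3, 6), (0x437581a2, 4), (0x30628197, 4), (0x408195a6, 4), (0x437581a2, 4), (0x30628197, 4)]⟩

def c_5604 : frmChk tA tA F_5604 = true := by decide +kernel

def r_5604_0 : chkL rootF engF2 tA tA sA_459 sA_459 4 F_5604 [(511, 0, 0)]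
    0x1 = true := by
  decide +kernel

theorem f_5604 (h : TabsF) : FrameF repsF 459 F_5604.f :=
  frame_of rfl c_5604 (runs_of engOK r_5604_0) (by decide +kernel) h.1 h.1

theorem cl_459 (h : TabsF) : ∀ f ∈ fr_459, FrameF repsF 459 f :=
  List.forall_mem_cons.2 ⟨f_5589 h, List.forall_mem_cons.2 ⟨f_5590 h, List.forall_mem_cons.2 ⟨f_5591 h, List.forall_mem_cons.2 ⟨f_5592 h, List.forall_mem_cons.2 ⟨f_5593 h, List.forall_mem_cons.2 ⟨f_5594 h, List.forall_mem_cons.2 ⟨f_5595 h, List.forall_mem_cons.2 ⟨f_5596 h, List.forall_mem_cons.2 ⟨f_5597 h, List.forall_mem_cons.2 ⟨f_5598 h, List.forall_mem_cons.2 ⟨f_5599 h, List.forall_mem_cons.2 ⟨f_5600 h, List.forall_mem_cons.2 ⟨f_5601 h, List.forall_mem_cons.2 ⟨f_5602 h, List.forall_mem_cons.2 ⟨f_5603 h, List.forall_mem_cons.2 ⟨f_5604 h,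
    fun _ h0 => absurd h0 List.not_mem_nil⟩⟩⟩⟩⟩⟩⟩⟩⟩⟩⟩⟩⟩⟩⟩⟩

def F_5605 : FrX :=
  ⟨0x80080a000804040e0000210100200100000204088042020141008080080100200108006000e00008002180000110001110004000a002202500040d00200,
    0xa6, 1, 0x304052618293a3, 7,
    [(0xa6, 1), (0x205396a8, 4), (0x10548796, 4), (0x214396a7, 4), (0x205396a8, 4), (0x10548796, 4)],
    [(0x304052618293a3, 7), (0x518490a2, 4), (0x32647590, 4), (0x718690a3, 4), (0x518490a2, 4), (0x32647590, 4)]⟩

def c_5605 : frmChk tA tA F_5605 = true := by decide +kernel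

def r_5605_0 : chkL rootF engF2 tA tA sA_460 sA_460 4 F_5605 [(511, 0, 0)]
    0x1 = true := by
  decide +kernel

theorem f_5605 (h : TabsF) : FrameF repsF 460 F_5605.f :=
  frame_of rfl c_5605 (runs_of engOK r_5605_0) (by decide +kernel) h.1 h.1

def F_5606 : FrX :=
  ⟨0x80080a000804040e00002101002001000002040890020008604001400280008008040401008008420810080011010080040048022000402100a88800080,
    0xa6, 1, 0x214183a8, 4,
    [(0xa6, 1), (0x205396a8, 4), (0x10548796, 4), (0x214396a7, 4), (0x205396a8, 4), (0x10548796, 4)],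
    [(0x214183a8, 4), (0x107586a2, 4), (0x40527693, 4), (0x627593a8, 4), (0x40527693, 4), (0x416287a5, 4), (0x108293a6, 4), (0x627593a8, 4), (0x108293a6, 4), (0x406572a8, 4), (0x627593a8, 4), (0x416287a5, 4)]⟩

def c_5606 : frmChk tA tB F_5606 = true := by decide +kernel

def r_5606_0 : chkL rootF engF2 tA tB sA_460 sB_460 4 F_5606 [(511, 0, 0)]
    0x1 = true := by
  decide +kernel

theorem f_5606 (h : TabsF) : FrameF repsF 460 F_5606.f :=
  frame_of rfl c_5606 (runs_of engOK r_5606_0) (by decide +kernel) h.1 h.2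

def F_5607 : FrX :=
  ⟨0x482000044040440000c2040020009000182040010080020800800810020208208400081004044182000810080410400010808008041000040a000100d0,
    0xa0, 1, 0x1064728593a0, 6,
    [(0xa0, 1), (0x538690a2, 4), (0x548790a1, 4), (0x21437690, 4), (0x538690a2, 4), (0x548790a1, 4)],
    [(0x1064728593a0, 6), (0x315498a7, 4), (0x315286a0, 4), (0x31427096, 4), (0x315498a7, 4), (0x315286a0, 4)]⟩

def c_5607 : frmChk tA tA F_5607 = true := by decide +kernel

def r_5607_0 : chkL rootF engF2 tA tA sA_460 sA_460 4 F_5607 [(511, 0, 0)]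
    0x1 = true := by
  decide +kernel

theorem f_5607 (h : TabsF) : FrameF repsF 460 F_5607.f :=
  frame_of rfl c_5607 (runs_of engOK r_5607_0) (by decide +kernel) h.1 h.1

def F_5608 : FrX :=
  ⟨0x2002000900044004000e02041000141000800040808000408080a00010812001000206004026000480020120081020010000820008804000444220008208,
    0xa3, 1, 0x324365768792a3, 7,
    [(0xa3, 1), (0x208693a5, 4), (0x10548793, 4), (0x217693a4, 4), (0x208693a5, 4), (0x10548793, 4)],
    [(0x324365768792a3, 7), (0x437590a6, 4), (0x10436285, 4), (0x438791a2, 4), (0x437590a6, 4), (0x10436285, 4)]⟩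

def c_5608 : frmChk tA tA F_5608 = true := by decide +kernel

def r_5608_0 : chkL rootF engF2 tA tA sA_460 sA_460 4 F_5608 [(511, 0, 0)]
    0x1 = true := by
  decide +kernel

theorem f_5608 (h : TabsF) : FrameF repsF 460 F_5608.f :=
  frame_of rfl c_5608 (runs_of engOK r_5608_0) (by decide +kernel) h.1 h.1

def F_5609 : FrX :=
  ⟨0x2002000900044004000e02041000141000800040808002600820000110012108000024001100008420c000020110000c001400a000a008000008080a5100,
    0xa3, 1, 0x103242536385a3, 7,
    [(0xa3, 1), (0x208693a5, 4), (0x10548793, 4), (0x217693a4, 4), (0x208693a5, 4), (0x10548793, 4)],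
    [(0x103242536385a3, 7), (0x415296a8, 4), (0x10728396, 4), (0x407596a3, 4), (0x415296a8, 4), (0x10728396, 4)]⟩

def c_5609 : frmChk tA tA F_5609 = true := by decide +kernel

def r_5609_0 : chkL rootF engF2 tA tA sA_460 sA_460 4 F_5609 [(511, 0, 0)]
    0x1 = true := by
  decide +kernel

theorem f_5609 (h : TabsF) : FrameF repsF 460 F_5609.f :=
  frame_of rfl c_5609 (runs_of engOK r_5609_0) (by decide +kernel) h.1 h.1

def F_5610 : FrX :=
  ⟨0x80080a000804040e0000210100200100000204089008000031000018020040800901400100800812000180080a08104016000001080840a0008000c0080,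
    0xa6, 1, 0x203142728198a0, 7,
    [(0xa6, 1), (0x205396a8, 4), (0x10548796, 4), (0x214396a7, 4), (0x205396a8, 4), (0x10548796, 4)],
    [(0x203142728198a0, 7), (0x325196a7, 4), (0x325094a8, 4), (0x10326487, 4), (0x325196a7, 4), (0x325094a8, 4)]⟩

def c_5610 : frmChk tA tA F_5610 = true := by decide +kernel

def r_5610_0 : chkL rootF engF2 tA tA sA_460 sA_460 4 F_5610 [(511, 0, 0)]
    0x1 = true := by
  decide +kernel

theorem f_5610 (h : TabsF) : FrameF repsF 460 F_5610.f :=
  frame_of rfl c_5610 (runs_of engOK r_5610_0) (by decide +kernel) h.1 h.1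

def F_5611 : FrX :=
  ⟨0x482000044040440000c2040020009000182040001012080010400804000c000308200009020004800000041c8410002000086010100080850202800001,
    0xa0, 1, 0x3062718095a0, 6,
    [(0xa0, 1), (0x538690a2, 4), (0x548790a1, 4), (0x21437690, 4), (0x538690a2, 4), (0x548790a1, 4)],
    [(0x3062718095a0, 6), (0x204391a6, 4), (0x218594a7, 4), (0x30428591, 4), (0x218594a7, 4), (0x10427693, 4), (0x324085a6, 4), (0x30428591, 4), (0x324085a6, 4), (0x304192a7, 4), (0x30428591, 4), (0x10427693, 4)]⟩

def c_5611 : frmChk tA tB F_5611 = true := by decide +kernel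

def r_5611_0 : chkL rootF engF2 tA tB sA_460 sB_460 4 F_5611 [(511, 0, 0)]
    0x1 = true := by
  decide +kernel

theorem f_5611 (h : TabsF) : FrameF repsF 460 F_5611.f :=
  frame_of rfl c_5611 (runs_of engOK r_5611_0) (by decide +kernel) h.1 h.2

def F_5612 : FrX :=
  ⟨0x482000044040440000c2040020009000182040001101002000840800000990008210001028001000040010823208800024000206080082100010800401,
    0xa0, 1, 0x203240548197a3, 7,
    [(0xa0, 1), (0x538690a2, 4), (0x548790a1, 4), (0x21437690, 4), (0x538690a2, 4), (0x548790a1, 4)],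
    [(0x203240548197a3, 7), (0x435192a6, 4), (0x52708496, 4), (0x657092a1, 4), (0x52708496, 4), (0x216583a9, 4), (0x436170a5, 4), (0x657092a1, 4), (0x436170a5, 4), (0x628495a1, 4), (0x657092a1, 4), (0x216583a9, 4)]⟩

def c_5612 : frmChk tA tB F_5612 = true := by decide +kernel

def r_5612_0 : chkL rootF engF2 tA tB sA_460 sB_460 4 F_5612 [(511, 0, 0)]
    0x1 = true := by
  decide +kernel

theorem f_5612 (h : TabsF) : FrameF repsF 460 F_5612.f :=
  frame_of rfl c_5612 (runs_of engOK r_5612_0) (by decide +kernel) h.1 h.2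

def F_5613 : FrX :=
  ⟨0x2002000900044004000e02041000141000800040808000208120000110012108200020201100009008400010a01400801024042040080800040880024040,
    0xa3, 1, 0x3154768092a3, 6,
    [(0xa3, 1), (0x208693a5, 4), (0x10548793, 4), (0x217693a4, 4), (0x208693a5, 4), (0x10548793, 4)],
    [(0x3154768092a3, 6), (0x217098a4, 4), (0x21546083, 4), (0x217693a5, 4), (0x217098a4, 4), (0x21546083, 4)]⟩

def c_5613 : frmChk tA tA F_5613 = true := by decide +kernel

def r_5613_0 : chkL rootF engF2 tA tA sA_460 sA_460 4 F_5613 [(511, 0, 0)]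
    0x1 = true := by
  decide +kernel

theorem f_5613 (h : TabsF) : FrameF repsF 460 F_5613.f :=
  frame_of rfl c_5613 (runs_of engOK r_5613_0) (by decide +kernel) h.1 h.1

def F_5614 : FrX :=
  ⟨0x80080a000804040e00002101002001000002040880420401208088000810001001004060002080080022800121000202500040030002201100040260200,
    0xa6, 1, 0x3241547380a8, 6,
    [(0xa6, 1), (0x205396a8, 4), (0x10548796, 4), (0x214396a7, 4), (0x205396a8, 4), (0x10548796, 4)],
    [(0x3241547380a8, 6), (0x718390a6, 4), (0x518490a2, 4), (0x43627590, 4), (0x718390a6, 4), (0x518490a2, 4)]⟩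

def c_5614 : frmChk tA tA F_5614 = true := by decide +kernel

def r_5614_0 : chkL rootF engF2 tA tA sA_460 sA_460 4 F_5614 [(511, 0, 0)]
    0x1 = true := by
  decide +kernel

theorem f_5614 (h : TabsF) : FrameF repsF 460 F_5614.f :=
  frame_of rfl c_5614 (runs_of engOK r_5614_0) (by decide +kernel) h.1 h.1

def F_5615 : FrX :=
  ⟨0x80080a000804040e00002101002001000002040890080000304002404220008008404001008008408004800801601800042000022002402100a02040080,
    0xa6, 1, 0x21314351748595a2, 8,
    [(0xa6, 1), (0x205396a8, 4), (0x10548796, 4), (0x214396a7, 4), (0x205396a8, 4), (0x10548796, 4)],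
    [(0x21314351748595a2, 8), (0x638194a0, 4), (0x32508197, 4), (0x627481a5, 4), (0x638194a0, 4), (0x32508197, 4)]⟩

def c_5615 : frmChk tA tA F_5615 = true := by decide +kernel

def r_5615_0 : chkL rootF engF2 tA tA sA_460 sA_460 4 F_5615 [(511, 0, 0)]
    0x1 = true := by
  decide +kernel

theorem f_5615 (h : TabsF) : FrameF repsF 460 F_5615.f :=
  frame_of rfl c_5615 (runs_of engOK r_5615_0) (by decide +kernel) h.1 h.1

def F_5616 : FrX :=
  ⟨0x80080a000804040e000021010020010000020408806000081080880000101410410004100400800020300400b040100204400802041020c0000200a0010,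
    0xa6, 1, 0x31738793a0, 5,
    [(0xa6, 1), (0x205396a8, 4), (0x10548796, 4), (0x214396a7, 4), (0x205396a8, 4), (0x10548796, 4)],
    [(0x31738793a0, 5), (0x418596a2, 4), (0x547086a3, 4), (0x64708591, 4), (0x547086a3, 4), (0x32516498, 4), (0x617094a2, 4), (0x64708591, 4), (0x617094a2, 4), (0x658491a3, 4), (0x64708591, 4), (0x32516498, 4)]⟩

def c_5616 : frmChk tA tB F_5616 = true := by decide +kernel

def r_5616_0 : chkL rootF engF2 tA tB sA_460 sB_460 4 F_5616 [(511, 0, 0)]
    0x1 = true := by
  decide +kernel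

theorem f_5616 (h : TabsF) : FrameF repsF 460 F_5616.f :=
  frame_of rfl c_5616 (runs_of engOK r_5616_0) (by decide +kernel) h.1 h.2

def F_5617 : FrX :=
  ⟨0x1c404400000808100000084008041000010108404220010000202200000900081020089008880400024120004a00800b1000002100880c0004020020200,
    0x0, 0, 0x65a9, 2,
    [(0x0, 0), (0x20637584, 4), (0x105476a9, 4), (0x647583a9, 4), (0x105476a9, 4), (0x21647385, 4), (0x204386a9, 4), (0x647583a9, 4), (0x204386a9, 4), (0x10657483, 4), (0x647583a9, 4), (0x21647385, 4)],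
    [(0x65a9, 2), (0x206385a9, 4), (0x106487a9, 4), (0x214375a9, 4), (0x206385a9, 4), (0x106487a9, 4)]⟩

def c_5617 : frmChk tB tA F_5617 = true := by decide +kernel

def r_5617_0 : chkL rootF engF2 tB tA sB_460 sA_460 4 F_5617 [(511, 0, 0)]
    0x1 = true := by
  decide +kernel

theorem f_5617 (h : TabsF) : FrameF repsF 460 F_5617.f :=
  frame_of rfl c_5617 (runs_of engOK r_5617_0) (by decide +kernel) h.2 h.1

def F_5618 : FrX :=
  ⟨0x1001040012008080000e00840800410008101000060000048040400220180080280100800100110240041400800010406000090100100028048408010090,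
    0xa3, 1, 0x103240628194a0, 7,
    [(0xa3, 1), (0x207584a6, 4), (0x10547693, 4), (0x647593a8, 4), (0x10547693, 4), (0x216485a7, 4), (0x208693a4, 4), (0x647593a8, 4), (0x208693a4, 4), (0x106574a8, 4), (0x647593a8, 4), (0x216485a7, 4)],
    [(0x103240628194a0, 7), (0x304152a6, 4), (0x417095a8, 4), (0x41738692, 4), (0x304152a6, 4), (0x417095a8, 4)]⟩

def c_5618 : frmChk tB tA F_5618 = true := by decide +kernel

def r_5618_0 : chkL rootF engF2 tB tA sB_460 sA_460 4 F_5618 [(511, 0, 0)]
    0x1 = true := by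
  decide +kernel

theorem f_5618 (h : TabsF) : FrameF repsF 460 F_5618.f :=
  frame_of rfl c_5618 (runs_of engOK r_5618_0) (by decide +kernel) h.2 h.1

def F_5619 : FrX :=
  ⟨0x600020801080810000c0040180410101001004010010048000008208142002080400080800442000400110880008800841000120002080480401820102,
    0xa0, 1, 0x5064728193a0, 6,
    [(0xa0, 1), (0x637584a2, 4), (0x547690a1, 4), (0x64758390, 4), (0x547690a1, 4), (0x21647385, 4), (0x438690a2, 4), (0x64758390, 4), (0x438690a2, 4), (0x657483a1, 4), (0x64758390, 4), (0x21647385, 4)],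
    [(0x5064728193a0, 6), (0x206194a7, 4), (0x425360a8, 4), (0x20536491, 4), (0x425360a8, 4), (0x10648792, 4), (0x415396a7, 4), (0x20536491, 4), (0x415396a7, 4), (0x406291a8, 4), (0x20536491, 4), (0x10648792, 4)]⟩

def c_5619 : frmChk tB tB F_5619 = true := by decide +kernel

def r_5619_0 : chkL rootF engF2 tB tB sB_460 sB_460 4 F_5619 [(511, 0, 0)]
    0x1 = true := by
  decide +kernel

theorem f_5619 (h : TabsF) : FrameF repsF 460 F_5619.f :=
  frame_of rfl c_5619 (runs_of engOK r_5619_0) (by decide +kernel) h.2 h.2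

def F_5620 : FrX :=
  ⟨0x2002000900044004000e0204100014100080004080080024800120200a000c00040081000888000812000200400048800045000026010200401402026000,
    0xa3, 1, 0x5264708391a3, 6,
    [(0xa3, 1), (0x208693a5, 4), (0x10548793, 4), (0x217693a4, 4), (0x208693a5, 4), (0x10548793, 4)],
    [(0x5264708391a3, 6), (0x437581a2, 4), (0x30628197, 4), (0x408195a6, 4), (0x437581a2, 4), (0x30628197, 4)]⟩

def c_5620 : frmChk tA tA F_5620 = true := by decide +kernel

def r_5620_0 : chkL rootF engF2 tA tA sA_460 sA_460 4 F_5620 [(511, 0, 0)]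
    0x1 = true := by
  decide +kernel

theorem f_5620 (h : TabsF) : FrameF repsF 460 F_5620.f :=
  frame_of rfl c_5620 (runs_of engOK r_5620_0) (by decide +kernel) h.1 h.1

theorem cl_460 (h : TabsF) : ∀ f ∈ fr_460, FrameF repsF 460 f :=
  List.forall_mem_cons.2 ⟨f_5605 h, List.forall_mem_cons.2 ⟨f_5606 h, List.forall_mem_cons.2 ⟨f_5607 h, List.forall_mem_cons.2 ⟨f_5608 h, List.forall_mem_cons.2 ⟨f_5609 h, List.forall_mem_cons.2 ⟨f_5610 h, List.forall_mem_cons.2 ⟨f_5611 h, List.forall_mem_cons.2 ⟨f_5612 h, List.forall_mem_cons.2 ⟨f_5613 h, List.forall_mem_cons.2 ⟨f_5614 h, List.forall_mem_cons.2 ⟨f_5615 h, List.forall_mem_cons.2 ⟨f_5616 h, List.forall_mem_cons.2 ⟨f_5617 h, List.forall_mem_cons.2 ⟨f_5618 h, List.forall_mem_cons.2 ⟨f_5619 h, List.forall_mem_cons.2 ⟨f_5620 h,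
    fun _ h0 => absurd h0 List.not_mem_nil⟩⟩⟩⟩⟩⟩⟩⟩⟩⟩⟩⟩⟩⟩⟩⟩

def F_5621 : FrX :=
  ⟨0x2002000900044004000e020410001410008000408100000481808024020014001400800100a0040802020200500010002080022004c00210440202020010,
    0xa3, 1, 0x1032526484a3, 6,
    [(0xa3, 1), (0x208693a5, 4), (0x10548793, 4), (0x217693a4, 4), (0x208693a5, 4), (0x10548793, 4)],
    [(0x1032526484a3, 6), (0x516492a3, 4), (0x10768392, 4), (0x507492a8, 4), (0x516492a3, 4), (0x10768392, 4)]⟩

def c_5621 : frmChk tA tA F_5621 = true := by decide +kernel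

def r_5621_0 : chkL rootF engF2 tA tA sA_461 sA_461 4 F_5621 [(511, 0, 0)]
    0x1 = true := by
  decide +kernel

theorem f_5621 (h : TabsF) : FrameF repsF 461 F_5621.f :=
  frame_of rfl c_5621 (runs_of engOK r_5621_0) (by decide +kernel) h.1 h.1

def F_5622 : FrX :=
  ⟨0x2002000900044004000e0204100014100080004081000224041000011080104200008800400200820a000052000410000280a100400800100440802080c0,
    0xa3, 1, 0x41527382a6, 5,
    [(0xa3, 1), (0x208693a5, 4), (0x10548793, 4), (0x217693a4, 4), (0x208693a5, 4), (0x10548793, 4)],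
    [(0x41527382a6, 5), (0x325180a7, 4), (0x214096a3, 4), (0x327596a1, 4), (0x214096a3, 4), (0x527384a1, 4), (0x718096a5, 4), (0x327596a1, 4), (0x718096a5, 4), (0x314075a2, 4), (0x327596a1, 4), (0x527384a1, 4)]⟩

def c_5622 : frmChk tA tB F_5622 = true := by decide +kernel

def r_5622_0 : chkL rootF engF2 tA tB sA_461 sB_461 4 F_5622 [(511, 0, 0)]
    0x1 = true := by
  decide +kernel

theorem f_5622 (h : TabsF) : FrameF repsF 461 F_5622.f :=
  frame_of rfl c_5622 (runs_of engOK r_5622_0) (by decide +kernel) h.1 h.2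

def F_5623 : FrX :=
  ⟨0x80080a000804040e00002101002001000002040883600002008400000040080049012010040000002022800600302001140041084403010480010200000,
    0xa6, 1, 0x102130657683a3, 7,
    [(0xa6, 1), (0x205396a8, 4), (0x10548796, 4), (0x214396a7, 4), (0x205396a8, 4), (0x10548796, 4)],
    [(0x102130657683a3, 7), (0x307198a6, 4), (0x32516498, 4), (0x207598a4, 4), (0x307198a6, 4), (0x32516498, 4)]⟩

def c_5623 : frmChk tA tA F_5623 = true := by decide +kernel

def r_5623_0 : chkL rootF engF2 tA tA sA_461 sA_461 4 F_5623 [(511, 0, 0)]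
    0x1 = true := by
  decide +kernel

theorem f_5623 (h : TabsF) : FrameF repsF 461 F_5623.f :=
  frame_of rfl c_5623 (runs_of engOK r_5623_0) (by decide +kernel) h.1 h.1

def F_5624 : FrX :=
  ⟨0x482000044040440000c2040020009000182040020001160000080804040881200000111020081000040010084808008100001210040120044841010200,
    0xa0, 1, 0x102142647387a5, 7,
    [(0xa0, 1), (0x538690a2, 4), (0x548790a1, 4), (0x21437690, 4), (0x538690a2, 4), (0x548790a1, 4)],
    [(0x102142647387a5, 7), (0x304195a7, 4), (0x218395a6, 4), (0x42768095, 4), (0x304195a7, 4), (0x218395a6, 4)]⟩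

def c_5624 : frmChk tA tA F_5624 = true := by decide +kernel

def r_5624_0 : chkL rootF engF2 tA tA sA_461 sA_461 4 F_5624 [(511, 0, 0)]
    0x1 = true := by
  decide +kernel

theorem f_5624 (h : TabsF) : FrameF repsF 461 F_5624.f :=
  frame_of rfl c_5624 (runs_of engOK r_5624_0) (by decide +kernel) h.1 h.1

def F_5625 : FrX :=
  ⟨0x482000044040440000c2040020009000182040001011100000a0009002400200808041008a008102000200022208008210010040200202002041010202,
    0xa0, 1, 0x20304264758292a3, 8,
    [(0xa0, 1), (0x538690a2, 4), (0x548790a1, 4), (0x21437690, 4), (0x538690a2, 4), (0x548790a1, 4)],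
    [(0x20304264758292a3, 8), (0x408293a7, 4), (0x31547682, 4), (0x508291a6, 4), (0x408293a7, 4), (0x31547682, 4)]⟩

def c_5625 : frmChk tA tA F_5625 = true := by decide +kernel

def r_5625_0 : chkL rootF engF2 tA tA sA_461 sA_461 4 F_5625 [(511, 0, 0)]
    0x1 = true := by
  decide +kernel

theorem f_5625 (h : TabsF) : FrameF repsF 461 F_5625.f :=
  frame_of rfl c_5625 (runs_of engOK r_5625_0) (by decide +kernel) h.1 h.1

def F_5626 : FrX :=
  ⟨0x80080a000804040e00002101002001000002040890080000304010008410001040208411800080400008400434010000040041030012221004900020000,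
    0xa6, 1, 0x21304152638594a0, 8,
    [(0xa6, 1), (0x205396a8, 4), (0x10548796, 4), (0x214396a7, 4), (0x205396a8, 4), (0x10548796, 4)],
    [(0x21304152638594a0, 8), (0x103286a5, 4), (0x327198a4, 4), (0x32547096, 4), (0x103286a5, 4), (0x327198a4, 4)]⟩

def c_5626 : frmChk tA tA F_5626 = true := by decide +kernel

def r_5626_0 : chkL rootF engF2 tA tA sA_461 sA_461 4 F_5626 [(511, 0, 0)]
    0x1 = true := by
  decide +kernel

theorem f_5626 (h : TabsF) : FrameF repsF 461 F_5626.f :=
  frame_of rfl c_5626 (runs_of engOK r_5626_0) (by decide +kernel) h.1 h.1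

def F_5627 : FrX :=
  ⟨0x2002000900044004000e0204100014100080004080100028202000210000c084440000111900001000400010438000040100082010841020044810082000,
    0xa3, 1, 0x104051628396a2, 7,
    [(0xa3, 1), (0x208693a5, 4), (0x10548793, 4), (0x217693a4, 4), (0x208693a5, 4), (0x10548793, 4)],
    [(0x104051628396a2, 7), (0x317098a4, 4), (0x10546297, 4), (0x62708391, 4), (0x10546297, 4), (0x308791a5, 4), (0x628193a4, 4), (0x62708391, 4), (0x628193a4, 4), (0x54718390, 4), (0x62708391, 4), (0x308791a5, 4)]⟩

def c_5627 : frmChk tA tB F_5627 = true := by decide +kernel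

def r_5627_0 : chkL rootF engF2 tA tB sA_461 sB_461 4 F_5627 [(511, 0, 0)]
    0x1 = true := by
  decide +kernel

theorem f_5627 (h : TabsF) : FrameF repsF 461 F_5627.f :=
  frame_of rfl c_5627 (runs_of engOK r_5627_0) (by decide +kernel) h.1 h.2

def F_5628 : FrX :=
  ⟨0x482000044040440000c2040020009000182040001101002000840800004090008212001028001000500011c04008800024000206080082010010800011,
    0xa0, 1, 0x10708293a4, 5,
    [(0xa0, 1), (0x538690a2, 4), (0x548790a1, 4), (0x21437690, 4), (0x538690a2, 4), (0x548790a1, 4)],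
    [(0x10708293a4, 5), (0x518796a2, 4), (0x436170a5, 4), (0x435192a6, 4), (0x436170a5, 4), (0x528091a6, 4), (0x436287a9, 4), (0x435192a6, 4), (0x436287a9, 4), (0x657092a1, 4), (0x435192a6, 4), (0x528091a6, 4)]⟩

def c_5628 : frmChk tA tB F_5628 = true := by decide +kernel

def r_5628_0 : chkL rootF engF2 tA tB sA_461 sB_461 4 F_5628 [(511, 0, 0)]
    0x1 = true := by
  decide +kernel

theorem f_5628 (h : TabsF) : FrameF repsF 461 F_5628.f :=
  frame_of rfl c_5628 (runs_of engOK r_5628_0) (by decide +kernel) h.1 h.2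

def F_5629 : FrX :=
  ⟨0x80080a000804040e00002101002001000002040880422000408088000810001201002060002080080028000023000202500040030002201100061020210,
    0xa6, 1, 0x104162748491a2, 7,
    [(0xa6, 1), (0x205396a8, 4), (0x10548796, 4), (0x214396a7, 4), (0x205396a8, 4), (0x10548796, 4)],
    [(0x104162748491a2, 7), (0x536472a1, 4), (0x64708591, 4), (0x206483a9, 4), (0x536472a1, 4), (0x64708591, 4)]⟩

def c_5629 : frmChk tA tA F_5629 = true := by decide +kernel

def r_5629_0 : chkL rootF engF2 tA tA sA_461 sA_461 4 F_5629 [(511, 0, 0)]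
    0x1 = true := by
  decide +kernel

theorem f_5629 (h : TabsF) : FrameF repsF 461 F_5629.f :=
  frame_of rfl c_5629 (runs_of engOK r_5629_0) (by decide +kernel) h.1 h.1

def F_5630 : FrX :=
  ⟨0x1c2102000004044000002041000101000082040890040100000804200202008008012201008009008400031804408800024040022080002040880800090,
    0x0, 0, 0x2064, 2,
    [(0x0, 0), (0x205386a9, 4), (0x105487a9, 4), (0x214376a9, 4), (0x205386a9, 4), (0x105487a9, 4)],
    [(0x2064, 2), (0x205384a9, 4), (0x216587a9, 4), (0x106374a9, 4), (0x205384a9, 4), (0x216587a9, 4)]⟩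

def c_5630 : frmChk tA tA F_5630 = true := by decide +kernel

def r_5630_0 : chkL rootF engF2 tA tA sA_461 sA_461 4 F_5630 [(511, 0, 0)]
    0x1 = true := by
  decide +kernel

theorem f_5630 (h : TabsF) : FrameF repsF 461 F_5630.f :=
  frame_of rfl c_5630 (runs_of engOK r_5630_0) (by decide +kernel) h.1 h.1

def F_5631 : FrX :=
  ⟨0x482000044040440000c2040020009000182040001014008004200004020800030a2000090200048000120020a220020800086040010082002220000042,
    0xa0, 1, 0x10324365708496a8, 8,
    [(0xa0, 1), (0x538690a2, 4), (0x548790a1, 4), (0x21437690, 4), (0x538690a2, 4), (0x548790a1, 4)],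
    [(0x10324365708496a8, 8), (0x526473a9, 4), (0x527086a1, 4), (0x30528491, 4), (0x526473a9, 4), (0x527086a1, 4)]⟩

def c_5631 : frmChk tA tA F_5631 = true := by decide +kernel

def r_5631_0 : chkL rootF engF2 tA tA sA_461 sA_461 4 F_5631 [(511, 0, 0)]
    0x1 = true := by
  decide +kernel

theorem f_5631 (h : TabsF) : FrameF repsF 461 F_5631.f :=
  frame_of rfl c_5631 (runs_of engOK r_5631_0) (by decide +kernel) h.1 h.1

def F_5632 : FrX :=
  ⟨0x80080a000804040e00002101002001000002040890080000304002404220008008404001008008808410001804401800042000022008002040802440090,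
    0xa6, 1, 0x21314351748595a2, 8,
    [(0xa6, 1), (0x205396a8, 4), (0x10548796, 4), (0x214396a7, 4), (0x205396a8, 4), (0x10548796, 4)],
    [(0x21314351748595a2, 8), (0x638194a0, 4), (0x32508197, 4), (0x627481a5, 4), (0x638194a0, 4), (0x32508197, 4)]⟩

def c_5632 : frmChk tA tA F_5632 = true := by decide +kernel

def r_5632_0 : chkL rootF engF2 tA tA sA_461 sA_461 4 F_5632 [(511, 0, 0)]
    0x41b = true := by
  decide +kernel

theorem f_5632 (h : TabsF) : FrameF repsF 461 F_5632.f :=
  frame_of rfl c_5632 (runs_of engOK r_5632_0) (by decide +kernel) h.1 h.1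

def F_5633 : FrX :=
  ⟨0x80080a000804040e000021010020010000020408806000081080880000101410410004102002800020280005a000100202001002041020c0002000a0210,
    0xa6, 1, 0x31738793a0, 5,
    [(0xa6, 1), (0x205396a8, 4), (0x10548796, 4), (0x214396a7, 4), (0x205396a8, 4), (0x10548796, 4)],
    [(0x31738793a0, 5), (0x418596a2, 4), (0x547086a3, 4), (0x64708591, 4), (0x547086a3, 4), (0x32516498, 4), (0x617094a2, 4), (0x64708591, 4), (0x617094a2, 4), (0x658491a3, 4), (0x64708591, 4), (0x32516498, 4)]⟩

def c_5633 : frmChk tA tB F_5633 = true := by decide +kernel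

def r_5633_0 : chkL rootF engF2 tA tB sA_461 sB_461 4 F_5633 [(511, 0, 0)]
    0x1 = true := by
  decide +kernel

theorem f_5633 (h : TabsF) : FrameF repsF 461 F_5633.f :=
  frame_of rfl c_5633 (runs_of engOK r_5633_0) (by decide +kernel) h.1 h.2

def F_5634 : FrX :=
  ⟨0x600020801080810000c004018041010100100400402400040002402420c0000808008150810001000002004c801000042042001010002000c2004080c0,
    0xa0, 1, 0x21315060748695a6, 8,
    [(0xa0, 1), (0x637584a2, 4), (0x547690a1, 4), (0x64758390, 4), (0x547690a1, 4), (0x21647385, 4), (0x438690a2, 4), (0x64758390, 4), (0x438690a2, 4), (0x657483a1, 4), (0x64758390, 4), (0x21647385, 4)],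
    [(0x21315060748695a6, 8), (0x618092a5, 4), (0x54638097, 4), (0x317280a4, 4), (0x618092a5, 4), (0x54638097, 4)]⟩

def c_5634 : frmChk tB tA F_5634 = true := by decide +kernel

def r_5634_0 : chkL rootF engF2 tB tA sB_461 sA_461 4 F_5634 [(511, 0, 0)]
    0x1 = true := by
  decide +kernel

theorem f_5634 (h : TabsF) : FrameF repsF 461 F_5634.f :=
  frame_of rfl c_5634 (runs_of engOK r_5634_0) (by decide +kernel) h.2 h.1

def F_5635 : FrX :=
  ⟨0x600020801080810000c004018041010100100400082400800c02400020800008080088108014014000020044a02000040122011001002000c220008080,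
    0xa0, 1, 0x32415463758095a0, 8,
    [(0xa0, 1), (0x637584a2, 4), (0x547690a1, 4), (0x64758390, 4), (0x547690a1, 4), (0x21647385, 4), (0x438690a2, 4), (0x64758390, 4), (0x438690a2, 4), (0x657483a1, 4), (0x64758390, 4), (0x21647385, 4)],
    [(0x32415463758095a0, 8), (0x208796a3, 4), (0x108795a4, 4), (0x21436587, 4), (0x208796a3, 4), (0x108795a4, 4)]⟩

def c_5635 : frmChk tB tA F_5635 = true := by decide +kernel

def r_5635_0 : chkL rootF engF2 tB tA sB_461 sA_461 4 F_5635 [(511, 0, 0)]
    0x1 = true := by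
  decide +kernel

theorem f_5635 (h : TabsF) : FrameF repsF 461 F_5635.f :=
  frame_of rfl c_5635 (runs_of engOK r_5635_0) (by decide +kernel) h.2 h.1

def F_5636 : FrX :=
  ⟨0x1001040012008080000e008408004100081010000600000840400500220008808083000110881008000412020400100040202002108000a1080200040208,
    0xa3, 1, 0x30507590a7, 5,
    [(0xa3, 1), (0x207584a6, 4), (0x10547693, 4), (0x647593a8, 4), (0x10547693, 4), (0x216485a7, 4), (0x208693a4, 4), (0x647593a8, 4), (0x208693a4, 4), (0x106574a8, 4), (0x647593a8, 4), (0x216485a7, 4)],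
    [(0x30507590a7, 5), (0x53708692, 4), (0x537491a8, 4), (0x214053a6, 4), (0x53708692, 4), (0x537491a8, 4)]⟩

def c_5636 : frmChk tB tA F_5636 = true := by decide +kernel

def r_5636_0 : chkL rootF engF2 tB tA sB_461 sA_461 4 F_5636 [(511, 0, 0)]
    0x1 = true := by
  decide +kernel

theorem f_5636 (h : TabsF) : FrameF repsF 461 F_5636.f :=
  frame_of rfl c_5636 (runs_of engOK r_5636_0) (by decide +kernel) h.2 h.1

def F_5637 : FrX :=
  ⟨0x1001040012008080000e00840800410008101000040420028020008200080024220000a0110040310400001202040008c100080400800804022003003000,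
    0xa3, 1, 0x435260748293a1, 7,
    [(0xa3, 1), (0x207584a6, 4), (0x10547693, 4), (0x647593a8, 4), (0x10547693, 4), (0x216485a7, 4), (0x208693a4, 4), (0x647593a8, 4), (0x208693a4, 4), (0x106574a8, 4), (0x647593a8, 4), (0x216485a7, 4)],
    [(0x435260748293a1, 7), (0x41508692, 4), (0x415372a6, 4), (0x304197a8, 4), (0x41508692, 4), (0x415372a6, 4)]⟩

def c_5637 : frmChk tB tA F_5637 = true := by decide +kernel

def r_5637_0 : chkL rootF engF2 tB tA sB_461 sA_461 4 F_5637 [(511, 0, 0)]
    0x1 = true := by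
  decide +kernel

theorem f_5637 (h : TabsF) : FrameF repsF 461 F_5637.f :=
  frame_of rfl c_5637 (runs_of engOK r_5637_0) (by decide +kernel) h.2 h.1

def F_5638 : FrX :=
  ⟨0x600020801080810000c0040180410101001004000a00100800028400041044040012000b80000020202020083020040800008200809088000400088108,
    0xa0, 1, 0x21305064728195a0, 8,
    [(0xa0, 1), (0x637584a2, 4), (0x547690a1, 4), (0x64758390, 4), (0x547690a1, 4), (0x21647385, 4), (0x438690a2, 4), (0x64758390, 4), (0x438690a2, 4), (0x657483a1, 4), (0x64758390, 4), (0x21647385, 4)],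
    [(0x21305064728195a0, 8), (0x406291a7, 4), (0x415396a8, 4), (0x20536491, 4), (0x415396a8, 4), (0x10648792, 4), (0x425360a7, 4), (0x20536491, 4), (0x425360a7, 4), (0x206194a8, 4), (0x20536491, 4), (0x10648792, 4)]⟩

def c_5638 : frmChk tB tB F_5638 = true := by decide +kernel

def r_5638_0 : chkL rootF engF2 tB tB sB_461 sB_461 4 F_5638 [(511, 0, 0)]
    0x1 = true := by
  decide +kernel

theorem f_5638 (h : TabsF) : FrameF repsF 461 F_5638.f :=
  frame_of rfl c_5638 (runs_of engOK r_5638_0) (by decide +kernel) h.2 h.2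

def F_5639 : FrX :=
  ⟨0x482000044040440000c2040020009000182040004021020004080004080021200202041030081022800010084020008008001210140100044200010208,
    0xa0, 1, 0x4065708194a8, 6,
    [(0xa0, 1), (0x538690a2, 4), (0x548790a1, 4), (0x21437690, 4), (0x538690a2, 4), (0x548790a1, 4)],
    [(0x4065708194a8, 6), (0x106372a5, 4), (0x108796a4, 4), (0x10548293, 4), (0x106372a5, 4), (0x108796a4, 4)]⟩

def c_5639 : frmChk tA tA F_5639 = true := by decide +kernel

def r_5639_0 : chkL rootF engF2 tA tA sA_461 sA_461 4 F_5639 [(511, 0, 0)]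
    0x1 = true := by
  decide +kernel

theorem f_5639 (h : TabsF) : FrameF repsF 461 F_5639.f :=
  frame_of rfl c_5639 (runs_of engOK r_5639_0) (by decide +kernel) h.1 h.1

def F_5640 : FrX :=
  ⟨0x482000044040440000c204002000900018204002000110010008080401094120020000002208108088001108400840a100000210080080100020500201,
    0xa0, 1, 0x103041548397a5, 7,
    [(0xa0, 1), (0x538690a2, 4), (0x548790a1, 4), (0x21437690, 4), (0x538690a2, 4), (0x548790a1, 4)],
    [(0x103041548397a5, 7), (0x326170a8, 4), (0x437091a5, 4), (0x42708596, 4), (0x326170a8, 4), (0x437091a5, 4)]⟩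

def c_5640 : frmChk tA tA F_5640 = true := by decide +kernel

def r_5640_0 : chkL rootF engF2 tA tA sA_461 sA_461 4 F_5640 [(511, 0, 0)]
    0x1 = true := by
  decide +kernel

theorem f_5640 (h : TabsF) : FrameF repsF 461 F_5640.f :=
  frame_of rfl c_5640 (runs_of engOK r_5640_0) (by decide +kernel) h.1 h.1

def F_5641 : FrX :=
  ⟨0x80080a000804040e00002101002001000002040881200002208400900040080049010010408004002020800700041002044108001241000440010080010,
    0xa6, 1, 0x31728393a4, 5,
    [(0xa6, 1), (0x205396a8, 4), (0x10548796, 4), (0x214396a7, 4), (0x205396a8, 4), (0x10548796, 4)],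
    [(0x31728393a4, 5), (0x61708495, 4), (0x213084a5, 4), (0x627384a9, 4), (0x61708495, 4), (0x213084a5, 4)]⟩

def c_5641 : frmChk tA tA F_5641 = true := by decide +kernel

def r_5641_0 : chkL rootF engF2 tA tA sA_461 sA_461 4 F_5641 [(511, 0, 0)]
    0x1 = true := by
  decide +kernel

theorem f_5641 (h : TabsF) : FrameF repsF 461 F_5641.f :=
  frame_of rfl c_5641 (runs_of engOK r_5641_0) (by decide +kernel) h.1 h.1

def F_5642 : FrX :=
  ⟨0x2002000900044004000e020410001410008000408008040080a880400001040014008101002a010802024200400000002084020005200200440002026001,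
    0xa3, 1, 0x4162748794a7, 6,
    [(0xa3, 1), (0x208693a5, 4), (0x10548793, 4), (0x217693a4, 4), (0x208693a5, 4), (0x10548793, 4)],
    [(0x4162748794a7, 6), (0x326091a5, 4), (0x408795a2, 4), (0x318792a5, 4), (0x408795a2, 4), (0x516492a3, 4), (0x21608793, 4), (0x318792a5, 4), (0x21608793, 4), (0x314052a9, 4), (0x318792a5, 4), (0x516492a3, 4)]⟩

def c_5642 : frmChk tA tB F_5642 = true := by decide +kernel

def r_5642_0 : chkL rootF engF2 tA tB sA_461 sB_461 4 F_5642 [(511, 0, 0)]
    0x1 = true := by
  decide +kernel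

theorem f_5642 (h : TabsF) : FrameF repsF 461 F_5642.f :=
  frame_of rfl c_5642 (runs_of engOK r_5642_0) (by decide +kernel) h.1 h.2

def F_5643 : FrX :=
  ⟨0x482000044040440000c204002000900018204001001004800400040400a008110800100802080480000140081020010008086002004402510a02000004,
    0xa0, 1, 0x104064708197a2, 7,
    [(0xa0, 1), (0x538690a2, 4), (0x548790a1, 4), (0x21437690, 4), (0x538690a2, 4), (0x548790a1, 4)],
    [(0x104064708197a2, 7), (0x104253a7, 4), (0x42658790, 4), (0x426391a8, 4), (0x104253a7, 4), (0x42658790, 4)]⟩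

def c_5643 : frmChk tA tA F_5643 = true := by decide +kernel

def r_5643_0 : chkL rootF engF2 tA tA sA_461 sA_461 4 F_5643 [(511, 0, 0)]
    0x439 = true := by
  decide +kernel

theorem f_5643 (h : TabsF) : FrameF repsF 461 F_5643.f :=
  frame_of rfl c_5643 (runs_of engOK r_5643_0) (by decide +kernel) h.1 h.1

def F_5644 : FrX :=
  ⟨0x2002000900044004000e0204100014100080004081000001810100410200244022010000400460848002a100000010080010820400800800840200008290,
    0xa3, 1, 0x314254638495a7, 7,
    [(0xa3, 1), (0x208693a5, 4), (0x10548793, 4), (0x217693a4, 4), (0x208693a5, 4), (0x10548793, 4)],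
    [(0x314254638495a7, 7), (0x40517296, 4), (0x307298a5, 4), (0x437286a1, 4), (0x40517296, 4), (0x307298a5, 4)]⟩

def c_5644 : frmChk tA tA F_5644 = true := by decide +kernel

def r_5644_0 : chkL rootF engF2 tA tA sA_461 sA_461 4 F_5644 [(511, 0, 0)]
    0x1 = true := by
  decide +kernel

theorem f_5644 (h : TabsF) : FrameF repsF 461 F_5644.f :=
  frame_of rfl c_5644 (runs_of engOK r_5644_0) (by decide +kernel) h.1 h.1

def F_5645 : FrX :=
  ⟨0x80080a000804040e0000210100200100000204089002000220400140028000800804440100800a000800801010210080020c48420080402100880200080,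
    0xa6, 1, 0x3142758792a3, 6,
    [(0xa6, 1), (0x205396a8, 4), (0x10548796, 4), (0x214396a7, 4), (0x205396a8, 4), (0x10548796, 4)],
    [(0x3142758792a3, 6), (0x528790a6, 4), (0x30417286, 4), (0x416287a5, 4), (0x30417286, 4), (0x627593a8, 4), (0x416590a2, 4), (0x416287a5, 4), (0x416590a2, 4), (0x307682a5, 4), (0x416287a5, 4), (0x627593a8, 4)]⟩

def c_5645 : frmChk tA tB F_5645 = true := by decide +kernel

def r_5645_0 : chkL rootF engF2 tA tB sA_461 sB_461 4 F_5645 [(511, 0, 0)]
    0x1 = true := by
  decide +kernel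

theorem f_5645 (h : TabsF) : FrameF repsF 461 F_5645.f :=
  frame_of rfl c_5645 (runs_of engOK r_5645_0) (by decide +kernel) h.1 h.2

def F_5646 : FrX :=
  ⟨0x2002000900044004000e0204100014100080004081000004221000011100024104010800800242080808010e000004004300200a40040020040040200201,
    0xa3, 1, 0x21405062718396a8, 8,
    [(0xa3, 1), (0x208693a5, 4), (0x10548793, 4), (0x217693a4, 4), (0x208693a5, 4), (0x10548793, 4)],
    [(0x21405062718396a8, 8), (0x316584a9, 4), (0x314075a2, 4), (0x31768092, 4), (0x316584a9, 4), (0x314075a2, 4)]⟩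

def c_5646 : frmChk tA tA F_5646 = true := by decide +kernel

def r_5646_0 : chkL rootF engF2 tA tA sA_461 sA_461 4 F_5646 [(511, 0, 0)]
    0x1 = true := by
  decide +kernel

theorem f_5646 (h : TabsF) : FrameF repsF 461 F_5646.f :=
  frame_of rfl c_5646 (runs_of engOK r_5646_0) (by decide +kernel) h.1 h.1

def F_5647 : FrX :=
  ⟨0x482000044040440000c2040020009000182040002101008101200008000c040048800020220002010204006000840c0080010006200402420002808008,
    0xa0, 1, 0x304154607482a6, 7,
    [(0xa0, 1), (0x538690a2, 4), (0x548790a1, 4), (0x21437690, 4), (0x538690a2, 4), (0x548790a1, 4)],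
    [(0x304154607482a6, 7), (0x517286a0, 4), (0x647193a5, 4), (0x205193a7, 4), (0x647193a5, 4), (0x215084a7, 4), (0x708693a2, 4), (0x205193a7, 4), (0x708693a2, 4), (0x206475a1, 4), (0x205193a7, 4), (0x215084a7, 4)]⟩

def c_5647 : frmChk tA tB F_5647 = true := by decide +kernel

def r_5647_0 : chkL rootF engF2 tA tB sA_461 sB_461 4 F_5647 [(511, 0, 0)]
    0x1 = true := by
  decide +kernel

theorem f_5647 (h : TabsF) : FrameF repsF 461 F_5647.f :=
  frame_of rfl c_5647 (runs_of engOK r_5647_0) (by decide +kernel) h.1 h.2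

def F_5648 : FrX :=
  ⟨0x1c21020000040440000020410001010000820408a0001100000024200400a0200008806400200800c080404206000800284000022200822002004600200,
    0x0, 0, 0x21436575, 4,
    [(0x0, 0), (0x205386a9, 4), (0x105487a9, 4), (0x214376a9, 4), (0x205386a9, 4), (0x105487a9, 4)],
    [(0x21436575, 4), (0x10547683, 4), (0x206573a9, 4), (0x537684a9, 4), (0x206573a9, 4), (0x21536487, 4), (0x104385a9, 4), (0x537684a9, 4), (0x104385a9, 4), (0x20637584, 4), (0x537684a9, 4), (0x21536487, 4)]⟩

def c_5648 : frmChk tA tB F_5648 = true := by decide +kernel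

def r_5648_0 : chkL rootF engF2 tA tB sA_461 sB_461 4 F_5648 [(511, 0, 0)]
    0x1 = true := by
  decide +kernel

theorem f_5648 (h : TabsF) : FrameF repsF 461 F_5648.f :=
  frame_of rfl c_5648 (runs_of engOK r_5648_0) (by decide +kernel) h.1 h.2

theorem cl_461 (h : TabsF) : ∀ f ∈ fr_461, FrameF repsF 461 f :=
  List.forall_mem_cons.2 ⟨f_5621 h, List.forall_mem_cons.2 ⟨f_5622 h, List.forall_mem_cons.2 ⟨f_5623 h, List.forall_mem_cons.2 ⟨f_5624 h, List.forall_mem_cons.2 ⟨f_5625 h, List.forall_mem_cons.2 ⟨f_5626 h, List.forall_mem_cons.2 ⟨f_5627 h, List.forall_mem_cons.2 ⟨f_5628 h, List.forall_mem_cons.2 ⟨f_5629 h, List.forall_mem_cons.2 ⟨f_5630 h, List.forall_mem_cons.2 ⟨f_5631 h, List.forall_mem_cons.2 ⟨f_5632 h, List.forall_mem_cons.2 ⟨f_5633 h, List.forall_mem_cons.2 ⟨f_5634 h, List.forall_mem_cons.2 ⟨f_5635 h, List.forall_mem_cons.2 ⟨f_5636 h, List.forall_mem_cons.2 ⟨f_5637 h, List.forall_mem_cons.2 ⟨f_5638 h, List.forall_mem_cons.2 ⟨f_5639 h, List.forall_mem_cons.2 ⟨f_5640 h, List.forall_mem_cons.2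 ⟨f_5641 h, List.forall_mem_cons.2 ⟨f_5642 h, List.forall_mem_cons.2 ⟨f_5643 h, List.forall_mem_cons.2 ⟨f_5644 h, List.forall_mem_cons.2 ⟨f_5645 h, List.forall_mem_cons.2 ⟨f_5646 h, List.forall_mem_cons.2 ⟨f_5647 h, List.forall_mem_cons.2 ⟨f_5648 h,
    fun _ h0 => absurd h0 List.not_mem_nil⟩⟩⟩⟩⟩⟩⟩⟩⟩⟩⟩⟩⟩⟩⟩⟩⟩⟩⟩⟩⟩⟩⟩⟩⟩⟩⟩⟩

def F_5649 : FrX :=
  ⟨0x80080a000804040e000021010020010000020408b20000040400100084410010400420110000a100004800044400204024100101000042020c101008080,
    0xa6, 1, 0x3241607186a6, 6,
    [(0xa6, 1), (0x205396a8, 4), (0x10548796, 4), (0x214396a7, 4), (0x205396a8, 4), (0x10548796, 4)],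
    [(0x3241607186a6, 6), (0x526398a0, 4), (0x40517698, 4), (0x217398a4, 4), (0x526398a0, 4), (0x40517698, 4)]⟩

def c_5649 : frmChk tA tA F_5649 = true := by decide +kernel

def r_5649_0 : chkL rootF engF2 tA tA sA_462 sA_462 4 F_5649 [(511, 0, 0)]
    0x1 = true := by
  decide +kernel

theorem f_5649 (h : TabsF) : FrameF repsF 462 F_5649.f :=
  frame_of rfl c_5649 (runs_of engOK r_5649_0) (by decide +kernel) h.1 h.1

def F_5650 : FrX :=
  ⟨0x1c21020000040440000020410001010000820408900800800010041004001010408080711000a000004040444400004030008101010402020c008400080,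
    0x0, 0, 0x54647587, 4,
    [(0x0, 0), (0x205386a9, 4), (0x105487a9, 4), (0x214376a9, 4), (0x205386a9, 4), (0x105487a9, 4)],
    [(0x54647587, 4), (0x20536487, 4), (0x107685a9, 4), (0x436587a9, 4), (0x107685a9, 4), (0x21657483, 4), (0x205463a9, 4), (0x436587a9, 4), (0x205463a9, 4), (0x10437586, 4), (0x436587a9, 4), (0x21657483, 4)]⟩

def c_5650 : frmChk tA tB F_5650 = true := by decide +kernel

def r_5650_0 : chkL rootF engF2 tA tB sA_462 sB_462 4 F_5650 [(511, 0, 0)]
    0x1 = true := by
  decide +kernel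

theorem f_5650 (h : TabsF) : FrameF repsF 462 F_5650.f :=
  frame_of rfl c_5650 (runs_of engOK r_5650_0) (by decide +kernel) h.1 h.2

def F_5651 : FrX :=
  ⟨0x2002000900044004000e02041000141000800040811400082008002002000180140028031100000004040404440000002300082030005020208018002001,
    0xa3, 1, 0x20546183a3, 5,
    [(0xa3, 1), (0x208693a5, 4), (0x10548793, 4), (0x217693a4, 4), (0x208693a5, 4), (0x10548793, 4)],
    [(0x20546183a3, 5), (0x203198a4, 4), (0x54627398, 4), (0x607198a5, 4), (0x203198a4, 4), (0x54627398, 4)]⟩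

def c_5651 : frmChk tA tA F_5651 = true := by decide +kernel

def r_5651_0 : chkL rootF engF2 tA tA sA_462 sA_462 4 F_5651 [(511, 0, 0)]
    0x1 = true := by
  decide +kernel

theorem f_5651 (h : TabsF) : FrameF repsF 462 F_5651.f :=
  frame_of rfl c_5651 (runs_of engOK r_5651_0) (by decide +kernel) h.1 h.1

def F_5652 : FrX :=
  ⟨0x2002000900044004000e02041000141000800040800401042010200010400a0200808800408200020a000102000048040280890060200000802004210300,
    0xa3, 1, 0x314352627195a2, 7,
    [(0xa3, 1), (0x208693a5, 4), (0x10548793, 4), (0x217693a4, 4), (0x208693a5, 4), (0x10548793, 4)],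
    [(0x314352627195a2, 7), (0x628594a0, 4), (0x62708391, 4), (0x415362a7, 4), (0x628594a0, 4), (0x62708391, 4)]⟩

def c_5652 : frmChk tA tA F_5652 = true := by decide +kernel

def r_5652_0 : chkL rootF engF2 tA tA sA_462 sA_462 4 F_5652 [(511, 0, 0)]
    0x1 = true := by
  decide +kernel

theorem f_5652 (h : TabsF) : FrameF repsF 462 F_5652.f :=
  frame_of rfl c_5652 (runs_of engOK r_5652_0) (by decide +kernel) h.1 h.1

def F_5653 : FrX :=
  ⟨0x482000044040440000c20400200090001820400020205000010801000111018002000711200800008004000c4000040300001210104120004008010208,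
    0xa0, 1, 0x31405165758293a5, 8,
    [(0xa0, 1), (0x538690a2, 4), (0x548790a1, 4), (0x21437690, 4), (0x538690a2, 4), (0x548790a1, 4)],
    [(0x31405165758293a5, 8), (0x327184a9, 4), (0x546271a0, 4), (0x63718590, 4), (0x327184a9, 4), (0x546271a0, 4)]⟩

def c_5653 : frmChk tA tA F_5653 = true := by decide +kernel

def r_5653_0 : chkL rootF engF2 tA tA sA_462 sA_462 4 F_5653 [(511, 0, 0)]
    0x1 = true := by
  decide +kernel

theorem f_5653 (h : TabsF) : FrameF repsF 462 F_5653.f :=
  frame_of rfl c_5653 (runs_of engOK r_5653_0) (by decide +kernel) h.1 h.1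

def F_5654 : FrX :=
  ⟨0x482000044040440000c2040020009000182040002100404001020400000c04800880070800011410000020604000040100801204100320001002240008,
    0xa0, 1, 0x4053768192a0, 6,
    [(0xa0, 1), (0x538690a2, 4), (0x548790a1, 4), (0x21437690, 4), (0x538690a2, 4), (0x548790a1, 4)],
    [(0x4053768192a0, 6), (0x425371a9, 4), (0x304261a8, 4), (0x42507698, 4), (0x425371a9, 4), (0x304261a8, 4)]⟩

def c_5654 : frmChk tA tA F_5654 = true := by decide +kernel

def r_5654_0 : chkL rootF engF2 tA tA sA_462 sA_462 4 F_5654 [(511, 0, 0)]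
    0x1 = true := by
  decide +kernel

theorem f_5654 (h : TabsF) : FrameF repsF 462 F_5654.f :=
  frame_of rfl c_5654 (runs_of engOK r_5654_0) (by decide +kernel) h.1 h.1

def F_5655 : FrX :=
  ⟨0x2002000900044004000e0204100014100080004081000004804800200a000420140081020028011810040600400000082100280284000220040042002001,
    0xa3, 1, 0x105262728591a0, 7,
    [(0xa3, 1), (0x208693a5, 4), (0x10548793, 4), (0x217693a4, 4), (0x208693a5, 4), (0x10548793, 4)],
    [(0x105262728591a0, 7), (0x425386a7, 4), (0x106584a9, 4), (0x10325486, 4), (0x106584a9, 4), (0x54638297, 4), (0x104352a7, 4), (0x10325486, 4), (0x104352a7, 4), (0x326485a9, 4), (0x10325486, 4), (0x54638297, 4)]⟩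

def c_5655 : frmChk tA tB F_5655 = true := by decide +kernel

def r_5655_0 : chkL rootF engF2 tA tB sA_462 sB_462 4 F_5655 [(511, 0, 0)]
    0x1 = true := by
  decide +kernel

theorem f_5655 (h : TabsF) : FrameF repsF 462 F_5655.f :=
  frame_of rfl c_5655 (runs_of engOK r_5655_0) (by decide +kernel) h.1 h.2

def F_5656 : FrX :=
  ⟨0x482000044040440000c204002000900018204001001304000080081008040200808041000004810200001201050801001400a004084002040c00010410,
    0xa0, 1, 0x103140526382a3, 7,
    [(0xa0, 1), (0x538690a2, 4), (0x548790a1, 4), (0x21437690, 4), (0x538690a2, 4), (0x548790a1, 4)],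
    [(0x103140526382a3, 7), (0x517284a0, 4), (0x21437096, 4), (0x107296a5, 4), (0x21437096, 4), (0x105283a7, 4), (0x508496a1, 4), (0x107296a5, 4), (0x508496a1, 4), (0x204371a5, 4), (0x107296a5, 4), (0x105283a7, 4)]⟩

def c_5656 : frmChk tA tB F_5656 = true := by decide +kernel

def r_5656_0 : chkL rootF engF2 tA tB sA_462 sB_462 4 F_5656 [(511, 0, 0)]
    0x1 = true := by
  decide +kernel

theorem f_5656 (h : TabsF) : FrameF repsF 462 F_5656.f :=
  frame_of rfl c_5656 (runs_of engOK r_5656_0) (by decide +kernel) h.1 h.2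

def F_5657 : FrX :=
  ⟨0x482000044040440000c2040020009000182040001009012004200004080082008202001022041020000012000920008000820210001082102210800201,
    0xa0, 1, 0x314252637184a0, 7,
    [(0xa0, 1), (0x538690a2, 4), (0x548790a1, 4), (0x21437690, 4), (0x538690a2, 4), (0x548790a1, 4)],
    [(0x314252637184a0, 7), (0x216490a5, 4), (0x328490a7, 4), (0x31758690, 4), (0x216490a5, 4), (0x328490a7, 4)]⟩

def c_5657 : frmChk tA tA F_5657 = true := by decide +kernel

def r_5657_0 : chkL rootF engF2 tA tA sA_462 sA_462 4 F_5657 [(511, 0, 0)]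
    0x1 = true := by
  decide +kernel

theorem f_5657 (h : TabsF) : FrameF repsF 462 F_5657.f :=
  frame_of rfl c_5657 (runs_of engOK r_5657_0) (by decide +kernel) h.1 h.1

def F_5658 : FrX :=
  ⟨0x80080a000804040e0000210100200100000204088060000810840008001040004908041004008000202428050010100200400a020402640400402000010,
    0xa6, 1, 0x304351708197a2, 7,
    [(0xa6, 1), (0x205396a8, 4), (0x10548796, 4), (0x214396a7, 4), (0x205396a8, 4), (0x10548796, 4)],
    [(0x304351708197a2, 7), (0x324165a7, 4), (0x10328795, 4), (0x324096a8, 4), (0x324165a7, 4), (0x10328795, 4)]⟩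

def c_5658 : frmChk tA tA F_5658 = true := by decide +kernel

def r_5658_0 : chkL rootF engF2 tA tA sA_462 sA_462 4 F_5658 [(511, 0, 0)]
    0x1 = true := by
  decide +kernel

theorem f_5658 (h : TabsF) : FrameF repsF 462 F_5658.f :=
  frame_of rfl c_5658 (runs_of engOK r_5658_0) (by decide +kernel) h.1 h.1

def F_5659 : FrX :=
  ⟨0x80080a000804040e00002101002001000002040882020401008081000810001001084060002008022021222000200082100042030002240002025000200,
    0xa6, 1, 0x3260748195a6, 6,
    [(0xa6, 1), (0x205396a8, 4), (0x10548796, 4), (0x214396a7, 4), (0x205396a8, 4), (0x10548796, 4)],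
    [(0x3260748195a6, 6), (0x506392a1, 4), (0x41508697, 4), (0x507283a4, 4), (0x506392a1, 4), (0x41508697, 4)]⟩

def c_5659 : frmChk tA tA F_5659 = true := by decide +kernel

def r_5659_0 : chkL rootF engF2 tA tA sA_462 sA_462 4 F_5659 [(511, 0, 0)]
    0x1 = true := by
  decide +kernel

theorem f_5659 (h : TabsF) : FrameF repsF 462 F_5659.f :=
  frame_of rfl c_5659 (runs_of engOK r_5659_0) (by decide +kernel) h.1 h.1

def F_5660 : FrX :=
  ⟨0x2002000900044004000e02041000141000800040810000100301004100880041200108004002008422020140084010080010820010840000044210008280,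
    0xa3, 1, 0x213241507291a0, 7,
    [(0xa3, 1), (0x208693a5, 4), (0x10548793, 4), (0x217693a4, 4), (0x208693a5, 4), (0x10548793, 4)],
    [(0x213241507291a0, 7), (0x306182a7, 4), (0x205463a9, 4), (0x30546281, 4), (0x205463a9, 4), (0x31628097, 4), (0x215486a7, 4), (0x30546281, 4), (0x215486a7, 4), (0x326081a9, 4), (0x30546281, 4), (0x31628097, 4)]⟩

def c_5660 : frmChk tA tB F_5660 = true := by decide +kernel

def r_5660_0 : chkL rootF engF2 tA tB sA_462 sB_462 4 F_5660 [(511, 0, 0)]
    0x1 = true := by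
  decide +kernel

theorem f_5660 (h : TabsF) : FrameF repsF 462 F_5660.f :=
  frame_of rfl c_5660 (runs_of engOK r_5660_0) (by decide +kernel) h.1 h.2

def F_5661 : FrX :=
  ⟨0x1001040012008080000e008408004100081010000408a8080010100100200010008048084020402090000810020410000840009101000404290002241000,
    0xa3, 1, 0x2041647585a8, 6,
    [(0xa3, 1), (0x207584a6, 4), (0x10547693, 4), (0x647593a8, 4), (0x10547693, 4), (0x216485a7, 4), (0x208693a4, 4), (0x647593a8, 4), (0x208693a4, 4), (0x106574a8, 4), (0x647593a8, 4), (0x216485a7, 4)],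
    [(0x2041647585a8, 6), (0x208397a1, 4), (0x428697a5, 4), (0x40516397, 4), (0x208397a1, 4), (0x428697a5, 4)]⟩

def c_5661 : frmChk tB tA F_5661 = true := by decide +kernel

def r_5661_0 : chkL rootF engF2 tB tA sB_462 sA_462 4 F_5661 [(511, 0, 0)]
    0x1 = true := by
  decide +kernel

theorem f_5661 (h : TabsF) : FrameF repsF 462 F_5661.f :=
  frame_of rfl c_5661 (runs_of engOK r_5661_0) (by decide +kernel) h.2 h.1

def F_5662 : FrX :=
  ⟨0x1001040012008080000e0084080041000810100004401008009002004020203008004200408000412000280040101000088000a80810004220a004210010,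
    0xa3, 1, 0x21415361758392a5, 8,
    [(0xa3, 1), (0x207584a6, 4), (0x10547693, 4), (0x647593a8, 4), (0x10547693, 4), (0x216485a7, 4), (0x208693a4, 4), (0x647593a8, 4), (0x208693a4, 4), (0x106574a8, 4), (0x647593a8, 4), (0x216485a7, 4)],
    [(0x21415361758392a5, 8), (0x547190a8, 4), (0x536071a2, 4), (0x43718296, 4), (0x547190a8, 4), (0x536071a2, 4)]⟩

def c_5662 : frmChk tB tA F_5662 = true := by decide +kernel

def r_5662_0 : chkL rootF engF2 tB tA sB_462 sA_462 4 F_5662 [(511, 0, 0)]
    0x1 = true := by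
  decide +kernel

theorem f_5662 (h : TabsF) : FrameF repsF 462 F_5662.f :=
  frame_of rfl c_5662 (runs_of engOK r_5662_0) (by decide +kernel) h.2 h.1

def F_5663 : FrX :=
  ⟨0x1001040012008080000e00840800410008101000042100004060010004000882808200081080100800041202040000240018001011200081180004540200,
    0xa3, 1, 0x3165748290a3, 6,
    [(0xa3, 1), (0x207584a6, 4), (0x10547693, 4), (0x647593a8, 4), (0x10547693, 4), (0x216485a7, 4), (0x208693a4, 4), (0x647593a8, 4), (0x208693a4, 4), (0x106574a8, 4), (0x647593a8, 4), (0x216485a7, 4)],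
    [(0x3165748290a3, 6), (0x647298a5, 4), (0x10547693, 4), (0x106475a2, 4), (0x10547693, 4), (0x627583a4, 4), (0x105298a7, 4), (0x106475a2, 4), (0x105298a7, 4), (0x657493a2, 4), (0x106475a2, 4), (0x627583a4, 4)]⟩

def c_5663 : frmChk tB tB F_5663 = true := by decide +kernel

def r_5663_0 : chkL rootF engF2 tB tB sB_462 sB_462 4 F_5663 [(511, 0, 0)]
    0x1 = true := by
  decide +kernel

theorem f_5663 (h : TabsF) : FrameF repsF 462 F_5663.f :=
  frame_of rfl c_5663 (runs_of engOK r_5663_0) (by decide +kernel) h.2 h.2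

def F_5664 : FrX :=
  ⟨0x2002000900044004000e02041000141000800040810000028089804002000400140081004008031020020620400008102100080084000220440042002001,
    0xa3, 1, 0x4254647398a3, 6,
    [(0xa3, 1), (0x208693a5, 4), (0x10548793, 4), (0x217693a4, 4), (0x208693a5, 4), (0x10548793, 4)],
    [(0x4254647398a3, 6), (0x408795a2, 4), (0x10628793, 4), (0x415387a6, 4), (0x408795a2, 4), (0x10628793, 4)]⟩

def c_5664 : frmChk tA tA F_5664 = true := by decide +kernel

def r_5664_0 : chkL rootF engF2 tA tA sA_462 sA_462 4 F_5664 [(511, 0, 0)]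
    0x1 = true := by
  decide +kernel

theorem f_5664 (h : TabsF) : FrameF repsF 462 F_5664.f :=
  frame_of rfl c_5664 (runs_of engOK r_5664_0) (by decide +kernel) h.1 h.1

theorem cl_462 (h : TabsF) : ∀ f ∈ fr_462, FrameF repsF 462 f :=
  List.forall_mem_cons.2 ⟨f_5649 h, List.forall_mem_cons.2 ⟨f_5650 h, List.forall_mem_cons.2 ⟨f_5651 h, List.forall_mem_cons.2 ⟨f_5652 h, List.forall_mem_cons.2 ⟨f_5653 h, List.forall_mem_cons.2 ⟨f_5654 h, List.forall_mem_cons.2 ⟨f_5655 h, List.forall_mem_cons.2 ⟨f_5656 h, List.forall_mem_cons.2 ⟨f_5657 h, List.forall_mem_cons.2 ⟨f_5658 h, List.forall_mem_cons.2 ⟨f_5659 h, List.forall_mem_cons.2 ⟨f_5660 h, List.forall_mem_cons.2 ⟨f_5661 h, List.forall_mem_cons.2 ⟨f_5662 h, List.forall_mem_cons.2 ⟨f_5663 h, List.forall_mem_cons.2 ⟨f_5664 h,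
    fun _ h0 => absurd h0 List.not_mem_nil⟩⟩⟩⟩⟩⟩⟩⟩⟩⟩⟩⟩⟩⟩⟩⟩

def F_5665 : FrX :=
  ⟨0x2002000900044004000e0204100014100080004080800100110120000812400200008c004080004112000202020001800080003030022580004200040201,
    0xa3, 1, 0x2153708495a8, 6,
    [(0xa3, 1), (0x208693a5, 4), (0x10548793, 4), (0x217693a4, 4), (0x208693a5, 4), (0x10548793, 4)],
    [(0x2153708495a8, 6), (0x437195a6, 4), (0x437298a0, 4), (0x21436085, 4), (0x437195a6, 4), (0x437298a0, 4)]⟩

def c_5665 : frmChk tA tA F_5665 = true := by decide +kernel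

def r_5665_0 : chkL rootF engF2 tA tA sA_463 sA_463 4 F_5665 [(511, 0, 0)]
    0x5151c4aca0c4d836452b2a1a9285 = true := by
  decide +kernel

theorem f_5665 (h : TabsF) : FrameF repsF 463 F_5665.f :=
  frame_of rfl c_5665 (runs_of engOK r_5665_0) (by decide +kernel) h.1 h.1

def F_5666 : FrX :=
  ⟨0x2002000900044004000e0204100014100080004080040208010240020081080006002800210200020c000009000404224c01020000a00000001042203001,
    0xa3, 1, 0x10547296a3, 5,
    [(0xa3, 1), (0x208693a5, 4), (0x10548793, 4), (0x217693a4, 4), (0x208693a5, 4), (0x10548793, 4)],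
    [(0x10547296a3, 5), (0x637198a4, 4), (0x10546382, 4), (0x637092a5, 4), (0x637198a4, 4), (0x10546382, 4)]⟩

def c_5666 : frmChk tA tA F_5666 = true := by decide +kernel

def r_5666_0 : chkL rootF engF2 tA tA sA_463 sA_463 4 F_5666 [(511, 0, 0)]
    0x4c63448d438e40b4d10b41e07a85a5285 = true := by
  decide +kernel

theorem f_5666 (h : TabsF) : FrameF repsF 463 F_5666.f :=
  frame_of rfl c_5666 (runs_of engOK r_5666_0) (by decide +kernel) h.1 h.1

def F_5667 : FrX :=
  ⟨0x1c210200000404400000204100010100008204089008008000101000810040404001301000602010008081040c0410400840000060225a2000100000080,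
    0x0, 0, 0x21547683, 4,
    [(0x0, 0), (0x205386a9, 4), (0x105487a9, 4), (0x214376a9, 4), (0x205386a9, 4), (0x105487a9, 4)],
    [(0x21547683, 4), (0x107384a9, 4), (0x205463a9, 4), (0x217685a9, 4), (0x107384a9, 4), (0x205463a9, 4)]⟩

def c_5667 : frmChk tA tA F_5667 = true := by decide +kernel

def r_5667_0 : chkL rootF engF2 tA tA sA_463 sA_463 4 F_5667 [(511, 0, 0)]
    0x592a60f098471e08e874215a158ca0e459168ca0e835274272231546383c1294a4f04693146b6085515c510d4a53242c2e0e919914a9435198e0b11c42b88cb1990391a43946589915585c0b88e0b11c4354c4b11d0721c5a86a10b7210b42da842f0a929492e0390e4f0545d02c4b8625892c551545702e2382c4710d5312c4741c87191683d224582d0b4c99866243c2949a154ae0788c170c4350dc170c6330563285e13061b306a1685c318c1a46c43515c3384a1645990e8b1189 = true := by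
  decide +kernel

theorem f_5667 (h : TabsF) : FrameF repsF 463 F_5667.f :=
  frame_of rfl c_5667 (runs_of engOK r_5667_0) (by decide +kernel) h.1 h.1

def F_5668 : FrX :=
  ⟨0x2002000900044004000e020410001410008000408004020860084000101104000400220101060001040800104000410020040200050225a0000140000050,
    0xa3, 1, 0x21436085a3, 5,
    [(0xa3, 1), (0x208693a5, 4), (0x10548793, 4), (0x217693a4, 4), (0x208693a5, 4), (0x10548793, 4)],
    [(0x21436085a3, 5), (0x506194a8, 4), (0x62758394, 4), (0x217094a3, 4), (0x506194a8, 4), (0x62758394, 4)]⟩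

def c_5668 : frmChk tA tA F_5668 = true := by decide +kernel

def r_5668_0 : chkL rootF engF2 tA tA sA_463 sA_463 4 F_5668 [(511, 0, 0)]
    0x5151c4aca0c4d836452b2a1a9285 = true := by
  decide +kernel

theorem f_5668 (h : TabsF) : FrameF repsF 463 F_5668.f :=
  frame_of rfl c_5668 (runs_of engOK r_5668_0) (by decide +kernel) h.1 h.1

def F_5669 : FrX :=
  ⟨0x482000044040440000c2040020009000182040020001042000040808010c10008080040041080180080400102002408022550000090000011010000290,
    0xa0, 1, 0x2150608195a8, 6,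
    [(0xa0, 1), (0x538690a2, 4), (0x548790a1, 4), (0x21437690, 4), (0x538690a2, 4), (0x548790a1, 4)],
    [(0x2150608195a8, 6), (0x536197a4, 4), (0x20758694, 4), (0x205497a3, 4), (0x20758694, 4), (0x547381a9, 4), (0x204361a5, 4), (0x205497a3, 4), (0x204361a5, 4), (0x748695a3, 4), (0x205497a3, 4), (0x547381a9, 4)]⟩

def c_5669 : frmChk tA tB F_5669 = true := by decide +kernel

def r_5669_0 : chkL rootF engF2 tA tB sA_463 sB_463 4 F_5669 [(511, 0, 0)]
    0x1 = true := by
  decide +kernel

theorem f_5669 (h : TabsF) : FrameF repsF 463 F_5669.f :=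
  frame_of rfl c_5669 (runs_of engOK r_5669_0) (by decide +kernel) h.1 h.2

def F_5670 : FrX :=
  ⟨0x482000044040440000c2040020009000182040001080880104040100020021800800100848001012000020604002800022540280100100044200000042,
    0xa0, 1, 0x30536082a8, 5,
    [(0xa0, 1), (0x538690a2, 4), (0x548790a1, 4), (0x21437690, 4), (0x538690a2, 4), (0x548790a1, 4)],
    [(0x30536082a8, 5), (0x537086a4, 4), (0x40617392, 4), (0x437092a5, 4), (0x40617392, 4), (0x437581a0, 4), (0x548692a3, 4), (0x437092a5, 4), (0x548692a3, 4), (0x306174a5, 4), (0x437092a5, 4), (0x437581a0, 4)]⟩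

def c_5670 : frmChk tA tB F_5670 = true := by decide +kernel

def r_5670_0 : chkL rootF engF2 tA tB sA_463 sB_463 4 F_5670 [(511, 0, 0)]
    0x1 = true := by
  decide +kernel

theorem f_5670 (h : TabsF) : FrameF repsF 463 F_5670.f :=
  frame_of rfl c_5670 (runs_of engOK r_5670_0) (by decide +kernel) h.1 h.2

def F_5671 : FrX :=
  ⟨0x1c4044000008081000000840080410000101084048081000001080020120000200508060004140009402422000040420018008000600800040840008023,
    0x0, 0, 0x1021, 2,
    [(0x0, 0), (0x20637584, 4), (0x105476a9, 4), (0x647583a9, 4), (0x105476a9, 4), (0x21647385, 4), (0x204386a9, 4), (0x647583a9, 4), (0x204386a9, 4), (0x10657483, 4), (0x647583a9, 4), (0x21647385, 4)],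
    [(0x1021, 2), (0x10637584, 4), (0x215476a9, 4), (0x647583a9, 4), (0x215476a9, 4), (0x20647385, 4), (0x104386a9, 4), (0x647583a9, 4), (0x104386a9, 4), (0x21657483, 4), (0x647583a9, 4), (0x20647385, 4)]⟩

def c_5671 : frmChk tB tB F_5671 = true := by decide +kernel

def r_5671_0 : chkL rootF engF2 tB tB sB_463 sB_463 4 F_5671 [(511, 0, 0)]
    0x4b84e0782e1381e0b84e0782e1381e0b84e0782e1381e0b84e0782e1381e0b84e078 = true := by
  decide +kernel

theorem f_5671 (h : TabsF) : FrameF repsF 463 F_5671.f :=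
  frame_of rfl c_5671 (runs_of engOK r_5671_0) (by decide +kernel) h.2 h.2

theorem cl_463 (h : TabsF) : ∀ f ∈ fr_463, FrameF repsF 463 f :=
  List.forall_mem_cons.2 ⟨f_5665 h, List.forall_mem_cons.2 ⟨f_5666 h, List.forall_mem_cons.2 ⟨f_5667 h, List.forall_mem_cons.2 ⟨f_5668 h, List.forall_mem_cons.2 ⟨f_5669 h, List.forall_mem_cons.2 ⟨f_5670 h, List.forall_mem_cons.2 ⟨f_5671 h,
    fun _ h0 => absurd h0 List.not_mem_nil⟩⟩⟩⟩⟩⟩⟩

def F_5672 : FrX :=
  ⟨0x2002000900044004000e02041000141000800040800804008080a04000812000300080208088100820030004011020002000208080410208002025004004,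
    0xa3, 1, 0x5463748295a3, 6,
    [(0xa3, 1), (0x208693a5, 4), (0x10548793, 4), (0x217693a4, 4), (0x208693a5, 4), (0x10548793, 4)],
    [(0x5463748295a3, 6), (0x326480a9, 4), (0x10526497, 4), (0x536481a7, 4), (0x326480a9, 4), (0x10526497, 4)]⟩

def c_5672 : frmChk tA tA F_5672 = true := by decide +kernel

def r_5672_0 : chkL rootF engF2 tA tA sA_464 sA_464 4 F_5672 [(511, 0, 0)]
    0x1 = true := by
  decide +kernel

theorem f_5672 (h : TabsF) : FrameF repsF 464 F_5672.f :=
  frame_of rfl c_5672 (runs_of engOK r_5672_0) (by decide +kernel) h.1 h.1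

def F_5673 : FrX :=
  ⟨0x80080a000804040e000021010020010000020408812c0000050100100000082009084000c0004002020080050110204000420a0007001003400040c0000,
    0xa6, 1, 0x314253607483a4, 7,
    [(0xa6, 1), (0x205396a8, 4), (0x10548796, 4), (0x214396a7, 4), (0x205396a8, 4), (0x10548796, 4)],
    [(0x314253607483a4, 7), (0x50648197, 4), (0x526397a1, 4), (0x204397a8, 4), (0x50648197, 4), (0x526397a1, 4)]⟩

def c_5673 : frmChk tA tA F_5673 = true := by decide +kernel

def r_5673_0 : chkL rootF engF2 tA tA sA_464 sA_464 4 F_5673 [(511, 0, 0)]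
    0x1 = true := by
  decide +kernel

theorem f_5673 (h : TabsF) : FrameF repsF 464 F_5673.f :=
  frame_of rfl c_5673 (runs_of engOK r_5673_0) (by decide +kernel) h.1 h.1

def F_5674 : FrX :=
  ⟨0x482000044040440000c204002000900018204002000050080020003001404800802040008104192020000010302004020020a008000209100202800001,
    0xa0, 1, 0x4150617297a5, 6,
    [(0xa0, 1), (0x538690a2, 4), (0x548790a1, 4), (0x21437690, 4), (0x538690a2, 4), (0x548790a1, 4)],
    [(0x4150617297a5, 6), (0x207584a3, 4), (0x206598a1, 4), (0x20317694, 4), (0x207584a3, 4), (0x206598a1, 4)]⟩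

def c_5674 : frmChk tA tA F_5674 = true := by decide +kernel

def r_5674_0 : chkL rootF engF2 tA tA sA_464 sA_464 4 F_5674 [(511, 0, 0)]
    0x1 = true := by
  decide +kernel

theorem f_5674 (h : TabsF) : FrameF repsF 464 F_5674.f :=
  frame_of rfl c_5674 (runs_of engOK r_5674_0) (by decide +kernel) h.1 h.1

def F_5675 : FrX :=
  ⟨0x80080a000804040e0000210100200100000204088101100100403000102000240008407800014000005000021300000028811800100060a1000040c0000,
    0xa6, 1, 0x214060728698a0, 7,
    [(0xa6, 1), (0x205396a8, 4), (0x10548796, 4), (0x214396a7, 4), (0x205396a8, 4), (0x10548796, 4)],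
    [(0x214060728698a0, 7), (0x536498a7, 4), (0x506491a2, 4), (0x30647281, 4), (0x536498a7, 4), (0x506491a2, 4)]⟩

def c_5675 : frmChk tA tA F_5675 = true := by decide +kernel

def r_5675_0 : chkL rootF engF2 tA tA sA_464 sA_464 4 F_5675 [(511, 0, 0)]
    0x1 = true := by
  decide +kernel

theorem f_5675 (h : TabsF) : FrameF repsF 464 F_5675.f :=
  frame_of rfl c_5675 (runs_of engOK r_5675_0) (by decide +kernel) h.1 h.1

def F_5676 : FrX :=
  ⟨0x482000044040440000c2040020009000182040020002020800080220080188004022000030810820a00010081010400210203008040100100200800201,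
    0xa0, 1, 0x2142718093a8, 6,
    [(0xa0, 1), (0x538690a2, 4), (0x548790a1, 4), (0x21437690, 4), (0x538690a2, 4), (0x548790a1, 4)],
    [(0x2142718093a8, 6), (0x308495a6, 4), (0x305187a2, 4), (0x30627491, 4), (0x308495a6, 4), (0x305187a2, 4)]⟩

def c_5676 : frmChk tA tA F_5676 = true := by decide +kernel

def r_5676_0 : chkL rootF engF2 tA tA sA_464 sA_464 4 F_5676 [(511, 0, 0)]
    0x1 = true := by
  decide +kernel

theorem f_5676 (h : TabsF) : FrameF repsF 464 F_5676.f :=
  frame_of rfl c_5676 (runs_of engOK r_5676_0) (by decide +kernel) h.1 h.1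

def F_5677 : FrX :=
  ⟨0x482000044040440000c204002000900018204002000202080008080408018800402040052001022080400108401008200000a0081001003000a0600001,
    0xa0, 1, 0x4052628194a8, 6,
    [(0xa0, 1), (0x538690a2, 4), (0x548790a1, 4), (0x21437690, 4), (0x538690a2, 4), (0x548790a1, 4)],
    [(0x4052628194a8, 6), (0x103264a5, 4), (0x108492a7, 4), (0x10758693, 4), (0x103264a5, 4), (0x108492a7, 4)]⟩

def c_5677 : frmChk tA tA F_5677 = true := by decide +kernel

def r_5677_0 : chkL rootF engF2 tA tA sA_464 sA_464 4 F_5677 [(511, 0, 0)]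
    0x1 = true := by
  decide +kernel

theorem f_5677 (h : TabsF) : FrameF repsF 464 F_5677.f :=
  frame_of rfl c_5677 (runs_of engOK r_5677_0) (by decide +kernel) h.1 h.1

def F_5678 : FrX :=
  ⟨0x2002000900044004000e0204100014100080004080080104102000880801210120000021c080100200040102011000000300218002090008004021008084,
    0xa3, 1, 0x4051638296a2, 6,
    [(0xa3, 1), (0x208693a5, 4), (0x10548793, 4), (0x217693a4, 4), (0x208693a5, 4), (0x10548793, 4)],
    [(0x4051638296a2, 6), (0x207196a4, 4), (0x10548397, 4), (0x62718390, 4), (0x10548397, 4), (0x217690a5, 4), (0x608392a4, 4), (0x62718390, 4), (0x608392a4, 4), (0x54627091, 4), (0x62718390, 4), (0x217690a5, 4)]⟩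

def c_5678 : frmChk tA tB F_5678 = true := by decide +kernel

def r_5678_0 : chkL rootF engF2 tA tB sA_464 sB_464 4 F_5678 [(511, 0, 0)]
    0x1 = true := by
  decide +kernel

theorem f_5678 (h : TabsF) : FrameF repsF 464 F_5678.f :=
  frame_of rfl c_5678 (runs_of engOK r_5678_0) (by decide +kernel) h.1 h.2

def F_5679 : FrX :=
  ⟨0x2002000900044004000e02041000141000800040801140401000c002010000800201280040220004040380000210088020040020204400280020040c2040,
    0xa3, 1, 0x102031527083a0, 7,
    [(0xa3, 1), (0x208693a5, 4), (0x10548793, 4), (0x217693a4, 4), (0x208693a5, 4), (0x10548793, 4)],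
    [(0x102031527083a0, 7), (0x608197a5, 4), (0x204197a3, 4), (0x53628497, 4), (0x608197a5, 4), (0x204197a3, 4)]⟩

def c_5679 : frmChk tA tA F_5679 = true := by decide +kernel

def r_5679_0 : chkL rootF engF2 tA tA sA_464 sA_464 4 F_5679 [(511, 0, 0)]
    0x1 = true := by
  decide +kernel

theorem f_5679 (h : TabsF) : FrameF repsF 464 F_5679.f :=
  frame_of rfl c_5679 (runs_of engOK r_5679_0) (by decide +kernel) h.1 h.1

def F_5680 : FrX :=
  ⟨0x482000044040440000c2040020009000182040002080440000a000100104080088120200a20000080801212040008020800002840900810100a0200001,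
    0xa0, 1, 0x4162728495a8, 6,
    [(0xa0, 1), (0x538690a2, 4), (0x548790a1, 4), (0x21437690, 4), (0x538690a2, 4), (0x548790a1, 4)],
    [(0x4162728495a8, 6), (0x517093a2, 4), (0x405198a6, 4), (0x51627483, 4), (0x517093a2, 4), (0x405198a6, 4)]⟩

def c_5680 : frmChk tA tA F_5680 = true := by decide +kernel

def r_5680_0 : chkL rootF engF2 tA tA sA_464 sA_464 4 F_5680 [(511, 0, 0)]
    0x1 = true := by
  decide +kernel

theorem f_5680 (h : TabsF) : FrameF repsF 464 F_5680.f :=
  frame_of rfl c_5680 (runs_of engOK r_5680_0) (by decide +kernel) h.1 h.1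

def F_5681 : FrX :=
  ⟨0x482000044040440000c204002000900018204002000090a000200084040882020020020801030012000140200000802080098020090080002080200052,
    0xa0, 1, 0x203240506374a5, 7,
    [(0xa0, 1), (0x538690a2, 4), (0x548790a1, 4), (0x21437690, 4), (0x538690a2, 4), (0x548790a1, 4)],
    [(0x203240506374a5, 7), (0x538094a6, 4), (0x518294a7, 4), (0x20317694, 4), (0x538094a6, 4), (0x518294a7, 4)]⟩

def c_5681 : frmChk tA tA F_5681 = true := by decide +kernel

def r_5681_0 : chkL rootF engF2 tA tA sA_464 sA_464 4 F_5681 [(511, 0, 0)]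
    0x1 = true := by
  decide +kernel

theorem f_5681 (h : TabsF) : FrameF repsF 464 F_5681.f :=
  frame_of rfl c_5681 (runs_of engOK r_5681_0) (by decide +kernel) h.1 h.1

def F_5682 : FrX :=
  ⟨0x80080a000804040e000021010020010000020408a02100042000881000240010408000401040070000400005042018020280000111002003402000a0080,
    0xa6, 1, 0x4250607582a5, 6,
    [(0xa6, 1), (0x205396a8, 4), (0x10548796, 4), (0x214396a7, 4), (0x205396a8, 4), (0x10548796, 4)],
    [(0x4250607582a5, 6), (0x548697a3, 4), (0x406197a2, 4), (0x32508197, 4), (0x548697a3, 4), (0x406197a2, 4)]⟩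

def c_5682 : frmChk tA tA F_5682 = true := by decide +kernel

def r_5682_0 : chkL rootF engF2 tA tA sA_464 sA_464 4 F_5682 [(511, 0, 0)]
    0x1 = true := by
  decide +kernel

theorem f_5682 (h : TabsF) : FrameF repsF 464 F_5682.f :=
  frame_of rfl c_5682 (runs_of engOK r_5682_0) (by decide +kernel) h.1 h.1

def F_5683 : FrX :=
  ⟨0x482000044040440000c204002000900018204001010000280400020800088480488000100490010201103010000180008400010205010400100080040a,
    0xa0, 1, 0x21435065748192a3, 8,
    [(0xa0, 1), (0x538690a2, 4), (0x548790a1, 4), (0x21437690, 4), (0x538690a2, 4), (0x548790a1, 4)],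
    [(0x21435065748192a3, 8), (0x204195a6, 4), (0x32417685, 4), (0x304198a7, 4), (0x204195a6, 4), (0x32417685, 4)]⟩

def c_5683 : frmChk tA tA F_5683 = true := by decide +kernel

def r_5683_0 : chkL rootF engF2 tA tA sA_464 sA_464 4 F_5683 [(511, 0, 0)]
    0x1 = true := by
  decide +kernel

theorem f_5683 (h : TabsF) : FrameF repsF 464 F_5683.f :=
  frame_of rfl c_5683 (runs_of engOK r_5683_0) (by decide +kernel) h.1 h.1

def F_5684 : FrX :=
  ⟨0x80080a000804040e00002101002001000002040880424100420008400014000030020420002081840020000023002801041000040400128004123000080,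
    0xa6, 1, 0x3141506273a0, 6,
    [(0xa6, 1), (0x205396a8, 4), (0x10548796, 4), (0x214396a7, 4), (0x205396a8, 4), (0x10548796, 4)],
    [(0x3141506273a0, 6), (0x107283a6, 4), (0x213095a4, 4), (0x10328795, 4), (0x213095a4, 4), (0x32647180, 4), (0x738295a6, 4), (0x10328795, 4), (0x738295a6, 4), (0x203187a4, 4), (0x10328795, 4), (0x32647180, 4)]⟩

def c_5684 : frmChk tA tB F_5684 = true := by decide +kernel

def r_5684_0 : chkL rootF engF2 tA tB sA_464 sB_464 4 F_5684 [(511, 0, 0)]
    0x1 = true := by
  decide +kernel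

theorem f_5684 (h : TabsF) : FrameF repsF 464 F_5684.f :=
  frame_of rfl c_5684 (runs_of engOK r_5684_0) (by decide +kernel) h.1 h.2

def F_5685 : FrX :=
  ⟨0x80080a000804040e000021010020010000020408808810000810248004400020004010a00080080100a1101004100801024000006002800500140408040,
    0xa6, 1, 0x203243708291a2, 7,
    [(0xa6, 1), (0x205396a8, 4), (0x10548796, 4), (0x214396a7, 4), (0x205396a8, 4), (0x10548796, 4)],
    [(0x203243708291a2, 7), (0x546381a7, 4), (0x32508197, 4), (0x406281a9, 4), (0x546381a7, 4), (0x32508197, 4)]⟩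

def c_5685 : frmChk tA tA F_5685 = true := by decide +kernel

def r_5685_0 : chkL rootF engF2 tA tA sA_464 sA_464 4 F_5685 [(511, 0, 0)]
    0x1 = true := by
  decide +kernel

theorem f_5685 (h : TabsF) : FrameF repsF 464 F_5685.f :=
  frame_of rfl c_5685 (runs_of engOK r_5685_0) (by decide +kernel) h.1 h.1

def F_5686 : FrX :=
  ⟨0x2002000900044004000e02041000141000800040808001002080a000120022000042120040400090100a00090820028000402010840010004400a0202001,
    0xa3, 1, 0x10214151607396a2, 8,
    [(0xa3, 1), (0x208693a5, 4), (0x10548793, 4), (0x217693a4, 4), (0x208693a5, 4), (0x10548793, 4)],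
    [(0x10214151607396a2, 8), (0x107498a6, 4), (0x10426583, 4), (0x107293a5, 4), (0x107498a6, 4), (0x10426583, 4)]⟩

def c_5686 : frmChk tA tA F_5686 = true := by decide +kernel

def r_5686_0 : chkL rootF engF2 tA tA sA_464 sA_464 4 F_5686 [(511, 0, 0)]
    0x1 = true := by
  decide +kernel

theorem f_5686 (h : TabsF) : FrameF repsF 464 F_5686.f :=
  frame_of rfl c_5686 (runs_of engOK r_5686_0) (by decide +kernel) h.1 h.1

def F_5687 : FrX :=
  ⟨0x2002000900044004000e02041000141000800040800800241208400008808080200108000904000224000400880044104001020010a00000011042060404,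
    0xa3, 1, 0x102131406275a6, 7,
    [(0xa3, 1), (0x208693a5, 4), (0x10548793, 4), (0x217693a4, 4), (0x208693a5, 4), (0x10548793, 4)],
    [(0x102131406275a6, 7), (0x647290a8, 4), (0x43718590, 4), (0x216390a5, 4), (0x647290a8, 4), (0x43718590, 4)]⟩

def c_5687 : frmChk tA tA F_5687 = true := by decide +kernel

def r_5687_0 : chkL rootF engF2 tA tA sA_464 sA_464 4 F_5687 [(511, 0, 0)]
    0x1 = true := by
  decide +kernel

theorem f_5687 (h : TabsF) : FrameF repsF 464 F_5687.f :=
  frame_of rfl c_5687 (runs_of engOK r_5687_0) (by decide +kernel) h.1 h.1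

def F_5688 : FrX :=
  ⟨0x80080a000804040e00002101002001000002040881200001401050020024008008011000c00040012000481084050400000080484000a88002104400100,
    0xa6, 1, 0x103162718595a0, 7,
    [(0xa6, 1), (0x205396a8, 4), (0x10548796, 4), (0x214396a7, 4), (0x205396a8, 4), (0x10548796, 4)],
    [(0x103162718595a0, 7), (0x528190a6, 4), (0x538194a7, 4), (0x32407681, 4), (0x528190a6, 4), (0x538194a7, 4)]⟩

def c_5688 : frmChk tA tA F_5688 = true := by decide +kernel

def r_5688_0 : chkL rootF engF2 tA tA sA_464 sA_464 4 F_5688 [(511, 0, 0)]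
    0x1 = true := by
  decide +kernel

theorem f_5688 (h : TabsF) : FrameF repsF 464 F_5688.f :=
  frame_of rfl c_5688 (runs_of engOK r_5688_0) (by decide +kernel) h.1 h.1

def F_5689 : FrX :=
  ⟨0x80080a000804040e00002101002001000002040890010004202008100880004018014000804041020001020a02044140100040011000081014021080400,
    0xa6, 1, 0x102141518498a6, 7,
    [(0xa6, 1), (0x205396a8, 4), (0x10548796, 4), (0x214396a7, 4), (0x205396a8, 4), (0x10548796, 4)],
    [(0x102141518498a6, 7), (0x107498a3, 4), (0x516284a7, 4), (0x627493a8, 4), (0x516284a7, 4), (0x507394a8, 4), (0x106283a9, 4), (0x627493a8, 4), (0x106283a9, 4), (0x518793a4, 4), (0x627493a8, 4), (0x507394a8, 4)]⟩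

def c_5689 : frmChk tA tB F_5689 = true := by decide +kernel

def r_5689_0 : chkL rootF engF2 tA tB sA_464 sB_464 4 F_5689 [(511, 0, 0)]
    0x427 = true := by
  decide +kernel

theorem f_5689 (h : TabsF) : FrameF repsF 464 F_5689.f :=
  frame_of rfl c_5689 (runs_of engOK r_5689_0) (by decide +kernel) h.1 h.2

def F_5690 : FrX :=
  ⟨0x80080a000804040e0000210100200100000204088060000440409000002100290008005010001000105000021201000028005804500060a100004240000,
    0xa6, 1, 0x203054617597a1, 7,
    [(0xa6, 1), (0x205396a8, 4), (0x10548796, 4), (0x214396a7, 4), (0x205396a8, 4), (0x10548796, 4)],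
    [(0x203054617597a1, 7), (0x30647281, 4), (0x647598a3, 4), (0x526491a0, 4), (0x30647281, 4), (0x647598a3, 4)]⟩

def c_5690 : frmChk tA tA F_5690 = true := by decide +kernel

def r_5690_0 : chkL rootF engF2 tA tA sA_464 sA_464 4 F_5690 [(511, 0, 0)]
    0x1 = true := by
  decide +kernel

theorem f_5690 (h : TabsF) : FrameF repsF 464 F_5690.f :=
  frame_of rfl c_5690 (runs_of engOK r_5690_0) (by decide +kernel) h.1 h.1

def F_5691 : FrX :=
  ⟨0x2002000900044004000e02041000141000800040810000082081004102002103800000204001010410800805000010080080088080800844000884220044,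
    0xa3, 1, 0x4353728596a3, 6,
    [(0xa3, 1), (0x208693a5, 4), (0x10548793, 4), (0x217693a4, 4), (0x208693a5, 4), (0x10548793, 4)],
    [(0x4353728596a3, 6), (0x657094a8, 4), (0x10426583, 4), (0x657192a3, 4), (0x657094a8, 4), (0x10426583, 4)]⟩

def c_5691 : frmChk tA tA F_5691 = true := by decide +kernel

def r_5691_0 : chkL rootF engF2 tA tA sA_464 sA_464 4 F_5691 [(511, 0, 0)]
    0x1 = true := by
  decide +kernel

theorem f_5691 (h : TabsF) : FrameF repsF 464 F_5691.f :=
  frame_of rfl c_5691 (runs_of engOK r_5691_0) (by decide +kernel) h.1 h.1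

def F_5692 : FrX :=
  ⟨0x1c2102000004044000002041000101000082040884200080000c00010002200084822001110008024100110011210400000083085041008000a10800000,
    0x0, 0, 0x106384, 3,
    [(0x0, 0), (0x205386a9, 4), (0x105487a9, 4), (0x214376a9, 4), (0x205386a9, 4), (0x105487a9, 4)],
    [(0x106384, 3), (0x214365a9, 4), (0x107485a9, 4), (0x207386a9, 4), (0x214365a9, 4), (0x107485a9, 4)]⟩

def c_5692 : frmChk tA tA F_5692 = true := by decide +kernel

def r_5692_0 : chkL rootF engF2 tA tA sA_464 sA_464 4 F_5692 [(511, 0, 0)]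
    0x1 = true := by
  decide +kernel

theorem f_5692 (h : TabsF) : FrameF repsF 464 F_5692.f :=
  frame_of rfl c_5692 (runs_of engOK r_5692_0) (by decide +kernel) h.1 h.1

def F_5693 : FrX :=
  ⟨0x482000044040440000c2040020009000182040002020500000a0001001400800802050102400100800008010302004000080880880060c104a02800000,
    0xa0, 1, 0x21304152617497a3, 8,
    [(0xa0, 1), (0x538690a2, 4), (0x548790a1, 4), (0x21437690, 4), (0x538690a2, 4), (0x548790a1, 4)],
    [(0x21304152617497a3, 8), (0x538791a4, 4), (0x20637194, 4), (0x207491a8, 4), (0x20637194, 4), (0x657481a9, 4), (0x205384a7, 4), (0x207491a8, 4), (0x205384a7, 4), (0x416397a8, 4), (0x207491a8, 4), (0x657481a9, 4)]⟩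

def c_5693 : frmChk tA tB F_5693 = true := by decide +kernel

def r_5693_0 : chkL rootF engF2 tA tB sA_464 sB_464 4 F_5693 [(511, 0, 0)]
    0x1 = true := by
  decide +kernel

theorem f_5693 (h : TabsF) : FrameF repsF 464 F_5693.f :=
  frame_of rfl c_5693 (runs_of engOK r_5693_0) (by decide +kernel) h.1 h.2

def F_5694 : FrX :=
  ⟨0x2002000900044004000e0204100014100080004080040104200440081020a000100100101028008484800410010010103000810004100004000904011010,
    0xa3, 1, 0x103241708494a2, 7,
    [(0xa3, 1), (0x208693a5, 4), (0x10548793, 4), (0x217693a4, 4), (0x208693a5, 4), (0x10548793, 4)],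
    [(0x103241708494a2, 7), (0x526083a7, 4), (0x10748395, 4), (0x618392a4, 4), (0x526083a7, 4), (0x10748395, 4)]⟩

def c_5694 : frmChk tA tA F_5694 = true := by decide +kernel

def r_5694_0 : chkL rootF engF2 tA tA sA_464 sA_464 4 F_5694 [(511, 0, 0)]
    0x1 = true := by
  decide +kernel

theorem f_5694 (h : TabsF) : FrameF repsF 464 F_5694.f :=
  frame_of rfl c_5694 (runs_of engOK r_5694_0) (by decide +kernel) h.1 h.1

def F_5695 : FrX :=
  ⟨0x80080a000804040e0000210100200100000204088042100410808800200020000482200140002908080000021400b1000080100060800011008a0220000,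
    0xa6, 1, 0x40537284a7, 5,
    [(0xa6, 1), (0x205396a8, 4), (0x10548796, 4), (0x214396a7, 4), (0x205396a8, 4), (0x10548796, 4)],
    [(0x40537284a7, 5), (0x53607492, 4), (0x418392a0, 4), (0x718592a6, 4), (0x53607492, 4), (0x418392a0, 4)]⟩

def c_5695 : frmChk tA tA F_5695 = true := by decide +kernel

def r_5695_0 : chkL rootF engF2 tA tA sA_464 sA_464 4 F_5695 [(511, 0, 0)]
    0x1 = true := by
  decide +kernel

theorem f_5695 (h : TabsF) : FrameF repsF 464 F_5695.f :=
  frame_of rfl c_5695 (runs_of engOK r_5695_0) (by decide +kernel) h.1 h.1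

def F_5696 : FrX :=
  ⟨0x2002000900044004000e02041000141000800040804001010120002008020a082200080012a800200404200100040080104080003080880020408000a080,
    0xa3, 1, 0x213243518392a6, 7,
    [(0xa3, 1), (0x208693a5, 4), (0x10548793, 4), (0x217693a4, 4), (0x208693a5, 4), (0x10548793, 4)],
    [(0x213243518392a6, 7), (0x417290a8, 4), (0x215063a7, 4), (0x637284a1, 4), (0x215063a7, 4), (0x428795a1, 4), (0x638190a4, 4), (0x637284a1, 4), (0x638190a4, 4), (0x507184a2, 4), (0x637284a1, 4), (0x428795a1, 4)]⟩

def c_5696 : frmChk tA tB F_5696 = true := by decide +kernel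

def r_5696_0 : chkL rootF engF2 tA tB sA_464 sB_464 4 F_5696 [(511, 0, 0)]
    0x1 = true := by
  decide +kernel

theorem f_5696 (h : TabsF) : FrameF repsF 464 F_5696.f :=
  frame_of rfl c_5696 (runs_of engOK r_5696_0) (by decide +kernel) h.1 h.2

def F_5697 : FrX :=
  ⟨0x80080a000804040e000021010020010000020408a0001002080088102004080005180000044020220810000215001802022000080508000202004440200,
    0xa6, 1, 0x2065768097a3, 6,
    [(0xa6, 1), (0x205396a8, 4), (0x10548796, 4), (0x214396a7, 4), (0x205396a8, 4), (0x10548796, 4)],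
    [(0x2065768097a3, 6), (0x537280a6, 4), (0x53648192, 4), (0x105397a4, 4), (0x537280a6, 4), (0x53648192, 4)]⟩

def c_5697 : frmChk tA tA F_5697 = true := by decide +kernel

def r_5697_0 : chkL rootF engF2 tA tA sA_464 sA_464 4 F_5697 [(511, 0, 0)]
    0x1 = true := by
  decide +kernel

theorem f_5697 (h : TabsF) : FrameF repsF 464 F_5697.f :=
  frame_of rfl c_5697 (runs_of engOK r_5697_0) (by decide +kernel) h.1 h.1

def F_5698 : FrX :=
  ⟨0x482000044040440000c204002000900018204001002002800400011008002422022000100408a000810048081001800084000140010222002002000209,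
    0xa0, 1, 0x21314352628594a6, 8,
    [(0xa0, 1), (0x538690a2, 4), (0x548790a1, 4), (0x21437690, 4), (0x538690a2, 4), (0x548790a1, 4)],
    [(0x21314352628594a6, 8), (0x608791a4, 4), (0x305298a7, 4), (0x415287a9, 4), (0x305298a7, 4), (0x637481a9, 4), (0x526094a1, 4), (0x415287a9, 4), (0x526094a1, 4), (0x304197a8, 4), (0x415287a9, 4), (0x637481a9, 4)]⟩

def c_5698 : frmChk tA tB F_5698 = true := by decide +kernel

def r_5698_0 : chkL rootF engF2 tA tB sA_464 sB_464 4 F_5698 [(511, 0, 0)]
    0x1 = true := by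
  decide +kernel

theorem f_5698 (h : TabsF) : FrameF repsF 464 F_5698.f :=
  frame_of rfl c_5698 (runs_of engOK r_5698_0) (by decide +kernel) h.1 h.2

def F_5699 : FrX :=
  ⟨0x482000044040440000c2040020009000182040001080820800900200040090004022020010140320000800081000140014002000601000011220220210,
    0xa0, 1, 0x1032617480a3, 6,
    [(0xa0, 1), (0x538690a2, 4), (0x548790a1, 4), (0x21437690, 4), (0x538690a2, 4), (0x548790a1, 4)],
    [(0x1032617480a3, 6), (0x547183a0, 4), (0x40758692, 4), (0x547092a1, 4), (0x40758692, 4), (0x516370a4, 4), (0x108392a7, 4), (0x547092a1, 4), (0x108392a7, 4), (0x507486a1, 4), (0x547092a1, 4), (0x516370a4, 4)]⟩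

def c_5699 : frmChk tA tB F_5699 = true := by decide +kernel

def r_5699_0 : chkL rootF engF2 tA tB sA_464 sB_464 4 F_5699 [(511, 0, 0)]
    0x1 = true := by
  decide +kernel

theorem f_5699 (h : TabsF) : FrameF repsF 464 F_5699.f :=
  frame_of rfl c_5699 (runs_of engOK r_5699_0) (by decide +kernel) h.1 h.2

theorem cl_464 (h : TabsF) : ∀ f ∈ fr_464, FrameF repsF 464 f :=
  List.forall_mem_cons.2 ⟨f_5672 h, List.forall_mem_cons.2 ⟨f_5673 h, List.forall_mem_cons.2 ⟨f_5674 h, List.forall_mem_cons.2 ⟨f_5675 h, List.forall_mem_cons.2 ⟨f_5676 h, List.forall_mem_cons.2 ⟨f_5677 h, List.forall_mem_cons.2 ⟨f_5678 h, List.forall_mem_cons.2 ⟨f_5679 h, List.forall_mem_cons.2 ⟨f_5680 h, List.forall_mem_cons.2 ⟨f_5681 h, List.forall_mem_cons.2 ⟨f_5682 h, List.forall_mem_cons.2 ⟨f_5683 h, List.forall_mem_cons.2 ⟨f_5684 h, List.forall_mem_cons.2 ⟨f_5685 h, List.forall_mem_cons.2 ⟨f_5686 h, List.forall_mem_cons.2 ⟨f_5687 h, List.forall_mem_cons.2 ⟨f_5688 h, List.forall_mem_cons.2 ⟨f_5689 h, List.forall_mem_cons.2 ⟨f_5690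 h, List.forall_mem_cons.2 ⟨f_5691 h, List.forall_mem_cons.2 ⟨f_5692 h, List.forall_mem_cons.2 ⟨f_5693 h, List.forall_mem_cons.2 ⟨f_5694 h, List.forall_mem_cons.2 ⟨f_5695 h, List.forall_mem_cons.2 ⟨f_5696 h, List.forall_mem_cons.2 ⟨f_5697 h, List.forall_mem_cons.2 ⟨f_5698 h, List.forall_mem_cons.2 ⟨f_5699 h,
    fun _ h0 => absurd h0 List.not_mem_nil⟩⟩⟩⟩⟩⟩⟩⟩⟩⟩⟩⟩⟩⟩⟩⟩⟩⟩⟩⟩⟩⟩⟩⟩⟩⟩⟩⟩

def F_5700 : FrX :=
  ⟨0x482000044040440000c2040020009000182040010080020802000220040024804400040808010220000420404008120014010088a00100044020200280,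
    0xa0, 1, 0x314161708497a3, 7,
    [(0xa0, 1), (0x538690a2, 4), (0x548790a1, 4), (0x21437690, 4), (0x538690a2, 4), (0x548790a1, 4)],
    [(0x314161708497a3, 7), (0x104372a5, 4), (0x10768593, 4), (0x106294a8, 4), (0x104372a5, 4), (0x10768593, 4)]⟩

def c_5700 : frmChk tA tA F_5700 = true := by decide +kernel

def r_5700_0 : chkL rootF engF2 tA tA sA_465 sA_465 4 F_5700 [(511, 0, 0)]
    0x1 = true := by
  decide +kernel

theorem f_5700 (h : TabsF) : FrameF repsF 465 F_5700.f :=
  frame_of rfl c_5700 (runs_of engOK r_5700_0) (by decide +kernel) h.1 h.1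

def F_5701 : FrX :=
  ⟨0x482000044040440000c2040020009000182040000840500108020080010044800080400888001020200020c080082009000001480800a4040024200001,
    0xa0, 1, 0x1021426280a8, 6,
    [(0xa0, 1), (0x538690a2, 4), (0x548790a1, 4), (0x21437690, 4), (0x538690a2, 4), (0x548790a1, 4)],
    [(0x1021426280a8, 6), (0x538691a4, 4), (0x508291a7, 4), (0x30627491, 4), (0x538691a4, 4), (0x508291a7, 4)]⟩

def c_5701 : frmChk tA tA F_5701 = true := by decide +kernel

def r_5701_0 : chkL rootF engF2 tA tA sA_465 sA_465 4 F_5701 [(511, 0, 0)]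
    0x1 = true := by
  decide +kernel

theorem f_5701 (h : TabsF) : FrameF repsF 465 F_5701.f :=
  frame_of rfl c_5701 (runs_of engOK r_5701_0) (by decide +kernel) h.1 h.1

def F_5702 : FrX :=
  ⟨0x1c2102000004044000002041000101000082040890080080000810010400202020028410000540200040808a80050002040441041100020244080200000,
    0x0, 0, 0x21537585, 4,
    [(0x0, 0), (0x205386a9, 4), (0x105487a9, 4), (0x214376a9, 4), (0x205386a9, 4), (0x105487a9, 4)],
    [(0x21537585, 4), (0x107685a9, 4), (0x207384a9, 4), (0x215463a9, 4), (0x107685a9, 4), (0x207384a9, 4)]⟩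

def c_5702 : frmChk tA tA F_5702 = true := by decide +kernel

def r_5702_0 : chkL rootF engF2 tA tA sA_465 sA_465 4 F_5702 [(511, 0, 0)]
    0x1 = true := by
  decide +kernel

theorem f_5702 (h : TabsF) : FrameF repsF 465 F_5702.f :=
  frame_of rfl c_5702 (runs_of engOK r_5702_0) (by decide +kernel) h.1 h.1

def F_5703 : FrX :=
  ⟨0x80080a000804040e00002101002001000002040890010008088004044440002020401010000541000048000a80041002100101041000820244005080000,
    0xa6, 1, 0x324354647398a1, 7,
    [(0xa6, 1), (0x205396a8, 4), (0x10548796, 4), (0x214396a7, 4), (0x205396a8, 4), (0x10548796, 4)],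
    [(0x324354647398a1, 7), (0x30728195, 4), (0x628194a0, 4), (0x547681a3, 4), (0x30728195, 4), (0x628194a0, 4)]⟩

def c_5703 : frmChk tA tA F_5703 = true := by decide +kernel

def r_5703_0 : chkL rootF engF2 tA tA sA_465 sA_465 4 F_5703 [(511, 0, 0)]
    0x1 = true := by
  decide +kernel

theorem f_5703 (h : TabsF) : FrameF repsF 465 F_5703.f :=
  frame_of rfl c_5703 (runs_of engOK r_5703_0) (by decide +kernel) h.1 h.1

def F_5704 : FrX :=
  ⟨0x80080a000804040e000021010020010000020408804110040044004004800000041230200080100208100000141001204046100840100810041c0008000,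
    0xa6, 1, 0x2130758091a4, 6,
    [(0xa6, 1), (0x205396a8, 4), (0x10548796, 4), (0x214396a7, 4), (0x205396a8, 4), (0x10548796, 4)],
    [(0x2130758091a4, 6), (0x42637081, 4), (0x425398a7, 4), (0x426591a0, 4), (0x42637081, 4), (0x425398a7, 4)]⟩

def c_5704 : frmChk tA tA F_5704 = true := by decide +kernel

def r_5704_0 : chkL rootF engF2 tA tA sA_465 sA_465 4 F_5704 [(511, 0, 0)]
    0x1 = true := by
  decide +kernel

theorem f_5704 (h : TabsF) : FrameF repsF 465 F_5704.f :=
  frame_of rfl c_5704 (runs_of engOK r_5704_0) (by decide +kernel) h.1 h.1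

def F_5705 : FrX :=
  ⟨0x2002000900044004000e02041000141000800040800802080090020400800882000284000904000414000004401010002020120005040020202125400001,
    0xa3, 1, 0x5164748791a3, 6,
    [(0xa3, 1), (0x208693a5, 4), (0x10548793, 4), (0x217693a4, 4), (0x208693a5, 4), (0x10548793, 4)],
    [(0x5164748791a3, 6), (0x207681a4, 4), (0x53718490, 4), (0x537481a6, 4), (0x53718490, 4), (0x617492a8, 4), (0x205364a7, 4), (0x537481a6, 4), (0x205364a7, 4), (0x418790a6, 4), (0x537481a6, 4), (0x617492a8, 4)]⟩

def c_5705 : frmChk tA tB F_5705 = true := by decide +kernel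

def r_5705_0 : chkL rootF engF2 tA tB sA_465 sB_465 4 F_5705 [(511, 0, 0)]
    0x1 = true := by
  decide +kernel

theorem f_5705 (h : TabsF) : FrameF repsF 465 F_5705.f :=
  frame_of rfl c_5705 (runs_of engOK r_5705_0) (by decide +kernel) h.1 h.2

def F_5706 : FrX :=
  ⟨0x2002000900044004000e020410001410008000408080010020a000046000c082100200004020010220800402010000120484010084201000001004213001,
    0xa3, 1, 0x10638296a2, 5,
    [(0xa3, 1), (0x208693a5, 4), (0x10548793, 4), (0x217693a4, 4), (0x208693a5, 4), (0x10548793, 4)],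
    [(0x10638296a2, 5), (0x427596a1, 4), (0x10548397, 4), (0x62758394, 4), (0x10548397, 4), (0x527694a0, 4), (0x648392a1, 4), (0x62758394, 4), (0x648392a1, 4), (0x10627495, 4), (0x62758394, 4), (0x527694a0, 4)]⟩

def c_5706 : frmChk tA tB F_5706 = true := by decide +kernel

def r_5706_0 : chkL rootF engF2 tA tB sA_465 sB_465 4 F_5706 [(511, 0, 0)]
    0x1 = true := by
  decide +kernel

theorem f_5706 (h : TabsF) : FrameF repsF 465 F_5706.f :=
  frame_of rfl c_5706 (runs_of engOK r_5706_0) (by decide +kernel) h.1 h.2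

def F_5707 : FrX :=
  ⟨0x1c2102000004044000002041000101000082040884044000020002008002020030604001204020440801040808040801080080031850000404200080040,
    0x0, 0, 0x21657483, 4,
    [(0x0, 0), (0x205386a9, 4), (0x105487a9, 4), (0x214376a9, 4), (0x205386a9, 4), (0x105487a9, 4)],
    [(0x21657483, 4), (0x105386a9, 4), (0x204376a9, 4), (0x215487a9, 4), (0x105386a9, 4), (0x204376a9, 4)]⟩

def c_5707 : frmChk tA tA F_5707 = true := by decide +kernel

def r_5707_0 : chkL rootF engF2 tA tA sA_465 sA_465 4 F_5707 [(511, 0, 0)]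
    0x1 = true := by
  decide +kernel

theorem f_5707 (h : TabsF) : FrameF repsF 465 F_5707.f :=
  frame_of rfl c_5707 (runs_of engOK r_5707_0) (by decide +kernel) h.1 h.1

def F_5708 : FrX :=
  ⟨0x482000044040440000c2040020009000182040000880880000a00080020202020404060004020008080140808000802080080130030202015200080080,
    0xa0, 1, 0x32425363708694a1, 8,
    [(0xa0, 1), (0x538690a2, 4), (0x548790a1, 4), (0x21437690, 4), (0x538690a2, 4), (0x548790a1, 4)],
    [(0x32425363708694a1, 8), (0x31627485, 4), (0x315092a7, 4), (0x318096a4, 4), (0x31627485, 4), (0x315092a7, 4)]⟩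

def c_5708 : frmChk tA tA F_5708 = true := by decide +kernel

def r_5708_0 : chkL rootF engF2 tA tA sA_465 sA_465 4 F_5708 [(511, 0, 0)]
    0x1 = true := by
  decide +kernel

theorem f_5708 (h : TabsF) : FrameF repsF 465 F_5708.f :=
  frame_of rfl c_5708 (runs_of engOK r_5708_0) (by decide +kernel) h.1 h.1

def F_5709 : FrX :=
  ⟨0x482000044040440000c2040020009000182040010080080101000808010424220400004004300410111040008001800084000102050002810000008884,
    0xa0, 1, 0x205061738196a3, 7,
    [(0xa0, 1), (0x538690a2, 4), (0x548790a1, 4), (0x21437690, 4), (0x538690a2, 4), (0x548790a1, 4)],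
    [(0x205061738196a3, 7), (0x507196a2, 4), (0x42637185, 4), (0x718093a4, 4), (0x507196a2, 4), (0x42637185, 4)]⟩

def c_5709 : frmChk tA tA F_5709 = true := by decide +kernel

def r_5709_0 : chkL rootF engF2 tA tA sA_465 sA_465 4 F_5709 [(511, 0, 0)]
    0x1 = true := by
  decide +kernel

theorem f_5709 (h : TabsF) : FrameF repsF 465 F_5709.f :=
  frame_of rfl c_5709 (runs_of engOK r_5709_0) (by decide +kernel) h.1 h.1

def F_5710 : FrX :=
  ⟨0x2002000900044004000e0204100014100080004080200041400440011101004002020402000400404088080880000080020180102c080801100402200401,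
    0xa3, 1, 0x314062708292a1, 7,
    [(0xa3, 1), (0x208693a5, 4), (0x10548793, 4), (0x217693a4, 4), (0x208693a5, 4), (0x10548793, 4)],
    [(0x314062708292a1, 7), (0x21546097, 4), (0x425083a7, 4), (0x20546183, 4), (0x425083a7, 4), (0x204165a9, 4), (0x10628397, 4), (0x20546183, 4), (0x10628397, 4), (0x405261a7, 4), (0x20546183, 4), (0x204165a9, 4)]⟩

def c_5710 : frmChk tA tB F_5710 = true := by decide +kernel

def r_5710_0 : chkL rootF engF2 tA tB sA_465 sB_465 4 F_5710 [(511, 0, 0)]
    0x1 = true := by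
  decide +kernel

theorem f_5710 (h : TabsF) : FrameF repsF 465 F_5710.f :=
  frame_of rfl c_5710 (runs_of engOK r_5710_0) (by decide +kernel) h.1 h.2

def F_5711 : FrX :=
  ⟨0x80080a000804040e000021010020010000020408a000200048008810022401002001100010400600088000088800880022100002e028002002040808400,
    0xa6, 1, 0x10304251607392a0, 8,
    [(0xa6, 1), (0x205396a8, 4), (0x10548796, 4), (0x214396a7, 4), (0x205396a8, 4), (0x10548796, 4)],
    [(0x10304251607392a0, 8), (0x107382a9, 4), (0x203164a5, 4), (0x10326487, 4), (0x203164a5, 4), (0x32718095, 4), (0x647283a9, 4), (0x10326487, 4), (0x647283a9, 4), (0x213087a5, 4), (0x10326487, 4), (0x32718095, 4)]⟩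

def c_5711 : frmChk tA tB F_5711 = true := by decide +kernel

def r_5711_0 : chkL rootF engF2 tA tB sA_465 sB_465 4 F_5711 [(511, 0, 0)]
    0x1 = true := by
  decide +kernel

theorem f_5711 (h : TabsF) : FrameF repsF 465 F_5711.f :=
  frame_of rfl c_5711 (runs_of engOK r_5711_0) (by decide +kernel) h.1 h.2

def F_5712 : FrX :=
  ⟨0x2002000900044004000e02041000141000800040800400444810200010801041000102020002080009400182000040043080090004088208200100010090,
    0xa3, 1, 0x30415295a5, 5,
    [(0xa3, 1), (0x208693a5, 4), (0x10548793, 4), (0x217693a4, 4), (0x208693a5, 4), (0x10548793, 4)],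
    [(0x30415295a5, 5), (0x538692a0, 4), (0x438792a1, 4), (0x10547692, 4), (0x538692a0, 4), (0x438792a1, 4)]⟩

def c_5712 : frmChk tA tA F_5712 = true := by decide +kernel

def r_5712_0 : chkL rootF engF2 tA tA sA_465 sA_465 4 F_5712 [(511, 0, 0)]
    0x1 = true := by
  decide +kernel

theorem f_5712 (h : TabsF) : FrameF repsF 465 F_5712.f :=
  frame_of rfl c_5712 (runs_of engOK r_5712_0) (by decide +kernel) h.1 h.1

def F_5713 : FrX :=
  ⟨0x80080a000804040e000021010020010000020408a0000801400400808822080004880000082020409010080208053400000010006000008282024600000,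
    0xa6, 1, 0x42507694a6, 5,
    [(0xa6, 1), (0x205396a8, 4), (0x10548796, 4), (0x214396a7, 4), (0x205396a8, 4), (0x10548796, 4)],
    [(0x42507694a6, 5), (0x546098a3, 4), (0x517290a6, 4), (0x607283a9, 4), (0x517290a6, 4), (0x416380a9, 4), (0x547293a8, 4), (0x607283a9, 4), (0x547293a8, 4), (0x518396a0, 4), (0x607283a9, 4), (0x416380a9, 4)]⟩

def c_5713 : frmChk tA tB F_5713 = true := by decide +kernel

def r_5713_0 : chkL rootF engF2 tA tB sA_465 sB_465 4 F_5713 [(511, 0, 0)]
    0x1 = true := by
  decide +kernel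

theorem f_5713 (h : TabsF) : FrameF repsF 465 F_5713.f :=
  frame_of rfl c_5713 (runs_of engOK r_5713_0) (by decide +kernel) h.1 h.2

def F_5714 : FrX :=
  ⟨0x80080a000804040e000021010020010000020408a00004042004a0800880080000120400041080220808200804050102200006011000101100202440000,
    0xa6, 1, 0x4351748698a6, 6,
    [(0xa6, 1), (0x205396a8, 4), (0x10548796, 4), (0x214396a7, 4), (0x205396a8, 4), (0x10548796, 4)],
    [(0x4351748698a6, 6), (0x203197a4, 4), (0x507186a3, 4), (0x318694a7, 4), (0x507186a3, 4), (0x435291a7, 4), (0x207486a9, 4), (0x318694a7, 4), (0x207486a9, 4), (0x507394a1, 4), (0x318694a7, 4), (0x435291a7, 4)]⟩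

def c_5714 : frmChk tA tB F_5714 = true := by decide +kernel

def r_5714_0 : chkL rootF engF2 tA tB sA_465 sB_465 4 F_5714 [(511, 0, 0)]
    0x1 = true := by
  decide +kernel

theorem f_5714 (h : TabsF) : FrameF repsF 465 F_5714.f :=
  frame_of rfl c_5714 (runs_of engOK r_5714_0) (by decide +kernel) h.1 h.2

def F_5715 : FrX :=
  ⟨0x1001040012008080000e0084080041000810100004048008012001004002002280800a00b100000184004200010800400014000405200808022000052080,
    0xa3, 1, 0x51618593a4, 5,
    [(0xa3, 1), (0x207584a6, 4), (0x10547693, 4), (0x647593a8, 4), (0x10547693, 4), (0x216485a7, 4), (0x208693a4, 4), (0x647593a8, 4), (0x208693a4, 4), (0x106574a8, 4), (0x647593a8, 4), (0x216485a7, 4)],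
    [(0x51618593a4, 5), (0x208795a1, 4), (0x436075a8, 4), (0x438791a5, 4), (0x436075a8, 4), (0x628197a5, 4), (0x204351a9, 4), (0x438791a5, 4), (0x204351a9, 4), (0x608591a7, 4), (0x438791a5, 4), (0x628197a5, 4)]⟩

def c_5715 : frmChk tB tB F_5715 = true := by decide +kernel

def r_5715_0 : chkL rootF engF2 tB tB sB_465 sB_465 4 F_5715 [(511, 0, 0)]
    0x1 = true := by
  decide +kernel

theorem f_5715 (h : TabsF) : FrameF repsF 465 F_5715.f :=
  frame_of rfl c_5715 (runs_of engOK r_5715_0) (by decide +kernel) h.2 h.2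

theorem cl_465 (h : TabsF) : ∀ f ∈ fr_465, FrameF repsF 465 f :=
  List.forall_mem_cons.2 ⟨f_5700 h, List.forall_mem_cons.2 ⟨f_5701 h, List.forall_mem_cons.2 ⟨f_5702 h, List.forall_mem_cons.2 ⟨f_5703 h, List.forall_mem_cons.2 ⟨f_5704 h, List.forall_mem_cons.2 ⟨f_5705 h, List.forall_mem_cons.2 ⟨f_5706 h, List.forall_mem_cons.2 ⟨f_5707 h, List.forall_mem_cons.2 ⟨f_5708 h, List.forall_mem_cons.2 ⟨f_5709 h, List.forall_mem_cons.2 ⟨f_5710 h, List.forall_mem_cons.2 ⟨f_5711 h, List.forall_mem_cons.2 ⟨f_5712 h, List.forall_mem_cons.2 ⟨f_5713 h, List.forall_mem_cons.2 ⟨f_5714 h, List.forall_mem_cons.2 ⟨f_5715 h,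
    fun _ h0 => absurd h0 List.not_mem_nil⟩⟩⟩⟩⟩⟩⟩⟩⟩⟩⟩⟩⟩⟩⟩⟩

/-- the classes finished in this module -/
theorem all_L24 (h : TabsF) : ∀ p ∈ ([(416, fr_416), (417, fr_417), (418, fr_418), (419, fr_419), (420, fr_420), (421, fr_421), (422, fr_422), (423, fr_423), (424, fr_424), (425, fr_425), (426, fr_426), (427, fr_427), (428, fr_428), (429, fr_429), (430, fr_430), (431, fr_431), (432, fr_432), (433, fr_433), (434, fr_434), (435, fr_435), (436, fr_436), (437, fr_437), (438, fr_438), (439, fr_439), (440, fr_440), (441, fr_441), (442, fr_442), (443, fr_443), (444, fr_444), (445, fr_445), (446, fr_446), (447, fr_447), (448, fr_448), (449, fr_449), (450, fr_450), (451, fr_451), (452, fr_452), (453, fr_453), (454, fr_454), (455, fr_455), (456, fr_456), (457, fr_457), (458, fr_458), (459, fr_459), (460, fr_460), (461, fr_461), (462, fr_462), (463, fr_463), (464, fr_464), (465, fr_465)] : List (ℕ × List ℕ)),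
    ∀ f ∈ p.2, FrameF repsF p.1 f :=
  List.forall_mem_cons.2 ⟨cl_416 h, List.forall_mem_cons.2 ⟨cl_417 h, List.forall_mem_cons.2 ⟨cl_418 h, List.forall_mem_cons.2 ⟨cl_419 h, List.forall_mem_cons.2 ⟨cl_420 h, List.forall_mem_cons.2 ⟨cl_421 h, List.forall_mem_cons.2 ⟨cl_422 h, List.forall_mem_cons.2 ⟨cl_423 h, List.forall_mem_cons.2 ⟨cl_424 h, List.forall_mem_cons.2 ⟨cl_425 h, List.forall_mem_cons.2 ⟨cl_426 h, List.forall_mem_cons.2 ⟨cl_427 h, List.forall_mem_cons.2 ⟨cl_428 h, List.forall_mem_cons.2 ⟨cl_429 h, List.forall_mem_cons.2 ⟨cl_430 h, List.forall_mem_cons.2 ⟨cl_431 h, List.forall_mem_cons.2 ⟨cl_432 h, List.forall_mem_cons.2 ⟨cl_433 h, List.forall_mem_cons.2 ⟨cl_434 h, List.forall_mem_cons.2 ⟨cl_435 h, List.forall_mem_cons.2 ⟨cl_436 h, List.forall_mem_cons.2 ⟨cl_437 h, List.forall_mem_cons.2 ⟨cl_438 h, List.forall_mem_cons.2 ⟨cl_439 h, List.forall_mem_cons.2 ⟨cl_440 h, List.forall_mem_cons.2 ⟨cl_441 h, List.forall_mem_cons.2 ⟨cl_442 h, List.forall_mem_cons.2 ⟨cl_443 h, List.forall_mem_cons.2 ⟨cl_444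 h, List.forall_mem_cons.2 ⟨cl_445 h, List.forall_mem_cons.2 ⟨cl_446 h, List.forall_mem_cons.2 ⟨cl_447 h, List.forall_mem_cons.2 ⟨cl_448 h, List.forall_mem_cons.2 ⟨cl_449 h, List.forall_mem_cons.2 ⟨cl_450 h, List.forall_mem_cons.2 ⟨cl_451 h, List.forall_mem_cons.2 ⟨cl_452 h, List.forall_mem_cons.2 ⟨cl_453 h, List.forall_mem_cons.2 ⟨cl_454 h, List.forall_mem_cons.2 ⟨cl_455 h, List.forall_mem_cons.2 ⟨cl_456 h, List.forall_mem_cons.2 ⟨cl_457 h, List.forall_mem_cons.2 ⟨cl_458 h, List.forall_mem_cons.2 ⟨cl_459 h, List.forall_mem_cons.2 ⟨cl_460 h, List.forall_mem_cons.2 ⟨cl_461 h, List.forall_mem_cons.2 ⟨cl_462 h, List.forall_mem_cons.2 ⟨cl_463 h, List.forall_mem_cons.2 ⟨cl_464 h, List.forall_mem_cons.2 ⟨cl_465 h, fun _ h0 => absurd h0 List.not_mem_nil⟩⟩⟩⟩⟩⟩⟩⟩⟩⟩⟩⟩⟩⟩⟩⟩⟩⟩⟩⟩⟩⟩⟩⟩⟩⟩⟩⟩⟩⟩⟩⟩⟩⟩⟩⟩⟩⟩⟩⟩⟩⟩⟩⟩⟩⟩⟩⟩⟩⟩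

end Pool.Agent.Gen.TY.F
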