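import Pool.Agent.Gen.TY.FR.Fin
import Pool.Agent.Gen.TY.F.H00
import Pool.Agent.Gen.TY.F.H01
import Pool.Agent.Gen.TY.F.H02
import Pool.Agent.Gen.TY.F.H03
import Pool.Agent.Gen.TY.F.H04
import Pool.Agent.Gen.TY.F.H05
import Pool.Agent.Gen.TY.F.H06
import Pool.Agent.Gen.TY.F.H07
import Pool.Agent.Gen.TY.F.H08
import Pool.Agent.Gen.TY.F.H09
import Pool.Agent.Gen.TY.F.H10
import Pool.Agent.Gen.TY.F.L00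
import Pool.Agent.Gen.TY.F.L01
import Pool.Agent.Gen.TY.F.L02
import Pool.Agent.Gen.TY.F.L03
import Pool.Agent.Gen.TY.F.L04
import Pool.Agent.Gen.TY.F.L05
import Pool.Agent.Gen.TY.F.L06
import Pool.Agent.Gen.TY.F.L07
import Pool.Agent.Gen.TY.F.L08
import Pool.Agent.Gen.TY.F.L09
import Pool.Agent.Gen.TY.F.L10
import Pool.Agent.Gen.TY.F.L11
import Pool.Agent.Gen.TY.F.L12
import Pool.Agent.Gen.TY.F.L13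
import Pool.Agent.Gen.TY.F.L14
import Pool.Agent.Gen.TY.F.L15
import Pool.Agent.Gen.TY.F.L16
import Pool.Agent.Gen.TY.F.L17
import Pool.Agent.Gen.TY.F.L18
import Pool.Agent.Gen.TY.F.L19
import Pool.Agent.Gen.TY.F.L20
import Pool.Agent.Gen.TY.F.L21
import Pool.Agent.Gen.TY.F.L22
import Pool.Agent.Gen.TY.F.L23
import Pool.Agent.Gen.TY.F.L24

/-!
MP_8ee768_co, project TH-Y', stage F: all frames of all reduced classes are dead, the stage.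
-/

set_option autoImplicit false

namespace Pool.Agent.Gen.TY.F

open Pool.Agent.Helper79.CV
open Pool.Agent.Helper20.TY
open Pool.Agent.Gen.TY.FR
open Pool.Agent.Helper4.CV (StF)

/-- block 0 -/
theorem fbOK_0 (h : TabsF) : ∀ p ∈ fb_0, ∀ f ∈ p.2, FrameF repsF p.1 f :=
  List.forall_mem_cons.2 ⟨cl_0 h,
  List.forall_mem_cons.2 ⟨cl_1 h,
  List.forall_mem_cons.2 ⟨cl_2 h,
  List.forall_mem_cons.2 ⟨cl_3 h,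
  List.forall_mem_cons.2 ⟨cl_4 h,
  List.forall_mem_cons.2 ⟨cl_5 h,
  List.forall_mem_cons.2 ⟨cl_6 h,
  List.forall_mem_cons.2 ⟨cl_7 h,
  List.forall_mem_cons.2 ⟨cl_8 h,
  List.forall_mem_cons.2 ⟨cl_9 h,
  List.forall_mem_cons.2 ⟨cl_10 h,
  List.forall_mem_cons.2 ⟨cl_11 h,
  List.forall_mem_cons.2 ⟨cl_12 h,
  List.forall_mem_cons.2 ⟨cl_33 h,
  List.forall_mem_cons.2 ⟨cl_34 h,
  List.forall_mem_cons.2 ⟨cl_35 h,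
  List.forall_mem_cons.2 ⟨cl_36 h,
  List.forall_mem_cons.2 ⟨cl_37 h,
  List.forall_mem_cons.2 ⟨cl_38 h,
  List.forall_mem_cons.2 ⟨cl_212 h,
  fun _ h0 => absurd h0 List.not_mem_nil⟩⟩⟩⟩⟩⟩⟩⟩⟩⟩⟩⟩⟩⟩⟩⟩⟩⟩⟩⟩

/-- block 1 -/
theorem fbOK_1 (h : TabsF) : ∀ p ∈ fb_1, ∀ f ∈ p.2, FrameF repsF p.1 f :=
  List.forall_mem_cons.2 ⟨cl_213 h,
  List.forall_mem_cons.2 ⟨cl_214 h,
  List.forall_mem_cons.2 ⟨cl_215 h,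
  List.forall_mem_cons.2 ⟨cl_216 h,
  List.forall_mem_cons.2 ⟨cl_217 h,
  List.forall_mem_cons.2 ⟨cl_218 h,
  List.forall_mem_cons.2 ⟨cl_219 h,
  List.forall_mem_cons.2 ⟨cl_220 h,
  List.forall_mem_cons.2 ⟨cl_221 h,
  List.forall_mem_cons.2 ⟨cl_222 h,
  List.forall_mem_cons.2 ⟨cl_223 h,
  List.forall_mem_cons.2 ⟨cl_224 h,
  List.forall_mem_cons.2 ⟨cl_225 h,
  List.forall_mem_cons.2 ⟨cl_226 h,
  List.forall_mem_cons.2 ⟨cl_227 h,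
  List.forall_mem_cons.2 ⟨cl_228 h,
  List.forall_mem_cons.2 ⟨cl_229 h,
  List.forall_mem_cons.2 ⟨cl_230 h,
  List.forall_mem_cons.2 ⟨cl_231 h,
  List.forall_mem_cons.2 ⟨cl_232 h,
  fun _ h0 => absurd h0 List.not_mem_nil⟩⟩⟩⟩⟩⟩⟩⟩⟩⟩⟩⟩⟩⟩⟩⟩⟩⟩⟩⟩

/-- block 2 -/
theorem fbOK_2 (h : TabsF) : ∀ p ∈ fb_2, ∀ f ∈ p.2, FrameF repsF p.1 f :=
  List.forall_mem_cons.2 ⟨cl_233 h,
  List.forall_mem_cons.2 ⟨cl_234 h,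
  List.forall_mem_cons.2 ⟨cl_235 h,
  List.forall_mem_cons.2 ⟨cl_236 h,
  List.forall_mem_cons.2 ⟨cl_237 h,
  List.forall_mem_cons.2 ⟨cl_238 h,
  List.forall_mem_cons.2 ⟨cl_239 h,
  List.forall_mem_cons.2 ⟨cl_240 h,
  List.forall_mem_cons.2 ⟨cl_241 h,
  List.forall_mem_cons.2 ⟨cl_242 h,
  List.forall_mem_cons.2 ⟨cl_243 h,
  List.forall_mem_cons.2 ⟨cl_244 h,
  List.forall_mem_cons.2 ⟨cl_245 h,
  List.forall_mem_cons.2 ⟨cl_246 h,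
  List.forall_mem_cons.2 ⟨cl_247 h,
  List.forall_mem_cons.2 ⟨cl_248 h,
  List.forall_mem_cons.2 ⟨cl_249 h,
  List.forall_mem_cons.2 ⟨cl_250 h,
  List.forall_mem_cons.2 ⟨cl_251 h,
  List.forall_mem_cons.2 ⟨cl_252 h,
  fun _ h0 => absurd h0 List.not_mem_nil⟩⟩⟩⟩⟩⟩⟩⟩⟩⟩⟩⟩⟩⟩⟩⟩⟩⟩⟩⟩

/-- block 3 -/
theorem fbOK_3 (h : TabsF) : ∀ p ∈ fb_3, ∀ f ∈ p.2, FrameF repsF p.1 f :=
  List.forall_mem_cons.2 ⟨cl_253 h,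
  List.forall_mem_cons.2 ⟨cl_254 h,
  List.forall_mem_cons.2 ⟨cl_255 h,
  List.forall_mem_cons.2 ⟨cl_256 h,
  List.forall_mem_cons.2 ⟨cl_257 h,
  List.forall_mem_cons.2 ⟨cl_258 h,
  List.forall_mem_cons.2 ⟨cl_259 h,
  List.forall_mem_cons.2 ⟨cl_260 h,
  List.forall_mem_cons.2 ⟨cl_261 h,
  List.forall_mem_cons.2 ⟨cl_262 h,
  List.forall_mem_cons.2 ⟨cl_263 h,
  List.forall_mem_cons.2 ⟨cl_264 h,
  List.forall_mem_cons.2 ⟨cl_265 h,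
  List.forall_mem_cons.2 ⟨cl_266 h,
  List.forall_mem_cons.2 ⟨cl_267 h,
  List.forall_mem_cons.2 ⟨cl_268 h,
  List.forall_mem_cons.2 ⟨cl_269 h,
  List.forall_mem_cons.2 ⟨cl_270 h,
  List.forall_mem_cons.2 ⟨cl_271 h,
  List.forall_mem_cons.2 ⟨cl_272 h,
  fun _ h0 => absurd h0 List.not_mem_nil⟩⟩⟩⟩⟩⟩⟩⟩⟩⟩⟩⟩⟩⟩⟩⟩⟩⟩⟩⟩

/-- block 4 -/
theorem fbOK_4 (h : TabsF) : ∀ p ∈ fb_4, ∀ f ∈ p.2, FrameF repsF p.1 f :=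
  List.forall_mem_cons.2 ⟨cl_273 h,
  List.forall_mem_cons.2 ⟨cl_274 h,
  List.forall_mem_cons.2 ⟨cl_275 h,
  List.forall_mem_cons.2 ⟨cl_276 h,
  List.forall_mem_cons.2 ⟨cl_277 h,
  List.forall_mem_cons.2 ⟨cl_278 h,
  List.forall_mem_cons.2 ⟨cl_279 h,
  List.forall_mem_cons.2 ⟨cl_280 h,
  List.forall_mem_cons.2 ⟨cl_281 h,
  List.forall_mem_cons.2 ⟨cl_282 h,
  List.forall_mem_cons.2 ⟨cl_283 h,
  List.forall_mem_cons.2 ⟨cl_284 h,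
  List.forall_mem_cons.2 ⟨cl_285 h,
  List.forall_mem_cons.2 ⟨cl_286 h,
  List.forall_mem_cons.2 ⟨cl_287 h,
  List.forall_mem_cons.2 ⟨cl_288 h,
  List.forall_mem_cons.2 ⟨cl_289 h,
  List.forall_mem_cons.2 ⟨cl_290 h,
  List.forall_mem_cons.2 ⟨cl_291 h,
  List.forall_mem_cons.2 ⟨cl_292 h,
  fun _ h0 => absurd h0 List.not_mem_nil⟩⟩⟩⟩⟩⟩⟩⟩⟩⟩⟩⟩⟩⟩⟩⟩⟩⟩⟩⟩

/-- block 5 -/
theorem fbOK_5 (h : TabsF) : ∀ p ∈ fb_5, ∀ f ∈ p.2, FrameF repsF p.1 f :=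
  List.forall_mem_cons.2 ⟨cl_293 h,
  List.forall_mem_cons.2 ⟨cl_294 h,
  List.forall_mem_cons.2 ⟨cl_295 h,
  List.forall_mem_cons.2 ⟨cl_296 h,
  List.forall_mem_cons.2 ⟨cl_297 h,
  List.forall_mem_cons.2 ⟨cl_298 h,
  List.forall_mem_cons.2 ⟨cl_299 h,
  List.forall_mem_cons.2 ⟨cl_300 h,
  List.forall_mem_cons.2 ⟨cl_301 h,
  List.forall_mem_cons.2 ⟨cl_302 h,
  List.forall_mem_cons.2 ⟨cl_303 h,
  List.forall_mem_cons.2 ⟨cl_304 h,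
  List.forall_mem_cons.2 ⟨cl_305 h,
  List.forall_mem_cons.2 ⟨cl_306 h,
  List.forall_mem_cons.2 ⟨cl_307 h,
  List.forall_mem_cons.2 ⟨cl_308 h,
  List.forall_mem_cons.2 ⟨cl_309 h,
  List.forall_mem_cons.2 ⟨cl_310 h,
  List.forall_mem_cons.2 ⟨cl_311 h,
  List.forall_mem_cons.2 ⟨cl_312 h,
  fun _ h0 => absurd h0 List.not_mem_nil⟩⟩⟩⟩⟩⟩⟩⟩⟩⟩⟩⟩⟩⟩⟩⟩⟩⟩⟩⟩

/-- block 6 -/
theorem fbOK_6 (h : TabsF) : ∀ p ∈ fb_6, ∀ f ∈ p.2, FrameF repsF p.1 f :=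
  List.forall_mem_cons.2 ⟨cl_313 h,
  List.forall_mem_cons.2 ⟨cl_314 h,
  List.forall_mem_cons.2 ⟨cl_315 h,
  List.forall_mem_cons.2 ⟨cl_316 h,
  List.forall_mem_cons.2 ⟨cl_317 h,
  List.forall_mem_cons.2 ⟨cl_318 h,
  List.forall_mem_cons.2 ⟨cl_319 h,
  List.forall_mem_cons.2 ⟨cl_320 h,
  List.forall_mem_cons.2 ⟨cl_321 h,
  List.forall_mem_cons.2 ⟨cl_322 h,
  List.forall_mem_cons.2 ⟨cl_323 h,
  List.forall_mem_cons.2 ⟨cl_324 h,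
  List.forall_mem_cons.2 ⟨cl_325 h,
  List.forall_mem_cons.2 ⟨cl_326 h,
  List.forall_mem_cons.2 ⟨cl_327 h,
  List.forall_mem_cons.2 ⟨cl_328 h,
  List.forall_mem_cons.2 ⟨cl_329 h,
  List.forall_mem_cons.2 ⟨cl_330 h,
  List.forall_mem_cons.2 ⟨cl_331 h,
  List.forall_mem_cons.2 ⟨cl_332 h,
  fun _ h0 => absurd h0 List.not_mem_nil⟩⟩⟩⟩⟩⟩⟩⟩⟩⟩⟩⟩⟩⟩⟩⟩⟩⟩⟩⟩

/-- block 7 -/
theorem fbOK_7 (h : TabsF) : ∀ p ∈ fb_7, ∀ f ∈ p.2, FrameF repsF p.1 f :=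
  List.forall_mem_cons.2 ⟨cl_333 h,
  List.forall_mem_cons.2 ⟨cl_334 h,
  List.forall_mem_cons.2 ⟨cl_335 h,
  List.forall_mem_cons.2 ⟨cl_336 h,
  List.forall_mem_cons.2 ⟨cl_337 h,
  List.forall_mem_cons.2 ⟨cl_338 h,
  List.forall_mem_cons.2 ⟨cl_339 h,
  List.forall_mem_cons.2 ⟨cl_340 h,
  List.forall_mem_cons.2 ⟨cl_341 h,
  List.forall_mem_cons.2 ⟨cl_342 h,
  List.forall_mem_cons.2 ⟨cl_343 h,
  List.forall_mem_cons.2 ⟨cl_344 h,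
  List.forall_mem_cons.2 ⟨cl_345 h,
  List.forall_mem_cons.2 ⟨cl_346 h,
  List.forall_mem_cons.2 ⟨cl_347 h,
  List.forall_mem_cons.2 ⟨cl_348 h,
  List.forall_mem_cons.2 ⟨cl_349 h,
  List.forall_mem_cons.2 ⟨cl_350 h,
  List.forall_mem_cons.2 ⟨cl_351 h,
  List.forall_mem_cons.2 ⟨cl_352 h,
  fun _ h0 => absurd h0 List.not_mem_nil⟩⟩⟩⟩⟩⟩⟩⟩⟩⟩⟩⟩⟩⟩⟩⟩⟩⟩⟩⟩

/-- block 8 -/
theorem fbOK_8 (h : TabsF) : ∀ p ∈ fb_8, ∀ f ∈ p.2, FrameF repsF p.1 f :=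
  List.forall_mem_cons.2 ⟨cl_353 h,
  List.forall_mem_cons.2 ⟨cl_354 h,
  List.forall_mem_cons.2 ⟨cl_355 h,
  List.forall_mem_cons.2 ⟨cl_356 h,
  List.forall_mem_cons.2 ⟨cl_357 h,
  List.forall_mem_cons.2 ⟨cl_358 h,
  List.forall_mem_cons.2 ⟨cl_359 h,
  List.forall_mem_cons.2 ⟨cl_360 h,
  List.forall_mem_cons.2 ⟨cl_361 h,
  List.forall_mem_cons.2 ⟨cl_362 h,
  List.forall_mem_cons.2 ⟨cl_363 h,
  List.forall_mem_cons.2 ⟨cl_364 h,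
  List.forall_mem_cons.2 ⟨cl_365 h,
  List.forall_mem_cons.2 ⟨cl_366 h,
  List.forall_mem_cons.2 ⟨cl_367 h,
  List.forall_mem_cons.2 ⟨cl_368 h,
  List.forall_mem_cons.2 ⟨cl_369 h,
  List.forall_mem_cons.2 ⟨cl_370 h,
  List.forall_mem_cons.2 ⟨cl_371 h,
  List.forall_mem_cons.2 ⟨cl_372 h,
  fun _ h0 => absurd h0 List.not_mem_nil⟩⟩⟩⟩⟩⟩⟩⟩⟩⟩⟩⟩⟩⟩⟩⟩⟩⟩⟩⟩

/-- block 9 -/
theorem fbOK_9 (h : TabsF) : ∀ p ∈ fb_9, ∀ f ∈ p.2, FrameF repsF p.1 f :=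
  List.forall_mem_cons.2 ⟨cl_373 h,
  List.forall_mem_cons.2 ⟨cl_374 h,
  List.forall_mem_cons.2 ⟨cl_375 h,
  List.forall_mem_cons.2 ⟨cl_376 h,
  List.forall_mem_cons.2 ⟨cl_377 h,
  List.forall_mem_cons.2 ⟨cl_378 h,
  List.forall_mem_cons.2 ⟨cl_379 h,
  List.forall_mem_cons.2 ⟨cl_380 h,
  List.forall_mem_cons.2 ⟨cl_381 h,
  List.forall_mem_cons.2 ⟨cl_382 h,
  List.forall_mem_cons.2 ⟨cl_383 h,
  List.forall_mem_cons.2 ⟨cl_384 h,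
  List.forall_mem_cons.2 ⟨cl_385 h,
  List.forall_mem_cons.2 ⟨cl_386 h,
  List.forall_mem_cons.2 ⟨cl_387 h,
  List.forall_mem_cons.2 ⟨cl_388 h,
  List.forall_mem_cons.2 ⟨cl_389 h,
  List.forall_mem_cons.2 ⟨cl_390 h,
  List.forall_mem_cons.2 ⟨cl_391 h,
  List.forall_mem_cons.2 ⟨cl_392 h,
  fun _ h0 => absurd h0 List.not_mem_nil⟩⟩⟩⟩⟩⟩⟩⟩⟩⟩⟩⟩⟩⟩⟩⟩⟩⟩⟩⟩

/-- block 10 -/
theorem fbOK_10 (h : TabsF) : ∀ p ∈ fb_10, ∀ f ∈ p.2, FrameF repsF p.1 f :=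
  List.forall_mem_cons.2 ⟨cl_393 h,
  List.forall_mem_cons.2 ⟨cl_394 h,
  List.forall_mem_cons.2 ⟨cl_395 h,
  List.forall_mem_cons.2 ⟨cl_396 h,
  List.forall_mem_cons.2 ⟨cl_397 h,
  List.forall_mem_cons.2 ⟨cl_398 h,
  List.forall_mem_cons.2 ⟨cl_399 h,
  List.forall_mem_cons.2 ⟨cl_400 h,
  List.forall_mem_cons.2 ⟨cl_401 h,
  List.forall_mem_cons.2 ⟨cl_402 h,
  List.forall_mem_cons.2 ⟨cl_403 h,
  List.forall_mem_cons.2 ⟨cl_404 h,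
  List.forall_mem_cons.2 ⟨cl_405 h,
  List.forall_mem_cons.2 ⟨cl_406 h,
  List.forall_mem_cons.2 ⟨cl_407 h,
  List.forall_mem_cons.2 ⟨cl_408 h,
  List.forall_mem_cons.2 ⟨cl_409 h,
  List.forall_mem_cons.2 ⟨cl_410 h,
  List.forall_mem_cons.2 ⟨cl_411 h,
  List.forall_mem_cons.2 ⟨cl_412 h,
  fun _ h0 => absurd h0 List.not_mem_nil⟩⟩⟩⟩⟩⟩⟩⟩⟩⟩⟩⟩⟩⟩⟩⟩⟩⟩⟩⟩

/-- block 11 -/
theorem fbOK_11 (h : TabsF) : ∀ p ∈ fb_11, ∀ f ∈ p.2, FrameF repsF p.1 f :=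
  List.forall_mem_cons.2 ⟨cl_413 h,
  List.forall_mem_cons.2 ⟨cl_414 h,
  List.forall_mem_cons.2 ⟨cl_415 h,
  List.forall_mem_cons.2 ⟨cl_416 h,
  List.forall_mem_cons.2 ⟨cl_417 h,
  List.forall_mem_cons.2 ⟨cl_418 h,
  List.forall_mem_cons.2 ⟨cl_419 h,
  List.forall_mem_cons.2 ⟨cl_420 h,
  List.forall_mem_cons.2 ⟨cl_421 h,
  List.forall_mem_cons.2 ⟨cl_422 h,
  List.forall_mem_cons.2 ⟨cl_423 h,
  List.forall_mem_cons.2 ⟨cl_424 h,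
  List.forall_mem_cons.2 ⟨cl_425 h,
  List.forall_mem_cons.2 ⟨cl_426 h,
  List.forall_mem_cons.2 ⟨cl_427 h,
  List.forall_mem_cons.2 ⟨cl_428 h,
  List.forall_mem_cons.2 ⟨cl_429 h,
  List.forall_mem_cons.2 ⟨cl_430 h,
  List.forall_mem_cons.2 ⟨cl_431 h,
  List.forall_mem_cons.2 ⟨cl_432 h,
  fun _ h0 => absurd h0 List.not_mem_nil⟩⟩⟩⟩⟩⟩⟩⟩⟩⟩⟩⟩⟩⟩⟩⟩⟩⟩⟩⟩

/-- block 12 -/
theorem fbOK_12 (h : TabsF) : ∀ p ∈ fb_12, ∀ f ∈ p.2, FrameF repsF p.1 f :=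
  List.forall_mem_cons.2 ⟨cl_433 h,
  List.forall_mem_cons.2 ⟨cl_434 h,
  List.forall_mem_cons.2 ⟨cl_435 h,
  List.forall_mem_cons.2 ⟨cl_436 h,
  List.forall_mem_cons.2 ⟨cl_437 h,
  List.forall_mem_cons.2 ⟨cl_438 h,
  List.forall_mem_cons.2 ⟨cl_439 h,
  List.forall_mem_cons.2 ⟨cl_440 h,
  List.forall_mem_cons.2 ⟨cl_441 h,
  List.forall_mem_cons.2 ⟨cl_442 h,
  List.forall_mem_cons.2 ⟨cl_443 h,
  List.forall_mem_cons.2 ⟨cl_444 h,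
  List.forall_mem_cons.2 ⟨cl_445 h,
  List.forall_mem_cons.2 ⟨cl_446 h,
  List.forall_mem_cons.2 ⟨cl_447 h,
  List.forall_mem_cons.2 ⟨cl_448 h,
  List.forall_mem_cons.2 ⟨cl_449 h,
  List.forall_mem_cons.2 ⟨cl_450 h,
  List.forall_mem_cons.2 ⟨cl_451 h,
  List.forall_mem_cons.2 ⟨cl_452 h,
  fun _ h0 => absurd h0 List.not_mem_nil⟩⟩⟩⟩⟩⟩⟩⟩⟩⟩⟩⟩⟩⟩⟩⟩⟩⟩⟩⟩

/-- block 13 -/
theorem fbOK_13 (h : TabsF) : ∀ p ∈ fb_13, ∀ f ∈ p.2, FrameF repsF p.1 f :=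
  List.forall_mem_cons.2 ⟨cl_453 h,
  List.forall_mem_cons.2 ⟨cl_454 h,
  List.forall_mem_cons.2 ⟨cl_455 h,
  List.forall_mem_cons.2 ⟨cl_456 h,
  List.forall_mem_cons.2 ⟨cl_457 h,
  List.forall_mem_cons.2 ⟨cl_458 h,
  List.forall_mem_cons.2 ⟨cl_459 h,
  List.forall_mem_cons.2 ⟨cl_460 h,
  List.forall_mem_cons.2 ⟨cl_461 h,
  List.forall_mem_cons.2 ⟨cl_462 h,
  List.forall_mem_cons.2 ⟨cl_463 h,
  List.forall_mem_cons.2 ⟨cl_464 h,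
  List.forall_mem_cons.2 ⟨cl_465 h,
  fun _ h0 => absurd h0 List.not_mem_nil⟩⟩⟩⟩⟩⟩⟩⟩⟩⟩⟩⟩⟩

/-- all frames of all reduced classes -/
theorem frAll_ok (h : TabsF) : ∀ p ∈ frAll, ∀ f ∈ p.2, FrameF repsF p.1 f :=
  List.forall_mem_append.2 ⟨fbOK_0 h,
  List.forall_mem_append.2 ⟨fbOK_1 h,
  List.forall_mem_append.2 ⟨fbOK_2 h,
  List.forall_mem_append.2 ⟨fbOK_3 h,
  List.forall_mem_append.2 ⟨fbOK_4 h,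
  List.forall_mem_append.2 ⟨fbOK_5 h,
  List.forall_mem_append.2 ⟨fbOK_6 h,
  List.forall_mem_append.2 ⟨fbOK_7 h,
  List.forall_mem_append.2 ⟨fbOK_8 h,
  List.forall_mem_append.2 ⟨fbOK_9 h,
  List.forall_mem_append.2 ⟨fbOK_10 h,
  List.forall_mem_append.2 ⟨fbOK_11 h,
  List.forall_mem_append.2 ⟨fbOK_12 h,
  fbOK_13 h⟩⟩⟩⟩⟩⟩⟩⟩⟩⟩⟩⟩⟩

/-- the hypothesis `hF` of `Pool.Agent.Helper4.CV.no_cover` -/
theorem hF_all (hC : ClsOK 4 repsF) : ∀ j r, repsF[j]? = some r → redF j = true →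
    ∃ fr cs, rootOK2 r fr cs = true ∧ ∀ f ∈ fr, FrameF repsF j f := by
  intro j r hr hj
  obtain ⟨d, hd, h1, h2⟩ := covers_get dAll_covers (i := j) hr (by rw [Nat.zero_add]; exact hj)
  rw [Nat.zero_add] at h1
  refine ⟨d.2.2.1, d.2.2.2, ?_, fun f hf => ?_⟩
  · have h3 := dAll_ok d hd
    rw [h2] at h3
    exact h3
  · have h3 : (d.1, d.2.2.1) ∈ frAll := by
      rw [← dAll_map]
      exact List.mem_map_of_mem hd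
    have h4 := frAll_ok (tabsF_of hC) _ h3 f hf
    rw [← h1]
    exact h4

/-- **STAGE F** -/
theorem stF_all (hC : ClsOK 4 repsF) : StF := stF_of_frames hC (hF_all hC)

end Pool.Agent.Gen.TY.F
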