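import Pool.Agent.Helper20.TY.EngF
import Pool.Agent.Helper20.TY.TabG
import Pool.Agent.Gen.TY.FS.SufA
import Pool.Agent.Gen.TY.FS.SufB
import Pool.Agent.Gen.TY.FR.Dat

/-!
MP_8ee768_co, project TH-Y', stage F: frames.
-/

set_option autoImplicit false

namespace Pool.Agent.Gen.TY.F

open Pool.Agent.Helper79.CV
open Pool.Agent.Helper20.TY
open Pool.Agent.Helper20.TY.EngF
open Pool.Agent.Gen.TY.FS
open Pool.Agent.Gen.TY.FR

def F_1190 : FrX :=
  ⟨0x1c21020000040440000020410001010000820408882000080080400080004240205010009c000001200040908062000200100a081700200440002800000,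
    0x0, 0, 0x54637384, 4,
    [(0x0, 0), (0x205386a9, 4), (0x105487a9, 4), (0x214376a9, 4), (0x205386a9, 4), (0x105487a9, 4)],
    [(0x54637384, 4), (0x205374a9, 4), (0x106584a9, 4), (0x216387a9, 4), (0x205374a9, 4), (0x106584a9, 4)]⟩

def c_1190 : frmChk tA tA F_1190 = true := by decide +kernel

def r_1190_0 : chkL rootF engF2 tA tA sA_257 sA_257 4 F_1190 [(255, 0, 0), (256, 0, 8)]
    0x1 = true := by
  decide +kernel

def r_1190_1 : chkL rootF engF2 tA tA sA_257 sA_257 4 F_1190 [(256, 8, 1)]
    0x1 = true := by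
  decide +kernel

def r_1190_2 : chkL rootF engF2 tA tA sA_257 sA_257 4 F_1190 [(256, 9, 1)]
    0x1 = true := by
  decide +kernel

def r_1190_3 : chkL rootF engF2 tA tA sA_257 sA_257 4 F_1190 [(256, 10, 2)]
    0x1 = true := by
  decide +kernel

def r_1190_4 : chkL rootF engF2 tA tA sA_257 sA_257 4 F_1190 [(256, 12, 2)]
    0x1 = true := by
  decide +kernel

def r_1190_5 : chkL rootF engF2 tA tA sA_257 sA_257 4 F_1190 [(256, 14, 1)]
    0x1 = true := by
  decide +kernel

def r_1190_6 : chkL rootF engF2 tA tA sA_257 sA_257 4 F_1190 [(256, 15, 1)]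
    0x513 = true := by
  decide +kernel

def r_1190_7 : chkL rootF engF2 tA tA sA_257 sA_257 4 F_1190 [(256, 16, 1)]
    0x1 = true := by
  decide +kernel

def r_1190_8 : chkL rootF engF2 tA tA sA_257 sA_257 4 F_1190 [(256, 17, 2)]
    0x1 = true := by
  decide +kernel

def r_1190_9 : chkL rootF engF2 tA tA sA_257 sA_257 4 F_1190 [(256, 19, 1)]
    0x1 = true := by
  decide +kernel

def r_1190_10 : chkL rootF engF2 tA tA sA_257 sA_257 4 F_1190 [(256, 20, 2)]
    0x109c47 = true := by
  decide +kernel

def r_1190_11 : chkL rootF engF2 tA tA sA_257 sA_257 4 F_1190 [(256, 22, 5)]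
    0x1 = true := by
  decide +kernel

def r_1190_12 : chkL rootF engF2 tA tA sA_257 sA_257 4 F_1190 [(256, 27, 6)]
    0x4711c41e = true := by
  decide +kernel

def r_1190_13 : chkL rootF engF2 tA tA sA_257 sA_257 4 F_1190 [(256, 33, 2)]
    0x4561705613856158721c872158721c856499a2498711c4721c8561389a2687215896 = true := by
  decide +kernel

def r_1190_14 : chkL rootF engF2 tA tA sA_257 sA_257 4 F_1190 [(256, 35, 0)]
    0x1 = true := by
  decide +kernel

theorem f_1190 (h : TabsF) : FrameF repsF 257 F_1190.f :=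
  frame_of rfl c_1190 ((runs_of engOK r_1190_0).append ((runs_of engOK r_1190_1).append ((runs_of engOK r_1190_2).append ((runs_of engOK r_1190_3).append ((runs_of engOK r_1190_4).append ((runs_of engOK r_1190_5).append ((runs_of engOK r_1190_6).append ((runs_of engOK r_1190_7).append ((runs_of engOK r_1190_8).append ((runs_of engOK r_1190_9).append ((runs_of engOK r_1190_10).append ((runs_of engOK r_1190_11).append ((runs_of engOK r_1190_12).append ((runs_of engOK r_1190_13).append (runs_of engOK r_1190_14))))))))))))))) (by decide +kernel) h.1 h.1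

def F_1191 : FrX :=
  ⟨0x2002000900044004000e02041000141000800040810000018100804202002200140100102008004810800209000020046004208004600200401042001010,
    0xa3, 1, 0x215160728798a3, 7,
    [(0xa3, 1), (0x208693a5, 4), (0x10548793, 4), (0x217693a4, 4), (0x208693a5, 4), (0x10548793, 4)],
    [(0x215160728798a3, 7), (0x768294a0, 4), (0x31426580, 4), (0x314082a9, 4), (0x31426580, 4), (0x407592a8, 4), (0x317690a4, 4), (0x314082a9, 4), (0x317690a4, 4), (0x206584a9, 4), (0x314082a9, 4), (0x407592a8, 4)]⟩

def c_1191 : frmChk tA tB F_1191 = true := by decide +kernel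

def r_1191_0 : chkL rootF engF2 tA tB sA_257 sB_257 4 F_1191 [(511, 0, 0)]
    0x109d83074a92a44e1340f1a83c09c0f0d81d15447 = true := by
  decide +kernel

theorem f_1191 (h : TabsF) : FrameF repsF 257 F_1191.f :=
  frame_of rfl c_1191 (runs_of engOK r_1191_0) (by decide +kernel) h.1 h.2

def F_1192 : FrX :=
  ⟨0x80080a000804040e000021010020010000020408822000020900204000c008404001200240000401080080108021600100000a0444008805000a0220000,
    0xa6, 1, 0x3240768195a6, 6,
    [(0xa6, 1), (0x205396a8, 4), (0x10548796, 4), (0x214396a7, 4), (0x205396a8, 4), (0x10548796, 4)],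
    [(0x3240768195a6, 6), (0x437592a1, 4), (0x61758490, 4), (0x207583a6, 4), (0x437592a1, 4), (0x61758490, 4)]⟩

def c_1192 : frmChk tA tA F_1192 = true := by decide +kernel

def r_1192_0 : chkL rootF engF2 tA tA sA_257 sA_257 4 F_1192 [(511, 0, 0)]
    0x10741d0741d2341e0781d0741e11c1b06c1e = true := by
  decide +kernel

theorem f_1192 (h : TabsF) : FrameF repsF 257 F_1192.f :=
  frame_of rfl c_1192 (runs_of engOK r_1192_0) (by decide +kernel) h.1 h.1

def F_1193 : FrX :=
  ⟨0x482000044040440000c20400200090001820400200008820002000980240220204000001c100011200040100222000a00004a080300200002004800042,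
    0xa0, 1, 0x213153637498a5, 7,
    [(0xa0, 1), (0x538690a2, 4), (0x548790a1, 4), (0x21437690, 4), (0x538690a2, 4), (0x548790a1, 4)],
    [(0x213153637498a5, 7), (0x108295a6, 4), (0x308294a7, 4), (0x31547682, 4), (0x108295a6, 4), (0x308294a7, 4)]⟩

def c_1193 : frmChk tA tA F_1193 = true := by decide +kernel

def r_1193_0 : chkL rootF engF2 tA tA sA_257 sA_257 4 F_1193 [(511, 0, 0)]
    0x10781e09ccab0b410d80f498564c97070a89b1036 = true := by
  decide +kernel

theorem f_1193 (h : TabsF) : FrameF repsF 257 F_1193.f :=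
  frame_of rfl c_1193 (runs_of engOK r_1193_0) (by decide +kernel) h.1 h.1

def F_1194 : FrX :=
  ⟨0x2002000900044004000e02041000141000800040800401024038000010000241200202004082001310080002020400000281010041080408100100248040,
    0xa3, 1, 0x104150627398a3, 7,
    [(0xa3, 1), (0x208693a5, 4), (0x10548793, 4), (0x217693a4, 4), (0x208693a5, 4), (0x10548793, 4)],
    [(0x104150627398a3, 7), (0x658792a1, 4), (0x10548793, 4), (0x326487a0, 4), (0x658792a1, 4), (0x10548793, 4)]⟩

def c_1194 : frmChk tA tA F_1194 = true := by decide +kernel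

def r_1194_0 : chkL rootF engF2 tA tA sA_257 sA_257 4 F_1194 [(511, 0, 0)]
    0x10da3409e8a18c1e = true := by
  decide +kernel

theorem f_1194 (h : TabsF) : FrameF repsF 257 F_1194.f :=
  frame_of rfl c_1194 (runs_of engOK r_1194_0) (by decide +kernel) h.1 h.1

def F_1195 : FrX :=
  ⟨0x2002000900044004000e0204100014100080004081000001810100440a000c002201000008c8000812000409000420040001408001600200401042001010,
    0xa3, 1, 0x214152738594a5, 7,
    [(0xa3, 1), (0x208693a5, 4), (0x10548793, 4), (0x217693a4, 4), (0x208693a5, 4), (0x10548793, 4)],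
    [(0x214152738594a5, 7), (0x506182a7, 4), (0x314082a9, 4), (0x54638297, 4), (0x506182a7, 4), (0x314082a9, 4)]⟩

def c_1195 : frmChk tA tA F_1195 = true := by decide +kernel

def r_1195_0 : chkL rootF engF2 tA tA sA_257 sA_257 4 F_1195 [(255, 0, 0), (256, 0, 21)]
    0x11705a05c471341711c17 = true := by
  decide +kernel

def r_1195_1 : chkL rootF engF2 tA tA sA_257 sA_257 4 F_1195 [(256, 21, 0)]
    0x46505c631344e11caa18c4709c3c06c4703c17 = true := by
  decide +kernel

theorem f_1195 (h : TabsF) : FrameF repsF 257 F_1195.f :=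
  frame_of rfl c_1195 ((runs_of engOK r_1195_0).append (runs_of engOK r_1195_1)) (by decide +kernel) h.1 h.1

def F_1196 : FrX :=
  ⟨0x482000044040440000c2040020009000182040000a00048004080100180088200010110020080000880440880010000308001210040504104004008404,
    0xa0, 1, 0x215162718691a2, 7,
    [(0xa0, 1), (0x538690a2, 4), (0x548790a1, 4), (0x21437690, 4), (0x538690a2, 4), (0x548790a1, 4)],
    [(0x215162718691a2, 7), (0x415283a0, 4), (0x42768590, 4), (0x31527684, 4), (0x42768590, 4), (0x215384a9, 4), (0x437681a0, 4), (0x31527684, 4), (0x437681a0, 4), (0x31548290, 4), (0x31527684, 4), (0x215384a9, 4)]⟩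

def c_1196 : frmChk tA tB F_1196 = true := by decide +kernel

def r_1196_0 : chkL rootF engF2 tA tB sA_257 sB_257 4 F_1196 [(511, 0, 0)]
    0x105c1e1341d254172544b25817 = true := by
  decide +kernel

theorem f_1196 (h : TabsF) : FrameF repsF 257 F_1196.f :=
  frame_of rfl c_1196 (runs_of engOK r_1196_0) (by decide +kernel) h.1 h.2

def F_1197 : FrX :=
  ⟨0x2002000900044004000e02041000141000800040800800482080a04000812001000002210103010404020101000010002100080884040008802040212020,
    0xa3, 1, 0x3241536280a4, 6,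
    [(0xa3, 1), (0x208693a5, 4), (0x10548793, 4), (0x217693a4, 4), (0x208693a5, 4), (0x10548793, 4)],
    [(0x3241536280a4, 6), (0x537286a0, 4), (0x738491a2, 4), (0x507291a3, 4), (0x738491a2, 4), (0x206475a3, 4), (0x308691a5, 4), (0x507291a3, 4), (0x308691a5, 4), (0x325084a7, 4), (0x507291a3, 4), (0x206475a3, 4)]⟩

def c_1197 : frmChk tA tB F_1197 = true := by decide +kernel

def r_1197_0 : chkL rootF engF2 tA tB sA_257 sB_257 4 F_1197 [(511, 0, 0)]
    0x4330781b06c2e22c6391833 = true := by
  decide +kernel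

theorem f_1197 (h : TabsF) : FrameF repsF 257 F_1197.f :=
  frame_of rfl c_1197 (runs_of engOK r_1197_0) (by decide +kernel) h.1 h.2

def F_1198 : FrX :=
  ⟨0x482000044040440000c204002000900018204001002002800100018008010840402100080404102300003060000844001400800044010000c200800048,
    0xa0, 1, 0x20405262748798a0, 8,
    [(0xa0, 1), (0x538690a2, 4), (0x548790a1, 4), (0x21437690, 4), (0x538690a2, 4), (0x548790a1, 4)],
    [(0x20405262748798a0, 8), (0x304295a6, 4), (0x427098a1, 4), (0x42617385, 4), (0x304295a6, 4), (0x427098a1, 4)]⟩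

def c_1198 : frmChk tA tA F_1198 = true := by decide +kernel

def r_1198_0 : chkL rootF engF2 tA tA sA_257 sA_257 4 F_1198 [(255, 0, 0), (256, 0, 23)]
    0x40f8980f = true := by
  decide +kernel

def r_1198_1 : chkL rootF engF2 tA tA sA_257 sA_257 4 F_1198 [(256, 23, 0)]
    0x10cc1e0786903c0f06c1e = true := by
  decide +kernel

theorem f_1198 (h : TabsF) : FrameF repsF 257 F_1198.f :=
  frame_of rfl c_1198 ((runs_of engOK r_1198_0).append (runs_of engOK r_1198_1)) (by decide +kernel) h.1 h.1

def F_1199 : FrX :=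
  ⟨0x80080a000804040e0000210100200100000204089002000140801080881000400408101000305100002800100410200101400200400010a900100440020,
    0xa6, 1, 0x3051647298a6, 6,
    [(0xa6, 1), (0x205396a8, 4), (0x10548796, 4), (0x214396a7, 4), (0x205396a8, 4), (0x10548796, 4)],
    [(0x3051647298a6, 6), (0x107384a9, 4), (0x53618492, 4), (0x607584a2, 4), (0x107384a9, 4), (0x53618492, 4)]⟩

def c_1199 : frmChk tA tA F_1199 = true := by decide +kernel

def r_1199_0 : chkL rootF engF2 tA tA sA_257 sA_257 4 F_1199 [(511, 0, 0)]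
    0x10d83c63185 = true := by
  decide +kernel

theorem f_1199 (h : TabsF) : FrameF repsF 257 F_1199.f :=
  frame_of rfl c_1199 (runs_of engOK r_1199_0) (by decide +kernel) h.1 h.1

def F_1200 : FrX :=
  ⟨0x80080a000804040e00002101002001000002040880481000104400400410000005084820004040023050000212000440201108001004408004025000002,
    0xa6, 1, 0x4352658193a6, 6,
    [(0xa6, 1), (0x205396a8, 4), (0x10548796, 4), (0x214396a7, 4), (0x205396a8, 4), (0x10548796, 4)],
    [(0x4352658193a6, 6), (0x425096a1, 4), (0x42637180, 4), (0x428593a7, 4), (0x425096a1, 4), (0x42637180, 4)]⟩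

def c_1200 : frmChk tA tA F_1200 = true := by decide +kernel

def r_1200_0 : chkL rootF engF2 tA tA sA_257 sA_257 4 F_1200 [(255, 0, 0), (256, 0, 23)]
    0x128c5324c2d = true := by
  decide +kernel

def r_1200_1 : chkL rootF engF2 tA tA sA_257 sA_257 4 F_1200 [(256, 23, 0)]
    0x1a842e1643348c559505a = true := by
  decide +kernel

theorem f_1200 (h : TabsF) : FrameF repsF 257 F_1200.f :=
  frame_of rfl c_1200 ((runs_of engOK r_1200_0).append (runs_of engOK r_1200_1)) (by decide +kernel) h.1 h.1

def F_1201 : FrX :=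
  ⟨0x482000044040440000c2040020009000182040008020408001201080080108008040400880041010000020601008440010008208480080014208800048,
    0xa0, 1, 0x5263748192a1, 6,
    [(0xa0, 1), (0x538690a2, 4), (0x548790a1, 4), (0x21437690, 4), (0x538690a2, 4), (0x548790a1, 4)],
    [(0x5263748192a1, 6), (0x42637190, 4), (0x437285a0, 4), (0x42617385, 4), (0x437285a0, 4), (0x216473a9, 4), (0x31768590, 4), (0x42617385, 4), (0x31768590, 4), (0x326174a0, 4), (0x42617385, 4), (0x216473a9, 4)]⟩

def c_1201 : frmChk tA tB F_1201 = true := by decide +kernel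

def r_1201_0 : chkL rootF engF2 tA tB sA_257 sB_257 4 F_1201 [(511, 0, 0)]
    0x109c1b = true := by
  decide +kernel

theorem f_1201 (h : TabsF) : FrameF repsF 257 F_1201.f :=
  frame_of rfl c_1201 (runs_of engOK r_1201_0) (by decide +kernel) h.1 h.2

def F_1202 : FrX :=
  ⟨0x1001040012008080000e00840800410008101000040500004420002800000884806000102100202040020208444000802014002020404400500100040042,
    0xa3, 1, 0x32415061758298a6, 8,
    [(0xa3, 1), (0x207584a6, 4), (0x10547693, 4), (0x647593a8, 4), (0x10547693, 4), (0x216485a7, 4), (0x208693a4, 4), (0x647593a8, 4), (0x208693a4, 4), (0x106574a8, 4), (0x647593a8, 4), (0x216485a7, 4)],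
    [(0x32415061758298a6, 8), (0x437285a9, 4), (0x43657190, 4), (0x214386a0, 4), (0x437285a9, 4), (0x43657190, 4)]⟩

def c_1202 : frmChk tB tA F_1202 = true := by decide +kernel

def r_1202_0 : chkL rootF engF2 tB tA sB_257 sA_257 4 F_1202 [(255, 0, 0), (256, 0, 19)]
    0x106c1e = true := by
  decide +kernel

def r_1202_1 : chkL rootF engF2 tB tA sB_257 sA_257 4 F_1202 [(256, 19, 0)]
    0x5264381b0e439074362c435 = true := by
  decide +kernel

theorem f_1202 (h : TabsF) : FrameF repsF 257 F_1202.f :=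
  frame_of rfl c_1202 ((runs_of engOK r_1202_0).append (runs_of engOK r_1202_1)) (by decide +kernel) h.2 h.1

def F_1203 : FrX :=
  ⟨0x1001040012008080000e00840800410008101000050020228001010022000800440200060200048040024040401000420010800404004440404100808048,
    0xa3, 1, 0x2030406180a1, 6,
    [(0xa3, 1), (0x207584a6, 4), (0x10547693, 4), (0x647593a8, 4), (0x10547693, 4), (0x216485a7, 4), (0x208693a4, 4), (0x647593a8, 4), (0x208693a4, 4), (0x106574a8, 4), (0x647593a8, 4), (0x216485a7, 4)],
    [(0x2030406180a1, 6), (0x41528096, 4), (0x537496a8, 4), (0x327196a0, 4), (0x41528096, 4), (0x537496a8, 4)]⟩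

def c_1203 : frmChk tB tA F_1203 = true := by decide +kernel

def r_1203_0 : chkL rootF engF2 tB tA sB_257 sA_257 4 F_1203 [(511, 0, 0)]
    0x1269450cc1703c1705c2e12c0f0783a = true := by
  decide +kernel

theorem f_1203 (h : TabsF) : FrameF repsF 257 F_1203.f :=
  frame_of rfl c_1203 (runs_of engOK r_1203_0) (by decide +kernel) h.2 h.1

def F_1204 : FrX :=
  ⟨0x1001040012008080000e00840800410008101000040900008081102100102010010200082020242040020440440008800048000880404000444002022002,
    0xa3, 1, 0x4352708691a6, 6,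
    [(0xa3, 1), (0x207584a6, 4), (0x10547693, 4), (0x647593a8, 4), (0x10547693, 4), (0x216485a7, 4), (0x208693a4, 4), (0x647593a8, 4), (0x208693a4, 4), (0x106574a8, 4), (0x647593a8, 4), (0x216485a7, 4)],
    [(0x4352708691a6, 6), (0x206375a4, 4), (0x328197a0, 4), (0x206481a3, 4), (0x328197a0, 4), (0x406295a3, 4), (0x437581a6, 4), (0x206481a3, 4), (0x437581a6, 4), (0x306497a2, 4), (0x206481a3, 4), (0x406295a3, 4)]⟩

def c_1204 : frmChk tB tB F_1204 = true := by decide +kernel

def r_1204_0 : chkL rootF engF2 tB tB sB_257 sB_257 4 F_1204 [(511, 0, 0)]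
    0x1074271a83606c2d03c4e0cc0f660330cca3 = true := by
  decide +kernel

theorem f_1204 (h : TabsF) : FrameF repsF 257 F_1204.f :=
  frame_of rfl c_1204 (runs_of engOK r_1204_0) (by decide +kernel) h.2 h.2

def F_1205 : FrX :=
  ⟨0x482000044040440000c2040020009000182040000420228001200080080108010020434000010001100440600000008080090140090082022110000009,
    0xa0, 1, 0x1032607382a1, 6,
    [(0xa0, 1), (0x538690a2, 4), (0x548790a1, 4), (0x21437690, 4), (0x538690a2, 4), (0x548790a1, 4)],
    [(0x1032607382a1, 6), (0x31758690, 4), (0x325490a6, 4), (0x217490a8, 4), (0x31758690, 4), (0x325490a6, 4)]⟩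

def c_1205 : frmChk tA tA F_1205 = true := by decide +kernel

def r_1205_0 : chkL rootF engF2 tA tA sA_257 sA_257 4 F_1205 [(255, 0, 0), (256, 0, 23)]
    0x4170b41b05c170e81b0781705c1b0ac390e41b05c55 = true := by
  decide +kernel

def r_1205_1 : chkL rootF engF2 tA tA sA_257 sA_257 4 F_1205 [(256, 23, 0)]
    0x41e078330b42d05c2b14c2d = true := by
  decide +kernel

theorem f_1205 (h : TabsF) : FrameF repsF 257 F_1205.f :=
  frame_of rfl c_1205 ((runs_of engOK r_1205_0).append (runs_of engOK r_1205_1)) (by decide +kernel) h.1 h.1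

theorem cl_257 (h : TabsF) : ∀ f ∈ fr_257, FrameF repsF 257 f :=
  List.forall_mem_cons.2 ⟨f_1190 h, List.forall_mem_cons.2 ⟨f_1191 h, List.forall_mem_cons.2 ⟨f_1192 h, List.forall_mem_cons.2 ⟨f_1193 h, List.forall_mem_cons.2 ⟨f_1194 h, List.forall_mem_cons.2 ⟨f_1195 h, List.forall_mem_cons.2 ⟨f_1196 h, List.forall_mem_cons.2 ⟨f_1197 h, List.forall_mem_cons.2 ⟨f_1198 h, List.forall_mem_cons.2 ⟨f_1199 h, List.forall_mem_cons.2 ⟨f_1200 h, List.forall_mem_cons.2 ⟨f_1201 h, List.forall_mem_cons.2 ⟨f_1202 h, List.forall_mem_cons.2 ⟨f_1203 h, List.forall_mem_cons.2 ⟨f_1204 h, List.forall_mem_cons.2 ⟨f_1205 h,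
    fun _ h0 => absurd h0 List.not_mem_nil⟩⟩⟩⟩⟩⟩⟩⟩⟩⟩⟩⟩⟩⟩⟩⟩

def F_1206 : FrX :=
  ⟨0x1001040012008080000e008408004100081010000441000004a00020200008848060080021000042c0801400044030002000086010000400508100040048,
    0xa3, 1, 0x1041516095a3, 6,
    [(0xa3, 1), (0x207584a6, 4), (0x10547693, 4), (0x647593a8, 4), (0x10547693, 4), (0x216485a7, 4), (0x208693a4, 4), (0x647593a8, 4), (0x208693a4, 4), (0x106574a8, 4), (0x647593a8, 4), (0x216485a7, 4)],
    [(0x1041516095a3, 6), (0x628097a1, 4), (0x43657190, 4), (0x104397a8, 4), (0x43657190, 4), (0x105298a7, 4), (0x436281a0, 4), (0x104397a8, 4), (0x436281a0, 4), (0x657091a8, 4), (0x104397a8, 4), (0x105298a7, 4)]⟩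

def c_1206 : frmChk tB tB F_1206 = true := by decide +kernel

def r_1206_0 : chkL rootF engF2 tB tB sB_258 sB_258 4 F_1206 [(255, 0, 0), (256, 0, 20)]
    0x417b401e0781705c36 = true := by
  decide +kernel

def r_1206_1 : chkL rootF engF2 tB tB sB_258 sB_258 4 F_1206 [(256, 20, 0)]
    0x112c4b07855 = true := by
  decide +kernel

theorem f_1206 (h : TabsF) : FrameF repsF 258 F_1206.f :=
  frame_of rfl c_1206 ((runs_of engOK r_1206_0).append (runs_of engOK r_1206_1)) (by decide +kernel) h.2 h.2

def F_1207 : FrX :=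
  ⟨0x1001040012008080000e00840800410008101000040420028001110000180010010200890204042040020048401008020040200c05004000444003002000,
    0xa3, 1, 0x415061728098a6, 7,
    [(0xa3, 1), (0x207584a6, 4), (0x10547693, 4), (0x647593a8, 4), (0x10547693, 4), (0x216485a7, 4), (0x208693a4, 4), (0x647593a8, 4), (0x208693a4, 4), (0x106574a8, 4), (0x647593a8, 4), (0x216485a7, 4)],
    [(0x415061728098a6, 7), (0x305487a9, 4), (0x10548692, 4), (0x315476a2, 4), (0x305487a9, 4), (0x10548692, 4)]⟩

def c_1207 : frmChk tB tA F_1207 = true := by decide +kernel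

def r_1207_0 : chkL rootF engF2 tB tA sB_258 sA_258 4 F_1207 [(255, 0, 0), (256, 0, 21)]
    0x106c4b = true := by
  decide +kernel

def r_1207_1 : chkL rootF engF2 tB tA sB_258 sA_258 4 F_1207 [(256, 21, 20)]
    0x49c8680f198530f01b1985309c9523691 = true := by
  decide +kernel

def r_1207_2 : chkL rootF engF2 tB tA sB_258 sA_258 4 F_1207 [(256, 41, 0)]
    0x1 = true := by
  decide +kernel

theorem f_1207 (h : TabsF) : FrameF repsF 258 F_1207.f :=
  frame_of rfl c_1207 ((runs_of engOK r_1207_0).append ((runs_of engOK r_1207_1).append (runs_of engOK r_1207_2))) (by decide +kernel) h.2 h.1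

def F_1208 : FrX :=
  ⟨0x1001040012008080000e0084080041000810100004e0100000a0000004020802422000202022000808010010208430002000808c080000c0022004801040,
    0xa3, 1, 0x3142506576a8, 6,
    [(0xa3, 1), (0x207584a6, 4), (0x10547693, 4), (0x647593a8, 4), (0x10547693, 4), (0x216485a7, 4), (0x208693a4, 4), (0x647593a8, 4), (0x208693a4, 4), (0x106574a8, 4), (0x647593a8, 4), (0x216485a7, 4)],
    [(0x3142506576a8, 6), (0x546071a2, 4), (0x53627098, 4), (0x607298a1, 4), (0x53627098, 4), (0x104372a6, 4), (0x215498a7, 4), (0x607298a1, 4), (0x215498a7, 4), (0x205376a1, 4), (0x607298a1, 4), (0x104372a6, 4)]⟩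

def c_1208 : frmChk tB tB F_1208 = true := by decide +kernel

def r_1208_0 : chkL rootF engF2 tB tB sB_258 sB_258 4 F_1208 [(511, 0, 0)]
    0x10cc780ce1905c1e0ced003c4b1c8170cc170b41d1598c0b41d1398c0f0330cc170ba54139a818c1b = true := by
  decide +kernel

theorem f_1208 (h : TabsF) : FrameF repsF 258 F_1208.f :=
  frame_of rfl c_1208 (runs_of engOK r_1208_0) (by decide +kernel) h.2 h.2

def F_1209 : FrX :=
  ⟨0x1001040012008080000e008408004100081010000404200280011100001800100102008a0280040040024048401000420010000405104000444013002000,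
    0xa3, 1, 0x415061728098a6, 7,
    [(0xa3, 1), (0x207584a6, 4), (0x10547693, 4), (0x647593a8, 4), (0x10547693, 4), (0x216485a7, 4), (0x208693a4, 4), (0x647593a8, 4), (0x208693a4, 4), (0x106574a8, 4), (0x647593a8, 4), (0x216485a7, 4)],
    [(0x415061728098a6, 7), (0x305487a9, 4), (0x10548692, 4), (0x315476a2, 4), (0x305487a9, 4), (0x10548692, 4)]⟩

def c_1209 : frmChk tB tA F_1209 = true := by decide +kernel

def r_1209_0 : chkL rootF engF2 tB tA sB_258 sA_258 4 F_1209 [(255, 0, 0), (256, 0, 21)]
    0x41b = true := by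
  decide +kernel

def r_1209_1 : chkL rootF engF2 tB tA sB_258 sA_258 4 F_1209 [(256, 21, 20)]
    0x40f03c1e06c1e09ce4986e0 = true := by
  decide +kernel

def r_1209_2 : chkL rootF engF2 tB tA sB_258 sA_258 4 F_1209 [(256, 41, 0)]
    0x1 = true := by
  decide +kernel

theorem f_1209 (h : TabsF) : FrameF repsF 258 F_1209.f :=
  frame_of rfl c_1209 ((runs_of engOK r_1209_0).append ((runs_of engOK r_1209_1).append (runs_of engOK r_1209_2))) (by decide +kernel) h.2 h.1

def F_1210 : FrX :=
  ⟨0x600020801080810000c004018041010100100401010000280000144020404402041000200a82010021001002083800020008840000000c020021081001,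
    0xa0, 1, 0x4260768095a7, 6,
    [(0xa0, 1), (0x637584a2, 4), (0x547690a1, 4), (0x64758390, 4), (0x547690a1, 4), (0x21647385, 4), (0x438690a2, 4), (0x64758390, 4), (0x438690a2, 4), (0x657483a1, 4), (0x64758390, 4), (0x21647385, 4)],
    [(0x4260768095a7, 6), (0x50768493, 4), (0x508192a6, 4), (0x324150a7, 4), (0x50768493, 4), (0x508192a6, 4)]⟩

def c_1210 : frmChk tB tA F_1210 = true := by decide +kernel

def r_1210_0 : chkL rootF engF2 tB tA sB_258 sA_258 4 F_1210 [(511, 0, 0)]
    0x417588711c531cc01d0ac55 = true := by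
  decide +kernel

theorem f_1210 (h : TabsF) : FrameF repsF 258 F_1210.f :=
  frame_of rfl c_1210 (runs_of engOK r_1210_0) (by decide +kernel) h.2 h.1

def F_1211 : FrX :=
  ⟨0x600020801080810000c0040180410101001004010100002800010540204044020010002000220100210012820838000200080c2000000c020021080001,
    0xa0, 1, 0x103050647598a6, 7,
    [(0xa0, 1), (0x637584a2, 4), (0x547690a1, 4), (0x64758390, 4), (0x547690a1, 4), (0x21647385, 4), (0x438690a2, 4), (0x64758390, 4), (0x438690a2, 4), (0x657483a1, 4), (0x64758390, 4), (0x21647385, 4)],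
    [(0x103050647598a6, 7), (0x527184a9, 4), (0x50768493, 4), (0x206184a3, 4), (0x527184a9, 4), (0x50768493, 4)]⟩

def c_1211 : frmChk tB tA F_1211 = true := by decide +kernel

def r_1211_0 : chkL rootF engF2 tB tA sB_258 sA_258 4 F_1211 [(255, 0, 0), (256, 0, 19)]
    0x4330b4360781d07827 = true := by
  decide +kernel

def r_1211_1 : chkL rootF engF2 tB tA sB_258 sA_258 4 F_1211 [(256, 19, 22)]
    0x439 = true := by
  decide +kernel

def r_1211_2 : chkL rootF engF2 tB tA sB_258 sA_258 4 F_1211 [(256, 41, 0)]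
    0x1 = true := by
  decide +kernel

theorem f_1211 (h : TabsF) : FrameF repsF 258 F_1211.f :=
  frame_of rfl c_1211 ((runs_of engOK r_1211_0).append ((runs_of engOK r_1211_1).append (runs_of engOK r_1211_2))) (by decide +kernel) h.2 h.1

def F_1212 : FrX :=
  ⟨0x600020801080810000c0040180410101001004010020012200004804180202080000800800440240010980040038000800088800000000508040211041,
    0xa0, 1, 0x2131527583a0, 6,
    [(0xa0, 1), (0x637584a2, 4), (0x547690a1, 4), (0x64758390, 4), (0x547690a1, 4), (0x21647385, 4), (0x438690a2, 4), (0x64758390, 4), (0x438690a2, 4), (0x657483a1, 4), (0x64758390, 4), (0x21647385, 4)],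
    [(0x2131527583a0, 6), (0x427186a5, 4), (0x617490a3, 4), (0x64718290, 4), (0x617490a3, 4), (0x53647281, 4), (0x628490a5, 4), (0x64718290, 4), (0x628490a5, 4), (0x417682a3, 4), (0x64718290, 4), (0x53647281, 4)]⟩

def c_1212 : frmChk tB tB F_1212 = true := by decide +kernel

def r_1212_0 : chkL rootF engF2 tB tB sB_258 sB_258 4 F_1212 [(511, 0, 0)]
    0x11a4331341705c1d1a417 = true := by
  decide +kernel

theorem f_1212 (h : TabsF) : FrameF repsF 258 F_1212.f :=
  frame_of rfl c_1212 (runs_of engOK r_1212_0) (by decide +kernel) h.2 h.2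

def F_1213 : FrX :=
  ⟨0x600020801080810000c0040180410101001004020000448001101402000c000088000800802210d0041000000a01240100001000400800220019081080,
    0xa0, 1, 0x324065728092a0, 7,
    [(0xa0, 1), (0x637584a2, 4), (0x547690a1, 4), (0x64758390, 4), (0x547690a1, 4), (0x21647385, 4), (0x438690a2, 4), (0x64758390, 4), (0x438690a2, 4), (0x657483a1, 4), (0x64758390, 4), (0x21647385, 4)],
    [(0x324065728092a0, 7), (0x546287a9, 4), (0x436087a1, 4), (0x20538791, 4), (0x546287a9, 4), (0x436087a1, 4)]⟩

def c_1213 : frmChk tB tA F_1213 = true := by decide +kernel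

def r_1213_0 : chkL rootF engF2 tB tA sB_258 sA_258 4 F_1213 [(511, 0, 0)]
    0x103cb205cb232463 = true := by
  decide +kernel

theorem f_1213 (h : TabsF) : FrameF repsF 258 F_1213.f :=
  frame_of rfl c_1213 (runs_of engOK r_1213_0) (by decide +kernel) h.2 h.1

def F_1214 : FrX :=
  ⟨0x600020801080810000c004018041010100100400110200040004180080202410080012000022000488200a028000802484040400024004000080440042,
    0xa0, 1, 0x10204052628690a2, 8,
    [(0xa0, 1), (0x637584a2, 4), (0x547690a1, 4), (0x64758390, 4), (0x547690a1, 4), (0x21647385, 4), (0x438690a2, 4), (0x64758390, 4), (0x438690a2, 4), (0x657483a1, 4), (0x64758390, 4), (0x21647385, 4)],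
    [(0x10204052628690a2, 8), (0x527183a9, 4), (0x21648790, 4), (0x53647182, 4), (0x21648790, 4), (0x517382a0, 4), (0x326485a9, 4), (0x53647182, 4), (0x326485a9, 4), (0x53728190, 4), (0x53647182, 4), (0x517382a0, 4)]⟩

def c_1214 : frmChk tB tB F_1214 = true := by decide +kernel

def r_1214_0 : chkL rootF engF2 tB tB sB_258 sB_258 4 F_1214 [(511, 0, 0)]
    0x10b59289a3411c4d03c0f03c2d06c2d0f2310740f0d83918c631e05a0e43606c63 = true := by
  decide +kernel

theorem f_1214 (h : TabsF) : FrameF repsF 258 F_1214.f :=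
  frame_of rfl c_1214 (runs_of engOK r_1214_0) (by decide +kernel) h.2 h.2

def F_1215 : FrX :=
  ⟨0x1001040012008080000e0084080041000810100004200810010140010102000004809802a00000401400128020080040000420820210008a022408000004,
    0xa3, 1, 0x213165738698a0, 7,
    [(0xa3, 1), (0x207584a6, 4), (0x10547693, 4), (0x647593a8, 4), (0x10547693, 4), (0x216485a7, 4), (0x208693a4, 4), (0x647593a8, 4), (0x208693a4, 4), (0x106574a8, 4), (0x647593a8, 4), (0x216485a7, 4)],
    [(0x213165738698a0, 7), (0x507698a1, 4), (0x506492a3, 4), (0x31507482, 4), (0x507698a1, 4), (0x506492a3, 4)]⟩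

def c_1215 : frmChk tB tA F_1215 = true := by decide +kernel

def r_1215_0 : chkL rootF engF2 tB tA sB_258 sA_258 4 F_1215 [(511, 0, 0)]
    0x41d0748b0ce16a488b11cd20784e1c45a05ca31a435 = true := by
  decide +kernel

theorem f_1215 (h : TabsF) : FrameF repsF 258 F_1215.f :=
  frame_of rfl c_1215 (runs_of engOK r_1215_0) (by decide +kernel) h.2 h.1

def F_1216 : FrX :=
  ⟨0x600020801080810000c0040180410101001004000600014400104200080422008002010048880000184100800001022100100101104000440001011102,
    0xa0, 1, 0x4352637381a0, 6,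
    [(0xa0, 1), (0x637584a2, 4), (0x547690a1, 4), (0x64758390, 4), (0x547690a1, 4), (0x21647385, 4), (0x438690a2, 4), (0x64758390, 4), (0x438690a2, 4), (0x657483a1, 4), (0x64758390, 4), (0x21647385, 4)],
    [(0x4352637381a0, 6), (0x417290a5, 4), (0x326190a8, 4), (0x64738590, 4), (0x417290a5, 4), (0x326190a8, 4)]⟩

def c_1216 : frmChk tB tA F_1216 = true := by decide +kernel

def r_1216_0 : chkL rootF engF2 tB tA sB_258 sA_258 4 F_1216 [(511, 0, 0)]
    0x106c1d0b4270ad850cc1b09c1b0ac0f0742d03c3c2341d0e82d = true := by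
  decide +kernel

theorem f_1216 (h : TabsF) : FrameF repsF 258 F_1216.f :=
  frame_of rfl c_1216 (runs_of engOK r_1216_0) (by decide +kernel) h.2 h.1

def F_1217 : FrX :=
  ⟨0x1001040012008080000e0084080041000810100005000a040408002022000080086000801000808440010140011008200014020006004108101008402080,
    0xa3, 1, 0x213142607581a0, 7,
    [(0xa3, 1), (0x207584a6, 4), (0x10547693, 4), (0x647593a8, 4), (0x10547693, 4), (0x216485a7, 4), (0x208693a4, 4), (0x647593a8, 4), (0x208693a4, 4), (0x106574a8, 4), (0x647593a8, 4), (0x216485a7, 4)],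
    [(0x213142607581a0, 7), (0x307296a4, 4), (0x537196a8, 4), (0x21508496, 4), (0x307296a4, 4), (0x537196a8, 4)]⟩

def c_1217 : frmChk tB tA F_1217 = true := by decide +kernel

def r_1217_0 : chkL rootF engF2 tB tA sB_258 sA_258 4 F_1217 [(255, 0, 0), (256, 0, 22)]
    0x41d09c1b13439138398a63809c560f08d324d8b401d158c60741e07417 = true := by
  decide +kernel

def r_1217_1 : chkL rootF engF2 tB tA sB_258 sA_258 4 F_1217 [(256, 22, 0)]
    0x42b18cb8360396198c18c1703d866304e0741b05c530740f = true := by
  decide +kernel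

theorem f_1217 (h : TabsF) : FrameF repsF 258 F_1217.f :=
  frame_of rfl c_1217 ((runs_of engOK r_1217_0).append (runs_of engOK r_1217_1)) (by decide +kernel) h.2 h.1

def F_1218 : FrX :=
  ⟨0x1001040012008080000e00840800410008101000040601100101400800020800404100120000440240044100014000804008080c04030000021100444400,
    0xa3, 1, 0x10304351617285a1, 8,
    [(0xa3, 1), (0x207584a6, 4), (0x10547693, 4), (0x647593a8, 4), (0x10547693, 4), (0x216485a7, 4), (0x208693a4, 4), (0x647593a8, 4), (0x208693a4, 4), (0x106574a8, 4), (0x647593a8, 4), (0x216485a7, 4)],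
    [(0x10304351617285a1, 8), (0x10547382, 4), (0x528196a3, 4), (0x40518296, 4), (0x528196a3, 4), (0x425180a7, 4), (0x41507396, 4), (0x40518296, 4), (0x41507396, 4), (0x214085a3, 4), (0x40518296, 4), (0x425180a7, 4)]⟩

def c_1218 : frmChk tB tB F_1218 = true := by decide +kernel

def r_1218_0 : chkL rootF engF2 tB tB sB_258 sB_258 4 F_1218 [(255, 0, 0), (256, 0, 21)]
    0x41b09c1b19836 = true := by
  decide +kernel

def r_1218_1 : chkL rootF engF2 tB tB sB_258 sB_258 4 F_1218 [(256, 21, 0)]
    0x42706c1b06d250744d = true := by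
  decide +kernel

theorem f_1218 (h : TabsF) : FrameF repsF 258 F_1218.f :=
  frame_of rfl c_1218 ((runs_of engOK r_1218_0).append (runs_of engOK r_1218_1)) (by decide +kernel) h.2 h.2

def F_1219 : FrX :=
  ⟨0x482000044040440000c2040020009000182040002132000000880200004008004440101024000200800050888020c0000800010a008406000904000804,
    0xa0, 1, 0x30435063a7, 5,
    [(0xa0, 1), (0x538690a2, 4), (0x548790a1, 4), (0x21437690, 4), (0x538690a2, 4), (0x548790a1, 4)],
    [(0x30435063a7, 5), (0x526480a3, 4), (0x305197a4, 4), (0x408697a3, 4), (0x305197a4, 4), (0x214083a6, 4), (0x52608497, 4), (0x408697a3, 4), (0x52608497, 4), (0x435186a0, 4), (0x408697a3, 4), (0x214083a6, 4)]⟩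

def c_1219 : frmChk tA tB F_1219 = true := by decide +kernel

def r_1219_0 : chkL rootF engF2 tA tB sA_258 sB_258 4 F_1219 [(511, 0, 0)]
    0x105c170741e14c0f = true := by
  decide +kernel

theorem f_1219 (h : TabsF) : FrameF repsF 258 F_1219.f :=
  frame_of rfl c_1219 (runs_of engOK r_1219_0) (by decide +kernel) h.1 h.2

def F_1220 : FrX :=
  ⟨0x1c2102000004044000002041000101000082040888200008008080004000242020601000820098020820440880008100088010060200201100004080041,
    0x0, 0, 0x107583, 3,
    [(0x0, 0), (0x205386a9, 4), (0x105487a9, 4), (0x214376a9, 4), (0x205386a9, 4), (0x105487a9, 4)],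
    [(0x107583, 3), (0x216387a9, 4), (0x105374a9, 4), (0x206584a9, 4), (0x216387a9, 4), (0x105374a9, 4)]⟩

def c_1220 : frmChk tA tA F_1220 = true := by decide +kernel

def r_1220_0 : chkL rootF engF2 tA tA sA_258 sA_258 4 F_1220 [(255, 0, 0), (256, 0, 10)]
    0x1 = true := by
  decide +kernel

def r_1220_1 : chkL rootF engF2 tA tA sA_258 sA_258 4 F_1220 [(256, 10, 5)]
    0x105c2726529 = true := by
  decide +kernel

def r_1220_2 : chkL rootF engF2 tA tA sA_258 sA_258 4 F_1220 [(256, 15, 4)]
    0x1 = true := by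
  decide +kernel

def r_1220_3 : chkL rootF engF2 tA tA sA_258 sA_258 4 F_1220 [(256, 19, 4)]
    0x1 = true := by
  decide +kernel

def r_1220_4 : chkL rootF engF2 tA tA sA_258 sA_258 4 F_1220 [(256, 23, 5)]
    0x49a = true := by
  decide +kernel

def r_1220_5 : chkL rootF engF2 tA tA sA_258 sA_258 4 F_1220 [(256, 28, 7)]
    0x447 = true := by
  decide +kernel

def r_1220_6 : chkL rootF engF2 tA tA sA_258 sA_258 4 F_1220 [(256, 35, 0)]
    0x123989 = true := by
  decide +kernel

theorem f_1220 (h : TabsF) : FrameF repsF 258 F_1220.f :=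
  frame_of rfl c_1220 ((runs_of engOK r_1220_0).append ((runs_of engOK r_1220_1).append ((runs_of engOK r_1220_2).append ((runs_of engOK r_1220_3).append ((runs_of engOK r_1220_4).append ((runs_of engOK r_1220_5).append (runs_of engOK r_1220_6))))))) (by decide +kernel) h.1 h.1

def F_1221 : FrX :=
  ⟨0x2002000900044004000e02041000141000800040800801014008400008220100100244004024001010040012000420000300801030001008104310030020,
    0xa3, 1, 0x213065718798a6, 7,
    [(0xa3, 1), (0x208693a5, 4), (0x10548793, 4), (0x217693a4, 4), (0x208693a5, 4), (0x10548793, 4)],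
    [(0x213065718798a6, 7), (0x315260a9, 4), (0x52647398, 4), (0x405271a8, 4), (0x315260a9, 4), (0x52647398, 4)]⟩

def c_1221 : frmChk tA tA F_1221 = true := by decide +kernel

def r_1221_0 : chkL rootF engF2 tA tA sA_258 sA_258 4 F_1221 [(255, 0, 0), (256, 0, 20)]
    0x45505c56 = true := by
  decide +kernel

def r_1221_1 : chkL rootF engF2 tA tA sA_258 sA_258 4 F_1221 [(256, 20, 0)]
    0x44e06c0f = true := by
  decide +kernel

theorem f_1221 (h : TabsF) : FrameF repsF 258 F_1221.f :=
  frame_of rfl c_1221 ((runs_of engOK r_1221_0).append (runs_of engOK r_1221_1)) (by decide +kernel) h.1 h.1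

def F_1222 : FrX :=
  ⟨0x80080a000804040e000021010020010000020408822000040480240000400820284040014000080208008008802018400021410a00088002020c0000402,
    0xa6, 1, 0x3064718193a4, 6,
    [(0xa6, 1), (0x205396a8, 4), (0x10548796, 4), (0x214396a7, 4), (0x205396a8, 4), (0x10548796, 4)],
    [(0x3064718193a4, 6), (0x32607495, 4), (0x607183a5, 4), (0x416082a9, 4), (0x32607495, 4), (0x607183a5, 4)]⟩

def c_1222 : frmChk tA tA F_1222 = true := by decide +kernel

def r_1222_0 : chkL rootF engF2 tA tA sA_258 sA_258 4 F_1222 [(511, 0, 0)]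
    0x111d0e710cc264a3a841e0ba2a11c0f0b9151341d = true := by
  decide +kernel

theorem f_1222 (h : TabsF) : FrameF repsF 258 F_1222.f :=
  frame_of rfl c_1222 (runs_of engOK r_1222_0) (by decide +kernel) h.1 h.1

def F_1223 : FrX :=
  ⟨0x2002000900044004000e020410001410008000408100000181080025020002402202000010080088208004048000108010402000428002003000a0021402,
    0xa3, 1, 0x102064728797a6, 7,
    [(0xa3, 1), (0x208693a5, 4), (0x10548793, 4), (0x217693a4, 4), (0x208693a5, 4), (0x10548793, 4)],
    [(0x102064728797a6, 7), (0x617295a3, 4), (0x206584a9, 4), (0x318495a6, 4), (0x206584a9, 4), (0x517093a6, 4), (0x637284a1, 4), (0x318495a6, 4), (0x637284a1, 4), (0x203196a5, 4), (0x318495a6, 4), (0x517093a6, 4)]⟩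

def c_1223 : frmChk tA tB F_1223 = true := by decide +kernel

def r_1223_0 : chkL rootF engF2 tA tB sA_258 sB_258 4 F_1223 [(255, 0, 0), (256, 0, 13)]
    0x44703c0f06c0f03c2b0f047 = true := by
  decide +kernel

def r_1223_1 : chkL rootF engF2 tA tB sA_258 sB_258 4 F_1223 [(256, 13, 14)]
    0x1166b003c0f15447 = true := by
  decide +kernel

def r_1223_2 : chkL rootF engF2 tA tB sA_258 sB_258 4 F_1223 [(256, 27, 0)]
    0x41b06c1b14c1b06c1b03c1b14c952c4990cc1d0741b63285 = true := by
  decide +kernel

theorem f_1223 (h : TabsF) : FrameF repsF 258 F_1223.f :=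
  frame_of rfl c_1223 ((runs_of engOK r_1223_0).append ((runs_of engOK r_1223_1).append (runs_of engOK r_1223_2))) (by decide +kernel) h.1 h.2

def F_1224 : FrX :=
  ⟨0x1001040012008080000e008408004100081010000421006040014001010000400820400a0000208000184800490000804004201200420804108100008018,
    0xa3, 1, 0x10627687a2, 5,
    [(0xa3, 1), (0x207584a6, 4), (0x10547693, 4), (0x647593a8, 4), (0x10547693, 4), (0x216485a7, 4), (0x208693a4, 4), (0x647593a8, 4), (0x208693a4, 4), (0x106574a8, 4), (0x647593a8, 4), (0x216485a7, 4)],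
    [(0x10627687a2, 5), (0x537296a1, 4), (0x10548296, 4), (0x438796a0, 4), (0x537296a1, 4), (0x10548296, 4)]⟩

def c_1224 : frmChk tB tA F_1224 = true := by decide +kernel

def r_1224_0 : chkL rootF engF2 tB tA sB_258 sA_258 4 F_1224 [(511, 0, 0)]
    0x41b0741d03c1d0742d0e40f2340f = true := by
  decide +kernel

theorem f_1224 (h : TabsF) : FrameF repsF 258 F_1224.f :=
  frame_of rfl c_1224 (runs_of engOK r_1224_0) (by decide +kernel) h.2 h.1

def F_1225 : FrX :=
  ⟨0x1001040012008080000e00840800410008101000042010041008022002000040442000160000404020104818880000400900800260004408101002000102,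
    0xa3, 1, 0x10203051647195a3, 8,
    [(0xa3, 1), (0x207584a6, 4), (0x10547693, 4), (0x647593a8, 4), (0x10547693, 4), (0x216485a7, 4), (0x208693a4, 4), (0x647593a8, 4), (0x208693a4, 4), (0x106574a8, 4), (0x647593a8, 4), (0x216485a7, 4)],
    [(0x10203051647195a3, 8), (0x203184a9, 4), (0x20738596, 4), (0x205471a6, 4), (0x203184a9, 4), (0x20738596, 4)]⟩

def c_1225 : frmChk tB tA F_1225 = true := by decide +kernel

def r_1225_0 : chkL rootF engF2 tB tA sB_258 sA_258 4 F_1225 [(511, 0, 0)]
    0x15600f09c330781b5609a81e15 = true := by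
  decide +kernel

theorem f_1225 (h : TabsF) : FrameF repsF 258 F_1225.f :=
  frame_of rfl c_1225 (runs_of engOK r_1225_0) (by decide +kernel) h.2 h.1

def F_1226 : FrX :=
  ⟨0x1001040012008080000e0084080041000810100004082010020802800200002044004210108022014000280002140820010000010a00400810185000a000,
    0xa3, 1, 0x204163748792a6, 7,
    [(0xa3, 1), (0x207584a6, 4), (0x10547693, 4), (0x647593a8, 4), (0x10547693, 4), (0x216485a7, 4), (0x208693a4, 4), (0x647593a8, 4), (0x208693a4, 4), (0x106574a8, 4), (0x647593a8, 4), (0x216485a7, 4)],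
    [(0x204163748792a6, 7), (0x306592a1, 4), (0x30427581, 4), (0x307694a8, 4), (0x306592a1, 4), (0x30427581, 4)]⟩

def c_1226 : frmChk tB tA F_1226 = true := by decide +kernel

def r_1226_0 : chkL rootF engF2 tB tA sB_258 sA_258 4 F_1226 [(255, 0, 0), (256, 0, 21)]
    0x40f624170b80f09c1742c0f09c8e03c17 = true := by
  decide +kernel

def r_1226_1 : chkL rootF engF2 tB tA sB_258 sA_258 4 F_1226 [(256, 21, 0)]
    0x103c535180f1585605c0f03c172a81e05c0f = true := by
  decide +kernel

theorem f_1226 (h : TabsF) : FrameF repsF 258 F_1226.f :=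
  frame_of rfl c_1226 ((runs_of engOK r_1226_0).append (runs_of engOK r_1226_1)) (by decide +kernel) h.2 h.1

def F_1227 : FrX :=
  ⟨0x1001040012008080000e0084080041000810100004200802400140010102000004a0002a0005200040090084008800804004201000420800060808800280,
    0xa3, 1, 0x5161738695a7, 6,
    [(0xa3, 1), (0x207584a6, 4), (0x10547693, 4), (0x647593a8, 4), (0x10547693, 4), (0x216485a7, 4), (0x208693a4, 4), (0x647593a8, 4), (0x208693a4, 4), (0x106574a8, 4), (0x647593a8, 4), (0x216485a7, 4)],
    [(0x5161738695a7, 6), (0x205487a9, 4), (0x316094a8, 4), (0x317584a9, 4), (0x316094a8, 4), (0x628495a7, 4), (0x20317485, 4), (0x317584a9, 4), (0x20317485, 4), (0x607598a4, 4), (0x317584a9, 4), (0x628495a7, 4)]⟩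

def c_1227 : frmChk tB tB F_1227 = true := by decide +kernel

def r_1227_0 : chkL rootF engF2 tB tB sB_258 sB_258 4 F_1227 [(511, 0, 0)]
    0x43606e45986640781703d1c11c3606c1b06c3a0d6238c417 = true := by
  decide +kernel

theorem f_1227 (h : TabsF) : FrameF repsF 258 F_1227.f :=
  frame_of rfl c_1227 (runs_of engOK r_1227_0) (by decide +kernel) h.2 h.2

def F_1228 : FrX :=
  ⟨0x80080a000804040e000021010020010000020408822000040480840080400820204040014000080208008008802018400020010a0408800202244280000,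
    0xa6, 1, 0x43516298a6, 5,
    [(0xa6, 1), (0x205396a8, 4), (0x10548796, 4), (0x214396a7, 4), (0x205396a8, 4), (0x10548796, 4)],
    [(0x43516298a6, 5), (0x416082a9, 4), (0x31508297, 4), (0x436582a7, 4), (0x416082a9, 4), (0x31508297, 4)]⟩

def c_1228 : frmChk tA tA F_1228 = true := by decide +kernel

def r_1228_0 : chkL rootF engF2 tA tA sA_258 sA_258 4 F_1228 [(511, 0, 0)]
    0x4170ac5a1655256035078270781d = true := by
  decide +kernel

theorem f_1228 (h : TabsF) : FrameF repsF 258 F_1228.f :=
  frame_of rfl c_1228 (runs_of engOK r_1228_0) (by decide +kernel) h.1 h.1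

def F_1229 : FrX :=
  ⟨0x2002000900044004000e02041000141000800040800801011090020401000182000204004024000410800202001410000280088022200800500280028040,
    0xa3, 1, 0x1031405184a3, 6,
    [(0xa3, 1), (0x208693a5, 4), (0x10548793, 4), (0x217693a4, 4), (0x208693a5, 4), (0x10548793, 4)],
    [(0x1031405184a3, 6), (0x426190a3, 4), (0x54718390, 4), (0x527690a8, 4), (0x426190a3, 4), (0x54718390, 4)]⟩

def c_1229 : frmChk tA tA F_1229 = true := by decide +kernel

def r_1229_0 : chkL rootF engF2 tA tA sA_258 sA_258 4 F_1229 [(511, 0, 0)]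
    0x106c0f195641385c5455105e0b14c3515417156540b41705c17 = true := by
  decide +kernel

theorem f_1229 (h : TabsF) : FrameF repsF 258 F_1229.f :=
  frame_of rfl c_1229 (runs_of engOK r_1229_0) (by decide +kernel) h.1 h.1

def F_1230 : FrX :=
  ⟨0x2002000900044004000e020410001410008000408100000181080025020002402202000010080088208004048000108010408800404002003000a0004094,
    0xa3, 1, 0x102064728797a6, 7,
    [(0xa3, 1), (0x208693a5, 4), (0x10548793, 4), (0x217693a4, 4), (0x208693a5, 4), (0x10548793, 4)],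
    [(0x102064728797a6, 7), (0x617295a3, 4), (0x206584a9, 4), (0x318495a6, 4), (0x206584a9, 4), (0x517093a6, 4), (0x637284a1, 4), (0x318495a6, 4), (0x637284a1, 4), (0x203196a5, 4), (0x318495a6, 4), (0x517093a6, 4)]⟩

def c_1230 : frmChk tA tB F_1230 = true := by decide +kernel

def r_1230_0 : chkL rootF engF2 tA tB sA_258 sB_258 4 F_1230 [(255, 0, 0), (256, 0, 13)]
    0x40f03c0f22c0f03c0f03c470ac27 = true := by
  decide +kernel

def r_1230_1 : chkL rootF engF2 tA tB sA_258 sB_258 4 F_1230 [(256, 13, 14)]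
    0x6b005c66315c1 = true := by
  decide +kernel

def r_1230_2 : chkL rootF engF2 tA tB sA_258 sB_258 4 F_1230 [(256, 27, 0)]
    0x10e81d = true := by
  decide +kernel

theorem f_1230 (h : TabsF) : FrameF repsF 258 F_1230.f :=
  frame_of rfl c_1230 ((runs_of engOK r_1230_0).append ((runs_of engOK r_1230_1).append (runs_of engOK r_1230_2))) (by decide +kernel) h.1 h.2

def F_1231 : FrX :=
  ⟨0x482000044040440000c204002000900018204002000204090008022001404800440000002208048002004008842000a008010800408604000104000058,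
    0xa0, 1, 0x102031506374a5, 7,
    [(0xa0, 1), (0x538690a2, 4), (0x548790a1, 4), (0x21437690, 4), (0x538690a2, 4), (0x548790a1, 4)],
    [(0x102031506374a5, 7), (0x518092a6, 4), (0x538492a7, 4), (0x31407692, 4), (0x518092a6, 4), (0x538492a7, 4)]⟩

def c_1231 : frmChk tA tA F_1231 = true := by decide +kernel

def r_1231_0 : chkL rootF engF2 tA tA sA_258 sA_258 4 F_1231 [(511, 0, 0)]
    0x10b8171380f = true := by
  decide +kernel

theorem f_1231 (h : TabsF) : FrameF repsF 258 F_1231.f :=
  frame_of rfl c_1231 (runs_of engOK r_1231_0) (by decide +kernel) h.1 h.1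

def F_1232 : FrX :=
  ⟨0x2002000900044004000e0204100014100080004080800020812000020800a202800202001080020820800200881040140281010002200200002005012200,
    0xa3, 1, 0x10204250608792a3, 8,
    [(0xa3, 1), (0x208693a5, 4), (0x10548793, 4), (0x217693a4, 4), (0x208693a5, 4), (0x10548793, 4)],
    [(0x10204250608792a3, 8), (0x718296a5, 4), (0x21436085, 4), (0x435182a7, 4), (0x21436085, 4), (0x517290a8, 4), (0x437596a1, 4), (0x435182a7, 4), (0x437596a1, 4), (0x526081a7, 4), (0x435182a7, 4), (0x517290a8, 4)]⟩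

def c_1232 : frmChk tA tB F_1232 = true := by decide +kernel

def r_1232_0 : chkL rootF engF2 tA tB sA_258 sB_258 4 F_1232 [(255, 0, 0), (256, 0, 22)]
    0x1134741c47103c0f0787806c4d1680f = true := by
  decide +kernel

def r_1232_1 : chkL rootF engF2 tA tB sA_258 sB_258 4 F_1232 [(256, 22, 0)]
    0x41705c170d48b21c17154350d43521c171c46c1381d0d41703c0f = true := by
  decide +kernel

theorem f_1232 (h : TabsF) : FrameF repsF 258 F_1232.f :=
  frame_of rfl c_1232 ((runs_of engOK r_1232_0).append (runs_of engOK r_1232_1)) (by decide +kernel) h.1 h.2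

def F_1233 : FrX :=
  ⟨0x482000044040440000c20400200090001820400100800208020008040400c4220400001008008408000819006008208014008002200080301020000082,
    0xa0, 1, 0x53638298a7, 5,
    [(0xa0, 1), (0x538690a2, 4), (0x548790a1, 4), (0x21437690, 4), (0x538690a2, 4), (0x548790a1, 4)],
    [(0x53638298a7, 5), (0x658094a3, 4), (0x104372a5, 4), (0x547296a3, 4), (0x104372a5, 4), (0x548193a6, 4), (0x64728095, 4), (0x547296a3, 4), (0x64728095, 4), (0x105396a4, 4), (0x547296a3, 4), (0x548193a6, 4)]⟩

def c_1233 : frmChk tA tB F_1233 = true := by decide +kernel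

def r_1233_0 : chkL rootF engF2 tA tB sA_258 sB_258 4 F_1233 [(255, 0, 0), (256, 0, 23)]
    0x10ba078541e268d80d4650ba0da308e88c33078962550784c0f = true := by
  decide +kernel

def r_1233_1 : chkL rootF engF2 tA tB sA_258 sB_258 4 F_1233 [(256, 23, 0)]
    0x10743c0d41e0f0351c6700d435254ca8581e0d40f0d62503e83a0c0fa0c350d41e = true := by
  decide +kernel

theorem f_1233 (h : TabsF) : FrameF repsF 258 F_1233.f :=
  frame_of rfl c_1233 ((runs_of engOK r_1233_0).append (runs_of engOK r_1233_1)) (by decide +kernel) h.1 h.2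

theorem cl_258 (h : TabsF) : ∀ f ∈ fr_258, FrameF repsF 258 f :=
  List.forall_mem_cons.2 ⟨f_1206 h, List.forall_mem_cons.2 ⟨f_1207 h, List.forall_mem_cons.2 ⟨f_1208 h, List.forall_mem_cons.2 ⟨f_1209 h, List.forall_mem_cons.2 ⟨f_1210 h, List.forall_mem_cons.2 ⟨f_1211 h, List.forall_mem_cons.2 ⟨f_1212 h, List.forall_mem_cons.2 ⟨f_1213 h, List.forall_mem_cons.2 ⟨f_1214 h, List.forall_mem_cons.2 ⟨f_1215 h, List.forall_mem_cons.2 ⟨f_1216 h, List.forall_mem_cons.2 ⟨f_1217 h, List.forall_mem_cons.2 ⟨f_1218 h, List.forall_mem_cons.2 ⟨f_1219 h, List.forall_mem_cons.2 ⟨f_1220 h, List.forall_mem_cons.2 ⟨f_1221 h, List.forall_mem_cons.2 ⟨f_1222 h, List.forall_mem_cons.2 ⟨f_1223 h, List.forall_mem_cons.2 ⟨f_1224 h, List.forall_mem_cons.2 ⟨f_1225 h, List.forall_mem_cons.2 ⟨f_1226 h, List.forall_mem_cons.2 ⟨f_1227 h, List.forall_mem_cons.2 ⟨f_1228 h, List.forall_mem_cons.2 ⟨f_1229 h, List.forall_mem_cons.2 ⟨f_1230 h, List.forall_mem_cons.2 ⟨f_1231 h, List.forall_mem_cons.2 ⟨f_1232 h, List.forall_mem_cons.2 ⟨f_1233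 h,
    fun _ h0 => absurd h0 List.not_mem_nil⟩⟩⟩⟩⟩⟩⟩⟩⟩⟩⟩⟩⟩⟩⟩⟩⟩⟩⟩⟩⟩⟩⟩⟩⟩⟩⟩⟩

def F_1234 : FrX :=
  ⟨0x1001040012008080000e008408004100081010000404200280011100001800100102008a0280040040024048401028020000200c05004000444003002000,
    0xa3, 1, 0x415061728098a6, 7,
    [(0xa3, 1), (0x207584a6, 4), (0x10547693, 4), (0x647593a8, 4), (0x10547693, 4), (0x216485a7, 4), (0x208693a4, 4), (0x647593a8, 4), (0x208693a4, 4), (0x106574a8, 4), (0x647593a8, 4), (0x216485a7, 4)],
    [(0x415061728098a6, 7), (0x305487a9, 4), (0x10548692, 4), (0x315476a2, 4), (0x305487a9, 4), (0x10548692, 4)]⟩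

def c_1234 : frmChk tB tA F_1234 = true := by decide +kernel

def r_1234_0 : chkL rootF engF2 tB tA sB_259 sA_259 4 F_1234 [(255, 0, 0), (256, 0, 21)]
    0x41b03c0f = true := by
  decide +kernel

def r_1234_1 : chkL rootF engF2 tB tA sB_259 sA_259 4 F_1234 [(256, 21, 20)]
    0x40f06c39 = true := by
  decide +kernel

def r_1234_2 : chkL rootF engF2 tB tA sB_259 sA_259 4 F_1234 [(256, 41, 0)]
    0x1 = true := by
  decide +kernel

theorem f_1234 (h : TabsF) : FrameF repsF 259 F_1234.f :=
  frame_of rfl c_1234 ((runs_of engOK r_1234_0).append ((runs_of engOK r_1234_1).append (runs_of engOK r_1234_2))) (by decide +kernel) h.2 h.1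

def F_1235 : FrX :=
  ⟨0x1001040012008080000e008408004100081010000420101000a0010004020802422000202020200808010010a08430002000800c080000c0022004801040,
    0xa3, 1, 0x31405365748290a3, 8,
    [(0xa3, 1), (0x207584a6, 4), (0x10547693, 4), (0x647593a8, 4), (0x10547693, 4), (0x216485a7, 4), (0x208693a4, 4), (0x647593a8, 4), (0x208693a4, 4), (0x106574a8, 4), (0x647593a8, 4), (0x216485a7, 4)],
    [(0x31405365748290a3, 8), (0x607298a1, 4), (0x10547693, 4), (0x546071a2, 4), (0x10547693, 4), (0x627183a0, 4), (0x215498a7, 4), (0x546071a2, 4), (0x215498a7, 4), (0x617093a2, 4), (0x546071a2, 4), (0x627183a0, 4)]⟩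

def c_1235 : frmChk tB tB F_1235 = true := by decide +kernel

def r_1235_0 : chkL rootF engF2 tB tB sB_259 sB_259 4 F_1235 [(255, 0, 0), (256, 0, 21)]
    0x105c17 = true := by
  decide +kernel

def r_1235_1 : chkL rootF engF2 tB tB sB_259 sB_259 4 F_1235 [(256, 21, 0)]
    0x1078330d4630781b7052507835 = true := by
  decide +kernel

theorem f_1235 (h : TabsF) : FrameF repsF 259 F_1235.f :=
  frame_of rfl c_1235 ((runs_of engOK r_1235_0).append (runs_of engOK r_1235_1)) (by decide +kernel) h.2 h.2

def F_1236 : FrX :=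
  ⟨0x1001040012008080000e00840800410008101000042008024020010004080090048202020000112100420282020008210014001001010801010008010210,
    0xa3, 1, 0x1062718095a4, 6,
    [(0xa3, 1), (0x207584a6, 4), (0x10547693, 4), (0x647593a8, 4), (0x10547693, 4), (0x216485a7, 4), (0x208693a4, 4), (0x647593a8, 4), (0x208693a4, 4), (0x106574a8, 4), (0x647593a8, 4), (0x216485a7, 4)],
    [(0x1062718095a4, 6), (0x328690a1, 4), (0x205487a9, 4), (0x315490a2, 4), (0x205487a9, 4), (0x307691a2, 4), (0x215486a3, 4), (0x315490a2, 4), (0x215486a3, 4), (0x318792a0, 4), (0x315490a2, 4), (0x307691a2, 4)]⟩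

def c_1236 : frmChk tB tB F_1236 = true := by decide +kernel

def r_1236_0 : chkL rootF engF2 tB tB sB_259 sB_259 4 F_1236 [(511, 0, 0)]
    0x10d8350ac56 = true := by
  decide +kernel

theorem f_1236 (h : TabsF) : FrameF repsF 259 F_1236.f :=
  frame_of rfl c_1236 (runs_of engOK r_1236_0) (by decide +kernel) h.2 h.2

def F_1237 : FrX :=
  ⟨0x600020801080810000c00401804101010010040101000028000014402040440204100020002201002100128208380002000a040000000c020021081001,
    0xa0, 1, 0x4260768095a7, 6,
    [(0xa0, 1), (0x637584a2, 4), (0x547690a1, 4), (0x64758390, 4), (0x547690a1, 4), (0x21647385, 4), (0x438690a2, 4), (0x64758390, 4), (0x438690a2, 4), (0x657483a1, 4), (0x64758390, 4), (0x21647385, 4)],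
    [(0x4260768095a7, 6), (0x50768493, 4), (0x508192a6, 4), (0x324150a7, 4), (0x50768493, 4), (0x508192a6, 4)]⟩

def c_1237 : frmChk tB tA F_1237 = true := by decide +kernel

def r_1237_0 : chkL rootF engF2 tB tA sB_259 sA_259 4 F_1237 [(511, 0, 0)]
    0x41d05c5a1683c3283a0e83a1d055 = true := by
  decide +kernel

theorem f_1237 (h : TabsF) : FrameF repsF 259 F_1237.f :=
  frame_of rfl c_1237 (runs_of engOK r_1237_0) (by decide +kernel) h.2 h.1

def F_1238 : FrX :=
  ⟨0x600020801080810000c0040180410101001004010020012200004804180202080000800800440240004102240038000800088800000000508400211041,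
    0xa0, 1, 0x2131527583a0, 6,
    [(0xa0, 1), (0x637584a2, 4), (0x547690a1, 4), (0x64758390, 4), (0x547690a1, 4), (0x21647385, 4), (0x438690a2, 4), (0x64758390, 4), (0x438690a2, 4), (0x657483a1, 4), (0x64758390, 4), (0x21647385, 4)],
    [(0x2131527583a0, 6), (0x427186a5, 4), (0x617490a3, 4), (0x64718290, 4), (0x617490a3, 4), (0x53647281, 4), (0x628490a5, 4), (0x64718290, 4), (0x628490a5, 4), (0x417682a3, 4), (0x64718290, 4), (0x53647281, 4)]⟩

def c_1238 : frmChk tB tB F_1238 = true := by decide +kernel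

def r_1238_0 : chkL rootF engF2 tB tB sB_259 sB_259 4 F_1238 [(511, 0, 0)]
    0x10cc2d07417 = true := by
  decide +kernel

theorem f_1238 (h : TabsF) : FrameF repsF 259 F_1238.f :=
  frame_of rfl c_1238 (runs_of engOK r_1238_0) (by decide +kernel) h.2 h.2

def F_1239 : FrX :=
  ⟨0x482000044040440000c2040020009000182040002102000100880200004088004440101024000400800040888020c0000800010a008606000904000804,
    0xa0, 1, 0x50657192a7, 5,
    [(0xa0, 1), (0x538690a2, 4), (0x548790a1, 4), (0x21437690, 4), (0x538690a2, 4), (0x548790a1, 4)],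
    [(0x50657192a7, 5), (0x308495a6, 4), (0x216475a0, 4), (0x214083a6, 4), (0x216475a0, 4), (0x408697a3, 4), (0x21438095, 4), (0x214083a6, 4), (0x21438095, 4), (0x607583a4, 4), (0x214083a6, 4), (0x408697a3, 4)]⟩

def c_1239 : frmChk tA tB F_1239 = true := by decide +kernel

def r_1239_0 : chkL rootF engF2 tA tB sA_259 sB_259 4 F_1239 [(511, 0, 0)]
    0x105c33 = true := by
  decide +kernel

theorem f_1239 (h : TabsF) : FrameF repsF 259 F_1239.f :=
  frame_of rfl c_1239 (runs_of engOK r_1239_0) (by decide +kernel) h.1 h.2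

def F_1240 : FrX :=
  ⟨0x1c2102000004044000002041000101000082040888200008008080004000242020601001020080020800440880048100288010060600201100004080041,
    0x0, 0, 0x107583, 3,
    [(0x0, 0), (0x205386a9, 4), (0x105487a9, 4), (0x214376a9, 4), (0x205386a9, 4), (0x105487a9, 4)],
    [(0x107583, 3), (0x216387a9, 4), (0x105374a9, 4), (0x206584a9, 4), (0x216387a9, 4), (0x105374a9, 4)]⟩

def c_1240 : frmChk tA tA F_1240 = true := by decide +kernel

def r_1240_0 : chkL rootF engF2 tA tA sA_259 sA_259 4 F_1240 [(255, 0, 0), (256, 0, 10)]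
    0x1 = true := by
  decide +kernel

def r_1240_1 : chkL rootF engF2 tA tA sA_259 sA_259 4 F_1240 [(256, 10, 5)]
    0x10d4172d02d = true := by
  decide +kernel

def r_1240_2 : chkL rootF engF2 tA tA sA_259 sA_259 4 F_1240 [(256, 15, 4)]
    0x1 = true := by
  decide +kernel

def r_1240_3 : chkL rootF engF2 tA tA sA_259 sA_259 4 F_1240 [(256, 19, 4)]
    0x1 = true := by
  decide +kernel

def r_1240_4 : chkL rootF engF2 tA tA sA_259 sA_259 4 F_1240 [(256, 23, 5)]
    0x49a = true := by
  decide +kernel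

def r_1240_5 : chkL rootF engF2 tA tA sA_259 sA_259 4 F_1240 [(256, 28, 6)]
    0x1 = true := by
  decide +kernel

def r_1240_6 : chkL rootF engF2 tA tA sA_259 sA_259 4 F_1240 [(256, 34, 0)]
    0x1 = true := by
  decide +kernel

theorem f_1240 (h : TabsF) : FrameF repsF 259 F_1240.f :=
  frame_of rfl c_1240 ((runs_of engOK r_1240_0).append ((runs_of engOK r_1240_1).append ((runs_of engOK r_1240_2).append ((runs_of engOK r_1240_3).append ((runs_of engOK r_1240_4).append ((runs_of engOK r_1240_5).append (runs_of engOK r_1240_6))))))) (by decide +kernel) h.1 h.1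

def F_1241 : FrX :=
  ⟨0x1c21020000040440000020410001010000820408882000080008802000022020206000411000080208004048802108400400810a0500200202080800402,
    0x0, 0, 0x21546587, 4,
    [(0x0, 0), (0x205386a9, 4), (0x105487a9, 4), (0x214376a9, 4), (0x205386a9, 4), (0x105487a9, 4)],
    [(0x21546587, 4), (0x10437586, 4), (0x206584a9, 4), (0x547386a9, 4), (0x206584a9, 4), (0x21547683, 4), (0x105374a9, 4), (0x547386a9, 4), (0x105374a9, 4), (0x20647385, 4), (0x547386a9, 4), (0x21547683, 4)]⟩

def c_1241 : frmChk tA tB F_1241 = true := by decide +kernel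

def r_1241_0 : chkL rootF engF2 tA tB sA_259 sB_259 4 F_1241 [(255, 0, 0), (256, 0, 13)]
    0x41b = true := by
  decide +kernel

def r_1241_1 : chkL rootF engF2 tA tB sA_259 sB_259 4 F_1241 [(256, 13, 3)]
    0x41d = true := by
  decide +kernel

def r_1241_2 : chkL rootF engF2 tA tB sA_259 sB_259 4 F_1241 [(256, 16, 3)]
    0x11544b = true := by
  decide +kernel

def r_1241_3 : chkL rootF engF2 tA tB sA_259 sB_259 4 F_1241 [(256, 19, 4)]
    0x529 = true := by
  decide +kernel

def r_1241_4 : chkL rootF engF2 tA tB sA_259 sB_259 4 F_1241 [(256, 23, 5)]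
    0x109c69 = true := by
  decide +kernel

def r_1241_5 : chkL rootF engF2 tA tB sA_259 sB_259 4 F_1241 [(256, 28, 5)]
    0x41d8581b06c0f0743c0740f03c2b = true := by
  decide +kernel

def r_1241_6 : chkL rootF engF2 tA tB sA_259 sB_259 4 F_1241 [(256, 33, 0)]
    0x1 = true := by
  decide +kernel

theorem f_1241 (h : TabsF) : FrameF repsF 259 F_1241.f :=
  frame_of rfl c_1241 ((runs_of engOK r_1241_0).append ((runs_of engOK r_1241_1).append ((runs_of engOK r_1241_2).append ((runs_of engOK r_1241_3).append ((runs_of engOK r_1241_4).append ((runs_of engOK r_1241_5).append (runs_of engOK r_1241_6))))))) (by decide +kernel) h.1 h.2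

def F_1242 : FrX :=
  ⟨0x2002000900044004000e02041000141000800040800801014008400008220100100244004024001010040012000420000300801030000a08100310008021,
    0xa3, 1, 0x213065718798a6, 7,
    [(0xa3, 1), (0x208693a5, 4), (0x10548793, 4), (0x217693a4, 4), (0x208693a5, 4), (0x10548793, 4)],
    [(0x213065718798a6, 7), (0x315260a9, 4), (0x52647398, 4), (0x405271a8, 4), (0x315260a9, 4), (0x52647398, 4)]⟩

def c_1242 : frmChk tA tA F_1242 = true := by decide +kernel

def r_1242_0 : chkL rootF engF2 tA tA sA_259 sA_259 4 F_1242 [(255, 0, 0), (256, 0, 21)]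
    0x106c170ac2b = true := by
  decide +kernel

def r_1242_1 : chkL rootF engF2 tA tA sA_259 sA_259 4 F_1242 [(256, 21, 0)]
    0x1074170b887078360b81e = true := by
  decide +kernel

theorem f_1242 (h : TabsF) : FrameF repsF 259 F_1242.f :=
  frame_of rfl c_1242 ((runs_of engOK r_1242_0).append (runs_of engOK r_1242_1)) (by decide +kernel) h.1 h.1

def F_1243 : FrX :=
  ⟨0x80080a000804040e000021010020010000020408822000040480840080400820204040014000080208008008802018400020010a04088002020c0008402,
    0xa6, 1, 0x43516298a6, 5,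
    [(0xa6, 1), (0x205396a8, 4), (0x10548796, 4), (0x214396a7, 4), (0x205396a8, 4), (0x10548796, 4)],
    [(0x43516298a6, 5), (0x416082a9, 4), (0x31508297, 4), (0x436582a7, 4), (0x416082a9, 4), (0x31508297, 4)]⟩

def c_1243 : frmChk tA tA F_1243 = true := by decide +kernel

def r_1243_0 : chkL rootF engF2 tA tA sA_259 sA_259 4 F_1243 [(511, 0, 0)]
    0x44e14c335c01e1947403c0f2a84d = true := by
  decide +kernel

theorem f_1243 (h : TabsF) : FrameF repsF 259 F_1243.f :=
  frame_of rfl c_1243 (runs_of engOK r_1243_0) (by decide +kernel) h.1 h.1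

def F_1244 : FrX :=
  ⟨0x2002000900044004000e020410001410008000408100000181080025020002402202000010080088208004048000108010408800404002003000a0001403,
    0xa3, 1, 0x102064728797a6, 7,
    [(0xa3, 1), (0x208693a5, 4), (0x10548793, 4), (0x217693a4, 4), (0x208693a5, 4), (0x10548793, 4)],
    [(0x102064728797a6, 7), (0x617295a3, 4), (0x206584a9, 4), (0x318495a6, 4), (0x206584a9, 4), (0x517093a6, 4), (0x637284a1, 4), (0x318495a6, 4), (0x637284a1, 4), (0x203196a5, 4), (0x318495a6, 4), (0x517093a6, 4)]⟩

def c_1244 : frmChk tA tB F_1244 = true := by decide +kernel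

def r_1244_0 : chkL rootF engF2 tA tB sA_259 sB_259 4 F_1244 [(255, 0, 0), (256, 0, 13)]
    0x106c1d0741b0741b0743c = true := by
  decide +kernel

def r_1244_1 : chkL rootF engF2 tA tB sA_259 sB_259 4 F_1244 [(256, 13, 14)]
    0x43a21c8742f03 = true := by
  decide +kernel

def r_1244_2 : chkL rootF engF2 tA tB sA_259 sB_259 4 F_1244 [(256, 27, 0)]
    0x1 = true := by
  decide +kernel

theorem f_1244 (h : TabsF) : FrameF repsF 259 F_1244.f :=
  frame_of rfl c_1244 ((runs_of engOK r_1244_0).append ((runs_of engOK r_1244_1).append (runs_of engOK r_1244_2))) (by decide +kernel) h.1 h.2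

def F_1245 : FrX :=
  ⟨0x600020801080810000c0040180410101001004020000500800c00440821000008012000080806000240100211110400800208200000088100408240042,
    0xa0, 1, 0x5461718292a1, 6,
    [(0xa0, 1), (0x637584a2, 4), (0x547690a1, 4), (0x64758390, 4), (0x547690a1, 4), (0x21647385, 4), (0x438690a2, 4), (0x64758390, 4), (0x438690a2, 4), (0x657483a1, 4), (0x64758390, 4), (0x21647385, 4)],
    [(0x5461718292a1, 6), (0x31526490, 4), (0x546187a0, 4), (0x32516487, 4), (0x546187a0, 4), (0x425163a9, 4), (0x21538790, 4), (0x32516487, 4), (0x21538790, 4), (0x324165a0, 4), (0x32516487, 4), (0x425163a9, 4)]⟩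

def c_1245 : frmChk tB tB F_1245 = true := by decide +kernel

def r_1245_0 : chkL rootF engF2 tB tB sB_259 sB_259 4 F_1245 [(511, 0, 0)]
    0x10cc0f1540f09c27 = true := by
  decide +kernel

theorem f_1245 (h : TabsF) : FrameF repsF 259 F_1245.f :=
  frame_of rfl c_1245 (runs_of engOK r_1245_0) (by decide +kernel) h.2 h.2

def F_1246 : FrX :=
  ⟨0x1001040012008080000e0084080041000810100004401004089010000410201001010200088004200040080450101000181000a008000840408008220050,
    0xa3, 1, 0x325176a3, 4,
    [(0xa3, 1), (0x207584a6, 4), (0x10547693, 4), (0x647593a8, 4), (0x10547693, 4), (0x216485a7, 4), (0x208693a4, 4), (0x647593a8, 4), (0x208693a4, 4), (0x106574a8, 4), (0x647593a8, 4), (0x216485a7, 4)],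
    [(0x325176a3, 4), (0x308792a1, 4), (0x41508692, 4), (0x537692a4, 4), (0x308792a1, 4), (0x41508692, 4)]⟩

def c_1246 : frmChk tB tA F_1246 = true := by decide +kernel

def r_1246_0 : chkL rootF engF2 tB tA sB_259 sA_259 4 F_1246 [(255, 0, 0), (256, 0, 23)]
    0x1a16a49182709c3c2702e8b033c1817 = true := by
  decide +kernel

def r_1246_1 : chkL rootF engF2 tB tA sB_259 sA_259 4 F_1246 [(256, 23, 0)]
    0x4360742e2a839c8b030b81705c17e21c2e23484584e64bc006c2d = true := by
  decide +kernel

theorem f_1246 (h : TabsF) : FrameF repsF 259 F_1246.f :=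
  frame_of rfl c_1246 ((runs_of engOK r_1246_0).append (runs_of engOK r_1246_1)) (by decide +kernel) h.2 h.1

def F_1247 : FrX :=
  ⟨0x1001040012008080000e00840800410008101000042100004060010004000882808200081200008400101040942000420040200106201080480000201008,
    0xa3, 1, 0x3165748290a3, 6,
    [(0xa3, 1), (0x207584a6, 4), (0x10547693, 4), (0x647593a8, 4), (0x10547693, 4), (0x216485a7, 4), (0x208693a4, 4), (0x647593a8, 4), (0x208693a4, 4), (0x106574a8, 4), (0x647593a8, 4), (0x216485a7, 4)],
    [(0x3165748290a3, 6), (0x647298a5, 4), (0x10547693, 4), (0x106475a2, 4), (0x10547693, 4), (0x627583a4, 4), (0x105298a7, 4), (0x106475a2, 4), (0x105298a7, 4), (0x657493a2, 4), (0x106475a2, 4), (0x627583a4, 4)]⟩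

def c_1247 : frmChk tB tB F_1247 = true := by decide +kernel

def r_1247_0 : chkL rootF engF2 tB tB sB_259 sB_259 4 F_1247 [(511, 0, 0)]
    0x11982b1543306c550cc33 = true := by
  decide +kernel

theorem f_1247 (h : TabsF) : FrameF repsF 259 F_1247.f :=
  frame_of rfl c_1247 (runs_of engOK r_1247_0) (by decide +kernel) h.2 h.2

def F_1248 : FrX :=
  ⟨0x1001040012008080000e00840800410008101000040808048020008408080082180000082100100240010008011030002050008001400400508000909100,
    0xa3, 1, 0x4154638696a2, 6,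
    [(0xa3, 1), (0x207584a6, 4), (0x10547693, 4), (0x647593a8, 4), (0x10547693, 4), (0x216485a7, 4), (0x208693a4, 4), (0x647593a8, 4), (0x208693a4, 4), (0x106574a8, 4), (0x647593a8, 4), (0x216485a7, 4)],
    [(0x4154638696a2, 6), (0x618293a0, 4), (0x40517382, 4), (0x658297a4, 4), (0x618293a0, 4), (0x40517382, 4)]⟩

def c_1248 : frmChk tB tA F_1248 = true := by decide +kernel

def r_1248_0 : chkL rootF engF2 tB tA sB_259 sA_259 4 F_1248 [(511, 0, 0)]
    0x19182703c2b = true := by
  decide +kernel

theorem f_1248 (h : TabsF) : FrameF repsF 259 F_1248.f :=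
  frame_of rfl c_1248 (runs_of engOK r_1248_0) (by decide +kernel) h.2 h.1

def F_1249 : FrX :=
  ⟨0x1001040012008080000e00840800410008101000042100001120010004302004800100102020200800022402020030002000800c08000014240880098010,
    0xa3, 1, 0x738296a3, 4,
    [(0xa3, 1), (0x207584a6, 4), (0x10547693, 4), (0x647593a8, 4), (0x10547693, 4), (0x216485a7, 4), (0x208693a4, 4), (0x647593a8, 4), (0x208693a4, 4), (0x106574a8, 4), (0x647593a8, 4), (0x216485a7, 4)],
    [(0x738296a3, 4), (0x425380a9, 4), (0x10547693, 4), (0x537694a2, 4), (0x10547693, 4), (0x528194a3, 4), (0x768092a4, 4), (0x537694a2, 4), (0x768092a4, 4), (0x104395a2, 4), (0x537694a2, 4), (0x528194a3, 4)]⟩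

def c_1249 : frmChk tB tB F_1249 = true := by decide +kernel

def r_1249_0 : chkL rootF engF2 tB tB sB_259 sB_259 4 F_1249 [(255, 0, 0), (256, 0, 13)]
    0x1138351386a11e469188b0d44791a469184e22c3c13a430d84e360872348d2683621c8d2348d06d071b03c = true := by
  decide +kernel

def r_1249_1 : chkL rootF engF2 tB tB sB_259 sB_259 4 F_1249 [(256, 13, 5)]
    0x10b40f = true := by
  decide +kernel

def r_1249_2 : chkL rootF engF2 tB tB sB_259 sB_259 4 F_1249 [(256, 18, 22)]
    0x439 = true := by
  decide +kernel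

def r_1249_3 : chkL rootF engF2 tB tB sB_259 sB_259 4 F_1249 [(256, 40, 0)]
    0x455 = true := by
  decide +kernel

theorem f_1249 (h : TabsF) : FrameF repsF 259 F_1249.f :=
  frame_of rfl c_1249 ((runs_of engOK r_1249_0).append ((runs_of engOK r_1249_1).append ((runs_of engOK r_1249_2).append (runs_of engOK r_1249_3)))) (by decide +kernel) h.2 h.2

def F_1250 : FrX :=
  ⟨0x482000044040440000c204002000900018204002000204040008022001404800440020002208048002004008542000a008010800408604000104000048,
    0xa0, 1, 0x307691a0, 4,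
    [(0xa0, 1), (0x538690a2, 4), (0x548790a1, 4), (0x21437690, 4), (0x538690a2, 4), (0x548790a1, 4)],
    [(0x307691a0, 4), (0x315087a2, 4), (0x315486a9, 4), (0x31407692, 4), (0x315087a2, 4), (0x315486a9, 4)]⟩

def c_1250 : frmChk tA tA F_1250 = true := by decide +kernel

def r_1250_0 : chkL rootF engF2 tA tA sA_259 sA_259 4 F_1250 [(511, 0, 0)]
    0x1271c11542d81c0f05c6a28c5a0784d1a43512c0f = true := by
  decide +kernel

theorem f_1250 (h : TabsF) : FrameF repsF 259 F_1250.f :=
  frame_of rfl c_1250 (runs_of engOK r_1250_0) (by decide +kernel) h.1 h.1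

def F_1251 : FrX :=
  ⟨0x2002000900044004000e0204100014100080004080800020812000020800a202800202001080020820800200490800140281010002200200002005012002,
    0xa3, 1, 0x10204250608792a3, 8,
    [(0xa3, 1), (0x208693a5, 4), (0x10548793, 4), (0x217693a4, 4), (0x208693a5, 4), (0x10548793, 4)],
    [(0x10204250608792a3, 8), (0x718296a5, 4), (0x21436085, 4), (0x435182a7, 4), (0x21436085, 4), (0x517290a8, 4), (0x437596a1, 4), (0x435182a7, 4), (0x437596a1, 4), (0x526081a7, 4), (0x435182a7, 4), (0x517290a8, 4)]⟩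

def c_1251 : frmChk tA tB F_1251 = true := by decide +kernel

def r_1251_0 : chkL rootF engF2 tA tB sA_259 sB_259 4 F_1251 [(255, 0, 0), (256, 0, 22)]
    0x4741a4780b487134b803c8b4c4271e01b09ca309c87 = true := by
  decide +kernel

def r_1251_1 : chkL rootF engF2 tA tB sA_259 sB_259 4 F_1251 [(256, 22, 0)]
    0x40f03c8709c1d1b01e1541d06c2703c0f03c3306c1b = true := by
  decide +kernel

theorem f_1251 (h : TabsF) : FrameF repsF 259 F_1251.f :=
  frame_of rfl c_1251 ((runs_of engOK r_1251_0).append (runs_of engOK r_1251_1)) (by decide +kernel) h.1 h.2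

theorem cl_259 (h : TabsF) : ∀ f ∈ fr_259, FrameF repsF 259 f :=
  List.forall_mem_cons.2 ⟨f_1234 h, List.forall_mem_cons.2 ⟨f_1235 h, List.forall_mem_cons.2 ⟨f_1236 h, List.forall_mem_cons.2 ⟨f_1237 h, List.forall_mem_cons.2 ⟨f_1238 h, List.forall_mem_cons.2 ⟨f_1239 h, List.forall_mem_cons.2 ⟨f_1240 h, List.forall_mem_cons.2 ⟨f_1241 h, List.forall_mem_cons.2 ⟨f_1242 h, List.forall_mem_cons.2 ⟨f_1243 h, List.forall_mem_cons.2 ⟨f_1244 h, List.forall_mem_cons.2 ⟨f_1245 h, List.forall_mem_cons.2 ⟨f_1246 h, List.forall_mem_cons.2 ⟨f_1247 h, List.forall_mem_cons.2 ⟨f_1248 h, List.forall_mem_cons.2 ⟨f_1249 h, List.forall_mem_cons.2 ⟨f_1250 h, List.forall_mem_cons.2 ⟨f_1251 h,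
    fun _ h0 => absurd h0 List.not_mem_nil⟩⟩⟩⟩⟩⟩⟩⟩⟩⟩⟩⟩⟩⟩⟩⟩⟩⟩

def F_1252 : FrX :=
  ⟨0x482000044040440000c2040020009000182040020000500800100208044184100010000024040410800800081020040204005002002820110110008084,
    0xa0, 1, 0x324152638795a8, 7,
    [(0xa0, 1), (0x538690a2, 4), (0x548790a1, 4), (0x21437690, 4), (0x538690a2, 4), (0x548790a1, 4)],
    [(0x324152638795a8, 7), (0x507396a2, 4), (0x407391a8, 4), (0x54617382, 4), (0x507396a2, 4), (0x407391a8, 4)]⟩

def c_1252 : frmChk tA tA F_1252 = true := by decide +kernel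

def r_1252_0 : chkL rootF engF2 tA tA sA_260 sA_260 4 F_1252 [(255, 0, 0), (256, 0, 19)]
    0x4360ac630782e0cc2b348d1b4017 = true := by
  decide +kernel

def r_1252_1 : chkL rootF engF2 tA tA sA_260 sA_260 4 F_1252 [(256, 19, 0)]
    0x10741e05c1d05c3c = true := by
  decide +kernel

theorem f_1252 (h : TabsF) : FrameF repsF 260 F_1252.f :=
  frame_of rfl c_1252 ((runs_of engOK r_1252_0).append (runs_of engOK r_1252_1)) (by decide +kernel) h.1 h.1

def F_1253 : FrX :=
  ⟨0x482000044040440000c204002000900018204002000088200010011001451000402000040504018008280000a010400200093040080800010010200201,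
    0xa0, 1, 0x214253748498a5, 7,
    [(0xa0, 1), (0x538690a2, 4), (0x548790a1, 4), (0x21437690, 4), (0x538690a2, 4), (0x548790a1, 4)],
    [(0x214253748498a5, 7), (0x407396a5, 4), (0x207391a8, 4), (0x42617385, 4), (0x407396a5, 4), (0x207391a8, 4)]⟩

def c_1253 : frmChk tA tA F_1253 = true := by decide +kernel

def r_1253_0 : chkL rootF engF2 tA tA sA_260 sA_260 4 F_1253 [(511, 0, 0)]
    0x42712c1e49a380ac2b = true := by
  decide +kernel

theorem f_1253 (h : TabsF) : FrameF repsF 260 F_1253.f :=
  frame_of rfl c_1253 (runs_of engOK r_1253_0) (by decide +kernel) h.1 h.1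

def F_1254 : FrX :=
  ⟨0x80080a000804040e00002101002001000002040881200001404030000012008010022401400020080040800211020008024019080490081004080820000,
    0xa6, 1, 0x3254657390a6, 6,
    [(0xa6, 1), (0x205396a8, 4), (0x10548796, 4), (0x214396a7, 4), (0x205396a8, 4), (0x10548796, 4)],
    [(0x3254657390a6, 6), (0x628593a7, 4), (0x406591a2, 4), (0x406287a5, 4), (0x406591a2, 4), (0x317286a5, 4), (0x407593a8, 4), (0x406287a5, 4), (0x407593a8, 4), (0x528791a6, 4), (0x406287a5, 4), (0x317286a5, 4)]⟩

def c_1254 : frmChk tA tB F_1254 = true := by decide +kernel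

def r_1254_0 : chkL rootF engF2 tA tB sA_260 sB_260 4 F_1254 [(511, 0, 0)]
    0x10e459 = true := by
  decide +kernel

theorem f_1254 (h : TabsF) : FrameF repsF 260 F_1254.f :=
  frame_of rfl c_1254 (runs_of engOK r_1254_0) (by decide +kernel) h.1 h.2

def F_1255 : FrX :=
  ⟨0x2002000900044004000e0204100014100080004080040044802000240000c0881000041010880008800401000110004081002190804480040010040c1000,
    0xa3, 1, 0x32657092a4, 5,
    [(0xa3, 1), (0x208693a5, 4), (0x10548793, 4), (0x217693a4, 4), (0x208693a5, 4), (0x10548793, 4)],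
    [(0x32657092a4, 5), (0x43628597, 4), (0x437180a6, 4), (0x435091a2, 4), (0x43628597, 4), (0x437180a6, 4)]⟩

def c_1255 : frmChk tA tA F_1255 = true := by decide +kernel

def r_1255_0 : chkL rootF engF2 tA tA sA_260 sA_260 4 F_1255 [(511, 0, 0)]
    0x42b03c0f05c270e81d09c2b2a8271982b0d8561340f05c17 = true := by
  decide +kernel

theorem f_1255 (h : TabsF) : FrameF repsF 260 F_1255.f :=
  frame_of rfl c_1255 (runs_of engOK r_1255_0) (by decide +kernel) h.1 h.1

def F_1256 : FrX :=
  ⟨0x482000044040440000c2040020009000182040010080020804000208020028830400000808010220000420404010100040204080900120044122000082,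
    0xa0, 1, 0x213242517594a6, 7,
    [(0xa0, 1), (0x538690a2, 4), (0x548790a1, 4), (0x21437690, 4), (0x538690a2, 4), (0x548790a1, 4)],
    [(0x213242517594a6, 7), (0x407298a1, 4), (0x506397a2, 4), (0x637281a9, 4), (0x506397a2, 4), (0x215487a9, 4), (0x406391a8, 4), (0x637281a9, 4), (0x406391a8, 4), (0x508192a7, 4), (0x637281a9, 4), (0x215487a9, 4)]⟩

def c_1256 : frmChk tA tB F_1256 = true := by decide +kernel

def r_1256_0 : chkL rootF engF2 tA tB sA_260 sB_260 4 F_1256 [(255, 0, 0), (256, 0, 21)]
    0x107456 = true := by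
  decide +kernel

def r_1256_1 : chkL rootF engF2 tA tB sA_260 sB_260 4 F_1256 [(256, 21, 0)]
    0x10d4350b82b09c2709c2709c27 = true := by
  decide +kernel

theorem f_1256 (h : TabsF) : FrameF repsF 260 F_1256.f :=
  frame_of rfl c_1256 ((runs_of engOK r_1256_0).append (runs_of engOK r_1256_1)) (by decide +kernel) h.1 h.2

def F_1257 : FrX :=
  ⟨0x1c21020000040440000020410001010000820408a000110000002240020404400008060008800488018014082802000a0080100110080042000a0c08000,
    0x0, 0, 0x21537387, 4,
    [(0x0, 0), (0x205386a9, 4), (0x105487a9, 4), (0x214376a9, 4), (0x205386a9, 4), (0x105487a9, 4)],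
    [(0x21537387, 4), (0x106573a9, 4), (0x204385a9, 4), (0x217486a9, 4), (0x106573a9, 4), (0x204385a9, 4)]⟩

def c_1257 : frmChk tA tA F_1257 = true := by decide +kernel

def r_1257_0 : chkL rootF engF2 tA tA sA_260 sA_260 4 F_1257 [(255, 0, 0), (256, 0, 1)]
    0x1 = true := by
  decide +kernel

def r_1257_1 : chkL rootF engF2 tA tA sA_260 sA_260 4 F_1257 [(256, 1, 1)]
    0x1 = true := by
  decide +kernel

def r_1257_2 : chkL rootF engF2 tA tA sA_260 sA_260 4 F_1257 [(256, 2, 2)]
    0x1 = true := by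
  decide +kernel

def r_1257_3 : chkL rootF engF2 tA tA sA_260 sA_260 4 F_1257 [(256, 4, 2)]
    0x40f = true := by
  decide +kernel

def r_1257_4 : chkL rootF engF2 tA tA sA_260 sA_260 4 F_1257 [(256, 6, 17)]
    0x51344d51 = true := by
  decide +kernel

def r_1257_5 : chkL rootF engF2 tA tA sA_260 sA_260 4 F_1257 [(256, 23, 8)]
    0x109c171574818d6141e581a4d293258 = true := by
  decide +kernel

def r_1257_6 : chkL rootF engF2 tA tA sA_260 sA_260 4 F_1257 [(256, 31, 2)]
    0x44e = true := by
  decide +kernel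

def r_1257_7 : chkL rootF engF2 tA tA sA_260 sA_260 4 F_1257 [(256, 33, 2)]
    0x1 = true := by
  decide +kernel

def r_1257_8 : chkL rootF engF2 tA tA sA_260 sA_260 4 F_1257 [(256, 35, 0)]
    0x1c2b09 = true := by
  decide +kernel

theorem f_1257 (h : TabsF) : FrameF repsF 260 F_1257.f :=
  frame_of rfl c_1257 ((runs_of engOK r_1257_0).append ((runs_of engOK r_1257_1).append ((runs_of engOK r_1257_2).append ((runs_of engOK r_1257_3).append ((runs_of engOK r_1257_4).append ((runs_of engOK r_1257_5).append ((runs_of engOK r_1257_6).append ((runs_of engOK r_1257_7).append (runs_of engOK r_1257_8))))))))) (by decide +kernel) h.1 h.1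

def F_1258 : FrX :=
  ⟨0x80080a000804040e00002101002001000002040890020008050000421000208110820000804041010008000401102040100081006008421140842800000,
    0xa6, 1, 0x3253617294a1, 6,
    [(0xa6, 1), (0x205396a8, 4), (0x10548796, 4), (0x214396a7, 4), (0x205396a8, 4), (0x10548796, 4)],
    [(0x3253617294a1, 6), (0x32517098, 4), (0x316492a0, 4), (0x32648591, 4), (0x316492a0, 4), (0x538291a7, 4), (0x64708195, 4), (0x32648591, 4), (0x64708195, 4), (0x218593a0, 4), (0x32648591, 4), (0x538291a7, 4)]⟩

def c_1258 : frmChk tA tB F_1258 = true := by decide +kernel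

def r_1258_0 : chkL rootF engF2 tA tB sA_260 sB_260 4 F_1258 [(511, 0, 0)]
    0x41e0cc33c884b169522586a50cca12c5a548961a9433284b169522586a50cca11d15158560b4c507427 = true := by
  decide +kernel

theorem f_1258 (h : TabsF) : FrameF repsF 260 F_1258.f :=
  frame_of rfl c_1258 (runs_of engOK r_1258_0) (by decide +kernel) h.1 h.2

def F_1259 : FrX :=
  ⟨0x2002000900044004000e02041000141000800040810002280100802402001400040022010000084204040081010408010041020003008008801110008110,
    0xa3, 1, 0x4152748296a6, 6,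
    [(0xa3, 1), (0x208693a5, 4), (0x10548793, 4), (0x217693a4, 4), (0x208693a5, 4), (0x10548793, 4)],
    [(0x4152748296a6, 6), (0x328096a5, 4), (0x40517296, 4), (0x738496a1, 4), (0x328096a5, 4), (0x40517296, 4)]⟩

def c_1259 : frmChk tA tA F_1259 = true := by decide +kernel

def r_1259_0 : chkL rootF engF2 tA tA sA_260 sA_260 4 F_1259 [(255, 0, 0), (256, 0, 16)]
    0x106c2b0e83303c0f = true := by
  decide +kernel

def r_1259_1 : chkL rootF engF2 tA tA sA_260 sA_260 4 F_1259 [(256, 16, 22)]
    0x10741b1544e = true := by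
  decide +kernel

def r_1259_2 : chkL rootF engF2 tA tA sA_260 sA_260 4 F_1259 [(256, 38, 0)]
    0x14649a = true := by
  decide +kernel

theorem f_1259 (h : TabsF) : FrameF repsF 260 F_1259.f :=
  frame_of rfl c_1259 ((runs_of engOK r_1259_0).append ((runs_of engOK r_1259_1).append (runs_of engOK r_1259_2))) (by decide +kernel) h.1 h.1

def F_1260 : FrX :=
  ⟨0x80080a000804040e00002101002001000002040882010808220004100042001040800050080005000048001010600011100181080001088880008600080,
    0xa6, 1, 0x214154647582a3, 7,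
    [(0xa6, 1), (0x205396a8, 4), (0x10548796, 4), (0x214396a7, 4), (0x205396a8, 4), (0x10548796, 4)],
    [(0x214154647582a3, 7), (0x617280a5, 4), (0x40527693, 4), (0x657293a1, 4), (0x40527693, 4), (0x657184a2, 4), (0x518093a6, 4), (0x657293a1, 4), (0x518093a6, 4), (0x406275a1, 4), (0x657293a1, 4), (0x657184a2, 4)]⟩

def c_1260 : frmChk tA tB F_1260 = true := by decide +kernel

def r_1260_0 : chkL rootF engF2 tA tB sA_260 sB_260 4 F_1260 [(511, 0, 0)]
    0x12703a2a80f12c1b078350b84b = true := by
  decide +kernel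

theorem f_1260 (h : TabsF) : FrameF repsF 260 F_1260.f :=
  frame_of rfl c_1260 (runs_of engOK r_1260_0) (by decide +kernel) h.1 h.2

def F_1261 : FrX :=
  ⟨0x482000044040440000c2040020009000182040000900808004200008000888004820120008014002020220440200108010810040200904040009000042,
    0xa0, 1, 0x32405165748097a3, 8,
    [(0xa0, 1), (0x538690a2, 4), (0x548790a1, 4), (0x21437690, 4), (0x538690a2, 4), (0x548790a1, 4)],
    [(0x32405165748097a3, 8), (0x204183a6, 4), (0x20768594, 4), (0x205391a7, 4), (0x204183a6, 4), (0x20768594, 4)]⟩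

def c_1261 : frmChk tA tA F_1261 = true := by decide +kernel

def r_1261_0 : chkL rootF engF2 tA tA sA_260 sA_260 4 F_1261 [(255, 0, 0), (256, 0, 19)]
    0x4963902e03c1b0781d0782d1964a1944e1a41b4a5230e41d = true := by
  decide +kernel

def r_1261_1 : chkL rootF engF2 tA tA sA_260 sA_260 4 F_1261 [(256, 19, 0)]
    0x142d2903e860e41b1381e5500f06c392706312ce4cc125 = true := by
  decide +kernel

theorem f_1261 (h : TabsF) : FrameF repsF 260 F_1261.f :=
  frame_of rfl c_1261 ((runs_of engOK r_1261_0).append (runs_of engOK r_1261_1)) (by decide +kernel) h.1 h.1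

def F_1262 : FrX :=
  ⟨0x80080a000804040e000021010020010000020408a00002080c0400420821000010500000022081008088001000482408140000040400110101002640080,
    0xa6, 1, 0x3040506084a3, 6,
    [(0xa6, 1), (0x205396a8, 4), (0x10548796, 4), (0x214396a7, 4), (0x205396a8, 4), (0x10548796, 4)],
    [(0x3040506084a3, 6), (0x627483a5, 4), (0x61758490, 4), (0x748590a3, 4), (0x61758490, 4), (0x214385a7, 4), (0x536290a8, 4), (0x748590a3, 4), (0x536290a8, 4), (0x546187a3, 4), (0x748590a3, 4), (0x214385a7, 4)]⟩

def c_1262 : frmChk tA tB F_1262 = true := by decide +kernel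

def r_1262_0 : chkL rootF engF2 tA tB sA_260 sB_260 4 F_1262 [(255, 0, 0), (256, 0, 24)]
    0x11c41e1c40f0ac0f9c0650f0d10782709cd112c5a0748d14cc33441b = true := by
  decide +kernel

def r_1262_1 : chkL rootF engF2 tA tB sA_260 sB_260 4 F_1262 [(256, 24, 0)]
    0x10f06a03c0f05c0f6606c = true := by
  decide +kernel

theorem f_1262 (h : TabsF) : FrameF repsF 260 F_1262.f :=
  frame_of rfl c_1262 ((runs_of engOK r_1262_0).append (runs_of engOK r_1262_1)) (by decide +kernel) h.1 h.2

def F_1263 : FrX :=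
  ⟨0x2002000900044004000e0204100014100080004080800100110088020022400140010012000005400a20020a040000140081010001201000040808010290,
    0xa3, 1, 0x3141608098a2, 6,
    [(0xa3, 1), (0x208693a5, 4), (0x10548793, 4), (0x217693a4, 4), (0x208693a5, 4), (0x10548793, 4)],
    [(0x3141608098a2, 6), (0x516290a8, 4), (0x53628497, 4), (0x316270a4, 4), (0x516290a8, 4), (0x53628497, 4)]⟩

def c_1263 : frmChk tA tA F_1263 = true := by decide +kernel

def r_1263_0 : chkL rootF engF2 tA tA sA_260 sA_260 4 F_1263 [(255, 0, 0), (256, 0, 23)]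
    0x41ba0f820762505c1b138398a42b2980f03e07a180f03e860ac2e = true := by
  decide +kernel

def r_1263_1 : chkL rootF engF2 tA tA sA_260 sA_260 4 F_1263 [(256, 23, 0)]
    0x10b90e06ce22700f06c1b = true := by
  decide +kernel

theorem f_1263 (h : TabsF) : FrameF repsF 260 F_1263.f :=
  frame_of rfl c_1263 ((runs_of engOK r_1263_0).append (runs_of engOK r_1263_1)) (by decide +kernel) h.1 h.1

def F_1264 : FrX :=
  ⟨0x2002000900044004000e0204100014100080004080100208005002020080202200002222000202000c08002d00040000a084022000484010002080040050,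
    0xa3, 1, 0x105465728591a0, 7,
    [(0xa3, 1), (0x208693a5, 4), (0x10548793, 4), (0x217693a4, 4), (0x208693a5, 4), (0x10548793, 4)],
    [(0x105465728591a0, 7), (0x436582a7, 4), (0x104285a9, 4), (0x10546382, 4), (0x104285a9, 4), (0x32548697, 4), (0x105364a7, 4), (0x10546382, 4), (0x105364a7, 4), (0x526384a9, 4), (0x10546382, 4), (0x32548697, 4)]⟩

def c_1264 : frmChk tA tB F_1264 = true := by decide +kernel

def r_1264_0 : chkL rootF engF2 tA tB sA_260 sB_260 4 F_1264 [(511, 0, 0)]
    0x4173183603c0f0d83a239382e0cc42d4a0e447 = true := by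
  decide +kernel

theorem f_1264 (h : TabsF) : FrameF repsF 260 F_1264.f :=
  frame_of rfl c_1264 (runs_of engOK r_1264_0) (by decide +kernel) h.1 h.2

def F_1265 : FrX :=
  ⟨0x1c21020000040440000020410001010000820408a000110000008210020210100020404002404108088000c888020040380000011001002400300440200,
    0x0, 0, 0x43536584, 4,
    [(0x0, 0), (0x205386a9, 4), (0x105487a9, 4), (0x214376a9, 4), (0x205386a9, 4), (0x105487a9, 4)],
    [(0x43536584, 4), (0x20547683, 4), (0x107486a9, 4), (0x537684a9, 4), (0x107486a9, 4), (0x21637584, 4), (0x204385a9, 4), (0x537684a9, 4), (0x204385a9, 4), (0x10536487, 4), (0x537684a9, 4), (0x21637584, 4)]⟩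

def c_1265 : frmChk tA tB F_1265 = true := by decide +kernel

def r_1265_0 : chkL rootF engF2 tA tB sA_260 sB_260 4 F_1265 [(255, 0, 0), (256, 0, 4)]
    0x43c = true := by
  decide +kernel

def r_1265_1 : chkL rootF engF2 tA tB sA_260 sB_260 4 F_1265 [(256, 4, 15)]
    0x1 = true := by
  decide +kernel

def r_1265_2 : chkL rootF engF2 tA tB sA_260 sB_260 4 F_1265 [(256, 19, 7)]
    0x1 = true := by
  decide +kernel

def r_1265_3 : chkL rootF engF2 tA tB sA_260 sB_260 4 F_1265 [(256, 26, 3)]
    0x1 = true := by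
  decide +kernel

def r_1265_4 : chkL rootF engF2 tA tB sA_260 sB_260 4 F_1265 [(256, 29, 3)]
    0x1 = true := by
  decide +kernel

def r_1265_5 : chkL rootF engF2 tA tB sA_260 sB_260 4 F_1265 [(256, 32, 4)]
    0x1 = true := by
  decide +kernel

def r_1265_6 : chkL rootF engF2 tA tB sA_260 sB_260 4 F_1265 [(256, 36, 0)]
    0x6a428c5cd4066 = true := by
  decide +kernel

theorem f_1265 (h : TabsF) : FrameF repsF 260 F_1265.f :=
  frame_of rfl c_1265 ((runs_of engOK r_1265_0).append ((runs_of engOK r_1265_1).append ((runs_of engOK r_1265_2).append ((runs_of engOK r_1265_3).append ((runs_of engOK r_1265_4).append ((runs_of engOK r_1265_5).append (runs_of engOK r_1265_6))))))) (by decide +kernel) h.1 h.2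

def F_1266 : FrX :=
  ⟨0x482000044040440000c2040020009000182040002102000100880200004062020600001024000400800040888020c0000800010a004406020210008084,
    0xa0, 1, 0x30435464768095a6, 8,
    [(0xa0, 1), (0x538690a2, 4), (0x548790a1, 4), (0x21437690, 4), (0x538690a2, 4), (0x548790a1, 4)],
    [(0x30435464768095a6, 8), (0x708294a3, 4), (0x53708196, 4), (0x216470a5, 4), (0x708294a3, 4), (0x53708196, 4)]⟩

def c_1266 : frmChk tA tA F_1266 = true := by decide +kernel

def r_1266_0 : chkL rootF engF2 tA tA sA_260 sA_260 4 F_1266 [(511, 0, 0)]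
    0x181e0e0ac1725417c840f = true := by
  decide +kernel

theorem f_1266 (h : TabsF) : FrameF repsF 260 F_1266.f :=
  frame_of rfl c_1266 (runs_of engOK r_1266_0) (by decide +kernel) h.1 h.1

def F_1267 : FrX :=
  ⟨0x482000044040440000c2040020009000182040010080080101000808020110084c00000804040410000220408010400010804110210080014220008084,
    0xa0, 1, 0x3252628594a6, 6,
    [(0xa0, 1), (0x538690a2, 4), (0x548790a1, 4), (0x21437690, 4), (0x538690a2, 4), (0x548790a1, 4)],
    [(0x3252628594a6, 6), (0x608793a2, 4), (0x105498a7, 4), (0x325487a9, 4), (0x105498a7, 4), (0x617283a9, 4), (0x546092a3, 4), (0x325487a9, 4), (0x546092a3, 4), (0x103297a8, 4), (0x325487a9, 4), (0x617283a9, 4)]⟩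

def c_1267 : frmChk tA tB F_1267 = true := by decide +kernel

def r_1267_0 : chkL rootF engF2 tA tB sA_260 sB_260 4 F_1267 [(511, 0, 0)]
    0x43c05c1e12c390e41712c170d45905c1e0781e0f00f0e92988f22c864590e43 = true := by
  decide +kernel

theorem f_1267 (h : TabsF) : FrameF repsF 260 F_1267.f :=
  frame_of rfl c_1267 (runs_of engOK r_1267_0) (by decide +kernel) h.1 h.2

def F_1268 : FrX :=
  ⟨0x482000044040440000c2040020009000182040000880880000c0480001040022040004110101012000084080a010840000081084100200011202000090,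
    0xa0, 1, 0x3161738095a0, 6,
    [(0xa0, 1), (0x538690a2, 4), (0x548790a1, 4), (0x21437690, 4), (0x538690a2, 4), (0x548790a1, 4)],
    [(0x3161738095a0, 6), (0x308597a2, 4), (0x108594a6, 4), (0x31627485, 4), (0x308597a2, 4), (0x108594a6, 4)]⟩

def c_1268 : frmChk tA tA F_1268 = true := by decide +kernel

def r_1268_0 : chkL rootF engF2 tA tA sA_260 sA_260 4 F_1268 [(511, 0, 0)]
    0x43cac09a6486c = true := by
  decide +kernel

theorem f_1268 (h : TabsF) : FrameF repsF 260 F_1268.f :=
  frame_of rfl c_1268 (runs_of engOK r_1268_0) (by decide +kernel) h.1 h.1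

def F_1269 : FrX :=
  ⟨0x80080a000804040e000021010020010000020408806000044040888000800820200204014000800208008008800500800001901600180820020c0800010,
    0xa6, 1, 0x213142507198a7, 7,
    [(0xa6, 1), (0x205396a8, 4), (0x10548796, 4), (0x214396a7, 4), (0x205396a8, 4), (0x10548796, 4)],
    [(0x213142507198a7, 7), (0x546291a0, 4), (0x107583a6, 4), (0x618392a0, 4), (0x107583a6, 4), (0x617490a2, 4), (0x21548396, 4), (0x618392a0, 4), (0x21548396, 4), (0x607592a1, 4), (0x618392a0, 4), (0x617490a2, 4)]⟩

def c_1269 : frmChk tA tB F_1269 = true := by decide +kernel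

def r_1269_0 : chkL rootF engF2 tA tB sA_260 sB_260 4 F_1269 [(255, 0, 0), (256, 0, 22)]
    0x10e84716495 = true := by
  decide +kernel

def r_1269_1 : chkL rootF engF2 tA tB sA_260 sB_260 4 F_1269 [(256, 22, 0)]
    0x117047 = true := by
  decide +kernel

theorem f_1269 (h : TabsF) : FrameF repsF 260 F_1269.f :=
  frame_of rfl c_1269 ((runs_of engOK r_1269_0).append (runs_of engOK r_1269_1)) (by decide +kernel) h.1 h.2

def F_1270 : FrX :=
  ⟨0x600020801080810000c004018041010100100401010000440000422010406208040000080081020040410088003803000008500400000c004400210028,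
    0xa0, 1, 0x215460758796a5, 7,
    [(0xa0, 1), (0x637584a2, 4), (0x547690a1, 4), (0x64758390, 4), (0x547690a1, 4), (0x21647385, 4), (0x438690a2, 4), (0x64758390, 4), (0x438690a2, 4), (0x657483a1, 4), (0x64758390, 4), (0x21647385, 4)],
    [(0x215460758796a5, 7), (0x617094a3, 4), (0x627084a5, 4), (0x21537098, 4), (0x617094a3, 4), (0x627084a5, 4)]⟩

def c_1270 : frmChk tB tA F_1270 = true := by decide +kernel

def r_1270_0 : chkL rootF engF2 tB tA sB_260 sA_260 4 F_1270 [(511, 0, 0)]
    0x10e42d11c17 = true := by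
  decide +kernel

theorem f_1270 (h : TabsF) : FrameF repsF 260 F_1270.f :=
  frame_of rfl c_1270 (runs_of engOK r_1270_0) (by decide +kernel) h.2 h.1

def F_1271 : FrX :=
  ⟨0x600020801080810000c0040180410101001004008040404000402808121000080400082030040208010010a020380002400008100000400140210a0020,
    0xa0, 1, 0x405062758690a6, 7,
    [(0xa0, 1), (0x637584a2, 4), (0x547690a1, 4), (0x64758390, 4), (0x547690a1, 4), (0x21647385, 4), (0x438690a2, 4), (0x64758390, 4), (0x438690a2, 4), (0x657483a1, 4), (0x64758390, 4), (0x21647385, 4)],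
    [(0x405062758690a6, 7), (0x207496a3, 4), (0x708591a4, 4), (0x327485a0, 4), (0x708591a4, 4), (0x436172a0, 4), (0x308596a2, 4), (0x327485a0, 4), (0x308596a2, 4), (0x324091a7, 4), (0x327485a0, 4), (0x436172a0, 4)]⟩

def c_1271 : frmChk tB tB F_1271 = true := by decide +kernel

def r_1271_0 : chkL rootF engF2 tB tB sB_260 sB_260 4 F_1271 [(511, 0, 0)]
    0x10b463 = true := by
  decide +kernel

theorem f_1271 (h : TabsF) : FrameF repsF 260 F_1271.f :=
  frame_of rfl c_1271 (runs_of engOK r_1271_0) (by decide +kernel) h.2 h.2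

def F_1272 : FrX :=
  ⟨0x600020801080810000c0040180410101001004004040820000400c0412100004040010202004020801000020303800024000880040004001401d080040,
    0xa0, 1, 0x314054647390a8, 7,
    [(0xa0, 1), (0x637584a2, 4), (0x547690a1, 4), (0x64758390, 4), (0x547690a1, 4), (0x21647385, 4), (0x438690a2, 4), (0x64758390, 4), (0x438690a2, 4), (0x657483a1, 4), (0x64758390, 4), (0x21647385, 4)],
    [(0x314054647390a8, 7), (0x708492a5, 4), (0x608493a1, 4), (0x32517684, 4), (0x708492a5, 4), (0x608493a1, 4)]⟩

def c_1272 : frmChk tB tA F_1272 = true := by decide +kernel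

def r_1272_0 : chkL rootF engF2 tB tA sB_260 sA_260 4 F_1272 [(511, 0, 0)]
    0x42e = true := by
  decide +kernel

theorem f_1272 (h : TabsF) : FrameF repsF 260 F_1272.f :=
  frame_of rfl c_1272 (runs_of engOK r_1272_0) (by decide +kernel) h.2 h.1

def F_1273 : FrX :=
  ⟨0x1001040012008080000e0084080041000810100004200802402001000408009004820200168100082000000600180042000020c20202400008a009000040,
    0xa3, 1, 0x1062718095a4, 6,
    [(0xa3, 1), (0x207584a6, 4), (0x10547693, 4), (0x647593a8, 4), (0x10547693, 4), (0x216485a7, 4), (0x208693a4, 4), (0x647593a8, 4), (0x208693a4, 4), (0x106574a8, 4), (0x647593a8, 4), (0x216485a7, 4)],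
    [(0x1062718095a4, 6), (0x328690a1, 4), (0x205487a9, 4), (0x315490a2, 4), (0x205487a9, 4), (0x307691a2, 4), (0x215486a3, 4), (0x315490a2, 4), (0x215486a3, 4), (0x318792a0, 4), (0x315490a2, 4), (0x307691a2, 4)]⟩

def c_1273 : frmChk tB tB F_1273 = true := by decide +kernel

def r_1273_0 : chkL rootF engF2 tB tB sB_260 sB_260 4 F_1273 [(511, 0, 0)]
    0x7883c017 = true := by
  decide +kernel

theorem f_1273 (h : TabsF) : FrameF repsF 260 F_1273.f :=
  frame_of rfl c_1273 (runs_of engOK r_1273_0) (by decide +kernel) h.2 h.2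

def F_1274 : FrX :=
  ⟨0x482000044040440000c2040020009000182040004200020804080004180088200022001028401820100010404020008008008202000182100202010082,
    0xa0, 1, 0x21415161728791a2, 8,
    [(0xa0, 1), (0x538690a2, 4), (0x548790a1, 4), (0x21437690, 4), (0x538690a2, 4), (0x548790a1, 4)],
    [(0x21415161728791a2, 8), (0x215384a0, 4), (0x42768590, 4), (0x31527684, 4), (0x42768590, 4), (0x415283a9, 4), (0x325176a0, 4), (0x31527684, 4), (0x325176a0, 4), (0x31548290, 4), (0x31527684, 4), (0x415283a9, 4)]⟩

def c_1274 : frmChk tA tB F_1274 = true := by decide +kernel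

def r_1274_0 : chkL rootF engF2 tA tB sA_260 sB_260 4 F_1274 [(511, 0, 0)]
    0x41b03c2e03c4703c1e = true := by
  decide +kernel

theorem f_1274 (h : TabsF) : FrameF repsF 260 F_1274.f :=
  frame_of rfl c_1274 (runs_of engOK r_1274_0) (by decide +kernel) h.1 h.2

def F_1275 : FrX :=
  ⟨0x482000044040440000c2040020009000182040001042020001020800020808010400500d400004802010002030104000000c820a040400100a00800040,
    0xa0, 1, 0x10315263718394a6, 8,
    [(0xa0, 1), (0x538690a2, 4), (0x548790a1, 4), (0x21437690, 4), (0x538690a2, 4), (0x548790a1, 4)],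
    [(0x10315263718394a6, 8), (0x405182a6, 4), (0x40637192, 4), (0x407598a3, 4), (0x405182a6, 4), (0x40637192, 4)]⟩

def c_1275 : frmChk tA tA F_1275 = true := by decide +kernel

def r_1275_0 : chkL rootF engF2 tA tA sA_260 sA_260 4 F_1275 [(511, 0, 0)]
    0x12c84d64549625230e88b = true := by
  decide +kernel

theorem f_1275 (h : TabsF) : FrameF repsF 260 F_1275.f :=
  frame_of rfl c_1275 (runs_of engOK r_1275_0) (by decide +kernel) h.1 h.1

def F_1276 : FrX :=
  ⟨0x482000044040440000c20400200090001820400100130400008008100804020080804100c002010200000050901000201024a008100200640200800001,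
    0xa0, 1, 0x103140526382a3, 7,
    [(0xa0, 1), (0x538690a2, 4), (0x548790a1, 4), (0x21437690, 4), (0x538690a2, 4), (0x548790a1, 4)],
    [(0x103140526382a3, 7), (0x517284a0, 4), (0x21437096, 4), (0x107296a5, 4), (0x21437096, 4), (0x105283a7, 4), (0x508496a1, 4), (0x107296a5, 4), (0x508496a1, 4), (0x204371a5, 4), (0x107296a5, 4), (0x105283a7, 4)]⟩

def c_1276 : frmChk tA tB F_1276 = true := by decide +kernel

def r_1276_0 : chkL rootF engF2 tA tB sA_260 sB_260 4 F_1276 [(511, 0, 0)]
    0x105c1e0792a06c2b06c6318f03497214692a11c470e43a1389a0d44e44d940b43a0f02d = true := by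
  decide +kernel

theorem f_1276 (h : TabsF) : FrameF repsF 260 F_1276.f :=
  frame_of rfl c_1276 (runs_of engOK r_1276_0) (by decide +kernel) h.1 h.2

def F_1277 : FrX :=
  ⟨0x1001040012008080000e0084080041000810100004400802080108402200200014200004210000422041000808301040001000800a0004080808090800c0,
    0xa3, 1, 0x30425162758094a0, 8,
    [(0xa3, 1), (0x207584a6, 4), (0x10547693, 4), (0x647593a8, 4), (0x10547693, 4), (0x216485a7, 4), (0x208693a4, 4), (0x647593a8, 4), (0x208693a4, 4), (0x106574a8, 4), (0x647593a8, 4), (0x216485a7, 4)],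
    [(0x30425162758094a0, 8), (0x437082a6, 4), (0x318297a5, 4), (0x41658290, 4), (0x437082a6, 4), (0x318297a5, 4)]⟩

def c_1277 : frmChk tB tA F_1277 = true := by decide +kernel

def r_1277_0 : chkL rootF engF2 tB tA sB_260 sA_260 4 F_1277 [(255, 0, 0), (256, 0, 21)]
    0x105c0f0741d = true := by
  decide +kernel

def r_1277_1 : chkL rootF engF2 tB tA sB_260 sA_260 4 F_1277 [(256, 21, 0)]
    0x45922c55 = true := by
  decide +kernel

theorem f_1277 (h : TabsF) : FrameF repsF 260 F_1277.f :=
  frame_of rfl c_1277 ((runs_of engOK r_1277_0).append (runs_of engOK r_1277_1)) (by decide +kernel) h.2 h.1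

def F_1278 : FrX :=
  ⟨0x1001040012008080000e00840800410008101000040808024408028000220010080002042200022000200032020408100040004011802011100802900100,
    0xa3, 1, 0x103042527581a3, 7,
    [(0xa3, 1), (0x207584a6, 4), (0x10547693, 4), (0x647593a8, 4), (0x10547693, 4), (0x216485a7, 4), (0x208693a4, 4), (0x647593a8, 4), (0x208693a4, 4), (0x106574a8, 4), (0x647593a8, 4), (0x216485a7, 4)],
    [(0x103042527581a3, 7), (0x205374a6, 4), (0x64728391, 4), (0x627491a0, 4), (0x64728391, 4), (0x627085a4, 4), (0x536091a2, 4), (0x627491a0, 4), (0x536091a2, 4), (0x427683a0, 4), (0x627491a0, 4), (0x627085a4, 4)]⟩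

def c_1278 : frmChk tB tB F_1278 = true := by decide +kernel

def r_1278_0 : chkL rootF engF2 tB tB sB_260 sB_260 4 F_1278 [(511, 0, 0)]
    0x41703c35 = true := by
  decide +kernel

theorem f_1278 (h : TabsF) : FrameF repsF 260 F_1278.f :=
  frame_of rfl c_1278 (runs_of engOK r_1278_0) (by decide +kernel) h.2 h.2

def F_1279 : FrX :=
  ⟨0x2002000900044004000e02041000141000800040804004090120002008020a002200080101004042040441008000000110410200022010002202a0008084,
    0xa3, 1, 0x32546185a4, 5,
    [(0xa3, 1), (0x208693a5, 4), (0x10548793, 4), (0x217693a4, 4), (0x208693a5, 4), (0x10548793, 4)],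
    [(0x32546185a4, 5), (0x213087a4, 4), (0x607195a8, 4), (0x428795a1, 4), (0x607195a8, 4), (0x637284a1, 4), (0x304195a2, 4), (0x428795a1, 4), (0x304195a2, 4), (0x426081a7, 4), (0x428795a1, 4), (0x637284a1, 4)]⟩

def c_1279 : frmChk tA tB F_1279 = true := by decide +kernel

def r_1279_0 : chkL rootF engF2 tA tB sA_260 sB_260 4 F_1279 [(511, 0, 0)]
    0x1 = true := by
  decide +kernel

theorem f_1279 (h : TabsF) : FrameF repsF 260 F_1279.f :=
  frame_of rfl c_1279 (runs_of engOK r_1279_0) (by decide +kernel) h.1 h.2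

theorem cl_260 (h : TabsF) : ∀ f ∈ fr_260, FrameF repsF 260 f :=
  List.forall_mem_cons.2 ⟨f_1252 h, List.forall_mem_cons.2 ⟨f_1253 h, List.forall_mem_cons.2 ⟨f_1254 h, List.forall_mem_cons.2 ⟨f_1255 h, List.forall_mem_cons.2 ⟨f_1256 h, List.forall_mem_cons.2 ⟨f_1257 h, List.forall_mem_cons.2 ⟨f_1258 h, List.forall_mem_cons.2 ⟨f_1259 h, List.forall_mem_cons.2 ⟨f_1260 h, List.forall_mem_cons.2 ⟨f_1261 h, List.forall_mem_cons.2 ⟨f_1262 h, List.forall_mem_cons.2 ⟨f_1263 h, List.forall_mem_cons.2 ⟨f_1264 h, List.forall_mem_cons.2 ⟨f_1265 h, List.forall_mem_cons.2 ⟨f_1266 h, List.forall_mem_cons.2 ⟨f_1267 h, List.forall_mem_cons.2 ⟨f_1268 h, List.forall_mem_cons.2 ⟨f_1269 h, List.forall_mem_cons.2 ⟨f_1270 h, List.forall_mem_cons.2 ⟨f_1271 h, List.forall_mem_cons.2 ⟨f_1272 h, List.forall_mem_cons.2 ⟨f_1273 h, List.forall_mem_cons.2 ⟨f_1274 h, List.forall_mem_cons.2 ⟨f_1275 h, List.forall_mem_cons.2 ⟨f_1276 h, List.forall_mem_cons.2 ⟨f_1277 h, List.forall_mem_cons.2 ⟨f_1278 h, List.forall_mem_cons.2 ⟨f_1279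 h,
    fun _ h0 => absurd h0 List.not_mem_nil⟩⟩⟩⟩⟩⟩⟩⟩⟩⟩⟩⟩⟩⟩⟩⟩⟩⟩⟩⟩⟩⟩⟩⟩⟩⟩⟩⟩

def F_1280 : FrX :=
  ⟨0x1001040012008080000e00840800410008101000040480020820008200020030030004801200080880044006401000420080084400824000044021000280,
    0xa3, 1, 0x10213143738297a0, 8,
    [(0xa3, 1), (0x207584a6, 4), (0x10547693, 4), (0x647593a8, 4), (0x10547693, 4), (0x216485a7, 4), (0x208693a4, 4), (0x647593a8, 4), (0x208693a4, 4), (0x106574a8, 4), (0x647593a8, 4), (0x216485a7, 4)],
    [(0x10213143738297a0, 8), (0x416075a8, 4), (0x415290a3, 4), (0x41728396, 4), (0x416075a8, 4), (0x415290a3, 4)]⟩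

def c_1280 : frmChk tB tA F_1280 = true := by decide +kernel

def r_1280_0 : chkL rootF engF2 tB tA sB_261 sA_261 4 F_1280 [(255, 0, 0), (256, 0, 20)]
    0x4c903c1b834699a027 = true := by
  decide +kernel

def r_1280_1 : chkL rootF engF2 tB tA sB_261 sA_261 4 F_1280 [(256, 20, 0)]
    0x107435465194681b074390e43618c950e40f = true := by
  decide +kernel

theorem f_1280 (h : TabsF) : FrameF repsF 261 F_1280.f :=
  frame_of rfl c_1280 ((runs_of engOK r_1280_0).append (runs_of engOK r_1280_1)) (by decide +kernel) h.2 h.1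

def F_1281 : FrX :=
  ⟨0x1001040012008080000e00840800410008101000060180000840050020100084800100800040180801041402040010202080080110100488100100040084,
    0xa3, 1, 0x42507381a3, 5,
    [(0xa3, 1), (0x207584a6, 4), (0x10547693, 4), (0x647593a8, 4), (0x10547693, 4), (0x216485a7, 4), (0x208693a4, 4), (0x647593a8, 4), (0x208693a4, 4), (0x106574a8, 4), (0x647593a8, 4), (0x216485a7, 4)],
    [(0x42507381a3, 5), (0x213054a6, 4), (0x20638597, 4), (0x306297a1, 4), (0x20638597, 4), (0x106284a3, 4), (0x546197a2, 4), (0x306297a1, 4), (0x546197a2, 4), (0x326085a1, 4), (0x306297a1, 4), (0x106284a3, 4)]⟩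

def c_1281 : frmChk tB tB F_1281 = true := by decide +kernel

def r_1281_0 : chkL rootF engF2 tB tB sB_261 sB_261 4 F_1281 [(255, 0, 0), (256, 0, 5)]
    0x631ca189 = true := by
  decide +kernel

def r_1281_1 : chkL rootF engF2 tB tB sB_261 sB_261 4 F_1281 [(256, 5, 10)]
    0x119847 = true := by
  decide +kernel

def r_1281_2 : chkL rootF engF2 tB tB sB_261 sB_261 4 F_1281 [(256, 15, 10)]
    0x1258471a43a = true := by
  decide +kernel

def r_1281_3 : chkL rootF engF2 tB tB sB_261 sB_261 4 F_1281 [(256, 25, 6)]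
    0x42b07833 = true := by
  decide +kernel

def r_1281_4 : chkL rootF engF2 tB tB sB_261 sB_261 4 F_1281 [(256, 31, 10)]
    0x1158690e625a0c172a827 = true := by
  decide +kernel

def r_1281_5 : chkL rootF engF2 tB tB sB_261 sB_261 4 F_1281 [(256, 41, 0)]
    0x1 = true := by
  decide +kernel

theorem f_1281 (h : TabsF) : FrameF repsF 261 F_1281.f :=
  frame_of rfl c_1281 ((runs_of engOK r_1281_0).append ((runs_of engOK r_1281_1).append ((runs_of engOK r_1281_2).append ((runs_of engOK r_1281_3).append ((runs_of engOK r_1281_4).append (runs_of engOK r_1281_5)))))) (by decide +kernel) h.2 h.2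

def F_1282 : FrX :=
  ⟨0x1001040012008080000e008408004100081010000502000480410081000800424200002021202000082100101008104000100a0480881080060000800280,
    0xa3, 1, 0x10425060718290a0, 8,
    [(0xa3, 1), (0x207584a6, 4), (0x10547693, 4), (0x647593a8, 4), (0x10547693, 4), (0x216485a7, 4), (0x208693a4, 4), (0x647593a8, 4), (0x208693a4, 4), (0x106574a8, 4), (0x647593a8, 4), (0x216485a7, 4)],
    [(0x10425060718290a0, 8), (0x315496a8, 4), (0x214096a7, 4), (0x32508796, 4), (0x315496a8, 4), (0x214096a7, 4)]⟩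

def c_1282 : frmChk tB tA F_1282 = true := by decide +kernel

def r_1282_0 : chkL rootF engF2 tB tA sB_261 sA_261 4 F_1282 [(255, 0, 0), (256, 0, 22)]
    0x119515d05434599806c1d1e0f00d90e48c1d06e26c911a5241e = true := by
  decide +kernel

def r_1282_1 : chkL rootF engF2 tB tA sB_261 sA_261 4 F_1282 [(256, 22, 0)]
    0x1524350ac171982728c4d0781b05c65 = true := by
  decide +kernel

theorem f_1282 (h : TabsF) : FrameF repsF 261 F_1282.f :=
  frame_of rfl c_1282 ((runs_of engOK r_1282_0).append (runs_of engOK r_1282_1)) (by decide +kernel) h.2 h.1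

def F_1283 : FrX :=
  ⟨0x1001040012008080000e008408004100081010000408242080200081000800204400401009004020002100101204000c0848888000804404010002001010,
    0xa3, 1, 0x325162738692a2, 7,
    [(0xa3, 1), (0x207584a6, 4), (0x10547693, 4), (0x647593a8, 4), (0x10547693, 4), (0x216485a7, 4), (0x208693a4, 4), (0x647593a8, 4), (0x208693a4, 4), (0x106574a8, 4), (0x647593a8, 4), (0x216485a7, 4)],
    [(0x325162738692a2, 7), (0x214387a0, 4), (0x41508296, 4), (0x21738496, 4), (0x41508296, 4), (0x317284a5, 4), (0x748396a0, 4), (0x21738496, 4), (0x748396a0, 4), (0x42507381, 4), (0x21738496, 4), (0x317284a5, 4)]⟩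

def c_1283 : frmChk tB tB F_1283 = true := by decide +kernel

def r_1283_0 : chkL rootF engF2 tB tB sB_261 sB_261 4 F_1283 [(255, 0, 0), (256, 0, 21)]
    0x42d0ac1b05c1b06c5506c0f03c0f0d42d0f01b03c660ac0f9280f9281b = true := by
  decide +kernel

def r_1283_1 : chkL rootF engF2 tB tB sB_261 sB_261 4 F_1283 [(256, 21, 0)]
    0x10b42b03c350f01709c470b40f03c270b45612c27 = true := by
  decide +kernel

theorem f_1283 (h : TabsF) : FrameF repsF 261 F_1283.f :=
  frame_of rfl c_1283 ((runs_of engOK r_1283_0).append (runs_of engOK r_1283_1)) (by decide +kernel) h.2 h.2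

def F_1284 : FrX :=
  ⟨0x600020801080810000c0040180410101001004002020500000090006000a000208280012000081840040005011080a0010000c40004004000c02140004,
    0xa0, 1, 0x203242658092a6, 7,
    [(0xa0, 1), (0x637584a2, 4), (0x547690a1, 4), (0x64758390, 4), (0x547690a1, 4), (0x21647385, 4), (0x438690a2, 4), (0x64758390, 4), (0x438690a2, 4), (0x657483a1, 4), (0x64758390, 4), (0x21647385, 4)],
    [(0x203242658092a6, 7), (0x546098a2, 4), (0x54637281, 4), (0x305491a7, 4), (0x546098a2, 4), (0x54637281, 4)]⟩

def c_1284 : frmChk tB tA F_1284 = true := by decide +kernel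

def r_1284_0 : chkL rootF engF2 tB tA sB_261 sA_261 4 F_1284 [(255, 0, 0), (256, 0, 20)]
    0x40f560960d45605c2703c1e0ac1e07817 = true := by
  decide +kernel

def r_1284_1 : chkL rootF engF2 tB tA sB_261 sA_261 4 F_1284 [(256, 20, 21)]
    0x10d80f05c1e03c172d0a60781e0cc33 = true := by
  decide +kernel

def r_1284_2 : chkL rootF engF2 tB tA sB_261 sA_261 4 F_1284 [(256, 41, 0)]
    0x417 = true := by
  decide +kernel

theorem f_1284 (h : TabsF) : FrameF repsF 261 F_1284.f :=
  frame_of rfl c_1284 ((runs_of engOK r_1284_0).append ((runs_of engOK r_1284_1).append (runs_of engOK r_1284_2))) (by decide +kernel) h.2 h.1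

def F_1285 : FrX :=
  ⟨0x600020801080810000c0040180410101001004000880880000028402000420040822008200808120202000401108080840008000804040010091008300,
    0xa0, 1, 0x103150748291a0, 7,
    [(0xa0, 1), (0x637584a2, 4), (0x547690a1, 4), (0x64758390, 4), (0x547690a1, 4), (0x21647385, 4), (0x438690a2, 4), (0x64758390, 4), (0x438690a2, 4), (0x657483a1, 4), (0x64758390, 4), (0x21647385, 4)],
    [(0x103150748291a0, 7), (0x105362a8, 4), (0x425371a9, 4), (0x53647098, 4), (0x105362a8, 4), (0x425371a9, 4)]⟩

def c_1285 : frmChk tB tA F_1285 = true := by decide +kernel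

def r_1285_0 : chkL rootF engF2 tB tA sB_261 sA_261 4 F_1285 [(511, 0, 0)]
    0x106c2b0b85a0d8651d0170d835 = true := by
  decide +kernel

theorem f_1285 (h : TabsF) : FrameF repsF 261 F_1285.f :=
  frame_of rfl c_1285 (runs_of engOK r_1285_0) (by decide +kernel) h.2 h.1

def F_1286 : FrX :=
  ⟨0x600020801080810000c004018041010100100400084024100040080820a00008080008089800200008020018801020200020011000044000a220408500,
    0xa0, 1, 0x2141627684a0, 6,
    [(0xa0, 1), (0x637584a2, 4), (0x547690a1, 4), (0x64758390, 4), (0x547690a1, 4), (0x21647385, 4), (0x438690a2, 4), (0x64758390, 4), (0x438690a2, 4), (0x657483a1, 4), (0x64758390, 4), (0x21647385, 4)],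
    [(0x2141627684a0, 6), (0x517382a6, 4), (0x718590a4, 4), (0x32518790, 4), (0x718590a4, 4), (0x31526487, 4), (0x728390a6, 4), (0x32518790, 4), (0x728390a6, 4), (0x327581a4, 4), (0x32518790, 4), (0x31526487, 4)]⟩

def c_1286 : frmChk tB tB F_1286 = true := by decide +kernel

def r_1286_0 : chkL rootF engF2 tB tB sB_261 sB_261 4 F_1286 [(511, 0, 0)]
    0x41b5281b9848b0741d0d8275441b14c4b14d43 = true := by
  decide +kernel

theorem f_1286 (h : TabsF) : FrameF repsF 261 F_1286.f :=
  frame_of rfl c_1286 (runs_of engOK r_1286_0) (by decide +kernel) h.2 h.2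

def F_1287 : FrX :=
  ⟨0x2002000900044004000e020410001410008000408009090040084000082004001000c401002c00041400020040004800020400802220000042902a024000,
    0xa3, 1, 0x1050627286a2, 6,
    [(0xa3, 1), (0x208693a5, 4), (0x10548793, 4), (0x217693a4, 4), (0x208693a5, 4), (0x10548793, 4)],
    [(0x1050627286a2, 6), (0x318297a5, 4), (0x41506297, 4), (0x438697a0, 4), (0x318297a5, 4), (0x41506297, 4)]⟩

def c_1287 : frmChk tA tA F_1287 = true := by decide +kernel

def r_1287_0 : chkL rootF engF2 tA tA sA_261 sA_261 4 F_1287 [(255, 0, 0), (256, 0, 20)]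
    0x103c2709c271c8b811cc348f210ea328e2b00b81b = true := by
  decide +kernel

def r_1287_1 : chkL rootF engF2 tA tA sA_261 sA_261 4 F_1287 [(256, 20, 0)]
    0x42b0ac1d09c3609c3311c1d0e81b0ba8360f8107427 = true := by
  decide +kernel

theorem f_1287 (h : TabsF) : FrameF repsF 261 F_1287.f :=
  frame_of rfl c_1287 ((runs_of engOK r_1287_0).append (runs_of engOK r_1287_1)) (by decide +kernel) h.1 h.1

def F_1288 : FrX :=
  ⟨0x80080a000804040e00002101002001000002040880421002020008400080202008052010404041050100000408040040201108001001080428210800100,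
    0xa6, 1, 0x10436096a5, 5,
    [(0xa6, 1), (0x205396a8, 4), (0x10548796, 4), (0x214396a7, 4), (0x205396a8, 4), (0x10548796, 4)],
    [(0x10436096a5, 5), (0x628394a7, 4), (0x516097a3, 4), (0x518493a7, 4), (0x516097a3, 4), (0x207493a8, 4), (0x43516298, 4), (0x518493a7, 4), (0x43516298, 4), (0x607384a9, 4), (0x518493a7, 4), (0x207493a8, 4)]⟩

def c_1288 : frmChk tA tB F_1288 = true := by decide +kernel

def r_1288_0 : chkL rootF engF2 tA tB sA_261 sB_261 4 F_1288 [(511, 0, 0)]
    0x41b0d84d154551c4551547105c330ce298b01e8a62c06d0e06c0f = true := by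
  decide +kernel

theorem f_1288 (h : TabsF) : FrameF repsF 261 F_1288.f :=
  frame_of rfl c_1288 (runs_of engOK r_1288_0) (by decide +kernel) h.1 h.2

def F_1289 : FrX :=
  ⟨0x80080a000804040e00002101002001000002040882021001420010008014004004081001400c21008000000a000404080020803020006200030a1000004,
    0xa6, 1, 0x204254627480a3, 7,
    [(0xa6, 1), (0x205396a8, 4), (0x10548796, 4), (0x214396a7, 4), (0x205396a8, 4), (0x10548796, 4)],
    [(0x204254627480a3, 7), (0x428693a0, 4), (0x52708193, 4), (0x546193a7, 4), (0x428693a0, 4), (0x52708193, 4)]⟩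

def c_1289 : frmChk tA tA F_1289 = true := by decide +kernel

def r_1289_0 : chkL rootF engF2 tA tA sA_261 sA_261 4 F_1289 [(511, 0, 0)]
    0x4aa07a94a14551342b1b3280b84d03c0f1589a0782d86a16984d80798a4691541d071380f4543341d07e07900d80f = true := by
  decide +kernel

theorem f_1289 (h : TabsF) : FrameF repsF 261 F_1289.f :=
  frame_of rfl c_1289 (runs_of engOK r_1289_0) (by decide +kernel) h.1 h.1

def F_1290 : FrX :=
  ⟨0x1c210200000404400000204100010100008204088808100002000011000042200908401002404045010020040804004028400800120080042800a400100,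
    0x0, 0, 0x20647583, 4,
    [(0x0, 0), (0x205386a9, 4), (0x105487a9, 4), (0x214376a9, 4), (0x205386a9, 4), (0x105487a9, 4)],
    [(0x20647583, 4), (0x204387a9, 4), (0x215376a9, 4), (0x105486a9, 4), (0x204387a9, 4), (0x215376a9, 4)]⟩

def c_1290 : frmChk tA tA F_1290 = true := by decide +kernel

def r_1290_0 : chkL rootF engF2 tA tA sA_261 sA_261 4 F_1290 [(255, 0, 0), (256, 0, 12)]
    0x18a84b09c0f8580f13836858f0272b0 = true := by
  decide +kernel

def r_1290_1 : chkL rootF engF2 tA tA sA_261 sA_261 4 F_1290 [(256, 12, 12)]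
    0x4171343614e0b21c0f3842b03c0f = true := by
  decide +kernel

def r_1290_2 : chkL rootF engF2 tA tA sA_261 sA_261 4 F_1290 [(256, 24, 0)]
    0x10741d2d01e03c369840f12e43 = true := by
  decide +kernel

theorem f_1290 (h : TabsF) : FrameF repsF 261 F_1290.f :=
  frame_of rfl c_1290 ((runs_of engOK r_1290_0).append ((runs_of engOK r_1290_1).append (runs_of engOK r_1290_2))) (by decide +kernel) h.1 h.1

def F_1291 : FrX :=
  ⟨0x2002000900044004000e02041000141000800040800401024001204002000c00018084020008010024020208400000801080081084008800c00442400801,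
    0xa3, 1, 0x105496a2, 4,
    [(0xa3, 1), (0x208693a5, 4), (0x10548793, 4), (0x217693a4, 4), (0x208693a5, 4), (0x10548793, 4)],
    [(0x105496a2, 4), (0x748593a1, 4), (0x10546297, 4), (0x62748395, 4), (0x10546297, 4), (0x738495a0, 4), (0x536298a1, 4), (0x62748395, 4), (0x536298a1, 4), (0x10758394, 4), (0x62748395, 4), (0x738495a0, 4)]⟩

def c_1291 : frmChk tA tB F_1291 = true := by decide +kernel

def r_1291_0 : chkL rootF engF2 tA tB sA_261 sB_261 4 F_1291 [(255, 0, 0), (256, 0, 18)]
    0x111c1b0e82e0b47211c2e0ba430ac2e11c47 = true := by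
  decide +kernel

def r_1291_1 : chkL rootF engF2 tA tB sA_261 sB_261 4 F_1291 [(256, 18, 0)]
    0x10742b = true := by
  decide +kernel

theorem f_1291 (h : TabsF) : FrameF repsF 261 F_1291.f :=
  frame_of rfl c_1291 ((runs_of engOK r_1291_0).append (runs_of engOK r_1291_1)) (by decide +kernel) h.1 h.2

def F_1292 : FrX :=
  ⟨0x80080a000804040e0000210100200100000204088120000804440010002100004888100104202000a00820042020180000400204041020200a203400000,
    0xa6, 1, 0x315063718594a6, 7,
    [(0xa6, 1), (0x205396a8, 4), (0x10548796, 4), (0x214396a7, 4), (0x205396a8, 4), (0x10548796, 4)],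
    [(0x315063718594a6, 7), (0x528390a6, 4), (0x417598a3, 4), (0x416083a9, 4), (0x417598a3, 4), (0x637280a9, 4), (0x415296a0, 4), (0x416083a9, 4), (0x415296a0, 4), (0x607593a8, 4), (0x416083a9, 4), (0x637280a9, 4)]⟩

def c_1292 : frmChk tA tB F_1292 = true := by decide +kernel

def r_1292_0 : chkL rootF engF2 tA tB sA_261 sB_261 4 F_1292 [(255, 0, 0), (256, 0, 21)]
    0x10f01d82f031540f03c1e05c71987219470a1550e94417 = true := by
  decide +kernel

def r_1292_1 : chkL rootF engF2 tA tB sA_261 sB_261 4 F_1292 [(256, 21, 0)]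
    0x105c4d0b4a90742703c0f = true := by
  decide +kernel

theorem f_1292 (h : TabsF) : FrameF repsF 261 F_1292.f :=
  frame_of rfl c_1292 ((runs_of engOK r_1292_0).append (runs_of engOK r_1292_1)) (by decide +kernel) h.1 h.2

def F_1293 : FrX :=
  ⟨0x80080a000804040e00002101002001000002040882020401010020400204004040880060002008080028201402200011100102044003002420003020000,
    0xa6, 1, 0x32708591a6, 5,
    [(0xa6, 1), (0x205396a8, 4), (0x10548796, 4), (0x214396a7, 4), (0x205396a8, 4), (0x10548796, 4)],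
    [(0x32708591a6, 5), (0x617382a5, 4), (0x50618497, 4), (0x426193a0, 4), (0x617382a5, 4), (0x50618497, 4)]⟩

def c_1293 : frmChk tA tA F_1293 = true := by decide +kernel

def r_1293_0 : chkL rootF engF2 tA tA sA_261 sA_261 4 F_1293 [(511, 0, 0)]
    0x1168871a878 = true := by
  decide +kernel

theorem f_1293 (h : TabsF) : FrameF repsF 261 F_1293.f :=
  frame_of rfl c_1293 (runs_of engOK r_1293_0) (by decide +kernel) h.1 h.1

def F_1294 : FrX :=
  ⟨0x2002000900044004000e0204100014100080004080040208012000420001404104000a00108204080a00000442400080108100008048400000c100224040,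
    0xa3, 1, 0x4351718694a3, 6,
    [(0xa3, 1), (0x208693a5, 4), (0x10548793, 4), (0x217693a4, 4), (0x208693a5, 4), (0x10548793, 4)],
    [(0x4351718694a3, 6), (0x205196a8, 4), (0x43708591, 4), (0x435198a6, 4), (0x43708591, 4), (0x617298a5, 4), (0x204386a9, 4), (0x435198a6, 4), (0x204386a9, 4), (0x708195a6, 4), (0x435198a6, 4), (0x617298a5, 4)]⟩

def c_1294 : frmChk tA tB F_1294 = true := by decide +kernel

def r_1294_0 : chkL rootF engF2 tA tB sA_261 sB_261 4 F_1294 [(255, 0, 0), (256, 0, 16)]
    0x138a34990cc09c47 = true := by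
  decide +kernel

def r_1294_1 : chkL rootF engF2 tA tB sA_261 sB_261 4 F_1294 [(256, 16, 0)]
    0x10789a0789a = true := by
  decide +kernel

theorem f_1294 (h : TabsF) : FrameF repsF 261 F_1294.f :=
  frame_of rfl c_1294 ((runs_of engOK r_1294_0).append (runs_of engOK r_1294_1)) (by decide +kernel) h.1 h.2

def F_1295 : FrX :=
  ⟨0x1001040012008080000e008408004100081010000420081001084000042200008a01008230001028000002082180004000042082022200000aa008011000,
    0xa3, 1, 0x20418596a3, 5,
    [(0xa3, 1), (0x207584a6, 4), (0x10547693, 4), (0x647593a8, 4), (0x10547693, 4), (0x216485a7, 4), (0x208693a4, 4), (0x647593a8, 4), (0x208693a4, 4), (0x106574a8, 4), (0x647593a8, 4), (0x216485a7, 4)],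
    [(0x20418596a3, 5), (0x205187a9, 4), (0x42638197, 4), (0x638791a5, 4), (0x42638197, 4), (0x408591a7, 4), (0x206395a1, 4), (0x638791a5, 4), (0x206395a1, 4), (0x427198a5, 4), (0x638791a5, 4), (0x408591a7, 4)]⟩

def c_1295 : frmChk tB tB F_1295 = true := by decide +kernel

def r_1295_0 : chkL rootF engF2 tB tB sB_261 sB_261 4 F_1295 [(511, 0, 0)]
    0x42b11e151684e1c47114ca90ac2d0b45ab083ca16c40b42d0762509c0f316c1 = true := by
  decide +kernel

theorem f_1295 (h : TabsF) : FrameF repsF 261 F_1295.f :=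
  frame_of rfl c_1295 (runs_of engOK r_1295_0) (by decide +kernel) h.2 h.2

theorem cl_261 (h : TabsF) : ∀ f ∈ fr_261, FrameF repsF 261 f :=
  List.forall_mem_cons.2 ⟨f_1280 h, List.forall_mem_cons.2 ⟨f_1281 h, List.forall_mem_cons.2 ⟨f_1282 h, List.forall_mem_cons.2 ⟨f_1283 h, List.forall_mem_cons.2 ⟨f_1284 h, List.forall_mem_cons.2 ⟨f_1285 h, List.forall_mem_cons.2 ⟨f_1286 h, List.forall_mem_cons.2 ⟨f_1287 h, List.forall_mem_cons.2 ⟨f_1288 h, List.forall_mem_cons.2 ⟨f_1289 h, List.forall_mem_cons.2 ⟨f_1290 h, List.forall_mem_cons.2 ⟨f_1291 h, List.forall_mem_cons.2 ⟨f_1292 h, List.forall_mem_cons.2 ⟨f_1293 h, List.forall_mem_cons.2 ⟨f_1294 h, List.forall_mem_cons.2 ⟨f_1295 h,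
    fun _ h0 => absurd h0 List.not_mem_nil⟩⟩⟩⟩⟩⟩⟩⟩⟩⟩⟩⟩⟩⟩⟩⟩

def F_1296 : FrX :=
  ⟨0x1001040012008080000e008408004100081010000404200280011100001800100102008a0220048040024040401028020000800c04004000444003022000,
    0xa3, 1, 0x415061728098a6, 7,
    [(0xa3, 1), (0x207584a6, 4), (0x10547693, 4), (0x647593a8, 4), (0x10547693, 4), (0x216485a7, 4), (0x208693a4, 4), (0x647593a8, 4), (0x208693a4, 4), (0x106574a8, 4), (0x647593a8, 4), (0x216485a7, 4)],
    [(0x415061728098a6, 7), (0x305487a9, 4), (0x10548692, 4), (0x315476a2, 4), (0x305487a9, 4), (0x10548692, 4)]⟩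

def c_1296 : frmChk tB tA F_1296 = true := by decide +kernel

def r_1296_0 : chkL rootF engF2 tB tA sB_262 sA_262 4 F_1296 [(255, 0, 0), (256, 0, 21)]
    0x106e1912ed0 = true := by
  decide +kernel

def r_1296_1 : chkL rootF engF2 tB tA sB_262 sA_262 4 F_1296 [(256, 21, 20)]
    0x106e1912d19138530781e = true := by
  decide +kernel

def r_1296_2 : chkL rootF engF2 tB tA sB_262 sA_262 4 F_1296 [(256, 41, 0)]
    0x1 = true := by
  decide +kernel

theorem f_1296 (h : TabsF) : FrameF repsF 262 F_1296.f :=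
  frame_of rfl c_1296 ((runs_of engOK r_1296_0).append ((runs_of engOK r_1296_1).append (runs_of engOK r_1296_2))) (by decide +kernel) h.2 h.1

def F_1297 : FrX :=
  ⟨0x1001040012008080000e008408004100081010000420101000a0010004020802422000202020200808010010618030002000800c080000c0022004802004,
    0xa3, 1, 0x31405365748290a3, 8,
    [(0xa3, 1), (0x207584a6, 4), (0x10547693, 4), (0x647593a8, 4), (0x10547693, 4), (0x216485a7, 4), (0x208693a4, 4), (0x647593a8, 4), (0x208693a4, 4), (0x106574a8, 4), (0x647593a8, 4), (0x216485a7, 4)],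
    [(0x31405365748290a3, 8), (0x607298a1, 4), (0x10547693, 4), (0x546071a2, 4), (0x10547693, 4), (0x627183a0, 4), (0x215498a7, 4), (0x546071a2, 4), (0x215498a7, 4), (0x617093a2, 4), (0x546071a2, 4), (0x627183a0, 4)]⟩

def c_1297 : frmChk tB tB F_1297 = true := by decide +kernel

def r_1297_0 : chkL rootF engF2 tB tB sB_262 sB_262 4 F_1297 [(255, 0, 0), (256, 0, 20)]
    0x105c1e05c1e09c170741d1384e0781e = true := by
  decide +kernel

def r_1297_1 : chkL rootF engF2 tB tB sB_262 sB_262 4 F_1297 [(256, 20, 21)]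
    0x10cc3909c3307817 = true := by
  decide +kernel

def r_1297_2 : chkL rootF engF2 tB tB sB_262 sB_262 4 F_1297 [(256, 41, 0)]
    0x1 = true := by
  decide +kernel

theorem f_1297 (h : TabsF) : FrameF repsF 262 F_1297.f :=
  frame_of rfl c_1297 ((runs_of engOK r_1297_0).append ((runs_of engOK r_1297_1).append (runs_of engOK r_1297_2))) (by decide +kernel) h.2 h.2

def F_1298 : FrX :=
  ⟨0x1001040012008080000e00840800410008101000042008024020010004080090048202020000112200400286020008210014001001010401011008000210,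
    0xa3, 1, 0x1062718095a4, 6,
    [(0xa3, 1), (0x207584a6, 4), (0x10547693, 4), (0x647593a8, 4), (0x10547693, 4), (0x216485a7, 4), (0x208693a4, 4), (0x647593a8, 4), (0x208693a4, 4), (0x106574a8, 4), (0x647593a8, 4), (0x216485a7, 4)],
    [(0x1062718095a4, 6), (0x328690a1, 4), (0x205487a9, 4), (0x315490a2, 4), (0x205487a9, 4), (0x307691a2, 4), (0x215486a3, 4), (0x315490a2, 4), (0x215486a3, 4), (0x318792a0, 4), (0x315490a2, 4), (0x307691a2, 4)]⟩

def c_1298 : frmChk tB tB F_1298 = true := by decide +kernel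

def r_1298_0 : chkL rootF engF2 tB tB sB_262 sB_262 4 F_1298 [(511, 0, 0)]
    0x1 = true := by
  decide +kernel

theorem f_1298 (h : TabsF) : FrameF repsF 262 F_1298.f :=
  frame_of rfl c_1298 (runs_of engOK r_1298_0) (by decide +kernel) h.2 h.2

def F_1299 : FrX :=
  ⟨0x600020801080810000c00401804101010010040101001208000014402040440200004020002201002100120208380002000a040000000c020021081201,
    0xa0, 1, 0x2140657186a8, 6,
    [(0xa0, 1), (0x637584a2, 4), (0x547690a1, 4), (0x64758390, 4), (0x547690a1, 4), (0x21647385, 4), (0x438690a2, 4), (0x64758390, 4), (0x438690a2, 4), (0x657483a1, 4), (0x64758390, 4), (0x21647385, 4)],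
    [(0x2140657186a8, 6), (0x416395a8, 4), (0x607495a2, 4), (0x30718295, 4), (0x416395a8, 4), (0x607495a2, 4)]⟩

def c_1299 : frmChk tB tA F_1299 = true := by decide +kernel

def r_1299_0 : chkL rootF engF2 tB tA sB_262 sA_262 4 F_1299 [(511, 0, 0)]
    0x10741e6441e06c2b05e1605d9107435 = true := by
  decide +kernel

theorem f_1299 (h : TabsF) : FrameF repsF 262 F_1299.f :=
  frame_of rfl c_1299 (runs_of engOK r_1299_0) (by decide +kernel) h.2 h.1

def F_1300 : FrX :=
  ⟨0x600020801080810000c00401804101010010040100200122000048041802020800008008004402400041021002380008000888000000005084002110a0,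
    0xa0, 1, 0x2131527583a0, 6,
    [(0xa0, 1), (0x637584a2, 4), (0x547690a1, 4), (0x64758390, 4), (0x547690a1, 4), (0x21647385, 4), (0x438690a2, 4), (0x64758390, 4), (0x438690a2, 4), (0x657483a1, 4), (0x64758390, 4), (0x21647385, 4)],
    [(0x2131527583a0, 6), (0x427186a5, 4), (0x617490a3, 4), (0x64718290, 4), (0x617490a3, 4), (0x53647281, 4), (0x628490a5, 4), (0x64718290, 4), (0x628490a5, 4), (0x417682a3, 4), (0x64718290, 4), (0x53647281, 4)]⟩

def c_1300 : frmChk tB tB F_1300 = true := by decide +kernel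

def r_1300_0 : chkL rootF engF2 tB tB sB_262 sB_262 4 F_1300 [(511, 0, 0)]
    0x10d83a8a40f0783c8a42e = true := by
  decide +kernel

theorem f_1300 (h : TabsF) : FrameF repsF 262 F_1300.f :=
  frame_of rfl c_1300 (runs_of engOK r_1300_0) (by decide +kernel) h.2 h.2

def F_1301 : FrX :=
  ⟨0x482000044040440000c2040020009000182040002102000100880200004088004440101024000400800040888020c0000800010a004406020a0c000004,
    0xa0, 1, 0x50657192a7, 5,
    [(0xa0, 1), (0x538690a2, 4), (0x548790a1, 4), (0x21437690, 4), (0x538690a2, 4), (0x548790a1, 4)],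
    [(0x50657192a7, 5), (0x308495a6, 4), (0x216475a0, 4), (0x214083a6, 4), (0x216475a0, 4), (0x408697a3, 4), (0x21438095, 4), (0x214083a6, 4), (0x21438095, 4), (0x607583a4, 4), (0x214083a6, 4), (0x408697a3, 4)]⟩

def c_1301 : frmChk tA tB F_1301 = true := by decide +kernel

def r_1301_0 : chkL rootF engF2 tA tB sA_262 sB_262 4 F_1301 [(511, 0, 0)]
    0x43a0780f0ac0f1681e0ac1d = true := by
  decide +kernel

theorem f_1301 (h : TabsF) : FrameF repsF 262 F_1301.f :=
  frame_of rfl c_1301 (runs_of engOK r_1301_0) (by decide +kernel) h.1 h.2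

def F_1302 : FrX :=
  ⟨0x1c2102000004044000002041000101000082040888200008008080004000242020601001020080020800440880048080088010160600202101004080001,
    0x0, 0, 0x107583, 3,
    [(0x0, 0), (0x205386a9, 4), (0x105487a9, 4), (0x214376a9, 4), (0x205386a9, 4), (0x105487a9, 4)],
    [(0x107583, 3), (0x216387a9, 4), (0x105374a9, 4), (0x206584a9, 4), (0x216387a9, 4), (0x105374a9, 4)]⟩

def c_1302 : frmChk tA tA F_1302 = true := by decide +kernel

def r_1302_0 : chkL rootF engF2 tA tA sA_262 sA_262 4 F_1302 [(255, 0, 0), (256, 0, 10)]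
    0x1 = true := by
  decide +kernel

def r_1302_1 : chkL rootF engF2 tA tA sA_262 sA_262 4 F_1302 [(256, 10, 5)]
    0x12d02d = true := by
  decide +kernel

def r_1302_2 : chkL rootF engF2 tA tA sA_262 sA_262 4 F_1302 [(256, 15, 4)]
    0x10781b06ca6 = true := by
  decide +kernel

def r_1302_3 : chkL rootF engF2 tA tA sA_262 sA_262 4 F_1302 [(256, 19, 4)]
    0x1 = true := by
  decide +kernel

def r_1302_4 : chkL rootF engF2 tA tA sA_262 sA_262 4 F_1302 [(256, 23, 5)]
    0x447 = true := by
  decide +kernel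

def r_1302_5 : chkL rootF engF2 tA tA sA_262 sA_262 4 F_1302 [(256, 28, 6)]
    0x50b1a92a0e41d12c2d = true := by
  decide +kernel

def r_1302_6 : chkL rootF engF2 tA tA sA_262 sA_262 4 F_1302 [(256, 34, 0)]
    0x4a52388d = true := by
  decide +kernel

theorem f_1302 (h : TabsF) : FrameF repsF 262 F_1302.f :=
  frame_of rfl c_1302 ((runs_of engOK r_1302_0).append ((runs_of engOK r_1302_1).append ((runs_of engOK r_1302_2).append ((runs_of engOK r_1302_3).append ((runs_of engOK r_1302_4).append ((runs_of engOK r_1302_5).append (runs_of engOK r_1302_6))))))) (by decide +kernel) h.1 h.1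

def F_1303 : FrX :=
  ⟨0x1c21020000040440000020410001010000820408882000080008802000022020206000411000080208004048802108400100012a0500200202200900002,
    0x0, 0, 0x21546587, 4,
    [(0x0, 0), (0x205386a9, 4), (0x105487a9, 4), (0x214376a9, 4), (0x205386a9, 4), (0x105487a9, 4)],
    [(0x21546587, 4), (0x10437586, 4), (0x206584a9, 4), (0x547386a9, 4), (0x206584a9, 4), (0x21547683, 4), (0x105374a9, 4), (0x547386a9, 4), (0x105374a9, 4), (0x20647385, 4), (0x547386a9, 4), (0x21547683, 4)]⟩

def c_1303 : frmChk tA tB F_1303 = true := by decide +kernel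

def r_1303_0 : chkL rootF engF2 tA tB sA_262 sB_262 4 F_1303 [(255, 0, 0), (256, 0, 13)]
    0x1 = true := by
  decide +kernel

def r_1303_1 : chkL rootF engF2 tA tB sA_262 sB_262 4 F_1303 [(256, 13, 3)]
    0x1 = true := by
  decide +kernel

def r_1303_2 : chkL rootF engF2 tA tB sA_262 sB_262 4 F_1303 [(256, 16, 3)]
    0x44b = true := by
  decide +kernel

def r_1303_3 : chkL rootF engF2 tA tB sA_262 sB_262 4 F_1303 [(256, 19, 4)]
    0x1 = true := by
  decide +kernel

def r_1303_4 : chkL rootF engF2 tA tB sA_262 sB_262 4 F_1303 [(256, 23, 5)]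
    0x1 = true := by
  decide +kernel

def r_1303_5 : chkL rootF engF2 tA tB sA_262 sB_262 4 F_1303 [(256, 28, 5)]
    0x40f03c1d = true := by
  decide +kernel

def r_1303_6 : chkL rootF engF2 tA tB sA_262 sB_262 4 F_1303 [(256, 33, 0)]
    0x1 = true := by
  decide +kernel

theorem f_1303 (h : TabsF) : FrameF repsF 262 F_1303.f :=
  frame_of rfl c_1303 ((runs_of engOK r_1303_0).append ((runs_of engOK r_1303_1).append ((runs_of engOK r_1303_2).append ((runs_of engOK r_1303_3).append ((runs_of engOK r_1303_4).append ((runs_of engOK r_1303_5).append (runs_of engOK r_1303_6))))))) (by decide +kernel) h.1 h.2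

def F_1304 : FrX :=
  ⟨0x2002000900044004000e02041000141000800040800801014008400008410100110204004024001010040012000420000300801030000808900310008021,
    0xa3, 1, 0x304260728794a0, 7,
    [(0xa3, 1), (0x208693a5, 4), (0x10548793, 4), (0x217693a4, 4), (0x208693a5, 4), (0x10548793, 4)],
    [(0x304260728794a0, 7), (0x435062a7, 4), (0x628495a1, 4), (0x62718390, 4), (0x435062a7, 4), (0x628495a1, 4)]⟩

def c_1304 : frmChk tA tA F_1304 = true := by decide +kernel

def r_1304_0 : chkL rootF engF2 tA tA sA_262 sA_262 4 F_1304 [(511, 0, 0)]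
    0x106da405c17a2a4330ec205c5605c1b = true := by
  decide +kernel

theorem f_1304 (h : TabsF) : FrameF repsF 262 F_1304.f :=
  frame_of rfl c_1304 (runs_of engOK r_1304_0) (by decide +kernel) h.1 h.1

def F_1305 : FrX :=
  ⟨0x80080a000804040e000021010020010000020408822000040480810000400820210048014000080208008008802018400020012a04088002020c0008002,
    0xa6, 1, 0x314152748491a5, 7,
    [(0xa6, 1), (0x205396a8, 4), (0x10548796, 4), (0x214396a7, 4), (0x205396a8, 4), (0x10548796, 4)],
    [(0x314152748491a5, 7), (0x425076a1, 4), (0x427390a8, 4), (0x42638195, 4), (0x425076a1, 4), (0x427390a8, 4)]⟩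

def c_1305 : frmChk tA tA F_1305 = true := by decide +kernel

def r_1305_0 : chkL rootF engF2 tA tA sA_262 sA_262 4 F_1305 [(255, 0, 0), (256, 0, 21)]
    0x1 = true := by
  decide +kernel

def r_1305_1 : chkL rootF engF2 tA tA sA_262 sA_262 4 F_1305 [(256, 21, 0)]
    0x10761506e0703c1d = true := by
  decide +kernel

theorem f_1305 (h : TabsF) : FrameF repsF 262 F_1305.f :=
  frame_of rfl c_1305 ((runs_of engOK r_1305_0).append (runs_of engOK r_1305_1)) (by decide +kernel) h.1 h.1

def F_1306 : FrX :=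
  ⟨0x2002000900044004000e02041000141000800040810000018108002502000240220200001008008820800404800010801010800240400200300220101003,
    0xa3, 1, 0x102064728797a6, 7,
    [(0xa3, 1), (0x208693a5, 4), (0x10548793, 4), (0x217693a4, 4), (0x208693a5, 4), (0x10548793, 4)],
    [(0x102064728797a6, 7), (0x617295a3, 4), (0x206584a9, 4), (0x318495a6, 4), (0x206584a9, 4), (0x517093a6, 4), (0x637284a1, 4), (0x318495a6, 4), (0x637284a1, 4), (0x203196a5, 4), (0x318495a6, 4), (0x517093a6, 4)]⟩

def c_1306 : frmChk tA tB F_1306 = true := by decide +kernel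

def r_1306_0 : chkL rootF engF2 tA tB sA_262 sB_262 4 F_1306 [(255, 0, 0), (256, 0, 13)]
    0x106c2709c2b06c2b06c1b06c2b21c1e = true := by
  decide +kernel

def r_1306_1 : chkL rootF engF2 tA tB sA_262 sB_262 4 F_1306 [(256, 13, 14)]
    0x42b0b41b06d430d493 = true := by
  decide +kernel

def r_1306_2 : chkL rootF engF2 tA tB sA_262 sB_262 4 F_1306 [(256, 27, 0)]
    0x41b09c8709c2b06c1b074e2 = true := by
  decide +kernel

theorem f_1306 (h : TabsF) : FrameF repsF 262 F_1306.f :=
  frame_of rfl c_1306 ((runs_of engOK r_1306_0).append ((runs_of engOK r_1306_1).append (runs_of engOK r_1306_2))) (by decide +kernel) h.1 h.2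

def F_1307 : FrX :=
  ⟨0x600020801080810000c0040180410101001004020000500800c00440821000008012000080806000240100121090400800208200000088100408240082,
    0xa0, 1, 0x5461718292a1, 6,
    [(0xa0, 1), (0x637584a2, 4), (0x547690a1, 4), (0x64758390, 4), (0x547690a1, 4), (0x21647385, 4), (0x438690a2, 4), (0x64758390, 4), (0x438690a2, 4), (0x657483a1, 4), (0x64758390, 4), (0x21647385, 4)],
    [(0x5461718292a1, 6), (0x31526490, 4), (0x546187a0, 4), (0x32516487, 4), (0x546187a0, 4), (0x425163a9, 4), (0x21538790, 4), (0x32516487, 4), (0x21538790, 4), (0x324165a0, 4), (0x32516487, 4), (0x425163a9, 4)]⟩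

def c_1307 : frmChk tB tB F_1307 = true := by decide +kernel

def r_1307_0 : chkL rootF engF2 tB tB sB_262 sB_262 4 F_1307 [(511, 0, 0)]
    0x1 = true := by
  decide +kernel

theorem f_1307 (h : TabsF) : FrameF repsF 262 F_1307.f :=
  frame_of rfl c_1307 (runs_of engOK r_1307_0) (by decide +kernel) h.2 h.2

def F_1308 : FrX :=
  ⟨0x1001040012008080000e0084080041000810100004401002049010000410201001020200088004200040080460101000181000a008000840408008220050,
    0xa3, 1, 0x3152607084a3, 6,
    [(0xa3, 1), (0x207584a6, 4), (0x10547693, 4), (0x647593a8, 4), (0x10547693, 4), (0x216485a7, 4), (0x208693a4, 4), (0x647593a8, 4), (0x208693a4, 4), (0x106574a8, 4), (0x647593a8, 4), (0x216485a7, 4)],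
    [(0x3152607084a3, 6), (0x407591a2, 4), (0x64738291, 4), (0x536091a8, 4), (0x407591a2, 4), (0x64738291, 4)]⟩

def c_1308 : frmChk tB tA F_1308 = true := by decide +kernel

def r_1308_0 : chkL rootF engF2 tB tA sB_262 sA_262 4 F_1308 [(255, 0, 0), (256, 0, 20)]
    0x48b2a645924539311605c8e60c2e14e611700f05c17 = true := by
  decide +kernel

def r_1308_1 : chkL rootF engF2 tB tA sB_262 sA_262 4 F_1308 [(256, 20, 0)]
    0x114c170b436b12460e82d05e2605c171c5c80cc2e = true := by
  decide +kernel

theorem f_1308 (h : TabsF) : FrameF repsF 262 F_1308.f :=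
  frame_of rfl c_1308 ((runs_of engOK r_1308_0).append (runs_of engOK r_1308_1)) (by decide +kernel) h.2 h.1

def F_1309 : FrX :=
  ⟨0x1001040012008080000e008408004100081010000421000040600100040008828082000812000084001010404c4000420040200106201080480000202008,
    0xa3, 1, 0x3165748290a3, 6,
    [(0xa3, 1), (0x207584a6, 4), (0x10547693, 4), (0x647593a8, 4), (0x10547693, 4), (0x216485a7, 4), (0x208693a4, 4), (0x647593a8, 4), (0x208693a4, 4), (0x106574a8, 4), (0x647593a8, 4), (0x216485a7, 4)],
    [(0x3165748290a3, 6), (0x647298a5, 4), (0x10547693, 4), (0x106475a2, 4), (0x10547693, 4), (0x627583a4, 4), (0x105298a7, 4), (0x106475a2, 4), (0x105298a7, 4), (0x657493a2, 4), (0x106475a2, 4), (0x627583a4, 4)]⟩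

def c_1309 : frmChk tB tB F_1309 = true := by decide +kernel

def r_1309_0 : chkL rootF engF2 tB tB sB_262 sB_262 4 F_1309 [(511, 0, 0)]
    0x10ac179883509c99168662c495 = true := by
  decide +kernel

theorem f_1309 (h : TabsF) : FrameF repsF 262 F_1309.f :=
  frame_of rfl c_1309 (runs_of engOK r_1309_0) (by decide +kernel) h.2 h.2

def F_1310 : FrX :=
  ⟨0x1001040012008080000e00840800410008101000040808048020008100080082488000082100100240010008011030002050008009400400508000809100,
    0xa3, 1, 0x1030428594a6, 6,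
    [(0xa3, 1), (0x207584a6, 4), (0x10547693, 4), (0x647593a8, 4), (0x10547693, 4), (0x216485a7, 4), (0x208693a4, 4), (0x647593a8, 4), (0x208693a4, 4), (0x106574a8, 4), (0x647593a8, 4), (0x216485a7, 4)],
    [(0x1030428594a6, 6), (0x436281a5, 4), (0x30627598, 4), (0x406291a7, 4), (0x436281a5, 4), (0x30627598, 4)]⟩

def c_1310 : frmChk tB tA F_1310 = true := by decide +kernel

def r_1310_0 : chkL rootF engF2 tB tA sB_262 sA_262 4 F_1310 [(511, 0, 0)]
    0x41e0b417 = true := by
  decide +kernel

theorem f_1310 (h : TabsF) : FrameF repsF 262 F_1310.f :=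
  frame_of rfl c_1310 (runs_of engOK r_1310_0) (by decide +kernel) h.2 h.1

def F_1311 : FrX :=
  ⟨0x1001040012008080000e00840800410008101000042100001120010004302004800100102020200800022402020030002000800c0800000c048902018010,
    0xa3, 1, 0x738296a3, 4,
    [(0xa3, 1), (0x207584a6, 4), (0x10547693, 4), (0x647593a8, 4), (0x10547693, 4), (0x216485a7, 4), (0x208693a4, 4), (0x647593a8, 4), (0x208693a4, 4), (0x106574a8, 4), (0x647593a8, 4), (0x216485a7, 4)],
    [(0x738296a3, 4), (0x425380a9, 4), (0x10547693, 4), (0x537694a2, 4), (0x10547693, 4), (0x528194a3, 4), (0x768092a4, 4), (0x537694a2, 4), (0x768092a4, 4), (0x104395a2, 4), (0x537694a2, 4), (0x528194a3, 4)]⟩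

def c_1311 : frmChk tB tB F_1311 = true := by decide +kernel

def r_1311_0 : chkL rootF engF2 tB tB sB_262 sB_262 4 F_1311 [(255, 0, 0), (256, 0, 13)]
    0x40f0cc2b = true := by
  decide +kernel

def r_1311_1 : chkL rootF engF2 tB tB sB_262 sB_262 4 F_1311 [(256, 13, 5)]
    0x42d0b4270ac2b = true := by
  decide +kernel

def r_1311_2 : chkL rootF engF2 tB tB sB_262 sB_262 4 F_1311 [(256, 18, 22)]
    0x1 = true := by
  decide +kernel

def r_1311_3 : chkL rootF engF2 tB tB sB_262 sB_262 4 F_1311 [(256, 40, 0)]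
    0x1 = true := by
  decide +kernel

theorem f_1311 (h : TabsF) : FrameF repsF 262 F_1311.f :=
  frame_of rfl c_1311 ((runs_of engOK r_1311_0).append ((runs_of engOK r_1311_1).append ((runs_of engOK r_1311_2).append (runs_of engOK r_1311_3)))) (by decide +kernel) h.2 h.2

def F_1312 : FrX :=
  ⟨0x482000044040440000c2040020009000182040000842040008020080010048010404080888000880080060018420002008010118008084040104000041,
    0xa0, 1, 0x104293a0, 4,
    [(0xa0, 1), (0x538690a2, 4), (0x548790a1, 4), (0x21437690, 4), (0x538690a2, 4), (0x548790a1, 4)],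
    [(0x104293a0, 4), (0x318695a4, 4), (0x315287a0, 4), (0x31407692, 4), (0x318695a4, 4), (0x315287a0, 4)]⟩

def c_1312 : frmChk tA tA F_1312 = true := by decide +kernel

def r_1312_0 : chkL rootF engF2 tA tA sA_262 sA_262 4 F_1312 [(511, 0, 0)]
    0x10782dc846309d2a = true := by
  decide +kernel

theorem f_1312 (h : TabsF) : FrameF repsF 262 F_1312.f :=
  frame_of rfl c_1312 (runs_of engOK r_1312_0) (by decide +kernel) h.1 h.1

def F_1313 : FrX :=
  ⟨0x80080a000804040e000021010020010000020408804110040081040004400020204040600080100208011008021801011004800840100a0404040200040,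
    0xa6, 1, 0x2030548190a6, 6,
    [(0xa6, 1), (0x205396a8, 4), (0x10548796, 4), (0x214396a7, 4), (0x205396a8, 4), (0x10548796, 4)],
    [(0x2030548190a6, 6), (0x517490a2, 4), (0x546398a7, 4), (0x216374a5, 4), (0x546398a7, 4), (0x417280a5, 4), (0x526390a1, 4), (0x216374a5, 4), (0x526390a1, 4), (0x217598a4, 4), (0x216374a5, 4), (0x417280a5, 4)]⟩

def c_1313 : frmChk tA tB F_1313 = true := by decide +kernel

def r_1313_0 : chkL rootF engF2 tA tB sA_262 sB_262 4 F_1313 [(255, 0, 0), (256, 0, 12)]
    0x44750c6318c4b4540f326071710d171521c93260f8114c53 = true := by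
  decide +kernel

def r_1313_1 : chkL rootF engF2 tA tB sA_262 sB_262 4 F_1313 [(256, 12, 16)]
    0x4471542d2b04d = true := by
  decide +kernel

def r_1313_2 : chkL rootF engF2 tA tB sA_262 sB_262 4 F_1313 [(256, 28, 0)]
    0x1560c90749c3440f2640f03c690b42e0b62c21c0fb040f21e268c40f0741d0740f0743c0741d03c0fd054312c2d = true := by
  decide +kernel

theorem f_1313 (h : TabsF) : FrameF repsF 262 F_1313.f :=
  frame_of rfl c_1313 ((runs_of engOK r_1313_0).append ((runs_of engOK r_1313_1).append (runs_of engOK r_1313_2))) (by decide +kernel) h.1 h.2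

theorem cl_262 (h : TabsF) : ∀ f ∈ fr_262, FrameF repsF 262 f :=
  List.forall_mem_cons.2 ⟨f_1296 h, List.forall_mem_cons.2 ⟨f_1297 h, List.forall_mem_cons.2 ⟨f_1298 h, List.forall_mem_cons.2 ⟨f_1299 h, List.forall_mem_cons.2 ⟨f_1300 h, List.forall_mem_cons.2 ⟨f_1301 h, List.forall_mem_cons.2 ⟨f_1302 h, List.forall_mem_cons.2 ⟨f_1303 h, List.forall_mem_cons.2 ⟨f_1304 h, List.forall_mem_cons.2 ⟨f_1305 h, List.forall_mem_cons.2 ⟨f_1306 h, List.forall_mem_cons.2 ⟨f_1307 h, List.forall_mem_cons.2 ⟨f_1308 h, List.forall_mem_cons.2 ⟨f_1309 h, List.forall_mem_cons.2 ⟨f_1310 h, List.forall_mem_cons.2 ⟨f_1311 h, List.forall_mem_cons.2 ⟨f_1312 h, List.forall_mem_cons.2 ⟨f_1313 h,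
    fun _ h0 => absurd h0 List.not_mem_nil⟩⟩⟩⟩⟩⟩⟩⟩⟩⟩⟩⟩⟩⟩⟩⟩⟩⟩

def F_1314 : FrX :=
  ⟨0x1001040012008080000e00840800410008101000040480040404202002000420032000801100401040044004444004800010002007000900460101000040,
    0xa3, 1, 0x203152658297a1, 7,
    [(0xa3, 1), (0x207584a6, 4), (0x10547693, 4), (0x647593a8, 4), (0x10547693, 4), (0x216485a7, 4), (0x208693a4, 4), (0x647593a8, 4), (0x208693a4, 4), (0x106574a8, 4), (0x647593a8, 4), (0x216485a7, 4)],
    [(0x203152658297a1, 7), (0x10548296, 4), (0x647390a2, 4), (0x40517396, 4), (0x647390a2, 4), (0x406591a8, 4), (0x41507382, 4), (0x40517396, 4), (0x41507382, 4), (0x516094a2, 4), (0x40517396, 4), (0x406591a8, 4)]⟩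

def c_1314 : frmChk tB tB F_1314 = true := by decide +kernel

def r_1314_0 : chkL rootF engF2 tB tB sB_263 sB_263 4 F_1314 [(255, 0, 0), (256, 0, 19)]
    0x1496238953109c350743609c2e = true := by
  decide +kernel

def r_1314_1 : chkL rootF engF2 tB tB sB_263 sB_263 4 F_1314 [(256, 19, 0)]
    0x64a03c0f9298a06d32 = true := by
  decide +kernel

theorem f_1314 (h : TabsF) : FrameF repsF 263 F_1314.f :=
  frame_of rfl c_1314 ((runs_of engOK r_1314_0).append (runs_of engOK r_1314_1)) (by decide +kernel) h.2 h.2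

def F_1315 : FrX :=
  ⟨0x1001040012008080000e0084080041000810100004042010040420200200402003020080110040104080100c044001800440000806000800422101001040,
    0xa3, 1, 0x1021304165728298a0, 9,
    [(0xa3, 1), (0x207584a6, 4), (0x10547693, 4), (0x647593a8, 4), (0x10547693, 4), (0x216485a7, 4), (0x208693a4, 4), (0x647593a8, 4), (0x208693a4, 4), (0x106574a8, 4), (0x647593a8, 4), (0x216485a7, 4)],
    [(0x1021304165728298a0, 9), (0x617395a8, 4), (0x627390a4, 4), (0x21507384, 4), (0x617395a8, 4), (0x627390a4, 4)]⟩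

def c_1315 : frmChk tB tA F_1315 = true := by decide +kernel

def r_1315_0 : chkL rootF engF2 tB tA sB_263 sA_263 4 F_1315 [(255, 0, 0), (256, 0, 18)]
    0x10d48b92a8a0b41b6300f = true := by
  decide +kernel

def r_1315_1 : chkL rootF engF2 tB tA sB_263 sA_263 4 F_1315 [(256, 18, 23)]
    0x109c17074d1 = true := by
  decide +kernel

def r_1315_2 : chkL rootF engF2 tB tA sB_263 sA_263 4 F_1315 [(256, 41, 0)]
    0x1 = true := by
  decide +kernel

theorem f_1315 (h : TabsF) : FrameF repsF 263 F_1315.f :=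
  frame_of rfl c_1315 ((runs_of engOK r_1315_0).append ((runs_of engOK r_1315_1).append (runs_of engOK r_1315_2))) (by decide +kernel) h.2 h.1

def F_1316 : FrX :=
  ⟨0x1001040012008080000e00840800410008101000048020008181200022000800085100020004140040021440800000804080080110004400504408000484,
    0xa3, 1, 0x53637285a7, 5,
    [(0xa3, 1), (0x207584a6, 4), (0x10547693, 4), (0x647593a8, 4), (0x10547693, 4), (0x216485a7, 4), (0x208693a4, 4), (0x647593a8, 4), (0x208693a4, 4), (0x106574a8, 4), (0x647593a8, 4), (0x216485a7, 4)],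
    [(0x53637285a7, 5), (0x53708692, 4), (0x108492a3, 4), (0x647192a5, 4), (0x53708692, 4), (0x108492a3, 4)]⟩

def c_1316 : frmChk tB tA F_1316 = true := by decide +kernel

def r_1316_0 : chkL rootF engF2 tB tA sB_263 sA_263 4 F_1316 [(511, 0, 0)]
    0x4334b06a09c2709c1d0cc1e21c360d83a0f23809c360d89909c36a6074170471364917065 = true := by
  decide +kernel

theorem f_1316 (h : TabsF) : FrameF repsF 263 F_1316.f :=
  frame_of rfl c_1316 (runs_of engOK r_1316_0) (by decide +kernel) h.2 h.1

def F_1317 : FrX :=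
  ⟨0x1001040012008080000e00840800410008101000042008021088400004220000422000210090004800081200208001004208001230200001090008030200,
    0xa3, 1, 0x4064718396a6, 6,
    [(0xa3, 1), (0x207584a6, 4), (0x10547693, 4), (0x647593a8, 4), (0x10547693, 4), (0x216485a7, 4), (0x208693a4, 4), (0x647593a8, 4), (0x208693a4, 4), (0x106574a8, 4), (0x647593a8, 4), (0x216485a7, 4)],
    [(0x4064718396a6, 6), (0x428590a3, 4), (0x31657490, 4), (0x728690a1, 4), (0x428590a3, 4), (0x31657490, 4)]⟩

def c_1317 : frmChk tB tA F_1317 = true := by decide +kernel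

def r_1317_0 : chkL rootF engF2 tB tA sB_263 sA_263 4 F_1317 [(511, 0, 0)]
    0x41b09c5306c170741d03c470741d0781b2582d = true := by
  decide +kernel

theorem f_1317 (h : TabsF) : FrameF repsF 263 F_1317.f :=
  frame_of rfl c_1317 (runs_of engOK r_1317_0) (by decide +kernel) h.2 h.1

def F_1318 : FrX :=
  ⟨0x1001040012008080000e0084080041000810100004800800810120002200200008452000240014014002044082000880000008211000400044441800000c,
    0xa3, 1, 0x2142758397a0, 6,
    [(0xa3, 1), (0x207584a6, 4), (0x10547693, 4), (0x647593a8, 4), (0x10547693, 4), (0x216485a7, 4), (0x208693a4, 4), (0x647593a8, 4), (0x208693a4, 4), (0x106574a8, 4), (0x647593a8, 4), (0x216485a7, 4)],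
    [(0x2142758397a0, 6), (0x506387a4, 4), (0x507193a2, 4), (0x42508196, 4), (0x506387a4, 4), (0x507193a2, 4)]⟩

def c_1318 : frmChk tB tA F_1318 = true := by decide +kernel

def r_1318_0 : chkL rootF engF2 tB tA sB_263 sA_263 4 F_1318 [(511, 0, 0)]
    0x10d46a0e4630da5281c36b0a86a28e821cb49a0961542d164a30aea1268333142b05ee0a2ac812c330b51c03cd882c8dc881d0b40f03c3a09c27 = true := by
  decide +kernel

theorem f_1318 (h : TabsF) : FrameF repsF 263 F_1318.f :=
  frame_of rfl c_1318 (runs_of engOK r_1318_0) (by decide +kernel) h.2 h.1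

def F_1319 : FrX :=
  ⟨0x600020801080810000c004018041010100100400401400080004404480a000008802010082020100280202020802040481004010200004008009010041,
    0xa0, 1, 0x3261758796a7, 6,
    [(0xa0, 1), (0x637584a2, 4), (0x547690a1, 4), (0x64758390, 4), (0x547690a1, 4), (0x21647385, 4), (0x438690a2, 4), (0x64758390, 4), (0x438690a2, 4), (0x657483a1, 4), (0x64758390, 4), (0x21647385, 4)],
    [(0x3261758796a7, 6), (0x30728195, 4), (0x607481a5, 4), (0x426381a9, 4), (0x30728195, 4), (0x607481a5, 4)]⟩

def c_1319 : frmChk tB tA F_1319 = true := by decide +kernel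

def r_1319_0 : chkL rootF engF2 tB tA sB_263 sA_263 4 F_1319 [(511, 0, 0)]
    0x10b435195150cc2d05ca96a01e078560d8170f0352e09907835 = true := by
  decide +kernel

theorem f_1319 (h : TabsF) : FrameF repsF 263 F_1319.f :=
  frame_of rfl c_1319 (runs_of engOK r_1319_0) (by decide +kernel) h.2 h.1

def F_1320 : FrX :=
  ⟨0x600020801080810000c0040180410101001004001200012200022800080424040000800900200020208110808002420100100200830000008802221100,
    0xa0, 1, 0x315264a0, 4,
    [(0xa0, 1), (0x637584a2, 4), (0x547690a1, 4), (0x64758390, 4), (0x547690a1, 4), (0x21647385, 4), (0x438690a2, 4), (0x64758390, 4), (0x438690a2, 4), (0x657483a1, 4), (0x64758390, 4), (0x21647385, 4)],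
    [(0x315264a0, 4), (0x417286a5, 4), (0x627490a3, 4), (0x64728190, 4), (0x627490a3, 4), (0x53647182, 4), (0x618490a5, 4), (0x64728190, 4), (0x618490a5, 4), (0x427681a3, 4), (0x64728190, 4), (0x53647182, 4)]⟩

def c_1320 : frmChk tB tB F_1320 = true := by decide +kernel

def r_1320_0 : chkL rootF engF2 tB tB sB_263 sB_263 4 F_1320 [(511, 0, 0)]
    0x4710781e12c8b238471381d11c5516455 = true := by
  decide +kernel

theorem f_1320 (h : TabsF) : FrameF repsF 263 F_1320.f :=
  frame_of rfl c_1320 (runs_of engOK r_1320_0) (by decide +kernel) h.2 h.2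

def F_1321 : FrX :=
  ⟨0x1001040012008080000e00840800410008101000042012240020002100080048010008082080404808002002001800410100200202088080044010820300,
    0xa3, 1, 0x1040627383a2, 6,
    [(0xa3, 1), (0x207584a6, 4), (0x10547693, 4), (0x647593a8, 4), (0x10547693, 4), (0x216485a7, 4), (0x208693a4, 4), (0x647593a8, 4), (0x208693a4, 4), (0x106574a8, 4), (0x647593a8, 4), (0x216485a7, 4)],
    [(0x1040627383a2, 6), (0x728596a4, 4), (0x40517396, 4), (0x328196a0, 4), (0x728596a4, 4), (0x40517396, 4)]⟩

def c_1321 : frmChk tB tA F_1321 = true := by decide +kernel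

def r_1321_0 : chkL rootF engF2 tB tA sB_263 sA_263 4 F_1321 [(511, 0, 0)]
    0x11381703c4d0784e13a0d03c2b258170ac5c238cc = true := by
  decide +kernel

theorem f_1321 (h : TabsF) : FrameF repsF 263 F_1321.f :=
  frame_of rfl c_1321 (runs_of engOK r_1321_0) (by decide +kernel) h.2 h.1

def F_1322 : FrX :=
  ⟨0x600020801080810000c0040180410101001004001100804400400804200c000208200012000201050820006000088004000812100880010014000c0028,
    0xa0, 1, 0x2040628194a4, 6,
    [(0xa0, 1), (0x637584a2, 4), (0x547690a1, 4), (0x64758390, 4), (0x547690a1, 4), (0x21647385, 4), (0x438690a2, 4), (0x64758390, 4), (0x438690a2, 4), (0x657483a1, 4), (0x64758390, 4), (0x21647385, 4)],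
    [(0x2040628194a4, 6), (0x10536492, 4), (0x718492a5, 4), (0x708692a3, 4), (0x10536492, 4), (0x718492a5, 4)]⟩

def c_1322 : frmChk tB tA F_1322 = true := by decide +kernel

def r_1322_0 : chkL rootF engF2 tB tA sB_263 sA_263 4 F_1322 [(255, 0, 0), (256, 0, 20)]
    0x105c871986605c550b41703c1e = true := by
  decide +kernel

def r_1322_1 : chkL rootF engF2 tB tA sB_263 sA_263 4 F_1322 [(256, 20, 21)]
    0x41b06cc612c2d = true := by
  decide +kernel

def r_1322_2 : chkL rootF engF2 tB tA sB_263 sA_263 4 F_1322 [(256, 41, 0)]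
    0x1 = true := by
  decide +kernel

theorem f_1322 (h : TabsF) : FrameF repsF 263 F_1322.f :=
  frame_of rfl c_1322 ((runs_of engOK r_1322_0).append ((runs_of engOK r_1322_1).append (runs_of engOK r_1322_2))) (by decide +kernel) h.2 h.1

def F_1323 : FrX :=
  ⟨0x1001040012008080000e00840800410008101000040420028020008200080024220000a01100401040802014820000240100080122020800022001001104,
    0xa3, 1, 0x435260748293a1, 7,
    [(0xa3, 1), (0x207584a6, 4), (0x10547693, 4), (0x647593a8, 4), (0x10547693, 4), (0x216485a7, 4), (0x208693a4, 4), (0x647593a8, 4), (0x208693a4, 4), (0x106574a8, 4), (0x647593a8, 4), (0x216485a7, 4)],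
    [(0x435260748293a1, 7), (0x41508692, 4), (0x415372a6, 4), (0x304197a8, 4), (0x41508692, 4), (0x415372a6, 4)]⟩

def c_1323 : frmChk tB tA F_1323 = true := by decide +kernel

def r_1323_0 : chkL rootF engF2 tB tA sB_263 sA_263 4 F_1323 [(255, 0, 0), (256, 0, 20)]
    0x41e8382b0acb26880f03ce2b800f05cd80cc1721c2b09c1e499256506a41ce421c3605c1e32417 = true := by
  decide +kernel

def r_1323_1 : chkL rootF engF2 tB tA sB_263 sA_263 4 F_1323 [(256, 20, 0)]
    0x4d8589e01381721c1705cc50b53203c271c91c = true := by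
  decide +kernel

theorem f_1323 (h : TabsF) : FrameF repsF 263 F_1323.f :=
  frame_of rfl c_1323 ((runs_of engOK r_1323_0).append (runs_of engOK r_1323_1)) (by decide +kernel) h.2 h.1

def F_1324 : FrX :=
  ⟨0x1001040012008080000e008408004100081010000480100081480400201200100801008011041002400414008000200040020a0182010008021008010084,
    0xa3, 1, 0x63718798a8, 5,
    [(0xa3, 1), (0x207584a6, 4), (0x10547693, 4), (0x647593a8, 4), (0x10547693, 4), (0x216485a7, 4), (0x208693a4, 4), (0x647593a8, 4), (0x208693a4, 4), (0x106574a8, 4), (0x647593a8, 4), (0x216485a7, 4)],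
    [(0x63718798a8, 5), (0x206591a3, 4), (0x547091a8, 4), (0x64728391, 4), (0x206591a3, 4), (0x547091a8, 4)]⟩

def c_1324 : frmChk tB tA F_1324 = true := by decide +kernel

def r_1324_0 : chkL rootF engF2 tB tA sB_263 sA_263 4 F_1324 [(255, 0, 0), (256, 0, 20)]
    0x105d2903c1e078a94350742c393480f1680f0780f03c3a09c27 = true := by
  decide +kernel

def r_1324_1 : chkL rootF engF2 tB tA sB_263 sA_263 4 F_1324 [(256, 20, 0)]
    0x109c274981703c1e0780f03c2b1681e = true := by
  decide +kernel

theorem f_1324 (h : TabsF) : FrameF repsF 263 F_1324.f :=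
  frame_of rfl c_1324 ((runs_of engOK r_1324_0).append (runs_of engOK r_1324_1)) (by decide +kernel) h.2 h.1

def F_1325 : FrX :=
  ⟨0x1001040012008080000e008408004100081010000421000011010300010000420802080880800048008812020408200040080012300000a1080200060200,
    0xa3, 1, 0x2132425061758498a6, 9,
    [(0xa3, 1), (0x207584a6, 4), (0x10547693, 4), (0x647593a8, 4), (0x10547693, 4), (0x216485a7, 4), (0x208693a4, 4), (0x647593a8, 4), (0x208693a4, 4), (0x106574a8, 4), (0x647593a8, 4), (0x216485a7, 4)],
    [(0x2132425061758498a6, 9), (0x325471a9, 4), (0x32658790, 4), (0x326481a0, 4), (0x325471a9, 4), (0x32658790, 4)]⟩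

def c_1325 : frmChk tB tA F_1325 = true := by decide +kernel

def r_1325_0 : chkL rootF engF2 tB tA sB_263 sA_263 4 F_1325 [(511, 0, 0)]
    0x42b0ac270b45924e700f0350b51cb08270b91c6a19805c5609c3c05c56164870e43c = true := by
  decide +kernel

theorem f_1325 (h : TabsF) : FrameF repsF 263 F_1325.f :=
  frame_of rfl c_1325 (runs_of engOK r_1325_0) (by decide +kernel) h.2 h.1

def F_1326 : FrX :=
  ⟨0x1001040012008080000e00840800410008101000060004208100050021020020080100800100110140080404820020022002082100000808082418000014,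
    0xa3, 1, 0x103252607585a0, 7,
    [(0xa3, 1), (0x207584a6, 4), (0x10547693, 4), (0x647593a8, 4), (0x10547693, 4), (0x216485a7, 4), (0x208693a4, 4), (0x647593a8, 4), (0x208693a4, 4), (0x106574a8, 4), (0x647593a8, 4), (0x216485a7, 4)],
    [(0x103252607585a0, 7), (0x217483a5, 4), (0x318496a0, 4), (0x41728396, 4), (0x318496a0, 4), (0x32415087, 4), (0x427196a5, 4), (0x41728396, 4), (0x427196a5, 4), (0x437281a0, 4), (0x41728396, 4), (0x32415087, 4)]⟩

def c_1326 : frmChk tB tB F_1326 = true := by decide +kernel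

def r_1326_0 : chkL rootF engF2 tB tB sB_263 sB_263 4 F_1326 [(511, 0, 0)]
    0x1264990b43a0b417 = true := by
  decide +kernel

theorem f_1326 (h : TabsF) : FrameF repsF 263 F_1326.f :=
  frame_of rfl c_1326 (runs_of engOK r_1326_0) (by decide +kernel) h.2 h.2

def F_1327 : FrX :=
  ⟨0x2002000900044004000e02041000141000800040800800248020600008010c0004008101002a010802020208400000043000810004200200400043402001,
    0xa3, 1, 0x4150728396a3, 6,
    [(0xa3, 1), (0x208693a5, 4), (0x10548793, 4), (0x217693a4, 4), (0x208693a5, 4), (0x10548793, 4)],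
    [(0x4150728396a3, 6), (0x758693a0, 4), (0x10325486, 4), (0x748692a1, 4), (0x758693a0, 4), (0x10325486, 4)]⟩

def c_1327 : frmChk tA tA F_1327 = true := by decide +kernel

def r_1327_0 : chkL rootF engF2 tA tA sA_263 sA_263 4 F_1327 [(511, 0, 0)]
    0x111c5a0e4330cc4e11c2b11c5a5255811c360d84b12c4b12c2705c350e41e = true := by
  decide +kernel

theorem f_1327 (h : TabsF) : FrameF repsF 263 F_1327.f :=
  frame_of rfl c_1327 (runs_of engOK r_1327_0) (by decide +kernel) h.1 h.1

def F_1328 : FrX :=
  ⟨0x80080a000804040e00002101002001000002040890080000310000808e00001001100401002085022048000404001c00041600010000000244101008080,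
    0xa6, 1, 0x103153647594a5, 7,
    [(0xa6, 1), (0x205396a8, 4), (0x10548796, 4), (0x214396a7, 4), (0x205396a8, 4), (0x10548796, 4)],
    [(0x103153647594a5, 7), (0x217684a5, 4), (0x317680a9, 4), (0x32407695, 4), (0x217684a5, 4), (0x317680a9, 4)]⟩

def c_1328 : frmChk tA tA F_1328 = true := by decide +kernel

def r_1328_0 : chkL rootF engF2 tA tA sA_263 sA_263 4 F_1328 [(511, 0, 0)]
    0x11542e21c9305c650d4b806c1d = true := by
  decide +kernel

theorem f_1328 (h : TabsF) : FrameF repsF 263 F_1328.f :=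
  frame_of rfl c_1328 (runs_of engOK r_1328_0) (by decide +kernel) h.1 h.1

def F_1329 : FrX :=
  ⟨0x482000044040440000c2040020009000182040001103400001020800000c04000880040902000402080020604010400010090006210080601020200008,
    0xa0, 1, 0x203240536584a5, 7,
    [(0xa0, 1), (0x538690a2, 4), (0x548790a1, 4), (0x21437690, 4), (0x538690a2, 4), (0x548790a1, 4)],
    [(0x203240536584a5, 7), (0x204396a5, 4), (0x417296a8, 4), (0x31708596, 4), (0x204396a5, 4), (0x417296a8, 4)]⟩

def c_1329 : frmChk tA tA F_1329 = true := by decide +kernel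

def r_1329_0 : chkL rootF engF2 tA tA sA_263 sA_263 4 F_1329 [(511, 0, 0)]
    0x114c550d44d03c5c4700f0b8e4 = true := by
  decide +kernel

theorem f_1329 (h : TabsF) : FrameF repsF 263 F_1329.f :=
  frame_of rfl c_1329 (runs_of engOK r_1329_0) (by decide +kernel) h.1 h.1

def F_1330 : FrX :=
  ⟨0x2002000900044004000e02041000141000800040800401042008400010810040140088004022501608000002000060000300802041000020044024210200,
    0xa3, 1, 0x102054617091a3, 7,
    [(0xa3, 1), (0x208693a5, 4), (0x10548793, 4), (0x217693a4, 4), (0x208693a5, 4), (0x10548793, 4)],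
    [(0x102054617091a3, 7), (0x637180a4, 4), (0x54638297, 4), (0x206391a5, 4), (0x637180a4, 4), (0x54638297, 4)]⟩

def c_1330 : frmChk tA tA F_1330 = true := by decide +kernel

def r_1330_0 : chkL rootF engF2 tA tA sA_263 sA_263 4 F_1330 [(511, 0, 0)]
    0x105c1709c1bd404709d8909c1b06c2d07827 = true := by
  decide +kernel

theorem f_1330 (h : TabsF) : FrameF repsF 263 F_1330.f :=
  frame_of rfl c_1330 (runs_of engOK r_1330_0) (by decide +kernel) h.1 h.1

def F_1331 : FrX :=
  ⟨0x2002000900044004000e02041000141000800040801000282010200060800882000028001102005026040010400020801000082030001800200210082001,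
    0xa3, 1, 0x324354758494a2, 7,
    [(0xa3, 1), (0x208693a5, 4), (0x10548793, 4), (0x217693a4, 4), (0x208693a5, 4), (0x10548793, 4)],
    [(0x324354758494a2, 7), (0x647295a0, 4), (0x10628397, 4), (0x54728396, 4), (0x10628397, 4), (0x427596a1, 4), (0x658394a0, 4), (0x54728396, 4), (0x658394a0, 4), (0x10547692, 4), (0x54728396, 4), (0x427596a1, 4)]⟩

def c_1331 : frmChk tA tB F_1331 = true := by decide +kernel

def r_1331_0 : chkL rootF engF2 tA tB sA_263 sB_263 4 F_1331 [(511, 0, 0)]
    0x10b4390b439270b809c1d0ac1b0ac1b0e51c0b8c51b2a206c17 = true := by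
  decide +kernel

theorem f_1331 (h : TabsF) : FrameF repsF 263 F_1331.f :=
  frame_of rfl c_1331 (runs_of engOK r_1331_0) (by decide +kernel) h.1 h.2

def F_1332 : FrX :=
  ⟨0x482000044040440000c2040020009000182040001103400001020800000c040008800480824201000800006040200011800002060101a2000002210008,
    0xa0, 1, 0x203042638493a3, 7,
    [(0xa0, 1), (0x538690a2, 4), (0x548790a1, 4), (0x21437690, 4), (0x538690a2, 4), (0x548790a1, 4)],
    [(0x203042638493a3, 7), (0x204396a5, 4), (0x31708596, 4), (0x417296a8, 4), (0x204396a5, 4), (0x31708596, 4)]⟩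

def c_1332 : frmChk tA tA F_1332 = true := by decide +kernel

def r_1332_0 : chkL rootF engF2 tA tA sA_263 sA_263 4 F_1332 [(511, 0, 0)]
    0x10f03c8940f42ec4ac04e170ca05c17 = true := by
  decide +kernel

theorem f_1332 (h : TabsF) : FrameF repsF 263 F_1332.f :=
  frame_of rfl c_1332 (runs_of engOK r_1332_0) (by decide +kernel) h.1 h.1

def F_1333 : FrX :=
  ⟨0x2002000900044004000e02041000141000800040801000282010100141000182000028000a02800e220000004000608020000820108000002422100c2000,
    0xa3, 1, 0x203240536098a2, 7,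
    [(0xa3, 1), (0x208693a5, 4), (0x10548793, 4), (0x217693a4, 4), (0x208693a5, 4), (0x10548793, 4)],
    [(0x203240536098a2, 7), (0x508394a6, 4), (0x20618397, 4), (0x527483a1, 4), (0x508394a6, 4), (0x20618397, 4)]⟩

def c_1333 : frmChk tA tA F_1333 = true := by decide +kernel

def r_1333_0 : chkL rootF engF2 tA tA sA_263 sA_263 4 F_1333 [(511, 0, 0)]
    0x1b828aa28aaa30560f05c0b827c24a555232074ca = true := by
  decide +kernel

theorem f_1333 (h : TabsF) : FrameF repsF 263 F_1333.f :=
  frame_of rfl c_1333 (runs_of engOK r_1333_0) (by decide +kernel) h.1 h.1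

def F_1334 : FrX :=
  ⟨0x482000044040440000c204002000900018204002005090000002028002080280008004002205080a000200202010840280080208020202002200010210,
    0xa0, 1, 0x213150657580a5, 7,
    [(0xa0, 1), (0x538690a2, 4), (0x548790a1, 4), (0x21437690, 4), (0x538690a2, 4), (0x548790a1, 4)],
    [(0x213150657580a5, 7), (0x508197a2, 4), (0x658397a4, 4), (0x31426097, 4), (0x508197a2, 4), (0x658397a4, 4)]⟩

def c_1334 : frmChk tA tA F_1334 = true := by decide +kernel

def r_1334_0 : chkL rootF engF2 tA tA sA_263 sA_263 4 F_1334 [(511, 0, 0)]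
    0x106c1703c7803c552681b05c9914c0f0ac270741d14cd422c71 = true := by
  decide +kernel

theorem f_1334 (h : TabsF) : FrameF repsF 263 F_1334.f :=
  frame_of rfl c_1334 (runs_of engOK r_1334_0) (by decide +kernel) h.1 h.1

def F_1335 : FrX :=
  ⟨0x482000044040440000c2040020009000182040010103000101000808000c040048800040a2000202100000604010080080010006210102400802210008,
    0xa0, 1, 0x203240517581a6, 7,
    [(0xa0, 1), (0x538690a2, 4), (0x548790a1, 4), (0x21437690, 4), (0x538690a2, 4), (0x548790a1, 4)],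
    [(0x203240517581a6, 7), (0x435271a0, 4), (0x728496a1, 4), (0x507196a2, 4), (0x728496a1, 4), (0x107583a2, 4), (0x204396a5, 4), (0x507196a2, 4), (0x204396a5, 4), (0x215084a7, 4), (0x507196a2, 4), (0x107583a2, 4)]⟩

def c_1335 : frmChk tA tB F_1335 = true := by decide +kernel

def r_1335_0 : chkL rootF engF2 tA tB sA_263 sB_263 4 F_1335 [(255, 0, 0), (256, 0, 18)]
    0x18342e0781e0783503c0f = true := by
  decide +kernel

def r_1335_1 : chkL rootF engF2 tA tB sA_263 sB_263 4 F_1335 [(256, 18, 0)]
    0x41b0b43912c1d05d61d801e = true := by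
  decide +kernel

theorem f_1335 (h : TabsF) : FrameF repsF 263 F_1335.f :=
  frame_of rfl c_1335 ((runs_of engOK r_1335_0).append (runs_of engOK r_1335_1)) (by decide +kernel) h.1 h.2

def F_1336 : FrX :=
  ⟨0x482000044040440000c2040020009000182040001100408001200020000c040208800600020205020808006040000c0080090006200802401002200008,
    0xa0, 1, 0x4352618098a4, 6,
    [(0xa0, 1), (0x538690a2, 4), (0x548790a1, 4), (0x21437690, 4), (0x538690a2, 4), (0x548790a1, 4)],
    [(0x4352618098a4, 6), (0x30428591, 4), (0x308697a2, 4), (0x306571a4, 4), (0x30428591, 4), (0x308697a2, 4)]⟩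

def c_1336 : frmChk tA tA F_1336 = true := by decide +kernel

def r_1336_0 : chkL rootF engF2 tA tA sA_263 sA_263 4 F_1336 [(255, 0, 0), (256, 0, 21)]
    0x109c2709d2a0b80f = true := by
  decide +kernel

def r_1336_1 : chkL rootF engF2 tA tA sA_263 sA_263 4 F_1336 [(256, 21, 0)]
    0x4171550b0d81742d2388c2789721c450d4541b = true := by
  decide +kernel

theorem f_1336 (h : TabsF) : FrameF repsF 263 F_1336.f :=
  frame_of rfl c_1336 ((runs_of engOK r_1336_0).append (runs_of engOK r_1336_1)) (by decide +kernel) h.1 h.1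

def F_1337 : FrX :=
  ⟨0x80080a000804040e000021010020010000020408a0002000300110008224001400100421002084080048001404000408041400030008400204101008080,
    0xa6, 1, 0x2142546092a0, 6,
    [(0xa6, 1), (0x205396a8, 4), (0x10548796, 4), (0x214396a7, 4), (0x205396a8, 4), (0x10548796, 4)],
    [(0x2142546092a0, 6), (0x316480a9, 4), (0x516487a2, 4), (0x53647092, 4), (0x316480a9, 4), (0x516487a2, 4)]⟩

def c_1337 : frmChk tA tA F_1337 = true := by decide +kernel

def r_1337_0 : chkL rootF engF2 tA tA sA_263 sA_263 4 F_1337 [(255, 0, 0), (256, 0, 19)]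
    0x41d0746a13427 = true := by
  decide +kernel

def r_1337_1 : chkL rootF engF2 tA tA sA_263 sA_263 4 F_1337 [(256, 19, 0)]
    0x41e0b81e0781e16455 = true := by
  decide +kernel

theorem f_1337 (h : TabsF) : FrameF repsF 263 F_1337.f :=
  frame_of rfl c_1337 ((runs_of engOK r_1337_0).append (runs_of engOK r_1337_1)) (by decide +kernel) h.1 h.1

def F_1338 : FrX :=
  ⟨0x482000044040440000c2040020009000182040010040100100800280020822808080000804040812005200202001140084004000600202002000010610,
    0xa0, 1, 0x3040528297a3, 6,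
    [(0xa0, 1), (0x538690a2, 4), (0x548790a1, 4), (0x21437690, 4), (0x538690a2, 4), (0x548790a1, 4)],
    [(0x3040528297a3, 6), (0x538492a6, 4), (0x32417096, 4), (0x637092a5, 4), (0x32417096, 4), (0x526381a9, 4), (0x657084a3, 4), (0x637092a5, 4), (0x657084a3, 4), (0x416293a5, 4), (0x637092a5, 4), (0x526381a9, 4)]⟩

def c_1338 : frmChk tA tB F_1338 = true := by decide +kernel

def r_1338_0 : chkL rootF engF2 tA tB sA_263 sB_263 4 F_1338 [(511, 0, 0)]
    0x42d074171b00f = true := by
  decide +kernel

theorem f_1338 (h : TabsF) : FrameF repsF 263 F_1338.f :=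
  frame_of rfl c_1338 (runs_of engOK r_1338_0) (by decide +kernel) h.1 h.2

def F_1339 : FrX :=
  ⟨0x482000044040440000c2040020009000182040000421021001080800080101200200041210080122000010084020508000200210810180004220000208,
    0xa0, 1, 0x2131415482a0, 6,
    [(0xa0, 1), (0x538690a2, 4), (0x548790a1, 4), (0x21437690, 4), (0x538690a2, 4), (0x548790a1, 4)],
    [(0x2131415482a0, 6), (0x326190a8, 4), (0x537190a4, 4), (0x52768490, 4), (0x326190a8, 4), (0x537190a4, 4)]⟩

def c_1339 : frmChk tA tA F_1339 = true := by decide +kernel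

def r_1339_0 : chkL rootF engF2 tA tA sA_263 sA_263 4 F_1339 [(511, 0, 0)]
    0x1324360b82706c47158350ac1e12e0e = true := by
  decide +kernel

theorem f_1339 (h : TabsF) : FrameF repsF 263 F_1339.f :=
  frame_of rfl c_1339 (runs_of engOK r_1339_0) (by decide +kernel) h.1 h.1

def F_1340 : FrX :=
  ⟨0x2002000900044004000e020410001410008000408008040080a0224000010c00040081004022012002020280600000803080080084010200400202402001,
    0xa3, 1, 0x4154637298a3, 6,
    [(0xa3, 1), (0x208693a5, 4), (0x10548793, 4), (0x217693a4, 4), (0x208693a5, 4), (0x10548793, 4)],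
    [(0x4154637298a3, 6), (0x217095a3, 4), (0x32405186, 4), (0x215386a9, 4), (0x32405186, 4), (0x537491a2, 4), (0x708693a5, 4), (0x215386a9, 4), (0x708693a5, 4), (0x314052a9, 4), (0x215386a9, 4), (0x537491a2, 4)]⟩

def c_1340 : frmChk tA tB F_1340 = true := by decide +kernel

def r_1340_0 : chkL rootF engF2 tA tB sA_263 sB_263 4 F_1340 [(511, 0, 0)]
    0x11681d194170cc3306c3905c1e1701e136c1546d01343306c394541b0784d = true := by
  decide +kernel

theorem f_1340 (h : TabsF) : FrameF repsF 263 F_1340.f :=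
  frame_of rfl c_1340 (runs_of engOK r_1340_0) (by decide +kernel) h.1 h.2

def F_1341 : FrX :=
  ⟨0x2002000900044004000e02041000141000800040801000282010040100202102800020220002021810040011012000040300482010080008004011082001,
    0xa3, 1, 0x21315062718298a6, 8,
    [(0xa3, 1), (0x208693a5, 4), (0x10548793, 4), (0x217693a4, 4), (0x208693a5, 4), (0x10548793, 4)],
    [(0x21315062718298a6, 8), (0x308594a2, 4), (0x406175a3, 4), (0x306192a4, 4), (0x406175a3, 4), (0x328790a4, 4), (0x426185a9, 4), (0x306192a4, 4), (0x426185a9, 4), (0x437592a0, 4), (0x306192a4, 4), (0x328790a4, 4)]⟩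

def c_1341 : frmChk tA tB F_1341 = true := by decide +kernel

def r_1341_0 : chkL rootF engF2 tA tB sA_263 sB_263 4 F_1341 [(255, 0, 0), (256, 0, 16)]
    0x4560785a5601e0ac1706c1b18c270ac4e1c872 = true := by
  decide +kernel

def r_1341_1 : chkL rootF engF2 tA tB sA_263 sB_263 4 F_1341 [(256, 16, 0)]
    0x41b5323841d58314cc05c390e5515841e06c5a5295815455550275604b = true := by
  decide +kernel

theorem f_1341 (h : TabsF) : FrameF repsF 263 F_1341.f :=
  frame_of rfl c_1341 ((runs_of engOK r_1341_0).append (runs_of engOK r_1341_1)) (by decide +kernel) h.1 h.2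

theorem cl_263 (h : TabsF) : ∀ f ∈ fr_263, FrameF repsF 263 f :=
  List.forall_mem_cons.2 ⟨f_1314 h, List.forall_mem_cons.2 ⟨f_1315 h, List.forall_mem_cons.2 ⟨f_1316 h, List.forall_mem_cons.2 ⟨f_1317 h, List.forall_mem_cons.2 ⟨f_1318 h, List.forall_mem_cons.2 ⟨f_1319 h, List.forall_mem_cons.2 ⟨f_1320 h, List.forall_mem_cons.2 ⟨f_1321 h, List.forall_mem_cons.2 ⟨f_1322 h, List.forall_mem_cons.2 ⟨f_1323 h, List.forall_mem_cons.2 ⟨f_1324 h, List.forall_mem_cons.2 ⟨f_1325 h, List.forall_mem_cons.2 ⟨f_1326 h, List.forall_mem_cons.2 ⟨f_1327 h, List.forall_mem_cons.2 ⟨f_1328 h, List.forall_mem_cons.2 ⟨f_1329 h, List.forall_mem_cons.2 ⟨f_1330 h, List.forall_mem_cons.2 ⟨f_1331 h, List.forall_mem_cons.2 ⟨f_1332 h, List.forall_mem_cons.2 ⟨f_1333 h, List.forall_mem_cons.2 ⟨f_1334 h, List.forall_mem_cons.2 ⟨f_1335 h, List.forall_mem_cons.2 ⟨f_1336 h, List.forall_mem_cons.2 ⟨f_1337 h, List.forall_mem_cons.2 ⟨f_1338 h, List.forall_mem_cons.2 ⟨f_1339 h, List.forall_mem_cons.2 ⟨f_1340 h, List.forall_mem_cons.2 ⟨f_1341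 h,
    fun _ h0 => absurd h0 List.not_mem_nil⟩⟩⟩⟩⟩⟩⟩⟩⟩⟩⟩⟩⟩⟩⟩⟩⟩⟩⟩⟩⟩⟩⟩⟩⟩⟩⟩⟩

/-- the classes finished in this module -/
theorem all_L13 (h : TabsF) : ∀ p ∈ ([(257, fr_257), (258, fr_258), (259, fr_259), (260, fr_260), (261, fr_261), (262, fr_262), (263, fr_263)] : List (ℕ × List ℕ)),
    ∀ f ∈ p.2, FrameF repsF p.1 f :=
  List.forall_mem_cons.2 ⟨cl_257 h, List.forall_mem_cons.2 ⟨cl_258 h, List.forall_mem_cons.2 ⟨cl_259 h, List.forall_mem_cons.2 ⟨cl_260 h, List.forall_mem_cons.2 ⟨cl_261 h, List.forall_mem_cons.2 ⟨cl_262 h, List.forall_mem_cons.2 ⟨cl_263 h, fun _ h0 => absurd h0 List.not_mem_nil⟩⟩⟩⟩⟩⟩⟩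

end Pool.Agent.Gen.TY.F
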